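import Mathlib
import Pool.Agent.Helper14.CMF.T01

set_option linter.all false

section

/-!
Nonnegativity of a bivariate integer polynomial on a box, by Kronecker substitution:
the homogenised polynomial in the two barycentric coordinates is evaluated at one pair of
large integers, and the digits of the value are its coefficients.
-/

namespace Pool.EK71

/-- `(sum of a_j B^j C^(len-1-j), C^len)` -/
def hrow (B C : ℤ) : List ℤ → ℤ × ℤ
  | [] => (0, 1)
  | a :: l => match hrow B C l with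
    | (v, w) => (Int.add (Int.mul a w) (Int.mul B v), Int.mul C w)

/-- `sum of p_ij A^i B^j C^(N-i-j)` for a triangular array -/
def hpol (A B C : ℤ) : List (List ℤ) → ℤ
  | [] => 0
  | r :: P => Int.add (hrow B C r).1 (Int.mul A (hpol A B C P))

/-- the same sums of absolute values -/
def nrow (B C : ℕ) : List ℤ → ℕ × ℕ
  | [] => (0, 1)
  | a :: l => match nrow B C l with
    | (v, w) => (a.natAbs * w + B * v, C * w)

def npol (A B C : ℕ) : List (List ℤ) → ℕ
  | [] => 0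
  | r :: P => (nrow B C r).1 + A * npol A B C P

/-- the same sums over the reals -/
noncomputable def rrow (B C : ℝ) : List ℤ → ℝ × ℝ
  | [] => (0, 1)
  | a :: l => ((a : ℝ) * (rrow B C l).2 + B * (rrow B C l).1, C * (rrow B C l).2)

noncomputable def rpol (A B C : ℝ) : List (List ℤ) → ℝ
  | [] => 0
  | r :: P => (rrow B C r).1 + A * rpol A B C P

/-- row `i` of `P` has length `n - i` -/
def shp : ℕ → List (List ℤ) → Bool
  | 0, [] => true
  | 0, _ :: _ => false
  | _ + 1, [] => true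
  | n + 1, r :: P => Nat.beq r.length (n + 1) && shp n P

/-- the lowest `n` digits of `T` in base `W` are `< H` -/
def dig (W H : ℕ) : ℕ → ℕ → Bool
  | 0, _ => true
  | n + 1, T => Nat.ble (Nat.succ (T % W)) H && dig W H n (T / W)

/-- evaluation of `P` at `(x, y)` -/
noncomputable def ev1 (y : ℝ) : List ℤ → ℝ
  | [] => 0
  | a :: l => (a : ℝ) + y * ev1 y l

noncomputable def ev2 (x y : ℝ) : List (List ℤ) → ℝ
  | [] => 0
  | r :: P => ev1 y r + x * ev2 x y P

/-- `v` and `φ` are the values of one form of bidegree `(N, M)` with integer coefficients -/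
def Rp (Z W : ℤ) (T0 T1 V0 V1 : ℝ) (N M c : ℕ) (v : ℤ) (φ : ℝ) : Prop :=
  ∃ L : List (ℤ × ℕ × ℕ), (∀ t ∈ L, t.2.1 ≤ N ∧ t.2.2 ≤ M) ∧
    (L.map (fun t => t.1.natAbs)).sum ≤ c ∧
    v = (L.map (fun t => t.1 * Z ^ t.2.1 * W ^ t.2.2)).sum ∧
    φ = (L.map (fun t => (t.1 : ℝ) * (T1 ^ t.2.1 * T0 ^ (N - t.2.1)) *
      (V1 ^ t.2.2 * V0 ^ (M - t.2.2)))).sum

section Rp

variable {Z W : ℤ} {T0 T1 V0 V1 : ℝ}

lemma Rp.zero (N M : ℕ) : Rp Z W T0 T1 V0 V1 N M 0 0 0 :=
  ⟨[], by simp, by simp, by simp, by simp⟩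

lemma Rp.const (a : ℤ) : Rp Z W T0 T1 V0 V1 0 0 a.natAbs a a :=
  ⟨[(a, 0, 0)], by simp, by simp, by simp, by simp⟩

lemma Rp.add {N M c c' : ℕ} {v v' : ℤ} {φ φ' : ℝ} (h : Rp Z W T0 T1 V0 V1 N M c v φ)
    (h' : Rp Z W T0 T1 V0 V1 N M c' v' φ') :
    Rp Z W T0 T1 V0 V1 N M (c + c') (v + v') (φ + φ') := by
  obtain ⟨L, h1, h2, h3, h4⟩ := h
  obtain ⟨L', h1', h2', h3', h4'⟩ := h'
  refine ⟨L ++ L', ?_, ?_, ?_, ?_⟩
  · intro t ht
    rcases List.mem_append.1 ht with h | h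
    · exact h1 t h
    · exact h1' t h
  · rw [List.map_append, List.sum_append]; omega
  · rw [List.map_append, List.sum_append, h3, h3']
  · rw [List.map_append, List.sum_append, h4, h4']

lemma Rp.smul {N M c : ℕ} {v : ℤ} {φ : ℝ} (a : ℤ) (h : Rp Z W T0 T1 V0 V1 N M c v φ) :
    Rp Z W T0 T1 V0 V1 N M (a.natAbs * c) (a * v) (a * φ) := by
  obtain ⟨L, h1, h2, h3, h4⟩ := h
  refine ⟨L.map (fun t => (a * t.1, t.2)), ?_, ?_, ?_, ?_⟩
  · intro t ht
    obtain ⟨s, hs, rfl⟩ := List.mem_map.1 ht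
    exact h1 s hs
  · rw [List.map_map]
    have : (L.map ((fun t : ℤ × ℕ × ℕ => t.1.natAbs) ∘ fun t => (a * t.1, t.2))).sum
        = a.natAbs * (L.map (fun t => t.1.natAbs)).sum := by
      rw [← List.sum_map_mul_left]
      congr 1
      refine List.map_congr_left (fun t _ => ?_)
      simp [Int.natAbs_mul]
    rw [this]; exact Nat.mul_le_mul_left _ h2
  · rw [List.map_map, h3, ← List.sum_map_mul_left]
    congr 1
    refine List.map_congr_left (fun t _ => ?_)
    simp only [Function.comp]; ring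
  · rw [List.map_map, h4, ← List.sum_map_mul_left]
    congr 1
    refine List.map_congr_left (fun t _ => ?_)
    simp only [Function.comp]; push_cast; ring

/-- multiplication by `T0` -/
lemma Rp.t0 {N M c : ℕ} {v : ℤ} {φ : ℝ} (h : Rp Z W T0 T1 V0 V1 N M c v φ) :
    Rp Z W T0 T1 V0 V1 (N + 1) M c v (T0 * φ) := by
  obtain ⟨L, h1, h2, h3, h4⟩ := h
  refine ⟨L, fun t ht => ⟨(h1 t ht).1.trans (Nat.le_succ _), (h1 t ht).2⟩, h2, h3, ?_⟩
  rw [h4, ← List.sum_map_mul_left]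
  congr 1
  refine List.map_congr_left (fun t ht => ?_)
  have e : N + 1 - t.2.1 = (N - t.2.1) + 1 := by have := (h1 t ht).1; omega
  rw [e, pow_succ]; ring

/-- multiplication by `T1` -/
lemma Rp.t1 {N M c : ℕ} {v : ℤ} {φ : ℝ} (h : Rp Z W T0 T1 V0 V1 N M c v φ) :
    Rp Z W T0 T1 V0 V1 (N + 1) M c (Z * v) (T1 * φ) := by
  obtain ⟨L, h1, h2, h3, h4⟩ := h
  refine ⟨L.map (fun t => (t.1, t.2.1 + 1, t.2.2)), ?_, ?_, ?_, ?_⟩
  · intro t ht
    obtain ⟨s, hs, rfl⟩ := List.mem_map.1 ht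
    exact ⟨Nat.succ_le_succ (h1 s hs).1, (h1 s hs).2⟩
  · rw [List.map_map]; exact h2
  · rw [List.map_map, h3, ← List.sum_map_mul_left]
    congr 1
    refine List.map_congr_left (fun t _ => ?_)
    simp only [Function.comp]; ring
  · rw [List.map_map, h4, ← List.sum_map_mul_left]
    congr 1
    refine List.map_congr_left (fun t ht => ?_)
    have e : N + 1 - (t.2.1 + 1) = N - t.2.1 := by (clear * - Z W c v L; omega)
    simp only [Function.comp, e]; ring

/-- multiplication by `V0` -/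
lemma Rp.v0 {N M c : ℕ} {v : ℤ} {φ : ℝ} (h : Rp Z W T0 T1 V0 V1 N M c v φ) :
    Rp Z W T0 T1 V0 V1 N (M + 1) c v (V0 * φ) := by
  obtain ⟨L, h1, h2, h3, h4⟩ := h
  refine ⟨L, fun t ht => ⟨(h1 t ht).1, (h1 t ht).2.trans (Nat.le_succ _)⟩, h2, h3, ?_⟩
  rw [h4, ← List.sum_map_mul_left]
  congr 1
  refine List.map_congr_left (fun t ht => ?_)
  have e : M + 1 - t.2.2 = (M - t.2.2) + 1 := by have := (h1 t ht).2; omega
  rw [e, pow_succ]; ring

/-- multiplication by `V1` -/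
lemma Rp.v1 {N M c : ℕ} {v : ℤ} {φ : ℝ} (h : Rp Z W T0 T1 V0 V1 N M c v φ) :
    Rp Z W T0 T1 V0 V1 N (M + 1) c (W * v) (V1 * φ) := by
  obtain ⟨L, h1, h2, h3, h4⟩ := h
  refine ⟨L.map (fun t => (t.1, t.2.1, t.2.2 + 1)), ?_, ?_, ?_, ?_⟩
  · intro t ht
    obtain ⟨s, hs, rfl⟩ := List.mem_map.1 ht
    exact ⟨(h1 s hs).1, Nat.succ_le_succ (h1 s hs).2⟩
  · rw [List.map_map]; exact h2
  · rw [List.map_map, h3, ← List.sum_map_mul_left]
    congr 1
    refine List.map_congr_left (fun t _ => ?_)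
    simp only [Function.comp]; ring
  · rw [List.map_map, h4, ← List.sum_map_mul_left]
    congr 1
    refine List.map_congr_left (fun t ht => ?_)
    have e : M + 1 - (t.2.2 + 1) = M - t.2.2 := by omega
    simp only [Function.comp, e]; ring

/-- multiplication by `a T0 + b T1` -/
lemma Rp.tl {N M c : ℕ} {v : ℤ} {φ : ℝ} (a b : ℤ) (h : Rp Z W T0 T1 V0 V1 N M c v φ) :
    Rp Z W T0 T1 V0 V1 (N + 1) M ((a.natAbs + b.natAbs) * c) ((a + b * Z) * v)
      ((a * T0 + b * T1) * φ) := by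
  have h1 := (h.t0).smul a
  have h2 := (h.t1).smul b
  have h3 := h1.add h2
  have e1 : a.natAbs * c + b.natAbs * c = (a.natAbs + b.natAbs) * c := by ring
  have e2 : a * v + b * (Z * v) = (a + b * Z) * v := by ring
  have e3 : (a : ℝ) * (T0 * φ) + (b : ℝ) * (T1 * φ) = (a * T0 + b * T1) * φ := by ring
  rw [e1, e2, e3] at h3
  exact h3

/-- multiplication by `a V0 + b V1` -/
lemma Rp.vl {N M c : ℕ} {v : ℤ} {φ : ℝ} (a b : ℤ) (h : Rp Z W T0 T1 V0 V1 N M c v φ) :
    Rp Z W T0 T1 V0 V1 N (M + 1) ((a.natAbs + b.natAbs) * c) ((a + b * W) * v)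
      ((a * V0 + b * V1) * φ) := by
  have h1 := (h.v0).smul a
  have h2 := (h.v1).smul b
  have h3 := h1.add h2
  have e1 : a.natAbs * c + b.natAbs * c = (a.natAbs + b.natAbs) * c := by ring
  have e2 : a * v + b * (W * v) = (a + b * W) * v := by ring
  have e3 : (a : ℝ) * (V0 * φ) + (b : ℝ) * (V1 * φ) = (a * V0 + b * V1) * φ := by ring
  rw [e1, e2, e3] at h3
  exact h3

/-- a bilinear form by which one may multiply -/
def Mk (Z W : ℤ) (T0 T1 V0 V1 : ℝ) (cB : ℕ) (B : ℤ) (Bφ : ℝ) : Prop :=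
  ∀ N M c v φ, Rp Z W T0 T1 V0 V1 N M c v φ →
    Rp Z W T0 T1 V0 V1 (N + 1) (M + 1) (cB * c) (B * v) (Bφ * φ)

lemma Mk.of (a b c d : ℤ) : Mk Z W T0 T1 V0 V1 ((a.natAbs + b.natAbs) * (c.natAbs + d.natAbs))
    ((a + b * Z) * (c + d * W)) ((a * T0 + b * T1) * (c * V0 + d * V1)) := by
  intro N M k v φ h
  have h1 := (h.vl c d).tl a b
  rw [← mul_assoc, ← mul_assoc, ← mul_assoc] at h1
  exact h1

lemma row_rp {cB cC : ℕ} {B C : ℤ} {Bφ Cφ : ℝ} (hB : Mk Z W T0 T1 V0 V1 cB B Bφ)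
    (hC : Mk Z W T0 T1 V0 V1 cC C Cφ) (l : List ℤ) :
    Rp Z W T0 T1 V0 V1 l.length l.length (nrow cB cC l).2 (hrow B C l).2 (rrow Bφ Cφ l).2 ∧
    (∀ n, l.length = n + 1 →
      Rp Z W T0 T1 V0 V1 n n (nrow cB cC l).1 (hrow B C l).1 (rrow Bφ Cφ l).1) := by
  induction l with
  | nil =>
    refine ⟨?_, ?_⟩
    · simpa [nrow, hrow, rrow] using (Rp.const (Z := Z) (W := W) (T0 := T0) (T1 := T1)
        (V0 := V0) (V1 := V1) 1)
    · intro n hn; simp at hn
  | cons a l ih =>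
    obtain ⟨ih1, ih2⟩ := ih
    refine ⟨?_, ?_⟩
    · exact hC _ _ _ _ _ ih1
    · intro n hn
      have hn' : l.length = n := by simpa using hn
      have h1 := ih1.smul a
      rw [hn'] at h1
      rcases Nat.eq_zero_or_pos n with h0 | hpos
      · subst h0
        obtain rfl : l = [] := List.length_eq_zero_iff.1 hn'
        have := h1.add (Rp.zero (Z := Z) (W := W) (T0 := T0) (T1 := T1)
          (V0 := V0) (V1 := V1) 0 0)
        simpa [nrow, hrow, rrow] using this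
      · obtain ⟨m, rfl⟩ : ∃ m, n = m + 1 := ⟨n - 1, by omega⟩
        have h2 := hB _ _ _ _ _ (ih2 m hn')
        exact h1.add h2

lemma pol_rp {cA cB cC : ℕ} {A B C : ℤ} {Aφ Bφ Cφ : ℝ} (hA : Mk Z W T0 T1 V0 V1 cA A Aφ)
    (hB : Mk Z W T0 T1 V0 V1 cB B Bφ) (hC : Mk Z W T0 T1 V0 V1 cC C Cφ)
    (P : List (List ℤ)) (N : ℕ) (hs : shp (N + 1) P = true) :
    Rp Z W T0 T1 V0 V1 N N (npol cA cB cC P) (hpol A B C P) (rpol Aφ Bφ Cφ P) := by
  induction P generalizing N with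
  | nil => exact Rp.zero N N
  | cons r P ih =>
    simp only [shp, Bool.and_eq_true] at hs
    have hr : r.length = N + 1 := Nat.eq_of_beq_eq_true hs.1
    have h1 := (row_rp hB hC r).2 N hr
    rcases Nat.eq_zero_or_pos N with h0 | hpos
    · subst h0
      have hP : P = [] := by
        cases P with
        | nil => rfl
        | cons a b => have := hs.2; simp [shp] at this
      subst hP
      have := h1.add (Rp.zero (Z := Z) (W := W) (T0 := T0) (T1 := T1)
          (V0 := V0) (V1 := V1) 0 0)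
      simpa [npol, hpol, rpol] using this
    · obtain ⟨m, rfl⟩ : ∃ m, N = m + 1 := ⟨N - 1, by omega⟩
      have h2 := hA _ _ _ _ _ (ih m hs.2)
      exact h1.add h2

end Rp

end Pool.EK71

end

section

/-!
Digits of a Kronecker value with small coefficients, and the box test.
-/

namespace Pool.EK71

open Finset

/-- coefficient at `(k, l)` of a list of terms -/
def qq (L : List (ℤ × ℕ × ℕ)) (k l : ℕ) : ℤ :=
  (L.map (fun t => if k = t.2.1 then (if l = t.2.2 then t.1 else 0) else 0)).sum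

lemma qq_cons (t : ℤ × ℕ × ℕ) (L : List (ℤ × ℕ × ℕ)) (k l : ℕ) :
    qq (t :: L) k l = (if k = t.2.1 then (if l = t.2.2 then t.1 else 0) else 0) + qq L k l := by
  simp [qq]

lemma qq_abs (L : List (ℤ × ℕ × ℕ)) (k l : ℕ) :
    |qq L k l| ≤ ((L.map (fun t => t.1.natAbs)).sum : ℕ) := by
  induction L with
  | nil => simp [qq]
  | cons t L ih =>
    rw [qq_cons, List.map_cons, List.sum_cons]
    push_cast
    refine (abs_add_le _ _).trans (add_le_add ?_ (by push_cast at ih; exact ih))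
    split_ifs <;> simp

lemma grp {R : Type*} [CommRing R] (N M : ℕ) (L : List (ℤ × ℕ × ℕ))
    (h : ∀ t ∈ L, t.2.1 ≤ N ∧ t.2.2 ≤ M) (F : ℕ → ℕ → R) :
    (L.map (fun t => (t.1 : R) * F t.2.1 t.2.2)).sum =
      ∑ k ∈ range (N + 1), ∑ l ∈ range (M + 1), (qq L k l : R) * F k l := by
  induction L with
  | nil => simp [qq]
  | cons t L ih =>
    have ht := h t (by simp)
    rw [List.map_cons, List.sum_cons, ih (fun s hs => h s (by simp [hs]))]
    have e : ∀ k l, (qq (t :: L) k l : R) * F k l =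
        (if k = t.2.1 then (if l = t.2.2 then (t.1 : R) * F k l else 0) else 0)
          + (qq L k l : R) * F k l := by
      intro k l
      rw [qq_cons]; split_ifs <;> push_cast <;> ring
    simp_rw [e, Finset.sum_add_distrib]
    congr 1
    rw [Finset.sum_eq_single t.2.1]
    · rw [Finset.sum_eq_single t.2.2]
      · simp
      · intro l _ hl; simp [hl]
      · intro hl; exact absurd (Finset.mem_range.2 (by omega)) hl
    · intro k _ hk; simp [hk]
    · intro hk; exact absurd (Finset.mem_range.2 (by omega)) hk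

lemma dig_row (W H : ℕ) (hW : W = 2 * H) (a b : ℕ) (q : ℕ → ℤ) (hq : ∀ l, |q l| < H)
    (R : ℤ) (T : ℕ) (hT : (T : ℤ) = ∑ l ∈ range a, q l * (W : ℤ) ^ l + (W : ℤ) ^ a * R)
    (h : dig W H (a + b) T = true) :
    (∀ l < a, 0 ≤ q l) ∧ ∃ T' : ℕ, (T' : ℤ) = R ∧ dig W H b T' = true := by
  induction a generalizing q R T with
  | zero =>
    refine ⟨fun l hl => absurd hl (Nat.not_lt_zero _), T, by simpa using hT, by simpa using h⟩
  | succ a ih =>
    have e : a + 1 + b = (a + b) + 1 := by omega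
    rw [e, dig, Bool.and_eq_true] at h
    have h1 : T % W < H := Nat.lt_of_succ_le (Nat.le_of_ble_eq_true h.1)
    set S : ℤ := ∑ l ∈ range a, q (l + 1) * (W : ℤ) ^ l + (W : ℤ) ^ a * R with hS
    have hTS : (T : ℤ) = q 0 + W * S := by
      rw [hT, Finset.sum_range_succ', hS, mul_add, Finset.mul_sum]
      have : ∀ l ∈ range a, q (l + 1) * (W : ℤ) ^ (l + 1) = W * (q (l + 1) * (W : ℤ) ^ l) := by
        intro l _; ring
      rw [Finset.sum_congr rfl this]; ring
    have hdm : (T : ℤ) = (T % W : ℕ) + W * (T / W : ℕ) := by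
      exact_mod_cast (Nat.mod_add_div T W).symm
    have hq0 := abs_lt.1 (hq 0)
    have hHpos : 0 < H := by (clear * - hW b hT h1 hTS hdm; omega)
    have hWz : (W : ℤ) = 2 * H := by rw [hW]; push_cast; ring
    have hm0 : (0 : ℤ) ≤ (T % W : ℕ) := Int.natCast_nonneg _
    have hm1 : ((T % W : ℕ) : ℤ) < H := by exact_mod_cast h1
    have hdiff : (W : ℤ) * (((T / W : ℕ) : ℤ) - S) = q 0 - (T % W : ℕ) := by
      have := hTS.symm.trans hdm
      linear_combination -this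
    have hz : ((T / W : ℕ) : ℤ) - S = 0 := by
      by_contra hne
      have hge : (1 : ℤ) ≤ |((T / W : ℕ) : ℤ) - S| := Int.one_le_abs hne
      have habs : |(W : ℤ) * (((T / W : ℕ) : ℤ) - S)| < W := by
        rw [hdiff, abs_lt]; constructor <;> linarith only [hq0, hWz, hm1]
      rw [abs_mul, abs_of_nonneg (by omega : (0 : ℤ) ≤ W)] at habs
      have : (W : ℤ) * 1 ≤ W * |((T / W : ℕ) : ℤ) - S| :=
        mul_le_mul_of_nonneg_left hge (by omega)
      (clear * - habs this; linarith only [habs, this])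
    have hq00 : 0 ≤ q 0 := by
      rw [hz, mul_zero] at hdiff; (clear * - hdiff; linarith only [hdiff])
    obtain ⟨i1, i2⟩ := ih (fun l => q (l + 1)) (fun l => hq (l + 1)) R (T / W)
      (by rw [← hS]; linarith only [hz]) h.2
    refine ⟨fun l hl => ?_, i2⟩
    cases l with
    | zero => exact hq00
    | succ l => exact i1 l (by omega)

lemma dig_all (W H : ℕ) (hW : W = 2 * H) (M n : ℕ) (q : ℕ → ℕ → ℤ)
    (hq : ∀ k l, |q k l| < H) (T : ℕ)
    (hT : (T : ℤ) = ∑ k ∈ range n, (∑ l ∈ range M, q k l * (W : ℤ) ^ l) * ((W : ℤ) ^ M) ^ k)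
    (h : dig W H (n * M) T = true) : ∀ k < n, ∀ l < M, 0 ≤ q k l := by
  induction n generalizing q T with
  | zero => intro k hk; exact absurd hk (Nat.not_lt_zero _)
  | succ n ih =>
    have e : (n + 1) * M = M + n * M := by ring
    rw [e] at h
    obtain ⟨h1, T', hT', h2⟩ := dig_row W H hW M (n * M) (q 0) (hq 0)
      (∑ k ∈ range n, (∑ l ∈ range M, q (k + 1) l * (W : ℤ) ^ l) * ((W : ℤ) ^ M) ^ k) T
      (by
        rw [hT, Finset.sum_range_succ', Finset.mul_sum, add_comm]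
        congr 1
        · simp
        · refine Finset.sum_congr rfl (fun k _ => ?_)
          rw [pow_succ]; ring) h
    have h3 := ih (fun k l => q (k + 1) l) (fun k l => hq (k + 1) l) T' hT' h2
    intro k hk l hl
    cases k with
    | zero => exact h1 l hl
    | succ k => exact h3 k (by omega) l hl

/-- the number test -/
def tst (N W H : ℕ) : ℤ → Bool
  | Int.ofNat v => dig W H ((N + 1) * (N + 1)) v
  | Int.negSucc _ => false

lemma tst_sound {N W H c : ℕ} (hW : W = 2 * H) (hc : c < H) {T0 T1 V0 V1 : ℝ}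
    (hT0 : 0 ≤ T0) (hT1 : 0 ≤ T1) (hV0 : 0 ≤ V0) (hV1 : 0 ≤ V1) {v : ℤ} {φ : ℝ}
    (h : Rp ((W : ℤ) ^ (N + 1)) W T0 T1 V0 V1 N N c v φ) (ht : tst N W H v = true) :
    0 ≤ φ := by
  obtain ⟨L, h1, h2, h3, h4⟩ := h
  cases v with
  | negSucc v => simp [tst] at ht
  | ofNat v =>
    simp only [tst] at ht
    have hpos := dig_all W H hW (N + 1) (N + 1) (qq L)
      (fun k l => lt_of_le_of_lt (qq_abs L k l) (by exact_mod_cast lt_of_le_of_lt h2 hc)) v
      (by
        have h3' : ((v : ℕ) : ℤ) = (L.map (fun t : ℤ × ℕ × ℕ =>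
            t.1 * ((W : ℤ) ^ (N + 1)) ^ t.2.1 * (W : ℤ) ^ t.2.2)).sum := h3
        rw [h3']
        have := grp (R := ℤ) N N L h1 (fun k l => ((W : ℤ) ^ (N + 1)) ^ k * (W : ℤ) ^ l)
        simp only [Int.cast_id] at this
        rw [show (fun t : ℤ × ℕ × ℕ => t.1 * ((W : ℤ) ^ (N + 1)) ^ t.2.1 * (W : ℤ) ^ t.2.2) =
          fun t : ℤ × ℕ × ℕ => t.1 * (((W : ℤ) ^ (N + 1)) ^ t.2.1 * (W : ℤ) ^ t.2.2) from by
            funext t; ring, this]
        refine Finset.sum_congr rfl (fun k _ => ?_)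
        rw [Finset.sum_mul]
        refine Finset.sum_congr rfl (fun l _ => ?_)
        ring) ht
    have h5 := grp (R := ℝ) N N L h1
      (fun k l => (T1 ^ k * T0 ^ (N - k)) * (V1 ^ l * V0 ^ (N - l)))
    rw [h4, show (fun t : ℤ × ℕ × ℕ => (t.1 : ℝ) * (T1 ^ t.2.1 * T0 ^ (N - t.2.1)) *
      (V1 ^ t.2.2 * V0 ^ (N - t.2.2))) = fun t : ℤ × ℕ × ℕ => (t.1 : ℝ) *
      ((T1 ^ t.2.1 * T0 ^ (N - t.2.1)) * (V1 ^ t.2.2 * V0 ^ (N - t.2.2))) from by
        funext t; ring, h5]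
    refine Finset.sum_nonneg (fun k hk => Finset.sum_nonneg (fun l hl => ?_))
    have hkl := hpos k (Finset.mem_range.1 hk) l (Finset.mem_range.1 hl)
    have : (0 : ℝ) ≤ (qq L k l : ℝ) := by exact_mod_cast hkl
    (clear * - hkl hT1 hT0 hV1 hV0; positivity)

lemma rrow_ev (y C : ℝ) (l : List ℤ) :
    (rrow (C * y) C l).2 = C ^ l.length ∧ C * (rrow (C * y) C l).1 = C ^ l.length * ev1 y l := by
  induction l with
  | nil => simp [rrow, ev1]
  | cons a l ih =>
    obtain ⟨i1, i2⟩ := ih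
    simp only [rrow, ev1, List.length_cons, i1]
    refine ⟨by ring, ?_⟩
    linear_combination C * y * i2

lemma rpol_ev (x y C : ℝ) (P : List (List ℤ)) (N : ℕ) (hs : shp (N + 1) P = true) :
    C * rpol (C * x) (C * y) C P = C ^ (N + 1) * ev2 x y P := by
  induction P generalizing N with
  | nil => simp [rpol, ev2]
  | cons r P ih =>
    simp only [shp, Bool.and_eq_true] at hs
    have hr : r.length = N + 1 := Nat.eq_of_beq_eq_true hs.1
    have h1 := (rrow_ev y C r).2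
    rw [hr] at h1
    rcases Nat.eq_zero_or_pos N with h0 | hpos
    · subst h0
      have hP : P = [] := by
        cases P with
        | nil => rfl
        | cons a b => have := hs.2; simp [shp] at this
      subst hP
      simp only [rpol, ev2]
      linear_combination h1
    · obtain ⟨m, rfl⟩ : ∃ m, N = m + 1 := ⟨N - 1, by omega⟩
      have h2 := ih m hs.2
      simp only [rpol, ev2]
      linear_combination h1 + C * x * h2

end Pool.EK71

end

section

/-!
The box test for a 2x2 form (and one more polynomial), and trees of boxes.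
-/

namespace Pool.EK71

lemma box_pos {N W H : ℕ} (hW : W = 2 * H) {P : List (List ℤ)} (hs : shp (N + 1) P = true)
    {T0 T1 V0 V1 : ℝ} (hT0 : 0 ≤ T0) (hT1 : 0 ≤ T1) (hV0 : 0 ≤ V0) (hV1 : 0 ≤ V1)
    {cA cB cC : ℕ} {A B C : ℤ} {x y Cφ : ℝ} (hCpos : 0 < Cφ)
    (hA : Mk ((W : ℤ) ^ (N + 1)) W T0 T1 V0 V1 cA A (Cφ * x))
    (hB : Mk ((W : ℤ) ^ (N + 1)) W T0 T1 V0 V1 cB B (Cφ * y))
    (hC : Mk ((W : ℤ) ^ (N + 1)) W T0 T1 V0 V1 cC C Cφ)
    (hc : npol cA cB cC P < H) (ht : tst N W H (hpol A B C P) = true) : 0 ≤ ev2 x y P := by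
  have h1 := tst_sound hW hc hT0 hT1 hV0 hV1 (pol_rp hA hB hC P N hs) ht
  have h2 := rpol_ev x y Cφ P N hs
  have h3 : 0 ≤ Cφ ^ (N + 1) * ev2 x y P := by
    rw [← h2]; exact mul_nonneg hCpos.le h1
  exact nonneg_of_mul_nonneg_right h3 (by positivity)

lemma box_pos2 {N W H : ℕ} (hW : W = 2 * H) {P Q : List (List ℤ)} (hs : shp (N + 1) P = true)
    (hs' : shp (N + 1) Q = true) (i j : ℤ)
    {T0 T1 V0 V1 : ℝ} (hT0 : 0 ≤ T0) (hT1 : 0 ≤ T1) (hV0 : 0 ≤ V0) (hV1 : 0 ≤ V1)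
    {cA cB cC : ℕ} {A B C : ℤ} {x y Cφ : ℝ} (hCpos : 0 < Cφ)
    (hA : Mk ((W : ℤ) ^ (N + 1)) W T0 T1 V0 V1 cA A (Cφ * x))
    (hB : Mk ((W : ℤ) ^ (N + 1)) W T0 T1 V0 V1 cB B (Cφ * y))
    (hC : Mk ((W : ℤ) ^ (N + 1)) W T0 T1 V0 V1 cC C Cφ)
    (hc : i.natAbs * npol cA cB cC P + j.natAbs * npol cA cB cC Q < H)
    (ht : tst N W H (i * hpol A B C P + j * hpol A B C Q) = true) :
    0 ≤ i * ev2 x y P + j * ev2 x y Q := by
  have h1 := tst_sound hW hc hT0 hT1 hV0 hV1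
    (((pol_rp hA hB hC P N hs).smul i).add ((pol_rp hA hB hC Q N hs').smul j)) ht
  have h2 := rpol_ev x y Cφ P N hs
  have h2' := rpol_ev x y Cφ Q N hs'
  have h3 : 0 ≤ Cφ ^ (N + 1) * (i * ev2 x y P + j * ev2 x y Q) := by
    have : Cφ ^ (N + 1) * (i * ev2 x y P + j * ev2 x y Q) =
        Cφ * (i * rpol (Cφ * x) (Cφ * y) Cφ P + j * rpol (Cφ * x) (Cφ * y) Cφ Q) := by
      linear_combination -(i : ℝ) * h2 - (j : ℝ) * h2'
    rw [this]; exact mul_nonneg hCpos.le h1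
  exact nonneg_of_mul_nonneg_right h3 (by positivity)

/-- data of one condition -/
structure Dat where
  N : ℕ
  P11 : List (List ℤ)
  P12 : List (List ℤ)
  P22 : List (List ℤ)
  N' : ℕ
  Q : List (List ℤ)
  H : ℕ

def Dat.shape (D : Dat) : Bool :=
  shp (D.N + 1) D.P11 && shp (D.N + 1) D.P12 && shp (D.N + 1) D.P22 && shp (D.N' + 1) D.Q

/-- what is proved at a point -/
def Good (D : Dat) (x y : ℝ) : Prop :=
  0 ≤ ev2 x y D.P11 ∧ 0 ≤ ev2 x y D.P22 ∧ (ev2 x y D.P12) ^ 2 ≤ ev2 x y D.P11 * ev2 x y D.P22 ∧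
    0 ≤ ev2 x y D.Q

/-- the test of the four combinations, given the three numbers -/
def four (N W H : ℕ) (l : ℤ) (v11 v12 v22 : ℤ) : Bool :=
  tst N W H (Int.add (Int.mul 16 v11) (Int.mul l v12)) &&
  tst N W H (Int.add (Int.mul 16 v11) (Int.mul (Int.neg l) v12)) &&
  tst N W H (Int.add (Int.mul l v22) (Int.mul 16 v12)) &&
  tst N W H (Int.add (Int.mul l v22) (Int.mul (-16) v12))

/-- the norm test -/
def nfour (H l c11 c12 c22 : ℕ) : Bool :=
  Nat.blt (16 * c11 + l * c12) H && Nat.blt (l * c22 + 16 * c12) H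

lemma good_of {u v w l : ℝ} (hl : 0 < l) (h1 : 0 ≤ 16 * u + l * v) (h2 : 0 ≤ 16 * u + -l * v)
    (h3 : 0 ≤ l * w + 16 * v) (h4 : 0 ≤ l * w + -16 * v) :
    0 ≤ u ∧ 0 ≤ w ∧ v ^ 2 ≤ u * w := by
  have hu : 0 ≤ u := by linarith
  have hw : 0 ≤ w := by
    have : 0 ≤ l * w := by linarith
    exact nonneg_of_mul_nonneg_right this hl
  refine ⟨hu, hw, ?_⟩
  have a1 : l * |v| ≤ 16 * u := by
    rcases abs_cases v with ⟨h, _⟩ | ⟨h, _⟩ <;> rw [h] <;> linarith
  have a2 : 16 * |v| ≤ l * w := by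
    rcases abs_cases v with ⟨h, _⟩ | ⟨h, _⟩ <;> rw [h] <;> linarith
  have a3 : (l * |v|) * (16 * |v|) ≤ (16 * u) * (l * w) :=
    mul_le_mul a1 a2 (by positivity) (by positivity)
  have a4 : |v| * |v| = v ^ 2 := by rw [← sq, sq_abs]
  have : (16 * l) * v ^ 2 ≤ (16 * l) * (u * w) := by
    calc (16 * l) * v ^ 2 = (l * |v|) * (16 * |v|) := by rw [← a4]; ring
      _ ≤ _ := a3
      _ = _ := by ring
  exact le_of_mul_le_mul_left this (by positivity)

end Pool.EK71

end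

section

/-!
Trees of boxes and the cover of the half plane `y ≥ 0`.
-/

namespace Pool.EK71

/-- `Mk` for the four kinds of forms -/
lemma mk_frm {Z W : ℤ} {T0 T1 V0 V1 : ℝ} (a b e g c d e' : ℤ) {X1 X0 Y1 Y0 : ℝ}
    (hX1 : X1 = a * T0 + b * T1) (hX0 : X0 = e * T0 + g * T1) (hY1 : Y1 = c * V0 + d * V1)
    (hY0 : Y0 = e' * V0 + e' * V1) :
    Mk Z W T0 T1 V0 V1 ((a.natAbs + b.natAbs) * (e'.natAbs + e'.natAbs))
      (Int.mul (a + b * Z) (e' + e' * W)) (X1 * Y0) ∧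
    Mk Z W T0 T1 V0 V1 ((e.natAbs + g.natAbs) * (c.natAbs + d.natAbs))
      (Int.mul (e + g * Z) (c + d * W)) (X0 * Y1) ∧
    Mk Z W T0 T1 V0 V1 ((e.natAbs + g.natAbs) * (e'.natAbs + e'.natAbs))
      (Int.mul (e + g * Z) (e' + e' * W)) (X0 * Y0) ∧
    Mk Z W T0 T1 V0 V1 ((a.natAbs + b.natAbs) * (c.natAbs + d.natAbs))
      (Int.mul (a + b * Z) (c + d * W)) (X1 * Y1) ∧
    Mk Z W T0 T1 V0 V1 ((a.natAbs + b.natAbs) * (e'.natAbs + e'.natAbs))
      (Int.mul (Int.neg (a + b * Z)) (e' + e' * W)) (-X1 * Y0) := by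
  subst hX1 hX0 hY1 hY0
  refine ⟨Mk.of a b e' e', Mk.of e g c d, Mk.of e g e' e', Mk.of a b c d, ?_⟩
  have h := Mk.of (Z := Z) (W := W) (T0 := T0) (T1 := T1) (V0 := V0) (V1 := V1) (-a) (-b) e' e'
  rw [Int.natAbs_neg, Int.natAbs_neg] at h
  have e1 : ((-a) + (-b) * Z) * (e' + e' * W) = Int.mul (Int.neg (a + b * Z)) (e' + e' * W) := by
    show _ = (-(a + b * Z)) * (e' + e' * W)
    ring
  have e2 : (((-a : ℤ) : ℝ) * T0 + ((-b : ℤ) : ℝ) * T1) * ((e' : ℝ) * V0 + e' * V1) =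
      -(a * T0 + b * T1) * (e' * V0 + e' * V1) := by push_cast; ring
  rw [e1, e2] at h
  exact h

/-- trees of boxes; a leaf carries `16 λ` -/
inductive Tree where
  | leaf (l : ℕ) : Tree
  | sx (m : ℤ) (t u : Tree) : Tree
  | sy (m : ℤ) (t u : Tree) : Tree

def ilt (a b : ℤ) : Bool := decide (a < b)

end Pool.EK71

end

section

namespace Pool.Agent.Helper39.Area
end Pool.Agent.Helper39.Area

set_option autoImplicit false

open Complex MeasureTheory Metric Set

open scoped Real ComplexConjugate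

namespace Pool.Agent.Helper52.EK

open Pool.Agent.Helper39.Area

/-- data of a univalent function `φ ζ = ζ⁻¹ + β ζ` on a punctured disc of radius `R > 1` -/
structure ExtR (β : ℂ → ℂ) (R : ℝ) : Prop where
  one_lt : 1 < R
  diff : DifferentiableOn ℂ β (ball 0 R)
  inj : ∀ ζ ω : ℂ, ζ ∈ ball (0:ℂ) R → ω ∈ ball (0:ℂ) R → ζ ≠ 0 → ω ≠ 0 →
    ζ⁻¹ + β ζ = ω⁻¹ + β ω → ζ = ω
  ne : ∀ ζ : ℂ, ζ ∈ ball (0:ℂ) R → 1 - ζ ^ 2 * deriv β ζ ≠ 0

theorem ExtR.toExt {β : ℂ → ℂ} {R : ℝ} (h : ExtR β R) : Ext β := by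
  have hs : ball (0:ℂ) 1 ⊆ ball 0 R := ball_subset_ball h.one_lt.le
  exact ⟨h.diff.mono hs, fun ζ ω h1 h2 => h.inj ζ ω (hs h1) (hs h2), fun ζ h1 => h.ne ζ (hs h1)⟩

/-- `N β z = psi'(1/z)` -/
noncomputable def N (β : ℂ → ℂ) (z : ℂ) : ℂ := 1 - z ^ 2 * deriv β z

/-- Poisson kernel of the disc -/
noncomputable def Pk (ζ z : ℂ) : ℝ := (1 - ‖z‖ ^ 2) / ‖ζ - z‖ ^ 2

/-- normalised gradient of `log (Pk ζ)`: unimodular for `‖ζ‖ = 1`, `‖z‖ < 1` -/
noncomputable def ee (ζ z : ℂ) : ℂ := (1 - conj z * ζ) / (ζ - z)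

/-- the point `e^(t + i θ)` -/
noncomputable def ep (t θ : ℝ) : ℂ := Complex.exp ((t : ℂ) + (θ : ℂ) * I)

/-- the entropy loss at the target `ζ` for the normalised field `w` -/
noncomputable def Kf (w : ℂ → ℂ) (ζ : ℂ) (t₀ t₂ : ℝ) : ℝ :=
  (2 * π)⁻¹ * ∫ t in t₀..t₂, ∫ θ in (-π)..π,
    (t₂ - t) * Pk ζ (ep t θ) * ‖ee ζ (ep t θ) - w (ep t θ)‖ ^ 2 / Real.sinh t ^ 2

/-- the normalised gradient of `log ((1 - |z|^2)/|N|^2)` in the radial frame -/
noncomputable def mrad (β : ℂ → ℂ) (z : ℂ) : ℂ :=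
  (z / ‖z‖) * (-conj z - (1 - ‖z‖ ^ 2) * (deriv (N β) z / N β z))

/-- the field built from the function `G` of the radial gradient -/
noncomputable def wf (G : ℂ → ℂ) (β : ℂ → ℂ) (z : ℂ) : ℂ :=
  conj (z / ‖z‖) * G (mrad β z)

/-- admissible functions `G` (the certificate uses `Gc`, below) -/
structure GLip (G : ℂ → ℂ) (L : ℝ) : Prop where
  le_one : ∀ m, ‖G m‖ ≤ 1
  lip : ∀ m m', ‖G m - G m'‖ ≤ L * ‖m - m'‖
  rot : ∀ u m : ℂ, ‖u‖ = 1 → ‖G (u * m) - G m‖ ≤ L * ‖u - 1‖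

/-- `m` for `‖m‖ ≤ 1`, its inverse point `m/‖m‖²` otherwise -/
noncomputable def Gc (m : ℂ) : ℂ := m / ((max 1 (‖m‖ ^ 2) : ℝ) : ℂ)

/-- strip coordinate to the disc -/
noncomputable def zf (ω : ℂ) : ℂ := (I - Complex.exp ω) / (I + Complex.exp ω)

/-- derivative of `zf` -/
noncomputable def zd (ω : ℂ) : ℂ := -2 * I * Complex.exp ω / (Complex.exp ω + I) ^ 2

/-- `X = f_ω / (2 (f - f(a)))` in the strip coordinate -/
noncomputable def Xf (β : ℂ → ℂ) (a : ℝ) (ω : ℂ) : ℂ :=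
  zd ω * dphi β (zf ω) / (2 * (phi β (zf ω) - phi β (a : ℂ)))

/-- `τ = (1-a)/(1+a)`: the point `a` is `ω = log τ + i π/2` -/
noncomputable def tau (a : ℝ) : ℝ := (1 - a) / (1 + a)

noncomputable def kap (a : ℝ) (ω : ℂ) : ℂ :=
  Complex.exp ω ^ 2 * (1 - (tau a : ℂ) ^ 2) /
    ((Complex.exp ω ^ 2 + (tau a : ℂ) ^ 2) * (Complex.exp ω ^ 2 + 1))

/-- the point `ξ + i η` -/
noncomputable def pt (ξ η : ℝ) : ℂ := (ξ : ℂ) + (η : ℂ) * I

/-- `e₀ = -(c - i s)²`, with `c = cos η`, `s = sin η` -/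
noncomputable def e0 (s c : ℝ) : ℂ := -((c : ℂ) - (s : ℂ) * I) ^ 2

/-- the function `m` of `X`, `Y = X'` and the angle -/
noncomputable def mX (X Y : ℂ) (s c : ℝ) : ℂ := (1 + e0 s c) * (2 * X - 1 + Y / X) - 1

/-- the integrand: `‖G m - e₀‖²` -/
noncomputable def TG (G : ℂ → ℂ) (X Y : ℂ) (s c : ℝ) : ℝ := ‖G (mX X Y s c) - e0 s c‖ ^ 2

/-- the closed rectangle of the strip -/
def Rect (x₁ x₂ : ℝ) : Set ℂ := Icc x₁ x₂ ×ℂ Icc 0 π

/-- double integral over a rectangle of the strip -/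
noncomputable def II (x₁ x₂ : ℝ) (F : ℝ → ℝ → ℝ) : ℝ := ∫ ξ in x₁..x₂, ∫ η in (0:ℝ)..π, F ξ η

/-- analytic without zeros near a closed rectangle of the strip -/
structure NiceX (X : ℂ → ℂ) (x₁ x₂ : ℝ) : Prop where
  an : AnalyticOnNhd ℂ X (Rect x₁ x₂)
  ne : ∀ ω ∈ Rect x₁ x₂, X ω ≠ 0

/-- a C¹ function of a complex variable with its partial derivatives -/
structure C1f (W Wx Wy : ℂ → ℝ) : Prop where
  hd : ∀ X : ℂ, HasFDerivAt W (Wx X • reCLM + Wy X • imCLM) X
  cx : Continuous Wx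
  cy : Continuous Wy

/-- a C² function with its first partial derivatives and its Laplacian -/
structure C2f (U Ux Uy Lap : ℂ → ℝ) : Prop where
  h1 : C1f U Ux Uy
  h2 : ∃ Uxx Uxy Uyy : ℂ → ℝ, C1f Ux Uxx Uxy ∧ C1f Uy Uxy Uyy ∧ ∀ X, Lap X = Uxx X + Uyy X

/-- the integrated form of the certificate, for a general functional `T` -/
def StripIneq (κ₂ : ℝ) (T : ℂ → ℂ → ℝ → ℝ → ℝ) : Prop :=
  ∃ C₁ : ℝ, ∀ (X : ℂ → ℂ) (x₁ x₂ l : ℝ), 1 ≤ l → x₁ + l ≤ x₂ - l → NiceX X x₁ x₂ →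
    II (x₁ + l) (x₂ - l) (fun ξ η => T (X (pt ξ η)) (deriv X (pt ξ η)) (Real.sin η) (Real.cos η)) ≤
      (κ₂ + C₁ / l) * II x₁ x₂ (fun ξ η => ‖X (pt ξ η) - 1‖ ^ 2)

end Pool.Agent.Helper52.EK

end

section

/-!
Trees of boxes for the whole plane: kind 0 is a rectangle in `(x, y)`, kinds 1 to 4 are
rectangles in `(τ, v)` with `x = 1/τ, y = v/τ` and its images.
-/

namespace Pool.EK71

def frm2 (kind : ℕ) (X1 X0 Y1 Y0 : ℤ) : ℤ × ℤ × ℤ :=
  match kind with
  | 0 => (Int.mul X1 Y0, Int.mul X0 Y1, Int.mul X0 Y0)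
  | 1 => (Int.mul X0 Y0, Int.mul X0 Y1, Int.mul X1 Y0)
  | 2 => (Int.mul X0 Y1, Int.mul X0 Y0, Int.mul X1 Y0)
  | 3 => (Int.mul (Int.neg X0) Y0, Int.mul X0 Y1, Int.mul X1 Y0)
  | _ => (Int.mul X0 Y1, Int.mul (Int.neg X0) Y0, Int.mul X1 Y0)

def nfrm2 (kind : ℕ) (X1 X0 Y1 Y0 : ℕ) : ℕ × ℕ × ℕ :=
  match kind with
  | 0 => (X1 * Y0, X0 * Y1, X0 * Y0)
  | 1 => (X0 * Y0, X0 * Y1, X1 * Y0)
  | 2 => (X0 * Y1, X0 * Y0, X1 * Y0)
  | 3 => (X0 * Y0, X0 * Y1, X1 * Y0)
  | _ => (X0 * Y1, X0 * Y0, X1 * Y0)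

/-- test of the box `[a/e, b/e] × [c/e, d/e]` -/
def bx2 (D : Dat) (kind : ℕ) (e : ℤ) (l : ℕ) (a b c d : ℤ) : Bool :=
  let W := 2 * D.H
  let w : ℤ := Int.ofNat W
  let z : ℤ := Int.ofNat (W ^ (D.N + 1))
  let z' : ℤ := Int.ofNat (W ^ (D.N' + 1))
  let Y1 := Int.add c (Int.mul d w)
  let Y0 := Int.add e (Int.mul e w)
  let F := frm2 kind (Int.add a (Int.mul b z)) (Int.add e (Int.mul e z)) Y1 Y0
  let F' := frm2 kind (Int.add a (Int.mul b z')) (Int.add e (Int.mul e z')) Y1 Y0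
  let n := nfrm2 kind (a.natAbs + b.natAbs) (e.natAbs + e.natAbs) (c.natAbs + d.natAbs)
    (e.natAbs + e.natAbs)
  Nat.blt 0 l &&
  four D.N W D.H (Int.ofNat l) (hpol F.1 F.2.1 F.2.2 D.P11) (hpol F.1 F.2.1 F.2.2 D.P12)
    (hpol F.1 F.2.1 F.2.2 D.P22) &&
  nfour D.H l (npol n.1 n.2.1 n.2.2 D.P11) (npol n.1 n.2.1 n.2.2 D.P12)
    (npol n.1 n.2.1 n.2.2 D.P22) &&
  tst D.N' W D.H (hpol F'.1 F'.2.1 F'.2.2 D.Q) &&
  Nat.blt (npol n.1 n.2.1 n.2.2 D.Q) D.H

/-- abstract soundness -/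
lemma bx2_sound {D : Dat} (hs : D.shape = true) {kind l : ℕ} {e a b c d : ℤ}
    (hb : bx2 D kind e l a b c d = true) {T0 T1 V0 V1 : ℝ} (hT0 : 0 ≤ T0) (hT1 : 0 ≤ T1)
    (hV0 : 0 ≤ V0) (hV1 : 0 ≤ V1) {x y Cφ : ℝ} (hCpos : 0 < Cφ)
    (hF : ∀ Z W : ℤ,
      Mk Z W T0 T1 V0 V1 (nfrm2 kind (a.natAbs + b.natAbs) (e.natAbs + e.natAbs)
        (c.natAbs + d.natAbs) (e.natAbs + e.natAbs)).1
        (frm2 kind (a + b * Z) (e + e * Z) (c + d * W) (e + e * W)).1 (Cφ * x) ∧
      Mk Z W T0 T1 V0 V1 (nfrm2 kind (a.natAbs + b.natAbs) (e.natAbs + e.natAbs)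
        (c.natAbs + d.natAbs) (e.natAbs + e.natAbs)).2.1
        (frm2 kind (a + b * Z) (e + e * Z) (c + d * W) (e + e * W)).2.1 (Cφ * y) ∧
      Mk Z W T0 T1 V0 V1 (nfrm2 kind (a.natAbs + b.natAbs) (e.natAbs + e.natAbs)
        (c.natAbs + d.natAbs) (e.natAbs + e.natAbs)).2.2
        (frm2 kind (a + b * Z) (e + e * Z) (c + d * W) (e + e * W)).2.2 Cφ) :
    Good D x y := by
  simp only [bx2, Bool.and_eq_true] at hb
  obtain ⟨⟨⟨⟨hl, h4⟩, hn⟩, hq⟩, hqn⟩ := hb
  simp only [four, Bool.and_eq_true] at h4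
  obtain ⟨⟨⟨t1, t2⟩, t3⟩, t4⟩ := h4
  simp only [nfour, Bool.and_eq_true] at hn
  obtain ⟨n1, n2⟩ := hn
  have n1 := Eq.mp Nat.blt_eq n1
  have n2 := Eq.mp Nat.blt_eq n2
  have hl := Eq.mp Nat.blt_eq hl
  have hqn := Eq.mp Nat.blt_eq hqn
  simp only [Dat.shape, Bool.and_eq_true] at hs
  obtain ⟨⟨⟨s11, s12⟩, s22⟩, sQ⟩ := hs
  have hW : 2 * D.H = 2 * D.H := rfl
  have cW : (Int.ofNat (2 * D.H) : ℤ) = ((2 * D.H : ℕ) : ℤ) := rfl
  have cZ : (Int.ofNat ((2 * D.H) ^ (D.N + 1)) : ℤ) = ((2 * D.H : ℕ) : ℤ) ^ (D.N + 1) := by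
    show (((2 * D.H) ^ (D.N + 1) : ℕ) : ℤ) = _
    push_cast; ring
  have cZ' : (Int.ofNat ((2 * D.H) ^ (D.N' + 1)) : ℤ) = ((2 * D.H : ℕ) : ℤ) ^ (D.N' + 1) := by
    show (((2 * D.H) ^ (D.N' + 1) : ℕ) : ℤ) = _
    push_cast; ring
  obtain ⟨fA, fB, fC⟩ := hF (((2 * D.H : ℕ) : ℤ) ^ (D.N + 1)) ((2 * D.H : ℕ) : ℤ)
  obtain ⟨gA, gB, gC⟩ := hF (((2 * D.H : ℕ) : ℤ) ^ (D.N' + 1)) ((2 * D.H : ℕ) : ℤ)
  rw [cW, cZ] at t1 t2 t3 t4
  rw [cW, cZ'] at hq
  have r1 := box_pos2 hW s11 s12 16 (l : ℤ) hT0 hT1 hV0 hV1 hCpos fA fB fC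
    (by simpa using n1) t1
  have r2 := box_pos2 hW s11 s12 16 (-(l : ℤ)) hT0 hT1 hV0 hV1 hCpos fA fB fC
    (by simpa using n1) t2
  have r3 := box_pos2 hW s22 s12 (l : ℤ) 16 hT0 hT1 hV0 hV1 hCpos fA fB fC
    (by simpa using n2) t3
  have r4 := box_pos2 hW s22 s12 (l : ℤ) (-16) hT0 hT1 hV0 hV1 hCpos fA fB fC
    (by simpa using n2) t4
  have r5 := box_pos hW sQ hT0 hT1 hV0 hV1 hCpos gA gB gC hqn hq
  have hl' : (0 : ℝ) < (l : ℝ) := by exact_mod_cast hl
  push_cast at r1 r2 r3 r4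
  obtain ⟨g1, g2, g3⟩ := good_of hl' r1 r2 r3 r4
  exact ⟨g1, g2, g3, r5⟩

/-- the point of kind `kind` with parameters `(p, v)` -/
def At (kind : ℕ) (p v x y : ℝ) : Prop :=
  match kind with
  | 0 => x = p ∧ y = v
  | 1 => 0 < p ∧ p * x = 1 ∧ p * y = v
  | 2 => 0 < p ∧ p * x = v ∧ p * y = 1
  | 3 => 0 < p ∧ p * x = -1 ∧ p * y = v
  | _ => 0 < p ∧ p * x = v ∧ p * y = -1

lemma good_box {D : Dat} (hs : D.shape = true) {kind l : ℕ} {a b c d e : ℤ} (he : 0 < e)
    (hab : a < b) (hcd : c < d) (hb : bx2 D kind e l a b c d = true) {p v x y : ℝ}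
    (hA : At kind p v x y) (h1 : (a : ℝ) ≤ e * p)
    (h2 : e * p ≤ (b : ℝ)) (h3 : (c : ℝ) ≤ e * v) (h4 : e * v ≤ (d : ℝ)) : Good D x y := by
  have he' : (0 : ℝ) < e := by exact_mod_cast he
  have hab' : (0 : ℝ) < b - a := by have : (a : ℝ) < b := by exact_mod_cast hab
                                    linarith only [this]
  have hcd' : (0 : ℝ) < d - c := by have : (c : ℝ) < d := by exact_mod_cast hcd
                                    (clear * - this; linarith only [this])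
  have key : ∀ Z W : ℤ,
    Mk Z W (b - e * p) (e * p - a) (d - e * v) (e * v - c)
      ((a.natAbs + b.natAbs) * (e.natAbs + e.natAbs))
      (Int.mul (a + b * Z) (e + e * W)) (((b - a) * (e * p)) * (e * (d - c))) ∧
    Mk Z W (b - e * p) (e * p - a) (d - e * v) (e * v - c)
      ((e.natAbs + e.natAbs) * (c.natAbs + d.natAbs))
      (Int.mul (e + e * Z) (c + d * W)) ((e * (b - a)) * ((d - c) * (e * v))) ∧
    Mk Z W (b - e * p) (e * p - a) (d - e * v) (e * v - c)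
      ((e.natAbs + e.natAbs) * (e.natAbs + e.natAbs))
      (Int.mul (e + e * Z) (e + e * W)) ((e * (b - a)) * (e * (d - c))) ∧
    Mk Z W (b - e * p) (e * p - a) (d - e * v) (e * v - c)
      ((e.natAbs + e.natAbs) * (e.natAbs + e.natAbs))
      (Int.mul (Int.neg (e + e * Z)) (e + e * W)) (-((e * (b - a)) * (e * (d - c)))) := by
    intro Z W
    obtain ⟨p1, p2, p3, _, _⟩ := mk_frm (Z := Z) (W := W) (T0 := b - e * p) (T1 := e * p - a)
      (V0 := d - e * v) (V1 := e * v - c) a b e e c d e (X1 := (b - a) * (e * p))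
      (X0 := e * (b - a)) (Y1 := (d - c) * (e * v)) (Y0 := e * (d - c)) (by ring) (by ring)
      (by ring) (by ring)
    obtain ⟨_, _, _, _, p5⟩ := mk_frm (Z := Z) (W := W) (T0 := b - e * p) (T1 := e * p - a)
      (V0 := d - e * v) (V1 := e * v - c) e e e e c d e (X1 := e * (b - a))
      (X0 := e * (b - a)) (Y1 := (d - c) * (e * v)) (Y0 := e * (d - c)) (by ring) (by ring)
      (by ring) (by ring)
    refine ⟨p1, p2, p3, ?_⟩
    rw [show -((e * (b - a)) * (e * (d - c)) : ℝ) = -(e * (b - a)) * (e * (d - c)) by ring]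
    exact p5
  match kind, hA, hb with
  | 0, hA, hb =>
    obtain ⟨rfl, rfl⟩ := hA
    refine bx2_sound hs hb (T0 := b - e * x) (T1 := e * x - a) (V0 := d - e * y)
      (V1 := e * y - c) (by linarith only [h2]) (by (clear * - h1; linarith)) (by (clear * - h4; linarith)) (by linarith)
      (Cφ := (e * (b - a)) * (e * (d - c))) (by (clear * - he hab' hcd'; positivity)) (fun Z W => ?_)
    obtain ⟨p1, p2, p3, _⟩ := key Z W
    refine ⟨?_, ?_, p3⟩
    · rw [show (e * (b - a)) * (e * (d - c)) * x = ((b - a) * (e * x)) * (e * (d - c) : ℝ)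
        by ring]
      exact p1
    · rw [show (e * (b - a)) * (e * (d - c)) * y = (e * (b - a)) * ((d - c) * (e * y) : ℝ)
        by ring]
      exact p2
  | 1, hA, hb =>
    obtain ⟨hp, e1, e2⟩ := hA
    refine bx2_sound hs hb (T0 := b - e * p) (T1 := e * p - a) (V0 := d - e * v)
      (V1 := e * v - c) (by linarith only [h2]) (by linarith) (by linarith) (by linarith)
      (Cφ := ((b - a) * (e * p)) * (e * (d - c))) (by (clear * - hab' he hp hcd'; positivity)) (fun Z W => ?_)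
    obtain ⟨p1, p2, p3, _⟩ := key Z W
    refine ⟨?_, ?_, p1⟩
    · rw [show ((b - a) * (e * p)) * (e * (d - c)) * x = (e * (b - a)) * (e * (d - c) : ℝ)
        by linear_combination (e * (b - a)) * (e * (d - c)) * e1]
      exact p3
    · rw [show ((b - a) * (e * p)) * (e * (d - c)) * y = (e * (b - a)) * ((d - c) * (e * v) : ℝ)
        by linear_combination (e * (b - a)) * (e * (d - c)) * e2]
      exact p2
  | 2, hA, hb =>
    obtain ⟨hp, e1, e2⟩ := hA
    refine bx2_sound hs hb (T0 := b - e * p) (T1 := e * p - a) (V0 := d - e * v)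
      (V1 := e * v - c) (by linarith only [h2]) (by linarith) (by linarith) (by linarith)
      (Cφ := ((b - a) * (e * p)) * (e * (d - c))) (by (clear * - hab' he hp hcd'; positivity)) (fun Z W => ?_)
    obtain ⟨p1, p2, p3, _⟩ := key Z W
    refine ⟨?_, ?_, p1⟩
    · rw [show ((b - a) * (e * p)) * (e * (d - c)) * x = (e * (b - a)) * ((d - c) * (e * v) : ℝ)
        by linear_combination (e * (b - a)) * (e * (d - c)) * e1]
      exact p2
    · rw [show ((b - a) * (e * p)) * (e * (d - c)) * y = (e * (b - a)) * (e * (d - c) : ℝ)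
        by linear_combination (e * (b - a)) * (e * (d - c)) * e2]
      exact p3
  | 3, hA, hb =>
    obtain ⟨hp, e1, e2⟩ := hA
    refine bx2_sound hs hb (T0 := b - e * p) (T1 := e * p - a) (V0 := d - e * v)
      (V1 := e * v - c) (by linarith only [h2]) (by linarith) (by linarith) (by linarith)
      (Cφ := ((b - a) * (e * p)) * (e * (d - c))) (by (clear * - hab' he hp hcd'; positivity)) (fun Z W => ?_)
    obtain ⟨p1, p2, _, p4⟩ := key Z W
    refine ⟨?_, ?_, p1⟩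
    · rw [show ((b - a) * (e * p)) * (e * (d - c)) * x = -((e * (b - a)) * (e * (d - c)) : ℝ)
        by linear_combination (e * (b - a)) * (e * (d - c)) * e1]
      exact p4
    · rw [show ((b - a) * (e * p)) * (e * (d - c)) * y = (e * (b - a)) * ((d - c) * (e * v) : ℝ)
        by linear_combination (e * (b - a)) * (e * (d - c)) * e2]
      exact p2
  | (n + 4), hA, hb =>
    obtain ⟨hp, e1, e2⟩ := hA
    refine bx2_sound hs hb (T0 := b - e * p) (T1 := e * p - a) (V0 := d - e * v)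
      (V1 := e * v - c) (by linarith only [h2]) (by linarith) (by linarith) (by linarith)
      (Cφ := ((b - a) * (e * p)) * (e * (d - c))) (by (clear * - hab' he hp hcd'; positivity)) (fun Z W => ?_)
    obtain ⟨p1, p2, _, p4⟩ := key Z W
    refine ⟨?_, ?_, p1⟩
    · rw [show ((b - a) * (e * p)) * (e * (d - c)) * x = (e * (b - a)) * ((d - c) * (e * v) : ℝ)
        by linear_combination (e * (b - a)) * (e * (d - c)) * e1]
      exact p2
    · rw [show ((b - a) * (e * p)) * (e * (d - c)) * y = -((e * (b - a)) * (e * (d - c)) : ℝ)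
        by linear_combination (e * (b - a)) * (e * (d - c)) * e2]
      exact p4

def chk2 (D : Dat) (kind : ℕ) (e : ℤ) : Tree → ℤ → ℤ → ℤ → ℤ → Bool
  | .leaf l, a, b, c, d => ilt a b && (ilt c d && bx2 D kind e l a b c d)
  | .sx m t u, a, b, c, d => chk2 D kind e t a m c d && chk2 D kind e u m b c d
  | .sy m t u, a, b, c, d => chk2 D kind e t a b c m && chk2 D kind e u a b m d

lemma chk2_sound {D : Dat} (hs : D.shape = true) {kind : ℕ} {e : ℤ} (he : 0 < e) (t : Tree)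
    (a b c d : ℤ) (h : chk2 D kind e t a b c d = true) {p v x y : ℝ} (hA : At kind p v x y)
    (h1 : (a : ℝ) ≤ e * p) (h2 : e * p ≤ (b : ℝ)) (h3 : (c : ℝ) ≤ e * v)
    (h4 : e * v ≤ (d : ℝ)) : Good D x y := by
  induction t generalizing a b c d with
  | leaf l =>
    simp only [chk2, Bool.and_eq_true, ilt, decide_eq_true_eq] at h
    exact good_box hs he h.1 h.2.1 h.2.2 hA h1 h2 h3 h4
  | sx m t u iht ihu =>
    simp only [chk2, Bool.and_eq_true] at h
    rcases le_total (e * p) (m : ℝ) with h5 | h5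
    · exact iht a m c d h.1 h1 h5 h3 h4
    · exact ihu m b c d h.2 h5 h2 h3 h4
  | sy m t u iht ihu =>
    simp only [chk2, Bool.and_eq_true] at h
    rcases le_total (e * v) (m : ℝ) with h5 | h5
    · exact iht a b c m h.1 h1 h2 h3 h5
    · exact ihu a b m d h.2 h1 h2 h5 h4

/-- the cover of the plane -/
lemma cover2 {D : Dat} (hs : D.shape = true) (e : ℤ) (he : 0 < e) (t0 t1 t2 t3 t4 : Tree)
    (h0 : chk2 D 0 e t0 (-e) e (-e) e = true)
    (h1 : chk2 D 1 e t1 0 e (-e) e = true)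
    (h2 : chk2 D 2 e t2 0 e (-e) e = true)
    (h3 : chk2 D 3 e t3 0 e (-e) e = true)
    (h4 : chk2 D 4 e t4 0 e (-e) e = true) (x y : ℝ) : Good D x y := by
  have he' : (0 : ℝ) < e := by exact_mod_cast he
  have fin : ∀ (kind : ℕ) (t : Tree), chk2 D kind e t 0 e (-e) e = true → ∀ w : ℝ, 1 ≤ w →
      ∀ v : ℝ, |v| ≤ w → At kind (1 / w) (v / w) x y → Good D x y := by
    intro kind t ht w hw v hv hA
    have hw0 : 0 < w := by (clear * - hw; linarith)
    obtain ⟨hv1, hv2⟩ := abs_le.1 hv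
    have b1 : 0 ≤ 1 / w := by (clear * - hw; positivity)
    have b2 : 1 / w ≤ 1 := by rw [div_le_one hw0]; exact hw
    have b3 : -1 ≤ v / w := by rw [le_div_iff₀ hw0]; (clear * - hv1; linarith only [hv1])
    have b4 : v / w ≤ 1 := by rw [div_le_one hw0]; exact hv2
    refine chk2_sound hs he t _ _ _ _ ht hA ?_ ?_ ?_ ?_
    · push_cast; (clear * - he hw; positivity)
    · nlinarith only [he', b2]
    · push_cast; nlinarith only [he', b3]
    · nlinarith only [he', b4]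
  rcases le_total |x| |y| with hxy | hxy
  · rcases le_total |y| 1 with hy | hy
    · obtain ⟨y1, y2⟩ := abs_le.1 hy
      obtain ⟨x1, x2⟩ := abs_le.1 (hxy.trans hy)
      exact chk2_sound hs he t0 _ _ _ _ h0 (p := x) (v := y) ⟨rfl, rfl⟩
        (by push_cast; nlinarith only [he', x1]) (by nlinarith only [he', x2]) (by push_cast; nlinarith only [he', y1]) (by nlinarith only [he', y2])
    · rcases abs_cases y with ⟨hy', _⟩ | ⟨hy', _⟩
      · rw [hy'] at hy hxy
        refine fin 2 t2 h2 y hy x hxy ⟨by (clear * - hy; positivity), ?_, ?_⟩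
        · ring
        · field_simp
      · rw [hy'] at hy hxy
        have hy0 : y ≠ 0 := by intro h0; rw [h0] at hy; norm_num at hy
        refine fin 4 t4 h4 (-y) hy x hxy ⟨by positivity, ?_, ?_⟩
        · ring
        · field_simp
  · rcases le_total |x| 1 with hx | hx
    · obtain ⟨x1, x2⟩ := abs_le.1 hx
      obtain ⟨y1, y2⟩ := abs_le.1 (hxy.trans hx)
      exact chk2_sound hs he t0 _ _ _ _ h0 (p := x) (v := y) ⟨rfl, rfl⟩
        (by push_cast; (clear * - he' x1; nlinarith only [he', x1])) (by nlinarith only [he', x2]) (by push_cast; nlinarith only [he', y1]) (by nlinarith only [he', y2])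
    · rcases abs_cases x with ⟨hx', _⟩ | ⟨hx', _⟩
      · rw [hx'] at hx hxy
        refine fin 1 t1 h1 x hx y hxy ⟨by positivity, ?_, ?_⟩
        · field_simp
        · ring
      · rw [hx'] at hx hxy
        have hx0 : x ≠ 0 := by intro h0; rw [h0] at hx; norm_num at hx
        refine fin 3 t3 h3 (-x) hx y hxy ⟨by positivity, ?_, ?_⟩
        · field_simp
        · ring

end Pool.EK71

end

section

/-!
Taylor coefficients of holomorphic functions on the unit disc, and Parseval's identity.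
-/

set_option autoImplicit false

open MeasureTheory Set Metric Filter Topology

open scoped ENNReal NNReal Real Nat

namespace Pool.Agent.Helper22.Marshall

/-- Taylor coefficient at zero. -/
noncomputable def coeff (f : ℂ → ℂ) (n : ℕ) : ℂ := (n ! : ℂ)⁻¹ * iteratedDeriv n f 0

theorem coeff_zero (f : ℂ → ℂ) : coeff f 0 = f 0 := by simp [coeff]

theorem coeff_one (f : ℂ → ℂ) : coeff f 1 = deriv f 0 := by simp [coeff]

theorem hasSum_coeff {f : ℂ → ℂ} (hf : DifferentiableOn ℂ f (ball 0 1)) {z : ℂ}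
    (hz : ‖z‖ < 1) : HasSum (fun n => coeff f n * z ^ n) (f z) := by
  have h := Complex.hasSum_taylorSeries_on_ball (c := 0) (r := 1) (z := z) hf (by simpa using hz)
  have : (fun n => coeff f n * z ^ n)
      = fun n : ℕ => (n ! : ℂ)⁻¹ • (z - 0) ^ n • iteratedDeriv n f 0 := by
    funext n
    simp only [coeff, smul_eq_mul, sub_zero]
    ring
  rw [this]
  exact h

theorem coeff_deriv (f : ℂ → ℂ) (n : ℕ) :
    coeff (deriv f) n = ((n : ℂ) + 1) * coeff f (n + 1) := by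
  simp only [coeff, Nat.factorial_succ, Nat.cast_mul, Nat.cast_succ]
  rw [iteratedDeriv_succ']
  have h1 : ((n : ℂ) + 1) ≠ 0 := Nat.cast_add_one_ne_zero n
  have h2 : ((n ! : ℕ) : ℂ) ≠ 0 := Nat.cast_ne_zero.mpr (Nat.factorial_ne_zero n)
  (clear * - h1 h2; field_simp)

theorem differentiableOn_deriv {f : ℂ → ℂ} (hf : DifferentiableOn ℂ f (ball 0 1)) :
    DifferentiableOn ℂ (deriv f) (ball 0 1) := hf.deriv isOpen_ball

theorem hasSum_coeff_deriv {f : ℂ → ℂ} (hf : DifferentiableOn ℂ f (ball 0 1)) {z : ℂ}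
    (hz : ‖z‖ < 1) : HasSum (fun n : ℕ => (n : ℂ) * coeff f n * z ^ n) (z * deriv f z) := by
  have h := (hasSum_coeff (differentiableOn_deriv hf) hz).mul_left z
  have h2 : HasSum (fun n : ℕ => ((n + 1 : ℕ) : ℂ) * coeff f (n + 1) * z ^ (n + 1))
      (z * deriv f z) := by
    have : (fun n : ℕ => ((n + 1 : ℕ) : ℂ) * coeff f (n + 1) * z ^ (n + 1))
        = fun n => z * (coeff (deriv f) n * z ^ n) := by
      funext n
      rw [coeff_deriv]
      push_cast
      ring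
    rw [this]
    exact h
  rw [← hasSum_nat_add_iff' 1]
  simpa using h2

theorem parseval_comb {f : ℂ → ℂ} (hf : DifferentiableOn ℂ f (ball 0 1)) (α β : ℂ) {r : ℝ}
    (hr : 0 ≤ r) (hr1 : r < 1) :
    HasSum (fun n : ℕ => ‖(α * n + β) * coeff f n‖ ^ 2 * r ^ (2 * n))
      ((1 / (2 * π)) * ∫ θ in (-π)..π,
        ‖α * (((r : ℂ) * Complex.exp ((θ : ℂ) * Complex.I)) *
          deriv f ((r : ℂ) * Complex.exp ((θ : ℂ) * Complex.I)))
          + β * f ((r : ℂ) * Complex.exp ((θ : ℂ) * Complex.I))‖ ^ 2) := by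
  have hsum : ∀ z : ℂ, ‖z‖ < 1 → HasSum (fun n : ℕ => (α * n + β) * coeff f n * z ^ n)
      (α * (z * deriv f z) + β * f z) := by
    intro z hz
    have h1 := (hasSum_coeff_deriv hf hz).mul_left α
    have h2 := (hasSum_coeff hf hz).mul_left β
    have h3 := h1.add h2
    have : (fun n : ℕ => (α * n + β) * coeff f n * z ^ n)
        = fun n : ℕ => α * ((n : ℂ) * coeff f n * z ^ n) + β * (coeff f n * z ^ n) := by
      funext n
      ring
    rw [this]
    exact h3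
  have hnorm : ∀ θ : ℝ, ‖(r : ℂ) * Complex.exp ((θ : ℂ) * Complex.I)‖ = r := by
    intro θ
    rw [norm_mul, Complex.norm_exp_ofReal_mul_I, mul_one, Complex.norm_real,
      Real.norm_of_nonneg hr]
  apply parseval_aux (fun n : ℕ => (α * n + β) * coeff f n) r hr
  · have h := (hsum (r : ℂ) (by rw [Complex.norm_real, Real.norm_of_nonneg hr]; exact hr1)).summable
    have h2 := h.norm
    have : (fun n : ℕ => ‖(α * n + β) * coeff f n‖ * r ^ n)
        = fun n : ℕ => ‖(α * n + β) * coeff f n * (r : ℂ) ^ n‖ := by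
      funext n
      rw [norm_mul _ ((r : ℂ) ^ n), norm_pow, Complex.norm_real, Real.norm_of_nonneg hr]
    rw [this]
    exact h2
  · intro θ
    exact hsum _ (by rw [hnorm]; exact hr1)

end Pool.Agent.Helper22.Marshall

end

section

/-!
Taylor coefficients of products, and Cauchy's formula on circles.
-/

set_option autoImplicit false

open MeasureTheory Set Metric Filter Topology

open scoped ENNReal NNReal Real Nat

namespace Pool.Agent.Helper22.Marshall

theorem coeff_mul {f g : ℂ → ℂ} (hf : AnalyticAt ℂ f 0) (hg : AnalyticAt ℂ g 0) (n : ℕ) :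
    coeff (fun z => f z * g z) n = ∑ i ∈ Finset.range (n + 1), coeff f i * coeff g (n - i) := by
  unfold coeff
  have h := iteratedDeriv_mul (n := n) (x := (0 : ℂ)) hf.contDiffAt hg.contDiffAt
  have e : (fun z => f z * g z) = f * g := rfl
  rw [e, h, Finset.mul_sum]
  apply Finset.sum_congr rfl
  intro i hi
  rw [Finset.mem_range] at hi
  have h2 : (n.choose i : ℂ) * ((i ! : ℕ) : ℂ) * (((n - i)! : ℕ) : ℂ) = ((n ! : ℕ) : ℂ) := by
    exact_mod_cast Nat.choose_mul_factorial_mul_factorial (by omega : i ≤ n)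
  have h3 : ((n ! : ℕ) : ℂ) ≠ 0 := Nat.cast_ne_zero.mpr (Nat.factorial_ne_zero n)
  have h4 : ((i ! : ℕ) : ℂ) ≠ 0 := Nat.cast_ne_zero.mpr (Nat.factorial_ne_zero i)
  have h5 : (((n - i)! : ℕ) : ℂ) ≠ 0 := Nat.cast_ne_zero.mpr (Nat.factorial_ne_zero _)
  rw [← h2]
  have h6 : (n.choose i : ℂ) ≠ 0 := by
    intro h
    rw [h, zero_mul, zero_mul] at h2
    exact h3 h2.symm
  (clear * - h6 h5 h4; field_simp)

theorem coeff_congr {f g : ℂ → ℂ} (h : f =ᶠ[𝓝 0] g) (n : ℕ) : coeff f n = coeff g n := by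
  unfold coeff
  rw [h.iteratedDeriv_eq]

theorem coeff_const_mul (c : ℂ) (f : ℂ → ℂ) (n : ℕ) :
    coeff (fun z => c * f z) n = c * coeff f n := by
  unfold coeff
  rw [iteratedDeriv_const_mul_field]
  ring

/-- uniqueness of Taylor coefficients -/
theorem coeff_eq_of_hasSum {f : ℂ → ℂ} {a : ℕ → ℂ} {r : ℝ} (hr : 0 < r)
    (h : ∀ z : ℂ, ‖z‖ < r → HasSum (fun n => a n * z ^ n) (f z)) (n : ℕ) : coeff f n = a n := by
  have hp : HasFPowerSeriesAt f (FormalMultilinearSeries.ofScalars ℂ a) 0 := by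
    rw [hasFPowerSeriesAt_iff]
    filter_upwards [ball_mem_nhds (0 : ℂ) hr] with z hz
    rw [mem_ball_zero_iff] at hz
    have e : (fun n => z ^ n • (FormalMultilinearSeries.ofScalars ℂ a).coeff n)
        = fun n => a n * z ^ n := by
      funext n
      rw [FormalMultilinearSeries.coeff_ofScalars, smul_eq_mul, mul_comm]
    rw [e, zero_add]
    exact h z hz
  have han : AnalyticAt ℂ f 0 := hp.analyticAt
  have h2 := han.hasFPowerSeriesAt
  have h3 := hp.eq_formalMultilinearSeries h2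
  have h4 := congrArg (fun p : FormalMultilinearSeries ℂ ℂ ℂ => p.coeff n) h3
  simp only [FormalMultilinearSeries.coeff_ofScalars] at h4
  rw [h4]
  unfold coeff
  rw [div_eq_inv_mul]

end Pool.Agent.Helper22.Marshall

end

section

/-!
Two classical facts: the derivative of an injective holomorphic function has no zero, and a
holomorphic function without zeros on the disc has a holomorphic logarithm.
-/

set_option autoImplicit false

open Set Metric Filter Topology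

namespace Pool.Agent.Helper24.Br

/-- the derivative of an injective holomorphic function has no zero -/
theorem deriv_ne_of_inj {f : ℂ → ℂ} {U : Set ℂ} (hU : IsOpen U) (hf : DifferentiableOn ℂ f U)
    (hinj : InjOn f U) {z : ℂ} (hz : z ∈ U) : deriv f z ≠ 0 := by
  intro h0
  have hUz : U ∈ 𝓝 z := hU.mem_nhds hz
  have hfa : AnalyticAt ℂ f z := hf.analyticAt hUz
  have hFa : AnalyticAt ℂ (fun w => f w - f z) z := hfa.sub analyticAt_const
  have hnc : ¬ ∀ᶠ w in 𝓝 z, f w - f z = 0 := by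
    intro hev
    have h1 : ∀ᶠ w in 𝓝 z, w = z := by
      filter_upwards [hev, hUz] with w hw hwU
      exact hinj hwU hz (by linear_combination hw)
    have h2 : ∀ᶠ w in 𝓝[≠] z, w = z := h1.filter_mono nhdsWithin_le_nhds
    have h3 : ∀ᶠ w in 𝓝[≠] z, w ≠ z := self_mem_nhdsWithin
    obtain ⟨w, hw1, hw2⟩ := (h2.and h3).exists
    exact hw2 hw1
  obtain ⟨n, g, hg, hgz, hev⟩ := hFa.exists_eventuallyEq_pow_smul_nonzero_iff.mpr hnc
  simp only [smul_eq_mul] at hev
  have hdF : HasDerivAt (fun w => f w - f z) 0 z := by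
    have h := (hfa.differentiableAt.hasDerivAt).sub_const (f z)
    rwa [h0] at h
  have hn : 2 ≤ n := by
    by_contra hlt
    have hcase : n = 0 ∨ n = 1 := by omega
    rcases hcase with h | h
    · subst h
      have := hev.self_of_nhds
      simp only [sub_self, pow_zero, one_mul] at this
      exact hgz this.symm
    · subst h
      have h2 : HasDerivAt (fun w => (w - z) ^ 1 * g w) (g z) z := by
        have h3 := ((hasDerivAt_id z).sub_const z).mul hg.differentiableAt.hasDerivAt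
        simp only [id_eq, one_mul, sub_self, zero_mul, add_zero] at h3
        simp only [pow_one]
        exact h3
      have h4 := h2.congr_of_eventuallyEq hev
      have h5 := h4.unique hdF
      exact hgz h5
  have hn0 : (n : ℂ) ≠ 0 := by
    have : n ≠ 0 := by omega
    exact_mod_cast this
  -- a local root
  obtain ⟨c, hc⟩ : ∃ c : ℂ, c ^ n = g z := by
    have : 0 < n := by omega
    obtain ⟨c, hc⟩ := IsAlgClosed.exists_pow_nat_eq (g z) this
    exact ⟨c, hc⟩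
  have hc0 : c ≠ 0 := by
    intro h
    rw [h, zero_pow (by omega)] at hc
    exact hgz hc.symm
  have hq : AnalyticAt ℂ (fun w => g w / g z) z := hg.div analyticAt_const hgz
  have hq1 : g z / g z = 1 := div_self hgz
  have hlog : AnalyticAt ℂ (fun w => Complex.log (g w / g z)) z := by
    apply AnalyticAt.clog hq
    rw [hq1]
    exact Complex.one_mem_slitPlane
  have hk : AnalyticAt ℂ (fun w => c * Complex.exp (Complex.log (g w / g z) / n)) z :=
    analyticAt_const.mul (hlog.div analyticAt_const hn0).cexp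
  obtain ⟨k, hkd⟩ : ∃ k : ℂ → ℂ, k = fun w => c * Complex.exp (Complex.log (g w / g z) / n) :=
    ⟨_, rfl⟩
  rw [← hkd] at hk
  have hkz : k z = c := by
    rw [hkd]
    simp only [hq1, Complex.log_one, zero_div, Complex.exp_zero, mul_one]
  have hgne : ∀ᶠ w in 𝓝 z, g w ≠ 0 := hg.continuousAt.eventually_ne hgz
  have hkn : ∀ᶠ w in 𝓝 z, k w ^ n = g w := by
    filter_upwards [hgne] with w hw
    rw [hkd]
    simp only
    rw [mul_pow, hc, ← Complex.exp_nat_mul, mul_div_cancel₀ _ hn0,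
      Complex.exp_log (div_ne_zero hw hgz), mul_div_cancel₀ _ hgz]
  obtain ⟨u, hud⟩ : ∃ u : ℂ → ℂ, u = fun w => (w - z) * k w := ⟨_, rfl⟩
  have hua : AnalyticAt ℂ u z := by
    rw [hud]
    exact (analyticAt_id.sub analyticAt_const).mul hk
  have hu' : HasDerivAt u c z := by
    have h3 := ((hasDerivAt_id z).sub_const z).mul hk.differentiableAt.hasDerivAt
    simp only [id_eq, one_mul, sub_self, zero_mul, add_zero] at h3
    rw [hkz] at h3
    rw [hud]
    exact h3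
  have hus : HasStrictDerivAt u c z := by
    have := hua.hasStrictDerivAt
    rwa [hu'.deriv] at this
  have huz : u z = 0 := by rw [hud]; simp
  have hmap := hus.map_nhds_eq hc0
  rw [huz] at hmap
  have hgood : ∀ᶠ w in 𝓝 z, w ∈ U ∧ f w - f z = u w ^ n := by
    filter_upwards [hUz, hev, hkn] with w h1 h2 h3
    refine ⟨h1, ?_⟩
    rw [h2, hud]
    simp only
    rw [mul_pow, h3]
  have himg : u '' {w | w ∈ U ∧ f w - f z = u w ^ n} ∈ 𝓝 (0 : ℂ) := by
    rw [← hmap]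
    exact image_mem_map hgood
  rw [Metric.mem_nhds_iff] at himg
  obtain ⟨ε, hε, hball⟩ := himg
  have hω := Complex.isPrimitiveRoot_exp n (by omega)
  obtain ⟨ω, hωd⟩ : ∃ ω : ℂ, ω = Complex.exp (2 * Real.pi * Complex.I / n) := ⟨_, rfl⟩
  rw [← hωd] at hω
  have hω1 : ω ≠ 1 := hω.ne_one (by omega)
  have hωn : ω ^ n = 1 := hω.pow_eq_one
  have hωnorm : ‖ω‖ = 1 := hω.norm'_eq_one (by omega)
  have he0 : ((ε / 2 : ℝ) : ℂ) ≠ 0 := by
    have : (ε / 2 : ℝ) ≠ 0 := by (clear * - hε; positivity)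
    exact_mod_cast this
  have hen : ‖((ε / 2 : ℝ) : ℂ)‖ < ε := by
    rw [Complex.norm_real, Real.norm_of_nonneg (by (clear * - hε; positivity))]
    (clear * - hε; linarith only [hε])
  obtain ⟨w1, ⟨hw1U, hw1⟩, hw1e⟩ := hball (mem_ball_zero_iff.mpr hen)
  have hen2 : ω * ((ε / 2 : ℝ) : ℂ) ∈ ball (0 : ℂ) ε := by
    rw [mem_ball_zero_iff, norm_mul, hωnorm, one_mul]; exact hen
  obtain ⟨w2, ⟨hw2U, hw2⟩, hw2e⟩ := hball hen2
  rw [hw1e] at hw1
  rw [hw2e, mul_pow, hωn, one_mul] at hw2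
  have h12 : w1 = w2 := hinj hw1U hw2U (by linear_combination hw1 - hw2)
  rw [h12, hw2e] at hw1e
  apply hω1
  have : (ω - 1) * ((ε / 2 : ℝ) : ℂ) = 0 := by linear_combination hw1e
  rcases mul_eq_zero.mp this with h | h
  · linear_combination h
  · exact absurd h he0

/-- the holomorphic logarithm on the disc -/
theorem exists_log_ball {q : ℂ → ℂ} (hq : DifferentiableOn ℂ q (ball 0 1))
    (hq0 : ∀ z ∈ ball (0 : ℂ) 1, q z ≠ 0) (h1 : q 0 = 1) :
    ∃ H : ℂ → ℂ, DifferentiableOn ℂ H (ball 0 1) ∧ H 0 = 0 ∧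
      ∀ z ∈ ball (0 : ℂ) 1, Complex.exp (H z) = q z := by
  have hd : DifferentiableOn ℂ (fun z => deriv q z / q z) (ball 0 1) :=
    (hq.deriv isOpen_ball).div hq hq0
  obtain ⟨H, hH0, hH⟩ := hd.isExactOn_ball.with_val_at 0 0
  refine ⟨H, fun z hz => (hH z hz).differentiableAt.differentiableWithinAt, hH0, ?_⟩
  have hconst : ∀ z ∈ ball (0 : ℂ) 1, HasDerivAt (fun z => q z * Complex.exp (-H z)) 0 z := by
    intro z hz
    have hqz := (hq.differentiableAt (isOpen_ball.mem_nhds hz)).hasDerivAt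
    have hne : HasDerivAt (fun z => -H z) (-(deriv q z / q z)) z := (hH z hz).neg
    have h3 : HasDerivAt (fun z => q z * Complex.exp (-H z))
        (deriv q z * Complex.exp (-H z) + q z * (Complex.exp (-H z) * -(deriv q z / q z))) z :=
      hqz.mul hne.cexp
    have e : deriv q z * Complex.exp (-H z) + q z * (Complex.exp (-H z) * -(deriv q z / q z)) = 0 := by
      have := hq0 z hz
      field_simp
      ring
    rw [e] at h3
    exact h3
  intro z hz
  have h4 : (fun z => q z * Complex.exp (-H z)) z = (fun z => q z * Complex.exp (-H z)) 0 := by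
    apply (convex_ball (0 : ℂ) 1).is_const_of_fderivWithin_eq_zero (𝕜 := ℂ)
      (f := fun z => q z * Complex.exp (-H z)) (fun w hw => (hconst w hw).differentiableAt.differentiableWithinAt)
      ?_ hz (mem_ball_self one_pos)
    intro w hw
    rw [fderivWithin_of_isOpen isOpen_ball hw]
    have := (hconst w hw).hasFDerivAt.fderiv
    rw [this]
    ext
    simp
  simp only [hH0, neg_zero, Complex.exp_zero, mul_one, h1] at h4
  have h5 : Complex.exp (H z) * Complex.exp (-H z) = 1 := by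
    rw [← Complex.exp_add, add_neg_cancel, Complex.exp_zero]
  have h6 := Complex.exp_ne_zero (-H z)
  apply mul_right_cancel₀ h6
  rw [h5, h4]

end Pool.Agent.Helper24.Br

end
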