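import Mathlib
import Pool.Agent.Helper14.CMF.T02

set_option linter.all false

section

/-!
Polynomials in seven variables `l, S, C, P, R, u, v`, homogeneous for the weight
`S, C : 1`, `P, R : 2`, represented by their value at one point with large integer
coordinates (Kronecker substitution).
-/

set_option autoImplicit false

namespace Pool.Sos71

/-- exponents of a monomial -/
structure Mon where
  a : ℕ
  b : ℕ
  c : ℕ
  d : ℕ
  e : ℕ
  f : ℕ
  g : ℕ

/-- a point -/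
structure Pnt where
  a : ℝ
  b : ℝ
  c : ℝ
  d : ℝ
  e : ℝ
  f : ℝ
  g : ℝ

def Mon.add (m n : Mon) : Mon :=
  ⟨m.a + n.a, m.b + n.b, m.c + n.c, m.d + n.d, m.e + n.e, m.f + n.f, m.g + n.g⟩

noncomputable def Mon.val (x : Pnt) (m : Mon) : ℝ :=
  x.a ^ m.a * x.b ^ m.b * x.c ^ m.c * x.d ^ m.d * x.e ^ m.e * x.f ^ m.f * x.g ^ m.g

lemma Mon.val_add (x : Pnt) (m n : Mon) : (m.add n).val x = m.val x * n.val x := by
  simp only [Mon.val, Mon.add, pow_add]; ring

/-- bounds of the exponents, and the weight -/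
structure Bd where
  a : ℕ
  b : ℕ
  d : ℕ
  e : ℕ
  f : ℕ
  g : ℕ
  w : ℕ

def Mon.In (m : Mon) (B : Bd) : Prop :=
  m.a ≤ B.a ∧ m.b ≤ B.b ∧ m.d ≤ B.d ∧ m.e ≤ B.e ∧ m.f ≤ B.f ∧ m.g ≤ B.g ∧
    m.b + m.c + 2 * m.d + 2 * m.e = B.w

def Bd.add (B D : Bd) : Bd :=
  ⟨B.a + D.a, B.b + D.b, B.d + D.d, B.e + D.e, B.f + D.f, B.g + D.g, B.w + D.w⟩

/-- `B` is contained in `D` -/
def Bd.le (B D : Bd) : Prop :=
  B.a ≤ D.a ∧ B.b ≤ D.b ∧ B.d ≤ D.d ∧ B.e ≤ D.e ∧ B.f ≤ D.f ∧ B.g ≤ D.g ∧ B.w = D.w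

def Bd.leb (B D : Bd) : Bool :=
  Nat.ble B.a D.a && Nat.ble B.b D.b && Nat.ble B.d D.d && Nat.ble B.e D.e &&
    Nat.ble B.f D.f && Nat.ble B.g D.g && Nat.beq B.w D.w

lemma Bd.leb_sound {B D : Bd} (h : B.leb D = true) : B.le D := by
  simp only [Bd.leb, Bool.and_eq_true, Nat.ble_eq] at h
  obtain ⟨⟨⟨⟨⟨⟨h1, h2⟩, h3⟩, h4⟩, h5⟩, h6⟩, h7⟩ := h
  exact ⟨h1, h2, h3, h4, h5, h6, Nat.eq_of_beq_eq_true h7⟩

lemma Mon.In.add {m n : Mon} {B D : Bd} (h : m.In B) (h' : n.In D) : (m.add n).In (B.add D) := by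
  obtain ⟨h1, h2, h3, h4, h5, h6, h7⟩ := h
  obtain ⟨g1, g2, g3, g4, g5, g6, g7⟩ := h'
  refine ⟨Nat.add_le_add h1 g1, Nat.add_le_add h2 g2, Nat.add_le_add h3 g3,
    Nat.add_le_add h4 g4, Nat.add_le_add h5 g5, Nat.add_le_add h6 g6, ?_⟩
  simp only [Mon.add, Bd.add]; omega

lemma Mon.In.le {m : Mon} {B D : Bd} (h : m.In B) (h' : B.le D) : m.In D := by
  obtain ⟨h1, h2, h3, h4, h5, h6, h7⟩ := h
  obtain ⟨g1, g2, g3, g4, g5, g6, g7⟩ := h'
  exact ⟨h1.trans g1, h2.trans g2, h3.trans g3, h4.trans g4, h5.trans g5, h6.trans g6,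
    h7.trans g7⟩

/-- the radices: `code = f + rg g + ra a + rb b + rd d + re e` -/
structure Rad where
  rg : ℕ
  ra : ℕ
  rb : ℕ
  rd : ℕ
  re : ℕ

def Mon.code (r : Rad) (m : Mon) : ℕ :=
  m.f + r.rg * m.g + r.ra * m.a + r.rb * m.b + r.rd * m.d + r.re * m.e

lemma Mon.code_add (r : Rad) (m n : Mon) : (m.add n).code r = m.code r + n.code r := by
  simp only [Mon.code, Mon.add]; ring

/-- the radices are large enough for the box `B` -/
def Rad.ok (r : Rad) (B : Bd) : Prop :=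
  B.f < r.rg ∧ B.f + r.rg * B.g < r.ra ∧ B.f + r.rg * B.g + r.ra * B.a < r.rb ∧
    B.f + r.rg * B.g + r.ra * B.a + r.rb * B.b < r.rd ∧
    B.f + r.rg * B.g + r.ra * B.a + r.rb * B.b + r.rd * B.d < r.re

def Rad.okb (r : Rad) (B : Bd) : Bool :=
  Nat.blt B.f r.rg && Nat.blt (B.f + r.rg * B.g) r.ra &&
    Nat.blt (B.f + r.rg * B.g + r.ra * B.a) r.rb &&
    Nat.blt (B.f + r.rg * B.g + r.ra * B.a + r.rb * B.b) r.rd &&
    Nat.blt (B.f + r.rg * B.g + r.ra * B.a + r.rb * B.b + r.rd * B.d) r.re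

lemma Rad.okb_sound {r : Rad} {B : Bd} (h : r.okb B = true) : r.ok B := by
  simp only [Rad.okb, Bool.and_eq_true, Nat.blt_eq] at h
  obtain ⟨⟨⟨⟨h1, h2⟩, h3⟩, h4⟩, h5⟩ := h
  exact ⟨h1, h2, h3, h4, h5⟩

/-- uniqueness of the leading digit -/
lemma dig_unique {r x y n m : ℕ} (hx : x < r) (hy : y < r) (h : x + r * n = y + r * m) :
    n = m ∧ x = y := by
  have h1 : (x + r * n) / r = (y + r * m) / r := by rw [h]
  have hr : 0 < r := by omega
  rw [Nat.add_mul_div_left _ _ hr, Nat.add_mul_div_left _ _ hr, Nat.div_eq_of_lt hx,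
    Nat.div_eq_of_lt hy] at h1
  have h2 : n = m := by omega
  subst h2
  exact ⟨rfl, by omega⟩

lemma code_inj {r : Rad} {B : Bd} (hr : r.ok B) {m n : Mon} (hm : m.In B) (hn : n.In B)
    (h : m.code r = n.code r) : m = n := by
  obtain ⟨r1, r2, r3, r4, r5⟩ := hr
  obtain ⟨a1, a2, a3, a4, a5, a6, a7⟩ := hm
  obtain ⟨b1, b2, b3, b4, b5, b6, b7⟩ := hn
  simp only [Mon.code] at h
  have g1 : r.rg * m.g ≤ r.rg * B.g := Nat.mul_le_mul_left _ a6
  have g2 : r.rg * n.g ≤ r.rg * B.g := Nat.mul_le_mul_left _ b6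
  have g3 : r.ra * m.a ≤ r.ra * B.a := Nat.mul_le_mul_left _ a1
  have g4 : r.ra * n.a ≤ r.ra * B.a := Nat.mul_le_mul_left _ b1
  have g5 : r.rb * m.b ≤ r.rb * B.b := Nat.mul_le_mul_left _ a2
  have g6 : r.rb * n.b ≤ r.rb * B.b := Nat.mul_le_mul_left _ b2
  have g7 : r.rd * m.d ≤ r.rd * B.d := Nat.mul_le_mul_left _ a3
  have g8 : r.rd * n.d ≤ r.rd * B.d := Nat.mul_le_mul_left _ b3
  obtain ⟨e5, h5⟩ := dig_unique (r := r.re) (by omega) (by omega) h
  obtain ⟨e4, h4⟩ := dig_unique (r := r.rd) (by (clear * - h r4 a5 g1 g3 g5 h5; omega)) (by (clear * - m r4 b5 g2 g4 g6; omega)) h5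
  obtain ⟨e3, h3⟩ := dig_unique (r := r.rb) (by (clear * - h r3 a5 g1 g3 h5 h4; omega)) (by omega) h4
  obtain ⟨e2, h2⟩ := dig_unique (r := r.ra) (by (clear * - h r2 a5 g1 h5 h4 h3; omega)) (by omega) h3
  obtain ⟨e1, h1⟩ := dig_unique (r := r.rg) (by (clear * - h r1 a5 h5 h4 h3 h2; omega)) (by omega) h2
  have e6 : m.c = n.c := by omega
  cases m; cases n
  simp_all

abbrev Pol := List (ℤ × Mon)

def Pol.ev (w : ℤ) (r : Rad) (P : Pol) : ℤ := (P.map fun t => t.1 * w ^ t.2.code r).sum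

noncomputable def Pol.re (x : Pnt) (P : Pol) : ℝ := (P.map fun t => (t.1 : ℝ) * t.2.val x).sum

def Pol.nm (P : Pol) : ℕ := (P.map fun t => t.1.natAbs).sum

def Pol.mul (P Q : Pol) : Pol := P.flatMap fun t => Q.map fun s => (t.1 * s.1, t.2.add s.2)

lemma sum_smul {R α : Type*} [CommSemiring R] (c : R) (f g : α → R) (Q : List α)
    (h : ∀ s, f s = c * g s) : (Q.map f).sum = c * (Q.map g).sum := by
  induction Q with
  | nil => simp
  | cons s Q ih => rw [List.map_cons, List.sum_cons, List.map_cons, List.sum_cons, ih, h]; ring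

lemma Pol.ev_mul (w : ℤ) (r : Rad) (P Q : Pol) :
    (P.mul Q).ev w r = P.ev w r * Q.ev w r := by
  unfold Pol.ev Pol.mul
  induction P with
  | nil => simp
  | cons t P ih =>
    rw [List.flatMap_cons, List.map_append, List.sum_append, ih, List.map_cons, List.sum_cons,
      add_mul, List.map_map]
    congr 1
    refine sum_smul _ _ _ _ (fun s => ?_)
    simp only [Function.comp, Mon.code_add, pow_add]; ring

lemma Pol.re_mul (x : Pnt) (P Q : Pol) : (P.mul Q).re x = P.re x * Q.re x := by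
  unfold Pol.re Pol.mul
  induction P with
  | nil => simp
  | cons t P ih =>
    rw [List.flatMap_cons, List.map_append, List.sum_append, ih, List.map_cons, List.sum_cons,
      add_mul, List.map_map]
    congr 1
    refine sum_smul _ _ _ _ (fun s => ?_)
    simp only [Function.comp, Mon.val_add]; push_cast; ring

lemma Pol.nm_mul (P Q : Pol) : (P.mul Q).nm = P.nm * Q.nm := by
  unfold Pol.nm Pol.mul
  induction P with
  | nil => simp
  | cons t P ih =>
    rw [List.flatMap_cons, List.map_append, List.sum_append, ih, List.map_cons, List.sum_cons,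
      add_mul, List.map_map]
    congr 1
    refine sum_smul _ _ _ _ (fun s => ?_)
    simp only [Function.comp, Int.natAbs_mul]

/-- `v` and `φ` are the values of one polynomial in the box `N` with norm at most `c` -/
def Rep (w : ℤ) (r : Rad) (x : Pnt) (N : Bd) (c : ℕ) (v : ℤ) (φ : ℝ) : Prop :=
  ∃ P : Pol, (∀ t ∈ P, t.2.In N) ∧ P.nm ≤ c ∧ P.ev w r = v ∧ P.re x = φ

section Rep

variable {w : ℤ} {r : Rad} {x : Pnt}

lemma Rep.zero (N : Bd) (c : ℕ) : Rep w r x N c 0 0 :=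
  ⟨[], by simp, by simp [Pol.nm], by simp [Pol.ev], by simp [Pol.re]⟩

lemma Rep.mon (z : ℤ) {m : Mon} {N : Bd} (h : m.In N) :
    Rep w r x N z.natAbs (z * w ^ m.code r) (z * m.val x) :=
  ⟨[(z, m)], by simpa using h, by simp [Pol.nm], by simp [Pol.ev], by simp [Pol.re]⟩

lemma Rep.add {N : Bd} {c c' : ℕ} {v v' : ℤ} {φ φ' : ℝ} (h : Rep w r x N c v φ)
    (h' : Rep w r x N c' v' φ') : Rep w r x N (c + c') (v + v') (φ + φ') := by
  obtain ⟨P, h1, h2, rfl, rfl⟩ := h
  obtain ⟨Q, g1, g2, rfl, rfl⟩ := h'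
  refine ⟨P ++ Q, ?_, ?_, ?_, ?_⟩
  · intro t ht
    rcases List.mem_append.1 ht with h | h
    · exact h1 t h
    · exact g1 t h
  · unfold Pol.nm at *
    rw [List.map_append, List.sum_append]; exact Nat.add_le_add h2 g2
  · unfold Pol.ev; rw [List.map_append, List.sum_append]
  · unfold Pol.re; rw [List.map_append, List.sum_append]

lemma Rep.mul {N N' : Bd} {c c' : ℕ} {v v' : ℤ} {φ φ' : ℝ} (h : Rep w r x N c v φ)
    (h' : Rep w r x N' c' v' φ') : Rep w r x (N.add N') (c * c') (v * v') (φ * φ') := by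
  obtain ⟨P, h1, h2, rfl, rfl⟩ := h
  obtain ⟨Q, g1, g2, rfl, rfl⟩ := h'
  refine ⟨P.mul Q, ?_, ?_, Pol.ev_mul _ _ _ _, Pol.re_mul _ _ _⟩
  · intro t ht
    obtain ⟨s, hs, ht⟩ := List.mem_flatMap.1 ht
    obtain ⟨q, hq, rfl⟩ := List.mem_map.1 ht
    exact (h1 s hs).add (g1 q hq)
  · rw [Pol.nm_mul]; exact Nat.mul_le_mul h2 g2

lemma Rep.smul {N : Bd} {c : ℕ} {v : ℤ} {φ : ℝ} (z : ℤ) (h : Rep w r x N c v φ) :
    Rep w r x N (z.natAbs * c) (z * v) (z * φ) := by
  obtain ⟨P, h1, h2, rfl, rfl⟩ := h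
  refine ⟨P.map fun t => (z * t.1, t.2), ?_, ?_, ?_, ?_⟩
  · intro t ht
    obtain ⟨s, hs, rfl⟩ := List.mem_map.1 ht
    exact h1 s hs
  · unfold Pol.nm at *
    rw [List.map_map]
    have : (P.map ((fun t : ℤ × Mon => t.1.natAbs) ∘ fun t => (z * t.1, t.2))).sum
        = z.natAbs * (P.map (fun t => t.1.natAbs)).sum := by
      rw [← List.sum_map_mul_left]
      congr 1
      refine List.map_congr_left (fun t _ => ?_)
      simp [Int.natAbs_mul]
    rw [this]; exact Nat.mul_le_mul_left _ h2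
  · unfold Pol.ev
    rw [List.map_map, ← List.sum_map_mul_left]
    congr 1
    refine List.map_congr_left (fun t _ => ?_)
    simp only [Function.comp]; ring
  · unfold Pol.re
    rw [List.map_map, ← List.sum_map_mul_left]
    congr 1
    refine List.map_congr_left (fun t _ => ?_)
    simp only [Function.comp]; push_cast; ring

lemma Rep.mono {N : Bd} {c c' : ℕ} {v : ℤ} {φ : ℝ} (h : Rep w r x N c v φ) (hc : c ≤ c') :
    Rep w r x N c' v φ := by
  obtain ⟨P, h1, h2, h3, h4⟩ := h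
  exact ⟨P, h1, h2.trans hc, h3, h4⟩

lemma Rep.le {N N' : Bd} {c : ℕ} {v : ℤ} {φ : ℝ} (h : Rep w r x N c v φ) (hN : N.le N') :
    Rep w r x N' c v φ := by
  obtain ⟨P, h1, h2, h3, h4⟩ := h
  exact ⟨P, fun t ht => (h1 t ht).le hN, h2, h3, h4⟩

end Rep

open Polynomial in
/-- a polynomial with small coefficients which vanishes at `w` is zero -/
lemma poly_zero {w : ℕ} (P : ℤ[X]) (h : ∀ k, (P.coeff k).natAbs < w) (h0 : P.eval (w : ℤ) = 0) :
    P = 0 := by
  by_contra hP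
  obtain ⟨Q, hQ, hdvd⟩ : ∃ Q : ℤ[X], P = X ^ P.natTrailingDegree * Q ∧ Q.coeff 0 ≠ 0 := by
    have h1 : X ^ P.natTrailingDegree ∣ P := by
      rw [X_pow_dvd_iff]
      intro d hd
      exact coeff_eq_zero_of_lt_natTrailingDegree hd
    obtain ⟨Q, hQ⟩ := h1
    refine ⟨Q, hQ, ?_⟩
    have h2 : P.coeff P.natTrailingDegree ≠ 0 := by
      rw [← trailingCoeff]
      exact trailingCoeff_nonzero_iff_nonzero.2 hP
    intro h3
    apply h2
    have h4 : P.coeff P.natTrailingDegree = Q.coeff 0 := by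
      have e := congrArg (fun R : ℤ[X] => R.coeff P.natTrailingDegree) hQ
      have := coeff_X_pow_mul Q P.natTrailingDegree 0
      rw [zero_add] at this
      exact e.trans this
    rw [h4, h3]
  have hw : (0 : ℤ) < w := by
    have := h 0
    omega
  have h5 : Q.eval (w : ℤ) = 0 := by
    rw [hQ, eval_mul, eval_pow, eval_X] at h0
    rcases mul_eq_zero.1 h0 with h6 | h6
    · exact absurd h6 (pow_ne_zero _ hw.ne')
    · exact h6
  have h6 : (w : ℤ) ∣ Q.coeff 0 := by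
    have h7 : (X - C (w : ℤ)) ∣ Q := dvd_iff_isRoot.2 h5
    obtain ⟨S, hS⟩ := h7
    refine ⟨-S.coeff 0, ?_⟩
    rw [hS, coeff_zero_eq_eval_zero, eval_mul, coeff_zero_eq_eval_zero]
    simp
  have h8 : P.coeff P.natTrailingDegree = Q.coeff 0 := by
    have e := congrArg (fun R : ℤ[X] => R.coeff P.natTrailingDegree) hQ
    have := coeff_X_pow_mul Q P.natTrailingDegree 0
    rw [zero_add] at this
    exact e.trans this
  have h9 := h P.natTrailingDegree
  rw [h8] at h9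
  have h10 := Int.natAbs_dvd_natAbs.2 h6
  rw [Int.natAbs_natCast] at h10
  have h11 : (Q.coeff 0).natAbs = 0 := Nat.eq_zero_of_dvd_of_lt h10 h9
  exact hdvd (Int.natAbs_eq_zero.1 h11)

open Polynomial in
/-- the univariate polynomial of a list of terms -/
noncomputable def uni (r : Rad) (P : Pol) : ℤ[X] := (P.map fun t => C t.1 * X ^ t.2.code r).sum

open Polynomial in
lemma uni_coeff (r : Rad) (P : Pol) (k : ℕ) : ((uni r P).coeff k).natAbs ≤ P.nm := by
  unfold uni Pol.nm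
  induction P with
  | nil => simp
  | cons t P ih =>
    rw [List.map_cons, List.sum_cons, coeff_add, List.map_cons, List.sum_cons]
    refine (Int.natAbs_add_le _ _).trans (Nat.add_le_add ?_ ih)
    rw [coeff_C_mul, coeff_X_pow]
    split_ifs <;> simp

open Polynomial in
lemma uni_eval (r : Rad) (P : Pol) (w : ℤ) : (uni r P).eval w = P.ev w r := by
  unfold uni Pol.ev
  induction P with
  | nil => simp
  | cons t P ih =>
    rw [List.map_cons, List.sum_cons, eval_add, ih, List.map_cons, List.sum_cons]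
    simp

open Polynomial in
/-- a linear functional of the coefficients -/
lemma uni_sum (r : Rad) (P : Pol) (F : ℕ → ℝ) :
    (P.map fun t => (t.1 : ℝ) * F (t.2.code r)).sum =
      (uni r P).sum (fun k a => (a : ℝ) * F k) := by
  unfold uni
  induction P with
  | nil => simp
  | cons t P ih =>
    rw [List.map_cons, List.sum_cons, ih, List.map_cons, List.sum_cons]
    rw [sum_add_index]
    · congr 1
      rw [C_mul_X_pow_eq_monomial, sum_monomial_index _ _ (by simp)]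
    · intro i; simp
    · intro i a b; push_cast; ring

/-- the value determines the polynomial -/
theorem Rep.eq_zero {w : ℕ} {r : Rad} {x : Pnt} {N : Bd} {c : ℕ} {φ : ℝ}
    (hr : r.ok N) (h : Rep (w : ℤ) r x N c 0 φ) (hc : c < w) : φ = 0 := by
  classical
  obtain ⟨P, h1, h2, h3, rfl⟩ := h
  have h4 : uni r P = 0 := by
    apply poly_zero (w := w)
    · intro k
      exact lt_of_le_of_lt ((uni_coeff r P k).trans h2) hc
    · rw [uni_eval]; exact h3
  set F : ℕ → ℝ := fun k => if h : ∃ m : Mon, m.In N ∧ m.code r = k then h.choose.val x else 0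
    with hF
  have h5 : ∀ t ∈ P, t.2.val x = F (t.2.code r) := by
    intro t ht
    have h6 : ∃ m : Mon, m.In N ∧ m.code r = t.2.code r := ⟨t.2, h1 t ht, rfl⟩
    have h7 := h6.choose_spec
    rw [hF]
    simp only
    rw [dif_pos h6, code_inj hr h7.1 (h1 t ht) h7.2]
  have h8 : P.re x = (P.map fun t => (t.1 : ℝ) * F (t.2.code r)).sum := by
    unfold Pol.re
    congr 1
    refine List.map_congr_left (fun t ht => ?_)
    rw [h5 t ht]
  rw [h8, uni_sum, h4, Polynomial.sum_zero_index]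

end Pool.Sos71

end

section

/-!
Expressions for polynomials in `l, S, C, P, R, u, v` (variables `va 0, ..., va 6`).
`bp P` is the polynomial in `(u, v)` given by a list of rows.
-/

set_option autoImplicit false

namespace Pool.Sos71

inductive Ex where
  | lit (z : ℤ) : Ex
  | va (i : ℕ) : Ex
  | add (p q : Ex) : Ex
  | mul (p q : Ex) : Ex
  | sc (z : ℤ) (p : Ex) : Ex
  | pow (p : Ex) (n : ℕ) : Ex
  | bp (P : List (List ℤ)) : Ex

/-- values of the variables `S, l, P, R, v, u` at the integer point (`C = 1`) -/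
structure IPt where
  a : ℤ
  b : ℤ
  d : ℤ
  e : ℤ
  f : ℤ
  g : ℤ

def ipow (z : ℤ) : ℕ → ℤ
  | 0 => 1
  | n + 1 => Int.mul z (ipow z n)

def npow (z : ℕ) : ℕ → ℕ
  | 0 => 1
  | n + 1 => Nat.mul z (npow z n)

def iev1 (y : ℤ) : List ℤ → ℤ
  | [] => 0
  | a :: l => Int.add a (Int.mul y (iev1 y l))

def iev2 (x y : ℤ) : List (List ℤ) → ℤ
  | [] => 0
  | r :: P => Int.add (iev1 y r) (Int.mul x (iev2 x y P))

def nm1 : List ℤ → ℕ
  | [] => 0
  | a :: l => Nat.add a.natAbs (nm1 l)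

def nm2 : List (List ℤ) → ℕ
  | [] => 0
  | r :: P => Nat.add (nm1 r) (nm2 P)

/-- degree of a list of coefficients -/
def dg1 : List ℤ → ℕ
  | [] => 0
  | _ :: l => match l with
    | [] => 0
    | _ :: _ => Nat.succ (dg1 l)

def dgy : List (List ℤ) → ℕ
  | [] => 0
  | r :: P => Nat.max (dg1 r) (dgy P)

def dgx : List (List ℤ) → ℕ
  | [] => 0
  | _ :: P => match P with
    | [] => 0
    | _ :: _ => Nat.succ (dgx P)

/-- evaluation at the integer point -/
def Ex.ev (X : IPt) : Ex → ℤ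
  | lit z => z
  | va i => match i with
    | 0 => X.a
    | 1 => X.b
    | 2 => 1
    | 3 => X.d
    | 4 => X.e
    | 5 => X.f
    | _ => X.g
  | add p q => Int.add (p.ev X) (q.ev X)
  | mul p q => Int.mul (p.ev X) (q.ev X)
  | sc z p => Int.mul z (p.ev X)
  | pow p n => ipow (p.ev X) n
  | bp P => iev2 X.f X.g P

/-- real value -/
noncomputable def Ex.re (x : Pnt) : Ex → ℝ
  | lit z => z
  | va i => match i with
    | 0 => x.a
    | 1 => x.b
    | 2 => x.c
    | 3 => x.d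
    | 4 => x.e
    | 5 => x.f
    | _ => x.g
  | add p q => p.re x + q.re x
  | mul p q => p.re x * q.re x
  | sc z p => z * p.re x
  | pow p n => p.re x ^ n
  | bp P => Pool.EK71.ev2 x.f x.g P

/-- norm bound -/
def Ex.nm : Ex → ℕ
  | lit z => z.natAbs
  | va _ => 1
  | add p q => Nat.add p.nm q.nm
  | mul p q => Nat.mul p.nm q.nm
  | sc z p => Nat.mul z.natAbs p.nm
  | pow p n => npow p.nm n
  | bp P => nm2 P

def Bd.max (B D : Bd) : Bd :=
  ⟨Nat.max B.a D.a, Nat.max B.b D.b, Nat.max B.d D.d, Nat.max B.e D.e, Nat.max B.f D.f,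
    Nat.max B.g D.g, B.w⟩

def Bd.smul (n : ℕ) (B : Bd) : Bd :=
  ⟨n * B.a, n * B.b, n * B.d, n * B.e, n * B.f, n * B.g, n * B.w⟩

/-- box of the exponents -/
def Ex.bd : Ex → Bd
  | lit _ => ⟨0, 0, 0, 0, 0, 0, 0⟩
  | va i => match i with
    | 0 => ⟨1, 0, 0, 0, 0, 0, 0⟩
    | 1 => ⟨0, 1, 0, 0, 0, 0, 1⟩
    | 2 => ⟨0, 0, 0, 0, 0, 0, 1⟩
    | 3 => ⟨0, 0, 1, 0, 0, 0, 2⟩
    | 4 => ⟨0, 0, 0, 1, 0, 0, 2⟩
    | 5 => ⟨0, 0, 0, 0, 1, 0, 0⟩
    | _ => ⟨0, 0, 0, 0, 0, 1, 0⟩
  | add p q => p.bd.max q.bd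
  | mul p q => p.bd.add q.bd
  | sc _ p => p.bd
  | pow p n => p.bd.smul n
  | bp P => ⟨0, 0, 0, 0, dgx P, dgy P, 0⟩

/-- homogeneity -/
def Ex.ok : Ex → Bool
  | lit _ => true
  | va _ => true
  | add p q => p.ok && q.ok && Nat.beq p.bd.w q.bd.w
  | mul p q => p.ok && q.ok
  | sc _ p => p.ok
  | pow p _ => p.ok
  | bp _ => true

/-- the integer point of the radices `r` and the base `w` -/
def Rad.pt (r : Rad) (w : ℤ) : IPt := ⟨w ^ r.ra, w ^ r.rb, w ^ r.rd, w ^ r.re, w, w ^ r.rg⟩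

lemma Bd.le_max_left (B D : Bd) : B.le (B.max D) :=
  ⟨Nat.le_max_left _ _, Nat.le_max_left _ _, Nat.le_max_left _ _, Nat.le_max_left _ _,
    Nat.le_max_left _ _, Nat.le_max_left _ _, rfl⟩

lemma Bd.le_max_right (B D : Bd) (h : B.w = D.w) : D.le (B.max D) :=
  ⟨Nat.le_max_right _ _, Nat.le_max_right _ _, Nat.le_max_right _ _, Nat.le_max_right _ _,
    Nat.le_max_right _ _, Nat.le_max_right _ _, h.symm⟩

lemma Rep.of_mon {w : ℤ} {r : Rad} {x : Pnt} {m : Mon} {N : Bd} (h : m.In N) {v : ℤ} {φ : ℝ}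
    (hv : v = w ^ m.code r) (hφ : φ = m.val x) : Rep w r x N 1 v φ := by
  have := Rep.mon (w := w) (r := r) (x := x) 1 h
  rw [hv, hφ]
  simpa using this

lemma Rep.b1 {w : ℤ} {r : Rad} {x : Pnt} (l : List ℤ) :
    Rep w r x ⟨0, 0, 0, 0, 0, dg1 l, 0⟩ (nm1 l) (iev1 (w ^ r.rg) l) (Pool.EK71.ev1 x.g l) := by
  induction l with
  | nil => exact Rep.zero _ _
  | cons a l ih =>
    have h0 : (⟨0, 0, 0, 0, 0, 0, 0⟩ : Mon).In ⟨0, 0, 0, 0, 0, dg1 (a :: l), 0⟩ := by
      simp [Mon.In]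
    have h1 := Rep.mon (w := w) (r := r) (x := x) a h0
    simp only [Mon.code, Mon.val, mul_zero, add_zero, pow_zero, mul_one] at h1
    cases l with
    | nil =>
      have h2 := h1.add (Rep.zero (w := w) (r := r) (x := x) ⟨0, 0, 0, 0, 0, dg1 [a], 0⟩ 0)
      have e1 : iev1 (w ^ r.rg) [a] = a + 0 := by simp [iev1]
      have e2 : Pool.EK71.ev1 x.g [a] = a + 0 := by simp [Pool.EK71.ev1]
      rw [e1, e2]
      exact h2
    | cons b l =>
      have h2 := Rep.of_mon (w := w) (r := r) (x := x) (m := ⟨0, 0, 0, 0, 0, 0, 1⟩)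
        (N := ⟨0, 0, 0, 0, 0, 1, 0⟩) (by simp [Mon.In]) (v := w ^ r.rg) (φ := x.g)
        (by simp [Mon.code]) (by simp [Mon.val])
      have h3 := h1.add ((h2.mul ih).le (N' := ⟨0, 0, 0, 0, 0, dg1 (a :: b :: l), 0⟩) (by
        refine ⟨by simp [Bd.add], by simp [Bd.add], by simp [Bd.add], by simp [Bd.add],
          by simp [Bd.add], ?_, by simp [Bd.add]⟩
        show 1 + dg1 (b :: l) ≤ Nat.succ (dg1 (b :: l))
        omega))
      rw [one_mul] at h3
      exact h3

lemma Rep.b2 {w : ℤ} {r : Rad} {x : Pnt} (P : List (List ℤ)) :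
    Rep w r x ⟨0, 0, 0, 0, dgx P, dgy P, 0⟩ (nm2 P) (iev2 w (w ^ r.rg) P)
      (Pool.EK71.ev2 x.f x.g P) := by
  induction P with
  | nil => exact Rep.zero _ _
  | cons a l ih =>
    have h1 := (Rep.b1 (w := w) (r := r) (x := x) a).le
      (N' := ⟨0, 0, 0, 0, dgx (a :: l), dgy (a :: l), 0⟩)
      ⟨le_rfl, le_rfl, le_rfl, le_rfl, Nat.zero_le _, Nat.le_max_left _ _, rfl⟩
    cases l with
    | nil =>
      have h2 := h1.add (Rep.zero (w := w) (r := r) (x := x) ⟨0, 0, 0, 0, dgx [a], dgy [a], 0⟩ 0)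
      have e1 : iev2 w (w ^ r.rg) [a] = iev1 (w ^ r.rg) a + 0 := by simp [iev2]
      have e2 : Pool.EK71.ev2 x.f x.g [a] = Pool.EK71.ev1 x.g a + 0 := by simp [Pool.EK71.ev2]
      rw [e1, e2]
      exact h2
    | cons b l =>
      have h2 := Rep.of_mon (w := w) (r := r) (x := x) (m := ⟨0, 0, 0, 0, 0, 1, 0⟩)
        (N := ⟨0, 0, 0, 0, 1, 0, 0⟩) (by simp [Mon.In]) (v := w) (φ := x.f)
        (by simp [Mon.code]) (by simp [Mon.val])
      have h3 := h1.add ((h2.mul ih).le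
        (N' := ⟨0, 0, 0, 0, dgx (a :: b :: l), dgy (a :: b :: l), 0⟩) (by
        refine ⟨by simp [Bd.add], by simp [Bd.add], by simp [Bd.add], by simp [Bd.add],
          ?_, ?_, by simp [Bd.add]⟩
        · show 1 + dgx (b :: l) ≤ Nat.succ (dgx (b :: l))
          omega
        · show 0 + dgy (b :: l) ≤ Nat.max (dg1 a) (dgy (b :: l))
          rw [Nat.zero_add]
          exact Nat.le_max_right _ _))
      rw [one_mul] at h3
      exact h3

lemma Ex.rep {w : ℤ} {r : Rad} {x : Pnt} (e : Ex) (h : e.ok = true) :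
    Rep w r x e.bd e.nm (e.ev (r.pt w)) (e.re x) := by
  induction e with
  | lit z =>
    have h1 : (⟨0, 0, 0, 0, 0, 0, 0⟩ : Mon).In ⟨0, 0, 0, 0, 0, 0, 0⟩ := by simp [Mon.In]
    have := Rep.mon (w := w) (r := r) (x := x) z h1
    simpa [Mon.code, Mon.val, Ex.ev, Ex.re, Ex.nm, Ex.bd] using this
  | va i =>
    match i with
    | 0 => exact Rep.of_mon (m := ⟨1, 0, 0, 0, 0, 0, 0⟩) (by simp [Mon.In, Ex.bd])
            (by simp [Ex.ev, Rad.pt, Mon.code]) (by simp [Ex.re, Mon.val])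
    | 1 => exact Rep.of_mon (m := ⟨0, 1, 0, 0, 0, 0, 0⟩) (by simp [Mon.In, Ex.bd])
            (by simp [Ex.ev, Rad.pt, Mon.code]) (by simp [Ex.re, Mon.val])
    | 2 => exact Rep.of_mon (m := ⟨0, 0, 1, 0, 0, 0, 0⟩) (by simp [Mon.In, Ex.bd])
            (by simp [Ex.ev, Mon.code]) (by simp [Ex.re, Mon.val])
    | 3 => exact Rep.of_mon (m := ⟨0, 0, 0, 1, 0, 0, 0⟩) (by simp [Mon.In, Ex.bd])
            (by simp [Ex.ev, Rad.pt, Mon.code]) (by simp [Ex.re, Mon.val])
    | 4 => exact Rep.of_mon (m := ⟨0, 0, 0, 0, 1, 0, 0⟩) (by simp [Mon.In, Ex.bd])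
            (by simp [Ex.ev, Rad.pt, Mon.code]) (by simp [Ex.re, Mon.val])
    | 5 => exact Rep.of_mon (m := ⟨0, 0, 0, 0, 0, 1, 0⟩) (by simp [Mon.In, Ex.bd])
            (by simp [Ex.ev, Rad.pt, Mon.code]) (by simp [Ex.re, Mon.val])
    | (k + 6) =>
      exact Rep.of_mon (m := ⟨0, 0, 0, 0, 0, 0, 1⟩) (by simp [Mon.In, Ex.bd])
        (by simp [Ex.ev, Rad.pt, Mon.code]) (by simp [Ex.re, Mon.val])
  | add p q ihp ihq =>
    simp only [Ex.ok, Bool.and_eq_true] at h
    obtain ⟨⟨h1, h2⟩, h3⟩ := h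
    have h3 := Nat.eq_of_beq_eq_true h3
    exact ((ihp h1).le (Bd.le_max_left _ _)).add ((ihq h2).le (Bd.le_max_right _ _ h3))
  | mul p q ihp ihq =>
    simp only [Ex.ok, Bool.and_eq_true] at h
    exact (ihp h.1).mul (ihq h.2)
  | sc z p ih =>
    simp only [Ex.ok] at h
    exact (ih h).smul z
  | pow p n ih =>
    simp only [Ex.ok] at h
    have ih := ih h
    show Rep w r x (p.bd.smul n) (npow p.nm n) (ipow (p.ev (r.pt w)) n) (p.re x ^ n)
    induction n with
    | zero =>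
      have h1 : (⟨0, 0, 0, 0, 0, 0, 0⟩ : Mon).In (p.bd.smul 0) := by simp [Mon.In, Bd.smul]
      have := Rep.of_mon (w := w) (r := r) (x := x) h1 (v := 1) (φ := 1) (by simp [Mon.code])
        (by simp [Mon.val])
      simpa [npow, ipow] using this
    | succ n ihn =>
      have h2 := ih.mul ihn
      have e1 : p.bd.add (p.bd.smul n) = p.bd.smul (n + 1) := by
        simp only [Bd.add, Bd.smul]
        congr 1 <;> ring
      rw [e1] at h2
      rw [pow_succ, mul_comm (p.re x ^ n)]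
      exact h2
  | bp P => exact Rep.b2 P

end Pool.Sos71

end

section

namespace Pool.Sos71
end Pool.Sos71

set_option autoImplicit false

open Complex MeasureTheory Metric Set

open scoped Real ComplexConjugate

namespace Pool.Agent.Helper69.EK3

open Pool.Sos71

/-- a list of `(c, i, j)`: the polynomial `∑ c S^i C^j` -/
abbrev AP := List (ℤ × ℕ × ℕ)

noncomputable def aev (S C : ℝ) : AP → ℝ
  | [] => 0
  | (c, i, j) :: g => (c : ℝ) * (S ^ i * C ^ j) + aev S C g

/-- the value at the angle `η` -/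
noncomputable def af (g : AP) (η : ℝ) : ℝ := aev (Real.sin (η / 2)) (Real.cos (η / 2)) g

/-- twice the derivative -/
def ader : AP → AP
  | [] => []
  | (c, i, j) :: g =>
    (match i with
      | 0 => []
      | i' + 1 => [(Int.mul c (Int.ofNat (i' + 1)), i', j + 1)]) ++
    (match j with
      | 0 => []
      | j' + 1 => [(Int.mul (-c) (Int.ofNat (j' + 1)), i + 1, j')]) ++ ader g

/-- multiplication by `S^a C^b` -/
def ash (a b : ℕ) : AP → AP
  | [] => []
  | (c, i, j) :: g => (c, i + a, j + b) :: ash a b g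

/-- the sum of the coefficients -/
def asum : AP → ℤ
  | [] => 0
  | (c, _, _) :: g => Int.add c (asum g)

/-- homogeneous of weight `w` -/
def ahom (w : ℕ) : AP → Bool
  | [] => true
  | (_, i, j) :: g => Nat.beq (i + j) w && ahom w g

theorem nbeq {a b : ℕ} (h : a = b) : Nat.beq a b = true := by
  subst h
  induction a with
  | zero => rfl
  | succ n ih => exact ih

theorem aev_ash (S C : ℝ) (a b : ℕ) (g : AP) : aev S C (ash a b g) = S ^ a * C ^ b * aev S C g := by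
  induction g with
  | nil => simp [aev, ash]
  | cons t g ih =>
    obtain ⟨c, i, j⟩ := t
    simp only [aev, ash, ih]
    ring

theorem imul_cast' (a b : ℤ) : ((Int.mul a b : ℤ) : ℝ) = a * b := by
  show (((a * b : ℤ)) : ℝ) = _
  push_cast
  ring

theorem iadd_cast' (a b : ℤ) : ((Int.add a b : ℤ) : ℝ) = a + b := by
  show (((a + b : ℤ)) : ℝ) = _
  push_cast
  ring

theorem ofNat_cast' (a : ℕ) : ((Int.ofNat a : ℤ) : ℝ) = a := by simp

theorem hasDerivAt_mon (i j : ℕ) (η : ℝ) :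
    HasDerivAt (fun η : ℝ => Real.sin (η / 2) ^ i * Real.cos (η / 2) ^ j)
      ((i * Real.sin (η / 2) ^ (i - 1) * Real.cos (η / 2) ^ (j + 1) -
        j * Real.sin (η / 2) ^ (i + 1) * Real.cos (η / 2) ^ (j - 1)) / 2) η := by
  have h0 : HasDerivAt (fun η : ℝ => η / 2) (1 / 2) η := (hasDerivAt_id η).div_const 2
  have h1 := (h0.sin).pow i
  have h2 := (h0.cos).pow j
  refine (h1.mul h2).congr_deriv ?_
  simp only [Pi.pow_apply]
  rw [pow_succ, pow_succ]
  ring

theorem af_hasDerivAt (g : AP) (η : ℝ) : HasDerivAt (af g) (af (ader g) η / 2) η := by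
  induction g with
  | nil =>
    have : af [] = fun _ => (0:ℝ) := by
      funext η
      simp [af, aev]
    rw [this]
    have e : af (ader []) η / 2 = 0 := by simp [ader, af, aev]
    rw [e]
    exact hasDerivAt_const _ _
  | cons t g ih =>
    obtain ⟨c, i, j⟩ := t
    have h1 := ((hasDerivAt_mon i j η).const_mul (c : ℝ)).add ih
    refine h1.congr_deriv ?_
    cases i with
    | zero =>
      cases j with
      | zero => simp [ader, af]
      | succ j =>
        simp only [ader, af, List.nil_append, List.cons_append, aev, imul_cast', ofNat_cast']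
        push_cast
        ring
    | succ i =>
      cases j with
      | zero =>
        simp only [ader, af, List.append_nil, List.cons_append, aev, imul_cast',
          ofNat_cast', List.nil_append]
        push_cast
        ring
      | succ j =>
        simp only [ader, af, List.cons_append, aev, imul_cast', ofNat_cast', List.nil_append]
        push_cast
        ring

theorem af_cont (g : AP) : Continuous (af g) :=
  continuous_iff_continuousAt.2 fun η => (af_hasDerivAt g η).continuousAt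

theorem aev_sum (S : ℝ) (w : ℕ) (g : AP) (h : ahom w g = true) :
    aev S S g = asum g * S ^ w := by
  induction g with
  | nil => simp [aev, asum]
  | cons t g ih =>
    obtain ⟨c, i, j⟩ := t
    simp only [ahom, Bool.and_eq_true] at h
    have h1 : i + j = w := Nat.eq_of_beq_eq_true h.1
    simp only [aev, asum, ih h.2, iadd_cast']
    rw [← pow_add, h1]
    ring

/-- the value at the centre line -/
theorem af_half {w : ℕ} {g : AP} (h : ahom w g = true) :
    af g (π / 2) = asum g * (Real.sqrt 2 / 2) ^ w := by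
  unfold af
  have e : π / 2 / 2 = π / 4 := by ring
  rw [e, Real.sin_pi_div_four, Real.cos_pi_div_four]
  exact aev_sum _ w g h

theorem af_half_even {w : ℕ} {g : AP} (h : ahom (2 * w) g = true) :
    af g (π / 2) = asum g / 2 ^ w := by
  rw [af_half h, pow_mul]
  have e : (Real.sqrt 2 / 2) ^ 2 = 1 / 2 := by
    rw [div_pow, Real.sq_sqrt (by norm_num)]
    norm_num
  rw [e, one_div, inv_pow]
  rfl

theorem ahom_ash {w : ℕ} (a b : ℕ) {g : AP} (h : ahom w g = true) :
    ahom (w + a + b) (ash a b g) = true := by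
  induction g with
  | nil => rfl
  | cons t g ih =>
    obtain ⟨c, i, j⟩ := t
    simp only [ahom, Bool.and_eq_true] at h
    have h1 : i + j = w := Nat.eq_of_beq_eq_true h.1
    simp only [ash, ahom, Bool.and_eq_true, ih h.2, and_true]
    exact nbeq (by omega)

theorem ahom_ader {w : ℕ} {g : AP} (h : ahom w g = true) : ahom w (ader g) = true := by
  induction g with
  | nil => rfl
  | cons t g ih =>
    obtain ⟨c, i, j⟩ := t
    simp only [ahom, Bool.and_eq_true] at h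
    have h1 : i + j = w := Nat.eq_of_beq_eq_true h.1
    have h2 := ih h.2
    cases i with
    | zero =>
      cases j with
      | zero => simpa only [ader, List.nil_append] using h2
      | succ j =>
        simp only [ader, List.nil_append, List.cons_append, ahom, Bool.and_eq_true, h2, and_true]
        exact nbeq (by omega)
    | succ i =>
      cases j with
      | zero =>
        simp only [ader, List.append_nil, List.cons_append, List.nil_append, ahom,
          Bool.and_eq_true, h2, and_true]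
        exact nbeq (by omega)
      | succ j =>
        simp only [ader, List.cons_append, List.nil_append, ahom, Bool.and_eq_true, h2, and_true]
        exact ⟨nbeq (by omega), nbeq (by omega)⟩

/-- monomial `c S^i C^j` -/
def moE (c : ℤ) (i j : ℕ) : Ex :=
  Ex.sc c (Ex.mul (Ex.pow (Ex.va 1) i) (Ex.pow (Ex.va 2) j))

def apE : AP → Ex
  | [] => Ex.lit 0
  | [(c, i, j)] => moE c i j
  | (c, i, j) :: t :: g => Ex.add (moE c i j) (apE (t :: g))

theorem moE_re (x : Pnt) (c : ℤ) (i j : ℕ) : (moE c i j).re x = c * (x.b ^ i * x.c ^ j) := rfl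

theorem apE_re (x : Pnt) (g : AP) : (apE g).re x = aev x.b x.c g := by
  induction g with
  | nil => simp [apE, aev, Ex.re]
  | cons t g ih =>
    obtain ⟨c, i, j⟩ := t
    cases g with
    | nil =>
      simp only [apE, aev, moE_re]
      ring
    | cons t' g =>
      have : (apE ((c, i, j) :: t' :: g)).re x = (moE c i j).re x + (apE (t' :: g)).re x := rfl
      rw [this, ih, moE_re]
      rfl

end Pool.Agent.Helper69.EK3

end

section

namespace Pool.Agent.Helper52.EK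
end Pool.Agent.Helper52.EK

set_option autoImplicit false

open Complex MeasureTheory Metric Set

open scoped Real ComplexConjugate

namespace Pool.Agent.Helper79.EK

open Pool.Agent.Helper52.EK

theorem norm_Gc (m : ℂ) : ‖Gc m‖ = ‖m‖ / max 1 (‖m‖ ^ 2) := by
  have h : (0:ℝ) < max 1 (‖m‖ ^ 2) := lt_of_lt_of_le one_pos (le_max_left _ _)
  unfold Gc
  rw [norm_div, Complex.norm_real, Real.norm_of_nonneg h.le]

theorem norm_Gc_le (m : ℂ) : ‖Gc m‖ ≤ 1 := by
  have h : (0:ℝ) < max 1 (‖m‖ ^ 2) := lt_of_lt_of_le one_pos (le_max_left _ _)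
  rw [norm_Gc, div_le_one h]
  rcases le_total ‖m‖ 1 with h1 | h1
  · exact h1.trans (le_max_left _ _)
  · exact le_trans (by nlinarith only [h1]) (le_max_right _ _)

theorem sq_norm_sub_div (m m' : ℂ) {p q : ℝ} (hp : 0 < p) (hq : 0 < q) :
    ‖m / (p : ℂ) - m' / (q : ℂ)‖ ^ 2 =
      ‖m‖ ^ 2 / p ^ 2 + ‖m'‖ ^ 2 / q ^ 2 - 2 * (m.re * m'.re + m.im * m'.im) / (p * q) := by
  rw [Complex.sq_norm, Complex.sq_norm, Complex.sq_norm, normSq_apply, normSq_apply, normSq_apply]
  simp only [sub_re, sub_im, div_ofReal_re, div_ofReal_im]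
  field_simp
  ring

theorem Gc_sub_le (m m' : ℂ) : ‖Gc m - Gc m'‖ ≤ ‖m - m'‖ := by
  have hp : (0:ℝ) < max 1 (‖m‖ ^ 2) := lt_of_lt_of_le one_pos (le_max_left _ _)
  have hq : (0:ℝ) < max 1 (‖m'‖ ^ 2) := lt_of_lt_of_le one_pos (le_max_left _ _)
  have h1 := sq_norm_sub_div m m' hp hq
  have h2 := sq_norm_sub_div m m' (p := 1) (q := 1) one_pos one_pos
  simp only [ofReal_one, div_one, one_pow, mul_one] at h2
  refine le_of_sq_le_sq ?_ (norm_nonneg _)
  unfold Gc
  rw [h1, h2]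
  have hA : 0 ≤ ‖m‖ ^ 2 := sq_nonneg _
  have hB : 0 ≤ ‖m'‖ ^ 2 := sq_nonneg _
  have hR : 0 ≤ ‖m‖ ^ 2 + ‖m'‖ ^ 2 - 2 * (m.re * m'.re + m.im * m'.im) := by
    rw [← h2]
    exact sq_nonneg _
  generalize ‖m‖ ^ 2 = A at *
  generalize ‖m'‖ ^ 2 = B at *
  generalize m.re * m'.re + m.im * m'.im = R at *
  rcases le_total A 1 with a1 | a1 <;> rcases le_total B 1 with b1 | b1
  · rw [max_eq_left a1, max_eq_left b1]
    simp
  · rw [max_eq_left a1, max_eq_right b1]
    have hB0 : 0 < B := by linarith only [b1]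
    have h3 : A / 1 ^ 2 + B / B ^ 2 - 2 * R / (1 * B) = A + (1 - 2 * R) / B := by
      field_simp
      ring
    rw [h3]
    have h4 : (1 - 2 * R) / B ≤ B - 2 * R := by
      rw [div_le_iff₀ hB0]
      (clear * - hR b1 a1; nlinarith only [hR, a1, b1])
    linarith only [h4]
  · rw [max_eq_right a1, max_eq_left b1]
    have hA0 : 0 < A := by linarith only [a1]
    have h3 : A / A ^ 2 + B / 1 ^ 2 - 2 * R / (A * 1) = B + (1 - 2 * R) / A := by
      field_simp
      ring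
    rw [h3]
    have h4 : (1 - 2 * R) / A ≤ A - 2 * R := by
      rw [div_le_iff₀ hA0]
      (clear * - hR a1 b1; nlinarith only [hR, a1, b1])
    (clear * - h4; linarith only [h4])
  · rw [max_eq_right a1, max_eq_right b1]
    have hA0 : 0 < A := by linarith only [a1]
    have hB0 : 0 < B := by (clear * - b1; linarith only [b1])
    have h3 : A / A ^ 2 + B / B ^ 2 - 2 * R / (A * B) = (A + B - 2 * R) / (A * B) := by
      field_simp
      ring
    rw [h3]
    refine div_le_self hR ?_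
    (clear * - a1 b1; nlinarith only [a1, b1])

end Pool.Agent.Helper79.EK

end

section

namespace Pool.Agent.Helper52.EK
end Pool.Agent.Helper52.EK
namespace Pool.Agent.Helper79.EK
end Pool.Agent.Helper79.EK

set_option autoImplicit false

open Complex MeasureTheory Metric Set

open scoped Real ComplexConjugate

namespace Pool.Agent.Helper68.EKC

open Pool.Agent.Helper52.EK Pool.Agent.Helper79.EK

/-- the field function for the direction `u` -/
noncomputable def Gu (u m : ℂ) : ℂ := Gc (conj u * (m + 1) - 1)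

theorem Gc_far {p q : ℂ} (hp : 1 ≤ ‖p‖) (hq : 1 ≤ ‖q‖) :
    ‖Gc p - Gc q‖ ≤ ‖p - q‖ / (‖p‖ * ‖q‖) := by
  have hp0 : 0 < ‖p‖ := by (clear * - hp; linarith only [hp])
  have hq0 : 0 < ‖q‖ := by (clear * - hq; linarith)
  have hp2 : (0:ℝ) < ‖p‖ ^ 2 := by positivity
  have hq2 : (0:ℝ) < ‖q‖ ^ 2 := by positivity
  have h1 := sq_norm_sub_div p q hp2 hq2
  have h2 := sq_norm_sub_div p q (p := 1) (q := 1) one_pos one_pos
  simp only [ofReal_one, div_one, one_pow, mul_one] at h2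
  have hG : Gc p - Gc q = p / ((‖p‖ ^ 2 : ℝ) : ℂ) - q / ((‖q‖ ^ 2 : ℝ) : ℂ) := by
    unfold Gc
    rw [max_eq_right (by nlinarith only [hp]), max_eq_right (by (clear * - hq; nlinarith only [hq]))]
  refine le_of_sq_le_sq ?_ (by (clear * - hp hq; positivity))
  rw [hG, h1, div_pow, h2]
  apply le_of_eq
  field_simp
  ring

theorem Gu_lip {u : ℂ} (hu : ‖u‖ = 1) : GLip (Gu u) 4 where
  le_one := fun m => norm_Gc_le _
  lip := fun m m' => by
    refine (Gc_sub_le _ _).trans ?_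
    have e : conj u * (m + 1) - 1 - (conj u * (m' + 1) - 1) = conj u * (m - m') := by ring
    rw [e, norm_mul, RCLike.norm_conj, hu, one_mul]
    have := norm_nonneg (m - m')
    (clear * - this; linarith only [this])
  rot := fun v m hv => by
    set p : ℂ := conj u * (v * m + 1) - 1 with hp
    set q : ℂ := conj u * (m + 1) - 1 with hq
    have hpq : ‖p - q‖ = ‖m‖ * ‖v - 1‖ := by
      have e : p - q = conj u * (m * (v - 1)) := by rw [hp, hq]; ring
      rw [e, norm_mul, RCLike.norm_conj, hu, one_mul, norm_mul]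
    have hv0 := norm_nonneg (v - 1)
    have hm0 := norm_nonneg m
    show ‖Gc p - Gc q‖ ≤ 4 * ‖v - 1‖
    rcases le_or_gt ‖m‖ 4 with hm | hm
    · refine (Gc_sub_le _ _).trans ?_
      rw [hpq]
      exact mul_le_mul_of_nonneg_right hm hv0
    · have hlow : ∀ w : ℂ, ‖w‖ = ‖m‖ → ‖m‖ / 2 ≤ ‖conj u * (w + 1) - 1‖ := by
        intro w hw
        have h1 : ‖conj u * w‖ = ‖m‖ := by rw [norm_mul, RCLike.norm_conj, hu, one_mul, hw]
        have h2 : ‖(1 : ℂ) - conj u‖ ≤ 2 := by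
          refine (norm_sub_le _ _).trans ?_
          rw [norm_one, RCLike.norm_conj, hu]
          norm_num
        have h3 : conj u * (w + 1) - 1 = conj u * w - (1 - conj u) := by ring
        have h4 := norm_sub_norm_le (conj u * w) (1 - conj u)
        rw [h3]
        (clear * - hm h1 h2 h4; linarith only [hm, h1, h2, h4])
      have hp1 : ‖m‖ / 2 ≤ ‖p‖ := hlow (v * m) (by rw [norm_mul, hv, one_mul])
      have hq1 : ‖m‖ / 2 ≤ ‖q‖ := hlow m rfl
      refine (Gc_far (by (clear * - hm hp1; linarith only [hm, hp1])) (by linarith only [hm, hq1])).trans ?_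
      rw [hpq, div_le_iff₀ (by (clear * - hm hp1 hq1; nlinarith only [hm, hp1, hq1]))]
      have h5 : ‖m‖ / 2 * (‖m‖ / 2) ≤ ‖p‖ * ‖q‖ :=
        mul_le_mul hp1 hq1 (by (clear * - hm; linarith only [hm])) (by linarith only [hm, hp1])
      have h6 : ‖m‖ ≤ 4 * (‖p‖ * ‖q‖) := by (clear * - hm h5; nlinarith only [hm, h5])
      calc ‖m‖ * ‖v - 1‖ ≤ (4 * (‖p‖ * ‖q‖)) * ‖v - 1‖ := mul_le_mul_of_nonneg_right h6 hv0
        _ = 4 * ‖v - 1‖ * (‖p‖ * ‖q‖) := by ring

end Pool.Agent.Helper68.EKC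

end

section

set_option autoImplicit false

open Complex MeasureTheory Metric Set

open scoped Real ComplexConjugate

namespace Pool.Agent.Helper52.EK

noncomputable def uu (ρ : ℝ → ℝ) (t θ : ℝ) : ℝ :=
  (2 * π)⁻¹ * ∫ α in (0:ℝ)..(2 * π), Pk (Complex.exp (α * I)) (ep t θ) * ρ α

noncomputable def AA (ρ : ℝ → ℝ) (t : ℝ) : ℝ :=
  (2 * π)⁻¹ * ∫ θ in (-π)..π, uu ρ t θ * Real.log (uu ρ t θ)

/-- a probability density on the circle -/
structure Dens (ρ : ℝ → ℝ) : Prop where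
  cont : Continuous ρ
  pos : ∀ α, 0 < ρ α
  per : Function.Periodic ρ (2 * π)
  one : ∫ α in (0:ℝ)..(2 * π), ρ α = 2 * π

noncomputable def ut (ρ : ℝ → ℝ) (t θ : ℝ) : ℝ := deriv (fun t' => uu ρ t' θ) t

noncomputable def uth (ρ : ℝ → ℝ) (t θ : ℝ) : ℝ := deriv (fun θ' => uu ρ t θ') θ

noncomputable def A1 (ρ : ℝ → ℝ) (t : ℝ) : ℝ :=
  (2 * π)⁻¹ * ∫ θ in (-π)..π, (1 + Real.log (uu ρ t θ)) * ut ρ t θ

noncomputable def A2 (ρ : ℝ → ℝ) (t : ℝ) : ℝ :=
  (2 * π)⁻¹ * ∫ θ in (-π)..π, (ut ρ t θ ^ 2 + uth ρ t θ ^ 2) / uu ρ t θ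

/-- the double average of the loss at height t -/
noncomputable def kk (ρ : ℝ → ℝ) (w : ℂ → ℂ) (t : ℝ) : ℝ :=
  (2 * π)⁻¹ * ∫ θ in (-π)..π, (2 * π)⁻¹ * ∫ α in (0:ℝ)..(2 * π),
    ρ α * (Pk (Complex.exp (α * I)) (ep t θ) *
      ‖ee (Complex.exp (α * I)) (ep t θ) - w (ep t θ)‖ ^ 2 / Real.sinh t ^ 2)

end Pool.Agent.Helper52.EK

end

section

namespace Pool.Agent.Helper52.EK
end Pool.Agent.Helper52.EK

set_option autoImplicit false

open Complex MeasureTheory Metric Set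

open scoped Real ComplexConjugate

namespace Pool.Agent.Helper73.EK

open Pool.Agent.Helper52.EK

theorem norm_cis (α : ℝ) : ‖Complex.exp (α * I)‖ = 1 := Complex.norm_exp_ofReal_mul_I α

theorem ep_eq (t θ : ℝ) : ep t θ = (Real.exp t : ℂ) * Complex.exp (θ * I) := by
  unfold ep
  rw [Complex.exp_add, Complex.ofReal_exp]

theorem norm_ep (t θ : ℝ) : ‖ep t θ‖ = Real.exp t := by
  rw [ep_eq, norm_mul, norm_cis, mul_one, Complex.norm_real, Real.norm_eq_abs,
    abs_of_pos (Real.exp_pos t)]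

theorem norm_ep_lt {t : ℝ} (ht : t < 0) (θ : ℝ) : ‖ep t θ‖ < 1 := by
  rw [norm_ep]
  rw [← Real.exp_zero]
  exact Real.exp_lt_exp.2 ht

theorem Pk_pos {ζ z : ℂ} (hζ : ‖ζ‖ = 1) (hz : ‖z‖ < 1) : 0 < Pk ζ z := by
  unfold Pk
  have h1 : ζ - z ≠ 0 := by
    intro h
    rw [sub_eq_zero] at h
    rw [← h, hζ] at hz
    exact lt_irrefl _ hz
  have h2 : 0 < ‖ζ - z‖ := norm_pos_iff.2 h1
  have h3 : ‖z‖ ^ 2 < 1 := by
    have := norm_nonneg z
    nlinarith only [hz, this]
  exact div_pos (by (clear * - h3; linarith)) (by positivity)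

theorem sub_ne_zero_of {ζ z : ℂ} (hζ : ‖ζ‖ = 1) (hz : ‖z‖ < 1) : ζ - z ≠ 0 := by
  intro h
  rw [sub_eq_zero] at h
  rw [← h, hζ] at hz
  exact lt_irrefl _ hz

/-- The mean of the Poisson kernel over the boundary points. -/
theorem integral_Pk {z : ℂ} (hz : ‖z‖ < 1) :
    ∫ α in (0:ℝ)..(2 * π), Pk (Complex.exp (α * I)) z = 2 * π := by
  have hf : DiffContOnCl ℂ (fun _ : ℂ => (1:ℂ)) (ball 0 1) := diffContOnCl_const
  have h1 := hf.circleAverage_poissonKernel_smul (w := z) (by simpa using hz)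
  have h2 : ∀ θ : ℝ, (poissonKernel 0 z • fun _ : ℂ => (1:ℂ)) (circleMap 0 1 θ) =
      ((Pk (Complex.exp (θ * I)) z : ℝ) : ℂ) := by
    intro θ
    have h3 : circleMap 0 1 θ = Complex.exp (θ * I) := by simp [circleMap]
    rw [h3]
    simp only [Pi.smul_apply', poissonKernel, Pk, sub_zero, norm_cis, one_pow]
    simp
  rw [Real.circleAverage_def] at h1
  simp_rw [h2] at h1
  rw [intervalIntegral.integral_ofReal] at h1
  have h4 : ((2 * π)⁻¹ * ∫ α in (0:ℝ)..(2 * π), Pk (Complex.exp (α * I)) z : ℝ) = 1 := by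
    have h5 := congrArg Complex.re h1
    simpa using h5
  have hpi : (0:ℝ) < 2 * π := by positivity
  field_simp at h4
  exact h4

theorem norm_symm (t α θ : ℝ) : ‖Complex.exp (α * I) - ep t θ‖ = ‖Complex.exp (θ * I) - ep t α‖ := by
  have h1 : Complex.exp (α * I) - ep t θ =
      (Complex.exp (α * I) * Complex.exp (θ * I)) * conj (Complex.exp (θ * I) - ep t α) := by
    have e1 : ∀ β : ℝ, conj (Complex.exp (β * I)) = (Complex.exp (β * I))⁻¹ := by
      intro β
      rw [← Complex.exp_conj, ← Complex.exp_neg]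
      congr 1
      simp
    rw [ep_eq, ep_eq, map_sub, map_mul, e1, e1, Complex.conj_ofReal]
    have n1 := Complex.exp_ne_zero (α * I)
    have n2 := Complex.exp_ne_zero (θ * I)
    (clear * - n1; field_simp)
  rw [h1, norm_mul, norm_mul, norm_cis, norm_cis, one_mul, one_mul, Complex.norm_conj]

/-- The symmetry of the Poisson kernel. -/
theorem Pk_symm (t α θ : ℝ) :
    Pk (Complex.exp (α * I)) (ep t θ) = Pk (Complex.exp (θ * I)) (ep t α) := by
  unfold Pk
  rw [norm_symm, norm_ep, norm_ep]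

/-- The Poisson kernel is continuous. -/
theorem continuous_Pk {t : ℝ} (ht : t < 0) :
    Continuous fun p : ℝ × ℝ => Pk (Complex.exp (p.1 * I)) (ep t p.2) := by
  unfold Pk
  have h1 : Continuous fun p : ℝ × ℝ => ep t p.2 := by
    unfold ep
    fun_prop
  refine Continuous.div (by fun_prop) (by fun_prop) fun p => ?_
  have h2 := sub_ne_zero_of (norm_cis p.1) (norm_ep_lt ht p.2)
  (clear * - h2; positivity)

theorem Pk_per (ζ : ℂ) (t : ℝ) : Function.Periodic (fun θ : ℝ => Pk ζ (ep t θ)) (2 * π) := by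
  intro θ
  have h1 : ep t (θ + 2 * π) = ep t θ := by
    unfold ep
    push_cast
    rw [add_mul, ← add_assoc]
    exact Complex.exp_periodic _
  simp only [h1]

/-- The mean of the Poisson kernel over the circle of radius `e^t`. -/
theorem integral_Pk' {t : ℝ} (ht : t < 0) (α : ℝ) :
    ∫ θ in (-π)..π, Pk (Complex.exp (α * I)) (ep t θ) = 2 * π := by
  have h1 := (Pk_per (Complex.exp (α * I)) t).intervalIntegral_add_eq (-π) 0
  rw [show -π + 2 * π = π by ring, zero_add] at h1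
  rw [h1]
  refine Eq.trans ?_ (integral_Pk (norm_ep_lt ht α))
  exact intervalIntegral.integral_congr fun θ _ => Pk_symm t α θ

end Pool.Agent.Helper73.EK

end

section

namespace Pool.Agent.Helper52.EK
end Pool.Agent.Helper52.EK
namespace Pool.Agent.Helper73.EK
end Pool.Agent.Helper73.EK

set_option autoImplicit false

open Complex MeasureTheory Metric Set

open scoped Real ComplexConjugate

namespace Pool.Agent.Helper5.EK

open Pool.Agent.Helper52.EK Pool.Agent.Helper73.EK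

/-- exchange of two interval integrals of a continuous function -/
theorem swap2 {F : ℝ → ℝ → ℝ} (hF : Continuous (Function.uncurry F)) (a b c d : ℝ) :
    ∫ x in a..b, ∫ y in c..d, F x y = ∫ y in c..d, ∫ x in a..b, F x y := by
  refine MeasureTheory.intervalIntegral_intervalIntegral_swap ?_
  have h1 : IntegrableOn (Function.uncurry F) (uIcc a b ×ˢ uIcc c d) :=
    hF.continuousOn.integrableOn_compact (isCompact_uIcc.prod isCompact_uIcc)
  exact h1.mono_set (prod_mono uIoc_subset_uIcc uIoc_subset_uIcc)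

/-- exchange of three interval integrals of a continuous function -/
theorem swap3 {F : ℝ → ℝ → ℝ → ℝ}
    (hF : Continuous fun p : ℝ × ℝ × ℝ => F p.1 p.2.1 p.2.2) (a b c d e f : ℝ) :
    ∫ t in a..b, ∫ θ in c..d, ∫ α in e..f, F t θ α =
      ∫ α in e..f, ∫ t in a..b, ∫ θ in c..d, F t θ α := by
  have h1 : ∀ t : ℝ, ∫ θ in c..d, ∫ α in e..f, F t θ α = ∫ α in e..f, ∫ θ in c..d, F t θ α := by
    intro t
    apply swap2
    exact hF.comp (by fun_prop : Continuous fun q : ℝ × ℝ => (t, q.1, q.2))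
  simp_rw [h1]
  apply swap2
  have h2 : Continuous (Function.uncurry fun (q : ℝ × ℝ) (θ : ℝ) => F q.1 θ q.2) :=
    hF.comp (by fun_prop : Continuous fun q : (ℝ × ℝ) × ℝ => (q.1.1, q.2, q.1.2))
  exact intervalIntegral.continuous_parametric_intervalIntegral_of_continuous' h2 c d

theorem cont_inner {F : ℝ → ℝ → ℝ → ℝ}
    (hF : Continuous fun p : ℝ × ℝ × ℝ => F p.1 p.2.1 p.2.2) (c d e f : ℝ) :
    Continuous fun t : ℝ => ∫ θ in c..d, ∫ α in e..f, F t θ α := by
  have h2 : Continuous (Function.uncurry fun (q : ℝ × ℝ) (α : ℝ) => F q.1 q.2 α) :=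
    hF.comp (by fun_prop : Continuous fun q : (ℝ × ℝ) × ℝ => (q.1.1, q.1.2, q.2))
  have h3 := intervalIntegral.continuous_parametric_intervalIntegral_of_continuous' (μ := volume)
    h2 e f
  have h4 : Continuous (Function.uncurry fun (t : ℝ) (θ : ℝ) => ∫ α in e..f, F t θ α) := h3
  exact intervalIntegral.continuous_parametric_intervalIntegral_of_continuous' h4 c d

/-- the integrand, with the height cut at `t₂` -/
noncomputable def Hc (ρ : ℝ → ℝ) (w : ℂ → ℂ) (t₂ t θ α : ℝ) : ℝ :=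
  ρ α * (Pk (Complex.exp (α * I)) (ep (min t t₂) θ) *
    ‖ee (Complex.exp (α * I)) (ep (min t t₂) θ) - w (ep (min t t₂) θ)‖ ^ 2 /
      Real.sinh (min t t₂) ^ 2)

theorem Hc_cont {ρ : ℝ → ℝ} (hρ : Continuous ρ) {w : ℂ → ℂ}
    (hw : ContinuousOn w {z | 0 < ‖z‖ ∧ ‖z‖ < 1}) {t₂ : ℝ} (h2 : t₂ < 0) :
    Continuous fun p : ℝ × ℝ × ℝ => Hc ρ w t₂ p.1 p.2.1 p.2.2 := by
  have hm : ∀ t : ℝ, min t t₂ < 0 := fun t => lt_of_le_of_lt (min_le_right _ _) h2
  have he : Continuous fun p : ℝ × ℝ × ℝ => ep (min p.1 t₂) p.2.1 := by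
    unfold ep
    fun_prop
  have hwc : Continuous fun p : ℝ × ℝ × ℝ => w (ep (min p.1 t₂) p.2.1) := by
    refine hw.comp_continuous he fun p => ⟨?_, norm_ep_lt (hm _) _⟩
    rw [norm_ep]
    exact Real.exp_pos _
  have hne : ∀ p : ℝ × ℝ × ℝ, Complex.exp (p.2.2 * I) - ep (min p.1 t₂) p.2.1 ≠ 0 := fun p =>
    sub_ne_zero_of (norm_cis _) (norm_ep_lt (hm _) _)
  have hs : ∀ p : ℝ × ℝ × ℝ, Real.sinh (min p.1 t₂) ^ 2 ≠ 0 := fun p =>
    pow_ne_zero _ (Real.sinh_neg_iff.2 (hm _)).ne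
  have hp : Continuous fun p : ℝ × ℝ × ℝ => Pk (Complex.exp (p.2.2 * I)) (ep (min p.1 t₂) p.2.1) := by
    unfold Pk
    refine Continuous.div (by fun_prop) (by fun_prop) fun p => ?_
    have := hne p
    positivity
  have hee : Continuous fun p : ℝ × ℝ × ℝ => ee (Complex.exp (p.2.2 * I)) (ep (min p.1 t₂) p.2.1) := by
    unfold ee
    refine Continuous.div ?_ (by fun_prop) hne
    have h3 : Continuous fun p : ℝ × ℝ × ℝ => conj (ep (min p.1 t₂) p.2.1) :=
      Complex.continuous_conj.comp he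
    fun_prop
  unfold Hc
  refine Continuous.mul (by fun_prop) ?_
  refine Continuous.div ?_ (by fun_prop) hs
  exact hp.mul ((hee.sub hwc).norm.pow 2)

theorem kk_eq {ρ : ℝ → ℝ} {w : ℂ → ℂ} {t₂ t : ℝ} (ht : t ≤ t₂) :
    kk ρ w t = (2 * π)⁻¹ * ((2 * π)⁻¹ * ∫ θ in (-π)..π, ∫ α in (0:ℝ)..(2 * π), Hc ρ w t₂ t θ α) := by
  unfold kk Hc
  rw [min_eq_left ht, intervalIntegral.integral_const_mul]

theorem kk_intervalIntegrable {ρ : ℝ → ℝ} (hρ : Continuous ρ) {w : ℂ → ℂ}
    (hw : ContinuousOn w {z | 0 < ‖z‖ ∧ ‖z‖ < 1}) {t₂ : ℝ} (h2 : t₂ < 0) {t₀ : ℝ} (h0 : t₀ ≤ t₂) :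
    IntervalIntegrable (fun t => (t₂ - t) * kk ρ w t) volume t₀ t₂ := by
  have h1 : ContinuousOn (fun t => (t₂ - t) * kk ρ w t) (uIcc t₀ t₂) := by
    have h3 : Continuous fun t : ℝ => (t₂ - t) * ((2 * π)⁻¹ * ((2 * π)⁻¹ *
        ∫ θ in (-π)..π, ∫ α in (0:ℝ)..(2 * π), Hc ρ w t₂ t θ α)) := by
      have := cont_inner (Hc_cont hρ hw h2) (-π) π 0 (2 * π)
      fun_prop
    refine h3.continuousOn.congr fun t ht => ?_
    rw [uIcc_of_le h0] at ht
    show (t₂ - t) * kk ρ w t = _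
    rw [kk_eq ht.2]
  exact h1.intervalIntegrable

theorem fub {ρ : ℝ → ℝ} (hρ : Continuous ρ) {w : ℂ → ℂ}
    (hw : ContinuousOn w {z | 0 < ‖z‖ ∧ ‖z‖ < 1}) {t₂ : ℝ} (h2 : t₂ < 0) {t₀ : ℝ} (h0 : t₀ ≤ t₂) :
    ∫ t in t₀..t₂, (t₂ - t) * kk ρ w t =
      (2 * π)⁻¹ * ∫ α in (0:ℝ)..(2 * π), ρ α * Kf w (Complex.exp (α * I)) t₀ t₂ := by
  have hH := Hc_cont hρ hw h2
  have e1 : ∫ t in t₀..t₂, (t₂ - t) * kk ρ w t =
      ∫ t in t₀..t₂, (2 * π)⁻¹ * ((2 * π)⁻¹ * ∫ θ in (-π)..π, ∫ α in (0:ℝ)..(2 * π),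
        (t₂ - t) * Hc ρ w t₂ t θ α) := by
    refine intervalIntegral.integral_congr fun t ht => ?_
    rw [uIcc_of_le h0] at ht
    show (t₂ - t) * kk ρ w t = _
    rw [kk_eq ht.2]
    simp_rw [intervalIntegral.integral_const_mul]
    ring
  have e2 : ∀ α : ℝ, ρ α * Kf w (Complex.exp (α * I)) t₀ t₂ =
      (2 * π)⁻¹ * ∫ t in t₀..t₂, ∫ θ in (-π)..π, (t₂ - t) * Hc ρ w t₂ t θ α := by
    intro α
    unfold Kf
    have e3 : ∫ t in t₀..t₂, ∫ θ in (-π)..π, (t₂ - t) * Hc ρ w t₂ t θ α =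
        ∫ t in t₀..t₂, ρ α * ∫ θ in (-π)..π, (t₂ - t) * Pk (Complex.exp (α * I)) (ep t θ) *
          ‖ee (Complex.exp (α * I)) (ep t θ) - w (ep t θ)‖ ^ 2 / Real.sinh t ^ 2 := by
      refine intervalIntegral.integral_congr fun t ht => ?_
      rw [uIcc_of_le h0] at ht
      show ∫ θ in (-π)..π, (t₂ - t) * Hc ρ w t₂ t θ α = _
      rw [← intervalIntegral.integral_const_mul]
      refine intervalIntegral.integral_congr fun θ _ => ?_
      show (t₂ - t) * Hc ρ w t₂ t θ α = _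
      unfold Hc
      rw [min_eq_left ht.2]
      ring
    rw [e3, intervalIntegral.integral_const_mul]
    ring
  rw [e1, intervalIntegral.integral_const_mul, intervalIntegral.integral_const_mul]
  simp_rw [e2]
  rw [intervalIntegral.integral_const_mul]
  rw [swap3 (F := fun t θ α => (t₂ - t) * Hc ρ w t₂ t θ α)]
  fun_prop

/-- the antiderivative -/
theorem int_sinh {t₂ : ℝ} (h1 : -1 ≤ t₂) (h2 : t₂ < 0) :
    ∫ t in (-1)..t₂, (t₂ - t) * (1 / Real.sinh t ^ 2) =
      -Real.log (Real.sinh (-t₂)) - (t₂ + 1) * (Real.cosh 1 / Real.sinh 1) +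
        Real.log (Real.sinh 1) := by
  have hd : ∀ t ∈ uIcc (-1) t₂, HasDerivAt (fun t => -((t₂ - t) * (Real.cosh t / Real.sinh t)) -
      Real.log (Real.sinh t)) ((t₂ - t) * (1 / Real.sinh t ^ 2)) t := by
    intro t ht
    rw [uIcc_of_le h1] at ht
    have hs : Real.sinh t ≠ 0 := (Real.sinh_neg_iff.2 (lt_of_le_of_lt ht.2 h2)).ne
    have d1 : HasDerivAt (fun t => t₂ - t) (-1) t := by
      simpa using (hasDerivAt_id t).const_sub t₂
    have d2 : HasDerivAt (fun t => Real.cosh t / Real.sinh t)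
        ((Real.sinh t * Real.sinh t - Real.cosh t * Real.cosh t) / Real.sinh t ^ 2) t :=
      (Real.hasDerivAt_cosh t).div (Real.hasDerivAt_sinh t) hs
    have d3 : HasDerivAt (fun t => Real.log (Real.sinh t)) (Real.cosh t / Real.sinh t) t :=
      (Real.hasDerivAt_sinh t).log hs
    have d4 := ((d1.mul d2).neg).sub d3
    refine d4.congr_deriv ?_
    have hcs : Real.cosh t ^ 2 = Real.sinh t ^ 2 + 1 := Real.cosh_sq t
    field_simp
    rw [hcs]
    ring
  have hc : IntervalIntegrable (fun t => (t₂ - t) * (1 / Real.sinh t ^ 2)) volume (-1) t₂ := by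
    apply ContinuousOn.intervalIntegrable
    intro t ht
    rw [uIcc_of_le h1] at ht
    have hs : Real.sinh t ≠ 0 := (Real.sinh_neg_iff.2 (lt_of_le_of_lt ht.2 h2)).ne
    have hs2 : Real.sinh t ^ 2 ≠ 0 := pow_ne_zero _ hs
    apply ContinuousAt.continuousWithinAt
    exact (by fun_prop : ContinuousAt (fun t => t₂ - t) t).mul
      (ContinuousAt.div (by fun_prop) (Real.continuous_sinh.continuousAt.pow 2) hs2)
  rw [intervalIntegral.integral_eq_sub_of_hasDerivAt hd hc]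
  rw [Real.sinh_neg, Real.cosh_neg, Real.sinh_neg, Real.log_neg_eq_log, Real.log_neg_eq_log]
  have hs1 : Real.sinh 1 ≠ 0 := (Real.sinh_pos_iff.2 one_pos).ne'
  field_simp
  ring

theorem sinh_neg_log {a : ℝ} (h0 : 0 < a) : Real.sinh (-Real.log a) = (1 - a ^ 2) / (2 * a) := by
  rw [Real.sinh_neg, Real.sinh_eq, Real.exp_neg, Real.exp_log h0]
  field_simp
  ring

theorem int_ge {a : ℝ} (ha : Real.exp (-1) < a) (ha1 : a < 1) :
    -Real.log (1 - a ^ 2) - (1 + Real.cosh 1 / Real.sinh 1 + |Real.log (Real.sinh 1)|) ≤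
      ∫ t in (-1)..(Real.log a), (Real.log a - t) * (1 / Real.sinh t ^ 2) := by
  have h0 : 0 < a := lt_trans (Real.exp_pos _) ha
  have hl1 : -1 < Real.log a := by
    rw [Real.lt_log_iff_exp_lt h0]
    exact ha
  have hl2 : Real.log a < 0 := Real.log_neg h0 ha1
  rw [int_sinh hl1.le hl2, sinh_neg_log h0]
  have h3 : 0 < 1 - a ^ 2 := by nlinarith only [ha1, h0]
  rw [Real.log_div h3.ne' (by (clear * - h0; positivity)), Real.log_mul (by norm_num) h0.ne']
  have h4 : 0 ≤ Real.log 2 := Real.log_nonneg (by norm_num)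
  have h5 : 0 < Real.cosh 1 / Real.sinh 1 :=
    div_pos (Real.cosh_pos 1) (Real.sinh_pos_iff.2 one_pos)
  have h6 : -|Real.log (Real.sinh 1)| ≤ Real.log (Real.sinh 1) := neg_abs_le _
  have h7 : (Real.log a + 1) * (Real.cosh 1 / Real.sinh 1) ≤ 1 * (Real.cosh 1 / Real.sinh 1) :=
    mul_le_mul_of_nonneg_right (by (clear * - hl2; linarith)) h5.le
  (clear * - hl1 h4 h6 h7; linarith)

end Pool.Agent.Helper5.EK

end

section

namespace Pool.Agent.Helper52.EK
end Pool.Agent.Helper52.EK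
namespace Pool.Agent.Helper73.EK
end Pool.Agent.Helper73.EK

set_option autoImplicit false

open Complex MeasureTheory Metric Set

open scoped Real ComplexConjugate

namespace Pool.Agent.Helper5.EK

open Pool.Agent.Helper52.EK Pool.Agent.Helper73.EK

/-- Taylor's formula of order two with the integral remainder -/
theorem taylor2 {f f1 f2 : ℝ → ℝ} {t₀ t₂ : ℝ} (h0 : t₀ ≤ t₂) (h2 : t₂ < 0)
    (hf : ∀ t : ℝ, t < 0 → HasDerivAt f (f1 t) t ∧ HasDerivAt f1 (f2 t) t ∧ ContinuousAt f2 t) :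
    ∫ t in t₀..t₂, (t₂ - t) * f2 t = f t₂ - f t₀ - (t₂ - t₀) * f1 t₀ := by
  have hd : ∀ t ∈ uIcc t₀ t₂, HasDerivAt (fun t => f t + (t₂ - t) * f1 t) ((t₂ - t) * f2 t) t := by
    intro t ht
    rw [uIcc_of_le h0] at ht
    obtain ⟨a1, a2, -⟩ := hf t (lt_of_le_of_lt ht.2 h2)
    have d1 : HasDerivAt (fun t => t₂ - t) (-1) t := by
      simpa using (hasDerivAt_id t).const_sub t₂
    refine (a1.add (d1.mul a2)).congr_deriv ?_
    ring
  have hc : IntervalIntegrable (fun t => (t₂ - t) * f2 t) volume t₀ t₂ := by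
    apply ContinuousOn.intervalIntegrable
    intro t ht
    rw [uIcc_of_le h0] at ht
    obtain ⟨-, -, a3⟩ := hf t (lt_of_le_of_lt ht.2 h2)
    exact ((by fun_prop : ContinuousAt (fun t => t₂ - t) t).mul a3).continuousWithinAt
  rw [intervalIntegral.integral_eq_sub_of_hasDerivAt hd hc]
  ring

theorem entropy_of
    (hE2a : ∀ ρ : ℝ → ℝ, Dens ρ → ∀ t : ℝ, t < 0 →
      HasDerivAt (AA ρ) (A1 ρ t) t ∧ HasDerivAt (A1 ρ) (A2 ρ t) t ∧ ContinuousAt (A2 ρ) t)
    (hE2b : ∀ (ρ : ℝ → ℝ) (w : ℂ → ℂ), Dens ρ → ContinuousOn w {z | 0 < ‖z‖ ∧ ‖z‖ < 1} →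
      ∀ t : ℝ, t < 0 → 1 / Real.sinh t ^ 2 - kk ρ w t ≤ A2 ρ t)
    (hE2c : ∃ C : ℝ, ∀ ρ : ℝ → ℝ, Dens ρ → 0 ≤ AA ρ (-1) ∧ -C ≤ A1 ρ (-1))
    (hE2d : ∀ ρ : ℝ → ℝ, Dens ρ → ∀ t : ℝ, t < 0 →
      AA ρ t ≤ (2 * π)⁻¹ * ∫ α in (0:ℝ)..(2 * π), ρ α * Real.log (ρ α)) :
    ∃ C : ℝ, ∀ (ρ : ℝ → ℝ) (w : ℂ → ℂ) (a : ℝ), Dens ρ →
    ContinuousOn w {z | 0 < ‖z‖ ∧ ‖z‖ < 1} → Real.exp (-1) < a → a < 1 →
    -Real.log (1 - a ^ 2) - C ≤ (2 * π)⁻¹ * (∫ α in (0:ℝ)..(2 * π), ρ α * Real.log (ρ α)) +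
      (2 * π)⁻¹ * ∫ α in (0:ℝ)..(2 * π), ρ α * Kf w (Complex.exp (α * I)) (-1) (Real.log a) := by
  obtain ⟨C, hC⟩ := hE2c
  refine ⟨1 + Real.cosh 1 / Real.sinh 1 + |Real.log (Real.sinh 1)| + |C|, ?_⟩
  intro ρ w a h hw ha ha1
  have h0 : 0 < a := lt_trans (Real.exp_pos _) ha
  have hl1 : -1 < Real.log a := by
    rw [Real.lt_log_iff_exp_lt h0]
    exact ha
  have hl2 : Real.log a < 0 := Real.log_neg h0 ha1
  set t₂ : ℝ := Real.log a with ht₂
  obtain ⟨c1, c2⟩ := hC ρ h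
  have hT := taylor2 hl1.le hl2 (fun t ht => hE2a ρ h t ht)
  have hF := fub h.cont hw hl2 hl1.le
  have hK := kk_intervalIntegrable h.cont hw hl2 hl1.le
  have hS : IntervalIntegrable (fun t => (t₂ - t) * (1 / Real.sinh t ^ 2)) volume (-1) t₂ := by
    apply ContinuousOn.intervalIntegrable
    intro t ht
    rw [uIcc_of_le hl1.le] at ht
    have hs : Real.sinh t ≠ 0 := (Real.sinh_neg_iff.2 (lt_of_le_of_lt ht.2 hl2)).ne
    have hs2 : Real.sinh t ^ 2 ≠ 0 := pow_ne_zero _ hs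
    apply ContinuousAt.continuousWithinAt
    exact (by fun_prop : ContinuousAt (fun t => t₂ - t) t).mul
      (ContinuousAt.div (by fun_prop) (Real.continuous_sinh.continuousAt.pow 2) hs2)
  have hA : IntervalIntegrable (fun t => (t₂ - t) * A2 ρ t) volume (-1) t₂ := by
    apply ContinuousOn.intervalIntegrable
    intro t ht
    rw [uIcc_of_le hl1.le] at ht
    obtain ⟨-, -, a3⟩ := hE2a ρ h t (lt_of_le_of_lt ht.2 hl2)
    exact ((by fun_prop : ContinuousAt (fun t => t₂ - t) t).mul a3).continuousWithinAt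
  have hM : ∫ t in (-1)..t₂, ((t₂ - t) * (1 / Real.sinh t ^ 2) - (t₂ - t) * kk ρ w t) ≤
      ∫ t in (-1)..t₂, (t₂ - t) * A2 ρ t := by
    refine intervalIntegral.integral_mono_on hl1.le (hS.sub hK) hA fun t ht => ?_
    have h5 := hE2b ρ w h hw t (lt_of_le_of_lt ht.2 hl2)
    have h6 : 0 ≤ t₂ - t := by (clear * - ht; linarith only [ht.2])
    have h7 := mul_le_mul_of_nonneg_left h5 h6
    linarith only [h7]
  rw [intervalIntegral.integral_sub hS hK, hF, hT] at hM
  have hI := int_ge ha ha1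
  have hD := hE2d ρ h t₂ hl2
  have hC1 : -|C| ≤ (t₂ - -1) * A1 ρ (-1) := by
    have h8 : 0 ≤ t₂ - -1 := by linarith only [hl1]
    have h9 : t₂ - -1 ≤ 1 := by linarith only [hl2]
    have h10 : -|C| ≤ A1 ρ (-1) := le_trans (neg_le_neg (le_abs_self C)) c2
    have h11 := mul_le_mul_of_nonneg_left h10 h8
    have h12 : (t₂ - -1) * |C| ≤ 1 * |C| := mul_le_mul_of_nonneg_right h9 (abs_nonneg C)
    linarith only [h11, h12]
  linarith only [c1, hM, hI, hD, hC1]

end Pool.Agent.Helper5.EK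

end

section

namespace Pool.Agent.Helper52.EK
end Pool.Agent.Helper52.EK
namespace Pool.Agent.Helper73.EK
end Pool.Agent.Helper73.EK

set_option autoImplicit false

open Complex MeasureTheory Metric Set

open scoped Real ComplexConjugate

namespace Pool.Agent.Helper6.EK

open Pool.Agent.Helper52.EK Pool.Agent.Helper73.EK

theorem exp_lt_one' {t : ℝ} (ht : t < 0) : Real.exp t < 1 := by
  rw [← Real.exp_zero]
  exact Real.exp_lt_exp.2 ht

/-- bounds of the Poisson kernel -/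
theorem Pk_bounds {t : ℝ} (ht : t < 0) (α θ : ℝ) :
    (1 - Real.exp t) / (1 + Real.exp t) ≤ Pk (Complex.exp (α * I)) (ep t θ) ∧
      Pk (Complex.exp (α * I)) (ep t θ) ≤ (1 + Real.exp t) / (1 - Real.exp t) := by
  have h0 : 0 < Real.exp t := Real.exp_pos t
  have h1 : Real.exp t < 1 := exp_lt_one' ht
  have h2 : ‖Complex.exp (α * I) - ep t θ‖ ≤ 1 + Real.exp t := by
    have h := norm_sub_le (Complex.exp (α * I)) (ep t θ)
    rwa [norm_cis, norm_ep] at h
  have h3 : 1 - Real.exp t ≤ ‖Complex.exp (α * I) - ep t θ‖ := by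
    have h := norm_sub_norm_le (Complex.exp (α * I)) (ep t θ)
    rwa [norm_cis, norm_ep] at h
  have h4 : 0 < ‖Complex.exp (α * I) - ep t θ‖ := by (clear * - h1 h3; linarith only [h1, h3])
  unfold Pk
  rw [norm_ep]
  constructor
  · rw [div_le_div_iff₀ (by linarith only [h2, h3]) (by (clear * - h4; positivity))]
    have h5 : ‖Complex.exp (α * I) - ep t θ‖ ^ 2 ≤ (1 + Real.exp t) ^ 2 :=
      pow_le_pow_left₀ h4.le h2 2
    (clear * - h1 h5; nlinarith only [h1, h5])
  · rw [div_le_div_iff₀ (by (clear * - h4; positivity)) (by (clear * - h1; linarith))]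
    have h5 : (1 - Real.exp t) ^ 2 ≤ ‖Complex.exp (α * I) - ep t θ‖ ^ 2 :=
      pow_le_pow_left₀ (by (clear * - h1; linarith)) h3 2
    (clear * - h2 h5 h4; nlinarith only [h2, h4, h5])

theorem continuous_F {ρ : ℝ → ℝ} (h : Dens ρ) {t : ℝ} (ht : t < 0) :
    Continuous (Function.uncurry fun θ α : ℝ => Pk (Complex.exp (α * I)) (ep t θ) * ρ α) := by
  rw [Function.uncurry_def]
  refine Continuous.mul ?_ (h.cont.comp continuous_snd)
  exact Continuous.comp (g := fun p : ℝ × ℝ => Pk (Complex.exp (p.1 * I)) (ep t p.2))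
    (f := fun p : ℝ × ℝ => (p.2, p.1)) (continuous_Pk ht)
    (continuous_snd.prodMk continuous_fst)

theorem continuous_uu {ρ : ℝ → ℝ} (h : Dens ρ) {t : ℝ} (ht : t < 0) :
    Continuous (uu ρ t) := by
  have h1 : Continuous fun θ : ℝ => ∫ α in (0:ℝ)..(2 * π),
      Pk (Complex.exp (α * I)) (ep t θ) * ρ α :=
    intervalIntegral.continuous_parametric_intervalIntegral_of_continuous'
      (continuous_F h ht) 0 (2 * π)
  exact continuous_const.mul h1

theorem cont_alpha {ρ : ℝ → ℝ} (h : Dens ρ) {t : ℝ} (ht : t < 0) (θ : ℝ) :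
    Continuous fun α : ℝ => Pk (Complex.exp (α * I)) (ep t θ) * ρ α := by
  have h2 : Continuous fun α : ℝ => ((θ, α) : ℝ × ℝ) := Continuous.prodMk_right θ
  have h3 := (continuous_F h ht).comp h2
  exact h3

theorem uu_bounds {ρ : ℝ → ℝ} (h : Dens ρ) {t : ℝ} (ht : t < 0) (θ : ℝ) :
    (1 - Real.exp t) / (1 + Real.exp t) ≤ uu ρ t θ ∧
      uu ρ t θ ≤ (1 + Real.exp t) / (1 - Real.exp t) := by
  have hpi : (0:ℝ) < 2 * π := by positivity
  have key : ∀ c : ℝ, (2 * π)⁻¹ * ∫ α in (0:ℝ)..(2 * π), c * ρ α = c := by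
    intro c
    rw [intervalIntegral.integral_const_mul, h.one]
    (clear * -; field_simp)
  unfold uu
  constructor
  · conv_lhs => rw [← key ((1 - Real.exp t) / (1 + Real.exp t))]
    refine mul_le_mul_of_nonneg_left ?_ (by positivity)
    refine intervalIntegral.integral_mono_on hpi.le
      ((continuous_const.mul h.cont).intervalIntegrable _ _)
      ((cont_alpha h ht θ).intervalIntegrable _ _) fun α _ => ?_
    exact mul_le_mul_of_nonneg_right (Pk_bounds ht α θ).1 (h.pos α).le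
  · conv_rhs => rw [← key ((1 + Real.exp t) / (1 - Real.exp t))]
    refine mul_le_mul_of_nonneg_left ?_ (by positivity)
    refine intervalIntegral.integral_mono_on hpi.le
      ((cont_alpha h ht θ).intervalIntegrable _ _)
      ((continuous_const.mul h.cont).intervalIntegrable _ _) fun α _ => ?_
    exact mul_le_mul_of_nonneg_right (Pk_bounds ht α θ).2 (h.pos α).le

theorem uu_pos' {ρ : ℝ → ℝ} (h : Dens ρ) {t : ℝ} (ht : t < 0) (θ : ℝ) : 0 < uu ρ t θ := by
  refine lt_of_lt_of_le ?_ (uu_bounds h ht θ).1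
  have h0 : 0 < Real.exp t := Real.exp_pos t
  have h1 : Real.exp t < 1 := exp_lt_one' ht
  exact div_pos (by (clear * - h1; linarith only [h1])) (by linarith only [h0])

/-- the mean of `u` -/
theorem mean_uu {ρ : ℝ → ℝ} (h : Dens ρ) {t : ℝ} (ht : t < 0) :
    ∫ θ in (-π)..π, uu ρ t θ = 2 * π := by
  unfold uu
  rw [intervalIntegral.integral_const_mul]
  have h1 : ∫ θ in (-π)..π, ∫ α in (0:ℝ)..(2 * π), Pk (Complex.exp (α * I)) (ep t θ) * ρ α =
      ∫ α in (0:ℝ)..(2 * π), ∫ θ in (-π)..π, Pk (Complex.exp (α * I)) (ep t θ) * ρ α := by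
    refine intervalIntegral_intervalIntegral_swap
      (F := fun θ α : ℝ => Pk (Complex.exp (α * I)) (ep t θ) * ρ α) ?_
    have h2 : Continuous (Function.uncurry fun θ α : ℝ =>
        Pk (Complex.exp (α * I)) (ep t θ) * ρ α) := continuous_F h ht
    refine (h2.continuousOn.integrableOn_compact
      (isCompact_uIcc.prod isCompact_uIcc) :
        IntegrableOn _ (uIcc (-π) π ×ˢ uIcc 0 (2 * π))).mono_set ?_
    exact prod_mono uIoc_subset_uIcc uIoc_subset_uIcc
  rw [h1]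
  have h3 : ∀ α : ℝ, ∫ θ in (-π)..π, Pk (Complex.exp (α * I)) (ep t θ) * ρ α =
      2 * π * ρ α := by
    intro α
    rw [intervalIntegral.integral_mul_const, integral_Pk' ht α]
  simp_rw [h3]
  rw [intervalIntegral.integral_const_mul, h.one]
  field_simp

/-- the Poisson kernel is Lipschitz in the radius -/
theorem Pk_lip {s t s₁ : ℝ} (hs : s ≤ s₁) (ht : t ≤ s₁) (hs₁ : s₁ < 0) (α θ : ℝ) :
    |Pk (Complex.exp (α * I)) (ep t θ) - Pk (Complex.exp (α * I)) (ep s θ)| ≤
      8 / (1 - Real.exp s₁) ^ 4 * |t - s| := by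
  set ζ := Complex.exp (α * I) with hζ
  set e := Complex.exp (θ * I) with he
  have hζ1 : ζ.re * ζ.re + ζ.im * ζ.im = 1 := by
    have h := norm_cis α
    rw [← hζ] at h
    have h2 : ‖ζ‖ ^ 2 = 1 := by rw [h, one_pow]
    rw [← Complex.normSq_eq_norm_sq, Complex.normSq_apply] at h2
    exact h2
  have he1 : e.re * e.re + e.im * e.im = 1 := by
    have h := norm_cis θ
    rw [← he] at h
    have h2 : ‖e‖ ^ 2 = 1 := by rw [h, one_pow]
    rw [← Complex.normSq_eq_norm_sq, Complex.normSq_apply] at h2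
    exact h2
  set c := ζ.re * e.re + ζ.im * e.im with hc
  have hc1 : |c| ≤ 1 := by
    rw [abs_le]
    constructor <;> nlinarith only [sq_nonneg (ζ.im + e.im), hζ1, he1, sq_nonneg (ζ.im - e.im)]
  have hD : ∀ t : ℝ, ‖ζ - ep t θ‖ ^ 2 = 1 - 2 * Real.exp t * c + Real.exp t ^ 2 := by
    intro t
    rw [ep_eq, ← he, ← Complex.normSq_eq_norm_sq, Complex.normSq_apply]
    have h1 : (ζ - (Real.exp t : ℂ) * e).re = ζ.re - Real.exp t * e.re := by
      rw [Complex.sub_re, Complex.re_ofReal_mul]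
    have h2 : (ζ - (Real.exp t : ℂ) * e).im = ζ.im - Real.exp t * e.im := by
      rw [Complex.sub_im, Complex.im_ofReal_mul]
    rw [h1, h2, hc]
    linear_combination hζ1 + Real.exp t ^ 2 * he1
  have hPk : ∀ t : ℝ, Pk ζ (ep t θ) =
      (1 - Real.exp t ^ 2) / (1 - 2 * Real.exp t * c + Real.exp t ^ 2) := by
    intro t
    unfold Pk
    rw [hD, norm_ep]
  set r := Real.exp t with hr
  set q := Real.exp s with hq
  set δ := 1 - Real.exp s₁ with hδ
  have hE1 : Real.exp s₁ < 1 := exp_lt_one' hs₁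
  have hδ0 : 0 < δ := by rw [hδ]; linarith only [hE1]
  have hr0 : 0 < r := Real.exp_pos t
  have hq0 : 0 < q := Real.exp_pos s
  have hr1 : r ≤ Real.exp s₁ := Real.exp_le_exp.2 ht
  have hq1 : q ≤ Real.exp s₁ := Real.exp_le_exp.2 hs
  obtain ⟨hcl, hcu⟩ := abs_le.1 hc1
  have hDr : δ ^ 2 ≤ 1 - 2 * r * c + r ^ 2 := by
    have h1 : (1 - r) ^ 2 ≤ 1 - 2 * r * c + r ^ 2 := by nlinarith only [hr0, hcu]
    have h2 : δ ^ 2 ≤ (1 - r) ^ 2 := pow_le_pow_left₀ hδ0.le (by rw [hδ]; (clear * - hr1; linarith)) 2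
    (clear * - h1 h2; linarith)
  have hDq : δ ^ 2 ≤ 1 - 2 * q * c + q ^ 2 := by
    have h1 : (1 - q) ^ 2 ≤ 1 - 2 * q * c + q ^ 2 := by (clear * - hcu hq0; nlinarith only [hq0, hcu])
    have h2 : δ ^ 2 ≤ (1 - q) ^ 2 := pow_le_pow_left₀ hδ0.le (by rw [hδ]; linarith only [hq1]) 2
    linarith only [h1, h2]
  have hδ2 : 0 < δ ^ 2 := by (clear * - hE1; positivity)
  have hDr0 : 0 < 1 - 2 * r * c + r ^ 2 := lt_of_lt_of_le hδ2 hDr
  have hDq0 : 0 < 1 - 2 * q * c + q ^ 2 := lt_of_lt_of_le hδ2 hDq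
  rw [hPk, hPk]
  have hdiff : (1 - r ^ 2) / (1 - 2 * r * c + r ^ 2) - (1 - q ^ 2) / (1 - 2 * q * c + q ^ 2) =
      (r - q) * (2 * c - 2 * (r + q) + 2 * r * q * c) /
        ((1 - 2 * r * c + r ^ 2) * (1 - 2 * q * c + q ^ 2)) := by
    rw [div_sub_div _ _ hDr0.ne' hDq0.ne']
    congr 1
    ring
  rw [hdiff, abs_div, abs_mul]
  have hden : δ ^ 4 ≤ |(1 - 2 * r * c + r ^ 2) * (1 - 2 * q * c + q ^ 2)| := by
    rw [abs_of_pos (mul_pos hDr0 hDq0)]
    calc δ ^ 4 = δ ^ 2 * δ ^ 2 := by ring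
      _ ≤ _ := mul_le_mul hDr hDq hδ2.le hDr0.le
  have hr1' : r < 1 := lt_of_le_of_lt hr1 hE1
  have hq1' : q < 1 := lt_of_le_of_lt hq1 hE1
  have hnum : |2 * c - 2 * (r + q) + 2 * r * q * c| ≤ 8 := by
    have hrq : 0 ≤ r * q := by positivity
    have hrq1 : r * q ≤ 1 := by (clear * - hq1' hq0 hr1'; nlinarith only [hq0, hr1', hq1'])
    rw [abs_le]
    constructor <;> nlinarith only [hcl, hr1', hq1', hrq, hrq1, hδ0, hr0, hq0, hr1, hq1, hcu, hDr0]
  have hexp : |r - q| ≤ |t - s| := by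
    have h1 : ∀ u v : ℝ, u ≤ v → v ≤ 0 → Real.exp v - Real.exp u ≤ v - u := by
      intro u v huv hv
      have h2 := Real.add_one_le_exp (u - v)
      have h3 : Real.exp u = Real.exp v * Real.exp (u - v) := by
        rw [← Real.exp_add]
        congr 1
        ring
      have h4 : Real.exp v ≤ 1 := Real.exp_le_one_iff.2 hv
      have h5 := Real.exp_pos v
      rw [h3]
      nlinarith only [huv, h2, h4, h5]
    rcases le_total s t with hst | hst
    · rw [abs_of_nonneg (sub_nonneg.2 hst), abs_of_nonneg (sub_nonneg.2 (Real.exp_le_exp.2 hst))]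
      exact h1 s t hst (by linarith only [ht, hs₁])
    · rw [abs_of_nonpos (sub_nonpos.2 hst), abs_of_nonpos (sub_nonpos.2 (Real.exp_le_exp.2 hst))]
      have := h1 t s hst (by (clear * - hs hs₁; linarith only [hs, hs₁]))
      linarith only [this]
  calc |r - q| * |2 * c - 2 * (r + q) + 2 * r * q * c| /
        |(1 - 2 * r * c + r ^ 2) * (1 - 2 * q * c + q ^ 2)|
      ≤ (|t - s| * 8) / δ ^ 4 := by
        refine div_le_div₀ (by (clear * -; positivity)) ?_ (by (clear * - hE1; positivity)) hden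
        exact mul_le_mul hexp hnum (abs_nonneg _) (abs_nonneg _)
    _ = 8 / δ ^ 4 * |t - s| := by ring

/-- the derivative of `u` in `t` at `-1` is bounded -/
theorem ut_bound {ρ : ℝ → ℝ} (h : Dens ρ) (θ : ℝ) :
    |ut ρ (-1) θ| ≤ 8 / (1 - Real.exp (-1 / 2)) ^ 4 := by
  have hpi : (0:ℝ) < 2 * π := by positivity
  have hE : Real.exp (-1 / 2 : ℝ) < 1 := exp_lt_one' (by norm_num)
  have hpos : 0 < 1 - Real.exp (-1 / 2 : ℝ) := by linarith only [hE]
  set L := 8 / (1 - Real.exp (-1 / 2 : ℝ)) ^ 4 with hL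
  have hL0 : 0 ≤ L := by (clear * - hE; positivity)
  change ‖deriv (fun t' => uu ρ t' θ) (-1)‖ ≤ L
  refine norm_deriv_le_of_lip' hL0 ?_
  filter_upwards [Iio_mem_nhds (show (-1:ℝ) < -1 / 2 by norm_num)] with t ht
  have ht' : t ≤ -1 / 2 := le_of_lt ht
  have ht0 : t < 0 := by (clear * - ht'; linarith only [ht'])
  rw [Real.norm_eq_abs, Real.norm_eq_abs]
  change |uu ρ t θ - uu ρ (-1) θ| ≤ _
  unfold uu
  rw [← mul_sub, ← intervalIntegral.integral_sub
    ((cont_alpha h ht0 θ).intervalIntegrable _ _)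
    ((cont_alpha h (by norm_num : (-1:ℝ) < 0) θ).intervalIntegrable _ _), abs_mul,
    abs_of_pos (inv_pos.2 hpi)]
  have h1 : |∫ α in (0:ℝ)..(2 * π), (Pk (Complex.exp (α * I)) (ep t θ) * ρ α -
      Pk (Complex.exp (α * I)) (ep (-1) θ) * ρ α)| ≤
      ∫ α in (0:ℝ)..(2 * π), L * |t - -1| * ρ α := by
    rw [← Real.norm_eq_abs]
    refine intervalIntegral.norm_integral_le_of_norm_le hpi.le ?_
      ((continuous_const.mul h.cont).intervalIntegrable _ _)
    refine Filter.Eventually.of_forall fun α _ => ?_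
    rw [← sub_mul, norm_mul, Real.norm_eq_abs, Real.norm_eq_abs, abs_of_pos (h.pos α)]
    exact mul_le_mul_of_nonneg_right
      (Pk_lip (s₁ := -1 / 2) (by norm_num) ht' (by norm_num) α θ) (h.pos α).le
  rw [intervalIntegral.integral_const_mul, h.one] at h1
  calc (2 * π)⁻¹ * |∫ α in (0:ℝ)..(2 * π), (Pk (Complex.exp (α * I)) (ep t θ) * ρ α -
        Pk (Complex.exp (α * I)) (ep (-1) θ) * ρ α)|
      ≤ (2 * π)⁻¹ * (L * |t - -1| * (2 * π)) :=
        mul_le_mul_of_nonneg_left h1 (inv_nonneg.2 hpi.le)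
    _ = L * |t - -1| := by field_simp

theorem E2c : ∃ C : ℝ, ∀ ρ : ℝ → ℝ, Dens ρ → 0 ≤ AA ρ (-1) ∧ -C ≤ A1 ρ (-1) := by
  have hpi : (0:ℝ) < 2 * π := by positivity
  have h10 : (-1:ℝ) < 0 := by norm_num
  have hE0 : 0 < Real.exp (-1 : ℝ) := Real.exp_pos _
  have hE1 : Real.exp (-1 : ℝ) < 1 := exp_lt_one' h10
  have hE : Real.exp (-1 / 2 : ℝ) < 1 := exp_lt_one' (by norm_num)
  have hpos : 0 < 1 - Real.exp (-1 / 2 : ℝ) := by linarith
  set L := 8 / (1 - Real.exp (-1 / 2 : ℝ)) ^ 4 with hL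
  have hL0 : 0 ≤ L := by (clear * - hE; positivity)
  set M := Real.log ((1 + Real.exp (-1)) / (1 - Real.exp (-1))) with hM
  have hM0 : 0 ≤ M := by
    apply Real.log_nonneg
    rw [le_div_iff₀ (by linarith only [hE1])]
    (clear * - hE0; linarith only [hE0])
  refine ⟨(1 + M) * L, fun ρ h => ⟨?_, ?_⟩⟩
  · have hcont := continuous_uu h h10
    have h1 : 0 ≤ ∫ θ in (-π)..π, (uu ρ (-1) θ * Real.log (uu ρ (-1) θ) - (uu ρ (-1) θ - 1)) := by
      refine intervalIntegral.integral_nonneg (by linarith only [hpi]) fun θ _ => ?_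
      have h2 := uu_pos' h h10 θ
      have h3 := Real.one_sub_inv_le_log_of_pos h2
      have h4 := mul_le_mul_of_nonneg_left h3 h2.le
      rw [mul_sub, mul_inv_cancel₀ h2.ne', mul_one] at h4
      (clear * - h4; linarith only [h4])
    have hclog : Continuous fun θ => uu ρ (-1) θ * Real.log (uu ρ (-1) θ) :=
      hcont.mul (hcont.log fun θ => (uu_pos' h h10 θ).ne')
    have hc1 : Continuous fun θ => uu ρ (-1) θ - 1 := hcont.sub continuous_const
    have hc2 : Continuous fun _ : ℝ => (1:ℝ) := continuous_const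
    rw [intervalIntegral.integral_sub (hclog.intervalIntegrable _ _)
      (hc1.intervalIntegrable _ _),
      intervalIntegral.integral_sub (hcont.intervalIntegrable _ _)
      (hc2.intervalIntegrable _ _), mean_uu h h10] at h1
    have h5 : ∫ _θ in (-π)..π, (1:ℝ) = 2 * π := by
      rw [intervalIntegral.integral_const, smul_eq_mul, mul_one]
      ring
    rw [h5, sub_self, sub_zero] at h1
    unfold AA
    exact mul_nonneg (inv_nonneg.2 hpi.le) h1
  · have hlog : ∀ θ, |1 + Real.log (uu ρ (-1) θ)| ≤ 1 + M := by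
      intro θ
      obtain ⟨h1, h2⟩ := uu_bounds h h10 θ
      have h3 := uu_pos' h h10 θ
      have h4 : Real.log (uu ρ (-1) θ) ≤ M := Real.log_le_log h3 h2
      have h5 : -M ≤ Real.log (uu ρ (-1) θ) := by
        have h6 : -M = Real.log ((1 - Real.exp (-1)) / (1 + Real.exp (-1))) := by
          rw [hM, ← Real.log_inv, inv_div]
        rw [h6]
        exact Real.log_le_log (div_pos (by (clear * - hE1; linarith only [hE1])) (by linarith only [hE0])) h1
      rw [abs_le]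
      constructor <;> (clear * - h5 h4; linarith only [h5, h4])
    have h1 : ‖∫ θ in (-π)..π, (1 + Real.log (uu ρ (-1) θ)) * ut ρ (-1) θ‖ ≤
        (1 + M) * L * |π - -π| := by
      refine intervalIntegral.norm_integral_le_of_norm_le_const fun θ _ => ?_
      rw [norm_mul, Real.norm_eq_abs, Real.norm_eq_abs]
      exact mul_le_mul (hlog θ) (ut_bound h θ) (abs_nonneg _) (by linarith only [hM0])
    rw [Real.norm_eq_abs, show π - -π = 2 * π by ring, abs_of_pos hpi] at h1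
    have h2 := (abs_le.1 h1).1
    unfold A1
    have h3 : (2 * π)⁻¹ * (-((1 + M) * L * (2 * π))) = -((1 + M) * L) := by (clear * - hM0; field_simp)
    rw [← h3]
    exact mul_le_mul_of_nonneg_left h2 (inv_nonneg.2 hpi.le)

end Pool.Agent.Helper6.EK

end
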