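import Pool.Agent.Helper14.CMF.T03

set_option linter.all false

section

/-!
Weighted sums of squares with packed integer coefficients, and the check of the identity.
-/

set_option autoImplicit false

namespace Pool.Sos71

/-- a factor `c m1 + d m2`, or `c m1 - d m2` if `s`; `b1`, `b2` are the shifts of `m1`, `m2` -/
structure Fac where
  c : ℕ
  m1 : Mon
  b1 : ℕ
  s : Bool
  d : ℕ
  m2 : Mon
  b2 : ℕ

/-- multiplication by the value of the factor -/
def Fac.ap (f : Fac) (x : ℕ) : ℕ := match f.s with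
  | false => Nat.add (Nat.shiftLeft (Nat.mul f.c x) f.b1) (Nat.shiftLeft (Nat.mul f.d x) f.b2)
  | true => Nat.sub (Nat.shiftLeft (Nat.mul f.c x) f.b1) (Nat.shiftLeft (Nat.mul f.d x) f.b2)

def Fac.V (f : Fac) : ℕ := f.ap 1

noncomputable def Fac.re (f : Fac) (x : Pnt) : ℝ := match f.s with
  | false => f.c * f.m1.val x + f.d * f.m2.val x
  | true => f.c * f.m1.val x - f.d * f.m2.val x

lemma Fac.ap_eq (f : Fac) (x : ℕ) : f.ap x = x * f.V := by
  unfold Fac.V Fac.ap
  cases f.s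
  · show (f.c * x) <<< f.b1 + (f.d * x) <<< f.b2 = x * ((f.c * 1) <<< f.b1 + (f.d * 1) <<< f.b2)
    simp only [Nat.shiftLeft_eq]; ring
  · show (f.c * x) <<< f.b1 - (f.d * x) <<< f.b2 = x * ((f.c * 1) <<< f.b1 - (f.d * 1) <<< f.b2)
    simp only [Nat.shiftLeft_eq]
    rw [Nat.mul_sub]
    congr 1 <;> ring

/-- an element of the basis: the monomial `m` times the factor `f`; `a` is the shift of `m`;
`e` marks the end of a group of elements with the same factor -/
structure Itm where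
  m : Mon
  a : ℕ
  f : Fac
  e : Bool

/-- multiplication by the value of the element -/
def Itm.ap (i : Itm) (x : ℕ) : ℕ := i.f.ap (Nat.shiftLeft x i.a)

def Itm.v (i : Itm) : ℕ := i.ap 1

noncomputable def Itm.re (i : Itm) (x : Pnt) : ℝ := i.m.val x * i.f.re x

lemma Itm.v_eq (i : Itm) : i.v = 2 ^ i.a * i.f.V := by
  unfold Itm.v Itm.ap
  rw [Fac.ap_eq]
  show 1 <<< i.a * _ = _
  rw [Nat.shiftLeft_eq, one_mul]

lemma Itm.ap_eq (i : Itm) (x : ℕ) : i.ap x = x * i.v := by
  rw [Itm.v_eq]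
  unfold Itm.ap
  rw [Fac.ap_eq]
  show x <<< i.a * _ = _
  rw [Nat.shiftLeft_eq]; ring

/-- `sum of d_j z_j`, `d_j` the digits of `p` in base `B` -/
def lin (B : ℕ) : List Itm → ℕ → ℕ → ℕ
  | [], _, acc => acc
  | i :: it, p, acc => match i.e with
    | false => lin B it (Nat.div p B) (Nat.add acc (Nat.shiftLeft (Nat.mod p B) i.a))
    | true => Nat.add (i.f.ap (Nat.add acc (Nat.shiftLeft (Nat.mod p B) i.a)))
        (lin B it (Nat.div p B) 0)

/-- the value of the factor of the current group -/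
def eb : List Itm → ℕ
  | [] => 1
  | i :: it => match i.e with
    | false => eb it
    | true => i.f.V

/-- `(A - T)²` -/
def sqd (A T : ℕ) : ℕ := Nat.mul (Nat.add (Nat.sub A T) (Nat.sub T A)) (Nat.add (Nat.sub A T) (Nat.sub T A))

/-- sum of the squares; `tot` is the sum of the elements -/
def sqs (B off : ℕ) : List Itm → List ℕ → ℕ → ℕ
  | [], _, _ => 0
  | i :: it, Ls, tot => match Ls with
    | [] => 0
    | L :: Ls' => Nat.add (sqd (lin B (i :: it) L 0) (Nat.mul off tot))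
        (sqs B off it Ls' (Nat.sub tot i.v))

/-- positive part of the mixed terms -/
def eps (B : ℕ) : List Itm → List ℕ → ℕ
  | [], _ => 0
  | i :: it, Es => match Es with
    | [] => 0
    | E :: Es' => Nat.add (i.ap (lin B (i :: it) E 0)) (eps B it Es')

/-- negative part of the mixed terms -/
def ens (off : ℕ) : List Itm → List ℕ → ℕ → ℕ
  | [], _, _ => 0
  | i :: it, Es, tot => match Es with
    | [] => 0
    | _ :: Es' => Nat.add (i.ap (Nat.mul off tot)) (ens off it Es' (Nat.sub tot i.v))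

def tot : List Itm → ℕ
  | [] => 0
  | i :: it => Nat.add i.v (tot it)

/-- sum of the squares of the basis elements -/
def z2 : List Itm → ℕ
  | [] => 0
  | i :: it => Nat.add (Nat.mul i.v i.v) (z2 it)

/-- `d * z2 it`, nothing is computed for `d = 0` -/
def dz2 (d : ℕ) (it : List Itm) : ℕ := match d with
  | 0 => 0
  | n + 1 => Nat.mul (Nat.succ n) (z2 it)

lemma dz2_eq (d : ℕ) (it : List Itm) : dz2 d it = d * z2 it := by
  cases d with
  | zero => rw [Nat.zero_mul]; rfl
  | succ n => rfl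

/-- `sum of (d_j - off) z_j(x)` -/
noncomputable def rl (B off : ℕ) (x : Pnt) : List Itm → ℕ → ℝ
  | [], _ => 0
  | i :: it, p => (((p % B : ℕ) : ℝ) - off) * i.re x + rl B off x it (p / B)

noncomputable def rsq (B off : ℕ) (x : Pnt) : List Itm → List ℕ → ℝ
  | [], _ => 0
  | i :: it, Ls => match Ls with
    | [] => 0
    | L :: Ls' => rl B off x (i :: it) L ^ 2 + rsq B off x it Ls'

noncomputable def rex (B off : ℕ) (x : Pnt) : List Itm → List ℕ → ℝ
  | [], _ => 0
  | i :: it, Es => match Es with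
    | [] => 0
    | E :: Es' => rl B off x (i :: it) E * i.re x + rex B off x it Es'

noncomputable def rz2 (x : Pnt) : List Itm → ℝ
  | [] => 0
  | i :: it => i.re x ^ 2 + rz2 x it

noncomputable def rab (x : Pnt) : List Itm → ℝ
  | [] => 0
  | i :: it => |i.re x| + rab x it

lemma rsq_nonneg (B off : ℕ) (x : Pnt) (it : List Itm) (Ls : List ℕ) : 0 ≤ rsq B off x it Ls := by
  induction it generalizing Ls with
  | nil => exact le_rfl
  | cons i it ih =>
    cases Ls with
    | nil => exact le_rfl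
    | cons L Ls => exact add_nonneg (sq_nonneg _) (ih Ls)

lemma rz2_nonneg (x : Pnt) (it : List Itm) : 0 ≤ rz2 x it := by
  induction it with
  | nil => exact le_rfl
  | cons i it ih => exact add_nonneg (sq_nonneg _) ih

lemma dig_le {B off : ℕ} (hB : B = 2 * off) (h0 : 0 < off) (p : ℕ) :
    |((p % B : ℕ) : ℝ) - off| ≤ off := by
  have h1 : p % B < B := Nat.mod_lt _ (by omega)
  have h2 : ((p % B : ℕ) : ℝ) ≤ 2 * off := by
    have : p % B ≤ 2 * off := by omega
    exact_mod_cast this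
  have h3 : (0 : ℝ) ≤ ((p % B : ℕ) : ℝ) := Nat.cast_nonneg _
  rw [abs_le]
  constructor <;> (clear * - h2; linarith only [h2])

lemma rl_abs {B off : ℕ} (hB : B = 2 * off) (h0 : 0 < off) (x : Pnt) (it : List Itm) (p : ℕ) :
    |rl B off x it p| ≤ off * rab x it := by
  induction it generalizing p with
  | nil => simp [rl, rab]
  | cons i it ih =>
    have h1 := dig_le hB h0 p
    calc |rl B off x (i :: it) p| ≤ |(((p % B : ℕ) : ℝ) - off) * i.re x|
          + |rl B off x it (p / B)| := abs_add_le _ _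
      _ ≤ off * |i.re x| + off * rab x it := by
        refine add_le_add ?_ (ih _)
        rw [abs_mul]
        exact mul_le_mul_of_nonneg_right h1 (abs_nonneg _)
      _ = _ := by rw [rab]; ring

/-- `|z_0| (|z_0| + sum) ≤ ...` -/
lemma rab_le (x : Pnt) (it : List Itm) (t : ℝ) :
    2 * (|t| * rab x it) ≤ it.length * t ^ 2 + rz2 x it := by
  induction it with
  | nil => simp [rab, rz2]
  | cons i it ih =>
    have h1 : 2 * (|t| * |i.re x|) ≤ t ^ 2 + i.re x ^ 2 := by
      have := sq_nonneg (|t| - |i.re x|)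
      (clear * - this; linarith only [sq_abs t, sq_abs (i.re x), this])
    rw [rab, rz2, List.length_cons]
    push_cast
    (clear * - ih h1; linarith only [ih, h1])

lemma rex_abs {B off : ℕ} (hB : B = 2 * off) (h0 : 0 < off) (x : Pnt) (it : List Itm)
    (Es : List ℕ) : 2 * |rex B off x it Es| ≤ (it.length + 1) * off * rz2 x it := by
  induction it generalizing Es with
  | nil => simp [rex, rz2]
  | cons i it ih =>
    have hz := rz2_nonneg x it
    have hoff : (0 : ℝ) ≤ off := Nat.cast_nonneg _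
    cases Es with
    | nil =>
      rw [rex]
      simp only [abs_zero, mul_zero]
      have := rz2_nonneg x (i :: it)
      (clear * - h0 this; positivity)
    | cons E Es =>
      have h1 := rl_abs hB h0 x (i :: it) E
      have h2 := ih Es
      have h3 := rab_le x it (i.re x)
      have h4 : |rl B off x (i :: it) E * i.re x| ≤
          off * (|i.re x| + rab x it) * |i.re x| := by
        rw [abs_mul]
        exact mul_le_mul_of_nonneg_right h1 (abs_nonneg _)
      have h5 : |rex B off x (i :: it) (E :: Es)| ≤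
          off * (|i.re x| + rab x it) * |i.re x| + |rex B off x it Es| :=
        (abs_add_le _ _).trans (add_le_add h4 le_rfl)
      have h6 : |i.re x| * |i.re x| = i.re x ^ 2 := by rw [← sq, sq_abs]
      have h7 : 2 * (off * (|i.re x| + rab x it) * |i.re x|) ≤
          off * (2 * i.re x ^ 2 + (it.length * i.re x ^ 2 + rz2 x it)) := by
        have : 2 * (off * (|i.re x| + rab x it) * |i.re x|) =
            off * (2 * (|i.re x| * |i.re x|) + 2 * (|i.re x| * rab x it)) := by ring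
        rw [this, h6]
        exact mul_le_mul_of_nonneg_left (by (clear * - h3; linarith only [h3])) hoff
      rw [List.length_cons, rz2]
      push_cast
      have h8 : 0 ≤ (off : ℝ) * rz2 x it := by (clear * - h0 hz; positivity)
      linarith only [h2, h5, h7]

section rep

variable {k : ℕ} {r : Rad} {N : Bd} {nf : ℕ}

/-- the shifts are right, the monomials are in the box, the norm is at most `nf` -/
def Itm.Ok (k : ℕ) (r : Rad) (N : Bd) (nf : ℕ) (i : Itm) : Prop :=
  (i.m.add i.f.m1).In N ∧ (i.m.add i.f.m2).In N ∧ i.a = k * i.m.code r ∧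
    i.f.b1 = k * i.f.m1.code r ∧ i.f.b2 = k * i.f.m2.code r ∧ i.f.c + i.f.d ≤ nf ∧
    (i.f.s = true → i.f.d <<< i.f.b2 ≤ i.f.c <<< i.f.b1)

def Gd (k : ℕ) (r : Rad) (N : Bd) (nf : ℕ) : List Itm → Prop
  | [] => True
  | i :: it => i.Ok k r N nf ∧ i.f.V = eb (i :: it) ∧ Gd k r N nf it

/-- `sum of d_j z_j` without accumulator -/
def sd (B : ℕ) : List Itm → ℕ → ℕ
  | [], _ => 0
  | i :: it, p => p % B * i.v + sd B it (p / B)

lemma lin_eq {B : ℕ} (it : List Itm) (h : Gd k r N nf it) (p acc : ℕ) :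
    lin B it p acc = acc * eb it + sd B it p := by
  induction it generalizing p acc with
  | nil => simp [lin, eb, sd]
  | cons i it ih =>
    obtain ⟨_, h3, h4⟩ := h
    rw [lin, sd, Itm.v_eq, h3]
    rw [eb] at h3 ⊢
    rcases ho : i.e with _ | _
    · simp only [ho] at h3 ⊢
      rw [ih h4]
      show (acc + (p % B) <<< i.a) * eb it + sd B it (p / B) = _
      rw [Nat.shiftLeft_eq]; ring
    · simp only [ho] at h3 ⊢
      rw [ih h4, Fac.ap_eq]
      show (acc + (p % B) <<< i.a) * i.f.V + (0 * eb it + sd B it (p / B)) = _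
      rw [Nat.shiftLeft_eq]; ring

lemma two_pow_code (m : Mon) : ((2 ^ k : ℕ) : ℤ) ^ m.code r = ((2 ^ (k * m.code r) : ℕ) : ℤ) := by
  push_cast; rw [pow_mul]

lemma rep_item {i : Itm} (h : i.Ok k r N nf) {x : Pnt} :
    Rep ((2 ^ k : ℕ) : ℤ) r x N nf (i.v : ℤ) (i.re x) := by
  obtain ⟨h1, h2, h3, h4, h5, h6, h7⟩ := h
  have r1 := Rep.mon (w := ((2 ^ k : ℕ) : ℤ)) (r := r) (x := x) (i.f.c : ℤ) h1
  rw [two_pow_code, Mon.code_add, Mon.val_add] at r1
  unfold Itm.re Fac.re
  rw [Itm.v_eq]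
  unfold Fac.V Fac.ap
  rcases hs : i.f.s with _ | _
  · have r2 := Rep.mon (w := ((2 ^ k : ℕ) : ℤ)) (r := r) (x := x) (i.f.d : ℤ) h2
    rw [two_pow_code, Mon.code_add, Mon.val_add] at r2
    have r3 := (r1.add r2).mono (c' := nf) (by simpa using h6)
    have e1 : (i.f.c : ℤ) * ((2 ^ (k * (i.m.code r + i.f.m1.code r)) : ℕ) : ℤ)
        + (i.f.d : ℤ) * ((2 ^ (k * (i.m.code r + i.f.m2.code r)) : ℕ) : ℤ) =
        ((2 ^ i.a * (Nat.add (Nat.shiftLeft (Nat.mul i.f.c 1) i.f.b1)
          (Nat.shiftLeft (Nat.mul i.f.d 1) i.f.b2)) : ℕ) : ℤ) := by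
      show _ = ((2 ^ i.a * ((i.f.c * 1) <<< i.f.b1 + (i.f.d * 1) <<< i.f.b2) : ℕ) : ℤ)
      rw [Nat.shiftLeft_eq, Nat.shiftLeft_eq, h3, h4, h5, Nat.mul_add k, Nat.mul_add k, pow_add,
        pow_add]
      push_cast; ring
    rw [e1] at r3
    have e2 : ((i.f.c : ℤ) : ℝ) * (i.m.val x * i.f.m1.val x)
        + ((i.f.d : ℤ) : ℝ) * (i.m.val x * i.f.m2.val x) =
        i.m.val x * (i.f.c * i.f.m1.val x + i.f.d * i.f.m2.val x) := by
      push_cast; ring
    rw [e2] at r3
    exact r3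
  · have r2 := Rep.mon (w := ((2 ^ k : ℕ) : ℤ)) (r := r) (x := x) (-(i.f.d : ℤ)) h2
    rw [two_pow_code, Mon.code_add, Mon.val_add] at r2
    have r3 := (r1.add r2).mono (c' := nf) (by simpa using h6)
    have h8 := h7 hs
    have e1 : (i.f.c : ℤ) * ((2 ^ (k * (i.m.code r + i.f.m1.code r)) : ℕ) : ℤ)
        + -(i.f.d : ℤ) * ((2 ^ (k * (i.m.code r + i.f.m2.code r)) : ℕ) : ℤ) =
        ((2 ^ i.a * (Nat.sub (Nat.shiftLeft (Nat.mul i.f.c 1) i.f.b1)
          (Nat.shiftLeft (Nat.mul i.f.d 1) i.f.b2)) : ℕ) : ℤ) := by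
      show _ = ((2 ^ i.a * ((i.f.c * 1) <<< i.f.b1 - (i.f.d * 1) <<< i.f.b2) : ℕ) : ℤ)
      rw [Nat.cast_mul, Nat.cast_sub (by rw [mul_one, mul_one]; exact h8)]
      rw [Nat.shiftLeft_eq, Nat.shiftLeft_eq, h3, h4, h5, Nat.mul_add k, Nat.mul_add k, pow_add,
        pow_add]
      push_cast; ring
    rw [e1] at r3
    have e2 : ((i.f.c : ℤ) : ℝ) * (i.m.val x * i.f.m1.val x)
        + ((-(i.f.d : ℤ) : ℤ) : ℝ) * (i.m.val x * i.f.m2.val x) =
        i.m.val x * (i.f.c * i.f.m1.val x - i.f.d * i.f.m2.val x) := by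
      push_cast; ring
    rw [e2] at r3
    exact r3

lemma rep_lin {B off : ℕ} (hB : B = 2 * off) (h0 : 0 < off) {x : Pnt} (it : List Itm)
    (h : Gd k r N nf it) (p : ℕ) :
    Rep ((2 ^ k : ℕ) : ℤ) r x N (it.length * (off * nf)) ((sd B it p : ℤ) - off * (tot it : ℤ))
      (rl B off x it p) := by
  induction it generalizing p with
  | nil =>
    have := Rep.zero (w := ((2 ^ k : ℕ) : ℤ)) (r := r) (x := x) N 0
    simpa [sd, tot, rl] using this
  | cons i it ih =>
    have h1 := rep_item h.1 (x := x)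
    have h2 := (h1.smul (((p % B : ℕ) : ℤ) - off)).add (ih h.2.2 (p / B))
    have h3 : (((p % B : ℕ) : ℤ) - off).natAbs ≤ off := by
      have : p % B < B := Nat.mod_lt _ (by omega)
      omega
    have e1 : (((p % B : ℕ) : ℤ) - off) * (i.v : ℤ)
        + ((sd B it (p / B) : ℤ) - off * (tot it : ℤ)) =
        ((sd B (i :: it) p : ℕ) : ℤ) - off * ((tot (i :: it) : ℕ) : ℤ) := by
      have e2 : tot (i :: it) = i.v + tot it := rfl
      rw [sd, e2]
      generalize p % B = d
      push_cast; ring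
    have e3 : (((((p % B : ℕ) : ℤ) - off : ℤ)) : ℝ) * i.re x + rl B off x it (p / B) =
        rl B off x (i :: it) p := by
      rw [rl]
      generalize p % B = d
      push_cast; ring
    rw [e1, e3] at h2
    refine h2.mono ?_
    rw [List.length_cons]
    (clear * - h3; nlinarith only [h3])

lemma sqd_eq (A T : ℕ) : ((sqd A T : ℕ) : ℤ) = ((A : ℤ) - T) * ((A : ℤ) - T) := by
  have : sqd A T = (A - T + (T - A)) * (A - T + (T - A)) := rfl
  rw [this]
  rcases le_total A T with h | h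
  · rw [Nat.sub_eq_zero_of_le h]
    push_cast [Nat.cast_sub h]; ring
  · rw [Nat.sub_eq_zero_of_le h]
    push_cast [Nat.cast_sub h]; ring

lemma tot_sub (i : Itm) (it : List Itm) : Nat.sub (tot (i :: it)) i.v = tot it := by
  show (i.v + tot it) - i.v = _
  omega

lemma rep_sqs {B off : ℕ} (hB : B = 2 * off) (h0 : 0 < off) {x : Pnt} (it : List Itm)
    (h : Gd k r N nf it) (Ls : List ℕ) {n : ℕ} (hn : it.length ≤ n) :
    Rep ((2 ^ k : ℕ) : ℤ) r x (N.add N) (Ls.length * ((n * (off * nf)) * (n * (off * nf))))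
      ((sqs B off it Ls (tot it) : ℕ) : ℤ) (rsq B off x it Ls) := by
  induction it generalizing Ls with
  | nil => exact (Rep.zero _ _)
  | cons i it ih =>
    cases Ls with
    | nil => exact (Rep.zero _ _)
    | cons L Ls =>
      have h1 := rep_lin hB h0 (x := x) (i :: it) h L
      have h2 := (h1.mono (Nat.mul_le_mul_right (off * nf) hn))
      have h3 := (h2.mul h2).add (ih h.2.2 Ls ((Nat.le_succ _).trans hn))
      have e1 : ((sqs B off (i :: it) (L :: Ls) (tot (i :: it)) : ℕ) : ℤ) =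
          ((sd B (i :: it) L : ℤ) - off * (tot (i :: it) : ℤ))
            * ((sd B (i :: it) L : ℤ) - off * (tot (i :: it) : ℤ))
          + ((sqs B off it Ls (tot it) : ℕ) : ℤ) := by
        rw [sqs, tot_sub, lin_eq (i :: it) h, zero_mul, zero_add]
        show ((sqd (sd B (i :: it) L) (off * tot (i :: it)) + sqs B off it Ls (tot it) : ℕ) : ℤ) = _
        push_cast
        rw [sqd_eq]
        push_cast; ring
      have e2 : rl B off x (i :: it) L * rl B off x (i :: it) L + rsq B off x it Ls =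
          rsq B off x (i :: it) (L :: Ls) := by
        rw [rsq]; ring
      rw [← e1, e2] at h3
      refine h3.mono (le_of_eq ?_)
      rw [List.length_cons]; ring

lemma rep_ex {B off : ℕ} (hB : B = 2 * off) (h0 : 0 < off) {x : Pnt} (it : List Itm)
    (h : Gd k r N nf it) (Es : List ℕ) {n : ℕ} (hn : it.length ≤ n) :
    Rep ((2 ^ k : ℕ) : ℤ) r x (N.add N) (Es.length * ((n * (off * nf)) * nf))
      (((eps B it Es : ℕ) : ℤ) - ((ens off it Es (tot it) : ℕ) : ℤ)) (rex B off x it Es) := by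
  induction it generalizing Es with
  | nil => exact (Rep.zero _ _)
  | cons i it ih =>
    cases Es with
    | nil => exact (Rep.zero _ _)
    | cons E Es =>
      have h1 := rep_lin hB h0 (x := x) (i :: it) h E
      have h2 := (h1.mono (Nat.mul_le_mul_right (off * nf) hn))
      have h3 := (h2.mul (rep_item h.1 (x := x))).add (ih h.2.2 Es ((Nat.le_succ _).trans hn))
      have e1 : ((eps B (i :: it) (E :: Es) : ℕ) : ℤ)
            - ((ens off (i :: it) (E :: Es) (tot (i :: it)) : ℕ) : ℤ) =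
          ((sd B (i :: it) E : ℤ) - off * (tot (i :: it) : ℤ)) * (i.v : ℤ)
          + (((eps B it Es : ℕ) : ℤ) - ((ens off it Es (tot it) : ℕ) : ℤ)) := by
        rw [eps, ens, tot_sub, lin_eq (i :: it) h, zero_mul, zero_add, Itm.ap_eq, Itm.ap_eq]
        show ((sd B (i :: it) E * i.v + eps B it Es : ℕ) : ℤ)
          - (((off * tot (i :: it)) * i.v + ens off it Es (tot it) : ℕ) : ℤ) = _
        push_cast; ring
      have e2 : rl B off x (i :: it) E * i.re x + rex B off x it Es =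
          rex B off x (i :: it) (E :: Es) := rfl
      rw [← e1, e2] at h3
      refine h3.mono (le_of_eq ?_)
      rw [List.length_cons]; ring

lemma rep_z2 {x : Pnt} (it : List Itm) (h : Gd k r N nf it) :
    Rep ((2 ^ k : ℕ) : ℤ) r x (N.add N) (it.length * (nf * nf)) ((z2 it : ℕ) : ℤ)
      (rz2 x it) := by
  induction it with
  | nil => exact (Rep.zero _ _)
  | cons i it ih =>
    have h1 := rep_item h.1 (x := x)
    have h2 := (h1.mul h1).add (ih h.2.2)
    have e1 : ((z2 (i :: it) : ℕ) : ℤ) = (i.v : ℤ) * (i.v : ℤ) + ((z2 it : ℕ) : ℤ) := by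
      rw [z2]
      show ((i.v * i.v + z2 it : ℕ) : ℤ) = _
      push_cast; ring
    have e2 : i.re x * i.re x + rz2 x it = rz2 x (i :: it) := by rw [rz2]; ring
    rw [← e1, e2] at h2
    refine h2.mono (le_of_eq ?_)
    rw [List.length_cons]; ring

end rep

structure Blk where
  mult : Ex
  N : Bd
  nf : ℕ
  its : List Itm
  B : ℕ
  off : ℕ
  L : List ℕ
  BE : ℕ
  offE : ℕ
  E : List ℕ
  dl : ℕ

def Mon.inb (m : Mon) (B : Bd) : Bool :=
  Nat.ble m.a B.a && Nat.ble m.b B.b && Nat.ble m.d B.d && Nat.ble m.e B.e &&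
    Nat.ble m.f B.f && Nat.ble m.g B.g && Nat.beq (m.b + m.c + 2 * m.d + 2 * m.e) B.w

lemma Mon.inb_sound {m : Mon} {B : Bd} (h : m.inb B = true) : m.In B := by
  simp only [Mon.inb, Bool.and_eq_true, Nat.ble_eq] at h
  obtain ⟨⟨⟨⟨⟨⟨h1, h2⟩, h3⟩, h4⟩, h5⟩, h6⟩, h7⟩ := h
  exact ⟨h1, h2, h3, h4, h5, h6, Nat.eq_of_beq_eq_true h7⟩

def eqF (f g : Fac) : Bool :=
  Nat.beq f.c g.c && Nat.beq f.b1 g.b1 && Nat.beq f.d g.d && Nat.beq f.b2 g.b2 &&
    (match f.s, g.s with
      | false, false => true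
      | true, true => true
      | _, _ => false)

lemma eqF_sound {f g : Fac} (h : eqF f g = true) : f.V = g.V := by
  simp only [eqF, Bool.and_eq_true] at h
  obtain ⟨⟨⟨⟨h1, h2⟩, h3⟩, h4⟩, h5⟩ := h
  have h1 := Nat.eq_of_beq_eq_true h1
  have h2 := Nat.eq_of_beq_eq_true h2
  have h3 := Nat.eq_of_beq_eq_true h3
  have h4 := Nat.eq_of_beq_eq_true h4
  have h6 : f.s = g.s := by
    revert h5
    cases f.s <;> cases g.s <;> simp
  unfold Fac.V Fac.ap
  rw [h1, h2, h3, h4, h6]

/-- the next element has the same factor -/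
def nxt (i : Itm) : List Itm → Bool
  | [] => false
  | j :: _ => eqF i.f j.f

def Itm.okb (k : ℕ) (r : Rad) (N : Bd) (nf : ℕ) (i : Itm) : Bool :=
  (i.m.add i.f.m1).inb N && (i.m.add i.f.m2).inb N && Nat.beq i.a (k * i.m.code r) &&
    Nat.beq i.f.b1 (k * i.f.m1.code r) && Nat.beq i.f.b2 (k * i.f.m2.code r) &&
    Nat.ble (i.f.c + i.f.d) nf &&
    (match i.f.s with
      | false => true
      | true => Nat.ble (Nat.shiftLeft i.f.d i.f.b2) (Nat.shiftLeft i.f.c i.f.b1))

lemma Itm.okb_sound {k : ℕ} {r : Rad} {N : Bd} {nf : ℕ} {i : Itm} (h : i.okb k r N nf = true) :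
    i.Ok k r N nf := by
  simp only [Itm.okb, Bool.and_eq_true] at h
  obtain ⟨⟨⟨⟨⟨⟨h1, h2⟩, h3⟩, h4⟩, h5⟩, h6⟩, h7⟩ := h
  refine ⟨Mon.inb_sound h1, Mon.inb_sound h2, Nat.eq_of_beq_eq_true h3,
    Nat.eq_of_beq_eq_true h4, Nat.eq_of_beq_eq_true h5, Nat.le_of_ble_eq_true h6, ?_⟩
  intro hs
  rw [hs] at h7
  exact Nat.le_of_ble_eq_true h7

def gdb (k : ℕ) (r : Rad) (N : Bd) (nf : ℕ) : List Itm → Bool
  | [] => true
  | i :: it => i.okb k r N nf && (i.e || nxt i it) && gdb k r N nf it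

lemma gdb_sound {k : ℕ} {r : Rad} {N : Bd} {nf : ℕ} {it : List Itm}
    (h : gdb k r N nf it = true) : Gd k r N nf it := by
  induction it with
  | nil => trivial
  | cons i it ih =>
    simp only [gdb, Bool.and_eq_true, Bool.or_eq_true] at h
    obtain ⟨⟨h1, h2⟩, h3⟩ := h
    have h4 := ih h3
    refine ⟨Itm.okb_sound h1, ?_, h4⟩
    rw [eb]
    rcases he : i.e with _ | _
    · rw [he] at h2
      cases it with
      | nil => simp [nxt] at h2
      | cons j it =>
        have h5 : eqF i.f j.f = true := by simpa [nxt] using h2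
        show i.f.V = eb (j :: it)
        rw [eqF_sound h5]
        exact h4.2.1
    · rfl

def len (l : List Itm) : ℕ := match l with
  | [] => 0
  | _ :: it => Nat.succ (len it)

lemma len_eq (l : List Itm) : len l = l.length := by
  induction l with
  | nil => rfl
  | cons i it ih => rw [len, ih]; rfl

def lenN (l : List ℕ) : ℕ := match l with
  | [] => 0
  | _ :: it => Nat.succ (lenN it)

lemma lenN_eq (l : List ℕ) : lenN l = l.length := by
  induction l with
  | nil => rfl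
  | cons i it ih => rw [lenN, ih]; rfl

def emp (l : List ℕ) : Bool := match l with
  | [] => true
  | _ :: _ => false

def Blk.ok (b : Blk) (k : ℕ) (r : Rad) : Bool :=
  gdb k r b.N b.nf b.its && b.mult.ok && Nat.beq b.B (2 * b.off) && Nat.blt 0 b.off &&
    Nat.beq b.BE (2 * b.offE) && Nat.blt 0 b.offE &&
    (emp b.E || Nat.ble ((len b.its + 1) * b.offE) (2 * b.dl))

/-- positive and negative part of the value of the form -/
def Blk.vp (b : Blk) : ℕ :=
  Nat.add (sqs b.B b.off b.its b.L (tot b.its))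
    (Nat.add (dz2 b.dl b.its) (eps b.BE b.its b.E))

def Blk.vn (b : Blk) : ℕ := ens b.offE b.its b.E (tot b.its)

def Blk.nmq (b : Blk) : ℕ :=
  lenN b.L * ((len b.its * (b.off * b.nf)) * (len b.its * (b.off * b.nf)))
    + b.dl * (len b.its * (b.nf * b.nf)) + lenN b.E * ((len b.its * (b.offE * b.nf)) * b.nf)

noncomputable def Blk.q (b : Blk) (x : Pnt) : ℝ :=
  rsq b.B b.off x b.its b.L + b.dl * rz2 x b.its + rex b.BE b.offE x b.its b.E

lemma Blk.q_nonneg {b : Blk} {k : ℕ} {r : Rad} (h : b.ok k r = true) (x : Pnt) : 0 ≤ b.q x := by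
  simp only [Blk.ok, Bool.and_eq_true, Bool.or_eq_true, Nat.blt_eq, Nat.ble_eq] at h
  obtain ⟨⟨⟨⟨⟨⟨_, _⟩, _⟩, _⟩, h5⟩, h6⟩, h7⟩ := h
  have h5 := Nat.eq_of_beq_eq_true h5
  have a1 := rsq_nonneg b.B b.off x b.its b.L
  have a2 := rz2_nonneg x b.its
  have a3 : (0 : ℝ) ≤ b.dl := Nat.cast_nonneg _
  rcases h7 with h7 | h7
  · have hE : b.E = [] := by
      cases hE : b.E with
      | nil => rfl
      | cons a l => rw [hE] at h7; simp [emp] at h7
    have : rex b.BE b.offE x b.its b.E = 0 := by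
      rw [hE]
      cases b.its <;> rfl
    rw [Blk.q, this]
    (clear * - a1 a2; positivity)
  · have a4 := rex_abs h5 h6 x b.its b.E
    have a5 : (((len b.its + 1) * b.offE : ℕ) : ℝ) ≤ ((2 * b.dl : ℕ) : ℝ) := by
      exact_mod_cast h7
    rw [len_eq] at a5
    push_cast at a5
    have a6 := neg_abs_le (rex b.BE b.offE x b.its b.E)
    have a7 : ((b.its.length : ℝ) + 1) * b.offE * rz2 x b.its ≤ 2 * b.dl * rz2 x b.its :=
      mul_le_mul_of_nonneg_right a5 a2
    rw [Blk.q]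
    linarith only [a1, a4, a6, a7]

lemma Blk.rep {b : Blk} {k : ℕ} {r : Rad} (h : b.ok k r = true) (x : Pnt) :
    Rep ((2 ^ k : ℕ) : ℤ) r x (b.N.add b.N) b.nmq ((b.vp : ℤ) - (b.vn : ℤ)) (b.q x) := by
  simp only [Blk.ok, Bool.and_eq_true, Nat.blt_eq] at h
  obtain ⟨⟨⟨⟨⟨⟨h1, _⟩, h3⟩, h4⟩, h5⟩, h6⟩, _⟩ := h
  have h3 := Nat.eq_of_beq_eq_true h3
  have h5 := Nat.eq_of_beq_eq_true h5
  have hg := gdb_sound h1
  have r1 := rep_sqs h3 h4 (x := x) b.its hg b.L (n := b.its.length) le_rfl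
  have r2 := rep_ex h5 h6 (x := x) b.its hg b.E (n := b.its.length) le_rfl
  have r3 := (rep_z2 (x := x) b.its hg).smul (b.dl : ℤ)
  have r4 := (r1.add r3).add r2
  have e1 : ((sqs b.B b.off b.its b.L (tot b.its) : ℕ) : ℤ) + (b.dl : ℤ) * ((z2 b.its : ℕ) : ℤ)
      + (((eps b.BE b.its b.E : ℕ) : ℤ) - ((ens b.offE b.its b.E (tot b.its) : ℕ) : ℤ)) =
      (b.vp : ℤ) - (b.vn : ℤ) := by
    have e2 : b.vp = sqs b.B b.off b.its b.L (tot b.its)
      + (dz2 b.dl b.its + eps b.BE b.its b.E) := rfl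
    rw [e2, Blk.vn, dz2_eq]; push_cast; ring
  have e3 : rsq b.B b.off x b.its b.L + ((b.dl : ℤ) : ℝ) * rz2 x b.its
      + rex b.BE b.offE x b.its b.E = b.q x := by
    rw [Blk.q]; push_cast; ring
  rw [e1, e3] at r4
  refine r4.mono (le_of_eq ?_)
  rw [Blk.nmq, len_eq, lenN_eq, lenN_eq]
  simp

structure Cert where
  k : ℕ
  r : Rad
  N : Bd
  s : ℕ
  target : Ex
  blocks : List Blk

/-- the integer point -/
def ipt (k : ℕ) (r : Rad) : IPt :=
  ⟨Int.ofNat (Nat.pow 2 (Nat.mul k r.ra)), Int.ofNat (Nat.pow 2 (Nat.mul k r.rb)),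
    Int.ofNat (Nat.pow 2 (Nat.mul k r.rd)), Int.ofNat (Nat.pow 2 (Nat.mul k r.re)),
    Int.ofNat (Nat.pow 2 k), Int.ofNat (Nat.pow 2 (Nat.mul k r.rg))⟩

lemma ipt_eq (k : ℕ) (r : Rad) : ipt k r = r.pt ((2 ^ k : ℕ) : ℤ) := by
  have h : ∀ n : ℕ, Int.ofNat (Nat.pow 2 (Nat.mul k n)) = ((2 ^ k : ℕ) : ℤ) ^ n := by
    intro n
    show (((2 ^ (k * n) : ℕ)) : ℤ) = _
    push_cast; rw [pow_mul]
  have h1 : Int.ofNat (Nat.pow 2 k) = ((2 ^ k : ℕ) : ℤ) := rfl
  rw [ipt, Rad.pt, h, h, h, h, h, h1]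

/-- sum of the values of the blocks -/
def bsum (X : IPt) : List Blk → ℤ
  | [] => 0
  | b :: bs => Int.add (Int.mul (b.mult.ev X) (Int.sub (Int.ofNat b.vp) (Int.ofNat b.vn)))
      (bsum X bs)

def bnm : List Blk → ℕ
  | [] => 0
  | b :: bs => Nat.add (Nat.mul b.mult.nm b.nmq) (bnm bs)

def bok (k : ℕ) (r : Rad) (N : Bd) : List Blk → Bool
  | [] => true
  | b :: bs => b.ok k r && (b.mult.bd.add (b.N.add b.N)).leb N && bok k r N bs

noncomputable def brs (x : Pnt) : List Blk → ℝ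
  | [] => 0
  | b :: bs => b.mult.re x * b.q x + brs x bs

/-- a test of equality of integers -/
def eqi : ℤ → ℤ → Bool
  | Int.ofNat a, Int.ofNat b => Nat.beq a b
  | Int.negSucc a, Int.negSucc b => Nat.beq a b
  | _, _ => false

lemma eqi_sound {a b : ℤ} (h : eqi a b = true) : a = b := by
  match a, b, h with
  | Int.ofNat a, Int.ofNat b, h => exact congrArg Int.ofNat (Nat.eq_of_beq_eq_true h)
  | Int.negSucc a, Int.negSucc b, h => exact congrArg Int.negSucc (Nat.eq_of_beq_eq_true h)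
  | Int.ofNat a, Int.negSucc b, h => exact absurd h (by simp [eqi])
  | Int.negSucc a, Int.ofNat b, h => exact absurd h (by simp [eqi])

def Cert.check (c : Cert) : Bool :=
  c.r.okb c.N && c.target.ok && c.target.bd.leb c.N && Nat.blt 0 c.s && bok c.k c.r c.N c.blocks &&
    Nat.blt (Nat.add (Nat.mul c.s c.target.nm) (bnm c.blocks)) (Nat.pow 2 c.k) &&
    eqi (Int.mul (Int.ofNat c.s) (c.target.ev (ipt c.k c.r))) (bsum (ipt c.k c.r) c.blocks)

lemma bsum_rep {k : ℕ} {r : Rad} {N : Bd} (bs : List Blk) (h : bok k r N bs = true) (x : Pnt) :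
    Rep ((2 ^ k : ℕ) : ℤ) r x N (bnm bs) (bsum (ipt k r) bs) (brs x bs) := by
  induction bs with
  | nil => exact Rep.zero _ _
  | cons b bs ih =>
    simp only [bok, Bool.and_eq_true] at h
    obtain ⟨⟨h1, h2⟩, h3⟩ := h
    have hm : b.mult.ok = true := by
      simp only [Blk.ok, Bool.and_eq_true] at h1
      exact h1.1.1.1.1.1.2
    have r1 := Ex.rep (w := ((2 ^ k : ℕ) : ℤ)) (r := r) (x := x) b.mult hm
    have r2 := ((r1.mul (Blk.rep h1 x)).le (Bd.leb_sound h2)).add (ih h3)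
    rw [← ipt_eq] at r2
    exact r2

theorem Cert.sound {c : Cert} (h : c.check = true) (x : Pnt) :
    (c.s : ℝ) * c.target.re x = brs x c.blocks := by
  simp only [Cert.check, Bool.and_eq_true, Nat.blt_eq] at h
  obtain ⟨⟨⟨⟨⟨⟨h1, h2⟩, h3⟩, h4⟩, h5⟩, h6⟩, h7⟩ := h
  have r1 := (Ex.rep (w := ((2 ^ c.k : ℕ) : ℤ)) (r := c.r) (x := x) c.target h2).le
    (Bd.leb_sound h3)
  have r2 := (bsum_rep c.blocks h5 x).smul (-1)
  have r3 := (r1.smul (c.s : ℤ)).add r2
  have e7 := eqi_sound h7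
  have e8 : (c.s : ℤ) * c.target.ev (c.r.pt ((2 ^ c.k : ℕ) : ℤ))
      + -1 * bsum (ipt c.k c.r) c.blocks = 0 := by
    rw [← ipt_eq]
    have : (c.s : ℤ) * c.target.ev (ipt c.k c.r) = bsum (ipt c.k c.r) c.blocks := e7
    rw [this]; ring
  rw [e8] at r3
  have r4 := r3.eq_zero (Rad.okb_sound h1) (by
    have h6' : c.s * c.target.nm + bnm c.blocks < 2 ^ c.k := h6
    simpa using h6')
  push_cast at r4
  (clear * - r4; linarith only [r4])

end Pool.Sos71

end

section

/-!
The same checker with the weights `S, C, P, R : 1`.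
-/

set_option autoImplicit false

namespace Pool.Sos71

def Mon.InW (m : Mon) (B : Bd) : Prop :=
  m.a ≤ B.a ∧ m.b ≤ B.b ∧ m.d ≤ B.d ∧ m.e ≤ B.e ∧ m.f ≤ B.f ∧ m.g ≤ B.g ∧
    m.b + m.c + m.d + m.e = B.w

lemma Mon.InW.add {m n : Mon} {B D : Bd} (h : m.InW B) (h' : n.InW D) : (m.add n).InW (B.add D) := by
  obtain ⟨h1, h2, h3, h4, h5, h6, h7⟩ := h
  obtain ⟨g1, g2, g3, g4, g5, g6, g7⟩ := h'
  refine ⟨Nat.add_le_add h1 g1, Nat.add_le_add h2 g2, Nat.add_le_add h3 g3,
    Nat.add_le_add h4 g4, Nat.add_le_add h5 g5, Nat.add_le_add h6 g6, ?_⟩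
  simp only [Mon.add, Bd.add]; omega

lemma Mon.InW.le {m : Mon} {B D : Bd} (h : m.InW B) (h' : B.le D) : m.InW D := by
  obtain ⟨h1, h2, h3, h4, h5, h6, h7⟩ := h
  obtain ⟨g1, g2, g3, g4, g5, g6, g7⟩ := h'
  exact ⟨h1.trans g1, h2.trans g2, h3.trans g3, h4.trans g4, h5.trans g5, h6.trans g6,
    h7.trans g7⟩

lemma code_injW {r : Rad} {B : Bd} (hr : r.ok B) {m n : Mon} (hm : m.InW B) (hn : n.InW B)
    (h : m.code r = n.code r) : m = n := by
  obtain ⟨r1, r2, r3, r4, r5⟩ := hr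
  obtain ⟨a1, a2, a3, a4, a5, a6, a7⟩ := hm
  obtain ⟨b1, b2, b3, b4, b5, b6, b7⟩ := hn
  simp only [Mon.code] at h
  have g1 : r.rg * m.g ≤ r.rg * B.g := Nat.mul_le_mul_left _ a6
  have g2 : r.rg * n.g ≤ r.rg * B.g := Nat.mul_le_mul_left _ b6
  have g3 : r.ra * m.a ≤ r.ra * B.a := Nat.mul_le_mul_left _ a1
  have g4 : r.ra * n.a ≤ r.ra * B.a := Nat.mul_le_mul_left _ b1
  have g5 : r.rb * m.b ≤ r.rb * B.b := Nat.mul_le_mul_left _ a2
  have g6 : r.rb * n.b ≤ r.rb * B.b := Nat.mul_le_mul_left _ b2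
  have g7 : r.rd * m.d ≤ r.rd * B.d := Nat.mul_le_mul_left _ a3
  have g8 : r.rd * n.d ≤ r.rd * B.d := Nat.mul_le_mul_left _ b3
  obtain ⟨e5, h5⟩ := dig_unique (r := r.re) (by omega) (by (clear * - m r5 b5 g2 g4 g6 g8; omega)) h
  obtain ⟨e4, h4⟩ := dig_unique (r := r.rd) (by (clear * - h r4 a5 g1 g3 g5 h5; omega)) (by omega) h5
  obtain ⟨e3, h3⟩ := dig_unique (r := r.rb) (by (clear * - h r3 a5 g1 g3 h5 h4; omega)) (by omega) h4
  obtain ⟨e2, h2⟩ := dig_unique (r := r.ra) (by (clear * - h r2 a5 g1 h5 h4 h3; omega)) (by omega) h3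
  obtain ⟨e1, h1⟩ := dig_unique (r := r.rg) (by omega) (by (clear * - m r1 b5; omega)) h2
  have e6 : m.c = n.c := by (clear * - r a7 b7 e5 e4 e3; omega)
  cases m; cases n
  simp_all

/-- `v` and `φ` are the values of one polynomial in the box `N` with norm at most `c` -/
def RepW (w : ℤ) (r : Rad) (x : Pnt) (N : Bd) (c : ℕ) (v : ℤ) (φ : ℝ) : Prop :=
  ∃ P : Pol, (∀ t ∈ P, t.2.InW N) ∧ P.nm ≤ c ∧ P.ev w r = v ∧ P.re x = φ

section RepW

variable {w : ℤ} {r : Rad} {x : Pnt}

lemma RepW.zero (N : Bd) (c : ℕ) : RepW w r x N c 0 0 :=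
  ⟨[], by simp, by simp [Pol.nm], by simp [Pol.ev], by simp [Pol.re]⟩

lemma RepW.mon (z : ℤ) {m : Mon} {N : Bd} (h : m.InW N) :
    RepW w r x N z.natAbs (z * w ^ m.code r) (z * m.val x) :=
  ⟨[(z, m)], by simpa using h, by simp [Pol.nm], by simp [Pol.ev], by simp [Pol.re]⟩

lemma RepW.add {N : Bd} {c c' : ℕ} {v v' : ℤ} {φ φ' : ℝ} (h : RepW w r x N c v φ)
    (h' : RepW w r x N c' v' φ') : RepW w r x N (c + c') (v + v') (φ + φ') := by
  obtain ⟨P, h1, h2, rfl, rfl⟩ := h
  obtain ⟨Q, g1, g2, rfl, rfl⟩ := h'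
  refine ⟨P ++ Q, ?_, ?_, ?_, ?_⟩
  · intro t ht
    rcases List.mem_append.1 ht with h | h
    · exact h1 t h
    · exact g1 t h
  · unfold Pol.nm at *
    rw [List.map_append, List.sum_append]; exact Nat.add_le_add h2 g2
  · unfold Pol.ev; rw [List.map_append, List.sum_append]
  · unfold Pol.re; rw [List.map_append, List.sum_append]

lemma RepW.mul {N N' : Bd} {c c' : ℕ} {v v' : ℤ} {φ φ' : ℝ} (h : RepW w r x N c v φ)
    (h' : RepW w r x N' c' v' φ') : RepW w r x (N.add N') (c * c') (v * v') (φ * φ') := by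
  obtain ⟨P, h1, h2, rfl, rfl⟩ := h
  obtain ⟨Q, g1, g2, rfl, rfl⟩ := h'
  refine ⟨P.mul Q, ?_, ?_, Pol.ev_mul _ _ _ _, Pol.re_mul _ _ _⟩
  · intro t ht
    obtain ⟨s, hs, ht⟩ := List.mem_flatMap.1 ht
    obtain ⟨q, hq, rfl⟩ := List.mem_map.1 ht
    exact (h1 s hs).add (g1 q hq)
  · rw [Pol.nm_mul]; exact Nat.mul_le_mul h2 g2

lemma RepW.smul {N : Bd} {c : ℕ} {v : ℤ} {φ : ℝ} (z : ℤ) (h : RepW w r x N c v φ) :
    RepW w r x N (z.natAbs * c) (z * v) (z * φ) := by
  obtain ⟨P, h1, h2, rfl, rfl⟩ := h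
  refine ⟨P.map fun t => (z * t.1, t.2), ?_, ?_, ?_, ?_⟩
  · intro t ht
    obtain ⟨s, hs, rfl⟩ := List.mem_map.1 ht
    exact h1 s hs
  · unfold Pol.nm at *
    rw [List.map_map]
    have : (P.map ((fun t : ℤ × Mon => t.1.natAbs) ∘ fun t => (z * t.1, t.2))).sum
        = z.natAbs * (P.map (fun t => t.1.natAbs)).sum := by
      rw [← List.sum_map_mul_left]
      congr 1
      refine List.map_congr_left (fun t _ => ?_)
      simp [Int.natAbs_mul]
    rw [this]; exact Nat.mul_le_mul_left _ h2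
  · unfold Pol.ev
    rw [List.map_map, ← List.sum_map_mul_left]
    congr 1
    refine List.map_congr_left (fun t _ => ?_)
    simp only [Function.comp]; ring
  · unfold Pol.re
    rw [List.map_map, ← List.sum_map_mul_left]
    congr 1
    refine List.map_congr_left (fun t _ => ?_)
    simp only [Function.comp]; push_cast; ring

lemma RepW.mono {N : Bd} {c c' : ℕ} {v : ℤ} {φ : ℝ} (h : RepW w r x N c v φ) (hc : c ≤ c') :
    RepW w r x N c' v φ := by
  obtain ⟨P, h1, h2, h3, h4⟩ := h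
  exact ⟨P, h1, h2.trans hc, h3, h4⟩

lemma RepW.le {N N' : Bd} {c : ℕ} {v : ℤ} {φ : ℝ} (h : RepW w r x N c v φ) (hN : N.le N') :
    RepW w r x N' c v φ := by
  obtain ⟨P, h1, h2, h3, h4⟩ := h
  exact ⟨P, fun t ht => (h1 t ht).le hN, h2, h3, h4⟩

end RepW

/-- the value determines the polynomial -/
theorem RepW.eq_zero {w : ℕ} {r : Rad} {x : Pnt} {N : Bd} {c : ℕ} {φ : ℝ}
    (hr : r.ok N) (h : RepW (w : ℤ) r x N c 0 φ) (hc : c < w) : φ = 0 := by
  classical
  obtain ⟨P, h1, h2, h3, rfl⟩ := h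
  have h4 : uni r P = 0 := by
    apply poly_zero (w := w)
    · intro k
      exact lt_of_le_of_lt ((uni_coeff r P k).trans h2) hc
    · rw [uni_eval]; exact h3
  set F : ℕ → ℝ := fun k => if h : ∃ m : Mon, m.InW N ∧ m.code r = k then h.choose.val x else 0
    with hF
  have h5 : ∀ t ∈ P, t.2.val x = F (t.2.code r) := by
    intro t ht
    have h6 : ∃ m : Mon, m.InW N ∧ m.code r = t.2.code r := ⟨t.2, h1 t ht, rfl⟩
    have h7 := h6.choose_spec
    rw [hF]
    simp only
    rw [dif_pos h6, code_injW hr h7.1 (h1 t ht) h7.2]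
  have h8 : P.re x = (P.map fun t => (t.1 : ℝ) * F (t.2.code r)).sum := by
    unfold Pol.re
    congr 1
    refine List.map_congr_left (fun t ht => ?_)
    rw [h5 t ht]
  rw [h8, uni_sum, h4, Polynomial.sum_zero_index]

/-- box of the exponents -/
def Ex.bdW : Ex → Bd
  | lit _ => ⟨0, 0, 0, 0, 0, 0, 0⟩
  | va i => match i with
    | 0 => ⟨1, 0, 0, 0, 0, 0, 0⟩
    | 1 => ⟨0, 1, 0, 0, 0, 0, 1⟩
    | 2 => ⟨0, 0, 0, 0, 0, 0, 1⟩
    | 3 => ⟨0, 0, 1, 0, 0, 0, 1⟩
    | 4 => ⟨0, 0, 0, 1, 0, 0, 1⟩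
    | 5 => ⟨0, 0, 0, 0, 1, 0, 0⟩
    | _ => ⟨0, 0, 0, 0, 0, 1, 0⟩
  | add p q => p.bdW.max q.bdW
  | mul p q => p.bdW.add q.bdW
  | sc _ p => p.bdW
  | pow p n => p.bdW.smul n
  | bp P => ⟨0, 0, 0, 0, dgx P, dgy P, 0⟩

/-- homogeneity -/
def Ex.okW : Ex → Bool
  | lit _ => true
  | va _ => true
  | add p q => p.okW && q.okW && Nat.beq p.bdW.w q.bdW.w
  | mul p q => p.okW && q.okW
  | sc _ p => p.okW
  | pow p _ => p.okW
  | bp _ => true

lemma RepW.of_mon {w : ℤ} {r : Rad} {x : Pnt} {m : Mon} {N : Bd} (h : m.InW N) {v : ℤ} {φ : ℝ}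
    (hv : v = w ^ m.code r) (hφ : φ = m.val x) : RepW w r x N 1 v φ := by
  have := RepW.mon (w := w) (r := r) (x := x) 1 h
  rw [hv, hφ]
  simpa using this

lemma RepW.b1 {w : ℤ} {r : Rad} {x : Pnt} (l : List ℤ) :
    RepW w r x ⟨0, 0, 0, 0, 0, dg1 l, 0⟩ (nm1 l) (iev1 (w ^ r.rg) l) (Pool.EK71.ev1 x.g l) := by
  induction l with
  | nil => exact RepW.zero _ _
  | cons a l ih =>
    have h0 : (⟨0, 0, 0, 0, 0, 0, 0⟩ : Mon).InW ⟨0, 0, 0, 0, 0, dg1 (a :: l), 0⟩ := by
      simp [Mon.InW]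
    have h1 := RepW.mon (w := w) (r := r) (x := x) a h0
    simp only [Mon.code, Mon.val, mul_zero, add_zero, pow_zero, mul_one] at h1
    cases l with
    | nil =>
      have h2 := h1.add (RepW.zero (w := w) (r := r) (x := x) ⟨0, 0, 0, 0, 0, dg1 [a], 0⟩ 0)
      have e1 : iev1 (w ^ r.rg) [a] = a + 0 := by simp [iev1]
      have e2 : Pool.EK71.ev1 x.g [a] = a + 0 := by simp [Pool.EK71.ev1]
      rw [e1, e2]
      exact h2
    | cons b l =>
      have h2 := RepW.of_mon (w := w) (r := r) (x := x) (m := ⟨0, 0, 0, 0, 0, 0, 1⟩)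
        (N := ⟨0, 0, 0, 0, 0, 1, 0⟩) (by simp [Mon.InW]) (v := w ^ r.rg) (φ := x.g)
        (by simp [Mon.code]) (by simp [Mon.val])
      have h3 := h1.add ((h2.mul ih).le (N' := ⟨0, 0, 0, 0, 0, dg1 (a :: b :: l), 0⟩) (by
        refine ⟨by simp [Bd.add], by simp [Bd.add], by simp [Bd.add], by simp [Bd.add],
          by simp [Bd.add], ?_, by simp [Bd.add]⟩
        show 1 + dg1 (b :: l) ≤ Nat.succ (dg1 (b :: l))
        omega))
      rw [one_mul] at h3
      exact h3

lemma RepW.b2 {w : ℤ} {r : Rad} {x : Pnt} (P : List (List ℤ)) :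
    RepW w r x ⟨0, 0, 0, 0, dgx P, dgy P, 0⟩ (nm2 P) (iev2 w (w ^ r.rg) P)
      (Pool.EK71.ev2 x.f x.g P) := by
  induction P with
  | nil => exact RepW.zero _ _
  | cons a l ih =>
    have h1 := (RepW.b1 (w := w) (r := r) (x := x) a).le
      (N' := ⟨0, 0, 0, 0, dgx (a :: l), dgy (a :: l), 0⟩)
      ⟨le_rfl, le_rfl, le_rfl, le_rfl, Nat.zero_le _, Nat.le_max_left _ _, rfl⟩
    cases l with
    | nil =>
      have h2 := h1.add (RepW.zero (w := w) (r := r) (x := x) ⟨0, 0, 0, 0, dgx [a], dgy [a], 0⟩ 0)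
      have e1 : iev2 w (w ^ r.rg) [a] = iev1 (w ^ r.rg) a + 0 := by simp [iev2]
      have e2 : Pool.EK71.ev2 x.f x.g [a] = Pool.EK71.ev1 x.g a + 0 := by simp [Pool.EK71.ev2]
      rw [e1, e2]
      exact h2
    | cons b l =>
      have h2 := RepW.of_mon (w := w) (r := r) (x := x) (m := ⟨0, 0, 0, 0, 0, 1, 0⟩)
        (N := ⟨0, 0, 0, 0, 1, 0, 0⟩) (by simp [Mon.InW]) (v := w) (φ := x.f)
        (by simp [Mon.code]) (by simp [Mon.val])
      have h3 := h1.add ((h2.mul ih).le
        (N' := ⟨0, 0, 0, 0, dgx (a :: b :: l), dgy (a :: b :: l), 0⟩) (by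
        refine ⟨by simp [Bd.add], by simp [Bd.add], by simp [Bd.add], by simp [Bd.add],
          ?_, ?_, by simp [Bd.add]⟩
        · show 1 + dgx (b :: l) ≤ Nat.succ (dgx (b :: l))
          omega
        · show 0 + dgy (b :: l) ≤ Nat.max (dg1 a) (dgy (b :: l))
          rw [Nat.zero_add]
          exact Nat.le_max_right _ _))
      rw [one_mul] at h3
      exact h3

lemma Ex.repW {w : ℤ} {r : Rad} {x : Pnt} (e : Ex) (h : e.okW = true) :
    RepW w r x e.bdW e.nm (e.ev (r.pt w)) (e.re x) := by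
  induction e with
  | lit z =>
    have h1 : (⟨0, 0, 0, 0, 0, 0, 0⟩ : Mon).InW ⟨0, 0, 0, 0, 0, 0, 0⟩ := by simp [Mon.InW]
    have := RepW.mon (w := w) (r := r) (x := x) z h1
    simpa [Mon.code, Mon.val, Ex.ev, Ex.re, Ex.nm, Ex.bdW] using this
  | va i =>
    match i with
    | 0 => exact RepW.of_mon (m := ⟨1, 0, 0, 0, 0, 0, 0⟩) (by simp [Mon.InW, Ex.bdW])
            (by simp [Ex.ev, Rad.pt, Mon.code]) (by simp [Ex.re, Mon.val])
    | 1 => exact RepW.of_mon (m := ⟨0, 1, 0, 0, 0, 0, 0⟩) (by simp [Mon.InW, Ex.bdW])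
            (by simp [Ex.ev, Rad.pt, Mon.code]) (by simp [Ex.re, Mon.val])
    | 2 => exact RepW.of_mon (m := ⟨0, 0, 1, 0, 0, 0, 0⟩) (by simp [Mon.InW, Ex.bdW])
            (by simp [Ex.ev, Mon.code]) (by simp [Ex.re, Mon.val])
    | 3 => exact RepW.of_mon (m := ⟨0, 0, 0, 1, 0, 0, 0⟩) (by simp [Mon.InW, Ex.bdW])
            (by simp [Ex.ev, Rad.pt, Mon.code]) (by simp [Ex.re, Mon.val])
    | 4 => exact RepW.of_mon (m := ⟨0, 0, 0, 0, 1, 0, 0⟩) (by simp [Mon.InW, Ex.bdW])
            (by simp [Ex.ev, Rad.pt, Mon.code]) (by simp [Ex.re, Mon.val])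
    | 5 => exact RepW.of_mon (m := ⟨0, 0, 0, 0, 0, 1, 0⟩) (by simp [Mon.InW, Ex.bdW])
            (by simp [Ex.ev, Rad.pt, Mon.code]) (by simp [Ex.re, Mon.val])
    | (k + 6) =>
      exact RepW.of_mon (m := ⟨0, 0, 0, 0, 0, 0, 1⟩) (by simp [Mon.InW, Ex.bdW])
        (by simp [Ex.ev, Rad.pt, Mon.code]) (by simp [Ex.re, Mon.val])
  | add p q ihp ihq =>
    simp only [Ex.okW, Bool.and_eq_true] at h
    obtain ⟨⟨h1, h2⟩, h3⟩ := h
    have h3 := Nat.eq_of_beq_eq_true h3
    exact ((ihp h1).le (Bd.le_max_left _ _)).add ((ihq h2).le (Bd.le_max_right _ _ h3))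
  | mul p q ihp ihq =>
    simp only [Ex.okW, Bool.and_eq_true] at h
    exact (ihp h.1).mul (ihq h.2)
  | sc z p ih =>
    simp only [Ex.okW] at h
    exact (ih h).smul z
  | pow p n ih =>
    simp only [Ex.okW] at h
    have ih := ih h
    show RepW w r x (p.bdW.smul n) (npow p.nm n) (ipow (p.ev (r.pt w)) n) (p.re x ^ n)
    induction n with
    | zero =>
      have h1 : (⟨0, 0, 0, 0, 0, 0, 0⟩ : Mon).InW (p.bdW.smul 0) := by simp [Mon.InW, Bd.smul]
      have := RepW.of_mon (w := w) (r := r) (x := x) h1 (v := 1) (φ := 1) (by simp [Mon.code])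
        (by simp [Mon.val])
      simpa [npow, ipow] using this
    | succ n ihn =>
      have h2 := ih.mul ihn
      have e1 : p.bdW.add (p.bdW.smul n) = p.bdW.smul (n + 1) := by
        simp only [Bd.add, Bd.smul]
        congr 1 <;> ring
      rw [e1] at h2
      rw [pow_succ, mul_comm (p.re x ^ n)]
      exact h2
  | bp P => exact RepW.b2 P

section rep

variable {k : ℕ} {r : Rad} {N : Bd} {nf : ℕ}

/-- the shifts are right, the monomials are in the box, the norm is at most `nf` -/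
def Itm.OkW (k : ℕ) (r : Rad) (N : Bd) (nf : ℕ) (i : Itm) : Prop :=
  (i.m.add i.f.m1).InW N ∧ (i.m.add i.f.m2).InW N ∧ i.a = k * i.m.code r ∧
    i.f.b1 = k * i.f.m1.code r ∧ i.f.b2 = k * i.f.m2.code r ∧ i.f.c + i.f.d ≤ nf ∧
    (i.f.s = true → i.f.d <<< i.f.b2 ≤ i.f.c <<< i.f.b1)

def GdW (k : ℕ) (r : Rad) (N : Bd) (nf : ℕ) : List Itm → Prop
  | [] => True
  | i :: it => i.OkW k r N nf ∧ i.f.V = eb (i :: it) ∧ GdW k r N nf it

lemma lin_eqW {B : ℕ} (it : List Itm) (h : GdW k r N nf it) (p acc : ℕ) :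
    lin B it p acc = acc * eb it + sd B it p := by
  induction it generalizing p acc with
  | nil => simp [lin, eb, sd]
  | cons i it ih =>
    obtain ⟨_, h3, h4⟩ := h
    rw [lin, sd, Itm.v_eq, h3]
    rw [eb] at h3 ⊢
    rcases ho : i.e with _ | _
    · simp only [ho] at h3 ⊢
      rw [ih h4]
      show (acc + (p % B) <<< i.a) * eb it + sd B it (p / B) = _
      rw [Nat.shiftLeft_eq]; ring
    · simp only [ho] at h3 ⊢
      rw [ih h4, Fac.ap_eq]
      show (acc + (p % B) <<< i.a) * i.f.V + (0 * eb it + sd B it (p / B)) = _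
      rw [Nat.shiftLeft_eq]; ring

lemma rep_itemW {i : Itm} (h : i.OkW k r N nf) {x : Pnt} :
    RepW ((2 ^ k : ℕ) : ℤ) r x N nf (i.v : ℤ) (i.re x) := by
  obtain ⟨h1, h2, h3, h4, h5, h6, h7⟩ := h
  have r1 := RepW.mon (w := ((2 ^ k : ℕ) : ℤ)) (r := r) (x := x) (i.f.c : ℤ) h1
  rw [two_pow_code, Mon.code_add, Mon.val_add] at r1
  unfold Itm.re Fac.re
  rw [Itm.v_eq]
  unfold Fac.V Fac.ap
  rcases hs : i.f.s with _ | _
  · have r2 := RepW.mon (w := ((2 ^ k : ℕ) : ℤ)) (r := r) (x := x) (i.f.d : ℤ) h2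
    rw [two_pow_code, Mon.code_add, Mon.val_add] at r2
    have r3 := (r1.add r2).mono (c' := nf) (by simpa using h6)
    have e1 : (i.f.c : ℤ) * ((2 ^ (k * (i.m.code r + i.f.m1.code r)) : ℕ) : ℤ)
        + (i.f.d : ℤ) * ((2 ^ (k * (i.m.code r + i.f.m2.code r)) : ℕ) : ℤ) =
        ((2 ^ i.a * (Nat.add (Nat.shiftLeft (Nat.mul i.f.c 1) i.f.b1)
          (Nat.shiftLeft (Nat.mul i.f.d 1) i.f.b2)) : ℕ) : ℤ) := by
      show _ = ((2 ^ i.a * ((i.f.c * 1) <<< i.f.b1 + (i.f.d * 1) <<< i.f.b2) : ℕ) : ℤ)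
      rw [Nat.shiftLeft_eq, Nat.shiftLeft_eq, h3, h4, h5, Nat.mul_add k, Nat.mul_add k, pow_add,
        pow_add]
      push_cast; ring
    rw [e1] at r3
    have e2 : ((i.f.c : ℤ) : ℝ) * (i.m.val x * i.f.m1.val x)
        + ((i.f.d : ℤ) : ℝ) * (i.m.val x * i.f.m2.val x) =
        i.m.val x * (i.f.c * i.f.m1.val x + i.f.d * i.f.m2.val x) := by
      push_cast; ring
    rw [e2] at r3
    exact r3
  · have r2 := RepW.mon (w := ((2 ^ k : ℕ) : ℤ)) (r := r) (x := x) (-(i.f.d : ℤ)) h2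
    rw [two_pow_code, Mon.code_add, Mon.val_add] at r2
    have r3 := (r1.add r2).mono (c' := nf) (by simpa using h6)
    have h8 := h7 hs
    have e1 : (i.f.c : ℤ) * ((2 ^ (k * (i.m.code r + i.f.m1.code r)) : ℕ) : ℤ)
        + -(i.f.d : ℤ) * ((2 ^ (k * (i.m.code r + i.f.m2.code r)) : ℕ) : ℤ) =
        ((2 ^ i.a * (Nat.sub (Nat.shiftLeft (Nat.mul i.f.c 1) i.f.b1)
          (Nat.shiftLeft (Nat.mul i.f.d 1) i.f.b2)) : ℕ) : ℤ) := by
      show _ = ((2 ^ i.a * ((i.f.c * 1) <<< i.f.b1 - (i.f.d * 1) <<< i.f.b2) : ℕ) : ℤ)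
      rw [Nat.cast_mul, Nat.cast_sub (by rw [mul_one, mul_one]; exact h8)]
      rw [Nat.shiftLeft_eq, Nat.shiftLeft_eq, h3, h4, h5, Nat.mul_add k, Nat.mul_add k, pow_add,
        pow_add]
      push_cast; ring
    rw [e1] at r3
    have e2 : ((i.f.c : ℤ) : ℝ) * (i.m.val x * i.f.m1.val x)
        + ((-(i.f.d : ℤ) : ℤ) : ℝ) * (i.m.val x * i.f.m2.val x) =
        i.m.val x * (i.f.c * i.f.m1.val x - i.f.d * i.f.m2.val x) := by
      push_cast; ring
    rw [e2] at r3
    exact r3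

lemma rep_linW {B off : ℕ} (hB : B = 2 * off) (h0 : 0 < off) {x : Pnt} (it : List Itm)
    (h : GdW k r N nf it) (p : ℕ) :
    RepW ((2 ^ k : ℕ) : ℤ) r x N (it.length * (off * nf)) ((sd B it p : ℤ) - off * (tot it : ℤ))
      (rl B off x it p) := by
  induction it generalizing p with
  | nil =>
    have := RepW.zero (w := ((2 ^ k : ℕ) : ℤ)) (r := r) (x := x) N 0
    simpa [sd, tot, rl] using this
  | cons i it ih =>
    have h1 := rep_itemW h.1 (x := x)
    have h2 := (h1.smul (((p % B : ℕ) : ℤ) - off)).add (ih h.2.2 (p / B))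
    have h3 : (((p % B : ℕ) : ℤ) - off).natAbs ≤ off := by
      have : p % B < B := Nat.mod_lt _ (by omega)
      omega
    have e1 : (((p % B : ℕ) : ℤ) - off) * (i.v : ℤ)
        + ((sd B it (p / B) : ℤ) - off * (tot it : ℤ)) =
        ((sd B (i :: it) p : ℕ) : ℤ) - off * ((tot (i :: it) : ℕ) : ℤ) := by
      have e2 : tot (i :: it) = i.v + tot it := rfl
      rw [sd, e2]
      generalize p % B = d
      push_cast; ring
    have e3 : (((((p % B : ℕ) : ℤ) - off : ℤ)) : ℝ) * i.re x + rl B off x it (p / B) =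
        rl B off x (i :: it) p := by
      rw [rl]
      generalize p % B = d
      push_cast; ring
    rw [e1, e3] at h2
    refine h2.mono ?_
    rw [List.length_cons]
    (clear * - h3; nlinarith only [h3])

lemma rep_sqsW {B off : ℕ} (hB : B = 2 * off) (h0 : 0 < off) {x : Pnt} (it : List Itm)
    (h : GdW k r N nf it) (Ls : List ℕ) {n : ℕ} (hn : it.length ≤ n) :
    RepW ((2 ^ k : ℕ) : ℤ) r x (N.add N) (Ls.length * ((n * (off * nf)) * (n * (off * nf))))
      ((sqs B off it Ls (tot it) : ℕ) : ℤ) (rsq B off x it Ls) := by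
  induction it generalizing Ls with
  | nil => exact (RepW.zero _ _)
  | cons i it ih =>
    cases Ls with
    | nil => exact (RepW.zero _ _)
    | cons L Ls =>
      have h1 := rep_linW hB h0 (x := x) (i :: it) h L
      have h2 := (h1.mono (Nat.mul_le_mul_right (off * nf) hn))
      have h3 := (h2.mul h2).add (ih h.2.2 Ls ((Nat.le_succ _).trans hn))
      have e1 : ((sqs B off (i :: it) (L :: Ls) (tot (i :: it)) : ℕ) : ℤ) =
          ((sd B (i :: it) L : ℤ) - off * (tot (i :: it) : ℤ))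
            * ((sd B (i :: it) L : ℤ) - off * (tot (i :: it) : ℤ))
          + ((sqs B off it Ls (tot it) : ℕ) : ℤ) := by
        rw [sqs, tot_sub, lin_eqW (i :: it) h, zero_mul, zero_add]
        show ((sqd (sd B (i :: it) L) (off * tot (i :: it)) + sqs B off it Ls (tot it) : ℕ) : ℤ) = _
        push_cast
        rw [sqd_eq]
        push_cast; ring
      have e2 : rl B off x (i :: it) L * rl B off x (i :: it) L + rsq B off x it Ls =
          rsq B off x (i :: it) (L :: Ls) := by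
        rw [rsq]; ring
      rw [← e1, e2] at h3
      refine h3.mono (le_of_eq ?_)
      rw [List.length_cons]; ring

lemma rep_exW {B off : ℕ} (hB : B = 2 * off) (h0 : 0 < off) {x : Pnt} (it : List Itm)
    (h : GdW k r N nf it) (Es : List ℕ) {n : ℕ} (hn : it.length ≤ n) :
    RepW ((2 ^ k : ℕ) : ℤ) r x (N.add N) (Es.length * ((n * (off * nf)) * nf))
      (((eps B it Es : ℕ) : ℤ) - ((ens off it Es (tot it) : ℕ) : ℤ)) (rex B off x it Es) := by
  induction it generalizing Es with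
  | nil => exact (RepW.zero _ _)
  | cons i it ih =>
    cases Es with
    | nil => exact (RepW.zero _ _)
    | cons E Es =>
      have h1 := rep_linW hB h0 (x := x) (i :: it) h E
      have h2 := (h1.mono (Nat.mul_le_mul_right (off * nf) hn))
      have h3 := (h2.mul (rep_itemW h.1 (x := x))).add (ih h.2.2 Es ((Nat.le_succ _).trans hn))
      have e1 : ((eps B (i :: it) (E :: Es) : ℕ) : ℤ)
            - ((ens off (i :: it) (E :: Es) (tot (i :: it)) : ℕ) : ℤ) =
          ((sd B (i :: it) E : ℤ) - off * (tot (i :: it) : ℤ)) * (i.v : ℤ)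
          + (((eps B it Es : ℕ) : ℤ) - ((ens off it Es (tot it) : ℕ) : ℤ)) := by
        rw [eps, ens, tot_sub, lin_eqW (i :: it) h, zero_mul, zero_add, Itm.ap_eq, Itm.ap_eq]
        show ((sd B (i :: it) E * i.v + eps B it Es : ℕ) : ℤ)
          - (((off * tot (i :: it)) * i.v + ens off it Es (tot it) : ℕ) : ℤ) = _
        push_cast; ring
      have e2 : rl B off x (i :: it) E * i.re x + rex B off x it Es =
          rex B off x (i :: it) (E :: Es) := rfl
      rw [← e1, e2] at h3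
      refine h3.mono (le_of_eq ?_)
      rw [List.length_cons]; ring

lemma rep_z2W {x : Pnt} (it : List Itm) (h : GdW k r N nf it) :
    RepW ((2 ^ k : ℕ) : ℤ) r x (N.add N) (it.length * (nf * nf)) ((z2 it : ℕ) : ℤ)
      (rz2 x it) := by
  induction it with
  | nil => exact (RepW.zero _ _)
  | cons i it ih =>
    have h1 := rep_itemW h.1 (x := x)
    have h2 := (h1.mul h1).add (ih h.2.2)
    have e1 : ((z2 (i :: it) : ℕ) : ℤ) = (i.v : ℤ) * (i.v : ℤ) + ((z2 it : ℕ) : ℤ) := by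
      rw [z2]
      show ((i.v * i.v + z2 it : ℕ) : ℤ) = _
      push_cast; ring
    have e2 : i.re x * i.re x + rz2 x it = rz2 x (i :: it) := by rw [rz2]; ring
    rw [← e1, e2] at h2
    refine h2.mono (le_of_eq ?_)
    rw [List.length_cons]; ring

end rep

def Mon.inbW (m : Mon) (B : Bd) : Bool :=
  Nat.ble m.a B.a && Nat.ble m.b B.b && Nat.ble m.d B.d && Nat.ble m.e B.e &&
    Nat.ble m.f B.f && Nat.ble m.g B.g && Nat.beq (m.b + m.c + m.d + m.e) B.w

lemma Mon.inbW_sound {m : Mon} {B : Bd} (h : m.inbW B = true) : m.InW B := by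
  simp only [Mon.inbW, Bool.and_eq_true, Nat.ble_eq] at h
  obtain ⟨⟨⟨⟨⟨⟨h1, h2⟩, h3⟩, h4⟩, h5⟩, h6⟩, h7⟩ := h
  exact ⟨h1, h2, h3, h4, h5, h6, Nat.eq_of_beq_eq_true h7⟩

def Itm.okbW (k : ℕ) (r : Rad) (N : Bd) (nf : ℕ) (i : Itm) : Bool :=
  (i.m.add i.f.m1).inbW N && (i.m.add i.f.m2).inbW N && Nat.beq i.a (k * i.m.code r) &&
    Nat.beq i.f.b1 (k * i.f.m1.code r) && Nat.beq i.f.b2 (k * i.f.m2.code r) &&
    Nat.ble (i.f.c + i.f.d) nf &&
    (match i.f.s with
      | false => true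
      | true => Nat.ble (Nat.shiftLeft i.f.d i.f.b2) (Nat.shiftLeft i.f.c i.f.b1))

lemma Itm.okbW_sound {k : ℕ} {r : Rad} {N : Bd} {nf : ℕ} {i : Itm} (h : i.okbW k r N nf = true) :
    i.OkW k r N nf := by
  simp only [Itm.okbW, Bool.and_eq_true] at h
  obtain ⟨⟨⟨⟨⟨⟨h1, h2⟩, h3⟩, h4⟩, h5⟩, h6⟩, h7⟩ := h
  refine ⟨Mon.inbW_sound h1, Mon.inbW_sound h2, Nat.eq_of_beq_eq_true h3,
    Nat.eq_of_beq_eq_true h4, Nat.eq_of_beq_eq_true h5, Nat.le_of_ble_eq_true h6, ?_⟩
  intro hs
  rw [hs] at h7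
  exact Nat.le_of_ble_eq_true h7

def gdbW (k : ℕ) (r : Rad) (N : Bd) (nf : ℕ) : List Itm → Bool
  | [] => true
  | i :: it => i.okbW k r N nf && (i.e || nxt i it) && gdbW k r N nf it

lemma gdbW_sound {k : ℕ} {r : Rad} {N : Bd} {nf : ℕ} {it : List Itm}
    (h : gdbW k r N nf it = true) : GdW k r N nf it := by
  induction it with
  | nil => trivial
  | cons i it ih =>
    simp only [gdbW, Bool.and_eq_true, Bool.or_eq_true] at h
    obtain ⟨⟨h1, h2⟩, h3⟩ := h
    have h4 := ih h3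
    refine ⟨Itm.okbW_sound h1, ?_, h4⟩
    rw [eb]
    rcases he : i.e with _ | _
    · rw [he] at h2
      cases it with
      | nil => simp [nxt] at h2
      | cons j it =>
        have h5 : eqF i.f j.f = true := by simpa [nxt] using h2
        show i.f.V = eb (j :: it)
        rw [eqF_sound h5]
        exact h4.2.1
    · rfl

def Blk.okW (b : Blk) (k : ℕ) (r : Rad) : Bool :=
  gdbW k r b.N b.nf b.its && b.mult.okW && Nat.beq b.B (2 * b.off) && Nat.blt 0 b.off &&
    Nat.beq b.BE (2 * b.offE) && Nat.blt 0 b.offE &&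
    (emp b.E || Nat.ble ((len b.its + 1) * b.offE) (2 * b.dl))

lemma Blk.q_nonnegW {b : Blk} {k : ℕ} {r : Rad} (h : b.okW k r = true) (x : Pnt) : 0 ≤ b.q x := by
  simp only [Blk.okW, Bool.and_eq_true, Bool.or_eq_true, Nat.blt_eq, Nat.ble_eq] at h
  obtain ⟨⟨⟨⟨⟨⟨_, _⟩, _⟩, _⟩, h5⟩, h6⟩, h7⟩ := h
  have h5 := Nat.eq_of_beq_eq_true h5
  have a1 := rsq_nonneg b.B b.off x b.its b.L
  have a2 := rz2_nonneg x b.its
  have a3 : (0 : ℝ) ≤ b.dl := Nat.cast_nonneg _
  rcases h7 with h7 | h7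
  · have hE : b.E = [] := by
      cases hE : b.E with
      | nil => rfl
      | cons a l => rw [hE] at h7; simp [emp] at h7
    have : rex b.BE b.offE x b.its b.E = 0 := by
      rw [hE]
      cases b.its <;> rfl
    rw [Blk.q, this]
    (clear * - a1 a2; positivity)
  · have a4 := rex_abs h5 h6 x b.its b.E
    have a5 : (((len b.its + 1) * b.offE : ℕ) : ℝ) ≤ ((2 * b.dl : ℕ) : ℝ) := by
      exact_mod_cast h7
    rw [len_eq] at a5
    push_cast at a5
    have a6 := neg_abs_le (rex b.BE b.offE x b.its b.E)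
    have a7 : ((b.its.length : ℝ) + 1) * b.offE * rz2 x b.its ≤ 2 * b.dl * rz2 x b.its :=
      mul_le_mul_of_nonneg_right a5 a2
    rw [Blk.q]
    linarith only [a1, a4, a6, a7]

lemma Blk.repW {b : Blk} {k : ℕ} {r : Rad} (h : b.okW k r = true) (x : Pnt) :
    RepW ((2 ^ k : ℕ) : ℤ) r x (b.N.add b.N) b.nmq ((b.vp : ℤ) - (b.vn : ℤ)) (b.q x) := by
  simp only [Blk.okW, Bool.and_eq_true, Nat.blt_eq] at h
  obtain ⟨⟨⟨⟨⟨⟨h1, _⟩, h3⟩, h4⟩, h5⟩, h6⟩, _⟩ := h
  have h3 := Nat.eq_of_beq_eq_true h3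
  have h5 := Nat.eq_of_beq_eq_true h5
  have hg := gdbW_sound h1
  have r1 := rep_sqsW h3 h4 (x := x) b.its hg b.L (n := b.its.length) le_rfl
  have r2 := rep_exW h5 h6 (x := x) b.its hg b.E (n := b.its.length) le_rfl
  have r3 := (rep_z2W (x := x) b.its hg).smul (b.dl : ℤ)
  have r4 := (r1.add r3).add r2
  have e1 : ((sqs b.B b.off b.its b.L (tot b.its) : ℕ) : ℤ) + (b.dl : ℤ) * ((z2 b.its : ℕ) : ℤ)
      + (((eps b.BE b.its b.E : ℕ) : ℤ) - ((ens b.offE b.its b.E (tot b.its) : ℕ) : ℤ)) =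
      (b.vp : ℤ) - (b.vn : ℤ) := by
    have e2 : b.vp = sqs b.B b.off b.its b.L (tot b.its)
      + (dz2 b.dl b.its + eps b.BE b.its b.E) := rfl
    rw [e2, Blk.vn, dz2_eq]; push_cast; ring
  have e3 : rsq b.B b.off x b.its b.L + ((b.dl : ℤ) : ℝ) * rz2 x b.its
      + rex b.BE b.offE x b.its b.E = b.q x := by
    rw [Blk.q]; push_cast; ring
  rw [e1, e3] at r4
  refine r4.mono (le_of_eq ?_)
  rw [Blk.nmq, len_eq, lenN_eq, lenN_eq]
  simp

def bokW (k : ℕ) (r : Rad) (N : Bd) : List Blk → Bool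
  | [] => true
  | b :: bs => b.okW k r && (b.mult.bdW.add (b.N.add b.N)).leb N && bokW k r N bs

def Cert.checkW (c : Cert) : Bool :=
  c.r.okb c.N && c.target.okW && c.target.bdW.leb c.N && Nat.blt 0 c.s && bokW c.k c.r c.N c.blocks &&
    Nat.blt (Nat.add (Nat.mul c.s c.target.nm) (bnm c.blocks)) (Nat.pow 2 c.k) &&
    eqi (Int.mul (Int.ofNat c.s) (c.target.ev (ipt c.k c.r))) (bsum (ipt c.k c.r) c.blocks)

lemma bsum_repW {k : ℕ} {r : Rad} {N : Bd} (bs : List Blk) (h : bokW k r N bs = true) (x : Pnt) :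
    RepW ((2 ^ k : ℕ) : ℤ) r x N (bnm bs) (bsum (ipt k r) bs) (brs x bs) := by
  induction bs with
  | nil => exact RepW.zero _ _
  | cons b bs ih =>
    simp only [bokW, Bool.and_eq_true] at h
    obtain ⟨⟨h1, h2⟩, h3⟩ := h
    have hm : b.mult.okW = true := by
      simp only [Blk.okW, Bool.and_eq_true] at h1
      exact h1.1.1.1.1.1.2
    have r1 := Ex.repW (w := ((2 ^ k : ℕ) : ℤ)) (r := r) (x := x) b.mult hm
    have r2 := ((r1.mul (Blk.repW h1 x)).le (Bd.leb_sound h2)).add (ih h3)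
    rw [← ipt_eq] at r2
    exact r2

theorem Cert.soundW {c : Cert} (h : c.checkW = true) (x : Pnt) :
    (c.s : ℝ) * c.target.re x = brs x c.blocks := by
  simp only [Cert.checkW, Bool.and_eq_true, Nat.blt_eq] at h
  obtain ⟨⟨⟨⟨⟨⟨h1, h2⟩, h3⟩, h4⟩, h5⟩, h6⟩, h7⟩ := h
  have r1 := (Ex.repW (w := ((2 ^ c.k : ℕ) : ℤ)) (r := c.r) (x := x) c.target h2).le
    (Bd.leb_sound h3)
  have r2 := (bsum_repW c.blocks h5 x).smul (-1)
  have r3 := (r1.smul (c.s : ℤ)).add r2
  have e7 := eqi_sound h7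
  have e8 : (c.s : ℤ) * c.target.ev (c.r.pt ((2 ^ c.k : ℕ) : ℤ))
      + -1 * bsum (ipt c.k c.r) c.blocks = 0 := by
    rw [← ipt_eq]
    have : (c.s : ℤ) * c.target.ev (ipt c.k c.r) = bsum (ipt c.k c.r) c.blocks := e7
    rw [this]; ring
  rw [e8] at r3
  have r4 := r3.eq_zero (Rad.okb_sound h1) (by
    have h6' : c.s * c.target.nm + bnm c.blocks < 2 ^ c.k := h6
    simpa using h6')
  push_cast at r4
  linarith only [r4]

theorem sos_posW {c : Cert} (h : c.checkW = true) (x : Pnt)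
    (hm : ∀ b ∈ c.blocks, 0 ≤ b.mult.re x) : 0 ≤ c.target.re x := by
  have h1 := Cert.soundW h x
  have h2 : 0 ≤ brs x c.blocks := by
    have h5 : bokW c.k c.r c.N c.blocks = true := by
      simp only [Cert.checkW, Bool.and_eq_true] at h
      exact h.1.1.2
    revert h5 hm
    induction c.blocks with
    | nil => intro _ _; exact le_rfl
    | cons b bs ih =>
      intro hm h5
      simp only [bokW, Bool.and_eq_true] at h5
      exact add_nonneg (mul_nonneg (hm b (by simp)) (Blk.q_nonnegW h5.1.1 x))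
        (ih (fun b' hb => hm b' (by simp [hb])) h5.2)
  have h3 : (0 : ℝ) < c.s := by
    simp only [Cert.checkW, Bool.and_eq_true, Nat.blt_eq] at h
    exact_mod_cast h.1.1.1.2
  rw [← h1] at h2
  exact nonneg_of_mul_nonneg_right h2 h3

end Pool.Sos71

end

section

/-!
A faster evaluation of the same certificates: the products are summed group by group, so that
only few large numbers appear.
-/

set_option autoImplicit false

namespace Pool.Sos71

/-- difference of two natural numbers -/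
structure Cell where
  p : ℕ
  n : ℕ

def Cell.z (c : Cell) : ℤ := (c.p : ℤ) - c.n

/-- sign (`true` for `+`) and size -/
structure Sg where
  s : Bool
  m : ℕ

def sgz (s : Bool) (m : ℕ) : ℤ := match s with
  | true => (m : ℤ)
  | false => -(m : ℤ)

def Sg.z (x : Sg) : ℤ := sgz x.s x.m

def mkS (A T : ℕ) : Sg := ⟨Nat.ble T A, Nat.add (Nat.sub A T) (Nat.sub T A)⟩

lemma mkS_z (A T : ℕ) : (mkS A T).z = (A : ℤ) - T := by
  have h : (mkS A T).m = (A - T) + (T - A) := rfl
  have h' : (mkS A T).s = Nat.ble T A := rfl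
  unfold Sg.z
  rw [h, h']
  rcases hb : Nat.ble T A with _ | _
  · have h1 : ¬ T ≤ A := by
      intro hh
      rw [Nat.ble_eq_true_of_le hh] at hb
      exact absurd hb (by decide)
    show -(((A - T) + (T - A) : ℕ) : ℤ) = _
    omega
  · have h1 : T ≤ A := Nat.le_of_ble_eq_true hb
    show (((A - T) + (T - A) : ℕ) : ℤ) = _
    omega

noncomputable def addC (s : Bool) (m : ℕ) (c : Cell) : Cell :=
  Bool.rec ⟨c.p, Nat.add c.n m⟩ ⟨Nat.add c.p m, c.n⟩ s

lemma addC_z (s : Bool) (m : ℕ) (c : Cell) : (addC s m c).z = c.z + sgz s m := by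
  cases s
  · show ((c.p : ℕ) : ℤ) - ((c.n + m : ℕ) : ℤ) = ((c.p : ℤ) - c.n) + -(m : ℤ)
    push_cast; ring
  · show ((c.p + m : ℕ) : ℤ) - (c.n : ℤ) = ((c.p : ℤ) - c.n) + (m : ℤ)
    push_cast; ring

noncomputable def eqs (a b : Bool) : Bool := Bool.rec (Bool.rec true false b) b a

lemma sgz_mul (a b : Bool) (m n : ℕ) : sgz (eqs a b) (Nat.mul m n) = sgz a m * sgz b n := by
  have h : ((Nat.mul m n : ℕ) : ℤ) = (m : ℤ) * n := by
    show ((m * n : ℕ) : ℤ) = _
    push_cast; ring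
  cases a <;> cases b <;> simp only [sgz, eqs, h] <;> ring

/-- `c_h + x y_h` -/
noncomputable def updR (x : Sg) (ys : List Sg) : List Cell → List Cell :=
  List.rec (fun c => c) (fun y _ ih c =>
    List.rec (addC (eqs x.s y.s) (Nat.mul x.m y.m) ⟨0, 0⟩ :: ih [])
      (fun d c' _ => addC (eqs x.s y.s) (Nat.mul x.m y.m) d :: ih c') c) ys

lemma updR_nil (x : Sg) (c : List Cell) : updR x [] c = c := rfl

lemma updR_cn (x y : Sg) (ys : List Sg) : updR x (y :: ys) [] =
    addC (eqs x.s y.s) (Nat.mul x.m y.m) ⟨0, 0⟩ :: updR x ys [] := rfl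

lemma updR_cc (x y : Sg) (ys : List Sg) (d : Cell) (c : List Cell) : updR x (y :: ys) (d :: c) =
    addC (eqs x.s y.s) (Nat.mul x.m y.m) d :: updR x ys c := rfl

/-- `c_gh + x_g x_h` -/
noncomputable def updM (xs : List Sg) : List (List Cell) → List (List Cell) :=
  List.rec (fun M => M) (fun x xs' ih M =>
    List.rec (updR x (x :: xs') [] :: ih [])
      (fun r M' _ => updR x (x :: xs') r :: ih M') M) xs

lemma updM_nil (M : List (List Cell)) : updM [] M = M := rfl

lemma updM_cn (x : Sg) (xs : List Sg) : updM (x :: xs) [] =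
    updR x (x :: xs) [] :: updM xs [] := rfl

lemma updM_cc (x : Sg) (xs : List Sg) (r : List Cell) (M : List (List Cell)) :
    updM (x :: xs) (r :: M) = updR x (x :: xs) r :: updM xs M := rfl

/-- `c_h + 2^a y_h` -/
noncomputable def updE (a : ℕ) (ys : List Sg) : List Cell → List Cell :=
  List.rec (fun c => c) (fun y _ ih c =>
    List.rec (addC y.s (Nat.shiftLeft y.m a) ⟨0, 0⟩ :: ih [])
      (fun d c' _ => addC y.s (Nat.shiftLeft y.m a) d :: ih c') c) ys

lemma updE_nil (a : ℕ) (c : List Cell) : updE a [] c = c := rfl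

lemma updE_cn (a : ℕ) (y : Sg) (ys : List Sg) : updE a (y :: ys) [] =
    addC y.s (Nat.shiftLeft y.m a) ⟨0, 0⟩ :: updE a ys [] := rfl

lemma updE_cc (a : ℕ) (y : Sg) (ys : List Sg) (d : Cell) (c : List Cell) :
    updE a (y :: ys) (d :: c) = addC y.s (Nat.shiftLeft y.m a) d :: updE a ys c := rfl

/-- forces the evaluation of the numbers -/
noncomputable def okC (l : List Cell) : Bool :=
  List.rec true (fun c _ ih => Bool.rec false (Bool.rec false ih (Nat.ble 0 c.n)) (Nat.ble 0 c.p)) l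

noncomputable def okM (l : List (List Cell)) : Bool :=
  List.rec true (fun r _ ih => Bool.rec false ih (okC r)) l

lemma okC_true (l : List Cell) : okC l = true := by
  induction l with
  | nil => rfl
  | cons c cs ih =>
    have h : okC (c :: cs) = Bool.rec false (Bool.rec false (okC cs) (Nat.ble 0 c.n))
      (Nat.ble 0 c.p) := rfl
    rw [h, Nat.ble_eq_true_of_le (Nat.zero_le c.p), Nat.ble_eq_true_of_le (Nat.zero_le c.n)]
    exact ih

lemma okM_true (l : List (List Cell)) : okM l = true := by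
  induction l with
  | nil => rfl
  | cons c cs ih =>
    have h : okM (c :: cs) = Bool.rec false (okM cs) (okC c) := rfl
    rw [h, okC_true]
    exact ih

def dotC : List Cell → List ℕ → ℤ
  | [], _ => 0
  | c :: cs, V => match V with
    | [] => 0
    | v :: vs => c.z * v + dotC cs vs

def dotS : List Sg → List ℕ → ℤ
  | [], _ => 0
  | c :: cs, V => match V with
    | [] => 0
    | v :: vs => c.z * v + dotS cs vs

/-- `sum of c_gh v_g v_h` for one `g` -/
def Qr (r : List Cell) (v : ℕ) (vs : List ℕ) : ℤ := match r with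
  | [] => 0
  | c :: cs => v * (c.z * v + 2 * dotC cs vs)

def Q : List (List Cell) → List ℕ → ℤ
  | [], _ => 0
  | r :: M, V => match V with
    | [] => 0
    | v :: vs => Qr r v vs + Q M vs

lemma dotC_nil (c : List Cell) : dotC c [] = 0 := by cases c <;> rfl

lemma dotS_nil (c : List Sg) : dotS c [] = 0 := by cases c <;> rfl

lemma Q_nil (c : List (List Cell)) : Q c [] = 0 := by cases c <;> rfl

lemma zeroC : (⟨0, 0⟩ : Cell).z = 0 := rfl

lemma dotC_updR (x : Sg) (ys : List Sg) (c : List Cell) (vs : List ℕ) :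
    dotC (updR x ys c) vs = dotC c vs + x.z * dotS ys vs := by
  induction ys generalizing c vs with
  | nil => rw [updR_nil]; simp [dotS]
  | cons y ys ih =>
    cases vs with
    | nil => rw [dotC_nil, dotC_nil, dotS_nil]; ring
    | cons v vs =>
      cases c with
      | nil =>
        rw [updR_cn]
        simp only [dotC, dotS]
        rw [ih, addC_z, zeroC, sgz_mul]
        unfold Sg.z
        rw [show dotC ([] : List Cell) vs = 0 from rfl]
        ring
      | cons d c =>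
        rw [updR_cc]
        simp only [dotC, dotS]
        rw [ih, addC_z, sgz_mul]
        unfold Sg.z
        ring

lemma dotC_updE (a : ℕ) (ys : List Sg) (c : List Cell) (vs : List ℕ) :
    dotC (updE a ys c) vs = dotC c vs + 2 ^ a * dotS ys vs := by
  have hs : ∀ y : Sg, sgz y.s (Nat.shiftLeft y.m a) = 2 ^ a * y.z := by
    intro y
    have h1 : ((Nat.shiftLeft y.m a : ℕ) : ℤ) = (y.m : ℤ) * 2 ^ a := by
      show ((y.m <<< a : ℕ) : ℤ) = _
      rw [Nat.shiftLeft_eq]; push_cast; ring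
    unfold Sg.z
    cases y.s
    · show -((Nat.shiftLeft y.m a : ℕ) : ℤ) = 2 ^ a * -(y.m : ℤ)
      rw [h1]; ring
    · show ((Nat.shiftLeft y.m a : ℕ) : ℤ) = 2 ^ a * (y.m : ℤ)
      rw [h1]; ring
  induction ys generalizing c vs with
  | nil => rw [updE_nil]; simp [dotS]
  | cons y ys ih =>
    cases vs with
    | nil => rw [dotC_nil, dotC_nil, dotS_nil]; ring
    | cons v vs =>
      cases c with
      | nil =>
        rw [updE_cn]
        simp only [dotC, dotS]
        rw [ih, addC_z, zeroC, hs]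
        rw [show dotC ([] : List Cell) vs = 0 from rfl]
        ring
      | cons d c =>
        rw [updE_cc]
        simp only [dotC, dotS]
        rw [ih, addC_z, hs]
        ring

lemma Q_updM (xs : List Sg) (M : List (List Cell)) (vs : List ℕ) :
    Q (updM xs M) vs = Q M vs + dotS xs vs * dotS xs vs := by
  induction xs generalizing M vs with
  | nil => rw [updM_nil]; simp [dotS]
  | cons x xs ih =>
    cases vs with
    | nil => rw [Q_nil, Q_nil, dotS_nil]; ring
    | cons v vs =>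
      have key : ∀ r : List Cell, Qr (updR x (x :: xs) r) v vs =
          Qr r v vs + v * (x.z * x.z * v + 2 * (x.z * dotS xs vs)) := by
        intro r
        cases r with
        | nil =>
          rw [updR_cn]
          simp only [Qr]
          rw [dotC_updR, addC_z, zeroC, sgz_mul]
          rw [show dotC ([] : List Cell) vs = 0 from rfl]
          unfold Sg.z
          ring
        | cons d c =>
          rw [updR_cc]
          simp only [Qr]
          rw [dotC_updR, addC_z, sgz_mul]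
          unfold Sg.z
          ring
      cases M with
      | nil =>
        rw [updM_cn]
        simp only [Q, dotS]
        rw [ih, key]
        rw [show Q ([] : List (List Cell)) vs = 0 from rfl, show Qr [] v vs = 0 from rfl]
        ring
      | cons r M =>
        rw [updM_cc]
        simp only [Q, dotS]
        rw [ih, key]
        ring

/-- sums of `2^a` over the groups, times `off` -/
def gT (off : ℕ) : List Itm → ℕ → List ℕ
  | [], _ => []
  | i :: it, t => match i.e with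
    | false => gT off it (Nat.add t (Nat.shiftLeft off i.a))
    | true => Nat.add t (Nat.shiftLeft off i.a) :: gT off it 0

/-- factors of the groups -/
def gF : List Itm → List Fac
  | [] => []
  | i :: it => match i.e with
    | false => gF it
    | true => i.f :: gF it

def gV (it : List Itm) : List ℕ := (gF it).map Fac.V

/-- digits of `p` summed over the groups -/
noncomputable def grp (B : ℕ) (it : List Itm) : ℕ → ℕ → List ℕ → List Sg :=
  List.rec (fun _ _ _ => [])
    (fun i _ ih p acc Ts =>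
      Bool.rec (ih (Nat.div p B) (Nat.add acc (Nat.shiftLeft (Nat.mod p B) i.a)) Ts)
        (List.rec [] (fun T Ts' _ => mkS (Nat.add acc (Nat.shiftLeft (Nat.mod p B) i.a)) T ::
          ih (Nat.div p B) 0 Ts') Ts) i.e) it

lemma grp_nil (B p acc : ℕ) (Ts : List ℕ) : grp B [] p acc Ts = [] := rfl

lemma grp_f {B : ℕ} {i : Itm} (h : i.e = false) (it : List Itm) (p acc : ℕ) (Ts : List ℕ) :
    grp B (i :: it) p acc Ts =
      grp B it (Nat.div p B) (Nat.add acc (Nat.shiftLeft (Nat.mod p B) i.a)) Ts := by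
  have h1 : grp B (i :: it) p acc Ts = Bool.rec
      (grp B it (Nat.div p B) (Nat.add acc (Nat.shiftLeft (Nat.mod p B) i.a)) Ts)
        (List.rec [] (fun T Ts' _ => mkS (Nat.add acc (Nat.shiftLeft (Nat.mod p B) i.a)) T ::
          grp B it (Nat.div p B) 0 Ts') Ts) i.e := rfl
  rw [h1, h]

lemma grp_t {B : ℕ} {i : Itm} (h : i.e = true) (it : List Itm) (p acc T : ℕ) (Ts : List ℕ) :
    grp B (i :: it) p acc (T :: Ts) =
      mkS (Nat.add acc (Nat.shiftLeft (Nat.mod p B) i.a)) T :: grp B it (Nat.div p B) 0 Ts := by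
  have h1 : grp B (i :: it) p acc (T :: Ts) = Bool.rec
      (grp B it (Nat.div p B) (Nat.add acc (Nat.shiftLeft (Nat.mod p B) i.a)) (T :: Ts))
        (mkS (Nat.add acc (Nat.shiftLeft (Nat.mod p B) i.a)) T ::
          grp B it (Nat.div p B) 0 Ts) i.e := rfl
  rw [h1, h]

def decT (c : ℕ) : List ℕ → List ℕ
  | [] => []
  | T :: Ts => Nat.sub T c :: Ts

def tlT : List ℕ → List ℕ
  | [] => []
  | _ :: Ts => Ts

/-- every group is closed -/
def Ge : List Itm → Prop
  | [] => True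
  | i :: it => (i.e = true ∨ it ≠ []) ∧ Ge it

lemma decT_gT (off c : ℕ) (it : List Itm) (t : ℕ) :
    decT c (gT off it (t + c)) = gT off it t := by
  induction it generalizing t with
  | nil => rfl
  | cons i it ih =>
    rw [gT, gT]
    rcases i.e with _ | _
    · show decT c (gT off it (t + c + off <<< i.a)) = gT off it (t + off <<< i.a)
      rw [add_right_comm]
      exact ih _
    · show Nat.sub (t + c + off <<< i.a) c :: gT off it 0 = (t + off <<< i.a) :: gT off it 0
      congr 1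
      show t + c + off <<< i.a - c = t + off <<< i.a
      generalize off <<< i.a = y
      omega

section

variable {k : ℕ} {r : Rad} {N : Bd} {nf : ℕ}

lemma dot_grp {B off : ℕ} (it : List Itm) (h : GdW k r N nf it) (he : Ge it) (p acc t : ℕ)
    (h0 : it = [] → acc = t) :
    dotS (grp B it p acc (gT off it t)) (gV it) =
      ((acc : ℤ) - t) * eb it + ((sd B it p : ℤ) - off * (tot it : ℤ)) := by
  induction it generalizing p acc t with
  | nil => rw [grp_nil]; simp [dotS, sd, tot, h0 rfl]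
  | cons i it ih =>
    obtain ⟨_, h3, h4⟩ := h
    obtain ⟨e1, e2⟩ := he
    have e3 : tot (i :: it) = i.v + tot it := rfl
    rw [gT, sd, Itm.v_eq, e3, Itm.v_eq]
    rw [eb] at h3 ⊢
    have hs : ∀ y : ℕ, (((y <<< i.a : ℕ)) : ℤ) = (y : ℤ) * 2 ^ i.a := by
      intro y; rw [Nat.shiftLeft_eq]; push_cast; ring
    rcases ho : i.e with _ | _
    · simp only [ho] at h3 ⊢
      have hne : it ≠ [] := by
        rcases e1 with e1 | e1
        · rw [ho] at e1; exact absurd e1 (by decide)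
        · exact e1
      have hV : gV (i :: it) = gV it := by
        unfold gV; rw [gF, ho]
      rw [hV, grp_f ho]
      rw [ih h4 e2 _ _ _ (fun hh => absurd hh hne)]
      show ((((acc + (p % B) <<< i.a : ℕ)) : ℤ) - ((t + off <<< i.a : ℕ) : ℤ)) * (eb it : ℤ)
        + (((sd B it (p / B) : ℕ) : ℤ) - off * (tot it : ℤ)) = _
      rw [h3]
      generalize p % B = d
      generalize p / B = p'
      push_cast [hs]
      ring
    · simp only [ho] at h3 ⊢
      have hV : gV (i :: it) = i.f.V :: gV it := by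
        unfold gV; rw [gF, ho]; rfl
      rw [hV, grp_t ho]
      simp only [dotS]
      rw [ih h4 e2 _ _ _ (fun _ => rfl), mkS_z]
      show ((((acc + (p % B) <<< i.a : ℕ)) : ℤ) - ((t + off <<< i.a : ℕ) : ℤ)) * (i.f.V : ℤ)
        + ((((0 : ℕ) : ℤ) - ((0 : ℕ) : ℤ)) * (eb it : ℤ)
          + (((sd B it (p / B) : ℕ) : ℤ) - off * (tot it : ℤ))) = _
      generalize p % B = d
      generalize p / B = p'
      push_cast [hs]
      ring

lemma gF_head {it : List Itm} {f : Fac} {fs : List Fac} (h : gF it = f :: fs) : f.V = eb it := by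
  induction it with
  | nil => simp [gF] at h
  | cons i it ih =>
    rw [gF] at h
    rw [eb]
    rcases ho : i.e with _ | _
    · simp only [ho] at h ⊢
      exact ih h
    · simp only [ho, List.cons.injEq] at h ⊢
      rw [h.1]

/-- `sum of c_h f_h` -/
noncomputable def finC : List Fac → List Cell → Cell
  | [], _ => ⟨0, 0⟩
  | f :: fs, C => match C with
    | [] => ⟨0, 0⟩
    | c :: cs => addC (mkS c.p c.n).s (f.ap (mkS c.p c.n).m) (finC fs cs)

lemma sgz_ap (f : Fac) (x : Sg) : sgz x.s (f.ap x.m) = x.z * f.V := by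
  rw [Fac.ap_eq]
  unfold Sg.z sgz
  cases x.s
  · show -((x.m * f.V : ℕ) : ℤ) = -(x.m : ℤ) * f.V
    push_cast; ring
  · show ((x.m * f.V : ℕ) : ℤ) = (x.m : ℤ) * f.V
    push_cast; ring

lemma finC_z (fs : List Fac) (C : List Cell) : (finC fs C).z = dotC C (fs.map Fac.V) := by
  induction fs generalizing C with
  | nil => rw [List.map_nil, dotC_nil]; rfl
  | cons f fs ih =>
    cases C with
    | nil => rfl
    | cons c cs =>
      rw [finC]
      simp only [List.map_cons, dotC]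
      rw [addC_z, ih, sgz_ap, mkS_z]
      unfold Cell.z
      ring

/-- `acc + f * (sum of c_h f_h)` -/
noncomputable def finE (f : Fac) (fs : List Fac) (C : List Cell) (acc : Cell) : Cell :=
  addC (mkS (finC fs C).p (finC fs C).n).s (f.ap (mkS (finC fs C).p (finC fs C).n).m) acc

lemma finE_z (f : Fac) (fs : List Fac) (C : List Cell) (acc : Cell) :
    (finE f fs C acc).z = acc.z + f.V * dotC C (fs.map Fac.V) := by
  rw [finE, addC_z, sgz_ap, mkS_z, ← finC_z]
  unfold Cell.z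
  ring

def dbl (c : Cell) : Cell := ⟨Nat.mul 2 c.p, Nat.mul 2 c.n⟩

lemma dbl_z (c : Cell) : (dbl c).z = 2 * c.z := by
  show ((2 * c.p : ℕ) : ℤ) - ((2 * c.n : ℕ) : ℤ) = 2 * ((c.p : ℤ) - c.n)
  push_cast; ring

/-- `acc + f (c f + 2 sum of c_h f_h)` -/
noncomputable def finR (f : Fac) (fs : List Fac) (c : Cell) (cs : List Cell) (acc : Cell) : Cell :=
  match addC (mkS c.p c.n).s (f.ap (mkS c.p c.n).m) (dbl (finC fs cs)) with
  | ⟨p, n⟩ => addC (mkS p n).s (f.ap (mkS p n).m) acc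

noncomputable def finRow (f : Fac) (fs : List Fac) (r : List Cell) (acc : Cell) : Cell := match r with
  | [] => acc
  | c :: cs => finR f fs c cs acc

lemma finRow_z (f : Fac) (fs : List Fac) (r : List Cell) (acc : Cell) :
    (finRow f fs r acc).z = acc.z + Qr r f.V (fs.map Fac.V) := by
  cases r with
  | nil => simp [finRow, Qr]
  | cons c cs =>
    have h1 : finRow f fs (c :: cs) acc = addC
        (mkS (addC (mkS c.p c.n).s (f.ap (mkS c.p c.n).m) (dbl (finC fs cs))).p
          (addC (mkS c.p c.n).s (f.ap (mkS c.p c.n).m) (dbl (finC fs cs))).n).s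
        (f.ap (mkS (addC (mkS c.p c.n).s (f.ap (mkS c.p c.n).m) (dbl (finC fs cs))).p
          (addC (mkS c.p c.n).s (f.ap (mkS c.p c.n).m) (dbl (finC fs cs))).n).m) acc := rfl
    have h2 := addC_z (mkS c.p c.n).s (f.ap (mkS c.p c.n).m) (dbl (finC fs cs))
    rw [sgz_ap, mkS_z, dbl_z, finC_z] at h2
    rw [h1, addC_z, sgz_ap, mkS_z]
    unfold Cell.z at h2
    rw [h2]
    simp only [Qr]
    unfold Cell.z
    ring

noncomputable def finM : List Fac → List (List Cell) → Cell
  | [], _ => ⟨0, 0⟩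
  | f :: fs, M => match M with
    | [] => ⟨0, 0⟩
    | r :: M' => finRow f fs r (finM fs M')

lemma finM_z (fs : List Fac) (M : List (List Cell)) : (finM fs M).z = Q M (fs.map Fac.V) := by
  induction fs generalizing M with
  | nil => rw [List.map_nil, Q_nil]; rfl
  | cons f fs ih =>
    cases M with
    | nil => rfl
    | cons r M =>
      rw [finM]
      simp only [List.map_cons, Q]
      rw [finRow_z, ih]
      ring

noncomputable def sqF (B off : ℕ) (it : List Itm) :
    List ℕ → List ℕ → List Fac → List (List Cell) → Cell :=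
  List.rec (fun _ _ Fs M => finM Fs M)
    (fun i it' ih Ls Ts Fs M =>
      List.rec (finM Fs M)
        (fun L Ls' _ =>
          Bool.rec ⟨0, 0⟩
            (Bool.rec (ih Ls' (decT (Nat.shiftLeft off i.a) Ts) Fs (updM (grp B (i :: it') L 0 Ts) M))
              (List.rec ⟨0, 0⟩ (fun f Fs' _ =>
                List.rec ⟨0, 0⟩ (fun r M' _ => finRow f Fs' r (ih Ls' (tlT Ts) Fs' M'))
                  (updM (grp B (i :: it') L 0 Ts) M)) Fs) i.e)
            (okM (updM (grp B (i :: it') L 0 Ts) M))) Ls) it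

lemma sqF_nil (B off : ℕ) (Ls Ts : List ℕ) (Fs : List Fac) (M : List (List Cell)) :
    sqF B off [] Ls Ts Fs M = finM Fs M := rfl

lemma sqF_cn (B off : ℕ) (i : Itm) (it : List Itm) (Ts : List ℕ) (Fs : List Fac)
    (M : List (List Cell)) : sqF B off (i :: it) [] Ts Fs M = finM Fs M := rfl

lemma sqF_f {B off : ℕ} {i : Itm} (h : i.e = false) (it : List Itm) (L : ℕ) (Ls Ts : List ℕ)
    (Fs : List Fac) (M : List (List Cell)) :
    sqF B off (i :: it) (L :: Ls) Ts Fs M = sqF B off it Ls (decT (Nat.shiftLeft off i.a) Ts) Fs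
            (updM (grp B (i :: it) L 0 Ts) M) := by
  have h1 : sqF B off (i :: it) (L :: Ls) Ts Fs M = Bool.rec ⟨0, 0⟩
            (Bool.rec (sqF B off it Ls (decT (Nat.shiftLeft off i.a) Ts) Fs
              (updM (grp B (i :: it) L 0 Ts) M))
              (List.rec ⟨0, 0⟩ (fun f Fs' _ =>
                List.rec ⟨0, 0⟩ (fun r M' _ => finRow f Fs' r (sqF B off it Ls (tlT Ts) Fs' M'))
                  (updM (grp B (i :: it) L 0 Ts) M)) Fs) i.e)
            (okM (updM (grp B (i :: it) L 0 Ts) M)) := rfl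
  rw [h1, okM_true, h]

lemma sqF_t {B off : ℕ} {i : Itm} (h : i.e = true) (it : List Itm) (L : ℕ) (Ls Ts : List ℕ)
    (f : Fac) (Fs : List Fac) (M : List (List Cell)) {r : List Cell} {M' : List (List Cell)}
    (hM : updM (grp B (i :: it) L 0 Ts) M = r :: M') :
    sqF B off (i :: it) (L :: Ls) Ts (f :: Fs) M =
      finRow f Fs r (sqF B off it Ls (tlT Ts) Fs M') := by
  have h1 : sqF B off (i :: it) (L :: Ls) Ts (f :: Fs) M = Bool.rec ⟨0, 0⟩
            (Bool.rec (sqF B off it Ls (decT (Nat.shiftLeft off i.a) Ts) (f :: Fs)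
              (updM (grp B (i :: it) L 0 Ts) M))
                (List.rec ⟨0, 0⟩ (fun r M' _ => finRow f Fs r (sqF B off it Ls (tlT Ts) Fs M'))
                  (updM (grp B (i :: it) L 0 Ts) M)) i.e)
            (okM (updM (grp B (i :: it) L 0 Ts) M)) := rfl
  rw [h1, okM_true, h, hM]

lemma sqF_z {B off : ℕ} (it : List Itm) (h : GdW k r N nf it) (he : Ge it) (Ls : List ℕ)
    (M : List (List Cell)) :
    (sqF B off it Ls (gT off it 0) (gF it) M).z =
      Q M (gV it) + ((sqs B off it Ls (tot it) : ℕ) : ℤ) := by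
  induction it generalizing Ls M with
  | nil =>
    rw [sqF_nil, finM_z]
    show _ = Q M (gV []) + ((0 : ℕ) : ℤ)
    rw [Nat.cast_zero, add_zero]; rfl
  | cons i it ih =>
    cases Ls with
    | nil =>
      rw [sqF_cn, finM_z]
      show _ = Q M (gV (i :: it)) + ((0 : ℕ) : ℤ)
      rw [Nat.cast_zero, add_zero]; rfl
    | cons L Ls =>
      have hd := dot_grp (B := B) (off := off) (i :: it) h he L 0 0 (fun _ => rfl)
      have hq := Q_updM (grp B (i :: it) L 0 (gT off (i :: it) 0)) M (gV (i :: it))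
      rw [hd] at hq
      have hs : ((sqs B off (i :: it) (L :: Ls) (tot (i :: it)) : ℕ) : ℤ) =
          ((sd B (i :: it) L : ℤ) - off * (tot (i :: it) : ℤ))
            * ((sd B (i :: it) L : ℤ) - off * (tot (i :: it) : ℤ))
          + ((sqs B off it Ls (tot it) : ℕ) : ℤ) := by
        rw [sqs, tot_sub, lin_eqW (i :: it) h, zero_mul, zero_add]
        show ((sqd (sd B (i :: it) L) (off * tot (i :: it)) + sqs B off it Ls (tot it) : ℕ) : ℤ) = _
        push_cast
        rw [sqd_eq]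
        push_cast; ring
      rw [hs]
      rcases ho : i.e with _ | _
      · have hT : decT (Nat.shiftLeft off i.a) (gT off (i :: it) 0) = gT off it 0 := by
          rw [gT, ho]
          exact decT_gT off _ it 0
        have hF : gF (i :: it) = gF it := by rw [gF, ho]
        have hV : gV (i :: it) = gV it := by unfold gV; rw [hF]
        rw [hV] at hq
        rw [hV, sqF_f ho]
        rw [hT, hF, ih h.2.2 he.2, hq]
        push_cast; ring
      · have hT : tlT (gT off (i :: it) 0) = gT off it 0 := by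
          rw [gT, ho]; rfl
        have hF : gF (i :: it) = i.f :: gF it := by rw [gF, ho]
        have hV : gV (i :: it) = i.f.V :: gV it := by unfold gV; rw [hF]; rfl
        rw [hF]
        rcases hM : updM (grp B (i :: it) L 0 (gT off (i :: it) 0)) M with _ | ⟨r, M'⟩
        · exfalso
          have : grp B (i :: it) L 0 (gT off (i :: it) 0) ≠ [] := by
            rw [gT, ho]
            simp only
            rw [grp_t ho]; simp
          revert hM
          rcases hg : grp B (i :: it) L 0 (gT off (i :: it) 0) with _ | ⟨x, xs⟩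
          · exact absurd hg this
          · cases M with
            | nil => rw [updM_cn]; simp
            | cons r M => rw [updM_cc]; simp
        · rw [sqF_t ho _ _ _ _ _ _ _ hM, hT]
          rw [hM, hV] at hq
          simp only [Q] at hq
          rw [finRow_z, ih h.2.2 he.2, hV]
          have hV' : (gF it).map Fac.V = gV it := rfl
          rw [hV']
          push_cast at hq ⊢
          (clear * - hq; linarith only [hq])

noncomputable def flE (Fs : List Fac) (C : List Cell) : Cell := match Fs with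
  | [] => ⟨0, 0⟩
  | f :: fs => finE f (f :: fs) C ⟨0, 0⟩

noncomputable def exF (B off : ℕ) (it : List Itm) :
    List ℕ → List ℕ → List Fac → List Cell → Cell :=
  List.rec (fun _ _ _ _ => ⟨0, 0⟩)
    (fun i it' ih Es Ts Fs C =>
      List.rec (flE Fs C)
        (fun E Es' _ =>
          Bool.rec ⟨0, 0⟩
            (Bool.rec (ih Es' (decT (Nat.shiftLeft off i.a) Ts) Fs
                (updE i.a (grp B (i :: it') E 0 Ts) C))
              (List.rec ⟨0, 0⟩ (fun f Fs' _ =>
                finE f (f :: Fs') (updE i.a (grp B (i :: it') E 0 Ts) C)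
                  (ih Es' (tlT Ts) Fs' [])) Fs) i.e)
            (okC (updE i.a (grp B (i :: it') E 0 Ts) C))) Es) it

lemma exF_cn (B off : ℕ) (i : Itm) (it : List Itm) (Ts : List ℕ) (Fs : List Fac)
    (C : List Cell) : exF B off (i :: it) [] Ts Fs C = flE Fs C := rfl

lemma exF_f {B off : ℕ} {i : Itm} (h : i.e = false) (it : List Itm) (E : ℕ) (Es Ts : List ℕ)
    (Fs : List Fac) (C : List Cell) :
    exF B off (i :: it) (E :: Es) Ts Fs C = exF B off it Es (decT (Nat.shiftLeft off i.a) Ts) Fs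
            (updE i.a (grp B (i :: it) E 0 Ts) C) := by
  have h1 : exF B off (i :: it) (E :: Es) Ts Fs C = Bool.rec ⟨0, 0⟩
            (Bool.rec (exF B off it Es (decT (Nat.shiftLeft off i.a) Ts) Fs
                (updE i.a (grp B (i :: it) E 0 Ts) C))
              (List.rec ⟨0, 0⟩ (fun f Fs' _ =>
                finE f (f :: Fs') (updE i.a (grp B (i :: it) E 0 Ts) C)
                  (exF B off it Es (tlT Ts) Fs' [])) Fs) i.e)
            (okC (updE i.a (grp B (i :: it) E 0 Ts) C)) := rfl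
  rw [h1, okC_true, h]

lemma exF_t {B off : ℕ} {i : Itm} (h : i.e = true) (it : List Itm) (E : ℕ) (Es Ts : List ℕ)
    (f : Fac) (Fs : List Fac) (C : List Cell) :
    exF B off (i :: it) (E :: Es) Ts (f :: Fs) C =
      finE f (f :: Fs) (updE i.a (grp B (i :: it) E 0 Ts) C) (exF B off it Es (tlT Ts) Fs []) := by
  have h1 : exF B off (i :: it) (E :: Es) Ts (f :: Fs) C = Bool.rec ⟨0, 0⟩
            (Bool.rec (exF B off it Es (decT (Nat.shiftLeft off i.a) Ts) (f :: Fs)
                (updE i.a (grp B (i :: it) E 0 Ts) C))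
              (finE f (f :: Fs) (updE i.a (grp B (i :: it) E 0 Ts) C)
                  (exF B off it Es (tlT Ts) Fs [])) i.e)
            (okC (updE i.a (grp B (i :: it) E 0 Ts) C)) := rfl
  rw [h1, okC_true, h]

lemma flE_z (it : List Itm) (C : List Cell) : (flE (gF it) C).z = eb it * dotC C (gV it) := by
  unfold gV
  rcases hF : gF it with _ | ⟨f, fs⟩
  · rw [List.map_nil, dotC_nil, mul_zero]; rfl
  · show (finE f (f :: fs) C ⟨0, 0⟩).z = _
    rw [finE_z, gF_head hF, zeroC, zero_add]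

lemma exF_z {B off : ℕ} (it : List Itm) (h : GdW k r N nf it) (he : Ge it) (Es : List ℕ)
    (C : List Cell) :
    (exF B off it Es (gT off it 0) (gF it) C).z =
      eb it * dotC C (gV it) +
        (((eps B it Es : ℕ) : ℤ) - ((ens off it Es (tot it) : ℕ) : ℤ)) := by
  induction it generalizing Es C with
  | nil =>
    have : gV [] = [] := rfl
    rw [this, dotC_nil]
    show ((0 : ℕ) : ℤ) - ((0 : ℕ) : ℤ) = _
    simp [eps, ens]
  | cons i it ih =>
    cases Es with
    | nil =>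
      rw [exF_cn, flE_z]
      show _ = _ + (((0 : ℕ) : ℤ) - ((0 : ℕ) : ℤ))
      ring
    | cons E Es =>
      have hd := dot_grp (B := B) (off := off) (i :: it) h he E 0 0 (fun _ => rfl)
      have hq := dotC_updE i.a (grp B (i :: it) E 0 (gT off (i :: it) 0)) C (gV (i :: it))
      rw [hd] at hq
      have e1 : ((eps B (i :: it) (E :: Es) : ℕ) : ℤ)
            - ((ens off (i :: it) (E :: Es) (tot (i :: it)) : ℕ) : ℤ) =
          ((sd B (i :: it) E : ℤ) - off * (tot (i :: it) : ℤ)) * (i.v : ℤ)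
          + (((eps B it Es : ℕ) : ℤ) - ((ens off it Es (tot it) : ℕ) : ℤ)) := by
        rw [eps, ens, tot_sub, lin_eqW (i :: it) h, zero_mul, zero_add, Itm.ap_eq, Itm.ap_eq]
        show ((sd B (i :: it) E * i.v + eps B it Es : ℕ) : ℤ)
          - (((off * tot (i :: it)) * i.v + ens off it Es (tot it) : ℕ) : ℤ) = _
        push_cast; ring
      have hv : (i.v : ℤ) = 2 ^ i.a * (eb (i :: it) : ℤ) := by
        rw [Itm.v_eq, h.2.1]; push_cast; ring
      rw [e1]
      rcases ho : i.e with _ | _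
      · have hT : decT (Nat.shiftLeft off i.a) (gT off (i :: it) 0) = gT off it 0 := by
          rw [gT, ho]
          exact decT_gT off _ it 0
        have hF : gF (i :: it) = gF it := by rw [gF, ho]
        have hV : gV (i :: it) = gV it := by unfold gV; rw [hF]
        have hE : eb (i :: it) = eb it := by rw [eb, ho]
        rw [hV] at hq
        rw [hE] at hv hq
        rw [hV, hE, exF_f ho]
        rw [hT, hF, ih h.2.2 he.2, hq, hv]
        push_cast; ring
      · have hT : tlT (gT off (i :: it) 0) = gT off it 0 := by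
          rw [gT, ho]; rfl
        have hF : gF (i :: it) = i.f :: gF it := by rw [gF, ho]
        have hE : eb (i :: it) = i.f.V := by rw [eb, ho]
        rw [hF, exF_t ho, hT]
        have hV' : (i.f :: gF it).map Fac.V = gV (i :: it) := by unfold gV; rw [hF]
        rw [finE_z, ih h.2.2 he.2, hV', hq, hv, hE]
        rw [show dotC ([] : List Cell) (gV it) = 0 from rfl]
        push_cast; ring

def z2F : List Itm → ℕ → ℕ
  | [], _ => 0
  | i :: it, acc => match i.e with
    | false => z2F it (Nat.add acc (Nat.shiftLeft 1 (Nat.mul 2 i.a)))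
    | true => Nat.add (i.f.ap (i.f.ap (Nat.add acc (Nat.shiftLeft 1 (Nat.mul 2 i.a)))))
        (z2F it 0)

lemma z2F_eq (it : List Itm) (h : GdW k r N nf it) (he : Ge it) (acc : ℕ)
    (h0 : it = [] → acc = 0) : z2F it acc = acc * (eb it * eb it) + z2 it := by
  induction it generalizing acc with
  | nil => simp [z2F, z2, h0 rfl]
  | cons i it ih =>
    obtain ⟨_, h3, h4⟩ := h
    obtain ⟨e1, e2⟩ := he
    rw [z2F, z2, Itm.v_eq]
    rw [eb] at h3 ⊢
    have hs : (1 : ℕ) <<< (2 * i.a) = 2 ^ i.a * 2 ^ i.a := by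
      rw [Nat.shiftLeft_eq, one_mul, two_mul, pow_add]
    rcases ho : i.e with _ | _
    · simp only [ho] at h3 ⊢
      have hne : it ≠ [] := by
        rcases e1 with e1 | e1
        · rw [ho] at e1; exact absurd e1 (by decide)
        · exact e1
      rw [ih h4 e2 _ (fun hh => absurd hh hne)]
      show (acc + 1 <<< (2 * i.a)) * (eb it * eb it) + z2 it =
        acc * (eb it * eb it) + (2 ^ i.a * i.f.V * (2 ^ i.a * i.f.V) + z2 it)
      rw [hs, h3]; ring
    · simp only [ho] at h3 ⊢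
      rw [ih h4 e2 _ (fun _ => rfl), Fac.ap_eq, Fac.ap_eq]
      show (acc + 1 <<< (2 * i.a)) * i.f.V * i.f.V + (0 * (eb it * eb it) + z2 it) =
        acc * (i.f.V * i.f.V) + (2 ^ i.a * i.f.V * (2 ^ i.a * i.f.V) + z2 it)
      rw [hs]; ring

end

def dz2F (d : ℕ) (it : List Itm) : ℕ := match d with
  | 0 => 0
  | n + 1 => Nat.mul (Nat.succ n) (z2F it 0)

def toI (c : Cell) : ℤ := match c with
  | ⟨p, n⟩ => Int.sub (Int.ofNat p) (Int.ofNat n)

lemma toI_eq (c : Cell) : toI c = c.z := rfl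

noncomputable def Blk.vF (b : Blk) : ℤ :=
  Int.add (toI (sqF b.B b.off b.its b.L (gT b.off b.its 0) (gF b.its) []))
    (Int.add (Int.ofNat (dz2F b.dl b.its))
      (toI (exF b.BE b.offE b.its b.E (gT b.offE b.its 0) (gF b.its) [])))

lemma Ge_of_gdbW {k : ℕ} {r : Rad} {N : Bd} {nf : ℕ} {it : List Itm}
    (h : gdbW k r N nf it = true) : Ge it := by
  induction it with
  | nil => trivial
  | cons i it ih =>
    simp only [gdbW, Bool.and_eq_true, Bool.or_eq_true] at h
    obtain ⟨⟨_, h2⟩, h3⟩ := h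
    refine ⟨?_, ih h3⟩
    rcases h2 with h2 | h2
    · exact Or.inl h2
    · right
      intro hh
      rw [hh] at h2
      exact absurd h2 Bool.false_ne_true

lemma Blk.vF_eq {b : Blk} {k : ℕ} {r : Rad} (h : b.okW k r = true) :
    b.vF = Int.sub (Int.ofNat b.vp) (Int.ofNat b.vn) := by
  simp only [Blk.okW, Bool.and_eq_true] at h
  have h1 := h.1.1.1.1.1.1
  have hg := gdbW_sound h1
  have he := Ge_of_gdbW h1
  have a1 := sqF_z (B := b.B) (off := b.off) b.its hg he b.L []
  have a2 := exF_z (B := b.BE) (off := b.offE) b.its hg he b.E []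
  have a3 : dz2F b.dl b.its = b.dl * z2 b.its := by
    have := z2F_eq b.its hg he 0 (fun _ => rfl)
    rcases hd : b.dl with _ | n
    · rw [Nat.zero_mul]; rfl
    · show (n + 1) * z2F b.its 0 = _
      rw [this, zero_mul, zero_add]
  rw [show Q ([] : List (List Cell)) (gV b.its) = 0 from rfl, zero_add] at a1
  rw [show dotC ([] : List Cell) (gV b.its) = 0 from rfl, mul_zero, zero_add] at a2
  unfold Blk.vF
  rw [toI_eq, toI_eq, a1, a2, a3]
  have e2 : b.vp = sqs b.B b.off b.its b.L (tot b.its)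
      + (dz2 b.dl b.its + eps b.BE b.its b.E) := rfl
  show ((sqs b.B b.off b.its b.L (tot b.its) : ℕ) : ℤ) + (((b.dl * z2 b.its : ℕ) : ℤ)
    + (((eps b.BE b.its b.E : ℕ) : ℤ) - ((ens b.offE b.its b.E (tot b.its) : ℕ) : ℤ))) =
    ((b.vp : ℕ) : ℤ) - ((b.vn : ℕ) : ℤ)
  rw [e2, Blk.vn, dz2_eq]; push_cast; ring

noncomputable def bsumF (X : IPt) : List Blk → ℤ
  | [] => 0
  | b :: bs => Int.add (Int.mul (b.mult.ev X) b.vF) (bsumF X bs)

lemma bsumF_eq {k : ℕ} {r : Rad} {N : Bd} (X : IPt) (bs : List Blk) (h : bokW k r N bs = true) :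
    bsumF X bs = bsum X bs := by
  induction bs with
  | nil => rfl
  | cons b bs ih =>
    simp only [bokW, Bool.and_eq_true] at h
    rw [bsumF, bsum, ih h.2, Blk.vF_eq h.1.1]

noncomputable def Cert.checkF (c : Cert) : Bool :=
  c.r.okb c.N && c.target.okW && c.target.bdW.leb c.N && Nat.blt 0 c.s && bokW c.k c.r c.N c.blocks &&
    Nat.blt (Nat.add (Nat.mul c.s c.target.nm) (bnm c.blocks)) (Nat.pow 2 c.k) &&
    eqi (Int.mul (Int.ofNat c.s) (c.target.ev (ipt c.k c.r))) (bsumF (ipt c.k c.r) c.blocks)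

theorem Cert.checkW_of_F {c : Cert} (h : c.checkF = true) : c.checkW = true := by
  have h' := h
  simp only [Cert.checkF, Bool.and_eq_true] at h
  obtain ⟨⟨⟨⟨⟨⟨h1, h2⟩, h3⟩, h4⟩, h5⟩, h6⟩, h7⟩ := h
  rw [bsumF_eq _ _ h5] at h7
  simp only [Cert.checkW, Bool.and_eq_true]
  exact ⟨⟨⟨⟨⟨⟨h1, h2⟩, h3⟩, h4⟩, h5⟩, h6⟩, h7⟩

end Pool.Sos71

end

section

/-!
Polynomials with packed coefficients, for certificates in several parts.
-/

set_option autoImplicit false

namespace Pool.Sos71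

/-- a leaf: a monomial in `l, S, C, P, R` and `n` packed coefficients of the powers of `u, v` -/
structure Lf where
  m : Mon
  n : ℕ
  p : ℕ

/-- a group of leaves with a common monomial -/
structure Gp where
  m : Mon
  l : List Lf

/-- packed polynomial: base `2^k`, radix `rg` of `u`, the coefficient is digit - `off` -/
structure Pk where
  k : ℕ
  rg : ℕ
  off : ℕ
  l : List Gp

/-- the monomial `m v^f u^g` -/
def mfg (m : Mon) (f g : ℕ) : Mon := ⟨m.a, m.b, m.c, m.d, m.e, f, g⟩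

def nxf (rg f : ℕ) : ℕ := bif Nat.beq (Nat.succ f) rg then 0 else Nat.succ f

def nxg (rg f g : ℕ) : ℕ := bif Nat.beq (Nat.succ f) rg then Nat.succ g else g

/-- real value of a leaf -/
noncomputable def lfr (W off rg : ℕ) (x : Pnt) (m : Mon) : ℕ → ℕ → ℕ → ℕ → ℝ
  | 0, _, _, _ => 0
  | n + 1, f, g, p => (((p % W : ℕ) : ℝ) - off) * (mfg m f g).val x +
      lfr W off rg x m n (nxf rg f) (nxg rg f g) (p / W)

noncomputable def lsr (W off rg : ℕ) (x : Pnt) (m : Mon) : List Lf → ℝ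
  | [] => 0
  | t :: l => lfr W off rg x (m.add t.m) t.n 0 0 t.p + lsr W off rg x m l

noncomputable def gsr (W off rg : ℕ) (x : Pnt) : List Gp → ℝ
  | [] => 0
  | t :: l => lsr W off rg x t.m t.l + gsr W off rg x l

noncomputable def Pk.re (P : Pk) (x : Pnt) : ℝ := gsr (2 ^ P.k) P.off P.rg x P.l

/-- all digits are at most `2 off` -/
noncomputable def dgOk (W o2 : ℕ) (n : ℕ) : ℕ → Bool :=
  Nat.rec (fun p => Nat.beq p 0)
    (fun _ ih p => Bool.rec false (ih (Nat.div p W)) (Nat.ble (Nat.mod p W) o2)) n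

lemma dgOk_succ {W o2 n p : ℕ} (h : dgOk W o2 (n + 1) p = true) :
    p % W ≤ o2 ∧ dgOk W o2 n (p / W) = true := by
  have h1 : dgOk W o2 (n + 1) p =
    Bool.rec false (dgOk W o2 n (Nat.div p W)) (Nat.ble (Nat.mod p W) o2) := rfl
  rw [h1] at h
  rcases hb : Nat.ble (Nat.mod p W) o2 with _ | _
  · rw [hb] at h; exact absurd h Bool.false_ne_true
  · rw [hb] at h
    exact ⟨Nat.le_of_ble_eq_true hb, h⟩

/-- `1 + W + ... + W^(n-1)` -/
def ons (W : ℕ) : ℕ → ℕ
  | 0 => 0
  | n + 1 => Nat.add 1 (Nat.mul W (ons W n))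

section

variable {k : ℕ} {r : Rad} {N : Bd}

lemma code_mfg (m : Mon) (f g : ℕ) (hf : m.f = 0) (hg : m.g = 0) :
    (mfg m f g).code r = m.code r + (f + r.rg * g) := by
  simp only [Mon.code, mfg, hf, hg]; ring

lemma nx_code (f g : ℕ) : nxf r.rg f + r.rg * nxg r.rg f g = f + r.rg * g + 1 := by
  unfold nxf nxg
  by_cases h : Nat.succ f = r.rg
  · have hb : Nat.beq (Nat.succ f) r.rg = true := by rw [h]; exact Nat.beq_refl _
    rw [hb]
    show 0 + r.rg * (g + 1) = _
    rw [← h]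
    show 0 + (f + 1) * (g + 1) = f + (f + 1) * g + 1
    ring
  · have : Nat.beq (Nat.succ f) r.rg = false := by
      rcases hb : Nat.beq (Nat.succ f) r.rg with _ | _
      · rfl
      · exact absurd (Nat.eq_of_beq_eq_true hb) h
    rw [this]
    show f + 1 + r.rg * g = _
    ring

lemma nxf_lt {rg f : ℕ} (h0 : 0 < rg) (h : f < rg) : nxf rg f < rg := by
  unfold nxf
  by_cases h1 : Nat.succ f = rg
  · have hb : Nat.beq (Nat.succ f) rg = true := by rw [h1]; exact Nat.beq_refl _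
    rw [hb]; exact h0
  · have : Nat.beq (Nat.succ f) rg = false := by
      rcases hb : Nat.beq (Nat.succ f) rg with _ | _
      · rfl
      · exact absurd (Nat.eq_of_beq_eq_true hb) h1
    rw [this]
    show f + 1 < rg
    have : Nat.succ f = f + 1 := rfl
    omega

lemma rep_lf {off o2 : ℕ} (ho : o2 = 2 * off) {x : Pnt} {m : Mon} (hm : ∀ f g : ℕ, f ≤ N.f → g ≤ N.g →
      (mfg m f g).InW N) (hf0 : m.f = 0) (hg0 : m.g = 0) (hr : r.rg = N.f + 1)
    (n : ℕ) (f g : ℕ) (hf : f < r.rg) (hn : f + r.rg * g + n ≤ r.rg * (N.g + 1))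
    (p : ℕ) (hp : dgOk (2 ^ k) o2 n p = true) :
    RepW ((2 ^ k : ℕ) : ℤ) r x N (n * off)
      (((2 ^ k : ℕ) : ℤ) ^ (m.code r + (f + r.rg * g)) * ((p : ℤ) - off * (ons (2 ^ k) n : ℤ)))
      (lfr (2 ^ k) off r.rg x m n f g p) := by
  induction n generalizing f g p with
  | zero =>
    have hp' : p = 0 := Nat.eq_of_beq_eq_true hp
    have h1 := RepW.zero (w := ((2 ^ k : ℕ) : ℤ)) (r := r) (x := x) N 0
    rw [hp']
    simpa [lfr, ons] using h1
  | succ n ih =>
    obtain ⟨h1, h2⟩ := dgOk_succ hp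
    have hg : g ≤ N.g := by
      by_contra hh
      have : N.g + 1 ≤ g := by omega
      have h3 := Nat.mul_le_mul_left r.rg this
      omega
    have hfN : f ≤ N.f := by omega
    have r1 := RepW.mon (w := ((2 ^ k : ℕ) : ℤ)) (r := r) (x := x)
      (((p % 2 ^ k : ℕ) : ℤ) - off) (hm f g hfN hg)
    have h3 : (((p % 2 ^ k : ℕ) : ℤ) - off).natAbs ≤ off := by omega
    have hc := nx_code (r := r) f g
    have r2 := ih (nxf r.rg f) (nxg r.rg f g) (nxf_lt (by omega) hf) (by omega) _ h2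
    have r3 := (r1.mono h3).add r2
    rw [code_mfg m f g hf0 hg0, hc] at r3
    have e1 : (((p % 2 ^ k : ℕ) : ℤ) - off) * ((2 ^ k : ℕ) : ℤ) ^ (m.code r + (f + r.rg * g)) +
        ((2 ^ k : ℕ) : ℤ) ^ (m.code r + (f + r.rg * g + 1)) *
          (((p / 2 ^ k : ℕ) : ℤ) - off * (ons (2 ^ k) n : ℤ)) =
        ((2 ^ k : ℕ) : ℤ) ^ (m.code r + (f + r.rg * g)) *
          ((p : ℤ) - off * (ons (2 ^ k) (n + 1) : ℤ)) := by
      have e2 : (p : ℤ) = ((p % 2 ^ k : ℕ) : ℤ) + ((2 ^ k : ℕ) : ℤ) * ((p / 2 ^ k : ℕ) : ℤ) := by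
        exact_mod_cast (Nat.mod_add_div p (2 ^ k)).symm
      have e3 : (ons (2 ^ k) (n + 1) : ℤ) = 1 + ((2 ^ k : ℕ) : ℤ) * (ons (2 ^ k) n : ℤ) := by
        show ((1 + 2 ^ k * ons (2 ^ k) n : ℕ) : ℤ) = _
        push_cast; ring
      rw [e3, show m.code r + (f + r.rg * g + 1) = (m.code r + (f + r.rg * g)) + 1 from rfl,
        pow_succ]
      generalize m.code r + (f + r.rg * g) = c0
      generalize hq : p % 2 ^ k = q at *
      generalize hq' : p / 2 ^ k = q' at *
      rw [e2]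
      ring
    have e4 : ((((p % 2 ^ k : ℕ) : ℤ) - off : ℤ) : ℝ) * (mfg m f g).val x +
        lfr (2 ^ k) off r.rg x m n (nxf r.rg f) (nxg r.rg f g) (p / 2 ^ k) =
        lfr (2 ^ k) off r.rg x m (n + 1) f g p := by
      rw [lfr]
      generalize p % 2 ^ k = q
      push_cast; ring
    rw [e1, e4] at r3
    refine r3.mono (le_of_eq ?_)
    ring

/-- the monomial is admissible -/
noncomputable def mOkb (N : Bd) (m : Mon) : Bool :=
  Nat.beq m.f 0 && Nat.beq m.g 0 && m.inbW N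

noncomputable def lsOk (k o2 n : ℕ) (N : Bd) (m : Mon) : List Lf → Bool
  | [] => true
  | t :: l => mOkb N (m.add t.m) && Nat.ble t.n n && dgOk (2 ^ k) o2 t.n t.p && lsOk k o2 n N m l

noncomputable def gsOk (k o2 n : ℕ) (N : Bd) : List Gp → Bool
  | [] => true
  | t :: l => lsOk k o2 n N t.m t.l && gsOk k o2 n N l

/-- number of digits -/
def lsl : List Lf → ℕ
  | [] => 0
  | t :: l => Nat.add t.n (lsl l)

def gsl : List Gp → ℕ
  | [] => 0
  | t :: l => Nat.add (lsl t.l) (gsl l)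

/-- sums of the shifted packed numbers, and of the shifted constants -/
noncomputable def lsv (k : ℕ) (r : Rad) (l : List Lf) : ℕ :=
  List.rec 0 (fun t _ ih => Nat.add (Nat.shiftLeft t.p (Nat.mul k (t.m.code r))) ih) l

noncomputable def lso (k : ℕ) (r : Rad) (off : ℕ) (l : List Lf) : ℕ :=
  List.rec 0 (fun t _ ih => Nat.add (Nat.shiftLeft (Nat.mul off (ons (2 ^ k) t.n))
    (Nat.mul k (t.m.code r))) ih) l

noncomputable def gsv (k : ℕ) (r : Rad) (l : List Gp) : ℕ :=
  List.rec 0 (fun t _ ih => Nat.add (Nat.shiftLeft (lsv k r t.l) (Nat.mul k (t.m.code r))) ih) l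

noncomputable def gso (k : ℕ) (r : Rad) (off : ℕ) (l : List Gp) : ℕ :=
  List.rec 0 (fun t _ ih => Nat.add (Nat.shiftLeft (lso k r off t.l) (Nat.mul k (t.m.code r)))
    ih) l

lemma rep_ls {off o2 n : ℕ} (ho : o2 = 2 * off) {x : Pnt} (hr : r.rg = N.f + 1)
    (hn : n ≤ r.rg * (N.g + 1)) (m : Mon) (l : List Lf) (h : lsOk k o2 n N m l = true) :
    RepW ((2 ^ k : ℕ) : ℤ) r x N (lsl l * off)
      (((2 ^ k : ℕ) : ℤ) ^ (m.code r) * ((lsv k r l : ℤ) - (lso k r off l : ℤ)))
      (lsr (2 ^ k) off r.rg x m l) := by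
  induction l with
  | nil =>
    have h1 := RepW.zero (w := ((2 ^ k : ℕ) : ℤ)) (r := r) (x := x) N 0
    have e0 : lsl ([] : List Lf) * off = 0 := by
      show 0 * off = 0
      rw [Nat.zero_mul]
    have e1 : ((2 ^ k : ℕ) : ℤ) ^ (m.code r) *
        ((lsv k r ([] : List Lf) : ℤ) - (lso k r off ([] : List Lf) : ℤ)) = 0 := by
      show ((2 ^ k : ℕ) : ℤ) ^ (m.code r) * (((0 : ℕ) : ℤ) - ((0 : ℕ) : ℤ)) = 0
      simp
    rw [e0, e1]
    exact h1
  | cons t l ih =>
    simp only [lsOk, Bool.and_eq_true, mOkb] at h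
    obtain ⟨⟨⟨⟨⟨h1, h2⟩, h3⟩, h6⟩, h4⟩, h5⟩ := h
    have h1 := Nat.eq_of_beq_eq_true h1
    have h2 := Nat.eq_of_beq_eq_true h2
    have h3 := Mon.inbW_sound h3
    have h6 := Nat.le_of_ble_eq_true h6
    have hm : ∀ f g : ℕ, f ≤ N.f → g ≤ N.g → (mfg (m.add t.m) f g).InW N := by
      intro f g hf hg
      obtain ⟨a1, a2, a3, a4, a5, a6, a7⟩ := h3
      exact ⟨a1, a2, a3, a4, hf, hg, a7⟩
    have r1 := rep_lf (k := k) (r := r) (N := N) ho (x := x) hm h1 h2 hr t.n 0 0 (by omega)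
      (by simpa using h6.trans hn) t.p h4
    have r2 := r1.add (ih h5)
    have e1 : ((2 ^ k : ℕ) : ℤ) ^ ((m.add t.m).code r + (0 + r.rg * 0)) *
          ((t.p : ℤ) - off * (ons (2 ^ k) t.n : ℤ)) +
        ((2 ^ k : ℕ) : ℤ) ^ (m.code r) * ((lsv k r l : ℤ) - (lso k r off l : ℤ)) =
        ((2 ^ k : ℕ) : ℤ) ^ (m.code r) * ((lsv k r (t :: l) : ℤ) - (lso k r off (t :: l) : ℤ)) := by
      have e2 : lsv k r (t :: l) = (t.p <<< (k * t.m.code r)) + lsv k r l := rfl
      have e3 : lso k r off (t :: l) =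
        ((off * ons (2 ^ k) t.n) <<< (k * t.m.code r)) + lso k r off l := rfl
      rw [e2, e3, Nat.shiftLeft_eq, Nat.shiftLeft_eq, Mon.code_add, pow_mul, mul_zero, add_zero,
        add_zero, pow_add]
      generalize lso k r off l = o'
      generalize lsv k r l = v'
      push_cast
      ring
    have e4 : lfr (2 ^ k) off r.rg x (m.add t.m) t.n 0 0 t.p + lsr (2 ^ k) off r.rg x m l =
        lsr (2 ^ k) off r.rg x m (t :: l) := rfl
    rw [e1, e4] at r2
    refine r2.mono (le_of_eq ?_)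
    show _ = (t.n + lsl l) * off
    ring

lemma rep_gs {off o2 n : ℕ} (ho : o2 = 2 * off) {x : Pnt} (hr : r.rg = N.f + 1)
    (hn : n ≤ r.rg * (N.g + 1)) (l : List Gp) (h : gsOk k o2 n N l = true) :
    RepW ((2 ^ k : ℕ) : ℤ) r x N (gsl l * off)
      ((gsv k r l : ℤ) - (gso k r off l : ℤ)) (gsr (2 ^ k) off r.rg x l) := by
  induction l with
  | nil =>
    have h1 := RepW.zero (w := ((2 ^ k : ℕ) : ℤ)) (r := r) (x := x) N 0
    have e0 : gsl ([] : List Gp) * off = 0 := by
      show 0 * off = 0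
      rw [Nat.zero_mul]
    rw [e0]
    exact h1
  | cons t l ih =>
    simp only [gsOk, Bool.and_eq_true] at h
    obtain ⟨h1, h2⟩ := h
    have r2 := (rep_ls (k := k) (r := r) (N := N) ho (x := x) hr hn t.m t.l h1).add (ih h2)
    have e1 : ((2 ^ k : ℕ) : ℤ) ^ (t.m.code r) * ((lsv k r t.l : ℤ) - (lso k r off t.l : ℤ)) +
        ((gsv k r l : ℤ) - (gso k r off l : ℤ)) =
        (gsv k r (t :: l) : ℤ) - (gso k r off (t :: l) : ℤ) := by
      have e2 : gsv k r (t :: l) = (lsv k r t.l <<< (k * t.m.code r)) + gsv k r l := rfl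
      have e3 : gso k r off (t :: l) = (lso k r off t.l <<< (k * t.m.code r)) + gso k r off l := rfl
      rw [e2, e3, Nat.shiftLeft_eq, Nat.shiftLeft_eq, pow_mul]
      generalize lso k r off t.l = o'
      generalize lsv k r t.l = v'
      generalize gso k r off l = o''
      generalize gsv k r l = v''
      push_cast
      ring
    have e4 : lsr (2 ^ k) off r.rg x t.m t.l + gsr (2 ^ k) off r.rg x l =
        gsr (2 ^ k) off r.rg x (t :: l) := rfl
    rw [e1, e4] at r2
    refine r2.mono (le_of_eq ?_)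
    show _ = (lsl t.l + gsl l) * off
    ring

end

noncomputable def Pk.ok (P : Pk) (k : ℕ) (r : Rad) (N : Bd) : Bool :=
  Nat.beq P.k k && Nat.beq P.rg r.rg && Nat.beq r.rg (N.f + 1) &&
    gsOk P.k (Nat.mul 2 P.off) (r.rg * (N.g + 1)) N P.l

noncomputable def Pk.v (P : Pk) (r : Rad) : ℤ :=
  Int.sub (Int.ofNat (gsv P.k r P.l)) (Int.ofNat (gso P.k r P.off P.l))

noncomputable def Pk.nm (P : Pk) : ℕ := Nat.mul (gsl P.l) P.off

lemma Pk.rep {P : Pk} {k : ℕ} {r : Rad} {N : Bd} (h : P.ok k r N = true) (x : Pnt) :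
    RepW ((2 ^ k : ℕ) : ℤ) r x N P.nm (P.v r) (P.re x) := by
  simp only [Pk.ok, Bool.and_eq_true] at h
  obtain ⟨⟨⟨h1, h2⟩, h3⟩, h5⟩ := h
  have h1 := Nat.eq_of_beq_eq_true h1
  have h2 := Nat.eq_of_beq_eq_true h2
  have h3 := Nat.eq_of_beq_eq_true h3
  subst h1
  have := rep_gs (k := P.k) (r := r) (N := N) (o2 := Nat.mul 2 P.off) (off := P.off) rfl (x := x)
    h3 le_rfl P.l h5
  unfold Pk.re
  rw [h2]
  exact this

/-- `sum of s t + sum of plus - sum of minus = sum of squares` -/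
structure CertK where
  k : ℕ
  r : Rad
  N : Bd
  tg : List (ℕ × Ex)
  plus : List Pk
  minus : List Pk
  blocks : List Blk

noncomputable def tev (X : IPt) : List (ℕ × Ex) → ℤ
  | [] => 0
  | t :: l => Int.add (Int.mul (Int.ofNat t.1) (t.2.ev X)) (tev X l)

noncomputable def tnm : List (ℕ × Ex) → ℕ
  | [] => 0
  | t :: l => Nat.add (Nat.mul t.1 t.2.nm) (tnm l)

noncomputable def tok (N : Bd) : List (ℕ × Ex) → Bool
  | [] => true
  | t :: l => t.2.okW && t.2.bdW.leb N && tok N l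

noncomputable def tre (x : Pnt) : List (ℕ × Ex) → ℝ
  | [] => 0
  | t :: l => (t.1 : ℝ) * t.2.re x + tre x l

noncomputable def pev (r : Rad) : List Pk → ℤ
  | [] => 0
  | P :: l => Int.add (P.v r) (pev r l)

noncomputable def pnm : List Pk → ℕ
  | [] => 0
  | P :: l => Nat.add P.nm (pnm l)

noncomputable def pok (k : ℕ) (r : Rad) (N : Bd) : List Pk → Bool
  | [] => true
  | P :: l => P.ok k r N && pok k r N l

noncomputable def pre (x : Pnt) : List Pk → ℝ
  | [] => 0
  | P :: l => P.re x + pre x l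

noncomputable def CertK.check (c : CertK) : Bool :=
  c.r.okb c.N && tok c.N c.tg && pok c.k c.r c.N c.plus && pok c.k c.r c.N c.minus &&
    bokW c.k c.r c.N c.blocks &&
    Nat.blt (Nat.add (Nat.add (tnm c.tg) (Nat.add (pnm c.plus) (pnm c.minus))) (bnm c.blocks))
      (Nat.pow 2 c.k) &&
    eqi (Int.add (tev (ipt c.k c.r) c.tg) (pev c.r c.plus))
      (Int.add (bsumF (ipt c.k c.r) c.blocks) (pev c.r c.minus))

lemma tev_rep {k : ℕ} {r : Rad} {N : Bd} (l : List (ℕ × Ex)) (h : tok N l = true) (x : Pnt) :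
    RepW ((2 ^ k : ℕ) : ℤ) r x N (tnm l) (tev (ipt k r) l) (tre x l) := by
  induction l with
  | nil => exact RepW.zero _ _
  | cons t l ih =>
    simp only [tok, Bool.and_eq_true] at h
    obtain ⟨⟨h1, h2⟩, h3⟩ := h
    have r1 := ((Ex.repW (w := ((2 ^ k : ℕ) : ℤ)) (r := r) (x := x) t.2 h1).le
      (Bd.leb_sound h2)).smul (t.1 : ℤ)
    rw [← ipt_eq] at r1
    have r2 := r1.add (ih h3)
    have e1 : ((t.1 : ℤ) : ℝ) = (t.1 : ℝ) := by push_cast; rfl
    rw [e1] at r2
    exact r2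

lemma pev_rep {k : ℕ} {r : Rad} {N : Bd} (l : List Pk) (h : pok k r N l = true) (x : Pnt) :
    RepW ((2 ^ k : ℕ) : ℤ) r x N (pnm l) (pev r l) (pre x l) := by
  induction l with
  | nil => exact RepW.zero _ _
  | cons P l ih =>
    simp only [pok, Bool.and_eq_true] at h
    exact (Pk.rep h.1 x).add (ih h.2)

theorem CertK.sound {c : CertK} (h : c.check = true) (x : Pnt) :
    tre x c.tg + pre x c.plus = brs x c.blocks + pre x c.minus := by
  simp only [CertK.check, Bool.and_eq_true, Nat.blt_eq] at h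
  obtain ⟨⟨⟨⟨⟨⟨h1, h2⟩, h3⟩, h4⟩, h5⟩, h6⟩, h7⟩ := h
  rw [bsumF_eq _ _ h5] at h7
  have r1 := (tev_rep (k := c.k) (r := c.r) c.tg h2 x).add (pev_rep c.plus h3 x)
  have r2 := (bsum_repW c.blocks h5 x).smul (-1)
  have r3 := (pev_rep c.minus h4 x).smul (-1)
  have r4 := (r1.add r2).add r3
  have e7 := eqi_sound h7
  have e8 : tev (ipt c.k c.r) c.tg + pev c.r c.plus + -1 * bsum (ipt c.k c.r) c.blocks
      + -1 * pev c.r c.minus = 0 := by
    have : tev (ipt c.k c.r) c.tg + pev c.r c.plus =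
      bsum (ipt c.k c.r) c.blocks + pev c.r c.minus := e7
    rw [this]; ring
  rw [e8] at r4
  have r5 := r4.eq_zero (Rad.okb_sound h1) (by
    have h6' : tnm c.tg + (pnm c.plus + pnm c.minus) + bnm c.blocks < 2 ^ c.k := h6
    have e9 : tnm c.tg + pnm c.plus + (-1 : ℤ).natAbs * bnm c.blocks +
      (-1 : ℤ).natAbs * pnm c.minus = tnm c.tg + (pnm c.plus + pnm c.minus) + bnm c.blocks := by
      simp; ring
    rw [e9]; exact h6')
  push_cast at r5
  (clear * - r5; linarith only [r5])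

end Pool.Sos71

end

section

namespace Pool.Sos71
end Pool.Sos71

set_option autoImplicit false

/-!
MP_16b0ee, project EK3 (after helper98): a form of a block is bounded by a power of `1 + u² + v²` if its basis has
no factors `P, R` and small degrees in `u, v`.
-/

namespace Pool.Sos71.Bdd

open Pool.Sos71

/-- the size of a point -/
noncomputable def rho (x : Pnt) : ℝ := Real.sqrt (1 + x.f ^ 2 + x.g ^ 2)

theorem rho_one (x : Pnt) : 1 ≤ rho x := by
  unfold rho
  rw [Real.one_le_sqrt]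
  nlinarith only []

theorem rho_sq (x : Pnt) : rho x ^ 2 = 1 + x.f ^ 2 + x.g ^ 2 :=
  Real.sq_sqrt (by (clear * -; positivity))

theorem f_le (x : Pnt) : |x.f| ≤ rho x := by
  unfold rho
  rw [← Real.sqrt_sq_eq_abs]
  exact Real.sqrt_le_sqrt (by (clear * -; nlinarith only []))

theorem g_le (x : Pnt) : |x.g| ≤ rho x := by
  unfold rho
  rw [← Real.sqrt_sq_eq_abs]
  exact Real.sqrt_le_sqrt (by nlinarith only [])

end Pool.Sos71.Bdd

end

section

namespace Pool.Sos71
end Pool.Sos71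

set_option autoImplicit false

/-!
# Project CKC: bounds of the disc blocks, with growth (after helper71 and helper98)
-/

namespace Pool.Agent.Helper42.CKC.Bdd

open Pool.Sos71

/-- no factors `P, R`, and degree at most `K + min` of the exponents of `S`, `C` -/
def mob (K : ℕ) (m : Mon) : Bool :=
  Nat.beq m.d 0 && Nat.beq m.e 0 && (Nat.ble (m.f + m.g) (K + m.b) && Nat.ble (m.f + m.g) (K + m.c))

def itb (K : ℕ) : List Itm → Bool
  | [] => true
  | i :: it => mob K (i.m.add i.f.m1) && mob K (i.m.add i.f.m2) && itb K it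

theorem mob_iff {K : ℕ} {m : Mon} (h : mob K m = true) :
    m.d = 0 ∧ m.e = 0 ∧ m.f + m.g ≤ K + m.b ∧ m.f + m.g ≤ K + m.c := by
  simp only [mob, Bool.and_eq_true, Nat.ble_eq] at h
  obtain ⟨⟨h1, h2⟩, h3, h4⟩ := h
  exact ⟨Nat.eq_of_beq_eq_true h1, Nat.eq_of_beq_eq_true h2, h3, h4⟩

/-- the size of a point -/
noncomputable def rho (x : Pnt) : ℝ := Real.sqrt (1 + x.f ^ 2 + x.g ^ 2)

/-- points of the domain -/
structure Dom0 (L : ℝ) (x : Pnt) : Prop where
  a0 : 0 ≤ x.a
  a1 : x.a ≤ L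
  b0 : 0 ≤ x.b
  b1 : x.b ≤ 1
  c0 : 0 ≤ x.c
  c1 : x.c ≤ 1
  r : x.b * x.c * rho x ≤ 6

theorem rho_one (x : Pnt) : 1 ≤ rho x := by
  unfold rho
  rw [Real.one_le_sqrt]
  nlinarith [sq_nonneg x.f, sq_nonneg x.g]

theorem rho_sq (x : Pnt) : rho x ^ 2 = 1 + x.f ^ 2 + x.g ^ 2 :=
  Real.sq_sqrt (by (clear * -; positivity))

theorem f_le (x : Pnt) : |x.f| ≤ rho x := by
  unfold rho
  rw [← Real.sqrt_sq_eq_abs]
  exact Real.sqrt_le_sqrt (by nlinarith [sq_nonneg x.g])

theorem g_le (x : Pnt) : |x.g| ≤ rho x := by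
  unfold rho
  rw [← Real.sqrt_sq_eq_abs]
  exact Real.sqrt_le_sqrt (by nlinarith [sq_nonneg x.f])

/-- the key estimate -/
theorem pw_le {b c r : ℝ} (hb : 0 ≤ b) (hb1 : b ≤ 1) (hc : 0 ≤ c) (hc1 : c ≤ 1) (hr : 1 ≤ r)
    (h : b * c * r ≤ 6) {K i j n : ℕ} (h1 : n ≤ K + i) (h2 : n ≤ K + j) :
    b ^ i * c ^ j * r ^ n ≤ 6 ^ i * r ^ K := by
  have hr0 : 0 ≤ r := by linarith only [hr]
  rcases Nat.le_total n K with h3 | h3
  · have e1 : b ^ i ≤ 1 := pow_le_one₀ hb hb1
    have e2 : c ^ j ≤ 1 := pow_le_one₀ hc hc1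
    have e3 : r ^ n ≤ r ^ K := pow_le_pow_right₀ hr h3
    have e4 : (1:ℝ) ≤ 6 ^ i := one_le_pow₀ (by norm_num)
    have e5 : b ^ i * c ^ j ≤ 1 := mul_le_one₀ e1 (pow_nonneg hc _) e2
    calc b ^ i * c ^ j * r ^ n ≤ 1 * r ^ K :=
          mul_le_mul e5 e3 (pow_nonneg hr0 _) zero_le_one
      _ ≤ 6 ^ i * r ^ K := mul_le_mul_of_nonneg_right e4 (pow_nonneg hr0 _)
  · obtain ⟨m, rfl⟩ := Nat.exists_eq_add_of_le h3
    obtain ⟨i', rfl⟩ := Nat.exists_eq_add_of_le (by omega : m ≤ i)
    obtain ⟨j', rfl⟩ := Nat.exists_eq_add_of_le (by omega : m ≤ j)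
    have e1 : b ^ i' ≤ 1 := pow_le_one₀ hb hb1
    have e2 : c ^ j' ≤ 1 := pow_le_one₀ hc hc1
    have e5 : b ^ i' * c ^ j' ≤ 1 := mul_le_one₀ e1 (pow_nonneg hc _) e2
    have e6 : (b * c * r) ^ m ≤ 6 ^ m := pow_le_pow_left₀ (by positivity) h m
    have e7 : (6:ℝ) ^ m ≤ 6 ^ (m + i') := pow_le_pow_right₀ (by norm_num) (Nat.le_add_right _ _)
    calc b ^ (m + i') * c ^ (m + j') * r ^ (K + m) =
          (b * c * r) ^ m * (b ^ i' * c ^ j') * r ^ K := by
          rw [pow_add, pow_add, pow_add, mul_pow, mul_pow]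
          ring
      _ ≤ 6 ^ m * 1 * r ^ K := by
          refine mul_le_mul_of_nonneg_right ?_ (pow_nonneg hr0 _)
          exact mul_le_mul e6 e5 (by (clear * - hb hc; positivity)) (by positivity)
      _ = 6 ^ m * r ^ K := by ring
      _ ≤ 6 ^ (m + i') * r ^ K := mul_le_mul_of_nonneg_right e7 (pow_nonneg hr0 _)

theorem mon_le {K : ℕ} {L : ℝ} {x : Pnt} (hx : Dom0 L x) {m : Mon}
    (h : mob K m = true) : |m.val x| ≤ L ^ m.a * 6 ^ m.b * rho x ^ K := by
  obtain ⟨hd, he, h1, h2⟩ := mob_iff h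
  have hr := rho_one x
  have hr0 : 0 ≤ rho x := by linarith only [hr]
  have hL0 : 0 ≤ L := hx.a0.trans hx.a1
  unfold Mon.val
  rw [hd, he, pow_zero, pow_zero, mul_one, mul_one]
  simp only [abs_mul, abs_pow]
  rw [abs_of_nonneg hx.a0, abs_of_nonneg hx.b0, abs_of_nonneg hx.c0]
  have e1 : x.a ^ m.a ≤ L ^ m.a := pow_le_pow_left₀ hx.a0 hx.a1 _
  have e4 : |x.f| ^ m.f ≤ rho x ^ m.f := pow_le_pow_left₀ (abs_nonneg _) (f_le x) _
  have e5 : |x.g| ^ m.g ≤ rho x ^ m.g := pow_le_pow_left₀ (abs_nonneg _) (g_le x) _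
  have e6 := pw_le hx.b0 hx.b1 hx.c0 hx.c1 hr hx.r h1 h2
  have hb := pow_nonneg hx.b0 m.b
  have hc := pow_nonneg hx.c0 m.c
  calc x.a ^ m.a * x.b ^ m.b * x.c ^ m.c * |x.f| ^ m.f * |x.g| ^ m.g
      ≤ L ^ m.a * x.b ^ m.b * x.c ^ m.c * rho x ^ m.f * rho x ^ m.g := by (clear * - e1 hb hc e4 hL0 e5 hr; gcongr)
    _ = L ^ m.a * (x.b ^ m.b * x.c ^ m.c * rho x ^ (m.f + m.g)) := by rw [pow_add]; ring
    _ ≤ L ^ m.a * (6 ^ m.b * rho x ^ K) := mul_le_mul_of_nonneg_left e6 (pow_nonneg hL0 _)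
    _ = _ := by ring

theorem itb_cons {K : ℕ} {i : Itm} {it : List Itm} (h : itb K (i :: it) = true) :
    mob K (i.m.add i.f.m1) = true ∧ mob K (i.m.add i.f.m2) = true ∧ itb K it = true := by
  simp only [itb, Bool.and_eq_true] at h
  obtain ⟨⟨h1, h2⟩, h3⟩ := h
  exact ⟨h1, h2, h3⟩

/-- the bound of one element -/
noncomputable def cb (L : ℝ) (i : Itm) : ℝ :=
  i.f.c * (L ^ (i.m.add i.f.m1).a * 6 ^ (i.m.add i.f.m1).b) +
    i.f.d * (L ^ (i.m.add i.f.m2).a * 6 ^ (i.m.add i.f.m2).b)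

theorem cb_nonneg {L : ℝ} (hL : 0 ≤ L) (i : Itm) : 0 ≤ cb L i := by unfold cb; (clear * - hL; positivity)

theorem itm_le {K : ℕ} {L : ℝ} {x : Pnt} (hx : Dom0 L x) {i : Itm}
    (h1 : mob K (i.m.add i.f.m1) = true) (h2 : mob K (i.m.add i.f.m2) = true) :
    |i.re x| ≤ cb L i * rho x ^ K := by
  have g1 := mon_le hx h1
  have g2 := mon_le hx h2
  have c1 : (0:ℝ) ≤ i.f.c := Nat.cast_nonneg _
  have c2 : (0:ℝ) ≤ i.f.d := Nat.cast_nonneg _
  have k1 := mul_le_mul_of_nonneg_left g1 c1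
  have k2 := mul_le_mul_of_nonneg_left g2 c2
  have e : ∀ s : ℝ, |s| ≤ 1 → |i.f.c * (i.m.add i.f.m1).val x + s * (i.f.d * (i.m.add i.f.m2).val x)| ≤
      cb L i * rho x ^ K := by
    intro s hs
    refine (abs_add_le _ _).trans ?_
    rw [abs_mul, abs_mul s, abs_mul (i.f.d : ℝ), abs_of_nonneg c1, abs_of_nonneg c2]
    have : |s| * (i.f.d * |(i.m.add i.f.m2).val x|) ≤ i.f.d * |(i.m.add i.f.m2).val x| :=
      mul_le_of_le_one_left (mul_nonneg c2 (abs_nonneg _)) hs
    unfold cb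
    rw [add_mul]
    linarith only [k1, k2, this]
  unfold Itm.re Fac.re
  rcases i.f.s with _ | _
  · have := e 1 (by simp)
    rw [Mon.val_add, Mon.val_add] at this
    refine le_trans (le_of_eq ?_) this
    congr 1
    simp only
    ring
  · have := e (-1) (by simp)
    rw [Mon.val_add, Mon.val_add] at this
    refine le_trans (le_of_eq ?_) this
    congr 1
    simp only
    ring

theorem rab_bd {K : ℕ} {L : ℝ} (hL : 0 ≤ L) (it : List Itm) (h : itb K it = true) :
    ∃ C : ℝ, 0 ≤ C ∧ ∀ x, Dom0 L x → rab x it ≤ C * rho x ^ K := by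
  induction it with
  | nil => exact ⟨0, le_rfl, fun x _ => by simp [rab]⟩
  | cons i it ih =>
    obtain ⟨h1, h2, h4⟩ := itb_cons h
    obtain ⟨C, hC, hC'⟩ := ih h4
    have hcb := cb_nonneg hL i
    refine ⟨cb L i + C, by (clear * - hcb hC; positivity), fun x hx => ?_⟩
    have := itm_le hx h1 h2
    have := hC' x hx
    rw [rab]
    linarith

theorem rz2_bd {K : ℕ} {L : ℝ} (hL : 0 ≤ L) (it : List Itm) (h : itb K it = true) :
    ∃ C : ℝ, 0 ≤ C ∧ ∀ x, Dom0 L x → rz2 x it ≤ C * (rho x ^ K) ^ 2 := by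
  induction it with
  | nil => exact ⟨0, le_rfl, fun x _ => by simp [rz2]⟩
  | cons i it ih =>
    obtain ⟨h1, h2, h4⟩ := itb_cons h
    obtain ⟨C, hC, hC'⟩ := ih h4
    have hcb := cb_nonneg hL i
    refine ⟨(cb L i) ^ 2 + C, by (clear * - hC; positivity), fun x hx => ?_⟩
    have h5 := itm_le hx h1 h2
    have h6 := hC' x hx
    have h7 : i.re x ^ 2 ≤ (cb L i * rho x ^ K) ^ 2 := by
      rw [← sq_abs]
      exact pow_le_pow_left₀ (abs_nonneg _) h5 2
    rw [rz2]
    (clear * - h6 h7; linarith only [h6, h7])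

theorem rsq_bd {B off : ℕ} (hB : B = 2 * off) (h0 : 0 < off) {K : ℕ} {L : ℝ} (hL : 0 ≤ L)
    (it : List Itm) (h : itb K it = true) (Ls : List ℕ) :
    ∃ C : ℝ, 0 ≤ C ∧ ∀ x, Dom0 L x → rsq B off x it Ls ≤ C * (rho x ^ K) ^ 2 := by
  induction it generalizing Ls with
  | nil => exact ⟨0, le_rfl, fun x _ => by simp [rsq]⟩
  | cons i it ih =>
    cases Ls with
    | nil => exact ⟨0, le_rfl, fun x _ => by simp [rsq]⟩
    | cons l Ls =>
      obtain ⟨C, hC, hC'⟩ := ih (itb_cons h).2.2 Ls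
      obtain ⟨D, hD, hD'⟩ := rab_bd hL (i :: it) h
      refine ⟨(off * D) ^ 2 + C, by (clear * - hC; positivity), fun x hx => ?_⟩
      have h1 := rl_abs hB h0 x (i :: it) l
      have h2 := hD' x hx
      have h3 := hC' x hx
      have hoff : (0 : ℝ) ≤ off := Nat.cast_nonneg _
      have h4 : |rl B off x (i :: it) l| ≤ off * D * rho x ^ K := by
        refine h1.trans ?_
        rw [mul_assoc]
        exact mul_le_mul_of_nonneg_left h2 hoff
      have h5 : rl B off x (i :: it) l ^ 2 ≤ (off * D * rho x ^ K) ^ 2 := by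
        rw [← sq_abs]
        exact pow_le_pow_left₀ (abs_nonneg _) h4 2
      rw [rsq]
      linarith only [h3, h5]

/-- **the form of a block is bounded** -/
theorem q_bd {b : Blk} {k : ℕ} {r : Rad} (hb : b.ok k r = true) {K : ℕ}
    (hi : itb K b.its = true) {L : ℝ} (hL : 0 ≤ L) :
    ∃ C : ℝ, 0 ≤ C ∧ ∀ x, Dom0 L x → b.q x ≤ C * (1 + x.f ^ 2 + x.g ^ 2) ^ K := by
  simp only [Blk.ok, Bool.and_eq_true, Nat.blt_eq] at hb
  obtain ⟨⟨⟨⟨⟨⟨_, _⟩, h3⟩, h4⟩, h5⟩, h6⟩, _⟩ := hb
  have h3 := Nat.eq_of_beq_eq_true h3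
  have h5 := Nat.eq_of_beq_eq_true h5
  obtain ⟨C, hC, hC'⟩ := rsq_bd h3 h4 hL b.its hi b.L
  obtain ⟨D, hD, hD'⟩ := rz2_bd hL b.its hi
  refine ⟨C + b.dl * D + (b.its.length + 1) * b.offE * D, by (clear * - hC hD h6; positivity), fun x hx => ?_⟩
  have e : (rho x ^ K) ^ 2 = (1 + x.f ^ 2 + x.g ^ 2) ^ K := by
    rw [← rho_sq, ← pow_mul, ← pow_mul, mul_comm]
  have h7 := hC' x hx
  have h8 := hD' x hx
  have h9 := rex_abs h5 h6 x b.its b.E
  have h10 := le_abs_self (rex b.BE b.offE x b.its b.E)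
  rw [e] at h7 h8
  have h11 : (b.dl : ℝ) * rz2 x b.its ≤ b.dl * (D * (1 + x.f ^ 2 + x.g ^ 2) ^ K) :=
    mul_le_mul_of_nonneg_left h8 (Nat.cast_nonneg _)
  have h12 : ((b.its.length : ℝ) + 1) * b.offE * rz2 x b.its ≤
      ((b.its.length : ℝ) + 1) * b.offE * (D * (1 + x.f ^ 2 + x.g ^ 2) ^ K) :=
    mul_le_mul_of_nonneg_left h8 (by (clear * - h6; positivity))
  have h13 : 0 ≤ ((b.its.length : ℝ) + 1) * b.offE * (D * (1 + x.f ^ 2 + x.g ^ 2) ^ K) := by
    (clear * - h6 hD; positivity)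
  rw [Blk.q]
  linarith only [h7, h9, h10, h11, h12, h13]

end Pool.Agent.Helper42.CKC.Bdd

end

section

/-!
The fast evaluation for the checker with the weights `S, C : 1`, `P, R : 2`.
-/

set_option autoImplicit false

namespace Pool.Sos71

section

variable {k : ℕ} {r : Rad} {N : Bd} {nf : ℕ}

lemma dot_grpP {B off : ℕ} (it : List Itm) (h : Gd k r N nf it) (he : Ge it) (p acc t : ℕ)
    (h0 : it = [] → acc = t) :
    dotS (grp B it p acc (gT off it t)) (gV it) =
      ((acc : ℤ) - t) * eb it + ((sd B it p : ℤ) - off * (tot it : ℤ)) := by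
  induction it generalizing p acc t with
  | nil => rw [grp_nil]; simp [dotS, sd, tot, h0 rfl]
  | cons i it ih =>
    obtain ⟨_, h3, h4⟩ := h
    obtain ⟨e1, e2⟩ := he
    have e3 : tot (i :: it) = i.v + tot it := rfl
    rw [gT, sd, Itm.v_eq, e3, Itm.v_eq]
    rw [eb] at h3 ⊢
    have hs : ∀ y : ℕ, (((y <<< i.a : ℕ)) : ℤ) = (y : ℤ) * 2 ^ i.a := by
      intro y; rw [Nat.shiftLeft_eq]; push_cast; ring
    rcases ho : i.e with _ | _
    · simp only [ho] at h3 ⊢
      have hne : it ≠ [] := by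
        rcases e1 with e1 | e1
        · rw [ho] at e1; exact absurd e1 (by decide)
        · exact e1
      have hV : gV (i :: it) = gV it := by
        unfold gV; rw [gF, ho]
      rw [hV, grp_f ho]
      rw [ih h4 e2 _ _ _ (fun hh => absurd hh hne)]
      show ((((acc + (p % B) <<< i.a : ℕ)) : ℤ) - ((t + off <<< i.a : ℕ) : ℤ)) * (eb it : ℤ)
        + (((sd B it (p / B) : ℕ) : ℤ) - off * (tot it : ℤ)) = _
      rw [h3]
      generalize p % B = d
      generalize p / B = p'
      push_cast [hs]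
      ring
    · simp only [ho] at h3 ⊢
      have hV : gV (i :: it) = i.f.V :: gV it := by
        unfold gV; rw [gF, ho]; rfl
      rw [hV, grp_t ho]
      simp only [dotS]
      rw [ih h4 e2 _ _ _ (fun _ => rfl), mkS_z]
      show ((((acc + (p % B) <<< i.a : ℕ)) : ℤ) - ((t + off <<< i.a : ℕ) : ℤ)) * (i.f.V : ℤ)
        + ((((0 : ℕ) : ℤ) - ((0 : ℕ) : ℤ)) * (eb it : ℤ)
          + (((sd B it (p / B) : ℕ) : ℤ) - off * (tot it : ℤ))) = _
      generalize p % B = d
      generalize p / B = p'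
      push_cast [hs]
      ring

lemma sqF_zP {B off : ℕ} (it : List Itm) (h : Gd k r N nf it) (he : Ge it) (Ls : List ℕ)
    (M : List (List Cell)) :
    (sqF B off it Ls (gT off it 0) (gF it) M).z =
      Q M (gV it) + ((sqs B off it Ls (tot it) : ℕ) : ℤ) := by
  induction it generalizing Ls M with
  | nil =>
    rw [sqF_nil, finM_z]
    show _ = Q M (gV []) + ((0 : ℕ) : ℤ)
    rw [Nat.cast_zero, add_zero]; rfl
  | cons i it ih =>
    cases Ls with
    | nil =>
      rw [sqF_cn, finM_z]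
      show _ = Q M (gV (i :: it)) + ((0 : ℕ) : ℤ)
      rw [Nat.cast_zero, add_zero]; rfl
    | cons L Ls =>
      have hd := dot_grpP (B := B) (off := off) (i :: it) h he L 0 0 (fun _ => rfl)
      have hq := Q_updM (grp B (i :: it) L 0 (gT off (i :: it) 0)) M (gV (i :: it))
      rw [hd] at hq
      have hs : ((sqs B off (i :: it) (L :: Ls) (tot (i :: it)) : ℕ) : ℤ) =
          ((sd B (i :: it) L : ℤ) - off * (tot (i :: it) : ℤ))
            * ((sd B (i :: it) L : ℤ) - off * (tot (i :: it) : ℤ))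
          + ((sqs B off it Ls (tot it) : ℕ) : ℤ) := by
        rw [sqs, tot_sub, lin_eq (i :: it) h, zero_mul, zero_add]
        show ((sqd (sd B (i :: it) L) (off * tot (i :: it)) + sqs B off it Ls (tot it) : ℕ) : ℤ) = _
        push_cast
        rw [sqd_eq]
        push_cast; ring
      rw [hs]
      rcases ho : i.e with _ | _
      · have hT : decT (Nat.shiftLeft off i.a) (gT off (i :: it) 0) = gT off it 0 := by
          rw [gT, ho]
          exact decT_gT off _ it 0
        have hF : gF (i :: it) = gF it := by rw [gF, ho]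
        have hV : gV (i :: it) = gV it := by unfold gV; rw [hF]
        rw [hV] at hq
        rw [hV, sqF_f ho]
        rw [hT, hF, ih h.2.2 he.2, hq]
        push_cast; ring
      · have hT : tlT (gT off (i :: it) 0) = gT off it 0 := by
          rw [gT, ho]; rfl
        have hF : gF (i :: it) = i.f :: gF it := by rw [gF, ho]
        have hV : gV (i :: it) = i.f.V :: gV it := by unfold gV; rw [hF]; rfl
        rw [hF]
        rcases hM : updM (grp B (i :: it) L 0 (gT off (i :: it) 0)) M with _ | ⟨r, M'⟩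
        · exfalso
          have : grp B (i :: it) L 0 (gT off (i :: it) 0) ≠ [] := by
            rw [gT, ho]
            simp only
            rw [grp_t ho]; simp
          revert hM
          rcases hg : grp B (i :: it) L 0 (gT off (i :: it) 0) with _ | ⟨x, xs⟩
          · exact absurd hg this
          · cases M with
            | nil => rw [updM_cn]; simp
            | cons r M => rw [updM_cc]; simp
        · rw [sqF_t ho _ _ _ _ _ _ _ hM, hT]
          rw [hM, hV] at hq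
          simp only [Q] at hq
          rw [finRow_z, ih h.2.2 he.2, hV]
          have hV' : (gF it).map Fac.V = gV it := rfl
          rw [hV']
          push_cast at hq ⊢
          (clear * - hq; linarith only [hq])

lemma exF_zP {B off : ℕ} (it : List Itm) (h : Gd k r N nf it) (he : Ge it) (Es : List ℕ)
    (C : List Cell) :
    (exF B off it Es (gT off it 0) (gF it) C).z =
      eb it * dotC C (gV it) +
        (((eps B it Es : ℕ) : ℤ) - ((ens off it Es (tot it) : ℕ) : ℤ)) := by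
  induction it generalizing Es C with
  | nil =>
    have : gV [] = [] := rfl
    rw [this, dotC_nil]
    show ((0 : ℕ) : ℤ) - ((0 : ℕ) : ℤ) = _
    simp [eps, ens]
  | cons i it ih =>
    cases Es with
    | nil =>
      rw [exF_cn, flE_z]
      show _ = _ + (((0 : ℕ) : ℤ) - ((0 : ℕ) : ℤ))
      ring
    | cons E Es =>
      have hd := dot_grpP (B := B) (off := off) (i :: it) h he E 0 0 (fun _ => rfl)
      have hq := dotC_updE i.a (grp B (i :: it) E 0 (gT off (i :: it) 0)) C (gV (i :: it))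
      rw [hd] at hq
      have e1 : ((eps B (i :: it) (E :: Es) : ℕ) : ℤ)
            - ((ens off (i :: it) (E :: Es) (tot (i :: it)) : ℕ) : ℤ) =
          ((sd B (i :: it) E : ℤ) - off * (tot (i :: it) : ℤ)) * (i.v : ℤ)
          + (((eps B it Es : ℕ) : ℤ) - ((ens off it Es (tot it) : ℕ) : ℤ)) := by
        rw [eps, ens, tot_sub, lin_eq (i :: it) h, zero_mul, zero_add, Itm.ap_eq, Itm.ap_eq]
        show ((sd B (i :: it) E * i.v + eps B it Es : ℕ) : ℤ)
          - (((off * tot (i :: it)) * i.v + ens off it Es (tot it) : ℕ) : ℤ) = _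
        push_cast; ring
      have hv : (i.v : ℤ) = 2 ^ i.a * (eb (i :: it) : ℤ) := by
        rw [Itm.v_eq, h.2.1]; push_cast; ring
      rw [e1]
      rcases ho : i.e with _ | _
      · have hT : decT (Nat.shiftLeft off i.a) (gT off (i :: it) 0) = gT off it 0 := by
          rw [gT, ho]
          exact decT_gT off _ it 0
        have hF : gF (i :: it) = gF it := by rw [gF, ho]
        have hV : gV (i :: it) = gV it := by unfold gV; rw [hF]
        have hE : eb (i :: it) = eb it := by rw [eb, ho]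
        rw [hV] at hq
        rw [hE] at hv hq
        rw [hV, hE, exF_f ho]
        rw [hT, hF, ih h.2.2 he.2, hq, hv]
        push_cast; ring
      · have hT : tlT (gT off (i :: it) 0) = gT off it 0 := by
          rw [gT, ho]; rfl
        have hF : gF (i :: it) = i.f :: gF it := by rw [gF, ho]
        have hE : eb (i :: it) = i.f.V := by rw [eb, ho]
        rw [hF, exF_t ho, hT]
        have hV' : (i.f :: gF it).map Fac.V = gV (i :: it) := by unfold gV; rw [hF]
        rw [finE_z, ih h.2.2 he.2, hV', hq, hv, hE]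
        rw [show dotC ([] : List Cell) (gV it) = 0 from rfl]
        push_cast; ring

lemma z2F_eqP (it : List Itm) (h : Gd k r N nf it) (he : Ge it) (acc : ℕ)
    (h0 : it = [] → acc = 0) : z2F it acc = acc * (eb it * eb it) + z2 it := by
  induction it generalizing acc with
  | nil => simp [z2F, z2, h0 rfl]
  | cons i it ih =>
    obtain ⟨_, h3, h4⟩ := h
    obtain ⟨e1, e2⟩ := he
    rw [z2F, z2, Itm.v_eq]
    rw [eb] at h3 ⊢
    have hs : (1 : ℕ) <<< (2 * i.a) = 2 ^ i.a * 2 ^ i.a := by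
      rw [Nat.shiftLeft_eq, one_mul, two_mul, pow_add]
    rcases ho : i.e with _ | _
    · simp only [ho] at h3 ⊢
      have hne : it ≠ [] := by
        rcases e1 with e1 | e1
        · rw [ho] at e1; exact absurd e1 (by decide)
        · exact e1
      rw [ih h4 e2 _ (fun hh => absurd hh hne)]
      show (acc + 1 <<< (2 * i.a)) * (eb it * eb it) + z2 it =
        acc * (eb it * eb it) + (2 ^ i.a * i.f.V * (2 ^ i.a * i.f.V) + z2 it)
      rw [hs, h3]; ring
    · simp only [ho] at h3 ⊢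
      rw [ih h4 e2 _ (fun _ => rfl), Fac.ap_eq, Fac.ap_eq]
      show (acc + 1 <<< (2 * i.a)) * i.f.V * i.f.V + (0 * (eb it * eb it) + z2 it) =
        acc * (i.f.V * i.f.V) + (2 ^ i.a * i.f.V * (2 ^ i.a * i.f.V) + z2 it)
      rw [hs]; ring

end

lemma Ge_of_gdb {k : ℕ} {r : Rad} {N : Bd} {nf : ℕ} {it : List Itm}
    (h : gdb k r N nf it = true) : Ge it := by
  induction it with
  | nil => trivial
  | cons i it ih =>
    simp only [gdb, Bool.and_eq_true, Bool.or_eq_true] at h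
    obtain ⟨⟨_, h2⟩, h3⟩ := h
    refine ⟨?_, ih h3⟩
    rcases h2 with h2 | h2
    · exact Or.inl h2
    · right
      intro hh
      rw [hh] at h2
      exact absurd h2 Bool.false_ne_true

lemma Blk.vF_eqP {b : Blk} {k : ℕ} {r : Rad} (h : b.ok k r = true) :
    b.vF = Int.sub (Int.ofNat b.vp) (Int.ofNat b.vn) := by
  simp only [Blk.ok, Bool.and_eq_true] at h
  have h1 := h.1.1.1.1.1.1
  have hg := gdb_sound h1
  have he := Ge_of_gdb h1
  have a1 := sqF_zP (B := b.B) (off := b.off) b.its hg he b.L []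
  have a2 := exF_zP (B := b.BE) (off := b.offE) b.its hg he b.E []
  have a3 : dz2F b.dl b.its = b.dl * z2 b.its := by
    have := z2F_eqP b.its hg he 0 (fun _ => rfl)
    rcases hd : b.dl with _ | n
    · rw [Nat.zero_mul]; rfl
    · show (n + 1) * z2F b.its 0 = _
      rw [this, zero_mul, zero_add]
  rw [show Q ([] : List (List Cell)) (gV b.its) = 0 from rfl, zero_add] at a1
  rw [show dotC ([] : List Cell) (gV b.its) = 0 from rfl, mul_zero, zero_add] at a2
  unfold Blk.vF
  rw [toI_eq, toI_eq, a1, a2, a3]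
  have e2 : b.vp = sqs b.B b.off b.its b.L (tot b.its)
      + (dz2 b.dl b.its + eps b.BE b.its b.E) := rfl
  show ((sqs b.B b.off b.its b.L (tot b.its) : ℕ) : ℤ) + (((b.dl * z2 b.its : ℕ) : ℤ)
    + (((eps b.BE b.its b.E : ℕ) : ℤ) - ((ens b.offE b.its b.E (tot b.its) : ℕ) : ℤ))) =
    ((b.vp : ℕ) : ℤ) - ((b.vn : ℕ) : ℤ)
  rw [e2, Blk.vn, dz2_eq]; push_cast; ring

lemma bsumF_eqP {k : ℕ} {r : Rad} {N : Bd} (X : IPt) (bs : List Blk) (h : bok k r N bs = true) :
    bsumF X bs = bsum X bs := by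
  induction bs with
  | nil => rfl
  | cons b bs ih =>
    simp only [bok, Bool.and_eq_true] at h
    rw [bsumF, bsum, ih h.2, Blk.vF_eqP h.1.1]

noncomputable def Cert.checkP (c : Cert) : Bool :=
  c.r.okb c.N && c.target.ok && c.target.bd.leb c.N && Nat.blt 0 c.s && bok c.k c.r c.N c.blocks &&
    Nat.blt (Nat.add (Nat.mul c.s c.target.nm) (bnm c.blocks)) (Nat.pow 2 c.k) &&
    eqi (Int.mul (Int.ofNat c.s) (c.target.ev (ipt c.k c.r))) (bsumF (ipt c.k c.r) c.blocks)

theorem Cert.check_of_P {c : Cert} (h : c.checkP = true) : c.check = true := by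
  have h' := h
  simp only [Cert.checkP, Bool.and_eq_true] at h
  obtain ⟨⟨⟨⟨⟨⟨h1, h2⟩, h3⟩, h4⟩, h5⟩, h6⟩, h7⟩ := h
  rw [bsumF_eqP _ _ h5] at h7
  simp only [Cert.check, Bool.and_eq_true]
  exact ⟨⟨⟨⟨⟨⟨h1, h2⟩, h3⟩, h4⟩, h5⟩, h6⟩, h7⟩

end Pool.Sos71

end
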