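import Pool.Agent.Helper14.CMF.T02

set_option linter.all false

section

namespace Pool.Agent.Helper52.EK
end Pool.Agent.Helper52.EK

set_option autoImplicit false

open Complex

open scoped ComplexConjugate

namespace Pool.Agent.Helper2.EK

open Pool.Agent.Helper52.EK

theorem c1_congr {W Wx Wy W' Wx' Wy' : ℂ → ℝ} (h : C1f W Wx Wy) (e : ∀ X, W' X = W X)
    (ex : ∀ X, Wx' X = Wx X) (ey : ∀ X, Wy' X = Wy X) : C1f W' Wx' Wy' := by
  obtain rfl : W' = W := funext e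
  obtain rfl : Wx' = Wx := funext ex
  obtain rfl : Wy' = Wy := funext ey
  exact h

theorem c1_const (c : ℝ) : C1f (fun _ => c) (fun _ => 0) (fun _ => 0) := by
  refine ⟨fun X => ?_, continuous_const, continuous_const⟩
  simpa using hasFDerivAt_const c X

theorem c1_re : C1f (fun X => X.re) (fun _ => 1) (fun _ => 0) := by
  refine ⟨fun X => ?_, continuous_const, continuous_const⟩
  have h : HasFDerivAt (fun X : ℂ => X.re) reCLM X := reCLM.hasFDerivAt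
  refine h.congr_fderiv ?_
  ext1 v
  simp

theorem c1_im : C1f (fun X => X.im) (fun _ => 0) (fun _ => 1) := by
  refine ⟨fun X => ?_, continuous_const, continuous_const⟩
  have h : HasFDerivAt (fun X : ℂ => X.im) imCLM X := imCLM.hasFDerivAt
  refine h.congr_fderiv ?_
  ext1 v
  simp

theorem C1f_cont {W Wx Wy : ℂ → ℝ} (h : C1f W Wx Wy) : Continuous W :=
  continuous_iff_continuousAt.2 fun X => (h.hd X).continuousAt

theorem c1_add {A Ax Ay B Bx By : ℂ → ℝ} (hA : C1f A Ax Ay) (hB : C1f B Bx By) :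
    C1f (fun X => A X + B X) (fun X => Ax X + Bx X) (fun X => Ay X + By X) := by
  refine ⟨fun X => ?_, hA.cx.add hB.cx, hA.cy.add hB.cy⟩
  refine ((hA.hd X).add (hB.hd X)).congr_fderiv ?_
  ext1 v
  simp
  ring

theorem c1_sub {A Ax Ay B Bx By : ℂ → ℝ} (hA : C1f A Ax Ay) (hB : C1f B Bx By) :
    C1f (fun X => A X - B X) (fun X => Ax X - Bx X) (fun X => Ay X - By X) := by
  refine ⟨fun X => ?_, hA.cx.sub hB.cx, hA.cy.sub hB.cy⟩
  refine ((hA.hd X).sub (hB.hd X)).congr_fderiv ?_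
  ext1 v
  simp
  ring

theorem c1_mul {A Ax Ay B Bx By : ℂ → ℝ} (hA : C1f A Ax Ay) (hB : C1f B Bx By) :
    C1f (fun X => A X * B X) (fun X => Ax X * B X + A X * Bx X)
      (fun X => Ay X * B X + A X * By X) := by
  refine ⟨fun X => ?_, (hA.cx.mul (C1f_cont hB)).add ((C1f_cont hA).mul hB.cx),
    (hA.cy.mul (C1f_cont hB)).add ((C1f_cont hA).mul hB.cy)⟩
  refine ((hA.hd X).mul (hB.hd X)).congr_fderiv ?_
  ext1 v
  simp
  ring

theorem c1_inv {B Bx By : ℂ → ℝ} (hB : C1f B Bx By) (h0 : ∀ X, B X ≠ 0) :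
    C1f (fun X => (B X)⁻¹) (fun X => -Bx X / B X ^ 2) (fun X => -By X / B X ^ 2) := by
  refine ⟨fun X => ?_, hB.cx.neg.div₀ ((C1f_cont hB).pow 2) fun X => pow_ne_zero 2 (h0 X),
    hB.cy.neg.div₀ ((C1f_cont hB).pow 2) fun X => pow_ne_zero 2 (h0 X)⟩
  refine ((hasDerivAt_inv (h0 X)).comp_hasFDerivAt X (hB.hd X)).congr_fderiv ?_
  ext1 v
  simp
  ring

/-- `|X - 1|^2` -/
noncomputable def Fp (x y : ℝ) : ℝ := (x - 1) ^ 2 + y ^ 2

theorem Fp_eq (X : ℂ) : Fp X.re X.im = ‖X - 1‖ ^ 2 := by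
  rw [← Complex.normSq_eq_norm_sq, Complex.normSq_apply]
  simp [Fp]
  ring

theorem c1_F : C1f (fun X => Fp X.re X.im) (fun X => 2 * (X.re - 1)) (fun X => 2 * X.im) := by
  refine c1_congr (c1_add (c1_mul (c1_sub c1_re (c1_const 1)) (c1_sub c1_re (c1_const 1)))
    (c1_mul c1_im c1_im)) ?_ ?_ ?_ <;> intro X <;> (try simp only [Fp]) <;> ring

end Pool.Agent.Helper2.EK

end

section

/-!
Arithmetic of bivariate integer polynomials given as lists of lists.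
-/

namespace Pool.EK71

/-- bivariate polynomials: row `i` is the coefficient of `x^i`, a polynomial in `y` -/
abbrev BP := List (List ℤ)

def ad1 : List ℤ → List ℤ → List ℤ
  | [], q => q
  | a :: p, [] => a :: p
  | a :: p, b :: q => Int.add a b :: ad1 p q

def ad2 : BP → BP → BP
  | [], Q => Q
  | r :: P, [] => r :: P
  | r :: P, s :: Q => ad1 r s :: ad2 P Q

def sm1 (c : ℤ) : List ℤ → List ℤ
  | [] => []
  | a :: p => Int.mul c a :: sm1 c p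

def sm2 (c : ℤ) : BP → BP
  | [] => []
  | r :: P => sm1 c r :: sm2 c P

def mu1 : List ℤ → List ℤ → List ℤ
  | [], _ => []
  | a :: p, q => ad1 (sm1 a q) (0 :: mu1 p q)

/-- product of a polynomial in `y` and a bivariate one -/
def mr (r : List ℤ) : BP → BP
  | [] => []
  | s :: Q => mu1 r s :: mr r Q

def mu2 : BP → BP → BP
  | [], _ => []
  | r :: P, Q => ad2 (mr r Q) ([] :: mu2 P Q)

/-- `d/dy` of a polynomial in `y`, first argument: index -/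
def dy1 : ℕ → List ℤ → List ℤ
  | _, [] => []
  | n, a :: p => Int.mul (Int.ofNat n) a :: dy1 (n + 1) p

def dyr : List ℤ → List ℤ
  | [] => []
  | _ :: p => dy1 1 p

def dY : BP → BP
  | [] => []
  | r :: P => dyr r :: dY P

def dx1 : ℕ → BP → BP
  | _, [] => []
  | n, r :: P => sm1 (Int.ofNat n) r :: dx1 (n + 1) P

def dX : BP → BP
  | [] => []
  | _ :: P => dx1 1 P

lemma ev1_ad (y : ℝ) (p q : List ℤ) : ev1 y (ad1 p q) = ev1 y p + ev1 y q := by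
  induction p generalizing q with
  | nil => simp [ad1, ev1]
  | cons a p ih =>
    cases q with
    | nil => simp [ad1, ev1]
    | cons b q =>
      simp only [ad1, ev1, ih]
      have : ((Int.add a b : ℤ) : ℝ) = a + b := by
        show (((a + b : ℤ)) : ℝ) = _
        push_cast; ring
      rw [this]; ring

lemma ev2_ad (x y : ℝ) (P Q : BP) : ev2 x y (ad2 P Q) = ev2 x y P + ev2 x y Q := by
  induction P generalizing Q with
  | nil => simp [ad2, ev2]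
  | cons a p ih =>
    cases Q with
    | nil => simp [ad2, ev2]
    | cons b q => simp only [ad2, ev2, ih, ev1_ad]; ring

lemma imul_cast (a b : ℤ) : ((Int.mul a b : ℤ) : ℝ) = a * b := by
  show (((a * b : ℤ)) : ℝ) = _
  push_cast; ring

lemma ev1_sm (y : ℝ) (c : ℤ) (p : List ℤ) : ev1 y (sm1 c p) = c * ev1 y p := by
  induction p with
  | nil => simp [sm1, ev1]
  | cons a p ih => simp only [sm1, ev1, ih, imul_cast]; ring

lemma ev2_sm (x y : ℝ) (c : ℤ) (P : BP) : ev2 x y (sm2 c P) = c * ev2 x y P := by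
  induction P with
  | nil => simp [sm2, ev2]
  | cons a p ih => simp only [sm2, ev2, ih, ev1_sm]; ring

lemma ev1_mu (y : ℝ) (p q : List ℤ) : ev1 y (mu1 p q) = ev1 y p * ev1 y q := by
  induction p with
  | nil => simp [mu1, ev1]
  | cons a p ih => simp only [mu1, ev1_ad, ev1_sm, ev1, ih, Int.cast_zero]; ring

lemma ev2_mr (x y : ℝ) (r : List ℤ) (Q : BP) : ev2 x y (mr r Q) = ev1 y r * ev2 x y Q := by
  induction Q with
  | nil => simp [mr, ev2]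
  | cons a p ih => simp only [mr, ev2, ih, ev1_mu]; ring

lemma ev2_mu (x y : ℝ) (P Q : BP) : ev2 x y (mu2 P Q) = ev2 x y P * ev2 x y Q := by
  induction P with
  | nil => simp [mu2, ev2]
  | cons a p ih => simp only [mu2, ev2_ad, ev2_mr, ev2, ih, ev1]; ring

lemma dy1_ev (n : ℕ) (y : ℝ) (p : List ℤ) :
    ev1 y (dy1 (n + 1) p) = (n + 1) * ev1 y p + y * ev1 y (dyr p) := by
  induction p generalizing n with
  | nil => simp [dy1, dyr, ev1]
  | cons a p ih =>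
    have h1 := ih (n + 1)
    have h0 := ih 0
    simp only [dy1, dyr, ev1, imul_cast] at h1 h0 ⊢
    rw [h1, show dy1 1 p = dy1 (0 + 1) p from rfl, h0]
    push_cast
    have : ((Int.ofNat (n + 1) : ℤ) : ℝ) = n + 1 := by
      show (((n + 1 : ℕ) : ℤ) : ℝ) = _
      push_cast; ring
    rw [this]; ring

lemma dyr_ev (y : ℝ) (a : ℤ) (p : List ℤ) :
    ev1 y (dyr (a :: p)) = ev1 y p + y * ev1 y (dyr p) := by
  have := dy1_ev 0 y p
  simp only [dyr] at this ⊢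
  rw [show dy1 1 p = dy1 (0 + 1) p from rfl, this]; push_cast; ring

lemma dx1_ev (n : ℕ) (x y : ℝ) (P : BP) :
    ev2 x y (dx1 (n + 1) P) = (n + 1) * ev2 x y P + x * ev2 x y (dX P) := by
  induction P generalizing n with
  | nil => simp [dx1, dX, ev2]
  | cons a p ih =>
    have h1 := ih (n + 1)
    have h0 := ih 0
    simp only [dx1, dX, ev2, ev1_sm] at h1 h0 ⊢
    rw [h1, show dx1 1 p = dx1 (0 + 1) p from rfl, h0]
    push_cast
    have : ((Int.ofNat (n + 1) : ℤ) : ℝ) = n + 1 := by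
      show (((n + 1 : ℕ) : ℤ) : ℝ) = _
      push_cast; ring
    rw [this]; ring

lemma dX_ev (x y : ℝ) (r : List ℤ) (P : BP) :
    ev2 x y (dX (r :: P)) = ev2 x y P + x * ev2 x y (dX P) := by
  have := dx1_ev 0 x y P
  simp only [dX] at this ⊢
  rw [show dx1 1 P = dx1 (0 + 1) P from rfl, this]; push_cast; ring

open Pool.Agent.Helper52.EK Pool.Agent.Helper2.EK in
lemma c1_ev1 (p : List ℤ) : C1f (fun X : ℂ => ev1 X.im p) (fun _ => 0)
    (fun X => ev1 X.im (dyr p)) := by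
  induction p with
  | nil =>
    refine c1_congr (c1_const 0) (fun X => ?_) (fun X => ?_) (fun X => ?_)
    · simp [ev1]
    · rfl
    · simp [dyr, ev1]
  | cons a p ih =>
    refine c1_congr (c1_add (c1_const (a : ℝ)) (c1_mul c1_im ih)) (fun X => ?_) (fun X => ?_)
      (fun X => ?_)
    · simp only [ev1]
    · ring
    · rw [dyr_ev]; ring

open Pool.Agent.Helper52.EK Pool.Agent.Helper2.EK in
lemma c1_ev2 (P : BP) : C1f (fun X : ℂ => ev2 X.re X.im P) (fun X => ev2 X.re X.im (dX P))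
    (fun X => ev2 X.re X.im (dY P)) := by
  induction P with
  | nil =>
    refine c1_congr (c1_const 0) (fun X => ?_) (fun X => ?_) (fun X => ?_)
    · simp [ev2]
    · simp [dX, ev2]
    · simp [dY, ev2]
  | cons r P ih =>
    refine c1_congr (c1_add (c1_ev1 r) (c1_mul c1_re ih)) (fun X => ?_) (fun X => ?_)
      (fun X => ?_)
    · simp only [ev2]
    · rw [dX_ev]; ring
    · simp only [dY, ev2]; ring

def padRow : ℕ → List ℤ → List ℤ
  | 0, _ => []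
  | n + 1, [] => 0 :: padRow n []
  | n + 1, a :: l => a :: padRow n l

def isz : List ℤ → Bool
  | [] => true
  | a :: l => (match a with
    | Int.ofNat n => Nat.beq n 0
    | Int.negSucc _ => false) && isz l

def fitsRow : ℕ → List ℤ → Bool
  | 0, l => isz l
  | _ + 1, [] => true
  | n + 1, _ :: l => fitsRow n l

def toTri : ℕ → BP → BP
  | 0, _ => []
  | _ + 1, [] => []
  | n + 1, r :: P => padRow (n + 1) r :: toTri n P

def isz2 : BP → Bool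
  | [] => true
  | r :: P => isz r && isz2 P

def fits : ℕ → BP → Bool
  | 0, P => isz2 P
  | _ + 1, [] => true
  | n + 1, r :: P => fitsRow (n + 1) r && fits n P

lemma isz_ev (y : ℝ) (l : List ℤ) (h : isz l = true) : ev1 y l = 0 := by
  induction l with
  | nil => rfl
  | cons a l ih =>
    simp only [isz, Bool.and_eq_true] at h
    have ha : a = 0 := by
      cases a with
      | ofNat n =>
        have : n = 0 := Nat.eq_of_beq_eq_true h.1
        rw [this]; rfl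
      | negSucc n => simp at h
    simp [ev1, ih h.2, ha]

lemma isz2_ev (x y : ℝ) (P : BP) (h : isz2 P = true) : ev2 x y P = 0 := by
  induction P with
  | nil => rfl
  | cons r P ih =>
    simp only [isz2, Bool.and_eq_true] at h
    simp [ev2, ih h.2, isz_ev y r h.1]

lemma padRow_nil (y : ℝ) (n : ℕ) : ev1 y (padRow n []) = 0 := by
  induction n with
  | zero => rfl
  | succ n ih => simp [padRow, ev1, ih]

lemma padRow_ev (y : ℝ) (n : ℕ) (l : List ℤ) (h : fitsRow n l = true) :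
    ev1 y (padRow n l) = ev1 y l := by
  induction n generalizing l with
  | zero => simp only [fitsRow] at h; rw [isz_ev y l h]; rfl
  | succ n ih =>
    cases l with
    | nil => rw [padRow_nil]; rfl
    | cons a l => simp only [fitsRow] at h; simp only [padRow, ev1, ih l h]

lemma toTri_ev (x y : ℝ) (n : ℕ) (P : BP) (h : fits n P = true) :
    ev2 x y (toTri n P) = ev2 x y P := by
  induction n generalizing P with
  | zero => simp only [fits] at h; rw [isz2_ev x y P h]; rfl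
  | succ n ih =>
    cases P with
    | nil => rfl
    | cons r P =>
      simp only [fits, Bool.and_eq_true] at h
      simp only [toTri, ev2, padRow_ev y _ r h.1, ih P h.2]

end Pool.EK71

end

section

namespace Pool.Agent.Helper52.EK
end Pool.Agent.Helper52.EK

/-!
Project EK, E5: the algebra between the 2x2 forms and the pointwise inequality.
-/

set_option autoImplicit false

open Complex MeasureTheory Metric Set

open scoped Real ComplexConjugate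

namespace Pool.Agent.Helper71.EK

open Pool.Agent.Helper52.EK

/-- binary forms -/
lemma form2 {a b d : ℝ} (ha : 0 ≤ a) (hd : 0 ≤ d) (hb : b ^ 2 ≤ a * d) (s c : ℝ) :
    0 ≤ a * s ^ 2 + 2 * b * (s * c) + d * c ^ 2 := by
  rcases ha.eq_or_lt with h0 | h0
  · have hb0 : b = 0 := by
      rw [← h0, zero_mul] at hb
      exact pow_eq_zero_iff (two_ne_zero) |>.1 (le_antisymm hb (sq_nonneg b))
    rw [← h0, hb0]
    have : 0 ≤ d * c ^ 2 := by (clear * - hd; positivity)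
    (clear * - this; linarith only [this])
  · have h1 : a * (a * s ^ 2 + 2 * b * (s * c) + d * c ^ 2) =
        (a * s + b * c) ^ 2 + (a * d - b ^ 2) * c ^ 2 := by ring
    have h2 : 0 ≤ a * (a * s ^ 2 + 2 * b * (s * c) + d * c ^ 2) := by
      rw [h1]
      have : 0 ≤ a * d - b ^ 2 := by (clear * - hb; linarith only [hb])
      (clear * - hb; positivity)
    exact nonneg_of_mul_nonneg_right h2 h0

lemma e0_norm {s c : ℝ} (h : s ^ 2 + c ^ 2 = 1) : ‖e0 s c‖ = 1 := by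
  have h1 : ‖(c : ℂ) - (s : ℂ) * I‖ ^ 2 = 1 := by
    rw [← Complex.normSq_eq_norm_sq, Complex.normSq_apply]
    simp
    (clear * - h; linarith only [h])
  rw [e0, norm_neg, norm_pow, h1]

end Pool.Agent.Helper71.EK

end

section

namespace Pool.Agent.Helper71.EK
end Pool.Agent.Helper71.EK

/-!
Certificate algebra for a general direction: abstract form with real parameters at one point.
`al1 + i al2` is `(1+u)/2`, `|u| = 1`.
-/

set_option autoImplicit false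

namespace Pool.Agent.Helper71.EKC

open Pool.Agent.Helper71.EK

/-- values at one point -/
structure Pt where
  x : ℝ
  y : ℝ
  D : ℝ
  E : ℝ
  kb : ℝ
  k2 : ℝ
  n4 : ℝ
  nu : ℝ
  nv : ℝ
  nvx : ℝ
  nvy : ℝ
  nz : ℝ
  nzx : ℝ
  nzy : ℝ
  nw : ℝ
  nwx : ℝ
  nwy : ℝ
  nt : ℝ
  ntx : ℝ
  nty : ℝ
  sg : ℝ

namespace Pt

variable (P : Pt)

noncomputable def ff : ℝ := (P.x - 1) ^ 2 + P.y ^ 2

noncomputable def nr (N Nx Ny : ℝ) : ℝ :=
  N * P.D + 1 / 2 * ((P.x - 1) * (Nx * P.D - P.kb * N * P.x) - P.y * (P.kb * N * P.y - Ny * P.D))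

noncomputable def ni (N Nx Ny : ℝ) : ℝ :=
  1 / 2 * ((P.x - 1) * (P.kb * N * P.y - Ny * P.D) + P.y * (Nx * P.D - P.kb * N * P.x))

noncomputable def a1 : ℝ := P.nr P.nw P.nwx P.nwy - P.ni P.nv P.nvx P.nvy

noncomputable def a2 : ℝ := P.ni P.nw P.nwx P.nwy + P.nr P.nv P.nvx P.nvy

noncomputable def b1 : ℝ := P.nr P.nt P.ntx P.nty - P.ni P.nz P.nzx P.nzy

noncomputable def b2 : ℝ := P.ni P.nt P.ntx P.nty + P.nr P.nz P.nzx P.nzy

noncomputable def Na : ℝ := P.k2 * P.E - P.sg + 2 * (P.nu - P.nz)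

noncomputable def Ng : ℝ := P.k2 * P.E - P.sg - 2 * (P.nu - P.nz)

noncomputable def Nb : ℝ := P.nv

noncomputable def m11 : ℝ := P.n4 * P.Na - (P.a1 ^ 2 + P.a2 ^ 2)

noncomputable def m12 : ℝ := P.n4 * P.Nb - 2 * (P.a1 * P.b1 + P.a2 * P.b2)

noncomputable def m22 : ℝ := P.n4 * P.Ng - 4 * (P.b1 ^ 2 + P.b2 ^ 2)

noncomputable def N2 : ℝ :=
  (P.x ^ 2 + P.y ^ 2) * P.n4 - 4 * (P.D ^ 2 * P.E) + 4 * P.sg * P.ff * P.D ^ 2

variable (al1 al2 : ℝ)

noncomputable def Na2 : ℝ := P.k2 * P.E + 2 * (P.nu - P.nz) - 16 * al1 * P.E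
  + 4 * P.sg * (4 * al1 * P.ff + 2 * (al1 * (P.x - 1) + al2 * P.y))

noncomputable def Ng2 : ℝ := P.k2 * P.E - 2 * (P.nu - P.nz)

noncomputable def Nb2 : ℝ := P.nv + 4 * P.sg * (al1 * P.y - al2 * (P.x - 1))

/-- `conj u * (X - 1)` -/
noncomputable def c1 : ℝ := (2 * al1 - 1) * (P.x - 1) + 2 * al2 * P.y

noncomputable def c2 : ℝ := (2 * al1 - 1) * P.y - 2 * al2 * (P.x - 1)

noncomputable def A21 : ℝ := 2 * (P.x * P.a1 - P.y * P.a2)
  + P.sg * P.D * (16 * al1 * P.ff + 4 * P.c1 al1 al2) - 16 * al1 * (P.D * P.E)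

noncomputable def A22 : ℝ := 2 * (P.x * P.a2 + P.y * P.a1)
  + P.sg * P.D * (-16 * al2 * P.ff + 4 * P.c2 al1 al2) + 16 * al2 * (P.D * P.E)

noncomputable def B21 : ℝ := 2 * (P.x * P.b1 - P.y * P.b2) + 2 * (P.sg * P.D * P.c2 al1 al2)

noncomputable def B22 : ℝ := 2 * (P.x * P.b2 + P.y * P.b1) - 2 * (P.sg * P.D * P.c1 al1 al2)

noncomputable def M11 : ℝ :=
  4 * P.N2 * P.Na2 al1 al2 - (P.A21 al1 al2 ^ 2 + P.A22 al1 al2 ^ 2)

noncomputable def M12 : ℝ := 4 * P.N2 * P.Nb2 al1 al2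
  - 2 * (P.A21 al1 al2 * P.B21 al1 al2 + P.A22 al1 al2 * P.B22 al1 al2)

noncomputable def M22 : ℝ :=
  4 * P.N2 * P.Ng2 - 4 * (P.B21 al1 al2 ^ 2 + P.B22 al1 al2 ^ 2)

/-- potential and its partial derivatives -/
noncomputable def g (N : ℝ) : ℝ := P.ff * N / P.E

noncomputable def gx (N Nx : ℝ) : ℝ :=
  ((2 * (P.x - 1) * N + P.ff * Nx) * P.D - P.kb * P.x * (P.ff * N)) / (P.E * P.D)

noncomputable def gy (N Ny : ℝ) : ℝ :=
  ((2 * P.y * N + P.ff * Ny) * P.D - P.kb * P.y * (P.ff * N)) / (P.E * P.D)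

/-- the right side of the certificate -/
noncomputable def EE (y1 y2 s c : ℝ) : ℝ :=
  P.k2 * P.ff
    + (s ^ 2 * (P.n4 / (P.E * P.D ^ 2)) * (y1 ^ 2 + y2 ^ 2)
      - 2 * (c ^ 2 - s ^ 2) * P.g P.nu)
    + (s ^ 2 * (P.gx P.nw P.nwx * y1 + P.gy P.nw P.nwy * y2)
      + 2 * s * c * (P.gx P.nt P.ntx * y1 + P.gy P.nt P.nty * y2))
    + (s ^ 2 * (-P.gx P.nv P.nvx * y2 + P.gy P.nv P.nvy * y1)
      + 2 * s * c * P.g P.nv)
    + (2 * s * c * (-P.gx P.nz P.nzx * y2 + P.gy P.nz P.nzy * y1)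
      + 2 * (c ^ 2 - s ^ 2) * P.g P.nz)

end Pt

/-- completing the square in `u = (u1, u2)` -/
lemma square' {D E N h g1 g2 f1 f2 : ℝ} (hD : 0 < D) (hE : 0 < E) (hN : 0 < N)
    (hg : g1 ^ 2 + g2 ^ 2 ≤ N * h) (u1 u2 : ℝ) :
    0 ≤ N / (E * D ^ 2) * (u1 ^ 2 + u2 ^ 2)
      + 2 / (E * D) * ((f1 * g1 + f2 * g2) * u1 - (f1 * g2 - f2 * g1) * u2)
      + (f1 ^ 2 + f2 ^ 2) * h / E := by
  have key : E * D ^ 2 * N * (N / (E * D ^ 2) * (u1 ^ 2 + u2 ^ 2)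
      + 2 / (E * D) * ((f1 * g1 + f2 * g2) * u1 - (f1 * g2 - f2 * g1) * u2)
      + (f1 ^ 2 + f2 ^ 2) * h / E) =
      (N * u1 + D * (f1 * g1 + f2 * g2)) ^ 2 + (N * u2 - D * (f1 * g2 - f2 * g1)) ^ 2
      + D ^ 2 * (f1 ^ 2 + f2 ^ 2) * (N * h - (g1 ^ 2 + g2 ^ 2)) := by
    field_simp
    ring
  have hpos : 0 < E * D ^ 2 * N := by (clear * - hE hD hN; positivity)
  refine nonneg_of_mul_nonneg_right ?_ hpos
  rw [key]
  have : 0 ≤ N * h - (g1 ^ 2 + g2 ^ 2) := by (clear * - hg; linarith only [hg])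
  (clear * - hD hg; positivity)

/-- first condition: `E ≥ σ` -/
lemma cond1g (P : Pt) (hD : 0 < P.D) (hE : 0 < P.E) (hN : 0 < P.n4) (h11 : 0 ≤ P.m11)
    (h22 : 0 ≤ P.m22) (h12 : P.m12 ^ 2 ≤ P.m11 * P.m22) {s c : ℝ} (h : s ^ 2 + c ^ 2 = 1)
    (y1 y2 : ℝ) : P.ff * P.sg / P.E ≤ P.EE y1 y2 s c := by
  have hq := form2 h11 h22 h12 s c
  have hsq := square' (h := P.Na * s ^ 2 + 2 * P.Nb * (s * c) + P.Ng * c ^ 2)
    (g1 := s * P.a1 + 2 * c * P.b1) (g2 := s * P.a2 + 2 * c * P.b2)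
    (f1 := P.x - 1) (f2 := P.y) hD hE hN
    (by unfold Pt.m11 Pt.m12 Pt.m22 at hq; linarith only [hq]) (s * y1) (s * y2)
  have e : P.EE y1 y2 s c - P.ff * P.sg / P.E =
      P.n4 / (P.E * P.D ^ 2) * ((s * y1) ^ 2 + (s * y2) ^ 2)
      + 2 / (P.E * P.D) * (((P.x - 1) * (s * P.a1 + 2 * c * P.b1)
        + P.y * (s * P.a2 + 2 * c * P.b2)) * (s * y1)
        - ((P.x - 1) * (s * P.a2 + 2 * c * P.b2) - P.y * (s * P.a1 + 2 * c * P.b1)) * (s * y2))
      + ((P.x - 1) ^ 2 + P.y ^ 2) * (P.Na * s ^ 2 + 2 * P.Nb * (s * c) + P.Ng * c ^ 2) / P.E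
      + P.ff * (P.k2 * P.E - P.sg) * (1 - s ^ 2 - c ^ 2) / P.E := by
    unfold Pt.EE Pt.g Pt.gx Pt.gy Pt.a1 Pt.a2 Pt.b1 Pt.b2 Pt.nr Pt.ni Pt.Na Pt.Nb Pt.Ng Pt.ff
    have hD' := hD.ne'
    have hE' := hE.ne'
    field_simp
    ring
  have : (1 - s ^ 2 - c ^ 2 : ℝ) = 0 := by linarith only [h]
  rw [this, mul_zero, zero_div, add_zero] at e
  linarith

/-- `|v|²`, with `|α|²` replaced by `al1` -/
noncomputable def vv (P : Pt) (al1 al2 q1 q2 : ℝ) : ℝ :=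
  4 * al1 * P.ff + 4 * ((al1 * (P.x - 1) - al2 * P.y) * q1
    + (al1 * P.y + al2 * (P.x - 1)) * q2) + (q1 ^ 2 + q2 ^ 2)

noncomputable def v1 (P : Pt) (al1 al2 q1 q2 : ℝ) : ℝ :=
  2 * (al1 * (P.x - 1) + al2 * P.y) + (2 * al1 - 1) * q1 + 2 * al2 * q2

noncomputable def v2 (P : Pt) (al1 al2 q1 q2 : ℝ) : ℝ :=
  2 * (al1 * P.y - al2 * (P.x - 1)) + (2 * al1 - 1) * q2 - 2 * al2 * q1

/-- the second condition, a function of `α` -/
noncomputable def FF (P : Pt) (al1 al2 q1 q2 s c : ℝ) : ℝ :=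
  P.EE (P.x * q1 - P.y * q2) (P.x * q2 + P.y * q1) s c
    + P.ff * P.sg / P.E * (4 * s ^ 2 * (vv P al1 al2 q1 q2 + v1 P al1 al2 q1 q2)
      + 4 * s * c * v2 P al1 al2 q1 q2)
    - 4 * s ^ 2 * vv P al1 al2 q1 q2

lemma cond2g (P : Pt) (hD : 0 < P.D) (hE : 0 < P.E) (hN : 0 < P.N2) (al1 al2 : ℝ)
    (h11 : 0 ≤ P.M11 al1 al2) (h22 : 0 ≤ P.M22 al1 al2)
    (h12 : P.M12 al1 al2 ^ 2 ≤ P.M11 al1 al2 * P.M22 al1 al2) {s c : ℝ}
    (h : s ^ 2 + c ^ 2 = 1) (q1 q2 : ℝ) : 0 ≤ FF P al1 al2 q1 q2 s c := by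
  have hq := form2 h11 h22 h12 s c
  have hsq := square' (h := P.Na2 al1 al2 * s ^ 2 + 2 * P.Nb2 al1 al2 * (s * c) + P.Ng2 * c ^ 2)
    (g1 := s * P.A21 al1 al2 / 2 + c * P.B21 al1 al2)
    (g2 := s * P.A22 al1 al2 / 2 + c * P.B22 al1 al2)
    (f1 := P.x - 1) (f2 := P.y) hD hE hN
    (by unfold Pt.M11 Pt.M12 Pt.M22 at hq; (clear * - hq; linarith only [hq])) (s * q1) (s * q2)
  have e : FF P al1 al2 q1 q2 s c =
      P.N2 / (P.E * P.D ^ 2) * ((s * q1) ^ 2 + (s * q2) ^ 2)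
      + 2 / (P.E * P.D) * (((P.x - 1) * (s * P.A21 al1 al2 / 2 + c * P.B21 al1 al2)
        + P.y * (s * P.A22 al1 al2 / 2 + c * P.B22 al1 al2)) * (s * q1)
        - ((P.x - 1) * (s * P.A22 al1 al2 / 2 + c * P.B22 al1 al2)
          - P.y * (s * P.A21 al1 al2 / 2 + c * P.B21 al1 al2)) * (s * q2))
      + ((P.x - 1) ^ 2 + P.y ^ 2) * (P.Na2 al1 al2 * s ^ 2 + 2 * P.Nb2 al1 al2 * (s * c)
        + P.Ng2 * c ^ 2) / P.E
      + P.ff * P.k2 * (1 - s ^ 2 - c ^ 2) := by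
    unfold FF vv v1 v2 Pt.EE Pt.g Pt.gx Pt.gy Pt.A21 Pt.A22 Pt.B21 Pt.B22 Pt.c1 Pt.c2 Pt.a1
      Pt.a2 Pt.b1 Pt.b2 Pt.nr Pt.ni Pt.Na2 Pt.Nb2 Pt.Ng2 Pt.N2 Pt.ff
    have hD' := hD.ne'
    have hE' := hE.ne'
    field_simp
    ring
  have : (1 - s ^ 2 - c ^ 2 : ℝ) = 0 := by (clear * - h; linarith only [h])
  rw [this, mul_zero, add_zero] at e
  (clear * - hsq e; linarith)

end Pool.Agent.Helper71.EKC

end

section

namespace Pool.EK71
end Pool.EK71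
namespace Pool.Agent.Helper52.EK
end Pool.Agent.Helper52.EK
namespace Pool.Agent.Helper2.EK
end Pool.Agent.Helper2.EK
namespace Pool.Agent.Helper71.EK
end Pool.Agent.Helper71.EK

/-!
Certificates given by integer lists: the potentials, their derivatives and bounds, and the
polynomials of the two conditions.
-/

set_option autoImplicit false

open Complex

namespace Pool.Agent.Helper71.EKC

open Pool.EK71 Pool.Agent.Helper52.EK Pool.Agent.Helper2.EK Pool.Agent.Helper71.EK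

/-- certificate data; all potentials are `|X-1|² N/(K D^k)`, `D = 1 + a|X|²`; `k2 = kk/K` -/
structure CD where
  a : ℕ
  k : ℕ
  K : ℕ
  kk : ℤ
  U : BP
  V : BP
  Z : BP
  W : BP
  T : BP
  S : BP

def xL : BP := [[], [1]]

def yL : BP := [[0, 1]]

def fL : BP := [[-1], [1]]

def r2L : BP := [[0, 0, 1], [], [1]]

def f2L : BP := [[1, 0, 1], [-2], [1]]

def cL (n : ℤ) : BP := [[n]]

def DL (a : ℕ) : BP := [[1, 0, Int.ofNat a], [], [Int.ofNat a]]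

def sb2 (P Q : BP) : BP := ad2 P (sm2 (-1) Q)

def pw2 (P : BP) : ℕ → BP
  | 0 => [[1]]
  | n + 1 => mu2 P (pw2 P n)

section ev

variable (x y : ℝ)

lemma e_x : ev2 x y xL = x := by simp [ev2, ev1, xL]

lemma e_y : ev2 x y yL = y := by simp [ev2, ev1, yL]

lemma e_f : ev2 x y fL = x - 1 := by simp [ev2, ev1, fL]; ring

lemma e_r2 : ev2 x y r2L = x ^ 2 + y ^ 2 := by simp [ev2, ev1, r2L]; ring

lemma e_f2 : ev2 x y f2L = (x - 1) ^ 2 + y ^ 2 := by simp [ev2, ev1, f2L]; ring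

lemma e_c (n : ℤ) : ev2 x y (cL n) = n := by simp [ev2, ev1, cL]

lemma e_D (a : ℕ) : ev2 x y (DL a) = 1 + a * (x ^ 2 + y ^ 2) := by
  simp [ev2, ev1, DL]; ring

lemma e_sb (P Q : BP) : ev2 x y (sb2 P Q) = ev2 x y P - ev2 x y Q := by
  rw [sb2, ev2_ad, ev2_sm]; push_cast; ring

lemma e_pw (P : BP) (n : ℕ) : ev2 x y (pw2 P n) = ev2 x y P ^ n := by
  induction n with
  | zero => simp [pw2, ev2, ev1]
  | succ n ih => rw [pw2, ev2_mu, ih]; ring

end ev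

lemma c1_unique {A Ax Ay Bx By : ℂ → ℝ} (h : C1f A Ax Ay) (h' : C1f A Bx By) (X : ℂ) :
    Ax X = Bx X ∧ Ay X = By X := by
  have e := (h.hd X).unique (h'.hd X)
  have e1 := DFunLike.congr_fun e 1
  have e2 := DFunLike.congr_fun e I
  simp at e1 e2
  exact ⟨e1, e2⟩

lemma d_mu (x y : ℝ) (P Q : BP) :
    ev2 x y (dX (mu2 P Q)) = ev2 x y (dX P) * ev2 x y Q + ev2 x y P * ev2 x y (dX Q) ∧
    ev2 x y (dY (mu2 P Q)) = ev2 x y (dY P) * ev2 x y Q + ev2 x y P * ev2 x y (dY Q) := by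
  have h := c1_unique (c1_congr (c1_mul (c1_ev2 P) (c1_ev2 Q))
    (W' := fun X => ev2 X.re X.im (mu2 P Q)) (fun X => by rw [ev2_mu]) (fun _ => rfl)
    (fun _ => rfl)) (c1_ev2 (mu2 P Q)) ⟨x, y⟩
  exact ⟨h.1.symm, h.2.symm⟩

lemma d_sb (x y : ℝ) (P Q : BP) :
    ev2 x y (dX (sb2 P Q)) = ev2 x y (dX P) - ev2 x y (dX Q) ∧
    ev2 x y (dY (sb2 P Q)) = ev2 x y (dY P) - ev2 x y (dY Q) := by
  have h := c1_unique (c1_congr (c1_sub (c1_ev2 P) (c1_ev2 Q))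
    (W' := fun X => ev2 X.re X.im (sb2 P Q)) (fun X => by rw [e_sb]) (fun _ => rfl)
    (fun _ => rfl)) (c1_ev2 (sb2 P Q)) ⟨x, y⟩
  exact ⟨h.1.symm, h.2.symm⟩

lemma d_sm (x y : ℝ) (c : ℤ) (P : BP) :
    ev2 x y (dX (sm2 c P)) = c * ev2 x y (dX P) ∧
    ev2 x y (dY (sm2 c P)) = c * ev2 x y (dY P) := by
  have h := c1_unique (c1_congr (c1_mul (c1_const (c : ℝ)) (c1_ev2 P))
    (W' := fun X => ev2 X.re X.im (sm2 c P)) (fun X => by rw [ev2_sm])
    (Wx' := fun X => c * ev2 X.re X.im (dX P)) (Wy' := fun X => c * ev2 X.re X.im (dY P))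
    (fun _ => by ring) (fun _ => by ring)) (c1_ev2 (sm2 c P)) ⟨x, y⟩
  exact ⟨h.1.symm, h.2.symm⟩

lemma dy1_sm (c : ℤ) (n : ℕ) (p : List ℤ) : dy1 n (sm1 c p) = sm1 c (dy1 n p) := by
  induction p generalizing n with
  | nil => rfl
  | cons a p ih =>
    simp only [sm1, dy1, ih]
    congr 1
    show (Int.ofNat n) * (c * a) = c * ((Int.ofNat n) * a)
    ring

lemma dyr_sm (c : ℤ) (p : List ℤ) : dyr (sm1 c p) = sm1 c (dyr p) := by
  cases p with
  | nil => rfl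
  | cons a p => simp only [sm1, dyr, dy1_sm]

lemma dY_dx1 (n : ℕ) (P : BP) : dY (dx1 n P) = dx1 n (dY P) := by
  induction P generalizing n with
  | nil => rfl
  | cons r P ih => simp only [dx1, dY, dyr_sm, ih]

lemma dY_dX (P : BP) : dY (dX P) = dX (dY P) := by
  cases P with
  | nil => rfl
  | cons r P => simp only [dX, dY, dY_dx1]

noncomputable def Da (a : ℕ) (x y : ℝ) : ℝ := 1 + a * (x ^ 2 + y ^ 2)

lemma Da_pos (a : ℕ) (x y : ℝ) : 0 < Da a x y := by unfold Da; (clear * -; positivity)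

theorem c1_Da (a : ℕ) : C1f (fun X => Da a X.re X.im) (fun X => 2 * a * X.re)
    (fun X => 2 * a * X.im) := by
  refine c1_congr (c1_ev2 (DL a)) (fun X => ?_) (fun X => ?_) (fun X => ?_)
  · rw [e_D, Da]
  · simp [DL, dX, dx1, sm1, ev2, ev1]; ring
  · simp [DL, dY, dyr, dy1, ev2, ev1]; ring

/-- `A / D^k` -/
theorem c1_divA (a : ℕ) {A Ax Ay : ℂ → ℝ} (hA : C1f A Ax Ay) (k : ℕ) :
    C1f (fun X => A X / Da a X.re X.im ^ k)
      (fun X => (Ax X * Da a X.re X.im - 2 * k * a * X.re * A X)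
        / (Da a X.re X.im ^ k * Da a X.re X.im))
      (fun X => (Ay X * Da a X.re X.im - 2 * k * a * X.im * A X)
        / (Da a X.re X.im ^ k * Da a X.re X.im)) := by
  induction k with
  | zero =>
    refine c1_congr hA ?_ ?_ ?_ <;> intro X
    · simp
    · have := (Da_pos a X.re X.im).ne'
      field_simp
      simp
    · have := (Da_pos a X.re X.im).ne'
      field_simp
      simp
  | succ k ih =>
    refine c1_congr (c1_mul ih (c1_inv (c1_Da a) fun X => (Da_pos a X.re X.im).ne')) ?_ ?_ ?_ <;>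
      intro X <;> have := (Da_pos a X.re X.im).ne' <;> push_cast <;> field_simp <;> ring

namespace CD

variable (C : CD)

/-- `2 k a` -/
def kb : ℤ := Int.mul 2 (Int.mul (Int.ofNat C.k) (Int.ofNat C.a))

/-- numerators of the derivatives of `P / D^j` -/
def qx (j : ℕ) (P : BP) : BP :=
  sb2 (mu2 (DL C.a) (dX P)) (sm2 (Int.mul 2 (Int.mul (Int.ofNat j) (Int.ofNat C.a))) (mu2 xL P))

def qy (j : ℕ) (P : BP) : BP :=
  sb2 (mu2 (DL C.a) (dY P)) (sm2 (Int.mul 2 (Int.mul (Int.ofNat j) (Int.ofNat C.a))) (mu2 yL P))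

def hL : BP := mu2 f2L C.U

def N4L : BP := ad2 (C.qx (C.k + 1) (C.qx C.k C.hL)) (C.qy (C.k + 1) (C.qy C.k C.hL))

lemma e_qx (j : ℕ) (P : BP) (x y : ℝ) : ev2 x y (C.qx j P) =
    ev2 x y (dX P) * Da C.a x y - 2 * j * C.a * x * ev2 x y P := by
  rw [qx, e_sb, ev2_mu, ev2_sm, ev2_mu, e_D, e_x, imul_cast, imul_cast, Da]
  have h1 : ((Int.ofNat j : ℤ) : ℝ) = j := by simp
  have h2 : ((Int.ofNat C.a : ℤ) : ℝ) = C.a := by simp
  rw [h1, h2]; push_cast; ring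

lemma e_qy (j : ℕ) (P : BP) (x y : ℝ) : ev2 x y (C.qy j P) =
    ev2 x y (dY P) * Da C.a x y - 2 * j * C.a * y * ev2 x y P := by
  rw [qy, e_sb, ev2_mu, ev2_sm, ev2_mu, e_D, e_y, imul_cast, imul_cast, Da]
  have h1 : ((Int.ofNat j : ℤ) : ℝ) = j := by simp
  have h2 : ((Int.ofNat C.a : ℤ) : ℝ) = C.a := by simp
  rw [h1, h2]; push_cast; ring

theorem c1_q (j : ℕ) (P : BP) :
    C1f (fun X : ℂ => ev2 X.re X.im P / C.K / Da C.a X.re X.im ^ j)
      (fun X => ev2 X.re X.im (C.qx j P) / C.K / Da C.a X.re X.im ^ (j + 1))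
      (fun X => ev2 X.re X.im (C.qy j P) / C.K / Da C.a X.re X.im ^ (j + 1)) := by
  have h1 : C1f (fun X : ℂ => ev2 X.re X.im P / C.K) (fun X => ev2 X.re X.im (dX P) / C.K)
      (fun X => ev2 X.re X.im (dY P) / C.K) := by
    refine c1_congr (c1_mul (c1_const ((C.K : ℝ)⁻¹)) (c1_ev2 P)) ?_ ?_ ?_ <;> intro X <;>
      simp [div_eq_mul_inv] <;> ring
  refine c1_congr (c1_divA C.a h1 j) (fun X => rfl) (fun X => ?_) (fun X => ?_)
  · rw [e_qx, pow_succ]; ring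
  · rw [e_qy, pow_succ]; ring

noncomputable def fU (X : ℂ) : ℝ := ev2 X.re X.im C.hL / C.K / Da C.a X.re X.im ^ C.k

noncomputable def fUx (X : ℂ) : ℝ :=
  ev2 X.re X.im (C.qx C.k C.hL) / C.K / Da C.a X.re X.im ^ (C.k + 1)

noncomputable def fUy (X : ℂ) : ℝ :=
  ev2 X.re X.im (C.qy C.k C.hL) / C.K / Da C.a X.re X.im ^ (C.k + 1)

noncomputable def fLap (X : ℂ) : ℝ :=
  ev2 X.re X.im C.N4L / C.K / Da C.a X.re X.im ^ (C.k + 2)

lemma e_dD (x y : ℝ) : ev2 x y (dX (DL C.a)) = 2 * C.a * x ∧ ev2 x y (dY (DL C.a)) = 2 * C.a * y := by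
  constructor
  · simp [DL, dX, dx1, sm1, ev2, ev1]; ring
  · simp [DL, dY, dyr, dy1, ev2, ev1]; ring

lemma e_dxy (x y : ℝ) : ev2 x y (dX xL) = 1 ∧ ev2 x y (dY xL) = 0 ∧ ev2 x y (dX yL) = 0 ∧
    ev2 x y (dY yL) = 1 := by
  refine ⟨?_, ?_, ?_, ?_⟩ <;> simp [xL, yL, dX, dY, dx1, dyr, dy1, sm1, ev2, ev1]

lemma q_comm (i j : ℕ) (P : BP) (x y : ℝ) :
    ev2 x y (C.qy j (C.qx i P)) - ev2 x y (C.qx j (C.qy i P)) =
      (2 * i * C.a - 2 * j * C.a + 2 * C.a)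
        * (y * ev2 x y (dX P) - x * ev2 x y (dY P)) * Da C.a x y := by
  rw [e_qy, e_qx C i P, e_qx C j (C.qy i P), e_qy C i P]
  have h1 : ev2 x y (dY (C.qx i P)) = (2 * C.a * y) * ev2 x y (dX P)
      + Da C.a x y * ev2 x y (dX (dY P)) - 2 * i * C.a * x * ev2 x y (dY P) := by
    rw [qx, (d_sb x y _ _).2, (d_mu x y _ _).2, (d_sm x y _ _).2, (d_mu x y _ _).2, (C.e_dD x y).2,
      (e_dxy x y).2.1, e_D, e_x, dY_dX, Da, imul_cast, imul_cast]
    have h1 : ((Int.ofNat i : ℤ) : ℝ) = i := by simp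
    have h2 : ((Int.ofNat C.a : ℤ) : ℝ) = C.a := by simp
    rw [h1, h2]; push_cast; ring
  have h2 : ev2 x y (dX (C.qy i P)) = (2 * C.a * x) * ev2 x y (dY P)
      + Da C.a x y * ev2 x y (dX (dY P)) - 2 * i * C.a * y * ev2 x y (dX P) := by
    rw [qy, (d_sb x y _ _).1, (d_mu x y _ _).1, (d_sm x y _ _).1, (d_mu x y _ _).1, (C.e_dD x y).1,
      (e_dxy x y).2.2.1, e_D, e_y, Da, imul_cast, imul_cast]
    have h1 : ((Int.ofNat i : ℤ) : ℝ) = i := by simp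
    have h2 : ((Int.ofNat C.a : ℤ) : ℝ) = C.a := by simp
    rw [h1, h2]; push_cast; ring
  rw [h1, h2]
  ring

theorem c2_U : C2f C.fU C.fUx C.fUy C.fLap := by
  refine ⟨C.c1_q C.k C.hL, _, _, _, C.c1_q (C.k + 1) (C.qx C.k C.hL),
    c1_congr (C.c1_q (C.k + 1) (C.qy C.k C.hL)) (fun _ => rfl)
      (W' := C.fUy) (Wx' := fun X => ev2 X.re X.im (C.qy (C.k + 1) (C.qx C.k C.hL)) / C.K
        / Da C.a X.re X.im ^ (C.k + 1 + 1)) (fun X => ?_) (fun _ => rfl), fun X => ?_⟩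
  · show ev2 X.re X.im (C.qy (C.k + 1) (C.qx C.k C.hL)) / C.K / Da C.a X.re X.im ^ (C.k + 1 + 1) =
      ev2 X.re X.im (C.qx (C.k + 1) (C.qy C.k C.hL)) / C.K / Da C.a X.re X.im ^ (C.k + 1 + 1)
    have h := C.q_comm C.k (C.k + 1) C.hL X.re X.im
    have h0 : (2 * (C.k : ℝ) * C.a - 2 * ((C.k + 1 : ℕ) : ℝ) * C.a + 2 * C.a) = 0 := by
      push_cast; ring
    rw [h0, zero_mul, zero_mul] at h
    rw [sub_eq_zero.1 h]
  · rw [fLap, N4L, ev2_ad]; ring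

/-- values at a point -/
noncomputable def pt (x y : ℝ) : Pt where
  x := x
  y := y
  D := Da C.a x y
  E := Da C.a x y ^ C.k
  kb := 2 * C.k * C.a
  k2 := C.kk / C.K
  n4 := ev2 x y C.N4L / C.K
  nu := ev2 x y C.U / C.K
  nv := ev2 x y C.V / C.K
  nvx := ev2 x y (dX C.V) / C.K
  nvy := ev2 x y (dY C.V) / C.K
  nz := ev2 x y C.Z / C.K
  nzx := ev2 x y (dX C.Z) / C.K
  nzy := ev2 x y (dY C.Z) / C.K
  nw := ev2 x y C.W / C.K
  nwx := ev2 x y (dX C.W) / C.K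
  nwy := ev2 x y (dY C.W) / C.K
  nt := ev2 x y C.T / C.K
  ntx := ev2 x y (dX C.T) / C.K
  nty := ev2 x y (dY C.T) / C.K
  sg := ev2 x y C.S / C.K

end CD

end Pool.Agent.Helper71.EKC

end

section

namespace Pool.EK71
end Pool.EK71
namespace Pool.Agent.Helper52.EK
end Pool.Agent.Helper52.EK
namespace Pool.Agent.Helper2.EK
end Pool.Agent.Helper2.EK
namespace Pool.Agent.Helper71.EK
end Pool.Agent.Helper71.EK

/-!
The polynomials of the two conditions as lists, and their values.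
-/

set_option autoImplicit false

open Complex

namespace Pool.Agent.Helper71.EKC

open Pool.EK71 Pool.Agent.Helper52.EK Pool.Agent.Helper2.EK Pool.Agent.Helper71.EK

namespace CD

variable (C : CD)

def DDL : BP := DL C.a

def tX (N : BP) : BP := sb2 (mu2 (dX N) C.DDL) (sm2 C.kb (mu2 xL N))

def tY (N : BP) : BP := sb2 (sm2 C.kb (mu2 yL N)) (mu2 (dY N) C.DDL)

def nrL (N : BP) : BP :=
  ad2 (sm2 2 (mu2 N C.DDL)) (sb2 (mu2 fL (C.tX N)) (mu2 yL (C.tY N)))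

def niL (N : BP) : BP := ad2 (mu2 fL (C.tY N)) (mu2 yL (C.tX N))

def a1L : BP := sb2 (C.nrL C.W) (C.niL C.V)

def a2L : BP := ad2 (C.niL C.W) (C.nrL C.V)

def b1L : BP := sb2 (C.nrL C.T) (C.niL C.Z)

def b2L : BP := ad2 (C.niL C.T) (C.nrL C.Z)

def EL : BP := pw2 C.DDL C.k

def UZ : BP := sb2 C.U C.Z

def NaL : BP := ad2 (sb2 (sm2 C.kk C.EL) C.S) (sm2 2 C.UZ)

def NgL : BP := sb2 (sb2 (sm2 C.kk C.EL) C.S) (sm2 2 C.UZ)

def m11L : BP := sb2 (sm2 4 (mu2 C.N4L C.NaL)) (ad2 (mu2 C.a1L C.a1L) (mu2 C.a2L C.a2L))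

def m12L : BP := sb2 (sm2 4 (mu2 C.N4L C.V)) (sm2 2 (ad2 (mu2 C.a1L C.b1L) (mu2 C.a2L C.b2L)))

def m22L : BP := sb2 (sm2 4 (mu2 C.N4L C.NgL)) (sm2 4 (ad2 (mu2 C.b1L C.b1L) (mu2 C.b2L C.b2L)))

def q1L : BP := sb2 C.N4L (cL 1)

def KZ : ℤ := Int.ofNat C.K

def DEL : BP := mu2 C.DDL C.EL

def SDL : BP := mu2 C.S C.DDL

def N2L : BP :=
  ad2 (sb2 (mu2 r2L C.N4L) (sm2 (Int.mul 4 C.KZ) (mu2 C.DDL C.DEL)))
    (sm2 4 (mu2 f2L (mu2 C.SDL C.DDL)))

def q2L : BP := sb2 C.N2L (cL 1)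

section vert

variable (p r L : ℤ)

def Na2L : BP :=
  ad2 (ad2 (sm2 (Int.mul L C.kk) C.EL) (sm2 (Int.mul 2 L) C.UZ))
    (sb2 (sm2 4 (mu2 C.S (ad2 (sm2 (Int.mul 4 p) f2L) (sm2 2 (ad2 (sm2 p fL) (sm2 r yL))))))
      (sm2 (Int.mul 16 (Int.mul p C.KZ)) C.EL))

def Ng2L : BP := sb2 (sm2 (Int.mul L C.kk) C.EL) (sm2 (Int.mul 2 L) C.UZ)

def Nb2L : BP := ad2 (sm2 L C.V) (sm2 4 (mu2 C.S (sb2 (sm2 p yL) (sm2 r fL))))

def c1L : BP := ad2 (sm2 (Int.sub (Int.mul 2 p) L) fL) (sm2 (Int.mul 2 r) yL)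

def c2L : BP := sb2 (sm2 (Int.sub (Int.mul 2 p) L) yL) (sm2 (Int.mul 2 r) fL)

def A21L : BP :=
  ad2 (sm2 L (sb2 (mu2 xL C.a1L) (mu2 yL C.a2L)))
    (sb2 (mu2 C.SDL (ad2 (sm2 (Int.mul 16 p) f2L) (sm2 4 (c1L p r L))))
      (sm2 (Int.mul 16 (Int.mul p C.KZ)) C.DEL))

def A22L : BP :=
  ad2 (sm2 L (ad2 (mu2 xL C.a2L) (mu2 yL C.a1L)))
    (ad2 (mu2 C.SDL (sb2 (sm2 4 (c2L p r L)) (sm2 (Int.mul 16 r) f2L)))
      (sm2 (Int.mul 16 (Int.mul r C.KZ)) C.DEL))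

def B21L : BP := ad2 (sm2 L (sb2 (mu2 xL C.b1L) (mu2 yL C.b2L))) (sm2 2 (mu2 C.SDL (c2L p r L)))

def B22L : BP := sb2 (sm2 L (ad2 (mu2 xL C.b2L) (mu2 yL C.b1L))) (sm2 2 (mu2 C.SDL (c1L p r L)))

def M11L : BP :=
  sb2 (sm2 (Int.mul 4 L) (mu2 C.N2L (C.Na2L p r L)))
    (ad2 (mu2 (C.A21L p r L) (C.A21L p r L)) (mu2 (C.A22L p r L) (C.A22L p r L)))

def M12L : BP :=
  sb2 (sm2 (Int.mul 4 L) (mu2 C.N2L (C.Nb2L p r L)))
    (sm2 2 (ad2 (mu2 (C.A21L p r L) (C.B21L p r L)) (mu2 (C.A22L p r L) (C.B22L p r L))))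

def M22L : BP :=
  sb2 (sm2 (Int.mul 4 L) (mu2 C.N2L (C.Ng2L L)))
    (sm2 4 (ad2 (mu2 (C.B21L p r L) (C.B21L p r L)) (mu2 (C.B22L p r L) (C.B22L p r L))))

end vert

section val

variable (x y : ℝ)

lemma v_D : ev2 x y C.DDL = (C.pt x y).D := by rw [DDL, e_D]; rfl

lemma v_E : ev2 x y C.EL = (C.pt x y).E := by rw [EL, e_pw, v_D]; rfl

lemma v_kb : (C.kb : ℝ) = (C.pt x y).kb := by
  rw [kb, imul_cast, imul_cast]
  have h1 : ((Int.ofNat C.k : ℤ) : ℝ) = C.k := by simp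
  have h2 : ((Int.ofNat C.a : ℤ) : ℝ) = C.a := by simp
  rw [h1, h2]
  show _ = 2 * (C.k : ℝ) * C.a
  push_cast; ring

lemma v_tX (N : BP) : ev2 x y (C.tX N) =
    ev2 x y (dX N) * (C.pt x y).D - (C.pt x y).kb * ev2 x y N * x := by
  rw [tX, e_sb, ev2_mu, ev2_sm, ev2_mu, e_x, v_D, C.v_kb x y]; ring

lemma v_tY (N : BP) : ev2 x y (C.tY N) =
    (C.pt x y).kb * ev2 x y N * y - ev2 x y (dY N) * (C.pt x y).D := by
  rw [tY, e_sb, ev2_mu, ev2_sm, ev2_mu, e_y, v_D, C.v_kb x y]; ring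

variable {C} (hK : 0 < C.K)

include hK

lemma v_nr (N : BP) : ev2 x y (C.nrL N) = 2 * C.K *
    (C.pt x y).nr (ev2 x y N / C.K) (ev2 x y (dX N) / C.K) (ev2 x y (dY N) / C.K) := by
  have hK' : (C.K : ℝ) ≠ 0 := by exact_mod_cast hK.ne'
  have hx : (C.pt x y).x = x := rfl
  have hy : (C.pt x y).y = y := rfl
  rw [nrL, ev2_ad, ev2_sm, ev2_mu, e_sb, ev2_mu, ev2_mu, e_f, e_y, v_tX, v_tY, v_D, Pt.nr, hx, hy]
  field_simp
  push_cast
  ring

lemma v_ni (N : BP) : ev2 x y (C.niL N) = 2 * C.K *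
    (C.pt x y).ni (ev2 x y N / C.K) (ev2 x y (dX N) / C.K) (ev2 x y (dY N) / C.K) := by
  have hK' : (C.K : ℝ) ≠ 0 := by exact_mod_cast hK.ne'
  have hx : (C.pt x y).x = x := rfl
  have hy : (C.pt x y).y = y := rfl
  rw [niL, ev2_ad, ev2_mu, ev2_mu, e_f, e_y, v_tX, v_tY, Pt.ni, hx, hy]
  (clear * - hK'; field_simp)

lemma v_a1 : ev2 x y C.a1L = 2 * C.K * (C.pt x y).a1 := by
  rw [a1L, e_sb, v_nr x y hK, v_ni x y hK, Pt.a1]
  show _ = 2 * (C.K : ℝ) * ((C.pt x y).nr (ev2 x y C.W / C.K) (ev2 x y (dX C.W) / C.K)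
    (ev2 x y (dY C.W) / C.K) - (C.pt x y).ni (ev2 x y C.V / C.K) (ev2 x y (dX C.V) / C.K)
    (ev2 x y (dY C.V) / C.K))
  ring

lemma v_a2 : ev2 x y C.a2L = 2 * C.K * (C.pt x y).a2 := by
  rw [a2L, ev2_ad, v_nr x y hK, v_ni x y hK, Pt.a2]
  show _ = 2 * (C.K : ℝ) * ((C.pt x y).ni (ev2 x y C.W / C.K) (ev2 x y (dX C.W) / C.K)
    (ev2 x y (dY C.W) / C.K) + (C.pt x y).nr (ev2 x y C.V / C.K) (ev2 x y (dX C.V) / C.K)
    (ev2 x y (dY C.V) / C.K))
  ring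

lemma v_b1 : ev2 x y C.b1L = 2 * C.K * (C.pt x y).b1 := by
  rw [b1L, e_sb, v_nr x y hK, v_ni x y hK, Pt.b1]
  show _ = 2 * (C.K : ℝ) * ((C.pt x y).nr (ev2 x y C.T / C.K) (ev2 x y (dX C.T) / C.K)
    (ev2 x y (dY C.T) / C.K) - (C.pt x y).ni (ev2 x y C.Z / C.K) (ev2 x y (dX C.Z) / C.K)
    (ev2 x y (dY C.Z) / C.K))
  ring

lemma v_b2 : ev2 x y C.b2L = 2 * C.K * (C.pt x y).b2 := by
  rw [b2L, ev2_ad, v_nr x y hK, v_ni x y hK, Pt.b2]
  show _ = 2 * (C.K : ℝ) * ((C.pt x y).ni (ev2 x y C.T / C.K) (ev2 x y (dX C.T) / C.K)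
    (ev2 x y (dY C.T) / C.K) + (C.pt x y).nr (ev2 x y C.Z / C.K) (ev2 x y (dX C.Z) / C.K)
    (ev2 x y (dY C.Z) / C.K))
  ring

lemma v_n4 : ev2 x y C.N4L = C.K * (C.pt x y).n4 := by
  have hK' : (C.K : ℝ) ≠ 0 := by exact_mod_cast hK.ne'
  show _ = (C.K : ℝ) * (ev2 x y C.N4L / C.K); field_simp

lemma v_V : ev2 x y C.V = C.K * (C.pt x y).nv := by
  have hK' : (C.K : ℝ) ≠ 0 := by exact_mod_cast hK.ne'
  show _ = (C.K : ℝ) * (ev2 x y C.V / C.K); field_simp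

lemma v_S : ev2 x y C.S = C.K * (C.pt x y).sg := by
  have hK' : (C.K : ℝ) ≠ 0 := by exact_mod_cast hK.ne'
  show _ = (C.K : ℝ) * (ev2 x y C.S / C.K); field_simp

lemma v_UZ : ev2 x y C.UZ = C.K * ((C.pt x y).nu - (C.pt x y).nz) := by
  have hK' : (C.K : ℝ) ≠ 0 := by exact_mod_cast hK.ne'
  rw [UZ, e_sb]
  show _ = (C.K : ℝ) * (ev2 x y C.U / C.K - ev2 x y C.Z / C.K); field_simp

lemma v_kk : (C.kk : ℝ) = C.K * (C.pt x y).k2 := by
  have hK' : (C.K : ℝ) ≠ 0 := by exact_mod_cast hK.ne'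
  show _ = (C.K : ℝ) * ((C.kk : ℝ) / C.K); field_simp

lemma v_Na : ev2 x y C.NaL = C.K * (C.pt x y).Na := by
  rw [NaL, ev2_ad, e_sb, ev2_sm, ev2_sm, v_E, v_S x y hK, v_UZ x y hK, v_kk x y hK, Pt.Na]
  push_cast; ring

lemma v_Ng : ev2 x y C.NgL = C.K * (C.pt x y).Ng := by
  rw [NgL, e_sb, e_sb, ev2_sm, ev2_sm, v_E, v_S x y hK, v_UZ x y hK, v_kk x y hK, Pt.Ng]
  push_cast; ring

lemma v_m11 : ev2 x y C.m11L = 4 * C.K ^ 2 * (C.pt x y).m11 := by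
  rw [m11L, e_sb, ev2_sm, ev2_mu, ev2_ad, ev2_mu, ev2_mu, v_n4 x y hK, v_Na x y hK,
    v_a1 x y hK, v_a2 x y hK, Pt.m11]
  push_cast; ring

lemma v_m12 : ev2 x y C.m12L = 4 * C.K ^ 2 * (C.pt x y).m12 := by
  rw [m12L, e_sb, ev2_sm, ev2_mu, ev2_sm, ev2_ad, ev2_mu, ev2_mu, v_n4 x y hK, v_V x y hK,
    v_a1 x y hK, v_a2 x y hK, v_b1 x y hK, v_b2 x y hK, Pt.m12, Pt.Nb]
  push_cast; ring

lemma v_m22 : ev2 x y C.m22L = 4 * C.K ^ 2 * (C.pt x y).m22 := by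
  rw [m22L, e_sb, ev2_sm, ev2_mu, ev2_sm, ev2_ad, ev2_mu, ev2_mu, v_n4 x y hK, v_Ng x y hK,
    v_b1 x y hK, v_b2 x y hK, Pt.m22]
  push_cast; ring

lemma v_DE : ev2 x y C.DEL = (C.pt x y).D * (C.pt x y).E := by rw [DEL, ev2_mu, v_D, v_E]

lemma v_SD : ev2 x y C.SDL = C.K * (C.pt x y).sg * (C.pt x y).D := by
  rw [SDL, ev2_mu, v_D, v_S x y hK]

lemma v_KZ : (C.KZ : ℝ) = C.K := by rw [KZ]; simp

lemma v_N2 : ev2 x y C.N2L = C.K * (C.pt x y).N2 := by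
  rw [N2L, ev2_ad, e_sb, ev2_mu, ev2_sm, ev2_mu, ev2_sm, ev2_mu, ev2_mu, e_r2, e_f2,
    v_n4 x y hK, v_D, v_DE x y hK, v_SD x y hK, imul_cast, v_KZ hK, Pt.N2, Pt.ff]
  show _ = (C.K : ℝ) * ((x ^ 2 + y ^ 2) * (C.pt x y).n4 - 4 * ((C.pt x y).D ^ 2 * (C.pt x y).E)
    + 4 * (C.pt x y).sg * ((x - 1) ^ 2 + y ^ 2) * (C.pt x y).D ^ 2)
  push_cast; ring

variable {p r L : ℤ} (hL : 0 < L)

include hL

lemma v_Na2 : ev2 x y (C.Na2L p r L) = C.K * L * (C.pt x y).Na2 (p / L) (r / L) := by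
  have hL' : (L : ℝ) ≠ 0 := by exact_mod_cast hL.ne'
  rw [Na2L, ev2_ad, ev2_ad, e_sb, ev2_sm, ev2_sm, ev2_sm, ev2_mu, ev2_ad, ev2_sm, ev2_sm, ev2_ad,
    ev2_sm, ev2_sm, ev2_sm, e_f2, e_f, e_y, v_E, v_S x y hK, v_UZ x y hK, imul_cast, imul_cast,
    imul_cast, imul_cast, imul_cast, v_kk x y hK, v_KZ hK, Pt.Na2, Pt.ff]
  show _ = (C.K : ℝ) * L * ((C.pt x y).k2 * (C.pt x y).E + 2 * ((C.pt x y).nu - (C.pt x y).nz)
    - 16 * (p / L) * (C.pt x y).E + 4 * (C.pt x y).sg * (4 * (p / L) * ((x - 1) ^ 2 + y ^ 2)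
    + 2 * ((p / L) * (x - 1) + (r / L) * y)))
  field_simp
  push_cast; ring

lemma v_Ng2 : ev2 x y (C.Ng2L L) = C.K * L * (C.pt x y).Ng2 := by
  rw [Ng2L, e_sb, ev2_sm, ev2_sm, v_E, v_UZ x y hK, imul_cast, imul_cast, v_kk x y hK, Pt.Ng2]
  push_cast; ring

lemma v_Nb2 : ev2 x y (C.Nb2L p r L) = C.K * L * (C.pt x y).Nb2 (p / L) (r / L) := by
  have hL' : (L : ℝ) ≠ 0 := by exact_mod_cast hL.ne'
  rw [Nb2L, ev2_ad, ev2_sm, ev2_sm, ev2_mu, e_sb, ev2_sm, ev2_sm, e_f, e_y, v_S x y hK,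
    v_V x y hK, Pt.Nb2]
  show _ = (C.K : ℝ) * L * ((C.pt x y).nv + 4 * (C.pt x y).sg * ((p / L) * y - (r / L) * (x - 1)))
  field_simp
  push_cast; ring

omit hK in
lemma v_c1 : ev2 x y (c1L p r L) = L * (C.pt x y).c1 (p / L) (r / L) := by
  have hL' : (L : ℝ) ≠ 0 := by exact_mod_cast hL.ne'
  have h1 : ((Int.sub (Int.mul 2 p) L : ℤ) : ℝ) = 2 * p - L := by
    show (((2 * p - L : ℤ)) : ℝ) = _
    push_cast; ring
  rw [c1L, ev2_ad, ev2_sm, ev2_sm, e_f, e_y, h1, imul_cast, Pt.c1]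
  show _ = (L : ℝ) * ((2 * (p / L) - 1) * (x - 1) + 2 * (r / L) * y)
  field_simp
  push_cast; ring

omit hK in
lemma v_c2 : ev2 x y (c2L p r L) = L * (C.pt x y).c2 (p / L) (r / L) := by
  have hL' : (L : ℝ) ≠ 0 := by exact_mod_cast hL.ne'
  have h1 : ((Int.sub (Int.mul 2 p) L : ℤ) : ℝ) = 2 * p - L := by
    show (((2 * p - L : ℤ)) : ℝ) = _
    push_cast; ring
  rw [c2L, e_sb, ev2_sm, ev2_sm, e_f, e_y, h1, imul_cast, Pt.c2]
  show _ = (L : ℝ) * ((2 * (p / L) - 1) * y - 2 * (r / L) * (x - 1))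
  field_simp
  push_cast; ring

lemma v_A21 : ev2 x y (C.A21L p r L) = C.K * L * (C.pt x y).A21 (p / L) (r / L) := by
  have hL' : (L : ℝ) ≠ 0 := by exact_mod_cast hL.ne'
  rw [A21L, ev2_ad, ev2_sm, e_sb, ev2_mu, ev2_mu, e_sb, ev2_mu, ev2_ad, ev2_sm, ev2_sm, ev2_sm,
    e_x, e_y, e_f2, v_a1 x y hK, v_a2 x y hK, v_SD x y hK, v_DE x y hK, v_c1 (C := C) x y hL,
    imul_cast, imul_cast, imul_cast, v_KZ hK, Pt.A21, Pt.ff]
  show _ = (C.K : ℝ) * L * (2 * (x * (C.pt x y).a1 - y * (C.pt x y).a2)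
    + (C.pt x y).sg * (C.pt x y).D * (16 * (p / L) * ((x - 1) ^ 2 + y ^ 2)
    + 4 * (C.pt x y).c1 (p / L) (r / L)) - 16 * (p / L) * ((C.pt x y).D * (C.pt x y).E))
  field_simp
  push_cast; ring

lemma v_A22 : ev2 x y (C.A22L p r L) = C.K * L * (C.pt x y).A22 (p / L) (r / L) := by
  have hL' : (L : ℝ) ≠ 0 := by exact_mod_cast hL.ne'
  rw [A22L, ev2_ad, ev2_sm, ev2_ad, ev2_mu, ev2_mu, ev2_ad, ev2_mu, e_sb, ev2_sm, ev2_sm, ev2_sm,
    e_x, e_y, e_f2, v_a1 x y hK, v_a2 x y hK, v_SD x y hK, v_DE x y hK, v_c2 (C := C) x y hL,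
    imul_cast, imul_cast, imul_cast, v_KZ hK, Pt.A22, Pt.ff]
  show _ = (C.K : ℝ) * L * (2 * (x * (C.pt x y).a2 + y * (C.pt x y).a1)
    + (C.pt x y).sg * (C.pt x y).D * (-16 * (r / L) * ((x - 1) ^ 2 + y ^ 2)
    + 4 * (C.pt x y).c2 (p / L) (r / L)) + 16 * (r / L) * ((C.pt x y).D * (C.pt x y).E))
  field_simp
  push_cast; ring

lemma v_B21 : ev2 x y (C.B21L p r L) = C.K * L * (C.pt x y).B21 (p / L) (r / L) := by
  rw [B21L, ev2_ad, ev2_sm, e_sb, ev2_mu, ev2_mu, ev2_sm, ev2_mu,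
    e_x, e_y, v_b1 x y hK, v_b2 x y hK, v_SD x y hK, v_c2 (C := C) x y hL, Pt.B21]
  show _ = (C.K : ℝ) * L * (2 * (x * (C.pt x y).b1 - y * (C.pt x y).b2)
    + 2 * ((C.pt x y).sg * (C.pt x y).D * (C.pt x y).c2 (p / L) (r / L)))
  push_cast; ring

lemma v_B22 : ev2 x y (C.B22L p r L) = C.K * L * (C.pt x y).B22 (p / L) (r / L) := by
  rw [B22L, e_sb, ev2_sm, ev2_ad, ev2_mu, ev2_mu, ev2_sm, ev2_mu,
    e_x, e_y, v_b1 x y hK, v_b2 x y hK, v_SD x y hK, v_c1 (C := C) x y hL, Pt.B22]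
  show _ = (C.K : ℝ) * L * (2 * (x * (C.pt x y).b2 + y * (C.pt x y).b1)
    - 2 * ((C.pt x y).sg * (C.pt x y).D * (C.pt x y).c1 (p / L) (r / L)))
  push_cast; ring

lemma v_M11 : ev2 x y (C.M11L p r L) =
    (C.K * L) ^ 2 * (C.pt x y).M11 (p / L) (r / L) := by
  rw [M11L, e_sb, ev2_sm, ev2_mu, ev2_ad, ev2_mu, ev2_mu, v_N2 x y hK, v_Na2 x y hK hL,
    v_A21 x y hK hL, v_A22 x y hK hL, imul_cast, Pt.M11]
  push_cast; ring

lemma v_M12 : ev2 x y (C.M12L p r L) =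
    (C.K * L) ^ 2 * (C.pt x y).M12 (p / L) (r / L) := by
  rw [M12L, e_sb, ev2_sm, ev2_mu, ev2_sm, ev2_ad, ev2_mu, ev2_mu, v_N2 x y hK, v_Nb2 x y hK hL,
    v_A21 x y hK hL, v_A22 x y hK hL, v_B21 x y hK hL, v_B22 x y hK hL, imul_cast, Pt.M12]
  push_cast; ring

lemma v_M22 : ev2 x y (C.M22L p r L) =
    (C.K * L) ^ 2 * (C.pt x y).M22 (p / L) (r / L) := by
  rw [M22L, e_sb, ev2_sm, ev2_mu, ev2_sm, ev2_ad, ev2_mu, ev2_mu, v_N2 x y hK, v_Ng2 x y hK hL,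
    v_B21 x y hK hL, v_B22 x y hK hL, imul_cast, Pt.M22]
  push_cast; ring

end val

end CD

end Pool.Agent.Helper71.EKC

end

section

namespace Pool.EK71
end Pool.EK71

/-!
# Project CK: positivity of integer polynomials in two variables on a region

`bx F G n c1 h1 c2 h2`: subdivision of the box `|x - c1| ≤ h1`, `|y - c2| ≤ h2`; the box is left
when the Taylor expansion of `F` at the centre is dominated by its constant term, or when one of
the polynomials of `G` is negative on the box.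
-/

set_option autoImplicit false

namespace Pool.Agent.Helper20.CK

open Pool.EK71

/-- multiplication by `c + h v` -/
def li1 (c h : ℤ) (q : List ℤ) : List ℤ := ad1 (sm1 c q) (0 :: sm1 h q)

/-- `p (c + h v)` -/
def ty1 (c h : ℤ) : List ℤ → List ℤ
  | [] => []
  | a :: p => ad1 [a] (li1 c h (ty1 c h p))

/-- multiplication by `c + h u` -/
def li2 (c h : ℤ) (Q : BP) : BP := ad2 (sm2 c Q) ([] :: sm2 h Q)

/-- `P (c + h u, c' + h' v)` -/
def ty2 (c h c' h' : ℤ) : BP → BP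
  | [] => []
  | r :: P => ad2 [ty1 c' h' r] (li2 c h (ty2 c h c' h' P))

theorem ev1_ty (v : ℝ) (c h : ℤ) (p : List ℤ) : ev1 v (ty1 c h p) = ev1 (c + h * v) p := by
  induction p with
  | nil => rfl
  | cons a p ih =>
    simp only [ty1, li1, ev1_ad, ev1_sm, ev1, ih, Int.cast_zero]
    ring

theorem ev2_ty (u v : ℝ) (c h c' h' : ℤ) (P : BP) :
    ev2 u v (ty2 c h c' h' P) = ev2 (c + h * u) (c' + h' * v) P := by
  induction P with
  | nil => rfl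
  | cons r P ih =>
    simp only [ty2, li2, ev2_ad, ev2_sm, ev2, ev1, ih, ev1_ty]
    ring

/-- sum of the absolute values -/
def sa1 : List ℤ → ℕ
  | [] => 0
  | a :: p => Nat.add (Int.natAbs a) (sa1 p)

def sa2 : BP → ℕ
  | [] => 0
  | r :: P => Nat.add (sa1 r) (sa2 P)

theorem natAbs_cast_abs (a : ℤ) : ((Int.natAbs a : ℕ) : ℝ) = |(a : ℝ)| := by
  rw [← Int.cast_abs, Int.abs_eq_natAbs, Int.cast_natCast]

theorem nadd_cast (a b : ℕ) : ((Nat.add a b : ℕ) : ℝ) = a + b := by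
  show (((a + b : ℕ)) : ℝ) = _
  push_cast
  ring

theorem ev1_le {v : ℝ} (hv : |v| ≤ 1) (p : List ℤ) : |ev1 v p| ≤ (sa1 p : ℝ) := by
  induction p with
  | nil => simp [ev1, sa1]
  | cons a p ih =>
    simp only [ev1, sa1]
    rw [nadd_cast, natAbs_cast_abs]
    refine (abs_add_le _ _).trans ?_
    rw [abs_mul]
    have := mul_le_mul hv ih (abs_nonneg _) zero_le_one
    linarith only [this]

theorem ev2_le {u v : ℝ} (hu : |u| ≤ 1) (hv : |v| ≤ 1) (P : BP) :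
    |ev2 u v P| ≤ (sa2 P : ℝ) := by
  induction P with
  | nil => simp [ev2, sa2]
  | cons r P ih =>
    simp only [ev2, sa2]
    rw [nadd_cast]
    refine (abs_add_le _ _).trans ?_
    rw [abs_mul]
    have := mul_le_mul hu ih (abs_nonneg _) zero_le_one
    have := ev1_le hv r
    linarith

/-- the constant term is larger than all the others together -/
def dom : BP → Bool
  | (Int.ofNat n :: r) :: P => Nat.ble (Nat.succ (Nat.add (sa1 r) (sa2 P))) n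
  | _ => false

/-- minus the constant term is larger than all the others together -/
def domn : BP → Bool
  | (Int.negSucc n :: r) :: P => Nat.ble (Nat.add (sa1 r) (sa2 P)) n
  | _ => false

theorem dom_pos {P : BP} (h : dom P = true) {u v : ℝ} (hu : |u| ≤ 1) (hv : |v| ≤ 1) :
    0 < ev2 u v P := by
  match P, h with
  | (Int.ofNat n :: r) :: P, h =>
    simp only [dom, Nat.ble_eq] at h
    have h1 : ((Nat.add (sa1 r) (sa2 P) : ℕ) : ℝ) + 1 ≤ n := by exact_mod_cast h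
    rw [nadd_cast] at h1
    simp only [ev2, ev1]
    have e : ((Int.ofNat n : ℤ) : ℝ) = n := by simp
    rw [e]
    have k1 := abs_le.1 (ev1_le hv r)
    have k2 := abs_le.1 (ev2_le hu hv P)
    have k3 : |v * ev1 v r| ≤ sa1 r := by
      rw [abs_mul]
      have := mul_le_mul hv (ev1_le hv r) (abs_nonneg _) zero_le_one
      linarith only [this]
    have k4 : |u * ev2 u v P| ≤ sa2 P := by
      rw [abs_mul]
      have := mul_le_mul hu (ev2_le hu hv P) (abs_nonneg _) zero_le_one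
      linarith only [this]
    have k5 := (abs_le.1 k3).1
    have k6 := (abs_le.1 k4).1
    (clear * - h1 k5 k6; linarith only [h1, k5, k6])

theorem domn_neg {P : BP} (h : domn P = true) {u v : ℝ} (hu : |u| ≤ 1) (hv : |v| ≤ 1) :
    ev2 u v P < 0 := by
  match P, h with
  | (Int.negSucc n :: r) :: P, h =>
    simp only [domn, Nat.ble_eq] at h
    have h1 : ((Nat.add (sa1 r) (sa2 P) : ℕ) : ℝ) ≤ n := by exact_mod_cast h
    rw [nadd_cast] at h1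
    simp only [ev2, ev1]
    have e : ((Int.negSucc n : ℤ) : ℝ) = - (n + 1) := by
      rw [Int.cast_negSucc]
      push_cast
      ring
    rw [e]
    have k3 : |v * ev1 v r| ≤ sa1 r := by
      rw [abs_mul]
      have := mul_le_mul hv (ev1_le hv r) (abs_nonneg _) zero_le_one
      (clear * - this; linarith only [this])
    have k4 : |u * ev2 u v P| ≤ sa2 P := by
      rw [abs_mul]
      have := mul_le_mul hu (ev2_le hu hv P) (abs_nonneg _) zero_le_one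
      (clear * - this; linarith only [this])
    have k5 := (abs_le.1 k3).2
    have k6 := (abs_le.1 k4).2
    (clear * - h1 k5 k6; linarith only [h1, k5, k6])

/-- `true`: the first variable matters more -/
def dirx : BP → Bool
  | (_ :: r) :: P => Nat.ble (sa1 r) (sa2 P)
  | _ => true

def negs (c1 h1 c2 h2 : ℤ) : List BP → Bool
  | [] => false
  | g :: G => or (domn (ty2 c1 h1 c2 h2 g)) (negs c1 h1 c2 h2 G)

/-- half of a width, rounded up -/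
def hf (h : ℕ) : ℕ := Nat.div (Nat.succ h) 2

theorem hf_le (h : ℕ) : h ≤ 2 * hf h := by
  unfold hf
  have : Nat.div (Nat.succ h) 2 = (h + 1) / 2 := rfl
  rw [this]
  omega

/-- the subdivision -/
def bx (F : BP) (G : List BP) : ℕ → ℤ → ℕ → ℤ → ℕ → Bool
  | 0, _, _, _, _ => false
  | n + 1, c1, h1, c2, h2 =>
    or (dom (ty2 c1 (Int.ofNat h1) c2 (Int.ofNat h2) F))
      (or (negs c1 (Int.ofNat h1) c2 (Int.ofNat h2) G)
        (cond (dirx (ty2 c1 (Int.ofNat h1) c2 (Int.ofNat h2) F))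
          (and (bx F G n (Int.sub c1 (Int.ofNat (hf h1))) (hf h1) c2 h2)
            (bx F G n (Int.add c1 (Int.ofNat (hf h1))) (hf h1) c2 h2))
          (and (bx F G n c1 h1 (Int.sub c2 (Int.ofNat (hf h2))) (hf h2))
            (bx F G n c1 h1 (Int.add c2 (Int.ofNat (hf h2))) (hf h2)))))

theorem exists_unit {x : ℝ} {c : ℤ} {h : ℕ} (hx : |x - c| ≤ h) :
    ∃ u : ℝ, |u| ≤ 1 ∧ x = c + ((Int.ofNat h : ℤ) : ℝ) * u := by
  have e : ((Int.ofNat h : ℤ) : ℝ) = h := by simp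
  rw [e]
  rcases Nat.eq_zero_or_pos h with h0 | h0
  · refine ⟨0, by norm_num, ?_⟩
    rw [h0, Nat.cast_zero] at hx
    have := abs_eq_zero.1 (le_antisymm hx (abs_nonneg _))
    linarith only [this]
  · have h1 : (0:ℝ) < h := by exact_mod_cast h0
    refine ⟨(x - c) / h, ?_, by field_simp; ring⟩
    rw [abs_div, abs_of_pos h1, div_le_one h1]
    exact hx

theorem split_box {x : ℝ} {c : ℤ} {h : ℕ} (hx : |x - c| ≤ h) :
    |x - ((Int.sub c (Int.ofNat (hf h)) : ℤ) : ℝ)| ≤ hf h ∨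
      |x - ((Int.add c (Int.ofNat (hf h)) : ℤ) : ℝ)| ≤ hf h := by
  have e1 : ((Int.sub c (Int.ofNat (hf h)) : ℤ) : ℝ) = c - hf h := by
    show (((c - (hf h : ℤ) : ℤ)) : ℝ) = _
    push_cast
    ring
  have e2 : ((Int.add c (Int.ofNat (hf h)) : ℤ) : ℝ) = c + hf h := by
    show (((c + (hf h : ℤ) : ℤ)) : ℝ) = _
    push_cast
    ring
  rw [e1, e2]
  have h1 : (h : ℝ) ≤ 2 * hf h := by exact_mod_cast hf_le h
  obtain ⟨k1, k2⟩ := abs_le.1 hx
  rcases le_total x c with k | k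
  · left
    rw [abs_le]
    constructor <;> linarith
  · right
    rw [abs_le]
    constructor <;> linarith

theorem negs_false {c1 c2 : ℤ} {h1 h2 : ℕ} {x y : ℝ} (hx : |x - c1| ≤ h1) (hy : |y - c2| ≤ h2)
    {G : List BP} (hG : ∀ g ∈ G, 0 ≤ ev2 x y g)
    (h : negs c1 (Int.ofNat h1) c2 (Int.ofNat h2) G = true) : False := by
  induction G with
  | nil => simp [negs] at h
  | cons g G ih =>
    simp only [negs, Bool.or_eq_true] at h
    rcases h with h | h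
    · obtain ⟨u, hu, eu⟩ := exists_unit hx
      obtain ⟨v, hv, ev⟩ := exists_unit hy
      have h3 := domn_neg h hu hv
      rw [ev2_ty, ← eu, ← ev] at h3
      have := hG g List.mem_cons_self
      (clear * - h3 this; linarith)
    · exact ih (fun g hg => hG g (List.mem_cons_of_mem _ hg)) h

/-- **the checker is correct** -/
theorem bx_sound {F : BP} {G : List BP} {x y : ℝ} (hG : ∀ g ∈ G, 0 ≤ ev2 x y g) :
    ∀ (n : ℕ) (c1 : ℤ) (h1 : ℕ) (c2 : ℤ) (h2 : ℕ), bx F G n c1 h1 c2 h2 = true →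
      |x - c1| ≤ h1 → |y - c2| ≤ h2 → 0 < ev2 x y F := by
  intro n
  induction n with
  | zero => intro c1 h1 c2 h2 h; simp [bx] at h
  | succ n ih =>
    intro c1 h1 c2 h2 h hx hy
    rw [bx, Bool.or_eq_true, Bool.or_eq_true] at h
    rcases h with h | h | h
    · obtain ⟨u, hu, eu⟩ := exists_unit hx
      obtain ⟨v, hv, ev⟩ := exists_unit hy
      have h3 := dom_pos h hu hv
      rwa [ev2_ty, ← eu, ← ev] at h3
    · exact (negs_false hx hy hG h).elim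
    · cases hd : dirx (ty2 c1 (Int.ofNat h1) c2 (Int.ofNat h2) F)
      · rw [hd, cond_false, Bool.and_eq_true] at h
        rcases split_box hy with k | k
        · exact ih _ _ _ _ h.1 hx k
        · exact ih _ _ _ _ h.2 hx k
      · rw [hd, cond_true, Bool.and_eq_true] at h
        rcases split_box hx with k | k
        · exact ih _ _ _ _ h.1 k hy
        · exact ih _ _ _ _ h.2 k hy

end Pool.Agent.Helper20.CK

end
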