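import Mathlib
import Pool.Agent.Helper14.CMF.T06
import Pool.Agent.Helper14.CMF.T02

set_option linter.all false

section

set_option autoImplicit false

open Complex MeasureTheory Metric Set Filter Topology

open scoped Real ENNReal ComplexConjugate NNReal

namespace Pool.Agent.Helper39.Area

theorem eq_zero_of_exp_one {X : Type*} [TopologicalSpace X] {S : Set X} (hS : IsPreconnected S)
    {f : X → ℂ} (hf : ContinuousOn f S) (he : ∀ x ∈ S, Complex.exp (f x) = 1) {x0 : X}
    (hx0 : x0 ∈ S) (h0 : f x0 = 0) : ∀ x ∈ S, f x = 0 := by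
  have him : ContinuousOn (fun x => (f x).im) S := Complex.continuous_im.comp_continuousOn hf
  have hpre := (hS.image _ him).ordConnected
  intro x hx
  obtain ⟨n, hn⟩ := Complex.exp_eq_one_iff.mp (he x hx)
  have him2 : (f x).im = n * (2 * π) := by rw [hn]; simp
  have hn0 : n = 0 := by
    by_contra hne
    -- a value with imaginary part ±π
    have hz : (0:ℝ) ∈ (fun x => (f x).im) '' S := ⟨x0, hx0, by simp [h0]⟩
    have hz2 : (n * (2 * π) : ℝ) ∈ (fun x => (f x).im) '' S := ⟨x, hx, him2⟩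
    have key : ∀ t : ℝ, (t = π ∨ t = -π) → t ∉ (fun x => (f x).im) '' S := by
      rintro t ht ⟨y, hy, hyt⟩
      obtain ⟨m, hm⟩ := Complex.exp_eq_one_iff.mp (he y hy)
      have h1 : (f y).im = m * (2 * π) := by rw [hm]; simp
      simp only at hyt
      rw [hyt] at h1
      have hpi := Real.pi_pos
      rcases ht with rfl | rfl
      · have h2 : (1:ℝ) = m * 2 := by
          have : π * 1 = π * (m * 2) := by linarith only [h1]
          exact mul_left_cancel₀ hpi.ne' this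
        have h3 : (1:ℤ) = m * 2 := by exact_mod_cast h2
        omega
      · have h2 : (-1:ℝ) = m * 2 := by
          have : π * (-1) = π * (m * 2) := by linarith
          exact mul_left_cancel₀ hpi.ne' this
        have h3 : (-1:ℤ) = m * 2 := by exact_mod_cast h2
        omega
    have hpi := Real.pi_pos
    rcases lt_or_gt_of_ne hne with h | h
    · have h1 : (n:ℝ) ≤ -1 := by exact_mod_cast (Int.le_sub_one_iff.mpr h)
      exact key (-π) (Or.inr rfl) (hpre.out hz2 hz ⟨by nlinarith only [hpi, h1], by (clear * - hpi; linarith)⟩)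
    · have h1 : (1:ℝ) ≤ n := by exact_mod_cast h
      exact key π (Or.inl rfl) (hpre.out hz hz2 ⟨by linarith, by (clear * - hpi h1; nlinarith only [hpi, h1])⟩)
  rw [hn, hn0]; simp

variable {β : ℂ → ℂ}

theorem dslope_cont (hβ : DifferentiableOn ℂ β (ball 0 1)) :
    ContinuousOn (fun p : ℂ × ℂ => dslope β p.1 p.2) (ball 0 1 ×ˢ ball 0 1) := by
  rintro ⟨a, b⟩ ⟨ha, hb⟩
  simp only at ha hb
  apply ContinuousAt.continuousWithinAt
  have hβa : ContinuousAt β a := (hβ.differentiableAt (isOpen_ball.mem_nhds ha)).continuousAt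
  have hβb : ContinuousAt β b := (hβ.differentiableAt (isOpen_ball.mem_nhds hb)).continuousAt
  by_cases hab : a = b
  · subst hab
    have han : AnalyticAt ℂ β a := hβ.analyticAt (isOpen_ball.mem_nhds ha)
    have hst : HasStrictDerivAt β (deriv β a) a := han.hasStrictDerivAt
    have hdc : ContinuousAt (deriv β) a :=
      ((hβ.deriv isOpen_ball).differentiableAt (isOpen_ball.mem_nhds ha)).continuousAt
    have hdc2 : ContinuousAt (fun p : ℂ × ℂ => deriv β p.1) (a, a) :=
      ContinuousAt.comp (f := Prod.fst) (g := deriv β) (x := ((a, a) : ℂ × ℂ)) hdc continuousAt_fst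
    rw [Metric.continuousAt_iff']
    intro ε hε
    rw [Metric.continuousAt_iff'] at hdc2
    have h1 := (hasStrictDerivAt_iff_hasStrictFDerivAt.mp hst).isLittleO
    have h2 := (Asymptotics.isLittleO_iff.mp h1) (half_pos hε)
    filter_upwards [h2, hdc2 ε hε] with p hp1 hp2
    simp only [dslope_same]
    by_cases hp : p.1 = p.2
    · rw [← hp, dslope_same]
      exact hp2
    · rw [dslope_of_ne _ (Ne.symm hp), slope_def_field, dist_eq_norm]
      have h3 : p.2 - p.1 ≠ 0 := sub_ne_zero.mpr (Ne.symm hp)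
      have h4 : (β p.2 - β p.1) / (p.2 - p.1) - deriv β a =
          (β p.1 - β p.2 - (p.1 - p.2) * deriv β a) / (p.1 - p.2) := by
        have h5 : p.1 - p.2 ≠ 0 := sub_ne_zero.mpr hp
        field_simp
        ring
      rw [h4, norm_div]
      have h5 : 0 < ‖p.1 - p.2‖ := norm_pos_iff.mpr (sub_ne_zero.mpr hp)
      rw [div_lt_iff₀ h5]
      have h6 : ‖β p.1 - β p.2 - (p.1 - p.2) * deriv β a‖ ≤ ε / 2 * ‖p.1 - p.2‖ := by
        simpa [mul_comm] using hp1
      nlinarith only [hε, h5, h6]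
  · have hne : ∀ᶠ p : ℂ × ℂ in 𝓝 (a, b), p.1 ≠ p.2 := by
      have : IsOpen {p : ℂ × ℂ | p.1 ≠ p.2} := isOpen_ne_fun continuous_fst continuous_snd
      exact this.mem_nhds hab
    have h1 : ContinuousAt (fun p : ℂ × ℂ => (β p.2 - β p.1) / (p.2 - p.1)) (a, b) := by
      have c1 : ContinuousAt (fun p : ℂ × ℂ => β p.1) (a, b) :=
        ContinuousAt.comp (f := Prod.fst) (g := β) (x := ((a, b) : ℂ × ℂ)) hβa continuousAt_fst
      have c2 : ContinuousAt (fun p : ℂ × ℂ => β p.2) (a, b) :=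
        ContinuousAt.comp (f := Prod.snd) (g := β) (x := ((a, b) : ℂ × ℂ)) hβb continuousAt_snd
      exact (c2.sub c1).div (continuousAt_snd.sub continuousAt_fst) (sub_ne_zero.mpr (Ne.symm hab))
    apply h1.congr
    filter_upwards [hne] with p hp
    rw [dslope_of_ne _ (Ne.symm hp), slope_def_field]

theorem goluzin (h : Ext β) {H : ℂ → ℂ} (hH : ContinuousOn H (ball 0 1)) (hH0 : H 0 = 0)
    (hexp : ∀ ζ ∈ ball (0:ℂ) 1, Complex.exp (H ζ) = 1 - ζ ^ 2 * deriv β ζ) {a : ℂ}
    (ha : a ∈ ball (0:ℂ) 1) : ‖H a‖ ≤ - Real.log (1 - ‖a‖ ^ 2) := by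
  set U : Set (ℂ × ℂ) := ball 0 1 ×ˢ ball 0 1 with hU
  have hUo : IsOpen U := isOpen_ball.prod isOpen_ball
  have hUconv : Convex ℝ U := (convex_ball _ _).prod (convex_ball _ _)
  have h00 : ((0:ℂ), (0:ℂ)) ∈ U := ⟨mem_ball_self one_pos, mem_ball_self one_pos⟩
  have hUs : IsSimplyConnected U := by
    have hc : ContractibleSpace U := hUconv.contractibleSpace ⟨_, h00⟩
    show SimplyConnectedSpace U
    infer_instance
  have hqc : ContinuousOn (fun p : ℂ × ℂ => qq β p.1 p.2) U := by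
    unfold qq
    apply ContinuousOn.sub continuousOn_const
    apply ContinuousOn.mul (by fun_prop)
    exact dslope_cont h.diff
  have hq0 : 0 ∉ (fun p : ℂ × ℂ => qq β p.1 p.2) '' U := by
    rintro ⟨p, ⟨hp1, hp2⟩, hp⟩
    exact qq_ne h hp1 hp2 hp
  obtain ⟨Φ, hΦc, hΦ⟩ := Complex.exists_continuousOn_eqOn_exp_comp hUs hUo hqc hq0
  have hΦe : ∀ b ∈ ball (0:ℂ) 1, ∀ ζ ∈ ball (0:ℂ) 1, Complex.exp (Φ (b, ζ)) = qq β b ζ :=
    fun b hb ζ hζ => hΦ (show (b, ζ) ∈ U from ⟨hb, hζ⟩)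
  have h0b : (0:ℂ) ∈ ball (0:ℂ) 1 := mem_ball_self one_pos
  -- the diagonal
  have hTc : ContinuousOn (fun b : ℂ => Φ (b, b) - Φ (b, 0)) (ball 0 1) := by
    apply ContinuousOn.sub
    · exact hΦc.comp (by fun_prop) (fun b hb => ⟨hb, hb⟩)
    · exact hΦc.comp (by fun_prop) (fun b hb => ⟨hb, h0b⟩)
  have hTe : ∀ b ∈ ball (0:ℂ) 1, Complex.exp (Φ (b, b) - Φ (b, 0)) = 1 - b ^ 2 * deriv β b := by
    intro b hb
    rw [Complex.exp_sub, hΦe b hb b hb, hΦe b hb 0 h0b]
    simp only [qq, mul_zero, zero_mul, sub_zero, div_one, dslope_same]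
    ring
  have hTHc : ContinuousOn (fun b : ℂ => (Φ (b, b) - Φ (b, 0)) - H b) (ball 0 1) := hTc.sub hH
  have hTH : ∀ b ∈ ball (0:ℂ) 1, (Φ (b, b) - Φ (b, 0)) - H b = 0 := by
    apply eq_zero_of_exp_one (convex_ball (0:ℂ) 1).isPreconnected hTHc _ h0b
    · simp [hH0]
    · intro b hb
      rw [Complex.exp_sub, hTe b hb, hexp b hb, div_self]
      exact h.ne b hb
  -- the logarithm for fixed `a`
  have hqd := qq_diff h.diff ha
  have hQd : DifferentiableOn ℂ (fun ζ => deriv (qq β a) ζ / qq β a ζ) (ball 0 1) :=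
    (hqd.deriv isOpen_ball).div hqd (fun ζ hζ => qq_ne h ha hζ)
  obtain ⟨F, hF0, hF⟩ := hQd.isExactOn_ball.with_val_at 0 0
  have hFe : ∀ ζ ∈ ball (0:ℂ) 1, Complex.exp (F ζ) = qq β a ζ := by
    -- `exp F / q` has zero derivative
    have hderiv : ∀ ζ ∈ ball (0:ℂ) 1, HasDerivAt (fun ζ => Complex.exp (-F ζ) * qq β a ζ) 0 ζ := by
      intro ζ hζ
      have h1 := ((hF ζ hζ).neg.cexp).mul ((hqd.differentiableAt (isOpen_ball.mem_nhds hζ)).hasDerivAt)
      have h2 := qq_ne h ha hζ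
      have e : (0:ℂ) = Complex.exp (-F ζ) * -(deriv (qq β a) ζ / qq β a ζ) * qq β a ζ +
          Complex.exp (-F ζ) * deriv (qq β a) ζ := by
        field_simp
        ring
      rw [e]
      exact h1
    intro ζ hζ
    have h1 : Complex.exp (-F ζ) * qq β a ζ = Complex.exp (-F 0) * qq β a 0 := by
      apply (convex_ball (0:ℂ) 1).is_const_of_fderivWithin_eq_zero (𝕜 := ℂ)
        (f := fun ζ => Complex.exp (-F ζ) * qq β a ζ) _ _ hζ h0b
      · intro ω hω
        exact (hderiv ω hω).differentiableAt.differentiableWithinAt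
      · intro ω hω
        have h3 := (hderiv ω hω).hasFDerivAt.hasFDerivWithinAt (s := ball (0:ℂ) 1)
        rw [h3.fderivWithin (isOpen_ball.uniqueDiffWithinAt hω)]
        ext
        simp
    rw [hF0, neg_zero, Complex.exp_zero, one_mul] at h1
    have h2 : qq β a 0 = 1 := by simp [qq]
    rw [h2, Complex.exp_neg] at h1
    have h3 := Complex.exp_ne_zero (F ζ)
    field_simp at h1
    exact h1.symm
  have hFc : ContinuousOn F (ball 0 1) := fun ζ hζ => (hF ζ hζ).continuousAt.continuousWithinAt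
  have hFΦ : ∀ ζ ∈ ball (0:ℂ) 1, (Φ (a, ζ) - Φ (a, 0)) - F ζ = 0 := by
    apply eq_zero_of_exp_one (convex_ball (0:ℂ) 1).isPreconnected _ _ h0b
    · simp [hF0]
    · apply ContinuousOn.sub _ hFc
      apply ContinuousOn.sub _ continuousOn_const
      exact hΦc.comp (by fun_prop) (fun ζ hζ => ⟨ha, hζ⟩)
    · intro ζ hζ
      rw [Complex.exp_sub, Complex.exp_sub, hΦe a ha ζ hζ, hΦe a ha 0 h0b, hFe ζ hζ]
      have h2 : qq β a 0 = 1 := by simp [qq]
      rw [h2, div_one, div_self (qq_ne h ha hζ)]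
  have h1 := hTH a ha
  have h2 := hFΦ a ha
  have h3 : H a = F a := by linear_combination h2 - h1
  rw [h3]
  exact log_bound h ha hF hF0 hFe

end Pool.Agent.Helper39.Area

end

section

namespace Pool.Agent.Helper39.Area
end Pool.Agent.Helper39.Area

/-!
The area inequality for polynomials in terms of Taylor coefficients.
-/

set_option autoImplicit false

open MeasureTheory Set Metric Filter Topology

open scoped ENNReal NNReal Real Nat ComplexConjugate

namespace Pool.Agent.Helper22.Marshall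

open Pool.Agent.Helper39.Area (Ext phi dphi area_ineq hasDerivAt_phi)

/-- the (generalised) area inequality with constant `k`, in the coordinate `ζ = 1/z` -/
def GLe (β : ℂ → ℂ) (k : ℝ) : Prop :=
  ∀ (i : ℕ) (P : Polynomial ℂ) (v : ℕ → ℂ), P.natDegree ≤ i →
    (∀ ζ : ℂ, ζ ≠ 0 → ‖ζ‖ < 1 → HasSum (fun m => v m * ζ ^ m) (ζ ^ i * P.eval (phi β ζ))) →
    ∀ M : ℕ, ∑ m ∈ Finset.range M, ((m - i : ℕ) : ℝ) * ‖v m‖ ^ 2
      ≤ k ^ 2 * ∑ m ∈ Finset.range i, ((i - m : ℕ) : ℝ) * ‖v m‖ ^ 2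

/-- power series with given values on the punctured disc -/
theorem exists_g {v : ℕ → ℂ} {f : ℂ → ℂ}
    (h : ∀ ζ : ℂ, ζ ≠ 0 → ‖ζ‖ < 1 → HasSum (fun m => v m * ζ ^ m) (f ζ)) :
    ∃ g : ℂ → ℂ, DifferentiableOn ℂ g (ball 0 1) ∧ (∀ m, coeff g m = v m) ∧
      ∀ ζ : ℂ, ζ ≠ 0 → ‖ζ‖ < 1 → g ζ = f ζ := by
  have hs : ∀ ζ : ℂ, ‖ζ‖ < 1 → Summable (fun m => v m * ζ ^ m) := by
    intro ζ hζ
    by_cases h0 : ζ = 0
    · subst h0
      apply summable_of_ne_finset_zero (s := {0})
      intro m hm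
      rw [Finset.mem_singleton] at hm
      rw [zero_pow hm, mul_zero]
    · exact (h ζ h0 hζ).summable
  refine ⟨fun ζ => ∑' m, v m * ζ ^ m, ?_, ?_, ?_⟩
  · intro w hw
    rw [mem_ball_zero_iff] at hw
    obtain ⟨r, hr1, hr2⟩ := exists_between hw
    have hr : 0 < r := (norm_nonneg w).trans_lt hr1
    have hsum : Summable fun m => ‖v m‖ * r ^ m := by
      have := (hs (r : ℂ) (by rw [Complex.norm_real, Real.norm_of_nonneg hr.le]; exact hr2)).norm
      simpa [norm_mul, norm_pow, Complex.norm_real, abs_of_pos hr] using this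
    have hd := Complex.differentiableOn_tsum_of_summable_norm (F := fun m z => v m * z ^ m) hsum
      (U := ball (0 : ℂ) r) (fun l => by fun_prop) isOpen_ball
      (fun l z hz => by
        rw [mem_ball_zero_iff] at hz
        rw [norm_mul, norm_pow]
        gcongr)
    exact (hd.differentiableAt (isOpen_ball.mem_nhds (mem_ball_zero_iff.mpr hr1))).differentiableWithinAt
  · intro m
    exact coeff_eq_of_hasSum one_pos (fun z hz => (hs z hz).hasSum) m
  · intro ζ h0 hζ
    exact (h ζ h0 hζ).tsum_eq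

theorem real_part_id (g q : ℂ) : (conj g * q).re = (‖g + q‖ ^ 2 - ‖g - q‖ ^ 2) / 4 := by
  rw [← Complex.normSq_eq_norm_sq, ← Complex.normSq_eq_norm_sq]
  simp only [Complex.normSq_apply, Complex.mul_re, Complex.conj_re, Complex.conj_im,
    Complex.add_re, Complex.add_im, Complex.sub_re, Complex.sub_im]
  ring

/-- Parseval for `conj g (ζ g' - i g)` -/
theorem parseval_J {g : ℂ → ℂ} (hg : DifferentiableOn ℂ g (ball 0 1)) (i : ℕ) {r : ℝ}
    (hr : 0 ≤ r) (hr1 : r < 1) :
    HasSum (fun n : ℕ => ((n : ℝ) - i) * ‖coeff g n‖ ^ 2 * r ^ (2 * n))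
      ((1 / (2 * π)) * ∫ θ in (-π)..π,
        (conj (g ((r : ℂ) * Complex.exp ((θ : ℂ) * Complex.I))) *
          (((r : ℂ) * Complex.exp ((θ : ℂ) * Complex.I)) *
            deriv g ((r : ℂ) * Complex.exp ((θ : ℂ) * Complex.I))
            - i * g ((r : ℂ) * Complex.exp ((θ : ℂ) * Complex.I)))).re) := by
  have h1 := parseval_comb hg 1 (1 - i) hr hr1
  have h2 := parseval_comb hg (-1) (1 + i) hr hr1
  have h3 := (h1.sub h2).mul_left (1 / 4)
  have e1 : (fun n : ℕ => 1 / 4 * (‖(1 * (n : ℂ) + (1 - i)) * coeff g n‖ ^ 2 * r ^ (2 * n)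
      - ‖((-1) * (n : ℂ) + (1 + i)) * coeff g n‖ ^ 2 * r ^ (2 * n)))
      = fun n : ℕ => ((n : ℝ) - i) * ‖coeff g n‖ ^ 2 * r ^ (2 * n) := by
    funext n
    have e3 : (1 * (n : ℂ) + (1 - i)) = (((n : ℝ) + (1 - i) : ℝ) : ℂ) := by push_cast; ring
    have e4 : ((-1) * (n : ℂ) + (1 + i)) = (((-1) * (n : ℝ) + (1 + i) : ℝ) : ℂ) := by push_cast; ring
    rw [e3, e4, norm_mul, norm_mul, Complex.norm_real, Complex.norm_real, mul_pow, mul_pow,
      Real.norm_eq_abs, Real.norm_eq_abs, sq_abs, sq_abs]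
    ring
  have hc : ∀ α β : ℂ, Continuous (fun θ : ℝ => ‖α * (((r : ℂ) * Complex.exp ((θ : ℂ) * Complex.I)) *
          deriv g ((r : ℂ) * Complex.exp ((θ : ℂ) * Complex.I)))
          + β * g ((r : ℂ) * Complex.exp ((θ : ℂ) * Complex.I))‖ ^ 2) := by
    intro α β
    have hcirc : Continuous (fun θ : ℝ => (r : ℂ) * Complex.exp ((θ : ℂ) * Complex.I)) := by fun_prop
    have hmem : ∀ θ : ℝ, (r : ℂ) * Complex.exp ((θ : ℂ) * Complex.I) ∈ ball (0 : ℂ) 1 := by
      intro θ
      rw [mem_ball_zero_iff, norm_mul, Complex.norm_exp_ofReal_mul_I, mul_one, Complex.norm_real,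
        Real.norm_of_nonneg hr]
      exact hr1
    have c1 : Continuous (fun θ : ℝ => g ((r : ℂ) * Complex.exp ((θ : ℂ) * Complex.I))) :=
      hg.continuousOn.comp_continuous hcirc hmem
    have c2 : Continuous (fun θ : ℝ => deriv g ((r : ℂ) * Complex.exp ((θ : ℂ) * Complex.I))) :=
      (hg.deriv isOpen_ball).continuousOn.comp_continuous hcirc hmem
    exact ((continuous_const.mul (hcirc.mul c2)).add (continuous_const.mul c1)).norm.pow 2
  have e2 : 1 / 4 * (1 / (2 * π) * (∫ θ in (-π)..π,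
        ‖1 * (((r : ℂ) * Complex.exp ((θ : ℂ) * Complex.I)) *
          deriv g ((r : ℂ) * Complex.exp ((θ : ℂ) * Complex.I)))
          + (1 - i) * g ((r : ℂ) * Complex.exp ((θ : ℂ) * Complex.I))‖ ^ 2)
      - 1 / (2 * π) * ∫ θ in (-π)..π,
        ‖(-1) * (((r : ℂ) * Complex.exp ((θ : ℂ) * Complex.I)) *
          deriv g ((r : ℂ) * Complex.exp ((θ : ℂ) * Complex.I)))
          + (1 + i) * g ((r : ℂ) * Complex.exp ((θ : ℂ) * Complex.I))‖ ^ 2)
      = (1 / (2 * π)) * ∫ θ in (-π)..π,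
        (conj (g ((r : ℂ) * Complex.exp ((θ : ℂ) * Complex.I))) *
          (((r : ℂ) * Complex.exp ((θ : ℂ) * Complex.I)) *
            deriv g ((r : ℂ) * Complex.exp ((θ : ℂ) * Complex.I))
            - i * g ((r : ℂ) * Complex.exp ((θ : ℂ) * Complex.I)))).re := by
    rw [← mul_sub, ← intervalIntegral.integral_sub ((hc 1 (1 - i)).intervalIntegrable _ _)
      ((hc (-1) (1 + i)).intervalIntegrable _ _), mul_left_comm,
      ← intervalIntegral.integral_const_mul]
    congr 2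
    funext θ
    rw [real_part_id]
    generalize g ((r : ℂ) * Complex.exp ((θ : ℂ) * Complex.I)) = G
    generalize ((r : ℂ) * Complex.exp ((θ : ℂ) * Complex.I)) *
          deriv g ((r : ℂ) * Complex.exp ((θ : ℂ) * Complex.I)) = Q
    have e5 : 1 * Q + (1 - (i : ℂ)) * G = G + (Q - i * G) := by ring
    have e6 : (-1) * Q + (1 + (i : ℂ)) * G = G - (Q - i * G) := by ring
    rw [e5, e6]
    ring
  rw [e1, e2] at h3
  exact h3

/-- the area inequality holds with constant one -/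
theorem gLe_one {β : ℂ → ℂ} (h : Ext β) : GLe β 1 := by
  intro i P v hP hv M
  obtain ⟨g, hg, hgv, hgf⟩ := exists_g hv
  -- the inequality for each radius
  have key : ∀ r : ℝ, 0 < r → r < 1 → ∑' n : ℕ, ((n : ℝ) - i) * ‖v n‖ ^ 2 * r ^ (2 * n) ≤ 0 ∧
      Summable (fun n : ℕ => ((n : ℝ) - i) * ‖v n‖ ^ 2 * r ^ (2 * n)) := by
    intro r hr hr1
    have h1 := parseval_J hg i hr.le hr1
    simp_rw [hgv] at h1
    refine ⟨?_, h1.summable⟩
    rw [h1.tsum_eq]
    obtain ⟨c, hc, hc2⟩ := area_ineq h hr hr1 P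
    have h2 : (∮ ζ in C(0, r), conj (P.eval (phi β ζ)) *
        ((Polynomial.derivative P).eval (phi β ζ) * dphi β ζ))
        = (Complex.I * ((r : ℂ) ^ (2 * i))⁻¹) * ∫ θ in (0:ℝ)..(2 * π),
          (conj (g ((r : ℂ) * Complex.exp ((θ : ℂ) * Complex.I))) *
          (((r : ℂ) * Complex.exp ((θ : ℂ) * Complex.I)) *
            deriv g ((r : ℂ) * Complex.exp ((θ : ℂ) * Complex.I))
            - i * g ((r : ℂ) * Complex.exp ((θ : ℂ) * Complex.I)))) := by
      rw [circleIntegral, ← intervalIntegral.integral_const_mul]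
      congr 1
      funext θ
      have e0 : circleMap 0 r θ = (r : ℂ) * Complex.exp ((θ : ℂ) * Complex.I) := by
        rw [circleMap, zero_add]
      rw [deriv_circleMap, e0]
      set ζ : ℂ := (r : ℂ) * Complex.exp ((θ : ℂ) * Complex.I) with hζ
      have hζn : ‖ζ‖ = r := by
        rw [hζ, norm_mul, Complex.norm_exp_ofReal_mul_I, mul_one, Complex.norm_real,
          Real.norm_of_nonneg hr.le]
      have hζ0 : ζ ≠ 0 := by
        rw [← norm_pos_iff, hζn]; exact hr
      have hζb : ζ ∈ ball (0 : ℂ) 1 := by rw [mem_ball_zero_iff, hζn]; exact hr1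
      have hgd : HasDerivAt g (deriv g ζ) ζ :=
        (hg.differentiableAt (isOpen_ball.mem_nhds hζb)).hasDerivAt
      have hPd : HasDerivAt (fun ζ => ζ ^ i * P.eval (phi β ζ))
          (i * ζ ^ (i - 1) * P.eval (phi β ζ) + ζ ^ i * ((Polynomial.derivative P).eval (phi β ζ)
            * dphi β ζ)) ζ := by
        have d1 := hasDerivAt_pow i ζ
        have d2 := (Polynomial.hasDerivAt P (phi β ζ)).comp ζ (hasDerivAt_phi h.diff hζb hζ0)
        exact d1.mul d2
      have hgP : g =ᶠ[𝓝 ζ] fun ζ => ζ ^ i * P.eval (phi β ζ) := by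
        have hmem : ball (0 : ℂ) 1 \ {0} ∈ 𝓝 ζ := by
          apply IsOpen.mem_nhds (isOpen_ball.sdiff isClosed_singleton)
          exact ⟨hζb, hζ0⟩
        filter_upwards [hmem] with w hw
        exact hgf w hw.2 (mem_ball_zero_iff.mp hw.1)
      have e1 : deriv g ζ = i * ζ ^ (i - 1) * P.eval (phi β ζ)
          + ζ ^ i * ((Polynomial.derivative P).eval (phi β ζ) * dphi β ζ) := by
        rw [hgP.deriv_eq, hPd.deriv]
      have e2 : g ζ = ζ ^ i * P.eval (phi β ζ) := hgf ζ hζ0 (by rw [hζn]; exact hr1)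
      have e3 : ζ * deriv g ζ - i * g ζ
          = ζ ^ i * (ζ * ((Polynomial.derivative P).eval (phi β ζ) * dphi β ζ)) := by
        rw [e1, e2]
        cases i with
        | zero => simp
        | succ i =>
          simp only [Nat.add_sub_cancel]
          ring
      rw [e3, e2]
      have e4 : conj ζ * ζ = (r : ℂ) ^ 2 := by
        rw [← hζn, Complex.conj_mul']
      have e5 : conj (ζ ^ i) * ζ ^ i = (r : ℂ) ^ (2 * i) := by
        rw [map_pow, ← mul_pow, e4, ← pow_mul]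
      have hr0 : (r : ℂ) ^ (2 * i) ≠ 0 := pow_ne_zero _ (by exact_mod_cast hr.ne')
      rw [map_mul, smul_eq_mul]
      calc ζ * Complex.I * (conj (Polynomial.eval (phi β ζ) P) *
          (Polynomial.eval (phi β ζ) (Polynomial.derivative P) * dphi β ζ))
          = (Complex.I * ((r : ℂ) ^ (2 * i))⁻¹) * ((r : ℂ) ^ (2 * i) *
            (conj (Polynomial.eval (phi β ζ) P) *
            (ζ * (Polynomial.eval (phi β ζ) (Polynomial.derivative P) * dphi β ζ)))) := by
            (clear * - hr0 hζ0; field_simp)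
        _ = _ := by rw [← e5]; ring
    rw [h2] at hc2
    have hr0 : (r : ℂ) ^ (2 * i) ≠ 0 := pow_ne_zero _ (by exact_mod_cast hr.ne')
    have h3 : (∫ θ in (0:ℝ)..(2 * π),
          (conj (g ((r : ℂ) * Complex.exp ((θ : ℂ) * Complex.I))) *
          (((r : ℂ) * Complex.exp ((θ : ℂ) * Complex.I)) *
            deriv g ((r : ℂ) * Complex.exp ((θ : ℂ) * Complex.I))
            - i * g ((r : ℂ) * Complex.exp ((θ : ℂ) * Complex.I))))) = ((-2 * c * r ^ (2 * i) : ℝ) : ℂ) := by
      have h4 : Complex.I * ((r : ℂ) ^ (2 * i))⁻¹ ≠ 0 := mul_ne_zero Complex.I_ne_zero (inv_ne_zero hr0)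
      apply mul_left_cancel₀ h4
      rw [hc2]
      push_cast
      (clear * - hr0; field_simp)
    -- shift of the interval
    set Fn : ℝ → ℂ := fun θ => (conj (g ((r : ℂ) * Complex.exp ((θ : ℂ) * Complex.I))) *
          (((r : ℂ) * Complex.exp ((θ : ℂ) * Complex.I)) *
            deriv g ((r : ℂ) * Complex.exp ((θ : ℂ) * Complex.I))
            - i * g ((r : ℂ) * Complex.exp ((θ : ℂ) * Complex.I)))) with hFn
    have hper : Function.Periodic Fn (2 * π) := by
      intro θ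
      have e : Complex.exp (((θ + 2 * π : ℝ) : ℂ) * Complex.I) = Complex.exp ((θ : ℂ) * Complex.I) := by
        push_cast
        rw [add_mul, Complex.exp_add, Complex.exp_two_pi_mul_I, mul_one]
      simp only [hFn, e]
    have h5 := hper.intervalIntegral_add_eq (-π) 0
    rw [show -π + 2 * π = π by ring, zero_add] at h5
    have hFc : Continuous Fn := by
      have hcirc : Continuous (fun θ : ℝ => (r : ℂ) * Complex.exp ((θ : ℂ) * Complex.I)) := by fun_prop
      have hmem : ∀ θ : ℝ, (r : ℂ) * Complex.exp ((θ : ℂ) * Complex.I) ∈ ball (0 : ℂ) 1 := by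
        intro θ
        rw [mem_ball_zero_iff, norm_mul, Complex.norm_exp_ofReal_mul_I, mul_one, Complex.norm_real,
          Real.norm_of_nonneg hr.le]
        exact hr1
      have c1 : Continuous (fun θ : ℝ => g ((r : ℂ) * Complex.exp ((θ : ℂ) * Complex.I))) :=
        hg.continuousOn.comp_continuous hcirc hmem
      have c2 : Continuous (fun θ : ℝ => deriv g ((r : ℂ) * Complex.exp ((θ : ℂ) * Complex.I))) :=
        (hg.deriv isOpen_ball).continuousOn.comp_continuous hcirc hmem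
      exact (Complex.continuous_conj.comp c1).mul ((hcirc.mul c2).sub (continuous_const.mul c1))
    have h6 : ∫ θ in (-π)..π, (Fn θ).re = (∫ θ in (-π)..π, Fn θ).re := by
      have := Complex.reCLM.intervalIntegral_comp_comm (hFc.intervalIntegrable (μ := volume) (-π) π)
      exact this
    rw [h6, h5, h3, Complex.ofReal_re]
    have hpi := Real.pi_pos
    have : 0 ≤ r ^ (2 * i) := by (clear * - hr; positivity)
    have h7 : 0 ≤ 1 / (2 * π) * (2 * c * r ^ (2 * i)) := by (clear * - hc hr; positivity)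
    linarith only [h7]
  -- partial sums
  have key2 : ∀ r : ℝ, 0 < r → r < 1 → (∑ m ∈ Finset.range M, ((m - i : ℕ) : ℝ) * ‖v m‖ ^ 2 * r ^ (2 * m))
      ≤ ∑ m ∈ Finset.range i, ((i - m : ℕ) : ℝ) * ‖v m‖ ^ 2 := by
    intro r hr hr1
    obtain ⟨h1, h2⟩ := key r hr hr1
    have h3 : (∑ n ∈ Finset.range i, ((n : ℝ) - i) * ‖v n‖ ^ 2 * r ^ (2 * n))
        + ∑' n : ℕ, (((n + i : ℕ) : ℝ) - i) * ‖v (n + i)‖ ^ 2 * r ^ (2 * (n + i)) ≤ 0 := by
      rw [h2.sum_add_tsum_nat_add i]
      exact h1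
    have h4 : (∑ m ∈ Finset.range M, ((m - i : ℕ) : ℝ) * ‖v m‖ ^ 2 * r ^ (2 * m))
        ≤ ∑ m ∈ Finset.range (i + M), ((m - i : ℕ) : ℝ) * ‖v m‖ ^ 2 * r ^ (2 * m) := by
      apply Finset.sum_le_sum_of_subset_of_nonneg
      · intro m hm
        rw [Finset.mem_range] at hm ⊢
        omega
      · intro m _ _
        (clear * - hr; positivity)
    have h5 : ∑ m ∈ Finset.range (i + M), ((m - i : ℕ) : ℝ) * ‖v m‖ ^ 2 * r ^ (2 * m)
        = ∑ m ∈ Finset.range M, (((m + i : ℕ) : ℝ) - i) * ‖v (m + i)‖ ^ 2 * r ^ (2 * (m + i)) := by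
      rw [Finset.sum_range_add]
      have : ∑ x ∈ Finset.range i, ((x - i : ℕ) : ℝ) * ‖v x‖ ^ 2 * r ^ (2 * x) = 0 := by
        apply Finset.sum_eq_zero
        intro x hx
        rw [Finset.mem_range] at hx
        have : x - i = 0 := by omega
        rw [this]
        simp
      rw [this, zero_add]
      apply Finset.sum_congr rfl
      intro x _
      have e : i + x - i = x := by omega
      rw [e, add_comm i x]
      push_cast
      ring
    have h6 : ∑ m ∈ Finset.range M, (((m + i : ℕ) : ℝ) - i) * ‖v (m + i)‖ ^ 2 * r ^ (2 * (m + i))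
        ≤ ∑' n : ℕ, (((n + i : ℕ) : ℝ) - i) * ‖v (n + i)‖ ^ 2 * r ^ (2 * (n + i)) := by
      apply Summable.sum_le_tsum
      · intro n _
        push_cast
        have : (n : ℝ) + i - i = n := by ring
        rw [this]
        (clear * - hr; positivity)
      · exact (summable_nat_add_iff i).mpr h2
    have h7 : ∑ m ∈ Finset.range i, ((i - m : ℕ) : ℝ) * ‖v m‖ ^ 2 * r ^ (2 * m)
        ≤ ∑ m ∈ Finset.range i, ((i - m : ℕ) : ℝ) * ‖v m‖ ^ 2 := by
      apply Finset.sum_le_sum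
      intro m _
      have : r ^ (2 * m) ≤ 1 := pow_le_one₀ hr.le hr1.le
      have h0 : 0 ≤ ((i - m : ℕ) : ℝ) * ‖v m‖ ^ 2 := by (clear * -; positivity)
      (clear * - this h0; nlinarith only [this, h0])
    have h8 : ∑ m ∈ Finset.range i, ((i - m : ℕ) : ℝ) * ‖v m‖ ^ 2 * r ^ (2 * m)
        = - ∑ n ∈ Finset.range i, ((n : ℝ) - i) * ‖v n‖ ^ 2 * r ^ (2 * n) := by
      rw [← Finset.sum_neg_distrib]
      apply Finset.sum_congr rfl
      intro m hm
      rw [Finset.mem_range] at hm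
      rw [Nat.cast_sub hm.le]
      ring
    linarith only [h3, h4, h5, h6, h7, h8]
  rw [one_pow, one_mul]
  -- limit r → 1
  have hcont : Continuous (fun r : ℝ => ∑ m ∈ Finset.range M, ((m - i : ℕ) : ℝ) * ‖v m‖ ^ 2 * r ^ (2 * m)) := by
    fun_prop
  have hlim : Tendsto (fun r : ℝ => ∑ m ∈ Finset.range M, ((m - i : ℕ) : ℝ) * ‖v m‖ ^ 2 * r ^ (2 * m))
      (𝓝[<] 1) (𝓝 (∑ m ∈ Finset.range M, ((m - i : ℕ) : ℝ) * ‖v m‖ ^ 2 * 1 ^ (2 * m))) :=
    (hcont.tendsto 1).mono_left nhdsWithin_le_nhds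
  simp only [one_pow, mul_one] at hlim
  apply le_of_tendsto hlim
  have hmem : Ioo (0 : ℝ) 1 ∈ 𝓝[<] (1 : ℝ) := Ioo_mem_nhdsLT one_pos
  filter_upwards [hmem] with r hr
  exact key2 r hr.1 hr.2

end Pool.Agent.Helper22.Marshall

end

section

namespace Pool.Agent.Helper22.Marshall
end Pool.Agent.Helper22.Marshall
namespace Pool.Agent.Helper39.Area
end Pool.Agent.Helper39.Area

set_option autoImplicit false

open MeasureTheory Set Metric Filter Topology

open scoped Real ComplexConjugate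

namespace Pool.Agent.Helper39.MH

open Pool.Agent.Helper22.Marshall (coeff GLe)

open Pool.Agent.Helper39.Area (Ext phi)

/-- the square of a point of the disc is in the disc -/
private theorem sq_mem {u : ℂ} (hu : u ∈ ball (0 : ℂ) 1) : u ^ 2 ∈ ball (0 : ℂ) 1 := by
  rw [mem_ball_zero_iff] at hu ⊢
  rw [norm_pow]
  (clear * - hu; nlinarith only [norm_nonneg u, hu])

/-- the data of the square root transform -/
private theorem sqrt_data {F : ℂ → ℂ} (hF : DifferentiableOn ℂ F (ball 0 1))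
    (hinj : InjOn F (ball 0 1)) (hF0 : F 0 = 0) (hF1 : deriv F 0 = 1) :
    ∃ (g k : ℂ → ℂ), DifferentiableOn ℂ g (ball 0 1) ∧ DifferentiableOn ℂ k (ball 0 1) ∧
      (∀ s, F s = s * g s) ∧ g 0 = 1 ∧ k 0 = 1 ∧ (∀ s ∈ ball (0 : ℂ) 1, k s * k s * g s = 1) ∧
      (∀ s ∈ ball (0 : ℂ) 1, k s ≠ 0) := by
  have h0b : (0:ℂ) ∈ ball (0:ℂ) 1 := mem_ball_self one_pos
  have hb0 : ball (0:ℂ) 1 ∈ 𝓝 (0:ℂ) := ball_mem_nhds 0 one_pos
  set g : ℂ → ℂ := dslope F 0 with hg
  have hgd : DifferentiableOn ℂ g (ball 0 1) := (Complex.differentiableOn_dslope hb0).mpr hF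
  have hg0 : g 0 = 1 := by rw [hg, dslope_same, hF1]
  have hgf : ∀ s : ℂ, F s = s * g s := by
    intro s
    by_cases h : s = 0
    · subst h; simp [hF0]
    · rw [hg, dslope_of_ne _ h, slope_def_field, hF0]
      field_simp
      ring
  have hgne : ∀ s ∈ ball (0:ℂ) 1, g s ≠ 0 := by
    intro s hs h
    by_cases h0 : s = 0
    · subst h0; rw [hg0] at h; exact one_ne_zero h
    · apply h0
      apply hinj hs h0b
      rw [hgf s, h, mul_zero, hF0]
  obtain ⟨L, hL, hL0, hLe⟩ := Pool.Agent.Helper24.Br.exists_log_ball hgd hgne hg0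
  refine ⟨g, fun s => Complex.exp (-(L s) / 2), hgd, ?_, hgf, hg0, ?_, ?_, ?_⟩
  · exact ((hL.neg).div_const 2).cexp
  · simp only [hL0, neg_zero, zero_div, Complex.exp_zero]
  · intro s hs
    rw [← hLe s hs, ← Complex.exp_add, ← Complex.exp_add]
    have : -L s / 2 + -L s / 2 + L s = 0 := by ring
    rw [this, Complex.exp_zero]
  · intro s _
    exact Complex.exp_ne_zero _

/-- the square root transform is in the class -/
private theorem sqrt_ext {F g k : ℂ → ℂ} (hF : DifferentiableOn ℂ F (ball 0 1))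
    (hinj : InjOn F (ball 0 1)) (hk : DifferentiableOn ℂ k (ball 0 1))
    (hgf : ∀ s, F s = s * g s) (hk0 : k 0 = 1)
    (hkg : ∀ s ∈ ball (0 : ℂ) 1, k s * k s * g s = 1) (hkne : ∀ s ∈ ball (0 : ℂ) 1, k s ≠ 0) :
    ∃ β : ℂ → ℂ, Ext β ∧ ∀ u ∈ ball (0 : ℂ) 1, u ≠ 0 → phi β u = k (u ^ 2) / u := by
  have h0b : (0:ℂ) ∈ ball (0:ℂ) 1 := mem_ball_self one_pos
  have hb0 : ball (0:ℂ) 1 ∈ 𝓝 (0:ℂ) := ball_mem_nhds 0 one_pos
  set k1 : ℂ → ℂ := dslope k 0 with hk1
  have hk1d : DifferentiableOn ℂ k1 (ball 0 1) := (Complex.differentiableOn_dslope hb0).mpr hk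
  have hk1e : ∀ s : ℂ, s ≠ 0 → k1 s = (k s - 1) / s := by
    intro s hs
    rw [hk1, dslope_of_ne _ hs, slope_def_field, hk0, sub_zero]
  set β : ℂ → ℂ := fun u => u * k1 (u ^ 2) with hβ
  have hsq : MapsTo (fun u : ℂ => u ^ 2) (ball (0:ℂ) 1) (ball (0:ℂ) 1) := fun u hu => sq_mem hu
  have hβd : DifferentiableOn ℂ β (ball 0 1) := by
    have h1 : DifferentiableOn ℂ (fun u : ℂ => k1 (u ^ 2)) (ball 0 1) :=
      hk1d.comp (by fun_prop) hsq
    exact differentiableOn_id.mul h1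
  have hphi : ∀ u : ℂ, u ≠ 0 → u⁻¹ + β u = k (u ^ 2) / u := by
    intro u hu
    have h2 : u ^ 2 ≠ 0 := pow_ne_zero _ hu
    simp only [hβ]
    rw [hk1e _ h2]
    field_simp
    ring
  -- the relation with F
  have hrel : ∀ u ∈ ball (0:ℂ) 1, u ≠ 0 → (u⁻¹ + β u) ^ 2 * F (u ^ 2) = 1 := by
    intro u hu h0
    rw [hphi u h0, hgf]
    have h3 := hkg _ (sq_mem hu)
    have : (k (u ^ 2) / u) ^ 2 * (u ^ 2 * g (u ^ 2)) = k (u ^ 2) * k (u ^ 2) * g (u ^ 2) := by
      field_simp
    rw [this, h3]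
  have hinj2 : ∀ u w : ℂ, u ∈ ball (0:ℂ) 1 → w ∈ ball (0:ℂ) 1 → u ≠ 0 → w ≠ 0 →
      u⁻¹ + β u = w⁻¹ + β w → u = w := by
    intro u w hu hw hu0 hw0 h
    have h1 := hrel u hu hu0
    have h2 := hrel w hw hw0
    rw [h] at h1
    have hne : (w⁻¹ + β w) ^ 2 ≠ 0 := by
      intro h3
      rw [h3, zero_mul] at h2
      exact zero_ne_one h2
    have h3 : F (u ^ 2) = F (w ^ 2) := mul_left_cancel₀ hne (h1.trans h2.symm)
    have h4 : u ^ 2 = w ^ 2 := hinj (sq_mem hu) (sq_mem hw) h3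
    rw [hphi u hu0, hphi w hw0, h4] at h
    have h5 := hkne _ (sq_mem hw)
    rw [div_eq_div_iff hu0 hw0] at h
    exact (mul_left_cancel₀ h5 h).symm
  refine ⟨β, ⟨hβd, hinj2, ?_⟩, fun u _ h0 => hphi u h0⟩
  intro u hu
  by_cases h0 : u = 0
  · subst h0; simp
  · intro hcon
    have hub : ball (0:ℂ) 1 ∈ 𝓝 u := isOpen_ball.mem_nhds hu
    have h1 : HasDerivAt (fun u : ℂ => u⁻¹ + β u) (-(u ^ 2)⁻¹ + deriv β u) u :=
      (hasDerivAt_inv h0).add ((hβd.differentiableAt hub).hasDerivAt)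
    have hz : -(u ^ 2)⁻¹ + deriv β u = 0 := by
      have h2 : u ^ 2 ≠ 0 := pow_ne_zero _ h0
      have h3 : deriv β u = 1 / u ^ 2 := by
        rw [eq_div_iff h2]
        linear_combination -hcon
      rw [h3]
      field_simp
      ring
    rw [hz] at h1
    have h2 : HasDerivAt (fun u : ℂ => F (u ^ 2)) (deriv F (u ^ 2) * (2 * u)) u := by
      have h3 : HasDerivAt F (deriv F (u ^ 2)) (u ^ 2) :=
        (hF.differentiableAt (isOpen_ball.mem_nhds (sq_mem hu))).hasDerivAt
      have h4 : HasDerivAt (fun u : ℂ => u ^ 2) (2 * u) u := by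
        simpa using hasDerivAt_pow 2 u
      exact h3.comp u h4
    have h3 := (h1.pow 2).mul h2
    have h4 : (fun u : ℂ => (u⁻¹ + β u) ^ 2 * F (u ^ 2)) =ᶠ[𝓝 u] fun _ => (1 : ℂ) := by
      filter_upwards [hub, isOpen_ne.mem_nhds h0] with w hw hw0
      exact hrel w hw hw0
    have h5 := (h3.congr_of_eventuallyEq h4.symm).unique (hasDerivAt_const u (1 : ℂ))
    have h6 : (u⁻¹ + β u) ^ 2 ≠ 0 := by
      intro h7
      have h8 := hrel u hu h0
      rw [h7, zero_mul] at h8
      exact zero_ne_one h8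
    have h7 : (u⁻¹ + β u) ^ 2 * (deriv F (u ^ 2) * (2 * u)) = 0 := by
      simpa using h5
    have h8 := Pool.Agent.Helper24.Br.deriv_ne_of_inj isOpen_ball hF hinj (sq_mem hu)
    rcases mul_eq_zero.mp h7 with h9 | h9
    · exact h6 h9
    · rcases mul_eq_zero.mp h9 with h10 | h10
      · exact h8 h10
      · exact h0 (by simpa using h10)

theorem sqrt_area {F : ℂ → ℂ} (hF : DifferentiableOn ℂ F (ball 0 1)) (hinj : InjOn F (ball 0 1))
    (hF0 : F 0 = 0) (hF1 : deriv F 0 = 1) {a2 a3 a4 : ℂ} (h2 : coeff F 2 = a2)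
    (h3 : coeff F 3 = a3) (h4 : coeff F 4 = a4) {B0 B1 B2 : ℂ} (hB0 : B0 = -a2)
    (hB1 : B1 = a2 ^ 2 - a3) (hB2 : B2 = -a4 + 2 * a2 * a3 - a2 ^ 3) :
    ‖B0 / 2‖ ^ 2 + 3 * ‖B1 / 2 - B0 ^ 2 / 8‖ ^ 2
      + 5 * ‖B2 / 2 - B0 * B1 / 4 + B0 ^ 3 / 16‖ ^ 2 ≤ 1 := by
  obtain ⟨g, k, hg, hk, hgf, hg0, hk0, hkg, hkne⟩ := sqrt_data hF hinj hF0 hF1
  obtain ⟨β, hE, hphi⟩ := sqrt_ext hF hinj hk hgf hk0 hkg hkne
  have hb0 : ball (0:ℂ) 1 ∈ 𝓝 (0:ℂ) := ball_mem_nhds 0 one_pos
  have hga : AnalyticAt ℂ g 0 := hg.analyticAt hb0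
  have hka : AnalyticAt ℂ k 0 := hk.analyticAt hb0
  -- the coefficients of g
  have hcg : ∀ n, coeff F (n + 1) = coeff g n := by
    intro n
    have e : F = fun z => z * g z := funext hgf
    have ha : AnalyticAt ℂ (fun z : ℂ => z) 0 := analyticAt_id
    rw [e, Pool.Agent.Helper22.Marshall.coeff_mul ha hga, Finset.sum_eq_single 1]
    · have : coeff (fun z : ℂ => z) 1 = 1 := by
        rw [Pool.Agent.Helper22.Marshall.coeff_one]
        simp
      rw [this, one_mul]
      rfl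
    · intro i _ hi
      have : coeff (fun z : ℂ => z) i = 0 := by
        rcases Nat.eq_zero_or_pos i with h | h
        · subst h
          rw [Pool.Agent.Helper22.Marshall.coeff_zero]
        · have h1 : coeff (fun z : ℂ => z) i = (if i = 1 then 1 else 0 : ℂ) := by
            apply Pool.Agent.Helper22.Marshall.coeff_eq_of_hasSum
              (a := fun i => if i = 1 then 1 else 0) one_pos
            intro z _
            have h2 : HasSum (fun n : ℕ => (if n = 1 then 1 else 0 : ℂ) * z ^ n)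
                ((if 1 = 1 then 1 else 0 : ℂ) * z ^ 1) := by
              apply hasSum_single
              intro b hb
              rw [if_neg hb, zero_mul]
            simpa using h2
          rw [h1, if_neg hi]
      rw [this, zero_mul]
    · intro h
      exact absurd (Finset.mem_range.mpr (by omega)) h
  have g0 : coeff g 0 = 1 := by rw [Pool.Agent.Helper22.Marshall.coeff_zero, hg0]
  have g1 : coeff g 1 = a2 := by rw [← hcg, h2]
  have g2 : coeff g 2 = a3 := by rw [← hcg, h3]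
  have g3 : coeff g 3 = a4 := by rw [← hcg, h4]
  have k0 : coeff k 0 = 1 := by rw [Pool.Agent.Helper22.Marshall.coeff_zero, hk0]
  -- the coefficients of the product
  have hprod : (fun z => k z * k z * g z) =ᶠ[𝓝 0] fun _ => (1 : ℂ) := by
    filter_upwards [hb0] with z hz
    exact hkg z hz
  have hone : ∀ n, 0 < n → coeff (fun _ : ℂ => (1 : ℂ)) n = 0 := by
    intro n hn
    have h1 : coeff (fun _ : ℂ => (1 : ℂ)) n = (if n = 0 then 1 else 0 : ℂ) := by
      apply Pool.Agent.Helper22.Marshall.coeff_eq_of_hasSum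
        (a := fun i => if i = 0 then 1 else 0) one_pos
      intro z _
      have h2 : HasSum (fun n : ℕ => (if n = 0 then 1 else 0 : ℂ) * z ^ n)
          ((if 0 = 0 then 1 else 0 : ℂ) * z ^ 0) := by
        apply hasSum_single
        intro b hb
        rw [if_neg hb, zero_mul]
      simpa using h2
    rw [h1, if_neg (by omega)]
  have hkk : ∀ n, coeff (fun z => k z * k z) n
      = ∑ i ∈ Finset.range (n + 1), coeff k i * coeff k (n - i) :=
    fun n => Pool.Agent.Helper22.Marshall.coeff_mul hka hka n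
  have hpr : ∀ n, 0 < n → ∑ i ∈ Finset.range (n + 1), coeff (fun z => k z * k z) i
      * coeff g (n - i) = 0 := by
    intro n hn
    have hka2 : AnalyticAt ℂ (fun z => k z * k z) 0 := hka.mul hka
    rw [← Pool.Agent.Helper22.Marshall.coeff_mul hka2 hga n,
      Pool.Agent.Helper22.Marshall.coeff_congr hprod, hone n hn]
  have q0 : coeff (fun z => k z * k z) 0 = 1 := by
    rw [hkk]; simp [k0]
  have q1 : coeff (fun z => k z * k z) 1 = 2 * coeff k 1 := by
    rw [hkk]; simp [Finset.sum_range_succ, k0]; ring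
  have q2 : coeff (fun z => k z * k z) 2 = 2 * coeff k 2 + coeff k 1 ^ 2 := by
    rw [hkk]; simp [Finset.sum_range_succ, k0]; ring
  have q3 : coeff (fun z => k z * k z) 3 = 2 * coeff k 3 + 2 * coeff k 1 * coeff k 2 := by
    rw [hkk]; simp [Finset.sum_range_succ, k0]; ring
  have r1 := hpr 1 (by norm_num)
  have r2 := hpr 2 (by norm_num)
  have r3 := hpr 3 (by norm_num)
  simp only [Finset.sum_range_succ, Finset.sum_range_zero, zero_add, Nat.sub_zero, Nat.sub_self,
    show (2 - 1 : ℕ) = 1 from rfl, show (3 - 1 : ℕ) = 2 from rfl,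
    q0, q1, q2, q3, g0, g1, g2, g3] at r1 r2 r3
  have c1 : coeff k 1 = B0 / 2 := by
    rw [hB0]; linear_combination r1 / 2
  have c2 : coeff k 2 = B1 / 2 - B0 ^ 2 / 8 := by
    rw [hB1, hB0]
    have c1' : coeff k 1 = -a2 / 2 := by rw [c1, hB0]
    rw [c1'] at r2
    linear_combination r2 / 2
  have c3 : coeff k 3 = B2 / 2 - B0 * B1 / 4 + B0 ^ 3 / 16 := by
    rw [hB2, hB1, hB0]
    have c1' : coeff k 1 = -a2 / 2 := by rw [c1, hB0]
    have c2' : coeff k 2 = (a2 ^ 2 - a3) / 2 - a2 ^ 2 / 8 := by rw [c2, hB1, hB0]; ring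
    rw [c1', c2'] at r3
    linear_combination r3 / 2
  -- the area inequality
  have hv : ∀ ζ : ℂ, ζ ≠ 0 → ‖ζ‖ < 1 →
      HasSum (fun m => (if Even m then coeff k (m / 2) else 0) * ζ ^ m)
        (ζ ^ 1 * (Polynomial.X : Polynomial ℂ).eval (phi β ζ)) := by
    intro ζ h0 hζ
    have hζb : ζ ∈ ball (0:ℂ) 1 := mem_ball_zero_iff.mpr hζ
    have e1 : ζ ^ 1 * (Polynomial.X : Polynomial ℂ).eval (phi β ζ) = k (ζ ^ 2) := by
      rw [Polynomial.eval_X, hphi ζ hζb h0]
      field_simp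
    rw [e1]
    have h5 := Pool.Agent.Helper22.Marshall.hasSum_coeff hk
      (z := ζ ^ 2) (by simpa using sq_mem hζb)
    have hi : Function.Injective (fun j : ℕ => 2 * j) := by
      intro a b hab
      have : 2 * a = 2 * b := hab
      omega
    rw [← hi.hasSum_iff]
    · refine h5.congr_fun ?_
      intro j
      simp only [Function.comp]
      rw [if_pos (even_two_mul j), Nat.mul_div_cancel_left _ two_pos, pow_mul]
    · intro m hm
      rw [if_neg, zero_mul]
      intro hev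
      apply hm
      obtain ⟨r, hr⟩ := hev
      exact ⟨r, by simp only; omega⟩
  have hA := Pool.Agent.Helper22.Marshall.gLe_one hE 1 Polynomial.X _
    (by rw [Polynomial.natDegree_X]) hv 7
  simp only [Finset.sum_range_succ, Finset.sum_range_zero, zero_add] at hA
  have e0 : (Even 0) := ⟨0, rfl⟩
  have e2 : (Even 2) := ⟨1, rfl⟩
  have e4 : (Even 4) := ⟨2, rfl⟩
  have e6 : (Even 6) := ⟨3, rfl⟩
  have o1 : ¬ (Even 1) := by decide
  have o3 : ¬ (Even 3) := by decide
  have o5 : ¬ (Even 5) := by decide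
  simp only [if_pos e0, if_pos e2, if_pos e4, if_pos e6, if_neg o1, if_neg o3, if_neg o5] at hA
  norm_num at hA
  rw [k0, c1, c2, c3] at hA
  simpa using hA

end Pool.Agent.Helper39.MH

end

section

namespace Pool.Agent.Helper22.Marshall
end Pool.Agent.Helper22.Marshall

set_option autoImplicit false

open Complex Metric Set Filter Topology

/-! The one quarter theorem of Koebe for functions without zeros. -/

namespace Pool.Agent.Helper84.EK

open Pool.Agent.Helper22.Marshall (coeff coeff_zero coeff_one coeff_mul coeff_congr)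

/-- the second coefficient of a univalent function is at most 2 -/
theorem second_le_two {f : ℂ → ℂ} (hf : DifferentiableOn ℂ f (ball 0 1))
    (hinj : InjOn f (ball 0 1)) (h0 : f 0 = 0) (h1 : deriv f 0 = 1) : ‖coeff f 2‖ ≤ 2 := by
  have h := Pool.Agent.Helper39.MH.sqrt_area hf hinj h0 h1 (a2 := coeff f 2) (a3 := coeff f 3)
    (a4 := coeff f 4) rfl rfl rfl (B0 := -coeff f 2) (B1 := coeff f 2 ^ 2 - coeff f 3)
    (B2 := -coeff f 4 + 2 * coeff f 2 * coeff f 3 - coeff f 2 ^ 3) rfl rfl rfl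
  have h2 : ‖-coeff f 2 / 2‖ ^ 2 ≤ 1 := by
    refine le_trans ?_ h
    rw [add_assoc]
    exact le_add_of_nonneg_right (by (clear * -; positivity))
  rw [norm_div, norm_neg] at h2
  have h3 : ‖(2:ℂ)‖ = 2 := by simp
  rw [h3] at h2
  have h4 := norm_nonneg (coeff f 2)
  nlinarith only [h2]

/-- **Koebe**: `‖g' 0‖ ≤ 4 ‖g 0‖` for `g` univalent without zeros in the unit disc -/
theorem koebe {g : ℂ → ℂ} (hg : DifferentiableOn ℂ g (ball 0 1)) (hinj : InjOn g (ball 0 1))
    (hne : ∀ z ∈ ball (0:ℂ) 1, g z ≠ 0) : ‖deriv g 0‖ ≤ 4 * ‖g 0‖ := by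
  have h0b : (0:ℂ) ∈ ball (0:ℂ) 1 := mem_ball_self one_pos
  have hb0 : ball (0:ℂ) 1 ∈ 𝓝 (0:ℂ) := ball_mem_nhds 0 one_pos
  have hd : deriv g 0 ≠ 0 := Pool.Agent.Helper24.Br.deriv_ne_of_inj isOpen_ball hg hinj h0b
  have hg0 : g 0 ≠ 0 := hne 0 h0b
  have hgd : HasDerivAt g (deriv g 0) 0 := (hg.differentiableAt hb0).hasDerivAt
  set d := deriv g 0 with hdd
  set c := g 0 with hc
  set f : ℂ → ℂ := fun z => (g z - c) / d with hf
  set f2 : ℂ → ℂ := fun z => c / d * (1 - c / g z) with hf2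
  set k : ℂ → ℂ := fun z => g z / c with hk
  have hfd : DifferentiableOn ℂ f (ball 0 1) := (hg.sub_const c).div_const d
  have hf2d : DifferentiableOn ℂ f2 (ball 0 1) := by
    apply DifferentiableOn.const_mul
    apply DifferentiableOn.const_sub
    exact (differentiableOn_const c).div hg hne
  have hkd : DifferentiableOn ℂ k (ball 0 1) := hg.div_const c
  have hfi : InjOn f (ball 0 1) := by
    intro z hz w hw h
    apply hinj hz hw
    simp only [hf] at h
    rw [div_left_inj' hd] at h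
    linear_combination h
  have hf2i : InjOn f2 (ball 0 1) := by
    intro z hz w hw h
    apply hinj hz hw
    simp only [hf2] at h
    have h1 := mul_left_cancel₀ (div_ne_zero hg0 hd) h
    have h2 : c / g z = c / g w := by linear_combination -h1
    rw [div_eq_div_iff (hne z hz) (hne w hw)] at h2
    exact (mul_left_cancel₀ hg0 h2).symm
  have hf0 : f 0 = 0 := by simp [hf, hc]
  have hf20 : f2 0 = 0 := by
    simp only [hf2]
    rw [← hc, div_self hg0, sub_self, mul_zero]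
  have hf1 : deriv f 0 = 1 := by
    have h1 : HasDerivAt f (d / d) 0 := (hgd.sub_const c).div_const d
    rw [h1.deriv, div_self hd]
  have hf21 : deriv f2 0 = 1 := by
    have h1 : HasDerivAt f2 (c / d * -((0 * g 0 - c * d) / g 0 ^ 2)) 0 :=
      (((hasDerivAt_const (0:ℂ) c).div hgd hg0).const_sub 1).const_mul (c / d)
    rw [h1.deriv, ← hc]
    field_simp
    ring
  have e1 := second_le_two hfd hfi hf0 hf1
  have e2 := second_le_two hf2d hf2i hf20 hf21
  have hprod : f =ᶠ[𝓝 0] fun z => f2 z * k z := by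
    filter_upwards [hb0] with z hz
    have h1 := hne z hz
    simp only [hf, hf2, hk]
    field_simp
  have e3 : coeff f 2 = coeff f2 2 + d / c := by
    rw [coeff_congr hprod, coeff_mul (hf2d.analyticAt hb0) (hkd.analyticAt hb0)]
    simp only [Finset.sum_range_succ, Finset.sum_range_zero, zero_add, Nat.sub_zero, Nat.sub_self,
      show (2 - 1 : ℕ) = 1 from rfl]
    have k0 : coeff k 0 = 1 := by
      rw [coeff_zero]
      simp only [hk]
      exact div_self hg0
    have k1 : coeff k 1 = d / c := by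
      rw [coeff_one]
      exact (hgd.div_const c).deriv
    rw [k0, k1, coeff_zero, hf20, coeff_one, hf21]
    ring
  have e4 : ‖d / c‖ ≤ 4 := by
    have h1 : d / c = coeff f 2 - coeff f2 2 := by rw [e3]; ring
    rw [h1]
    exact (norm_sub_le _ _).trans (by (clear * - e1 e2; linarith only [e1, e2]))
  rw [norm_div, div_le_iff₀ (norm_pos_iff.mpr hg0)] at e4
  exact e4

/-- Koebe in a disc of radius `r` -/
theorem koebe_r {g : ℂ → ℂ} {r : ℝ} (hr : 0 < r) (hg : DifferentiableOn ℂ g (ball 0 r))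
    (hinj : InjOn g (ball 0 r)) (hne : ∀ z ∈ ball (0:ℂ) r, g z ≠ 0) :
    ‖deriv g 0‖ * r ≤ 4 * ‖g 0‖ := by
  have hm : MapsTo (fun z : ℂ => (r : ℂ) * z) (ball 0 1) (ball 0 r) := by
    intro z hz
    rw [mem_ball_zero_iff] at hz ⊢
    rw [norm_mul, Complex.norm_real, Real.norm_of_nonneg hr.le]
    (clear * - hr hz; nlinarith only [hr, hz])
  have hr0 : (r : ℂ) ≠ 0 := by exact_mod_cast hr.ne'
  have h1 := koebe (g := fun z => g ((r : ℂ) * z)) (hg.comp (by fun_prop) hm)
    (by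
      intro z hz w hw h
      exact mul_left_cancel₀ hr0 (hinj (hm hz) (hm hw) h))
    (fun z hz => hne _ (hm hz))
  have h0r : (0:ℂ) ∈ ball (0:ℂ) r := mem_ball_self hr
  have h2 : HasDerivAt g (deriv g 0) ((r:ℂ) * 0) := by
    rw [mul_zero]
    exact (hg.differentiableAt (isOpen_ball.mem_nhds h0r)).hasDerivAt
  have h3 : HasDerivAt (fun z : ℂ => (r : ℂ) * z) (r : ℂ) 0 := by
    simpa using (hasDerivAt_id (0:ℂ)).const_mul (r : ℂ)
  have h4 : deriv (fun z => g ((r : ℂ) * z)) 0 = deriv g 0 * r := (h2.comp (0:ℂ) h3).deriv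
  rw [h4, norm_mul, Complex.norm_real, Real.norm_of_nonneg hr.le] at h1
  simpa using h1

end Pool.Agent.Helper84.EK

end

section

namespace Pool.Agent.Helper39.Area
end Pool.Agent.Helper39.Area
namespace Pool.Agent.Helper52.EK
end Pool.Agent.Helper52.EK

set_option autoImplicit false

open Complex Metric Set Filter Topology

open scoped Real

namespace Pool.Agent.Helper84.EK

open Pool.Agent.Helper39.Area Pool.Agent.Helper52.EK

/-- Koebe at the point `z₀` of the segment `(0, a)` -/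
theorem koebe_at {β : ℂ → ℂ} (h : Ext β) {a z₀ r : ℝ} (ha1 : a < 1) (hz₀ : 0 < z₀)
    (hza : z₀ < a) (hr : 0 < r) (hr1 : r ≤ z₀) (hr2 : r * (1 - a * z₀) ≤ a - z₀) :
    ‖dphi β z₀‖ * (1 - z₀ ^ 2) * r ≤ 4 * ‖phi β z₀ - phi β a‖ := by
  have ha : 0 < a := hz₀.trans hza
  have hz1 : z₀ < 1 := hza.trans ha1
  have haz : 0 < 1 - a * z₀ := by (clear * - ha1 hza hz₀; nlinarith only [ha1, hz₀, hza])
  set M : ℂ → ℂ := fun u => (u + z₀) / (1 + z₀ * u) with hM
  have hden : ∀ u ∈ ball (0:ℂ) r, (1 + (z₀ : ℂ) * u) ≠ 0 := by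
    intro u hu h0
    rw [mem_ball_zero_iff] at hu
    have h1 : (z₀ : ℂ) * u = -1 := by linear_combination h0
    have h2 : z₀ * ‖u‖ = 1 := by
      have := congrArg (fun w : ℂ => ‖w‖) h1
      simpa [Complex.norm_real, abs_of_pos hz₀] using this
    (clear * - haz h2 hza hr hr1 hu; nlinarith only [hza, hr, hr1, haz, hu, h2])
  have hMb : ∀ u ∈ ball (0:ℂ) r, M u ∈ ball (0:ℂ) 1 := by
    intro u hu
    have h1 := hden u hu
    rw [mem_ball_zero_iff] at hu ⊢
    simp only [hM]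
    rw [norm_div, div_lt_one (norm_pos_iff.mpr h1)]
    have h2 : ‖u + z₀‖ ^ 2 < ‖1 + (z₀ : ℂ) * u‖ ^ 2 := by
      have h3 : ‖u‖ ^ 2 = u.re ^ 2 + u.im ^ 2 := by
        rw [← Complex.normSq_eq_norm_sq, Complex.normSq_apply]
        ring
      have h4 : ‖u‖ ^ 2 < 1 := by (clear * - ha1 hza hr1 hu; nlinarith only [norm_nonneg u, ha1, hza, hr1, hu])
      rw [← Complex.normSq_eq_norm_sq, ← Complex.normSq_eq_norm_sq, Complex.normSq_apply,
        Complex.normSq_apply]
      simp only [Complex.add_re, Complex.add_im, Complex.ofReal_re, Complex.ofReal_im,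
        Complex.one_re, Complex.one_im, Complex.mul_re, Complex.mul_im, add_zero, zero_add,
        zero_mul, sub_zero]
      have h5 : 0 < (1 - (u.re ^ 2 + u.im ^ 2)) * (1 - z₀ ^ 2) := by
        apply mul_pos
        · rw [← h3]; (clear * - h4; linarith only [h4])
        · nlinarith only [ha1, hz₀, hza]
      (clear * - h5; linarith only [h5])
    exact lt_of_pow_lt_pow_left₀ 2 (norm_nonneg _) h2
  have hM0 : ∀ u ∈ ball (0:ℂ) r, M u ≠ 0 := by
    intro u hu h0
    have h1 := hden u hu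
    simp only [hM] at h0
    rw [div_eq_zero_iff] at h0
    rcases h0 with h0 | h0
    · have h2 : u = -(z₀ : ℂ) := by linear_combination h0
      rw [mem_ball_zero_iff, h2, norm_neg, Complex.norm_real, Real.norm_of_nonneg hz₀.le] at hu
      (clear * - hr1 hu; linarith)
    · exact h1 h0
  have hMa : ∀ u ∈ ball (0:ℂ) r, M u ≠ a := by
    intro u hu h0
    have h1 := hden u hu
    simp only [hM] at h0
    rw [div_eq_iff h1] at h0
    have h2 : u * ((1 - a * z₀ : ℝ) : ℂ) = ((a - z₀ : ℝ) : ℂ) := by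
      push_cast
      linear_combination h0
    have h3 := congrArg (fun w : ℂ => ‖w‖) h2
    simp only [norm_mul, Complex.norm_real] at h3
    rw [Real.norm_of_nonneg haz.le, Real.norm_of_nonneg (by (clear * - hza; linarith))] at h3
    rw [mem_ball_zero_iff] at hu
    (clear * - hr2 h3 haz hu; nlinarith only [hr2, haz, hu, h3])
  have hMi : ∀ u ∈ ball (0:ℂ) r, ∀ v ∈ ball (0:ℂ) r, M u = M v → u = v := by
    intro u hu v hv h0
    simp only [hM] at h0
    rw [div_eq_div_iff (hden u hu) (hden v hv)] at h0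
    have h1 : (u - v) * ((1 - z₀ ^ 2 : ℝ) : ℂ) = 0 := by
      push_cast
      linear_combination h0
    have h2 : ((1 - z₀ ^ 2 : ℝ) : ℂ) ≠ 0 := by
      have : (1 - z₀ ^ 2 : ℝ) ≠ 0 := by (clear * - hza ha1 hz₀; nlinarith only [ha1, hz₀, hza])
      exact_mod_cast this
    exact sub_eq_zero.mp ((mul_eq_zero.mp h1).resolve_right h2)
  have hMd : ∀ u ∈ ball (0:ℂ) r, DifferentiableAt ℂ M u := by
    intro u hu
    exact DifferentiableAt.div (by fun_prop) (by fun_prop) (hden u hu)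
  have haB : (a : ℂ) ∈ ball (0:ℂ) 1 := by
    rw [mem_ball_zero_iff, Complex.norm_real, Real.norm_of_nonneg ha.le]
    exact ha1
  have ha0 : (a : ℂ) ≠ 0 := by exact_mod_cast ha.ne'
  have hphi : ∀ z ∈ ball (0:ℂ) 1, z ≠ 0 → HasDerivAt (phi β) (dphi β z) z :=
    fun z hz h0 => hasDerivAt_phi h.diff hz h0
  have h0r : (0:ℂ) ∈ ball (0:ℂ) r := mem_ball_self hr
  have hk := koebe_r (g := fun u => phi β (M u) - phi β a) hr
    (by
      intro u hu
      have h1 := (hphi (M u) (hMb u hu) (hM0 u hu)).differentiableAt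
      exact ((h1.comp u (hMd u hu)).sub_const _).differentiableWithinAt)
    (by
      intro u hu v hv huv
      have h1 : phi β (M u) = phi β (M v) := by
        have h2 : phi β (M u) - phi β a = phi β (M v) - phi β a := huv
        linear_combination h2
      exact hMi u hu v hv (h.inj _ _ (hMb u hu) (hMb v hv) (hM0 u hu) (hM0 v hv) h1))
    (by
      intro u hu h1
      exact hMa u hu (h.inj _ _ (hMb u hu) haB (hM0 u hu) ha0 (sub_eq_zero.mp h1)))
  have hM00 : M 0 = z₀ := by simp [hM]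
  have hMd0 : HasDerivAt M ((1 - z₀ ^ 2 : ℝ) : ℂ) 0 := by
    have h1 : HasDerivAt (fun u : ℂ => u + (z₀ : ℂ)) 1 0 := (hasDerivAt_id _).add_const _
    have h2 : HasDerivAt (fun u : ℂ => 1 + (z₀ : ℂ) * u) (z₀ : ℂ) 0 := by
      simpa using ((hasDerivAt_id (0:ℂ)).const_mul (z₀ : ℂ)).const_add 1
    have h3 := h1.div h2 (hden 0 h0r)
    have e : ((1 - z₀ ^ 2 : ℝ) : ℂ) = (1 * (1 + (z₀ : ℂ) * 0) - (0 + (z₀ : ℂ)) * z₀) /
        (1 + (z₀ : ℂ) * 0) ^ 2 := by
      push_cast
      ring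
    rw [e]
    exact h3
  have hz₀B : (z₀ : ℂ) ∈ ball (0:ℂ) 1 := by
    rw [mem_ball_zero_iff, Complex.norm_real, Real.norm_of_nonneg hz₀.le]
    exact hz1
  have hz₀0 : (z₀ : ℂ) ≠ 0 := by exact_mod_cast hz₀.ne'
  have hG : HasDerivAt (fun u => phi β (M u) - phi β a) (dphi β z₀ * ((1 - z₀ ^ 2 : ℝ) : ℂ)) 0 := by
    have h1 : HasDerivAt (phi β) (dphi β z₀) (M 0) := by
      rw [hM00]
      exact hphi _ hz₀B hz₀0
    exact (h1.comp (0:ℂ) hMd0).sub_const _
  rw [hG.deriv, norm_mul, Complex.norm_real, Real.norm_of_nonneg (by (clear * - hza ha1 hz₀; nlinarith only [ha1, hz₀, hza]))] at hk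
  simpa [hM00] using hk

theorem exp_pt_half (ξ : ℝ) : Complex.exp (pt ξ (π / 2)) = (Real.exp ξ : ℂ) * I := by
  have h1 : pt ξ (π / 2) = (ξ : ℂ) + (π : ℂ) / 2 * I := by
    unfold pt
    push_cast
    ring
  rw [h1, Complex.exp_add, ← Complex.ofReal_exp]
  congr 1
  rw [show (π : ℂ) / 2 * I = ((π / 2 : ℝ) : ℂ) * I by push_cast; ring, Complex.exp_mul_I,
    ← Complex.ofReal_cos, ← Complex.ofReal_sin, Real.cos_pi_div_two, Real.sin_pi_div_two]
  simp

/-- **the bound of Koebe on the centre line** -/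
theorem centre {β : ℂ → ℂ} (h : Ext β) {a : ℝ} (ha : 0 < a) (ha1 : a < 1) {ξ : ℝ}
    (h1 : Real.log (tau a) < ξ) (h2 : ξ < 0) :
    ‖Xf β a (pt ξ (π / 2))‖ ≤ max ((1 + Real.exp ξ) / (1 - Real.exp ξ))
      ((Real.exp ξ + tau a) / (Real.exp ξ - tau a)) := by
  have hτ : 0 < tau a := by
    unfold tau
    have : 0 < 1 - a := by (clear * - ha1; linarith only [ha1])
    (clear * - ha1 ha; positivity)
  have hy0 : 0 < Real.exp ξ := Real.exp_pos ξ
  have hy1 : Real.exp ξ < 1 := by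
    rw [← Real.exp_zero]
    exact Real.exp_lt_exp.mpr h2
  have hyτ : tau a < Real.exp ξ := (Real.log_lt_iff_lt_exp hτ).mp h1
  set y := Real.exp ξ with hy
  set t := tau a with ht
  have hat : a = (1 - t) / (1 + t) := by
    rw [ht]
    unfold tau
    field_simp
    ring
  set z₀ : ℝ := (1 - y) / (1 + y) with hz₀
  have hzpos : 0 < z₀ := div_pos (by linarith only [hy1]) (by (clear * - hτ hyτ; linarith only [hτ, hyτ]))
  have hza : z₀ < a := by
    rw [hat, hz₀, div_lt_div_iff₀ (by linarith only [hτ, hyτ]) (by (clear * - hy1 hτ hyτ; linarith))]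
    linarith only [hyτ]
  set m := max ((1 + y) / (1 - y)) ((y + t) / (y - t)) with hm
  have hm1 : (1 + y) / (1 - y) ≤ m := le_max_left _ _
  have hm2 : (y + t) / (y - t) ≤ m := le_max_right _ _
  have hmpos : 0 < m := lt_of_lt_of_le (div_pos (by linarith only [hy0]) (by linarith only [hy1])) hm1
  have hr : 0 < m⁻¹ := inv_pos.mpr hmpos
  have hr1 : m⁻¹ ≤ z₀ := by
    rw [inv_le_comm₀ hmpos hzpos, hz₀, inv_div]
    exact hm1
  have hr2 : m⁻¹ * (1 - a * z₀) ≤ a - z₀ := by
    have e1 : 1 - a * z₀ = 2 * (y + t) / ((1 + t) * (1 + y)) := by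
      rw [hat, hz₀]
      field_simp
      ring
    have e2 : a - z₀ = 2 * (y - t) / ((1 + t) * (1 + y)) := by
      rw [hat, hz₀]
      field_simp
      ring
    rw [e1, e2, inv_mul_le_iff₀ hmpos, ← mul_div_assoc]
    apply div_le_div_of_nonneg_right _ (by positivity)
    rw [div_le_iff₀ (by linarith only [hyτ])] at hm2
    linarith only [hm2]
  have hk := koebe_at h ha1 hzpos hza hr hr1 hr2
  have haB : (a : ℂ) ∈ ball (0:ℂ) 1 := by
    rw [mem_ball_zero_iff, Complex.norm_real, Real.norm_of_nonneg ha.le]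
    exact ha1
  have hzB : (z₀ : ℂ) ∈ ball (0:ℂ) 1 := by
    rw [mem_ball_zero_iff, Complex.norm_real, Real.norm_of_nonneg hzpos.le]
    exact hza.trans ha1
  have hne : phi β (z₀ : ℂ) - phi β (a : ℂ) ≠ 0 := by
    intro h0
    have h3 := h.inj _ _ hzB haB (by exact_mod_cast hzpos.ne') (by exact_mod_cast ha.ne')
      (sub_eq_zero.mp h0)
    have h4 : z₀ = a := by exact_mod_cast h3
    (clear * - hza h4; linarith only [hza, h4])
  have hE := exp_pt_half ξ
  rw [← hy] at hE
  have hy1' : (1 + (y : ℂ)) ≠ 0 := by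
    have : (1 + y : ℝ) ≠ 0 := by positivity
    exact_mod_cast this
  have hzf : zf (pt ξ (π / 2)) = (z₀ : ℂ) := by
    unfold zf
    rw [hE, hz₀]
    push_cast
    have h3 : I + (y : ℂ) * I = (1 + y) * I := by ring
    rw [h3, div_eq_div_iff (mul_ne_zero hy1' I_ne_zero) hy1']
    ring
  have hzd : zd (pt ξ (π / 2)) = ((-(1 - z₀ ^ 2) / 2 : ℝ) : ℂ) := by
    unfold zd
    rw [hE, hz₀]
    push_cast
    have h3 : ((y : ℂ) * I + I) ^ 2 = -((1 + y) ^ 2) := by
      linear_combination ((y : ℂ) + 1) ^ 2 * I_sq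
    rw [h3]
    field_simp
    ring_nf
    simp only [I_sq]
    ring
  unfold Xf
  rw [hzf, hzd, norm_div, norm_mul, norm_mul, Complex.norm_real]
  have h5 : ‖(-(1 - z₀ ^ 2) / 2 : ℝ)‖ = (1 - z₀ ^ 2) / 2 := by
    rw [Real.norm_eq_abs, abs_of_nonpos (by (clear * - hza ha1 hzpos; nlinarith only [ha1, hzpos, hza]))]
    ring
  have h6 : ‖(2:ℂ)‖ = 2 := by simp
  rw [h5, h6, div_le_iff₀ (by positivity)]
  rw [← div_eq_mul_inv, div_le_iff₀ hmpos] at hk
  (clear * - hk; linarith only [hk])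

/-- the same bound with an exponentially small error -/
theorem centre_err {β : ℂ → ℂ} (h : Ext β) {a : ℝ} (ha : 0 < a) (ha1 : a < 1) {ξ : ℝ}
    (h1 : Real.log (tau a) + 1 ≤ ξ) (h2 : ξ ≤ -1) :
    ‖Xf β a (pt ξ (π / 2))‖ ≤ 1 + 4 * Real.exp ξ + 4 * Real.exp (Real.log (tau a) - ξ) := by
  have hτ : 0 < tau a := by
    unfold tau
    have : 0 < 1 - a := by (clear * - ha1; linarith only [ha1])
    (clear * - ha1 ha; positivity)
  have hhalf : Real.exp (-1) ≤ 1 / 2 := by
    have h9 : Real.exp (-1) < 0.3678794412 := Real.exp_neg_one_lt_d9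
    linarith only [h9]
  have key : ∀ q : ℝ, 0 < q → q ≤ 1 / 2 → (1 + q) / (1 - q) ≤ 1 + 4 * q := by
    intro q hq hq2
    rw [div_le_iff₀ (by (clear * - hq2; linarith only [hq2]))]
    (clear * - hq hq2; nlinarith only [hq, hq2])
  have hy : Real.exp ξ ≤ 1 / 2 := (Real.exp_le_exp.mpr h2).trans hhalf
  have hq : Real.exp (Real.log (tau a) - ξ) ≤ 1 / 2 :=
    (Real.exp_le_exp.mpr (by (clear * - h1; linarith))).trans hhalf
  have hy0 := Real.exp_pos ξ
  have hq0 := Real.exp_pos (Real.log (tau a) - ξ)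
  have hτe : tau a = Real.exp ξ * Real.exp (Real.log (tau a) - ξ) := by
    rw [← Real.exp_add, add_sub_cancel, Real.exp_log hτ]
  refine (centre h ha ha1 (by linarith only [h1]) (by linarith only [h2])).trans (max_le ?_ ?_)
  · have := key _ hy0 hy
    linarith only [hq0, this]
  · have h3 := key _ hq0 hq
    have h4 : (Real.exp ξ + tau a) / (Real.exp ξ - tau a) =
        (1 + Real.exp (Real.log (tau a) - ξ)) / (1 - Real.exp (Real.log (tau a) - ξ)) := by
      rw [div_eq_div_iff]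
      · linear_combination 2 * hτe
      · have h5 : tau a < Real.exp ξ := (Real.log_lt_iff_lt_exp hτ).mp (by linarith only [h1])
        linarith only [h5]
      · linarith only [hq]
    rw [h4]
    linarith only [hy0, h3]

end Pool.Agent.Helper84.EK

end
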