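import Pool.Agent.Helper14.CMF.T02

set_option linter.all false

section

namespace Pool.Agent.Helper39.Area
end Pool.Agent.Helper39.Area
namespace Pool.Agent.Helper52.EK
end Pool.Agent.Helper52.EK

set_option autoImplicit false

open Complex MeasureTheory Metric Set

open scoped Real ComplexConjugate

namespace Pool.Agent.Helper67.EK

open Pool.Agent.Helper39.Area Pool.Agent.Helper52.EK

/-- the point `Z = exp ω`: `Im Z ≥ 0` and `‖Z‖ = exp (re ω)` on the closed strip -/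
theorem exp_im_nonneg {ω : ℂ} (h0 : 0 ≤ ω.im) (h1 : ω.im ≤ π) : 0 ≤ (Complex.exp ω).im := by
  rw [Complex.exp_im]
  exact mul_nonneg (Real.exp_pos _).le (Real.sin_nonneg_of_nonneg_of_le_pi h0 h1)

theorem norm_exp_lt_one {ω : ℂ} (h : ω.re < 0) : ‖Complex.exp ω‖ < 1 := by
  rw [Complex.norm_exp]
  exact Real.exp_lt_one_iff.mpr h

theorem I_add_ne {Z : ℂ} (h : ‖Z‖ < 1) : I + Z ≠ 0 := by
  intro h'
  have h1 : Z = -I := by linear_combination h'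
  rw [h1, norm_neg, Complex.norm_I] at h
  exact lt_irrefl _ h

theorem I_sub_ne {Z : ℂ} (h : ‖Z‖ < 1) : I - Z ≠ 0 := by
  intro h'
  have h1 : Z = I := by linear_combination -h'
  rw [h1, Complex.norm_I] at h
  exact lt_irrefl _ h

theorem norm_sub_le_add {Z : ℂ} (h : 0 ≤ Z.im) : ‖I - Z‖ ≤ ‖I + Z‖ := by
  have h1 : ‖I - Z‖ ^ 2 ≤ ‖I + Z‖ ^ 2 := by
    rw [← Complex.normSq_eq_norm_sq, ← Complex.normSq_eq_norm_sq, Complex.normSq_apply,
      Complex.normSq_apply]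
    simp only [Complex.sub_re, Complex.sub_im, Complex.add_re, Complex.add_im, Complex.I_re,
      Complex.I_im]
    (clear * - h; linarith only [h])
  exact (sq_le_sq₀ (norm_nonneg _) (norm_nonneg _)).mp h1

/-- `‖zf ω‖ ≤ 1` on the closed left half strip -/
theorem norm_zf_le {ω : ℂ} (h : ω.re < 0) (h0 : 0 ≤ ω.im) (h1 : ω.im ≤ π) : ‖zf ω‖ ≤ 1 := by
  unfold zf
  rw [norm_div]
  have h2 := I_add_ne (norm_exp_lt_one h)
  rw [div_le_one (norm_pos_iff.mpr h2)]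
  exact norm_sub_le_add (exp_im_nonneg h0 h1)

theorem zf_ne_zero {ω : ℂ} (h : ω.re < 0) : zf ω ≠ 0 := by
  unfold zf
  exact div_ne_zero (I_sub_ne (norm_exp_lt_one h)) (I_add_ne (norm_exp_lt_one h))

/-- `zf ω = a` only at `ω` with real part `log τ` -/
theorem zf_ne_a {ω : ℂ} {a : ℝ} (ha : 0 < a) (ha1 : a < 1) (h : ω.re < 0)
    (h1 : Real.log (tau a) < ω.re) : zf ω ≠ (a : ℂ) := by
  intro h'
  have h2 := I_add_ne (norm_exp_lt_one h)
  unfold zf at h'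
  rw [div_eq_iff h2] at h'
  have h3 : (1 + (a : ℂ)) * Complex.exp ω = (1 - (a : ℂ)) * I := by linear_combination -h'
  have h4 : ‖(1 + (a : ℂ)) * Complex.exp ω‖ = ‖(1 - (a : ℂ)) * I‖ := by rw [h3]
  have h5 : ‖(1 + (a : ℂ))‖ = 1 + a := by
    rw [show (1 + (a : ℂ)) = ((1 + a : ℝ) : ℂ) by push_cast; ring, Complex.norm_real,
      Real.norm_of_nonneg (by (clear * - ha; linarith only [ha]))]
  have h6 : ‖(1 - (a : ℂ))‖ = 1 - a := by
    rw [show (1 - (a : ℂ)) = ((1 - a : ℝ) : ℂ) by push_cast; ring, Complex.norm_real,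
      Real.norm_of_nonneg (by (clear * - ha1; linarith only [ha1]))]
  rw [norm_mul, norm_mul, h5, h6, Complex.norm_I, mul_one, Complex.norm_exp] at h4
  have h7 : tau a = Real.exp ω.re := by
    unfold tau
    rw [div_eq_iff (by linarith only [ha])]
    linarith only [h4]
  rw [h7, Real.log_exp] at h1
  exact lt_irrefl _ h1

theorem zd_ne_zero {ω : ℂ} (h : ω.re < 0) : zd ω ≠ 0 := by
  unfold zd
  have h2 := I_add_ne (norm_exp_lt_one h)
  have h3 : Complex.exp ω + I ≠ 0 := by rw [add_comm]; exact h2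
  refine div_ne_zero (mul_ne_zero (mul_ne_zero (by norm_num) I_ne_zero) (Complex.exp_ne_zero _)) ?_
  exact pow_ne_zero 2 h3

theorem dphi_ne_zero {β : ℂ → ℂ} {R : ℝ} (h : ExtR β R) {z : ℂ} (hz : z ∈ ball (0:ℂ) R)
    (h0 : z ≠ 0) : dphi β z ≠ 0 := by
  intro h'
  apply h.ne z hz
  unfold dphi at h'
  have h1 : z ^ 2 ≠ 0 := pow_ne_zero 2 h0
  have h2 : deriv β z = (z ^ 2)⁻¹ := by linear_combination h'
  rw [h2, mul_inv_cancel₀ h1, sub_self]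

theorem phi_sub_ne {β : ℂ → ℂ} {R : ℝ} (h : ExtR β R) {z a : ℂ} (hz : z ∈ ball (0:ℂ) R)
    (ha : a ∈ ball (0:ℂ) R) (h0 : z ≠ 0) (ha0 : a ≠ 0) (hza : z ≠ a) :
    phi β z - phi β a ≠ 0 := by
  intro h'
  exact hza (h.inj z a hz ha h0 ha0 (sub_eq_zero.mp h'))

theorem beta_an {β : ℂ → ℂ} {R : ℝ} (h : ExtR β R) {z : ℂ} (hz : z ∈ ball (0:ℂ) R) :
    AnalyticAt ℂ β z :=
  h.diff.analyticAt (isOpen_ball.mem_nhds hz)

theorem phi_an {β : ℂ → ℂ} {R : ℝ} (h : ExtR β R) {z : ℂ} (hz : z ∈ ball (0:ℂ) R)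
    (h0 : z ≠ 0) : AnalyticAt ℂ (phi β) z :=
  (analyticAt_id.inv h0).add (beta_an h hz)

theorem dphi_an {β : ℂ → ℂ} {R : ℝ} (h : ExtR β R) {z : ℂ} (hz : z ∈ ball (0:ℂ) R)
    (h0 : z ≠ 0) : AnalyticAt ℂ (dphi β) z :=
  (((analyticAt_id.pow 2).inv (pow_ne_zero 2 h0)).neg).add (beta_an h hz).deriv

theorem zf_an {ω : ℂ} (h : ω.re < 0) : AnalyticAt ℂ zf ω := by
  unfold zf
  exact (analyticAt_const.sub analyticAt_cexp).div (analyticAt_const.add analyticAt_cexp)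
    (I_add_ne (norm_exp_lt_one h))

theorem zd_an {ω : ℂ} (h : ω.re < 0) : AnalyticAt ℂ zd ω := by
  unfold zd
  refine ((analyticAt_const.mul analyticAt_cexp)).div
    ((analyticAt_cexp.add analyticAt_const).pow 2) ?_
  have h2 := I_add_ne (norm_exp_lt_one h)
  refine pow_ne_zero 2 ?_
  rw [add_comm]
  exact h2

/-- E1c -/
theorem E1c {β : ℂ → ℂ} {R : ℝ} (h : ExtR β R) {a : ℝ} (ha : 0 < a) (ha1 : a < 1) {x₁ x₂ : ℝ}
    (h1 : Real.log (tau a) < x₁) (h2 : x₂ < 0) : NiceX (Xf β a) x₁ x₂ := by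
  have key : ∀ ω ∈ Rect x₁ x₂, ω.re < 0 ∧ zf ω ∈ ball (0:ℂ) R ∧ zf ω ≠ 0 ∧
      phi β (zf ω) - phi β (a : ℂ) ≠ 0 := by
    intro ω hω
    obtain ⟨⟨hr1, hr2⟩, hi1, hi2⟩ := hω
    have hre : ω.re < 0 := lt_of_le_of_lt hr2 h2
    have hz : zf ω ∈ ball (0:ℂ) R := by
      rw [mem_ball_zero_iff]
      exact lt_of_le_of_lt (norm_zf_le hre hi1 hi2) h.one_lt
    have haR : (a : ℂ) ∈ ball (0:ℂ) R := by
      rw [mem_ball_zero_iff, Complex.norm_real, Real.norm_of_nonneg ha.le]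
      exact ha1.trans h.one_lt
    refine ⟨hre, hz, zf_ne_zero hre, ?_⟩
    exact phi_sub_ne h hz haR (zf_ne_zero hre) (by exact_mod_cast ha.ne')
      (zf_ne_a ha ha1 hre (lt_of_lt_of_le h1 hr1))
  constructor
  · intro ω hω
    obtain ⟨hre, hz, hz0, hne⟩ := key ω hω
    unfold Xf
    have hzf := zf_an hre
    have hd : AnalyticAt ℂ (fun w => dphi β (zf w)) ω := (dphi_an h hz hz0).comp hzf
    have hp : AnalyticAt ℂ (fun w => phi β (zf w)) ω := (phi_an h hz hz0).comp hzf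
    refine ((zd_an hre).mul hd).div (analyticAt_const.mul (hp.sub analyticAt_const)) ?_
    exact mul_ne_zero two_ne_zero hne
  · intro ω hω
    obtain ⟨hre, hz, hz0, hne⟩ := key ω hω
    unfold Xf
    exact div_ne_zero (mul_ne_zero (zd_ne_zero hre) (dphi_ne_zero h hz hz0))
      (mul_ne_zero two_ne_zero hne)

end Pool.Agent.Helper67.EK

end

section

namespace Pool.Agent.Helper39.Area
end Pool.Agent.Helper39.Area
namespace Pool.Agent.Helper52.EK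
end Pool.Agent.Helper52.EK

set_option autoImplicit false

open Complex MeasureTheory Metric Set

open scoped Real ComplexConjugate

namespace Pool.Agent.Helper97.EK

open Pool.Agent.Helper39.Area Pool.Agent.Helper52.EK

/-- unimodular factor between the frames -/
noncomputable def ph (Z : ℂ) : ℂ := ((‖I + Z‖ / ‖I - Z‖ : ℝ) : ℂ) * ((I - Z) / (I - conj Z))

section basic

theorem exp_pt (ξ η : ℝ) : Complex.exp (pt ξ η) =
    ((Real.exp ξ : ℝ) : ℂ) * ((Real.cos η : ℂ) + (Real.sin η : ℂ) * I) := by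
  unfold pt
  rw [Complex.exp_add, Complex.exp_mul_I, Complex.ofReal_exp, Complex.ofReal_cos,
    Complex.ofReal_sin]

theorem pt_re (ξ η : ℝ) : (pt ξ η).re = ξ := by simp [pt]

theorem pt_im (ξ η : ℝ) : (pt ξ η).im = η := by simp [pt]

theorem exp_pt_im (ξ η : ℝ) : (Complex.exp (pt ξ η)).im = Real.exp ξ * Real.sin η := by
  rw [Complex.exp_im, pt_re, pt_im]

theorem norm_exp_pt (ξ η : ℝ) : ‖Complex.exp (pt ξ η)‖ = Real.exp ξ := by
  rw [Complex.norm_exp, pt_re]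

variable {ξ η : ℝ}

theorem im_pos (h0 : 0 < η) (h1 : η < π) : 0 < (Complex.exp (pt ξ η)).im := by
  rw [exp_pt_im]
  exact mul_pos (Real.exp_pos _) (Real.sin_pos_of_pos_of_lt_pi h0 h1)

theorem norm_lt (hξ : ξ < 0) : ‖Complex.exp (pt ξ η)‖ < 1 := by
  rw [norm_exp_pt, ← Real.exp_zero]
  exact Real.exp_lt_exp.2 hξ

theorem addI_ne (h0 : 0 < η) (h1 : η < π) : I + Complex.exp (pt ξ η) ≠ 0 := by
  intro h
  have h2 := congrArg Complex.im h
  rw [Complex.add_im, Complex.I_im, Complex.zero_im] at h2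
  have := im_pos (ξ := ξ) h0 h1
  (clear * - h2 this; linarith only [h2, this])

theorem subI_ne (hξ : ξ < 0) : I - Complex.exp (pt ξ η) ≠ 0 := by
  intro h
  have h2 : Complex.exp (pt ξ η) = I := (sub_eq_zero.1 h).symm
  have h3 := norm_lt (η := η) hξ
  rw [h2, Complex.norm_I] at h3
  exact lt_irrefl _ h3

theorem subconj_ne (h0 : 0 < η) (h1 : η < π) : I - conj (Complex.exp (pt ξ η)) ≠ 0 := by
  intro h
  have h2 := congrArg Complex.im h
  rw [Complex.sub_im, Complex.I_im, Complex.conj_im, Complex.zero_im] at h2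
  have := im_pos (ξ := ξ) h0 h1
  (clear * - h2 this; linarith only [h2, this])

/-- `e₀ = - conj Z / Z` -/
theorem e0_eq (ξ η : ℝ) : e0 (Real.sin η) (Real.cos η) =
    -(conj (Complex.exp (pt ξ η)) / Complex.exp (pt ξ η)) := by
  unfold e0
  rw [eq_neg_iff_add_eq_zero, neg_add_eq_zero, eq_div_iff (Complex.exp_ne_zero _)]
  rw [exp_pt]
  simp only [map_mul, map_add, Complex.conj_ofReal, Complex.conj_I]
  have h : ((Real.cos η : ℝ) : ℂ) ^ 2 + ((Real.sin η : ℝ) : ℂ) ^ 2 = 1 := by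
    rw [add_comm]
    exact_mod_cast Real.sin_sq_add_cos_sq η
  linear_combination (((Real.exp ξ : ℝ) : ℂ) * ((Real.cos η : ℂ) - (Real.sin η : ℂ) * I)) * h -
    (((Real.exp ξ : ℝ) : ℂ) * ((Real.cos η : ℂ) - (Real.sin η : ℂ) * I) *
      ((Real.sin η : ℝ) : ℂ) ^ 2) * Complex.I_sq

theorem conj_zf (ω : ℂ) : conj (zf ω) =
    (-I - conj (Complex.exp ω)) / (-I + conj (Complex.exp ω)) := by
  unfold zf
  rw [map_div₀, map_sub, map_add, Complex.conj_I]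

theorem norm_zf (ω : ℂ) : ‖zf ω‖ = ‖I - Complex.exp ω‖ / ‖I + Complex.exp ω‖ := by
  unfold zf
  rw [norm_div]

theorem frame_alg (Z W r₁ r₂ : ℂ) (hZ : Z ≠ 0) (h1 : I + Z ≠ 0) (h2 : I - Z ≠ 0)
    (h3 : I - W ≠ 0) (hr1 : r₁ ≠ 0) (hr2 : r₂ ≠ 0) :
    (I - Z) / (I + Z) / (r₁ / r₂) * ((1 - (-I - W) / (-I + W) * 1) / (1 - (I - Z) / (I + Z))) =
      r₂ / r₁ * ((I - Z) / (I - W)) * -(W / Z) := by
  have h3' : -I + W ≠ 0 := by
    intro h
    apply h3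
    linear_combination -h
  have e1 : 1 - (-I - W) / (-I + W) * 1 = -(2 * W) / (I - W) := by
    field_simp
    ring
  have e2 : 1 - (I - Z) / (I + Z) = 2 * Z / (I + Z) := by
    field_simp
    ring
  rw [e1, e2]
  field_simp

end basic

/-- E3a -/
theorem E3a1 {ξ η : ℝ} (h0 : 0 < η) (h1 : η < π) (hξ : ξ < 0) :
    (zf (pt ξ η) / ‖zf (pt ξ η)‖) * ee 1 (zf (pt ξ η)) =
      ph (Complex.exp (pt ξ η)) * e0 (Real.sin η) (Real.cos η) := by
  have a1 := addI_ne (ξ := ξ) h0 h1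
  have a2 := subI_ne (η := η) hξ
  have a3 := subconj_ne (ξ := ξ) h0 h1
  rw [e0_eq ξ η, norm_zf]
  unfold ee ph
  rw [conj_zf]
  unfold zf
  rw [Complex.ofReal_div, Complex.ofReal_div]
  exact frame_alg _ _ _ _ (Complex.exp_ne_zero _) a1 a2 a3
    (Complex.ofReal_ne_zero.2 (norm_ne_zero_iff.2 a2))
    (Complex.ofReal_ne_zero.2 (norm_ne_zero_iff.2 a1))

theorem hasDerivAt_zf {ω : ℂ} (h : I + Complex.exp ω ≠ 0) : HasDerivAt zf (zd ω) ω := by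
  have h1 : HasDerivAt (fun ω => (I - Complex.exp ω) / (I + Complex.exp ω))
      ((-Complex.exp ω * (I + Complex.exp ω) - (I - Complex.exp ω) * Complex.exp ω) /
        (I + Complex.exp ω) ^ 2) ω :=
    ((Complex.hasDerivAt_exp ω).const_sub I).div ((Complex.hasDerivAt_exp ω).const_add I) h
  have e : zd ω = (-Complex.exp ω * (I + Complex.exp ω) - (I - Complex.exp ω) * Complex.exp ω) /
      (I + Complex.exp ω) ^ 2 := by
    unfold zd
    rw [add_comm (Complex.exp ω) I]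
    congr 1
    ring
  rw [e]
  exact h1

theorem hasDerivAt_zd {ω : ℂ} (h : I + Complex.exp ω ≠ 0) :
    HasDerivAt zd (zd ω * zf ω) ω := by
  have h0 : Complex.exp ω + I ≠ 0 := by rwa [add_comm]
  have h1 : HasDerivAt (fun ω => -2 * I * Complex.exp ω) (-2 * I * Complex.exp ω) ω :=
    (Complex.hasDerivAt_exp ω).const_mul (-2 * I)
  have h2 : HasDerivAt (fun ω => (Complex.exp ω + I) ^ 2)
      (((2 : ℕ) : ℂ) * (Complex.exp ω + I) ^ (2 - 1) * Complex.exp ω) ω :=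
    ((Complex.hasDerivAt_exp ω).add_const I).pow 2
  have h3 := h1.div h2 (pow_ne_zero 2 h0)
  have e : zd ω * zf ω = (-2 * I * Complex.exp ω * (Complex.exp ω + I) ^ 2 -
      -2 * I * Complex.exp ω * (((2 : ℕ) : ℂ) * (Complex.exp ω + I) ^ (2 - 1) * Complex.exp ω)) /
      ((Complex.exp ω + I) ^ 2) ^ 2 := by
    unfold zd zf
    rw [add_comm I (Complex.exp ω)]
    field_simp
    push_cast
    ring
  rw [e]
  exact h3

section beta

variable {β : ℂ → ℂ}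

theorem dphi_eq {z : ℂ} (hz : z ≠ 0) : dphi β z = - N β z / z ^ 2 := by
  unfold dphi N
  field_simp
  ring

theorem hasDerivAt_deriv (h : Ext β) {z : ℂ} (hz : z ∈ ball (0 : ℂ) 1) :
    HasDerivAt (deriv β) (deriv (deriv β) z) z :=
  ((h.diff.deriv isOpen_ball).differentiableAt (isOpen_ball.mem_nhds hz)).hasDerivAt

theorem hasDerivAt_N (h : Ext β) {z : ℂ} (hz : z ∈ ball (0 : ℂ) 1) :
    HasDerivAt (N β) (-(2 * z * deriv β z + z ^ 2 * deriv (deriv β) z)) z := by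
  have h1 : HasDerivAt (fun z : ℂ => z ^ 2) (((2 : ℕ) : ℂ) * z ^ (2 - 1) * 1) z :=
    (hasDerivAt_id z).pow 2
  have h2 := (h1.mul (hasDerivAt_deriv h hz)).const_sub 1
  have e : -(((2 : ℕ) : ℂ) * z ^ (2 - 1) * 1 * deriv β z + z ^ 2 * deriv (deriv β) z) =
      -(2 * z * deriv β z + z ^ 2 * deriv (deriv β) z) := by
    push_cast
    ring
  rw [← e]
  exact h2

theorem hasDerivAt_dphi (h : Ext β) {z : ℂ} (hz : z ∈ ball (0 : ℂ) 1) (hz0 : z ≠ 0) :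
    HasDerivAt (dphi β) (dphi β z * (deriv (N β) z / N β z - 2 / z)) z := by
  have hN : N β z ≠ 0 := h.ne z hz
  have h1 : HasDerivAt (fun z : ℂ => z ^ 2) (((2 : ℕ) : ℂ) * z ^ (2 - 1) * 1) z :=
    (hasDerivAt_id z).pow 2
  have h2 := (h1.inv (pow_ne_zero 2 hz0)).neg.add (hasDerivAt_deriv h hz)
  have e : dphi β z * (deriv (N β) z / N β z - 2 / z) =
      -(-(((2 : ℕ) : ℂ) * z ^ (2 - 1) * 1) / (z ^ 2) ^ 2) + deriv (deriv β) z := by
    rw [dphi_eq hz0, (hasDerivAt_N h hz).deriv]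
    have hN' : N β z = 1 - z ^ 2 * deriv β z := rfl
    field_simp
    rw [hN']
    push_cast
    ring
  rw [e]
  exact h2

/-- the logarithmic derivative of `X` -/
theorem deriv_Xf (h : Ext β) {a : ℝ} {ω : ℂ} (hω : I + Complex.exp ω ≠ 0)
    (hz : zf ω ∈ ball (0 : ℂ) 1) (hz0 : zf ω ≠ 0)
    (hne : phi β (zf ω) - phi β (a : ℂ) ≠ 0) :
    deriv (Xf β a) ω = Xf β a ω * (zf ω + zd ω * (deriv (N β) (zf ω) / N β (zf ω) - 2 / zf ω)
      - 2 * Xf β a ω) := by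
  have h1 := hasDerivAt_zf hω
  have h2 := hasDerivAt_zd hω
  have h3 := (hasDerivAt_dphi h hz hz0).comp ω h1
  have h4 := (hasDerivAt_phi h.diff hz hz0).comp ω h1
  have h5 := (h2.mul h3).div ((h4.sub_const (phi β (a : ℂ))).const_mul 2)
    (mul_ne_zero two_ne_zero hne)
  have h6 : deriv (Xf β a) ω = _ := h5.deriv
  rw [h6]
  unfold Xf
  simp only [Function.comp_apply, Pi.mul_apply]
  have hd : phi β (zf ω) - phi β (a : ℂ) ≠ 0 := hne
  set Δ := phi β (zf ω) - phi β (a : ℂ) with hΔ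
  have h7 : -(zf ω ^ 2)⁻¹ + deriv β (zf ω) = dphi β (zf ω) := rfl
  try rw [h7]
  set D := deriv (N β) (zf ω) / N β (zf ω) - 2 / zf ω with hD
  field_simp

end beta

theorem frame_alg2 (Z y r₁ r₂ D : ℂ) (hZ : Z ≠ 0) (h1 : I + Z ≠ 0) (h2 : I - Z ≠ 0)
    (h3 : I - (Z - 2 * y * I) ≠ 0) (hr1 : r₁ ≠ 0) (hr2 : r₂ ≠ 0) :
    (I - Z) / (I + Z) / (r₁ / r₂) * (-((-I - (Z - 2 * y * I)) / (-I + (Z - 2 * y * I))) -
      (1 - (I - Z) / (I + Z) * ((-I - (Z - 2 * y * I)) / (-I + (Z - 2 * y * I)))) * D) =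
    r₂ / r₁ * ((I - Z) / (I - (Z - 2 * y * I))) *
      (((1 + -((Z - 2 * y * I) / Z)) * ((I - Z) / (I + Z) + -2 * I * Z / (Z + I) ^ 2 *
        (D - 2 / ((I - Z) / (I + Z))) - 1) - 1) + 2 * I * y / (Z + I) + 4 * I * y / (Z - I)) := by
  obtain ⟨u, rfl⟩ : ∃ u, Z = I * u := ⟨-I * Z, by
    rw [← mul_assoc, mul_neg, Complex.I_mul_I]; ring⟩
  have hI : I ≠ 0 := Complex.I_ne_zero
  have hu : u ≠ 0 := right_ne_zero_of_mul hZ
  have k1 : 1 + u ≠ 0 := by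
    intro h
    apply h1
    linear_combination I * h
  have k2 : 1 - u ≠ 0 := by
    intro h
    apply h2
    linear_combination I * h
  have k2' : u - 1 ≠ 0 := by
    intro h
    apply k2
    linear_combination -h
  have k3 : 1 - (u - 2 * y) ≠ 0 := by
    intro h
    apply h3
    linear_combination I * h
  have e1 : (I - I * u) / (I + I * u) = (1 - u) / (1 + u) := by
    field_simp
  have e2 : (-I - (I * u - 2 * y * I)) / (-I + (I * u - 2 * y * I)) =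
      (1 + (u - 2 * y)) / (1 - (u - 2 * y)) := by
    have k4 : -I + (I * u - 2 * y * I) ≠ 0 := by
      intro h
      apply h3
      linear_combination -h
    rw [div_eq_div_iff k4 k3]
    ring
  have e3 : (I - I * u) / (I - (I * u - 2 * y * I)) = (1 - u) / (1 - (u - 2 * y)) := by
    rw [div_eq_div_iff h3 k3]
    ring
  have e4 : (I * u - 2 * y * I) / (I * u) = (u - 2 * y) / u := by
    (clear * - hI hu; field_simp)
  have e5 : -2 * I * (I * u) / (I * u + I) ^ 2 = -2 * u / (1 + u) ^ 2 := by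
    rw [div_eq_div_iff (pow_ne_zero 2 (by rw [add_comm]; exact h1)) (pow_ne_zero 2 k1)]
    ring
  have e6 : 2 * I * y / (I * u + I) = 2 * y / (1 + u) := by
    rw [div_eq_div_iff (by rw [add_comm]; exact h1) k1]
    ring
  have e7 : 4 * I * y / (I * u - I) = 4 * y / (u - 1) := by
    have k5 : I * u - I ≠ 0 := by
      intro h
      apply h2
      linear_combination -h
    rw [div_eq_div_iff k5 k2']
    ring
  rw [e1, e2, e3, e4, e5, e6, e7]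
  have k6 : (1 - u) / (1 + u) ≠ 0 := div_ne_zero k2 k1
  have e8 : 4 * y / (u - 1) = -(4 * y) / (1 - u) := by
    rw [div_eq_div_iff k2' k2]
    ring
  rw [e8]
  field_simp
  ring

theorem zf_mem {ξ η : ℝ} (h0 : 0 < η) (h1 : η < π) : zf (pt ξ η) ∈ ball (0 : ℂ) 1 := by
  rw [mem_ball_zero_iff, norm_zf]
  have a1 := addI_ne (ξ := ξ) h0 h1
  rw [div_lt_one (norm_pos_iff.2 a1)]
  have hy := im_pos (ξ := ξ) h0 h1
  set Z := Complex.exp (pt ξ η) with hZ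
  have e1 : ‖I - Z‖ ^ 2 = Z.re ^ 2 + (1 - Z.im) ^ 2 := by
    rw [← Complex.normSq_eq_norm_sq, Complex.normSq_apply]
    simp
    ring
  have e2 : ‖I + Z‖ ^ 2 = Z.re ^ 2 + (1 + Z.im) ^ 2 := by
    rw [← Complex.normSq_eq_norm_sq, Complex.normSq_apply]
    simp
    ring
  have e3 : ‖I - Z‖ ^ 2 < ‖I + Z‖ ^ 2 := by
    rw [e1, e2]
    linarith only [hy]
  exact lt_of_pow_lt_pow_left₀ 2 (norm_nonneg _) e3

theorem zf_ne {ξ η : ℝ} (h0 : 0 < η) (h1 : η < π) (hξ : ξ < 0) : zf (pt ξ η) ≠ 0 :=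
  div_ne_zero (subI_ne hξ) (addI_ne h0 h1)

theorem zf_ne_a {ξ η a : ℝ} (ha : 0 < a) (ha1 : a < 1) (h0 : 0 < η) (h1 : η < π)
    (hξ1 : Real.log (tau a) < ξ) : zf (pt ξ η) ≠ (a : ℂ) := by
  intro h
  have a1 := addI_ne (ξ := ξ) h0 h1
  have hτ : 0 < tau a := div_pos (by (clear * - ha1; linarith)) (by linarith only [ha])
  unfold zf at h
  rw [div_eq_iff a1] at h
  have ha' : (1 + (a : ℂ)) ≠ 0 := by
    exact_mod_cast (by linarith only [ha] : (1 + a : ℝ) ≠ 0)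
  have h2 : Complex.exp (pt ξ η) = I * ((tau a : ℝ) : ℂ) := by
    unfold tau
    push_cast
    field_simp
    linear_combination -h
  have h3 := norm_exp_pt ξ η
  rw [h2, norm_mul, Complex.norm_I, one_mul, Complex.norm_real, Real.norm_of_nonneg hτ.le] at h3
  have h4 : tau a < Real.exp ξ := (Real.log_lt_iff_lt_exp hτ).1 hξ1
  (clear * - h3 h4; linarith)

theorem E3a2 {β : ℂ → ℂ} (h : Ext β) {a : ℝ} (ha : 0 < a) (ha1 : a < 1) {ξ η : ℝ} (h0 : 0 < η)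
    (h1 : η < π) (hξ : ξ < 0) (hξ1 : Real.log (tau a) < ξ) :
    mrad β (zf (pt ξ η)) = ph (Complex.exp (pt ξ η)) *
      (mX (Xf β a (pt ξ η)) (deriv (Xf β a) (pt ξ η)) (Real.sin η) (Real.cos η) +
        2 * I * (Complex.exp (pt ξ η)).im / (Complex.exp (pt ξ η) + I) +
        4 * I * (Complex.exp (pt ξ η)).im / (Complex.exp (pt ξ η) - I)) := by
  have a1 := addI_ne (ξ := ξ) h0 h1
  have a2 := subI_ne (η := η) hξ
  have a3 := subconj_ne (ξ := ξ) h0 h1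
  have hz := zf_mem (ξ := ξ) h0 h1
  have hz0 := zf_ne h0 h1 hξ
  have hza := zf_ne_a ha ha1 h0 h1 hξ1
  have haB : (a : ℂ) ∈ ball (0 : ℂ) 1 := by
    rw [mem_ball_zero_iff, Complex.norm_real, Real.norm_of_nonneg ha.le]
    exact ha1
  have ha0 : (a : ℂ) ≠ 0 := Complex.ofReal_ne_zero.2 ha.ne'
  have hΔ : phi β (zf (pt ξ η)) - phi β (a : ℂ) ≠ 0 := fun h2 =>
    hza (h.inj _ _ hz haB hz0 ha0 (sub_eq_zero.1 h2))
  have hN : N β (zf (pt ξ η)) ≠ 0 := h.ne _ hz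
  have hdphi : dphi β (zf (pt ξ η)) ≠ 0 := by
    rw [dphi_eq hz0]
    exact div_ne_zero (neg_ne_zero.2 hN) (pow_ne_zero 2 hz0)
  have hzd : zd (pt ξ η) ≠ 0 := by
    unfold zd
    refine div_ne_zero (mul_ne_zero (mul_ne_zero (by norm_num) Complex.I_ne_zero)
      (Complex.exp_ne_zero _)) (pow_ne_zero 2 (by rwa [add_comm]))
  have hX : Xf β a (pt ξ η) ≠ 0 := by
    unfold Xf
    exact div_ne_zero (mul_ne_zero hzd hdphi) (mul_ne_zero two_ne_zero hΔ)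
  have hdX := deriv_Xf h a1 hz hz0 hΔ
  have hq : deriv (Xf β a) (pt ξ η) / Xf β a (pt ξ η) = zf (pt ξ η) + zd (pt ξ η) *
      (deriv (N β) (zf (pt ξ η)) / N β (zf (pt ξ η)) - 2 / zf (pt ξ η)) -
      2 * Xf β a (pt ξ η) := by
    rw [hdX, mul_div_cancel_left₀ _ hX]
  have hconj : conj (Complex.exp (pt ξ η)) = Complex.exp (pt ξ η) -
      2 * ((Complex.exp (pt ξ η)).im : ℂ) * I := by
    have := Complex.sub_conj (Complex.exp (pt ξ η))
    push_cast at this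
    linear_combination -this
  have hnz : (1 : ℂ) - ((‖zf (pt ξ η)‖ : ℝ) : ℂ) ^ 2 =
      1 - zf (pt ξ η) * conj (zf (pt ξ η)) := by
    rw [Complex.mul_conj']
  unfold mrad mX
  rw [hq, e0_eq ξ η, hnz, norm_zf, Complex.ofReal_div]
  have e1 : 2 * Xf β a (pt ξ η) - 1 + (zf (pt ξ η) + zd (pt ξ η) *
      (deriv (N β) (zf (pt ξ η)) / N β (zf (pt ξ η)) - 2 / zf (pt ξ η)) -
      2 * Xf β a (pt ξ η)) = zf (pt ξ η) + zd (pt ξ η) *
      (deriv (N β) (zf (pt ξ η)) / N β (zf (pt ξ η)) - 2 / zf (pt ξ η)) - 1 := by ring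
  rw [e1]
  set D := deriv (N β) (zf (pt ξ η)) / N β (zf (pt ξ η)) with hD
  clear_value D
  rw [conj_zf]
  unfold ph zf zd
  rw [hconj] at a3 ⊢
  rw [Complex.ofReal_div]
  exact frame_alg2 _ _ _ _ D (Complex.exp_ne_zero _) a1 a2 a3
    (Complex.ofReal_ne_zero.2 (norm_ne_zero_iff.2 a2))
    (Complex.ofReal_ne_zero.2 (norm_ne_zero_iff.2 a1))

end Pool.Agent.Helper97.EK

end

section

namespace Pool.Agent.Helper39.Area
end Pool.Agent.Helper39.Area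
namespace Pool.Agent.Helper52.EK
end Pool.Agent.Helper52.EK

set_option autoImplicit false

open Complex MeasureTheory Metric Set

open scoped Real ComplexConjugate

namespace Pool.Agent.Helper70.EK

open Pool.Agent.Helper39.Area Pool.Agent.Helper52.EK

theorem GLip.nonneg {G : ℂ → ℂ} {L : ℝ} (hG : GLip G L) : 0 ≤ L := by
  have h := hG.lip 1 0
  have h2 : L * ‖(1:ℂ) - 0‖ = L := by simp
  rw [h2] at h
  exact (norm_nonneg _).trans h

theorem GLip.continuous {G : ℂ → ℂ} {L : ℝ} (hG : GLip G L) : Continuous G := by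
  have h : LipschitzWith (Real.toNNReal L) G := by
    apply LipschitzWith.of_dist_le_mul
    intro x y
    rw [dist_eq_norm, dist_eq_norm, Real.coe_toNNReal _ (GLip.nonneg hG)]
    exact hG.lip x y
  exact h.continuous

theorem N_diff {β : ℂ → ℂ} (h : Ext β) : DifferentiableOn ℂ (N β) (ball 0 1) := by
  have h1 : DifferentiableOn ℂ (deriv β) (ball 0 1) := h.diff.deriv isOpen_ball
  unfold N
  fun_prop

theorem mrad_cont {β : ℂ → ℂ} (h : Ext β) :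
    ContinuousOn (mrad β) {z | 0 < ‖z‖ ∧ ‖z‖ < 1} := by
  have hs : {z : ℂ | 0 < ‖z‖ ∧ ‖z‖ < 1} ⊆ ball 0 1 := by
    rintro z ⟨_, hz⟩
    rw [mem_ball, dist_zero_right]
    exact hz
  have h1 : ContinuousOn (N β) {z : ℂ | 0 < ‖z‖ ∧ ‖z‖ < 1} := (N_diff h).continuousOn.mono hs
  have h2 : ContinuousOn (deriv (N β)) {z : ℂ | 0 < ‖z‖ ∧ ‖z‖ < 1} :=
    ((N_diff h).deriv isOpen_ball).continuousOn.mono hs
  have h3 : ∀ z ∈ {z : ℂ | 0 < ‖z‖ ∧ ‖z‖ < 1}, N β z ≠ 0 := fun z hz => h.ne z (hs hz)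
  have h4 : ContinuousOn (fun z : ℂ => z / (‖z‖ : ℂ)) {z : ℂ | 0 < ‖z‖ ∧ ‖z‖ < 1} := by
    apply ContinuousOn.div continuousOn_id
    · exact (Complex.continuous_ofReal.comp continuous_norm).continuousOn
    · rintro z ⟨hz, _⟩
      exact Complex.ofReal_ne_zero.mpr hz.ne'
  have h5 : ContinuousOn (fun z : ℂ => deriv (N β) z / N β z) {z : ℂ | 0 < ‖z‖ ∧ ‖z‖ < 1} :=
    h2.div h1 h3
  have h6 : ContinuousOn (fun z : ℂ => -conj z - (1 - (‖z‖ : ℂ) ^ 2) * (deriv (N β) z / N β z))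
      {z : ℂ | 0 < ‖z‖ ∧ ‖z‖ < 1} := by
    apply ContinuousOn.sub
    · exact (Complex.continuous_conj.neg).continuousOn
    · apply ContinuousOn.mul _ h5
      exact (continuous_const.sub
        ((Complex.continuous_ofReal.comp continuous_norm).pow 2)).continuousOn
  exact h4.mul h6

/-- E3c -/
theorem wf_cont {G : ℂ → ℂ} {L : ℝ} (hG : GLip G L) {β : ℂ → ℂ} (h : Ext β) :
    ContinuousOn (wf G β) {z | 0 < ‖z‖ ∧ ‖z‖ < 1} := by
  have h4 : ContinuousOn (fun z : ℂ => conj (z / (‖z‖ : ℂ))) {z : ℂ | 0 < ‖z‖ ∧ ‖z‖ < 1} := by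
    apply Complex.continuous_conj.comp_continuousOn
    apply ContinuousOn.div continuousOn_id
    · exact (Complex.continuous_ofReal.comp continuous_norm).continuousOn
    · rintro z ⟨hz, _⟩
      exact Complex.ofReal_ne_zero.mpr hz.ne'
  exact h4.mul ((GLip.continuous hG).comp_continuousOn (mrad_cont h))

theorem wf_le_one {G : ℂ → ℂ} {L : ℝ} (hG : GLip G L) (β : ℂ → ℂ) (z : ℂ) :
    ‖wf G β z‖ ≤ 1 := by
  unfold wf
  rw [norm_mul, RCLike.norm_conj, norm_div, Complex.norm_real, norm_norm]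
  have h1 : ‖z‖ / ‖z‖ ≤ 1 := div_self_le_one _
  have h2 := hG.le_one (mrad β z)
  have h3 : 0 ≤ ‖z‖ / ‖z‖ := by (clear * -; positivity)
  (clear * - h2 h1; nlinarith [norm_nonneg (G (mrad β z))])

end Pool.Agent.Helper70.EK

end

section

namespace Pool.Agent.Helper39.Area
end Pool.Agent.Helper39.Area
namespace Pool.Agent.Helper52.EK
end Pool.Agent.Helper52.EK

set_option autoImplicit false

open Complex MeasureTheory Metric Set

open scoped Real ComplexConjugate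

namespace Pool.Agent.Helper70.EK

open Pool.Agent.Helper39.Area Pool.Agent.Helper52.EK

/-- unimodular factor between the frames -/
noncomputable def ph (Z : ℂ) : ℂ := ((‖I + Z‖ / ‖I - Z‖ : ℝ) : ℂ) * ((I - Z) / (I - conj Z))

theorem norm_sub_conj (Z : ℂ) : ‖I - conj Z‖ = ‖I + Z‖ := by
  have h : I - conj Z = -(conj (I + Z)) := by
    rw [map_add, Complex.conj_I]; ring
  rw [h, norm_neg, RCLike.norm_conj]

theorem low (Z : ℂ) (hZ : ‖Z‖ ≤ 1 / 2) : 1 / 2 ≤ ‖I + Z‖ ∧ 1 / 2 ≤ ‖I - Z‖ ∧ ‖I + Z‖ ≤ 3 / 2 ∧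
    ‖I - Z‖ ≤ 3 / 2 := by
  have h1 : ‖I‖ = 1 := Complex.norm_I
  have h2 := norm_add_le I Z
  have h3 := norm_sub_le I Z
  have h4 : ‖I‖ ≤ ‖I + Z‖ + ‖Z‖ := by
    have := norm_sub_le (I + Z) Z
    simpa using this
  have h5 : ‖I‖ ≤ ‖I - Z‖ + ‖Z‖ := by
    have := norm_add_le (I - Z) Z
    simpa using this
  refine ⟨?_, ?_, ?_, ?_⟩ <;> (clear * - hZ h1 h4 h5 h2 h3; linarith only [hZ, h1, h4, h5, h2, h3])

theorem norm_ph {Z : ℂ} (hZ : ‖Z‖ ≤ 1 / 2) : ‖ph Z‖ = 1 := by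
  obtain ⟨h1, h2, _, _⟩ := low Z hZ
  unfold ph
  rw [norm_mul, norm_div, norm_sub_conj, Complex.norm_real, norm_div, norm_norm, norm_norm]
  have h3 : ‖I + Z‖ ≠ 0 := by (clear * - h1; linarith only [h1])
  have h4 : ‖I - Z‖ ≠ 0 := by (clear * - h2; linarith only [h2])
  (clear * - h3 h4; field_simp)

theorem ph_sub_one {Z : ℂ} (hZ : ‖Z‖ ≤ 1 / 2) : ‖ph Z - 1‖ ≤ 16 * ‖Z‖ := by
  obtain ⟨h1, h2, h3, h4⟩ := low Z hZ
  set r : ℝ := ‖I + Z‖ / ‖I - Z‖ with hr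
  set q : ℂ := (I - Z) / (I - conj Z) with hq
  have e1 : ph Z - 1 = (r : ℂ) * (q - 1) + ((r - 1 : ℝ) : ℂ) := by
    have e0' : ph Z = (r : ℂ) * q := rfl
    rw [e0']
    push_cast
    ring
  have e2 : |r| ≤ 3 := by
    rw [abs_of_nonneg (by (clear * - h1 h2; positivity)), hr, div_le_iff₀ (by linarith only [h2])]
    linarith only [h2, h3]
  have e3 : |r - 1| ≤ 4 * ‖Z‖ := by
    have h5 : r - 1 = (‖I + Z‖ - ‖I - Z‖) / ‖I - Z‖ := by
      rw [hr]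
      have : ‖I - Z‖ ≠ 0 := by linarith only [h2]
      (clear * - this; field_simp)
    have h6 : |‖I + Z‖ - ‖I - Z‖| ≤ 2 * ‖Z‖ := by
      have h7 := abs_norm_sub_norm_le (I + Z) (I - Z)
      have h8 : I + Z - (I - Z) = 2 * Z := by ring
      rw [h8, norm_mul] at h7
      simpa using h7
    rw [h5, abs_div, abs_of_nonneg (norm_nonneg (I - Z)), div_le_iff₀ (by (clear * - h2; linarith only [h2]))]
    (clear * - h6 h2; nlinarith only [norm_nonneg Z, h2, h6])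
  have e4 : ‖q - 1‖ ≤ 4 * ‖Z‖ := by
    have h5 : ‖I - conj Z‖ = ‖I + Z‖ := norm_sub_conj Z
    have h6 : I - conj Z ≠ 0 := by
      intro h
      rw [h, norm_zero] at h5
      linarith only [h1, h5]
    have h7 : q - 1 = (conj Z - Z) / (I - conj Z) := by
      rw [hq]
      field_simp
      ring
    rw [h7, norm_div, h5, div_le_iff₀ (by linarith only [h1])]
    have h8 : ‖conj Z - Z‖ ≤ 2 * ‖Z‖ := by
      have := norm_sub_le (conj Z) Z
      rw [RCLike.norm_conj] at this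
      linarith only [this]
    nlinarith only [norm_nonneg Z, h1, h8]
  rw [e1]
  have h9 := norm_add_le ((r : ℂ) * (q - 1)) ((r - 1 : ℝ) : ℂ)
  rw [norm_mul, Complex.norm_real, Complex.norm_real, Real.norm_eq_abs, Real.norm_eq_abs] at h9
  have h10 : |r| * ‖q - 1‖ ≤ 3 * (4 * ‖Z‖) :=
    mul_le_mul e2 e4 (norm_nonneg _) (by norm_num)
  linarith only [e3, h9, h10]

theorem err_le {Z : ℂ} (hZ : ‖Z‖ ≤ 1 / 2) :
    ‖2 * I * Z.im / (Z + I) + 4 * I * Z.im / (Z - I)‖ ≤ 12 * ‖Z‖ := by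
  obtain ⟨h1, h2, _, _⟩ := low Z hZ
  have h3 : ‖(Z.im : ℂ)‖ ≤ ‖Z‖ := by
    rw [Complex.norm_real, Real.norm_eq_abs]
    exact Complex.abs_im_le_norm Z
  have h4 : ‖Z + I‖ = ‖I + Z‖ := by rw [add_comm]
  have h5 : ‖Z - I‖ = ‖I - Z‖ := norm_sub_rev Z I
  have a1 : ‖2 * I * (Z.im : ℂ) / (Z + I)‖ ≤ 4 * ‖Z‖ := by
    rw [norm_div, norm_mul, norm_mul, h4, Complex.norm_I, div_le_iff₀ (by (clear * - h1; linarith only [h1]))]
    have : ‖(2:ℂ)‖ = 2 := by simp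
    rw [this]
    (clear * - h3 h1; nlinarith only [norm_nonneg Z, h1, h3])
  have a2 : ‖4 * I * (Z.im : ℂ) / (Z - I)‖ ≤ 8 * ‖Z‖ := by
    rw [norm_div, norm_mul, norm_mul, h5, Complex.norm_I, div_le_iff₀ (by linarith only [h2])]
    have : ‖(4:ℂ)‖ = 4 := by simp
    rw [this]
    nlinarith only [norm_nonneg Z, h2, h3]
  have h6 := norm_add_le (2 * I * (Z.im : ℂ) / (Z + I)) (4 * I * (Z.im : ℂ) / (Z - I))
  linarith only [a1, a2, h6]

theorem norm_e0 (η : ℝ) : ‖e0 (Real.sin η) (Real.cos η)‖ = 1 := by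
  unfold e0
  rw [norm_neg, norm_pow]
  have h : ‖((Real.cos η : ℝ) : ℂ) - (Real.sin η : ℝ) * I‖ ^ 2 = 1 := by
    rw [← Complex.normSq_eq_norm_sq, Complex.normSq_apply]
    have h1 : (((Real.cos η : ℝ) : ℂ) - (Real.sin η : ℝ) * I).re = Real.cos η := by
      simp only [Complex.sub_re, Complex.ofReal_re, Complex.mul_re, Complex.I_re, Complex.I_im,
        Complex.ofReal_im]
      ring
    have h2 : (((Real.cos η : ℝ) : ℂ) - (Real.sin η : ℝ) * I).im = -Real.sin η := by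
      simp only [Complex.sub_im, Complex.ofReal_re, Complex.mul_im, Complex.I_re, Complex.I_im,
        Complex.ofReal_im]
      ring
    rw [h1, h2]
    linarith only [Real.sin_sq_add_cos_sq η]
  exact h

theorem norm_E (ξ η : ℝ) : ‖Complex.exp (pt ξ η)‖ = Real.exp ξ := by
  rw [Complex.norm_exp]
  congr 1
  simp [pt]

theorem im_E (ξ η : ℝ) : (Complex.exp (pt ξ η)).im = Real.exp ξ * Real.sin η := by
  rw [Complex.exp_im]
  simp [pt]

/-- the abstract comparison -/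
theorem core {G : ℂ → ℂ} {L : ℝ} (hG : GLip G L) {p e m err : ℂ} {δ : ℝ} (hp : ‖p‖ = 1)
    (he : ‖e‖ = 1) (h1 : ‖p - 1‖ ≤ 16 * δ) (h2 : ‖err‖ ≤ 12 * δ) :
    ‖p * e - G (p * (m + err))‖ ^ 2 ≤ ‖G m - e‖ ^ 2 + 4 * (16 + 28 * L) * δ := by
  have hL := GLip.nonneg hG
  have a1 : ‖p * e - e‖ ≤ 16 * δ := by
    have : p * e - e = (p - 1) * e := by ring
    rw [this, norm_mul, he, mul_one]
    exact h1
  have a2 : ‖G m - G (m + err)‖ ≤ L * (12 * δ) := by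
    have h3 := hG.lip m (m + err)
    have h4 : ‖m - (m + err)‖ = ‖err‖ := by
      have : m - (m + err) = -err := by ring
      rw [this, norm_neg]
    rw [h4] at h3
    exact h3.trans (mul_le_mul_of_nonneg_left h2 hL)
  have a3 : ‖G (p * (m + err)) - G (m + err)‖ ≤ L * (16 * δ) :=
    (hG.rot p (m + err) hp).trans (mul_le_mul_of_nonneg_left h1 hL)
  have a4 : ‖p * e - G (p * (m + err))‖ ≤ ‖G m - e‖ + (16 + 28 * L) * δ := by
    have e1 : p * e - G (p * (m + err)) = (p * e - e) + (-(G m - e)) + (G m - G (m + err))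
        + (-(G (p * (m + err)) - G (m + err))) := by ring
    rw [e1]
    have b1 := norm_add_le ((p * e - e) + (-(G m - e)) + (G m - G (m + err)))
      (-(G (p * (m + err)) - G (m + err)))
    have b2 := norm_add_le ((p * e - e) + (-(G m - e))) (G m - G (m + err))
    have b3 := norm_add_le (p * e - e) (-(G m - e))
    rw [norm_neg] at b1 b3
    (clear * - a1 a2 a3 b1 b2 b3; linarith only [a1, a2, a3, b1, b2, b3])
  have a5 : ‖p * e - G (p * (m + err))‖ ≤ 2 := by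
    have b1 := norm_sub_le (p * e) (G (p * (m + err)))
    rw [norm_mul, hp, he] at b1
    have b2 := hG.le_one (p * (m + err))
    linarith only [b1, b2]
  have a6 : ‖G m - e‖ ≤ 2 := by
    have b1 := norm_sub_le (G m) e
    rw [he] at b1
    have b2 := hG.le_one m
    linarith only [b1, b2]
  have hδ : 0 ≤ (16 + 28 * L) * δ := by
    have : 0 ≤ δ := by
      have := norm_nonneg (p - 1)
      linarith only [h1, this]
    (clear * - hL this; positivity)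
  have c1 := norm_nonneg (p * e - G (p * (m + err)))
  have c2 := norm_nonneg (G m - e)
  nlinarith only [a4, a5, a6, hδ, c1, c2]

theorem zf_norm {ξ η : ℝ} (h0 : 0 < η) (h1 : η < π) (hξ : ξ < 0) :
    0 < ‖zf (pt ξ η)‖ ∧ ‖zf (pt ξ η)‖ < 1 := by
  set E := Complex.exp (pt ξ η) with hE
  have h2 : ‖E‖ < 1 := by
    rw [hE, norm_E]
    rw [← Real.exp_zero]
    exact Real.exp_lt_exp.mpr hξ
  have h3 : 0 < E.im := by
    rw [hE, im_E]
    exact mul_pos (Real.exp_pos _) (Real.sin_pos_of_pos_of_lt_pi h0 h1)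
  have h4 : I - E ≠ 0 := by
    intro h
    have : E = I := (sub_eq_zero.mp h).symm
    rw [this, Complex.norm_I] at h2
    exact lt_irrefl _ h2
  have h5 : I + E ≠ 0 := by
    intro h
    have : E = -I := by linear_combination h
    rw [this, norm_neg, Complex.norm_I] at h2
    exact lt_irrefl _ h2
  unfold zf
  rw [← hE, norm_div]
  refine ⟨div_pos (norm_pos_iff.mpr h4) (norm_pos_iff.mpr h5), ?_⟩
  rw [div_lt_one (norm_pos_iff.mpr h5)]
  have h6 : ‖I - E‖ ^ 2 < ‖I + E‖ ^ 2 := by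
    rw [← Complex.normSq_eq_norm_sq, ← Complex.normSq_eq_norm_sq, Complex.normSq_apply,
      Complex.normSq_apply]
    simp only [Complex.sub_re, Complex.I_re, Complex.sub_im, Complex.I_im, Complex.add_re,
      Complex.add_im]
    linarith only [h3]
  exact lt_of_pow_lt_pow_left₀ 2 (norm_nonneg _) h6

theorem wf_term {w g : ℂ} {z : ℂ} (hz : 0 < ‖z‖) :
    ‖w - conj (z / (‖z‖ : ℂ)) * g‖ = ‖(z / (‖z‖ : ℂ)) * w - g‖ := by
  set u : ℂ := z / (‖z‖ : ℂ) with hu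
  have h1 : ‖u‖ = 1 := by
    rw [hu, norm_div, Complex.norm_real, norm_norm]
    exact div_self hz.ne'
  have h2 : u * conj u = 1 := by
    rw [Complex.mul_conj, Complex.normSq_eq_norm_sq, h1]
    simp
  have h3 : u * w - g = u * (w - conj u * g) := by
    linear_combination g * h2
  rw [h3, norm_mul, h1, one_mul]

end Pool.Agent.Helper70.EK

end

section

namespace Pool.Agent.Helper39.Area
end Pool.Agent.Helper39.Area
namespace Pool.Agent.Helper52.EK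
end Pool.Agent.Helper52.EK

set_option autoImplicit false

open Complex MeasureTheory Metric Set

open scoped Real ComplexConjugate

namespace Pool.Agent.Helper70.EK

open Pool.Agent.Helper39.Area Pool.Agent.Helper52.EK

theorem integrableOn_strip {F : ℝ × ℝ → ℝ} {x₁ x₂ M : ℝ}
    (hc : ContinuousOn F (Ioc x₁ x₂ ×ˢ Ioo 0 π)) (hb : ∀ p ∈ Ioc x₁ x₂ ×ˢ Ioo 0 π, ‖F p‖ ≤ M) :
    IntegrableOn F (Ioc x₁ x₂ ×ˢ Ioo 0 π) := by
  have hm : MeasurableSet (Ioc x₁ x₂ ×ˢ Ioo 0 π) := measurableSet_Ioc.prod measurableSet_Ioo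
  have hf : volume (Ioc x₁ x₂ ×ˢ Ioo 0 π) ≠ ⊤ := by
    rw [Measure.volume_eq_prod, Measure.prod_prod, Real.volume_Ioc, Real.volume_Ioo]
    exact ENNReal.mul_ne_top ENNReal.ofReal_ne_top ENNReal.ofReal_ne_top
  have : IsFiniteMeasure (volume.restrict (Ioc x₁ x₂ ×ˢ Ioo 0 π)) := by
    refine ⟨?_⟩
    rw [Measure.restrict_apply_univ]
    exact hf.lt_top
  exact Integrable.of_bound (hc.aestronglyMeasurable hm) M
    ((ae_restrict_iff' hm).mpr (Filter.Eventually.of_forall hb))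

theorem II_eq {F : ℝ → ℝ → ℝ} {x₁ x₂ : ℝ} (h : x₁ ≤ x₂)
    (hF : IntegrableOn (fun p : ℝ × ℝ => F p.1 p.2) (Ioc x₁ x₂ ×ˢ Ioo 0 π)) :
    II x₁ x₂ F = ∫ p in Ioc x₁ x₂ ×ˢ Ioo 0 π, F p.1 p.2 := by
  unfold II
  rw [Measure.volume_eq_prod] at hF ⊢
  rw [intervalIntegral.integral_of_le h, setIntegral_prod _ hF]
  apply setIntegral_congr_fun measurableSet_Ioc
  intro ξ _
  change ∫ η in (0:ℝ)..π, F ξ η = _
  rw [intervalIntegral.integral_of_le Real.pi_pos.le, integral_Ioc_eq_integral_Ioo]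

theorem II_exp {K : ℝ} (x₁ x₂ : ℝ) : II x₁ x₂ (fun ξ _ => K * Real.exp ξ) =
    K * π * (Real.exp x₂ - Real.exp x₁) := by
  unfold II
  have h : ∀ ξ : ℝ, ∫ _ in (0:ℝ)..π, K * Real.exp ξ = K * π * Real.exp ξ := by
    intro ξ
    rw [intervalIntegral.integral_const]
    simp only [smul_eq_mul, sub_zero]
    ring
  simp only [h]
  rw [intervalIntegral.integral_const_mul, integral_exp]

theorem II_le {F₁ F₂ : ℝ → ℝ → ℝ} {x₁ x₂ K M : ℝ} (h : x₁ ≤ x₂) (hx : x₂ ≤ 0) (hK : 0 ≤ K)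
    (c₁ : ContinuousOn (fun p : ℝ × ℝ => F₁ p.1 p.2) (Ioc x₁ x₂ ×ˢ Ioo 0 π))
    (c₂ : ContinuousOn (fun p : ℝ × ℝ => F₂ p.1 p.2) (Ioc x₁ x₂ ×ˢ Ioo 0 π))
    (b₁ : ∀ p ∈ Ioc x₁ x₂ ×ˢ Ioo 0 π, ‖F₁ p.1 p.2‖ ≤ M)
    (b₂ : ∀ p ∈ Ioc x₁ x₂ ×ˢ Ioo 0 π, ‖F₂ p.1 p.2‖ ≤ M)
    (hle : ∀ p ∈ Ioc x₁ x₂ ×ˢ Ioo 0 π, F₁ p.1 p.2 ≤ F₂ p.1 p.2 + K * Real.exp p.1) :
    II x₁ x₂ F₁ ≤ II x₁ x₂ F₂ + K * π := by
  have i₁ := integrableOn_strip c₁ b₁
  have i₂ := integrableOn_strip c₂ b₂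
  have c₃ : ContinuousOn (fun p : ℝ × ℝ => K * Real.exp p.1) (Ioc x₁ x₂ ×ˢ Ioo 0 π) := by
    apply Continuous.continuousOn
    exact continuous_const.mul (Real.continuous_exp.comp continuous_fst)
  have b₃ : ∀ p ∈ Ioc x₁ x₂ ×ˢ Ioo 0 π, ‖K * Real.exp p.1‖ ≤ K := by
    rintro ⟨ξ, η⟩ ⟨hξ, _⟩
    have h1 : Real.exp ξ ≤ 1 := by
      rw [← Real.exp_zero]
      exact Real.exp_le_exp.mpr (hξ.2.trans hx)
    have h2 := Real.exp_pos ξ
    change ‖K * Real.exp ξ‖ ≤ K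
    rw [Real.norm_eq_abs, abs_of_nonneg (by (clear * - hK; positivity))]
    nlinarith only [hK, h1]
  have i₃ := integrableOn_strip c₃ b₃
  rw [II_eq h i₁, II_eq h i₂]
  have h3 : II x₁ x₂ (fun ξ _ => K * Real.exp ξ) ≤ K * π := by
    rw [II_exp]
    have h1 : Real.exp x₂ ≤ 1 := by
      rw [← Real.exp_zero]
      exact Real.exp_le_exp.mpr hx
    have h2 := Real.exp_pos x₁
    have h4 : 0 ≤ K * π := mul_nonneg hK Real.pi_pos.le
    (clear * - h1 h4 h2; nlinarith only [h1, h2, h4])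
  rw [II_eq (F := fun ξ _ => K * Real.exp ξ) h i₃] at h3
  have hm : MeasurableSet (Ioc x₁ x₂ ×ˢ Ioo 0 π) := measurableSet_Ioc.prod measurableSet_Ioo
  have h4 : ∫ p in Ioc x₁ x₂ ×ˢ Ioo 0 π, F₁ p.1 p.2 ≤
      ∫ p in Ioc x₁ x₂ ×ˢ Ioo 0 π, (F₂ p.1 p.2 + K * Real.exp p.1) :=
    setIntegral_mono_on i₁ (i₂.add i₃) hm hle
  rw [integral_add i₂ i₃] at h4
  linarith

theorem continuous_pt : Continuous (fun p : ℝ × ℝ => pt p.1 p.2) := by
  unfold pt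
  fun_prop

theorem zf_contOn {x₁ x₂ : ℝ} (hx : x₂ < 0) :
    ContinuousOn (fun p : ℝ × ℝ => zf (pt p.1 p.2)) (Ioc x₁ x₂ ×ˢ Ioo 0 π) := by
  have h1 : Continuous (fun p : ℝ × ℝ => Complex.exp (pt p.1 p.2)) :=
    Complex.continuous_exp.comp continuous_pt
  unfold zf
  apply ContinuousOn.div
  · exact (continuous_const.sub h1).continuousOn
  · exact (continuous_const.add h1).continuousOn
  · rintro ⟨ξ, η⟩ ⟨hξ, _⟩ h
    have h2 : Complex.exp (pt ξ η) = -I := by linear_combination h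
    have h3 := norm_E ξ η
    rw [h2, norm_neg, Complex.norm_I] at h3
    have h4 : Real.exp ξ < 1 := by
      rw [← Real.exp_zero]
      exact Real.exp_lt_exp.mpr (lt_of_le_of_lt hξ.2 hx)
    linarith only [h3, h4]

theorem zf_mapsTo {x₁ x₂ : ℝ} (hx : x₂ < 0) :
    MapsTo (fun p : ℝ × ℝ => zf (pt p.1 p.2)) (Ioc x₁ x₂ ×ˢ Ioo 0 π)
      {z | 0 < ‖z‖ ∧ ‖z‖ < 1} := by
  rintro ⟨ξ, η⟩ ⟨hξ, hη⟩
  exact zf_norm hη.1 hη.2 (lt_of_le_of_lt hξ.2 hx)

theorem F1_contOn {w : ℂ → ℂ} (hw : ContinuousOn w {z | 0 < ‖z‖ ∧ ‖z‖ < 1}) {x₁ x₂ : ℝ}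
    (hx : x₂ < 0) :
    ContinuousOn (fun p : ℝ × ℝ => ‖ee 1 (zf (pt p.1 p.2)) - w (zf (pt p.1 p.2))‖ ^ 2)
      (Ioc x₁ x₂ ×ˢ Ioo 0 π) := by
  have h1 := zf_contOn (x₁ := x₁) hx
  have h2 : ContinuousOn (fun p : ℝ × ℝ => w (zf (pt p.1 p.2))) (Ioc x₁ x₂ ×ˢ Ioo 0 π) :=
    hw.comp h1 (zf_mapsTo hx)
  have h3 : ContinuousOn (fun p : ℝ × ℝ => ee 1 (zf (pt p.1 p.2))) (Ioc x₁ x₂ ×ˢ Ioo 0 π) := by
    unfold ee
    apply ContinuousOn.div
    · apply continuousOn_const.sub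
      apply ContinuousOn.mul _ continuousOn_const
      exact Complex.continuous_conj.comp_continuousOn h1
    · exact continuousOn_const.sub h1
    · intro p hp h
      have h4 := (zf_mapsTo hx hp).2
      have h5 : zf (pt p.1 p.2) = 1 := (sub_eq_zero.mp h).symm
      change ‖zf (pt p.1 p.2)‖ < 1 at h4
      rw [h5, norm_one] at h4
      exact lt_irrefl _ h4
  exact (h3.sub h2).norm.pow 2

theorem F2_contOn {G : ℂ → ℂ} {L : ℝ} (hG : GLip G L) {X : ℂ → ℂ} {x₁ x₂ : ℝ}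
    (hX : NiceX X x₁ x₂) :
    ContinuousOn (fun p : ℝ × ℝ => TG G (X (pt p.1 p.2)) (deriv X (pt p.1 p.2)) (Real.sin p.2)
      (Real.cos p.2)) (Ioc x₁ x₂ ×ˢ Ioo 0 π) := by
  have hmap : MapsTo (fun p : ℝ × ℝ => pt p.1 p.2) (Ioc x₁ x₂ ×ˢ Ioo 0 π) (Rect x₁ x₂) := by
    rintro ⟨ξ, η⟩ ⟨hξ, hη⟩
    change pt ξ η ∈ Rect x₁ x₂
    unfold Rect
    rw [Complex.mem_reProdIm]
    have e1 : (pt ξ η).re = ξ := by simp [pt]
    have e2 : (pt ξ η).im = η := by simp [pt]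
    rw [e1, e2]
    exact ⟨⟨hξ.1.le, hξ.2⟩, ⟨hη.1.le, hη.2.le⟩⟩
  have h1 : ContinuousOn (fun p : ℝ × ℝ => X (pt p.1 p.2)) (Ioc x₁ x₂ ×ˢ Ioo 0 π) :=
    hX.an.continuousOn.comp continuous_pt.continuousOn hmap
  have h2 : ContinuousOn (fun p : ℝ × ℝ => deriv X (pt p.1 p.2)) (Ioc x₁ x₂ ×ˢ Ioo 0 π) :=
    hX.an.deriv.continuousOn.comp continuous_pt.continuousOn hmap
  have h3 : ContinuousOn (fun p : ℝ × ℝ => deriv X (pt p.1 p.2) / X (pt p.1 p.2))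
      (Ioc x₁ x₂ ×ˢ Ioo 0 π) := h2.div h1 (fun p hp => hX.ne _ (hmap hp))
  have h4 : ContinuousOn (fun p : ℝ × ℝ => e0 (Real.sin p.2) (Real.cos p.2))
      (Ioc x₁ x₂ ×ˢ Ioo 0 π) := by
    apply Continuous.continuousOn
    unfold e0
    fun_prop
  have h5 : ContinuousOn (fun p : ℝ × ℝ => mX (X (pt p.1 p.2)) (deriv X (pt p.1 p.2))
      (Real.sin p.2) (Real.cos p.2)) (Ioc x₁ x₂ ×ˢ Ioo 0 π) := by
    unfold mX
    exact ((continuousOn_const.add h4).mul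
      (((continuousOn_const.mul h1).sub continuousOn_const).add h3)).sub continuousOn_const
  unfold TG
  exact (((GLip.continuous hG).comp_continuousOn h5).sub h4).norm.pow 2

theorem norm_ee {z : ℂ} (hz : ‖z‖ < 1) : ‖ee 1 z‖ = 1 := by
  unfold ee
  have h1 : (1 : ℂ) - conj z * 1 = conj (1 - z) := by
    rw [map_sub, map_one, mul_one]
  rw [h1, norm_div, RCLike.norm_conj]
  have h2 : (1 : ℂ) - z ≠ 0 := by
    intro h
    have h5 : z = 1 := (sub_eq_zero.mp h).symm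
    rw [h5, norm_one] at hz
    exact lt_irrefl _ hz
  exact div_self (norm_ne_zero_iff.mpr h2)

/-- E3 with the inputs E1c, E3a1, E3a2, E3b as hypotheses -/
theorem E3_of
    (E1c : ∀ {β : ℂ → ℂ} {R : ℝ} (_ : ExtR β R) {a : ℝ} (_ : 0 < a) (_ : a < 1) {x₁ x₂ : ℝ}
      (_ : Real.log (tau a) < x₁) (_ : x₂ < 0), NiceX (Xf β a) x₁ x₂)
    (E3a1 : ∀ {ξ η : ℝ} (_ : 0 < η) (_ : η < π) (_ : ξ < 0),
      (zf (pt ξ η) / ‖zf (pt ξ η)‖) * ee 1 (zf (pt ξ η)) =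
        ph (Complex.exp (pt ξ η)) * e0 (Real.sin η) (Real.cos η))
    (E3a2 : ∀ {β : ℂ → ℂ} (_ : Ext β) {a : ℝ} (_ : 0 < a) (_ : a < 1) {ξ η : ℝ} (_ : 0 < η)
      (_ : η < π) (_ : ξ < 0) (_ : Real.log (tau a) < ξ),
      mrad β (zf (pt ξ η)) = ph (Complex.exp (pt ξ η)) *
        (mX (Xf β a (pt ξ η)) (deriv (Xf β a) (pt ξ η)) (Real.sin η) (Real.cos η) +
          2 * I * (Complex.exp (pt ξ η)).im / (Complex.exp (pt ξ η) + I) +
          4 * I * (Complex.exp (pt ξ η)).im / (Complex.exp (pt ξ η) - I)))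
    (E3b : ∀ A : ℝ, 1 ≤ A → ∃ C : ℝ, ∀ (w : ℂ → ℂ) (a : ℝ),
      ContinuousOn w {z | 0 < ‖z‖ ∧ ‖z‖ < 1} → (∀ z, ‖w z‖ ≤ 1) → Real.exp (-1) < a → a < 1 →
      Real.log (tau a) + A ≤ -A →
      Kf w 1 (-1) (Real.log a) ≤ π⁻¹ * II (Real.log (tau a) + A) (-A)
        (fun ξ η => ‖ee 1 (zf (pt ξ η)) - w (zf (pt ξ η))‖ ^ 2) + C)
    {G : ℂ → ℂ} {L : ℝ} (hG : GLip G L) : ∀ A : ℝ, 1 ≤ A → ∃ C : ℝ,
    ∀ (β : ℂ → ℂ) (R a : ℝ), ExtR β R → Real.exp (-1) < a → a < 1 →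
    Real.log (tau a) + A ≤ -A →
    Kf (wf G β) 1 (-1) (Real.log a) ≤ π⁻¹ * II (Real.log (tau a) + A) (-A)
      (fun ξ η => TG G (Xf β a (pt ξ η)) (deriv (Xf β a) (pt ξ η)) (Real.sin η) (Real.cos η))
      + C := by
  intro A hA
  obtain ⟨C, hC⟩ := E3b A hA
  refine ⟨C + 4 * (16 + 28 * L), ?_⟩
  intro β R a hβ ha ha1 hx
  have ha0 : 0 < a := (Real.exp_pos _).trans ha
  have hw := wf_cont hG hβ.toExt
  have h1 := hC (wf G β) a hw (wf_le_one hG β) ha ha1 hx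
  have hL := GLip.nonneg hG
  set x₁ := Real.log (tau a) + A with hx₁
  have hx₂ : -A < 0 := by (clear * - hA; linarith only [hA])
  have hxx : Real.log (tau a) < x₁ := by linarith only [hx₂]
  have hX : NiceX (Xf β a) x₁ (-A) := E1c hβ ha0 ha1 hxx hx₂
  have h2 : II x₁ (-A) (fun ξ η => ‖ee 1 (zf (pt ξ η)) - wf G β (zf (pt ξ η))‖ ^ 2) ≤
      II x₁ (-A) (fun ξ η => TG G (Xf β a (pt ξ η)) (deriv (Xf β a) (pt ξ η)) (Real.sin η)
        (Real.cos η)) + (4 * (16 + 28 * L)) * π := by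
    apply II_le (M := 4) hx hx₂.le (by (clear * - hL; positivity)) (F1_contOn hw hx₂) (F2_contOn hG hX)
    · intro p hp
      have h3 := (zf_mapsTo hx₂ hp).2
      change ‖zf (pt p.1 p.2)‖ < 1 at h3
      have h4 := norm_sub_le (ee 1 (zf (pt p.1 p.2))) (wf G β (zf (pt p.1 p.2)))
      rw [norm_ee h3] at h4
      have h5 := wf_le_one hG β (zf (pt p.1 p.2))
      rw [norm_pow, norm_norm]
      have h6 := norm_nonneg (ee 1 (zf (pt p.1 p.2)) - wf G β (zf (pt p.1 p.2)))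
      nlinarith only [h4, h5, h6]
    · intro p hp
      unfold TG
      rw [norm_pow, norm_norm]
      have h4 := norm_sub_le (G (mX (Xf β a (pt p.1 p.2)) (deriv (Xf β a) (pt p.1 p.2))
        (Real.sin p.2) (Real.cos p.2))) (e0 (Real.sin p.2) (Real.cos p.2))
      rw [norm_e0] at h4
      have h5 := hG.le_one (mX (Xf β a (pt p.1 p.2)) (deriv (Xf β a) (pt p.1 p.2))
        (Real.sin p.2) (Real.cos p.2))
      have h6 := norm_nonneg (G (mX (Xf β a (pt p.1 p.2)) (deriv (Xf β a) (pt p.1 p.2))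
        (Real.sin p.2) (Real.cos p.2)) - e0 (Real.sin p.2) (Real.cos p.2))
      (clear * - h4 h5 h6; nlinarith only [h4, h5, h6])
    · rintro ⟨ξ, η⟩ ⟨hξ, hη⟩
      have hξ' : x₁ < ξ ∧ ξ ≤ -A := hξ
      have hη' : 0 < η ∧ η < π := hη
      have hξ0 : ξ < 0 := by (clear * - hA ha1 ha0 hξ'; linarith [hξ'.2])
      have hz := zf_norm hη'.1 hη'.2 hξ0
      change ‖ee 1 (zf (pt ξ η)) - wf G β (zf (pt ξ η))‖ ^ 2 ≤
        TG G (Xf β a (pt ξ η)) (deriv (Xf β a) (pt ξ η)) (Real.sin η) (Real.cos η) +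
          (4 * (16 + 28 * L)) * Real.exp ξ
      have hE : ‖Complex.exp (pt ξ η)‖ ≤ 1 / 2 := by
        rw [norm_E]
        have h7 : ξ ≤ -1 := by (clear * - hA hξ'; linarith [hξ'.2])
        have h8 : Real.exp ξ ≤ Real.exp (-1) := Real.exp_le_exp.mpr h7
        have h9 : Real.exp (-1) < 0.3678794412 := Real.exp_neg_one_lt_d9
        (clear * - h8 h9; linarith only [h8, h9])
      have h10 := core hG (m := mX (Xf β a (pt ξ η)) (deriv (Xf β a) (pt ξ η)) (Real.sin η)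
        (Real.cos η)) (norm_ph hE) (norm_e0 η) (ph_sub_one hE) (err_le hE)
      rw [norm_E] at h10
      have h11 : ‖ee 1 (zf (pt ξ η)) - wf G β (zf (pt ξ η))‖ =
          ‖ph (Complex.exp (pt ξ η)) * e0 (Real.sin η) (Real.cos η) -
            G (ph (Complex.exp (pt ξ η)) * (mX (Xf β a (pt ξ η)) (deriv (Xf β a) (pt ξ η))
              (Real.sin η) (Real.cos η) +
              (2 * I * (Complex.exp (pt ξ η)).im / (Complex.exp (pt ξ η) + I) +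
              4 * I * (Complex.exp (pt ξ η)).im / (Complex.exp (pt ξ η) - I))))‖ := by
        unfold wf
        rw [wf_term hz.1, E3a1 hη'.1 hη'.2 hξ0,
          E3a2 hβ.toExt ha0 ha1 hη'.1 hη'.2 hξ0 (lt_trans hxx hξ'.1), add_assoc]
      rw [h11]
      exact h10
  have hπ : 0 < π⁻¹ := inv_pos.mpr Real.pi_pos
  have h3 : π⁻¹ * II x₁ (-A) (fun ξ η => ‖ee 1 (zf (pt ξ η)) - wf G β (zf (pt ξ η))‖ ^ 2) ≤
      π⁻¹ * (II x₁ (-A) (fun ξ η => TG G (Xf β a (pt ξ η)) (deriv (Xf β a) (pt ξ η)) (Real.sin η)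
        (Real.cos η)) + (4 * (16 + 28 * L)) * π) := mul_le_mul_of_nonneg_left h2 hπ.le
  have h4 : π⁻¹ * ((4 * (16 + 28 * L)) * π) = 4 * (16 + 28 * L) := by
    (clear * - hL; field_simp)
  rw [mul_add, h4] at h3
  linarith only [h1, h3]

end Pool.Agent.Helper70.EK

end

section

namespace Pool.Agent.Helper39.Area
end Pool.Agent.Helper39.Area
namespace Pool.Agent.Helper52.EK
end Pool.Agent.Helper52.EK

set_option autoImplicit false

open Complex MeasureTheory Metric Set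

open scoped Real ComplexConjugate

namespace Pool.Agent.Helper16.EK

open Pool.Agent.Helper39.Area Pool.Agent.Helper52.EK

theorem tau_pos {a : ℝ} (h0 : 0 < a) (h1 : a < 1) : 0 < tau a := by
  unfold tau
  exact div_pos (by (clear * - h1; linarith only [h1])) (by (clear * - h0; linarith only [h0]))

theorem norm_kap_sub_one {a ξ η : ℝ} (h0 : 0 < a) (h1 : a < 1) (h2 : Real.log (tau a) + 1 ≤ ξ)
    (h3 : ξ ≤ -1) :
    ‖kap a (pt ξ η) - 1‖ ^ 2 ≤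
      8 * (Real.exp (4 * ξ) + 9 * (tau a ^ 4 * Real.exp (-(4 * ξ)))) := by
  have ht : 0 < tau a := tau_pos h0 h1
  set t : ℝ := tau a with htd
  set r : ℝ := Real.exp ξ with hr
  have hr0 : 0 < r := Real.exp_pos _
  have he : (2 : ℝ) ≤ Real.exp 1 := by
    have := Real.add_one_le_exp (1 : ℝ)
    (clear * - this; linarith only [this])
  have htr : 2 * t ≤ r := by
    have h4 : Real.exp (Real.log t + 1) ≤ Real.exp ξ := Real.exp_le_exp.2 h2
    rw [Real.exp_add, Real.exp_log ht] at h4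
    (clear * - h4 he hr0; nlinarith only [hr0, he, h4])
  have hr1 : 2 * r ≤ 1 := by
    have h4 : Real.exp ξ * Real.exp 1 ≤ 1 := by
      rw [← Real.exp_add]
      calc Real.exp (ξ + 1) ≤ Real.exp 0 := Real.exp_le_exp.2 (by (clear * - h3; linarith only [h3]))
        _ = 1 := Real.exp_zero
    (clear * - he h4; nlinarith only [he, h4])
  set Z : ℂ := Complex.exp (pt ξ η) with hZ
  have hZn : ‖Z‖ = r := by
    rw [hZ, Complex.norm_exp]
    simp [pt, hr]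
  have hZ2 : ‖Z ^ 2‖ = r ^ 2 := by rw [norm_pow, hZn]
  have htn : ‖((t : ℂ)) ^ 2‖ = t ^ 2 := by
    rw [norm_pow, Complex.norm_real, Real.norm_eq_abs, sq_abs]
  have hA : 3 / 4 * r ^ 2 ≤ ‖Z ^ 2 + (t : ℂ) ^ 2‖ := by
    have h5 : ‖Z ^ 2‖ - ‖(t : ℂ) ^ 2‖ ≤ ‖Z ^ 2 + (t : ℂ) ^ 2‖ := by
      have := norm_sub_norm_le (Z ^ 2) (-((t : ℂ) ^ 2))
      rwa [norm_neg, sub_neg_eq_add] at this
    rw [hZ2, htn] at h5
    (clear * - h5 ht htr; nlinarith only [ht, htr, h5])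
  have hB : 3 / 4 ≤ ‖Z ^ 2 + 1‖ := by
    have h5 : ‖(1 : ℂ)‖ - ‖Z ^ 2‖ ≤ ‖Z ^ 2 + 1‖ := by
      have := norm_sub_norm_le (1 : ℂ) (-(Z ^ 2))
      rw [norm_neg, sub_neg_eq_add, add_comm] at this
      exact this
    rw [hZ2, norm_one] at h5
    (clear * - hr1 h5 hr0; nlinarith only [hr0, hr1, h5])
  have hA0 : Z ^ 2 + (t : ℂ) ^ 2 ≠ 0 := by
    intro h
    rw [h, norm_zero] at hA
    (clear * - hA hr0; nlinarith only [hr0, hA])
  have hB0 : Z ^ 2 + 1 ≠ 0 := by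
    intro h
    rw [h, norm_zero] at hB
    linarith only [hB]
  have hk : kap a (pt ξ η) - 1 =
      -(Z ^ 4 + 2 * (t : ℂ) ^ 2 * Z ^ 2 + (t : ℂ) ^ 2) /
        ((Z ^ 2 + (t : ℂ) ^ 2) * (Z ^ 2 + 1)) := by
    unfold kap
    rw [← hZ, ← htd]
    field_simp
    ring
  have hnum : ‖-(Z ^ 4 + 2 * (t : ℂ) ^ 2 * Z ^ 2 + (t : ℂ) ^ 2)‖ ≤
      r ^ 4 + 2 * t ^ 2 * r ^ 2 + t ^ 2 := by
    rw [norm_neg]
    calc ‖Z ^ 4 + 2 * (t : ℂ) ^ 2 * Z ^ 2 + (t : ℂ) ^ 2‖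
        ≤ ‖Z ^ 4‖ + ‖2 * (t : ℂ) ^ 2 * Z ^ 2‖ + ‖(t : ℂ) ^ 2‖ := norm_add₃_le
      _ = r ^ 4 + 2 * t ^ 2 * r ^ 2 + t ^ 2 := by
          rw [norm_mul, norm_mul, htn, hZ2, norm_pow, hZn]
          simp
  have hden : 9 / 16 * r ^ 2 ≤ ‖(Z ^ 2 + (t : ℂ) ^ 2) * (Z ^ 2 + 1)‖ := by
    rw [norm_mul]
    (clear * - hA hB; nlinarith only [hA, hB])
  have hq : ‖kap a (pt ξ η) - 1‖ ≤ 2 * (r ^ 2 + 3 * (t ^ 2 / r ^ 2)) := by
    rw [hk, norm_div]
    have hr2 : 0 < r ^ 2 := by positivity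
    have hden0 : 0 < ‖(Z ^ 2 + (t : ℂ) ^ 2) * (Z ^ 2 + 1)‖ := by
      refine lt_of_lt_of_le ?_ hden
      positivity
    rw [div_le_iff₀ hden0]
    have h6 : 2 * (r ^ 2 + 3 * (t ^ 2 / r ^ 2)) * (9 / 16 * r ^ 2) ≤
        2 * (r ^ 2 + 3 * (t ^ 2 / r ^ 2)) * ‖(Z ^ 2 + (t : ℂ) ^ 2) * (Z ^ 2 + 1)‖ :=
      mul_le_mul_of_nonneg_left hden (by positivity)
    have h7 : 2 * (r ^ 2 + 3 * (t ^ 2 / r ^ 2)) * (9 / 16 * r ^ 2) =
        9 / 8 * (r ^ 4 + 3 * t ^ 2) := by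
      field_simp
      ring
    have h8 : r ^ 4 + 2 * t ^ 2 * r ^ 2 + t ^ 2 ≤ 9 / 8 * (r ^ 4 + 3 * t ^ 2) := by
      have : t ^ 2 * r ^ 2 ≤ t ^ 2 * 1 := by
        apply mul_le_mul_of_nonneg_left _ (sq_nonneg t)
        nlinarith only [hr0, hr1]
      nlinarith only [this]
    linarith only [hnum, h6, h7, h8]
  have hE1 : Real.exp (4 * ξ) = r ^ 4 := by
    rw [hr, ← Real.exp_nat_mul]
    norm_num
  have hE2 : Real.exp (-(4 * ξ)) = (r ^ 4)⁻¹ := by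
    rw [Real.exp_neg, hE1]
  rw [hE1, hE2]
  calc ‖kap a (pt ξ η) - 1‖ ^ 2 ≤ (2 * (r ^ 2 + 3 * (t ^ 2 / r ^ 2))) ^ 2 :=
        pow_le_pow_left₀ (norm_nonneg _) hq 2
    _ ≤ 8 * (r ^ 4 + 9 * (t ^ 4 * (r ^ 4)⁻¹)) := by
        have h9 : t ^ 4 * (r ^ 4)⁻¹ = (t ^ 2 / r ^ 2) ^ 2 := by
          field_simp
        rw [h9]
        linarith only [sq_nonneg (r ^ 2 - 3 * (t ^ 2 / r ^ 2))]

/-- E1d: the comparison function -/
theorem E1d : ∃ C : ℝ, ∀ a : ℝ, 0 < a → a < 1 → ∀ x₁ x₂ : ℝ, Real.log (tau a) + 1 ≤ x₁ →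
    x₁ ≤ x₂ → x₂ ≤ -1 → II x₁ x₂ (fun ξ η => ‖kap a (pt ξ η) - 1‖ ^ 2) ≤ C := by
  refine ⟨π * (8 * (1 / 4 + 9 * (1 / 4))), fun a h0 h1 x₁ x₂ h2 h12 h3 => ?_⟩
  have ht : 0 < tau a := tau_pos h0 h1
  set t : ℝ := tau a with htd
  have hin : ∀ ξ ∈ Ioc x₁ x₂, (∫ η in (0:ℝ)..π, ‖kap a (pt ξ η) - 1‖ ^ 2) ≤
      π * (8 * (Real.exp (4 * ξ) + 9 * (t ^ 4 * Real.exp (-(4 * ξ))))) := by
    intro ξ hξ
    rw [intervalIntegral.integral_of_le Real.pi_pos.le]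
    have h4 : (∫ η in Ioc 0 π, ‖kap a (pt ξ η) - 1‖ ^ 2) ≤
        ∫ η in Ioc 0 π, (8 * (Real.exp (4 * ξ) + 9 * (t ^ 4 * Real.exp (-(4 * ξ))))) := by
      refine integral_mono_of_nonneg (Filter.Eventually.of_forall fun η => ?_) ?_
        (Filter.Eventually.of_forall fun η => ?_)
      · exact sq_nonneg _
      · exact integrable_const _
      · exact norm_kap_sub_one h0 h1 (h2.trans hξ.1.le) (hξ.2.trans h3)
    refine h4.trans (le_of_eq ?_)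
    rw [setIntegral_const]
    simp [Real.pi_pos.le]
  have hII : II x₁ x₂ (fun ξ η => ‖kap a (pt ξ η) - 1‖ ^ 2) ≤
      ∫ ξ in x₁..x₂, π * (8 * (Real.exp (4 * ξ) + 9 * (t ^ 4 * Real.exp (-(4 * ξ))))) := by
    unfold II
    rw [intervalIntegral.integral_of_le h12, intervalIntegral.integral_of_le h12]
    refine integral_mono_of_nonneg (Filter.Eventually.of_forall fun ξ => ?_) ?_ ?_
    · exact intervalIntegral.integral_nonneg Real.pi_pos.le fun η _ => sq_nonneg _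
    · have hc : Continuous fun ξ : ℝ =>
          π * (8 * (Real.exp (4 * ξ) + 9 * (t ^ 4 * Real.exp (-(4 * ξ))))) := by
        fun_prop
      exact (hc.integrableOn_Icc (a := x₁) (b := x₂)).mono_set Ioc_subset_Icc_self
    · exact (ae_restrict_iff' measurableSet_Ioc).2 (Filter.Eventually.of_forall hin)
  refine hII.trans ?_
  have hd : ∀ ξ : ℝ, HasDerivAt (fun ξ : ℝ => π * (8 * (Real.exp (4 * ξ) / 4 -
      9 * (t ^ 4 * (Real.exp (-(4 * ξ)) / 4)))))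
      (π * (8 * (Real.exp (4 * ξ) + 9 * (t ^ 4 * Real.exp (-(4 * ξ)))))) ξ := by
    intro ξ
    have h5 : HasDerivAt (fun ξ : ℝ => Real.exp (4 * ξ)) (Real.exp (4 * ξ) * 4) ξ := by
      simpa using ((hasDerivAt_id ξ).const_mul 4).exp
    have h6 : HasDerivAt (fun ξ : ℝ => Real.exp (-(4 * ξ))) (Real.exp (-(4 * ξ)) * (-4)) ξ := by
      simpa using (((hasDerivAt_id ξ).const_mul 4).neg).exp
    have h7 := (((h5.div_const 4).sub (((h6.div_const 4).const_mul (t ^ 4)).const_mul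
      9)).const_mul 8).const_mul π
    refine h7.congr_deriv ?_
    ring
  rw [intervalIntegral.integral_eq_sub_of_hasDerivAt (fun ξ _ => hd ξ)]
  · have e1 : Real.exp (4 * x₂) ≤ 1 := by
      rw [← Real.exp_zero]
      exact Real.exp_le_exp.2 (by (clear * - h3; linarith only [h3]))
    have e2 : t ^ 4 * Real.exp (-(4 * x₁)) ≤ 1 := by
      have h8 : t ^ 4 = Real.exp (4 * Real.log t) := by
        rw [mul_comm, Real.exp_mul, Real.exp_log ht]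
        norm_cast
      rw [h8, ← Real.exp_add, ← Real.exp_zero]
      exact Real.exp_le_exp.2 (by (clear * - h0 h1 h2; linarith))
    have e3 : 0 < Real.exp (4 * x₁) := Real.exp_pos _
    have e4 : 0 < t ^ 4 * Real.exp (-(4 * x₂)) := by positivity
    have hpi := Real.pi_pos
    have key : 8 * (Real.exp (4 * x₂) / 4 - 9 * (t ^ 4 * (Real.exp (-(4 * x₂)) / 4))) -
        8 * (Real.exp (4 * x₁) / 4 - 9 * (t ^ 4 * (Real.exp (-(4 * x₁)) / 4))) ≤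
        8 * (1 / 4 + 9 * (1 / 4)) := by
      have e5 : t ^ 4 * (Real.exp (-(4 * x₂)) / 4) = t ^ 4 * Real.exp (-(4 * x₂)) / 4 := by ring
      have e6 : t ^ 4 * (Real.exp (-(4 * x₁)) / 4) = t ^ 4 * Real.exp (-(4 * x₁)) / 4 := by ring
      rw [e5, e6]
      (clear * - e1 e2 e3 e4; linarith only [e1, e2, e3, e4])
    calc _ = π * (8 * (Real.exp (4 * x₂) / 4 - 9 * (t ^ 4 * (Real.exp (-(4 * x₂)) / 4))) -
        8 * (Real.exp (4 * x₁) / 4 - 9 * (t ^ 4 * (Real.exp (-(4 * x₁)) / 4)))) := by ring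
      _ ≤ _ := mul_le_mul_of_nonneg_left key hpi.le
  · have hc : Continuous fun ξ : ℝ =>
        π * (8 * (Real.exp (4 * ξ) + 9 * (t ^ 4 * Real.exp (-(4 * ξ))))) := by
      fun_prop
    exact hc.intervalIntegrable _ _

end Pool.Agent.Helper16.EK

end

section

namespace Pool.Agent.Helper52.EK
end Pool.Agent.Helper52.EK

/-!
E1d: the comparison function `kap` is close to `1` in the mean square.
-/

set_option autoImplicit false

open Complex MeasureTheory Metric Set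

open scoped Real ComplexConjugate

namespace Pool.Agent.Helper46.EK

open Pool.Agent.Helper52.EK

lemma tau_pos {a : ℝ} (h0 : 0 < a) (h1 : a < 1) : 0 < tau a := by
  unfold tau
  exact div_pos (by (clear * - h1; linarith)) (by linarith)

lemma norm_exp_pt (ξ η : ℝ) : ‖Complex.exp (pt ξ η)‖ = Real.exp ξ := by
  rw [Complex.norm_exp]
  simp [pt]

lemma kap_sub_one {τ : ℂ} {Z : ℂ} (h1 : Z ^ 2 + τ ^ 2 ≠ 0) (h2 : Z ^ 2 + 1 ≠ 0) :
    Z ^ 2 * (1 - τ ^ 2) / ((Z ^ 2 + τ ^ 2) * (Z ^ 2 + 1)) - 1 =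
      -((Z ^ 2) ^ 2 + 2 * τ ^ 2 * Z ^ 2 + τ ^ 2) / ((Z ^ 2 + τ ^ 2) * (Z ^ 2 + 1)) := by
  field_simp
  ring

lemma exp_neg_two_lt : Real.exp (-2) < 1 / 4 := by
  have h1 : (2.7182818283 : ℝ) < Real.exp 1 := Real.exp_one_gt_d9
  have h2 : Real.exp 2 = Real.exp 1 * Real.exp 1 := by rw [← Real.exp_add]; norm_num
  have h3 : (4 : ℝ) < Real.exp 2 := by rw [h2]; (clear * - h1; nlinarith only [h1])
  rw [Real.exp_neg, one_div]
  exact inv_strictAnti₀ (by norm_num) h3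

lemma kap_bound {a : ℝ} (h0 : 0 < a) (h1 : a < 1) {ξ η : ℝ} (hx : Real.log (tau a) + 1 ≤ ξ)
    (hx2 : ξ ≤ -1) :
    ‖kap a (pt ξ η) - 1‖ ^ 2 ≤ 144 * Real.exp ξ + 16 * (tau a * Real.exp (-ξ)) := by
  have hτ : 0 < tau a := tau_pos h0 h1
  set τ : ℝ := tau a with hτdef
  set Z : ℂ := Complex.exp (pt ξ η) with hZ
  set r : ℝ := Real.exp ξ with hr
  have hnZ : ‖Z‖ = r := norm_exp_pt ξ η
  have hr0 : 0 < r := Real.exp_pos _
  have he2 := exp_neg_two_lt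
  -- `4 τ² ≤ r²`, `4 r² ≤ 1`
  have hτr : τ ^ 2 ≤ r ^ 2 / 4 := by
    have h2 : τ * Real.exp 1 ≤ r := by
      have : Real.exp (Real.log τ + 1) ≤ Real.exp ξ := Real.exp_le_exp.2 hx
      rwa [Real.exp_add, Real.exp_log hτ] at this
    have h3 : (2.7182818283 : ℝ) < Real.exp 1 := Real.exp_one_gt_d9
    have h4 : τ * 2 ≤ r := le_trans (by (clear * - hτ h3; nlinarith only [hτ, h3])) h2
    (clear * - hτ h4; nlinarith only [hτ, h4])
  have hr2 : r ^ 2 ≤ 1 / 4 := by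
    have h2 : r ^ 2 = Real.exp (2 * ξ) := by
      rw [hr, ← Real.exp_nat_mul]; norm_num
    have h3 : Real.exp (2 * ξ) ≤ Real.exp (-2) := Real.exp_le_exp.2 (by linarith only [hx2])
    linarith only [he2, h2, h3]
  have hr1 : r ≤ 1 / 2 := by (clear * - hr2; nlinarith only [hr2])
  have hτr1 : τ ≤ r / 2 := by
    have : τ ^ 2 ≤ (r / 2) ^ 2 := by (clear * - hτr; linarith only [hτr])
    exact (sq_le_sq₀ hτ.le (by positivity)).1 this
  have hA : r ^ 2 * (3 / 4) ≤ ‖Z ^ 2 + (τ : ℂ) ^ 2‖ := by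
    have h2 : ‖Z ^ 2‖ - ‖(τ : ℂ) ^ 2‖ ≤ ‖Z ^ 2 + (τ : ℂ) ^ 2‖ := by
      have := norm_sub_norm_le (Z ^ 2) (-(τ : ℂ) ^ 2)
      rw [norm_neg, sub_neg_eq_add] at this
      exact this
    rw [norm_pow, norm_pow, hnZ, Complex.norm_real, Real.norm_eq_abs, sq_abs] at h2
    (clear * - hτr h2; linarith only [hτr, h2])
  have hB : (3 / 4 : ℝ) ≤ ‖Z ^ 2 + 1‖ := by
    have h2 : ‖(1 : ℂ)‖ - ‖Z ^ 2‖ ≤ ‖Z ^ 2 + 1‖ := by
      have := norm_sub_norm_le (1 : ℂ) (-(Z ^ 2))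
      rw [norm_neg, sub_neg_eq_add, add_comm (1 : ℂ)] at this
      exact this
    rw [norm_one, norm_pow, hnZ] at h2
    linarith only [hr2, h2]
  have hA0 : Z ^ 2 + (τ : ℂ) ^ 2 ≠ 0 := by
    intro h
    rw [h, norm_zero] at hA
    (clear * - hA hr0; nlinarith only [hr0, hA])
  have hB0 : Z ^ 2 + 1 ≠ 0 := by
    intro h
    rw [h, norm_zero] at hB
    linarith only [hB]
  have hk : kap a (pt ξ η) - 1 =
      -((Z ^ 2) ^ 2 + 2 * (τ : ℂ) ^ 2 * Z ^ 2 + (τ : ℂ) ^ 2) /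
        ((Z ^ 2 + (τ : ℂ) ^ 2) * (Z ^ 2 + 1)) := by
    rw [← kap_sub_one hA0 hB0]
    rfl
  have hnum : ‖-((Z ^ 2) ^ 2 + 2 * (τ : ℂ) ^ 2 * Z ^ 2 + (τ : ℂ) ^ 2)‖ ≤
      r ^ 4 + 2 * τ ^ 2 * r ^ 2 + τ ^ 2 := by
    rw [norm_neg]
    refine (norm_add_le _ _).trans ?_
    refine add_le_add ((norm_add_le _ _).trans (add_le_add ?_ ?_)) ?_
    · rw [norm_pow, norm_pow, hnZ]; exact le_of_eq (by ring)
    · rw [norm_mul, norm_mul, norm_pow, norm_pow, hnZ, Complex.norm_real, Real.norm_eq_abs, sq_abs]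
      simp
    · rw [norm_pow, Complex.norm_real, Real.norm_eq_abs, sq_abs]
  have hden : r ^ 2 * (9 / 16) ≤ ‖(Z ^ 2 + (τ : ℂ) ^ 2) * (Z ^ 2 + 1)‖ := by
    rw [norm_mul]
    calc r ^ 2 * (9 / 16) = (r ^ 2 * (3 / 4)) * (3 / 4) := by ring
      _ ≤ _ := mul_le_mul hA hB (by norm_num) (norm_nonneg _)
  have hden0 : 0 < r ^ 2 * (9 / 16) := by positivity
  have hmain : ‖kap a (pt ξ η) - 1‖ ≤ 2 * (r ^ 2 + 2 * τ ^ 2 + τ ^ 2 / r ^ 2) := by
    rw [hk, norm_div]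
    calc _ ≤ (r ^ 4 + 2 * τ ^ 2 * r ^ 2 + τ ^ 2) / (r ^ 2 * (9 / 16)) :=
          div_le_div₀ (by positivity) hnum hden0 hden
      _ = 16 / 9 * (r ^ 2 + 2 * τ ^ 2 + τ ^ 2 / r ^ 2) := by field_simp
      _ ≤ _ := by
          have : 0 ≤ r ^ 2 + 2 * τ ^ 2 + τ ^ 2 / r ^ 2 := by positivity
          linarith only [this]
  -- crude form
  have hq : τ ^ 2 / r ^ 2 = (τ / r) ^ 2 := by rw [div_pow]
  have hq0 : 0 < τ / r := div_pos hτ hr0
  have hq1 : τ / r ≤ 1 / 2 := by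
    rw [div_le_iff₀ hr0]; linarith only [hτr1]
  have h3 : ‖kap a (pt ξ η) - 1‖ ≤ 3 * r ^ 2 + 2 * (τ / r) ^ 2 := by
    refine hmain.trans ?_
    rw [hq]
    linarith only [hτr]
  have h4 : ‖kap a (pt ξ η) - 1‖ ^ 2 ≤ (3 * r ^ 2 + 2 * (τ / r) ^ 2) ^ 2 :=
    pow_le_pow_left₀ (norm_nonneg _) h3 2
  have h5 : (3 * r ^ 2 + 2 * (τ / r) ^ 2) ^ 2 ≤ 144 * r + 16 * (τ / r) := by
    have h6 : 3 * r ^ 2 + 2 * (τ / r) ^ 2 ≤ 3 * r + 2 * (τ / r) := by nlinarith only [hr0, hr1, hq0, hq1]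
    have h7 : 3 * r + 2 * (τ / r) ≤ 3 := by linarith only [hr1, hq1]
    have h8 : 0 ≤ 3 * r ^ 2 + 2 * (τ / r) ^ 2 := by positivity
    nlinarith only [hr0, h6, h7]
  have h9 : τ / r = τ * Real.exp (-ξ) := by
    rw [Real.exp_neg, hr]; rfl
  rw [← h9]
  exact h4.trans h5

end Pool.Agent.Helper46.EK

end

section

namespace Pool.Agent.Helper52.EK
end Pool.Agent.Helper52.EK

/-!
# Project EK, E4d: from the pointwise inequality to the integrated one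

The theorem `strip_aux` has the null Lagrangian identities and the cut-off function as hypotheses.
-/

set_option autoImplicit false

open Complex MeasureTheory Metric Set

open scoped Real ComplexConjugate

namespace Pool.Agent.Helper44.EK

open Pool.Agent.Helper52.EK

/-- The closed rectangle in the plane. -/
def RR (x₁ x₂ : ℝ) : Set (ℝ × ℝ) := Icc x₁ x₂ ×ˢ Icc 0 π

/-- Continuity on the closed rectangle. -/
def CO (x₁ x₂ : ℝ) (F : ℝ → ℝ → ℝ) : Prop :=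
  ContinuousOn (fun p : ℝ × ℝ => F p.1 p.2) (RR x₁ x₂)

theorem isCompact_RR (x₁ x₂ : ℝ) : IsCompact (RR x₁ x₂) := isCompact_Icc.prod isCompact_Icc

theorem measurableSet_RR (x₁ x₂ : ℝ) : MeasurableSet (RR x₁ x₂) :=
  measurableSet_Icc.prod measurableSet_Icc

theorem CO.integrableOn {x₁ x₂ : ℝ} {F : ℝ → ℝ → ℝ} (h : CO x₁ x₂ F) :
    IntegrableOn (fun p : ℝ × ℝ => F p.1 p.2) (RR x₁ x₂) :=
  ContinuousOn.integrableOn_compact (isCompact_RR x₁ x₂) h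

theorem II_eq {x₁ x₂ : ℝ} (hx : x₁ ≤ x₂) {F : ℝ → ℝ → ℝ} (hF : CO x₁ x₂ F) :
    II x₁ x₂ F = ∫ p in RR x₁ x₂, F p.1 p.2 := by
  have h1 : ∫ p in RR x₁ x₂, F p.1 p.2 = ∫ ξ in Icc x₁ x₂, ∫ η in Icc (0:ℝ) π, F ξ η := by
    have h2 := hF.integrableOn
    rw [Measure.volume_eq_prod] at h2 ⊢
    exact setIntegral_prod _ h2
  rw [h1]
  unfold II
  rw [intervalIntegral.integral_of_le hx, ← integral_Icc_eq_integral_Ioc]
  refine setIntegral_congr_fun measurableSet_Icc fun ξ _ => ?_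
  rw [intervalIntegral.integral_of_le Real.pi_pos.le, ← integral_Icc_eq_integral_Ioc]

theorem CO.add {x₁ x₂ : ℝ} {F G : ℝ → ℝ → ℝ} (hF : CO x₁ x₂ F) (hG : CO x₁ x₂ G) :
    CO x₁ x₂ (fun ξ η => F ξ η + G ξ η) := ContinuousOn.add hF hG

theorem CO.sub {x₁ x₂ : ℝ} {F G : ℝ → ℝ → ℝ} (hF : CO x₁ x₂ F) (hG : CO x₁ x₂ G) :
    CO x₁ x₂ (fun ξ η => F ξ η - G ξ η) := ContinuousOn.sub hF hG

theorem CO.mul {x₁ x₂ : ℝ} {F G : ℝ → ℝ → ℝ} (hF : CO x₁ x₂ F) (hG : CO x₁ x₂ G) :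
    CO x₁ x₂ (fun ξ η => F ξ η * G ξ η) := ContinuousOn.mul hF hG

theorem CO.neg {x₁ x₂ : ℝ} {F : ℝ → ℝ → ℝ} (hF : CO x₁ x₂ F) :
    CO x₁ x₂ (fun ξ η => - F ξ η) := ContinuousOn.neg hF

theorem CO.mono {x₁ x₂ y₁ y₂ : ℝ} {F : ℝ → ℝ → ℝ} (hF : CO x₁ x₂ F) (h1 : x₁ ≤ y₁)
    (h2 : y₂ ≤ x₂) : CO y₁ y₂ F :=
  ContinuousOn.mono hF (prod_mono (Icc_subset_Icc h1 h2) subset_rfl)

theorem CO_const {x₁ x₂ : ℝ} (c : ℝ) : CO x₁ x₂ (fun _ _ => c) := continuousOn_const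

theorem CO_xi {x₁ x₂ : ℝ} {f : ℝ → ℝ} (hf : Continuous f) : CO x₁ x₂ (fun ξ _ => f ξ) :=
  (hf.comp continuous_fst).continuousOn

theorem CO_eta {x₁ x₂ : ℝ} {f : ℝ → ℝ} (hf : Continuous f) : CO x₁ x₂ (fun _ η => f η) :=
  (hf.comp continuous_snd).continuousOn

theorem II_add {x₁ x₂ : ℝ} (hx : x₁ ≤ x₂) {F G : ℝ → ℝ → ℝ} (hF : CO x₁ x₂ F)
    (hG : CO x₁ x₂ G) : II x₁ x₂ (fun ξ η => F ξ η + G ξ η) = II x₁ x₂ F + II x₁ x₂ G := by
  rw [II_eq hx (hF.add hG), II_eq hx hF, II_eq hx hG]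
  exact integral_add hF.integrableOn hG.integrableOn

theorem II_const_mul {x₁ x₂ : ℝ} (c : ℝ) (F : ℝ → ℝ → ℝ) :
    II x₁ x₂ (fun ξ η => c * F ξ η) = c * II x₁ x₂ F := by
  unfold II
  simp only [intervalIntegral.integral_const_mul]

theorem II_mono {x₁ x₂ : ℝ} (hx : x₁ ≤ x₂) {F G : ℝ → ℝ → ℝ} (hF : CO x₁ x₂ F)
    (hG : CO x₁ x₂ G) (h : ∀ ξ ∈ Icc x₁ x₂, ∀ η ∈ Icc (0:ℝ) π, F ξ η ≤ G ξ η) :
    II x₁ x₂ F ≤ II x₁ x₂ G := by
  rw [II_eq hx hF, II_eq hx hG]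
  exact setIntegral_mono_on hF.integrableOn hG.integrableOn (measurableSet_RR _ _)
    fun p hp => h p.1 hp.1 p.2 hp.2

theorem II_sub_le {x₁ x₂ y₁ y₂ : ℝ} (h1 : x₁ ≤ y₁) (h12 : y₁ ≤ y₂) (h2 : y₂ ≤ x₂)
    {F G : ℝ → ℝ → ℝ} (hF : CO x₁ x₂ F) (hG : CO y₁ y₂ G)
    (h0 : ∀ ξ ∈ Icc x₁ x₂, ∀ η ∈ Icc (0:ℝ) π, 0 ≤ F ξ η)
    (h : ∀ ξ ∈ Icc y₁ y₂, ∀ η ∈ Icc (0:ℝ) π, G ξ η ≤ F ξ η) :
    II y₁ y₂ G ≤ II x₁ x₂ F := by
  refine (II_mono h12 hG (hF.mono h1 h2) h).trans ?_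
  rw [II_eq h12 (hF.mono h1 h2), II_eq (h1.trans (h12.trans h2)) hF]
  refine setIntegral_mono_set hF.integrableOn ?_ ?_
  · exact (ae_restrict_iff' (measurableSet_RR _ _)).2
      (Filter.Eventually.of_forall fun p hp => h0 p.1 hp.1 p.2 hp.2)
  · exact (prod_mono (Icc_subset_Icc h1 h2) subset_rfl).eventuallyLE

theorem C1f.continuous {W Wx Wy : ℂ → ℝ} (h : C1f W Wx Wy) : Continuous W := by
  rw [continuous_iff_continuousAt]
  exact fun X => (h.hd X).continuousAt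

theorem pt_mem {x₁ x₂ : ℝ} {p : ℝ × ℝ} (hp : p ∈ RR x₁ x₂) : pt p.1 p.2 ∈ Rect x₁ x₂ := by
  rw [Rect, mem_reProdIm]
  simp only [pt, add_re, ofReal_re, mul_re, I_re, mul_zero, ofReal_im, I_im, mul_one, sub_self,
    add_zero, add_im, mul_im, zero_add]
  exact hp

theorem continuous_pt : Continuous (fun p : ℝ × ℝ => pt p.1 p.2) := by
  unfold pt
  fun_prop

theorem comp_pt {x₁ x₂ : ℝ} {X : ℂ → ℂ} (hX : ContinuousOn X (Rect x₁ x₂)) :
    ContinuousOn (fun p : ℝ × ℝ => X (pt p.1 p.2)) (RR x₁ x₂) :=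
  hX.comp continuous_pt.continuousOn fun _ hp => pt_mem hp

theorem CO_comp {x₁ x₂ : ℝ} {X : ℂ → ℂ} (hX : ContinuousOn X (Rect x₁ x₂)) {W : ℂ → ℝ}
    (hW : Continuous W) : CO x₁ x₂ (fun ξ η => W (X (pt ξ η))) :=
  hW.comp_continuousOn (comp_pt hX)

theorem GLip.continuous {G : ℂ → ℂ} {L : ℝ} (hG : GLip G L) : Continuous G := by
  have h : LipschitzWith L.toNNReal G := by
    refine LipschitzWith.of_dist_le_mul fun m m' => ?_
    rw [dist_eq_norm, dist_eq_norm]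
    refine (hG.lip m m').trans ?_
    exact mul_le_mul_of_nonneg_right (Real.le_coe_toNNReal L) (norm_nonneg _)
  exact h.continuous

theorem hd_sq (η : ℝ) : HasDerivAt (fun t => Real.sin t ^ 2) (2 * Real.sin η * Real.cos η) η := by
  have := (Real.hasDerivAt_sin η).pow 2
  exact this.congr_deriv (by simp)

theorem hd_sc (η : ℝ) : HasDerivAt (fun t => 2 * Real.sin t * Real.cos t)
    (2 * (Real.cos η ^ 2 - Real.sin η ^ 2)) η := by
  have := ((Real.hasDerivAt_sin η).const_mul 2).mul (Real.hasDerivAt_cos η)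
  exact this.congr_deriv (by ring)

/-- The bound of an error term. -/
theorem err_le {x₁ x₂ : ℝ} (hx : x₁ ≤ x₂) {F N : ℝ → ℝ → ℝ} {c : ℝ} (hF : CO x₁ x₂ F)
    (hN : CO x₁ x₂ N) (h : ∀ ξ η, |F ξ η| ≤ c * N ξ η) :
    II x₁ x₂ F ≤ c * II x₁ x₂ N ∧ - II x₁ x₂ F ≤ c * II x₁ x₂ N := by
  have hc : CO x₁ x₂ (fun ξ η => c * N ξ η) := (CO_const c).mul hN
  refine ⟨?_, ?_⟩
  · rw [← II_const_mul]
    exact II_mono hx hF hc fun ξ _ η _ => (abs_le.1 (h ξ η)).2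
  · rw [← II_const_mul, ← neg_one_mul, ← II_const_mul]
    refine II_mono hx ((CO_const (-1)).mul hF) hc fun ξ _ η _ => ?_
    have := (abs_le.1 (h ξ η)).1
    linarith

end Pool.Agent.Helper44.EK

end
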