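import Mathlib
import Pool.Agent.Helper14.CMF.T02

set_option linter.all false

section

namespace Pool.Agent.Helper52.EK
end Pool.Agent.Helper52.EK

set_option autoImplicit false

open Complex MeasureTheory Metric Set

open scoped Real ComplexConjugate

namespace Pool.Agent.Helper78.EK

open Pool.Agent.Helper52.EK

/-- the derivative of `p ↦ X (pt p.1 p.2)` at a point where the complex derivative of `X` is `d` -/
noncomputable def Lc (d : ℂ) : ℝ × ℝ →L[ℝ] ℂ :=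
  d • (ofRealCLM.comp (ContinuousLinearMap.fst ℝ ℝ ℝ) +
    I • ofRealCLM.comp (ContinuousLinearMap.snd ℝ ℝ ℝ))

theorem Lc_10 (d : ℂ) : Lc d (1, 0) = d := by simp [Lc]

theorem Lc_01 (d : ℂ) : Lc d (0, 1) = d * I := by simp [Lc]

theorem hasFDerivAt_pt (p : ℝ × ℝ) :
    HasFDerivAt (fun q : ℝ × ℝ => pt q.1 q.2) (Lc 1) p := by
  have h1 : HasFDerivAt (fun q : ℝ × ℝ => (q.1 : ℂ))
      (ofRealCLM.comp (ContinuousLinearMap.fst ℝ ℝ ℝ)) p :=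
    (ofRealCLM.comp (ContinuousLinearMap.fst ℝ ℝ ℝ)).hasFDerivAt
  have h2 : HasFDerivAt (fun q : ℝ × ℝ => (q.2 : ℂ))
      (ofRealCLM.comp (ContinuousLinearMap.snd ℝ ℝ ℝ)) p :=
    (ofRealCLM.comp (ContinuousLinearMap.snd ℝ ℝ ℝ)).hasFDerivAt
  have h3 := h1.add (h2.mul_const I)
  refine h3.congr_fderiv ?_
  ext <;> simp [Lc]

theorem hasFDerivAt_X {X : ℂ → ℂ} {p : ℝ × ℝ} (hX : DifferentiableAt ℂ X (pt p.1 p.2)) :
    HasFDerivAt (fun q : ℝ × ℝ => X (pt q.1 q.2)) (Lc (deriv X (pt p.1 p.2))) p := by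
  have h1 : HasFDerivAt X ((ContinuousLinearMap.toSpanSingleton ℂ
      (deriv X (pt p.1 p.2))).restrictScalars ℝ) (pt p.1 p.2) :=
    (hX.hasDerivAt.hasFDerivAt).restrictScalars ℝ
  have h2 := HasFDerivAt.comp (g := X) p h1 (hasFDerivAt_pt p)
  refine h2.congr_fderiv ?_
  ext <;> simp [Lc, mul_comm]

theorem continuous_pt : Continuous (fun p : ℝ × ℝ => pt p.1 p.2) := by
  unfold pt
  fun_prop

theorem continuousOn_pt {X : ℂ → ℂ} {x₁ x₂ : ℝ} (hX : ContinuousOn X (Rect x₁ x₂)) :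
    ContinuousOn (fun p : ℝ × ℝ => X (pt p.1 p.2)) (Icc x₁ x₂ ×ˢ Icc 0 π) := by
  refine hX.comp continuous_pt.continuousOn ?_
  rintro ⟨x, y⟩ ⟨hx, hy⟩
  simp only [Rect, mem_reProdIm, pt]
  constructor
  · simpa using hx
  · simpa using hy

theorem C1f.cont {W Wx Wy : ℂ → ℝ} (h : C1f W Wx Wy) : Continuous W :=
  continuous_iff_continuousAt.2 fun X => (h.hd X).continuousAt

/-- linearity of the iterated integral on functions continuous on the closed rectangle -/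
theorem II_sub {x₁ x₂ : ℝ} (hx : x₁ ≤ x₂) {F G : ℝ → ℝ → ℝ}
    (hF : ContinuousOn (fun p : ℝ × ℝ => F p.1 p.2) (Icc x₁ x₂ ×ˢ Icc 0 π))
    (hG : ContinuousOn (fun p : ℝ × ℝ => G p.1 p.2) (Icc x₁ x₂ ×ˢ Icc 0 π)) :
    II x₁ x₂ (fun ξ η => F ξ η - G ξ η) = II x₁ x₂ F - II x₁ x₂ G := by
  have key : ∀ {H : ℝ → ℝ → ℝ},
      ContinuousOn (fun p : ℝ × ℝ => H p.1 p.2) (Icc x₁ x₂ ×ˢ Icc 0 π) →
      (∀ x ∈ Icc x₁ x₂, IntervalIntegrable (H x) volume 0 π) ∧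
      IntervalIntegrable (fun x => ∫ y in (0:ℝ)..π, H x y) volume x₁ x₂ := by
    intro H hH
    constructor
    · intro x hx'
      have h1 : ContinuousOn (fun y => H x y) (Icc 0 π) := by
        refine hH.comp (f := fun y : ℝ => (x, y)) (by fun_prop) ?_
        intro y hy
        exact ⟨hx', hy⟩
      exact h1.intervalIntegrable_of_Icc Real.pi_pos.le
    · have h1 : IntegrableOn (fun p : ℝ × ℝ => H p.1 p.2) (Icc x₁ x₂ ×ˢ Icc 0 π) :=
        hH.integrableOn_compact (isCompact_Icc.prod isCompact_Icc)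
      have h2 : IntegrableOn (fun p : ℝ × ℝ => H p.1 p.2) (Ioc x₁ x₂ ×ˢ Ioc 0 π) :=
        h1.mono_set (prod_mono Ioc_subset_Icc_self Ioc_subset_Icc_self)
      rw [IntegrableOn, Measure.volume_eq_prod, ← Measure.prod_restrict] at h2
      have h3 := h2.integral_prod_left
      rw [intervalIntegrable_iff_integrableOn_Ioc_of_le hx, IntegrableOn]
      simpa only [intervalIntegral.integral_of_le Real.pi_pos.le] using h3
  obtain ⟨hF1, hF2⟩ := key hF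
  obtain ⟨hG1, hG2⟩ := key hG
  unfold II
  rw [← intervalIntegral.integral_sub hF2 hG2]
  refine intervalIntegral.integral_congr ?_
  intro x hx'
  rw [uIcc_of_le hx] at hx'
  exact intervalIntegral.integral_sub (hF1 x hx') (hG1 x hx')

/-- the divergence theorem on the rectangle for a field whose normal component vanishes on the
boundary -/
theorem div_zero {x₁ x₂ : ℝ} (hx : x₁ ≤ x₂) {Rp : Set ℂ}
    (hmem : ∀ p ∈ Ioo x₁ x₂ ×ˢ Ioo 0 π, pt p.1 p.2 ∈ Rp) {F G D : ℝ × ℝ → ℝ}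
    (cF : ContinuousOn F (Icc x₁ x₂ ×ˢ Icc 0 π)) (cG : ContinuousOn G (Icc x₁ x₂ ×ˢ Icc 0 π))
    (cD : ContinuousOn D (Icc x₁ x₂ ×ˢ Icc 0 π)) {F' G' : ℝ × ℝ → ℝ × ℝ →L[ℝ] ℝ}
    (dF : ∀ p : ℝ × ℝ, pt p.1 p.2 ∈ Rp → HasFDerivAt F (F' p) p)
    (dG : ∀ p : ℝ × ℝ, pt p.1 p.2 ∈ Rp → HasFDerivAt G (G' p) p)
    (hD : ∀ p : ℝ × ℝ, F' p (1, 0) + G' p (0, 1) = D p)
    (b1 : ∀ x, G (x, π) = 0) (b2 : ∀ x, G (x, 0) = 0) (b3 : ∀ y, F (x₂, y) = 0)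
    (b4 : ∀ y, F (x₁, y) = 0) : ∫ x in x₁..x₂, ∫ y in (0:ℝ)..π, D (x, y) = 0 := by
  have hDf : (fun p => F' p (1, 0) + G' p (0, 1)) = D := funext hD
  have main := integral2_divergence_prod_of_hasFDerivAt_off_countable F G F' G' x₁ 0 x₂ π ∅
    countable_empty
    (by rw [uIcc_of_le hx, uIcc_of_le Real.pi_pos.le]; exact cF)
    (by rw [uIcc_of_le hx, uIcc_of_le Real.pi_pos.le]; exact cG)
    (by
      intro p hp
      rw [sdiff_empty, min_eq_left hx, max_eq_right hx, min_eq_left Real.pi_pos.le,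
        max_eq_right Real.pi_pos.le] at hp
      exact dF p (hmem p hp))
    (by
      intro p hp
      rw [sdiff_empty, min_eq_left hx, max_eq_right hx, min_eq_left Real.pi_pos.le,
        max_eq_right Real.pi_pos.le] at hp
      exact dG p (hmem p hp))
    (by
      rw [hDf, uIcc_of_le hx, uIcc_of_le Real.pi_pos.le]
      exact cD.integrableOn_compact (isCompact_Icc.prod isCompact_Icc))
  simp only [hD, b1, b2, b3, b4, intervalIntegral.integral_zero] at main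
  rw [main]
  ring

theorem nullU {U Ux Uy Lap : ℂ → ℝ} (hU : C2f U Ux Uy Lap) {X : ℂ → ℂ} {x₁ x₂ : ℝ}
    (hx : x₁ ≤ x₂) (hX : AnalyticOnNhd ℂ X (Rect x₁ x₂))
    {χ χ₁ χ₂ : ℝ → ℝ} (h1 : ∀ ξ, HasDerivAt χ (χ₁ ξ) ξ) (h2 : ∀ ξ, HasDerivAt χ₁ (χ₂ ξ) ξ)
    (h2c : Continuous χ₂) (e1 : χ x₁ = 0) (e2 : χ x₂ = 0) (e3 : χ₁ x₁ = 0) (e4 : χ₁ x₂ = 0)
    {a a₁ a₂ : ℝ → ℝ} (g1 : ∀ η, HasDerivAt a (a₁ η) η) (g2 : ∀ η, HasDerivAt a₁ (a₂ η) η)
    (g2c : Continuous a₂) (f1 : a 0 = 0) (f2 : a π = 0) (f3 : a₁ 0 = 0) (f4 : a₁ π = 0) :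
    II x₁ x₂ (fun ξ η => χ ξ * (a η * Lap (X (pt ξ η)) * ‖deriv X (pt ξ η)‖ ^ 2
      - a₂ η * U (X (pt ξ η)))) =
    II x₁ x₂ (fun ξ η => χ₂ ξ * (a η * U (X (pt ξ η)))) := by
  obtain ⟨hU1, Uxx, Uxy, Uyy, hUx, hUy, hLap⟩ := hU
  -- continuity of all pieces
  have cχ : Continuous χ := continuous_iff_continuousAt.2 fun t => (h1 t).continuousAt
  have cχ₁ : Continuous χ₁ := continuous_iff_continuousAt.2 fun t => (h2 t).continuousAt
  have ca : Continuous a := continuous_iff_continuousAt.2 fun t => (g1 t).continuousAt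
  have ca₁ : Continuous a₁ := continuous_iff_continuousAt.2 fun t => (g2 t).continuousAt
  have hX1 : AnalyticOnNhd ℂ (deriv X) (Rect x₁ x₂) := hX.deriv
  have cX := continuousOn_pt hX.continuousOn
  have cX1 := continuousOn_pt hX1.continuousOn
  have cU : ContinuousOn (fun p : ℝ × ℝ => U (X (pt p.1 p.2))) (Icc x₁ x₂ ×ˢ Icc 0 π) :=
    (C1f.cont hU1).comp_continuousOn cX
  have cUx : ContinuousOn (fun p : ℝ × ℝ => Ux (X (pt p.1 p.2))) (Icc x₁ x₂ ×ˢ Icc 0 π) :=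
    hU1.cx.comp_continuousOn cX
  have cUy : ContinuousOn (fun p : ℝ × ℝ => Uy (X (pt p.1 p.2))) (Icc x₁ x₂ ×ˢ Icc 0 π) :=
    hU1.cy.comp_continuousOn cX
  have cLap : Continuous Lap := by
    have : Lap = fun X => Uxx X + Uyy X := funext hLap
    rw [this]
    exact hUx.cx.add hUy.cy
  have cL : ContinuousOn (fun p : ℝ × ℝ => Lap (X (pt p.1 p.2))) (Icc x₁ x₂ ×ˢ Icc 0 π) :=
    cLap.comp_continuousOn cX
  have cre : ContinuousOn (fun p : ℝ × ℝ => (deriv X (pt p.1 p.2)).re) (Icc x₁ x₂ ×ˢ Icc 0 π) :=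
    Complex.continuous_re.comp_continuousOn cX1
  have cim : ContinuousOn (fun p : ℝ × ℝ => (deriv X (pt p.1 p.2)).im) (Icc x₁ x₂ ×ˢ Icc 0 π) :=
    Complex.continuous_im.comp_continuousOn cX1
  have cA : ContinuousOn (fun p : ℝ × ℝ => χ p.1 * (a p.2 * Lap (X (pt p.1 p.2)) *
      ‖deriv X (pt p.1 p.2)‖ ^ 2 - a₂ p.2 * U (X (pt p.1 p.2)))) (Icc x₁ x₂ ×ˢ Icc 0 π) := by
    have i1 : ContinuousOn (fun p : ℝ × ℝ => χ p.1) (Icc x₁ x₂ ×ˢ Icc 0 π) := by fun_prop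
    have i2 : ContinuousOn (fun p : ℝ × ℝ => a p.2) (Icc x₁ x₂ ×ˢ Icc 0 π) := by fun_prop
    have i3 : ContinuousOn (fun p : ℝ × ℝ => a₂ p.2) (Icc x₁ x₂ ×ˢ Icc 0 π) := by fun_prop
    exact i1.mul (((i2.mul cL).mul (cX1.norm.pow 2)).sub (i3.mul cU))
  have cB : ContinuousOn (fun p : ℝ × ℝ => χ₂ p.1 * (a p.2 * U (X (pt p.1 p.2))))
      (Icc x₁ x₂ ×ˢ Icc 0 π) := by
    have i1 : ContinuousOn (fun p : ℝ × ℝ => χ₂ p.1) (Icc x₁ x₂ ×ˢ Icc 0 π) := by fun_prop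
    have i2 : ContinuousOn (fun p : ℝ × ℝ => a p.2) (Icc x₁ x₂ ×ˢ Icc 0 π) := by fun_prop
    exact i1.mul (i2.mul cU)
  -- the two components of the field
  have hmem : ∀ p ∈ Ioo x₁ x₂ ×ˢ Ioo 0 π, pt p.1 p.2 ∈ Rect x₁ x₂ := by
    rintro ⟨x, y⟩ ⟨hx', hy'⟩
    simp only [Rect, mem_reProdIm, pt]
    constructor
    · simpa using Ioo_subset_Icc_self hx'
    · simpa using Ioo_subset_Icc_self hy'
  have dχ : ∀ p : ℝ × ℝ, HasFDerivAt (fun q : ℝ × ℝ => χ q.1)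
      (χ₁ p.1 • ContinuousLinearMap.fst ℝ ℝ ℝ) p := fun p =>
    (h1 p.1).comp_hasFDerivAt p hasFDerivAt_fst
  have dχ₁ : ∀ p : ℝ × ℝ, HasFDerivAt (fun q : ℝ × ℝ => χ₁ q.1)
      (χ₂ p.1 • ContinuousLinearMap.fst ℝ ℝ ℝ) p := fun p =>
    (h2 p.1).comp_hasFDerivAt p hasFDerivAt_fst
  have da : ∀ p : ℝ × ℝ, HasFDerivAt (fun q : ℝ × ℝ => a q.2)
      (a₁ p.2 • ContinuousLinearMap.snd ℝ ℝ ℝ) p := fun p =>
    (g1 p.2).comp_hasFDerivAt p hasFDerivAt_snd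
  have da₁ : ∀ p : ℝ × ℝ, HasFDerivAt (fun q : ℝ × ℝ => a₁ q.2)
      (a₂ p.2 • ContinuousLinearMap.snd ℝ ℝ ℝ) p := fun p =>
    (g2 p.2).comp_hasFDerivAt p hasFDerivAt_snd
  have dW : ∀ {W Wx Wy : ℂ → ℝ}, C1f W Wx Wy → ∀ p : ℝ × ℝ, pt p.1 p.2 ∈ Rect x₁ x₂ →
      HasFDerivAt (fun q : ℝ × ℝ => W (X (pt q.1 q.2)))
        ((Wx (X (pt p.1 p.2)) • reCLM + Wy (X (pt p.1 p.2)) • imCLM).comp
          (Lc (deriv X (pt p.1 p.2)))) p := by
    intro W Wx Wy hW p hp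
    exact HasFDerivAt.comp (g := W) p (hW.hd _) (hasFDerivAt_X (hX _ hp).differentiableAt)
  have dre : ∀ p : ℝ × ℝ, pt p.1 p.2 ∈ Rect x₁ x₂ →
      HasFDerivAt (fun q : ℝ × ℝ => (deriv X (pt q.1 q.2)).re)
        (reCLM.comp (Lc (deriv (deriv X) (pt p.1 p.2)))) p := fun p hp =>
    reCLM.hasFDerivAt.comp p (hasFDerivAt_X (hX1 _ hp).differentiableAt)
  have dim : ∀ p : ℝ × ℝ, pt p.1 p.2 ∈ Rect x₁ x₂ →
      HasFDerivAt (fun q : ℝ × ℝ => (deriv X (pt q.1 q.2)).im)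
        (imCLM.comp (Lc (deriv (deriv X) (pt p.1 p.2)))) p := fun p hp =>
    imCLM.hasFDerivAt.comp p (hasFDerivAt_X (hX1 _ hp).differentiableAt)
  -- the components and their derivatives
  have dF := fun (p : ℝ × ℝ) (hp : pt p.1 p.2 ∈ Rect x₁ x₂) =>
    (da p).fun_mul (((dχ p).fun_mul (((dW hUx p hp).fun_mul (dre p hp)).fun_add
      ((dW hUy p hp).fun_mul (dim p hp)))).fun_sub ((dχ₁ p).fun_mul (dW hU1 p hp)))
  have dG := fun (p : ℝ × ℝ) (hp : pt p.1 p.2 ∈ Rect x₁ x₂) =>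
    (dχ p).fun_mul (((da p).fun_mul (((dW hUy p hp).fun_mul (dre p hp)).fun_sub
      ((dW hUx p hp).fun_mul (dim p hp)))).fun_sub ((da₁ p).fun_mul (dW hU1 p hp)))
  have cF : ContinuousOn (fun q : ℝ × ℝ => a q.2 * (χ q.1 *
      (Ux (X (pt q.1 q.2)) * (deriv X (pt q.1 q.2)).re +
        Uy (X (pt q.1 q.2)) * (deriv X (pt q.1 q.2)).im) - χ₁ q.1 * U (X (pt q.1 q.2))))
      (Icc x₁ x₂ ×ˢ Icc 0 π) := by
    have i1 : ContinuousOn (fun p : ℝ × ℝ => χ p.1) (Icc x₁ x₂ ×ˢ Icc 0 π) := by fun_prop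
    have i2 : ContinuousOn (fun p : ℝ × ℝ => a p.2) (Icc x₁ x₂ ×ˢ Icc 0 π) := by fun_prop
    have i3 : ContinuousOn (fun p : ℝ × ℝ => χ₁ p.1) (Icc x₁ x₂ ×ˢ Icc 0 π) := by fun_prop
    exact i2.mul ((i1.mul ((cUx.mul cre).add (cUy.mul cim))).sub (i3.mul cU))
  have cG : ContinuousOn (fun q : ℝ × ℝ => χ q.1 * (a q.2 *
      (Uy (X (pt q.1 q.2)) * (deriv X (pt q.1 q.2)).re -
        Ux (X (pt q.1 q.2)) * (deriv X (pt q.1 q.2)).im) - a₁ q.2 * U (X (pt q.1 q.2))))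
      (Icc x₁ x₂ ×ˢ Icc 0 π) := by
    have i1 : ContinuousOn (fun p : ℝ × ℝ => χ p.1) (Icc x₁ x₂ ×ˢ Icc 0 π) := by fun_prop
    have i2 : ContinuousOn (fun p : ℝ × ℝ => a p.2) (Icc x₁ x₂ ×ˢ Icc 0 π) := by fun_prop
    have i3 : ContinuousOn (fun p : ℝ × ℝ => a₁ p.2) (Icc x₁ x₂ ×ˢ Icc 0 π) := by fun_prop
    exact i1.mul ((i2.mul ((cUy.mul cre).sub (cUx.mul cim))).sub (i3.mul cU))
  have cD := cA.fun_sub cB
  have main := div_zero hx (Rp := Rect x₁ x₂) hmem cF cG cD dF dG (by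
    rintro ⟨x, y⟩
    have hn : ‖deriv X (pt x y)‖ ^ 2 = (deriv X (pt x y)).re ^ 2 + (deriv X (pt x y)).im ^ 2 := by
      rw [← normSq_eq_norm_sq, normSq_apply]
      ring
    simp only [_root_.add_apply, _root_.sub_apply,
      _root_.smul_apply, ContinuousLinearMap.comp_apply, Lc_10, Lc_01,
      ContinuousLinearMap.coe_fst', ContinuousLinearMap.coe_snd', smul_eq_mul, reCLM_apply,
      imCLM_apply, mul_re, mul_im, I_re, I_im, hLap, hn]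
    ring)
    (fun x => by simp [f2, f4]) (fun x => by simp [f1, f3]) (fun y => by simp [e2, e4])
    (fun y => by simp [e1, e3])
  have h3 := II_sub hx (F := fun ξ η => χ ξ * (a η * Lap (X (pt ξ η)) *
      ‖deriv X (pt ξ η)‖ ^ 2 - a₂ η * U (X (pt ξ η))))
    (G := fun ξ η => χ₂ ξ * (a η * U (X (pt ξ η)))) cA cB
  rw [II] at h3
  have h4 : II x₁ x₂ (fun ξ η => χ ξ * (a η * Lap (X (pt ξ η)) * ‖deriv X (pt ξ η)‖ ^ 2
      - a₂ η * U (X (pt ξ η)))) - II x₁ x₂ (fun ξ η => χ₂ ξ * (a η * U (X (pt ξ η)))) = 0 := by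
    rw [← h3]
    exact main
  linarith only [h4]

end Pool.Agent.Helper78.EK

end

section

namespace Pool.Agent.Helper52.EK
end Pool.Agent.Helper52.EK

set_option autoImplicit false

open Complex MeasureTheory Metric Set

open scoped Real ComplexConjugate

namespace Pool.Agent.Helper4.EK

open Pool.Agent.Helper52.EK

lemma pt_mem_Rect {x₁ x₂ ξ η : ℝ} (h1 : ξ ∈ Icc x₁ x₂) (h2 : η ∈ Icc 0 π) :
    pt ξ η ∈ Rect x₁ x₂ := by
  constructor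
  · simpa [pt] using h1
  · simpa [pt] using h2

lemma continuous_pt2 : Continuous (fun p : ℝ × ℝ => pt p.1 p.2) := by
  unfold pt
  fun_prop

lemma hasDerivAt_pt_xi (ξ η : ℝ) : HasDerivAt (fun t : ℝ => pt t η) 1 ξ := by
  have := (Complex.ofRealCLM.hasDerivAt (x := ξ)).add_const ((η : ℂ) * I)
  simpa [pt] using this

lemma hasDerivAt_pt_eta (ξ η : ℝ) : HasDerivAt (fun t : ℝ => pt ξ t) I η := by
  have := ((Complex.ofRealCLM.hasDerivAt (x := η)).mul_const I).const_add (ξ : ℂ)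
  simpa [pt] using this

lemma C1f.continuous {W Wx Wy : ℂ → ℝ} (hW : C1f W Wx Wy) : Continuous W :=
  continuous_iff_continuousAt.2 fun X => (hW.hd X).continuousAt

/-- chain rule in the second variable -/
lemma hasDerivAt_comp_eta {V Vx Vy : ℂ → ℝ} (hV : C1f V Vx Vy) {X : ℂ → ℂ} {ξ η : ℝ}
    (hX : DifferentiableAt ℂ X (pt ξ η)) :
    HasDerivAt (fun t => V (X (pt ξ t)))
      (-Vx (X (pt ξ η)) * (deriv X (pt ξ η)).im + Vy (X (pt ξ η)) * (deriv X (pt ξ η)).re) η := by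
  have h1 : HasDerivAt (fun t : ℝ => X (pt ξ t)) (deriv X (pt ξ η) * I) η :=
    hX.hasDerivAt.comp η (hasDerivAt_pt_eta ξ η)
  have h2 := (hV.hd (X (pt ξ η))).comp_hasDerivAt η h1
  refine h2.congr_deriv ?_
  simp

/-- chain rule in the first variable -/
lemma hasDerivAt_comp_xi {W Wx Wy : ℂ → ℝ} (hW : C1f W Wx Wy) {X : ℂ → ℂ} {ξ η : ℝ}
    (hX : DifferentiableAt ℂ X (pt ξ η)) :
    HasDerivAt (fun t => W (X (pt t η)))
      (Wx (X (pt ξ η)) * (deriv X (pt ξ η)).re + Wy (X (pt ξ η)) * (deriv X (pt ξ η)).im) ξ := by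
  have h1 : HasDerivAt (fun t : ℝ => X (pt t η)) (deriv X (pt ξ η) * 1) ξ :=
    hX.hasDerivAt.comp ξ (hasDerivAt_pt_xi ξ η)
  have h2 := (hW.hd (X (pt ξ η))).comp_hasDerivAt ξ h1
  refine h2.congr_deriv ?_
  simp

lemma continuousOn_Xpt {X : ℂ → ℂ} {x₁ x₂ : ℝ} (hX : AnalyticOnNhd ℂ X (Rect x₁ x₂)) :
    ContinuousOn (fun p : ℝ × ℝ => X (pt p.1 p.2)) (Icc x₁ x₂ ×ˢ Icc 0 π) :=
  hX.continuousOn.comp continuous_pt2.continuousOn fun p hp => pt_mem_Rect hp.1 hp.2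

lemma continuousOn_dXpt {X : ℂ → ℂ} {x₁ x₂ : ℝ} (hX : AnalyticOnNhd ℂ X (Rect x₁ x₂)) :
    ContinuousOn (fun p : ℝ × ℝ => deriv X (pt p.1 p.2)) (Icc x₁ x₂ ×ˢ Icc 0 π) :=
  hX.deriv.continuousOn.comp continuous_pt2.continuousOn fun p hp => pt_mem_Rect hp.1 hp.2

lemma swap_of_continuousOn {F : ℝ → ℝ → ℝ} {x₁ x₂ y₁ y₂ : ℝ} (hx : x₁ ≤ x₂) (hy : y₁ ≤ y₂)
    (hF : ContinuousOn (fun p : ℝ × ℝ => F p.1 p.2) (Icc x₁ x₂ ×ˢ Icc y₁ y₂)) :
    ∫ ξ in x₁..x₂, ∫ η in y₁..y₂, F ξ η = ∫ η in y₁..y₂, ∫ ξ in x₁..x₂, F ξ η := by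
  apply intervalIntegral_intervalIntegral_swap
  have h1 : IntegrableOn (fun p : ℝ × ℝ => F p.1 p.2) (Icc x₁ x₂ ×ˢ Icc y₁ y₂) :=
    hF.integrableOn_compact (isCompact_Icc.prod isCompact_Icc)
  rw [uIoc_of_le hx, uIoc_of_le hy]
  exact h1.mono_set (prod_mono Ioc_subset_Icc_self Ioc_subset_Icc_self)

/-- E4b, first half -/
theorem nullV {V Vx Vy : ℂ → ℝ} (hV : C1f V Vx Vy) {X : ℂ → ℂ} {x₁ x₂ : ℝ}
    (hx : x₁ ≤ x₂) (hX : AnalyticOnNhd ℂ X (Rect x₁ x₂))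
    {χ : ℝ → ℝ} (hχ : Continuous χ) {b b₁ : ℝ → ℝ} (g1 : ∀ η, HasDerivAt b (b₁ η) η)
    (g1c : Continuous b₁) (f1 : b 0 = 0) (f2 : b π = 0) :
    II x₁ x₂ (fun ξ η => χ ξ * (b η * (-Vx (X (pt ξ η)) * (deriv X (pt ξ η)).im
      + Vy (X (pt ξ η)) * (deriv X (pt ξ η)).re) + b₁ η * V (X (pt ξ η)))) = 0 := by
  have _ := hχ
  unfold II
  rw [intervalIntegral.integral_congr (g := fun _ => (0:ℝ))]
  · simp
  intro ξ hξ
  rw [uIcc_of_le hx] at hξ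
  simp only [intervalIntegral.integral_const_mul]
  have hpi : (0:ℝ) ≤ π := Real.pi_pos.le
  have cX : ContinuousOn (fun η : ℝ => X (pt ξ η)) (uIcc 0 π) := by
    have := continuousOn_Xpt hX
    refine this.comp (f := fun η : ℝ => (ξ, η)) (by fun_prop) ?_
    intro η hη
    rw [uIcc_of_le hpi] at hη
    exact ⟨hξ, hη⟩
  have cY : ContinuousOn (fun η : ℝ => deriv X (pt ξ η)) (uIcc 0 π) := by
    have := continuousOn_dXpt hX
    refine this.comp (f := fun η : ℝ => (ξ, η)) (by fun_prop) ?_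
    intro η hη
    rw [uIcc_of_le hpi] at hη
    exact ⟨hξ, hη⟩
  have bc : Continuous b := continuous_iff_continuousAt.2 fun η => (g1 η).continuousAt
  have key : ∫ η in (0:ℝ)..π, (b η * (-Vx (X (pt ξ η)) * (deriv X (pt ξ η)).im
      + Vy (X (pt ξ η)) * (deriv X (pt ξ η)).re) + b₁ η * V (X (pt ξ η))) =
      b π * V (X (pt ξ π)) - b 0 * V (X (pt ξ 0)) := by
    refine intervalIntegral.integral_eq_sub_of_hasDerivAt
      (f := fun η => b η * V (X (pt ξ η))) ?_ ?_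
    · intro η hη
      rw [uIcc_of_le hpi] at hη
      have hd := hasDerivAt_comp_eta hV ((hX _ (pt_mem_Rect hξ hη)).differentiableAt)
      exact ((g1 η).mul hd).congr_deriv (by ring)
    · apply ContinuousOn.intervalIntegrable
      have c1 : ContinuousOn (fun η : ℝ => Vx (X (pt ξ η))) (uIcc 0 π) :=
        hV.cx.comp_continuousOn cX
      have c2 : ContinuousOn (fun η : ℝ => Vy (X (pt ξ η))) (uIcc 0 π) :=
        hV.cy.comp_continuousOn cX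
      have c3 : ContinuousOn (fun η : ℝ => V (X (pt ξ η))) (uIcc 0 π) :=
        (C1f.continuous hV).comp_continuousOn cX
      have c4 : ContinuousOn (fun η : ℝ => (deriv X (pt ξ η)).re) (uIcc 0 π) :=
        Complex.continuous_re.comp_continuousOn cY
      have c5 : ContinuousOn (fun η : ℝ => (deriv X (pt ξ η)).im) (uIcc 0 π) :=
        Complex.continuous_im.comp_continuousOn cY
      exact (bc.continuousOn.mul ((c1.neg.mul c5).add (c2.mul c4))).add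
        (g1c.continuousOn.mul c3)
  rw [key, f1, f2]
  simp

/-- E4b, second half -/
theorem nullW {W Wx Wy : ℂ → ℝ} (hW : C1f W Wx Wy) {X : ℂ → ℂ} {x₁ x₂ : ℝ}
    (hx : x₁ ≤ x₂) (hX : AnalyticOnNhd ℂ X (Rect x₁ x₂))
    {χ χ₁ : ℝ → ℝ} (h1 : ∀ ξ, HasDerivAt χ (χ₁ ξ) ξ) (h1c : Continuous χ₁)
    (e1 : χ x₁ = 0) (e2 : χ x₂ = 0) {b : ℝ → ℝ} (hb : Continuous b) :
    II x₁ x₂ (fun ξ η => χ ξ * (b η * (Wx (X (pt ξ η)) * (deriv X (pt ξ η)).re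
      + Wy (X (pt ξ η)) * (deriv X (pt ξ η)).im))) =
    - II x₁ x₂ (fun ξ η => χ₁ ξ * (b η * W (X (pt ξ η)))) := by
  have hpi : (0:ℝ) ≤ π := Real.pi_pos.le
  have χc : Continuous χ := continuous_iff_continuousAt.2 fun ξ => (h1 ξ).continuousAt
  have cX := continuousOn_Xpt hX
  have cY := continuousOn_dXpt hX
  have c1 : ContinuousOn (fun p : ℝ × ℝ => Wx (X (pt p.1 p.2))) (Icc x₁ x₂ ×ˢ Icc 0 π) :=
    hW.cx.comp_continuousOn cX
  have c2 : ContinuousOn (fun p : ℝ × ℝ => Wy (X (pt p.1 p.2))) (Icc x₁ x₂ ×ˢ Icc 0 π) :=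
    hW.cy.comp_continuousOn cX
  have c3 : ContinuousOn (fun p : ℝ × ℝ => W (X (pt p.1 p.2))) (Icc x₁ x₂ ×ˢ Icc 0 π) :=
    (C1f.continuous hW).comp_continuousOn cX
  have c4 : ContinuousOn (fun p : ℝ × ℝ => (deriv X (pt p.1 p.2)).re)
      (Icc x₁ x₂ ×ˢ Icc 0 π) := Complex.continuous_re.comp_continuousOn cY
  have c5 : ContinuousOn (fun p : ℝ × ℝ => (deriv X (pt p.1 p.2)).im)
      (Icc x₁ x₂ ×ˢ Icc 0 π) := Complex.continuous_im.comp_continuousOn cY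
  have bc : ContinuousOn (fun p : ℝ × ℝ => b p.2) (Icc x₁ x₂ ×ˢ Icc 0 π) :=
    (hb.comp continuous_snd).continuousOn
  have cc : ContinuousOn (fun p : ℝ × ℝ => χ p.1) (Icc x₁ x₂ ×ˢ Icc 0 π) :=
    (χc.comp continuous_fst).continuousOn
  have cc1 : ContinuousOn (fun p : ℝ × ℝ => χ₁ p.1) (Icc x₁ x₂ ×ˢ Icc 0 π) :=
    (h1c.comp continuous_fst).continuousOn
  have C1 : ContinuousOn (fun p : ℝ × ℝ => χ p.1 * (b p.2 * (Wx (X (pt p.1 p.2)) *
      (deriv X (pt p.1 p.2)).re + Wy (X (pt p.1 p.2)) * (deriv X (pt p.1 p.2)).im)))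
      (Icc x₁ x₂ ×ˢ Icc 0 π) := cc.mul (bc.mul ((c1.mul c4).add (c2.mul c5)))
  have C2 : ContinuousOn (fun p : ℝ × ℝ => χ₁ p.1 * (b p.2 * W (X (pt p.1 p.2))))
      (Icc x₁ x₂ ×ˢ Icc 0 π) := cc1.mul (bc.mul c3)
  have S1 := swap_of_continuousOn (F := fun ξ η => χ ξ * (b η * (Wx (X (pt ξ η)) *
      (deriv X (pt ξ η)).re + Wy (X (pt ξ η)) * (deriv X (pt ξ η)).im))) hx hpi C1
  have S2 := swap_of_continuousOn (F := fun ξ η => χ₁ ξ * (b η * W (X (pt ξ η)))) hx hpi C2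
  unfold II
  rw [S1, S2, ← intervalIntegral.integral_neg]
  apply intervalIntegral.integral_congr
  intro η hη
  rw [uIcc_of_le hpi] at hη
  have hsub : MapsTo (fun ξ : ℝ => (ξ, η)) (uIcc x₁ x₂) (Icc x₁ x₂ ×ˢ Icc 0 π) := by
    intro ξ hξ
    rw [uIcc_of_le hx] at hξ
    exact ⟨hξ, hη⟩
  have D1 : ContinuousOn (fun ξ : ℝ => χ ξ * (b η * (Wx (X (pt ξ η)) *
      (deriv X (pt ξ η)).re + Wy (X (pt ξ η)) * (deriv X (pt ξ η)).im))) (uIcc x₁ x₂) :=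
    C1.comp (f := fun ξ : ℝ => (ξ, η)) (by fun_prop) hsub
  have D2 : ContinuousOn (fun ξ : ℝ => χ₁ ξ * (b η * W (X (pt ξ η)))) (uIcc x₁ x₂) :=
    C2.comp (f := fun ξ : ℝ => (ξ, η)) (by fun_prop) hsub
  have key : ∫ ξ in x₁..x₂, (χ₁ ξ * (b η * W (X (pt ξ η))) + χ ξ * (b η * (Wx (X (pt ξ η)) *
      (deriv X (pt ξ η)).re + Wy (X (pt ξ η)) * (deriv X (pt ξ η)).im))) =
      χ x₂ * (b η * W (X (pt x₂ η))) - χ x₁ * (b η * W (X (pt x₁ η))) := by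
    refine intervalIntegral.integral_eq_sub_of_hasDerivAt
      (f := fun ξ => χ ξ * (b η * W (X (pt ξ η)))) ?_ (D2.add D1).intervalIntegrable
    intro ξ hξ
    rw [uIcc_of_le hx] at hξ
    have hd := hasDerivAt_comp_xi hW ((hX _ (pt_mem_Rect hξ hη)).differentiableAt)
    exact ((h1 ξ).mul (hd.const_mul (b η)))
  rw [intervalIntegral.integral_add D2.intervalIntegrable D1.intervalIntegrable, e1, e2] at key
  simp only [zero_mul, sub_zero] at key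
  (clear * - key; linarith only [key])

end Pool.Agent.Helper4.EK

end

section

namespace Pool.Agent.Helper52.EK
end Pool.Agent.Helper52.EK
namespace Pool.Agent.Helper78.EK
end Pool.Agent.Helper78.EK
namespace Pool.Agent.Helper4.EK
end Pool.Agent.Helper4.EK

set_option autoImplicit false

open Complex MeasureTheory Metric Set

open scoped Real ComplexConjugate

namespace Pool.Agent.Helper69.EK3

open Pool.Agent.Helper52.EK Pool.Agent.Helper78.EK Pool.Agent.Helper4.EK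

/-- the closed rectangle `x₁ ≤ ξ ≤ x₂`, `0 ≤ η ≤ h` -/
def RectH (x₁ x₂ h : ℝ) : Set ℂ := Icc x₁ x₂ ×ℂ Icc 0 h

/-- double integral over the rectangle `x₁ ≤ ξ ≤ x₂`, `0 ≤ η ≤ h` -/
noncomputable def IH (x₁ x₂ h : ℝ) (F : ℝ → ℝ → ℝ) : ℝ := ∫ ξ in x₁..x₂, ∫ η in (0:ℝ)..h, F ξ η

/-- the derivative of `U ∘ X` in the direction of `η` -/
noncomputable def dEta (Ux Uy : ℂ → ℝ) (X Y : ℂ) : ℝ := -Ux X * Y.im + Uy X * Y.re

theorem pt_mem_RectH {x₁ x₂ h ξ η : ℝ} (h1 : ξ ∈ Icc x₁ x₂) (h2 : η ∈ Icc 0 h) :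
    pt ξ η ∈ RectH x₁ x₂ h := by
  constructor
  · simpa [pt] using h1
  · simpa [pt] using h2

theorem contH {X : ℂ → ℂ} {x₁ x₂ h : ℝ} (hX : ContinuousOn X (RectH x₁ x₂ h)) :
    ContinuousOn (fun p : ℝ × ℝ => X (pt p.1 p.2)) (Icc x₁ x₂ ×ˢ Icc 0 h) :=
  hX.comp Pool.Agent.Helper78.EK.continuous_pt.continuousOn fun _ hp => pt_mem_RectH hp.1 hp.2

end Pool.Agent.Helper69.EK3

end

section

/-!
# Project EK, E4c: a cut-off function with two bounded derivatives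
-/

set_option autoImplicit false

open Set

open scoped Real

namespace Pool.Agent.Helper56.EK

theorem bounded_of_zero_outside {f : ℝ → ℝ} (hf : Continuous f)
    (h0 : ∀ t, t < 0 → f t = 0) (h1 : ∀ t, 1 < t → f t = 0) : ∃ M : ℝ, ∀ t, |f t| ≤ M := by
  obtain ⟨M, hM⟩ := (isCompact_Icc (a := (0:ℝ)) (b := 1)).exists_bound_of_continuousOn
    hf.continuousOn
  refine ⟨M, fun t => ?_⟩
  have hM0 : 0 ≤ M := (norm_nonneg _).trans (hM 0 ⟨le_refl _, zero_le_one⟩)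
  rcases lt_or_ge t 0 with h | h
  · rw [h0 t h, abs_zero]; exact hM0
  rcases lt_or_ge 1 t with h' | h'
  · rw [h1 t h', abs_zero]; exact hM0
  · have := hM t ⟨h, h'⟩
    rwa [Real.norm_eq_abs] at this

theorem deriv_zero_left {f : ℝ → ℝ} {c : ℝ} (h0 : ∀ t, t < 0 → f t = c) :
    ∀ t, t < 0 → deriv f t = 0 := by
  intro t ht
  have h : f =ᶠ[nhds t] fun _ => c := by
    filter_upwards [Iio_mem_nhds ht] with s hs using h0 s hs
  rw [h.deriv_eq, deriv_const]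

theorem deriv_zero_right {f : ℝ → ℝ} {c : ℝ} (h1 : ∀ t, 1 < t → f t = c) :
    ∀ t, 1 < t → deriv f t = 0 := by
  intro t ht
  have h : f =ᶠ[nhds t] fun _ => c := by
    filter_upwards [Ioi_mem_nhds ht] with s hs using h1 s hs
  rw [h.deriv_eq, deriv_const]

/-- A smooth step with bounded first and second derivative. -/
theorem step : ∃ (f f₁ f₂ : ℝ → ℝ) (M : ℝ), (∀ t, HasDerivAt f (f₁ t) t) ∧
    (∀ t, HasDerivAt f₁ (f₂ t) t) ∧ Continuous f₂ ∧ (∀ t, 0 ≤ f t ∧ f t ≤ 1) ∧ f 0 = 0 ∧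
    f₁ 0 = 0 ∧ (∀ t, 1 ≤ t → f t = 1) ∧ (∀ t, |f₁ t| ≤ M) ∧ (∀ t, |f₂ t| ≤ M) := by
  have hs : ContDiff ℝ 2 Real.smoothTransition := Real.smoothTransition.contDiff
  have hd0 : Differentiable ℝ Real.smoothTransition := hs.differentiable (by norm_num)
  have h1 : ContDiff ℝ 1 (deriv Real.smoothTransition) := by
    have : ContDiff ℝ (1 + 1) Real.smoothTransition := by
      refine hs.of_le ?_
      norm_num
    exact (contDiff_succ_iff_deriv.1 this).2.2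
  have hd1 : Differentiable ℝ (deriv Real.smoothTransition) := h1.differentiable (by norm_num)
  have h2 : Continuous (deriv (deriv Real.smoothTransition)) := h1.continuous_deriv (by norm_num)
  have z0 : ∀ t : ℝ, t < 0 → Real.smoothTransition t = 0 := fun t ht =>
    Real.smoothTransition.zero_of_nonpos ht.le
  have z1 : ∀ t : ℝ, 1 < t → Real.smoothTransition t = 1 := fun t ht =>
    Real.smoothTransition.one_of_one_le ht.le
  have a0 := deriv_zero_left z0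
  have a1 := deriv_zero_right z1
  obtain ⟨M₁, hM₁⟩ := bounded_of_zero_outside h1.continuous a0 a1
  obtain ⟨M₂, hM₂⟩ := bounded_of_zero_outside h2 (deriv_zero_left a0) (deriv_zero_right a1)
  refine ⟨Real.smoothTransition, deriv Real.smoothTransition,
    deriv (deriv Real.smoothTransition), max M₁ M₂, fun t => (hd0 t).hasDerivAt,
    fun t => (hd1 t).hasDerivAt, h2, fun t => ⟨Real.smoothTransition.nonneg t,
    Real.smoothTransition.le_one t⟩, Real.smoothTransition.zero, ?_,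
    fun t ht => Real.smoothTransition.one_of_one_le ht,
    fun t => (hM₁ t).trans (le_max_left _ _), fun t => (hM₂ t).trans (le_max_right _ _)⟩
  have : IsLocalMin Real.smoothTransition 0 := by
    refine Filter.Eventually.of_forall fun t => ?_
    rw [Real.smoothTransition.zero]
    exact Real.smoothTransition.nonneg t
  exact this.deriv_eq_zero

theorem cutoff : ∃ C : ℝ, ∀ x₁ x₂ l : ℝ, 1 ≤ l → x₁ + l ≤ x₂ - l →
    ∃ χ χ₁ χ₂ : ℝ → ℝ, (∀ ξ, HasDerivAt χ (χ₁ ξ) ξ) ∧ (∀ ξ, HasDerivAt χ₁ (χ₂ ξ) ξ) ∧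
      Continuous χ₂ ∧ χ x₁ = 0 ∧ χ x₂ = 0 ∧ χ₁ x₁ = 0 ∧ χ₁ x₂ = 0 ∧
      (∀ ξ, 0 ≤ χ ξ ∧ χ ξ ≤ 1) ∧ (∀ ξ ∈ Icc (x₁ + l) (x₂ - l), χ ξ = 1) ∧
      (∀ ξ, |χ₁ ξ| ≤ C / l) ∧ (∀ ξ, |χ₂ ξ| ≤ C / l) := by
  obtain ⟨f, f₁, f₂, M, hf, hf₁, hc, h01, h0, h10, h1, b1, b2⟩ := step
  have hM0 : 0 ≤ M := (abs_nonneg _).trans (b1 0)
  refine ⟨2 * M + 2 * M ^ 2 + 2 * M, fun x₁ x₂ l hl hx => ?_⟩
  have hl0 : 0 < l := lt_of_lt_of_le one_pos hl
  have hu : ∀ ξ : ℝ, HasDerivAt (fun ξ : ℝ => (ξ - x₁) / l) (1 / l) ξ := fun ξ =>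
    ((hasDerivAt_id ξ).sub_const x₁).div_const l
  have hv : ∀ ξ : ℝ, HasDerivAt (fun ξ : ℝ => (x₂ - ξ) / l) (-1 / l) ξ := fun ξ =>
    ((hasDerivAt_id ξ).const_sub x₂).div_const l
  have hu0 : ∀ ξ : ℝ, HasDerivAt (fun ξ : ℝ => f ((ξ - x₁) / l)) (f₁ ((ξ - x₁) / l) * (1 / l)) ξ :=
    fun ξ => (hf _).comp ξ (hu ξ)
  have hv0 : ∀ ξ : ℝ, HasDerivAt (fun ξ : ℝ => f ((x₂ - ξ) / l)) (f₁ ((x₂ - ξ) / l) * (-1 / l)) ξ :=
    fun ξ => (hf _).comp ξ (hv ξ)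
  have hu1 : ∀ ξ : ℝ, HasDerivAt (fun ξ : ℝ => f₁ ((ξ - x₁) / l)) (f₂ ((ξ - x₁) / l) * (1 / l)) ξ :=
    fun ξ => (hf₁ _).comp ξ (hu ξ)
  have hv1 : ∀ ξ : ℝ, HasDerivAt (fun ξ : ℝ => f₁ ((x₂ - ξ) / l)) (f₂ ((x₂ - ξ) / l) * (-1 / l)) ξ :=
    fun ξ => (hf₁ _).comp ξ (hv ξ)
  have e1 : (x₁ - x₁) / l = 0 := by simp
  have e2 : (x₂ - x₂) / l = 0 := by simp
  have habs : ∀ t, |f t| ≤ 1 := fun t => abs_le.2 ⟨by linarith only [(h01 t).1], (h01 t).2⟩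
  have hinv : 1 / l ≤ 1 := by rw [div_le_one hl0]; exact hl
  have hinv0 : 0 ≤ 1 / l := by (clear * - hl; positivity)
  refine ⟨fun ξ => f ((ξ - x₁) / l) * f ((x₂ - ξ) / l),
    fun ξ => f₁ ((ξ - x₁) / l) * (1 / l) * f ((x₂ - ξ) / l)
      + f ((ξ - x₁) / l) * (f₁ ((x₂ - ξ) / l) * (-1 / l)),
    fun ξ => (f₂ ((ξ - x₁) / l) * (1 / l) * (1 / l) * f ((x₂ - ξ) / l)
      + f₁ ((ξ - x₁) / l) * (1 / l) * (f₁ ((x₂ - ξ) / l) * (-1 / l)))
      + (f₁ ((ξ - x₁) / l) * (1 / l) * (f₁ ((x₂ - ξ) / l) * (-1 / l))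
      + f ((ξ - x₁) / l) * (f₂ ((x₂ - ξ) / l) * (-1 / l) * (-1 / l))),
    fun ξ => (hu0 ξ).mul (hv0 ξ),
    fun ξ => (((hu1 ξ).mul_const _).mul (hv0 ξ)).add ((hu0 ξ).mul ((hv1 ξ).mul_const _)),
    ?_, ?_, ?_, ?_, ?_, ?_, ?_, ?_, ?_⟩
  · have hcf : Continuous f := continuous_iff_continuousAt.2 fun t => (hf t).continuousAt
    have hcf1 : Continuous f₁ := continuous_iff_continuousAt.2 fun t => (hf₁ t).continuousAt
    have cu : Continuous fun ξ : ℝ => (ξ - x₁) / l := by fun_prop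
    have cv : Continuous fun ξ : ℝ => (x₂ - ξ) / l := by fun_prop
    have k1 := hcf.comp cu
    have k2 := hcf.comp cv
    have k3 := hcf1.comp cu
    have k4 := hcf1.comp cv
    have k5 := hc.comp cu
    have k6 := hc.comp cv
    simp only [Function.comp_def] at k1 k2 k3 k4 k5 k6
    fun_prop
  · simp [h0]
  · simp [h0]
  · simp [h0, h10]
  · simp [h0, h10]
  · intro ξ
    have a := h01 ((ξ - x₁) / l)
    have b := h01 ((x₂ - ξ) / l)
    exact ⟨mul_nonneg a.1 b.1, mul_le_one₀ a.2 b.1 b.2⟩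
  · intro ξ hξ
    have a : f ((ξ - x₁) / l) = 1 := h1 _ (by rw [le_div_iff₀ hl0]; (clear * - hξ; linarith only [hξ.1]))
    have b : f ((x₂ - ξ) / l) = 1 := h1 _ (by rw [le_div_iff₀ hl0]; linarith only [hξ.2])
    show f ((ξ - x₁) / l) * f ((x₂ - ξ) / l) = 1
    rw [a, b, one_mul]
  · intro ξ
    have t1 : |f₁ ((ξ - x₁) / l) * (1 / l) * f ((x₂ - ξ) / l)| ≤ M * (1 / l) * 1 := by
      rw [abs_mul, abs_mul, abs_of_nonneg hinv0]
      exact mul_le_mul (mul_le_mul_of_nonneg_right (b1 _) hinv0) (habs _) (abs_nonneg _)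
        (mul_nonneg hM0 hinv0)
    have t2 : |f ((ξ - x₁) / l) * (f₁ ((x₂ - ξ) / l) * (-1 / l))| ≤ 1 * (M * (1 / l)) := by
      rw [abs_mul, abs_mul, neg_div, abs_neg, abs_of_nonneg hinv0]
      exact mul_le_mul (habs _) (mul_le_mul_of_nonneg_right (b1 _) hinv0)
        (mul_nonneg (abs_nonneg _) hinv0) zero_le_one
    refine (abs_add_le _ _).trans ((add_le_add t1 t2).trans ?_)
    rw [show (2 * M + 2 * M ^ 2 + 2 * M) / l = (2 * M + 2 * M ^ 2 + 2 * M) * (1 / l) by ring]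
    (clear * - hM0 hinv0; linarith only [mul_nonneg hM0 hinv0, mul_nonneg (sq_nonneg M) hinv0])
  · intro ξ
    have hii : 1 / l * (1 / l) ≤ 1 / l := by (clear * - hinv hinv0; nlinarith only [hinv, hinv0])
    have t1 : |f₂ ((ξ - x₁) / l) * (1 / l) * (1 / l) * f ((x₂ - ξ) / l)| ≤ M * (1 / l) := by
      rw [abs_mul, abs_mul, abs_mul, abs_of_nonneg hinv0, mul_assoc (|f₂ _|)]
      calc |f₂ ((ξ - x₁) / l)| * (1 / l * (1 / l)) * |f ((x₂ - ξ) / l)|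
          ≤ (M * (1 / l)) * 1 := mul_le_mul (mul_le_mul (b2 _) hii (by (clear * - hl; positivity)) hM0)
            (habs _) (abs_nonneg _) (mul_nonneg hM0 hinv0)
        _ = M * (1 / l) := mul_one _
    have t2 : |f₁ ((ξ - x₁) / l) * (1 / l) * (f₁ ((x₂ - ξ) / l) * (-1 / l))| ≤ M ^ 2 * (1 / l) := by
      rw [abs_mul, abs_mul, abs_mul, neg_div, abs_neg, abs_of_nonneg hinv0]
      calc |f₁ ((ξ - x₁) / l)| * (1 / l) * (|f₁ ((x₂ - ξ) / l)| * (1 / l))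
          = (|f₁ ((ξ - x₁) / l)| * |f₁ ((x₂ - ξ) / l)|) * (1 / l * (1 / l)) := by ring
        _ ≤ (M * M) * (1 / l) := mul_le_mul (mul_le_mul (b1 _) (b1 _) (abs_nonneg _) hM0) hii
            (by (clear * - hl; positivity)) (mul_nonneg hM0 hM0)
        _ = M ^ 2 * (1 / l) := by ring
    have t3 : |f ((ξ - x₁) / l) * (f₂ ((x₂ - ξ) / l) * (-1 / l) * (-1 / l))| ≤ M * (1 / l) := by
      rw [abs_mul, abs_mul, abs_mul, neg_div, abs_neg, abs_of_nonneg hinv0,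
        mul_assoc (|f₂ _|)]
      calc |f ((ξ - x₁) / l)| * (|f₂ ((x₂ - ξ) / l)| * (1 / l * (1 / l)))
          ≤ 1 * (M * (1 / l)) := mul_le_mul (habs _) (mul_le_mul (b2 _) hii (by positivity) hM0)
            (by (clear * - hl; positivity)) zero_le_one
        _ = M * (1 / l) := one_mul _
    refine (abs_add_le _ _).trans ((add_le_add ((abs_add_le _ _).trans (add_le_add t1 t2))
      ((abs_add_le _ _).trans (add_le_add t2 t3))).trans ?_)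
    rw [show (2 * M + 2 * M ^ 2 + 2 * M) / l = (2 * M + 2 * M ^ 2 + 2 * M) * (1 / l) by ring]
    linarith only [mul_nonneg hM0 hinv0]

end Pool.Agent.Helper56.EK

end

section

namespace Pool.Agent.Helper52.EK
end Pool.Agent.Helper52.EK

set_option autoImplicit false

open Complex MeasureTheory Metric Set

open scoped Real ComplexConjugate

namespace Pool.Agent.Helper69.EK3

open Pool.Agent.Helper52.EK

/-- continuity on the closed rectangle `x₁ ≤ ξ ≤ x₂`, `0 ≤ η ≤ h` -/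
def CH (x₁ x₂ h : ℝ) (F : ℝ → ℝ → ℝ) : Prop :=
  ContinuousOn (fun p : ℝ × ℝ => F p.1 p.2) (Icc x₁ x₂ ×ˢ Icc 0 h)

theorem CH.add {x₁ x₂ h : ℝ} {F G : ℝ → ℝ → ℝ} (hF : CH x₁ x₂ h F) (hG : CH x₁ x₂ h G) :
    CH x₁ x₂ h (fun ξ η => F ξ η + G ξ η) := ContinuousOn.add hF hG

theorem CH.sub {x₁ x₂ h : ℝ} {F G : ℝ → ℝ → ℝ} (hF : CH x₁ x₂ h F) (hG : CH x₁ x₂ h G) :
    CH x₁ x₂ h (fun ξ η => F ξ η - G ξ η) := ContinuousOn.sub hF hG

theorem CH.mul {x₁ x₂ h : ℝ} {F G : ℝ → ℝ → ℝ} (hF : CH x₁ x₂ h F) (hG : CH x₁ x₂ h G) :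
    CH x₁ x₂ h (fun ξ η => F ξ η * G ξ η) := ContinuousOn.mul hF hG

theorem CH.neg {x₁ x₂ h : ℝ} {F : ℝ → ℝ → ℝ} (hF : CH x₁ x₂ h F) :
    CH x₁ x₂ h (fun ξ η => - F ξ η) := ContinuousOn.neg hF

theorem CH_const {x₁ x₂ h : ℝ} (c : ℝ) : CH x₁ x₂ h (fun _ _ => c) := continuousOn_const

theorem CH_xi {x₁ x₂ h : ℝ} {f : ℝ → ℝ} (hf : Continuous f) : CH x₁ x₂ h (fun ξ _ => f ξ) :=
  (hf.comp continuous_fst).continuousOn

theorem CH_comp {x₁ x₂ h : ℝ} {X : ℂ → ℂ} (hX : ContinuousOn X (RectH x₁ x₂ h)) {W : ℂ → ℝ}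
    (hW : Continuous W) : CH x₁ x₂ h (fun ξ η => W (X (pt ξ η))) :=
  hW.comp_continuousOn (contH hX)

theorem CH.integrableOn {x₁ x₂ h : ℝ} {F : ℝ → ℝ → ℝ} (hF : CH x₁ x₂ h F) :
    IntegrableOn (fun p : ℝ × ℝ => F p.1 p.2) (Icc x₁ x₂ ×ˢ Icc 0 h) :=
  ContinuousOn.integrableOn_compact (isCompact_Icc.prod isCompact_Icc) hF

theorem IH_eq {x₁ x₂ h : ℝ} (hx : x₁ ≤ x₂) (hh : 0 ≤ h) {F : ℝ → ℝ → ℝ} (hF : CH x₁ x₂ h F) :
    IH x₁ x₂ h F = ∫ p in Icc x₁ x₂ ×ˢ Icc 0 h, F p.1 p.2 := by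
  have h1 : ∫ p in Icc x₁ x₂ ×ˢ Icc 0 h, F p.1 p.2 =
      ∫ ξ in Icc x₁ x₂, ∫ η in Icc (0:ℝ) h, F ξ η := by
    have h2 := hF.integrableOn
    rw [Measure.volume_eq_prod] at h2 ⊢
    exact setIntegral_prod _ h2
  rw [h1]
  unfold IH
  rw [intervalIntegral.integral_of_le hx, ← integral_Icc_eq_integral_Ioc]
  refine setIntegral_congr_fun measurableSet_Icc fun ξ _ => ?_
  rw [intervalIntegral.integral_of_le hh, ← integral_Icc_eq_integral_Ioc]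

theorem IH_add {x₁ x₂ h : ℝ} (hx : x₁ ≤ x₂) (hh : 0 ≤ h) {F G : ℝ → ℝ → ℝ}
    (hF : CH x₁ x₂ h F) (hG : CH x₁ x₂ h G) :
    IH x₁ x₂ h (fun ξ η => F ξ η + G ξ η) = IH x₁ x₂ h F + IH x₁ x₂ h G := by
  rw [IH_eq hx hh (hF.add hG), IH_eq hx hh hF, IH_eq hx hh hG]
  exact integral_add hF.integrableOn hG.integrableOn

theorem IH_const_mul {x₁ x₂ h : ℝ} (c : ℝ) (F : ℝ → ℝ → ℝ) :
    IH x₁ x₂ h (fun ξ η => c * F ξ η) = c * IH x₁ x₂ h F := by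
  unfold IH
  simp only [intervalIntegral.integral_const_mul]

theorem IH_mono {x₁ x₂ h : ℝ} (hx : x₁ ≤ x₂) (hh : 0 ≤ h) {F G : ℝ → ℝ → ℝ}
    (hF : CH x₁ x₂ h F) (hG : CH x₁ x₂ h G)
    (hle : ∀ ξ ∈ Icc x₁ x₂, ∀ η ∈ Icc (0:ℝ) h, F ξ η ≤ G ξ η) :
    IH x₁ x₂ h F ≤ IH x₁ x₂ h G := by
  rw [IH_eq hx hh hF, IH_eq hx hh hG]
  exact setIntegral_mono_on hF.integrableOn hG.integrableOn
    (measurableSet_Icc.prod measurableSet_Icc) fun p hp => hle p.1 hp.1 p.2 hp.2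

theorem IH_xi {x₁ x₂ h : ℝ} (f : ℝ → ℝ) :
    IH x₁ x₂ h (fun ξ _ => f ξ) = h * ∫ ξ in x₁..x₂, f ξ := by
  unfold IH
  simp only [intervalIntegral.integral_const, sub_zero, smul_eq_mul,
    intervalIntegral.integral_const_mul]

/-- the mirror image of a function on the strip -/
noncomputable def mir (X : ℂ → ℂ) (ω : ℂ) : ℂ := conj (X (conj ω + π * I))

theorem conj_pt (ξ η : ℝ) : conj (pt ξ η) + π * I = pt ξ (π - η) := by
  simp only [pt, map_add, map_mul, conj_ofReal, conj_I, ofReal_sub]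
  ring

theorem mir_pt (X : ℂ → ℂ) (ξ η : ℝ) : mir X (pt ξ η) = conj (X (pt ξ (π - η))) := by
  rw [mir, conj_pt]

theorem mir_hasDerivAt {X : ℂ → ℂ} {ω d : ℂ} (hX : HasDerivAt X d (conj ω + π * I)) :
    HasDerivAt (mir X) (conj d) ω := by
  have h1 : HasDerivAt (fun z : ℂ => X (z + π * I)) d (conj ω) := hX.comp_add_const _ _
  have h2 := h1.conj_conj
  rw [starRingEnd_self_apply] at h2
  exact h2

theorem mir_deriv_pt {X : ℂ → ℂ} {ξ η : ℝ} (hX : DifferentiableAt ℂ X (pt ξ (π - η))) :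
    deriv (mir X) (pt ξ η) = conj (deriv X (pt ξ (π - η))) := by
  have h1 : HasDerivAt X (deriv X (pt ξ (π - η))) (conj (pt ξ η) + π * I) := by
    rw [conj_pt]
    exact hX.hasDerivAt
  exact (mir_hasDerivAt h1).deriv

theorem mir_an {X : ℂ → ℂ} {ω : ℂ} (hX : AnalyticAt ℂ X (conj ω + π * I)) :
    AnalyticAt ℂ (mir X) ω := by
  rw [Complex.analyticAt_iff_eventually_differentiableAt] at hX ⊢
  have hc : Filter.Tendsto (fun z : ℂ => conj z + π * I) (nhds ω) (nhds (conj ω + π * I)) :=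
    (Complex.continuous_conj.add continuous_const).continuousAt
  filter_upwards [hc.eventually hX] with z hz
  exact (mir_hasDerivAt hz.hasDerivAt).differentiableAt

theorem mir_mem {x₁ x₂ : ℝ} {ω : ℂ} (hω : ω ∈ RectH x₁ x₂ (π / 2)) :
    conj ω + π * I ∈ Rect x₁ x₂ := by
  obtain ⟨h1, h2⟩ := hω
  simp only [mem_preimage, mem_Icc] at h1 h2
  have := Real.pi_pos
  constructor
  · simp only [mem_preimage, mem_Icc, add_re, conj_re, mul_re, ofReal_re, I_re, mul_zero,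
      ofReal_im, I_im, mul_one, sub_self, add_zero]
    exact h1
  · simp only [mem_preimage, mem_Icc, add_im, conj_im, mul_im, ofReal_re, I_im, mul_one,
      ofReal_im, I_re, mul_zero, add_zero]
    constructor <;> (clear * - h2; linarith only [h2])

theorem rectH_sub {x₁ x₂ : ℝ} : RectH x₁ x₂ (π / 2) ⊆ Rect x₁ x₂ := by
  rintro ω ⟨h1, h2⟩
  refine ⟨h1, ?_⟩
  simp only [mem_preimage, mem_Icc] at h2 ⊢
  have := Real.pi_pos
  constructor <;> linarith only [h2]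

theorem mir_an_H {X : ℂ → ℂ} {x₁ x₂ : ℝ} (hX : AnalyticOnNhd ℂ X (Rect x₁ x₂)) :
    AnalyticOnNhd ℂ (mir X) (RectH x₁ x₂ (π / 2)) := fun _ hω => mir_an (hX _ (mir_mem hω))

/-- the integral over the strip is the sum over the two halves -/
theorem II_split {x₁ x₂ : ℝ} (hx : x₁ ≤ x₂) {F : ℝ → ℝ → ℝ} (hF : CH x₁ x₂ π F) :
    II x₁ x₂ F = IH x₁ x₂ (π / 2) F + IH x₁ x₂ (π / 2) (fun ξ η => F ξ (π - η)) := by
  have hpi := Real.pi_pos
  have c1 : CH x₁ x₂ (π / 2) F :=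
    ContinuousOn.mono hF (prod_mono subset_rfl (Icc_subset_Icc le_rfl (by linarith)))
  have c2 : CH x₁ x₂ (π / 2) (fun ξ η => F ξ (π - η)) := by
    refine ContinuousOn.comp (g := fun p : ℝ × ℝ => F p.1 p.2)
      (f := fun p : ℝ × ℝ => (p.1, π - p.2)) hF (by fun_prop) ?_
    rintro ⟨x, y⟩ ⟨h1, h2⟩
    refine ⟨h1, ?_⟩
    simp only [mem_Icc] at h2 ⊢
    constructor <;> (clear * - h2; linarith only [h2])
  have hs : ∀ ξ ∈ Icc x₁ x₂, ∫ η in (0:ℝ)..π, F ξ η =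
      (∫ η in (0:ℝ)..(π / 2), F ξ η) + ∫ η in (0:ℝ)..(π / 2), F ξ (π - η) := by
    intro ξ hξ
    have cc : ContinuousOn (fun η => F ξ η) (Icc 0 π) := by
      refine ContinuousOn.comp (g := fun p : ℝ × ℝ => F p.1 p.2)
        (f := fun y : ℝ => (ξ, y)) hF (by fun_prop) ?_
      intro y hy
      exact ⟨hξ, hy⟩
    have i1 : IntervalIntegrable (fun η => F ξ η) volume 0 (π / 2) :=
      (cc.mono (Icc_subset_Icc le_rfl (by (clear * - hpi; linarith only [hpi])))).intervalIntegrable_of_Icc (by linarith only [hpi])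
    have i2 : IntervalIntegrable (fun η => F ξ η) volume (π / 2) π :=
      (cc.mono (Icc_subset_Icc (by linarith) le_rfl)).intervalIntegrable_of_Icc (by linarith)
    rw [← intervalIntegral.integral_add_adjacent_intervals i1 i2]
    congr 1
    have := intervalIntegral.integral_comp_sub_left (a := 0) (b := π / 2) (fun η => F ξ η) π
    rw [this]
    congr 1 <;> ring
  have key : ∀ {H : ℝ → ℝ → ℝ}, CH x₁ x₂ (π / 2) H →
      IntervalIntegrable (fun x => ∫ y in (0:ℝ)..(π / 2), H x y) volume x₁ x₂ := by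
    intro H hH
    have h2 : IntegrableOn (fun p : ℝ × ℝ => H p.1 p.2) (Ioc x₁ x₂ ×ˢ Ioc 0 (π / 2)) :=
      hH.integrableOn.mono_set (prod_mono Ioc_subset_Icc_self Ioc_subset_Icc_self)
    rw [IntegrableOn, Measure.volume_eq_prod, ← Measure.prod_restrict] at h2
    have h3 := h2.integral_prod_left
    rw [intervalIntegrable_iff_integrableOn_Ioc_of_le hx, IntegrableOn]
    simpa only [intervalIntegral.integral_of_le (by linarith : (0:ℝ) ≤ π / 2)] using h3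
  unfold II IH
  rw [← intervalIntegral.integral_add (key c1) (key c2)]
  refine intervalIntegral.integral_congr fun ξ hξ => ?_
  rw [uIcc_of_le hx] at hξ
  exact hs ξ hξ

end Pool.Agent.Helper69.EK3

end

section

namespace Pool.Agent.Helper52.EK
end Pool.Agent.Helper52.EK

set_option autoImplicit false

open Complex MeasureTheory Metric Set

open scoped Real ComplexConjugate

namespace Pool.Agent.Helper69.EK3

open Pool.Agent.Helper52.EK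

/-- the energy on the half strip -/
noncomputable def En (X : ℂ → ℂ) (x₁ x₂ : ℝ) : ℝ :=
  IH x₁ x₂ (π / 2) (fun ξ η => ‖X (pt ξ η) - 1‖ ^ 2)

/-- `X` is analytic without zeros near the half strip -/
structure NiceH (X : ℂ → ℂ) (x₁ x₂ : ℝ) : Prop where
  an : AnalyticOnNhd ℂ X (RectH x₁ x₂ (π / 2))
  ne : ∀ ω ∈ RectH x₁ x₂ (π / 2), X ω ≠ 0

theorem NiceX.half {X : ℂ → ℂ} {x₁ x₂ : ℝ} (h : NiceX X x₁ x₂) : NiceH X x₁ x₂ :=
  ⟨fun ω hω => h.an ω (rectH_sub hω), fun ω hω => h.ne ω (rectH_sub hω)⟩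

theorem NiceX.mir {X : ℂ → ℂ} {x₁ x₂ : ℝ} (h : NiceX X x₁ x₂) : NiceH (mir X) x₁ x₂ :=
  ⟨mir_an_H h.an, fun ω hω h0 => h.ne _ (mir_mem hω) (by
    unfold EK3.mir at h0
    exact (map_eq_zero _).1 h0)⟩

theorem En_nonneg {X : ℂ → ℂ} {x₁ x₂ : ℝ} (hx : x₁ ≤ x₂) : 0 ≤ En X x₁ x₂ := by
  unfold En IH
  refine intervalIntegral.integral_nonneg hx fun ξ _ => ?_
  exact intervalIntegral.integral_nonneg (by (clear * -; positivity)) fun η _ => sq_nonneg _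

theorem cent_mem {x₁ x₂ ξ : ℝ} (hξ : ξ ∈ Icc x₁ x₂) : pt ξ (π / 2) ∈ RectH x₁ x₂ (π / 2) :=
  pt_mem_RectH hξ ⟨by (clear * -; positivity), le_rfl⟩

theorem contC {X : ℂ → ℂ} {x₁ x₂ : ℝ} (hX : ContinuousOn X (RectH x₁ x₂ (π / 2))) :
    ContinuousOn (fun ξ : ℝ => X (pt ξ (π / 2))) (Icc x₁ x₂) :=
  hX.comp (by unfold pt; fun_prop) fun _ hξ => cent_mem hξ

variable {P : (ℂ → ℂ) → ℝ → ℝ → Prop}

end Pool.Agent.Helper69.EK3

end

section

namespace Pool.Agent.Helper52.EK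
end Pool.Agent.Helper52.EK

set_option autoImplicit false

open Complex MeasureTheory Metric Set

open scoped Real ComplexConjugate

namespace Pool.Agent.Helper69.EK3

open Pool.Agent.Helper52.EK

variable {P : (ℂ → ℂ) → ℝ → ℝ → Prop}

/-- values on a line of the mirror image -/
theorem mir_cent (X : ℂ → ℂ) (ξ : ℝ) : mir X (pt ξ (π / 2)) = conj (X (pt ξ (π / 2))) := by
  rw [mir_pt]
  congr 3
  ring

theorem CH_X {X : ℂ → ℂ} {x₁ x₂ : ℝ} (hX : NiceX X x₁ x₂) {W : ℂ → ℝ} (hW : Continuous W) :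
    CH x₁ x₂ π (fun ξ η => W (X (pt ξ η))) := CH_comp (h := π) hX.an.continuousOn hW

/-- the two halves of the energy -/
theorem En_add {X : ℂ → ℂ} {x₁ x₂ : ℝ} (hx : x₁ ≤ x₂) (hX : NiceX X x₁ x₂) :
    En X x₁ x₂ + En (mir X) x₁ x₂ = II x₁ x₂ (fun ξ η => ‖X (pt ξ η) - 1‖ ^ 2) := by
  rw [II_split hx (CH_X hX (W := fun Z => ‖Z - 1‖ ^ 2) (by fun_prop))]
  unfold En
  congr 1
  have : ∀ ξ η : ℝ, ‖mir X (pt ξ η) - 1‖ ^ 2 = ‖X (pt ξ (π - η)) - 1‖ ^ 2 := by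
    intro ξ η
    rw [mir_pt]
    have : conj (X (pt ξ (π - η))) - 1 = conj (X (pt ξ (π - η)) - 1) := by simp
    rw [this, norm_conj]
  simp only [this]

end Pool.Agent.Helper69.EK3

end
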