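import Pool.Agent.Helper14.CMF.T09
import Pool.Agent.Helper14.CMF.T07
import Pool.Agent.Helper14.CMF.T08
import Pool.Agent.Helper14.CMF.T10

set_option linter.all false

section

namespace Pool.Agent.Helper52.EK
end Pool.Agent.Helper52.EK
namespace Pool.Agent.Helper78.EK
end Pool.Agent.Helper78.EK

set_option autoImplicit false

open Complex MeasureTheory Metric Set

open scoped Real ComplexConjugate

namespace Pool.Agent.Helper69.EK3

open Pool.Agent.Helper52.EK Pool.Agent.Helper78.EK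

variable {P : (ℂ → ℂ) → ℝ → ℝ → Prop}

/-- a complex function of class C¹ (in the real sense) outside `0`, with its partial
derivatives -/
structure C1c (H Hx Hy : ℂ → ℂ) : Prop where
  hd : ∀ X : ℂ, X ≠ 0 → HasFDerivAt H (reCLM.smulRight (Hx X) + imCLM.smulRight (Hy X)) X
  cx : ContinuousOn Hx {X | X ≠ 0}
  cy : ContinuousOn Hy {X | X ≠ 0}

theorem C1c.cont {H Hx Hy : ℂ → ℂ} (h : C1c H Hx Hy) : ContinuousOn H {X | X ≠ 0} :=
  fun X hX => (h.hd X hX).continuousAt.continuousWithinAt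

end Pool.Agent.Helper69.EK3

end

section

namespace Pool.Agent.Helper52.EK
end Pool.Agent.Helper52.EK
namespace Pool.Agent.Helper78.EK
end Pool.Agent.Helper78.EK

set_option autoImplicit false

open Complex MeasureTheory Metric Set

open scoped Real ComplexConjugate

namespace Pool.Agent.Helper69.EK3

open Pool.Agent.Helper52.EK Pool.Agent.Helper78.EK

variable {P : (ℂ → ℂ) → ℝ → ℝ → Prop}

/-- the integrand of the field `a(η) F(X) g` -/
noncomputable def NG (a a₁ : ℝ → ℝ) (F Fx Fy : ℂ → ℂ) (X Y g : ℂ) (η : ℝ) : ℝ :=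
  a η * ((Fx X + I * Fy X) * (g * conj Y)).re - a₁ η * (F X * g).im

end Pool.Agent.Helper69.EK3

end

section

namespace Pool.Agent.Helper22.Marshall
end Pool.Agent.Helper22.Marshall
namespace Pool.Agent.Helper84.EK
end Pool.Agent.Helper84.EK

set_option autoImplicit false

open Complex Metric Set Filter Topology

/-! Project EK3: the inequalities of Koebe and Bieberbach for univalent functions without zeros,
in terms of the logarithmic derivative. -/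

namespace Pool.Agent.Helper69.EK3

open Pool.Agent.Helper22.Marshall (coeff coeff_one coeff_deriv)

open Pool.Agent.Helper84.EK (second_le_two koebe_r)

/-- Bieberbach, without normalisation -/
theorem bieb_one {h : ℂ → ℂ} (hd : DifferentiableOn ℂ h (ball 0 1)) (hi : InjOn h (ball 0 1)) :
    ‖deriv (deriv h) 0‖ ≤ 4 * ‖deriv h 0‖ := by
  have h0b : (0:ℂ) ∈ ball (0:ℂ) 1 := mem_ball_self one_pos
  have hne : deriv h 0 ≠ 0 := Pool.Agent.Helper24.Br.deriv_ne_of_inj isOpen_ball hd hi h0b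
  set d := deriv h 0 with hdd
  have hf : deriv (fun z => (h z - h 0) / d) = fun z => deriv h z / d := by
    funext z
    rw [deriv_div_const, deriv_sub_const]
  have e := second_le_two (f := fun z => (h z - h 0) / d) ((hd.sub_const _).div_const _)
    (by
      intro z hz w hw hzw
      apply hi hz hw
      have h1 : (h z - h 0) / d = (h w - h 0) / d := hzw
      rw [div_left_inj' hne] at h1
      linear_combination h1) (by simp) (by
        rw [hf]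
        exact div_self hne)
  have e2 := coeff_deriv (fun z => (h z - h 0) / d) 1
  rw [coeff_one, hf, deriv_div_const] at e2
  have e3 : deriv (deriv h) 0 = 2 * coeff (fun z => (h z - h 0) / d) 2 * d := by
    rw [div_eq_iff hne] at e2
    rw [e2]
    norm_num
  rw [e3, norm_mul, norm_mul]
  have e4 : ‖(2:ℂ)‖ = 2 := by simp
  rw [e4]
  have := norm_nonneg d
  nlinarith only [e, this]

/-- Bieberbach in a disc of radius `r` -/
theorem bieb_r {g : ℂ → ℂ} {r : ℝ} (hr : 0 < r) (hg : DifferentiableOn ℂ g (ball 0 r))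
    (hinj : InjOn g (ball 0 r)) : ‖deriv (deriv g) 0‖ * r ≤ 4 * ‖deriv g 0‖ := by
  have hm : MapsTo (fun z : ℂ => (r : ℂ) * z) (ball 0 1) (ball 0 r) := by
    intro z hz
    rw [mem_ball_zero_iff] at hz ⊢
    rw [norm_mul, Complex.norm_real, Real.norm_of_nonneg hr.le]
    nlinarith only [hr, hz]
  have hr0 : (r : ℂ) ≠ 0 := by exact_mod_cast hr.ne'
  have h1 := bieb_one (h := fun z => g ((r : ℂ) * z)) (hg.comp (by fun_prop) hm)
    (by
      intro z hz w hw h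
      exact mul_left_cancel₀ hr0 (hinj (hm hz) (hm hw) h))
  have e1 : deriv (fun z => g ((r : ℂ) * z)) = fun z => (r : ℂ) * deriv g ((r : ℂ) * z) := by
    funext z
    rw [deriv_comp_mul_left, smul_eq_mul]
  have e2 : deriv (deriv (fun z => g ((r : ℂ) * z))) 0 = (r : ℂ) ^ 2 * deriv (deriv g) 0 := by
    rw [e1, deriv_const_mul_field, deriv_comp_mul_left, smul_eq_mul, mul_zero]
    ring
  rw [e2, e1] at h1
  simp only [mul_zero, norm_mul, norm_pow, Complex.norm_real, Real.norm_of_nonneg hr.le] at h1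
  have h2 : r * (‖deriv (deriv g) 0‖ * r) ≤ r * (4 * ‖deriv g 0‖) := by (clear * - h1; linarith only [h1])
  exact le_of_mul_le_mul_left h2 hr

/-- one half of the statement below -/
theorem univ_half {G B : ℂ → ℂ} {b : ℂ} {r : ℝ} (hr : 0 < r) (hi : InjOn G (ball 0 r))
    (hne : ∀ z ∈ ball (0:ℂ) r, G z ≠ 0) (hG : ∀ z ∈ ball (0:ℂ) r, HasDerivAt G (G z * B z) z)
    (hB : HasDerivAt B b 0) : ‖B 0‖ * r ≤ 4 ∧ ‖b + B 0 ^ 2‖ * r ≤ 4 * ‖B 0‖ := by
  have h0 : (0:ℂ) ∈ ball (0:ℂ) r := mem_ball_self hr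
  have hb : ball (0:ℂ) r ∈ 𝓝 (0:ℂ) := ball_mem_nhds 0 hr
  have hd : DifferentiableOn ℂ G (ball 0 r) := fun z hz =>
    (hG z hz).differentiableAt.differentiableWithinAt
  have hG0 := hne 0 h0
  have hp : 0 < ‖G 0‖ := norm_pos_iff.mpr hG0
  have e1 := koebe_r hr hd hi hne
  have e2 := bieb_r hr hd hi
  have e3 : deriv G =ᶠ[𝓝 0] fun z => G z * B z := by
    filter_upwards [hb] with z hz
    exact (hG z hz).deriv
  have e4 : deriv (deriv G) 0 = G 0 * (b + B 0 ^ 2) := by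
    have e5 : HasDerivAt (fun z => G z * B z) (G 0 * B 0 * B 0 + G 0 * b) 0 := (hG 0 h0).mul hB
    rw [e3.deriv_eq, e5.deriv]
    ring
  rw [(hG 0 h0).deriv, norm_mul] at e1
  rw [e4, (hG 0 h0).deriv, norm_mul, norm_mul] at e2
  constructor
  · have : ‖G 0‖ * (‖B 0‖ * r) ≤ ‖G 0‖ * 4 := by (clear * - e1; linarith only [e1])
    exact le_of_mul_le_mul_left this hp
  · have : ‖G 0‖ * (‖b + B 0 ^ 2‖ * r) ≤ ‖G 0‖ * (4 * ‖B 0‖) := by linarith only [e2]
    exact le_of_mul_le_mul_left this hp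

/-- Koebe and Bieberbach for a univalent function `G` without zeros and for `1 / G`; `B` is the
logarithmic derivative of `G` -/
theorem univ_log {G B : ℂ → ℂ} {b : ℂ} {r : ℝ} (hr : 0 < r) (hi : InjOn G (ball 0 r))
    (hne : ∀ z ∈ ball (0:ℂ) r, G z ≠ 0) (hG : ∀ z ∈ ball (0:ℂ) r, HasDerivAt G (G z * B z) z)
    (hB : HasDerivAt B b 0) :
    ‖B 0‖ * r ≤ 4 ∧ ‖b + B 0 ^ 2‖ * r ≤ 4 * ‖B 0‖ ∧ ‖b - B 0 ^ 2‖ * r ≤ 4 * ‖B 0‖ := by
  obtain ⟨h1, h2⟩ := univ_half hr hi hne hG hB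
  refine ⟨h1, h2, ?_⟩
  obtain ⟨_, h3⟩ := univ_half (G := fun z => (G z)⁻¹) (B := fun z => -B z) (b := -b) hr
    (fun z hz w hw h => hi hz hw (inv_injective h)) (fun z hz => inv_ne_zero (hne z hz))
    (fun z hz => by
      have e := (hG z hz).inv (hne z hz)
      have e1 : (G z)⁻¹ * -B z = -(G z * B z) / G z ^ 2 := by
        have := hne z hz
        field_simp
      rw [e1]
      exact e) hB.neg
  have e2 : -b + (-B 0) ^ 2 = -(b - B 0 ^ 2) := by ring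
  rw [e2, norm_neg, norm_neg] at h3
  exact h3

end Pool.Agent.Helper69.EK3

end

section

namespace Pool.Agent.Helper39.Area
end Pool.Agent.Helper39.Area
namespace Pool.Agent.Helper52.EK
end Pool.Agent.Helper52.EK
namespace Pool.Agent.Helper67.EK
end Pool.Agent.Helper67.EK

set_option autoImplicit false

open Complex Metric Set Filter Topology

open scoped Real ComplexConjugate

namespace Pool.Agent.Helper69.EK3

open Pool.Agent.Helper39.Area Pool.Agent.Helper52.EK Pool.Agent.Helper67.EK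

/-- `exp (-2 i η)` -/
noncomputable def kq (η : ℝ) : ℂ := -e0 (Real.sin η) (Real.cos η)

/-- the chart of the strip around the point `ξ + i η` -/
noncomputable def oo (ξ η : ℝ) (u : ℂ) : ℂ :=
  pt ξ η + (Complex.log (1 - kq η * u) - Complex.log (1 - u))

/-- its derivative -/
noncomputable def od (η : ℝ) (u : ℂ) : ℂ := -kq η / (1 - kq η * u) + 1 / (1 - u)

theorem kq_eq (η : ℝ) : kq η = ((Real.cos η : ℂ) - (Real.sin η : ℂ) * I) ^ 2 := by
  simp only [kq, e0, neg_neg]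

theorem exp_pt (ξ η : ℝ) : Complex.exp (pt ξ η) =
    (Real.exp ξ : ℂ) * ((Real.cos η : ℂ) + (Real.sin η : ℂ) * I) := by
  rw [pt, Complex.exp_add, Complex.exp_mul_I, ofReal_exp, ofReal_cos, ofReal_sin]

theorem exp_pt_re (ξ η : ℝ) : (Complex.exp (pt ξ η)).re = Real.exp ξ * Real.cos η := by
  rw [Complex.exp_re]
  simp [pt]

theorem exp_pt_im (ξ η : ℝ) : (Complex.exp (pt ξ η)).im = Real.exp ξ * Real.sin η := by
  rw [Complex.exp_im]
  simp [pt]

theorem norm_kq (η : ℝ) : ‖kq η‖ = 1 := by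
  rw [kq_eq, norm_pow]
  have h : ‖(Real.cos η : ℂ) - (Real.sin η : ℂ) * I‖ = 1 := by
    have e : (Real.cos η : ℂ) - (Real.sin η : ℂ) * I = Complex.exp (((-η : ℝ) : ℂ) * I) := by
      rw [Complex.exp_mul_I, ← ofReal_cos, ← ofReal_sin, Real.cos_neg, Real.sin_neg]
      push_cast
      ring
    rw [e, Complex.norm_exp_ofReal_mul_I]
  rw [h, one_pow]

theorem kq_ne_one {η : ℝ} (h0 : 0 < η) (h1 : η < π) : kq η ≠ 1 := by
  have hs := Real.sin_pos_of_pos_of_lt_pi h0 h1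
  intro h
  rw [kq_eq] at h
  have h2 := congrArg Complex.re h
  simp only [pow_two, mul_re, sub_re, sub_im, ofReal_re, ofReal_im, mul_im, I_re, I_im, one_re] at h2
  nlinarith only [Real.sin_sq_add_cos_sq η, hs, h2]

theorem one_sub_kq_ne {η : ℝ} {u : ℂ} (hu : ‖u‖ < 1) : 1 - kq η * u ≠ 0 := by
  intro h
  have h1 : kq η * u = 1 := by linear_combination -h
  have h2 := congrArg (fun w : ℂ => ‖w‖) h1
  simp only [norm_mul, norm_kq, one_mul, norm_one] at h2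
  linarith only [hu, h2]

theorem one_sub_ne' {u : ℂ} (hu : ‖u‖ < 1) : 1 - u ≠ 0 := by
  intro h
  have h1 : u = 1 := by linear_combination -h
  rw [h1, norm_one] at hu
  linarith

theorem re_pos_of {u : ℂ} (hu : ‖u‖ < 1) : 0 < (1 - u).re := by
  have h := Complex.re_le_norm u
  rw [sub_re, one_re]
  linarith

theorem oo_hasDerivAt (ξ η : ℝ) {u : ℂ} (hu : ‖u‖ < 1) : HasDerivAt (oo ξ η) (od η u) u := by
  have hk : ‖kq η * u‖ < 1 := by rw [norm_mul, norm_kq, one_mul]; exact hu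
  have h1 : HasDerivAt (fun u : ℂ => 1 - kq η * u) (-kq η) u := by
    simpa using ((hasDerivAt_id u).const_mul (kq η)).const_sub 1
  have h2 : HasDerivAt (fun u : ℂ => 1 - u) (-1) u := by
    simpa using (hasDerivAt_id u).const_sub 1
  have h3 := h1.clog (Or.inl (re_pos_of hk))
  have h4 := h2.clog (Or.inl (re_pos_of hu))
  have h5 := (h3.sub h4).const_add (pt ξ η)
  have e : od η u = -kq η / (1 - kq η * u) - -1 / (1 - u) := by
    unfold od
    ring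
  rw [e]
  exact h5

theorem oo_zero (ξ η : ℝ) : oo ξ η 0 = pt ξ η := by simp [oo]

theorem oo_exp (ξ η : ℝ) {u : ℂ} (hu : ‖u‖ < 1) :
    Complex.exp (oo ξ η u) * (1 - u) = Complex.exp (pt ξ η) * (1 - kq η * u) := by
  unfold oo
  rw [Complex.exp_add, Complex.exp_sub, Complex.exp_log (one_sub_kq_ne hu),
    Complex.exp_log (one_sub_ne' hu)]
  have := one_sub_ne' hu
  field_simp

theorem od_zero (η : ℝ) : od η 0 = 1 - kq η := by
  simp [od]
  ring

theorem od_hasDerivAt (η : ℝ) : HasDerivAt (od η) (1 - kq η ^ 2) 0 := by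
  have h1 : HasDerivAt (fun u : ℂ => 1 - kq η * u) (-kq η) 0 := by
    simpa using ((hasDerivAt_id (0:ℂ)).const_mul (kq η)).const_sub 1
  have h2 : HasDerivAt (fun u : ℂ => 1 - u) (-1) 0 := by
    simpa using (hasDerivAt_id (0:ℂ)).const_sub 1
  have h3 := ((hasDerivAt_const (0:ℂ) (-kq η)).div h1 (by simp)).add
    ((hasDerivAt_const (0:ℂ) (1:ℂ)).div h2 (by simp))
  have e : 1 - kq η ^ 2 = (0 * (1 - kq η * 0) - -kq η * -kq η) / (1 - kq η * 0) ^ 2 +
      (0 * (1 - 0) - 1 * -1) / (1 - 0) ^ 2 := by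
    simp
    ring
  rw [e]
  exact h3

/-- `conj Z = kq Z` for `Z = exp (pt ξ η)` -/
theorem conj_exp_pt (ξ η : ℝ) :
    conj (Complex.exp (pt ξ η)) = kq η * Complex.exp (pt ξ η) := by
  have h1 : ((Real.cos η : ℂ) - (Real.sin η : ℂ) * I) * ((Real.cos η : ℂ) + (Real.sin η : ℂ) * I)
      = 1 := by
    have h2 : (Real.cos η : ℂ) ^ 2 + (Real.sin η : ℂ) ^ 2 = 1 := by
      exact_mod_cast Real.cos_sq_add_sin_sq η
    linear_combination h2 - (Real.sin η : ℂ) ^ 2 * I_sq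
  rw [exp_pt, kq_eq, map_mul, map_add, map_mul, conj_ofReal, conj_ofReal, conj_ofReal, conj_I]
  linear_combination -(Real.exp ξ : ℂ) * ((Real.cos η : ℂ) - (Real.sin η : ℂ) * I) * h1

/-- the image of the disc is the half plane -/
theorem oo_im {ξ η : ℝ} (h0 : 0 < η) (h1 : η < π) {u : ℂ} (hu : ‖u‖ < 1) :
    0 < (Complex.exp (oo ξ η u)).im := by
  have hs := Real.sin_pos_of_pos_of_lt_pi h0 h1
  set W := Complex.exp (oo ξ η u) with hW
  set Z := Complex.exp (pt ξ η) with hZ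
  have hE : W * (1 - u) = Z - conj Z * u := by
    rw [hW, hZ, oo_exp ξ η hu, conj_exp_pt]
    ring
  have hZi : Z.im = Real.exp ξ * Real.sin η := by rw [hZ, exp_pt_im]
  have hZp : 0 < Z.im := by
    rw [hZi]
    exact mul_pos (Real.exp_pos ξ) hs
  have hn : 0 < ‖1 - u‖ ^ 2 := by
    have := norm_pos_iff.mpr (one_sub_ne' hu)
    (clear * - this; positivity)
  have hu2 : ‖u‖ ^ 2 < 1 := by (clear * - hu; nlinarith only [norm_nonneg u, hu])
  have e1 : W.im * ‖1 - u‖ ^ 2 = Z.im * (1 - ‖u‖ ^ 2) := by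
    have e2 := congrArg (fun w : ℂ => (w * conj (1 - u)).im) hE
    rw [← Complex.normSq_eq_norm_sq, ← Complex.normSq_eq_norm_sq, Complex.normSq_apply,
      Complex.normSq_apply]
    simp only [mul_im, mul_re, sub_re, sub_im, conj_re, conj_im, one_re, one_im, map_sub,
      map_one] at e2 ⊢
    linear_combination e2
  by_contra hc
  push Not at hc
  (clear * - e1 hc hZp hu2; nlinarith only [hZp, hu2, e1, hc])

theorem I_add_exp_ne {ω : ℂ} (h : 0 < (Complex.exp ω).im) : I + Complex.exp ω ≠ 0 := by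
  intro h0
  have h1 := congrArg Complex.im h0
  simp only [add_im, I_im, zero_im] at h1
  linarith only [h, h1]

theorem zf_mem_of {ω : ℂ} (h : 0 < (Complex.exp ω).im) : zf ω ∈ ball (0:ℂ) 1 := by
  rw [mem_ball_zero_iff, zf, norm_div, div_lt_one (norm_pos_iff.mpr (I_add_exp_ne h))]
  have h2 : ‖I - Complex.exp ω‖ ^ 2 < ‖I + Complex.exp ω‖ ^ 2 := by
    rw [← Complex.normSq_eq_norm_sq, ← Complex.normSq_eq_norm_sq, Complex.normSq_apply,
      Complex.normSq_apply]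
    simp only [add_re, add_im, sub_re, sub_im, I_re, I_im]
    linarith only [h]
  exact lt_of_pow_lt_pow_left₀ 2 (norm_nonneg _) h2

/-- the distance estimate -/
theorem oo_ne {ξ η σ r : ℝ} (h0 : 0 < η) (h1 : η < π) (hσ : 0 < σ)
    (hr : 0 ≤ r) (hr1 : r * (Real.exp ξ + σ) ≤ |Real.exp ξ - σ|) {u : ℂ} (hu : ‖u‖ < r)
    (hu1 : ‖u‖ < 1) : Complex.exp (oo ξ η u) ≠ (σ : ℂ) * I := by
  have hs := Real.sin_pos_of_pos_of_lt_pi h0 h1
  have hy := Real.exp_pos ξ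
  intro hc
  have hE := oo_exp ξ η hu1
  rw [hc] at hE
  set Z := Complex.exp (pt ξ η) with hZ
  have hE2 : (conj Z - (σ : ℂ) * I) * u = Z - (σ : ℂ) * I := by
    rw [hZ, conj_exp_pt, ← hZ]
    linear_combination hE
  have hZr : Z.re = Real.exp ξ * Real.cos η := by rw [hZ, exp_pt_re]
  have hZi : Z.im = Real.exp ξ * Real.sin η := by rw [hZ, exp_pt_im]
  have e1 := congrArg (fun w : ℂ => ‖w‖ ^ 2) hE2
  simp only [norm_mul, mul_pow] at e1
  rw [← Complex.normSq_eq_norm_sq, ← Complex.normSq_eq_norm_sq (Z - _), Complex.normSq_apply,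
    Complex.normSq_apply] at e1
  simp only [mul_im, mul_re, sub_re, sub_im, conj_re, conj_im, I_re, I_im, ofReal_re,
    ofReal_im] at e1
  rw [hZr, hZi] at e1
  set y := Real.exp ξ with hyd
  set s := Real.sin η with hsd
  set c := Real.cos η with hcd
  have hsc : s ^ 2 + c ^ 2 = 1 := Real.sin_sq_add_cos_sq η
  have hs1 : s ≤ 1 := Real.sin_le_one η
  have e2 : (y ^ 2 + σ ^ 2 + 2 * y * σ * s) * ‖u‖ ^ 2 = y ^ 2 + σ ^ 2 - 2 * y * σ * s := by
    linear_combination e1 + (-(‖u‖ ^ 2) * y ^ 2 + y ^ 2) * hsc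
  have e3 : r ^ 2 * (y + σ) ^ 2 ≤ (y - σ) ^ 2 := by
    have := mul_nonneg hr (by linarith only [hσ, hy] : 0 ≤ y + σ)
    have h3 : (r * (y + σ)) ^ 2 ≤ |y - σ| ^ 2 := pow_le_pow_left₀ this hr1 2
    rw [sq_abs] at h3
    (clear * - h3; linarith only [h3])
  have e4 : ‖u‖ ^ 2 < r ^ 2 := pow_lt_pow_left₀ hu (norm_nonneg u) (by norm_num)
  have hyσ : 0 < y * σ := mul_pos hy hσ
  have e5 : 0 < y ^ 2 + σ ^ 2 + 2 * y * σ * s := by (clear * - hσ hs; positivity)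
  have e6 : (y ^ 2 + σ ^ 2 - 2 * y * σ * s) * (y + σ) ^ 2 -
      (y - σ) ^ 2 * (y ^ 2 + σ ^ 2 + 2 * y * σ * s) =
      4 * (y * σ) * (y ^ 2 + σ ^ 2) * (1 - s) := by ring
  have e7 : 0 ≤ 4 * (y * σ) * (y ^ 2 + σ ^ 2) * (1 - s) := by
    have : 0 ≤ 1 - s := by linarith only [hs1]
    (clear * - hσ hs1; positivity)
  have e8 : 0 < (y + σ) ^ 2 := by positivity
  have e9 : ‖u‖ ^ 2 * (y + σ) ^ 2 * (y ^ 2 + σ ^ 2 + 2 * y * σ * s) <
      r ^ 2 * (y + σ) ^ 2 * (y ^ 2 + σ ^ 2 + 2 * y * σ * s) := by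
    apply mul_lt_mul_of_pos_right _ e5
    exact mul_lt_mul_of_pos_right e4 e8
  have e10 : r ^ 2 * (y + σ) ^ 2 * (y ^ 2 + σ ^ 2 + 2 * y * σ * s) ≤
      (y - σ) ^ 2 * (y ^ 2 + σ ^ 2 + 2 * y * σ * s) := mul_le_mul_of_nonneg_right e3 e5.le
  have e11 : ‖u‖ ^ 2 * (y + σ) ^ 2 * (y ^ 2 + σ ^ 2 + 2 * y * σ * s) =
      (y ^ 2 + σ ^ 2 - 2 * y * σ * s) * (y + σ) ^ 2 := by
    linear_combination (y + σ) ^ 2 * e2
  (clear * - e7 e9 e10 e11; linarith)

/-- **Koebe and Bieberbach at all points of the strip** -/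
theorem bieb_strip {β : ℂ → ℂ} {R : ℝ} (h : ExtR β R) {a : ℝ} (ha : 0 < a) (ha1 : a < 1)
    {ξ η : ℝ} (h1 : Real.log (tau a) < ξ) (h2 : ξ < 0) (h3 : 0 < η) (h4 : η < π) {r : ℝ}
    (hr : 0 < r) (hr1 : r * (1 + Real.exp ξ) ≤ 1 - Real.exp ξ)
    (hr2 : r * (Real.exp ξ + tau a) ≤ Real.exp ξ - tau a) {X Y : ℂ}
    (hX : X = Xf β a (pt ξ η)) (hY : Y = deriv (Xf β a) (pt ξ η)) :
    Real.sin η * ‖X‖ * r ≤ 1 ∧
    ‖(1 + e0 (Real.sin η) (Real.cos η)) * (2 * X - 1 + Y / X) + 2‖ * r ≤ 4 ∧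
    ‖(1 + e0 (Real.sin η) (Real.cos η)) * (-2 * X - 1 + Y / X) + 2‖ * r ≤ 4 := by
  have hτ : 0 < tau a := by
    unfold tau
    have : 0 < 1 - a := by linarith
    (clear * - ha1 ha; positivity)
  have hs := Real.sin_pos_of_pos_of_lt_pi h3 h4
  have hy := Real.exp_pos ξ
  have hyτ : tau a < Real.exp ξ := (Real.log_lt_iff_lt_exp hτ).mp h1
  have hy1 : Real.exp ξ < 1 := by
    rw [← Real.exp_zero]
    exact Real.exp_lt_exp.mpr h2
  have hrlt : r < 1 := by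
    by_contra hc
    push Not at hc
    (clear * - hr2 hτ hc hyτ; nlinarith only [hr2, hτ, hyτ, hc])
  have hat : a = (1 - tau a) / (1 + tau a) := by
    unfold tau
    field_simp
    ring
  have haB : (a : ℂ) ∈ ball (0:ℂ) 1 := by
    rw [mem_ball_zero_iff, Complex.norm_real, Real.norm_of_nonneg ha.le]
    exact ha1
  have ha0 : (a : ℂ) ≠ 0 := by exact_mod_cast ha.ne'
  have hlt : ∀ u ∈ ball (0:ℂ) r, ‖u‖ < 1 := by
    intro u hu
    rw [mem_ball_zero_iff] at hu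
    (clear * - hrlt hu; linarith)
  have him : ∀ u ∈ ball (0:ℂ) r, 0 < (Complex.exp (oo ξ η u)).im := fun u hu =>
    oo_im h3 h4 (hlt u hu)
  have hmem : ∀ u ∈ ball (0:ℂ) r, zf (oo ξ η u) ∈ ball (0:ℂ) 1 := fun u hu =>
    zf_mem_of (him u hu)
  have hne0 : ∀ u ∈ ball (0:ℂ) r, zf (oo ξ η u) ≠ 0 := by
    intro u hu h0
    have hu' := hu
    rw [mem_ball_zero_iff] at hu'
    rw [zf, div_eq_zero_iff] at h0
    rcases h0 with h0 | h0
    · refine oo_ne (ξ := ξ) (σ := 1) h3 h4 one_pos hr.le ?_ hu' (hlt u hu) ?_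
      · rw [abs_of_neg (by linarith)]
        linarith
      · rw [ofReal_one, one_mul]
        linear_combination -h0
    · exact I_add_exp_ne (him u hu) h0
  have hnea : ∀ u ∈ ball (0:ℂ) r, zf (oo ξ η u) ≠ a := by
    intro u hu h0
    have hu' := hu
    rw [mem_ball_zero_iff] at hu'
    rw [zf, div_eq_iff (I_add_exp_ne (him u hu))] at h0
    refine oo_ne (ξ := ξ) (σ := tau a) h3 h4 hτ hr.le ?_ hu' (hlt u hu) ?_
    · rw [abs_of_pos (by (clear * - hyτ; linarith))]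
      (clear * - hr2; linarith)
    · have e1 : (1 + (a : ℂ)) * Complex.exp (oo ξ η u) = (1 - a) * I := by
        linear_combination -h0
      have e2 : (1 + (a : ℂ)) ≠ 0 := by
        have : (1 + a : ℝ) ≠ 0 := by positivity
        exact_mod_cast this
      have e3 : ((tau a : ℝ) : ℂ) = (1 - a) / (1 + a) := by
        unfold tau
        push_cast
        rfl
      rw [e3, div_mul_eq_mul_div, eq_div_iff e2]
      linear_combination e1
  set G : ℂ → ℂ := fun u => phi β (zf (oo ξ η u)) - phi β a with hG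
  set B : ℂ → ℂ := fun u => 2 * Xf β a (oo ξ η u) * od η u with hB
  have hGne : ∀ u ∈ ball (0:ℂ) r, G u ≠ 0 := by
    intro u hu h0
    exact hnea u hu (h.toExt.inj _ _ (hmem u hu) haB (hne0 u hu) ha0 (sub_eq_zero.mp h0))
  have hGi : InjOn G (ball 0 r) := by
    intro u hu v hv huv
    have e1 : phi β (zf (oo ξ η u)) = phi β (zf (oo ξ η v)) := by
      have : phi β (zf (oo ξ η u)) - phi β a = phi β (zf (oo ξ η v)) - phi β a := huv
      linear_combination this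
    have e2 := h.toExt.inj _ _ (hmem u hu) (hmem v hv) (hne0 u hu) (hne0 v hv) e1
    have e3 : Complex.exp (oo ξ η u) = Complex.exp (oo ξ η v) := by
      unfold zf at e2
      rw [div_eq_div_iff (I_add_exp_ne (him u hu)) (I_add_exp_ne (him v hv))] at e2
      have e4 : (Complex.exp (oo ξ η u) - Complex.exp (oo ξ η v)) * (2 * I) = 0 := by
        linear_combination -e2
      rcases mul_eq_zero.mp e4 with e4 | e4
      · linear_combination e4
      · exact absurd e4 (by simp)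
    have u1 := oo_exp ξ η (hlt u hu)
    have v1 := oo_exp ξ η (hlt v hv)
    rw [e3] at u1
    have e5 : Complex.exp (pt ξ η) * ((kq η - 1) * (u - v)) = 0 := by
      linear_combination (1 - v) * u1 - (1 - u) * v1
    rcases mul_eq_zero.mp e5 with e6 | e6
    · exact absurd e6 (Complex.exp_ne_zero _)
    · rcases mul_eq_zero.mp e6 with e7 | e7
      · exact absurd (by linear_combination e7) (kq_ne_one h3 h4)
      · linear_combination e7
  have hGd : ∀ u ∈ ball (0:ℂ) r, HasDerivAt G (G u * B u) u := by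
    intro u hu
    have d1 := oo_hasDerivAt ξ η (hlt u hu)
    have d2 := (Pool.Agent.Helper97.EK.hasDerivAt_zf (I_add_exp_ne (him u hu))).comp u d1
    have d3 := (hasDerivAt_phi h.toExt.diff (hmem u hu) (hne0 u hu)).comp u d2
    have d4 := d3.sub_const (phi β a)
    have e : G u * B u = dphi β (zf (oo ξ η u)) * (zd (oo ξ η u) * od η u) := by
      have := hGne u hu
      simp only [hG] at this
      simp only [hG, hB]
      unfold Xf
      (clear * - this; field_simp)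
    rw [e]
    exact d4
  obtain ⟨x₁, hx₁, hx₁'⟩ := exists_between h1
  obtain ⟨x₂, hx₂, hx₂'⟩ := exists_between h2
  have hN := E1c h ha ha1 hx₁ hx₂'
  have hω0 : pt ξ η ∈ Rect x₁ x₂ := by
    unfold Rect
    rw [Complex.mem_reProdIm]
    have e1 : (pt ξ η).re = ξ := by simp [pt]
    have e2 : (pt ξ η).im = η := by simp [pt]
    rw [e1, e2]
    exact ⟨⟨hx₁'.le, hx₂.le⟩, ⟨h3.le, h4.le⟩⟩
  have hXa : AnalyticAt ℂ (Xf β a) (pt ξ η) := hN.an _ hω0
  have hX0 : X ≠ 0 := by rw [hX]; exact hN.ne _ hω0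
  have hz1 : ‖(0:ℂ)‖ < 1 := by simp
  have hBd : HasDerivAt B (2 * (Y * od η 0) * od η 0 + 2 * X * (1 - kq η ^ 2)) 0 := by
    have d1 := oo_hasDerivAt ξ η hz1
    have d2 : HasDerivAt (Xf β a) Y (oo ξ η 0) := by
      rw [oo_zero, hY]
      exact hXa.differentiableAt.hasDerivAt
    have d3 := ((d2.comp (0:ℂ) d1).const_mul 2).mul (od_hasDerivAt η)
    have e : 2 * (Y * od η 0) * od η 0 + 2 * X * (1 - kq η ^ 2) =
        2 * (Y * od η 0) * od η 0 + 2 * (Xf β a ∘ oo ξ η) 0 * (1 - kq η ^ 2) := by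
      rw [Function.comp_apply, oo_zero, hX]
    rw [e]
    exact d3
  obtain ⟨k1, k2, k3⟩ := univ_log hr hGi hGne hGd hBd
  have hB0 : B 0 = 2 * X * (1 - kq η) := by
    simp only [hB]
    rw [oo_zero, od_zero, hX]
  have hkn : ‖1 - kq η‖ = 2 * Real.sin η := by
    have e1 : 1 - kq η = (2 * Real.sin η : ℝ) * ((Real.sin η : ℂ) + (Real.cos η : ℂ) * I) := by
      rw [kq_eq]
      push_cast
      have h5 : Complex.cos η ^ 2 + Complex.sin η ^ 2 = 1 := Complex.cos_sq_add_sin_sq _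
      linear_combination -h5 - Complex.sin η ^ 2 * I_sq
    have e2 : ‖(Real.sin η : ℂ) + (Real.cos η : ℂ) * I‖ = 1 := by
      have e3 : ‖(Real.sin η : ℂ) + (Real.cos η : ℂ) * I‖ ^ 2 = 1 := by
        rw [← Complex.normSq_eq_norm_sq, Complex.normSq_apply]
        simp only [add_re, add_im, mul_re, mul_im, ofReal_re, ofReal_im, I_re, I_im, mul_zero,
          mul_one, sub_zero, add_zero, zero_add]
        linarith only [Real.sin_sq_add_cos_sq η]
      have e4 := norm_nonneg ((Real.sin η : ℂ) + (Real.cos η : ℂ) * I)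
      (clear * - e3 e4; nlinarith only [e3, e4])
    rw [e1, norm_mul, e2, mul_one, Complex.norm_real, Real.norm_of_nonneg (by positivity)]
  have hke : 1 + e0 (Real.sin η) (Real.cos η) = 1 - kq η := by
    unfold kq
    ring
  have hXn : 0 < ‖X‖ := norm_pos_iff.mpr hX0
  have hBn : ‖B 0‖ = 4 * (Real.sin η * ‖X‖) := by
    rw [hB0, norm_mul, norm_mul, hkn]
    have : ‖(2:ℂ)‖ = 2 := by simp
    rw [this]
    ring
  have hBp : 0 < ‖B 0‖ := by
    rw [hBn]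
    positivity
  refine ⟨?_, ?_, ?_⟩
  · rw [hBn] at k1
    linarith only [k1]
  · have e : 2 * (Y * od η 0) * od η 0 + 2 * X * (1 - kq η ^ 2) + B 0 ^ 2 =
        B 0 * ((1 - kq η) * (2 * X - 1 + Y / X) + 2) := by
      rw [hB0, od_zero]
      field_simp
      ring
    rw [e, norm_mul] at k2
    rw [hke]
    have : ‖B 0‖ * (‖(1 - kq η) * (2 * X - 1 + Y / X) + 2‖ * r) ≤ ‖B 0‖ * 4 := by linarith only [k2]
    exact le_of_mul_le_mul_left this hBp
  · have e : 2 * (Y * od η 0) * od η 0 + 2 * X * (1 - kq η ^ 2) - B 0 ^ 2 =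
        B 0 * ((1 - kq η) * (-2 * X - 1 + Y / X) + 2) := by
      rw [hB0, od_zero]
      field_simp
      ring
    rw [e, norm_mul] at k3
    rw [hke]
    have : ‖B 0‖ * (‖(1 - kq η) * (-2 * X - 1 + Y / X) + 2‖ * r) ≤ ‖B 0‖ * 4 := by linarith only [k3]
    exact le_of_mul_le_mul_left this hBp

end Pool.Agent.Helper69.EK3

end

section

namespace Pool.Agent.Helper39.Area
end Pool.Agent.Helper39.Area
namespace Pool.Agent.Helper52.EK
end Pool.Agent.Helper52.EK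
namespace Pool.Agent.Helper70.EK
end Pool.Agent.Helper70.EK

set_option autoImplicit false

open Complex MeasureTheory Metric Set

open scoped Real ComplexConjugate

namespace Pool.Agent.Helper83.EK

open Pool.Agent.Helper39.Area Pool.Agent.Helper52.EK Pool.Agent.Helper70.EK

theorem integrableOn_rect {F : ℝ × ℝ → ℝ} {x₁ x₂ : ℝ}
    (hc : ContinuousOn F (Icc x₁ x₂ ×ˢ Icc 0 π)) :
    IntegrableOn F (Ioc x₁ x₂ ×ˢ Ioo 0 π) :=
  (hc.integrableOn_compact (isCompact_Icc.prod isCompact_Icc)).mono_set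
    (prod_mono Ioc_subset_Icc_self Ioo_subset_Icc_self)

/-- comparison of the energies: `∬ F₁ ≤ p ∬ F₂ + q ∬ F₃` -/
theorem II_le3 {F₁ F₂ F₃ : ℝ → ℝ → ℝ} {x₁ x₂ p q : ℝ} (h : x₁ ≤ x₂)
    (c₁ : ContinuousOn (fun v : ℝ × ℝ => F₁ v.1 v.2) (Icc x₁ x₂ ×ˢ Icc 0 π))
    (c₂ : ContinuousOn (fun v : ℝ × ℝ => F₂ v.1 v.2) (Icc x₁ x₂ ×ˢ Icc 0 π))
    (c₃ : ContinuousOn (fun v : ℝ × ℝ => F₃ v.1 v.2) (Icc x₁ x₂ ×ˢ Icc 0 π))
    (hle : ∀ ξ η : ℝ, F₁ ξ η ≤ p * F₂ ξ η + q * F₃ ξ η) :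
    II x₁ x₂ F₁ ≤ p * II x₁ x₂ F₂ + q * II x₁ x₂ F₃ := by
  have i₁ := integrableOn_rect c₁
  have i₂ := integrableOn_rect c₂
  have i₃ := integrableOn_rect c₃
  rw [II_eq h i₁, II_eq h i₂, II_eq h i₃, ← integral_const_mul, ← integral_const_mul,
    ← integral_add (i₂.const_mul p) (i₃.const_mul q)]
  exact setIntegral_mono_on i₁ ((i₂.const_mul p).add (i₃.const_mul q))
    (measurableSet_Ioc.prod measurableSet_Ioo) (fun v _ => hle v.1 v.2)

theorem II_nonneg {F : ℝ → ℝ → ℝ} {x₁ x₂ : ℝ} (h : x₁ ≤ x₂) (hF : ∀ ξ η : ℝ, 0 ≤ F ξ η) :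
    0 ≤ II x₁ x₂ F := by
  unfold II
  apply intervalIntegral.integral_nonneg h
  intro ξ _
  exact intervalIntegral.integral_nonneg Real.pi_pos.le (fun η _ => hF ξ η)

theorem pt_mapsTo (x₁ x₂ : ℝ) :
    MapsTo (fun p : ℝ × ℝ => pt p.1 p.2) (Icc x₁ x₂ ×ˢ Icc 0 π) (Rect x₁ x₂) := by
  rintro ⟨ξ, η⟩ ⟨hξ, hη⟩
  change pt ξ η ∈ Rect x₁ x₂
  unfold Rect
  rw [Complex.mem_reProdIm]
  have e1 : (pt ξ η).re = ξ := by simp [pt]
  have e2 : (pt ξ η).im = η := by simp [pt]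
  rw [e1, e2]
  exact ⟨hξ, hη⟩

theorem tau_pos {a : ℝ} (ha : 0 < a) (ha1 : a < 1) : 0 < tau a := by
  unfold tau
  exact div_pos (by (clear * - ha1; linarith only [ha1])) (by (clear * - ha; linarith only [ha]))

theorem kap_contOn {a x₁ x₂ : ℝ} (ha : 0 < a) (ha1 : a < 1) (h1 : Real.log (tau a) < x₁)
    (h2 : x₂ < 0) :
    ContinuousOn (fun v : ℝ × ℝ => kap a (pt v.1 v.2)) (Icc x₁ x₂ ×ˢ Icc 0 π) := by
  have ht := tau_pos ha ha1
  have hE : Continuous (fun v : ℝ × ℝ => Complex.exp (pt v.1 v.2)) :=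
    Complex.continuous_exp.comp continuous_pt
  unfold kap
  apply ContinuousOn.div
  · exact ((hE.pow 2).mul continuous_const).continuousOn
  · exact (((hE.pow 2).add continuous_const).mul ((hE.pow 2).add continuous_const)).continuousOn
  · rintro ⟨ξ, η⟩ ⟨hξ, _⟩
    have hξ1 : x₁ ≤ ξ := hξ.1
    have hξ2 : ξ ≤ x₂ := hξ.2
    have hn : ‖Complex.exp (pt ξ η)‖ = Real.exp ξ := by
      rw [Complex.norm_exp]
      simp [pt]
    have h3 : tau a < Real.exp ξ := by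
      rw [← Real.exp_log ht]
      exact Real.exp_lt_exp.mpr (by linarith only [h1, hξ1])
    have h4 : Real.exp ξ < 1 := by
      rw [← Real.exp_zero]
      exact Real.exp_lt_exp.mpr (by (clear * - h2 hξ2; linarith))
    have h5 := Real.exp_pos ξ
    apply mul_ne_zero
    · intro h
      have h6 : Complex.exp (pt ξ η) ^ 2 = -((tau a : ℂ) ^ 2) := by linear_combination h
      have h7 : ‖Complex.exp (pt ξ η) ^ 2‖ = tau a ^ 2 := by
        rw [h6, norm_neg, norm_pow, Complex.norm_real, Real.norm_eq_abs, abs_of_pos ht]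
      rw [norm_pow, hn] at h7
      nlinarith only [ht, h3, h7]
    · intro h
      have h6 : Complex.exp (pt ξ η) ^ 2 = -1 := by linear_combination h
      have h7 : ‖Complex.exp (pt ξ η) ^ 2‖ = 1 := by
        rw [h6, norm_neg, norm_one]
      rw [norm_pow, hn] at h7
      (clear * - h4 h7 h5; nlinarith only [h4, h5, h7])

/-- the threshold: the two halves of the strip are far apart for `a` close to one -/
theorem tau_far {a A : ℝ} (ha : 1 - Real.exp (-2 * A) < a) (ha0 : 0 < a) (ha1 : a < 1) :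
    Real.log (tau a) + A ≤ -A := by
  have ht := tau_pos ha0 ha1
  have h1 : tau a ≤ Real.exp (-2 * A) := by
    unfold tau
    rw [div_le_iff₀ (by (clear * - ha0; linarith only [ha0]))]
    have := Real.exp_pos (-2 * A)
    (clear * - ha0 ha1 ha; nlinarith only [ha, ha0, ha1])
  have h2 : Real.log (tau a) ≤ -2 * A := by
    rw [Real.log_le_iff_le_exp ht]
    exact h1
  (clear * - h2; linarith)

end Pool.Agent.Helper83.EK

end

section

namespace Pool.Agent.Helper39.Area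
end Pool.Agent.Helper39.Area
namespace Pool.Agent.Helper52.EK
end Pool.Agent.Helper52.EK

set_option autoImplicit false

open Complex MeasureTheory Metric Set

open scoped Real ComplexConjugate

namespace Pool.Agent.Helper70.EK

open Pool.Agent.Helper39.Area Pool.Agent.Helper52.EK

theorem E3_of_b
    (E3b : ∀ A : ℝ, 1 ≤ A → ∃ C : ℝ, ∀ (w : ℂ → ℂ) (a : ℝ),
      ContinuousOn w {z | 0 < ‖z‖ ∧ ‖z‖ < 1} → (∀ z, ‖w z‖ ≤ 1) → Real.exp (-1) < a → a < 1 →
      Real.log (tau a) + A ≤ -A →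
      Kf w 1 (-1) (Real.log a) ≤ π⁻¹ * II (Real.log (tau a) + A) (-A)
        (fun ξ η => ‖ee 1 (zf (pt ξ η)) - w (zf (pt ξ η))‖ ^ 2) + C)
    {G : ℂ → ℂ} {L : ℝ} (hG : GLip G L) : ∀ A : ℝ, 1 ≤ A → ∃ C : ℝ,
    ∀ (β : ℂ → ℂ) (R a : ℝ), ExtR β R → Real.exp (-1) < a → a < 1 →
    Real.log (tau a) + A ≤ -A →
    Kf (wf G β) 1 (-1) (Real.log a) ≤ π⁻¹ * II (Real.log (tau a) + A) (-A)
      (fun ξ η => TG G (Xf β a (pt ξ η)) (deriv (Xf β a) (pt ξ η)) (Real.sin η) (Real.cos η))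
      + C := by
  apply E3_of
  · intro β R h a ha ha1 x₁ x₂ h1 h2
    exact Pool.Agent.Helper67.EK.E1c h ha ha1 h1 h2
  · intro ξ η h0 h1 hξ
    exact Pool.Agent.Helper97.EK.E3a1 h0 h1 hξ
  · intro β h a ha ha1 ξ η h0 h1 hξ hξ1
    exact Pool.Agent.Helper97.EK.E3a2 h ha ha1 h0 h1 hξ hξ1
  · exact E3b
  · exact hG

end Pool.Agent.Helper70.EK

end

section

namespace Pool.Agent.Helper52.EK
end Pool.Agent.Helper52.EK

set_option autoImplicit false

open Complex MeasureTheory Metric Set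

open scoped Real ComplexConjugate

namespace Pool.Agent.Helper44.EK

open Pool.Agent.Helper52.EK

theorem CO_T {x₁ x₂ : ℝ} {X : ℂ → ℂ} (hX : NiceX X x₁ x₂) {T : ℂ → ℂ → ℝ → ℝ → ℝ}
    (hTc : ContinuousOn (fun p : ℂ × ℂ × ℝ × ℝ => T p.1 p.2.1 p.2.2.1 p.2.2.2) {p | p.1 ≠ 0}) :
    CO x₁ x₂ (fun ξ η => T (X (pt ξ η)) (deriv X (pt ξ η)) (Real.sin η) (Real.cos η)) := by
  have c1 := comp_pt hX.an.continuousOn
  have c2 := comp_pt (X := deriv X) hX.an.deriv.continuousOn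
  have c3 : ContinuousOn (fun p : ℝ × ℝ => Real.sin p.2) (RR x₁ x₂) :=
    (Real.continuous_sin.comp continuous_snd).continuousOn
  have c4 : ContinuousOn (fun p : ℝ × ℝ => Real.cos p.2) (RR x₁ x₂) :=
    (Real.continuous_cos.comp continuous_snd).continuousOn
  exact hTc.comp (c1.prodMk (c2.prodMk (c3.prodMk c4))) fun p hp => hX.ne _ (pt_mem hp)

/-- E4d for a general functional `T`. -/
theorem strip_gen {κ₂ : ℝ} (hκ : 0 ≤ κ₂) {T : ℂ → ℂ → ℝ → ℝ → ℝ}
    (hT0 : ∀ (X Y : ℂ) (s c : ℝ), 0 ≤ T X Y s c)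
    (hTc : ContinuousOn (fun p : ℂ × ℂ × ℝ × ℝ => T p.1 p.2.1 p.2.2.1 p.2.2.2) {p | p.1 ≠ 0})
    {U Ux Uy Lap V Vx Vy V2 V2x V2y W Wx Wy W2 W2x W2y : ℂ → ℝ}
    (hU : C2f U Ux Uy Lap) (hV : C1f V Vx Vy) (hV2 : C1f V2 V2x V2y) (hW : C1f W Wx Wy)
    (hW2 : C1f W2 W2x W2y)
    {C : ℝ} (bU : ∀ X, |U X| ≤ C * ‖X - 1‖ ^ 2) (bW : ∀ X, |W X| ≤ C * ‖X - 1‖ ^ 2)
    (bW2 : ∀ X, |W2 X| ≤ C * ‖X - 1‖ ^ 2)
    (hp : ∀ X Y : ℂ, X ≠ 0 → ∀ s c : ℝ, s ^ 2 + c ^ 2 = 1 →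
      T X Y s c ≤ κ₂ * ‖X - 1‖ ^ 2 + (s ^ 2 * Lap X * ‖Y‖ ^ 2 - 2 * (c ^ 2 - s ^ 2) * U X)
        + (s ^ 2 * (Wx X * Y.re + Wy X * Y.im) + 2 * s * c * (W2x X * Y.re + W2y X * Y.im))
        + (s ^ 2 * (-Vx X * Y.im + Vy X * Y.re) + 2 * s * c * V X)
        + (2 * s * c * (-V2x X * Y.im + V2y X * Y.re) + 2 * (c ^ 2 - s ^ 2) * V2 X)) :
    StripIneq κ₂ T := by
  obtain ⟨C', hcut⟩ := Pool.Agent.Helper56.EK.cutoff
  refine ⟨3 * (C' * C), fun X x₁ x₂ l hl hx hX => ?_⟩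
  obtain ⟨χ, χ₁, χ₂, d1, d2, c2, e1, e2, e3, e4, b01, b1, k1, k2⟩ := hcut x₁ x₂ l hl hx
  have hx12 : x₁ ≤ x₂ := by (clear * - hl hx; linarith only [hl, hx])
  have hl0 : 0 < l := by (clear * - hl; linarith)
  have hχ : Continuous χ := continuous_iff_continuousAt.2 fun ξ => (d1 ξ).continuousAt
  have hχ₁ : Continuous χ₁ := continuous_iff_continuousAt.2 fun ξ => (d2 ξ).continuousAt
  have hCC : 0 ≤ C' / l := (abs_nonneg _).trans (k1 0)
  -- continuity
  have cX := hX.an.continuousOn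
  have cY : ContinuousOn (deriv X) (Rect x₁ x₂) := hX.an.deriv.continuousOn
  have yre : CO x₁ x₂ (fun ξ η => (deriv X (pt ξ η)).re) := CO_comp cY continuous_re
  have yim : CO x₁ x₂ (fun ξ η => (deriv X (pt ξ η)).im) := CO_comp cY continuous_im
  have yn : CO x₁ x₂ (fun ξ η => ‖deriv X (pt ξ η)‖ ^ 2) := CO_comp cY (continuous_norm.pow 2)
  have n1 : CO x₁ x₂ (fun ξ η => ‖X (pt ξ η) - 1‖ ^ 2) :=
    CO_comp cX ((continuous_id.sub continuous_const).norm.pow 2)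
  have xχ : CO x₁ x₂ (fun ξ _ => χ ξ) := CO_xi hχ
  have xχ₁ : CO x₁ x₂ (fun ξ _ => χ₁ ξ) := CO_xi hχ₁
  have xχ₂ : CO x₁ x₂ (fun ξ _ => χ₂ ξ) := CO_xi c2
  have s2 : CO x₁ x₂ (fun _ η => Real.sin η ^ 2) := CO_eta (by fun_prop)
  have sc : CO x₁ x₂ (fun _ η => 2 * Real.sin η * Real.cos η) := CO_eta (by fun_prop)
  have cc : CO x₁ x₂ (fun _ η => 2 * (Real.cos η ^ 2 - Real.sin η ^ 2)) :=
    CO_eta (by fun_prop)
  have hLap : Continuous Lap := by
    obtain ⟨Uxx, Uxy, Uyy, g1, g2, g3⟩ := hU.h2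
    have : Lap = fun X => Uxx X + Uyy X := funext g3
    rw [this]
    exact g1.cx.add g2.cy
  have oU := CO_comp cX (C1f.continuous hU.h1)
  have oL := CO_comp cX hLap
  have oV := CO_comp cX (C1f.continuous hV)
  have oVx := CO_comp cX hV.cx
  have oVy := CO_comp cX hV.cy
  have oV2 := CO_comp cX (C1f.continuous hV2)
  have oV2x := CO_comp cX hV2.cx
  have oV2y := CO_comp cX hV2.cy
  have oW := CO_comp cX (C1f.continuous hW)
  have oWx := CO_comp cX hW.cx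
  have oWy := CO_comp cX hW.cy
  have oW2 := CO_comp cX (C1f.continuous hW2)
  have oW2x := CO_comp cX hW2.cx
  have oW2y := CO_comp cX hW2.cy
  have oT := CO_T hX hTc
  -- the parts
  obtain ⟨F0, hF0⟩ : ∃ F : ℝ → ℝ → ℝ, F = fun ξ η => χ ξ * (κ₂ * ‖X (pt ξ η) - 1‖ ^ 2) :=
    ⟨_, rfl⟩
  obtain ⟨F1, hF1⟩ : ∃ F : ℝ → ℝ → ℝ, F = fun ξ η => χ ξ * (Real.sin η ^ 2 *
      Lap (X (pt ξ η)) * ‖deriv X (pt ξ η)‖ ^ 2 -
        2 * (Real.cos η ^ 2 - Real.sin η ^ 2) * U (X (pt ξ η))) := ⟨_, rfl⟩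
  obtain ⟨F2, hF2⟩ : ∃ F : ℝ → ℝ → ℝ, F = fun ξ η => χ ξ * (Real.sin η ^ 2 *
      (Wx (X (pt ξ η)) * (deriv X (pt ξ η)).re + Wy (X (pt ξ η)) * (deriv X (pt ξ η)).im)) :=
    ⟨_, rfl⟩
  obtain ⟨F3, hF3⟩ : ∃ F : ℝ → ℝ → ℝ, F = fun ξ η => χ ξ * (2 * Real.sin η * Real.cos η *
      (W2x (X (pt ξ η)) * (deriv X (pt ξ η)).re + W2y (X (pt ξ η)) * (deriv X (pt ξ η)).im)) :=
    ⟨_, rfl⟩
  obtain ⟨F4, hF4⟩ : ∃ F : ℝ → ℝ → ℝ, F = fun ξ η => χ ξ * (Real.sin η ^ 2 *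
      (-Vx (X (pt ξ η)) * (deriv X (pt ξ η)).im + Vy (X (pt ξ η)) * (deriv X (pt ξ η)).re) +
        2 * Real.sin η * Real.cos η * V (X (pt ξ η))) := ⟨_, rfl⟩
  obtain ⟨F5, hF5⟩ : ∃ F : ℝ → ℝ → ℝ, F = fun ξ η => χ ξ * (2 * Real.sin η * Real.cos η *
      (-V2x (X (pt ξ η)) * (deriv X (pt ξ η)).im + V2y (X (pt ξ η)) * (deriv X (pt ξ η)).re) +
        2 * (Real.cos η ^ 2 - Real.sin η ^ 2) * V2 (X (pt ξ η))) := ⟨_, rfl⟩
  have k0 : CO x₁ x₂ F0 := by
    rw [hF0]; exact xχ.mul ((CO_const κ₂).mul n1)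
  have k1' : CO x₁ x₂ F1 := by
    rw [hF1]; exact xχ.mul (((s2.mul oL).mul yn).sub (cc.mul oU))
  have k2' : CO x₁ x₂ F2 := by
    rw [hF2]; exact xχ.mul (s2.mul ((oWx.mul yre).add (oWy.mul yim)))
  have k3 : CO x₁ x₂ F3 := by
    rw [hF3]; exact xχ.mul (sc.mul ((oW2x.mul yre).add (oW2y.mul yim)))
  have k4 : CO x₁ x₂ F4 := by
    rw [hF4]; exact xχ.mul ((s2.mul ((oVx.neg.mul yim).add (oVy.mul yre))).add (sc.mul oV))
  have k5 : CO x₁ x₂ F5 := by
    rw [hF5]; exact xχ.mul ((sc.mul ((oV2x.neg.mul yim).add (oV2y.mul yre))).add (cc.mul oV2))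
  -- the identities
  have i1 : II x₁ x₂ F1 = II x₁ x₂ (fun ξ η => χ₂ ξ * (Real.sin η ^ 2 * U (X (pt ξ η)))) := by
    rw [hF1]
    exact Pool.Agent.Helper78.EK.nullU hU hx12 hX.an d1 d2 c2 e1 e2 e3 e4 hd_sq hd_sc (by fun_prop) (by simp) (by simp)
      (by simp) (by simp)
  have i2 : II x₁ x₂ F2 = - II x₁ x₂ (fun ξ η => χ₁ ξ * (Real.sin η ^ 2 * W (X (pt ξ η)))) := by
    rw [hF2]
    exact Pool.Agent.Helper4.EK.nullW hW hx12 hX.an d1 hχ₁ e1 e2 (by fun_prop)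
  have i3 : II x₁ x₂ F3 =
      - II x₁ x₂ (fun ξ η => χ₁ ξ * (2 * Real.sin η * Real.cos η * W2 (X (pt ξ η)))) := by
    rw [hF3]
    exact Pool.Agent.Helper4.EK.nullW hW2 hx12 hX.an d1 hχ₁ e1 e2 (by fun_prop)
  have i4 : II x₁ x₂ F4 = 0 := by
    rw [hF4]
    exact Pool.Agent.Helper4.EK.nullV hV hx12 hX.an hχ hd_sq (by fun_prop) (by simp) (by simp)
  have i5 : II x₁ x₂ F5 = 0 := by
    rw [hF5]
    exact Pool.Agent.Helper4.EK.nullV hV2 hx12 hX.an hχ hd_sc (by fun_prop) (by simp) (by simp)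
  -- the error terms
  have sin1 : ∀ η, |Real.sin η ^ 2| ≤ 1 := fun η => by
    rw [abs_of_nonneg (sq_nonneg _)]
    (clear * -; nlinarith only [Real.sin_sq_add_cos_sq η])
  have sin2 : ∀ η, |2 * Real.sin η * Real.cos η| ≤ 1 := fun η => by
    rw [abs_le]
    constructor
    · linarith only [Real.sin_sq_add_cos_sq η, sq_nonneg (Real.sin η + Real.cos η)]
    · linarith only [Real.sin_sq_add_cos_sq η, sq_nonneg (Real.sin η - Real.cos η)]
  have bd : ∀ {f g : ℝ} {u n : ℝ}, |f| ≤ C' / l → |g| ≤ 1 → |u| ≤ C * n →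
      |f * (g * u)| ≤ C' / l * C * n := by
    intro f g u n h1 h2 h3
    rw [abs_mul, abs_mul, mul_assoc (C' / l)]
    refine mul_le_mul h1 ?_ (mul_nonneg (abs_nonneg _) (abs_nonneg _)) hCC
    calc |g| * |u| ≤ 1 * |u| := mul_le_mul_of_nonneg_right h2 (abs_nonneg _)
      _ = |u| := one_mul _
      _ ≤ C * n := h3
  have r1 := (err_le hx12 (F := fun ξ η => χ₂ ξ * (Real.sin η ^ 2 * U (X (pt ξ η))))
    (xχ₂.mul (s2.mul oU)) n1 fun ξ η => bd (k2 ξ) (sin1 η) (bU _)).1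
  have r2 := (err_le hx12 (F := fun ξ η => χ₁ ξ * (Real.sin η ^ 2 * W (X (pt ξ η))))
    (xχ₁.mul (s2.mul oW)) n1 fun ξ η => bd (k1 ξ) (sin1 η) (bW _)).2
  have r3 := (err_le hx12
    (F := fun ξ η => χ₁ ξ * (2 * Real.sin η * Real.cos η * W2 (X (pt ξ η))))
    (xχ₁.mul (sc.mul oW2)) n1 fun ξ η => bd (k1 ξ) (sin2 η) (bW2 _)).2
  have r0 : II x₁ x₂ F0 ≤ κ₂ * II x₁ x₂ (fun ξ η => ‖X (pt ξ η) - 1‖ ^ 2) := by
    rw [← II_const_mul]
    refine II_mono hx12 k0 ((CO_const κ₂).mul n1) fun ξ _ η _ => ?_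
    rw [hF0]
    have h1 : 0 ≤ κ₂ * ‖X (pt ξ η) - 1‖ ^ 2 := mul_nonneg hκ (sq_nonneg _)
    have h2 := (b01 ξ).2
    simp only
    (clear * - h1 h2; nlinarith only [h1, h2])
  -- the sum
  have hsum : II x₁ x₂ (fun ξ η => F0 ξ η + F1 ξ η + F2 ξ η + F3 ξ η + F4 ξ η + F5 ξ η) =
      II x₁ x₂ F0 + II x₁ x₂ F1 + II x₁ x₂ F2 + II x₁ x₂ F3 + II x₁ x₂ F4 + II x₁ x₂ F5 := by
    rw [II_add hx12 (((((k0.add k1').add k2').add k3)).add k4) k5,
      II_add hx12 ((((k0.add k1').add k2').add k3)) k4,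
      II_add hx12 ((k0.add k1').add k2') k3, II_add hx12 (k0.add k1') k2', II_add hx12 k0 k1']
  have hS : CO x₁ x₂ (fun ξ η => F0 ξ η + F1 ξ η + F2 ξ η + F3 ξ η + F4 ξ η + F5 ξ η) :=
    ((((k0.add k1').add k2').add k3).add k4).add k5
  have hle : ∀ ξ ∈ Icc x₁ x₂, ∀ η ∈ Icc (0:ℝ) π,
      χ ξ * T (X (pt ξ η)) (deriv X (pt ξ η)) (Real.sin η) (Real.cos η) ≤
        F0 ξ η + F1 ξ η + F2 ξ η + F3 ξ η + F4 ξ η + F5 ξ η := by
    intro ξ hξ η hη
    have hne : X (pt ξ η) ≠ 0 := hX.ne _ (pt_mem (p := (ξ, η)) ⟨hξ, hη⟩)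
    have h1 := hp (X (pt ξ η)) (deriv X (pt ξ η)) hne (Real.sin η) (Real.cos η)
      (Real.sin_sq_add_cos_sq η)
    have h2 := mul_le_mul_of_nonneg_left h1 (b01 ξ).1
    refine h2.trans (le_of_eq ?_)
    rw [hF0, hF1, hF2, hF3, hF4, hF5]
    ring
  have hmain : II (x₁ + l) (x₂ - l) (fun ξ η =>
      T (X (pt ξ η)) (deriv X (pt ξ η)) (Real.sin η) (Real.cos η)) ≤
      II x₁ x₂ (fun ξ η => χ ξ *
        T (X (pt ξ η)) (deriv X (pt ξ η)) (Real.sin η) (Real.cos η)) := by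
    refine II_sub_le (by linarith only [hl0]) hx (by linarith only [hl0]) (xχ.mul oT)
      (oT.mono (by linarith only [hl0]) (by linarith only [hl0])) (fun ξ _ η _ => ?_) fun ξ hξ η _ => ?_
    · exact mul_nonneg (b01 ξ).1 (hT0 _ _ _ _)
    · rw [b1 ξ hξ, one_mul]
  have hmid := II_mono hx12 (xχ.mul oT) hS hle
  rw [hsum, i1, i2, i3, i4, i5] at hmid
  refine (hmain.trans hmid).trans ?_
  have e : (κ₂ + 3 * (C' * C) / l) * II x₁ x₂ (fun ξ η => ‖X (pt ξ η) - 1‖ ^ 2) =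
      κ₂ * II x₁ x₂ (fun ξ η => ‖X (pt ξ η) - 1‖ ^ 2) +
        3 * (C' / l * C * II x₁ x₂ (fun ξ η => ‖X (pt ξ η) - 1‖ ^ 2)) := by
    ring
  rw [e]
  linarith only [r1, r2, r3, r0]

end Pool.Agent.Helper44.EK

end
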