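import Mathlib
import Pool.Agent.Helper14.CMF.T05
import Pool.Agent.Helper14.CMF.T11
import Pool.Agent.Helper14.CMF.T03
import Pool.Agent.Helper14.CMF.T10
import Pool.Agent.Helper14.CMF.T08
import Pool.Agent.Helper14.CMF.T07
import Pool.Agent.Helper14.CMF.T09

set_option linter.all false

section

namespace Pool.EK71
end Pool.EK71
namespace Pool.Agent.Helper52.EK
end Pool.Agent.Helper52.EK
namespace Pool.Agent.Helper2.EK
end Pool.Agent.Helper2.EK
namespace Pool.Agent.Helper71.EK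
end Pool.Agent.Helper71.EK

/-!
From the kernel checks of one certificate to the pointwise inequality.
-/

set_option autoImplicit false

open Complex

namespace Pool.EK71

def eqI : ℤ → ℤ → Bool
  | Int.ofNat a, Int.ofNat b => Nat.beq a b
  | Int.negSucc a, Int.negSucc b => Nat.beq a b
  | _, _ => false

lemma eqI_sound {a b : ℤ} (h : eqI a b = true) : a = b := by
  match a, b, h with
  | Int.ofNat a, Int.ofNat b, h => exact congrArg Int.ofNat (Nat.eq_of_beq_eq_true h)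
  | Int.negSucc a, Int.negSucc b, h => exact congrArg Int.negSucc (Nat.eq_of_beq_eq_true h)
  | Int.ofNat a, Int.negSucc b, h => exact absurd h (by simp [eqI])
  | Int.negSucc a, Int.ofNat b, h => exact absurd h (by simp [eqI])

def eq1 : List ℤ → List ℤ → Bool
  | [], [] => true
  | a :: p, b :: q => eqI a b && eq1 p q
  | _, _ => false

lemma eq1_sound {p q : List ℤ} (h : eq1 p q = true) : p = q := by
  induction p generalizing q with
  | nil => cases q with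
    | nil => rfl
    | cons b q => simp [eq1] at h
  | cons a p ih => cases q with
    | nil => simp [eq1] at h
    | cons b q =>
      simp only [eq1, Bool.and_eq_true] at h
      rw [eqI_sound h.1, ih h.2]

def eq2 : BP → BP → Bool
  | [], [] => true
  | a :: p, b :: q => eq1 a b && eq2 p q
  | _, _ => false

lemma eq2_sound {p q : BP} (h : eq2 p q = true) : p = q := by
  induction p generalizing q with
  | nil => cases q with
    | nil => rfl
    | cons b q => simp [eq2] at h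
  | cons a p ih => cases q with
    | nil => simp [eq2] at h
    | cons b q =>
      simp only [eq2, Bool.and_eq_true] at h
      rw [eq1_sound h.1, ih h.2]

/-- the literal list `lit` is the triangular form of `P` -/
def rp (N : ℕ) (P lit : BP) : Bool := fits (N + 1) P && eq2 (toTri (N + 1) P) lit

lemma rp_sound {N : ℕ} {P lit : BP} (h : rp N P lit = true) (x y : ℝ) :
    ev2 x y lit = ev2 x y P := by
  simp only [rp, Bool.and_eq_true] at h
  rw [← eq2_sound h.2, toTri_ev x y (N + 1) P h.1]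

/-- five trees with common denominator -/
structure Cov where
  e : ℤ
  t0 : Tree
  t1 : Tree
  t2 : Tree
  t3 : Tree
  t4 : Tree

def Cov.ok (T : Cov) (D : Dat) : Bool :=
  D.shape && ilt 0 T.e &&
  chk2 D 0 T.e T.t0 (Int.neg T.e) T.e (Int.neg T.e) T.e &&
  chk2 D 1 T.e T.t1 0 T.e (Int.neg T.e) T.e &&
  chk2 D 2 T.e T.t2 0 T.e (Int.neg T.e) T.e &&
  chk2 D 3 T.e T.t3 0 T.e (Int.neg T.e) T.e &&
  chk2 D 4 T.e T.t4 0 T.e (Int.neg T.e) T.e

lemma Cov.sound {T : Cov} {D : Dat} (h : T.ok D = true) (x y : ℝ) : Good D x y := by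
  simp only [Cov.ok, Bool.and_eq_true, ilt, decide_eq_true_eq] at h
  obtain ⟨⟨⟨⟨⟨⟨h0, h1⟩, h2⟩, h3⟩, h4⟩, h5⟩, h6⟩ := h
  exact cover2 h0 T.e h1 T.t0 T.t1 T.t2 T.t3 T.t4 h2 h3 h4 h5 h6 x y

/-- sum of absolute values of the coefficients -/
def nm1 : List ℤ → ℕ
  | [] => 0
  | a :: p => a.natAbs + nm1 p

def nm2 : BP → ℕ
  | [] => 0
  | r :: P => nm1 r + nm2 P

lemma nm1_le {y M : ℝ} (hM : 1 ≤ M) (hy : |y| ≤ M) (n : ℕ) (l : List ℤ)
    (h : fitsRow (n + 1) l = true) : |ev1 y l| ≤ nm1 l * M ^ n := by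
  have hM0 : 0 ≤ M := by (clear * - hM; linarith only [hM])
  induction n generalizing l with
  | zero =>
    cases l with
    | nil => simp [ev1, nm1]
    | cons a l =>
      simp only [fitsRow] at h
      rw [ev1, isz_ev y l h, nm1]
      simp only [mul_zero, add_zero, pow_zero, mul_one]
      push_cast
      have : (0 : ℝ) ≤ (nm1 l : ℝ) := by (clear * -; positivity)
      have h2 : |(a : ℝ)| = ((a.natAbs : ℕ) : ℝ) := by
        rw [← Int.cast_abs, Int.abs_eq_natAbs]; simp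
      rw [h2]; push_cast; (clear * -; linarith only [])
  | succ n ih =>
    cases l with
    | nil => simp [ev1, nm1]
    | cons a l =>
      simp only [fitsRow] at h
      have h1 := ih l h
      rw [ev1, nm1]
      have h2 : |(a : ℝ)| = ((a.natAbs : ℕ) : ℝ) := by
        rw [← Int.cast_abs, Int.abs_eq_natAbs]; simp
      calc |(a : ℝ) + y * ev1 y l| ≤ |(a : ℝ)| + |y * ev1 y l| := abs_add_le _ _
        _ = ((a.natAbs : ℕ) : ℝ) + |y| * |ev1 y l| := by rw [h2, abs_mul]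
        _ ≤ ((a.natAbs : ℕ) : ℝ) * M ^ (n + 1) + M * (nm1 l * M ^ n) := by
          have e1 : (1 : ℝ) ≤ M ^ (n + 1) := one_le_pow₀ hM
          have e2 : (0 : ℝ) ≤ ((a.natAbs : ℕ) : ℝ) := by (clear * -; positivity)
          exact add_le_add (by (clear * - e1; nlinarith only [e1])) (mul_le_mul hy h1 (abs_nonneg _) hM0)
        _ = _ := by push_cast; ring

lemma nm2_le {x y M : ℝ} (hM : 1 ≤ M) (hx : |x| ≤ M) (hy : |y| ≤ M) (n : ℕ) (P : BP)
    (h : fits (n + 1) P = true) : |ev2 x y P| ≤ nm2 P * M ^ n := by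
  have hM0 : 0 ≤ M := by (clear * - hM; linarith only [hM])
  induction n generalizing P with
  | zero =>
    cases P with
    | nil => simp [ev2, nm2]
    | cons r P =>
      simp only [fits, Bool.and_eq_true] at h
      have h1 := nm1_le hM hy 0 r h.1
      rw [ev2, isz2_ev x y P h.2, nm2]
      simp only [mul_zero, add_zero, pow_zero, mul_one] at h1 ⊢
      push_cast
      have : (0 : ℝ) ≤ (nm2 P : ℝ) := by (clear * -; positivity)
      (clear * - h1; linarith only [h1])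
  | succ n ih =>
    cases P with
    | nil => simp [ev2, nm2]
    | cons r P =>
      simp only [fits, Bool.and_eq_true] at h
      have h1 := nm1_le hM hy (n + 1) r h.1
      have h2 := ih P h.2
      rw [ev2, nm2]
      calc |ev1 y r + x * ev2 x y P| ≤ |ev1 y r| + |x * ev2 x y P| := abs_add_le _ _
        _ = |ev1 y r| + |x| * |ev2 x y P| := by rw [abs_mul]
        _ ≤ nm1 r * M ^ (n + 1) + M * (nm2 P * M ^ n) :=
          add_le_add h1 (mul_le_mul hx h2 (abs_nonneg _) hM0)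
        _ = _ := by push_cast; ring

end Pool.EK71

namespace Pool.Agent.Helper71.EKC

open Pool.EK71 Pool.Agent.Helper52.EK Pool.Agent.Helper2.EK Pool.Agent.Helper71.EK

/-- `F N X = |X-1|² N/(K D^k)` as a function of `X` -/
noncomputable def pot (C : CD) (N : BP) (X : ℂ) : ℝ :=
  (C.pt X.re X.im).g (ev2 X.re X.im N / C.K)

noncomputable def potx (C : CD) (N : BP) (X : ℂ) : ℝ :=
  (C.pt X.re X.im).gx (ev2 X.re X.im N / C.K) (ev2 X.re X.im (dX N) / C.K)

noncomputable def poty (C : CD) (N : BP) (X : ℂ) : ℝ :=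
  (C.pt X.re X.im).gy (ev2 X.re X.im N / C.K) (ev2 X.re X.im (dY N) / C.K)

theorem c1_pot (C : CD) (N : BP) : C1f (pot C N) (potx C N) (poty C N) := by
  have h1 : C1f (fun X : ℂ => ev2 X.re X.im N / C.K) (fun X => ev2 X.re X.im (dX N) / C.K)
      (fun X => ev2 X.re X.im (dY N) / C.K) := by
    refine c1_congr (c1_mul (c1_const ((C.K : ℝ)⁻¹)) (c1_ev2 N)) ?_ ?_ ?_ <;> intro X <;>
      simp [div_eq_mul_inv] <;> ring
  refine c1_congr (c1_divA C.a (c1_mul c1_F h1) C.k) (fun X => ?_) (fun X => ?_) (fun X => ?_)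
  · rfl
  · show ((2 * (X.re - 1) * (ev2 X.re X.im N / C.K) + Fp X.re X.im * (ev2 X.re X.im (dX N) / C.K))
      * Da C.a X.re X.im - (2 * C.k * C.a) * X.re * (Fp X.re X.im * (ev2 X.re X.im N / C.K)))
      / (Da C.a X.re X.im ^ C.k * Da C.a X.re X.im) = _
    congr 1
  · show ((2 * X.im * (ev2 X.re X.im N / C.K) + Fp X.re X.im * (ev2 X.re X.im (dY N) / C.K))
      * Da C.a X.re X.im - (2 * C.k * C.a) * X.im * (Fp X.re X.im * (ev2 X.re X.im N / C.K)))
      / (Da C.a X.re X.im ^ C.k * Da C.a X.re X.im) = _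
    congr 1

lemma fU_eq (C : CD) (X : ℂ) : C.fU X = pot C C.U X := by
  unfold CD.fU pot Pt.g Pt.ff CD.hL
  rw [ev2_mu, e_f2]
  show _ = ((X.re - 1) ^ 2 + X.im ^ 2) * (ev2 X.re X.im C.U / C.K) / Da C.a X.re X.im ^ C.k
  ring

theorem pot_le (C : CD) (ha : 1 ≤ C.a) {N : BP} (h : fits (2 * C.k + 1) N = true) (X : ℂ) :
    |pot C N X| ≤ (nm2 N : ℝ) * ‖X - 1‖ ^ 2 := by
  set D := Da C.a X.re X.im with hD
  have ha' : (1 : ℝ) ≤ C.a := by exact_mod_cast ha
  have hDr : 1 + (X.re ^ 2 + X.im ^ 2) ≤ D := by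
    rw [hD, Da]; (clear * - ha'; nlinarith only [ha'])
  have hD1 : 1 ≤ D := by (clear * - hDr; nlinarith only [hDr])
  have hM : 1 ≤ Real.sqrt D := by rw [Real.one_le_sqrt]; exact hD1
  have hx : |X.re| ≤ Real.sqrt D := by
    rw [← Real.sqrt_sq_eq_abs]
    exact Real.sqrt_le_sqrt (by (clear * - hDr; nlinarith only [hDr]))
  have hy : |X.im| ≤ Real.sqrt D := by
    rw [← Real.sqrt_sq_eq_abs]
    exact Real.sqrt_le_sqrt (by (clear * - hDr; nlinarith only [hDr]))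
  have h1 := nm2_le hM hx hy (2 * C.k) N h
  rw [pow_mul, Real.sq_sqrt (by linarith only [hD1])] at h1
  have hF : 0 ≤ Fp X.re X.im := by unfold Fp; (clear * -; positivity)
  rw [← Fp_eq]
  show |Fp X.re X.im * (ev2 X.re X.im N / C.K) / D ^ C.k| ≤ _
  have hDk : 0 < D ^ C.k := by positivity
  rw [abs_div, abs_mul, abs_of_nonneg hF, abs_of_pos hDk, div_le_iff₀ hDk, abs_div]
  have hK : |ev2 X.re X.im N| / |(C.K : ℝ)| ≤ |ev2 X.re X.im N| := by
    rcases Nat.eq_zero_or_pos C.K with h0 | h0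
    · rw [h0]; simp
    · have : (1 : ℝ) ≤ |(C.K : ℝ)| := by
        rw [Nat.abs_cast]; exact_mod_cast h0
      exact div_le_self (abs_nonneg _) this
  calc Fp X.re X.im * (|ev2 X.re X.im N| / |(C.K : ℝ)|)
      ≤ Fp X.re X.im * (nm2 N * D ^ C.k) := mul_le_mul_of_nonneg_left (hK.trans h1) hF
    _ = _ := by ring

end Pool.Agent.Helper71.EKC

end

section

namespace Pool.EK71
end Pool.EK71
namespace Pool.Agent.Helper52.EK
end Pool.Agent.Helper52.EK
namespace Pool.Agent.Helper2.EK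
end Pool.Agent.Helper2.EK
namespace Pool.Agent.Helper71.EK
end Pool.Agent.Helper71.EK
namespace Pool.Agent.Helper71.EKC
end Pool.Agent.Helper71.EKC

/-!
Certificates given by integer lists, centred at `X = 1`: the potentials, their derivatives,
and the polynomials of one condition.
-/

set_option autoImplicit false

open Complex

namespace Pool.Agent.Helper71.EK3

open Pool.EK71 Pool.Agent.Helper52.EK Pool.Agent.Helper2.EK Pool.Agent.Helper71.EK

open Pool.Agent.Helper71.EKC (Da Da_pos c1_Da c1_divA c1_unique d_mu d_sb d_sm dY_dX sb2 pw2 e_sb e_pw cL e_c)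

def xL : BP := [[1], [1]]

def yL : BP := [[0, 1]]

def r2L : BP := [[1, 0, 1], [2], [1]]

def FL : BP := [[0, 0, 1], [], [1]]

def G2L : BP := [[0, 0, -1], [], [1]]

section ev

variable (u y : ℝ)

lemma e_x : ev2 u y xL = 1 + u := by simp [ev2, ev1, xL]

lemma e_y : ev2 u y yL = y := by simp [ev2, ev1, yL]

lemma e_r2 : ev2 u y r2L = (1 + u) ^ 2 + y ^ 2 := by simp [ev2, ev1, r2L]; ring

lemma e_F : ev2 u y FL = u ^ 2 + y ^ 2 := by simp [ev2, ev1, FL]; ring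

lemma e_G2 : ev2 u y G2L = u ^ 2 - y ^ 2 := by simp [ev2, ev1, G2L]; ring

end ev

lemma c1_sh (P : BP) : C1f (fun X : ℂ => ev2 (X.re - 1) X.im P)
    (fun X => ev2 (X.re - 1) X.im (dX P)) (fun X => ev2 (X.re - 1) X.im (dY P)) := by
  induction P with
  | nil =>
    refine c1_congr (c1_const 0) (fun X => ?_) (fun X => ?_) (fun X => ?_)
    · simp [ev2]
    · simp [dX, ev2]
    · simp [dY, ev2]
  | cons r P ih =>
    refine c1_congr (c1_add (c1_ev1 r) (c1_mul (c1_sub c1_re (c1_const 1)) ih)) (fun X => ?_)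
      (fun X => ?_) (fun X => ?_)
    · simp only [ev2]
    · rw [dX_ev]; ring
    · simp only [dY, ev2]; ring

namespace C3

section cnd

variable (m : ℤ) (R Nu : BP)

end cnd

section val

variable (u y : ℝ)

end val

end C3

end Pool.Agent.Helper71.EK3

end

section

namespace Pool.EK71
end Pool.EK71
namespace Pool.Agent.Helper52.EK
end Pool.Agent.Helper52.EK
namespace Pool.Agent.Helper2.EK
end Pool.Agent.Helper2.EK
namespace Pool.Agent.Helper71.EK3
end Pool.Agent.Helper71.EK3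
namespace Pool.Agent.Helper71.EKC
end Pool.Agent.Helper71.EKC

set_option autoImplicit false

open Complex MeasureTheory Metric Set

open scoped Real ComplexConjugate

namespace Pool.Agent.Helper69.EK3

open Pool.EK71 Pool.Agent.Helper52.EK Pool.Agent.Helper2.EK

open Pool.Agent.Helper71.EK3 Pool.Agent.Helper71.EKC

/-- total degree at most `d` -/
def dle : ℕ → BP → Bool
  | _, [] => true
  | 0, r :: P => decide (r.length ≤ 1) && (P.all fun r => decide (r.length = 0))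
  | d + 1, r :: P => decide (r.length ≤ d + 2) && dle d P

/-- sums of the absolute values of the coefficients -/
noncomputable def nr1 : List ℤ → ℝ
  | [] => 0
  | c :: r => |(c : ℝ)| + nr1 r

noncomputable def nr2 : BP → ℝ
  | [] => 0
  | r :: P => nr1 r + nr2 P

theorem nr1_nonneg (r : List ℤ) : 0 ≤ nr1 r := by
  induction r with
  | nil => simp [nr1]
  | cons c r ih =>
    simp only [nr1]
    (clear * - ih; positivity)

theorem nr2_nonneg (P : BP) : 0 ≤ nr2 P := by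
  induction P with
  | nil => simp [nr2]
  | cons r P ih =>
    simp only [nr2]
    exact add_nonneg (nr1_nonneg r) ih

theorem ev1_le {T y : ℝ} (hT : 1 ≤ T) (hy : |y| ≤ T) (d : ℕ) (r : List ℤ) (h : r.length ≤ d + 1) :
    |ev1 y r| ≤ nr1 r * T ^ d := by
  induction r generalizing d with
  | nil => simp [ev1, nr1]
  | cons c r ih =>
    simp only [ev1, nr1]
    have hT0 : 0 ≤ T := by (clear * - hT; linarith only [hT])
    have hTd : 1 ≤ T ^ d := one_le_pow₀ hT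
    have h1 := abs_add_le (c : ℝ) (y * ev1 y r)
    rw [abs_mul] at h1
    have h2 : |y| * |ev1 y r| ≤ nr1 r * T ^ d := by
      cases r with
      | nil => simp [ev1, nr1]
      | cons c' r' =>
        cases d with
        | zero => simp at h
        | succ d =>
          have h3 := ih d (by simp only [List.length_cons] at h ⊢; omega)
          calc |y| * |ev1 y (c' :: r')| ≤ T * (nr1 (c' :: r') * T ^ d) :=
                mul_le_mul hy h3 (abs_nonneg _) hT0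
            _ = _ := by rw [pow_succ]; ring
    have h4 : |(c : ℝ)| ≤ |(c : ℝ)| * T ^ d := le_mul_of_one_le_right (abs_nonneg _) hTd
    have e : (|(c : ℝ)| + nr1 r) * T ^ d = |(c : ℝ)| * T ^ d + nr1 r * T ^ d := by ring
    rw [e]
    linarith only [h1, h2, h4]

theorem ev2_zero (x y : ℝ) (P : BP) (h : (P.all fun r => decide (r.length = 0)) = true) :
    ev2 x y P = 0 := by
  induction P with
  | nil => simp [ev2]
  | cons r P ih =>
    simp only [List.all_cons, Bool.and_eq_true, decide_eq_true_eq] at h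
    have hr : r = [] := List.length_eq_zero_iff.1 h.1
    simp only [ev2, hr, ev1, ih h.2]
    ring

theorem ev2_le' {T x y : ℝ} (hT : 1 ≤ T) (hx : |x| ≤ T) (hy : |y| ≤ T) (d : ℕ) (P : BP)
    (h : dle d P = true) : |ev2 x y P| ≤ nr2 P * T ^ d := by
  have hT0 : 0 ≤ T := by linarith only [hT]
  induction P generalizing d with
  | nil => simp [ev2, nr2]
  | cons r P ih =>
    cases d with
    | zero =>
      simp only [dle, Bool.and_eq_true, decide_eq_true_eq] at h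
      have h1 := ev1_le hT hy 0 r (by omega)
      have h2 := ev2_zero x y P h.2
      simp only [ev2, h2, mul_zero, add_zero, nr2]
      refine h1.trans ?_
      have h3 : 0 ≤ nr2 P := nr2_nonneg P
      simp only [pow_zero, mul_one]
      (clear * - h3; linarith only [h3])
    | succ d =>
      simp only [dle, Bool.and_eq_true, decide_eq_true_eq] at h
      have h1 := ev1_le hT hy (d + 1) r (by omega)
      have h2 := ih d h.2
      have h3 := abs_add_le (ev1 y r) (x * ev2 x y P)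
      rw [abs_mul] at h3
      have h4 : |x| * |ev2 x y P| ≤ T * (nr2 P * T ^ d) := mul_le_mul hx h2 (abs_nonneg _) hT0
      simp only [ev2, nr2]
      refine h3.trans ?_
      have e : (nr1 r + nr2 P) * T ^ (d + 1) = nr1 r * T ^ (d + 1) + T * (nr2 P * T ^ d) := by
        rw [pow_succ]
        ring
      rw [e]
      (clear * - h1 h4; linarith only [h1, h4])

theorem C1c_real {W Wx Wy : ℂ → ℝ} (h : C1f W Wx Wy) :
    C1c (fun X => (W X : ℂ)) (fun X => (Wx X : ℂ)) (fun X => (Wy X : ℂ)) := by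
  refine ⟨fun X _ => ?_, ?_, ?_⟩
  · have h1 := ofRealCLM.hasFDerivAt.comp X (h.hd X)
    refine h1.congr_fderiv ?_
    ext v
    simp
    ring
  · exact (Complex.continuous_ofReal.comp h.cx).continuousOn
  · exact (Complex.continuous_ofReal.comp h.cy).continuousOn

theorem C1c_I {W Wx Wy : ℂ → ℝ} (h : C1f W Wx Wy) :
    C1c (fun X => I * (W X : ℂ)) (fun X => I * (Wx X : ℂ)) (fun X => I * (Wy X : ℂ)) := by
  have h0 := C1c_real h
  refine ⟨fun X hX => ?_, ?_, ?_⟩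
  · have h1 := (h0.hd X hX).const_mul I
    refine h1.congr_fderiv ?_
    ext v
    simp
    ring
  · exact continuousOn_const.mul h0.cx
  · exact continuousOn_const.mul h0.cy

theorem C1c_holo {F F' : ℂ → ℂ} (h : ∀ X, HasDerivAt F (F' X) X) (hc : Continuous F') :
    C1c F F' (fun X => I * F' X) := by
  refine ⟨fun X _ => ?_, hc.continuousOn, (continuous_const.mul hc).continuousOn⟩
  have h1 : HasFDerivAt F ((ContinuousLinearMap.toSpanSingleton ℂ (F' X)).restrictScalars ℝ) X :=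
    ((h X).hasFDerivAt).restrictScalars ℝ
  refine h1.congr_fderiv ?_
  ext v
  simp
  linear_combination -(F' X) * (re_add_im v)

end Pool.Agent.Helper69.EK3

end

section

namespace Pool.EK71
end Pool.EK71
namespace Pool.Agent.Helper52.EK
end Pool.Agent.Helper52.EK
namespace Pool.Agent.Helper2.EK
end Pool.Agent.Helper2.EK
namespace Pool.Agent.Helper69.EK3
end Pool.Agent.Helper69.EK3
namespace Pool.Agent.Helper71.EK3
end Pool.Agent.Helper71.EK3
namespace Pool.Agent.Helper71.EKC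
end Pool.Agent.Helper71.EKC

set_option autoImplicit false

open Complex MeasureTheory Metric Set

open scoped Real ComplexConjugate

namespace Pool.Agent.Helper69.EK5

open Pool.EK71 Pool.Agent.Helper52.EK Pool.Agent.Helper2.EK

open Pool.Agent.Helper69.EK3

open Pool.Agent.Helper71.EK3 (xL yL r2L FL G2L e_x e_y e_r2 e_F e_G2 c1_sh)

open Pool.Agent.Helper71.EKC (c1_unique d_mu d_sb d_sm dY_dX sb2 pw2 e_sb e_pw)

/-- `D = A (Re X - 1)² + E (Im X)² + B (Re X - 1) + C` -/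
structure DQ where
  A : ℤ
  E : ℤ
  B : ℤ
  C : ℤ
  hA : 0 < A
  hE : 0 < E
  hB : B ^ 2 < 4 * (A * C)

noncomputable def Dd (d : DQ) (x y : ℝ) : ℝ :=
  d.A * (x - 1) ^ 2 + d.E * y ^ 2 + d.B * (x - 1) + d.C

theorem Dd_low (d : DQ) : ∃ k : ℝ, 0 < k ∧ ∀ x y : ℝ,
    1 + ((x - 1) ^ 2 + y ^ 2) ≤ k * Dd d x y := by
  have hA : (0:ℝ) < d.A := by exact_mod_cast d.hA
  have hE1 : (0:ℝ) < d.E := by exact_mod_cast d.hE
  have hB : (d.B : ℝ) ^ 2 < 4 * (d.A * d.C) := by exact_mod_cast d.hB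
  have hC : (0:ℝ) < d.C := by
    by_contra h
    nlinarith only [hA, hB, h]
  obtain ⟨E, hE⟩ : ∃ E : ℝ, E = 4 * (d.A * d.C) - (d.B : ℝ) ^ 2 := ⟨_, rfl⟩
  have hE0 : 0 < E := by rw [hE]; (clear * - hB; linarith)
  have h0 : ∀ x : ℝ, 1 + (x - 1) ^ 2 ≤ 4 * (d.A + d.C) / E * (d.A * (x - 1) ^ 2 + d.B * (x - 1) + d.C) := by
    intro x
    rw [div_mul_eq_mul_div, le_div_iff₀ hE0]
    have h1 : 0 ≤ 4 * (((d.A : ℝ) + d.C) * (d.A * (x - 1) ^ 2 + d.B * (x - 1) + d.C)) -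
        E * (1 + (x - 1) ^ 2) := by
      have e : 4 * (((d.A : ℝ) + d.C) * (d.A * (x - 1) ^ 2 + d.B * (x - 1) + d.C)) -
        E * (1 + (x - 1) ^ 2) = (2 * d.A * (x - 1) + d.B) ^ 2 + (2 * d.C + d.B * (x - 1)) ^ 2 := by
        rw [hE]
        ring
      rw [e]
      (clear * -; positivity)
    linarith only [h1]
  refine ⟨4 * (d.A + d.C) / E + 1 / d.E, by positivity, fun x y => ?_⟩
  have h1 := h0 x
  have hq : 0 ≤ d.A * (x - 1) ^ 2 + d.B * (x - 1) + d.C := by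
    have h2 : 0 < 4 * ((d.A : ℝ) + d.C) / E := by positivity
    have h3 : 0 < 4 * ((d.A : ℝ) + d.C) / E * (d.A * (x - 1) ^ 2 + d.B * (x - 1) + d.C) := by
      nlinarith only [h1]
    exact ((mul_pos_iff_of_pos_left h2).1 h3).le
  have h2 : 1 / (d.E : ℝ) * (d.E * y ^ 2) = y ^ 2 := by
    field_simp
  have h3 : 0 ≤ 4 * ((d.A : ℝ) + d.C) / E * (d.E * y ^ 2) := by (clear * - hA hC hE0 hE1; positivity)
  have h4 : 0 ≤ 1 / (d.E : ℝ) * (d.A * (x - 1) ^ 2 + d.B * (x - 1) + d.C) := by (clear * - hE1 hq; positivity)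
  unfold Dd
  have e : (4 * ((d.A : ℝ) + d.C) / E + 1 / d.E) * (d.A * (x - 1) ^ 2 + d.E * y ^ 2 +
      d.B * (x - 1) + d.C) = 4 * ((d.A : ℝ) + d.C) / E * (d.A * (x - 1) ^ 2 + d.B * (x - 1) +
      d.C) + 1 / d.E * (d.E * y ^ 2) + 4 * ((d.A : ℝ) + d.C) / E * (d.E * y ^ 2) +
      1 / d.E * (d.A * (x - 1) ^ 2 + d.B * (x - 1) + d.C) := by ring
  rw [e, h2]
  (clear * - h1 h3 h4; linarith)

theorem Dd_pos (d : DQ) (x y : ℝ) : 0 < Dd d x y := by
  obtain ⟨k, hk, h⟩ := Dd_low d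
  have h1 := h x y
  have h2 : 0 < k * Dd d x y := by nlinarith only [h1]
  exact (mul_pos_iff_of_pos_left hk).1 h2

/-- `D` as a polynomial in `(Re X - 1, Im X)` -/
def DL (d : DQ) : BP := [[d.C, 0, d.E], [d.B], [d.A]]

def DxL (d : DQ) : BP := [[d.B], [Int.mul 2 d.A]]

def DyL (d : DQ) : BP := [[0, Int.mul 2 d.E]]

theorem e_D (u y : ℝ) (d : DQ) : ev2 u y (DL d) = Dd d (1 + u) y := by
  simp only [ev2, ev1, DL, Dd]
  push_cast
  ring

theorem e_Dx (u y : ℝ) (d : DQ) : ev2 u y (DxL d) = 2 * d.A * u + d.B := by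
  simp only [ev2, ev1, DxL, imul_cast']
  push_cast
  ring

theorem e_Dy (u y : ℝ) (d : DQ) : ev2 u y (DyL d) = 2 * d.E * y := by
  simp only [ev2, ev1, DyL, imul_cast']
  push_cast
  ring

theorem e_dD (u y : ℝ) (d : DQ) : ev2 u y (dX (DL d)) = 2 * d.A * u + d.B ∧
    ev2 u y (dY (DL d)) = 2 * d.E * y := by
  constructor
  · simp [DL, dX, dx1, sm1, ev2, ev1]
    ring
  · simp [DL, dY, dyr, dy1, ev2, ev1]
    ring

theorem c1_Dd (d : DQ) : C1f (fun X => Dd d X.re X.im) (fun X => 2 * d.A * (X.re - 1) + d.B)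
    (fun X => 2 * d.E * X.im) := by
  refine c1_congr (c1_sh (DL d)) (fun X => ?_) (fun X => ?_) (fun X => ?_)
  · rw [e_D]
    congr 1
    ring
  · rw [(e_dD _ _ d).1]
  · rw [(e_dD _ _ d).2]

/-- `A / D^k` -/
theorem c1_divD (d : DQ) {A Ax Ay : ℂ → ℝ} (hA : C1f A Ax Ay) (k : ℕ) :
    C1f (fun X => A X / Dd d X.re X.im ^ k)
      (fun X => (Ax X * Dd d X.re X.im - k * (2 * d.A * (X.re - 1) + d.B) * A X)
        / (Dd d X.re X.im ^ k * Dd d X.re X.im))
      (fun X => (Ay X * Dd d X.re X.im - k * (2 * d.E * X.im) * A X)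
        / (Dd d X.re X.im ^ k * Dd d X.re X.im)) := by
  induction k with
  | zero =>
    refine c1_congr hA ?_ ?_ ?_ <;> intro X
    · simp
    · have := (Dd_pos d X.re X.im).ne'
      field_simp
      simp
    · have := (Dd_pos d X.re X.im).ne'
      field_simp
      simp
  | succ k ih =>
    refine c1_congr (c1_mul ih (c1_inv (c1_Dd d) fun X => (Dd_pos d X.re X.im).ne')) ?_ ?_ ?_ <;>
      intro X <;> have := (Dd_pos d X.re X.im).ne' <;> push_cast <;> field_simp <;> ring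

/-- numerators of the derivatives of `P / D ^ j` -/
def qX (d : DQ) (j : ℕ) (P : BP) : BP :=
  sb2 (mu2 (DL d) (dX P)) (sm2 (Int.ofNat j) (mu2 (DxL d) P))

def qY (d : DQ) (j : ℕ) (P : BP) : BP :=
  sb2 (mu2 (DL d) (dY P)) (sm2 (Int.ofNat j) (mu2 (DyL d) P))

/-- `P / D ^ j` at `X`; the variables of `P` are `Re X - 1` and `Im X` -/
noncomputable def Rr (d : DQ) (j : ℕ) (P : BP) (X : ℂ) : ℝ :=
  ev2 (X.re - 1) X.im P / Dd d X.re X.im ^ j

theorem qX_ev (d : DQ) (j : ℕ) (P : BP) (u y : ℝ) : ev2 u y (qX d j P) =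
    ev2 u y (dX P) * Dd d (1 + u) y - j * (2 * d.A * u + d.B) * ev2 u y P := by
  rw [qX, e_sb, ev2_mu, ev2_sm, ev2_mu, e_D, e_Dx, ofNat_cast']
  ring

theorem qY_ev (d : DQ) (j : ℕ) (P : BP) (u y : ℝ) : ev2 u y (qY d j P) =
    ev2 u y (dY P) * Dd d (1 + u) y - j * (2 * d.E * y) * ev2 u y P := by
  rw [qY, e_sb, ev2_mu, ev2_sm, ev2_mu, e_D, e_Dy, ofNat_cast']
  ring

theorem c1_Rr (d : DQ) (j : ℕ) (P : BP) :
    C1f (Rr d j P) (Rr d (j + 1) (qX d j P)) (Rr d (j + 1) (qY d j P)) := by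
  have ex : ∀ X : ℂ, 1 + (X.re - 1) = X.re := fun X => by ring
  refine c1_congr (c1_divD d (c1_sh P) j) (fun X => rfl) (fun X => ?_) (fun X => ?_)
  · unfold Rr
    rw [qX_ev, ex, pow_succ]
  · unfold Rr
    rw [qY_ev, ex, pow_succ]

/-- numerator of the Laplacian of `P / D ^ j` over `D ^ (j + 2)` -/
def qL (d : DQ) (j : ℕ) (P : BP) : BP := ad2 (qX d (j + 1) (qX d j P)) (qY d (j + 1) (qY d j P))

theorem normsq_sub_one (X : ℂ) : ‖X - 1‖ ^ 2 = (X.re - 1) ^ 2 + X.im ^ 2 := by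
  rw [← normSq_eq_norm_sq, normSq_apply]
  simp
  ring

end Pool.Agent.Helper69.EK5

end

section

namespace Pool.Agent.Helper39.Area
end Pool.Agent.Helper39.Area
namespace Pool.Agent.Helper39.EK
end Pool.Agent.Helper39.EK
namespace Pool.Agent.Helper52.EK
end Pool.Agent.Helper52.EK
namespace Pool.Agent.Helper86.EK
end Pool.Agent.Helper86.EK

/-!
EK3 (a), part 1: the Bloch bound from the energy, and the function `log ((f - f a)/..)` in the strip.
-/

set_option autoImplicit false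

open Complex MeasureTheory Metric Set Filter Topology

open scoped Real ENNReal ComplexConjugate NNReal

namespace Pool.Agent.Helper79.EK3

open Pool.Agent.Helper39.Area Pool.Agent.Helper39.EK Pool.Agent.Helper52.EK Pool.Agent.Helper86.EK

/-- polar coordinates for a continuous function on a disc around the origin -/
theorem polar_ball {f : ℂ → ℝ} {R ρ : ℝ} (hρR : ρ < R) (hfc : ContinuousOn f (ball 0 R)) :
    ∫ z in ball (0:ℂ) ρ, f z =
      ∫ s in Ioo 0 ρ, ∫ θ in Ioo (-π) π, s * f ((s:ℂ) * Complex.exp (θ * I)) := by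
  rw [← integral_indicator measurableSet_ball, ← Complex.integral_comp_polarCoord_symm]
  have h2 : ∫ p in polarCoord.target, p.1 • (ball (0:ℂ) ρ).indicator f
      (Complex.polarCoord.symm p) = ∫ p in Ioo 0 ρ ×ˢ Ioo (-π) π,
        p.1 * f ((p.1:ℂ) * Complex.exp (p.2 * I)) := by
    have h3 : ∀ p ∈ polarCoord.target, p.1 • (ball (0:ℂ) ρ).indicator f
        (Complex.polarCoord.symm p) = (Ioo 0 ρ ×ˢ Ioo (-π) π).indicator
          (fun p => p.1 * f ((p.1:ℂ) * Complex.exp (p.2 * I))) p := by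
      rintro ⟨r, θ⟩ ⟨hr, hθ⟩
      simp only [mem_Ioi] at hr hθ
      have h4 : Complex.polarCoord.symm (r, θ) = (r:ℂ) * Complex.exp (θ * I) := by
        rw [Complex.polarCoord_symm_apply, Complex.exp_mul_I, Complex.ofReal_cos,
          Complex.ofReal_sin]
      have h5 : ‖Complex.polarCoord.symm (r, θ)‖ = r := by
        rw [h4, norm_mul, Complex.norm_exp_ofReal_mul_I, mul_one, Complex.norm_real,
          Real.norm_of_nonneg hr.le]
      by_cases hrρ : r < ρ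
      · rw [indicator_of_mem (by rw [mem_ball, dist_zero_right, h5]; exact hrρ),
          indicator_of_mem (show (r, θ) ∈ Ioo 0 ρ ×ˢ Ioo (-π) π from ⟨⟨hr, hrρ⟩, hθ⟩), h4,
          smul_eq_mul]
      · rw [indicator_of_notMem (by rw [mem_ball, dist_zero_right, h5]; exact hrρ),
          indicator_of_notMem (fun h : (r, θ) ∈ Ioo 0 ρ ×ˢ Ioo (-π) π => hrρ h.1.2), smul_zero]
    rw [setIntegral_congr_fun polarCoord.open_target.measurableSet h3,
      setIntegral_indicator (measurableSet_Ioo.prod measurableSet_Ioo)]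
    congr 2
    apply inter_eq_right.2
    rintro ⟨r, θ⟩ ⟨hr, hθ⟩
    exact ⟨hr.1, hθ⟩
  rw [h2, Measure.volume_eq_prod, setIntegral_prod]
  have h6 : ContinuousOn (fun p : ℝ × ℝ => p.1 * f ((p.1:ℂ) * Complex.exp (p.2 * I)))
      (Icc 0 ρ ×ˢ Icc (-π) π) := by
    apply continuous_fst.continuousOn.mul
    apply hfc.comp (by fun_prop)
    rintro ⟨r, θ⟩ ⟨hr, hθ⟩
    simp only [mem_ball, dist_zero_right, norm_mul, Complex.norm_exp_ofReal_mul_I, mul_one,
      Complex.norm_real]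
    rw [Real.norm_of_nonneg hr.1]
    exact hr.2.trans_lt hρR
  have h7 := h6.integrableOn_compact (μ := (volume : Measure (ℝ × ℝ)))
    (isCompact_Icc.prod isCompact_Icc)
  rw [Measure.volume_eq_prod] at h7
  exact h7.mono_set (prod_mono Ioo_subset_Icc_self Ioo_subset_Icc_self)

/-- area mean value inequality at the origin -/
theorem mean_zero {E : ℂ → ℂ} {R r : ℝ} (hE : DifferentiableOn ℂ E (ball 0 R)) (hr : 0 < r)
    (hrR : r < R) : π * r ^ 2 * ‖deriv E 0‖ ^ 2 ≤ ∫ z in ball (0:ℂ) r, ‖deriv E z‖ ^ 2 := by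
  have hd : DifferentiableOn ℂ (deriv E) (ball 0 R) := hE.deriv isOpen_ball
  have hfc : ContinuousOn (fun z => ‖deriv E z‖ ^ 2) (ball 0 R) := (hd.continuousOn.norm).pow 2
  have hπ := Real.pi_pos
  rw [polar_ball hrR hfc]
  have h1 : ∀ s ∈ Ioo 0 r, 2 * π * s * ‖deriv E 0‖ ^ 2 ≤
      ∫ θ in Ioo (-π) π, s * ‖deriv E ((s:ℂ) * Complex.exp (θ * I))‖ ^ 2 := by
    intro s hs
    have h2 := parseval_deriv hE hs.1.le (hs.2.trans hrR)
    have h3 : ‖deriv E 0‖ ^ 2 ≤ (1 / (2 * π)) * ∫ θ in (-π)..π,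
        ‖deriv E ((s:ℂ) * Complex.exp (θ * I))‖ ^ 2 := by
      have h4 := h2.summable.sum_le_tsum (Finset.range 1) (fun n _ => by
        have := hs.1
        (clear * - this; positivity))
      rw [h2.tsum_eq, Finset.sum_range_one] at h4
      have h5 : ‖((0:ℕ):ℂ) + 1‖ = 1 := by simp
      simpa using h4
    have h6 : (∫ θ in Ioo (-π) π, s * ‖deriv E ((s:ℂ) * Complex.exp (θ * I))‖ ^ 2) =
        s * ∫ θ in (-π)..π, ‖deriv E ((s:ℂ) * Complex.exp (θ * I))‖ ^ 2 := by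
      rw [integral_const_mul, intervalIntegral.integral_of_le (by (clear * - hπ; linarith)),
        integral_Ioc_eq_integral_Ioo]
    rw [h6]
    have h7 : (∫ θ in (-π)..π, ‖deriv E ((s:ℂ) * Complex.exp (θ * I))‖ ^ 2) =
        2 * π * ((1 / (2 * π)) * ∫ θ in (-π)..π,
        ‖deriv E ((s:ℂ) * Complex.exp (θ * I))‖ ^ 2) := by
      rw [← mul_assoc, mul_one_div_cancel (by positivity), one_mul]
    rw [h7]
    have h8 : 0 ≤ s * (2 * π) := by have := hs.1; positivity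
    (clear * - h3 h8; nlinarith only [h3, h8])
  have h9 : ∫ s in Ioo 0 r, 2 * π * s * ‖deriv E 0‖ ^ 2 = π * r ^ 2 * ‖deriv E 0‖ ^ 2 := by
    rw [← integral_Ioc_eq_integral_Ioo, ← intervalIntegral.integral_of_le hr.le,
      intervalIntegral.integral_mul_const, intervalIntegral.integral_const_mul, integral_id]
    ring
  rw [← h9]
  apply setIntegral_mono_on _ _ measurableSet_Ioo h1
  · exact (by fun_prop : Continuous fun s : ℝ => 2 * π * s * ‖deriv E 0‖ ^ 2).continuousOn.integrableOn_compact isCompact_Icc |>.mono_set Ioo_subset_Icc_self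
  · have hc2 : ContinuousOn (fun p : ℝ × ℝ => p.1 * ‖deriv E ((p.1:ℂ) * Complex.exp (p.2 * I))‖ ^ 2)
        (Icc 0 r ×ˢ Icc (-π) π) := by
      apply continuous_fst.continuousOn.mul
      apply hfc.comp (by fun_prop)
      rintro ⟨s, θ⟩ ⟨hs, hθ⟩
      simp only [mem_ball, dist_zero_right, norm_mul, Complex.norm_exp_ofReal_mul_I, mul_one,
        Complex.norm_real]
      rw [Real.norm_of_nonneg hs.1]
      exact hs.2.trans_lt hrR
    have h7 := hc2.integrableOn_compact (μ := (volume : Measure (ℝ × ℝ)))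
      (isCompact_Icc.prod isCompact_Icc)
    have h10 : IntegrableOn (fun p : ℝ × ℝ => p.1 * ‖deriv E ((p.1:ℂ) * Complex.exp (p.2 * I))‖ ^ 2)
        (Ioo 0 r ×ˢ Ioo (-π) π) ((volume : Measure ℝ).prod volume) := by
      rw [Measure.volume_eq_prod] at h7
      exact h7.mono_set (prod_mono Ioo_subset_Icc_self Ioo_subset_Icc_self)
    rw [IntegrableOn, ← Measure.prod_restrict] at h10
    exact h10.integral_prod_left

/-- Bloch bound: the derivative of a function of finite energy -/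
theorem bloch {E : ℂ → ℂ} {J : ℝ} (hE : DifferentiableOn ℂ E (ball 0 1))
    (hJ : ∀ ρ : ℝ, 0 < ρ → ρ < 1 → ∫ z in ball (0:ℂ) ρ, ‖deriv E z‖ ^ 2 ≤ 2 * π * J)
    {z : ℂ} (hz : ‖z‖ < 1) : ‖deriv E z‖ * (1 - ‖z‖) ≤ Real.sqrt (2 * J) := by
  have hd : DifferentiableOn ℂ (deriv E) (ball 0 1) := hE.deriv isOpen_ball
  have hπ := Real.pi_pos
  have key : ∀ r : ℝ, 0 < r → r < 1 - ‖z‖ → r ^ 2 * ‖deriv E z‖ ^ 2 ≤ 2 * J := by
    intro r hr hr1
    set E₁ : ℂ → ℂ := fun w => E (z + w) with hE₁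
    have hsub : ∀ w ∈ ball (0:ℂ) (1 - ‖z‖), z + w ∈ ball (0:ℂ) 1 := by
      intro w hw
      rw [mem_ball, dist_zero_right] at hw ⊢
      have := norm_add_le z w
      (clear * - hw this; linarith only [hw, this])
    have hd1 : ∀ w ∈ ball (0:ℂ) (1 - ‖z‖), HasDerivAt E₁ (deriv E (z + w)) w := by
      intro w hw
      have h1 := (hE.differentiableAt (isOpen_ball.mem_nhds (hsub w hw))).hasDerivAt
      have h2 : HasDerivAt (fun w : ℂ => z + w) 1 w := (hasDerivAt_id w).const_add z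
      have h3 := HasDerivAt.comp w h1 h2
      rw [mul_one] at h3
      exact h3
    have hE1 : DifferentiableOn ℂ E₁ (ball 0 (1 - ‖z‖)) := fun w hw =>
      (hd1 w hw).differentiableAt.differentiableWithinAt
    have h3 := mean_zero hE1 hr hr1
    have h0 : (0:ℂ) ∈ ball (0:ℂ) (1 - ‖z‖) := mem_ball_self (by linarith)
    rw [(hd1 0 h0).deriv, add_zero] at h3
    have h4 : ∫ w in ball (0:ℂ) r, ‖deriv E₁ w‖ ^ 2 = ∫ w in ball (0:ℂ) r, ‖deriv E (z + w)‖ ^ 2 := by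
      apply setIntegral_congr_fun measurableSet_ball
      intro w hw
      simp only
      rw [(hd1 w (ball_subset_ball hr1.le hw)).deriv]
    have h5 : ∫ w in ball (0:ℂ) r, ‖deriv E (z + w)‖ ^ 2 = ∫ w in ball z r, ‖deriv E w‖ ^ 2 := by
      rw [← integral_indicator measurableSet_ball, ← integral_indicator measurableSet_ball,
        ← integral_add_left_eq_self (μ := (volume : Measure ℂ))
          ((ball z r).indicator fun w => ‖deriv E w‖ ^ 2) z]
      congr 1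
      funext w
      by_cases hw : w ∈ ball (0:ℂ) r
      · rw [indicator_of_mem hw, indicator_of_mem]
        rw [mem_ball, dist_eq_norm, add_sub_cancel_left]
        rwa [mem_ball, dist_zero_right] at hw
      · rw [indicator_of_notMem hw, indicator_of_notMem]
        rw [mem_ball, dist_eq_norm, add_sub_cancel_left]
        rwa [mem_ball, dist_zero_right] at hw
    have hρ : ‖z‖ + r < 1 := by linarith only [hr1]
    have hρ0 : 0 < ‖z‖ + r := by have := norm_nonneg z; linarith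
    have h6 : ∫ w in ball z r, ‖deriv E w‖ ^ 2 ≤ ∫ w in ball (0:ℂ) (‖z‖ + r), ‖deriv E w‖ ^ 2 := by
      apply setIntegral_mono_set
      · have hc : ContinuousOn (fun w => ‖deriv E w‖ ^ 2) (closedBall 0 (‖z‖ + r)) :=
          (hd.continuousOn.norm.pow 2).mono (closedBall_subset_ball hρ)
        exact (hc.integrableOn_compact (isCompact_closedBall _ _)).mono_set ball_subset_closedBall
      · exact Eventually.of_forall fun w => by (clear * -; positivity)
      · apply LE.le.eventuallyLE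
        intro w hw
        rw [mem_ball, dist_zero_right]
        rw [mem_ball, dist_eq_norm] at hw
        have := norm_add_le z (w - z)
        rw [add_sub_cancel] at this
        linarith
    have h7 := hJ _ hρ0 hρ
    rw [h4, h5] at h3
    have h8 : π * (r ^ 2 * ‖deriv E z‖ ^ 2) ≤ π * (2 * J) := by linarith only [h3, h6, h7]
    exact le_of_mul_le_mul_left h8 hπ
  have hlim : (1 - ‖z‖) ^ 2 * ‖deriv E z‖ ^ 2 ≤ 2 * J := by
    have h1 : Tendsto (fun r : ℝ => r ^ 2 * ‖deriv E z‖ ^ 2) (𝓝[<] (1 - ‖z‖))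
        (𝓝 ((1 - ‖z‖) ^ 2 * ‖deriv E z‖ ^ 2)) := by
      have : Continuous fun r : ℝ => r ^ 2 * ‖deriv E z‖ ^ 2 := by fun_prop
      exact (this.tendsto _).mono_left nhdsWithin_le_nhds
    apply le_of_tendsto h1
    have h2 : Ioo 0 (1 - ‖z‖) ∈ 𝓝[<] (1 - ‖z‖) := Ioo_mem_nhdsLT (by linarith)
    filter_upwards [h2] with r hr
    exact key r hr.1 hr.2
  apply Real.le_sqrt_of_sq_le
  linarith only [hlim]

end Pool.Agent.Helper79.EK3

end

section

namespace Pool.Agent.Helper39.Area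
end Pool.Agent.Helper39.Area
namespace Pool.Agent.Helper39.EK
end Pool.Agent.Helper39.EK
namespace Pool.Agent.Helper52.EK
end Pool.Agent.Helper52.EK
namespace Pool.Agent.Helper86.EK
end Pool.Agent.Helper86.EK

/-!
EK3 (a), part 2: the function `Φ = log ((f - f a)/((1/z - 1/a)(1 - a z)))` in the strip: values at the
two ends of the centre line and the size of its derivative.
-/

set_option autoImplicit false

open Complex MeasureTheory Metric Set Filter Topology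

open scoped Real ENNReal ComplexConjugate NNReal

namespace Pool.Agent.Helper79.EK3

open Pool.Agent.Helper39.Area Pool.Agent.Helper39.EK Pool.Agent.Helper52.EK Pool.Agent.Helper86.EK

/-- the right side of the energy inequality, divided by `2 π` -/
noncomputable def JJ (β : ℂ → ℂ) (a : ℝ) : ℝ := Real.log (‖N β a‖ / (1 - a ^ 2))

theorem JJ_nonneg {β : ℂ → ℂ} (h : Ext β) {a : ℝ} (ha : 0 < a) (ha1 : a < 1) : 0 ≤ JJ β a := by
  have h1 : (0:ℝ) < 1 - a ^ 2 := by nlinarith only [ha, ha1]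
  apply Real.log_nonneg
  rw [le_div_iff₀ h1, one_mul]
  have h2 := N_ge h (z := (a:ℂ)) (by rw [Complex.norm_real, Real.norm_of_nonneg ha.le]; exact ha1)
  rwa [Complex.norm_real, Real.norm_of_nonneg ha.le] at h2

theorem exp_im_pos {ω : ℂ} (h0 : 0 < ω.im) (h1 : ω.im < π) : 0 < (Complex.exp ω).im := by
  rw [Complex.exp_im]
  exact mul_pos (Real.exp_pos _) (Real.sin_pos_of_pos_of_lt_pi h0 h1)

theorem exp_ne_neg_I' {ω : ℂ} (h0 : 0 < ω.im) (h1 : ω.im < π) : I + Complex.exp ω ≠ 0 := by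
  intro h
  have h3 := exp_im_pos h0 h1
  have h4 := congrArg Complex.im h
  simp only [Complex.add_im, Complex.I_im, Complex.zero_im] at h4
  (clear * - h3 h4; linarith)

/-- hyperbolic metrics: `|zd| = (1 - |z|²) / (2 sin η)` -/
theorem norm_zd {ω : ℂ} (h0 : 0 < ω.im) (h1 : ω.im < π) :
    ‖zd ω‖ * (2 * Real.sin ω.im) = 1 - ‖zf ω‖ ^ 2 := by
  have hne := exp_ne_neg_I' h0 h1
  have hn : 0 < ‖I + Complex.exp ω‖ := norm_pos_iff.mpr hne
  have hZ : ‖Complex.exp ω‖ = Real.exp ω.re := Complex.norm_exp ω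
  have h2 : ‖zd ω‖ = 2 * Real.exp ω.re / ‖I + Complex.exp ω‖ ^ 2 := by
    rw [zd, norm_div, norm_pow, norm_mul, norm_mul, hZ, add_comm (Complex.exp ω) I]
    simp
  have h3 : ‖I + Complex.exp ω‖ ^ 2 - ‖I - Complex.exp ω‖ ^ 2 = 4 * (Complex.exp ω).im := by
    rw [← Complex.normSq_eq_norm_sq, ← Complex.normSq_eq_norm_sq, Complex.normSq_apply,
      Complex.normSq_apply]
    simp only [Complex.sub_re, Complex.add_re, Complex.sub_im, Complex.add_im, Complex.I_re,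
      Complex.I_im]
    ring
  rw [h2, zf, norm_div, div_pow]
  rw [Complex.exp_im] at h3
  have h4 : (1:ℝ) - ‖I - Complex.exp ω‖ ^ 2 / ‖I + Complex.exp ω‖ ^ 2 =
      (‖I + Complex.exp ω‖ ^ 2 - ‖I - Complex.exp ω‖ ^ 2) / ‖I + Complex.exp ω‖ ^ 2 := by
    field_simp
  rw [h4, h3]
  ring

theorem exists_Phi {β : ℂ → ℂ} (h : Ext β) {a : ℝ} (ha : 0 < a) (ha1 : a < 1) :
    ∃ Φ Φ' : ℂ → ℂ, (∀ ω : ℂ, 0 < ω.im → ω.im < π → HasDerivAt Φ (Φ' ω) ω) ∧
      (∀ ω : ℂ, 0 < ω.im → ω.im < π → ‖Φ' ω‖ * Real.sin ω.im ≤ Real.sqrt (2 * JJ β a)) ∧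
      (∀ ω : ℂ, 0 < ω.im → ω.im < π → Real.log (tau a) < ω.re → ω.re < 0 →
        Φ' ω = 2 * Xf β a ω - 2 * kap a ω) ∧
      (Φ (pt (Real.log (tau a)) (π / 2))).re = JJ β a ∧ Φ (pt 0 (π / 2)) = 0 := by
  have haC : ((a:ℝ):ℂ) ∈ ball (0:ℂ) 1 := by
    rw [mem_ball, dist_zero_right, Complex.norm_real, Real.norm_of_nonneg ha.le]
    exact ha1
  have ha0 : ((a:ℝ):ℂ) ≠ 0 := by exact_mod_cast ha.ne'
  obtain ⟨F, hF0, hF, hexp⟩ := exists_log h haC
  have hre : ∀ z ∈ ball (0:ℂ) 1, 0 < (1 - (a:ℂ) * z).re := by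
    intro z hz
    rw [mem_ball, dist_zero_right] at hz
    have h1 : ((a:ℂ) * z).re ≤ ‖(a:ℂ) * z‖ := Complex.re_le_norm _
    rw [norm_mul, Complex.norm_real, Real.norm_of_nonneg ha.le] at h1
    rw [Complex.sub_re, Complex.one_re]
    nlinarith only [ha, ha1, hz, h1]
  have hsl : ∀ z ∈ ball (0:ℂ) 1, (1 - (a:ℂ) * z) ∈ slitPlane := fun z hz => Or.inl (hre z hz)
  set D : ℂ → ℂ := fun z => F z - Complex.log (1 - (a:ℂ) * z) with hD
  set D' : ℂ → ℂ := fun z => deriv F z + (a:ℂ) / (1 - (a:ℂ) * z) with hD'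
  have hder : ∀ z ∈ ball (0:ℂ) 1, HasDerivAt D (D' z) z := by
    intro z hz
    have h1 : HasDerivAt (fun z : ℂ => 1 - (a:ℂ) * z) (-(a:ℂ)) z := by
      have := ((hasDerivAt_id z).const_mul (a:ℂ)).const_sub 1
      simpa using this
    have h2 := h1.clog (hsl z hz)
    have h3 := (hF z hz).sub h2
    have h4 : D' z = deriv (qq β a) z / qq β a z - -(a:ℂ) / (1 - (a:ℂ) * z) := by
      simp only [hD']
      rw [(hF z hz).deriv]
      ring
    rw [h4]
    exact h3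
  have hDd : DifferentiableOn ℂ D (ball 0 1) := fun z hz =>
    (hder z hz).differentiableAt.differentiableWithinAt
  have hJ : - Real.log (1 - ‖((a:ℝ):ℂ)‖ ^ 2) + (F a).re = JJ β a := by
    have h5 : ‖N β (a:ℂ)‖ = Real.exp (F a).re := by
      rw [← qq_self, ← hexp _ haC, Complex.norm_exp]
    have h6 : (0:ℝ) < 1 - a ^ 2 := by (clear * - ha1 ha; nlinarith only [ha, ha1])
    rw [JJ, h5, Real.log_div (Real.exp_pos _).ne' h6.ne', Real.log_exp, Complex.norm_real,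
      Real.norm_of_nonneg ha.le]
    ring
  have hen : ∀ ρ : ℝ, 0 < ρ → ρ < 1 → ∫ z in ball (0:ℂ) ρ, ‖deriv D z‖ ^ 2 ≤ 2 * π * JJ β a := by
    intro ρ h0 h1
    have h2 := energy h h0 h1 haC ha0 hF hF0 hexp
    rw [hJ] at h2
    refine le_trans (le_of_eq ?_) h2
    apply setIntegral_congr_fun measurableSet_ball
    intro z hz
    simp only
    rw [(hder z (ball_subset_ball h1.le hz)).deriv, hD', Complex.conj_ofReal]
  have hz1 : ∀ ω : ℂ, 0 < ω.im → ω.im < π → zf ω ∈ ball (0:ℂ) 1 := by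
    intro ω h0 h1
    rw [mem_ball, dist_zero_right]
    exact norm_zf_lt (exp_im_pos h0 h1)
  refine ⟨fun ω => D (zf ω), fun ω => D' (zf ω) * zd ω, ?_, ?_, ?_, ?_, ?_⟩
  · intro ω h0 h1
    exact (hder _ (hz1 ω h0 h1)).comp ω (hasDerivAt_zf (exp_ne_neg_I' h0 h1))
  · intro ω h0 h1
    have h2 := hz1 ω h0 h1
    have h3 : ‖zf ω‖ < 1 := by simpa using h2
    have h4 := bloch hDd hen h3
    rw [(hder _ h2).deriv] at h4
    have h5 := norm_zd h0 h1
    have hs : 0 < Real.sin ω.im := Real.sin_pos_of_pos_of_lt_pi h0 h1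
    simp only
    rw [norm_mul]
    have h6 : ‖zd ω‖ * Real.sin ω.im = (1 - ‖zf ω‖) * (1 + ‖zf ω‖) / 2 := by
      linear_combination (1 / 2) * h5
    calc ‖D' (zf ω)‖ * ‖zd ω‖ * Real.sin ω.im = ‖D' (zf ω)‖ * (‖zd ω‖ * Real.sin ω.im) := by ring
      _ = (‖D' (zf ω)‖ * (1 - ‖zf ω‖)) * ((1 + ‖zf ω‖) / 2) := by rw [h6]; ring
      _ ≤ (‖D' (zf ω)‖ * (1 - ‖zf ω‖)) * 1 := by
          apply mul_le_mul_of_nonneg_left (by linarith only [h3])
          exact mul_nonneg (norm_nonneg _) (by linarith only [h3])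
      _ ≤ _ := by rw [mul_one]; exact h4
  · intro ω h0 h1 h2 h3
    have hR : ω ∈ Rect ω.re ω.re := ⟨⟨le_refl _, le_refl _⟩, ⟨h0.le, h1.le⟩⟩
    have hzb := hz1 ω h0 h1
    have hz0 : zf ω ≠ 0 := zf_ne_zero h3 hR
    have hza : zf ω ≠ a := zf_ne_a ha ha1 h2 hR
    rw [← zd_Dd ha ha1 h2 h3 hR, Dd, dphi_div h haC hzb ha0 hz0 hza, hD']
    simp only
    rw [(hF _ hzb).deriv]
    ring
  · have h1 : zf (pt (Real.log (tau a)) (π / 2)) = a := by
      have h2 : Complex.exp (pt (Real.log (tau a)) (π / 2)) = (tau a : ℂ) * I := by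
        rw [pt, Complex.exp_add, ← Complex.ofReal_exp, Real.exp_log (tau_pos ha ha1)]
        congr 1
        push_cast
        exact Complex.exp_pi_div_two_mul_I
      rw [zf, h2, tau]
      have h3 : (1 + (a:ℂ)) ≠ 0 := by
        have : ((1 + a : ℝ) : ℂ) ≠ 0 := by exact_mod_cast (by (clear * - ha; positivity))
        simpa using this
      have h4 : (I:ℂ) ≠ 0 := I_ne_zero
      push_cast
      have h5 : I + (1 - (a:ℂ)) / (1 + a) * I = 2 / (1 + a) * I := by field_simp; ring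
      have h6 : I - (1 - (a:ℂ)) / (1 + a) * I = 2 * a / (1 + a) * I := by field_simp; ring
      rw [h5, h6]
      (clear * - h3 h4 ha0; field_simp)
    simp only [h1]
    rw [← hJ, hD]
    simp only
    have h7 : (1 - (a:ℂ) * a) = ((1 - a ^ 2 : ℝ) : ℂ) := by push_cast; ring
    rw [h7, ← Complex.ofReal_log (by (clear * - ha1 ha; nlinarith only [ha, ha1])), Complex.sub_re, Complex.ofReal_re,
      Complex.norm_real, Real.norm_of_nonneg ha.le]
    ring
  · have h1 : zf (pt 0 (π / 2)) = 0 := by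
      have h2 : Complex.exp (pt 0 (π / 2)) = I := by
        rw [pt]
        push_cast
        rw [zero_add]
        exact Complex.exp_pi_div_two_mul_I
      rw [zf, h2, sub_self, zero_div]
    simp only [h1]
    rw [hD]
    simp [hF0]

end Pool.Agent.Helper79.EK3

end

section

namespace Pool.Agent.Helper39.Area
end Pool.Agent.Helper39.Area
namespace Pool.Agent.Helper39.EK
end Pool.Agent.Helper39.EK
namespace Pool.Agent.Helper52.EK
end Pool.Agent.Helper52.EK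
namespace Pool.Agent.Helper86.EK
end Pool.Agent.Helper86.EK

set_option autoImplicit false

open Complex MeasureTheory Metric Set Filter Topology

open scoped Real ENNReal ComplexConjugate NNReal

namespace Pool.Agent.Helper79.EK3

open Pool.Agent.Helper39.Area Pool.Agent.Helper39.EK Pool.Agent.Helper52.EK Pool.Agent.Helper86.EK

theorem pt_re (ξ η : ℝ) : (pt ξ η).re = ξ := by simp [pt]

theorem pt_im (ξ η : ℝ) : (pt ξ η).im = η := by simp [pt]

theorem hasDerivAt_pt (ξ η : ℝ) : HasDerivAt (fun t : ℝ => pt t η) 1 ξ := by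
  have h : HasDerivAt (fun t : ℝ => (t:ℂ) + (η:ℂ) * I) 1 ξ :=
    (Complex.ofRealCLM.hasDerivAt (x := ξ)).add_const _
  exact h

/-- `Φ` moves slowly along the centre line -/
theorem horiz {Φ Φ' : ℂ → ℂ} {B : ℝ} (h1 : ∀ ω : ℂ, 0 < ω.im → ω.im < π → HasDerivAt Φ (Φ' ω) ω)
    (h2 : ∀ ω : ℂ, 0 < ω.im → ω.im < π → ‖Φ' ω‖ * Real.sin ω.im ≤ B) (x y : ℝ) :
    ‖Φ (pt y (π / 2)) - Φ (pt x (π / 2))‖ ≤ B * |y - x| := by
  have hπ := Real.pi_pos
  have hd : ∀ t ∈ (univ : Set ℝ), HasDerivWithinAt (fun t : ℝ => Φ (pt t (π / 2)))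
      (Φ' (pt t (π / 2))) univ t := by
    intro t _
    have h3 := h1 (pt t (π / 2)) (by rw [pt_im]; linarith only [hπ]) (by rw [pt_im]; (clear * - hπ; linarith only [hπ]))
    have h4 := h3.comp_of_eq t (hasDerivAt_pt t (π / 2)) rfl
    rw [mul_one] at h4
    exact h4.hasDerivWithinAt
  have hb : ∀ t ∈ (univ : Set ℝ), ‖Φ' (pt t (π / 2))‖ ≤ B := by
    intro t _
    have h3 := h2 (pt t (π / 2)) (by rw [pt_im]; (clear * - hπ; linarith only [hπ])) (by rw [pt_im]; (clear * - hπ; linarith only [hπ]))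
    rwa [pt_im, Real.sin_pi_div_two, mul_one] at h3
  have := convex_univ.norm_image_sub_le_of_norm_hasDerivWithin_le hd hb (mem_univ x) (mem_univ y)
  rwa [Real.norm_eq_abs] at this

theorem kap_re {a : ℝ} (h0 : 0 < a) (h1 : a < 1) {ξ η : ℝ} (hx : Real.log (tau a) + 1 ≤ ξ)
    (hx2 : ξ ≤ -1) :
    1 - (kap a (pt ξ η)).re ≤ 12 * Real.exp (ξ / 2) + 4 * Real.exp ((Real.log (tau a) - ξ) / 2) := by
  have h3 := Pool.Agent.Helper46.EK.kap_bound h0 h1 (η := η) hx hx2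
  have hτ := tau_pos h0 h1
  have h4 : 1 - (kap a (pt ξ η)).re ≤ ‖kap a (pt ξ η) - 1‖ := by
    have := Complex.abs_re_le_norm (kap a (pt ξ η) - 1)
    rw [Complex.sub_re, Complex.one_re] at this
    have h5 := neg_abs_le ((kap a (pt ξ η)).re - 1)
    (clear * - this h5; linarith only [this, h5])
  refine h4.trans ?_
  apply le_of_sq_le_sq _ (by positivity)
  have e1 : Real.exp (ξ / 2) ^ 2 = Real.exp ξ := by
    rw [← Real.exp_nat_mul]; congr 1; push_cast; ring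
  have e2 : Real.exp ((Real.log (tau a) - ξ) / 2) ^ 2 = tau a * Real.exp (-ξ) := by
    rw [← Real.exp_nat_mul]
    have : ((2:ℕ):ℝ) * ((Real.log (tau a) - ξ) / 2) = Real.log (tau a) + -ξ := by push_cast; ring
    rw [this, Real.exp_add, Real.exp_log hτ]
  have p1 := Real.exp_pos (ξ / 2)
  have p2 := Real.exp_pos ((Real.log (tau a) - ξ) / 2)
  (clear * - p2 p1 h3 e1 e2; nlinarith only [h3, e1, e2, p1, p2])

theorem int_exp_half {x₁ x₂ L : ℝ} (h1 : L + 1 ≤ x₁) (h12 : x₁ ≤ x₂) (h2 : x₂ ≤ -1) :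
    ∫ ξ in x₁..x₂, (12 * Real.exp (ξ / 2) + 4 * Real.exp ((L - ξ) / 2)) ≤ 32 := by
  have hd : ∀ ξ ∈ uIcc x₁ x₂, HasDerivAt (fun ξ : ℝ => 24 * Real.exp (ξ / 2) -
      8 * Real.exp ((L - ξ) / 2)) (12 * Real.exp (ξ / 2) + 4 * Real.exp ((L - ξ) / 2)) ξ := by
    intro ξ _
    have a1 : HasDerivAt (fun ξ : ℝ => ξ / 2) (1 / 2) ξ := (hasDerivAt_id ξ).div_const 2
    have a2 : HasDerivAt (fun ξ : ℝ => (L - ξ) / 2) (-1 / 2) ξ :=
      ((hasDerivAt_id ξ).const_sub L).div_const 2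
    have a3 := (a1.exp.const_mul 24).sub (a2.exp.const_mul 8)
    have a4 : 12 * Real.exp (ξ / 2) + 4 * Real.exp ((L - ξ) / 2) =
        24 * (Real.exp (ξ / 2) * (1 / 2)) - 8 * (Real.exp ((L - ξ) / 2) * (-1 / 2)) := by ring
    rw [a4]
    exact a3
  rw [intervalIntegral.integral_eq_sub_of_hasDerivAt hd
    ((by fun_prop : Continuous fun ξ : ℝ => 12 * Real.exp (ξ / 2) +
      4 * Real.exp ((L - ξ) / 2)).intervalIntegrable _ _)]
  have b1 : Real.exp (x₂ / 2) ≤ 1 := Real.exp_le_one_iff.mpr (by (clear * - h2; linarith))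
  have b2 : Real.exp ((L - x₁) / 2) ≤ 1 := Real.exp_le_one_iff.mpr (by (clear * - h1; linarith))
  have b3 := Real.exp_pos (x₁ / 2)
  have b4 := Real.exp_pos ((L - x₂) / 2)
  linarith

/-- the linear input on the centre line, with the distances to the ends -/
theorem centre_aux {β : ℂ → ℂ} {R : ℝ} (h : ExtR β R) {a : ℝ} (ha : 0 < a) (ha1 : a < 1)
    {x₁ x₂ : ℝ} (h1 : Real.log (tau a) + 1 ≤ x₁) (h12 : x₁ ≤ x₂) (h2 : x₂ ≤ -1) :
    2 * ∫ ξ in x₁..x₂, (1 - (Xf β a (pt ξ (π / 2))).re) ≤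
      JJ β a + 64 + Real.sqrt (2 * JJ β a) * ((x₁ - Real.log (tau a)) - x₂) := by
  have hπ := Real.pi_pos
  obtain ⟨Φ, Φ', hd, hb, hX, hJ, hO⟩ := exists_Phi h.toExt ha ha1
  have hN := Pool.Agent.Helper67.EK.E1c h ha ha1 (x₁ := x₁) (x₂ := x₂) (by linarith only [h1]) (by (clear * - h2; linarith only [h2]))
  have hmem : ∀ ξ ∈ Icc x₁ x₂, pt ξ (π / 2) ∈ Rect x₁ x₂ := by
    intro ξ hξ
    refine ⟨?_, ?_⟩
    · simp only [mem_preimage, pt_re]; exact hξ
    · simp only [mem_preimage, pt_im, mem_Icc]; constructor <;> (clear * - hπ; linarith only [hπ])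
  have hptc : Continuous fun ξ : ℝ => pt ξ (π / 2) := by unfold pt; fun_prop
  have hXc : ContinuousOn (fun ξ : ℝ => Xf β a (pt ξ (π / 2))) (Icc x₁ x₂) :=
    hN.an.continuousOn.comp hptc.continuousOn hmem
  have hkc : ContinuousOn (fun ξ : ℝ => kap a (pt ξ (π / 2))) (Icc x₁ x₂) := by
    have hk : ContinuousOn (kap a) (Rect x₁ x₂) := by
      apply ContinuousOn.div (by fun_prop) (by fun_prop)
      intro ω hω
      exact mul_ne_zero (sq_add_tau_ne ha ha1 (by linarith only [h1]) hω) (sq_add_one_ne (by linarith only [h2]) hω)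
    exact hk.comp hptc.continuousOn hmem
  have hXi : IntervalIntegrable (fun ξ : ℝ => (Xf β a (pt ξ (π / 2))).re) volume x₁ x₂ := by
    apply ContinuousOn.intervalIntegrable
    rw [uIcc_of_le h12]
    exact Complex.continuous_re.comp_continuousOn hXc
  have hki : IntervalIntegrable (fun ξ : ℝ => (kap a (pt ξ (π / 2))).re) volume x₁ x₂ := by
    apply ContinuousOn.intervalIntegrable
    rw [uIcc_of_le h12]
    exact Complex.continuous_re.comp_continuousOn hkc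
  -- fundamental theorem of calculus for `Re Φ`
  have hft : ∫ ξ in x₁..x₂, (2 * (Xf β a (pt ξ (π / 2))).re - 2 * (kap a (pt ξ (π / 2))).re) =
      (Φ (pt x₂ (π / 2))).re - (Φ (pt x₁ (π / 2))).re := by
    apply intervalIntegral.integral_eq_sub_of_hasDerivAt (f := fun ξ => (Φ (pt ξ (π / 2))).re)
    · intro ξ hξ
      rw [uIcc_of_le h12] at hξ
      have i1 : 0 < (pt ξ (π / 2)).im := by rw [pt_im]; linarith only [hπ]
      have i2 : (pt ξ (π / 2)).im < π := by rw [pt_im]; linarith only [hπ]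
      have h3 := (hd _ i1 i2).comp_of_eq ξ (hasDerivAt_pt ξ (π / 2)) rfl
      rw [mul_one, hX _ i1 i2 (by rw [pt_re]; linarith only [hξ.1, h1]) (by rw [pt_re]; linarith only [hξ.2, h2])] at h3
      have h4 := (Complex.reCLM.hasFDerivAt.comp_hasDerivAt ξ h3)
      have h5 : Complex.reCLM (2 * Xf β a (pt ξ (π / 2)) - 2 * kap a (pt ξ (π / 2))) =
          2 * (Xf β a (pt ξ (π / 2))).re - 2 * (kap a (pt ξ (π / 2))).re := by
        simp
      rw [h5] at h4
      exact h4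
    · exact (hXi.const_mul 2).sub (hki.const_mul 2)
  have hB0 : 0 ≤ Real.sqrt (2 * JJ β a) := Real.sqrt_nonneg _
  -- the two ends
  have hend2 : -(Real.sqrt (2 * JJ β a) * -x₂) ≤ (Φ (pt x₂ (π / 2))).re := by
    have h3 := horiz hd hb 0 x₂
    rw [hO, sub_zero, sub_zero, abs_of_nonpos (by (clear * - h2; linarith only [h2]))] at h3
    have h4 := Complex.abs_re_le_norm (Φ (pt x₂ (π / 2)))
    have h5 := neg_abs_le (Φ (pt x₂ (π / 2))).re
    (clear * - h3 h4 h5; linarith only [h3, h4, h5])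
  have hend1 : (Φ (pt x₁ (π / 2))).re ≤ JJ β a + Real.sqrt (2 * JJ β a) * (x₁ - Real.log (tau a)) := by
    have h3 := horiz hd hb (Real.log (tau a)) x₁
    rw [abs_of_nonneg (by linarith only [h1])] at h3
    have h4 := Complex.re_le_norm (Φ (pt x₁ (π / 2)) - Φ (pt (Real.log (tau a)) (π / 2)))
    rw [Complex.sub_re, hJ] at h4
    (clear * - h3 h4; linarith)
  have hkap : 2 * ∫ ξ in x₁..x₂, (1 - (kap a (pt ξ (π / 2))).re) ≤ 64 := by
    have h3 : ∫ ξ in x₁..x₂, (1 - (kap a (pt ξ (π / 2))).re) ≤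
        ∫ ξ in x₁..x₂, (12 * Real.exp (ξ / 2) + 4 * Real.exp ((Real.log (tau a) - ξ) / 2)) := by
      apply intervalIntegral.integral_mono_on h12
      · exact (intervalIntegrable_const).sub hki
      · exact (by fun_prop : Continuous fun ξ : ℝ => 12 * Real.exp (ξ / 2) +
          4 * Real.exp ((Real.log (tau a) - ξ) / 2)).intervalIntegrable _ _
      · intro ξ hξ
        exact kap_re ha ha1 (h1.trans hξ.1) (hξ.2.trans h2)
    have h4 := int_exp_half h1 h12 h2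
    (clear * - h3 h4; linarith only [h3, h4])
  have hsplit : 2 * ∫ ξ in x₁..x₂, (1 - (Xf β a (pt ξ (π / 2))).re) =
      2 * (∫ ξ in x₁..x₂, (1 - (kap a (pt ξ (π / 2))).re)) -
        ∫ ξ in x₁..x₂, (2 * (Xf β a (pt ξ (π / 2))).re - 2 * (kap a (pt ξ (π / 2))).re) := by
    rw [← intervalIntegral.integral_const_mul, ← intervalIntegral.integral_const_mul,
      ← intervalIntegral.integral_sub ((intervalIntegrable_const.sub hki).const_mul 2)
        ((hXi.const_mul 2).sub (hki.const_mul 2))]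
    congr 1
    funext ξ
    ring
  rw [hsplit, hft]
  (clear * - hend2 hend1 hkap; linarith only [hend2, hend1, hkap])

/-- EK3 (a): the linear input on the centre line -/
theorem centre_line {δ : ℝ} (hδ : 0 < δ) : ∃ C : ℝ, ∀ (β : ℂ → ℂ) (R a : ℝ), ExtR β R → 0 < a →
    a < 1 → ∀ x₁ x₂ : ℝ, Real.log (tau a) + 1 ≤ x₁ → x₁ ≤ x₂ → x₂ ≤ -1 →
    2 * ∫ ξ in x₁..x₂, (1 - (Xf β a (pt ξ (π / 2))).re) ≤
      (1 + δ) * Real.log (‖N β a‖ / (1 - a ^ 2)) + C := by
  refine ⟨96 + 2 / δ, fun β R a h ha ha1 x₁ x₂ h1 h12 h2 => ?_⟩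
  have hπ := Real.pi_pos
  set L := Real.log (tau a) with hL
  have h3 := centre_aux h ha ha1 (x₁ := L + 1) (x₂ := -1) (le_refl _) (by linarith) (le_refl _)
  have hJ := JJ_nonneg h.toExt ha ha1
  have h4 : Real.sqrt (2 * JJ β a) * ((L + 1 - L) - -1) ≤ δ * JJ β a + 2 / δ := by
    set B := Real.sqrt (2 * JJ β a) with hB
    have hB2 : B ^ 2 = 2 * JJ β a := Real.sq_sqrt (by linarith only [hJ])
    have h7 : 0 ≤ (δ * B - 2) ^ 2 / (2 * δ) := by (clear * - hδ; positivity)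
    have h8 : (δ * B - 2) ^ 2 / (2 * δ) = δ / 2 * B ^ 2 + 2 / δ - B * 2 := by
      field_simp
      ring
    rw [h8, hB2] at h7
    (clear * - h7; linarith only [h7])
  -- the rest of the centre line, by Koebe
  have hN := Pool.Agent.Helper67.EK.E1c h ha ha1 (x₁ := L + 1) (x₂ := -1) (by linarith only [])
    (by linarith only [])
  have hptc : Continuous fun ξ : ℝ => pt ξ (π / 2) := by unfold pt; fun_prop
  have hfc : ContinuousOn (fun ξ : ℝ => 1 - (Xf β a (pt ξ (π / 2))).re) (Icc (L + 1) (-1)) := by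
    apply continuousOn_const.sub
    apply Complex.continuous_re.comp_continuousOn
    apply hN.an.continuousOn.comp hptc.continuousOn
    intro ξ hξ
    refine ⟨?_, ?_⟩
    · simp only [mem_preimage, pt_re]; exact hξ
    · simp only [mem_preimage, pt_im, mem_Icc]; constructor <;> (clear * - hπ; linarith only [hπ])
  have hii : ∀ u v : ℝ, L + 1 ≤ u → u ≤ v → v ≤ -1 →
      IntervalIntegrable (fun ξ : ℝ => 1 - (Xf β a (pt ξ (π / 2))).re) volume u v := by
    intro u v hu huv hv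
    apply ContinuousOn.intervalIntegrable
    rw [uIcc_of_le huv]
    exact hfc.mono (Icc_subset_Icc hu hv)
  have hpos : ∀ u v : ℝ, L + 1 ≤ u → u ≤ v → v ≤ -1 →
      -8 ≤ ∫ ξ in u..v, (1 - (Xf β a (pt ξ (π / 2))).re) := by
    intro u v hu huv hv
    have g1 : ∫ ξ in u..v, (-(4 * Real.exp ξ + 4 * Real.exp (L - ξ))) ≤
        ∫ ξ in u..v, (1 - (Xf β a (pt ξ (π / 2))).re) := by
      apply intervalIntegral.integral_mono_on huv
      · exact (by fun_prop : Continuous fun ξ : ℝ =>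
          -(4 * Real.exp ξ + 4 * Real.exp (L - ξ))).intervalIntegrable _ _
      · exact hii u v hu huv hv
      · intro ξ hξ
        have g2 := Pool.Agent.Helper84.EK.centre_err h.toExt ha ha1 (ξ := ξ) (hu.trans hξ.1)
          (hξ.2.trans hv)
        have g3 := Complex.re_le_norm (Xf β a (pt ξ (π / 2)))
        rw [← hL] at g2
        linarith only [g2, g3]
    have g4 : ∫ ξ in u..v, (-(4 * Real.exp ξ + 4 * Real.exp (L - ξ))) =
        (-(4 * Real.exp v) + 4 * Real.exp (L - v)) - (-(4 * Real.exp u) + 4 * Real.exp (L - u)) := by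
      apply intervalIntegral.integral_eq_sub_of_hasDerivAt
        (f := fun ξ : ℝ => -(4 * Real.exp ξ) + 4 * Real.exp (L - ξ))
      · intro ξ _
        have a1 := ((Real.hasDerivAt_exp ξ).const_mul 4).neg
        have a2 : HasDerivAt (fun ξ : ℝ => L - ξ) (-1) ξ := (hasDerivAt_id ξ).const_sub L
        have a3 := a1.add (a2.exp.const_mul 4)
        have a4 : -(4 * Real.exp ξ + 4 * Real.exp (L - ξ)) =
            -(4 * Real.exp ξ) + 4 * (Real.exp (L - ξ) * -1) := by ring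
        rw [a4]
        exact a3
      · exact (by fun_prop : Continuous fun ξ : ℝ =>
          -(4 * Real.exp ξ + 4 * Real.exp (L - ξ))).intervalIntegrable _ _
    have b1 : Real.exp v ≤ 1 := Real.exp_le_one_iff.mpr (by linarith only [hv])
    have b2 : Real.exp (L - u) ≤ 1 := Real.exp_le_one_iff.mpr (by linarith only [hu])
    have b3 := Real.exp_pos u
    have b4 := Real.exp_pos (L - v)
    rw [g4] at g1
    linarith only [g1, b1, b2, b3, b4]
  have hs1 := intervalIntegral.integral_add_adjacent_intervals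
    (hii (L + 1) x₁ (le_refl _) h1 (h12.trans h2)) (hii x₁ x₂ h1 h12 h2)
  have hs2 := intervalIntegral.integral_add_adjacent_intervals
    (hii (L + 1) x₂ (le_refl _) (h1.trans h12) h2) (hii x₂ (-1) (h1.trans h12) h2 (le_refl _))
  have p1 := hpos (L + 1) x₁ (le_refl _) h1 (h12.trans h2)
  have p2 := hpos x₂ (-1) (h1.trans h12) h2 (le_refl _)
  have h11 : (1 + δ) * Real.log (‖N β a‖ / (1 - a ^ 2)) = JJ β a + δ * JJ β a := by
    rw [JJ]; ring
  rw [h11]
  linarith only [h3, h4, hs1, hs2, p1, p2]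

end Pool.Agent.Helper79.EK3

end

section

namespace Pool.Agent.Helper39.Area
end Pool.Agent.Helper39.Area
namespace Pool.Agent.Helper52.EK
end Pool.Agent.Helper52.EK

set_option autoImplicit false

open Complex MeasureTheory Metric Set

open scoped Real ComplexConjugate

namespace Pool.Agent.Helper69.EK3

open Pool.Agent.Helper39.Area Pool.Agent.Helper52.EK

theorem exp_int (a b : ℝ) : ∫ ξ in a..b, Real.exp ξ = Real.exp b - Real.exp a :=
  integral_exp

theorem e0_neg (s c : ℝ) : e0 s (-c) = conj (e0 s c) := by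
  unfold e0
  simp only [map_neg, map_pow, map_sub, map_mul, conj_ofReal, conj_I, ofReal_neg]
  ring

theorem mX_conj (X Y : ℂ) (s c : ℝ) : mX (conj X) (conj Y) s c = conj (mX X Y s (-c)) := by
  unfold mX
  rw [e0_neg]
  simp only [map_sub, map_mul, map_add, map_div₀, map_one, map_ofNat, Complex.conj_conj]

end Pool.Agent.Helper69.EK3

end

section

namespace Pool.Agent.Helper39.Area
end Pool.Agent.Helper39.Area
namespace Pool.Agent.Helper52.EK
end Pool.Agent.Helper52.EK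

set_option autoImplicit false

open Complex MeasureTheory Metric Set

open scoped Real ComplexConjugate

namespace Pool.Agent.Helper69.EK3

open Pool.Agent.Helper39.Area Pool.Agent.Helper52.EK

/-- the expression `(1+e₀)(σ 2X - 1 + X'/X) + 2`, `σ = ±1` -/
noncomputable def dA (σ : ℝ) (X Y : ℂ) (s c : ℝ) : ℂ :=
  (1 + e0 s c) * ((σ : ℂ) * (2 * X) - 1 + Y / X) + 2

/-- the bounds of Koebe and Bieberbach with an integrable error -/
def DiscP (X : ℂ → ℂ) (x₁ x₂ : ℝ) : Prop :=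
  ∃ δ : ℝ → ℝ, Continuous δ ∧ (∀ ξ, 0 ≤ δ ξ) ∧ (∀ ξ ∈ Icc x₁ x₂, δ ξ ≤ 8) ∧
    (∫ ξ in x₁..x₂, δ ξ ≤ 8) ∧ ∀ ξ ∈ Icc x₁ x₂, ∀ η ∈ Icc (0:ℝ) (π / 2),
      Real.sin η * ‖X (pt ξ η)‖ ≤ 1 + δ ξ ∧
      ‖dA 1 (X (pt ξ η)) (deriv X (pt ξ η)) (Real.sin η) (Real.cos η)‖ ≤ 4 * (1 + δ ξ) ∧
      ‖dA (-1) (X (pt ξ η)) (deriv X (pt ξ η)) (Real.sin η) (Real.cos η)‖ ≤ 4 * (1 + δ ξ)

theorem norm_one_add_e0 {η : ℝ} (hs : 0 ≤ Real.sin η) :
    ‖1 + e0 (Real.sin η) (Real.cos η)‖ = 2 * Real.sin η := by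
  have e1 : 1 + e0 (Real.sin η) (Real.cos η) =
      (2 * Real.sin η : ℝ) * ((Real.sin η : ℂ) + (Real.cos η : ℂ) * I) := by
    unfold e0
    push_cast
    have h5 : Complex.cos η ^ 2 + Complex.sin η ^ 2 = 1 := Complex.cos_sq_add_sin_sq _
    linear_combination -h5 - Complex.sin η ^ 2 * I_sq
  have e2 : ‖(Real.sin η : ℂ) + (Real.cos η : ℂ) * I‖ = 1 := by
    have e3 : ‖(Real.sin η : ℂ) + (Real.cos η : ℂ) * I‖ ^ 2 = 1 := by
      rw [← Complex.normSq_eq_norm_sq, Complex.normSq_apply]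
      simp only [add_re, add_im, mul_re, mul_im, ofReal_re, ofReal_im, I_re, I_im, mul_zero,
        mul_one, sub_zero, add_zero, zero_add]
      linarith only [Real.sin_sq_add_cos_sq η]
    have e4 := norm_nonneg ((Real.sin η : ℂ) + (Real.cos η : ℂ) * I)
    nlinarith only [e3, e4]
  rw [e1, norm_mul, e2, mul_one, Complex.norm_real, Real.norm_of_nonneg (by (clear * - hs; positivity))]

/-- the bound of `q = X'/X` in the class -/
theorem sin_q_le {X Y : ℂ} {η d : ℝ} (hs : 0 ≤ Real.sin η) (hd : d ≤ 8)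
    (h1 : Real.sin η * ‖X‖ ≤ 1 + d)
    (h2 : ‖dA 1 X Y (Real.sin η) (Real.cos η)‖ ≤ 4 * (1 + d)) :
    Real.sin η * ‖Y / X‖ ≤ 38 := by
  have hn := norm_one_add_e0 hs
  have hs1 : Real.sin η ≤ 1 := Real.sin_le_one η
  set E := 1 + e0 (Real.sin η) (Real.cos η) with hE
  have e : E * (Y / X) = dA 1 X Y (Real.sin η) (Real.cos η) - 2 - E * (2 * X) + E := by
    unfold dA
    rw [← hE]
    push_cast
    ring
  have h3 : ‖E * (Y / X)‖ ≤ 4 * (1 + d) + 2 + 2 * Real.sin η * (2 * ‖X‖) + 2 * Real.sin η := by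
    rw [e]
    have a1 := norm_add_le (dA 1 X Y (Real.sin η) (Real.cos η) - 2 - E * (2 * X)) E
    have a2 := norm_sub_le (dA 1 X Y (Real.sin η) (Real.cos η) - 2) (E * (2 * X))
    have a3 := norm_sub_le (dA 1 X Y (Real.sin η) (Real.cos η)) 2
    have a4 : ‖(2:ℂ)‖ = 2 := by simp
    rw [norm_mul E, norm_mul (2:ℂ), a4, hn] at a2
    rw [a4] at a3
    rw [hn] at a1
    (clear * - h2 a1 a2 a3; linarith only [h2, a1, a2, a3])
  rw [norm_mul, hn] at h3
  linarith only [hd, h1, hs1, h3]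

theorem DiscP.q_le (X : ℂ → ℂ) (x₁ x₂ : ℝ) (_hx : x₁ ≤ x₂) (_hX : NiceH X x₁ x₂)
    (h : DiscP X x₁ x₂) : ∀ ξ ∈ Icc x₁ x₂, ∀ η ∈ Icc (0:ℝ) (π / 2),
      Real.sin η * ‖deriv X (pt ξ η) / X (pt ξ η)‖ ≤ 38 := by
  obtain ⟨δ, _, _, h3, _, h5⟩ := h
  intro ξ hξ η hη
  have hs : 0 ≤ Real.sin η := Real.sin_nonneg_of_nonneg_of_le_pi hη.1
    (hη.2.trans (by (clear * -; linarith only [Real.pi_pos])))
  obtain ⟨k1, k2, _⟩ := h5 ξ hξ η hη
  exact sin_q_le hs (h3 ξ hξ) k1 k2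

theorem DiscP.X_le (X : ℂ → ℂ) (x₁ x₂ : ℝ) (_hx : x₁ ≤ x₂) (_hX : NiceH X x₁ x₂)
    (h : DiscP X x₁ x₂) : ∀ ξ ∈ Icc x₁ x₂, ∀ η ∈ Icc (0:ℝ) (π / 2),
      Real.sin η * ‖X (pt ξ η)‖ ≤ 9 := by
  obtain ⟨δ, _, _, h3, _, h5⟩ := h
  intro ξ hξ η hη
  obtain ⟨k1, _, _⟩ := h5 ξ hξ η hη
  linarith only [h3 ξ hξ, k1]

/-- the bounds for `Xf`, on the whole strip -/
theorem disc_Xf {β : ℂ → ℂ} {R a : ℝ} (h : ExtR β R) (ha : 0 < a) (ha1 : a < 1) {ξ η : ℝ}
    (h1 : Real.log (tau a) + 1 ≤ ξ) (h2 : ξ ≤ -1) (h3 : 0 ≤ η) (h4 : η ≤ π) :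
    Real.sin η * ‖Xf β a (pt ξ η)‖ ≤
      1 + (4 * Real.exp ξ + 4 * Real.exp (Real.log (tau a) - ξ)) ∧
    ‖dA 1 (Xf β a (pt ξ η)) (deriv (Xf β a) (pt ξ η)) (Real.sin η) (Real.cos η)‖ ≤
      4 * (1 + (4 * Real.exp ξ + 4 * Real.exp (Real.log (tau a) - ξ))) ∧
    ‖dA (-1) (Xf β a (pt ξ η)) (deriv (Xf β a) (pt ξ η)) (Real.sin η) (Real.cos η)‖ ≤
      4 * (1 + (4 * Real.exp ξ + 4 * Real.exp (Real.log (tau a) - ξ))) := by
  have hy0 := Real.exp_pos ξ
  have hq0 := Real.exp_pos (Real.log (tau a) - ξ)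
  rcases eq_or_lt_of_le h3 with h5 | h5
  · subst h5
    have e : dA 1 (Xf β a (pt ξ 0)) (deriv (Xf β a) (pt ξ 0)) (Real.sin 0) (Real.cos 0) = 2 := by
      simp [dA, e0]
    have e' : dA (-1) (Xf β a (pt ξ 0)) (deriv (Xf β a) (pt ξ 0)) (Real.sin 0) (Real.cos 0) =
        2 := by
      simp [dA, e0]
    have e4 : ‖(2:ℂ)‖ = 2 := by simp
    rw [e, e', e4, Real.sin_zero, zero_mul]
    refine ⟨by linarith only [hy0, hq0], by linarith only [hy0, hq0], by linarith only [hy0, hq0]⟩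
  rcases eq_or_lt_of_le h4 with h6 | h6
  · subst h6
    have e : dA 1 (Xf β a (pt ξ π)) (deriv (Xf β a) (pt ξ π)) (Real.sin π) (Real.cos π) = 2 := by
      simp [dA, e0]
    have e' : dA (-1) (Xf β a (pt ξ π)) (deriv (Xf β a) (pt ξ π)) (Real.sin π) (Real.cos π) =
        2 := by
      simp [dA, e0]
    have e4 : ‖(2:ℂ)‖ = 2 := by simp
    rw [e, e', e4, Real.sin_pi, zero_mul]
    refine ⟨by (clear * - hy0 hq0; linarith only [hy0, hq0]), by (clear * - ha ha1 hy0 hq0; linarith), by linarith⟩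
  have hτ : 0 < tau a := by
    unfold tau
    have : 0 < 1 - a := by linarith
    (clear * - ha1 ha; positivity)
  have hhalf : Real.exp (-1) ≤ 1 / 2 := by
    have h9 : Real.exp (-1) < 0.3678794412 := Real.exp_neg_one_lt_d9
    (clear * - h9; linarith only [h9])
  have hy : Real.exp ξ ≤ 1 / 2 := (Real.exp_le_exp.mpr h2).trans hhalf
  have hq : Real.exp (Real.log (tau a) - ξ) ≤ 1 / 2 :=
    (Real.exp_le_exp.mpr (by linarith only [h1])).trans hhalf
  have hτe : tau a = Real.exp ξ * Real.exp (Real.log (tau a) - ξ) := by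
    rw [← Real.exp_add, add_sub_cancel, Real.exp_log hτ]
  obtain ⟨δ, hδ⟩ : ∃ δ, δ = 4 * Real.exp ξ + 4 * Real.exp (Real.log (tau a) - ξ) := ⟨_, rfl⟩
  have hδ0 : 0 < δ := by rw [hδ]; (clear * -; positivity)
  have hr : 0 < (1 + δ)⁻¹ := by (clear * - hδ0; positivity)
  have hk := bieb_strip h ha ha1 (ξ := ξ) (η := η) (by linarith only [h1]) (by linarith only [h2]) h5 h6 hr
    (by
      rw [inv_mul_le_iff₀ (by linarith only [hδ0]), hδ]
      (clear * - hq0 hy0 hy; nlinarith only [hy0, hq0, hy]))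
    (by
      rw [inv_mul_le_iff₀ (by linarith only [hδ0])]
      have e1 : Real.exp ξ + tau a = Real.exp ξ * (1 + Real.exp (Real.log (tau a) - ξ)) := by
        nth_rewrite 1 [hτe]
        ring
      have e2 : Real.exp ξ - tau a = Real.exp ξ * (1 - Real.exp (Real.log (tau a) - ξ)) := by
        nth_rewrite 1 [hτe]
        ring
      rw [e1, e2]
      have e3 : 1 + Real.exp (Real.log (tau a) - ξ) ≤
          (1 + δ) * (1 - Real.exp (Real.log (tau a) - ξ)) := by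
        rw [hδ]
        (clear * - hq0 hq hy0; nlinarith only [hy0, hq0, hq])
      calc Real.exp ξ * (1 + Real.exp (Real.log (tau a) - ξ)) ≤
            Real.exp ξ * ((1 + δ) * (1 - Real.exp (Real.log (tau a) - ξ))) :=
            mul_le_mul_of_nonneg_left e3 hy0.le
        _ = (1 + δ) * (Real.exp ξ * (1 - Real.exp (Real.log (tau a) - ξ))) := by ring)
    rfl rfl
  obtain ⟨k1, k2, k3⟩ := hk
  rw [← hδ]
  have hp : 0 < 1 + δ := by linarith only [hδ0]
  refine ⟨?_, ?_, ?_⟩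
  · rwa [← div_eq_mul_inv, div_le_iff₀ hp, one_mul] at k1
  · rw [← div_eq_mul_inv, div_le_iff₀ hp] at k2
    have e : dA 1 (Xf β a (pt ξ η)) (deriv (Xf β a) (pt ξ η)) (Real.sin η) (Real.cos η) =
        (1 + e0 (Real.sin η) (Real.cos η)) * (2 * Xf β a (pt ξ η) - 1 +
          deriv (Xf β a) (pt ξ η) / Xf β a (pt ξ η)) + 2 := by
      unfold dA
      push_cast
      ring
    rw [e]
    exact k2
  · rw [← div_eq_mul_inv, div_le_iff₀ hp] at k3
    have e : dA (-1) (Xf β a (pt ξ η)) (deriv (Xf β a) (pt ξ η)) (Real.sin η) (Real.cos η) =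
        (1 + e0 (Real.sin η) (Real.cos η)) * (-2 * Xf β a (pt ξ η) - 1 +
          deriv (Xf β a) (pt ξ η) / Xf β a (pt ξ η)) + 2 := by
      unfold dA
      push_cast
      ring
    rw [e]
    exact k3

theorem dA_mir (σ : ℝ) (X Y : ℂ) (s c : ℝ) :
    dA σ (conj X) (conj Y) s c = conj (dA σ X Y s (-c)) := by
  unfold dA
  rw [e0_neg]
  simp only [map_add, map_sub, map_mul, map_div₀, map_one, map_ofNat, Complex.conj_conj,
    conj_ofReal]

/-- `Xf` and its mirror image are in the class -/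
theorem discP_Xf (β : ℂ → ℂ) (R a : ℝ) (h : ExtR β R) (ha : 0 < a) (ha1 : a < 1)
    (_hx : Real.log (tau a) + 1 ≤ -1) : DiscP (Xf β a) (Real.log (tau a) + 1) (-1) ∧
      DiscP (mir (Xf β a)) (Real.log (tau a) + 1) (-1) := by
  have hc : Continuous (fun ξ : ℝ => 4 * Real.exp ξ + 4 * Real.exp (Real.log (tau a) - ξ)) := by
    fun_prop
  have h0 : ∀ ξ : ℝ, 0 ≤ 4 * Real.exp ξ + 4 * Real.exp (Real.log (tau a) - ξ) := fun ξ => by
    (clear * -; positivity)
  have h8 : ∀ ξ ∈ Icc (Real.log (tau a) + 1) (-1),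
      4 * Real.exp ξ + 4 * Real.exp (Real.log (tau a) - ξ) ≤ 8 := by
    intro ξ hξ
    have h1 : Real.exp ξ ≤ 1 := Real.exp_le_one_iff.2 (by linarith only [hξ.2])
    have h2 : Real.exp (Real.log (tau a) - ξ) ≤ 1 := Real.exp_le_one_iff.2 (by linarith only [hξ.1])
    linarith only [h1, h2]
  have hI : ∫ ξ in (Real.log (tau a) + 1)..(-1),
      (4 * Real.exp ξ + 4 * Real.exp (Real.log (tau a) - ξ)) ≤ 8 := by
    have i1 : IntervalIntegrable (fun ξ : ℝ => 4 * Real.exp ξ) volume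
        (Real.log (tau a) + 1) (-1) :=
      (by fun_prop : Continuous fun ξ : ℝ => 4 * Real.exp ξ).intervalIntegrable _ _
    have i2 : IntervalIntegrable (fun ξ : ℝ => 4 * Real.exp (Real.log (tau a) - ξ)) volume
        (Real.log (tau a) + 1) (-1) :=
      (by fun_prop : Continuous fun ξ : ℝ => 4 * Real.exp (Real.log (tau a) - ξ)).intervalIntegrable
        _ _
    rw [intervalIntegral.integral_add i1 i2, intervalIntegral.integral_const_mul,
      intervalIntegral.integral_const_mul,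
      intervalIntegral.integral_comp_sub_left (fun u => Real.exp u) (Real.log (tau a)),
      exp_int, exp_int]
    have e1 : Real.exp (-1) ≤ 1 := Real.exp_le_one_iff.2 (by norm_num)
    have e2 := Real.exp_pos (Real.log (tau a) + 1)
    have e3 : Real.exp (Real.log (tau a) - (Real.log (tau a) + 1)) ≤ 1 :=
      Real.exp_le_one_iff.2 (by linarith)
    have e4 := Real.exp_pos (Real.log (tau a) - -1)
    linarith only [e1, e2, e3, e4]
  have hpi := Real.pi_pos
  refine ⟨⟨_, hc, h0, h8, hI, fun ξ hξ η hη => ?_⟩, ⟨_, hc, h0, h8, hI, fun ξ hξ η hη => ?_⟩⟩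
  · exact disc_Xf h ha ha1 hξ.1 hξ.2 hη.1 (by (clear * - hpi hη; linarith [hη.2]))
  · have hN : NiceX (Xf β a) (Real.log (tau a) + 1) (-1) :=
      Pool.Agent.Helper67.EK.E1c h ha ha1 (by (clear * - ha ha1; linarith)) (by norm_num)
    have hd : DifferentiableAt ℂ (Xf β a) (pt ξ (π - η)) := by
      refine (hN.an _ ?_).differentiableAt
      rw [← conj_pt]
      exact mir_mem (pt_mem_RectH hξ hη)
    have hk := disc_Xf h ha ha1 hξ.1 hξ.2 (η := π - η) (by (clear * - hη hpi; linarith only [hη.2, hpi])) (by (clear * - hη; linarith [hη.1]))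
    rw [mir_pt, mir_deriv_pt hd, dA_mir, dA_mir, norm_conj, norm_conj, norm_conj]
    rw [Real.sin_pi_sub, Real.cos_pi_sub] at hk
    exact hk

end Pool.Agent.Helper69.EK3

end

section

namespace Pool.EK71
end Pool.EK71
namespace Pool.Agent.Helper52.EK
end Pool.Agent.Helper52.EK
namespace Pool.Agent.Helper2.EK
end Pool.Agent.Helper2.EK
namespace Pool.Agent.Helper71.EK3
end Pool.Agent.Helper71.EK3
namespace Pool.Agent.Helper71.EKC
end Pool.Agent.Helper71.EKC

set_option autoImplicit false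

open Complex MeasureTheory Metric Set

open scoped Real ComplexConjugate

namespace Pool.Agent.Helper69.EK3

open Pool.EK71 Pool.Agent.Helper52.EK Pool.Agent.Helper2.EK

open Pool.Agent.Helper71.EK3 Pool.Agent.Helper71.EKC

variable {P : (ℂ → ℂ) → ℝ → ℝ → Prop}

theorem norm_pow_le (m : ℕ) (hm : m ≤ 2) (X : ℂ) : ‖(X - 1) ^ m‖ ≤ 1 * (1 + ‖X - 1‖ ^ 2) := by
  rw [norm_pow, one_mul]
  have h := norm_nonneg (X - 1)
  interval_cases m
  · rw [pow_zero]
    nlinarith only []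
  · rw [pow_one]
    (clear * -; nlinarith only [])
  · linarith only []

end Pool.Agent.Helper69.EK3

end

section

namespace Pool.Sos71
end Pool.Sos71
namespace Pool.EK71
end Pool.EK71
namespace Pool.Agent.Helper52.EK
end Pool.Agent.Helper52.EK
namespace Pool.Agent.Helper2.EK
end Pool.Agent.Helper2.EK
namespace Pool.Agent.Helper71.EK3
end Pool.Agent.Helper71.EK3
namespace Pool.Agent.Helper71.EKC
end Pool.Agent.Helper71.EKC

set_option autoImplicit false

open Complex MeasureTheory Metric Set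

open scoped Real ComplexConjugate

namespace Pool.Agent.Helper69.EK3

open Pool.Sos71

open Pool.EK71 Pool.Agent.Helper52.EK Pool.Agent.Helper2.EK

open Pool.Agent.Helper71.EK3 (xL yL r2L FL G2L e_x e_y e_r2 e_F e_G2)

open Pool.Agent.Helper71.EKC (Da Da_pos pw2 e_pw sb2 e_sb)

def ePR : Ex := Ex.add (Ex.pow (Ex.va 3) 2) (Ex.pow (Ex.va 4) 2)

/-- `s q` in real and imaginary parts of `Y` -/
theorem sY_re {X Y : ℂ} (hX : X ≠ 0) (s : ℝ) :
    s * Y.re = (s * (Y / X).re) * X.re - (s * (Y / X).im) * X.im := by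
  have e : Y = (Y / X) * X := (div_mul_cancel₀ Y hX).symm
  have h := congrArg Complex.re e
  rw [mul_re] at h
  rw [h]
  ring

theorem sY_im {X Y : ℂ} (hX : X ≠ 0) (s : ℝ) :
    s * Y.im = (s * (Y / X).re) * X.im + (s * (Y / X).im) * X.re := by
  have e : Y = (Y / X) * X := (div_mul_cancel₀ Y hX).symm
  have h := congrArg Complex.im e
  rw [mul_im] at h
  rw [h]
  ring

theorem nq_sq (z : ℂ) : ‖z‖ ^ 2 = z.re ^ 2 + z.im ^ 2 := by
  rw [← normSq_eq_norm_sq, normSq_apply]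
  ring

theorem sY_sq {X Y : ℂ} (hX : X ≠ 0) (s : ℝ) :
    s ^ 2 * ‖Y‖ ^ 2 = ((s * (Y / X).re) ^ 2 + (s * (Y / X).im) ^ 2) * (X.re ^ 2 + X.im ^ 2) := by
  rw [← nq_sq X]
  have e : ‖Y‖ = ‖Y / X‖ * ‖X‖ := by
    rw [← norm_mul, div_mul_cancel₀ Y hX]
  rw [e, mul_pow, nq_sq (Y / X)]
  ring

section

variable (a K j : ℕ)

theorem qcY {X Y : ℂ} (hX : X ≠ 0) : (Y / X) ^ 1 * conj Y =
    (((Y / X).re ^ 2 + (Y / X).im ^ 2 : ℝ) : ℂ) * conj X := by
  have e : conj Y = conj (Y / X) * conj X := by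
    rw [← map_mul, div_mul_cancel₀ Y hX]
  rw [pow_one, e, ← mul_assoc, mul_conj, normSq_apply]
  congr 2
  ring

end

/-- real and imaginary part of `(u + i v)^m`, `m ≤ 2` -/
def reB : ℕ → BP
  | 0 => [[1]]
  | 1 => [[0], [1]]
  | _ => G2L

def imB : ℕ → BP
  | 0 => [[0]]
  | 1 => [[0, 1]]
  | _ => [[], [0, 2]]

theorem reB_ev (m : ℕ) (hm : m ≤ 2) (X : ℂ) :
    ev2 (X.re - 1) X.im (reB m) = ((X - 1) ^ m).re := by
  interval_cases m
  · simp [reB, ev2, ev1]
  · simp [reB, ev2, ev1]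
  · have h : ((X - 1) ^ 2).re = (X.re - 1) ^ 2 - X.im ^ 2 := by
      rw [pow_two (X - 1), mul_re]
      simp
      ring
    simp only [reB, e_G2, h]

theorem imB_ev (m : ℕ) (hm : m ≤ 2) (X : ℂ) :
    ev2 (X.re - 1) X.im (imB m) = ((X - 1) ^ m).im := by
  interval_cases m
  · simp [imB, ev2, ev1]
  · simp [imB, ev2, ev1]
  · have h : ((X - 1) ^ 2).im = 2 * (X.re - 1) * X.im := by
      rw [pow_two (X - 1), mul_im]
      simp
      ring
    simp [imB, ev2, ev1, h]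
    ring

end Pool.Agent.Helper69.EK3

end

section

namespace Pool.EK71
end Pool.EK71
namespace Pool.Agent.Helper52.EK
end Pool.Agent.Helper52.EK
namespace Pool.Agent.Helper2.EK
end Pool.Agent.Helper2.EK
namespace Pool.Agent.Helper71.EK
end Pool.Agent.Helper71.EK

/-!
The pointwise inequality for a direction `α = (1+u)/2`, `|u| = 1`.
-/

set_option autoImplicit false

open Complex

open scoped ComplexConjugate

namespace Pool.Agent.Helper71.EKC

open Pool.EK71 Pool.Agent.Helper52.EK Pool.Agent.Helper2.EK Pool.Agent.Helper71.EK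

lemma Gc_mul (m : ℂ) {s c : ℝ} (h : s ^ 2 + c ^ 2 = 1) :
    ‖Gc m - e0 s c‖ ^ 2 * max 1 (‖m‖ ^ 2) = ‖m - e0 s c‖ ^ 2 := by
  have he := e0_norm h
  rcases le_or_gt (‖m‖ ^ 2) 1 with h1 | h1
  · rw [Gc, max_eq_left h1]; simp
  · have hm : 0 < ‖m‖ ^ 2 := by (clear * - h1; linarith only [h1])
    rw [Gc, max_eq_right h1.le]
    show ‖m / ((‖m‖ ^ 2 : ℝ) : ℂ) - e0 s c‖ ^ 2 * ‖m‖ ^ 2 = ‖m - e0 s c‖ ^ 2
    rw [← Complex.normSq_eq_norm_sq (m / _ - _), ← Complex.normSq_eq_norm_sq (m - _),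
      Complex.normSq_sub, Complex.normSq_sub, Complex.normSq_div, Complex.normSq_ofReal,
      Complex.normSq_eq_norm_sq m, Complex.normSq_eq_norm_sq (e0 s c), he]
    have e1 : (m / ((‖m‖ ^ 2 : ℝ) : ℂ) * (starRingEnd ℂ) (e0 s c)).re =
        (m * (starRingEnd ℂ) (e0 s c)).re / ‖m‖ ^ 2 := by
      rw [div_mul_eq_mul_div, Complex.div_ofReal_re]
    rw [e1]
    have hm0 : ‖m‖ ≠ 0 := by intro h0; rw [h0] at hm; simp at hm
    field_simp
    ring

lemma Gc_le (m : ℂ) {s c E σ : ℝ} (h : s ^ 2 + c ^ 2 = 1) (hσ : 0 ≤ σ) (h1 : σ ≤ E)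
    (h2 : ‖m - e0 s c‖ ^ 2 ≤ E + σ * (‖m‖ ^ 2 - 1)) : ‖Gc m - e0 s c‖ ^ 2 ≤ E := by
  have h3 := Gc_mul m h
  rcases le_or_gt (‖m‖ ^ 2) 1 with h4 | h4
  · rw [max_eq_left h4, mul_one] at h3
    rw [h3]
    have : σ * (‖m‖ ^ 2 - 1) ≤ 0 := mul_nonpos_of_nonneg_of_nonpos hσ (by linarith only [h4])
    (clear * - h2 this; linarith only [h2, this])
  · rw [max_eq_right h4.le] at h3
    have h5 : ‖Gc m - e0 s c‖ ^ 2 * ‖m‖ ^ 2 ≤ E * ‖m‖ ^ 2 := by
      rw [h3]
      have : σ * (‖m‖ ^ 2 - 1) ≤ E * (‖m‖ ^ 2 - 1) :=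
        mul_le_mul_of_nonneg_right h1 (by linarith only [h4])
      linarith only [h2, this]
    exact le_of_mul_le_mul_right h5 (by linarith)

/-- `m` in the direction `α`, in the variable `X = αΞ` (`X` here is `Ξ`) -/
noncomputable def mal (α X Y : ℂ) (s c : ℝ) : ℂ :=
  (1 + e0 s c) * (1 + (2 * conj α * (X - 1) + (2 * conj α - 1) * (Y / X))) - 1

/-- the functional in the direction `α` -/
noncomputable def Tal (α X Y : ℂ) (s c : ℝ) : ℝ := ‖Gc (mal α X Y s c) - e0 s c‖ ^ 2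

lemma mal_sub (α X Y : ℂ) {s c : ℝ} (h : s ^ 2 + c ^ 2 = 1) :
    ‖mal α X Y s c - e0 s c‖ ^ 2 =
      4 * s ^ 2 * ‖2 * conj α * (X - 1) + (2 * conj α - 1) * (Y / X)‖ ^ 2 := by
  have e : mal α X Y s c - e0 s c =
      (1 + e0 s c) * (2 * conj α * (X - 1) + (2 * conj α - 1) * (Y / X)) := by
    rw [mal]; ring
  have e2 : ‖1 + e0 s c‖ ^ 2 = 4 * s ^ 2 := by
    rw [← Complex.normSq_eq_norm_sq, Complex.normSq_apply, e0]
    simp [pow_two]
    (clear * - h; nlinarith only [h])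
  rw [e, norm_mul, mul_pow, e2]

lemma m_sq (v : ℂ) {s c : ℝ} (h : s ^ 2 + c ^ 2 = 1) :
    ‖(1 + e0 s c) * (1 + v) - 1‖ ^ 2 - 1 =
      4 * s ^ 2 * (‖v‖ ^ 2 + v.re) + 4 * s * c * v.im := by
  rw [← Complex.normSq_eq_norm_sq, ← Complex.normSq_eq_norm_sq, Complex.normSq_apply,
    Complex.normSq_apply, e0]
  simp [pow_two]
  generalize v.re = a
  generalize v.im = b
  have : c ^ 2 = 1 - s ^ 2 := by linarith only [h]
  have h4 : c ^ 4 = (1 - s ^ 2) ^ 2 := by rw [← this]; ring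
  ring_nf
  simp only [h4, this]
  ring

/-- the right side of the certificate -/
noncomputable def RHS (C : CD) (X Y : ℂ) (s c : ℝ) : ℝ :=
  (C.kk / C.K : ℝ) * ‖X - 1‖ ^ 2
    + (s ^ 2 * C.fLap X * ‖Y‖ ^ 2 - 2 * (c ^ 2 - s ^ 2) * C.fU X)
    + (s ^ 2 * (potx C C.W X * Y.re + poty C C.W X * Y.im)
      + 2 * s * c * (potx C C.T X * Y.re + poty C C.T X * Y.im))
    + (s ^ 2 * (-potx C C.V X * Y.im + poty C C.V X * Y.re) + 2 * s * c * pot C C.V X)
    + (2 * s * c * (-potx C C.Z X * Y.im + poty C C.Z X * Y.re)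
      + 2 * (c ^ 2 - s ^ 2) * pot C C.Z X)

lemma RHS_eq (C : CD) (X Y : ℂ) (s c : ℝ) :
    RHS C X Y s c = (C.pt X.re X.im).EE Y.re Y.im s c := by
  have hY : ‖Y‖ ^ 2 = Y.re ^ 2 + Y.im ^ 2 := by
    rw [← Complex.normSq_eq_norm_sq, Complex.normSq_apply]; ring
  have hL : C.fLap X = (C.pt X.re X.im).n4 / ((C.pt X.re X.im).E * (C.pt X.re X.im).D ^ 2) := by
    show _ = ev2 X.re X.im C.N4L / C.K / (Da C.a X.re X.im ^ C.k * Da C.a X.re X.im ^ 2)
    rw [CD.fLap, pow_add]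
  rw [RHS, hY, hL, fU_eq, ← Fp_eq]
  rfl

/-- the checks of condition 1 -/
def ok1 (C : CD) (D : Dat) (T : Cov) : Bool :=
  rp D.N C.m11L D.P11 && rp D.N C.m12L D.P12 && rp D.N C.m22L D.P22 && rp D.N' C.q1L D.Q && T.ok D

/-- the checks of condition 2 at the vertex `(p/L, r/L)` -/
def ok2 (C : CD) (p r L : ℤ) (D : Dat) (T : Cov) : Bool :=
  rp D.N (C.M11L p r L) D.P11 && rp D.N (C.M12L p r L) D.P12 && rp D.N (C.M22L p r L) D.P22 &&
    rp D.N' C.q2L D.Q && T.ok D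

/-- nonnegativity of `S` -/
def okS (C : CD) (D : Dat) (T : Cov) : Bool := rp D.N C.S D.P11 && T.ok D

lemma pos_1 {C : CD} (hK : 0 < C.K) {D : Dat} {T : Cov} (h : ok1 C D T = true) (x y : ℝ) :
    0 < (C.pt x y).n4 ∧ 0 ≤ (C.pt x y).m11 ∧ 0 ≤ (C.pt x y).m22 ∧
      (C.pt x y).m12 ^ 2 ≤ (C.pt x y).m11 * (C.pt x y).m22 := by
  simp only [ok1, Bool.and_eq_true] at h
  obtain ⟨⟨⟨⟨h1, h2⟩, h3⟩, h4⟩, h5⟩ := h
  obtain ⟨g1, g2, g3, g4⟩ := Cov.sound h5 x y
  rw [rp_sound h1, CD.v_m11 x y hK] at g1 g3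
  rw [rp_sound h3, CD.v_m22 x y hK] at g2 g3
  rw [rp_sound h2, CD.v_m12 x y hK] at g3
  rw [rp_sound h4, CD.q1L, e_sb, CD.v_n4 x y hK, e_c] at g4
  have hK' : (0 : ℝ) < C.K := by exact_mod_cast hK
  have hK2 : (0 : ℝ) < 4 * C.K ^ 2 := by (clear * - hK; positivity)
  refine ⟨?_, ?_, ?_, ?_⟩
  · have : 0 < (C.K : ℝ) * (C.pt x y).n4 := by push_cast at g4; linarith only [g4]
    exact pos_of_mul_pos_right this hK'.le
  · exact nonneg_of_mul_nonneg_right g1 hK2
  · exact nonneg_of_mul_nonneg_right g2 hK2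
  · have e1 : (4 * (C.K : ℝ) ^ 2 * (C.pt x y).m12) ^ 2 =
        (4 * C.K ^ 2) ^ 2 * (C.pt x y).m12 ^ 2 := by ring
    have e2 : 4 * (C.K : ℝ) ^ 2 * (C.pt x y).m11 * (4 * C.K ^ 2 * (C.pt x y).m22) =
        (4 * C.K ^ 2) ^ 2 * ((C.pt x y).m11 * (C.pt x y).m22) := by ring
    rw [e1, e2] at g3
    exact le_of_mul_le_mul_left g3 (by positivity)

lemma pos_2 {C : CD} (hK : 0 < C.K) {p r L : ℤ} (hL : 0 < L) {D : Dat} {T : Cov}
    (h : ok2 C p r L D T = true) (x y : ℝ) :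
    0 < (C.pt x y).N2 ∧ 0 ≤ (C.pt x y).M11 (p / L) (r / L) ∧
      0 ≤ (C.pt x y).M22 (p / L) (r / L) ∧
      (C.pt x y).M12 (p / L) (r / L) ^ 2 ≤
        (C.pt x y).M11 (p / L) (r / L) * (C.pt x y).M22 (p / L) (r / L) := by
  simp only [ok2, Bool.and_eq_true] at h
  obtain ⟨⟨⟨⟨h1, h2⟩, h3⟩, h4⟩, h5⟩ := h
  obtain ⟨g1, g2, g3, g4⟩ := Cov.sound h5 x y
  rw [rp_sound h1, CD.v_M11 x y hK hL] at g1 g3
  rw [rp_sound h3, CD.v_M22 x y hK hL] at g2 g3
  rw [rp_sound h2, CD.v_M12 x y hK hL] at g3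
  rw [rp_sound h4, CD.q2L, e_sb, CD.v_N2 x y hK, e_c] at g4
  have hK' : (0 : ℝ) < C.K := by exact_mod_cast hK
  have hL' : (0 : ℝ) < L := by exact_mod_cast hL
  have hK2 : (0 : ℝ) < (C.K * L) ^ 2 := by (clear * - hK hL; positivity)
  refine ⟨?_, ?_, ?_, ?_⟩
  · have : 0 < (C.K : ℝ) * (C.pt x y).N2 := by push_cast at g4; linarith only [g4]
    exact pos_of_mul_pos_right this hK'.le
  · exact nonneg_of_mul_nonneg_right g1 hK2
  · exact nonneg_of_mul_nonneg_right g2 hK2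
  · set a := (C.pt x y).M11 (p / L) (r / L)
    set b := (C.pt x y).M12 (p / L) (r / L)
    set d := (C.pt x y).M22 (p / L) (r / L)
    have e1 : (((C.K : ℝ) * L) ^ 2 * b) ^ 2 = ((C.K * L) ^ 2) ^ 2 * b ^ 2 := by ring
    have e2 : ((C.K : ℝ) * L) ^ 2 * a * ((C.K * L) ^ 2 * d) =
        ((C.K * L) ^ 2) ^ 2 * (a * d) := by ring
    rw [e1, e2] at g3
    exact le_of_mul_le_mul_left g3 (by (clear * - hK hL; positivity))

end Pool.Agent.Helper71.EKC

end

section

namespace Pool.EK71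
end Pool.EK71
namespace Pool.Agent.Helper52.EK
end Pool.Agent.Helper52.EK
namespace Pool.Agent.Helper2.EK
end Pool.Agent.Helper2.EK
namespace Pool.Agent.Helper71.EK
end Pool.Agent.Helper71.EK
namespace Pool.Agent.Helper68.EKC
end Pool.Agent.Helper68.EKC

/-!
Certificates at the vertices of a polygon: the potentials and `κ₂` are affine functions of the
direction `α = (1+u)/2`, the weight `σ` is fixed.
-/

set_option autoImplicit false

open Complex

open scoped ComplexConjugate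

namespace Pool.Agent.Helper71.EKC

open Pool.EK71 Pool.Agent.Helper52.EK Pool.Agent.Helper2.EK Pool.Agent.Helper71.EK

open Pool.Agent.Helper68.EKC (Gu Gu_lip)

/-- the potentials of a certificate -/
structure Fns where
  k2 : ℝ
  U : ℂ → ℝ
  Ux : ℂ → ℝ
  Uy : ℂ → ℝ
  L : ℂ → ℝ
  V : ℂ → ℝ
  Vx : ℂ → ℝ
  Vy : ℂ → ℝ
  Z : ℂ → ℝ
  Zx : ℂ → ℝ
  Zy : ℂ → ℝ
  W : ℂ → ℝ
  Wx : ℂ → ℝ
  Wy : ℂ → ℝ
  T : ℂ → ℝ
  Tx : ℂ → ℝ
  Ty : ℂ → ℝ

structure Fns.Good (F : Fns) : Prop where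
  hU : C2f F.U F.Ux F.Uy F.L
  hV : C1f F.V F.Vx F.Vy
  hZ : C1f F.Z F.Zx F.Zy
  hW : C1f F.W F.Wx F.Wy
  hT : C1f F.T F.Tx F.Ty
  bd : ∃ C : ℝ, ∀ X, |F.U X| ≤ C * ‖X - 1‖ ^ 2 ∧ |F.W X| ≤ C * ‖X - 1‖ ^ 2 ∧
    |F.T X| ≤ C * ‖X - 1‖ ^ 2

/-- the right side of the certificate -/
noncomputable def Fns.R (F : Fns) (X Y : ℂ) (s c : ℝ) : ℝ :=
  F.k2 * ‖X - 1‖ ^ 2 + (s ^ 2 * F.L X * ‖Y‖ ^ 2 - 2 * (c ^ 2 - s ^ 2) * F.U X)
    + (s ^ 2 * (F.Wx X * Y.re + F.Wy X * Y.im) + 2 * s * c * (F.Tx X * Y.re + F.Ty X * Y.im))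
    + (s ^ 2 * (-F.Vx X * Y.im + F.Vy X * Y.re) + 2 * s * c * F.V X)
    + (2 * s * c * (-F.Zx X * Y.im + F.Zy X * Y.re) + 2 * (c ^ 2 - s ^ 2) * F.Z X)

/-- `|v|²`, with `|α|²` replaced by `Re α` -/
noncomputable def wv (a b : ℝ) (X q : ℂ) : ℝ :=
  4 * a * ((X.re - 1) ^ 2 + X.im ^ 2) + 4 * ((a * (X.re - 1) - b * X.im) * q.re
    + (a * X.im + b * (X.re - 1)) * q.im) + (q.re ^ 2 + q.im ^ 2)

noncomputable def w1 (a b : ℝ) (X q : ℂ) : ℝ :=
  2 * (a * (X.re - 1) + b * X.im) + (2 * a - 1) * q.re + 2 * b * q.im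

noncomputable def w2 (a b : ℝ) (X q : ℂ) : ℝ :=
  2 * (a * X.im - b * (X.re - 1)) + (2 * a - 1) * q.im - 2 * b * q.re

noncomputable def QQ (σ a b : ℝ) (X q : ℂ) (s c : ℝ) : ℝ :=
  σ * (4 * s ^ 2 * (wv a b X q + w1 a b X q) + 4 * s * c * w2 a b X q) - 4 * s ^ 2 * wv a b X q

/-- a certificate at the vertex `a + b i` with the weight `σ` -/
structure Vert (σ : ℂ → ℝ) (a b : ℝ) (F : Fns) : Prop where
  good : F.Good
  nn : ∀ X, 0 ≤ σ X
  c1 : ∀ (X Y : ℂ) (s c : ℝ), s ^ 2 + c ^ 2 = 1 → σ X ≤ F.R X Y s c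
  c2 : ∀ (X q : ℂ) (s c : ℝ), s ^ 2 + c ^ 2 = 1 →
    0 ≤ F.R X (X * q) s c + QQ (σ X) a b X q s c

theorem Vert.le {σ : ℂ → ℝ} {α : ℂ} {F : Fns} (h : Vert σ α.re α.im F) (hc : ‖2 * α - 1‖ = 1)
    {X : ℂ} (hX : X ≠ 0) (Y : ℂ) {s c : ℝ} (hs : s ^ 2 + c ^ 2 = 1) :
    Tal α X Y s c ≤ F.R X Y s c := by
  refine Gc_le _ hs (h.nn X) (h.c1 X Y s c hs) ?_
  rw [mal_sub α X Y hs]
  obtain ⟨q, hq⟩ : ∃ q : ℂ, q = Y / X := ⟨_, rfl⟩
  obtain ⟨v, hv⟩ : ∃ v : ℂ, v = 2 * conj α * (X - 1) + (2 * conj α - 1) * q := ⟨_, rfl⟩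
  have hm : ‖mal α X Y s c‖ ^ 2 - 1 = 4 * s ^ 2 * (‖v‖ ^ 2 + v.re) + 4 * s * c * v.im := by
    rw [mal, ← hq, ← hv, m_sq v hs]
  rw [hm, ← hq, ← hv]
  have hcirc : α.re ^ 2 + α.im ^ 2 = α.re := by
    have h1 : ‖2 * α - 1‖ ^ 2 = 1 := by rw [hc]; norm_num
    rw [← Complex.normSq_eq_norm_sq, Complex.normSq_apply] at h1
    simp at h1
    linarith only [h1]
  have e1 : v.re = w1 α.re α.im X q := by
    rw [hv, w1]
    simp
    ring
  have e2 : v.im = w2 α.re α.im X q := by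
    rw [hv, w2]
    simp
    ring
  have e3 : ‖v‖ ^ 2 = wv α.re α.im X q := by
    have : ‖v‖ ^ 2 = w1 α.re α.im X q ^ 2 + w2 α.re α.im X q ^ 2 := by
      rw [← Complex.normSq_eq_norm_sq, Complex.normSq_apply, e1, e2]; ring
    rw [this, w1, w2, wv]
    linear_combination (4 * ((X.re - 1) ^ 2 + X.im ^ 2)
      + 8 * ((X.re - 1) * q.re + X.im * q.im) + 4 * (q.re ^ 2 + q.im ^ 2)) * hcirc
  have eY : Y = X * q := by rw [hq]; (clear * - hX; field_simp)
  have h2 := h.c2 X q s c hs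
  rw [← eY, QQ] at h2
  rw [e3, e1, e2]
  (clear * - h2; linarith only [h2])

lemma c1_comb {A Ax Ay B Bx By : ℂ → ℝ} (hA : C1f A Ax Ay) (hB : C1f B Bx By) (l m : ℝ) :
    C1f (fun X => l * A X + m * B X) (fun X => l * Ax X + m * Bx X)
      (fun X => l * Ay X + m * By X) := by
  refine c1_congr (c1_add (c1_mul (c1_const l) hA) (c1_mul (c1_const m) hB)) ?_ ?_ ?_ <;>
    intro X <;> ring

lemma c2_comb {A Ax Ay LA B Bx By LB : ℂ → ℝ} (hA : C2f A Ax Ay LA) (hB : C2f B Bx By LB)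
    (l m : ℝ) : C2f (fun X => l * A X + m * B X) (fun X => l * Ax X + m * Bx X)
      (fun X => l * Ay X + m * By X) (fun X => l * LA X + m * LB X) := by
  obtain ⟨h1, a1, a2, a3, a4, a5, a6⟩ := hA
  obtain ⟨g1, b1, b2, b3, b4, b5, b6⟩ := hB
  refine ⟨c1_comb h1 g1 l m, _, _, _, c1_comb a4 b4 l m, c1_comb a5 b5 l m, fun X => ?_⟩
  rw [a6, b6]; ring

/-- linear combination of potentials -/
noncomputable def Fns.comb (F G : Fns) (l m : ℝ) : Fns where
  k2 := l * F.k2 + m * G.k2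
  U := fun X => l * F.U X + m * G.U X
  Ux := fun X => l * F.Ux X + m * G.Ux X
  Uy := fun X => l * F.Uy X + m * G.Uy X
  L := fun X => l * F.L X + m * G.L X
  V := fun X => l * F.V X + m * G.V X
  Vx := fun X => l * F.Vx X + m * G.Vx X
  Vy := fun X => l * F.Vy X + m * G.Vy X
  Z := fun X => l * F.Z X + m * G.Z X
  Zx := fun X => l * F.Zx X + m * G.Zx X
  Zy := fun X => l * F.Zy X + m * G.Zy X
  W := fun X => l * F.W X + m * G.W X
  Wx := fun X => l * F.Wx X + m * G.Wx X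
  Wy := fun X => l * F.Wy X + m * G.Wy X
  T := fun X => l * F.T X + m * G.T X
  Tx := fun X => l * F.Tx X + m * G.Tx X
  Ty := fun X => l * F.Ty X + m * G.Ty X

lemma Fns.R_comb (F G : Fns) (l m : ℝ) (X Y : ℂ) (s c : ℝ) :
    (F.comb G l m).R X Y s c = l * F.R X Y s c + m * G.R X Y s c := by
  unfold Fns.R Fns.comb
  ring

lemma bd_comb {a b C D n l m : ℝ} (hl : 0 ≤ l) (hm : 0 ≤ m) (ha : |a| ≤ C * n)
    (hb : |b| ≤ D * n) : |l * a + m * b| ≤ (l * C + m * D) * n := by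
  calc |l * a + m * b| ≤ |l * a| + |m * b| := abs_add_le _ _
    _ = l * |a| + m * |b| := by rw [abs_mul, abs_mul, abs_of_nonneg hl, abs_of_nonneg hm]
    _ ≤ l * (C * n) + m * (D * n) :=
      add_le_add (mul_le_mul_of_nonneg_left ha hl) (mul_le_mul_of_nonneg_left hb hm)
    _ = _ := by ring

lemma Fns.Good.comb {F G : Fns} (hF : F.Good) (hG : G.Good) {l m : ℝ} (hl : 0 ≤ l)
    (hm : 0 ≤ m) : (F.comb G l m).Good := by
  refine ⟨c2_comb hF.hU hG.hU l m, c1_comb hF.hV hG.hV l m, c1_comb hF.hZ hG.hZ l m,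
    c1_comb hF.hW hG.hW l m, c1_comb hF.hT hG.hT l m, ?_⟩
  obtain ⟨C, hC⟩ := hF.bd
  obtain ⟨D, hD⟩ := hG.bd
  refine ⟨l * C + m * D, fun X => ⟨?_, ?_, ?_⟩⟩
  · exact bd_comb hl hm (hC X).1 (hD X).1
  · exact bd_comb hl hm (hC X).2.1 (hD X).2.1
  · exact bd_comb hl hm (hC X).2.2 (hD X).2.2

lemma QQ_comb (σ a b a' b' : ℝ) (X q : ℂ) (s c : ℝ) {l m : ℝ} (hlm : l + m = 1) :
    QQ σ (l * a + m * a') (l * b + m * b') X q s c =
      l * QQ σ a b X q s c + m * QQ σ a' b' X q s c := by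
  have e : m = 1 - l := by linarith only [hlm]
  subst e
  unfold QQ wv w1 w2
  ring

theorem Vert.comb {σ : ℂ → ℝ} {a b a' b' : ℝ} {F G : Fns} (hF : Vert σ a b F)
    (hG : Vert σ a' b' G) {l m : ℝ} (hl : 0 ≤ l) (hm : 0 ≤ m) (hlm : l + m = 1) :
    Vert σ (l * a + m * a') (l * b + m * b') (F.comb G l m) := by
  refine ⟨hF.good.comb hG.good hl hm, hF.nn, fun X Y s c h => ?_, fun X q s c h => ?_⟩
  · rw [Fns.R_comb]
    have h1 := mul_le_mul_of_nonneg_left (hF.c1 X Y s c h) hl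
    have h2 := mul_le_mul_of_nonneg_left (hG.c1 X Y s c h) hm
    have e : σ X = l * σ X + m * σ X := by rw [← add_mul, hlm, one_mul]
    linarith only [h1, h2, e]
  · rw [Fns.R_comb, QQ_comb _ _ _ _ _ _ _ _ _ hlm]
    have h1 := mul_nonneg hl (hF.c2 X q s c h)
    have h2 := mul_nonneg hm (hG.c2 X q s c h)
    (clear * - h1 h2; linarith)

lemma c1_conj {A Ax Ay : ℂ → ℝ} (hA : C1f A Ax Ay) :
    C1f (fun X => A (conj X)) (fun X => Ax (conj X)) (fun X => -Ay (conj X)) := by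
  refine ⟨fun X => ?_, hA.cx.comp continuous_conj, (hA.cy.comp continuous_conj).neg⟩
  have h1 := hA.hd (conj X)
  have h2 : HasFDerivAt (fun X : ℂ => conj X) (Complex.conjCLE : ℂ →L[ℝ] ℂ) X :=
    Complex.conjCLE.hasFDerivAt
  have h3 := h1.comp X h2
  refine h3.congr_fderiv ?_
  ext z
  simp

lemma c2_conj {A Ax Ay LA : ℂ → ℝ} (hA : C2f A Ax Ay LA) :
    C2f (fun X => A (conj X)) (fun X => Ax (conj X)) (fun X => -Ay (conj X))
      (fun X => LA (conj X)) := by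
  obtain ⟨h1, Axx, Axy, Ayy, h2, h3, h4⟩ := hA
  refine ⟨c1_conj h1, fun X => Axx (conj X), fun X => -Axy (conj X), fun X => Ayy (conj X),
    c1_conj h2, ?_, fun X => h4 _⟩
  refine c1_congr (c1_mul (c1_const (-1)) (c1_conj h3)) ?_ ?_ ?_ <;> intro X <;> ring

/-- reflection of the potentials -/
noncomputable def Fns.refl (F : Fns) : Fns where
  k2 := F.k2
  U := fun X => F.U (conj X)
  Ux := fun X => F.Ux (conj X)
  Uy := fun X => -F.Uy (conj X)
  L := fun X => F.L (conj X)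
  V := fun X => -F.V (conj X)
  Vx := fun X => -F.Vx (conj X)
  Vy := fun X => F.Vy (conj X)
  Z := fun X => F.Z (conj X)
  Zx := fun X => F.Zx (conj X)
  Zy := fun X => -F.Zy (conj X)
  W := fun X => F.W (conj X)
  Wx := fun X => F.Wx (conj X)
  Wy := fun X => -F.Wy (conj X)
  T := fun X => -F.T (conj X)
  Tx := fun X => -F.Tx (conj X)
  Ty := fun X => F.Ty (conj X)

lemma norm_conj_sub (X : ℂ) : ‖conj X - 1‖ = ‖X - 1‖ := by
  have : conj X - 1 = conj (X - 1) := by simp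
  rw [this, RCLike.norm_conj]

lemma Fns.R_refl (F : Fns) (X Y : ℂ) (s c : ℝ) :
    F.refl.R X Y s c = F.R (conj X) (conj Y) (-s) c := by
  unfold Fns.R Fns.refl
  rw [norm_conj_sub, RCLike.norm_conj]
  simp only [Complex.conj_re, Complex.conj_im]
  ring

lemma Fns.Good.refl {F : Fns} (hF : F.Good) : F.refl.Good := by
  refine ⟨c2_conj hF.hU, ?_, c1_conj hF.hZ, c1_conj hF.hW, ?_, ?_⟩
  · refine c1_congr (c1_mul (c1_const (-1)) (c1_conj hF.hV)) ?_ ?_ ?_ <;> intro X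
    · show -F.V (conj X) = _; ring
    · show -F.Vx (conj X) = _; ring
    · show F.Vy (conj X) = _; ring
  · refine c1_congr (c1_mul (c1_const (-1)) (c1_conj hF.hT)) ?_ ?_ ?_ <;> intro X
    · show -F.T (conj X) = _; ring
    · show -F.Tx (conj X) = _; ring
    · show F.Ty (conj X) = _; ring
  · obtain ⟨C, hC⟩ := hF.bd
    refine ⟨C, fun X => ?_⟩
    have := hC (conj X)
    rw [norm_conj_sub] at this
    refine ⟨this.1, this.2.1, ?_⟩
    show |-F.T (conj X)| ≤ _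
    rw [abs_neg]
    exact this.2.2

lemma QQ_refl (σ a b : ℝ) (X q : ℂ) (s c : ℝ) :
    QQ σ a (-b) X q s c = QQ σ a b (conj X) (conj q) (-s) c := by
  unfold QQ wv w1 w2
  simp only [Complex.conj_re, Complex.conj_im]
  ring

theorem Vert.refl {σ : ℂ → ℝ} (hσ : ∀ X, σ (conj X) = σ X) {a b : ℝ} {F : Fns}
    (hF : Vert σ a b F) : Vert σ a (-b) F.refl := by
  refine ⟨hF.good.refl, hF.nn, fun X Y s c h => ?_, fun X q s c h => ?_⟩
  · rw [Fns.R_refl, ← hσ]
    exact hF.c1 _ _ _ _ (by rw [neg_sq]; exact h)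
  · rw [Fns.R_refl, QQ_refl, ← hσ, map_mul]
    exact hF.c2 _ _ _ _ (by rw [neg_sq]; exact h)

/-- there is a certificate for `(a, b, k)` -/
def VS (σ : ℂ → ℝ) (a b k : ℝ) : Prop := ∃ F : Fns, F.k2 = k ∧ Vert σ a b F

theorem VS.refl {σ : ℂ → ℝ} (hσ : ∀ X, σ (conj X) = σ X) {a b k : ℝ} (h : VS σ a b k) :
    VS σ a (-b) k := by
  obtain ⟨F, h1, h2⟩ := h
  exact ⟨F.refl, h1, h2.refl hσ⟩

theorem VS.comb {σ : ℂ → ℝ} {a b k a' b' k' : ℝ} (h : VS σ a b k) (h' : VS σ a' b' k')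
    {l m : ℝ} (hl : 0 ≤ l) (hm : 0 ≤ m) (hlm : l + m = 1) :
    VS σ (l * a + m * a') (l * b + m * b') (l * k + m * k') := by
  obtain ⟨F, rfl, hF⟩ := h
  obtain ⟨G, rfl, hG⟩ := h'
  exact ⟨_, rfl, hF.comb hG hl hm hlm⟩

theorem VS.tri {σ : ℂ → ℝ} {a₁ b₁ k₁ a₂ b₂ k₂ a₃ b₃ k₃ : ℝ} (h₁ : VS σ a₁ b₁ k₁)
    (h₂ : VS σ a₂ b₂ k₂) (h₃ : VS σ a₃ b₃ k₃) {l₁ l₂ l₃ : ℝ} (p₁ : 0 ≤ l₁) (p₂ : 0 ≤ l₂)
    (p₃ : 0 ≤ l₃) (hs : l₁ + l₂ + l₃ = 1) :
    VS σ (l₁ * a₁ + l₂ * a₂ + l₃ * a₃) (l₁ * b₁ + l₂ * b₂ + l₃ * b₃)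
      (l₁ * k₁ + l₂ * k₂ + l₃ * k₃) := by
  rcases eq_or_lt_of_le (add_nonneg p₁ p₂) with h | h
  · have e1 : l₁ = 0 := by (clear * - p₁ p₂ h; linarith only [p₁, p₂, h])
    have e2 : l₂ = 0 := by (clear * - p₂ p₁ h; linarith)
    have e3 : l₃ = 1 := by (clear * - hs h p₁ p₂; linarith)
    rw [e1, e2, e3]
    simpa using h₃
  · have h4 := h₁.comb h₂ (l := l₁ / (l₁ + l₂)) (m := l₂ / (l₁ + l₂)) (by (clear * - p₁ h; positivity))
      (by (clear * - p₂ h; positivity)) (by (clear * - h; field_simp))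
    have h5 := h4.comb h₃ h.le p₃ hs
    have e : ∀ x y z : ℝ, (l₁ + l₂) * (l₁ / (l₁ + l₂) * x + l₂ / (l₁ + l₂) * y) + l₃ * z =
        l₁ * x + l₂ * y + l₃ * z := by
      intro x y z
      (clear * - h; field_simp)
    rw [e, e, e] at h5
    exact h5

theorem Tal_eq {u : ℂ} (hu : ‖u‖ = 1) (h1 : 1 + u ≠ 0) (X Y : ℂ) (s c : ℝ) :
    TG (Gu u) ((1 + u) / 2 * X) ((1 + u) / 2 * Y) s c = Tal ((1 + u) / 2) X Y s c := by
  have hal : (1 + u) / 2 ≠ 0 := div_ne_zero h1 two_ne_zero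
  have hcu : conj u * u = 1 := by
    rw [mul_comm, Complex.mul_conj, Complex.normSq_eq_norm_sq, hu]; simp
  have e1 : (1 + u) / 2 * Y / ((1 + u) / 2 * X) = Y / X := mul_div_mul_left _ _ hal
  have e2 : conj u * (mX ((1 + u) / 2 * X) ((1 + u) / 2 * Y) s c + 1) - 1 =
      mal ((1 + u) / 2) X Y s c := by
    rw [mX, mal, e1]
    simp only [map_div₀, map_add, map_one, Complex.conj_ofNat]
    linear_combination ((1 + e0 s c) * X) * hcu
  rw [TG, Tal, Gu, e2]

theorem cont_T {u : ℂ} (hu : ‖u‖ = 1) (h1 : 1 + u ≠ 0) :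
    ContinuousOn (fun p : ℂ × ℂ × ℝ × ℝ => TG (Gu u) ((1 + u) / 2 * p.1) ((1 + u) / 2 * p.2.1)
      p.2.2.1 p.2.2.2) {p | p.1 ≠ 0} := by
  have hal : (1 + u) / 2 ≠ 0 := div_ne_zero h1 two_ne_zero
  have hG : Continuous (Gu u) := Pool.Agent.Helper44.EK.GLip.continuous (Gu_lip hu)
  have c0 : ContinuousOn (fun p : ℂ × ℂ × ℝ × ℝ => (1 + u) / 2 * p.1) {p | p.1 ≠ 0} := by
    fun_prop
  have c1 : ContinuousOn (fun p : ℂ × ℂ × ℝ × ℝ => (1 + u) / 2 * p.2.1) {p | p.1 ≠ 0} := by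
    fun_prop
  have c2 : ContinuousOn (fun p : ℂ × ℂ × ℝ × ℝ => e0 p.2.2.1 p.2.2.2) {p | p.1 ≠ 0} := by
    unfold e0; fun_prop
  have c3 : ContinuousOn (fun p : ℂ × ℂ × ℝ × ℝ =>
      mX ((1 + u) / 2 * p.1) ((1 + u) / 2 * p.2.1) p.2.2.1 p.2.2.2) {p | p.1 ≠ 0} := by
    unfold mX
    refine ((continuousOn_const.add c2).mul ?_).sub continuousOn_const
    refine (((continuousOn_const.mul c0).sub continuousOn_const)).add (c1.div c0 ?_)
    intro p hp
    exact mul_ne_zero hal hp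
  exact ((hG.comp_continuousOn c3).sub c2).norm.pow 2

/-- from a certificate to helper68's strip inequality -/
theorem VS.strip {σ : ℂ → ℝ} {u : ℂ} (hu : ‖u‖ = 1) (h1 : 1 + u ≠ 0) {k : ℝ} (hk : 0 ≤ k)
    (h : VS σ ((1 + u) / 2).re ((1 + u) / 2).im k) :
    StripIneq k (fun X Y s c => TG (Gu u) ((1 + u) / 2 * X) ((1 + u) / 2 * Y) s c) := by
  obtain ⟨F, rfl, hF⟩ := h
  obtain ⟨C, hC⟩ := hF.good.bd
  refine Pool.Agent.Helper44.EK.strip_gen hk (fun X Y s c => sq_nonneg _) (cont_T hu h1)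
    hF.good.hU hF.good.hV hF.good.hZ hF.good.hW hF.good.hT (fun X => (hC X).1)
    (fun X => (hC X).2.1) (fun X => (hC X).2.2) ?_
  intro X Y hX s c hs
  show TG (Gu u) ((1 + u) / 2 * X) ((1 + u) / 2 * Y) s c ≤ _
  rw [Tal_eq hu h1]
  have hc : ‖2 * ((1 + u) / 2) - 1‖ = 1 := by
    have : 2 * ((1 + u) / 2) - 1 = u := by ring
    rw [this, hu]
  exact hF.le hc hX Y hs

end Pool.Agent.Helper71.EKC

end
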