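import Pool.Agent.Helper14.CMF.T03
import Pool.Agent.Helper14.CMF.T10
import Pool.Agent.Helper14.CMF.T07

set_option linter.all false

section

namespace Pool.Agent.Helper52.EK
end Pool.Agent.Helper52.EK

set_option autoImplicit false

open Complex MeasureTheory Metric Set

open scoped Real ComplexConjugate

namespace Pool.Agent.Helper73.EK

open Pool.Agent.Helper52.EK

variable {ρ : ℝ → ℝ}

theorem continuous_Pk_one (z : ℂ) (hz : ‖z‖ < 1) :
    Continuous fun α : ℝ => Pk (Complex.exp (α * I)) z := by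
  unfold Pk
  refine Continuous.div (by fun_prop) (by fun_prop) fun α => ?_
  have h2 := sub_ne_zero_of (norm_cis α) hz
  (clear * - h2; positivity)

theorem two_pi_pos' : (0:ℝ) < 2 * π := by (clear * -; positivity)

theorem uu_pos (h : Dens ρ) {t : ℝ} (ht : t < 0) (θ : ℝ) : 0 < uu ρ t θ := by
  unfold uu
  have h1 : 0 < ∫ α in (0:ℝ)..(2 * π), Pk (Complex.exp (α * I)) (ep t θ) * ρ α := by
    refine intervalIntegral.intervalIntegral_pos_of_pos ?_ (fun α => ?_) two_pi_pos'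
    · exact ((continuous_Pk_one _ (norm_ep_lt ht θ)).mul h.cont).intervalIntegrable _ _
    · exact mul_pos (Pk_pos (norm_cis α) (norm_ep_lt ht θ)) (h.pos α)
  exact mul_pos (inv_pos.2 two_pi_pos') h1

theorem continuous_uu (h : Dens ρ) {t : ℝ} (ht : t < 0) : Continuous (uu ρ t) := by
  unfold uu
  refine continuous_const.mul ?_
  refine intervalIntegral.continuous_parametric_intervalIntegral_of_continuous' ?_ _ _
  have h1 : Continuous fun q : ℝ × ℝ => (q.2, q.1) := by fun_prop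
  exact ((continuous_Pk ht).comp h1).mul (h.cont.comp continuous_snd)

/-- The tangent line of `x log x`. -/
theorem tangent {u x : ℝ} (hu : 0 < u) (hx : 0 < x) :
    u * Real.log u + (1 + Real.log u) * (x - u) ≤ x * Real.log x := by
  have h1 : Real.log (u / x) ≤ u / x - 1 := Real.log_le_sub_one_of_pos (div_pos hu hx)
  rw [Real.log_div hu.ne' hx.ne'] at h1
  have h2 : x * (Real.log u - Real.log x) ≤ x * (u / x - 1) :=
    mul_le_mul_of_nonneg_left h1 hx.le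
  have h3 : x * (u / x - 1) = u - x := by (clear * - hx; field_simp)
  rw [h3] at h2
  linarith only [h2]

theorem uu_log_le (h : Dens ρ) {t : ℝ} (ht : t < 0) (θ : ℝ) :
    uu ρ t θ * Real.log (uu ρ t θ) ≤ (2 * π)⁻¹ * ∫ α in (0:ℝ)..(2 * π),
      Pk (Complex.exp (α * I)) (ep t θ) * (ρ α * Real.log (ρ α)) := by
  have hu := uu_pos h ht θ
  have hz := norm_ep_lt ht θ
  have cP := continuous_Pk_one _ hz
  have cR : Continuous fun α => ρ α * Real.log (ρ α) :=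
    h.cont.mul (h.cont.log fun α => (h.pos α).ne')
  set u := uu ρ t θ with hudef
  have h1 : ∫ α in (0:ℝ)..(2 * π), Pk (Complex.exp (α * I)) (ep t θ) *
      (u * Real.log u + (1 + Real.log u) * (ρ α - u)) ≤
      ∫ α in (0:ℝ)..(2 * π), Pk (Complex.exp (α * I)) (ep t θ) * (ρ α * Real.log (ρ α)) := by
    refine intervalIntegral.integral_mono_on two_pi_pos'.le ?_ ?_ fun α _ => ?_
    · refine Continuous.intervalIntegrable ?_ _ _
      exact cP.mul (continuous_const.add (continuous_const.mul (h.cont.sub continuous_const)))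
    · exact (cP.mul cR).intervalIntegrable _ _
    · exact mul_le_mul_of_nonneg_left (tangent hu (h.pos α)) (Pk_pos (norm_cis α) hz).le
  have h2 : ∫ α in (0:ℝ)..(2 * π), Pk (Complex.exp (α * I)) (ep t θ) *
      (u * Real.log u + (1 + Real.log u) * (ρ α - u)) = (2 * π) * (u * Real.log u) := by
    have e1 : ∀ α : ℝ, Pk (Complex.exp (α * I)) (ep t θ) *
        (u * Real.log u + (1 + Real.log u) * (ρ α - u)) =
        (u * Real.log u - (1 + Real.log u) * u) * Pk (Complex.exp (α * I)) (ep t θ) +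
          (1 + Real.log u) * (Pk (Complex.exp (α * I)) (ep t θ) * ρ α) := fun α => by ring
    simp_rw [e1]
    rw [intervalIntegral.integral_add, intervalIntegral.integral_const_mul,
      intervalIntegral.integral_const_mul, integral_Pk hz]
    · have e2 : ∫ α in (0:ℝ)..(2 * π), Pk (Complex.exp (α * I)) (ep t θ) * ρ α =
          2 * π * u := by
        rw [hudef]
        unfold uu
        rw [← mul_assoc, mul_inv_cancel₀ two_pi_pos'.ne', one_mul]
      rw [e2]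
      ring
    · exact (continuous_const.mul cP).intervalIntegrable _ _
    · exact (continuous_const.mul (cP.mul h.cont)).intervalIntegrable _ _
  rw [h2] at h1
  have h3 := mul_le_mul_of_nonneg_left h1 (inv_pos.2 two_pi_pos').le
  rwa [← mul_assoc, inv_mul_cancel₀ two_pi_pos'.ne', one_mul] at h3

/-- E2d (Jensen) -/
theorem E2d (h : Dens ρ) {t : ℝ} (ht : t < 0) :
    AA ρ t ≤ (2 * π)⁻¹ * ∫ α in (0:ℝ)..(2 * π), ρ α * Real.log (ρ α) := by
  have cR : Continuous fun α => ρ α * Real.log (ρ α) :=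
    h.cont.mul (h.cont.log fun α => (h.pos α).ne')
  have cu := continuous_uu h ht
  have hpi : -π ≤ π := by (clear * -; linarith only [Real.pi_pos])
  have cF : Continuous fun q : ℝ × ℝ =>
      Pk (Complex.exp (q.2 * I)) (ep t q.1) * (ρ q.2 * Real.log (ρ q.2)) := by
    have h1 : Continuous fun q : ℝ × ℝ => (q.2, q.1) := by fun_prop
    exact ((continuous_Pk ht).comp h1).mul (cR.comp continuous_snd)
  have h1 : ∫ θ in (-π)..π, uu ρ t θ * Real.log (uu ρ t θ) ≤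
      ∫ θ in (-π)..π, (2 * π)⁻¹ * ∫ α in (0:ℝ)..(2 * π),
        Pk (Complex.exp (α * I)) (ep t θ) * (ρ α * Real.log (ρ α)) := by
    refine intervalIntegral.integral_mono_on hpi ?_ ?_ fun θ _ => uu_log_le h ht θ
    · exact (cu.mul (cu.log fun θ => (uu_pos h ht θ).ne')).intervalIntegrable _ _
    · refine Continuous.intervalIntegrable ?_ _ _
      refine continuous_const.mul ?_
      exact intervalIntegral.continuous_parametric_intervalIntegral_of_continuous' cF _ _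
  have h2 : ∫ θ in (-π)..π, ∫ α in (0:ℝ)..(2 * π),
        Pk (Complex.exp (α * I)) (ep t θ) * (ρ α * Real.log (ρ α)) =
      ∫ α in (0:ℝ)..(2 * π), ∫ θ in (-π)..π,
        Pk (Complex.exp (α * I)) (ep t θ) * (ρ α * Real.log (ρ α)) := by
    refine intervalIntegral_intervalIntegral_swap ?_
    refine (cF.continuousOn.integrableOn_compact (K := uIcc (-π) π ×ˢ uIcc 0 (2 * π)) ?_).mono_set
      (prod_mono uIoc_subset_uIcc uIoc_subset_uIcc)
    exact isCompact_uIcc.prod isCompact_uIcc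
  have h3 : ∀ α : ℝ, ∫ θ in (-π)..π,
      Pk (Complex.exp (α * I)) (ep t θ) * (ρ α * Real.log (ρ α)) =
      2 * π * (ρ α * Real.log (ρ α)) := by
    intro α
    rw [intervalIntegral.integral_mul_const, integral_Pk' ht]
  unfold AA
  rw [intervalIntegral.integral_const_mul, h2] at h1
  simp_rw [h3] at h1
  rw [intervalIntegral.integral_const_mul, ← mul_assoc, inv_mul_cancel₀ two_pi_pos'.ne',
    one_mul] at h1
  exact mul_le_mul_of_nonneg_left h1 (inv_pos.2 two_pi_pos').le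

end Pool.Agent.Helper73.EK

end

section

namespace Pool.Agent.Helper52.EK
end Pool.Agent.Helper52.EK

set_option autoImplicit false

open Complex MeasureTheory Metric Set

open scoped Real ComplexConjugate

namespace Pool.Agent.Helper48.EK

open Pool.Agent.Helper52.EK

/-- derivative under the integral, continuous case -/
theorem hasDerivAt_param {𝕜 E : Type*} [RCLike 𝕜] [NormedAddCommGroup E] [NormedSpace ℝ E]
    [NormedSpace 𝕜 E] {F F' : 𝕜 → ℝ → E} {U : Set 𝕜} (hU : IsOpen U) {x₀ : 𝕜} (hx : x₀ ∈ U)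
    {a b : ℝ} (hF : ContinuousOn (fun p : 𝕜 × ℝ => F p.1 p.2) (U ×ˢ univ))
    (hF' : ContinuousOn (fun p : 𝕜 × ℝ => F' p.1 p.2) (U ×ˢ univ))
    (hd : ∀ x ∈ U, ∀ t, HasDerivAt (fun x => F x t) (F' x t) x) :
    HasDerivAt (fun x => ∫ t in a..b, F x t) (∫ t in a..b, F' x₀ t) x₀ := by
  obtain ⟨ε, hε, hεU⟩ := Metric.nhds_basis_closedBall.mem_iff.1 (hU.mem_nhds hx)
  have hs : ∀ x ∈ U, Continuous fun t => F x t := fun x hxU =>
    hF.comp_continuous (by fun_prop : Continuous fun t : ℝ => (x, t)) fun t => ⟨hxU, trivial⟩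
  have hs' : ∀ x ∈ U, Continuous fun t => F' x t := fun x hxU =>
    hF'.comp_continuous (by fun_prop : Continuous fun t : ℝ => (x, t)) fun t => ⟨hxU, trivial⟩
  have hK : IsCompact (Metric.closedBall x₀ ε ×ˢ Set.uIcc a b) :=
    (isCompact_closedBall x₀ ε).prod isCompact_uIcc
  obtain ⟨C, hC⟩ := hK.exists_bound_of_continuousOn
    (hF'.mono (Set.prod_mono hεU (Set.subset_univ _)))
  refine (intervalIntegral.hasDerivAt_integral_of_dominated_loc_of_deriv_le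
    (F := F) (F' := F') (bound := fun _ => C) (Metric.ball_mem_nhds x₀ hε) ?_ ?_ ?_ ?_ ?_ ?_).2
  · filter_upwards [hU.mem_nhds hx] with x hxU
    exact (hs x hxU).aestronglyMeasurable
  · exact (hs x₀ hx).intervalIntegrable _ _
  · exact (hs' x₀ hx).aestronglyMeasurable
  · refine Filter.Eventually.of_forall fun t ht x hxb => ?_
    exact hC (x, t) ⟨Metric.ball_subset_closedBall hxb, Set.uIoc_subset_uIcc ht⟩
  · exact intervalIntegrable_const
  · refine Filter.Eventually.of_forall fun t _ x hxb => ?_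
    exact hd x (hεU (Metric.ball_subset_closedBall hxb)) t

/-- continuity of a parametric integral, continuous case -/
theorem continuousAt_param {X E : Type*} [TopologicalSpace X] [FirstCountableTopology X]
    [LocallyCompactSpace X] [NormedAddCommGroup E] [NormedSpace ℝ E]
    {F : X → ℝ → E} {U : Set X} (hU : IsOpen U) {x₀ : X} (hx : x₀ ∈ U)
    {a b : ℝ} (hF : ContinuousOn (fun p : X × ℝ => F p.1 p.2) (U ×ˢ univ)) :
    ContinuousAt (fun x => ∫ t in a..b, F x t) x₀ := by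
  obtain ⟨K, hK1, hKU, hK⟩ := LocallyCompactSpace.local_compact_nhds x₀ U (hU.mem_nhds hx)
  have hs : ∀ x ∈ U, Continuous fun t => F x t := fun x hxU =>
    hF.comp_continuous (by fun_prop : Continuous fun t : ℝ => (x, t)) fun t => ⟨hxU, trivial⟩
  obtain ⟨C, hC⟩ := (hK.prod (isCompact_uIcc (a := a) (b := b))).exists_bound_of_continuousOn
    (hF.mono (Set.prod_mono hKU (Set.subset_univ _)))
  refine intervalIntegral.continuousAt_of_dominated_interval (bound := fun _ => C) ?_ ?_ ?_ ?_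
  · filter_upwards [hU.mem_nhds hx] with x hxU
    exact (hs x hxU).aestronglyMeasurable
  · filter_upwards [hK1] with x hxK
    refine Filter.Eventually.of_forall fun t ht => ?_
    exact hC (x, t) ⟨hxK, Set.uIoc_subset_uIcc ht⟩
  · exact intervalIntegrable_const
  · refine Filter.Eventually.of_forall fun t _ => ?_
    have h1 : ContinuousAt (fun p : X × ℝ => F p.1 p.2) (x₀, t) :=
      hF.continuousAt ((hU.prod isOpen_univ).mem_nhds ⟨hx, trivial⟩)
    exact ContinuousAt.comp (f := fun x : X => (x, t)) h1 (by fun_prop)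

/-- the left half plane -/
def HP : Set ℂ := {w : ℂ | w.re < 0}

theorem isOpen_HP : IsOpen HP := isOpen_lt Complex.continuous_re continuous_const

noncomputable def KK (w : ℂ) (α : ℝ) : ℂ :=
  (Complex.exp (α * I) + Complex.exp w) / (Complex.exp (α * I) - Complex.exp w)

noncomputable def KK' (w : ℂ) (α : ℝ) : ℂ :=
  2 * Complex.exp (α * I) * Complex.exp w / (Complex.exp (α * I) - Complex.exp w) ^ 2

noncomputable def FF (ρ : ℝ → ℝ) (w : ℂ) : ℂ :=
  ((2 * π)⁻¹ : ℝ) • ∫ α in (0:ℝ)..(2 * π), (ρ α : ℂ) * KK w α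

theorem den_ne {w : ℂ} (hw : w ∈ HP) (α : ℝ) :
    Complex.exp (α * I) - Complex.exp w ≠ 0 := by
  intro h
  rw [sub_eq_zero] at h
  have h1 := congrArg norm h
  rw [Complex.norm_exp_ofReal_mul_I, Complex.norm_exp] at h1
  have h2 : Real.exp w.re < 1 := by
    rw [← Real.exp_zero]
    exact Real.exp_lt_exp.2 hw
  linarith only [h1, h2]

theorem re_div (ζ z : ℂ) : ((ζ + z) / (ζ - z)).re = (‖ζ‖ ^ 2 - ‖z‖ ^ 2) / ‖ζ - z‖ ^ 2 := by
  rw [Complex.div_re, ← Complex.normSq_eq_norm_sq, ← Complex.normSq_eq_norm_sq,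
    ← Complex.normSq_eq_norm_sq, ← add_div]
  congr 1
  simp only [Complex.normSq_apply, Complex.add_re, Complex.add_im, Complex.sub_re, Complex.sub_im]
  ring

theorem KK_re (w : ℂ) (α : ℝ) :
    (KK w α).re = Pk (Complex.exp (α * I)) (Complex.exp w) := by
  unfold KK Pk
  rw [re_div, Complex.norm_exp_ofReal_mul_I, one_pow]

theorem hasDerivAt_KK {w : ℂ} (hw : w ∈ HP) (α : ℝ) :
    HasDerivAt (fun w => KK w α) (KK' w α) w := by
  unfold KK KK'
  have h1 : HasDerivAt (fun w : ℂ => Complex.exp (α * I) + Complex.exp w) (Complex.exp w) w :=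
    (Complex.hasDerivAt_exp w).const_add _
  have h2 : HasDerivAt (fun w : ℂ => Complex.exp (α * I) - Complex.exp w) (-Complex.exp w) w :=
    (Complex.hasDerivAt_exp w).const_sub _
  refine (h1.fun_div h2 (den_ne hw α)).congr_deriv ?_
  congr 1
  ring

theorem continuousOn_KK : ContinuousOn (fun p : ℂ × ℝ => KK p.1 p.2) (HP ×ˢ univ) := by
  unfold KK
  refine ContinuousOn.div (by fun_prop) (by fun_prop) fun p hp => den_ne hp.1 p.2

theorem continuousOn_KK' : ContinuousOn (fun p : ℂ × ℝ => KK' p.1 p.2) (HP ×ˢ univ) := by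
  unfold KK'
  refine ContinuousOn.div (by fun_prop) (by fun_prop) fun p hp => ?_
  exact pow_ne_zero 2 (den_ne hp.1 p.2)

theorem hasDerivAt_FF {ρ : ℝ → ℝ} (hρ : Continuous ρ) {w : ℂ} (hw : w ∈ HP) :
    HasDerivAt (FF ρ) (((2 * π)⁻¹ : ℝ) • ∫ α in (0:ℝ)..(2 * π), (ρ α : ℂ) * KK' w α) w := by
  have h := hasDerivAt_param (𝕜 := ℂ) (E := ℂ) (F := fun w α => (ρ α : ℂ) * KK w α)
    (F' := fun w α => (ρ α : ℂ) * KK' w α) (a := 0) (b := 2 * π) isOpen_HP hw
    (by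
      have h1 : Continuous fun p : ℂ × ℝ => (ρ p.2 : ℂ) := by fun_prop
      exact h1.continuousOn.mul continuousOn_KK)
    (by
      have h1 : Continuous fun p : ℂ × ℝ => (ρ p.2 : ℂ) := by fun_prop
      exact h1.continuousOn.mul continuousOn_KK')
    (fun x hx t => (hasDerivAt_KK hx t).const_mul _)
  exact h.const_smul ((2 * π)⁻¹ : ℝ)

theorem differentiableOn_FF {ρ : ℝ → ℝ} (hρ : Continuous ρ) : DifferentiableOn ℂ (FF ρ) HP :=
  fun _ hw => (hasDerivAt_FF hρ hw).differentiableAt.differentiableWithinAt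

theorem FF_per (ρ : ℝ → ℝ) (w : ℂ) : FF ρ (w + 2 * π * I) = FF ρ w := by
  unfold FF KK
  simp only [Complex.exp_periodic w]

theorem dFF_per (ρ : ℝ → ℝ) (w : ℂ) : deriv (FF ρ) (w + 2 * π * I) = deriv (FF ρ) w := by
  rw [← deriv_comp_add_const]
  congr 1
  funext z
  exact FF_per ρ z

/-- `t + iθ` -/
theorem pt_mem {t : ℝ} (ht : t < 0) (θ : ℝ) : (t : ℂ) + (θ : ℂ) * I ∈ HP := by
  simpa [HP] using ht

theorem uu_eq {ρ : ℝ → ℝ} (hρ : Continuous ρ) {t : ℝ} (ht : t < 0) (θ : ℝ) :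
    uu ρ t θ = (FF ρ ((t : ℂ) + (θ : ℂ) * I)).re := by
  have hc : Continuous fun α : ℝ => (ρ α : ℂ) * KK ((t : ℂ) + (θ : ℂ) * I) α := by
    refine Continuous.mul (by fun_prop) ?_
    exact continuousOn_KK.comp_continuous
      (by fun_prop : Continuous fun α : ℝ => (((t : ℂ) + (θ : ℂ) * I), α))
      fun α => ⟨pt_mem ht θ, trivial⟩
  have h1 := Complex.reCLM.intervalIntegral_comp_comm (μ := volume)
    (hc.intervalIntegrable 0 (2 * π))
  unfold uu FF
  rw [Complex.smul_re, smul_eq_mul]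
  congr 1
  rw [show (∫ α in (0:ℝ)..(2 * π), (ρ α : ℂ) * KK ((t : ℂ) + (θ : ℂ) * I) α).re =
    Complex.reCLM (∫ α in (0:ℝ)..(2 * π), (ρ α : ℂ) * KK ((t : ℂ) + (θ : ℂ) * I) α) from rfl,
    ← h1]
  refine intervalIntegral.integral_congr fun α _ => ?_
  simp only [Complex.reCLM_apply, Complex.re_ofReal_mul, KK_re]
  unfold ep
  ring

theorem uu_per (ρ : ℝ → ℝ) (t θ : ℝ) : uu ρ t (θ + 2 * π) = uu ρ t θ := by
  have h1 : ep t (θ + 2 * π) = ep t θ := by
    unfold ep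
    push_cast
    rw [add_mul, ← add_assoc]
    exact Complex.exp_periodic _
  unfold uu
  rw [h1]

theorem uu_pos {ρ : ℝ → ℝ} (h : Dens ρ) {t : ℝ} (ht : t < 0) (θ : ℝ) : 0 < uu ρ t θ :=
  Helper73.EK.uu_pos h ht θ

theorem hasDerivAt_re_t {G : ℂ → ℂ} {G' : ℂ} {t θ : ℝ}
    (h : HasDerivAt G G' ((t : ℂ) + (θ : ℂ) * I)) :
    HasDerivAt (fun t' : ℝ => (G ((t' : ℂ) + (θ : ℂ) * I)).re) G'.re t := by
  have h1 : HasDerivAt (fun t' : ℝ => (t' : ℂ) + (θ : ℂ) * I) 1 t :=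
    (Complex.ofRealCLM.hasDerivAt.add_const _)
  have h2 : HasDerivAt (fun t' : ℝ => G ((t' : ℂ) + (θ : ℂ) * I)) (G' * 1) t :=
    HasDerivAt.comp t h h1
  have h3 : HasDerivAt (fun t' : ℝ => (G ((t' : ℂ) + (θ : ℂ) * I)).re) (G' * 1).re t :=
    Complex.reCLM.hasFDerivAt.comp_hasDerivAt t h2
  rwa [mul_one] at h3

theorem hasDerivAt_re_th {G : ℂ → ℂ} {G' : ℂ} {t θ : ℝ}
    (h : HasDerivAt G G' ((t : ℂ) + (θ : ℂ) * I)) :
    HasDerivAt (fun θ' : ℝ => (G ((t : ℂ) + (θ' : ℂ) * I)).re) (-G'.im) θ := by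
  have h1 : HasDerivAt (fun θ' : ℝ => (t : ℂ) + (θ' : ℂ) * I) I θ := by
    have := (Complex.ofRealCLM.hasDerivAt (x := θ)).mul_const I
    simpa using this.const_add (t : ℂ)
  have h2 : HasDerivAt (fun θ' : ℝ => G ((t : ℂ) + (θ' : ℂ) * I)) (G' * I) θ :=
    HasDerivAt.comp θ h h1
  have h3 : HasDerivAt (fun θ' : ℝ => (G ((t : ℂ) + (θ' : ℂ) * I)).re) (G' * I).re θ :=
    Complex.reCLM.hasFDerivAt.comp_hasDerivAt θ h2
  rwa [Complex.mul_I_re] at h3

theorem hasDerivAt_im_th {G : ℂ → ℂ} {G' : ℂ} {t θ : ℝ}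
    (h : HasDerivAt G G' ((t : ℂ) + (θ : ℂ) * I)) :
    HasDerivAt (fun θ' : ℝ => (G ((t : ℂ) + (θ' : ℂ) * I)).im) G'.re θ := by
  have h1 : HasDerivAt (fun θ' : ℝ => (t : ℂ) + (θ' : ℂ) * I) I θ := by
    have := (Complex.ofRealCLM.hasDerivAt (x := θ)).mul_const I
    simpa using this.const_add (t : ℂ)
  have h2 : HasDerivAt (fun θ' : ℝ => G ((t : ℂ) + (θ' : ℂ) * I)) (G' * I) θ :=
    HasDerivAt.comp θ h h1
  have h3 : HasDerivAt (fun θ' : ℝ => (G ((t : ℂ) + (θ' : ℂ) * I)).im) (G' * I).im θ :=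
    Complex.imCLM.hasFDerivAt.comp_hasDerivAt θ h2
  rwa [Complex.mul_I_im] at h3

variable {ρ : ℝ → ℝ}

theorem FF_hasDerivAt (hρ : Continuous ρ) {w : ℂ} (hw : w ∈ HP) :
    HasDerivAt (FF ρ) (deriv (FF ρ) w) w := (hasDerivAt_FF hρ hw).differentiableAt.hasDerivAt

theorem dFF_hasDerivAt (hρ : Continuous ρ) {w : ℂ} (hw : w ∈ HP) :
    HasDerivAt (deriv (FF ρ)) (deriv (deriv (FF ρ)) w) w :=
  (((differentiableOn_FF hρ).deriv isOpen_HP).differentiableAt (isOpen_HP.mem_nhds hw)).hasDerivAt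

theorem cont_FF (hρ : Continuous ρ) : ContinuousOn (FF ρ) HP :=
  (differentiableOn_FF hρ).continuousOn

theorem cont_dFF (hρ : Continuous ρ) : ContinuousOn (deriv (FF ρ)) HP :=
  ((differentiableOn_FF hρ).deriv isOpen_HP).continuousOn

theorem cont_ddFF (hρ : Continuous ρ) : ContinuousOn (deriv (deriv (FF ρ))) HP :=
  (((differentiableOn_FF hρ).deriv isOpen_HP).deriv isOpen_HP).continuousOn

theorem eventually_neg {t : ℝ} (ht : t < 0) : ∀ᶠ t' in nhds t, t' < 0 := eventually_lt_nhds ht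

theorem hasDerivAt_uu_t (hρ : Continuous ρ) {t : ℝ} (ht : t < 0) (θ : ℝ) :
    HasDerivAt (fun t' => uu ρ t' θ) (deriv (FF ρ) ((t : ℂ) + (θ : ℂ) * I)).re t := by
  have h := hasDerivAt_re_t (FF_hasDerivAt hρ (pt_mem ht θ))
  refine h.congr_of_eventuallyEq ?_
  filter_upwards [eventually_neg ht] with t' ht'
  exact uu_eq hρ ht' θ

theorem hasDerivAt_uu_th (hρ : Continuous ρ) {t : ℝ} (ht : t < 0) (θ : ℝ) :
    HasDerivAt (fun θ' => uu ρ t θ') (-(deriv (FF ρ) ((t : ℂ) + (θ : ℂ) * I)).im) θ := by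
  have h := hasDerivAt_re_th (FF_hasDerivAt hρ (pt_mem ht θ))
  refine h.congr_of_eventuallyEq ?_
  filter_upwards with θ'
  exact uu_eq hρ ht θ'

theorem ut_eq (hρ : Continuous ρ) {t : ℝ} (ht : t < 0) (θ : ℝ) :
    ut ρ t θ = (deriv (FF ρ) ((t : ℂ) + (θ : ℂ) * I)).re := (hasDerivAt_uu_t hρ ht θ).deriv

theorem uth_eq (hρ : Continuous ρ) {t : ℝ} (ht : t < 0) (θ : ℝ) :
    uth ρ t θ = -(deriv (FF ρ) ((t : ℂ) + (θ : ℂ) * I)).im := (hasDerivAt_uu_th hρ ht θ).deriv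

/-- the closed formula for the derivative of `FF` -/
theorem deriv_FF (hρ : Continuous ρ) {w : ℂ} (hw : w ∈ HP) :
    deriv (FF ρ) w = ((2 * π)⁻¹ : ℝ) • ∫ α in (0:ℝ)..(2 * π), (ρ α : ℂ) * KK' w α :=
  (hasDerivAt_FF hρ hw).deriv

theorem contOn_comp {G : ℂ → ℂ} (hG : ContinuousOn G HP) :
    ContinuousOn (fun p : ℝ × ℝ => G ((p.1 : ℂ) + (p.2 : ℂ) * I)) (Iio 0 ×ˢ univ) :=
  hG.comp (by fun_prop) fun p hp => pt_mem hp.1 p.2

theorem cont_uu (hρ : Continuous ρ) :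
    ContinuousOn (fun p : ℝ × ℝ => uu ρ p.1 p.2) (Iio 0 ×ˢ univ) := by
  have h := Complex.continuous_re.comp_continuousOn (contOn_comp (cont_FF hρ))
  refine h.congr fun p hp => ?_
  exact uu_eq hρ hp.1 p.2

theorem cont_ut (hρ : Continuous ρ) :
    ContinuousOn (fun p : ℝ × ℝ => ut ρ p.1 p.2) (Iio 0 ×ˢ univ) := by
  have h := Complex.continuous_re.comp_continuousOn (contOn_comp (cont_dFF hρ))
  refine h.congr fun p hp => ?_
  exact ut_eq hρ hp.1 p.2

theorem cont_uth (hρ : Continuous ρ) :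
    ContinuousOn (fun p : ℝ × ℝ => uth ρ p.1 p.2) (Iio 0 ×ˢ univ) := by
  have h := (Complex.continuous_im.comp_continuousOn (contOn_comp (cont_dFF hρ))).neg
  refine h.congr fun p hp => ?_
  exact uth_eq hρ hp.1 p.2

noncomputable def utt (ρ : ℝ → ℝ) (t θ : ℝ) : ℝ :=
  (deriv (deriv (FF ρ)) ((t : ℂ) + (θ : ℂ) * I)).re

theorem cont_utt (hρ : Continuous ρ) :
    ContinuousOn (fun p : ℝ × ℝ => utt ρ p.1 p.2) (Iio 0 ×ˢ univ) :=
  Complex.continuous_re.comp_continuousOn (contOn_comp (cont_ddFF hρ))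

theorem hasDerivAt_ut_t (hρ : Continuous ρ) {t : ℝ} (ht : t < 0) (θ : ℝ) :
    HasDerivAt (fun t' => ut ρ t' θ) (utt ρ t θ) t := by
  have h := hasDerivAt_re_t (dFF_hasDerivAt hρ (pt_mem ht θ))
  refine h.congr_of_eventuallyEq ?_
  filter_upwards [eventually_neg ht] with t' ht'
  exact ut_eq hρ ht' θ

/-- Laplace's equation: `∂_θ uth = - utt` -/
theorem hasDerivAt_uth_th (hρ : Continuous ρ) {t : ℝ} (ht : t < 0) (θ : ℝ) :
    HasDerivAt (fun θ' => uth ρ t θ') (-utt ρ t θ) θ := by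
  have h := (hasDerivAt_im_th (dFF_hasDerivAt hρ (pt_mem ht θ))).fun_neg
  refine h.congr_of_eventuallyEq ?_
  filter_upwards with θ'
  exact uth_eq hρ ht θ'

theorem hasDerivAt_uu_t' (hρ : Continuous ρ) {t : ℝ} (ht : t < 0) (θ : ℝ) :
    HasDerivAt (fun t' => uu ρ t' θ) (ut ρ t θ) t := by
  rw [ut_eq hρ ht]
  exact hasDerivAt_uu_t hρ ht θ

theorem hasDerivAt_uu_th' (hρ : Continuous ρ) {t : ℝ} (ht : t < 0) (θ : ℝ) :
    HasDerivAt (fun θ' => uu ρ t θ') (uth ρ t θ) θ := by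
  rw [uth_eq hρ ht]
  exact hasDerivAt_uu_th hρ ht θ

theorem uth_per (hρ : Continuous ρ) {t : ℝ} (ht : t < 0) (θ : ℝ) :
    uth ρ t (θ + 2 * π) = uth ρ t θ := by
  rw [uth_eq hρ ht, uth_eq hρ ht]
  have h1 : (t : ℂ) + ((θ + 2 * π : ℝ) : ℂ) * I = ((t : ℂ) + (θ : ℂ) * I) + 2 * π * I := by
    push_cast
    ring
  rw [h1, dFF_per]

theorem slice {G : ℝ → ℝ → ℝ} (hG : ContinuousOn (fun p : ℝ × ℝ => G p.1 p.2) (Iio 0 ×ˢ univ))
    {t : ℝ} (ht : t < 0) : Continuous fun θ => G t θ :=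
  hG.comp_continuous (by fun_prop : Continuous fun θ : ℝ => (t, θ)) fun _ => ⟨ht, trivial⟩

theorem logC (h : Dens ρ) :
    ContinuousOn (fun p : ℝ × ℝ => Real.log (uu ρ p.1 p.2)) (Iio 0 ×ˢ univ) :=
  (cont_uu h.cont).log fun p hp => (uu_pos h hp.1 p.2).ne'

theorem cont_i0 (h : Dens ρ) : ContinuousOn
    (fun p : ℝ × ℝ => uu ρ p.1 p.2 * Real.log (uu ρ p.1 p.2)) (Iio 0 ×ˢ univ) :=
  (cont_uu h.cont).mul (logC h)

theorem cont_i1 (h : Dens ρ) : ContinuousOn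
    (fun p : ℝ × ℝ => (1 + Real.log (uu ρ p.1 p.2)) * ut ρ p.1 p.2) (Iio 0 ×ˢ univ) :=
  (continuousOn_const.add (logC h)).mul (cont_ut h.cont)

theorem cont_i2 (h : Dens ρ) : ContinuousOn
    (fun p : ℝ × ℝ => (ut ρ p.1 p.2 ^ 2 + uth ρ p.1 p.2 ^ 2) / uu ρ p.1 p.2) (Iio 0 ×ˢ univ) :=
  (((cont_ut h.cont).pow 2).add ((cont_uth h.cont).pow 2)).div (cont_uu h.cont)
    fun p hp => (uu_pos h hp.1 p.2).ne'

theorem cont_i1' (h : Dens ρ) : ContinuousOn
    (fun p : ℝ × ℝ => ut ρ p.1 p.2 / uu ρ p.1 p.2 * ut ρ p.1 p.2 +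
      (1 + Real.log (uu ρ p.1 p.2)) * utt ρ p.1 p.2) (Iio 0 ×ˢ univ) :=
  (((cont_ut h.cont).div (cont_uu h.cont) fun p hp => (uu_pos h hp.1 p.2).ne').mul
    (cont_ut h.cont)).add ((continuousOn_const.add (logC h)).mul (cont_utt h.cont))

/-- integration by parts in `θ` -/
theorem parts (h : Dens ρ) {t : ℝ} (ht : t < 0) :
    ∫ θ in (-π)..π, (uth ρ t θ / uu ρ t θ * uth ρ t θ +
      (1 + Real.log (uu ρ t θ)) * (-utt ρ t θ)) = 0 := by
  have hd : ∀ θ : ℝ, HasDerivAt (fun θ => (1 + Real.log (uu ρ t θ)) * uth ρ t θ)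
      (uth ρ t θ / uu ρ t θ * uth ρ t θ + (1 + Real.log (uu ρ t θ)) * (-utt ρ t θ)) θ := by
    intro θ
    have h1 := ((hasDerivAt_uu_th' h.cont ht θ).log (uu_pos h ht θ).ne').const_add 1
    exact h1.fun_mul (hasDerivAt_uth_th h.cont ht θ)
  have hc : Continuous fun θ => uth ρ t θ / uu ρ t θ * uth ρ t θ +
      (1 + Real.log (uu ρ t θ)) * (-utt ρ t θ) := by
    have c1 := slice (cont_uth h.cont) ht
    have c2 := slice (cont_uu h.cont) ht
    have c3 := slice (cont_utt h.cont) ht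
    have c4 := slice (G := fun t θ => Real.log (uu ρ t θ)) (logC h) ht
    exact ((c1.div c2 fun θ => (uu_pos h ht θ).ne').mul c1).add
      ((continuous_const.add c4).mul c3.neg)
  rw [intervalIntegral.integral_eq_sub_of_hasDerivAt (fun θ _ => hd θ)
    (hc.intervalIntegrable _ _)]
  have e1 : uu ρ t π = uu ρ t (-π) := by
    rw [← uu_per ρ t (-π)]
    congr 1
    ring
  have e2 : uth ρ t π = uth ρ t (-π) := by
    rw [← uth_per h.cont ht (-π)]
    congr 1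
    ring
  rw [e1, e2, sub_self]

theorem E2a {ρ : ℝ → ℝ} (h : Dens ρ) {t : ℝ} (ht : t < 0) :
    HasDerivAt (AA ρ) (A1 ρ t) t ∧ HasDerivAt (A1 ρ) (A2 ρ t) t ∧ ContinuousAt (A2 ρ) t := by
  refine ⟨?_, ?_, ?_⟩
  · have h1 := hasDerivAt_param (𝕜 := ℝ) (E := ℝ)
      (F := fun t θ => uu ρ t θ * Real.log (uu ρ t θ))
      (F' := fun t θ => (1 + Real.log (uu ρ t θ)) * ut ρ t θ) (a := -π) (b := π)
      isOpen_Iio (x₀ := t) ht (cont_i0 h) (cont_i1 h)
      (fun x hx θ => by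
        have d1 := hasDerivAt_uu_t' h.cont hx θ
        have hp := (uu_pos h hx θ).ne'
        refine (d1.fun_mul (d1.log hp)).congr_deriv ?_
        field_simp
        ring)
    exact h1.const_mul _
  · have h1 := hasDerivAt_param (𝕜 := ℝ) (E := ℝ)
      (F := fun t θ => (1 + Real.log (uu ρ t θ)) * ut ρ t θ)
      (F' := fun t θ => ut ρ t θ / uu ρ t θ * ut ρ t θ +
        (1 + Real.log (uu ρ t θ)) * utt ρ t θ) (a := -π) (b := π)
      isOpen_Iio (x₀ := t) ht (cont_i1 h) (cont_i1' h)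
      (fun x hx θ => by
        have d1 := hasDerivAt_uu_t' h.cont hx θ
        have hp := (uu_pos h hx θ).ne'
        exact ((d1.log hp).const_add 1).fun_mul (hasDerivAt_ut_t h.cont hx θ))
    have h2 : ∫ θ in (-π)..π, (ut ρ t θ / uu ρ t θ * ut ρ t θ +
        (1 + Real.log (uu ρ t θ)) * utt ρ t θ) =
        ∫ θ in (-π)..π, (ut ρ t θ ^ 2 + uth ρ t θ ^ 2) / uu ρ t θ := by
      have h3 := parts h ht
      have i1 : IntervalIntegrable (fun θ => ut ρ t θ / uu ρ t θ * ut ρ t θ +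
        (1 + Real.log (uu ρ t θ)) * utt ρ t θ) volume (-π) π :=
        (slice (G := fun t θ => ut ρ t θ / uu ρ t θ * ut ρ t θ +
        (1 + Real.log (uu ρ t θ)) * utt ρ t θ) (cont_i1' h) ht).intervalIntegrable _ _
      have i2 : IntervalIntegrable (fun θ => uth ρ t θ / uu ρ t θ * uth ρ t θ +
        (1 + Real.log (uu ρ t θ)) * (-utt ρ t θ)) volume (-π) π := by
        have c1 := slice (cont_uth h.cont) ht
        have c2 := slice (cont_uu h.cont) ht
        have c3 := slice (cont_utt h.cont) ht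
        have c4 := slice (G := fun t θ => Real.log (uu ρ t θ)) (logC h) ht
        exact (((c1.div c2 fun θ => (uu_pos h ht θ).ne').mul c1).add
          ((continuous_const.add c4).mul c3.neg)).intervalIntegrable _ _
      have h4 := intervalIntegral.integral_add i1 i2
      rw [h3, add_zero] at h4
      rw [← h4]
      refine intervalIntegral.integral_congr fun θ _ => ?_
      have hp := (uu_pos h ht θ).ne'
      field_simp
      ring
    rw [h2] at h1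
    exact h1.const_mul _
  · exact (continuousAt_param (X := ℝ) (E := ℝ)
      (F := fun t θ => (ut ρ t θ ^ 2 + uth ρ t θ ^ 2) / uu ρ t θ) (a := -π) (b := π)
      isOpen_Iio (x₀ := t) ht (cont_i2 h)).const_mul _

end Pool.Agent.Helper48.EK

end

section

namespace Pool.Agent.Helper52.EK
end Pool.Agent.Helper52.EK

set_option autoImplicit false

open Complex MeasureTheory Metric Set

open scoped Real ComplexConjugate

namespace Pool.Agent.Helper5.EK

open Pool.Agent.Helper52.EK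

theorem entropy_of_E2b
    (hE2b : ∀ (ρ : ℝ → ℝ) (w : ℂ → ℂ), Dens ρ → ContinuousOn w {z | 0 < ‖z‖ ∧ ‖z‖ < 1} →
      ∀ t : ℝ, t < 0 → 1 / Real.sinh t ^ 2 - kk ρ w t ≤ A2 ρ t) :
    ∃ C : ℝ, ∀ (ρ : ℝ → ℝ) (w : ℂ → ℂ) (a : ℝ), Dens ρ →
    ContinuousOn w {z | 0 < ‖z‖ ∧ ‖z‖ < 1} → Real.exp (-1) < a → a < 1 →
    -Real.log (1 - a ^ 2) - C ≤ (2 * π)⁻¹ * (∫ α in (0:ℝ)..(2 * π), ρ α * Real.log (ρ α)) +
      (2 * π)⁻¹ * ∫ α in (0:ℝ)..(2 * π), ρ α * Kf w (Complex.exp (α * I)) (-1) (Real.log a) :=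
  entropy_of (fun _ h _ ht => Pool.Agent.Helper48.EK.E2a h ht) hE2b
    Pool.Agent.Helper6.EK.E2c (fun _ h _ ht => Pool.Agent.Helper73.EK.E2d h ht)

end Pool.Agent.Helper5.EK

end

section

namespace Pool.Agent.Helper52.EK
end Pool.Agent.Helper52.EK
namespace Pool.Agent.Helper73.EK
end Pool.Agent.Helper73.EK
namespace Pool.Agent.Helper48.EK
end Pool.Agent.Helper48.EK

set_option autoImplicit false

open Complex MeasureTheory Metric Set

open scoped Real ComplexConjugate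

namespace Pool.Agent.Helper93.EK

open Pool.Agent.Helper52.EK Pool.Agent.Helper73.EK Pool.Agent.Helper48.EK

variable {ρ : ℝ → ℝ}

theorem tp : (0:ℝ) < 2 * π := by positivity

/-- the mean of `uu` over the circle -/
theorem mean_uu (h : Dens ρ) {t : ℝ} (ht : t < 0) :
    ∫ θ in (-π)..π, uu ρ t θ = 2 * π := by
  have cF : Continuous (Function.uncurry fun θ α : ℝ =>
      Pk (Complex.exp (α * I)) (ep t θ) * ρ α) := by
    have h1 : Continuous fun q : ℝ × ℝ => (q.2, q.1) := by fun_prop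
    exact ((continuous_Pk ht).comp h1).mul (h.cont.comp continuous_snd)
  unfold uu
  rw [intervalIntegral.integral_const_mul, Helper5.EK.swap2 cF]
  have h3 : ∀ α : ℝ, ∫ θ in (-π)..π, Pk (Complex.exp (α * I)) (ep t θ) * ρ α =
      2 * π * ρ α := by
    intro α
    rw [intervalIntegral.integral_mul_const, integral_Pk' ht]
  simp_rw [h3]
  rw [intervalIntegral.integral_const_mul, ← mul_assoc, inv_mul_cancel₀ tp.ne', one_mul, h.one]

theorem conj_mul_self_one {ζ : ℂ} (hζ : ‖ζ‖ = 1) : conj ζ * ζ = 1 := by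
  rw [mul_comm, Complex.mul_conj, Complex.normSq_eq_norm_sq, hζ]
  norm_num

theorem one_sub_conj {z ζ : ℂ} (hζ : ‖ζ‖ = 1) : 1 - conj z * ζ = conj (ζ - z) * ζ := by
  rw [map_sub, sub_mul, conj_mul_self_one hζ]

theorem norm_ee {ζ z : ℂ} (hζ : ‖ζ‖ = 1) (hz : ‖z‖ < 1) : ‖ee ζ z‖ = 1 := by
  have h2 : 0 < ‖ζ - z‖ := norm_pos_iff.mpr (sub_ne_zero_of hζ hz)
  rw [ee, one_sub_conj hζ, norm_div, norm_mul, RCLike.norm_conj, hζ, mul_one, div_self h2.ne']

/-- `Pk ee` is a multiple of `KK'` -/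
theorem pk_ee {t : ℝ} (ht : t < 0) (θ α : ℝ) :
    ((Pk (Complex.exp (α * I)) (ep t θ) : ℝ) : ℂ) * ee (Complex.exp (α * I)) (ep t θ) =
      ((1 - ‖ep t θ‖ ^ 2 : ℝ) : ℂ) / (2 * ep t θ) * KK' ((t : ℂ) + (θ : ℂ) * I) α := by
  have hz := norm_ep_lt ht θ
  have hζ := norm_cis α
  have h3 := sub_ne_zero_of hζ hz
  have h5 : conj (Complex.exp (α * I) - ep t θ) ≠ 0 := by rwa [Ne, map_eq_zero]
  have h4 : ((‖Complex.exp (α * I) - ep t θ‖ ^ 2 : ℝ) : ℂ) =
      (Complex.exp (α * I) - ep t θ) * conj (Complex.exp (α * I) - ep t θ) := by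
    rw [Complex.mul_conj, Complex.normSq_eq_norm_sq]
  have h6 : ep t θ ≠ 0 := by
    unfold ep
    exact Complex.exp_ne_zero _
  have h7 : KK' ((t : ℂ) + (θ : ℂ) * I) α =
      2 * Complex.exp (α * I) * ep t θ / (Complex.exp (α * I) - ep t θ) ^ 2 := rfl
  rw [Pk, ee, one_sub_conj hζ, Complex.ofReal_div, h4, h7]
  field_simp

theorem sinh_ep {t : ℝ} (ht : t < 0) (θ : ℝ) :
    ‖((1 - ‖ep t θ‖ ^ 2 : ℝ) : ℂ) / (2 * ep t θ)‖ = -Real.sinh t := by
  have h1 : 0 < 1 - ‖ep t θ‖ ^ 2 := by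
    have := norm_ep_lt ht θ
    nlinarith only [norm_nonneg (ep t θ), this]
  rw [norm_div, norm_mul, Complex.norm_real, Real.norm_of_nonneg h1.le, norm_ep, Real.sinh_eq,
    Complex.norm_ofNat]
  have h2 := Real.exp_pos t
  have h3 : Real.exp (-t) = (Real.exp t)⁻¹ := Real.exp_neg t
  rw [h3]
  field_simp
  ring

/-- the mean of `ρ Pk ee` -/
noncomputable def DD (ρ : ℝ → ℝ) (t θ : ℝ) : ℂ :=
  ((1 - ‖ep t θ‖ ^ 2 : ℝ) : ℂ) / (2 * ep t θ) * deriv (FF ρ) ((t : ℂ) + (θ : ℂ) * I)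

theorem cont_DD (hρ : Continuous ρ) {t : ℝ} (ht : t < 0) : Continuous fun θ => DD ρ t θ := by
  unfold DD
  have h1 : Continuous fun θ => ep t θ := by
    unfold ep
    fun_prop
  refine Continuous.mul (Continuous.div (by fun_prop) (by fun_prop) fun θ => ?_) ?_
  · have h6 : ep t θ ≠ 0 := by
      unfold ep
      exact Complex.exp_ne_zero _
    simpa using h6
  · exact (cont_dFF hρ).comp_continuous (by fun_prop) fun θ => pt_mem ht θ

theorem cont_pk {t : ℝ} (ht : t < 0) (θ : ℝ) :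
    Continuous fun α : ℝ => Pk (Complex.exp (α * I)) (ep t θ) :=
  continuous_Pk_one _ (norm_ep_lt ht θ)

theorem cont_ee {t : ℝ} (ht : t < 0) (θ : ℝ) :
    Continuous fun α : ℝ => ee (Complex.exp (α * I)) (ep t θ) := by
  unfold ee
  refine Continuous.div (by fun_prop) (by fun_prop) fun α => ?_
  exact sub_ne_zero_of (norm_cis α) (norm_ep_lt ht θ)

theorem int_DD (hρ : Continuous ρ) {t : ℝ} (ht : t < 0) (θ : ℝ) :
    ∫ α in (0:ℝ)..(2 * π), ((ρ α * Pk (Complex.exp (α * I)) (ep t θ) : ℝ) : ℂ) *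
      ee (Complex.exp (α * I)) (ep t θ) = 2 * π * DD ρ t θ := by
  have h1 : ∀ α : ℝ, ((ρ α * Pk (Complex.exp (α * I)) (ep t θ) : ℝ) : ℂ) *
      ee (Complex.exp (α * I)) (ep t θ) = ((1 - ‖ep t θ‖ ^ 2 : ℝ) : ℂ) / (2 * ep t θ) *
        ((ρ α : ℂ) * KK' ((t : ℂ) + (θ : ℂ) * I) α) := by
    intro α
    rw [Complex.ofReal_mul, mul_assoc, pk_ee ht]
    ring
  simp_rw [h1]
  rw [intervalIntegral.integral_const_mul, DD, deriv_FF hρ (pt_mem ht θ), Complex.real_smul]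
  have h2 : ((2 * π : ℝ) : ℂ) ≠ 0 := by exact_mod_cast tp.ne'
  push_cast at h2 ⊢
  field_simp

theorem norm_DD (hρ : Continuous ρ) {t : ℝ} (ht : t < 0) (θ : ℝ) :
    ‖DD ρ t θ‖ ^ 2 = Real.sinh t ^ 2 * (ut ρ t θ ^ 2 + uth ρ t θ ^ 2) := by
  rw [DD, norm_mul, sinh_ep ht, mul_pow, neg_sq, ut_eq hρ ht, uth_eq hρ ht,
    ← Complex.normSq_eq_norm_sq (deriv (FF ρ) _), Complex.normSq_apply]
  ring

/-- the loss at one point -/
theorem loss_eq (h : Dens ρ) {t : ℝ} (ht : t < 0) (θ : ℝ) (b : ℂ) :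
    (2 * π)⁻¹ * ∫ α in (0:ℝ)..(2 * π),
      ρ α * (Pk (Complex.exp (α * I)) (ep t θ) *
        ‖ee (Complex.exp (α * I)) (ep t θ) - b‖ ^ 2 / Real.sinh t ^ 2) =
      (Real.sinh t ^ 2)⁻¹ *
        ((1 + ‖b‖ ^ 2) * uu ρ t θ - 2 * (DD ρ t θ * conj b).re) := by
  have h1 : ∀ α : ℝ, ρ α * (Pk (Complex.exp (α * I)) (ep t θ) *
        ‖ee (Complex.exp (α * I)) (ep t θ) - b‖ ^ 2 / Real.sinh t ^ 2) =
      (Real.sinh t ^ 2)⁻¹ * ((1 + ‖b‖ ^ 2) * (Pk (Complex.exp (α * I)) (ep t θ) * ρ α) -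
        2 * ((((ρ α * Pk (Complex.exp (α * I)) (ep t θ) : ℝ) : ℂ) *
      ee (Complex.exp (α * I)) (ep t θ)) * conj b).re) := by
    intro α
    have h2 : ‖ee (Complex.exp (α * I)) (ep t θ) - b‖ ^ 2 =
        1 + ‖b‖ ^ 2 - 2 * (ee (Complex.exp (α * I)) (ep t θ) * conj b).re := by
      rw [← Complex.normSq_eq_norm_sq, Complex.normSq_sub, Complex.normSq_eq_norm_sq,
        Complex.normSq_eq_norm_sq, norm_ee (norm_cis α) (norm_ep_lt ht θ), one_pow]
    rw [h2, mul_assoc, Complex.re_ofReal_mul]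
    ring
  have c1 : Continuous fun α : ℝ => Pk (Complex.exp (α * I)) (ep t θ) * ρ α :=
    (cont_pk ht θ).mul h.cont
  have c2 : Continuous fun α : ℝ => ((ρ α * Pk (Complex.exp (α * I)) (ep t θ) : ℝ) : ℂ) *
      ee (Complex.exp (α * I)) (ep t θ) :=
    (Complex.continuous_ofReal.comp (h.cont.mul (cont_pk ht θ))).mul (cont_ee ht θ)
  have c3 : Continuous fun α : ℝ => ((((ρ α * Pk (Complex.exp (α * I)) (ep t θ) : ℝ) : ℂ) *
      ee (Complex.exp (α * I)) (ep t θ)) * conj b).re :=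
    Complex.continuous_re.comp (c2.mul continuous_const)
  simp_rw [h1]
  rw [intervalIntegral.integral_const_mul, intervalIntegral.integral_sub
    ((c1.const_mul _).intervalIntegrable _ _) ((c3.const_mul _).intervalIntegrable _ _),
    intervalIntegral.integral_const_mul, intervalIntegral.integral_const_mul]
  have h4 : ∫ α in (0:ℝ)..(2 * π), ((((ρ α * Pk (Complex.exp (α * I)) (ep t θ) : ℝ) : ℂ) *
      ee (Complex.exp (α * I)) (ep t θ)) * conj b).re = 2 * π * (DD ρ t θ * conj b).re := by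
    have h5 := Complex.reCLM.intervalIntegral_comp_comm (μ := volume)
      (f := fun α : ℝ => (((ρ α * Pk (Complex.exp (α * I)) (ep t θ) : ℝ) : ℂ) *
        ee (Complex.exp (α * I)) (ep t θ)) * conj b)
      ((c2.mul (continuous_const (y := conj b))).intervalIntegrable 0 (2 * π))
    simp only [Complex.reCLM_apply] at h5
    rw [h5, intervalIntegral.integral_mul_const, int_DD h.cont ht, mul_assoc,
      show (2 * (π : ℂ)) = ((2 * π : ℝ) : ℂ) by push_cast; ring, Complex.re_ofReal_mul]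
  have h6 : ∫ α in (0:ℝ)..(2 * π), Pk (Complex.exp (α * I)) (ep t θ) * ρ α =
      2 * π * uu ρ t θ := by
    rw [uu, ← mul_assoc, mul_inv_cancel₀ tp.ne', one_mul]
  rw [h4, h6]
  have h7 := tp.ne'
  (clear * -; field_simp)

/-- the variance inequality at one point -/
theorem loss_ge (h : Dens ρ) {t : ℝ} (ht : t < 0) (θ : ℝ) (b : ℂ) :
    (Real.sinh t ^ 2)⁻¹ * uu ρ t θ - (ut ρ t θ ^ 2 + uth ρ t θ ^ 2) / uu ρ t θ ≤
      (Real.sinh t ^ 2)⁻¹ *
        ((1 + ‖b‖ ^ 2) * uu ρ t θ - 2 * (DD ρ t θ * conj b).re) := by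
  have hs : Real.sinh t ≠ 0 := by
    have := Real.sinh_neg_iff.2 ht
    exact this.ne
  have hs2 : 0 < Real.sinh t ^ 2 := by (clear * - hs; positivity)
  have hu := Helper73.EK.uu_pos h ht θ
  set u := uu ρ t θ with hu'
  have h1 : ut ρ t θ ^ 2 + uth ρ t θ ^ 2 = (Real.sinh t ^ 2)⁻¹ * ‖DD ρ t θ‖ ^ 2 := by
    rw [norm_DD h.cont ht, ← mul_assoc, inv_mul_cancel₀ hs2.ne', one_mul]
  set D := DD ρ t θ
  have h6 : (D * conj b).re ≤ ‖D‖ * ‖b‖ := by
    refine (Complex.re_le_norm _).trans ?_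
    rw [norm_mul, RCLike.norm_conj]
  have h7 : ‖D‖ ^ 2 / u + ‖b‖ ^ 2 * u - 2 * (‖D‖ * ‖b‖) = (‖D‖ - u * ‖b‖) ^ 2 / u := by
    field_simp
    ring
  have h8 : 0 ≤ (‖D‖ - u * ‖b‖) ^ 2 / u := by (clear * - hu; positivity)
  have h9 : u - ‖D‖ ^ 2 / u ≤ (1 + ‖b‖ ^ 2) * u - 2 * (D * conj b).re := by linarith only [h6, h7, h8]
  rw [h1, mul_div_assoc, ← mul_sub]
  exact mul_le_mul_of_nonneg_left h9 (inv_pos.2 hs2).le

/-- E2b (variance inequality) -/
theorem E2b {ρ : ℝ → ℝ} (h : Dens ρ) {w : ℂ → ℂ}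
    (hw : ContinuousOn w {z | 0 < ‖z‖ ∧ ‖z‖ < 1}) {t : ℝ} (ht : t < 0) :
    1 / Real.sinh t ^ 2 - kk ρ w t ≤ A2 ρ t := by
  have hpi : -π ≤ π := by (clear * -; linarith only [Real.pi_pos])
  have cw : Continuous fun θ => w (ep t θ) := by
    refine hw.comp_continuous ?_ fun θ => ⟨?_, norm_ep_lt ht θ⟩
    · unfold ep
      fun_prop
    · rw [norm_ep]
      exact Real.exp_pos t
  have cu : Continuous fun θ => uu ρ t θ := continuous_uu h ht
  have cD := cont_DD h.cont ht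
  have cR : Continuous fun θ => (Real.sinh t ^ 2)⁻¹ *
      ((1 + ‖w (ep t θ)‖ ^ 2) * uu ρ t θ - 2 * (DD ρ t θ * conj (w (ep t θ))).re) := by
    have c1 : Continuous fun θ => conj (w (ep t θ)) := Complex.continuous_conj.comp cw
    have c2 : Continuous fun θ => (DD ρ t θ * conj (w (ep t θ))).re :=
      Complex.continuous_re.comp (cD.mul c1)
    exact (((continuous_const.add (cw.norm.pow 2)).mul cu).sub (c2.const_mul 2)).const_mul _
  have c3 := slice (G := fun t θ => (ut ρ t θ ^ 2 + uth ρ t θ ^ 2) / uu ρ t θ) (cont_i2 h) ht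
  have h1 := intervalIntegral.integral_mono_on (μ := volume) hpi
    (((cu.const_mul ((Real.sinh t ^ 2)⁻¹)).sub c3).intervalIntegrable (-π) π)
    (cR.intervalIntegrable (-π) π) fun θ _ => loss_ge h ht θ (w (ep t θ))
  simp only [Pi.sub_apply] at h1
  rw [intervalIntegral.integral_sub ((cu.const_mul _).intervalIntegrable _ _)
    (c3.intervalIntegrable _ _), intervalIntegral.integral_const_mul, mean_uu h ht] at h1
  have h2 : kk ρ w t = (2 * π)⁻¹ * ∫ θ in (-π)..π, (Real.sinh t ^ 2)⁻¹ *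
      ((1 + ‖w (ep t θ)‖ ^ 2) * uu ρ t θ - 2 * (DD ρ t θ * conj (w (ep t θ))).re) := by
    unfold kk
    congr 1
    exact intervalIntegral.integral_congr fun θ _ => loss_eq h ht θ _
  have h3 := mul_le_mul_of_nonneg_left h1 (inv_pos.2 tp).le
  rw [← h2, mul_sub] at h3
  have h4 : (2 * π)⁻¹ * ((Real.sinh t ^ 2)⁻¹ * (2 * π)) = 1 / Real.sinh t ^ 2 := by
    have h7 := tp.ne'
    rw [one_div]
    field_simp
  rw [h4] at h3
  have h5 : A2 ρ t = (2 * π)⁻¹ * ∫ θ in (-π)..π, (ut ρ t θ ^ 2 + uth ρ t θ ^ 2) / uu ρ t θ := rfl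
  rw [h5]
  (clear * - h3; linarith only [h3])

end Pool.Agent.Helper93.EK

end

section

namespace Pool.Agent.Helper52.EK
end Pool.Agent.Helper52.EK

set_option autoImplicit false

open Complex MeasureTheory Metric Set

open scoped Real ComplexConjugate

namespace Pool.Agent.Helper5.EK

open Pool.Agent.Helper52.EK

/-- E2: the entropy inequality (assembly) -/
theorem entropy : ∃ C : ℝ, ∀ (ρ : ℝ → ℝ) (w : ℂ → ℂ) (a : ℝ), Dens ρ →
    ContinuousOn w {z | 0 < ‖z‖ ∧ ‖z‖ < 1} → Real.exp (-1) < a → a < 1 →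
    -Real.log (1 - a ^ 2) - C ≤ (2 * π)⁻¹ * (∫ α in (0:ℝ)..(2 * π), ρ α * Real.log (ρ α)) +
      (2 * π)⁻¹ * ∫ α in (0:ℝ)..(2 * π), ρ α * Kf w (Complex.exp (α * I)) (-1) (Real.log a) :=
  entropy_of_E2b fun _ _ h hw _ ht => Pool.Agent.Helper93.EK.E2b h hw ht

end Pool.Agent.Helper5.EK

end

section

namespace Pool.Agent.Helper39.Area
end Pool.Agent.Helper39.Area
namespace Pool.Agent.Helper52.EK
end Pool.Agent.Helper52.EK

set_option autoImplicit false

open Complex MeasureTheory Metric Set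

open scoped Real ComplexConjugate

namespace Pool.Agent.Helper28.EK

open Pool.Agent.Helper39.Area Pool.Agent.Helper52.EK

theorem scale_mem {ρ : ℝ} (h0 : 0 < ρ) {z : ℂ} (hz : z ∈ ball (0:ℂ) ρ⁻¹) :
    (ρ : ℂ) * z ∈ ball (0:ℂ) 1 := by
  rw [mem_ball_zero_iff] at hz ⊢
  rw [norm_mul, Complex.norm_real, Real.norm_eq_abs, abs_of_pos h0]
  have := mul_lt_mul_of_pos_left hz h0
  rwa [mul_inv_cancel₀ h0.ne'] at this

theorem scale_deriv {β : ℂ → ℂ} (h : DifferentiableOn ℂ β (ball 0 1)) {ρ : ℝ} {z : ℂ}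
    (hz : (ρ : ℂ) * z ∈ ball (0:ℂ) 1) :
    HasDerivAt (fun z => (ρ : ℂ) * β (ρ * z)) ((ρ : ℂ) * (deriv β (ρ * z) * ρ)) z := by
  have h1 : HasDerivAt β (deriv β (ρ * z)) (ρ * z) :=
    (h.differentiableAt (isOpen_ball.mem_nhds hz)).hasDerivAt
  have h2 : HasDerivAt (fun z : ℂ => (ρ : ℂ) * z) (ρ : ℂ) z := by
    simpa using (hasDerivAt_id z).const_mul (ρ : ℂ)
  exact (h1.comp z h2).const_mul (ρ : ℂ)

theorem scale_N {β : ℂ → ℂ} (h : DifferentiableOn ℂ β (ball 0 1)) {ρ : ℝ} {z : ℂ}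
    (hz : (ρ : ℂ) * z ∈ ball (0:ℂ) 1) :
    N (fun z => (ρ : ℂ) * β (ρ * z)) z = N β (ρ * z) := by
  unfold N
  rw [(scale_deriv h hz).deriv]
  ring

/-- E6d: scaling -/
theorem scale_ExtR {β : ℂ → ℂ} (h : Ext β) {ρ : ℝ} (h0 : 0 < ρ) (h1 : ρ < 1) :
    ExtR (fun z => (ρ : ℂ) * β (ρ * z)) ρ⁻¹ := by
  have hρC : (ρ : ℂ) ≠ 0 := by exact_mod_cast h0.ne'
  refine ⟨(one_lt_inv₀ h0).2 h1, ?_, ?_, ?_⟩
  · intro z hz
    exact (scale_deriv h.diff (scale_mem h0 hz)).differentiableAt.differentiableWithinAt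
  · intro ζ ω hζ hω hζ0 hω0 heq
    have e : ∀ x : ℂ, x ≠ 0 → x⁻¹ + (ρ : ℂ) * β (ρ * x) = ρ * ((ρ * x)⁻¹ + β (ρ * x)) := by
      intro x hx
      (clear * - hx hρC; field_simp)
    rw [e ζ hζ0, e ω hω0] at heq
    have h3 := mul_left_cancel₀ hρC heq
    have h4 := h.inj _ _ (scale_mem h0 hζ) (scale_mem h0 hω) (mul_ne_zero hρC hζ0)
      (mul_ne_zero hρC hω0) h3
    exact mul_left_cancel₀ hρC h4
  · intro ζ hζ
    have h3 := scale_N h.diff (scale_mem h0 hζ)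
    unfold N at h3
    rw [h3]
    exact h.ne _ (scale_mem h0 hζ)

theorem N_cont {β : ℂ → ℂ} (h : Ext β) {r : ℝ} (h0 : 0 < r) (h1 : r < 1) (p : ℝ) :
    Continuous (fun α : ℝ => ‖N β (r * Complex.exp (α * I))‖ ^ (-p)) := by
  have hmem : ∀ α : ℝ, (r : ℂ) * Complex.exp (α * I) ∈ ball (0:ℂ) 1 := by
    intro α
    rw [mem_ball_zero_iff, norm_mul, Complex.norm_exp_ofReal_mul_I, mul_one, Complex.norm_real,
      Real.norm_eq_abs, abs_of_pos h0]
    exact h1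
  have hN : ContinuousOn (fun z => ‖N β z‖ ^ (-p)) (ball (0:ℂ) 1) := by
    have hd : ContinuousOn (deriv β) (ball (0:ℂ) 1) :=
      ((h.diff.deriv isOpen_ball).continuousOn)
    have h2 : ContinuousOn (fun z => ‖N β z‖) (ball (0:ℂ) 1) := by
      unfold N
      exact (continuousOn_const.sub ((continuousOn_id.pow 2).mul hd)).norm
    refine h2.rpow_const ?_
    intro z hz
    left
    exact norm_ne_zero_iff.2 (h.ne z hz)
  have h3 : Continuous (fun α : ℝ => (r : ℂ) * Complex.exp (α * I)) := by fun_prop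
  exact hN.comp_continuous h3 hmem

end Pool.Agent.Helper28.EK

end

section

set_option autoImplicit false

open Complex MeasureTheory Metric Set Filter Topology

open scoped Real ENNReal ComplexConjugate NNReal

namespace Pool.Agent.Helper39.Area

noncomputable def toDisc (l : ℂ) (f : ℂ → ℂ) (ζ : ℂ) : ℂ := if ζ = 0 then l else f ζ⁻¹

theorem inv_mem {ζ : ℂ} (hζ : ζ ∈ ball (0:ℂ) 1) (h0 : ζ ≠ 0) : 1 < ‖ζ⁻¹‖ := by
  rw [mem_ball, dist_zero_right] at hζ
  rw [norm_inv]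
  exact (one_lt_inv₀ (norm_pos_iff.mpr h0)).mpr hζ

theorem isOpen_ext : IsOpen {z : ℂ | 1 < ‖z‖} := isOpen_lt continuous_const continuous_norm

theorem toDisc_diff {f : ℂ → ℂ} {l : ℂ} (hf : DifferentiableOn ℂ f {z : ℂ | 1 < ‖z‖})
    (hl : Tendsto f (Bornology.cobounded ℂ) (𝓝 l)) :
    DifferentiableOn ℂ (toDisc l f) (ball 0 1) := by
  have hb : ball (0:ℂ) 1 ∈ 𝓝 (0:ℂ) := ball_mem_nhds 0 one_pos
  rw [← differentiableOn_compl_singleton_and_continuousAt_iff hb]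
  constructor
  · rintro ζ ⟨hζ, h0⟩
    have h0' : ζ ≠ 0 := h0
    have h1 : DifferentiableAt ℂ (fun ζ : ℂ => f ζ⁻¹) ζ := by
      have h2 := hf.differentiableAt (isOpen_ext.mem_nhds (inv_mem hζ h0'))
      exact h2.comp ζ (differentiableAt_inv h0')
    have h2 : toDisc l f =ᶠ[𝓝 ζ] fun ζ : ℂ => f ζ⁻¹ := by
      filter_upwards [isOpen_ne.mem_nhds h0'] with ω hω
      simp only [toDisc]
      rw [if_neg hω]
    exact (h1.congr_of_eventuallyEq h2).differentiableWithinAt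
  · rw [continuousAt_iff_punctured_nhds]
    have h1 : Tendsto (fun ζ : ℂ => f ζ⁻¹) (𝓝[≠] 0) (𝓝 l) := hl.comp tendsto_inv₀_nhdsNE_zero
    have h2 : toDisc l f 0 = l := by simp [toDisc]
    rw [h2]
    apply h1.congr'
    filter_upwards [self_mem_nhdsWithin] with ω hω
    have hω' : ω ≠ 0 := hω
    simp only [toDisc]
    rw [if_neg hω']

theorem ext_data {ψ h : ℂ → ℂ} {b : ℂ}
    (hψ : DifferentiableOn ℂ ψ {z : ℂ | 1 < ‖z‖})
    (hinj : InjOn ψ {z : ℂ | 1 < ‖z‖})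
    (hb : Tendsto (fun z => ψ z - z) (Bornology.cobounded ℂ) (𝓝 b))
    (hexp : ∀ z : ℂ, 1 < ‖z‖ → Complex.exp (h z) = deriv ψ z) :
    Ext (toDisc b (fun z => ψ z - z)) ∧ ∀ ζ ∈ ball (0:ℂ) 1,
      Complex.exp (toDisc 0 h ζ) = 1 - ζ ^ 2 * deriv (toDisc b (fun z => ψ z - z)) ζ := by
  set β : ℂ → ℂ := toDisc b (fun z => ψ z - z) with hβ
  have hdiff : DifferentiableOn ℂ β (ball 0 1) := toDisc_diff (hψ.sub differentiableOn_id) hb
  have hβ' : ∀ ζ : ℂ, ζ ≠ 0 → β ζ = ψ ζ⁻¹ - ζ⁻¹ := by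
    intro ζ hζ
    simp only [hβ, toDisc]
    rw [if_neg hζ]
  have hE : ∀ ζ ∈ ball (0:ℂ) 1, Complex.exp (toDisc 0 h ζ) = 1 - ζ ^ 2 * deriv β ζ := by
    intro ζ hζ
    by_cases h0 : ζ = 0
    · subst h0; simp [toDisc]
    · have h1 := inv_mem hζ h0
      have h2 : toDisc 0 h ζ = h ζ⁻¹ := by
        simp only [toDisc]; rw [if_neg h0]
      rw [h2, hexp _ h1]
      have h3 := (hψ.differentiableAt (isOpen_ext.mem_nhds h1)).hasDerivAt
      have h4 : HasDerivAt (fun ζ : ℂ => ψ ζ⁻¹) (deriv ψ ζ⁻¹ * -(ζ ^ 2)⁻¹) ζ :=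
        h3.comp ζ (hasDerivAt_inv h0)
      have h5 : HasDerivAt (fun ζ : ℂ => ψ ζ⁻¹ - ζ⁻¹) (deriv ψ ζ⁻¹ * -(ζ ^ 2)⁻¹ - -(ζ ^ 2)⁻¹) ζ :=
        h4.sub (hasDerivAt_inv h0)
      have h6 : β =ᶠ[𝓝 ζ] fun ζ : ℂ => ψ ζ⁻¹ - ζ⁻¹ := by
        filter_upwards [isOpen_ne.mem_nhds h0] with ω hω
        exact hβ' ω hω
      rw [(h5.congr_of_eventuallyEq h6).deriv]
      field_simp
      ring
  refine ⟨⟨hdiff, ?_, ?_⟩, hE⟩
  · intro ζ ω hζ hω hζ0 hω0 heq
    rw [hβ' ζ hζ0, hβ' ω hω0] at heq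
    have h1 : ψ ζ⁻¹ = ψ ω⁻¹ := by linear_combination heq
    exact inv_injective (hinj (inv_mem hζ hζ0) (inv_mem hω hω0) h1)
  · intro ζ hζ h'
    rw [← hE ζ hζ] at h'
    exact Complex.exp_ne_zero _ h'

/-- Goluzin's inequality, in the coordinate `ζ = 1/z`. -/
theorem goluzin_disc {ψ h : ℂ → ℂ}
    (hψ : DifferentiableOn ℂ ψ {z : ℂ | 1 < ‖z‖})
    (hinj : InjOn ψ {z : ℂ | 1 < ‖z‖})
    (hb : ∃ b : ℂ, Tendsto (fun z => ψ z - z) (Bornology.cobounded ℂ) (𝓝 b))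
    (hh : DifferentiableOn ℂ h {z : ℂ | 1 < ‖z‖})
    (hexp : ∀ z : ℂ, 1 < ‖z‖ → Complex.exp (h z) = deriv ψ z)
    (hh0 : Tendsto h (Bornology.cobounded ℂ) (𝓝 0)) :
    DifferentiableOn ℂ (toDisc 0 h) (ball 0 1) ∧ ∀ ζ ∈ ball (0:ℂ) 1,
      ‖toDisc 0 h ζ‖ ≤ Real.log (1 / (1 - ‖ζ‖ ^ 2)) := by
  obtain ⟨b, hb⟩ := hb
  obtain ⟨h1, h2⟩ := ext_data hψ hinj hb hexp
  have h3 : DifferentiableOn ℂ (toDisc 0 h) (ball 0 1) := toDisc_diff hh hh0
  refine ⟨h3, fun ζ hζ => ?_⟩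
  have h4 := goluzin h1 h3.continuousOn (by simp [toDisc]) h2 hζ
  rwa [one_div, Real.log_inv]

/-- Goluzin's inequality. -/
theorem goluzin_ext {ψ h : ℂ → ℂ}
    (hψ : DifferentiableOn ℂ ψ {z : ℂ | 1 < ‖z‖})
    (hinj : InjOn ψ {z : ℂ | 1 < ‖z‖})
    (hb : ∃ b : ℂ, Tendsto (fun z => ψ z - z) (Bornology.cobounded ℂ) (𝓝 b))
    (hh : DifferentiableOn ℂ h {z : ℂ | 1 < ‖z‖})
    (hexp : ∀ z : ℂ, 1 < ‖z‖ → Complex.exp (h z) = deriv ψ z)
    (hh0 : Tendsto h (Bornology.cobounded ℂ) (𝓝 0)) {z : ℂ} (hz : 1 < ‖z‖) :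
    ‖h z‖ ≤ Real.log (‖z‖ ^ 2 / (‖z‖ ^ 2 - 1)) := by
  have hz0 : z ≠ 0 := by
    rintro rfl
    simp at hz
    (clear * - hz; linarith only [hz])
  have hmem : z⁻¹ ∈ ball (0:ℂ) 1 := by
    rw [mem_ball, dist_zero_right, norm_inv]
    exact inv_lt_one_of_one_lt₀ hz
  have h1 := (goluzin_disc hψ hinj hb hh hexp hh0).2 z⁻¹ hmem
  have h2 : toDisc 0 h z⁻¹ = h z := by
    simp only [toDisc]
    rw [if_neg (inv_ne_zero hz0), inv_inv]
  rw [h2] at h1
  have h3 : 1 / (1 - ‖z⁻¹‖ ^ 2) = ‖z‖ ^ 2 / (‖z‖ ^ 2 - 1) := by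
    rw [norm_inv]
    have : ‖z‖ ≠ 0 := norm_ne_zero_iff.mpr hz0
    have h4 : ‖z‖ ^ 2 - 1 ≠ 0 := by (clear * - hz; nlinarith only [hz])
    field_simp
  rwa [h3] at h1

end Pool.Agent.Helper39.Area

end
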