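import Pool.Agent.Helper14.CMF.T02
import Pool.Agent.Helper14.CMF.T03
import Pool.Agent.Helper14.CMF.T08
import Pool.Agent.Helper14.CMF.T07
import Pool.Agent.Helper14.CMF.T09

set_option linter.all false

section

namespace Pool.Agent.Helper52.EK
end Pool.Agent.Helper52.EK

set_option autoImplicit false

open Complex Metric Set

open scoped Real ComplexConjugate

namespace Pool.Agent.Helper69.EK3

open Pool.Agent.Helper52.EK

/-- a point of the unit circle on a segment -/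
theorem exists_cross {m m' : ℂ} (h : ‖m‖ ≤ 1) (h' : 1 ≤ ‖m'‖) :
    ∃ p : ℂ, ‖p‖ = 1 ∧ ‖m - p‖ + ‖p - m'‖ = ‖m - m'‖ := by
  have hc : Continuous (fun t : ℝ => ‖m + (t : ℂ) * (m' - m)‖) := by fun_prop
  have h1 : (1:ℝ) ∈ Icc ((fun t : ℝ => ‖m + (t : ℂ) * (m' - m)‖) 0)
      ((fun t : ℝ => ‖m + (t : ℂ) * (m' - m)‖) 1) := by
    simp only [ofReal_zero, zero_mul, add_zero, ofReal_one, one_mul, add_sub_cancel]
    exact ⟨h, h'⟩
  obtain ⟨t, ht, he⟩ := intermediate_value_Icc (zero_le_one) hc.continuousOn h1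
  refine ⟨m + (t : ℂ) * (m' - m), he, ?_⟩
  have e1 : m - (m + (t : ℂ) * (m' - m)) = (t : ℂ) * (m - m') := by ring
  have e2 : m + (t : ℂ) * (m' - m) - m' = ((1 - t : ℝ) : ℂ) * (m - m') := by
    push_cast
    ring
  rw [e1, e2, norm_mul, norm_mul, Complex.norm_real, Complex.norm_real,
    Real.norm_of_nonneg ht.1, Real.norm_of_nonneg (by (clear * - ht; linarith [ht.2]))]
  ring

end Pool.Agent.Helper69.EK3

end

section

namespace Pool.Agent.Helper39.Area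
end Pool.Agent.Helper39.Area
namespace Pool.Agent.Helper52.EK
end Pool.Agent.Helper52.EK

set_option autoImplicit false

open Complex MeasureTheory Metric Set

open scoped Real ComplexConjugate

namespace Pool.Agent.Helper9.EK

open Pool.Agent.Helper39.Area Pool.Agent.Helper52.EK

/-- rotated data: `phi (rotβ β α) z = e^(iα) phi β (e^(iα) z)` -/
noncomputable def rotβ (β : ℂ → ℂ) (α : ℝ) (z : ℂ) : ℂ :=
  Complex.exp (α * I) * β (Complex.exp (α * I) * z)

theorem norm_exp_mul (α : ℝ) (z : ℂ) : ‖Complex.exp (α * I) * z‖ = ‖z‖ := by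
  rw [norm_mul, Complex.norm_exp_ofReal_mul_I, one_mul]

theorem mem_ball_rot {α R : ℝ} {z : ℂ} (hz : z ∈ ball (0:ℂ) R) :
    Complex.exp (α * I) * z ∈ ball (0:ℂ) R := by
  rw [mem_ball_zero_iff] at hz ⊢
  rwa [norm_exp_mul]

theorem deriv_rotβ {β : ℂ → ℂ} (α : ℝ) (z : ℂ) :
    deriv (rotβ β α) z = Complex.exp (α * I) * (Complex.exp (α * I) *
      deriv β (Complex.exp (α * I) * z)) := by
  have h1 : rotβ β α = fun z => Complex.exp (α * I) * (fun z => β (Complex.exp (α * I) * z)) z := rfl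
  rw [h1, deriv_const_mul_field, deriv_comp_mul_left, smul_eq_mul]

theorem rot_N' {β : ℂ → ℂ} (α : ℝ) (z : ℂ) :
    N (rotβ β α) z = N β (Complex.exp (α * I) * z) := by
  unfold N
  rw [deriv_rotβ]
  ring

theorem rot_ExtR {β : ℂ → ℂ} {R : ℝ} (h : ExtR β R) (α : ℝ) : ExtR (rotβ β α) R := by
  have hc : Complex.exp (α * I) ≠ 0 := Complex.exp_ne_zero _
  refine ⟨h.one_lt, ?_, ?_, ?_⟩
  · have h1 : DifferentiableOn ℂ (fun z => β (Complex.exp (α * I) * z)) (ball 0 R) :=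
      h.diff.comp (differentiableOn_id.const_mul _) (fun z hz => mem_ball_rot hz)
    exact h1.const_mul _
  · intro ζ ω hζ hω hζ0 hω0 he
    have h2 := h.inj (Complex.exp (α * I) * ζ) (Complex.exp (α * I) * ω) (mem_ball_rot hζ)
      (mem_ball_rot hω) (mul_ne_zero hc hζ0) (mul_ne_zero hc hω0) ?_
    · exact mul_left_cancel₀ hc h2
    · apply mul_left_cancel₀ hc
      have e1 : ∀ w : ℂ, Complex.exp (α * I) * ((Complex.exp (α * I) * w)⁻¹ +
          β (Complex.exp (α * I) * w)) = w⁻¹ + rotβ β α w := by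
        intro w
        unfold rotβ
        rw [mul_add, mul_inv, ← mul_assoc, mul_inv_cancel₀ hc, one_mul]
      rw [e1, e1, he]
  · intro ζ hζ
    have h3 := h.ne (Complex.exp (α * I) * ζ) (mem_ball_rot hζ)
    have h4 := rot_N' (β := β) α ζ
    unfold N at h4
    rw [h4]
    exact h3

theorem ep_add (t θ α : ℝ) : ep t (θ + α) = Complex.exp (α * I) * ep t θ := by
  unfold ep
  rw [← Complex.exp_add]
  congr 1
  push_cast
  ring

theorem ep_two_pi (t θ : ℝ) : ep t (θ + 2 * π) = ep t θ := by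
  rw [ep_add]
  have : Complex.exp (((2 * π : ℝ) : ℂ) * I) = 1 := by
    push_cast
    exact Complex.exp_two_pi_mul_I
  rw [this, one_mul]

theorem norm_exp_one (α : ℝ) : ‖Complex.exp (α * I)‖ = 1 := Complex.norm_exp_ofReal_mul_I α

theorem conj_exp_mul (α : ℝ) : conj (Complex.exp (α * I)) * Complex.exp (α * I) = 1 := by
  rw [← Complex.normSq_eq_conj_mul_self, Complex.normSq_eq_norm_sq, norm_exp_one]
  simp

theorem Pk_rot (α : ℝ) (z : ℂ) : Pk (Complex.exp (α * I)) (Complex.exp (α * I) * z) = Pk 1 z := by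
  unfold Pk
  rw [norm_exp_mul]
  have : Complex.exp (α * I) - Complex.exp (α * I) * z = Complex.exp (α * I) * (1 - z) := by ring
  rw [this, norm_exp_mul]

theorem ee_rot (α : ℝ) (z : ℂ) : ee (Complex.exp (α * I)) (Complex.exp (α * I) * z) =
    conj (Complex.exp (α * I)) * ee 1 z := by
  unfold ee
  have hc : Complex.exp (α * I) ≠ 0 := Complex.exp_ne_zero _
  have e1 : Complex.exp (α * I) - Complex.exp (α * I) * z = Complex.exp (α * I) * (1 - z) := by ring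
  have e2 : 1 - conj (Complex.exp (α * I) * z) * Complex.exp (α * I) = 1 - conj z * 1 := by
    rw [map_mul]
    have := conj_exp_mul α
    linear_combination (-(conj z)) * this
  have e3 : (Complex.exp (α * I))⁻¹ = conj (Complex.exp (α * I)) := by
    rw [eq_comm, ← mul_eq_one_iff_eq_inv₀ hc]
    exact conj_exp_mul α
  rw [e1, e2, div_eq_mul_inv, mul_inv, e3]
  ring

theorem mrad_rot {β : ℂ → ℂ} (α : ℝ) (z : ℂ) :
    mrad (rotβ β α) z = mrad β (Complex.exp (α * I) * z) := by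
  have h1 : N (rotβ β α) = fun z => N β (Complex.exp (α * I) * z) := funext (rot_N' α)
  unfold mrad
  rw [h1, deriv_comp_mul_left, smul_eq_mul, norm_exp_mul, map_mul]
  have := conj_exp_mul α
  have e : ∀ A : ℂ, Complex.exp (α * I) * z / (‖z‖ : ℂ) *
      (-(conj (Complex.exp (α * I)) * conj z) - A) =
      z / (‖z‖ : ℂ) * (-(conj (Complex.exp (α * I)) * Complex.exp (α * I)) * conj z
        - Complex.exp (α * I) * A) := by
    intro A; ring
  rw [e, this]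
  ring

theorem wf_rot {G β : ℂ → ℂ} (α : ℝ) (z : ℂ) :
    wf G β (Complex.exp (α * I) * z) = conj (Complex.exp (α * I)) * wf G (rotβ β α) z := by
  unfold wf
  rw [mrad_rot, norm_exp_mul, mul_div_assoc, map_mul]
  ring

theorem rot_Kf' {β G : ℂ → ℂ} (α : ℝ) (t₀ t₂ : ℝ) :
    Kf (wf G β) (Complex.exp (α * I)) t₀ t₂ = Kf (wf G (rotβ β α)) 1 t₀ t₂ := by
  unfold Kf
  congr 1
  apply intervalIntegral.integral_congr
  intro t _
  show (∫ θ in (-π)..π, (t₂ - t) * Pk (Complex.exp (α * I)) (ep t θ) *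
      ‖ee (Complex.exp (α * I)) (ep t θ) - wf G β (ep t θ)‖ ^ 2 / Real.sinh t ^ 2) =
    ∫ θ in (-π)..π, (t₂ - t) * Pk 1 (ep t θ) *
      ‖ee 1 (ep t θ) - wf G (rotβ β α) (ep t θ)‖ ^ 2 / Real.sinh t ^ 2
  set f : ℝ → ℝ := fun θ => (t₂ - t) * Pk (Complex.exp (α * I)) (ep t θ) *
      ‖ee (Complex.exp (α * I)) (ep t θ) - wf G β (ep t θ)‖ ^ 2 / Real.sinh t ^ 2 with hf
  have hper : Function.Periodic f (2 * π) := by
    intro θ
    simp only [hf, ep_two_pi]
  have hshift : ∀ θ, f (θ + α) = (t₂ - t) * Pk 1 (ep t θ) *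
      ‖ee 1 (ep t θ) - wf G (rotβ β α) (ep t θ)‖ ^ 2 / Real.sinh t ^ 2 := by
    intro θ
    simp only [hf]
    rw [ep_add, Pk_rot, ee_rot, wf_rot, ← mul_sub, norm_mul]
    have : ‖conj (Complex.exp (α * I))‖ = 1 := by
      rw [RCLike.norm_conj, norm_exp_one]
    rw [this, one_mul]
  have h1 : (∫ θ in (-π)..π, (t₂ - t) * Pk 1 (ep t θ) *
      ‖ee 1 (ep t θ) - wf G (rotβ β α) (ep t θ)‖ ^ 2 / Real.sinh t ^ 2) =
      ∫ θ in (-π)..π, f (θ + α) := by
    apply intervalIntegral.integral_congr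
    intro θ _
    exact (hshift θ).symm
  rw [h1, intervalIntegral.integral_comp_add_right]
  have h2 := hper.intervalIntegral_add_eq (-π) (-π + α)
  have e1 : -π + 2 * π = π := by ring
  have e2 : -π + α + 2 * π = π + α := by ring
  rw [e1, e2] at h2
  exact h2

end Pool.Agent.Helper9.EK

end

section

namespace Pool.Agent.Helper39.Area
end Pool.Agent.Helper39.Area
namespace Pool.Agent.Helper52.EK
end Pool.Agent.Helper52.EK
namespace Pool.Agent.Helper9.EK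
end Pool.Agent.Helper9.EK

set_option autoImplicit false

open Complex MeasureTheory Metric Set

open scoped Real ComplexConjugate

namespace Pool.Agent.Helper61.EK

open Pool.Agent.Helper39.Area Pool.Agent.Helper52.EK Pool.Agent.Helper9.EK

/-- the statement of the entropy inequality (E2) -/
def EntropyStmt : Prop := ∃ C : ℝ, ∀ (ρ : ℝ → ℝ) (w : ℂ → ℂ) (a : ℝ), Dens ρ →
    ContinuousOn w {z | 0 < ‖z‖ ∧ ‖z‖ < 1} → Real.exp (-1) < a → a < 1 →
    -Real.log (1 - a ^ 2) - C ≤ (2 * π)⁻¹ * (∫ α in (0:ℝ)..(2 * π), ρ α * Real.log (ρ α)) +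
      (2 * π)⁻¹ * ∫ α in (0:ℝ)..(2 * π), ρ α * Kf w (Complex.exp (α * I)) (-1) (Real.log a)

/-- the statement of the continuity of the loss (E2e) -/
def KfContStmt : Prop := ∀ {w : ℂ → ℂ}, ContinuousOn w {z | 0 < ‖z‖ ∧ ‖z‖ < 1} → ∀ {t₂ : ℝ},
    -1 < t₂ → t₂ < 0 → Continuous (fun α : ℝ => Kf w (Complex.exp (α * I)) (-1) t₂)

theorem N_circ_cont {β : ℂ → ℂ} {R : ℝ} (h : ExtR β R) {a : ℝ} (ha : 0 < a) (ha1 : a < 1) :
    Continuous (fun α : ℝ => N β (a * Complex.exp (α * I))) := by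
  have hmem : ∀ α : ℝ, (a * Complex.exp (α * I) : ℂ) ∈ ball (0:ℂ) R := by
    intro α
    rw [mem_ball_zero_iff, norm_mul, Complex.norm_exp_ofReal_mul_I, mul_one, Complex.norm_real,
      Real.norm_eq_abs, abs_of_pos ha]
    exact ha1.trans h.one_lt
  have hd : ContinuousOn (deriv β) (ball 0 R) := (h.diff.deriv isOpen_ball).continuousOn
  have hc : Continuous (fun α : ℝ => (a * Complex.exp (α * I) : ℂ)) := by fun_prop
  have h1 : Continuous (fun α : ℝ => deriv β (a * Complex.exp (α * I))) :=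
    hd.comp_continuous hc hmem
  unfold N
  exact continuous_const.sub ((hc.pow 2).mul h1)

theorem N_circ_pos {β : ℂ → ℂ} {R : ℝ} (h : ExtR β R) {a : ℝ} (ha : 0 < a) (ha1 : a < 1) (α : ℝ) :
    0 < ‖N β (a * Complex.exp (α * I))‖ := by
  rw [norm_pos_iff]
  apply h.ne
  rw [mem_ball_zero_iff, norm_mul, Complex.norm_exp_ofReal_mul_I, mul_one, Complex.norm_real,
      Real.norm_eq_abs, abs_of_pos ha]
  exact ha1.trans h.one_lt

theorem exp_per (α : ℝ) : Complex.exp (((α + 2 * π : ℝ) : ℂ) * I) = Complex.exp (α * I) := by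
  push_cast
  rw [add_mul, Complex.exp_add, Complex.exp_two_pi_mul_I, mul_one]

end Pool.Agent.Helper61.EK

end

section

namespace Pool.Agent.Helper52.EK
end Pool.Agent.Helper52.EK

set_option autoImplicit false

/-!
Project EK (MP_16b0ee_an), E2e: the entropy loss is a continuous function of the target.
-/

open Complex MeasureTheory Metric Set

open scoped Real ComplexConjugate

namespace Pool.Agent.Helper26.EK

open Pool.Agent.Helper52.EK

theorem norm_ep (t θ : ℝ) : ‖ep t θ‖ = Real.exp t := by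
  unfold ep
  rw [Complex.norm_exp]
  simp

theorem continuous_ep {X : Type*} [TopologicalSpace X] {f g : X → ℝ} (hf : Continuous f)
    (hg : Continuous g) : Continuous fun x => ep (f x) (g x) := by
  unfold ep
  fun_prop

/-- E2e -/
theorem Kf_cont {w : ℂ → ℂ} (hw : ContinuousOn w {z | 0 < ‖z‖ ∧ ‖z‖ < 1}) {t₂ : ℝ}
    (h1 : -1 < t₂) (h2 : t₂ < 0) :
    Continuous (fun α : ℝ => Kf w (Complex.exp (α * I)) (-1) t₂) := by
  set cl : ℝ → ℝ := fun t => max (-1) (min t t₂) with hcl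
  have hclc : Continuous cl := by
    rw [hcl]
    fun_prop
  have hcl0 : ∀ t, cl t < 0 := by
    intro t
    rw [hcl]
    exact max_lt (by norm_num) ((min_le_right _ _).trans_lt h2)
  have hcl1 : ∀ t ∈ uIcc (-1) t₂, cl t = t := by
    intro t ht
    rw [uIcc_of_le h1.le] at ht
    rw [hcl]
    simp only
    rw [min_eq_left ht.2, max_eq_right ht.1]
  -- the integrand with `t` replaced by its projection to the interval
  set F : (ℝ × ℝ) × ℝ → ℝ := fun q => (t₂ - q.1.2) *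
      Pk (Complex.exp (q.1.1 * I)) (ep (cl q.1.2) q.2) *
      ‖ee (Complex.exp (q.1.1 * I)) (ep (cl q.1.2) q.2) - w (ep (cl q.1.2) q.2)‖ ^ 2 /
        Real.sinh (cl q.1.2) ^ 2 with hF
  have hz : Continuous fun q : (ℝ × ℝ) × ℝ => ep (cl q.1.2) q.2 :=
    continuous_ep (hclc.comp (continuous_snd.comp continuous_fst)) continuous_snd
  have hnz : ∀ q : (ℝ × ℝ) × ℝ, ‖ep (cl q.1.2) q.2‖ < 1 := by
    intro q
    rw [norm_ep]
    exact Real.exp_lt_one_iff.mpr (hcl0 _)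
  have hnz0 : ∀ q : (ℝ × ℝ) × ℝ, 0 < ‖ep (cl q.1.2) q.2‖ := by
    intro q
    rw [norm_ep]
    exact Real.exp_pos _
  have hζ : Continuous fun q : (ℝ × ℝ) × ℝ => Complex.exp (q.1.1 * I) := by
    fun_prop
  have hnζ : ∀ q : (ℝ × ℝ) × ℝ, ‖Complex.exp (q.1.1 * I)‖ = 1 := fun q =>
    Complex.norm_exp_ofReal_mul_I _
  have hne : ∀ q : (ℝ × ℝ) × ℝ, Complex.exp (q.1.1 * I) - ep (cl q.1.2) q.2 ≠ 0 := by
    intro q h
    have h3 := congrArg norm (sub_eq_zero.1 h)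
    rw [hnζ] at h3
    exact (hnz q).ne h3.symm
  have hFc : Continuous F := by
    rw [hF]
    have hsinh : ∀ q : (ℝ × ℝ) × ℝ, Real.sinh (cl q.1.2) ^ 2 ≠ 0 := by
      intro q
      have := Real.sinh_neg_iff.2 (hcl0 q.1.2)
      exact pow_ne_zero 2 this.ne
    have hP : Continuous fun q : (ℝ × ℝ) × ℝ =>
        Pk (Complex.exp (q.1.1 * I)) (ep (cl q.1.2) q.2) := by
      unfold Pk
      refine Continuous.div ?_ ?_ ?_
      · exact continuous_const.sub (hz.norm.pow 2)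
      · exact (hζ.sub hz).norm.pow 2
      · intro q
        exact pow_ne_zero 2 (norm_ne_zero_iff.2 (hne q))
    have hE : Continuous fun q : (ℝ × ℝ) × ℝ =>
        ee (Complex.exp (q.1.1 * I)) (ep (cl q.1.2) q.2) := by
      unfold ee
      refine Continuous.div ?_ ?_ ?_
      · exact continuous_const.sub ((Complex.continuous_conj.comp hz).mul hζ)
      · exact hζ.sub hz
      · exact hne
    have hW : Continuous fun q : (ℝ × ℝ) × ℝ => w (ep (cl q.1.2) q.2) :=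
      hw.comp_continuous hz fun q => ⟨hnz0 q, hnz q⟩
    refine Continuous.div ?_ ?_ hsinh
    · refine Continuous.mul (Continuous.mul ?_ hP) ?_
      · exact continuous_const.sub (continuous_snd.comp continuous_fst)
      · exact (hE.sub hW).norm.pow 2
    · exact (Real.continuous_sinh.comp (hclc.comp (continuous_snd.comp continuous_fst))).pow 2
  -- the integrals
  have h3 : Continuous fun p : ℝ × ℝ => ∫ θ in (-π)..π, F (p, θ) :=
    intervalIntegral.continuous_parametric_intervalIntegral_of_continuous' (μ := volume)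
      (f := fun p : ℝ × ℝ => fun θ => F (p, θ)) hFc (-π) π
  have h4 : Continuous fun α : ℝ => ∫ t in (-1)..t₂, ∫ θ in (-π)..π, F ((α, t), θ) :=
    intervalIntegral.continuous_parametric_intervalIntegral_of_continuous' (μ := volume)
      (f := fun α : ℝ => fun t => ∫ θ in (-π)..π, F ((α, t), θ)) h3 (-1) t₂
  have h5 : (fun α : ℝ => Kf w (Complex.exp (α * I)) (-1) t₂) =
      fun α : ℝ => (2 * π)⁻¹ * ∫ t in (-1)..t₂, ∫ θ in (-π)..π, F ((α, t), θ) := by
    funext α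
    unfold Kf
    congr 1
    refine intervalIntegral.integral_congr fun t ht => ?_
    refine intervalIntegral.integral_congr fun θ _ => ?_
    have h6 := hcl1 t ht
    change _ = (t₂ - t) * Pk (Complex.exp (α * I)) (ep (cl t) θ) *
      ‖ee (Complex.exp (α * I)) (ep (cl t) θ) - w (ep (cl t) θ)‖ ^ 2 / Real.sinh (cl t) ^ 2
    rw [h6]
  rw [h5]
  exact continuous_const.mul h4

end Pool.Agent.Helper26.EK

end

section

namespace Pool.Agent.Helper52.EK
end Pool.Agent.Helper52.EK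

set_option autoImplicit false

open Complex Metric Set

open scoped Real ComplexConjugate

namespace Pool.Agent.Helper69.EK3

open Pool.Agent.Helper52.EK

/-- `p₀ + p₁ |m+1|² + p₂ |m|²` -/
noncomputable def rF (p0 p1 p2 : ℝ) (m : ℂ) : ℝ := p0 + p1 * ‖m + 1‖ ^ 2 + p2 * ‖m‖ ^ 2

/-- `m + (1 - |m|²)/ρ (a m + b)` -/
noncomputable def Fq (a b p0 p1 p2 : ℝ) (m : ℂ) : ℂ :=
  m + (((1 - ‖m‖ ^ 2) / rF p0 p1 p2 m : ℝ) : ℂ) * ((a : ℂ) * m + (b : ℂ))

theorem normsq_add_one (m : ℂ) : ‖m + 1‖ ^ 2 = ‖m‖ ^ 2 + 2 * m.re + 1 := by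
  rw [← normSq_eq_norm_sq, ← normSq_eq_norm_sq, normSq_apply, normSq_apply]
  simp only [add_re, add_im, one_re, one_im]
  ring

theorem rF_eq (p0 p1 p2 : ℝ) (m : ℂ) :
    rF p0 p1 p2 m = (p0 + p1) + 2 * p1 * m.re + (p1 + p2) * ‖m‖ ^ 2 := by
  unfold rF
  rw [normsq_add_one]
  ring

theorem re_sq_le (m : ℂ) : m.re ^ 2 ≤ ‖m‖ ^ 2 := by
  rw [← normSq_eq_norm_sq, normSq_apply]
  nlinarith [mul_self_nonneg m.im]

theorem sq_lip (m m' : ℂ) : |‖m‖ ^ 2 - ‖m'‖ ^ 2| ≤ (‖m‖ + ‖m'‖) * ‖m - m'‖ := by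
  have e : ‖m‖ ^ 2 - ‖m'‖ ^ 2 = (‖m‖ + ‖m'‖) * (‖m‖ - ‖m'‖) := by ring
  rw [e, abs_mul, abs_of_nonneg (by (clear * -; positivity))]
  exact mul_le_mul_of_nonneg_left (abs_norm_sub_norm_le m m') (by (clear * -; positivity))

theorem re_lip (m m' : ℂ) : |m.re - m'.re| ≤ ‖m - m'‖ := by
  have := Complex.abs_re_le_norm (m - m')
  rwa [sub_re] at this

theorem rF_lip (p0 p1 p2 : ℝ) (m m' : ℂ) : |rF p0 p1 p2 m - rF p0 p1 p2 m'| ≤
    (|2 * p1| + |p1 + p2|) * ((1 + ‖m‖ + ‖m'‖) * ‖m - m'‖) := by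
  have e : rF p0 p1 p2 m - rF p0 p1 p2 m' = 2 * p1 * (m.re - m'.re) +
      (p1 + p2) * (‖m‖ ^ 2 - ‖m'‖ ^ 2) := by
    rw [rF_eq, rF_eq]
    ring
  rw [e]
  refine (abs_add_le _ _).trans ?_
  rw [abs_mul (2 * p1), abs_mul (p1 + p2)]
  have h1 := re_lip m m'
  have h2 := sq_lip m m'
  have h0 := norm_nonneg (m - m')
  have h3 := norm_nonneg m
  have h4 := norm_nonneg m'
  have h5 : |m.re - m'.re| ≤ (1 + ‖m‖ + ‖m'‖) * ‖m - m'‖ := by (clear * - h3 h0 h4 h1; linarith only [mul_nonneg h3 h0, mul_nonneg h4 h0, h1])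
  have h6 : |‖m‖ ^ 2 - ‖m'‖ ^ 2| ≤ (1 + ‖m‖ + ‖m'‖) * ‖m - m'‖ := by (clear * - h2 h0; linarith only [h2, h0])
  have h7 := mul_le_mul_of_nonneg_left h5 (abs_nonneg (2 * p1))
  have h8 := mul_le_mul_of_nonneg_left h6 (abs_nonneg (p1 + p2))
  linarith only [h7, h8]

/-- Lipschitz bound with decay for a quotient -/
theorem rat_lip {N N' : ℂ} {r r' x y t CN Cr c B : ℝ} (hc : 0 < c) (hCN : 0 ≤ CN) (hCr : 0 ≤ Cr)
    (hB : 0 ≤ B) (ht : 0 ≤ t) (hy : 0 ≤ y) (hxy : y ≤ x)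
    (h1 : ‖N - N'‖ ≤ CN * ((1 + x + y) * t)) (h2 : |r - r'| ≤ Cr * ((1 + x + y) * t))
    (h3 : c * (1 + x ^ 2) ≤ r) (h4 : 0 < r') (h5 : ‖N'‖ ≤ B * r') :
    (1 + x) * ‖N / (r : ℂ) - N' / (r' : ℂ)‖ ≤ 4 * (CN + B * Cr) / c * t := by
  have hx : 0 ≤ x := hy.trans hxy
  have hr : 0 < r := lt_of_lt_of_le (by (clear * - hc; positivity)) h3
  have hrc : (r : ℂ) ≠ 0 := by exact_mod_cast hr.ne'
  have hrc' : (r' : ℂ) ≠ 0 := by exact_mod_cast h4.ne'
  have e : N / (r : ℂ) - N' / (r' : ℂ) =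
      ((N - N') - (N' / (r' : ℂ)) * (((r - r' : ℝ)) : ℂ)) / (r : ℂ) := by
    push_cast
    field_simp
    ring
  have h6 : ‖N' / (r' : ℂ)‖ ≤ B := by
    rw [norm_div, Complex.norm_real, Real.norm_of_nonneg h4.le, div_le_iff₀ h4]
    exact h5
  have h7 : ‖(N - N') - (N' / (r' : ℂ)) * (((r - r' : ℝ)) : ℂ)‖ ≤
      (CN + B * Cr) * ((1 + x + y) * t) := by
    refine (norm_sub_le _ _).trans ?_
    rw [norm_mul, Complex.norm_real, Real.norm_eq_abs]
    have := mul_le_mul h6 h2 (abs_nonneg _) hB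
    (clear * - h1 this; linarith only [h1, this])
  rw [e, norm_div, Complex.norm_real, Real.norm_of_nonneg hr.le]
  have h8 : (1 + x) * ((1 + x + y) * t) ≤ 4 / c * t * r := by
    have h9 : (1 + x) * (1 + x + y) ≤ 4 * (1 + x ^ 2) := by nlinarith only [sq_nonneg (x - 1), hy, hxy]
    have h10 : 4 * (1 + x ^ 2) ≤ 4 / c * r := by
      rw [div_mul_eq_mul_div, le_div_iff₀ hc]
      linarith only [h3]
    have h11 := mul_le_mul_of_nonneg_right (h9.trans h10) ht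
    linarith only [h11]
  rw [mul_div_assoc', div_le_iff₀ hr]
  have hC : 0 ≤ CN + B * Cr := by (clear * - hCN hB hCr; positivity)
  calc (1 + x) * ‖(N - N') - (N' / (r' : ℂ)) * (((r - r' : ℝ)) : ℂ)‖ ≤
        (1 + x) * ((CN + B * Cr) * ((1 + x + y) * t)) :=
        mul_le_mul_of_nonneg_left h7 (by linarith only [hx])
    _ = (CN + B * Cr) * ((1 + x) * ((1 + x + y) * t)) := by ring
    _ ≤ (CN + B * Cr) * (4 / c * t * r) := mul_le_mul_of_nonneg_left h8 hC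
    _ = 4 * (CN + B * Cr) / c * t * r := by ring

theorem Fq_conj (a b p0 p1 p2 : ℝ) (m : ℂ) :
    Fq a b p0 p1 p2 (conj m) = conj (Fq a b p0 p1 p2 m) := by
  have h : rF p0 p1 p2 (conj m) = rF p0 p1 p2 m := by
    rw [rF_eq, rF_eq, norm_conj, conj_re]
  unfold Fq
  rw [h, norm_conj]
  simp only [map_add, map_mul, conj_ofReal]

theorem Fq_circle {a b p0 p1 p2 : ℝ} {m : ℂ} (hm : ‖m‖ = 1) : Fq a b p0 p1 p2 m = m := by
  unfold Fq
  rw [hm]
  simp

theorem Fq_div {a b p0 p1 p2 : ℝ} {m : ℂ} (h : rF p0 p1 p2 m ≠ 0) : Fq a b p0 p1 p2 m =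
    (m * ((rF p0 p1 p2 m : ℝ) : ℂ) + ((1 - ‖m‖ ^ 2 : ℝ) : ℂ) * ((a : ℂ) * m + (b : ℂ))) /
      ((rF p0 p1 p2 m : ℝ) : ℂ) := by
  have h' : ((rF p0 p1 p2 m : ℝ) : ℂ) ≠ 0 := by exact_mod_cast h
  unfold Fq
  push_cast
  (clear * - h'; field_simp)

theorem quad_nonneg {A B C n x : ℝ} (hA : 0 ≤ A) (hC : 0 ≤ C) (h : B ^ 2 ≤ 4 * (A * C))
    (hn : x ^ 2 ≤ n) : 0 ≤ A * n + B * x + C := by
  have h1 : A * x ^ 2 ≤ A * n := mul_le_mul_of_nonneg_left hn hA
  rcases eq_or_lt_of_le hA with h0 | h0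
  · rw [← h0] at h h1
    have hB : B = 0 := by (clear * - h; nlinarith only [h])
    rw [hB, ← h0]
    linarith
  · have h2 : 0 ≤ 4 * A * (A * x ^ 2 + B * x + C) := by
      have e : 4 * A * (A * x ^ 2 + B * x + C) = (2 * A * x + B) ^ 2 + (4 * (A * C) - B ^ 2) := by
        ring
      rw [e]
      (clear * - h; nlinarith only [h])
    have h3 := nonneg_of_mul_nonneg_right h2 (by positivity)
    linarith

section inside

end inside

section outside

end outside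

end Pool.Agent.Helper69.EK3

end

section

namespace Pool.Agent.Helper39.Area
end Pool.Agent.Helper39.Area
namespace Pool.Agent.Helper52.EK
end Pool.Agent.Helper52.EK
namespace Pool.Agent.Helper97.EK
end Pool.Agent.Helper97.EK

set_option autoImplicit false

open Complex MeasureTheory Metric Set

open scoped Real ComplexConjugate

namespace Pool.Agent.Helper69.EK7

open Pool.Agent.Helper39.Area Pool.Agent.Helper52.EK Pool.Agent.Helper97.EK

/-- the Schwarzian derivative of `φ ζ = ζ⁻¹ + β ζ` -/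
noncomputable def Sc (β : ℂ → ℂ) (z : ℂ) : ℂ :=
  deriv (deriv (N β)) z / N β z - 3 / 2 * (deriv (N β) z / N β z) ^ 2 +
    2 / z * (deriv (N β) z / N β z)

/-- the normalised Schwarzian derivative in the radial frame -/
noncomputable def srad (β : ℂ → ℂ) (z : ℂ) : ℂ :=
  (z / ‖z‖) ^ 2 * (1 - ‖z‖ ^ 2) ^ 2 * Sc β z

/-- the Schwarzian derivative as a function of `X`, `Y = X'`, `Z = X''` and the angle -/
noncomputable def tX (X Y Z : ℂ) (s c : ℝ) : ℂ :=
  4 * (s : ℂ) ^ 2 * e0 s c * (1 / 2 - 2 * X ^ 2 + Z / X - 3 / 2 * (Y / X) ^ 2)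

theorem hasDerivAt_N1 {β : ℂ → ℂ} (h : Ext β) {z : ℂ} (hz : z ∈ ball (0 : ℂ) 1) :
    HasDerivAt (N β) (deriv (N β) z) z := (hasDerivAt_N h hz).differentiableAt.hasDerivAt

theorem N_diffOn {β : ℂ → ℂ} (h : Ext β) : DifferentiableOn ℂ (N β) (ball 0 1) := fun _ hz =>
  (hasDerivAt_N h hz).differentiableAt.differentiableWithinAt

theorem hasDerivAt_N2 {β : ℂ → ℂ} (h : Ext β) {z : ℂ} (hz : z ∈ ball (0 : ℂ) 1) :
    HasDerivAt (deriv (N β)) (deriv (deriv (N β)) z) z :=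
  (((N_diffOn h).deriv isOpen_ball).differentiableAt (isOpen_ball.mem_nhds hz)).hasDerivAt

/-- the derivative of `N'/N - 2/z` -/
theorem hasDerivAt_D {β : ℂ → ℂ} (h : Ext β) {z : ℂ} (hz : z ∈ ball (0 : ℂ) 1) (hz0 : z ≠ 0) :
    HasDerivAt (fun z => deriv (N β) z / N β z - 2 / z)
      (Sc β z + (deriv (N β) z / N β z - 2 / z) ^ 2 / 2) z := by
  have hN : N β z ≠ 0 := h.ne z hz
  have h1 := (hasDerivAt_N2 h hz).div (hasDerivAt_N1 h hz) hN
  have h2 : HasDerivAt (fun z : ℂ => 2 / z) (-(2 / z ^ 2)) z := by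
    have h3 := (hasDerivAt_inv hz0).const_mul 2
    refine (h3.congr_deriv ?_).congr_of_eventuallyEq (Filter.Eventually.of_forall fun w => ?_)
    · field_simp
    · simp only
      rw [div_eq_mul_inv]
  refine (h1.sub h2).congr_deriv ?_
  unfold Sc
  field_simp
  ring

theorem deriv2_Xf {β : ℂ → ℂ} (h : Ext β) {a : ℝ} (ha : 0 < a) (ha1 : a < 1) {ω : ℂ}
    (hω : I + Complex.exp ω ≠ 0) (hz : zf ω ∈ ball (0 : ℂ) 1) (hz0 : zf ω ≠ 0)
    (hza : zf ω ≠ (a : ℂ)) :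
    deriv (Xf β a) ω = Xf β a ω * (zf ω + zd ω * (deriv (N β) (zf ω) / N β (zf ω) - 2 / zf ω)
      - 2 * Xf β a ω) ∧
    deriv (deriv (Xf β a)) ω = Xf β a ω * ((zf ω + zd ω * (deriv (N β) (zf ω) / N β (zf ω) -
        2 / zf ω) - 2 * Xf β a ω) ^ 2 +
      (zd ω + zd ω * zf ω * (deriv (N β) (zf ω) / N β (zf ω) - 2 / zf ω) + zd ω *
        ((Sc β (zf ω) + (deriv (N β) (zf ω) / N β (zf ω) - 2 / zf ω) ^ 2 / 2) * zd ω) -
        2 * (Xf β a ω * (zf ω + zd ω * (deriv (N β) (zf ω) / N β (zf ω) - 2 / zf ω)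
      - 2 * Xf β a ω)))) := by
  have haB : (a : ℂ) ∈ ball (0 : ℂ) 1 := by
    rw [mem_ball_zero_iff, Complex.norm_real, Real.norm_of_nonneg ha.le]
    exact ha1
  have ha0 : (a : ℂ) ≠ 0 := Complex.ofReal_ne_zero.2 ha.ne'
  have hne : ∀ z : ℂ, z ∈ ball (0 : ℂ) 1 → z ≠ 0 → z ≠ (a : ℂ) →
      phi β z - phi β (a : ℂ) ≠ 0 := fun z h1 h2 h3 h4 =>
    h3 (h.inj _ _ h1 haB h2 ha0 (sub_eq_zero.1 h4))
  have hzf : ContinuousAt zf ω := (hasDerivAt_zf hω).continuousAt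
  have ev1 : ∀ᶠ v in nhds ω, I + Complex.exp v ≠ 0 :=
    (continuous_const.add Complex.continuous_exp).continuousAt.eventually_ne hω
  have ev2 : ∀ᶠ v in nhds ω, zf v ∈ ball (0 : ℂ) 1 := hzf.eventually (isOpen_ball.mem_nhds hz)
  have ev3 : ∀ᶠ v in nhds ω, zf v ≠ 0 := hzf.eventually_ne hz0
  have ev4 : ∀ᶠ v in nhds ω, zf v ≠ (a : ℂ) := hzf.eventually_ne hza
  have ev : deriv (Xf β a) =ᶠ[nhds ω] fun v => Xf β a v * (zf v + zd v *
      (deriv (N β) (zf v) / N β (zf v) - 2 / zf v) - 2 * Xf β a v) := by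
    filter_upwards [ev1, ev2, ev3, ev4] with v h1 h2 h3 h4
    exact deriv_Xf h h1 h2 h3 (hne _ h2 h3 h4)
  have e1 : deriv (Xf β a) ω = Xf β a ω * (zf ω + zd ω * (deriv (N β) (zf ω) / N β (zf ω) -
      2 / zf ω) - 2 * Xf β a ω) := ev.self_of_nhds
  refine ⟨e1, ?_⟩
  have hXd : HasDerivAt (Xf β a) (deriv (Xf β a) ω) ω := by
    have h1 := hasDerivAt_zf hω
    have h2 := hasDerivAt_zd hω
    have h3 := (hasDerivAt_dphi h hz hz0).comp ω h1
    have h4 := (hasDerivAt_phi h.diff hz hz0).comp ω h1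
    exact ((h2.mul h3).div ((h4.sub_const (phi β (a : ℂ))).const_mul 2)
      (mul_ne_zero two_ne_zero (hne _ hz hz0 hza))).differentiableAt.hasDerivAt
  have hD := (hasDerivAt_D h hz hz0).comp ω (hasDerivAt_zf hω)
  have hA := ((hasDerivAt_zf hω).add ((hasDerivAt_zd hω).mul hD)).sub (hXd.const_mul 2)
  have hF := hXd.mul hA
  rw [ev.deriv_eq]
  have e2 := hF.deriv
  refine Eq.trans e2 ?_
  simp only [Function.comp_apply, Pi.add_apply, Pi.sub_apply, Pi.mul_apply]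
  rw [e1]
  ring

/-- the bracket is the Schwarzian derivative times `zd²` -/
theorem bracket_alg {X q A z d S D : ℂ} (hX : X ≠ 0) (hA : A = z + d * D) (hq : q = A - 2 * X)
    (hz : 1 / 2 - z ^ 2 / 2 + d = 0) :
    1 / 2 - 2 * X ^ 2 + X * (q ^ 2 + (d + d * z * D + d * ((S + D ^ 2 / 2) * d) -
      2 * (X * q))) / X - 3 / 2 * (X * q / X) ^ 2 = d ^ 2 * S := by
  rw [mul_div_cancel_left₀ _ hX, mul_div_cancel_left₀ _ hX, hq, hA]
  linear_combination hz

theorem half_zf {ω : ℂ} (h : I + Complex.exp ω ≠ 0) :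
    1 / 2 - zf ω ^ 2 / 2 + zd ω = 0 := by
  unfold zf zd
  rw [add_comm (Complex.exp ω) I]
  field_simp
  ring

/-- the frames -/
theorem frame_sq (Z W y r₁ r₂ : ℂ) (hW : W = Z - 2 * y * I) (hZ : Z ≠ 0) (h1 : I + Z ≠ 0)
    (h2 : I - Z ≠ 0) (h3 : I - W ≠ 0) (hr1 : r₁ ≠ 0) (hr2 : r₂ ≠ 0) :
    ((I - Z) / (I + Z) / (r₁ / r₂)) ^ 2 * (1 - (I - Z) / (I + Z) * ((-I - W) / (-I + W))) ^ 2 =
    (r₂ / r₁ * ((I - Z) / (I - W))) ^ 2 *
      (-(4 * y ^ 2 / Z ^ 2) * (-2 * I * Z / (Z + I) ^ 2) ^ 2) := by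
  have h3' : -I + W ≠ 0 := by
    intro h
    apply h3
    linear_combination -h
  have h1' : Z + I ≠ 0 := by rwa [add_comm]
  have e1 : 1 - (I - Z) / (I + Z) * ((-I - W) / (-I + W)) = 4 * y / ((I + Z) * (-I + W)) := by
    rw [div_mul_div_comm, eq_div_iff (mul_ne_zero h1 h3'), sub_mul,
      div_mul_cancel₀ _ (mul_ne_zero h1 h3'), hW]
    linear_combination (-4 * y) * I_sq
  have e3 : (4 * y / ((I + Z) * (-I + W))) ^ 2 = (4 * y) ^ 2 / ((I + Z) ^ 2 * (I - W) ^ 2) := by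
    have e2 : (-I + W) ^ 2 = (I - W) ^ 2 := by ring
    rw [div_pow, mul_pow (I + Z), e2]
  have e4 : (-2 * I * Z / (Z + I) ^ 2) ^ 2 = -(4 * Z ^ 2) / (I + Z) ^ 4 := by
    rw [div_pow, add_comm Z I]
    congr 1
    · linear_combination (4 * Z ^ 2) * I_sq
    · ring
  rw [e1, e3, e4]
  (clear * - hZ h3 hr2 hr1 h1 h2; field_simp)

/-- `4 s² e₀ = - 4 y² / Z²` -/
theorem s2_e0 (ξ η : ℝ) : 4 * ((Real.sin η : ℝ) : ℂ) ^ 2 * e0 (Real.sin η) (Real.cos η) =
    -(4 * ((Complex.exp (pt ξ η)).im : ℂ) ^ 2 / Complex.exp (pt ξ η) ^ 2) := by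
  have hE := Complex.exp_ne_zero (pt ξ η)
  have hc : conj (Complex.exp (pt ξ η)) ≠ 0 := (map_ne_zero _).2 hE
  rw [e0_eq ξ η, exp_pt_im]
  have h1 : Complex.exp (pt ξ η) * conj (Complex.exp (pt ξ η)) = ((Real.exp ξ : ℝ) : ℂ) ^ 2 := by
    rw [Complex.mul_conj', norm_exp_pt]
  rw [Complex.ofReal_mul, mul_pow, ← h1]
  field_simp

theorem E3a3 {β : ℂ → ℂ} (h : Ext β) {a : ℝ} (ha : 0 < a) (ha1 : a < 1) {ξ η : ℝ} (h0 : 0 < η)
    (h1 : η < π) (hξ : ξ < 0) (hξ1 : Real.log (tau a) < ξ) :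
    srad β (zf (pt ξ η)) = ph (Complex.exp (pt ξ η)) ^ 2 *
      tX (Xf β a (pt ξ η)) (deriv (Xf β a) (pt ξ η)) (deriv (deriv (Xf β a)) (pt ξ η))
        (Real.sin η) (Real.cos η) := by
  have a1 := addI_ne (ξ := ξ) h0 h1
  have a2 := subI_ne (η := η) hξ
  have a3 := subconj_ne (ξ := ξ) h0 h1
  have hz := zf_mem (ξ := ξ) h0 h1
  have hz0 := zf_ne h0 h1 hξ
  have hza := zf_ne_a ha ha1 h0 h1 hξ1
  have haB : (a : ℂ) ∈ ball (0 : ℂ) 1 := by
    rw [mem_ball_zero_iff, Complex.norm_real, Real.norm_of_nonneg ha.le]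
    exact ha1
  have ha0 : (a : ℂ) ≠ 0 := Complex.ofReal_ne_zero.2 ha.ne'
  have hΔ : phi β (zf (pt ξ η)) - phi β (a : ℂ) ≠ 0 := fun h2 =>
    hza (h.inj _ _ hz haB hz0 ha0 (sub_eq_zero.1 h2))
  have hN : N β (zf (pt ξ η)) ≠ 0 := h.ne _ hz
  have hdphi : dphi β (zf (pt ξ η)) ≠ 0 := by
    rw [dphi_eq hz0]
    exact div_ne_zero (neg_ne_zero.2 hN) (pow_ne_zero 2 hz0)
  have hzd : zd (pt ξ η) ≠ 0 := by
    unfold zd
    refine div_ne_zero (mul_ne_zero (mul_ne_zero (by norm_num) Complex.I_ne_zero)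
      (Complex.exp_ne_zero _)) (pow_ne_zero 2 (by rwa [add_comm]))
  have hX : Xf β a (pt ξ η) ≠ 0 := by
    unfold Xf
    exact div_ne_zero (mul_ne_zero hzd hdphi) (mul_ne_zero two_ne_zero hΔ)
  obtain ⟨d1, d2⟩ := deriv2_Xf h ha ha1 a1 hz hz0 hza
  have hnz : (1 : ℂ) - ((‖zf (pt ξ η)‖ : ℝ) : ℂ) ^ 2 =
      1 - zf (pt ξ η) * conj (zf (pt ξ η)) := by
    rw [Complex.mul_conj']
  have hconj : conj (Complex.exp (pt ξ η)) = Complex.exp (pt ξ η) -
      2 * ((Complex.exp (pt ξ η)).im : ℂ) * I := by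
    have := Complex.sub_conj (Complex.exp (pt ξ η))
    push_cast at this
    linear_combination -this
  unfold tX
  rw [d1, d2, bracket_alg hX rfl rfl (half_zf a1), s2_e0 ξ η]
  unfold srad
  rw [hnz, norm_zf, Complex.ofReal_div]
  have h4 := frame_sq (Complex.exp (pt ξ η)) (conj (Complex.exp (pt ξ η)))
    ((Complex.exp (pt ξ η)).im : ℂ) (‖I - Complex.exp (pt ξ η)‖ : ℝ)
    (‖I + Complex.exp (pt ξ η)‖ : ℝ) hconj (Complex.exp_ne_zero _) a1 a2 a3
    (Complex.ofReal_ne_zero.2 (norm_ne_zero_iff.2 a2))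
    (Complex.ofReal_ne_zero.2 (norm_ne_zero_iff.2 a1))
  rw [conj_zf]
  obtain ⟨S, hS⟩ : ∃ S, S = Sc β (zf (pt ξ η)) := ⟨_, rfl⟩
  rw [← hS]
  unfold ph zf zd
  rw [Complex.ofReal_div]
  linear_combination S * h4

end Pool.Agent.Helper69.EK7

end

section

namespace Pool.Agent.Helper52.EK
end Pool.Agent.Helper52.EK
namespace Pool.Agent.Helper69.EK7
end Pool.Agent.Helper69.EK7

/-!
# Project EK7: identities of the field in the half angle ring

`S = sin (η/2)`, `C = cos (η/2)`, `P = S q`, `ρ = S² q'`, `σ = S (2X-1) + P`, `ω = 2S(X-1) + P`,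
`κ = S²(1-4X²) + 2ρ - P²`, `ν = κ + 3σ²`, `E = (C - iS)²`.
-/

set_option autoImplicit false

open Complex Metric Set

open scoped Real ComplexConjugate

namespace Pool.Agent.Helper20.EK7

open Pool.Agent.Helper52.EK Pool.Agent.Helper69.EK7

section alg

variable {S C : ℝ} (h : S ^ 2 + C ^ 2 = 1)

/-- `E = (C - iS)²` -/
noncomputable def En (S C : ℝ) : ℂ := ((C : ℂ) - (S : ℂ) * I) ^ 2

/-- `σ`, `ω`, `κ`, `ν` -/
noncomputable def sgm (S : ℝ) (X P : ℂ) : ℂ := (S : ℂ) * (2 * X - 1) + P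

theorem En_eq (S C : ℝ) : En S C = ((C ^ 2 - S ^ 2 : ℝ) : ℂ) - ((2 * S * C : ℝ) : ℂ) * I := by
  unfold En
  push_cast
  linear_combination (S : ℂ) ^ 2 * I_sq

include h in
theorem hc : (S : ℂ) ^ 2 + (C : ℂ) ^ 2 = 1 := by exact_mod_cast h

include h in
theorem norm_En : ‖En S C‖ = 1 := by
  unfold En
  rw [norm_pow, ← normSq_eq_norm_sq, normSq_apply]
  simp only [sub_re, sub_im, mul_re, mul_im, ofReal_re, ofReal_im, I_re, I_im]
  linarith only [h]

theorem e0_En (S C : ℝ) : e0 (2 * S * C) (C ^ 2 - S ^ 2) = -(En S C) ^ 2 := by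
  unfold e0
  rw [En_eq]

include h in
theorem one_add_e0 : 1 + e0 (2 * S * C) (C ^ 2 - S ^ 2) = 4 * I * S * C * En S C := by
  have h1 := hc h
  rw [e0_En]
  unfold En
  have h2 : (1:ℂ) = ((S : ℂ) ^ 2 + (C : ℂ) ^ 2) ^ 2 := by rw [h1, one_pow]
  rw [h2]
  linear_combination (-(S : ℂ) ^ 4 * I ^ 2 + S ^ 4 + 2 * (S : ℂ) ^ 2 * C ^ 2) * I_sq

include h in
theorem ring_p {X Y P : ℂ} (hP : P = S * (Y / X)) :
    mX X Y (2 * S * C) (C ^ 2 - S ^ 2) + 1 = 4 * I * C * En S C * sgm S X P := by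
  unfold mX sgm
  rw [one_add_e0 h, hP]
  ring

include h in
theorem ring_m {X Y P : ℂ} (hP : P = S * (Y / X)) :
    mX X Y (2 * S * C) (C ^ 2 - S ^ 2) = 4 * I * C * En S C * sgm S X P - 1 := by
  rw [← ring_p h hP]
  ring

end alg

end Pool.Agent.Helper20.EK7

end

section

namespace Pool.Agent.Helper39.Area
end Pool.Agent.Helper39.Area
namespace Pool.Agent.Helper52.EK
end Pool.Agent.Helper52.EK
namespace Pool.Agent.Helper9.EK
end Pool.Agent.Helper9.EK

set_option autoImplicit false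

open Complex MeasureTheory Metric Set

open scoped Real ComplexConjugate

namespace Pool.Agent.Helper61.EK

open Pool.Agent.Helper39.Area Pool.Agent.Helper52.EK Pool.Agent.Helper9.EK

/-- If `Kf w (e^(iα)) ≤ V α + C₂` for all `α`, then the mean of `exp (-V)` is at most
`exp (C₁ + C₂) (1 - a²)`, `C₁` the constant of the entropy inequality. -/
theorem gibbs_core {C₁ : ℝ}
    (hE : ∀ (ρ : ℝ → ℝ) (w : ℂ → ℂ) (a : ℝ), Dens ρ →
      ContinuousOn w {z | 0 < ‖z‖ ∧ ‖z‖ < 1} → Real.exp (-1) < a → a < 1 →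
      -Real.log (1 - a ^ 2) - C₁ ≤ (2 * π)⁻¹ * (∫ α in (0:ℝ)..(2 * π), ρ α * Real.log (ρ α)) +
        (2 * π)⁻¹ * ∫ α in (0:ℝ)..(2 * π), ρ α * Kf w (Complex.exp (α * I)) (-1) (Real.log a))
    (hKc : KfContStmt) {w : ℂ → ℂ} (hw : ContinuousOn w {z | 0 < ‖z‖ ∧ ‖z‖ < 1})
    {a : ℝ} (hae : Real.exp (-1) < a) (ha1 : a < 1)
    {V : ℝ → ℝ} (hVc : Continuous V) (hVp : Function.Periodic V (2 * π)) {C₂ : ℝ}
    (hK : ∀ α : ℝ, Kf w (Complex.exp (α * I)) (-1) (Real.log a) ≤ V α + C₂) :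
    (2 * π)⁻¹ * (∫ α in (0:ℝ)..(2 * π), Real.exp (-V α)) ≤ Real.exp (C₁ + C₂) * (1 - a ^ 2) := by
  have hap : 0 < a := (Real.exp_pos _).trans hae
  have h2π : (0:ℝ) < 2 * π := by positivity
  have hs : 0 < 1 - a ^ 2 := by nlinarith
  set g : ℝ → ℝ := fun α => Real.exp (-V α) with hg
  have hgc : Continuous g := Real.continuous_exp.comp hVc.neg
  have hgp : ∀ α, 0 < g α := fun α => Real.exp_pos _
  have hI : 0 < ∫ α in (0:ℝ)..(2 * π), g α :=
    intervalIntegral.intervalIntegral_pos_of_pos (hgc.intervalIntegrable _ _) hgp h2π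
  set M : ℝ := (2 * π)⁻¹ * (∫ α in (0:ℝ)..(2 * π), g α) with hM
  have hMp : 0 < M := mul_pos (inv_pos.mpr h2π) hI
  set ρ : ℝ → ℝ := fun α => M⁻¹ * g α with hρ
  have hρc : Continuous ρ := continuous_const.mul hgc
  have hρp : ∀ α, 0 < ρ α := fun α => mul_pos (inv_pos.mpr hMp) (hgp α)
  have hone : ∫ α in (0:ℝ)..(2 * π), ρ α = 2 * π := by
    simp only [hρ]
    rw [intervalIntegral.integral_const_mul]
    rw [hM]
    (clear * - hI; field_simp)
  have hdens : Dens ρ := by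
    refine ⟨hρc, hρp, ?_, hone⟩
    intro α
    simp only [hρ, hg]
    rw [hVp α]
  have hlog1 : -1 < Real.log a := (Real.lt_log_iff_exp_lt hap).mpr hae
  have hlog2 : Real.log a < 0 := Real.log_neg hap ha1
  have hmain := hE ρ w a hdens hw hae ha1
  have hlogρ : ∀ α, Real.log (ρ α) = -V α - Real.log M := by
    intro α
    simp only [hρ, hg]
    rw [Real.log_mul (inv_pos.mpr hMp).ne' (hgp α).ne', Real.log_inv, Real.log_exp]
    ring
  have hi1 : IntervalIntegrable (fun α => ρ α * Real.log (ρ α)) volume 0 (2 * π) :=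
    (hρc.mul (hρc.log fun α => (hρp α).ne')).intervalIntegrable _ _
  have hi2 : IntervalIntegrable
      (fun α => ρ α * Kf w (Complex.exp (α * I)) (-1) (Real.log a)) volume 0 (2 * π) :=
    (hρc.mul (hKc hw hlog1 hlog2)).intervalIntegrable _ _
  have hsum : (∫ α in (0:ℝ)..(2 * π), ρ α * Real.log (ρ α)) +
      (∫ α in (0:ℝ)..(2 * π), ρ α * Kf w (Complex.exp (α * I)) (-1) (Real.log a)) ≤
      (2 * π) * (-Real.log M + C₂) := by
    rw [← intervalIntegral.integral_add hi1 hi2]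
    have hle : (∫ α in (0:ℝ)..(2 * π), (ρ α * Real.log (ρ α) +
        ρ α * Kf w (Complex.exp (α * I)) (-1) (Real.log a))) ≤
        ∫ α in (0:ℝ)..(2 * π), ρ α * (-Real.log M + C₂) := by
      apply intervalIntegral.integral_mono_on h2π.le (hi1.add hi2)
        ((hρc.mul continuous_const).intervalIntegrable _ _)
      intro α _
      have h1 := mul_le_mul_of_nonneg_left (hK α) (hρp α).le
      show ρ α * Real.log (ρ α) + ρ α * Kf w (Complex.exp (α * I)) (-1) (Real.log a) ≤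
        ρ α * (-Real.log M + C₂)
      rw [hlogρ α]
      linarith only [h1]
    rw [intervalIntegral.integral_mul_const, hone] at hle
    exact hle
  have hsum2 := mul_le_mul_of_nonneg_left hsum (inv_pos.mpr h2π).le
  rw [mul_add, ← mul_assoc, inv_mul_cancel₀ h2π.ne', one_mul] at hsum2
  have hlogM : Real.log M ≤ (C₁ + C₂) + Real.log (1 - a ^ 2) := by linarith only [hmain, hsum2]
  have h2 : M ≤ Real.exp ((C₁ + C₂) + Real.log (1 - a ^ 2)) :=
    (Real.log_le_iff_le_exp hMp).mp hlogM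
  rw [Real.exp_add, Real.exp_log hs] at h2
  exact h2

end Pool.Agent.Helper61.EK

end

section

namespace Pool.Agent.Helper39.Area
end Pool.Agent.Helper39.Area
namespace Pool.Agent.Helper22.Marshall
end Pool.Agent.Helper22.Marshall

/-!
# The area theorem for the second coefficient
-/

set_option autoImplicit false

open Complex Metric Set Filter Topology

open scoped Real ComplexConjugate

namespace Pool.Agent.Helper20.Kraus

open Pool.Agent.Helper39.Area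

open Pool.Agent.Helper22.Marshall (coeff)

variable {k : ℂ → ℂ}

theorem phi_dslope (hk0 : k 0 = 1) {u : ℂ} (hu : u ≠ 0) :
    phi (dslope k 0) u = k u / u := by
  unfold phi
  rw [dslope_of_ne _ hu, slope_def_field, hk0, sub_zero]
  field_simp
  ring

theorem ext_of_k (hk : DifferentiableOn ℂ k (ball 0 1)) (hk0 : k 0 = 1)
    (hinj : ∀ u ∈ ball (0:ℂ) 1, ∀ v ∈ ball (0:ℂ) 1, u ≠ 0 → v ≠ 0 → k u / u = k v / v → u = v) :
    Ext (dslope k 0) := by
  have hb0 : ball (0:ℂ) 1 ∈ 𝓝 (0:ℂ) := ball_mem_nhds 0 one_pos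
  have hd : DifferentiableOn ℂ (dslope k 0) (ball 0 1) :=
    (Complex.differentiableOn_dslope hb0).mpr hk
  refine ⟨hd, ?_, ?_⟩
  · intro ζ ω hζ hω h1 h2 h
    have e1 := phi_dslope hk0 h1
    have e2 := phi_dslope hk0 h2
    unfold phi at e1 e2
    rw [e1, e2] at h
    exact hinj ζ hζ ω hω h1 h2 h
  · intro ζ hζ
    by_cases h0 : ζ = 0
    · subst h0
      simp
    · have hopen : IsOpen (ball (0:ℂ) 1 ∩ {0}ᶜ) := isOpen_ball.inter isOpen_compl_singleton
      have hdp : DifferentiableOn ℂ (phi (dslope k 0)) (ball (0:ℂ) 1 ∩ {0}ᶜ) := by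
        intro w hw
        exact (hasDerivAt_phi hd hw.1 hw.2).differentiableAt.differentiableWithinAt
      have hip : InjOn (phi (dslope k 0)) (ball (0:ℂ) 1 ∩ {0}ᶜ) := by
        intro u hu v hv huv
        rw [phi_dslope hk0 hu.2, phi_dslope hk0 hv.2] at huv
        exact hinj u hu.1 v hv.1 hu.2 hv.2 huv
      have hne := Pool.Agent.Helper24.Br.deriv_ne_of_inj hopen hdp hip ⟨hζ, h0⟩
      rw [(hasDerivAt_phi hd hζ h0).deriv] at hne
      intro hc
      apply hne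
      unfold dphi
      have : (ζ ^ 2)⁻¹ * (1 - ζ ^ 2 * deriv (dslope k 0) ζ) = 0 := by rw [hc, mul_zero]
      have hz2 : ζ ^ 2 ≠ 0 := pow_ne_zero _ h0
      rw [mul_sub, mul_one, inv_mul_cancel_left₀ hz2] at this
      linear_combination -this

/-- the area theorem -/
theorem area_k (hk : DifferentiableOn ℂ k (ball 0 1)) (hk0 : k 0 = 1)
    (hinj : ∀ u ∈ ball (0:ℂ) 1, ∀ v ∈ ball (0:ℂ) 1, u ≠ 0 → v ≠ 0 → k u / u = k v / v → u = v) :
    ‖deriv (deriv k) 0‖ ≤ 2 := by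
  have hE := ext_of_k hk hk0 hinj
  have hv : ∀ ζ : ℂ, ζ ≠ 0 → ‖ζ‖ < 1 → HasSum (fun m => coeff k m * ζ ^ m)
      (ζ ^ 1 * (Polynomial.X : Polynomial ℂ).eval (phi (dslope k 0) ζ)) := by
    intro ζ h0 hζ
    have e1 : ζ ^ 1 * (Polynomial.X : Polynomial ℂ).eval (phi (dslope k 0) ζ) = k ζ := by
      rw [Polynomial.eval_X, phi_dslope hk0 h0]
      field_simp
    rw [e1]
    exact Pool.Agent.Helper22.Marshall.hasSum_coeff hk hζ
  have hA := Pool.Agent.Helper22.Marshall.gLe_one hE 1 Polynomial.X _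
    (by rw [Polynomial.natDegree_X]) hv 3
  simp only [Finset.sum_range_succ, Finset.sum_range_zero, zero_add] at hA
  norm_num at hA
  rw [Pool.Agent.Helper22.Marshall.coeff_zero, hk0] at hA
  have h2 : coeff k 2 = deriv (deriv k) 0 / 2 := by
    unfold Pool.Agent.Helper22.Marshall.coeff
    rw [iteratedDeriv_succ, iteratedDeriv_one]
    simp [Nat.factorial]
    ring
  rw [h2, norm_div] at hA
  have h3 : ‖(2:ℂ)‖ = 2 := by simp
  rw [h3, norm_one] at hA
  have h4 := norm_nonneg (deriv (deriv k) 0)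
  (clear * - hA; nlinarith only [hA])

end Pool.Agent.Helper20.Kraus

end

section

namespace Pool.Agent.Helper39.Area
end Pool.Agent.Helper39.Area
namespace Pool.Agent.Helper52.EK
end Pool.Agent.Helper52.EK

/-!
# The inequality of Kraus for the Schwarzian derivative
-/

set_option autoImplicit false

open Complex Metric Set Filter Topology

open scoped Real ComplexConjugate

namespace Pool.Agent.Helper20.Kraus

open Pool.Agent.Helper39.Area

open Pool.Agent.Helper52.EK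

variable {β : ℂ → ℂ}

/-- the automorphism of the disc -/
noncomputable def T (z u : ℂ) : ℂ := (u + z) / (1 + conj z * u)

theorem den_ne {z u : ℂ} (hz : ‖z‖ < 1) (hu : ‖u‖ < 1) : 1 + conj z * u ≠ 0 := by
  intro h
  have h1 : conj z * u = -1 := by linear_combination h
  have h2 := congrArg (fun w : ℂ => ‖w‖) h1
  simp only [norm_mul, RCLike.norm_conj, norm_neg, norm_one] at h2
  (clear * - hu h2 hz; nlinarith only [norm_nonneg u, hz, hu, h2])

theorem T_mem {z u : ℂ} (hz : ‖z‖ < 1) (hu : ‖u‖ < 1) : T z u ∈ ball (0:ℂ) 1 := by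
  have hd := den_ne hz hu
  rw [mem_ball_zero_iff, T, norm_div, div_lt_one (norm_pos_iff.mpr hd)]
  refine lt_of_pow_lt_pow_left₀ 2 (norm_nonneg _) ?_
  have h1 : ‖z‖ ^ 2 < 1 := by (clear * - hz; nlinarith only [norm_nonneg z, hz])
  have h2 : ‖u‖ ^ 2 < 1 := by (clear * - hu; nlinarith only [norm_nonneg u, hu])
  rw [← Complex.normSq_eq_norm_sq, Complex.normSq_apply] at h1 h2
  rw [← Complex.normSq_eq_norm_sq, ← Complex.normSq_eq_norm_sq, Complex.normSq_apply,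
    Complex.normSq_apply]
  simp only [add_re, add_im, mul_re, mul_im, one_re, one_im, conj_re, conj_im]
  (clear * - h1 h2; nlinarith only [h1, h2])

theorem T_hasDerivAt {z u : ℂ} (hz : ‖z‖ < 1) (hu : ‖u‖ < 1) :
    HasDerivAt (T z) ((1 - (‖z‖ : ℂ) ^ 2) / (1 + conj z * u) ^ 2) u := by
  have hd := den_ne hz hu
  have h1 : HasDerivAt (fun u : ℂ => u + z) 1 u := (hasDerivAt_id u).add_const z
  have h2 : HasDerivAt (fun u : ℂ => 1 + conj z * u) (conj z) u := by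
    simpa using ((hasDerivAt_id u).const_mul (conj z)).const_add 1
  have h3 := h1.div h2 hd
  have e : (1 * (1 + conj z * u) - (u + z) * conj z) / (1 + conj z * u) ^ 2 =
      (1 - (‖z‖ : ℂ) ^ 2) / (1 + conj z * u) ^ 2 := by
    congr 1
    rw [← Complex.mul_conj']
    ring
  rw [e] at h3
  exact h3

theorem T_zero (z : ℂ) : T z 0 = z := by simp [T]

theorem T_inj {z u v : ℂ} (hz : ‖z‖ < 1) (hu : ‖u‖ < 1) (hv : ‖v‖ < 1) (h : T z u = T z v) :
    u = v := by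
  have h1 := den_ne hz hu
  have h2 := den_ne hz hv
  unfold T at h
  rw [div_eq_div_iff h1 h2] at h
  have h3 : (u - v) * (1 - z * conj z) = 0 := by linear_combination h
  rcases mul_eq_zero.1 h3 with h4 | h4
  · exact sub_eq_zero.1 h4
  · exfalso
    rw [Complex.mul_conj'] at h4
    have h5 : ((1 - ‖z‖ ^ 2 : ℝ) : ℂ) = 0 := by
      push_cast
      exact h4
    have h6 : 1 - ‖z‖ ^ 2 = 0 := by exact_mod_cast h5
    nlinarith only [norm_nonneg z, hz, h6]

/-- the function with `k u / u = c / (φ (T u) - φ z)` -/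
noncomputable def kk (β : ℂ → ℂ) (z u : ℂ) : ℂ :=
  (u + z) / z * (N β z / qq β z (T z u))

theorem qq_self (z : ℂ) : qq β z z = N β z := by
  unfold qq N
  rw [dslope_same]
  ring

theorem kk_zero (h : Ext β) {z : ℂ} (hz : ‖z‖ < 1) (hz0 : z ≠ 0) : kk β z 0 = 1 := by
  have h1 : qq β z z ≠ 0 := qq_ne h (mem_ball_zero_iff.mpr hz) (mem_ball_zero_iff.mpr hz)
  rw [qq_self] at h1
  rw [kk, T_zero, qq_self, zero_add, div_self hz0, div_self h1, mul_one]

theorem kk_diff (h : Ext β) {z : ℂ} (hz : ‖z‖ < 1) : DifferentiableOn ℂ (kk β z) (ball 0 1) := by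
  have hzb : z ∈ ball (0:ℂ) 1 := mem_ball_zero_iff.mpr hz
  have hT : DifferentiableOn ℂ (T z) (ball 0 1) := fun u hu =>
    (T_hasDerivAt hz (mem_ball_zero_iff.mp hu)).differentiableAt.differentiableWithinAt
  have hm : MapsTo (T z) (ball 0 1) (ball 0 1) := fun u hu => T_mem hz (mem_ball_zero_iff.mp hu)
  have h1 : DifferentiableOn ℂ (fun u => qq β z (T z u)) (ball 0 1) := (qq_diff h.diff hzb).comp hT hm
  have h2 : DifferentiableOn ℂ (fun u : ℂ => (u + z) / z) (ball 0 1) := by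
    apply DifferentiableOn.div_const
    fun_prop
  exact h2.mul ((differentiableOn_const _).div h1 fun u hu => qq_ne h hzb (hm hu))

theorem z_sub_T {z u : ℂ} (hz : ‖z‖ < 1) (hu : ‖u‖ < 1) :
    z - T z u = -(u * (1 - (‖z‖ : ℂ) ^ 2)) / (1 + conj z * u) := by
  have hd := den_ne hz hu
  rw [T, eq_div_iff hd, sub_mul, div_mul_cancel₀ _ hd, ← Complex.mul_conj']
  ring

theorem one_sub_ne {z : ℂ} (hz : ‖z‖ < 1) : (1 - (‖z‖ : ℂ) ^ 2) ≠ 0 := by
  intro h4
  have h5 : ((1 - ‖z‖ ^ 2 : ℝ) : ℂ) = 0 := by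
    push_cast
    exact h4
  have h6 : 1 - ‖z‖ ^ 2 = 0 := by exact_mod_cast h5
  nlinarith only [norm_nonneg z, hz, h6]

/-- the relation between `kk` and `φ` -/
theorem kk_phi (h : Ext β) {z u : ℂ} (hz : ‖z‖ < 1) (hz0 : z ≠ 0) (hu : ‖u‖ < 1)
    (hT : T z u ≠ 0) :
    kk β z u * (phi β (T z u) - phi β z) = -(N β z * (1 - (‖z‖ : ℂ) ^ 2) / z ^ 2) * u := by
  have hzb : z ∈ ball (0:ℂ) 1 := mem_ball_zero_iff.mpr hz
  have hd := den_ne hz hu
  have hq : qq β z (T z u) ≠ 0 := qq_ne h hzb (T_mem hz hu)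
  have hs := z_sub_T hz hu
  rw [phi_sub z (T z u) hz0 hT]
  have e1 : (T z u)⁻¹ - z⁻¹ = (z - T z u) / (T z u * z) := by
    (clear * - hz0 hT; field_simp)
  have e2 : u + z = T z u * (1 + conj z * u) := by
    rw [T, div_mul_cancel₀ _ hd]
  rw [kk, e1, hs, e2]
  field_simp

theorem kk_inj (h : Ext β) {z : ℂ} (hz : ‖z‖ < 1) (hz0 : z ≠ 0) :
    ∀ u ∈ ball (0:ℂ) 1, ∀ v ∈ ball (0:ℂ) 1, u ≠ 0 → v ≠ 0 → kk β z u / u = kk β z v / v → u = v := by
  have hzb : z ∈ ball (0:ℂ) 1 := mem_ball_zero_iff.mpr hz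
  have hN : N β z ≠ 0 := by
    rw [← qq_self]
    exact qq_ne h hzb hzb
  have hkz : ∀ u ∈ ball (0:ℂ) 1, kk β z u = 0 → u = -z := by
    intro u hu h0
    have hq : qq β z (T z u) ≠ 0 := qq_ne h hzb (T_mem hz (mem_ball_zero_iff.mp hu))
    rw [kk] at h0
    rcases mul_eq_zero.1 h0 with h1 | h1
    · rcases div_eq_zero_iff.1 h1 with h2 | h2
      · linear_combination h2
      · exact absurd h2 hz0
    · exact absurd h1 (div_ne_zero hN hq)
  have hTz : ∀ u ∈ ball (0:ℂ) 1, T z u = 0 → u = -z := by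
    intro u hu h0
    rw [T] at h0
    rcases div_eq_zero_iff.1 h0 with h2 | h2
    · linear_combination h2
    · exact absurd h2 (den_ne hz (mem_ball_zero_iff.mp hu))
  have hk0 : kk β z (-z) = 0 := by
    rw [kk, neg_add_cancel, zero_div, zero_mul]
  intro u hu v hv hu0 hv0 huv
  by_cases h1 : u = -z
  · rw [h1, hk0, zero_div] at huv
    have h2 : kk β z v = 0 := by
      rcases div_eq_zero_iff.1 huv.symm with h3 | h3
      · exact h3
      · exact absurd h3 hv0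
    rw [h1, hkz v hv h2]
  by_cases h2 : v = -z
  · rw [h2, hk0, zero_div] at huv
    have h3 : kk β z u = 0 := by
      rcases div_eq_zero_iff.1 huv with h3 | h3
      · exact h3
      · exact absurd h3 hu0
    exact absurd (hkz u hu h3) h1
  have hun := mem_ball_zero_iff.mp hu
  have hvn := mem_ball_zero_iff.mp hv
  have hTu : T z u ≠ 0 := fun h0 => h1 (hTz u hu h0)
  have hTv : T z v ≠ 0 := fun h0 => h2 (hTz v hv h0)
  have e1 := kk_phi h hz hz0 hun hTu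
  have e2 := kk_phi h hz hz0 hvn hTv
  set c : ℂ := -(N β z * (1 - (‖z‖ : ℂ) ^ 2) / z ^ 2) with hc
  have hc0 : c ≠ 0 :=
    neg_ne_zero.mpr (div_ne_zero (mul_ne_zero hN (one_sub_ne hz)) (pow_ne_zero _ hz0))
  have hku : kk β z u ≠ 0 := fun h0 => h1 (hkz u hu h0)
  have hkv : kk β z v ≠ 0 := fun h0 => h2 (hkz v hv h0)
  have e3 : phi β (T z u) - phi β z = c * (u / kk β z u) := by
    field_simp
    linear_combination e1
  have e4 : phi β (T z v) - phi β z = c * (v / kk β z v) := by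
    field_simp
    linear_combination e2
  have e5 : u / kk β z u = v / kk β z v := by
    rw [← inv_div, ← inv_div (kk β z v), huv]
  have e6 : phi β (T z u) = phi β (T z v) := by
    rw [← sub_left_inj (a := phi β z), e3, e4, e5]
  exact T_inj hz hun hvn (h.inj _ _ (T_mem hz hun) (T_mem hz hvn) hTu hTv e6)

/-- the area theorem for the Koebe transform -/
theorem kk_area (h : Ext β) {z : ℂ} (hz : ‖z‖ < 1) (hz0 : z ≠ 0) :
    ‖deriv (deriv (kk β z)) 0‖ ≤ 2 :=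
  area_k (kk_diff h hz) (kk_zero h hz hz0) (kk_inj h hz hz0)

end Pool.Agent.Helper20.Kraus

end

section

namespace Pool.Agent.Helper39.Area
end Pool.Agent.Helper39.Area
namespace Pool.Agent.Helper52.EK
end Pool.Agent.Helper52.EK

/-!
# The inequality of Kraus for the Schwarzian derivative: main statement

`N β z = ψ'(1/z)` and `φ' = -N/z²`, so that the Schwarzian derivative of `φ` is
`S_φ = (N'/N)' - (1/2)(N'/N)² + (2/z)(N'/N)`.
-/

set_option autoImplicit false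

open Complex Metric Set Filter Topology

open scoped Real ComplexConjugate

namespace Pool.Agent.Helper20.Kraus

open Pool.Agent.Helper39.Area

open Pool.Agent.Helper52.EK

variable {β : ℂ → ℂ}

/-- the Schwarzian derivative of `φ` away from the origin, in terms of `N` -/
noncomputable def SN (β : ℂ → ℂ) (z : ℂ) : ℂ :=
  deriv (deriv (N β)) z / N β z - 3 / 2 * (deriv (N β) z / N β z) ^ 2
    + 2 / z * (deriv (N β) z / N β z)

theorem N_diff (h : Ext β) : DifferentiableOn ℂ (N β) (ball 0 1) := by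
  unfold N
  have h1 : DifferentiableOn ℂ (deriv β) (ball 0 1) := h.diff.deriv isOpen_ball
  have h2 : DifferentiableOn ℂ (fun z : ℂ => z ^ 2) (ball 0 1) := by fun_prop
  exact (differentiableOn_const _).sub (h2.mul h1)

theorem N_ne (h : Ext β) {z : ℂ} (hz : ‖z‖ < 1) : N β z ≠ 0 := h.ne z (mem_ball_zero_iff.mpr hz)

/-- the function `N` along the automorphism -/
theorem M_hasDerivAt (h : Ext β) {z u : ℂ} (hz : ‖z‖ < 1) (hu : ‖u‖ < 1) :
    HasDerivAt (fun u => N β (T z u))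
      (deriv (N β) (T z u) * ((1 - (‖z‖ : ℂ) ^ 2) / (1 + conj z * u) ^ 2)) u := by
  have hT := T_mem hz hu
  have h1 : HasDerivAt (N β) (deriv (N β) (T z u)) (T z u) :=
    ((N_diff h).differentiableAt (isOpen_ball.mem_nhds hT)).hasDerivAt
  exact h1.comp u (T_hasDerivAt hz hu)

theorem M1_hasDerivAt (h : Ext β) {z : ℂ} (hz : ‖z‖ < 1) :
    HasDerivAt (fun u => deriv (N β) (T z u) * ((1 - (‖z‖ : ℂ) ^ 2) / (1 + conj z * u) ^ 2))
      (deriv (deriv (N β)) z * (1 - (‖z‖ : ℂ) ^ 2) ^ 2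
        - 2 * conj z * deriv (N β) z * (1 - (‖z‖ : ℂ) ^ 2)) 0 := by
  have h0 : ‖(0:ℂ)‖ < 1 := by simp
  have hzb : z ∈ ball (0:ℂ) 1 := mem_ball_zero_iff.mpr hz
  have h1 : HasDerivAt (deriv (N β)) (deriv (deriv (N β)) z) (T z 0) := by
    rw [T_zero]
    exact (((N_diff h).deriv isOpen_ball).differentiableAt (isOpen_ball.mem_nhds hzb)).hasDerivAt
  have h2 := h1.comp (0:ℂ) (T_hasDerivAt hz h0)
  have h3 : HasDerivAt (fun u : ℂ => (1 + conj z * u) ^ 2)
      (2 * (1 + conj z * 0) ^ 1 * (conj z)) 0 := by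
    have h4 : HasDerivAt (fun u : ℂ => 1 + conj z * u) (conj z) 0 := by
      simpa using ((hasDerivAt_id (0:ℂ)).const_mul (conj z)).const_add 1
    exact h4.pow 2
  have h5 : HasDerivAt (fun u : ℂ => (1 - (‖z‖ : ℂ) ^ 2) / (1 + conj z * u) ^ 2)
      ((0 * (1 + conj z * 0) ^ 2 - (1 - (‖z‖ : ℂ) ^ 2) * (2 * (1 + conj z * 0) ^ 1 * (conj z))) /
        ((1 + conj z * 0) ^ 2) ^ 2) 0 :=
    (hasDerivAt_const (0:ℂ) (1 - (‖z‖ : ℂ) ^ 2)).div h3 (by simp)
  have h6 := h2.mul h5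
  have e : deriv (deriv (N β)) z * ((1 - (‖z‖ : ℂ) ^ 2) / (1 + conj z * 0) ^ 2) *
        ((1 - (‖z‖ : ℂ) ^ 2) / (1 + conj z * 0) ^ 2) +
      (deriv (N β) ∘ T z) 0 * ((0 * (1 + conj z * 0) ^ 2 - (1 - (‖z‖ : ℂ) ^ 2) *
        (2 * (1 + conj z * 0) ^ 1 * (conj z))) / ((1 + conj z * 0) ^ 2) ^ 2) =
      deriv (deriv (N β)) z * (1 - (‖z‖ : ℂ) ^ 2) ^ 2
        - 2 * conj z * deriv (N β) z * (1 - (‖z‖ : ℂ) ^ 2) := by
    rw [Function.comp_apply, T_zero]
    simp only [mul_zero, add_zero, one_pow, div_one]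
    ring
  rw [e] at h6
  exact h6

/-- the differential equation of `kk` -/
theorem kk_ode (h : Ext β) {z u : ℂ} (hz : ‖z‖ < 1) (hz0 : z ≠ 0) (hu : ‖u‖ < ‖z‖) :
    z ^ 2 * (N β (T z u) * kk β z u ^ 2) =
      N β z * ((kk β z u - u * deriv (kk β z) u) * (u + z) ^ 2) := by
  have hb : ball (0:ℂ) ‖z‖ ∈ 𝓝 u := isOpen_ball.mem_nhds (mem_ball_zero_iff.mpr hu)
  have hu1 : ‖u‖ < 1 := hu.trans hz
  have hub : u ∈ ball (0:ℂ) 1 := mem_ball_zero_iff.mpr hu1
  have hne : ∀ v : ℂ, ‖v‖ < ‖z‖ → v + z ≠ 0 := by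
    intro v hv h0
    have h1 : v = -z := by linear_combination h0
    rw [h1, norm_neg] at hv
    exact lt_irrefl _ hv
  have hTne : ∀ v : ℂ, ‖v‖ < ‖z‖ → T z v ≠ 0 := by
    intro v hv
    exact div_ne_zero (hne v hv) (den_ne hz (hv.trans hz))
  have hd := den_ne hz hu1
  -- derivative of `φ ∘ T`
  have hT := T_mem hz hu1
  have hA : HasDerivAt (fun v => phi β (T z v) - phi β z)
      (dphi β (T z u) * ((1 - (‖z‖ : ℂ) ^ 2) / (1 + conj z * u) ^ 2)) u :=
    ((hasDerivAt_phi h.diff hT (hTne u hu)).comp u (T_hasDerivAt hz hu1)).sub_const _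
  have hk : HasDerivAt (kk β z) (deriv (kk β z) u) u :=
    ((kk_diff h hz).differentiableAt (isOpen_ball.mem_nhds hub)).hasDerivAt
  have h1 := hk.mul hA
  set c : ℂ := -(N β z * (1 - (‖z‖ : ℂ) ^ 2) / z ^ 2) with hc
  have h2 : HasDerivAt (fun v : ℂ => c * v) c u := by
    simpa using (hasDerivAt_id u).const_mul c
  have h3 : (fun v : ℂ => c * v) =ᶠ[𝓝 u] fun v => kk β z v * (phi β (T z v) - phi β z) := by
    filter_upwards [hb] with v hv
    have hv' := mem_ball_zero_iff.mp hv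
    exact (kk_phi h hz hz0 (hv'.trans hz) (hTne v hv')).symm
  have h4 : deriv (kk β z) u * (phi β (T z u) - phi β z) +
      kk β z u * (dphi β (T z u) * ((1 - (‖z‖ : ℂ) ^ 2) / (1 + conj z * u) ^ 2)) = c :=
    HasDerivAt.unique h1 (h2.congr_of_eventuallyEq h3.symm)
  have h5 := kk_phi h hz hz0 hu1 (hTne u hu)
  rw [← hc] at h5
  have h6 : dphi β (T z u) * ((1 - (‖z‖ : ℂ) ^ 2) / (1 + conj z * u) ^ 2) =
      -((1 - (‖z‖ : ℂ) ^ 2) * N β (T z u)) / (u + z) ^ 2 := by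
    have e1 : u + z = T z u * (1 + conj z * u) := by
      rw [T, div_mul_cancel₀ _ hd]
    have e2 : dphi β (T z u) = -N β (T z u) / (T z u) ^ 2 := by
      have := hTne u hu
      unfold dphi N
      field_simp
      ring
    rw [e2, e1]
    have := hTne u hu
    (clear * - hd this; field_simp)
  rw [h6] at h4
  have h7 : c * (kk β z u - u * deriv (kk β z) u) =
      kk β z u ^ 2 * (-((1 - (‖z‖ : ℂ) ^ 2) * N β (T z u)) / (u + z) ^ 2) := by
    linear_combination (-kk β z u) * h4 + deriv (kk β z) u * h5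
  have hn := hne u hu
  have ht := one_sub_ne hz
  rw [hc] at h7
  field_simp at h7
  linear_combination h7

end Pool.Agent.Helper20.Kraus

end

section

namespace Pool.Agent.Helper39.Area
end Pool.Agent.Helper39.Area
namespace Pool.Agent.Helper52.EK
end Pool.Agent.Helper52.EK

/-!
# The inequality of Kraus for the Schwarzian derivative: conclusion

`kraus`: `(1 - |z|²)² |S_φ(z)| ≤ 6` for `0 < |z| < 1`, with
`S_φ = N''/N - (3/2)(N'/N)² + (2/z)(N'/N)`.
-/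

set_option autoImplicit false

open Complex Metric Set Filter Topology

open scoped Real ComplexConjugate

namespace Pool.Agent.Helper20.Kraus

open Pool.Agent.Helper39.Area

open Pool.Agent.Helper52.EK

variable {β : ℂ → ℂ}

/-- the Schwarzian derivative as a coefficient of the Koebe transform -/
theorem kk_SN (h : Ext β) {z : ℂ} (hz : ‖z‖ < 1) (hz0 : z ≠ 0) :
    (1 - (‖z‖ : ℂ) ^ 2) ^ 2 * SN β z = -3 * deriv (deriv (kk β z)) 0 := by
  have hzp : 0 < ‖z‖ := norm_pos_iff.mpr hz0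
  have hN0 := N_ne h hz
  have hb0 : ball (0:ℂ) ‖z‖ ∈ 𝓝 (0:ℂ) := ball_mem_nhds 0 hzp
  have h01 : ‖(0:ℂ)‖ < 1 := by simp
  have hkd := kk_diff h hz
  have hk1d : DifferentiableOn ℂ (deriv (kk β z)) (ball 0 1) := hkd.deriv isOpen_ball
  have hk2d : DifferentiableOn ℂ (deriv (deriv (kk β z))) (ball 0 1) := hk1d.deriv isOpen_ball
  have hk : ∀ u : ℂ, ‖u‖ < 1 → HasDerivAt (kk β z) (deriv (kk β z) u) u := fun u hu =>
    (hkd.differentiableAt (isOpen_ball.mem_nhds (mem_ball_zero_iff.mpr hu))).hasDerivAt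
  have hk1 : ∀ u : ℂ, ‖u‖ < 1 → HasDerivAt (deriv (kk β z)) (deriv (deriv (kk β z)) u) u :=
    fun u hu => (hk1d.differentiableAt (isOpen_ball.mem_nhds (mem_ball_zero_iff.mpr hu))).hasDerivAt
  have hk2 : HasDerivAt (deriv (deriv (kk β z))) (deriv (deriv (deriv (kk β z))) 0) 0 :=
    (hk2d.differentiableAt (isOpen_ball.mem_nhds (mem_ball_zero_iff.mpr h01))).hasDerivAt
  have hk0 := kk_zero h hz hz0
  set k := kk β z with hkdef
  set M1 : ℂ → ℂ :=
    fun u => deriv (N β) (T z u) * ((1 - (‖z‖ : ℂ) ^ 2) / (1 + conj z * u) ^ 2) with hM1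
  -- left-hand side
  have hL : ∀ u : ℂ, ‖u‖ < 1 → HasDerivAt (fun u => z ^ 2 * (N β (T z u) * k u ^ 2))
      (z ^ 2 * (M1 u * k u ^ 2 + N β (T z u) * (2 * k u * deriv k u))) u := by
    intro u hu
    have h1 : HasDerivAt (fun u => k u ^ 2) (2 * k u * deriv k u) u := by
      have := (hk u hu).fun_pow 2
      simpa using this
    exact ((M_hasDerivAt h hz hu).fun_mul h1).const_mul (z ^ 2)
  have hR : ∀ u : ℂ, ‖u‖ < 1 → HasDerivAt
      (fun u => N β z * ((k u - u * deriv k u) * (u + z) ^ 2))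
      (N β z * ((-(u * deriv (deriv k) u)) * (u + z) ^ 2 +
        (k u - u * deriv k u) * (2 * (u + z)))) u := by
    intro u hu
    have h1 : HasDerivAt (fun u => k u - u * deriv k u) (-(u * deriv (deriv k) u)) u := by
      have h2 := (hk u hu).fun_sub ((hasDerivAt_id' u).fun_mul (hk1 u hu))
      have e : deriv k u - (1 * deriv k u + u * deriv (deriv k) u) = -(u * deriv (deriv k) u) := by
        ring
      rw [e] at h2
      exact h2
    have h3 : HasDerivAt (fun u : ℂ => (u + z) ^ 2) (2 * (u + z)) u := by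
      have := ((hasDerivAt_id' u).add_const z).fun_pow 2
      simpa using this
    exact (h1.fun_mul h3).const_mul (N β z)
  -- first derivatives agree near the origin
  have hE : ∀ u : ℂ, ‖u‖ < ‖z‖ →
      z ^ 2 * (M1 u * k u ^ 2 + N β (T z u) * (2 * k u * deriv k u)) =
      N β z * ((-(u * deriv (deriv k) u)) * (u + z) ^ 2 +
        (k u - u * deriv k u) * (2 * (u + z))) := by
    intro u hu
    have hb : ball (0:ℂ) ‖z‖ ∈ 𝓝 u := isOpen_ball.mem_nhds (mem_ball_zero_iff.mpr hu)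
    have h1 : (fun u => z ^ 2 * (N β (T z u) * k u ^ 2)) =ᶠ[𝓝 u]
        fun u => N β z * ((k u - u * deriv k u) * (u + z) ^ 2) := by
      filter_upwards [hb] with v hv
      exact kk_ode h hz hz0 (mem_ball_zero_iff.mp hv)
    exact HasDerivAt.unique (hL u (hu.trans hz)) ((hR u (hu.trans hz)).congr_of_eventuallyEq h1)
  -- second derivatives at the origin
  have hM1d : HasDerivAt M1 (deriv (deriv (N β)) z * (1 - (‖z‖ : ℂ) ^ 2) ^ 2
        - 2 * conj z * deriv (N β) z * (1 - (‖z‖ : ℂ) ^ 2)) 0 := M1_hasDerivAt h hz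
  have hM0 := M_hasDerivAt h hz h01
  have hL2 : HasDerivAt
      (fun u => z ^ 2 * (M1 u * k u ^ 2 + N β (T z u) * (2 * k u * deriv k u)))
      (z ^ 2 * (((deriv (deriv (N β)) z * (1 - (‖z‖ : ℂ) ^ 2) ^ 2
        - 2 * conj z * deriv (N β) z * (1 - (‖z‖ : ℂ) ^ 2)) * k 0 ^ 2 +
          M1 0 * (2 * k 0 * deriv k 0)) +
        (M1 0 * (2 * k 0 * deriv k 0) +
          N β (T z 0) * ((2 * deriv k 0) * deriv k 0 + 2 * k 0 * deriv (deriv k) 0)))) 0 := by
    have h1 : HasDerivAt (fun u => k u ^ 2) (2 * k 0 * deriv k 0) 0 := by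
      have := (hk 0 h01).fun_pow 2
      simpa using this
    have h2 : HasDerivAt (fun u => 2 * k u * deriv k u)
        ((2 * deriv k 0) * deriv k 0 + 2 * k 0 * deriv (deriv k) 0) 0 :=
      ((hk 0 h01).const_mul 2).fun_mul (hk1 0 h01)
    exact ((hM1d.fun_mul h1).fun_add (hM0.fun_mul h2)).const_mul (z ^ 2)
  have hR2 : HasDerivAt
      (fun u => N β z * ((-(u * deriv (deriv k) u)) * (u + z) ^ 2 +
        (k u - u * deriv k u) * (2 * (u + z))))
      (N β z * ((-(1 * deriv (deriv k) 0 + 0 * deriv (deriv (deriv k)) 0) * (0 + z) ^ 2 +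
        (-((0:ℂ) * deriv (deriv k) 0)) * (2 * (0 + z))) +
        ((-((0:ℂ) * deriv (deriv k) 0)) * (2 * (0 + z)) +
        (k 0 - 0 * deriv k 0) * (2 * 1)))) 0 := by
    have h1 : HasDerivAt (fun u => k u - u * deriv k u) (-((0:ℂ) * deriv (deriv k) 0)) 0 := by
      have h2 := (hk 0 h01).fun_sub ((hasDerivAt_id' (0:ℂ)).fun_mul (hk1 0 h01))
      have e : deriv k 0 - (1 * deriv k 0 + 0 * deriv (deriv k) 0) =
          -((0:ℂ) * deriv (deriv k) 0) := by ring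
      rw [e] at h2
      exact h2
    have h3 : HasDerivAt (fun u : ℂ => (u + z) ^ 2) (2 * (0 + z)) 0 := by
      have := ((hasDerivAt_id' (0:ℂ)).add_const z).fun_pow 2
      simpa using this
    have h4 : HasDerivAt (fun u => -(u * deriv (deriv k) u))
        (-(1 * deriv (deriv k) 0 + 0 * deriv (deriv (deriv k)) 0)) 0 :=
      ((hasDerivAt_id' (0:ℂ)).fun_mul hk2).fun_neg
    have h5 : HasDerivAt (fun u : ℂ => 2 * (u + z)) (2 * 1) 0 :=
      ((hasDerivAt_id' (0:ℂ)).add_const z).const_mul 2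
    exact ((h4.fun_mul h3).fun_add (h1.fun_mul h5)).const_mul (N β z)
  have h2E : (fun u => z ^ 2 * (M1 u * k u ^ 2 + N β (T z u) * (2 * k u * deriv k u))) =ᶠ[𝓝 0]
      (fun u => N β z * ((-(u * deriv (deriv k) u)) * (u + z) ^ 2 +
        (k u - u * deriv k u) * (2 * (u + z)))) := by
    filter_upwards [hb0] with v hv
    exact hE v (mem_ball_zero_iff.mp hv)
  have e2 := HasDerivAt.unique hL2 (hR2.congr_of_eventuallyEq h2E)
  have e1 := hE 0 (by simpa using hzp)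
  have hM10 : M1 0 = deriv (N β) z * (1 - (‖z‖ : ℂ) ^ 2) := by
    rw [hM1]
    simp [T_zero]
  rw [hM10, T_zero, hk0] at e1 e2
  set a := deriv k 0
  set b := deriv (deriv k) 0
  set t : ℂ := 1 - (‖z‖ : ℂ) ^ 2 with ht
  have htz : t = 1 - conj z * z := by
    rw [ht, ← Complex.mul_conj']
    ring
  set n := N β z
  set n1 := deriv (N β) z
  set n2 := deriv (deriv (N β)) z
  -- `e1 : z²(n1 t + 2 n a) = 2 n z`, `e2` second order
  have ha : a = 1 / z - n1 * t / (2 * n) := by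
    field_simp
    have := mul_left_cancel₀ hz0 (show z * (z * (n1 * t + 2 * n * a)) = z * (2 * n) by
      linear_combination e1)
    linear_combination this
  have hbb : 3 * b * n * z ^ 2 = 2 * n - z ^ 2 * (n2 * t ^ 2 - 2 * conj z * n1 * t) -
      4 * z ^ 2 * (n1 * t) * a - 2 * z ^ 2 * n * a ^ 2 := by
    linear_combination e2
  have hb3 : -3 * b = t ^ 2 * SN β z := by
    have e3 : 3 * b = (2 * n - z ^ 2 * (n2 * t ^ 2 - 2 * conj z * n1 * t) -
        4 * z ^ 2 * (n1 * t) * a - 2 * z ^ 2 * n * a ^ 2) / (n * z ^ 2) := by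
      rw [eq_div_iff (mul_ne_zero hN0 (pow_ne_zero 2 hz0))]
      linear_combination hbb
    have e4 : conj z = (1 - t) / z := by
      rw [eq_div_iff hz0, htz]
      ring
    rw [ha, e4] at e3
    have e5 : -3 * b = -(3 * b) := by ring
    rw [e5, e3]
    unfold SN
    change -_ = t ^ 2 * (n2 / n - 3 / 2 * (n1 / n) ^ 2 + 2 / z * (n1 / n))
    field_simp
    ring
  exact hb3.symm

/-- **Kraus.** `(1 - |z|²)² |S_φ(z)| ≤ 6` for `0 < |z| < 1`. -/
theorem kraus (h : Ext β) {z : ℂ} (hz : ‖z‖ < 1) (hz0 : z ≠ 0) :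
    (1 - ‖z‖ ^ 2) ^ 2 * ‖SN β z‖ ≤ 6 := by
  have h1 := kk_SN h hz hz0
  have h2 := kk_area h hz hz0
  have h3 : (1 - ‖z‖ ^ 2) ^ 2 * ‖SN β z‖ = ‖(1 - (‖z‖ : ℂ) ^ 2) ^ 2 * SN β z‖ := by
    rw [norm_mul, norm_pow]
    congr 2
    have h4 : (1 - (‖z‖ : ℂ) ^ 2) = ((1 - ‖z‖ ^ 2 : ℝ) : ℂ) := by push_cast; ring
    rw [h4, Complex.norm_real, Real.norm_of_nonneg]
    (clear * - hz; nlinarith only [norm_nonneg z, hz])
  rw [h3, h1, norm_mul, norm_neg]
  have h5 : ‖(3:ℂ)‖ = 3 := by simp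
  rw [h5]
  linarith only [h2]

end Pool.Agent.Helper20.Kraus

end

section

namespace Pool.Agent.Helper39.Area
end Pool.Agent.Helper39.Area
namespace Pool.Agent.Helper52.EK
end Pool.Agent.Helper52.EK

/-!
# The inequality of Kraus for the Schwarzian derivative: all points of the disc
-/

set_option autoImplicit false

open Complex Metric Set Filter Topology

open scoped Real ComplexConjugate

namespace Pool.Agent.Helper20.Kraus

open Pool.Agent.Helper39.Area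

open Pool.Agent.Helper52.EK

variable {β : ℂ → ℂ}

/-- the first coefficient: `|β'(0)| ≤ 1` -/
theorem deriv_beta_zero (h : Ext β) : ‖deriv β 0‖ ≤ 1 := by
  have hk : DifferentiableOn ℂ (fun u : ℂ => 1 + u * β u) (ball 0 1) := by
    have h2 : DifferentiableOn ℂ (fun u : ℂ => u) (ball 0 1) := by fun_prop
    exact (differentiableOn_const _).add (h2.mul h.diff)
  have hinj : ∀ u ∈ ball (0:ℂ) 1, ∀ v ∈ ball (0:ℂ) 1, u ≠ 0 → v ≠ 0 →
      (1 + u * β u) / u = (1 + v * β v) / v → u = v := by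
    intro u hu v hv hu0 hv0 he
    have e : ∀ w : ℂ, w ≠ 0 → (1 + w * β w) / w = phi β w := by
      intro w hw
      unfold phi
      (clear * - hw; field_simp)
    rw [e u hu0, e v hv0] at he
    exact h.inj u v hu hv hu0 hv0 he
  have h1 := area_k hk (by simp) hinj
  have h01 : (0:ℂ) ∈ ball (0:ℂ) 1 := mem_ball_self one_pos
  have hb : ∀ u ∈ ball (0:ℂ) 1, HasDerivAt β (deriv β u) u := fun u hu =>
    (h.diff.differentiableAt (isOpen_ball.mem_nhds hu)).hasDerivAt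
  have hb1 : HasDerivAt (deriv β) (deriv (deriv β) 0) 0 :=
    ((h.diff.deriv isOpen_ball).differentiableAt (isOpen_ball.mem_nhds h01)).hasDerivAt
  have hd1 : ∀ u ∈ ball (0:ℂ) 1, deriv (fun u : ℂ => 1 + u * β u) u = β u + u * deriv β u := by
    intro u hu
    have := (((hasDerivAt_id' u).fun_mul (hb u hu)).const_add 1).deriv
    rw [this]
    ring
  have hd2 : deriv (deriv (fun u : ℂ => 1 + u * β u)) 0 = 2 * deriv β 0 := by
    have h3 : deriv (fun u : ℂ => 1 + u * β u) =ᶠ[𝓝 0] fun u => β u + u * deriv β u := by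
      filter_upwards [isOpen_ball.mem_nhds h01] with u hu
      exact hd1 u hu
    rw [h3.deriv_eq]
    have := ((hb 0 h01).fun_add ((hasDerivAt_id' (0:ℂ)).fun_mul hb1)).deriv
    rw [this]
    ring
  rw [hd2, norm_mul] at h1
  have h5 : ‖(2:ℂ)‖ = 2 := by simp
  rw [h5] at h1
  linarith only [h1]

theorem SN_zero (h : Ext β) : SN β 0 = -2 * deriv β 0 := by
  have h01 : (0:ℂ) ∈ ball (0:ℂ) 1 := mem_ball_self one_pos
  have hb1 : ∀ u ∈ ball (0:ℂ) 1, HasDerivAt (deriv β) (deriv (deriv β) u) u := fun u hu =>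
    ((h.diff.deriv isOpen_ball).differentiableAt (isOpen_ball.mem_nhds hu)).hasDerivAt
  have hb2 : HasDerivAt (deriv (deriv β)) (deriv (deriv (deriv β)) 0) 0 :=
    (((h.diff.deriv isOpen_ball).deriv isOpen_ball).differentiableAt
      (isOpen_ball.mem_nhds h01)).hasDerivAt
  have hN1 : ∀ u ∈ ball (0:ℂ) 1, HasDerivAt (N β) (-(2 * u * deriv β u +
      u ^ 2 * deriv (deriv β) u)) u := by
    intro u hu
    have h3 : HasDerivAt (fun u : ℂ => u ^ 2) (2 * u) u := by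
      have := (hasDerivAt_id' u).fun_pow 2
      simpa using this
    have := ((h3.fun_mul (hb1 u hu)).const_sub 1)
    exact this
  have hd1 : deriv (N β) =ᶠ[𝓝 0] fun u => -(2 * u * deriv β u + u ^ 2 * deriv (deriv β) u) := by
    filter_upwards [isOpen_ball.mem_nhds h01] with u hu
    exact (hN1 u hu).deriv
  have hd0 : deriv (N β) 0 = 0 := by
    rw [(hN1 0 h01).deriv]
    ring
  have hd2 : deriv (deriv (N β)) 0 = -2 * deriv β 0 := by
    rw [hd1.deriv_eq]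
    have h3 : HasDerivAt (fun u : ℂ => u ^ 2) (2 * 0) 0 := by
      have := (hasDerivAt_id' (0:ℂ)).fun_pow 2
      simpa using this
    have h4 : HasDerivAt (fun u : ℂ => 2 * u) (2 * 1) 0 := (hasDerivAt_id' (0:ℂ)).const_mul 2
    have := ((h4.fun_mul (hb1 0 h01)).fun_add (h3.fun_mul hb2)).fun_neg.deriv
    rw [this]
    ring
  have hN0 : N β 0 = 1 := by
    unfold N
    simp
  rw [SN, hd0, hd2, hN0]
  simp

/-- **Kraus**, all points of the disc (at the origin the term `(2/z)(N'/N)` is read as `0`) -/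
theorem kraus_all (h : Ext β) {z : ℂ} (hz : ‖z‖ < 1) :
    (1 - ‖z‖ ^ 2) ^ 2 * ‖SN β z‖ ≤ 6 := by
  by_cases h0 : z = 0
  · subst h0
    rw [SN_zero h, norm_mul, norm_neg, norm_zero]
    have h1 := deriv_beta_zero h
    have h5 : ‖(2:ℂ)‖ = 2 := by simp
    rw [h5]
    (clear * - h1; linarith only [h1])
  · exact kraus h hz h0

end Pool.Agent.Helper20.Kraus

end

section

namespace Pool.Agent.Helper39.Area
end Pool.Agent.Helper39.Area
namespace Pool.Agent.Helper52.EK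
end Pool.Agent.Helper52.EK
namespace Pool.Agent.Helper69.EK3
end Pool.Agent.Helper69.EK3
namespace Pool.Agent.Helper69.EK7
end Pool.Agent.Helper69.EK7

set_option autoImplicit false

open Complex Metric Set Filter Topology

open scoped Real ComplexConjugate

namespace Pool.Agent.Helper20.Kraus2

open Pool.Agent.Helper39.Area

open Pool.Agent.Helper52.EK

open Pool.Agent.Helper69.EK3

open Pool.Agent.Helper69.EK7

variable {β : ℂ → ℂ}

theorem norm_srad_le (h : Ext β) {z : ℂ} (hz : ‖z‖ < 1) : ‖srad β z‖ ≤ 6 := by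
  have hk := Pool.Agent.Helper20.Kraus.kraus_all h hz
  have hS : Pool.Agent.Helper20.Kraus.SN β z = Sc β z := rfl
  rw [hS] at hk
  have h3 : ‖((1:ℂ) - (‖z‖ : ℂ) ^ 2) ^ 2‖ = (1 - ‖z‖ ^ 2) ^ 2 := by
    have h4 : ((1:ℂ) - (‖z‖ : ℂ) ^ 2) ^ 2 = (((1 - ‖z‖ ^ 2) ^ 2 : ℝ) : ℂ) := by push_cast; ring
    rw [h4, Complex.norm_real, Real.norm_of_nonneg (sq_nonneg _)]
  have h5 : ‖(z / ‖z‖ : ℂ)‖ ≤ 1 := by
    rw [norm_div, Complex.norm_real, norm_norm]
    exact div_self_le_one _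
  unfold srad
  rw [norm_mul, norm_mul, norm_pow, h3]
  have h7 : ‖(z / ‖z‖ : ℂ)‖ ^ 2 ≤ 1 := by
    have := norm_nonneg (z / ‖z‖ : ℂ)
    (clear * - h5 this; nlinarith only [h5, this])
  have h8 : 0 ≤ (1 - ‖z‖ ^ 2) ^ 2 * ‖Sc β z‖ := by (clear * -; positivity)
  have h9 : ‖(z / ‖z‖ : ℂ)‖ ^ 2 * (1 - ‖z‖ ^ 2) ^ 2 * ‖Sc β z‖ ≤
      (1 - ‖z‖ ^ 2) ^ 2 * ‖Sc β z‖ := by
    rw [mul_assoc]
    exact mul_le_of_le_one_left h8 h7
  (clear * - hk h9; linarith only [hk, h9])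

theorem norm_ph {Z : ℂ} (h1 : I + Z ≠ 0) (h2 : I - Z ≠ 0) :
    ‖Pool.Agent.Helper97.EK.ph Z‖ = 1 := by
  have e : ‖I - conj Z‖ = ‖I + Z‖ := by
    have e2 : I - conj Z = -conj (I + Z) := by
      rw [map_add, conj_I]
      ring
    rw [e2, norm_neg, RCLike.norm_conj]
  unfold Pool.Agent.Helper97.EK.ph
  rw [norm_mul, Complex.norm_real, norm_div, norm_div, norm_norm, norm_norm, e]
  have k1 := norm_pos_iff.mpr h1
  have k2 := norm_pos_iff.mpr h2
  field_simp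

theorem tX_zero_s (X Y Z : ℂ) (c : ℝ) : tX X Y Z 0 c = 0 := by
  unfold tX
  simp

/-- **Kraus in the closed strip** -/
theorem kraus_strip {R : ℝ} (h : ExtR β R) {a : ℝ} (ha : 0 < a) (ha1 : a < 1) {ξ η : ℝ}
    (h1 : Real.log (tau a) < ξ) (h2 : ξ < 0) (h3 : 0 ≤ η) (h4 : η ≤ π) :
    ‖tX (Xf β a (pt ξ η)) (deriv (Xf β a) (pt ξ η)) (deriv (deriv (Xf β a)) (pt ξ η))
      (Real.sin η) (Real.cos η)‖ ≤ 6 := by
  rcases eq_or_lt_of_le h3 with h0 | h0
  · rw [← h0, Real.sin_zero, tX_zero_s]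
    simp
  rcases eq_or_lt_of_le h4 with h5 | h5
  · rw [h5, Real.sin_pi, tX_zero_s]
    simp
  have e := E3a3 h.toExt ha ha1 h0 h5 h2 h1
  have hz := Pool.Agent.Helper97.EK.zf_mem (ξ := ξ) h0 h5
  have hk := norm_srad_le h.toExt (mem_ball_zero_iff.mp hz)
  rw [e, norm_mul, norm_pow, norm_ph (Pool.Agent.Helper97.EK.addI_ne h0 h5)
    (Pool.Agent.Helper97.EK.subI_ne h2), one_pow,
    one_mul] at hk
  exact hk

theorem tX_conj (X Y Z : ℂ) (s c : ℝ) :
    tX (conj X) (conj Y) (conj Z) s c = conj (tX X Y Z s (-c)) := by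
  unfold tX e0
  simp only [map_mul, map_add, map_sub, map_neg, map_pow, map_div₀, conj_ofReal, conj_I,
    map_ofNat, map_one, ofReal_neg]
  ring

theorem mir_deriv2_pt {X : ℂ → ℂ} {ξ η : ℝ} (hX : AnalyticAt ℂ X (pt ξ (π - η))) :
    deriv (deriv (mir X)) (pt ξ η) = conj (deriv (deriv X) (pt ξ (π - η))) := by
  have hX' : AnalyticAt ℂ X (conj (pt ξ η) + π * I) := by
    rw [conj_pt]
    exact hX
  have hc : Filter.Tendsto (fun z : ℂ => conj z + π * I) (𝓝 (pt ξ η))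
      (𝓝 (conj (pt ξ η) + π * I)) :=
    (Complex.continuous_conj.add continuous_const).continuousAt
  have hev := Complex.analyticAt_iff_eventually_differentiableAt.1 hX'
  have h1 : deriv (mir X) =ᶠ[𝓝 (pt ξ η)] mir (deriv X) := by
    filter_upwards [hc.eventually hev] with v hv
    exact (mir_hasDerivAt hv.hasDerivAt).deriv
  rw [h1.deriv_eq]
  exact mir_deriv_pt hX.deriv.differentiableAt

/-- **Kraus** for the mirror image -/
theorem kraus_mir {R : ℝ} (h : ExtR β R) {a : ℝ} (ha : 0 < a) (ha1 : a < 1) {ξ η : ℝ}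
    (h1 : Real.log (tau a) < ξ) (h2 : ξ < 0) (h3 : 0 ≤ η) (h4 : η ≤ π) :
    ‖tX (mir (Xf β a) (pt ξ η)) (deriv (mir (Xf β a)) (pt ξ η))
      (deriv (deriv (mir (Xf β a))) (pt ξ η)) (Real.sin η) (Real.cos η)‖ ≤ 6 := by
  have hN : NiceX (Xf β a) ξ ξ := Pool.Agent.Helper67.EK.E1c h ha ha1 h1 h2
  have hmem : pt ξ (π - η) ∈ Rect ξ ξ := by
    refine ⟨⟨?_, ?_⟩, ⟨?_, ?_⟩⟩ <;> simp [pt] <;> linarith
  have hA : AnalyticAt ℂ (Xf β a) (pt ξ (π - η)) := hN.an _ hmem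
  rw [mir_pt, mir_deriv_pt hA.differentiableAt, mir_deriv2_pt hA, tX_conj, RCLike.norm_conj]
  have hk := kraus_strip h ha ha1 h1 h2 (η := π - η) (by linarith) (by linarith)
  rw [Real.sin_pi_sub, Real.cos_pi_sub] at hk
  exact hk

end Pool.Agent.Helper20.Kraus2

end

section

namespace Pool.Agent.Helper39.Area
end Pool.Agent.Helper39.Area
namespace Pool.Agent.Helper52.EK
end Pool.Agent.Helper52.EK

set_option autoImplicit false

open Complex MeasureTheory Metric Set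

open scoped Real ComplexConjugate

namespace Pool.Agent.Helper52.CK

open Pool.Agent.Helper39.Area Pool.Agent.Helper52.EK

/-- density of the targets -/
noncomputable def FF (κ : ℝ) (β : ℂ → ℂ) (x θ : ℝ) : ℝ := ‖N β (ep (-x) θ)‖ ^ (-κ)

/-- integral over a rectangle of the variables `x, θ` -/
noncomputable def RR (a b : ℝ) (F : ℝ → ℝ → ℝ) : ℝ := ∫ x in a..b, ∫ θ in (-π)..π, F x θ

/-- the functional -/
noncomputable def JJ (κ : ℝ) (om u : ℝ → ℝ) (a b : ℝ) (β : ℂ → ℂ) : ℝ :=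
  RR a b fun x θ => om x * u θ * FF κ β x θ

/-- the weights -/
structure Wt (om om' u u' : ℝ → ℝ) (a b : ℝ) : Prop where
  a0 : 0 < a
  ab : a < b
  b1 : b ≤ 1 / 4
  dom : ∀ x, HasDerivAt om (om' x) x
  com : Continuous om'
  om0 : ∀ x, 0 ≤ om x
  omz : ∀ x, x ∉ Ioo a b → om x = 0
  du : ∀ θ, HasDerivAt u (u' θ) θ
  cu : Continuous u'
  u0 : ∀ θ, 0 ≤ u θ
  u1 : ∀ θ, u θ ≤ 1
  up : Function.Periodic u (2 * π)

/-- `A²`, `A = φ'(z0) / (2 (φ(z0) - φ(z)))` -/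
noncomputable def kA (β : ℂ → ℂ) (z z0 : ℂ) : ℂ := (dphi β z0 / (2 * (phi β z0 - phi β z))) ^ 2

noncomputable def k1 (z z0 : ℂ) : ℂ :=
  z * z0 / (z - z0) ^ 2 + conj z * z0 / (1 - z0 * conj z) ^ 2

noncomputable def k3 (z z0 : ℂ) : ℂ :=
  z0 * (1 - (‖z‖ : ℂ) ^ 2) / ((z - z0) * (1 - z0 * conj z))

noncomputable def k5 (z z0 : ℂ) : ℂ :=
  I / 2 * ((z + z0) / (z - z0) + (1 + z0 * conj z) / (1 - z0 * conj z))

/-- the first variation: `dJ = Re (B E(z0))` -/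
noncomputable def EE (κ : ℝ) (om om' u u' : ℝ → ℝ) (a b : ℝ) (β : ℂ → ℂ) (z0 : ℂ) : ℂ :=
  ∫ x in a..b, ∫ θ in (-π)..π, ((FF κ β x θ : ℝ) : ℂ) *
    (((κ * (om x * u θ) : ℝ) : ℂ) * (1 - 4 * z0 ^ 2 * kA β (ep (-x) θ) z0) +
      (((κ + 2) * (om x * u θ) : ℝ) : ℂ) * k1 (ep (-x) θ) z0 +
      ((κ * (om x * u θ) + om' x * u θ : ℝ) : ℂ) * k3 (ep (-x) θ) z0 +
      ((om x * u' θ : ℝ) : ℂ) * k5 (ep (-x) θ) z0)

/-- the logarithmic derivative of the strip coordinate of the target `e^(iθ)` -/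
noncomputable def omp (θ : ℝ) (z0 : ℂ) : ℂ :=
  2 * Complex.exp (θ * I) / (Complex.exp (θ * I) ^ 2 - z0 ^ 2)

/-- cut-off functions: functions of `z0` only -/
structure Cutf (b : ℝ) (W0 : ℂ → ℝ) : Prop where
  cont : Continuous W0
  nn : ∀ z, 0 ≤ W0 z
  le1 : ∀ z, W0 z ≤ 1
  supp : ∀ z, W0 z ≠ 0 → Real.exp (-1) ≤ ‖z‖ ∧ ‖z‖ ≤ Real.exp (-2 * b) ∧ ‖z - 1‖ ≤ 1 / 2

/-- the term of the multiplier for the target `z = ep (-x) θ` -/
noncomputable def MM (κ dl : ℝ) (W0 : ℂ → ℝ) (Mh : ℂ → ℂ) (β : ℂ → ℂ) (x θ : ℝ) : ℝ :=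
  π⁻¹ * ∫ z0 : ℂ, W0 z0 * (Mh z0 * (kA β (ep (-x) θ) z0 -
    ((1 + dl / (2 * κ) : ℝ) : ℂ) * omp θ z0 ^ 2)).re

/-- NEAR: near-maximisers are nearly critical -/
def NearStmt (κ : ℝ) : Prop :=
  ∀ (om om' u u' : ℝ → ℝ) (a b : ℝ), Wt om om' u u' a b → (∃ x, 0 < om x) → (∃ θ, 0 < u θ) →
    ∀ η : ℝ, 0 < η → ∃ (β : ℂ → ℂ) (R : ℝ), ExtR β R ∧
      (∀ γ : ℂ → ℂ, Ext γ → (1 - η) * JJ κ om u a b γ ≤ JJ κ om u a b β) ∧
      ∀ z0 : ℂ, Real.exp (-1) ≤ ‖z0‖ → ‖z0‖ ≤ Real.exp (-2 * b) →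
        ‖EE κ om om' u u' a b β z0‖ ≤ η

/-- MINT: the integral of the multiplier term over the targets -/
def MIntStmt (κ dl : ℝ) : Prop :=
  ∀ Mb : ℝ, 0 ≤ Mb → ∃ C₁ : ℝ, 0 ≤ C₁ ∧ ∀ (om om' u u' : ℝ → ℝ) (a b : ℝ), Wt om om' u u' a b →
    (∀ θ ∈ Icc (-π) π, u θ ≠ 0 → |θ| ≤ 1 / 2) →
    ∀ (β : ℂ → ℂ) (R η : ℝ), ExtR β R → 0 ≤ η →
      (∀ z0 : ℂ, Real.exp (-1) ≤ ‖z0‖ → ‖z0‖ ≤ Real.exp (-2 * b) →
        ‖EE κ om om' u u' a b β z0‖ ≤ η) →
      ∀ (W0 : ℂ → ℝ) (Mh : ℂ → ℂ), Cutf b W0 → ContinuousOn Mh {z | 0 < ‖z‖ ∧ ‖z‖ < 1} →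
        (∀ z, ‖Mh z‖ ≤ Mb) →
        RR a b (fun x θ => om x * u θ * FF κ β x θ * MM κ dl W0 Mh β x θ) ≤
          C₁ * JJ κ om u a b β +
          (Mb / (2 * κ)) * (-Real.log b + C₁) *
            RR a b (fun x θ => |(κ - 2 + dl) * om x - x * om' x| * u θ * FF κ β x θ) +
          C₁ * RR a b (fun x θ => om x * |u' θ| * FF κ β x θ) + C₁ * η

/-- ENT: entropy inequality on one circle -/
def EntStmt : Prop :=
  ∃ C : ℝ, ∀ (κ : ℝ) (β : ℂ → ℂ) (R : ℝ) (w : ℂ → ℂ) (u : ℝ → ℝ) (x : ℝ), 0 ≤ κ → ExtR β R →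
    ContinuousOn w {z | 0 < ‖z‖ ∧ ‖z‖ < 1} → Continuous u → (∀ θ, 0 ≤ u θ) → (∀ θ, u θ ≤ 1) →
    Function.Periodic u (2 * π) → 0 < x → x < 1 →
    ∀ m : ℝ, m = (2 * π)⁻¹ * ∫ θ in (-π)..π, u θ * FF κ β x θ → 0 < m →
    m * Real.log m ≤ m * (Real.log (1 - Real.exp (-2 * x)) + C) +
      (2 * π)⁻¹ * ∫ θ in (-π)..π, u θ * FF κ β x θ *
        (Kf w (Complex.exp (θ * I)) (-1) (-x) - κ * Real.log ‖N β (ep (-x) θ)‖)

/-- PT: the inequality for one target; `n` is the depth of the window, `W0` depends on `n` and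
`ε` only -/
def PTStmt (κ dl : ℝ) (G : ℂ → ℂ) (Mh : (ℂ → ℂ) → ℂ → ℂ) : Prop :=
  ∃ C₀ : ℝ, 0 ≤ C₀ ∧ ∀ ε : ℝ, 0 < ε → ∃ s C : ℝ, 0 < s ∧ s ≤ 1 / 2 ∧ 0 ≤ C ∧ ∀ n : ℝ, 2 ≤ n →
    ∃ W0 : ℂ → ℝ, Cutf (Real.exp (-n)) W0 ∧ ∀ (β : ℂ → ℂ) (R : ℝ), ExtR β R →
      ∀ x θ : ℝ, 0 < x → x ≤ Real.exp (-n) → |θ| ≤ s →
        Kf (wf G β) (Complex.exp (θ * I)) (-1) (-x) ≤
          κ * Real.log (‖N β (ep (-x) θ)‖ / (1 - Real.exp (-2 * x))) +
          MM κ dl W0 (Mh β) β x θ + C + (dl + ε) * (-Real.log x) + C₀ * (-Real.log x - n)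

end Pool.Agent.Helper52.CK

end
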