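import Pool.Agent.Helper14.CMF.T12
import Pool.Agent.Helper14.CMF.T14
import Pool.Agent.Helper14.CMF.T13

set_option linter.all false

section

namespace Pool.EK71
end Pool.EK71
namespace Pool.Agent.Helper52.EK
end Pool.Agent.Helper52.EK
namespace Pool.Agent.Helper2.EK
end Pool.Agent.Helper2.EK
namespace Pool.Agent.Helper69.EK3
end Pool.Agent.Helper69.EK3
namespace Pool.Agent.Helper69.EK5
end Pool.Agent.Helper69.EK5
namespace Pool.Agent.Helper71.EK3
end Pool.Agent.Helper71.EK3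
namespace Pool.Agent.Helper71.EKC
end Pool.Agent.Helper71.EKC

set_option autoImplicit false

open Complex MeasureTheory Metric Set

open scoped Real ComplexConjugate

namespace Pool.Agent.Helper69.EK6

open Pool.EK71 Pool.Agent.Helper52.EK Pool.Agent.Helper2.EK

open Pool.Agent.Helper69.EK3

open Pool.Agent.Helper69.EK5 (DQ Dd Dd_pos Dd_low DL e_D qX qY qL Rr c1_Rr)

open Pool.Agent.Helper71.EK3 (xL yL r2L FL G2L e_x e_y e_r2 e_F e_G2)

open Pool.Agent.Helper71.EKC (c1_unique pw2 e_pw sb2 e_sb)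

variable {P : (ℂ → ℂ) → ℝ → ℝ → Prop}

theorem af_ash20 (g : AP) (η : ℝ) : af (ash 2 0 g) η = Real.sin (η / 2) ^ 2 * af g η := by
  unfold af
  rw [aev_ash]
  ring

theorem af_ash10 (g : AP) (η : ℝ) : af (ash 1 0 g) η = Real.sin (η / 2) * af g η := by
  unfold af
  rw [aev_ash]
  ring

/-- `2 (S² g)'· 2 / S` as a polynomial: `2 · af (ader (ash 2 0 g)) = S · af (adas g)` -/
def adas : AP → AP
  | [] => []
  | (c, i, j) :: g => (Int.mul (Int.mul 2 c) (Int.ofNat (i + 2)), i, j + 1) ::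
      ((match j with
        | 0 => []
        | j' + 1 => [(Int.mul (Int.mul (-2) c) (Int.ofNat (j' + 1)), i + 2, j')]) ++ adas g)

theorem aev_adas (S C : ℝ) (g : AP) :
    2 * aev S C (ader (ash 2 0 g)) = S * aev S C (adas g) := by
  induction g with
  | nil => simp [ader, ash, adas, aev]
  | cons t g ih =>
    obtain ⟨c, i, j⟩ := t
    cases j with
    | zero =>
      simp only [ash, ader, adas, List.cons_append, List.nil_append, aev, imul_cast', ofNat_cast',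
        add_zero]
      rw [mul_add, mul_add, ih]
      push_cast
      ring
    | succ j =>
      simp only [ash, ader, adas, List.cons_append, List.nil_append, aev, imul_cast', ofNat_cast',
        add_zero]
      rw [mul_add, mul_add, mul_add, mul_add, ih]
      push_cast
      simp only [Nat.succ_eq_add_one]
      ring

theorem af_adas (g : AP) (η : ℝ) :
    2 * af (ader (ash 2 0 g)) η = Real.sin (η / 2) * af (adas g) η := by
  unfold af
  rw [aev_adas]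

/-- `S² ≤ S ≤ s` and `0 ≤ S` on the half strip -/
theorem half_le {η : ℝ} (hη : η ∈ Icc (0:ℝ) (π / 2)) :
    0 ≤ Real.sin (η / 2) ∧ Real.sin (η / 2) ≤ Real.sin η ∧ Real.sin (η / 2) ^ 2 ≤ Real.sin η := by
  have hp := Real.pi_pos
  have h0 : 0 ≤ Real.sin (η / 2) :=
    Real.sin_nonneg_of_nonneg_of_le_pi (by (clear * - hη; linarith only [hη.1])) (by linarith only [hη.2, hp])
  have h1 : Real.sin (η / 2) ≤ Real.sin η :=
    Real.sin_le_sin_of_le_of_le_pi_div_two (by (clear * - hp hη; linarith [hη.1])) hη.2 (by (clear * - hη; linarith [hη.1]))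
  have h2 := Real.sin_le_one (η / 2)
  exact ⟨h0, h1, by (clear * - h1 h0 h2; nlinarith)⟩

noncomputable def NU (a : DQ) (j : ℕ) (t : AP × BP) (X Y : ℂ) (η : ℝ) : ℝ :=
  4 * af (ash 2 0 t.1) η * Rr a (j + 2) (qL a j t.2) X * ‖Y‖ ^ 2 -
    af (ader (ader (ash 2 0 t.1))) η * Rr a j t.2 X

noncomputable def KU (a : DQ) (j : ℕ) (t : AP × BP) (X Y : ℂ) : ℝ :=
  4 * af (ash 2 0 t.1) (π / 2) * dEta (Rr a (j + 1) (qX a j t.2)) (Rr a (j + 1) (qY a j t.2)) X Y -
    2 * af (ader (ash 2 0 t.1)) (π / 2) * Rr a j t.2 X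

noncomputable def NVX (a : DQ) (j : ℕ) (t : AP × BP) (X Y : ℂ) (η : ℝ) : ℝ :=
  2 * af (ash 1 0 t.1) η * (Rr a (j + 1) (qX a j t.2) X * Y.re +
    Rr a (j + 1) (qY a j t.2) X * Y.im)

noncomputable def NVE (a : DQ) (j : ℕ) (t : AP × BP) (X Y : ℂ) (η : ℝ) : ℝ :=
  2 * af (ash 1 0 t.1) η * dEta (Rr a (j + 1) (qX a j t.2)) (Rr a (j + 1) (qY a j t.2)) X Y +
    af (ader (ash 1 0 t.1)) η * Rr a j t.2 X

noncomputable def KVE (a : DQ) (j : ℕ) (t : AP × BP) (X _Y : ℂ) : ℝ :=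
  2 * af (ash 1 0 t.1) (π / 2) * Rr a j t.2 X

noncomputable def NF0 (a : DQ) (j : ℕ) (t : AP × BP) (X Y : ℂ) (η : ℝ) : ℝ :=
  NG (fun η => 4 * af (ash 2 0 t.1) η) (fun η => 2 * af (ader (ash 2 0 t.1)) η)
    (fun X => (Rr a j t.2 X : ℂ)) (fun X => (Rr a (j + 1) (qX a j t.2) X : ℂ))
    (fun X => (Rr a (j + 1) (qY a j t.2) X : ℂ)) X Y ((Y / X) ^ 1) η

noncomputable def KF0 (a : DQ) (j : ℕ) (t : AP × BP) (X Y : ℂ) : ℝ :=
  - (4 * af (ash 2 0 t.1) (π / 2) * ((Rr a j t.2 X : ℂ) * (Y / X) ^ 1).im)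

noncomputable def NF1 (a : DQ) (j : ℕ) (t : AP × BP) (X Y : ℂ) (η : ℝ) : ℝ :=
  NG (fun η => 4 * af (ash 2 0 t.1) η) (fun η => 2 * af (ader (ash 2 0 t.1)) η)
    (fun X => I * (Rr a j t.2 X : ℂ)) (fun X => I * (Rr a (j + 1) (qX a j t.2) X : ℂ))
    (fun X => I * (Rr a (j + 1) (qY a j t.2) X : ℂ)) X Y ((Y / X) ^ 1) η

noncomputable def KF1 (a : DQ) (j : ℕ) (t : AP × BP) (X Y : ℂ) : ℝ :=
  - (4 * af (ash 2 0 t.1) (π / 2) * (I * (Rr a j t.2 X : ℂ) * (Y / X) ^ 1).im)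

/-- primitive of `4 S² g` -/
noncomputable def apr (g : AP) (η : ℝ) : ℝ := ∫ t in (0:ℝ)..η, 4 * af (ash 2 0 g) t

noncomputable def NH (t : AP × ℕ) (X Y : ℂ) (η : ℝ) : ℝ :=
  NG (apr t.1) (fun η => 4 * af (ash 2 0 t.1) η) (fun X => (X - 1) ^ t.2)
    (fun X => (t.2 : ℂ) * (X - 1) ^ (t.2 - 1)) (fun X => I * ((t.2 : ℂ) * (X - 1) ^ (t.2 - 1)))
    X Y ((Y / X) ^ 2) η

noncomputable def KH (t : AP × ℕ) (X Y : ℂ) : ℝ :=
  - (apr t.1 (π / 2) * ((X - 1) ^ t.2 * (Y / X) ^ 2).im)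

end Pool.Agent.Helper69.EK6

end

section

namespace Pool.Sos71
end Pool.Sos71
namespace Pool.EK71
end Pool.EK71
namespace Pool.Agent.Helper52.EK
end Pool.Agent.Helper52.EK
namespace Pool.Agent.Helper2.EK
end Pool.Agent.Helper2.EK
namespace Pool.Agent.Helper69.EK3
end Pool.Agent.Helper69.EK3
namespace Pool.Agent.Helper71.EK3
end Pool.Agent.Helper71.EK3
namespace Pool.Agent.Helper71.EKC
end Pool.Agent.Helper71.EKC

set_option autoImplicit false

open Complex MeasureTheory Metric Set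

open scoped Real ComplexConjugate

namespace Pool.Agent.Helper69.EK5

open Pool.Sos71

open Pool.EK71 Pool.Agent.Helper52.EK Pool.Agent.Helper2.EK

open Pool.Agent.Helper69.EK3

open Pool.Agent.Helper71.EK3 (xL yL r2L FL G2L e_x e_y e_r2 e_F e_G2)

open Pool.Agent.Helper71.EKC (c1_unique pw2 e_pw sb2 e_sb)

def Dn (a : DQ) (n : ℕ) : BP := pw2 (DL a) n

theorem Dn_ev (a : DQ) (n : ℕ) (X : ℂ) : ev2 (X.re - 1) X.im (Dn a n) = Dd a X.re X.im ^ n := by
  rw [Dn, e_pw, e_D]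
  congr 2
  ring

section

variable (a : DQ) (K j : ℕ)

end

end Pool.Agent.Helper69.EK5

end

section

namespace Pool.Sos71
end Pool.Sos71
namespace Pool.EK71
end Pool.EK71
namespace Pool.Agent.Helper52.EK
end Pool.Agent.Helper52.EK
namespace Pool.Agent.Helper2.EK
end Pool.Agent.Helper2.EK
namespace Pool.Agent.Helper69.EK3
end Pool.Agent.Helper69.EK3
namespace Pool.Agent.Helper69.EK5
end Pool.Agent.Helper69.EK5
namespace Pool.Agent.Helper71.EK3
end Pool.Agent.Helper71.EK3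
namespace Pool.Agent.Helper71.EKC
end Pool.Agent.Helper71.EKC

set_option autoImplicit false

open Complex MeasureTheory Metric Set

open scoped Real ComplexConjugate

namespace Pool.Agent.Helper69.EK6

open Pool.Sos71

open Pool.EK71 Pool.Agent.Helper52.EK Pool.Agent.Helper2.EK

open Pool.Agent.Helper69.EK3

open Pool.Agent.Helper69.EK5 (DQ Dd Dd_pos Dd_low DL e_D qX qY qL Rr c1_Rr Dn Dn_ev)

open Pool.Agent.Helper71.EK3 (xL yL r2L FL G2L e_x e_y e_r2 e_F e_G2)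

open Pool.Agent.Helper71.EKC (c1_unique pw2 e_pw sb2 e_sb)

/-- the point of the variables -/
noncomputable def px (l η : ℝ) (X Y : ℂ) : Pnt :=
  ⟨l, Real.sin (η / 2), Real.cos (η / 2), Real.sin (η / 2) * (Y / X).re,
    Real.sin (η / 2) * (Y / X).im, X.re - 1, X.im⟩

section

variable (a : DQ) (K j : ℕ)

def EU (t : AP × BP) : Ex :=
  Ex.add (Ex.mul (Ex.mul (Ex.sc 4 (apE t.1)) ePR) (Ex.bp (mu2 (mu2 r2L (qL a j t.2)) (Dn a (K - j - 2)))))
    (Ex.mul (Ex.sc (-1) (apE (ader (ader (ash 2 0 t.1))))) (Ex.bp (mu2 t.2 (Dn a (K - j)))))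

theorem EU_re (t : AP × BP) (hK : j + 2 ≤ K) {X Y : ℂ} (hX : X ≠ 0) (l η : ℝ) :
    (EU a K j t).re (px l η X Y) = Dd a X.re X.im ^ K * NU a j t X Y η := by
  obtain ⟨m, rfl⟩ := Nat.exists_eq_add_of_le hK
  have hD := (Dd_pos a X.re X.im).ne'
  have e1 : j + 2 + m - j - 2 = m := by omega
  have e2 : j + 2 + m - j = m + 2 := by omega
  simp only [EU, Ex.re, apE_re, ePR, ev2_mu, e_r2, e1, e2]
  rw [show (px l η X Y).f = X.re - 1 from rfl, show (px l η X Y).g = X.im from rfl, Dn_ev, Dn_ev,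
    show (px l η X Y).b = Real.sin (η / 2) from rfl, show (px l η X Y).c = Real.cos (η / 2) from rfl,
    show (px l η X Y).d = Real.sin (η / 2) * (Y / X).re from rfl,
    show (px l η X Y).e = Real.sin (η / 2) * (Y / X).im from rfl]
  have h1 := sY_sq (Y := Y) hX (Real.sin (η / 2))
  unfold NU Rr
  rw [af_ash20]
  have e3 : 4 * (Real.sin (η / 2) ^ 2 * af t.1 η) * (ev2 (X.re - 1) X.im (qL a j t.2) /
      Dd a X.re X.im ^ (j + 2)) * ‖Y‖ ^ 2 = 4 * (Real.sin (η / 2) ^ 2 * ‖Y‖ ^ 2) * af t.1 η *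
      (ev2 (X.re - 1) X.im (qL a j t.2) / Dd a X.re X.im ^ (j + 2)) := by ring
  rw [e3, h1]
  unfold af
  have e4 : (1:ℝ) + (X.re - 1) = X.re := by ring
  rw [e4]
  have p1 : Dd a X.re X.im ^ (j + 2 + m) = Dd a X.re X.im ^ j * Dd a X.re X.im ^ 2 *
    Dd a X.re X.im ^ m := by rw [pow_add, pow_add]
  have p2 : Dd a X.re X.im ^ (j + 2) = Dd a X.re X.im ^ j * Dd a X.re X.im ^ 2 := by rw [pow_add]
  have p3 : Dd a X.re X.im ^ (m + 2) = Dd a X.re X.im ^ m * Dd a X.re X.im ^ 2 := by rw [pow_add]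
  rw [p1, p2, p3]
  field_simp
  push_cast
  ring

def EVX (t : AP × BP) : Ex :=
  Ex.mul (Ex.sc 2 (apE t.1)) (Ex.add
    (Ex.mul (Ex.va 3) (Ex.bp (mu2 (ad2 (mu2 xL (qX a j t.2)) (mu2 yL (qY a j t.2)))
      (Dn a (K - j - 1)))))
    (Ex.mul (Ex.va 4) (Ex.bp (mu2 (sb2 (mu2 xL (qY a j t.2)) (mu2 yL (qX a j t.2)))
      (Dn a (K - j - 1))))))

theorem EVX_re (t : AP × BP) (hK : j + 1 ≤ K) {X Y : ℂ} (hX : X ≠ 0) (l η : ℝ) :
    (EVX a K j t).re (px l η X Y) = Dd a X.re X.im ^ K * NVX a j t X Y η := by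
  obtain ⟨m, rfl⟩ := Nat.exists_eq_add_of_le hK
  have hD := (Dd_pos a X.re X.im).ne'
  have e1 : j + 1 + m - j - 1 = m := by (clear * - hK; omega)
  simp only [EVX, Ex.re, apE_re, ev2_mu, ev2_ad, e_sb, e_x, e_y, e1]
  rw [show (px l η X Y).f = X.re - 1 from rfl, show (px l η X Y).g = X.im from rfl, Dn_ev,
    show (px l η X Y).b = Real.sin (η / 2) from rfl, show (px l η X Y).c = Real.cos (η / 2) from rfl,
    show (px l η X Y).d = Real.sin (η / 2) * (Y / X).re from rfl,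
    show (px l η X Y).e = Real.sin (η / 2) * (Y / X).im from rfl]
  unfold NVX Rr
  rw [af_ash10]
  have h1 := sY_re (Y := Y) hX (Real.sin (η / 2))
  have h2 := sY_im (Y := Y) hX (Real.sin (η / 2))
  have e3 : 2 * (Real.sin (η / 2) * af t.1 η) * (ev2 (X.re - 1) X.im (qX a j t.2) /
      Dd a X.re X.im ^ (j + 1) * Y.re + ev2 (X.re - 1) X.im (qY a j t.2) /
      Dd a X.re X.im ^ (j + 1) * Y.im) = 2 * af t.1 η * (ev2 (X.re - 1) X.im (qX a j t.2) /
      Dd a X.re X.im ^ (j + 1) * (Real.sin (η / 2) * Y.re) + ev2 (X.re - 1) X.im (qY a j t.2) /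
      Dd a X.re X.im ^ (j + 1) * (Real.sin (η / 2) * Y.im)) := by ring
  rw [e3, h1, h2]
  unfold af
  have e4 : (1:ℝ) + (X.re - 1) = X.re := by ring
  rw [e4]
  have p1 : Dd a X.re X.im ^ (j + 1 + m) = Dd a X.re X.im ^ (j + 1) * Dd a X.re X.im ^ m := by
    rw [pow_add]
  rw [p1]
  field_simp
  ring

def EVE (t : AP × BP) : Ex :=
  Ex.add (Ex.mul (Ex.sc 2 (apE t.1)) (Ex.add
    (Ex.mul (Ex.va 3) (Ex.bp (mu2 (sb2 (mu2 xL (qY a j t.2)) (mu2 yL (qX a j t.2)))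
      (Dn a (K - j - 1)))))
    (Ex.mul (Ex.va 4) (Ex.bp (mu2 (sm2 (-1) (ad2 (mu2 xL (qX a j t.2)) (mu2 yL (qY a j t.2))))
      (Dn a (K - j - 1)))))))
    (Ex.mul (apE (ader (ash 1 0 t.1))) (Ex.bp (mu2 t.2 (Dn a (K - j)))))

theorem EVE_re (t : AP × BP) (hK : j + 1 ≤ K) {X Y : ℂ} (hX : X ≠ 0) (l η : ℝ) :
    (EVE a K j t).re (px l η X Y) = Dd a X.re X.im ^ K * NVE a j t X Y η := by
  obtain ⟨m, rfl⟩ := Nat.exists_eq_add_of_le hK
  have hD := (Dd_pos a X.re X.im).ne'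
  have e1 : j + 1 + m - j - 1 = m := by omega
  have e2 : j + 1 + m - j = m + 1 := by omega
  simp only [EVE, Ex.re, apE_re, ev2_mu, ev2_ad, ev2_sm, e_sb, e_x, e_y, e1, e2]
  rw [show (px l η X Y).f = X.re - 1 from rfl, show (px l η X Y).g = X.im from rfl, Dn_ev, Dn_ev,
    show (px l η X Y).b = Real.sin (η / 2) from rfl, show (px l η X Y).c = Real.cos (η / 2) from rfl,
    show (px l η X Y).d = Real.sin (η / 2) * (Y / X).re from rfl,
    show (px l η X Y).e = Real.sin (η / 2) * (Y / X).im from rfl]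
  unfold NVE Rr dEta
  rw [af_ash10]
  have h1 := sY_re (Y := Y) hX (Real.sin (η / 2))
  have h2 := sY_im (Y := Y) hX (Real.sin (η / 2))
  have e3 : 2 * (Real.sin (η / 2) * af t.1 η) * (-(ev2 (X.re - 1) X.im (qX a j t.2) /
      Dd a X.re X.im ^ (j + 1)) * Y.im + ev2 (X.re - 1) X.im (qY a j t.2) /
      Dd a X.re X.im ^ (j + 1) * Y.re) = 2 * af t.1 η * (-(ev2 (X.re - 1) X.im (qX a j t.2) /
      Dd a X.re X.im ^ (j + 1)) * (Real.sin (η / 2) * Y.im) + ev2 (X.re - 1) X.im (qY a j t.2) /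
      Dd a X.re X.im ^ (j + 1) * (Real.sin (η / 2) * Y.re)) := by ring
  rw [e3, h1, h2]
  unfold af
  have e4 : (1:ℝ) + (X.re - 1) = X.re := by ring
  rw [e4]
  have p1 : Dd a X.re X.im ^ (j + 1 + m) = Dd a X.re X.im ^ j * Dd a X.re X.im *
      Dd a X.re X.im ^ m := by rw [pow_add, pow_succ]
  have p2 : Dd a X.re X.im ^ (j + 1) = Dd a X.re X.im ^ j * Dd a X.re X.im := by rw [pow_succ]
  have p3 : Dd a X.re X.im ^ (m + 1) = Dd a X.re X.im ^ m * Dd a X.re X.im := by rw [pow_succ]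
  rw [p1, p2, p3]
  field_simp
  push_cast
  ring

def EF0 (t : AP × BP) : Ex :=
  Ex.add (Ex.mul (Ex.mul (Ex.sc 4 (apE t.1)) ePR) (Ex.bp (mu2 (ad2 (mu2 xL (qX a j t.2))
      (mu2 yL (qY a j t.2))) (Dn a (K - j - 1)))))
    (Ex.mul (Ex.mul (Ex.sc (-1) (apE (adas t.1))) (Ex.va 4)) (Ex.bp (mu2 t.2 (Dn a (K - j)))))

def EF1 (t : AP × BP) : Ex :=
  Ex.add (Ex.mul (Ex.mul (Ex.sc 4 (apE t.1)) ePR) (Ex.bp (mu2 (sb2 (mu2 yL (qX a j t.2))
      (mu2 xL (qY a j t.2))) (Dn a (K - j - 1)))))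
    (Ex.mul (Ex.mul (Ex.sc (-1) (apE (adas t.1))) (Ex.va 3)) (Ex.bp (mu2 t.2 (Dn a (K - j)))))

theorem EF0_re (t : AP × BP) (hK : j + 1 ≤ K) {X Y : ℂ} (hX : X ≠ 0) (l η : ℝ) :
    (EF0 a K j t).re (px l η X Y) = Dd a X.re X.im ^ K * NF0 a j t X Y η := by
  obtain ⟨m, rfl⟩ := Nat.exists_eq_add_of_le hK
  have hD := (Dd_pos a X.re X.im).ne'
  have e1 : j + 1 + m - j - 1 = m := by omega
  have e2 : j + 1 + m - j = m + 1 := by omega
  simp only [EF0, Ex.re, apE_re, ePR, ev2_mu, ev2_ad, e_sb, e_x, e_y, e1, e2]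
  rw [show (px l η X Y).f = X.re - 1 from rfl, show (px l η X Y).g = X.im from rfl, Dn_ev, Dn_ev,
    show (px l η X Y).b = Real.sin (η / 2) from rfl, show (px l η X Y).c = Real.cos (η / 2) from rfl,
    show (px l η X Y).d = Real.sin (η / 2) * (Y / X).re from rfl,
    show (px l η X Y).e = Real.sin (η / 2) * (Y / X).im from rfl]
  unfold NF0 NG
  rw [qcY hX]
  beta_reduce
  rw [af_ash20, af_adas, pow_one]
  unfold Rr
  simp only [mul_re, mul_im, add_re, add_im, ofReal_re, ofReal_im, I_re, I_im, conj_re, conj_im]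
  unfold af
  have e4 : (1:ℝ) + (X.re - 1) = X.re := by ring
  rw [e4]
  have p1 : Dd a X.re X.im ^ (j + 1 + m) = Dd a X.re X.im ^ j * Dd a X.re X.im *
      Dd a X.re X.im ^ m := by rw [pow_add, pow_succ]
  have p2 : Dd a X.re X.im ^ (j + 1) = Dd a X.re X.im ^ j * Dd a X.re X.im := by rw [pow_succ]
  have p3 : Dd a X.re X.im ^ (m + 1) = Dd a X.re X.im ^ m * Dd a X.re X.im := by rw [pow_succ]
  rw [p1, p2, p3]
  field_simp
  push_cast
  ring

theorem EF1_re (t : AP × BP) (hK : j + 1 ≤ K) {X Y : ℂ} (hX : X ≠ 0) (l η : ℝ) :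
    (EF1 a K j t).re (px l η X Y) = Dd a X.re X.im ^ K * NF1 a j t X Y η := by
  obtain ⟨m, rfl⟩ := Nat.exists_eq_add_of_le hK
  have hD := (Dd_pos a X.re X.im).ne'
  have e1 : j + 1 + m - j - 1 = m := by omega
  have e2 : j + 1 + m - j = m + 1 := by omega
  simp only [EF1, Ex.re, apE_re, ePR, ev2_mu, ev2_ad, e_sb, e_x, e_y, e1, e2]
  rw [show (px l η X Y).f = X.re - 1 from rfl, show (px l η X Y).g = X.im from rfl, Dn_ev, Dn_ev,
    show (px l η X Y).b = Real.sin (η / 2) from rfl, show (px l η X Y).c = Real.cos (η / 2) from rfl,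
    show (px l η X Y).d = Real.sin (η / 2) * (Y / X).re from rfl,
    show (px l η X Y).e = Real.sin (η / 2) * (Y / X).im from rfl]
  unfold NF1 NG
  rw [qcY hX]
  beta_reduce
  rw [af_ash20, af_adas, pow_one]
  unfold Rr
  simp only [mul_re, mul_im, add_re, add_im, ofReal_re, ofReal_im, I_re, I_im, conj_re, conj_im]
  unfold af
  have e4 : (1:ℝ) + (X.re - 1) = X.re := by ring
  rw [e4]
  have p1 : Dd a X.re X.im ^ (j + 1 + m) = Dd a X.re X.im ^ j * Dd a X.re X.im *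
      Dd a X.re X.im ^ m := by rw [pow_add, pow_succ]
  have p2 : Dd a X.re X.im ^ (j + 1) = Dd a X.re X.im ^ j * Dd a X.re X.im := by rw [pow_succ]
  have p3 : Dd a X.re X.im ^ (m + 1) = Dd a X.re X.im ^ m * Dd a X.re X.im := by rw [pow_succ]
  rw [p1, p2, p3]
  field_simp
  push_cast
  ring

end

def EH (a : DQ) (K : ℕ) (t : AP × ℕ) : Ex :=
  Ex.add (Ex.mul (Ex.mul (Ex.sc (-8) (apE t.1)) (Ex.mul (Ex.va 3) (Ex.va 4)))
      (Ex.bp (mu2 (reB t.2) (Dn a K))))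
    (Ex.mul (Ex.mul (Ex.sc 4 (apE t.1)) (Ex.add (Ex.pow (Ex.va 4) 2) (Ex.sc (-1) (Ex.pow (Ex.va 3) 2))))
      (Ex.bp (mu2 (imB t.2) (Dn a K))))

theorem EH_re (a : DQ) (K : ℕ) (t : AP × ℕ) (ht : t.2 ≤ 2) (X Y : ℂ) (l η : ℝ) :
    (EH a K t).re (px l η X Y) = Dd a X.re X.im ^ K * NH t X Y η := by
  simp only [EH, Ex.re, apE_re, ev2_mu]
  rw [show (px l η X Y).f = X.re - 1 from rfl, show (px l η X Y).g = X.im from rfl, Dn_ev,
    reB_ev _ ht, imB_ev _ ht,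
    show (px l η X Y).b = Real.sin (η / 2) from rfl, show (px l η X Y).c = Real.cos (η / 2) from rfl,
    show (px l η X Y).d = Real.sin (η / 2) * (Y / X).re from rfl,
    show (px l η X Y).e = Real.sin (η / 2) * (Y / X).im from rfl]
  unfold NH NG
  have e : (t.2 : ℂ) * (X - 1) ^ (t.2 - 1) + I * (I * ((t.2 : ℂ) * (X - 1) ^ (t.2 - 1))) = 0 := by
    linear_combination ((t.2 : ℂ) * (X - 1) ^ (t.2 - 1)) * I_sq
  rw [e, zero_mul]
  beta_reduce
  rw [af_ash20]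
  unfold af
  rw [pow_two (Y / X)]
  simp only [zero_re, mul_re, mul_im]
  push_cast
  ring

end Pool.Agent.Helper69.EK6

end

section

namespace Pool.Sos71
end Pool.Sos71
namespace Pool.EK71
end Pool.EK71
namespace Pool.Agent.Helper52.EK
end Pool.Agent.Helper52.EK
namespace Pool.Agent.Helper2.EK
end Pool.Agent.Helper2.EK
namespace Pool.Agent.Helper71.EK3
end Pool.Agent.Helper71.EK3
namespace Pool.Agent.Helper71.EKC
end Pool.Agent.Helper71.EKC

set_option autoImplicit false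

open Complex MeasureTheory Metric Set

open scoped Real ComplexConjugate

namespace Pool.Agent.Helper69.EK3

open Pool.Sos71

open Pool.EK71 Pool.Agent.Helper52.EK Pool.Agent.Helper2.EK

open Pool.Agent.Helper71.EK3 (xL yL r2L FL G2L e_x e_y e_r2 e_F e_G2)

open Pool.Agent.Helper71.EKC (Da Da_pos pw2 e_pw sb2 e_sb)

/-- one side of the field: `b = m + sg l (α m + β)`, `r (n - 1) + sg l (r0 + r1 |m+1|² + r2 n) = 0`;
`Ma = M α`, `Mb = M β`, `Maa = M α²`, `Mab = M α β`, `Mbb = M β²` -/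
structure Sd where
  sg : ℤ
  Ma : ℤ
  Mb : ℤ
  Maa : ℤ
  Mab : ℤ
  Mbb : ℤ
  r : ℤ
  r0 : ℤ
  r1 : ℤ
  r2 : ℤ
  L0 : List (AP × BP)
  L1 : List (AP × BP)

def eA : Ex := Ex.sc 2 (Ex.mul (Ex.va 1) (Ex.va 2))

def eB : Ex := Ex.add (Ex.pow (Ex.va 2) 2) (Ex.sc (-1) (Ex.pow (Ex.va 1) 2))

def eo : Ex := Ex.add (Ex.pow (Ex.va 2) 2) (Ex.pow (Ex.va 1) 2)

def eone : Ex := Ex.pow eo 2

/-- `Re e₀` -/
def eRe : Ex := Ex.add (Ex.pow eA 2) (Ex.sc (-1) (Ex.pow eB 2))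

/-- `cos kη`, `sin kη` -/
def csE : ℕ → Ex × Ex
  | 0 => (Ex.lit 1, Ex.lit 0)
  | k + 1 => (Ex.add (Ex.mul (csE k).1 eB) (Ex.sc (-1) (Ex.mul (csE k).2 eA)),
      Ex.add (Ex.mul (csE k).2 eB) (Ex.mul (csE k).1 eA))

/-- sum of a list of expressions -/
def sumE {ι : Type} (f : ι → Ex) (base : Ex) : List ι → Ex
  | [] => base
  | t :: L => Ex.add (f t) (sumE f base L)

namespace Dat

variable (c : Dat)

end Dat

theorem sumE_re {ι : Type} (f : ι → Ex) (base : Ex) (L : List ι) (x : Pnt) :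
    (sumE f base L).re x = (L.map fun t => (f t).re x).sum + base.re x := by
  induction L with
  | nil => simp [sumE]
  | cons t L ih =>
    simp only [sumE, List.map_cons, List.sum_cons]
    show (f t).re x + (sumE f base L).re x = _
    rw [ih]
    ring

/-- `m + 1 = 2 (s + i c) s (2X - 1 + q)` -/
theorem mX_add {X Y : ℂ} {s c : ℝ} (hsc : s ^ 2 + c ^ 2 = 1) :
    mX X Y s c + 1 = 2 * ((s : ℂ) + (c : ℂ) * I) *
      (((s * (2 * X.re - 1) + s * (Y / X).re : ℝ) : ℂ) +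
        ((s * (2 * X.im) + s * (Y / X).im : ℝ) : ℂ) * I) := by
  have h1 : 2 * X - 1 + Y / X = ((2 * X.re - 1 + (Y / X).re : ℝ) : ℂ) +
      ((2 * X.im + (Y / X).im : ℝ) : ℂ) * I := by
    apply Complex.ext
    · simp
    · simp
  have h2 : 1 + e0 s c = 2 * (s : ℂ) * ((s : ℂ) + (c : ℂ) * I) := by
    unfold e0
    have h3 : (s : ℂ) ^ 2 + (c : ℂ) ^ 2 = 1 := by exact_mod_cast hsc
    linear_combination -h3 - (s : ℂ) ^ 2 * I_sq
  unfold mX
  rw [h1, h2]
  push_cast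
  ring

section val

variable (l η : ℝ) (X Y : ℂ)

theorem norm_e0 : ‖e0 (Real.sin η) (Real.cos η)‖ = 1 := by
  have h1 : ‖(Real.cos η : ℂ) - (Real.sin η : ℂ) * I‖ ^ 2 = 1 := by
    rw [nq_sq]
    simp only [sub_re, sub_im, mul_re, mul_im, ofReal_re, ofReal_im, I_re, I_im, mul_zero,
      mul_one, sub_zero, add_zero, zero_add, zero_sub]
    (clear * -; linarith only [Real.sin_sq_add_cos_sq η])
  unfold e0
  rw [norm_neg, norm_pow, h1]

end val

end Pool.Agent.Helper69.EK3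

end

section

namespace Pool.Sos71
end Pool.Sos71
namespace Pool.EK71
end Pool.EK71
namespace Pool.Agent.Helper52.EK
end Pool.Agent.Helper52.EK
namespace Pool.Agent.Helper2.EK
end Pool.Agent.Helper2.EK
namespace Pool.Agent.Helper69.EK3
end Pool.Agent.Helper69.EK3
namespace Pool.Agent.Helper69.EK5
end Pool.Agent.Helper69.EK5
namespace Pool.Agent.Helper71.EK3
end Pool.Agent.Helper71.EK3
namespace Pool.Agent.Helper71.EKC
end Pool.Agent.Helper71.EKC

set_option autoImplicit false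

open Complex MeasureTheory Metric Set

open scoped Real ComplexConjugate

namespace Pool.Agent.Helper69.EK6

open Pool.Sos71

open Pool.EK71 Pool.Agent.Helper52.EK Pool.Agent.Helper2.EK

open Pool.Agent.Helper69.EK3

open Pool.Agent.Helper69.EK5 (DQ Dd Dd_pos Dd_low DL e_D qX qY qL Rr c1_Rr Dn Dn_ev)

open Pool.Agent.Helper71.EK3 (xL yL r2L FL G2L e_x e_y e_r2 e_F e_G2)

open Pool.Agent.Helper71.EKC (c1_unique pw2 e_pw sb2 e_sb)

structure Dat where
  a : DQ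
  K : ℕ
  kU : ℕ
  kV : ℕ
  kF : ℕ
  kL : ℕ
  h : ℕ
  M : ℤ
  lam : ℤ
  c1 : ℤ
  a2 : ℤ
  UU : List (AP × BP)
  VX : List (AP × BP)
  VE : List (AP × BP)
  F0 : List (AP × BP)
  F1 : List (AP × BP)
  HH : List (AP × ℕ)
  HM : List (ℕ × Bool × ℤ)
  fi : Sd
  fo : Sd

/-- `sin η Re q`, `sin η Im q` -/
def eP : Ex := Ex.mul (Ex.sc 2 (Ex.va 2)) (Ex.va 3)

def eR : Ex := Ex.mul (Ex.sc 2 (Ex.va 2)) (Ex.va 4)

def es1 : Ex := Ex.add (Ex.mul eA (Ex.bp [[1], [2]])) eP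

def es2 : Ex := Ex.add (Ex.mul eA (Ex.bp [[0, 2]])) eR

def et1 : Ex := Ex.add (Ex.mul eA (Ex.bp [[0], [2]])) eP

def esq : Ex := Ex.add (Ex.pow es1 2) (Ex.pow es2 2)

/-- `n - 1` -/
def eNM : Ex := Ex.sc 4 (Ex.add esq (Ex.add (Ex.sc (-1) (Ex.mul eA es1)) (Ex.mul eB es2)))

/-- `|m - e₀|²` -/
def eME : Ex := Ex.sc 4 (Ex.add (Ex.pow et1 2) (Ex.pow es2 2))

/-- `Re m` -/
def eRm : Ex := Ex.add (Ex.sc 2 (Ex.add (Ex.mul eA es1) (Ex.sc (-1) (Ex.mul eB es2))))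
  (Ex.sc (-1) eone)

def eTT (M : ℤ) (f : Sd) : Ex :=
  Ex.add (Ex.sc M eME) (Ex.add
    (Ex.mul (Ex.sc f.sg (Ex.va 0)) (Ex.add (Ex.sc f.Ma (Ex.add eNM eME))
      (Ex.sc (2 * f.Mb) (Ex.add eRm (Ex.sc (-1) eRe)))))
    (Ex.mul (Ex.pow (Ex.va 0) 2) (Ex.add (Ex.sc f.Maa (Ex.add eNM eone))
      (Ex.add (Ex.sc (2 * f.Mab) eRm) (Ex.sc f.Mbb eone)))))

def eCon (f : Sd) : Ex :=
  Ex.add (Ex.sc f.r eNM) (Ex.mul (Ex.sc f.sg (Ex.va 0)) (Ex.add (Ex.sc f.r0 eone)
    (Ex.add (Ex.sc (4 * f.r1) esq) (Ex.sc f.r2 (Ex.add eNM eone)))))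

def mulE (a : DQ) (K k : ℕ) (t : AP × BP) : Ex := Ex.mul (apE t.1) (Ex.bp (mu2 t.2 (Dn a (K - k))))

def EHM (a : DQ) (K h : ℕ) (t : ℕ × Bool × ℤ) : Ex :=
  Ex.mul (Ex.mul (Ex.sc t.2.2 (if t.2.1 then (csE t.1).1 else (csE t.1).2)) (Ex.pow eo (h - t.1)))
    (Ex.bp (mu2 G2L (Dn a K)))

namespace Dat

variable (c : Dat)

/-- the null Lagrangians and `lam |X-1|² + a₂ Re (X-1)²`, times `D^K` -/
def tN : Ex :=
  sumE (EU c.a c.K c.kU) (sumE (EVX c.a c.K c.kV) (sumE (EVE c.a c.K c.kV)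
    (sumE (EF0 c.a c.K c.kF) (sumE (EF1 c.a c.K c.kF) (sumE (EH c.a c.K)
      (sumE (EHM c.a c.K c.h)
        (Ex.mul (Ex.pow eo c.h) (Ex.bp (mu2 (ad2 (sm2 c.lam FL) (sm2 c.a2 G2L)) (Dn c.a c.K))))
        c.HM) c.HH) c.F1) c.F0) c.VE) c.VX) c.UU

def tMul (f : Sd) : Ex :=
  Ex.add (sumE (mulE c.a c.K c.kL) (Ex.sc 0 (Ex.pow eo (c.h - 2))) f.L0)
    (Ex.mul (Ex.va 0) (sumE (mulE c.a c.K c.kL) (Ex.sc 0 (Ex.pow eo (c.h - 2))) f.L1))

def tSide (f : Sd) : Ex :=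
  Ex.add c.tN (Ex.add
    (Ex.mul (Ex.mul (Ex.pow eo (c.h - 2)) (Ex.bp (sm2 (-1) (Dn c.a c.K)))) (eTT c.M f))
    (Ex.mul (c.tMul f) (eCon f)))

end Dat

theorem px_A (l η : ℝ) (X Y : ℂ) : eA.re (px l η X Y) = Real.sin η := by
  have e : Real.sin η = 2 * Real.sin (η / 2) * Real.cos (η / 2) := by
    rw [← Real.sin_two_mul]
    congr 1
    ring
  rw [e]
  simp only [eA, Ex.re, px]
  push_cast
  ring

theorem px_B (l η : ℝ) (X Y : ℂ) : eB.re (px l η X Y) = Real.cos η := by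
  have e : Real.cos η = Real.cos (η / 2) ^ 2 - Real.sin (η / 2) ^ 2 := by
    rw [← Real.cos_two_mul']
    congr 1
    ring
  rw [e]
  simp only [eB, Ex.re, px]
  push_cast
  ring

theorem px_o (l η : ℝ) (X Y : ℂ) : eo.re (px l η X Y) = 1 := by
  simp only [eo, Ex.re, px]
  exact Real.cos_sq_add_sin_sq _

theorem csE_re (k : ℕ) (l η : ℝ) (X Y : ℂ) :
    (csE k).1.re (px l η X Y) = Real.cos (k * η) ∧ (csE k).2.re (px l η X Y) = Real.sin (k * η) := by
  induction k with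
  | zero => simp [csE, Ex.re]
  | succ k ih =>
    have e : ((k + 1 : ℕ) : ℝ) * η = k * η + η := by push_cast; ring
    rw [e, Real.cos_add, Real.sin_add]
    constructor
    · show (csE k).1.re _ * eB.re _ + (-1 : ℤ) * ((csE k).2.re _ * eA.re _) = _
      rw [ih.1, ih.2, px_A, px_B]
      push_cast
      ring
    · show (csE k).2.re _ * eB.re _ + (csE k).1.re _ * eA.re _ = _
      rw [ih.1, ih.2, px_A, px_B]

section val

variable (l η : ℝ) (X Y : ℂ)

theorem px_P : eP.re (px l η X Y) = Real.sin η * (Y / X).re := by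
  have e : Real.sin η = 2 * Real.sin (η / 2) * Real.cos (η / 2) := by
    rw [← Real.sin_two_mul]
    congr 1
    ring
  rw [e]
  simp only [eP, Ex.re, px]
  push_cast
  ring

theorem px_R : eR.re (px l η X Y) = Real.sin η * (Y / X).im := by
  have e : Real.sin η = 2 * Real.sin (η / 2) * Real.cos (η / 2) := by
    rw [← Real.sin_two_mul]
    congr 1
    ring
  rw [e]
  simp only [eR, Ex.re, px]
  push_cast
  ring

theorem px_s1 : es1.re (px l η X Y) =
    Real.sin η * (2 * X.re - 1) + Real.sin η * (Y / X).re := by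
  show eA.re _ * (Ex.bp [[1], [2]]).re _ + eP.re _ = _
  rw [px_A, px_P]
  simp only [Ex.re, ev2, ev1, px]
  push_cast
  ring

theorem px_s2 : es2.re (px l η X Y) = Real.sin η * (2 * X.im) + Real.sin η * (Y / X).im := by
  show eA.re _ * (Ex.bp [[0, 2]]).re _ + eR.re _ = _
  rw [px_A, px_R]
  simp only [Ex.re, ev2, ev1, px]
  push_cast
  ring

theorem px_t1 : et1.re (px l η X Y) = Real.sin η * (2 * (X.re - 1)) + Real.sin η * (Y / X).re := by
  show eA.re _ * (Ex.bp [[0], [2]]).re _ + eP.re _ = _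
  rw [px_A, px_P]
  simp only [Ex.re, ev2, ev1, px]
  push_cast
  ring

theorem px_sq : esq.re (px l η X Y) = ‖mX X Y (Real.sin η) (Real.cos η) + 1‖ ^ 2 / 4 := by
  show es1.re _ ^ 2 + es2.re _ ^ 2 = _
  rw [px_s1, px_s2, mX_add (Real.sin_sq_add_cos_sq η), norm_mul, norm_mul, mul_pow, mul_pow,
    nq_sq ((Real.sin η : ℂ) + _), nq_sq ((((_ : ℝ) : ℂ)) + _)]
  simp only [add_re, add_im, mul_re, mul_im, ofReal_re, ofReal_im, I_re, I_im, mul_zero,
    mul_one, sub_zero, add_zero, zero_add, Complex.norm_ofNat]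
  have h := Real.sin_sq_add_cos_sq η
  linear_combination (-((Real.sin η * (2 * X.re - 1) + Real.sin η * (Y / X).re) ^ 2 +
    (Real.sin η * (2 * X.im) + Real.sin η * (Y / X).im) ^ 2)) * h

theorem px_Rm : eRm.re (px l η X Y) = (mX X Y (Real.sin η) (Real.cos η)).re := by
  show (2:ℤ) * (eA.re _ * es1.re _ + (-1 : ℤ) * (eB.re _ * es2.re _)) +
    (-1 : ℤ) * (eo.re _ ^ 2) = _
  rw [px_A, px_B, px_o, px_s1, px_s2]
  have h := congrArg Complex.re (mX_add (X := X) (Y := Y) (Real.sin_sq_add_cos_sq η))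
  simp only [add_re, add_im, mul_re, mul_im, ofReal_re, ofReal_im, I_re, I_im, mul_zero,
    mul_one, sub_zero, add_zero, zero_add, one_re, re_ofNat, im_ofNat] at h
  push_cast
  linear_combination -h

theorem px_NM : eNM.re (px l η X Y) = ‖mX X Y (Real.sin η) (Real.cos η)‖ ^ 2 - 1 := by
  show (4:ℤ) * (esq.re _ + ((-1 : ℤ) * (eA.re _ * es1.re _) + eB.re _ * es2.re _)) = _
  have h1 := px_sq l η X Y
  have h2 := px_Rm l η X Y
  have h3 : eRm.re (px l η X Y) = (2:ℤ) * (eA.re (px l η X Y) * es1.re (px l η X Y) +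
    (-1 : ℤ) * (eB.re (px l η X Y) * es2.re (px l η X Y))) + (-1 : ℤ) *
      (eo.re (px l η X Y) ^ 2) := rfl
  rw [px_o] at h3
  have h4 : ‖mX X Y (Real.sin η) (Real.cos η) + 1‖ ^ 2 =
      ‖mX X Y (Real.sin η) (Real.cos η)‖ ^ 2 + 2 * (mX X Y (Real.sin η) (Real.cos η)).re + 1 := by
    rw [nq_sq, nq_sq]
    simp only [add_re, add_im, one_re, one_im]
    ring
  rw [h4] at h1
  rw [h2] at h3
  push_cast at h3 ⊢
  linear_combination 4 * h1 + 2 * h3

theorem px_ME : eME.re (px l η X Y) =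
    ‖mX X Y (Real.sin η) (Real.cos η) - e0 (Real.sin η) (Real.cos η)‖ ^ 2 := by
  show (4:ℤ) * (et1.re _ ^ 2 + es2.re _ ^ 2) = _
  rw [px_t1, px_s2]
  have h0 : mX X Y (Real.sin η) (Real.cos η) - e0 (Real.sin η) (Real.cos η) =
      (1 + e0 (Real.sin η) (Real.cos η)) * (2 * X - 2 + Y / X) := by
    unfold mX
    ring
  have h2 : 1 + e0 (Real.sin η) (Real.cos η) =
      2 * (Real.sin η : ℂ) * ((Real.sin η : ℂ) + (Real.cos η : ℂ) * I) := by
    unfold e0
    have h3 : (Real.sin η : ℂ) ^ 2 + (Real.cos η : ℂ) ^ 2 = 1 := by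
      exact_mod_cast Real.sin_sq_add_cos_sq η
    linear_combination -h3 - (Real.sin η : ℂ) ^ 2 * I_sq
  have h4 : ‖(Real.sin η : ℂ) + (Real.cos η : ℂ) * I‖ ^ 2 = 1 := by
    rw [nq_sq]
    simp only [add_re, add_im, mul_re, mul_im, ofReal_re, ofReal_im, I_re, I_im, mul_zero,
      mul_one, sub_zero, add_zero, zero_add]
    exact Real.sin_sq_add_cos_sq η
  rw [h0, h2, norm_mul, mul_pow, norm_mul, mul_pow, h4, norm_mul, mul_pow, Complex.norm_real,
    Real.norm_eq_abs, sq_abs, nq_sq (2 * X - 2 + Y / X)]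
  simp only [add_re, add_im, sub_re, sub_im, mul_re, mul_im, re_ofNat, im_ofNat,
    Complex.norm_ofNat]
  push_cast
  ring

theorem px_Re : eRe.re (px l η X Y) = (e0 (Real.sin η) (Real.cos η)).re := by
  show eA.re _ ^ 2 + (-1 : ℤ) * eB.re _ ^ 2 = _
  rw [px_A, px_B]
  unfold e0
  rw [pow_two ((Real.cos η : ℂ) - _)]
  simp only [neg_re, mul_re, mul_im, sub_re, sub_im, ofReal_re, ofReal_im, I_re, I_im]
  push_cast
  ring

/-- **the loss at a field value `m + sg l (α m + β)`** -/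
theorem px_TT {M : ℤ} {f : Sd} {α β : ℝ} (h1 : (f.Ma : ℝ) = M * α) (h2 : (f.Mb : ℝ) = M * β)
    (h3 : (f.Maa : ℝ) = M * α ^ 2) (h4 : (f.Mab : ℝ) = M * (α * β)) (h5 : (f.Mbb : ℝ) = M * β ^ 2)
    (hs : (f.sg : ℝ) ^ 2 = 1) :
    (eTT M f).re (px l η X Y) = M * ‖mX X Y (Real.sin η) (Real.cos η) +
      (((f.sg : ℝ) * l : ℝ) : ℂ) * ((α : ℂ) * mX X Y (Real.sin η) (Real.cos η) + (β : ℂ)) -
      e0 (Real.sin η) (Real.cos η)‖ ^ 2 := by
  have e : (eTT M f).re (px l η X Y) = M * eME.re (px l η X Y) + ((f.sg * l) *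
      (f.Ma * (eNM.re (px l η X Y) + eME.re (px l η X Y)) + ((2 * f.Mb : ℤ) : ℝ) *
      (eRm.re (px l η X Y) + ((-1 : ℤ) : ℝ) * eRe.re (px l η X Y))) + l ^ 2 *
      (f.Maa * (eNM.re (px l η X Y) + eo.re (px l η X Y) ^ 2) + (((2 * f.Mab : ℤ) : ℝ) *
      eRm.re (px l η X Y) + f.Mbb * eo.re (px l η X Y) ^ 2))) := rfl
  rw [e, px_ME, px_NM, px_Rm, px_Re, px_o]
  have n0 := norm_e0 η
  generalize mX X Y (Real.sin η) (Real.cos η) = m
  have n1 : ‖e0 (Real.sin η) (Real.cos η)‖ ^ 2 = 1 := by rw [n0]; norm_num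
  generalize e0 (Real.sin η) (Real.cos η) = z at n1
  rw [nq_sq] at n1
  rw [nq_sq, nq_sq, nq_sq]
  simp only [add_re, add_im, sub_re, sub_im, mul_re, mul_im, ofReal_re, ofReal_im]
  push_cast
  rw [h1, h2, h3, h4, h5]
  linear_combination (f.sg * l * M * α) * n1 +
    (-(l ^ 2 * M) * ((α * m.re + β) ^ 2 + (α * m.im) ^ 2)) * hs

theorem px_Con (f : Sd) : (eCon f).re (px l η X Y) =
    f.r * (‖mX X Y (Real.sin η) (Real.cos η)‖ ^ 2 - 1) + f.sg * l *
      (f.r0 + f.r1 * ‖mX X Y (Real.sin η) (Real.cos η) + 1‖ ^ 2 +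
        f.r2 * ‖mX X Y (Real.sin η) (Real.cos η)‖ ^ 2) := by
  have e : (eCon f).re (px l η X Y) = f.r * eNM.re (px l η X Y) + (f.sg * l) *
      (f.r0 * eo.re (px l η X Y) ^ 2 + (((4 * f.r1 : ℤ) : ℝ) * esq.re (px l η X Y) +
      f.r2 * (eNM.re (px l η X Y) + eo.re (px l η X Y) ^ 2))) := rfl
  rw [e, px_NM, px_sq, px_o]
  push_cast
  ring

end val

end Pool.Agent.Helper69.EK6

end

section

namespace Pool.Sos71
end Pool.Sos71
namespace Pool.EK71
end Pool.EK71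
namespace Pool.Agent.Helper52.EK
end Pool.Agent.Helper52.EK
namespace Pool.Agent.Helper2.EK
end Pool.Agent.Helper2.EK
namespace Pool.Agent.Helper71.EK3
end Pool.Agent.Helper71.EK3
namespace Pool.Agent.Helper71.EKC
end Pool.Agent.Helper71.EKC

set_option autoImplicit false

open Complex MeasureTheory Metric Set

open scoped Real ComplexConjugate

namespace Pool.Agent.Helper69.EK3

open Pool.Sos71

open Pool.EK71 Pool.Agent.Helper52.EK Pool.Agent.Helper2.EK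

open Pool.Agent.Helper71.EK3 (xL yL r2L FL G2L e_x e_y e_r2 e_F e_G2)

open Pool.Agent.Helper71.EKC (Da Da_pos pw2 e_pw sb2 e_sb c1_unique c1_conj)

/-- parity of a polynomial in `y`; `true`: even -/
def par : Bool → List ℤ → Bool
  | _, [] => true
  | true, _ :: l => par false l
  | false, a :: l => decide (a = 0) && par true l

def par2 (b : Bool) (P : BP) : Bool := P.all (par b)

theorem par_ev (y : ℝ) (l : List ℤ) : (par true l = true → ev1 (-y) l = ev1 y l) ∧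
    (par false l = true → ev1 (-y) l = - ev1 y l) := by
  induction l with
  | nil => simp [ev1]
  | cons a l ih =>
    constructor
    · intro h
      simp only [par] at h
      simp only [ev1, ih.2 h]
      ring
    · intro h
      simp only [par, Bool.and_eq_true, decide_eq_true_eq] at h
      simp only [ev1, ih.1 h.2, h.1]
      push_cast
      ring

theorem par2_even (x y : ℝ) (P : BP) (h : par2 true P = true) : ev2 x (-y) P = ev2 x y P := by
  induction P with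
  | nil => simp [ev2]
  | cons r P ih =>
    simp only [par2, List.all_cons, Bool.and_eq_true] at h
    simp only [ev2, (par_ev y r).1 h.1, ih h.2]

theorem par2_odd (x y : ℝ) (P : BP) (h : par2 false P = true) : ev2 x (-y) P = - ev2 x y P := by
  induction P with
  | nil => simp [ev2]
  | cons r P ih =>
    simp only [par2, List.all_cons, Bool.and_eq_true] at h
    simp only [ev2, (par_ev y r).2 h.1, ih h.2]
    ring

/-- `y ↦ -y` -/
def fl1 (s : ℤ) : List ℤ → List ℤ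
  | [] => []
  | a :: l => Int.mul s a :: fl1 (-s) l

def fl2 (P : BP) : BP := P.map (fl1 1)

theorem fl1_ev (s : ℤ) (y : ℝ) (l : List ℤ) : ev1 y (fl1 s l) = s * ev1 (-y) l := by
  induction l generalizing s with
  | nil => simp [fl1, ev1]
  | cons a l ih =>
    simp only [fl1, ev1, ih, imul_cast']
    push_cast
    ring

theorem fl2_ev (x y : ℝ) (P : BP) : ev2 x y (fl2 P) = ev2 x (-y) P := by
  induction P with
  | nil => simp [fl2, ev2]
  | cons r P ih =>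
    have ih' : ev2 x y (P.map (fl1 1)) = ev2 x (-y) P := ih
    simp only [fl2, List.map_cons, ev2, fl1_ev, ih']
    push_cast
    ring

theorem asum_ash (a b : ℕ) (g : AP) : asum (ash a b g) = asum g := by
  induction g with
  | nil => rfl
  | cons t g ih =>
    obtain ⟨c, i, j⟩ := t
    simp only [ash, asum, ih]

/-- `12 ∫ cos kη` resp. `12 ∫ sin kη` over `(0, π/2)`, `1 ≤ k ≤ 4` -/
def hmv : ℕ → Bool → ℤ
  | 1, true => 12
  | 3, true => -4
  | 1, false => 12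
  | 2, false => 12
  | 3, false => 4
  | _, _ => 0

noncomputable def trg (k : ℕ) (b : Bool) (η : ℝ) : ℝ := if b then Real.cos (k * η) else Real.sin (k * η)

theorem trg_cont (k : ℕ) (b : Bool) : Continuous (trg k b) := by
  unfold trg
  cases b
  · simpa using (by fun_prop : Continuous fun η : ℝ => Real.sin (k * η))
  · simpa using (by fun_prop : Continuous fun η : ℝ => Real.cos (k * η))

theorem trg_int (k : ℕ) (b : Bool) (h1 : 1 ≤ k) (h2 : k ≤ 4) :
    12 * ∫ t in (0:ℝ)..(π / 2), trg k b t = hmv k b := by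
  have hk : (k : ℝ) ≠ 0 := by (clear * - h1; positivity)
  cases b
  · have e : ∫ t in (0:ℝ)..(π / 2), trg k false t = (k : ℝ)⁻¹ * (1 - Real.cos (k * (π / 2))) := by
      simp only [trg, Bool.false_eq_true, if_false]
      rw [intervalIntegral.integral_comp_mul_left (fun t => Real.sin t) hk, integral_sin,
        smul_eq_mul, mul_zero, Real.cos_zero]
    rw [e]
    interval_cases k
    · simp [hmv]
    · have : ((2 : ℕ) : ℝ) * (π / 2) = π := by push_cast; ring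
      rw [this, Real.cos_pi]
      simp [hmv]
      norm_num
    · have : ((3 : ℕ) : ℝ) * (π / 2) = π + π / 2 := by push_cast; ring
      rw [this, Real.cos_add, Real.cos_pi_div_two, Real.sin_pi]
      simp [hmv]
      norm_num
    · have : ((4 : ℕ) : ℝ) * (π / 2) = 2 * π := by push_cast; ring
      rw [this, Real.cos_two_pi]
      simp [hmv]
  · have e : ∫ t in (0:ℝ)..(π / 2), trg k true t = (k : ℝ)⁻¹ * Real.sin (k * (π / 2)) := by
      simp only [trg, if_true]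
      rw [intervalIntegral.integral_comp_mul_left (fun t => Real.cos t) hk, integral_cos,
        smul_eq_mul, mul_zero, Real.sin_zero, sub_zero]
    rw [e]
    interval_cases k
    · simp [hmv]
    · have : ((2 : ℕ) : ℝ) * (π / 2) = π := by push_cast; ring
      rw [this, Real.sin_pi]
      simp [hmv]
    · have : ((3 : ℕ) : ℝ) * (π / 2) = π + π / 2 := by push_cast; ring
      rw [this, Real.sin_add, Real.cos_pi_div_two, Real.sin_pi, Real.cos_pi,
        Real.sin_pi_div_two]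
      simp [hmv]
      norm_num
    · have : ((4 : ℕ) : ℝ) * (π / 2) = 2 * π := by push_cast; ring
      rw [this, Real.sin_two_pi]
      simp [hmv]

noncomputable def NM (t : ℕ × Bool × ℤ) (X _Y : ℂ) (η : ℝ) : ℝ :=
  (t.2.2 : ℝ) * (trg t.1 t.2.1 η * ((X - 1) ^ 2).re)

noncomputable def KM (t : ℕ × Bool × ℤ) (X _Y : ℂ) : ℝ :=
  (t.2.2 : ℝ) * ((∫ u in (0:ℝ)..(π / 2), trg t.1 t.2.1 u) * ((X - 1) ^ 2).re)

theorem KM_conj {t : ℕ × Bool × ℤ} (h1 : 1 ≤ t.1) (h2 : t.1 ≤ 4) (X Y : ℂ) :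
    KM t X Y + KM t (conj X) (conj Y) =
      (t.2.2 : ℝ) * hmv t.1 t.2.1 / 6 * ((X.re - 1) ^ 2 - X.im ^ 2) := by
  have h3 : ∀ X : ℂ, ((X - 1) ^ 2).re = (X.re - 1) ^ 2 - X.im ^ 2 := by
    intro X
    rw [pow_two (X - 1), mul_re]
    simp
    ring
  have h4 := trg_int t.1 t.2.1 h1 h2
  unfold KM
  rw [h3, h3, ← h4, conj_re, conj_im]
  ring

end Pool.Agent.Helper69.EK3

end

section

namespace Pool.Sos71
end Pool.Sos71
namespace Pool.EK71
end Pool.EK71
namespace Pool.Agent.Helper52.EK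
end Pool.Agent.Helper52.EK
namespace Pool.Agent.Helper2.EK
end Pool.Agent.Helper2.EK
namespace Pool.Agent.Helper69.EK3
end Pool.Agent.Helper69.EK3
namespace Pool.Agent.Helper71.EK3
end Pool.Agent.Helper71.EK3
namespace Pool.Agent.Helper71.EKC
end Pool.Agent.Helper71.EKC

set_option autoImplicit false

open Complex MeasureTheory Metric Set

open scoped Real ComplexConjugate

namespace Pool.Agent.Helper69.EK5

open Pool.Sos71

open Pool.EK71 Pool.Agent.Helper52.EK Pool.Agent.Helper2.EK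

open Pool.Agent.Helper69.EK3

open Pool.Agent.Helper71.EK3 (xL yL r2L FL G2L e_x e_y e_r2 e_F e_G2)

open Pool.Agent.Helper71.EKC (c1_unique pw2 e_pw sb2 e_sb)

open Pool.Agent.Helper71.EKC (c1_conj)

theorem Dd_conj (a : DQ) (X : ℂ) : Dd a (conj X).re (conj X).im = Dd a X.re X.im := by
  simp [Dd]

theorem Rr_conj_even {a : DQ} {j : ℕ} {P : BP} (h : par2 true P = true) (X : ℂ) :
    Rr a j P (conj X) = Rr a j P X := by
  unfold Rr
  rw [Dd_conj, conj_re, conj_im, par2_even _ _ _ h]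

theorem Rr_conj_odd {a : DQ} {j : ℕ} {P : BP} (h : par2 false P = true) (X : ℂ) :
    Rr a j P (conj X) = - Rr a j P X := by
  unfold Rr
  rw [Dd_conj, conj_re, conj_im, par2_odd _ _ _ h]
  ring

/-- `R + R ∘ conj` -/
noncomputable def Rs (a : DQ) (j : ℕ) (P : BP) (X : ℂ) : ℝ := Rr a j P X + Rr a j P (conj X)

theorem dEta_conj {a : DQ} {j : ℕ} {P : BP} (h : par2 true P = true) (X Y : ℂ) :
    dEta (Rr a (j + 1) (qX a j P)) (Rr a (j + 1) (qY a j P)) X Y +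
      dEta (Rr a (j + 1) (qX a j P)) (Rr a (j + 1) (qY a j P)) (conj X) (conj Y) = 0 := by
  have h1 := c1_Rr a j P
  have h2 := c1_conj h1
  have h3 : C1f (fun X => Rr a j P X) (fun X => Rr a (j + 1) (qX a j P) (conj X))
      (fun X => - Rr a (j + 1) (qY a j P) (conj X)) :=
    c1_congr h2 (fun X => (Rr_conj_even h X).symm) (fun _ => rfl) (fun _ => rfl)
  obtain ⟨e1, e2⟩ := c1_unique h1 h3 X
  unfold dEta
  rw [conj_re, conj_im, e1, e2]
  ring

end Pool.Agent.Helper69.EK5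

end

section

namespace Pool.Sos71
end Pool.Sos71
namespace Pool.EK71
end Pool.EK71
namespace Pool.Agent.Helper52.EK
end Pool.Agent.Helper52.EK
namespace Pool.Agent.Helper2.EK
end Pool.Agent.Helper2.EK
namespace Pool.Agent.Helper69.EK3
end Pool.Agent.Helper69.EK3
namespace Pool.Agent.Helper69.EK5
end Pool.Agent.Helper69.EK5
namespace Pool.Agent.Helper71.EK3
end Pool.Agent.Helper71.EK3
namespace Pool.Agent.Helper71.EKC
end Pool.Agent.Helper71.EKC

set_option autoImplicit false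

open Complex MeasureTheory Metric Set

open scoped Real ComplexConjugate

namespace Pool.Agent.Helper69.EK6

open Pool.Sos71

open Pool.EK71 Pool.Agent.Helper52.EK Pool.Agent.Helper2.EK

open Pool.Agent.Helper69.EK3

open Pool.Agent.Helper69.EK5 (DQ Dd Dd_pos Dd_low DL e_D qX qY qL Rr c1_Rr Dn Dn_ev Dd_conj Rr_conj_even Rr_conj_odd Rs dEta_conj)

open Pool.Agent.Helper71.EK3 (xL yL r2L FL G2L e_x e_y e_r2 e_F e_G2)

open Pool.Agent.Helper71.EKC (c1_unique pw2 e_pw sb2 e_sb)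

open Pool.Agent.Helper71.EKC (c1_conj)

/-- conditions of the families -/
def okU (h j : ℕ) (t : AP × BP) : Bool :=
  dle (2 * j + 2) t.2 && ahom (2 * h - 2) t.1 && (decide (asum t.1 = 0) || par2 true t.2)

def okF (b : Bool) (h j : ℕ) (t : AP × BP) : Bool :=
  dle (2 * j + 2) t.2 && ahom (2 * h - 2) t.1 && (decide (asum t.1 = 0) || par2 b t.2)

theorem KU_conj {a : DQ} {j h : ℕ} (hh : 2 ≤ h) {t : AP × BP} (ht : okU h j t = true) (X Y : ℂ) :
    KU a j t X Y + KU a j t (conj X) (conj Y) =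
      - (2 * (asum (ader (ash 2 0 t.1)) : ℝ) / 2 ^ h * Rs a j t.2 X) := by
  simp only [okU, Bool.and_eq_true, Bool.or_eq_true, decide_eq_true_eq] at ht
  obtain ⟨⟨_, h2⟩, h3⟩ := ht
  have e0 : 2 * h - 2 + 2 + 0 = 2 * h := by omega
  have g1 : ahom (2 * h) (ash 2 0 t.1) = true := by
    have := ahom_ash 2 0 h2
    rwa [e0] at this
  have g2 := ahom_ader g1
  unfold KU Rs
  rw [af_half_even g1, af_half_even g2, asum_ash]
  rcases h3 with h3 | h3
  · rw [h3]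
    push_cast
    ring
  · have h4 := dEta_conj (a := a) (j := j) h3 X Y
    linear_combination (4 * ((asum t.1 : ℝ) / 2 ^ h)) * h4

theorem KVE_conj {a : DQ} {j h : ℕ} (hh : 2 ≤ h) {t : AP × BP} (ht : ahom (2 * h - 1) t.1 = true)
    (X Y : ℂ) : KVE a j t X Y + KVE a j t (conj X) (conj Y) =
      2 * (asum t.1 : ℝ) / 2 ^ h * Rs a j t.2 X := by
  have e0 : 2 * h - 1 + 1 + 0 = 2 * h := by omega
  have g1 : ahom (2 * h) (ash 1 0 t.1) = true := by
    have := ahom_ash 1 0 ht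
    rwa [e0] at this
  unfold KVE Rs
  rw [af_half_even g1, asum_ash]
  ring

theorem KF0_conj {a : DQ} {j h : ℕ} (hh : 2 ≤ h) {t : AP × BP} (ht : okF true h j t = true) (X Y : ℂ) :
    KF0 a j t X Y + KF0 a j t (conj X) (conj Y) = 0 := by
  simp only [okF, Bool.and_eq_true, Bool.or_eq_true, decide_eq_true_eq] at ht
  obtain ⟨⟨_, h2⟩, h3⟩ := ht
  have e0 : 2 * h - 2 + 2 + 0 = 2 * h := by omega
  have g1 : ahom (2 * h) (ash 2 0 t.1) = true := by
    have := ahom_ash 2 0 h2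
    rwa [e0] at this
  unfold KF0
  rw [af_half_even g1, asum_ash]
  rcases h3 with h3 | h3
  · rw [h3]
    simp
  · rw [Rr_conj_even h3, pow_one, pow_one, ← map_div₀]
    simp only [mul_im, ofReal_re, ofReal_im, conj_re, conj_im]
    ring

theorem KF1_conj {a : DQ} {j h : ℕ} (hh : 2 ≤ h) {t : AP × BP} (ht : okF false h j t = true) (X Y : ℂ) :
    KF1 a j t X Y + KF1 a j t (conj X) (conj Y) = 0 := by
  simp only [okF, Bool.and_eq_true, Bool.or_eq_true, decide_eq_true_eq] at ht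
  obtain ⟨⟨_, h2⟩, h3⟩ := ht
  have e0 : 2 * h - 2 + 2 + 0 = 2 * h := by (clear * - hh; omega)
  have g1 : ahom (2 * h) (ash 2 0 t.1) = true := by
    have := ahom_ash 2 0 h2
    rwa [e0] at this
  unfold KF1
  rw [af_half_even g1, asum_ash]
  rcases h3 with h3 | h3
  · rw [h3]
    simp
  · rw [Rr_conj_odd h3, pow_one, pow_one, ← map_div₀]
    simp only [mul_im, mul_re, I_re, I_im, ofReal_re, ofReal_im, conj_re, conj_im]
    ring

theorem KH_conj (t : AP × ℕ) (X Y : ℂ) : KH t X Y + KH t (conj X) (conj Y) = 0 := by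
  unfold KH
  have e : (conj X - 1) ^ t.2 * (conj Y / conj X) ^ 2 = conj ((X - 1) ^ t.2 * (Y / X) ^ 2) := by
    simp
  rw [e, conj_im]
  ring

theorem EHM_re (a : DQ) (K h : ℕ) (t : ℕ × Bool × ℤ) (X Y : ℂ) (l η : ℝ) :
    (EHM a K h t).re (px l η X Y) = Dd a X.re X.im ^ K * NM t X Y η := by
  have h1 := csE_re t.1 l η X Y
  have e : (EHM a K h t).re (px l η X Y) = (t.2.2 : ℝ) *
      ((if t.2.1 then (csE t.1).1 else (csE t.1).2).re (px l η X Y)) *
      (eo.re (px l η X Y) ^ (h - t.1)) * ev2 (X.re - 1) X.im (mu2 G2L (Dn a K)) := rfl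
  rw [e, px_o, one_pow, ev2_mu, e_G2, Dn_ev]
  have h3 : ((X - 1) ^ 2).re = (X.re - 1) ^ 2 - X.im ^ 2 := by
    rw [pow_two (X - 1), mul_re]
    simp
    ring
  unfold NM trg
  rw [h3]
  cases hb : t.2.1
  · simp only [Bool.false_eq_true, if_false, h1.2]
    ring
  · simp only [if_true, h1.1]
    ring

end Pool.Agent.Helper69.EK6

end

section

namespace Pool.Sos71
end Pool.Sos71
namespace Pool.EK71
end Pool.EK71
namespace Pool.Agent.Helper52.EK
end Pool.Agent.Helper52.EK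
namespace Pool.Agent.Helper2.EK
end Pool.Agent.Helper2.EK
namespace Pool.Agent.Helper71.EK3
end Pool.Agent.Helper71.EK3
namespace Pool.Agent.Helper71.EKC
end Pool.Agent.Helper71.EKC

set_option autoImplicit false

open Complex MeasureTheory Metric Set

open scoped Real ComplexConjugate

namespace Pool.Agent.Helper69.EK3

open Pool.Sos71

open Pool.EK71 Pool.Agent.Helper52.EK Pool.Agent.Helper2.EK

open Pool.Agent.Helper71.EK3 (xL yL r2L FL G2L e_x e_y e_r2 e_F e_G2)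

open Pool.Agent.Helper71.EKC (Da Da_pos pw2 e_pw sb2 e_sb c1_unique c1_conj)

/-- sum of a list of polynomials -/
def sumB {ι : Type} (f : ι → BP) (base : BP) : List ι → BP
  | [] => base
  | t :: L => ad2 (f t) (sumB f base L)

theorem sumB_ev {ι : Type} (f : ι → BP) (base : BP) (L : List ι) (x y : ℝ) :
    ev2 x y (sumB f base L) = (L.map fun t => ev2 x y (f t)).sum + ev2 x y base := by
  induction L with
  | nil => simp [sumB]
  | cons t L ih =>
    simp only [sumB, List.map_cons, List.sum_cons, ev2_ad, ih]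
    ring

theorem map_sum_mul {ι : Type} (L : List ι) (f : ι → ℝ) (c : ℝ) :
    (L.map fun t => c * f t).sum = c * (L.map f).sum := by
  induction L with
  | nil => simp
  | cons t L ih =>
    simp only [List.map_cons, List.sum_cons, ih]
    ring

theorem map_sum_add {ι : Type} (L : List ι) (f g : ι → ℝ) :
    (L.map f).sum + (L.map g).sum = (L.map fun t => f t + g t).sum := by
  induction L with
  | nil => simp
  | cons t L ih =>
    simp only [List.map_cons, List.sum_cons, ← ih]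
    ring

theorem map_sum_congr {ι : Type} (L : List ι) {f g : ι → ℝ} (h : ∀ t ∈ L, f t = g t) :
    (L.map f).sum = (L.map g).sum := by
  rw [List.map_congr_left h]

theorem c1_list {ι : Type} (L : List ι) (F : ι → ℂ → ℝ)
    (h : ∀ t, ∃ Fx Fy : ℂ → ℝ, C1f (F t) Fx Fy) :
    ∃ Fx Fy : ℂ → ℝ, C1f (fun X => (L.map fun t => F t X).sum) Fx Fy := by
  induction L with
  | nil => exact ⟨_, _, by simpa using c1_const 0⟩
  | cons t L ih =>
    obtain ⟨Ax, Ay, hA⟩ := h t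
    obtain ⟨Bx, By, hB⟩ := ih
    exact ⟨_, _, by simpa only [List.map_cons, List.sum_cons] using c1_add hA hB⟩

namespace Dat

variable (c : Dat)

variable {c}

variable (c)

variable {c}

end Dat

end Pool.Agent.Helper69.EK3

end

section

namespace Pool.Sos71
end Pool.Sos71
namespace Pool.EK71
end Pool.EK71
namespace Pool.Agent.Helper52.EK
end Pool.Agent.Helper52.EK
namespace Pool.Agent.Helper2.EK
end Pool.Agent.Helper2.EK
namespace Pool.Agent.Helper69.EK3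
end Pool.Agent.Helper69.EK3
namespace Pool.Agent.Helper69.EK5
end Pool.Agent.Helper69.EK5
namespace Pool.Agent.Helper71.EK3
end Pool.Agent.Helper71.EK3
namespace Pool.Agent.Helper71.EKC
end Pool.Agent.Helper71.EKC

set_option autoImplicit false

open Complex MeasureTheory Metric Set

open scoped Real ComplexConjugate

namespace Pool.Agent.Helper69.EK6

open Pool.Sos71

open Pool.EK71 Pool.Agent.Helper52.EK Pool.Agent.Helper2.EK

open Pool.Agent.Helper69.EK3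

open Pool.Agent.Helper69.EK5 (DQ Dd Dd_pos Dd_low DL e_D qX qY qL Rr c1_Rr Dn Dn_ev Dd_conj Rr_conj_even Rr_conj_odd Rs dEta_conj)

open Pool.Agent.Helper71.EK3 (xL yL r2L FL G2L e_x e_y e_r2 e_F e_G2)

open Pool.Agent.Helper71.EKC (c1_unique pw2 e_pw sb2 e_sb)

open Pool.Agent.Helper71.EKC (c1_conj)

namespace Dat

variable (c : Dat)

/-- conditions on the data -/
def wf : Bool :=
  Nat.ble (c.kU + 2) c.K && Nat.ble (c.kV + 1) c.K && Nat.ble (c.kF + 1) c.K &&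
  Nat.ble c.kL c.K && Nat.ble 2 c.h &&
  c.UU.all (okU c.h c.kU) && c.VX.all (fun t => dle (2 * c.kV + 2) t.2) &&
  c.VE.all (fun t => ahom (2 * c.h - 1) t.1) &&
  c.F0.all (okF true c.h c.kF) && c.F1.all (okF false c.h c.kF) &&
  c.HH.all (fun t => Nat.ble t.2 2) && c.HM.all (fun t => Nat.ble 1 t.1 && Nat.ble t.1 4)

structure Wf : Prop where
  kU : c.kU + 2 ≤ c.K
  kV : c.kV + 1 ≤ c.K
  kF : c.kF + 1 ≤ c.K
  kL : c.kL ≤ c.K
  h2 : 2 ≤ c.h
  uu : ∀ t ∈ c.UU, okU c.h c.kU t = true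
  vx : ∀ t ∈ c.VX, dle (2 * c.kV + 2) t.2 = true
  ve : ∀ t ∈ c.VE, ahom (2 * c.h - 1) t.1 = true
  f0 : ∀ t ∈ c.F0, okF true c.h c.kF t = true
  f1 : ∀ t ∈ c.F1, okF false c.h c.kF t = true
  hh : ∀ t ∈ c.HH, t.2 ≤ 2
  hm : ∀ t ∈ c.HM, 1 ≤ t.1 ∧ t.1 ≤ 4

theorem wf_iff (h : c.wf = true) : c.Wf := by
  simp only [wf, Bool.and_eq_true, Nat.ble_eq, List.all_eq_true] at h
  obtain ⟨⟨⟨⟨⟨⟨⟨⟨⟨⟨⟨h2, h3⟩, h4⟩, h5⟩, h6⟩, h7⟩, h8⟩, h9⟩, h10⟩, h11⟩, h12⟩, h13⟩ := h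
  exact ⟨h2, h3, h4, h5, h6, h7, h8, h9, h10, h11, h12, h13⟩

/-- the total null Lagrangian -/
noncomputable def NT (X Y : ℂ) (η : ℝ) : ℝ :=
  (c.UU.map fun t => NU c.a c.kU t X Y η).sum + ((c.VX.map fun t => NVX c.a c.kV t X Y η).sum +
  ((c.VE.map fun t => NVE c.a c.kV t X Y η).sum + ((c.F0.map fun t => NF0 c.a c.kF t X Y η).sum +
  ((c.F1.map fun t => NF1 c.a c.kF t X Y η).sum + ((c.HH.map fun t => NH t X Y η).sum +
  (c.HM.map fun t => NM t X Y η).sum)))))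

noncomputable def KT (X Y : ℂ) : ℝ :=
  (c.UU.map fun t => KU c.a c.kU t X Y).sum + ((c.VX.map fun _ => (0:ℝ)).sum +
  ((c.VE.map fun t => KVE c.a c.kV t X Y).sum + ((c.F0.map fun t => KF0 c.a c.kF t X Y).sum +
  ((c.F1.map fun t => KF1 c.a c.kF t X Y).sum + ((c.HH.map fun t => KH t X Y).sum +
  (c.HM.map fun t => KM t X Y).sum)))))

variable {c}

theorem tN_re (w : c.Wf) {X Y : ℂ} (hX : X ≠ 0) (l η : ℝ) : c.tN.re (px l η X Y) =
    Dd c.a X.re X.im ^ c.K * (c.NT X Y η + (c.lam * ‖X - 1‖ ^ 2 +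
      c.a2 * ((X.re - 1) ^ 2 - X.im ^ 2))) := by
  have e0 : ‖X - 1‖ ^ 2 = (X.re - 1) ^ 2 + X.im ^ 2 := by
    rw [nq_sq]
    simp
  unfold tN
  simp only [sumE_re]
  rw [map_sum_congr c.UU fun t _ => EU_re c.a c.K c.kU t w.kU (Y := Y) hX l η,
    map_sum_congr c.VX fun t _ => EVX_re c.a c.K c.kV t w.kV (Y := Y) hX l η,
    map_sum_congr c.VE fun t _ => EVE_re c.a c.K c.kV t w.kV (Y := Y) hX l η,
    map_sum_congr c.F0 fun t _ => EF0_re c.a c.K c.kF t w.kF (Y := Y) hX l η,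
    map_sum_congr c.F1 fun t _ => EF1_re c.a c.K c.kF t w.kF (Y := Y) hX l η,
    map_sum_congr c.HH fun t ht => EH_re c.a c.K t (w.hh t ht) X Y l η,
    map_sum_congr c.HM fun t _ => EHM_re c.a c.K c.h t X Y l η]
  simp only [map_sum_mul]
  have e1 : (Ex.mul (Ex.pow eo c.h) (Ex.bp (mu2 (ad2 (sm2 c.lam FL) (sm2 c.a2 G2L))
      (Dn c.a c.K)))).re (px l η X Y) = (eo.re (px l η X Y)) ^ c.h *
      ev2 (X.re - 1) X.im (mu2 (ad2 (sm2 c.lam FL) (sm2 c.a2 G2L)) (Dn c.a c.K)) := rfl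
  rw [e1, px_o, one_pow, ev2_mu, ev2_ad, ev2_sm, ev2_sm, e_F, e_G2, Dn_ev, e0]
  unfold NT
  ring

variable (c)

def cU (t : AP × BP) : BP :=
  sm2 (Int.mul 2712 (asum (ader (ash 2 0 t.1)))) (mu2 (ad2 t.2 (fl2 t.2)) (Dn c.a (c.K - c.kU)))

def cE (t : AP × BP) : BP :=
  sm2 (Int.mul (-2712) (asum t.1)) (mu2 (ad2 t.2 (fl2 t.2)) (Dn c.a (c.K - c.kV)))

def cM (t : ℕ × Bool × ℤ) : BP :=
  sm2 (Int.mul (Int.mul (-226) (Int.ofNat (2 ^ c.h))) (Int.mul t.2.2 (hmv t.1 t.2.1)))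
    (mu2 G2L (Dn c.a c.K))

def c0 : BP :=
  mu2 (sm2 (Int.mul (-4260) (Int.ofNat (2 ^ c.h))) (ad2 (sm2 c.c1 [[0], [1]]) (sm2 c.a2 G2L)))
    (Dn c.a c.K)

/-- the centre polynomial: `12 · 113 · 2^h · D^K · E_c` with `355/113` for `π` -/
def cen : BP := sumB c.cU (sumB c.cE (sumB c.cM c.c0 c.HM) c.VE) c.UU

/-- the centre function with `p` for `π` and `k` for `c₁` -/
noncomputable def Ecp (k p : ℝ) (X : ℂ) : ℝ :=
  (c.UU.map fun t => 2 * (asum (ader (ash 2 0 t.1)) : ℝ) / 2 ^ c.h * Rs c.a c.kU t.2 X).sum +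
  ((c.VE.map fun t => - (2 * (asum t.1 : ℝ) / 2 ^ c.h * Rs c.a c.kV t.2 X)).sum +
  ((c.HM.map fun t => - ((t.2.2 : ℝ) * hmv t.1 t.2.1 / 6 * ((X.re - 1) ^ 2 - X.im ^ 2))).sum +
  (- (k * p * (X.re - 1)) - c.a2 * p * ((X.re - 1) ^ 2 - X.im ^ 2))))

variable {c}

theorem cen_ev (w : c.Wf) (X : ℂ) : ev2 (X.re - 1) X.im c.cen =
    1356 * 2 ^ c.h * Dd c.a X.re X.im ^ c.K * c.Ecp c.c1 (355 / 113) X := by
  have hD := (Dd_pos c.a X.re X.im).ne'
  have h2 : (2:ℝ) ^ c.h ≠ 0 := by positivity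
  have eU : ∀ t ∈ c.UU, ev2 (X.re - 1) X.im (c.cU t) =
      1356 * 2 ^ c.h * Dd c.a X.re X.im ^ c.K *
        (2 * (asum (ader (ash 2 0 t.1)) : ℝ) / 2 ^ c.h * Rs c.a c.kU t.2 X) := by
    intro t _
    obtain ⟨m, hm⟩ := Nat.exists_eq_add_of_le (le_trans (Nat.le_add_right _ 2) w.kU)
    have e2 : c.K - c.kU = m := by omega
    rw [cU, ev2_sm, ev2_mu, ev2_ad, fl2_ev, Dn_ev, imul_cast', e2]
    unfold Rs Rr
    rw [Dd_conj, conj_re, conj_im]
    have p1 : Dd c.a X.re X.im ^ c.K = Dd c.a X.re X.im ^ c.kU * Dd c.a X.re X.im ^ m := by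
      rw [hm, pow_add]
    rw [p1]
    field_simp
    push_cast
    ring
  have eE : ∀ t ∈ c.VE, ev2 (X.re - 1) X.im (c.cE t) =
      1356 * 2 ^ c.h * Dd c.a X.re X.im ^ c.K *
        (- (2 * (asum t.1 : ℝ) / 2 ^ c.h * Rs c.a c.kV t.2 X)) := by
    intro t _
    obtain ⟨m, hm⟩ := Nat.exists_eq_add_of_le (le_trans (Nat.le_add_right _ 1) w.kV)
    have e2 : c.K - c.kV = m := by omega
    rw [cE, ev2_sm, ev2_mu, ev2_ad, fl2_ev, Dn_ev, imul_cast', e2]
    unfold Rs Rr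
    rw [Dd_conj, conj_re, conj_im]
    have p1 : Dd c.a X.re X.im ^ c.K = Dd c.a X.re X.im ^ c.kV * Dd c.a X.re X.im ^ m := by
      rw [hm, pow_add]
    rw [p1]
    field_simp
    push_cast
    ring
  have eM : ∀ t ∈ c.HM, ev2 (X.re - 1) X.im (c.cM t) =
      1356 * 2 ^ c.h * Dd c.a X.re X.im ^ c.K *
        (- ((t.2.2 : ℝ) * hmv t.1 t.2.1 / 6 * ((X.re - 1) ^ 2 - X.im ^ 2))) := by
    intro t _
    rw [cM, ev2_sm, ev2_mu, e_G2, Dn_ev, imul_cast', imul_cast', imul_cast', ofNat_cast']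
    push_cast
    ring
  rw [cen, sumB_ev, sumB_ev, sumB_ev, map_sum_congr _ eU, map_sum_congr _ eE, map_sum_congr _ eM,
    map_sum_mul, map_sum_mul, map_sum_mul, c0, ev2_mu, ev2_sm, ev2_ad, ev2_sm, ev2_sm, e_G2,
    Dn_ev, imul_cast', ofNat_cast']
  unfold Ecp
  simp only [ev2, ev1]
  push_cast
  ring

theorem KT_conj (w : c.Wf) (X Y : ℂ) (k : ℝ) :
    (c.KT X Y + (c.a2 * (π / 2) * ((X.re - 1) ^ 2 - X.im ^ 2) + k * (π / 2) * (X.re - 1))) +
    (c.KT (conj X) (conj Y) + (c.a2 * (π / 2) * (((conj X).re - 1) ^ 2 - (conj X).im ^ 2) +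
      k * (π / 2) * ((conj X).re - 1))) = - c.Ecp k π X := by
  have eU := map_sum_congr c.UU fun t ht => KU_conj (a := c.a) w.h2 (w.uu t ht) X Y
  have eE := map_sum_congr c.VE fun t ht => KVE_conj (a := c.a) (j := c.kV) w.h2 (w.ve t ht) X Y
  have e0 := map_sum_congr c.F0 fun t ht => KF0_conj (a := c.a) w.h2 (w.f0 t ht) X Y
  have e1 := map_sum_congr c.F1 fun t ht => KF1_conj (a := c.a) w.h2 (w.f1 t ht) X Y
  have eH := map_sum_congr c.HH fun t _ => KH_conj t X Y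
  have eM := map_sum_congr c.HM fun t ht => KM_conj (w.hm t ht).1 (w.hm t ht).2 X Y
  rw [← map_sum_add] at eU eE e0 e1 eH eM
  have n0 : ∀ (L : List (AP × BP)), (L.map fun _ => (0:ℝ)).sum = 0 := fun L => by
    induction L with
    | nil => simp
    | cons t L ih => simpa using ih
  have n1 : ∀ (L : List (AP × ℕ)), (L.map fun _ => (0:ℝ)).sum = 0 := fun L => by
    induction L with
    | nil => simp
    | cons t L ih => simpa using ih
  have g1 : (c.UU.map fun t => - (2 * (asum (ader (ash 2 0 t.1)) : ℝ) / 2 ^ c.h *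
      Rs c.a c.kU t.2 X)).sum = - (c.UU.map fun t => 2 * (asum (ader (ash 2 0 t.1)) : ℝ) /
      2 ^ c.h * Rs c.a c.kU t.2 X).sum := by
    have := map_sum_mul c.UU (fun t => 2 * (asum (ader (ash 2 0 t.1)) : ℝ) / 2 ^ c.h *
      Rs c.a c.kU t.2 X) (-1)
    simp only [neg_mul, one_mul] at this
    exact this
  have g2 : (c.VE.map fun t => - (2 * (asum t.1 : ℝ) / 2 ^ c.h * Rs c.a c.kV t.2 X)).sum =
      - (c.VE.map fun t => 2 * (asum t.1 : ℝ) / 2 ^ c.h * Rs c.a c.kV t.2 X).sum := by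
    have := map_sum_mul c.VE (fun t => 2 * (asum t.1 : ℝ) / 2 ^ c.h * Rs c.a c.kV t.2 X) (-1)
    simp only [neg_mul, one_mul] at this
    exact this
  have g3 : (c.HM.map fun t => - ((t.2.2 : ℝ) * hmv t.1 t.2.1 / 6 *
      ((X.re - 1) ^ 2 - X.im ^ 2))).sum = - (c.HM.map fun t => (t.2.2 : ℝ) * hmv t.1 t.2.1 / 6 *
      ((X.re - 1) ^ 2 - X.im ^ 2)).sum := by
    have := map_sum_mul c.HM (fun t => (t.2.2 : ℝ) * hmv t.1 t.2.1 / 6 *
      ((X.re - 1) ^ 2 - X.im ^ 2)) (-1)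
    simp only [neg_mul, one_mul] at this
    exact this
  rw [n0] at e0 e1
  rw [n1] at eH
  rw [g1] at eU
  unfold Ecp KT
  rw [g2, g3, n0, conj_re, conj_im]
  linear_combination eU + eE + e0 + e1 + eH + eM

theorem Ecp_c1 (k p : ℝ) : ∃ Ex Ey : ℂ → ℝ, C1f (c.Ecp k p) Ex Ey := by
  have hR : ∀ (a : DQ) (j : ℕ) (P : BP), ∃ Fx Fy : ℂ → ℝ, C1f (Rs a j P) Fx Fy := fun a j P =>
    ⟨_, _, c1_add (c1_Rr a j P) (c1_conj (c1_Rr a j P))⟩
  have hS : ∃ Fx Fy : ℂ → ℝ, C1f (fun X : ℂ => (X.re - 1) ^ 2 - X.im ^ 2) Fx Fy :=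
    ⟨_, _, by
      have h1 := c1_sub c1_re (c1_const 1)
      have h2 := c1_sub (c1_mul h1 h1) (c1_mul c1_im c1_im)
      exact c1_congr h2 (fun X => by ring) (fun _ => rfl) (fun _ => rfl)⟩
  obtain ⟨A1, A2, hA⟩ := c1_list c.UU (fun t X => 2 * (asum (ader (ash 2 0 t.1)) : ℝ) /
    2 ^ c.h * Rs c.a c.kU t.2 X) (fun t => by
      obtain ⟨_, _, h⟩ := hR c.a c.kU t.2
      exact ⟨_, _, c1_mul (c1_const _) h⟩)
  obtain ⟨B1, B2, hB⟩ := c1_list c.VE (fun t X => - (2 * (asum t.1 : ℝ) / 2 ^ c.h *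
    Rs c.a c.kV t.2 X)) (fun t => by
      obtain ⟨_, _, h⟩ := hR c.a c.kV t.2
      exact ⟨_, _, c1_congr (c1_mul (c1_const (-(2 * (asum t.1 : ℝ) / 2 ^ c.h))) h)
        (fun X => by ring) (fun _ => rfl) (fun _ => rfl)⟩)
  obtain ⟨C1, C2, hC⟩ := c1_list c.HM (fun t X => - ((t.2.2 : ℝ) * hmv t.1 t.2.1 / 6 *
    ((X.re - 1) ^ 2 - X.im ^ 2))) (fun t => by
      obtain ⟨_, _, h⟩ := hS
      exact ⟨_, _, c1_congr (c1_mul (c1_const (-((t.2.2 : ℝ) * hmv t.1 t.2.1 / 6))) h)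
        (fun X => by ring) (fun _ => rfl) (fun _ => rfl)⟩)
  obtain ⟨S1, S2, hS⟩ := hS
  have hL := c1_sub (c1_mul (c1_const (-(k * p))) (c1_sub c1_re (c1_const 1)))
    (c1_mul (c1_const (c.a2 * p)) hS)
  refine ⟨_, _, c1_congr (c1_add hA (c1_add hB (c1_add hC hL))) (fun X => ?_) (fun _ => rfl)
    (fun _ => rfl)⟩
  unfold Ecp
  ring

end Dat

end Pool.Agent.Helper69.EK6

end

section

namespace Pool.Sos71
end Pool.Sos71
namespace Pool.EK71
end Pool.EK71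
namespace Pool.Agent.Helper52.EK
end Pool.Agent.Helper52.EK
namespace Pool.Agent.Helper2.EK
end Pool.Agent.Helper2.EK
namespace Pool.Agent.Helper71.EK3
end Pool.Agent.Helper71.EK3
namespace Pool.Agent.Helper71.EKC
end Pool.Agent.Helper71.EKC

set_option autoImplicit false

open Complex MeasureTheory Metric Set

open scoped Real ComplexConjugate

namespace Pool.Agent.Helper69.EK3

open Pool.Sos71

open Pool.EK71 Pool.Agent.Helper52.EK Pool.Agent.Helper2.EK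

open Pool.Agent.Helper71.EK3 (xL yL r2L FL G2L e_x e_y e_r2 e_F e_G2)

open Pool.Agent.Helper71.EKC (Da Da_pos pw2 e_pw sb2 e_sb c1_unique c1_conj)

namespace Dat

variable {c : Dat} {Ln Ld : ℤ}

theorem half_bd {η : ℝ} (hη : η ∈ Icc (0:ℝ) (π / 2)) :
    0 ≤ Real.sin (η / 2) ∧ Real.sin (η / 2) ≤ Real.cos (η / 2) := by
  have hp := Real.pi_pos
  refine ⟨Real.sin_nonneg_of_nonneg_of_le_pi (by linarith [hη.1]) (by (clear * - hη hp; linarith only [hη.2, hp])), ?_⟩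
  have h1 : Real.sin (η / 2) ≤ Real.sin (π / 4) :=
    Real.sin_le_sin_of_le_of_le_pi_div_two (by linarith [hη.1]) (by linarith only [hp]) (by (clear * - hη; linarith only [hη.2]))
  have h2 : Real.cos (π / 4) ≤ Real.cos (η / 2) :=
    Real.cos_le_cos_of_nonneg_of_le_pi (by (clear * - hη; linarith [hη.1])) (by (clear * - hp; linarith)) (by linarith [hη.2])
  rw [Real.sin_pi_div_four] at h1
  rw [Real.cos_pi_div_four] at h2
  exact h1.trans h2

theorem pi_err {p : ℝ} (hp : p = 355 / 113) : 0 ≤ p - π ∧ (p - π) / π ≤ 1 / 10 ^ 7 := by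
  have h1 := Real.pi_gt_d20
  have h2 := Real.pi_lt_d20
  have h3 := Real.pi_pos
  subst hp
  refine ⟨by norm_num at h2 ⊢; linarith only [h2], ?_⟩
  rw [div_le_iff₀ h3]
  norm_num at h1 ⊢
  linarith

theorem disc_im {X : ℂ} (hX : ‖X‖ ≤ 1) : |(X.re - 1) ^ 2 - X.im ^ 2| ≤ 2 * (1 - X.re) := by
  have h1 : X.re ^ 2 + X.im ^ 2 ≤ 1 := by
    rw [← nq_sq]
    nlinarith only [norm_nonneg X, hX]
  have h2 : X.re ≤ 1 := (Complex.re_le_norm X).trans hX
  rw [abs_le]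
  constructor
  · (clear * - h1; nlinarith only [h1])
  · nlinarith only [h1]

end Dat

end Pool.Agent.Helper69.EK3

end

section

namespace Pool.Sos71
end Pool.Sos71
namespace Pool.EK71
end Pool.EK71
namespace Pool.Agent.Helper52.EK
end Pool.Agent.Helper52.EK
namespace Pool.Agent.Helper2.EK
end Pool.Agent.Helper2.EK
namespace Pool.Agent.Helper71.EK3
end Pool.Agent.Helper71.EK3
namespace Pool.Agent.Helper71.EKC
end Pool.Agent.Helper71.EKC

set_option autoImplicit false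

open Complex MeasureTheory Metric Set

open scoped Real ComplexConjugate

namespace Pool.Agent.Helper69.EK3

open Pool.Sos71

open Pool.EK71 Pool.Agent.Helper52.EK Pool.Agent.Helper2.EK

open Pool.Agent.Helper71.EK3 (xL yL r2L FL G2L e_x e_y e_r2 e_F e_G2)

open Pool.Agent.Helper71.EKC (Da Da_pos pw2 e_pw sb2 e_sb c1_unique c1_conj)

namespace Dat

/-- one side of the data agrees with real parameters; `l ≤ Ln / Ld` -/
structure SideOk (M : ℤ) (f : Sd) (sg : ℤ) (a b p0 p1 p2 : ℝ) : Prop where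
  sg : f.sg = sg
  ma : (f.Ma : ℝ) = M * a
  mb : (f.Mb : ℝ) = M * b
  maa : (f.Maa : ℝ) = M * a ^ 2
  mab : (f.Mab : ℝ) = M * (a * b)
  mbb : (f.Mbb : ℝ) = M * b ^ 2
  r : 0 < f.r
  r0 : (f.r0 : ℝ) = f.r * p0
  r1 : (f.r1 : ℝ) = f.r * p1
  r2 : (f.r2 : ℝ) = f.r * p2

variable {c : Dat} {ka kb p0 p1 p2 la lb q0 q1 q2 : ℝ} {Ln Ld Ln' Ld' : ℤ}

end Dat

end Pool.Agent.Helper69.EK3

end

section

namespace Pool.Sos71
end Pool.Sos71
namespace Pool.EK71
end Pool.EK71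
namespace Pool.Agent.Helper52.EK
end Pool.Agent.Helper52.EK
namespace Pool.Agent.Helper2.EK
end Pool.Agent.Helper2.EK
namespace Pool.Agent.Helper69.EK3
end Pool.Agent.Helper69.EK3
namespace Pool.Agent.Helper69.EK5
end Pool.Agent.Helper69.EK5
namespace Pool.Agent.Helper71.EK3
end Pool.Agent.Helper71.EK3
namespace Pool.Agent.Helper71.EKC
end Pool.Agent.Helper71.EKC
namespace Pool.Agent.Helper69.EK3.Dat
end Pool.Agent.Helper69.EK3.Dat

set_option autoImplicit false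

open Complex MeasureTheory Metric Set

open scoped Real ComplexConjugate

namespace Pool.Agent.Helper69.EK6

open Pool.Sos71

open Pool.EK71 Pool.Agent.Helper52.EK Pool.Agent.Helper2.EK

open Pool.Agent.Helper69.EK3

open Pool.Agent.Helper69.EK5 (DQ Dd Dd_pos Dd_low DL e_D qX qY qL Rr c1_Rr Dn Dn_ev Dd_conj Rr_conj_even Rr_conj_odd Rs dEta_conj)

open Pool.Agent.Helper71.EK3 (xL yL r2L FL G2L e_x e_y e_r2 e_F e_G2)

open Pool.Agent.Helper71.EKC (c1_unique pw2 e_pw sb2 e_sb)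

open Pool.Agent.Helper71.EKC (c1_conj)

open Pool.Agent.Helper69.EK3.Dat (SideOk half_bd pi_err disc_im)

/-- `16 - |(1 + e₀)(2 σ X - 1 + X'/X) + 2|²` -/
def eDi (σ : ℤ) : Ex :=
  Ex.add (Ex.sc 16 eone) (Ex.sc (-4) (Ex.add
    (Ex.pow (Ex.add eP (Ex.mul (Ex.sc (2 * σ) eA) (Ex.bp [[1], [1]]))) 2)
    (Ex.pow (Ex.add (Ex.add eR (Ex.mul (Ex.sc (2 * σ) eA) (Ex.bp [[0, 1]])))
      (Ex.sc (-1) eB)) 2)))

theorem px_Di (σ : ℤ) (l η : ℝ) (X Y : ℂ) : (eDi σ).re (px l η X Y) =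
    16 - ‖dA (σ : ℝ) X Y (Real.sin η) (Real.cos η)‖ ^ 2 := by
  have e : (eDi σ).re (px l η X Y) = ((16 : ℤ) : ℝ) * eo.re (px l η X Y) ^ 2 +
      ((-4 : ℤ) : ℝ) * ((eP.re (px l η X Y) + ((2 * σ : ℤ) : ℝ) * eA.re (px l η X Y) *
        ev2 (X.re - 1) X.im [[1], [1]]) ^ 2 + (eR.re (px l η X Y) + ((2 * σ : ℤ) : ℝ) *
        eA.re (px l η X Y) * ev2 (X.re - 1) X.im [[0, 1]] + ((-1 : ℤ) : ℝ) *
        eB.re (px l η X Y)) ^ 2) := rfl
  have h3 := Real.sin_sq_add_cos_sq η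
  have h3c : (Real.sin η : ℂ) ^ 2 + (Real.cos η : ℂ) ^ 2 = 1 := by exact_mod_cast h3
  have h4 : ‖(Real.sin η : ℂ) + (Real.cos η : ℂ) * I‖ ^ 2 = 1 := by
    rw [nq_sq]
    simp only [add_re, add_im, mul_re, mul_im, ofReal_re, ofReal_im, I_re, I_im, mul_zero,
      mul_one, sub_zero, add_zero, zero_add]
    exact h3
  have h5 : dA (σ : ℝ) X Y (Real.sin η) (Real.cos η) =
      2 * ((Real.sin η : ℂ) + (Real.cos η : ℂ) * I) *
        ((Real.sin η : ℂ) * (Y / X) + 2 * (σ : ℂ) * (Real.sin η : ℂ) * X -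
          (Real.cos η : ℂ) * I) := by
    unfold dA e0
    push_cast
    have h3c' : Complex.sin η ^ 2 + Complex.cos η ^ 2 = 1 := by
      push_cast at h3c
      exact h3c
    linear_combination (2 * (σ : ℂ) * X - 1 + Y / X) * (-h3c' - Complex.sin η ^ 2 * I_sq) -
      2 * h3c' + 2 * Complex.cos η ^ 2 * I_sq
  rw [e, px_A, px_B, px_o, px_P, px_R, h5, norm_mul, norm_mul, mul_pow, mul_pow, h4, nq_sq (_ - _)]
  simp only [ev2, ev1, sub_re, sub_im, add_re, add_im, mul_re, mul_im, ofReal_re, ofReal_im,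
    I_re, I_im, intCast_re, intCast_im, re_ofNat, im_ofNat, Complex.norm_ofNat, mul_zero, mul_one,
    sub_zero, add_zero, zero_add, zero_mul]
  push_cast
  ring

namespace Dat

variable {c : Dat} {ka kb p0 p1 p2 la lb q0 q1 q2 : ℝ} {Ln Ld Ln' Ld' : ℤ}

theorem tSide_re (w : c.Wf) (f : Sd) {X Y : ℂ} (hX : X ≠ 0) (l η : ℝ)
    (h : (eCon f).re (px l η X Y) = 0) : (c.tSide f).re (px l η X Y) =
    Dd c.a X.re X.im ^ c.K * (c.NT X Y η + (c.lam * ‖X - 1‖ ^ 2 +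
      c.a2 * ((X.re - 1) ^ 2 - X.im ^ 2)) - (eTT c.M f).re (px l η X Y)) := by
  have e : (c.tSide f).re (px l η X Y) = c.tN.re (px l η X Y) +
      (((eo.re (px l η X Y)) ^ (c.h - 2) * ev2 (X.re - 1) X.im (sm2 (-1) (Dn c.a c.K))) *
        (eTT c.M f).re (px l η X Y) + (c.tMul f).re (px l η X Y) * (eCon f).re (px l η X Y)) := rfl
  rw [e, h, tN_re w hX, px_o, one_pow, ev2_sm, Dn_ev]
  push_cast
  ring

theorem SideOk_con {M : ℤ} {f : Sd} {sg : ℤ} (h : SideOk M f sg ka kb p0 p1 p2) {X Y : ℂ} {η l : ℝ}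
    (hl : l * rF p0 p1 p2 (mX X Y (Real.sin η) (Real.cos η)) =
      sg * (1 - ‖mX X Y (Real.sin η) (Real.cos η)‖ ^ 2)) (hs : (sg : ℝ) ^ 2 = 1) :
    (eCon f).re (px l η X Y) = 0 := by
  rw [px_Con, h.r0, h.r1, h.r2, h.sg]
  unfold rF at hl
  linear_combination (f.r * (sg : ℝ)) * hl + (f.r * (1 -
    ‖mX X Y (Real.sin η) (Real.cos η)‖ ^ 2)) * hs

end Dat

end Pool.Agent.Helper69.EK6

end

section

namespace Pool.Sos71
end Pool.Sos71
namespace Pool.EK71
end Pool.EK71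
namespace Pool.Agent.Helper52.EK
end Pool.Agent.Helper52.EK

set_option autoImplicit false

open Complex MeasureTheory Metric Set

open scoped Real ComplexConjugate

namespace Pool.Agent.Helper69.EK7

open Pool.Sos71 Pool.EK71 Pool.Agent.Helper52.EK

structure Pnt9 where
  t : Pnt
  r1 : ℝ
  r2 : ℝ
  v1 : ℝ
  v2 : ℝ

/-- the value of an expression -/
noncomputable def re9 (x : Pnt9) : Ex → ℝ
  | Ex.lit z => z
  | Ex.va i => match i with
    | 0 => x.t.a
    | 1 => x.t.b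
    | 2 => x.t.c
    | 3 => x.t.d
    | 4 => x.t.e
    | 5 => x.t.f
    | 6 => x.t.g
    | 7 => x.r1
    | 8 => x.r2
    | 9 => x.v1
    | _ => x.v2
  | Ex.add p q => re9 x p + re9 x q
  | Ex.mul p q => re9 x p * re9 x q
  | Ex.sc z p => z * re9 x p
  | Ex.pow p n => re9 x p ^ n
  | Ex.bp P => ev2 x.t.f x.t.g P

/-- only the variables `0, ..., 6` occur -/
def low : Ex → Bool
  | Ex.lit _ => true
  | Ex.va i => Nat.ble i 6
  | Ex.add p q => low p && low q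
  | Ex.mul p q => low p && low q
  | Ex.sc _ p => low p
  | Ex.pow p _ => low p
  | Ex.bp _ => true

theorem re9_low (x : Pnt9) (p : Ex) (h : low p = true) : re9 x p = p.re x.t := by
  induction p with
  | lit z => rfl
  | va i =>
    simp only [low, Nat.ble_eq] at h
    rcases i with _ | _ | _ | _ | _ | _ | _ | i <;> first | rfl | omega
  | add p q ihp ihq =>
    simp only [low, Bool.and_eq_true] at h
    show re9 x p + re9 x q = p.re x.t + q.re x.t
    rw [ihp h.1, ihq h.2]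
  | mul p q ihp ihq =>
    simp only [low, Bool.and_eq_true] at h
    show re9 x p * re9 x q = p.re x.t * q.re x.t
    rw [ihp h.1, ihq h.2]
  | sc z p ih =>
    simp only [low] at h
    show (z : ℝ) * re9 x p = z * p.re x.t
    rw [ih h]
  | pow p n ih =>
    simp only [low] at h
    show re9 x p ^ n = p.re x.t ^ n
    rw [ih h]
  | bp P => rfl

structure CE where
  r : Ex
  i : Ex

namespace CE

def add (a b : CE) : CE := ⟨Ex.add a.r b.r, Ex.add a.i b.i⟩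

def mul (a b : CE) : CE := ⟨Ex.add (Ex.mul a.r b.r) (Ex.sc (-1) (Ex.mul a.i b.i)),
  Ex.add (Ex.mul a.r b.i) (Ex.mul a.i b.r)⟩

def sc (z : ℤ) (a : CE) : CE := ⟨Ex.sc z a.r, Ex.sc z a.i⟩

def cj (a : CE) : CE := ⟨a.r, Ex.sc (-1) a.i⟩

def mI (a : CE) : CE := ⟨Ex.sc (-1) a.i, a.r⟩

def pow (a : CE) : ℕ → CE
  | 0 => ⟨Ex.lit 1, Ex.lit 0⟩
  | 1 => a
  | n + 2 => mul a (pow a (n + 1))

/-- multiplication by a real expression -/
def rm (p : Ex) (a : CE) : CE := ⟨Ex.mul p a.r, Ex.mul p a.i⟩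

/-- the value -/
noncomputable def v (x : Pnt9) (a : CE) : ℂ := ⟨re9 x a.r, re9 x a.i⟩

variable (x : Pnt9) (a b : CE)

theorem v_add : v x (add a b) = v x a + v x b := by
  apply Complex.ext
  · rfl
  · rfl

theorem v_mul : v x (mul a b) = v x a * v x b := by
  apply Complex.ext
  · rw [mul_re]
    simp only [v, mul, re9]
    push_cast
    ring
  · rw [mul_im]
    simp only [v, mul, re9]

theorem v_sc (z : ℤ) : v x (sc z a) = (z : ℂ) * v x a := by
  apply Complex.ext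
  · simp [v, sc, re9]
  · simp [v, sc, re9]

theorem v_cj : v x (cj a) = conj (v x a) := by
  apply Complex.ext
  · rfl
  · simp [v, cj, re9]

theorem v_mI : v x (mI a) = I * v x a := by
  apply Complex.ext
  · simp [v, mI, re9]
  · simp [v, mI, re9]

theorem v_pow (n : ℕ) : v x (pow a n) = v x a ^ n := by
  induction n using Nat.strong_induction_on with
  | _ n ih =>
    match n with
    | 0 =>
      apply Complex.ext
      · simp [v, pow, re9]
      · simp [v, pow, re9]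
    | 1 => simp [pow]
    | n + 2 =>
      rw [pow, v_mul, ih (n + 1) (by omega)]
      ring

theorem v_rm (p : Ex) : v x (rm p a) = (re9 x p : ℂ) * v x a := by
  apply Complex.ext
  · simp [v, rm, re9]
  · simp [v, rm, re9]

end CE

/-- `P` -/
def cP : CE := ⟨Ex.va 3, Ex.va 4⟩

/-- `ρ` -/
def cR : CE := ⟨Ex.va 7, Ex.va 8⟩

/-- the point of the variables -/
noncomputable def px9 (l η : ℝ) (X Y Z w : ℂ) : Pnt9 :=
  ⟨EK6.px l η X Y, ((Real.sin (η / 2) : ℂ) ^ 2 * (Z / X - (Y / X) ^ 2)).re,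
    ((Real.sin (η / 2) : ℂ) ^ 2 * (Z / X - (Y / X) ^ 2)).im, w.re, w.im⟩

variable (l η : ℝ) (X Y Z w : ℂ)

theorem v_cP : CE.v (px9 l η X Y Z w) cP = (Real.sin (η / 2) : ℂ) * (Y / X) := by
  apply Complex.ext
  · simp only [CE.v, cP, re9, px9, EK6.px, mul_re, ofReal_re, ofReal_im]
    ring
  · simp only [CE.v, cP, re9, px9, EK6.px, mul_im, ofReal_re, ofReal_im]
    ring

theorem v_cR : CE.v (px9 l η X Y Z w) cR =
    (Real.sin (η / 2) : ℂ) ^ 2 * (Z / X - (Y / X) ^ 2) := Complex.ext rfl rfl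

end Pool.Agent.Helper69.EK7

end

section

namespace Pool.Sos71
end Pool.Sos71
namespace Pool.EK71
end Pool.EK71
namespace Pool.Agent.Helper52.EK
end Pool.Agent.Helper52.EK
namespace Pool.Agent.Helper69.EK7
end Pool.Agent.Helper69.EK7
namespace Pool.Agent.Helper69.EK3
end Pool.Agent.Helper69.EK3

/-!
# Project EK7: the field in the half angle ring, expressions
-/

set_option autoImplicit false

open Complex Metric Set

open scoped Real ComplexConjugate

namespace Pool.Agent.Helper20.EK7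

open Pool.Sos71 Pool.EK71 Pool.Agent.Helper52.EK Pool.Agent.Helper69.EK7

open Pool.Agent.Helper69.EK3 (eA eB eo)

/-- `σ = S (2X-1) + P` -/
def cSg : CE := CE.add (CE.rm (Ex.va 1) ⟨Ex.bp [[1], [2]], Ex.bp [[0, 2]]⟩) cP

section val

variable (l η : ℝ) (X Y Z w : ℂ)

theorem re9_1 : re9 (px9 l η X Y Z w) (Ex.va 1) = Real.sin (η / 2) := rfl

theorem re9_2 : re9 (px9 l η X Y Z w) (Ex.va 2) = Real.cos (η / 2) := rfl

theorem re9_eA : re9 (px9 l η X Y Z w) eA = 2 * Real.sin (η / 2) * Real.cos (η / 2) := by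
  show ((2 : ℤ) : ℝ) * (Real.sin (η / 2) * Real.cos (η / 2)) = _
  push_cast
  ring

theorem re9_eB : re9 (px9 l η X Y Z w) eB =
    Real.cos (η / 2) ^ 2 - Real.sin (η / 2) ^ 2 := by
  show Real.cos (η / 2) ^ 2 + ((-1 : ℤ) : ℝ) * Real.sin (η / 2) ^ 2 = _
  push_cast
  ring

theorem v_bp (P Q : List (List ℤ)) : CE.v (px9 l η X Y Z w) ⟨Ex.bp P, Ex.bp Q⟩ =
    ⟨ev2 (X.re - 1) X.im P, ev2 (X.re - 1) X.im Q⟩ := rfl

theorem v_cSg : CE.v (px9 l η X Y Z w) cSg =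
    sgm (Real.sin (η / 2)) X ((Real.sin (η / 2) : ℂ) * (Y / X)) := by
  rw [cSg, CE.v_add, CE.v_rm, re9_1, v_cP, v_bp, sgm]
  congr 2
  apply Complex.ext
  · simp only [ev2, ev1, sub_re, mul_re, re_ofNat, im_ofNat, one_re]
    push_cast
    ring
  · simp only [ev2, ev1, sub_im, mul_im, re_ofNat, im_ofNat, one_im]
    push_cast
    ring

theorem sin_half (η : ℝ) : Real.sin η = 2 * Real.sin (η / 2) * Real.cos (η / 2) := by
  rw [← Real.sin_two_mul]
  congr 1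
  ring

theorem cos_half (η : ℝ) : Real.cos η = Real.cos (η / 2) ^ 2 - Real.sin (η / 2) ^ 2 := by
  rw [← Real.cos_two_mul']
  congr 1
  ring

variable {N Gm C0 Al Be sg : ℤ} {gam c0 a b g0 g1 d : ℝ}

end val

end Pool.Agent.Helper20.EK7

end

section

namespace Pool.Sos71
end Pool.Sos71
namespace Pool.EK71
end Pool.EK71
namespace Pool.Agent.Helper52.EK
end Pool.Agent.Helper52.EK
namespace Pool.Agent.Helper69.EK7
end Pool.Agent.Helper69.EK7
namespace Pool.Agent.Helper20.EK7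
end Pool.Agent.Helper20.EK7
namespace Pool.Agent.Helper69.EK3
end Pool.Agent.Helper69.EK3

/-!
# Project CK: the critical multiplier in the half angle ring

`A = sin η = 2SC`, `B = cos η = C² - S²`, `sY = s(2X-1) + s q = 2Cσ`, `D = 2 conj (sY) - (A + iB)`:
`conj m (A + iB) = D`, `e₀ = (A+iB)²`, so `conj m ^ j e₀ = (A+iB)^(2-j) D^j`, `j ≤ 2`, of weight 4.
-/

set_option autoImplicit false

open Complex Metric Set

open scoped Real ComplexConjugate

namespace Pool.Agent.Helper20.CK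

open Pool.Sos71 Pool.EK71 Pool.Agent.Helper52.EK Pool.Agent.Helper69.EK7 Pool.Agent.Helper20.EK7

open Pool.Agent.Helper69.EK3 (eA eB eo)

/-- `A + iB = i E` -/
noncomputable def AB (S C : ℝ) : ℂ := I * En S C

/-- `D = 2 conj (2 C σ) - (A + i B)` -/
noncomputable def DD (S C : ℝ) (X P : ℂ) : ℂ := 2 * conj (2 * C * sgm S X P) - AB S C

theorem AB_eq (S C : ℝ) : AB S C = ((2 * S * C : ℝ) : ℂ) + ((C ^ 2 - S ^ 2 : ℝ) : ℂ) * I := by
  unfold AB
  rw [En_eq]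
  linear_combination (-((2 * S * C : ℝ) : ℂ)) * I_sq

theorem e0_AB (S C : ℝ) : e0 (2 * S * C) (C ^ 2 - S ^ 2) = AB S C ^ 2 := by
  rw [e0_En]
  unfold AB
  linear_combination (-(En S C) ^ 2) * I_sq

section

variable {S C : ℝ} (h : S ^ 2 + C ^ 2 = 1)

include h

theorem norm_AB : ‖AB S C‖ = 1 := by
  unfold AB
  rw [norm_mul, Complex.norm_I, norm_En h, one_mul]

theorem AB_conj : AB S C * conj (AB S C) = 1 := by
  rw [Complex.mul_conj', norm_AB h]
  simp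

theorem m_AB {X Y P : ℂ} (hP : P = S * (Y / X)) :
    mX X Y (2 * S * C) (C ^ 2 - S ^ 2) = 4 * C * AB S C * sgm S X P - 1 := by
  rw [ring_m h hP]
  unfold AB
  ring

theorem cm_AB {X Y P : ℂ} (hP : P = S * (Y / X)) :
    conj (mX X Y (2 * S * C) (C ^ 2 - S ^ 2)) * AB S C = DD S C X P := by
  rw [m_AB h hP]
  have h1 := AB_conj h
  unfold DD
  simp only [map_sub, map_mul, map_ofNat, conj_ofReal, map_one]
  linear_combination (4 * (C : ℂ) * conj (sgm S X P)) * h1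

/-- `conj m ^ j e₀ = (A + iB)^k D^j`, `j + k = 2` -/
theorem cmj_e0 {X Y P : ℂ} (hP : P = S * (Y / X)) {j k : ℕ} (hjk : j + k = 2) :
    conj (mX X Y (2 * S * C) (C ^ 2 - S ^ 2)) ^ j * e0 (2 * S * C) (C ^ 2 - S ^ 2) =
      AB S C ^ k * DD S C X P ^ j := by
  rw [e0_AB, ← cm_AB h hP, ← hjk]
  ring

end

/-- `A + i B` -/
def cAB : CE := ⟨eA, eB⟩

/-- `sY = 2 C σ` -/
def csY : CE := CE.sc 2 (CE.rm (Ex.va 2) cSg)

/-- `D` -/
def cDD : CE := CE.add (CE.sc 2 (CE.cj csY)) (CE.sc (-1) cAB)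

section val

variable (l η : ℝ) (X Y Z w : ℂ)

theorem v_cAB : CE.v (px9 l η X Y Z w) cAB = AB (Real.sin (η / 2)) (Real.cos (η / 2)) := by
  rw [AB_eq]
  apply Complex.ext
  · show re9 _ eA = _
    rw [re9_eA]
    simp only [add_re, mul_re, ofReal_re, ofReal_im, I_re, I_im]
    ring
  · show re9 _ eB = _
    rw [re9_eB]
    simp only [add_im, mul_im, ofReal_re, ofReal_im, I_re, I_im]
    ring

theorem v_csY : CE.v (px9 l η X Y Z w) csY = 2 * (Real.cos (η / 2) : ℂ) *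
    sgm (Real.sin (η / 2)) X ((Real.sin (η / 2) : ℂ) * (Y / X)) := by
  rw [csY, CE.v_sc, CE.v_rm, re9_2, v_cSg]
  push_cast
  ring

theorem v_cDD : CE.v (px9 l η X Y Z w) cDD = DD (Real.sin (η / 2)) (Real.cos (η / 2)) X
    ((Real.sin (η / 2) : ℂ) * (Y / X)) := by
  rw [cDD, CE.v_add, CE.v_sc, CE.v_cj, CE.v_sc, v_cAB, v_csY, DD]
  push_cast
  ring

end val

section val2

variable (l η : ℝ) (X Y Z w : ℂ)

end val2

end Pool.Agent.Helper20.CK

end
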