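import Pool.Agent.Helper14.CMF.T04
import Pool.Agent.Helper14.CMF.T15
import Pool.Agent.Helper14.CMF.T06
import Pool.Agent.Helper14.CMF.T02
import Pool.Agent.Helper14.CMF.T01
import Pool.Agent.Helper14.CMF.T07
import Pool.Agent.Helper14.CMF.T08

set_option linter.all false

section

namespace Pool.Agent.Helper69.EK6
end Pool.Agent.Helper69.EK6

/-!
From a certificate with the standard multipliers to the hypothesis `Side` of helper69.
-/

set_option autoImplicit false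

namespace Pool.Sos71

open Pool.Agent.Helper69.EK6 (eDi)

/-- `1` -/
def mOne : Ex := .lit 1

/-- `S (C - S)` -/
def mAB : Ex := .mul (.va 1) (.add (.va 2) (.sc (-1) (.va 1)))

/-- `l (Ln - Ld l)` -/
def mL (Ln Ld : ℤ) : Ex := .mul (.va 0) (.add (.lit Ln) (.sc (-Ld) (.va 0)))

/-- `S (C - S) l (Ln - Ld l)` -/
def mABL (Ln Ld : ℤ) : Ex := .mul mAB (mL Ln Ld)

/-- `-2 u - u² - v²` -/
def mCen : Ex := .bp [[0, 0, -1], [-2], [-1]]

/-- the domain -/
structure DomL (Ln Ld : ℤ) (x : Pnt) : Prop where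
  b0 : 0 ≤ x.b
  bc : x.b ≤ x.c
  u1 : x.b ^ 2 + x.c ^ 2 = 1
  a0 : 0 ≤ x.a
  a1 : (Ld : ℝ) * x.a ≤ Ln

variable {Ln Ld : ℤ} {x : Pnt}

lemma mOne_re (x : Pnt) : mOne.re x = 1 := by
  show ((1 : ℤ) : ℝ) = 1
  norm_num

lemma mAB_re (x : Pnt) : mAB.re x = x.b * (x.c - x.b) := by
  show x.b * (x.c + ((-1 : ℤ) : ℝ) * x.b) = _
  push_cast; ring

lemma mL_re (Ln Ld : ℤ) (x : Pnt) : (mL Ln Ld).re x = x.a * (Ln - Ld * x.a) := by
  show x.a * ((Ln : ℝ) + ((-Ld : ℤ) : ℝ) * x.a) = _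
  push_cast; ring

lemma mCen_re (x : Pnt) : mCen.re x = -2 * x.f - x.f ^ 2 - x.g ^ 2 := by
  simp only [mCen, Ex.re, Pool.EK71.ev2, Pool.EK71.ev1]
  push_cast; ring

lemma mAB_nonneg (h : DomL Ln Ld x) : 0 ≤ mAB.re x := by
  rw [mAB_re]
  exact mul_nonneg h.b0 (by linarith only [h.bc])

lemma mL_nonneg (h : DomL Ln Ld x) : 0 ≤ (mL Ln Ld).re x := by
  rw [mL_re]
  exact mul_nonneg h.a0 (by (clear * - h; linarith [h.a1]))

lemma mABL_nonneg (h : DomL Ln Ld x) : 0 ≤ (mABL Ln Ld).re x := by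
  show 0 ≤ mAB.re x * (mL Ln Ld).re x
  exact mul_nonneg (mAB_nonneg h) (mL_nonneg h)

section

variable {K : ℕ} {b : Blk}

end

/-- the centre -/
theorem cen_of {D : Cert} (h : D.checkW = true)
    (hg : ∀ b ∈ D.blocks, b.mult = mOne ∨ b.mult = mCen) (x : Pnt)
    (hx : 0 ≤ -2 * x.f - x.f ^ 2 - x.g ^ 2) : 0 ≤ D.target.re x := by
  refine sos_posW h x fun b hb => ?_
  rcases hg b hb with h | h
  · rw [h, mOne_re]; norm_num
  · rw [h, mCen_re]; exact hx

end Pool.Sos71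

end

section

namespace Pool.Sos71
end Pool.Sos71
namespace Pool.Sos71.Bdd
end Pool.Sos71.Bdd
namespace Pool.Agent.Helper69.EK6
end Pool.Agent.Helper69.EK6

set_option autoImplicit false

/-!
Growth version of `Sos/Bdd.lean` and `Sos/Side.lean`: the basis of a block may have the degree
`K + i` in `u, v` with a factor `Sⁱ`, on the domain `S √(1 + u² + v²) ≤ 10`.
-/

namespace Pool.Sos71.BddG

open Pool.Sos71

open Pool.Sos71.Bdd (rho rho_one rho_sq f_le g_le)

end Pool.Sos71.BddG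

namespace Pool.Sos71

open Pool.Agent.Helper69.EK6 (eDi)

/-- the condition of growth of the domain -/
def DomW (x : Pnt) : Prop := x.b ^ 2 * (1 + x.f ^ 2 + x.g ^ 2) ≤ 100

variable {Ln Ld : ℤ} {x : Pnt}

section

variable {K : ℕ} {b : Blk}

end

end Pool.Sos71

end

section

namespace Pool.Sos71
end Pool.Sos71
namespace Pool.Sos71.Bdd
end Pool.Sos71.Bdd
namespace Pool.Agent.Helper69.EK6
end Pool.Agent.Helper69.EK6

set_option autoImplicit false

/-!
Growth version of `Sos/Bdd.lean` and `Sos/Side.lean`: the basis of a block may have factors `P, R`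
and the degree `K + i` in `u, v` with a factor `Sⁱ`, on the domain `S √(1 + u² + v²) ≤ 10`,
`P² + R² ≤ 900`.
-/

namespace Pool.Sos71.BddH

open Pool.Sos71

open Pool.Sos71.Bdd (rho rho_one rho_sq f_le g_le)

/-- degree at most `K + i` in `u, v`, with a factor `Sⁱ` -/
def mob (K : ℕ) (m : Mon) : Bool := Nat.ble (m.f + m.g) (K + m.b)

/-- the basis has degrees at most `K` in `u, v` -/
def itb (K : ℕ) : List Itm → Bool
  | [] => true
  | i :: it => mob K (i.m.add i.f.m1) && mob K (i.m.add i.f.m2) && itb K it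

theorem mob_iff {K : ℕ} {m : Mon} (h : mob K m = true) : m.f + m.g ≤ K + m.b := by
  simpa only [mob, Nat.ble_eq] using h

/-- points of the domain -/
def Dom0 (L : ℝ) (x : Pnt) : Prop := (0 ≤ x.a ∧ x.a ≤ L) ∧ |x.b| * rho x ≤ 10 ∧ |x.c| ≤ 1 ∧
  |x.d| ≤ 30 ∧ |x.e| ≤ 30

theorem mon_le {K : ℕ} {L : ℝ} (hL : 1 ≤ L) {x : Pnt} (hx : Dom0 L x) {m : Mon}
    (h : m.f + m.g ≤ K + m.b) :
    |m.val x| ≤ L ^ m.a * 10 ^ m.b * 30 ^ m.d * 30 ^ m.e * rho x ^ K := by
  obtain ⟨⟨a0, a1⟩, b1, c1, d1, g1⟩ := hx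
  have hr := rho_one x
  unfold Mon.val
  simp only [abs_mul, abs_pow]
  have e1 : |x.a| ^ m.a ≤ L ^ m.a := by
    rw [abs_of_nonneg a0]
    exact pow_le_pow_left₀ a0 a1 _
  have hr0 : 0 ≤ rho x := by (clear * - hr; linarith only [hr])
  have e2 : (|x.b| * rho x) ^ m.b ≤ 10 ^ m.b :=
    pow_le_pow_left₀ (mul_nonneg (abs_nonneg _) hr0) b1 _
  have e3 : |x.c| ^ m.c ≤ 1 := pow_le_one₀ (abs_nonneg _) c1
  have e7 : |x.d| ^ m.d ≤ 30 ^ m.d := pow_le_pow_left₀ (abs_nonneg _) d1 _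
  have e8 : |x.e| ^ m.e ≤ 30 ^ m.e := pow_le_pow_left₀ (abs_nonneg _) g1 _
  have e4 : |x.f| ^ m.f ≤ rho x ^ m.f := pow_le_pow_left₀ (abs_nonneg _) (f_le x) _
  have e5 : |x.g| ^ m.g ≤ rho x ^ m.g := pow_le_pow_left₀ (abs_nonneg _) (g_le x) _
  have hL0 : 0 ≤ L ^ m.a := by positivity
  have e6 : rho x ^ (m.f + m.g) ≤ rho x ^ (K + m.b) := pow_le_pow_right₀ hr h
  calc |x.a| ^ m.a * |x.b| ^ m.b * |x.c| ^ m.c * |x.d| ^ m.d * |x.e| ^ m.e * |x.f| ^ m.f *
        |x.g| ^ m.g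
      ≤ L ^ m.a * |x.b| ^ m.b * 1 * 30 ^ m.d * 30 ^ m.e * rho x ^ m.f * rho x ^ m.g := by (clear * - e1 e3 hL e7 e8 e4 e5 hr; gcongr)
    _ = L ^ m.a * |x.b| ^ m.b * 30 ^ m.d * 30 ^ m.e * rho x ^ (m.f + m.g) := by
        rw [pow_add]; ring
    _ ≤ L ^ m.a * |x.b| ^ m.b * 30 ^ m.d * 30 ^ m.e * rho x ^ (K + m.b) := by (clear * - e6 hL; gcongr)
    _ = L ^ m.a * (|x.b| * rho x) ^ m.b * 30 ^ m.d * 30 ^ m.e * rho x ^ K := by
        rw [pow_add, mul_pow]; ring
    _ ≤ L ^ m.a * 10 ^ m.b * 30 ^ m.d * 30 ^ m.e * rho x ^ K := by (clear * - e2 hL hr; gcongr)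

theorem itb_cons {K : ℕ} {i : Itm} {it : List Itm} (h : itb K (i :: it) = true) :
    mob K (i.m.add i.f.m1) = true ∧ mob K (i.m.add i.f.m2) = true ∧ itb K it = true := by
  simp only [itb, Bool.and_eq_true] at h
  obtain ⟨⟨h1, h2⟩, h3⟩ := h
  exact ⟨h1, h2, h3⟩

/-- the bound of one element -/
noncomputable def cb (L : ℝ) (i : Itm) : ℝ :=
  i.f.c * (L ^ (i.m.add i.f.m1).a * 10 ^ (i.m.add i.f.m1).b * 30 ^ (i.m.add i.f.m1).d *
    30 ^ (i.m.add i.f.m1).e) +
    i.f.d * (L ^ (i.m.add i.f.m2).a * 10 ^ (i.m.add i.f.m2).b * 30 ^ (i.m.add i.f.m2).d *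
    30 ^ (i.m.add i.f.m2).e)

theorem cb_nonneg {L : ℝ} (hL : 1 ≤ L) (i : Itm) : 0 ≤ cb L i := by unfold cb; (clear * - hL; positivity)

theorem itm_le {K : ℕ} {L : ℝ} (hL : 1 ≤ L) {x : Pnt} (hx : Dom0 L x) {i : Itm}
    (h1 : mob K (i.m.add i.f.m1) = true) (h2 : mob K (i.m.add i.f.m2) = true) :
    |i.re x| ≤ cb L i * rho x ^ K := by
  have g1 := mon_le hL hx (mob_iff h1)
  have g2 := mon_le hL hx (mob_iff h2)
  have c1 : (0:ℝ) ≤ i.f.c := Nat.cast_nonneg _
  have c2 : (0:ℝ) ≤ i.f.d := Nat.cast_nonneg _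
  have k1 := mul_le_mul_of_nonneg_left g1 c1
  have k2 := mul_le_mul_of_nonneg_left g2 c2
  have e : ∀ s : ℝ, |s| ≤ 1 → |i.f.c * (i.m.add i.f.m1).val x + s * (i.f.d * (i.m.add i.f.m2).val x)| ≤
      cb L i * rho x ^ K := by
    intro s hs
    refine (abs_add_le _ _).trans ?_
    rw [abs_mul, abs_mul s, abs_mul (i.f.d : ℝ), abs_of_nonneg c1, abs_of_nonneg c2]
    have : |s| * (i.f.d * |(i.m.add i.f.m2).val x|) ≤ i.f.d * |(i.m.add i.f.m2).val x| :=
      mul_le_of_le_one_left (mul_nonneg c2 (abs_nonneg _)) hs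
    unfold cb
    linarith only [k1, k2, this]
  unfold Itm.re Fac.re
  rcases i.f.s with _ | _
  · have := e 1 (by simp)
    rw [Mon.val_add, Mon.val_add] at this
    refine le_trans (le_of_eq ?_) this
    congr 1
    simp only
    ring
  · have := e (-1) (by simp)
    rw [Mon.val_add, Mon.val_add] at this
    refine le_trans (le_of_eq ?_) this
    congr 1
    simp only
    ring

theorem rab_bd {K : ℕ} {L : ℝ} (hL : 1 ≤ L) (it : List Itm) (h : itb K it = true) :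
    ∃ C : ℝ, 0 ≤ C ∧ ∀ x, Dom0 L x → rab x it ≤ C * rho x ^ K := by
  induction it with
  | nil => exact ⟨0, le_rfl, fun x _ => by simp [rab]⟩
  | cons i it ih =>
    obtain ⟨h1, h2, h4⟩ := itb_cons h
    obtain ⟨C, hC, hC'⟩ := ih h4
    have hcb := cb_nonneg hL i
    refine ⟨cb L i + C, by (clear * - hcb hC; positivity), fun x hx => ?_⟩
    have := itm_le hL hx h1 h2
    have := hC' x hx
    rw [rab]
    linarith

theorem rz2_bd {K : ℕ} {L : ℝ} (hL : 1 ≤ L) (it : List Itm) (h : itb K it = true) :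
    ∃ C : ℝ, 0 ≤ C ∧ ∀ x, Dom0 L x → rz2 x it ≤ C * (rho x ^ K) ^ 2 := by
  induction it with
  | nil => exact ⟨0, le_rfl, fun x _ => by simp [rz2]⟩
  | cons i it ih =>
    obtain ⟨h1, h2, h4⟩ := itb_cons h
    obtain ⟨C, hC, hC'⟩ := ih h4
    have hcb := cb_nonneg hL i
    refine ⟨(cb L i) ^ 2 + C, by (clear * - hC; positivity), fun x hx => ?_⟩
    have h5 := itm_le hL hx h1 h2
    have h6 := hC' x hx
    have h7 : i.re x ^ 2 ≤ (cb L i * rho x ^ K) ^ 2 := by
      rw [← sq_abs]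
      exact pow_le_pow_left₀ (abs_nonneg _) h5 2
    rw [rz2]
    linarith only [h6, h7]

theorem rsq_bd {B off : ℕ} (hB : B = 2 * off) (h0 : 0 < off) {K : ℕ} {L : ℝ} (hL : 1 ≤ L)
    (it : List Itm) (h : itb K it = true) (Ls : List ℕ) :
    ∃ C : ℝ, 0 ≤ C ∧ ∀ x, Dom0 L x → rsq B off x it Ls ≤ C * (rho x ^ K) ^ 2 := by
  induction it generalizing Ls with
  | nil => exact ⟨0, le_rfl, fun x _ => by simp [rsq]⟩
  | cons i it ih =>
    cases Ls with
    | nil => exact ⟨0, le_rfl, fun x _ => by simp [rsq]⟩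
    | cons l Ls =>
      obtain ⟨C, hC, hC'⟩ := ih (itb_cons h).2.2 Ls
      obtain ⟨D, hD, hD'⟩ := rab_bd hL (i :: it) h
      refine ⟨(off * D) ^ 2 + C, by (clear * - hC; positivity), fun x hx => ?_⟩
      have h1 := rl_abs hB h0 x (i :: it) l
      have h2 := hD' x hx
      have h3 := hC' x hx
      have hoff : (0 : ℝ) ≤ off := Nat.cast_nonneg _
      have h4 : |rl B off x (i :: it) l| ≤ off * D * rho x ^ K := by
        refine h1.trans ?_
        rw [mul_assoc]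
        exact mul_le_mul_of_nonneg_left h2 hoff
      have h5 : rl B off x (i :: it) l ^ 2 ≤ (off * D * rho x ^ K) ^ 2 := by
        rw [← sq_abs]
        exact pow_le_pow_left₀ (abs_nonneg _) h4 2
      rw [rsq]
      linarith only [h3, h5]

/-- **the form of a block is bounded** -/
theorem q_bd {b : Blk} {k : ℕ} {r : Rad} (hb : b.okW k r = true) {K : ℕ}
    (hi : itb K b.its = true) {L : ℝ} (hL : 1 ≤ L) :
    ∃ C : ℝ, 0 ≤ C ∧ ∀ x, Dom0 L x → b.q x ≤ C * (1 + x.f ^ 2 + x.g ^ 2) ^ K := by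
  simp only [Blk.okW, Bool.and_eq_true, Nat.blt_eq] at hb
  obtain ⟨⟨⟨⟨⟨⟨_, _⟩, h3⟩, h4⟩, h5⟩, h6⟩, _⟩ := hb
  have h3 := Nat.eq_of_beq_eq_true h3
  have h5 := Nat.eq_of_beq_eq_true h5
  obtain ⟨C, hC, hC'⟩ := rsq_bd h3 h4 hL b.its hi b.L
  obtain ⟨D, hD, hD'⟩ := rz2_bd hL b.its hi
  refine ⟨C + b.dl * D + (b.its.length + 1) * b.offE * D, by (clear * - hC hD h6; positivity), fun x hx => ?_⟩
  have e : (rho x ^ K) ^ 2 = (1 + x.f ^ 2 + x.g ^ 2) ^ K := by
    rw [← rho_sq, ← pow_mul, ← pow_mul, mul_comm]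
  have h7 := hC' x hx
  have h8 := hD' x hx
  have h9 := rex_abs h5 h6 x b.its b.E
  have h10 := le_abs_self (rex b.BE b.offE x b.its b.E)
  rw [e] at h7 h8
  have h11 : (b.dl : ℝ) * rz2 x b.its ≤ b.dl * (D * (1 + x.f ^ 2 + x.g ^ 2) ^ K) :=
    mul_le_mul_of_nonneg_left h8 (Nat.cast_nonneg _)
  have h12 : ((b.its.length : ℝ) + 1) * b.offE * rz2 x b.its ≤
      ((b.its.length : ℝ) + 1) * b.offE * (D * (1 + x.f ^ 2 + x.g ^ 2) ^ K) :=
    mul_le_mul_of_nonneg_left h8 (by (clear * - h6; positivity))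
  have h13 : 0 ≤ ((b.its.length : ℝ) + 1) * b.offE * (D * (1 + x.f ^ 2 + x.g ^ 2) ^ K) := by
    (clear * - h6 hD; positivity)
  rw [Blk.q]
  linarith only [h7, h9, h10, h11, h12, h13]

end Pool.Sos71.BddH

namespace Pool.Sos71

open Pool.Agent.Helper69.EK6 (eDi)

/-- the condition of growth of the domain -/
def DomH (x : Pnt) : Prop :=
  x.b ^ 2 * (1 + x.f ^ 2 + x.g ^ 2) ≤ 100 ∧ x.d ^ 2 + x.e ^ 2 ≤ 900

/-- nonnegativity of the target of one side, with two disc multipliers with growth -/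
def SideH (K : ℕ) (Ln Ld : ℤ) (t : Ex) : Prop :=
  ∃ B : ℝ, ∀ x : Pnt, 0 ≤ x.b → x.b ≤ x.c → x.b ^ 2 + x.c ^ 2 = 1 → 0 ≤ x.a →
    (Ld : ℝ) * x.a ≤ Ln → DomH x → ∃ q1 q2 : ℝ, 0 ≤ q1 ∧
      q1 ≤ B * (1 + x.f ^ 2 + x.g ^ 2) ^ (K + 1) ∧
      0 ≤ q2 ∧ q2 ≤ B * (1 + x.f ^ 2 + x.g ^ 2) ^ (K + 1) ∧
      q1 * (eDi 1).re x + q2 * (eDi (-1)).re x ≤ t.re x

variable {Ln Ld : ℤ} {x : Pnt}

/-- a block with an admissible multiplier -/
def GoodH (K : ℕ) (Ln Ld : ℤ) (b : Blk) : Prop :=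
  (∀ x, DomL Ln Ld x → 0 ≤ b.mult.re x) ∨
    (BddH.itb (K + 1) b.its = true ∧ ((∀ x, DomL Ln Ld x → ∃ w : ℝ, 0 ≤ w ∧ w ≤ 1 ∧
      b.mult.re x = w * (eDi 1).re x) ∨ (∀ x, DomL Ln Ld x → ∃ w : ℝ, 0 ≤ w ∧ w ≤ 1 ∧
      b.mult.re x = w * (eDi (-1)).re x)))

section

variable {K : ℕ} {b : Blk}

lemma GoodH.one (h : b.mult = mOne) : GoodH K Ln Ld b :=
  Or.inl fun x _ => by rw [h, mOne_re]; norm_num

lemma GoodH.ab (h : b.mult = mAB) : GoodH K Ln Ld b :=
  Or.inl fun x hx => by rw [h]; exact mAB_nonneg hx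

lemma GoodH.l (h : b.mult = mL Ln Ld) : GoodH K Ln Ld b :=
  Or.inl fun x hx => by rw [h]; exact mL_nonneg hx

lemma GoodH.abl (h : b.mult = mABL Ln Ld) : GoodH K Ln Ld b :=
  Or.inl fun x hx => by rw [h]; exact mABL_nonneg hx

lemma GoodH.d1 (h : b.mult = eDi 1) (hi : BddH.itb (K + 1) b.its = true) : GoodH K Ln Ld b :=
  Or.inr ⟨hi, Or.inl fun x _ => ⟨1, zero_le_one, le_rfl, by rw [h, one_mul]⟩⟩

end

lemma DomL.domH (h : DomL Ln Ld x) (hw : DomH x) (hd : 0 < Ld) {L : ℝ}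
    (hL : (Ln : ℝ) / Ld ≤ L) : BddH.Dom0 L x := by
  have hd' : (0 : ℝ) < Ld := by exact_mod_cast hd
  have h1 : x.a ≤ Ln / Ld := by
    rw [le_div_iff₀ hd']
    linarith only [h.a1]
  have hc := h.b0.trans h.bc
  have hr := Bdd.rho_one x
  have hr2 := Bdd.rho_sq x
  obtain ⟨hw, hde⟩ := hw
  rw [← hr2, ← mul_pow] at hw
  refine ⟨⟨h.a0, h1.trans hL⟩, ?_, ?_, abs_le_of_sq_le_sq (by (clear * - hde; nlinarith only [hde]))
    (by norm_num), abs_le_of_sq_le_sq (by nlinarith only [hde]) (by norm_num)⟩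
  · rw [abs_of_nonneg h.b0]
    have h0 : 0 ≤ x.b * Bdd.rho x := mul_nonneg h.b0 (by linarith only [hr])
    (clear * - hw; nlinarith only [hw])
  · rw [abs_of_nonneg hc]
    (clear * - h; nlinarith only [h.u1])

theorem brs_sideH {k : ℕ} {r : Rad} {N : Bd} {K : ℕ} (hd : 0 < Ld) (bs : List Blk)
    (hk : bokW k r N bs = true) (hg : ∀ b ∈ bs, GoodH K Ln Ld b) :
    ∃ B : ℝ, 0 ≤ B ∧ ∀ x : Pnt, DomL Ln Ld x → DomH x → ∃ q1 q2 : ℝ, 0 ≤ q1 ∧
      q1 ≤ B * (1 + x.f ^ 2 + x.g ^ 2) ^ (K + 1) ∧ 0 ≤ q2 ∧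
      q2 ≤ B * (1 + x.f ^ 2 + x.g ^ 2) ^ (K + 1) ∧
      q1 * (eDi 1).re x + q2 * (eDi (-1)).re x ≤ brs x bs := by
  induction bs with
  | nil =>
    refine ⟨0, le_rfl, fun x _ _ => ⟨0, 0, le_rfl, by simp, le_rfl, by simp, ?_⟩⟩
    simp [brs]
  | cons b bs ih =>
    simp only [bokW, Bool.and_eq_true] at hk
    obtain ⟨⟨k1, _⟩, k3⟩ := hk
    obtain ⟨B, hB, ih⟩ := ih k3 fun b' hb => hg b' (List.mem_cons_of_mem _ hb)
    rcases hg b List.mem_cons_self with h | ⟨hi, h⟩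
    · refine ⟨B, hB, fun x hx hw => ?_⟩
      obtain ⟨q1, q2, a1, a2, a3, a4, a5⟩ := ih x hx hw
      refine ⟨q1, q2, a1, a2, a3, a4, ?_⟩
      have := mul_nonneg (h x hx) (Blk.q_nonnegW k1 x)
      rw [brs]
      linarith only [a5, this]
    · obtain ⟨C, hC, hC'⟩ := BddH.q_bd k1 hi (L := max 1 ((Ln : ℝ) / Ld)) (le_max_left _ _)
      refine ⟨B + C, by (clear * - hB hC; positivity), fun x hx hw => ?_⟩
      obtain ⟨q1, q2, a1, a2, a3, a4, a5⟩ := ih x hx hw
      have hq := Blk.q_nonnegW k1 x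
      have hq' := hC' x (hx.domH hw hd (le_max_right _ _))
      have hr : 0 ≤ (1 + x.f ^ 2 + x.g ^ 2) ^ (K + 1) := by (clear * -; positivity)
      rcases h with h | h
      · obtain ⟨w, w0, w1, hw⟩ := h x hx
        have h1 : w * b.q x ≤ b.q x := mul_le_of_le_one_left hq w1
        refine ⟨q1 + w * b.q x, q2, add_nonneg a1 (mul_nonneg w0 hq), ?_, a3, ?_, ?_⟩
        · rw [add_mul]
          (clear * - a2 hq' h1; linarith only [a2, hq', h1])
        · rw [add_mul]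
          (clear * - a4 hq hq'; linarith only [a4, hq, hq'])
        · rw [brs, hw]
          linarith only [a5]
      · obtain ⟨w, w0, w1, hw⟩ := h x hx
        have h1 : w * b.q x ≤ b.q x := mul_le_of_le_one_left hq w1
        refine ⟨q1, q2 + w * b.q x, a1, ?_, add_nonneg a3 (mul_nonneg w0 hq), ?_, ?_⟩
        · rw [add_mul]
          linarith only [mul_nonneg hC hr, a2]
        · rw [add_mul]
          (clear * - a4 hq' h1; linarith)
        · rw [brs, hw]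
          linarith only [a5]

end Pool.Sos71

end

section

namespace Pool.Agent.Helper69.EK6
end Pool.Agent.Helper69.EK6

set_option autoImplicit false

/-!
Certificates of one side in several parts, with packed polynomials.
-/

namespace Pool.Sos71

open Pool.Agent.Helper69.EK6 (eDi)

/-- `SideH` for a function -/
def SideF (K : ℕ) (Ln Ld : ℤ) (φ : Pnt → ℝ) : Prop :=
  ∃ B : ℝ, ∀ x : Pnt, 0 ≤ x.b → x.b ≤ x.c → x.b ^ 2 + x.c ^ 2 = 1 → 0 ≤ x.a →
    (Ld : ℝ) * x.a ≤ Ln → DomH x → ∃ q1 q2 : ℝ, 0 ≤ q1 ∧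
      q1 ≤ B * (1 + x.f ^ 2 + x.g ^ 2) ^ (K + 1) ∧
      0 ≤ q2 ∧ q2 ≤ B * (1 + x.f ^ 2 + x.g ^ 2) ^ (K + 1) ∧
      q1 * (eDi 1).re x + q2 * (eDi (-1)).re x ≤ φ x

variable {K : ℕ} {Ln Ld : ℤ}

theorem SideF.side {t : Ex} (h : SideF K Ln Ld fun x => t.re x) : SideH K Ln Ld t := h

theorem SideF.congr {φ ψ : Pnt → ℝ} (h : ∀ x, φ x = ψ x) (hu : SideF K Ln Ld ψ) :
    SideF K Ln Ld φ := by
  have : φ = ψ := funext h
  rw [this]
  exact hu

theorem SideF.zero : SideF K Ln Ld fun _ => 0 :=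
  ⟨0, fun x _ _ _ _ _ _ => ⟨0, 0, le_rfl, by simp, le_rfl, by simp, by simp⟩⟩

theorem SideF.add {φ ψ : Pnt → ℝ} (ht : SideF K Ln Ld φ) (hu : SideF K Ln Ld ψ) :
    SideF K Ln Ld fun x => φ x + ψ x := by
  obtain ⟨B, hB⟩ := ht
  obtain ⟨C, hC⟩ := hu
  refine ⟨B + C, fun x h1 h2 h3 h4 h5 h6 => ?_⟩
  obtain ⟨q1, q2, a1, a2, a3, a4, a5⟩ := hB x h1 h2 h3 h4 h5 h6
  obtain ⟨r1, r2, b1, b2, b3, b4, b5⟩ := hC x h1 h2 h3 h4 h5 h6
  refine ⟨q1 + r1, q2 + r2, add_nonneg a1 b1, ?_, add_nonneg a3 b3, ?_, ?_⟩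
  · rw [add_mul]; (clear * - a2 b2; linarith only [a2, b2])
  · rw [add_mul]; linarith only [a4, b4]
  · rw [add_mul, add_mul]; (clear * - a5 b5; linarith only [a5, b5])

theorem SideF.div {φ : Pnt → ℝ} {z : ℝ} (hz : 0 < z) (h : SideF K Ln Ld fun x => z * φ x) :
    SideF K Ln Ld φ := by
  obtain ⟨B, hB⟩ := h
  refine ⟨B / z, fun x h1 h2 h3 h4 h5 h6 => ?_⟩
  obtain ⟨q1, q2, a1, a2, a3, a4, a5⟩ := hB x h1 h2 h3 h4 h5 h6
  refine ⟨q1 / z, q2 / z, div_nonneg a1 hz.le, ?_, div_nonneg a3 hz.le, ?_, ?_⟩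
  · rw [div_mul_eq_mul_div]
    exact div_le_div_of_nonneg_right a2 hz.le
  · rw [div_mul_eq_mul_div]
    exact div_le_div_of_nonneg_right a4 hz.le
  · have h8 : q1 / z * (eDi 1).re x + q2 / z * (eDi (-1)).re x =
        (q1 * (eDi 1).re x + q2 * (eDi (-1)).re x) / z := by
      (clear * - hz; field_simp)
    rw [h8, div_le_iff₀ hz]
    linarith only [a5]

theorem SideF.brs {D : CertK} (h : D.check = true) (hd : 0 < Ld)
    (hg : ∀ b ∈ D.blocks, GoodH K Ln Ld b) : SideF K Ln Ld fun x => Pool.Sos71.brs x D.blocks := by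
  have hk : bokW D.k D.r D.N D.blocks = true := by
    simp only [CertK.check, Bool.and_eq_true] at h
    exact h.1.1.2
  obtain ⟨B, hB, hb⟩ := brs_sideH hd D.blocks hk hg
  refine ⟨B, fun x h1 h2 h3 h4 h5 h6 => ?_⟩
  exact hb x ⟨h1, h2, h3, h4, h5⟩ h6

/-- a part of the certificate -/
theorem SideF.part {D : CertK} (h : D.check = true) (hd : 0 < Ld)
    (hg : ∀ b ∈ D.blocks, GoodH K Ln Ld b) {P : Pk} (h1 : D.tg = []) (h2 : D.plus = [P])
    (h3 : D.minus = []) : SideF K Ln Ld fun x => P.re x := by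
  refine SideF.congr (fun x => ?_) (SideF.brs h hd hg)
  have := CertK.sound h x
  rw [h1, h2, h3] at this
  have e : (0 : ℝ) + (P.re x + 0) = Pool.Sos71.brs x D.blocks + 0 := this
  (clear * - e; linarith only [e])

theorem SideF.pre {l : List Pk} (h : ∀ P ∈ l, SideF K Ln Ld fun x => P.re x) :
    SideF K Ln Ld fun x => Pool.Sos71.pre x l := by
  induction l with
  | nil => exact SideF.zero
  | cons P l ih =>
    exact SideF.add (h P List.mem_cons_self) (ih fun Q hQ => h Q (List.mem_cons_of_mem _ hQ))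

/-- the last part, for a packed polynomial -/
theorem SideF.lastP {D : CertK} (h : D.check = true) (hd : 0 < Ld)
    (hg : ∀ b ∈ D.blocks, GoodH K Ln Ld b) {P : Pk} (h1 : D.tg = []) (h2 : D.plus = [P])
    (h3 : ∀ P ∈ D.minus, SideF K Ln Ld fun x => P.re x) : SideF K Ln Ld fun x => P.re x := by
  refine SideF.congr (fun x => ?_) ((SideF.brs h hd hg).add (SideF.pre h3))
  have := CertK.sound h x
  rw [h1, h2] at this
  have e : (0 : ℝ) + (P.re x + 0) =
    Pool.Sos71.brs x D.blocks + Pool.Sos71.pre x D.minus := this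
  linarith only [e]

/-- the target is a packed polynomial, up to a factor -/
theorem SideF.target {D : CertK} (h : D.check = true) {s : ℕ} {t : Ex} {P : Pk} (hs : 0 < s)
    (h1 : D.tg = [(s, t)]) (h2 : D.plus = []) (h3 : D.minus = [P]) (h4 : D.blocks = [])
    (hP : SideF K Ln Ld fun x => P.re x) : SideH K Ln Ld t := by
  have hs' : (0 : ℝ) < s := by exact_mod_cast hs
  refine SideF.side (SideF.div hs' (SideF.congr (fun x => ?_) hP))
  have := CertK.sound h x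
  rw [h1, h2, h3, h4] at this
  have e : ((s : ℝ) * t.re x + 0) + 0 = (0 : ℝ) + (P.re x + 0) := this
  linarith only [e]

end Pool.Sos71

end

section

namespace Pool.Agent.Helper39.Area
end Pool.Agent.Helper39.Area

set_option autoImplicit false

open Complex MeasureTheory Metric Set

open scoped Real ENNReal ComplexConjugate

namespace Pool.Agent.Helper84.EK

open Pool.Agent.Helper39.Area

variable {F : ℂ → ℂ} {ρ : ℝ}

/-- univalent on the disc, with `F 0 = 0` -/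
structure Uni (F : ℂ → ℂ) : Prop where
  diff : DifferentiableOn ℂ F (ball 0 1)
  inj : InjOn F (ball 0 1)
  zero : F 0 = 0

theorem Uni.cont (h : Uni F) (hρ1 : ρ < 1) : ContinuousOn F (sphere 0 ρ) :=
  h.diff.continuousOn.mono fun _ hζ => mem_ball_of_sphere hρ1 (sphere_subset_closedBall hζ)

theorem Uni.dcont (h : Uni F) (hρ1 : ρ < 1) : ContinuousOn (deriv F) (sphere 0 ρ) :=
  (h.diff.deriv isOpen_ball).continuousOn.mono
    fun _ hζ => mem_ball_of_sphere hρ1 (sphere_subset_closedBall hζ)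

theorem Uni.dslope_ne (h : Uni F) {a ζ : ℂ} (ha : a ∈ ball (0:ℂ) 1) (hζ : ζ ∈ ball (0:ℂ) 1) :
    dslope F a ζ ≠ 0 := by
  by_cases hne : ζ = a
  · subst hne
    rw [dslope_same]
    exact Pool.Agent.Helper24.Br.deriv_ne_of_inj isOpen_ball h.diff h.inj hζ
  · rw [dslope_of_ne _ hne, slope_def_field]
    refine div_ne_zero ?_ (sub_ne_zero.mpr hne)
    intro h'
    exact hne (h.inj hζ ha (sub_eq_zero.mp h'))

theorem Uni.wind_in (h : Uni F) (hρ : 0 < ρ) (hρ1 : ρ < 1) {a : ℂ} (ha : a ∈ ball (0:ℂ) ρ) :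
    (∮ ζ in C(0, ρ), deriv F ζ / (F ζ - F a)) = 2 * π * I := by
  have ha1 : a ∈ ball (0:ℂ) 1 := mem_ball_of_sphere hρ1 (ball_subset_closedBall ha)
  have hsd : DifferentiableOn ℂ (dslope F a) (ball 0 1) :=
    (Complex.differentiableOn_dslope (isOpen_ball.mem_nhds ha1)).mpr h.diff
  have hs0 : ∀ ζ ∈ closedBall (0:ℂ) ρ, dslope F a ζ ≠ 0 := fun ζ hζ =>
    h.dslope_ne ha1 (mem_ball_of_sphere hρ1 hζ)
  have hfac : ∀ ζ : ℂ, F ζ = F a + (ζ - a) * dslope F a ζ := by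
    intro ζ
    have := sub_smul_dslope F a ζ
    rw [smul_eq_mul] at this
    rw [this]
    ring
  have h1 : (∮ ζ in C(0, ρ), deriv F ζ / (F ζ - F a)) =
      ∮ ζ in C(0, ρ), ((ζ - a)⁻¹ + deriv (dslope F a) ζ / dslope F a ζ) := by
    apply circleIntegral.integral_congr hρ.le
    intro ζ hζ
    have hζ1 := mem_ball_of_sphere hρ1 (sphere_subset_closedBall hζ)
    have hne : ζ - a ≠ 0 := by
      intro h'
      rw [sub_eq_zero] at h'
      subst h'
      simp at hζ ha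
      (clear * - hζ ha; linarith only [hζ, ha])
    have hs := hs0 ζ (sphere_subset_closedBall hζ)
    have h3 : HasDerivAt F (1 * dslope F a ζ + (ζ - a) * deriv (dslope F a) ζ) ζ := by
      have h4 := (((hasDerivAt_id ζ).sub_const a).mul
        ((hsd.differentiableAt (isOpen_ball.mem_nhds hζ1)).hasDerivAt)).const_add (F a)
      refine h4.congr_of_eventuallyEq (Filter.Eventually.of_forall fun w => ?_)
      exact hfac w
    have h5 : F ζ - F a = (ζ - a) * dslope F a ζ := by rw [hfac ζ]; ring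
    simp only
    rw [h3.deriv, h5]
    (clear * - hs hne; field_simp)
  have hc1 := (cont_logDeriv hρ1 hsd hs0).circleIntegrable hρ.le
  have hc2 : CircleIntegrable (fun ζ : ℂ => (ζ - a)⁻¹) 0 ρ := by
    apply ContinuousOn.circleIntegrable hρ.le
    apply ContinuousOn.inv₀ (by fun_prop)
    intro ζ hζ h'
    rw [sub_eq_zero] at h'
    subst h'
    simp at hζ ha
    (clear * - hζ ha; linarith only [hζ, ha])
  rw [h1, circleIntegral.integral_add hc2 hc1, circle_logDeriv hρ hρ1 hsd hs0,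
    circleIntegral.integral_sub_inv_of_mem_ball ha, add_zero]

theorem Uni.wind_out (h : Uni F) (hρ : 0 < ρ) (hρ1 : ρ < 1) {u : ℂ}
    (hu : ∀ ζ ∈ closedBall (0:ℂ) ρ, F ζ ≠ u) :
    (∮ ζ in C(0, ρ), deriv F ζ / (F ζ - u)) = 0 := by
  have h1 := circle_logDeriv hρ hρ1 (s := fun ζ => F ζ - u) (h.diff.sub_const u)
    (fun ζ hζ h' => hu ζ hζ (sub_eq_zero.mp h'))
  refine Eq.trans ?_ h1
  apply circleIntegral.integral_congr hρ.le
  intro ζ hζ
  have hζ1 := mem_ball_of_sphere hρ1 (sphere_subset_closedBall hζ)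
  have h2 := ((h.diff.differentiableAt (isOpen_ball.mem_nhds hζ1)).hasDerivAt.sub_const u).deriv
  simp only
  rw [h2]

theorem Uni.ne_on (h : Uni F) (hρ : 0 < ρ) (hρ1 : ρ < 1) : ∀ ζ ∈ sphere (0:ℂ) ρ, F ζ ≠ 0 := by
  intro ζ hζ h'
  have h2 := h.inj (mem_ball_of_sphere hρ1 (sphere_subset_closedBall hζ))
    (mem_ball_self one_pos) (h'.trans h.zero.symm)
  exact sphere_ne hρ hζ h2

/-- the inner contour integral -/
theorem Uni.inner (h : Uni F) (hρ : 0 < ρ) (hρ1 : ρ < 1) {u : ℂ} (hu0 : u ≠ 0)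
    (hu : u ∉ F '' sphere 0 ρ) :
    (∮ ζ in C(0, ρ), deriv F ζ / F ζ / (F ζ - u)) =
      u⁻¹ * ((∮ ζ in C(0, ρ), deriv F ζ / (F ζ - u)) - 2 * π * I) := by
  have hne : ∀ ζ ∈ sphere (0:ℂ) ρ, F ζ - u ≠ 0 := by
    intro ζ hζ h'
    exact hu ⟨ζ, hζ, sub_eq_zero.mp h'⟩
  have hne2 := h.ne_on hρ hρ1
  have hc1 : CircleIntegrable (fun ζ => deriv F ζ / (F ζ - u)) 0 ρ := by
    apply ContinuousOn.circleIntegrable hρ.le
    exact (h.dcont hρ1).div ((h.cont hρ1).sub continuousOn_const) hne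
  have hc2 : CircleIntegrable (fun ζ => deriv F ζ / (F ζ - F 0)) 0 ρ := by
    apply ContinuousOn.circleIntegrable hρ.le
    refine (h.dcont hρ1).div ((h.cont hρ1).sub continuousOn_const) ?_
    intro ζ hζ
    rw [h.zero, sub_zero]
    exact hne2 ζ hζ
  have h1 : (∮ ζ in C(0, ρ), deriv F ζ / F ζ / (F ζ - u)) =
      ∮ ζ in C(0, ρ), u⁻¹ * (deriv F ζ / (F ζ - u) - deriv F ζ / (F ζ - F 0)) := by
    apply circleIntegral.integral_congr hρ.le
    intro ζ hζ
    have h3 := hne ζ hζ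
    have h4 := hne2 ζ hζ
    simp only
    rw [h.zero, sub_zero]
    field_simp
    ring
  rw [h1, circleIntegral.integral_const_mul, circleIntegral.integral_sub hc1 hc2,
    h.wind_in hρ hρ1 (mem_ball_self hρ)]

theorem Uni.image_open (h : Uni F) (hρ1 : ρ < 1) : IsOpen (F '' ball 0 ρ) := by
  rw [isOpen_iff_mem_nhds]
  rintro _ ⟨ζ, hζ, rfl⟩
  have hζ1 : ζ ∈ ball (0:ℂ) 1 := mem_ball_of_sphere hρ1 (ball_subset_closedBall hζ)
  have h2 : AnalyticAt ℂ F ζ := h.diff.analyticAt (isOpen_ball.mem_nhds hζ1)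
  have hmap := h2.hasStrictDerivAt.map_nhds_eq
    (Pool.Agent.Helper24.Br.deriv_ne_of_inj isOpen_ball h.diff h.inj hζ1)
  rw [← hmap]
  exact Filter.image_mem_map (isOpen_ball.mem_nhds hζ)

end Pool.Agent.Helper84.EK

end

section

namespace Pool.Agent.Helper39.Area
end Pool.Agent.Helper39.Area

set_option autoImplicit false

open Complex MeasureTheory Metric Set

open scoped Real ENNReal ComplexConjugate

namespace Pool.Agent.Helper84.EK

open Pool.Agent.Helper39.Area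

variable {F : ℂ → ℂ} {ρ : ℝ}

/-- the logarithmic area of the part of the disc of radius `M` outside of `F (ball 0 ρ)` -/
noncomputable def lArea (F : ℂ → ℂ) (ρ M : ℝ) : ℝ :=
  ∫ u in ball (0:ℂ) M, (F '' ball 0 ρ)ᶜ.indicator (fun u => (‖u‖ ^ 2)⁻¹) u

theorem Uni.log_area (h : Uni F) (hρ : 0 < ρ) (hρ1 : ρ < 1) {M : ℝ}
    (hM : ∀ ζ ∈ sphere (0:ℂ) ρ, ‖F ζ‖ < M) :
    (∮ ζ in C(0, ρ), ((2 * Real.log ‖F ζ‖ : ℝ) : ℂ) * (deriv F ζ / F ζ)) =
      -(2 * I) * (lArea F ρ M : ℂ) + 4 * π * I * (Real.log M : ℂ) := by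
  have hFc := h.cont hρ1
  have hdc := h.dcont hρ1
  have hne2 := h.ne_on hρ hρ1
  have hMpos : 0 < M := lt_of_le_of_lt (norm_nonneg _) (hM _ (circleMap_mem hρ 0))
  -- the lower bound
  obtain ⟨d, hd0, hd⟩ : ∃ d : ℝ, 0 < d ∧ ∀ ζ ∈ sphere (0:ℂ) ρ, ‖F ζ‖⁻¹ ≤ d := by
    have : ContinuousOn (fun ζ => (F ζ)⁻¹) (sphere 0 ρ) := hFc.inv₀ hne2
    obtain ⟨M, hM⟩ := (isCompact_sphere (0:ℂ) ρ).exists_bound_of_continuousOn this
    refine ⟨|M| + 1, by (clear * -; positivity), fun ζ hζ => ?_⟩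
    have := hM ζ hζ
    rw [norm_inv] at this
    linarith [le_abs_self M]
  set D : ℂ → ℂ := fun ζ => deriv F ζ / F ζ with hD
  have hDc : ContinuousOn D (sphere 0 ρ) := hdc.div hFc hne2
  have hpi0 : (π:ℂ) ≠ 0 := by exact_mod_cast Real.pi_ne_zero
  -- Step 1: rewrite with the kernel
  have e1 : (∮ ζ in C(0, ρ), ((2 * Real.log ‖F ζ‖ : ℝ) : ℂ) * D ζ) =
      ∮ ζ in C(0, ρ), ((π:ℂ)⁻¹ * (D ζ * ∫ u in ball (0:ℂ) M,
        (conj u)⁻¹ / (F ζ - u)) + ((2 * Real.log M : ℝ) : ℂ) * D ζ) := by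
    apply circleIntegral.integral_congr hρ.le
    intro ζ hζ
    simp only
    rw [logkernel M (hne2 ζ hζ) (hM ζ hζ)]
    push_cast
    field_simp
    ring
  have hlc : ContinuousOn (fun ζ => ((2 * Real.log ‖F ζ‖ : ℝ) : ℂ)) (sphere 0 ρ) := by
    apply Complex.continuous_ofReal.comp_continuousOn
    apply continuousOn_const.mul
    apply ContinuousOn.log hFc.norm
    intro ζ hζ
    exact norm_ne_zero_iff.mpr (hne2 ζ hζ)
  have hci2 : CircleIntegrable (fun ζ => ((2 * Real.log M : ℝ) : ℂ) * D ζ) 0 ρ :=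
    (continuousOn_const.mul hDc).circleIntegrable hρ.le
  have hci1 : CircleIntegrable (fun ζ => (π:ℂ)⁻¹ * (D ζ * ∫ u in ball (0:ℂ) M,
        (conj u)⁻¹ / (F ζ - u))) 0 ρ := by
    apply ContinuousOn.circleIntegrable hρ.le
    have hcc : ContinuousOn (fun ζ => ((2 * Real.log ‖F ζ‖ : ℝ) : ℂ) * D ζ -
        ((2 * Real.log M : ℝ) : ℂ) * D ζ) (sphere 0 ρ) :=
      (hlc.mul hDc).sub (continuousOn_const.mul hDc)
    apply hcc.congr
    intro ζ hζ
    simp only
    rw [logkernel M (hne2 ζ hζ) (hM ζ hζ)]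
    push_cast
    field_simp
  have e2 : (∮ ζ in C(0, ρ), ((2 * Real.log M : ℝ) : ℂ) * D ζ) =
      4 * π * I * (Real.log M : ℂ) := by
    have h1 := h.wind_in hρ hρ1 (mem_ball_self hρ)
    simp only [h.zero, sub_zero] at h1
    rw [circleIntegral.integral_const_mul, hD, h1]
    push_cast
    ring
  rw [e1, circleIntegral.integral_add hci1 hci2, e2, circleIntegral.integral_const_mul]
  -- Step 2: Fubini
  have e3 : (∮ ζ in C(0, ρ), D ζ * ∫ u in ball (0:ℂ) M, (conj u)⁻¹ / (F ζ - u)) =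
      ∫ u in ball (0:ℂ) M, (conj u)⁻¹ *
        ∮ ζ in C(0, ρ), deriv F ζ / F ζ / (F ζ - u) := by
    simp only [circleIntegral]
    have e4 : (∫ θ in (0:ℝ)..2 * π, deriv (circleMap 0 ρ) θ • (D (circleMap 0 ρ θ) *
        ∫ u in ball (0:ℂ) M, (conj u)⁻¹ / (F (circleMap 0 ρ θ) - u))) =
        ∫ θ in (0:ℝ)..2 * π, ∫ u in ball (0:ℂ) M, deriv (circleMap 0 ρ) θ * (D (circleMap 0 ρ θ) *
          ((conj u)⁻¹ / (F (circleMap 0 ρ θ) - u))) := by
      congr 1
      funext θ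
      rw [smul_eq_mul, ← integral_const_mul, ← integral_const_mul]
    have e5 : (∫ u in ball (0:ℂ) M, (conj u)⁻¹ *
        ∫ θ in (0:ℝ)..2 * π, deriv (circleMap 0 ρ) θ •
          (deriv F (circleMap 0 ρ θ) / F (circleMap 0 ρ θ) /
            (F (circleMap 0 ρ θ) - u))) =
        ∫ u in ball (0:ℂ) M, ∫ θ in (0:ℝ)..2 * π, deriv (circleMap 0 ρ) θ * (D (circleMap 0 ρ θ) *
          ((conj u)⁻¹ / (F (circleMap 0 ρ θ) - u))) := by
      congr 1
      funext u
      rw [← intervalIntegral.integral_const_mul]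
      congr 1
      funext θ
      simp only [hD, smul_eq_mul]
      ring
    rw [e4, e5]
    simp only [intervalIntegral.integral_of_le Real.two_pi_pos.le]
    apply integral_integral_swap
    -- integrability
    have hcθ : Continuous (fun θ : ℝ => circleMap 0 ρ θ) := continuous_circleMap 0 ρ
    have hc1 : Continuous (fun θ : ℝ => F (circleMap 0 ρ θ)) :=
      hFc.comp_continuous hcθ (fun θ => circleMap_mem hρ θ)
    have hc2 : Continuous (fun θ : ℝ => deriv (circleMap 0 ρ) θ * D (circleMap 0 ρ θ)) := by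
      have : deriv (circleMap 0 ρ) = fun θ => circleMap 0 ρ θ * I := by
        funext θ; rw [deriv_circleMap]
      apply Continuous.mul
      · rw [this]; fun_prop
      · exact hDc.comp_continuous hcθ (fun θ => circleMap_mem hρ θ)
    have hmeas : Measurable (fun z : ℝ × ℂ => deriv (circleMap 0 ρ) z.1 * (D (circleMap 0 ρ z.1) *
          ((conj z.2)⁻¹ / (F (circleMap 0 ρ z.1) - z.2)))) := by
      have m1 : Measurable (fun z : ℝ × ℂ => deriv (circleMap 0 ρ) z.1 * D (circleMap 0 ρ z.1)) :=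
        hc2.measurable.comp measurable_fst
      have m2 : Measurable (fun z : ℝ × ℂ => (conj z.2)⁻¹) :=
        (Complex.continuous_conj.measurable.inv).comp measurable_snd
      have m3 : Measurable (fun z : ℝ × ℂ => F (circleMap 0 ρ z.1) - z.2) :=
        (hc1.measurable.comp measurable_fst).sub measurable_snd
      have e : (fun z : ℝ × ℂ => deriv (circleMap 0 ρ) z.1 * (D (circleMap 0 ρ z.1) *
          ((conj z.2)⁻¹ / (F (circleMap 0 ρ z.1) - z.2)))) =
          fun z : ℝ × ℂ => (deriv (circleMap 0 ρ) z.1 * D (circleMap 0 ρ z.1)) *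
          ((conj z.2)⁻¹ / (F (circleMap 0 ρ z.1) - z.2)) := by
        funext z; ring
      rw [e]
      exact m1.mul (m2.div m3)
    show Integrable (fun z : ℝ × ℂ => deriv (circleMap 0 ρ) z.1 * (D (circleMap 0 ρ z.1) *
          ((conj z.2)⁻¹ / (F (circleMap 0 ρ z.1) - z.2))))
          ((volume.restrict (Ioc 0 (2 * π))).prod (volume.restrict (ball 0 M)))
    refine ⟨hmeas.aestronglyMeasurable, ?_⟩
    -- bounds
    obtain ⟨B1, hB1⟩ := (isCompact_Icc (a := (0:ℝ)) (b := 2 * π)).exists_bound_of_continuousOn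
      hc2.continuousOn
    have hB10 : 0 ≤ B1 := (norm_nonneg _).trans (hB1 0 ⟨le_rfl, Real.two_pi_pos.le⟩)
    rw [hasFiniteIntegral_iff_enorm]
    rw [lintegral_prod _ (hmeas.enorm.aemeasurable)]
    calc ∫⁻ θ in Ioc (0:ℝ) (2 * π), ∫⁻ u in ball (0:ℂ) M, ‖deriv (circleMap 0 ρ) θ *
          (D (circleMap 0 ρ θ) *
          ((conj u)⁻¹ / (F (circleMap 0 ρ θ) - u)))‖ₑ
        ≤ ∫⁻ θ in Ioc (0:ℝ) (2 * π), ENNReal.ofReal (B1 * d) *
            (ENNReal.ofReal (2 * π * M) + ENNReal.ofReal (2 * π * (M + M))) := by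
          apply setLIntegral_mono measurable_const
          intro θ hθ
          have hθ' : θ ∈ Icc (0:ℝ) (2 * π) := Ioc_subset_Icc_self hθ
          set v : ℂ := F (circleMap 0 ρ θ) with hv
          have hv0 : v ≠ 0 := hne2 _ (circleMap_mem hρ θ)
          have hvd : ‖v‖⁻¹ ≤ d := hd _ (circleMap_mem hρ θ)
          have hvM : ‖v‖ < M := hM _ (circleMap_mem hρ θ)
          calc ∫⁻ u in ball (0:ℂ) M, ‖deriv (circleMap 0 ρ) θ * (D (circleMap 0 ρ θ) *
                ((conj u)⁻¹ / (v - u)))‖ₑ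
              ≤ ∫⁻ u in ball (0:ℂ) M, ENNReal.ofReal (B1 * d) *
                  (ENNReal.ofReal (‖u‖⁻¹) + ENNReal.ofReal (‖v - u‖⁻¹)) := by
                apply setLIntegral_mono
                · apply Measurable.const_mul
                  exact (by fun_prop : Measurable fun u : ℂ => ‖u‖⁻¹).ennreal_ofReal.add
                    (by fun_prop : Measurable fun u : ℂ => ‖v - u‖⁻¹).ennreal_ofReal
                intro u hu
                rw [← ofReal_norm, ← ENNReal.ofReal_add (by (clear * -; positivity)) (by (clear * -; positivity)),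
                  ← ENNReal.ofReal_mul (by (clear * - hB10 hd0; positivity))]
                apply ENNReal.ofReal_le_ofReal
                have b1 := hB1 θ hθ'
                calc ‖deriv (circleMap 0 ρ) θ * (D (circleMap 0 ρ θ) *
                      ((conj u)⁻¹ / (v - u)))‖
                    = ‖deriv (circleMap 0 ρ) θ * D (circleMap 0 ρ θ)‖ *
                      (‖u‖⁻¹ * ‖v - u‖⁻¹) := by
                      rw [← mul_assoc, norm_mul, norm_div, norm_inv, RCLike.norm_conj, div_eq_mul_inv]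
                  _ ≤ B1 * (‖v‖⁻¹ * (‖u‖⁻¹ + ‖v - u‖⁻¹)) := by
                      apply mul_le_mul b1 (inv_mul_inv_le u v hv0) (by (clear * -; positivity)) hB10
                  _ ≤ B1 * (d * (‖u‖⁻¹ + ‖v - u‖⁻¹)) := by (clear * - hvd hB10; gcongr)
                  _ = B1 * d * (‖u‖⁻¹ + ‖v - u‖⁻¹) := by ring
            _ = ENNReal.ofReal (B1 * d) * (∫⁻ u in ball (0:ℂ) M, ENNReal.ofReal (‖u‖⁻¹) +
                  ENNReal.ofReal (‖v - u‖⁻¹)) := by
                rw [lintegral_const_mul' _ _ ENNReal.ofReal_ne_top]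
            _ = ENNReal.ofReal (B1 * d) * ((∫⁻ u in ball (0:ℂ) M, ENNReal.ofReal (‖u‖⁻¹)) +
                  ∫⁻ u in ball (0:ℂ) M, ENNReal.ofReal (‖v - u‖⁻¹)) := by
                rw [lintegral_add_left (by fun_prop : Measurable fun u : ℂ => ‖u‖⁻¹).ennreal_ofReal]
            _ ≤ ENNReal.ofReal (B1 * d) *
                (ENNReal.ofReal (2 * π * M) + ENNReal.ofReal (2 * π * (M + M))) := by
                gcongr
                · exact lint_inv_ball M
                · refine (lint_inv _ M).trans ?_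
                  apply ENNReal.ofReal_le_ofReal
                  have hpi := Real.pi_pos
                  nlinarith only [hvM, hpi]
      _ < ⊤ := by
          rw [setLIntegral_const]
          apply ENNReal.mul_lt_top
          · apply ENNReal.mul_lt_top ENNReal.ofReal_lt_top
            exact ENNReal.add_lt_top.mpr ⟨ENNReal.ofReal_lt_top, ENNReal.ofReal_lt_top⟩
          · rw [Real.volume_Ioc]; exact ENNReal.ofReal_lt_top
  rw [e3]
  -- Step 3: evaluate the inner integral almost everywhere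
  have hnull : volume (F '' sphere 0 ρ) = 0 := by
    apply addHaar_image_eq_zero_of_differentiableOn_of_addHaar_eq_zero
    · intro ζ hζ
      have h1 := (h.diff.differentiableAt (isOpen_ball.mem_nhds
        (mem_ball_of_sphere hρ1 (sphere_subset_closedBall hζ)))).hasDerivAt
      exact (h1.hasFDerivAt.restrictScalars ℝ).differentiableAt.differentiableWithinAt
    · exact Measure.addHaar_sphere volume 0 ρ
  set S : Set ℂ := F '' ball 0 ρ with hS
  have hae : ∀ᵐ u : ℂ, (conj u)⁻¹ *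
        (∮ ζ in C(0, ρ), deriv F ζ / F ζ / (F ζ - u)) =
      -(2 * π * I) * ((Sᶜ.indicator (fun u => (‖u‖ ^ 2)⁻¹) u : ℝ) : ℂ) := by
    have h1 : ∀ᵐ u : ℂ, u ∉ F '' sphere 0 ρ := measure_eq_zero_iff_ae_notMem.mp hnull
    have h2 : ∀ᵐ u : ℂ, u ≠ 0 := by
      have : volume ({0} : Set ℂ) = 0 := measure_singleton 0
      filter_upwards [measure_eq_zero_iff_ae_notMem.mp this] with u hu
      simpa using hu
    filter_upwards [h1, h2] with u hu hu0
    rw [h.inner hρ hρ1 hu0 hu]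
    by_cases huS : u ∈ S
    · rw [indicator_of_notMem (by simpa using huS)]
      obtain ⟨b, hb, hbw⟩ := huS
      rw [← hbw, h.wind_in hρ hρ1 hb]
      simp
    · rw [indicator_of_mem (by simpa using huS)]
      rw [h.wind_out hρ hρ1]
      · have h7 : (((‖u‖ ^ 2)⁻¹ : ℝ) : ℂ) = u⁻¹ * (conj u)⁻¹ := by
          rw [← mul_inv, Complex.mul_conj, Complex.normSq_eq_norm_sq]
          push_cast
          rfl
        rw [h7]; ring
      · intro ζ hζ h'
        rcases lt_or_eq_of_le (show ‖ζ‖ ≤ ρ by simpa using hζ) with h8 | h8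
        · exact huS ⟨ζ, by simpa using h8, h'⟩
        · exact hu ⟨ζ, by simpa using h8, h'⟩
  rw [setIntegral_congr_ae measurableSet_ball (hae.mono fun u hu _ => hu), integral_const_mul,
    integral_complex_ofReal]
  have e9 : (π:ℂ)⁻¹ * (-(2 * π * I) * ((∫ u in ball (0:ℂ) M,
      Sᶜ.indicator (fun u => (‖u‖ ^ 2)⁻¹) u : ℝ) : ℂ)) = -(2 * I) * (lArea F ρ M : ℂ) := by
    unfold lArea
    rw [← hS]
    field_simp
  rw [e9]

end Pool.Agent.Helper84.EK

end

section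

namespace Pool.Agent.Helper39.Area
end Pool.Agent.Helper39.Area

set_option autoImplicit false

open Complex MeasureTheory Metric Set

open scoped Real ENNReal ComplexConjugate

namespace Pool.Agent.Helper84.EK

open Pool.Agent.Helper39.Area

variable {F : ℂ → ℂ} {ρ : ℝ}

theorem det_cmul (c : ℂ) : |(c • (1 : ℂ →L[ℝ] ℂ)).det| = ‖c‖ ^ 2 := by
  have h : (c • (1 : ℂ →L[ℝ] ℂ)).det = ‖c‖ ^ 2 := by
    have h1 : (((c • (1 : ℂ →L[ℝ] ℂ)) : ℂ →L[ℝ] ℂ) : ℂ →ₗ[ℝ] ℂ) =
        ((c • (LinearMap.id : ℂ →ₗ[ℂ] ℂ)).restrictScalars ℝ) := by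
      ext
      all_goals simp
    rw [ContinuousLinearMap.det, h1, LinearMap.det_restrictScalars]
    simp [Algebra.norm_complex_eq, Complex.normSq_eq_norm_sq]
  rw [h, abs_of_nonneg (by positivity)]

theorem uni_id : Uni (fun z => z) := ⟨differentiableOn_id, fun _ _ _ _ h => h, rfl⟩

theorem lArea_id {M : ℝ} (hM : 1 < M) : lArea (fun z => z) M⁻¹ M = 4 * π * Real.log M := by
  have hM0 : 0 < M := by (clear * - hM; linarith only [hM])
  have hρ : 0 < M⁻¹ := inv_pos.mpr hM0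
  have hρ1 : M⁻¹ < 1 := inv_lt_one_of_one_lt₀ hM
  have h := uni_id.log_area hρ hρ1 (M := M) (by
    intro ζ hζ
    rw [mem_sphere, dist_zero_right] at hζ
    rw [hζ]
    (clear * - hM hρ1; linarith only [hM, hρ1]))
  have h1 : (∮ ζ in C(0, M⁻¹), ((2 * Real.log ‖ζ‖ : ℝ) : ℂ) * (deriv (fun z : ℂ => z) ζ / ζ)) =
      ∮ ζ in C(0, M⁻¹), ((2 * Real.log M⁻¹ : ℝ) : ℂ) * (ζ - 0)⁻¹ := by
    apply circleIntegral.integral_congr hρ.le
    intro ζ hζ
    rw [mem_sphere, dist_zero_right] at hζ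
    simp only
    rw [hζ, show deriv (fun z : ℂ => z) ζ = 1 from deriv_id ζ, sub_zero, one_div]
  rw [h1, circleIntegral.integral_const_mul,
    circleIntegral.integral_sub_inv_of_mem_ball (mem_ball_self hρ), Real.log_inv] at h
  have h2 : (2 * I : ℂ) ≠ 0 := mul_ne_zero two_ne_zero I_ne_zero
  have h3 : ((lArea (fun z => z) M⁻¹ M : ℝ) : ℂ) = ((4 * π * Real.log M : ℝ) : ℂ) := by
    apply mul_left_cancel₀ h2
    push_cast at h ⊢
    linear_combination h
  exact_mod_cast h3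

theorem lArea_ge (h : Uni F) (hρ : 0 < ρ) (hρ1 : ρ < 1)
    (hne : ∀ z ∈ ball (0:ℂ) ρ, ∀ w ∈ ball (0:ℂ) ρ, F z * F w ≠ 1) {M : ℝ} (hM : 1 < M) :
    2 * π * Real.log M ≤ lArea F ρ M := by
  have hM0 : 0 < M := by (clear * - hM; linarith only [hM])
  have hMi : 0 < M⁻¹ := inv_pos.mpr hM0
  set f : ℂ → ℝ := fun u => (‖u‖ ^ 2)⁻¹ with hf
  set S : Set ℂ := F '' ball 0 ρ with hS
  have hSo : IsOpen S := h.image_open hρ1
  have hSm : MeasurableSet S := hSo.measurableSet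
  have h0S : (0:ℂ) ∈ S := ⟨0, mem_ball_self hρ, h.zero⟩
  obtain ⟨δ, hδ, hδS⟩ := Metric.isOpen_iff.mp hSo 0 h0S
  have hfm : Measurable f := by
    rw [hf]
    fun_prop
  have hf0 : ∀ u, 0 ≤ f u := fun u => by simp only [hf]; (clear * -; positivity)
  -- integrability away from 0
  have hint : ∀ T : Set ℂ, MeasurableSet T → T ⊆ ball 0 M → (∃ e : ℝ, 0 < e ∧ ∀ u ∈ T, e ≤ ‖u‖) →
      IntegrableOn f T := by
    rintro T hT hTM ⟨e, he, heT⟩
    have hfin : volume T ≠ ⊤ := ((measure_mono hTM).trans_lt measure_ball_lt_top).ne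
    have hfi : IsFiniteMeasure (volume.restrict T) := by
      refine ⟨?_⟩
      rw [Measure.restrict_apply_univ]
      exact hfin.lt_top
    apply Integrable.of_bound hfm.aestronglyMeasurable ((e ^ 2)⁻¹)
    rw [ae_restrict_iff' hT]
    refine Filter.Eventually.of_forall fun u hu => ?_
    rw [Real.norm_of_nonneg (hf0 u)]
    simp only [hf]
    have := heT u hu
    (clear * - he this; gcongr)
  set A : Set ℂ := ball 0 M \ closedBall 0 M⁻¹ with hA
  have hAm : MeasurableSet A := measurableSet_ball.diff measurableSet_closedBall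
  have hAi : IntegrableOn f A := hint A hAm sdiff_subset ⟨M⁻¹, hMi, fun u hu => by
    have := hu.2
    rw [mem_closedBall, dist_zero_right, not_le] at this
    exact this.le⟩
  have hBi : IntegrableOn f (ball 0 M \ S) :=
    hint _ (measurableSet_ball.diff hSm) sdiff_subset ⟨δ, hδ, fun u hu => by
      by_contra hlt
      push Not at hlt
      exact hu.2 (hδS (by rw [mem_ball, dist_zero_right]; exact hlt))⟩
  -- the two areas
  have e1 : lArea F ρ M = ∫ u in ball (0:ℂ) M \ S, f u := by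
    unfold lArea
    rw [← hS, setIntegral_indicator hSm.compl]
    rfl
  have e2 : (∫ u in A, f u) = 4 * π * Real.log M := by
    rw [← lArea_id hM]
    unfold lArea
    have e3 : (fun z : ℂ => z) '' ball 0 M⁻¹ = ball 0 M⁻¹ := by simp
    rw [e3, setIntegral_indicator measurableSet_ball.compl]
    apply setIntegral_congr_set
    have hs : volume (sphere (0:ℂ) M⁻¹) = 0 := Measure.addHaar_sphere volume 0 M⁻¹
    have h1 : ∀ᵐ u : ℂ, u ∉ sphere (0:ℂ) M⁻¹ := measure_eq_zero_iff_ae_notMem.mp hs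
    filter_upwards [h1] with u hu
    rw [mem_sphere, dist_zero_right] at hu
    apply propext
    change u ∈ A ↔ u ∈ ball (0:ℂ) M ∩ (ball 0 M⁻¹)ᶜ
    rw [hA, mem_sdiff, mem_inter_iff, mem_compl_iff, mem_closedBall, mem_ball (ε := M⁻¹),
      dist_zero_right]
    constructor
    · rintro ⟨h2, h3⟩
      exact ⟨h2, fun h4 => h3 h4.le⟩
    · rintro ⟨h2, h3⟩
      exact ⟨h2, fun h4 => h3 (lt_of_le_of_ne h4 hu)⟩
  -- the inversion
  have hinv : (∫ u in (fun u : ℂ => u⁻¹) '' (A ∩ S), f u) = ∫ u in A ∩ S, f u := by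
    have hne0 : ∀ u ∈ A ∩ S, u ≠ 0 := by
      rintro u ⟨hu, -⟩ rfl
      exact hu.2 (mem_closedBall_self hMi.le)
    rw [integral_image_eq_integral_abs_det_fderiv_smul volume (hAm.inter hSm)
      (f' := fun u => (-(u ^ 2)⁻¹) • (1 : ℂ →L[ℝ] ℂ))
      (fun u hu => (hasDerivAt_inv (hne0 u hu)).complexToReal_fderiv.hasFDerivWithinAt)
      (fun u _ v _ huv => inv_injective huv)]
    apply setIntegral_congr_fun (hAm.inter hSm)
    intro u hu
    have h1 : ‖u‖ ≠ 0 := norm_ne_zero_iff.mpr (hne0 u hu)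
    simp only [hf]
    rw [det_cmul, norm_neg, norm_inv, norm_pow, norm_inv, smul_eq_mul]
    field_simp
  have hsub : (fun u : ℂ => u⁻¹) '' (A ∩ S) ⊆ A \ S := by
    rintro _ ⟨u, ⟨huA, huS⟩, rfl⟩
    have hu0 : u ≠ 0 := by
      rintro rfl
      exact huA.2 (mem_closedBall_self hMi.le)
    have hupos : 0 < ‖u‖ := norm_pos_iff.mpr hu0
    have hu1 : ‖u‖ < M := by simpa using huA.1
    have hu2 : M⁻¹ < ‖u‖ := by
      have := huA.2
      rw [mem_closedBall, dist_zero_right, not_le] at this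
      exact this
    refine ⟨⟨?_, ?_⟩, ?_⟩
    · rw [mem_ball, dist_zero_right, norm_inv]
      exact inv_lt_of_inv_lt₀ hM0 hu2
    · rw [mem_closedBall, dist_zero_right, norm_inv, not_le]
      exact (inv_lt_inv₀ hM0 hupos).mpr hu1
    · rintro ⟨w, hw, hwu⟩
      obtain ⟨z, hz, hzu⟩ := huS
      apply hne z hz w hw
      rw [hzu, hwu]
      exact mul_inv_cancel₀ hu0
  have h1 : (∫ u in A ∩ S, f u) ≤ ∫ u in A \ S, f u := by
    rw [← hinv]
    exact setIntegral_mono_set (hAi.mono_set sdiff_subset)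
      (Filter.Eventually.of_forall fun u => hf0 u) (LE.le.eventuallyLE hsub)
  have h2 : (∫ u in A ∩ S, f u) + (∫ u in A \ S, f u) = ∫ u in A, f u :=
    integral_inter_add_sdiff hSm hAi
  have h3 : (∫ u in A \ S, f u) ≤ ∫ u in ball (0:ℂ) M \ S, f u :=
    setIntegral_mono_set hBi (Filter.Eventually.of_forall fun u => hf0 u)
      (LE.le.eventuallyLE (sdiff_subset_sdiff_left sdiff_subset))
  rw [e1]
  linarith only [e2, h1, h2, h3]

end Pool.Agent.Helper84.EK

end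

section

namespace Pool.Agent.Helper39.Area
end Pool.Agent.Helper39.Area

set_option autoImplicit false

open Complex MeasureTheory Metric Set Filter Topology

open scoped Real ENNReal ComplexConjugate

namespace Pool.Agent.Helper84.EK

open Pool.Agent.Helper39.Area

variable {F : ℂ → ℂ} {ρ : ℝ}

theorem be_radius (h : Uni F) {H : ℂ → ℂ} {c : ℂ} (hc : c ≠ 0)
    (hH : DifferentiableOn ℂ H (ball 0 1)) (hH0 : H 0 = 0)
    (hFH : ∀ z ∈ ball (0:ℂ) 1, F z = c * z * Complex.exp (H z)) (hρ : 0 < ρ) (hρ1 : ρ < 1)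
    (hne : ∀ z ∈ ball (0:ℂ) 1, ∀ w ∈ ball (0:ℂ) 1, F z * F w ≠ 1) (N : ℕ) :
    ∑ n ∈ Finset.range N, (n:ℝ) * ρ ^ (2 * n) * ‖iteratedDeriv n H 0 / n.factorial‖ ^ 2 ≤
      -2 * Real.log ‖c‖ - 2 * Real.log ρ := by
  obtain ⟨C, hC, hCe⟩ := Pool.Agent.Helper39.EK.dirichlet_sum hH hρ hρ1
  refine (hC N).trans ?_
  -- the radius
  obtain ⟨M, hM1, hM⟩ : ∃ M : ℝ, 1 < M ∧ ∀ ζ ∈ sphere (0:ℂ) ρ, ‖F ζ‖ < M := by
    obtain ⟨M, hM⟩ := (isCompact_sphere (0:ℂ) ρ).exists_bound_of_continuousOn (h.cont hρ1)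
    refine ⟨max M 1 + 1, ?_, fun ζ hζ => ?_⟩
    · (clear * -; linarith only [le_max_right M 1])
    · (clear * - hM hζ; linarith only [hM ζ hζ, le_max_left M 1])
  have hJ := h.log_area hρ hρ1 hM
  have hA := lArea_ge h hρ hρ1 (fun z hz w hw => hne z (mem_ball_of_sphere hρ1
    (ball_subset_closedBall hz)) w (mem_ball_of_sphere hρ1 (ball_subset_closedBall hw))) hM1
  have hcpos : 0 < ‖c‖ := norm_pos_iff.mpr hc
  have hHd : ContinuousOn (deriv H) (sphere 0 ρ) :=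
    (hH.deriv isOpen_ball).continuousOn.mono
      fun _ hζ => mem_ball_of_sphere hρ1 (sphere_subset_closedBall hζ)
  have hHc : ContinuousOn H (sphere 0 ρ) :=
    hH.continuousOn.mono fun _ hζ => mem_ball_of_sphere hρ1 (sphere_subset_closedBall hζ)
  set K : ℂ := ((2 * Real.log ‖c‖ + 2 * Real.log ρ : ℝ) : ℂ) with hK
  -- expansion of the contour integral
  have e1 : (∮ ζ in C(0, ρ), ((2 * Real.log ‖F ζ‖ : ℝ) : ℂ) * (deriv F ζ / F ζ)) =
      ∮ ζ in C(0, ρ), (K * (ζ - 0)⁻¹ + K * deriv H ζ + (ζ - 0)⁻¹ • H ζ +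
        H ζ * deriv H ζ + conj (H ζ) * ζ⁻¹ + conj (H ζ) * deriv H ζ) := by
    apply circleIntegral.integral_congr hρ.le
    intro ζ hζ
    have hζ1 := mem_ball_of_sphere hρ1 (sphere_subset_closedBall hζ)
    have hζ0 := sphere_ne hρ hζ
    have hζn : ‖ζ‖ = ρ := by simpa using hζ
    have hd : HasDerivAt F (c * 1 * Complex.exp (H ζ) + c * ζ * (Complex.exp (H ζ) * deriv H ζ))
        ζ := by
      have h1 := (((hasDerivAt_id ζ).const_mul c).mul
        ((hH.differentiableAt (isOpen_ball.mem_nhds hζ1)).hasDerivAt).cexp)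
      refine h1.congr_of_eventuallyEq ?_
      filter_upwards [isOpen_ball.mem_nhds hζ1] with w hw
      exact hFH w hw
    have hE := Complex.exp_ne_zero (H ζ)
    have h2 : deriv F ζ / F ζ = ζ⁻¹ + deriv H ζ := by
      rw [hd.deriv, hFH ζ hζ1]
      field_simp
    have h3 : ((2 * Real.log ‖F ζ‖ : ℝ) : ℂ) = K + H ζ + conj (H ζ) := by
      rw [hFH ζ hζ1, norm_mul, norm_mul, Complex.norm_exp, hζn,
        Real.log_mul (by positivity) (Real.exp_pos _).ne', Real.log_mul hcpos.ne' hρ.ne',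
        Real.log_exp, add_assoc K (H ζ), Complex.add_conj, hK]
      push_cast
      ring
    simp only
    rw [h2, h3, sub_zero, smul_eq_mul]
    ring
  have c1 : CircleIntegrable (fun ζ : ℂ => K * (ζ - 0)⁻¹) 0 ρ := by
    apply ContinuousOn.circleIntegrable hρ.le
    apply continuousOn_const.mul
    apply ContinuousOn.inv₀ (by fun_prop)
    intro ζ hζ
    rw [sub_zero]
    exact sphere_ne hρ hζ
  have c2 : CircleIntegrable (fun ζ : ℂ => K * deriv H ζ) 0 ρ :=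
    (continuousOn_const.mul hHd).circleIntegrable hρ.le
  have hinv : ContinuousOn (fun ζ : ℂ => ζ⁻¹) (sphere 0 ρ) :=
    ContinuousOn.inv₀ (by fun_prop) fun ζ hζ => sphere_ne hρ hζ
  have c3 : CircleIntegrable (fun ζ : ℂ => (ζ - 0)⁻¹ • H ζ) 0 ρ := by
    apply ContinuousOn.circleIntegrable hρ.le
    simp only [sub_zero, smul_eq_mul]
    exact hinv.mul hHc
  have c4 : CircleIntegrable (fun ζ : ℂ => H ζ * deriv H ζ) 0 ρ :=
    (hHc.mul hHd).circleIntegrable hρ.le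
  have hcc : ContinuousOn (fun ζ : ℂ => conj (H ζ)) (sphere 0 ρ) :=
    Complex.continuous_conj.comp_continuousOn hHc
  have c5 : CircleIntegrable (fun ζ : ℂ => conj (H ζ) * ζ⁻¹) 0 ρ :=
    (hcc.mul hinv).circleIntegrable hρ.le
  have c6 : CircleIntegrable (fun ζ : ℂ => conj (H ζ) * deriv H ζ) 0 ρ :=
    (hcc.mul hHd).circleIntegrable hρ.le
  have v3 : (∮ ζ in C(0, ρ), (ζ - 0)⁻¹ • H ζ) = 0 := by
    have h1 := (hH.mono (closedBall_subset_ball hρ1)).circleIntegral_sub_inv_smul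
      (mem_ball_self hρ)
    rw [h1, hH0, smul_zero]
  have v5 : (∮ ζ in C(0, ρ), conj (H ζ) * ζ⁻¹) = 0 := by
    have h1 : (∮ ζ in C(0, ρ), conj (H ζ) * ζ⁻¹) = -conj (∮ ζ in C(0, ρ), (ζ - 0)⁻¹ • H ζ) := by
      simp only [circleIntegral]
      rw [intervalIntegral.integral_of_le Real.two_pi_pos.le,
        intervalIntegral.integral_of_le Real.two_pi_pos.le, ← integral_conj, ← integral_neg]
      congr 1
      funext θ
      have h2 : circleMap 0 ρ θ ≠ 0 := circleMap_ne_center hρ.ne'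
      rw [deriv_circleMap]
      simp only [smul_eq_mul, map_mul, sub_zero, map_inv₀, Complex.conj_I]
      have h3 : conj (circleMap 0 ρ θ) ≠ 0 := (map_ne_zero _).mpr h2
      (clear * - h2 h3; field_simp)
    rw [h1, v3, map_zero, neg_zero]
  have v2 : (∮ ζ in C(0, ρ), K * deriv H ζ) = 0 := by
    apply circleIntegral.integral_eq_zero_of_hasDerivWithinAt hρ.le (f := fun ζ => K * H ζ)
    intro ζ hζ
    have hζ1 := mem_ball_of_sphere hρ1 (sphere_subset_closedBall hζ)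
    exact ((hH.differentiableAt (isOpen_ball.mem_nhds hζ1)).hasDerivAt.const_mul K).hasDerivWithinAt
  have v4 : (∮ ζ in C(0, ρ), H ζ * deriv H ζ) = 0 := by
    apply circleIntegral.integral_eq_zero_of_hasDerivWithinAt hρ.le (f := fun ζ => H ζ ^ 2 / 2)
    intro ζ hζ
    have hζ1 := mem_ball_of_sphere hρ1 (sphere_subset_closedBall hζ)
    have h1 := ((hH.differentiableAt (isOpen_ball.mem_nhds hζ1)).hasDerivAt.pow 2).div_const 2
    have h2 : ((2 : ℕ) : ℂ) * H ζ ^ (2 - 1) * deriv H ζ / 2 = H ζ * deriv H ζ := by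
      push_cast
      ring
    rw [h2] at h1
    exact h1.hasDerivWithinAt
  have c12 : CircleIntegrable (fun ζ : ℂ => K * (ζ - 0)⁻¹ + K * deriv H ζ) 0 ρ := c1.add c2
  have c13 : CircleIntegrable (fun ζ : ℂ => K * (ζ - 0)⁻¹ + K * deriv H ζ + (ζ - 0)⁻¹ • H ζ)
    0 ρ := c12.add c3
  have c14 : CircleIntegrable (fun ζ : ℂ => K * (ζ - 0)⁻¹ + K * deriv H ζ + (ζ - 0)⁻¹ • H ζ +
    H ζ * deriv H ζ) 0 ρ := c13.add c4
  have c15 : CircleIntegrable (fun ζ : ℂ => K * (ζ - 0)⁻¹ + K * deriv H ζ + (ζ - 0)⁻¹ • H ζ +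
    H ζ * deriv H ζ + conj (H ζ) * ζ⁻¹) 0 ρ := c14.add c5
  rw [e1, circleIntegral.integral_add c15 c6, circleIntegral.integral_add c14 c5,
    circleIntegral.integral_add c13 c4, circleIntegral.integral_add c12 c3,
    circleIntegral.integral_add c1 c2,
    v2, v3, v4, v5, hCe, circleIntegral.integral_const_mul,
    circleIntegral.integral_sub_inv_of_mem_ball (mem_ball_self hρ)] at hJ
  have h2 : (2 * I : ℂ) ≠ 0 := mul_ne_zero two_ne_zero I_ne_zero
  have h4 : ((π * (2 * Real.log ‖c‖ + 2 * Real.log ρ) + π * C : ℝ) : ℂ) =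
      ((-lArea F ρ M + 2 * π * Real.log M : ℝ) : ℂ) := by
    apply mul_left_cancel₀ h2
    rw [hK] at hJ
    push_cast at hJ ⊢
    linear_combination hJ
  have h5 : π * (2 * Real.log ‖c‖ + 2 * Real.log ρ) + π * C = -lArea F ρ M + 2 * π * Real.log M := by
    exact_mod_cast h4
  have hpi := Real.pi_pos
  have h6 : π * (2 * Real.log ‖c‖ + 2 * Real.log ρ + C) ≤ 0 := by
    rw [mul_add, h5]
    linarith only [hA]
  have h7 : 2 * Real.log ‖c‖ + 2 * Real.log ρ + C ≤ 0 := by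
    by_contra hcon
    push Not at hcon
    have := mul_pos hpi hcon
    linarith only [h6, this]
  linarith only [h7]

/-- **the logarithmic area theorem** for univalent functions `F = c z exp H` with
`F z * F w ≠ 1` -/
theorem be_sum (h : Uni F) {H : ℂ → ℂ} {c : ℂ} (hc : c ≠ 0)
    (hH : DifferentiableOn ℂ H (ball 0 1)) (hH0 : H 0 = 0)
    (hFH : ∀ z ∈ ball (0:ℂ) 1, F z = c * z * Complex.exp (H z))
    (hne : ∀ z ∈ ball (0:ℂ) 1, ∀ w ∈ ball (0:ℂ) 1, F z * F w ≠ 1) (N : ℕ) :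
    ∑ n ∈ Finset.range N, (n:ℝ) * ‖iteratedDeriv n H 0 / n.factorial‖ ^ 2 ≤
      -2 * Real.log ‖c‖ := by
  have h1 : Tendsto (fun ρ : ℝ => ∑ n ∈ Finset.range N,
      (n:ℝ) * ρ ^ (2 * n) * ‖iteratedDeriv n H 0 / n.factorial‖ ^ 2) (𝓝[<] 1)
      (𝓝 (∑ n ∈ Finset.range N,
        (n:ℝ) * 1 ^ (2 * n) * ‖iteratedDeriv n H 0 / n.factorial‖ ^ 2)) := by
    have : Continuous (fun ρ : ℝ => ∑ n ∈ Finset.range N,
      (n:ℝ) * ρ ^ (2 * n) * ‖iteratedDeriv n H 0 / n.factorial‖ ^ 2) := by fun_prop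
    exact this.continuousAt.tendsto.mono_left nhdsWithin_le_nhds
  have h2 : Tendsto (fun ρ : ℝ => -2 * Real.log ‖c‖ - 2 * Real.log ρ) (𝓝[<] 1)
      (𝓝 (-2 * Real.log ‖c‖ - 2 * Real.log 1)) := by
    apply Tendsto.mono_left _ nhdsWithin_le_nhds
    exact tendsto_const_nhds.sub ((Real.continuousAt_log one_ne_zero).tendsto.const_mul 2)
  have h3 := le_of_tendsto_of_tendsto h1 h2 (by
    filter_upwards [Ioo_mem_nhdsLT (show (0:ℝ) < 1 by norm_num)] with ρ hρ
    exact be_radius h hc hH hH0 hFH hρ.1 hρ.2 hne N)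
  simpa using h3

end Pool.Agent.Helper84.EK

end

section

namespace Pool.Agent.Helper39.Area
end Pool.Agent.Helper39.Area
namespace Pool.Agent.Helper22.Marshall
end Pool.Agent.Helper22.Marshall

set_option autoImplicit false

open Complex MeasureTheory Metric Set Filter Topology

open scoped Real ENNReal ComplexConjugate

namespace Pool.Agent.Helper84.EK

open Pool.Agent.Helper39.Area

open Pool.Agent.Helper22.Marshall (coeff coeff_zero coeff_one coeff_mul coeff_congr coeff_deriv)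

/-- the function of Bieberbach and Eilenberg attached to a univalent function `exp L` -/
theorem exists_be {L : ℂ → ℂ} (hL : DifferentiableOn ℂ L (ball 0 1)) (hL0 : L 0 = 0)
    (hinj : InjOn (fun z => Complex.exp (L z)) (ball 0 1)) :
    ∃ F H : ℂ → ℂ, Uni F ∧ DifferentiableOn ℂ H (ball 0 1) ∧ H 0 = 0 ∧ deriv F 0 ≠ 0 ∧
      (∀ z ∈ ball (0:ℂ) 1, F z = deriv F 0 * z * Complex.exp (H z)) ∧
      (∀ z ∈ ball (0:ℂ) 1, deriv F z = deriv L z / 4 * (1 - F z * F z)) ∧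
      ∀ N : ℕ, ∑ n ∈ Finset.range N, (n:ℝ) * ‖iteratedDeriv n H 0 / n.factorial‖ ^ 2 ≤
        -2 * Real.log ‖deriv F 0‖ := by
  have h0b : (0:ℂ) ∈ ball (0:ℂ) 1 := mem_ball_self one_pos
  have hb0 : ball (0:ℂ) 1 ∈ 𝓝 (0:ℂ) := ball_mem_nhds 0 one_pos
  set k : ℂ → ℂ := fun z => Complex.exp (L z / 2) with hk
  have hkk : ∀ z, k z * k z = Complex.exp (L z) := by
    intro z
    simp only [hk]
    rw [← Complex.exp_add]
    congr 1
    ring
  have hk0 : k 0 = 1 := by simp [hk, hL0]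
  have hkne : ∀ z, k z ≠ 0 := fun z => Complex.exp_ne_zero _
  have hsum : ∀ z ∈ ball (0:ℂ) 1, ∀ w ∈ ball (0:ℂ) 1, k z + k w ≠ 0 := by
    intro z hz w hw h
    have h1 : k z = -k w := by linear_combination h
    have h2 : Complex.exp (L z) = Complex.exp (L w) := by
      rw [← hkk, ← hkk, h1]
      ring
    have h3 : z = w := hinj hz hw h2
    subst h3
    have h4 : 2 * k z = 0 := by linear_combination h
    rcases mul_eq_zero.mp h4 with h5 | h5
    · norm_num at h5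
    · exact hkne z h5
  have hk1 : ∀ z ∈ ball (0:ℂ) 1, k z + 1 ≠ 0 := by
    intro z hz
    have := hsum z hz 0 h0b
    rwa [hk0] at this
  have hkd : DifferentiableOn ℂ k (ball 0 1) := (hL.div_const 2).cexp
  set F : ℂ → ℂ := fun z => (k z - 1) / (k z + 1) with hF
  have hFd : DifferentiableOn ℂ F (ball 0 1) := (hkd.sub_const 1).div (hkd.add_const 1) hk1
  have hFi : InjOn F (ball 0 1) := by
    intro z hz w hw h
    simp only [hF] at h
    rw [div_eq_div_iff (hk1 z hz) (hk1 w hw)] at h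
    have h1 : k z = k w := by linear_combination h / 2
    apply hinj hz hw
    simp only
    rw [← hkk, ← hkk, h1]
  have hF0 : F 0 = 0 := by simp [hF, hk0]
  have hU : Uni F := ⟨hFd, hFi, hF0⟩
  have hne : ∀ z ∈ ball (0:ℂ) 1, ∀ w ∈ ball (0:ℂ) 1, F z * F w ≠ 1 := by
    intro z hz w hw h
    simp only [hF] at h
    rw [div_mul_div_comm, div_eq_one_iff_eq (mul_ne_zero (hk1 z hz) (hk1 w hw))] at h
    apply hsum z hz w hw
    linear_combination -h / 2
  have hdF : ∀ z ∈ ball (0:ℂ) 1, deriv F z = deriv L z / 4 * (1 - F z * F z) := by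
    intro z hz
    have h1 : HasDerivAt L (deriv L z) z :=
      (hL.differentiableAt (isOpen_ball.mem_nhds hz)).hasDerivAt
    have h2 : HasDerivAt k (k z * (deriv L z / 2)) z := (h1.div_const 2).cexp
    have h3 := (h2.sub_const 1).div (h2.add_const 1) (hk1 z hz)
    have h4 : deriv F z = (k z * (deriv L z / 2) * (k z + 1) -
        (k z - 1) * (k z * (deriv L z / 2))) / (k z + 1) ^ 2 := h3.deriv
    rw [h4]
    have h5 := hk1 z hz
    simp only [hF]
    field_simp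
    ring
  -- the factorisation
  set G : ℂ → ℂ := dslope F 0 with hG
  have hGd : DifferentiableOn ℂ G (ball 0 1) := (Complex.differentiableOn_dslope hb0).mpr hFd
  have hG0 : G 0 = deriv F 0 := dslope_same F 0
  have hGne : ∀ z ∈ ball (0:ℂ) 1, G z ≠ 0 := fun z hz => hU.dslope_ne h0b hz
  have hc : deriv F 0 ≠ 0 := by rw [← hG0]; exact hGne 0 h0b
  have hGf : ∀ z : ℂ, F z = z * G z := by
    intro z
    have := sub_smul_dslope F 0 z
    rw [smul_eq_mul, sub_zero, hF0, sub_zero] at this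
    exact this.symm
  obtain ⟨H, hHd, hH0, hHe⟩ := Pool.Agent.Helper24.Br.exists_log_ball
    (q := fun z => G z / deriv F 0) (hGd.div_const _) (fun z hz => div_ne_zero (hGne z hz) hc)
    (by rw [hG0, div_self hc])
  have hFH : ∀ z ∈ ball (0:ℂ) 1, F z = deriv F 0 * z * Complex.exp (H z) := by
    intro z hz
    rw [hHe z hz, hGf z]
    (clear * - hc; field_simp)
  exact ⟨F, H, hU, hHd, hH0, hc, hFH, hdF, be_sum hU hc hHd hH0 hFH hne⟩

/-- **the area theorem of Bieberbach-Eilenberg functions**, two coefficients -/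
theorem be_two {L : ℂ → ℂ} (hL : DifferentiableOn ℂ L (ball 0 1)) (hL0 : L 0 = 0)
    (hinj : InjOn (fun z => Complex.exp (L z)) (ball 0 1)) {l1 l2 l3 : ℂ} (h1 : coeff L 1 = l1)
    (h2 : coeff L 2 = l2) (h3 : coeff L 3 = l3) :
    l1 ≠ 0 ∧ ‖l2 / l1‖ ^ 2 + 2 * ‖l3 / l1 - (l2 / l1) ^ 2 / 2 - l1 ^ 2 / 48‖ ^ 2 ≤
      -2 * Real.log (‖l1‖ / 4) := by
  have h0b : (0:ℂ) ∈ ball (0:ℂ) 1 := mem_ball_self one_pos
  have hb0 : ball (0:ℂ) 1 ∈ 𝓝 (0:ℂ) := ball_mem_nhds 0 one_pos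
  obtain ⟨F, H, hU, hH, hH0, hc, hFH, hdF, hsum⟩ := exists_be hL hL0 hinj
  have hLa : AnalyticAt ℂ L 0 := hL.analyticAt hb0
  have hFa : AnalyticAt ℂ F 0 := hU.diff.analyticAt hb0
  have hHa : AnalyticAt ℂ H 0 := hH.analyticAt hb0
  set c := deriv F 0 with hcdef
  set G : ℂ → ℂ := fun z => c * Complex.exp (H z) with hG
  have hGd : DifferentiableOn ℂ G (ball 0 1) := (hH.cexp).const_mul c
  have hGa : AnalyticAt ℂ G 0 := hGd.analyticAt hb0
  -- F = z G
  have hxa : AnalyticAt ℂ (fun z : ℂ => z) 0 := analyticAt_id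
  have x0 : coeff (fun z : ℂ => z) 0 = 0 := by rw [coeff_zero]
  have x1 : coeff (fun z : ℂ => z) 1 = 1 := by rw [coeff_one]; simp
  have hFG : F =ᶠ[𝓝 0] fun z => z * G z := by
    filter_upwards [hb0] with z hz
    rw [hFH z hz]
    simp only [hG]
    ring
  have hdx : deriv (fun z : ℂ => z) = fun _ => (1:ℂ) := by
    funext z
    exact deriv_id z
  have x2 : ∀ n, coeff (fun z : ℂ => z) (n + 2) = 0 := by
    intro n
    have e := coeff_deriv (fun z : ℂ => z) (n + 1)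
    rw [hdx] at e
    have e2 : coeff (fun _ : ℂ => (1:ℂ)) (n + 1) = 0 := by
      have e3 := coeff_deriv (fun _ : ℂ => (1:ℂ)) n
      have e4 : deriv (fun _ : ℂ => (1:ℂ)) = fun _ => (0:ℂ) := by
        funext z
        simp
      rw [e4] at e3
      have e5 : coeff (fun _ : ℂ => (0:ℂ)) n = 0 := by
        have e6 := Pool.Agent.Helper22.Marshall.coeff_const_mul 0 (fun _ : ℂ => (0:ℂ)) n
        simpa using e6
      rw [e5] at e3
      have e7 : ((n : ℂ) + 1) ≠ 0 := by exact_mod_cast Nat.succ_ne_zero n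
      exact (mul_eq_zero.mp e3.symm).resolve_left e7
    rw [e2] at e
    have e7 : (((n + 1 : ℕ) : ℂ) + 1) ≠ 0 := by exact_mod_cast Nat.succ_ne_zero (n + 1)
    exact (mul_eq_zero.mp e.symm).resolve_left e7
  have f0 : coeff F 0 = 0 := by rw [coeff_zero, hU.zero]
  have f1 : coeff F 1 = coeff G 0 := by
    rw [coeff_congr hFG, coeff_mul hxa hGa]
    simp [Finset.sum_range_succ, x0, x1]
  have f2 : coeff F 2 = coeff G 1 := by
    rw [coeff_congr hFG, coeff_mul hxa hGa]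
    have := x2 0
    simp only [zero_add] at this
    simp [Finset.sum_range_succ, x0, x1, this]
  have f3 : coeff F 3 = coeff G 2 := by
    rw [coeff_congr hFG, coeff_mul hxa hGa]
    have e0 := x2 0
    have e1 := x2 1
    simp only [zero_add, Nat.reduceAdd] at e0 e1
    simp [Finset.sum_range_succ, x0, x1, e0, e1]
  -- G' = G H'
  have hGH : deriv G =ᶠ[𝓝 0] fun z => G z * deriv H z := by
    filter_upwards [hb0] with z hz
    have e1 := ((hH.differentiableAt (isOpen_ball.mem_nhds hz)).hasDerivAt).cexp.const_mul c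
    have e2 : deriv G z = c * (Complex.exp (H z) * deriv H z) := e1.deriv
    rw [e2]
    simp only [hG]
    ring
  have g0 : coeff G 0 = c := by
    rw [coeff_zero]
    simp [hG, hH0]
  have hdH : AnalyticAt ℂ (deriv H) 0 := hHa.deriv
  have g1 : coeff G 1 = c * coeff H 1 := by
    have e1 := coeff_congr hGH 0
    rw [coeff_mul hGa hdH, coeff_deriv] at e1
    simp only [Finset.sum_range_succ, Finset.sum_range_zero, zero_add, Nat.sub_self, coeff_deriv,
      g0] at e1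
    push_cast at e1
    linear_combination e1
  have g2 : 2 * coeff G 2 = 2 * c * coeff H 2 + coeff G 1 * coeff H 1 := by
    have e1 := coeff_congr hGH 1
    rw [coeff_mul hGa hdH, coeff_deriv] at e1
    simp only [Finset.sum_range_succ, Finset.sum_range_zero, zero_add, Nat.sub_self, Nat.sub_zero,
      coeff_deriv, g0] at e1
    push_cast at e1
    linear_combination e1
  -- F' = L'/4 (1 - F^2)
  have hFL : deriv F =ᶠ[𝓝 0] fun z => (deriv L z * 4⁻¹) * (1 - F z * F z) := by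
    filter_upwards [hb0] with z hz
    rw [hdF z hz]
    ring
  have hdL : AnalyticAt ℂ (deriv L) 0 := hLa.deriv
  have hdL4 : AnalyticAt ℂ (fun z => deriv L z * 4⁻¹) 0 := hdL.mul analyticAt_const
  have hFF : AnalyticAt ℂ (fun z => F z * F z) 0 := hFa.mul hFa
  have h1FF : AnalyticAt ℂ (fun z => 1 - F z * F z) 0 := analyticAt_const.sub hFF
  have cL : ∀ n : ℕ, coeff (fun z => deriv L z * 4⁻¹) n = ((n:ℂ) + 1) * coeff L (n + 1) / 4 := by
    intro n
    have e1 : (fun z => deriv L z * 4⁻¹) = fun z => (4:ℂ)⁻¹ * deriv L z := by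
      funext z
      ring
    rw [e1, Pool.Agent.Helper22.Marshall.coeff_const_mul, coeff_deriv]
    ring
  -- the coefficients of 1 - F^2
  have q0 : coeff (fun z => 1 - F z * F z) 0 = 1 := by
    rw [coeff_zero]
    simp [hU.zero]
  have hQd : deriv (fun z => 1 - F z * F z) =ᶠ[𝓝 0] fun z => (-2) * (F z * deriv F z) := by
    filter_upwards [hb0] with z hz
    have e1 := (hU.diff.differentiableAt (isOpen_ball.mem_nhds hz)).hasDerivAt
    have e2 := (e1.mul e1).const_sub 1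
    have e3 : deriv (fun z => 1 - F z * F z) z = -(deriv F z * F z + F z * deriv F z) := e2.deriv
    rw [e3]
    ring
  have hdFa : AnalyticAt ℂ (deriv F) 0 := hFa.deriv
  have cQ : ∀ n : ℕ, ((n:ℂ) + 1) * coeff (fun z => 1 - F z * F z) (n + 1) =
      -2 * ∑ i ∈ Finset.range (n + 1), coeff F i * coeff (deriv F) (n - i) := by
    intro n
    rw [← coeff_deriv, coeff_congr hQd, Pool.Agent.Helper22.Marshall.coeff_const_mul,
      coeff_mul hFa hdFa]
  have q1 : coeff (fun z => 1 - F z * F z) 1 = 0 := by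
    have e1 := cQ 0
    simp only [Finset.sum_range_succ, Finset.sum_range_zero, f0] at e1
    push_cast at e1
    linear_combination e1
  have q2 : coeff (fun z => 1 - F z * F z) 2 = -(coeff F 1) ^ 2 := by
    have e1 := cQ 1
    simp only [Finset.sum_range_succ, Finset.sum_range_zero, f0, Nat.sub_self, coeff_deriv] at e1
    push_cast at e1
    linear_combination e1 / 2
  have r0 : coeff F 1 = l1 / 4 := by
    have e1 := coeff_congr hFL 0
    rw [coeff_mul hdL4 h1FF, coeff_deriv] at e1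
    simp only [Finset.sum_range_succ, Finset.sum_range_zero, Nat.sub_self, cL, q0] at e1
    push_cast at e1
    rw [← h1]
    linear_combination e1
  have r1 : 2 * coeff F 2 = l2 / 2 := by
    have e1 := coeff_congr hFL 1
    rw [coeff_mul hdL4 h1FF, coeff_deriv] at e1
    simp only [Finset.sum_range_succ, Finset.sum_range_zero, Nat.sub_self, Nat.sub_zero, cL, q0,
      q1] at e1
    push_cast at e1
    rw [← h2]
    linear_combination e1
  have r2 : 3 * coeff F 3 = 3 * l3 / 4 - l1 / 4 * (coeff F 1) ^ 2 := by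
    have e1 := coeff_congr hFL 2
    rw [coeff_mul hdL4 h1FF, coeff_deriv] at e1
    simp only [Finset.sum_range_succ, Finset.sum_range_zero, Nat.sub_self, Nat.sub_zero, cL, q0,
      q1, q2, show (2 - 1 : ℕ) = 1 from rfl] at e1
    push_cast at e1
    rw [← h3, ← h1]
    linear_combination e1
  have hc1 : c = l1 / 4 := by rw [← r0, f1, g0]
  have hl1 : l1 ≠ 0 := by
    intro h
    apply hc
    rw [hc1, h, zero_div]
  refine ⟨hl1, ?_⟩
  have hH1 : coeff H 1 = l2 / l1 := by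
    have e1 : c * coeff H 1 = l2 / 4 := by
      rw [← g1, ← f2]
      linear_combination r1 / 2
    rw [hc1] at e1
    field_simp at e1 ⊢
    linear_combination e1
  have hH2 : coeff H 2 = l3 / l1 - (l2 / l1) ^ 2 / 2 - l1 ^ 2 / 48 := by
    have e1 : coeff G 2 = l3 / 4 - l1 ^ 3 / 192 := by
      rw [← f3]
      have e3 : (coeff F 1) ^ 2 = (l1 / 4) ^ 2 := by rw [r0]
      linear_combination r2 / 3 - l1 / 12 * e3
    rw [e1, g1, hH1, hc1] at g2
    have e4 : l1 / 2 ≠ 0 := div_ne_zero hl1 two_ne_zero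
    apply mul_left_cancel₀ e4
    have e5 : l1 / 2 * (l3 / l1 - (l2 / l1) ^ 2 / 2 - l1 ^ 2 / 48) =
        l3 / 2 - l1 / 4 * (l2 / l1) ^ 2 - l1 ^ 3 / 96 := by
      field_simp
      ring
    rw [e5]
    linear_combination -g2
  have hs := hsum 3
  simp only [Finset.sum_range_succ, Finset.sum_range_zero, Nat.cast_zero, zero_mul, zero_add,
    Nat.cast_one, one_mul] at hs
  have e1 : iteratedDeriv 1 H 0 / (Nat.factorial 1 : ℂ) = l2 / l1 := by
    rw [← hH1, Pool.Agent.Helper22.Marshall.coeff, div_eq_inv_mul]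
  have e2 : iteratedDeriv 2 H 0 / (Nat.factorial 2 : ℂ) =
      l3 / l1 - (l2 / l1) ^ 2 / 2 - l1 ^ 2 / 48 := by
    rw [← hH2, Pool.Agent.Helper22.Marshall.coeff, div_eq_inv_mul]
  have h4 : ‖l1 / 4‖ = ‖l1‖ / 4 := by rw [norm_div]; simp
  rw [e1, e2, hc1, h4] at hs
  simpa using hs

end Pool.Agent.Helper84.EK

end

section

namespace Pool.Agent.Helper39.Area
end Pool.Agent.Helper39.Area
namespace Pool.Agent.Helper52.EK
end Pool.Agent.Helper52.EK
namespace Pool.Agent.Helper22.Marshall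
end Pool.Agent.Helper22.Marshall

set_option autoImplicit false

open Complex Metric Set Filter Topology

open scoped Real

namespace Pool.Agent.Helper84.EK

open Pool.Agent.Helper39.Area Pool.Agent.Helper52.EK

open Pool.Agent.Helper22.Marshall (coeff coeff_zero coeff_one coeff_deriv)

/-- the automorphism of the disc with `0 ↦ z₀` -/
noncomputable def mob (z₀ : ℝ) (u : ℂ) : ℂ := (u + z₀) / (1 + z₀ * u)

section

variable {a z₀ r : ℝ} {u v : ℂ}

theorem mob_den (hz₀ : 0 < z₀) (hz1 : z₀ < 1) (hr1 : r ≤ z₀) (hu : u ∈ ball (0:ℂ) r) :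
    (1 + (z₀ : ℂ) * u) ≠ 0 := by
  intro h0
  rw [mem_ball_zero_iff] at hu
  have h1 : (z₀ : ℂ) * u = -1 := by linear_combination h0
  have h2 : z₀ * ‖u‖ = 1 := by
    have := congrArg (fun w : ℂ => ‖w‖) h1
    simpa [Complex.norm_real, abs_of_pos hz₀] using this
  nlinarith [norm_nonneg u]

theorem mob_mem (hz₀ : 0 < z₀) (hz1 : z₀ < 1) (hr1 : r ≤ z₀) (hu : u ∈ ball (0:ℂ) r) :
    mob z₀ u ∈ ball (0:ℂ) 1 := by
  have h1 := mob_den hz₀ hz1 hr1 hu
  rw [mem_ball_zero_iff] at hu ⊢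
  unfold mob
  rw [norm_div, div_lt_one (norm_pos_iff.mpr h1)]
  have h2 : ‖u + z₀‖ ^ 2 < ‖1 + (z₀ : ℂ) * u‖ ^ 2 := by
    have h3 : ‖u‖ ^ 2 = u.re ^ 2 + u.im ^ 2 := by
      rw [← Complex.normSq_eq_norm_sq, Complex.normSq_apply]
      ring
    have h4 : ‖u‖ ^ 2 < 1 := by (clear * - hz1 hr1 hu; nlinarith only [norm_nonneg u, hz1, hr1, hu])
    rw [← Complex.normSq_eq_norm_sq, ← Complex.normSq_eq_norm_sq, Complex.normSq_apply,
      Complex.normSq_apply]
    simp only [Complex.add_re, Complex.add_im, Complex.ofReal_re, Complex.ofReal_im,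
      Complex.one_re, Complex.one_im, Complex.mul_re, Complex.mul_im, add_zero, zero_add,
      zero_mul, sub_zero]
    have h5 : 0 < (1 - (u.re ^ 2 + u.im ^ 2)) * (1 - z₀ ^ 2) := by
      apply mul_pos
      · rw [← h3]; (clear * - h4; linarith)
      · (clear * - hz1 hz₀; nlinarith only [hz₀, hz1])
    (clear * - h5; linarith only [h5])
  exact lt_of_pow_lt_pow_left₀ 2 (norm_nonneg _) h2

theorem mob_ne_zero (hz₀ : 0 < z₀) (hz1 : z₀ < 1) (hr1 : r ≤ z₀) (hu : u ∈ ball (0:ℂ) r) :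
    mob z₀ u ≠ 0 := by
  intro h0
  have h1 := mob_den hz₀ hz1 hr1 hu
  unfold mob at h0
  rw [div_eq_zero_iff] at h0
  rcases h0 with h0 | h0
  · have h2 : u = -(z₀ : ℂ) := by linear_combination h0
    rw [mem_ball_zero_iff, h2, norm_neg, Complex.norm_real, Real.norm_of_nonneg hz₀.le] at hu
    (clear * - hr1 hu; linarith)
  · exact h1 h0

theorem mob_ne_a (ha1 : a < 1) (hz₀ : 0 < z₀) (hza : z₀ < a) (hr1 : r ≤ z₀)
    (hr2 : r * (1 - a * z₀) ≤ a - z₀) (hu : u ∈ ball (0:ℂ) r) : mob z₀ u ≠ a := by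
  intro h0
  have hz1 : z₀ < 1 := hza.trans ha1
  have haz : 0 < 1 - a * z₀ := by nlinarith only [ha1, hz₀, hza]
  have h1 := mob_den hz₀ hz1 hr1 hu
  unfold mob at h0
  rw [div_eq_iff h1] at h0
  have h2 : u * ((1 - a * z₀ : ℝ) : ℂ) = ((a - z₀ : ℝ) : ℂ) := by
    push_cast
    linear_combination h0
  have h3 := congrArg (fun w : ℂ => ‖w‖) h2
  simp only [norm_mul, Complex.norm_real] at h3
  rw [Real.norm_of_nonneg haz.le, Real.norm_of_nonneg (by (clear * - hza; linarith))] at h3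
  rw [mem_ball_zero_iff] at hu
  (clear * - hr2 h3 hu haz; nlinarith only [hr2, hu, haz, h3])

theorem mob_inj (hz₀ : 0 < z₀) (hz1 : z₀ < 1) (hr1 : r ≤ z₀) (hu : u ∈ ball (0:ℂ) r)
    (hv : v ∈ ball (0:ℂ) r) (h0 : mob z₀ u = mob z₀ v) : u = v := by
  unfold mob at h0
  rw [div_eq_div_iff (mob_den hz₀ hz1 hr1 hu) (mob_den hz₀ hz1 hr1 hv)] at h0
  have h1 : (u - v) * ((1 - z₀ ^ 2 : ℝ) : ℂ) = 0 := by
    push_cast
    linear_combination h0
  have h2 : ((1 - z₀ ^ 2 : ℝ) : ℂ) ≠ 0 := by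
    have : (1 - z₀ ^ 2 : ℝ) ≠ 0 := by nlinarith only [hz₀, hz1]
    exact_mod_cast this
  exact sub_eq_zero.mp ((mul_eq_zero.mp h1).resolve_right h2)

theorem mob_deriv (hu : (1 + (z₀ : ℂ) * u) ≠ 0) :
    HasDerivAt (mob z₀) ((1 - (z₀ : ℂ) ^ 2) / (1 + z₀ * u) ^ 2) u := by
  have h1 : HasDerivAt (fun u : ℂ => u + (z₀ : ℂ)) 1 u := (hasDerivAt_id _).add_const _
  have h2 : HasDerivAt (fun u : ℂ => 1 + (z₀ : ℂ) * u) (z₀ : ℂ) u := by
    simpa using ((hasDerivAt_id u).const_mul (z₀ : ℂ)).const_add 1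
  have h3 := h1.div h2 hu
  have e : (1 - (z₀ : ℂ) ^ 2) / (1 + z₀ * u) ^ 2 =
      (1 * (1 + (z₀ : ℂ) * u) - (u + (z₀ : ℂ)) * z₀) / (1 + (z₀ : ℂ) * u) ^ 2 := by
    congr 1
    ring
  rw [e]
  exact h3

end

/-- the path in the strip -/
noncomputable def om (ξ : ℝ) (u : ℂ) : ℂ := pt ξ (π / 2) + Complex.log ((1 - u) / (1 + u))

theorem one_add_neC {u : ℂ} (hu : ‖u‖ < 1) : 1 + u ≠ 0 := by
  intro h
  have h1 : u = -1 := by linear_combination h
  rw [h1, norm_neg, norm_one] at hu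
  exact lt_irrefl _ hu

theorem one_sub_neC {u : ℂ} (hu : ‖u‖ < 1) : 1 - u ≠ 0 := by
  intro h
  have h1 : u = 1 := by linear_combination -h
  rw [h1, norm_one] at hu
  exact lt_irrefl _ hu

theorem quot_re {u : ℂ} (hu : ‖u‖ < 1) : 0 < ((1 - u) / (1 + u)).re := by
  have h1 := one_add_neC hu
  have h2 : 0 < Complex.normSq (1 + u) := Complex.normSq_pos.mpr h1
  have h3 : u.re ^ 2 + u.im ^ 2 < 1 := by
    have h4 : ‖u‖ ^ 2 = u.re ^ 2 + u.im ^ 2 := by
      rw [← Complex.normSq_eq_norm_sq, Complex.normSq_apply]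
      ring
    rw [← h4]
    (clear * - hu; nlinarith only [norm_nonneg u, hu])
  rw [Complex.div_re, ← add_div]
  apply div_pos _ h2
  simp only [Complex.sub_re, Complex.sub_im, Complex.add_re, Complex.add_im, Complex.one_re,
    Complex.one_im, zero_sub, zero_add]
  (clear * - h3; linarith only [h3])

theorem om_deriv (ξ : ℝ) {u : ℂ} (hu : ‖u‖ < 1) : HasDerivAt (om ξ) (-2 / (1 - u ^ 2)) u := by
  have h1 := one_add_neC hu
  have h2 := one_sub_neC hu
  have h3 : HasDerivAt (fun u : ℂ => (1 - u) / (1 + u))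
      ((-1 * (1 + u) - (1 - u) * 1) / (1 + u) ^ 2) u :=
    ((hasDerivAt_id u).const_sub 1).div ((hasDerivAt_id u).const_add 1) h1
  have h4 := (h3.clog (Or.inl (quot_re hu))).const_add (pt ξ (π / 2))
  have e : (-1 * (1 + u) - (1 - u) * 1) / (1 + u) ^ 2 / ((1 - u) / (1 + u)) =
      -2 / (1 - u ^ 2) := by
    have h5 : 1 - u ^ 2 = (1 - u) * (1 + u) := by ring
    rw [h5]
    field_simp
    ring
  rw [e] at h4
  exact h4

theorem om_exp (ξ : ℝ) {u : ℂ} (hu : ‖u‖ < 1) :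
    Complex.exp (om ξ u) = (Real.exp ξ : ℂ) * I * ((1 - u) / (1 + u)) := by
  unfold om
  rw [Complex.exp_add, Complex.exp_log, exp_pt_half]
  exact div_ne_zero (one_sub_neC hu) (one_add_neC hu)

theorem om_zero (ξ : ℝ) : om ξ 0 = pt ξ (π / 2) := by simp [om]

/-- `zf (om u) = mob u` and the chain rule -/
theorem om_zf {ξ z₀ r : ℝ} (hz : z₀ = (1 - Real.exp ξ) / (1 + Real.exp ξ)) (hz₀ : 0 < z₀)
    (hz1 : z₀ < 1) (hr1 : r ≤ z₀) {u : ℂ} (hu : u ∈ ball (0:ℂ) r) :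
    zf (om ξ u) = mob z₀ u ∧
      zd (om ξ u) * (-2 / (1 - u ^ 2)) = (1 - (z₀ : ℂ) ^ 2) / (1 + z₀ * u) ^ 2 := by
  have hu1 : ‖u‖ < 1 := by
    rw [mem_ball_zero_iff] at hu
    linarith only [hz1, hr1, hu]
  have hy := Real.exp_pos ξ
  have hE := om_exp ξ hu1
  have h1 := one_add_neC hu1
  have h2 := one_sub_neC hu1
  have h3 := mob_den hz₀ hz1 hr1 hu
  set y := Real.exp ξ with hydef
  have hy1 : (1 + (y : ℂ)) ≠ 0 := by
    have : (1 + y : ℝ) ≠ 0 := by positivity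
    exact_mod_cast this
  have hzc : (z₀ : ℂ) = (1 - y) / (1 + y) := by rw [hz]; push_cast; ring
  have h4 : (1 + (z₀ : ℂ) * u) * (1 + y) = 1 + u + y * (1 - u) := by
    rw [hzc]
    field_simp
    ring
  have h5 : 1 + u + (y : ℂ) * (1 - u) ≠ 0 := by
    rw [← h4]
    exact mul_ne_zero h3 hy1
  have h6 : (u + (z₀ : ℂ)) * (1 + y) = 1 + u - y * (1 - u) := by
    rw [hzc]
    field_simp
    ring
  have hI := I_ne_zero
  constructor
  · unfold zf mob
    rw [hE]
    have e1 : I - (y : ℂ) * I * ((1 - u) / (1 + u)) = I * (1 + u - y * (1 - u)) / (1 + u) := by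
      (clear * - h1 hI; field_simp)
    have e2 : I + (y : ℂ) * I * ((1 - u) / (1 + u)) = I * (1 + u + y * (1 - u)) / (1 + u) := by
      field_simp
    rw [e1, e2, ← h4, ← h6]
    (clear * - hI hy1 h1; field_simp)
  · unfold zd
    rw [hE]
    have e2 : (y : ℂ) * I * ((1 - u) / (1 + u)) + I = I * ((1 + (z₀ : ℂ) * u) * (1 + y)) /
        (1 + u) := by
      rw [h4]
      field_simp
      ring
    have e3 : 1 - (z₀ : ℂ) ^ 2 = 4 * y / (1 + y) ^ 2 := by
      rw [hzc]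
      field_simp
      ring
    have e4 : 1 - u ^ 2 = (1 - u) * (1 + u) := by ring
    rw [e2, e3, e4]
    field_simp
    ring_nf

/-- **the area inequality on the centre line** -/
theorem centre_be {β : ℂ → ℂ} {R : ℝ} (h : ExtR β R) {a : ℝ} (ha : 0 < a) (ha1 : a < 1) {ξ : ℝ}
    (h1 : Real.log (tau a) < ξ) (h2 : ξ < 0) {r : ℝ}
    (hr : r = (max ((1 + Real.exp ξ) / (1 - Real.exp ξ))
      ((Real.exp ξ + tau a) / (Real.exp ξ - tau a)))⁻¹) {X X1 X2 : ℂ}
    (hX : X = Xf β a (pt ξ (π / 2))) (hX1 : X1 = deriv (Xf β a) (pt ξ (π / 2)))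
    (hX2 : X2 = deriv (deriv (Xf β a)) (pt ξ (π / 2))) :
    X ≠ 0 ∧ 0 < r ∧ r < 1 ∧ r ^ 2 * ‖X1 / X‖ ^ 2 +
      2 * r ^ 4 * ‖(1 - X ^ 2 + 2 * (X2 / X) - 3 / 2 * (X1 / X) ^ 2) / 3‖ ^ 2 ≤
      -2 * Real.log (r * ‖X‖) := by
  have hτ : 0 < tau a := by
    unfold tau
    have : 0 < 1 - a := by linarith only [ha1]
    (clear * - ha1 ha; positivity)
  have hy0 : 0 < Real.exp ξ := Real.exp_pos ξ
  have hy1 : Real.exp ξ < 1 := by
    rw [← Real.exp_zero]
    exact Real.exp_lt_exp.mpr h2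
  have hyτ : tau a < Real.exp ξ := (Real.log_lt_iff_lt_exp hτ).mp h1
  have hE := h.toExt
  have hat : a = (1 - tau a) / (1 + tau a) := by
    unfold tau
    field_simp
    ring
  obtain ⟨z₀, hz₀⟩ : ∃ z₀ : ℝ, z₀ = (1 - Real.exp ξ) / (1 + Real.exp ξ) := ⟨_, rfl⟩
  have hzpos : 0 < z₀ := by rw [hz₀]; exact div_pos (by (clear * - hy1; linarith only [hy1])) (by (clear * - hy0; linarith only [hy0]))
  have hza : z₀ < a := by
    rw [hat, hz₀, div_lt_div_iff₀ (by linarith only [hy0]) (by linarith only [hτ])]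
    linarith only [hyτ]
  have hz1 : z₀ < 1 := hza.trans ha1
  set m := max ((1 + Real.exp ξ) / (1 - Real.exp ξ))
      ((Real.exp ξ + tau a) / (Real.exp ξ - tau a)) with hm
  have hm1 : (1 + Real.exp ξ) / (1 - Real.exp ξ) ≤ m := le_max_left _ _
  have hm2 : (Real.exp ξ + tau a) / (Real.exp ξ - tau a) ≤ m := le_max_right _ _
  have hmpos : 0 < m := lt_of_lt_of_le (div_pos (by (clear * - hy0; linarith only [hy0])) (by linarith only [hy1])) hm1
  have hr0 : 0 < r := by rw [hr]; exact inv_pos.mpr hmpos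
  have hr1 : r ≤ z₀ := by
    rw [hr, inv_le_comm₀ hmpos hzpos, hz₀, inv_div]
    exact hm1
  have hr2 : r * (1 - a * z₀) ≤ a - z₀ := by
    have e1 : 1 - a * z₀ = 2 * (Real.exp ξ + tau a) / ((1 + tau a) * (1 + Real.exp ξ)) := by
      rw [hz₀]
      nth_rewrite 1 [hat]
      field_simp
      ring
    have e2 : a - z₀ = 2 * (Real.exp ξ - tau a) / ((1 + tau a) * (1 + Real.exp ξ)) := by
      rw [hz₀]
      nth_rewrite 1 [hat]
      field_simp
      ring
    rw [e1, e2, hr, inv_mul_le_iff₀ hmpos, ← mul_div_assoc]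
    apply div_le_div_of_nonneg_right _ (by positivity)
    rw [div_le_iff₀ (by linarith only [hyτ])] at hm2
    (clear * - hm2; linarith only [hm2])
  have hrlt : r < 1 := lt_of_le_of_lt hr1 hz1
  -- the univalent function
  have hmem : ∀ z ∈ ball (0:ℂ) 1, (r : ℂ) * z ∈ ball (0:ℂ) r := by
    intro z hz
    rw [mem_ball_zero_iff] at hz ⊢
    rw [norm_mul, Complex.norm_real, Real.norm_of_nonneg hr0.le]
    (clear * - hr0 hz; nlinarith only [hr0, hz])
  have h0b : (0:ℂ) ∈ ball (0:ℂ) 1 := mem_ball_self one_pos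
  have hb0 : ball (0:ℂ) 1 ∈ 𝓝 (0:ℂ) := ball_mem_nhds 0 one_pos
  have haB : (a : ℂ) ∈ ball (0:ℂ) 1 := by
    rw [mem_ball_zero_iff, Complex.norm_real, Real.norm_of_nonneg ha.le]
    exact ha1
  have ha0 : (a : ℂ) ≠ 0 := by exact_mod_cast ha.ne'
  have hrc : (r : ℂ) ≠ 0 := by exact_mod_cast hr0.ne'
  have hne : ∀ u ∈ ball (0:ℂ) r, phi β (mob z₀ u) - phi β a ≠ 0 := by
    intro u hu h0
    exact mob_ne_a ha1 hzpos hza hr1 hr2 hu (hE.inj _ _ (mob_mem hzpos hz1 hr1 hu) haB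
      (mob_ne_zero hzpos hz1 hr1 hu) ha0 (sub_eq_zero.mp h0))
  have hmob0 : mob z₀ 0 = z₀ := by simp [mob]
  set K : ℂ := phi β z₀ - phi β a with hK
  have hK0 : K ≠ 0 := by
    have := hne 0 (mem_ball_self hr0)
    rwa [hmob0] at this
  set g : ℂ → ℂ := fun z => (phi β (mob z₀ (r * z)) - phi β a) / K with hg
  have hgder : ∀ z ∈ ball (0:ℂ) 1, HasDerivAt g (dphi β (mob z₀ (r * z)) *
      (((1 - (z₀ : ℂ) ^ 2) / (1 + z₀ * (r * z)) ^ 2) * r) / K) z := by
    intro z hz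
    have hu := hmem z hz
    have d1 : HasDerivAt (fun z : ℂ => (r : ℂ) * z) (r : ℂ) z := by
      simpa using (hasDerivAt_id z).const_mul (r : ℂ)
    have d2 := (mob_deriv (mob_den hzpos hz1 hr1 hu)).comp z d1
    have d3 := (hasDerivAt_phi hE.diff (mob_mem hzpos hz1 hr1 hu)
      (mob_ne_zero hzpos hz1 hr1 hu)).comp z d2
    exact (d3.sub_const _).div_const K
  have hgd : DifferentiableOn ℂ g (ball 0 1) := fun z hz =>
    (hgder z hz).differentiableAt.differentiableWithinAt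
  have hgne : ∀ z ∈ ball (0:ℂ) 1, g z ≠ 0 := fun z hz => div_ne_zero (hne _ (hmem z hz)) hK0
  have hg0 : g 0 = 1 := by
    simp only [hg, mul_zero, hmob0]
    exact div_self hK0
  have hgi : InjOn g (ball 0 1) := by
    intro z hz w hw hzw
    simp only [hg] at hzw
    rw [div_left_inj' hK0] at hzw
    have e1 : phi β (mob z₀ (r * z)) = phi β (mob z₀ (r * w)) := by linear_combination hzw
    have e2 := hE.inj _ _ (mob_mem hzpos hz1 hr1 (hmem z hz)) (mob_mem hzpos hz1 hr1 (hmem w hw))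
      (mob_ne_zero hzpos hz1 hr1 (hmem z hz)) (mob_ne_zero hzpos hz1 hr1 (hmem w hw)) e1
    exact mul_left_cancel₀ hrc (mob_inj hzpos hz1 hr1 (hmem z hz) (hmem w hw) e2)
  obtain ⟨L, hLd, hL0, hLe⟩ := Pool.Agent.Helper24.Br.exists_log_ball hgd hgne hg0
  have hLi : InjOn (fun z => Complex.exp (L z)) (ball 0 1) := by
    intro z hz w hw hzw
    simp only at hzw
    rw [hLe z hz, hLe w hw] at hzw
    exact hgi hz hw hzw
  -- the functions in the strip
  set P : ℂ → ℂ := fun z => Xf β a (om ξ (r * z)) with hP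
  set Q : ℂ → ℂ := fun z => deriv (Xf β a) (om ξ (r * z)) with hQ
  set S : ℂ → ℂ := fun z => deriv (deriv (Xf β a)) (om ξ (r * z)) with hS
  set w : ℂ → ℂ := fun z => (1 - ((r : ℂ) * z) ^ 2)⁻¹ with hw
  have hL' : ∀ z ∈ ball (0:ℂ) 1, deriv L z = -4 * r * (P z * w z) := by
    intro z hz
    have hu := hmem z hz
    have e1 : HasDerivAt (fun z => Complex.exp (L z)) (Complex.exp (L z) * deriv L z) z :=
      ((hLd.differentiableAt (isOpen_ball.mem_nhds hz)).hasDerivAt).cexp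
    have e2 : (fun z => Complex.exp (L z)) =ᶠ[𝓝 z] g := by
      filter_upwards [isOpen_ball.mem_nhds hz] with v hv
      exact hLe v hv
    have e3 := e1.unique ((hgder z hz).congr_of_eventuallyEq e2)
    obtain ⟨o1, o2⟩ := om_zf hz₀ hzpos hz1 hr1 hu
    have n1 := hne _ hu
    have e4 : deriv L z = dphi β (mob z₀ (r * z)) *
      (((1 - (z₀ : ℂ) ^ 2) / (1 + z₀ * (r * z)) ^ 2) * r) / (phi β (mob z₀ (r * z)) - phi β a) := by
      rw [hLe z hz] at e3
      simp only [hg] at e3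
      have e5 : (phi β (mob z₀ (r * z)) - phi β a) * deriv L z = dphi β (mob z₀ (r * z)) *
          (((1 - (z₀ : ℂ) ^ 2) / (1 + z₀ * (r * z)) ^ 2) * r) := by
        apply mul_right_cancel₀ (inv_ne_zero hK0)
        rw [← div_eq_mul_inv, ← div_eq_mul_inv, ← e3]
        ring
      rw [← e5]
      (clear * - n1; field_simp)
    rw [e4, ← o2]
    simp only [hP, hw]
    unfold Xf
    rw [o1]
    field_simp
    ring
  -- analyticity of X
  obtain ⟨x₁, hx₁, hx₁'⟩ := exists_between h1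
  obtain ⟨x₂, hx₂, hx₂'⟩ := exists_between h2
  have hN := Pool.Agent.Helper67.EK.E1c h ha ha1 hx₁ hx₂'
  have hω0 : pt ξ (π / 2) ∈ Rect x₁ x₂ := by
    unfold Rect
    rw [Complex.mem_reProdIm]
    have e1 : (pt ξ (π / 2)).re = ξ := by simp [pt]
    have e2 : (pt ξ (π / 2)).im = π / 2 := by simp [pt]
    rw [e1, e2]
    have := Real.pi_pos
    exact ⟨⟨hx₁'.le, hx₂.le⟩, ⟨by (clear * - this; linarith only [this]), by linarith only [this]⟩⟩
  have hXa : AnalyticAt ℂ (Xf β a) (pt ξ (π / 2)) := hN.an _ hω0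
  have hX0 : X ≠ 0 := by rw [hX]; exact hN.ne _ hω0
  have hrz : HasDerivAt (fun z : ℂ => (r : ℂ) * z) (r : ℂ) 0 := by
    simpa using (hasDerivAt_id (0:ℂ)).const_mul (r : ℂ)
  have homd : ∀ z ∈ ball (0:ℂ) 1, HasDerivAt (fun z => om ξ (r * z)) (-2 * r * w z) z := by
    intro z hz
    have hu := hmem z hz
    have hu1 : ‖(r : ℂ) * z‖ < 1 := by
      rw [mem_ball_zero_iff] at hu
      linarith only [hrlt, hu]
    have d1 : HasDerivAt (fun z : ℂ => (r : ℂ) * z) (r : ℂ) z := by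
      simpa using (hasDerivAt_id z).const_mul (r : ℂ)
    have d2 := (om_deriv ξ hu1).comp z d1
    have e1 : -2 * r * w z = -2 / (1 - ((r : ℂ) * z) ^ 2) * r := by
      simp only [hw]
      ring
    rw [e1]
    exact d2
  have hom0 : om ξ ((r : ℂ) * 0) = pt ξ (π / 2) := by rw [mul_zero, om_zero]
  have hev : ∀ᶠ z in 𝓝 (0:ℂ), AnalyticAt ℂ (Xf β a) (om ξ (r * z)) := by
    have hc : ContinuousAt (fun z => om ξ (r * z)) 0 := (homd 0 h0b).continuousAt
    have e1 := hXa.eventually_analyticAt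
    rw [← hom0] at e1
    exact hc.eventually e1
  have hev1 : ∀ᶠ z in 𝓝 (0:ℂ), HasDerivAt P (-2 * r * w z * Q z) z ∧
      HasDerivAt Q (-2 * r * w z * S z) z ∧ HasDerivAt w (2 * (r : ℂ) ^ 2 * z * (w z * w z)) z := by
    filter_upwards [hev, hb0] with z hz hzb
    have e1 := homd z hzb
    have e2 := hz.differentiableAt.hasDerivAt.comp z e1
    have e3 := hz.deriv.differentiableAt.hasDerivAt.comp z e1
    have hu := hmem z hzb
    have hu1 : ‖(r : ℂ) * z‖ < 1 := by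
      rw [mem_ball_zero_iff] at hu
      linarith only [hrlt, hu]
    have e4 : (1 - ((r : ℂ) * z) ^ 2) ≠ 0 := by
      have e5 : 1 - ((r : ℂ) * z) ^ 2 = (1 - r * z) * (1 + r * z) := by ring
      rw [e5]
      exact mul_ne_zero (one_sub_neC hu1) (one_add_neC hu1)
    refine ⟨?_, ?_, ?_⟩
    · have e6 : -2 * r * w z * Q z = deriv (Xf β a) (om ξ (r * z)) * (-2 * r * w z) := by
        simp only [hQ]
        ring
      rw [e6]
      exact e2
    · have e6 : -2 * r * w z * S z = deriv (deriv (Xf β a)) (om ξ (r * z)) * (-2 * r * w z) := by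
        simp only [hS]
        ring
      rw [e6]
      exact e3
    · have d1 : HasDerivAt (fun z : ℂ => (r : ℂ) * z) (r : ℂ) z := by
        simpa using (hasDerivAt_id z).const_mul (r : ℂ)
      have d2 := ((d1.pow 2).const_sub 1).inv e4
      have e6 : 2 * (r : ℂ) ^ 2 * z * (w z * w z) =
          -(-(((2 : ℕ) : ℂ) * ((r : ℂ) * z) ^ (2 - 1) * r)) / (1 - ((r : ℂ) * z) ^ 2) ^ 2 := by
        simp only [hw]
        push_cast
        (clear * - hrc; field_simp)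
      rw [e6]
      exact d2
  have hev2 : ∀ᶠ z in 𝓝 (0:ℂ), deriv (deriv L) z =
      -4 * r * (-2 * r * (w z * w z) * Q z + 2 * (r : ℂ) ^ 2 * z * (w z * w z) * P z) := by
    have hb1 : ∀ᶠ z in 𝓝 (0:ℂ), deriv L =ᶠ[𝓝 z] fun z => -4 * r * (P z * w z) := by
      filter_upwards [hb0] with z hz
      filter_upwards [isOpen_ball.mem_nhds hz] with v hv
      exact hL' v hv
    filter_upwards [hev1, hb1] with z hz hzb
    rw [hzb.deriv_eq]
    have e1 := ((hz.1.mul hz.2.2).const_mul (-4 * (r : ℂ))).deriv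
    refine e1.trans ?_
    ring
  have hw0 : w 0 = 1 := by simp [hw]
  have hP0 : P 0 = X := by simp only [hP]; rw [hom0, hX]
  have hQ0 : Q 0 = X1 := by simp only [hQ]; rw [hom0, hX1]
  have hS0 : S 0 = X2 := by simp only [hS]; rw [hom0, hX2]
  have v1 : deriv L 0 = -4 * r * X := by
    rw [hL' 0 h0b, hP0, hw0, mul_one]
  have v2 : deriv (deriv L) 0 = 8 * (r : ℂ) ^ 2 * X1 := by
    rw [hev2.self_of_nhds, hw0, hQ0]
    ring
  have v3 : deriv (deriv (deriv L)) 0 = -16 * (r : ℂ) ^ 3 * X2 - 8 * (r : ℂ) ^ 3 * X := by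
    have hev2' : deriv (deriv L) =ᶠ[𝓝 (0:ℂ)] fun z =>
      -4 * r * (-2 * r * (w z * w z) * Q z + 2 * (r : ℂ) ^ 2 * z * (w z * w z) * P z) := hev2
    rw [hev2'.deriv_eq]
    obtain ⟨p1, p2, p3⟩ := hev1.self_of_nhds
    have e1 := (((((p3.mul p3).const_mul (-2 * (r : ℂ))).mul p2).add
      ((((hasDerivAt_id (0:ℂ)).const_mul (2 * (r : ℂ) ^ 2)).mul (p3.mul p3)).mul p1)).const_mul
        (-4 * (r : ℂ))).deriv
    refine e1.trans ?_
    simp only [Pi.mul_apply, id, hw0, hP0, hQ0, hS0, mul_zero, zero_mul, mul_one, add_zero,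
      zero_add]
    ring
  have c1 : coeff L 1 = -4 * r * X := by rw [coeff_one, v1]
  have c2 : coeff L 2 = 4 * (r : ℂ) ^ 2 * X1 := by
    have e1 := coeff_deriv L 1
    rw [coeff_one, v2] at e1
    push_cast at e1
    linear_combination -e1 / 2
  have c3 : coeff L 3 = -(8 * (r : ℂ) ^ 3 * X2 + 4 * (r : ℂ) ^ 3 * X) / 3 := by
    have e1 := coeff_deriv L 2
    have e2 := coeff_deriv (deriv L) 1
    rw [coeff_one, v3] at e2
    push_cast at e1 e2
    linear_combination -e1 / 3 - e2 / 6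
  obtain ⟨-, hbe⟩ := be_two hLd hL0 hLi c1 c2 c3
  refine ⟨hX0, hr0, hrlt, ?_⟩
  have n1 : ‖(4 * (r : ℂ) ^ 2 * X1) / (-4 * r * X)‖ ^ 2 = r ^ 2 * ‖X1 / X‖ ^ 2 := by
    have e1 : (4 * (r : ℂ) ^ 2 * X1) / (-4 * r * X) = -((r : ℂ) * (X1 / X)) := by
      (clear * - hX0 hrc; field_simp)
    rw [e1, norm_neg, norm_mul, Complex.norm_real, Real.norm_of_nonneg hr0.le, mul_pow]
  have n2 : ‖-(8 * (r : ℂ) ^ 3 * X2 + 4 * (r : ℂ) ^ 3 * X) / 3 / (-4 * r * X) -
      ((4 * (r : ℂ) ^ 2 * X1) / (-4 * r * X)) ^ 2 / 2 - (-4 * r * X) ^ 2 / 48‖ ^ 2 =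
      r ^ 4 * ‖(1 - X ^ 2 + 2 * (X2 / X) - 3 / 2 * (X1 / X) ^ 2) / 3‖ ^ 2 := by
    have e1 : -(8 * (r : ℂ) ^ 3 * X2 + 4 * (r : ℂ) ^ 3 * X) / 3 / (-4 * r * X) -
      ((4 * (r : ℂ) ^ 2 * X1) / (-4 * r * X)) ^ 2 / 2 - (-4 * r * X) ^ 2 / 48 =
      ((r ^ 2 : ℝ) : ℂ) * ((1 - X ^ 2 + 2 * (X2 / X) - 3 / 2 * (X1 / X) ^ 2) / 3) := by
      push_cast
      field_simp
      ring
    rw [e1, norm_mul, Complex.norm_real, Real.norm_of_nonneg (by positivity), mul_pow]
    ring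
  have n3 : ‖-4 * (r : ℂ) * X‖ / 4 = r * ‖X‖ := by
    rw [norm_mul, norm_mul, Complex.norm_real, Real.norm_of_nonneg hr0.le, norm_neg]
    have e1 : ‖(4:ℂ)‖ = 4 := by simp
    rw [e1]
    ring
  rw [n1, n2, n3] at hbe
  (clear * - hbe; linarith only [hbe])

end Pool.Agent.Helper84.EK

end
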