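import Pool.Agent.Helper14.CMF.T11
import Pool.Agent.Helper14.CMF.T09

set_option linter.all false

section

namespace Pool.Agent.Helper52.EK
end Pool.Agent.Helper52.EK
namespace Pool.Agent.Helper69.EK3
end Pool.Agent.Helper69.EK3

set_option autoImplicit false

open Complex MeasureTheory Metric Set

open scoped Real ComplexConjugate

namespace Pool.Agent.Helper69.EK7

open Pool.Agent.Helper52.EK Pool.Agent.Helper69.EK3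

variable {P : (ℂ → ℂ) → ℝ → ℝ → Prop}

/-- the order of integration -/
theorem IH_swap {x₁ x₂ h : ℝ} (hx : x₁ ≤ x₂) (hh : 0 ≤ h) {F : ℝ → ℝ → ℝ} (hF : CH x₁ x₂ h F) :
    IH x₁ x₂ h F = ∫ η in (0:ℝ)..h, ∫ ξ in x₁..x₂, F ξ η := by
  unfold IH
  rw [intervalIntegral.integral_of_le hx, intervalIntegral.integral_of_le hh]
  simp only [intervalIntegral.integral_of_le hx, intervalIntegral.integral_of_le hh]
  refine integral_integral_swap ?_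
  have h1 : IntegrableOn (fun p : ℝ × ℝ => F p.1 p.2) (Ioc x₁ x₂ ×ˢ Ioc 0 h) :=
    hF.integrableOn.mono_set (prod_mono Ioc_subset_Icc_self Ioc_subset_Icc_self)
  rw [IntegrableOn, Measure.volume_eq_prod, ← Measure.prod_restrict] at h1
  exact h1

end Pool.Agent.Helper69.EK7

end

section

namespace Pool.Agent.Helper52.EK
end Pool.Agent.Helper52.EK
namespace Pool.Agent.Helper69.EK3
end Pool.Agent.Helper69.EK3

set_option autoImplicit false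

open Complex MeasureTheory Metric Set

open scoped Real ComplexConjugate

namespace Pool.Agent.Helper69.EK7

open Pool.Agent.Helper52.EK Pool.Agent.Helper69.EK3

variable {P : (ℂ → ℂ) → ℝ → ℝ → Prop}

theorem d_xi {f : ℂ → ℂ} {ξ η : ℝ} (hf : DifferentiableAt ℂ f (pt ξ η)) :
    HasDerivAt (fun ξ : ℝ => f (pt ξ η)) (deriv f (pt ξ η)) ξ := by
  have h1 : HasDerivAt (fun ξ : ℝ => pt ξ η) 1 ξ := by
    unfold pt
    simpa using (Complex.ofRealCLM.hasDerivAt (x := ξ)).add_const ((η : ℂ) * I)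
  have h2 := hf.hasDerivAt.scomp ξ h1
  rw [one_smul] at h2
  exact h2

theorem d_eta {f : ℂ → ℂ} {ξ η : ℝ} (hf : DifferentiableAt ℂ f (pt ξ η)) :
    HasDerivAt (fun η : ℝ => f (pt ξ η)) (I * deriv f (pt ξ η)) η := by
  have h1 : HasDerivAt (fun η : ℝ => pt ξ η) I η := by
    unfold pt
    simpa using ((Complex.ofRealCLM.hasDerivAt (x := η)).mul_const I).const_add (ξ : ℂ)
  have h2 := hf.hasDerivAt.scomp η h1
  rw [smul_eq_mul] at h2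
  exact h2

theorem d_H {H Hx Hy : ℂ → ℂ} (hH : C1c H Hx Hy) {g : ℝ → ℂ} {t : ℝ} {v : ℂ} (hg : g t ≠ 0)
    (hd : HasDerivAt g v t) :
    HasDerivAt (fun s => H (g s)) (Hx (g t) * (v.re : ℂ) + Hy (g t) * (v.im : ℂ)) t := by
  have h1 := (hH.hd (g t) hg).comp_hasDerivAt t hd
  refine h1.congr_deriv ?_
  simp only [_root_.add_apply, ContinuousLinearMap.smulRight_apply, reCLM_apply, imCLM_apply,
    real_smul]
  ring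

theorem d_conj {g : ℝ → ℂ} {t : ℝ} {v : ℂ} (hd : HasDerivAt g v t) :
    HasDerivAt (fun s => conj (g s)) (conj v) t :=
  (Complex.conjCLE.toContinuousLinearMap.hasFDerivAt (x := g t)).comp_hasDerivAt t hd

theorem d_re {g : ℝ → ℂ} {t : ℝ} {v : ℂ} (hd : HasDerivAt g v t) :
    HasDerivAt (fun s => (g s).re) v.re t :=
  (reCLM.hasFDerivAt (x := g t)).comp_hasDerivAt t hd

theorem d_im {g : ℝ → ℂ} {t : ℝ} {v : ℂ} (hd : HasDerivAt g v t) :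
    HasDerivAt (fun s => (g s).im) v.im t :=
  (imCLM.hasFDerivAt (x := g t)).comp_hasDerivAt t hd

/-- the field -/
noncomputable def FA (a : ℝ → ℝ) (H : ℂ → ℂ) (f h : (ℂ → ℂ) → ℂ → ℂ) (X : ℂ → ℂ) (ξ η : ℝ) : ℂ :=
  (a η : ℂ) * H (X (pt ξ η)) * f X (pt ξ η) * conj (h X (pt ξ η))

/-- the integrand of the field `a(η) H(X) f conj h` -/
noncomputable def NF (a a₁ : ℝ → ℝ) (H Hx Hy : ℂ → ℂ) (f h : (ℂ → ℂ) → ℂ → ℂ)
    (X : ℂ → ℂ) (ξ η : ℝ) : ℝ :=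
  (I * (a₁ η : ℂ) * H (X (pt ξ η)) * f X (pt ξ η) * conj (h X (pt ξ η)) +
    (a η : ℂ) * ((Hx (X (pt ξ η)) + I * Hy (X (pt ξ η))) * conj (deriv X (pt ξ η))) *
      f X (pt ξ η) * conj (h X (pt ξ η)) +
    2 * ((a η : ℂ) * H (X (pt ξ η)) * f X (pt ξ η) * conj (deriv (h X) (pt ξ η)))).re

/-- the derivatives of the field -/
noncomputable def FA1 (a : ℝ → ℝ) (H Hx Hy : ℂ → ℂ) (f h : (ℂ → ℂ) → ℂ → ℂ) (X : ℂ → ℂ)
    (ξ η : ℝ) : ℂ :=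
  (a η : ℂ) * (((Hx (X (pt ξ η)) * ((deriv X (pt ξ η)).re : ℂ) + Hy (X (pt ξ η)) *
      ((deriv X (pt ξ η)).im : ℂ)) * f X (pt ξ η) +
    H (X (pt ξ η)) * deriv (f X) (pt ξ η)) * conj (h X (pt ξ η)) +
    H (X (pt ξ η)) * f X (pt ξ η) * conj (deriv (h X) (pt ξ η)))

noncomputable def FA2 (a a₁ : ℝ → ℝ) (H Hx Hy : ℂ → ℂ) (f h : (ℂ → ℂ) → ℂ → ℂ) (X : ℂ → ℂ)
    (ξ η : ℝ) : ℂ :=
  (a₁ η : ℂ) * (H (X (pt ξ η)) * f X (pt ξ η) * conj (h X (pt ξ η))) +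
  (a η : ℂ) * (((Hx (X (pt ξ η)) * ((I * deriv X (pt ξ η)).re : ℂ) + Hy (X (pt ξ η)) *
      ((I * deriv X (pt ξ η)).im : ℂ)) * f X (pt ξ η) +
    H (X (pt ξ η)) * (I * deriv (f X) (pt ξ η))) * conj (h X (pt ξ η)) +
    H (X (pt ξ η)) * f X (pt ξ η) * conj (I * deriv (h X) (pt ξ η)))

theorem FA_sum (a a₁ : ℝ → ℝ) (H Hx Hy : ℂ → ℂ) (f h : (ℂ → ℂ) → ℂ → ℂ) (X : ℂ → ℂ)
    (ξ η : ℝ) : (FA1 a H Hx Hy f h X ξ η).re + (-1) * (FA2 a a₁ H Hx Hy f h X ξ η).im =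
      NF a a₁ H Hx Hy f h X ξ η := by
  unfold FA1 FA2 NF
  generalize H (X (pt ξ η)) = h0
  generalize Hx (X (pt ξ η)) = hx
  generalize Hy (X (pt ξ η)) = hy
  generalize deriv (h X) (pt ξ η) = k1
  generalize deriv (f X) (pt ξ η) = f1
  generalize deriv X (pt ξ η) = Y
  generalize h X (pt ξ η) = k
  generalize f X (pt ξ η) = f0
  simp only [mul_re, mul_im, add_re, add_im, conj_re, conj_im, ofReal_re, ofReal_im, I_re, I_im,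
    re_ofNat, im_ofNat]
  ring

/-- analytic functionals of `X` near the half strip -/
def AnF (f : (ℂ → ℂ) → ℂ → ℂ) : Prop :=
  ∀ (X : ℂ → ℂ) (x₁ x₂ : ℝ), NiceH X x₁ x₂ → AnalyticOnNhd ℂ (f X) (RectH x₁ x₂ (π / 2))

end Pool.Agent.Helper69.EK7

end

section

namespace Pool.Agent.Helper52.EK
end Pool.Agent.Helper52.EK
namespace Pool.Agent.Helper69.EK3
end Pool.Agent.Helper69.EK3
namespace Pool.Agent.Helper69.EK7
end Pool.Agent.Helper69.EK7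

set_option autoImplicit false

open Complex MeasureTheory Metric Set

open scoped Real ComplexConjugate

namespace Pool.Agent.Helper84.CK

open Pool.Agent.Helper52.EK Pool.Agent.Helper69.EK3 Pool.Agent.Helper69.EK7

/-- a weight on the half strip with its partial derivatives and a bound `g` of its variation -/
structure Wt (x₁ x₂ : ℝ) (Ω Ω₁ Ω₂ g : ℝ → ℝ → ℝ) : Prop where
  c0 : CH x₁ x₂ (π / 2) Ω
  c1 : CH x₁ x₂ (π / 2) Ω₁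
  c2 : CH x₁ x₂ (π / 2) Ω₂
  cg : CH x₁ x₂ (π / 2) g
  d1 : ∀ ξ ∈ Icc x₁ x₂, ∀ η ∈ Icc (0:ℝ) (π / 2), HasDerivAt (fun t => Ω t η) (Ω₁ ξ η) ξ
  d2 : ∀ ξ ∈ Icc x₁ x₂, ∀ η ∈ Icc (0:ℝ) (π / 2), HasDerivAt (fun t => Ω ξ t) (Ω₂ ξ η) η
  e1 : ∀ η ∈ Icc (0:ℝ) (π / 2), Ω x₁ η = 0
  e2 : ∀ η ∈ Icc (0:ℝ) (π / 2), Ω x₂ η = 0
  b01 : ∀ ξ ∈ Icc x₁ x₂, ∀ η ∈ Icc (0:ℝ) (π / 2), 0 ≤ Ω ξ η ∧ Ω ξ η ≤ 1
  g1 : ∀ ξ ∈ Icc x₁ x₂, ∀ η ∈ Icc (0:ℝ) (π / 2), |Ω₁ ξ η| * Real.sin η ≤ g ξ η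
  g2 : ∀ ξ ∈ Icc x₁ x₂, ∀ η ∈ Icc (0:ℝ) (π / 2), |Ω₂ ξ η| * Real.sin η ≤ g ξ η

/-- the error term -/
noncomputable def Eg (g : ℝ → ℝ → ℝ) (X : ℂ → ℂ) (x₁ x₂ : ℝ) : ℝ :=
  IH x₁ x₂ (π / 2) (fun ξ η => g ξ η * (1 + ‖X (pt ξ η) - 1‖ ^ 2))

theorem sin_nn {η : ℝ} (hη : η ∈ Icc (0:ℝ) (π / 2)) : 0 ≤ Real.sin η :=
  Real.sin_nonneg_of_nonneg_of_le_pi hη.1 (hη.2.trans (by (clear * -; linarith only [Real.pi_pos])))

theorem CH_en {X : ℂ → ℂ} {x₁ x₂ : ℝ} (hX : NiceH X x₁ x₂) :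
    CH x₁ x₂ (π / 2) (fun ξ η => ‖X (pt ξ η) - 1‖ ^ 2) :=
  CH_comp hX.an.continuousOn (W := fun X => ‖X - 1‖ ^ 2) (by fun_prop)

theorem Eg_cont {X : ℂ → ℂ} {x₁ x₂ : ℝ} {g : ℝ → ℝ → ℝ} (hX : NiceH X x₁ x₂)
    (cg : CH x₁ x₂ (π / 2) g) :
    CH x₁ x₂ (π / 2) (fun ξ η => g ξ η * (1 + ‖X (pt ξ η) - 1‖ ^ 2)) :=
  cg.mul ((CH_const 1).add (CH_en hX))

/-- `N` is null against weights -/
structure IsNullW (P : (ℂ → ℂ) → ℝ → ℝ → Prop) (N : (ℂ → ℂ) → ℝ → ℝ → ℝ)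
    (K : (ℂ → ℂ) → ℝ → ℝ) : Prop where
  cN : ∀ (X : ℂ → ℂ) (x₁ x₂ : ℝ), NiceH X x₁ x₂ → CH x₁ x₂ (π / 2) (N X)
  cK : ∀ (X : ℂ → ℂ) (x₁ x₂ : ℝ), NiceH X x₁ x₂ → ContinuousOn (K X) (Icc x₁ x₂)
  le : ∃ C : ℝ, ∀ (X : ℂ → ℂ) (x₁ x₂ : ℝ) (Ω Ω₁ Ω₂ g : ℝ → ℝ → ℝ), x₁ ≤ x₂ →
    Wt x₁ x₂ Ω Ω₁ Ω₂ g → NiceH X x₁ x₂ → P X x₁ x₂ →
    |IH x₁ x₂ (π / 2) (fun ξ η => Ω ξ η * N X ξ η) - ∫ ξ in x₁..x₂, Ω ξ (π / 2) * K X ξ| ≤
      C * Eg g X x₁ x₂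

theorem pi2_mem : π / 2 ∈ Icc (0:ℝ) (π / 2) := ⟨by positivity, le_rfl⟩

theorem CH_line {x₁ x₂ η : ℝ} {F : ℝ → ℝ → ℝ} (hF : CH x₁ x₂ (π / 2) F)
    (hη : η ∈ Icc (0:ℝ) (π / 2)) : ContinuousOn (fun ξ => F ξ η) (Icc x₁ x₂) :=
  hF.comp (f := fun ξ : ℝ => (ξ, η)) (by fun_prop) fun _ hξ => ⟨hξ, hη⟩

theorem CH_col {x₁ x₂ ξ : ℝ} {F : ℝ → ℝ → ℝ} (hF : CH x₁ x₂ (π / 2) F)
    (hξ : ξ ∈ Icc x₁ x₂) : ContinuousOn (fun η => F ξ η) (Icc 0 (π / 2)) :=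
  hF.comp (f := fun η : ℝ => (ξ, η)) (by fun_prop) fun _ hη => ⟨hξ, hη⟩

variable {P : (ℂ → ℂ) → ℝ → ℝ → Prop}

theorem IsNullW.add {N N' : (ℂ → ℂ) → ℝ → ℝ → ℝ} {K K' : (ℂ → ℂ) → ℝ → ℝ} (h : IsNullW P N K)
    (h' : IsNullW P N' K') :
    IsNullW P (fun X ξ η => N X ξ η + N' X ξ η) (fun X ξ => K X ξ + K' X ξ) := by
  refine ⟨fun X x₁ x₂ hX => (h.cN X x₁ x₂ hX).add (h'.cN X x₁ x₂ hX),
    fun X x₁ x₂ hX => (h.cK X x₁ x₂ hX).add (h'.cK X x₁ x₂ hX), ?_⟩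
  obtain ⟨C, hC⟩ := h.le
  obtain ⟨C', hC'⟩ := h'.le
  refine ⟨C + C', fun X x₁ x₂ Ω Ω₁ Ω₂ g hx12 hw hX hP => ?_⟩
  have h1 := hC X x₁ x₂ Ω Ω₁ Ω₂ g hx12 hw hX hP
  have h2 := hC' X x₁ x₂ Ω Ω₁ Ω₂ g hx12 hw hX hP
  have a1 : CH x₁ x₂ (π / 2) (fun ξ η => Ω ξ η * N X ξ η) := hw.c0.mul (h.cN X x₁ x₂ hX)
  have a2 : CH x₁ x₂ (π / 2) (fun ξ η => Ω ξ η * N' X ξ η) := hw.c0.mul (h'.cN X x₁ x₂ hX)
  have s1 : IH x₁ x₂ (π / 2) (fun ξ η => Ω ξ η * (N X ξ η + N' X ξ η)) =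
      IH x₁ x₂ (π / 2) (fun ξ η => Ω ξ η * N X ξ η) +
      IH x₁ x₂ (π / 2) (fun ξ η => Ω ξ η * N' X ξ η) := by
    rw [← IH_add hx12 (by positivity) a1 a2]
    simp only [mul_add]
  have cl := CH_line hw.c0 pi2_mem
  have i1 : IntervalIntegrable (fun ξ => Ω ξ (π / 2) * K X ξ) volume x₁ x₂ :=
    (cl.mul (h.cK X x₁ x₂ hX)).intervalIntegrable_of_Icc hx12
  have i2 : IntervalIntegrable (fun ξ => Ω ξ (π / 2) * K' X ξ) volume x₁ x₂ :=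
    (cl.mul (h'.cK X x₁ x₂ hX)).intervalIntegrable_of_Icc hx12
  have s3 : ∫ ξ in x₁..x₂, Ω ξ (π / 2) * (K X ξ + K' X ξ) =
      (∫ ξ in x₁..x₂, Ω ξ (π / 2) * K X ξ) + ∫ ξ in x₁..x₂, Ω ξ (π / 2) * K' X ξ := by
    rw [← intervalIntegral.integral_add i1 i2]
    simp only [mul_add]
  rw [s1, s3]
  rw [abs_le] at h1 h2 ⊢
  constructor <;> linarith only [h1, h2]

theorem IsNullW.const_mul {N : (ℂ → ℂ) → ℝ → ℝ → ℝ} {K : (ℂ → ℂ) → ℝ → ℝ}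
    (h : IsNullW P N K) (c : ℝ) :
    IsNullW P (fun X ξ η => c * N X ξ η) (fun X ξ => c * K X ξ) := by
  refine ⟨fun X x₁ x₂ hX => (CH_const c).mul (h.cN X x₁ x₂ hX),
    fun X x₁ x₂ hX => continuousOn_const.mul (h.cK X x₁ x₂ hX), ?_⟩
  obtain ⟨C, hC⟩ := h.le
  refine ⟨|c| * C, fun X x₁ x₂ Ω Ω₁ Ω₂ g hx hw hX hP => ?_⟩
  have h1 := hC X x₁ x₂ Ω Ω₁ Ω₂ g hx hw hX hP
  have s1 : IH x₁ x₂ (π / 2) (fun ξ η => Ω ξ η * (c * N X ξ η)) =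
      c * IH x₁ x₂ (π / 2) (fun ξ η => Ω ξ η * N X ξ η) := by
    rw [← IH_const_mul]
    simp only [mul_left_comm c]
  have s2 : ∫ ξ in x₁..x₂, Ω ξ (π / 2) * (c * K X ξ) =
      c * ∫ ξ in x₁..x₂, Ω ξ (π / 2) * K X ξ := by
    rw [← intervalIntegral.integral_const_mul]
    simp only [mul_left_comm c]
  rw [s1, s2, ← mul_sub, abs_mul, mul_assoc]
  exact mul_le_mul_of_nonneg_left h1 (abs_nonneg c)

theorem IsNullW.zero : IsNullW P (fun _ _ _ => 0) (fun _ _ => 0) := by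
  refine ⟨fun _ _ _ _ => CH_const 0, fun _ _ _ _ => continuousOn_const, ⟨0, ?_⟩⟩
  intro X x₁ x₂ Ω Ω₁ Ω₂ g hx hw hX hP
  simp [IH]

theorem IsNullW.congr {N N' : (ℂ → ℂ) → ℝ → ℝ → ℝ} {K K' : (ℂ → ℂ) → ℝ → ℝ}
    (h : IsNullW P N K) (hN : ∀ X ξ η, N X ξ η = N' X ξ η) (hK : ∀ X ξ, K X ξ = K' X ξ) :
    IsNullW P N' K' := by
  have e1 : N = N' := by
    funext X ξ η
    exact hN X ξ η
  have e2 : K = K' := by
    funext X ξ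
    exact hK X ξ
  rw [← e1, ← e2]
  exact h

theorem IsNullW.mono {P' : (ℂ → ℂ) → ℝ → ℝ → Prop} (hPP : ∀ X x₁ x₂, P' X x₁ x₂ → P X x₁ x₂)
    {N : (ℂ → ℂ) → ℝ → ℝ → ℝ} {K : (ℂ → ℂ) → ℝ → ℝ} (h : IsNullW P N K) : IsNullW P' N K := by
  refine ⟨h.cN, h.cK, ?_⟩
  obtain ⟨C, hC⟩ := h.le
  exact ⟨C, fun X x₁ x₂ Ω Ω₁ Ω₂ g hx hw hX hP => hC X x₁ x₂ Ω Ω₁ Ω₂ g hx hw hX (hPP _ _ _ hP)⟩

/-- the sum over a list -/
theorem IsNullW.list {ι : Type} (L : List ι) {N : ι → (ℂ → ℂ) → ℝ → ℝ → ℝ}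
    {K : ι → (ℂ → ℂ) → ℝ → ℝ} (h : ∀ i ∈ L, IsNullW P (N i) (K i)) :
    IsNullW P (fun X ξ η => (L.map fun i => N i X ξ η).sum)
      (fun X ξ => (L.map fun i => K i X ξ).sum) := by
  induction L with
  | nil => simpa using IsNullW.zero (P := P)
  | cons i L ih =>
    have h1 := (h i (by simp)).add (ih fun j hj => h j (by simp [hj]))
    simpa only [List.map_cons, List.sum_cons] using h1

/-- the error of an integral with a density bounded by `g (1 + |X - 1|²)` -/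
theorem err_le {X : ℂ → ℂ} {x₁ x₂ : ℝ} {F g : ℝ → ℝ → ℝ} (hx : x₁ ≤ x₂) (hX : NiceH X x₁ x₂)
    (cF : CH x₁ x₂ (π / 2) F) (cg : CH x₁ x₂ (π / 2) g) {C : ℝ}
    (h : ∀ ξ ∈ Icc x₁ x₂, ∀ η ∈ Icc (0:ℝ) (π / 2),
      |F ξ η| ≤ C * (g ξ η * (1 + ‖X (pt ξ η) - 1‖ ^ 2))) :
    |IH x₁ x₂ (π / 2) F| ≤ C * Eg g X x₁ x₂ := by
  have hpi : (0:ℝ) ≤ π / 2 := by (clear * -; positivity)
  have cG : CH x₁ x₂ (π / 2) (fun ξ η => C * (g ξ η * (1 + ‖X (pt ξ η) - 1‖ ^ 2))) :=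
    (CH_const C).mul (Eg_cont hX cg)
  have e : IH x₁ x₂ (π / 2) (fun ξ η => C * (g ξ η * (1 + ‖X (pt ξ η) - 1‖ ^ 2))) =
      C * Eg g X x₁ x₂ := by
    rw [IH_const_mul]
    rfl
  rw [abs_le]
  constructor
  · have h1 := IH_mono hx hpi (cG.neg) cF fun ξ hξ η hη => (abs_le.1 (h ξ hξ η hη)).1
    have h2 : IH x₁ x₂ (π / 2) (fun ξ η => - (C * (g ξ η * (1 + ‖X (pt ξ η) - 1‖ ^ 2)))) =
        - IH x₁ x₂ (π / 2) (fun ξ η => C * (g ξ η * (1 + ‖X (pt ξ η) - 1‖ ^ 2))) := by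
      have := IH_const_mul (x₁ := x₁) (x₂ := x₂) (h := π / 2) (-1)
        (fun ξ η => C * (g ξ η * (1 + ‖X (pt ξ η) - 1‖ ^ 2)))
      simpa using this
    rw [h2, e] at h1
    linarith only [h1]
  · have h1 := IH_mono hx hpi cF cG fun ξ hξ η hη => (abs_le.1 (h ξ hξ η hη)).2
    rw [e] at h1
    (clear * - h1; linarith only [h1])

/-- derivatives in the direction of `ξ` -/
theorem isNullW_xi {F F₁ : (ℂ → ℂ) → ℝ → ℝ → ℝ}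
    (cF : ∀ (X : ℂ → ℂ) (x₁ x₂ : ℝ), NiceH X x₁ x₂ → CH x₁ x₂ (π / 2) (F X))
    (cF₁ : ∀ (X : ℂ → ℂ) (x₁ x₂ : ℝ), NiceH X x₁ x₂ → CH x₁ x₂ (π / 2) (F₁ X))
    (hd : ∀ (X : ℂ → ℂ) (x₁ x₂ : ℝ), NiceH X x₁ x₂ → ∀ ξ ∈ Icc x₁ x₂, ∀ η ∈ Icc (0:ℝ) (π / 2),
      HasDerivAt (fun ξ => F X ξ η) (F₁ X ξ η) ξ) {C : ℝ}
    (hC : ∀ (X : ℂ → ℂ) (x₁ x₂ : ℝ), x₁ ≤ x₂ → NiceH X x₁ x₂ → P X x₁ x₂ →
      ∀ ξ ∈ Icc x₁ x₂, ∀ η ∈ Icc (0:ℝ) (π / 2),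
        |F X ξ η| ≤ C * Real.sin η * (1 + ‖X (pt ξ η) - 1‖ ^ 2)) :
    IsNullW P F₁ (fun _ _ => 0) := by
  refine ⟨cF₁, fun _ _ _ _ => continuousOn_const, |C|,
    fun X x₁ x₂ Ω Ω₁ Ω₂ g hx12 hw hX hP => ?_⟩
  have hpi : (0:ℝ) ≤ π / 2 := by positivity
  have c1 : CH x₁ x₂ (π / 2) (fun ξ η => Ω ξ η * F₁ X ξ η) := hw.c0.mul (cF₁ X x₁ x₂ hX)
  have c2 : CH x₁ x₂ (π / 2) (fun ξ η => Ω₁ ξ η * F X ξ η) := hw.c1.mul (cF X x₁ x₂ hX)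
  have h1 : IH x₁ x₂ (π / 2) (fun ξ η => Ω ξ η * F₁ X ξ η) =
      - IH x₁ x₂ (π / 2) (fun ξ η => Ω₁ ξ η * F X ξ η) := by
    rw [IH_swap hx12 hpi c1, IH_swap hx12 hpi c2, ← intervalIntegral.integral_neg]
    refine intervalIntegral.integral_congr fun η hη => ?_
    rw [uIcc_of_le hpi] at hη
    have i1 : IntervalIntegrable (fun ξ => Ω₁ ξ η * F X ξ η) volume x₁ x₂ :=
      (CH_line c2 hη).intervalIntegrable_of_Icc hx12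
    have i2 : IntervalIntegrable (fun ξ => Ω ξ η * F₁ X ξ η) volume x₁ x₂ :=
      (CH_line c1 hη).intervalIntegrable_of_Icc hx12
    have h2 := intervalIntegral.integral_eq_sub_of_hasDerivAt
      (f := fun ξ => Ω ξ η * F X ξ η) (f' := fun ξ => Ω₁ ξ η * F X ξ η + Ω ξ η * F₁ X ξ η)
      (a := x₁) (b := x₂) (fun ξ hξ => by
        rw [uIcc_of_le hx12] at hξ
        exact (hw.d1 ξ hξ η hη).mul (hd X x₁ x₂ hX ξ hξ η hη)) (i1.add i2)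
    rw [intervalIntegral.integral_add i1 i2, hw.e1 η hη, hw.e2 η hη] at h2
    (clear * - h2; linarith only [h2])
  rw [h1]
  simp only [mul_zero, intervalIntegral.integral_zero, sub_zero, abs_neg]
  refine err_le hx12 hX c2 hw.cg ?_
  intro ξ hξ η hη
  rw [abs_mul]
  have h2 := hC X x₁ x₂ hx12 hX hP ξ hξ η hη
  have h3 := hw.g1 ξ hξ η hη
  have hs := sin_nn hη
  have hn : 0 ≤ 1 + ‖X (pt ξ η) - 1‖ ^ 2 := by (clear * -; positivity)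
  have h4 : |F X ξ η| ≤ |C| * Real.sin η * (1 + ‖X (pt ξ η) - 1‖ ^ 2) :=
    h2.trans (mul_le_mul_of_nonneg_right
      (mul_le_mul_of_nonneg_right (le_abs_self C) hs) hn)
  calc |Ω₁ ξ η| * |F X ξ η| ≤ |Ω₁ ξ η| * (|C| * Real.sin η * (1 + ‖X (pt ξ η) - 1‖ ^ 2)) :=
        mul_le_mul_of_nonneg_left h4 (abs_nonneg _)
    _ = |C| * ((|Ω₁ ξ η| * Real.sin η) * (1 + ‖X (pt ξ η) - 1‖ ^ 2)) := by ring
    _ ≤ |C| * (g ξ η * (1 + ‖X (pt ξ η) - 1‖ ^ 2)) :=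
        mul_le_mul_of_nonneg_left (mul_le_mul_of_nonneg_right h3 hn) (abs_nonneg C)

/-- derivatives in the direction of `η` -/
theorem isNullW_eta {F F₂ : (ℂ → ℂ) → ℝ → ℝ → ℝ}
    (cF : ∀ (X : ℂ → ℂ) (x₁ x₂ : ℝ), NiceH X x₁ x₂ → CH x₁ x₂ (π / 2) (F X))
    (cF₂ : ∀ (X : ℂ → ℂ) (x₁ x₂ : ℝ), NiceH X x₁ x₂ → CH x₁ x₂ (π / 2) (F₂ X))
    (hd : ∀ (X : ℂ → ℂ) (x₁ x₂ : ℝ), NiceH X x₁ x₂ → ∀ ξ ∈ Icc x₁ x₂, ∀ η ∈ Icc (0:ℝ) (π / 2),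
      HasDerivAt (fun η => F X ξ η) (F₂ X ξ η) η)
    (h0 : ∀ (X : ℂ → ℂ) (ξ : ℝ), F X ξ 0 = 0) {C : ℝ}
    (hC : ∀ (X : ℂ → ℂ) (x₁ x₂ : ℝ), x₁ ≤ x₂ → NiceH X x₁ x₂ → P X x₁ x₂ →
      ∀ ξ ∈ Icc x₁ x₂, ∀ η ∈ Icc (0:ℝ) (π / 2),
        |F X ξ η| ≤ C * Real.sin η * (1 + ‖X (pt ξ η) - 1‖ ^ 2)) :
    IsNullW P F₂ (fun X ξ => F X ξ (π / 2)) := by
  have hpi : (0:ℝ) ≤ π / 2 := by positivity
  refine ⟨cF₂, fun X x₁ x₂ hX => (cF X x₁ x₂ hX).comp (f := fun ξ : ℝ => (ξ, π / 2))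
    (by fun_prop) fun ξ hξ => ⟨hξ, hpi, le_rfl⟩, |C|,
    fun X x₁ x₂ Ω Ω₁ Ω₂ g hx12 hw hX hP => ?_⟩
  have c1 : CH x₁ x₂ (π / 2) (fun ξ η => Ω ξ η * F₂ X ξ η) := hw.c0.mul (cF₂ X x₁ x₂ hX)
  have c2 : CH x₁ x₂ (π / 2) (fun ξ η => Ω₂ ξ η * F X ξ η) := hw.c2.mul (cF X x₁ x₂ hX)
  have h1 : IH x₁ x₂ (π / 2) (fun ξ η => Ω₂ ξ η * F X ξ η + Ω ξ η * F₂ X ξ η) =
      ∫ ξ in x₁..x₂, Ω ξ (π / 2) * F X ξ (π / 2) := by
    unfold IH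
    refine intervalIntegral.integral_congr fun ξ hξ => ?_
    rw [uIcc_of_le hx12] at hξ
    have i1 : IntervalIntegrable (fun η => Ω₂ ξ η * F X ξ η) volume 0 (π / 2) :=
      (CH_col c2 hξ).intervalIntegrable_of_Icc hpi
    have i2 : IntervalIntegrable (fun η => Ω ξ η * F₂ X ξ η) volume 0 (π / 2) :=
      (CH_col c1 hξ).intervalIntegrable_of_Icc hpi
    have h2 := intervalIntegral.integral_eq_sub_of_hasDerivAt
      (f := fun η => Ω ξ η * F X ξ η) (f' := fun η => Ω₂ ξ η * F X ξ η + Ω ξ η * F₂ X ξ η)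
      (a := 0) (b := π / 2) (fun η hη => by
        rw [uIcc_of_le hpi] at hη
        exact (hw.d2 ξ hξ η hη).mul (hd X x₁ x₂ hX ξ hξ η hη)) (i1.add i2)
    simp only
    rw [h2, h0, mul_zero, sub_zero]
  rw [IH_add hx12 hpi c2 c1] at h1
  have h3 : IH x₁ x₂ (π / 2) (fun ξ η => Ω ξ η * F₂ X ξ η) -
      (∫ ξ in x₁..x₂, Ω ξ (π / 2) * F X ξ (π / 2)) =
      - IH x₁ x₂ (π / 2) (fun ξ η => Ω₂ ξ η * F X ξ η) := by (clear * - h1; linarith only [h1])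
  rw [h3, abs_neg]
  refine err_le hx12 hX c2 hw.cg ?_
  intro ξ hξ η hη
  rw [abs_mul]
  have h2 := hC X x₁ x₂ hx12 hX hP ξ hξ η hη
  have h3 := hw.g2 ξ hξ η hη
  have hs := sin_nn hη
  have hn : 0 ≤ 1 + ‖X (pt ξ η) - 1‖ ^ 2 := by (clear * -; positivity)
  have h4 : |F X ξ η| ≤ |C| * Real.sin η * (1 + ‖X (pt ξ η) - 1‖ ^ 2) :=
    h2.trans (mul_le_mul_of_nonneg_right
      (mul_le_mul_of_nonneg_right (le_abs_self C) hs) hn)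
  calc |Ω₂ ξ η| * |F X ξ η| ≤ |Ω₂ ξ η| * (|C| * Real.sin η * (1 + ‖X (pt ξ η) - 1‖ ^ 2)) :=
        mul_le_mul_of_nonneg_left h4 (abs_nonneg _)
    _ = |C| * ((|Ω₂ ξ η| * Real.sin η) * (1 + ‖X (pt ξ η) - 1‖ ^ 2)) := by ring
    _ ≤ |C| * (g ξ η * (1 + ‖X (pt ξ η) - 1‖ ^ 2)) :=
        mul_le_mul_of_nonneg_left (mul_le_mul_of_nonneg_right h3 hn) (abs_nonneg C)

end Pool.Agent.Helper84.CK

end

section

namespace Pool.Agent.Helper52.EK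
end Pool.Agent.Helper52.EK
namespace Pool.Agent.Helper69.EK3
end Pool.Agent.Helper69.EK3
namespace Pool.Agent.Helper69.EK7
end Pool.Agent.Helper69.EK7

set_option autoImplicit false

open Complex MeasureTheory Metric Set

open scoped Real ComplexConjugate

namespace Pool.Agent.Helper84.CK

open Pool.Agent.Helper52.EK Pool.Agent.Helper69.EK3 Pool.Agent.Helper69.EK7

variable {P : (ℂ → ℂ) → ℝ → ℝ → Prop}

theorem isNullW_A {H Hx Hy : ℂ → ℂ} (hH : C1c H Hx Hy) {f h : (ℂ → ℂ) → ℂ → ℂ} (hf : AnF f)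
    (hh : AnF h) {a a₁ : ℝ → ℝ} (g1 : ∀ η, HasDerivAt a (a₁ η) η) (g1c : Continuous a₁)
    (f1 : a 0 = 0) {C : ℝ}
    (hC : ∀ (X : ℂ → ℂ) (x₁ x₂ : ℝ), x₁ ≤ x₂ → NiceH X x₁ x₂ → P X x₁ x₂ →
      ∀ ξ ∈ Icc x₁ x₂, ∀ η ∈ Icc (0:ℝ) (π / 2),
        ‖FA a H f h X ξ η‖ ≤ C * Real.sin η * (1 + ‖X (pt ξ η) - 1‖ ^ 2)) :
    IsNullW P (NF a a₁ H Hx Hy f h) (fun X ξ => - (FA a H f h X ξ (π / 2)).im) := by
  have ca : Continuous a := continuous_iff_continuousAt.2 fun t => (g1 t).continuousAt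
  -- continuity
  have cX : ∀ (X : ℂ → ℂ) (x₁ x₂ : ℝ), NiceH X x₁ x₂ →
      ContinuousOn (fun p : ℝ × ℝ => X (pt p.1 p.2)) (Icc x₁ x₂ ×ˢ Icc 0 (π / 2)) :=
    fun X x₁ x₂ hX => contH hX.an.continuousOn
  have mX : ∀ (X : ℂ → ℂ) (x₁ x₂ : ℝ), NiceH X x₁ x₂ →
      MapsTo (fun p : ℝ × ℝ => X (pt p.1 p.2)) (Icc x₁ x₂ ×ˢ Icc 0 (π / 2)) {X | X ≠ 0} :=
    fun X x₁ x₂ hX p hp => hX.ne _ (pt_mem_RectH hp.1 hp.2)
  have i2 : ∀ x₁ x₂ : ℝ, ContinuousOn (fun p : ℝ × ℝ => ((a p.2 : ℝ) : ℂ))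
      (Icc x₁ x₂ ×ˢ Icc 0 (π / 2)) := fun _ _ =>
    (Complex.continuous_ofReal.comp (ca.comp continuous_snd)).continuousOn
  have i3 : ∀ x₁ x₂ : ℝ, ContinuousOn (fun p : ℝ × ℝ => ((a₁ p.2 : ℝ) : ℂ))
      (Icc x₁ x₂ ×ˢ Icc 0 (π / 2)) := fun _ _ =>
    (Complex.continuous_ofReal.comp (g1c.comp continuous_snd)).continuousOn
  have cFA : ∀ (X : ℂ → ℂ) (x₁ x₂ : ℝ), NiceH X x₁ x₂ →
      ContinuousOn (fun p : ℝ × ℝ => FA a H f h X p.1 p.2) (Icc x₁ x₂ ×ˢ Icc 0 (π / 2)) := by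
    intro X x₁ x₂ hX
    unfold FA
    exact (((i2 x₁ x₂).mul (hH.cont.comp (cX X x₁ x₂ hX) (mX X x₁ x₂ hX))).mul
      (contH (hf X x₁ x₂ hX).continuousOn)).mul
      (Complex.continuous_conj.comp_continuousOn (contH (hh X x₁ x₂ hX).continuousOn))
  have cFA1 : ∀ (X : ℂ → ℂ) (x₁ x₂ : ℝ), NiceH X x₁ x₂ →
      ContinuousOn (fun p : ℝ × ℝ => FA1 a H Hx Hy f h X p.1 p.2)
        (Icc x₁ x₂ ×ˢ Icc 0 (π / 2)) := by
    intro X x₁ x₂ hX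
    have cY := contH hX.an.deriv.continuousOn
    have cf := contH (hf X x₁ x₂ hX).continuousOn
    have cf1 := contH (hf X x₁ x₂ hX).deriv.continuousOn
    have ch := Complex.continuous_conj.comp_continuousOn (contH (hh X x₁ x₂ hX).continuousOn)
    have ch1 := Complex.continuous_conj.comp_continuousOn
      (contH (hh X x₁ x₂ hX).deriv.continuousOn)
    have c0 := hH.cont.comp (cX X x₁ x₂ hX) (mX X x₁ x₂ hX)
    have cx := hH.cx.comp (cX X x₁ x₂ hX) (mX X x₁ x₂ hX)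
    have cy := hH.cy.comp (cX X x₁ x₂ hX) (mX X x₁ x₂ hX)
    have yr := (Complex.continuous_ofReal.comp Complex.continuous_re).comp_continuousOn cY
    have yi := (Complex.continuous_ofReal.comp Complex.continuous_im).comp_continuousOn cY
    unfold FA1
    exact (i2 x₁ x₂).mul ((((((cx.mul yr).add (cy.mul yi)).mul cf).add (c0.mul cf1)).mul
      ch).add ((c0.mul cf).mul ch1))
  have cFA2 : ∀ (X : ℂ → ℂ) (x₁ x₂ : ℝ), NiceH X x₁ x₂ →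
      ContinuousOn (fun p : ℝ × ℝ => FA2 a a₁ H Hx Hy f h X p.1 p.2)
        (Icc x₁ x₂ ×ˢ Icc 0 (π / 2)) := by
    intro X x₁ x₂ hX
    have cY : ContinuousOn (fun p : ℝ × ℝ => I * deriv X (pt p.1 p.2))
        (Icc x₁ x₂ ×ˢ Icc 0 (π / 2)) := continuousOn_const.mul (contH hX.an.deriv.continuousOn)
    have cf := contH (hf X x₁ x₂ hX).continuousOn
    have cf1 : ContinuousOn (fun p : ℝ × ℝ => I * deriv (f X) (pt p.1 p.2))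
        (Icc x₁ x₂ ×ˢ Icc 0 (π / 2)) :=
      continuousOn_const.mul (contH (hf X x₁ x₂ hX).deriv.continuousOn)
    have ch := Complex.continuous_conj.comp_continuousOn (contH (hh X x₁ x₂ hX).continuousOn)
    have ch1' : ContinuousOn (fun p : ℝ × ℝ => I * deriv (h X) (pt p.1 p.2))
        (Icc x₁ x₂ ×ˢ Icc 0 (π / 2)) :=
      continuousOn_const.mul (contH (hh X x₁ x₂ hX).deriv.continuousOn)
    have ch1 := Complex.continuous_conj.comp_continuousOn ch1'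
    have c0 := hH.cont.comp (cX X x₁ x₂ hX) (mX X x₁ x₂ hX)
    have cx := hH.cx.comp (cX X x₁ x₂ hX) (mX X x₁ x₂ hX)
    have cy := hH.cy.comp (cX X x₁ x₂ hX) (mX X x₁ x₂ hX)
    have yr := (Complex.continuous_ofReal.comp Complex.continuous_re).comp_continuousOn cY
    have yi := (Complex.continuous_ofReal.comp Complex.continuous_im).comp_continuousOn cY
    unfold FA2
    exact ((i3 x₁ x₂).mul ((c0.mul cf).mul ch)).add ((i2 x₁ x₂).mul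
      ((((((cx.mul yr).add (cy.mul yi)).mul cf).add (c0.mul cf1)).mul ch).add
      ((c0.mul cf).mul ch1)))
  -- the direction of `ξ`
  have N1 := isNullW_xi (P := P) (F := fun X ξ η => (FA a H f h X ξ η).re)
    (F₁ := fun X ξ η => (FA1 a H Hx Hy f h X ξ η).re)
    (fun X x₁ x₂ hX => Complex.continuous_re.comp_continuousOn (cFA X x₁ x₂ hX))
    (fun X x₁ x₂ hX => Complex.continuous_re.comp_continuousOn (cFA1 X x₁ x₂ hX))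
    (by
      intro X x₁ x₂ hX ξ hξ η hη
      have hm := pt_mem_RectH hξ hη
      have dX := d_xi (hX.an _ hm).differentiableAt
      have df := d_xi (hf X x₁ x₂ hX _ hm).differentiableAt
      have dh := d_xi (hh X x₁ x₂ hX _ hm).differentiableAt
      have dH := d_H hH (g := fun ξ => X (pt ξ η)) (t := ξ) (hX.ne _ hm) dX
      have hd := d_re ((((hasDerivAt_const ξ ((a η : ℝ) : ℂ)).mul dH).mul df).mul (d_conj dh))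
      refine (hd.congr_deriv ?_)
      congr 1
      simp only [Pi.mul_apply]
      unfold FA1
      ring)
    (fun X x₁ x₂ hx hX hP ξ hξ η hη =>
      (abs_re_le_norm _).trans (hC X x₁ x₂ hx hX hP ξ hξ η hη))
  -- the direction of `η`
  have N2 := isNullW_eta (P := P) (F := fun X ξ η => (FA a H f h X ξ η).im)
    (F₂ := fun X ξ η => (FA2 a a₁ H Hx Hy f h X ξ η).im)
    (fun X x₁ x₂ hX => Complex.continuous_im.comp_continuousOn (cFA X x₁ x₂ hX))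
    (fun X x₁ x₂ hX => Complex.continuous_im.comp_continuousOn (cFA2 X x₁ x₂ hX))
    (by
      intro X x₁ x₂ hX ξ hξ η hη
      have hm := pt_mem_RectH hξ hη
      have dX := d_eta (hX.an _ hm).differentiableAt
      have df := d_eta (hf X x₁ x₂ hX _ hm).differentiableAt
      have dh := d_eta (hh X x₁ x₂ hX _ hm).differentiableAt
      have dH := d_H hH (g := fun η => X (pt ξ η)) (t := η) (hX.ne _ hm) dX
      have hd := d_im ((((g1 η).ofReal_comp.mul dH).mul df).mul (d_conj dh))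
      refine (hd.congr_deriv ?_)
      congr 1
      simp only [Pi.mul_apply]
      unfold FA2
      ring)
    (fun X ξ => by
      unfold FA
      rw [f1]
      simp)
    (fun X x₁ x₂ hx hX hP ξ hξ η hη =>
      (abs_im_le_norm _).trans (hC X x₁ x₂ hx hX hP ξ hξ η hη))
  refine (N1.add (N2.const_mul (-1))).congr (fun X ξ η => FA_sum a a₁ H Hx Hy f h X ξ η)
    fun X ξ => by ring

/-- the integrands of the families with one analytic factor -/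
theorem NF_eq_NG (a a₁ : ℝ → ℝ) (H Hx Hy : ℂ → ℂ) (f : (ℂ → ℂ) → ℂ → ℂ) (X : ℂ → ℂ) (ξ η : ℝ) :
    NF a a₁ H Hx Hy f (fun _ _ => 1) X ξ η =
      NG a a₁ H Hx Hy (X (pt ξ η)) (deriv X (pt ξ η)) (f X (pt ξ η)) η := by
  have e : deriv (fun _ : ℂ => (1:ℂ)) (pt ξ η) = 0 := by simp
  unfold NF NG
  rw [e]
  generalize H (X (pt ξ η)) = h0
  generalize Hx (X (pt ξ η)) = hx
  generalize Hy (X (pt ξ η)) = hy
  generalize deriv X (pt ξ η) = Y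
  generalize f X (pt ξ η) = f0
  simp only [mul_re, mul_im, add_re, add_im, conj_re, conj_im, ofReal_re, ofReal_im, I_re, I_im,
    re_ofNat, im_ofNat, map_one, map_zero, one_re, one_im, zero_re, zero_im]
  ring

theorem anF_q (j : ℕ) : AnF (fun X ω => (deriv X ω / X ω) ^ j) := fun _ _ _ hX ω hω =>
  ((hX.an.deriv ω hω).div (hX.an ω hω) (hX.ne ω hω)).pow j

theorem anF_one : AnF (fun _ _ => 1) := fun _ _ _ _ _ _ => analyticAt_const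

/-- the family with one analytic factor -/
theorem isNullW_G {H Hx Hy : ℂ → ℂ} (hH : C1c H Hx Hy) {f : (ℂ → ℂ) → ℂ → ℂ} (hf : AnF f)
    {a a₁ : ℝ → ℝ} (g1 : ∀ η, HasDerivAt a (a₁ η) η) (g1c : Continuous a₁)
    (f1 : a 0 = 0) {C : ℝ}
    (hC : ∀ (X : ℂ → ℂ) (x₁ x₂ : ℝ), x₁ ≤ x₂ → NiceH X x₁ x₂ → P X x₁ x₂ →
      ∀ ξ ∈ Icc x₁ x₂, ∀ η ∈ Icc (0:ℝ) (π / 2),
        |a η| * (‖H (X (pt ξ η))‖ * ‖f X (pt ξ η)‖) ≤
          C * Real.sin η * (1 + ‖X (pt ξ η) - 1‖ ^ 2)) :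
    IsNullW P (fun X ξ η => NG a a₁ H Hx Hy (X (pt ξ η)) (deriv X (pt ξ η)) (f X (pt ξ η)) η)
      (fun X ξ => - (a (π / 2) * (H (X (pt ξ (π / 2))) * f X (pt ξ (π / 2))).im)) := by
  refine (isNullW_A (P := P) hH hf anF_one g1 g1c f1 (C := C) ?_).congr
    (fun X ξ η => NF_eq_NG a a₁ H Hx Hy f X ξ η) ?_
  · intro X x₁ x₂ hx hX hP ξ hξ η hη
    have h := hC X x₁ x₂ hx hX hP ξ hξ η hη
    unfold FA
    rw [norm_mul, norm_mul, norm_mul, norm_real, Real.norm_eq_abs, map_one, norm_one, mul_one,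
      mul_assoc]
    exact h
  · intro X ξ
    unfold FA
    rw [map_one, mul_one, mul_assoc, im_ofReal_mul]

end Pool.Agent.Helper84.CK

end

section

namespace Pool.Agent.Helper52.EK
end Pool.Agent.Helper52.EK
namespace Pool.Agent.Helper69.EK3
end Pool.Agent.Helper69.EK3
namespace Pool.Agent.Helper69.EK7
end Pool.Agent.Helper69.EK7

set_option autoImplicit false

open Complex MeasureTheory Metric Set

open scoped Real ComplexConjugate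

namespace Pool.Agent.Helper84.CK

open Pool.Agent.Helper52.EK Pool.Agent.Helper69.EK3 Pool.Agent.Helper69.EK7

/-- a weight on the strip with its partial derivatives; `K` bounds its variation -/
structure WtF (x₁ x₂ K : ℝ) (Ω Ω₁ Ω₂ : ℝ → ℝ → ℝ) : Prop where
  c0 : CH x₁ x₂ π Ω
  c1 : CH x₁ x₂ π Ω₁
  c2 : CH x₁ x₂ π Ω₂
  d1 : ∀ ξ ∈ Icc x₁ x₂, ∀ η ∈ Icc (0:ℝ) π, HasDerivAt (fun t => Ω t η) (Ω₁ ξ η) ξ
  d2 : ∀ ξ ∈ Icc x₁ x₂, ∀ η ∈ Icc (0:ℝ) π, HasDerivAt (fun t => Ω ξ t) (Ω₂ ξ η) η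
  e1 : ∀ η ∈ Icc (0:ℝ) π, Ω x₁ η = 0
  e2 : ∀ η ∈ Icc (0:ℝ) π, Ω x₂ η = 0
  b01 : ∀ ξ ∈ Icc x₁ x₂, ∀ η ∈ Icc (0:ℝ) π, 0 ≤ Ω ξ η ∧ Ω ξ η ≤ 1
  g1 : ∀ ξ ∈ Icc x₁ x₂, ∀ η ∈ Icc (0:ℝ) π, |Ω₁ ξ η| * Real.sin η ≤ K
  g2 : ∀ ξ ∈ Icc x₁ x₂, ∀ η ∈ Icc (0:ℝ) π, |Ω₂ ξ η| * Real.sin η ≤ K

theorem half_sub {η : ℝ} (hη : η ∈ Icc (0:ℝ) (π / 2)) : η ∈ Icc (0:ℝ) π :=
  ⟨hη.1, hη.2.trans (by (clear * -; linarith only [Real.pi_pos]))⟩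

theorem half_mir {η : ℝ} (hη : η ∈ Icc (0:ℝ) (π / 2)) : π - η ∈ Icc (0:ℝ) π :=
  ⟨by (clear * - hη; linarith [hη.2, Real.pi_pos]), by (clear * - hη; linarith [hη.1])⟩

/-- the lower half -/
theorem WtF.half {x₁ x₂ K : ℝ} {Ω Ω₁ Ω₂ : ℝ → ℝ → ℝ} (h : WtF x₁ x₂ K Ω Ω₁ Ω₂) :
    Wt x₁ x₂ Ω Ω₁ Ω₂ (fun _ _ => K) := by
  have hs : Icc x₁ x₂ ×ˢ Icc (0:ℝ) (π / 2) ⊆ Icc x₁ x₂ ×ˢ Icc 0 π :=
    prod_mono subset_rfl fun _ hη => half_sub hη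
  exact ⟨h.c0.mono hs, h.c1.mono hs, h.c2.mono hs, continuousOn_const,
    fun ξ hξ η hη => h.d1 ξ hξ η (half_sub hη), fun ξ hξ η hη => h.d2 ξ hξ η (half_sub hη),
    fun η hη => h.e1 η (half_sub hη), fun η hη => h.e2 η (half_sub hη),
    fun ξ hξ η hη => h.b01 ξ hξ η (half_sub hη), fun ξ hξ η hη => h.g1 ξ hξ η (half_sub hη),
    fun ξ hξ η hη => h.g2 ξ hξ η (half_sub hη)⟩

/-- the upper half, reflected -/
theorem WtF.mir {x₁ x₂ K : ℝ} {Ω Ω₁ Ω₂ : ℝ → ℝ → ℝ} (h : WtF x₁ x₂ K Ω Ω₁ Ω₂) :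
    Wt x₁ x₂ (fun ξ η => Ω ξ (π - η)) (fun ξ η => Ω₁ ξ (π - η)) (fun ξ η => -Ω₂ ξ (π - η))
      (fun _ _ => K) := by
  have hc : ∀ {F : ℝ → ℝ → ℝ}, CH x₁ x₂ π F →
      CH x₁ x₂ (π / 2) (fun ξ η => F ξ (π - η)) := fun hF =>
    ContinuousOn.comp (f := fun p : ℝ × ℝ => (p.1, π - p.2)) hF (by fun_prop)
      fun p hp => ⟨hp.1, half_mir hp.2⟩
  refine ⟨hc h.c0, hc h.c1, (hc h.c2).neg, continuousOn_const,
    fun ξ hξ η hη => h.d1 ξ hξ _ (half_mir hη), fun ξ hξ η hη => ?_,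
    fun η hη => h.e1 _ (half_mir hη), fun η hη => h.e2 _ (half_mir hη),
    fun ξ hξ η hη => h.b01 ξ hξ _ (half_mir hη), fun ξ hξ η hη => ?_,
    fun ξ hξ η hη => ?_⟩
  · have h1 := (h.d2 ξ hξ _ (half_mir hη)).comp_const_sub π η
    exact h1
  · have := h.g1 ξ hξ _ (half_mir hη)
    rwa [Real.sin_pi_sub] at this
  · have := h.g2 ξ hξ _ (half_mir hη)
    rw [Real.sin_pi_sub] at this
    simpa only [abs_neg] using this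

end Pool.Agent.Helper84.CK

end
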