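import Pool.Agent.Helper14.CMF.T14
import Pool.Agent.Helper14.CMF.T08
import Pool.Agent.Helper14.CMF.T13
import Pool.Agent.Helper14.CMF.T11
import Pool.Agent.Helper14.CMF.T10
import Pool.Agent.Helper14.CMF.T17
import Pool.Agent.Helper14.CMF.T12

set_option linter.all false

section

namespace Pool.Agent.Helper39.Area
end Pool.Agent.Helper39.Area
namespace Pool.Agent.Helper52.EK
end Pool.Agent.Helper52.EK
namespace Pool.Agent.Helper9.EK
end Pool.Agent.Helper9.EK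

set_option autoImplicit false

open Complex MeasureTheory Metric Set

open scoped Real ComplexConjugate

namespace Pool.Agent.Helper61.EK

open Pool.Agent.Helper39.Area Pool.Agent.Helper52.EK Pool.Agent.Helper9.EK

theorem entropyStmt : EntropyStmt := Pool.Agent.Helper5.EK.entropy

theorem kfContStmt : KfContStmt :=
  fun hw _ h1 h2 => Pool.Agent.Helper26.EK.Kf_cont hw h1 h2

end Pool.Agent.Helper61.EK

end

section

namespace Pool.Agent.Helper39.Area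
end Pool.Agent.Helper39.Area
namespace Pool.Agent.Helper52.EK
end Pool.Agent.Helper52.EK
namespace Pool.Agent.Helper9.EK
end Pool.Agent.Helper9.EK

set_option autoImplicit false

open Complex MeasureTheory Metric Set

open scoped Real ComplexConjugate

namespace Pool.Agent.Helper69.EK7

open Pool.Agent.Helper39.Area Pool.Agent.Helper52.EK

/-- admissible functions of the two invariants -/
structure GLip2 (G : ℂ → ℂ → ℂ) (L : ℝ) : Prop where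
  le_one : ∀ m t, ‖G m t‖ ≤ 1
  lip : ∀ m m' t, ‖G m t - G m' t‖ ≤ L * ‖m - m'‖
  rot : ∀ u m t : ℂ, ‖u‖ = 1 → ‖G (u * m) (u ^ 2 * t) - G m t‖ ≤ L * ‖u - 1‖
  cont : Continuous (fun p : ℂ × ℂ => G p.1 p.2)

/-- the field -/
noncomputable def wf2 (G : ℂ → ℂ → ℂ) (β : ℂ → ℂ) (z : ℂ) : ℂ :=
  conj (z / ‖z‖) * G (mrad β z) (srad β z)

/-- the integrand `‖G m t - e₀‖²` -/
noncomputable def TG2 (G : ℂ → ℂ → ℂ) (X Y Z : ℂ) (s c : ℝ) : ℝ :=
  ‖G (mX X Y s c) (tX X Y Z s c) - e0 s c‖ ^ 2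

theorem GLip2.nonneg {G : ℂ → ℂ → ℂ} {L : ℝ} (hG : GLip2 G L) : 0 ≤ L := by
  have h := hG.lip 1 0 0
  have h2 : L * ‖(1:ℂ) - 0‖ = L := by simp
  rw [h2] at h
  exact (norm_nonneg _).trans h

theorem srad_cont {β : ℂ → ℂ} (h : Ext β) :
    ContinuousOn (srad β) {z | 0 < ‖z‖ ∧ ‖z‖ < 1} := by
  have hs : {z : ℂ | 0 < ‖z‖ ∧ ‖z‖ < 1} ⊆ ball 0 1 := by
    rintro z ⟨_, hz⟩
    rw [mem_ball, dist_zero_right]
    exact hz
  have hd := N_diffOn h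
  have h1 : ContinuousOn (N β) {z : ℂ | 0 < ‖z‖ ∧ ‖z‖ < 1} := hd.continuousOn.mono hs
  have h2 : ContinuousOn (deriv (N β)) {z : ℂ | 0 < ‖z‖ ∧ ‖z‖ < 1} :=
    (hd.deriv isOpen_ball).continuousOn.mono hs
  have h2' : ContinuousOn (deriv (deriv (N β))) {z : ℂ | 0 < ‖z‖ ∧ ‖z‖ < 1} :=
    ((hd.deriv isOpen_ball).deriv isOpen_ball).continuousOn.mono hs
  have h3 : ∀ z ∈ {z : ℂ | 0 < ‖z‖ ∧ ‖z‖ < 1}, N β z ≠ 0 := fun z hz => h.ne z (hs hz)
  have h4 : ContinuousOn (fun z : ℂ => z / (‖z‖ : ℂ)) {z : ℂ | 0 < ‖z‖ ∧ ‖z‖ < 1} := by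
    apply ContinuousOn.div continuousOn_id
    · exact (Complex.continuous_ofReal.comp continuous_norm).continuousOn
    · rintro z ⟨hz, _⟩
      exact Complex.ofReal_ne_zero.mpr hz.ne'
  have h5 : ContinuousOn (fun z : ℂ => deriv (N β) z / N β z) {z : ℂ | 0 < ‖z‖ ∧ ‖z‖ < 1} :=
    h2.div h1 h3
  have h6 : ContinuousOn (fun z : ℂ => 2 / z) {z : ℂ | 0 < ‖z‖ ∧ ‖z‖ < 1} := by
    apply ContinuousOn.div continuousOn_const continuousOn_id
    rintro z ⟨hz, _⟩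
    exact norm_pos_iff.1 hz
  have h7 : ContinuousOn (Sc β) {z : ℂ | 0 < ‖z‖ ∧ ‖z‖ < 1} := by
    unfold Sc
    exact ((h2'.div h1 h3).sub (continuousOn_const.mul (h5.pow 2))).add (h6.mul h5)
  have h8 : ContinuousOn (fun z : ℂ => ((1 : ℂ) - (‖z‖ : ℂ) ^ 2) ^ 2)
      {z : ℂ | 0 < ‖z‖ ∧ ‖z‖ < 1} :=
    ((continuous_const.sub ((Complex.continuous_ofReal.comp continuous_norm).pow 2)).pow
      2).continuousOn
  unfold srad
  exact ((h4.pow 2).mul h8).mul h7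

theorem wf2_cont {G : ℂ → ℂ → ℂ} {L : ℝ} (hG : GLip2 G L) {β : ℂ → ℂ} (h : Ext β) :
    ContinuousOn (wf2 G β) {z | 0 < ‖z‖ ∧ ‖z‖ < 1} := by
  have h4 : ContinuousOn (fun z : ℂ => conj (z / (‖z‖ : ℂ))) {z : ℂ | 0 < ‖z‖ ∧ ‖z‖ < 1} := by
    apply Complex.continuous_conj.comp_continuousOn
    apply ContinuousOn.div continuousOn_id
    · exact (Complex.continuous_ofReal.comp continuous_norm).continuousOn
    · rintro z ⟨hz, _⟩
      exact Complex.ofReal_ne_zero.mpr hz.ne'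
  exact h4.mul (hG.cont.comp_continuousOn
    ((Pool.Agent.Helper70.EK.mrad_cont h).prodMk (srad_cont h)))

theorem wf2_le_one {G : ℂ → ℂ → ℂ} {L : ℝ} (hG : GLip2 G L) (β : ℂ → ℂ) (z : ℂ) :
    ‖wf2 G β z‖ ≤ 1 := by
  unfold wf2
  rw [norm_mul, RCLike.norm_conj, norm_div, Complex.norm_real, norm_norm]
  have h1 : ‖z‖ / ‖z‖ ≤ 1 := div_self_le_one _
  have h2 := hG.le_one (mrad β z) (srad β z)
  have h3 : 0 ≤ ‖z‖ / ‖z‖ := by (clear * -; positivity)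
  nlinarith only [h1, h2, h3]

open Pool.Agent.Helper9.EK

end Pool.Agent.Helper69.EK7

end

section

/-!
# Project EK7: radial retractions
-/

set_option autoImplicit false

open Complex Metric Set Filter Topology

open scoped Real ComplexConjugate

namespace Pool.Agent.Helper20.EK7

/-- radial retraction to the closed unit disc -/
noncomputable def prj (w : ℂ) : ℂ := w / ((max 1 ‖w‖ : ℝ) : ℂ)

theorem prj_of_le {w : ℂ} (h : ‖w‖ ≤ 1) : prj w = w := by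
  unfold prj
  rw [max_eq_left h, ofReal_one, div_one]

theorem one_le_mx (w : ℂ) : 1 ≤ max 1 ‖w‖ := le_max_left _ _

theorem mx_ne (w : ℂ) : ((max 1 ‖w‖ : ℝ) : ℂ) ≠ 0 :=
  Complex.ofReal_ne_zero.2 (zero_lt_one.trans_le (one_le_mx w)).ne'

theorem norm_prj_le (w : ℂ) : ‖prj w‖ ≤ 1 := by
  have h := one_le_mx w
  unfold prj
  rw [norm_div, Complex.norm_real, Real.norm_of_nonneg (by (clear * - h; linarith only [h])), div_le_one (by (clear * - h; linarith only [h]))]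
  exact le_max_right _ _

theorem prj_lip (w w' : ℂ) : ‖prj w - prj w'‖ ≤ 2 * ‖w - w'‖ := by
  have h := one_le_mx w
  have e : prj w - prj w' = ((w - w') + prj w' * (((max 1 ‖w'‖ - max 1 ‖w‖ : ℝ)) : ℂ)) /
      ((max 1 ‖w‖ : ℝ) : ℂ) := by
    have h1 := mx_ne w
    have h2 := mx_ne w'
    unfold prj
    push_cast at h1 h2 ⊢
    field_simp
    ring
  rw [e, norm_div, Complex.norm_real, Real.norm_of_nonneg (by (clear * - h; linarith only [h])),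
    div_le_iff₀ (by linarith only [h])]
  have h3 : |max 1 ‖w'‖ - max 1 ‖w‖| ≤ ‖w - w'‖ := by
    rw [max_comm 1, max_comm 1]
    refine (abs_max_sub_max_le_abs _ _ _).trans ?_
    rw [norm_sub_rev]
    exact abs_norm_sub_norm_le _ _
  have h4 : ‖(w - w') + prj w' * (((max 1 ‖w'‖ - max 1 ‖w‖ : ℝ)) : ℂ)‖ ≤
      ‖w - w'‖ + 1 * ‖w - w'‖ := by
    refine (norm_add_le _ _).trans ?_
    rw [norm_mul, Complex.norm_real, Real.norm_eq_abs]
    have := mul_le_mul (norm_prj_le w') h3 (abs_nonneg _) zero_le_one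
    (clear * - this; linarith only [this])
  nlinarith only [norm_nonneg (w - w'), h, h4]

theorem prj_conj (w : ℂ) : prj (conj w) = conj (prj w) := by
  unfold prj
  rw [norm_conj, map_div₀, conj_ofReal]

/-- the retraction does not increase the distance to points of the disc -/
theorem prj_dist {w e : ℂ} (he : ‖e‖ ≤ 1) : ‖prj w - e‖ ≤ ‖w - e‖ := by
  rcases le_or_gt ‖w‖ 1 with h | h
  · rw [prj_of_le h]
  · have hn : 0 < ‖w‖ := by (clear * - h; linarith only [h])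
    have e1 : prj w = (((‖w‖)⁻¹ : ℝ) : ℂ) * w := by
      unfold prj
      rw [max_eq_right h.le, div_eq_inv_mul, ofReal_inv]
    have h1 : ‖w - e‖ ^ 2 = ‖w‖ ^ 2 - 2 * (w.re * e.re + w.im * e.im) + ‖e‖ ^ 2 := by
      rw [← normSq_eq_norm_sq, ← normSq_eq_norm_sq, ← normSq_eq_norm_sq, normSq_apply,
        normSq_apply, normSq_apply]
      simp only [sub_re, sub_im]
      ring
    have h2 : ‖prj w - e‖ ^ 2 = 1 - 2 * (‖w‖)⁻¹ * (w.re * e.re + w.im * e.im) + ‖e‖ ^ 2 := by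
      have h3 : ‖prj w‖ ^ 2 = 1 := by
        rw [e1, norm_mul, Complex.norm_real, Real.norm_of_nonneg (by (clear * - h; positivity)),
          inv_mul_cancel₀ hn.ne', one_pow]
      rw [← h3, ← normSq_eq_norm_sq, ← normSq_eq_norm_sq, ← normSq_eq_norm_sq, normSq_apply,
        normSq_apply, normSq_apply, e1]
      simp only [sub_re, sub_im, mul_re, mul_im, ofReal_re, ofReal_im]
      ring
    have h4 : w.re * e.re + w.im * e.im ≤ ‖w‖ := by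
      have h5 : (w * conj e).re ≤ ‖w * conj e‖ := Complex.re_le_norm _
      rw [norm_mul, norm_conj] at h5
      simp only [mul_re, conj_re, conj_im] at h5
      have h6 := mul_le_mul_of_nonneg_left he hn.le
      (clear * - h5 h6; linarith only [h5, h6])
    have h7 : ‖prj w - e‖ ^ 2 ≤ ‖w - e‖ ^ 2 := by
      rw [h1, h2]
      have h8 : (‖w‖)⁻¹ ≤ 1 := inv_le_one_of_one_le₀ h.le
      have h9 : ‖w‖ * (‖w‖)⁻¹ = 1 := mul_inv_cancel₀ hn.ne'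
      have h10 := mul_le_mul_of_nonneg_left h4 (sub_nonneg.2 h8)
      nlinarith only [h, h9, h10]
    exact le_of_sq_le_sq h7 (norm_nonneg _)

theorem prj_dist_sq {w e : ℂ} (he : ‖e‖ ≤ 1) : ‖prj w - e‖ ^ 2 ≤ ‖w - e‖ ^ 2 :=
  pow_le_pow_left₀ (norm_nonneg _) (prj_dist he) 2

end Pool.Agent.Helper20.EK7

end

section

namespace Pool.Agent.Helper52.EK
end Pool.Agent.Helper52.EK
namespace Pool.Agent.Helper69.EK3
end Pool.Agent.Helper69.EK3
namespace Pool.Agent.Helper69.EK7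
end Pool.Agent.Helper69.EK7

/-!
# Project EK7: fields `G m t` given by two pieces, inside and outside the unit circle of `m`

`InLip A L`, `OutLip B L`: the conditions on the two pieces (closed under sums);
`glue2`: gluing, with the radial retraction to the unit disc.
-/

set_option autoImplicit false

open Complex Metric Set Filter Topology

open scoped Real ComplexConjugate NNReal

namespace Pool.Agent.Helper20.EK7

open Pool.Agent.Helper52.EK Pool.Agent.Helper69.EK3 Pool.Agent.Helper69.EK7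

/-- conditions on the inside piece -/
structure InLip (A : ℂ → ℂ → ℂ) (L : ℝ) : Prop where
  nonneg : 0 ≤ L
  lip : ∀ m m' t t' : ℂ, ‖m‖ ≤ 1 → ‖m'‖ ≤ 1 → ‖A m t - A m' t'‖ ≤ L * (‖m - m'‖ + ‖t - t'‖)
  rot : ∀ u m t : ℂ, ‖u‖ = 1 → ‖m‖ ≤ 1 → ‖A (u * m) (u ^ 2 * t) - A m t‖ ≤ L * ‖u - 1‖

/-- conditions on the outside piece -/
structure OutLip (B : ℂ → ℂ → ℂ) (L : ℝ) : Prop where
  nonneg : 0 ≤ L
  lip : ∀ m m' t t' : ℂ, 1 ≤ ‖m‖ → 1 ≤ ‖m'‖ → ‖B m t - B m' t'‖ ≤ L * (‖m - m'‖ + ‖t - t'‖)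
  rot : ∀ u m t : ℂ, ‖u‖ = 1 → 1 ≤ ‖m‖ → ‖B (u * m) (u ^ 2 * t) - B m t‖ ≤ L * ‖u - 1‖

theorem InLip.mono {A : ℂ → ℂ → ℂ} {L L' : ℝ} (h : InLip A L) (hL : L ≤ L') : InLip A L' :=
  ⟨h.nonneg.trans hL,
    fun m m' t t' h1 h2 => (h.lip m m' t t' h1 h2).trans
      (mul_le_mul_of_nonneg_right hL (by (clear * -; positivity))),
    fun u m t h1 h2 => (h.rot u m t h1 h2).trans
      (mul_le_mul_of_nonneg_right hL (norm_nonneg _))⟩

theorem OutLip.mono {B : ℂ → ℂ → ℂ} {L L' : ℝ} (h : OutLip B L) (hL : L ≤ L') : OutLip B L' :=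
  ⟨h.nonneg.trans hL,
    fun m m' t t' h1 h2 => (h.lip m m' t t' h1 h2).trans
      (mul_le_mul_of_nonneg_right hL (by (clear * -; positivity))),
    fun u m t h1 h2 => (h.rot u m t h1 h2).trans
      (mul_le_mul_of_nonneg_right hL (norm_nonneg _))⟩

/-- **gluing** of two pieces along the unit circle -/
theorem glue2 {A B : ℂ → ℂ → ℂ} {L L' : ℝ} (hA : InLip A L) (hB : OutLip B L')
    (hAB : ∀ m t : ℂ, ‖m‖ = 1 → A m t = B m t) :
    GLip2 (fun m t => prj (if ‖m‖ ≤ 1 then A m t else B m t)) (2 * max L L') := by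
  obtain ⟨M, hM⟩ : ∃ M, M = max L L' := ⟨_, rfl⟩
  have hA' : InLip A M := hA.mono (by rw [hM]; exact le_max_left _ _)
  have hB' : OutLip B M := hB.mono (by rw [hM]; exact le_max_right _ _)
  rw [← hM]
  have key : ∀ m m' t : ℂ, ‖m‖ ≤ 1 → 1 ≤ ‖m'‖ → ‖A m t - B m' t‖ ≤ M * ‖m - m'‖ := by
    intro m m' t h h'
    obtain ⟨p, hp, he⟩ := exists_cross h h'
    have e : A m t - B m' t = (A m t - A p t) + (B p t - B m' t) := by rw [hAB p t hp]; ring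
    rw [e]
    refine (norm_add_le _ _).trans ?_
    have h1 := hA'.lip m p t t h hp.le
    have h2 := hB'.lip p m' t t hp.ge h'
    rw [sub_self, norm_zero, add_zero] at h1 h2
    rw [← he, mul_add]
    linarith only [h1, h2]
  -- the inner function
  set F : ℂ → ℂ → ℂ := fun m t => if ‖m‖ ≤ 1 then A m t else B m t with hF
  have lm : ∀ m m' t : ℂ, ‖F m t - F m' t‖ ≤ M * ‖m - m'‖ := by
    intro m m' t
    simp only [hF]
    split_ifs with h h' h'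
    · have h1 := hA'.lip m m' t t h h'
      rwa [sub_self, norm_zero, add_zero] at h1
    · exact key m m' t h (le_of_lt (not_le.mp h'))
    · rw [norm_sub_rev, norm_sub_rev m]
      exact key m' m t h' (le_of_lt (not_le.mp h))
    · have h1 := hB'.lip m m' t t (le_of_lt (not_le.mp h)) (le_of_lt (not_le.mp h'))
      rwa [sub_self, norm_zero, add_zero] at h1
  have lt : ∀ m t t' : ℂ, ‖F m t - F m t'‖ ≤ M * ‖t - t'‖ := by
    intro m t t'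
    simp only [hF]
    split_ifs with h
    · have h1 := hA'.lip m m t t' h h
      rwa [sub_self, norm_zero, zero_add] at h1
    · have h1 := hB'.lip m m t t' (le_of_lt (not_le.mp h)) (le_of_lt (not_le.mp h))
      rwa [sub_self, norm_zero, zero_add] at h1
  have lr : ∀ u m t : ℂ, ‖u‖ = 1 → ‖F (u * m) (u ^ 2 * t) - F m t‖ ≤ M * ‖u - 1‖ := by
    intro u m t hu
    simp only [hF]
    rw [norm_mul, hu, one_mul]
    split_ifs with h
    · exact hA'.rot u m t hu h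
    · exact hB'.rot u m t hu (le_of_lt (not_le.mp h))
  have hM0 := hA'.nonneg
  change GLip2 (fun m t => prj (F m t)) (2 * M)
  refine ⟨fun m t => norm_prj_le _, fun m m' t => ?_, fun u m t hu => ?_, ?_⟩
  · have := (prj_lip (F m t) (F m' t)).trans
      (mul_le_mul_of_nonneg_left (lm m m' t) (by norm_num))
    linarith only [this]
  · have := (prj_lip (F (u * m) (u ^ 2 * t)) (F m t)).trans
      (mul_le_mul_of_nonneg_left (lr u m t hu) (by norm_num))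
    linarith
  · have hlip : ∀ p q : ℂ × ℂ, dist (prj (F p.1 p.2)) (prj (F q.1 q.2)) ≤
        (4 * M) * dist p q := by
      intro p q
      rw [dist_eq_norm]
      have h1 := prj_lip (F p.1 p.2) (F q.1 q.2)
      have e : F p.1 p.2 - F q.1 q.2 = (F p.1 p.2 - F q.1 p.2) + (F q.1 p.2 - F q.1 q.2) := by
        ring
      have h2 := norm_add_le (F p.1 p.2 - F q.1 p.2) (F q.1 p.2 - F q.1 q.2)
      rw [← e] at h2
      have h3 := lm p.1 q.1 p.2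
      have h4 := lt q.1 p.2 q.2
      have h5 : ‖p.1 - q.1‖ ≤ dist p q := by
        rw [← dist_eq_norm, Prod.dist_eq]
        exact le_max_left _ _
      have h6 : ‖p.2 - q.2‖ ≤ dist p q := by
        rw [← dist_eq_norm, Prod.dist_eq]
        exact le_max_right _ _
      have h7 := mul_le_mul_of_nonneg_left h5 hM0
      have h8 := mul_le_mul_of_nonneg_left h6 hM0
      (clear * - h1 h2 h3 h4 h7 h8; linarith only [h1, h2, h3, h4, h7, h8])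
    exact (LipschitzWith.of_dist_le_mul (K := ⟨4 * M, by (clear * - hM0; positivity)⟩) hlip).continuous

section pieces

variable {b : ℂ → ℂ → ℂ} {K : ℝ≥0}

end pieces

end Pool.Agent.Helper20.EK7

end

section

namespace Pool.Agent.Helper52.EK
end Pool.Agent.Helper52.EK
namespace Pool.Agent.Helper69.EK3
end Pool.Agent.Helper69.EK3
namespace Pool.Agent.Helper69.EK7
end Pool.Agent.Helper69.EK7

/-!
# Project EK7: the one-jet pieces `m + (1 - |m|²)/ρ (a m + b)` without the condition `|G| ≤ 1`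
-/

set_option autoImplicit false

open Complex Metric Set Filter Topology

open scoped Real ComplexConjugate NNReal

namespace Pool.Agent.Helper20.EK7

open Pool.Agent.Helper52.EK Pool.Agent.Helper69.EK3 Pool.Agent.Helper69.EK7

/-- conditions on the inside denominator -/
structure InL (p0 p1 p2 : ℝ) : Prop where
  pos : 0 < p0 + p1 - |2 * p1|
  pos' : 0 < p0 + p1 - |2 * p1| + (p1 + p2)

/-- conditions on the outside denominator -/
structure OutL (a p0 p1 p2 : ℝ) : Prop where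
  eq : p1 + p2 = a
  pos : 0 < p0 + p1 - |p1|
  pos' : 0 < p1 + p2 - |p1|

theorem InL.low {p0 p1 p2 : ℝ} (h : InL p0 p1 p2) :
    ∃ c : ℝ, 0 < c ∧ ∀ m : ℂ, ‖m‖ ≤ 1 → c * (1 + ‖m‖ ^ 2) ≤ rF p0 p1 p2 m := by
  have k1 := h.pos
  have k2 := h.pos'
  refine ⟨min (p0 + p1 - |2 * p1|) (p0 + p1 - |2 * p1| + (p1 + p2)) / 2,
    by have := lt_min k1 k2; (clear * - this; linarith), fun m hm => ?_⟩
  have hx := (Complex.abs_re_le_norm m).trans hm
  have h0 : 0 ≤ ‖m‖ ^ 2 := sq_nonneg _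
  have h1 : ‖m‖ ^ 2 ≤ 1 := by (clear * - hm; nlinarith only [norm_nonneg m, hm])
  have h2 : |2 * p1 * m.re| ≤ |2 * p1| := by
    rw [abs_mul]
    have := mul_le_mul_of_nonneg_left hx (abs_nonneg (2 * p1))
    (clear * - this; linarith)
  have h3 := (abs_le.1 h2).1
  have m1 := min_le_left (p0 + p1 - |2 * p1|) (p0 + p1 - |2 * p1| + (p1 + p2))
  have m2 := min_le_right (p0 + p1 - |2 * p1|) (p0 + p1 - |2 * p1| + (p1 + p2))
  have m3 := lt_min k1 k2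
  set d := min (p0 + p1 - |2 * p1|) (p0 + p1 - |2 * p1| + (p1 + p2))
  rw [rF_eq]
  have h4 : d ≤ (p0 + p1 - |2 * p1|) + (p1 + p2) * ‖m‖ ^ 2 := by
    (clear * - m2 h1 m1; nlinarith only [h1, m1, m2])
  nlinarith only [h1, h3, m1, m2, m3]

theorem OutL.low {a p0 p1 p2 : ℝ} (h : OutL a p0 p1 p2) :
    ∃ c : ℝ, 0 < c ∧ ∀ m : ℂ, c * (1 + ‖m‖ ^ 2) ≤ rF p0 p1 p2 m := by
  have k1 := h.pos
  have k2 := h.pos'
  refine ⟨min (p0 + p1 - |p1|) (p1 + p2 - |p1|), lt_min k1 k2, fun m => ?_⟩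
  have hx := Complex.abs_re_le_norm m
  have h0 : 0 ≤ ‖m‖ ^ 2 := sq_nonneg _
  have h1 : |m.re| ≤ (1 + ‖m‖ ^ 2) / 2 := by linarith only [sq_nonneg (‖m‖ - 1), hx]
  have h2 : |2 * p1 * m.re| ≤ |p1| * (1 + ‖m‖ ^ 2) := by
    rw [abs_mul, abs_mul, abs_two]
    have := mul_le_mul_of_nonneg_left h1 (abs_nonneg p1)
    (clear * - this; linarith only [this])
  have h3 := (abs_le.1 h2).1
  have m1 := min_le_left (p0 + p1 - |p1|) (p1 + p2 - |p1|)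
  have m2 := min_le_right (p0 + p1 - |p1|) (p1 + p2 - |p1|)
  rw [rF_eq]
  have m3 := mul_le_mul_of_nonneg_right m2 h0
  linarith only [h3, m1, m3]

/-- the inside piece is Lipschitz -/
theorem InL.lipF {p0 p1 p2 : ℝ} (h : InL p0 p1 p2) (a b : ℝ) : ∃ C : ℝ, 0 ≤ C ∧
    ∀ m m' : ℂ, ‖m‖ ≤ 1 → ‖m'‖ ≤ 1 →
      ‖Fq a b p0 p1 p2 m - Fq a b p0 p1 p2 m'‖ ≤ C * ‖m - m'‖ := by
  obtain ⟨c, hc, hl⟩ := h.low
  obtain ⟨R, hR⟩ : ∃ R : ℝ, R = |p0 + p1| + |2 * p1| + |p1 + p2| := ⟨_, rfl⟩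
  obtain ⟨Cr, hCr⟩ : ∃ Cr : ℝ, Cr = |2 * p1| + |p1 + p2| := ⟨_, rfl⟩
  have hCr0 : 0 ≤ Cr := by rw [hCr]; (clear * -; positivity)
  have hR0 : 0 ≤ R := by rw [hR]; (clear * -; positivity)
  obtain ⟨CN, hCN⟩ : ∃ CN : ℝ, CN = R + Cr + |a| + (|a| + |b|) := ⟨_, rfl⟩
  have hCN0 : 0 ≤ CN := by rw [hCN]; (clear * - hR0 hCr0; positivity)
  obtain ⟨Bd, hBd⟩ : ∃ Bd : ℝ, Bd = 1 + (|a| + |b|) / c := ⟨_, rfl⟩
  have hBd0 : 0 ≤ Bd := by rw [hBd]; (clear * - hc; positivity)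
  have hw : ∀ m' : ℂ, ‖m'‖ ≤ 1 → ‖(a : ℂ) * m' + (b : ℂ)‖ ≤ |a| + |b| := by
    intro m' hm'
    refine (norm_add_le _ _).trans ?_
    rw [norm_mul, Complex.norm_real, Complex.norm_real, Real.norm_eq_abs, Real.norm_eq_abs]
    have := mul_le_mul_of_nonneg_left hm' (abs_nonneg a)
    linarith only [this]
  have hrp : ∀ m : ℂ, ‖m‖ ≤ 1 → c ≤ rF p0 p1 p2 m := by
    intro m hm
    have h1 := hl m hm
    have h2 : c * 1 ≤ c * (1 + ‖m‖ ^ 2) := mul_le_mul_of_nonneg_left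
      (by (clear * -; nlinarith only [])) hc.le
    linarith only [h1, h2]
  have key : ∀ m m' : ℂ, ‖m‖ ≤ 1 → ‖m'‖ ≤ ‖m‖ → ‖Fq a b p0 p1 p2 m - Fq a b p0 p1 p2 m'‖ ≤
      4 * (CN + Bd * Cr) / c * ‖m - m'‖ := by
    intro m m' hm hm2
    have hm' : ‖m'‖ ≤ 1 := hm2.trans hm
    have r1 : 0 < rF p0 p1 p2 m := hc.trans_le (hrp m hm)
    have r2 : 0 < rF p0 p1 p2 m' := hc.trans_le (hrp m' hm')
    have q1 := rF_lip p0 p1 p2 m m'
    have hn := norm_nonneg m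
    have hn' := norm_nonneg m'
    have hd := norm_nonneg (m - m')
    have hRm : |rF p0 p1 p2 m| ≤ R := by
      rw [rF_eq, hR]
      refine (abs_add_three _ _ _).trans ?_
      have hx := (Complex.abs_re_le_norm m).trans hm
      have h4 : ‖m‖ ^ 2 ≤ 1 := by (clear * - hm hm2 hn'; nlinarith only [hm, hm2, hn'])
      rw [abs_mul (2 * p1), abs_mul (p1 + p2), abs_of_nonneg (sq_nonneg ‖m‖)]
      have g1 := mul_le_mul_of_nonneg_left hx (abs_nonneg (2 * p1))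
      have g2 := mul_le_mul_of_nonneg_left h4 (abs_nonneg (p1 + p2))
      linarith only [g1, g2]
    have hN' : ‖m' * ((rF p0 p1 p2 m' : ℝ) : ℂ) + ((1 - ‖m'‖ ^ 2 : ℝ) : ℂ) *
        ((a : ℂ) * m' + (b : ℂ))‖ ≤ Bd * rF p0 p1 p2 m' := by
      refine (norm_add_le _ _).trans ?_
      rw [norm_mul, norm_mul, Complex.norm_real, Complex.norm_real, Real.norm_of_nonneg r2.le]
      have g1 : ‖(1 - ‖m'‖ ^ 2 : ℝ)‖ ≤ 1 := by
        rw [Real.norm_eq_abs]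
        exact abs_le.2 ⟨by (clear * - hm' hn'; nlinarith only [hm', hn']), by nlinarith only []⟩
      have g2 := mul_le_mul g1 (hw m' hm') (norm_nonneg _) zero_le_one
      have g3 : ‖m'‖ * rF p0 p1 p2 m' ≤ 1 * rF p0 p1 p2 m' :=
        mul_le_mul_of_nonneg_right hm' r2.le
      have g4 : (|a| + |b|) ≤ (|a| + |b|) / c * rF p0 p1 p2 m' := by
        rw [div_mul_eq_mul_div, le_div_iff₀ hc]
        exact mul_le_mul_of_nonneg_left (hrp m' hm') (by (clear * -; positivity))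
      rw [hBd]
      (clear * - g2 g3 g4; linarith)
    have hNN : ‖(m * ((rF p0 p1 p2 m : ℝ) : ℂ) + ((1 - ‖m‖ ^ 2 : ℝ) : ℂ) *
        ((a : ℂ) * m + (b : ℂ))) - (m' * ((rF p0 p1 p2 m' : ℝ) : ℂ) +
        ((1 - ‖m'‖ ^ 2 : ℝ) : ℂ) * ((a : ℂ) * m' + (b : ℂ)))‖ ≤
        CN * ((1 + ‖m‖ + ‖m'‖) * ‖m - m'‖) := by
      have e : (m * ((rF p0 p1 p2 m : ℝ) : ℂ) + ((1 - ‖m‖ ^ 2 : ℝ) : ℂ) *
        ((a : ℂ) * m + (b : ℂ))) - (m' * ((rF p0 p1 p2 m' : ℝ) : ℂ) +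
        ((1 - ‖m'‖ ^ 2 : ℝ) : ℂ) * ((a : ℂ) * m' + (b : ℂ))) =
          ((rF p0 p1 p2 m : ℝ) : ℂ) * (m - m') +
          ((rF p0 p1 p2 m - rF p0 p1 p2 m' : ℝ) : ℂ) * m' +
          (((1 - ‖m‖ ^ 2) * a : ℝ) : ℂ) * (m - m') -
          ((‖m‖ ^ 2 - ‖m'‖ ^ 2 : ℝ) : ℂ) * ((a : ℂ) * m' + (b : ℂ)) := by
        push_cast
        ring
      rw [e]
      refine (norm_sub_le _ _).trans ?_
      refine (add_le_add_left (norm_add₃_le) _).trans ?_
      rw [norm_mul, norm_mul, norm_mul, norm_mul, Complex.norm_real, Complex.norm_real,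
        Complex.norm_real, Complex.norm_real, Real.norm_eq_abs, Real.norm_eq_abs,
        Real.norm_eq_abs, Real.norm_eq_abs]
      have w1 := hw m' hm'
      have w2 : |(1 - ‖m‖ ^ 2) * a| ≤ |a| := by
        rw [abs_mul]
        have h4 : ‖m‖ ^ 2 ≤ 1 := by (clear * - hm hn; nlinarith only [hm, hn])
        have : |1 - ‖m‖ ^ 2| ≤ 1 := abs_le.2 ⟨by linarith only [h4], by linarith only [sq_nonneg ‖m‖]⟩
        have := mul_le_mul_of_nonneg_right this (abs_nonneg a)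
        linarith only [this]
      have w3 := sq_lip m m'
      set T := (1 + ‖m‖ + ‖m'‖) * ‖m - m'‖ with hT
      have t1 : ‖m - m'‖ ≤ T := by rw [hT]; (clear * - hn hd hn'; nlinarith only [hn, hn', hd])
      have t2 : (‖m‖ + ‖m'‖) * ‖m - m'‖ ≤ T := by rw [hT]; linarith only [hd]
      have hT0 : 0 ≤ T := hd.trans t1
      have g1 : |rF p0 p1 p2 m| * ‖m - m'‖ ≤ R * T := mul_le_mul hRm t1 hd hR0
      have g2 : |rF p0 p1 p2 m - rF p0 p1 p2 m'| * ‖m'‖ ≤ (Cr * T) * 1 :=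
        mul_le_mul (by rw [hCr]; exact q1) hm' hn' (mul_nonneg hCr0 hT0)
      have g3 : |(1 - ‖m‖ ^ 2) * a| * ‖m - m'‖ ≤ |a| * T := mul_le_mul w2 t1 hd (abs_nonneg a)
      have g4 : |‖m‖ ^ 2 - ‖m'‖ ^ 2| * ‖(a : ℂ) * m' + (b : ℂ)‖ ≤ T * (|a| + |b|) :=
        mul_le_mul (w3.trans t2) w1 (norm_nonneg _) hT0
      rw [hCN]
      (clear * - g1 g2 g3 g4; linarith only [g1, g2, g3, g4])
    have hq := rat_lip hc hCN0 hCr0 hBd0 hd hn' hm2 hNN (by rw [hCr]; exact q1) (hl m hm)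
      r2 hN'
    rw [← Fq_div r1.ne', ← Fq_div r2.ne'] at hq
    have hF := norm_nonneg (Fq a b p0 p1 p2 m - Fq a b p0 p1 p2 m')
    nlinarith only [hn, hq, hF]
  refine ⟨4 * (CN + Bd * Cr) / c, by (clear * - hCN0 hBd0 hCr0 hc; positivity), fun m m' hm hm' => ?_⟩
  rcases le_total ‖m'‖ ‖m‖ with h1 | h1
  · exact key m m' hm h1
  · rw [norm_sub_rev, norm_sub_rev m]
    exact key m' m hm' h1

/-- the outside piece is Lipschitz, with decay -/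
theorem OutL.lipF {a p0 p1 p2 : ℝ} (h : OutL a p0 p1 p2) (b : ℝ) : ∃ C : ℝ, 0 ≤ C ∧
    ∀ m m' : ℂ, 1 ≤ ‖m'‖ → ‖m'‖ ≤ ‖m‖ →
    (1 + ‖m‖) * ‖Fq a b p0 p1 p2 m - Fq a b p0 p1 p2 m'‖ ≤ C * ‖m - m'‖ := by
  obtain ⟨c, hc, hl⟩ := h.low
  obtain ⟨Cr, hCr⟩ : ∃ Cr : ℝ, Cr = |2 * p1| + |p1 + p2| := ⟨_, rfl⟩
  have hCr0 : 0 ≤ Cr := by rw [hCr]; (clear * -; positivity)
  obtain ⟨CN, hCN⟩ : ∃ CN : ℝ, CN = |p0 + p1 + a| + |2 * p1| + |b| := ⟨_, rfl⟩
  have hCN0 : 0 ≤ CN := by rw [hCN]; (clear * -; positivity)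
  obtain ⟨Bd, hBd⟩ : ∃ Bd : ℝ, Bd = CN / c := ⟨_, rfl⟩
  have hBd0 : 0 ≤ Bd := by rw [hBd]; (clear * - hCN0 hc; positivity)
  refine ⟨4 * (CN + Bd * Cr) / c, by (clear * - hCN0 hBd0 hCr0 hc; positivity), fun m m' hm' hm2 => ?_⟩
  have hm : 1 ≤ ‖m‖ := hm'.trans hm2
  have r1 : 0 < rF p0 p1 p2 m := lt_of_lt_of_le (by (clear * - hc hm; positivity)) (hl m)
  have r2 : 0 < rF p0 p1 p2 m' := lt_of_lt_of_le (by positivity) (hl m')
  have q1 := rF_lip p0 p1 p2 m m'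
  have hn := norm_nonneg m
  have hn' := norm_nonneg m'
  have hd := norm_nonneg (m - m')
  have hN' : ‖m' * ((rF p0 p1 p2 m' : ℝ) : ℂ) + ((1 - ‖m'‖ ^ 2 : ℝ) : ℂ) *
      ((a : ℂ) * m' + (b : ℂ))‖ ≤ Bd * rF p0 p1 p2 m' := by
    have e : m' * ((rF p0 p1 p2 m' : ℝ) : ℂ) + ((1 - ‖m'‖ ^ 2 : ℝ) : ℂ) *
        ((a : ℂ) * m' + (b : ℂ)) = ((p0 + p1 + a : ℝ) : ℂ) * m' +
          ((2 * p1 * m'.re : ℝ) : ℂ) * m' + ((b * (1 - ‖m'‖ ^ 2) : ℝ) : ℂ) := by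
      rw [rF_eq, h.eq]
      push_cast
      ring
    rw [e]
    refine (norm_add₃_le).trans ?_
    rw [norm_mul, norm_mul, Complex.norm_real, Complex.norm_real, Complex.norm_real,
      Real.norm_eq_abs, Real.norm_eq_abs, Real.norm_eq_abs, abs_mul (2 * p1), abs_mul b]
    have w4 := Complex.abs_re_le_norm m'
    have g1 : |p0 + p1 + a| * ‖m'‖ ≤ |p0 + p1 + a| * (1 + ‖m'‖ ^ 2) :=
      mul_le_mul_of_nonneg_left (by nlinarith only []) (abs_nonneg _)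
    have g2 : |2 * p1| * |m'.re| * ‖m'‖ ≤ |2 * p1| * (1 + ‖m'‖ ^ 2) := by
      have : |m'.re| * ‖m'‖ ≤ 1 + ‖m'‖ ^ 2 := by
        have := mul_le_mul_of_nonneg_right w4 hn'
        linarith only [this]
      have := mul_le_mul_of_nonneg_left this (abs_nonneg (2 * p1))
      (clear * - this; linarith)
    have g3 : |b| * |1 - ‖m'‖ ^ 2| ≤ |b| * (1 + ‖m'‖ ^ 2) :=
      mul_le_mul_of_nonneg_left (abs_le.2 ⟨by (clear * -; linarith [sq_nonneg ‖m'‖]),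
        by linarith [sq_nonneg ‖m'‖]⟩) (abs_nonneg _)
    have g4 : CN * (1 + ‖m'‖ ^ 2) ≤ Bd * rF p0 p1 p2 m' := by
      rw [hBd, div_mul_eq_mul_div, le_div_iff₀ hc]
      have := mul_le_mul_of_nonneg_left (hl m') hCN0
      (clear * - this; linarith only [this])
    have g5 : |p0 + p1 + a| * (1 + ‖m'‖ ^ 2) + |2 * p1| * (1 + ‖m'‖ ^ 2) +
        |b| * (1 + ‖m'‖ ^ 2) = CN * (1 + ‖m'‖ ^ 2) := by
      rw [hCN]
      ring
    (clear * - g1 g2 g3 g4 g5; linarith)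
  have hNN : ‖(m * ((rF p0 p1 p2 m : ℝ) : ℂ) + ((1 - ‖m‖ ^ 2 : ℝ) : ℂ) *
      ((a : ℂ) * m + (b : ℂ))) - (m' * ((rF p0 p1 p2 m' : ℝ) : ℂ) +
      ((1 - ‖m'‖ ^ 2 : ℝ) : ℂ) * ((a : ℂ) * m' + (b : ℂ)))‖ ≤
      CN * ((1 + ‖m‖ + ‖m'‖) * ‖m - m'‖) := by
    have e : (m * ((rF p0 p1 p2 m : ℝ) : ℂ) + ((1 - ‖m‖ ^ 2 : ℝ) : ℂ) *
      ((a : ℂ) * m + (b : ℂ))) - (m' * ((rF p0 p1 p2 m' : ℝ) : ℂ) +
      ((1 - ‖m'‖ ^ 2 : ℝ) : ℂ) * ((a : ℂ) * m' + (b : ℂ))) =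
        ((p0 + p1 + a : ℝ) : ℂ) * (m - m') +
        ((2 * p1 : ℝ) : ℂ) * ((m.re : ℂ) * (m - m') + ((m.re - m'.re : ℝ) : ℂ) * m') -
        ((b * (‖m‖ ^ 2 - ‖m'‖ ^ 2) : ℝ) : ℂ) := by
      rw [rF_eq, rF_eq, h.eq]
      push_cast
      ring
    rw [e]
    have w2 := sq_lip m m'
    have w3 := re_lip m m'
    have w4 := Complex.abs_re_le_norm m
    set T := (1 + ‖m‖ + ‖m'‖) * ‖m - m'‖ with hT
    have t1 : ‖m - m'‖ ≤ T := by rw [hT]; (clear * - hn hd hn'; nlinarith only [hn, hn', hd])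
    have t2 : (‖m‖ + ‖m'‖) * ‖m - m'‖ ≤ T := by rw [hT]; (clear * - hd; linarith only [hd])
    have hT0 : 0 ≤ T := hd.trans t1
    have v1 : ‖(m.re : ℂ) * (m - m') + ((m.re - m'.re : ℝ) : ℂ) * m'‖ ≤ T := by
      refine (norm_add_le _ _).trans (le_trans ?_ t2)
      rw [norm_mul, norm_mul, Complex.norm_real, Complex.norm_real, Real.norm_eq_abs,
        Real.norm_eq_abs]
      have g1 := mul_le_mul_of_nonneg_right w4 hd
      have g2 := mul_le_mul_of_nonneg_right w3 hn'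
      linarith only [g1, g2]
    refine (norm_sub_le _ _).trans ?_
    refine (add_le_add_left (norm_add_le _ _) _).trans ?_
    rw [norm_mul, norm_mul, Complex.norm_real, Complex.norm_real, Complex.norm_real,
      Real.norm_eq_abs, Real.norm_eq_abs, Real.norm_eq_abs, abs_mul b]
    have g1 := mul_le_mul_of_nonneg_left t1 (abs_nonneg (p0 + p1 + a))
    have g2 := mul_le_mul_of_nonneg_left v1 (abs_nonneg (2 * p1))
    have g3 := mul_le_mul_of_nonneg_left (w2.trans t2) (abs_nonneg b)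
    rw [hCN]
    linarith only [g1, g2, g3]
  have hq := rat_lip hc hCN0 hCr0 hBd0 hd hn' hm2 hNN (by rw [hCr]; exact q1) (hl m)
    r2 hN'
  rw [← Fq_div r1.ne', ← Fq_div r2.ne'] at hq
  exact hq

/-- (5), inside piece -/
theorem InL.inLip {p0 p1 p2 : ℝ} (h : InL p0 p1 p2) (a b : ℝ) :
    ∃ C : ℝ, InLip (fun m _ => Fq a b p0 p1 p2 m) C := by
  obtain ⟨C, hC, hk⟩ := h.lipF a b
  refine ⟨C, hC, fun m m' t t' hm hm' => ?_, fun u m t hu hm => ?_⟩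
  · exact (hk m m' hm hm').trans (mul_le_mul_of_nonneg_left
      (by linarith [norm_nonneg (t - t')]) hC)
  · refine (hk (u * m) m (by rw [norm_mul, hu, one_mul]; exact hm) hm).trans ?_
    have e : u * m - m = (u - 1) * m := by ring
    rw [e, norm_mul]
    have h2 := mul_le_mul_of_nonneg_left hm (norm_nonneg (u - 1))
    exact mul_le_mul_of_nonneg_left (by (clear * - h2; linarith)) hC

/-- (5), outside piece -/
theorem OutL.outLip {a p0 p1 p2 : ℝ} (h : OutL a p0 p1 p2) (b : ℝ) :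
    ∃ C : ℝ, OutLip (fun m _ => Fq a b p0 p1 p2 m) C := by
  obtain ⟨C, hC, k2⟩ := h.lipF b
  refine ⟨C, hC, fun m m' t t' hm hm' => ?_, fun u m t hu hm => ?_⟩
  · have h3 := norm_nonneg (Fq a b p0 p1 p2 m - Fq a b p0 p1 p2 m')
    have h4 : ‖Fq a b p0 p1 p2 m - Fq a b p0 p1 p2 m'‖ ≤ C * ‖m - m'‖ := by
      rcases le_total ‖m'‖ ‖m‖ with h1 | h1
      · have h2 := k2 m m' hm' h1
        nlinarith only [hm', h3, h1, h2]
      · have h2 := k2 m' m hm h1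
        rw [norm_sub_rev, norm_sub_rev m]
        rw [norm_sub_rev] at h3
        (clear * - h3 h2 hm'; nlinarith only [hm', h3, h2])
    exact h4.trans (mul_le_mul_of_nonneg_left (by (clear * -; linarith [norm_nonneg (t - t')])) hC)
  · have e0 : ‖u * m‖ = ‖m‖ := by rw [norm_mul, hu, one_mul]
    have h2 := k2 (u * m) m hm (by rw [e0])
    have e : u * m - m = (u - 1) * m := by ring
    rw [e0, e, norm_mul] at h2
    have h4 : 0 < 1 + ‖m‖ := by (clear * - hm; positivity)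
    have h5 : C * (‖u - 1‖ * ‖m‖) ≤ (1 + ‖m‖) * (C * ‖u - 1‖) := by
      have := mul_nonneg hC (norm_nonneg (u - 1))
      linarith only [this]
    exact le_of_mul_le_mul_left (h2.trans h5) h4

/-- a two-jet field which does not depend on the second invariant -/
theorem glip_of_glip2 {G : ℂ → ℂ} {L : ℝ} (h : GLip2 (fun m _ => G m) L) : GLip G L :=
  ⟨fun m => h.le_one m 0, fun m m' => h.lip m m' 0, fun u m hu => h.rot u m 0 hu⟩

/-- **the two-sided one-jet field**, retracted to the unit disc -/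
noncomputable def Gp (a b p0 p1 p2 a' b' q0 q1 q2 : ℝ) (m : ℂ) : ℂ :=
  prj (if ‖m‖ ≤ 1 then Fq a b p0 p1 p2 m else Fq a' b' q0 q1 q2 m)

theorem Gp_glip {a b p0 p1 p2 a' b' q0 q1 q2 : ℝ} (h : InL p0 p1 p2)
    (h' : OutL a' q0 q1 q2) : ∃ C : ℝ, GLip (Gp a b p0 p1 p2 a' b' q0 q1 q2) C := by
  obtain ⟨C1, k1⟩ := h.inLip a b
  obtain ⟨C2, k2⟩ := h'.outLip b'
  exact ⟨_, glip_of_glip2 (glue2 k1 k2 fun m t hm => by
    show Fq a b p0 p1 p2 m = Fq a' b' q0 q1 q2 m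
    rw [Fq_circle hm, Fq_circle hm])⟩

theorem Gp_conj (a b p0 p1 p2 a' b' q0 q1 q2 : ℝ) (m : ℂ) :
    Gp a b p0 p1 p2 a' b' q0 q1 q2 (conj m) = conj (Gp a b p0 p1 p2 a' b' q0 q1 q2 m) := by
  unfold Gp
  rw [norm_conj, ← prj_conj]
  split_ifs
  · rw [Fq_conj]
  · rw [Fq_conj]

theorem Gp_in {a b p0 p1 p2 a' b' q0 q1 q2 : ℝ} {m : ℂ} (hm : ‖m‖ ≤ 1) {e : ℂ}
    (he : ‖e‖ = 1) :
    ‖Gp a b p0 p1 p2 a' b' q0 q1 q2 m - e‖ ^ 2 ≤ ‖Fq a b p0 p1 p2 m - e‖ ^ 2 := by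
  unfold Gp
  rw [if_pos hm]
  exact prj_dist_sq he.le

theorem Gp_out {a b p0 p1 p2 a' b' q0 q1 q2 : ℝ} {m : ℂ} (hm : 1 ≤ ‖m‖) {e : ℂ}
    (he : ‖e‖ = 1) :
    ‖Gp a b p0 p1 p2 a' b' q0 q1 q2 m - e‖ ^ 2 ≤ ‖Fq a' b' q0 q1 q2 m - e‖ ^ 2 := by
  unfold Gp
  rcases eq_or_lt_of_le hm with h | h
  · rw [if_pos h.symm.le, Fq_circle h.symm, Fq_circle h.symm]
    exact prj_dist_sq he.le
  · rw [if_neg (not_le.2 h)]
    exact prj_dist_sq he.le

end Pool.Agent.Helper20.EK7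

end

section

namespace Pool.Agent.Helper39.Area
end Pool.Agent.Helper39.Area
namespace Pool.Agent.Helper52.EK
end Pool.Agent.Helper52.EK
namespace Pool.Agent.Helper70.EK
end Pool.Agent.Helper70.EK
namespace Pool.Agent.Helper9.EK
end Pool.Agent.Helper9.EK
namespace Pool.Agent.Helper61.EK
end Pool.Agent.Helper61.EK

set_option autoImplicit false

open Complex MeasureTheory Metric Set

open scoped Real ComplexConjugate

namespace Pool.Agent.Helper69.EK7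

open Pool.Agent.Helper39.Area Pool.Agent.Helper52.EK Pool.Agent.Helper70.EK

open Pool.Agent.Helper9.EK (rotβ rot_ExtR)

open Pool.Agent.Helper61.EK (N_circ_cont N_circ_pos EntropyStmt KfContStmt exp_per)

/-- the abstract comparison -/
theorem core2 {G : ℂ → ℂ → ℂ} {L : ℝ} (hG : GLip2 G L) {p e m err t : ℂ} {δ : ℝ} (hp : ‖p‖ = 1)
    (he : ‖e‖ = 1) (h1 : ‖p - 1‖ ≤ 16 * δ) (h2 : ‖err‖ ≤ 12 * δ) :
    ‖p * e - G (p * (m + err)) (p ^ 2 * t)‖ ^ 2 ≤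
      ‖G m t - e‖ ^ 2 + 4 * (16 + 28 * L) * δ := by
  have hL := hG.nonneg
  have a1 : ‖p * e - e‖ ≤ 16 * δ := by
    have : p * e - e = (p - 1) * e := by ring
    rw [this, norm_mul, he, mul_one]
    exact h1
  have a2 : ‖G m t - G (m + err) t‖ ≤ L * (12 * δ) := by
    have h3 := hG.lip m (m + err) t
    have h4 : ‖m - (m + err)‖ = ‖err‖ := by
      have : m - (m + err) = -err := by ring
      rw [this, norm_neg]
    rw [h4] at h3
    exact h3.trans (mul_le_mul_of_nonneg_left h2 hL)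
  have a3 : ‖G (p * (m + err)) (p ^ 2 * t) - G (m + err) t‖ ≤ L * (16 * δ) :=
    (hG.rot p (m + err) t hp).trans (mul_le_mul_of_nonneg_left h1 hL)
  have a4 : ‖p * e - G (p * (m + err)) (p ^ 2 * t)‖ ≤ ‖G m t - e‖ + (16 + 28 * L) * δ := by
    have e1 : p * e - G (p * (m + err)) (p ^ 2 * t) = (p * e - e) + (-(G m t - e)) +
        (G m t - G (m + err) t) + (-(G (p * (m + err)) (p ^ 2 * t) - G (m + err) t)) := by ring
    rw [e1]
    have b1 := norm_add_le ((p * e - e) + (-(G m t - e)) + (G m t - G (m + err) t))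
      (-(G (p * (m + err)) (p ^ 2 * t) - G (m + err) t))
    have b2 := norm_add_le ((p * e - e) + (-(G m t - e))) (G m t - G (m + err) t)
    have b3 := norm_add_le (p * e - e) (-(G m t - e))
    rw [norm_neg] at b1 b3
    (clear * - a1 a2 a3 b1 b2 b3; linarith only [a1, a2, a3, b1, b2, b3])
  have a5 : ‖p * e - G (p * (m + err)) (p ^ 2 * t)‖ ≤ 2 := by
    have b1 := norm_sub_le (p * e) (G (p * (m + err)) (p ^ 2 * t))
    rw [norm_mul, hp, he] at b1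
    have b2 := hG.le_one (p * (m + err)) (p ^ 2 * t)
    linarith only [b1, b2]
  have a6 : ‖G m t - e‖ ≤ 2 := by
    have b1 := norm_sub_le (G m t) e
    rw [he] at b1
    have b2 := hG.le_one m t
    (clear * - b1 b2; linarith only [b1, b2])
  have hδ : 0 ≤ (16 + 28 * L) * δ := by
    have : 0 ≤ δ := by
      have := norm_nonneg (p - 1)
      linarith only [h1, this]
    (clear * - hL this; positivity)
  have c1 := norm_nonneg (p * e - G (p * (m + err)) (p ^ 2 * t))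
  have c2 := norm_nonneg (G m t - e)
  nlinarith only [a4, a5, a6, hδ, c1, c2]

theorem F3_contOn {G : ℂ → ℂ → ℂ} {L : ℝ} (hG : GLip2 G L) {X : ℂ → ℂ} {x₁ x₂ : ℝ}
    (hX : NiceX X x₁ x₂) :
    ContinuousOn (fun p : ℝ × ℝ => TG2 G (X (pt p.1 p.2)) (deriv X (pt p.1 p.2))
      (deriv (deriv X) (pt p.1 p.2)) (Real.sin p.2) (Real.cos p.2)) (Icc x₁ x₂ ×ˢ Icc 0 π) := by
  have hmap : MapsTo (fun p : ℝ × ℝ => pt p.1 p.2) (Icc x₁ x₂ ×ˢ Icc 0 π) (Rect x₁ x₂) := by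
    rintro ⟨ξ, η⟩ ⟨hξ, hη⟩
    change pt ξ η ∈ Rect x₁ x₂
    unfold Rect
    rw [Complex.mem_reProdIm]
    have e1 : (pt ξ η).re = ξ := by simp [pt]
    have e2 : (pt ξ η).im = η := by simp [pt]
    rw [e1, e2]
    exact ⟨hξ, hη⟩
  have h1 : ContinuousOn (fun p : ℝ × ℝ => X (pt p.1 p.2)) (Icc x₁ x₂ ×ˢ Icc 0 π) :=
    hX.an.continuousOn.comp continuous_pt.continuousOn hmap
  have h2 : ContinuousOn (fun p : ℝ × ℝ => deriv X (pt p.1 p.2)) (Icc x₁ x₂ ×ˢ Icc 0 π) :=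
    hX.an.deriv.continuousOn.comp continuous_pt.continuousOn hmap
  have h2' : ContinuousOn (fun p : ℝ × ℝ => deriv (deriv X) (pt p.1 p.2))
      (Icc x₁ x₂ ×ˢ Icc 0 π) :=
    hX.an.deriv.deriv.continuousOn.comp continuous_pt.continuousOn hmap
  have hne : ∀ p ∈ Icc x₁ x₂ ×ˢ Icc 0 π, X (pt p.1 p.2) ≠ 0 := fun p hp => hX.ne _ (hmap hp)
  have h3 : ContinuousOn (fun p : ℝ × ℝ => deriv X (pt p.1 p.2) / X (pt p.1 p.2))
      (Icc x₁ x₂ ×ˢ Icc 0 π) := h2.div h1 hne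
  have h3' : ContinuousOn (fun p : ℝ × ℝ => deriv (deriv X) (pt p.1 p.2) / X (pt p.1 p.2))
      (Icc x₁ x₂ ×ˢ Icc 0 π) := h2'.div h1 hne
  have h4 : ContinuousOn (fun p : ℝ × ℝ => e0 (Real.sin p.2) (Real.cos p.2))
      (Icc x₁ x₂ ×ˢ Icc 0 π) := by
    apply Continuous.continuousOn
    unfold e0
    fun_prop
  have h5 : ContinuousOn (fun p : ℝ × ℝ => mX (X (pt p.1 p.2)) (deriv X (pt p.1 p.2))
      (Real.sin p.2) (Real.cos p.2)) (Icc x₁ x₂ ×ˢ Icc 0 π) := by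
    unfold mX
    exact ((continuousOn_const.add h4).mul
      (((continuousOn_const.mul h1).sub continuousOn_const).add h3)).sub continuousOn_const
  have h6 : ContinuousOn (fun p : ℝ × ℝ => tX (X (pt p.1 p.2)) (deriv X (pt p.1 p.2))
      (deriv (deriv X) (pt p.1 p.2)) (Real.sin p.2) (Real.cos p.2)) (Icc x₁ x₂ ×ˢ Icc 0 π) := by
    unfold tX
    have h7 : ContinuousOn (fun p : ℝ × ℝ => 4 * ((Real.sin p.2 : ℝ) : ℂ) ^ 2)
        (Icc x₁ x₂ ×ˢ Icc 0 π) := by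
      apply Continuous.continuousOn
      fun_prop
    exact (h7.mul h4).mul (((continuousOn_const.sub (continuousOn_const.mul (h1.pow 2))).add
      h3').sub (continuousOn_const.mul (h3.pow 2)))
  unfold TG2
  exact ((hG.cont.comp_continuousOn (h5.prodMk h6)).sub h4).norm.pow 2

/-- **from the disc to the strip** -/
theorem E3F {G : ℂ → ℂ → ℂ} {L : ℝ} (hG : GLip2 G L) : ∀ A : ℝ, 1 ≤ A → ∃ C : ℝ,
    ∀ (β : ℂ → ℂ) (R a : ℝ), ExtR β R → Real.exp (-1) < a → a < 1 →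
    Real.log (tau a) + A ≤ -A →
    Kf (wf2 G β) 1 (-1) (Real.log a) ≤ π⁻¹ * II (Real.log (tau a) + A) (-A)
      (fun ξ η => TG2 G (Xf β a (pt ξ η)) (deriv (Xf β a) (pt ξ η))
        (deriv (deriv (Xf β a)) (pt ξ η)) (Real.sin η) (Real.cos η)) + C := by
  intro A hA
  obtain ⟨C, hC⟩ := Pool.Agent.Helper84.EK.E3b A hA
  refine ⟨C + 4 * (16 + 28 * L), ?_⟩
  intro β R a hβ ha ha1 hx
  have ha0 : 0 < a := (Real.exp_pos _).trans ha
  have hw := wf2_cont hG hβ.toExt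
  have h1 := hC (wf2 G β) a hw (wf2_le_one hG β) ha ha1 hx
  have hL := hG.nonneg
  set x₁ := Real.log (tau a) + A with hx₁
  have hx₂ : -A < 0 := by (clear * - hA; linarith only [hA])
  have hxx : Real.log (tau a) < x₁ := by (clear * - hx₂; linarith only [hx₂])
  have hX : NiceX (Xf β a) x₁ (-A) := Pool.Agent.Helper67.EK.E1c hβ ha0 ha1 hxx hx₂
  have hsub : Ioc x₁ (-A) ×ˢ Ioo 0 π ⊆ Icc x₁ (-A) ×ˢ Icc 0 π :=
    prod_mono Ioc_subset_Icc_self Ioo_subset_Icc_self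
  have h2 : II x₁ (-A) (fun ξ η => ‖ee 1 (zf (pt ξ η)) - wf2 G β (zf (pt ξ η))‖ ^ 2) ≤
      II x₁ (-A) (fun ξ η => TG2 G (Xf β a (pt ξ η)) (deriv (Xf β a) (pt ξ η))
        (deriv (deriv (Xf β a)) (pt ξ η)) (Real.sin η)
        (Real.cos η)) + (4 * (16 + 28 * L)) * π := by
    apply II_le (M := 4) hx hx₂.le (by (clear * - hL; positivity)) (F1_contOn hw hx₂)
      ((F3_contOn hG hX).mono hsub)
    · intro p hp
      have h3 := (zf_mapsTo hx₂ hp).2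
      change ‖zf (pt p.1 p.2)‖ < 1 at h3
      have h4 := norm_sub_le (ee 1 (zf (pt p.1 p.2))) (wf2 G β (zf (pt p.1 p.2)))
      rw [norm_ee h3] at h4
      have h5 := wf2_le_one hG β (zf (pt p.1 p.2))
      rw [norm_pow, norm_norm]
      have h6 := norm_nonneg (ee 1 (zf (pt p.1 p.2)) - wf2 G β (zf (pt p.1 p.2)))
      nlinarith only [h4, h5, h6]
    · intro p hp
      unfold TG2
      rw [norm_pow, norm_norm]
      have h4 := norm_sub_le (G (mX (Xf β a (pt p.1 p.2)) (deriv (Xf β a) (pt p.1 p.2))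
        (Real.sin p.2) (Real.cos p.2)) (tX (Xf β a (pt p.1 p.2)) (deriv (Xf β a) (pt p.1 p.2))
        (deriv (deriv (Xf β a)) (pt p.1 p.2)) (Real.sin p.2) (Real.cos p.2)))
        (e0 (Real.sin p.2) (Real.cos p.2))
      rw [norm_e0] at h4
      have h5 := hG.le_one (mX (Xf β a (pt p.1 p.2)) (deriv (Xf β a) (pt p.1 p.2))
        (Real.sin p.2) (Real.cos p.2)) (tX (Xf β a (pt p.1 p.2)) (deriv (Xf β a) (pt p.1 p.2))
        (deriv (deriv (Xf β a)) (pt p.1 p.2)) (Real.sin p.2) (Real.cos p.2))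
      have h6 := norm_nonneg (G (mX (Xf β a (pt p.1 p.2)) (deriv (Xf β a) (pt p.1 p.2))
        (Real.sin p.2) (Real.cos p.2)) (tX (Xf β a (pt p.1 p.2)) (deriv (Xf β a) (pt p.1 p.2))
        (deriv (deriv (Xf β a)) (pt p.1 p.2)) (Real.sin p.2) (Real.cos p.2)) -
        e0 (Real.sin p.2) (Real.cos p.2))
      (clear * - h4 h5 h6; nlinarith only [h4, h5, h6])
    · rintro ⟨ξ, η⟩ ⟨hξ, hη⟩
      have hξ' : x₁ < ξ ∧ ξ ≤ -A := hξ
      have hη' : 0 < η ∧ η < π := hη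
      have hξ0 : ξ < 0 := by (clear * - hA ha1 ha0 hξ'; linarith [hξ'.2])
      have hz := zf_norm hη'.1 hη'.2 hξ0
      change ‖ee 1 (zf (pt ξ η)) - wf2 G β (zf (pt ξ η))‖ ^ 2 ≤
        TG2 G (Xf β a (pt ξ η)) (deriv (Xf β a) (pt ξ η)) (deriv (deriv (Xf β a)) (pt ξ η))
          (Real.sin η) (Real.cos η) + (4 * (16 + 28 * L)) * Real.exp ξ
      have hE : ‖Complex.exp (pt ξ η)‖ ≤ 1 / 2 := by
        rw [norm_E]
        have h7 : ξ ≤ -1 := by (clear * - hA hξ'; linarith [hξ'.2])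
        have h8 : Real.exp ξ ≤ Real.exp (-1) := Real.exp_le_exp.mpr h7
        have h9 : Real.exp (-1) < 0.3678794412 := Real.exp_neg_one_lt_d9
        linarith only [h8, h9]
      have h10 := core2 hG (m := mX (Xf β a (pt ξ η)) (deriv (Xf β a) (pt ξ η)) (Real.sin η)
        (Real.cos η)) (t := tX (Xf β a (pt ξ η)) (deriv (Xf β a) (pt ξ η))
        (deriv (deriv (Xf β a)) (pt ξ η)) (Real.sin η) (Real.cos η)) (norm_ph hE) (norm_e0 η)
        (ph_sub_one hE) (err_le hE)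
      rw [norm_E] at h10
      have m1 := Pool.Agent.Helper97.EK.E3a1 hη'.1 hη'.2 hξ0
      have m2 := Pool.Agent.Helper97.EK.E3a2 hβ.toExt ha0 ha1 hη'.1 hη'.2 hξ0
        (lt_trans hxx hξ'.1)
      have m3 := E3a3 hβ.toExt ha0 ha1 hη'.1 hη'.2 hξ0 (lt_trans hxx hξ'.1)
      have h11 : ‖ee 1 (zf (pt ξ η)) - wf2 G β (zf (pt ξ η))‖ =
          ‖ph (Complex.exp (pt ξ η)) * e0 (Real.sin η) (Real.cos η) -
            G (ph (Complex.exp (pt ξ η)) * (mX (Xf β a (pt ξ η)) (deriv (Xf β a) (pt ξ η))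
              (Real.sin η) (Real.cos η) +
              (2 * I * (Complex.exp (pt ξ η)).im / (Complex.exp (pt ξ η) + I) +
              4 * I * (Complex.exp (pt ξ η)).im / (Complex.exp (pt ξ η) - I))))
              (ph (Complex.exp (pt ξ η)) ^ 2 * tX (Xf β a (pt ξ η)) (deriv (Xf β a) (pt ξ η))
        (deriv (deriv (Xf β a)) (pt ξ η)) (Real.sin η) (Real.cos η))‖ := by
        unfold wf2
        rw [wf_term hz.1, m1, m2, m3, add_assoc]
        rfl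
      rw [h11]
      exact h10
  have hπ : 0 < π⁻¹ := inv_pos.mpr Real.pi_pos
  have h3 := mul_le_mul_of_nonneg_left h2 hπ.le
  have h4 : π⁻¹ * ((4 * (16 + 28 * L)) * π) = 4 * (16 + 28 * L) := by
    (clear * - hL; field_simp)
  rw [mul_add, h4] at h3
  (clear * - h1 h3; linarith)

end Pool.Agent.Helper69.EK7

end

section

namespace Pool.Agent.Helper39.Area
end Pool.Agent.Helper39.Area
namespace Pool.Agent.Helper52.EK
end Pool.Agent.Helper52.EK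
namespace Pool.Agent.Helper69.EK3
end Pool.Agent.Helper69.EK3

set_option autoImplicit false

open Complex MeasureTheory Metric Set

open scoped Real ComplexConjugate

namespace Pool.Agent.Helper69.EK7

open Pool.Agent.Helper39.Area Pool.Agent.Helper52.EK Pool.Agent.Helper69.EK3

/-- the integrand as a functional of `X` -/
noncomputable def T2 (G : ℂ → ℂ → ℂ) (X : ℂ → ℂ) (ξ η : ℝ) : ℝ :=
  TG2 G (X (pt ξ η)) (deriv X (pt ξ η)) (deriv (deriv X) (pt ξ η)) (Real.sin η) (Real.cos η)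

variable {P : (ℂ → ℂ) → ℝ → ℝ → Prop}

theorem T2_cont_H {G : ℂ → ℂ → ℂ} {L : ℝ} (hG : GLip2 G L) (X : ℂ → ℂ) (x₁ x₂ : ℝ)
    (hX : NiceH X x₁ x₂) : CH x₁ x₂ (π / 2) (T2 G X) := by
  have h1 := contH hX.an.continuousOn
  have h2 := contH hX.an.deriv.continuousOn
  have h2' := contH hX.an.deriv.deriv.continuousOn
  have hne : ∀ p ∈ Icc x₁ x₂ ×ˢ Icc (0:ℝ) (π / 2), X (pt p.1 p.2) ≠ 0 := fun p hp =>
    hX.ne _ (pt_mem_RectH hp.1 hp.2)
  have h3 := h2.div h1 hne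
  have h3' := h2'.div h1 hne
  have h4 : ContinuousOn (fun p : ℝ × ℝ => e0 (Real.sin p.2) (Real.cos p.2))
      (Icc x₁ x₂ ×ˢ Icc 0 (π / 2)) := by
    apply Continuous.continuousOn
    unfold e0
    fun_prop
  have h5 : ContinuousOn (fun p : ℝ × ℝ => mX (X (pt p.1 p.2)) (deriv X (pt p.1 p.2))
      (Real.sin p.2) (Real.cos p.2)) (Icc x₁ x₂ ×ˢ Icc 0 (π / 2)) := by
    unfold mX
    exact ((continuousOn_const.add h4).mul
      (((continuousOn_const.mul h1).sub continuousOn_const).add h3)).sub continuousOn_const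
  have h6 : ContinuousOn (fun p : ℝ × ℝ => tX (X (pt p.1 p.2)) (deriv X (pt p.1 p.2))
      (deriv (deriv X) (pt p.1 p.2)) (Real.sin p.2) (Real.cos p.2))
      (Icc x₁ x₂ ×ˢ Icc 0 (π / 2)) := by
    unfold tX
    have h7 : ContinuousOn (fun p : ℝ × ℝ => 4 * ((Real.sin p.2 : ℝ) : ℂ) ^ 2)
        (Icc x₁ x₂ ×ˢ Icc 0 (π / 2)) := by
      apply Continuous.continuousOn
      fun_prop
    exact (h7.mul h4).mul (((continuousOn_const.sub (continuousOn_const.mul (h1.pow 2))).add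
      h3').sub (continuousOn_const.mul (h3.pow 2)))
  exact ((hG.cont.comp_continuousOn (h5.prodMk h6)).sub h4).norm.pow 2

theorem T2_mirror {G : ℂ → ℂ → ℂ} (hGc : ∀ m t, G (conj m) (conj t) = conj (G m t)) (X : ℂ → ℂ)
    (x₁ x₂ : ℝ) (hX : NiceX X x₁ x₂) (ξ : ℝ) (hξ : ξ ∈ Icc x₁ x₂) (η : ℝ)
    (hη : η ∈ Icc (0:ℝ) (π / 2)) : T2 G X ξ (π - η) = T2 G (mir X) ξ η := by
  have hm : pt ξ (π - η) ∈ Rect x₁ x₂ := by
    have := mir_mem (pt_mem_RectH hξ hη)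
    rwa [conj_pt] at this
  have hA : AnalyticAt ℂ X (pt ξ (π - η)) := hX.an _ hm
  unfold T2 TG2
  rw [mir_pt, mir_deriv_pt hA.differentiableAt, Pool.Agent.Helper20.Kraus2.mir_deriv2_pt hA,
    Pool.Agent.Helper20.Kraus2.tX_conj, mX_conj, hGc, Real.sin_pi_sub, Real.cos_pi_sub]
  have e1 : e0 (Real.sin η) (Real.cos η) = conj (e0 (Real.sin η) (-Real.cos η)) := by
    rw [e0_neg, Complex.conj_conj]
  rw [e1, ← map_sub, norm_conj]

/-- the bounds of Koebe and Bieberbach with an integrable error and the exact bound of Kraus -/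
def DiscK (X : ℂ → ℂ) (x₁ x₂ : ℝ) : Prop :=
  DiscP X x₁ x₂ ∧ ∀ ξ ∈ Icc x₁ x₂, ∀ η ∈ Icc (0:ℝ) (π / 2),
    ‖tX (X (pt ξ η)) (deriv X (pt ξ η)) (deriv (deriv X) (pt ξ η)) (Real.sin η)
      (Real.cos η)‖ ≤ 6

theorem discK_Xf (β : ℂ → ℂ) (R a : ℝ) (h : ExtR β R) (ha : 0 < a) (ha1 : a < 1)
    (hx : Real.log (tau a) + 1 ≤ -1) : DiscK (Xf β a) (Real.log (tau a) + 1) (-1) ∧
      DiscK (mir (Xf β a)) (Real.log (tau a) + 1) (-1) := by
  obtain ⟨h1, h2⟩ := discP_Xf β R a h ha ha1 hx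
  have hpi := Real.pi_pos
  exact ⟨⟨h1, fun ξ hξ η hη => Pool.Agent.Helper20.Kraus2.kraus_strip h ha ha1
      (by linarith only [hξ.1]) (by linarith only [hξ.2]) hη.1 (by (clear * - hη hpi; linarith only [hη.2, hpi]))⟩,
    ⟨h2, fun ξ hξ η hη => Pool.Agent.Helper20.Kraus2.kraus_mir h ha ha1
      (by linarith [hξ.1]) (by linarith [hξ.2]) hη.1 (by linarith [hη.2])⟩⟩

end Pool.Agent.Helper69.EK7

end

section

namespace Pool.Agent.Helper52.EK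
end Pool.Agent.Helper52.EK
namespace Pool.Agent.Helper69.EK3
end Pool.Agent.Helper69.EK3
namespace Pool.Agent.Helper69.EK7
end Pool.Agent.Helper69.EK7

set_option autoImplicit false

open Complex MeasureTheory Metric Set

open scoped Real ComplexConjugate

namespace Pool.Agent.Helper84.CK

open Pool.Agent.Helper52.EK Pool.Agent.Helper69.EK3 Pool.Agent.Helper69.EK7

variable {P : (ℂ → ℂ) → ℝ → ℝ → Prop}

/-- powers of `X - 1` times a function of `η` -/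
theorem isNullW_har {β : ℝ → ℝ} (hβ : Continuous β) (m : ℕ) (hm : m ≤ 2) :
    IsNullW P (fun X ξ η => β η * ((X (pt ξ η) - 1) ^ m).re)
      (fun X ξ => (∫ t in (0:ℝ)..(π / 2), β t) * ((X (pt ξ (π / 2)) - 1) ^ m).re) := by
  have hd : ∀ η : ℝ, HasDerivAt (fun η => -∫ t in (0:ℝ)..η, β t) (-β η) η := fun η =>
    (intervalIntegral.integral_hasDerivAt_right (hβ.intervalIntegrable _ _)
      hβ.stronglyMeasurable.stronglyMeasurableAtFilter hβ.continuousAt).neg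
  have hF : C1c (fun X => I * (X - 1) ^ m) (fun X => I * ((m : ℂ) * (X - 1) ^ (m - 1)))
      (fun X => I * (I * ((m : ℂ) * (X - 1) ^ (m - 1)))) := by
    refine C1c_holo (fun X => ?_) (by fun_prop)
    have h1 : HasDerivAt (fun X : ℂ => X - 1) 1 X := (hasDerivAt_id X).sub_const 1
    have h2 : HasDerivAt (fun X : ℂ => (X - 1) ^ m) ((m : ℂ) * (X - 1) ^ (m - 1)) X :=
      (h1.fun_pow m).congr_deriv (by ring)
    exact h2.const_mul I
  obtain ⟨B, hB⟩ := (isCompact_Icc (a := (0:ℝ)) (b := π / 2)).bddAbove_image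
    hβ.abs.continuousOn
  have hB' : ∀ η ∈ Icc (0:ℝ) (π / 2), |β η| ≤ B := fun η hη => hB (mem_image_of_mem _ hη)
  have hB0 : 0 ≤ B := (abs_nonneg _).trans (hB' 0 ⟨le_rfl, by positivity⟩)
  have h := isNullW_G (P := P) hF anF_one hd hβ.neg (by simp) (C := B * (π / 2)) (by
      intro X x₁ x₂ hx hX hP ξ hξ η hη
      have h1 : ‖∫ t in (0:ℝ)..η, β t‖ ≤ B * |η - 0| := by
        refine intervalIntegral.norm_integral_le_of_norm_le_const fun t ht => ?_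
        rw [uIoc_of_le hη.1] at ht
        exact hB' t ⟨ht.1.le, ht.2.trans hη.2⟩
      rw [Real.norm_eq_abs, sub_zero, abs_of_nonneg hη.1] at h1
      have h2 := Real.mul_le_sin hη.1 hη.2
      have hp := Real.pi_pos
      rw [div_mul_eq_mul_div, div_le_iff₀ hp] at h2
      have h3 : |-∫ t in (0:ℝ)..η, β t| ≤ B * (π / 2) * Real.sin η := by
        rw [abs_neg]
        refine h1.trans ?_
        rw [mul_assoc]
        refine mul_le_mul_of_nonneg_left ?_ hB0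
        (clear * - h2; linarith only [h2])
      have h4 := norm_pow_le m hm (X (pt ξ η))
      rw [one_mul] at h4
      rw [norm_mul, norm_I, one_mul, norm_one, mul_one]
      exact mul_le_mul h3 h4 (norm_nonneg _)
        (mul_nonneg (mul_nonneg hB0 (by positivity)) (sin_nn hη)))
  refine h.congr ?_ ?_
  · intro X ξ η
    unfold NG
    have e : I * ((m : ℂ) * (X (pt ξ η) - 1) ^ (m - 1)) +
        I * (I * (I * ((m : ℂ) * (X (pt ξ η) - 1) ^ (m - 1)))) = 0 := by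
      linear_combination (I * (m : ℂ) * (X (pt ξ η) - 1) ^ (m - 1)) * I_sq
    rw [e]
    simp
  · intro X ξ
    simp

end Pool.Agent.Helper84.CK

end

section

namespace Pool.Agent.Helper52.EK
end Pool.Agent.Helper52.EK
namespace Pool.Agent.Helper69.EK3
end Pool.Agent.Helper69.EK3
namespace Pool.Agent.Helper69.EK7
end Pool.Agent.Helper69.EK7

set_option autoImplicit false

open Complex MeasureTheory Metric Set

open scoped Real ComplexConjugate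

namespace Pool.Agent.Helper84.CK

open Pool.Agent.Helper52.EK Pool.Agent.Helper69.EK3 Pool.Agent.Helper69.EK7

variable {P : (ℂ → ℂ) → ℝ → ℝ → Prop}

/-- the linear null Lagrangian -/
theorem isNullW_lin : IsNullW P (fun X ξ η => 1 - (X (pt ξ η)).re)
    (fun X ξ => π / 2 * (1 - (X (pt ξ (π / 2))).re)) := by
  refine (isNullW_har (P := P) (β := fun _ => (-1 : ℝ)) continuous_const 1
    (by norm_num)).congr ?_ ?_
  · intro X ξ η
    rw [pow_one, sub_re, one_re]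
    ring
  · intro X ξ
    rw [pow_one, sub_re, one_re, intervalIntegral.integral_const, smul_eq_mul]
    ring

theorem Eg_const {X : ℂ → ℂ} {x₁ x₂ V : ℝ} (hx : x₁ ≤ x₂) (hX : NiceH X x₁ x₂) :
    Eg (fun _ _ => V) X x₁ x₂ = V * (π / 2 * (x₂ - x₁) + En X x₁ x₂) := by
  have hpi : (0:ℝ) ≤ π / 2 := by positivity
  unfold Eg
  rw [IH_const_mul, IH_add hx hpi (CH_const 1) (CH_en hX)]
  congr 2
  unfold IH
  simp
  ring

/-- the two halves of the weighted integral of a functional with the mirror property -/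
theorem split_w {x₁ x₂ : ℝ} (hx12 : x₁ ≤ x₂) {Ω : ℝ → ℝ → ℝ} {T : (ℂ → ℂ) → ℝ → ℝ → ℝ}
    {X : ℂ → ℂ} (cΩ : CH x₁ x₂ π Ω) (cT : CH x₁ x₂ π (T X))
    (hTm : ∀ ξ ∈ Icc x₁ x₂, ∀ η ∈ Icc (0:ℝ) (π / 2), T X ξ (π - η) = T (mir X) ξ η) :
    II x₁ x₂ (fun ξ η => Ω ξ η * T X ξ η) =
      IH x₁ x₂ (π / 2) (fun ξ η => Ω ξ η * T X ξ η) +
      IH x₁ x₂ (π / 2) (fun ξ η => Ω ξ (π - η) * T (mir X) ξ η) := by
  have hpi : (0:ℝ) ≤ π / 2 := by (clear * -; positivity)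
  have split := II_split hx12 (CH.mul cΩ cT)
  have e3 : IH x₁ x₂ (π / 2) (fun ξ η => Ω ξ (π - η) * T X ξ (π - η)) =
      IH x₁ x₂ (π / 2) (fun ξ η => Ω ξ (π - η) * T (mir X) ξ η) := by
    unfold IH
    refine intervalIntegral.integral_congr fun ξ hξ => ?_
    rw [uIcc_of_le hx12] at hξ
    refine intervalIntegral.integral_congr fun η hη => ?_
    rw [uIcc_of_le hpi] at hη
    simp only
    rw [hTm ξ hξ η hη]
  rw [← e3]
  exact split

/-- The assembly. The pointwise inequality may have an integrable error `ε ξ`. -/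
theorem stripW {k₂ lam dc D : ℝ} (hlam : 0 ≤ lam) (hk₂ : lam ≤ k₂) (hdc : 0 ≤ dc)
    {T Mt : (ℂ → ℂ) → ℝ → ℝ → ℝ}
    (hTc : ∀ (X : ℂ → ℂ) (x₁ x₂ : ℝ), NiceX X x₁ x₂ → CH x₁ x₂ π (T X))
    (hTh : ∀ (X : ℂ → ℂ) (x₁ x₂ : ℝ), NiceH X x₁ x₂ → CH x₁ x₂ (π / 2) (T X))
    (hTm : ∀ (X : ℂ → ℂ) (x₁ x₂ : ℝ), NiceX X x₁ x₂ → ∀ ξ ∈ Icc x₁ x₂,
      ∀ η ∈ Icc (0:ℝ) (π / 2), T X ξ (π - η) = T (mir X) ξ η)
    (hMc : ∀ (X : ℂ → ℂ) (x₁ x₂ : ℝ), NiceX X x₁ x₂ → CH x₁ x₂ π (Mt X))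
    (hMh : ∀ (X : ℂ → ℂ) (x₁ x₂ : ℝ), NiceH X x₁ x₂ → CH x₁ x₂ (π / 2) (Mt X))
    (hMm : ∀ (X : ℂ → ℂ) (x₁ x₂ : ℝ), NiceX X x₁ x₂ → ∀ ξ ∈ Icc x₁ x₂,
      ∀ η ∈ Icc (0:ℝ) (π / 2), Mt X ξ (π - η) = Mt (mir X) ξ η)
    {N : (ℂ → ℂ) → ℝ → ℝ → ℝ} {K : (ℂ → ℂ) → ℝ → ℝ} (hN : IsNullW P N K)
    (hp : ∀ (X : ℂ → ℂ) (x₁ x₂ : ℝ), x₁ ≤ x₂ → NiceH X x₁ x₂ → P X x₁ x₂ →
      ∃ ε : ℝ → ℝ, Continuous ε ∧ (∀ ξ, 0 ≤ ε ξ) ∧ ∫ ξ in x₁..x₂, ε ξ ≤ D ∧
        ∀ ξ ∈ Icc x₁ x₂, ∀ η ∈ Icc (0:ℝ) (π / 2),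
          T X ξ η ≤ k₂ * (1 - (X (pt ξ η)).re) +
            lam * (‖X (pt ξ η)‖ ^ 2 - (X (pt ξ η)).re) + dc + N X ξ η + Mt X ξ η + ε ξ) :
    ∃ C : ℝ, 0 ≤ C ∧ ∀ (X : ℂ → ℂ) (x₁ x₂ V : ℝ) (Ω Ω₁ Ω₂ : ℝ → ℝ → ℝ), x₁ ≤ x₂ → 0 ≤ V →
      WtF x₁ x₂ V Ω Ω₁ Ω₂ → NiceX X x₁ x₂ → P X x₁ x₂ → P (mir X) x₁ x₂ →
      II x₁ x₂ (fun ξ η => Ω ξ η * T X ξ η) ≤
      lam * II x₁ x₂ (fun ξ η => ‖X (pt ξ η) - 1‖ ^ 2) +
        (k₂ - lam) * (π * ∫ ξ in x₁..x₂, Ω ξ (π / 2) * (1 - (X (pt ξ (π / 2))).re)) +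
        dc * (π * (x₂ - x₁)) +
        (∫ ξ in x₁..x₂, Ω ξ (π / 2) * (K X ξ + K (mir X) ξ)) +
        II x₁ x₂ (fun ξ η => Ω ξ η * Mt X ξ η) +
        C * (1 + V * (π * (x₂ - x₁) + II x₁ x₂ (fun ξ η => ‖X (pt ξ η) - 1‖ ^ 2))) := by
  obtain ⟨C₁, hC₁⟩ := hN.le
  obtain ⟨C₂, hC₂⟩ := (isNullW_lin (P := P)).le
  refine ⟨|C₁| + (k₂ - lam) * |C₂| + π * |D|, by
    have : 0 ≤ k₂ - lam := by (clear * - hk₂; linarith)
    (clear * - hk₂; positivity), fun X x₁ x₂ V Ω Ω₁ Ω₂ hx12 hV hw hX hP hP' => ?_⟩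
  have hpi : (0:ℝ) ≤ π / 2 := by positivity
  have hkl : 0 ≤ k₂ - lam := by (clear * - hk₂; linarith)
  obtain ⟨E, hE⟩ : ∃ E, E = II x₁ x₂ (fun ξ η => ‖X (pt ξ η) - 1‖ ^ 2) := ⟨_, rfl⟩
  have hEE := En_add hx12 hX
  rw [← hE] at hEE ⊢
  have hE0 : 0 ≤ E := by
    rw [← hEE]
    exact add_nonneg (En_nonneg hx12) (En_nonneg hx12)
  -- one half
  have half : ∀ (Z : ℂ → ℂ) (ω ω₁ ω₂ : ℝ → ℝ → ℝ), Wt x₁ x₂ ω ω₁ ω₂ (fun _ _ => V) →
      NiceH Z x₁ x₂ → P Z x₁ x₂ →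
      IH x₁ x₂ (π / 2) (fun ξ η => ω ξ η * T Z ξ η) ≤
      (k₂ - lam) * (∫ ξ in x₁..x₂, ω ξ (π / 2) * (π / 2 * (1 - (Z (pt ξ (π / 2))).re))) +
        lam * En Z x₁ x₂ + dc * (π / 2 * (x₂ - x₁)) +
        (∫ ξ in x₁..x₂, ω ξ (π / 2) * K Z ξ) +
        IH x₁ x₂ (π / 2) (fun ξ η => ω ξ η * Mt Z ξ η) +
        π / 2 * |D| + (|C₁| + (k₂ - lam) * |C₂|) * (V * (π / 2 * (x₂ - x₁) + En Z x₁ x₂)) := by
    intro Z ω ω₁ ω₂ hω hZ hPZ
    obtain ⟨ε, cε, ε0, εD, hε⟩ := hp Z x₁ x₂ hx12 hZ hPZ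
    have b1 := hC₁ Z x₁ x₂ ω ω₁ ω₂ _ hx12 hω hZ hPZ
    have b2 := hC₂ Z x₁ x₂ ω ω₁ ω₂ _ hx12 hω hZ hPZ
    rw [Eg_const hx12 hZ] at b1 b2
    have hen := En_nonneg (X := Z) hx12
    obtain ⟨F, hF⟩ : ∃ F, F = V * (π / 2 * (x₂ - x₁) + En Z x₁ x₂) := ⟨_, rfl⟩
    have hF0 : 0 ≤ F := by
      rw [hF]
      have : 0 ≤ x₂ - x₁ := by linarith only [hx12]
      (clear * - hV hx12 hen; positivity)
    rw [← hF] at b1 b2 ⊢
    have cT : CH x₁ x₂ (π / 2) (T Z) := hTh Z x₁ x₂ hZ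
    have f1 : CH x₁ x₂ (π / 2) (fun ξ η => (k₂ - lam) * (ω ξ η * (1 - (Z (pt ξ η)).re))) :=
      (CH_const _).mul (hω.c0.mul
        (CH_comp hZ.an.continuousOn (W := fun X => 1 - X.re) (by fun_prop)))
    have f2 : CH x₁ x₂ (π / 2) (fun ξ η => lam * ‖Z (pt ξ η) - 1‖ ^ 2) :=
      (CH_const _).mul (CH_comp hZ.an.continuousOn (W := fun X => ‖X - 1‖ ^ 2) (by fun_prop))
    have f3 : CH x₁ x₂ (π / 2) (fun ξ η => ω ξ η * N Z ξ η) := hω.c0.mul (hN.cN Z x₁ x₂ hZ)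
    have f5 : CH x₁ x₂ (π / 2) (fun ξ η => ω ξ η * Mt Z ξ η) := hω.c0.mul (hMh Z x₁ x₂ hZ)
    have f4 : CH x₁ x₂ (π / 2) (fun ξ _ => ε ξ) := CH_xi cε
    have f6 : CH x₁ x₂ (π / 2) (fun _ _ => dc * 1) := CH_const _
    have m := IH_mono hx12 hpi (hω.c0.mul cT) (((((f1.add f2).add f3).add f5).add f6).add f4) (by
      intro ξ hξ η hη
      have h1 := hε ξ hξ η hη
      obtain ⟨w0, w1⟩ := hω.b01 ξ hξ η hη
      have h2 := mul_le_mul_of_nonneg_left h1 w0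
      refine h2.trans ?_
      obtain ⟨Q, hQ⟩ : ∃ Q, Q = Z (pt ξ η) := ⟨_, rfl⟩
      have hn : ‖Q - 1‖ ^ 2 = ‖Q‖ ^ 2 - 2 * Q.re + 1 := by
        rw [← normSq_eq_norm_sq, ← normSq_eq_norm_sq, normSq_apply, normSq_apply, sub_re, sub_im,
          one_re, one_im]
        ring
      have h3 : ω ξ η * ε ξ ≤ ε ξ := mul_le_of_le_one_left (ε0 ξ) w1
      have h4 : ω ξ η * (lam * ‖Q - 1‖ ^ 2) ≤ lam * ‖Q - 1‖ ^ 2 :=
        mul_le_of_le_one_left (mul_nonneg hlam (sq_nonneg _)) w1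
      have h5 : ω ξ η * (k₂ * (1 - Q.re) + lam * (‖Q‖ ^ 2 - Q.re) + dc + N Z ξ η + Mt Z ξ η +
          ε ξ) =
          (k₂ - lam) * (ω ξ η * (1 - Q.re)) + ω ξ η * (lam * ‖Q - 1‖ ^ 2) + ω ξ η * dc +
            ω ξ η * N Z ξ η + ω ξ η * Mt Z ξ η + ω ξ η * ε ξ := by
        rw [hn]
        ring
      have h6 : ω ξ η * dc ≤ dc := mul_le_of_le_one_left hdc w1
      rw [← hQ, h5]
      linarith only [h3, h4, h6])
    have e0 : IH x₁ x₂ (π / 2) (fun _ _ => dc * 1) = dc * (π / 2 * (x₂ - x₁)) := by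
      rw [IH_const_mul]
      congr 1
      unfold IH
      simp
      ring
    rw [IH_add hx12 hpi ((((f1.add f2).add f3).add f5).add f6) f4,
      IH_add hx12 hpi (((f1.add f2).add f3).add f5) f6,
      IH_add hx12 hpi ((f1.add f2).add f3) f5, IH_add hx12 hpi (f1.add f2) f3,
      IH_add hx12 hpi f1 f2, e0, IH_const_mul, IH_const_mul, IH_xi] at m
    have hD : π / 2 * ∫ ξ in x₁..x₂, ε ξ ≤ π / 2 * |D| :=
      mul_le_mul_of_nonneg_left (εD.trans (le_abs_self D)) hpi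
    have r1 : C₁ * F ≤ |C₁| * F := mul_le_mul_of_nonneg_right (le_abs_self C₁) hF0
    have r2 : C₂ * F ≤ |C₂| * F := mul_le_mul_of_nonneg_right (le_abs_self C₂) hF0
    have b1' := (abs_le.1 b1).2
    have b2' := (abs_le.1 b2).2
    have b3 : (k₂ - lam) * IH x₁ x₂ (π / 2) (fun ξ η => ω ξ η * (1 - (Z (pt ξ η)).re)) ≤
        (k₂ - lam) * ((∫ ξ in x₁..x₂, ω ξ (π / 2) * (π / 2 * (1 - (Z (pt ξ (π / 2))).re))) +
          |C₂| * F) := mul_le_mul_of_nonneg_left (by (clear * - r2 b2'; linarith only [r2, b2'])) hkl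
    rw [mul_add] at b3
    refine m.trans ?_
    have e : (|C₁| + (k₂ - lam) * |C₂|) * F = |C₁| * F + (k₂ - lam) * (|C₂| * F) := by ring
    rw [e]
    unfold En
    linarith
  have t1 := half X Ω Ω₁ Ω₂ hw.half (NiceX.half hX) hP
  have t2 := half (mir X) _ _ _ hw.mir (NiceX.mir hX) hP'
  have s1 := split_w (T := T) hx12 hw.c0 (hTc X x₁ x₂ hX) (hTm X x₁ x₂ hX)
  have s2 := split_w (T := Mt) hx12 hw.c0 (hMc X x₁ x₂ hX) (hMm X x₁ x₂ hX)
  have epi : π - π / 2 = π / 2 := by ring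
  simp only [epi] at t2
  rw [s1, s2]
  -- the line integrals
  have cΩ := CH_line hw.half.c0 pi2_mem
  have cXc : ContinuousOn (fun ξ : ℝ => X (pt ξ (π / 2))) (Icc x₁ x₂) :=
    contC (NiceX.half hX).an.continuousOn
  have i1 : IntervalIntegrable (fun ξ => Ω ξ (π / 2) * K X ξ) volume x₁ x₂ :=
    (cΩ.mul (hN.cK X x₁ x₂ (NiceX.half hX))).intervalIntegrable_of_Icc hx12
  have i2 : IntervalIntegrable (fun ξ => Ω ξ (π / 2) * K (mir X) ξ) volume x₁ x₂ :=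
    (cΩ.mul (hN.cK (mir X) x₁ x₂ (NiceX.mir hX))).intervalIntegrable_of_Icc hx12
  have s3 : ∫ ξ in x₁..x₂, Ω ξ (π / 2) * (K X ξ + K (mir X) ξ) =
      (∫ ξ in x₁..x₂, Ω ξ (π / 2) * K X ξ) + ∫ ξ in x₁..x₂, Ω ξ (π / 2) * K (mir X) ξ := by
    rw [← intervalIntegral.integral_add i1 i2]
    simp only [mul_add]
  rw [s3]
  obtain ⟨S, hS⟩ : ∃ S, S = ∫ ξ in x₁..x₂, Ω ξ (π / 2) * (1 - (X (pt ξ (π / 2))).re) := ⟨_, rfl⟩
  have e5 : ∫ ξ in x₁..x₂, Ω ξ (π / 2) * (π / 2 * (1 - (X (pt ξ (π / 2))).re)) = π / 2 * S := by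
    rw [hS, ← intervalIntegral.integral_const_mul]
    refine intervalIntegral.integral_congr fun ξ _ => ?_
    ring
  have e6 : ∫ ξ in x₁..x₂, Ω ξ (π / 2) * (π / 2 * (1 - (mir X (pt ξ (π / 2))).re)) =
      π / 2 * S := by
    rw [← e5]
    refine intervalIntegral.integral_congr fun ξ _ => ?_
    rw [mir_cent, conj_re]
  rw [e5] at t1
  rw [e6] at t2
  rw [← hS]
  have hF : V * (π / 2 * (x₂ - x₁) + En X x₁ x₂) + V * (π / 2 * (x₂ - x₁) + En (mir X) x₁ x₂) =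
      V * (π * (x₂ - x₁) + E) := by
    rw [← hEE]
    ring
  have hFn : 0 ≤ V * (π * (x₂ - x₁) + E) := by
    have : 0 ≤ x₂ - x₁ := by linarith only [hx12]
    (clear * - hV hx12 hE0; positivity)
  obtain ⟨c, hc⟩ : ∃ c, c = |C₁| + (k₂ - lam) * |C₂| := ⟨_, rfl⟩
  have hc0 : 0 ≤ c := by rw [hc]; (clear * - hk₂; positivity)
  rw [← hc] at t1 t2 ⊢
  have e7 : (c + π * |D|) * (1 + V * (π * (x₂ - x₁) + E)) =
      c * (V * (π * (x₂ - x₁) + E)) + c + π * |D| + π * |D| * (V * (π * (x₂ - x₁) + E)) := by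
    ring
  have e8 : c * (V * (π / 2 * (x₂ - x₁) + En X x₁ x₂)) +
      c * (V * (π / 2 * (x₂ - x₁) + En (mir X) x₁ x₂)) = c * (V * (π * (x₂ - x₁) + E)) := by
    rw [← mul_add, hF]
  have e9 : 0 ≤ π * |D| * (V * (π * (x₂ - x₁) + E)) :=
    mul_nonneg (mul_nonneg Real.pi_pos.le (abs_nonneg D)) hFn
  have e10 : lam * En X x₁ x₂ + lam * En (mir X) x₁ x₂ = lam * E := by rw [← mul_add, hEE]
  have e11 : dc * (π * (x₂ - x₁)) = dc * (π / 2 * (x₂ - x₁)) + dc * (π / 2 * (x₂ - x₁)) := by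
    ring
  rw [e7, e11]
  linarith only [t2, t1, hc0, e8, e9, e10]

end Pool.Agent.Helper84.CK

end

section

namespace Pool.Agent.Helper39.Area
end Pool.Agent.Helper39.Area
namespace Pool.Agent.Helper52.EK
end Pool.Agent.Helper52.EK
namespace Pool.Agent.Helper67.EK
end Pool.Agent.Helper67.EK
namespace Pool.Agent.Helper69.EK3
end Pool.Agent.Helper69.EK3

set_option autoImplicit false

open Complex Metric Set Filter Topology

open scoped Real ComplexConjugate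

namespace Pool.Agent.Helper69.CK

open Pool.Agent.Helper39.Area Pool.Agent.Helper52.EK Pool.Agent.Helper67.EK

open Pool.Agent.Helper69.EK3

/-- the distance estimate -/
theorem oo_ne_g {ξ η σ r : ℝ} (h0 : 0 < η) (h1 : η < π) (hσ : 0 < σ)
    (hr1 : r ^ 2 * (Real.exp ξ ^ 2 + σ ^ 2 + 2 * Real.exp ξ * σ * Real.sin η) ≤
      Real.exp ξ ^ 2 + σ ^ 2 - 2 * Real.exp ξ * σ * Real.sin η) {u : ℂ} (hu : ‖u‖ < r)
    (hu1 : ‖u‖ < 1) : Complex.exp (oo ξ η u) ≠ (σ : ℂ) * I := by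
  have hs := Real.sin_pos_of_pos_of_lt_pi h0 h1
  have hy := Real.exp_pos ξ
  intro hc
  have hE := oo_exp ξ η hu1
  rw [hc] at hE
  set Z := Complex.exp (pt ξ η) with hZ
  have hE2 : (conj Z - (σ : ℂ) * I) * u = Z - (σ : ℂ) * I := by
    rw [hZ, conj_exp_pt, ← hZ]
    linear_combination hE
  have hZr : Z.re = Real.exp ξ * Real.cos η := by rw [hZ, exp_pt_re]
  have hZi : Z.im = Real.exp ξ * Real.sin η := by rw [hZ, exp_pt_im]
  have e1 := congrArg (fun w : ℂ => ‖w‖ ^ 2) hE2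
  simp only [norm_mul, mul_pow] at e1
  rw [← Complex.normSq_eq_norm_sq, ← Complex.normSq_eq_norm_sq (Z - _), Complex.normSq_apply,
    Complex.normSq_apply] at e1
  simp only [mul_im, mul_re, sub_re, sub_im, conj_re, conj_im, I_re, I_im, ofReal_re,
    ofReal_im] at e1
  rw [hZr, hZi] at e1
  set y := Real.exp ξ with hyd
  set s := Real.sin η with hsd
  set c := Real.cos η with hcd
  have hsc : s ^ 2 + c ^ 2 = 1 := Real.sin_sq_add_cos_sq η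
  have e2 : (y ^ 2 + σ ^ 2 + 2 * y * σ * s) * ‖u‖ ^ 2 = y ^ 2 + σ ^ 2 - 2 * y * σ * s := by
    linear_combination e1 + (-(‖u‖ ^ 2) * y ^ 2 + y ^ 2) * hsc
  have e4 : ‖u‖ ^ 2 < r ^ 2 := pow_lt_pow_left₀ hu (norm_nonneg u) (by norm_num)
  have e5 : 0 < y ^ 2 + σ ^ 2 + 2 * y * σ * s := by (clear * - hσ hs; positivity)
  have e6 : (y ^ 2 + σ ^ 2 + 2 * y * σ * s) * ‖u‖ ^ 2 <
      (y ^ 2 + σ ^ 2 + 2 * y * σ * s) * r ^ 2 := mul_lt_mul_of_pos_left e4 e5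
  linarith only [hr1, e2, e6]

/-- **Koebe and Bieberbach at all points of the strip** -/
theorem bieb_strip_g {β : ℂ → ℂ} {R : ℝ} (h : ExtR β R) {a : ℝ} (ha : 0 < a) (ha1 : a < 1)
    {ξ η : ℝ} (h1 : Real.log (tau a) < ξ) (h2 : ξ < 0) (h3 : 0 < η) (h4 : η < π) {r : ℝ}
    (hr : 0 < r) (hrlt : r < 1)
    (hr1 : r ^ 2 * (Real.exp ξ ^ 2 + 1 ^ 2 + 2 * Real.exp ξ * 1 * Real.sin η) ≤
      Real.exp ξ ^ 2 + 1 ^ 2 - 2 * Real.exp ξ * 1 * Real.sin η)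
    (hr2 : r ^ 2 * (Real.exp ξ ^ 2 + tau a ^ 2 + 2 * Real.exp ξ * tau a * Real.sin η) ≤
      Real.exp ξ ^ 2 + tau a ^ 2 - 2 * Real.exp ξ * tau a * Real.sin η) {X Y : ℂ}
    (hX : X = Xf β a (pt ξ η)) (hY : Y = deriv (Xf β a) (pt ξ η)) :
    Real.sin η * ‖X‖ * r ≤ 1 ∧
    ‖(1 + e0 (Real.sin η) (Real.cos η)) * (2 * X - 1 + Y / X) + 2‖ * r ≤ 4 ∧
    ‖(1 + e0 (Real.sin η) (Real.cos η)) * (-2 * X - 1 + Y / X) + 2‖ * r ≤ 4 := by
  have hτ : 0 < tau a := by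
    unfold tau
    have : 0 < 1 - a := by (clear * - ha1; linarith)
    (clear * - ha1 ha; positivity)
  have hs := Real.sin_pos_of_pos_of_lt_pi h3 h4
  have hy := Real.exp_pos ξ
  have hat : a = (1 - tau a) / (1 + tau a) := by
    unfold tau
    field_simp
    ring
  have haB : (a : ℂ) ∈ ball (0:ℂ) 1 := by
    rw [mem_ball_zero_iff, Complex.norm_real, Real.norm_of_nonneg ha.le]
    exact ha1
  have ha0 : (a : ℂ) ≠ 0 := by exact_mod_cast ha.ne'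
  have hlt : ∀ u ∈ ball (0:ℂ) r, ‖u‖ < 1 := by
    intro u hu
    rw [mem_ball_zero_iff] at hu
    (clear * - hrlt hu; linarith only [hrlt, hu])
  have him : ∀ u ∈ ball (0:ℂ) r, 0 < (Complex.exp (oo ξ η u)).im := fun u hu =>
    oo_im h3 h4 (hlt u hu)
  have hmem : ∀ u ∈ ball (0:ℂ) r, zf (oo ξ η u) ∈ ball (0:ℂ) 1 := fun u hu =>
    zf_mem_of (him u hu)
  have hne0 : ∀ u ∈ ball (0:ℂ) r, zf (oo ξ η u) ≠ 0 := by
    intro u hu h0
    have hu' := hu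
    rw [mem_ball_zero_iff] at hu'
    rw [zf, div_eq_zero_iff] at h0
    rcases h0 with h0 | h0
    · refine oo_ne_g (ξ := ξ) (σ := 1) h3 h4 one_pos hr1 hu' (hlt u hu) ?_
      rw [ofReal_one, one_mul]
      linear_combination -h0
    · exact I_add_exp_ne (him u hu) h0
  have hnea : ∀ u ∈ ball (0:ℂ) r, zf (oo ξ η u) ≠ a := by
    intro u hu h0
    have hu' := hu
    rw [mem_ball_zero_iff] at hu'
    rw [zf, div_eq_iff (I_add_exp_ne (him u hu))] at h0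
    refine oo_ne_g (ξ := ξ) (σ := tau a) h3 h4 hτ hr2 hu' (hlt u hu) ?_
    · have e1 : (1 + (a : ℂ)) * Complex.exp (oo ξ η u) = (1 - a) * I := by
        linear_combination -h0
      have e2 : (1 + (a : ℂ)) ≠ 0 := by
        have : (1 + a : ℝ) ≠ 0 := by (clear * - ha; positivity)
        exact_mod_cast this
      have e3 : ((tau a : ℝ) : ℂ) = (1 - a) / (1 + a) := by
        unfold tau
        push_cast
        rfl
      rw [e3, div_mul_eq_mul_div, eq_div_iff e2]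
      linear_combination e1
  set G : ℂ → ℂ := fun u => phi β (zf (oo ξ η u)) - phi β a with hG
  set B : ℂ → ℂ := fun u => 2 * Xf β a (oo ξ η u) * od η u with hB
  have hGne : ∀ u ∈ ball (0:ℂ) r, G u ≠ 0 := by
    intro u hu h0
    exact hnea u hu (h.toExt.inj _ _ (hmem u hu) haB (hne0 u hu) ha0 (sub_eq_zero.mp h0))
  have hGi : InjOn G (ball 0 r) := by
    intro u hu v hv huv
    have e1 : phi β (zf (oo ξ η u)) = phi β (zf (oo ξ η v)) := by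
      have : phi β (zf (oo ξ η u)) - phi β a = phi β (zf (oo ξ η v)) - phi β a := huv
      linear_combination this
    have e2 := h.toExt.inj _ _ (hmem u hu) (hmem v hv) (hne0 u hu) (hne0 v hv) e1
    have e3 : Complex.exp (oo ξ η u) = Complex.exp (oo ξ η v) := by
      unfold zf at e2
      rw [div_eq_div_iff (I_add_exp_ne (him u hu)) (I_add_exp_ne (him v hv))] at e2
      have e4 : (Complex.exp (oo ξ η u) - Complex.exp (oo ξ η v)) * (2 * I) = 0 := by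
        linear_combination -e2
      rcases mul_eq_zero.mp e4 with e4 | e4
      · linear_combination e4
      · exact absurd e4 (by simp)
    have u1 := oo_exp ξ η (hlt u hu)
    have v1 := oo_exp ξ η (hlt v hv)
    rw [e3] at u1
    have e5 : Complex.exp (pt ξ η) * ((kq η - 1) * (u - v)) = 0 := by
      linear_combination (1 - v) * u1 - (1 - u) * v1
    rcases mul_eq_zero.mp e5 with e6 | e6
    · exact absurd e6 (Complex.exp_ne_zero _)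
    · rcases mul_eq_zero.mp e6 with e7 | e7
      · exact absurd (by linear_combination e7) (kq_ne_one h3 h4)
      · linear_combination e7
  have hGd : ∀ u ∈ ball (0:ℂ) r, HasDerivAt G (G u * B u) u := by
    intro u hu
    have d1 := oo_hasDerivAt ξ η (hlt u hu)
    have d2 := (Pool.Agent.Helper97.EK.hasDerivAt_zf (I_add_exp_ne (him u hu))).comp u d1
    have d3 := (hasDerivAt_phi h.toExt.diff (hmem u hu) (hne0 u hu)).comp u d2
    have d4 := d3.sub_const (phi β a)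
    have e : G u * B u = dphi β (zf (oo ξ η u)) * (zd (oo ξ η u) * od η u) := by
      have := hGne u hu
      simp only [hG] at this
      simp only [hG, hB]
      unfold Xf
      (clear * - this; field_simp)
    rw [e]
    exact d4
  obtain ⟨x₁, hx₁, hx₁'⟩ := exists_between h1
  obtain ⟨x₂, hx₂, hx₂'⟩ := exists_between h2
  have hN := E1c h ha ha1 hx₁ hx₂'
  have hω0 : pt ξ η ∈ Rect x₁ x₂ := by
    unfold Rect
    rw [Complex.mem_reProdIm]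
    have e1 : (pt ξ η).re = ξ := by simp [pt]
    have e2 : (pt ξ η).im = η := by simp [pt]
    rw [e1, e2]
    exact ⟨⟨hx₁'.le, hx₂.le⟩, ⟨h3.le, h4.le⟩⟩
  have hXa : AnalyticAt ℂ (Xf β a) (pt ξ η) := hN.an _ hω0
  have hX0 : X ≠ 0 := by rw [hX]; exact hN.ne _ hω0
  have hz1 : ‖(0:ℂ)‖ < 1 := by simp
  have hBd : HasDerivAt B (2 * (Y * od η 0) * od η 0 + 2 * X * (1 - kq η ^ 2)) 0 := by
    have d1 := oo_hasDerivAt ξ η hz1
    have d2 : HasDerivAt (Xf β a) Y (oo ξ η 0) := by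
      rw [oo_zero, hY]
      exact hXa.differentiableAt.hasDerivAt
    have d3 := ((d2.comp (0:ℂ) d1).const_mul 2).mul (od_hasDerivAt η)
    have e : 2 * (Y * od η 0) * od η 0 + 2 * X * (1 - kq η ^ 2) =
        2 * (Y * od η 0) * od η 0 + 2 * (Xf β a ∘ oo ξ η) 0 * (1 - kq η ^ 2) := by
      rw [Function.comp_apply, oo_zero, hX]
    rw [e]
    exact d3
  obtain ⟨k1, k2, k3⟩ := univ_log hr hGi hGne hGd hBd
  have hB0 : B 0 = 2 * X * (1 - kq η) := by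
    simp only [hB]
    rw [oo_zero, od_zero, hX]
  have hkn : ‖1 - kq η‖ = 2 * Real.sin η := by
    have e1 : 1 - kq η = (2 * Real.sin η : ℝ) * ((Real.sin η : ℂ) + (Real.cos η : ℂ) * I) := by
      rw [kq_eq]
      push_cast
      have h5 : Complex.cos η ^ 2 + Complex.sin η ^ 2 = 1 := Complex.cos_sq_add_sin_sq _
      linear_combination -h5 - Complex.sin η ^ 2 * I_sq
    have e2 : ‖(Real.sin η : ℂ) + (Real.cos η : ℂ) * I‖ = 1 := by
      have e3 : ‖(Real.sin η : ℂ) + (Real.cos η : ℂ) * I‖ ^ 2 = 1 := by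
        rw [← Complex.normSq_eq_norm_sq, Complex.normSq_apply]
        simp only [add_re, add_im, mul_re, mul_im, ofReal_re, ofReal_im, I_re, I_im, mul_zero,
          mul_one, sub_zero, add_zero, zero_add]
        (clear * -; linarith only [Real.sin_sq_add_cos_sq η])
      have e4 := norm_nonneg ((Real.sin η : ℂ) + (Real.cos η : ℂ) * I)
      nlinarith only [e3, e4]
    rw [e1, norm_mul, e2, mul_one, Complex.norm_real, Real.norm_of_nonneg (by (clear * - hs; positivity))]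
  have hke : 1 + e0 (Real.sin η) (Real.cos η) = 1 - kq η := by
    unfold kq
    ring
  have hXn : 0 < ‖X‖ := norm_pos_iff.mpr hX0
  have hBn : ‖B 0‖ = 4 * (Real.sin η * ‖X‖) := by
    rw [hB0, norm_mul, norm_mul, hkn]
    have : ‖(2:ℂ)‖ = 2 := by simp
    rw [this]
    ring
  have hBp : 0 < ‖B 0‖ := by
    rw [hBn]
    (clear * - hs hX0; positivity)
  refine ⟨?_, ?_, ?_⟩
  · rw [hBn] at k1
    linarith only [k1]
  · have e : 2 * (Y * od η 0) * od η 0 + 2 * X * (1 - kq η ^ 2) + B 0 ^ 2 =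
        B 0 * ((1 - kq η) * (2 * X - 1 + Y / X) + 2) := by
      rw [hB0, od_zero]
      field_simp
      ring
    rw [e, norm_mul] at k2
    rw [hke]
    have : ‖B 0‖ * (‖(1 - kq η) * (2 * X - 1 + Y / X) + 2‖ * r) ≤ ‖B 0‖ * 4 := by (clear * - k2; linarith only [k2])
    exact le_of_mul_le_mul_left this hBp
  · have e : 2 * (Y * od η 0) * od η 0 + 2 * X * (1 - kq η ^ 2) - B 0 ^ 2 =
        B 0 * ((1 - kq η) * (-2 * X - 1 + Y / X) + 2) := by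
      rw [hB0, od_zero]
      field_simp
      ring
    rw [e, norm_mul] at k3
    rw [hke]
    have : ‖B 0‖ * (‖(1 - kq η) * (-2 * X - 1 + Y / X) + 2‖ * r) ≤ ‖B 0‖ * 4 := by linarith only [k3]
    exact le_of_mul_le_mul_left this hBp

end Pool.Agent.Helper69.CK

end

section

namespace Pool.Agent.Helper39.Area
end Pool.Agent.Helper39.Area
namespace Pool.Agent.Helper52.EK
end Pool.Agent.Helper52.EK
namespace Pool.Agent.Helper69.EK3
end Pool.Agent.Helper69.EK3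

set_option autoImplicit false

open Complex MeasureTheory Metric Set

open scoped Real ComplexConjugate

namespace Pool.Agent.Helper69.CK

open Pool.Agent.Helper39.Area Pool.Agent.Helper52.EK Pool.Agent.Helper69.EK3

/-- the bounds of Koebe and Bieberbach with an integrable error times `sin η`, `0 ≤ η ≤ h` -/
def DiscG (h : ℝ) (X : ℂ → ℂ) (x₁ x₂ : ℝ) : Prop :=
  ∃ δ : ℝ → ℝ, Continuous δ ∧ (∀ ξ, 0 ≤ δ ξ) ∧ (∀ ξ ∈ Icc x₁ x₂, δ ξ ≤ 8) ∧
    (∫ ξ in x₁..x₂, δ ξ ≤ 8) ∧ ∀ ξ ∈ Icc x₁ x₂, ∀ η ∈ Icc (0:ℝ) h,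
      Real.sin η * ‖X (pt ξ η)‖ ≤ 1 + δ ξ * Real.sin η ∧
      ‖dA 1 (X (pt ξ η)) (deriv X (pt ξ η)) (Real.sin η) (Real.cos η)‖ ≤
        4 * (1 + δ ξ * Real.sin η) ∧
      ‖dA (-1) (X (pt ξ η)) (deriv X (pt ξ η)) (Real.sin η) (Real.cos η)‖ ≤
        4 * (1 + δ ξ * Real.sin η)

theorem sin_nnh {h η : ℝ} (hh : h ≤ π) (hη : η ∈ Icc (0:ℝ) h) : 0 ≤ Real.sin η :=
  Real.sin_nonneg_of_nonneg_of_le_pi hη.1 (hη.2.trans hh)

theorem ds_le {d s : ℝ} (hd : 0 ≤ d) (_hs : 0 ≤ s) (hs1 : s ≤ 1) : d * s ≤ d := by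
  (clear * - hd hs1; nlinarith only [hd, hs1])

theorem DiscG.X_le {h : ℝ} (hh : h ≤ π) {X : ℂ → ℂ} {x₁ x₂ : ℝ} (hD : DiscG h X x₁ x₂) :
    ∀ ξ ∈ Icc x₁ x₂, ∀ η ∈ Icc (0:ℝ) h, Real.sin η * ‖X (pt ξ η)‖ ≤ 9 := by
  obtain ⟨δ, _, h2, h3, _, h5⟩ := hD
  intro ξ hξ η hη
  obtain ⟨k1, _, _⟩ := h5 ξ hξ η hη
  have := ds_le (h2 ξ) (sin_nnh hh hη) (Real.sin_le_one η)
  (clear * - h3 hξ k1 this; linarith only [h3 ξ hξ, k1, this])

theorem DiscG.q_le {h : ℝ} (hh : h ≤ π) {X : ℂ → ℂ} {x₁ x₂ : ℝ} (hD : DiscG h X x₁ x₂) :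
    ∀ ξ ∈ Icc x₁ x₂, ∀ η ∈ Icc (0:ℝ) h,
      Real.sin η * ‖deriv X (pt ξ η) / X (pt ξ η)‖ ≤ 38 := by
  obtain ⟨δ, _, h2, h3, _, h5⟩ := hD
  intro ξ hξ η hη
  obtain ⟨k1, k2, _⟩ := h5 ξ hξ η hη
  have := ds_le (h2 ξ) (sin_nnh hh hη) (Real.sin_le_one η)
  have h8 := h3 ξ hξ
  exact sin_q_le (sin_nnh hh hη) h8 (k1.trans (by (clear * - this; linarith only [this]))) (k2.trans (by linarith only [this]))

/-- the angular inequality -/
theorem ang_ineq {t s d : ℝ} (ht : 0 ≤ t) (ht1 : t ≤ 1 / 2) (hs : 0 ≤ s) (hs1 : s ≤ 1)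
    (hd : 8 * t * s ≤ d) :
    1 + t ^ 2 + 2 * t * s ≤ (1 + d) ^ 2 * (1 + t ^ 2 - 2 * t * s) := by
  have h0 : 0 ≤ t * s := mul_nonneg ht hs
  have h1 : t * s ≤ t := by nlinarith only [ht, hs1]
  have h2 : 1 / 4 ≤ 1 + t ^ 2 - 2 * t * s := by nlinarith only [ht, ht1, hs1]
  have h3 : 1 + 16 * (t * s) ≤ (1 + d) ^ 2 := by nlinarith only [hd, h0]
  have h4 : (1 + 16 * (t * s)) * (1 + t ^ 2 - 2 * t * s) ≤ (1 + d) ^ 2 * (1 + t ^ 2 - 2 * t * s) :=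
    mul_le_mul_of_nonneg_right h3 (by linarith only [h2])
  nlinarith only [h0, h2, h3]

/-- the bounds for `Xf`, on the whole strip -/
theorem disc_Xf_g {β : ℂ → ℂ} {R a : ℝ} (h : ExtR β R) (ha : 0 < a) (ha1 : a < 1) {ξ η : ℝ}
    (h1 : Real.log (tau a) + 1 ≤ ξ) (h2 : ξ ≤ -1) (h3 : 0 ≤ η) (h4 : η ≤ π) :
    Real.sin η * ‖Xf β a (pt ξ η)‖ ≤
      1 + (8 * Real.exp ξ + 8 * Real.exp (Real.log (tau a) - ξ)) * Real.sin η ∧
    ‖dA 1 (Xf β a (pt ξ η)) (deriv (Xf β a) (pt ξ η)) (Real.sin η) (Real.cos η)‖ ≤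
      4 * (1 + (8 * Real.exp ξ + 8 * Real.exp (Real.log (tau a) - ξ)) * Real.sin η) ∧
    ‖dA (-1) (Xf β a (pt ξ η)) (deriv (Xf β a) (pt ξ η)) (Real.sin η) (Real.cos η)‖ ≤
      4 * (1 + (8 * Real.exp ξ + 8 * Real.exp (Real.log (tau a) - ξ)) * Real.sin η) := by
  have hy0 := Real.exp_pos ξ
  have hq0 := Real.exp_pos (Real.log (tau a) - ξ)
  rcases eq_or_lt_of_le h3 with h5 | h5
  · subst h5
    have e : dA 1 (Xf β a (pt ξ 0)) (deriv (Xf β a) (pt ξ 0)) (Real.sin 0) (Real.cos 0) = 2 := by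
      simp [dA, e0]
    have e' : dA (-1) (Xf β a (pt ξ 0)) (deriv (Xf β a) (pt ξ 0)) (Real.sin 0) (Real.cos 0) =
        2 := by
      simp [dA, e0]
    have e4 : ‖(2:ℂ)‖ = 2 := by simp
    rw [e, e', e4, Real.sin_zero, zero_mul]
    refine ⟨by (clear * -; linarith only []), by (clear * -; linarith only []), by (clear * -; linarith only [])⟩
  rcases eq_or_lt_of_le h4 with h6 | h6
  · subst h6
    have e : dA 1 (Xf β a (pt ξ π)) (deriv (Xf β a) (pt ξ π)) (Real.sin π) (Real.cos π) = 2 := by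
      simp [dA, e0]
    have e' : dA (-1) (Xf β a (pt ξ π)) (deriv (Xf β a) (pt ξ π)) (Real.sin π) (Real.cos π) =
        2 := by
      simp [dA, e0]
    have e4 : ‖(2:ℂ)‖ = 2 := by simp
    rw [e, e', e4, Real.sin_pi, zero_mul]
    refine ⟨by (clear * -; linarith only []), by (clear * -; linarith only []), by linarith only []⟩
  have hτ : 0 < tau a := by
    unfold tau
    have : 0 < 1 - a := by linarith only [ha1]
    (clear * - ha1 ha; positivity)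
  have hhalf : Real.exp (-1) ≤ 1 / 2 := by
    have h9 : Real.exp (-1) < 0.3678794412 := Real.exp_neg_one_lt_d9
    (clear * - h9; linarith only [h9])
  have hy : Real.exp ξ ≤ 1 / 2 := (Real.exp_le_exp.mpr h2).trans hhalf
  have hq : Real.exp (Real.log (tau a) - ξ) ≤ 1 / 2 :=
    (Real.exp_le_exp.mpr (by linarith only [h1])).trans hhalf
  have hτe : tau a = Real.exp ξ * Real.exp (Real.log (tau a) - ξ) := by
    rw [← Real.exp_add, add_sub_cancel, Real.exp_log hτ]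
  have hs := Real.sin_pos_of_pos_of_lt_pi h5 h6
  have hs1 := Real.sin_le_one η
  obtain ⟨δ, hδ⟩ : ∃ δ, δ = (8 * Real.exp ξ + 8 * Real.exp (Real.log (tau a) - ξ)) *
    Real.sin η := ⟨_, rfl⟩
  have hδ0 : 0 < δ := by rw [hδ]; (clear * - hs; positivity)
  have hr : 0 < (1 + δ)⁻¹ := by (clear * - hδ0; positivity)
  have hr1 : (1 + δ)⁻¹ < 1 := inv_lt_one_of_one_lt₀ (by (clear * - hδ0; linarith only [hδ0]))
  have hδ1 : 8 * Real.exp ξ * Real.sin η ≤ δ := by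
    rw [hδ]
    (clear * - hq0 hs; linarith only [mul_pos hq0 hs])
  have hδ2 : 8 * Real.exp (Real.log (tau a) - ξ) * Real.sin η ≤ δ := by
    rw [hδ]
    linarith only [mul_pos hy0 hs]
  have a1 := ang_ineq hy0.le hy hs.le hs1 hδ1
  have a2 := ang_ineq hq0.le hq hs.le hs1 hδ2
  have hk := bieb_strip_g h ha ha1 (ξ := ξ) (η := η) (by linarith only [h1]) (by linarith only [h2]) h5 h6 hr hr1
    (by
      rw [inv_pow, inv_mul_le_iff₀ (by (clear * - hδ0; positivity))]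
      (clear * - a1; linarith only [a1]))
    (by
      rw [inv_pow, inv_mul_le_iff₀ (by (clear * - hδ0; positivity))]
      have e1 : Real.exp ξ ^ 2 + tau a ^ 2 + 2 * Real.exp ξ * tau a * Real.sin η =
          Real.exp ξ ^ 2 * (1 + Real.exp (Real.log (tau a) - ξ) ^ 2 +
            2 * Real.exp (Real.log (tau a) - ξ) * Real.sin η) := by
        generalize Real.exp (Real.log (tau a) - ξ) = t at *
        rw [hτe]
        ring
      have e2 : Real.exp ξ ^ 2 + tau a ^ 2 - 2 * Real.exp ξ * tau a * Real.sin η =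
          Real.exp ξ ^ 2 * (1 + Real.exp (Real.log (tau a) - ξ) ^ 2 -
            2 * Real.exp (Real.log (tau a) - ξ) * Real.sin η) := by
        generalize Real.exp (Real.log (tau a) - ξ) = t at *
        rw [hτe]
        ring
      rw [e1, e2]
      have := mul_le_mul_of_nonneg_left a2 (sq_nonneg (Real.exp ξ))
      (clear * - this; linarith only [this]))
    rfl rfl
  obtain ⟨k1, k2, k3⟩ := hk
  rw [← hδ]
  have hp : 0 < 1 + δ := by linarith only [hδ0]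
  refine ⟨?_, ?_, ?_⟩
  · rwa [← div_eq_mul_inv, div_le_iff₀ hp, one_mul] at k1
  · rw [← div_eq_mul_inv, div_le_iff₀ hp] at k2
    have e : dA 1 (Xf β a (pt ξ η)) (deriv (Xf β a) (pt ξ η)) (Real.sin η) (Real.cos η) =
        (1 + e0 (Real.sin η) (Real.cos η)) * (2 * Xf β a (pt ξ η) - 1 +
          deriv (Xf β a) (pt ξ η) / Xf β a (pt ξ η)) + 2 := by
      unfold dA
      push_cast
      ring
    rw [e]
    exact k2
  · rw [← div_eq_mul_inv, div_le_iff₀ hp] at k3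
    have e : dA (-1) (Xf β a (pt ξ η)) (deriv (Xf β a) (pt ξ η)) (Real.sin η) (Real.cos η) =
        (1 + e0 (Real.sin η) (Real.cos η)) * (-2 * Xf β a (pt ξ η) - 1 +
          deriv (Xf β a) (pt ξ η) / Xf β a (pt ξ η)) + 2 := by
      unfold dA
      push_cast
      ring
    rw [e]
    exact k3

theorem dG_cont (a : ℝ) :
    Continuous (fun ξ : ℝ => 8 * Real.exp ξ + 8 * Real.exp (Real.log (tau a) - ξ)) := by
  fun_prop

theorem dG_le8 (a : ℝ) : ∀ ξ ∈ Icc (Real.log (tau a) + 1) (-1),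
    8 * Real.exp ξ + 8 * Real.exp (Real.log (tau a) - ξ) ≤ 8 := by
  intro ξ hξ
  have h9 : Real.exp (-1) < 0.3678794412 := Real.exp_neg_one_lt_d9
  have h1 : Real.exp ξ ≤ Real.exp (-1) := Real.exp_le_exp.2 hξ.2
  have h2 : Real.exp (Real.log (tau a) - ξ) ≤ Real.exp (-1) :=
    Real.exp_le_exp.2 (by (clear * - hξ; linarith only [hξ.1]))
  (clear * - h9 h1 h2; linarith only [h9, h1, h2])

theorem dG_int (a : ℝ) : ∫ ξ in (Real.log (tau a) + 1)..(-1),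
    (8 * Real.exp ξ + 8 * Real.exp (Real.log (tau a) - ξ)) ≤ 8 := by
  have i1 : IntervalIntegrable (fun ξ : ℝ => 8 * Real.exp ξ) volume
      (Real.log (tau a) + 1) (-1) :=
    (by fun_prop : Continuous fun ξ : ℝ => 8 * Real.exp ξ).intervalIntegrable _ _
  have i2 : IntervalIntegrable (fun ξ : ℝ => 8 * Real.exp (Real.log (tau a) - ξ)) volume
      (Real.log (tau a) + 1) (-1) :=
    (by fun_prop : Continuous fun ξ : ℝ => 8 * Real.exp (Real.log (tau a) - ξ)).intervalIntegrable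
      _ _
  rw [intervalIntegral.integral_add i1 i2, intervalIntegral.integral_const_mul,
    intervalIntegral.integral_const_mul,
    intervalIntegral.integral_comp_sub_left (fun u => Real.exp u) (Real.log (tau a)),
    integral_exp, integral_exp]
  have h9 : Real.exp (-1) < 0.3678794412 := Real.exp_neg_one_lt_d9
  have e2 := Real.exp_pos (Real.log (tau a) + 1)
  have e3 : Real.exp (Real.log (tau a) - (Real.log (tau a) + 1)) = Real.exp (-1) := by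
    congr 1
    ring
  have e4 := Real.exp_pos (Real.log (tau a) - -1)
  rw [e3]
  (clear * - h9 e2 e4; linarith)

/-- `Xf` is in the class, on the full strip -/
theorem discG_Xf (β : ℂ → ℂ) (R a : ℝ) (h : ExtR β R) (ha : 0 < a) (ha1 : a < 1)
    (_hx : Real.log (tau a) + 1 ≤ -1) : DiscG π (Xf β a) (Real.log (tau a) + 1) (-1) :=
  ⟨_, dG_cont a, fun ξ => by (clear * -; positivity), dG_le8 a, dG_int a,
    fun ξ hξ η hη => disc_Xf_g h ha ha1 hξ.1 hξ.2 hη.1 hη.2⟩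

/-- `Xf` and its mirror image are in the class, on the half strip -/
theorem discG_Xf_half (β : ℂ → ℂ) (R a : ℝ) (h : ExtR β R) (ha : 0 < a) (ha1 : a < 1)
    (_hx : Real.log (tau a) + 1 ≤ -1) : DiscG (π / 2) (Xf β a) (Real.log (tau a) + 1) (-1) ∧
      DiscG (π / 2) (mir (Xf β a)) (Real.log (tau a) + 1) (-1) := by
  have hpi := Real.pi_pos
  refine ⟨⟨_, dG_cont a, fun ξ => by positivity, dG_le8 a, dG_int a,
    fun ξ hξ η hη => disc_Xf_g h ha ha1 hξ.1 hξ.2 hη.1 (hη.2.trans (by (clear * - hpi; linarith)))⟩,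
    ⟨_, dG_cont a, fun ξ => by positivity, dG_le8 a, dG_int a, ?_⟩⟩
  intro ξ hξ η hη
  have hX := Pool.Agent.Helper67.EK.E1c h ha ha1 (x₁ := Real.log (tau a) + 1) (x₂ := -1)
    (by (clear * - ha ha1; linarith)) (by norm_num)
  have hm : pt ξ (π - η) ∈ Rect (Real.log (tau a) + 1) (-1) := by
    have := mir_mem (pt_mem_RectH hξ hη)
    rwa [conj_pt] at this
  have hA : AnalyticAt ℂ (Xf β a) (pt ξ (π - η)) := hX.an _ hm
  have hk := disc_Xf_g h ha ha1 hξ.1 hξ.2 (η := π - η) (by (clear * - hη hpi; linarith only [hη.2, hpi])) (by linarith [hη.1])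
  rw [Real.sin_pi_sub, Real.cos_pi_sub] at hk
  rw [mir_pt, mir_deriv_pt hA.differentiableAt, dA_mir, dA_mir, Complex.norm_conj,
    Complex.norm_conj, Complex.norm_conj]
  exact hk

end Pool.Agent.Helper69.CK

end

section

namespace Pool.Agent.Helper52.EK
end Pool.Agent.Helper52.EK
namespace Pool.Agent.Helper69.EK3
end Pool.Agent.Helper69.EK3
namespace Pool.Agent.Helper69.EK7
end Pool.Agent.Helper69.EK7
namespace Pool.Agent.Helper84.CK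
end Pool.Agent.Helper84.CK

set_option autoImplicit false

open Complex MeasureTheory Metric Set

open scoped Real ComplexConjugate

namespace Pool.Agent.Helper69.CKC

open Pool.Agent.Helper52.EK Pool.Agent.Helper69.EK3 Pool.Agent.Helper69.EK7

open Pool.Agent.Helper84.CK

/-- the energy of the strip -/
noncomputable def Es (X : ℂ → ℂ) (x₁ x₂ : ℝ) : ℝ :=
  IH x₁ x₂ π (fun ξ η => ‖X (pt ξ η) - 1‖ ^ 2)

/-- `N` is null in the full strip against weights -/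
structure IsNullC (P : (ℂ → ℂ) → ℝ → ℝ → Prop) (N : (ℂ → ℂ) → ℝ → ℝ → ℝ) : Prop where
  cN : ∀ (X : ℂ → ℂ) (x₁ x₂ : ℝ), NiceX X x₁ x₂ → CH x₁ x₂ π (N X)
  le : ∃ C : ℝ, ∀ (X : ℂ → ℂ) (x₁ x₂ V : ℝ) (Ω Ω₁ Ω₂ : ℝ → ℝ → ℝ), x₁ ≤ x₂ →
    WtF x₁ x₂ V Ω Ω₁ Ω₂ → NiceX X x₁ x₂ → P X x₁ x₂ →
    |IH x₁ x₂ π (fun ξ η => Ω ξ η * N X ξ η)| ≤ C * (V * (π * (x₂ - x₁) + Es X x₁ x₂))

theorem contF {X : ℂ → ℂ} {x₁ x₂ : ℝ} (hX : ContinuousOn X (Rect x₁ x₂)) :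
    ContinuousOn (fun p : ℝ × ℝ => X (pt p.1 p.2)) (Icc x₁ x₂ ×ˢ Icc 0 π) :=
  contH (h := π) hX

theorem pt_mem {x₁ x₂ ξ η : ℝ} (h1 : ξ ∈ Icc x₁ x₂) (h2 : η ∈ Icc 0 π) : pt ξ η ∈ Rect x₁ x₂ :=
  pt_mem_RectH h1 h2

theorem sin_nn' {η : ℝ} (hη : η ∈ Icc (0:ℝ) π) : 0 ≤ Real.sin η :=
  Real.sin_nonneg_of_nonneg_of_le_pi hη.1 hη.2

theorem CH_en' {X : ℂ → ℂ} {x₁ x₂ : ℝ} (hX : NiceX X x₁ x₂) :
    CH x₁ x₂ π (fun ξ η => ‖X (pt ξ η) - 1‖ ^ 2) :=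
  CH_comp (h := π) hX.an.continuousOn (W := fun X => ‖X - 1‖ ^ 2) (by fun_prop)

theorem Es_nonneg {X : ℂ → ℂ} {x₁ x₂ : ℝ} (hx : x₁ ≤ x₂) : 0 ≤ Es X x₁ x₂ := by
  unfold Es IH
  refine intervalIntegral.integral_nonneg hx fun ξ _ => ?_
  exact intervalIntegral.integral_nonneg Real.pi_pos.le fun η _ => sq_nonneg _

theorem pi2f : π / 2 ∈ Icc (0:ℝ) π := ⟨by (clear * -; positivity), by (clear * -; linarith only [Real.pi_pos])⟩

theorem V0_of {x₁ x₂ V : ℝ} {Ω Ω₁ Ω₂ : ℝ → ℝ → ℝ} (hx : x₁ ≤ x₂) (h : WtF x₁ x₂ V Ω Ω₁ Ω₂) :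
    0 ≤ V := (mul_nonneg (abs_nonneg _) (sin_nn' pi2f)).trans (h.g1 x₁ ⟨le_rfl, hx⟩ _ pi2f)

theorem CHf_line {x₁ x₂ η : ℝ} {F : ℝ → ℝ → ℝ} (hF : CH x₁ x₂ π F)
    (hη : η ∈ Icc (0:ℝ) π) : ContinuousOn (fun ξ => F ξ η) (Icc x₁ x₂) :=
  hF.comp (f := fun ξ : ℝ => (ξ, η)) (by fun_prop) fun _ hξ => ⟨hξ, hη⟩

theorem CHf_col {x₁ x₂ ξ : ℝ} {F : ℝ → ℝ → ℝ} (hF : CH x₁ x₂ π F)
    (hξ : ξ ∈ Icc x₁ x₂) : ContinuousOn (fun η => F ξ η) (Icc 0 π) :=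
  hF.comp (f := fun η : ℝ => (ξ, η)) (by fun_prop) fun _ hη => ⟨hξ, hη⟩

theorem IH_err_eq {X : ℂ → ℂ} {x₁ x₂ V : ℝ} (hx : x₁ ≤ x₂) (hX : NiceX X x₁ x₂) :
    IH x₁ x₂ π (fun ξ η => V * (1 + ‖X (pt ξ η) - 1‖ ^ 2)) =
      V * (π * (x₂ - x₁) + Es X x₁ x₂) := by
  have hpi : (0:ℝ) ≤ π := Real.pi_pos.le
  rw [IH_const_mul, IH_add hx hpi (CH_const 1) (CH_en' hX)]
  unfold Es
  congr 2
  unfold IH
  simp
  ring

theorem err_leC {X : ℂ → ℂ} {x₁ x₂ V : ℝ} {F : ℝ → ℝ → ℝ} (hx : x₁ ≤ x₂) (hX : NiceX X x₁ x₂)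
    (cF : CH x₁ x₂ π F) {C : ℝ}
    (h : ∀ ξ ∈ Icc x₁ x₂, ∀ η ∈ Icc (0:ℝ) π,
      |F ξ η| ≤ C * (V * (1 + ‖X (pt ξ η) - 1‖ ^ 2))) :
    |IH x₁ x₂ π F| ≤ C * (V * (π * (x₂ - x₁) + Es X x₁ x₂)) := by
  have hpi : (0:ℝ) ≤ π := Real.pi_pos.le
  have cG : CH x₁ x₂ π (fun ξ η => C * (V * (1 + ‖X (pt ξ η) - 1‖ ^ 2))) :=
    (CH_const C).mul ((CH_const V).mul ((CH_const 1).add (CH_en' hX)))
  have e : IH x₁ x₂ π (fun ξ η => C * (V * (1 + ‖X (pt ξ η) - 1‖ ^ 2))) =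
      C * (V * (π * (x₂ - x₁) + Es X x₁ x₂)) := by
    rw [IH_const_mul, IH_err_eq hx hX]
  rw [abs_le]
  constructor
  · have h1 := IH_mono hx hpi (cG.neg) cF fun ξ hξ η hη => (abs_le.1 (h ξ hξ η hη)).1
    have h2 : IH x₁ x₂ π (fun ξ η => - (C * (V * (1 + ‖X (pt ξ η) - 1‖ ^ 2)))) =
        - IH x₁ x₂ π (fun ξ η => C * (V * (1 + ‖X (pt ξ η) - 1‖ ^ 2))) := by
      have := IH_const_mul (x₁ := x₁) (x₂ := x₂) (h := π) (-1)
        (fun ξ η => C * (V * (1 + ‖X (pt ξ η) - 1‖ ^ 2)))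
      simpa using this
    rw [h2, e] at h1
    (clear * - h1; linarith only [h1])
  · have h1 := IH_mono hx hpi cF cG fun ξ hξ η hη => (abs_le.1 (h ξ hξ η hη)).2
    rw [e] at h1
    (clear * - h1; linarith)

variable {P : (ℂ → ℂ) → ℝ → ℝ → Prop}

theorem IsNullC.add {N N' : (ℂ → ℂ) → ℝ → ℝ → ℝ} (h : IsNullC P N) (h' : IsNullC P N') :
    IsNullC P (fun X ξ η => N X ξ η + N' X ξ η) := by
  refine ⟨fun X x₁ x₂ hX => (h.cN X x₁ x₂ hX).add (h'.cN X x₁ x₂ hX), ?_⟩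
  obtain ⟨C, hC⟩ := h.le
  obtain ⟨C', hC'⟩ := h'.le
  refine ⟨C + C', fun X x₁ x₂ V Ω Ω₁ Ω₂ hx12 hw hX hP => ?_⟩
  have h1 := hC X x₁ x₂ V Ω Ω₁ Ω₂ hx12 hw hX hP
  have h2 := hC' X x₁ x₂ V Ω Ω₁ Ω₂ hx12 hw hX hP
  have a1 : CH x₁ x₂ π (fun ξ η => Ω ξ η * N X ξ η) := hw.c0.mul (h.cN X x₁ x₂ hX)
  have a2 : CH x₁ x₂ π (fun ξ η => Ω ξ η * N' X ξ η) := hw.c0.mul (h'.cN X x₁ x₂ hX)
  have s1 : IH x₁ x₂ π (fun ξ η => Ω ξ η * (N X ξ η + N' X ξ η)) =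
      IH x₁ x₂ π (fun ξ η => Ω ξ η * N X ξ η) + IH x₁ x₂ π (fun ξ η => Ω ξ η * N' X ξ η) := by
    rw [← IH_add hx12 Real.pi_pos.le a1 a2]
    simp only [mul_add]
  rw [s1]
  rw [abs_le] at h1 h2 ⊢
  constructor <;> (clear * - h1 h2; linarith only [h1, h2])

theorem IsNullC.const_mul {N : (ℂ → ℂ) → ℝ → ℝ → ℝ} (h : IsNullC P N) (c : ℝ) :
    IsNullC P (fun X ξ η => c * N X ξ η) := by
  refine ⟨fun X x₁ x₂ hX => (CH_const c).mul (h.cN X x₁ x₂ hX), ?_⟩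
  obtain ⟨C, hC⟩ := h.le
  refine ⟨|c| * C, fun X x₁ x₂ V Ω Ω₁ Ω₂ hx hw hX hP => ?_⟩
  have h1 := hC X x₁ x₂ V Ω Ω₁ Ω₂ hx hw hX hP
  have s1 : IH x₁ x₂ π (fun ξ η => Ω ξ η * (c * N X ξ η)) =
      c * IH x₁ x₂ π (fun ξ η => Ω ξ η * N X ξ η) := by
    rw [← IH_const_mul]
    simp only [mul_left_comm c]
  rw [s1, abs_mul, mul_assoc]
  exact mul_le_mul_of_nonneg_left h1 (abs_nonneg c)

theorem IsNullC.zero : IsNullC P (fun _ _ _ => 0) := by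
  refine ⟨fun _ _ _ _ => CH_const 0, ⟨0, ?_⟩⟩
  intro X x₁ x₂ V Ω Ω₁ Ω₂ hx hw hX hP
  simp [IH]

theorem IsNullC.congr {N N' : (ℂ → ℂ) → ℝ → ℝ → ℝ} (h : IsNullC P N)
    (hN : ∀ X ξ η, N X ξ η = N' X ξ η) : IsNullC P N' := by
  have e1 : N = N' := by
    funext X ξ η
    exact hN X ξ η
  rw [← e1]
  exact h

theorem IsNullC.mono {P' : (ℂ → ℂ) → ℝ → ℝ → Prop} (hPP : ∀ X x₁ x₂, P' X x₁ x₂ → P X x₁ x₂)
    {N : (ℂ → ℂ) → ℝ → ℝ → ℝ} (h : IsNullC P N) : IsNullC P' N := by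
  refine ⟨h.cN, ?_⟩
  obtain ⟨C, hC⟩ := h.le
  exact ⟨C, fun X x₁ x₂ V Ω Ω₁ Ω₂ hx hw hX hP => hC X x₁ x₂ V Ω Ω₁ Ω₂ hx hw hX (hPP _ _ _ hP)⟩

/-- the sum over a list -/
theorem IsNullC.list {ι : Type} (L : List ι) {N : ι → (ℂ → ℂ) → ℝ → ℝ → ℝ}
    (h : ∀ i ∈ L, IsNullC P (N i)) :
    IsNullC P (fun X ξ η => (L.map fun i => N i X ξ η).sum) := by
  induction L with
  | nil => simpa using IsNullC.zero (P := P)
  | cons i L ih =>
    have h1 := (h i (by simp)).add (ih fun j hj => h j (by simp [hj]))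
    simpa only [List.map_cons, List.sum_cons] using h1

/-- derivatives in the direction of `ξ` -/
theorem isNullC_xi {F F₁ : (ℂ → ℂ) → ℝ → ℝ → ℝ}
    (cF : ∀ (X : ℂ → ℂ) (x₁ x₂ : ℝ), NiceX X x₁ x₂ → CH x₁ x₂ π (F X))
    (cF₁ : ∀ (X : ℂ → ℂ) (x₁ x₂ : ℝ), NiceX X x₁ x₂ → CH x₁ x₂ π (F₁ X))
    (hd : ∀ (X : ℂ → ℂ) (x₁ x₂ : ℝ), NiceX X x₁ x₂ → ∀ ξ ∈ Icc x₁ x₂, ∀ η ∈ Icc (0:ℝ) π,
      HasDerivAt (fun ξ => F X ξ η) (F₁ X ξ η) ξ) {C : ℝ}
    (hC : ∀ (X : ℂ → ℂ) (x₁ x₂ : ℝ), x₁ ≤ x₂ → NiceX X x₁ x₂ → P X x₁ x₂ →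
      ∀ ξ ∈ Icc x₁ x₂, ∀ η ∈ Icc (0:ℝ) π,
        |F X ξ η| ≤ C * Real.sin η * (1 + ‖X (pt ξ η) - 1‖ ^ 2)) :
    IsNullC P F₁ := by
  refine ⟨cF₁, |C|,
    fun X x₁ x₂ V Ω Ω₁ Ω₂ hx12 hw hX hP => ?_⟩
  have hpi : (0:ℝ) ≤ π := Real.pi_pos.le
  have c1 : CH x₁ x₂ π (fun ξ η => Ω ξ η * F₁ X ξ η) := hw.c0.mul (cF₁ X x₁ x₂ hX)
  have c2 : CH x₁ x₂ π (fun ξ η => Ω₁ ξ η * F X ξ η) := hw.c1.mul (cF X x₁ x₂ hX)
  have h1 : IH x₁ x₂ π (fun ξ η => Ω ξ η * F₁ X ξ η) =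
      - IH x₁ x₂ π (fun ξ η => Ω₁ ξ η * F X ξ η) := by
    rw [IH_swap hx12 hpi c1, IH_swap hx12 hpi c2, ← intervalIntegral.integral_neg]
    refine intervalIntegral.integral_congr fun η hη => ?_
    rw [uIcc_of_le hpi] at hη
    have i1 : IntervalIntegrable (fun ξ => Ω₁ ξ η * F X ξ η) volume x₁ x₂ :=
      (CHf_line c2 hη).intervalIntegrable_of_Icc hx12
    have i2 : IntervalIntegrable (fun ξ => Ω ξ η * F₁ X ξ η) volume x₁ x₂ :=
      (CHf_line c1 hη).intervalIntegrable_of_Icc hx12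
    have h2 := intervalIntegral.integral_eq_sub_of_hasDerivAt
      (f := fun ξ => Ω ξ η * F X ξ η) (f' := fun ξ => Ω₁ ξ η * F X ξ η + Ω ξ η * F₁ X ξ η)
      (a := x₁) (b := x₂) (fun ξ hξ => by
        rw [uIcc_of_le hx12] at hξ
        exact (hw.d1 ξ hξ η hη).mul (hd X x₁ x₂ hX ξ hξ η hη)) (i1.add i2)
    rw [intervalIntegral.integral_add i1 i2, hw.e1 η hη, hw.e2 η hη] at h2
    linarith only [h2]
  rw [h1, abs_neg]
  refine err_leC hx12 hX c2 ?_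
  intro ξ hξ η hη
  rw [abs_mul]
  have h2 := hC X x₁ x₂ hx12 hX hP ξ hξ η hη
  have h3 := hw.g1 ξ hξ η hη
  have hs := sin_nn' hη
  have hn : 0 ≤ 1 + ‖X (pt ξ η) - 1‖ ^ 2 := by (clear * -; positivity)
  have h4 : |F X ξ η| ≤ |C| * Real.sin η * (1 + ‖X (pt ξ η) - 1‖ ^ 2) :=
    h2.trans (mul_le_mul_of_nonneg_right
      (mul_le_mul_of_nonneg_right (le_abs_self C) hs) hn)
  calc |Ω₁ ξ η| * |F X ξ η| ≤ |Ω₁ ξ η| * (|C| * Real.sin η * (1 + ‖X (pt ξ η) - 1‖ ^ 2)) :=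
        mul_le_mul_of_nonneg_left h4 (abs_nonneg _)
    _ = |C| * ((|Ω₁ ξ η| * Real.sin η) * (1 + ‖X (pt ξ η) - 1‖ ^ 2)) := by ring
    _ ≤ |C| * (V * (1 + ‖X (pt ξ η) - 1‖ ^ 2)) :=
        mul_le_mul_of_nonneg_left (mul_le_mul_of_nonneg_right h3 hn) (abs_nonneg C)

/-- derivatives in the direction of `η` -/
theorem isNullC_eta {F F₂ : (ℂ → ℂ) → ℝ → ℝ → ℝ}
    (cF : ∀ (X : ℂ → ℂ) (x₁ x₂ : ℝ), NiceX X x₁ x₂ → CH x₁ x₂ π (F X))
    (cF₂ : ∀ (X : ℂ → ℂ) (x₁ x₂ : ℝ), NiceX X x₁ x₂ → CH x₁ x₂ π (F₂ X))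
    (hd : ∀ (X : ℂ → ℂ) (x₁ x₂ : ℝ), NiceX X x₁ x₂ → ∀ ξ ∈ Icc x₁ x₂, ∀ η ∈ Icc (0:ℝ) π,
      HasDerivAt (fun η => F X ξ η) (F₂ X ξ η) η)
    (h0 : ∀ (X : ℂ → ℂ) (ξ : ℝ), F X ξ 0 = 0) (h1 : ∀ (X : ℂ → ℂ) (ξ : ℝ), F X ξ π = 0) {C : ℝ}
    (hC : ∀ (X : ℂ → ℂ) (x₁ x₂ : ℝ), x₁ ≤ x₂ → NiceX X x₁ x₂ → P X x₁ x₂ →
      ∀ ξ ∈ Icc x₁ x₂, ∀ η ∈ Icc (0:ℝ) π,
        |F X ξ η| ≤ C * Real.sin η * (1 + ‖X (pt ξ η) - 1‖ ^ 2)) :
    IsNullC P F₂ := by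
  have hpi : (0:ℝ) ≤ π := Real.pi_pos.le
  refine ⟨cF₂, |C|,
    fun X x₁ x₂ V Ω Ω₁ Ω₂ hx12 hw hX hP => ?_⟩
  have c1 : CH x₁ x₂ π (fun ξ η => Ω ξ η * F₂ X ξ η) := hw.c0.mul (cF₂ X x₁ x₂ hX)
  have c2 : CH x₁ x₂ π (fun ξ η => Ω₂ ξ η * F X ξ η) := hw.c2.mul (cF X x₁ x₂ hX)
  have k1 : IH x₁ x₂ π (fun ξ η => Ω₂ ξ η * F X ξ η + Ω ξ η * F₂ X ξ η) = 0 := by
    unfold IH
    have k2 : ∫ ξ in x₁..x₂, ∫ η in (0:ℝ)..π, (Ω₂ ξ η * F X ξ η + Ω ξ η * F₂ X ξ η) =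
        ∫ ξ in x₁..x₂, (0:ℝ) := by
      refine intervalIntegral.integral_congr fun ξ hξ => ?_
      rw [uIcc_of_le hx12] at hξ
      have i1 : IntervalIntegrable (fun η => Ω₂ ξ η * F X ξ η) volume 0 π :=
        (CHf_col c2 hξ).intervalIntegrable_of_Icc hpi
      have i2 : IntervalIntegrable (fun η => Ω ξ η * F₂ X ξ η) volume 0 π :=
        (CHf_col c1 hξ).intervalIntegrable_of_Icc hpi
      have h2 := intervalIntegral.integral_eq_sub_of_hasDerivAt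
        (f := fun η => Ω ξ η * F X ξ η) (f' := fun η => Ω₂ ξ η * F X ξ η + Ω ξ η * F₂ X ξ η)
        (a := 0) (b := π) (fun η hη => by
          rw [uIcc_of_le hpi] at hη
          exact (hw.d2 ξ hξ η hη).mul (hd X x₁ x₂ hX ξ hξ η hη)) (i1.add i2)
      rw [h2, h0, h1, mul_zero, mul_zero, sub_zero]
    rw [k2]
    simp
  rw [IH_add hx12 hpi c2 c1] at k1
  have h3 : IH x₁ x₂ π (fun ξ η => Ω ξ η * F₂ X ξ η) =
      - IH x₁ x₂ π (fun ξ η => Ω₂ ξ η * F X ξ η) := by linarith only [k1]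
  rw [h3, abs_neg]
  refine err_leC hx12 hX c2 ?_
  intro ξ hξ η hη
  rw [abs_mul]
  have h2 := hC X x₁ x₂ hx12 hX hP ξ hξ η hη
  have h3 := hw.g2 ξ hξ η hη
  have hs := sin_nn' hη
  have hn : 0 ≤ 1 + ‖X (pt ξ η) - 1‖ ^ 2 := by (clear * -; positivity)
  have h4 : |F X ξ η| ≤ |C| * Real.sin η * (1 + ‖X (pt ξ η) - 1‖ ^ 2) :=
    h2.trans (mul_le_mul_of_nonneg_right
      (mul_le_mul_of_nonneg_right (le_abs_self C) hs) hn)
  calc |Ω₂ ξ η| * |F X ξ η| ≤ |Ω₂ ξ η| * (|C| * Real.sin η * (1 + ‖X (pt ξ η) - 1‖ ^ 2)) :=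
        mul_le_mul_of_nonneg_left h4 (abs_nonneg _)
    _ = |C| * ((|Ω₂ ξ η| * Real.sin η) * (1 + ‖X (pt ξ η) - 1‖ ^ 2)) := by ring
    _ ≤ |C| * (V * (1 + ‖X (pt ξ η) - 1‖ ^ 2)) :=
        mul_le_mul_of_nonneg_left (mul_le_mul_of_nonneg_right h3 hn) (abs_nonneg C)

end Pool.Agent.Helper69.CKC

end

section

namespace Pool.Agent.Helper52.EK
end Pool.Agent.Helper52.EK
namespace Pool.Agent.Helper69.EK3
end Pool.Agent.Helper69.EK3
namespace Pool.Agent.Helper69.EK7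
end Pool.Agent.Helper69.EK7

/-!
# Project EK7: the general field is admissible

`Fd m t = gam m + c0 + l (a m + b) + Dj g0 g1 d m t`, `l = (1 - |m|²)/(p0 + p1 |m+1|² + p2 |m|²)`,
with different `a, b, p0, p1, p2` inside and outside the unit circle, retracted to the unit disc.
-/

set_option autoImplicit false

open Complex Metric Set Filter Topology

open scoped Real ComplexConjugate NNReal

namespace Pool.Agent.Helper20.EK7

open Pool.Agent.Helper52.EK Pool.Agent.Helper69.EK3 Pool.Agent.Helper69.EK7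

/-- conditions on the outside denominator -/
structure OutD (p0 p1 p2 : ℝ) : Prop where
  pos : 0 < p0 + p1 - |p1|
  pos' : 0 < p1 + p2 - |p1|

end Pool.Agent.Helper20.EK7

end
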