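import Pool.Agent.Helper14.CMF.T08
import Pool.Agent.Helper14.CMF.T07
import Pool.Agent.Helper14.CMF.T14
import Pool.Agent.Helper14.CMF.T06
import Pool.Agent.Helper14.CMF.T01
import Pool.Agent.Helper14.CMF.T10
import Pool.Agent.Helper14.CMF.T11

set_option linter.all false

section

namespace Pool.Agent.Helper39.Area
end Pool.Agent.Helper39.Area
namespace Pool.Agent.Helper52.EK
end Pool.Agent.Helper52.EK
namespace Pool.Agent.Helper97.EK
end Pool.Agent.Helper97.EK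
namespace Pool.Agent.Helper22.Marshall
end Pool.Agent.Helper22.Marshall

set_option autoImplicit false

open Complex MeasureTheory Metric Set

open scoped Real ComplexConjugate

namespace Pool.Agent.Helper69.CK

open Pool.Agent.Helper39.Area Pool.Agent.Helper52.EK Pool.Agent.Helper97.EK

open Pool.Agent.Helper22.Marshall (coeff)

variable {β : ℂ → ℂ}

/-- the pre-Schwarzian derivative: `Q = 2 z (1 - ‖z‖) (N'/N - 2/z)`, `‖Q - 2 (2‖z‖ - 1)‖ ≤ 4` -/
theorem preS_le (h : Ext β) {z : ℂ} (h1 : ‖z‖ < 1) (h2 : 1 / 2 ≤ ‖z‖) :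
    ‖2 * z * (1 - ‖z‖) * (deriv (N β) z / N β z - 2 / z) - 2 * (2 * ‖z‖ - 1)‖ ≤ 4 := by
  obtain ⟨t, ht⟩ : ∃ t : ℝ, t = ‖z‖ := ⟨_, rfl⟩
  rw [← ht] at h1 h2 ⊢
  have hz : z ∈ ball (0:ℂ) 1 := by rwa [mem_ball_zero_iff, ← ht]
  have hz0 : z ≠ 0 := by
    rw [← norm_pos_iff, ← ht]
    linarith only [h2]
  have hw1 : (2 * t - 1) < 1 := by linarith only [h1]
  have hw0 : 0 ≤ 2 * t - 1 := by linarith
  obtain ⟨w, hw⟩ : ∃ w : ℂ, w = 2 * t - 1 := ⟨_, rfl⟩
  rw [← hw]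
  have hwr : w = ((2 * t - 1 : ℝ) : ℂ) := by rw [hw]; push_cast; ring
  have hwn : ‖w‖ = 2 * t - 1 := by rw [hwr, Complex.norm_real, Real.norm_of_nonneg hw0]
  -- the Moebius map
  have hd : ∀ v ∈ ball (0:ℂ) 1, 1 + w * v ≠ 0 := by
    intro v hv h0
    rw [mem_ball_zero_iff] at hv
    have h3 : ‖w * v‖ = 1 := by
      have h4 : w * v = -1 := by linear_combination h0
      rw [h4]
      simp
    rw [norm_mul, hwn] at h3
    (clear * - hw1 h3 hw0 hv; nlinarith only [hw1, hw0, hv, h3])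
  have hmb : ∀ v ∈ ball (0:ℂ) 1, z * (1 + v) / (1 + w * v) ∈ ball (0:ℂ) 1 ∧
      z * (1 + v) / (1 + w * v) ≠ 0 := by
    intro v hv
    have hd0 := hd v hv
    rw [mem_ball_zero_iff] at hv ⊢
    have hn := norm_nonneg v
    have hv2 : ‖v‖ ^ 2 = v.re ^ 2 + v.im ^ 2 := by
      rw [← Complex.normSq_eq_norm_sq, Complex.normSq_apply]
      ring
    have hvr : v.re ≤ ‖v‖ := (le_abs_self _).trans (abs_re_le_norm v)
    constructor
    · rw [norm_div, norm_mul, ← ht, div_lt_one (norm_pos_iff.2 hd0)]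
      refine lt_of_pow_lt_pow_left₀ 2 (norm_nonneg _) ?_
      rw [mul_pow, ← Complex.normSq_eq_norm_sq, ← Complex.normSq_eq_norm_sq,
        Complex.normSq_apply, Complex.normSq_apply, hwr]
      simp only [add_re, add_im, one_re, one_im, zero_add, re_ofReal_mul, im_ofReal_mul]
      have h5 : 0 < (1 - t) * ((1 + t) - 2 * v.re * (1 - t) - ‖v‖ ^ 2 * (3 * t - 1)) := by
        refine mul_pos (by linarith only [hw1]) ?_
        have h6 : v.re * (1 - t) ≤ ‖v‖ * (1 - t) :=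
          mul_le_mul_of_nonneg_right hvr (by (clear * - h1; linarith))
        nlinarith only [mul_nonneg hn (by (clear * - hv; linarith) : 0 ≤ 1 - ‖v‖), mul_pos (by (clear * - hv; linarith) : 0 < 1 - ‖v‖) (by linarith : 0 < 3 * t - 1), hv, h6]
      rw [hv2] at h5
      linarith only [h5]
    · refine div_ne_zero (mul_ne_zero hz0 fun h0 => ?_) hd0
      have h4 : v = -1 := by linear_combination h0
      rw [h4] at hv
      simp at hv
  have hN : ∀ w ∈ ball (0:ℂ) 1, w ≠ 0 → dphi β w ≠ 0 := by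
    intro w hw hw0
    rw [dphi_eq hw0]
    exact div_ne_zero (neg_ne_zero.2 (h.ne w hw)) (pow_ne_zero 2 hw0)
  have hD : dphi β z ≠ 0 := hN z hz hz0
  have hrc : (1 : ℂ) - t ≠ 0 := by
    have : ((1 - t : ℝ) : ℂ) ≠ 0 := by exact_mod_cast (by (clear * - hw1; linarith only [hw1]) : (1 - t : ℝ) ≠ 0)
    simpa using this
  have h2z : 2 * z * (1 - (t:ℂ)) ≠ 0 := mul_ne_zero (mul_ne_zero two_ne_zero hz0) hrc
  have hL : ∀ v ∈ ball (0:ℂ) 1, HasDerivAt (fun v : ℂ => z * (1 + v) / (1 + w * v))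
      (2 * z * (1 - (t:ℂ)) / (1 + w * v) ^ 2) v := fun v hv => by
    have a1 : HasDerivAt (fun v : ℂ => z * (1 + v)) (z * 1) v :=
      ((hasDerivAt_id v).const_add 1).const_mul z
    have a2 : HasDerivAt (fun v : ℂ => 1 + w * v) (w * 1) v :=
      ((hasDerivAt_id v).const_mul w).const_add 1
    refine (a1.div a2 (hd v hv)).congr_deriv ?_
    congr 1
    rw [hw]
    ring
  have hg : ∀ v ∈ ball (0:ℂ) 1, HasDerivAt
      (fun v => (phi β (z * (1 + v) / (1 + w * v)) - phi β z) / (2 * z * (1 - (t:ℂ)) * dphi β z))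
      (dphi β (z * (1 + v) / (1 + w * v)) / (1 + w * v) ^ 2 / dphi β z) v := fun v hv => by
    have a1 : HasDerivAt (fun v => phi β (z * (1 + v) / (1 + w * v)))
        (dphi β (z * (1 + v) / (1 + w * v)) * (2 * z * (1 - (t:ℂ)) / (1 + w * v) ^ 2)) v :=
      HasDerivAt.comp (h₂ := phi β) v (hasDerivAt_phi h.diff (hmb v hv).1 (hmb v hv).2) (hL v hv)
    refine ((a1.sub_const _).div_const _).congr_deriv ?_
    have := hd v hv
    field_simp
  have h0b : (0:ℂ) ∈ ball (0:ℂ) 1 := mem_ball_self one_pos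
  have e1 : z * (1 + 0) / (1 + w * 0) = z := by simp
  have k1 := Pool.Agent.Helper84.EK.second_le_two
    (f := fun v => (phi β (z * (1 + v) / (1 + w * v)) - phi β z) /
      (2 * z * (1 - (t:ℂ)) * dphi β z))
    (fun v hv => (hg v hv).differentiableAt.differentiableWithinAt)
    (by
      intro v hv v' hv' he
      change (phi β (z * (1 + v) / (1 + w * v)) - phi β z) / (2 * z * (1 - (t:ℂ)) * dphi β z) =
        (phi β (z * (1 + v') / (1 + w * v')) - phi β z) / (2 * z * (1 - (t:ℂ)) * dphi β z) at he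
      rw [div_left_inj' (mul_ne_zero h2z hD), sub_left_inj] at he
      have h3 := h.inj _ _ (hmb v hv).1 (hmb v' hv').1 (hmb v hv).2 (hmb v' hv').2 he
      rw [div_eq_div_iff (hd v hv) (hd v' hv')] at h3
      have h4 : 2 * z * (1 - (t:ℂ)) * (v - v') = 0 := by
        rw [hw] at h3
        linear_combination h3
      exact sub_eq_zero.1 ((mul_eq_zero.1 h4).resolve_left h2z))
    (by
      change (phi β (z * (1 + 0) / (1 + w * 0)) - phi β z) / (2 * z * (1 - (t:ℂ)) * dphi β z) = 0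
      rw [e1]
      simp)
    (by
      rw [(hg 0 h0b).deriv, e1]
      simp [hD])
  have k2 : iteratedDeriv 2 (fun v => (phi β (z * (1 + v) / (1 + w * v)) - phi β z) /
      (2 * z * (1 - (t:ℂ)) * dphi β z)) 0 =
      2 * z * (1 - (t:ℂ)) * (deriv (N β) z / N β z - 2 / z) - 2 * w := by
    rw [iteratedDeriv_succ, iteratedDeriv_one]
    have h3 : deriv (fun v => (phi β (z * (1 + v) / (1 + w * v)) - phi β z) /
        (2 * z * (1 - (t:ℂ)) * dphi β z))
        =ᶠ[nhds 0] fun v => dphi β (z * (1 + v) / (1 + w * v)) / (1 + w * v) ^ 2 / dphi β z := by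
      filter_upwards [isOpen_ball.mem_nhds h0b] with v hv
      exact (hg v hv).deriv
    rw [h3.deriv_eq]
    have h4 : HasDerivAt (dphi β) (dphi β z * (deriv (N β) z / N β z - 2 / z))
        (z * (1 + 0) / (1 + w * 0)) := by
      rw [e1]
      exact hasDerivAt_dphi h hz hz0
    have h5 : HasDerivAt (fun v => dphi β (z * (1 + v) / (1 + w * v)))
        (dphi β z * (deriv (N β) z / N β z - 2 / z) * (2 * z * (1 - (t:ℂ)) / (1 + w * 0) ^ 2))
        0 :=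
      HasDerivAt.comp (h₂ := dphi β) (0:ℂ) h4 (hL 0 h0b)
    have h6 : HasDerivAt (fun v : ℂ => (1 + w * v) ^ 2)
        (((2:ℕ):ℂ) * (1 + w * 0) ^ (2 - 1) * (w * 1)) 0 :=
      (((hasDerivAt_id (0:ℂ)).const_mul w).const_add 1).pow 2
    have h7 := ((h5.div h6 (pow_ne_zero 2 (hd 0 h0b))).div_const (dphi β z)).deriv
    change deriv (fun v => dphi β (z * (1 + v) / (1 + w * v)) / (1 + w * v) ^ 2 / dphi β z) 0 = _
      at h7
    rw [h7, e1]
    generalize deriv (N β) z / N β z - 2 / z = q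
    simp only [mul_zero, add_zero, one_pow, div_one, mul_one]
    push_cast
    (clear * - hD; field_simp)
  unfold coeff at k1
  rw [k2, norm_mul] at k1
  have h5 : ‖((Nat.factorial 2 : ℕ) : ℂ)⁻¹‖ = 1 / 2 := by simp [Nat.factorial]
  rw [h5] at k1
  linarith only [k1]

/-- **the range of `mrad`** -/
theorem mrad_range (h : Ext β) {z : ℂ} (h1 : ‖z‖ < 1) (h2 : 1 / 2 ≤ ‖z‖) :
    ‖mrad β z + 3‖ ≤ 4 + 5 * (1 - ‖z‖) := by
  have k1 := preS_le h h1 h2
  have hz1 : 0 < ‖z‖ := by linarith only [h2]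
  have hz0 : z ≠ 0 := norm_pos_iff.1 hz1
  have hc : conj z = (‖z‖ : ℂ) ^ 2 / z := by
    rw [eq_div_iff hz0, mul_comm, Complex.mul_conj']
  have e : mrad β z + 3 = -((((1 + ‖z‖) / (2 * ‖z‖) : ℝ)) : ℂ) *
      (2 * z * (1 - ‖z‖) * (deriv (N β) z / N β z - 2 / z) - 2 * (2 * ‖z‖ - 1)) +
      -((((1 - ‖z‖) ^ 2 / ‖z‖ : ℝ)) : ℂ) := by
    unfold mrad
    generalize deriv (N β) z / N β z = D
    rw [hc]
    obtain ⟨t, ht⟩ : ∃ t : ℝ, t = ‖z‖ := ⟨_, rfl⟩
    rw [← ht]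
    have ht0 : (t:ℂ) ≠ 0 := by
      rw [ht]
      exact_mod_cast hz1.ne'
    push_cast
    field_simp
    ring
  rw [e]
  refine (norm_add_le _ _).trans ?_
  rw [norm_mul, norm_neg, norm_neg, Complex.norm_real, Complex.norm_real,
    Real.norm_of_nonneg (by (clear * - hz0; positivity)), Real.norm_of_nonneg (by positivity)]
  have h3 : (1 + ‖z‖) / (2 * ‖z‖) * ‖2 * z * (1 - ‖z‖) * (deriv (N β) z / N β z - 2 / z) -
      2 * (2 * ‖z‖ - 1)‖ ≤ (1 + ‖z‖) / (2 * ‖z‖) * 4 :=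
    mul_le_mul_of_nonneg_left k1 (by positivity)
  refine (add_le_add h3 le_rfl).trans ?_
  rw [div_mul_eq_mul_div, div_add_div _ _ (by positivity) (by positivity),
    div_le_iff₀ (by positivity)]
  (clear * - h1 h2 hz1; linarith only [mul_nonneg (mul_nonneg (by linarith : 0 ≤ 1 - ‖z‖) (by linarith : 0 ≤ 2 * ‖z‖ - 1)) hz1.le])

end Pool.Agent.Helper69.CK

end

section

namespace Pool.Agent.Helper39.Area
end Pool.Agent.Helper39.Area
namespace Pool.Agent.Helper52.EK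
end Pool.Agent.Helper52.EK
namespace Pool.Agent.Helper52.CK
end Pool.Agent.Helper52.CK
namespace Pool.Agent.Helper70.EK
end Pool.Agent.Helper70.EK

set_option autoImplicit false

open Complex MeasureTheory Metric Set

open scoped Real ComplexConjugate

namespace Pool.Agent.Helper69.CK

open Pool.Agent.Helper39.Area Pool.Agent.Helper52.EK Pool.Agent.Helper52.CK

open Pool.Agent.Helper70.EK (low norm_ph ph_sub_one err_le norm_e0)

/-- the multiplier `M` of the certificate and its bounded version `M'` -/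
structure MOk (M M' : ℂ → ℂ) (Mb L ε : ℝ) : Prop where
  cont : Continuous M
  eq : ∀ m, ‖m + 3‖ ≤ 4 + ε → M m = M' m
  le : ∀ m, ‖M' m‖ ≤ Mb
  lip : ∀ m m', ‖M' m - M' m'‖ ≤ L * ‖m - m'‖

theorem MOk.cont' {M M' : ℂ → ℂ} {Mb L ε : ℝ} (h : MOk M M' Mb L ε) : Continuous M' := by
  have h1 : LipschitzWith (Real.toNNReal |L|) M' := by
    refine LipschitzWith.of_dist_le_mul fun m m' => ?_
    rw [dist_eq_norm, dist_eq_norm, Real.coe_toNNReal _ (abs_nonneg L)]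
    exact (h.lip m m').trans (mul_le_mul_of_nonneg_right (le_abs_self L) (norm_nonneg _))
  exact h1.continuous

theorem MOk.L0 {M M' : ℂ → ℂ} {Mb L ε : ℝ} (h : MOk M M' Mb L ε) : 0 ≤ L := by
  have h1 := h.lip 1 0
  have h2 : L * ‖(1:ℂ) - 0‖ = L := by simp
  rw [h2] at h1
  exact (norm_nonneg _).trans h1

theorem MOk.Mb0 {M M' : ℂ → ℂ} {Mb L ε : ℝ} (h : MOk M M' Mb L ε) : 0 ≤ Mb :=
  (norm_nonneg _).trans (h.le 0)

/-- the multiplier as a function on the disc -/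
noncomputable def Mh (M' : ℂ → ℂ) (β : ℂ → ℂ) (z : ℂ) : ℂ := (z / ‖z‖) ^ 2 * M' (mrad β z)

/-- the term of the multiplier in the strip -/
noncomputable def Mt (M : ℂ → ℂ) (q : ℝ) (X : ℂ → ℂ) (ξ η : ℝ) : ℝ :=
  (M (mX (X (pt ξ η)) (deriv X (pt ξ η)) (Real.sin η) (Real.cos η)) *
    e0 (Real.sin η) (Real.cos η) * (X (pt ξ η) ^ 2 - q)).re

theorem Mh_le {M M' : ℂ → ℂ} {Mb L ε : ℝ} (h : MOk M M' Mb L ε) (β : ℂ → ℂ) (z : ℂ) :
    ‖Mh M' β z‖ ≤ Mb := by
  unfold Mh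
  rw [norm_mul, norm_pow, norm_div, Complex.norm_real, norm_norm]
  have h1 : ‖z‖ / ‖z‖ ≤ 1 := div_self_le_one _
  have h2 : 0 ≤ ‖z‖ / ‖z‖ := by (clear * -; positivity)
  have h3 := h.le (mrad β z)
  have h4 : (‖z‖ / ‖z‖) ^ 2 ≤ 1 := pow_le_one₀ h2 h1
  have h5 := norm_nonneg (M' (mrad β z))
  nlinarith only [h3, h4, h5]

theorem Mh_cont {M M' : ℂ → ℂ} {Mb L ε : ℝ} (h : MOk M M' Mb L ε) {β : ℂ → ℂ} (hβ : Ext β) :
    ContinuousOn (Mh M' β) {z | 0 < ‖z‖ ∧ ‖z‖ < 1} := by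
  have h4 : ContinuousOn (fun z : ℂ => z / (‖z‖ : ℂ)) {z : ℂ | 0 < ‖z‖ ∧ ‖z‖ < 1} := by
    apply ContinuousOn.div continuousOn_id
    · exact (Complex.continuous_ofReal.comp continuous_norm).continuousOn
    · rintro z ⟨hz, _⟩
      exact Complex.ofReal_ne_zero.mpr hz.ne'
  exact (h4.pow 2).mul (h.cont'.comp_continuousOn (Pool.Agent.Helper70.EK.mrad_cont hβ))

theorem unit_sub_I {w : ℂ} (h : I + w ≠ 0) : ‖(I + w) / (‖I + w‖ : ℂ) - I‖ ≤ 2 * ‖w‖ := by
  have hr : 0 < ‖I + w‖ := norm_pos_iff.2 h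
  have hrc : (‖I + w‖ : ℂ) ≠ 0 := by exact_mod_cast hr.ne'
  have e : (I + w) / (‖I + w‖ : ℂ) - I = (I + w) / (‖I + w‖ : ℂ) * ((1 - ‖I + w‖ : ℝ) : ℂ) + w := by
    push_cast
    field_simp
    ring
  rw [e]
  refine (norm_add_le _ _).trans ?_
  rw [norm_mul, norm_div, Complex.norm_real, Complex.norm_real, norm_norm, div_self hr.ne',
    one_mul, Real.norm_eq_abs]
  have h1 : |1 - ‖I + w‖| ≤ ‖w‖ := by
    have h2 := abs_norm_sub_norm_le (I + w) I
    rw [Complex.norm_I, add_sub_cancel_left] at h2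
    rw [abs_sub_comm]
    exact h2
  (clear * - h1; linarith only [h1])

/-- the phase of the frame -/
theorem phase {ξ η : ℝ} (h0 : 0 < η) (h1 : η < π) (hξ : ξ ≤ -1) :
    ∃ p : ℂ, ‖p‖ = 1 ∧
      e0 (Real.sin η) (Real.cos η) * zd (pt ξ η) ^ 2 = (‖zd (pt ξ η)‖ : ℂ) ^ 2 * p ∧
      ‖p - (zf (pt ξ η) / ‖zf (pt ξ η)‖) ^ 2‖ ≤ 8 * Real.exp ξ := by
  have hξ0 : ξ < 0 := by (clear * - hξ; linarith only [hξ])
  have a1 := Pool.Agent.Helper97.EK.addI_ne (ξ := ξ) h0 h1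
  have a2 := Pool.Agent.Helper97.EK.subI_ne (η := η) hξ0
  have hE0 := Complex.exp_ne_zero (pt ξ η)
  have hEn := Pool.Agent.Helper97.EK.norm_exp_pt ξ η
  have he := Pool.Agent.Helper97.EK.e0_eq ξ η
  have hE2 : conj (Complex.exp (pt ξ η)) * Complex.exp (pt ξ η) = ((Real.exp ξ : ℝ) : ℂ) ^ 2 := by
    rw [mul_comm, Complex.mul_conj', hEn]
  rw [← hEn]
  unfold zd zf
  generalize Complex.exp (pt ξ η) = E at *
  have r1 : 0 < ‖I + E‖ := norm_pos_iff.2 a1
  have r2 : 0 < ‖I - E‖ := norm_pos_iff.2 a2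
  have c1 : (‖I + E‖ : ℂ) ≠ 0 := by exact_mod_cast r1.ne'
  have c2 : (‖I - E‖ : ℂ) ≠ 0 := by exact_mod_cast r2.ne'
  obtain ⟨u, hu⟩ : ∃ u : ℂ, u = (I + E) / (‖I + E‖ : ℂ) := ⟨_, rfl⟩
  obtain ⟨v, hv⟩ : ∃ v : ℂ, v = (I + -E) / (‖I + -E‖ : ℂ) := ⟨_, rfl⟩
  have u1 : ‖u‖ = 1 := by
    rw [hu, norm_div, Complex.norm_real, norm_norm, div_self r1.ne']
  have v1 : ‖v‖ = 1 := by
    rw [hv, norm_div, Complex.norm_real, norm_norm, div_self]
    rw [← sub_eq_add_neg]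
    exact r2.ne'
  have u0 : u ≠ 0 := by
    rw [← norm_pos_iff, u1]
    exact one_pos
  have k1 : ‖u - I‖ ≤ 2 * ‖E‖ := by
    rw [hu]
    exact unit_sub_I a1
  have k2 : ‖v - I‖ ≤ 2 * ‖E‖ := by
    have := unit_sub_I (w := -E) (by rwa [← sub_eq_add_neg])
    rw [norm_neg] at this
    rw [hv]
    exact this
  refine ⟨(u ^ 4)⁻¹, by rw [norm_inv, norm_pow, u1, one_pow, inv_one], ?_, ?_⟩
  · rw [he, norm_div, norm_pow, norm_mul, norm_mul, norm_neg, Complex.norm_I, hEn]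
    have e1 : E + I = (‖I + E‖ : ℂ) * u := by
      rw [hu]
      field_simp
      ring
    have e2 : ‖E + I‖ = ‖I + E‖ := by rw [add_comm]
    rw [e2, e1]
    have n2 : ‖(2:ℂ)‖ = 2 := by simp
    rw [n2]
    push_cast
    have e3 : -(conj E / E) * (-2 * I * E / ((‖I + E‖ : ℂ) * u) ^ 2) ^ 2 =
        4 * (conj E * E) / ((‖I + E‖ : ℂ) ^ 4 * u ^ 4) := by
      field_simp
      linear_combination (-4 * conj E) * Complex.I_sq
    rw [e3, hE2]
    push_cast
    field_simp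
    ring
  · have e1 : (I - E) / (I + E) / (‖(I - E) / (I + E)‖ : ℂ) = v / u := by
      rw [hu, hv, norm_div, ← sub_eq_add_neg]
      push_cast
      (clear * - c1 c2 a1 a2; field_simp)
    rw [e1]
    have e2 : (u ^ 4)⁻¹ - (v / u) ^ 2 = (u ^ 2)⁻¹ * ((u ^ 2)⁻¹ * (1 + u ^ 2) - (1 + v ^ 2)) := by
      field_simp
      ring
    rw [e2, norm_mul, norm_inv, norm_pow, u1, one_pow, inv_one, one_mul]
    refine (norm_sub_le _ _).trans ?_
    rw [norm_mul, norm_inv, norm_pow, u1, one_pow, inv_one, one_mul]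
    have k3 : ∀ x : ℂ, ‖x‖ = 1 → ‖x - I‖ ≤ 2 * ‖E‖ → ‖1 + x ^ 2‖ ≤ 4 * ‖E‖ := by
      intro x hx hxI
      have e3 : 1 + x ^ 2 = (x - I) * (x + I) := by linear_combination Complex.I_sq
      rw [e3, norm_mul]
      have k4 : ‖x + I‖ ≤ 2 := by
        have := norm_add_le x I
        rw [hx, Complex.norm_I] at this
        linarith only [this]
      nlinarith only [norm_nonneg (x - I), hxI, k4]
    have := k3 u u1 k1
    have := k3 v v1 k2
    linarith

theorem mX_close {β : ℂ → ℂ} (h : Ext β) {a : ℝ} (ha : 0 < a) (ha1 : a < 1) {ξ η : ℝ} (h0 : 0 < η)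
    (h1 : η < π) (hξ : ξ ≤ -1) (hξ1 : Real.log (tau a) < ξ) (hz : 1 / 2 ≤ ‖zf (pt ξ η)‖) :
    ‖mX (Xf β a (pt ξ η)) (deriv (Xf β a) (pt ξ η)) (Real.sin η) (Real.cos η) -
      mrad β (zf (pt ξ η))‖ ≤ 164 * Real.exp ξ := by
  have hξ0 : ξ < 0 := by linarith only [hξ]
  have hEn := Pool.Agent.Helper97.EK.norm_exp_pt ξ η
  have hE : ‖Complex.exp (pt ξ η)‖ ≤ 1 / 2 := by
    rw [hEn]
    have h8 : Real.exp ξ ≤ Real.exp (-1) := Real.exp_le_exp.mpr hξ
    have h9 : Real.exp (-1) < 0.3678794412 := Real.exp_neg_one_lt_d9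
    (clear * - h8 h9; linarith only [h8, h9])
  have k0 := Pool.Agent.Helper97.EK.zf_mem (ξ := ξ) h0 h1
  rw [mem_ball_zero_iff] at k0
  have k1 := mrad_range h k0 hz
  have k2 := Pool.Agent.Helper97.EK.E3a2 h ha ha1 h0 h1 hξ0 hξ1
  rw [add_assoc] at k2
  have n1 := norm_ph hE
  have n2 := ph_sub_one hE
  have n3 := err_le hE
  rw [hEn] at n2 n3
  change mrad β (zf (pt ξ η)) = Pool.Agent.Helper70.EK.ph (Complex.exp (pt ξ η)) * _ at k2
  generalize Pool.Agent.Helper70.EK.ph (Complex.exp (pt ξ η)) = p at *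
  generalize (2 * I * (Complex.exp (pt ξ η)).im / (Complex.exp (pt ξ η) + I) +
    4 * I * (Complex.exp (pt ξ η)).im / (Complex.exp (pt ξ η) - I) : ℂ) = e at *
  generalize mX (Xf β a (pt ξ η)) (deriv (Xf β a) (pt ξ η)) (Real.sin η) (Real.cos η) = m at *
  have k3 : ‖m + e‖ ≤ 19 / 2 := by
    have k4 : ‖mrad β (zf (pt ξ η))‖ = ‖m + e‖ := by rw [k2, norm_mul, n1, one_mul]
    rw [← k4]
    have k5 := norm_sub_le (mrad β (zf (pt ξ η)) + 3) 3
    rw [add_sub_cancel_right] at k5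
    have : ‖(3:ℂ)‖ = 3 := by simp
    rw [this] at k5
    linarith only [hz, k1, k5]
  have e1 : m - mrad β (zf (pt ξ η)) = -((p - 1) * (m + e)) - e := by
    rw [k2]
    ring
  rw [e1]
  refine (norm_sub_le _ _).trans ?_
  rw [norm_neg, norm_mul]
  have := mul_le_mul n2 k3 (norm_nonneg _) (by positivity)
  (clear * - n3 this; linarith only [n3, this])

theorem zd_zf {ω : ℂ} (h : I + Complex.exp ω ≠ 0) : zd ω = -(1 - zf ω ^ 2) / 2 := by
  unfold zd zf
  have h' : Complex.exp ω + I ≠ 0 := by rwa [add_comm]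
  field_simp
  ring

theorem omp_zero (z : ℂ) : omp 0 z = 2 / (1 - z ^ 2) := by
  unfold omp
  simp

/-- `X² - q` in the coordinates of the disc -/
theorem X_sq {β : ℂ → ℂ} {a q : ℝ} {ω : ℂ} (h : I + Complex.exp ω ≠ 0) :
    Xf β a ω ^ 2 - q = zd ω ^ 2 * (kA β a (zf ω) - q * omp 0 (zf ω) ^ 2) := by
  have hzd : zd ω ≠ 0 := by
    unfold zd
    refine div_ne_zero (mul_ne_zero (mul_ne_zero (by norm_num) Complex.I_ne_zero)
      (Complex.exp_ne_zero _)) (pow_ne_zero 2 (by rwa [add_comm]))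
  have e1 : zd ω ^ 2 * omp 0 (zf ω) ^ 2 = 1 := by
    have e2 := zd_zf h
    have h1 : (1 - zf ω ^ 2) ≠ 0 := by
      intro h0
      rw [h0] at e2
      simp at e2
      exact hzd e2
    rw [omp_zero, e2]
    field_simp
  have e3 : Xf β a ω ^ 2 = zd ω ^ 2 * kA β a (zf ω) := by
    unfold Xf kA
    ring
  rw [e3, mul_sub, ← mul_assoc, mul_comm (zd ω ^ 2) (q:ℂ), mul_assoc, e1, mul_one]

theorem norm_sq_sub (x : ℂ) (q : ℝ) :
    ‖x ^ 2 - q‖ ≤ (2 + |1 - q|) * (1 + ‖x - 1‖ ^ 2) := by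
  have e : x ^ 2 - q = (x - 1) ^ 2 + 2 * (x - 1) + ((1 - q : ℝ) : ℂ) := by
    push_cast
    ring
  rw [e]
  refine (norm_add_le _ _).trans ((add_le_add (norm_add_le _ _) le_rfl).trans ?_)
  rw [norm_pow, norm_mul, Complex.norm_real, Real.norm_eq_abs]
  have : ‖(2:ℂ)‖ = 2 := by simp
  rw [this]
  (clear * -; nlinarith only [mul_nonneg (abs_nonneg (1 - q)) (sq_nonneg ‖x - 1‖)])

/-- the comparison of the integrands -/
theorem cmp {M M' : ℂ → ℂ} {Mb L ε : ℝ} (hM : MOk M M' Mb L ε) (q : ℝ) {β : ℂ → ℂ} (h : Ext β)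
    {a : ℝ} (ha : 0 < a) (ha1 : a < 1) {ξ η : ℝ} (h0 : 0 < η) (h1 : η < π)
    (hξ1 : Real.log (tau a) < ξ) (hξ : 8 * Real.exp ξ ≤ 1) (hε : 184 * Real.exp ξ ≤ ε) :
    |Mt M q (Xf β a) ξ η - ‖zd (pt ξ η)‖ ^ 2 * (Mh M' β (zf (pt ξ η)) *
      (kA β a (zf (pt ξ η)) - q * omp 0 (zf (pt ξ η)) ^ 2)).re| ≤
      (164 * L + 8 * Mb) * (2 + |1 - q|) * (Real.exp ξ * (1 + ‖Xf β a (pt ξ η) - 1‖ ^ 2)) := by
  have hx1 : ξ ≤ -1 := by
    by_contra h2
    push Not at h2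
    have h3 : Real.exp (-1) < Real.exp ξ := Real.exp_lt_exp.2 h2
    have h4 : (0.36787944116:ℝ) < Real.exp (-1) := Real.exp_neg_one_gt_d9
    linarith only [hξ, h3, h4]
  have a1 := Pool.Agent.Helper97.EK.addI_ne (ξ := ξ) h0 h1
  obtain ⟨p, p1, p2, p3⟩ := phase h0 h1 hx1
  have k0 := Pool.Agent.Helper97.EK.zf_mem (ξ := ξ) h0 h1
  rw [mem_ball_zero_iff] at k0
  -- the point is near the circle
  have hEn := Pool.Agent.Helper97.EK.norm_exp_pt ξ η
  have k1 : 1 - ‖zf (pt ξ η)‖ ≤ 4 * Real.exp ξ := by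
    have e1 : 1 - zf (pt ξ η) = 2 * Complex.exp (pt ξ η) / (I + Complex.exp (pt ξ η)) := by
      unfold zf
      field_simp
      ring
    have h2 : ‖(1:ℂ)‖ - ‖zf (pt ξ η)‖ ≤ ‖1 - zf (pt ξ η)‖ := norm_sub_norm_le _ _
    rw [norm_one, e1, norm_div, norm_mul, hEn] at h2
    have h3 := (low (Complex.exp (pt ξ η)) (by rw [hEn]; (clear * - hξ; linarith only [hξ]))).1
    have : ‖(2:ℂ)‖ = 2 := by simp
    rw [this] at h2
    refine h2.trans ?_
    rw [div_le_iff₀ (by (clear * - h3; linarith only [h3]))]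
    (clear * - h3; nlinarith only [Real.exp_pos ξ, h3])
  have k2 : 1 / 2 ≤ ‖zf (pt ξ η)‖ := by linarith only [hξ, k1]
  have k3 := mX_close h ha ha1 h0 h1 hx1 hξ1 k2
  have k4 := mrad_range h k0 k2
  have k5 : ‖mX (Xf β a (pt ξ η)) (deriv (Xf β a) (pt ξ η)) (Real.sin η) (Real.cos η) + 3‖ ≤
      4 + ε := by
    have e1 : mX (Xf β a (pt ξ η)) (deriv (Xf β a) (pt ξ η)) (Real.sin η) (Real.cos η) + 3 =
        (mX (Xf β a (pt ξ η)) (deriv (Xf β a) (pt ξ η)) (Real.sin η) (Real.cos η) -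
        mrad β (zf (pt ξ η))) + (mrad β (zf (pt ξ η)) + 3) := by ring
    rw [e1]
    refine (norm_add_le _ _).trans ?_
    (clear * - hε k1 k3 k4; linarith only [hε, k1, k3, k4])
  have k6 := hM.eq _ k5
  unfold Mt
  rw [k6, mul_assoc, X_sq a1, ← mul_assoc (e0 (Real.sin η) (Real.cos η)), p2]
  have k7 : ‖(‖zd (pt ξ η)‖ : ℂ) ^ 2 * (kA β a (zf (pt ξ η)) - q * omp 0 (zf (pt ξ η)) ^ 2)‖ ≤
      (2 + |1 - q|) * (1 + ‖Xf β a (pt ξ η) - 1‖ ^ 2) := by
    have h2 := norm_sq_sub (Xf β a (pt ξ η)) q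
    rw [X_sq a1] at h2
    rw [norm_mul, norm_pow] at h2 ⊢
    rwa [Complex.norm_real, norm_norm]
  set K := kA β a (zf (pt ξ η)) - q * omp 0 (zf (pt ξ η)) ^ 2 with hK
  clear_value K
  have k8 := hM.lip (mX (Xf β a (pt ξ η)) (deriv (Xf β a) (pt ξ η)) (Real.sin η) (Real.cos η))
    (mrad β (zf (pt ξ η)))
  generalize mX (Xf β a (pt ξ η)) (deriv (Xf β a) (pt ξ η)) (Real.sin η) (Real.cos η) = m at *
  have k9 := hM.le (mrad β (zf (pt ξ η)))
  unfold Mh
  generalize mrad β (zf (pt ξ η)) = m' at *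
  have e1 : (M' m * ((‖zd (pt ξ η)‖ : ℂ) ^ 2 * p * K)).re -
      ‖zd (pt ξ η)‖ ^ 2 * ((zf (pt ξ η) / ‖zf (pt ξ η)‖) ^ 2 * M' m' * K).re =
      (((M' m - M' m') * p + M' m' * (p - (zf (pt ξ η) / ‖zf (pt ξ η)‖) ^ 2)) *
        ((‖zd (pt ξ η)‖ : ℂ) ^ 2 * K)).re := by
    have e2 : ‖zd (pt ξ η)‖ ^ 2 * ((zf (pt ξ η) / ‖zf (pt ξ η)‖) ^ 2 * M' m' * K).re =
        (((‖zd (pt ξ η)‖ ^ 2 : ℝ) : ℂ) * ((zf (pt ξ η) / ‖zf (pt ξ η)‖) ^ 2 * M' m' * K)).re := by
      rw [Complex.re_ofReal_mul]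
    rw [e2, ← Complex.sub_re]
    congr 1
    push_cast
    ring
  rw [e1]
  refine (abs_re_le_norm _).trans ?_
  rw [norm_mul]
  have hL := hM.L0
  have hMb := hM.Mb0
  have hexp := Real.exp_pos ξ
  have k10 : ‖(M' m - M' m') * p + M' m' * (p - (zf (pt ξ η) / ‖zf (pt ξ η)‖) ^ 2)‖ ≤
      (164 * L + 8 * Mb) * Real.exp ξ := by
    refine (norm_add_le _ _).trans ?_
    rw [norm_mul, norm_mul, p1, mul_one]
    have b1 : ‖M' m - M' m'‖ ≤ L * (164 * Real.exp ξ) :=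
      k8.trans (mul_le_mul_of_nonneg_left k3 hL)
    have b2 : ‖M' m'‖ * ‖p - (zf (pt ξ η) / ‖zf (pt ξ η)‖) ^ 2‖ ≤ Mb * (8 * Real.exp ξ) :=
      mul_le_mul k9 p3 (norm_nonneg _) hMb
    linarith only [b1, b2]
  have k11 := mul_le_mul k10 k7 (norm_nonneg _) (by (clear * - hL hMb; positivity))
  refine k11.trans (le_of_eq ?_)
  ring

end Pool.Agent.Helper69.CK

end

section

namespace Pool.Agent.Helper39.Area
end Pool.Agent.Helper39.Area
namespace Pool.Agent.Helper39.EK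
end Pool.Agent.Helper39.EK

/-!
The energy of the logarithm of a difference with a unimodular factor `u` (after helper39).
-/

set_option autoImplicit false

open Complex MeasureTheory Metric Set Filter Topology

open scoped Real ENNReal ComplexConjugate NNReal

namespace Pool.Agent.Helper68.EKC

open Pool.Agent.Helper39.Area Pool.Agent.Helper39.EK

variable {β : ℂ → ℂ}

theorem energy_aux_u (h : Ext β) {u : ℂ} (hu : ‖u‖ = 1) {ρ : ℝ} (hρ : 0 < ρ) (hρ1 : ρ < 1)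
    {a : ℂ} (ha : a ∈ ball (0:ℂ) ρ) (ha0 : a ≠ 0) {F : ℂ → ℂ}
    (hF : ∀ ζ ∈ ball (0:ℂ) 1, HasDerivAt F (deriv (qq β a) ζ / qq β a ζ) ζ)
    (hF0 : F 0 = 0) (hexp : ∀ ζ ∈ ball (0:ℂ) 1, Complex.exp (F ζ) = qq β a ζ) :
    ∃ c2 : ℝ, c2 ≤ 2 * (- Real.log (1 - ‖a‖ ^ 2 / ρ ^ 2)) + 2 * (conj u * F a).re ∧
      ∀ N : ℕ, ∑ n ∈ Finset.range N, (n:ℝ) * ρ ^ (2 * n) *
        ‖iteratedDeriv n (fun ζ => F ζ - u * Lam ρ a ζ) 0 / n.factorial‖ ^ 2 ≤ c2 := by
  have ha1 : a ∈ ball (0:ℂ) 1 := mem_ball_of_sphere hρ1 (ball_subset_closedBall ha)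
  have hapos : 0 < ‖a‖ := norm_pos_iff.mpr ha0
  have haρ : ‖a‖ < ρ := by simpa using ha
  set Q : ℂ → ℂ := fun ζ => deriv (qq β a) ζ / qq β a ζ with hQ
  set R : ℝ := min 1 (ρ ^ 2 / ‖a‖) with hR
  have hρR : ρ < R := lt_min hρ1 (rad_lt hρ ha ha0)
  have hR1 : ball (0:ℂ) R ⊆ ball 0 1 := ball_subset_ball (min_le_left _ _)
  have hR2 : ball (0:ℂ) R ⊆ ball 0 (ρ ^ 2 / ‖a‖) := ball_subset_ball (min_le_right _ _)
  have hsR : sphere (0:ℂ) ρ ⊆ ball 0 R := by
    intro ζ hζ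
    rw [mem_ball, dist_zero_right]
    rw [mem_sphere, dist_zero_right] at hζ
    linarith only [hρR, hζ]
  have hFd : DifferentiableOn ℂ F (ball 0 R) := fun ζ hζ =>
    (hF ζ (hR1 hζ)).differentiableAt.differentiableWithinAt
  have hQd : DifferentiableOn ℂ Q (ball 0 R) := by
    have h1 : DifferentiableOn ℂ (deriv F) (ball 0 R) := hFd.deriv isOpen_ball
    apply h1.congr
    intro ζ hζ
    exact (hF ζ (hR1 hζ)).deriv.symm
  have hLd : DifferentiableOn ℂ (Lam ρ a) (ball 0 R) := (lam_diff hρ ha ha0).mono hR2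
  have hLpd : DifferentiableOn ℂ (Lamp ρ a) (ball 0 R) := by
    have h1 : DifferentiableOn ℂ (deriv (Lam ρ a)) (ball 0 R) := hLd.deriv isOpen_ball
    apply h1.congr
    intro ζ hζ
    exact (lam_hasDeriv hρ ha ha0 (hR2 hζ)).deriv.symm
  have hFc : ContinuousOn F (sphere 0 ρ) := hFd.continuousOn.mono hsR
  have hQc : ContinuousOn Q (sphere 0 ρ) := hQd.continuousOn.mono hsR
  have hLc : ContinuousOn (Lam ρ a) (sphere 0 ρ) := hLd.continuousOn.mono hsR
  have hLpc : ContinuousOn (Lamp ρ a) (sphere 0 ρ) := hLpd.continuousOn.mono hsR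
  have hgpc : ContinuousOn (gp a) (sphere 0 ρ) := gp_cont ha hρ
  set G : ℂ → ℂ := fun ζ => Complex.log (1 - a / ζ) with hG
  have hGc : ContinuousOn G (sphere 0 ρ) := fun ζ hζ =>
    (g_hasDeriv ha hρ hζ).continuousAt.continuousWithinAt
  have hcFc : ContinuousOn (fun ζ => conj (F ζ)) (sphere 0 ρ) :=
    Complex.continuous_conj.comp_continuousOn hFc
  have hFs : ∀ ζ ∈ sphere (0:ℂ) ρ, HasDerivAt F (Q ζ) ζ := fun ζ hζ => hF ζ (hR1 (hsR hζ))
  have hLs : ∀ ζ ∈ sphere (0:ℂ) ρ, HasDerivAt (Lam ρ a) (Lamp ρ a ζ) ζ := fun ζ hζ =>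
    lam_hasDeriv hρ ha ha0 (hR2 (hsR hζ))
  have hGs : ∀ ζ ∈ sphere (0:ℂ) ρ, HasDerivAt G (gp a ζ) ζ := fun ζ hζ => g_hasDeriv ha hρ hζ
  have hGL : ∀ ζ ∈ sphere (0:ℂ) ρ, conj (Lam ρ a ζ) = G ζ := fun ζ hζ => conj_lam hρ ha ha0 hζ
  set ℓ : ℝ := - Real.log (1 - ‖a‖ ^ 2 / ρ ^ 2) with hℓ
  have hfrac : 0 < ‖a‖ ^ 2 / ρ ^ 2 := by (clear * - ha0 hρ; positivity)
  have hfrac1 : ‖a‖ ^ 2 / ρ ^ 2 < 1 := by
    rw [div_lt_one (by positivity)]
    exact pow_lt_pow_left₀ haρ hapos.le two_ne_zero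
  have hℓpos : 0 < ℓ := by
    rw [hℓ, neg_pos]
    exact Real.log_neg (by linarith only [hfrac1]) (by linarith only [hfrac])
  have hLa : Lam ρ a a = -(ℓ:ℂ) := by
    rw [lam_self hρ ha, hℓ]; push_cast; ring
  have hL0 : Lam ρ a 0 = 0 := lam_zero ρ a
  -- the basic integrals
  have I3 : (∮ ζ in C(0, ρ), G ζ * Q ζ) = -(2 * π * I * F a) := by
    rw [parts hρ hGs hFs hgpc hQc, repro hρ hρR hFd ha, hF0, sub_zero]
  have I4 : (∮ ζ in C(0, ρ), G ζ * gp a ζ) = 0 := by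
    have h1 := parts hρ hGs hGs hgpc hgpc
    have h2 : (2:ℂ) * (∮ ζ in C(0, ρ), G ζ * gp a ζ) = 0 := by linear_combination h1
    simpa using h2
  obtain ⟨A, hA0, hA⟩ := dirichlet_nonneg hFd hρ hρR
  have I5 : (∮ ζ in C(0, ρ), conj (F ζ) * Q ζ) = 2 * π * I * A := by
    rw [← hA]
    apply circleIntegral.integral_congr hρ.le
    intro ζ hζ
    simp only
    rw [(hFs ζ hζ).deriv]
  have I6 : (∮ ζ in C(0, ρ), conj (F ζ) * gp a ζ) = 0 := by
    have h1 := conj_circle hρ (fun ζ => conj (F ζ) * gp a ζ)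
    have h2 : (∮ ζ in C(0, ρ), (-((ρ:ℂ) ^ 2 / ζ ^ 2)) * conj (conj (F ζ) * gp a ζ)) =
        ∮ ζ in C(0, ρ), F ζ * Lamp ρ a ζ := by
      apply circleIntegral.integral_congr hρ.le
      intro ζ hζ
      simp only
      rw [map_mul, Complex.conj_conj, ← lamp_eq hρ ha ha0 hζ]
      ring
    have hz : (∮ ζ in C(0, ρ), F ζ * Lamp ρ a ζ) = 0 := cauchy_zero hρ hρR (hFd.mul hLpd)
    rw [h2, hz] at h1
    simpa using h1
  have I7 : (∮ ζ in C(0, ρ), conj (F ζ) * Lamp ρ a ζ) = -(2 * π * I * conj (F a)) := by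
    have h1 := conj_circle hρ (fun ζ => conj (F ζ) * Lamp ρ a ζ)
    have h2 : (∮ ζ in C(0, ρ), (-((ρ:ℂ) ^ 2 / ζ ^ 2)) * conj (conj (F ζ) * Lamp ρ a ζ)) =
        ∮ ζ in C(0, ρ), F ζ * gp a ζ := by
      apply circleIntegral.integral_congr hρ.le
      intro ζ hζ
      simp only
      rw [map_mul, Complex.conj_conj, ← gp_eq hρ ha ha0 hζ]
      ring
    rw [h2, repro hρ hρR hFd ha, hF0, sub_zero] at h1
    have h3 := congrArg conj h1
    rw [Complex.conj_conj] at h3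
    rw [h3]
    simp only [map_mul, Complex.conj_ofReal, Complex.conj_I, map_ofNat]
    ring
  have I8 : (∮ ζ in C(0, ρ), G ζ * Lamp ρ a ζ) = 2 * π * I * ℓ := by
    rw [parts hρ hGs hLs hgpc hLpc, repro hρ hρR hLd ha, hLa, hL0]
    ring
  -- the area inequality
  obtain ⟨c, hc0, hc⟩ := area_log h hρ hρ1 ha ha0
  set c0 : ℂ := ((-2 * Real.log ‖a‖ : ℝ) : ℂ) with hc0'
  have hW : DifferentiableOn ℂ (fun ζ => c0 + Lam ρ a ζ + F ζ) (ball 0 R) :=
    ((differentiableOn_const c0).add hLd).add hFd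
  have hWc : ContinuousOn (fun ζ => c0 + Lam ρ a ζ + F ζ) (sphere 0 ρ) := hW.continuousOn.mono hsR
  have I1 : (∮ ζ in C(0, ρ), (c0 + Lam ρ a ζ + F ζ) * Q ζ) = 0 :=
    cauchy_zero hρ hρR (hW.mul hQd)
  have I2 : (∮ ζ in C(0, ρ), (c0 + Lam ρ a ζ + F ζ) * gp a ζ) = 2 * π * I * (F a - ℓ) := by
    rw [repro hρ hρR hW ha, hLa, hL0, hF0]
    ring
  have hJ : (∮ ζ in C(0, ρ), ((2 * Real.log ‖phi β ζ - phi β a‖ : ℝ) : ℂ) *
      (dphi β ζ / (phi β ζ - phi β a))) =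
      ∮ ζ in C(0, ρ), ((((((c0 + Lam ρ a ζ + F ζ) * Q ζ) + ((c0 + Lam ρ a ζ + F ζ) * gp a ζ)) +
        (G ζ * Q ζ)) + (G ζ * gp a ζ)) + (conj (F ζ) * Q ζ)) + (conj (F ζ) * gp a ζ) := by
    apply circleIntegral.integral_congr hρ.le
    intro ζ hζ
    have hζ1 : ζ ∈ ball (0:ℂ) 1 := hR1 (hsR hζ)
    have hζ0 : ζ ≠ 0 := sphere_ne' hρ hζ
    have hne : ζ ≠ a := by
      rintro rfl
      simp at hζ
      linarith only [haρ, hζ]
    have h1 : ((2 * Real.log ‖phi β ζ - phi β a‖ : ℝ) : ℂ) =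
        c0 + Lam ρ a ζ + F ζ + G ζ + conj (F ζ) := by
      have h2 : phi β ζ - phi β a = -a⁻¹ * (1 - a / ζ) * qq β a ζ := by
        rw [phi_sub a ζ ha0 hζ0]
        field_simp
        ring
      have h3 : (1 - a / ζ) ≠ 0 := by
        intro h'
        rw [sub_eq_zero, eq_div_iff hζ0, one_mul] at h'
        exact hne h'
      have h4 : qq β a ζ ≠ 0 := qq_ne h ha1 hζ1
      have h5 : Real.log ‖phi β ζ - phi β a‖ = - Real.log ‖a‖ + (G ζ).re + (F ζ).re := by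
        rw [h2, norm_mul, norm_mul, norm_neg, norm_inv,
          Real.log_mul (mul_ne_zero (inv_ne_zero hapos.ne') (norm_ne_zero_iff.mpr h3))
            (norm_ne_zero_iff.mpr h4),
          Real.log_mul (inv_ne_zero hapos.ne') (norm_ne_zero_iff.mpr h3), Real.log_inv, hG,
          Complex.log_re, ← hexp ζ hζ1, Complex.norm_exp, Real.log_exp]
      have h6 : Lam ρ a ζ = conj (G ζ) := by rw [← hGL ζ hζ, Complex.conj_conj]
      rw [h5, h6, hc0']
      have h7 := Complex.add_conj (G ζ)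
      have h8 := Complex.add_conj (F ζ)
      push_cast at h7 h8 ⊢
      linear_combination -h7 - h8
    simp only
    rw [h1, dphi_div h ha1 hζ1 ha0 hζ0 hne]
    simp only [gp, hQ]
    ring
  have hc1 : CircleIntegrable (fun ζ => (c0 + Lam ρ a ζ + F ζ) * Q ζ) 0 ρ :=
    (hWc.mul hQc).circleIntegrable hρ.le
  have hc2 : CircleIntegrable (fun ζ => (c0 + Lam ρ a ζ + F ζ) * gp a ζ) 0 ρ :=
    (hWc.mul hgpc).circleIntegrable hρ.le
  have hc3 : CircleIntegrable (fun ζ => G ζ * Q ζ) 0 ρ := (hGc.mul hQc).circleIntegrable hρ.le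
  have hc4 : CircleIntegrable (fun ζ => G ζ * gp a ζ) 0 ρ := (hGc.mul hgpc).circleIntegrable hρ.le
  have hc5 : CircleIntegrable (fun ζ => conj (F ζ) * Q ζ) 0 ρ :=
    (hcFc.mul hQc).circleIntegrable hρ.le
  have hc6 : CircleIntegrable (fun ζ => conj (F ζ) * gp a ζ) 0 ρ :=
    (hcFc.mul hgpc).circleIntegrable hρ.le
  have hc12 : CircleIntegrable (fun ζ => ((c0 + Lam ρ a ζ + F ζ) * Q ζ) +
      ((c0 + Lam ρ a ζ + F ζ) * gp a ζ)) 0 ρ := hc1.add hc2
  have hc13 : CircleIntegrable (fun ζ => (((c0 + Lam ρ a ζ + F ζ) * Q ζ) +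
      ((c0 + Lam ρ a ζ + F ζ) * gp a ζ)) + (G ζ * Q ζ)) 0 ρ := hc12.add hc3
  have hc14 : CircleIntegrable (fun ζ => ((((c0 + Lam ρ a ζ + F ζ) * Q ζ) +
      ((c0 + Lam ρ a ζ + F ζ) * gp a ζ)) + (G ζ * Q ζ)) + (G ζ * gp a ζ)) 0 ρ := hc13.add hc4
  have hc15 : CircleIntegrable (fun ζ => (((((c0 + Lam ρ a ζ + F ζ) * Q ζ) +
      ((c0 + Lam ρ a ζ + F ζ) * gp a ζ)) + (G ζ * Q ζ)) + (G ζ * gp a ζ)) +
      (conj (F ζ) * Q ζ)) 0 ρ := hc14.add hc5
  rw [hJ, circleIntegral.integral_add hc15 hc6, circleIntegral.integral_add hc14 hc5,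
    circleIntegral.integral_add hc13 hc4, circleIntegral.integral_add hc12 hc3,
    circleIntegral.integral_add hc1 hc2, I1, I2, I3, I4, I5, I6] at hc
  have hpi : (π:ℂ) ≠ 0 := by exact_mod_cast Real.pi_ne_zero
  have hAc : (A:ℂ) = ℓ - c / π := by
    have hI : (2 * I : ℂ) ≠ 0 := by simp
    have : (2 * I : ℂ) * (π * A) = (2 * I : ℂ) * (π * ℓ - c) := by linear_combination hc
    have h2 := mul_left_cancel₀ hI this
    field_simp
    linear_combination h2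
  have hAr : A = ℓ - c / π := by exact_mod_cast hAc
  have hAle : A ≤ ℓ := by
    rw [hAr]
    have : 0 ≤ c / π := div_nonneg hc0 Real.pi_pos.le
    linarith only [this]
  -- the Dirichlet form of the combination
  have hEd : DifferentiableOn ℂ (fun ζ => F ζ - u * Lam ρ a ζ) (ball 0 R) :=
    hFd.sub (hLd.const_mul u)
  obtain ⟨c2, hc20, hc2'⟩ := dirichlet_sum hEd hρ hρR
  have huu : conj u * u = 1 := by
    rw [Complex.conj_mul', hu]; norm_num
  have hE : (∮ ζ in C(0, ρ), conj (F ζ - u * Lam ρ a ζ) *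
      deriv (fun ζ => F ζ - u * Lam ρ a ζ) ζ) =
      ∮ ζ in C(0, ρ), (((conj (F ζ) * Q ζ) - u * (conj (F ζ) * Lamp ρ a ζ)) -
        conj u * (G ζ * Q ζ)) + (G ζ * Lamp ρ a ζ) := by
    apply circleIntegral.integral_congr hρ.le
    intro ζ hζ
    have h1 : deriv (fun ζ => F ζ - u * Lam ρ a ζ) ζ = Q ζ - u * Lamp ρ a ζ :=
      ((hFs ζ hζ).sub ((hLs ζ hζ).const_mul u)).deriv
    simp only
    rw [h1, map_sub, map_mul, hGL ζ hζ]
    linear_combination (G ζ * Lamp ρ a ζ) * huu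
  have hd2 : CircleIntegrable (fun ζ => u * (conj (F ζ) * Lamp ρ a ζ)) 0 ρ :=
    (continuousOn_const.mul (hcFc.mul hLpc)).circleIntegrable hρ.le
  have hd3 : CircleIntegrable (fun ζ => conj u * (G ζ * Q ζ)) 0 ρ :=
    (continuousOn_const.mul (hGc.mul hQc)).circleIntegrable hρ.le
  have hd4 : CircleIntegrable (fun ζ => G ζ * Lamp ρ a ζ) 0 ρ :=
    (hGc.mul hLpc).circleIntegrable hρ.le
  have hd12 : CircleIntegrable (fun ζ => (conj (F ζ) * Q ζ) -
      u * (conj (F ζ) * Lamp ρ a ζ)) 0 ρ := hc5.sub hd2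
  have hd13 : CircleIntegrable (fun ζ => ((conj (F ζ) * Q ζ) -
      u * (conj (F ζ) * Lamp ρ a ζ)) - conj u * (G ζ * Q ζ)) 0 ρ := hd12.sub hd3
  rw [hE, circleIntegral.integral_add hd13 hd4, circleIntegral.integral_sub hd12 hd3,
    circleIntegral.integral_sub hc5 hd2, circleIntegral.integral_const_mul,
    circleIntegral.integral_const_mul, I5, I7, I3, I8] at hc2'
  have hfin : (A:ℂ) + 2 * ((conj u * F a).re : ℂ) + ℓ = c2 := by
    have h2pi : (2 * π * I : ℂ) ≠ 0 := two_pi_I_ne_zero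
    apply mul_left_cancel₀ h2pi
    have h8 := Complex.add_conj (conj u * F a)
    rw [map_mul, Complex.conj_conj] at h8
    push_cast at h8
    rw [← hc2', ← h8]
    ring
  have hfinr : A + 2 * (conj u * F a).re + ℓ = c2 := by exact_mod_cast hfin
  refine ⟨c2, ?_, hc20⟩
  linarith only [hAle, hfinr]

end Pool.Agent.Helper68.EKC

end

section

namespace Pool.Agent.Helper39.Area
end Pool.Agent.Helper39.Area
namespace Pool.Agent.Helper39.EK
end Pool.Agent.Helper39.EK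

/-!
E1: the energy inequality with a unimodular factor `u` (after helper39).
-/

set_option autoImplicit false

open Complex MeasureTheory Metric Set Filter Topology

open scoped Real ENNReal ComplexConjugate NNReal

namespace Pool.Agent.Helper68.EKC

open Pool.Agent.Helper39.Area Pool.Agent.Helper39.EK

variable {β : ℂ → ℂ}

theorem energy_rho_u (h : Ext β) {u : ℂ} (hu : ‖u‖ = 1) {ρ₀ ρ : ℝ} (hρ₀ : 0 < ρ₀) (hρ : ρ₀ < ρ) (hρ1 : ρ < 1)
    {a : ℂ} (ha : a ∈ ball (0:ℂ) ρ) (ha0 : a ≠ 0) {F : ℂ → ℂ}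
    (hF : ∀ ζ ∈ ball (0:ℂ) 1, HasDerivAt F (deriv (qq β a) ζ / qq β a ζ) ζ)
    (hF0 : F 0 = 0) (hexp : ∀ ζ ∈ ball (0:ℂ) 1, Complex.exp (F ζ) = qq β a ζ) :
    ∫ z in ball (0:ℂ) ρ₀, ‖deriv F z + u * (conj a / ((ρ:ℂ) ^ 2 - conj a * z))‖ ^ 2 ≤
      π * (2 * (- Real.log (1 - ‖a‖ ^ 2 / ρ ^ 2)) + 2 * (conj u * F a).re) := by
  have hρp : 0 < ρ := hρ₀.trans hρ
  obtain ⟨c2, hc2, hsum⟩ := energy_aux_u h hu hρp hρ1 ha ha0 hF hF0 hexp
  set R : ℝ := min 1 (ρ ^ 2 / ‖a‖) with hR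
  have hρR : ρ < R := lt_min hρ1 (rad_lt hρp ha ha0)
  have hR1 : ball (0:ℂ) R ⊆ ball 0 1 := ball_subset_ball (min_le_left _ _)
  have hR2 : ball (0:ℂ) R ⊆ ball 0 (ρ ^ 2 / ‖a‖) := ball_subset_ball (min_le_right _ _)
  have hFd : DifferentiableOn ℂ F (ball 0 R) := fun ζ hζ =>
    (hF ζ (hR1 hζ)).differentiableAt.differentiableWithinAt
  have hLd : DifferentiableOn ℂ (Lam ρ a) (ball 0 R) := (lam_diff hρp ha ha0).mono hR2
  have hEd : DifferentiableOn ℂ (fun ζ => F ζ - u * Lam ρ a ζ) (ball 0 R) := hFd.sub (hLd.const_mul u)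
  have h1 := area_le hEd hρp hρR hsum
  have hder : ∀ z ∈ ball (0:ℂ) R, deriv (fun ζ => F ζ - u * Lam ρ a ζ) z =
      deriv F z + u * (conj a / ((ρ:ℂ) ^ 2 - conj a * z)) := by
    intro z hz
    have h2 : deriv (fun ζ => F ζ - u * Lam ρ a ζ) z = deriv F z - u * Lamp ρ a z :=
      (((hF z (hR1 hz)).differentiableAt.hasDerivAt).sub
        ((lam_hasDeriv hρp ha ha0 (hR2 hz)).const_mul u)).deriv
    rw [h2, Lamp]
    have hρc : (ρ:ℂ) ^ 2 ≠ 0 := pow_ne_zero _ (by exact_mod_cast hρp.ne')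
    have h3 : (1 - conj a * z / (ρ:ℂ) ^ 2) = ((ρ:ℂ) ^ 2 - conj a * z) / (ρ:ℂ) ^ 2 := by
      rw [sub_div, div_self hρc]
    rw [h3, neg_div, mul_neg, sub_neg_eq_add, div_div_div_cancel_right₀ hρc]
  have hcont : ContinuousOn (fun z => ‖deriv F z + u * (conj a / ((ρ:ℂ) ^ 2 - conj a * z))‖ ^ 2)
      (closedBall 0 ρ) := by
    have h4 : ContinuousOn (fun z => ‖deriv (fun ζ => F ζ - u * Lam ρ a ζ) z‖ ^ 2) (closedBall 0 ρ) :=
      (((hEd.deriv isOpen_ball).continuousOn.mono (closedBall_subset_ball hρR)).norm).pow 2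
    refine h4.congr fun z hz => ?_
    simp only
    rw [hder z (closedBall_subset_ball hρR hz)]
  have hint : IntegrableOn (fun z => ‖deriv F z + u * (conj a / ((ρ:ℂ) ^ 2 - conj a * z))‖ ^ 2)
      (ball 0 ρ) :=
    (hcont.integrableOn_compact (isCompact_closedBall _ _)).mono_set ball_subset_closedBall
  calc ∫ z in ball (0:ℂ) ρ₀, ‖deriv F z + u * (conj a / ((ρ:ℂ) ^ 2 - conj a * z))‖ ^ 2
      ≤ ∫ z in ball (0:ℂ) ρ, ‖deriv F z + u * (conj a / ((ρ:ℂ) ^ 2 - conj a * z))‖ ^ 2 :=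
        setIntegral_mono_set hint (ae_of_all _ fun _ => by (clear * -; positivity))
          (ball_subset_ball hρ.le).eventuallyLE
    _ = ∫ z in ball (0:ℂ) ρ, ‖deriv (fun ζ => F ζ - u * Lam ρ a ζ) z‖ ^ 2 := by
        apply setIntegral_congr_fun measurableSet_ball
        intro z hz
        simp only
        rw [hder z (ball_subset_ball hρR.le hz)]
    _ ≤ π * c2 := h1
    _ ≤ _ := mul_le_mul_of_nonneg_left hc2 Real.pi_pos.le

/-- E1: the energy inequality -/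
theorem energy_u (h : Ext β) {u : ℂ} (hu : ‖u‖ = 1) {ρ₀ : ℝ} (hρ₀ : 0 < ρ₀) (hρ₀1 : ρ₀ < 1)
    {a : ℂ} (ha : a ∈ ball (0:ℂ) 1) (ha0 : a ≠ 0) {F : ℂ → ℂ}
    (hF : ∀ ζ ∈ ball (0:ℂ) 1, HasDerivAt F (deriv (qq β a) ζ / qq β a ζ) ζ)
    (hF0 : F 0 = 0) (hexp : ∀ ζ ∈ ball (0:ℂ) 1, Complex.exp (F ζ) = qq β a ζ) :
    ∫ z in ball (0:ℂ) ρ₀, ‖deriv F z + u * (conj a / (1 - conj a * z))‖ ^ 2 ≤
      2 * π * (- Real.log (1 - ‖a‖ ^ 2) + (conj u * F a).re) := by
  have ha1 : ‖a‖ < 1 := by simpa using ha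
  have hapos : 0 < ‖a‖ := norm_pos_iff.mpr ha0
  have hFd : DifferentiableOn ℂ F (ball 0 1) := fun ζ hζ =>
    (hF ζ hζ).differentiableAt.differentiableWithinAt
  have hdc : ContinuousOn (deriv F) (closedBall 0 ρ₀) :=
    (hFd.deriv isOpen_ball).continuousOn.mono (closedBall_subset_ball hρ₀1)
  obtain ⟨M, hM⟩ := (isCompact_closedBall (0:ℂ) ρ₀).exists_bound_of_continuousOn hdc
  have hM0 : 0 ≤ M := (norm_nonneg _).trans (hM 0 (mem_closedBall_self hρ₀.le))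
  have haρ : ‖a‖ * ρ₀ < 1 := by nlinarith only [hρ₀1, ha1, hapos]
  set δ : ℝ := (1 - ‖a‖ * ρ₀) / 2 with hδ
  have hδ0 : 0 < δ := by rw [hδ]; linarith only [haρ]
  have hlow : ∀ ρ : ℝ, (1 + ‖a‖ * ρ₀) / 2 ≤ ρ ^ 2 → ∀ z ∈ ball (0:ℂ) ρ₀,
      δ ≤ ‖(ρ:ℂ) ^ 2 - conj a * z‖ := by
    intro ρ hρ z hz
    have h1 : ‖(ρ:ℂ) ^ 2‖ = ρ ^ 2 := by
      rw [norm_pow, Complex.norm_real, Real.norm_eq_abs, sq_abs]
    have h2 : ‖conj a * z‖ ≤ ‖a‖ * ρ₀ := by
      rw [norm_mul, RCLike.norm_conj]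
      rw [mem_ball, dist_zero_right] at hz
      exact mul_le_mul_of_nonneg_left hz.le (norm_nonneg _)
    have h3 := norm_sub_norm_le ((ρ:ℂ) ^ 2) (conj a * z)
    rw [h1] at h3
    rw [hδ]
    linarith only [hρ, h2, h3]
  have hev : ∀ᶠ ρ : ℝ in 𝓝[<] 1, ρ₀ < ρ ∧ ‖a‖ < ρ ∧ ρ < 1 ∧ (1 + ‖a‖ * ρ₀) / 2 ≤ ρ ^ 2 := by
    have h1 : ∀ᶠ ρ : ℝ in 𝓝[<] 1, ρ₀ < ρ :=
      (eventually_gt_nhds hρ₀1).filter_mono nhdsWithin_le_nhds
    have h2 : ∀ᶠ ρ : ℝ in 𝓝[<] 1, ‖a‖ < ρ :=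
      (eventually_gt_nhds ha1).filter_mono nhdsWithin_le_nhds
    have h3 : ∀ᶠ ρ : ℝ in 𝓝[<] 1, ρ < 1 := eventually_mem_nhdsWithin
    have h4 : ∀ᶠ ρ : ℝ in 𝓝[<] 1, (1 + ‖a‖ * ρ₀) / 2 < ρ ^ 2 := by
      have h5 : Tendsto (fun ρ : ℝ => ρ ^ 2) (𝓝[<] 1) (𝓝 (1 ^ 2)) :=
        ((continuous_pow 2).tendsto 1).mono_left nhdsWithin_le_nhds
      exact h5.eventually (eventually_gt_nhds (by (clear * - hδ hδ0; linarith only [hδ, hδ0])))
    filter_upwards [h1, h2, h3, h4] with ρ a1 a2 a3 a4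
    exact ⟨a1, a2, a3, a4.le⟩
  have hL : Tendsto (fun ρ : ℝ => ∫ z in ball (0:ℂ) ρ₀,
      ‖deriv F z + u * (conj a / ((ρ:ℂ) ^ 2 - conj a * z))‖ ^ 2) (𝓝[<] 1)
      (𝓝 (∫ z in ball (0:ℂ) ρ₀, ‖deriv F z + u * (conj a / (1 - conj a * z))‖ ^ 2)) := by
    apply tendsto_integral_filter_of_dominated_convergence (fun _ => (M + ‖a‖ / δ) ^ 2)
    · filter_upwards [hev] with ρ hρ
      have hc : ContinuousOn (fun z => ‖deriv F z + u * (conj a / ((ρ:ℂ) ^ 2 - conj a * z))‖ ^ 2)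
          (ball 0 ρ₀) := by
        apply ContinuousOn.pow
        apply ContinuousOn.norm
        apply (hdc.mono ball_subset_closedBall).add
        apply continuousOn_const.mul
        apply ContinuousOn.div continuousOn_const (by fun_prop)
        intro z hz h0
        have := hlow ρ hρ.2.2.2 z hz
        rw [h0, norm_zero] at this
        (clear * - hδ0 this; linarith only [hδ0, this])
      exact hc.aestronglyMeasurable measurableSet_ball
    · filter_upwards [hev] with ρ hρ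
      filter_upwards [ae_restrict_mem measurableSet_ball] with z hz
      rw [Real.norm_of_nonneg (by (clear * -; positivity))]
      gcongr
      refine (norm_add_le _ _).trans (add_le_add (hM z (ball_subset_closedBall hz)) ?_)
      rw [norm_mul, hu, one_mul, norm_div, RCLike.norm_conj]
      exact div_le_div_of_nonneg_left (norm_nonneg _) hδ0 (hlow ρ hρ.2.2.2 z hz)
    · exact integrableOn_const measure_ball_lt_top.ne
    · filter_upwards [ae_restrict_mem measurableSet_ball] with z hz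
      have hne : (1:ℂ) - conj a * z ≠ 0 := by
        intro h0
        have := hlow 1 (by (clear * - haρ; linarith only [haρ])) z hz
        rw [Complex.ofReal_one, one_pow, h0, norm_zero] at this
        linarith only [hδ0, this]
      have h1 : Tendsto (fun ρ : ℝ => (ρ:ℂ) ^ 2 - conj a * z) (𝓝[<] 1)
          (𝓝 (((1:ℝ):ℂ) ^ 2 - conj a * z)) := by
        have hc : Continuous fun ρ : ℝ => (ρ:ℂ) ^ 2 - conj a * z := by fun_prop
        exact (hc.tendsto 1).mono_left nhdsWithin_le_nhds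
      rw [Complex.ofReal_one, one_pow] at h1
      exact ((((tendsto_const_nhds (x := conj a)).div h1 hne).const_mul u).const_add
        (deriv F z)).norm.pow 2
  have hRlim : Tendsto (fun ρ : ℝ => π * (2 * (- Real.log (1 - ‖a‖ ^ 2 / ρ ^ 2)) + 2 * (conj u * F a).re))
      (𝓝[<] 1) (𝓝 (π * (2 * (- Real.log (1 - ‖a‖ ^ 2 / 1 ^ 2)) + 2 * (conj u * F a).re))) := by
    have h1 : ContinuousAt (fun ρ : ℝ => π * (2 * (- Real.log (1 - ‖a‖ ^ 2 / ρ ^ 2)) +
        2 * (conj u * F a).re)) 1 := by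
      have h2 : (1:ℝ) - ‖a‖ ^ 2 / 1 ^ 2 ≠ 0 := by
        have : ‖a‖ ^ 2 < 1 := by nlinarith only [ha1, hapos]
        rw [one_pow, div_one]
        linarith only [this]
      have h3 : ContinuousAt (fun ρ : ℝ => 1 - ‖a‖ ^ 2 / ρ ^ 2) 1 := by
        apply continuousAt_const.sub
        apply continuousAt_const.div (by fun_prop)
        norm_num
      have h4 := h3.log h2
      exact continuousAt_const.mul ((continuousAt_const.mul h4.neg).add continuousAt_const)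
    exact h1.tendsto.mono_left nhdsWithin_le_nhds
  have hfin := le_of_tendsto_of_tendsto hL hRlim (by
    filter_upwards [hev] with ρ hρ
    exact energy_rho_u h hu hρ₀ hρ.1 hρ.2.2.1 (by simpa using hρ.2.1) ha0 hF hF0 hexp)
  rw [one_pow, div_one] at hfin
  (clear * - hfin; linarith)

end Pool.Agent.Helper68.EKC

end

section

namespace Pool.Agent.Helper39.Area
end Pool.Agent.Helper39.Area
namespace Pool.Agent.Helper52.EK
end Pool.Agent.Helper52.EK
namespace Pool.Agent.Helper39.EK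
end Pool.Agent.Helper39.EK

set_option autoImplicit false

open Complex MeasureTheory Metric Set Filter Topology

open scoped Real ENNReal ComplexConjugate NNReal

namespace Pool.Agent.Helper68.EKC

open Pool.Agent.Helper39.Area Pool.Agent.Helper52.EK Pool.Agent.Helper39.EK

variable {β : ℂ → ℂ}

/-- `L` is the logarithm of `N β = psi'(1/z)` with `L 0 = 0` -/
structure IsLog (β L : ℂ → ℂ) : Prop where
  cont : ContinuousOn L (ball 0 1)
  zero : L 0 = 0
  exp : ∀ z ∈ ball (0:ℂ) 1, Complex.exp (L z) = N β z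

/-- identification of the branch: any logarithm of the divided difference, at the diagonal -/
theorem branch_eq (h : Ext β) {H : ℂ → ℂ} (hH : ContinuousOn H (ball 0 1)) (hH0 : H 0 = 0)
    (hexp : ∀ ζ ∈ ball (0:ℂ) 1, Complex.exp (H ζ) = N β ζ) {a : ℂ}
    (ha : a ∈ ball (0:ℂ) 1) {F : ℂ → ℂ} (hFc : ContinuousOn F (ball 0 1)) (hF0 : F 0 = 0)
    (hFe : ∀ ζ ∈ ball (0:ℂ) 1, Complex.exp (F ζ) = qq β a ζ) : H a = F a := by
  set U : Set (ℂ × ℂ) := ball 0 1 ×ˢ ball 0 1 with hU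
  have hUo : IsOpen U := isOpen_ball.prod isOpen_ball
  have hUconv : Convex ℝ U := (convex_ball _ _).prod (convex_ball _ _)
  have h00 : ((0:ℂ), (0:ℂ)) ∈ U := ⟨mem_ball_self one_pos, mem_ball_self one_pos⟩
  have hUs : IsSimplyConnected U := by
    have hc : ContractibleSpace U := hUconv.contractibleSpace ⟨_, h00⟩
    show SimplyConnectedSpace U
    infer_instance
  have hqc : ContinuousOn (fun p : ℂ × ℂ => qq β p.1 p.2) U := by
    unfold qq
    apply ContinuousOn.sub continuousOn_const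
    apply ContinuousOn.mul (by fun_prop)
    exact dslope_cont h.diff
  have hq0 : 0 ∉ (fun p : ℂ × ℂ => qq β p.1 p.2) '' U := by
    rintro ⟨p, ⟨hp1, hp2⟩, hp⟩
    exact qq_ne h hp1 hp2 hp
  obtain ⟨Φ, hΦc, hΦ⟩ := Complex.exists_continuousOn_eqOn_exp_comp hUs hUo hqc hq0
  have hΦe : ∀ b ∈ ball (0:ℂ) 1, ∀ ζ ∈ ball (0:ℂ) 1, Complex.exp (Φ (b, ζ)) = qq β b ζ :=
    fun b hb ζ hζ => hΦ (show (b, ζ) ∈ U from ⟨hb, hζ⟩)
  have h0b : (0:ℂ) ∈ ball (0:ℂ) 1 := mem_ball_self one_pos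
  -- the diagonal
  have hTc : ContinuousOn (fun b : ℂ => Φ (b, b) - Φ (b, 0)) (ball 0 1) := by
    apply ContinuousOn.sub
    · exact hΦc.comp (by fun_prop) (fun b hb => ⟨hb, hb⟩)
    · exact hΦc.comp (by fun_prop) (fun b hb => ⟨hb, h0b⟩)
  have hTe : ∀ b ∈ ball (0:ℂ) 1, Complex.exp (Φ (b, b) - Φ (b, 0)) = 1 - b ^ 2 * deriv β b := by
    intro b hb
    rw [Complex.exp_sub, hΦe b hb b hb, hΦe b hb 0 h0b]
    simp only [qq, mul_zero, zero_mul, sub_zero, div_one, dslope_same]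
    ring
  have hTHc : ContinuousOn (fun b : ℂ => (Φ (b, b) - Φ (b, 0)) - H b) (ball 0 1) := hTc.sub hH
  have hTH : ∀ b ∈ ball (0:ℂ) 1, (Φ (b, b) - Φ (b, 0)) - H b = 0 := by
    apply eq_zero_of_exp_one (convex_ball (0:ℂ) 1).isPreconnected hTHc _ h0b
    · simp [hH0]
    · intro b hb
      rw [Complex.exp_sub, hTe b hb, hexp b hb, N, div_self]
      exact h.ne b hb
  have hFΦ : ∀ ζ ∈ ball (0:ℂ) 1, (Φ (a, ζ) - Φ (a, 0)) - F ζ = 0 := by
    apply eq_zero_of_exp_one (convex_ball (0:ℂ) 1).isPreconnected _ _ h0b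
    · simp [hF0]
    · apply ContinuousOn.sub _ hFc
      apply ContinuousOn.sub _ continuousOn_const
      exact hΦc.comp (by fun_prop) (fun ζ hζ => ⟨ha, hζ⟩)
    · intro ζ hζ
      rw [Complex.exp_sub, Complex.exp_sub, hΦe a ha ζ hζ, hΦe a ha 0 h0b, hFe ζ hζ]
      have h2 : qq β a 0 = 1 := by simp [qq]
      rw [h2, div_one, div_self (qq_ne h ha hζ)]
  have h1 := hTH a ha
  have h2 := hFΦ a ha
  linear_combination h2 - h1

/-- derivative of `log ((f z - f a) / (1/z - 1/a)) - u log (1 - a z)` -/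
noncomputable def DdU (β : ℂ → ℂ) (u : ℂ) (a : ℝ) (z : ℂ) : ℂ :=
  dphi β z / (phi β z - phi β a) - (-z⁻¹ + (z - a)⁻¹ - u * (a / (1 - a * z)))

theorem E1aU (h : Ext β) {L : ℂ → ℂ} (hL : IsLog β L) {u : ℂ} (hu : ‖u‖ = 1) {a ρ : ℝ}
    (ha : 0 < a) (haρ : a < ρ) (hρ : ρ < 1) :
    IntegrableOn (fun z : ℂ => ‖DdU β u a z‖ ^ 2) (ball 0 ρ) ∧
    ∫ z in ball (0:ℂ) ρ, ‖DdU β u a z‖ ^ 2 ≤
      2 * π * (- Real.log (1 - a ^ 2) + (conj u * L a).re) := by
  have hρ0 : 0 < ρ := ha.trans haρ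
  have ha1 : ((a:ℝ):ℂ) ∈ ball (0:ℂ) 1 := by
    rw [mem_ball, dist_zero_right, Complex.norm_real, Real.norm_of_nonneg ha.le]
    (clear * - haρ hρ; linarith only [haρ, hρ])
  have ha0 : ((a:ℝ):ℂ) ≠ 0 := by exact_mod_cast ha.ne'
  obtain ⟨F, hF0, hF, hexp⟩ := exists_log h ha1
  have hFd : DifferentiableOn ℂ F (ball 0 1) := fun ζ hζ =>
    (hF ζ hζ).differentiableAt.differentiableWithinAt
  have hLF : L a = F a := branch_eq h hL.cont hL.zero hL.exp ha1 hFd.continuousOn hF0 hexp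
  set g : ℂ → ℝ := fun z => ‖deriv F z + u * (conj (a:ℂ) / (1 - conj (a:ℂ) * z))‖ ^ 2 with hg
  have hgc : ContinuousOn g (closedBall 0 ρ) := by
    have hdc : ContinuousOn (deriv F) (closedBall 0 ρ) :=
      (hFd.deriv isOpen_ball).continuousOn.mono (closedBall_subset_ball hρ)
    apply ContinuousOn.pow
    apply ContinuousOn.norm
    apply hdc.add
    apply continuousOn_const.mul
    apply ContinuousOn.div continuousOn_const (by fun_prop)
    intro z hz h0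
    rw [mem_closedBall, dist_zero_right] at hz
    have h1 : conj (a:ℂ) * z = 1 := (sub_eq_zero.mp h0).symm
    have h2 : ‖conj (a:ℂ) * z‖ = 1 := by rw [h1, norm_one]
    rw [norm_mul, RCLike.norm_conj, Complex.norm_real, Real.norm_of_nonneg ha.le] at h2
    (clear * - haρ hρ h2 ha hz; nlinarith only [ha, haρ, hρ, hz, h2])
  have hgi : IntegrableOn g (ball 0 ρ) :=
    (hgc.integrableOn_compact (isCompact_closedBall _ _)).mono_set ball_subset_closedBall
  have hae : (fun z : ℂ => ‖DdU β u a z‖ ^ 2) =ᵐ[volume.restrict (ball (0:ℂ) ρ)] g := by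
    have h1 : ∀ᵐ z : ℂ ∂(volume.restrict (ball (0:ℂ) ρ)), z ∈ ball (0:ℂ) ρ :=
      ae_restrict_mem measurableSet_ball
    have h2 : ∀ᵐ z : ℂ ∂(volume.restrict (ball (0:ℂ) ρ)), z ≠ 0 := by
      apply ae_restrict_of_ae
      exact measure_eq_zero_iff_ae_notMem.mp (measure_singleton (μ := (volume : Measure ℂ)) 0)
    have h3 : ∀ᵐ z : ℂ ∂(volume.restrict (ball (0:ℂ) ρ)), z ≠ a := by
      apply ae_restrict_of_ae
      exact measure_eq_zero_iff_ae_notMem.mp (measure_singleton (μ := (volume : Measure ℂ)) (a:ℂ))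
    filter_upwards [h1, h2, h3] with z hz hz0 hza
    have hz1 : z ∈ ball (0:ℂ) 1 := ball_subset_ball hρ.le hz
    rw [hg, DdU, dphi_div h ha1 hz1 ha0 hz0 hza]
    simp only
    rw [(hF z hz1).deriv, Complex.conj_ofReal]
    congr 2
    ring
  refine ⟨hgi.congr hae.symm, ?_⟩
  rw [integral_congr_ae hae, hLF]
  have h4 := energy_u h hu hρ0 hρ ha1 ha0 hF hF0 hexp
  refine h4.trans (le_of_eq ?_)
  rw [Complex.norm_real, Real.norm_of_nonneg ha.le]

/-- Goluzin's inequality for `L` -/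
theorem IsLog.goluzin (h : Ext β) {L : ℂ → ℂ} (hL : IsLog β L) {z : ℂ} (hz : z ∈ ball (0:ℂ) 1) :
    ‖L z‖ ≤ - Real.log (1 - ‖z‖ ^ 2) :=
  Pool.Agent.Helper39.Area.goluzin h hL.cont hL.zero hL.exp hz

end Pool.Agent.Helper68.EKC

end

section

namespace Pool.Agent.Helper39.Area
end Pool.Agent.Helper39.Area
namespace Pool.Agent.Helper52.EK
end Pool.Agent.Helper52.EK
namespace Pool.Agent.Helper39.EK
end Pool.Agent.Helper39.EK
namespace Pool.Agent.Helper86.EK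
end Pool.Agent.Helper86.EK

/-!
The energy on the strip with a unimodular factor `u` (after helper86).
-/

set_option autoImplicit false

open Complex MeasureTheory Metric Set

open scoped Real ComplexConjugate ENNReal

namespace Pool.Agent.Helper68.EKC

open Pool.Agent.Helper39.Area Pool.Agent.Helper52.EK Pool.Agent.Helper39.EK Pool.Agent.Helper86.EK

/-- the comparison function with `u`: `2 kapU` is the derivative of
`log (1/z - 1/a) + u log (1 - a z)` -/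
noncomputable def kapU (a : ℝ) (u : ℂ) (ω : ℂ) : ℂ :=
  (Complex.exp ω / (Complex.exp ω - I * (tau a : ℂ)) - Complex.exp ω / (Complex.exp ω - I) +
    u * (Complex.exp ω / (Complex.exp ω + I * (tau a : ℂ)) -
      Complex.exp ω / (Complex.exp ω + I))) / 2

section

variable {a x₁ x₂ : ℝ} {ω : ℂ}

theorem ne_tau (ha : 0 < a) (ha1 : a < 1) (h1 : Real.log (tau a) < x₁)
    (hω : ω ∈ Rect x₁ x₂) : Complex.exp ω - I * (tau a : ℂ) ≠ 0 ∧
      Complex.exp ω + I * (tau a : ℂ) ≠ 0 := by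
  have e3 := sq_add_tau_ne ha ha1 h1 hω
  have e6 : Complex.exp ω ^ 2 + (tau a : ℂ) ^ 2 =
      (Complex.exp ω - I * (tau a : ℂ)) * (Complex.exp ω + I * (tau a : ℂ)) := by
    linear_combination ((tau a : ℂ) ^ 2) * I_sq
  exact ⟨fun h => e3 (by rw [e6, h, zero_mul]), fun h => e3 (by rw [e6, h, mul_zero])⟩

/-- the chain rule identity -/
theorem zd_DdU {β : ℂ → ℂ} {u : ℂ} (ha : 0 < a) (ha1 : a < 1) (h1 : Real.log (tau a) < x₁)
    (h2 : x₂ < 0) (hω : ω ∈ Rect x₁ x₂) :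
    zd ω * DdU β u a (zf ω) = 2 * Xf β a ω - 2 * kapU a u ω := by
  have hX : 2 * Xf β a ω = zd ω * (dphi β (zf ω) / (phi β (zf ω) - phi β (a:ℂ))) := by
    rw [Xf]
    by_cases h : phi β (zf ω) - phi β (a:ℂ) = 0
    · rw [h]; simp
    · field_simp
  have e1 := exp_ne_I h2 hω
  have e2 := exp_ne_neg_I hω
  have e5 : (1 + (a:ℂ)) ≠ 0 := by
    have : ((1 + a : ℝ) : ℂ) ≠ 0 := by exact_mod_cast (by (clear * - ha; positivity))
    simpa using this
  obtain ⟨e7, e8⟩ := ne_tau ha ha1 h1 hω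
  have ht : (tau a : ℂ) = (1 - a) / (1 + a) := by rw [tau]; push_cast; ring
  have hk : zd ω * (-(zf ω)⁻¹ + (zf ω - a)⁻¹ - u * (a / (1 - a * zf ω))) = 2 * kapU a u ω := by
    unfold kapU
    set E := Complex.exp ω with hE
    set t : ℂ := (tau a : ℂ) with htt
    have f1 : zf ω - a = (1 + a) * (I * t - E) / (I + E) := by
      rw [zf, ← hE, ht]
      field_simp
      ring
    have f2 : 1 - a * zf ω = (1 + a) * (I * t + E) / (I + E) := by
      rw [zf, ← hE, ht]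
      field_simp
      ring
    have e7' : I * t - E ≠ 0 := fun h => e7 (by linear_combination -h)
    have e8' : I * t + E ≠ 0 := fun h => e8 (by linear_combination h)
    have e10 : E + I = I + E := add_comm _ _
    have e9 : E - I ≠ 0 := fun h => e1 (by linear_combination -h)
    have e9' : E + I ≠ 0 := by rw [e10]; exact e2
    have e11 : (1 + a : ℂ) * t = 1 - a := by rw [ht]; (clear * - e5; field_simp)
    have k1 : zd ω * (-(zf ω)⁻¹ + (zf ω - a)⁻¹) = E / (E - I * t) - E / (E - I) := by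
      rw [f1, zd, zf, ← hE, e10]
      have k3 : -2 * I * E / (I + E) ^ 2 * (-((I - E) / (I + E))⁻¹ +
          ((1 + ↑a) * (I * t - E) / (I + E))⁻¹) =
          -2 * I * E / (I + E) * (-(1 / (I - E)) + 1 / ((1 + ↑a) * (I * t - E))) := by
        (clear * - e7' e5 e1 e2; field_simp)
      have k4 : E / (E - I * t) - E / (E - I) = E * (I * t - I) / ((I * t - E) * (I - E)) := by
        field_simp
        ring
      rw [k3, k4, neg_add_eq_sub, div_sub_div _ _ (mul_ne_zero e5 e7') e1, div_mul_div_comm,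
        div_eq_div_iff (mul_ne_zero e2 (mul_ne_zero (mul_ne_zero e5 e7') e1))
          (mul_ne_zero e7' e1)]
      have k5 : 1 * (I - E) - (1 + ↑a) * (I * t - E) * 1 = a * (I + E) := by
        linear_combination -I * e11
      rw [k5]
      have k6 : I * t * (1 + a) - I * (1 + a) = -2 * I * a := by
        linear_combination I * e11
      linear_combination (-(E * (I + E) * (I * t - E) * (I - E))) * k6
    have k2 : zd ω * (a / (1 - a * zf ω)) = -(E / (E + I * t) - E / (E + I)) := by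
      rw [f2, zd, ← hE, e10]
      have k3 : -2 * I * E / (I + E) ^ 2 * (↑a / ((1 + ↑a) * (I * t + E) / (I + E))) =
          -2 * I * E * a / ((I + E) * ((1 + ↑a) * (I * t + E))) := by
        (clear * - e8' e5 e2; field_simp)
      have k4 : -(E / (E + I * t) - E / (I + E)) = E * (I * t - I) / ((I * t + E) * (I + E)) := by
        have : E + I * t = I * t + E := add_comm _ _
        rw [this]
        field_simp
        ring
      rw [k3, k4, div_eq_div_iff (mul_ne_zero e2 (mul_ne_zero e5 e8')) (mul_ne_zero e8' e2)]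
      have k6 : I * t * (1 + a) - I * (1 + a) = -2 * I * a := by
        linear_combination I * e11
      linear_combination (-(E * (I + E) * (I * t + E))) * k6
    linear_combination k1 - u * k2
  rw [DdU, mul_sub, hX, hk]

end

theorem lint_ball_u {β : ℂ → ℂ} (h : Ext β) {L : ℂ → ℂ} (hL : IsLog β L) {u : ℂ} (hu : ‖u‖ = 1)
    {a : ℝ} (ha : 0 < a) (ha1 : a < 1) :
    ∫⁻ z in ball (0:ℂ) 1, ENNReal.ofReal (‖DdU β u a z‖ ^ 2) ≤
      ENNReal.ofReal (2 * π * (- Real.log (1 - a ^ 2) + (conj u * L a).re)) := by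
  set r : ℕ → ℝ := fun n => 1 - (1 - a) / (n + 2) with hrdef
  have h1a : 0 < 1 - a := by (clear * - ha1; linarith only [ha1])
  have hr : ∀ n, a < r n ∧ r n < 1 := by
    intro n
    have hn : (0:ℝ) ≤ n := Nat.cast_nonneg n
    constructor
    · have : (1 - a) / ((n:ℝ) + 2) < 1 - a := by
        rw [div_lt_iff₀ (by (clear * -; positivity))]
        (clear * - h1a; nlinarith only [h1a])
      simp only [hrdef]
      (clear * - this; linarith only [this])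
    · have : 0 < (1 - a) / ((n:ℝ) + 2) := by (clear * - ha1; positivity)
      simp only [hrdef]
      linarith
  have hmono : Monotone r := by
    intro m n hmn
    have hmn' : (m:ℝ) ≤ n := by exact_mod_cast hmn
    have hm : (0:ℝ) ≤ m := Nat.cast_nonneg m
    simp only [hrdef]
    have : (1 - a) / ((n:ℝ) + 2) ≤ (1 - a) / ((m:ℝ) + 2) := by (clear * - ha1 hmn'; gcongr)
    (clear * - this; linarith only [this])
  have hU : ball (0:ℂ) 1 = ⋃ n, ball 0 (r n) := by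
    ext z
    rw [mem_iUnion]
    constructor
    · intro hz
      rw [mem_ball, dist_zero_right] at hz
      obtain ⟨n, hn⟩ := exists_nat_gt ((1 - a) / (1 - ‖z‖))
      have hz1 : 0 < 1 - ‖z‖ := by linarith only [hz]
      refine ⟨n, ?_⟩
      rw [mem_ball, dist_zero_right]
      rw [div_lt_iff₀ hz1] at hn
      have hn0 : (0:ℝ) ≤ n := Nat.cast_nonneg n
      have : (1 - a) / ((n:ℝ) + 2) < 1 - ‖z‖ := by
        rw [div_lt_iff₀ (by (clear * -; positivity))]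
        linarith only [hn, hz1]
      simp only [hrdef]
      (clear * - this; linarith)
    · rintro ⟨n, hn⟩
      exact ball_subset_ball (hr n).2.le hn
  rw [hU, setLIntegral_iUnion_of_directed _
    (Monotone.directed_le (fun m n hmn => ball_subset_ball (hmono hmn)))]
  refine iSup_le fun n => ?_
  obtain ⟨hi, hle⟩ := E1aU h hL hu ha (hr n).1 (hr n).2
  rw [← ofReal_integral_eq_lintegral_ofReal hi (Filter.Eventually.of_forall fun _ => by (clear * -; positivity))]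
  exact ENNReal.ofReal_le_ofReal hle

/-- continuity of the integrand on the closed rectangle -/
theorem cont_F_u {β : ℂ → ℂ} {R : ℝ} (h : ExtR β R) (u : ℂ) {a : ℝ} (ha : 0 < a) (ha1 : a < 1) {x₁ x₂ : ℝ}
    (h1 : Real.log (tau a) < x₁) (h2 : x₂ < 0) :
    ContinuousOn (fun ω => ‖2 * Xf β a ω - 2 * kapU a u ω‖ ^ 2) (Rect x₁ x₂) := by
  have hR := h.one_lt
  have hzc : ContinuousOn zf (Rect x₁ x₂) := fun ω hω =>
    (hasDerivAt_zf (exp_ne_neg_I hω)).continuousAt.continuousWithinAt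
  have hmaps : MapsTo zf (Rect x₁ x₂) (ball 0 R) := by
    intro ω hω
    rw [mem_ball, dist_zero_right]
    exact lt_of_le_of_lt (norm_zf_le hω) hR
  have hβ : ContinuousOn (fun ω => β (zf ω)) (Rect x₁ x₂) := h.diff.continuousOn.comp hzc hmaps
  have hdβ : ContinuousOn (fun ω => deriv β (zf ω)) (Rect x₁ x₂) :=
    (h.diff.deriv isOpen_ball).continuousOn.comp hzc hmaps
  have hX : ContinuousOn (Xf β a) (Rect x₁ x₂) := by
    have c1 : ContinuousOn zd (Rect x₁ x₂) := by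
      apply ContinuousOn.div (by fun_prop) (by fun_prop)
      intro ω hω
      apply pow_ne_zero
      rw [add_comm]
      exact exp_ne_neg_I hω
    have c2 : ContinuousOn (fun ω => dphi β (zf ω)) (Rect x₁ x₂) := by
      apply ContinuousOn.add _ hdβ
      apply ContinuousOn.neg
      apply ContinuousOn.inv₀ (hzc.pow 2)
      intro ω hω
      exact pow_ne_zero _ (zf_ne_zero h2 hω)
    have c3 : ContinuousOn (fun ω => phi β (zf ω) - phi β (a:ℂ)) (Rect x₁ x₂) := by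
      apply ContinuousOn.sub _ continuousOn_const
      apply ContinuousOn.add _ hβ
      exact hzc.inv₀ (fun ω hω => zf_ne_zero h2 hω)
    apply (c1.mul c2).div (continuousOn_const.mul c3)
    intro ω hω h3
    have h4 : phi β (zf ω) - phi β (a:ℂ) = 0 := by simpa using h3
    have haR : ((a:ℝ):ℂ) ∈ ball (0:ℂ) R := by
      rw [mem_ball, dist_zero_right, Complex.norm_real, Real.norm_of_nonneg ha.le]
      linarith
    exact zf_ne_a ha ha1 h1 hω (h.inj _ _ (hmaps hω) haR (zf_ne_zero h2 hω)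
      (by exact_mod_cast ha.ne') (sub_eq_zero.mp h4))
  have hk : ContinuousOn (kapU a u) (Rect x₁ x₂) := by
    have d1 : ∀ ω ∈ Rect x₁ x₂, Complex.exp ω - I * (tau a : ℂ) ≠ 0 := fun ω hω =>
      (ne_tau ha ha1 h1 hω).1
    have d2 : ∀ ω ∈ Rect x₁ x₂, Complex.exp ω - I ≠ 0 := fun ω hω h' =>
      exp_ne_I h2 hω (by linear_combination -h')
    have d3 : ∀ ω ∈ Rect x₁ x₂, Complex.exp ω + I * (tau a : ℂ) ≠ 0 := fun ω hω =>
      (ne_tau ha ha1 h1 hω).2
    have d4 : ∀ ω ∈ Rect x₁ x₂, Complex.exp ω + I ≠ 0 := fun ω hω h' =>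
      exp_ne_neg_I hω (by linear_combination h')
    unfold kapU
    apply ContinuousOn.div_const
    apply ContinuousOn.add
    · exact (ContinuousOn.div (by fun_prop) (by fun_prop) d1).sub
        (ContinuousOn.div (by fun_prop) (by fun_prop) d2)
    · apply continuousOn_const.mul
      exact (ContinuousOn.div (by fun_prop) (by fun_prop) d3).sub
        (ContinuousOn.div (by fun_prop) (by fun_prop) d4)
  exact (((continuousOn_const.mul hX).sub (continuousOn_const.mul hk)).norm).pow 2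

/-- E1b: energy on the strip, with `u` -/
theorem E1bU {β : ℂ → ℂ} {R : ℝ} (h : ExtR β R) {L : ℂ → ℂ} (hL : IsLog β L) {u : ℂ}
    (hu : ‖u‖ = 1) {a : ℝ} (ha : 0 < a) (ha1 : a < 1) {x₁ x₂ : ℝ}
    (h1 : Real.log (tau a) < x₁) (h12 : x₁ ≤ x₂) (h2 : x₂ < 0) :
    II x₁ x₂ (fun ξ η => ‖2 * Xf β a (pt ξ η) - 2 * kapU a u (pt ξ η)‖ ^ 2) ≤
      2 * π * (- Real.log (1 - a ^ 2) + (conj u * L a).re) := by
  have hF := cont_F_u h u ha ha1 h1 h2
  have hE := h.toExt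
  have hB : 0 ≤ 2 * π * (- Real.log (1 - a ^ 2) + (conj u * L a).re) := by
    have haa : a < (a + 1) / 2 := by linarith
    have haa1 : (a + 1) / 2 < 1 := by linarith only [haa]
    exact (integral_nonneg fun z => by (clear * -; positivity)).trans (E1aU hE hL hu ha haa haa1).2
  rw [II_eq h12 hF]
  have hSR : Ioo x₁ x₂ ×ℂ Ioo 0 π ⊆ Rect x₁ x₂ := fun ω hω =>
    ⟨Ioo_subset_Icc_self hω.1, Ioo_subset_Icc_self hω.2⟩
  have hSm : MeasurableSet (Ioo x₁ x₂ ×ℂ Ioo 0 π) :=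
    (isOpen_Ioo.reProdIm isOpen_Ioo).measurableSet
  rw [integral_eq_lintegral_of_nonneg_ae (Filter.Eventually.of_forall fun _ => by (clear * -; positivity))
    ((hF.mono hSR).aestronglyMeasurable hSm)]
  apply ENNReal.toReal_le_of_le_ofReal hB
  have hd : ∀ ω ∈ Ioo x₁ x₂ ×ℂ Ioo 0 π, HasFDerivWithinAt zf (zd ω • (1 : ℂ →L[ℝ] ℂ))
      (Ioo x₁ x₂ ×ℂ Ioo 0 π) ω := fun ω hω =>
    (hasDerivAt_zf (exp_ne_neg_I (hSR hω))).complexToReal_fderiv.hasFDerivWithinAt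
  have hinj : InjOn zf (Ioo x₁ x₂ ×ℂ Ioo 0 π) := by
    intro ω hω ω' hω' he
    have e1 := exp_ne_neg_I (hSR hω)
    have e2 := exp_ne_neg_I (hSR hω')
    rw [zf, zf, div_eq_div_iff e1 e2] at he
    have e3 : Complex.exp ω = Complex.exp ω' := by
      have : 2 * I * (Complex.exp ω - Complex.exp ω') = 0 := by linear_combination -he
      have h4 : (2:ℂ) * I ≠ 0 := by simp
      exact sub_eq_zero.mp ((mul_eq_zero.mp this).resolve_left h4)
    obtain ⟨n, hn⟩ := Complex.exp_eq_exp_iff_exists_int.mp e3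
    have h5 := congrArg Complex.im hn
    simp only [Complex.add_im, Complex.mul_im, Complex.intCast_re, Complex.intCast_im,
      Complex.mul_re, Complex.re_ofNat, Complex.im_ofNat, Complex.ofReal_re, Complex.ofReal_im,
      Complex.I_re, Complex.I_im, mul_zero, mul_one, sub_zero, zero_mul, add_zero] at h5
    have hπ := Real.pi_pos
    have h6 := hω.2
    have h7 := hω'.2
    have h6a : 0 < ω.im := h6.1
    have h6b : ω.im < π := h6.2
    have h7a : 0 < ω'.im := h7.1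
    have h7b : ω'.im < π := h7.2
    have h8 : n = 0 := by
      have h9 : (n:ℝ) < 1 := by
        by_contra h10
        push Not at h10
        (clear * - h5 h6b h7a h7b h10; nlinarith only [h5, h6b, h7a, h7b, h10])
      have h11 : (-1:ℝ) < n := by
        by_contra h10
        push Not at h10
        nlinarith only [h5, h6a, h7a, h7b, h10]
      have h9' : n < 1 := by exact_mod_cast h9
      have h11' : -1 < n := by exact_mod_cast h11
      omega
    rw [hn, h8]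
    simp
  have himg : zf '' (Ioo x₁ x₂ ×ℂ Ioo 0 π) ⊆ ball 0 1 := by
    rintro _ ⟨ω, hω, rfl⟩
    rw [mem_ball, dist_zero_right]
    apply norm_zf_lt
    rw [Complex.exp_im]
    exact mul_pos (Real.exp_pos _) (Real.sin_pos_of_pos_of_lt_pi hω.2.1 hω.2.2)
  calc ∫⁻ ω in Ioo x₁ x₂ ×ℂ Ioo 0 π, ENNReal.ofReal (‖2 * Xf β a ω - 2 * kapU a u ω‖ ^ 2)
      = ∫⁻ ω in Ioo x₁ x₂ ×ℂ Ioo 0 π, ENNReal.ofReal |(zd ω • (1 : ℂ →L[ℝ] ℂ)).det| *
          ENNReal.ofReal (‖DdU β u a (zf ω)‖ ^ 2) := by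
        apply setLIntegral_congr_fun hSm
        intro ω hω
        simp only
        rw [det_cmul, ← ENNReal.ofReal_mul (by (clear * -; positivity)), ← mul_pow, ← norm_mul,
          zd_DdU ha ha1 h1 h2 (hSR hω)]
    _ = ∫⁻ z in zf '' (Ioo x₁ x₂ ×ℂ Ioo 0 π), ENNReal.ofReal (‖DdU β u a z‖ ^ 2) :=
        (lintegral_image_eq_lintegral_abs_det_fderiv_mul volume hSm hd hinj
          (fun z => ENNReal.ofReal (‖DdU β u a z‖ ^ 2))).symm
    _ ≤ ∫⁻ z in ball (0:ℂ) 1, ENNReal.ofReal (‖DdU β u a z‖ ^ 2) := lintegral_mono_set himg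
    _ ≤ _ := lint_ball_u hE hL hu ha ha1

end Pool.Agent.Helper68.EKC

end

section

namespace Pool.Agent.Helper39.Area
end Pool.Agent.Helper39.Area
namespace Pool.Agent.Helper52.EK
end Pool.Agent.Helper52.EK
namespace Pool.Agent.Helper70.EK
end Pool.Agent.Helper70.EK

set_option autoImplicit false

open Complex MeasureTheory Metric Set

open scoped Real ComplexConjugate

namespace Pool.Agent.Helper68.EKC

open Pool.Agent.Helper39.Area Pool.Agent.Helper52.EK Pool.Agent.Helper70.EK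

theorem II_le3' {F₁ F₂ F₃ : ℝ → ℝ → ℝ} {x₁ x₂ p q : ℝ} (h : x₁ ≤ x₂)
    (c₁ : ContinuousOn (fun v : ℝ × ℝ => F₁ v.1 v.2) (Icc x₁ x₂ ×ˢ Icc 0 π))
    (c₂ : ContinuousOn (fun v : ℝ × ℝ => F₂ v.1 v.2) (Icc x₁ x₂ ×ˢ Icc 0 π))
    (c₃ : ContinuousOn (fun v : ℝ × ℝ => F₃ v.1 v.2) (Icc x₁ x₂ ×ˢ Icc 0 π))
    (hle : ∀ ξ ∈ Icc x₁ x₂, ∀ η : ℝ, F₁ ξ η ≤ p * F₂ ξ η + q * F₃ ξ η) :
    II x₁ x₂ F₁ ≤ p * II x₁ x₂ F₂ + q * II x₁ x₂ F₃ := by
  have i₁ := Pool.Agent.Helper83.EK.integrableOn_rect c₁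
  have i₂ := Pool.Agent.Helper83.EK.integrableOn_rect c₂
  have i₃ := Pool.Agent.Helper83.EK.integrableOn_rect c₃
  rw [II_eq h i₁, II_eq h i₂, II_eq h i₃, ← integral_const_mul, ← integral_const_mul,
    ← integral_add (i₂.const_mul p) (i₃.const_mul q)]
  exact setIntegral_mono_on i₁ ((i₂.const_mul p).add (i₃.const_mul q))
    (measurableSet_Ioc.prod measurableSet_Ioo)
    (fun v hv => hle v.1 (Ioc_subset_Icc_self hv.1) v.2)

theorem norm_exp_pt (ξ η : ℝ) : ‖Complex.exp (pt ξ η)‖ = Real.exp ξ := by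
  rw [Complex.norm_exp]
  simp [pt]

theorem kapU_contOn {a x₁ x₂ : ℝ} (u : ℂ) (ha : 0 < a) (ha1 : a < 1)
    (h1 : Real.log (tau a) < x₁) (h2 : x₂ < 0) :
    ContinuousOn (fun v : ℝ × ℝ => kapU a u (pt v.1 v.2)) (Icc x₁ x₂ ×ˢ Icc 0 π) := by
  have hm := Pool.Agent.Helper83.EK.pt_mapsTo x₁ x₂
  have hE : Continuous (fun v : ℝ × ℝ => Complex.exp (pt v.1 v.2)) :=
    Complex.continuous_exp.comp continuous_pt
  have hcE := hE.continuousOn (s := Icc x₁ x₂ ×ˢ Icc 0 π)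
  unfold kapU
  apply ContinuousOn.div_const
  apply ContinuousOn.add
  · refine (hcE.div (hcE.sub continuousOn_const) ?_).sub
      (hcE.div (hcE.sub continuousOn_const) ?_)
    · intro v hv
      exact (ne_tau ha ha1 h1 (hm hv)).1
    · intro v hv h'
      exact Pool.Agent.Helper86.EK.exp_ne_I h2 (hm hv) (by linear_combination -h')
  · apply continuousOn_const.mul
    refine (hcE.div (hcE.add continuousOn_const) ?_).sub
      (hcE.div (hcE.add continuousOn_const) ?_)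
    · intro v hv
      exact (ne_tau ha ha1 h1 (hm hv)).2
    · intro v hv h'
      exact Pool.Agent.Helper86.EK.exp_ne_neg_I (hm hv) (by linear_combination h')

theorem exp_neg_one_le : Real.exp (-1) ≤ 1 / 2 := by
  rw [Real.exp_neg, ← one_div]
  apply one_div_le_one_div_of_le two_pos
  have := Real.add_one_le_exp (1:ℝ)
  (clear * - this; linarith)

theorem kapU_err {a : ℝ} {u : ℂ} (hu : ‖u‖ = 1) (ha : 0 < a) (ha1 : a < 1) {ξ : ℝ}
    (h1 : Real.log (tau a) + 1 ≤ ξ) (h2 : ξ ≤ -1) (η : ℝ) :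
    ‖kapU a u (pt ξ η) - (1 + u) / 2‖ ^ 2 ≤
      8 * (tau a ^ 2 * Real.exp (-(2 * ξ))) + 8 * Real.exp (2 * ξ) := by
  have ht := Pool.Agent.Helper83.EK.tau_pos ha ha1
  set E := Complex.exp (pt ξ η) with hE
  have hn : ‖E‖ = Real.exp ξ := norm_exp_pt ξ η
  set x := Real.exp ξ with hx
  have hx0 : 0 < x := Real.exp_pos _
  have hx2 : x ≤ 1 / 2 := (Real.exp_le_exp.mpr h2).trans exp_neg_one_le
  have htx : tau a / x ≤ 1 / 2 := by
    have h3 : tau a / x = Real.exp (Real.log (tau a) - ξ) := by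
      rw [Real.exp_sub, Real.exp_log ht]
    rw [h3]
    exact (Real.exp_le_exp.mpr (by linarith only [h1])).trans exp_neg_one_le
  have htx' : tau a ≤ x / 2 := by
    rw [div_le_iff₀ hx0] at htx
    linarith
  set t := tau a with htdef
  have hIt : ‖I * (t : ℂ)‖ = t := by
    rw [norm_mul, norm_I, one_mul, Complex.norm_real, Real.norm_of_nonneg ht.le]
  have n1 : x / 2 ≤ ‖E - I * (t:ℂ)‖ := by
    have := norm_sub_norm_le E (I * (t:ℂ))
    rw [hn, hIt] at this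
    (clear * - htx' this; linarith only [htx', this])
  have n2 : x / 2 ≤ ‖E + I * (t:ℂ)‖ := by
    have := norm_sub_norm_le E (-(I * (t:ℂ)))
    rw [hn, norm_neg, hIt, sub_neg_eq_add] at this
    (clear * - htx' this; linarith only [htx', this])
  have n3 : 1 / 2 ≤ ‖E - I‖ := by
    have := norm_sub_norm_le I E
    rw [hn, norm_I, norm_sub_rev] at this
    (clear * - hx2 this; linarith only [hx2, this])
  have n4 : 1 / 2 ≤ ‖E + I‖ := by
    have := norm_sub_norm_le I (-E)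
    rw [norm_neg, hn, norm_I, sub_neg_eq_add, add_comm] at this
    linarith only [hx2, this]
  have z1 : E - I * (t:ℂ) ≠ 0 := norm_pos_iff.mp (by (clear * - ht htx' n1; linarith only [ht, htx', n1]))
  have z2 : E + I * (t:ℂ) ≠ 0 := norm_pos_iff.mp (by linarith only [ht, htx', n2])
  have z3 : E - I ≠ 0 := norm_pos_iff.mp (by linarith only [n3])
  have z4 : E + I ≠ 0 := norm_pos_iff.mp (by linarith only [n4])
  have key : kapU a u (pt ξ η) - (1 + u) / 2 =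
      (I * t / (E - I * t) - E / (E - I) + u * (-(I * t / (E + I * t)) - E / (E + I))) / 2 := by
    have k1 : E / (E - I * (t:ℂ)) = 1 + I * t / (E - I * t) := by
      field_simp
      ring
    have k2 : E / (E + I * (t:ℂ)) = 1 - I * t / (E + I * t) := by
      field_simp
      ring
    rw [kapU, ← hE, ← htdef, k1, k2]
    ring
  have b1 : ‖I * (t:ℂ) / (E - I * t)‖ ≤ 2 * (t / x) := by
    rw [norm_div, hIt, div_le_iff₀ (by linarith only [ht, htx', n1])]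
    calc t = 2 * (t / x) * (x / 2) := by (clear * - hx0 ht; field_simp)
      _ ≤ _ := mul_le_mul_of_nonneg_left n1 (by (clear * - ht; positivity))
  have b2 : ‖I * (t:ℂ) / (E + I * t)‖ ≤ 2 * (t / x) := by
    rw [norm_div, hIt, div_le_iff₀ (by (clear * - hx0 n2; linarith only [hx0, n2]))]
    calc t = 2 * (t / x) * (x / 2) := by (clear * - hx0 ht; field_simp)
      _ ≤ _ := mul_le_mul_of_nonneg_left n2 (by positivity)
  have b3 : ‖E / (E - I)‖ ≤ 2 * x := by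
    rw [norm_div, hn, div_le_iff₀ (by linarith only [n3])]
    (clear * - hx0 n3; nlinarith only [hx0, n3])
  have b4 : ‖E / (E + I)‖ ≤ 2 * x := by
    rw [norm_div, hn, div_le_iff₀ (by linarith only [n4])]
    nlinarith only [hx0, n4]
  have hb : ‖kapU a u (pt ξ η) - (1 + u) / 2‖ ≤ 2 * (t / x + x) := by
    rw [key, norm_div]
    have h3 : ‖(2:ℂ)‖ = 2 := by simp
    rw [h3, div_le_iff₀ two_pos]
    refine (norm_add_le _ _).trans ?_
    rw [norm_mul, hu, one_mul]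
    have h4 := norm_sub_le (I * (t:ℂ) / (E - I * t)) (E / (E - I))
    have h5 := norm_sub_le (-(I * (t:ℂ) / (E + I * t))) (E / (E + I))
    rw [norm_neg] at h5
    linarith only [b1, b2, b3, b4, h4, h5]
  have h6 : ‖kapU a u (pt ξ η) - (1 + u) / 2‖ ^ 2 ≤ (2 * (t / x + x)) ^ 2 :=
    pow_le_pow_left₀ (norm_nonneg _) hb 2
  have h7 : Real.exp (-(2 * ξ)) = 1 / x ^ 2 := by
    rw [Real.exp_neg, hx, ← Real.exp_nat_mul]
    push_cast
    rw [one_div]
  have h8 : Real.exp (2 * ξ) = x ^ 2 := by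
    rw [hx, ← Real.exp_nat_mul]
    push_cast
    rfl
  rw [h7, h8]
  refine h6.trans ?_
  have h9 : t ^ 2 * (1 / x ^ 2) = (t / x) ^ 2 := by ring
  rw [h9]
  (clear * -; linarith only [sq_nonneg (t / x - x)])

theorem II_xi (f : ℝ → ℝ) (x₁ x₂ : ℝ) :
    II x₁ x₂ (fun ξ _ => f ξ) = π * ∫ ξ in x₁..x₂, f ξ := by
  unfold II
  simp only [intervalIntegral.integral_const, sub_zero, smul_eq_mul]
  rw [intervalIntegral.integral_const_mul]

/-- E1d with `u` -/
theorem E1dU {u : ℂ} (hu : ‖u‖ = 1) : ∃ C : ℝ, ∀ a : ℝ, 0 < a → a < 1 → ∀ x₁ x₂ : ℝ,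
    Real.log (tau a) + 1 ≤ x₁ → x₁ ≤ x₂ → x₂ ≤ -1 →
    II x₁ x₂ (fun ξ η => ‖kapU a u (pt ξ η) - (1 + u) / 2‖ ^ 2) ≤ C := by
  refine ⟨8 * (π * (1 / 2)) + 8 * (π * (1 / 2)), ?_⟩
  intro a ha ha1 x₁ x₂ h1 h12 h2
  have ht := Pool.Agent.Helper83.EK.tau_pos ha ha1
  have hx₁ : Real.log (tau a) < x₁ := by (clear * - ha ha1 h1; linarith)
  have c1 : ContinuousOn (fun v : ℝ × ℝ => ‖kapU a u (pt v.1 v.2) - (1 + u) / 2‖ ^ 2)
      (Icc x₁ x₂ ×ˢ Icc 0 π) :=
    ((kapU_contOn u ha ha1 hx₁ (by linarith)).sub continuousOn_const).norm.pow 2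
  have hle := II_le3' (F₁ := fun ξ η => ‖kapU a u (pt ξ η) - (1 + u) / 2‖ ^ 2)
    (F₂ := fun ξ _ => tau a ^ 2 * Real.exp (-(2 * ξ))) (F₃ := fun ξ _ => Real.exp (2 * ξ))
    (p := 8) (q := 8) h12 c1 (by fun_prop) (by fun_prop)
    (fun ξ hξ η => kapU_err hu ha ha1 (h1.trans hξ.1) (hξ.2.trans h2) η)
  refine hle.trans ?_
  rw [II_xi (fun ξ => tau a ^ 2 * Real.exp (-(2 * ξ))), II_xi (fun ξ => Real.exp (2 * ξ))]
  have hπ := Real.pi_pos
  have i1 : (∫ ξ in x₁..x₂, tau a ^ 2 * Real.exp (-(2 * ξ))) ≤ 1 / 2 := by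
    have hd : ∀ ξ ∈ uIcc x₁ x₂, HasDerivAt (fun ξ => -(tau a ^ 2 * Real.exp (-(2 * ξ))) / 2)
        (tau a ^ 2 * Real.exp (-(2 * ξ))) ξ := by
      intro ξ _
      have h3 : HasDerivAt (fun ξ : ℝ => -(2 * ξ)) (-2) ξ := by
        have h := (hasDerivAt_id ξ).const_mul (2:ℝ)
        rw [mul_one] at h
        exact h.neg
      have h4 := ((h3.exp.const_mul (tau a ^ 2)).neg).div_const 2
      refine h4.congr_deriv ?_
      ring
    rw [intervalIntegral.integral_eq_sub_of_hasDerivAt hd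
      (by apply Continuous.intervalIntegrable; fun_prop)]
    have h5 : tau a ^ 2 * Real.exp (-(2 * x₁)) ≤ 1 := by
      have h6 : tau a ^ 2 * Real.exp (-(2 * x₁)) = Real.exp (2 * (Real.log (tau a) - x₁)) := by
        have h7 : tau a ^ 2 = Real.exp (2 * Real.log (tau a)) := by
          rw [mul_comm, Real.exp_mul, Real.exp_log ht, Real.rpow_two]
        rw [h7, ← Real.exp_add]
        congr 1
        ring
      rw [h6, Real.exp_le_one_iff]
      linarith only [hx₁]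
    have h8 : 0 ≤ tau a ^ 2 * Real.exp (-(2 * x₂)) := by positivity
    linarith only [h5, h8]
  have i2 : (∫ ξ in x₁..x₂, Real.exp (2 * ξ)) ≤ 1 / 2 := by
    have hd : ∀ ξ ∈ uIcc x₁ x₂, HasDerivAt (fun ξ => Real.exp (2 * ξ) / 2)
        (Real.exp (2 * ξ)) ξ := by
      intro ξ _
      have h3 : HasDerivAt (fun ξ : ℝ => 2 * ξ) 2 ξ := by
        simpa using (hasDerivAt_id ξ).const_mul (2:ℝ)
      have h4 := h3.exp.div_const 2
      refine h4.congr_deriv ?_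
      ring
    rw [intervalIntegral.integral_eq_sub_of_hasDerivAt hd
      (by apply Continuous.intervalIntegrable; fun_prop)]
    have h5 : Real.exp (2 * x₂) ≤ 1 := by
      rw [Real.exp_le_one_iff]
      (clear * - h2; linarith only [h2])
    have h8 := Real.exp_pos (2 * x₁)
    linarith only [h5, h8]
  have j1 := mul_le_mul_of_nonneg_left i1 hπ.le
  have j2 := mul_le_mul_of_nonneg_left i2 hπ.le
  linarith only [j1, j2]

end Pool.Agent.Helper68.EKC

end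

section

namespace Pool.Agent.Helper39.Area
end Pool.Agent.Helper39.Area
namespace Pool.Agent.Helper52.EK
end Pool.Agent.Helper52.EK
namespace Pool.Agent.Helper70.EK
end Pool.Agent.Helper70.EK
namespace Pool.Agent.Helper83.EK
end Pool.Agent.Helper83.EK

set_option autoImplicit false

open Complex MeasureTheory Metric Set

open scoped Real ComplexConjugate

namespace Pool.Agent.Helper68.EKC

open Pool.Agent.Helper39.Area Pool.Agent.Helper52.EK Pool.Agent.Helper70.EK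

open Pool.Agent.Helper83.EK (tau_far II_nonneg pt_mapsTo II_le3)

/-- the integrated certificate around the constant solution `al` -/
def StripA (κ₂ : ℝ) (al : ℂ) (T : ℂ → ℂ → ℝ → ℝ → ℝ) : Prop :=
  ∃ C₁ : ℝ, ∀ (X : ℂ → ℂ) (x₁ x₂ l : ℝ), 1 ≤ l → x₁ + l ≤ x₂ - l → NiceX X x₁ x₂ →
    II (x₁ + l) (x₂ - l) (fun ξ η => T (X (pt ξ η)) (deriv X (pt ξ η)) (Real.sin η) (Real.cos η)) ≤
      (κ₂ + C₁ / l) * II x₁ x₂ (fun ξ η => ‖X (pt ξ η) - al‖ ^ 2)

/-- rescaling `X = al * Xi` -/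
theorem strip_scale {κ : ℝ} {al : ℂ} (hal : al ≠ 0) {T : ℂ → ℂ → ℝ → ℝ → ℝ}
    (h : StripIneq κ (fun X Y s c => T (al * X) (al * Y) s c)) :
    StripA (κ / ‖al‖ ^ 2) al T := by
  obtain ⟨C, hC⟩ := h
  refine ⟨C / ‖al‖ ^ 2, fun X x₁ x₂ l hl hx hX => ?_⟩
  have hn : 0 < ‖al‖ := norm_pos_iff.mpr hal
  set X' : ℂ → ℂ := fun ω => al⁻¹ * X ω with hX'
  have hN : NiceX X' x₁ x₂ := by
    refine ⟨fun ω hω => analyticAt_const.mul (hX.an ω hω), fun ω hω => ?_⟩
    exact mul_ne_zero (inv_ne_zero hal) (hX.ne ω hω)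
  have h1 := hC X' x₁ x₂ l hl hx hN
  have e1 : ∀ ω, al * X' ω = X ω := fun ω => by
    simp only [hX']
    rw [mul_inv_cancel_left₀ hal]
  have e2 : ∀ ω, al * deriv X' ω = deriv X ω := fun ω => by
    simp only [hX']
    rw [deriv_const_mul_field, mul_inv_cancel_left₀ hal]
  have e3 : ∀ ω, ‖X' ω - 1‖ ^ 2 = (‖al‖ ^ 2)⁻¹ * ‖X ω - al‖ ^ 2 := fun ω => by
    have : X' ω - 1 = al⁻¹ * (X ω - al) := by
      simp only [hX']
      rw [mul_sub, inv_mul_cancel₀ hal]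
    rw [this, norm_mul, norm_inv, mul_pow, inv_pow]
  simp only [e1, e2, e3] at h1
  refine h1.trans (le_of_eq ?_)
  have e4 : II x₁ x₂ (fun ξ η => (‖al‖ ^ 2)⁻¹ * ‖X (pt ξ η) - al‖ ^ 2) =
      (‖al‖ ^ 2)⁻¹ * II x₁ x₂ (fun ξ η => ‖X (pt ξ η) - al‖ ^ 2) := by
    unfold II
    simp only [intervalIntegral.integral_const_mul]
  rw [e4]
  (clear * - hl hal; field_simp)

theorem K_one_U {κ₂ κ L₀ : ℝ} {G : ℂ → ℂ} (hG : GLip G L₀) {u : ℂ} (hu : ‖u‖ = 1)
    (hS : StripA κ₂ ((1 + u) / 2) (TG G)) (h0 : 0 ≤ κ₂) (hκ : κ₂ < 2 * κ) :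
    ∃ C a₀ : ℝ, a₀ < 1 ∧ ∀ (β L : ℂ → ℂ) (R a : ℝ), ExtR β R → IsLog β L → a₀ < a → a < 1 →
      Kf (wf G β) 1 (-1) (Real.log a) ≤
        κ * (- Real.log (1 - a ^ 2) + (conj u * L a).re) + C := by
  have E3 := Pool.Agent.Helper70.EK.E3_of_b Pool.Agent.Helper84.EK.E3b hG
  obtain ⟨C₁, hC₁⟩ := hS
  obtain ⟨Cd, hCd⟩ := E1dU hu
  -- the parameters `l` and `h`
  set δ : ℝ := 2 * κ - κ₂ with hδ
  have hδ0 : 0 < δ := by (clear * - hκ; linarith only [hκ])
  set D : ℝ := max C₁ 0 with hD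
  have hD0 : 0 ≤ D := le_max_right _ _
  have hDC : C₁ ≤ D := le_max_left _ _
  set l : ℝ := 1 + 2 * D / δ with hl
  have hl1 : 1 ≤ l := by
    have : 0 ≤ 2 * D / δ := by (clear * - hκ; positivity)
    linarith only [this]
  have hl0 : 0 < l := by linarith only [hl1]
  have hDl : D / l ≤ δ / 2 := by
    rw [div_le_div_iff₀ hl0 two_pos]
    have : D * 2 = δ * (2 * D / δ) := by field_simp
    rw [this]
    apply mul_le_mul_of_nonneg_left _ hδ0.le
    (clear * -; linarith only [])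
  set k : ℝ := κ₂ + D / l with hk
  have hk0 : 0 ≤ k := by
    have : 0 ≤ D / l := by (clear * - hκ; positivity)
    linarith only [h0, this]
  have hk1 : k ≤ κ₂ + δ / 2 := by (clear * - hDl; linarith)
  have hk2 : k < 2 * κ := by linarith only [hδ0, hk1]
  set g : ℝ := (2 * κ - k) / (k + 1) with hg
  have hg0 : 0 < g := div_pos (by linarith only [hk2]) (by linarith only [hk0])
  have hkg : k * (1 + g) ≤ 2 * κ := by
    have h1 : g * (k + 1) = 2 * κ - k := by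
      rw [hg]
      (clear * - hk0; field_simp)
    (clear * - hg0 h1; linarith only [hg0, h1])
  set A : ℝ := 1 + l with hA
  have hA1 : 1 ≤ A := by linarith only [hl0]
  obtain ⟨C₃, hC₃⟩ := E3 A hA1
  refine ⟨C₃ + π⁻¹ * (k * ((1 + 1 / g) * Cd)), max (Real.exp (-1)) (1 - Real.exp (-2 * A)), ?_, ?_⟩
  · apply max_lt
    · rw [← Real.exp_zero]
      exact Real.exp_lt_exp.mpr (by norm_num)
    · linarith only [Real.exp_pos (-2 * A)]
  intro β L R a hβ hL ha ha1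
  have hae : Real.exp (-1) < a := lt_of_le_of_lt (le_max_left _ _) ha
  have ha0 : 0 < a := (Real.exp_pos _).trans hae
  have hfar := tau_far (A := A) (lt_of_le_of_lt (le_max_right _ _) ha) ha0 ha1
  have hK := hC₃ β R a hβ hae ha1 hfar
  set x₁ : ℝ := Real.log (tau a) + 1 with hx₁
  have e1 : Real.log (tau a) + A = x₁ + l := by rw [hA, hx₁]; ring
  have e2 : -A = -1 - l := by rw [hA]; ring
  rw [e1, e2] at hK hfar
  have hx12 : x₁ ≤ -1 := by linarith only [hA1, hfar]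
  have hxt : Real.log (tau a) < x₁ := by linarith only []
  have hX : NiceX (Xf β a) x₁ (-1) := Pool.Agent.Helper67.EK.E1c hβ ha0 ha1 hxt (by norm_num)
  have hst := hC₁ (Xf β a) x₁ (-1) l hl1 hfar hX
  have hb := E1bU hβ hL hu ha0 ha1 hxt hx12 (by norm_num)
  have hd := hCd a ha0 ha1 x₁ (-1) le_rfl hx12 le_rfl
  set Λ : ℝ := - Real.log (1 - a ^ 2) + (conj u * L a).re with hΛ
  -- continuity
  have cX : ContinuousOn (fun v : ℝ × ℝ => Xf β a (pt v.1 v.2)) (Icc x₁ (-1) ×ˢ Icc 0 π) :=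
    hX.an.continuousOn.comp continuous_pt.continuousOn (pt_mapsTo _ _)
  have cK : ContinuousOn (fun v : ℝ × ℝ => kapU a u (pt v.1 v.2)) (Icc x₁ (-1) ×ˢ Icc 0 π) :=
    kapU_contOn u ha0 ha1 hxt (by norm_num)
  have c1 : ContinuousOn (fun v : ℝ × ℝ => ‖Xf β a (pt v.1 v.2) - (1 + u) / 2‖ ^ 2)
      (Icc x₁ (-1) ×ˢ Icc 0 π) := (cX.sub continuousOn_const).norm.pow 2
  have c2 : ContinuousOn (fun v : ℝ × ℝ => ‖2 * Xf β a (pt v.1 v.2) - 2 * kapU a u (pt v.1 v.2)‖ ^ 2)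
      (Icc x₁ (-1) ×ˢ Icc 0 π) :=
    ((continuousOn_const.mul cX).sub (continuousOn_const.mul cK)).norm.pow 2
  have c3 : ContinuousOn (fun v : ℝ × ℝ => ‖kapU a u (pt v.1 v.2) - (1 + u) / 2‖ ^ 2)
      (Icc x₁ (-1) ×ˢ Icc 0 π) := (cK.sub continuousOn_const).norm.pow 2
  have hE := II_le3 (F₁ := fun ξ η => ‖Xf β a (pt ξ η) - (1 + u) / 2‖ ^ 2)
    (F₂ := fun ξ η => ‖2 * Xf β a (pt ξ η) - 2 * kapU a u (pt ξ η)‖ ^ 2)
    (F₃ := fun ξ η => ‖kapU a u (pt ξ η) - (1 + u) / 2‖ ^ 2) (p := (1 + g) / 4) (q := 1 + 1 / g)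
    hx12 c1 c2 c3 (by
      intro ξ η
      have h1 : Xf β a (pt ξ η) - (1 + u) / 2 = (2 * Xf β a (pt ξ η) - 2 * kapU a u (pt ξ η)) / 2 +
        (kapU a u (pt ξ η) - (1 + u) / 2) := by ring
      have h2 : ‖Xf β a (pt ξ η) - (1 + u) / 2‖ ≤ ‖2 * Xf β a (pt ξ η) - 2 * kapU a u (pt ξ η)‖ / 2 +
          ‖kapU a u (pt ξ η) - (1 + u) / 2‖ := by
        rw [h1]
        refine (norm_add_le _ _).trans ?_
        rw [norm_div]
        simp
      have h3 := norm_nonneg (Xf β a (pt ξ η) - (1 + u) / 2)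
      have h4 := norm_nonneg (2 * Xf β a (pt ξ η) - 2 * kapU a u (pt ξ η))
      have h5 := norm_nonneg (kapU a u (pt ξ η) - (1 + u) / 2)
      generalize ‖Xf β a (pt ξ η) - (1 + u) / 2‖ = u₁ at *
      generalize ‖2 * Xf β a (pt ξ η) - 2 * kapU a u (pt ξ η)‖ = v at *
      generalize ‖kapU a u (pt ξ η) - (1 + u) / 2‖ = w at *
      have h6 : u₁ ^ 2 ≤ (v / 2 + w) ^ 2 := by nlinarith only [h3, h2]
      have h7 : (v / 2 + w) ^ 2 ≤ (1 + g) / 4 * v ^ 2 + (1 + 1 / g) * w ^ 2 := by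
        have h8 : (1 + g) / 4 * v ^ 2 + (1 + 1 / g) * w ^ 2 - (v / 2 + w) ^ 2 =
            (g * v / 2 - w) ^ 2 / g := by
          field_simp
          ring
        have h9 : 0 ≤ (g * v / 2 - w) ^ 2 / g := by (clear * - hk2 h0 hκ; positivity)
        (clear * - h8 h9; linarith only [h8, h9])
      exact h6.trans h7)
  -- assemble
  have hEn : 0 ≤ II x₁ (-1) (fun ξ η => ‖Xf β a (pt ξ η) - (1 + u) / 2‖ ^ 2) :=
    II_nonneg hx12 (fun ξ η => by (clear * -; positivity))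
  set E : ℝ := II x₁ (-1) (fun ξ η => ‖Xf β a (pt ξ η) - (1 + u) / 2‖ ^ 2) with hEdef
  have hπ : 0 < π := Real.pi_pos
  have hπi : 0 < π⁻¹ := inv_pos.mpr hπ
  have hE2 : E ≤ (1 + g) / 4 * (2 * π * Λ) + (1 + 1 / g) * Cd := by
    have h1 : 0 < (1 + g) / 4 := by (clear * - hk2 h0 hκ; positivity)
    have h2 : 0 < 1 + 1 / g := by (clear * - hk2 h0 hκ; positivity)
    have h3 := mul_le_mul_of_nonneg_left hb h1.le
    have h4 := mul_le_mul_of_nonneg_left hd h2.le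
    linarith only [hE, h3, h4]
  have hT : II (x₁ + l) (-1 - l) (fun ξ η => TG G (Xf β a (pt ξ η)) (deriv (Xf β a) (pt ξ η))
      (Real.sin η) (Real.cos η)) ≤ k * E := by
    refine hst.trans ?_
    apply mul_le_mul_of_nonneg_right _ hEn
    rw [hk]
    have : C₁ / l ≤ D / l := div_le_div_of_nonneg_right hDC hl0.le
    linarith only [this]
  have hΛ0 : 0 ≤ Λ := by
    have h1 : ‖(a : ℂ)‖ = a := by
      rw [Complex.norm_real, Real.norm_eq_abs, abs_of_pos ha0]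
    have h2 : (a : ℂ) ∈ ball (0:ℂ) 1 := by
      rw [mem_ball_zero_iff, h1]
      exact ha1
    have h3 := hL.goluzin hβ.toExt h2
    rw [h1] at h3
    have h4 : -‖L a‖ ≤ (conj u * L a).re := by
      have h5 := Complex.abs_re_le_norm (conj u * L a)
      rw [norm_mul, RCLike.norm_conj, hu, one_mul] at h5
      exact (neg_le_neg h5).trans (neg_abs_le _)
    rw [hΛ]
    linarith only [h3, h4]
  have h1 : k * E ≤ k * ((1 + g) / 4 * (2 * π * Λ) + (1 + 1 / g) * Cd) :=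
    mul_le_mul_of_nonneg_left hE2 hk0
  have h2 : π⁻¹ * II (x₁ + l) (-1 - l) (fun ξ η => TG G (Xf β a (pt ξ η))
      (deriv (Xf β a) (pt ξ η)) (Real.sin η) (Real.cos η)) ≤
      π⁻¹ * (k * ((1 + g) / 4 * (2 * π * Λ) + (1 + 1 / g) * Cd)) :=
    mul_le_mul_of_nonneg_left (hT.trans h1) hπi.le
  have h3 : π⁻¹ * (k * ((1 + g) / 4 * (2 * π * Λ) + (1 + 1 / g) * Cd)) =
      k * (1 + g) / 2 * Λ + π⁻¹ * (k * ((1 + 1 / g) * Cd)) := by
    field_simp
    ring
  have h4 : k * (1 + g) / 2 * Λ ≤ κ * Λ := by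
    apply mul_le_mul_of_nonneg_right _ hΛ0
    linarith only [hkg]
  linarith only [hK, h2, h3, h4]

end Pool.Agent.Helper68.EKC

end

section

namespace Pool.Agent.Helper39.Area
end Pool.Agent.Helper39.Area
namespace Pool.Agent.Helper52.EK
end Pool.Agent.Helper52.EK
namespace Pool.Agent.Helper52.CK
end Pool.Agent.Helper52.CK
namespace Pool.Agent.Helper70.EK
end Pool.Agent.Helper70.EK

set_option autoImplicit false

open Complex MeasureTheory Metric Set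

open scoped Real ComplexConjugate

namespace Pool.Agent.Helper69.CK

open Pool.Agent.Helper39.Area Pool.Agent.Helper52.EK Pool.Agent.Helper52.CK

open Pool.Agent.Helper70.EK (low norm_ph ph_sub_one err_le norm_e0)

/-- the term of the multiplier in the strip, complex constant -/
noncomputable def MtC (M : ℂ → ℂ) (q : ℂ) (X : ℂ → ℂ) (ξ η : ℝ) : ℝ :=
  (M (mX (X (pt ξ η)) (deriv X (pt ξ η)) (Real.sin η) (Real.cos η)) *
    e0 (Real.sin η) (Real.cos η) * (X (pt ξ η) ^ 2 - q)).re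

/-- `X² - q` in the coordinates of the disc -/
theorem X_sqC {β : ℂ → ℂ} {a : ℝ} {q : ℂ} {ω : ℂ} (h : I + Complex.exp ω ≠ 0) :
    Xf β a ω ^ 2 - q = zd ω ^ 2 * (kA β a (zf ω) - q * omp 0 (zf ω) ^ 2) := by
  have hzd : zd ω ≠ 0 := by
    unfold zd
    refine div_ne_zero (mul_ne_zero (mul_ne_zero (by norm_num) Complex.I_ne_zero)
      (Complex.exp_ne_zero _)) (pow_ne_zero 2 (by rwa [add_comm]))
  have e1 : zd ω ^ 2 * omp 0 (zf ω) ^ 2 = 1 := by
    have e2 := zd_zf h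
    have h1 : (1 - zf ω ^ 2) ≠ 0 := by
      intro h0
      rw [h0] at e2
      simp at e2
      exact hzd e2
    rw [omp_zero, e2]
    (clear * - h1; field_simp)
  have e3 : Xf β a ω ^ 2 = zd ω ^ 2 * kA β a (zf ω) := by
    unfold Xf kA
    ring
  rw [e3, mul_sub, ← mul_assoc, mul_comm (zd ω ^ 2) q, mul_assoc, e1, mul_one]

theorem norm_sq_subC (x q : ℂ) :
    ‖x ^ 2 - q‖ ≤ (2 + ‖1 - q‖) * (1 + ‖x - 1‖ ^ 2) := by
  have e : x ^ 2 - q = (x - 1) ^ 2 + 2 * (x - 1) + (1 - q) := by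
    ring
  rw [e]
  refine (norm_add_le _ _).trans ((add_le_add (norm_add_le _ _) le_rfl).trans ?_)
  rw [norm_pow, norm_mul]
  have : ‖(2:ℂ)‖ = 2 := by simp
  rw [this]
  (clear * -; nlinarith only [mul_nonneg (norm_nonneg (1 - q)) (sq_nonneg ‖x - 1‖)])

/-- the comparison of the integrands -/
theorem cmpC {M M' : ℂ → ℂ} {Mb L ε : ℝ} (hM : MOk M M' Mb L ε) (q : ℂ) {β : ℂ → ℂ} (h : Ext β)
    {a : ℝ} (ha : 0 < a) (ha1 : a < 1) {ξ η : ℝ} (h0 : 0 < η) (h1 : η < π)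
    (hξ1 : Real.log (tau a) < ξ) (hξ : 8 * Real.exp ξ ≤ 1) (hε : 184 * Real.exp ξ ≤ ε) :
    |MtC M q (Xf β a) ξ η - ‖zd (pt ξ η)‖ ^ 2 * (Mh M' β (zf (pt ξ η)) *
      (kA β a (zf (pt ξ η)) - q * omp 0 (zf (pt ξ η)) ^ 2)).re| ≤
      (164 * L + 8 * Mb) * (2 + ‖1 - q‖) * (Real.exp ξ * (1 + ‖Xf β a (pt ξ η) - 1‖ ^ 2)) := by
  have hx1 : ξ ≤ -1 := by
    by_contra h2
    push Not at h2
    have h3 : Real.exp (-1) < Real.exp ξ := Real.exp_lt_exp.2 h2
    have h4 : (0.36787944116:ℝ) < Real.exp (-1) := Real.exp_neg_one_gt_d9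
    (clear * - hξ h3 h4; linarith only [hξ, h3, h4])
  have a1 := Pool.Agent.Helper97.EK.addI_ne (ξ := ξ) h0 h1
  obtain ⟨p, p1, p2, p3⟩ := phase h0 h1 hx1
  have k0 := Pool.Agent.Helper97.EK.zf_mem (ξ := ξ) h0 h1
  rw [mem_ball_zero_iff] at k0
  -- the point is near the circle
  have hEn := Pool.Agent.Helper97.EK.norm_exp_pt ξ η
  have k1 : 1 - ‖zf (pt ξ η)‖ ≤ 4 * Real.exp ξ := by
    have e1 : 1 - zf (pt ξ η) = 2 * Complex.exp (pt ξ η) / (I + Complex.exp (pt ξ η)) := by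
      unfold zf
      field_simp
      ring
    have h2 : ‖(1:ℂ)‖ - ‖zf (pt ξ η)‖ ≤ ‖1 - zf (pt ξ η)‖ := norm_sub_norm_le _ _
    rw [norm_one, e1, norm_div, norm_mul, hEn] at h2
    have h3 := (low (Complex.exp (pt ξ η)) (by rw [hEn]; (clear * - hξ; linarith only [hξ]))).1
    have : ‖(2:ℂ)‖ = 2 := by simp
    rw [this] at h2
    refine h2.trans ?_
    rw [div_le_iff₀ (by (clear * - h3; linarith only [h3]))]
    (clear * - h3; nlinarith only [Real.exp_pos ξ, h3])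
  have k2 : 1 / 2 ≤ ‖zf (pt ξ η)‖ := by (clear * - hξ k1; linarith)
  have k3 := mX_close h ha ha1 h0 h1 hx1 hξ1 k2
  have k4 := mrad_range h k0 k2
  have k5 : ‖mX (Xf β a (pt ξ η)) (deriv (Xf β a) (pt ξ η)) (Real.sin η) (Real.cos η) + 3‖ ≤
      4 + ε := by
    have e1 : mX (Xf β a (pt ξ η)) (deriv (Xf β a) (pt ξ η)) (Real.sin η) (Real.cos η) + 3 =
        (mX (Xf β a (pt ξ η)) (deriv (Xf β a) (pt ξ η)) (Real.sin η) (Real.cos η) -
        mrad β (zf (pt ξ η))) + (mrad β (zf (pt ξ η)) + 3) := by ring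
    rw [e1]
    refine (norm_add_le _ _).trans ?_
    (clear * - hε k1 k3 k4; linarith)
  have k6 := hM.eq _ k5
  unfold MtC
  rw [k6, mul_assoc, X_sqC a1, ← mul_assoc (e0 (Real.sin η) (Real.cos η)), p2]
  have k7 : ‖(‖zd (pt ξ η)‖ : ℂ) ^ 2 * (kA β a (zf (pt ξ η)) - q * omp 0 (zf (pt ξ η)) ^ 2)‖ ≤
      (2 + ‖1 - q‖) * (1 + ‖Xf β a (pt ξ η) - 1‖ ^ 2) := by
    have h2 := norm_sq_subC (Xf β a (pt ξ η)) q
    rw [X_sqC a1] at h2
    rw [norm_mul, norm_pow] at h2 ⊢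
    rwa [Complex.norm_real, norm_norm]
  set K := kA β a (zf (pt ξ η)) - q * omp 0 (zf (pt ξ η)) ^ 2 with hK
  clear_value K
  have k8 := hM.lip (mX (Xf β a (pt ξ η)) (deriv (Xf β a) (pt ξ η)) (Real.sin η) (Real.cos η))
    (mrad β (zf (pt ξ η)))
  generalize mX (Xf β a (pt ξ η)) (deriv (Xf β a) (pt ξ η)) (Real.sin η) (Real.cos η) = m at *
  have k9 := hM.le (mrad β (zf (pt ξ η)))
  unfold Mh
  generalize mrad β (zf (pt ξ η)) = m' at *
  have e1 : (M' m * ((‖zd (pt ξ η)‖ : ℂ) ^ 2 * p * K)).re -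
      ‖zd (pt ξ η)‖ ^ 2 * ((zf (pt ξ η) / ‖zf (pt ξ η)‖) ^ 2 * M' m' * K).re =
      (((M' m - M' m') * p + M' m' * (p - (zf (pt ξ η) / ‖zf (pt ξ η)‖) ^ 2)) *
        ((‖zd (pt ξ η)‖ : ℂ) ^ 2 * K)).re := by
    have e2 : ‖zd (pt ξ η)‖ ^ 2 * ((zf (pt ξ η) / ‖zf (pt ξ η)‖) ^ 2 * M' m' * K).re =
        (((‖zd (pt ξ η)‖ ^ 2 : ℝ) : ℂ) * ((zf (pt ξ η) / ‖zf (pt ξ η)‖) ^ 2 * M' m' * K)).re := by
      rw [Complex.re_ofReal_mul]
    rw [e2, ← Complex.sub_re]
    congr 1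
    push_cast
    ring
  rw [e1]
  refine (abs_re_le_norm _).trans ?_
  rw [norm_mul]
  have hL := hM.L0
  have hMb := hM.Mb0
  have hexp := Real.exp_pos ξ
  have k10 : ‖(M' m - M' m') * p + M' m' * (p - (zf (pt ξ η) / ‖zf (pt ξ η)‖) ^ 2)‖ ≤
      (164 * L + 8 * Mb) * Real.exp ξ := by
    refine (norm_add_le _ _).trans ?_
    rw [norm_mul, norm_mul, p1, mul_one]
    have b1 : ‖M' m - M' m'‖ ≤ L * (164 * Real.exp ξ) :=
      k8.trans (mul_le_mul_of_nonneg_left k3 hL)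
    have b2 : ‖M' m'‖ * ‖p - (zf (pt ξ η) / ‖zf (pt ξ η)‖) ^ 2‖ ≤ Mb * (8 * Real.exp ξ) :=
      mul_le_mul k9 p3 (norm_nonneg _) hMb
    (clear * - b1 b2; linarith only [b1, b2])
  have k11 := mul_le_mul k10 k7 (norm_nonneg _) (by (clear * - hL hMb; positivity))
  refine k11.trans (le_of_eq ?_)
  ring

end Pool.Agent.Helper69.CK

end

section

namespace Pool.Agent.Helper39.Area
end Pool.Agent.Helper39.Area
namespace Pool.Agent.Helper52.EK
end Pool.Agent.Helper52.EK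
namespace Pool.Agent.Helper52.CK
end Pool.Agent.Helper52.CK

set_option autoImplicit false

open Complex MeasureTheory Metric Set

open scoped Real ComplexConjugate

namespace Pool.Agent.Helper69.CK

open Pool.Agent.Helper39.Area Pool.Agent.Helper52.EK Pool.Agent.Helper52.CK

/-- the open rectangle -/
def SR (x₁ x₂ : ℝ) : Set ℂ := Ioo x₁ x₂ ×ℂ Ioo 0 π

theorem SR_sub (x₁ x₂ : ℝ) : SR x₁ x₂ ⊆ Rect x₁ x₂ := fun _ hω =>
  ⟨Ioo_subset_Icc_self hω.1, Ioo_subset_Icc_self hω.2⟩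

theorem SR_open (x₁ x₂ : ℝ) : IsOpen (SR x₁ x₂) := isOpen_Ioo.reProdIm isOpen_Ioo

theorem inj_zf {x₁ x₂ : ℝ} : InjOn zf (SR x₁ x₂) := by
  intro ω hω ω' hω' he
  have e1 := Pool.Agent.Helper86.EK.exp_ne_neg_I (SR_sub _ _ hω)
  have e2 := Pool.Agent.Helper86.EK.exp_ne_neg_I (SR_sub _ _ hω')
  rw [zf, zf, div_eq_div_iff e1 e2] at he
  have e3 : Complex.exp ω = Complex.exp ω' := by
    have : 2 * I * (Complex.exp ω - Complex.exp ω') = 0 := by linear_combination -he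
    have h4 : (2:ℂ) * I ≠ 0 := by simp
    exact sub_eq_zero.mp ((mul_eq_zero.mp this).resolve_left h4)
  obtain ⟨n, hn⟩ := Complex.exp_eq_exp_iff_exists_int.mp e3
  have h5 := congrArg Complex.im hn
  simp only [Complex.add_im, Complex.mul_im, Complex.intCast_re, Complex.intCast_im,
    Complex.mul_re, Complex.re_ofNat, Complex.im_ofNat, Complex.ofReal_re, Complex.ofReal_im,
    Complex.I_re, Complex.I_im, mul_zero, mul_one, sub_zero, zero_mul, add_zero] at h5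
  have hπ := Real.pi_pos
  have h6a : 0 < ω.im := hω.2.1
  have h6b : ω.im < π := hω.2.2
  have h7a : 0 < ω'.im := hω'.2.1
  have h7b : ω'.im < π := hω'.2.2
  have h8 : n = 0 := by
    have h9 : (n:ℝ) < 1 := by
      by_contra h10
      push Not at h10
      nlinarith only [h5, h6b, h7a, h7b, h10]
    have h11 : (-1:ℝ) < n := by
      by_contra h10
      push Not at h10
      (clear * - h5 hπ h6a h7b h10; nlinarith only [h5, hπ, h6a, h7b, h10])
    have h9' : n < 1 := by exact_mod_cast h9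
    have h11' : -1 < n := by exact_mod_cast h11
    omega
  rw [hn, h8]
  simp

/-- the points of the disc in the coordinate of the strip -/
theorem mem_image_zf {x₁ x₂ : ℝ} {z : ℂ} (h1 : ‖z‖ < 1) (h2 : Real.exp x₁ < ‖1 - z‖ / ‖1 + z‖)
    (h3 : ‖1 - z‖ / ‖1 + z‖ < Real.exp x₂) : z ∈ zf '' SR x₁ x₂ := by
  have hp : 1 + z ≠ 0 := by
    intro h0
    have : z = -1 := by linear_combination h0
    rw [this] at h1
    simp at h1
  have hE : I * (1 - z) / (1 + z) ≠ 0 := by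
    refine div_ne_zero (mul_ne_zero Complex.I_ne_zero fun h0 => ?_) hp
    have : z = 1 := by linear_combination -h0
    rw [this] at h1
    simp at h1
  have him : 0 < (I * (1 - z) / (1 + z)).im := by
    have e1 : I * (1 - z) / (1 + z) = I * (1 - z) * conj (1 + z) / (Complex.normSq (1 + z) : ℂ) := by
      rw [Complex.normSq_eq_conj_mul_self]
      have : conj (1 + z) ≠ 0 := (map_ne_zero _).2 hp
      field_simp
    rw [e1, Complex.div_ofReal_im]
    refine div_pos ?_ (Complex.normSq_pos.2 hp)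
    have h4 : ‖z‖ ^ 2 < 1 := pow_lt_one₀ (norm_nonneg _) h1 two_ne_zero
    rw [← Complex.normSq_eq_norm_sq, Complex.normSq_apply] at h4
    simp only [mul_im, mul_re, I_re, I_im, sub_re, sub_im, one_re, one_im, conj_re, conj_im,
      add_re, add_im]
    (clear * - h4; linarith only [h4])
  refine ⟨Complex.log (I * (1 - z) / (1 + z)), ⟨⟨?_, ?_⟩, ?_, ?_⟩, ?_⟩
  · change x₁ < (Complex.log _).re
    rw [Complex.log_re, norm_div, norm_mul, Complex.norm_I, one_mul]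
    rw [← Real.log_exp x₁]
    exact Real.log_lt_log (Real.exp_pos _) h2
  · change (Complex.log _).re < x₂
    rw [Complex.log_re, norm_div, norm_mul, Complex.norm_I, one_mul]
    rw [← Real.log_exp x₂]
    exact Real.log_lt_log ((Real.exp_pos _).trans h2) h3
  · change 0 < (Complex.log _).im
    rw [Complex.log_im]
    have h5 : 0 ≤ Complex.arg (I * (1 - z) / (1 + z)) := Complex.arg_nonneg_iff.2 him.le
    refine lt_of_le_of_ne h5 fun h6 => ?_
    have h7 := Complex.arg_eq_zero_iff.1 h6.symm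
    (clear * - him h7; linarith only [him, h7])
  · change (Complex.log _).im < π
    rw [Complex.log_im]
    refine lt_of_le_of_ne (Complex.arg_le_pi _) fun h6 => ?_
    have h7 := Complex.arg_eq_pi_iff.1 h6
    linarith only [him, h7]
  · unfold zf
    rw [Complex.exp_log hE]
    field_simp
    ring

/-- change of variables for functions supported in the image of the rectangle -/
theorem chg {x₁ x₂ : ℝ} {g : ℂ → ℝ} (hg : ∀ z, z ∉ zf '' SR x₁ x₂ → g z = 0) :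
    ∫ z, g z = ∫ ω in SR x₁ x₂, ‖zd ω‖ ^ 2 * g (zf ω) := by
  have hd : ∀ ω ∈ SR x₁ x₂, HasFDerivWithinAt zf (zd ω • (1 : ℂ →L[ℝ] ℂ)) (SR x₁ x₂) ω :=
    fun ω hω => (Pool.Agent.Helper86.EK.hasDerivAt_zf (Pool.Agent.Helper86.EK.exp_ne_neg_I
      (SR_sub _ _ hω))).complexToReal_fderiv.hasFDerivWithinAt
  rw [← setIntegral_eq_integral_of_forall_compl_eq_zero hg,
    integral_image_eq_integral_abs_det_fderiv_smul volume (SR_open x₁ x₂).measurableSet hd inj_zf]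
  simp only [Pool.Agent.Helper86.EK.det_cmul, smul_eq_mul]

/-- the strip integral of a difference -/
theorem int_diff {x₁ x₂ : ℝ} {F₁ F₂ E : ℂ → ℝ} (h1 : ContinuousOn F₁ (Rect x₁ x₂))
    (h2 : ContinuousOn F₂ (SR x₁ x₂)) (hE : ContinuousOn E (Rect x₁ x₂))
    (h : ∀ ω ∈ SR x₁ x₂, |F₁ ω - F₂ ω| ≤ E ω) :
    |(∫ ω in SR x₁ x₂, F₁ ω) - ∫ ω in SR x₁ x₂, F₂ ω| ≤ ∫ ω in SR x₁ x₂, E ω := by
  have hK : IsCompact (Rect x₁ x₂) := isCompact_Icc.reProdIm isCompact_Icc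
  have i1 : IntegrableOn F₁ (SR x₁ x₂) := (h1.integrableOn_compact hK).mono_set (SR_sub _ _)
  have iE : IntegrableOn E (SR x₁ x₂) := (hE.integrableOn_compact hK).mono_set (SR_sub _ _)
  have hm := (SR_open x₁ x₂).measurableSet
  have i2 : IntegrableOn F₂ (SR x₁ x₂) := by
    refine Integrable.mono' (i1.abs.add iE) (h2.aestronglyMeasurable hm) ?_
    rw [ae_restrict_iff' hm]
    refine Filter.Eventually.of_forall fun ω hω => ?_
    have h3 := h ω hω
    rw [Real.norm_eq_abs]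
    have h4 := abs_sub_abs_le_abs_sub (F₂ ω) (F₁ ω)
    rw [abs_sub_comm (F₂ ω)] at h4
    simp only [Pi.add_apply]
    (clear * - h3 h4; linarith only [h3, h4])
  rw [← integral_sub i1 i2, ← Real.norm_eq_abs]
  refine norm_integral_le_of_norm_le iE ?_
  rw [ae_restrict_iff' hm]
  exact Filter.Eventually.of_forall fun ω hω => by
    rw [Real.norm_eq_abs]
    exact h ω hω

/-- **the multiplier term, from the strip to the disc** -/
theorem conv {M M' : ℂ → ℂ} {Mb L ε : ℝ} (hM : MOk M M' Mb L ε) (q : ℝ) :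
    ∃ C : ℝ, 0 ≤ C ∧ ∀ (β : ℂ → ℂ) (R a A x₁ : ℝ) (W : ℂ → ℝ), ExtR β R → 0 < a → a < 1 →
      Real.log (tau a) < x₁ → x₁ ≤ -1 → 8 * Real.exp (-A) ≤ 1 → 184 * Real.exp (-A) ≤ ε →
      Continuous W → (∀ z, 0 ≤ W z) → (∀ z, W z ≤ 1) →
      (∀ z, W z ≠ 0 → ‖z‖ < 1 ∧ Real.exp x₁ < ‖1 - z‖ / ‖1 + z‖ ∧
        ‖1 - z‖ / ‖1 + z‖ ≤ Real.exp (-A)) →
      |II x₁ (-1) (fun ξ η => W (zf (pt ξ η)) * Mt M q (Xf β a) ξ η) -
        ∫ z0 : ℂ, W z0 * (Mh M' β z0 * (kA β a z0 - q * omp 0 z0 ^ 2)).re| ≤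
        C * (1 + Real.exp (-A) * II x₁ (-1) (fun ξ η => ‖Xf β a (pt ξ η) - 1‖ ^ 2)) := by
  obtain ⟨C₀, hC₀⟩ : ∃ C₀ : ℝ, C₀ = (164 * L + 8 * Mb) * (2 + |1 - q|) := ⟨_, rfl⟩
  have hL := hM.L0
  have hMb := hM.Mb0
  have hC0 : 0 ≤ C₀ := by rw [hC₀]; (clear * - hL hMb; positivity)
  refine ⟨C₀ * (π + 1), mul_nonneg hC0 (by positivity), ?_⟩
  intro β R a A x₁ W hβ ha ha1 hx1 hx hA1 hA2 hWc hW0 hW1 hWs
  have hxm : (-1:ℝ) < 0 := by norm_num
  have hX : NiceX (Xf β a) x₁ (-1) := Pool.Agent.Helper67.EK.E1c hβ ha ha1 hx1 hxm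
  have hexpA := Real.exp_pos (-A)
  have hAm : Real.exp (-A) < Real.exp (-1) := by
    have h4 : (0.36787944116:ℝ) < Real.exp (-1) := Real.exp_neg_one_gt_d9
    linarith only [hA1, h4]
  have himg : ∀ z, W z ≠ 0 → z ∈ zf '' SR x₁ (-1) := fun z hz => by
    obtain ⟨h1, h2, h3⟩ := hWs z hz
    exact mem_image_zf h1 h2 (h3.trans_lt hAm)
  -- the support in the strip
  have hsup : ∀ ω ∈ SR x₁ (-1), W (zf ω) ≠ 0 → Real.exp ω.re ≤ Real.exp (-A) := by
    intro ω hω h0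
    obtain ⟨_, _, h3⟩ := hWs _ h0
    have e1 := Pool.Agent.Helper86.EK.exp_ne_neg_I (SR_sub _ _ hω)
    have e2 : ‖1 - zf ω‖ / ‖1 + zf ω‖ = Real.exp ω.re := by
      rw [← norm_div]
      have e3 : (1 - zf ω) / (1 + zf ω) = Complex.exp ω / I := by
        have h5 : 1 - zf ω = 2 * Complex.exp ω / (I + Complex.exp ω) := by
          unfold zf
          field_simp
          ring
        have h6 : 1 + zf ω = 2 * I / (I + Complex.exp ω) := by
          unfold zf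
          field_simp
          ring
        rw [h5, h6]
        (clear * - e1; field_simp)
      rw [e3, norm_div, Complex.norm_I, div_one, Complex.norm_exp]
    rwa [e2] at h3
  -- continuity
  have hzc : ContinuousOn zf (Rect x₁ (-1)) := fun ω hω =>
    (Pool.Agent.Helper86.EK.hasDerivAt_zf
      (Pool.Agent.Helper86.EK.exp_ne_neg_I hω)).continuousAt.continuousWithinAt
  have cX := hX.an.continuousOn
  have cY := hX.an.deriv.continuousOn
  have ce : Continuous fun ω : ℂ => e0 (Real.sin ω.im) (Real.cos ω.im) := by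
    unfold e0
    fun_prop
  have cm : ContinuousOn (fun ω : ℂ => mX (Xf β a ω) (deriv (Xf β a) ω) (Real.sin ω.im)
      (Real.cos ω.im)) (Rect x₁ (-1)) := by
    unfold mX
    exact ((continuousOn_const.add ce.continuousOn).mul
      (((continuousOn_const.mul cX).sub continuousOn_const).add (cY.div cX hX.ne))).sub
      continuousOn_const
  have c1 : ContinuousOn (fun ω : ℂ => W (zf ω) * (M (mX (Xf β a ω) (deriv (Xf β a) ω)
      (Real.sin ω.im) (Real.cos ω.im)) * e0 (Real.sin ω.im) (Real.cos ω.im) *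
      (Xf β a ω ^ 2 - q)).re) (Rect x₁ (-1)) := by
    refine (hWc.comp_continuousOn hzc).mul (Complex.continuous_re.comp_continuousOn ?_)
    exact ((hM.cont.comp_continuousOn cm).mul ce.continuousOn).mul
      ((cX.pow 2).sub continuousOn_const)
  have cE : ContinuousOn (fun ω : ℂ => C₀ * (Real.exp ω.re + Real.exp (-A) *
      ‖Xf β a ω - 1‖ ^ 2)) (Rect x₁ (-1)) := by
    refine continuousOn_const.mul (ContinuousOn.add (by fun_prop)
      (continuousOn_const.mul ((cX.sub continuousOn_const).norm.pow 2)))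
  have hz1 : ∀ ω ∈ SR x₁ (-1), 0 < ‖zf ω‖ ∧ ‖zf ω‖ < 1 := by
    intro ω hω
    refine ⟨norm_pos_iff.2 (Pool.Agent.Helper86.EK.zf_ne_zero hxm (SR_sub _ _ hω)), ?_⟩
    apply Pool.Agent.Helper86.EK.norm_zf_lt
    rw [Complex.exp_im]
    exact mul_pos (Real.exp_pos _) (Real.sin_pos_of_pos_of_lt_pi hω.2.1 hω.2.2)
  have hzd0 : ∀ ω ∈ Rect x₁ (-1), zd ω ≠ 0 := by
    intro ω hω
    have h1 := Pool.Agent.Helper86.EK.exp_ne_neg_I hω
    unfold zd
    refine div_ne_zero (mul_ne_zero (mul_ne_zero (by norm_num) Complex.I_ne_zero)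
      (Complex.exp_ne_zero _)) (pow_ne_zero 2 (by rwa [add_comm]))
  have czd : ContinuousOn zd (Rect x₁ (-1)) := by
    unfold zd
    apply ContinuousOn.div (by fun_prop) (by fun_prop)
    intro ω hω
    apply pow_ne_zero
    rw [add_comm]
    exact Pool.Agent.Helper86.EK.exp_ne_neg_I hω
  have c2 : ContinuousOn (fun ω : ℂ => ‖zd ω‖ ^ 2 * (W (zf ω) * (Mh M' β (zf ω) *
      (kA β a (zf ω) - q * omp 0 (zf ω) ^ 2)).re)) (SR x₁ (-1)) := by
    have c3 : ContinuousOn (fun ω : ℂ => ‖zd ω‖ ^ 2 * (W (zf ω) * (Mh M' β (zf ω) *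
      ((Xf β a ω ^ 2 - q) / zd ω ^ 2)).re)) (SR x₁ (-1)) := by
      have s := SR_sub x₁ (-1)
      refine ((czd.mono s).norm.pow 2).mul ((hWc.comp_continuousOn (hzc.mono s)).mul
        (Complex.continuous_re.comp_continuousOn ?_))
      refine ((Mh_cont hM hβ.toExt).comp (hzc.mono s) hz1).mul ?_
      refine ((((cX.mono s).pow 2).sub continuousOn_const)).div ((czd.mono s).pow 2) ?_
      intro ω hω
      exact pow_ne_zero 2 (hzd0 ω (s hω))
    refine c3.congr fun ω hω => ?_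
    simp only
    rw [X_sq (Pool.Agent.Helper86.EK.exp_ne_neg_I (SR_sub _ _ hω)),
      mul_div_cancel_left₀ _ (pow_ne_zero 2 (hzd0 ω (SR_sub _ _ hω)))]
  -- the comparison
  have k1 := int_diff c1 c2 cE (by
    intro ω hω
    by_cases h0 : W (zf ω) = 0
    · rw [h0]
      simp only [zero_mul, mul_zero, sub_zero, abs_zero]
      exact mul_nonneg hC0 (by (clear * -; positivity))
    · have h1 := hsup ω hω h0
      have e1 : pt ω.re ω.im = ω := by
        rw [Pool.Agent.Helper86.EK.pt_eq]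
      have h2 := cmp hM q hβ.toExt ha ha1 (ξ := ω.re) (η := ω.im) hω.2.1 hω.2.2
        (hx1.trans hω.1.1) (by linarith) (by linarith)
      unfold Mt at h2
      rw [e1, ← hC₀] at h2
      have e2 : ∀ A B : ℝ, W (zf ω) * A - ‖zd ω‖ ^ 2 * (W (zf ω) * B) =
          W (zf ω) * (A - ‖zd ω‖ ^ 2 * B) := fun A B => by ring
      rw [e2, abs_mul, abs_of_nonneg (hW0 _)]
      refine (mul_le_mul_of_nonneg_right (hW1 _) (abs_nonneg _)).trans ?_
      rw [one_mul]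
      refine h2.trans (mul_le_mul_of_nonneg_left ?_ hC0)
      rw [mul_add, mul_one]
      exact add_le_add le_rfl (mul_le_mul_of_nonneg_right h1 (sq_nonneg _)))
  -- the integrals
  have e1 : II x₁ (-1) (fun ξ η => W (zf (pt ξ η)) * Mt M q (Xf β a) ξ η) =
      ∫ ω in SR x₁ (-1), W (zf ω) * (M (mX (Xf β a ω) (deriv (Xf β a) ω)
      (Real.sin ω.im) (Real.cos ω.im)) * e0 (Real.sin ω.im) (Real.cos ω.im) *
      (Xf β a ω ^ 2 - q)).re := by
    have h1 := Pool.Agent.Helper86.EK.II_eq hx c1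
    rw [SR, ← h1]
    simp only [Pool.Agent.Helper97.EK.pt_im]
    rfl
  have e2 : ∫ z0 : ℂ, W z0 * (Mh M' β z0 * (kA β a z0 - q * omp 0 z0 ^ 2)).re =
      ∫ ω in SR x₁ (-1), ‖zd ω‖ ^ 2 * (W (zf ω) * (Mh M' β (zf ω) *
      (kA β a (zf ω) - q * omp 0 (zf ω) ^ 2)).re) := by
    refine chg (g := fun z0 => W z0 * (Mh M' β z0 * (kA β a z0 - q * omp 0 z0 ^ 2)).re)
      fun z hz => ?_
    by_cases h0 : W z = 0
    · simp only [h0, zero_mul]
    · exact absurd (himg z h0) hz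
  have e3 : ∫ ω in SR x₁ (-1), C₀ * (Real.exp ω.re + Real.exp (-A) * ‖Xf β a ω - 1‖ ^ 2) ≤
      C₀ * (π + 1) * (1 + Real.exp (-A) * II x₁ (-1) (fun ξ η => ‖Xf β a (pt ξ η) - 1‖ ^ 2)) := by
    have hK : IsCompact (Rect x₁ (-1)) := isCompact_Icc.reProdIm isCompact_Icc
    have c5 : ContinuousOn (fun ω : ℂ => ‖Xf β a ω - 1‖ ^ 2) (Rect x₁ (-1)) :=
      (cX.sub continuousOn_const).norm.pow 2
    have c6 : ContinuousOn (fun ω : ℂ => Real.exp ω.re) (Rect x₁ (-1)) := by fun_prop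
    have i5 : IntegrableOn (fun ω : ℂ => ‖Xf β a ω - 1‖ ^ 2) (SR x₁ (-1)) :=
      (c5.integrableOn_compact hK).mono_set (SR_sub _ _)
    have i6 : IntegrableOn (fun ω : ℂ => Real.exp ω.re) (SR x₁ (-1)) :=
      (c6.integrableOn_compact hK).mono_set (SR_sub _ _)
    have h5 := Pool.Agent.Helper86.EK.II_eq hx c5
    have h6 := Pool.Agent.Helper86.EK.II_eq hx c6
    rw [integral_const_mul, integral_add i6 (i5.const_mul _), integral_const_mul]
    have h5' : ∫ ω in SR x₁ (-1), ‖Xf β a ω - 1‖ ^ 2 =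
        II x₁ (-1) (fun ξ η => ‖Xf β a (pt ξ η) - 1‖ ^ 2) := h5.symm
    have h6' : ∫ ω in SR x₁ (-1), Real.exp ω.re ≤ π := by
      have h7 : ∫ ω in SR x₁ (-1), Real.exp ω.re = II x₁ (-1) fun ξ η => Real.exp ξ := by
        rw [SR, ← h6]
        simp only [Pool.Agent.Helper97.EK.pt_re]
      rw [h7]
      unfold II
      simp only [intervalIntegral.integral_const, sub_zero, smul_eq_mul]
      rw [intervalIntegral.integral_const_mul, integral_exp]
      have h8 : Real.exp (-1) < 0.3678794412 := Real.exp_neg_one_lt_d9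
      have := Real.exp_pos x₁
      nlinarith only [Real.pi_pos, h8, this]
    rw [h5', mul_assoc]
    refine mul_le_mul_of_nonneg_left ?_ hC0
    have hnn : 0 ≤ II x₁ (-1) (fun ξ η => ‖Xf β a (pt ξ η) - 1‖ ^ 2) := by
      rw [← h5']
      exact integral_nonneg fun _ => sq_nonneg _
    have := mul_nonneg hexpA.le hnn
    nlinarith only [Real.pi_pos, h6', this]
  rw [e1, e2]
  exact k1.trans e3

end Pool.Agent.Helper69.CK

end

section

namespace Pool.Agent.Helper39.Area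
end Pool.Agent.Helper39.Area
namespace Pool.Agent.Helper52.EK
end Pool.Agent.Helper52.EK
namespace Pool.Agent.Helper52.CK
end Pool.Agent.Helper52.CK
namespace Pool.Agent.Helper9.EK
end Pool.Agent.Helper9.EK

set_option autoImplicit false

open Complex MeasureTheory Metric Set

open scoped Real ComplexConjugate

namespace Pool.Agent.Helper69.CK

open Pool.Agent.Helper39.Area Pool.Agent.Helper52.EK Pool.Agent.Helper52.CK

open Pool.Agent.Helper9.EK (rotβ norm_exp_mul deriv_rotβ mrad_rot conj_exp_mul norm_exp_one)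

theorem phi_rot {β : ℂ → ℂ} (α : ℝ) (z : ℂ) :
    phi (rotβ β α) z = Complex.exp (α * I) * phi β (Complex.exp (α * I) * z) := by
  have hc : Complex.exp (α * I) ≠ 0 := Complex.exp_ne_zero _
  unfold phi rotβ
  rw [mul_add, mul_inv, ← mul_assoc, mul_inv_cancel₀ hc, one_mul]

theorem dphi_rot {β : ℂ → ℂ} (α : ℝ) (z : ℂ) :
    dphi (rotβ β α) z = Complex.exp (α * I) ^ 2 * dphi β (Complex.exp (α * I) * z) := by
  have hc : Complex.exp (α * I) ≠ 0 := Complex.exp_ne_zero _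
  unfold dphi
  have h1 : Complex.exp (α * I) ^ 2 * (Complex.exp (α * I) ^ 2)⁻¹ = 1 :=
    mul_inv_cancel₀ (pow_ne_zero 2 hc)
  rw [deriv_rotβ, mul_pow, mul_inv]
  linear_combination (z ^ 2)⁻¹ * h1

theorem kA_rot {β : ℂ → ℂ} (α : ℝ) (b z : ℂ) :
    kA (rotβ β α) b z = Complex.exp (α * I) ^ 2 *
      kA β (Complex.exp (α * I) * b) (Complex.exp (α * I) * z) := by
  have hc : Complex.exp (α * I) ≠ 0 := Complex.exp_ne_zero _
  unfold kA
  rw [phi_rot, phi_rot, dphi_rot, ← mul_sub, mul_left_comm (2:ℂ)]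
  have e : Complex.exp (α * I) ^ 2 * dphi β (Complex.exp (α * I) * z) /
      (Complex.exp (α * I) * (2 * (phi β (Complex.exp (α * I) * z) -
        phi β (Complex.exp (α * I) * b)))) =
      Complex.exp (α * I) * (dphi β (Complex.exp (α * I) * z) /
      (2 * (phi β (Complex.exp (α * I) * z) - phi β (Complex.exp (α * I) * b)))) := by
    rw [pow_two, mul_assoc, mul_div_mul_left _ _ hc, mul_div_assoc]
  rw [e, mul_pow]

theorem omp_rot (α : ℝ) (z : ℂ) :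
    omp 0 z = Complex.exp (α * I) * omp α (Complex.exp (α * I) * z) := by
  have hc : Complex.exp (α * I) ≠ 0 := Complex.exp_ne_zero _
  rw [omp_zero]
  unfold omp
  have e : Complex.exp (α * I) ^ 2 - (Complex.exp (α * I) * z) ^ 2 =
      Complex.exp (α * I) ^ 2 * (1 - z ^ 2) := by ring
  rw [e, ← mul_div_assoc, mul_left_comm, ← pow_two, mul_comm (2:ℂ),
    mul_div_mul_left _ _ (pow_ne_zero 2 hc)]

theorem Mh_rot {M' β : ℂ → ℂ} (α : ℝ) (z : ℂ) :
    Mh M' (rotβ β α) z = conj (Complex.exp (α * I)) ^ 2 * Mh M' β (Complex.exp (α * I) * z) := by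
  unfold Mh
  rw [mrad_rot, norm_exp_mul, mul_div_assoc, mul_pow, ← mul_assoc, ← mul_assoc, ← mul_pow,
    conj_exp_mul, one_pow, one_mul]

theorem ep_eq (x θ : ℝ) : ep (-x) θ = Complex.exp (θ * I) * ((Real.exp (-x) : ℝ) : ℂ) := by
  unfold ep
  rw [Complex.ofReal_exp, ← Complex.exp_add]
  congr 1
  push_cast
  ring

theorem integral_rot (α : ℝ) (f : ℂ → ℝ) :
    ∫ z : ℂ, f (Complex.exp (α * I) * z) = ∫ z : ℂ, f z := by
  obtain ⟨u, hu⟩ : ∃ u : Circle, (u : ℂ) = Complex.exp (α * I) := ⟨Circle.exp α, Circle.coe_exp α⟩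
  have h1 := (rotation u).measurePreserving
  have h2 := h1.integral_comp (rotation u).toHomeomorph.measurableEmbedding f
  rw [← h2]
  simp only [rotation_apply, hu]

/-- **rotation of the multiplier term** -/
theorem MM_rot (κ dl : ℝ) (W0 : ℂ → ℝ) (M' β : ℂ → ℂ) (x θ : ℝ) :
    MM κ dl W0 (Mh M' β) β x θ = π⁻¹ * ∫ z : ℂ, W0 (Complex.exp (θ * I) * z) *
      (Mh M' (rotβ β θ) z * (kA (rotβ β θ) ((Real.exp (-x) : ℝ) : ℂ) z -
        ((1 + dl / (2 * κ) : ℝ) : ℂ) * omp 0 z ^ 2)).re := by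
  unfold MM
  rw [← integral_rot θ]
  congr 1
  refine integral_congr_ae (Filter.Eventually.of_forall fun z => ?_)
  simp only
  rw [Mh_rot, kA_rot, omp_rot θ, ep_eq]
  have h := conj_exp_mul θ
  congr 2
  have e : ∀ A B C D E : ℂ, E * D = 1 →
      B * (A - C) = E ^ 2 * B * (D ^ 2 * A - D ^ 2 * C) := by
    intro A B C D E h
    linear_combination (-(B * (A - C)) * (E * D + 1)) * h
  have e1 := e (kA β (Complex.exp (θ * I) * ((Real.exp (-x) : ℝ) : ℂ)) (Complex.exp (θ * I) * z))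
    (Mh M' β (Complex.exp (θ * I) * z)) (((1 + dl / (2 * κ) : ℝ) : ℂ) *
      omp θ (Complex.exp (θ * I) * z) ^ 2) (Complex.exp (θ * I)) (conj (Complex.exp (θ * I))) h
  rw [e1]
  ring

end Pool.Agent.Helper69.CK

end

section

namespace Pool.Agent.Helper39.Area
end Pool.Agent.Helper39.Area
namespace Pool.Agent.Helper52.EK
end Pool.Agent.Helper52.EK
namespace Pool.Agent.Helper52.CK
end Pool.Agent.Helper52.CK
namespace Pool.Agent.Helper68.EKC
end Pool.Agent.Helper68.EKC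

set_option autoImplicit false

open Complex MeasureTheory Metric Set

open scoped Real ComplexConjugate

namespace Pool.Agent.Helper97.CKC

open Pool.Agent.Helper39.Area Pool.Agent.Helper52.EK Pool.Agent.Helper52.CK Pool.Agent.Helper68.EKC

/-- density of the targets -/
noncomputable def FC (κ : ℝ) (u : ℂ) (L : ℂ → ℂ) (x θ : ℝ) : ℝ :=
  Real.exp (-(κ * (conj u * L (ep (-x) θ)).re))

/-- the functional -/
noncomputable def JC (κ : ℝ) (u : ℂ) (om w : ℝ → ℝ) (a b : ℝ) (L : ℂ → ℂ) : ℝ :=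
  RR a b fun x θ => om x * w θ * FC κ u L x θ

/-- the exponent -/
noncomputable def tt (κ : ℝ) (u : ℂ) : ℂ := -((κ : ℂ) * conj u)

noncomputable def ka (z z0 : ℂ) : ℂ := z * z0 / (z - z0) ^ 2

noncomputable def kb (z z0 : ℂ) : ℂ := conj z * z0 / (1 - z0 * conj z) ^ 2

noncomputable def kp (z z0 : ℂ) : ℂ := (z + z0) / (z - z0)

noncomputable def kq (z z0 : ℂ) : ℂ := (1 + z0 * conj z) / (1 - z0 * conj z)

/-- the first variation: `dJ = Re (B E(z0))` -/
noncomputable def EC (κ : ℝ) (u : ℂ) (om om' w w' : ℝ → ℝ) (a b : ℝ) (β L : ℂ → ℂ) (z0 : ℂ) : ℂ :=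
  ∫ x in a..b, ∫ θ in (-π)..π, ((FC κ u L x θ : ℝ) : ℂ) *
    (((om x * w θ : ℝ) : ℂ) * (tt κ u * (4 * z0 ^ 2 * kA β (ep (-x) θ) z0) - ((tt κ u).re : ℂ) +
        (-(tt κ u) * kp (ep (-x) θ) z0 + conj (tt κ u) * kq (ep (-x) θ) z0) / 2 -
        (tt κ u * ka (ep (-x) θ) z0 + conj (tt κ u) * kb (ep (-x) θ) z0) +
        2 * (ka (ep (-x) θ) z0 + kb (ep (-x) θ) z0)) +
      ((om' x * w θ : ℝ) : ℂ) * k3 (ep (-x) θ) z0 +
      ((om x * w' θ : ℝ) : ℂ) * k5 (ep (-x) θ) z0)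

/-- the coefficient of the kernel: `α² + u δ/(2κ)` -/
noncomputable def tau (κ dl : ℝ) (u : ℂ) : ℂ := ((1 + u) / 2) ^ 2 + u * ((dl / (2 * κ) : ℝ) : ℂ)

/-- the term of the multiplier for the target `z = ep (-x) θ` -/
noncomputable def MC (κ dl : ℝ) (u : ℂ) (W0 : ℂ → ℝ) (Mh : ℂ → ℂ) (β : ℂ → ℂ) (x θ : ℝ) : ℝ :=
  π⁻¹ * ∫ z0 : ℂ, W0 z0 * (Mh z0 * (kA β (ep (-x) θ) z0 - tau κ dl u * omp θ z0 ^ 2)).re

/-- NEAR: near-maximisers are nearly critical -/
def NearC (κ : ℝ) (u : ℂ) : Prop :=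
  ∀ (om om' w w' : ℝ → ℝ) (a b : ℝ), Wt om om' w w' a b → (∃ x, 0 < om x) → (∃ θ, 0 < w θ) →
    ∀ η : ℝ, 0 < η → ∃ (β L : ℂ → ℂ) (R : ℝ), ExtR β R ∧ IsLog β L ∧
      (∀ γ L' : ℂ → ℂ, Ext γ → IsLog γ L' → (1 - η) * JC κ u om w a b L' ≤ JC κ u om w a b L) ∧
      ∀ z0 : ℂ, Real.exp (-1) ≤ ‖z0‖ → ‖z0‖ ≤ Real.exp (-2 * b) →
        ‖EC κ u om om' w w' a b β L z0‖ ≤ η

/-- MINT: the integral of the multiplier term over the targets -/
def MIntC (κ dl : ℝ) (u : ℂ) : Prop :=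
  ∀ Mb : ℝ, 0 ≤ Mb → ∃ C₁ : ℝ, 0 ≤ C₁ ∧ ∀ (om om' w w' : ℝ → ℝ) (a b : ℝ), Wt om om' w w' a b →
    (∀ θ ∈ Icc (-π) π, w θ ≠ 0 → |θ| ≤ 1 / 2) →
    ∀ (β L : ℂ → ℂ) (R η : ℝ), ExtR β R → IsLog β L → 0 ≤ η →
      (∀ z0 : ℂ, Real.exp (-1) ≤ ‖z0‖ → ‖z0‖ ≤ Real.exp (-2 * b) →
        ‖EC κ u om om' w w' a b β L z0‖ ≤ η) →
      ∀ (W0 : ℂ → ℝ) (Mh : ℂ → ℂ), Cutf b W0 → ContinuousOn Mh {z | 0 < ‖z‖ ∧ ‖z‖ < 1} →
        (∀ z, ‖Mh z‖ ≤ Mb) →
        RR a b (fun x θ => om x * w θ * FC κ u L x θ * MC κ dl u W0 Mh β x θ) ≤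
          C₁ * JC κ u om w a b L +
          (Mb / (2 * κ)) * (-Real.log b + C₁) *
            RR a b (fun x θ => |(κ - 2 + dl) * om x - x * om' x| * w θ * FC κ u L x θ) +
          C₁ * RR a b (fun x θ => om x * |w' θ| * FC κ u L x θ) + C₁ * η

/-- ENT: entropy inequality on one circle -/
def EntC : Prop :=
  ∃ C : ℝ, ∀ (κ : ℝ) (u : ℂ) (β L : ℂ → ℂ) (R : ℝ) (v : ℂ → ℂ) (w : ℝ → ℝ) (x : ℝ),
    ExtR β R → IsLog β L → ContinuousOn v {z | 0 < ‖z‖ ∧ ‖z‖ < 1} → Continuous w →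
    (∀ θ, 0 ≤ w θ) → (∀ θ, w θ ≤ 1) → Function.Periodic w (2 * π) → 0 < x → x < 1 →
    ∀ m : ℝ, m = (2 * π)⁻¹ * ∫ θ in (-π)..π, w θ * FC κ u L x θ → 0 < m →
    m * Real.log m ≤ m * (Real.log (1 - Real.exp (-2 * x)) + C) +
      (2 * π)⁻¹ * ∫ θ in (-π)..π, w θ * FC κ u L x θ *
        (Kf v (Complex.exp (θ * I)) (-1) (-x) - κ * (conj u * L (ep (-x) θ)).re)

/-- PT: the inequality for one target -/
def PTC (κ dl : ℝ) (u : ℂ) (G : ℂ → ℂ) (Mh : (ℂ → ℂ) → ℂ → ℂ) : Prop :=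
  ∃ C₀ : ℝ, 0 ≤ C₀ ∧ ∀ ε : ℝ, 0 < ε → ∃ s C : ℝ, 0 < s ∧ s ≤ 1 / 2 ∧ 0 ≤ C ∧ ∀ n : ℝ, 2 ≤ n →
    ∃ W0 : ℂ → ℝ, Cutf (Real.exp (-n)) W0 ∧ ∀ (β L : ℂ → ℂ) (R : ℝ), ExtR β R → IsLog β L →
      ∀ x θ : ℝ, 0 < x → x ≤ Real.exp (-n) → |θ| ≤ s →
        Kf (wf G β) (Complex.exp (θ * I)) (-1) (-x) ≤
          κ * (-Real.log (1 - Real.exp (-2 * x)) + (conj u * L (ep (-x) θ)).re) +
          MC κ dl u W0 (Mh β) β x θ + C + (dl + ε) * (-Real.log x) + C₀ * (-Real.log x - n)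

end Pool.Agent.Helper97.CKC

end

section

namespace Pool.Agent.Helper39.Area
end Pool.Agent.Helper39.Area
namespace Pool.Agent.Helper52.EK
end Pool.Agent.Helper52.EK
namespace Pool.Agent.Helper52.CK
end Pool.Agent.Helper52.CK
namespace Pool.Agent.Helper9.EK
end Pool.Agent.Helper9.EK

set_option autoImplicit false

open Complex MeasureTheory Metric Set

open scoped Real ComplexConjugate

namespace Pool.Agent.Helper69.CK

open Pool.Agent.Helper39.Area Pool.Agent.Helper52.EK Pool.Agent.Helper52.CK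

open Pool.Agent.Helper9.EK (rotβ norm_exp_mul deriv_rotβ mrad_rot conj_exp_mul norm_exp_one)

/-- **the multiplier term, from the strip to the disc** -/
theorem convC {M M' : ℂ → ℂ} {Mb L ε : ℝ} (hM : MOk M M' Mb L ε) (q : ℂ) :
    ∃ C : ℝ, 0 ≤ C ∧ ∀ (β : ℂ → ℂ) (R a A x₁ : ℝ) (W : ℂ → ℝ), ExtR β R → 0 < a → a < 1 →
      Real.log (tau a) < x₁ → x₁ ≤ -1 → 8 * Real.exp (-A) ≤ 1 → 184 * Real.exp (-A) ≤ ε →
      Continuous W → (∀ z, 0 ≤ W z) → (∀ z, W z ≤ 1) →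
      (∀ z, W z ≠ 0 → ‖z‖ < 1 ∧ Real.exp x₁ < ‖1 - z‖ / ‖1 + z‖ ∧
        ‖1 - z‖ / ‖1 + z‖ ≤ Real.exp (-A)) →
      |II x₁ (-1) (fun ξ η => W (zf (pt ξ η)) * MtC M q (Xf β a) ξ η) -
        ∫ z0 : ℂ, W z0 * (Mh M' β z0 * (kA β a z0 - q * omp 0 z0 ^ 2)).re| ≤
        C * (1 + Real.exp (-A) * II x₁ (-1) (fun ξ η => ‖Xf β a (pt ξ η) - 1‖ ^ 2)) := by
  obtain ⟨C₀, hC₀⟩ : ∃ C₀ : ℝ, C₀ = (164 * L + 8 * Mb) * (2 + ‖1 - q‖) := ⟨_, rfl⟩
  have hL := hM.L0
  have hMb := hM.Mb0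
  have hC0 : 0 ≤ C₀ := by rw [hC₀]; (clear * - hL hMb; positivity)
  refine ⟨C₀ * (π + 1), mul_nonneg hC0 (by positivity), ?_⟩
  intro β R a A x₁ W hβ ha ha1 hx1 hx hA1 hA2 hWc hW0 hW1 hWs
  have hxm : (-1:ℝ) < 0 := by norm_num
  have hX : NiceX (Xf β a) x₁ (-1) := Pool.Agent.Helper67.EK.E1c hβ ha ha1 hx1 hxm
  have hexpA := Real.exp_pos (-A)
  have hAm : Real.exp (-A) < Real.exp (-1) := by
    have h4 : (0.36787944116:ℝ) < Real.exp (-1) := Real.exp_neg_one_gt_d9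
    (clear * - hA1 h4; linarith only [hA1, h4])
  have himg : ∀ z, W z ≠ 0 → z ∈ zf '' SR x₁ (-1) := fun z hz => by
    obtain ⟨h1, h2, h3⟩ := hWs z hz
    exact mem_image_zf h1 h2 (h3.trans_lt hAm)
  -- the support in the strip
  have hsup : ∀ ω ∈ SR x₁ (-1), W (zf ω) ≠ 0 → Real.exp ω.re ≤ Real.exp (-A) := by
    intro ω hω h0
    obtain ⟨_, _, h3⟩ := hWs _ h0
    have e1 := Pool.Agent.Helper86.EK.exp_ne_neg_I (SR_sub _ _ hω)
    have e2 : ‖1 - zf ω‖ / ‖1 + zf ω‖ = Real.exp ω.re := by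
      rw [← norm_div]
      have e3 : (1 - zf ω) / (1 + zf ω) = Complex.exp ω / I := by
        have h5 : 1 - zf ω = 2 * Complex.exp ω / (I + Complex.exp ω) := by
          unfold zf
          field_simp
          ring
        have h6 : 1 + zf ω = 2 * I / (I + Complex.exp ω) := by
          unfold zf
          field_simp
          ring
        rw [h5, h6]
        (clear * - e1; field_simp)
      rw [e3, norm_div, Complex.norm_I, div_one, Complex.norm_exp]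
    rwa [e2] at h3
  -- continuity
  have hzc : ContinuousOn zf (Rect x₁ (-1)) := fun ω hω =>
    (Pool.Agent.Helper86.EK.hasDerivAt_zf
      (Pool.Agent.Helper86.EK.exp_ne_neg_I hω)).continuousAt.continuousWithinAt
  have cX := hX.an.continuousOn
  have cY := hX.an.deriv.continuousOn
  have ce : Continuous fun ω : ℂ => e0 (Real.sin ω.im) (Real.cos ω.im) := by
    unfold e0
    fun_prop
  have cm : ContinuousOn (fun ω : ℂ => mX (Xf β a ω) (deriv (Xf β a) ω) (Real.sin ω.im)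
      (Real.cos ω.im)) (Rect x₁ (-1)) := by
    unfold mX
    exact ((continuousOn_const.add ce.continuousOn).mul
      (((continuousOn_const.mul cX).sub continuousOn_const).add (cY.div cX hX.ne))).sub
      continuousOn_const
  have c1 : ContinuousOn (fun ω : ℂ => W (zf ω) * (M (mX (Xf β a ω) (deriv (Xf β a) ω)
      (Real.sin ω.im) (Real.cos ω.im)) * e0 (Real.sin ω.im) (Real.cos ω.im) *
      (Xf β a ω ^ 2 - q)).re) (Rect x₁ (-1)) := by
    refine (hWc.comp_continuousOn hzc).mul (Complex.continuous_re.comp_continuousOn ?_)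
    exact ((hM.cont.comp_continuousOn cm).mul ce.continuousOn).mul
      ((cX.pow 2).sub continuousOn_const)
  have cE : ContinuousOn (fun ω : ℂ => C₀ * (Real.exp ω.re + Real.exp (-A) *
      ‖Xf β a ω - 1‖ ^ 2)) (Rect x₁ (-1)) := by
    refine continuousOn_const.mul (ContinuousOn.add (by fun_prop)
      (continuousOn_const.mul ((cX.sub continuousOn_const).norm.pow 2)))
  have hz1 : ∀ ω ∈ SR x₁ (-1), 0 < ‖zf ω‖ ∧ ‖zf ω‖ < 1 := by
    intro ω hω
    refine ⟨norm_pos_iff.2 (Pool.Agent.Helper86.EK.zf_ne_zero hxm (SR_sub _ _ hω)), ?_⟩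
    apply Pool.Agent.Helper86.EK.norm_zf_lt
    rw [Complex.exp_im]
    exact mul_pos (Real.exp_pos _) (Real.sin_pos_of_pos_of_lt_pi hω.2.1 hω.2.2)
  have hzd0 : ∀ ω ∈ Rect x₁ (-1), zd ω ≠ 0 := by
    intro ω hω
    have h1 := Pool.Agent.Helper86.EK.exp_ne_neg_I hω
    unfold zd
    refine div_ne_zero (mul_ne_zero (mul_ne_zero (by norm_num) Complex.I_ne_zero)
      (Complex.exp_ne_zero _)) (pow_ne_zero 2 (by rwa [add_comm]))
  have czd : ContinuousOn zd (Rect x₁ (-1)) := by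
    unfold zd
    apply ContinuousOn.div (by fun_prop) (by fun_prop)
    intro ω hω
    apply pow_ne_zero
    rw [add_comm]
    exact Pool.Agent.Helper86.EK.exp_ne_neg_I hω
  have c2 : ContinuousOn (fun ω : ℂ => ‖zd ω‖ ^ 2 * (W (zf ω) * (Mh M' β (zf ω) *
      (kA β a (zf ω) - q * omp 0 (zf ω) ^ 2)).re)) (SR x₁ (-1)) := by
    have c3 : ContinuousOn (fun ω : ℂ => ‖zd ω‖ ^ 2 * (W (zf ω) * (Mh M' β (zf ω) *
      ((Xf β a ω ^ 2 - q) / zd ω ^ 2)).re)) (SR x₁ (-1)) := by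
      have s := SR_sub x₁ (-1)
      refine ((czd.mono s).norm.pow 2).mul ((hWc.comp_continuousOn (hzc.mono s)).mul
        (Complex.continuous_re.comp_continuousOn ?_))
      refine ((Mh_cont hM hβ.toExt).comp (hzc.mono s) hz1).mul ?_
      refine ((((cX.mono s).pow 2).sub continuousOn_const)).div ((czd.mono s).pow 2) ?_
      intro ω hω
      exact pow_ne_zero 2 (hzd0 ω (s hω))
    refine c3.congr fun ω hω => ?_
    simp only
    rw [X_sqC (Pool.Agent.Helper86.EK.exp_ne_neg_I (SR_sub _ _ hω)),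
      mul_div_cancel_left₀ _ (pow_ne_zero 2 (hzd0 ω (SR_sub _ _ hω)))]
  -- the comparison
  have k1 := int_diff c1 c2 cE (by
    intro ω hω
    by_cases h0 : W (zf ω) = 0
    · rw [h0]
      simp only [zero_mul, mul_zero, sub_zero, abs_zero]
      exact mul_nonneg hC0 (by (clear * -; positivity))
    · have h1 := hsup ω hω h0
      have e1 : pt ω.re ω.im = ω := by
        rw [Pool.Agent.Helper86.EK.pt_eq]
      have h2 := cmpC hM q hβ.toExt ha ha1 (ξ := ω.re) (η := ω.im) hω.2.1 hω.2.2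
        (hx1.trans hω.1.1) (by (clear * - hA1 h1; linarith only [hA1, h1])) (by linarith)
      unfold MtC at h2
      rw [e1, ← hC₀] at h2
      have e2 : ∀ A B : ℝ, W (zf ω) * A - ‖zd ω‖ ^ 2 * (W (zf ω) * B) =
          W (zf ω) * (A - ‖zd ω‖ ^ 2 * B) := fun A B => by ring
      rw [e2, abs_mul, abs_of_nonneg (hW0 _)]
      refine (mul_le_mul_of_nonneg_right (hW1 _) (abs_nonneg _)).trans ?_
      rw [one_mul]
      refine h2.trans (mul_le_mul_of_nonneg_left ?_ hC0)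
      rw [mul_add, mul_one]
      exact add_le_add le_rfl (mul_le_mul_of_nonneg_right h1 (sq_nonneg _)))
  -- the integrals
  have e1 : II x₁ (-1) (fun ξ η => W (zf (pt ξ η)) * MtC M q (Xf β a) ξ η) =
      ∫ ω in SR x₁ (-1), W (zf ω) * (M (mX (Xf β a ω) (deriv (Xf β a) ω)
      (Real.sin ω.im) (Real.cos ω.im)) * e0 (Real.sin ω.im) (Real.cos ω.im) *
      (Xf β a ω ^ 2 - q)).re := by
    have h1 := Pool.Agent.Helper86.EK.II_eq hx c1
    rw [SR, ← h1]
    simp only [Pool.Agent.Helper97.EK.pt_im]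
    rfl
  have e2 : ∫ z0 : ℂ, W z0 * (Mh M' β z0 * (kA β a z0 - q * omp 0 z0 ^ 2)).re =
      ∫ ω in SR x₁ (-1), ‖zd ω‖ ^ 2 * (W (zf ω) * (Mh M' β (zf ω) *
      (kA β a (zf ω) - q * omp 0 (zf ω) ^ 2)).re) := by
    refine chg (g := fun z0 => W z0 * (Mh M' β z0 * (kA β a z0 - q * omp 0 z0 ^ 2)).re)
      fun z hz => ?_
    by_cases h0 : W z = 0
    · simp only [h0, zero_mul]
    · exact absurd (himg z h0) hz
  have e3 : ∫ ω in SR x₁ (-1), C₀ * (Real.exp ω.re + Real.exp (-A) * ‖Xf β a ω - 1‖ ^ 2) ≤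
      C₀ * (π + 1) * (1 + Real.exp (-A) * II x₁ (-1) (fun ξ η => ‖Xf β a (pt ξ η) - 1‖ ^ 2)) := by
    have hK : IsCompact (Rect x₁ (-1)) := isCompact_Icc.reProdIm isCompact_Icc
    have c5 : ContinuousOn (fun ω : ℂ => ‖Xf β a ω - 1‖ ^ 2) (Rect x₁ (-1)) :=
      (cX.sub continuousOn_const).norm.pow 2
    have c6 : ContinuousOn (fun ω : ℂ => Real.exp ω.re) (Rect x₁ (-1)) := by fun_prop
    have i5 : IntegrableOn (fun ω : ℂ => ‖Xf β a ω - 1‖ ^ 2) (SR x₁ (-1)) :=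
      (c5.integrableOn_compact hK).mono_set (SR_sub _ _)
    have i6 : IntegrableOn (fun ω : ℂ => Real.exp ω.re) (SR x₁ (-1)) :=
      (c6.integrableOn_compact hK).mono_set (SR_sub _ _)
    have h5 := Pool.Agent.Helper86.EK.II_eq hx c5
    have h6 := Pool.Agent.Helper86.EK.II_eq hx c6
    rw [integral_const_mul, integral_add i6 (i5.const_mul _), integral_const_mul]
    have h5' : ∫ ω in SR x₁ (-1), ‖Xf β a ω - 1‖ ^ 2 =
        II x₁ (-1) (fun ξ η => ‖Xf β a (pt ξ η) - 1‖ ^ 2) := h5.symm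
    have h6' : ∫ ω in SR x₁ (-1), Real.exp ω.re ≤ π := by
      have h7 : ∫ ω in SR x₁ (-1), Real.exp ω.re = II x₁ (-1) fun ξ η => Real.exp ξ := by
        rw [SR, ← h6]
        simp only [Pool.Agent.Helper97.EK.pt_re]
      rw [h7]
      unfold II
      simp only [intervalIntegral.integral_const, sub_zero, smul_eq_mul]
      rw [intervalIntegral.integral_const_mul, integral_exp]
      have h8 : Real.exp (-1) < 0.3678794412 := Real.exp_neg_one_lt_d9
      have := Real.exp_pos x₁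
      (clear * - h8 this; nlinarith only [Real.pi_pos, h8, this])
    rw [h5', mul_assoc]
    refine mul_le_mul_of_nonneg_left ?_ hC0
    have hnn : 0 ≤ II x₁ (-1) (fun ξ η => ‖Xf β a (pt ξ η) - 1‖ ^ 2) := by
      rw [← h5']
      exact integral_nonneg fun _ => sq_nonneg _
    have := mul_nonneg hexpA.le hnn
    nlinarith only [Real.pi_pos, h6', this]
  rw [e1, e2]
  exact k1.trans e3

/-- **rotation of the multiplier term** -/
theorem MC_rot (κ dl : ℝ) (u : ℂ) (W0 : ℂ → ℝ) (M' β : ℂ → ℂ) (x θ : ℝ) :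
    Pool.Agent.Helper97.CKC.MC κ dl u W0 (Mh M' β) β x θ = π⁻¹ * ∫ z : ℂ, W0 (Complex.exp (θ * I) * z) *
      (Mh M' (rotβ β θ) z * (kA (rotβ β θ) ((Real.exp (-x) : ℝ) : ℂ) z -
        Pool.Agent.Helper97.CKC.tau κ dl u * omp 0 z ^ 2)).re := by
  unfold Pool.Agent.Helper97.CKC.MC
  rw [← integral_rot θ]
  congr 1
  refine integral_congr_ae (Filter.Eventually.of_forall fun z => ?_)
  simp only
  rw [Mh_rot, kA_rot, omp_rot θ, ep_eq]
  have h := conj_exp_mul θ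
  congr 2
  have e : ∀ A B C D E : ℂ, E * D = 1 →
      B * (A - C) = E ^ 2 * B * (D ^ 2 * A - D ^ 2 * C) := by
    intro A B C D E h
    linear_combination (-(B * (A - C)) * (E * D + 1)) * h
  have e1 := e (kA β (Complex.exp (θ * I) * ((Real.exp (-x) : ℝ) : ℂ)) (Complex.exp (θ * I) * z))
    (Mh M' β (Complex.exp (θ * I) * z)) (Pool.Agent.Helper97.CKC.tau κ dl u *
      omp θ (Complex.exp (θ * I) * z) ^ 2) (Complex.exp (θ * I)) (conj (Complex.exp (θ * I))) h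
  rw [e1]
  ring

end Pool.Agent.Helper69.CK

end
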