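import Pool.Agent.Helper14.CMF.T17
import Pool.Agent.Helper14.CMF.T15
import Pool.Agent.Helper14.CMF.T18

set_option linter.all false

section

namespace Pool.Sos71
end Pool.Sos71
namespace Pool.EK71
end Pool.EK71
namespace Pool.Agent.Helper52.EK
end Pool.Agent.Helper52.EK
namespace Pool.Agent.Helper2.EK
end Pool.Agent.Helper2.EK
namespace Pool.Agent.Helper69.EK3
end Pool.Agent.Helper69.EK3
namespace Pool.Agent.Helper69.EK5
end Pool.Agent.Helper69.EK5
namespace Pool.Agent.Helper71.EK3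
end Pool.Agent.Helper71.EK3
namespace Pool.Agent.Helper71.EKC
end Pool.Agent.Helper71.EKC

set_option autoImplicit false

open Complex MeasureTheory Metric Set

open scoped Real ComplexConjugate

namespace Pool.Agent.Helper69.EK7

open Pool.Sos71

open Pool.EK71 Pool.Agent.Helper52.EK Pool.Agent.Helper2.EK

open Pool.Agent.Helper69.EK3

open Pool.Agent.Helper69.EK5 (DQ Dd Dd_pos Dd_low DL e_D qX qY Rr c1_Rr Dn Dn_ev normsq_sub_one)

open Pool.Agent.Helper71.EK3 (xL yL e_x e_y)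

open Pool.Agent.Helper71.EKC (e_sb sb2)

/-- `ader (ash (w + 1) 0 g) = S^w adw w g` -/
def adw (w : ℕ) : AP → AP
  | [] => []
  | (c, i, j) :: g => (Int.mul c (Int.ofNat (w + 1 + i)), i, j + 1) ::
      ((match j with
        | 0 => []
        | j' + 1 => [(Int.mul (-c) (Int.ofNat (j' + 1)), i + 2, j')]) ++ adw w g)

theorem aev_adw (S C : ℝ) (w : ℕ) (g : AP) :
    aev S C (ader (ash (w + 1) 0 g)) = S ^ w * aev S C (adw w g) := by
  induction g with
  | nil => simp [ader, ash, adw, aev]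
  | cons t g ih =>
    obtain ⟨c, i, j⟩ := t
    have e : i + (w + 1) = (i + w) + 1 := by omega
    cases j with
    | zero =>
      simp only [ash, e, ader, adw, List.cons_append, List.nil_append, aev, imul_cast',
        ofNat_cast', add_zero]
      rw [mul_add, ← ih]
      push_cast
      ring
    | succ j =>
      simp only [ash, e, ader, adw, List.cons_append, List.nil_append, aev, imul_cast',
        ofNat_cast', add_zero]
      rw [mul_add, mul_add, ← ih]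
      push_cast
      simp only [Nat.succ_eq_add_one]
      ring

theorem af_adw (w : ℕ) (g : AP) (η : ℝ) :
    af (ader (ash (w + 1) 0 g)) η = Real.sin (η / 2) ^ w * af (adw w g) η := by
  unfold af
  rw [aev_adw]

theorem af_ashw (w : ℕ) (g : AP) (η : ℝ) :
    af (ash (w + 1) 0 g) η = Real.sin (η / 2) ^ (w + 1) * af g η := by
  unfold af
  rw [aev_ash]
  ring

/-- the potentials `2 S g (M₁ + i M₂) / D^k P^j conj(P)^n ρ^e`, `(g, M₁, M₂) ∈ l` -/
structure Grp where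
  j : ℕ
  n : ℕ
  e : ℕ
  k : ℕ
  l : List (AP × BP × BP)

/-- the weight of the jet factor -/
def Grp.w (G : Grp) : ℕ := G.j + G.n + 2 * G.e

noncomputable def qF (X : ℂ → ℂ) (ω : ℂ) : ℂ := deriv X ω / X ω

noncomputable def qR (X : ℂ → ℂ) (ω : ℂ) : ℂ :=
  deriv (deriv X) ω / X ω - (deriv X ω / X ω) ^ 2

noncomputable def fG (j e : ℕ) (X : ℂ → ℂ) (ω : ℂ) : ℂ := qF X ω ^ j * qR X ω ^ e

noncomputable def HC (a : DQ) (k : ℕ) (M1 M2 : BP) (X : ℂ) : ℂ :=
  (Rr a k M1 X : ℂ) + I * (Rr a k M2 X : ℂ)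

theorem c1_HC (a : DQ) (k : ℕ) (M1 M2 : BP) : C1c (HC a k M1 M2)
    (HC a (k + 1) (qX a k M1) (qX a k M2)) (HC a (k + 1) (qY a k M1) (qY a k M2)) := by
  have h1 := C1c_real (c1_Rr a k M1)
  have h2 := C1c_I (c1_Rr a k M2)
  refine ⟨fun X hX => ?_, h1.cx.add h2.cx, h1.cy.add h2.cy⟩
  refine ((h1.hd X hX).add (h2.hd X hX)).congr_fderiv ?_
  ext v
  simp [HC]
  ring

theorem s_half {η : ℝ} (hη : η ∈ Icc (0:ℝ) (π / 2)) :
    0 ≤ Real.sin (η / 2) ∧ Real.sin (η / 2) ≤ 1 ∧ Real.sin (η / 2) ≤ Real.sin η ∧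
      0 ≤ Real.cos (η / 2) ∧ Real.cos (η / 2) ≤ 1 := by
  have hp := Real.pi_pos
  obtain ⟨h0, h1, _⟩ := EK6.half_le hη
  exact ⟨h0, Real.sin_le_one _, h1, Real.cos_nonneg_of_neg_pi_div_two_le_of_le
    (by linarith only [hη.1, hp]) (by (clear * - hη hp; linarith only [hη.2, hp])), Real.cos_le_one _⟩

/-- growth of one potential -/
theorem Rr_gr (a : DQ) (k m : ℕ) (M : BP) (h : dle (2 * k + 2 + m) M = true) :
    ∃ C : ℝ, 0 ≤ C ∧ ∀ (X : ℂ) (S : ℝ), 0 ≤ S → S ≤ 1 → S * ‖X - 1‖ ≤ 10 →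
      S ^ m * |Rr a k M X| ≤ C * (1 + ‖X - 1‖ ^ 2) := by
  obtain ⟨c, hc, hl⟩ := Dd_low a
  refine ⟨nr2 M * 11 ^ m * c ^ k, mul_nonneg (mul_nonneg (nr2_nonneg M) (by positivity))
    (by positivity), fun X S hS0 hS1 hSX => ?_⟩
  have e := normsq_sub_one X
  obtain ⟨T, hT⟩ : ∃ T, T = Real.sqrt (1 + ‖X - 1‖ ^ 2) := ⟨_, rfl⟩
  have hT2 : T ^ 2 = 1 + ‖X - 1‖ ^ 2 := by
    rw [hT]
    exact Real.sq_sqrt (by (clear * -; positivity))
  have hT0 : 0 ≤ T := by rw [hT]; exact Real.sqrt_nonneg _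
  have hT1 : 1 ≤ T := by
    have : (1:ℝ) ^ 2 ≤ T ^ 2 := by rw [hT2]; (clear * -; nlinarith only [])
    exact le_of_sq_le_sq this hT0
  have hT3 : T ≤ 1 + ‖X - 1‖ := by
    refine le_of_sq_le_sq ?_ (by (clear * -; positivity))
    rw [hT2]
    (clear * -; linarith only [norm_nonneg (X - 1)])
  have hx : |X.re - 1| ≤ T := by
    refine le_of_sq_le_sq ?_ hT0
    rw [sq_abs, hT2, e]
    (clear * -; nlinarith only [])
  have hy : |X.im| ≤ T := by
    refine le_of_sq_le_sq ?_ hT0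
    rw [sq_abs, hT2, e]
    nlinarith only []
  have h1 := ev2_le' hT1 hx hy _ M h
  have hD : 1 + ‖X - 1‖ ^ 2 ≤ c * Dd a X.re X.im := by
    rw [e]
    exact hl X.re X.im
  have hDp := Dd_pos a X.re X.im
  have hST : S * T ≤ 11 := by
    calc S * T ≤ S * (1 + ‖X - 1‖) := mul_le_mul_of_nonneg_left hT3 hS0
      _ = S + S * ‖X - 1‖ := by ring
      _ ≤ 11 := by linarith
  have hSTm : (S * T) ^ m ≤ 11 ^ m := pow_le_pow_left₀ (mul_nonneg hS0 hT0) hST m
  have hTD : T ^ (2 * k) ≤ c ^ k * Dd a X.re X.im ^ k := by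
    rw [pow_mul, hT2, ← mul_pow]
    exact pow_le_pow_left₀ (by (clear * -; positivity)) hD k
  have hn := nr2_nonneg M
  unfold Rr
  rw [abs_div, abs_of_pos (pow_pos hDp k), ← mul_div_assoc, div_le_iff₀ (pow_pos hDp k)]
  calc S ^ m * |ev2 (X.re - 1) X.im M| ≤ S ^ m * (nr2 M * T ^ (2 * k + 2 + m)) :=
        mul_le_mul_of_nonneg_left h1 (pow_nonneg hS0 m)
    _ = nr2 M * (S * T) ^ m * T ^ (2 * k) * (1 + ‖X - 1‖ ^ 2) := by
        rw [← hT2, mul_pow]
        ring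
    _ ≤ nr2 M * 11 ^ m * (c ^ k * Dd a X.re X.im ^ k) * (1 + ‖X - 1‖ ^ 2) := by
        gcongr
    _ = nr2 M * 11 ^ m * c ^ k * (1 + ‖X - 1‖ ^ 2) * Dd a X.re X.im ^ k := by ring

theorem HC_gr1 (a : DQ) (k m : ℕ) (M1 M2 : BP) (h : dle (2 * k + 2 + m) M1 = true)
    (h' : dle (2 * k + 2 + m) M2 = true) :
    ∃ C : ℝ, 0 ≤ C ∧ ∀ (X : ℂ) (S : ℝ), 0 ≤ S → S ≤ 1 → S * ‖X - 1‖ ≤ 10 →
      S ^ m * ‖HC a k M1 M2 X‖ ≤ C * (1 + ‖X - 1‖ ^ 2) := by
  obtain ⟨C₁, h1, k1⟩ := Rr_gr a k m M1 h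
  obtain ⟨C₂, h2, k2⟩ := Rr_gr a k m M2 h'
  refine ⟨C₁ + C₂, add_nonneg h1 h2, fun X S a1 a2 a3 => ?_⟩
  have e : ‖HC a k M1 M2 X‖ ≤ |Rr a k M1 X| + |Rr a k M2 X| := by
    unfold HC
    refine (norm_add_le _ _).trans (add_le_add ?_ ?_)
    · rw [norm_real, Real.norm_eq_abs]
    · rw [norm_mul, norm_I, one_mul, norm_real, Real.norm_eq_abs]
  have h3 := mul_le_mul_of_nonneg_left e (pow_nonneg a1 m)
  have h4 := k1 X S a1 a2 a3
  have h5 := k2 X S a1 a2 a3
  rw [mul_add] at h3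
  rw [add_mul]
  (clear * - h3 h4 h5; linarith)

/-- the angular factor -/
noncomputable def aT (w : ℕ) (g : AP) (η : ℝ) : ℝ := 2 * af (ash (w + 1) 0 g) η

theorem hd_aT (w : ℕ) (g : AP) (η : ℝ) :
    HasDerivAt (aT w g) (af (ader (ash (w + 1) 0 g)) η) η := by
  refine ((af_hasDerivAt (ash (w + 1) 0 g) η).const_mul 2).congr_deriv ?_
  ring

end Pool.Agent.Helper69.EK7

end

section

namespace Pool.Sos71
end Pool.Sos71
namespace Pool.EK71
end Pool.EK71
namespace Pool.Agent.Helper52.EK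
end Pool.Agent.Helper52.EK
namespace Pool.Agent.Helper2.EK
end Pool.Agent.Helper2.EK
namespace Pool.Agent.Helper69.EK3
end Pool.Agent.Helper69.EK3
namespace Pool.Agent.Helper69.EK5
end Pool.Agent.Helper69.EK5
namespace Pool.Agent.Helper71.EK3
end Pool.Agent.Helper71.EK3
namespace Pool.Agent.Helper71.EKC
end Pool.Agent.Helper71.EKC

set_option autoImplicit false

open Complex MeasureTheory Metric Set

open scoped Real ComplexConjugate

namespace Pool.Agent.Helper69.EK7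

open Pool.Sos71

open Pool.EK71 Pool.Agent.Helper52.EK Pool.Agent.Helper2.EK

open Pool.Agent.Helper69.EK3

open Pool.Agent.Helper69.EK5 (DQ Dd Dd_pos Dd_low DL e_D qX qY Rr c1_Rr Dn Dn_ev normsq_sub_one)

open Pool.Agent.Helper71.EK3 (xL yL e_x e_y)

open Pool.Agent.Helper71.EKC (e_sb sb2)

namespace CE

/-- sums over lists -/
def sumC {ι : Type} (f : ι → CE) : List ι → CE
  | [] => ⟨Ex.lit 0, Ex.lit 0⟩
  | [t] => f t
  | t :: s :: L => add (f t) (sumC f (s :: L))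

theorem v_sumC {ι : Type} (x : Pnt9) (f : ι → CE) (L : List ι) :
    v x (sumC f L) = (L.map fun t => v x (f t)).sum := by
  induction L with
  | nil =>
    apply Complex.ext
    · simp [v, sumC, re9]
    · simp [v, sumC, re9]
  | cons t L ih =>
    cases L with
    | nil => simp [sumC]
    | cons s L =>
      rw [sumC, v_add, ih]
      simp

/-- products of lists -/
def prodC : List CE → CE
  | [] => ⟨Ex.lit 1, Ex.lit 0⟩
  | [a] => a
  | a :: b :: L => mul a (prodC (b :: L))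

theorem v_prodC (x : Pnt9) (L : List CE) : v x (prodC L) = (L.map fun a => v x a).prod := by
  induction L with
  | nil =>
    apply Complex.ext
    · simp [v, prodC, re9]
    · simp [v, prodC, re9]
  | cons a L ih =>
    cases L with
    | nil => simp [prodC]
    | cons b L =>
      rw [prodC, v_mul, ih]
      simp

end CE

/-- `P^j conj(P)^n ρ^e` -/
def cQ (j n e : ℕ) : CE :=
  CE.prodC (List.replicate j cP ++ (List.replicate n (CE.cj cP) ++ List.replicate e cR))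

theorem v_cQ (x : Pnt9) (j n e : ℕ) : CE.v x (cQ j n e) =
    CE.v x cP ^ j * conj (CE.v x cP) ^ n * CE.v x cR ^ e := by
  rw [cQ, CE.v_prodC]
  simp only [List.map_append, List.map_replicate, List.prod_append, List.prod_replicate,
    CE.v_cj]
  ring

section

variable (a : DQ) (K k : ℕ)

def cM (m : ℕ) (M1 M2 : BP) : CE := ⟨Ex.bp (mu2 M1 (Dn a m)), Ex.bp (mu2 M2 (Dn a m))⟩

/-- the numerator of `conj(X) (H_x + i H_y)` times `D^m` -/
def cB (m : ℕ) (M1 M2 : BP) : CE :=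
  ⟨Ex.bp (mu2 (ad2 (mu2 xL (sb2 (qX a k M1) (qY a k M2)))
      (mu2 yL (ad2 (qX a k M2) (qY a k M1)))) (Dn a m)),
    Ex.bp (mu2 (sb2 (mu2 xL (ad2 (qX a k M2) (qY a k M1)))
      (mu2 yL (sb2 (qX a k M1) (qY a k M2)))) (Dn a m))⟩

def tA (w : ℕ) (t : AP × BP × BP) : CE :=
  CE.mI (CE.rm (apE (adw w t.1)) (cM a (K - k) t.2.1 t.2.2))

def tB (t : AP × BP × BP) : CE :=
  CE.rm (Ex.sc 2 (apE t.1)) (cB a k (K - k - 1) t.2.1 t.2.2)

def tC (n : ℕ) (t : AP × BP × BP) : CE :=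
  CE.rm (Ex.sc (4 * Int.ofNat n) (apE t.1)) (cM a (K - k) t.2.1 t.2.2)

end

/-- the expression of a group, times `D^K` -/
def EGr (a : DQ) (K : ℕ) (G : Grp) : Ex :=
  let s := CE.add (CE.sumC (tA a K G.k G.w) G.l) (CE.mul (CE.cj cP) (CE.sumC (tB a K G.k) G.l))
  match G.n with
  | 0 => (match G.j, G.e with
    | 0, 0 => s.r
    | j, e => (CE.mul (cQ j 0 e) s).r)
  | n + 1 => Ex.add (CE.mul (cQ G.j (n + 1) G.e) s).r
      (CE.mul (CE.mul (cQ G.j n G.e) (CE.cj cR)) (CE.sumC (tC a K G.k (n + 1)) G.l)).r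

noncomputable def Npc (a : DQ) (G : Grp) (t : AP × BP × BP) (X Y Z : ℂ) (η : ℝ) : ℂ :=
  I * ((Real.sin (η / 2) ^ G.w * af (adw G.w t.1) η : ℝ) : ℂ) * HC a G.k t.2.1 t.2.2 X *
      ((Y / X) ^ G.j * (Z / X - (Y / X) ^ 2) ^ G.e) * conj ((Y / X) ^ G.n) +
    ((aT G.w t.1 η : ℝ) : ℂ) * ((HC a (G.k + 1) (qX a G.k t.2.1) (qX a G.k t.2.2) X +
      I * HC a (G.k + 1) (qY a G.k t.2.1) (qY a G.k t.2.2) X) * conj Y) *
      ((Y / X) ^ G.j * (Z / X - (Y / X) ^ 2) ^ G.e) * conj ((Y / X) ^ G.n) +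
    2 * (((aT G.w t.1 η : ℝ) : ℂ) * HC a G.k t.2.1 t.2.2 X *
      ((Y / X) ^ G.j * (Z / X - (Y / X) ^ 2) ^ G.e) *
      conj (G.n * ((Y / X) ^ (G.n - 1) * (Z / X - (Y / X) ^ 2))))

section

variable (l η : ℝ) (X Y Z w : ℂ)

theorem re9_mo (x : Pnt9) (c : ℤ) (i j : ℕ) :
    re9 x (moE c i j) = c * (x.t.b ^ i * x.t.c ^ j) := rfl

theorem re9_ap (x : Pnt9) (g : AP) : re9 x (apE g) = aev x.t.b x.t.c g := by
  induction g with
  | nil => simp [apE, aev, re9]
  | cons t g ih =>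
    obtain ⟨c, i, j⟩ := t
    cases g with
    | nil =>
      simp only [apE, aev, re9_mo]
      ring
    | cons t' g =>
      have : re9 x (apE ((c, i, j) :: t' :: g)) = re9 x (moE c i j) +
        re9 x (apE (t' :: g)) := rfl
      rw [this, ih, re9_mo]
      rfl

theorem re9_apf (g : AP) : re9 (px9 l η X Y Z w) (apE g) = af g η := by
  rw [re9_ap]
  rfl

theorem v_cM (a : DQ) (m : ℕ) (M1 M2 : BP) : CE.v (px9 l η X Y Z w) (cM a m M1 M2) =
    (Dd a X.re X.im ^ m : ℝ) * ((ev2 (X.re - 1) X.im M1 : ℝ) +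
      I * (ev2 (X.re - 1) X.im M2 : ℝ)) := by
  apply Complex.ext
  · simp only [CE.v, cM, re9, ev2_mu]
    rw [show (px9 l η X Y Z w).t.f = X.re - 1 from rfl,
      show (px9 l η X Y Z w).t.g = X.im from rfl, Dn_ev]
    simp only [mul_re, mul_im, add_re, add_im, ofReal_re, ofReal_im, I_re, I_im]
    ring
  · simp only [CE.v, cM, re9, ev2_mu]
    rw [show (px9 l η X Y Z w).t.f = X.re - 1 from rfl,
      show (px9 l η X Y Z w).t.g = X.im from rfl, Dn_ev]
    simp only [mul_re, mul_im, add_re, add_im, ofReal_re, ofReal_im, I_re, I_im]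
    ring

theorem v_cB (a : DQ) (k m : ℕ) (M1 M2 : BP) : CE.v (px9 l η X Y Z w) (cB a k m M1 M2) =
    (Dd a X.re X.im ^ m : ℝ) * (conj X * (((ev2 (X.re - 1) X.im (qX a k M1) : ℝ) +
      I * (ev2 (X.re - 1) X.im (qX a k M2) : ℝ)) + I * ((ev2 (X.re - 1) X.im (qY a k M1) : ℝ) +
      I * (ev2 (X.re - 1) X.im (qY a k M2) : ℝ)))) := by
  have e4 : (1:ℝ) + (X.re - 1) = X.re := by ring
  apply Complex.ext
  · simp only [CE.v, cB, re9, ev2_mu, ev2_ad, e_sb, e_x, e_y]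
    rw [show (px9 l η X Y Z w).t.f = X.re - 1 from rfl,
      show (px9 l η X Y Z w).t.g = X.im from rfl, Dn_ev, e4]
    simp only [mul_re, mul_im, add_re, add_im, ofReal_re, ofReal_im, I_re, I_im, conj_re,
      conj_im]
    ring
  · simp only [CE.v, cB, re9, ev2_mu, ev2_ad, e_sb, e_x, e_y]
    rw [show (px9 l η X Y Z w).t.f = X.re - 1 from rfl,
      show (px9 l η X Y Z w).t.g = X.im from rfl, Dn_ev, e4]
    simp only [mul_re, mul_im, add_re, add_im, ofReal_re, ofReal_im, I_re, I_im, conj_re,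
      conj_im]
    ring

end

/-- one potential -/
theorem EG1 (a : DQ) {K : ℕ} (G : Grp) (hK : G.k + 1 ≤ K) (t : AP × BP × BP) (l η : ℝ)
    {X : ℂ} (hX : X ≠ 0) (Y Z w : ℂ) :
    CE.v (px9 l η X Y Z w) (cQ G.j G.n G.e) * (CE.v (px9 l η X Y Z w) (tA a K G.k G.w t) +
      conj (CE.v (px9 l η X Y Z w) cP) * CE.v (px9 l η X Y Z w) (tB a K G.k t)) +
    CE.v (px9 l η X Y Z w) (cQ G.j (G.n - 1) G.e) * conj (CE.v (px9 l η X Y Z w) cR) *
      CE.v (px9 l η X Y Z w) (tC a K G.k G.n t) =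
    (Dd a X.re X.im ^ K : ℝ) * Npc a G t X Y Z η := by
  obtain ⟨m, rfl⟩ := Nat.exists_eq_add_of_le hK
  have hD : (Dd a X.re X.im : ℂ) ≠ 0 := by exact_mod_cast (Dd_pos a X.re X.im).ne'
  have e1 : G.k + 1 + m - G.k - 1 = m := by omega
  have e2 : G.k + 1 + m - G.k = m + 1 := by omega
  rw [v_cQ, v_cQ, v_cP, v_cR]
  unfold tA tB tC
  rw [CE.v_mI, CE.v_rm, CE.v_rm, CE.v_rm, v_cM, v_cB, re9_apf, e1, e2]
  have e3 : re9 (px9 l η X Y Z w) (Ex.sc 2 (apE t.1)) = 2 * af t.1 η := by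
    show ((2:ℤ) : ℝ) * re9 _ (apE t.1) = _
    rw [re9_apf]
    push_cast
    rfl
  have e4 : re9 (px9 l η X Y Z w) (Ex.sc (4 * Int.ofNat G.n) (apE t.1)) =
      4 * G.n * af t.1 η := by
    show ((4 * Int.ofNat G.n : ℤ) : ℝ) * re9 _ (apE t.1) = _
    rw [re9_apf]
    push_cast
    simp
  rw [e3, e4]
  unfold Npc aT HC Rr
  rw [af_ashw]
  obtain ⟨q, hq⟩ : ∃ q, q = Y / X := ⟨_, rfl⟩
  have hY : Y = q * X := by rw [hq]; (clear * - hX; field_simp)
  rw [← hq, hY]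
  generalize Z / X - q ^ 2 = r
  generalize Real.sin (η / 2) = S
  generalize af t.1 η = g
  generalize af (adw G.w t.1) η = g'
  generalize ev2 (X.re - 1) X.im (qX a G.k t.2.1) = x1
  generalize ev2 (X.re - 1) X.im (qX a G.k t.2.2) = x2
  generalize ev2 (X.re - 1) X.im (qY a G.k t.2.1) = y1
  generalize ev2 (X.re - 1) X.im (qY a G.k t.2.2) = y2
  generalize ev2 (X.re - 1) X.im t.2.1 = m1
  generalize ev2 (X.re - 1) X.im t.2.2 = m2
  generalize Dd a X.re X.im = D at hD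
  simp only [map_mul, map_pow, conj_ofReal, map_natCast]
  push_cast
  have hw : G.w = G.j + G.n + 2 * G.e := rfl
  rw [hw]
  generalize conj X = X'
  generalize conj q = q'
  generalize conj r = r'
  rcases Nat.eq_zero_or_pos G.n with hn | hn
  · rw [hn]
    simp only [Nat.cast_zero, mul_zero, zero_mul, add_zero, pow_zero, mul_one]
    field_simp
    ring
  · obtain ⟨n, hn⟩ : ∃ n, G.n = n + 1 := ⟨G.n - 1, by omega⟩
    rw [hn]
    simp only [Nat.add_sub_cancel]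
    field_simp
    ring

/-- the value of the expression of a group -/
theorem EGr_re (a : DQ) {K : ℕ} (G : Grp) (hK : G.k + 1 ≤ K) (l η : ℝ)
    {X : ℂ} (hX : X ≠ 0) (Y Z w : ℂ) :
    re9 (px9 l η X Y Z w) (EGr a K G) =
      Dd a X.re X.im ^ K * (G.l.map fun t => (Npc a G t X Y Z η).re).sum := by
  have key : ∀ L : List (AP × BP × BP),
      (CE.v (px9 l η X Y Z w) (cQ G.j G.n G.e) *
        ((L.map fun t => CE.v (px9 l η X Y Z w) (tA a K G.k G.w t)).sum +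
      conj (CE.v (px9 l η X Y Z w) cP) *
        (L.map fun t => CE.v (px9 l η X Y Z w) (tB a K G.k t)).sum) +
      CE.v (px9 l η X Y Z w) (cQ G.j (G.n - 1) G.e) * conj (CE.v (px9 l η X Y Z w) cR) *
        (L.map fun t => CE.v (px9 l η X Y Z w) (tC a K G.k G.n t)).sum).re =
      Dd a X.re X.im ^ K * (L.map fun t => (Npc a G t X Y Z η).re).sum := by
    intro L
    induction L with
    | nil => simp
    | cons t L ih =>
      simp only [List.map_cons, List.sum_cons]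
      rw [mul_add (Dd a X.re X.im ^ K), ← ih]
      have h1 := congrArg Complex.re (EG1 a G hK t l η hX Y Z w)
      rw [re_ofReal_mul] at h1
      rw [← h1, ← add_re]
      congr 1
      ring
  rw [← key G.l]
  have h0 : ∀ c : CE, re9 (px9 l η X Y Z w) c.r = (CE.v (px9 l η X Y Z w) c).re := fun _ => rfl
  rcases Nat.eq_zero_or_pos G.n with hn | hn
  · have e : re9 (px9 l η X Y Z w) (EGr a K G) = (CE.v (px9 l η X Y Z w) (cQ G.j 0 G.e) *
        CE.v (px9 l η X Y Z w) (CE.add (CE.sumC (tA a K G.k G.w) G.l)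
          (CE.mul (CE.cj cP) (CE.sumC (tB a K G.k) G.l)))).re := by
      rw [← CE.v_mul]
      unfold EGr
      rw [hn]
      rcases Nat.eq_zero_or_pos G.j with hj | hj
      · rcases Nat.eq_zero_or_pos G.e with he | he
        · rw [hj, he]
          simp only
          rw [h0, CE.v_mul, v_cQ]
          simp
        · obtain ⟨e, he⟩ : ∃ e, G.e = e + 1 := ⟨G.e - 1, by omega⟩
          rw [hj, he]
          rfl
      · obtain ⟨j, hj⟩ : ∃ j, G.j = j + 1 := ⟨G.j - 1, by omega⟩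
        rw [hj]
        rfl
    rw [e, CE.v_add, CE.v_mul, CE.v_cj, CE.v_sumC, CE.v_sumC, hn]
    congr 1
    have z : (G.l.map fun t => CE.v (px9 l η X Y Z w) (tC a K G.k 0 t)).sum = 0 := by
      apply List.sum_eq_zero
      intro y hy
      simp only [List.mem_map] at hy
      obtain ⟨t, _, rfl⟩ := hy
      unfold tC
      rw [CE.v_rm]
      have : re9 (px9 l η X Y Z w) (Ex.sc (4 * Int.ofNat 0) (apE t.1)) = 0 := by
        show ((4 * Int.ofNat 0 : ℤ) : ℝ) * _ = 0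
        simp
      rw [this]
      simp
    rw [z, mul_zero, add_zero]
  · obtain ⟨n, hn⟩ : ∃ n, G.n = n + 1 := ⟨G.n - 1, by omega⟩
    have e : re9 (px9 l η X Y Z w) (EGr a K G) = (CE.v (px9 l η X Y Z w) (cQ G.j (n + 1) G.e) *
        CE.v (px9 l η X Y Z w) (CE.add (CE.sumC (tA a K G.k G.w) G.l)
          (CE.mul (CE.cj cP) (CE.sumC (tB a K G.k) G.l))) +
        CE.v (px9 l η X Y Z w) (cQ G.j n G.e) * conj (CE.v (px9 l η X Y Z w) cR) *
          CE.v (px9 l η X Y Z w) (CE.sumC (tC a K G.k (n + 1)) G.l)).re := by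
      rw [← CE.v_cj, ← CE.v_mul, ← CE.v_mul, ← CE.v_mul, add_re, ← h0, ← h0]
      unfold EGr
      rw [hn]
      rfl
    rw [e, CE.v_add, CE.v_mul, CE.v_cj, CE.v_sumC, CE.v_sumC, CE.v_sumC, hn]
    rfl

end Pool.Agent.Helper69.EK7

end

section

namespace Pool.Sos71
end Pool.Sos71
namespace Pool.EK71
end Pool.EK71
namespace Pool.Agent.Helper52.EK
end Pool.Agent.Helper52.EK
namespace Pool.Agent.Helper2.EK
end Pool.Agent.Helper2.EK
namespace Pool.Agent.Helper69.EK3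
end Pool.Agent.Helper69.EK3
namespace Pool.Agent.Helper69.EK5
end Pool.Agent.Helper69.EK5
namespace Pool.Agent.Helper69.EK6
end Pool.Agent.Helper69.EK6
namespace Pool.Agent.Helper69.EK7
end Pool.Agent.Helper69.EK7
namespace Pool.Agent.Helper84.CK
end Pool.Agent.Helper84.CK
namespace Pool.Agent.Helper71.EKC
end Pool.Agent.Helper71.EKC

set_option autoImplicit false

open Complex MeasureTheory Metric Set

open scoped Real ComplexConjugate

namespace Pool.Agent.Helper71.CK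

open Pool.Sos71

open Pool.EK71 Pool.Agent.Helper52.EK Pool.Agent.Helper2.EK

open Pool.Agent.Helper69.EK3

open Pool.Agent.Helper69.EK5 (DQ Dd Dd_pos Dd_low DL e_D qX qY Rr c1_Rr Dn Dn_ev Rr_conj_even Rr_conj_odd Rs Dd_conj)

open Pool.Agent.Helper69.EK6 (px)

open Pool.Agent.Helper69.EK7 Pool.Agent.Helper84.CK

open Pool.Agent.Helper71.EKC (c1_conj)

def lowC (a : CE) : Bool := low a.r && low a.i

section

variable {a b : CE}

theorem lowC_iff : lowC a = true ↔ low a.r = true ∧ low a.i = true := by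
  simp [lowC]

theorem lowC_add (h : lowC a = true) (h' : lowC b = true) : lowC (CE.add a b) = true := by
  rw [lowC_iff] at *
  simp [CE.add, low, h, h']

theorem lowC_mul (h : lowC a = true) (h' : lowC b = true) : lowC (CE.mul a b) = true := by
  rw [lowC_iff] at *
  simp [CE.mul, low, h, h']

theorem lowC_cj (h : lowC a = true) : lowC (CE.cj a) = true := by
  rw [lowC_iff] at *
  simp [CE.cj, low, h]

theorem lowC_mI (h : lowC a = true) : lowC (CE.mI a) = true := by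
  rw [lowC_iff] at *
  simp [CE.mI, low, h]

theorem lowC_rm {p : Ex} (hp : low p = true) (h : lowC a = true) : lowC (CE.rm p a) = true := by
  rw [lowC_iff] at *
  simp [CE.rm, low, h, hp]

end

theorem lowC_sum {ι : Type} {f : ι → CE} (L : List ι) (h : ∀ t ∈ L, lowC (f t) = true) :
    lowC (CE.sumC f L) = true := by
  induction L with
  | nil => rfl
  | cons t L ih =>
    cases L with
    | nil => exact h t (by simp)
    | cons s L =>
      rw [CE.sumC]
      exact lowC_add (h t (by simp)) (ih fun r hr => h r (by simp [hr]))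

theorem lowC_prod (L : List CE) (h : ∀ a ∈ L, lowC a = true) : lowC (CE.prodC L) = true := by
  induction L with
  | nil => rfl
  | cons t L ih =>
    cases L with
    | nil => exact h t (by simp)
    | cons s L =>
      rw [CE.prodC]
      exact lowC_mul (h t (by simp)) (ih fun r hr => h r (by simp [hr]))

theorem lowC_P : lowC cP = true := rfl

theorem low_ap (g : AP) : low (apE g) = true := by
  induction g with
  | nil => rfl
  | cons t g ih =>
    obtain ⟨c, i, j⟩ := t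
    have h0 : low (moE c i j) = true := rfl
    cases g with
    | nil => exact h0
    | cons t' g =>
      have : low (apE ((c, i, j) :: t' :: g)) = (low (moE c i j) && low (apE (t' :: g))) := rfl
      rw [this, h0, ih]
      rfl

theorem low_EGr (a : DQ) (K : ℕ) {G : Grp} (hn : G.n = 0) (he : G.e = 0) :
    low (EGr a K G) = true := by
  have hA : lowC (CE.sumC (tA a K G.k G.w) G.l) = true := lowC_sum _ fun t _ => by
    unfold tA
    exact lowC_mI (lowC_rm (low_ap _) rfl)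
  have hB : lowC (CE.sumC (tB a K G.k) G.l) = true := lowC_sum _ fun t _ => by
    unfold tB
    exact lowC_rm (low_ap _) rfl
  have hS : lowC (CE.add (CE.sumC (tA a K G.k G.w) G.l)
      (CE.mul (CE.cj cP) (CE.sumC (tB a K G.k) G.l))) = true :=
    lowC_add hA (lowC_mul (lowC_cj lowC_P) hB)
  obtain ⟨j, n, e, k, L⟩ := G
  simp only at hn he
  subst hn
  subst he
  cases j with
  | zero => exact (lowC_iff.1 hS).1
  | succ j =>
    have hQ : lowC (cQ (j + 1) 0 0) = true := by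
      unfold cQ
      refine lowC_prod _ fun a ha => ?_
      simp only [List.replicate_zero, List.append_nil] at ha
      rw [List.eq_of_mem_replicate ha]
      rfl
    exact (lowC_iff.1 (lowC_mul hQ hS)).1

/-- growth with the additional factor `sin η` -/
def okW (k : ℕ) (t : AP × BP × BP) : Bool :=
  t.1.all fun s => dle (2 * k + 2 + s.2.1) t.2.1 && dle (2 * k + 2 + s.2.1) t.2.2

/-- the null Lagrangian of one potential -/
noncomputable def NGt (a : DQ) (j k : ℕ) (t : AP × BP × BP) (X Y : ℂ) (η : ℝ) : ℝ :=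
  NG (aT j t.1) (fun η => af (ader (ash (j + 1) 0 t.1)) η) (HC a k t.2.1 t.2.2)
    (HC a (k + 1) (qX a k t.2.1) (qX a k t.2.2)) (HC a (k + 1) (qY a k t.2.1) (qY a k t.2.2))
    X Y ((Y / X) ^ j) η

/-- its centre term -/
noncomputable def KGt (a : DQ) (j k : ℕ) (t : AP × BP × BP) (X Y : ℂ) : ℝ :=
  - (aT j t.1 (π / 2) * (HC a k t.2.1 t.2.2 X * (Y / X) ^ j).im)

theorem EGr_low (a : DQ) {K : ℕ} {G : Grp} (hn : G.n = 0) (he : G.e = 0) (hK : G.k + 1 ≤ K)
    (l η : ℝ) {X : ℂ} (hX : X ≠ 0) (Y : ℂ) : (EGr a K G).re (px l η X Y) =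
      Dd a X.re X.im ^ K * (G.l.map fun t => NGt a G.j G.k t X Y η).sum := by
  have h1 := EGr_re a G hK l η hX Y 0 0
  have h2 := re9_low (px9 l η X Y 0 0) _ (low_EGr a K hn he)
  rw [h1] at h2
  have h3 : (px9 l η X Y 0 0).t = px l η X Y := rfl
  rw [h3] at h2
  rw [← h2]
  congr 2
  apply List.map_congr_left
  intro t _
  have hw : G.w = G.j := by
    unfold Grp.w
    rw [hn, he]
    omega
  unfold Npc NGt NG
  rw [hn, he, hw]
  beta_reduce
  rw [af_adw]
  generalize HC a G.k t.2.1 t.2.2 X = H0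
  generalize HC a (G.k + 1) (qX a G.k t.2.1) (qX a G.k t.2.2) X = H1
  generalize HC a (G.k + 1) (qY a G.k t.2.1) (qY a G.k t.2.2) X = H2
  generalize (Y / X) ^ G.j = q
  generalize aT G.j t.1 η = α
  generalize (0 : ℂ) / X - (Y / X) ^ 2 = z
  generalize Real.sin (η / 2) ^ G.j * af (adw G.j t.1) η = β
  simp only [pow_zero, mul_one, map_one, Nat.cast_zero, zero_mul, map_zero, mul_zero, add_zero]
  rw [add_re]
  have e1 : (I * (β : ℂ) * H0 * q).re = - (β * (H0 * q).im) := by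
    have : I * (β : ℂ) * H0 * q = (β : ℂ) * (I * (H0 * q)) := by ring
    rw [this, re_ofReal_mul, I_mul_re]
    ring
  have e2 : ((α : ℂ) * ((H1 + I * H2) * conj Y) * q).re =
      α * ((H1 + I * H2) * (q * conj Y)).re := by
    have : (α : ℂ) * ((H1 + I * H2) * conj Y) * q = (α : ℂ) * ((H1 + I * H2) * (q * conj Y)) := by
      ring
    rw [this, re_ofReal_mul]
  rw [e1, e2]
  ring

theorem discP_q {X : ℂ → ℂ} {x₁ x₂ : ℝ} (hx : x₁ ≤ x₂) (hX : NiceH X x₁ x₂)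
    (hP : DiscP X x₁ x₂) {ξ η : ℝ} (hξ : ξ ∈ Icc x₁ x₂) (hη : η ∈ Icc (0:ℝ) (π / 2)) :
    Real.sin (η / 2) * ‖X (pt ξ η) - 1‖ ≤ 10 ∧
      Real.sin (η / 2) * ‖deriv X (pt ξ η) / X (pt ξ η)‖ ≤ 38 := by
  have q9 := DiscP.X_le X x₁ x₂ hx hX hP ξ hξ η hη
  have q38 := DiscP.q_le X x₁ x₂ hx hX hP ξ hξ η hη
  obtain ⟨s0, s1, s2, _, _⟩ := s_half hη
  refine ⟨?_, (mul_le_mul_of_nonneg_right s2 (norm_nonneg _)).trans q38⟩
  have h1 : ‖X (pt ξ η) - 1‖ ≤ ‖X (pt ξ η)‖ + 1 := by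
    have := norm_sub_le (X (pt ξ η)) 1
    rwa [norm_one] at this
  calc Real.sin (η / 2) * ‖X (pt ξ η) - 1‖ ≤ Real.sin (η / 2) * (‖X (pt ξ η)‖ + 1) :=
        mul_le_mul_of_nonneg_left h1 s0
    _ = Real.sin (η / 2) * ‖X (pt ξ η)‖ + Real.sin (η / 2) := by ring
    _ ≤ Real.sin η * ‖X (pt ξ η)‖ + 1 :=
        add_le_add (mul_le_mul_of_nonneg_right s2 (norm_nonneg _)) s1
    _ ≤ 10 := by (clear * - q9; linarith only [q9])

theorem HC_grW (a : DQ) (k : ℕ) (M1 M2 : BP) (g : AP) (h : okW k (g, M1, M2) = true) :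
    ∃ C : ℝ, 0 ≤ C ∧ ∀ (X : ℂ) (η : ℝ), η ∈ Icc (0:ℝ) (π / 2) →
      Real.sin (η / 2) * ‖X - 1‖ ≤ 10 →
      |af g η| * ‖HC a k M1 M2 X‖ ≤ C * (1 + ‖X - 1‖ ^ 2) := by
  induction g with
  | nil =>
    refine ⟨0, le_rfl, fun X η hη _ => ?_⟩
    simp [af, aev]
  | cons t g ih =>
    obtain ⟨c, i, j⟩ := t
    simp only [okW, List.all_cons, Bool.and_eq_true] at h
    obtain ⟨⟨a1, a2⟩, a3⟩ := h
    obtain ⟨C₁, h1, k1⟩ := ih (by simpa only [okW] using a3)
    obtain ⟨C₂, h2, k2⟩ := HC_gr1 a k i M1 M2 a1 a2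
    refine ⟨|(c : ℝ)| * C₂ + C₁, by (clear * - h2 h1; positivity), fun X η hη hX => ?_⟩
    obtain ⟨s0, s1, _, c0, c1⟩ := s_half hη
    have k3 := k1 X η hη hX
    have k4 := k2 X _ s0 s1 hX
    have hn := norm_nonneg (HC a k M1 M2 X)
    have e1 : |af ((c, i, j) :: g) η| ≤ |(c : ℝ)| * Real.sin (η / 2) ^ i + |af g η| := by
      unfold af
      rw [aev]
      refine (abs_add_le _ _).trans (add_le_add ?_ le_rfl)
      rw [abs_mul, abs_of_nonneg (mul_nonneg (pow_nonneg s0 i) (pow_nonneg c0 j))]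
      refine mul_le_mul_of_nonneg_left ?_ (abs_nonneg _)
      exact mul_le_of_le_one_right (pow_nonneg s0 i) (pow_le_one₀ c0 c1)
    calc |af ((c, i, j) :: g) η| * ‖HC a k M1 M2 X‖ ≤
          (|(c : ℝ)| * Real.sin (η / 2) ^ i + |af g η|) * ‖HC a k M1 M2 X‖ :=
          mul_le_mul_of_nonneg_right e1 hn
      _ = |(c : ℝ)| * (Real.sin (η / 2) ^ i * ‖HC a k M1 M2 X‖) +
          |af g η| * ‖HC a k M1 M2 X‖ := by ring
      _ ≤ |(c : ℝ)| * (C₂ * (1 + ‖X - 1‖ ^ 2)) + C₁ * (1 + ‖X - 1‖ ^ 2) :=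
          add_le_add (mul_le_mul_of_nonneg_left k4 (abs_nonneg _)) k3
      _ = (|(c : ℝ)| * C₂ + C₁) * (1 + ‖X - 1‖ ^ 2) := by ring

/-- **a group entry is null against weights** -/
theorem isNullW_Gt (a : DQ) (j k : ℕ) (t : AP × BP × BP) (h : okW k t = true) :
    IsNullW DiscP (fun X ξ η => NGt a j k t (X (pt ξ η)) (deriv X (pt ξ η)) η)
      (fun X ξ => KGt a j k t (X (pt ξ (π / 2))) (deriv X (pt ξ (π / 2)))) := by
  obtain ⟨g, M1, M2⟩ := t
  obtain ⟨C, hC0, hC⟩ := HC_grW a k M1 M2 g h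
  refine isNullW_G (P := DiscP) (C := 2 * 38 ^ j * C) (c1_HC a k M1 M2) (anF_q j) (hd_aT j g)
    (af_cont _) ?_ ?_
  · unfold aT
    rw [af_ashw]
    simp
  · intro X x₁ x₂ hx hX hP ξ hξ η hη
    obtain ⟨b1, b2⟩ := discP_q hx hX hP hξ hη
    obtain ⟨s0, s1, s2, _, _⟩ := s_half hη
    have h1 := hC (X (pt ξ η)) η hη b1
    obtain ⟨Z, hZ⟩ : ∃ Z, Z = X (pt ξ η) := ⟨_, rfl⟩
    obtain ⟨q, hq⟩ : ∃ q, q = deriv X (pt ξ η) / X (pt ξ η) := ⟨_, rfl⟩
    rw [← hq] at b2 ⊢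
    rw [← hZ] at h1 ⊢
    unfold aT
    rw [af_ashw, norm_pow, abs_mul, abs_mul, abs_of_nonneg (pow_nonneg s0 _),
      abs_of_pos (by norm_num : (0:ℝ) < 2)]
    have h2 : (Real.sin (η / 2) * ‖q‖) ^ j ≤ 38 ^ j :=
      pow_le_pow_left₀ (mul_nonneg s0 (norm_nonneg _)) b2 j
    calc 2 * (Real.sin (η / 2) ^ (j + 1) * |af g η|) * (‖HC a k M1 M2 Z‖ * ‖q‖ ^ j) =
          2 * (Real.sin (η / 2) * ‖q‖) ^ j * (|af g η| * ‖HC a k M1 M2 Z‖) *
            Real.sin (η / 2) := by rw [mul_pow, pow_succ]; ring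
      _ ≤ 2 * 38 ^ j * (C * (1 + ‖Z - 1‖ ^ 2)) * Real.sin η := by
          refine mul_le_mul ?_ s2 s0 (by (clear * - hC0; positivity))
          exact mul_le_mul (mul_le_mul_of_nonneg_left h2 (by norm_num)) h1 (by (clear * -; positivity))
            (by positivity)
      _ = 2 * 38 ^ j * C * Real.sin η * (1 + ‖Z - 1‖ ^ 2) := by ring

/-- `c β(η) Re (X-1)^n`, `n ≤ 2`, is null against weights -/
theorem isNullW_har' {β : ℝ → ℝ} (hβ : Continuous β) (n : ℕ) (hn : n ≤ 2) :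
    IsNullW DiscP (fun X ξ η => β η * ((X (pt ξ η) - 1) ^ n).re)
      (fun X ξ => (∫ t in (0:ℝ)..(π / 2), β t) * ((X (pt ξ (π / 2)) - 1) ^ n).re) := by
  have hd : ∀ η : ℝ, HasDerivAt (fun η => -∫ t in (0:ℝ)..η, β t) (-β η) η := fun η =>
    (intervalIntegral.integral_hasDerivAt_right (hβ.intervalIntegrable _ _)
      hβ.stronglyMeasurable.stronglyMeasurableAtFilter hβ.continuousAt).neg
  have hF : C1c (fun X => I * (X - 1) ^ n) (fun X => I * ((n : ℂ) * (X - 1) ^ (n - 1)))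
      (fun X => I * (I * ((n : ℂ) * (X - 1) ^ (n - 1)))) := by
    refine C1c_holo (fun X => ?_) (by fun_prop)
    have h1 : HasDerivAt (fun X : ℂ => X - 1) 1 X := (hasDerivAt_id X).sub_const 1
    have h2 : HasDerivAt (fun X : ℂ => (X - 1) ^ n) ((n : ℂ) * (X - 1) ^ (n - 1)) X :=
      (h1.fun_pow n).congr_deriv (by ring)
    exact h2.const_mul I
  obtain ⟨M, hM⟩ := (isCompact_Icc (a := (0:ℝ)) (b := π / 2)).bddAbove_image hβ.abs.continuousOn
  have hM' : ∀ η ∈ Icc (0:ℝ) (π / 2), |β η| ≤ M := fun η hη => hM (mem_image_of_mem _ hη)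
  have hM0 : 0 ≤ M := (abs_nonneg _).trans (hM' 0 ⟨le_rfl, by positivity⟩)
  have hb : ∀ η ∈ Icc (0:ℝ) (π / 2), |-∫ t in (0:ℝ)..η, β t| ≤ M * 2 * Real.sin η := by
    intro η hη
    rw [abs_neg]
    have h1 : ∀ t ∈ Set.uIoc 0 η, ‖β t‖ ≤ M := by
      intro t ht
      rw [uIoc_of_le hη.1] at ht
      exact hM' t ⟨ht.1.le, ht.2.trans hη.2⟩
    have h2 := intervalIntegral.norm_integral_le_of_norm_le_const h1
    rw [Real.norm_eq_abs, sub_zero, abs_of_nonneg hη.1] at h2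
    have hp := Real.pi_pos
    have h3 := Real.mul_le_sin hη.1 hη.2
    have h4 : η / 2 ≤ 2 / π * η := by
      have : 1 / 2 ≤ 2 / π := by
        rw [div_le_div_iff₀ (by norm_num) hp]
        (clear * -; linarith only [Real.pi_le_four])
      have := mul_le_mul_of_nonneg_right this hη.1
      (clear * - this; linarith only [this])
    have h5 : M * η ≤ M * (2 * Real.sin η) :=
      mul_le_mul_of_nonneg_left (by linarith only [h3, h4]) hM0
    linarith only [h2, h5]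
  have h := isNullW_G (P := DiscP) (C := M * 2) hF anF_one hd hβ.neg (by simp) (fun X x₁ x₂ hx hX hP
    ξ hξ η hη => by
      have h1 := hb η hη
      have h2 := norm_pow_le n hn (X (pt ξ η))
      have hs := sin_nn hη
      rw [norm_one, mul_one, norm_mul, norm_I, one_mul]
      calc |-∫ t in (0:ℝ)..η, β t| * ‖(X (pt ξ η) - 1) ^ n‖ ≤
            (M * 2 * Real.sin η) * (1 * (1 + ‖X (pt ξ η) - 1‖ ^ 2)) :=
            mul_le_mul h1 h2 (norm_nonneg _) (mul_nonneg (by positivity) hs)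
        _ = M * 2 * Real.sin η * (1 + ‖X (pt ξ η) - 1‖ ^ 2) := by ring)
  refine h.congr (fun X ξ η => ?_) (fun X ξ => ?_)
  · unfold NG
    have e : I * ((n : ℂ) * (X (pt ξ η) - 1) ^ (n - 1)) + I * (I * (I * ((n : ℂ) *
        (X (pt ξ η) - 1) ^ (n - 1)))) = 0 := by
      linear_combination (I * (n : ℂ) * (X (pt ξ η) - 1) ^ (n - 1)) * I_sq
    rw [e]
    simp
  · simp

end Pool.Agent.Helper71.CK

end

section

namespace Pool.Agent.Helper52.EK
end Pool.Agent.Helper52.EK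
namespace Pool.Agent.Helper69.EK3
end Pool.Agent.Helper69.EK3
namespace Pool.Agent.Helper69.EK7
end Pool.Agent.Helper69.EK7
namespace Pool.Agent.Helper84.CK
end Pool.Agent.Helper84.CK

set_option autoImplicit false

open Complex MeasureTheory Metric Set

open scoped Real ComplexConjugate

namespace Pool.Agent.Helper69.CKC

open Pool.Agent.Helper52.EK Pool.Agent.Helper69.EK3 Pool.Agent.Helper69.EK7

open Pool.Agent.Helper84.CK

variable {P : (ℂ → ℂ) → ℝ → ℝ → Prop}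

/-- analytic functionals of `X` near the full strip -/
def AnS (f : (ℂ → ℂ) → ℂ → ℂ) : Prop :=
  ∀ (X : ℂ → ℂ) (x₁ x₂ : ℝ), NiceX X x₁ x₂ → AnalyticOnNhd ℂ (f X) (Rect x₁ x₂)

theorem anS_one : AnS (fun _ _ => 1) := fun _ _ _ _ _ _ => analyticAt_const

theorem anS_q : AnS qF := fun _ _ _ hX => hX.an.deriv.div hX.an hX.ne

theorem anS_r : AnS qR := fun _ _ _ hX =>
  (hX.an.deriv.deriv.div hX.an hX.ne).sub ((hX.an.deriv.div hX.an hX.ne).pow 2)

theorem anS_f (j e : ℕ) : AnS (fG j e) := fun X x₁ x₂ hX =>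
  ((anS_q X x₁ x₂ hX).pow j).mul ((anS_r X x₁ x₂ hX).pow e)

theorem isNullC_A {H Hx Hy : ℂ → ℂ} (hH : C1c H Hx Hy) {f h : (ℂ → ℂ) → ℂ → ℂ} (hf : AnS f)
    (hh : AnS h) {a a₁ : ℝ → ℝ} (g1 : ∀ η, HasDerivAt a (a₁ η) η) (g1c : Continuous a₁)
    (f1 : a 0 = 0) (f2 : a π = 0) {C : ℝ}
    (hC : ∀ (X : ℂ → ℂ) (x₁ x₂ : ℝ), x₁ ≤ x₂ → NiceX X x₁ x₂ → P X x₁ x₂ →
      ∀ ξ ∈ Icc x₁ x₂, ∀ η ∈ Icc (0:ℝ) π,
        ‖FA a H f h X ξ η‖ ≤ C * Real.sin η * (1 + ‖X (pt ξ η) - 1‖ ^ 2)) :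
    IsNullC P (NF a a₁ H Hx Hy f h) := by
  have ca : Continuous a := continuous_iff_continuousAt.2 fun t => (g1 t).continuousAt
  -- continuity
  have cX : ∀ (X : ℂ → ℂ) (x₁ x₂ : ℝ), NiceX X x₁ x₂ →
      ContinuousOn (fun p : ℝ × ℝ => X (pt p.1 p.2)) (Icc x₁ x₂ ×ˢ Icc 0 π) :=
    fun X x₁ x₂ hX => contF hX.an.continuousOn
  have mX : ∀ (X : ℂ → ℂ) (x₁ x₂ : ℝ), NiceX X x₁ x₂ →
      MapsTo (fun p : ℝ × ℝ => X (pt p.1 p.2)) (Icc x₁ x₂ ×ˢ Icc 0 π) {X | X ≠ 0} :=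
    fun X x₁ x₂ hX p hp => hX.ne _ (pt_mem hp.1 hp.2)
  have i2 : ∀ x₁ x₂ : ℝ, ContinuousOn (fun p : ℝ × ℝ => ((a p.2 : ℝ) : ℂ))
      (Icc x₁ x₂ ×ˢ Icc 0 π) := fun _ _ =>
    (Complex.continuous_ofReal.comp (ca.comp continuous_snd)).continuousOn
  have i3 : ∀ x₁ x₂ : ℝ, ContinuousOn (fun p : ℝ × ℝ => ((a₁ p.2 : ℝ) : ℂ))
      (Icc x₁ x₂ ×ˢ Icc 0 π) := fun _ _ =>
    (Complex.continuous_ofReal.comp (g1c.comp continuous_snd)).continuousOn
  have cFA : ∀ (X : ℂ → ℂ) (x₁ x₂ : ℝ), NiceX X x₁ x₂ →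
      ContinuousOn (fun p : ℝ × ℝ => FA a H f h X p.1 p.2) (Icc x₁ x₂ ×ˢ Icc 0 π) := by
    intro X x₁ x₂ hX
    unfold FA
    exact (((i2 x₁ x₂).mul (hH.cont.comp (cX X x₁ x₂ hX) (mX X x₁ x₂ hX))).mul
      (contF (hf X x₁ x₂ hX).continuousOn)).mul
      (Complex.continuous_conj.comp_continuousOn (contF (hh X x₁ x₂ hX).continuousOn))
  have cFA1 : ∀ (X : ℂ → ℂ) (x₁ x₂ : ℝ), NiceX X x₁ x₂ →
      ContinuousOn (fun p : ℝ × ℝ => FA1 a H Hx Hy f h X p.1 p.2)
        (Icc x₁ x₂ ×ˢ Icc 0 π) := by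
    intro X x₁ x₂ hX
    have cY := contF hX.an.deriv.continuousOn
    have cf := contF (hf X x₁ x₂ hX).continuousOn
    have cf1 := contF (hf X x₁ x₂ hX).deriv.continuousOn
    have ch := Complex.continuous_conj.comp_continuousOn (contF (hh X x₁ x₂ hX).continuousOn)
    have ch1 := Complex.continuous_conj.comp_continuousOn
      (contF (hh X x₁ x₂ hX).deriv.continuousOn)
    have c0 := hH.cont.comp (cX X x₁ x₂ hX) (mX X x₁ x₂ hX)
    have cx := hH.cx.comp (cX X x₁ x₂ hX) (mX X x₁ x₂ hX)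
    have cy := hH.cy.comp (cX X x₁ x₂ hX) (mX X x₁ x₂ hX)
    have yr := (Complex.continuous_ofReal.comp Complex.continuous_re).comp_continuousOn cY
    have yi := (Complex.continuous_ofReal.comp Complex.continuous_im).comp_continuousOn cY
    unfold FA1
    exact (i2 x₁ x₂).mul ((((((cx.mul yr).add (cy.mul yi)).mul cf).add (c0.mul cf1)).mul
      ch).add ((c0.mul cf).mul ch1))
  have cFA2 : ∀ (X : ℂ → ℂ) (x₁ x₂ : ℝ), NiceX X x₁ x₂ →
      ContinuousOn (fun p : ℝ × ℝ => FA2 a a₁ H Hx Hy f h X p.1 p.2)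
        (Icc x₁ x₂ ×ˢ Icc 0 π) := by
    intro X x₁ x₂ hX
    have cY : ContinuousOn (fun p : ℝ × ℝ => I * deriv X (pt p.1 p.2))
        (Icc x₁ x₂ ×ˢ Icc 0 π) := continuousOn_const.mul (contF hX.an.deriv.continuousOn)
    have cf := contF (hf X x₁ x₂ hX).continuousOn
    have cf1 : ContinuousOn (fun p : ℝ × ℝ => I * deriv (f X) (pt p.1 p.2))
        (Icc x₁ x₂ ×ˢ Icc 0 π) :=
      continuousOn_const.mul (contF (hf X x₁ x₂ hX).deriv.continuousOn)
    have ch := Complex.continuous_conj.comp_continuousOn (contF (hh X x₁ x₂ hX).continuousOn)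
    have ch1' : ContinuousOn (fun p : ℝ × ℝ => I * deriv (h X) (pt p.1 p.2))
        (Icc x₁ x₂ ×ˢ Icc 0 π) :=
      continuousOn_const.mul (contF (hh X x₁ x₂ hX).deriv.continuousOn)
    have ch1 := Complex.continuous_conj.comp_continuousOn ch1'
    have c0 := hH.cont.comp (cX X x₁ x₂ hX) (mX X x₁ x₂ hX)
    have cx := hH.cx.comp (cX X x₁ x₂ hX) (mX X x₁ x₂ hX)
    have cy := hH.cy.comp (cX X x₁ x₂ hX) (mX X x₁ x₂ hX)
    have yr := (Complex.continuous_ofReal.comp Complex.continuous_re).comp_continuousOn cY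
    have yi := (Complex.continuous_ofReal.comp Complex.continuous_im).comp_continuousOn cY
    unfold FA2
    exact ((i3 x₁ x₂).mul ((c0.mul cf).mul ch)).add ((i2 x₁ x₂).mul
      ((((((cx.mul yr).add (cy.mul yi)).mul cf).add (c0.mul cf1)).mul ch).add
      ((c0.mul cf).mul ch1)))
  -- the direction of `ξ`
  have N1 := isNullC_xi (P := P) (F := fun X ξ η => (FA a H f h X ξ η).re)
    (F₁ := fun X ξ η => (FA1 a H Hx Hy f h X ξ η).re)
    (fun X x₁ x₂ hX => Complex.continuous_re.comp_continuousOn (cFA X x₁ x₂ hX))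
    (fun X x₁ x₂ hX => Complex.continuous_re.comp_continuousOn (cFA1 X x₁ x₂ hX))
    (by
      intro X x₁ x₂ hX ξ hξ η hη
      have hm := pt_mem hξ hη
      have dX := d_xi (hX.an _ hm).differentiableAt
      have df := d_xi (hf X x₁ x₂ hX _ hm).differentiableAt
      have dh := d_xi (hh X x₁ x₂ hX _ hm).differentiableAt
      have dH := d_H hH (g := fun ξ => X (pt ξ η)) (t := ξ) (hX.ne _ hm) dX
      have hd := d_re ((((hasDerivAt_const ξ ((a η : ℝ) : ℂ)).mul dH).mul df).mul (d_conj dh))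
      refine (hd.congr_deriv ?_)
      congr 1
      simp only [Pi.mul_apply]
      unfold FA1
      ring)
    (fun X x₁ x₂ hx hX hP ξ hξ η hη =>
      (abs_re_le_norm _).trans (hC X x₁ x₂ hx hX hP ξ hξ η hη))
  -- the direction of `η`
  have N2 := isNullC_eta (P := P) (F := fun X ξ η => (FA a H f h X ξ η).im)
    (F₂ := fun X ξ η => (FA2 a a₁ H Hx Hy f h X ξ η).im)
    (fun X x₁ x₂ hX => Complex.continuous_im.comp_continuousOn (cFA X x₁ x₂ hX))
    (fun X x₁ x₂ hX => Complex.continuous_im.comp_continuousOn (cFA2 X x₁ x₂ hX))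
    (by
      intro X x₁ x₂ hX ξ hξ η hη
      have hm := pt_mem hξ hη
      have dX := d_eta (hX.an _ hm).differentiableAt
      have df := d_eta (hf X x₁ x₂ hX _ hm).differentiableAt
      have dh := d_eta (hh X x₁ x₂ hX _ hm).differentiableAt
      have dH := d_H hH (g := fun η => X (pt ξ η)) (t := η) (hX.ne _ hm) dX
      have hd := d_im ((((g1 η).ofReal_comp.mul dH).mul df).mul (d_conj dh))
      refine (hd.congr_deriv ?_)
      congr 1
      simp only [Pi.mul_apply]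
      unfold FA2
      ring)
    (fun X ξ => by
      unfold FA
      rw [f1]
      simp)
    (fun X ξ => by
      unfold FA
      rw [f2]
      simp)
    (fun X x₁ x₂ hx hX hP ξ hξ η hη =>
      (abs_im_le_norm _).trans (hC X x₁ x₂ hx hX hP ξ hξ η hη))
  exact (N1.add (N2.const_mul (-1))).congr fun X ξ η => FA_sum a a₁ H Hx Hy f h X ξ η

end Pool.Agent.Helper69.CKC

end
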