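import Pool.Agent.Helper14.CMF.T15
import Pool.Agent.Helper14.CMF.T18
import Pool.Agent.Helper14.CMF.T20
import Pool.Agent.Helper14.CMF.T05
import Pool.Agent.Helper14.CMF.T19

set_option linter.all false

section

namespace Pool.Sos71
end Pool.Sos71
namespace Pool.EK71
end Pool.EK71
namespace Pool.Agent.Helper52.EK
end Pool.Agent.Helper52.EK
namespace Pool.Agent.Helper2.EK
end Pool.Agent.Helper2.EK
namespace Pool.Agent.Helper69.EK3
end Pool.Agent.Helper69.EK3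
namespace Pool.Agent.Helper69.EK5
end Pool.Agent.Helper69.EK5
namespace Pool.Agent.Helper69.EK6
end Pool.Agent.Helper69.EK6
namespace Pool.Agent.Helper71.EKC
end Pool.Agent.Helper71.EKC
namespace Pool.Agent.Helper69.EK3.Dat
end Pool.Agent.Helper69.EK3.Dat
namespace Pool.Agent.Helper20.CK
end Pool.Agent.Helper20.CK

set_option autoImplicit false

open Complex MeasureTheory Metric Set

open scoped Real ComplexConjugate

namespace Pool.Agent.Helper71.CK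

open Pool.Sos71

open Pool.EK71 Pool.Agent.Helper52.EK Pool.Agent.Helper2.EK

open Pool.Agent.Helper69.EK3 hiding NM KM

open Pool.Agent.Helper69.EK5 (DQ Dd Dd_pos Dd_low Dn Dn_ev)

open Pool.Agent.Helper69.EK6 (px px_o csE_re)

open Pool.Agent.Helper71.EKC (c1_unique)

open Pool.Agent.Helper69.EK3.Dat (SideOk)

structure DatM where
  c : Pool.Agent.Helper69.EK6.Dat
  HM1 : List (ℕ × Bool × ℤ)
  kb : ℤ
  del : ℤ
  MI : List (ℕ × ℕ × ℤ)
  MO : List (ℕ × ℕ × ℤ)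

/-- `c cos kη Re (X-1)` or `c sin kη Re (X-1)`, times `D^K` -/
def EHM1 (a : DQ) (K h : ℕ) (t : ℕ × Bool × ℤ) : Ex :=
  Ex.mul (Ex.mul (Ex.sc t.2.2 (if t.2.1 then (csE t.1).1 else (csE t.1).2)) (Ex.pow eo (h - t.1)))
    (Ex.bp (mu2 [[0], [1]] (Dn a K)))

namespace DatM

variable (d : DatM)

/-- `kb (1 - Re X) + del` and the families `HM1`, times `D^K` -/
def tX : Ex :=
  sumE (EHM1 d.c.a d.c.K d.c.h)
    (Ex.mul (Ex.pow eo d.c.h) (Ex.bp (mu2 [[d.del], [Int.neg d.kb]] (Dn d.c.a d.c.K)))) d.HM1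

/-- conditions on the data -/
def wf : Bool :=
  d.c.wf && d.HM1.all (fun t => Nat.ble 1 t.1 && Nat.ble t.1 4) &&
  d.MI.all (fun t => Nat.ble t.2.1 2) && d.MO.all (fun t => Nat.ble t.2.1 2)

structure Wf : Prop where
  c : d.c.Wf
  hm : ∀ t ∈ d.HM1, 1 ≤ t.1 ∧ t.1 ≤ 4
  mi : ∀ t ∈ d.MI, t.2.1 ≤ 2
  mo : ∀ t ∈ d.MO, t.2.1 ≤ 2

theorem wf_iff (h : d.wf = true) : d.Wf := by
  simp only [wf, Bool.and_eq_true, Nat.ble_eq, List.all_eq_true] at h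
  obtain ⟨⟨⟨h1, h2⟩, h3⟩, h4⟩ := h
  exact ⟨Pool.Agent.Helper69.EK6.Dat.wf_iff d.c h1, h2, h3, h4⟩

end DatM

/-- `∑ c lⁿ (conj m)^j` -/
noncomputable def MS (L : List (ℕ × ℕ × ℤ)) (l : ℝ) (m : ℂ) : ℂ :=
  (L.map fun t => (t.2.2 : ℂ) * ((l : ℂ) ^ t.1 * conj m ^ t.2.1)).sum

/-- **the multiplier** `Mq(m)` -/
noncomputable def Mq (M : ℤ) (MI MO : List (ℕ × ℕ × ℤ)) (p0 p1 p2 q0 q1 q2 : ℝ) (m : ℂ) : ℂ :=
  if ‖m‖ ≤ 1 then MS MI ((1 - ‖m‖ ^ 2) / rF p0 p1 p2 m) m / (M : ℂ)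
  else MS MO ((‖m‖ ^ 2 - 1) / rF q0 q1 q2 m) m / (M : ℂ)

theorem MS_conj (L : List (ℕ × ℕ × ℤ)) (l : ℝ) (m : ℂ) :
    MS L l (conj m) = conj (MS L l m) := by
  unfold MS
  induction L with
  | nil => simp
  | cons t L ih =>
    simp only [List.map_cons, List.sum_cons, map_add, ih, map_mul, map_pow, conj_ofReal,
      map_intCast]

theorem rF_conj' (p0 p1 p2 : ℝ) (m : ℂ) : rF p0 p1 p2 (conj m) = rF p0 p1 p2 m := by
  rw [rF_eq, rF_eq, norm_conj, conj_re]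

theorem Mq_conj (M : ℤ) (MI MO : List (ℕ × ℕ × ℤ)) (p0 p1 p2 q0 q1 q2 : ℝ) (m : ℂ) :
    Mq M MI MO p0 p1 p2 q0 q1 q2 (conj m) = conj (Mq M MI MO p0 p1 p2 q0 q1 q2 m) := by
  unfold Mq
  rw [norm_conj, rF_conj', rF_conj']
  split_ifs
  · rw [MS_conj, map_div₀, map_intCast]
  · rw [MS_conj, map_div₀, map_intCast]

/-- on the unit circle only the terms `n = 0` remain -/
theorem MS_zero (L : List (ℕ × ℕ × ℤ)) (m : ℂ) :
    MS L 0 m = MS (L.filter fun t => t.1 == 0) 0 m := by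
  unfold MS
  induction L with
  | nil => simp
  | cons t L ih =>
    obtain ⟨n, j, c⟩ := t
    rw [List.map_cons, List.sum_cons, ih]
    cases n with
    | zero => simp
    | succ n => simp

section val

variable (l η : ℝ) (X Y : ℂ)

theorem EHM1_re (a : DQ) (K h : ℕ) (t : ℕ × Bool × ℤ) :
    (EHM1 a K h t).re (px l η X Y) = Dd a X.re X.im ^ K *
      ((t.2.2 : ℝ) * (trg t.1 t.2.1 η * ((X - 1) ^ 1).re)) := by
  have h1 := csE_re t.1 l η X Y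
  have e : (EHM1 a K h t).re (px l η X Y) = (t.2.2 : ℝ) *
      ((if t.2.1 then (csE t.1).1 else (csE t.1).2).re (px l η X Y)) *
      (eo.re (px l η X Y) ^ (h - t.1)) * ev2 (X.re - 1) X.im (mu2 [[0], [1]] (Dn a K)) := rfl
  have e2 : ev2 (X.re - 1) X.im [[0], [1]] = X.re - 1 := by
    simp only [ev2, ev1]
    push_cast
    ring
  rw [e, px_o, one_pow, ev2_mu, e2, Dn_ev, pow_one, sub_re, one_re]
  unfold trg
  cases hb : t.2.1
  · simp only [Bool.false_eq_true, if_false, h1.2]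
    ring
  · simp only [if_true, h1.1]
    ring

end val

namespace DatM

variable (d : DatM)

/-- the total null Lagrangian -/
noncomputable def NT (X Y : ℂ) (η : ℝ) : ℝ :=
  d.c.NT X Y η + (d.HM1.map fun t => (t.2.2 : ℝ) * (trg t.1 t.2.1 η * ((X - 1) ^ 1).re)).sum

/-- its centre function -/
noncomputable def KT (X Y : ℂ) : ℝ :=
  d.c.KT X Y + (d.HM1.map fun t => (t.2.2 : ℝ) *
    ((∫ u in (0:ℝ)..(π / 2), trg t.1 t.2.1 u) * ((X - 1) ^ 1).re)).sum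

variable {d}

theorem tX_re (l η : ℝ) (X Y : ℂ) : d.tX.re (px l η X Y) = Dd d.c.a X.re X.im ^ d.c.K *
    ((d.HM1.map fun t => (t.2.2 : ℝ) * (trg t.1 t.2.1 η * ((X - 1) ^ 1).re)).sum +
      (d.kb * (1 - X.re) + d.del)) := by
  unfold tX
  rw [sumE_re, map_sum_congr d.HM1 fun t _ => EHM1_re l η X Y d.c.a d.c.K d.c.h t, map_sum_mul]
  have e1 : (Ex.mul (Ex.pow eo d.c.h) (Ex.bp (mu2 [[d.del], [Int.neg d.kb]]
      (Dn d.c.a d.c.K)))).re (px l η X Y) = (eo.re (px l η X Y)) ^ d.c.h *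
      ev2 (X.re - 1) X.im (mu2 [[d.del], [Int.neg d.kb]] (Dn d.c.a d.c.K)) := rfl
  have e2 : ev2 (X.re - 1) X.im [[d.del], [Int.neg d.kb]] = d.kb * (1 - X.re) + d.del := by
    have e3 : Int.neg d.kb = - d.kb := rfl
    rw [e3]
    simp only [ev2, ev1]
    push_cast
    ring
  rw [e1, px_o, one_pow, ev2_mu, e2, Dn_ev]
  ring

end DatM

end Pool.Agent.Helper71.CK

end

section

namespace Pool.Sos71
end Pool.Sos71
namespace Pool.EK71
end Pool.EK71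
namespace Pool.Agent.Helper52.EK
end Pool.Agent.Helper52.EK
namespace Pool.Agent.Helper2.EK
end Pool.Agent.Helper2.EK
namespace Pool.Agent.Helper69.EK3
end Pool.Agent.Helper69.EK3
namespace Pool.Agent.Helper69.EK5
end Pool.Agent.Helper69.EK5
namespace Pool.Agent.Helper69.EK6
end Pool.Agent.Helper69.EK6
namespace Pool.Agent.Helper69.EK6.Dat
end Pool.Agent.Helper69.EK6.Dat
namespace Pool.Agent.Helper71.EKC
end Pool.Agent.Helper71.EKC
namespace Pool.Agent.Helper69.EK3.Dat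
end Pool.Agent.Helper69.EK3.Dat
namespace Pool.Agent.Helper20.EK7
end Pool.Agent.Helper20.EK7

set_option autoImplicit false

open Complex MeasureTheory Metric Set

open scoped Real ComplexConjugate

namespace Pool.Agent.Helper71.CK

open Pool.Sos71

open Pool.EK71 Pool.Agent.Helper52.EK Pool.Agent.Helper2.EK

open Pool.Agent.Helper69.EK3 hiding NM KM

open Pool.Agent.Helper69.EK5 (DQ Dd Dd_pos Dd_low Dn Dn_ev)

open Pool.Agent.Helper69.EK6 (px px_o csE_re eCon px_TT)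

open Pool.Agent.Helper69.EK6.Dat (SideOk_con)

open Pool.Agent.Helper71.EKC (c1_unique)

open Pool.Agent.Helper69.EK3.Dat (SideOk disc_im)

open Pool.Agent.Helper20.EK7 (InL OutL Gp)

/-- `1 - |m|² ≤ L rF p (m)` -/
structure LIn (p0 p1 p2 L : ℝ) : Prop where
  lA : 0 ≤ L * (p1 + p2) + 1
  lC : 0 ≤ L * (p0 + p1) - 1
  lB : (L * (2 * p1)) ^ 2 ≤ 4 * ((L * (p1 + p2) + 1) * (L * (p0 + p1) - 1))

/-- `|m|² - 1 ≤ L rF q (m)` -/
structure LOut (q0 q1 q2 L : ℝ) : Prop where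
  lA : 0 ≤ L * (q1 + q2) - 1
  lC : 0 ≤ L * (q0 + q1) + 1
  lB : (L * (2 * q1)) ^ 2 ≤ 4 * ((L * (q1 + q2) - 1) * (L * (q0 + q1) + 1))

theorem LIn.l_bd {p0 p1 p2 L : ℝ} (h : LIn p0 p1 p2 L) (g : InL p0 p1 p2) {m : ℂ}
    (hm : ‖m‖ ≤ 1) : 0 < rF p0 p1 p2 m ∧ 0 ≤ (1 - ‖m‖ ^ 2) / rF p0 p1 p2 m ∧
      (1 - ‖m‖ ^ 2) / rF p0 p1 p2 m ≤ L := by
  obtain ⟨c, hc, hl⟩ := g.low
  have h1 : 0 < rF p0 p1 p2 m := lt_of_lt_of_le (by (clear * - hc; positivity)) (hl m hm)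
  have h2 : ‖m‖ ^ 2 ≤ 1 := by nlinarith only [norm_nonneg m, hm]
  refine ⟨h1, div_nonneg (by (clear * - h2; linarith)) h1.le, ?_⟩
  rw [div_le_iff₀ h1, rF_eq]
  have h3 := quad_nonneg h.lA h.lC h.lB (re_sq_le m)
  (clear * - h3; linarith)

theorem LOut.l_bd {a q0 q1 q2 L : ℝ} (h : LOut q0 q1 q2 L) (g : OutL a q0 q1 q2) {m : ℂ}
    (hm : 1 ≤ ‖m‖) : 0 < rF q0 q1 q2 m ∧ 0 ≤ (‖m‖ ^ 2 - 1) / rF q0 q1 q2 m ∧
      (‖m‖ ^ 2 - 1) / rF q0 q1 q2 m ≤ L := by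
  obtain ⟨c, hc, hl⟩ := g.low
  have h1 : 0 < rF q0 q1 q2 m := lt_of_lt_of_le (by (clear * - hc hm; positivity)) (hl m)
  have h2 : 1 ≤ ‖m‖ ^ 2 := by nlinarith only [hm]
  refine ⟨h1, div_nonneg (by (clear * - h2; linarith)) h1.le, ?_⟩
  rw [div_le_iff₀ h1, rF_eq]
  have h3 := quad_nonneg h.lA h.lC h.lB (re_sq_le m)
  (clear * - h3; linarith only [h3])

/-- the conditions on a field `G` which enter the pointwise inequality -/
structure Fld (G : ℂ → ℂ) (ka kb p0 p1 p2 la lb q0 q1 q2 : ℝ) : Prop where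
  gin : ∀ m : ℂ, ‖m‖ ≤ 1 → ∀ e : ℂ, ‖e‖ = 1 → ‖G m - e‖ ^ 2 ≤ ‖Fq ka kb p0 p1 p2 m - e‖ ^ 2
  gout : ∀ m : ℂ, 1 < ‖m‖ → ∀ e : ℂ, ‖e‖ = 1 → ‖G m - e‖ ^ 2 ≤ ‖Fq la lb q0 q1 q2 m - e‖ ^ 2

theorem fld_Gp (ka kb p0 p1 p2 la lb q0 q1 q2 : ℝ) :
    Fld (Gp ka kb p0 p1 p2 la lb q0 q1 q2) ka kb p0 p1 p2 la lb q0 q1 q2 :=
  ⟨fun _ hm _ he => Pool.Agent.Helper20.EK7.Gp_in hm he,
    fun _ hm _ he => Pool.Agent.Helper20.EK7.Gp_out hm.le he⟩

namespace DatM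

variable {d : DatM} {ka kb p0 p1 p2 la lb q0 q1 q2 : ℝ} {Ln Ld Ln' Ld' : ℤ}

section cen

variable (d)

def cM1 (t : ℕ × Bool × ℤ) : BP :=
  sm2 (Int.mul (Int.mul (-226) (Int.ofNat (2 ^ d.c.h))) (Int.mul t.2.2 (hmv t.1 t.2.1)))
    (mu2 [[0], [1]] (Dn d.c.a d.c.K))

/-- the centre polynomial: `12 · 113 · 2^h · D^K · E_c` with `355/113` for `π` -/
def cen : BP := sumB d.cM1 (ad2 d.c.cen (mu2 (sm2 (Int.mul 4260 (Int.ofNat (2 ^ d.c.h)))
  [[0], [d.kb]]) (Dn d.c.a d.c.K))) d.HM1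

/-- the centre function with `p` for `π` and `k` for `c₁` -/
noncomputable def Ecp (k p : ℝ) (X : ℂ) : ℝ :=
  d.c.Ecp k p X + ((d.HM1.map fun t => - ((t.2.2 : ℝ) * hmv t.1 t.2.1 / 6 * (X.re - 1))).sum +
    d.kb * p * (X.re - 1))

end cen

theorem cen_ev (w : d.Wf) (X : ℂ) : ev2 (X.re - 1) X.im d.cen =
    1356 * 2 ^ d.c.h * Dd d.c.a X.re X.im ^ d.c.K * d.Ecp d.c.c1 (355 / 113) X := by
  have e2 : ev2 (X.re - 1) X.im [[0], [1]] = X.re - 1 := by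
    simp only [ev2, ev1]
    push_cast
    ring
  have e3 : ev2 (X.re - 1) X.im [[0], [d.kb]] = d.kb * (X.re - 1) := by
    simp only [ev2, ev1]
    push_cast
    ring
  have eM : ∀ t ∈ d.HM1, ev2 (X.re - 1) X.im (d.cM1 t) =
      1356 * 2 ^ d.c.h * Dd d.c.a X.re X.im ^ d.c.K *
        (- ((t.2.2 : ℝ) * hmv t.1 t.2.1 / 6 * (X.re - 1))) := by
    intro t _
    rw [cM1, ev2_sm, ev2_mu, e2, Dn_ev, imul_cast', imul_cast', imul_cast', ofNat_cast']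
    push_cast
    ring
  rw [cen, sumB_ev, map_sum_congr _ eM, map_sum_mul, ev2_ad, ev2_mu, ev2_sm, e3, Dn_ev,
    imul_cast', ofNat_cast', Pool.Agent.Helper69.EK6.Dat.cen_ev w.c]
  unfold Ecp
  push_cast
  ring

theorem KT_conj (w : d.Wf) (X Y : ℂ) (k : ℝ) :
    (d.KT X Y + (d.c.a2 * (π / 2) * ((X.re - 1) ^ 2 - X.im ^ 2) +
      (k - d.kb) * (π / 2) * (X.re - 1))) +
    (d.KT (conj X) (conj Y) + (d.c.a2 * (π / 2) * (((conj X).re - 1) ^ 2 - (conj X).im ^ 2) +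
      (k - d.kb) * (π / 2) * ((conj X).re - 1))) = - d.Ecp k π X := by
  have h1 := Pool.Agent.Helper69.EK6.Dat.KT_conj w.c X Y k
  have h2 : ∀ t ∈ d.HM1, (t.2.2 : ℝ) * ((∫ u in (0:ℝ)..(π / 2), trg t.1 t.2.1 u) *
      ((X - 1) ^ 1).re) + (t.2.2 : ℝ) * ((∫ u in (0:ℝ)..(π / 2), trg t.1 t.2.1 u) *
      ((conj X - 1) ^ 1).re) = (t.2.2 : ℝ) * hmv t.1 t.2.1 / 6 * (X.re - 1) := by
    intro t ht
    have h4 := trg_int t.1 t.2.1 (w.hm t ht).1 (w.hm t ht).2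
    rw [pow_one, pow_one, sub_re, sub_re, conj_re, one_re, ← h4]
    ring
  have h3 := map_sum_congr _ h2
  rw [← map_sum_add] at h3
  have h4 : (d.HM1.map fun t => - ((t.2.2 : ℝ) * hmv t.1 t.2.1 / 6 * (X.re - 1))).sum =
      - (d.HM1.map fun t => (t.2.2 : ℝ) * hmv t.1 t.2.1 / 6 * (X.re - 1)).sum := by
    have := map_sum_mul d.HM1 (fun t => (t.2.2 : ℝ) * hmv t.1 t.2.1 / 6 * (X.re - 1)) (-1)
    simp only [neg_mul, one_mul] at this
    exact this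
  unfold KT Ecp
  rw [h4]
  rw [conj_re, conj_im] at h1 ⊢
  linear_combination h1 + h3

theorem Ecp_c1 (k p : ℝ) : ∃ Ex Ey : ℂ → ℝ, C1f (d.Ecp k p) Ex Ey := by
  obtain ⟨A1, A2, hA⟩ := Pool.Agent.Helper69.EK6.Dat.Ecp_c1 (c := d.c) k p
  have hS := c1_sub c1_re (c1_const 1)
  obtain ⟨B1, B2, hB⟩ := c1_list d.HM1 (fun t X => - ((t.2.2 : ℝ) * hmv t.1 t.2.1 / 6 *
    (X.re - 1))) (fun t =>
      ⟨_, _, c1_congr (c1_mul (c1_const (-((t.2.2 : ℝ) * hmv t.1 t.2.1 / 6))) hS)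
        (fun X => by ring) (fun _ => rfl) (fun _ => rfl)⟩)
  refine ⟨_, _, c1_congr (c1_add hA (c1_add hB (c1_mul (c1_const (d.kb * p)) hS)))
    (fun X => ?_) (fun _ => rfl) (fun _ => rfl)⟩
  unfold Ecp
  ring

/-- `355/113` for `π`: the error is dominated by a small change of `c₁`; `ε π = A (p - π)`,
`A ≥ c₁ + kb⁻ + 2 |a₂|` -/
theorem Ecp_pi {p ε : ℝ} (hp : 0 ≤ p - π)
    (hε : ε * π = (|(d.c.c1 : ℝ) - d.kb| + 2 * |(d.c.a2 : ℝ)|) * (p - π)) {X : ℂ}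
    (hX : ‖X‖ ≤ 1) : 0 ≤ d.Ecp (d.c.c1 + ε) π X - d.Ecp d.c.c1 p X := by
  have h4 : d.Ecp (d.c.c1 + ε) π X - d.Ecp d.c.c1 p X =
      (ε * π - (d.c.c1 - d.kb) * (p - π)) * (1 - X.re) +
      d.c.a2 * (p - π) * ((X.re - 1) ^ 2 - X.im ^ 2) := by
    unfold Ecp Pool.Agent.Helper69.EK6.Dat.Ecp
    ring
  rw [h4, hε]
  have h5 := disc_im hX
  have h6 : -(|(d.c.a2 : ℝ)| * (2 * (1 - X.re))) ≤ d.c.a2 * ((X.re - 1) ^ 2 - X.im ^ 2) := by
    have h7 : |(d.c.a2 : ℝ) * ((X.re - 1) ^ 2 - X.im ^ 2)| ≤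
        |(d.c.a2 : ℝ)| * (2 * (1 - X.re)) := by
      rw [abs_mul]
      exact mul_le_mul_of_nonneg_left h5 (abs_nonneg _)
    exact (abs_le.1 h7).1
  have h8 := mul_le_mul_of_nonneg_left h6 hp
  have h9 := le_abs_self ((d.c.c1 : ℝ) - d.kb)
  have h10 : 0 ≤ 1 - X.re := by
    have := (Complex.abs_re_le_norm X).trans hX
    have := (abs_le.1 this).2
    (clear * - this; linarith)
  have h11 := mul_nonneg (mul_nonneg (sub_nonneg.2 h9) hp) h10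
  (clear * - h8 h11; linarith only [h8, h11])

end DatM

end Pool.Agent.Helper71.CK

end

section

namespace Pool.Sos71
end Pool.Sos71
namespace Pool.EK71
end Pool.EK71
namespace Pool.Agent.Helper52.EK
end Pool.Agent.Helper52.EK
namespace Pool.Agent.Helper2.EK
end Pool.Agent.Helper2.EK
namespace Pool.Agent.Helper69.EK3
end Pool.Agent.Helper69.EK3
namespace Pool.Agent.Helper69.EK5
end Pool.Agent.Helper69.EK5
namespace Pool.Agent.Helper69.EK6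
end Pool.Agent.Helper69.EK6
namespace Pool.Agent.Helper69.EK6.Dat
end Pool.Agent.Helper69.EK6.Dat
namespace Pool.Agent.Helper69.EK3.Dat
end Pool.Agent.Helper69.EK3.Dat
namespace Pool.Agent.Helper69.EK7
end Pool.Agent.Helper69.EK7
namespace Pool.Agent.Helper20.CK
end Pool.Agent.Helper20.CK
namespace Pool.Agent.Helper20.EK7
end Pool.Agent.Helper20.EK7

set_option autoImplicit false

open Complex MeasureTheory Metric Set

open scoped Real ComplexConjugate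

namespace Pool.Agent.Helper71.CK

open Pool.Sos71

open Pool.EK71 Pool.Agent.Helper52.EK Pool.Agent.Helper2.EK

open Pool.Agent.Helper69.EK3 hiding NM KM

open Pool.Agent.Helper69.EK5 (DQ Dd Dd_pos Dd_low Dn Dn_ev)

open Pool.Agent.Helper69.EK6 (px px_o csE_re eCon px_TT)

open Pool.Agent.Helper69.EK6.Dat (SideOk_con)

open Pool.Agent.Helper69.EK3.Dat (SideOk disc_im)

open Pool.Agent.Helper69.EK7 (px9 re9 re9_low low CE)

open Pool.Agent.Helper20.CK (cAB cDD AB DD v_cAB v_cDD cmj_e0)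

open Pool.Agent.Helper20.EK7

/-- `td (X² - 1) - tn` -/
def cXt (tn td : ℤ) : CE := ⟨Ex.bp [[Int.neg tn, 0, Int.neg td], [Int.mul 2 td], [td]],
  Ex.bp [[0, Int.mul 2 td], [0, Int.mul 2 td]]⟩

/-- `conj m ^ j e₀ (td (X² - 1) - tn)`, `j ≤ 2`, weight 4 -/
def cMt (tn td : ℤ) (j : ℕ) : CE := CE.mul (CE.mul (CE.pow cAB (2 - j)) (CE.pow cDD j)) (cXt tn td)

section val

variable (l η : ℝ) (X Y Z w : ℂ) (tn td : ℤ)

theorem v_cXt : CE.v (px9 l η X Y Z w) (cXt tn td) = td * (X ^ 2 - 1) - tn := by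
  have e1 : Int.neg tn = - tn := rfl
  have e2 : Int.neg td = - td := rfl
  have e3 : Int.mul 2 td = 2 * td := rfl
  apply Complex.ext
  · show ev2 (X.re - 1) X.im [[Int.neg tn, 0, Int.neg td], [Int.mul 2 td], [td]] = _
    rw [e1, e2, e3]
    simp only [ev2, ev1, pow_two, sub_re, mul_re, one_re, intCast_re, intCast_im, sub_im, mul_im,
      one_im]
    push_cast
    ring
  · show ev2 (X.re - 1) X.im [[0, Int.mul 2 td], [0, Int.mul 2 td]] = _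
    rw [e3]
    simp only [ev2, ev1, pow_two, sub_re, mul_re, one_re, intCast_re, intCast_im, sub_im, mul_im,
      one_im]
    push_cast
    ring

theorem v_cMt {j : ℕ} (hj : j ≤ 2) : CE.v (px9 l η X Y Z w) (cMt tn td j) =
    conj (mX X Y (Real.sin η) (Real.cos η)) ^ j * e0 (Real.sin η) (Real.cos η) *
      (td * (X ^ 2 - 1) - tn) := by
  have hSC : Real.sin (η / 2) ^ 2 + Real.cos (η / 2) ^ 2 = 1 := Real.sin_sq_add_cos_sq _
  rw [cMt, CE.v_mul, CE.v_mul, CE.v_pow, CE.v_pow, v_cAB, v_cDD, v_cXt, sin_half η, cos_half η,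
    cmj_e0 hSC (P := (Real.sin (η / 2) : ℂ) * (Y / X)) rfl (show j + (2 - j) = 2 by omega)]

theorem re_cMt {j : ℕ} (hj : j ≤ 2) : (cMt tn td j).r.re (px l η X Y) =
    (conj (mX X Y (Real.sin η) (Real.cos η)) ^ j * e0 (Real.sin η) (Real.cos η) *
      (td * (X ^ 2 - 1) - tn)).re := by
  have h1 : re9 (px9 l η X Y 0 0) (cMt tn td j).r = (conj (mX X Y (Real.sin η) (Real.cos η)) ^ j *
      e0 (Real.sin η) (Real.cos η) * (td * (X ^ 2 - 1) - tn)).re := by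
    rw [← v_cMt l η X Y 0 0 tn td hj]
    rfl
  have h2 : low (cMt tn td j).r = true := by
    interval_cases j <;> rfl
  rw [re9_low _ _ h2] at h1
  exact h1

/-- `c lⁿ Re [(conj m)^j e₀ (td (X² - 1) - tn)]`, times `D^K` -/
def EMt (tn td : ℤ) (a : DQ) (K h : ℕ) (t : ℕ × ℕ × ℤ) : Ex :=
  Ex.mul (Ex.mul (Ex.pow (Ex.va 0) t.1) (Ex.sc t.2.2 (cMt tn td t.2.1).r))
    (Ex.mul (Ex.pow eo (h - 2)) (Ex.bp (Dn a K)))

theorem EMt_re (a : DQ) (K h : ℕ) (t : ℕ × ℕ × ℤ) (ht : t.2.1 ≤ 2) :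
    (EMt tn td a K h t).re (px l η X Y) = Dd a X.re X.im ^ K *
      ((t.2.2 : ℂ) * ((l : ℂ) ^ t.1 * conj (mX X Y (Real.sin η) (Real.cos η)) ^ t.2.1) *
        e0 (Real.sin η) (Real.cos η) * (td * (X ^ 2 - 1) - tn)).re := by
  have h1 := re_cMt l η X Y tn td ht
  have e : (EMt tn td a K h t).re (px l η X Y) = l ^ t.1 * ((t.2.2 : ℝ) *
      (cMt tn td t.2.1).r.re (px l η X Y)) * (eo.re (px l η X Y) ^ (h - 2) *
        ev2 (X.re - 1) X.im (Dn a K)) := rfl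
  rw [e, px_o, one_pow, Dn_ev, h1]
  have e2 : (t.2.2 : ℂ) * ((l : ℂ) ^ t.1 * conj (mX X Y (Real.sin η) (Real.cos η)) ^ t.2.1) *
      e0 (Real.sin η) (Real.cos η) * (td * (X ^ 2 - 1) - tn) = ((t.2.2 * l ^ t.1 : ℝ) : ℂ) *
      (conj (mX X Y (Real.sin η) (Real.cos η)) ^ t.2.1 * e0 (Real.sin η) (Real.cos η) *
        (td * (X ^ 2 - 1) - tn)) := by
    push_cast
    ring
  rw [e2, re_ofReal_mul]
  ring

end val

/-- multiplication of the coefficients by `td` -/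
def scl (td : ℤ) (L : List (ℕ × ℕ × ℤ)) : List (ℕ × ℕ × ℤ) :=
  L.map fun t => (t.1, t.2.1, Int.mul td t.2.2)

theorem MS_scl (td : ℤ) (L : List (ℕ × ℕ × ℤ)) (l : ℝ) (m : ℂ) :
    MS (scl td L) l m = td * MS L l m := by
  unfold MS scl
  induction L with
  | nil => simp
  | cons t L ih =>
    have e : Int.mul td t.2.2 = td * t.2.2 := rfl
    rw [List.map_cons, List.map_cons, List.sum_cons, ih, List.map_cons, List.sum_cons, e]
    push_cast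
    ring

structure DatT where
  d : DatM
  tn : ℤ
  td : ℤ

namespace DatT

variable (s : DatT)

def tSide (f : Sd) (L : List (ℕ × ℕ × ℤ)) : Ex :=
  Ex.add (s.d.c.tSide f) (sumE (EMt s.tn s.td s.d.c.a s.d.c.K s.d.c.h) s.d.tX L)

variable {s}

theorem mt_re {L : List (ℕ × ℕ × ℤ)} (hL : ∀ t ∈ L, t.2.1 ≤ 2) (l η : ℝ) (X Y : ℂ) :
    (L.map fun t => (EMt s.tn s.td s.d.c.a s.d.c.K s.d.c.h t).re (px l η X Y)).sum =
      Dd s.d.c.a X.re X.im ^ s.d.c.K * (MS L l (mX X Y (Real.sin η) (Real.cos η)) *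
        e0 (Real.sin η) (Real.cos η) * (s.td * (X ^ 2 - 1) - s.tn)).re := by
  rw [map_sum_congr L fun t ht => EMt_re l η X Y s.tn s.td s.d.c.a s.d.c.K s.d.c.h t (hL t ht),
    map_sum_mul]
  congr 1
  unfold MS
  induction L with
  | nil => simp
  | cons t L ih =>
    rw [List.map_cons, List.sum_cons, ih fun r hr => hL r (List.mem_cons_of_mem _ hr),
      List.map_cons, List.sum_cons, add_mul, add_mul, add_re]

theorem tSide_re (w : s.d.Wf) {f : Sd} {L : List (ℕ × ℕ × ℤ)} (hL : ∀ t ∈ L, t.2.1 ≤ 2)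
    {X Y : ℂ} (hX : X ≠ 0) (l η : ℝ) (h : (eCon f).re (px l η X Y) = 0) :
    (s.tSide f L).re (px l η X Y) = Dd s.d.c.a X.re X.im ^ s.d.c.K *
      (s.d.NT X Y η + (s.d.c.lam * ‖X - 1‖ ^ 2 + s.d.c.a2 * ((X.re - 1) ^ 2 - X.im ^ 2)) +
        (s.d.kb * (1 - X.re) + s.d.del) +
        (MS L l (mX X Y (Real.sin η) (Real.cos η)) * e0 (Real.sin η) (Real.cos η) *
          (s.td * (X ^ 2 - 1) - s.tn)).re -
        (Pool.Agent.Helper69.EK6.eTT s.d.c.M f).re (px l η X Y)) := by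
  have e : (s.tSide f L).re (px l η X Y) = (s.d.c.tSide f).re (px l η X Y) +
      (sumE (EMt s.tn s.td s.d.c.a s.d.c.K s.d.c.h) s.d.tX L).re (px l η X Y) := rfl
  rw [e, sumE_re, DatM.tX_re, mt_re hL,
    Pool.Agent.Helper69.EK6.Dat.tSide_re w.c f hX l η h]
  unfold DatM.NT
  ring

/-- the multiplier of the data -/
noncomputable def Mu (s : DatT) (p0 p1 p2 q0 q1 q2 : ℝ) (m : ℂ) : ℂ :=
  Mq s.d.c.M (scl s.td s.d.MI) (scl s.td s.d.MO) p0 p1 p2 q0 q1 q2 m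

variable {ka kb p0 p1 p2 la lb q0 q1 q2 : ℝ} {Ln Ld Ln' Ld' : ℤ}

theorem Mu_conj (m : ℂ) : s.Mu p0 p1 p2 q0 q1 q2 (conj m) = conj (s.Mu p0 p1 p2 q0 q1 q2 m) :=
  Mq_conj _ _ _ _ _ _ _ _ _ _

end DatT

end Pool.Agent.Helper71.CK

end

section

namespace Pool.Sos71
end Pool.Sos71
namespace Pool.EK71
end Pool.EK71
namespace Pool.Agent.Helper52.EK
end Pool.Agent.Helper52.EK
namespace Pool.Agent.Helper2.EK
end Pool.Agent.Helper2.EK
namespace Pool.Agent.Helper69.EK3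
end Pool.Agent.Helper69.EK3
namespace Pool.Agent.Helper69.EK5
end Pool.Agent.Helper69.EK5
namespace Pool.Agent.Helper69.EK6
end Pool.Agent.Helper69.EK6
namespace Pool.Agent.Helper69.EK6.Dat
end Pool.Agent.Helper69.EK6.Dat
namespace Pool.Agent.Helper69.EK3.Dat
end Pool.Agent.Helper69.EK3.Dat
namespace Pool.Agent.Helper69.EK7
end Pool.Agent.Helper69.EK7
namespace Pool.Agent.Helper20.EK7
end Pool.Agent.Helper20.EK7
namespace Pool.Agent.Helper84.CK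
end Pool.Agent.Helper84.CK
namespace Pool.Agent.Helper71.EKC
end Pool.Agent.Helper71.EKC
namespace Pool.Agent.Helper71.EK3
end Pool.Agent.Helper71.EK3

set_option autoImplicit false

open Complex MeasureTheory Metric Set

open scoped Real ComplexConjugate

namespace Pool.Agent.Helper71.CK

open Pool.Sos71

open Pool.EK71 Pool.Agent.Helper52.EK Pool.Agent.Helper2.EK

open Pool.Agent.Helper69.EK3

open Pool.Agent.Helper69.EK5 (DQ Dd Dd_pos Dd_low DL e_D qX qY Rr c1_Rr Dn Dn_ev Rr_conj_even Rr_conj_odd Rs Dd_conj)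

open Pool.Agent.Helper69.EK6 (px px_o csE_re eCon px_TT)

open Pool.Agent.Helper69.EK6.Dat (SideOk_con)

open Pool.Agent.Helper69.EK3.Dat (SideOk disc_im)

open Pool.Agent.Helper69.EK7 (Grp HC c1_HC aT hd_aT EGr)

open Pool.Agent.Helper20.EK7 (InL OutL)

open Pool.Agent.Helper84.CK

open Pool.Agent.Helper71.EKC (c1_conj)

open Pool.Agent.Helper71.EK3 (e_G2)

/-- `∑ asum(g) M₁` -/
def gs1 (G : Grp) : BP := sumB (fun t => sm2 (asum t.1) t.2.1) [] G.l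

/-- `∑ asum(g) M₂` -/
def gs2 (G : Grp) : BP := sumB (fun t => sm2 (asum t.1) t.2.2) [] G.l

/-- conditions on a group -/
def okGr (K h : ℕ) (G : Grp) : Bool :=
  Nat.beq G.n 0 && Nat.beq G.e 0 && Nat.ble (G.k + 1) K && Nat.ble (G.j + 1) (2 * h) &&
  G.l.all (fun t => ahom (2 * h - 1 - G.j) t.1) && G.l.all (fun t => okW G.k t) &&
  (Nat.beq G.j 0 || (par2 true (gs1 G) && par2 false (gs2 G)))

structure OkGr (K h : ℕ) (G : Grp) : Prop where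
  n : G.n = 0
  e : G.e = 0
  k : G.k + 1 ≤ K
  j : G.j + 1 ≤ 2 * h
  hom : ∀ t ∈ G.l, ahom (2 * h - 1 - G.j) t.1 = true
  gr : ∀ t ∈ G.l, okW G.k t = true
  cen : G.j = 0 ∨ (par2 true (gs1 G) = true ∧ par2 false (gs2 G) = true)

theorem okGr_iff {K h : ℕ} {G : Grp} (w : okGr K h G = true) : OkGr K h G := by
  simp only [okGr, Bool.and_eq_true, Bool.or_eq_true, Nat.beq_eq, Nat.ble_eq,
    List.all_eq_true] at w
  obtain ⟨⟨⟨⟨⟨⟨h1, h2⟩, h3⟩, h4⟩, h5⟩, h6⟩, h7⟩ := w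
  exact ⟨h1, h2, h3, h4, h5, h6, h7⟩

theorem gs_ev (L : List (AP × BP × BP)) (f : AP × BP × BP → BP) (x y : ℝ) :
    ev2 x y (sumB (fun t => sm2 (asum t.1) (f t)) [] L) =
      (L.map fun t => (asum t.1 : ℝ) * ev2 x y (f t)).sum := by
  rw [sumB_ev]
  simp only [ev2_sm]
  have : ev2 x y [] = 0 := rfl
  rw [this, add_zero]

section cen

variable {K h : ℕ} {G : Grp} (w : OkGr K h G) (a : DQ)

include w

theorem aT_half {t : AP × BP × BP} (ht : t ∈ G.l) :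
    aT G.j t.1 (π / 2) = 2 * (asum t.1 : ℝ) / 2 ^ h := by
  have e0 : 2 * h - 1 - G.j + (G.j + 1) + 0 = 2 * h := by
    have := w.j
    omega
  have g1 : ahom (2 * h) (ash (G.j + 1) 0 t.1) = true := by
    have := ahom_ash (G.j + 1) 0 (w.hom t ht)
    rwa [e0] at this
  unfold aT
  rw [af_half_even g1, asum_ash]
  ring

/-- the sum of the centre terms of a group -/
theorem KG_sum (X Y : ℂ) : (G.l.map fun t => KGt a G.j G.k t X Y).sum =
    - (2 / 2 ^ h * (((Rr a G.k (gs1 G) X : ℂ) + I * (Rr a G.k (gs2 G) X : ℂ)) *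
      (Y / X) ^ G.j).im) := by
  have e : ∀ t ∈ G.l, KGt a G.j G.k t X Y = - (2 / 2 ^ h *
      ((((asum t.1 : ℝ) * ev2 (X.re - 1) X.im t.2.1 / Dd a X.re X.im ^ G.k : ℝ) +
        I * (((asum t.1 : ℝ) * ev2 (X.re - 1) X.im t.2.2 / Dd a X.re X.im ^ G.k : ℝ) : ℂ)) *
          (Y / X) ^ G.j).im) := by
    intro t ht
    unfold KGt
    rw [aT_half w ht]
    unfold HC Rr
    have e1 : ((((asum t.1 : ℝ) * ev2 (X.re - 1) X.im t.2.1 / Dd a X.re X.im ^ G.k : ℝ) : ℂ) +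
        I * (((asum t.1 : ℝ) * ev2 (X.re - 1) X.im t.2.2 / Dd a X.re X.im ^ G.k : ℝ) : ℂ)) *
          (Y / X) ^ G.j = ((asum t.1 : ℝ) : ℂ) *
        ((((ev2 (X.re - 1) X.im t.2.1 / Dd a X.re X.im ^ G.k : ℝ) : ℂ) +
        I * ((ev2 (X.re - 1) X.im t.2.2 / Dd a X.re X.im ^ G.k : ℝ) : ℂ)) *
          (Y / X) ^ G.j) := by
      push_cast
      ring
    rw [e1, im_ofReal_mul]
    ring
  rw [map_sum_congr _ e]
  have e2 : ∀ L : List (AP × BP × BP), (L.map fun t => - (2 / 2 ^ h *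
      ((((asum t.1 : ℝ) * ev2 (X.re - 1) X.im t.2.1 / Dd a X.re X.im ^ G.k : ℝ) +
        I * (((asum t.1 : ℝ) * ev2 (X.re - 1) X.im t.2.2 / Dd a X.re X.im ^ G.k : ℝ) : ℂ)) *
          (Y / X) ^ G.j).im)).sum = - (2 / 2 ^ h *
      (((((L.map fun t => (asum t.1 : ℝ) * ev2 (X.re - 1) X.im t.2.1).sum /
        Dd a X.re X.im ^ G.k : ℝ) : ℂ) + I * (((L.map fun t => (asum t.1 : ℝ) *
          ev2 (X.re - 1) X.im t.2.2).sum / Dd a X.re X.im ^ G.k : ℝ) : ℂ)) *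
          (Y / X) ^ G.j).im) := by
    intro L
    induction L with
    | nil => simp
    | cons t L ih =>
      rw [List.map_cons, List.sum_cons, ih, List.map_cons, List.sum_cons, List.map_cons,
        List.sum_cons]
      push_cast
      have e3 : ∀ (A1 B1 A2 B2 D q : ℂ), ((A1 + A2) / D + I * ((B1 + B2) / D)) * q =
          (A1 / D + I * (B1 / D)) * q + (A2 / D + I * (B2 / D)) * q := by
        intros
        ring
      rw [e3, add_im]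
      ring
  rw [e2, ← gs_ev G.l (fun t => t.2.1), ← gs_ev G.l (fun t => t.2.2)]
  rfl

theorem KG_conj (X Y : ℂ) : (G.l.map fun t => KGt a G.j G.k t X Y).sum +
    (G.l.map fun t => KGt a G.j G.k t (conj X) (conj Y)).sum =
      - (if G.j = 0 then 2 / 2 ^ h * Rs a G.k (gs2 G) X else 0) := by
  rw [KG_sum w, KG_sum w]
  by_cases hj : G.j = 0
  · rw [if_pos hj, hj]
    unfold Rs
    simp only [pow_zero, mul_one, add_im, ofReal_im, mul_im, I_re, I_im, ofReal_re]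
    ring
  · rw [if_neg hj]
    rcases w.cen with h1 | ⟨h1, h2⟩
    · exact absurd h1 hj
    · rw [Rr_conj_even h1, Rr_conj_odd h2]
      have e : ((Rr a G.k (gs1 G) X : ℂ) + I * ((- Rr a G.k (gs2 G) X : ℝ) : ℂ)) *
          (conj Y / conj X) ^ G.j = conj (((Rr a G.k (gs1 G) X : ℂ) +
            I * (Rr a G.k (gs2 G) X : ℂ)) * (Y / X) ^ G.j) := by
        simp
      rw [e, conj_im]
      ring

end cen

structure DatG where
  s : DatT
  GR : List Grp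

namespace DatG

variable (g : DatG)

/-- the target of one side -/
def tSide (f : Sd) (L : List (ℕ × ℕ × ℤ)) : Ex :=
  sumE (EGr g.s.d.c.a g.s.d.c.K) (g.s.tSide f L) g.GR

/-- the target inside -/
def tIn : Ex := g.tSide g.s.d.c.fi g.s.d.MI

/-- the target outside -/
def tOut : Ex := g.tSide g.s.d.c.fo g.s.d.MO

/-- conditions on the data -/
def wf : Bool :=
  g.s.d.wf && g.s.d.c.UU.isEmpty && g.s.d.c.VX.isEmpty && g.s.d.c.VE.isEmpty &&
  g.s.d.c.F0.isEmpty && g.s.d.c.F1.isEmpty && g.s.d.c.HH.isEmpty &&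
  g.GR.all (okGr g.s.d.c.K g.s.d.c.h)

structure Wf : Prop where
  d : g.s.d.Wf
  uu : g.s.d.c.UU = []
  vx : g.s.d.c.VX = []
  ve : g.s.d.c.VE = []
  f0 : g.s.d.c.F0 = []
  f1 : g.s.d.c.F1 = []
  hh : g.s.d.c.HH = []
  gr : ∀ G ∈ g.GR, OkGr g.s.d.c.K g.s.d.c.h G

theorem wf_iff (h : g.wf = true) : g.Wf := by
  simp only [wf, Bool.and_eq_true, List.isEmpty_iff, List.all_eq_true] at h
  obtain ⟨⟨⟨⟨⟨⟨⟨h1, h2⟩, h3⟩, h4⟩, h5⟩, h6⟩, h7⟩, h8⟩ := h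
  exact ⟨DatM.wf_iff _ h1, h2, h3, h4, h5, h6, h7, fun G hG => okGr_iff (h8 G hG)⟩

/-- the groups -/
noncomputable def NGR (X Y : ℂ) (η : ℝ) : ℝ :=
  (g.GR.map fun G => (G.l.map fun t => NGt g.s.d.c.a G.j G.k t X Y η).sum).sum

noncomputable def KGR (X Y : ℂ) : ℝ :=
  (g.GR.map fun G => (G.l.map fun t => KGt g.s.d.c.a G.j G.k t X Y).sum).sum

/-- the total null Lagrangian -/
noncomputable def NT (X Y : ℂ) (η : ℝ) : ℝ := g.s.d.NT X Y η + g.NGR X Y η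

/-- its centre function -/
noncomputable def KT (X Y : ℂ) : ℝ := g.s.d.KT X Y + g.KGR X Y

variable {g}

theorem tSide_re (w : g.Wf) {f : Sd} {L : List (ℕ × ℕ × ℤ)} (hL : ∀ t ∈ L, t.2.1 ≤ 2)
    {X Y : ℂ} (hX : X ≠ 0) (l η : ℝ) (h : (eCon f).re (px l η X Y) = 0) :
    (g.tSide f L).re (px l η X Y) = Dd g.s.d.c.a X.re X.im ^ g.s.d.c.K *
      (g.NT X Y η + (g.s.d.c.lam * ‖X - 1‖ ^ 2 + g.s.d.c.a2 * ((X.re - 1) ^ 2 - X.im ^ 2)) +
        (g.s.d.kb * (1 - X.re) + g.s.d.del) +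
        (MS L l (mX X Y (Real.sin η) (Real.cos η)) * e0 (Real.sin η) (Real.cos η) *
          (g.s.td * (X ^ 2 - 1) - g.s.tn)).re -
        (Pool.Agent.Helper69.EK6.eTT g.s.d.c.M f).re (px l η X Y)) := by
  unfold tSide
  rw [sumE_re, DatT.tSide_re w.d hL hX l η h,
    map_sum_congr g.GR fun G hG => EGr_low g.s.d.c.a (w.gr G hG).n (w.gr G hG).e (w.gr G hG).k
      l η hX Y, map_sum_mul]
  unfold NT NGR
  ring

/-- conditions on the data -/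
structure Ok (g : DatG) (ka kb p0 p1 p2 la lb q0 q1 q2 : ℝ) (Ln Ld Ln' Ld' : ℤ) : Prop where
  wf : g.wf = true
  M0 : 0 < g.s.d.c.M
  td0 : 0 < g.s.td
  lam0 : 0 ≤ g.s.d.c.lam
  fi : SideOk g.s.d.c.M g.s.d.c.fi 1 ka kb p0 p1 p2
  fo : SideOk g.s.d.c.M g.s.d.c.fo (-1) la lb q0 q1 q2
  Ld0 : 0 < Ld
  Ld0' : 0 < Ld'
  inL : InL p0 p1 p2
  outL : OutL la q0 q1 q2
  lIn : LIn p0 p1 p2 (Ln / Ld)
  lOut : LOut q0 q1 q2 (Ln' / Ld')

variable {ka kb p0 p1 p2 la lb q0 q1 q2 : ℝ} {Ln Ld Ln' Ld' : ℤ}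

/-- **the total null Lagrangian is null against weights** -/
theorem isNullW_NT (w : g.Wf) :
    IsNullW DiscP (fun X ξ η => g.NT (X (pt ξ η)) (deriv X (pt ξ η)) η)
      (fun X ξ => g.KT (X (pt ξ (π / 2))) (deriv X (pt ξ (π / 2)))) := by
  have n1 := IsNullW.list g.s.d.c.HM (fun t _ =>
    (isNullW_har' (trg_cont t.1 t.2.1) 2 le_rfl).const_mul (t.2.2 : ℝ))
  have n2 := IsNullW.list g.s.d.HM1 (fun t _ =>
    (isNullW_har' (trg_cont t.1 t.2.1) 1 (by norm_num)).const_mul (t.2.2 : ℝ))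
  have n3 := IsNullW.list g.GR (fun G hG => IsNullW.list G.l fun t ht =>
    isNullW_Gt g.s.d.c.a G.j G.k t ((w.gr G hG).gr t ht))
  refine ((n1.add n2).add n3).congr (fun X ξ η => ?_) (fun X ξ => ?_)
  · unfold NT NGR DatM.NT Pool.Agent.Helper69.EK6.Dat.NT
    rw [w.uu, w.vx, w.ve, w.f0, w.f1, w.hh]
    simp only [List.map_nil, List.sum_nil, zero_add]
    rfl
  · unfold KT KGR DatM.KT Pool.Agent.Helper69.EK6.Dat.KT
    rw [w.uu, w.vx, w.ve, w.f0, w.f1, w.hh]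
    simp only [List.map_nil, List.sum_nil, zero_add]
    rfl

section cen

variable (g)

def cG (G : Grp) : BP := match G.j with
  | 0 => sm2 2712 (mu2 (ad2 (gs2 G) (fl2 (gs2 G))) (Dn g.s.d.c.a (g.s.d.c.K - G.k)))
  | _ => []

/-- the centre polynomial: `12 · 113 · 2^h · D^K · E_c` with `355/113` for `π` -/
def cen : BP := sumB g.cG g.s.d.cen g.GR

/-- the centre function with `p` for `π` and `k` for `c₁` -/
noncomputable def Ecp (k p : ℝ) (X : ℂ) : ℝ :=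
  g.s.d.Ecp k p X + (g.GR.map fun G => if G.j = 0 then
    2 / 2 ^ g.s.d.c.h * Rs g.s.d.c.a G.k (gs2 G) X else 0).sum

end cen

theorem cen_ev (w : g.Wf) (X : ℂ) : ev2 (X.re - 1) X.im g.cen =
    1356 * 2 ^ g.s.d.c.h * Dd g.s.d.c.a X.re X.im ^ g.s.d.c.K *
      g.Ecp g.s.d.c.c1 (355 / 113) X := by
  have hD := (Dd_pos g.s.d.c.a X.re X.im).ne'
  have eG : ∀ G ∈ g.GR, ev2 (X.re - 1) X.im (g.cG G) =
      1356 * 2 ^ g.s.d.c.h * Dd g.s.d.c.a X.re X.im ^ g.s.d.c.K *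
        (if G.j = 0 then 2 / 2 ^ g.s.d.c.h * Rs g.s.d.c.a G.k (gs2 G) X else 0) := by
    intro G hG
    obtain ⟨m, hm⟩ := Nat.exists_eq_add_of_le (le_trans (Nat.le_add_right _ 1) (w.gr G hG).k)
    have e2 : g.s.d.c.K - G.k = m := by omega
    rcases Nat.eq_zero_or_pos G.j with hj | hj
    · have e1 : g.cG G = sm2 2712 (mu2 (ad2 (gs2 G) (fl2 (gs2 G)))
          (Dn g.s.d.c.a (g.s.d.c.K - G.k))) := by
        unfold cG
        rw [hj]
        rfl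
      rw [e1, if_pos hj, ev2_sm, ev2_mu, ev2_ad, fl2_ev, Dn_ev, e2]
      unfold Rs Rr
      rw [Dd_conj, conj_re, conj_im]
      have p1 : Dd g.s.d.c.a X.re X.im ^ g.s.d.c.K = Dd g.s.d.c.a X.re X.im ^ G.k *
          Dd g.s.d.c.a X.re X.im ^ m := by
        rw [hm, pow_add]
      rw [p1]
      field_simp
      push_cast
      ring
    · obtain ⟨j, hj'⟩ : ∃ j, G.j = j + 1 := ⟨G.j - 1, by omega⟩
      have e1 : g.cG G = [] := by
        unfold cG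
        rw [hj']
        rfl
      rw [e1, if_neg (by omega)]
      simp [ev2]
  rw [cen, sumB_ev, map_sum_congr _ eG, map_sum_mul, DatM.cen_ev w.d]
  unfold Ecp
  ring

theorem KT_conj (w : g.Wf) (X Y : ℂ) (k : ℝ) :
    (g.KT X Y + (g.s.d.c.a2 * (π / 2) * ((X.re - 1) ^ 2 - X.im ^ 2) +
      (k - g.s.d.kb) * (π / 2) * (X.re - 1))) +
    (g.KT (conj X) (conj Y) + (g.s.d.c.a2 * (π / 2) * (((conj X).re - 1) ^ 2 -
      (conj X).im ^ 2) + (k - g.s.d.kb) * (π / 2) * ((conj X).re - 1))) =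
      - g.Ecp k π X := by
  have h1 := DatM.KT_conj w.d X Y k
  have h2 := map_sum_congr g.GR fun G hG => KG_conj (w.gr G hG) g.s.d.c.a X Y
  rw [← map_sum_add] at h2
  have h4 : (g.GR.map fun G => - (if G.j = 0 then
      2 / 2 ^ g.s.d.c.h * Rs g.s.d.c.a G.k (gs2 G) X else 0)).sum =
      - (g.GR.map fun G => if G.j = 0 then
        2 / 2 ^ g.s.d.c.h * Rs g.s.d.c.a G.k (gs2 G) X else 0).sum := by
    have := map_sum_mul g.GR (fun G => if G.j = 0 then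
      2 / 2 ^ g.s.d.c.h * Rs g.s.d.c.a G.k (gs2 G) X else 0) (-1)
    simp only [neg_mul, one_mul] at this
    exact this
  rw [h4] at h2
  unfold KT KGR Ecp
  linear_combination h1 + h2

theorem Ecp_c1 (k p : ℝ) : ∃ Ex Ey : ℂ → ℝ, C1f (g.Ecp k p) Ex Ey := by
  obtain ⟨A1, A2, hA⟩ := DatM.Ecp_c1 (d := g.s.d) k p
  obtain ⟨B1, B2, hB⟩ := c1_list g.GR (fun G X => if G.j = 0 then
    2 / 2 ^ g.s.d.c.h * Rs g.s.d.c.a G.k (gs2 G) X else 0) (fun G => by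
      by_cases hj : G.j = 0
      · exact ⟨_, _, c1_congr (c1_mul (c1_const (2 / 2 ^ g.s.d.c.h))
          (c1_add (c1_Rr g.s.d.c.a G.k (gs2 G)) (c1_conj (c1_Rr g.s.d.c.a G.k (gs2 G)))))
          (fun X => by rw [if_pos hj]; unfold Rs; ring) (fun _ => rfl) (fun _ => rfl)⟩
      · exact ⟨_, _, c1_congr (c1_const 0) (fun X => by rw [if_neg hj]) (fun _ => rfl)
          (fun _ => rfl)⟩)
  refine ⟨_, _, c1_congr (c1_add hA hB) (fun X => ?_) (fun _ => rfl) (fun _ => rfl)⟩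
  unfold Ecp
  ring

/-- `355/113` for `π` -/
theorem Ecp_pi {p ε : ℝ} (hp : 0 ≤ p - π)
    (hε : ε * π = (|(g.s.d.c.c1 : ℝ) - g.s.d.kb| + 2 * |(g.s.d.c.a2 : ℝ)|) * (p - π)) {X : ℂ}
    (hX : ‖X‖ ≤ 1) : 0 ≤ g.Ecp (g.s.d.c.c1 + ε) π X - g.Ecp g.s.d.c.c1 p X := by
  have h1 := DatM.Ecp_pi (d := g.s.d) hp hε hX
  unfold Ecp
  (clear * - h1; linarith only [h1])

end DatG

end Pool.Agent.Helper71.CK

end

section

namespace Pool.EK71
end Pool.EK71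
namespace Pool.Agent.Helper71.CK
end Pool.Agent.Helper71.CK
namespace Pool.Agent.Helper69.EK3
end Pool.Agent.Helper69.EK3
namespace Pool.Agent.Helper20.EK7
end Pool.Agent.Helper20.EK7

/-!
# Project CK: bound of the multiplier, checked by the kernel

`mchk true/false ...`: `|MS L l m| ≤ (Bn / Bd) M` for `l = sg (1 - |m|²) r / ρ(m)`,
`ρ(m) = r0 + r1 |m+1|² + r2 |m|²`, on `|m| ≤ 1` and on `1 ≤ |m|`, `|m + 3| ≤ 4`.
-/

set_option autoImplicit false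

open Complex

open scoped ComplexConjugate

namespace Pool.Agent.Helper20.CK

open Pool.EK71

open Pool.Agent.Helper71.CK (MS Mq)

open Pool.Agent.Helper69.EK3 (rF rF_eq re_sq_le)

open Pool.Agent.Helper69.EK3 (imul_cast' iadd_cast')

open Pool.Agent.Helper20.EK7 (InL OutL)

/-- `P ^ n` -/
def pw (P : BP) : ℕ → BP
  | 0 => [[1]]
  | n + 1 => mu2 P (pw P n)

theorem ev2_pw (x y : ℝ) (P : BP) (n : ℕ) : ev2 x y (pw P n) = ev2 x y P ^ n := by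
  induction n with
  | zero => simp [pw, ev2, ev1]
  | succ n ih => rw [pw, ev2_mu, ih, pow_succ]; ring

/-- `w ρ`, in the variables `w x`, `w s` -/
def rh (w r0 r1 r2 : ℤ) : BP :=
  [[Int.mul (Int.add r0 r1) w, Int.add r1 r2], [Int.mul 2 r1]]

/-- `w sg r (1 - s)` -/
def om (w sg r : ℤ) : BP := [[Int.mul (Int.mul sg r) w, Int.neg (Int.mul sg r)]]

/-- the coefficient of `(conj m)^j`, times `(w ρ)^N` -/
def pj (R O : BP) (N j : ℕ) : List (ℕ × ℕ × ℤ) → BP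
  | [] => []
  | t :: L => ad2 (cond (Nat.beq t.2.1 j) (sm2 t.2.2 (mu2 (pw O t.1) (pw R (N - t.1)))) [])
      (pj R O N j L)

/-- `w x` -/
def bX : BP := [[], [1]]

/-- `w s` -/
def bS : BP := [[0, 1]]

/-- a constant -/
def bC (w : ℤ) : BP := [[w]]

/-- `|p0 + p1 conj m + p2 (conj m)²|²`, homogenized with degree two -/
def nq (w : ℤ) (A B C : BP) : BP :=
  ad2 (ad2 (mu2 (bC (Int.mul w w)) (mu2 A A)) (ad2 (mu2 (mu2 (bC w) bS) (mu2 B B))
      (mu2 (mu2 bS bS) (mu2 C C))))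
    (sm2 2 (ad2 (mu2 (mu2 (bC w) bX) (mu2 A B)) (ad2 (mu2 (mu2 bX bS) (mu2 B C))
      (mu2 (ad2 (sm2 2 (mu2 bX bX)) (sm2 (-1) (mu2 (bC w) bS))) (mu2 A C)))))

/-- the polynomial of the condition -/
def mF (w sg r r0 r1 r2 M Bn Bd : ℤ) (N : ℕ) (L : List (ℕ × ℕ × ℤ)) : BP :=
  ad2 (sm2 (Int.mul (Int.mul (Int.mul Bn M) (Int.mul Bn M)) (Int.mul w w))
      (pw (rh w r0 r1 r2) (2 * N)))
    (sm2 (Int.neg (Int.mul Bd Bd))
      (nq w (pj (rh w r0 r1 r2) (om w sg r) N 0 L) (pj (rh w r0 r1 r2) (om w sg r) N 1 L)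
        (pj (rh w r0 r1 r2) (om w sg r) N 2 L)))

/-- `w² (s - x²)` -/
def gS (w : ℤ) : BP := [[0, w], [], [-1]]

/-- `w (7 - s - 6 x)` -/
def g7 (w : ℤ) : BP := [[Int.mul 7 w, -1], [-6]]

def degs (N : ℕ) : List (ℕ × ℕ × ℤ) → Bool
  | [] => true
  | t :: L => and (and (Nat.ble t.1 N) (Nat.ble t.2.1 2)) (degs N L)

/-- the check, resolution `2k`, degree `N` in `l`, depth `n` -/
def mchk (inn : Bool) (k : ℕ) (n N : ℕ) (sg r r0 r1 r2 M Bn Bd : ℤ)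
    (L : List (ℕ × ℕ × ℤ)) : Bool :=
  and (degs N L) (cond inn
    (bx (mF (Int.ofNat (Nat.mul 2 k)) sg r r0 r1 r2 M Bn Bd N L)
      [gS (Int.ofNat (Nat.mul 2 k))] n 0 (Nat.mul 2 k) (Int.ofNat k) k)
    (bx (mF (Int.ofNat (Nat.mul 2 k)) sg r r0 r1 r2 M Bn Bd N L)
      [gS (Int.ofNat (Nat.mul 2 k)), g7 (Int.ofNat (Nat.mul 2 k))] n
      (Int.mul (-6) (Int.ofNat k)) (Nat.mul 8 k) (Int.ofNat (Nat.mul 50 k)) (Nat.mul 48 k)))

/-- `∑ c lⁿ` over the terms with `(conj m)^j` -/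
noncomputable def sj (l : ℝ) (j : ℕ) (L : List (ℕ × ℕ × ℤ)) : ℝ :=
  (L.map fun t => if t.2.1 = j then (t.2.2 : ℝ) * l ^ t.1 else 0).sum

theorem MS_sj {L : List (ℕ × ℕ × ℤ)} (hL : ∀ t ∈ L, t.2.1 ≤ 2) (l : ℝ) (m : ℂ) :
    MS L l m = (sj l 0 L : ℂ) + (sj l 1 L : ℂ) * conj m + (sj l 2 L : ℂ) * conj m ^ 2 := by
  unfold MS sj
  induction L with
  | nil => simp
  | cons t L ih =>
    rw [List.map_cons, List.sum_cons, ih fun s hs => hL s (List.mem_cons_of_mem _ hs)]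
    simp only [List.map_cons, List.sum_cons]
    have h := hL t List.mem_cons_self
    obtain ⟨n, j, c⟩ := t
    simp only at h ⊢
    interval_cases j
    · simp
      ring
    · simp
      ring
    · simp
      ring

theorem norm_sq_quad (a b c : ℝ) (m : ℂ) :
    ‖(a : ℂ) + (b : ℂ) * conj m + (c : ℂ) * conj m ^ 2‖ ^ 2 =
      a ^ 2 + b ^ 2 * ‖m‖ ^ 2 + c ^ 2 * (‖m‖ ^ 2) ^ 2 + 2 * (a * b * m.re) +
        2 * (b * c * (m.re * ‖m‖ ^ 2)) + 2 * (a * c * (2 * m.re ^ 2 - ‖m‖ ^ 2)) := by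
  rw [← normSq_eq_norm_sq, ← normSq_eq_norm_sq, normSq_apply, normSq_apply]
  simp only [pow_two, add_re, add_im, mul_re, mul_im, ofReal_re, ofReal_im, conj_re, conj_im]
  ring

section

variable {w r r0 r1 r2 : ℤ} {sg : ℤ} {x s ρ l : ℝ} {N : ℕ}

theorem ev_rh (w r0 r1 r2 : ℤ) (x s : ℝ) : ev2 (w * x) (w * s) (rh w r0 r1 r2) =
    w * ((r0 + r1 : ℝ) + 2 * r1 * x + (r1 + r2) * s) := by
  simp only [rh, ev2, ev1, imul_cast', iadd_cast']
  push_cast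
  ring

theorem ev_om (w sg r : ℤ) (x s : ℝ) : ev2 (w * x) (w * s) (om w sg r) =
    w * (sg * r * (1 - s)) := by
  have e3 : ((Int.neg (Int.mul sg r) : ℤ) : ℝ) = - (sg * r) := by
    show (((-(sg * r) : ℤ)) : ℝ) = _
    push_cast
    ring
  simp only [om, ev2, ev1, imul_cast', e3]
  ring

theorem ev_pj {w sg r r0 r1 r2 : ℤ} {x s ρ l : ℝ} {N : ℕ}
    (hρ : ρ = (r0 + r1 : ℝ) + 2 * r1 * x + (r1 + r2) * s) (hl : l * ρ = sg * r * (1 - s))
    (j : ℕ) (L : List (ℕ × ℕ × ℤ)) (hL : ∀ t ∈ L, t.1 ≤ N) :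
    ev2 (w * x) (w * s) (pj (rh w r0 r1 r2) (om w sg r) N j L) =
      (w * ρ) ^ N * sj l j L := by
  induction L with
  | nil => simp [pj, ev2, sj]
  | cons t L ih =>
    have ih' := ih fun q hq => hL q (List.mem_cons_of_mem _ hq)
    have hn := hL t List.mem_cons_self
    have e : sj l j (t :: L) = (if t.2.1 = j then (t.2.2 : ℝ) * l ^ t.1 else 0) + sj l j L := by
      simp [sj]
    rw [pj, ev2_ad, ih', e]
    by_cases h : t.2.1 = j
    · have hb : Nat.beq t.2.1 j = true := by rw [h]; exact Nat.beq_refl j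
      rw [hb, cond_true, if_pos h, ev2_sm, ev2_mu, ev2_pw, ev2_pw, ev_rh, ev_om, ← hρ, ← hl]
      have e2 : (w * ρ) ^ N = (w * ρ) ^ t.1 * (w * ρ) ^ (N - t.1) := by
        rw [← pow_add]
        congr 1
        omega
      rw [e2]
      ring
    · have hb : Nat.beq t.2.1 j = false := by
        rw [Bool.eq_false_iff]
        intro h2
        exact h (Nat.eq_of_beq_eq_true h2)
      rw [hb, cond_false, if_neg h]
      simp only [ev2]
      ring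

theorem ev_nq (w : ℤ) (A B C : BP) (x s : ℝ) : ev2 (w * x) (w * s) (nq w A B C) =
    w ^ 2 * (ev2 (w * x) (w * s) A ^ 2 + ev2 (w * x) (w * s) B ^ 2 * s +
      ev2 (w * x) (w * s) C ^ 2 * s ^ 2 +
      2 * (ev2 (w * x) (w * s) A * ev2 (w * x) (w * s) B * x) +
      2 * (ev2 (w * x) (w * s) B * ev2 (w * x) (w * s) C * (x * s)) +
      2 * (ev2 (w * x) (w * s) A * ev2 (w * x) (w * s) C * (2 * x ^ 2 - s))) := by
  unfold nq
  simp only [ev2_ad, ev2_sm, ev2_mu]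
  have e1 : ev2 (w * x) (w * s) (bC (Int.mul w w)) = w * w := by
    simp [bC, ev2, ev1]
  have e2 : ev2 (w * x) (w * s) (bC w) = w := by simp [bC, ev2, ev1]
  have e3 : ev2 (w * x) (w * s) bX = w * x := by simp [bX, ev2, ev1]
  have e4 : ev2 (w * x) (w * s) bS = w * s := by simp [bS, ev2, ev1]
  rw [e1, e2, e3, e4]
  push_cast
  ring

theorem ev_mF {w sg r r0 r1 r2 M Bn Bd : ℤ} {x s ρ l : ℝ} {N : ℕ}
    (hρ : ρ = (r0 + r1 : ℝ) + 2 * r1 * x + (r1 + r2) * s) (hl : l * ρ = sg * r * (1 - s))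
    {L : List (ℕ × ℕ × ℤ)} (hL : ∀ t ∈ L, t.1 ≤ N) :
    ev2 (w * x) (w * s) (mF w sg r r0 r1 r2 M Bn Bd N L) =
      w ^ 2 * ((w * ρ) ^ N) ^ 2 * ((Bn * M) ^ 2 - Bd ^ 2 *
        (sj l 0 L ^ 2 + sj l 1 L ^ 2 * s + sj l 2 L ^ 2 * s ^ 2 +
          2 * (sj l 0 L * sj l 1 L * x) + 2 * (sj l 1 L * sj l 2 L * (x * s)) +
          2 * (sj l 0 L * sj l 2 L * (2 * x ^ 2 - s)))) := by
  unfold mF
  have e3 : ((Int.neg (Int.mul Bd Bd) : ℤ) : ℝ) = - (Bd * Bd) := by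
    show (((-(Bd * Bd) : ℤ)) : ℝ) = _
    push_cast
    ring
  rw [ev2_ad, ev2_sm, ev2_sm, ev2_pw, ev_rh, ev_nq, ev_pj hρ hl 0 L hL, ev_pj hρ hl 1 L hL,
    ev_pj hρ hl 2 L hL, ← hρ, e3]
  simp only [imul_cast']
  rw [pow_mul']
  ring

end

theorem degs_iff {N : ℕ} {L : List (ℕ × ℕ × ℤ)} (h : degs N L = true) :
    (∀ t ∈ L, t.1 ≤ N) ∧ ∀ t ∈ L, t.2.1 ≤ 2 := by
  induction L with
  | nil => simp
  | cons t L ih =>
    simp only [degs, Bool.and_eq_true, Nat.ble_eq] at h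
    obtain ⟨⟨h1, h2⟩, h3⟩ := h
    obtain ⟨k1, k2⟩ := ih h3
    exact ⟨by intro q hq; rcases List.mem_cons.1 hq with rfl | hq <;> [exact h1; exact k1 q hq],
      by intro q hq; rcases List.mem_cons.1 hq with rfl | hq <;> [exact h2; exact k2 q hq]⟩

theorem nmul_cast (a b : ℕ) : ((Nat.mul a b : ℕ) : ℝ) = a * b := by
  show (((a * b : ℕ)) : ℝ) = _
  push_cast
  ring

theorem zof_cast (a : ℕ) : ((Int.ofNat a : ℤ) : ℝ) = a := by simp

/-- **the bound** from the checker -/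
theorem MS_le {inn : Bool} {k n N : ℕ} {sg r r0 r1 r2 M Bn Bd : ℤ}
    {L : List (ℕ × ℕ × ℤ)} (h : mchk inn k n N sg r r0 r1 r2 M Bn Bd L = true) (hk : 0 < k)
    (hM : 0 < M) (hBn : 0 ≤ Bn) (hBd : 0 < Bd) {m : ℂ}
    (hm : (inn = true ∧ ‖m‖ ≤ 1) ∨ (inn = false ∧ 1 ≤ ‖m‖ ∧ ‖m + 3‖ ≤ 4)) {l ρ : ℝ}
    (hρ : ρ = (r0 + r1 : ℝ) + 2 * r1 * m.re + (r1 + r2) * ‖m‖ ^ 2) (hρ0 : ρ ≠ 0)
    (hl : l * ρ = sg * r * (1 - ‖m‖ ^ 2)) :
    ‖MS L l m / (M : ℂ)‖ ≤ (Bn : ℝ) / Bd := by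
  rw [mchk, Bool.and_eq_true] at h
  obtain ⟨hd, h⟩ := h
  obtain ⟨d1, d2⟩ := degs_iff hd
  obtain ⟨w, hw⟩ : ∃ w : ℤ, w = Int.ofNat (Nat.mul 2 k) := ⟨_, rfl⟩
  have hwr : (w : ℝ) = 2 * k := by rw [hw, zof_cast, nmul_cast, Nat.cast_ofNat]
  have hk0 : (0:ℝ) < k := by exact_mod_cast hk
  have hw0 : (0:ℝ) < w := by rw [hwr]; positivity
  rw [← hw] at h
  have hs := re_sq_le m
  obtain ⟨s, hs'⟩ : ∃ s : ℝ, s = ‖m‖ ^ 2 := ⟨_, rfl⟩
  obtain ⟨x, hx'⟩ : ∃ x : ℝ, x = m.re := ⟨_, rfl⟩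
  have hgS : 0 ≤ ev2 (w * x) (w * s) (gS w) := by
    simp only [gS, ev2, ev1]
    push_cast
    have : (w:ℝ) * s * (w + w * s * 0) + w * x * (0 + w * x * (-1 + w * s * 0 + w * x * 0)) =
        w ^ 2 * (s - x ^ 2) := by ring
    have h2 : 0 ≤ (w:ℝ) ^ 2 * (s - x ^ 2) := by
      rw [hs', hx']
      exact mul_nonneg (sq_nonneg _) (sub_nonneg.2 hs)
    (clear * - h2; linarith only [h2])
  have key : 0 < ev2 (w * x) (w * s) (mF w sg r r0 r1 r2 M Bn Bd N L) := by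
    rcases hm with ⟨hi, hm⟩ | ⟨hi, hm, hm3⟩
    · rw [hi, cond_true] at h
      refine bx_sound (G := [gS w]) (by simpa using hgS) n _ _ _ _ h ?_ ?_
      · rw [Int.cast_zero, sub_zero, nmul_cast, abs_mul, abs_of_pos hw0, hwr, hx']
        have := (Complex.abs_re_le_norm m).trans hm
        push_cast
        nlinarith only [this]
      · have h1 : s ≤ 1 := by rw [hs']; (clear * - hm; nlinarith only [norm_nonneg m, hm])
        have h0 : 0 ≤ s := by rw [hs']; (clear * -; positivity)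
        rw [zof_cast, hwr, abs_le]
        constructor <;> (clear * - h0 h1; nlinarith only [h0, h1])
    · rw [hi, cond_false] at h
      have e3 : ‖m + 3‖ ^ 2 = s + 6 * x + 9 := by
        rw [hs', hx', ← normSq_eq_norm_sq, ← normSq_eq_norm_sq, normSq_apply, normSq_apply]
        simp only [add_re, add_im, re_ofNat, im_ofNat]
        ring
      have e4 : s + 6 * x ≤ 7 := by
        have : ‖m + 3‖ ^ 2 ≤ 16 := by (clear * - hm3; nlinarith only [norm_nonneg (m + 3), hm3])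
        linarith only [e3, this]
      have h1 : 1 ≤ s := by rw [hs']; nlinarith only [hm]
      rw [← hs', ← hx'] at hs
      have hx1 : x ≤ 1 := by linarith only [e4, h1]
      have hx7 : -7 ≤ x := by nlinarith only [hs, e4]
      have hs49 : s ≤ 49 := by linarith only [e4, hx7]
      have hg7 : 0 ≤ ev2 (w * x) (w * s) (g7 w) := by
        simp only [g7, ev2, ev1, imul_cast']
        push_cast
        have : (0:ℝ) ≤ w * (7 - s - 6 * x) := mul_nonneg hw0.le (by (clear * - e4; linarith only [e4]))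
        linarith only [this]
      refine bx_sound (G := [gS w, g7 w]) (by
        intro g hg
        simp only [List.mem_cons, List.not_mem_nil, or_false] at hg
        rcases hg with rfl | rfl
        · exact hgS
        · exact hg7) n _ _ _ _ h ?_ ?_
      · rw [imul_cast', zof_cast, nmul_cast, hwr, abs_le]
        push_cast
        constructor <;> (clear * - hx7 hx1; nlinarith only [hx7, hx1])
      · rw [zof_cast, nmul_cast, nmul_cast, hwr, abs_le]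
        push_cast
        constructor <;> nlinarith only [h1, hs49]
  rw [← hs', ← hx'] at hρ
  rw [← hs'] at hl
  rw [ev_mF hρ hl d1] at key
  have h5 : 0 < (w:ℝ) ^ 2 * ((w * ρ) ^ N) ^ 2 := by (clear * - hw0 hρ0; positivity)
  have h6 := (mul_pos_iff_of_pos_left h5).1 key
  have h7 := norm_sq_quad (sj l 0 L) (sj l 1 L) (sj l 2 L) m
  rw [← MS_sj d2 l m, ← hs', ← hx'] at h7
  have hM0 : (0:ℝ) < M := by exact_mod_cast hM
  have hB0 : (0:ℝ) < Bd := by exact_mod_cast hBd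
  have hBn0 : (0:ℝ) ≤ Bn := by exact_mod_cast hBn
  have h8 : (Bd * ‖MS L l m‖) ^ 2 ≤ (Bn * M : ℝ) ^ 2 := by
    rw [mul_pow, h7]
    (clear * - h6; linarith only [h6])
  have h9 : (Bd : ℝ) * ‖MS L l m‖ ≤ Bn * M :=
    le_of_sq_le_sq h8 (mul_nonneg hBn0 hM0.le)
  rw [norm_div, norm_intCast, abs_of_pos hM0, div_le_div_iff₀ hM0 hB0]
  linarith only [h9]

/-- the parameters of one side are the rationals `ri / r` -/
structure ROk (r r0 r1 r2 : ℤ) (p0 p1 p2 : ℝ) : Prop where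
  pos : 0 < r
  e0 : (r0 : ℝ) = r * p0
  e1 : (r1 : ℝ) = r * p1
  e2 : (r2 : ℝ) = r * p2

/-- **the bound of the multiplier** -/
theorem Mq_le {a p0 p1 p2 q0 q1 q2 : ℝ} (hp : InL p0 p1 p2) (hq : OutL a q0 q1 q2)
    {r r0 r1 r2 r' r0' r1' r2' : ℤ} (hr : ROk r r0 r1 r2 p0 p1 p2)
    (hr' : ROk r' r0' r1' r2' q0 q1 q2) {k n N k' n' N' : ℕ} {M Bn Bd : ℤ}
    {MI MO : List (ℕ × ℕ × ℤ)} (hk : 0 < k) (hk' : 0 < k') (hM : 0 < M) (hBn : 0 ≤ Bn)
    (hBd : 0 < Bd) (h : mchk true k n N 1 r r0 r1 r2 M Bn Bd MI = true)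
    (h' : mchk false k' n' N' (-1) r' r0' r1' r2' M Bn Bd MO = true) {m : ℂ}
    (hm : ‖m + 3‖ ≤ 4) : ‖Mq M MI MO p0 p1 p2 q0 q1 q2 m‖ ≤ (Bn : ℝ) / Bd := by
  unfold Mq
  split_ifs with h1
  · obtain ⟨c, hc, hl⟩ := hp.low
    have hr0 : (0:ℝ) < r := by exact_mod_cast hr.pos
    have h2 : 0 < rF p0 p1 p2 m := lt_of_lt_of_le (by (clear * - hc; positivity)) (hl m h1)
    refine MS_le h hk hM hBn hBd (Or.inl ⟨rfl, h1⟩) (ρ := r * rF p0 p1 p2 m) ?_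
      (mul_pos hr0 h2).ne' ?_
    · rw [rF_eq, hr.e0, hr.e1, hr.e2]
      ring
    · push_cast
      field_simp
  · have h1' : 1 ≤ ‖m‖ := (not_le.1 h1).le
    obtain ⟨c, hc, hl⟩ := hq.low
    have hr0 : (0:ℝ) < r' := by exact_mod_cast hr'.pos
    have h2 : 0 < rF q0 q1 q2 m := lt_of_lt_of_le (by (clear * - hc h1'; positivity)) (hl m)
    refine MS_le h' hk' hM hBn hBd (Or.inr ⟨rfl, h1', hm⟩) (ρ := r' * rF q0 q1 q2 m) ?_
      (mul_pos hr0 h2).ne' ?_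
    · rw [rF_eq, hr'.e0, hr'.e1, hr'.e2]
      ring
    · push_cast
      field_simp
      ring

end Pool.Agent.Helper20.CK

end

section

namespace Pool.Agent.Helper71.CK
end Pool.Agent.Helper71.CK
namespace Pool.Agent.Helper69.EK3
end Pool.Agent.Helper69.EK3
namespace Pool.Agent.Helper69.CK
end Pool.Agent.Helper69.CK
namespace Pool.Agent.Helper20.EK7
end Pool.Agent.Helper20.EK7
namespace Pool.Agent.Helper20.CK
end Pool.Agent.Helper20.CK

set_option autoImplicit false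

open Complex Metric Set

open scoped ComplexConjugate

namespace Pool.Agent.Helper11.CK

open Pool.Agent.Helper71.CK (MS Mq scl DatT DatG)

open Pool.Agent.Helper69.EK3 (rF rF_eq)

open Pool.Agent.Helper69.CK (MOk)

open Pool.Agent.Helper20.EK7 (InL OutL prj prj_lip prj_of_le norm_prj_le)

open Pool.Agent.Helper20.CK (mchk ROk Mq_le sj MS_sj)

/-- bounded and Lipschitz on `S` -/
def BL (S : Set ℂ) (f : ℂ → ℂ) : Prop :=
  ∃ B L : ℝ, 0 ≤ B ∧ 0 ≤ L ∧ (∀ m ∈ S, ‖f m‖ ≤ B) ∧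
    ∀ m ∈ S, ∀ m' ∈ S, ‖f m - f m'‖ ≤ L * ‖m - m'‖

section BL

variable {S : Set ℂ} {f g : ℂ → ℂ}

theorem BL.const (S : Set ℂ) (c : ℂ) : BL S fun _ => c :=
  ⟨‖c‖, 0, norm_nonneg _, le_rfl, fun _ _ => le_rfl, fun _ _ _ _ => by simp⟩

theorem BL.add (hf : BL S f) (hg : BL S g) : BL S fun m => f m + g m := by
  obtain ⟨B, L, hB, hL, h1, h2⟩ := hf
  obtain ⟨B', L', hB', hL', h1', h2'⟩ := hg
  refine ⟨B + B', L + L', by (clear * - hB hB'; positivity), by positivity, fun m hm =>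
    (norm_add_le _ _).trans (add_le_add (h1 m hm) (h1' m hm)), fun m hm m' hm' => ?_⟩
  have e : f m + g m - (f m' + g m') = (f m - f m') + (g m - g m') := by ring
  rw [e, add_mul]
  exact (norm_add_le _ _).trans (add_le_add (h2 m hm m' hm') (h2' m hm m' hm'))

theorem BL.mul (hf : BL S f) (hg : BL S g) : BL S fun m => f m * g m := by
  obtain ⟨B, L, hB, hL, h1, h2⟩ := hf
  obtain ⟨B', L', hB', hL', h1', h2'⟩ := hg
  refine ⟨B * B', B * L' + L * B', by (clear * - hB hB'; positivity), by (clear * - hB hL' hL hB'; positivity), fun m hm => ?_,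
    fun m hm m' hm' => ?_⟩
  · rw [norm_mul]
    exact mul_le_mul (h1 m hm) (h1' m hm) (norm_nonneg _) hB
  · have e : f m * g m - f m' * g m' = f m * (g m - g m') + (f m - f m') * g m' := by ring
    rw [e, add_mul]
    refine (norm_add_le _ _).trans (add_le_add ?_ ?_)
    · rw [norm_mul, mul_assoc]
      exact mul_le_mul (h1 m hm) (h2' m hm m' hm') (norm_nonneg _) hB
    · rw [norm_mul]
      have h3 := mul_le_mul (h2 m hm m' hm') (h1' m' hm') (norm_nonneg _)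
        (mul_nonneg hL (norm_nonneg _))
      calc _ ≤ _ := h3
        _ = _ := by ring

theorem BL.inv (hf : BL S f) {c : ℝ} (hc : 0 < c) (h : ∀ m ∈ S, c ≤ ‖f m‖) :
    BL S fun m => (f m)⁻¹ := by
  obtain ⟨B, L, hB, hL, h1, h2⟩ := hf
  have h3 : ∀ m ∈ S, ‖(f m)⁻¹‖ ≤ c⁻¹ := fun m hm => by
    rw [norm_inv]
    exact inv_anti₀ hc (h m hm)
  refine ⟨c⁻¹, c⁻¹ * L * c⁻¹, by positivity, by positivity, h3, fun m hm m' hm' => ?_⟩
  have n1 : f m ≠ 0 := norm_pos_iff.1 (hc.trans_le (h m hm))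
  have n2 : f m' ≠ 0 := norm_pos_iff.1 (hc.trans_le (h m' hm'))
  have e : (f m)⁻¹ - (f m')⁻¹ = (f m)⁻¹ * (f m' - f m) * (f m')⁻¹ := by
    field_simp
  rw [e, norm_mul, norm_mul, norm_sub_rev]
  have h4 := mul_le_mul (h3 m hm) (h2 m hm m' hm') (norm_nonneg _) (inv_nonneg.2 hc.le)
  have h5 := mul_le_mul h4 (h3 m' hm') (norm_nonneg _)
    (mul_nonneg (inv_nonneg.2 hc.le) (mul_nonneg hL (norm_nonneg _)))
  calc _ ≤ _ := h5
    _ = _ := by ring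

theorem BL.pow (hf : BL S f) (n : ℕ) : BL S fun m => f m ^ n := by
  induction n with
  | zero => simpa using BL.const S 1
  | succ n ih => simpa [pow_succ] using ih.mul hf

theorem BL.congr (hf : BL S f) (h : ∀ m, g m = f m) : BL S g := by
  have : g = f := funext h
  rwa [this]

theorem BL.id {R : ℝ} (hR : 0 ≤ R) (hS : ∀ m ∈ S, ‖m‖ ≤ R) : BL S fun m => m :=
  ⟨R, 1, hR, zero_le_one, hS, fun m _ m' _ => by rw [one_mul]⟩

theorem BL.cj {R : ℝ} (hR : 0 ≤ R) (hS : ∀ m ∈ S, ‖m‖ ≤ R) : BL S fun m => conj m :=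
  ⟨R, 1, hR, zero_le_one, fun m hm => by rw [norm_conj]; exact hS m hm,
    fun m _ m' _ => by rw [one_mul, ← map_sub, norm_conj]⟩

theorem BL.contOn (hf : BL S f) : ContinuousOn f S := by
  obtain ⟨B, L, hB, hL, h1, h2⟩ := hf
  have h : LipschitzOnWith (Real.toNNReal L) f S := by
    refine LipschitzOnWith.of_dist_le_mul fun m hm m' hm' => ?_
    rw [dist_eq_norm, dist_eq_norm, Real.coe_toNNReal _ hL]
    exact h2 m hm m' hm'
  exact h.continuousOn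

end BL

section piece

variable {S : Set ℂ} {R : ℝ} (hR : 0 ≤ R) (hS : ∀ m ∈ S, ‖m‖ ≤ R)

include hR hS

theorem bl_sq : BL S fun m => ((‖m‖ ^ 2 : ℝ) : ℂ) :=
  ((BL.id hR hS).mul (BL.cj hR hS)).congr fun m => by
    rw [mul_conj']
    push_cast
    rfl

theorem bl_rF (p0 p1 p2 : ℝ) : BL S fun m => ((rF p0 p1 p2 m : ℝ) : ℂ) := by
  have h1 := ((BL.const S ((p0 + p1 : ℝ) : ℂ)).add ((BL.const S ((p1 : ℝ) : ℂ)).mul
    ((BL.id hR hS).add (BL.cj hR hS)))).add ((BL.const S ((p1 + p2 : ℝ) : ℂ)).mul (bl_sq hR hS))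
  refine h1.congr fun m => ?_
  have e : m + conj m = ((2 * m.re : ℝ) : ℂ) := add_conj m
  rw [rF_eq, e]
  push_cast
  ring

theorem bl_l (s : ℝ) {p0 p1 p2 c : ℝ} (hc : 0 < c) (hl : ∀ m ∈ S, c ≤ rF p0 p1 p2 m) :
    BL S fun m => (((s * (1 - ‖m‖ ^ 2)) / rF p0 p1 p2 m : ℝ) : ℂ) := by
  have h1 := ((BL.const S ((s : ℝ) : ℂ)).mul ((BL.const S 1).add
    ((BL.const S (-1)).mul (bl_sq hR hS)))).mul ((bl_rF hR hS p0 p1 p2).inv hc fun m hm => by
      rw [Complex.norm_real, Real.norm_eq_abs]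
      exact (hl m hm).trans (le_abs_self _))
  refine h1.congr fun m => ?_
  push_cast
  ring

theorem bl_MS (L : List (ℕ × ℕ × ℤ)) {l : ℂ → ℝ} (hl : BL S fun m => ((l m : ℝ) : ℂ)) :
    BL S fun m => MS L (l m) m := by
  unfold MS
  induction L with
  | nil => simpa using BL.const S 0
  | cons t L ih =>
    simp only [List.map_cons, List.sum_cons]
    exact ((BL.const S (t.2.2 : ℂ)).mul ((hl.pow t.1).mul ((BL.cj hR hS).pow t.2.1))).add ih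

end piece

theorem seg_point {m m' : ℂ} (h : ‖m‖ ≤ 1) (h' : 1 < ‖m'‖) : ∃ p : ℂ, ‖p‖ = 1 ∧
    ‖m - p‖ + ‖p - m'‖ = ‖m - m'‖ := by
  have hc : ContinuousOn (fun t : ℝ => ‖m + (t : ℂ) * (m' - m)‖) (Icc 0 1) := by fun_prop
  have h1 := intermediate_value_Icc (zero_le_one (α := ℝ)) hc
  have h2 : (1 : ℝ) ∈ Icc ‖m + ((0 : ℝ) : ℂ) * (m' - m)‖ ‖m + ((1 : ℝ) : ℂ) * (m' - m)‖ := by
    constructor
    · simpa using h
    · simpa using h'.le
  obtain ⟨t, ⟨ht0, ht1⟩, ht⟩ := h1 h2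
  refine ⟨m + (t : ℂ) * (m' - m), ht, ?_⟩
  have e1 : m - (m + (t : ℂ) * (m' - m)) = ((t : ℝ) : ℂ) * (m - m') := by ring
  have e2 : m + (t : ℂ) * (m' - m) - m' = ((1 - t : ℝ) : ℂ) * (m - m') := by push_cast; ring
  rw [e1, e2, norm_mul, norm_mul, Complex.norm_real, Complex.norm_real, Real.norm_eq_abs,
    Real.norm_eq_abs, abs_of_nonneg ht0, abs_of_nonneg (by (clear * - ht1; linarith only [ht1]))]
  ring

theorem glue {f g : ℂ → ℂ} {R : ℝ} (hR : 1 ≤ R) (hf : BL {m | ‖m‖ ≤ 1} f)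
    (hg : BL {m | ‖m‖ ≤ R} g) (h : ∀ m, ‖m‖ = 1 → f m = g m) :
    ∃ L : ℝ, 0 ≤ L ∧ ∀ m m' : ℂ, ‖m‖ ≤ R → ‖m'‖ ≤ R →
      ‖(if ‖m‖ ≤ 1 then f m else g m) - (if ‖m'‖ ≤ 1 then f m' else g m')‖ ≤ L * ‖m - m'‖ := by
  obtain ⟨B, L, hB, hL, h1, h2⟩ := hf
  obtain ⟨B', L', hB', hL', h1', h2'⟩ := hg
  have key : ∀ m m' : ℂ, ‖m‖ ≤ 1 → 1 < ‖m'‖ → ‖m'‖ ≤ R →
      ‖f m - g m'‖ ≤ max L L' * ‖m - m'‖ := by
    intro m m' hm hm' hR'
    obtain ⟨p, hp, hs⟩ := seg_point hm hm'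
    have a1 := h2 m hm p hp.le
    have a2 := h2' p (show ‖p‖ ≤ R by rw [hp]; exact hR) m' hR'
    have e : f m - g m' = (f m - f p) + (g p - g m') := by rw [h p hp]; ring
    rw [e, ← hs, mul_add]
    exact (norm_add_le _ _).trans (add_le_add
      (a1.trans (mul_le_mul_of_nonneg_right (le_max_left _ _) (norm_nonneg _)))
      (a2.trans (mul_le_mul_of_nonneg_right (le_max_right _ _) (norm_nonneg _))))
  refine ⟨max L L', le_max_of_le_left hL, fun m m' hm hm' => ?_⟩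
  split_ifs with c1 c2 c2
  · exact (h2 m c1 m' c2).trans (mul_le_mul_of_nonneg_right (le_max_left _ _) (norm_nonneg _))
  · exact key m m' c1 (not_le.1 c2) hm'
  · rw [norm_sub_rev, norm_sub_rev m m']
    exact key m' m c2 (not_le.1 c1) hm
  · exact (h2' m hm m' hm').trans
      (mul_le_mul_of_nonneg_right (le_max_right _ _) (norm_nonneg _))

/-- the sum of the coefficients of `l⁰ (conj m)^j` -/
def cs (j : ℕ) : List (ℕ × ℕ × ℤ) → ℤ
  | [] => 0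
  | t :: L => cond (Nat.beq t.1 0 && Nat.beq t.2.1 j) (Int.add t.2.2 (cs j L)) (cs j L)

/-- the columns of `l⁰` agree, and `j ≤ 2` -/
def shr (MI MO : List (ℕ × ℕ × ℤ)) : Bool :=
  MI.all (fun t => Nat.ble t.2.1 2) && MO.all (fun t => Nat.ble t.2.1 2) &&
    (cs 0 MI == cs 0 MO) && (cs 1 MI == cs 1 MO) && (cs 2 MI == cs 2 MO)

theorem sj_zero (j : ℕ) (L : List (ℕ × ℕ × ℤ)) : sj 0 j L = cs j L := by
  unfold sj
  induction L with
  | nil => simp [cs]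
  | cons t L ih =>
    obtain ⟨n, i, c⟩ := t
    rw [List.map_cons, List.sum_cons, ih]
    have e : ∀ a b : ℤ, Int.add a b = a + b := fun _ _ => rfl
    cases n with
    | zero =>
      by_cases h : i = j
      · have hb : Nat.beq i j = true := by rw [h]; exact Nat.beq_refl j
        have h0 : Nat.beq 0 0 = true := rfl
        simp [cs, h]
      · have hb : Nat.beq i j = false := by
          rw [Bool.eq_false_iff]
          intro h2
          exact h (Nat.eq_of_beq_eq_true h2)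
        simp [cs, h, hb]
    | succ n =>
      have h0 : Nat.beq (n + 1) 0 = false := rfl
      simp [cs, h0]

theorem MS_shr {MI MO : List (ℕ × ℕ × ℤ)} (h : shr MI MO = true) (m : ℂ) :
    MS MI 0 m = MS MO 0 m := by
  simp only [shr, Bool.and_eq_true, List.all_eq_true, Nat.ble_eq, beq_iff_eq] at h
  obtain ⟨⟨⟨⟨h1, h2⟩, h3⟩, h4⟩, h5⟩ := h
  rw [MS_sj h1, MS_sj h2, sj_zero, sj_zero, sj_zero, sj_zero, sj_zero, sj_zero, h3, h4, h5]

theorem cs_scl (td : ℤ) (j : ℕ) (L : List (ℕ × ℕ × ℤ)) : cs j (scl td L) = td * cs j L := by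
  unfold scl
  induction L with
  | nil => simp [cs]
  | cons t L ih =>
    have e : ∀ a b : ℤ, Int.add a b = a + b := fun _ _ => rfl
    have e2 : ∀ a b : ℤ, Int.mul a b = a * b := fun _ _ => rfl
    rw [List.map_cons, cs, cs, ih]
    cases (Nat.beq t.1 0 && Nat.beq t.2.1 j)
    · rfl
    · simp only [cond_true, e, e2]
      ring

theorem shr_scl {MI MO : List (ℕ × ℕ × ℤ)} (td : ℤ) (h : shr MI MO = true) :
    shr (scl td MI) (scl td MO) = true := by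
  simp only [shr, Bool.and_eq_true, List.all_eq_true, Nat.ble_eq, beq_iff_eq] at h ⊢
  obtain ⟨⟨⟨⟨h1, h2⟩, h3⟩, h4⟩, h5⟩ := h
  refine ⟨⟨⟨⟨?_, ?_⟩, ?_⟩, ?_⟩, ?_⟩
  · intro t ht
    unfold scl at ht
    obtain ⟨s, hs, rfl⟩ := List.mem_map.1 ht
    exact h1 s hs
  · intro t ht
    unfold scl at ht
    obtain ⟨s, hs, rfl⟩ := List.mem_map.1 ht
    exact h2 s hs
  · rw [cs_scl, cs_scl, h3]
  · rw [cs_scl, cs_scl, h4]
  · rw [cs_scl, cs_scl, h5]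

section Mq

variable {a p0 p1 p2 q0 q1 q2 : ℝ} {M : ℤ} {MI MO : List (ℕ × ℕ × ℤ)}

theorem bl_in (hp : InL p0 p1 p2) (M : ℤ) (MI : List (ℕ × ℕ × ℤ)) :
    BL {m | ‖m‖ ≤ 1} fun m => MS MI ((1 - ‖m‖ ^ 2) / rF p0 p1 p2 m) m / (M : ℂ) := by
  obtain ⟨c, hc, hl⟩ := hp.low
  have h1 : BL {m : ℂ | ‖m‖ ≤ 1} fun m => (((1 - ‖m‖ ^ 2) / rF p0 p1 p2 m : ℝ) : ℂ) :=
    (bl_l zero_le_one (fun m hm => hm) 1 hc fun m hm => by
      have := hl m hm
      nlinarith [sq_nonneg ‖m‖]).congr fun m => by rw [one_mul]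
  exact ((bl_MS zero_le_one (fun m hm => hm) MI h1).mul (BL.const _ ((M : ℂ)⁻¹))).congr
    fun m => div_eq_mul_inv _ _

theorem bl_out (hq : OutL a q0 q1 q2) (M : ℤ) (MO : List (ℕ × ℕ × ℤ)) {R : ℝ} (hR : 0 ≤ R) :
    BL {m | ‖m‖ ≤ R} fun m => MS MO ((‖m‖ ^ 2 - 1) / rF q0 q1 q2 m) m / (M : ℂ) := by
  obtain ⟨c, hc, hl⟩ := hq.low
  have h1 : BL {m : ℂ | ‖m‖ ≤ R} fun m => (((‖m‖ ^ 2 - 1) / rF q0 q1 q2 m : ℝ) : ℂ) :=
    (bl_l hR (fun m hm => hm) (-1) hc fun m _ => by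
      have := hl m
      (clear * - this hc; nlinarith only [hc, this])).congr fun m => by
        congr 2
        ring
  exact ((bl_MS hR (fun m hm => hm) MO h1).mul (BL.const _ ((M : ℂ)⁻¹))).congr
    fun m => div_eq_mul_inv _ _

theorem circ (hsh : shr MI MO = true) (m : ℂ) (hm : ‖m‖ = 1) :
    MS MI ((1 - ‖m‖ ^ 2) / rF p0 p1 p2 m) m / (M : ℂ) =
      MS MO ((‖m‖ ^ 2 - 1) / rF q0 q1 q2 m) m / (M : ℂ) := by
  rw [hm, one_pow, sub_self, zero_div, zero_div, MS_shr hsh]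

/-- **continuity** of the multiplier -/
theorem Mq_cont (hp : InL p0 p1 p2) (hq : OutL a q0 q1 q2) (hsh : shr MI MO = true) :
    Continuous (Mq M MI MO p0 p1 p2 q0 q1 q2) := by
  unfold Mq
  refine continuous_if_le continuous_norm continuous_const (bl_in hp M MI).contOn ?_
    fun m hm => circ hsh m hm
  have h1 : Continuous fun m : ℂ => MS MO ((‖m‖ ^ 2 - 1) / rF q0 q1 q2 m) m / (M : ℂ) := by
    rw [continuous_iff_continuousAt]
    intro m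
    refine (bl_out hq M MO (R := ‖m‖ + 1) (by positivity)).contOn.continuousAt ?_
    exact Filter.mem_of_superset (ball_mem_nhds m one_pos) fun w hw => by
      have h2 : ‖w - m‖ < 1 := by rwa [mem_ball, dist_eq_norm] at hw
      have h3 : ‖w‖ ≤ ‖w - m‖ + ‖m‖ := by
        have := norm_add_le (w - m) m
        rwa [sub_add_cancel] at this
      show ‖w‖ ≤ ‖m‖ + 1
      linarith
  exact h1.continuousOn

theorem Mq_lip (hp : InL p0 p1 p2) (hq : OutL a q0 q1 q2) (hsh : shr MI MO = true) {R : ℝ}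
    (hR : 1 ≤ R) : ∃ L : ℝ, 0 ≤ L ∧ ∀ m m' : ℂ, ‖m‖ ≤ R → ‖m'‖ ≤ R →
      ‖Mq M MI MO p0 p1 p2 q0 q1 q2 m - Mq M MI MO p0 p1 p2 q0 q1 q2 m'‖ ≤ L * ‖m - m'‖ :=
  glue hR (bl_in hp M MI) (bl_out hq M MO (zero_le_one.trans hR)) fun m hm => circ hsh m hm

end Mq

/-- retraction on the disc `|m + 3| ≤ r` -/
noncomputable def ret (r : ℝ) (m : ℂ) : ℂ := r * prj ((m + 3) / r) - 3

theorem ret_eq {r : ℝ} (hr : 0 < r) {m : ℂ} (h : ‖m + 3‖ ≤ r) : ret r m = m := by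
  have hr' : (r : ℂ) ≠ 0 := by exact_mod_cast hr.ne'
  unfold ret
  rw [prj_of_le, mul_div_cancel₀ _ hr']
  · ring
  · rw [norm_div, Complex.norm_real, Real.norm_eq_abs, abs_of_pos hr]
    exact (div_le_one hr).2 h

theorem ret_mem {r : ℝ} (hr : 0 < r) (m : ℂ) : ‖ret r m + 3‖ ≤ r := by
  unfold ret
  rw [sub_add_cancel, norm_mul, Complex.norm_real, Real.norm_eq_abs, abs_of_pos hr]
  have := mul_le_mul_of_nonneg_left (norm_prj_le ((m + 3) / r)) hr.le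
  rwa [mul_one] at this

theorem ret_lip {r : ℝ} (hr : 0 < r) (m m' : ℂ) : ‖ret r m - ret r m'‖ ≤ 2 * ‖m - m'‖ := by
  have hr' : (r : ℂ) ≠ 0 := by exact_mod_cast hr.ne'
  unfold ret
  have e : (r : ℂ) * prj ((m + 3) / r) - 3 - (r * prj ((m' + 3) / r) - 3) =
      r * (prj ((m + 3) / r) - prj ((m' + 3) / r)) := by ring
  rw [e, norm_mul, Complex.norm_real, Real.norm_eq_abs, abs_of_pos hr]
  have h1 := prj_lip ((m + 3) / r) ((m' + 3) / r)
  have e2 : (m + 3) / (r : ℂ) - (m' + 3) / r = (m - m') / r := by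
    field_simp
    ring
  rw [e2, norm_div, Complex.norm_real, Real.norm_eq_abs, abs_of_pos hr] at h1
  calc r * ‖prj ((m + 3) / r) - prj ((m' + 3) / r)‖ ≤ r * (2 * (‖m - m'‖ / r)) :=
        mul_le_mul_of_nonneg_left h1 hr.le
    _ = 2 * ‖m - m'‖ := by field_simp

/-- from the disc `|m + 3| ≤ 4 + ε` to the disc `|m + 3| ≤ 4` -/
theorem near_pt {ε : ℝ} (hε : 0 ≤ ε) {m : ℂ} (h : ‖m + 3‖ ≤ 4 + ε) :
    ∃ p : ℂ, ‖p + 3‖ ≤ 4 ∧ ‖m - p‖ ≤ ε := by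
  by_cases h4 : ‖m + 3‖ ≤ 4
  · exact ⟨m, h4, by simpa using hε⟩
  · have h5 : 4 < ‖m + 3‖ := not_le.1 h4
    have h0 : 0 < ‖m + 3‖ := by (clear * - h4; linarith)
    refine ⟨((4 / ‖m + 3‖ : ℝ) : ℂ) * (m + 3) - 3, ?_, ?_⟩
    · rw [sub_add_cancel, norm_mul, Complex.norm_real, Real.norm_eq_abs,
        abs_of_pos (by positivity), div_mul_cancel₀ _ h0.ne']
    · have e : m - (((4 / ‖m + 3‖ : ℝ) : ℂ) * (m + 3) - 3) =
          ((1 - 4 / ‖m + 3‖ : ℝ) : ℂ) * (m + 3) := by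
        push_cast
        ring
      have h6 : 0 ≤ 1 - 4 / ‖m + 3‖ := by
        rw [sub_nonneg, div_le_one h0]
        exact h5.le
      rw [e, norm_mul, Complex.norm_real, Real.norm_eq_abs, abs_of_nonneg h6, sub_mul, one_mul,
        div_mul_cancel₀ _ h0.ne']
      linarith only [h]

/-- **the glue**: a continuous multiplier, Lipschitz on `|m| ≤ 8`, bounded by `b` on
`|m + 3| ≤ 4` -/
theorem mOk_gen {F : ℂ → ℂ} (hc : Continuous F) {L : ℝ} (hL : 0 ≤ L)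
    (hl : ∀ m m' : ℂ, ‖m‖ ≤ 8 → ‖m'‖ ≤ 8 → ‖F m - F m'‖ ≤ L * ‖m - m'‖) {b Mb : ℝ}
    (hb : ∀ m : ℂ, ‖m + 3‖ ≤ 4 → ‖F m‖ ≤ b) (hMb : b < Mb) :
    ∃ (M' : ℂ → ℂ) (L' ε : ℝ), 0 < ε ∧ MOk F M' Mb L' ε := by
  have d0 : 0 < Mb - b := sub_pos.2 hMb
  obtain ⟨ε, hε⟩ : ∃ ε : ℝ, ε = min 1 ((Mb - b) / (L + 1)) := ⟨_, rfl⟩
  have hε0 : 0 < ε := by
    rw [hε]
    exact lt_min one_pos (by (clear * - hMb hL; positivity))
  have hε1 : ε ≤ 1 := by rw [hε]; exact min_le_left _ _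
  have hε2 : L * ε ≤ Mb - b := by
    have h1 : ε ≤ (Mb - b) / (L + 1) := by rw [hε]; exact min_le_right _ _
    rw [le_div_iff₀ (by (clear * - hL; positivity))] at h1
    linarith only [hε0, h1]
  have hr : 0 < 4 + ε := by linarith only [hε0]
  have n8 : ∀ m : ℂ, ‖m + 3‖ ≤ 4 + ε → ‖m‖ ≤ 8 := fun m hm => by
    have h1 := norm_sub_le (m + 3) 3
    rw [add_sub_cancel_right, Complex.norm_ofNat] at h1
    (clear * - hε1 hm h1; linarith)
  refine ⟨fun m => F (ret (4 + ε) m), L * 2, ε, hε0, hc, fun m hm => ?_, fun m => ?_,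
    fun m m' => ?_⟩
  · show F m = F (ret (4 + ε) m)
    rw [ret_eq hr hm]
  · have h1 := ret_mem hr m
    obtain ⟨p, hp, hp'⟩ := near_pt hε0.le h1
    have h2 := hl _ p (n8 _ h1) (n8 p (by linarith))
    have h3 := norm_sub_norm_le (F (ret (4 + ε) m)) (F p)
    have h4 := hb p hp
    have h5 : L * ‖ret (4 + ε) m - p‖ ≤ L * ε := mul_le_mul_of_nonneg_left hp' hL
    show ‖F (ret (4 + ε) m)‖ ≤ Mb
    (clear * - hε2 h2 h3 h4 h5; linarith)
  · have h2 := hl _ _ (n8 _ (ret_mem hr m)) (n8 _ (ret_mem hr m'))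
    have h3 := mul_le_mul_of_nonneg_left (ret_lip hr m m') hL
    show ‖F (ret (4 + ε) m) - F (ret (4 + ε) m')‖ ≤ L * 2 * ‖m - m'‖
    linarith

/-- **the multiplier of the data satisfies `MOk`** -/
theorem mOk_Mq {a p0 p1 p2 q0 q1 q2 : ℝ} (hp : InL p0 p1 p2) (hq : OutL a q0 q1 q2) {M : ℤ}
    {MI MO : List (ℕ × ℕ × ℤ)} (hsh : shr MI MO = true) {b Mb : ℝ}
    (hb : ∀ m : ℂ, ‖m + 3‖ ≤ 4 → ‖Mq M MI MO p0 p1 p2 q0 q1 q2 m‖ ≤ b) (hMb : b < Mb) :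
    ∃ (M' : ℂ → ℂ) (L' ε : ℝ), 0 < ε ∧ MOk (Mq M MI MO p0 p1 p2 q0 q1 q2) M' Mb L' ε := by
  obtain ⟨L, hL, hl⟩ := Mq_lip (M := M) hp hq hsh (R := 8) (by norm_num)
  exact mOk_gen (Mq_cont hp hq hsh) hL hl hb hMb

/-- the numbers of the bound check: resolutions, depths and degrees inside and outside, the bound
`Bn / Bd`, and the denominators of the two sides as integers -/
structure MChk where
  (k n N k' n' N' : ℕ)
  (Bn Bd r r0 r1 r2 s s0 s1 s2 : ℤ)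

/-- the Boolean check of the multiplier -/
def MChk.ok (c : MChk) (s : DatT) : Bool :=
  Nat.ble 1 c.k && Nat.ble 1 c.k' &&
  shr s.d.MI s.d.MO &&
  mchk true c.k c.n c.N 1 c.r c.r0 c.r1 c.r2 s.d.c.M c.Bn c.Bd (scl s.td s.d.MI) &&
  mchk false c.k' c.n' c.N' (-1) c.s c.s0 c.s1 c.s2 s.d.c.M c.Bn c.Bd (scl s.td s.d.MO)

/-- **`MOk` for the data** -/
theorem mOk_Mu {s : DatT} {a p0 p1 p2 q0 q1 q2 : ℝ} (hp : InL p0 p1 p2) (hq : OutL a q0 q1 q2)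
    (hM : 0 < s.d.c.M) (c : MChk) (hBn : 0 ≤ c.Bn) (hBd : 0 < c.Bd)
    (hr : ROk c.r c.r0 c.r1 c.r2 p0 p1 p2) (hr' : ROk c.s c.s0 c.s1 c.s2 q0 q1 q2)
    (hc : c.ok s = true) {Mb : ℝ} (hMb : (c.Bn : ℝ) / c.Bd < Mb) :
    ∃ (M' : ℂ → ℂ) (L' ε : ℝ), 0 < ε ∧ MOk (s.Mu p0 p1 p2 q0 q1 q2) M' Mb L' ε := by
  simp only [MChk.ok, Bool.and_eq_true, Nat.ble_eq] at hc
  obtain ⟨⟨⟨⟨h1, h2⟩, h3⟩, h4⟩, h5⟩ := hc
  have k1 : 0 < c.k := h1
  have k2 : 0 < c.k' := h2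
  exact mOk_Mq hp hq (shr_scl s.td h3)
    (fun m hm => Mq_le hp hq hr hr' k1 k2 hM hBn hBd h4 h5 hm) hMb

end Pool.Agent.Helper11.CK

end

section

namespace Pool.Agent.Helper20.EK7
end Pool.Agent.Helper20.EK7
namespace Pool.Agent.Helper69.EK3
end Pool.Agent.Helper69.EK3
namespace Pool.Agent.Helper69.EK7
end Pool.Agent.Helper69.EK7
namespace Pool.Agent.Helper69.CK
end Pool.Agent.Helper69.CK
namespace Pool.Agent.Helper11.CK
end Pool.Agent.Helper11.CK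

set_option autoImplicit false

open Complex Metric Set

open scoped ComplexConjugate

namespace Pool.Agent.Helper82.CKC

open Pool.Agent.Helper20.EK7 (prj prj_lip prj_of_le norm_prj_le InL OutL)

open Pool.Agent.Helper69.EK3 (rF)

open Pool.Agent.Helper69.EK7 (GLip2)

open Pool.Agent.Helper69.CK (MOk)

open Pool.Agent.Helper11.CK (BL bl_l glue mOk_gen)

/-- the coordinate `w` of the direction `u` -/
noncomputable def wu (u m : ℂ) : ℂ := conj u * (m + 1) - 1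

/-- radial retraction to the disc of radius `R` -/
noncomputable def rR (R : ℝ) (m : ℂ) : ℂ := (R : ℂ) * prj (m / (R : ℂ))

theorem wu_sub {u : ℂ} (hu : ‖u‖ = 1) (m m' : ℂ) : ‖wu u m - wu u m'‖ = ‖m - m'‖ := by
  have e : wu u m - wu u m' = conj u * (m - m') := by unfold wu; ring
  rw [e, norm_mul, norm_conj, hu, one_mul]

theorem wu_le {u : ℂ} (hu : ‖u‖ = 1) {m : ℂ} {R : ℝ} (h : ‖m‖ ≤ R) : ‖wu u m‖ ≤ R + 2 := by
  have h1 := norm_sub_le (conj u * (m + 1)) 1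
  rw [norm_mul, norm_conj, hu, one_mul, norm_one] at h1
  have h2 := norm_add_le m 1
  rw [norm_one] at h2
  show ‖conj u * (m + 1) - 1‖ ≤ R + 2
  linarith only [h, h1, h2]

theorem rR_eq {R : ℝ} (hR : 0 < R) {m : ℂ} (h : ‖m‖ ≤ R) : rR R m = m := by
  have hR' : (R : ℂ) ≠ 0 := by exact_mod_cast hR.ne'
  unfold rR
  rw [prj_of_le, mul_div_cancel₀ _ hR']
  rw [norm_div, Complex.norm_real, Real.norm_eq_abs, abs_of_pos hR]
  exact (div_le_one hR).2 h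

theorem rR_le {R : ℝ} (hR : 0 < R) (m : ℂ) : ‖rR R m‖ ≤ R := by
  unfold rR
  rw [norm_mul, Complex.norm_real, Real.norm_eq_abs, abs_of_pos hR]
  have := mul_le_mul_of_nonneg_left (norm_prj_le (m / R)) hR.le
  rwa [mul_one] at this

theorem rR_lip {R : ℝ} (hR : 0 < R) (m m' : ℂ) : ‖rR R m - rR R m'‖ ≤ 2 * ‖m - m'‖ := by
  have e : rR R m - rR R m' = R * (prj (m / R) - prj (m' / R)) := by unfold rR; ring
  rw [e, norm_mul, Complex.norm_real, Real.norm_eq_abs, abs_of_pos hR]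
  have h1 := prj_lip (m / R) (m' / R)
  have e2 : m / (R : ℂ) - m' / R = (m - m') / R := by ring
  rw [e2, norm_div, Complex.norm_real, Real.norm_eq_abs, abs_of_pos hR] at h1
  calc R * ‖prj (m / R) - prj (m' / R)‖ ≤ R * (2 * (‖m - m'‖ / R)) :=
        mul_le_mul_of_nonneg_left h1 hR.le
    _ = 2 * ‖m - m'‖ := by field_simp

theorem rR_rot {R : ℝ} {v : ℂ} (hv : ‖v‖ = 1) (m : ℂ) : rR R (v * m) = v * rR R m := by
  unfold rR prj
  have e : v * m / (R : ℂ) = v * (m / R) := by ring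
  rw [e, norm_mul, hv, one_mul]
  ring

/-- **a function of `w`, Lipschitz on a disc, gives an admissible field** -/
theorem glip_dir {g : ℂ → ℂ} {R L : ℝ} (hR : 0 < R) (hL : 0 ≤ L) (h1 : ∀ w, ‖g w‖ ≤ 1)
    (h2 : ∀ w w' : ℂ, ‖w‖ ≤ R + 2 → ‖w'‖ ≤ R + 2 → ‖g w - g w'‖ ≤ L * ‖w - w'‖) {u : ℂ}
    (hu : ‖u‖ = 1) : GLip2 (fun m _ => g (wu u (rR R m))) (L * (2 + R)) := by
  have key : ∀ m m' : ℂ, ‖g (wu u (rR R m)) - g (wu u (rR R m'))‖ ≤
      L * ‖rR R m - rR R m'‖ := fun m m' => by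
    have h3 := h2 _ _ (wu_le hu (rR_le hR m)) (wu_le hu (rR_le hR m'))
    rwa [wu_sub hu] at h3
  have lip : ∀ m m' : ℂ, ‖g (wu u (rR R m)) - g (wu u (rR R m'))‖ ≤
      L * (2 + R) * ‖m - m'‖ := fun m m' => by
    refine (key m m').trans ?_
    have h3 := mul_le_mul_of_nonneg_left (rR_lip hR m m') hL
    have h4 := mul_nonneg (mul_nonneg hL hR.le) (norm_nonneg (m - m'))
    (clear * - h3 h4; linarith only [h3, h4])
  refine ⟨fun m _ => h1 _, fun m m' _ => lip m m', fun v m _ hv => ?_, ?_⟩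
  · refine (key (v * m) m).trans ?_
    rw [rR_rot hv]
    have e : v * rR R m - rR R m = (v - 1) * rR R m := by ring
    rw [e, norm_mul, mul_assoc]
    refine mul_le_mul_of_nonneg_left ?_ hL
    have h3 := mul_le_mul_of_nonneg_left (rR_le hR m) (norm_nonneg (v - 1))
    linarith only [norm_nonneg (v - 1), h3]
  · have hc : LipschitzWith (Real.toNNReal (L * (2 + R))) (fun m => g (wu u (rR R m))) := by
      refine LipschitzWith.of_dist_le_mul fun m m' => ?_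
      rw [dist_eq_norm, dist_eq_norm, Real.coe_toNNReal _ (by (clear * - hL hR; positivity))]
      exact lip m m'
    exact hc.continuous.comp continuous_fst

/-- the two pieces of a field: `γ w + c + l (a w + b)`, `l = s (1 - |w|²)/ρ(w)` -/
noncomputable def FqC (gam c a b : ℂ) (s p0 p1 p2 : ℝ) (w : ℂ) : ℂ :=
  gam * w + c + (((s * (1 - ‖w‖ ^ 2)) / rF p0 p1 p2 w : ℝ) : ℂ) * (a * w + b)

theorem bl_FqC {S : Set ℂ} {R : ℝ} (hR : 0 ≤ R) (hS : ∀ w ∈ S, ‖w‖ ≤ R) (gam c a b : ℂ)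
    {s p0 p1 p2 k : ℝ} (hk : 0 < k) (hl : ∀ w ∈ S, k ≤ rF p0 p1 p2 w) :
    BL S (FqC gam c a b s p0 p1 p2) :=
  (((BL.const S gam).mul (BL.id hR hS)).add (BL.const S c)).add
    ((bl_l hR hS s hk hl).mul (((BL.const S a).mul (BL.id hR hS)).add (BL.const S b)))

/-- the field as a function of `w` -/
noncomputable def BqC (gam c a b a' b' : ℂ) (p0 p1 p2 q0 q1 q2 : ℝ) (w : ℂ) : ℂ :=
  prj (if ‖w‖ ≤ 1 then FqC gam c a b 1 p0 p1 p2 w else FqC gam c a' b' (-1) q0 q1 q2 w)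

theorem BqC_lip (gam c a b a' b' : ℂ) {p0 p1 p2 q0 q1 q2 k k' : ℝ} (hk : 0 < k) (hk' : 0 < k')
    (hl : ∀ w : ℂ, ‖w‖ ≤ 1 → k ≤ rF p0 p1 p2 w) (hl' : ∀ w : ℂ, k' ≤ rF q0 q1 q2 w) {R : ℝ}
    (hR : 1 ≤ R) : ∃ L : ℝ, 0 ≤ L ∧ ∀ w w' : ℂ, ‖w‖ ≤ R → ‖w'‖ ≤ R →
      ‖BqC gam c a b a' b' p0 p1 p2 q0 q1 q2 w - BqC gam c a b a' b' p0 p1 p2 q0 q1 q2 w'‖ ≤
        L * ‖w - w'‖ := by
  obtain ⟨L, hL, h⟩ := glue (f := FqC gam c a b 1 p0 p1 p2) (g := FqC gam c a' b' (-1) q0 q1 q2)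
    hR (bl_FqC (R := 1) zero_le_one (fun m hm => hm) gam c a b hk fun w hw => hl w hw)
    (bl_FqC (R := R) (zero_le_one.trans hR) (fun m hm => hm) gam c a' b' hk' fun w _ => hl' w)
    (fun w hw => by unfold FqC; rw [hw]; simp)
  refine ⟨2 * L, by (clear * - hL; positivity), fun w w' hw hw' => ?_⟩
  refine (prj_lip _ _).trans ?_
  have := h w w' hw hw'
  linarith only [this]

/-- **the field of the direction `u` is admissible** -/
theorem glip_BqC (gam c a b a' b' : ℂ) {p0 p1 p2 q0 q1 q2 k k' R : ℝ} (hk : 0 < k) (hk' : 0 < k')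
    (hl : ∀ w : ℂ, ‖w‖ ≤ 1 → k ≤ rF p0 p1 p2 w) (hl' : ∀ w : ℂ, k' ≤ rF q0 q1 q2 w)
    (hR : 0 < R) {u : ℂ} (hu : ‖u‖ = 1) : ∃ L : ℝ,
      GLip2 (fun m _ => BqC gam c a b a' b' p0 p1 p2 q0 q1 q2 (wu u (rR R m))) L := by
  obtain ⟨L, hL, h⟩ := BqC_lip gam c a b a' b' hk hk' hl hl' (R := R + 2) (by linarith only [hR])
  exact ⟨_, glip_dir hR hL (fun w => norm_prj_le _) h hu⟩

/-- **multipliers**: a function `F` of `w`, continuous, Lipschitz on `‖w‖ ≤ 10` -/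
theorem mOk_dir {F : ℂ → ℂ} (hc : Continuous F) {L : ℝ} (hL : 0 ≤ L)
    (hl : ∀ w w' : ℂ, ‖w‖ ≤ 10 → ‖w'‖ ≤ 10 → ‖F w - F w'‖ ≤ L * ‖w - w'‖) {u : ℂ} (hu : ‖u‖ = 1)
    {b Mb : ℝ} (hb : ∀ m : ℂ, ‖m + 3‖ ≤ 4 → ‖F (wu u m)‖ ≤ b) (hMb : b < Mb) :
    ∃ (M' : ℂ → ℂ) (L' ε : ℝ), 0 < ε ∧ MOk (fun m => F (wu u m)) M' Mb L' ε := by
  refine mOk_gen (F := fun m => F (wu u m)) ?_ hL (fun m m' hm hm' => ?_) hb hMb
  · refine hc.comp ?_
    unfold wu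
    fun_prop
  · have h1 := hl (wu u m) (wu u m') ((wu_le hu hm).trans (by norm_num))
      ((wu_le hu hm').trans (by norm_num))
    rwa [wu_sub hu] at h1

end Pool.Agent.Helper82.CKC

end

section

namespace Pool.EK71
end Pool.EK71
namespace Pool.Agent.Helper20.CK
end Pool.Agent.Helper20.CK
namespace Pool.Agent.Helper69.EK3
end Pool.Agent.Helper69.EK3
namespace Pool.Agent.Helper20.EK7
end Pool.Agent.Helper20.EK7
namespace Pool.Agent.Helper11.CK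
end Pool.Agent.Helper11.CK
namespace Pool.Agent.Helper82.CKC
end Pool.Agent.Helper82.CKC
namespace Pool.Agent.Helper69.CK
end Pool.Agent.Helper69.CK

/-!
# Project CKC: the multiplier with complex coefficients, bound checked by the kernel

`M''(w) = (1/M₀) ∑ (re + i im) lⁿ (conj w)^j`, `l = sg (1 - |w|²)/ρ(w)`. The bound is checked with
the box checker of `Helper20.CK.BoxChk` in the variables `Re w`, `Im w`. The discs `|m + 3| ≤ 4`
of all directions `u = (1 + i t)/(1 - i t)`, `t ∈ [a, b]`, in the coordinate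
`w = conj u (m + 1) - 1` are covered by three regions with parameters
`(ta, sg) = (a, a²), (b, b²), ((a + b)/2, a b)`.
-/

set_option autoImplicit false

open Complex Metric Set

open scoped ComplexConjugate

namespace Pool.Agent.Helper11.CKC

open Pool.EK71

open Pool.Agent.Helper20.CK (bx bx_sound pw ev2_pw zof_cast ROk)

open Pool.Agent.Helper69.EK3 (rF rF_eq imul_cast' iadd_cast')

open Pool.Agent.Helper20.EK7 (InL OutL)

open Pool.Agent.Helper11.CK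

open Pool.Agent.Helper82.CKC (wu mOk_dir)

open Pool.Agent.Helper69.CK (MOk)

/-- lists of `(n, j, re, im)` -/
abbrev CL := List (ℕ × ℕ × ℤ × ℤ)

/-- `∑ (re + i im) lⁿ (conj w)^j` -/
noncomputable def MSc (L : CL) (l : ℝ) (w : ℂ) : ℂ :=
  (L.map fun t => ((t.2.2.1 : ℂ) + (t.2.2.2 : ℂ) * I) * ((l : ℂ) ^ t.1 * conj w ^ t.2.1)).sum

/-- **the multiplier** `M''(w)` -/
noncomputable def Mqc (M : ℤ) (MI MO : CL) (p0 p1 p2 q0 q1 q2 : ℝ) (w : ℂ) : ℂ :=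
  if ‖w‖ ≤ 1 then MSc MI ((1 - ‖w‖ ^ 2) / rF p0 p1 p2 w) w / (M : ℂ)
  else MSc MO ((‖w‖ ^ 2 - 1) / rF q0 q1 q2 w) w / (M : ℂ)

def degC (N : ℕ) : CL → Bool
  | [] => true
  | t :: L => and (and (Nat.ble t.1 N) (Nat.ble t.2.1 2)) (degC N L)

theorem ineg_cast' (a : ℤ) : ((Int.neg a : ℤ) : ℝ) = - a := by
  show (((-a : ℤ)) : ℝ) = _
  push_cast
  ring

section val

variable {W sg r r0 r1 r2 M Bn Bd : ℤ} {N : ℕ} {L : CL} {w : ℂ} {l ρ : ℝ}

theorem nsq (w : ℂ) : ‖w‖ ^ 2 = w.re ^ 2 + w.im ^ 2 := by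
  rw [← normSq_eq_norm_sq, normSq_apply]
  ring

end val

theorem degC_iff {N : ℕ} {L : CL} (h : degC N L = true) : ∀ t ∈ L, t.1 ≤ N ∧ t.2.1 ≤ 2 := by
  induction L with
  | nil => simp
  | cons t L ih =>
    simp only [degC, Bool.and_eq_true, Nat.ble_eq] at h
    obtain ⟨⟨h1, h2⟩, h3⟩ := h
    intro q hq
    rcases List.mem_cons.1 hq with rfl | hq
    · exact ⟨h1, h2⟩
    · exact ih h3 q hq

section

variable {k n N : ℕ} {r r0 r1 r2 M Bn Bd : ℤ} {L : CL} {F : BP} {w : ℂ} {l ρ : ℝ}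

/-- the region of a vertex -/
def Reg (v : ℤ × ℤ × ℤ) (w : ℂ) : Prop :=
  0 ≤ (v.2.2 : ℝ) * (12 - ‖w + 1‖ ^ 2 - 4 * (w + 1).re) + 8 * v.1 * (w + 1).im +
    v.2.1 * (12 - ‖w + 1‖ ^ 2 + 4 * (w + 1).re)

end

/-- a quadratic polynomial with negative Bernstein coefficients on `[a, b]` is negative -/
theorem bern_neg {P Q S a b t : ℝ} (ha : a ≤ t) (hb : t ≤ b)
    (h1 : P + Q * a + S * a ^ 2 < 0) (h2 : P + Q * b + S * b ^ 2 < 0)
    (h3 : P + Q * ((a + b) / 2) + S * (a * b) < 0) : P + Q * t + S * t ^ 2 < 0 := by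
  rcases eq_or_lt_of_le (ha.trans hb) with h | h
  · have : t = a := le_antisymm (hb.trans h.symm.le) ha
    rw [this]
    exact h1
  · have d : 0 < (b - a) ^ 2 := by have := sub_pos.2 h; (clear * - h; positivity)
    have e : (b - a) ^ 2 * (P + Q * t + S * t ^ 2) = (b - t) ^ 2 * (P + Q * a + S * a ^ 2) +
        (t - a) ^ 2 * (P + Q * b + S * b ^ 2) +
        2 * ((b - t) * (t - a)) * (P + Q * ((a + b) / 2) + S * (a * b)) := by ring
    have p1 := mul_nonneg (sub_nonneg.2 hb) (sub_nonneg.2 ha)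
    have k1 := mul_nonneg (sq_nonneg (b - t)) (neg_nonneg.2 h1.le)
    have k2 := mul_nonneg (sq_nonneg (t - a)) (neg_nonneg.2 h2.le)
    have k3 := mul_nonneg p1 (neg_nonneg.2 h3.le)
    have k4 : (b - a) ^ 2 * (P + Q * t + S * t ^ 2) < 0 := by
      rcases eq_or_lt_of_le ha with h4 | h4
      · have : 0 < b - t := by (clear * - h h4; linarith only [h, h4])
        have := mul_pos (pow_pos this 2) (neg_pos.2 h1)
        linarith only [k2, k3, this]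
      · have := mul_pos (pow_pos (sub_pos.2 h4) 2) (neg_pos.2 h2)
        linarith only [k1, k3, this]
    by_contra h5
    have := mul_nonneg d.le (not_lt.1 h5)
    (clear * - k4 this; linarith only [k4, this])

/-- the direction with parameter `t` -/
noncomputable def uT (t : ℝ) : ℂ := (1 + (t : ℂ) * I) / (1 - (t : ℂ) * I)

theorem den_ne (t : ℝ) : 1 - (t : ℂ) * I ≠ 0 := by
  intro h
  have := congrArg Complex.re h
  simp at this

theorem uT_norm (t : ℝ) : ‖uT t‖ = 1 := by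
  have e : (1 + (t : ℂ) * I) = conj (1 - (t : ℂ) * I) := by simp
  unfold uT
  rw [norm_div, e, norm_conj, div_self (norm_ne_zero_iff.2 (den_ne t))]

theorem uT_mul (t : ℝ) : ((1 + t ^ 2 : ℝ) : ℂ) * uT t = (1 + (t : ℂ) * I) ^ 2 := by
  have h := den_ne t
  unfold uT
  rw [mul_div_assoc', div_eq_iff h]
  push_cast
  linear_combination ((t : ℂ) ^ 2 + (t : ℂ) ^ 3 * I) * I_sq

/-- **the cover**: `v i = (tn, sn, td)` are the parameters `(ta, sg)` of the arc `[a, b]` -/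
theorem cover {a b t : ℝ} (ha : a ≤ t) (hb : t ≤ b) {v1 v2 v3 : ℤ × ℤ × ℤ}
    (p1 : 0 < v1.2.2) (p2 : 0 < v2.2.2) (p3 : 0 < v3.2.2)
    (e1 : (v1.1 : ℝ) = v1.2.2 * a) (f1 : (v1.2.1 : ℝ) = v1.2.2 * a ^ 2)
    (e2 : (v2.1 : ℝ) = v2.2.2 * b) (f2 : (v2.2.1 : ℝ) = v2.2.2 * b ^ 2)
    (e3 : (v3.1 : ℝ) = v3.2.2 * ((a + b) / 2)) (f3 : (v3.2.1 : ℝ) = v3.2.2 * (a * b))
    {m : ℂ} (hm : ‖m + 3‖ ≤ 4) :
    ‖wu (uT t) m + 1‖ ≤ 6 ∧ (Reg v1 (wu (uT t) m) ∨ Reg v2 (wu (uT t) m) ∨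
      Reg v3 (wu (uT t) m)) := by
  obtain ⟨u, hu⟩ : ∃ u : ℂ, u = uT t := ⟨_, rfl⟩
  obtain ⟨ω, hω⟩ : ∃ ω : ℂ, ω = conj u * (m + 1) := ⟨_, rfl⟩
  have hun : ‖u‖ = 1 := by rw [hu]; exact uT_norm t
  have ew : wu (uT t) m + 1 = ω := by
    unfold wu
    rw [← hu, hω]
    ring
  have huc : u * conj u = 1 := by
    rw [mul_conj', hun]
    norm_num
  have e4 : m + 1 = u * ω := by
    rw [hω, ← mul_assoc, huc, one_mul]
  have hn : ‖ω‖ = ‖m + 1‖ := by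
    rw [hω, norm_mul, norm_conj, hun, one_mul]
  have h6 : ‖ω‖ ≤ 6 := by
    rw [hn]
    have h1 := norm_sub_le (m + 3) 2
    have e : m + 3 - 2 = m + 1 := by ring
    rw [e, Complex.norm_ofNat] at h1
    (clear * - hm h1; linarith only [hm, h1])
  have hP : 0 ≤ 12 - ‖ω‖ ^ 2 - 4 * (u * ω).re := by
    have h1 : ‖m + 3‖ ^ 2 ≤ 16 := by (clear * - hm; nlinarith only [norm_nonneg (m + 3), hm])
    have e : m + 3 = u * ω + 2 := by rw [← e4]; ring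
    rw [e, nsq] at h1
    have e5 : ‖ω‖ ^ 2 = (u * ω).re ^ 2 + (u * ω).im ^ 2 := by
      rw [← nsq, norm_mul, hun, one_mul]
    rw [e5]
    simp only [add_re, re_ofNat, add_im, im_ofNat, add_zero] at h1
    (clear * - h1; linarith only [h1])
  have hQ : 0 ≤ (12 - ‖ω‖ ^ 2 - 4 * ω.re) + 8 * ω.im * t + (12 - ‖ω‖ ^ 2 + 4 * ω.re) * t ^ 2 := by
    have h1 : 0 ≤ (1 + t ^ 2) * (12 - ‖ω‖ ^ 2 - 4 * (u * ω).re) :=
      mul_nonneg (by (clear * -; positivity)) hP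
    have e : (1 + t ^ 2) * (u * ω).re = ((1 + (t : ℂ) * I) ^ 2 * ω).re := by
      rw [← uT_mul, ← hu, mul_assoc, re_ofReal_mul]
    have e' : ((1 + (t : ℂ) * I) ^ 2 * ω).re = (1 - t ^ 2) * ω.re - 2 * t * ω.im := by
      simp only [pow_two, mul_re, add_re, one_re, ofReal_re, I_re, ofReal_im, I_im, add_im,
        one_im, mul_im]
      ring
    rw [e'] at e
    linarith only [h1, e]
  rw [ew]
  refine ⟨h6, ?_⟩
  by_contra hno
  simp only [not_or, Reg, not_le, ew] at hno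
  obtain ⟨n1, n2, n3⟩ := hno
  have q1 : (0:ℝ) < v1.2.2 := by exact_mod_cast p1
  have q2 : (0:ℝ) < v2.2.2 := by exact_mod_cast p2
  have q3 : (0:ℝ) < v3.2.2 := by exact_mod_cast p3
  rw [e1, f1] at n1
  rw [e2, f2] at n2
  rw [e3, f3] at n3
  have m1 : (12 - ‖ω‖ ^ 2 - 4 * ω.re) + 8 * ω.im * a + (12 - ‖ω‖ ^ 2 + 4 * ω.re) * a ^ 2 < 0 := by
    by_contra h
    have := mul_nonneg q1.le (not_lt.1 h)
    (clear * - n1 this; linarith only [n1, this])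
  have m2 : (12 - ‖ω‖ ^ 2 - 4 * ω.re) + 8 * ω.im * b + (12 - ‖ω‖ ^ 2 + 4 * ω.re) * b ^ 2 < 0 := by
    by_contra h
    have := mul_nonneg q2.le (not_lt.1 h)
    linarith only [n2, this]
  have m3 : (12 - ‖ω‖ ^ 2 - 4 * ω.re) + 8 * ω.im * ((a + b) / 2) +
      (12 - ‖ω‖ ^ 2 + 4 * ω.re) * (a * b) < 0 := by
    by_contra h
    have := mul_nonneg q3.le (not_lt.1 h)
    linarith only [n3, this]
  have := bern_neg ha hb m1 m2 m3
  (clear * - hQ this; linarith only [hQ, this])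

theorem bl_MSc {S : Set ℂ} {R : ℝ} (hR : 0 ≤ R) (hS : ∀ m ∈ S, ‖m‖ ≤ R) (L : CL) {l : ℂ → ℝ}
    (hl : BL S fun m => ((l m : ℝ) : ℂ)) : BL S fun m => MSc L (l m) m := by
  unfold MSc
  induction L with
  | nil => simpa using BL.const S 0
  | cons t L ih =>
    simp only [List.map_cons, List.sum_cons]
    exact ((BL.const S ((t.2.2.1 : ℂ) + (t.2.2.2 : ℂ) * I)).mul
      ((hl.pow t.1).mul ((BL.cj hR hS).pow t.2.1))).add ih

/-- the sums of the coefficients of `l⁰ (conj w)^j`, real parts -/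
def csR (j : ℕ) : CL → ℤ
  | [] => 0
  | t :: L => cond (Nat.beq t.1 0 && Nat.beq t.2.1 j) (Int.add t.2.2.1 (csR j L)) (csR j L)

/-- the sums of the coefficients of `l⁰ (conj w)^j`, imaginary parts -/
def csI (j : ℕ) : CL → ℤ
  | [] => 0
  | t :: L => cond (Nat.beq t.1 0 && Nat.beq t.2.1 j) (Int.add t.2.2.2 (csI j L)) (csI j L)

/-- the columns of `l⁰` agree -/
def shC (MI MO : CL) : Bool :=
  decide (csR 0 MI = csR 0 MO) && decide (csR 1 MI = csR 1 MO) && decide (csR 2 MI = csR 2 MO) &&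
  (decide (csI 0 MI = csI 0 MO) && decide (csI 1 MI = csI 1 MO) && decide (csI 2 MI = csI 2 MO))

theorem MSc_zero {N : ℕ} {L : CL} (hL : ∀ t ∈ L, t.1 ≤ N ∧ t.2.1 ≤ 2) (w : ℂ) : MSc L 0 w =
    ((csR 0 L : ℂ) + (csI 0 L : ℂ) * I) + ((csR 1 L : ℂ) + (csI 1 L : ℂ) * I) * conj w +
      ((csR 2 L : ℂ) + (csI 2 L : ℂ) * I) * conj w ^ 2 := by
  unfold MSc
  induction L with
  | nil => simp [csR, csI]
  | cons t L ih =>
    obtain ⟨-, h2⟩ := hL t List.mem_cons_self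
    obtain ⟨n, j, a, b⟩ := t
    have e : ∀ a b : ℤ, Int.add a b = a + b := fun _ _ => rfl
    rw [List.map_cons, List.sum_cons, ih fun s hs => hL s (List.mem_cons_of_mem _ hs)]
    simp only at h2 ⊢
    cases n with
    | zero =>
      have h0 : Nat.beq 0 0 = true := rfl
      have h01 : Nat.beq 0 1 = false := rfl
      have h02 : Nat.beq 0 2 = false := rfl
      have h10 : Nat.beq 1 0 = false := rfl
      have h11 : Nat.beq 1 1 = true := rfl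
      have h12 : Nat.beq 1 2 = false := rfl
      have h20 : Nat.beq 2 0 = false := rfl
      have h21 : Nat.beq 2 1 = false := rfl
      have h22 : Nat.beq 2 2 = true := rfl
      interval_cases j
      · simp only [csR, csI, h0, h01, h02, e, Bool.and_true, Bool.and_false, cond_true,
          cond_false]
        push_cast
        ring
      · simp only [csR, csI, h0, h10, h11, h12, e, Bool.and_true, Bool.and_false, cond_true,
          cond_false]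
        push_cast
        ring
      · simp only [csR, csI, h0, h20, h21, h22, e, Bool.and_true, Bool.and_false, cond_true,
          cond_false]
        push_cast
        ring
    | succ n =>
      have h0 : Nat.beq (n + 1) 0 = false := rfl
      simp only [csR, csI, h0, Bool.false_and, cond_false]
      simp

theorem shC_eq {N N' : ℕ} {MI MO : CL} (hI : ∀ t ∈ MI, t.1 ≤ N ∧ t.2.1 ≤ 2)
    (hO : ∀ t ∈ MO, t.1 ≤ N' ∧ t.2.1 ≤ 2) (h : shC MI MO = true) (w : ℂ) :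
    MSc MI 0 w = MSc MO 0 w := by
  simp only [shC, Bool.and_eq_true, decide_eq_true_eq] at h
  obtain ⟨⟨⟨h1, h2⟩, h3⟩, ⟨h4, h5⟩, h6⟩ := h
  rw [MSc_zero hI, MSc_zero hO, h1, h2, h3, h4, h5, h6]

section Mqc

variable {a p0 p1 p2 q0 q1 q2 k k' : ℝ} {M : ℤ} {MI MO : CL}

theorem bl_inC (hk : 0 < k) (hl : ∀ w : ℂ, ‖w‖ ≤ 1 → k ≤ rF p0 p1 p2 w) (M : ℤ) (MI : CL) :
    BL {w | ‖w‖ ≤ 1} fun w => MSc MI ((1 - ‖w‖ ^ 2) / rF p0 p1 p2 w) w / (M : ℂ) := by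
  have h1 : BL {w : ℂ | ‖w‖ ≤ 1} fun w => (((1 - ‖w‖ ^ 2) / rF p0 p1 p2 w : ℝ) : ℂ) :=
    (bl_l zero_le_one (fun w hw => hw) 1 hk fun w hw => hl w hw).congr fun w => by rw [one_mul]
  exact ((bl_MSc zero_le_one (fun w hw => hw) MI h1).mul (BL.const _ ((M : ℂ)⁻¹))).congr
    fun w => div_eq_mul_inv _ _

theorem bl_outC (hk : 0 < k) (hl : ∀ w : ℂ, k ≤ rF q0 q1 q2 w) (M : ℤ) (MO : CL) {R : ℝ}
    (hR : 0 ≤ R) :
    BL {w | ‖w‖ ≤ R} fun w => MSc MO ((‖w‖ ^ 2 - 1) / rF q0 q1 q2 w) w / (M : ℂ) := by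
  have h1 : BL {w : ℂ | ‖w‖ ≤ R} fun w => (((‖w‖ ^ 2 - 1) / rF q0 q1 q2 w : ℝ) : ℂ) :=
    (bl_l hR (fun w hw => hw) (-1) hk fun w _ => hl w).congr fun w => by
        congr 2
        ring
  exact ((bl_MSc hR (fun w hw => hw) MO h1).mul (BL.const _ ((M : ℂ)⁻¹))).congr
    fun w => div_eq_mul_inv _ _

theorem circC (hz : ∀ w, MSc MI 0 w = MSc MO 0 w) (w : ℂ) (hw : ‖w‖ = 1) :
    MSc MI ((1 - ‖w‖ ^ 2) / rF p0 p1 p2 w) w / (M : ℂ) =
      MSc MO ((‖w‖ ^ 2 - 1) / rF q0 q1 q2 w) w / (M : ℂ) := by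
  rw [hw, one_pow, sub_self, zero_div, zero_div, hz]

/-- **continuity** -/
theorem Mqc_cont (hk : 0 < k) (hl : ∀ w : ℂ, ‖w‖ ≤ 1 → k ≤ rF p0 p1 p2 w) (hk' : 0 < k')
    (hl' : ∀ w : ℂ, k' ≤ rF q0 q1 q2 w) (hz : ∀ w, MSc MI 0 w = MSc MO 0 w) :
    Continuous (Mqc M MI MO p0 p1 p2 q0 q1 q2) := by
  unfold Mqc
  refine continuous_if_le continuous_norm continuous_const (bl_inC hk hl M MI).contOn ?_
    fun w hw => circC hz w hw
  have h1 : Continuous fun w : ℂ => MSc MO ((‖w‖ ^ 2 - 1) / rF q0 q1 q2 w) w / (M : ℂ) := by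
    rw [continuous_iff_continuousAt]
    intro m
    refine (bl_outC hk' hl' M MO (R := ‖m‖ + 1) (by (clear * -; positivity))).contOn.continuousAt ?_
    exact Filter.mem_of_superset (ball_mem_nhds m one_pos) fun w hw => by
      have h2 : ‖w - m‖ < 1 := by rwa [mem_ball, dist_eq_norm] at hw
      have h3 : ‖w‖ ≤ ‖w - m‖ + ‖m‖ := by
        have := norm_add_le (w - m) m
        rwa [sub_add_cancel] at this
      show ‖w‖ ≤ ‖m‖ + 1
      (clear * - h2 h3; linarith)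
  exact h1.continuousOn

theorem Mqc_lip (hk : 0 < k) (hl : ∀ w : ℂ, ‖w‖ ≤ 1 → k ≤ rF p0 p1 p2 w) (hk' : 0 < k')
    (hl' : ∀ w : ℂ, k' ≤ rF q0 q1 q2 w) (hz : ∀ w, MSc MI 0 w = MSc MO 0 w) {R : ℝ}
    (hR : 1 ≤ R) : ∃ L : ℝ, 0 ≤ L ∧ ∀ w w' : ℂ, ‖w‖ ≤ R → ‖w'‖ ≤ R →
      ‖Mqc M MI MO p0 p1 p2 q0 q1 q2 w - Mqc M MI MO p0 p1 p2 q0 q1 q2 w'‖ ≤ L * ‖w - w'‖ :=
  glue hR (bl_inC hk hl M MI) (bl_outC hk' hl' M MO (zero_le_one.trans hR))
    fun w hw => circC hz w hw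

end Mqc

theorem fac_norm (t : ℝ) : ‖conj (uT t) ^ 2 * ((1 + (t : ℂ) * I) / 2)‖ =
    Real.sqrt (1 + t ^ 2) / 2 := by
  rw [norm_mul, norm_pow, norm_conj, uT_norm, one_pow, one_mul, norm_div, Complex.norm_ofNat]
  congr 1
  rw [Complex.norm_eq_sqrt_sq_add_sq]
  simp

end Pool.Agent.Helper11.CKC

end
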