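import Mathlib
import Pool.Agent.Helper14.CMF.T07
import Pool.Agent.Helper14.CMF.T13
import Pool.Agent.Helper14.CMF.T02

set_option linter.all false

section

namespace Pool.Agent.Helper39.Area
end Pool.Agent.Helper39.Area

set_option autoImplicit false

open Complex Metric Set

open scoped ComplexConjugate

namespace Pool.Agent.Helper5.CK

open Pool.Agent.Helper39.Area

/-- the tangential vector field `z h(z)` has a simple pole at `p` and `h` is imaginary on the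
unit circle -/
noncomputable def hh (p τ z : ℂ) : ℂ :=
  (1 / 2) * (τ * ((z + p) / (z - p)) - conj τ * ((1 + conj p * z) / (1 - conj p * z)))

/-- inner map -/
noncomputable def psi (p τ z : ℂ) : ℂ := z * Complex.exp (hh p τ z)

/-- coefficient of the outer map `w ↦ w + eps / (w - phi p)` -/
noncomputable def eps (β : ℂ → ℂ) (p τ : ℂ) : ℂ := -(τ * p ^ 2 * dphi β p ^ 2)

/-- first variation -/
noncomputable def VV (β : ℂ → ℂ) (p τ z : ℂ) : ℂ :=
  eps β p τ / (phi β z - phi β p) + dphi β z * (z * hh p τ z)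

/-- The variation lemma. -/
def Variation : Prop :=
  ∀ η : ℝ, 0 < η → ∃ C t0 : ℝ, 0 < C ∧ 0 < t0 ∧ ∀ β : ℂ → ℂ, Ext β → ∀ p : ℂ, η ≤ ‖p‖ → ‖p‖ ≤ 1 - η →
    ∀ τ : ℂ, ‖τ‖ ≤ t0 → ∃ γ : ℂ → ℂ, Ext γ ∧ ∀ z : ℂ, η ≤ ‖z‖ → ‖z‖ ≤ 1 - η → η ≤ ‖z - p‖ →
      ‖deriv γ z - deriv β z - deriv (fun z => VV β p τ z - (τ.re : ℂ) * phi β z) z‖ ≤ C * ‖τ‖ ^ 2

theorem hh_smul (p B z : ℂ) (t : ℝ) : hh p (t * B) z = t * hh p B z := by
  unfold hh
  rw [map_mul, Complex.conj_ofReal]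
  ring

end Pool.Agent.Helper5.CK

end

section

namespace Pool.Agent.Helper39.Area
end Pool.Agent.Helper39.Area

set_option autoImplicit false

open Complex Metric Set Filter Topology

open scoped ComplexConjugate

namespace Pool.Agent.Helper5.CK

open Pool.Agent.Helper39.Area

/-- the map `W ∘ phi ∘ psi` -/
noncomputable def gg (β : ℂ → ℂ) (p τ z : ℂ) : ℂ :=
  phi β (psi p τ z) + eps β p τ / (phi β (psi p τ z) - phi β p)

theorem psi_ne {p τ z : ℂ} (hz : z ≠ 0) : psi p τ z ≠ 0 :=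
  mul_ne_zero hz (Complex.exp_ne_zero _)

theorem one_sub_ne {p z : ℂ} (hp : ‖p‖ < 1) (hz : ‖z‖ < 1) : 1 - conj p * z ≠ 0 := by
  intro h
  have h1 : conj p * z = 1 := (sub_eq_zero.mp h).symm
  have h2 : ‖conj p * z‖ = 1 := by rw [h1, norm_one]
  rw [norm_mul, RCLike.norm_conj] at h2
  nlinarith only [norm_nonneg z, hp, hz, h2]

theorem hh_diff {p τ z : ℂ} (hp : ‖p‖ < 1) (hz : ‖z‖ < 1) (hzp : z ≠ p) :
    DifferentiableAt ℂ (hh p τ) z := by
  have h1 : z - p ≠ 0 := sub_ne_zero.mpr hzp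
  have h2 := one_sub_ne hp hz
  unfold hh
  fun_prop (disch := assumption)

theorem psi_diff {p τ z : ℂ} (hp : ‖p‖ < 1) (hz : ‖z‖ < 1) (hzp : z ≠ p) :
    DifferentiableAt ℂ (psi p τ) z := by
  have h1 := hh_diff (τ := τ) hp hz hzp
  unfold psi
  exact differentiableAt_id.mul h1.cexp

theorem gg_diff {β : ℂ → ℂ} (h : Ext β) {p τ z : ℂ} (hp : ‖p‖ < 1) (hz : ‖z‖ < 1) (hz0 : z ≠ 0)
    (hzp : z ≠ p) (h1 : ‖psi p τ z‖ < 1) (h2 : phi β (psi p τ z) - phi β p ≠ 0) :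
    DifferentiableAt ℂ (gg β p τ) z := by
  have h3 := psi_diff (τ := τ) hp hz hzp
  have h4 : DifferentiableAt ℂ (phi β) (psi p τ z) :=
    (hasDerivAt_phi h.diff (by simpa using h1) (psi_ne hz0)).differentiableAt
  have h5 : DifferentiableAt ℂ (fun z => phi β (psi p τ z)) z := h4.comp z h3
  unfold gg
  exact h5.add ((differentiableAt_const _).div (h5.sub (differentiableAt_const _)) h2)

theorem W_lower {a b w e : ℂ} {c : ℝ} (hc : 0 < c) (ha : c ≤ ‖a - w‖) (hb : c ≤ ‖b - w‖)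
    (he : ‖e‖ ≤ c ^ 2 / 2) : ‖a - b‖ / 2 ≤ ‖(a + e / (a - w)) - (b + e / (b - w))‖ := by
  have ha0 : a - w ≠ 0 := by
    intro h; rw [h, norm_zero] at ha; (clear * - hc ha; linarith only [hc, ha])
  have hb0 : b - w ≠ 0 := by
    intro h; rw [h, norm_zero] at hb; (clear * - hc hb; linarith only [hc, hb])
  have h1 : (a + e / (a - w)) - (b + e / (b - w)) = (a - b) * (1 - e / ((a - w) * (b - w))) := by
    field_simp
    ring
  rw [h1, norm_mul, div_eq_mul_inv]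
  apply mul_le_mul_of_nonneg_left _ (norm_nonneg _)
  have h2 : ‖e / ((a - w) * (b - w))‖ ≤ 1 / 2 := by
    rw [norm_div, norm_mul, div_le_iff₀ (by positivity)]
    have : c ^ 2 ≤ ‖a - w‖ * ‖b - w‖ := by
      rw [pow_two]; exact mul_le_mul ha hb hc.le (norm_nonneg _)
    linarith only [he, this]
  have h3 := norm_sub_norm_le (1:ℂ) (e / ((a - w) * (b - w)))
  rw [norm_one] at h3
  norm_num
  (clear * - h2 h3; linarith only [h2, h3])

theorem hh_zero (p τ : ℂ) (hp : p ≠ 0) : hh p τ 0 = -(τ.re : ℂ) := by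
  have h1 : (τ.re : ℂ) = (τ + conj τ) / 2 := by
    rw [Complex.add_conj]; push_cast; ring
  unfold hh
  rw [h1]
  simp only [zero_add, zero_sub, mul_zero, add_zero, sub_zero, div_one, mul_one]
  rw [div_neg, div_self hp]
  ring

theorem eps_norm {β : ℂ → ℂ} {p τ : ℂ} {M : ℝ} (hp : ‖p‖ ≤ 1) (h : ‖dphi β p‖ ≤ M) :
    ‖eps β p τ‖ ≤ M ^ 2 * ‖τ‖ := by
  unfold eps
  rw [norm_neg, norm_mul, norm_mul, norm_pow, norm_pow]
  have h1 : ‖dphi β p‖ ^ 2 ≤ M ^ 2 := pow_le_pow_left₀ (norm_nonneg _) h 2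
  have h2 : ‖p‖ ^ 2 ≤ 1 := pow_le_one₀ (norm_nonneg _) hp
  calc ‖τ‖ * ‖p‖ ^ 2 * ‖dphi β p‖ ^ 2 ≤ ‖τ‖ * 1 * M ^ 2 := by
        apply mul_le_mul _ h1 (by (clear * -; positivity)) (by (clear * -; positivity))
        exact mul_le_mul_of_nonneg_left h2 (norm_nonneg _)
    _ = M ^ 2 * ‖τ‖ := by ring

/-- the pole of `gg` at the origin -/
theorem gg_lim {β : ℂ → ℂ} (h : Ext β) {p τ : ℂ} (hp : ‖p‖ < 1) (hp0 : p ≠ 0) {c : ℝ} (hc : 0 < c)
    (hb : ∀ᶠ z in 𝓝[≠] (0:ℂ), c ≤ ‖phi β (psi p τ z) - phi β p‖) :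
    Tendsto (fun z => z * gg β p τ z) (𝓝[≠] 0) (𝓝 (Real.exp τ.re : ℂ)) := by
  have h0 : ‖(0:ℂ)‖ < 1 := by simp
  have hψ : ContinuousAt (psi p τ) 0 := (psi_diff (τ := τ) hp h0 (Ne.symm hp0)).continuousAt
  have hψ0 : psi p τ 0 = 0 := by simp [psi]
  have hβ : ContinuousAt β (psi p τ 0) := by
    rw [hψ0]
    exact (h.diff.differentiableAt (ball_mem_nhds 0 one_pos)).continuousAt
  have hβψ : ContinuousAt (fun z => β (psi p τ z)) 0 := hβ.comp hψ
  have hh1 : ContinuousAt (fun z => Complex.exp (-hh p τ z)) 0 := by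
    have := (hh_diff (τ := τ) hp h0 (Ne.symm hp0)).continuousAt
    exact this.neg.cexp
  have h1 : Tendsto (fun z => Complex.exp (-hh p τ z) + z * β (psi p τ z)) (𝓝[≠] 0)
      (𝓝 (Real.exp τ.re : ℂ)) := by
    have h2 : ContinuousAt (fun z => Complex.exp (-hh p τ z) + z * β (psi p τ z)) 0 :=
      hh1.add (continuousAt_id.mul hβψ)
    have h3 := h2.tendsto.mono_left (nhdsWithin_le_nhds (s := {0}ᶜ))
    rw [hh_zero p τ hp0, neg_neg, zero_mul, add_zero] at h3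
    rw [Complex.ofReal_exp]
    exact h3
  have h2 : Tendsto (fun z => z * (eps β p τ / (phi β (psi p τ z) - phi β p))) (𝓝[≠] 0) (𝓝 0) := by
    rw [tendsto_zero_iff_norm_tendsto_zero]
    have h3 : Tendsto (fun z : ℂ => ‖z‖ * (‖eps β p τ‖ / c)) (𝓝[≠] 0) (𝓝 0) := by
      have : ContinuousAt (fun z : ℂ => ‖z‖ * (‖eps β p τ‖ / c)) 0 := by fun_prop
      have h4 := this.tendsto.mono_left (nhdsWithin_le_nhds (s := {0}ᶜ))
      simpa using h4
    apply squeeze_zero' (Eventually.of_forall fun z => norm_nonneg _) _ h3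
    filter_upwards [hb] with z hz
    rw [norm_mul, norm_div]
    apply mul_le_mul_of_nonneg_left _ (norm_nonneg _)
    exact div_le_div_of_nonneg_left (norm_nonneg _) hc hz
  have h3 := h1.add h2
  rw [add_zero] at h3
  apply h3.congr'
  filter_upwards [self_mem_nhdsWithin] with z hz
  have hz0 : z ≠ 0 := hz
  have h4 := Complex.exp_ne_zero (hh p τ z)
  unfold gg phi psi
  rw [mul_inv, ← Complex.exp_neg]
  field_simp

end Pool.Agent.Helper5.CK

end

section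

namespace Pool.Agent.Helper5.CK
end Pool.Agent.Helper5.CK

set_option autoImplicit false

/-!
# Project CK (critical multiplier), module V2: the elementary maps of the interior variation

Explicit constants for `hh p τ z`, `psi p τ z` of `Helper5.CK.Defs` and for the outer map
`WW e w0 w = w + e / (w - w0)`.
-/

namespace Pool.Agent.Helper47.CMV

open Complex ComplexConjugate Metric Set

open Pool.Agent.Helper5.CK

variable {p τ : ℂ} {ρ η : ℝ}

/-- the bound of `hh` -/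
noncomputable def HH (ρ η : ℝ) : ℝ := 1 / ρ + 1 / η

/-- the Lipschitz constant of `hh` -/
noncomputable def LL (ρ η : ℝ) : ℝ := 1 / ρ ^ 2 + 1 / η ^ 2

theorem den_ge (hz0 : ‖p‖ ≤ 1 - η) {z : ℂ} (hz : ‖z‖ ≤ 1) :
    η ≤ ‖1 - conj p * z‖ := by
  have h1 : ‖conj p * z‖ ≤ 1 - η := by
    rw [norm_mul, Complex.norm_conj]
    calc ‖p‖ * ‖z‖ ≤ ‖p‖ * 1 := mul_le_mul_of_nonneg_left hz (norm_nonneg _)
      _ = ‖p‖ := mul_one _
      _ ≤ 1 - η := hz0
  have h2 : ‖(1:ℂ)‖ - ‖conj p * z‖ ≤ ‖1 - conj p * z‖ := norm_sub_norm_le _ _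
  rw [norm_one] at h2
  linarith only [h1, h2]

theorem den_ne (hη : 0 < η) (hz0 : ‖p‖ ≤ 1 - η) {z : ℂ} (hz : ‖z‖ ≤ 1) :
    1 - conj p * z ≠ 0 := by
  intro h
  have := den_ge hz0 hz
  rw [h, norm_zero] at this
  (clear * - hη this; linarith only [hη, this])

theorem ne_of_dist (hρ : 0 < ρ) {z w : ℂ} (hd : ρ ≤ ‖z - w‖) : z - w ≠ 0 := by
  intro h
  rw [h, norm_zero] at hd
  linarith only [hρ, hd]

theorem hh_norm_le (hρ : 0 < ρ) (hη : 0 < η) (hz0 : ‖p‖ ≤ 1 - η) {z : ℂ}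
    (hz : ‖z‖ ≤ 1) (hd : ρ ≤ ‖z - p‖) : ‖hh p τ z‖ ≤ ‖τ‖ * HH ρ η := by
  have h0 : ‖p‖ ≤ 1 := by linarith
  have h1 : ‖τ * ((z + p) / (z - p))‖ ≤ ‖τ‖ * (2 / ρ) := by
    rw [norm_mul, norm_div]
    have h2 : ‖z + p‖ ≤ 2 := (norm_add_le _ _).trans (by (clear * - hz h0; linarith only [hz, h0]))
    exact mul_le_mul_of_nonneg_left (div_le_div₀ (by norm_num) h2 hρ hd) (norm_nonneg _)
  have h4 : ‖conj τ * ((1 + conj p * z) / (1 - conj p * z))‖ ≤ ‖τ‖ * (2 / η) := by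
    rw [norm_mul, norm_div, Complex.norm_conj]
    have h2 : ‖1 + conj p * z‖ ≤ 2 := by
      refine (norm_add_le _ _).trans ?_
      rw [norm_one, norm_mul, Complex.norm_conj]
      have : ‖p‖ * ‖z‖ ≤ 1 * 1 := mul_le_mul h0 hz (norm_nonneg _) zero_le_one
      linarith only [this]
    exact mul_le_mul_of_nonneg_left (div_le_div₀ (by norm_num) h2 hη (den_ge hz0 hz))
      (norm_nonneg _)
  unfold hh HH
  rw [norm_mul]
  have h5 : ‖(1 / 2 : ℂ)‖ = 1 / 2 := by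
    rw [norm_div, norm_one, RCLike.norm_ofNat]
  rw [h5]
  have h6 := norm_sub_le (τ * ((z + p) / (z - p))) (conj τ * ((1 + conj p * z) / (1 - conj p * z)))
  have h7 : ‖τ‖ * (1 / ρ + 1 / η) = 1 / 2 * (‖τ‖ * (2 / ρ) + ‖τ‖ * (2 / η)) := by
    ring
  rw [h7]
  exact mul_le_mul_of_nonneg_left (h6.trans (add_le_add h1 h4)) (by norm_num)

theorem hh_sub_eq {x y : ℂ} (h1 : x - p ≠ 0) (h2 : y - p ≠ 0)
    (h3 : 1 - conj p * x ≠ 0) (h4 : 1 - conj p * y ≠ 0) :
    hh p τ x - hh p τ y = -(x - y) * (τ * p / ((x - p) * (y - p)) +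
      conj τ * conj p / ((1 - conj p * x) * (1 - conj p * y))) := by
  unfold hh
  generalize conj p = c at *
  generalize conj τ = d at *
  have e1 : (x + p) / (x - p) - (y + p) / (y - p) =
      -(x - y) * (2 * p / ((x - p) * (y - p))) := by
    rw [div_sub_div _ _ h1 h2, ← mul_div_assoc]
    congr 1
    ring
  have e2 : (1 + c * x) / (1 - c * x) - (1 + c * y) / (1 - c * y) =
      (x - y) * (2 * c / ((1 - c * x) * (1 - c * y))) := by
    rw [div_sub_div _ _ h3 h4, ← mul_div_assoc]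
    congr 1
    ring
  have e3 : (1 / 2 : ℂ) * (τ * ((x + p) / (x - p)) - d * ((1 + c * x) / (1 - c * x))) -
      (1 / 2 : ℂ) * (τ * ((y + p) / (y - p)) - d * ((1 + c * y) / (1 - c * y))) =
      (1 / 2 : ℂ) * (τ * ((x + p) / (x - p) - (y + p) / (y - p)) -
        d * ((1 + c * x) / (1 - c * x) - (1 + c * y) / (1 - c * y))) := by ring
  rw [e3, e1, e2]
  ring

theorem hh_sub_le (hρ : 0 < ρ) (hη : 0 < η) (hz0 : ‖p‖ ≤ 1 - η) {x y : ℂ}
    (hx : ‖x‖ ≤ 1) (hy : ‖y‖ ≤ 1) (hdx : ρ ≤ ‖x - p‖) (hdy : ρ ≤ ‖y - p‖) :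
    ‖hh p τ x - hh p τ y‖ ≤ ‖τ‖ * LL ρ η * ‖x - y‖ := by
  have h0 : ‖p‖ ≤ 1 := by linarith only [hη, hz0]
  rw [hh_sub_eq (ne_of_dist hρ hdx) (ne_of_dist hρ hdy) (den_ne hη hz0 hx) (den_ne hη hz0 hy),
    norm_mul, norm_neg, mul_comm]
  refine mul_le_mul_of_nonneg_right ?_ (norm_nonneg _)
  have hBz : ‖τ‖ * ‖p‖ ≤ ‖τ‖ := by
    calc ‖τ‖ * ‖p‖ ≤ ‖τ‖ * 1 := mul_le_mul_of_nonneg_left h0 (norm_nonneg _)
      _ = ‖τ‖ := mul_one _
  have h1 : ‖τ * p / ((x - p) * (y - p))‖ ≤ ‖τ‖ / ρ ^ 2 := by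
    rw [norm_div, norm_mul, norm_mul]
    refine div_le_div₀ (norm_nonneg _) hBz (by (clear * - hρ; positivity)) ?_
    rw [pow_two]
    exact mul_le_mul hdx hdy hρ.le (norm_nonneg _)
  have h2 : ‖conj τ * conj p / ((1 - conj p * x) * (1 - conj p * y))‖ ≤ ‖τ‖ / η ^ 2 := by
    rw [norm_div, norm_mul, norm_mul, Complex.norm_conj, Complex.norm_conj]
    refine div_le_div₀ (norm_nonneg _) hBz (by positivity) ?_
    rw [pow_two]
    exact mul_le_mul (den_ge hz0 hx) (den_ge hz0 hy) hη.le (norm_nonneg _)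
  unfold LL
  calc _ ≤ ‖τ‖ / ρ ^ 2 + ‖τ‖ / η ^ 2 := (norm_add_le _ _).trans (add_le_add h1 h2)
    _ = ‖τ‖ * (1 / ρ ^ 2 + 1 / η ^ 2) := by ring

theorem hh_re {z : ℂ} (h1 : z - p ≠ 0) (h2 : 1 - conj p * z ≠ 0) :
    (hh p τ z).re =
      (1 - ‖z‖ ^ 2) * (τ * p / ((z - p) * (1 - p * conj z))).re := by
  have h3 : 1 - p * conj z ≠ 0 := by
    intro h
    apply h2
    have h4 := congrArg conj h
    simpa using h4
  have e1 : (conj τ * ((1 + conj p * z) / (1 - conj p * z))).re =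
      (τ * ((1 + p * conj z) / (1 - p * conj z))).re := by
    rw [← Complex.conj_re]
    simp
  have e2 : (hh p τ z).re = (1 / 2) * (τ * ((z + p) / (z - p)) -
      τ * ((1 + p * conj z) / (1 - p * conj z))).re := by
    unfold hh
    have : ((1 / 2 : ℂ) * (τ * ((z + p) / (z - p)) -
        conj τ * ((1 + conj p * z) / (1 - conj p * z)))).re =
        (1 / 2) * (τ * ((z + p) / (z - p)) -
        conj τ * ((1 + conj p * z) / (1 - conj p * z))).re := by
      have h5 : (1 / 2 : ℂ) = ((1 / 2 : ℝ) : ℂ) := by push_cast; ring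
      rw [h5, Complex.re_ofReal_mul]
    rw [this, Complex.sub_re, e1, ← Complex.sub_re]
  have hz2 : z * conj z = ((‖z‖ ^ 2 : ℝ) : ℂ) := by
    rw [Complex.mul_conj, Complex.normSq_eq_norm_sq]
  have e3 : τ * ((z + p) / (z - p)) - τ * ((1 + p * conj z) / (1 - p * conj z)) =
      ((2 * (1 - ‖z‖ ^ 2) : ℝ) : ℂ) * (τ * p / ((z - p) * (1 - p * conj z))) := by
    have h6 : ((2 * (1 - ‖z‖ ^ 2) : ℝ) : ℂ) = 2 * (1 - z * conj z) := by
      rw [hz2]; push_cast; ring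
    rw [h6, ← mul_sub, div_sub_div _ _ h1 h3]
    field_simp
    ring
  rw [e2, e3, Complex.re_ofReal_mul]
  ring

theorem hh_re_abs_le (hρ : 0 < ρ) (hη : 0 < η) (hz0 : ‖p‖ ≤ 1 - η) {z : ℂ}
    (hz : ‖z‖ ≤ 1) (hd : ρ ≤ ‖z - p‖) :
    |(hh p τ z).re| ≤ ‖τ‖ * (1 / (ρ * η)) * (1 - ‖z‖ ^ 2) := by
  have h0 : ‖p‖ ≤ 1 := by linarith
  have hz1 : 0 ≤ 1 - ‖z‖ ^ 2 := by (clear * - hz; nlinarith only [norm_nonneg z, hz])
  rw [hh_re (ne_of_dist hρ hd) (den_ne hη hz0 hz), abs_mul, abs_of_nonneg hz1, mul_comm]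
  refine mul_le_mul_of_nonneg_right ?_ hz1
  refine (Complex.abs_re_le_norm _).trans ?_
  rw [norm_div, norm_mul, norm_mul]
  have hBz : ‖τ‖ * ‖p‖ ≤ ‖τ‖ := by
    calc ‖τ‖ * ‖p‖ ≤ ‖τ‖ * 1 := mul_le_mul_of_nonneg_left h0 (norm_nonneg _)
      _ = ‖τ‖ := mul_one _
  have h3 : ‖1 - p * conj z‖ = ‖1 - conj p * z‖ := by
    rw [← Complex.norm_conj]
    simp
  rw [h3]
  calc ‖τ‖ * ‖p‖ / (‖z - p‖ * ‖1 - conj p * z‖) ≤ ‖τ‖ / (ρ * η) :=
        div_le_div₀ (norm_nonneg _) hBz (by positivity)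
          (mul_le_mul hd (den_ge hz0 hz) hη.le (norm_nonneg _))
    _ = ‖τ‖ * (1 / (ρ * η)) := by ring

theorem psi_sub_le (hρ : 0 < ρ) (hη : 0 < η) (hz0 : ‖p‖ ≤ 1 - η) {z : ℂ}
    (hz : ‖z‖ ≤ 1) (hd : ρ ≤ ‖z - p‖) (htH : ‖τ‖ * HH ρ η ≤ 1) :
    ‖psi p τ z - z‖ ≤ 2 * (‖τ‖ * HH ρ η) * ‖z‖ := by
  have h1 := hh_norm_le (τ := τ) hρ hη hz0 hz hd
  have h2 : psi p τ z - z = z * (Complex.exp (hh p τ z) - 1) := by
    unfold psi
    ring
  rw [h2, norm_mul, mul_comm]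
  refine mul_le_mul_of_nonneg_right ?_ (norm_nonneg _)
  exact (Complex.norm_exp_sub_one_le (h1.trans htH)).trans (by (clear * - h1; linarith only [h1]))

theorem HH_nonneg (hρ : 0 < ρ) (hη : 0 < η) : 0 ≤ HH ρ η := by
  unfold HH
  (clear * - hρ hη; positivity)

theorem LL_nonneg (hρ : 0 < ρ) (hη : 0 < η) : 0 ≤ LL ρ η := by
  unfold LL
  (clear * - hρ hη; positivity)

/-- `1 / psi` moves differences by a factor `1 - C‖τ‖` at least -/
theorem psi_inv_sub_ge (hρ : 0 < ρ) (hη : 0 < η) (hz0 : ‖p‖ ≤ 1 - η) {x y : ℂ}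
    (hx : ‖x‖ ≤ 1) (hy : ‖y‖ ≤ 1) (hx0 : x ≠ 0) (hy0 : y ≠ 0)
    (hdx : ρ ≤ ‖x - p‖) (hdy : ρ ≤ ‖y - p‖) (htH : 2 * (‖τ‖ * HH ρ η) ≤ 1) :
    (1 - ‖τ‖ * (2 * HH ρ η + 6 * LL ρ η)) * ‖x⁻¹ - y⁻¹‖ ≤
      ‖(psi p τ x)⁻¹ - (psi p τ y)⁻¹‖ := by
  have hH0 := HH_nonneg hρ hη
  have hL0 := LL_nonneg hρ hη
  have htH0 : 0 ≤ ‖τ‖ * HH ρ η := mul_nonneg (norm_nonneg _) hH0
  have htL0 : 0 ≤ ‖τ‖ * LL ρ η := mul_nonneg (norm_nonneg _) hL0
  have h1 := hh_norm_le (τ := τ) hρ hη hz0 hx hdx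
  have h2 := hh_norm_le (τ := τ) hρ hη hz0 hy hdy
  have huv := hh_sub_le (τ := τ) hρ hη hz0 hx hy hdx hdy
  set u : ℂ := hh p τ x with hu
  set v : ℂ := hh p τ y with hv
  have huv1 : ‖u - v‖ ≤ 1 := by
    have := norm_sub_le u v
    linarith only [htH, h1, h2, this]
  have hpx : (psi p τ x)⁻¹ = x⁻¹ * Complex.exp (-u) := by
    unfold psi
    rw [mul_inv, ← Complex.exp_neg]
  have hpy : (psi p τ y)⁻¹ = y⁻¹ * Complex.exp (-v) := by
    unfold psi
    rw [mul_inv, ← Complex.exp_neg]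
  have hdec : (psi p τ x)⁻¹ - (psi p τ y)⁻¹ =
      (x⁻¹ - y⁻¹) * Complex.exp (-u) - y⁻¹ * (Complex.exp (-u) * (Complex.exp (u - v) - 1)) := by
    rw [hpx, hpy, mul_sub (Complex.exp (-u)), mul_one, ← Complex.exp_add]
    have : -u + (u - v) = -v := by ring
    rw [this]
    ring
  have hu1 : ‖u‖ ≤ 1 / 2 := by (clear * - htH h1; linarith only [htH, h1])
  -- lower bound of exp (-u)
  have hlow : 1 - 2 * (‖τ‖ * HH ρ η) ≤ ‖Complex.exp (-u)‖ := by
    have h5 : ‖Complex.exp (-u) - 1‖ ≤ 2 * ‖-u‖ :=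
      Complex.norm_exp_sub_one_le (by rw [norm_neg]; linarith only [hu1])
    rw [norm_neg] at h5
    have h6 : ‖(1:ℂ)‖ - ‖Complex.exp (-u)‖ ≤ ‖1 - Complex.exp (-u)‖ := norm_sub_norm_le _ _
    rw [norm_one, norm_sub_rev] at h6
    (clear * - h1 h5 h6; linarith only [h1, h5, h6])
  have hup : ‖Complex.exp (-u)‖ ≤ 3 := by
    have h5 : ‖Complex.exp (-u) - 1‖ ≤ 2 * ‖-u‖ :=
      Complex.norm_exp_sub_one_le (by rw [norm_neg]; linarith only [hu1])
    rw [norm_neg] at h5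
    have h6 : ‖Complex.exp (-u)‖ - ‖(1:ℂ)‖ ≤ ‖Complex.exp (-u) - 1‖ := norm_sub_norm_le _ _
    rw [norm_one] at h6
    linarith only [hu1, h5, h6]
  have hd2 : ‖Complex.exp (u - v) - 1‖ ≤ 2 * ‖u - v‖ := Complex.norm_exp_sub_one_le huv1
  have hnx : ‖x‖ ≠ 0 := norm_ne_zero_iff.2 hx0
  have hny : ‖y‖ ≠ 0 := norm_ne_zero_iff.2 hy0
  have hxy : ‖x - y‖ = ‖x‖ * ‖y‖ * ‖x⁻¹ - y⁻¹‖ := by
    have h5 : x - y = -(x * y * (x⁻¹ - y⁻¹)) := by
      field_simp
      ring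
    rw [h5, norm_neg, norm_mul, norm_mul]
  have hsec : ‖y⁻¹ * (Complex.exp (-u) * (Complex.exp (u - v) - 1))‖ ≤
      6 * (‖τ‖ * LL ρ η) * ‖x⁻¹ - y⁻¹‖ := by
    rw [norm_mul, norm_mul, norm_inv]
    have h5 : ‖Complex.exp (-u)‖ * ‖Complex.exp (u - v) - 1‖ ≤
        3 * (2 * (‖τ‖ * LL ρ η * ‖x - y‖)) :=
      mul_le_mul hup (hd2.trans (by (clear * - huv; linarith only [huv]))) (norm_nonneg _) (by norm_num)
    calc ‖y‖⁻¹ * (‖Complex.exp (-u)‖ * ‖Complex.exp (u - v) - 1‖)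
        ≤ ‖y‖⁻¹ * (3 * (2 * (‖τ‖ * LL ρ η * ‖x - y‖))) :=
          mul_le_mul_of_nonneg_left h5 (inv_nonneg.2 (norm_nonneg _))
      _ = 6 * (‖τ‖ * LL ρ η) * (‖x‖ * ‖x⁻¹ - y⁻¹‖) := by
          rw [hxy]
          field_simp
          ring
      _ ≤ 6 * (‖τ‖ * LL ρ η) * (1 * ‖x⁻¹ - y⁻¹‖) := by
          refine mul_le_mul_of_nonneg_left ?_ (by (clear * - hL0; positivity))
          exact mul_le_mul_of_nonneg_right hx (norm_nonneg _)
      _ = _ := by rw [one_mul]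
  rw [hdec]
  have h7 := norm_sub_norm_le ((x⁻¹ - y⁻¹) * Complex.exp (-u))
    (y⁻¹ * (Complex.exp (-u) * (Complex.exp (u - v) - 1)))
  rw [norm_mul (x⁻¹ - y⁻¹)] at h7
  have h8 : (1 - 2 * (‖τ‖ * HH ρ η)) * ‖x⁻¹ - y⁻¹‖ ≤ ‖x⁻¹ - y⁻¹‖ * ‖Complex.exp (-u)‖ := by
    rw [mul_comm]
    exact mul_le_mul_of_nonneg_left hlow (norm_nonneg _)
  (clear * - hsec h7 h8; linarith only [hsec, h7, h8])

variable {e w0 : ℂ}

end Pool.Agent.Helper47.CMV

end

section

namespace Pool.Agent.Helper39.Area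
end Pool.Agent.Helper39.Area

/-!
# CK: Goluzin's two-point inequality

`|log ((φ b - φ a) / (1/b - 1/a))|^2 ≤ log (1/(1-|a|^2)) log (1/(1-|b|^2))` and the lower bound
`|ψ a - ψ b| ≥ (1 - r^(-2)) |a - b|` for `|a|, |b| ≥ r`. Copy of `Helper39/Area/GolMain.lean`
with a second point.
-/

set_option autoImplicit false

open Complex MeasureTheory Metric Set Filter Topology

open scoped Real ENNReal ComplexConjugate NNReal

namespace Pool.Agent.Helper77.CK

open Pool.Agent.Helper39.Area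

variable {β : ℂ → ℂ}

theorem dir_le (h : Ext β) {ρ : ℝ} (hρ : 0 < ρ) (hρ1 : ρ < 1)
    {a : ℂ} (ha : a ∈ ball (0:ℂ) ρ) (ha0 : a ≠ 0) {F : ℂ → ℂ}
    (hF : ∀ ζ ∈ ball (0:ℂ) 1, HasDerivAt F (deriv (qq β a) ζ / qq β a ζ) ζ)
    (hF0 : F 0 = 0) (hexp : ∀ ζ ∈ ball (0:ℂ) 1, Complex.exp (F ζ) = qq β a ζ) :
    ∃ A : ℝ, A ≤ - Real.log (1 - ‖a‖ ^ 2 / ρ ^ 2) ∧
      (∮ ζ in C(0, ρ), conj (F ζ) * (deriv (qq β a) ζ / qq β a ζ)) = 2 * π * I * A := by
  have ha1 : a ∈ ball (0:ℂ) 1 := mem_ball_of_sphere hρ1 (ball_subset_closedBall ha)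
  have hapos : 0 < ‖a‖ := norm_pos_iff.mpr ha0
  have haρ : ‖a‖ < ρ := by simpa using ha
  set Q : ℂ → ℂ := fun ζ => deriv (qq β a) ζ / qq β a ζ with hQ
  set R : ℝ := min 1 (ρ ^ 2 / ‖a‖) with hR
  have hρR : ρ < R := lt_min hρ1 (rad_lt hρ ha ha0)
  have hR1 : ball (0:ℂ) R ⊆ ball 0 1 := ball_subset_ball (min_le_left _ _)
  have hR2 : ball (0:ℂ) R ⊆ ball 0 (ρ ^ 2 / ‖a‖) := ball_subset_ball (min_le_right _ _)
  have hsR : sphere (0:ℂ) ρ ⊆ ball 0 R := by
    intro ζ hζ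
    rw [mem_ball, dist_zero_right]
    rw [mem_sphere, dist_zero_right] at hζ
    linarith only [hρR, hζ]
  have hFd : DifferentiableOn ℂ F (ball 0 R) := fun ζ hζ =>
    (hF ζ (hR1 hζ)).differentiableAt.differentiableWithinAt
  have hQd : DifferentiableOn ℂ Q (ball 0 R) := by
    have h1 : DifferentiableOn ℂ (deriv F) (ball 0 R) := hFd.deriv isOpen_ball
    apply h1.congr
    intro ζ hζ
    exact (hF ζ (hR1 hζ)).deriv.symm
  have hLd : DifferentiableOn ℂ (Lam ρ a) (ball 0 R) := (lam_diff hρ ha ha0).mono hR2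
  have hLpd : DifferentiableOn ℂ (Lamp ρ a) (ball 0 R) := by
    have h1 : DifferentiableOn ℂ (deriv (Lam ρ a)) (ball 0 R) := hLd.deriv isOpen_ball
    apply h1.congr
    intro ζ hζ
    exact (lam_hasDeriv hρ ha ha0 (hR2 hζ)).deriv.symm
  have hFc : ContinuousOn F (sphere 0 ρ) := hFd.continuousOn.mono hsR
  have hQc : ContinuousOn Q (sphere 0 ρ) := hQd.continuousOn.mono hsR
  have hLc : ContinuousOn (Lam ρ a) (sphere 0 ρ) := hLd.continuousOn.mono hsR
  have hLpc : ContinuousOn (Lamp ρ a) (sphere 0 ρ) := hLpd.continuousOn.mono hsR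
  have hgpc : ContinuousOn (gp a) (sphere 0 ρ) := gp_cont ha hρ
  set G : ℂ → ℂ := fun ζ => Complex.log (1 - a / ζ) with hG
  have hGc : ContinuousOn G (sphere 0 ρ) := fun ζ hζ =>
    (g_hasDeriv ha hρ hζ).continuousAt.continuousWithinAt
  have hcFc : ContinuousOn (fun ζ => conj (F ζ)) (sphere 0 ρ) :=
    Complex.continuous_conj.comp_continuousOn hFc
  have hFs : ∀ ζ ∈ sphere (0:ℂ) ρ, HasDerivAt F (Q ζ) ζ := fun ζ hζ => hF ζ (hR1 (hsR hζ))
  have hLs : ∀ ζ ∈ sphere (0:ℂ) ρ, HasDerivAt (Lam ρ a) (Lamp ρ a ζ) ζ := fun ζ hζ =>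
    lam_hasDeriv hρ ha ha0 (hR2 (hsR hζ))
  have hGs : ∀ ζ ∈ sphere (0:ℂ) ρ, HasDerivAt G (gp a ζ) ζ := fun ζ hζ => g_hasDeriv ha hρ hζ
  have hGL : ∀ ζ ∈ sphere (0:ℂ) ρ, conj (Lam ρ a ζ) = G ζ := fun ζ hζ => conj_lam hρ ha ha0 hζ
  set ℓ : ℝ := - Real.log (1 - ‖a‖ ^ 2 / ρ ^ 2) with hℓ
  have hfrac : 0 < ‖a‖ ^ 2 / ρ ^ 2 := by (clear * - ha0 hρ; positivity)
  have hfrac1 : ‖a‖ ^ 2 / ρ ^ 2 < 1 := by
    rw [div_lt_one (by positivity)]
    exact pow_lt_pow_left₀ haρ hapos.le two_ne_zero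
  have hℓpos : 0 < ℓ := by
    rw [hℓ, neg_pos]
    exact Real.log_neg (by (clear * - hfrac1; linarith)) (by linarith only [hfrac])
  have hLa : Lam ρ a a = -(ℓ:ℂ) := by
    rw [lam_self hρ ha, hℓ]; push_cast; ring
  have hL0 : Lam ρ a 0 = 0 := lam_zero ρ a
  -- the basic integrals
  have I3 : (∮ ζ in C(0, ρ), G ζ * Q ζ) = -(2 * π * I * F a) := by
    rw [parts hρ hGs hFs hgpc hQc, repro hρ hρR hFd ha, hF0, sub_zero]
  have I4 : (∮ ζ in C(0, ρ), G ζ * gp a ζ) = 0 := by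
    have h1 := parts hρ hGs hGs hgpc hgpc
    have h2 : (2:ℂ) * (∮ ζ in C(0, ρ), G ζ * gp a ζ) = 0 := by linear_combination h1
    simpa using h2
  obtain ⟨A, hA0, hA⟩ := dirichlet_nonneg hFd hρ hρR
  have I5 : (∮ ζ in C(0, ρ), conj (F ζ) * Q ζ) = 2 * π * I * A := by
    rw [← hA]
    apply circleIntegral.integral_congr hρ.le
    intro ζ hζ
    simp only
    rw [(hFs ζ hζ).deriv]
  have I6 : (∮ ζ in C(0, ρ), conj (F ζ) * gp a ζ) = 0 := by
    have h1 := conj_circle hρ (fun ζ => conj (F ζ) * gp a ζ)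
    have h2 : (∮ ζ in C(0, ρ), (-((ρ:ℂ) ^ 2 / ζ ^ 2)) * conj (conj (F ζ) * gp a ζ)) =
        ∮ ζ in C(0, ρ), F ζ * Lamp ρ a ζ := by
      apply circleIntegral.integral_congr hρ.le
      intro ζ hζ
      simp only
      rw [map_mul, Complex.conj_conj, ← lamp_eq hρ ha ha0 hζ]
      ring
    have hz : (∮ ζ in C(0, ρ), F ζ * Lamp ρ a ζ) = 0 := cauchy_zero hρ hρR (hFd.mul hLpd)
    rw [h2, hz] at h1
    simpa using h1
  -- the area inequality
  obtain ⟨c, hc0, hc⟩ := area_log h hρ hρ1 ha ha0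
  set c0 : ℂ := ((-2 * Real.log ‖a‖ : ℝ) : ℂ) with hc0'
  have hW : DifferentiableOn ℂ (fun ζ => c0 + Lam ρ a ζ + F ζ) (ball 0 R) :=
    ((differentiableOn_const c0).add hLd).add hFd
  have hWc : ContinuousOn (fun ζ => c0 + Lam ρ a ζ + F ζ) (sphere 0 ρ) := hW.continuousOn.mono hsR
  have I1 : (∮ ζ in C(0, ρ), (c0 + Lam ρ a ζ + F ζ) * Q ζ) = 0 :=
    cauchy_zero hρ hρR (hW.mul hQd)
  have I2 : (∮ ζ in C(0, ρ), (c0 + Lam ρ a ζ + F ζ) * gp a ζ) = 2 * π * I * (F a - ℓ) := by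
    rw [repro hρ hρR hW ha, hLa, hL0, hF0]
    ring
  have hJ : (∮ ζ in C(0, ρ), ((2 * Real.log ‖phi β ζ - phi β a‖ : ℝ) : ℂ) *
      (dphi β ζ / (phi β ζ - phi β a))) =
      ∮ ζ in C(0, ρ), ((((((c0 + Lam ρ a ζ + F ζ) * Q ζ) + ((c0 + Lam ρ a ζ + F ζ) * gp a ζ)) +
        (G ζ * Q ζ)) + (G ζ * gp a ζ)) + (conj (F ζ) * Q ζ)) + (conj (F ζ) * gp a ζ) := by
    apply circleIntegral.integral_congr hρ.le
    intro ζ hζ
    have hζ1 : ζ ∈ ball (0:ℂ) 1 := hR1 (hsR hζ)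
    have hζ0 : ζ ≠ 0 := sphere_ne' hρ hζ
    have hne : ζ ≠ a := by
      rintro rfl
      simp at hζ
      (clear * - haρ hζ; linarith only [haρ, hζ])
    have h1 : ((2 * Real.log ‖phi β ζ - phi β a‖ : ℝ) : ℂ) =
        c0 + Lam ρ a ζ + F ζ + G ζ + conj (F ζ) := by
      have h2 : phi β ζ - phi β a = -a⁻¹ * (1 - a / ζ) * qq β a ζ := by
        rw [phi_sub a ζ ha0 hζ0]
        field_simp
        ring
      have h3 : (1 - a / ζ) ≠ 0 := by
        intro h'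
        rw [sub_eq_zero, eq_div_iff hζ0, one_mul] at h'
        exact hne h'
      have h4 : qq β a ζ ≠ 0 := qq_ne h ha1 hζ1
      have h5 : Real.log ‖phi β ζ - phi β a‖ = - Real.log ‖a‖ + (G ζ).re + (F ζ).re := by
        rw [h2, norm_mul, norm_mul, norm_neg, norm_inv,
          Real.log_mul (mul_ne_zero (inv_ne_zero hapos.ne') (norm_ne_zero_iff.mpr h3))
            (norm_ne_zero_iff.mpr h4),
          Real.log_mul (inv_ne_zero hapos.ne') (norm_ne_zero_iff.mpr h3), Real.log_inv, hG,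
          Complex.log_re, ← hexp ζ hζ1, Complex.norm_exp, Real.log_exp]
      have h6 : Lam ρ a ζ = conj (G ζ) := by rw [← hGL ζ hζ, Complex.conj_conj]
      rw [h5, h6, hc0']
      have h7 := Complex.add_conj (G ζ)
      have h8 := Complex.add_conj (F ζ)
      push_cast at h7 h8 ⊢
      linear_combination -h7 - h8
    simp only
    rw [h1, dphi_div h ha1 hζ1 ha0 hζ0 hne]
    simp only [gp, hQ]
    ring
  have hc1 : CircleIntegrable (fun ζ => (c0 + Lam ρ a ζ + F ζ) * Q ζ) 0 ρ :=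
    (hWc.mul hQc).circleIntegrable hρ.le
  have hc2 : CircleIntegrable (fun ζ => (c0 + Lam ρ a ζ + F ζ) * gp a ζ) 0 ρ :=
    (hWc.mul hgpc).circleIntegrable hρ.le
  have hc3 : CircleIntegrable (fun ζ => G ζ * Q ζ) 0 ρ := (hGc.mul hQc).circleIntegrable hρ.le
  have hc4 : CircleIntegrable (fun ζ => G ζ * gp a ζ) 0 ρ := (hGc.mul hgpc).circleIntegrable hρ.le
  have hc5 : CircleIntegrable (fun ζ => conj (F ζ) * Q ζ) 0 ρ :=
    (hcFc.mul hQc).circleIntegrable hρ.le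
  have hc6 : CircleIntegrable (fun ζ => conj (F ζ) * gp a ζ) 0 ρ :=
    (hcFc.mul hgpc).circleIntegrable hρ.le
  have hc12 : CircleIntegrable (fun ζ => ((c0 + Lam ρ a ζ + F ζ) * Q ζ) +
      ((c0 + Lam ρ a ζ + F ζ) * gp a ζ)) 0 ρ := hc1.add hc2
  have hc13 : CircleIntegrable (fun ζ => (((c0 + Lam ρ a ζ + F ζ) * Q ζ) +
      ((c0 + Lam ρ a ζ + F ζ) * gp a ζ)) + (G ζ * Q ζ)) 0 ρ := hc12.add hc3
  have hc14 : CircleIntegrable (fun ζ => ((((c0 + Lam ρ a ζ + F ζ) * Q ζ) +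
      ((c0 + Lam ρ a ζ + F ζ) * gp a ζ)) + (G ζ * Q ζ)) + (G ζ * gp a ζ)) 0 ρ := hc13.add hc4
  have hc15 : CircleIntegrable (fun ζ => (((((c0 + Lam ρ a ζ + F ζ) * Q ζ) +
      ((c0 + Lam ρ a ζ + F ζ) * gp a ζ)) + (G ζ * Q ζ)) + (G ζ * gp a ζ)) +
      (conj (F ζ) * Q ζ)) 0 ρ := hc14.add hc5
  rw [hJ, circleIntegral.integral_add hc15 hc6, circleIntegral.integral_add hc14 hc5,
    circleIntegral.integral_add hc13 hc4, circleIntegral.integral_add hc12 hc3,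
    circleIntegral.integral_add hc1 hc2, I1, I2, I3, I4, I5, I6] at hc
  have hpi : (π:ℂ) ≠ 0 := by exact_mod_cast Real.pi_ne_zero
  have hAc : (A:ℂ) = ℓ - c / π := by
    have hI : (2 * I : ℂ) ≠ 0 := by simp
    have : (2 * I : ℂ) * (π * A) = (2 * I : ℂ) * (π * ℓ - c) := by linear_combination hc
    have h2 := mul_left_cancel₀ hI this
    field_simp
    linear_combination h2
  have hAr : A = ℓ - c / π := by exact_mod_cast hAc
  have hAle : A ≤ ℓ := by
    rw [hAr]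
    have : 0 ≤ c / π := div_nonneg hc0 Real.pi_pos.le
    linarith only [this]
  exact ⟨A, hAle, I5⟩

/-- two points -/
theorem two_aux (h : Ext β) {ρ : ℝ} (hρ : 0 < ρ) (hρ1 : ρ < 1)
    {a b : ℂ} (ha : a ∈ ball (0:ℂ) ρ) (ha0 : a ≠ 0) (hb : b ∈ ball (0:ℂ) ρ) (hb0 : b ≠ 0)
    {F : ℂ → ℂ}
    (hF : ∀ ζ ∈ ball (0:ℂ) 1, HasDerivAt F (deriv (qq β a) ζ / qq β a ζ) ζ)
    (hF0 : F 0 = 0) (hexp : ∀ ζ ∈ ball (0:ℂ) 1, Complex.exp (F ζ) = qq β a ζ) :
    ‖F b‖ ^ 2 ≤ Real.log (1 - ‖a‖ ^ 2 / ρ ^ 2) * Real.log (1 - ‖b‖ ^ 2 / ρ ^ 2) := by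
  obtain ⟨A, hAle, I5⟩ := dir_le h hρ hρ1 ha ha0 hF hF0 hexp
  have hbpos : 0 < ‖b‖ := norm_pos_iff.mpr hb0
  have hbρ : ‖b‖ < ρ := by simpa using hb
  set Q : ℂ → ℂ := fun ζ => deriv (qq β a) ζ / qq β a ζ with hQ
  set R : ℝ := min 1 (ρ ^ 2 / ‖b‖) with hR
  have hρR : ρ < R := lt_min hρ1 (rad_lt hρ hb hb0)
  have hR1 : ball (0:ℂ) R ⊆ ball 0 1 := ball_subset_ball (min_le_left _ _)
  have hR2 : ball (0:ℂ) R ⊆ ball 0 (ρ ^ 2 / ‖b‖) := ball_subset_ball (min_le_right _ _)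
  have hsR : sphere (0:ℂ) ρ ⊆ ball 0 R := by
    intro ζ hζ
    rw [mem_ball, dist_zero_right]
    rw [mem_sphere, dist_zero_right] at hζ
    (clear * - hρR hζ; linarith only [hρR, hζ])
  have hFd : DifferentiableOn ℂ F (ball 0 R) := fun ζ hζ =>
    (hF ζ (hR1 hζ)).differentiableAt.differentiableWithinAt
  have hQd : DifferentiableOn ℂ Q (ball 0 R) := by
    have h1 : DifferentiableOn ℂ (deriv F) (ball 0 R) := hFd.deriv isOpen_ball
    apply h1.congr
    intro ζ hζ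
    exact (hF ζ (hR1 hζ)).deriv.symm
  have hLd : DifferentiableOn ℂ (Lam ρ b) (ball 0 R) := (lam_diff hρ hb hb0).mono hR2
  have hLpd : DifferentiableOn ℂ (Lamp ρ b) (ball 0 R) := by
    have h1 : DifferentiableOn ℂ (deriv (Lam ρ b)) (ball 0 R) := hLd.deriv isOpen_ball
    apply h1.congr
    intro ζ hζ
    exact (lam_hasDeriv hρ hb hb0 (hR2 hζ)).deriv.symm
  have hFc : ContinuousOn F (sphere 0 ρ) := hFd.continuousOn.mono hsR
  have hQc : ContinuousOn Q (sphere 0 ρ) := hQd.continuousOn.mono hsR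
  have hLc : ContinuousOn (Lam ρ b) (sphere 0 ρ) := hLd.continuousOn.mono hsR
  have hLpc : ContinuousOn (Lamp ρ b) (sphere 0 ρ) := hLpd.continuousOn.mono hsR
  have hgpc : ContinuousOn (gp b) (sphere 0 ρ) := gp_cont hb hρ
  set G : ℂ → ℂ := fun ζ => Complex.log (1 - b / ζ) with hG
  have hGc : ContinuousOn G (sphere 0 ρ) := fun ζ hζ =>
    (g_hasDeriv hb hρ hζ).continuousAt.continuousWithinAt
  have hcFc : ContinuousOn (fun ζ => conj (F ζ)) (sphere 0 ρ) :=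
    Complex.continuous_conj.comp_continuousOn hFc
  have hFs : ∀ ζ ∈ sphere (0:ℂ) ρ, HasDerivAt F (Q ζ) ζ := fun ζ hζ => hF ζ (hR1 (hsR hζ))
  have hLs : ∀ ζ ∈ sphere (0:ℂ) ρ, HasDerivAt (Lam ρ b) (Lamp ρ b ζ) ζ := fun ζ hζ =>
    lam_hasDeriv hρ hb hb0 (hR2 (hsR hζ))
  have hGs : ∀ ζ ∈ sphere (0:ℂ) ρ, HasDerivAt G (gp b ζ) ζ := fun ζ hζ => g_hasDeriv hb hρ hζ
  have hGL : ∀ ζ ∈ sphere (0:ℂ) ρ, conj (Lam ρ b ζ) = G ζ := fun ζ hζ => conj_lam hρ hb hb0 hζ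
  set ℓ : ℝ := - Real.log (1 - ‖b‖ ^ 2 / ρ ^ 2) with hℓ
  have hfrac : 0 < ‖b‖ ^ 2 / ρ ^ 2 := by (clear * - hb0 hρ; positivity)
  have hfrac1 : ‖b‖ ^ 2 / ρ ^ 2 < 1 := by
    rw [div_lt_one (by (clear * - hρ; positivity))]
    exact pow_lt_pow_left₀ hbρ hbpos.le two_ne_zero
  have hℓpos : 0 < ℓ := by
    rw [hℓ, neg_pos]
    exact Real.log_neg (by (clear * - hfrac1; linarith only [hfrac1])) (by linarith only [hfrac])
  have hLa : Lam ρ b b = -(ℓ:ℂ) := by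
    rw [lam_self hρ hb, hℓ]; push_cast; ring
  have hL0 : Lam ρ b 0 = 0 := lam_zero ρ b
  have I3 : (∮ ζ in C(0, ρ), G ζ * Q ζ) = -(2 * π * I * F b) := by
    rw [parts hρ hGs hFs hgpc hQc, repro hρ hρR hFd hb, hF0, sub_zero]
  have I7 : (∮ ζ in C(0, ρ), conj (F ζ) * Lamp ρ b ζ) = -(2 * π * I * conj (F b)) := by
    have h1 := conj_circle hρ (fun ζ => conj (F ζ) * Lamp ρ b ζ)
    have h2 : (∮ ζ in C(0, ρ), (-((ρ:ℂ) ^ 2 / ζ ^ 2)) * conj (conj (F ζ) * Lamp ρ b ζ)) =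
        ∮ ζ in C(0, ρ), F ζ * gp b ζ := by
      apply circleIntegral.integral_congr hρ.le
      intro ζ hζ
      simp only
      rw [map_mul, Complex.conj_conj, ← gp_eq hρ hb hb0 hζ]
      ring
    rw [h2, repro hρ hρR hFd hb, hF0, sub_zero] at h1
    have h3 := congrArg conj h1
    rw [Complex.conj_conj] at h3
    rw [h3]
    simp only [map_mul, Complex.conj_ofReal, Complex.conj_I, map_ofNat]
    ring
  have I8 : (∮ ζ in C(0, ρ), G ζ * Lamp ρ b ζ) = 2 * π * I * ℓ := by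
    rw [parts hρ hGs hLs hgpc hLpc, repro hρ hρR hLd hb, hLa, hL0]
    ring
  -- the Dirichlet form of the combination
  set lam : ℂ := F b / ℓ with hlam
  have hEd : DifferentiableOn ℂ (fun ζ => F ζ + lam * Lam ρ b ζ) (ball 0 R) :=
    hFd.add (hLd.const_mul lam)
  obtain ⟨c2, hc20, hc2'⟩ := dirichlet_nonneg hEd hρ hρR
  have hℓc : (ℓ:ℂ) ≠ 0 := by exact_mod_cast hℓpos.ne'
  have hE : (∮ ζ in C(0, ρ), conj (F ζ + lam * Lam ρ b ζ) *
      deriv (fun ζ => F ζ + lam * Lam ρ b ζ) ζ) =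
      ∮ ζ in C(0, ρ), (((conj (F ζ) * Q ζ) + lam * (conj (F ζ) * Lamp ρ b ζ)) +
        conj lam * (G ζ * Q ζ)) + (conj lam * lam) * (G ζ * Lamp ρ b ζ) := by
    apply circleIntegral.integral_congr hρ.le
    intro ζ hζ
    have h1 : deriv (fun ζ => F ζ + lam * Lam ρ b ζ) ζ = Q ζ + lam * Lamp ρ b ζ :=
      ((hFs ζ hζ).add ((hLs ζ hζ).const_mul lam)).deriv
    simp only
    rw [h1, map_add, map_mul, hGL ζ hζ]
    ring
  have hc5 : CircleIntegrable (fun ζ => conj (F ζ) * Q ζ) 0 ρ :=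
    (hcFc.mul hQc).circleIntegrable hρ.le
  have hd2 : CircleIntegrable (fun ζ => lam * (conj (F ζ) * Lamp ρ b ζ)) 0 ρ :=
    (continuousOn_const.mul (hcFc.mul hLpc)).circleIntegrable hρ.le
  have hd3 : CircleIntegrable (fun ζ => conj lam * (G ζ * Q ζ)) 0 ρ :=
    (continuousOn_const.mul (hGc.mul hQc)).circleIntegrable hρ.le
  have hd4 : CircleIntegrable (fun ζ => (conj lam * lam) * (G ζ * Lamp ρ b ζ)) 0 ρ :=
    (continuousOn_const.mul (hGc.mul hLpc)).circleIntegrable hρ.le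
  have hd12 : CircleIntegrable (fun ζ => (conj (F ζ) * Q ζ) +
      lam * (conj (F ζ) * Lamp ρ b ζ)) 0 ρ := hc5.add hd2
  have hd13 : CircleIntegrable (fun ζ => ((conj (F ζ) * Q ζ) +
      lam * (conj (F ζ) * Lamp ρ b ζ)) + conj lam * (G ζ * Q ζ)) 0 ρ := hd12.add hd3
  rw [hE, circleIntegral.integral_add hd13 hd4, circleIntegral.integral_add hd12 hd3,
    circleIntegral.integral_add hc5 hd2, circleIntegral.integral_const_mul,
    circleIntegral.integral_const_mul, circleIntegral.integral_const_mul, I5, I7, I3, I8] at hc2'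
  have hFb : F b * conj (F b) = ((‖F b‖ ^ 2 : ℝ) : ℂ) := by
    rw [Complex.mul_conj, Complex.normSq_eq_norm_sq]
  have hclam : conj lam = conj (F b) / ℓ := by
    rw [hlam, map_div₀, Complex.conj_ofReal]
  have hfin : (A:ℂ) = c2 + ((‖F b‖ ^ 2 : ℝ) : ℂ) / ℓ := by
    have h2pi : (2 * π * I : ℂ) ≠ 0 := two_pi_I_ne_zero
    apply mul_left_cancel₀ h2pi
    rw [← hFb]
    rw [hclam, hlam] at hc2'
    have h9 : (2 * π * I : ℂ) * A + F b / ℓ * -(2 * π * I * conj (F b)) +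
        conj (F b) / ℓ * -(2 * π * I * F b) + conj (F b) / ℓ * (F b / ℓ) * (2 * π * I * ℓ) =
        2 * π * I * (A - F b * conj (F b) / ℓ) := by
      field_simp
      ring
    rw [h9] at hc2'
    linear_combination hc2'
  have hfinr : A = c2 + ‖F b‖ ^ 2 / ℓ := by exact_mod_cast hfin
  have h10 : ‖F b‖ ^ 2 / ℓ ≤ - Real.log (1 - ‖a‖ ^ 2 / ρ ^ 2) := by linarith only [hAle, hc20, hfinr]
  rw [div_le_iff₀ hℓpos] at h10
  rw [hℓ] at h10
  (clear * - h10; linarith only [h10])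

/-- Goluzin's inequality at two points -/
theorem two_log (h : Ext β) {a b : ℂ} (ha : a ∈ ball (0:ℂ) 1) (ha0 : a ≠ 0)
    (hb : b ∈ ball (0:ℂ) 1) (hb0 : b ≠ 0) {F : ℂ → ℂ}
    (hF : ∀ ζ ∈ ball (0:ℂ) 1, HasDerivAt F (deriv (qq β a) ζ / qq β a ζ) ζ)
    (hF0 : F 0 = 0) (hexp : ∀ ζ ∈ ball (0:ℂ) 1, Complex.exp (F ζ) = qq β a ζ) :
    ‖F b‖ ^ 2 ≤ Real.log (1 - ‖a‖ ^ 2) * Real.log (1 - ‖b‖ ^ 2) := by
  have ha' : ‖a‖ < 1 := by simpa using ha
  have hb' : ‖b‖ < 1 := by simpa using hb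
  have hc : ∀ c : ℂ, ‖c‖ < 1 → ContinuousAt (fun ρ : ℝ => Real.log (1 - ‖c‖ ^ 2 / ρ ^ 2)) 1 := by
    intro c hc
    apply ContinuousAt.log
    · apply ContinuousAt.sub continuousAt_const
      apply ContinuousAt.div continuousAt_const (by fun_prop) (by norm_num)
    · have : ‖c‖ ^ 2 < 1 := by nlinarith only [norm_nonneg c, hc]
      simp only [one_pow, div_one]
      (clear * - this; linarith only [this])
  have hlim : Tendsto (fun ρ : ℝ => Real.log (1 - ‖a‖ ^ 2 / ρ ^ 2) *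
      Real.log (1 - ‖b‖ ^ 2 / ρ ^ 2)) (𝓝[<] 1)
      (𝓝 (Real.log (1 - ‖a‖ ^ 2) * Real.log (1 - ‖b‖ ^ 2))) := by
    have h2 := ((hc a ha').tendsto.mul (hc b hb').tendsto)
    rw [one_pow, div_one, div_one] at h2
    exact h2.mono_left nhdsWithin_le_nhds
  apply ge_of_tendsto hlim
  have h1 : Ioo (max ‖a‖ ‖b‖) 1 ∈ 𝓝[<] (1:ℝ) := Ioo_mem_nhdsLT (max_lt ha' hb')
  filter_upwards [h1] with ρ hρ
  have h2 : ‖a‖ < ρ := (le_max_left _ _).trans_lt hρ.1
  have h3 : ‖b‖ < ρ := (le_max_right _ _).trans_lt hρ.1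
  exact two_aux h ((norm_nonneg a).trans_lt h2) hρ.2 (by simpa using h2) ha0
    (by simpa using h3) hb0 hF hF0 hexp

/-- the logarithm of the difference quotient -/
theorem exists_log (h : Ext β) {a : ℂ} (ha : a ∈ ball (0:ℂ) 1) :
    ∃ F : ℂ → ℂ, F 0 = 0 ∧
      (∀ ζ ∈ ball (0:ℂ) 1, HasDerivAt F (deriv (qq β a) ζ / qq β a ζ) ζ) ∧
      ∀ ζ ∈ ball (0:ℂ) 1, Complex.exp (F ζ) = qq β a ζ := by
  have h0b : (0:ℂ) ∈ ball (0:ℂ) 1 := mem_ball_self one_pos
  have hqd := qq_diff h.diff ha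
  have hQd : DifferentiableOn ℂ (fun ζ => deriv (qq β a) ζ / qq β a ζ) (ball 0 1) :=
    (hqd.deriv isOpen_ball).div hqd (fun ζ hζ => qq_ne h ha hζ)
  obtain ⟨F, hF0, hF⟩ := hQd.isExactOn_ball.with_val_at 0 0
  refine ⟨F, hF0, hF, ?_⟩
  have hderiv : ∀ ζ ∈ ball (0:ℂ) 1, HasDerivAt (fun ζ => Complex.exp (-F ζ) * qq β a ζ) 0 ζ := by
    intro ζ hζ
    have h1 := ((hF ζ hζ).neg.cexp).mul
      ((hqd.differentiableAt (isOpen_ball.mem_nhds hζ)).hasDerivAt)
    have h2 := qq_ne h ha hζ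
    have e : (0:ℂ) = Complex.exp (-F ζ) * -(deriv (qq β a) ζ / qq β a ζ) * qq β a ζ +
        Complex.exp (-F ζ) * deriv (qq β a) ζ := by
      field_simp
      ring
    rw [e]
    exact h1
  intro ζ hζ
  have h1 : Complex.exp (-F ζ) * qq β a ζ = Complex.exp (-F 0) * qq β a 0 := by
    apply (convex_ball (0:ℂ) 1).is_const_of_fderivWithin_eq_zero (𝕜 := ℂ)
      (f := fun ζ => Complex.exp (-F ζ) * qq β a ζ) _ _ hζ h0b
    · intro ω hω
      exact (hderiv ω hω).differentiableAt.differentiableWithinAt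
    · intro ω hω
      have h3 := (hderiv ω hω).hasFDerivAt.hasFDerivWithinAt (s := ball (0:ℂ) 1)
      rw [h3.fderivWithin (isOpen_ball.uniqueDiffWithinAt hω)]
      ext
      simp
  rw [hF0, neg_zero, Complex.exp_zero, one_mul] at h1
  have h2 : qq β a 0 = 1 := by simp [qq]
  rw [h2, Complex.exp_neg] at h1
  have h3 := Complex.exp_ne_zero (F ζ)
  field_simp at h1
  exact h1.symm

/-- the difference quotient is at least `1 - s^2` -/
theorem qq_ge (h : Ext β) {a b : ℂ} (ha0 : a ≠ 0) (hb0 : b ≠ 0) {s : ℝ} (hs : s < 1)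
    (ha : ‖a‖ ≤ s) (hb : ‖b‖ ≤ s) : 1 - s ^ 2 ≤ ‖qq β a b‖ ∧ ‖qq β a b‖ ≤ 1 / (1 - s ^ 2) := by
  have ha1 : a ∈ ball (0:ℂ) 1 := by simpa using ha.trans_lt hs
  have hb1 : b ∈ ball (0:ℂ) 1 := by simpa using hb.trans_lt hs
  have hs0 : 0 ≤ s := (norm_nonneg a).trans ha
  have hs1 : 0 < 1 - s ^ 2 := by nlinarith only [hs, hs0]
  obtain ⟨F, hF0, hF, hexp⟩ := exists_log h ha1
  have h1 := two_log h ha1 ha0 hb1 hb0 hF hF0 hexp
  have h2 : ∀ c : ℂ, ‖c‖ ≤ s → 0 ≤ -Real.log (1 - ‖c‖ ^ 2) ∧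
      -Real.log (1 - ‖c‖ ^ 2) ≤ -Real.log (1 - s ^ 2) := by
    intro c hc
    have h3 : ‖c‖ ^ 2 ≤ s ^ 2 := pow_le_pow_left₀ (norm_nonneg c) hc 2
    refine ⟨?_, ?_⟩
    · rw [neg_nonneg]
      exact Real.log_nonpos (by linarith only [hs1, h3]) (by (clear * -; nlinarith only []))
    · exact neg_le_neg (Real.log_le_log hs1 (by linarith))
  obtain ⟨ha2, ha3⟩ := h2 a ha
  obtain ⟨hb2, hb3⟩ := h2 b hb
  have h4 : ‖F b‖ ^ 2 ≤ (-Real.log (1 - s ^ 2)) ^ 2 := by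
    calc ‖F b‖ ^ 2 ≤ (-Real.log (1 - ‖a‖ ^ 2)) * (-Real.log (1 - ‖b‖ ^ 2)) := by (clear * - h1; linarith)
      _ ≤ (-Real.log (1 - s ^ 2)) * (-Real.log (1 - s ^ 2)) := by gcongr; exact ha2.trans ha3
      _ = _ := by ring
  have h5 : ‖F b‖ ≤ -Real.log (1 - s ^ 2) := by
    have h6 : 0 ≤ -Real.log (1 - s ^ 2) := ha2.trans ha3
    exact le_of_sq_le_sq h4 h6
  have h7 : ‖qq β a b‖ = Real.exp (F b).re := by
    rw [← hexp b hb1, Complex.norm_exp]
  have h8 : |(F b).re| ≤ -Real.log (1 - s ^ 2) := (Complex.abs_re_le_norm _).trans h5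
  rw [abs_le] at h8
  rw [h7]
  constructor
  · calc 1 - s ^ 2 = Real.exp (Real.log (1 - s ^ 2)) := (Real.exp_log hs1).symm
      _ ≤ _ := Real.exp_le_exp.2 (by (clear * - h8; linarith only [h8]))
  · calc Real.exp (F b).re ≤ Real.exp (-Real.log (1 - s ^ 2)) := Real.exp_le_exp.2 h8.2
      _ = 1 / (1 - s ^ 2) := by rw [Real.exp_neg, Real.exp_log hs1, one_div]

/-- lower bound, in the coordinate `ζ = 1/z` -/
theorem phi_sub_ge (h : Ext β) {a b : ℂ} (ha0 : a ≠ 0) (hb0 : b ≠ 0) {s : ℝ} (hs : s < 1)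
    (ha : ‖a‖ ≤ s) (hb : ‖b‖ ≤ s) :
    (1 - s ^ 2) * ‖b⁻¹ - a⁻¹‖ ≤ ‖phi β b - phi β a‖ := by
  rw [phi_sub a b ha0 hb0, norm_mul, mul_comm]
  exact mul_le_mul_of_nonneg_left (qq_ge h ha0 hb0 hs ha hb).1 (norm_nonneg _)

/-- upper bound, in the coordinate `ζ = 1/z` -/
theorem phi_sub_le (h : Ext β) {a b : ℂ} (ha0 : a ≠ 0) (hb0 : b ≠ 0) {s : ℝ} (hs : s < 1)
    (ha : ‖a‖ ≤ s) (hb : ‖b‖ ≤ s) :
    ‖phi β b - phi β a‖ ≤ ‖b⁻¹ - a⁻¹‖ / (1 - s ^ 2) := by
  rw [phi_sub a b ha0 hb0, norm_mul, div_eq_mul_one_div]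
  exact mul_le_mul_of_nonneg_left (qq_ge h ha0 hb0 hs ha hb).2 (norm_nonneg _)

section

variable {ψ : ℂ → ℂ}

end

end Pool.Agent.Helper77.CK

end

section

namespace Pool.Agent.Helper39.Area
end Pool.Agent.Helper39.Area

/-!
# CK: uniform bounds in the class `Ext`
-/

set_option autoImplicit false

open Complex Metric Set Filter Topology

open scoped ComplexConjugate

namespace Pool.Agent.Helper77.CK

open Pool.Agent.Helper39.Area

variable {β : ℂ → ℂ}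

/-- bounds for `ψ'(1/z) = 1 - z^2 β'(z)` -/
theorem N_bounds (h : Ext β) {z : ℂ} (hz : ‖z‖ < 1) :
    1 - ‖z‖ ^ 2 ≤ ‖1 - z ^ 2 * deriv β z‖ ∧ ‖1 - z ^ 2 * deriv β z‖ ≤ 1 / (1 - ‖z‖ ^ 2) := by
  by_cases h0 : z = 0
  · subst h0
    simp
  · have h1 := qq_ge h h0 h0 hz le_rfl le_rfl
    have h2 : qq β z z = 1 - z ^ 2 * deriv β z := by
      unfold qq
      rw [dslope_same]
      ring
    rwa [h2] at h1

theorem dphi_eq {z : ℂ} (h0 : z ≠ 0) : dphi β z = -(1 - z ^ 2 * deriv β z) / z ^ 2 := by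
  unfold dphi
  field_simp
  ring

/-- (a) bounds for `φ'` -/
theorem dphi_bounds (h : Ext β) {η : ℝ} (hη : 0 < η) {z : ℂ} (h1 : η ≤ ‖z‖) (h2 : ‖z‖ ≤ 1 - η) :
    η ≤ ‖dphi β z‖ ∧ ‖dphi β z‖ ≤ (η ^ 3)⁻¹ := by
  have hz0 : 0 < ‖z‖ := hη.trans_le h1
  have h0 : z ≠ 0 := norm_pos_iff.mp hz0
  have hz1 : ‖z‖ < 1 := by (clear * - hη h2; linarith only [hη, h2])
  obtain ⟨h3, h4⟩ := N_bounds h hz1
  have h5 : ‖z‖ ^ 2 ≤ 1 := by nlinarith only [hη, h1, h2]
  have h6 : 0 < ‖z‖ ^ 2 := by (clear * - h0; positivity)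
  have h7 : η ≤ 1 - ‖z‖ ^ 2 := by (clear * - h2 hη h1; nlinarith only [hη, h1, h2])
  rw [dphi_eq h0, norm_div, norm_neg, norm_pow]
  constructor
  · rw [le_div_iff₀ h6]
    nlinarith only [h3, h5, h7]
  · rw [div_le_iff₀ h6]
    have h8 : 1 / (1 - ‖z‖ ^ 2) ≤ 1 / η := one_div_le_one_div_of_le hη h7
    have h9 : η ^ 2 ≤ ‖z‖ ^ 2 := pow_le_pow_left₀ hη.le h1 2
    calc ‖1 - z ^ 2 * deriv β z‖ ≤ 1 / η := h4.trans h8
      _ = (η ^ 3)⁻¹ * η ^ 2 := by field_simp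
      _ ≤ (η ^ 3)⁻¹ * ‖z‖ ^ 2 := by gcongr

/-- (b) Koebe's lower bound -/
theorem koebe_phi (h : Ext β) {p y : ℂ} {r : ℝ} (hr : 0 < r) (h1 : r ≤ ‖p‖) (h2 : r ≤ 1 - ‖p‖)
    (hy : y ∈ ball (0:ℂ) 1) (hy0 : y ≠ 0) (h3 : r ≤ ‖y - p‖) :
    r * ‖dphi β p‖ ≤ 4 * ‖phi β y - phi β p‖ := by
  have hp1 : ‖p‖ < 1 := by linarith only [hr, h2]
  have hp0 : p ≠ 0 := norm_pos_iff.mp (hr.trans_le h1)
  have hm : ∀ u ∈ ball (0:ℂ) r, p + u ∈ ball (0:ℂ) 1 ∧ p + u ≠ 0 := by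
    intro u hu
    rw [mem_ball_zero_iff] at hu
    constructor
    · rw [mem_ball_zero_iff]
      exact (norm_add_le _ _).trans_lt (by (clear * - h2 hu; linarith only [h2, hu]))
    · intro h0
      have : ‖p‖ = ‖u‖ := by
        rw [← norm_neg u]
        congr 1
        linear_combination h0
      (clear * - h1 hu this; linarith only [h1, hu, this])
  have hdat : ∀ u ∈ ball (0:ℂ) r, HasDerivAt (fun u => phi β (p + u) - phi β y)
      (dphi β (p + u)) u := by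
    intro u hu
    have h4 := hasDerivAt_phi h.diff (hm u hu).1 (hm u hu).2
    have h5 : HasDerivAt (fun u : ℂ => p + u) 1 u := (hasDerivAt_id u).const_add p
    have h6 := h4.comp u h5
    rw [mul_one] at h6
    exact h6.sub_const _
  have h4 := Pool.Agent.Helper84.EK.koebe_r (g := fun u => phi β (p + u) - phi β y) hr
    (fun u hu => (hdat u hu).differentiableAt.differentiableWithinAt) ?_ ?_
  · rw [(hdat 0 (mem_ball_self hr)).deriv, add_zero] at h4
    rw [norm_sub_rev (phi β y), mul_comm]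
    exact h4
  · intro u hu v hv huv
    have h5 : phi β (p + u) = phi β (p + v) := by
      have h6 : phi β (p + u) - phi β y = phi β (p + v) - phi β y := huv
      linear_combination h6
    have h6 := h.inj (p + u) (p + v) (hm u hu).1 (hm v hv).1 (hm u hu).2 (hm v hv).2 h5
    linear_combination h6
  · intro u hu h0
    have h5 : phi β (p + u) = phi β y := sub_eq_zero.mp h0
    have h6 := h.inj (p + u) y (hm u hu).1 hy (hm u hu).2 hy0 h5
    rw [← h6, add_sub_cancel_left] at h3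
    rw [mem_ball_zero_iff] at hu
    linarith

/-- bound for `β'` -/
theorem dbeta_le (h : Ext β) {s : ℝ} (hs : 1 / 2 ≤ s) (hs1 : s < 1) {z : ℂ} (hz : ‖z‖ ≤ s) :
    ‖deriv β z‖ ≤ 4 * (1 + 1 / (1 - s ^ 2)) := by
  have hs0 : 0 < s := by (clear * - hs hs1; linarith)
  have hd : DifferentiableOn ℂ (deriv β) (ball 0 1) := h.diff.deriv isOpen_ball
  have hcl : closure (ball (0:ℂ) s) ⊆ ball 0 1 := by
    rw [closure_ball _ hs0.ne']
    exact closedBall_subset_ball hs1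
  have h1 : DiffContOnCl ℂ (deriv β) (ball 0 s) := (hd.mono hcl).diffContOnCl
  have hs2 : 0 < 1 - s ^ 2 := by (clear * - hs1 hs; nlinarith only [hs, hs1])
  refine Complex.norm_le_of_forall_mem_frontier_norm_le isBounded_ball h1 ?_ ?_
  · intro w hw
    rw [frontier_ball _ hs0.ne', mem_sphere_zero_iff_norm] at hw
    have hw1 : ‖w‖ < 1 := by rw [hw]; exact hs1
    have h2 := (N_bounds h hw1).2
    rw [hw] at h2
    have h3 : ‖w ^ 2 * deriv β w‖ ≤ 1 + 1 / (1 - s ^ 2) := by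
      have h4 : w ^ 2 * deriv β w = 1 - (1 - w ^ 2 * deriv β w) := by ring
      rw [h4]
      refine (norm_sub_le _ _).trans ?_
      rw [norm_one]
      (clear * - h2; linarith only [h2])
    rw [norm_mul, norm_pow, hw] at h3
    have h5 : (1:ℝ) / 4 ≤ s ^ 2 := by (clear * - hs; nlinarith only [hs])
    (clear * - h3 h5; nlinarith only [norm_nonneg (deriv β w), h3, h5])
  · rw [closure_ball _ hs0.ne', mem_closedBall_zero_iff]
    exact hz

/-- (c) bound for `β` -/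
theorem beta_le (h : Ext β) (h0 : β 0 = 0) {s : ℝ} (hs : 1 / 2 ≤ s) (hs1 : s < 1) {z : ℂ}
    (hz : ‖z‖ ≤ s) : ‖β z‖ ≤ 4 * (1 + 1 / (1 - s ^ 2)) := by
  have hs0 : 0 < s := by linarith
  have hs2 : 0 < 1 - s ^ 2 := by (clear * - hs1 hs0; nlinarith only [hs1, hs0])
  have h1 : ∀ w ∈ closedBall (0:ℂ) s, DifferentiableAt ℂ β w := fun w hw =>
    h.diff.differentiableAt (isOpen_ball.mem_nhds (closedBall_subset_ball hs1 hw))
  have h2 : ∀ w ∈ closedBall (0:ℂ) s, ‖deriv β w‖ ≤ 4 * (1 + 1 / (1 - s ^ 2)) := fun w hw =>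
    dbeta_le h hs hs1 (by simpa using hw)
  have h3 := (convex_closedBall (0:ℂ) s).norm_image_sub_le_of_norm_deriv_le h1 h2
    (mem_closedBall_self hs0.le) (mem_closedBall_zero_iff.2 hz)
  rw [h0, sub_zero, sub_zero] at h3
  refine h3.trans ?_
  have h4 : 0 ≤ 4 * (1 + 1 / (1 - s ^ 2)) := by (clear * - hs2; positivity)
  (clear * - hs1 h4 hz; nlinarith only [hs1, hz, h4])

/-- (c) uniform form -/
theorem exists_beta_le {η : ℝ} (hη : 0 < η) : ∃ C : ℝ, 0 < C ∧ ∀ β : ℂ → ℂ, Ext β → β 0 = 0 →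
    ∀ z : ℂ, ‖z‖ ≤ 1 - η → ‖β z‖ ≤ C ∧ ‖deriv β z‖ ≤ C := by
  have h1 : 0 < min η (1 / 2) := lt_min hη (by norm_num)
  have h2 : 1 / 2 ≤ 1 - min η (1 / 2) := by linarith [min_le_right η (1 / 2)]
  have h3 : 1 - min η (1 / 2) < 1 := by (clear * - h1; linarith only [h1])
  have h4 : 0 < 1 - (1 - min η (1 / 2)) ^ 2 := by (clear * - h3 h2; nlinarith only [h2, h3])
  refine ⟨4 * (1 + 1 / (1 - (1 - min η (1 / 2)) ^ 2)), by (clear * - h4; positivity), ?_⟩
  intro β h h0 z hz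
  have h5 : ‖z‖ ≤ 1 - min η (1 / 2) := hz.trans (by linarith only [min_le_left η (1 / 2)])
  exact ⟨beta_le h h0 h2 h3 h5, dbeta_le h h2 h3 h5⟩

end Pool.Agent.Helper77.CK

end

section

namespace Pool.Agent.Helper39.Area
end Pool.Agent.Helper39.Area
namespace Pool.Agent.Helper5.CK
end Pool.Agent.Helper5.CK

/-!
# CK: first order expansion of `W (φ (ψ z))`
-/

set_option autoImplicit false

open Complex Metric Set Filter Topology

open scoped ComplexConjugate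

namespace Pool.Agent.Helper77.CK

open Pool.Agent.Helper39.Area Pool.Agent.Helper5.CK

variable {β : ℂ → ℂ}

/-- bound for the vector field -/
theorem hh_le {η s : ℝ} (hη : 0 < η) (hs : 0 < s) {p τ z : ℂ} (hp : ‖p‖ ≤ 1 - η) (hz : ‖z‖ ≤ 1)
    (hzp : s ≤ ‖z - p‖) : ‖hh p τ z‖ ≤ (1 / s + 1 / η) * ‖τ‖ := by
  have hp0 := norm_nonneg p
  have hz0 := norm_nonneg z
  have h1 : ‖(z + p) / (z - p)‖ ≤ 2 / s := by
    rw [norm_div]
    have h2 : ‖z + p‖ ≤ 2 := (norm_add_le _ _).trans (by (clear * - hη hp hz; linarith))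
    exact div_le_div₀ (by norm_num) h2 hs hzp
  have h3 : ‖conj p * z‖ ≤ 1 - η := by
    rw [norm_mul, RCLike.norm_conj]
    (clear * - hp hz hp0; nlinarith only [hp, hz, hp0])
  have h4 : η ≤ ‖1 - conj p * z‖ := by
    have h5 : ‖(1:ℂ)‖ - ‖conj p * z‖ ≤ ‖1 - conj p * z‖ := norm_sub_norm_le _ _
    rw [norm_one] at h5
    linarith only [h3, h5]
  have h6 : ‖(1 + conj p * z) / (1 - conj p * z)‖ ≤ 2 / η := by
    rw [norm_div]
    have h2 : ‖1 + conj p * z‖ ≤ 2 := (norm_add_le _ _).trans (by rw [norm_one]; linarith only [hη, h3])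
    exact div_le_div₀ (by norm_num) h2 hη h4
  unfold hh
  rw [norm_mul]
  have h7 : ‖τ * ((z + p) / (z - p)) - conj τ * ((1 + conj p * z) / (1 - conj p * z))‖ ≤
      ‖τ‖ * (2 / s) + ‖τ‖ * (2 / η) := by
    refine (norm_sub_le _ _).trans (add_le_add ?_ ?_)
    · rw [norm_mul]
      exact mul_le_mul_of_nonneg_left h1 (norm_nonneg _)
    · rw [norm_mul, RCLike.norm_conj]
      exact mul_le_mul_of_nonneg_left h6 (norm_nonneg _)
  have h8 : ‖(1 / 2 : ℂ)‖ = 1 / 2 := by simp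
  rw [h8]
  calc 1 / 2 * ‖τ * ((z + p) / (z - p)) - conj τ * ((1 + conj p * z) / (1 - conj p * z))‖ ≤
      1 / 2 * (‖τ‖ * (2 / s) + ‖τ‖ * (2 / η)) := by (clear * - h7; gcongr)
    _ = _ := by ring

/-- second order Taylor bound for `φ` -/
theorem taylor_phi (h : Ext β) {η : ℝ} (hη : 0 < η) {z w : ℂ} (h1 : η ≤ ‖z‖) (h2 : ‖z‖ ≤ 1 - η)
    (hw : ‖w - z‖ ≤ η / 2) :
    ‖phi β w - phi β z - dphi β z * (w - z)‖ ≤ 256 / η ^ 4 * ‖w - z‖ ^ 2 ∧
      ‖phi β w - phi β z‖ ≤ 64 / η ^ 3 * ‖w - z‖ := by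
  have hη4 : 0 < η / 4 := by (clear * - hη; linarith only [hη])
  have hη2 : 0 < η / 2 := by (clear * - hη4; linarith only [hη4])
  -- the annulus of size `η / 4`
  have hb : ∀ v : ℂ, ‖v - z‖ ≤ 3 * η / 4 → ‖dphi β v‖ ≤ 64 / η ^ 3 ∧ v ∈ ball (0:ℂ) 1 ∧ v ≠ 0 := by
    intro v hv
    have h3 : ‖v‖ ≤ ‖z‖ + ‖v - z‖ := by
      calc ‖v‖ = ‖z + (v - z)‖ := by congr 1; ring
        _ ≤ _ := norm_add_le _ _
    have h4 : ‖z‖ ≤ ‖v‖ + ‖v - z‖ := by
      calc ‖z‖ = ‖v - (v - z)‖ := by congr 1; ring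
        _ ≤ _ := norm_sub_le _ _
    have h5 := (dphi_bounds h hη4 (z := v) (by (clear * - h1 hv h4; linarith only [h1, hv, h4])) (by linarith only [h2, hv, h3])).2
    refine ⟨h5.trans (le_of_eq ?_), ?_, ?_⟩
    · field_simp
      norm_num
    · rw [mem_ball_zero_iff]
      linarith only [h2, hη2, hv, h3]
    · intro h0
      have h6 : ‖v‖ = 0 := by rw [h0, norm_zero]
      linarith only [h1, hη2, hv, h4, h6]
  have hU : ∀ v ∈ ball z (3 * η / 4), HasDerivAt (phi β) (dphi β v) v := by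
    intro v hv
    rw [mem_ball_iff_norm] at hv
    exact hasDerivAt_phi h.diff (hb v hv.le).2.1 (hb v hv.le).2.2
  have hphid : DifferentiableOn ℂ (phi β) (ball z (3 * η / 4)) := fun v hv =>
    (hU v hv).differentiableAt.differentiableWithinAt
  have hdd : DifferentiableOn ℂ (dphi β) (ball z (3 * η / 4)) := by
    have h3 : DifferentiableOn ℂ (deriv (phi β)) (ball z (3 * η / 4)) := hphid.deriv isOpen_ball
    apply h3.congr
    intro v hv
    exact (hU v hv).deriv.symm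
  -- second derivative
  have hsec : ∀ v ∈ closedBall z (η / 2), ‖deriv (dphi β) v‖ ≤ 256 / η ^ 4 := by
    intro v hv
    rw [mem_closedBall_iff_norm] at hv
    -- a slightly smaller circle
    have h3 : ∀ r : ℝ, 0 < r → r < η / 4 → ‖deriv (dphi β) v‖ ≤ 64 / η ^ 3 / r := by
      intro r hr hr4
      have h4 : closure (ball v r) ⊆ ball z (3 * η / 4) := by
        rw [closure_ball _ hr.ne']
        intro u hu
        rw [mem_closedBall_iff_norm] at hu
        rw [mem_ball_iff_norm]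
        calc ‖u - z‖ = ‖(u - v) + (v - z)‖ := by congr 1; ring
          _ ≤ ‖u - v‖ + ‖v - z‖ := norm_add_le _ _
          _ < _ := by linarith only [hv, hr4, hu]
      apply Complex.norm_deriv_le_of_forall_mem_sphere_norm_le hr (hdd.mono h4).diffContOnCl
      intro u hu
      rw [mem_sphere_iff_norm] at hu
      apply (hb u _).1
      calc ‖u - z‖ = ‖(u - v) + (v - z)‖ := by congr 1; ring
        _ ≤ ‖u - v‖ + ‖v - z‖ := norm_add_le _ _
        _ ≤ _ := by (clear * - hv hr4 hu; linarith)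
    have h5 : ContinuousAt (fun r : ℝ => 64 / η ^ 3 / r) (η / 4) :=
      continuousAt_const.div continuousAt_id hη4.ne'
    have h6 : Tendsto (fun r : ℝ => 64 / η ^ 3 / r) (𝓝[<] (η / 4)) (𝓝 (64 / η ^ 3 / (η / 4))) :=
      h5.tendsto.mono_left nhdsWithin_le_nhds
    have h7 : ‖deriv (dphi β) v‖ ≤ 64 / η ^ 3 / (η / 4) := by
      apply ge_of_tendsto h6
      filter_upwards [Ioo_mem_nhdsLT hη4] with r hr
      exact h3 r hr.1 hr.2
    refine h7.trans (le_of_eq ?_)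
    field_simp
    norm_num
  have hsub : closedBall z (η / 2) ⊆ ball z (3 * η / 4) := closedBall_subset_ball (by linarith only [hη2])
  have hzc : z ∈ closedBall z (η / 2) := mem_closedBall_self hη2.le
  have hwc : w ∈ closedBall z (η / 2) := mem_closedBall_iff_norm.2 hw
  have hlip : ∀ v ∈ closedBall z (η / 2), ‖dphi β v - dphi β z‖ ≤ 256 / η ^ 4 * ‖v - z‖ := by
    intro v hv
    exact (convex_closedBall z (η / 2)).norm_image_sub_le_of_norm_deriv_le
      (fun u hu => hdd.differentiableAt (isOpen_ball.mem_nhds (hsub hu))) hsec hzc hv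
  constructor
  · have h8 : ∀ u ∈ closedBall z ‖w - z‖, HasDerivWithinAt
        (fun u => phi β u - dphi β z * u) (dphi β u - dphi β z) (closedBall z ‖w - z‖) u := by
      intro u hu
      have h9 : u ∈ ball z (3 * η / 4) := hsub (closedBall_subset_closedBall hw hu)
      have h10 := (hU u h9).sub ((hasDerivAt_id u).const_mul (dphi β z))
      rw [mul_one] at h10
      exact h10.hasDerivWithinAt
    have h9 : ∀ u ∈ closedBall z ‖w - z‖, ‖dphi β u - dphi β z‖ ≤ 256 / η ^ 4 * ‖w - z‖ := by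
      intro u hu
      have h10 := hlip u (closedBall_subset_closedBall hw hu)
      rw [mem_closedBall_iff_norm] at hu
      exact h10.trans (by (clear * - hu hη; gcongr))
    have h10 := (convex_closedBall z ‖w - z‖).norm_image_sub_le_of_norm_hasDerivWithin_le h8 h9
      (mem_closedBall_self (norm_nonneg _)) (mem_closedBall_iff_norm.2 le_rfl)
    have e : phi β w - phi β z - dphi β z * (w - z) =
        phi β w - dphi β z * w - (phi β z - dphi β z * z) := by ring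
    rw [e]
    refine h10.trans (le_of_eq ?_)
    ring
  · exact (convex_closedBall z (η / 2)).norm_image_sub_le_of_norm_hasDerivWithin_le
      (fun u hu => (hU u (hsub hu)).hasDerivWithinAt)
      (fun u hu => (hb u ((mem_closedBall_iff_norm.1 hu).trans (by linarith only [hη2]))).1) hzc hwc

/-- (V6) the expansion -/
theorem expand (η s : ℝ) (hη : 0 < η) (hs : 0 < s) : ∃ C : ℝ, 0 < C ∧ ∀ β : ℂ → ℂ, Ext β →
    ∀ p : ℂ, η ≤ ‖p‖ → ‖p‖ ≤ 1 - η → ∀ τ : ℂ, C * ‖τ‖ ≤ 1 →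
    ∀ z : ℂ, η ≤ ‖z‖ → ‖z‖ ≤ 1 - η → s ≤ ‖z - p‖ →
      C⁻¹ ≤ ‖phi β (psi p τ z) - phi β p‖ ∧ ‖VV β p τ z‖ ≤ C * ‖τ‖ ∧
      ‖phi β (psi p τ z) + eps β p τ / (phi β (psi p τ z) - phi β p) - phi β z - VV β p τ z‖ ≤
        C * ‖τ‖ ^ 2 := by
  obtain ⟨A, hA⟩ : ∃ A, A = 1 / s + 1 / η := ⟨_, rfl⟩
  have hA0 : 0 < A := by rw [hA]; (clear * - hs hη; positivity)
  obtain ⟨D, hD⟩ : ∃ D, D = 64 / η ^ 3 := ⟨_, rfl⟩
  have hD0 : 0 < D := by rw [hD]; (clear * - hη; positivity)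
  obtain ⟨c, hc⟩ : ∃ c, c = min η (s / 2) * η / 4 := ⟨_, rfl⟩
  have hm0 : 0 < min η (s / 2) := lt_min hη (by linarith only [hs])
  have hc0 : 0 < c := by rw [hc]; positivity
  -- the constant
  obtain ⟨C, hC⟩ : ∃ C, C = c⁻¹ + A + 4 * A / η + 4 * A / s + (D ^ 2 / c + D * A) +
      (256 / η ^ 4 * (4 * A ^ 2) + D * A ^ 2 + D ^ 2 * (D * (2 * A)) / c ^ 2) := ⟨_, rfl⟩
  have t1 : 0 ≤ c⁻¹ := by positivity
  have t3 : 0 ≤ 4 * A / η := by positivity
  have t4 : 0 ≤ 4 * A / s := by positivity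
  have t5 : 0 ≤ D ^ 2 / c + D * A := by (clear * - hD0 hc0 hA0; positivity)
  have t6 : 0 ≤ 256 / η ^ 4 * (4 * A ^ 2) + D * A ^ 2 + D ^ 2 * (D * (2 * A)) / c ^ 2 := by
    (clear * - hη hA0 hD0 hc0; positivity)
  have hC0 : 0 < C := by rw [hC]; linarith only [hA0, t1, t3, t4, t5, t6]
  refine ⟨C, hC0, ?_⟩
  intro β h p hp1 hp2 τ hτ z hz1 hz2 hzp
  have hτ0 := norm_nonneg τ
  have hle : ∀ X : ℝ, X ≤ C → X * ‖τ‖ ≤ 1 := fun X hX => (mul_le_mul_of_nonneg_right hX hτ0).trans hτ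
  have hh1 : ‖hh p τ z‖ ≤ A * ‖τ‖ := by
    rw [hA]
    exact hh_le hη hs hp2 (by linarith only [hη, hz2]) hzp
  have hA1 : A * ‖τ‖ ≤ 1 := hle A (by rw [hC]; (clear * - t1 t3 t4 t5 t6; linarith))
  have hA2 : 2 * (A * ‖τ‖) ≤ η / 2 := by
    have h1 := hle (4 * A / η) (by rw [hC]; linarith only [hA0, t1, t4, t5, t6])
    rw [div_mul_eq_mul_div, div_le_iff₀ hη] at h1
    linarith only [h1]
  have hA3 : 2 * (A * ‖τ‖) ≤ s / 2 := by
    have h1 := hle (4 * A / s) (by rw [hC]; linarith only [hA0, t1, t3, t5, t6])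
    rw [div_mul_eq_mul_div, div_le_iff₀ hs] at h1
    linarith only [h1]
  have hzn : ‖z‖ ≤ 1 := by linarith only [hη, hz2]
  have he1 : ‖psi p τ z - z‖ ≤ 2 * (A * ‖τ‖) := by
    have h1 : psi p τ z - z = z * (Complex.exp (hh p τ z) - 1) := by unfold psi; ring
    rw [h1, norm_mul]
    have h2 := Complex.norm_exp_sub_one_le (hh1.trans hA1)
    have h3 := norm_nonneg (Complex.exp (hh p τ z) - 1)
    have h4 := norm_nonneg z
    (clear * - hh1 h2 hzn h3; nlinarith only [hh1, hzn, h2, h3])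
  have he2 : ‖psi p τ z - z - z * hh p τ z‖ ≤ (A * ‖τ‖) ^ 2 := by
    have h1 : psi p τ z - z - z * hh p τ z = z * (Complex.exp (hh p τ z) - 1 - hh p τ z) := by
      unfold psi; ring
    rw [h1, norm_mul]
    have h2 := Complex.norm_exp_sub_one_sub_id_le (hh1.trans hA1)
    have h3 := norm_nonneg (Complex.exp (hh p τ z) - 1 - hh p τ z)
    have h4 := norm_nonneg z
    have h5 : ‖hh p τ z‖ ^ 2 ≤ (A * ‖τ‖) ^ 2 := pow_le_pow_left₀ (norm_nonneg _) hh1 2
    (clear * - h5 hzn h2 h4; nlinarith only [hzn, h2, h4, h5])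
  set w : ℂ := psi p τ z with hw
  obtain ⟨hT1, hT2⟩ := taylor_phi h hη hz1 hz2 (he1.trans hA2)
  rw [← hD] at hT2
  have hdz : ‖dphi β z‖ ≤ D := by
    refine (dphi_bounds h hη hz1 hz2).2.trans ?_
    rw [hD, inv_eq_one_div]
    gcongr
    norm_num
  have hdp := dphi_bounds h hη hp1 hp2
  have hdpD : ‖dphi β p‖ ≤ D := by
    refine hdp.2.trans ?_
    rw [hD, inv_eq_one_div]
    gcongr
    norm_num
  -- points near `z`
  have hkoe : ∀ y : ℂ, y ∈ ball (0:ℂ) 1 → y ≠ 0 → s / 2 ≤ ‖y - p‖ → c ≤ ‖phi β y - phi β p‖ := by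
    intro y hy1 hy0 hyp
    have h1 := koebe_phi h hm0 ((min_le_left _ _).trans hp1)
      ((min_le_left η (s / 2)).trans (by linarith only [hp2])) hy1 hy0 ((min_le_right _ _).trans hyp)
    have h2 : min η (s / 2) * η ≤ min η (s / 2) * ‖dphi β p‖ :=
      mul_le_mul_of_nonneg_left hdp.1 hm0.le
    rw [hc]
    linarith only [h1, h2]
  have hw3 : ‖w‖ ≤ ‖z‖ + ‖w - z‖ := by
    calc ‖w‖ = ‖z + (w - z)‖ := by congr 1; ring
      _ ≤ _ := norm_add_le _ _
  have hw4 : ‖z‖ ≤ ‖w‖ + ‖w - z‖ := by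
    calc ‖z‖ = ‖w - (w - z)‖ := by congr 1; ring
      _ ≤ _ := norm_sub_le _ _
  have hw5 : ‖z - p‖ ≤ ‖w - p‖ + ‖w - z‖ := by
    calc ‖z - p‖ = ‖(w - p) - (w - z)‖ := by congr 1; ring
      _ ≤ _ := norm_sub_le _ _
  have hwb : w ∈ ball (0:ℂ) 1 := by
    rw [mem_ball_zero_iff]
    linarith only [hη, hz2, hA2, he1, hw3]
  have hw0 : w ≠ 0 := by
    intro h0
    rw [h0, norm_zero, zero_sub, norm_neg] at hw4
    rw [h0, zero_sub, norm_neg] at he1
    linarith only [hη, hz1, hA2, he1]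
  have hzb : z ∈ ball (0:ℂ) 1 := by
    rw [mem_ball_zero_iff]
    linarith only [hη, hz2]
  have hz0 : z ≠ 0 := norm_pos_iff.mp (hη.trans_le hz1)
  have hkw := hkoe w hwb hw0 (by linarith only [hzp, hA3, he1, hw5])
  have hkz := hkoe z hzb hz0 (by linarith only [hs, hzp])
  have hkw0 : phi β w - phi β p ≠ 0 := norm_pos_iff.mp (hc0.trans_le hkw)
  have hkz0 : phi β z - phi β p ≠ 0 := norm_pos_iff.mp (hc0.trans_le hkz)
  have heps : ‖eps β p τ‖ ≤ D ^ 2 * ‖τ‖ := by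
    unfold eps
    rw [norm_neg, norm_mul, norm_mul, norm_pow, norm_pow]
    have h1 : ‖p‖ ^ 2 ≤ 1 := by
      have := norm_nonneg p
      (clear * - hp2 hη hp1; nlinarith only [hη, hp1, hp2])
    have h2 : ‖dphi β p‖ ^ 2 ≤ D ^ 2 := pow_le_pow_left₀ (norm_nonneg _) hdpD 2
    calc ‖τ‖ * ‖p‖ ^ 2 * ‖dphi β p‖ ^ 2 ≤ ‖τ‖ * 1 * D ^ 2 := by (clear * - h1 h2; gcongr)
      _ = _ := by ring
  refine ⟨?_, ?_, ?_⟩
  · refine le_trans ?_ hkw
    rw [inv_le_comm₀ hC0 hc0, hC]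
    linarith only [hA0, t3, t4, t5, t6]
  · unfold VV
    have h1 : ‖eps β p τ / (phi β z - phi β p)‖ ≤ D ^ 2 * ‖τ‖ / c := by
      rw [norm_div]
      exact div_le_div₀ (by (clear * - hD0; positivity)) heps hc0 hkz
    have h2 : ‖dphi β z * (z * hh p τ z)‖ ≤ D * (A * ‖τ‖) := by
      rw [norm_mul, norm_mul]
      have h3 : ‖z‖ * ‖hh p τ z‖ ≤ 1 * (A * ‖τ‖) := by (clear * - hzn hh1; gcongr)
      rw [one_mul] at h3
      (clear * - hdz h3 hz0 hD0; gcongr)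
    calc ‖eps β p τ / (phi β z - phi β p) + dphi β z * (z * hh p τ z)‖ ≤
        D ^ 2 * ‖τ‖ / c + D * (A * ‖τ‖) := (norm_add_le _ _).trans (add_le_add h1 h2)
      _ = (D ^ 2 / c + D * A) * ‖τ‖ := by ring
      _ ≤ C * ‖τ‖ := by
          apply mul_le_mul_of_nonneg_right _ hτ0
          rw [hC]
          linarith only [hA0, t1, t3, t4, t6]
  · have e : phi β w + eps β p τ / (phi β w - phi β p) - phi β z - VV β p τ z =
        (phi β w - phi β z - dphi β z * (w - z)) + dphi β z * (w - z - z * hh p τ z) -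
          eps β p τ * (phi β w - phi β z) / ((phi β w - phi β p) * (phi β z - phi β p)) := by
      unfold VV
      field_simp
      ring
    rw [e]
    have h1 : ‖phi β w - phi β z - dphi β z * (w - z)‖ ≤ 256 / η ^ 4 * (2 * (A * ‖τ‖)) ^ 2 := by
      refine hT1.trans ?_
      (clear * - he1 hη; gcongr)
    have h2 : ‖dphi β z * (w - z - z * hh p τ z)‖ ≤ D * (A * ‖τ‖) ^ 2 := by
      rw [norm_mul]
      (clear * - hdz he2 hD0; gcongr)
    have h3 : ‖eps β p τ * (phi β w - phi β z) / ((phi β w - phi β p) * (phi β z - phi β p))‖ ≤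
        D ^ 2 * ‖τ‖ * (D * (2 * (A * ‖τ‖))) / (c * c) := by
      rw [norm_div, norm_mul, norm_mul]
      have h4 : ‖phi β w - phi β z‖ ≤ D * (2 * (A * ‖τ‖)) := hT2.trans (by (clear * - he1 hD0; gcongr))
      apply div_le_div₀ (by (clear * - hD0 hA0; positivity))
      · (clear * - heps h4 hD0; gcongr)
      · positivity
      · (clear * - hkw hkz hc0 hkw0; gcongr)
    calc _ ≤ 256 / η ^ 4 * (2 * (A * ‖τ‖)) ^ 2 + D * (A * ‖τ‖) ^ 2 +
          D ^ 2 * ‖τ‖ * (D * (2 * (A * ‖τ‖))) / (c * c) :=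
          (norm_sub_le _ _).trans (add_le_add ((norm_add_le _ _).trans (add_le_add h1 h2)) h3)
      _ = (256 / η ^ 4 * (4 * A ^ 2) + D * A ^ 2 + D ^ 2 * (D * (2 * A)) / c ^ 2) * ‖τ‖ ^ 2 := by
          ring
      _ ≤ C * ‖τ‖ ^ 2 := by
          apply mul_le_mul_of_nonneg_right _ (by (clear * -; positivity))
          rw [hC]
          linarith only [hA0, t1, t3, t4, t5]

end Pool.Agent.Helper77.CK

end

section

/-!
# Outer part and reflected outer part of a function near a circle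

`outer z0 ρ lam z = -(1/2πi) ∮_{|s-z0|=ρ} lam(s)/(s-z) ds` for `|z - z0| > ρ`, and
`outerR z0 ρ lam z = conj (outer z0 ρ lam (1 / conj z))` (`0` at `z = 0`).
-/

set_option autoImplicit false

namespace Pool.Agent.Helper81.CK

open Complex Metric Set Filter Topology MeasureTheory

open scoped Real ComplexConjugate Interval

/-- differentiation of a circle integral with respect to a parameter -/
theorem hasDerivAt_param {z0 : ℂ} {ρ : ℝ} {U : Set ℂ} (hU : IsOpen U) (k k' : ℂ → ℂ → ℂ)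
    (hk : ∀ z ∈ U, ContinuousOn (k z) (sphere z0 |ρ|))
    (hk' : ContinuousOn (fun p : ℂ × ℂ => k' p.1 p.2) (U ×ˢ sphere z0 |ρ|))
    (hd : ∀ z ∈ U, ∀ s ∈ sphere z0 |ρ|, HasDerivAt (fun z => k z s) (k' z s) z) {z : ℂ}
    (hz : z ∈ U) :
    HasDerivAt (fun z => ∮ s in C(z0, ρ), k z s) (∮ s in C(z0, ρ), k' z s) z := by
  obtain ⟨r, hr, hrU⟩ := Metric.isOpen_iff.1 hU z hz
  have hcb : closedBall z (r / 2) ⊆ U :=
    (closedBall_subset_ball (by linarith only [hr])).trans hrU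
  have hcomp : IsCompact (closedBall z (r / 2) ×ˢ sphere z0 |ρ|) :=
    (isCompact_closedBall z (r / 2)).prod (isCompact_sphere z0 |ρ|)
  obtain ⟨C, hC⟩ := hcomp.exists_bound_of_continuousOn
    (hk'.mono (prod_mono_left hcb))
  have hcm : Continuous (circleMap z0 ρ) := continuous_circleMap z0 ρ
  have hcd : Continuous (deriv (circleMap z0 ρ)) := by
    have : deriv (circleMap z0 ρ) = fun θ => circleMap 0 ρ θ * I := by
      funext θ
      exact deriv_circleMap z0 ρ θ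
    rw [this]
    exact (continuous_circleMap 0 ρ).mul continuous_const
  have hms : ∀ θ, circleMap z0 ρ θ ∈ sphere z0 |ρ| := fun θ => circleMap_mem_sphere' z0 ρ θ
  have hFc : ∀ x ∈ U, Continuous fun θ => deriv (circleMap z0 ρ) θ • k x (circleMap z0 ρ θ) := by
    intro x hx
    exact hcd.smul ((hk x hx).comp_continuous hcm hms)
  have hF'c : ∀ x ∈ U,
      Continuous fun θ => deriv (circleMap z0 ρ) θ • k' x (circleMap z0 ρ θ) := by
    intro x hx
    refine hcd.smul ?_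
    exact hk'.comp_continuous (continuous_const.prodMk hcm) fun θ => ⟨hx, hms θ⟩
  have hkey := intervalIntegral.hasDerivAt_integral_of_dominated_loc_of_deriv_le
    (μ := volume) (a := 0) (b := 2 * π)
    (F := fun x θ => deriv (circleMap z0 ρ) θ • k x (circleMap z0 ρ θ))
    (F' := fun x θ => deriv (circleMap z0 ρ) θ • k' x (circleMap z0 ρ θ))
    (x₀ := z) (s := ball z (r / 2)) (bound := fun _ => |ρ| * C)
    (ball_mem_nhds z (by linarith only [hr]))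
    (by
      filter_upwards [hU.mem_nhds hz] with x hx
      exact (hFc x hx).aestronglyMeasurable)
    ((hFc z hz).intervalIntegrable _ _)
    ((hF'c z hz).aestronglyMeasurable)
    (by
      refine Eventually.of_forall fun θ _ x hx => ?_
      rw [norm_smul]
      have h1 : ‖deriv (circleMap z0 ρ) θ‖ = |ρ| := by
        rw [deriv_circleMap, norm_mul, Complex.norm_I, mul_one, norm_circleMap_zero]
      rw [h1]
      exact mul_le_mul_of_nonneg_left
        (hC (x, circleMap z0 ρ θ) ⟨ball_subset_closedBall hx, hms θ⟩) (abs_nonneg ρ))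
    (intervalIntegrable_const)
    (by
      refine Eventually.of_forall fun θ _ x hx => ?_
      exact HasDerivAt.const_smul (deriv (circleMap z0 ρ) θ)
        (hd x (hcb (ball_subset_closedBall hx)) _ (hms θ)))
  exact hkey.2

/-- the outer part -/
noncomputable def outer (z0 : ℂ) (ρ : ℝ) (lam : ℂ → ℂ) (z : ℂ) : ℂ :=
  -((2 * π * I : ℂ)⁻¹ * ∮ s in C(z0, ρ), lam s * (s - z)⁻¹)

section

variable {z0 : ℂ} {ρ : ℝ} {lam mu : ℂ → ℂ}

theorem twoPiI_ne : (2 * π * I : ℂ) ≠ 0 := by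
  simp [Real.pi_ne_zero]

/-- the kernel is continuous on the circle -/
theorem cont_kernel (hlam : ContinuousOn lam (sphere z0 ρ)) {z : ℂ}
    (hz : z ∉ closedBall z0 ρ) : ContinuousOn (fun s => lam s * (s - z)⁻¹) (sphere z0 ρ) := by
  refine hlam.mul (ContinuousOn.inv₀ (by fun_prop) ?_)
  intro s hs h
  rw [sub_eq_zero] at h
  exact hz (h ▸ sphere_subset_closedBall hs)

/-- bound of the outer part -/
theorem outer_bound (hρ : 0 < ρ) {C : ℝ} (hC : ∀ s ∈ sphere z0 ρ, ‖lam s‖ ≤ C) {z : ℂ} {d : ℝ}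
    (hd : 0 < d) (hz : ρ + d ≤ ‖z - z0‖) : ‖outer z0 ρ lam z‖ ≤ ρ * C / d := by
  unfold outer
  rw [norm_neg, ← smul_eq_mul]
  have h := circleIntegral.norm_two_pi_i_inv_smul_integral_le_of_norm_le_const (c := z0) (R := ρ)
    (f := fun s => lam s * (s - z)⁻¹) (C := C / d) hρ.le ?_
  · refine h.trans (le_of_eq ?_)
    ring
  · intro s hs
    rw [norm_mul, norm_inv, div_eq_mul_inv]
    have h1 : d ≤ ‖s - z‖ := by
      have h2 : ‖z - z0‖ ≤ ‖s - z‖ + ‖s - z0‖ := by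
        have : z - z0 = (s - z0) - (s - z) := by ring
        rw [this]
        exact (norm_sub_le _ _).trans (by rw [add_comm])
      rw [mem_sphere_iff_norm.1 hs] at h2
      (clear * - hz h2; linarith)
    have h3 : 0 ≤ C := (norm_nonneg _).trans (hC s hs)
    exact mul_le_mul (hC s hs) (inv_anti₀ hd h1) (inv_nonneg.2 (norm_nonneg _)) h3

/-- the outer part of a function analytic inside is zero -/
theorem outer_inner (hρ : 0 < ρ) (h : DiffContOnCl ℂ lam (ball z0 ρ)) {z : ℂ}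
    (hz : z ∉ closedBall z0 ρ) : outer z0 ρ lam z = 0 := by
  unfold outer
  have h1 : DiffContOnCl ℂ (fun s => lam s * (s - z)⁻¹) (ball z0 ρ) := by
    have h2 : DifferentiableOn ℂ (fun s : ℂ => (s - z)⁻¹) (closure (ball z0 ρ)) := by
      intro s hs
      have h3 : s - z ≠ 0 := by
        rw [sub_ne_zero]
        rintro rfl
        exact hz (closure_ball_subset_closedBall hs)
      exact ((differentiableAt_id.sub_const z).inv h3).differentiableWithinAt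
    exact h.smul h2.diffContOnCl
  rw [h1.circleIntegral_eq_zero hρ.le]
  simp

/-- outside the circle the integral of `1/(s-z)` is zero -/
theorem integral_inv_outside (hρ : 0 < ρ) {z : ℂ} (hz : z ∉ closedBall z0 ρ) :
    (∮ s in C(z0, ρ), (s - z)⁻¹) = 0 := by
  have h := outer_inner (lam := fun _ => 1) hρ diffContOnCl_const hz
  unfold outer at h
  simp only [one_mul] at h
  have h2 := neg_eq_zero.1 h
  rcases mul_eq_zero.1 h2 with h3 | h3
  · exact absurd h3 (inv_ne_zero twoPiI_ne)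
  · exact h3

/-- the outer part is Lipschitz -/
theorem outer_lip (hρ : 0 < ρ) (hlam : ContinuousOn lam (sphere z0 ρ)) {C : ℝ}
    (hC : ∀ s ∈ sphere z0 ρ, ‖lam s‖ ≤ C) {z w : ℂ} {d : ℝ}
    (hd : 0 < d) (hz : ρ + d ≤ ‖z - z0‖) (hw : ρ + d ≤ ‖w - z0‖) :
    ‖outer z0 ρ lam z - outer z0 ρ lam w‖ ≤ ρ * C / d ^ 2 * ‖z - w‖ := by
  have hdist : ∀ v : ℂ, ρ + d ≤ ‖v - z0‖ → ∀ s ∈ sphere z0 ρ, d ≤ ‖s - v‖ := by
    intro v hv s hs
    have h2 : ‖v - z0‖ ≤ ‖s - v‖ + ‖s - z0‖ := by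
      have : v - z0 = (s - z0) - (s - v) := by ring
      rw [this]
      exact (norm_sub_le _ _).trans (by rw [add_comm])
    rw [mem_sphere_iff_norm.1 hs] at h2
    linarith
  have hnot : ∀ v : ℂ, ρ + d ≤ ‖v - z0‖ → v ∉ closedBall z0 ρ := by
    intro v hv h
    rw [mem_closedBall_iff_norm] at h
    (clear * - hd hv h; linarith)
  have h1 : outer z0 ρ lam z - outer z0 ρ lam w =
      -((2 * π * I : ℂ)⁻¹ • ∮ s in C(z0, ρ), lam s * ((s - z)⁻¹ * (s - w)⁻¹ * (z - w))) := by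
    unfold outer
    have h2 : (∮ s in C(z0, ρ), lam s * ((s - z)⁻¹ * (s - w)⁻¹ * (z - w))) =
        (∮ s in C(z0, ρ), lam s * (s - z)⁻¹) - ∮ s in C(z0, ρ), lam s * (s - w)⁻¹ := by
      rw [← circleIntegral.integral_sub ((cont_kernel hlam (hnot z hz)).circleIntegrable hρ.le)
        ((cont_kernel hlam (hnot w hw)).circleIntegrable hρ.le)]
      refine circleIntegral.integral_congr hρ.le fun s hs => ?_
      have h3 : s - z ≠ 0 := norm_pos_iff.1 (hd.trans_le (hdist z hz s hs))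
      have h4 : s - w ≠ 0 := norm_pos_iff.1 (hd.trans_le (hdist w hw s hs))
      field_simp
      ring
    rw [h2, smul_eq_mul]
    ring
  rw [h1, norm_neg]
  have h := circleIntegral.norm_two_pi_i_inv_smul_integral_le_of_norm_le_const (c := z0) (R := ρ)
    (f := fun s => lam s * ((s - z)⁻¹ * (s - w)⁻¹ * (z - w))) (C := C / d ^ 2 * ‖z - w‖) hρ.le ?_
  · refine h.trans (le_of_eq ?_)
    ring
  · intro s hs
    have h3 := hdist z hz s hs
    have h4 := hdist w hw s hs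
    have hC0 : 0 ≤ C := (norm_nonneg _).trans (hC s hs)
    rw [norm_mul, norm_mul, norm_mul, norm_inv, norm_inv]
    have h5 : ‖s - z‖⁻¹ * ‖s - w‖⁻¹ ≤ (d ^ 2)⁻¹ := by
      rw [pow_two, mul_inv]
      exact mul_le_mul (inv_anti₀ hd h3) (inv_anti₀ hd h4) (inv_nonneg.2 (norm_nonneg _))
        (inv_nonneg.2 hd.le)
    calc ‖lam s‖ * (‖s - z‖⁻¹ * ‖s - w‖⁻¹ * ‖z - w‖)
        ≤ C * ((d ^ 2)⁻¹ * ‖z - w‖) := by
          refine mul_le_mul (hC s hs) (mul_le_mul_of_nonneg_right h5 (norm_nonneg _)) ?_ hC0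
          (clear * -; positivity)
      _ = C / d ^ 2 * ‖z - w‖ := by ring

/-- derivative of the outer part -/
theorem outer_hasDerivAt (hlam : ContinuousOn lam (sphere z0 |ρ|)) {z : ℂ}
    (hz : z ∉ sphere z0 |ρ|) :
    HasDerivAt (outer z0 ρ lam)
      (-((2 * π * I : ℂ)⁻¹ * ∮ s in C(z0, ρ), lam s * ((s - z) ^ 2)⁻¹)) z := by
  have hU : IsOpen (sphere z0 |ρ|)ᶜ := isClosed_sphere.isOpen_compl
  have hne : ∀ z ∈ (sphere z0 |ρ|)ᶜ, ∀ s ∈ sphere z0 |ρ|, s - z ≠ 0 := by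
    intro z hz s hs h
    rw [sub_eq_zero] at h
    exact hz (h ▸ hs)
  have h := hasDerivAt_param (z0 := z0) (ρ := ρ) hU (fun z s => lam s * (s - z)⁻¹)
    (fun z s => lam s * ((s - z) ^ 2)⁻¹) (z := z) ?_ ?_ ?_ hz
  · exact (h.const_mul _).neg
  · intro z hz
    exact hlam.mul (ContinuousOn.inv₀ (by fun_prop) (hne z hz))
  · have h1 : ContinuousOn (fun p : ℂ × ℂ => lam p.2) ((sphere z0 |ρ|)ᶜ ×ˢ sphere z0 |ρ|) :=
      hlam.comp continuousOn_snd fun p hp => hp.2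
    refine h1.mul (ContinuousOn.inv₀ (by fun_prop) ?_)
    intro p hp
    exact pow_ne_zero 2 (hne p.1 hp.1 p.2 hp.2)
  · intro z hz s hs
    have h2 : HasDerivAt (fun z : ℂ => s - z) (-1) z := by
      simpa using (hasDerivAt_id z).const_sub s
    have h3 := (h2.inv (hne z hz s hs)).const_mul (lam s)
    exact h3.congr_deriv (by rw [neg_neg, one_div])

theorem outer_differentiableOn (hρ : 0 < ρ) (hlam : ContinuousOn lam (sphere z0 ρ)) :
    DifferentiableOn ℂ (outer z0 ρ lam) (closedBall z0 ρ)ᶜ := by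
  intro z hz
  rw [← abs_of_pos hρ] at hlam
  refine (outer_hasDerivAt hlam ?_).differentiableAt.differentiableWithinAt
  rw [abs_of_pos hρ]
  exact fun h => hz (sphere_subset_closedBall h)

/-- the inner part -/
noncomputable def inner' (z0 : ℂ) (ρ : ℝ) (lam : ℂ → ℂ) (z : ℂ) : ℂ := - outer z0 ρ lam z

theorem inner_differentiableOn (hρ : 0 < ρ) (hlam : ContinuousOn lam (sphere z0 ρ)) :
    DifferentiableOn ℂ (inner' z0 ρ lam) (ball z0 ρ) := by
  intro z hz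
  rw [← abs_of_pos hρ] at hlam
  refine ((outer_hasDerivAt hlam ?_).differentiableAt.neg).differentiableWithinAt
  rw [abs_of_pos hρ]
  intro h
  rw [mem_ball, mem_sphere.1 h] at hz
  exact lt_irrefl _ hz

/-- **Laurent splitting**: Cauchy's formula for an annulus -/
theorem inner_add_outer {ρ' : ℝ} (hρ : 0 < ρ) {g : ℂ → ℂ}
    (hg : ∀ s, ρ ≤ ‖s - z0‖ → ‖s - z0‖ ≤ ρ' → DifferentiableAt ℂ g s) {z : ℂ}
    (h1 : ρ < ‖z - z0‖) (h2 : ‖z - z0‖ < ρ') :
    inner' z0 ρ' g z + outer z0 ρ g z = g z := by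
  have hρ' : 0 < ρ' := hρ.trans (h1.trans h2)
  have hmem : ∀ s, s ∈ closedBall z0 ρ' \ ball z0 ρ → DifferentiableAt ℂ g s := by
    intro s hs
    refine hg s ?_ ?_
    · have := hs.2
      rw [mem_ball_iff_norm, not_lt] at this
      exact this
    · have := hs.1
      rwa [mem_closedBall_iff_norm] at this
  have hzb : z ∈ ball z0 ρ' := by rwa [mem_ball_iff_norm]
  have hzc : z ∉ closedBall z0 ρ := by
    rw [mem_closedBall_iff_norm, not_le]
    exact h1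
  have hnhds : closedBall z0 ρ' \ ball z0 ρ ∈ 𝓝 z := by
    have h3 : ball z0 ρ' \ closedBall z0 ρ ∈ 𝓝 z :=
      (isOpen_ball.sdiff isClosed_closedBall).mem_nhds ⟨hzb, hzc⟩
    exact mem_of_superset h3 (sdiff_subset_sdiff ball_subset_closedBall ball_subset_closedBall)
  have hcont : ContinuousOn (dslope g z) (closedBall z0 ρ' \ ball z0 ρ) :=
    (continuousOn_dslope hnhds).2
      ⟨fun s hs => (hmem s hs).continuousAt.continuousWithinAt, hmem z (mem_of_mem_nhds hnhds)⟩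
  have hdiff : ∀ s ∈ (ball z0 ρ' \ closedBall z0 ρ) \ {z}, DifferentiableAt ℂ (dslope g z) s := by
    intro s hs
    exact (differentiableAt_dslope_of_ne hs.2).2
      (hmem s (sdiff_subset_sdiff ball_subset_closedBall ball_subset_closedBall hs.1))
  have key := circleIntegral_eq_of_differentiable_on_annulus_off_countable hρ
    (h1.trans h2).le (countable_singleton z) hcont hdiff
  have hsph : sphere z0 ρ ⊆ closedBall z0 ρ' \ ball z0 ρ := by
    intro s hs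
    refine ⟨?_, ?_⟩
    · rw [mem_closedBall, mem_sphere.1 hs]
      exact (h1.trans h2).le
    · rw [mem_ball, mem_sphere.1 hs]
      exact lt_irrefl ρ
  have hsph' : sphere z0 ρ' ⊆ closedBall z0 ρ' \ ball z0 ρ := by
    intro s hs
    refine ⟨sphere_subset_closedBall hs, ?_⟩
    rw [mem_ball, mem_sphere.1 hs, not_lt]
    exact (h1.trans h2).le
  have hc : ContinuousOn g (sphere z0 ρ) := fun s hs =>
    (hmem s (hsph hs)).continuousAt.continuousWithinAt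
  have hc' : ContinuousOn g (sphere z0 ρ') := fun s hs =>
    (hmem s (hsph' hs)).continuousAt.continuousWithinAt
  have hne : ∀ s ∈ sphere z0 ρ, s - z ≠ 0 := by
    intro s hs h
    rw [sub_eq_zero] at h
    exact hzc (h ▸ sphere_subset_closedBall hs)
  have hne' : ∀ s ∈ sphere z0 ρ', s - z ≠ 0 := by
    intro s hs h
    rw [sub_eq_zero] at h
    rw [← h, mem_ball, mem_sphere.1 hs] at hzb
    exact lt_irrefl _ hzb
  have e1 : (∮ s in C(z0, ρ'), dslope g z s) =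
      (∮ s in C(z0, ρ'), g s * (s - z)⁻¹) - g z * (2 * π * I) := by
    rw [← circleIntegral.integral_sub_inv_of_mem_ball hzb, ← circleIntegral.integral_const_mul,
      ← circleIntegral.integral_sub]
    · refine circleIntegral.integral_congr hρ'.le fun s hs => ?_
      have h3 : s ≠ z := sub_ne_zero.1 (hne' s hs)
      simp only [dslope_of_ne g h3, slope_def_field]
      rw [← sub_mul, div_eq_mul_inv]
    · exact (hc'.mul (ContinuousOn.inv₀ (by fun_prop) hne')).circleIntegrable hρ'.le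
    · exact (continuousOn_const.mul
        (ContinuousOn.inv₀ (by fun_prop) hne')).circleIntegrable hρ'.le
  have e2 : (∮ s in C(z0, ρ), dslope g z s) = ∮ s in C(z0, ρ), g s * (s - z)⁻¹ := by
    have h4 : (∮ s in C(z0, ρ), dslope g z s) =
        (∮ s in C(z0, ρ), g s * (s - z)⁻¹) - g z * ∮ s in C(z0, ρ), (s - z)⁻¹ := by
      rw [← circleIntegral.integral_const_mul, ← circleIntegral.integral_sub]
      · refine circleIntegral.integral_congr hρ.le fun s hs => ?_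
        have h3 : s ≠ z := sub_ne_zero.1 (hne s hs)
        simp only [dslope_of_ne g h3, slope_def_field]
        rw [← sub_mul, div_eq_mul_inv]
      · exact (cont_kernel hc hzc).circleIntegrable hρ.le
      · exact (continuousOn_const.mul
          (ContinuousOn.inv₀ (by fun_prop) hne)).circleIntegrable hρ.le
    rw [h4, integral_inv_outside hρ hzc, mul_zero, sub_zero]
  rw [e1, e2] at key
  unfold inner' outer
  rw [← key]
  have := twoPiI_ne
  field_simp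
  ring

/-- **Regular part.** If `g` is holomorphic on `D` minus a disc and close to a holomorphic function
`p` on the annulus, then `g` minus the outer part of `g - p` extends to `D`, and the extension is
close to `p` inside. -/
theorem regular_part {D : Set ℂ} (hD : IsOpen D) {ρ0 ρ' η : ℝ} {g p : ℂ → ℂ} (hρ : 0 < ρ)
    (h0 : ρ0 < ρ) (h1 : ρ < ρ') (hsub : closedBall z0 ρ' ⊆ D)
    (hg : DifferentiableOn ℂ g (D \ closedBall z0 ρ0)) (hp : DifferentiableOn ℂ p D)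
    (hη : ∀ s, ρ ≤ ‖s - z0‖ → ‖s - z0‖ ≤ ρ' → ‖g s - p s‖ ≤ η) :
    ∃ F : ℂ → ℂ, DifferentiableOn ℂ F D ∧
      (∀ z, ρ < ‖z - z0‖ → F z = g z - outer z0 ρ (fun s => g s - p s) z) ∧
      ∀ r, ρ < r → r < ρ' → ∀ z ∈ closedBall z0 r, ‖F z - p z‖ ≤ η * r / (r - ρ) := by
  classical
  set e : ℂ → ℂ := fun s => g s - p s with he
  have hann : ∀ s, ρ ≤ ‖s - z0‖ → ‖s - z0‖ ≤ ρ' → DifferentiableAt ℂ g s := by
    intro s hs1 hs2
    have hopen : IsOpen (D \ closedBall z0 ρ0) := hD.sdiff isClosed_closedBall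
    refine (hg s ⟨hsub (mem_closedBall_iff_norm.2 hs2), ?_⟩).differentiableAt
      (hopen.mem_nhds ⟨hsub (mem_closedBall_iff_norm.2 hs2), ?_⟩) <;>
    · rw [mem_closedBall_iff_norm, not_le]
      (clear * - h0 hs1; linarith)
  have hpd : ∀ s ∈ D, DifferentiableAt ℂ p s := fun s hs =>
    (hp s hs).differentiableAt (hD.mem_nhds hs)
  have hed : ∀ s, ρ ≤ ‖s - z0‖ → ‖s - z0‖ ≤ ρ' → DifferentiableAt ℂ e s := by
    intro s hs1 hs2
    exact (hann s hs1 hs2).sub (hpd s (hsub (mem_closedBall_iff_norm.2 hs2)))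
  have hρ' : 0 < ρ' := hρ.trans h1
  have hec : ContinuousOn e (sphere z0 ρ) := by
    intro s hs
    rw [mem_sphere_iff_norm] at hs
    exact (hed s hs.ge (by linarith)).continuousAt.continuousWithinAt
  have hec' : ContinuousOn e (sphere z0 ρ') := by
    intro s hs
    rw [mem_sphere_iff_norm] at hs
    exact (hed s (by linarith) hs.le).continuousAt.continuousWithinAt
  let F : ℂ → ℂ := fun z =>
    if ‖z - z0‖ < ρ' then p z + inner' z0 ρ' e z else g z - outer z0 ρ e z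
  have hFout : ∀ z, ρ < ‖z - z0‖ → F z = g z - outer z0 ρ e z := by
    intro z hz
    by_cases hz' : ‖z - z0‖ < ρ'
    · have h2 := inner_add_outer hρ hed hz hz'
      simp only [F, hz', if_true]
      rw [show g z = e z + p z by simp only [he]; ring, ← h2]
      ring
    · simp only [F, hz', if_false]
  have hFd : DifferentiableOn ℂ F D := by
    intro z hz
    by_cases hz' : ‖z - z0‖ < ρ'
    · have h2 : DifferentiableAt ℂ (fun z => p z + inner' z0 ρ' e z) z := by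
        refine (hpd z hz).add ?_
        exact (inner_differentiableOn hρ' hec').differentiableAt
          (isOpen_ball.mem_nhds (mem_ball_iff_norm.2 hz'))
      refine (h2.congr_of_eventuallyEq ?_).differentiableWithinAt
      filter_upwards [isOpen_ball.mem_nhds (mem_ball_iff_norm.2 hz' : z ∈ ball z0 ρ')] with w hw
      rw [mem_ball_iff_norm] at hw
      simp only [F, hw, if_true]
    · have hz2 : ρ < ‖z - z0‖ := h1.trans_le (not_lt.1 hz')
      have hopen : IsOpen (D \ closedBall z0 ρ) := hD.sdiff isClosed_closedBall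
      have hzm : z ∈ D \ closedBall z0 ρ := by
        refine ⟨hz, ?_⟩
        rw [mem_closedBall_iff_norm, not_le]
        exact hz2
      have h2 : DifferentiableAt ℂ (fun z => g z - outer z0 ρ e z) z := by
        refine DifferentiableAt.sub ?_ ?_
        · refine (hg.mono ?_).differentiableAt (hopen.mem_nhds hzm)
          exact sdiff_subset_sdiff_right (closedBall_subset_closedBall h0.le)
        · exact (outer_differentiableOn hρ hec).differentiableAt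
            (isClosed_closedBall.isOpen_compl.mem_nhds hzm.2)
      refine (h2.congr_of_eventuallyEq ?_).differentiableWithinAt
      filter_upwards [hopen.mem_nhds hzm] with w hw
      refine hFout w ?_
      have := hw.2
      rwa [mem_closedBall_iff_norm, not_le] at this
  refine ⟨F, hFd, hFout, ?_⟩
  intro r hr hr' z hz
  have hr0 : 0 < r := hρ.trans hr
  have hsubr : closedBall z0 r ⊆ D := (closedBall_subset_closedBall hr'.le).trans hsub
  have hcl : DiffContOnCl ℂ (fun z => F z - p z) (ball z0 r) := by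
    refine DifferentiableOn.diffContOnCl ?_
    rw [closure_ball z0 hr0.ne']
    exact (hFd.sub hp).mono hsubr
  refine Complex.norm_le_of_forall_mem_frontier_norm_le isBounded_ball hcl ?_
    (by rwa [closure_ball z0 hr0.ne'])
  intro w hw
  rw [frontier_ball z0 hr0.ne', mem_sphere_iff_norm] at hw
  have h2 : F w - p w = e w - outer z0 ρ e w := by
    rw [hFout w (by rw [hw]; exact hr)]
    simp only [he]
    ring
  rw [h2]
  have h3 : ‖e w‖ ≤ η := hη w (by (clear * - hr hw; linarith)) (by linarith)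
  have h4 : ‖outer z0 ρ e w‖ ≤ ρ * η / (r - ρ) := by
    refine outer_bound hρ ?_ (by linarith) (by rw [hw]; linarith)
    intro s hs
    rw [mem_sphere_iff_norm] at hs
    exact hη s hs.ge (by linarith)
  calc ‖e w - outer z0 ρ e w‖ ≤ ‖e w‖ + ‖outer z0 ρ e w‖ := norm_sub_le _ _
    _ ≤ η + ρ * η / (r - ρ) := add_le_add h3 h4
    _ = η * r / (r - ρ) := by
      have : r - ρ ≠ 0 := by linarith
      field_simp
      ring

end

end Pool.Agent.Helper81.CK

end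

section

namespace Pool.Agent.Helper39.Area
end Pool.Agent.Helper39.Area
namespace Pool.Agent.Helper5.CK
end Pool.Agent.Helper5.CK

/-!
# CK V7: the variation field is holomorphic at the pole

`(z - p) VV z` is holomorphic near `p` and vanishes at `p`.
-/

set_option autoImplicit false

namespace Pool.Agent.Helper81.CK

open Complex Metric Set Filter Topology

open scoped ComplexConjugate

open Pool.Agent.Helper39.Area Pool.Agent.Helper5.CK

theorem dphi_ne {β : ℂ → ℂ} (h : Ext β) {p : ℂ} (hp : p ∈ ball (0 : ℂ) 1) (hp0 : p ≠ 0) :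
    dphi β p ≠ 0 := by
  have h1 := h.ne p hp
  have h2 : dphi β p = -(1 - p ^ 2 * deriv β p) / p ^ 2 := by
    unfold dphi
    field_simp
    ring
  rw [h2]
  exact div_ne_zero (neg_ne_zero.2 h1) (pow_ne_zero 2 hp0)

theorem phi_differentiableOn {β : ℂ → ℂ} (h : Ext β) :
    DifferentiableOn ℂ (phi β) (ball 0 1 \ {0}) := fun _ hz =>
  (hasDerivAt_phi h.diff hz.1 hz.2).differentiableAt.differentiableWithinAt

theorem dphi_differentiableOn {β : ℂ → ℂ} (h : Ext β) :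
    DifferentiableOn ℂ (dphi β) (ball 0 1 \ {0}) := by
  intro z hz
  have h1 : DifferentiableAt ℂ (deriv β) z :=
    (h.diff.deriv isOpen_ball).differentiableAt (isOpen_ball.mem_nhds hz.1)
  have h2 : DifferentiableAt ℂ (fun z : ℂ => -(z ^ 2)⁻¹) z :=
    ((differentiableAt_id.pow 2).inv (pow_ne_zero 2 hz.2)).neg
  exact (h2.add h1).differentiableWithinAt

/-- the variation field extends holomorphically to the pole -/
theorem reg_ext {β : ℂ → ℂ} (h : Ext β) {p : ℂ} (hp : p ∈ ball (0 : ℂ) 1) (hp0 : p ≠ 0) (τ : ℂ) :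
    ∃ V : ℂ → ℂ, DifferentiableOn ℂ V (ball 0 1 \ {0}) ∧
      ∀ z ∈ ball (0 : ℂ) 1 \ {0}, z ≠ p → V z = VV β p τ z := by
  have hUo : IsOpen (ball (0 : ℂ) 1 \ {0}) := isOpen_ball.sdiff isClosed_singleton
  have hpU : p ∈ ball (0 : ℂ) 1 \ {0} := ⟨hp, hp0⟩
  have hUn : ball (0 : ℂ) 1 \ {0} ∈ 𝓝 p := hUo.mem_nhds hpU
  set Q : ℂ → ℂ := dslope (phi β) p with hQ
  have hQd : DifferentiableOn ℂ Q (ball 0 1 \ {0}) :=
    (Complex.differentiableOn_dslope hUn).2 (phi_differentiableOn h)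
  have hQne : ∀ z ∈ ball (0 : ℂ) 1 \ {0}, Q z ≠ 0 := by
    intro z hz
    by_cases hzp : z = p
    · rw [hzp, hQ, dslope_same, (hasDerivAt_phi h.diff hp hp0).deriv]
      exact dphi_ne h hp hp0
    · rw [hQ, dslope_of_ne _ hzp, slope_def_field]
      refine div_ne_zero ?_ (sub_ne_zero.2 hzp)
      intro h0
      exact hzp (h.inj z p hz.1 hp hz.2 hp0 (sub_eq_zero.1 h0))
  set N : ℂ → ℂ := fun z => eps β p τ / Q z + dphi β z * (z * ((1 / 2) *
    (τ * (z + p) - (z - p) * (conj τ * ((1 + conj p * z) / (1 - conj p * z)))))) with hN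
  have hden : ∀ z ∈ ball (0 : ℂ) 1 \ {0}, 1 - conj p * z ≠ 0 := by
    intro z hz h0
    have h1 : ‖conj p * z‖ < 1 := by
      rw [norm_mul, RCLike.norm_conj]
      have h2 := mem_ball_zero_iff.1 hp
      have h3 := mem_ball_zero_iff.1 hz.1
      nlinarith only [norm_nonneg z, h2, h3]
    rw [← sub_eq_zero.1 h0, norm_one] at h1
    exact lt_irrefl _ h1
  have hNd : DifferentiableOn ℂ N (ball 0 1 \ {0}) := by
    intro z hz
    refine DifferentiableWithinAt.add ?_ ?_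
    · exact (differentiableWithinAt_const _).div (hQd z hz) (hQne z hz)
    · refine (dphi_differentiableOn h z hz).mul ?_
      refine DifferentiableAt.differentiableWithinAt ?_
      have h1 : DifferentiableAt ℂ (fun z : ℂ => (1 + conj p * z) / (1 - conj p * z)) z :=
        DifferentiableAt.div (by fun_prop) (by fun_prop) (hden z hz)
      fun_prop
  have hNp : N p = 0 := by
    simp only [hN, hQ, dslope_same, (hasDerivAt_phi h.diff hp hp0).deriv, sub_self, zero_mul,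
      sub_zero, eps]
    have := dphi_ne h hp hp0
    field_simp
    ring
  refine ⟨dslope N p, (Complex.differentiableOn_dslope hUn).2 hNd, ?_⟩
  intro z hz hzp
  have hzp' : z - p ≠ 0 := sub_ne_zero.2 hzp
  rw [dslope_of_ne _ hzp, slope_def_field, hNp, sub_zero]
  have hQz : Q z = (phi β z - phi β p) / (z - p) := by
    rw [hQ, dslope_of_ne _ hzp, slope_def_field]
  have hphi : phi β z - phi β p ≠ 0 := by
    intro h0
    exact hzp (h.inj z p hz.1 hp hz.2 hp0 (sub_eq_zero.1 h0))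
  have hd := hden z hz
  simp only [hN, hQz, VV, hh]
  (clear * - hphi hzp'; field_simp)

end Pool.Agent.Helper81.CK

end

section

namespace Pool.Agent.Helper39.Area
end Pool.Agent.Helper39.Area

/-!
# CK V8: normalisation

A univalent function on a punctured disc with a simple pole at `0` is, after a dilation and
division by the residue, of the form `1 / z + γ z` with `Ext γ`.
-/

set_option autoImplicit false

namespace Pool.Agent.Helper81.CK

open Complex Metric Set Filter Topology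

open scoped ComplexConjugate

open Pool.Agent.Helper39.Area

theorem normalise {f : ℂ → ℂ} {r : ℝ} {c : ℂ} (hr : 0 < r) (_hr1 : r ≤ 1)
    (hd : DifferentiableOn ℂ f (ball 0 r \ {0})) (hinj : InjOn f (ball 0 r \ {0})) (hc : c ≠ 0)
    (hlim : Tendsto (fun z => z * f z) (𝓝[≠] 0) (𝓝 c)) :
    ∃ γ : ℂ → ℂ, Ext γ ∧ ∀ z ∈ ball (0 : ℂ) 1, z ≠ 0 → z⁻¹ + γ z = (r / c) * f (r * z) := by
  have hr0 : (r : ℂ) ≠ 0 := by exact_mod_cast hr.ne'
  set g : ℂ → ℂ := fun z => (r / c) * f (r * z) with hg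
  have hmaps : ∀ z ∈ ball (0 : ℂ) 1 \ {0}, (r : ℂ) * z ∈ ball (0 : ℂ) r \ {0} := by
    intro z hz
    refine ⟨?_, mul_ne_zero hr0 hz.2⟩
    rw [mem_ball_zero_iff, norm_mul, Complex.norm_real, Real.norm_of_nonneg hr.le]
    have := mem_ball_zero_iff.1 hz.1
    (clear * - hr this; nlinarith only [hr, this])
  have hUo : IsOpen (ball (0 : ℂ) 1 \ {0}) := isOpen_ball.sdiff isClosed_singleton
  have hgd : DifferentiableOn ℂ g (ball 0 1 \ {0}) := by
    refine DifferentiableOn.const_mul ?_ _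
    exact hd.comp (by fun_prop) hmaps
  have hginj : InjOn g (ball 0 1 \ {0}) := by
    intro z hz w hw h
    have h1 : f (r * z) = f (r * w) := mul_left_cancel₀ (div_ne_zero hr0 hc) h
    exact mul_left_cancel₀ hr0 (hinj (hmaps z hz) (hmaps w hw) h1)
  have hglim : Tendsto (fun z => z * g z) (𝓝[≠] 0) (𝓝 1) := by
    have h1 : Tendsto (fun z : ℂ => (r : ℂ) * z) (𝓝[≠] 0) (𝓝[≠] 0) := by
      refine tendsto_nhdsWithin_of_tendsto_nhds_of_eventually_within _ ?_ ?_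
      · have : Tendsto (fun z : ℂ => (r : ℂ) * z) (𝓝 0) (𝓝 0) := by
          have h2 : Continuous fun z : ℂ => (r : ℂ) * z := by fun_prop
          simpa using h2.tendsto 0
        exact this.mono_left nhdsWithin_le_nhds
      · filter_upwards [self_mem_nhdsWithin] with z hz
        exact mul_ne_zero hr0 hz
    have h2 := (hlim.comp h1).const_mul c⁻¹
    rw [inv_mul_cancel₀ hc] at h2
    refine h2.congr fun z => ?_
    simp only [Function.comp_apply, hg]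
    field_simp
  set γ0 : ℂ → ℂ := fun z => g z - z⁻¹ with hγ0
  have hγd : DifferentiableOn ℂ γ0 (ball 0 1 \ {0}) := by
    refine hgd.sub ?_
    intro z hz
    have hz' : z ≠ 0 := hz.2
    exact (hasDerivAt_inv hz').differentiableAt.differentiableWithinAt
  have ho : (fun z => γ0 z - γ0 0) =o[𝓝[≠] 0] fun z : ℂ => (z - 0)⁻¹ := by
    rw [Asymptotics.isLittleO_iff_tendsto']
    · have h1 : Tendsto (fun z : ℂ => z * g z - 1 - z * γ0 0) (𝓝[≠] 0) (𝓝 (1 - 1 - 0 * γ0 0)) := by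
        refine (hglim.sub_const 1).sub ?_
        refine Tendsto.mul_const _ ?_
        exact tendsto_id.mono_left nhdsWithin_le_nhds
      rw [sub_self, zero_mul, sub_zero] at h1
      refine h1.congr' ?_
      filter_upwards [self_mem_nhdsWithin] with z hz
      have hz' : z ≠ 0 := hz
      simp only [hγ0, sub_zero]
      field_simp
    · filter_upwards [self_mem_nhdsWithin] with z hz h
      have hz' : z ≠ 0 := hz
      rw [sub_zero] at h
      exact absurd h (inv_ne_zero hz')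
  have hext := Complex.differentiableOn_update_limUnder_of_isLittleO
    (isOpen_ball.mem_nhds (mem_ball_self one_pos) : ball (0 : ℂ) 1 ∈ 𝓝 0) hγd ho
  set γ : ℂ → ℂ := Function.update γ0 0 (limUnder (𝓝[≠] 0) γ0) with hγ
  have hγeq : ∀ z, z ≠ 0 → z⁻¹ + γ z = g z := by
    intro z hz
    rw [hγ, Function.update_of_ne hz]
    simp only [hγ0]
    ring
  refine ⟨γ, ⟨hext, ?_, ?_⟩, fun z _ hz => hγeq z hz⟩
  · intro ζ ω hζ hω hζ0 hω0 h
    rw [hγeq ζ hζ0, hγeq ω hω0] at h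
    exact hginj ⟨hζ, hζ0⟩ ⟨hω, hω0⟩ h
  · intro ζ hζ
    by_cases h0 : ζ = 0
    · rw [h0]
      simp
    · intro h1
      have h2 : HasDerivAt g (-(ζ ^ 2)⁻¹ + deriv γ ζ) ζ := by
        have h3 : HasDerivAt (fun z => z⁻¹ + γ z) (-(ζ ^ 2)⁻¹ + deriv γ ζ) ζ :=
          (hasDerivAt_inv h0).add
            ((hext.differentiableAt (isOpen_ball.mem_nhds hζ)).hasDerivAt)
        refine h3.congr_of_eventuallyEq ?_
        filter_upwards [isOpen_ne.mem_nhds h0] with z hz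
        exact (hγeq z hz).symm
      have h4 := Pool.Agent.Helper24.Br.deriv_ne_of_inj hUo hgd hginj (z := ζ) ⟨hζ, h0⟩
      rw [h2.deriv] at h4
      apply h4
      have h5 : deriv γ ζ = (ζ ^ 2)⁻¹ := by
        have h6 : ζ ^ 2 ≠ 0 := pow_ne_zero 2 h0
        field_simp
        linear_combination -h1
      rw [h5]
      ring

end Pool.Agent.Helper81.CK

end
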