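import Pool.Agent.Helper14.CMF.T22

set_option linter.all false

section

namespace Pool.Agent.Helper39.Area
end Pool.Agent.Helper39.Area
namespace Pool.Agent.Helper47.CMV
end Pool.Agent.Helper47.CMV

set_option autoImplicit false

open Complex Metric Set Filter Topology

open scoped ComplexConjugate

namespace Pool.Agent.Helper5.CK

open Pool.Agent.Helper39.Area

open Pool.Agent.Helper47.CMV (HH LL HH_nonneg LL_nonneg hh_re_abs_le psi_sub_le psi_inv_sub_ge)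

theorem psi_facts {η s : ℝ} (hη : 0 < η) (hs : 0 < s) : ∃ C : ℝ, 0 < C ∧ ∀ p τ : ℂ, ‖p‖ ≤ 1 - η →
    C * ‖τ‖ ≤ 1 / 2 →
    (∀ z, ‖z‖ < 1 → s ≤ ‖z - p‖ → (1 - C * ‖τ‖) * (1 - ‖z‖ ^ 2) ≤ 1 - ‖psi p τ z‖ ^ 2 ∧
      ‖psi p τ z - z‖ ≤ C * ‖τ‖) ∧
    (∀ x y, ‖x‖ < 1 → ‖y‖ < 1 → x ≠ 0 → y ≠ 0 → s ≤ ‖x - p‖ → s ≤ ‖y - p‖ →
      (1 - C * ‖τ‖) * ‖x⁻¹ - y⁻¹‖ ≤ ‖(psi p τ x)⁻¹ - (psi p τ y)⁻¹‖) := by
  have hH := HH_nonneg hs hη
  have hL := LL_nonneg hs hη
  have hk : 0 < 1 / (s * η) := by (clear * - hs hη; positivity)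
  refine ⟨4 * (1 / (s * η)) + (2 * HH s η + 6 * LL s η), by (clear * - hs hη hH hL; positivity), ?_⟩
  intro p τ hp hτ
  have ht := norm_nonneg τ
  obtain ⟨a, ha⟩ : ∃ a : ℝ, a = ‖τ‖ * HH s η := ⟨_, rfl⟩
  obtain ⟨b, hb⟩ : ∃ b : ℝ, b = ‖τ‖ * LL s η := ⟨_, rfl⟩
  obtain ⟨k, hk'⟩ : ∃ k : ℝ, k = ‖τ‖ * (1 / (s * η)) := ⟨_, rfl⟩
  have ha0 : 0 ≤ a := by rw [ha]; (clear * - hH; positivity)
  have hb0 : 0 ≤ b := by rw [hb]; (clear * - hL; positivity)
  have hk0 : 0 ≤ k := by rw [hk']; (clear * - hs hη; positivity)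
  have hC : (4 * (1 / (s * η)) + (2 * HH s η + 6 * LL s η)) * ‖τ‖ = 4 * k + 2 * a + 6 * b := by
    rw [ha, hb, hk']; ring
  rw [hC] at hτ ⊢
  refine ⟨?_, ?_⟩
  · intro z hz hzp
    constructor
    · have h1 := hh_re_abs_le (τ := τ) hs hη hp hz.le hzp
      rw [← hk'] at h1
      have hz1 : 0 ≤ 1 - ‖z‖ ^ 2 := by (clear * - hz; nlinarith only [norm_nonneg z, hz])
      have hz2 : 1 - ‖z‖ ^ 2 ≤ 1 := by nlinarith only []
      have h2 : ‖psi p τ z‖ ^ 2 = ‖z‖ ^ 2 * Real.exp (2 * (hh p τ z).re) := by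
        unfold psi
        rw [norm_mul, Complex.norm_exp, mul_pow, ← Real.exp_nat_mul]
        norm_num
      obtain ⟨y, hy⟩ : ∃ y : ℝ, y = 2 * (k * (1 - ‖z‖ ^ 2)) := ⟨_, rfl⟩
      have hy0 : 0 ≤ y := by rw [hy]; (clear * - hk0 hz1; positivity)
      have hy1 : y ≤ 1 := by
        rw [hy]
        nlinarith only [hτ, ha0, hb0, hk0]
      have h3 : Real.exp (2 * (hh p τ z).re) ≤ Real.exp y := by
        apply Real.exp_le_exp.mpr
        rw [hy]
        have := (abs_le.mp h1).2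
        linarith only [this]
      have h4 : Real.exp y ≤ 1 + 2 * y := by
        have := Real.abs_exp_sub_one_sub_id_le (x := y) (by rw [abs_of_nonneg hy0]; exact hy1)
        have h5 := (abs_le.mp this).2
        nlinarith only [hy0, hy1, h5]
      have h5 : ‖z‖ ^ 2 ≤ 1 := by linarith only [hz1]
      have h6 : ‖psi p τ z‖ ^ 2 ≤ ‖z‖ ^ 2 * (1 + 2 * y) := by
        rw [h2]
        exact mul_le_mul_of_nonneg_left (h3.trans h4) (by (clear * -; positivity))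
      have h7 : ‖z‖ ^ 2 * (1 + 2 * y) ≤ ‖z‖ ^ 2 + 2 * y := by (clear * - hy0 h5; nlinarith only [hy0, h5])
      have h8 : 2 * y = 4 * k * (1 - ‖z‖ ^ 2) := by rw [hy]; ring
      have h9 : 0 ≤ (2 * a + 6 * b) * (1 - ‖z‖ ^ 2) := by (clear * - ha0 hb0 h5; positivity)
      linarith only [h6, h7, h8, h9]
    · have h1 := psi_sub_le (τ := τ) hs hη hp hz.le hzp (by rw [← ha]; (clear * - hτ hb0 hk0; linarith only [hτ, hb0, hk0]))
      rw [← ha] at h1
      have h2 : 2 * a * ‖z‖ ≤ 2 * a * 1 := mul_le_mul_of_nonneg_left hz.le (by positivity)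
      linarith only [hb0, hk0, h1, h2]
  · intro x y hx hy hx0 hy0 hxp hyp
    have h1 := psi_inv_sub_ge (τ := τ) hs hη hp hx.le hy.le hx0 hy0 hxp hyp
      (by rw [← ha]; linarith only [hτ, hb0, hk0])
    have h2 : ‖τ‖ * (2 * HH s η + 6 * LL s η) = 2 * a + 6 * b := by rw [ha, hb]; ring
    rw [h2] at h1
    refine le_trans ?_ h1
    apply mul_le_mul_of_nonneg_right _ (norm_nonneg _)
    linarith only [hk0]

theorem dphi_bd {β : ℂ → ℂ} (h : Ext β) {η : ℝ} (hη : 0 < η) {z : ℂ} (h1 : η ≤ ‖z‖)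
    (h2 : ‖z‖ ≤ 1 - η) : η ≤ ‖dphi β z‖ ∧ ‖dphi β z‖ ≤ (η ^ 3)⁻¹ :=
  Pool.Agent.Helper77.CK.dphi_bounds h hη h1 h2

theorem koebe_phi {β : ℂ → ℂ} (h : Ext β) {p y : ℂ} {r : ℝ} (hr : 0 < r) (hp : r ≤ ‖p‖)
    (hp1 : r ≤ 1 - ‖p‖) (hy : y ∈ ball (0:ℂ) 1) (hy0 : y ≠ 0) (hyp : r ≤ ‖y - p‖) :
    r * ‖dphi β p‖ ≤ 4 * ‖phi β y - phi β p‖ :=
  Pool.Agent.Helper77.CK.koebe_phi h hr hp hp1 hy hy0 hyp

theorem beta_bd {η : ℝ} (hη : 0 < η) : ∃ C : ℝ, 0 < C ∧ ∀ β : ℂ → ℂ, Ext β → β 0 = 0 → ∀ z : ℂ,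
    ‖z‖ ≤ 1 - η → ‖β z‖ ≤ C := by
  obtain ⟨C, hC, H⟩ := Pool.Agent.Helper77.CK.exists_beta_le hη
  exact ⟨C, hC, fun β h h0 z hz => (H β h h0 z hz).1⟩

theorem expand {η s : ℝ} (hη : 0 < η) (hs : 0 < s) : ∃ C : ℝ, 0 < C ∧ ∀ β, Ext β → ∀ p : ℂ,
    η ≤ ‖p‖ → ‖p‖ ≤ 1 - η → ∀ τ : ℂ, C * ‖τ‖ ≤ 1 → ∀ z : ℂ, η ≤ ‖z‖ → ‖z‖ ≤ 1 - η → s ≤ ‖z - p‖ →
    ‖VV β p τ z‖ ≤ C * ‖τ‖ ∧
    ‖phi β (psi p τ z) + eps β p τ / (phi β (psi p τ z) - phi β p) - phi β z - VV β p τ z‖ ≤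
      C * ‖τ‖ ^ 2 := by
  obtain ⟨C, hC, H⟩ := Pool.Agent.Helper77.CK.expand η s hη hs
  exact ⟨C, hC, fun β h p hp hp1 τ hτ z hz hz1 hzp => (H β h p hp hp1 τ hτ z hz hz1 hzp).2⟩

theorem reg_ext {β : ℂ → ℂ} (h : Ext β) {p : ℂ} (hp : p ∈ ball (0:ℂ) 1) (hp0 : p ≠ 0) (τ : ℂ) :
    ∃ V : ℂ → ℂ, DifferentiableOn ℂ V (ball 0 1 \ {0}) ∧
      ∀ z ∈ ball (0:ℂ) 1 \ {0}, z ≠ p → V z = VV β p τ z :=
  Pool.Agent.Helper81.CK.reg_ext h hp hp0 τ

theorem normalise {f : ℂ → ℂ} {r : ℝ} {c : ℂ} (hr : 0 < r) (hr1 : r ≤ 1)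
    (hf : DifferentiableOn ℂ f (ball 0 r \ {0})) (hi : InjOn f (ball 0 r \ {0})) (hc : c ≠ 0)
    (hl : Tendsto (fun z => z * f z) (𝓝[≠] 0) (𝓝 c)) :
    ∃ γ : ℂ → ℂ, Ext γ ∧ ∀ z ∈ ball (0:ℂ) 1, z ≠ 0 → z⁻¹ + γ z = (r / c) * f (r * z) :=
  Pool.Agent.Helper81.CK.normalise hr hr1 hf hi hc hl

end Pool.Agent.Helper5.CK

end

section

namespace Pool.Agent.Helper39.Area
end Pool.Agent.Helper39.Area
namespace Pool.Agent.Helper81.CK
end Pool.Agent.Helper81.CK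

set_option autoImplicit false

open Complex Metric Set Filter Topology

open scoped ComplexConjugate

namespace Pool.Agent.Helper5.CK

open Pool.Agent.Helper39.Area

open Pool.Agent.Helper81.CK (outer outer_bound outer_lip regular_part)

/-- a small number under two constraints -/
theorem exists_small {A b : ℝ} (hA : 0 < A) (hb : 0 < b) : ∃ t : ℝ, 0 < t ∧ t ≤ 1 ∧ A * t ≤ b := by
  refine ⟨min 1 (b / A), by positivity, min_le_left _ _, ?_⟩
  calc A * min 1 (b / A) ≤ A * (b / A) := mul_le_mul_of_nonneg_left (min_le_right _ _) hA.le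
    _ = b := by field_simp

theorem norm_inv_sub_le {x y : ℂ} {a b : ℝ} (ha : 0 < a) (hb : 0 < b) (hx : a ≤ ‖x‖) (hy : b ≤ ‖y‖) :
    ‖x⁻¹ - y⁻¹‖ ≤ ‖x - y‖ / (a * b) := by
  have hx0 : x ≠ 0 := by
    intro h; rw [h, norm_zero] at hx; (clear * - ha hx; linarith only [ha, hx])
  have hy0 : y ≠ 0 := by
    intro h; rw [h, norm_zero] at hy; linarith only [hb, hy]
  have h1 : x⁻¹ - y⁻¹ = (y - x) / (x * y) := by (clear * - hy0 hx0; field_simp)
  rw [h1, norm_div, norm_mul, norm_sub_rev]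
  exact div_le_div_of_nonneg_left (norm_nonneg _) (by positivity) (mul_le_mul hx hy hb.le (norm_nonneg _))

theorem norm_le_inv_sub {x y : ℂ} (hx : x ≠ 0) (hy : y ≠ 0) (hx1 : ‖x‖ ≤ 1) (hy1 : ‖y‖ ≤ 1) :
    ‖x - y‖ ≤ ‖x⁻¹ - y⁻¹‖ := by
  have h1 : x - y = (y⁻¹ - x⁻¹) * (x * y) := by field_simp
  have h2 : ‖x * y‖ ≤ 1 := by
    rw [norm_mul]
    exact mul_le_one₀ hx1 (norm_nonneg _) hy1
  rw [h1, norm_mul, norm_sub_rev]
  calc ‖x⁻¹ - y⁻¹‖ * ‖x * y‖ ≤ ‖x⁻¹ - y⁻¹‖ * 1 := mul_le_mul_of_nonneg_left h2 (norm_nonneg _)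
    _ = _ := mul_one _

/-- lower bound for `gg` -/
theorem gg_lower {β : ℂ → ℂ} (h : Ext β) {p τ x y : ℂ} {r c k : ℝ} (hr : r < 1)
    (hc : 0 < c) (hk : k ≤ 1 / 2)
    (hx : ‖x‖ ≤ r) (hy : ‖y‖ ≤ r) (hx0 : x ≠ 0) (hy0 : y ≠ 0)
    (hx2 : (1 - k) * (1 - ‖x‖ ^ 2) ≤ 1 - ‖psi p τ x‖ ^ 2)
    (hy2 : (1 - k) * (1 - ‖y‖ ^ 2) ≤ 1 - ‖psi p τ y‖ ^ 2)
    (hxy : (1 - k) * ‖x⁻¹ - y⁻¹‖ ≤ ‖(psi p τ x)⁻¹ - (psi p τ y)⁻¹‖)
    (hcx : c ≤ ‖phi β (psi p τ x) - phi β p‖) (hcy : c ≤ ‖phi β (psi p τ y) - phi β p‖)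
    (he : ‖eps β p τ‖ ≤ c ^ 2 / 2) :
    (1 - r ^ 2) / 8 * ‖x - y‖ ≤ ‖gg β p τ x - gg β p τ y‖ := by
  have hr0 : 0 ≤ r := (norm_nonneg x).trans hx
  have hr1 : 0 < 1 - r ^ 2 := by (clear * - hr hr0; nlinarith only [hr, hr0])
  have h1 := W_lower hc hcx hcy he
  set s : ℝ := Real.sqrt (1 - (1 - r ^ 2) / 2) with hs
  have hs0 : 0 ≤ 1 - (1 - r ^ 2) / 2 := by (clear * -; nlinarith only [])
  have hs2 : s ^ 2 = 1 - (1 - r ^ 2) / 2 := Real.sq_sqrt hs0
  have hs1 : s < 1 := by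
    have := Real.sqrt_nonneg (1 - (1 - r ^ 2) / 2)
    nlinarith only [hr1, hs2]
  have hb : ∀ z : ℂ, ‖z‖ ≤ r → (1 - k) * (1 - ‖z‖ ^ 2) ≤ 1 - ‖psi p τ z‖ ^ 2 →
      ‖psi p τ z‖ ≤ s := by
    intro z hz hz2
    apply Real.le_sqrt_of_sq_le
    have h3 : ‖z‖ ^ 2 ≤ r ^ 2 := pow_le_pow_left₀ (norm_nonneg _) hz 2
    (clear * - hz2 h3 hk hr1; nlinarith only [hk, hr1, hz2, h3])
  have h2 := Pool.Agent.Helper77.CK.phi_sub_ge h (psi_ne (p := p) (τ := τ) hy0)
    (psi_ne (p := p) (τ := τ) hx0) hs1 (hb y hy hy2) (hb x hx hx2)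
  have h3 := norm_le_inv_sub hx0 hy0 (hx.trans hr.le) (hy.trans hr.le)
  have h4 : ‖x - y‖ / 2 ≤ ‖(psi p τ x)⁻¹ - (psi p τ y)⁻¹‖ := by
    refine le_trans ?_ hxy
    have := norm_nonneg (x⁻¹ - y⁻¹)
    nlinarith only [hk, h3, this]
  rw [hs2] at h2
  have h5 : (1 - (1 - (1 - r ^ 2) / 2)) * (‖x - y‖ / 2) ≤ ‖phi β (psi p τ x) - phi β (psi p τ y)‖ :=
    le_trans (mul_le_mul_of_nonneg_left h4 (by linarith only [hr1])) h2
  unfold gg
  refine le_trans ?_ h1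
  linarith only [h5]

end Pool.Agent.Helper5.CK

end

section

namespace Pool.Agent.Helper39.Area
end Pool.Agent.Helper39.Area
namespace Pool.Agent.Helper81.CK
end Pool.Agent.Helper81.CK

set_option autoImplicit false

open Complex Metric Set Filter Topology

open scoped ComplexConjugate

namespace Pool.Agent.Helper5.CK

open Pool.Agent.Helper39.Area

open Pool.Agent.Helper81.CK (outer outer_bound outer_lip regular_part outer_differentiableOn)

theorem sq_le_self' {t : ℝ} (h0 : 0 ≤ t) (h1 : t ≤ 1) : t ^ 2 ≤ t := by (clear * - h0 h1; nlinarith only [h0, h1])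

theorem one_sub_sq_pos' {t : ℝ} (h0 : 0 ≤ t) (h1 : t < 1) : 0 < 1 - t ^ 2 := by (clear * - h1 h0; nlinarith only [h0, h1])

theorem lt_one_of_sq' {t : ℝ} (h1 : t ^ 2 < 1) : t < 1 := by (clear * - h1; nlinarith only [h1])

theorem small_of {A B t u b : ℝ} (h : B * u ≤ b) (hu : t ≤ u) (hAB : A ≤ B) (ht : 0 ≤ t)
    (hB : 0 ≤ B) : A * t ≤ b :=
  (mul_le_mul hAB hu ht hB).trans h

theorem frac_bd {η s1 k k2 : ℝ} (h1 : s1 ≤ η / 512) (hk : 0 ≤ k) (h2 : k2 ≤ k) (hη : 0 < η) :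
    k2 * (3 * η / 8) ≤ 2 * k * (3 * η / 8 - s1) := by nlinarith

theorem sub_sq_ge {r : ℝ} (h0 : 0 ≤ r) (h1 : r ≤ 1) : 1 - r ≤ 1 - r ^ 2 := by nlinarith only [h0, h1]

theorem eta_aux {η : ℝ} (h0 : 0 < η) (h1 : η ≤ 1 / 2) :
    0 ≤ 1 - (1 - η / 2) ^ 2 ∧ η / 2 ≤ 1 - (1 - η / 2) ^ 2 ∧ η / 2 ≤ η - η ^ 2 / 4 := by
  refine ⟨?_, ?_, ?_⟩ <;> nlinarith only [h0, h1]

theorem contra_aux {η k : ℝ} (h0 : 0 < η) (h1 : η ≤ 1 / 2)
    (h2 : (1 - (1 - η / 2) ^ 2) * (η / 8) ≤ 3 * k) (h3 : k ≤ η ^ 2 / 2048) : False := by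
  have h4 := (eta_aux h0 h1).2.1
  nlinarith only [h0, h1, h2, h3]

theorem eps_aux {e k c η n : ℝ} (he : e ≤ k) (hk : k ≤ c * η ^ 2 / 512) (hn : c ≤ n)
    : e ≤ η ^ 2 / 512 * n := by nlinarith [sq_nonneg η]

theorem last_aux {C2 t A : ℝ} (h : 0 ≤ A * t ^ 2) : C2 * t ^ 2 + C2 * t ^ 2 ≤ (A + 2 * C2) * t ^ 2 := by
  (clear * - h; linarith only [h])

/-- three cases of injectivity -/
theorem injOn_of_cases {F : ℂ → ℂ} {D : Set ℂ} {p : ℂ} {ra rb : ℝ} (hab : ra < rb)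
    (h1 : ∀ x ∈ D, ∀ y ∈ D, ra ≤ ‖x - p‖ → ra ≤ ‖y - p‖ → F x = F y → x = y)
    (h2 : ∀ x ∈ D, ∀ y ∈ D, ‖x - p‖ ≤ rb → ‖y - p‖ ≤ rb → F x = F y → x = y)
    (h3 : ∀ x ∈ D, ∀ y ∈ D, ‖x - p‖ ≤ ra → rb ≤ ‖y - p‖ → F x ≠ F y) : InjOn F D := by
  intro x hx y hy hxy
  rcases le_total ra ‖x - p‖ with hxa | hxa <;> rcases le_total ra ‖y - p‖ with hya | hya
  · exact h1 x hx y hy hxa hya hxy
  · rcases le_total rb ‖x - p‖ with hxb | hxb
    · exact absurd hxy.symm (h3 y hy x hx hya hxb)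
    · exact h2 x hx y hy hxb (hya.trans hab.le) hxy
  · rcases le_total rb ‖y - p‖ with hyb | hyb
    · exact absurd hxy (h3 x hx y hy hxa hyb)
    · exact h2 x hx y hy (hxa.trans hab.le) hyb hxy
  · exact h2 x hx y hy (hxa.trans hab.le) (hya.trans hab.le) hxy

theorem lower_of_near {β : ℂ → ℂ} (h : Ext β) {p τ z : ℂ} {η s k : ℝ} (hη : 0 < η)
    (hp : η ≤ ‖p‖) (hp1 : ‖p‖ ≤ 1 - η) (hs : 0 < s) (hsη : s ≤ η)
    (hz0 : z ≠ 0) (hzp : s ≤ ‖z - p‖) (h1 : ‖psi p τ z‖ < 1) (h2 : ‖psi p τ z - z‖ ≤ k)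
    (hk : k ≤ s / 2) : s * η / 8 ≤ ‖phi β (psi p τ z) - phi β p‖ := by
  have h3 : s / 2 ≤ ‖psi p τ z - p‖ := by
    have h4 : ‖z - p‖ ≤ ‖psi p τ z - p‖ + ‖psi p τ z - z‖ := by
      have : z - p = (psi p τ z - p) - (psi p τ z - z) := by ring
      rw [this]; exact norm_sub_le _ _
    linarith only [hzp, h2, hk, h4]
  have h4 := koebe_phi h (p := p) (y := psi p τ z) (r := s / 2) (by (clear * - hs; linarith only [hs])) (by linarith only [hp, hs, hsη])
    (by (clear * - hη hp1 hsη; linarith)) (by simpa using h1) (psi_ne hz0) h3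
  have h5 := (dphi_bd h hη hp hp1).1
  nlinarith only [hs, h4, h5]

/-- the varied function before dilation -/
theorem exists_F {η : ℝ} (hη : 0 < η) (hη2 : η ≤ 1 / 2) : ∃ C t0 : ℝ, 0 < C ∧ 0 < t0 ∧
    ∀ β : ℂ → ℂ, Ext β → ∀ p : ℂ, η ≤ ‖p‖ → ‖p‖ ≤ 1 - η → ∀ τ : ℂ, τ ≠ 0 → ‖τ‖ ≤ t0 →
    ∃ (F : ℂ → ℂ) (r : ℝ), 0 < r ∧ r < 1 ∧ 1 - r ≤ C * ‖τ‖ ^ 2 ∧
      DifferentiableOn ℂ F (ball 0 1 \ {0}) ∧ InjOn F (ball 0 r \ {0}) ∧
      Tendsto (fun z => z * F z) (𝓝[≠] 0) (𝓝 (Real.exp τ.re : ℂ)) ∧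
      ∀ z, η / 4 ≤ ‖z‖ → ‖z‖ ≤ 1 - η / 4 → η / 4 ≤ ‖z - p‖ →
        ‖F z - phi β z - VV β p τ z‖ ≤ C * ‖τ‖ ^ 2 := by
  obtain ⟨sa, hsa⟩ : ∃ sa : ℝ, sa = η ^ 5 / 256 := ⟨_, rfl⟩
  have hsa0 : 0 < sa := by rw [hsa]; (clear * - hη; positivity)
  have hη5 : η ^ 5 ≤ η := by
    have : η ^ 5 ≤ η ^ 1 := pow_le_pow_of_le_one hη.le (by linarith only [hη2]) (by norm_num)
    simpa using this
  have hsa1 : sa ≤ η / 256 := by rw [hsa]; (clear * - hη5; linarith only [hη5])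
  obtain ⟨s1, hs1⟩ : ∃ s1 : ℝ, s1 = sa / 2 := ⟨_, rfl⟩
  obtain ⟨s0, hs0⟩ : ∃ s0 : ℝ, s0 = sa / 4 := ⟨_, rfl⟩
  have hs1p : 0 < s1 := by linarith only [hsa0, hs1]
  have hs0p : 0 < s0 := by (clear * - hsa0 hs0; linarith)
  obtain ⟨C1, hC1, H1⟩ := psi_facts hη hs0p
  obtain ⟨C2, hC2, H2⟩ := expand (η := η / 4) (s := s0) (by (clear * - hsa0 hsa1; linarith only [hsa0, hsa1])) hs0p
  obtain ⟨c, hc⟩ : ∃ c : ℝ, c = s0 * η / 8 := ⟨_, rfl⟩
  have hc0 : 0 < c := by rw [hc]; positivity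
  obtain ⟨E1, hE1⟩ : ∃ E1 : ℝ, E1 = ((η ^ 3)⁻¹) ^ 2 := ⟨_, rfl⟩
  have hE1p : 0 < E1 := by rw [hE1]; positivity
  -- the small parameter
  obtain ⟨b, hb0, hb1, hb2, hb3, hb4, hb5⟩ : ∃ b : ℝ, 0 < b ∧ b ≤ s0 / 2 ∧ b ≤ c ^ 2 / 2 ∧
      b ≤ s1 / 64 ∧ b ≤ η ^ 2 / 2048 ∧ b ≤ c * η ^ 2 / 512 := by
    refine ⟨min (s0 / 2) (min (c ^ 2 / 2) (min (s1 / 64) (min (η ^ 2 / 2048) (c * η ^ 2 / 512)))),
      by (clear * - hs0p hc0 hs1p hη; positivity), ?_, ?_, ?_, ?_, ?_⟩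
    · exact min_le_left _ _
    · exact (min_le_right _ _).trans (min_le_left _ _)
    · exact (min_le_right _ _).trans ((min_le_right _ _).trans (min_le_left _ _))
    · exact (min_le_right _ _).trans ((min_le_right _ _).trans ((min_le_right _ _).trans
        (min_le_left _ _)))
    · exact (min_le_right _ _).trans ((min_le_right _ _).trans ((min_le_right _ _).trans
        (min_le_right _ _)))
  obtain ⟨t0, ht0, ht1, ht2⟩ := exists_small (A := C1 + C2 + E1) (b := b) (by (clear * - hC1 hC2 hE1p; positivity)) hb0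
  refine ⟨16 * C2 / s1 + 2 * C2, t0, by positivity, ht0, ?_⟩
  intro β h p hp hp1 τ hτ hτt
  have hτp : 0 < ‖τ‖ := norm_pos_iff.mpr hτ
  have hτ1 : ‖τ‖ ≤ 1 := hτt.trans ht1
  have hC1τ : C1 * ‖τ‖ ≤ b :=
    small_of ht2 hτt (by linarith only [hC2, hE1p]) (norm_nonneg _) (by (clear * - hC1 hC2 hE1p; positivity))
  have hC2τ : C2 * ‖τ‖ ≤ b :=
    small_of ht2 hτt (by linarith only [hC1, hE1p]) (norm_nonneg _) (by positivity)
  have hE1τ : E1 * ‖τ‖ ≤ b :=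
    small_of ht2 hτt (by linarith only [hC1, hC2]) (norm_nonneg _) (by positivity)
  have hs0η : s0 ≤ η := by linarith only [hsa1, hs1, hs0, hs1p]
  have hp1' : ‖p‖ < 1 := by linarith only [hb0, hb1, hp1, hs0η]
  have hp0 : p ≠ 0 := by
    intro h0; rw [h0, norm_zero] at hp; linarith only [hb0, hb1, hp, hs0η]
  have hη2' : η ^ 2 ≤ 1 := pow_le_one₀ hη.le (by linarith only [hη2])
  have hC1k : C1 * ‖τ‖ ≤ 1 / 2 := by linarith only [hb4, hC1τ, hη2']
  obtain ⟨H1a, H1b⟩ := H1 p τ hp1 hC1k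
  have hC2k : C2 * ‖τ‖ ≤ 1 := by linarith only [hb4, hC2τ, hη2']
  have he : ‖eps β p τ‖ ≤ E1 * ‖τ‖ := by
    rw [hE1]; exact eps_norm hp1'.le (dphi_bd h hη hp hp1).2
  have hψ1 : ∀ z : ℂ, ‖z‖ < 1 → s0 ≤ ‖z - p‖ → ‖psi p τ z‖ < 1 := by
    intro z hz hzp
    have h1 := (H1a z hz hzp).1
    have h2 : 0 < 1 - ‖z‖ ^ 2 := one_sub_sq_pos' (norm_nonneg z) hz
    have h3 : 0 < (1 - C1 * ‖τ‖) * (1 - ‖z‖ ^ 2) := mul_pos (by (clear * - hC1k; linarith only [hC1k])) h2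
    have h4 : ‖psi p τ z‖ ^ 2 < 1 := by linarith only [h1, h3]
    exact lt_one_of_sq' h4
  have hlow : ∀ z : ℂ, ‖z‖ < 1 → z ≠ 0 → s0 ≤ ‖z - p‖ →
      c ≤ ‖phi β (psi p τ z) - phi β p‖ := by
    intro z hz hz0 hzp
    rw [hc]
    exact lower_of_near h hη hp hp1 hs0p hs0η hz0 hzp (hψ1 z hz hzp) (H1a z hz hzp).2
      (by linarith only [hb1, hC1τ])
  have hlow2 : ∀ z : ℂ, ‖z‖ < 1 → z ≠ 0 → η / 4 ≤ ‖z - p‖ →
      η ^ 2 / 32 ≤ ‖phi β (psi p τ z) - phi β p‖ := by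
    intro z hz hz0 hzp
    have h1 := lower_of_near h hη hp hp1 (s := η / 4) (by linarith only [hsa0, hsa1]) (by (clear * - hsa0 hsa1; linarith only [hsa0, hsa1])) hz0 hzp
      (hψ1 z hz (by linarith only [hsa1, hs1, hs0, hs1p, hzp])) (H1a z hz (by linarith only [hsa1, hs1, hs0, hs1p, hzp])).2 (by linarith only [hs1, hs0, hs1p, hb3, hC1τ, hs0η])
    (clear * - h1; linarith only [h1])
  -- regular part of the variation
  have hpb : p ∈ ball (0:ℂ) 1 := by simpa using hp1'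
  obtain ⟨V, hVd, hV⟩ := reg_ext h hpb hp0 τ
  set D : Set ℂ := ball (0:ℂ) 1 \ {0} with hD
  have hDo : IsOpen D := isOpen_ball.sdiff isClosed_singleton
  have hcb : ∀ z : ℂ, ‖z - p‖ ≤ η / 2 → η / 2 ≤ ‖z‖ ∧ ‖z‖ ≤ 1 - η / 2 := by
    intro z hz
    have h1 : ‖p‖ ≤ ‖z‖ + ‖z - p‖ := by
      have : p = z - (z - p) := by ring
      calc ‖p‖ = ‖z - (z - p)‖ := by rw [← this]
        _ ≤ _ := norm_sub_le _ _
    have h2 : ‖z‖ ≤ ‖p‖ + ‖z - p‖ := by
      have : z = p + (z - p) := by ring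
      calc ‖z‖ = ‖p + (z - p)‖ := by rw [← this]
        _ ≤ _ := norm_add_le _ _
    constructor <;> linarith only [hp, hz, h1, hp1, h2]
  have hcbD : closedBall p (η / 2) ⊆ D := by
    intro z hz
    rw [mem_closedBall, dist_eq_norm] at hz
    have h1 := hcb z hz
    refine ⟨by rw [mem_ball, dist_zero_right]; linarith only [hb0, hb1, hs0η, h1], ?_⟩
    rintro (rfl : z = 0)
    rw [norm_zero] at h1; linarith only [hb0, hb1, hs0η, h1]
  set P : ℂ → ℂ := fun z => phi β z + V z with hP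
  have hφd : DifferentiableOn ℂ (phi β) D := by
    rintro z ⟨hz, hz0⟩
    exact (hasDerivAt_phi h.diff hz hz0).differentiableAt.differentiableWithinAt
  have hPd : DifferentiableOn ℂ P D := hφd.add hVd
  have hDn : ∀ z ∈ D, ‖z‖ < 1 ∧ z ≠ 0 := by
    rintro z ⟨hz, hz0⟩
    exact ⟨by simpa using hz, hz0⟩
  have hgd' : ∀ z, ‖z‖ < 1 → z ≠ 0 → s0 < ‖z - p‖ → DifferentiableAt ℂ (gg β p τ) z := by
    intro z hz hz0 hzp
    have hzne : z ≠ p := by
      rintro rfl; rw [sub_self, norm_zero] at hzp; linarith only [hb0, hb1, hzp]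
    refine gg_diff h hp1' hz hz0 hzne (hψ1 z hz hzp.le) ?_
    intro h0
    have := hlow z hz hz0 hzp.le
    rw [h0, norm_zero] at this
    linarith only [hc0, this]
  have hgd : DifferentiableOn ℂ (gg β p τ) (D \ closedBall p s0) := by
    rintro z ⟨hz, hzp⟩
    rw [mem_closedBall, dist_eq_norm, not_le] at hzp
    exact (hgd' z (hDn z hz).1 (hDn z hz).2 hzp).differentiableWithinAt
  have hVeq : ∀ z ∈ D, s0 ≤ ‖z - p‖ → V z = VV β p τ z := by
    intro z hz hzp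
    refine hV z hz ?_
    rintro rfl; rw [sub_self, norm_zero] at hzp; linarith only [hb0, hb1, hzp]
  have hG : ∀ z, η / 4 ≤ ‖z‖ → ‖z‖ ≤ 1 - η / 4 → s0 ≤ ‖z - p‖ →
      ‖gg β p τ z - P z‖ ≤ C2 * ‖τ‖ ^ 2 := by
    intro z hz1 hz2 hzp
    have hzD : z ∈ D := by
      refine ⟨by rw [mem_ball, dist_zero_right]; (clear * - hb0 hb1 hs0η hz2; linarith only [hb0, hb1, hs0η, hz2]), ?_⟩
      rintro (rfl : z = 0)
      rw [norm_zero] at hz1; (clear * - hb0 hb1 hs0η hz1; linarith only [hb0, hb1, hs0η, hz1])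
    have h1 := (H2 β h p (by linarith only [hη, hp]) (by (clear * - hη hp1; linarith only [hη, hp1])) τ hC2k z hz1 hz2 hzp).2
    rw [hP]
    simp only
    rw [hVeq z hzD hzp]
    have : gg β p τ z - (phi β z + VV β p τ z) =
        phi β (psi p τ z) + eps β p τ / (phi β (psi p τ z) - phi β p) - phi β z - VV β p τ z := by
      unfold gg; ring
    rw [this]
    exact h1
  have hann : ∀ s : ℂ, s1 ≤ ‖s - p‖ → ‖s - p‖ ≤ η / 2 → ‖gg β p τ s - P s‖ ≤ C2 * ‖τ‖ ^ 2 := by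
    intro s hs hs'
    have h1 := hcb s hs'
    exact hG s (by linarith only [hb0, hb3, hs, hs', h1]) (by linarith only [hb0, hb3, hs, hs', h1]) (by (clear * - hs1 hs0 hs0p hs; linarith only [hs1, hs0, hs0p, hs]))
  obtain ⟨F, hFd, hFeq, hFP⟩ := regular_part hDo hs1p (by linarith only [hs1, hs0, hs0p] : s0 < s1)
    (by linarith only [hsa0, hsa1, hs1] : s1 < η / 2) hcbD hgd hPd hann
  set e : ℂ → ℂ := fun s => gg β p τ s - P s with he'
  have hec : ContinuousOn e (sphere p s1) := by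
    intro s hs
    rw [mem_sphere, dist_eq_norm] at hs
    have h1 : s ∈ D := hcbD (by rw [mem_closedBall, dist_eq_norm]; linarith only [hsa0, hsa1, hs1, hs])
    have h2 := (hgd' s (hDn s h1).1 (hDn s h1).2 (by linarith only [hs1, hs0, hs0p, hs])).continuousAt
    have h3 := (hPd.differentiableAt (hDo.mem_nhds h1)).continuousAt
    exact (h2.sub h3).continuousWithinAt
  have heb : ∀ s ∈ sphere p s1, ‖e s‖ ≤ C2 * ‖τ‖ ^ 2 := by
    intro s hs
    rw [mem_sphere, dist_eq_norm] at hs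
    exact hann s hs.ge (by (clear * - hsa0 hsa1 hs1 hs; linarith only [hsa0, hsa1, hs1, hs]))
  have hE : ∀ z, sa ≤ ‖z - p‖ → ‖outer p s1 e z‖ ≤ C2 * ‖τ‖ ^ 2 := by
    intro z hz
    have h1 := outer_bound hs1p heb (z := z) (d := s1) hs1p (by (clear * - hs1 hz; linarith only [hs1, hz]))
    have h2 : s1 * (C2 * ‖τ‖ ^ 2) / s1 = C2 * ‖τ‖ ^ 2 := by field_simp
    rwa [h2] at h1
  have hEl : ∀ z w, sa ≤ ‖z - p‖ → sa ≤ ‖w - p‖ →
      ‖outer p s1 e z - outer p s1 e w‖ ≤ C2 * ‖τ‖ ^ 2 / s1 * ‖z - w‖ := by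
    intro z w hz hw
    have h1 := outer_lip hs1p hec heb (z := z) (w := w) (d := s1) hs1p (by linarith only [hs1, hz]) (by linarith only [hs1, hw])
    have h2 : s1 * (C2 * ‖τ‖ ^ 2) / s1 ^ 2 = C2 * ‖τ‖ ^ 2 / s1 := by field_simp
    rwa [h2] at h1
  -- the bound inside
  have hVb : ∀ z ∈ closedBall p (η / 2), ‖V z‖ ≤ C2 * ‖τ‖ := by
    have hfr : ∀ z ∈ frontier (ball p (η / 2)), ‖V z‖ ≤ C2 * ‖τ‖ := by
      intro z hz
      rw [frontier_ball p (by linarith only [hη])] at hz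
      rw [mem_sphere, dist_eq_norm] at hz
      have h1 := hcb z hz.le
      have h2 : z ∈ D := hcbD (by rw [mem_closedBall, dist_eq_norm]; linarith only [hz])
      rw [hVeq z h2 (by linarith only [hsa0, hsa1, hs0, hz])]
      exact (H2 β h p (by linarith only [hη, hp]) (by linarith only [hη, hp1]) τ hC2k z (by linarith only [hb0, hb1, hs0η, h1]) (by (clear * - hb0 hb1 hs0η h1; linarith only [hb0, hb1, hs0η, h1]))
        (by linarith only [hsa0, hsa1, hs0, hz])).1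
    intro z hz
    have hcl : closure (ball p (η / 2)) = closedBall p (η / 2) := closure_ball p (by linarith only [hη])
    apply Complex.norm_le_of_forall_mem_frontier_norm_le isBounded_ball _ hfr
    · rw [hcl]; exact hz
    · apply DifferentiableOn.diffContOnCl
      rw [hcl]
      exact hVd.mono hcbD
  have hFφ : ∀ z ∈ closedBall p (3 * η / 8), ‖F z - phi β z‖ ≤ 3 * (C2 * ‖τ‖) := by
    intro z hz
    have h1 := hFP (3 * η / 8) (by linarith only [hsa0, hsa1, hs1]) (by linarith only [hη]) z hz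
    have h2 := hVb z (closedBall_subset_closedBall (by linarith only [hη]) hz)
    have h3 : C2 * ‖τ‖ ^ 2 * (3 * η / 8) / (3 * η / 8 - s1) ≤ 2 * (C2 * ‖τ‖) := by
      rw [div_le_iff₀ (by linarith only [hsa0, hsa1, hs1])]
      have h4 : C2 * ‖τ‖ ^ 2 ≤ C2 * ‖τ‖ := by
        have : ‖τ‖ ^ 2 ≤ ‖τ‖ := sq_le_self' (norm_nonneg _) hτ1
        exact mul_le_mul_of_nonneg_left this hC2.le
      have h5 : 0 ≤ C2 * ‖τ‖ := by positivity
      exact frac_bd (by (clear * - hs1 hsa1; linarith only [hs1, hsa1])) h5 h4 hη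
    have h4 : F z - phi β z = (F z - P z) + V z := by rw [hP]; ring
    rw [h4]
    refine (norm_add_le _ _).trans ?_
    linarith only [h1, h2, h3]
  have hQd : DifferentiableOn ℂ (fun z => F z - phi β z) D := hFd.sub hφd
  -- the dilation factor
  obtain ⟨r, hr⟩ : ∃ r : ℝ, r = 1 - 16 * (C2 * ‖τ‖ ^ 2 / s1) := ⟨_, rfl⟩
  have hq0 : 0 < C2 * ‖τ‖ ^ 2 / s1 := by (clear * - hC2 hτ hs1p; positivity)
  have hq1 : C2 * ‖τ‖ ^ 2 / s1 ≤ 1 / 64 := by
    rw [div_le_iff₀ hs1p]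
    have h4 : C2 * ‖τ‖ ^ 2 ≤ C2 * ‖τ‖ := by
      have : ‖τ‖ ^ 2 ≤ ‖τ‖ := sq_le_self' (norm_nonneg _) hτ1
      exact mul_le_mul_of_nonneg_left this hC2.le
    (clear * - hb3 hC2τ h4; linarith only [hb3, hC2τ, h4])
  have hr0 : 0 < r := by rw [hr]; linarith only [hq1]
  have hr1 : r < 1 := by rw [hr]; linarith only [hq0]
  refine ⟨F, r, hr0, hr1, ?_, hFd, ?_, ?_, ?_⟩
  · rw [hr]
    have h1 : 0 ≤ 2 * C2 * ‖τ‖ ^ 2 := by positivity
    have h2 : 16 * (C2 * ‖τ‖ ^ 2 / s1) = 16 * C2 / s1 * ‖τ‖ ^ 2 := by ring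
    linarith only [h1, h2]
  · -- injectivity
    have hsub : ball (0:ℂ) r \ {0} ⊆ D := sdiff_subset_sdiff_left (ball_subset_ball hr1.le)
    have hn : ∀ x ∈ ball (0:ℂ) r \ {0}, ‖x‖ < r ∧ x ≠ 0 := by
      rintro x ⟨hx, hx0⟩
      exact ⟨by simpa using hx, hx0⟩
    apply injOn_of_cases (p := p) (ra := sa) (rb := η / 4) (by linarith only [hsa0, hsa1])
    · intro x hx y hy hxp hyp hxy
      by_contra hne
      obtain ⟨hx1, hx0⟩ := hn x hx
      obtain ⟨hy1, hy0⟩ := hn y hy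
      have hxp0 : s0 ≤ ‖x - p‖ := by (clear * - hs1 hs0 hs1p hxp; linarith only [hs1, hs0, hs1p, hxp])
      have hyp0 : s0 ≤ ‖y - p‖ := by linarith only [hs1, hs0, hs1p, hyp]
      have g1 := gg_lower h (r := r) (c := c) (k := C1 * ‖τ‖) hr1 hc0 hC1k hx1.le hy1.le
        hx0 hy0 (H1a x (by linarith only [hr1, hx1]) hxp0).1 (H1a y (by linarith only [hr1, hy1]) hyp0).1
        (H1b x y (by linarith only [hr1, hx1]) (by linarith only [hr1, hy1]) hx0 hy0 hxp0 hyp0)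
        (hlow x (by linarith only [hr1, hx1]) hx0 hxp0) (hlow y (by linarith only [hr1, hy1]) hy0 hyp0) (by linarith only [hb2, hE1τ, he])
      have g2 := hEl x y hxp hyp
      rw [hFeq x (by linarith only [hs1, hs1p, hxp]), hFeq y (by linarith only [hs1, hs1p, hyp])] at hxy
      have g3 : gg β p τ x - gg β p τ y = outer p s1 e x - outer p s1 e y := by
        linear_combination hxy
      rw [g3] at g1
      have g4 : 0 < ‖x - y‖ := norm_pos_iff.mpr (sub_ne_zero.mpr hne)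
      have g5 : (1 - r ^ 2) / 8 * ‖x - y‖ ≤ C2 * ‖τ‖ ^ 2 / s1 * ‖x - y‖ := g1.trans g2
      have g6 : (1 - r ^ 2) / 8 ≤ C2 * ‖τ‖ ^ 2 / s1 := le_of_mul_le_mul_right g5 g4
      have g7 : 1 - r ≤ 1 - r ^ 2 := sub_sq_ge hr0.le hr1.le
      rw [hr] at g7
      rw [hr] at g6
      linarith only [hq0, g6, g7]
    · intro x hx y hy hxp hyp hxy
      by_contra hne
      have hx1 := hcb x (by linarith only [hsa1, hs1, hs1p, hxp])
      have hy1 := hcb y (by (clear * - hsa1 hs1 hs1p hyp; linarith only [hsa1, hs1, hs1p, hyp]))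
      have hx0 := (hn x hx).2
      have hy0 := (hn y hy).2
      have g1 := Pool.Agent.Helper77.CK.phi_sub_ge h hx0 hy0 (s := 1 - η / 2) (by (clear * - hsa1 hs1 hs1p; linarith only [hsa1, hs1, hs1p]))
        hx1.2 hy1.2
      have g2 := norm_le_inv_sub hy0 hx0 (by (clear * - hsa hη5 hs1 hb0 hb3 hy1; linarith) : ‖y‖ ≤ 1) (by linarith only [hsa1, hs1, hs1p, hx1] : ‖x‖ ≤ 1)
      have g3 : ‖(fun z => F z - phi β z) x - (fun z => F z - phi β z) y‖ ≤
          3 * (C2 * ‖τ‖) / (η / 8) * ‖x - y‖ := by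
        refine Convex.norm_image_sub_le_of_norm_deriv_le (f := fun z => F z - phi β z)
          (s := closedBall p (η / 4)) ?_ ?_ (convex_closedBall p (η / 4)) ?_ ?_
        · intro z hz
          rw [mem_closedBall, dist_eq_norm] at hz
          exact hQd.differentiableAt (hDo.mem_nhds (hcbD (by
            rw [mem_closedBall, dist_eq_norm]; linarith only [hsa1, hs0, hs0p, hz])))
        · intro z hz
          rw [mem_closedBall, dist_eq_norm] at hz
          apply Complex.norm_deriv_le_of_forall_mem_sphere_norm_le (by linarith only [hsa1, hs1, hs1p])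
          · apply DifferentiableOn.diffContOnCl
            rw [closure_ball z (by linarith only [hsa1, hs1, hs1p])]
            apply hQd.mono
            intro w hw
            rw [mem_closedBall, dist_eq_norm] at hw
            apply hcbD
            rw [mem_closedBall, dist_eq_norm]
            have : w - p = (w - z) + (z - p) := by ring
            rw [this]
            exact (norm_add_le _ _).trans (by linarith only [hsa1, hs0, hs0p, hz, hw])
          · intro w hw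
            rw [mem_sphere, dist_eq_norm] at hw
            apply hFφ
            rw [mem_closedBall, dist_eq_norm]
            have : w - p = (w - z) + (z - p) := by ring
            rw [this]
            exact (norm_add_le _ _).trans (by linarith only [hz, hw])
        · rw [mem_closedBall, dist_eq_norm]; exact hyp
        · rw [mem_closedBall, dist_eq_norm]; exact hxp
      have g4 : (fun z => F z - phi β z) x - (fun z => F z - phi β z) y = phi β y - phi β x := by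
        simp only
        linear_combination hxy
      rw [g4] at g3
      have g5 : 0 < ‖x - y‖ := norm_pos_iff.mpr (sub_ne_zero.mpr hne)
      rw [norm_sub_rev y x] at g2
      have g6 : (1 - (1 - η / 2) ^ 2) * ‖x - y‖ ≤ 3 * (C2 * ‖τ‖) / (η / 8) * ‖x - y‖ := by
        refine le_trans ?_ (g1.trans g3)
        exact mul_le_mul_of_nonneg_left g2 (eta_aux hη hη2).1
      have g7 := le_of_mul_le_mul_right g6 g5
      rw [le_div_iff₀ (by linarith only [hsa1, hs1, hs1p])] at g7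
      exact contra_aux hη hη2 g7 (hC2τ.trans hb4)
    · intro x hx y hy hxp hyp hxy
      have hx1 := hcb x (by linarith only [hsa1, hs1, hs1p, hxp])
      obtain ⟨hy1, hy0⟩ := hn y hy
      have hx0 := (hn x hx).2
      have g1 := hFφ x (by rw [mem_closedBall, dist_eq_norm]; linarith only [hsa1, hs1, hs1p, hxp])
      have g2 := Pool.Agent.Helper77.CK.phi_sub_le h hp0 hx0 (s := 1 - η / 2) (by linarith only [hsa1, hs1, hs1p])
        (by linarith only [hb0, hb1, hp1, hs0η]) hx1.2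
      have g3 := norm_inv_sub_le (x := x) (y := p) (a := η / 2) (b := η) (by linarith only [hsa1, hs1, hs1p]) hη hx1.1 hp
      have g4 : ‖phi β x - phi β p‖ ≤ η ^ 2 / 64 := by
        have k1 : 1 - (1 - η / 2) ^ 2 = η - η ^ 2 / 4 := by ring
        have k2 : η / 2 ≤ η - η ^ 2 / 4 := (eta_aux hη hη2).2.2
        have k3 : ‖x⁻¹ - p⁻¹‖ ≤ sa / (η / 2 * η) :=
          g3.trans (div_le_div_of_nonneg_right hxp (by positivity))
        calc ‖phi β x - phi β p‖ ≤ ‖x⁻¹ - p⁻¹‖ / (1 - (1 - η / 2) ^ 2) := g2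
          _ ≤ (sa / (η / 2 * η)) / (η / 2) := by
              rw [k1]
              exact div_le_div₀ (by positivity) k3 (by linarith only [hsa1, hs1, hs1p]) k2
          _ = η ^ 2 / 64 := by rw [hsa]; field_simp; norm_num
      have g5 : ‖F x - phi β p‖ ≤ η ^ 2 / 64 + 3 * (C2 * ‖τ‖) := by
        have : F x - phi β p = (F x - phi β x) + (phi β x - phi β p) := by ring
        rw [this]
        exact (norm_add_le _ _).trans (by linarith only [g1, g4])
      have hl1 := hlow y (by linarith only [hr1, hy1]) hy0 (by linarith only [hsa1, hs1, hs0, hs1p, hyp])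
      have hl2 := hlow2 y (by linarith only [hr1, hy1]) hy0 hyp
      have g6 : ‖eps β p τ / (phi β (psi p τ y) - phi β p)‖ ≤ η ^ 2 / 512 := by
        rw [norm_div, div_le_iff₀ (by linarith only [hc0, hl1])]
        exact eps_aux (he.trans hE1τ) hb5 hl1
      have g7 := hE y (by linarith only [hsa1, hs1, hs1p, hyp])
      have g8 : F y = gg β p τ y - outer p s1 e y := hFeq y (by linarith only [hsa1, hs1, hs1p, hyp])
      have g9 : phi β (psi p τ y) - phi β p = (F y - phi β p) + outer p s1 e y -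
          eps β p τ / (phi β (psi p τ y) - phi β p) := by
        rw [g8]; unfold gg; ring
      have g10 : ‖phi β (psi p τ y) - phi β p‖ ≤ ‖F y - phi β p‖ + ‖outer p s1 e y‖ +
          ‖eps β p τ / (phi β (psi p τ y) - phi β p)‖ := by
        calc ‖phi β (psi p τ y) - phi β p‖ = ‖(F y - phi β p) + outer p s1 e y -
              eps β p τ / (phi β (psi p τ y) - phi β p)‖ := by rw [← g9]
          _ ≤ _ := (norm_sub_le _ _).trans (by gcongr; exact norm_add_le _ _)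
      rw [← hxy] at g10
      have h4 : C2 * ‖τ‖ ^ 2 ≤ C2 * ‖τ‖ := by
        have : ‖τ‖ ^ 2 ≤ ‖τ‖ := sq_le_self' (norm_nonneg _) hτ1
        exact mul_le_mul_of_nonneg_left this hC2.le
      have h5 : 0 < η ^ 2 := by positivity
      linarith only [hb4, hC2τ, g5, hl2, g6, g7, g10, h4, h5]
  · -- the pole
    have h1 := gg_lim h (τ := τ) hp1' hp0 hc0 (by
      have : ball (0:ℂ) (η / 2) \ {0} ∈ 𝓝[≠] (0:ℂ) := by
        rw [sdiff_eq, inter_comm]
        exact inter_mem self_mem_nhdsWithin (mem_nhdsWithin_of_mem_nhds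
          (ball_mem_nhds 0 (by linarith only [hη])))
      filter_upwards [this] with z hz
      have hz1 : ‖z‖ < η / 2 := by simpa using hz.1
      have hz0 : z ≠ 0 := hz.2
      have hzp : η / 2 ≤ ‖z - p‖ := by
        have := norm_sub_norm_le p z
        rw [norm_sub_rev] at this
        linarith only [hp, hz1, this]
      exact hlow z (by linarith only [hp, hp1, hz1]) hz0 (by linarith only [hsa1, hs1, hs0, hs1p, hzp]))
    have h2 : Tendsto (fun z => z * outer p s1 e z) (𝓝[≠] 0) (𝓝 0) := by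
      have h3 : ContinuousAt (outer p s1 e) 0 := by
        have h4 : (0:ℂ) ∈ (closedBall p s1)ᶜ := by
          rw [mem_compl_iff, mem_closedBall, dist_zero_left, not_le]
          linarith only [hsa0, hsa1, hs1, hp]
        exact ((outer_differentiableOn hs1p hec).differentiableAt
          (isClosed_closedBall.isOpen_compl.mem_nhds h4)).continuousAt
      have h4 : ContinuousAt (fun z => z * outer p s1 e z) 0 := continuousAt_id.mul h3
      have h5 := h4.tendsto.mono_left (nhdsWithin_le_nhds (s := {0}ᶜ))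
      simpa using h5
    have h3 := h1.sub h2
    rw [sub_zero] at h3
    apply h3.congr'
    have : ball (0:ℂ) (η / 2) ∈ 𝓝[≠] (0:ℂ) :=
      mem_nhdsWithin_of_mem_nhds (ball_mem_nhds 0 (by linarith only [hη]))
    filter_upwards [this] with z hz
    have hz1 : ‖z‖ < η / 2 := by simpa using hz
    have hzp : η / 2 ≤ ‖z - p‖ := by
      have := norm_sub_norm_le p z
      rw [norm_sub_rev] at this
      linarith only [hp, hz1, this]
    rw [hFeq z (by linarith only [hsa1, hs1, hs1p, hzp])]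
    ring
  · -- expansion
    intro z hz1 hz2 hzp
    have hzD : z ∈ D := by
      refine ⟨by rw [mem_ball, dist_zero_right]; linarith only [hb0, hb1, hs0η, hz2], ?_⟩
      rintro (rfl : z = 0)
      rw [norm_zero] at hz1; linarith only [hb0, hb1, hs0η, hz1]
    have h1 := hG z hz1 hz2 (by linarith only [hsa0, hsa1, hs0, hzp])
    have h2 := hE z (by linarith only [hsa1, hs1, hs1p, hzp])
    have h3 : F z - phi β z - VV β p τ z = (gg β p τ z - P z) - outer p s1 e z := by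
      rw [hFeq z (by linarith only [hsa1, hs1, hs1p, hzp]), hP]
      simp only
      rw [hVeq z hzD (by linarith only [hsa1, hs1, hs0, hs1p, hzp])]
      ring
    rw [h3]
    refine (norm_sub_le _ _).trans ?_
    have h4 : 0 ≤ 16 * C2 / s1 * ‖τ‖ ^ 2 := by positivity
    exact (add_le_add h1 h2).trans (last_aux h4)

end Pool.Agent.Helper5.CK

end

section

namespace Pool.Agent.Helper39.Area
end Pool.Agent.Helper39.Area

set_option autoImplicit false

open Complex Metric Set Filter Topology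

open scoped ComplexConjugate

namespace Pool.Agent.Helper5.CK

open Pool.Agent.Helper39.Area

theorem norm_ge_of_near {z w p : ℂ} {a b : ℝ} (h : a ≤ ‖z - p‖) (hw : ‖w - z‖ ≤ b) :
    a - b ≤ ‖w - p‖ := by
  have h1 : ‖z - p‖ ≤ ‖w - p‖ + ‖w - z‖ := by
    have : z - p = (w - p) - (w - z) := by ring
    rw [this]; exact norm_sub_le _ _
  (clear * - h hw h1; linarith only [h, hw, h1])

theorem norm_le_of_near {z w : ℂ} {a b : ℝ} (h : ‖z‖ ≤ a) (hw : ‖w - z‖ ≤ b) :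
    ‖w‖ ≤ a + b := by
  have h1 : ‖w‖ ≤ ‖z‖ + ‖w - z‖ := by
    have : w = z + (w - z) := by ring
    calc ‖w‖ = ‖z + (w - z)‖ := by rw [← this]
      _ ≤ _ := norm_add_le _ _
  (clear * - h hw h1; linarith)

/-- algebra of the error terms -/
theorem err_bound {q x : ℂ} {A B A' B' E : ℂ} {k1 k2 k3 k4 k5 k6 : ℝ} (hq : ‖q‖ ≤ 2)
    (hA : ‖A' - A‖ ≤ k1) (hqx : ‖q - (1 - x)‖ ≤ k2) (hA0 : ‖A‖ ≤ k3) (hB : ‖B' - B‖ ≤ k4)
    (hx : ‖x‖ ≤ k5) (hB0 : ‖B‖ ≤ k6) :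
    ‖q * (A' + B' + E) - (1 - x) * A - B‖ ≤
      2 * k1 + k2 * k3 + 2 * k4 + (k2 + k5) * k6 + 2 * ‖E‖ := by
  have h1 : q * (A' + B' + E) - (1 - x) * A - B =
      q * (A' - A) + (q - (1 - x)) * A + q * (B' - B) + ((q - (1 - x)) - x) * B + q * E := by
    ring
  have e1 : ‖q * (A' - A)‖ ≤ 2 * k1 := by
    rw [norm_mul]; exact mul_le_mul hq hA (norm_nonneg _) (by norm_num)
  have e2 : ‖(q - (1 - x)) * A‖ ≤ k2 * k3 := by
    rw [norm_mul]; exact mul_le_mul hqx hA0 (norm_nonneg _) ((norm_nonneg _).trans hqx)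
  have e3 : ‖q * (B' - B)‖ ≤ 2 * k4 := by
    rw [norm_mul]; exact mul_le_mul hq hB (norm_nonneg _) (by norm_num)
  have e4 : ‖((q - (1 - x)) - x) * B‖ ≤ (k2 + k5) * k6 := by
    rw [norm_mul]
    refine mul_le_mul ((norm_sub_le _ _).trans (add_le_add hqx hx)) hB0 (norm_nonneg _) ?_
    exact add_nonneg ((norm_nonneg _).trans hqx) ((norm_nonneg _).trans hx)
  have e5 : ‖q * E‖ ≤ 2 * ‖E‖ := by
    rw [norm_mul]; exact mul_le_mul_of_nonneg_right hq (norm_nonneg _)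
  rw [h1]
  have f1 := norm_add_le (q * (A' - A) + (q - (1 - x)) * A + q * (B' - B) +
    ((q - (1 - x)) - x) * B) (q * E)
  have f2 := norm_add_le (q * (A' - A) + (q - (1 - x)) * A + q * (B' - B))
    (((q - (1 - x)) - x) * B)
  have f3 := norm_add_le (q * (A' - A) + (q - (1 - x)) * A) (q * (B' - B))
  have f4 := norm_add_le (q * (A' - A)) ((q - (1 - x)) * A)
  linarith only [e1, e2, e3, e4, e5, f1, f2, f3, f4]

theorem exp_bound {x r : ℝ} (hx : |x| ≤ 1 / 2) (hr0 : 0 < r) (hr1 : r < 1) :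
    |r / Real.exp x - (1 - x)| ≤ x ^ 2 + 2 * (1 - r) ∧ |r / Real.exp x| ≤ 2 := by
  have h1 : r / Real.exp x = r * Real.exp (-x) := by rw [Real.exp_neg]; rfl
  have hx' : |(-x)| ≤ 1 := by rw [abs_neg]; linarith
  have h2 := Real.abs_exp_sub_one_sub_id_le hx'
  have h3 : r * Real.exp (-x) - (1 - x) = r * (Real.exp (-x) - 1 - -x) + (r - 1) * (1 - x) := by
    ring
  have h4 : |r * (Real.exp (-x) - 1 - -x)| ≤ x ^ 2 := by
    rw [abs_mul, abs_of_pos hr0]
    have : 0 ≤ |Real.exp (-x) - 1 - -x| := abs_nonneg _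
    have h5 : (-x) ^ 2 = x ^ 2 := by ring
    rw [h5] at h2
    (clear * - hr1 hr0 h2; nlinarith only [hr0, hr1, h2])
  have hxx := abs_le.mp hx
  have h5 : |(r - 1) * (1 - x)| ≤ 2 * (1 - r) := by
    rw [abs_mul, abs_of_nonpos (by (clear * - hr1; linarith only [hr1]) : r - 1 ≤ 0), abs_of_nonneg (by (clear * - hxx; linarith only [hxx]) : 0 ≤ 1 - x)]
    (clear * - hr1 hxx; nlinarith only [hr1, hxx])
  have h6 : |r / Real.exp x - (1 - x)| ≤ x ^ 2 + 2 * (1 - r) := by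
    rw [h1, h3]
    exact (abs_add_le _ _).trans (add_le_add h4 h5)
  refine ⟨h6, ?_⟩
  rw [h1, abs_mul, abs_of_pos hr0, abs_of_pos (Real.exp_pos _)]
  have h7 : Real.exp (-x) ≤ 2 := by
    have h8 := (abs_le.mp h2).2
    have h9 : (-x) ^ 2 ≤ 1 / 4 := by (clear * - hxx; nlinarith only [hxx])
    (clear * - hr0 hr1 hxx h8 h9; linarith)
  nlinarith only [hr0, hr1, h7]

theorem aux_mul {r t : ℝ} (h0 : 0 ≤ t) (h1 : t ≤ 1) (hr : r < 1) : -(r - 1) * t ≤ 1 - r := by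
  (clear * - h1 hr; nlinarith only [h1, hr])

theorem aux_eta {η : ℝ} (h0 : 0 < η) (h1 : η ≤ 1 / 2) : η / 8 ≤ 1 - (1 - η / 8) ^ 2 := by
  nlinarith only [h0, h1]

theorem aux_lin {C t : ℝ} (hC : 0 < C) (h : t ^ 2 ≤ t) :
    (1 + 2 * C) * t ^ 2 + t ≤ ((1 + 2 * C) + 1) * t := by nlinarith only [hC, h]

/-- the lemma for normalised functions -/
theorem variation_zero {η : ℝ} (hη : 0 < η) (hη2 : η ≤ 1 / 2) : ∃ C t0 : ℝ, 0 < C ∧ 0 < t0 ∧
    ∀ β : ℂ → ℂ, Ext β → β 0 = 0 → ∀ p : ℂ, η ≤ ‖p‖ → ‖p‖ ≤ 1 - η → ∀ τ : ℂ, τ ≠ 0 → ‖τ‖ ≤ t0 →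
    ∃ γ : ℂ → ℂ, Ext γ ∧ ∀ z : ℂ, η ≤ ‖z‖ → ‖z‖ ≤ 1 - η → η ≤ ‖z - p‖ →
      ‖deriv γ z - deriv β z - deriv (fun z => VV β p τ z - (τ.re : ℂ) * phi β z) z‖ ≤
        C * ‖τ‖ ^ 2 := by
  obtain ⟨C, t1, hC, ht1, H⟩ := exists_F hη hη2
  obtain ⟨Cb, hCb, Hb⟩ := beta_bd (η := η / 8) (by (clear * - hη; linarith only [hη]))
  obtain ⟨C2, hC2, H2⟩ := expand (η := η / 8) (s := η / 8) (by linarith only [hη]) (by linarith only [hη])
  obtain ⟨t2, ht2, ht2', ht2''⟩ := exists_small (A := C + C2 + 1) (b := η / 8) (by (clear * - hC hC2; positivity))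
    (by (clear * - hη; linarith only [hη]))
  -- the constants
  obtain ⟨M1, hM1⟩ : ∃ M1 : ℝ, M1 = (1 / (η / 8 * (η / 8))) / (η / 8) := ⟨_, rfl⟩
  have hM1p : 0 < M1 := by rw [hM1]; positivity
  obtain ⟨M0, hM0⟩ : ∃ M0 : ℝ, M0 = (η / 8)⁻¹ + Cb := ⟨_, rfl⟩
  have hM0p : 0 < M0 := by rw [hM0]; positivity
  obtain ⟨K, hK⟩ : ∃ K : ℝ, K = 2 * (M1 * C) + (1 + 2 * C) * M0 + 2 * (8 / η * C) +
      ((1 + 2 * C) + 1) * C2 + 2 * C := ⟨_, rfl⟩
  have hKp : 0 < K := by rw [hK]; positivity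
  refine ⟨K / (η / 4), min t1 t2, by positivity, lt_min ht1 ht2, ?_⟩
  intro β h hβ0 p hp hp1 τ hτ hτt
  have hτ1 : ‖τ‖ ≤ t1 := hτt.trans (min_le_left _ _)
  have hτ2 : ‖τ‖ ≤ t2 := hτt.trans (min_le_right _ _)
  have hτp : 0 < ‖τ‖ := norm_pos_iff.mpr hτ
  have hτle1 : ‖τ‖ ≤ 1 := hτ2.trans ht2'
  have hτC : C * ‖τ‖ ≤ η / 8 :=
    small_of ht2'' hτ2 (by linarith only [hC2]) (norm_nonneg _) (by (clear * - hC hC2; positivity))
  have hτC2 : C2 * ‖τ‖ ≤ η / 8 :=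
    small_of ht2'' hτ2 (by linarith only [hC]) (norm_nonneg _) (by positivity)
  have hτ8 : ‖τ‖ ≤ η / 8 := by
    have := small_of (A := 1) ht2'' hτ2 (by linarith only [hC, hC2]) (norm_nonneg _) (by positivity)
    rwa [one_mul] at this
  have hsq : ‖τ‖ ^ 2 ≤ ‖τ‖ := sq_le_self' (norm_nonneg _) hτle1
  obtain ⟨F, r, hr0, hr1, hr, hFd, hFi, hFl, hFe⟩ := H β h p hp hp1 τ hτ hτ1
  have hr8 : 1 - r ≤ η / 8 := by
    have : C * ‖τ‖ ^ 2 ≤ C * ‖τ‖ := mul_le_mul_of_nonneg_left hsq hC.le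
    (clear * - hτC hr this; linarith only [hτC, hr, this])
  have hc0 : (Real.exp τ.re : ℂ) ≠ 0 := by exact_mod_cast (Real.exp_pos _).ne'
  obtain ⟨γ, hγ, hγe⟩ := normalise hr0 hr1.le
    (hFd.mono (sdiff_subset_sdiff_left (ball_subset_ball hr1.le))) hFi hc0 hFl
  refine ⟨γ, hγ, ?_⟩
  have hp1' : ‖p‖ < 1 := by (clear * - hη hp1; linarith only [hη, hp1])
  have hpb : p ∈ ball (0:ℂ) 1 := by simpa using hp1'
  have hp0 : p ≠ 0 := by
    intro h0; rw [h0, norm_zero] at hp; linarith only [hη, hp]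
  obtain ⟨V, hVd, hV⟩ := reg_ext h hpb hp0 τ
  have hDo : IsOpen (ball (0:ℂ) 1 \ {0}) := isOpen_ball.sdiff isClosed_singleton
  have hmem : ∀ w : ℂ, 0 < ‖w‖ → ‖w‖ < 1 → w ∈ ball (0:ℂ) 1 \ {0} := by
    intro w h1 h2
    exact ⟨by simpa using h2, fun h3 => by
      rw [mem_singleton_iff] at h3; rw [h3, norm_zero] at h1; exact lt_irrefl _ h1⟩
  have hVV : ∀ w : ℂ, 0 < ‖w‖ → ‖w‖ < 1 → 0 < ‖w - p‖ → V w = VV β p τ w := by
    intro w h1 h2 h3
    refine hV w (hmem w h1 h2) ?_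
    rintro rfl; rw [sub_self, norm_zero] at h3; exact lt_irrefl _ h3
  have hVb : ∀ w : ℂ, η / 8 ≤ ‖w‖ → ‖w‖ ≤ 1 - η / 8 → η / 8 ≤ ‖w - p‖ → ‖V w‖ ≤ C2 * ‖τ‖ := by
    intro w h1 h2 h3
    rw [hVV w (by linarith only [hr1, hr8, h1]) (by linarith only [hr1, hr8, h2]) (by (clear * - hr1 hr8 h3; linarith only [hr1, hr8, h3]))]
    exact (H2 β h p (by linarith only [hη, hp]) (by linarith only [hη, hp1]) τ (by linarith only [hτC2, h1, h2]) w h1 h2 h3).1
  intro z hz hz1 hzp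
  set G : ℂ → ℂ := fun w => γ w - β w - (V w - (τ.re : ℂ) * phi β w) with hG
  have hφd : ∀ w : ℂ, 0 < ‖w‖ → ‖w‖ < 1 → DifferentiableAt ℂ (phi β) w := fun w h1 h2 =>
    (hasDerivAt_phi h.diff (hmem w h1 h2).1 (hmem w h1 h2).2).differentiableAt
  have hγd : ∀ w : ℂ, ‖w‖ < 1 → DifferentiableAt ℂ γ w := fun w h2 =>
    hγ.diff.differentiableAt (isOpen_ball.mem_nhds (by simpa using h2))
  have hβd : ∀ w : ℂ, ‖w‖ < 1 → DifferentiableAt ℂ β w := fun w h2 =>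
    h.diff.differentiableAt (isOpen_ball.mem_nhds (by simpa using h2))
  have hVdd : ∀ w : ℂ, 0 < ‖w‖ → ‖w‖ < 1 → DifferentiableAt ℂ V w := fun w h1 h2 =>
    hVd.differentiableAt (hDo.mem_nhds (hmem w h1 h2))
  have hGd : ∀ w : ℂ, 0 < ‖w‖ → ‖w‖ < 1 → DifferentiableAt ℂ G w := by
    intro w h1 h2
    exact ((hγd w h2).sub (hβd w h2)).sub ((hVdd w h1 h2).sub ((hφd w h1 h2).const_mul _))
  have hz0 : 0 < ‖z‖ := by (clear * - hr1 hr8 hz; linarith only [hr1, hr8, hz])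
  have hz1' : ‖z‖ < 1 := by linarith only [hr1, hr8, hz1]
  have hder : deriv γ z - deriv β z - deriv (fun z => VV β p τ z - (τ.re : ℂ) * phi β z) z =
      deriv G z := by
    have h1 : (fun z => VV β p τ z - (τ.re : ℂ) * phi β z) =ᶠ[𝓝 z]
        fun z => V z - (τ.re : ℂ) * phi β z := by
      have h2 : (ball (0:ℂ) 1 \ {0}) \ {p} ∈ 𝓝 z := by
        apply (hDo.sdiff isClosed_singleton).mem_nhds
        refine ⟨hmem z hz0 hz1', ?_⟩
        rintro (rfl : z = p)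
        rw [sub_self, norm_zero] at hzp; linarith only [hr1, hr8, hzp]
      filter_upwards [h2] with w hw
      rw [hV w hw.1 hw.2]
    rw [h1.deriv_eq, hG]
    have h3 := (hγd z hz1').hasDerivAt.sub (hβd z hz1').hasDerivAt
    have h4 := (hVdd z hz0 hz1').sub ((hφd z hz0 hz1').const_mul (τ.re : ℂ))
    exact ((h3.sub h4.hasDerivAt).deriv).symm
  rw [hder]
  have hsup : ∀ w ∈ sphere z (η / 4), ‖G w‖ ≤ K * ‖τ‖ ^ 2 := by
    intro w hw
    rw [mem_sphere, dist_eq_norm] at hw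
    have w1 : 3 * η / 4 ≤ ‖w‖ := by
      have := norm_ge_of_near (p := 0) (a := η) (by simpa using hz) hw.le
      rw [sub_zero] at this; linarith only [this]
    have w2 : ‖w‖ ≤ 1 - 3 * η / 4 := by
      have := norm_le_of_near hz1 hw.le; linarith only [this]
    have w3 : 3 * η / 4 ≤ ‖w - p‖ := by
      have := norm_ge_of_near hzp hw.le; linarith only [this]
    have hrw : ‖(r:ℂ) * w - w‖ ≤ 1 - r := by
      have : (r:ℂ) * w - w = ((r - 1 : ℝ) : ℂ) * w := by push_cast; ring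
      rw [this, norm_mul, Complex.norm_real, Real.norm_eq_abs, abs_of_nonpos (by linarith only [hr1])]
      exact aux_mul (norm_nonneg w) (by linarith only [hr1, hr8, w2]) hr1
    have r1 : η / 2 ≤ ‖(r:ℂ) * w‖ := by
      have := norm_ge_of_near (p := 0) (a := 3 * η / 4) (by simpa using w1) (hrw.trans hr8)
      rw [sub_zero] at this; linarith only [hr1, hr8, this]
    have r2 : ‖(r:ℂ) * w‖ ≤ 1 - η / 2 := by
      have := norm_le_of_near w2 (hrw.trans hr8); linarith only [hr1, hr8, this]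
    have r3 : η / 2 ≤ ‖(r:ℂ) * w - p‖ := by
      have := norm_ge_of_near w3 (hrw.trans hr8); linarith only [hr1, hr8, this]
    have hw0 : w ≠ 0 := norm_pos_iff.mp (by (clear * - hr1 hr8 w1; linarith only [hr1, hr8, w1]))
    have hrw0 : (r:ℂ) * w ≠ 0 := norm_pos_iff.mp (by linarith only [hr1, hr8, r1])
    have hwb : w ∈ ball (0:ℂ) 1 := by
      rw [mem_ball, dist_zero_right]; linarith only [hr1, hr8, w2]
    -- the value of `γ`
    have k1 := hγe w hwb hw0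
    obtain ⟨E, hE⟩ : ∃ E : ℂ, E = F (r * w) - phi β (r * w) - VV β p τ (r * w) := ⟨_, rfl⟩
    have hEb : ‖E‖ ≤ C * ‖τ‖ ^ 2 := by
      rw [hE]; exact hFe (r * w) (by (clear * - hτp hτ8 r1; linarith only [hτp, hτ8, r1])) (by linarith only [hτp, hτ8, r2]) (by linarith only [hτp, hτ8, r3])
    have k2 : G w = (r / (Real.exp τ.re : ℂ)) * (phi β (r * w) + V (r * w) + E) -
        (1 - (τ.re : ℂ)) * phi β w - V w := by
      have k3 : F (r * w) = phi β (r * w) + V (r * w) + E := by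
        rw [hE, hVV (r * w) (by linarith only [hτp, hτ8, r1]) (by linarith only [hτp, hτ8, r2]) (by linarith only [hτp, hτ8, r3])]; ring
      rw [← k3, ← k1, hG]
      unfold phi
      ring
    rw [k2]
    have hxre : |τ.re| ≤ ‖τ‖ := Complex.abs_re_le_norm τ
    have hx12 : |τ.re| ≤ 1 / 2 := by linarith only [hτ8, r1, r2, hxre]
    obtain ⟨x1, x2⟩ := exp_bound hx12 hr0 hr1
    have hq : ((r : ℂ) / (Real.exp τ.re : ℂ)) = ((r / Real.exp τ.re : ℝ) : ℂ) := by push_cast; rfl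
    have q1 : ‖((r : ℂ) / (Real.exp τ.re : ℂ))‖ ≤ 2 := by
      rw [hq, Complex.norm_real]; exact x2
    have q2 : ‖((r : ℂ) / (Real.exp τ.re : ℂ)) - (1 - (τ.re : ℂ))‖ ≤ (1 + 2 * C) * ‖τ‖ ^ 2 := by
      have : ((r : ℂ) / (Real.exp τ.re : ℂ)) - (1 - (τ.re : ℂ)) =
          ((r / Real.exp τ.re - (1 - τ.re) : ℝ) : ℂ) := by push_cast; rfl
      rw [this, Complex.norm_real]
      refine x1.trans ?_
      have h5 : τ.re ^ 2 ≤ ‖τ‖ ^ 2 := by
        rw [← sq_abs]; exact pow_le_pow_left₀ (abs_nonneg _) hxre 2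
      linarith only [hr, h5]
    have a1 : ‖phi β (r * w) - phi β w‖ ≤ M1 * C * ‖τ‖ ^ 2 := by
      have b1 := Pool.Agent.Helper77.CK.phi_sub_le h hw0 hrw0 (s := 1 - η / 8) (by linarith only [hr1, hr8])
        (by linarith only [hr1, hr8, w2]) (by linarith only [hr1, hr8, r2])
      have b2 := norm_inv_sub_le (x := (r:ℂ) * w) (y := w) (a := η / 8) (b := η / 8) (by linarith only [hr1, hr8])
        (by linarith only [hr1, hr8]) (by (clear * - hr1 hr8 r1; linarith only [hr1, hr8, r1])) (by linarith only [hr1, hr8, w1])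
      have b3 : ‖((r:ℂ) * w)⁻¹ - w⁻¹‖ ≤ (C * ‖τ‖ ^ 2) / (η / 8 * (η / 8)) :=
        b2.trans (div_le_div_of_nonneg_right (hrw.trans hr) (by positivity))
      calc ‖phi β (r * w) - phi β w‖ ≤ ‖((r:ℂ) * w)⁻¹ - w⁻¹‖ / (1 - (1 - η / 8) ^ 2) := b1
        _ ≤ ((C * ‖τ‖ ^ 2) / (η / 8 * (η / 8))) / (η / 8) := by
            exact div_le_div₀ (by (clear * - hC hτ hη; positivity)) b3 (by linarith only [hr1, hr8]) (aux_eta hη hη2)
        _ = M1 * C * ‖τ‖ ^ 2 := by rw [hM1]; field_simp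
    have a2 : ‖phi β w‖ ≤ M0 := by
      unfold phi
      refine (norm_add_le _ _).trans ?_
      rw [hM0]
      apply add_le_add
      · rw [norm_inv]
        exact inv_anti₀ (by (clear * - hr1 hr8; linarith only [hr1, hr8])) (by linarith only [hr1, hr8, w1])
      · exact Hb β h hβ0 w (by (clear * - hr1 hr8 w2; linarith only [hr1, hr8, w2]))
    have a3 : ‖V (r * w) - V w‖ ≤ 8 / η * C * ‖τ‖ ^ 2 := by
      have c1 : ‖V (r * w) - V w‖ ≤ 8 / η * ‖(r:ℂ) * w - w‖ := by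
        refine Convex.norm_image_sub_le_of_norm_deriv_le (f := V) (s := closedBall w (η / 8))
          ?_ ?_ (convex_closedBall w (η / 8)) ?_ ?_
        · intro v hv
          rw [mem_closedBall, dist_eq_norm] at hv
          have v1 := norm_ge_of_near (p := 0) (a := 3 * η / 4) (by simpa using w1) hv
          have v2 := norm_le_of_near w2 hv
          rw [sub_zero] at v1
          exact hVdd v (by linarith only [hr1, hr8, v1]) (by linarith only [hr1, hr8, v2])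
        · intro v hv
          rw [mem_closedBall, dist_eq_norm] at hv
          have v1 := norm_ge_of_near (p := 0) (a := 3 * η / 4) (by simpa using w1) hv
          have v2 := norm_le_of_near w2 hv
          have v3 := norm_ge_of_near w3 hv
          rw [sub_zero] at v1
          have c2 : ‖deriv V v‖ ≤ C2 * ‖τ‖ / (η / 8) := by
            apply Complex.norm_deriv_le_of_forall_mem_sphere_norm_le (by linarith only [hr1, hr8])
            · apply DifferentiableOn.diffContOnCl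
              rw [closure_ball v (by (clear * - hr1 hr8; linarith only [hr1, hr8]))]
              intro u hu
              rw [mem_closedBall, dist_eq_norm] at hu
              have u1 := norm_ge_of_near (p := 0) (a := 3 * η / 4 - η / 8)
                (by rw [sub_zero]; exact v1) hu
              have u2 := norm_le_of_near v2 hu
              rw [sub_zero] at u1
              exact (hVdd u (by linarith only [hτp, hτ8, u1]) (by linarith only [hτp, hτ8, u2])).differentiableWithinAt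
            · intro u hu
              rw [mem_sphere, dist_eq_norm] at hu
              have u1 := norm_ge_of_near (p := 0) (a := 3 * η / 4 - η / 8)
                (by rw [sub_zero]; exact v1) hu.le
              have u2 := norm_le_of_near v2 hu.le
              have u3 := norm_ge_of_near v3 hu.le
              rw [sub_zero] at u1
              exact hVb u (by linarith only [hτp, hτ8, u1]) (by linarith only [hτp, hτ8, u2]) (by linarith only [hτp, hτ8, u3])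
          refine c2.trans ?_
          rw [div_le_iff₀ (by linarith only [hr1, hr8])]
          have : 8 / η * (η / 8) = 1 := by field_simp
          rw [this]
          linarith only [hp, hp1, hτC2]
        · exact mem_closedBall_self (by linarith only [hr1, hr8])
        · rw [mem_closedBall, dist_eq_norm]
          exact hrw.trans hr8
      refine c1.trans ?_
      have : 8 / η * ‖(r:ℂ) * w - w‖ ≤ 8 / η * (C * ‖τ‖ ^ 2) :=
        mul_le_mul_of_nonneg_left (hrw.trans hr) (by positivity)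
      linarith only [this]
    have a4 : ‖V w‖ ≤ C2 * ‖τ‖ := hVb w (by linarith only [hr1, hr8, w1]) (by (clear * - hr1 hr8 w2; linarith only [hr1, hr8, w2])) (by linarith only [hr1, hr8, w3])
    have a5 : ‖((τ.re : ℝ) : ℂ)‖ ≤ ‖τ‖ := by rw [Complex.norm_real]; exact hxre
    have a6 := err_bound (E := E) q1 a1 q2 a2 a3 a5 a4
    refine a6.trans ?_
    rw [hK]
    have s1 : ((1 + 2 * C) * ‖τ‖ ^ 2 + ‖τ‖) * (C2 * ‖τ‖) ≤ ((1 + 2 * C) + 1) * C2 * ‖τ‖ ^ 2 := by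
      have : (1 + 2 * C) * ‖τ‖ ^ 2 + ‖τ‖ ≤ ((1 + 2 * C) + 1) * ‖τ‖ := aux_lin hC hsq
      calc ((1 + 2 * C) * ‖τ‖ ^ 2 + ‖τ‖) * (C2 * ‖τ‖) ≤ (((1 + 2 * C) + 1) * ‖τ‖) * (C2 * ‖τ‖) :=
            mul_le_mul_of_nonneg_right this (by positivity)
        _ = _ := by ring
    linarith only [hEb, s1]
  have hfin : ‖deriv G z‖ ≤ K * ‖τ‖ ^ 2 / (η / 4) := by
    apply Complex.norm_deriv_le_of_forall_mem_sphere_norm_le (by linarith only [hr1, hr8]) _ hsup
    apply DifferentiableOn.diffContOnCl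
    rw [closure_ball z (by linarith only [hr1, hr8])]
    intro w hw
    rw [mem_closedBall, dist_eq_norm] at hw
    have w1 := norm_ge_of_near (p := 0) (a := η) (by simpa using hz) hw
    have w2 := norm_le_of_near hz1 hw
    rw [sub_zero] at w1
    exact (hGd w (by linarith only [hr1, hr8, w1]) (by linarith only [hr1, hr8, w2])).differentiableWithinAt
  refine hfin.trans (le_of_eq ?_)
  ring

/-- **The variation lemma** -/
theorem variation : Variation := by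
  intro η hη
  rcases lt_or_ge (1 / 2) η with h12 | h12
  · exact ⟨1, 1, one_pos, one_pos, fun β _ p hp hp1 => absurd (hp.trans hp1) (by linarith only [h12])⟩
  obtain ⟨C, t0, hC, ht0, H⟩ := variation_zero hη h12
  refine ⟨C, t0, hC, ht0, ?_⟩
  intro β h p hp hp1 τ hτ
  by_cases h0 : τ = 0
  · refine ⟨β, h, ?_⟩
    intro z _ _ _
    have h1 : (fun z => VV β p τ z - (τ.re : ℂ) * phi β z) = fun _ => 0 := by
      funext w
      rw [h0]
      simp [VV, eps, hh]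
    rw [h1, deriv_const, h0]
    simp
  · set b0 : ℂ := β 0 with hb0
    have hb1 : b0 = β 0 := hb0
    clear_value b0
    have hd : ∀ z : ℂ, deriv (fun z => β z - b0) z = deriv β z := fun z => by
      rw [deriv_sub_const]
    have hp' : ∀ z : ℂ, phi (fun z => β z - b0) z = phi β z - b0 := fun z => by
      unfold phi; ring
    have hdp : ∀ z : ℂ, dphi (fun z => β z - b0) z = dphi β z := fun z => by
      unfold dphi; rw [hd]
    have hV' : ∀ z : ℂ, VV (fun z => β z - b0) p τ z = VV β p τ z := fun z => by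
      unfold VV eps
      rw [hp', hp', hdp, hdp]
      congr 2
      ring
    have hE : Ext (fun z => β z - b0) := by
      refine ⟨h.diff.sub (differentiableOn_const _), ?_, ?_⟩
      · intro ζ ω h1 h2 h3 h4 h5
        exact h.inj ζ ω h1 h2 h3 h4 (by linear_combination h5)
      · intro ζ h1
        rw [hd]
        exact h.ne ζ h1
    obtain ⟨γ, hγ, hγ'⟩ := H (fun z => β z - b0) hE (by simp [hb1]) p hp hp1 τ h0 hτ
    refine ⟨γ, hγ, ?_⟩
    intro z hz hz1 hzp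
    have h1 := hγ' z hz hz1 hzp
    rw [hd] at h1
    have h2 : (fun z => VV (fun z => β z - b0) p τ z - (τ.re : ℂ) * phi (fun z => β z - b0) z) =
        fun z => (VV β p τ z - (τ.re : ℂ) * phi β z) + (τ.re : ℂ) * b0 := by
      funext w
      rw [hV', hp']
      ring
    rw [h2, deriv_add_const] at h1
    exact h1

end Pool.Agent.Helper5.CK

end
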