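import Mathlib
import Pool.Agent.Helper14.CMF.T09
import Pool.Agent.Helper14.CMF.T08
import Pool.Agent.Helper14.CMF.T02
import Pool.Agent.Helper14.CMF.T14
import Pool.Agent.Helper14.CMF.T03

set_option linter.all false

section

namespace Pool.Agent.Helper52.EK
end Pool.Agent.Helper52.EK
namespace Pool.Agent.Helper69.EK3
end Pool.Agent.Helper69.EK3

set_option autoImplicit false

open Complex MeasureTheory Metric Set

open scoped Real ComplexConjugate

namespace Pool.Agent.Helper63.CK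

open Pool.Agent.Helper52.EK Pool.Agent.Helper69.EK3

theorem inner {f : ℝ → ℝ} (hf : ContinuousOn f (Icc 0 π))
    (h1 : ∀ η ∈ Icc (0:ℝ) π, f η ≤ 1) {q : ℝ} (hq : 0 ≤ q)
    (hz : ∀ η ∈ Icc (0:ℝ) π, q ≤ Real.sin η → f η = 0) :
    ∫ η in (0:ℝ)..π, f η ≤ π * min 1 q := by
  have hπ := Real.pi_pos
  have hi : ∀ a b : ℝ, 0 ≤ a → a ≤ b → b ≤ π → IntervalIntegrable f volume a b := by
    intro a b ha hab hb
    apply ContinuousOn.intervalIntegrable
    rw [uIcc_of_le hab]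
    exact hf.mono (Icc_subset_Icc ha hb)
  have hm : ∀ a b : ℝ, 0 ≤ a → a ≤ b → b ≤ π → ∫ η in a..b, f η ≤ b - a := by
    intro a b ha hab hb
    calc ∫ η in a..b, f η ≤ ∫ _ in a..b, (1:ℝ) := by
          apply intervalIntegral.integral_mono_on hab (hi a b ha hab hb)
            (by simp)
          intro η hη
          exact h1 η ⟨ha.trans hη.1, hη.2.trans hb⟩
      _ = b - a := by simp
  rcases le_total 1 q with h | h
  · rw [min_eq_left h]
    have := hm 0 π le_rfl hπ.le le_rfl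
    linarith only [this]
  · rw [min_eq_right h]
    set u : ℝ := π * q / 2 with hu
    have hu0 : 0 ≤ u := by (clear * - hq; positivity)
    have hu1 : u ≤ π / 2 := by
      rw [hu]
      (clear * - hπ h; nlinarith only [hπ, h])
    have e1 : ∫ η in (0:ℝ)..π, f η = (∫ η in (0:ℝ)..u, f η) + (∫ η in u..(π - u), f η) +
        ∫ η in (π - u)..π, f η := by
      rw [intervalIntegral.integral_add_adjacent_intervals (hi 0 u le_rfl hu0 (by linarith only [hu0, hu1]))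
        (hi u (π - u) hu0 (by linarith only [hu1]) (by linarith only [hu0])),
        intervalIntegral.integral_add_adjacent_intervals (hi 0 (π - u) le_rfl (by linarith only [hu0, hu1])
          (by (clear * - hu0; linarith))) (hi (π - u) π (by (clear * - hπ hu1; linarith)) (by (clear * - hu0; linarith)) le_rfl)]
    have e2 : ∫ η in u..(π - u), f η = 0 := by
      apply intervalIntegral.integral_zero_ae
      refine Filter.Eventually.of_forall fun η hη => ?_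
      rw [uIoc_of_le (by (clear * - hu1; linarith only [hu1]))] at hη
      have hη0 : 0 ≤ η := hu0.trans hη.1.le
      have hηπ : η ≤ π := hη.2.trans (by (clear * - hu0; linarith only [hu0]))
      apply hz η ⟨hη0, hηπ⟩
      have h3 : 2 / π * u = q := by
        rw [hu]
        (clear * -; field_simp)
      rcases le_total η (π / 2) with h4 | h4
      · have h5 := Real.mul_le_sin hη0 h4
        have h6 : 2 / π * u ≤ 2 / π * η := mul_le_mul_of_nonneg_left hη.1.le (by (clear * -; positivity))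
        (clear * - h3 h5 h6; linarith only [h3, h5, h6])
      · have h5 := Real.mul_le_sin (x := π - η) (by linarith only [hηπ]) (by linarith only [h4])
        rw [Real.sin_pi_sub] at h5
        have h6 : 2 / π * u ≤ 2 / π * (π - η) :=
          mul_le_mul_of_nonneg_left (by (clear * - hη; linarith only [hη.2])) (by positivity)
        (clear * - h3 h5 h6; linarith)
    have e3 := hm 0 u le_rfl hu0 (by linarith only [hu0, hu1])
    have e4 := hm (π - u) π (by linarith) (by linarith only [hu0]) le_rfl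
    rw [e1, e2]
    have : u + u = π * q := by rw [hu]; ring
    linarith only [e3, e4, this]

theorem min_le_log (t : ℝ) : min 1 (Real.exp (-t)) ≤ 2 * Real.exp (-t) / (1 + Real.exp (-t)) := by
  have h := Real.exp_pos (-t)
  rw [le_div_iff₀ (by (clear * -; positivity))]
  rcases le_total 1 (Real.exp (-t)) with h1 | h1
  · rw [min_eq_left h1]
    linarith only [h1]
  · rw [min_eq_right h1]
    (clear * - h h1; nlinarith only [h, h1])

theorem outer_int (lb a b : ℝ) :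
    ∫ ξ in a..b, 2 * Real.exp (-(ξ - lb)) / (1 + Real.exp (-(ξ - lb))) =
      2 * Real.log (1 + Real.exp (-(a - lb))) - 2 * Real.log (1 + Real.exp (-(b - lb))) := by
  have hd : ∀ x ∈ uIcc a b, HasDerivAt (fun ξ => -(2 * Real.log (1 + Real.exp (-(ξ - lb)))))
      (2 * Real.exp (-(x - lb)) / (1 + Real.exp (-(x - lb)))) x := by
    intro x _
    have h0 : HasDerivAt (fun ξ : ℝ => -(ξ - lb)) (-1) x :=
      ((hasDerivAt_id x).sub_const lb).neg
    have h1 := h0.exp.const_add 1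
    have hp : (1 + Real.exp (-(x - lb))) ≠ 0 := by positivity
    have h2 := ((h1.log hp).const_mul 2).neg
    refine h2.congr_deriv ?_
    ring
  have hc : Continuous (fun x : ℝ => 2 * Real.exp (-(x - lb)) / (1 + Real.exp (-(x - lb)))) := by
    apply Continuous.div (by fun_prop) (by fun_prop)
    intro x
    positivity
  rw [intervalIntegral.integral_eq_sub_of_hasDerivAt hd (hc.intervalIntegrable _ _)]
  ring

theorem log_one_add_exp_le (t : ℝ) : Real.log (1 + Real.exp t) ≤ max t 0 + 1 := by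
  have h1 : 1 + Real.exp t ≤ 2 * Real.exp (max t 0) := by
    have h2 : Real.exp t ≤ Real.exp (max t 0) := Real.exp_le_exp.mpr (le_max_left _ _)
    have h3 : 1 ≤ Real.exp (max t 0) := Real.one_le_exp (le_max_right _ _)
    linarith
  have h4 : Real.log (1 + Real.exp t) ≤ Real.log (2 * Real.exp (max t 0)) :=
    Real.log_le_log (by positivity) h1
  rw [Real.log_mul (by norm_num) (Real.exp_pos _).ne', Real.log_exp] at h4
  have h5 : Real.log 2 ≤ 1 := by
    have := Real.log_le_sub_one_of_pos (x := 2) (by norm_num)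
    (clear * - this; linarith only [this])
  (clear * - h4 h5; linarith only [h4, h5])

/-- the area bound: `W = 1` where `ξ ≤ -A` and `e^lb ≤ e^ξ sin η` -/
theorem area_le {x₁ x₂ A lb : ℝ} (hx : x₁ ≤ x₂) (hA : -A ≤ x₂) {W : ℝ → ℝ → ℝ}
    (hW : CH x₁ x₂ π W) (h0 : ∀ ξ ∈ Icc x₁ x₂, ∀ η ∈ Icc (0:ℝ) π, 0 ≤ W ξ η)
    (h1 : ∀ ξ ∈ Icc x₁ x₂, ∀ η ∈ Icc (0:ℝ) π, ξ ≤ -A →
      Real.exp lb ≤ Real.exp ξ * Real.sin η → W ξ η = 1) :
    II x₁ x₂ (fun ξ η => 1 - W ξ η) ≤ π * (2 * (max (lb - x₁) 0 + 1) + (x₂ + A)) := by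
  have hπ := Real.pi_pos
  have hf : CH x₁ x₂ π (fun ξ η => 1 - W ξ η) := (CH_const 1).sub hW
  have hfξ : ∀ ξ ∈ Icc x₁ x₂, ContinuousOn (fun η => 1 - W ξ η) (Icc 0 π) := fun ξ hξ =>
    ContinuousOn.comp (f := fun η : ℝ => (ξ, η)) (g := fun p : ℝ × ℝ => 1 - W p.1 p.2) hf
      (by fun_prop) (fun η hη => ⟨hξ, hη⟩)
  set F : ℝ → ℝ := fun ξ => ∫ η in (0:ℝ)..π, (1 - W ξ η) with hF
  have hFi : IntegrableOn F (Icc x₁ x₂) := by
    have h2 := hf.integrableOn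
    have h3 : IntegrableOn (fun p : ℝ × ℝ => 1 - W p.1 p.2) (Icc x₁ x₂ ×ˢ Icc 0 π)
        (volume.prod volume) := h2
    rw [IntegrableOn, ← Measure.prod_restrict] at h3
    have h4 := h3.integral_prod_left
    have h5 : (fun ξ => ∫ η in Icc (0:ℝ) π, (1 - W ξ η)) = F := by
      funext ξ
      rw [hF]
      simp only
      rw [intervalIntegral.integral_of_le hπ.le, ← integral_Icc_eq_integral_Ioc]
    rw [← h5]
    exact h4
  have hFI : ∀ a b : ℝ, x₁ ≤ a → a ≤ b → b ≤ x₂ → IntervalIntegrable F volume a b := by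
    intro a b ha hab hb
    rw [intervalIntegrable_iff_integrableOn_Icc_of_le hab]
    exact hFi.mono_set (Icc_subset_Icc ha hb)
  have b1 : ∀ ξ ∈ Icc x₁ x₂, F ξ ≤ π := by
    intro ξ hξ
    have h2 := inner (q := 2) (hfξ ξ hξ) (fun η hη => by linarith only [h0 ξ hξ η hη]) (by norm_num)
      (fun η hη hs => absurd (Real.sin_le_one η) (by (clear * - hs; linarith only [hs])))
    have h3 : min (1:ℝ) 2 = 1 := by norm_num
    rw [h3, mul_one] at h2
    exact h2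
  have b2 : ∀ ξ ∈ Icc x₁ x₂, ξ ≤ -A →
      F ξ ≤ π * (2 * Real.exp (-(ξ - lb)) / (1 + Real.exp (-(ξ - lb)))) := by
    intro ξ hξ hξA
    have h2 := inner (q := Real.exp (-(ξ - lb))) (hfξ ξ hξ)
      (fun η hη => by (clear * - h0 hξ hη; linarith only [h0 ξ hξ η hη])) (Real.exp_pos _).le
      (fun η hη hs => by
        have h3 : Real.exp lb ≤ Real.exp ξ * Real.sin η := by
          have h4 : Real.exp lb = Real.exp ξ * Real.exp (-(ξ - lb)) := by
            rw [← Real.exp_add]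
            congr 1
            ring
          rw [h4]
          exact mul_le_mul_of_nonneg_left hs (Real.exp_pos _).le
        rw [h1 ξ hξ η hη hξA h3]
        ring)
    exact h2.trans (mul_le_mul_of_nonneg_left (min_le_log _) hπ.le)
  have hc : Continuous (fun x : ℝ => 2 * Real.exp (-(x - lb)) / (1 + Real.exp (-(x - lb)))) := by
    apply Continuous.div (by fun_prop) (by fun_prop)
    intro x
    positivity
  have hII : II x₁ x₂ (fun ξ η => 1 - W ξ η) = ∫ ξ in x₁..x₂, F ξ := rfl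
  rw [hII]
  have hlog : Real.log (1 + Real.exp (-(x₁ - lb))) ≤ max (lb - x₁) 0 + 1 := by
    have h2 := log_one_add_exp_le (-(x₁ - lb))
    have h3 : -(x₁ - lb) = lb - x₁ := by ring
    rwa [h3] at h2 ⊢
  have hlog0 : 0 ≤ max (lb - x₁) 0 := le_max_right _ _
  rcases le_total x₁ (-A) with hxA | hxA
  · have e1 : ∫ ξ in x₁..x₂, F ξ = (∫ ξ in x₁..(-A), F ξ) + ∫ ξ in (-A)..x₂, F ξ :=
      (intervalIntegral.integral_add_adjacent_intervals (hFI x₁ (-A) le_rfl hxA hA)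
        (hFI (-A) x₂ hxA hA le_rfl)).symm
    have e2 : ∫ ξ in (-A)..x₂, F ξ ≤ π * (x₂ + A) := by
      calc ∫ ξ in (-A)..x₂, F ξ ≤ ∫ _ in (-A)..x₂, π := by
            apply intervalIntegral.integral_mono_on hA (hFI (-A) x₂ hxA hA le_rfl) (by simp)
            intro ξ hξ
            exact b1 ξ ⟨hxA.trans hξ.1, hξ.2⟩
        _ = π * (x₂ + A) := by
            rw [intervalIntegral.integral_const, smul_eq_mul]
            ring
    have e3 : ∫ ξ in x₁..(-A), F ξ ≤ π * (2 * (max (lb - x₁) 0 + 1)) := by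
      calc ∫ ξ in x₁..(-A), F ξ ≤
            ∫ ξ in x₁..(-A), π * (2 * Real.exp (-(ξ - lb)) / (1 + Real.exp (-(ξ - lb)))) := by
            apply intervalIntegral.integral_mono_on hxA (hFI x₁ (-A) le_rfl hxA hA)
              ((continuous_const.mul hc).intervalIntegrable _ _)
            intro ξ hξ
            exact b2 ξ ⟨hξ.1, hξ.2.trans hA⟩ hξ.2
        _ ≤ π * (2 * (max (lb - x₁) 0 + 1)) := by
            rw [intervalIntegral.integral_const_mul, outer_int]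
            apply mul_le_mul_of_nonneg_left _ hπ.le
            have h4 : 0 ≤ Real.log (1 + Real.exp (-(-A - lb))) := by
              apply Real.log_nonneg
              have := Real.exp_pos (-(-A - lb))
              (clear * - this; linarith only [this])
            linarith only [hlog, h4]
    rw [e1]
    have : π * (2 * (max (lb - x₁) 0 + 1) + (x₂ + A)) =
      π * (2 * (max (lb - x₁) 0 + 1)) + π * (x₂ + A) := by ring
    linarith only [e2, e3]
  · calc ∫ ξ in x₁..x₂, F ξ ≤ ∫ _ in x₁..x₂, π := by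
          apply intervalIntegral.integral_mono_on hx (hFI x₁ x₂ le_rfl hx le_rfl) (by simp)
          intro ξ hξ
          exact b1 ξ hξ
      _ = π * (x₂ - x₁) := by
          rw [intervalIntegral.integral_const, smul_eq_mul]
          ring
      _ ≤ π * (2 * (max (lb - x₁) 0 + 1) + (x₂ + A)) := by
          apply mul_le_mul_of_nonneg_left _ hπ.le
          linarith only [hlog0, hxA]

theorem tau_ge {x : ℝ} (h0 : 0 < x) (h1 : x ≤ 1) : x / 4 ≤ tau (Real.exp (-x)) := by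
  have h2 : Real.exp (-x) ≤ 1 - x / 2 := by
    have h3 := Real.add_one_le_exp x
    have h4 : 0 < Real.exp x := Real.exp_pos x
    rw [Real.exp_neg, inv_le_comm₀ h4 (by (clear * - h1; linarith only [h1]))]
    rw [inv_le_iff_one_le_mul₀ (by (clear * - h1; linarith only [h1]))]
    (clear * - h3 h0 h1; nlinarith)
  have h3 : 0 < Real.exp (-x) := Real.exp_pos _
  unfold tau
  rw [le_div_iff₀ (by linarith only [h3])]
  (clear * - h2 h0; nlinarith)

theorem tau_le {x : ℝ} (h0 : 0 < x) (h1 : x ≤ Real.exp (-2)) :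
    tau (Real.exp (-x)) ≤ Real.exp (-2) := by
  have h3 : 0 < Real.exp (-x) := Real.exp_pos _
  have h4 := Real.add_one_le_exp (-x)
  unfold tau
  rw [div_le_iff₀ (by (clear * - h3; linarith))]
  (clear * - h1 h4 h0 h3; nlinarith only [h0, h1, h3, h4])

end Pool.Agent.Helper63.CK

end

section

namespace Pool.Agent.Helper52.EK
end Pool.Agent.Helper52.EK
namespace Pool.Agent.Helper56.EK
end Pool.Agent.Helper56.EK

set_option autoImplicit false

open Complex Set Filter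

open scoped Real Topology

namespace Pool.Agent.Helper73.CK

open Pool.Agent.Helper52.EK

open Pool.Agent.Helper56.EK (bounded_of_zero_outside deriv_zero_left deriv_zero_right)

/-- A smooth step with bounded derivative, zero on the left of `0` and one on the right of `1`. -/
theorem step : ∃ (f f₁ : ℝ → ℝ) (M : ℝ), (∀ t, HasDerivAt f (f₁ t) t) ∧ Continuous f₁ ∧
    (∀ t, 0 ≤ f t ∧ f t ≤ 1) ∧ (∀ t, t ≤ 0 → f t = 0) ∧ (∀ t, 1 ≤ t → f t = 1) ∧
    (∀ t, t ≤ 0 → f₁ t = 0) ∧ (∀ t, 1 ≤ t → f₁ t = 0) ∧ (∀ t, |f₁ t| ≤ M) ∧ 0 ≤ M := by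
  have hs : ContDiff ℝ 1 Real.smoothTransition := Real.smoothTransition.contDiff
  have hd0 : Differentiable ℝ Real.smoothTransition := hs.differentiable (by norm_num)
  have h1 : Continuous (deriv Real.smoothTransition) := hs.continuous_deriv (by norm_num)
  have z0 : ∀ t : ℝ, t < 0 → Real.smoothTransition t = 0 := fun t ht =>
    Real.smoothTransition.zero_of_nonpos ht.le
  have z1 : ∀ t : ℝ, 1 < t → Real.smoothTransition t = 1 := fun t ht =>
    Real.smoothTransition.one_of_one_le ht.le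
  have a0 := deriv_zero_left z0
  have a1 := deriv_zero_right z1
  obtain ⟨M, hM⟩ := bounded_of_zero_outside h1 a0 a1
  refine ⟨Real.smoothTransition, deriv Real.smoothTransition, M, fun t => (hd0 t).hasDerivAt, h1,
    fun t => ⟨Real.smoothTransition.nonneg t, Real.smoothTransition.le_one t⟩,
    fun t ht => Real.smoothTransition.zero_of_nonpos ht,
    fun t ht => Real.smoothTransition.one_of_one_le ht, ?_, ?_, hM, (abs_nonneg _).trans (hM 0)⟩
  · intro t ht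
    rcases ht.lt_or_eq with h | h
    · exact a0 t h
    · subst h
      have : IsLocalMin Real.smoothTransition 0 := by
        refine Filter.Eventually.of_forall fun t => ?_
        rw [Real.smoothTransition.zero]
        exact Real.smoothTransition.nonneg t
      exact this.deriv_eq_zero
  · intro t ht
    rcases ht.lt_or_eq with h | h
    · exact a1 t h
    · subst h
      have : IsLocalMax Real.smoothTransition 1 := by
        refine Filter.Eventually.of_forall fun t => ?_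
        rw [Real.smoothTransition.one_of_one_le le_rfl]
        exact Real.smoothTransition.le_one t
      exact this.deriv_eq_zero

/-- derivative of the logarithm of the norm along a curve -/
theorem hasDerivAt_log_norm {v : ℝ → ℂ} {v' : ℂ} {t : ℝ} (h : HasDerivAt v v' t) (h0 : v t ≠ 0) :
    HasDerivAt (fun t => Real.log ‖v t‖) ((v' / v t).re) t := by
  have hre : HasDerivAt (fun t => (v t).re) v'.re t :=
    (Complex.reCLM.hasFDerivAt.comp_hasDerivAt t h)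
  have him : HasDerivAt (fun t => (v t).im) v'.im t :=
    (Complex.imCLM.hasFDerivAt.comp_hasDerivAt t h)
  have hn : Complex.normSq (v t) ≠ 0 := by simpa [Complex.normSq_eq_zero] using h0
  have h1 : HasDerivAt (fun t => (v t).re * (v t).re + (v t).im * (v t).im)
      (v'.re * (v t).re + (v t).re * v'.re + (v'.im * (v t).im + (v t).im * v'.im)) t :=
    (hre.mul hre).add (him.mul him)
  have h2 : HasDerivAt (fun t => Real.log ((v t).re * (v t).re + (v t).im * (v t).im))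
      ((v'.re * (v t).re + (v t).re * v'.re + (v'.im * (v t).im + (v t).im * v'.im)) /
        ((v t).re * (v t).re + (v t).im * (v t).im)) t :=
    h1.log (by rw [Complex.normSq_apply] at hn; exact hn)
  have h3 := h2.const_mul (1 / 2 : ℝ)
  have e1 : (fun t => Real.log ‖v t‖) =
      fun t => (1 / 2 : ℝ) * Real.log ((v t).re * (v t).re + (v t).im * (v t).im) := by
    funext s
    rw [← Complex.normSq_apply, Complex.normSq_eq_norm_sq, Real.log_pow]
    push_cast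
    ring
  rw [e1]
  refine h3.congr_deriv ?_
  rw [Complex.div_re, Complex.normSq_apply]
  rw [Complex.normSq_apply] at hn
  field_simp
  ring

/-- `|Z + i|²` in the strip coordinate -/
noncomputable def dd (ξ η : ℝ) : ℝ := Real.exp ξ ^ 2 + 2 * Real.exp ξ * Real.sin η + 1

theorem exp_pt (ξ η : ℝ) : Complex.exp (pt ξ η) =
    (Real.exp ξ * Real.cos η : ℝ) + (Real.exp ξ * Real.sin η : ℝ) * I := by
  unfold pt
  rw [Complex.exp_add_mul_I, ← Complex.ofReal_exp, ← Complex.ofReal_cos, ← Complex.ofReal_sin]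
  push_cast
  ring

theorem normSq_add (ξ η : ℝ) : ‖I + Complex.exp (pt ξ η)‖ ^ 2 = dd ξ η := by
  rw [exp_pt, ← Complex.normSq_eq_norm_sq, Complex.normSq_apply]
  simp only [Complex.add_re, Complex.I_re, Complex.ofReal_re, Complex.mul_re, Complex.ofReal_im,
    Complex.add_im, Complex.I_im, Complex.mul_im, dd]
  (clear * -; nlinarith only [Real.sin_sq_add_cos_sq η])

theorem normSq_sub (ξ η : ℝ) : ‖I - Complex.exp (pt ξ η)‖ ^ 2 =
    Real.exp ξ ^ 2 - 2 * Real.exp ξ * Real.sin η + 1 := by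
  rw [exp_pt, ← Complex.normSq_eq_norm_sq, Complex.normSq_apply]
  simp only [Complex.sub_re, Complex.I_re, Complex.ofReal_re, Complex.mul_re, Complex.ofReal_im,
    Complex.sub_im, Complex.I_im, Complex.mul_im, Complex.add_re, Complex.add_im]
  (clear * -; nlinarith only [Real.sin_sq_add_cos_sq η])

theorem dd_ge {ξ η : ℝ} (h : 0 ≤ Real.sin η) : 1 ≤ dd ξ η := by
  unfold dd
  have := Real.exp_pos ξ
  have h1 : 0 ≤ 2 * Real.exp ξ * Real.sin η := by (clear * - h; positivity)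
  nlinarith only [h1]

theorem den_ne {ξ η : ℝ} (h : 0 ≤ Real.sin η) : I + Complex.exp (pt ξ η) ≠ 0 := by
  intro h0
  have h1 := normSq_add ξ η
  rw [h0] at h1
  have h2 := dd_ge (ξ := ξ) h
  simp at h1
  linarith

theorem one_sub_zf {ξ η : ℝ} (h : 0 ≤ Real.sin η) :
    1 - ‖zf (pt ξ η)‖ ^ 2 = 4 * Real.exp ξ * Real.sin η / dd ξ η := by
  have h1 := normSq_add ξ η
  have h2 := normSq_sub ξ η
  have h3 := dd_ge (ξ := ξ) h
  unfold zf
  rw [norm_div, div_pow, h1, h2]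
  have h4 : dd ξ η ≠ 0 := by linarith only [h3]
  field_simp
  unfold dd
  ring

theorem zf_sub_one {ξ η : ℝ} (h : 0 ≤ Real.sin η) :
    zf (pt ξ η) - 1 = -2 * Complex.exp (pt ξ η) / (I + Complex.exp (pt ξ η)) := by
  unfold zf
  have := den_ne (ξ := ξ) h
  field_simp
  ring

theorem norm_exp_pt (ξ η : ℝ) : ‖Complex.exp (pt ξ η)‖ = Real.exp ξ := by
  rw [Complex.norm_exp]
  simp [pt]

theorem norm_den_ge {ξ η : ℝ} (h : 0 ≤ Real.sin η) : 1 ≤ ‖I + Complex.exp (pt ξ η)‖ := by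
  have h1 := normSq_add ξ η
  have h2 := dd_ge (ξ := ξ) h
  have h3 := norm_nonneg (I + Complex.exp (pt ξ η))
  nlinarith only [h1, h2, h3]

theorem norm_zf_sub_one {ξ η : ℝ} (h : 0 ≤ Real.sin η) :
    ‖zf (pt ξ η) - 1‖ = 2 * Real.exp ξ / ‖I + Complex.exp (pt ξ η)‖ := by
  rw [zf_sub_one h, norm_div, norm_mul, norm_exp_pt]
  norm_num

theorem norm_zd_le {ξ η : ℝ} (h : 0 ≤ Real.sin η) :
    ‖zd (pt ξ η)‖ ≤ ‖zf (pt ξ η) - 1‖ := by
  rw [norm_zf_sub_one h]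
  unfold zd
  have h1 := norm_den_ge (ξ := ξ) h
  rw [norm_div, norm_mul, norm_exp_pt, norm_pow, add_comm (Complex.exp (pt ξ η)) I]
  have h2 : ‖(-2 * I : ℂ)‖ = 2 := by simp
  rw [h2]
  have h3 := Real.exp_pos ξ
  rw [div_le_div_iff₀ (by positivity) (by positivity)]
  (clear * - h3 h1; linarith only [mul_nonneg (mul_nonneg (by norm_num : (0:ℝ) ≤ 2) h3.le) (mul_nonneg (norm_nonneg (I + Complex.exp (pt ξ η))) (sub_nonneg.2 h1))])

theorem hasDerivAt_zf {ξ η : ℝ} (h : 0 ≤ Real.sin η) : HasDerivAt zf (zd (pt ξ η)) (pt ξ η) := by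
  have h0 := den_ne (ξ := ξ) h
  have h1 : HasDerivAt (fun ω : ℂ => I - Complex.exp ω) (-Complex.exp (pt ξ η)) (pt ξ η) :=
    (Complex.hasDerivAt_exp _).const_sub I
  have h2 : HasDerivAt (fun ω : ℂ => I + Complex.exp ω) (Complex.exp (pt ξ η)) (pt ξ η) :=
    (Complex.hasDerivAt_exp _).const_add I
  have h3 := h1.div h2 h0
  have h4 : zd (pt ξ η) = (-Complex.exp (pt ξ η) * (I + Complex.exp (pt ξ η)) -
      (I - Complex.exp (pt ξ η)) * Complex.exp (pt ξ η)) / (I + Complex.exp (pt ξ η)) ^ 2 := by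
    unfold zd
    rw [add_comm (Complex.exp (pt ξ η)) I]
    congr 1
    ring
  rw [h4]
  exact h3

theorem hasDerivAt_pt_xi (ξ η : ℝ) : HasDerivAt (fun ξ : ℝ => pt ξ η) 1 ξ := by
  unfold pt
  exact (Complex.ofRealCLM.hasDerivAt (x := ξ)).add_const _

theorem hasDerivAt_pt_eta (ξ η : ℝ) : HasDerivAt (fun η : ℝ => pt ξ η) I η := by
  unfold pt
  have h := ((Complex.ofRealCLM.hasDerivAt (x := η)).mul_const I).const_add (ξ : ℂ)
  simpa using h

end Pool.Agent.Helper73.CK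

end

section

namespace Pool.Agent.Helper52.EK
end Pool.Agent.Helper52.EK

set_option autoImplicit false

open Complex Set Filter

open scoped Real Topology

namespace Pool.Agent.Helper73.CK

open Pool.Agent.Helper52.EK

/-- first argument -/
noncomputable def ar1 (w n : ℝ) (y : ℝ) : ℝ :=
  (Real.log (max y (Real.exp (-n))) + n - Real.log 8) / w

/-- second argument -/
noncomputable def ar2 (k : ℝ) (r : ℝ) : ℝ := (-k - Real.log r) / k

noncomputable def W0 (f : ℝ → ℝ) (k w n : ℝ) (z : ℂ) : ℝ :=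
  f (ar1 w n (1 - ‖z‖ ^ 2)) * f (ar2 k ‖z - 1‖)

theorem ar1_cont (w n : ℝ) : Continuous (ar1 w n) := by
  unfold ar1
  have h : Continuous fun y : ℝ => Real.log (max y (Real.exp (-n))) := by
    rw [continuous_iff_continuousAt]
    intro y
    apply ContinuousAt.log
    · exact (continuous_id.max continuous_const).continuousAt
    · exact ne_of_gt (lt_of_lt_of_le (Real.exp_pos _) (le_max_right _ _))
  exact ((h.add continuous_const).sub continuous_const).div_const w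

theorem ar1_nonpos {w n y : ℝ} (hw : 0 < w) (hy : y ≤ 8 * Real.exp (-n)) : ar1 w n y ≤ 0 := by
  unfold ar1
  apply div_nonpos_of_nonpos_of_nonneg _ hw.le
  have h1 : max y (Real.exp (-n)) ≤ 8 * Real.exp (-n) :=
    max_le hy (by (clear * -; linarith only [Real.exp_pos (-n)]))
  have h2 : Real.log (max y (Real.exp (-n))) ≤ Real.log (8 * Real.exp (-n)) :=
    Real.log_le_log (lt_of_lt_of_le (Real.exp_pos _) (le_max_right _ _)) h1
  rw [Real.log_mul (by norm_num) (Real.exp_pos _).ne', Real.log_exp] at h2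
  (clear * - h2; linarith)

theorem ar1_ge_one {w n y : ℝ} (hw : 0 < w) (hy : 8 * Real.exp (-(n - w)) ≤ y) :
    1 ≤ ar1 w n y := by
  unfold ar1
  rw [le_div_iff₀ hw]
  have h1 : 8 * Real.exp (-(n - w)) ≤ max y (Real.exp (-n)) := hy.trans (le_max_left _ _)
  have h2 : Real.log (8 * Real.exp (-(n - w))) ≤ Real.log (max y (Real.exp (-n))) :=
    Real.log_le_log (by positivity) h1
  rw [Real.log_mul (by norm_num) (Real.exp_pos _).ne', Real.log_exp] at h2
  linarith only [h2]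

theorem ar2_nonpos {k r : ℝ} (hk : 0 < k) (hr : Real.exp (-k) ≤ r) : ar2 k r ≤ 0 := by
  unfold ar2
  apply div_nonpos_of_nonpos_of_nonneg _ hk.le
  have h2 := Real.log_le_log (Real.exp_pos _) hr
  rw [Real.log_exp] at h2
  linarith

theorem ar2_ge_one {k r : ℝ} (hk : 0 < k) (hr0 : 0 < r) (hr : r ≤ Real.exp (-(2 * k))) :
    1 ≤ ar2 k r := by
  unfold ar2
  rw [le_div_iff₀ hk]
  have h2 := Real.log_le_log hr0 hr
  rw [Real.log_exp] at h2
  linarith only [h2]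

variable {f f₁ : ℝ → ℝ} {M : ℝ}

/-- the properties of the step -/
structure Stp (f f₁ : ℝ → ℝ) (M : ℝ) : Prop where
  d : ∀ t, HasDerivAt f (f₁ t) t
  c : Continuous f₁
  b : ∀ t, 0 ≤ f t ∧ f t ≤ 1
  z : ∀ t, t ≤ 0 → f t = 0
  o : ∀ t, 1 ≤ t → f t = 1
  z1 : ∀ t, t ≤ 0 → f₁ t = 0
  o1 : ∀ t, 1 ≤ t → f₁ t = 0
  m : ∀ t, |f₁ t| ≤ M
  m0 : 0 ≤ M

theorem exists_stp : ∃ (f f₁ : ℝ → ℝ) (M : ℝ), Stp f f₁ M := by
  obtain ⟨f, f₁, M, a1, a2, a3, a4, a5, a6, a7, a8, a9⟩ := step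
  exact ⟨f, f₁, M, ⟨a1, a2, a3, a4, a5, a6, a7, a8, a9⟩⟩

theorem Stp.cf (h : Stp f f₁ M) : Continuous f :=
  continuous_iff_continuousAt.2 fun t => (h.d t).continuousAt

theorem W0_bd (h : Stp f f₁ M) (k w n : ℝ) (z : ℂ) : 0 ≤ W0 f k w n z ∧ W0 f k w n z ≤ 1 := by
  have h1 := h.b (ar1 w n (1 - ‖z‖ ^ 2))
  have h2 := h.b (ar2 k ‖z - 1‖)
  exact ⟨mul_nonneg h1.1 h2.1, mul_le_one₀ h1.2 h2.1 h2.2⟩

theorem W0_zero1 (h : Stp f f₁ M) {k w n : ℝ} (hw : 0 < w) {z : ℂ}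
    (hz : 1 - ‖z‖ ^ 2 ≤ 8 * Real.exp (-n)) : W0 f k w n z = 0 := by
  unfold W0
  rw [h.z _ (ar1_nonpos hw hz), zero_mul]

theorem W0_zero2 (h : Stp f f₁ M) {k w n : ℝ} (hk : 0 < k) {z : ℂ}
    (hz : Real.exp (-k) ≤ ‖z - 1‖) : W0 f k w n z = 0 := by
  unfold W0
  rw [h.z _ (ar2_nonpos hk hz), mul_zero]

theorem W0_one (h : Stp f f₁ M) {k w n : ℝ} (hk : 0 < k) (hw : 0 < w) {z : ℂ}
    (h1 : 8 * Real.exp (-(n - w)) ≤ 1 - ‖z‖ ^ 2) (h2 : ‖z - 1‖ ≤ Real.exp (-(2 * k))) :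
    W0 f k w n z = 1 := by
  have h3 : 0 < ‖z - 1‖ := by
    rw [norm_pos_iff]
    intro h0
    rw [sub_eq_zero] at h0
    subst h0
    have h5 := Real.exp_pos (-(n - w))
    rw [norm_one, one_pow, sub_self] at h1
    (clear * - h1 h5; linarith only [h1, h5])
  unfold W0
  rw [h.o _ (ar1_ge_one hw h1), h.o _ (ar2_ge_one hk h3 h2), mul_one]

theorem W0_cont (h : Stp f f₁ M) (k : ℝ) {w : ℝ} (n : ℝ) (hw : 0 < w) :
    Continuous (W0 f k w n) := by
  rw [continuous_iff_continuousAt]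
  intro z
  have c1 : Continuous fun z : ℂ => f (ar1 w n (1 - ‖z‖ ^ 2)) :=
    h.cf.comp ((ar1_cont w n).comp (by fun_prop))
  by_cases hz : z = 1
  · have h1 : ∀ᶠ z' : ℂ in 𝓝 z, 1 - ‖z'‖ ^ 2 < 8 * Real.exp (-n) := by
      have h2 : ContinuousAt (fun z' : ℂ => 1 - ‖z'‖ ^ 2) z := by fun_prop
      apply h2.eventually_lt_const
      rw [hz]
      simp only [norm_one, one_pow, sub_self]
      positivity
    have h3 : W0 f k w n =ᶠ[𝓝 z] fun _ => 0 := by
      filter_upwards [h1] with z' hz'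
      exact W0_zero1 h hw hz'.le
    exact (continuousAt_const).congr h3.symm
  · have c2 : ContinuousAt (fun z : ℂ => f (ar2 k ‖z - 1‖)) z := by
      apply h.cf.continuousAt.comp
      unfold ar2
      apply ContinuousAt.div_const
      apply ContinuousAt.sub continuousAt_const
      apply ContinuousAt.log
      · fun_prop
      · exact norm_ne_zero_iff.2 (sub_ne_zero.2 hz)
    exact c1.continuousAt.mul c2

noncomputable def yy (ξ η : ℝ) : ℝ := 1 - ‖zf (pt ξ η)‖ ^ 2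

noncomputable def D1 (ξ η : ℝ) : ℝ :=
  1 - 2 * (Real.exp ξ ^ 2 + Real.exp ξ * Real.sin η) / dd ξ η

noncomputable def D2 (ξ η : ℝ) : ℝ :=
  Real.cos η / Real.sin η - 2 * Real.exp ξ * Real.cos η / dd ξ η

theorem abs_D1 {ξ η : ℝ} (h : 0 ≤ Real.sin η) : |D1 ξ η| ≤ 1 := by
  have h1 := dd_ge (ξ := ξ) h
  have h2 := Real.exp_pos ξ
  have h3 : 0 ≤ Real.exp ξ * Real.sin η := by (clear * - h; positivity)
  unfold D1
  have h4 : 0 ≤ 2 * (Real.exp ξ ^ 2 + Real.exp ξ * Real.sin η) / dd ξ η := by (clear * - h h1; positivity)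
  have h5 : 2 * (Real.exp ξ ^ 2 + Real.exp ξ * Real.sin η) / dd ξ η ≤ 2 := by
    rw [div_le_iff₀ (by linarith only [h1])]
    unfold dd
    (clear * - h3; linarith only [h3])
  rw [abs_le]
  constructor <;> linarith only [h5, h4]

theorem abs_D2 {ξ η : ℝ} (h : 0 ≤ Real.sin η) : |D2 ξ η| * Real.sin η ≤ 1 := by
  have h1 := dd_ge (ξ := ξ) h
  have h2 := Real.exp_pos ξ
  rcases h.eq_or_lt with h0 | h0
  · rw [← h0]; simp
  · have h3 : 0 ≤ Real.exp ξ * Real.sin η := by positivity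
    have e : |D2 ξ η| * Real.sin η =
        |Real.cos η| * |1 - 2 * Real.exp ξ * Real.sin η / dd ξ η| := by
      rw [← abs_of_pos h0, ← abs_mul, ← abs_mul, abs_of_pos h0]
      congr 1
      unfold D2
      field_simp
    rw [e]
    have h4 : 0 ≤ 2 * Real.exp ξ * Real.sin η / dd ξ η := by (clear * - h0 h1; positivity)
    have h5 : 2 * Real.exp ξ * Real.sin η / dd ξ η ≤ 1 := by
      rw [div_le_iff₀ (by linarith only [h1])]
      unfold dd
      (clear * -; nlinarith only [])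
    have h6 : |1 - 2 * Real.exp ξ * Real.sin η / dd ξ η| ≤ 1 := by
      rw [abs_le]; constructor <;> linarith only [h5, h4]
    have h7 := Real.abs_cos_le_one η
    exact mul_le_one₀ h7 (abs_nonneg _) h6

theorem sin_pos_of_yy {ξ η : ℝ} (h : 0 ≤ Real.sin η) (hy : 0 < yy ξ η) : 0 < Real.sin η := by
  rcases h.eq_or_lt with h0 | h0
  · unfold yy at hy
    rw [one_sub_zf h, ← h0] at hy
    simp at hy
  · exact h0

theorem log_yy {ξ η : ℝ} (h : 0 < Real.sin η) :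
    Real.log (yy ξ η) = Real.log 4 + ξ + Real.log (Real.sin η) - Real.log (dd ξ η) := by
  have h1 := dd_ge (ξ := ξ) h.le
  have h2 := Real.exp_pos ξ
  unfold yy
  rw [one_sub_zf h.le, Real.log_div (by (clear * - h; positivity)) (by (clear * - h1; linarith only [h1])), Real.log_mul (by positivity)
    h.ne', Real.log_mul (by norm_num) h2.ne', Real.log_exp]

theorem hasDerivAt_dd_xi (ξ η : ℝ) : HasDerivAt (fun ξ => dd ξ η)
    (2 * (Real.exp ξ ^ 2 + Real.exp ξ * Real.sin η)) ξ := by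
  unfold dd
  have h1 := (((Real.hasDerivAt_exp ξ).pow 2).add
    (((Real.hasDerivAt_exp ξ).const_mul 2).mul_const (Real.sin η))).add_const 1
  refine h1.congr_deriv ?_
  push_cast
  ring

theorem hasDerivAt_dd_eta (ξ η : ℝ) : HasDerivAt (fun η => dd ξ η)
    (2 * Real.exp ξ * Real.cos η) η := by
  unfold dd
  have h1 := ((((Real.hasDerivAt_sin η).const_mul (2 * Real.exp ξ)).const_add
    (Real.exp ξ ^ 2))).add_const 1
  exact h1

theorem hasDerivAt_logyy_xi {ξ η : ℝ} (h : 0 < Real.sin η) :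
    HasDerivAt (fun ξ => Real.log (yy ξ η)) (D1 ξ η) ξ := by
  have h1 := dd_ge (ξ := ξ) h.le
  have e : (fun ξ => Real.log (yy ξ η)) =
      fun ξ => Real.log 4 + ξ + Real.log (Real.sin η) - Real.log (dd ξ η) := by
    funext t
    exact log_yy h
  rw [e]
  have h2 := (((hasDerivAt_id ξ).const_add (Real.log 4)).add_const (Real.log (Real.sin η))).sub
    ((hasDerivAt_dd_xi ξ η).log (by (clear * - h1; linarith)))
  exact h2

theorem hasDerivAt_logyy_eta {ξ η : ℝ} (h : 0 < Real.sin η) :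
    HasDerivAt (fun η => Real.log (yy ξ η)) (D2 ξ η) η := by
  have h1 := dd_ge (ξ := ξ) h.le
  have e : (fun η => Real.log (yy ξ η)) =ᶠ[𝓝 η]
      fun η => Real.log 4 + ξ + Real.log (Real.sin η) - Real.log (dd ξ η) := by
    have h3 : ∀ᶠ t in 𝓝 η, 0 < Real.sin t :=
      Real.continuous_sin.continuousAt.eventually_const_lt h
    filter_upwards [h3] with t ht
    exact log_yy ht
  have h2 := (((Real.hasDerivAt_sin η).log h.ne').const_add (Real.log 4 + ξ)).sub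
    ((hasDerivAt_dd_eta ξ η).log (by linarith only [h1]))
  exact h2.congr_of_eventuallyEq e

/-- continuity of `zf ∘ pt` at the points of the closed strip -/
theorem contAt_zf {ξ η : ℝ} (h : 0 ≤ Real.sin η) :
    ContinuousAt (fun p : ℝ × ℝ => zf (pt p.1 p.2)) (ξ, η) := by
  have h1 : ContinuousAt (fun p : ℝ × ℝ => pt p.1 p.2) (ξ, η) := by
    unfold pt
    fun_prop
  exact ContinuousAt.comp (f := fun p : ℝ × ℝ => pt p.1 p.2) (g := zf)
    (hasDerivAt_zf h).continuousAt h1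

theorem contAt_yy {ξ η : ℝ} (h : 0 ≤ Real.sin η) :
    ContinuousAt (fun p : ℝ × ℝ => yy p.1 p.2) (ξ, η) := by
  unfold yy
  exact continuousAt_const.sub ((contAt_zf h).norm.pow 2)

theorem yy_le {ξ η : ℝ} (h : 0 ≤ Real.sin η) : yy ξ η ≤ 4 * Real.exp ξ := by
  have h1 := dd_ge (ξ := ξ) h
  have h2 := Real.exp_pos ξ
  unfold yy
  rw [one_sub_zf h, div_le_iff₀ (by (clear * - h1; linarith))]
  have h3 := Real.sin_le_one η
  (clear * - h1 h2 h3; nlinarith only [h1, h2, h3])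

theorem yy_ge {ξ η : ℝ} (h : 0 ≤ Real.sin η) (hξ : ξ ≤ -1) :
    2 * Real.exp ξ * Real.sin η ≤ yy ξ η := by
  have h1 := dd_ge (ξ := ξ) h
  have h2 := Real.exp_pos ξ
  have h3 := Real.sin_le_one η
  have h4 : Real.exp ξ ≤ 0.4 := by
    have := Real.exp_le_exp.2 hξ
    have h9 : Real.exp (-1) < 0.3678794412 := Real.exp_neg_one_lt_d9
    (clear * - this h9; linarith only [this, h9])
  have h5 : dd ξ η ≤ 2 := by
    unfold dd
    (clear * - h2 h4 h3; nlinarith only [h2, h3, h4])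
  unfold yy
  rw [one_sub_zf h, le_div_iff₀ (by linarith only [h1])]
  have h6 : 0 ≤ Real.exp ξ * Real.sin η := by positivity
  (clear * - h5 h6; nlinarith only [h5, h6])

theorem zf_lt_one {ξ η : ℝ} (hy : 0 < yy ξ η) : ‖zf (pt ξ η)‖ < 1 := by
  unfold yy at hy
  have := norm_nonneg (zf (pt ξ η))
  (clear * - hy; nlinarith only [hy])

end Pool.Agent.Helper73.CK

end

section

namespace Pool.Agent.Helper52.EK
end Pool.Agent.Helper52.EK

set_option autoImplicit false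

open Complex Set Filter

open scoped Real Topology

namespace Pool.Agent.Helper73.CK

open Pool.Agent.Helper52.EK

variable {f f₁ : ℝ → ℝ} {M : ℝ}

/-- the second distance -/
noncomputable def vv (ζ : ℂ) (ξ η : ℝ) : ℂ := ζ * zf (pt ξ η) - 1

noncomputable def E1 (ζ : ℂ) (ξ η : ℝ) : ℝ := (ζ * zd (pt ξ η) / vv ζ ξ η).re

noncomputable def E2 (ζ : ℂ) (ξ η : ℝ) : ℝ := (ζ * (zd (pt ξ η) * I) / vv ζ ξ η).re

/-- the weight -/
noncomputable def Om (f : ℝ → ℝ) (k w n : ℝ) (ζ : ℂ) (ξ η : ℝ) : ℝ :=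
  f (ar1 w n (yy ξ η)) * f (ar2 k ‖vv ζ ξ η‖)

noncomputable def Om1 (f f₁ : ℝ → ℝ) (k w n : ℝ) (ζ : ℂ) (ξ η : ℝ) : ℝ :=
  f₁ (ar1 w n (yy ξ η)) * (D1 ξ η / w) * f (ar2 k ‖vv ζ ξ η‖) +
    f (ar1 w n (yy ξ η)) * (f₁ (ar2 k ‖vv ζ ξ η‖) * (-E1 ζ ξ η / k))

noncomputable def Om2 (f f₁ : ℝ → ℝ) (k w n : ℝ) (ζ : ℂ) (ξ η : ℝ) : ℝ :=
  f₁ (ar1 w n (yy ξ η)) * (D2 ξ η / w) * f (ar2 k ‖vv ζ ξ η‖) +
    f (ar1 w n (yy ξ η)) * (f₁ (ar2 k ‖vv ζ ξ η‖) * (-E2 ζ ξ η / k))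

theorem Om_eq (f : ℝ → ℝ) (k w n : ℝ) {ζ : ℂ} (hζ : ‖ζ‖ = 1) (ξ η : ℝ) :
    W0 f k w n (ζ * zf (pt ξ η)) = Om f k w n ζ ξ η := by
  unfold W0 Om yy vv
  rw [norm_mul, hζ, one_mul]

theorem sin_nn {η : ℝ} (hη : η ∈ Icc (0:ℝ) π) : 0 ≤ Real.sin η :=
  Real.sin_nonneg_of_nonneg_of_le_pi hη.1 hη.2

theorem Om_zero (h : Stp f f₁ M) {k w n : ℝ} (hw : 0 < w) (ζ : ℂ) {ξ η : ℝ}
    (hy : yy ξ η ≤ 8 * Real.exp (-n)) : Om f k w n ζ ξ η = 0 := by
  unfold Om
  rw [h.z _ (ar1_nonpos hw hy), zero_mul]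

theorem Om1_zero (h : Stp f f₁ M) {k w n : ℝ} (hw : 0 < w) (ζ : ℂ) {ξ η : ℝ}
    (hy : yy ξ η ≤ 8 * Real.exp (-n)) : Om1 f f₁ k w n ζ ξ η = 0 := by
  unfold Om1
  rw [h.z _ (ar1_nonpos hw hy), h.z1 _ (ar1_nonpos hw hy)]
  ring

theorem Om2_zero (h : Stp f f₁ M) {k w n : ℝ} (hw : 0 < w) (ζ : ℂ) {ξ η : ℝ}
    (hy : yy ξ η ≤ 8 * Real.exp (-n)) : Om2 f f₁ k w n ζ ξ η = 0 := by
  unfold Om2
  rw [h.z _ (ar1_nonpos hw hy), h.z1 _ (ar1_nonpos hw hy)]
  ring

theorem vv_ne {ζ : ℂ} (hζ : ‖ζ‖ = 1) {ξ η : ℝ} (hy : 0 < yy ξ η) : vv ζ ξ η ≠ 0 := by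
  intro h0
  unfold vv at h0
  rw [sub_eq_zero] at h0
  have h1 : ‖ζ * zf (pt ξ η)‖ = 1 := by rw [h0, norm_one]
  rw [norm_mul, hζ, one_mul] at h1
  have := zf_lt_one hy
  (clear * - h1 this; linarith)

/-- continuity of `yy` along the two directions -/
theorem contAt_yy1 {ξ η : ℝ} (h : 0 ≤ Real.sin η) : ContinuousAt (fun t => yy t η) ξ :=
  ContinuousAt.comp (f := fun t : ℝ => (t, η)) (g := fun p : ℝ × ℝ => yy p.1 p.2)
    (contAt_yy h) (by fun_prop)

theorem contAt_yy2 {ξ η : ℝ} (h : 0 ≤ Real.sin η) : ContinuousAt (fun t => yy ξ t) η :=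
  ContinuousAt.comp (f := fun t : ℝ => (ξ, t)) (g := fun p : ℝ × ℝ => yy p.1 p.2)
    (contAt_yy h) (by fun_prop)

theorem ar1_eq {w n y : ℝ} (hy : Real.exp (-n) ≤ y) :
    ar1 w n y = (Real.log y + n - Real.log 8) / w := by
  unfold ar1
  rw [max_eq_left hy]

/-- derivative of the first factor -/
theorem der1 (h : Stp f f₁ M) {w n : ℝ} {g : ℝ → ℝ} {t g' : ℝ}
    (hy : 8 * Real.exp (-n) ≤ g t) (hg : ContinuousAt g t)
    (hd : HasDerivAt (fun s => Real.log (g s)) g' t) :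
    HasDerivAt (fun s => f (ar1 w n (g s))) (f₁ (ar1 w n (g t)) * (g' / w)) t := by
  have h0 : Real.exp (-n) < g t := by (clear * - hy; linarith only [Real.exp_pos (-n), hy])
  have h1 : ∀ᶠ s in 𝓝 t, Real.exp (-n) < g s := hg.eventually_const_lt h0
  have h2 : HasDerivAt (fun s => (Real.log (g s) + n - Real.log 8) / w) (g' / w) t :=
    ((hd.add_const n).sub_const (Real.log 8)).div_const w
  have h3 : (fun s => ar1 w n (g s)) =ᶠ[𝓝 t] fun s => (Real.log (g s) + n - Real.log 8) / w := by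
    filter_upwards [h1] with s hs
    exact ar1_eq hs.le
  have h4 := h2.congr_of_eventuallyEq h3
  exact (h.d _).comp t h4

/-- derivative of the second factor -/
theorem der2 (h : Stp f f₁ M) {k : ℝ} {v : ℝ → ℂ} {v' : ℂ} {t : ℝ} (hv : HasDerivAt v v' t)
    (h0 : v t ≠ 0) :
    HasDerivAt (fun s => f (ar2 k ‖v s‖)) (f₁ (ar2 k ‖v t‖) * (-(v' / v t).re / k)) t := by
  have h1 : HasDerivAt (fun s => ar2 k ‖v s‖) (-(v' / v t).re / k) t := by
    unfold ar2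
    exact ((hasDerivAt_log_norm hv h0).const_sub (-k)).div_const k
  exact (h.d _).comp t h1

theorem hasDerivAt_vv_xi {ζ : ℂ} {ξ η : ℝ} (h : 0 ≤ Real.sin η) :
    HasDerivAt (fun t => vv ζ t η) (ζ * zd (pt ξ η)) ξ := by
  unfold vv
  have h0 := hasDerivAt_zf (ξ := ξ) h
  have h1 : HasDerivAt (fun t : ℝ => zf (pt t η)) (zd (pt ξ η) * 1) ξ :=
    HasDerivAt.comp (h₂ := zf) (h := fun t : ℝ => pt t η) ξ h0 (hasDerivAt_pt_xi ξ η)
  rw [mul_one] at h1
  exact (h1.const_mul ζ).sub_const 1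

theorem hasDerivAt_vv_eta {ζ : ℂ} {ξ η : ℝ} (h : 0 ≤ Real.sin η) :
    HasDerivAt (fun t => vv ζ ξ t) (ζ * (zd (pt ξ η) * I)) η := by
  unfold vv
  have h0 := hasDerivAt_zf (ξ := ξ) h
  have h1 : HasDerivAt (fun t : ℝ => zf (pt ξ t)) (zd (pt ξ η) * I) η :=
    HasDerivAt.comp (h₂ := zf) (h := fun t : ℝ => pt ξ t) η h0 (hasDerivAt_pt_eta ξ η)
  exact (h1.const_mul ζ).sub_const 1

theorem Om_d1 (h : Stp f f₁ M) {k w n : ℝ} (hw : 0 < w) {ζ : ℂ} (hζ : ‖ζ‖ = 1) {ξ η : ℝ}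
    (hs : 0 ≤ Real.sin η) :
    HasDerivAt (fun t => Om f k w n ζ t η) (Om1 f f₁ k w n ζ ξ η) ξ := by
  have hn := Real.exp_pos (-n)
  rcases lt_or_ge (yy ξ η) (8 * Real.exp (-n)) with hy | hy
  · rw [Om1_zero h hw ζ hy.le]
    have h1 : ∀ᶠ t in 𝓝 ξ, yy t η < 8 * Real.exp (-n) :=
      (contAt_yy1 hs).eventually_lt_const hy
    have h2 : (fun t => Om f k w n ζ t η) =ᶠ[𝓝 ξ] fun _ => 0 := by
      filter_upwards [h1] with t ht
      exact Om_zero h hw ζ ht.le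
    exact (hasDerivAt_const ξ (0:ℝ)).congr_of_eventuallyEq h2
  · have hy0 : 0 < yy ξ η := by (clear * - hn hy; linarith)
    have hsp := sin_pos_of_yy hs hy0
    have a := der1 (w := w) (g := fun t => yy t η) h hy (contAt_yy1 hs) (hasDerivAt_logyy_xi hsp)
    have b := der2 (k := k) h (hasDerivAt_vv_xi (ζ := ζ) (ξ := ξ) hs) (vv_ne hζ hy0)
    exact a.mul b

theorem Om_d2 (h : Stp f f₁ M) {k w n : ℝ} (hw : 0 < w) {ζ : ℂ} (hζ : ‖ζ‖ = 1) {ξ η : ℝ}
    (hs : 0 ≤ Real.sin η) :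
    HasDerivAt (fun t => Om f k w n ζ ξ t) (Om2 f f₁ k w n ζ ξ η) η := by
  have hn := Real.exp_pos (-n)
  rcases lt_or_ge (yy ξ η) (8 * Real.exp (-n)) with hy | hy
  · rw [Om2_zero h hw ζ hy.le]
    have h1 : ∀ᶠ t in 𝓝 η, yy ξ t < 8 * Real.exp (-n) :=
      (contAt_yy2 hs).eventually_lt_const hy
    have h2 : (fun t => Om f k w n ζ ξ t) =ᶠ[𝓝 η] fun _ => 0 := by
      filter_upwards [h1] with t ht
      exact Om_zero h hw ζ ht.le
    exact (hasDerivAt_const η (0:ℝ)).congr_of_eventuallyEq h2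
  · have hy0 : 0 < yy ξ η := by linarith only [hn, hy]
    have hsp := sin_pos_of_yy hs hy0
    have a := der1 (w := w) (g := fun t => yy ξ t) h hy (contAt_yy2 hs) (hasDerivAt_logyy_eta hsp)
    have b := der2 (k := k) h (hasDerivAt_vv_eta (ζ := ζ) (ξ := ξ) hs) (vv_ne hζ hy0)
    exact a.mul b

theorem E_bd {ζ : ℂ} (hζ : ‖ζ‖ = 1) {s k : ℝ} (hs1 : ‖ζ - 1‖ ≤ s) (hsk : s ≤ Real.exp (-(2 * k)))
    {ξ η : ℝ} (hs : 0 ≤ Real.sin η) (hv : Real.exp (-(2 * k)) ≤ ‖vv ζ ξ η‖) (u : ℂ)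
    (hu : ‖u‖ = 1) : |(ζ * (zd (pt ξ η) * u) / vv ζ ξ η).re| ≤ 2 := by
  have h0 : 0 < ‖vv ζ ξ η‖ := lt_of_lt_of_le (Real.exp_pos _) hv
  refine (Complex.abs_re_le_norm _).trans ?_
  rw [norm_div, norm_mul, norm_mul, hζ, hu, one_mul, mul_one, div_le_iff₀ h0]
  have h1 := norm_zd_le (ξ := ξ) hs
  have h2 : zf (pt ξ η) - 1 = ζ⁻¹ * (vv ζ ξ η - (ζ - 1)) := by
    have hz : ζ ≠ 0 := by
      intro h3
      rw [h3] at hζ
      simp at hζ
    unfold vv
    field_simp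
    ring
  have h3 : ‖zf (pt ξ η) - 1‖ ≤ ‖vv ζ ξ η‖ + s := by
    rw [h2, norm_mul, norm_inv, hζ, inv_one, one_mul]
    exact (norm_sub_le _ _).trans (by linarith only [hs1])
  linarith only [hsk, hv, h1, h3]

theorem E1_bd {ζ : ℂ} (hζ : ‖ζ‖ = 1) {s k : ℝ} (hs1 : ‖ζ - 1‖ ≤ s)
    (hsk : s ≤ Real.exp (-(2 * k))) {ξ η : ℝ} (hs : 0 ≤ Real.sin η)
    (hv : Real.exp (-(2 * k)) ≤ ‖vv ζ ξ η‖) : |E1 ζ ξ η| ≤ 2 := by
  have := E_bd hζ hs1 hsk hs hv 1 (by simp)
  rwa [mul_one] at this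

theorem E2_bd {ζ : ℂ} (hζ : ‖ζ‖ = 1) {s k : ℝ} (hs1 : ‖ζ - 1‖ ≤ s)
    (hsk : s ≤ Real.exp (-(2 * k))) {ξ η : ℝ} (hs : 0 ≤ Real.sin η)
    (hv : Real.exp (-(2 * k)) ≤ ‖vv ζ ξ η‖) : |E2 ζ ξ η| ≤ 2 :=
  E_bd hζ hs1 hsk hs hv I (by simp)

theorem abs_f (h : Stp f f₁ M) (t : ℝ) : |f t| ≤ 1 := by
  rw [abs_of_nonneg (h.b t).1]
  exact (h.b t).2

theorem second_bd (h : Stp f f₁ M) {k : ℝ} (hk : 0 < k) {r e : ℝ} (hr0 : 0 ≤ r)
    (he : Real.exp (-(2 * k)) ≤ r → |e| ≤ 2) : |f₁ (ar2 k r) * (-e / k)| ≤ 2 * M / k := by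
  rcases le_or_gt (Real.exp (-(2 * k))) r with hr | hr
  · rw [abs_mul, abs_div, abs_neg, abs_of_pos hk]
    have h1 := h.m (ar2 k r)
    have h2 := he hr
    rw [mul_div_assoc', div_le_div_iff_of_pos_right hk]
    nlinarith only [abs_nonneg (f₁ (ar2 k r)), h1, h2]
  · rcases hr0.eq_or_lt with h0 | h0
    · rw [← h0]
      have h3 : ar2 k 0 ≤ 0 := by
        unfold ar2
        rw [Real.log_zero]
        apply div_nonpos_of_nonpos_of_nonneg _ hk.le
        (clear * - hk; linarith)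
      rw [h.z1 _ h3, zero_mul, abs_zero]
      exact div_nonneg (by linarith [h.m0]) hk.le
    · rw [h.o1 _ (ar2_ge_one hk h0 hr.le), zero_mul, abs_zero]
      exact div_nonneg (by (clear * - h; linarith [h.m0])) hk.le

theorem Om1_bd (h : Stp f f₁ M) {k w n : ℝ} (hk : 0 < k) (hw : 0 < w) {ζ : ℂ} (hζ : ‖ζ‖ = 1)
    {s : ℝ} (hs1 : ‖ζ - 1‖ ≤ s) (hsk : s ≤ Real.exp (-(2 * k))) {ξ η : ℝ}
    (hs : 0 ≤ Real.sin η) : |Om1 f f₁ k w n ζ ξ η| * Real.sin η ≤ M / w + 2 * M / k := by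
  have b1 := second_bd h hk (norm_nonneg (vv ζ ξ η)) (E1_bd hζ hs1 hsk hs)
  have b2 := abs_D1 (ξ := ξ) hs
  have b3 := h.m (ar1 w n (yy ξ η))
  have b4 := abs_f h (ar2 k ‖vv ζ ξ η‖)
  have b5 := abs_f h (ar1 w n (yy ξ η))
  have b6 := Real.sin_le_one η
  have c1 : |f₁ (ar1 w n (yy ξ η)) * (D1 ξ η / w) * f (ar2 k ‖vv ζ ξ η‖)| ≤ M / w := by
    rw [abs_mul, abs_mul, abs_div, abs_of_pos hw]
    have d1 : |f₁ (ar1 w n (yy ξ η))| * (|D1 ξ η| / w) ≤ M * (1 / w) := by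
      apply mul_le_mul b3 _ (by (clear * - hw; positivity)) h.m0
      exact div_le_div_of_nonneg_right b2 hw.le
    have d2 : 0 ≤ M * (1 / w) := mul_nonneg h.m0 (by positivity)
    calc |f₁ (ar1 w n (yy ξ η))| * (|D1 ξ η| / w) * |f (ar2 k ‖vv ζ ξ η‖)|
        ≤ M * (1 / w) * 1 := mul_le_mul d1 b4 (abs_nonneg _) d2
      _ = M / w := by ring
  have c2 : |f (ar1 w n (yy ξ η)) * (f₁ (ar2 k ‖vv ζ ξ η‖) * (-E1 ζ ξ η / k))| ≤ 2 * M / k := by
    rw [abs_mul]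
    have d2 : 0 ≤ 2 * M / k := div_nonneg (by (clear * - h; linarith [h.m0])) hk.le
    calc |f (ar1 w n (yy ξ η))| * |f₁ (ar2 k ‖vv ζ ξ η‖) * (-E1 ζ ξ η / k)|
        ≤ 1 * (2 * M / k) := mul_le_mul b5 b1 (abs_nonneg _) zero_le_one
      _ = 2 * M / k := one_mul _
  have c3 : |Om1 f f₁ k w n ζ ξ η| ≤ M / w + 2 * M / k := by
    unfold Om1
    exact (abs_add_le _ _).trans (add_le_add c1 c2)
  have c4 : 0 ≤ M / w + 2 * M / k := (abs_nonneg _).trans c3
  calc |Om1 f f₁ k w n ζ ξ η| * Real.sin η ≤ (M / w + 2 * M / k) * 1 :=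
        mul_le_mul c3 b6 hs c4
    _ = _ := mul_one _

theorem Om2_bd (h : Stp f f₁ M) {k w n : ℝ} (hk : 0 < k) (hw : 0 < w) {ζ : ℂ} (hζ : ‖ζ‖ = 1)
    {s : ℝ} (hs1 : ‖ζ - 1‖ ≤ s) (hsk : s ≤ Real.exp (-(2 * k))) {ξ η : ℝ}
    (hs : 0 ≤ Real.sin η) : |Om2 f f₁ k w n ζ ξ η| * Real.sin η ≤ M / w + 2 * M / k := by
  have b1 := second_bd h hk (norm_nonneg (vv ζ ξ η)) (E2_bd hζ hs1 hsk hs)
  have b2 := abs_D2 (ξ := ξ) hs
  have b3 := h.m (ar1 w n (yy ξ η))
  have b4 := abs_f h (ar2 k ‖vv ζ ξ η‖)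
  have b5 := abs_f h (ar1 w n (yy ξ η))
  have b6 := Real.sin_le_one η
  have c1 : |f₁ (ar1 w n (yy ξ η)) * (D2 ξ η / w) * f (ar2 k ‖vv ζ ξ η‖)| * Real.sin η ≤
      M / w := by
    rw [abs_mul, abs_mul, abs_div, abs_of_pos hw]
    have d1 : |f₁ (ar1 w n (yy ξ η))| * (|D2 ξ η| * Real.sin η / w) ≤ M * (1 / w) := by
      apply mul_le_mul b3 _ (by (clear * - hs hw; positivity)) h.m0
      exact div_le_div_of_nonneg_right b2 hw.le
    have d2 : 0 ≤ M * (1 / w) := mul_nonneg h.m0 (by positivity)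
    calc |f₁ (ar1 w n (yy ξ η))| * (|D2 ξ η| / w) * |f (ar2 k ‖vv ζ ξ η‖)| * Real.sin η
        = |f₁ (ar1 w n (yy ξ η))| * (|D2 ξ η| * Real.sin η / w) * |f (ar2 k ‖vv ζ ξ η‖)| := by
          ring
      _ ≤ M * (1 / w) * 1 := mul_le_mul d1 b4 (abs_nonneg _) d2
      _ = M / w := by ring
  have c2 : |f (ar1 w n (yy ξ η)) * (f₁ (ar2 k ‖vv ζ ξ η‖) * (-E2 ζ ξ η / k))| * Real.sin η ≤
      2 * M / k := by
    rw [abs_mul]
    have d2 : 0 ≤ 2 * M / k := div_nonneg (by linarith only [h.m0]) hk.le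
    calc |f (ar1 w n (yy ξ η))| * |f₁ (ar2 k ‖vv ζ ξ η‖) * (-E2 ζ ξ η / k)| * Real.sin η
        ≤ 1 * (2 * M / k) * 1 :=
          mul_le_mul (mul_le_mul b5 b1 (abs_nonneg _) zero_le_one) b6 hs (by (clear * - d2; linarith only [d2]))
      _ = 2 * M / k := by ring
  unfold Om2
  calc |f₁ (ar1 w n (yy ξ η)) * (D2 ξ η / w) * f (ar2 k ‖vv ζ ξ η‖) +
        f (ar1 w n (yy ξ η)) * (f₁ (ar2 k ‖vv ζ ξ η‖) * (-E2 ζ ξ η / k))| * Real.sin η
      ≤ (|f₁ (ar1 w n (yy ξ η)) * (D2 ξ η / w) * f (ar2 k ‖vv ζ ξ η‖)| +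
        |f (ar1 w n (yy ξ η)) * (f₁ (ar2 k ‖vv ζ ξ η‖) * (-E2 ζ ξ η / k))|) * Real.sin η :=
        mul_le_mul_of_nonneg_right (abs_add_le _ _) hs
    _ ≤ M / w + 2 * M / k := by
        rw [add_mul]
        exact add_le_add c1 c2

theorem contAt_vv {ζ : ℂ} {ξ η : ℝ} (hs : 0 ≤ Real.sin η) :
    ContinuousAt (fun p : ℝ × ℝ => vv ζ p.1 p.2) (ξ, η) := by
  unfold vv
  exact (continuousAt_const.mul (contAt_zf hs)).sub continuousAt_const

theorem contAt_zd {ξ η : ℝ} (hs : 0 ≤ Real.sin η) :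
    ContinuousAt (fun p : ℝ × ℝ => zd (pt p.1 p.2)) (ξ, η) := by
  have h1 : ContinuousAt (fun p : ℝ × ℝ => Complex.exp (pt p.1 p.2)) (ξ, η) := by
    unfold pt
    fun_prop
  unfold zd
  apply ContinuousAt.div
  · exact continuousAt_const.mul h1
  · exact (h1.add continuousAt_const).pow 2
  · have := den_ne (ξ := ξ) hs
    rw [add_comm] at this
    exact pow_ne_zero 2 this

theorem contAt_a1 {g : ℝ → ℝ} (hg : Continuous g) (w n : ℝ) {ξ η : ℝ}
    (hs : 0 ≤ Real.sin η) :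
    ContinuousAt (fun p : ℝ × ℝ => g (ar1 w n (yy p.1 p.2))) (ξ, η) :=
  ContinuousAt.comp (f := fun p : ℝ × ℝ => yy p.1 p.2) (g := fun y => g (ar1 w n y))
    (hg.comp (ar1_cont w n)).continuousAt (contAt_yy hs)

theorem contAt_a2 {g : ℝ → ℝ} (hg : Continuous g) (k : ℝ) {ζ : ℂ} {ξ η : ℝ}
    (hs : 0 ≤ Real.sin η) (hv : vv ζ ξ η ≠ 0) :
    ContinuousAt (fun p : ℝ × ℝ => g (ar2 k ‖vv ζ p.1 p.2‖)) (ξ, η) := by
  have h1 : ContinuousAt (fun p : ℝ × ℝ => ar2 k ‖vv ζ p.1 p.2‖) (ξ, η) := by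
    unfold ar2
    apply ContinuousAt.div_const
    apply ContinuousAt.sub continuousAt_const
    apply ContinuousAt.log
    · exact (contAt_vv hs).norm
    · exact norm_ne_zero_iff.2 hv
  exact ContinuousAt.comp (f := fun p : ℝ × ℝ => ar2 k ‖vv ζ p.1 p.2‖) (g := g)
    hg.continuousAt h1

theorem dd_cont : Continuous (fun p : ℝ × ℝ => dd p.1 p.2) := by
  unfold dd
  fun_prop

theorem contAt_D1 {ξ η : ℝ} (hs : 0 ≤ Real.sin η) :
    ContinuousAt (fun p : ℝ × ℝ => D1 p.1 p.2) (ξ, η) := by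
  have h1 := dd_ge (ξ := ξ) hs
  unfold D1
  apply ContinuousAt.sub continuousAt_const
  apply ContinuousAt.div
  · fun_prop
  · exact dd_cont.continuousAt
  · exact ne_of_gt (by (clear * - h1; linarith))

theorem contAt_D2 {ξ η : ℝ} (hs : 0 < Real.sin η) :
    ContinuousAt (fun p : ℝ × ℝ => D2 p.1 p.2) (ξ, η) := by
  have h1 := dd_ge (ξ := ξ) hs.le
  unfold D2
  apply ContinuousAt.sub
  · apply ContinuousAt.div
    · fun_prop
    · fun_prop
    · exact hs.ne'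
  · apply ContinuousAt.div
    · fun_prop
    · exact dd_cont.continuousAt
    · exact ne_of_gt (by linarith)

theorem contAt_E (u : ℂ) {ζ : ℂ} {ξ η : ℝ} (hs : 0 ≤ Real.sin η) (hv : vv ζ ξ η ≠ 0) :
    ContinuousAt (fun p : ℝ × ℝ => (ζ * (zd (pt p.1 p.2) * u) / vv ζ p.1 p.2).re) (ξ, η) := by
  have h1 : ContinuousAt (fun p : ℝ × ℝ => ζ * (zd (pt p.1 p.2) * u) / vv ζ p.1 p.2) (ξ, η) := by
    apply ContinuousAt.div
    · exact continuousAt_const.mul ((contAt_zd hs).mul continuousAt_const)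
    · exact contAt_vv hs
    · exact hv
  exact Complex.continuous_re.continuousAt.comp h1

theorem contAt_E1 {ζ : ℂ} {ξ η : ℝ} (hs : 0 ≤ Real.sin η) (hv : vv ζ ξ η ≠ 0) :
    ContinuousAt (fun p : ℝ × ℝ => E1 ζ p.1 p.2) (ξ, η) := by
  have := contAt_E 1 hs hv
  simp only [mul_one] at this
  exact this

theorem contAt_E2 {ζ : ℂ} {ξ η : ℝ} (hs : 0 ≤ Real.sin η) (hv : vv ζ ξ η ≠ 0) :
    ContinuousAt (fun p : ℝ × ℝ => E2 ζ p.1 p.2) (ξ, η) := contAt_E I hs hv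

/-- a function which vanishes where `yy` is small and is continuous elsewhere -/
theorem cont_of {F : ℝ × ℝ → ℝ} {n : ℝ} {ξ η : ℝ} (hs : 0 ≤ Real.sin η)
    (h0 : ∀ p : ℝ × ℝ, yy p.1 p.2 ≤ 8 * Real.exp (-n) → F p = 0)
    (h1 : 8 * Real.exp (-n) ≤ yy ξ η → ContinuousAt F (ξ, η)) : ContinuousAt F (ξ, η) := by
  rcases lt_or_ge (yy ξ η) (8 * Real.exp (-n)) with hy | hy
  · have h2 : ∀ᶠ p : ℝ × ℝ in 𝓝 (ξ, η), yy p.1 p.2 < 8 * Real.exp (-n) :=
      (contAt_yy hs).eventually_lt_const hy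
    have h3 : F =ᶠ[𝓝 (ξ, η)] fun _ => 0 := by
      filter_upwards [h2] with p hp
      exact h0 p hp.le
    exact continuousAt_const.congr h3.symm
  · exact h1 hy

theorem Om_cont (h : Stp f f₁ M) {k w n : ℝ} (hw : 0 < w) {ζ : ℂ} (hζ : ‖ζ‖ = 1) {ξ η : ℝ}
    (hs : 0 ≤ Real.sin η) : ContinuousAt (fun p : ℝ × ℝ => Om f k w n ζ p.1 p.2) (ξ, η) := by
  have hn := Real.exp_pos (-n)
  refine cont_of (n := n) hs (fun p hp => Om_zero h hw ζ hp) fun hy => ?_
  have hy0 : 0 < yy ξ η := by linarith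
  exact (contAt_a1 h.cf w n hs).mul (contAt_a2 h.cf k hs (vv_ne hζ hy0))

theorem Om1_cont (h : Stp f f₁ M) {k w n : ℝ} (hw : 0 < w) {ζ : ℂ} (hζ : ‖ζ‖ = 1) {ξ η : ℝ}
    (hs : 0 ≤ Real.sin η) :
    ContinuousAt (fun p : ℝ × ℝ => Om1 f f₁ k w n ζ p.1 p.2) (ξ, η) := by
  have hn := Real.exp_pos (-n)
  refine cont_of (n := n) hs (fun p hp => Om1_zero h hw ζ hp) fun hy => ?_
  have hy0 : 0 < yy ξ η := by (clear * - hn hy; linarith)
  have hv := vv_ne hζ hy0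
  have hsp := sin_pos_of_yy hs hy0
  exact (((contAt_a1 h.c w n hs).mul ((contAt_D1 hs).div_const w)).mul
    (contAt_a2 h.cf k hs hv)).add
    ((contAt_a1 h.cf w n hs).mul ((contAt_a2 h.c k hs hv).mul
      ((contAt_E1 hs hv).neg.div_const k)))

theorem Om2_cont (h : Stp f f₁ M) {k w n : ℝ} (hw : 0 < w) {ζ : ℂ} (hζ : ‖ζ‖ = 1) {ξ η : ℝ}
    (hs : 0 ≤ Real.sin η) :
    ContinuousAt (fun p : ℝ × ℝ => Om2 f f₁ k w n ζ p.1 p.2) (ξ, η) := by
  have hn := Real.exp_pos (-n)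
  refine cont_of (n := n) hs (fun p hp => Om2_zero h hw ζ hp) fun hy => ?_
  have hy0 : 0 < yy ξ η := by (clear * - hn hy; linarith)
  have hv := vv_ne hζ hy0
  have hsp := sin_pos_of_yy hs hy0
  exact (((contAt_a1 h.c w n hs).mul ((contAt_D2 hsp).div_const w)).mul
    (contAt_a2 h.cf k hs hv)).add
    ((contAt_a1 h.cf w n hs).mul ((contAt_a2 h.c k hs hv).mul
      ((contAt_E2 hs hv).neg.div_const k)))

end Pool.Agent.Helper73.CK

end

section

namespace Pool.Agent.Helper39.Area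
end Pool.Agent.Helper39.Area
namespace Pool.Agent.Helper52.EK
end Pool.Agent.Helper52.EK

/-!
Calculus for the area functional in log-polar coordinates: derivatives of `‖N‖ ^ (-κ)` along the
coordinate lines, integration by parts on the rectangle.
-/

set_option autoImplicit false

open Complex MeasureTheory Metric Set Filter Topology

open scoped Real ComplexConjugate

namespace Pool.Agent.Helper14.CK

open Pool.Agent.Helper39.Area Pool.Agent.Helper52.EK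

/-- derivative of `log ‖u‖` along a path -/
theorem hasDerivAt_log_norm {u : ℝ → ℂ} {u' : ℂ} {t : ℝ} (hu : HasDerivAt u u' t)
    (h0 : u t ≠ 0) : HasDerivAt (fun t => Real.log ‖u t‖) (u' / u t).re t := by
  have hre : HasDerivAt (fun t => (u t).re) u'.re t := by
    exact Complex.reCLM.hasFDerivAt.comp_hasDerivAt t hu
  have him : HasDerivAt (fun t => (u t).im) u'.im t := by
    exact Complex.imCLM.hasFDerivAt.comp_hasDerivAt t hu
  have hsq : HasDerivAt (fun t => Complex.normSq (u t))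
      (2 * ((u t).re * u'.re + (u t).im * u'.im)) t := by
    have h1 := (hre.mul hre).add (him.mul him)
    have h2 : (fun t => Complex.normSq (u t))
        = fun t => (u t).re * (u t).re + (u t).im * (u t).im := by
      funext s
      rw [Complex.normSq_apply]
    rw [h2]
    convert! h1 using 1
    ring
  have hne : Complex.normSq (u t) ≠ 0 := by
    rw [Ne, Complex.normSq_eq_zero]
    exact h0
  have hlog := (hsq.log hne).div_const 2
  have h3 : (fun t => Real.log ‖u t‖) = fun t => Real.log (Complex.normSq (u t)) / 2 := by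
    funext s
    rw [Complex.normSq_eq_norm_sq, Real.log_pow]
    push_cast
    ring
  rw [h3]
  convert! hlog using 1
  rw [Complex.div_re]
  field_simp

/-- derivative of `‖u‖ ^ (-κ)` along a path -/
theorem hasDerivAt_norm_rpow {u : ℝ → ℂ} {u' : ℂ} {t : ℝ} (κ : ℝ) (hu : HasDerivAt u u' t)
    (h0 : u t ≠ 0) : HasDerivAt (fun t => ‖u t‖ ^ (-κ))
      (-κ * ‖u t‖ ^ (-κ) * (u' / u t).re) t := by
  have h1 := ((hasDerivAt_log_norm hu h0).mul_const (-κ)).exp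
  have h2 : (fun t => ‖u t‖ ^ (-κ)) =ᶠ[𝓝 t] fun t => Real.exp (Real.log ‖u t‖ * -κ) := by
    have h3 : ∀ᶠ s in 𝓝 t, u s ≠ 0 := hu.continuousAt.eventually_ne h0
    filter_upwards [h3] with s hs
    exact Real.rpow_def_of_pos (norm_pos_iff.mpr hs) _
  have h4 := h1.congr_of_eventuallyEq h2
  convert! h4 using 1
  rw [← Real.rpow_def_of_pos (norm_pos_iff.mpr h0)]
  ring

theorem norm_ep (t θ : ℝ) : ‖ep t θ‖ = Real.exp t := by
  rw [ep, Complex.norm_exp]
  simp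

theorem hasDerivAt_ep_x (x θ : ℝ) : HasDerivAt (fun x : ℝ => ep (-x) θ) (-ep (-x) θ) x := by
  unfold ep
  have h1 : HasDerivAt (fun x : ℝ => ((-x : ℝ) : ℂ) + (θ : ℂ) * I) (-1) x := by
    have h2 : HasDerivAt (fun x : ℝ => ((-x : ℝ) : ℂ)) (-1) x := by
      have := ((hasDerivAt_id x).neg).ofReal_comp
      simpa using this
    exact h2.add_const _
  have h3 := h1.cexp
  convert! h3 using 1
  ring

theorem hasDerivAt_ep_θ (t θ : ℝ) : HasDerivAt (fun θ : ℝ => ep t θ) (I * ep t θ) θ := by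
  unfold ep
  have h1 : HasDerivAt (fun θ : ℝ => ((t : ℝ) : ℂ) + (θ : ℂ) * I) I θ := by
    have h2 : HasDerivAt (fun θ : ℝ => (θ : ℂ)) 1 θ := by
      have := (hasDerivAt_id θ).ofReal_comp
      simpa using this
    have h3 := (h2.mul_const I).const_add ((t : ℝ) : ℂ)
    simpa using h3
  have h3 := h1.cexp
  convert! h3 using 1
  ring

/-- chain rule along `x` -/
theorem hasDerivAt_comp_x {g : ℂ → ℂ} {g' : ℂ} {x θ : ℝ} (hg : HasDerivAt g g' (ep (-x) θ)) :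
    HasDerivAt (fun x : ℝ => g (ep (-x) θ)) (-(ep (-x) θ * g')) x := by
  have h1 := HasDerivAt.scomp x hg (hasDerivAt_ep_x x θ)
  convert! h1 using 1
  rw [smul_eq_mul]
  ring

/-- chain rule along `θ` -/
theorem hasDerivAt_comp_θ {g : ℂ → ℂ} {g' : ℂ} {t θ : ℝ} (hg : HasDerivAt g g' (ep t θ)) :
    HasDerivAt (fun θ : ℝ => g (ep t θ)) (I * (ep t θ * g')) θ := by
  have h1 := HasDerivAt.scomp θ hg (hasDerivAt_ep_θ t θ)
  convert! h1 using 1
  rw [smul_eq_mul]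
  ring

theorem hasDerivAt_re {u : ℝ → ℂ} {u' : ℂ} {t : ℝ} (hu : HasDerivAt u u' t) :
    HasDerivAt (fun t => (u t).re) u'.re t := by
  exact Complex.reCLM.hasFDerivAt.comp_hasDerivAt t hu

theorem hasDerivAt_im {u : ℝ → ℂ} {u' : ℂ} {t : ℝ} (hu : HasDerivAt u u' t) :
    HasDerivAt (fun t => (u t).im) u'.im t := by
  exact Complex.imCLM.hasFDerivAt.comp_hasDerivAt t hu

/-- the rectangle of the log-polar coordinates -/
def Rect (a b : ℝ) : Set (ℝ × ℝ) := Icc a b ×ˢ Icc (-π) π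

theorem isCompact_rect (a b : ℝ) : IsCompact (Rect a b) := isCompact_Icc.prod isCompact_Icc

theorem measurableSet_rect (a b : ℝ) : MeasurableSet (Rect a b) :=
  measurableSet_Icc.prod measurableSet_Icc

theorem integrableOn_rect {a b : ℝ} {f : ℝ × ℝ → ℝ} (hf : ContinuousOn f (Rect a b)) :
    IntegrableOn f (Rect a b) := hf.integrableOn_compact (isCompact_rect a b)

theorem integrableOn_rectC {a b : ℝ} {f : ℝ × ℝ → ℂ} (hf : ContinuousOn f (Rect a b)) :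
    IntegrableOn f (Rect a b) := hf.integrableOn_compact (isCompact_rect a b)

/-- iterated integral, inner variable `θ` -/
theorem rect_eq {a b : ℝ} (hab : a ≤ b) {f : ℝ × ℝ → ℝ} (hf : ContinuousOn f (Rect a b)) :
    ∫ p in Rect a b, f p = ∫ x in a..b, ∫ θ in (-π)..π, f (x, θ) := by
  have hπ : -π ≤ π := by (clear * -; linarith only [Real.pi_pos])
  have h1 := integrableOn_rect hf
  rw [Measure.volume_eq_prod] at h1 ⊢
  rw [Rect, setIntegral_prod _ h1, intervalIntegral.integral_of_le hab, integral_Icc_eq_integral_Ioc]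
  refine setIntegral_congr_fun measurableSet_Ioc fun x _ => ?_
  show ∫ y in Icc (-π) π, f (x, y) = ∫ θ in (-π)..π, f (x, θ)
  rw [intervalIntegral.integral_of_le hπ, integral_Icc_eq_integral_Ioc]

/-- iterated integral, inner variable `x` -/
theorem rect_eq' {a b : ℝ} (hab : a ≤ b) {f : ℝ × ℝ → ℝ} (hf : ContinuousOn f (Rect a b)) :
    ∫ p in Rect a b, f p = ∫ θ in (-π)..π, ∫ x in a..b, f (x, θ) := by
  have hπ : -π ≤ π := by (clear * -; linarith only [Real.pi_pos])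
  have h1 := integrableOn_rect hf
  have h2 : IntegrableOn (fun p : ℝ × ℝ => f p.swap) (Icc (-π) π ×ˢ Icc a b) := by
    apply ContinuousOn.integrableOn_compact (isCompact_Icc.prod isCompact_Icc)
    apply hf.comp continuous_swap.continuousOn
    intro p hp
    exact ⟨hp.2, hp.1⟩
  rw [Measure.volume_eq_prod] at h1 h2 ⊢
  rw [Rect, ← setIntegral_prod_swap, setIntegral_prod _ h2,
    intervalIntegral.integral_of_le hπ, integral_Icc_eq_integral_Ioc]
  refine setIntegral_congr_fun measurableSet_Ioc fun x _ => ?_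
  simp only [Prod.swap_prod_mk]
  rw [intervalIntegral.integral_of_le hab, integral_Icc_eq_integral_Ioc]

/-- integration by parts in `x`: no boundary terms -/
theorem ibp_x {a b : ℝ} (hab : a ≤ b) {G Gx : ℝ × ℝ → ℝ} (hc : ContinuousOn Gx (Rect a b))
    (hd : ∀ x ∈ Icc a b, ∀ θ ∈ Icc (-π) π, HasDerivAt (fun x => G (x, θ)) (Gx (x, θ)) x)
    (ha : ∀ θ, G (a, θ) = 0) (hb : ∀ θ, G (b, θ) = 0) : ∫ p in Rect a b, Gx p = 0 := by
  have hπ : -π ≤ π := by (clear * -; linarith [Real.pi_pos])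
  rw [rect_eq' hab hc, intervalIntegral.integral_of_le hπ]
  rw [setIntegral_congr_fun (g := fun _ => (0 : ℝ)) measurableSet_Ioc, integral_zero]
  intro θ hθ
  have hθ' : θ ∈ Icc (-π) π := Ioc_subset_Icc_self hθ
  simp only
  rw [intervalIntegral.integral_eq_sub_of_hasDerivAt (f := fun x => G (x, θ))
    (f' := fun x => Gx (x, θ)), ha, hb, sub_zero]
  · intro x hx
    rw [uIcc_of_le hab] at hx
    exact hd x hx θ hθ'
  · apply ContinuousOn.intervalIntegrable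
    rw [uIcc_of_le hab]
    exact hc.comp (by fun_prop) (fun x hx => ⟨hx, hθ'⟩)

/-- integration by parts in `θ`: periodicity -/
theorem ibp_θ {a b : ℝ} (hab : a ≤ b) {G Gθ : ℝ × ℝ → ℝ} (hc : ContinuousOn Gθ (Rect a b))
    (hd : ∀ x ∈ Icc a b, ∀ θ ∈ Icc (-π) π, HasDerivAt (fun θ => G (x, θ)) (Gθ (x, θ)) θ)
    (hp : ∀ x, G (x, -π) = G (x, π)) : ∫ p in Rect a b, Gθ p = 0 := by
  have hπ : -π ≤ π := by (clear * -; linarith [Real.pi_pos])
  rw [rect_eq hab hc, intervalIntegral.integral_of_le hab]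
  rw [setIntegral_congr_fun (g := fun _ => (0 : ℝ)) measurableSet_Ioc, integral_zero]
  intro x hx
  have hx' : x ∈ Icc a b := Ioc_subset_Icc_self hx
  simp only
  rw [intervalIntegral.integral_eq_sub_of_hasDerivAt (f := fun θ => G (x, θ))
    (f' := fun θ => Gθ (x, θ)), hp, sub_self]
  · intro θ hθ
    rw [uIcc_of_le hπ] at hθ
    exact hd x hx' θ hθ
  · apply ContinuousOn.intervalIntegrable
    rw [uIcc_of_le hπ]
    exact hc.comp (by fun_prop) (fun θ hθ => ⟨hx', hθ⟩)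

end Pool.Agent.Helper14.CK

end

section

/-!
Project CK, module L4: expansion of the weighted area functional
`J(f) = ∬ |f'|^{-κ} W(1-|z|²)` under an interior variation `F ∘ ψ_t = G_t ∘ f`.
Weight `W(y) = y^a (y+δ)^{-η}`.
-/

open MeasureTheory Set Filter Topology

namespace Pool.Agent.Helper27.CK

noncomputable section

/-- `log ‖1+z‖ = Re z + O(‖z‖²)` -/
lemma log_norm_one_add {z : ℂ} (hz : ‖z‖ ≤ 1 / 2) :
    |Real.log ‖1 + z‖ - z.re| ≤ ‖z‖ ^ 2 := by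
  have h1 : ‖z‖ < 1 := by linarith only [hz]
  have h2 := Complex.norm_log_one_add_sub_self_le h1
  have h3 : Real.log ‖1 + z‖ - z.re = (Complex.log (1 + z) - z).re := by
    rw [Complex.sub_re, Complex.log_re]
  rw [h3]
  refine (Complex.abs_re_le_norm _).trans (h2.trans ?_)
  have h4 : (1 - ‖z‖)⁻¹ ≤ 2 := by
    rw [inv_le_comm₀ (by (clear * - h1; linarith only [h1])) (by norm_num)]
    (clear * - hz; linarith only [hz])
  have h5 : (0 : ℝ) ≤ ‖z‖ ^ 2 := by (clear * -; positivity)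
  (clear * - h4; nlinarith only [h4])

/-- if `z = t u + O(t²)` then `log ‖1+z‖ = t Re u + O(t²)` -/
lemma log_norm_expand {C t : ℝ} {z u : ℂ} (hC : 0 ≤ C) (hu : ‖u‖ ≤ C)
    (hz : ‖z - 1 - t * u‖ ≤ C * t ^ 2) (ht : |t| ≤ 1) (htC : 4 * (C + 1) * |t| ≤ 1) :
    |Real.log ‖z‖ - t * u.re| ≤ (C + 4 * C ^ 2) * t ^ 2 := by
  have ht2 : t ^ 2 = |t| ^ 2 := (sq_abs t).symm
  have ht0 := abs_nonneg t
  have h1 : ‖z - 1‖ ≤ 2 * C * |t| := by
    have : z - 1 = (z - 1 - t * u) + t * u := by ring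
    rw [this]
    refine (norm_add_le _ _).trans ?_
    rw [norm_mul, Complex.norm_real, Real.norm_eq_abs]
    have : C * t ^ 2 ≤ C * |t| := by
      rw [ht2]
      (clear * - hC ht0 ht; nlinarith only [mul_nonneg hC ht0, ht])
    (clear * - hz this hu ht0; nlinarith only [hu, hz, ht0, this])
  have h2 : ‖z - 1‖ ≤ 1 / 2 := by
    refine h1.trans ?_
    (clear * - htC ht0; linarith only [htC, ht0])
  have h3 := log_norm_one_add h2
  have h4 : (1 : ℂ) + (z - 1) = z := by ring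
  rw [h4] at h3
  have h5 : |(z - 1).re - t * u.re| ≤ C * t ^ 2 := by
    have : (z - 1).re - t * u.re = (z - 1 - t * u).re := by simp
    rw [this]
    exact (Complex.abs_re_le_norm _).trans hz
  have h6 : ‖z - 1‖ ^ 2 ≤ 4 * C ^ 2 * t ^ 2 := by
    rw [ht2]
    calc ‖z - 1‖ ^ 2 ≤ (2 * C * |t|) ^ 2 := by gcongr
      _ = _ := by ring
  calc |Real.log ‖z‖ - t * u.re| = |(Real.log ‖z‖ - (z - 1).re) + ((z - 1).re - t * u.re)| := by
        congr 1; ring
    _ ≤ _ := (abs_add_le _ _).trans (by linarith only [h3, h5, h6])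

/-- exponential form: `exp S = 1 + t a + O(t²)` -/
lemma exp_expand {C t S a : ℝ} (hC : 0 ≤ C) (ha : |a| ≤ C) (hS : |S - t * a| ≤ C * t ^ 2)
    (ht : |t| ≤ 1) (htC : 4 * (C + 1) * |t| ≤ 1) :
    |Real.exp S - 1 - t * a| ≤ (C + 4 * C ^ 2) * t ^ 2 := by
  have ht2 : t ^ 2 = |t| ^ 2 := (sq_abs t).symm
  have ht0 := abs_nonneg t
  have h1 : |S| ≤ 2 * C * |t| := by
    have : S = (S - t * a) + t * a := by ring
    rw [this]
    refine (abs_add_le _ _).trans ?_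
    rw [abs_mul]
    have : C * t ^ 2 ≤ C * |t| := by
      rw [ht2]
      (clear * - hC ht0 ht; nlinarith only [mul_nonneg hC ht0, ht])
    nlinarith only [ha, hS, ht0, this]
  have h2 : |S| ≤ 1 := by linarith only [htC, ht0, h1]
  have h3 := Real.abs_exp_sub_one_sub_id_le h2
  have h4 : S ^ 2 ≤ 4 * C ^ 2 * t ^ 2 := by
    rw [ht2, ← sq_abs S]
    calc |S| ^ 2 ≤ (2 * C * |t|) ^ 2 := by gcongr
      _ = _ := by ring
  calc |Real.exp S - 1 - t * a| = |(Real.exp S - 1 - S) + (S - t * a)| := by congr 1; ring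
    _ ≤ _ := (abs_add_le _ _).trans (by (clear * - hS h3 h4; linarith))

end

end Pool.Agent.Helper27.CK

end

section

/-!
Comparison of the kernels of the first variation in the rotated coordinate `w = z₀ / ζ`, the target
being `q ζ`.
-/

set_option autoImplicit false

open Complex MeasureTheory Metric Set Filter Topology

open scoped Real ComplexConjugate

namespace Pool.Agent.Helper14.CK

section kernels

variable {q : ℝ} {w : ℂ}

theorem ker_d1 (hw1 : ‖w‖ < 1) : 0 < ‖1 - w‖ := by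
  rw [norm_pos_iff]
  intro h
  have h1 : w = 1 := by linear_combination -h
  rw [h1, norm_one] at hw1
  exact lt_irrefl _ hw1

/-- `1 - q ≤ ‖1 - w‖` -/
theorem ker_q_le (hq : 1 / 2 ≤ q) (hq1 : q < 1) (hw : ‖w‖ ≤ q ^ 2) : 1 - q ≤ ‖1 - w‖ := by
  have h1 : 1 - ‖w‖ ≤ ‖1 - w‖ := by
    have := norm_sub_norm_le (1 : ℂ) w
    rwa [norm_one] at this
  nlinarith only [hq, hq1, hw, h1]

theorem ker_qw (hq : 1 / 2 ≤ q) (hq1 : q < 1) (hw : ‖w‖ ≤ q ^ 2) :
    ‖1 - w‖ ≤ 3 * ‖(q : ℂ) - w‖ := by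
  have h1 : q - ‖w‖ ≤ ‖(q : ℂ) - w‖ := by
    have := norm_sub_norm_le (q : ℂ) w
    rwa [Complex.norm_real, Real.norm_of_nonneg (by linarith)] at this
  have h2 : ‖1 - w‖ ≤ ‖(1 : ℂ) - q‖ + ‖(q : ℂ) - w‖ := by
    have := norm_add_le ((1 : ℂ) - q) ((q : ℂ) - w)
    rwa [sub_add_sub_cancel] at this
  have h3 : ‖(1 : ℂ) - q‖ = 1 - q := by
    have : (1 : ℂ) - q = ((1 - q : ℝ) : ℂ) := by push_cast; ring
    rw [this, Complex.norm_real, Real.norm_of_nonneg (by linarith only [hq1])]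
  have h4 : q * (1 - q) ≤ ‖(q : ℂ) - w‖ := by (clear * - hw h1; linarith only [hw, h1])
  have h5 : 1 - q ≤ 2 * (q * (1 - q)) := by (clear * - hq hq1; nlinarith only [hq, hq1])
  rw [h3] at h2
  linarith only [h2, h4, h5]

theorem ker_1qw (hq : 1 / 2 ≤ q) (hq1 : q < 1) (hw : ‖w‖ ≤ q ^ 2) :
    ‖1 - w‖ ≤ 2 * ‖1 - (q : ℂ) * w‖ := by
  have hw1 : ‖w‖ ≤ 1 := by nlinarith only [hq, hq1, hw]
  have h1 : 1 - q * ‖w‖ ≤ ‖1 - (q : ℂ) * w‖ := by
    have := norm_sub_norm_le (1 : ℂ) ((q : ℂ) * w)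
    rwa [norm_one, norm_mul, Complex.norm_real, Real.norm_of_nonneg (by (clear * - hq hq1; linarith))] at this
  have h2 : ‖1 - w‖ ≤ ‖1 - (q : ℂ) * w‖ + ‖((q : ℂ) - 1) * w‖ := by
    have := norm_add_le (1 - (q : ℂ) * w) (((q : ℂ) - 1) * w)
    have e : 1 - (q : ℂ) * w + ((q : ℂ) - 1) * w = 1 - w := by ring
    rwa [e] at this
  have h3 : ‖((q : ℂ) - 1) * w‖ ≤ 1 - q := by
    have : (q : ℂ) - 1 = ((q - 1 : ℝ) : ℂ) := by push_cast; ring
    rw [norm_mul, this, Complex.norm_real, Real.norm_of_nonpos (by (clear * - hq1; linarith only [hq1]))]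
    (clear * - hq1 hw1; nlinarith only [hq1, hw1])
  have h4 : 1 - q ≤ 1 - q * ‖w‖ := by (clear * - hq1 hw hq; nlinarith [norm_nonneg w])
  linarith only [h1, h2, h3, h4]

theorem ker_ne1 (hq : 1 / 2 ≤ q) (hq1 : q < 1) (hw : ‖w‖ ≤ q ^ 2) : (q : ℂ) - w ≠ 0 := by
  have hw1 : ‖w‖ < 1 := by (clear * - hq1 hw hq; nlinarith)
  have h1 := ker_qw hq hq1 hw
  have h2 := ker_d1 hw1
  rw [← norm_pos_iff]
  (clear * - h1 h2; linarith only [h1, h2])

theorem ker_ne2 (hq : 1 / 2 ≤ q) (hq1 : q < 1) (hw : ‖w‖ ≤ q ^ 2) :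
    1 - (q : ℂ) * w ≠ 0 := by
  have hw1 : ‖w‖ < 1 := by nlinarith
  have h1 := ker_1qw hq hq1 hw
  have h2 := ker_d1 hw1
  rw [← norm_pos_iff]
  (clear * - h1 h2; linarith only [h1, h2])

/-- `k1` -/
theorem ker_k1 (hq : 1 / 2 ≤ q) (hq1 : q < 1) (hw : ‖w‖ ≤ q ^ 2) :
    ‖(q : ℂ) * w / ((q : ℂ) - w) ^ 2 - w / (1 - w) ^ 2‖ ≤ 27 * (1 - q) / ‖1 - w‖ ^ 3 := by
  have hw1 : ‖w‖ < 1 := by nlinarith
  have hd := ker_d1 hw1
  have hn1 := ker_ne1 hq hq1 hw
  have hn3 : 1 - w ≠ 0 := norm_pos_iff.mp hd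
  have e : (q : ℂ) * w / ((q : ℂ) - w) ^ 2 - w / (1 - w) ^ 2
      = w * (1 - q) * (q - w ^ 2) / (((q : ℂ) - w) ^ 2 * (1 - w) ^ 2) := by
    field_simp
    ring
  have h1 : ‖(q : ℂ) - w ^ 2‖ ≤ 3 * ‖1 - w‖ := by
    have h2 : (q : ℂ) - w ^ 2 = (1 - w) * (1 + w) + (((q - 1 : ℝ)) : ℂ) := by
      push_cast
      ring
    have h3 : ‖(1 - w) * (1 + w)‖ ≤ 2 * ‖1 - w‖ := by
      rw [norm_mul]
      have : ‖1 + w‖ ≤ 2 := by
        have := norm_add_le (1 : ℂ) w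
        rw [norm_one] at this
        (clear * - hw1 this; linarith only [hw1, this])
      (clear * - hd this; nlinarith only [hd, this])
    have h4 : ‖(((q - 1 : ℝ)) : ℂ)‖ ≤ ‖1 - w‖ := by
      rw [Complex.norm_real, Real.norm_of_nonpos (by linarith only [hq1])]
      have := ker_q_le hq hq1 hw
      linarith only [this]
    rw [h2]
    exact (norm_add_le _ _).trans (by linarith only [h3, h4])
  have hqn : ‖(1 : ℂ) - q‖ = 1 - q := by
    have : (1 : ℂ) - q = ((1 - q : ℝ) : ℂ) := by push_cast; ring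
    rw [this, Complex.norm_real, Real.norm_of_nonneg (by linarith only [hq1])]
  rw [e, norm_div, norm_mul, norm_mul, norm_mul, norm_pow, norm_pow, hqn]
  have h5 : ‖1 - w‖ / 3 ≤ ‖(q : ℂ) - w‖ := by (clear * - hq hq1 hw; linarith only [ker_qw hq hq1 hw])
  rw [div_le_div_iff₀ (by positivity) (by positivity)]
  have h6 : (‖1 - w‖ / 3) ^ 2 ≤ ‖(q : ℂ) - w‖ ^ 2 := by gcongr
  have h7 : ‖w‖ * (1 - q) * ‖(q : ℂ) - w ^ 2‖ ≤ 1 * (1 - q) * (3 * ‖1 - w‖) := by
    gcongr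
  calc ‖w‖ * (1 - q) * ‖(q : ℂ) - w ^ 2‖ * ‖1 - w‖ ^ 3
      ≤ 1 * (1 - q) * (3 * ‖1 - w‖) * ‖1 - w‖ ^ 3 := by gcongr
    _ = 27 * (1 - q) * ((‖1 - w‖ / 3) ^ 2 * ‖1 - w‖ ^ 2) := by ring
    _ ≤ 27 * (1 - q) * (‖(q : ℂ) - w‖ ^ 2 * ‖1 - w‖ ^ 2) := by
      have : 0 ≤ 1 - q := by linarith only [hq1]
      gcongr

/-- `k2` -/
theorem ker_k2 (hq : 1 / 2 ≤ q) (hq1 : q < 1) (hw : ‖w‖ ≤ q ^ 2) :
    ‖(q : ℂ) * w / (1 - (q : ℂ) * w) ^ 2 - w / (1 - w) ^ 2‖ ≤ 12 * (1 - q) / ‖1 - w‖ ^ 3 := by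
  have hw1 : ‖w‖ < 1 := by nlinarith
  have hd := ker_d1 hw1
  have hn1 := ker_ne2 hq hq1 hw
  have hn3 : 1 - w ≠ 0 := norm_pos_iff.mp hd
  have e : (q : ℂ) * w / (1 - (q : ℂ) * w) ^ 2 - w / (1 - w) ^ 2
      = -(w * (1 - q) * (1 - q * w ^ 2)) / ((1 - (q : ℂ) * w) ^ 2 * (1 - w) ^ 2) := by
    rw [div_sub_div _ _ (pow_ne_zero 2 hn1) (pow_ne_zero 2 hn3)]
    congr 1
    ring
  have h1 : ‖(1 : ℂ) - q * w ^ 2‖ ≤ 3 * ‖1 - w‖ := by
    have h2 : (1 : ℂ) - q * w ^ 2 = (1 - w) * (1 + w) + (((1 - q : ℝ)) : ℂ) * w ^ 2 := by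
      push_cast
      ring
    have h3 : ‖(1 - w) * (1 + w)‖ ≤ 2 * ‖1 - w‖ := by
      rw [norm_mul]
      have : ‖1 + w‖ ≤ 2 := by
        have := norm_add_le (1 : ℂ) w
        rw [norm_one] at this
        linarith only [hw1, this]
      (clear * - hd this; nlinarith only [hd, this])
    have h4 : ‖(((1 - q : ℝ)) : ℂ) * w ^ 2‖ ≤ ‖1 - w‖ := by
      rw [norm_mul, Complex.norm_real, Real.norm_of_nonneg (by linarith only [hq1]), norm_pow]
      have h5 := ker_q_le hq hq1 hw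
      have h6 : ‖w‖ ^ 2 ≤ 1 := by nlinarith only [norm_nonneg w, hw1]
      (clear * - h5 hd h6; nlinarith only [hd, h5, h6])
    rw [h2]
    exact (norm_add_le _ _).trans (by linarith only [h3, h4])
  have hqn : ‖(1 : ℂ) - q‖ = 1 - q := by
    have : (1 : ℂ) - q = ((1 - q : ℝ) : ℂ) := by push_cast; ring
    rw [this, Complex.norm_real, Real.norm_of_nonneg (by linarith only [hq1])]
  rw [e, norm_div, norm_neg, norm_mul, norm_mul, norm_mul, norm_pow, norm_pow, hqn]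
  have h5 : ‖1 - w‖ / 2 ≤ ‖1 - (q : ℂ) * w‖ := by linarith only [ker_1qw hq hq1 hw]
  rw [div_le_div_iff₀ (by positivity) (by positivity)]
  have h6 : (‖1 - w‖ / 2) ^ 2 ≤ ‖1 - (q : ℂ) * w‖ ^ 2 := by gcongr
  have h7 : ‖w‖ * (1 - q) * ‖(1 : ℂ) - q * w ^ 2‖ ≤ 1 * (1 - q) * (3 * ‖1 - w‖) := by
    gcongr
  calc ‖w‖ * (1 - q) * ‖(1 : ℂ) - q * w ^ 2‖ * ‖1 - w‖ ^ 3
      ≤ 1 * (1 - q) * (3 * ‖1 - w‖) * ‖1 - w‖ ^ 3 := by gcongr
    _ = 12 * (1 - q) * ((‖1 - w‖ / 2) ^ 2 * ‖1 - w‖ ^ 2) := by ring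
    _ ≤ 12 * (1 - q) * (‖1 - (q : ℂ) * w‖ ^ 2 * ‖1 - w‖ ^ 2) := by
      have : 0 ≤ 1 - q := by linarith only [hq1]
      (clear * - h6 hn3 hq1; gcongr)

/-- size of `k3 / (1 - q)` -/
theorem ker_k3_le (hq : 1 / 2 ≤ q) (hq1 : q < 1) (hw : ‖w‖ ≤ q ^ 2) :
    ‖w * (1 + q) / (((q : ℂ) - w) * (1 - (q : ℂ) * w))‖ ≤ 12 / ‖1 - w‖ ^ 2 := by
  have hw1 : ‖w‖ < 1 := by nlinarith
  have hd := ker_d1 hw1
  have hn1 := ker_ne1 hq hq1 hw
  have hn2 := ker_ne2 hq hq1 hw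
  have h5 : ‖1 - w‖ / 3 ≤ ‖(q : ℂ) - w‖ := by linarith only [ker_qw hq hq1 hw]
  have h6 : ‖1 - w‖ / 2 ≤ ‖1 - (q : ℂ) * w‖ := by linarith only [ker_1qw hq hq1 hw]
  have hqn : ‖(1 : ℂ) + q‖ = 1 + q := by
    have : (1 : ℂ) + q = ((1 + q : ℝ) : ℂ) := by push_cast; ring
    rw [this, Complex.norm_real, Real.norm_of_nonneg (by linarith only [hq])]
  rw [norm_div, norm_mul, norm_mul, hqn]
  have h7 : 0 < ‖(q : ℂ) - w‖ := norm_pos_iff.mpr hn1
  have h8 : 0 < ‖1 - (q : ℂ) * w‖ := norm_pos_iff.mpr hn2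
  rw [div_le_div_iff₀ (by positivity) (by positivity)]
  calc ‖w‖ * (1 + q) * ‖1 - w‖ ^ 2 ≤ 1 * 2 * ‖1 - w‖ ^ 2 := by
        gcongr
        (clear * - hq1; linarith only [hq1])
    _ = 12 * ((‖1 - w‖ / 3) * (‖1 - w‖ / 2)) := by ring
    _ ≤ 12 * (‖(q : ℂ) - w‖ * ‖1 - (q : ℂ) * w‖) := by (clear * - h5 h6 hd hn1; gcongr)

/-- `k3 / (1 - q)` against `2 w / (1 - w)²` -/
theorem ker_k3 (hq : 1 / 2 ≤ q) (hq1 : q < 1) (hw : ‖w‖ ≤ q ^ 2) :
    ‖w * (1 + q) / (((q : ℂ) - w) * (1 - (q : ℂ) * w)) - 2 * (w / (1 - w) ^ 2)‖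
      ≤ 24 * (1 - q) / ‖1 - w‖ ^ 3 := by
  have hw1 : ‖w‖ < 1 := by (clear * - hq1 hw hq; nlinarith)
  have hd := ker_d1 hw1
  have hn1 := ker_ne1 hq hq1 hw
  have hn2 := ker_ne2 hq hq1 hw
  have hn3 : 1 - w ≠ 0 := norm_pos_iff.mp hd
  have e : w * (1 + q) / (((q : ℂ) - w) * (1 - (q : ℂ) * w)) - 2 * (w / (1 - w) ^ 2)
      = w * (1 - q) * (1 - 2 * q * w + w ^ 2)
        / (((q : ℂ) - w) * (1 - (q : ℂ) * w) * (1 - w) ^ 2) := by
    rw [eq_div_iff (mul_ne_zero (mul_ne_zero hn1 hn2) (pow_ne_zero 2 hn3)), sub_mul]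
    have e1 : w * (1 + q) / (((q : ℂ) - w) * (1 - (q : ℂ) * w))
        * (((q : ℂ) - w) * (1 - (q : ℂ) * w) * (1 - w) ^ 2) = w * (1 + q) * (1 - w) ^ 2 := by
      rw [← mul_assoc, div_mul_cancel₀ _ (mul_ne_zero hn1 hn2)]
    have e2 : 2 * (w / (1 - w) ^ 2) * (((q : ℂ) - w) * (1 - (q : ℂ) * w) * (1 - w) ^ 2)
        = 2 * w * (((q : ℂ) - w) * (1 - (q : ℂ) * w)) := by
      have : w / (1 - w) ^ 2 * (1 - w) ^ 2 = w := div_mul_cancel₀ _ (pow_ne_zero 2 hn3)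
      linear_combination (2 * (((q : ℂ) - w) * (1 - (q : ℂ) * w))) * this
    rw [e1, e2]
    ring
  have h1 : ‖(1 : ℂ) - 2 * q * w + w ^ 2‖ ≤ 4 * ‖1 - w‖ := by
    have h2 : (1 : ℂ) - 2 * q * w + w ^ 2 = (1 - w) * (1 - w) + (((1 - q : ℝ)) : ℂ) * (2 * w) := by
      push_cast
      ring
    have h3 : ‖(1 - w) * (1 - w)‖ ≤ 2 * ‖1 - w‖ := by
      rw [norm_mul]
      have : ‖1 - w‖ ≤ 2 := by
        have := norm_sub_le (1 : ℂ) w
        rw [norm_one] at this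
        linarith only [hw1, this]
      (clear * - this hd; nlinarith only [hd, this])
    have h4 : ‖(((1 - q : ℝ)) : ℂ) * (2 * w)‖ ≤ 2 * ‖1 - w‖ := by
      rw [norm_mul, norm_mul, Complex.norm_real, Real.norm_of_nonneg (by linarith only [hq1]),
        Complex.norm_ofNat]
      have h5 := ker_q_le hq hq1 hw
      nlinarith only [hq1, hw1, h5]
    rw [h2]
    exact (norm_add_le _ _).trans (by linarith only [h3, h4])
  have hqn : ‖(1 : ℂ) - q‖ = 1 - q := by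
    have : (1 : ℂ) - q = ((1 - q : ℝ) : ℂ) := by push_cast; ring
    rw [this, Complex.norm_real, Real.norm_of_nonneg (by linarith only [hq1])]
  rw [e, norm_div, norm_mul, norm_mul, norm_mul, norm_mul, norm_pow, hqn]
  have h5 : ‖1 - w‖ / 3 ≤ ‖(q : ℂ) - w‖ := by linarith only [ker_qw hq hq1 hw]
  have h6 : ‖1 - w‖ / 2 ≤ ‖1 - (q : ℂ) * w‖ := by linarith only [ker_1qw hq hq1 hw]
  have h7 : 0 < ‖(q : ℂ) - w‖ := norm_pos_iff.mpr hn1
  have h8 : 0 < ‖1 - (q : ℂ) * w‖ := norm_pos_iff.mpr hn2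
  rw [div_le_div_iff₀ (by positivity) (by positivity)]
  have h9 : 0 ≤ 1 - q := by linarith only [hq1]
  calc ‖w‖ * (1 - q) * ‖(1 : ℂ) - 2 * q * w + w ^ 2‖ * ‖1 - w‖ ^ 3
      ≤ 1 * (1 - q) * (4 * ‖1 - w‖) * ‖1 - w‖ ^ 3 := by (clear * - hw1 hq1 h1 hn3; gcongr)
    _ = 24 * (1 - q) * ((‖1 - w‖ / 3) * (‖1 - w‖ / 2) * ‖1 - w‖ ^ 2) := by ring
    _ ≤ 24 * (1 - q) * (‖(q : ℂ) - w‖ * ‖1 - (q : ℂ) * w‖ * ‖1 - w‖ ^ 2) := by (clear * - h5 h6 hn3 hn1 hq1; gcongr)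

/-- `k5` -/
theorem ker_k5 (hq : 1 / 2 ≤ q) (hq1 : q < 1) (hw : ‖w‖ ≤ q ^ 2) :
    ‖((q : ℂ) + w) / ((q : ℂ) - w) + (1 + (q : ℂ) * w) / (1 - (q : ℂ) * w)‖
      ≤ 24 / ‖1 - w‖ := by
  have hw1 : ‖w‖ < 1 := by nlinarith
  have hd := ker_d1 hw1
  have hn1 := ker_ne1 hq hq1 hw
  have hn2 := ker_ne2 hq hq1 hw
  have e : ((q : ℂ) + w) / ((q : ℂ) - w) + (1 + (q : ℂ) * w) / (1 - (q : ℂ) * w)
      = 2 * q * ((1 - w) * (1 + w)) / (((q : ℂ) - w) * (1 - (q : ℂ) * w)) := by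
    rw [div_add_div _ _ hn1 hn2]
    congr 1
    ring
  have h5 : ‖1 - w‖ / 3 ≤ ‖(q : ℂ) - w‖ := by (clear * - hq hq1 hw; linarith only [ker_qw hq hq1 hw])
  have h6 : ‖1 - w‖ / 2 ≤ ‖1 - (q : ℂ) * w‖ := by (clear * - hq hq1 hw; linarith only [ker_1qw hq hq1 hw])
  have h7 : 0 < ‖(q : ℂ) - w‖ := norm_pos_iff.mpr hn1
  have h8 : 0 < ‖1 - (q : ℂ) * w‖ := norm_pos_iff.mpr hn2
  have h9 : ‖1 + w‖ ≤ 2 := by
    have := norm_add_le (1 : ℂ) w
    rw [norm_one] at this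
    linarith only [hw1, this]
  rw [e, norm_div, norm_mul, norm_mul, norm_mul, norm_mul, Complex.norm_real,
    Real.norm_of_nonneg (by (clear * - hq; linarith only [hq])), Complex.norm_ofNat]
  rw [div_le_div_iff₀ (by (clear * - hn1 hn2; positivity)) (by positivity)]
  calc 2 * q * (‖1 - w‖ * ‖1 + w‖) * ‖1 - w‖ ≤ 2 * 1 * (‖1 - w‖ * 2) * ‖1 - w‖ := by (clear * - hq1 h9 hd; gcongr)
    _ = 24 * ((‖1 - w‖ / 3) * (‖1 - w‖ / 2)) := by ring
    _ ≤ 24 * (‖(q : ℂ) - w‖ * ‖1 - (q : ℂ) * w‖) := by (clear * - h5 h6 hd hn1; gcongr)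

/-- `4 w² / (1 - w²)²` against `w / (1 - w)²` -/
theorem ker_om (hw1 : ‖w‖ < 1) (hre : 0 ≤ w.re) :
    ‖w / (1 - w) ^ 2 - 4 * w ^ 2 / (1 - w ^ 2) ^ 2‖ ≤ 1 := by
  have hd := ker_d1 hw1
  have hn3 : 1 - w ≠ 0 := norm_pos_iff.mp hd
  have h1 : 1 ≤ ‖1 + w‖ := by
    have h2 : (1 + w).re ≤ ‖1 + w‖ := Complex.re_le_norm _
    rw [Complex.add_re, Complex.one_re] at h2
    linarith only [hre, h2]
  have hn4 : 1 + w ≠ 0 := by
    rw [← norm_pos_iff]
    linarith only [h1]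
  have hf : 1 - w ^ 2 = (1 - w) * (1 + w) := by ring
  have e : w / (1 - w) ^ 2 - 4 * w ^ 2 / (1 - w ^ 2) ^ 2 = w / (1 + w) ^ 2 := by
    rw [hf]
    field_simp
    ring
  rw [e, norm_div, norm_pow, div_le_one (by positivity)]
  (clear * - hw1 h1; nlinarith only [hw1, h1])

end kernels

end Pool.Agent.Helper14.CK

end

section

namespace Pool.Agent.Helper39.Area
end Pool.Agent.Helper39.Area
namespace Pool.Agent.Helper52.EK
end Pool.Agent.Helper52.EK
namespace Pool.Agent.Helper52.CK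
end Pool.Agent.Helper52.CK

/-!
Pointwise bounds of the kernels of the first variation in the original coordinates.
-/

set_option autoImplicit false

open Complex MeasureTheory Metric Set Filter Topology

open scoped Real ComplexConjugate

namespace Pool.Agent.Helper14.CK

open Pool.Agent.Helper39.Area Pool.Agent.Helper52.EK Pool.Agent.Helper52.CK

section

variable {ζ w : ℂ} {q : ℝ}

theorem conj_unit (hζ : ‖ζ‖ = 1) : conj ζ * ζ = 1 := by
  rw [mul_comm, Complex.mul_conj, Complex.normSq_eq_norm_sq, hζ]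
  norm_num

theorem unit_ne (hζ : ‖ζ‖ = 1) : ζ ≠ 0 := by
  intro h
  rw [h, norm_zero] at hζ
  exact zero_ne_one hζ

theorem one_sub_conj (hζ : ‖ζ‖ = 1) :
    1 - (w * ζ) * conj ((q : ℂ) * ζ) = 1 - (q : ℂ) * w := by
  rw [map_mul, Complex.conj_ofReal]
  linear_combination (-(w * q)) * conj_unit hζ

theorem k1_rot (hζ : ‖ζ‖ = 1) : k1 ((q : ℂ) * ζ) (w * ζ)
    = (q : ℂ) * w / ((q : ℂ) - w) ^ 2 + (q : ℂ) * w / (1 - (q : ℂ) * w) ^ 2 := by
  have h0 := unit_ne hζ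
  rw [k1, one_sub_conj hζ]
  congr 1
  · have e1 : (q : ℂ) * ζ * (w * ζ) = ((q : ℂ) * w) * ζ ^ 2 := by ring
    have e2 : ((q : ℂ) * ζ - w * ζ) ^ 2 = ((q : ℂ) - w) ^ 2 * ζ ^ 2 := by ring
    rw [e1, e2, mul_div_mul_right _ _ (pow_ne_zero 2 h0)]
  · congr 1
    rw [map_mul, Complex.conj_ofReal]
    linear_combination (q * w) * conj_unit hζ

theorem k3_rot (hζ : ‖ζ‖ = 1) (hq : 0 ≤ q) : k3 ((q : ℂ) * ζ) (w * ζ)
    = (1 - q) * (w * (1 + q) / (((q : ℂ) - w) * (1 - (q : ℂ) * w))) := by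
  have h0 := unit_ne hζ
  have hn : ‖(q : ℂ) * ζ‖ = q := by
    rw [norm_mul, hζ, mul_one, Complex.norm_real, Real.norm_of_nonneg hq]
  rw [k3, one_sub_conj hζ, hn]
  have e1 : w * ζ * (1 - (q : ℂ) ^ 2) = ((1 - q) * (w * (1 + q))) * ζ := by ring
  have e2 : ((q : ℂ) * ζ - w * ζ) * (1 - (q : ℂ) * w)
      = (((q : ℂ) - w) * (1 - (q : ℂ) * w)) * ζ := by ring
  rw [e1, e2, mul_div_mul_right _ _ h0, mul_div_assoc]

theorem k5_rot (hζ : ‖ζ‖ = 1) : k5 ((q : ℂ) * ζ) (w * ζ)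
    = I / 2 * (((q : ℂ) + w) / ((q : ℂ) - w) + (1 + (q : ℂ) * w) / (1 - (q : ℂ) * w)) := by
  have h0 := unit_ne hζ
  rw [k5, one_sub_conj hζ]
  have e1 : (q : ℂ) * ζ + w * ζ = ((q : ℂ) + w) * ζ := by ring
  have e2 : (q : ℂ) * ζ - w * ζ = ((q : ℂ) - w) * ζ := by ring
  have e3 : 1 + (w * ζ) * conj ((q : ℂ) * ζ) = 1 + (q : ℂ) * w := by
    rw [map_mul, Complex.conj_ofReal]
    linear_combination (w * q) * conj_unit hζ
  rw [e1, e2, e3, mul_div_mul_right _ _ h0]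

theorem omp_rot (hζ : ‖ζ‖ = 1) : (w * ζ) ^ 2 * (2 * ζ / (ζ ^ 2 - (w * ζ) ^ 2)) ^ 2
    = 4 * w ^ 2 / (1 - w ^ 2) ^ 2 := by
  have h0 := unit_ne hζ
  have e1 : ζ ^ 2 - (w * ζ) ^ 2 = ζ * (ζ * (1 - w ^ 2)) := by ring
  have e2 : 2 * ζ / (ζ ^ 2 - (w * ζ) ^ 2) = 2 / (ζ * (1 - w ^ 2)) := by
    rw [e1, mul_comm 2 ζ, mul_div_mul_left _ _ h0]
  rw [e2, div_pow, mul_pow, mul_pow]
  have e3 : w ^ 2 * ζ ^ 2 * (2 ^ 2 / (ζ ^ 2 * (1 - w ^ 2) ^ 2))
      = (4 * w ^ 2 * ζ ^ 2) / ((1 - w ^ 2) ^ 2 * ζ ^ 2) := by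
    rw [mul_div_assoc']
    congr 1
    · ring
    · ring
  rw [e3, mul_div_mul_right _ _ (pow_ne_zero 2 h0)]

end

/-- data of a pair (target, observer) -/
structure Pr (x θ : ℝ) (z0 : ℂ) : Prop where
  x0 : 0 < x
  x1 : x ≤ 1 / 4
  z1 : ‖z0‖ ≤ Real.exp (-2 * x)

section

variable {x θ : ℝ} {z0 : ℂ}

/-- the rotated observer -/
noncomputable def rw0 (θ : ℝ) (z0 : ℂ) : ℂ := z0 * Complex.exp (-(θ * I))

theorem rw0_mul (θ : ℝ) (z0 : ℂ) : rw0 θ z0 * Complex.exp (θ * I) = z0 := by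
  rw [rw0, mul_assoc, ← Complex.exp_add]
  simp

theorem norm_rw0 (θ : ℝ) (z0 : ℂ) : ‖rw0 θ z0‖ = ‖z0‖ := by
  rw [rw0, norm_mul, Complex.norm_exp]
  simp

theorem norm_one_sub_rw0 (θ : ℝ) (z0 : ℂ) :
    ‖1 - rw0 θ z0‖ = ‖Complex.exp (θ * I) - z0‖ := by
  have h1 : Complex.exp (θ * I) - z0 = (1 - rw0 θ z0) * Complex.exp (θ * I) := by
    rw [sub_mul, one_mul, rw0_mul]
  rw [h1, norm_mul, Complex.norm_exp_ofReal_mul_I, mul_one]

theorem ep_eq (x θ : ℝ) : ep (-x) θ = ((Real.exp (-x) : ℝ) : ℂ) * Complex.exp (θ * I) := by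
  rw [ep, Complex.exp_add, Complex.ofReal_exp]

theorem Pr.q1 (h : Pr x θ z0) : Real.exp (-x) < 1 := by
  rw [Real.exp_lt_one_iff]
  (clear * - h; linarith [h.x0])

theorem Pr.qx (h : Pr x θ z0) : 1 - x ≤ Real.exp (-x) := by
  have := Real.add_one_le_exp (-x)
  linarith only [this]

theorem Pr.qh (h : Pr x θ z0) : 1 / 2 ≤ Real.exp (-x) := by
  linarith only [h.qx, h.x1]

theorem Pr.w1 (h : Pr x θ z0) : ‖rw0 θ z0‖ ≤ Real.exp (-x) ^ 2 := by
  rw [norm_rw0, ← Real.exp_nat_mul]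
  refine h.z1.trans (le_of_eq ?_)
  congr 1
  push_cast
  ring

theorem Pr.wlt (h : Pr x θ z0) : ‖rw0 θ z0‖ < 1 := by
  have h1 := h.w1
  have h2 := h.q1
  have h3 := Real.exp_pos (-x)
  (clear * - h1 h2 h3; nlinarith only [h1, h2, h3])

theorem Pr.d0 (h : Pr x θ z0) : 0 < ‖Complex.exp (θ * I) - z0‖ := by
  rw [← norm_one_sub_rw0]
  exact ker_d1 h.wlt

/-- `(1 - q) / x` is close to `1` -/
theorem Pr.ratio (h : Pr x θ z0) :
    |(1 - Real.exp (-x)) / x - 1| ≤ 1 - Real.exp (-x) := by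
  have hx := h.x0
  have h1 := h.qx
  have h2 : x * Real.exp (-x) ≤ 1 - Real.exp (-x) := by
    have h3 : 1 + x ≤ Real.exp x := by
      have := Real.add_one_le_exp x
      linarith only [this]
    have h4 : (1 + x) * Real.exp (-x) ≤ 1 := by
      calc (1 + x) * Real.exp (-x) ≤ Real.exp x * Real.exp (-x) := by
            have := Real.exp_pos (-x)
            (clear * - h3; gcongr)
        _ = 1 := by rw [← Real.exp_add]; simp
    (clear * - h4; linarith only [h4])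
  rw [abs_le]
  constructor
  · have : Real.exp (-x) ≤ (1 - Real.exp (-x)) / x := by
      rw [le_div_iff₀ hx]
      linarith only [h2]
    (clear * - this; linarith)
  · have : (1 - Real.exp (-x)) / x ≤ 1 := by
      rw [div_le_one hx]
      linarith only [h1]
    linarith only [h.q1, this]

/-- the cubic error -/
noncomputable def Er (x θ : ℝ) (z0 : ℂ) : ℝ :=
  x * ((1 / (1 - ‖z0‖)) / ‖Complex.exp (θ * I) - z0‖ ^ 2)

theorem Pr.zlt (h : Pr x θ z0) : ‖z0‖ < 1 := by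
  have := h.wlt
  rwa [norm_rw0] at this

theorem Pr.er_nn (h : Pr x θ z0) : 0 ≤ Er x θ z0 := by
  have h1 := h.zlt
  have h2 := h.x0
  have h3 : 0 ≤ 1 / (1 - ‖z0‖) := by
    apply div_nonneg one_pos.le
    linarith only [h1]
  unfold Er
  (clear * - h2 h1; positivity)

theorem Pr.er (h : Pr x θ z0) :
    (1 - Real.exp (-x)) / ‖1 - rw0 θ z0‖ ^ 3 ≤ Er x θ z0 := by
  have h1 := h.zlt
  have h2 := h.x0
  have h3 : 0 < 1 - ‖z0‖ := by linarith only [h1]
  have h4 : 1 - ‖z0‖ ≤ ‖Complex.exp (θ * I) - z0‖ := by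
    have := norm_sub_norm_le (Complex.exp (θ * I)) z0
    rwa [Complex.norm_exp_ofReal_mul_I] at this
  have h5 := h.d0
  rw [norm_one_sub_rw0, Er, div_div, mul_one_div]
  have h6 : 1 - Real.exp (-x) ≤ x := by (clear * - h; linarith only [h.qx])
  rw [div_le_div_iff₀ (by (clear * - h5; positivity)) (by (clear * - h1 h5; positivity))]
  have h7 : 0 ≤ 1 - Real.exp (-x) := by linarith only [h.q1]
  calc (1 - Real.exp (-x)) * ((1 - ‖z0‖) * ‖Complex.exp (θ * I) - z0‖ ^ 2)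
      ≤ x * (‖Complex.exp (θ * I) - z0‖ * ‖Complex.exp (θ * I) - z0‖ ^ 2) := by gcongr
    _ = x * ‖Complex.exp (θ * I) - z0‖ ^ 3 := by ring

/-- the model kernel -/
noncomputable def Kw (θ : ℝ) (z0 : ℂ) : ℂ := rw0 θ z0 / (1 - rw0 θ z0) ^ 2

theorem Pr.k1_le (h : Pr x θ z0) :
    ‖k1 (ep (-x) θ) z0 - 2 * Kw θ z0‖ ≤ 39 * Er x θ z0 := by
  have h1 := ker_k1 h.qh h.q1 h.w1
  have h2 := ker_k2 h.qh h.q1 h.w1
  have h3 := h.er
  have h4 : k1 (ep (-x) θ) z0 - 2 * Kw θ z0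
      = (((Real.exp (-x) : ℝ) : ℂ) * rw0 θ z0 / (((Real.exp (-x) : ℝ) : ℂ) - rw0 θ z0) ^ 2
          - rw0 θ z0 / (1 - rw0 θ z0) ^ 2)
        + (((Real.exp (-x) : ℝ) : ℂ) * rw0 θ z0 / (1 - ((Real.exp (-x) : ℝ) : ℂ) * rw0 θ z0) ^ 2
          - rw0 θ z0 / (1 - rw0 θ z0) ^ 2) := by
    have h5 := k1_rot (ζ := Complex.exp (θ * I)) (w := rw0 θ z0) (q := Real.exp (-x))
      (Complex.norm_exp_ofReal_mul_I θ)
    rw [rw0_mul, ← ep_eq] at h5
    rw [h5, Kw]
    ring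
  rw [h4]
  refine (norm_add_le _ _).trans ?_
  have h6 : 27 * (1 - Real.exp (-x)) / ‖1 - rw0 θ z0‖ ^ 3 ≤ 27 * Er x θ z0 := by
    rw [mul_div_assoc]
    (clear * - h3; gcongr)
  have h7 : 12 * (1 - Real.exp (-x)) / ‖1 - rw0 θ z0‖ ^ 3 ≤ 12 * Er x θ z0 := by
    rw [mul_div_assoc]
    gcongr
  linarith only [h1, h2, h6, h7]

theorem Pr.sq_le (h : Pr x θ z0) :
    (1 - Real.exp (-x)) * (12 / ‖1 - rw0 θ z0‖ ^ 2) ≤ 24 * Er x θ z0 := by
  have h1 := h.er
  have h2 : 0 < ‖1 - rw0 θ z0‖ := ker_d1 h.wlt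
  have h3 : ‖1 - rw0 θ z0‖ ≤ 2 := by
    have := norm_sub_le (1 : ℂ) (rw0 θ z0)
    rw [norm_one] at this
    linarith only [h.wlt, this]
  have h4 : 0 ≤ 1 - Real.exp (-x) := by (clear * - h; linarith only [h.q1])
  have h5 : (1 - Real.exp (-x)) * (12 / ‖1 - rw0 θ z0‖ ^ 2)
      = 12 * ‖1 - rw0 θ z0‖ * ((1 - Real.exp (-x)) / ‖1 - rw0 θ z0‖ ^ 3) := by
    (clear * - h2; field_simp)
  rw [h5]
  calc 12 * ‖1 - rw0 θ z0‖ * ((1 - Real.exp (-x)) / ‖1 - rw0 θ z0‖ ^ 3)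
      ≤ 12 * 2 * Er x θ z0 := by gcongr
    _ = 24 * Er x θ z0 := by ring

theorem Pr.k3_eq (h : Pr x θ z0) : k3 (ep (-x) θ) z0
    = (1 - ((Real.exp (-x) : ℝ) : ℂ)) * (rw0 θ z0 * (1 + ((Real.exp (-x) : ℝ) : ℂ)) /
      ((((Real.exp (-x) : ℝ) : ℂ) - rw0 θ z0) * (1 - ((Real.exp (-x) : ℝ) : ℂ) * rw0 θ z0))) := by
  have h5 := k3_rot (ζ := Complex.exp (θ * I)) (w := rw0 θ z0) (q := Real.exp (-x))
    (Complex.norm_exp_ofReal_mul_I θ) (Real.exp_pos _).le
  rw [rw0_mul, ← ep_eq] at h5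
  exact h5

theorem Pr.k3_le (h : Pr x θ z0) : ‖k3 (ep (-x) θ) z0‖ ≤ 24 * Er x θ z0 := by
  rw [h.k3_eq, norm_mul]
  have h1 := ker_k3_le h.qh h.q1 h.w1
  have h2 : ‖(1 : ℂ) - ((Real.exp (-x) : ℝ) : ℂ)‖ = 1 - Real.exp (-x) := by
    have : (1 : ℂ) - ((Real.exp (-x) : ℝ) : ℂ) = ((1 - Real.exp (-x) : ℝ) : ℂ) := by
      push_cast
      ring
    rw [this, Complex.norm_real, Real.norm_of_nonneg (by (clear * - h; linarith only [h.q1]))]
  rw [h2]
  have h4 : 0 ≤ 1 - Real.exp (-x) := by (clear * - h; linarith only [h.q1])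
  exact (mul_le_mul_of_nonneg_left h1 h4).trans h.sq_le

theorem Pr.k3_div (h : Pr x θ z0) :
    ‖k3 (ep (-x) θ) z0 / x - 2 * Kw θ z0‖ ≤ 48 * Er x θ z0 := by
  have hx := h.x0
  set T : ℂ := rw0 θ z0 * (1 + ((Real.exp (-x) : ℝ) : ℂ)) /
      ((((Real.exp (-x) : ℝ) : ℂ) - rw0 θ z0) * (1 - ((Real.exp (-x) : ℝ) : ℂ) * rw0 θ z0)) with hT
  have h1 := ker_k3_le h.qh h.q1 h.w1
  have h2 := ker_k3 h.qh h.q1 h.w1
  have h3 : k3 (ep (-x) θ) z0 / x - 2 * Kw θ z0
      = (((1 - Real.exp (-x)) / x - 1 : ℝ) : ℂ) * T + (T - 2 * Kw θ z0) := by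
    rw [h.k3_eq, ← hT]
    push_cast
    ring
  rw [h3]
  refine (norm_add_le _ _).trans ?_
  have h4 : ‖(((1 - Real.exp (-x)) / x - 1 : ℝ) : ℂ) * T‖ ≤ 24 * Er x θ z0 := by
    rw [norm_mul, Complex.norm_real, Real.norm_eq_abs]
    have h5 : 0 ≤ 1 - Real.exp (-x) := by linarith only [h.q1]
    calc |(1 - Real.exp (-x)) / x - 1| * ‖T‖
        ≤ (1 - Real.exp (-x)) * (12 / ‖1 - rw0 θ z0‖ ^ 2) := by
          have := h.ratio
          gcongr
      _ ≤ 24 * Er x θ z0 := h.sq_le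
  have h5 : ‖T - 2 * Kw θ z0‖ ≤ 24 * Er x θ z0 := by
    refine h2.trans ?_
    rw [mul_div_assoc]
    have := h.er
    (clear * - this; gcongr)
  (clear * - h4 h5; linarith only [h4, h5])

theorem Pr.k5_le (h : Pr x θ z0) :
    ‖k5 (ep (-x) θ) z0‖ ≤ 12 * (1 / ‖Complex.exp (θ * I) - z0‖) := by
  have h5 := k5_rot (ζ := Complex.exp (θ * I)) (w := rw0 θ z0) (q := Real.exp (-x))
    (Complex.norm_exp_ofReal_mul_I θ)
  rw [rw0_mul, ← ep_eq] at h5
  have h6 := ker_k5 h.qh h.q1 h.w1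
  rw [h5, norm_mul, ← norm_one_sub_rw0]
  have h7 : ‖I / 2‖ = 1 / 2 := by simp
  rw [h7]
  calc 1 / 2 * ‖_‖ ≤ 1 / 2 * (24 / ‖1 - rw0 θ z0‖) := by gcongr
    _ = 12 * (1 / ‖1 - rw0 θ z0‖) := by ring

theorem omp_sq (θ : ℝ) (z0 : ℂ) :
    z0 ^ 2 * omp θ z0 ^ 2 = 4 * rw0 θ z0 ^ 2 / (1 - rw0 θ z0 ^ 2) ^ 2 := by
  have h := omp_rot (ζ := Complex.exp (θ * I)) (w := rw0 θ z0) (Complex.norm_exp_ofReal_mul_I θ)
  rw [rw0_mul] at h
  exact h

theorem Pr.om (h : Pr x θ z0) (hre : 0 ≤ (rw0 θ z0).re) :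
    ‖Kw θ z0 - z0 ^ 2 * omp θ z0 ^ 2‖ ≤ 1 := by
  rw [omp_sq, Kw]
  exact ker_om h.wlt hre

/-- size of `omp` -/
theorem Pr.omp_le (h : Pr x θ z0) (hre : 0 ≤ (rw0 θ z0).re) :
    ‖omp θ z0‖ ^ 2 ≤ 1 / ‖Complex.exp (θ * I) - z0‖ ^ 2
      + 2 * (1 / ‖Complex.exp (θ * I) - z0‖) + 1 := by
  have h1 := h.d0
  set ζ : ℂ := Complex.exp (θ * I) with hζ
  have h2 : 1 ≤ ‖ζ + z0‖ := by
    have h3 : ζ + z0 = (1 + rw0 θ z0) * ζ := by
      rw [add_mul, one_mul, hζ, rw0_mul]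
    rw [h3, norm_mul, hζ, Complex.norm_exp_ofReal_mul_I, mul_one]
    have h4 : (1 + rw0 θ z0).re ≤ ‖1 + rw0 θ z0‖ := Complex.re_le_norm _
    rw [Complex.add_re, Complex.one_re] at h4
    linarith
  have h3 : ζ - z0 ≠ 0 := norm_pos_iff.mp h1
  have h4 : ζ + z0 ≠ 0 := by
    rw [← norm_pos_iff]
    (clear * - h2; linarith only [h2])
  have h5 : omp θ z0 = 1 / (ζ - z0) + 1 / (ζ + z0) := by
    rw [omp, ← hζ, div_add_div _ _ h3 h4]
    congr 1
    · ring
    · ring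
  have h6 : ‖omp θ z0‖ ≤ 1 / ‖ζ - z0‖ + 1 := by
    rw [h5]
    refine (norm_add_le _ _).trans ?_
    rw [norm_div, norm_div, norm_one]
    have : 1 / ‖ζ + z0‖ ≤ 1 := by
      rw [div_le_one (by (clear * - h2; linarith only [h2]))]
      exact h2
    linarith only [this]
  calc ‖omp θ z0‖ ^ 2 ≤ (1 / ‖ζ - z0‖ + 1) ^ 2 := by (clear * - h6; gcongr)
    _ = 1 / ‖ζ - z0‖ ^ 2 + 2 * (1 / ‖ζ - z0‖) + 1 := by
      rw [add_sq, div_pow, one_pow]
      ring

/-- the real part of the rotated observer is positive near `1` -/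
theorem rw0_re (hθ : |θ| ≤ 1 / 2) (hz : ‖z0 - 1‖ ≤ 1 / 2) : 0 ≤ (rw0 θ z0).re := by
  have h1 : rw0 θ z0 = Complex.exp (((-θ : ℝ) : ℂ) * I)
      + (z0 - 1) * Complex.exp (((-θ : ℝ) : ℂ) * I) := by
    rw [rw0]
    push_cast
    rw [neg_mul]
    ring
  have h2 : (Complex.exp (((-θ : ℝ) : ℂ) * I)).re = Real.cos θ := by
    rw [Complex.exp_ofReal_mul_I_re, Real.cos_neg]
  have h3 : -(1 / 2 : ℝ) ≤ ((z0 - 1) * Complex.exp (((-θ : ℝ) : ℂ) * I)).re := by
    have h4 := Complex.abs_re_le_norm ((z0 - 1) * Complex.exp (((-θ : ℝ) : ℂ) * I))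
    rw [norm_mul, Complex.norm_exp_ofReal_mul_I, mul_one] at h4
    have h5 := neg_abs_le ((z0 - 1) * Complex.exp (((-θ : ℝ) : ℂ) * I)).re
    (clear * - hz h4 h5; linarith only [hz, h4, h5])
  have h6 : 1 / 2 ≤ Real.cos θ := by
    have h7 := Real.one_sub_sq_div_two_le_cos (x := θ)
    have h8 : θ ^ 2 ≤ 1 / 4 := by
      rw [← sq_abs]
      (clear * - hθ; nlinarith only [abs_nonneg θ, hθ])
    (clear * - h7 h8; linarith)
  rw [h1, Complex.add_re, h2]
  (clear * - h3 h6; linarith only [h3, h6])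

end

end Pool.Agent.Helper14.CK

end

section

namespace Pool.Agent.Helper39.Area
end Pool.Agent.Helper39.Area
namespace Pool.Agent.Helper52.EK
end Pool.Agent.Helper52.EK

/-!
Plane integrals used for the kernels: radial weights against `‖ζ - z‖ ^ (-2)`, and `‖ζ - z‖ ^ (-1)`.
-/

set_option autoImplicit false

open Complex MeasureTheory Metric Set Filter Topology

open scoped Real ComplexConjugate

namespace Pool.Agent.Helper14.CK

open Pool.Agent.Helper39.Area Pool.Agent.Helper52.EK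

/-- polar coordinates on a ball -/
theorem polar_ball {ρ : ℝ} {f : ℂ → ℝ} (hf : ContinuousOn f (closedBall 0 ρ)) :
    ∫ z in ball (0:ℂ) ρ, f z =
      ∫ s in Ioo 0 ρ, ∫ θ in Ioo (-π) π, s * f ((s:ℂ) * Complex.exp (θ * I)) := by
  rw [← integral_indicator measurableSet_ball, ← Complex.integral_comp_polarCoord_symm]
  have h2 : ∫ p in polarCoord.target, p.1 • (ball (0:ℂ) ρ).indicator f
      (Complex.polarCoord.symm p) = ∫ p in Ioo 0 ρ ×ˢ Ioo (-π) π,
        p.1 * f ((p.1:ℂ) * Complex.exp (p.2 * I)) := by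
    have h3 : ∀ p ∈ polarCoord.target, p.1 • (ball (0:ℂ) ρ).indicator f
        (Complex.polarCoord.symm p) = (Ioo 0 ρ ×ˢ Ioo (-π) π).indicator
          (fun p => p.1 * f ((p.1:ℂ) * Complex.exp (p.2 * I))) p := by
      rintro ⟨r, θ⟩ ⟨hr, hθ⟩
      simp only [mem_Ioi] at hr hθ
      have h4 : Complex.polarCoord.symm (r, θ) = (r:ℂ) * Complex.exp (θ * I) := by
        rw [Complex.polarCoord_symm_apply, Complex.exp_mul_I, Complex.ofReal_cos,
          Complex.ofReal_sin]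
      have h5 : ‖Complex.polarCoord.symm (r, θ)‖ = r := by
        rw [h4, norm_mul, Complex.norm_exp_ofReal_mul_I, mul_one, Complex.norm_real,
          Real.norm_of_nonneg hr.le]
      by_cases hrρ : r < ρ
      · rw [indicator_of_mem (by rw [mem_ball, dist_zero_right, h5]; exact hrρ),
          indicator_of_mem (show (r, θ) ∈ Ioo 0 ρ ×ˢ Ioo (-π) π from ⟨⟨hr, hrρ⟩, hθ⟩), h4,
          smul_eq_mul]
      · rw [indicator_of_notMem (by rw [mem_ball, dist_zero_right, h5]; exact hrρ),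
          indicator_of_notMem (fun h : (r, θ) ∈ Ioo 0 ρ ×ˢ Ioo (-π) π => hrρ h.1.2), smul_zero]
    rw [setIntegral_congr_fun polarCoord.open_target.measurableSet h3,
      setIntegral_indicator (measurableSet_Ioo.prod measurableSet_Ioo)]
    congr 2
    apply inter_eq_right.2
    rintro ⟨r, θ⟩ ⟨hr, hθ⟩
    exact ⟨hr.1, hθ⟩
  rw [h2, Measure.volume_eq_prod, setIntegral_prod]
  have h6 : ContinuousOn (fun p : ℝ × ℝ => p.1 * f ((p.1:ℂ) * Complex.exp (p.2 * I)))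
      (Icc 0 ρ ×ˢ Icc (-π) π) := by
    apply continuous_fst.continuousOn.mul
    apply hf.comp (by fun_prop)
    rintro ⟨r, θ⟩ ⟨hr, hθ⟩
    simp only [mem_closedBall, dist_zero_right, norm_mul, Complex.norm_exp_ofReal_mul_I, mul_one,
      Complex.norm_real]
    rw [Real.norm_of_nonneg hr.1]
    exact hr.2
  have h7 := h6.integrableOn_compact (μ := (volume : Measure (ℝ × ℝ)))
    (isCompact_Icc.prod isCompact_Icc)
  rw [Measure.volume_eq_prod] at h7
  exact h7.mono_set (prod_mono Ioo_subset_Icc_self Ioo_subset_Icc_self)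

/-- radial weight against the square kernel -/
theorem int_kernel {ρ : ℝ} (hρ1 : ρ < 1) {g : ℝ → ℝ} (hg : ContinuousOn g (Icc 0 ρ)) (α : ℝ) :
    ∫ z in ball (0:ℂ) ρ, g ‖z‖ / ‖Complex.exp (α * I) - z‖ ^ 2 =
      ∫ s in Ioo 0 ρ, 2 * π * (s * (g s / (1 - s ^ 2))) := by
  have hne : ∀ z ∈ closedBall (0:ℂ) ρ, ‖Complex.exp (α * I) - z‖ ^ 2 ≠ 0 := by
    intro z hz
    rw [mem_closedBall, dist_zero_right] at hz
    apply pow_ne_zero
    rw [norm_ne_zero_iff, sub_ne_zero]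
    rintro rfl
    rw [Complex.norm_exp_ofReal_mul_I] at hz
    linarith only [hρ1, hz]
  rw [polar_ball (f := fun z => g ‖z‖ / ‖Complex.exp (α * I) - z‖ ^ 2)]
  · refine setIntegral_congr_fun measurableSet_Ioo fun s hs => ?_
    have hs1 : s < 1 := hs.2.trans hρ1
    have h1 : 0 < 1 - s ^ 2 := by (clear * - hs1 hs; nlinarith only [hs.1, hs1])
    have hn : ∀ θ : ℝ, ‖(s:ℂ) * Complex.exp (θ * I)‖ = s := by
      intro θ
      rw [norm_mul, Complex.norm_exp_ofReal_mul_I, mul_one, Complex.norm_real,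
        Real.norm_of_nonneg hs.1.le]
    have hep : ∀ θ : ℝ, (s:ℂ) * Complex.exp (θ * I) = ep (Real.log s) θ := by
      intro θ
      rw [ep, Complex.exp_add, ← Complex.ofReal_exp, Real.exp_log hs.1]
    have h2 : ∀ θ : ℝ, s * (g ‖(s:ℂ) * Complex.exp (θ * I)‖ /
        ‖Complex.exp (α * I) - (s:ℂ) * Complex.exp (θ * I)‖ ^ 2)
        = (s * (g s / (1 - s ^ 2))) * Pk (Complex.exp (α * I)) (ep (Real.log s) θ) := by
      intro θ
      rw [Pk, ← hep θ, hn θ]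
      field_simp
    show ∫ θ in Ioo (-π) π, s * (g ‖(s:ℂ) * Complex.exp (θ * I)‖ /
        ‖Complex.exp (α * I) - (s:ℂ) * Complex.exp (θ * I)‖ ^ 2)
        = 2 * π * (s * (g s / (1 - s ^ 2)))
    simp only [h2]
    rw [integral_const_mul, ← integral_Ioc_eq_integral_Ioo,
      ← intervalIntegral.integral_of_le (by (clear * -; linarith only [Real.pi_pos])),
      Pool.Agent.Helper73.EK.integral_Pk' (Real.log_neg hs.1 hs1)]
    ring
  · apply ContinuousOn.div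
    · apply hg.comp continuous_norm.continuousOn
      intro z hz
      rw [mem_closedBall, dist_zero_right] at hz
      exact ⟨norm_nonneg _, hz⟩
    · fun_prop
    · exact hne

/-- `∬ 1 / ‖ζ - z‖²` -/
theorem int_sq {b : ℝ} (hb : 0 < b) (hb1 : b ≤ 1 / 2) (α : ℝ) :
    ∫ z in ball (0:ℂ) (Real.exp (-b)), 1 / ‖Complex.exp (α * I) - z‖ ^ 2
      ≤ π * Real.log (1 / b) := by
  have hρ1 : Real.exp (-b) < 1 := by
    rw [Real.exp_lt_one_iff]
    linarith only [hb]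
  have hρ0 : 0 < Real.exp (-b) := Real.exp_pos _
  have h1 := int_kernel hρ1 (g := fun _ => 1) continuousOn_const α
  rw [h1]
  have h2 : ∫ s in Ioo 0 (Real.exp (-b)), 2 * π * (s * (1 / (1 - s ^ 2)))
      = ∫ s in (0:ℝ)..Real.exp (-b), 2 * π * (s * (1 / (1 - s ^ 2))) := by
    rw [intervalIntegral.integral_of_le hρ0.le, integral_Ioc_eq_integral_Ioo]
  rw [h2]
  have hpos : ∀ s ∈ uIcc 0 (Real.exp (-b)), 0 < 1 - s ^ 2 := by
    intro s hs
    rw [uIcc_of_le hρ0.le] at hs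
    (clear * - hs hρ1; nlinarith only [hs.1, hs.2, hρ1])
  have h3 : ∀ s ∈ uIcc 0 (Real.exp (-b)),
      HasDerivAt (fun s : ℝ => -π * Real.log (1 - s ^ 2)) (2 * π * (s * (1 / (1 - s ^ 2)))) s := by
    intro s hs
    have h4 := hpos s hs
    have h5 : HasDerivAt (fun s : ℝ => 1 - s ^ 2) (-(2 * s)) s := by
      have := ((hasDerivAt_id s).pow 2).const_sub 1
      convert! this using 1
      simp
    have h6 := (h5.log h4.ne').const_mul (-π)
    convert! h6 using 1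
    (clear * - h4; field_simp)
  have hc : ContinuousOn (fun s : ℝ => 2 * π * (s * (1 / (1 - s ^ 2))))
      (uIcc 0 (Real.exp (-b))) := by
    apply continuousOn_const.mul
    apply continuousOn_id.mul
    apply continuousOn_const.div (by fun_prop)
    intro s hs
    exact (hpos s hs).ne'
  rw [intervalIntegral.integral_eq_sub_of_hasDerivAt h3 hc.intervalIntegrable]
  have h7 : b ≤ 1 - Real.exp (-b) ^ 2 := by
    have h8 : Real.exp (-b) ^ 2 = Real.exp (-(2 * b)) := by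
      rw [← Real.exp_nat_mul]
      congr 1
      push_cast
      ring
    rw [h8]
    have h9 : Real.exp (-(2 * b)) * (1 + 2 * b) ≤ 1 := by
      have h10 : 1 + 2 * b ≤ Real.exp (2 * b) := by
        have := Real.add_one_le_exp (2 * b)
        linarith only [this]
      calc Real.exp (-(2 * b)) * (1 + 2 * b) ≤ Real.exp (-(2 * b)) * Real.exp (2 * b) := by (clear * - h10; gcongr)
        _ = 1 := by rw [← Real.exp_add]; simp
    have h11 : 0 < Real.exp (-(2 * b)) := Real.exp_pos _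
    nlinarith only [hb, hb1, h9]
  have h8 : Real.log (1 / b) = - Real.log b := by
    rw [one_div, Real.log_inv]
  have h9 : Real.log b ≤ Real.log (1 - Real.exp (-b) ^ 2) := Real.log_le_log hb h7
  rw [h8]
  simp only [ne_eq, OfNat.ofNat_ne_zero, not_false_eq_true, zero_pow, sub_zero, Real.log_one,
    mul_zero]
  (clear * - h9; nlinarith only [Real.pi_pos, h9])

/-- `∬ 1 / ((1 - ‖z‖) ‖ζ - z‖²)` -/
theorem int_cube {b : ℝ} (hb : 0 < b) (hb1 : b ≤ 1 / 2) (α : ℝ) :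
    ∫ z in ball (0:ℂ) (Real.exp (-b)), (1 / (1 - ‖z‖)) / ‖Complex.exp (α * I) - z‖ ^ 2
      ≤ 4 * π / b := by
  have hρ1 : Real.exp (-b) < 1 := by
    rw [Real.exp_lt_one_iff]
    linarith only [hb]
  have hρ0 : 0 < Real.exp (-b) := Real.exp_pos _
  have hpos' : ∀ s ∈ Icc 0 (Real.exp (-b)), 0 < 1 - s := by
    intro s hs
    (clear * - hs hρ1; linarith only [hs.2, hρ1])
  have hc1 : ContinuousOn (fun s : ℝ => 1 / (1 - s)) (Icc 0 (Real.exp (-b))) := by
    apply continuousOn_const.div (by fun_prop)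
    intro s hs
    exact (hpos' s hs).ne'
  have h1 := int_kernel hρ1 (g := fun s => 1 / (1 - s)) hc1 α
  rw [h1]
  have h2 : ∫ s in Ioo 0 (Real.exp (-b)), 2 * π * (s * (1 / (1 - s) / (1 - s ^ 2)))
      = ∫ s in (0:ℝ)..Real.exp (-b), 2 * π * (s * (1 / (1 - s) / (1 - s ^ 2))) := by
    rw [intervalIntegral.integral_of_le hρ0.le, integral_Ioc_eq_integral_Ioo]
  rw [h2]
  have hpos : ∀ s ∈ Icc 0 (Real.exp (-b)), 0 < 1 - s ^ 2 := by
    intro s hs
    (clear * - hs hρ1; nlinarith only [hs.1, hs.2, hρ1])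
  have hc2 : ContinuousOn (fun s : ℝ => 2 * π * (s * (1 / (1 - s) / (1 - s ^ 2))))
      (uIcc 0 (Real.exp (-b))) := by
    rw [uIcc_of_le hρ0.le]
    apply continuousOn_const.mul
    apply continuousOn_id.mul
    apply hc1.div (by fun_prop)
    intro s hs
    exact (hpos s hs).ne'
  have hc3 : ContinuousOn (fun s : ℝ => 2 * π * (1 / (1 - s) ^ 2)) (uIcc 0 (Real.exp (-b))) := by
    rw [uIcc_of_le hρ0.le]
    apply continuousOn_const.mul
    apply continuousOn_const.div (by fun_prop)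
    intro s hs
    exact (pow_pos (hpos' s hs) 2).ne'
  have h3 : ∫ s in (0:ℝ)..Real.exp (-b), 2 * π * (s * (1 / (1 - s) / (1 - s ^ 2)))
      ≤ ∫ s in (0:ℝ)..Real.exp (-b), 2 * π * (1 / (1 - s) ^ 2) := by
    apply intervalIntegral.integral_mono_on hρ0.le hc2.intervalIntegrable hc3.intervalIntegrable
    intro s hs
    have h4 := hpos' s hs
    have h5 := hpos s hs
    have h6 : s * (1 / (1 - s) / (1 - s ^ 2)) ≤ 1 / (1 - s) ^ 2 := by
      rw [div_div, mul_one_div, div_le_div_iff₀ (mul_pos h4 h5) (pow_pos h4 2)]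
      have h7 : (1 - s) * (1 - s ^ 2) = (1 - s) ^ 2 * (1 + s) := by ring
      rw [h7]
      have h8 : 0 < (1 - s) ^ 2 := pow_pos h4 2
      nlinarith only []
    have := Real.pi_pos
    (clear * - h6; gcongr)
  refine h3.trans ?_
  have h4 : ∀ s ∈ uIcc 0 (Real.exp (-b)),
      HasDerivAt (fun s : ℝ => 2 * π * (1 / (1 - s))) (2 * π * (1 / (1 - s) ^ 2)) s := by
    intro s hs
    rw [uIcc_of_le hρ0.le] at hs
    have h5 := hpos' s hs
    have h6 : HasDerivAt (fun s : ℝ => 1 - s) (-1) s := (hasDerivAt_id s).const_sub 1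
    have h7 := (h6.inv h5.ne').const_mul (2 * π)
    simp only [one_div]
    convert! h7 using 1
    (clear * - h5; field_simp)
  rw [intervalIntegral.integral_eq_sub_of_hasDerivAt h4 hc3.intervalIntegrable]
  have h5 : b / 2 ≤ 1 - Real.exp (-b) := by
    have h9 : Real.exp (-b) * (1 + b) ≤ 1 := by
      have h10 : 1 + b ≤ Real.exp b := by
        have := Real.add_one_le_exp b
        linarith only [this]
      calc Real.exp (-b) * (1 + b) ≤ Real.exp (-b) * Real.exp b := by gcongr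
        _ = 1 := by rw [← Real.exp_add]; simp
    nlinarith only [hb, hb1, h9]
  have h6 : 1 / (1 - Real.exp (-b)) ≤ 2 / b := by
    rw [div_le_div_iff₀ (by linarith only [hρ1]) hb]
    linarith only [h5]
  have h7 : 2 * π * (1 / (1 - Real.exp (-b))) ≤ 2 * π * (2 / b) := by
    have := Real.pi_pos
    (clear * - h6; gcongr)
  have h8 : 2 * π * (2 / b) = 4 * π / b := by ring
  have h9 : 0 ≤ 2 * π * (1 / (1 - (0:ℝ))) := by
    have := Real.pi_pos
    simp only [sub_zero, div_one, mul_one]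
    positivity
  linarith only [h7, h8, h9]

/-- `∬ 1 / ‖ζ - z‖` -/
theorem int_one (ζ : ℂ) (hζ : ‖ζ‖ = 1) {ρ : ℝ} (hρ1 : ρ ≤ 1) :
    IntegrableOn (fun z : ℂ => 1 / ‖ζ - z‖) (ball 0 ρ) ∧
    ∫ z in ball (0:ℂ) ρ, 1 / ‖ζ - z‖ ≤ 4 * π := by
  -- radial function
  set f : ℝ → ℝ := fun y => (Iio (2:ℝ)).indicator (fun y => 1 / y) y with hf
  have hI : IntegrableOn (fun y : ℝ => y ^ (Module.finrank ℝ ℂ - 1) • f y) (Ioi 0) := by
    have h1 : ∀ y ∈ Ioi (0:ℝ), y ^ (Module.finrank ℝ ℂ - 1) • f y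
        = (Ioo (0:ℝ) 2).indicator (fun _ => (1:ℝ)) y := by
      intro y hy
      rw [mem_Ioi] at hy
      rw [Complex.finrank_real_complex, hf]
      simp only
      by_cases hy2 : y < 2
      · rw [indicator_of_mem (show y ∈ Iio (2:ℝ) from hy2),
          indicator_of_mem (show y ∈ Ioo (0:ℝ) 2 from ⟨hy, hy2⟩), smul_eq_mul]
        simp [hy.ne']
      · rw [indicator_of_notMem (show y ∉ Iio (2:ℝ) from hy2),
          indicator_of_notMem (show y ∉ Ioo (0:ℝ) 2 from fun h => hy2 h.2), smul_zero]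
    rw [integrableOn_congr_fun h1 measurableSet_Ioi]
    apply Integrable.integrableOn
    rw [integrable_indicator_iff measurableSet_Ioo]
    exact integrableOn_const (by simp)
  have hI2 : Integrable (fun z : ℂ => f ‖z‖) := (integrable_fun_norm_addHaar volume).mpr hI
  have hval : ∫ z : ℂ, f ‖z‖ = 4 * π := by
    rw [integral_fun_norm_addHaar volume f]
    have h1 : ∀ y ∈ Ioi (0:ℝ), y ^ (Module.finrank ℝ ℂ - 1) • f y
        = (Ioo (0:ℝ) 2).indicator (fun _ => (1:ℝ)) y := by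
      intro y hy
      rw [mem_Ioi] at hy
      rw [Complex.finrank_real_complex, hf]
      simp only
      by_cases hy2 : y < 2
      · rw [indicator_of_mem (show y ∈ Iio (2:ℝ) from hy2),
          indicator_of_mem (show y ∈ Ioo (0:ℝ) 2 from ⟨hy, hy2⟩), smul_eq_mul]
        simp [hy.ne']
      · rw [indicator_of_notMem (show y ∉ Iio (2:ℝ) from hy2),
          indicator_of_notMem (show y ∉ Ioo (0:ℝ) 2 from fun h => hy2 h.2), smul_zero]
    rw [setIntegral_congr_fun measurableSet_Ioi h1, setIntegral_indicator measurableSet_Ioo]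
    have h2 : Ioi (0:ℝ) ∩ Ioo 0 2 = Ioo 0 2 := inter_eq_right.2 fun y hy => hy.1
    rw [h2, Complex.finrank_real_complex]
    have h3 : (volume : Measure ℂ).real (ball (0:ℂ) 1) = π := by
      rw [Measure.real, Complex.volume_ball]
      simp
    rw [h3]
    simp only [integral_const, MeasurableSet.univ, measureReal_restrict_apply, univ_inter,
      Real.volume_real_Ioo, smul_eq_mul, nsmul_eq_mul]
    norm_num
    ring
  have hI3 : Integrable (fun z : ℂ => f ‖ζ - z‖) := hI2.comp_sub_left ζ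
  have hval3 : ∫ z : ℂ, f ‖ζ - z‖ = 4 * π := by
    rw [← hval]
    exact integral_sub_left_eq_self (fun z => f ‖z‖) volume ζ
  have hle : ∀ z ∈ ball (0:ℂ) ρ, f ‖ζ - z‖ = 1 / ‖ζ - z‖ := by
    intro z hz
    rw [mem_ball, dist_zero_right] at hz
    have h1 : ‖ζ - z‖ < 2 := by
      have := norm_sub_le ζ z
      (clear * - hζ hρ1 hz this; linarith only [hζ, hρ1, hz, this])
    rw [hf]
    simp only
    rw [indicator_of_mem (show ‖ζ - z‖ ∈ Iio (2:ℝ) from h1)]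
  have hnn : ∀ z : ℂ, 0 ≤ f ‖ζ - z‖ := by
    intro z
    rw [hf]
    simp only
    by_cases h : ‖ζ - z‖ < 2
    · rw [indicator_of_mem (show ‖ζ - z‖ ∈ Iio (2:ℝ) from h)]
      (clear * -; positivity)
    · rw [indicator_of_notMem (show ‖ζ - z‖ ∉ Iio (2:ℝ) from h)]
  refine ⟨(integrableOn_congr_fun hle measurableSet_ball).mp hI3.integrableOn, ?_⟩
  rw [← setIntegral_congr_fun measurableSet_ball hle, ← hval3]
  exact setIntegral_le_integral hI3 (Eventually.of_forall hnn)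

end Pool.Agent.Helper14.CK

end

section

namespace Pool.Agent.Helper52.EK
end Pool.Agent.Helper52.EK

/-!
# CKC: the area integral against the integral along the centre line
-/

set_option autoImplicit false

open Complex MeasureTheory Metric Set Filter Topology

open scoped Real ComplexConjugate Interval

namespace Pool.Agent.Helper77.CKC

open Pool.Agent.Helper52.EK

theorem pt_mem {x₁ x₂ ξ η : ℝ} (hξ : ξ ∈ Icc x₁ x₂) (hη : η ∈ Icc (0:ℝ) π) :
    pt ξ η ∈ Rect x₁ x₂ := by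
  refine ⟨?_, ?_⟩
  · simp only [mem_preimage]
    have : (pt ξ η).re = ξ := by simp [pt]
    rw [this]
    exact hξ
  · simp only [mem_preimage]
    have : (pt ξ η).im = η := by simp [pt]
    rw [this]
    exact hη

theorem le_sin {η : ℝ} (h0 : 0 ≤ η) (h1 : η ≤ π / 2) : η ≤ π / 2 * Real.sin η := by
  have h2 := Real.mul_le_sin h0 h1
  have hpi := Real.pi_pos
  have h3 : π / 2 * (2 / π * η) = η := by field_simp
  have h4 := mul_le_mul_of_nonneg_left h2 (by (clear * -; positivity) : 0 ≤ π / 2)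
  (clear * - h3 h4; linarith only [h3, h4])

/-- Cauchy on the rectangle -/
theorem rect {X : ℂ → ℂ} {x₁ x₂ : ℝ} (hX : AnalyticOnNhd ℂ X (Rect x₁ x₂)) (hx : x₁ ≤ x₂) {η : ℝ}
    (hη : η ∈ Icc (0:ℝ) π) :
    (∫ ξ in x₁..x₂, X (pt ξ η)) = (∫ ξ in x₁..x₂, X (pt ξ (π / 2))) +
      I * ∫ y in (π / 2)..η, (X (pt x₂ y) - X (pt x₁ y)) := by
  have hpi := Real.pi_pos
  have hc2 : π / 2 ∈ Icc (0:ℝ) π := ⟨by (clear * -; positivity), by (clear * - hpi; linarith only [hpi])⟩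
  have hd : DifferentiableOn ℂ X (Rect x₁ x₂) := hX.differentiableOn
  have hsub : [[(pt x₁ (π / 2)).re, (pt x₂ η).re]] ×ℂ [[(pt x₁ (π / 2)).im, (pt x₂ η).im]] ⊆
      Rect x₁ x₂ := by
    have e1 : (pt x₁ (π / 2)).re = x₁ := by simp [pt]
    have e2 : (pt x₂ η).re = x₂ := by simp [pt]
    have e3 : (pt x₁ (π / 2)).im = π / 2 := by simp [pt]
    have e4 : (pt x₂ η).im = η := by simp [pt]
    rw [e1, e2, e3, e4, uIcc_of_le hx]
    intro z hz
    refine ⟨hz.1, ?_⟩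
    have h1 := hz.2
    simp only [mem_preimage] at h1 ⊢
    exact (uIcc_subset_Icc hc2 hη) h1
  have h1 := Complex.integral_boundary_rect_eq_zero_of_differentiableOn X (pt x₁ (π / 2)) (pt x₂ η)
    (hd.mono hsub)
  have e1 : (pt x₁ (π / 2)).re = x₁ := by simp [pt]
  have e2 : (pt x₂ η).re = x₂ := by simp [pt]
  have e3 : (pt x₁ (π / 2)).im = π / 2 := by simp [pt]
  have e4 : (pt x₂ η).im = η := by simp [pt]
  rw [e1, e2, e3, e4] at h1
  have h2 : (∫ ξ in x₁..x₂, X (pt ξ (π / 2))) - (∫ ξ in x₁..x₂, X (pt ξ η)) +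
      I * (∫ y in (π / 2)..η, X (pt x₂ y)) - I * (∫ y in (π / 2)..η, X (pt x₁ y)) = 0 := h1
  have hcX : ∀ x ∈ Icc x₁ x₂, ContinuousOn (fun y : ℝ => X (pt x y)) (uIcc (π / 2) η) := by
    intro x hxx
    have hptc : Continuous fun y : ℝ => pt x y := by unfold pt; fun_prop
    refine hd.continuousOn.comp hptc.continuousOn ?_
    intro y hy
    exact pt_mem hxx (uIcc_subset_Icc hc2 hη hy)
  rw [intervalIntegral.integral_sub
    (hcX x₂ (right_mem_Icc.2 hx)).intervalIntegrable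
    (hcX x₁ (left_mem_Icc.2 hx)).intervalIntegrable]
  linear_combination -h2

/-- the double integral against the centre line -/
theorem area_line {X : ℂ → ℂ} {x₁ x₂ B : ℝ} (hx : x₁ ≤ x₂)
    (hX : AnalyticOnNhd ℂ X (Rect x₁ x₂))
    (hB : ∀ ξ ∈ Icc x₁ x₂, ∀ η ∈ Icc (0:ℝ) π, Real.sin η * ‖X (pt ξ η)‖ ≤ B) :
    ‖(∫ η in (0:ℝ)..π, ∫ ξ in x₁..x₂, X (pt ξ η)) - π * ∫ ξ in x₁..x₂, X (pt ξ (π / 2))‖ ≤
      π ^ 2 * B ∧
    (∫ η in (0:ℝ)..π, ∫ ξ in x₁..x₂, (X (pt ξ η)).re) =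
      (∫ η in (0:ℝ)..π, ∫ ξ in x₁..x₂, X (pt ξ η)).re := by
  have hpi := Real.pi_pos
  -- the continuous extension of the difference at the two ends
  set p : ℝ → ℝ := fun y => max 0 (min y π) with hp
  have hpc : Continuous p := by fun_prop
  have hpm : ∀ y, p y ∈ Icc (0:ℝ) π := fun y =>
    ⟨le_max_left _ _, max_le hpi.le (min_le_right _ _)⟩
  have hpe : ∀ y ∈ Icc (0:ℝ) π, p y = y := by
    intro y hy
    simp only [hp]
    rw [min_eq_left hy.2, max_eq_right hy.1]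
  set D : ℝ → ℂ := fun y => X (pt x₂ (p y)) - X (pt x₁ (p y)) with hD
  have hXc : ∀ x ∈ Icc x₁ x₂, Continuous fun y : ℝ => X (pt x (p y)) := by
    intro x hxx
    have hptc : Continuous fun y : ℝ => pt x (p y) := by unfold pt; fun_prop
    exact hX.continuousOn.comp_continuous hptc fun y => pt_mem hxx (hpm y)
  have hDc : Continuous D :=
    (hXc x₂ (right_mem_Icc.2 hx)).sub (hXc x₁ (left_mem_Icc.2 hx))
  set Q : ℝ → ℂ := fun η => ∫ y in (π / 2)..η, D y with hQ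
  have hQd : ∀ η, HasDerivAt Q (D η) η := fun η =>
    intervalIntegral.integral_hasDerivAt_right (hDc.intervalIntegrable _ _)
      hDc.stronglyMeasurable.stronglyMeasurableAtFilter hDc.continuousAt
  have hQc : Continuous Q := continuous_iff_continuousAt.2 fun η => (hQd η).continuousAt
  have hDle : ∀ y ∈ Icc (0:ℝ) π, Real.sin y * ‖D y‖ ≤ 2 * B := by
    intro y hy
    have hs : 0 ≤ Real.sin y := Real.sin_nonneg_of_nonneg_of_le_pi hy.1 hy.2
    simp only [hD]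
    rw [hpe y hy]
    have h1 := hB x₂ (right_mem_Icc.2 hx) y hy
    have h2 := hB x₁ (left_mem_Icc.2 hx) y hy
    have h3 := mul_le_mul_of_nonneg_left (norm_sub_le (X (pt x₂ y)) (X (pt x₁ y))) hs
    linarith only [h1, h2, h3]
  -- the inner integral
  have hin : ∀ η ∈ Icc (0:ℝ) π, (∫ ξ in x₁..x₂, X (pt ξ η)) =
      (∫ ξ in x₁..x₂, X (pt ξ (π / 2))) + I * Q η := by
    intro η hη
    rw [rect hX hx hη]
    congr 2
    simp only [hQ]
    refine intervalIntegral.integral_congr fun y hy => ?_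
    have hy' : y ∈ Icc (0:ℝ) π := uIcc_subset_Icc ⟨by positivity, by linarith⟩ hη hy
    simp only [hD]
    rw [hpe y hy']
  have h1 : (∫ η in (0:ℝ)..π, ∫ ξ in x₁..x₂, X (pt ξ η)) =
      ∫ η in (0:ℝ)..π, ((∫ ξ in x₁..x₂, X (pt ξ (π / 2))) + I * Q η) := by
    refine intervalIntegral.integral_congr fun η hη => ?_
    rw [uIcc_of_le hpi.le] at hη
    exact hin η hη
  have hIQ : Continuous fun η : ℝ => I * Q η := continuous_const.mul hQc
  refine ⟨?_, ?_⟩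
  swap
  · have hre : ∀ η ∈ Icc (0:ℝ) π, (∫ ξ in x₁..x₂, (X (pt ξ η)).re) =
        Complex.reCLM ((∫ ξ in x₁..x₂, X (pt ξ (π / 2))) + I * Q η) := by
      intro η hη
      rw [← hin η hη]
      have hptc : Continuous fun ξ : ℝ => pt ξ η := by unfold pt; fun_prop
      have hc : ContinuousOn (fun ξ : ℝ => X (pt ξ η)) (uIcc x₁ x₂) := by
        rw [uIcc_of_le hx]
        exact hX.continuousOn.comp hptc.continuousOn fun ξ hξ => pt_mem hξ hη
      exact Complex.reCLM.intervalIntegral_comp_comm hc.intervalIntegrable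
    have hcc : Continuous fun η : ℝ => (∫ ξ in x₁..x₂, X (pt ξ (π / 2))) + I * Q η :=
      continuous_const.add hIQ
    rw [h1, ← Complex.reCLM_apply, ← Complex.reCLM.intervalIntegral_comp_comm
      (hcc.intervalIntegrable _ _)]
    refine intervalIntegral.integral_congr fun η hη => ?_
    rw [uIcc_of_le hpi.le] at hη
    exact hre η hη
  rw [h1, intervalIntegral.integral_add intervalIntegrable_const
    (hIQ.intervalIntegrable _ _), intervalIntegral.integral_const,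
    intervalIntegral.integral_const_mul]
  have h2 : ((π - 0) • (∫ ξ in x₁..x₂, X (pt ξ (π / 2))) + I * ∫ η in (0:ℝ)..π, Q η) -
      π * ∫ ξ in x₁..x₂, X (pt ξ (π / 2)) = I * ∫ η in (0:ℝ)..π, Q η := by
    rw [Complex.real_smul, sub_zero]
    ring
  rw [h2, norm_mul, Complex.norm_I, one_mul]
  -- integration by parts on the two halves
  have hQ2 : Q (π / 2) = 0 := by
    simp only [hQ]
    exact intervalIntegral.integral_same
  have hpart : ∀ c u v : ℝ, (∫ η in u..v, Q η) = ((v - c : ℝ) : ℂ) * Q v - ((u - c : ℝ) : ℂ) * Q u -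
      ∫ η in u..v, ((η - c : ℝ) : ℂ) * D η := by
    intro c u v
    have h3 := intervalIntegral.integral_mul_deriv_eq_deriv_mul (a := u) (b := v)
      (u := fun η : ℝ => ((η - c : ℝ) : ℂ)) (v := Q) (u' := fun _ => 1) (v' := D)
      (fun η _ => by
        have := ((hasDerivAt_id η).sub_const c).ofReal_comp
        simpa using this)
      (fun η _ => hQd η) intervalIntegrable_const (hDc.intervalIntegrable _ _)
    simp only [one_mul] at h3
    rw [h3]
    ring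
  have hsplit : (∫ η in (0:ℝ)..π, Q η) = (∫ η in (0:ℝ)..(π / 2), Q η) + ∫ η in (π / 2)..π, Q η :=
    (intervalIntegral.integral_add_adjacent_intervals (hQc.intervalIntegrable _ _)
      (hQc.intervalIntegrable _ _)).symm
  have hI1 : (∫ η in (0:ℝ)..(π / 2), Q η) = -∫ η in (0:ℝ)..(π / 2), ((η - 0 : ℝ) : ℂ) * D η := by
    rw [hpart 0 0 (π / 2), hQ2]
    simp
  have hI2 : (∫ η in (π / 2)..π, Q η) = -∫ η in (π / 2)..π, ((η - π : ℝ) : ℂ) * D η := by
    rw [hpart π (π / 2) π, hQ2]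
    simp
  have hb1 : ‖∫ η in (0:ℝ)..(π / 2), ((η - 0 : ℝ) : ℂ) * D η‖ ≤ (π * B) * |π / 2 - 0| := by
    refine intervalIntegral.norm_integral_le_of_norm_le_const ?_
    intro η hη
    rw [uIoc_of_le (by positivity)] at hη
    have hη' : η ∈ Icc (0:ℝ) π := ⟨hη.1.le, by (clear * - hη hpi; linarith only [hη.2, hpi])⟩
    rw [norm_mul, Complex.norm_real, Real.norm_eq_abs, sub_zero, abs_of_pos hη.1]
    have h3 := le_sin hη.1.le hη.2
    have h4 := hDle η hη'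
    have h5 := mul_le_mul_of_nonneg_right h3 (norm_nonneg (D η))
    (clear * - h5 hpi h4; nlinarith only [hpi, h4, h5])
  have hb2 : ‖∫ η in (π / 2)..π, ((η - π : ℝ) : ℂ) * D η‖ ≤ (π * B) * |π - π / 2| := by
    refine intervalIntegral.norm_integral_le_of_norm_le_const ?_
    intro η hη
    rw [uIoc_of_le (by linarith only [hpi])] at hη
    have hη' : η ∈ Icc (0:ℝ) π := ⟨by linarith only [hη.1, hpi], hη.2⟩
    rw [norm_mul, Complex.norm_real, Real.norm_eq_abs, abs_of_nonpos (by linarith only [hη.2])]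
    have h3 := le_sin (η := π - η) (by (clear * - hη; linarith only [hη.2])) (by linarith only [hη.1])
    rw [Real.sin_pi_sub] at h3
    have h4 := hDle η hη'
    have h5 := mul_le_mul_of_nonneg_right h3 (norm_nonneg (D η))
    (clear * - h5 hpi h4; nlinarith only [hpi, h4, h5])
  have ha1 : |π / 2 - 0| = π / 2 := by rw [sub_zero, abs_of_pos (by positivity)]
  have ha2 : |π - π / 2| = π / 2 := by
    rw [abs_of_nonneg (by (clear * - hpi; linarith only [hpi]))]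
    ring
  rw [ha1] at hb1
  rw [ha2] at hb2
  rw [hsplit, hI1, hI2]
  refine (norm_add_le _ _).trans ?_
  rw [norm_neg, norm_neg]
  have h6 : π ^ 2 * B = π * B * (π / 2) + π * B * (π / 2) := by ring
  rw [h6]
  exact add_le_add hb1 hb2

end Pool.Agent.Helper77.CKC

end
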