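import Mathlib
import Pool.Agent.Helper14.CMF.T10
import Pool.Agent.Helper14.CMF.T22
import Pool.Agent.Helper14.CMF.T24
import Pool.Agent.Helper14.CMF.T13
import Pool.Agent.Helper14.CMF.T14
import Pool.Agent.Helper14.CMF.T19

set_option linter.all false

section

namespace Pool.Agent.Helper39.Area
end Pool.Agent.Helper39.Area
namespace Pool.Agent.Helper52.EK
end Pool.Agent.Helper52.EK
namespace Pool.Agent.Helper39.EK
end Pool.Agent.Helper39.EK

/-!
The class of the exterior maps `φ z = z⁻¹ + β z`, `β 0 = 0`, is compact for the locally uniform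
convergence of `β` on the unit disc.
-/

set_option autoImplicit false

open Complex MeasureTheory Metric Set Filter Topology

open scoped Real ComplexConjugate

namespace Pool.Agent.Helper43.CK

open Pool.Agent.Helper39.Area Pool.Agent.Helper52.EK Pool.Agent.Helper39.EK

variable {β : ℂ → ℂ}

/-- upper bound for `N` -/
theorem N_le (h : Ext β) {z : ℂ} (hz : ‖z‖ < 1) : ‖N β z‖ ≤ (1 - ‖z‖ ^ 2)⁻¹ := by
  have hz1 : z ∈ ball (0:ℂ) 1 := by simpa using hz
  obtain ⟨F, hF0, hF, hexp⟩ := exists_log h hz1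
  have h1 := log_bound h hz1 hF hF0 hexp
  have h2 : 0 < 1 - ‖z‖ ^ 2 := by nlinarith [norm_nonneg z]
  rw [← qq_self, ← hexp z hz1, Complex.norm_exp]
  have h3 : (F z).re ≤ ‖F z‖ := Complex.re_le_norm (F z)
  calc Real.exp (F z).re ≤ Real.exp (Real.log ((1 - ‖z‖ ^ 2)⁻¹)) := by
        rw [Real.log_inv]
        exact Real.exp_le_exp.mpr (by (clear * - h1 h3; linarith only [h1, h3]))
    _ = (1 - ‖z‖ ^ 2)⁻¹ := Real.exp_log (by (clear * - h2; positivity))

end Pool.Agent.Helper43.CK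

end

section

namespace Pool.Agent.Helper39.Area
end Pool.Agent.Helper39.Area
namespace Pool.Agent.Helper52.EK
end Pool.Agent.Helper52.EK
namespace Pool.Agent.Helper5.CK
end Pool.Agent.Helper5.CK

set_option autoImplicit false

open Complex MeasureTheory Metric Set Filter Topology

open scoped Real ComplexConjugate

namespace Pool.Agent.Helper27.CK

open Pool.Agent.Helper39.Area Pool.Agent.Helper52.EK Pool.Agent.Helper5.CK

noncomputable section

/-- derivative of `hh` -/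
def hd (p τ z : ℂ) : ℂ :=
  -(τ * (p / (z - p) ^ 2)) - conj τ * (conj p / (1 - conj p * z) ^ 2)

theorem hasDerivAt_hh {p τ z : ℂ} (h1 : z ≠ p) (h2 : conj p * z ≠ 1) :
    HasDerivAt (hh p τ) (hd p τ z) z := by
  have e1 : z - p ≠ 0 := sub_ne_zero.mpr h1
  have e2 : 1 - conj p * z ≠ 0 := sub_ne_zero.mpr (Ne.symm h2)
  have d1 : HasDerivAt (fun z : ℂ => (z + p) / (z - p)) ((1 * (z - p) - (z + p) * 1) / (z - p) ^ 2) z :=
    ((hasDerivAt_id z).add_const p).div ((hasDerivAt_id z).sub_const p) e1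
  have d2' : HasDerivAt (fun z : ℂ => conj p * z) (conj p) z := by
    simpa using (hasDerivAt_id z).const_mul (conj p)
  have d2 : HasDerivAt (fun z : ℂ => (1 + conj p * z) / (1 - conj p * z))
      ((conj p * (1 - conj p * z) - (1 + conj p * z) * (-conj p)) / (1 - conj p * z) ^ 2) z :=
    (d2'.const_add 1).div (d2'.const_sub 1) e2
  have d3 := ((d1.const_mul τ).sub (d2.const_mul (conj τ))).const_mul (1 / 2)
  have d4 := d3.congr_deriv (g' := hd p τ z) (by
    unfold hd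
    field_simp
    ring)
  exact d4

/-- the relative variation `δN/N` -/
def dl (β : ℂ → ℂ) (p τ z : ℂ) : ℂ :=
  -(eps β p τ / (phi β z - phi β p) ^ 2) + hh p τ z * (z * deriv (N β) z / N β z) - hh p τ z +
    z * hd p τ z - (τ.re : ℂ)

theorem dl_smul (β : ℂ → ℂ) (p B z : ℂ) (t : ℝ) : dl β p (t * B) z = t * dl β p B z := by
  unfold dl
  rw [hh_smul]
  have e1 : eps β p (t * B) = t * eps β p B := by unfold eps; ring
  have e2 : hd p (t * B) z = t * hd p B z := by
    unfold hd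
    rw [map_mul, Complex.conj_ofReal]
    ring
  have e3 : (((t : ℂ) * B).re : ℂ) = t * (B.re : ℂ) := by
    rw [Complex.re_ofReal_mul]
    push_cast
    ring
  rw [e1, e2, e3]
  ring

/-- the variation of `N` -/
theorem deriv_VV {β : ℂ → ℂ} (h : Ext β) {p τ z : ℂ} (hp : p ∈ ball (0:ℂ) 1) (hp0 : p ≠ 0)
    (hz : z ∈ ball (0:ℂ) 1) (hz0 : z ≠ 0) (hzp : z ≠ p) :
    -z ^ 2 * deriv (fun z => VV β p τ z - (τ.re : ℂ) * phi β z) z = N β z * dl β p τ z := by
  have hN : N β z ≠ 0 := h.ne z hz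
  have hne : phi β z - phi β p ≠ 0 := by
    intro h1
    exact hzp (h.inj z p hz hp hz0 hp0 (sub_eq_zero.mp h1))
  have hc : conj p * z ≠ 1 := by
    intro h1
    have h2 : ‖conj p * z‖ = 1 := by rw [h1, norm_one]
    rw [norm_mul, RCLike.norm_conj] at h2
    have h3 : ‖p‖ < 1 := by simpa using hp
    have h4 : ‖z‖ < 1 := by simpa using hz
    (clear * - h2 h4 h3; nlinarith only [norm_nonneg z, h2, h3, h4])
  have hb : DifferentiableOn ℂ (deriv β) (ball 0 1) := h.diff.deriv isOpen_ball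
  have hnb : ball (0:ℂ) 1 ∈ 𝓝 z := isOpen_ball.mem_nhds hz
  have db : HasDerivAt β (deriv β z) z := (h.diff.differentiableAt hnb).hasDerivAt
  have ddb : HasDerivAt (deriv β) (deriv (deriv β) z) z := (hb.differentiableAt hnb).hasDerivAt
  have dphi1 : HasDerivAt (phi β) (dphi β z) z := by
    have := (hasDerivAt_inv hz0).add db
    unfold dphi
    exact this
  have ddphi : HasDerivAt (dphi β) (2 * (z ^ 3)⁻¹ + deriv (deriv β) z) z := by
    have h1 : HasDerivAt (fun z : ℂ => z ^ 2) (2 * z) z := by simpa using hasDerivAt_pow 2 z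
    have h2 := (h1.inv (pow_ne_zero 2 hz0)).neg.add ddb
    have h3 := h2.congr_deriv (g' := 2 * (z ^ 3)⁻¹ + deriv (deriv β) z) (by
      field_simp)
    exact h3
  have dN : deriv (N β) z = -(2 * z * deriv β z) - z ^ 2 * deriv (deriv β) z := by
    have h1 : HasDerivAt (fun z : ℂ => z ^ 2) (2 * z) z := by simpa using hasDerivAt_pow 2 z
    have h2 := (h1.mul ddb).const_sub 1
    have h3 : deriv (N β) z = -(2 * z * deriv β z + z ^ 2 * deriv (deriv β) z) := by
      unfold N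
      exact h2.deriv
    rw [h3]
    ring
  have dh := hasDerivAt_hh (τ := τ) hzp hc
  have d1 : HasDerivAt (fun z => eps β p τ / (phi β z - phi β p))
      (-(eps β p τ * dphi β z) / (phi β z - phi β p) ^ 2) z := by
    have h1 := (hasDerivAt_const z (eps β p τ)).div (dphi1.sub_const (phi β p)) hne
    exact h1.congr_deriv (by ring)
  have d2 : HasDerivAt (fun z => dphi β z * (z * hh p τ z))
      ((2 * (z ^ 3)⁻¹ + deriv (deriv β) z) * (z * hh p τ z) +
        dphi β z * (1 * hh p τ z + z * hd p τ z)) z :=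
    ddphi.mul ((hasDerivAt_id z).mul dh)
  have d3 : HasDerivAt (fun z => VV β p τ z - (τ.re : ℂ) * phi β z)
      (-(eps β p τ * dphi β z) / (phi β z - phi β p) ^ 2 +
        ((2 * (z ^ 3)⁻¹ + deriv (deriv β) z) * (z * hh p τ z) +
        dphi β z * (1 * hh p τ z + z * hd p τ z)) - (τ.re : ℂ) * dphi β z) z := by
    have := (d1.add d2).sub (dphi1.const_mul (τ.re : ℂ))
    unfold VV
    exact this
  rw [d3.deriv]
  unfold dl
  rw [dN]
  have hN' : N β z = 1 - z ^ 2 * deriv β z := rfl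
  have key : N β z * (-(eps β p τ / (phi β z - phi β p) ^ 2) + hh p τ z *
      (z * (-(2 * z * deriv β z) - z ^ 2 * deriv (deriv β) z) / N β z) - hh p τ z +
      z * hd p τ z - (τ.re : ℂ)) = -(N β z * eps β p τ / (phi β z - phi β p) ^ 2) + hh p τ z *
      (z * (-(2 * z * deriv β z) - z ^ 2 * deriv (deriv β) z)) - N β z * hh p τ z +
      N β z * (z * hd p τ z) - N β z * (τ.re : ℂ) := by
    field_simp
  rw [key, hN']
  unfold dphi
  field_simp
  ring

end

end Pool.Agent.Helper27.CK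

end

section

namespace Pool.Agent.Helper39.Area
end Pool.Agent.Helper39.Area
namespace Pool.Agent.Helper5.CK
end Pool.Agent.Helper5.CK
namespace Pool.Agent.Helper52.EK
end Pool.Agent.Helper52.EK
namespace Pool.Agent.Helper14.CK
end Pool.Agent.Helper14.CK

/-!
Project CK: the first variation of the area functional in log-polar coordinates.
-/

set_option autoImplicit false

open Complex MeasureTheory Metric Set Filter Topology

open scoped Real ComplexConjugate

namespace Pool.Agent.Helper27.CK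

open Pool.Agent.Helper39.Area Pool.Agent.Helper5.CK

open Pool.Agent.Helper52.EK hiding Rect

open Pool.Agent.Helper14.CK

noncomputable section

/-- product weight in log-polar coordinates -/
structure Wt2 (om om' : ℝ → ℝ) (a b : ℝ) (u u' : ℝ → ℝ) : Prop where
  a_pos : 0 < a
  a_lt : a < b
  om_d : ∀ x, HasDerivAt om (om' x) x
  om_c : Continuous om'
  om_a : om a = 0
  om_b : om b = 0
  om_nn : ∀ x, 0 ≤ om x
  u_d : ∀ θ, HasDerivAt u (u' θ) θ
  u_c : Continuous u'
  u_per : u (-π) = u π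
  u_nn : ∀ θ, 0 ≤ u θ

/-- the density `‖N‖ ^ (-κ)` in log-polar coordinates -/
def FF (κ : ℝ) (β : ℂ → ℂ) (p : ℝ × ℝ) : ℝ := ‖N β (ep (-p.1) p.2)‖ ^ (-κ)

/-- the functional -/
def J (κ : ℝ) (om u : ℝ → ℝ) (a b : ℝ) (β : ℂ → ℂ) : ℝ :=
  ∫ p in Rect a b, om p.1 * u p.2 * FF κ β p

/-- kernel of `Re h` -/
def k3 (z0 z : ℂ) : ℂ := z0 * ((1 - ‖z‖ ^ 2 : ℝ) : ℂ) / ((z - z0) * (1 - z0 * conj z))

/-- kernel of `Im h` -/
def k5 (z0 z : ℂ) : ℂ := (z + z0) / (z - z0) + (1 + z0 * conj z) / (1 - z0 * conj z)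

/-- kernel of `- Re (z h')` -/
def k4 (z0 z : ℂ) : ℂ := z * z0 / (z - z0) ^ 2 + conj z * z0 / (1 - z0 * conj z) ^ 2

/-- the kernel of the first variation -/
def body (κ : ℝ) (om om' u u' : ℝ → ℝ) (β : ℂ → ℂ) (z0 : ℂ) (p : ℝ × ℝ) : ℂ :=
  (om p.1 : ℂ) * (u p.2 : ℂ) *
    ((κ : ℂ) - κ * (z0 ^ 2 * dphi β z0 ^ 2 / (phi β (ep (-p.1) p.2) - phi β z0) ^ 2) +
      (κ + 2) * k4 z0 (ep (-p.1) p.2) + κ * k3 z0 (ep (-p.1) p.2)) +
    (om' p.1 : ℂ) * (u p.2 : ℂ) * k3 z0 (ep (-p.1) p.2) +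
    I / 2 * ((om p.1 : ℂ) * (u' p.2 : ℂ) * k5 z0 (ep (-p.1) p.2))

/-- the first variation -/
def EE (κ : ℝ) (om om' u u' : ℝ → ℝ) (a b : ℝ) (β : ℂ → ℂ) (z0 : ℂ) : ℂ :=
  ∫ p in Rect a b, (FF κ β p : ℂ) * body κ om om' u u' β z0 p

theorem hh_re {p B z : ℂ} (h1 : z ≠ p) (h2 : p * conj z ≠ 1) :
    (hh p B z).re = (B * k3 p z).re := by
  have e1 : z - p ≠ 0 := sub_ne_zero.mpr h1
  have e2 : 1 - p * conj z ≠ 0 := sub_ne_zero.mpr (Ne.symm h2)
  have h3 : conj ((1 + conj p * z) / (1 - conj p * z)) = (1 + p * conj z) / (1 - p * conj z) := by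
    simp [map_div₀]
  have h4 : (hh p B z).re = (1 / 2) * (B * ((z + p) / (z - p) -
      (1 + p * conj z) / (1 - p * conj z))).re := by
    unfold hh
    have : ((1 / 2 : ℂ) * (B * ((z + p) / (z - p)) - conj B * ((1 + conj p * z) /
        (1 - conj p * z)))).re = (1 / 2 : ℝ) * (B * ((z + p) / (z - p)) - conj B *
        ((1 + conj p * z) / (1 - conj p * z))).re := by
      rw [show (1 / 2 : ℂ) = ((1 / 2 : ℝ) : ℂ) by norm_num, Complex.re_ofReal_mul]
    rw [this]
    congr 1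
    rw [← h3]
    simp only [Complex.sub_re, Complex.mul_re, Complex.conj_re, Complex.conj_im, Complex.sub_im]
    ring
  have h5 : (z + p) / (z - p) - (1 + p * conj z) / (1 - p * conj z) = 2 * k3 p z := by
    unfold k3
    have h6 : ((1 - ‖z‖ ^ 2 : ℝ) : ℂ) = 1 - z * conj z := by
      rw [Complex.mul_conj, Complex.normSq_eq_norm_sq]
      push_cast
      ring
    rw [h6]
    field_simp
    ring
  rw [h4, h5]
  have h7 : (B * (2 * k3 p z)).re = 2 * (B * k3 p z).re := by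
    rw [show B * (2 * k3 p z) = ((2 : ℝ) : ℂ) * (B * k3 p z) by push_cast; ring,
      Complex.re_ofReal_mul]
  rw [h7]
  ring

theorem hh_im {p B z : ℂ} :
    -(hh p B z).im = (B * (I / 2 * k5 p z)).re := by
  have h3 : conj ((1 + conj p * z) / (1 - conj p * z)) = (1 + p * conj z) / (1 - p * conj z) := by
    simp [map_div₀]
  have h5 : k5 p z = (z + p) / (z - p) + conj ((1 + conj p * z) / (1 - conj p * z)) := by
    rw [h3]; rfl
  rw [h5]
  unfold hh
  generalize (z + p) / (z - p) = X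
  generalize (1 + conj p * z) / (1 - conj p * z) = Y
  have e1 : (1 / 2 * (B * X - conj B * Y)).im = 1 / 2 * (B * X - conj B * Y).im := by
    rw [show (1 / 2 : ℂ) = ((1 / 2 : ℝ) : ℂ) by norm_num, Complex.im_ofReal_mul]
  have e2 : (B * (I / 2 * (X + conj Y))).re = 1 / 2 * (B * (I * (X + conj Y))).re := by
    rw [show B * (I / 2 * (X + conj Y)) = ((1 / 2 : ℝ) : ℂ) * (B * (I * (X + conj Y))) by
      push_cast; ring, Complex.re_ofReal_mul]
  rw [e1, e2]
  simp only [Complex.sub_im, Complex.mul_im, Complex.conj_re, Complex.conj_im, Complex.add_im,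
    Complex.add_re, Complex.mul_re, Complex.I_re, Complex.I_im]
  ring

theorem hd_re {p B z : ℂ} : -(z * hd p B z).re = (B * k4 p z).re := by
  have h3 : conj (z * (conj p / (1 - conj p * z) ^ 2)) = conj z * p / (1 - p * conj z) ^ 2 := by
    simp [map_div₀, mul_div_assoc]
  have h5 : k4 p z = z * (p / (z - p) ^ 2) + conj (z * (conj p / (1 - conj p * z) ^ 2)) := by
    rw [h3]; unfold k4; ring
  rw [h5]
  have h6 : z * hd p B z = -(B * (z * (p / (z - p) ^ 2))) -
      conj B * (z * (conj p / (1 - conj p * z) ^ 2)) := by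
    unfold hd; ring
  rw [h6]
  generalize z * (p / (z - p) ^ 2) = X
  generalize z * (conj p / (1 - conj p * z) ^ 2) = Y
  simp only [Complex.sub_re, Complex.mul_re, Complex.conj_re, Complex.conj_im, Complex.add_re,
    Complex.neg_re, Complex.add_im]
  ring

/-- the closed annulus of the window -/
def An (a b : ℝ) : Set ℂ := {z | Real.exp (-b) ≤ ‖z‖ ∧ ‖z‖ ≤ Real.exp (-a)}

theorem ep_mem_An {a b : ℝ} {p : ℝ × ℝ} (hp : p ∈ Rect a b) : ep (-p.1) p.2 ∈ An a b := by
  have h1 := hp.1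
  constructor
  · rw [norm_ep]
    exact Real.exp_le_exp.mpr (by (clear * - h1; linarith [h1.2]))
  · rw [norm_ep]
    exact Real.exp_le_exp.mpr (by linarith [h1.1])

theorem An_ball {a b : ℝ} (ha : 0 < a) {z : ℂ} (hz : z ∈ An a b) : z ∈ ball (0:ℂ) 1 := by
  have h1 : Real.exp (-a) < 1 := by
    rw [← Real.exp_zero]
    exact Real.exp_lt_exp.mpr (by linarith)
  have := hz.2
  rw [mem_ball, dist_zero_right]
  linarith

theorem An_ne {a b : ℝ} {z : ℂ} (hz : z ∈ An a b) : z ≠ 0 := by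
  have h1 := Real.exp_pos (-b)
  exact norm_pos_iff.mp (h1.trans_le hz.1)

theorem cont_ep : Continuous fun p : ℝ × ℝ => ep (-p.1) p.2 := by
  unfold ep
  fun_prop

theorem contRect {a b : ℝ} {E : Type*} [TopologicalSpace E] {g : ℂ → E}
    (hg : ContinuousOn g (An a b)) :
    ContinuousOn (fun p : ℝ × ℝ => g (ep (-p.1) p.2)) (Rect a b) :=
  hg.comp cont_ep.continuousOn fun _ hp => ep_mem_An hp

structure Geo (a b : ℝ) (β : ℂ → ℂ) (z0 : ℂ) : Prop where
  ext : Ext β
  a_pos : 0 < a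
  z0_ne : z0 ≠ 0
  z0_lt : ‖z0‖ < Real.exp (-b)
  ab : a ≤ b

section geo

variable {a b : ℝ} {β : ℂ → ℂ} {z0 z : ℂ}

theorem Geo.z0_ball (h : Geo a b β z0) : z0 ∈ ball (0:ℂ) 1 := by
  have h1 : Real.exp (-b) < 1 := by
    rw [← Real.exp_zero]
    exact Real.exp_lt_exp.mpr (by linarith only [h.a_pos, h.ab])
  rw [mem_ball, dist_zero_right]
  (clear * - h1 h; linarith [h.z0_lt])

theorem Geo.ne (h : Geo a b β z0) (hz : z ∈ An a b) : z ≠ z0 := by
  intro h1
  have := hz.1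
  rw [h1] at this
  linarith only [h.z0_lt, this]

theorem Geo.ne' (h : Geo a b β z0) (hz : z ∈ An a b) : z - z0 ≠ 0 := sub_ne_zero.mpr (h.ne hz)

theorem Geo.conj_ne (h : Geo a b β z0) (hz : z ∈ An a b) : z0 * conj z ≠ 1 := by
  intro h1
  have h2 : ‖z0 * conj z‖ = 1 := by rw [h1, norm_one]
  rw [norm_mul, RCLike.norm_conj] at h2
  have h3 : ‖z0‖ < 1 := by simpa using h.z0_ball
  have h4 : ‖z‖ < 1 := by simpa using An_ball h.a_pos hz
  (clear * - h2 h4 h3; nlinarith only [norm_nonneg z, h2, h3, h4])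

theorem Geo.conj_ne2 (h : Geo a b β z0) (hz : z ∈ An a b) : 1 - z0 * conj z ≠ 0 :=
  sub_ne_zero.mpr (Ne.symm (h.conj_ne hz))

theorem Geo.conj_ne3 (h : Geo a b β z0) (hz : z ∈ An a b) : conj z0 * z ≠ 1 := by
  intro h1
  apply h.conj_ne hz
  have := congrArg conj h1
  simpa using this

theorem Geo.conj_ne4 (h : Geo a b β z0) (hz : z ∈ An a b) : 1 - conj z0 * z ≠ 0 :=
  sub_ne_zero.mpr (Ne.symm (h.conj_ne3 hz))

theorem Geo.N_ne (h : Geo a b β z0) (hz : z ∈ An a b) : N β z ≠ 0 :=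
  h.ext.ne z (An_ball h.a_pos hz)

theorem Geo.phi_ne (h : Geo a b β z0) (hz : z ∈ An a b) : phi β z - phi β z0 ≠ 0 := by
  intro h1
  exact h.ne hz (h.ext.inj z z0 (An_ball h.a_pos hz) h.z0_ball (An_ne hz) h.z0_ne
    (sub_eq_zero.mp h1))

theorem Geo.cN (h : Geo a b β z0) : ContinuousOn (N β) (An a b) := by
  have hb : DifferentiableOn ℂ (deriv β) (ball 0 1) := h.ext.diff.deriv isOpen_ball
  unfold N
  exact (continuousOn_const.sub ((continuousOn_id.pow 2).mul hb.continuousOn)).mono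
    fun z hz => An_ball h.a_pos hz

theorem Geo.dN (h : Geo a b β z0) (hz : z ∈ An a b) : HasDerivAt (N β) (deriv (N β) z) z := by
  have hb : DifferentiableOn ℂ (deriv β) (ball 0 1) := h.ext.diff.deriv isOpen_ball
  have h1 : DifferentiableOn ℂ (N β) (ball 0 1) := by
    unfold N
    exact (differentiableOn_const _).sub ((differentiableOn_id.pow 2).mul hb)
  exact (h1.differentiableAt (isOpen_ball.mem_nhds (An_ball h.a_pos hz))).hasDerivAt

theorem Geo.cN' (h : Geo a b β z0) : ContinuousOn (deriv (N β)) (An a b) := by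
  have hb : DifferentiableOn ℂ (deriv β) (ball 0 1) := h.ext.diff.deriv isOpen_ball
  have h1 : DifferentiableOn ℂ (N β) (ball 0 1) := by
    unfold N
    exact (differentiableOn_const _).sub ((differentiableOn_id.pow 2).mul hb)
  exact (h1.deriv isOpen_ball).continuousOn.mono fun z hz => An_ball h.a_pos hz

theorem Geo.cphi (h : Geo a b β z0) : ContinuousOn (phi β) (An a b) := by
  unfold phi
  exact (continuousOn_inv₀.mono fun z hz => An_ne hz).add
    (h.ext.diff.continuousOn.mono fun z hz => An_ball h.a_pos hz)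

theorem Geo.cF (h : Geo a b β z0) (κ : ℝ) : ContinuousOn (FF κ β) (Rect a b) := by
  have h1 : ContinuousOn (fun z => ‖N β z‖ ^ (-κ)) (An a b) :=
    h.cN.norm.rpow_const fun z hz => Or.inl (norm_ne_zero_iff.mpr (h.N_ne hz))
  exact contRect h1

theorem Geo.ch (h : Geo a b β z0) (B : ℂ) : ContinuousOn (hh z0 B) (An a b) := by
  intro z hz
  exact (hasDerivAt_hh (τ := B) (h.ne hz) (h.conj_ne3 hz)).continuousAt.continuousWithinAt

theorem Geo.chd (h : Geo a b β z0) (B : ℂ) : ContinuousOn (hd z0 B) (An a b) := by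
  unfold hd
  refine ContinuousOn.sub (ContinuousOn.neg (continuousOn_const.mul (continuousOn_const.div ?_ ?_)))
    (continuousOn_const.mul (continuousOn_const.div ?_ ?_))
  · fun_prop
  · intro z hz
    exact pow_ne_zero 2 (h.ne' hz)
  · fun_prop
  · intro z hz
    exact pow_ne_zero 2 (h.conj_ne4 hz)

end geo

end

end Pool.Agent.Helper27.CK

end

section

namespace Pool.Agent.Helper39.Area
end Pool.Agent.Helper39.Area
namespace Pool.Agent.Helper5.CK
end Pool.Agent.Helper5.CK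
namespace Pool.Agent.Helper52.EK
end Pool.Agent.Helper52.EK
namespace Pool.Agent.Helper14.CK
end Pool.Agent.Helper14.CK

/-!
Project CK: the first variation of the area functional is `Re (B * EE)`.
-/

set_option autoImplicit false

open Complex MeasureTheory Metric Set Filter Topology

open scoped Real ComplexConjugate

namespace Pool.Agent.Helper27.CK

open Pool.Agent.Helper39.Area Pool.Agent.Helper5.CK

open Pool.Agent.Helper52.EK hiding Rect

open Pool.Agent.Helper14.CK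

noncomputable section

variable {a b κ : ℝ} {β : ℂ → ℂ} {z0 B : ℂ} {om om' u u' : ℝ → ℝ}

theorem Wt2.c_om (W : Wt2 om om' a b u u') : Continuous om :=
  continuous_iff_continuousAt.mpr fun r => (W.om_d r).continuousAt

theorem Wt2.c_u (W : Wt2 om om' a b u u') : Continuous u :=
  continuous_iff_continuousAt.mpr fun r => (W.u_d r).continuousAt

/-- logarithmic derivative `z N' / N` -/
def qN (β : ℂ → ℂ) (z : ℂ) : ℂ := z * deriv (N β) z / N β z

theorem Geo.cq (h : Geo a b β z0) : ContinuousOn (qN β) (An a b) :=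
  (continuousOn_id.mul h.cN').div h.cN fun _ hz => h.N_ne hz

/-- derivative of the density in `x` -/
theorem Geo.F_x (h : Geo a b β z0) {x θ : ℝ} (hx : (x, θ) ∈ Rect a b) :
    HasDerivAt (fun x => FF κ β (x, θ)) (κ * FF κ β (x, θ) * (qN β (ep (-x) θ)).re) x := by
  have hz := ep_mem_An hx
  have h1 := hasDerivAt_norm_rpow κ (hasDerivAt_comp_x (h.dN hz)) (h.N_ne hz)
  refine h1.congr_deriv ?_
  unfold FF qN
  rw [neg_div, Complex.neg_re]
  ring

/-- derivative of the density in `θ` -/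
theorem Geo.F_θ (h : Geo a b β z0) {x θ : ℝ} (hx : (x, θ) ∈ Rect a b) :
    HasDerivAt (fun θ => FF κ β (x, θ)) (κ * FF κ β (x, θ) * (qN β (ep (-x) θ)).im) θ := by
  have hz := ep_mem_An hx
  have h1 := hasDerivAt_norm_rpow κ (hasDerivAt_comp_θ (h.dN hz)) (h.N_ne hz)
  refine h1.congr_deriv ?_
  unfold FF qN
  rw [mul_div_assoc, Complex.I_mul_re]
  ring

/-- the `x` flux -/
def G1 (κ : ℝ) (om u : ℝ → ℝ) (β : ℂ → ℂ) (z0 B : ℂ) (p : ℝ × ℝ) : ℝ :=
  -(om p.1 * (u p.2 * (FF κ β p * (hh z0 B (ep (-p.1) p.2)).re)))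

def G1x (κ : ℝ) (om om' u : ℝ → ℝ) (β : ℂ → ℂ) (z0 B : ℂ) (p : ℝ × ℝ) : ℝ :=
  -(om' p.1 * (u p.2 * (FF κ β p * (hh z0 B (ep (-p.1) p.2)).re)) +
    om p.1 * (u p.2 * (κ * FF κ β p * (qN β (ep (-p.1) p.2)).re * (hh z0 B (ep (-p.1) p.2)).re +
      FF κ β p * (-(ep (-p.1) p.2 * hd z0 B (ep (-p.1) p.2))).re)))

/-- the `θ` flux -/
def G2 (κ : ℝ) (om u : ℝ → ℝ) (β : ℂ → ℂ) (z0 B : ℂ) (p : ℝ × ℝ) : ℝ :=
  om p.1 * (u p.2 * (FF κ β p * (hh z0 B (ep (-p.1) p.2)).im))

def G2θ (κ : ℝ) (om u u' : ℝ → ℝ) (β : ℂ → ℂ) (z0 B : ℂ) (p : ℝ × ℝ) : ℝ :=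
  om p.1 * (u' p.2 * (FF κ β p * (hh z0 B (ep (-p.1) p.2)).im) +
    u p.2 * (κ * FF κ β p * (qN β (ep (-p.1) p.2)).im * (hh z0 B (ep (-p.1) p.2)).im +
      FF κ β p * (I * (ep (-p.1) p.2 * hd z0 B (ep (-p.1) p.2))).im))

theorem Geo.c_hr (h : Geo a b β z0) (B : ℂ) :
    ContinuousOn (fun p : ℝ × ℝ => (hh z0 B (ep (-p.1) p.2)).re) (Rect a b) :=
  Complex.continuous_re.comp_continuousOn (contRect (h.ch B))

theorem Geo.c_hi (h : Geo a b β z0) (B : ℂ) :
    ContinuousOn (fun p : ℝ × ℝ => (hh z0 B (ep (-p.1) p.2)).im) (Rect a b) :=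
  Complex.continuous_im.comp_continuousOn (contRect (h.ch B))

theorem Geo.c_qr (h : Geo a b β z0) :
    ContinuousOn (fun p : ℝ × ℝ => (qN β (ep (-p.1) p.2)).re) (Rect a b) :=
  Complex.continuous_re.comp_continuousOn (contRect h.cq)

theorem Geo.c_qi (h : Geo a b β z0) :
    ContinuousOn (fun p : ℝ × ℝ => (qN β (ep (-p.1) p.2)).im) (Rect a b) :=
  Complex.continuous_im.comp_continuousOn (contRect h.cq)

theorem Geo.c_zd (h : Geo a b β z0) (B : ℂ) :
    ContinuousOn (fun p : ℝ × ℝ => ep (-p.1) p.2 * hd z0 B (ep (-p.1) p.2)) (Rect a b) :=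
  cont_ep.continuousOn.mul (contRect (h.chd B))

theorem Geo.G1_int (h : Geo a b β z0) (W : Wt2 om om' a b u u') :
    ContinuousOn (G1x κ om om' u β z0 B) (Rect a b) ∧
      ∫ p in Rect a b, G1x κ om om' u β z0 B p = 0 := by
  have co : ContinuousOn (fun p : ℝ × ℝ => om p.1) (Rect a b) :=
    (W.c_om.comp continuous_fst).continuousOn
  have co' : ContinuousOn (fun p : ℝ × ℝ => om' p.1) (Rect a b) :=
    (W.om_c.comp continuous_fst).continuousOn
  have cu : ContinuousOn (fun p : ℝ × ℝ => u p.2) (Rect a b) :=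
    (W.c_u.comp continuous_snd).continuousOn
  have hc : ContinuousOn (G1x κ om om' u β z0 B) (Rect a b) := by
    unfold G1x
    refine ContinuousOn.neg (ContinuousOn.add (co'.mul (cu.mul ((h.cF κ).mul (h.c_hr B)))) ?_)
    refine co.mul (cu.mul (ContinuousOn.add ?_ ?_))
    · exact ((continuousOn_const.mul (h.cF κ)).mul h.c_qr).mul (h.c_hr B)
    · exact (h.cF κ).mul (Complex.continuous_re.comp_continuousOn (h.c_zd B).neg)
  refine ⟨hc, ibp_x h.ab hc (G := G1 κ om u β z0 B) ?_ ?_ ?_⟩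
  · intro x hx θ hθ
    have hxr : (x, θ) ∈ Rect a b := ⟨hx, hθ⟩
    have hz := ep_mem_An hxr
    have h1 := h.F_x (κ := κ) hxr
    have h2 := hasDerivAt_re (hasDerivAt_comp_x (hasDerivAt_hh (τ := B) (h.ne hz) (h.conj_ne3 hz)))
    have h3 := ((W.om_d x).mul ((h1.mul h2).const_mul (u θ))).neg
    exact h3.congr_deriv (by unfold G1x; simp only [Pi.mul_apply])
  · intro θ
    simp [G1, W.om_a]
  · intro θ
    simp [G1, W.om_b]

theorem Geo.G2_int (h : Geo a b β z0) (W : Wt2 om om' a b u u') :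
    ContinuousOn (G2θ κ om u u' β z0 B) (Rect a b) ∧
      ∫ p in Rect a b, G2θ κ om u u' β z0 B p = 0 := by
  have co : ContinuousOn (fun p : ℝ × ℝ => om p.1) (Rect a b) :=
    (W.c_om.comp continuous_fst).continuousOn
  have cu : ContinuousOn (fun p : ℝ × ℝ => u p.2) (Rect a b) :=
    (W.c_u.comp continuous_snd).continuousOn
  have cu' : ContinuousOn (fun p : ℝ × ℝ => u' p.2) (Rect a b) :=
    (W.u_c.comp continuous_snd).continuousOn
  have hc : ContinuousOn (G2θ κ om u u' β z0 B) (Rect a b) := by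
    unfold G2θ
    refine co.mul (ContinuousOn.add (cu'.mul ((h.cF κ).mul (h.c_hi B))) ?_)
    refine cu.mul (ContinuousOn.add ?_ ?_)
    · exact ((continuousOn_const.mul (h.cF κ)).mul h.c_qi).mul (h.c_hi B)
    · exact (h.cF κ).mul (Complex.continuous_im.comp_continuousOn
        (continuousOn_const.mul (h.c_zd B)))
  refine ⟨hc, ibp_θ h.ab hc (G := G2 κ om u β z0 B) ?_ ?_⟩
  · intro x hx θ hθ
    have hxr : (x, θ) ∈ Rect a b := ⟨hx, hθ⟩
    have hz := ep_mem_An hxr
    have h1 := h.F_θ (κ := κ) hxr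
    have h2 := hasDerivAt_im (hasDerivAt_comp_θ (hasDerivAt_hh (τ := B) (h.ne hz) (h.conj_ne3 hz)))
    have h3 := (((W.u_d θ).mul (h1.mul h2)).const_mul (om x))
    exact h3.congr_deriv (by unfold G2θ; simp only [Pi.mul_apply])
  · intro x
    have e1 : ep (-x) (-π) = ep (-x) π := by
      unfold ep
      rw [Complex.exp_add, Complex.exp_add]
      congr 1
      push_cast
      rw [neg_mul, Complex.exp_neg, Complex.exp_pi_mul_I]
      norm_num
    unfold G2 FF
    simp only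
    rw [e1, W.u_per]

/-- pointwise identity -/
theorem dl_body (h : Geo a b β z0) {p : ℝ × ℝ} (hp : p ∈ Rect a b) :
    -κ * (om p.1 * u p.2 * (FF κ β p * (dl β z0 B (ep (-p.1) p.2)).re)) =
      G1x κ om om' u β z0 B p + G2θ κ om u u' β z0 B p +
        FF κ β p * (B * body κ om om' u u' β z0 p).re := by
  have hz := ep_mem_An hp
  set z := ep (-p.1) p.2 with hzd
  have e3 := hh_re (B := B) (h.ne hz) (h.conj_ne hz)
  have e5 := hh_im (p := z0) (B := B) (z := z)
  have e4 := hd_re (p := z0) (B := B) (z := z)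
  have eb : (B * body κ om om' u u' β z0 p).re =
      om p.1 * u p.2 * (κ * B.re + κ * (-(B * (z0 ^ 2 * dphi β z0 ^ 2 /
        (phi β z - phi β z0) ^ 2)).re) + (κ + 2) * (B * k4 z0 z).re + κ * (B * k3 z0 z).re) +
      om' p.1 * u p.2 * (B * k3 z0 z).re + om p.1 * u' p.2 * (B * (I / 2 * k5 z0 z)).re := by
    unfold body
    rw [← hzd]
    generalize z0 ^ 2 * dphi β z0 ^ 2 / (phi β z - phi β z0) ^ 2 = X
    generalize k3 z0 z = K3
    generalize k4 z0 z = K4
    generalize k5 z0 z = K5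
    have : B * ((om p.1 : ℂ) * (u p.2 : ℂ) * ((κ : ℂ) - κ * X + (κ + 2) * K4 + κ * K3) +
        (om' p.1 : ℂ) * (u p.2 : ℂ) * K3 + I / 2 * ((om p.1 : ℂ) * (u' p.2 : ℂ) * K5)) =
        ((om p.1 * u p.2 * κ : ℝ) : ℂ) * B + ((om p.1 * u p.2 * κ : ℝ) : ℂ) * (-(B * X)) +
        ((om p.1 * u p.2 * (κ + 2) : ℝ) : ℂ) * (B * K4) +
        ((om p.1 * u p.2 * κ : ℝ) : ℂ) * (B * K3) +
        ((om' p.1 * u p.2 : ℝ) : ℂ) * (B * K3) +
        ((om p.1 * u' p.2 : ℝ) : ℂ) * (B * (I / 2 * K5)) := by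
      push_cast
      ring
    rw [this]
    simp only [Complex.add_re, Complex.re_ofReal_mul, Complex.neg_re]
    ring
  rw [eb, ← e3, ← e5, ← e4]
  have ed : (dl β z0 B z).re = (B * (z0 ^ 2 * dphi β z0 ^ 2 / (phi β z - phi β z0) ^ 2)).re +
      ((hh z0 B z).re * (qN β z).re - (hh z0 B z).im * (qN β z).im) - (hh z0 B z).re +
      (z * hd z0 B z).re - B.re := by
    unfold dl
    have e1 : -(eps β z0 B / (phi β z - phi β z0) ^ 2) =
        B * (z0 ^ 2 * dphi β z0 ^ 2 / (phi β z - phi β z0) ^ 2) := by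
      unfold eps; ring
    rw [e1]
    have e2 : z * deriv (N β) z / N β z = qN β z := rfl
    rw [e2]
    simp only [Complex.add_re, Complex.sub_re, Complex.mul_re (hh z0 B z) (qN β z),
      Complex.ofReal_re]
  rw [ed]
  unfold G1x G2θ
  rw [← hzd]
  have e6 : (-(z * hd z0 B z)).re = -(z * hd z0 B z).re := Complex.neg_re _
  have e7 : (I * (z * hd z0 B z)).im = (z * hd z0 B z).re := by
    rw [Complex.I_mul_im]
  rw [e6, e7]
  ring

theorem Geo.c_body (h : Geo a b β z0) (W : Wt2 om om' a b u u') :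
    ContinuousOn (body κ om om' u u' β z0) (Rect a b) := by
  have co : ContinuousOn (fun p : ℝ × ℝ => (om p.1 : ℂ)) (Rect a b) :=
    (Complex.continuous_ofReal.comp (W.c_om.comp continuous_fst)).continuousOn
  have co' : ContinuousOn (fun p : ℝ × ℝ => (om' p.1 : ℂ)) (Rect a b) :=
    (Complex.continuous_ofReal.comp (W.om_c.comp continuous_fst)).continuousOn
  have cu : ContinuousOn (fun p : ℝ × ℝ => (u p.2 : ℂ)) (Rect a b) :=
    (Complex.continuous_ofReal.comp (W.c_u.comp continuous_snd)).continuousOn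
  have cu' : ContinuousOn (fun p : ℝ × ℝ => (u' p.2 : ℂ)) (Rect a b) :=
    (Complex.continuous_ofReal.comp (W.u_c.comp continuous_snd)).continuousOn
  have ck3 : ContinuousOn (k3 z0) (An a b) := by
    unfold k3
    refine ContinuousOn.div ?_ ?_ fun z hz => mul_ne_zero (h.ne' hz) (h.conj_ne2 hz)
    · have : Continuous fun z : ℂ => ((1 - ‖z‖ ^ 2 : ℝ) : ℂ) := by fun_prop
      exact (continuous_const.mul this).continuousOn
    · have : Continuous fun z : ℂ => (z - z0) * (1 - z0 * conj z) := by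
        have := Complex.continuous_conj
        fun_prop
      exact this.continuousOn
  have ck4 : ContinuousOn (k4 z0) (An a b) := by
    unfold k4
    refine ContinuousOn.add (ContinuousOn.div ?_ ?_ fun z hz => pow_ne_zero 2 (h.ne' hz))
      (ContinuousOn.div ?_ ?_ fun z hz => pow_ne_zero 2 (h.conj_ne2 hz))
    · fun_prop
    · fun_prop
    · have : Continuous fun z : ℂ => conj z * z0 := by
        have := Complex.continuous_conj
        fun_prop
      exact this.continuousOn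
    · have : Continuous fun z : ℂ => (1 - z0 * conj z) ^ 2 := by
        have := Complex.continuous_conj
        fun_prop
      exact this.continuousOn
  have ck5 : ContinuousOn (k5 z0) (An a b) := by
    unfold k5
    refine ContinuousOn.add (ContinuousOn.div ?_ ?_ fun z hz => h.ne' hz)
      (ContinuousOn.div ?_ ?_ fun z hz => h.conj_ne2 hz)
    · fun_prop
    · fun_prop
    · have : Continuous fun z : ℂ => 1 + z0 * conj z := by
        have := Complex.continuous_conj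
        fun_prop
      exact this.continuousOn
    · have : Continuous fun z : ℂ => 1 - z0 * conj z := by
        have := Complex.continuous_conj
        fun_prop
      exact this.continuousOn
  have cph : ContinuousOn (fun z => z0 ^ 2 * dphi β z0 ^ 2 / (phi β z - phi β z0) ^ 2)
      (An a b) :=
    continuousOn_const.div ((h.cphi.sub continuousOn_const).pow 2)
      fun z hz => pow_ne_zero 2 (h.phi_ne hz)
  have c3 := contRect ck3
  have c4 := contRect ck4
  have c5 := contRect ck5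
  have cp := contRect cph
  unfold body
  refine ContinuousOn.add (ContinuousOn.add ?_ ?_) ?_
  · refine (co.mul cu).mul ?_
    exact ((continuousOn_const.sub (continuousOn_const.mul cp)).add
      (continuousOn_const.mul c4)).add (continuousOn_const.mul c3)
  · exact (co'.mul cu).mul c3
  · exact continuousOn_const.mul ((co.mul cu').mul c5)

theorem Geo.c_EE (h : Geo a b β z0) (W : Wt2 om om' a b u u') :
    ContinuousOn (fun p => (FF κ β p : ℂ) * body κ om om' u u' β z0 p) (Rect a b) :=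
  (Complex.continuous_ofReal.comp_continuousOn (h.cF κ)).mul (h.c_body W)

/-- **the first variation of the area functional** -/
theorem dJ_eq (h : Geo a b β z0) (W : Wt2 om om' a b u u') (κ : ℝ) (B : ℂ) :
    -κ * ∫ p in Rect a b, om p.1 * u p.2 * (FF κ β p * (dl β z0 B (ep (-p.1) p.2)).re) =
      (B * EE κ om om' u u' a b β z0).re := by
  obtain ⟨c1, i1⟩ := h.G1_int (κ := κ) (B := B) W
  obtain ⟨c2, i2⟩ := h.G2_int (κ := κ) (B := B) W
  have c3 := h.c_EE (κ := κ) W
  have h1 : -κ * ∫ p in Rect a b, om p.1 * u p.2 * (FF κ β p * (dl β z0 B (ep (-p.1) p.2)).re) =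
      ∫ p in Rect a b, (G1x κ om om' u β z0 B p + G2θ κ om u u' β z0 B p +
        (B * ((FF κ β p : ℂ) * body κ om om' u u' β z0 p)).re) := by
    rw [← integral_const_mul]
    refine setIntegral_congr_fun (measurableSet_rect a b) fun p hp => ?_
    have h2 := dl_body (κ := κ) (om := om) (om' := om') (u := u) (u' := u') (B := B) h hp
    have h3 : (B * ((FF κ β p : ℂ) * body κ om om' u u' β z0 p)).re =
        FF κ β p * (B * body κ om om' u u' β z0 p).re := by
      rw [← Complex.re_ofReal_mul]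
      congr 1
      ring
    rw [h3]
    exact h2
  have c4 : ContinuousOn (fun p => (B * ((FF κ β p : ℂ) *
      body κ om om' u u' β z0 p)).re) (Rect a b) :=
    Complex.continuous_re.comp_continuousOn (continuousOn_const.mul c3)
  have i12 : IntegrableOn (fun p => G1x κ om om' u β z0 B p + G2θ κ om u u' β z0 B p)
      (Rect a b) := (integrableOn_rect c1).add (integrableOn_rect c2)
  rw [h1, integral_add i12 (integrableOn_rect c4),
    integral_add (integrableOn_rect c1) (integrableOn_rect c2), i1, i2]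
  rw [zero_add, zero_add]
  have h5 : IntegrableOn (fun p => B * ((FF κ β p : ℂ) * body κ om om' u u' β z0 p))
      (Rect a b) := integrableOn_rectC (continuousOn_const.mul c3)
  have h6 := integral_re (𝕜 := ℂ) h5
  simp only [RCLike.re_to_complex] at h6
  rw [h6, integral_const_mul]
  rfl

end

end Pool.Agent.Helper27.CK

end

section

namespace Pool.Agent.Helper39.Area
end Pool.Agent.Helper39.Area
namespace Pool.Agent.Helper52.EK
end Pool.Agent.Helper52.EK
namespace Pool.Agent.Helper5.CK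
end Pool.Agent.Helper5.CK
namespace Pool.Agent.Helper39.EK
end Pool.Agent.Helper39.EK
namespace Pool.Agent.Helper43.CK
end Pool.Agent.Helper43.CK

/-!
Project CK: uniform expansion of `‖N‖ ^ (-κ)` under the interior variation.
-/

set_option autoImplicit false

open Complex MeasureTheory Metric Set Filter Topology

open scoped Real ComplexConjugate

namespace Pool.Agent.Helper27.CK

open Pool.Agent.Helper39.Area Pool.Agent.Helper52.EK Pool.Agent.Helper5.CK

open Pool.Agent.Helper39.EK Pool.Agent.Helper43.CK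

noncomputable section

/-- one competitor -/
theorem expand_one {β γ : ℂ → ℂ} (hβ : Ext β) (_hγ : Ext γ) {p τ z : ℂ} {η C0 m : ℝ}
    (hm : 0 < m) (hmz : m ≤ ‖N β z‖) (hη : 0 < η) (hp : η ≤ ‖p‖) (hp1 : ‖p‖ ≤ 1 - η)
    (hz : η ≤ ‖z‖) (hz1 : ‖z‖ ≤ 1 - η) (hzp : η ≤ ‖z - p‖)
    (hC : ‖deriv γ z - deriv β z - deriv (fun z => VV β p τ z - (τ.re : ℂ) * phi β z) z‖ ≤
      C0 * ‖τ‖ ^ 2) :
    ‖N γ z / N β z - 1 - dl β p τ z‖ ≤ C0 / m * ‖τ‖ ^ 2 := by
  have hp0 : p ≠ 0 := norm_pos_iff.mp (by (clear * - hη hp; linarith only [hη, hp]))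
  have hz0 : z ≠ 0 := norm_pos_iff.mp (by (clear * - hη hz; linarith))
  have hzp' : z ≠ p := by
    intro h
    rw [h, sub_self, norm_zero] at hzp
    linarith
  have hpb : p ∈ ball (0:ℂ) 1 := by simp; (clear * - hη hp1; linarith)
  have hzb : z ∈ ball (0:ℂ) 1 := by simp; linarith only [hη, hz1]
  have hN : N β z ≠ 0 := hβ.ne z hzb
  have h1 := deriv_VV (τ := τ) hβ hpb hp0 hzb hz0 hzp'
  have h2 : N γ z / N β z - 1 - dl β p τ z = (-z ^ 2 * (deriv γ z - deriv β z -
      deriv (fun z => VV β p τ z - (τ.re : ℂ) * phi β z) z)) / N β z := by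
    have h3 : N γ z - N β z = -z ^ 2 * (deriv γ z - deriv β z) := by
      unfold N; ring
    have h4 : -z ^ 2 * (deriv γ z - deriv β z -
      deriv (fun z => VV β p τ z - (τ.re : ℂ) * phi β z) z) =
      (N γ z - N β z) - N β z * dl β p τ z := by
      rw [h3, ← h1]; ring
    rw [h4]
    field_simp
  rw [h2, norm_div, norm_mul, norm_neg, norm_pow]
  have hz2 : ‖z‖ ^ 2 ≤ 1 := pow_le_one₀ (norm_nonneg z) (by linarith only [hη, hz1])
  have h5 : ‖z‖ ^ 2 * ‖deriv γ z - deriv β z -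
      deriv (fun z => VV β p τ z - (τ.re : ℂ) * phi β z) z‖ ≤ C0 * ‖τ‖ ^ 2 := by
    calc _ ≤ 1 * ‖deriv γ z - deriv β z -
        deriv (fun z => VV β p τ z - (τ.re : ℂ) * phi β z) z‖ := by (clear * - hz2; gcongr)
      _ ≤ _ := by rw [one_mul]; exact hC
  have hC0 : 0 ≤ C0 * ‖τ‖ ^ 2 := (by (clear * - hz0; positivity) : (0:ℝ) ≤ ‖z‖ ^ 2 * ‖deriv γ z - deriv β z -
      deriv (fun z => VV β p τ z - (τ.re : ℂ) * phi β z) z‖).trans h5
  calc _ ≤ (C0 * ‖τ‖ ^ 2) / ‖N β z‖ := by (clear * - h5 hN; gcongr)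
    _ ≤ (C0 * ‖τ‖ ^ 2) / m := by (clear * - hC0 hm hmz; gcongr)
    _ = _ := by ring

theorem norm_smul_le {t : ℝ} {B : ℂ} (ht : 0 < t) (hB : ‖B‖ ≤ 1) : ‖(t : ℂ) * B‖ ≤ t := by
  rw [norm_mul, Complex.norm_real, Real.norm_eq_abs, abs_of_pos ht]
  calc t * ‖B‖ ≤ t * 1 := by (clear * - hB ht; gcongr)
    _ = t := mul_one t

theorem expand (hV : Variation) {κ : ℝ} (hκ : 0 ≤ κ) {η : ℝ} (hη : 0 < η) :
    ∃ C t1 : ℝ, 0 < C ∧ 0 < t1 ∧ ∀ β, Ext β → ∀ p : ℂ, η ≤ ‖p‖ → ‖p‖ ≤ 1 - η →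
      ∀ B : ℂ, ‖B‖ ≤ 1 →
      (∀ z : ℂ, η ≤ ‖z‖ → ‖z‖ ≤ 1 - η → η ≤ ‖z - p‖ → ‖dl β p B z‖ ≤ C) ∧
      ∀ t : ℝ, 0 < t → t ≤ t1 → ∃ γ, Ext γ ∧ ∀ z : ℂ, η ≤ ‖z‖ → ‖z‖ ≤ 1 - η → η ≤ ‖z - p‖ →
        |‖N γ z‖ ^ (-κ) - ‖N β z‖ ^ (-κ) + t * (κ * ‖N β z‖ ^ (-κ) * (dl β p B z).re)| ≤
          C * t ^ 2 := by
  obtain ⟨C0, t0, hC0, ht0, hV⟩ := hV η hη
  by_cases hη1 : η ≤ 1 - η
  swap
  · refine ⟨1, 1, one_pos, one_pos, fun β _ p h1 h2 => ?_⟩
    exact absurd (h1.trans h2) hη1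
  obtain ⟨m, hm⟩ : ∃ m : ℝ, m = 1 - (1 - η) ^ 2 := ⟨_, rfl⟩
  have hm0 : 0 < m := by
    have e : m = η * (2 - η) := by rw [hm]; ring
    rw [e]
    exact mul_pos hη (by linarith)
  obtain ⟨C1, hC1⟩ : ∃ C1 : ℝ, C1 = C0 / m := ⟨_, rfl⟩
  have hC1p : 0 < C1 := by rw [hC1]; positivity
  obtain ⟨K, hK⟩ : ∃ K : ℝ, K = ((m⁻¹) ^ 2 + 1 + C1 * t0 ^ 2) / t0 := ⟨_, rfl⟩
  have hKp : 0 < K := by rw [hK]; (clear * - hm0 hC1p ht0; positivity)
  obtain ⟨C2, hC2⟩ : ∃ C2 : ℝ, C2 = C1 + K := ⟨_, rfl⟩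
  have hC2p : 0 < C2 := by rw [hC2]; (clear * - hC1p hKp; positivity)
  obtain ⟨C3, hC3⟩ : ∃ C3 : ℝ, C3 = κ * (C2 + 4 * C2 ^ 2) + κ * C2 := ⟨_, rfl⟩
  have hC3p : 0 ≤ C3 := by rw [hC3]; (clear * - hκ hC2p; positivity)
  obtain ⟨C4, hC4⟩ : ∃ C4 : ℝ, C4 = C3 + 4 * C3 ^ 2 := ⟨_, rfl⟩
  have hC4p : 0 ≤ C4 := by rw [hC4]; (clear * - hC3p; positivity)
  obtain ⟨t1, ht1⟩ : ∃ t1 : ℝ, t1 = min t0 (min 1 (1 / (4 * (C2 + C3 + 1)))) := ⟨_, rfl⟩
  have ht1p : 0 < t1 := by
    rw [ht1]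
    refine lt_min ht0 (lt_min one_pos ?_)
    (clear * - hC2p hC3p; positivity)
  have hNge : ∀ {β : ℂ → ℂ}, Ext β → ∀ z : ℂ, ‖z‖ ≤ 1 - η → m ≤ ‖N β z‖ := by
    intro β hβ z hz
    have h1 := N_ge hβ (z := z) (by linarith only [hη, hz])
    have h2 : ‖z‖ ^ 2 ≤ (1 - η) ^ 2 := by
      have := norm_nonneg z
      (clear * - hz; gcongr)
    linarith only [hm, h1, h2]
  have hNle : ∀ {β : ℂ → ℂ}, Ext β → ∀ z : ℂ, ‖z‖ ≤ 1 - η → ‖N β z‖ ≤ m⁻¹ := by
    intro β hβ z hz
    have h1 := N_le hβ (z := z) (by linarith only [hη, hz])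
    have h2 : ‖z‖ ^ 2 ≤ (1 - η) ^ 2 := by
      have := norm_nonneg z
      (clear * - hz; gcongr)
    refine h1.trans ?_
    gcongr
    linarith only [hm, h2]
  -- uniform bound of the variation
  have hbd : ∀ β, Ext β → ∀ p : ℂ, η ≤ ‖p‖ → ‖p‖ ≤ 1 - η → ∀ B : ℂ, ‖B‖ ≤ 1 →
      ∀ z : ℂ, η ≤ ‖z‖ → ‖z‖ ≤ 1 - η → η ≤ ‖z - p‖ → ‖dl β p B z‖ ≤ K := by
    intro β hβ p hp hp1 B hB z hz hz1 hzp
    have hτ : ‖(t0 : ℂ) * B‖ ≤ t0 := norm_smul_le ht0 hB
    obtain ⟨γ, hγ, h1⟩ := hV β hβ p hp hp1 (t0 * B) hτ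
    have h2 := expand_one hβ hγ hm0 (hNge hβ z hz1) hη hp hp1 hz hz1 hzp (h1 z hz hz1 hzp)
    rw [dl_smul] at h2
    have h3 : ‖(t0 : ℂ) * B‖ ^ 2 ≤ t0 ^ 2 := by (clear * - hτ; gcongr)
    have h4 : ‖N γ z / N β z - 1 - t0 * dl β p B z‖ ≤ C1 * t0 ^ 2 := by
      refine h2.trans ?_
      rw [← hC1]
      (clear * - h3 hC1p; gcongr)
    have h5 : ‖N γ z / N β z‖ ≤ (m⁻¹) ^ 2 := by
      rw [norm_div]
      calc ‖N γ z‖ / ‖N β z‖ ≤ m⁻¹ / m := by
            have a1 := hNle hγ z hz1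
            have a2 := hNge hβ z hz1
            (clear * - hm0 a1 a2; gcongr)
        _ = _ := by field_simp
    have h6 : ‖(t0 : ℂ) * dl β p B z‖ ≤ (m⁻¹) ^ 2 + 1 + C1 * t0 ^ 2 := by
      have e : (t0 : ℂ) * dl β p B z = N γ z / N β z - 1 -
          (N γ z / N β z - 1 - t0 * dl β p B z) := by ring
      rw [e]
      refine (norm_sub_le _ _).trans ?_
      have := norm_sub_le (N γ z / N β z) 1
      rw [norm_one] at this
      (clear * - h4 h5 this; linarith)
    rw [norm_mul, Complex.norm_real, Real.norm_eq_abs, abs_of_pos ht0] at h6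
    rw [hK, le_div_iff₀ ht0]
    linarith only [h6]
  refine ⟨K + (m⁻¹) ^ κ * C4 + 1, t1, by (clear * - hKp hm0 hC4p; positivity), ht1p, fun β hβ p hp hp1 B hB => ⟨?_, ?_⟩⟩
  · intro z hz hz1 hzp
    have := hbd β hβ p hp hp1 B hB z hz hz1 hzp
    have h2 : 0 ≤ (m⁻¹) ^ κ * C4 := by (clear * - hm0 hC4p; positivity)
    (clear * - this h2; linarith only [this, h2])
  intro t ht htt
  rw [ht1] at htt
  have ht0' : t ≤ t0 := htt.trans (min_le_left _ _)
  have ht1' : t ≤ 1 := htt.trans ((min_le_right _ _).trans (min_le_left _ _))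
  have ht2' : t ≤ 1 / (4 * (C2 + C3 + 1)) :=
    htt.trans ((min_le_right _ _).trans (min_le_right _ _))
  have ht3 : 4 * (C2 + C3 + 1) * t ≤ 1 := by
    rw [le_div_iff₀ (by positivity)] at ht2'
    linarith only [ht2']
  have hτ : ‖(t : ℂ) * B‖ ≤ t := norm_smul_le ht hB
  obtain ⟨γ, hγ, h1⟩ := hV β hβ p hp hp1 (t * B) (hτ.trans ht0')
  refine ⟨γ, hγ, fun z hz hz1 hzp => ?_⟩
  have h2 := expand_one hβ hγ hm0 (hNge hβ z hz1) hη hp hp1 hz hz1 hzp (h1 z hz hz1 hzp)
  rw [dl_smul] at h2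
  have h3 : ‖(t : ℂ) * B‖ ^ 2 ≤ t ^ 2 := by (clear * - hτ; gcongr)
  have h4 : ‖N γ z / N β z - 1 - t * dl β p B z‖ ≤ C2 * t ^ 2 := by
    refine h2.trans ?_
    have a1 : C1 ≤ C2 := by (clear * - hKp hC2; linarith only [hKp, hC2])
    calc C0 / m * ‖(t : ℂ) * B‖ ^ 2 ≤ C1 * t ^ 2 := by rw [← hC1]; (clear * - h3 hC1p; gcongr)
      _ ≤ C2 * t ^ 2 := by (clear * - a1 ht; gcongr)
  have h5 := hbd β hβ p hp hp1 B hB z hz hz1 hzp
  have hβN : N β z ≠ 0 := hβ.ne z (by simp; linarith only [hη, hz1])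
  have hγN : N γ z ≠ 0 := hγ.ne z (by simp; linarith only [hη, hz1])
  have hβn : 0 < ‖N β z‖ := norm_pos_iff.mpr hβN
  have hγn : 0 < ‖N γ z‖ := norm_pos_iff.mpr hγN
  have habs : |t| = t := abs_of_pos ht
  have hsm2 : 4 * (C2 + 1) * t ≤ 1 := by
    have : 4 * (C2 + 1) * t ≤ 4 * (C2 + C3 + 1) * t := by gcongr; linarith only [hC3p]
    linarith only [ht3, this]
  have hsm3 : 4 * (C3 + 1) * t ≤ 1 := by
    have : 4 * (C3 + 1) * t ≤ 4 * (C2 + C3 + 1) * t := by gcongr; linarith only [hC2p]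
    linarith only [ht3, this]
  have h6 := log_norm_expand (C := C2) (t := t) (z := N γ z / N β z) (u := dl β p B z)
    hC2p.le (by linarith only [hC1p, hC2, h5]) h4 (by rw [habs]; exact ht1') (by rw [habs]; exact hsm2)
  have h7 : |-κ * Real.log ‖N γ z / N β z‖ - t * (-κ * (dl β p B z).re)| ≤ C3 * t ^ 2 := by
    have e : -κ * Real.log ‖N γ z / N β z‖ - t * (-κ * (dl β p B z).re) =
        -κ * (Real.log ‖N γ z / N β z‖ - t * (dl β p B z).re) := by ring
    rw [e, abs_mul, abs_neg, abs_of_nonneg hκ]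
    calc κ * |Real.log ‖N γ z / N β z‖ - t * (dl β p B z).re| ≤
          κ * ((C2 + 4 * C2 ^ 2) * t ^ 2) := by (clear * - h6 hκ; gcongr)
      _ = (κ * (C2 + 4 * C2 ^ 2)) * t ^ 2 := by ring
      _ ≤ C3 * t ^ 2 := by
          have : 0 ≤ κ * C2 := by (clear * - hκ hC2p; positivity)
          gcongr
          linarith only [hC3, this]
  have h8 : |(-κ * (dl β p B z).re)| ≤ C3 := by
    rw [abs_mul, abs_neg, abs_of_nonneg hκ]
    have a1 : |(dl β p B z).re| ≤ C2 := (Complex.abs_re_le_norm _).trans (by linarith only [hC1p, hC2, h5])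
    have a2 : κ * |(dl β p B z).re| ≤ κ * C2 := by (clear * - a1 hκ; gcongr)
    have a3 : 0 ≤ κ * (C2 + 4 * C2 ^ 2) := by (clear * - hκ hC2p; positivity)
    rw [hC3]
    linarith only [a2, a3]
  have h9 := exp_expand (C := C3) hC3p h8 h7 (by rw [habs]; exact ht1') (by rw [habs]; exact hsm3)
  have h10 : ‖N γ z‖ ^ (-κ) = ‖N β z‖ ^ (-κ) * Real.exp (-κ * Real.log ‖N γ z / N β z‖) := by
    rw [norm_div, Real.log_div hγn.ne' hβn.ne', Real.rpow_def_of_pos hγn,
      Real.rpow_def_of_pos hβn, ← Real.exp_add]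
    congr 1
    ring
  have h11 : ‖N γ z‖ ^ (-κ) - ‖N β z‖ ^ (-κ) + t * (κ * ‖N β z‖ ^ (-κ) * (dl β p B z).re) =
      ‖N β z‖ ^ (-κ) * (Real.exp (-κ * Real.log ‖N γ z / N β z‖) - 1 -
        t * (-κ * (dl β p B z).re)) := by
    rw [h10]; ring
  rw [h11, abs_mul, abs_of_nonneg (Real.rpow_nonneg (norm_nonneg _) _)]
  have h12 : ‖N β z‖ ^ (-κ) ≤ (m⁻¹) ^ κ := by
    rw [Real.rpow_neg (norm_nonneg _), ← Real.inv_rpow (norm_nonneg _)]
    have a2 := hNge hβ z hz1
    (clear * - hβN hm0 a2 hκ; gcongr)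
  calc ‖N β z‖ ^ (-κ) * |Real.exp (-κ * Real.log ‖N γ z / N β z‖) - 1 -
        t * (-κ * (dl β p B z).re)| ≤ (m⁻¹) ^ κ * (C4 * t ^ 2) := by
          rw [← hC4] at h9
          (clear * - h12 h9 hm0; gcongr)
    _ = ((m⁻¹) ^ κ * C4) * t ^ 2 := by ring
    _ ≤ (K + (m⁻¹) ^ κ * C4 + 1) * t ^ 2 := by
        gcongr
        linarith only [hKp]

end

end Pool.Agent.Helper27.CK

end

section

namespace Pool.Agent.Helper39.Area
end Pool.Agent.Helper39.Area
namespace Pool.Agent.Helper5.CK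
end Pool.Agent.Helper5.CK
namespace Pool.Agent.Helper39.EK
end Pool.Agent.Helper39.EK
namespace Pool.Agent.Helper52.EK
end Pool.Agent.Helper52.EK
namespace Pool.Agent.Helper14.CK
end Pool.Agent.Helper14.CK
namespace Pool.Agent.Helper28.EK
end Pool.Agent.Helper28.EK

/-!
Project CK: near-maximisers of the localised window functional are nearly critical.
-/

set_option autoImplicit false

open Complex MeasureTheory Metric Set Filter Topology

open scoped Real ComplexConjugate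

namespace Pool.Agent.Helper27.CK

open Pool.Agent.Helper39.Area Pool.Agent.Helper5.CK Pool.Agent.Helper39.EK

open Pool.Agent.Helper52.EK hiding Rect

open Pool.Agent.Helper14.CK

open Pool.Agent.Helper28.EK (scale_ExtR scale_N)

noncomputable section

variable {a b κ : ℝ} {om om' u u' : ℝ → ℝ}

theorem exp_neg_lt {a : ℝ} (ha : 0 < a) : Real.exp (-a) < 1 := by
  rw [← Real.exp_zero]
  exact Real.exp_lt_exp.mpr (by (clear * - ha; linarith))

theorem cFF {β : ℂ → ℂ} (h : Ext β) (ha : 0 < a) (κ : ℝ) : ContinuousOn (FF κ β) (Rect a b) := by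
  have hb : DifferentiableOn ℂ (deriv β) (ball 0 1) := h.diff.deriv isOpen_ball
  have h1 : ContinuousOn (N β) (An a b) := by
    unfold N
    exact (continuousOn_const.sub ((continuousOn_id.pow 2).mul hb.continuousOn)).mono
      fun z hz => An_ball ha hz
  have h2 : ContinuousOn (fun z => ‖N β z‖ ^ (-κ)) (An a b) :=
    h1.norm.rpow_const fun z hz => Or.inl (norm_ne_zero_iff.mpr (h.ne z (An_ball ha hz)))
  exact contRect h2

theorem cW (W : Wt2 om om' a b u u') :
    ContinuousOn (fun p : ℝ × ℝ => om p.1 * u p.2) (Rect a b) :=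
  (((W.c_om.comp continuous_fst).mul (W.c_u.comp continuous_snd))).continuousOn

/-- the total weight -/
def MW (om u : ℝ → ℝ) (a b : ℝ) : ℝ := ∫ p in Rect a b, om p.1 * u p.2

theorem MW_nonneg (W : Wt2 om om' a b u u') : 0 ≤ MW om u a b :=
  setIntegral_nonneg (measurableSet_rect a b) fun _ _ => mul_nonneg (W.om_nn _) (W.u_nn _)

theorem FF_nonneg (κ : ℝ) (β : ℂ → ℂ) (p : ℝ × ℝ) : 0 ≤ FF κ β p :=
  Real.rpow_nonneg (norm_nonneg _) _

theorem FF_le {β : ℂ → ℂ} (h : Ext β) (ha : 0 < a) (hκ : 0 ≤ κ) {p : ℝ × ℝ}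
    (hp : p ∈ Rect a b) : FF κ β p ≤ ((1 - Real.exp (-a) ^ 2)⁻¹) ^ κ := by
  have hz := ep_mem_An hp
  have h1 := N_ge h (z := ep (-p.1) p.2) (by simpa using An_ball ha hz)
  have h2 : ‖ep (-p.1) p.2‖ ^ 2 ≤ Real.exp (-a) ^ 2 := by
    have := hz.2
    (clear * - this; gcongr)
  have h3 := exp_neg_lt ha
  have h4 : 0 < 1 - Real.exp (-a) ^ 2 := by nlinarith only [Real.exp_pos (-a), h3]
  unfold FF
  rw [Real.rpow_neg (norm_nonneg _), ← Real.inv_rpow (norm_nonneg _)]
  have h5 : 1 - Real.exp (-a) ^ 2 ≤ ‖N β (ep (-p.1) p.2)‖ := by (clear * - h1 h2; linarith only [h1, h2])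
  (clear * - h4 h5 hκ; gcongr)

theorem J_nonneg (W : Wt2 om om' a b u u') (κ : ℝ) (β : ℂ → ℂ) : 0 ≤ J κ om u a b β :=
  setIntegral_nonneg (measurableSet_rect a b) fun _ _ =>
    mul_nonneg (mul_nonneg (W.om_nn _) (W.u_nn _)) (FF_nonneg _ _ _)

theorem J_le (W : Wt2 om om' a b u u') (hκ : 0 ≤ κ) {β : ℂ → ℂ} (h : Ext β) :
    J κ om u a b β ≤ ((1 - Real.exp (-a) ^ 2)⁻¹) ^ κ * MW om u a b := by
  unfold J MW
  rw [← integral_const_mul]
  refine setIntegral_mono_on (integrableOn_rect ((cW W).mul (cFF h W.a_pos κ)))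
    (integrableOn_rect (continuousOn_const.mul (cW W))) (measurableSet_rect a b) ?_
  intro p hp
  have h1 := FF_le h W.a_pos hκ hp
  have h2 : 0 ≤ om p.1 * u p.2 := mul_nonneg (W.om_nn _) (W.u_nn _)
  calc om p.1 * u p.2 * FF κ β p ≤ om p.1 * u p.2 * ((1 - Real.exp (-a) ^ 2)⁻¹) ^ κ := by gcongr
    _ = _ := by ring

/-- uniform expansion of the functional -/
theorem J_expand (hV : Variation) (hκ : 0 ≤ κ) (W : Wt2 om om' a b u u') :
    ∃ C t1 : ℝ, 0 < C ∧ 0 < t1 ∧ ∀ β, Ext β → ∀ z0 : ℂ, Real.exp (-1) ≤ ‖z0‖ →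
      ‖z0‖ ≤ Real.exp (-2 * b) → ∀ B : ℂ, ‖B‖ ≤ 1 → ∀ t : ℝ, 0 < t → t ≤ t1 →
      ∃ γ, Ext γ ∧
        |J κ om u a b γ - J κ om u a b β - t * (B * EE κ om om' u u' a b β z0).re| ≤
          C * t ^ 2 := by
  have ha := W.a_pos
  have hab := W.a_lt
  have hb : 0 < b := ha.trans hab
  have e1 : Real.exp (-2 * b) < Real.exp (-b) := Real.exp_lt_exp.mpr (by linarith)
  have e2 := exp_neg_lt ha
  have e3 : Real.exp (-b) ≤ Real.exp (-a) := Real.exp_le_exp.mpr (by (clear * - hab; linarith))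
  obtain ⟨η, hη⟩ : ∃ η : ℝ, η = min (Real.exp (-1)) (min (Real.exp (-b))
    (min (1 - Real.exp (-a)) (Real.exp (-b) - Real.exp (-2 * b)))) := ⟨_, rfl⟩
  have hη0 : 0 < η := by
    rw [hη]
    refine lt_min (Real.exp_pos _) (lt_min (Real.exp_pos _) (lt_min ?_ ?_)) <;> linarith
  have hη1 : η ≤ Real.exp (-1) := by rw [hη]; exact min_le_left _ _
  have hη2 : η ≤ Real.exp (-b) := by
    rw [hη]; exact (min_le_right _ _).trans (min_le_left _ _)
  have hη3 : η ≤ 1 - Real.exp (-a) := by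
    rw [hη]; exact (min_le_right _ _).trans ((min_le_right _ _).trans (min_le_left _ _))
  have hη4 : η ≤ Real.exp (-b) - Real.exp (-2 * b) := by
    rw [hη]; exact (min_le_right _ _).trans ((min_le_right _ _).trans (min_le_right _ _))
  obtain ⟨C, t1, hC, ht1, hE⟩ := expand hV hκ hη0
  have hM := MW_nonneg W
  refine ⟨C * MW om u a b + 1, t1, by (clear * - hC hM; positivity), ht1, ?_⟩
  intro β hβ z0 hz0 hz0' B hB t ht htt
  have hg : Geo a b β z0 := ⟨hβ, ha, norm_pos_iff.mp ((Real.exp_pos _).trans_le hz0),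
    by (clear * - e1 hz0'; linarith only [e1, hz0']), hab.le⟩
  obtain ⟨-, h2⟩ := hE β hβ z0 (hη1.trans hz0) (by linarith) B hB
  obtain ⟨γ, hγ, h3⟩ := h2 t ht htt
  refine ⟨γ, hγ, ?_⟩
  have h4 := dJ_eq hg W κ B
  have cdl : ContinuousOn (fun p : ℝ × ℝ => (dl β z0 B (ep (-p.1) p.2)).re) (Rect a b) := by
    refine Complex.continuous_re.comp_continuousOn (contRect (g := dl β z0 B) ?_)
    unfold dl
    have c1 : ContinuousOn (fun z => eps β z0 B / (phi β z - phi β z0) ^ 2) (An a b) :=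
      continuousOn_const.div ((hg.cphi.sub continuousOn_const).pow 2)
        fun z hz => pow_ne_zero 2 (hg.phi_ne hz)
    have c2 := hg.cq
    unfold qN at c2
    exact (((c1.neg.add ((hg.ch B).mul c2)).sub (hg.ch B)).add
      (continuousOn_id.mul (hg.chd B))).sub continuousOn_const
  have cγ := cFF (b := b) hγ ha κ
  have cβ := cFF (b := b) hβ ha κ
  have h5 : J κ om u a b γ - J κ om u a b β - t * (B * EE κ om om' u u' a b β z0).re =
      ∫ p in Rect a b, om p.1 * u p.2 * (FF κ γ p - FF κ β p +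
        t * (κ * FF κ β p * (dl β z0 B (ep (-p.1) p.2)).re)) := by
    have i1 : IntegrableOn (fun p : ℝ × ℝ => om p.1 * u p.2 * FF κ γ p) (Rect a b) :=
      integrableOn_rect ((cW W).mul cγ)
    have i2 : IntegrableOn (fun p : ℝ × ℝ => om p.1 * u p.2 * FF κ β p) (Rect a b) :=
      integrableOn_rect ((cW W).mul cβ)
    have i3 : IntegrableOn (fun p : ℝ × ℝ => om p.1 * u p.2 *
        (FF κ β p * (dl β z0 B (ep (-p.1) p.2)).re)) (Rect a b) :=
      integrableOn_rect ((cW W).mul (cβ.mul cdl))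
    rw [← h4]
    unfold J
    rw [← mul_assoc, ← integral_const_mul, ← integral_sub i1 i2, ← integral_sub]
    · refine setIntegral_congr_fun (measurableSet_rect a b) fun p _ => ?_
      ring
    · exact i1.sub i2
    · exact i3.const_mul _
  rw [h5, ← Real.norm_eq_abs]
  have h6 : ‖∫ p in Rect a b, om p.1 * u p.2 * (FF κ γ p - FF κ β p +
        t * (κ * FF κ β p * (dl β z0 B (ep (-p.1) p.2)).re))‖ ≤
      ∫ p in Rect a b, (C * t ^ 2) * (om p.1 * u p.2) := by
    refine norm_integral_le_of_norm_le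
      (integrableOn_rect (continuousOn_const.mul (cW W))) ?_
    filter_upwards [ae_restrict_mem (measurableSet_rect a b)] with p hp
    have hz := ep_mem_An hp
    have h7 := h3 (ep (-p.1) p.2) (hη2.trans hz.1) (by linarith only [hz.2, hη3]) (by
      have := norm_sub_norm_le (ep (-p.1) p.2) z0
      linarith only [hz.1, hη4, hz0', this])
    have hw : 0 ≤ om p.1 * u p.2 := mul_nonneg (W.om_nn _) (W.u_nn _)
    rw [norm_mul, Real.norm_of_nonneg hw, Real.norm_eq_abs]
    calc om p.1 * u p.2 * |FF κ γ p - FF κ β p +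
        t * (κ * FF κ β p * (dl β z0 B (ep (-p.1) p.2)).re)| ≤
          om p.1 * u p.2 * (C * t ^ 2) := by gcongr; exact h7
      _ = _ := by ring
  refine h6.trans ?_
  rw [integral_const_mul]
  have : 0 ≤ t ^ 2 := sq_nonneg t
  unfold MW
  (clear * -; nlinarith only [])

/-- dilation -/
theorem J_scale (hκ : 0 ≤ κ) (W : Wt2 om om' a b u u') {β : ℂ → ℂ} (h : Ext β) {δ : ℝ}
    (hδ : 0 < δ) : ∃ (γ : ℂ → ℂ) (R : ℝ), ExtR γ R ∧ J κ om u a b β - δ < J κ om u a b γ := by
  have ha := W.a_pos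
  have hbc : ContinuousOn (N β) (ball 0 1) := by
    have hb : DifferentiableOn ℂ (deriv β) (ball 0 1) := h.diff.deriv isOpen_ball
    unfold N
    exact continuousOn_const.sub ((continuousOn_id.pow 2).mul hb.continuousOn)
  have key : Tendsto (fun r : ℝ => J κ om u a b (fun z => (r : ℂ) * β (r * z))) (𝓝[<] 1)
      (𝓝 (J κ om u a b β)) := by
    unfold J
    have hev : ∀ᶠ r : ℝ in 𝓝[<] 1, 0 < r ∧ r < 1 := by
      filter_upwards [self_mem_nhdsWithin, mem_nhdsWithin_of_mem_nhds (lt_mem_nhds one_pos)] with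
        r h1 h2
      exact ⟨h2, h1⟩
    refine tendsto_integral_filter_of_dominated_convergence
      (fun p => ((1 - Real.exp (-a) ^ 2)⁻¹) ^ κ * (om p.1 * u p.2)) ?_ ?_ ?_ ?_
    · filter_upwards [hev] with r hr
      exact (integrableOn_rect ((cW W).mul
        (cFF (scale_ExtR h hr.1 hr.2).toExt ha κ))).aestronglyMeasurable
    · filter_upwards [hev] with r hr
      filter_upwards [ae_restrict_mem (measurableSet_rect a b)] with p hp
      have h1 := FF_le (scale_ExtR h hr.1 hr.2).toExt ha hκ hp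
      have hw : 0 ≤ om p.1 * u p.2 := mul_nonneg (W.om_nn _) (W.u_nn _)
      rw [Real.norm_of_nonneg (mul_nonneg hw (FF_nonneg _ _ _)), mul_comm]
      gcongr
    · exact integrableOn_rect (continuousOn_const.mul (cW W))
    · filter_upwards [ae_restrict_mem (measurableSet_rect a b)] with p hp
      have hz := An_ball ha (ep_mem_An hp)
      refine Tendsto.const_mul _ ?_
      have h1 : ∀ᶠ r : ℝ in 𝓝[<] 1, ‖N β ((r : ℂ) * ep (-p.1) p.2)‖ ^ (-κ) =
          FF κ (fun z => (r : ℂ) * β (r * z)) p := by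
        filter_upwards [hev] with r hr
        unfold FF
        rw [scale_N h.diff]
        rw [mem_ball_zero_iff, norm_mul, Complex.norm_real, Real.norm_eq_abs, abs_of_pos hr.1]
        have h2 : ‖ep (-p.1) p.2‖ < 1 := by simpa using hz
        nlinarith only [hr, h2]
      refine Tendsto.congr' h1 ?_
      have h2 : Tendsto (fun r : ℝ => (r : ℂ) * ep (-p.1) p.2) (𝓝[<] 1) (𝓝 (ep (-p.1) p.2)) := by
        have h3 : Continuous fun r : ℝ => (r : ℂ) * ep (-p.1) p.2 := by fun_prop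
        have h4 := h3.tendsto 1
        rw [Complex.ofReal_one, one_mul] at h4
        exact h4.mono_left nhdsWithin_le_nhds
      have h5 : ContinuousAt (N β) (ep (-p.1) p.2) := hbc.continuousAt (isOpen_ball.mem_nhds hz)
      have h6 := (h5.tendsto.comp h2).norm
      exact h6.rpow_const (Or.inl (norm_ne_zero_iff.mpr (h.ne _ hz)))
  have h1 : ∀ᶠ r : ℝ in 𝓝[<] 1, J κ om u a b β - δ <
      J κ om u a b (fun z => (r : ℂ) * β (r * z)) :=
    key.eventually (lt_mem_nhds (by (clear * - hδ; linarith)))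
  have hev : ∀ᶠ r : ℝ in 𝓝[<] 1, 0 < r ∧ r < 1 := by
    filter_upwards [self_mem_nhdsWithin, mem_nhdsWithin_of_mem_nhds (lt_mem_nhds one_pos)] with
      r h1 h2
    exact ⟨h2, h1⟩
  obtain ⟨r, hr1, hr2⟩ := (h1.and hev).exists
  exact ⟨_, _, scale_ExtR h hr2.1 hr2.2, hr1⟩

theorem Ext_zero : Ext (fun _ => (0 : ℂ)) := by
  refine ⟨differentiableOn_const _, ?_, ?_⟩
  · intro ζ ω _ _ _ _ h
    simpa using h
  · intro ζ _
    simp

/-- near-maximisers are nearly critical -/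
theorem near (hV : Variation) (hκ : 0 ≤ κ) (W : Wt2 om om' a b u u') {η : ℝ} (hη : 0 < η) :
    ∃ (β : ℂ → ℂ) (R : ℝ), ExtR β R ∧
      (∀ γ : ℂ → ℂ, Ext γ → (1 - η) * J κ om u a b γ ≤ J κ om u a b β) ∧
      ∀ z0 : ℂ, Real.exp (-1) ≤ ‖z0‖ → ‖z0‖ ≤ Real.exp (-2 * b) →
        ‖EE κ om om' u u' a b β z0‖ ≤ η := by
  obtain ⟨C, t1, hC, ht1, hE⟩ := J_expand hV hκ W
  set T : Set ℝ := {y | ∃ β, Ext β ∧ J κ om u a b β = y} with hT
  have hTb : BddAbove T := by
    refine ⟨((1 - Real.exp (-a) ^ 2)⁻¹) ^ κ * MW om u a b, ?_⟩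
    rintro y ⟨β, hβ, rfl⟩
    exact J_le W hκ hβ
  have hTn : T.Nonempty := ⟨_, _, Ext_zero, rfl⟩
  set S := sSup T with hS
  have hSle : ∀ γ, Ext γ → J κ om u a b γ ≤ S := fun γ hγ => le_csSup hTb ⟨γ, hγ, rfl⟩
  have hS0 : 0 ≤ S := (J_nonneg W κ _).trans (hSle _ Ext_zero)
  -- choice of the defect
  obtain ⟨s, hs⟩ : ∃ s : ℝ, s = min t1 (η / (1 + C)) := ⟨_, rfl⟩
  have hs0 : 0 < s := by rw [hs]; exact lt_min ht1 (by positivity)
  have hst : s ≤ t1 := by rw [hs]; exact min_le_left _ _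
  have hsη : (1 + C) * s ≤ η := by
    have : s ≤ η / (1 + C) := by rw [hs]; exact min_le_right _ _
    rw [le_div_iff₀ (by (clear * - hC; positivity))] at this
    linarith only [this]
  obtain ⟨δ, hδ⟩ : ∃ δ : ℝ, δ = if 0 < S then min (s ^ 2) (η * S) else s ^ 2 := ⟨_, rfl⟩
  have hδ0 : 0 < δ := by
    rw [hδ]
    split_ifs with h
    · exact lt_min (by (clear * - hs0; positivity)) (by (clear * - hη h; positivity))
    · positivity
  have hδs : δ ≤ s ^ 2 := by
    rw [hδ]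
    split_ifs with h
    · exact min_le_left _ _
    · exact le_rfl
  obtain ⟨y, ⟨β₀, hβ₀, rfl⟩, hy⟩ := exists_lt_of_lt_csSup hTn (show S - δ / 2 < S by linarith only [hδ0])
  obtain ⟨β, R, hβR, hβ⟩ := J_scale hκ W hβ₀ (δ := δ / 2) (by (clear * - hδ0; linarith only [hδ0]))
  have hβE := hβR.toExt
  have hJβ : S - δ < J κ om u a b β := by linarith only [hy, hβ]
  refine ⟨β, R, hβR, ?_, ?_⟩
  · intro γ hγ
    have h1 := hSle γ hγ
    have h0 := J_nonneg W κ γ
    have hb0 := J_nonneg W κ β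
    by_cases hη1 : η ≤ 1
    · by_cases hSp : 0 < S
      · have h2 : δ ≤ η * S := by
          rw [hδ, if_pos hSp]
          exact min_le_right _ _
        have h3 : (1 - η) * J κ om u a b γ ≤ (1 - η) * S :=
          mul_le_mul_of_nonneg_left h1 (by linarith only [hη1])
        linarith only [hJβ, h2, h3]
      · have h2 : J κ om u a b γ = 0 := le_antisymm (h1.trans (not_lt.mp hSp)) h0
        rw [h2, mul_zero]
        exact hb0
    · have h2 : (1 - η) * J κ om u a b γ ≤ 0 :=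
        mul_nonpos_of_nonpos_of_nonneg (by (clear * - hη1; linarith [not_le.mp hη1])) h0
      (clear * - hb0 h2; linarith)
  · intro z0 h1 h2
    set E := EE κ om om' u u' a b β z0 with hEd
    by_cases hE0 : E = 0
    · rw [hE0, norm_zero]
      exact hη.le
    have hEn : 0 < ‖E‖ := norm_pos_iff.mpr hE0
    have hB1 : ‖conj E / (‖E‖ : ℂ)‖ ≤ 1 := by
      rw [norm_div, RCLike.norm_conj, Complex.norm_real, Real.norm_eq_abs, abs_of_pos hEn,
        div_self hEn.ne']
    obtain ⟨γ, hγ, h3⟩ := hE β hβE z0 h1 h2 (conj E / (‖E‖ : ℂ)) hB1 s hs0 hst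
    rw [← hEd] at h3
    have h4 : (conj E / (‖E‖ : ℂ) * E).re = ‖E‖ := by
      have e1 : conj E / (‖E‖ : ℂ) * E = ((‖E‖ : ℝ) : ℂ) := by
        have e2 : conj E * E = ((‖E‖ ^ 2 : ℝ) : ℂ) := by
          rw [← Complex.normSq_eq_conj_mul_self, Complex.normSq_eq_norm_sq]
        have e3 : (‖E‖ : ℂ) ≠ 0 := by exact_mod_cast hEn.ne'
        rw [div_mul_eq_mul_div, e2]
        field_simp
        push_cast
        ring
      rw [e1, Complex.ofReal_re]
    rw [h4] at h3
    have h5 := hSle γ hγ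
    have h6 := (abs_le.mp h3).1
    have h7 : s * ‖E‖ ≤ δ + C * s ^ 2 := by (clear * - hJβ h5 h6; linarith only [hJβ, h5, h6])
    have h8 : s * ‖E‖ ≤ s * ((1 + C) * s) := by linarith only [hδs, h7]
    have h9 := le_of_mul_le_mul_left h8 hs0
    exact h9.trans hsη

end

end Pool.Agent.Helper27.CK

end

section

namespace Pool.Agent.Helper39.Area
end Pool.Agent.Helper39.Area
namespace Pool.Agent.Helper5.CK
end Pool.Agent.Helper5.CK
namespace Pool.Agent.Helper52.EK
end Pool.Agent.Helper52.EK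
namespace Pool.Agent.Helper14.CK
end Pool.Agent.Helper14.CK

/-!
Project CK: the interface NEAR of `Helper52.CK.Defs`.
-/

set_option autoImplicit false

open Complex MeasureTheory Metric Set Filter Topology

open scoped Real ComplexConjugate

namespace Pool.Agent.Helper27.CK

open Pool.Agent.Helper39.Area Pool.Agent.Helper5.CK

open Pool.Agent.Helper52.EK hiding Rect

open Pool.Agent.Helper14.CK

/-- iterated integral, inner variable `θ`, complex valued -/
theorem rect_eqC {a b : ℝ} (hab : a ≤ b) {f : ℝ × ℝ → ℂ} (hf : ContinuousOn f (Rect a b)) :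
    ∫ p in Rect a b, f p = ∫ x in a..b, ∫ θ in (-π)..π, f (x, θ) := by
  have hπ : -π ≤ π := by (clear * -; linarith only [Real.pi_pos])
  have h1 := integrableOn_rectC hf
  rw [Measure.volume_eq_prod] at h1 ⊢
  rw [Rect, setIntegral_prod _ h1, intervalIntegral.integral_of_le hab,
    integral_Icc_eq_integral_Ioc]
  refine setIntegral_congr_fun measurableSet_Ioc fun x _ => ?_
  show ∫ y in Icc (-π) π, f (x, y) = ∫ θ in (-π)..π, f (x, θ)
  rw [intervalIntegral.integral_of_le hπ, integral_Icc_eq_integral_Ioc]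

theorem wt_of {om om' u u' : ℝ → ℝ} {a b : ℝ} (W : Pool.Agent.Helper52.CK.Wt om om' u u' a b) :
    Wt2 om om' a b u u' := by
  refine ⟨W.a0, W.ab, W.dom, W.com, ?_, ?_, W.om0, W.du, W.cu, ?_, W.u0⟩
  · exact W.omz a fun h => lt_irrefl _ h.1
  · exact W.omz b fun h => lt_irrefl _ h.2
  · have h := W.up (-π)
    rw [show -π + 2 * π = π by ring] at h
    exact h.symm

theorem JJ_eq {om om' u u' : ℝ → ℝ} {a b : ℝ} (W : Wt2 om om' a b u u') {β : ℂ → ℂ}
    (h : Ext β) (κ : ℝ) : Pool.Agent.Helper52.CK.JJ κ om u a b β = J κ om u a b β := by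
  unfold J
  have hc : ContinuousOn (fun p : ℝ × ℝ => om p.1 * u p.2 * FF κ β p) (Rect a b) :=
    (cW W).mul (cFF h W.a_pos κ)
  rw [rect_eq W.a_lt.le hc]
  rfl

theorem EE_eq {om om' u u' : ℝ → ℝ} {a b : ℝ} (W : Wt2 om om' a b u u') {β : ℂ → ℂ} {z0 : ℂ}
    (h : Geo a b β z0) (κ : ℝ) :
    Pool.Agent.Helper52.CK.EE κ om om' u u' a b β z0 = EE κ om om' u u' a b β z0 := by
  unfold EE
  rw [rect_eqC W.a_lt.le (h.c_EE W)]
  unfold Pool.Agent.Helper52.CK.EE
  congr 1
  funext x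
  congr 1
  funext θ
  have e0 : ((Pool.Agent.Helper52.CK.FF κ β x θ : ℝ) : ℂ) = ((FF κ β (x, θ) : ℝ) : ℂ) := rfl
  rw [e0]
  congr 1
  unfold body
  simp only
  have e1 : 4 * z0 ^ 2 * Pool.Agent.Helper52.CK.kA β (ep (-x) θ) z0 =
      z0 ^ 2 * dphi β z0 ^ 2 / (phi β (ep (-x) θ) - phi β z0) ^ 2 := by
    unfold Pool.Agent.Helper52.CK.kA
    have : (phi β (ep (-x) θ) - phi β z0) ^ 2 = (phi β z0 - phi β (ep (-x) θ)) ^ 2 := by ring
    rw [this]
    generalize phi β z0 - phi β (ep (-x) θ) = X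
    rw [div_pow, mul_pow]
    by_cases hX : X = 0
    · rw [hX]; simp
    · field_simp
      ring
  have e3 : Pool.Agent.Helper52.CK.k3 (ep (-x) θ) z0 = k3 z0 (ep (-x) θ) := by
    unfold Pool.Agent.Helper52.CK.k3 k3
    push_cast
    ring
  have e4 : Pool.Agent.Helper52.CK.k1 (ep (-x) θ) z0 = k4 z0 (ep (-x) θ) := rfl
  have e5 : Pool.Agent.Helper52.CK.k5 (ep (-x) θ) z0 = I / 2 * k5 z0 (ep (-x) θ) := rfl
  rw [e1, e3, e4, e5]
  push_cast
  ring

/-- **NEAR** -/
theorem nearStmt (hV : Variation) {κ : ℝ} (hκ : 0 ≤ κ) : Pool.Agent.Helper52.CK.NearStmt κ := by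
  intro om om' u u' a b W _ _ η hη
  have W2 := wt_of W
  obtain ⟨β, R, hβ, h1, h2⟩ := near hV hκ W2 hη
  refine ⟨β, R, hβ, ?_, ?_⟩
  · intro γ hγ
    rw [JJ_eq W2 hγ, JJ_eq W2 hβ.toExt]
    exact h1 γ hγ
  · intro z0 hz hz'
    have hg : Geo a b β z0 := by
      refine ⟨hβ.toExt, W.a0, norm_pos_iff.mp ((Real.exp_pos _).trans_le hz), ?_, W.ab.le⟩
      refine hz'.trans_lt (Real.exp_lt_exp.mpr ?_)
      linarith only [W.a0, W.ab]
    rw [EE_eq W2 hg]
    exact h2 z0 hz hz'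

end Pool.Agent.Helper27.CK

end

section

namespace Pool.Agent.Helper39.Area
end Pool.Agent.Helper39.Area
namespace Pool.Agent.Helper68.EKC
end Pool.Agent.Helper68.EKC
namespace Pool.Agent.Helper52.EK
end Pool.Agent.Helper52.EK
namespace Pool.Agent.Helper14.CK
end Pool.Agent.Helper14.CK

set_option autoImplicit false

open Complex MeasureTheory Metric Set Filter Topology

open scoped Real ComplexConjugate

namespace Pool.Agent.Helper99.CKC

open Pool.Agent.Helper39.Area Pool.Agent.Helper68.EKC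

open Pool.Agent.Helper52.EK hiding Rect

open Pool.Agent.Helper14.CK

theorem N_diff {β : ℂ → ℂ} (h : Ext β) : DifferentiableOn ℂ (N β) (ball 0 1) := by
  unfold N
  exact (differentiableOn_const _).sub ((differentiableOn_id.pow 2).mul (h.diff.deriv isOpen_ball))

theorem exists_isLog {β : ℂ → ℂ} (h : Ext β) : ∃ L, IsLog β L := by
  have hs : IsSimplyConnected (ball (0:ℂ) 1) := by
    have hc : ContractibleSpace (ball (0:ℂ) 1) :=
      (convex_ball (0:ℂ) 1).contractibleSpace ⟨0, mem_ball_self one_pos⟩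
    show SimplyConnectedSpace (ball (0:ℂ) 1)
    infer_instance
  have h00 : (0:ℂ) ∉ N β '' ball 0 1 := by
    rintro ⟨z, hz, h0⟩
    exact h.ne z hz h0
  obtain ⟨Φ, hc, hΦ⟩ := Complex.exists_continuousOn_eqOn_exp_comp hs isOpen_ball
    (N_diff h).continuousOn h00
  refine ⟨fun z => Φ z - Φ 0, hc.sub continuousOn_const, by simp, ?_⟩
  intro z hz
  have h0 : Complex.exp (Φ 0) = 1 := by
    have h1 : Complex.exp (Φ 0) = N β 0 := hΦ (mem_ball_self one_pos)
    rw [h1]
    simp [N]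
  rw [Complex.exp_sub, h0, div_one]
  exact hΦ hz

theorem hasDeriv_log {β L : ℂ → ℂ} (h : Ext β) (hL : IsLog β L) {z : ℂ}
    (hz : z ∈ ball (0:ℂ) 1) : HasDerivAt L (deriv (N β) z / N β z) z := by
  have hN : N β z ≠ 0 := h.ne z hz
  have hd : HasDerivAt (N β) (deriv (N β) z) z :=
    ((N_diff h).differentiableAt (isOpen_ball.mem_nhds hz)).hasDerivAt
  have h1 : HasDerivAt (fun w => L z + Complex.log (N β w / N β z)) (deriv (N β) z / N β z) z := by
    have h2 := hd.div_const (N β z)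
    have h3 : N β z / N β z ∈ slitPlane := by rw [div_self hN]; exact one_mem_slitPlane
    have h4 := (h2.clog h3).const_add (L z)
    refine h4.congr_deriv ?_
    rw [div_self hN, div_one]
  refine h1.congr_of_eventuallyEq ?_
  have hc : ContinuousAt L z := hL.cont.continuousAt (isOpen_ball.mem_nhds hz)
  have hc2 : Tendsto (fun w => |(L w - L z).im|) (𝓝 z) (𝓝 0) := by
    have h5 : Tendsto (fun w => |(L w - L z).im|) (𝓝 z) (𝓝 |(L z - L z).im|) :=
      (continuous_abs.comp Complex.continuous_im).continuousAt.tendsto.comp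
        (hc.tendsto.sub_const (L z))
    simpa using h5
  have h5 : ∀ᶠ w in 𝓝 z, |(L w - L z).im| < π := hc2.eventually (gt_mem_nhds Real.pi_pos)
  filter_upwards [h5, isOpen_ball.mem_nhds hz] with w hw hwb
  have h6 : N β w / N β z = Complex.exp (L w - L z) := by
    rw [Complex.exp_sub, hL.exp w hwb, hL.exp z hz]
  rw [abs_lt] at hw
  rw [h6, Complex.log_exp hw.1 hw.2.le]
  ring

theorem eq_zero_of_exp {w : ℂ} (h : Complex.exp w = 1) (hw : ‖w‖ < 2 * π) : w = 0 := by
  obtain ⟨n, hn⟩ := Complex.exp_eq_one_iff.mp h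
  have h1 : ‖w‖ = |(n : ℝ)| * (2 * π) := by
    rw [hn]
    simp [abs_of_pos Real.pi_pos]
  have h2 : |(n : ℝ)| < 1 := by
    rw [h1] at hw
    have := Real.pi_pos
    by_contra h3
    nlinarith only [hw, this, h3]
  have h3 : |n| < 1 := by exact_mod_cast h2
  have h4 : n = 0 := Int.abs_lt_one_iff.mp h3
  rw [hn, h4]
  simp

theorem mem_slit {w : ℂ} (h : ‖w - 1‖ ≤ 1 / 2) : w ∈ slitPlane := by
  refine Or.inl ?_
  have h1 := Complex.abs_re_le_norm (w - 1)
  rw [Complex.sub_re, Complex.one_re] at h1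
  have := (abs_le.mp (h1.trans h)).1
  linarith only [this]

theorem norm_log_le {w : ℂ} (h : ‖w - 1‖ ≤ 1 / 2) : ‖Complex.log w‖ ≤ 3 / 4 := by
  have h1 := Complex.norm_log_one_add_half_le_self h
  rw [show (1 : ℂ) + (w - 1) = w by ring] at h1
  (clear * - h h1; linarith only [h, h1])

/-- comparison of the branches -/
theorem log_diff {β γ L L' : ℂ → ℂ} (hβ : Ext β) (hγ : Ext γ) (hL : IsLog β L)
    (hL' : IsLog γ L') {S : Set (ℝ × ℝ)} (hS : IsPreconnected S)
    (hSb : ∀ p ∈ S, ep (-p.1) p.2 ∈ ball (0:ℂ) 1)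
    (hd : ∀ p ∈ S, ‖N γ (ep (-p.1) p.2) / N β (ep (-p.1) p.2) - 1‖ ≤ 1 / 2)
    {p1 : ℝ × ℝ} (h1 : p1 ∈ S) (h1' : ‖ep (-p1.1) p1.2‖ ≤ 1 / 2) :
    ∀ p ∈ S, L' (ep (-p.1) p.2) - L (ep (-p.1) p.2) =
      Complex.log (N γ (ep (-p.1) p.2) / N β (ep (-p.1) p.2)) := by
  have cep : Continuous fun p : ℝ × ℝ => ep (-p.1) p.2 := by
    unfold ep
    fun_prop
  have he : ∀ p ∈ S, Complex.exp (L' (ep (-p.1) p.2) - L (ep (-p.1) p.2) -
      Complex.log (N γ (ep (-p.1) p.2) / N β (ep (-p.1) p.2))) = 1 := by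
    intro p hp
    have hb := hSb p hp
    have h2 : N γ (ep (-p.1) p.2) / N β (ep (-p.1) p.2) ≠ 0 :=
      div_ne_zero (hγ.ne _ hb) (hβ.ne _ hb)
    rw [Complex.exp_sub, Complex.exp_sub, hL'.exp _ hb, hL.exp _ hb, Complex.exp_log h2,
      div_self h2]
  have hc : ContinuousOn (fun p : ℝ × ℝ => L' (ep (-p.1) p.2) - L (ep (-p.1) p.2) -
      Complex.log (N γ (ep (-p.1) p.2) / N β (ep (-p.1) p.2))) S := by
    refine ContinuousOn.sub (ContinuousOn.sub (hL'.cont.comp cep.continuousOn hSb)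
      (hL.cont.comp cep.continuousOn hSb)) (ContinuousOn.clog ?_ fun p hp => mem_slit (hd p hp))
    exact ((N_diff hγ).continuousOn.comp cep.continuousOn hSb).div
      ((N_diff hβ).continuousOn.comp cep.continuousOn hSb) fun p hp => hβ.ne _ (hSb p hp)
  have h0 : L' (ep (-p1.1) p1.2) - L (ep (-p1.1) p1.2) -
      Complex.log (N γ (ep (-p1.1) p1.2) / N β (ep (-p1.1) p1.2)) = 0 := by
    refine eq_zero_of_exp (he p1 h1) ?_
    have a1 := hL'.goluzin hγ (hSb p1 h1)
    have a2 := hL.goluzin hβ (hSb p1 h1)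
    have a3 := norm_log_le (hd p1 h1)
    have a4 : -Real.log (1 - ‖ep (-p1.1) p1.2‖ ^ 2) ≤ 1 / 3 := by
      have b1 : (3 / 4 : ℝ) ≤ 1 - ‖ep (-p1.1) p1.2‖ ^ 2 := by
        nlinarith only [norm_nonneg (ep (-p1.1) p1.2), h1']
      have b2 := Real.one_sub_inv_le_log_of_pos (show (0:ℝ) < 1 - ‖ep (-p1.1) p1.2‖ ^ 2 by (clear * - b1; linarith))
      have b3 : (1 - ‖ep (-p1.1) p1.2‖ ^ 2)⁻¹ ≤ (3 / 4 : ℝ)⁻¹ := by (clear * - b1; gcongr)
      norm_num at b3
      linarith only [b2, b3]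
    have a5 := norm_sub_le (L' (ep (-p1.1) p1.2) - L (ep (-p1.1) p1.2))
      (Complex.log (N γ (ep (-p1.1) p1.2) / N β (ep (-p1.1) p1.2)))
    have a6 := norm_sub_le (L' (ep (-p1.1) p1.2)) (L (ep (-p1.1) p1.2))
    have a7 := Real.pi_gt_three
    (clear * - a1 a2 a3 a4 a5 a6 a7; linarith)
  intro p hp
  have h3 := eq_zero_of_exp_one hS hc he h1 h0 p hp
  exact sub_eq_zero.mp h3

/-- the rectangle with a slit into the disc of radius `1/2` -/
def SS (a b θ0 : ℝ) : Set (ℝ × ℝ) := Rect a b ∪ (Icc a 1 ×ˢ {θ0})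

theorem SS_pre {a b θ0 : ℝ} (hab : a ≤ b) (hb : b ≤ 1) (hθ : θ0 ∈ Icc (-π) π) :
    IsPreconnected (SS a b θ0) := by
  have h1 : IsPreconnected (Rect a b) := isPreconnected_Icc.prod isPreconnected_Icc
  have h2 : IsPreconnected (Icc a 1 ×ˢ ({θ0} : Set ℝ)) :=
    isPreconnected_Icc.prod isPreconnected_singleton
  exact IsPreconnected.union (a, θ0) ⟨⟨le_rfl, hab⟩, hθ⟩ ⟨⟨le_rfl, hab.trans hb⟩, rfl⟩ h1 h2

theorem far (p : ℂ) (x : ℝ) : ‖ep (-x) (arg (-p)) - p‖ = Real.exp (-x) + ‖p‖ := by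
  have h1 := Complex.norm_mul_exp_arg_mul_I (-p)
  rw [norm_neg] at h1
  have h2 : ep (-x) (arg (-p)) - p =
      ((Real.exp (-x) + ‖p‖ : ℝ) : ℂ) * Complex.exp (arg (-p) * I) := by
    have h3 : p = -(‖p‖ * Complex.exp (arg (-p) * I)) := by rw [h1]; ring
    have h4 : ep (-x) (arg (-p)) = (Real.exp (-x) : ℂ) * Complex.exp (arg (-p) * I) := by
      unfold ep
      rw [Complex.exp_add, Complex.ofReal_exp]
    rw [h4]
    conv_lhs => rw [h3]
    push_cast
    rw [show arg (- -(‖p‖ * Complex.exp (arg (-p) * I))) = arg (-p) by rw [neg_neg, h1]]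
    ring
  rw [h2, norm_mul, Complex.norm_exp_ofReal_mul_I, mul_one, Complex.norm_real, Real.norm_eq_abs,
    abs_of_nonneg (by (clear * -; positivity))]

end Pool.Agent.Helper99.CKC

end

section

namespace Pool.Agent.Helper39.Area
end Pool.Agent.Helper39.Area
namespace Pool.Agent.Helper68.EKC
end Pool.Agent.Helper68.EKC
namespace Pool.Agent.Helper5.CK
end Pool.Agent.Helper5.CK
namespace Pool.Agent.Helper52.EK
end Pool.Agent.Helper52.EK
namespace Pool.Agent.Helper14.CK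
end Pool.Agent.Helper14.CK
namespace Pool.Agent.Helper27.CK
end Pool.Agent.Helper27.CK
namespace Pool.Agent.Helper97.CKC
end Pool.Agent.Helper97.CKC

set_option autoImplicit false

open Complex MeasureTheory Metric Set Filter Topology

open scoped Real ComplexConjugate

namespace Pool.Agent.Helper99.CKC

open Pool.Agent.Helper39.Area Pool.Agent.Helper68.EKC Pool.Agent.Helper5.CK

open Pool.Agent.Helper52.EK hiding Rect

open Pool.Agent.Helper14.CK

open Pool.Agent.Helper27.CK (Wt2 An Geo dl hd hh_re hh_im hasDerivAt_hh ep_mem_An An_ball contRect qN cont_ep)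

open Pool.Agent.Helper97.CKC (ka kb kp kq)

noncomputable section

/-- the density -/
def FT (T : ℂ) (L : ℂ → ℂ) (p : ℝ × ℝ) : ℝ := Real.exp (T * L (ep (-p.1) p.2)).re

/-- the functional -/
def JT (T : ℂ) (om u : ℝ → ℝ) (a b : ℝ) (L : ℂ → ℂ) : ℝ :=
  ∫ p in Rect a b, om p.1 * u p.2 * FT T L p

/-- the kernel of the first variation -/
def bodyT (T : ℂ) (om om' u u' : ℝ → ℝ) (β : ℂ → ℂ) (z0 : ℂ) (p : ℝ × ℝ) : ℂ :=
  ((om p.1 * u p.2 : ℝ) : ℂ) * (T * (4 * z0 ^ 2 * Pool.Agent.Helper52.CK.kA β (ep (-p.1) p.2) z0) -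
      (T.re : ℂ) +
      (-T * kp (ep (-p.1) p.2) z0 + conj T * kq (ep (-p.1) p.2) z0) / 2 -
      (T * ka (ep (-p.1) p.2) z0 + conj T * kb (ep (-p.1) p.2) z0) +
      2 * (ka (ep (-p.1) p.2) z0 + kb (ep (-p.1) p.2) z0)) +
    ((om' p.1 * u p.2 : ℝ) : ℂ) * Pool.Agent.Helper52.CK.k3 (ep (-p.1) p.2) z0 +
    ((om p.1 * u' p.2 : ℝ) : ℂ) * Pool.Agent.Helper52.CK.k5 (ep (-p.1) p.2) z0

/-- the first variation -/
def ET (T : ℂ) (om om' u u' : ℝ → ℝ) (a b : ℝ) (β L : ℂ → ℂ) (z0 : ℂ) : ℂ :=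
  ∫ p in Rect a b, (FT T L p : ℂ) * bodyT T om om' u u' β z0 p

variable {a b : ℝ} {β L : ℂ → ℂ} {z0 B T : ℂ} {om om' u u' : ℝ → ℝ}

theorem cFT (hL : IsLog β L) (ha : 0 < a) (T : ℂ) : ContinuousOn (FT T L) (Rect a b) := by
  have h1 : ContinuousOn L (An a b) := hL.cont.mono fun z hz => An_ball ha hz
  have h2 : ContinuousOn (fun z => Real.exp (T * L z).re) (An a b) :=
    Real.continuous_exp.comp_continuousOn
      (Complex.continuous_re.comp_continuousOn (continuousOn_const.mul h1))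
  exact contRect h2

/-- derivative of the density in `x` -/
theorem FT_x (h : Geo a b β z0) (hL : IsLog β L) {x θ : ℝ} (hx : (x, θ) ∈ Rect a b) :
    HasDerivAt (fun x => FT T L (x, θ)) (-(FT T L (x, θ) * (T * qN β (ep (-x) θ)).re)) x := by
  have hz := An_ball h.a_pos (ep_mem_An hx)
  have h1 := hasDerivAt_re ((hasDerivAt_comp_x (hasDeriv_log h.ext hL hz)).const_mul T)
  have h2 := h1.exp
  refine h2.congr_deriv ?_
  have h3 : T * -(ep (-x) θ * (deriv (N β) (ep (-x) θ) / N β (ep (-x) θ))) =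
      -(T * qN β (ep (-x) θ)) := by
    unfold qN
    ring
  rw [h3, Complex.neg_re]
  unfold FT
  ring

/-- derivative of the density in `θ` -/
theorem FT_θ (h : Geo a b β z0) (hL : IsLog β L) {x θ : ℝ} (hx : (x, θ) ∈ Rect a b) :
    HasDerivAt (fun θ => FT T L (x, θ)) (-(FT T L (x, θ) * (T * qN β (ep (-x) θ)).im)) θ := by
  have hz := An_ball h.a_pos (ep_mem_An hx)
  have h1 := hasDerivAt_re ((hasDerivAt_comp_θ (hasDeriv_log h.ext hL hz)).const_mul T)
  have h2 := h1.exp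
  refine h2.congr_deriv ?_
  have h3 : T * (I * (ep (-x) θ * (deriv (N β) (ep (-x) θ) / N β (ep (-x) θ)))) =
      I * (T * qN β (ep (-x) θ)) := by
    unfold qN
    ring
  rw [h3, Complex.I_mul_re]
  unfold FT
  ring

/-- the `x` flux -/
def G1 (T : ℂ) (om u : ℝ → ℝ) (L : ℂ → ℂ) (z0 B : ℂ) (p : ℝ × ℝ) : ℝ :=
  -(om p.1 * (u p.2 * (FT T L p * (hh z0 B (ep (-p.1) p.2)).re)))

def G1x (T : ℂ) (om om' u : ℝ → ℝ) (β L : ℂ → ℂ) (z0 B : ℂ) (p : ℝ × ℝ) : ℝ :=
  -(om' p.1 * (u p.2 * (FT T L p * (hh z0 B (ep (-p.1) p.2)).re)) +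
    om p.1 * (u p.2 * (-(FT T L p * (T * qN β (ep (-p.1) p.2)).re) *
      (hh z0 B (ep (-p.1) p.2)).re +
      FT T L p * (-(ep (-p.1) p.2 * hd z0 B (ep (-p.1) p.2))).re)))

/-- the `θ` flux -/
def G2 (T : ℂ) (om u : ℝ → ℝ) (L : ℂ → ℂ) (z0 B : ℂ) (p : ℝ × ℝ) : ℝ :=
  om p.1 * (u p.2 * (FT T L p * (hh z0 B (ep (-p.1) p.2)).im))

def G2θ (T : ℂ) (om u u' : ℝ → ℝ) (β L : ℂ → ℂ) (z0 B : ℂ) (p : ℝ × ℝ) : ℝ :=
  om p.1 * (u' p.2 * (FT T L p * (hh z0 B (ep (-p.1) p.2)).im) +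
    u p.2 * (-(FT T L p * (T * qN β (ep (-p.1) p.2)).im) * (hh z0 B (ep (-p.1) p.2)).im +
      FT T L p * (I * (ep (-p.1) p.2 * hd z0 B (ep (-p.1) p.2))).im))

theorem c_Tq (h : Geo a b β z0) (T : ℂ) :
    ContinuousOn (fun p : ℝ × ℝ => T * qN β (ep (-p.1) p.2)) (Rect a b) :=
  continuousOn_const.mul (contRect h.cq)

theorem G1_int (h : Geo a b β z0) (hL : IsLog β L) (W : Wt2 om om' a b u u') (T B : ℂ) :
    ContinuousOn (G1x T om om' u β L z0 B) (Rect a b) ∧
      ∫ p in Rect a b, G1x T om om' u β L z0 B p = 0 := by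
  have co : ContinuousOn (fun p : ℝ × ℝ => om p.1) (Rect a b) :=
    (W.c_om.comp continuous_fst).continuousOn
  have co' : ContinuousOn (fun p : ℝ × ℝ => om' p.1) (Rect a b) :=
    (W.om_c.comp continuous_fst).continuousOn
  have cu : ContinuousOn (fun p : ℝ × ℝ => u p.2) (Rect a b) :=
    (W.c_u.comp continuous_snd).continuousOn
  have cF := cFT (b := b) hL h.a_pos T
  have hc : ContinuousOn (G1x T om om' u β L z0 B) (Rect a b) := by
    unfold G1x
    refine ContinuousOn.neg (ContinuousOn.add (co'.mul (cu.mul (cF.mul (h.c_hr B)))) ?_)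
    refine co.mul (cu.mul (ContinuousOn.add ?_ ?_))
    · exact (cF.mul (Complex.continuous_re.comp_continuousOn (c_Tq h T))).neg.mul (h.c_hr B)
    · exact cF.mul (Complex.continuous_re.comp_continuousOn (h.c_zd B).neg)
  refine ⟨hc, ibp_x h.ab hc (G := G1 T om u L z0 B) ?_ ?_ ?_⟩
  · intro x hx θ hθ
    have hxr : (x, θ) ∈ Rect a b := ⟨hx, hθ⟩
    have hz := ep_mem_An hxr
    have h1 := FT_x (T := T) h hL hxr
    have h2 := hasDerivAt_re (hasDerivAt_comp_x (hasDerivAt_hh (τ := B) (h.ne hz) (h.conj_ne3 hz)))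
    have h3 := ((W.om_d x).mul ((h1.mul h2).const_mul (u θ))).neg
    exact h3.congr_deriv (by unfold G1x; simp only [Pi.mul_apply])
  · intro θ
    simp [G1, W.om_a]
  · intro θ
    simp [G1, W.om_b]

theorem G2_int (h : Geo a b β z0) (hL : IsLog β L) (W : Wt2 om om' a b u u') (T B : ℂ) :
    ContinuousOn (G2θ T om u u' β L z0 B) (Rect a b) ∧
      ∫ p in Rect a b, G2θ T om u u' β L z0 B p = 0 := by
  have co : ContinuousOn (fun p : ℝ × ℝ => om p.1) (Rect a b) :=
    (W.c_om.comp continuous_fst).continuousOn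
  have cu : ContinuousOn (fun p : ℝ × ℝ => u p.2) (Rect a b) :=
    (W.c_u.comp continuous_snd).continuousOn
  have cu' : ContinuousOn (fun p : ℝ × ℝ => u' p.2) (Rect a b) :=
    (W.u_c.comp continuous_snd).continuousOn
  have cF := cFT (b := b) hL h.a_pos T
  have hc : ContinuousOn (G2θ T om u u' β L z0 B) (Rect a b) := by
    unfold G2θ
    refine co.mul (ContinuousOn.add (cu'.mul (cF.mul (h.c_hi B))) ?_)
    refine cu.mul (ContinuousOn.add ?_ ?_)
    · exact (cF.mul (Complex.continuous_im.comp_continuousOn (c_Tq h T))).neg.mul (h.c_hi B)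
    · exact cF.mul (Complex.continuous_im.comp_continuousOn
        (continuousOn_const.mul (h.c_zd B)))
  refine ⟨hc, ibp_θ h.ab hc (G := G2 T om u L z0 B) ?_ ?_⟩
  · intro x hx θ hθ
    have hxr : (x, θ) ∈ Rect a b := ⟨hx, hθ⟩
    have hz := ep_mem_An hxr
    have h1 := FT_θ (T := T) h hL hxr
    have h2 := hasDerivAt_im (hasDerivAt_comp_θ (hasDerivAt_hh (τ := B) (h.ne hz) (h.conj_ne3 hz)))
    have h3 := (((W.u_d θ).mul (h1.mul h2)).const_mul (om x))
    exact h3.congr_deriv (by unfold G2θ; simp only [Pi.mul_apply])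
  · intro x
    have e1 : ep (-x) (-π) = ep (-x) π := by
      unfold ep
      rw [Complex.exp_add, Complex.exp_add]
      congr 1
      push_cast
      rw [neg_mul, Complex.exp_neg, Complex.exp_pi_mul_I]
      norm_num
    unfold G2 FT
    simp only
    rw [e1, W.u_per]

theorem kA_eq (β : ℂ → ℂ) (z z0 : ℂ) : 4 * z0 ^ 2 * Pool.Agent.Helper52.CK.kA β z z0 =
    z0 ^ 2 * dphi β z0 ^ 2 / (phi β z - phi β z0) ^ 2 := by
  unfold Pool.Agent.Helper52.CK.kA
  have : (phi β z - phi β z0) ^ 2 = (phi β z0 - phi β z) ^ 2 := by ring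
  rw [this]
  generalize phi β z0 - phi β z = X
  rw [div_pow, mul_pow]
  by_cases hX : X = 0
  · rw [hX]; simp
  · field_simp
    ring

theorem conj_kb (z z0 : ℂ) : conj (kb z z0) = z * (conj z0 / (1 - conj z0 * z) ^ 2) := by
  unfold kb
  simp [map_div₀]
  ring

theorem conj_kq (z z0 : ℂ) : conj (kq z z0) = (1 + conj z0 * z) / (1 - conj z0 * z) := by
  unfold kq
  simp [map_div₀]

theorem hh_eq (p B z : ℂ) : hh p B z = (1 / 2) * (B * kp z p - conj B * conj (kq z p)) := by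
  rw [conj_kq]
  rfl

theorem hd_eq (p B z : ℂ) : z * hd p B z = -(B * ka z p) - conj B * conj (kb z p) := by
  rw [conj_kb]
  unfold hd ka
  ring

/-- pointwise identity -/
theorem dl_bodyT (h : Geo a b β z0) {p : ℝ × ℝ} (hp : p ∈ Rect a b) :
    om p.1 * u p.2 * (FT T L p * (T * dl β z0 B (ep (-p.1) p.2)).re) =
      G1x T om om' u β L z0 B p + G2θ T om u u' β L z0 B p +
        FT T L p * (B * bodyT T om om' u u' β z0 p).re := by
  have hz := ep_mem_An hp
  obtain ⟨z, hzd⟩ : ∃ z, z = ep (-p.1) p.2 := ⟨_, rfl⟩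
  rw [← hzd] at hz
  have e3 : (hh z0 B z).re = (B * Pool.Agent.Helper52.CK.k3 z z0).re := by
    rw [hh_re (h.ne hz) (h.conj_ne hz)]
    unfold Pool.Agent.Helper27.CK.k3 Pool.Agent.Helper52.CK.k3
    push_cast
    rfl
  have e5 : -(hh z0 B z).im = (B * Pool.Agent.Helper52.CK.k5 z z0).re := by
    rw [hh_im]
    rfl
  have e4 := hd_eq z0 B z
  have e6 := hh_eq z0 B z
  have ed : T * dl β z0 B z = B * (T * (4 * z0 ^ 2 * Pool.Agent.Helper52.CK.kA β z z0)) +
      (T * qN β z) * hh z0 B z - T * hh z0 B z + T * (z * hd z0 B z) - T * (B.re : ℂ) := by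
    rw [kA_eq]
    unfold dl qN eps
    ring
  have er := congrArg Complex.re ed
  have eb : (B * bodyT T om om' u u' β z0 p).re = om p.1 * u p.2 *
      ((B * (T * (4 * z0 ^ 2 * Pool.Agent.Helper52.CK.kA β z z0))).re - (T * (B.re : ℂ)).re -
        (T * hh z0 B z).re + (T * (z * hd z0 B z)).re - 2 * (z * hd z0 B z).re) +
      om' p.1 * u p.2 * (hh z0 B z).re + om p.1 * u' p.2 * -(hh z0 B z).im := by
    unfold bodyT
    rw [← hzd, e3, e5, e4, e6]
    generalize 4 * z0 ^ 2 * Pool.Agent.Helper52.CK.kA β z z0 = X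
    generalize Pool.Agent.Helper52.CK.k3 z z0 = K3
    generalize Pool.Agent.Helper52.CK.k5 z z0 = K5
    generalize ka z z0 = A1
    generalize kb z z0 = A2
    generalize kp z z0 = A3
    generalize kq z z0 = A4
    have e7 : B * (((om p.1 * u p.2 : ℝ) : ℂ) * (T * X - (T.re : ℂ) +
        (-T * A3 + conj T * A4) / 2 - (T * A1 + conj T * A2) + 2 * (A1 + A2)) +
        ((om' p.1 * u p.2 : ℝ) : ℂ) * K3 + ((om p.1 * u' p.2 : ℝ) : ℂ) * K5) =
        ((om p.1 * u p.2 : ℝ) : ℂ) * (B * (T * X)) + ((om p.1 * u p.2 : ℝ) : ℂ) *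
          (-((T.re : ℂ) * B) + ((1 / 2 : ℝ) : ℂ) * (-(B * (T * A3)) + B * (conj T * A4)) -
          (B * (T * A1) + B * (conj T * A2)) + ((2 : ℝ) : ℂ) * (B * A1 + B * A2)) +
        ((om' p.1 * u p.2 : ℝ) : ℂ) * (B * K3) +
        ((om p.1 * u' p.2 : ℝ) : ℂ) * (B * K5) := by
      push_cast
      ring
    have e8 : T * (1 / 2 * (B * A3 - conj B * conj A4)) =
        ((1 / 2 : ℝ) : ℂ) * (B * (T * A3) - conj (B * (conj T * A4))) := by
      simp only [map_mul, Complex.conj_conj]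
      push_cast
      ring
    have e9 : T * (-(B * A1) - conj B * conj A2) = -(B * (T * A1)) - conj (B * (conj T * A2)) := by
      simp only [map_mul, Complex.conj_conj]
      ring
    have e10 : -(B * A1) - conj B * conj A2 = -(B * A1) - conj (B * A2) := by
      simp only [map_mul]
    rw [e7, e8, e9, e10]
    simp only [Complex.add_re, Complex.sub_re, Complex.neg_re, Complex.re_ofReal_mul,
      Complex.conj_re]
    rw [Complex.re_mul_ofReal]
    ring
  rw [← hzd, er, eb]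
  unfold G1x G2θ
  rw [← hzd]
  have e11 : (-(z * hd z0 B z)).re = -(z * hd z0 B z).re := Complex.neg_re _
  have e12 : (I * (z * hd z0 B z)).im = (z * hd z0 B z).re := by
    rw [Complex.I_mul_im]
  rw [e11, e12]
  simp only [Complex.add_re, Complex.sub_re, Complex.mul_re (T * qN β z) (hh z0 B z)]
  ring

theorem c_bodyT (h : Geo a b β z0) (W : Wt2 om om' a b u u') (T : ℂ) :
    ContinuousOn (bodyT T om om' u u' β z0) (Rect a b) := by
  have co : ContinuousOn (fun p : ℝ × ℝ => ((om p.1 * u p.2 : ℝ) : ℂ)) (Rect a b) :=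
    (Complex.continuous_ofReal.comp ((W.c_om.comp continuous_fst).mul
      (W.c_u.comp continuous_snd))).continuousOn
  have co' : ContinuousOn (fun p : ℝ × ℝ => ((om' p.1 * u p.2 : ℝ) : ℂ)) (Rect a b) :=
    (Complex.continuous_ofReal.comp ((W.om_c.comp continuous_fst).mul
      (W.c_u.comp continuous_snd))).continuousOn
  have cu' : ContinuousOn (fun p : ℝ × ℝ => ((om p.1 * u' p.2 : ℝ) : ℂ)) (Rect a b) :=
    (Complex.continuous_ofReal.comp ((W.c_om.comp continuous_fst).mul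
      (W.u_c.comp continuous_snd))).continuousOn
  have hconj := Complex.continuous_conj
  have ck3 : ContinuousOn (fun z => Pool.Agent.Helper52.CK.k3 z z0) (An a b) := by
    unfold Pool.Agent.Helper52.CK.k3
    refine ContinuousOn.div ?_ ?_ fun z hz => mul_ne_zero (h.ne' hz) (h.conj_ne2 hz)
    · have : Continuous fun z : ℂ => z0 * (1 - (‖z‖ : ℂ) ^ 2) := by fun_prop
      exact this.continuousOn
    · have : Continuous fun z : ℂ => (z - z0) * (1 - z0 * conj z) := by fun_prop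
      exact this.continuousOn
  have cka : ContinuousOn (fun z => ka z z0) (An a b) := by
    unfold ka
    refine ContinuousOn.div ?_ ?_ fun z hz => pow_ne_zero 2 (h.ne' hz) <;> fun_prop
  have ckb : ContinuousOn (fun z => kb z z0) (An a b) := by
    unfold kb
    refine ContinuousOn.div ?_ ?_ fun z hz => pow_ne_zero 2 (h.conj_ne2 hz)
    · have : Continuous fun z : ℂ => conj z * z0 := by fun_prop
      exact this.continuousOn
    · have : Continuous fun z : ℂ => (1 - z0 * conj z) ^ 2 := by fun_prop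
      exact this.continuousOn
  have ckp : ContinuousOn (fun z => kp z z0) (An a b) := by
    unfold kp
    refine ContinuousOn.div ?_ ?_ fun z hz => h.ne' hz <;> fun_prop
  have ckq : ContinuousOn (fun z => kq z z0) (An a b) := by
    unfold kq
    refine ContinuousOn.div ?_ ?_ fun z hz => h.conj_ne2 hz
    · have : Continuous fun z : ℂ => 1 + z0 * conj z := by fun_prop
      exact this.continuousOn
    · have : Continuous fun z : ℂ => 1 - z0 * conj z := by fun_prop
      exact this.continuousOn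
  have ck5 : ContinuousOn (fun z => Pool.Agent.Helper52.CK.k5 z z0) (An a b) := by
    unfold Pool.Agent.Helper52.CK.k5
    exact continuousOn_const.mul (ckp.add ckq)
  have cph : ContinuousOn (fun z => 4 * z0 ^ 2 * Pool.Agent.Helper52.CK.kA β z z0) (An a b) := by
    simp only [kA_eq]
    exact continuousOn_const.div ((h.cphi.sub continuousOn_const).pow 2)
      fun z hz => pow_ne_zero 2 (h.phi_ne hz)
  unfold bodyT
  refine ContinuousOn.add (ContinuousOn.add (co.mul ?_) (co'.mul (contRect ck3)))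
    (cu'.mul (contRect ck5))
  refine ContinuousOn.add (ContinuousOn.sub (ContinuousOn.add (ContinuousOn.sub ?_ ?_) ?_) ?_) ?_
  · exact continuousOn_const.mul (contRect cph)
  · exact continuousOn_const
  · exact ((continuousOn_const.mul (contRect ckp)).add
      (continuousOn_const.mul (contRect ckq))).div_const 2
  · exact (continuousOn_const.mul (contRect cka)).add (continuousOn_const.mul (contRect ckb))
  · exact continuousOn_const.mul ((contRect cka).add (contRect ckb))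

theorem c_ET (h : Geo a b β z0) (hL : IsLog β L) (W : Wt2 om om' a b u u') (T : ℂ) :
    ContinuousOn (fun p => (FT T L p : ℂ) * bodyT T om om' u u' β z0 p) (Rect a b) :=
  (Complex.continuous_ofReal.comp_continuousOn (cFT hL h.a_pos T)).mul (c_bodyT h W T)

/-- **the first variation of the functional** -/
theorem dJT_eq (h : Geo a b β z0) (hL : IsLog β L) (W : Wt2 om om' a b u u') (T B : ℂ) :
    ∫ p in Rect a b, om p.1 * u p.2 * (FT T L p * (T * dl β z0 B (ep (-p.1) p.2)).re) =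
      (B * ET T om om' u u' a b β L z0).re := by
  obtain ⟨c1, i1⟩ := G1_int h hL W T B
  obtain ⟨c2, i2⟩ := G2_int h hL W T B
  have c3 := c_ET h hL W T
  have h1 : ∫ p in Rect a b, om p.1 * u p.2 * (FT T L p * (T * dl β z0 B (ep (-p.1) p.2)).re) =
      ∫ p in Rect a b, (G1x T om om' u β L z0 B p + G2θ T om u u' β L z0 B p +
        (B * ((FT T L p : ℂ) * bodyT T om om' u u' β z0 p)).re) := by
    refine setIntegral_congr_fun (measurableSet_rect a b) fun p hp => ?_
    have h2 := dl_bodyT (T := T) (L := L) (om := om) (om' := om') (u := u) (u' := u') (B := B)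
      h hp
    have h3 : (B * ((FT T L p : ℂ) * bodyT T om om' u u' β z0 p)).re =
        FT T L p * (B * bodyT T om om' u u' β z0 p).re := by
      rw [← Complex.re_ofReal_mul]
      congr 1
      ring
    rw [h3]
    exact h2
  have c4 : ContinuousOn (fun p => (B * ((FT T L p : ℂ) *
      bodyT T om om' u u' β z0 p)).re) (Rect a b) :=
    Complex.continuous_re.comp_continuousOn (continuousOn_const.mul c3)
  have i12 : IntegrableOn (fun p => G1x T om om' u β L z0 B p + G2θ T om u u' β L z0 B p)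
      (Rect a b) := (integrableOn_rect c1).add (integrableOn_rect c2)
  rw [h1, integral_add i12 (integrableOn_rect c4),
    integral_add (integrableOn_rect c1) (integrableOn_rect c2), i1, i2]
  rw [zero_add, zero_add]
  have h5 : IntegrableOn (fun p => B * ((FT T L p : ℂ) * bodyT T om om' u u' β z0 p))
      (Rect a b) := integrableOn_rectC (continuousOn_const.mul c3)
  have h6 := integral_re (𝕜 := ℂ) h5
  simp only [RCLike.re_to_complex] at h6
  rw [h6, integral_const_mul]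
  rfl

end

end Pool.Agent.Helper99.CKC

end
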