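import Mathlib
import Pool.Agent.Helper14.CMF.T14

set_option linter.all false

section

namespace Pool.Agent.Helper39.Area
end Pool.Agent.Helper39.Area
namespace Pool.Agent.Helper52.EK
end Pool.Agent.Helper52.EK
namespace Pool.Agent.Helper9.EK
end Pool.Agent.Helper9.EK

set_option autoImplicit false

open Complex MeasureTheory Metric Set

open scoped Real ComplexConjugate ContDiff

namespace Pool.Agent.Helper52.CK

open Pool.Agent.Helper39.Area Pool.Agent.Helper52.EK Pool.Agent.Helper9.EK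

noncomputable def omw (w : ℝ → ℝ) (p x : ℝ) : ℝ :=
  if 0 < x then w (-Real.log x - 2) * x ^ p else 0

noncomputable def omw' (w : ℝ → ℝ) (p x : ℝ) : ℝ :=
  if 0 < x then (-deriv w (-Real.log x - 2) + p * w (-Real.log x - 2)) * x ^ (p - 1) else 0

section weight

variable {w : ℝ → ℝ} {n p : ℝ}

theorem omw_pos {x : ℝ} (hx : 0 < x) : omw w p x = w (-Real.log x - 2) * x ^ p := if_pos hx

theorem omw'_pos {x : ℝ} (hx : 0 < x) : omw' w p x =
    (-deriv w (-Real.log x - 2) + p * w (-Real.log x - 2)) * x ^ (p - 1) := if_pos hx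

theorem w_far (hw0 : ∀ l, l ∉ Icc n (2 * n) → w l = 0) {l : ℝ} (hl : 2 * n < l) :
    w l = 0 ∧ deriv w l = 0 := by
  refine ⟨hw0 l fun h => absurd h.2 (not_le.2 hl), ?_⟩
  have h1 : w =ᶠ[nhds l] fun _ => 0 := by
    filter_upwards [Ioi_mem_nhds hl] with y hy
    exact hw0 y fun h => absurd h.2 (not_le.2 hy)
  rw [h1.deriv_eq]
  simp

theorem omw_small (hw0 : ∀ l, l ∉ Icc n (2 * n) → w l = 0) {x : ℝ}
    (hx : x < Real.exp (-(2 * n + 2))) : omw w p x = 0 ∧ omw' w p x = 0 := by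
  by_cases h0 : 0 < x
  · have h1 : 2 * n < -Real.log x - 2 := by
      have := Real.log_lt_log h0 hx
      rw [Real.log_exp] at this
      (clear * - this; linarith only [this])
    obtain ⟨h2, h3⟩ := w_far hw0 h1
    rw [omw_pos h0, omw'_pos h0, h2, h3]
    simp
  · exact ⟨if_neg h0, if_neg h0⟩

theorem omw_deriv (hw : ContDiff ℝ ∞ w) (hw0 : ∀ l, l ∉ Icc n (2 * n) → w l = 0) (x : ℝ) :
    HasDerivAt (omw w p) (omw' w p x) x := by
  by_cases h0 : 0 < x
  · have h1 : omw w p =ᶠ[nhds x] fun x => w (-Real.log x - 2) * x ^ p := by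
      filter_upwards [Ioi_mem_nhds h0] with y hy
      exact omw_pos hy
    have hd : Differentiable ℝ w := hw.differentiable (by norm_num)
    have h2 : HasDerivAt (fun x => -Real.log x - 2) (-x⁻¹) x :=
      ((Real.hasDerivAt_log h0.ne').neg).sub_const 2
    have h3 := (hd (-Real.log x - 2)).hasDerivAt.comp x h2
    have h4 := h3.mul (Real.hasDerivAt_rpow_const (x := x) (p := p) (Or.inl h0.ne'))
    refine (h4.congr_of_eventuallyEq h1).congr_deriv ?_
    rw [omw'_pos h0]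
    have e : x ^ p = x ^ (p - 1) * x := by
      rw [← Real.rpow_add_one h0.ne']
      congr 1
      ring
    simp only [Function.comp]
    rw [e]
    (clear * - h0; field_simp)
  · have hx : x < Real.exp (-(2 * n + 2)) := (not_lt.1 h0).trans_lt (Real.exp_pos _)
    have h1 : omw w p =ᶠ[nhds x] fun _ => 0 := by
      filter_upwards [Iio_mem_nhds hx] with y hy
      exact (omw_small hw0 hy).1
    rw [(omw_small (p := p) hw0 hx).2]
    exact (hasDerivAt_const x (0:ℝ)).congr_of_eventuallyEq h1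

theorem omw'_cont (hw : ContDiff ℝ ∞ w) (hw0 : ∀ l, l ∉ Icc n (2 * n) → w l = 0) :
    Continuous (omw' w p) := by
  rw [continuous_iff_continuousAt]
  intro x
  by_cases h0 : 0 < x
  · have h1 : omw' w p =ᶠ[nhds x] fun x =>
        (-deriv w (-Real.log x - 2) + p * w (-Real.log x - 2)) * x ^ (p - 1) := by
      filter_upwards [Ioi_mem_nhds h0] with y hy
      exact omw'_pos hy
    have c1 : Continuous (deriv w) := hw.continuous_deriv (by norm_num)
    have c0 : Continuous w := hw.continuous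
    have c2 : ContinuousAt (fun x => -Real.log x - 2) x :=
      ((Real.continuousAt_log h0.ne').neg).sub continuousAt_const
    have c3 : ContinuousAt (fun x : ℝ => x ^ (p - 1)) x :=
      Real.continuousAt_rpow_const x (p - 1) (Or.inl h0.ne')
    have c4 : ContinuousAt (fun x =>
        (-deriv w (-Real.log x - 2) + p * w (-Real.log x - 2)) * x ^ (p - 1)) x := by
      refine ContinuousAt.mul (ContinuousAt.add ?_ (continuousAt_const.mul ?_)) c3
      · exact (ContinuousAt.comp (f := fun x => -Real.log x - 2) c1.continuousAt c2).neg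
      · exact ContinuousAt.comp (f := fun x => -Real.log x - 2) c0.continuousAt c2
    exact c4.congr h1.symm
  · have hx : x < Real.exp (-(2 * n + 2)) := (not_lt.1 h0).trans_lt (Real.exp_pos _)
    have h1 : omw' w p =ᶠ[nhds x] fun _ => 0 := by
      filter_upwards [Iio_mem_nhds hx] with y hy
      exact (omw_small hw0 hy).2
    exact continuousAt_const.congr h1.symm

theorem omw_nonneg (hwn : ∀ l, 0 ≤ w l) (x : ℝ) : 0 ≤ omw w p x := by
  by_cases h0 : 0 < x
  · rw [omw_pos h0]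
    exact mul_nonneg (hwn _) (Real.rpow_nonneg h0.le _)
  · rw [omw, if_neg h0]

theorem w_ends (hw : ContDiff ℝ ∞ w) (hw0 : ∀ l, l ∉ Icc n (2 * n) → w l = 0) :
    w n = 0 ∧ w (2 * n) = 0 := by
  have c0 : Continuous w := hw.continuous
  have hcl : IsClosed {l | w l = 0} := isClosed_eq c0 continuous_const
  constructor
  · have h1 : Iio n ⊆ {l | w l = 0} := fun l hl => hw0 l fun h => absurd h.1 (not_le.2 hl)
    have h2 := closure_minimal h1 hcl
    rw [closure_Iio] at h2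
    exact h2 (Set.mem_Iic.2 le_rfl)
  · have h1 : Ioi (2 * n) ⊆ {l | w l = 0} := fun l hl => hw0 l fun h => absurd h.2 (not_le.2 hl)
    have h2 := closure_minimal h1 hcl
    rw [closure_Ioi] at h2
    exact h2 (Set.mem_Ici.2 le_rfl)

theorem omw_zero (hw : ContDiff ℝ ∞ w) (hw0 : ∀ l, l ∉ Icc n (2 * n) → w l = 0) {x : ℝ}
    (hx : x ∉ Ioo (Real.exp (-(2 * n + 2))) (Real.exp (-(n + 2)))) : omw w p x = 0 := by
  by_cases h0 : 0 < x
  · rw [omw_pos h0]
    have h1 : w (-Real.log x - 2) = 0 := by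
      rcases le_or_gt x (Real.exp (-(2 * n + 2))) with h | h
      · rcases eq_or_lt_of_le h with h | h
        · rw [h, Real.log_exp]
          have e : -(-(2 * n + 2)) - 2 = 2 * n := by ring
          rw [e]
          exact (w_ends hw hw0).2
        · have := (omw_small (p := 0) hw0 h).1
          rw [omw_pos h0, Real.rpow_zero, mul_one] at this
          exact this
      · have h2 : Real.exp (-(n + 2)) ≤ x := by
          by_contra hlt
          exact hx ⟨h, not_le.1 hlt⟩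
        rcases eq_or_lt_of_le h2 with h3 | h3
        · rw [← h3, Real.log_exp]
          have e : -(-(n + 2)) - 2 = n := by ring
          rw [e]
          exact (w_ends hw hw0).1
        · refine hw0 _ fun hm => ?_
          have := Real.log_lt_log (Real.exp_pos _) h3
          rw [Real.log_exp] at this
          (clear * - hm this; linarith only [hm.1, this])
    rw [h1, zero_mul]
  · exact if_neg h0

theorem omw_id {x : ℝ} (hx : 0 < x) :
    p * omw w p x - x * omw' w p x = deriv w (-Real.log x - 2) * x ^ p := by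
  rw [omw_pos hx, omw'_pos hx]
  have e : x ^ p = x ^ (p - 1) * x := by
    rw [← Real.rpow_add_one hx.ne']
    congr 1
    ring
  rw [e]
  ring

theorem exp_le_quarter (hn : 1 ≤ n) : Real.exp (-(n + 2)) ≤ 1 / 4 := by
  have h1 : Real.exp (-(n + 2)) ≤ Real.exp (-2) := Real.exp_le_exp.2 (by (clear * - hn; linarith))
  have h2 : (2:ℝ) < Real.exp 1 := by
    have := Real.exp_one_gt_d9
    (clear * - this; linarith only [this])
  have h3 : Real.exp (-2) = (Real.exp 1 * Real.exp 1)⁻¹ := by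
    rw [← Real.exp_add, ← Real.exp_neg]
    norm_num
  have h4 : (Real.exp 1 * Real.exp 1)⁻¹ ≤ (2 * 2 : ℝ)⁻¹ := by
    apply inv_anti₀ (by norm_num)
    (clear * - h2; nlinarith only [h2])
  rw [h3] at h1
  refine h1.trans (h4.trans (by norm_num))

/-- the weights of the project -/
theorem omw_Wt (hn : 1 ≤ n) (hw : ContDiff ℝ ∞ w) (hwn : ∀ l, 0 ≤ w l)
    (hw0 : ∀ l, l ∉ Icc n (2 * n) → w l = 0) {u u' : ℝ → ℝ} (du : ∀ θ, HasDerivAt u (u' θ) θ)
    (cu : Continuous u') (u0 : ∀ θ, 0 ≤ u θ) (u1 : ∀ θ, u θ ≤ 1)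
    (up : Function.Periodic u (2 * π)) :
    Wt (omw w p) (omw' w p) u u' (Real.exp (-(2 * n + 2))) (Real.exp (-(n + 2))) where
  a0 := Real.exp_pos _
  ab := Real.exp_lt_exp.2 (by (clear * - hn; linarith))
  b1 := exp_le_quarter hn
  dom := omw_deriv hw hw0
  com := omw'_cont hw hw0
  om0 := omw_nonneg hwn
  omz := fun _ hx => omw_zero hw hw0 hx
  du := du
  cu := cu
  u0 := u0
  u1 := u1
  up := up

theorem omw_exists_pos (hwp : ∃ l, 0 < w l) : ∃ x, 0 < omw w p x := by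
  obtain ⟨l, hl⟩ := hwp
  refine ⟨Real.exp (-(l + 2)), ?_⟩
  rw [omw_pos (Real.exp_pos _), Real.log_exp]
  have e : -(-(l + 2)) - 2 = l := by ring
  rw [e]
  exact mul_pos hl (Real.rpow_pos_of_pos (Real.exp_pos _) _)

end weight

theorem sub_exp {n : ℝ} (hn : 0 ≤ n) (f : ℝ → ℝ) :
    ∫ x in Real.exp (-(2 * n + 2))..Real.exp (-(n + 2)), f x =
      ∫ l in n..(2 * n), Real.exp (-(l + 2)) * f (Real.exp (-(l + 2))) := by
  have hn2 : n ≤ 2 * n := by linarith
  have hab : Real.exp (-(2 * n + 2)) ≤ Real.exp (-(n + 2)) := Real.exp_le_exp.2 (by linarith only [hn2])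
  have himg : (fun l : ℝ => Real.exp (-(l + 2))) '' Icc n (2 * n) =
      Icc (Real.exp (-(2 * n + 2))) (Real.exp (-(n + 2))) := by
    ext x
    constructor
    · rintro ⟨l, hl, rfl⟩
      exact ⟨Real.exp_le_exp.2 (by (clear * - hl; linarith [hl.2])), Real.exp_le_exp.2 (by linarith [hl.1])⟩
    · intro hx
      have hx0 : 0 < x := (Real.exp_pos _).trans_le hx.1
      refine ⟨-Real.log x - 2, ⟨?_, ?_⟩, ?_⟩
      · have := Real.log_le_log hx0 hx.2
        rw [Real.log_exp] at this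
        (clear * - this; linarith only [this])
      · have := Real.log_le_log (Real.exp_pos _) hx.1
        rw [Real.log_exp] at this
        linarith only [this]
      · simp only
        have e : -(-Real.log x - 2 + 2) = Real.log x := by ring
        rw [e, Real.exp_log hx0]
  rw [intervalIntegral.integral_of_le hab, intervalIntegral.integral_of_le hn2,
    ← integral_Icc_eq_integral_Ioc, ← integral_Icc_eq_integral_Ioc, ← himg,
    integral_image_eq_integral_abs_deriv_smul (f' := fun l => -Real.exp (-(l + 2)))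
      measurableSet_Icc ?_ ?_]
  · refine setIntegral_congr_fun measurableSet_Icc fun l _ => ?_
    simp only [smul_eq_mul, abs_neg, Real.abs_exp]
  · intro l _
    have h1 : HasDerivAt (fun l : ℝ => -(l + 2)) (-1) l :=
      HasDerivAt.fun_neg ((hasDerivAt_id' l).add_const 2)
    have h2 := h1.exp
    refine (h2.congr_deriv ?_).hasDerivWithinAt
    ring
  · intro l _ l' _ h
    have := Real.exp_injective h
    (clear * - this; linarith)

/-- the main change of variables -/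
theorem RR_omw {w : ℝ → ℝ} {n p : ℝ} (hn : 0 ≤ n) (H : ℝ → ℝ → ℝ) :
    RR (Real.exp (-(2 * n + 2))) (Real.exp (-(n + 2))) (fun x θ => omw w p x * H x θ) =
      ∫ l in n..(2 * n), w l * Real.exp (-((p + 1) * (l + 2))) *
        ∫ θ in (-π)..π, H (Real.exp (-(l + 2))) θ := by
  unfold RR
  rw [sub_exp hn]
  refine intervalIntegral.integral_congr fun l _ => ?_
  simp only
  rw [intervalIntegral.integral_const_mul, omw_pos (Real.exp_pos _), Real.log_exp,
    ← Real.exp_mul]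
  have e : -(-(l + 2)) - 2 = l := by ring
  have e2 : Real.exp (-((p + 1) * (l + 2))) = Real.exp (-(l + 2)) * Real.exp (-(l + 2) * p) := by
    rw [← Real.exp_add]
    congr 1
    ring
  rw [e, e2]
  ring

theorem RR_omw_abs {w : ℝ → ℝ} {n p : ℝ} (hn : 0 ≤ n) (H : ℝ → ℝ → ℝ) :
    RR (Real.exp (-(2 * n + 2))) (Real.exp (-(n + 2)))
      (fun x θ => |p * omw w p x - x * omw' w p x| * H x θ) =
      ∫ l in n..(2 * n), |deriv w l| * Real.exp (-((p + 1) * (l + 2))) *
        ∫ θ in (-π)..π, H (Real.exp (-(l + 2))) θ := by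
  unfold RR
  rw [sub_exp hn]
  refine intervalIntegral.integral_congr fun l _ => ?_
  simp only
  rw [intervalIntegral.integral_const_mul, omw_id (Real.exp_pos _), Real.log_exp,
    ← Real.exp_mul, abs_mul, abs_of_pos (Real.exp_pos _)]
  have e : -(-(l + 2)) - 2 = l := by ring
  have e2 : Real.exp (-((p + 1) * (l + 2))) = Real.exp (-(l + 2)) * Real.exp (-(l + 2) * p) := by
    rw [← Real.exp_add]
    congr 1
    ring
  rw [e, e2]
  ring

/-- localised mean at depth `l` -/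
noncomputable def mm (κ : ℝ) (u : ℝ → ℝ) (β : ℂ → ℂ) (l : ℝ) : ℝ :=
  (2 * π)⁻¹ * ∫ θ in (-π)..π, u θ * FF κ β (Real.exp (-l)) θ

/-- the level function -/
noncomputable def GG (κ dl : ℝ) (u : ℝ → ℝ) (β : ℂ → ℂ) (l : ℝ) : ℝ :=
  Real.log (mm κ u β (l + 2)) - (κ - 1 + dl) * (l + 2)

theorem exp_GG {κ dl : ℝ} {u : ℝ → ℝ} {β : ℂ → ℂ} {l : ℝ} (h : 0 < mm κ u β (l + 2)) :
    Real.exp (GG κ dl u β l) = mm κ u β (l + 2) * Real.exp (-((κ - 1 + dl) * (l + 2))) := by
  unfold GG
  rw [sub_eq_add_neg, Real.exp_add, Real.exp_log h]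

theorem norm_ep (t θ : ℝ) : ‖ep t θ‖ = Real.exp t := by
  unfold ep
  rw [Complex.norm_exp]
  simp

/-- LIP: the density changes by at most `e^(A |l - l'|)` along a radius -/
def LipStmt (κ : ℝ) : Prop :=
  ∃ A : ℝ, 0 ≤ A ∧ ∀ (β : ℂ → ℂ) (R : ℝ), ExtR β R →
    (∀ l l' θ : ℝ, 2 ≤ l → 2 ≤ l' →
      FF κ β (Real.exp (-l)) θ ≤ Real.exp (A * |l - l'|) * FF κ β (Real.exp (-l')) θ) ∧
    ∀ θ : ℝ, FF κ β (Real.exp (-2)) θ ≤ Real.exp A

theorem FF_cont (κ : ℝ) {β : ℂ → ℂ} {R a : ℝ} (h : ExtR β R) (ha : 0 < a) :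
    Continuous (fun q : ℝ × ℝ => FF κ β (max a q.1) q.2) := by
  have hmem : ∀ q : ℝ × ℝ, ep (-(max a q.1)) q.2 ∈ ball (0:ℂ) R := by
    intro q
    rw [mem_ball_zero_iff, norm_ep]
    have : Real.exp (-(max a q.1)) < 1 := by
      rw [Real.exp_lt_one_iff]
      have := le_max_left a q.1
      linarith only [ha, this]
    exact this.trans h.one_lt
  have hc : Continuous (fun q : ℝ × ℝ => ep (-(max a q.1)) q.2) := by
    unfold ep
    fun_prop
  have hd : ContinuousOn (deriv β) (ball 0 R) := (h.diff.deriv isOpen_ball).continuousOn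
  have h1 : Continuous (fun q : ℝ × ℝ => deriv β (ep (-(max a q.1)) q.2)) :=
    hd.comp_continuous hc hmem
  have h2 : Continuous (fun q : ℝ × ℝ => N β (ep (-(max a q.1)) q.2)) := by
    unfold N
    exact continuous_const.sub ((hc.pow 2).mul h1)
  have h3 : ∀ q : ℝ × ℝ, ‖N β (ep (-(max a q.1)) q.2)‖ ≠ 0 := fun q =>
    norm_ne_zero_iff.2 (h.ne _ (hmem q))
  exact h2.norm.rpow_const fun q => Or.inl (h3 q)

theorem FF_pos (κ : ℝ) {β : ℂ → ℂ} {R x : ℝ} (h : ExtR β R) (hx : 0 < x) (θ : ℝ) :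
    0 < FF κ β x θ := by
  refine Real.rpow_pos_of_pos (norm_pos_iff.2 (h.ne _ ?_)) _
  rw [mem_ball_zero_iff, norm_ep]
  have : Real.exp (-x) < 1 := by
    rw [Real.exp_lt_one_iff]
    linarith
  exact this.trans h.one_lt

theorem FF_cont_th (κ : ℝ) {β : ℂ → ℂ} {R x : ℝ} (h : ExtR β R) (hx : 0 < x) :
    Continuous (FF κ β x) := by
  have h1 := (FF_cont κ h hx).comp (Continuous.prodMk_right x)
  refine h1.congr fun θ => ?_
  simp [Function.comp]

theorem rot_FF (κ : ℝ) (β : ℂ → ℂ) (α x θ : ℝ) :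
    FF κ (rotβ β α) x θ = FF κ β x (θ + α) := by
  unfold FF
  rw [rot_N']
  congr 3
  unfold ep
  rw [← Complex.exp_add]
  congr 1
  push_cast
  ring

theorem FF_per (κ : ℝ) (β : ℂ → ℂ) (x : ℝ) : Function.Periodic (FF κ β x) (2 * π) := by
  intro θ
  unfold FF
  congr 3
  unfold ep
  have e : ((-x : ℝ) : ℂ) + ((θ + 2 * π : ℝ) : ℂ) * I =
      ((-x : ℝ) : ℂ) + (θ : ℂ) * I + 2 * π * I := by
    push_cast
    ring
  rw [e, Complex.exp_add, Complex.exp_two_pi_mul_I, mul_one]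

/-- rotation of the localised mean -/
theorem rot_int {κ : ℝ} {u : ℝ → ℝ} (up : Function.Periodic u (2 * π)) (β : ℂ → ℂ) (x α : ℝ) :
    ∫ θ in (-π)..π, u (θ + α) * FF κ β x θ =
      ∫ θ in (-π)..π, u θ * FF κ (rotβ β (-α)) x θ := by
  have h1 : ∀ θ, u (θ + α) * FF κ β x θ =
      (fun t => u t * FF κ (rotβ β (-α)) x t) (θ + α) := by
    intro θ
    simp only
    rw [rot_FF]
    congr 2
    ring
  simp only [h1]
  rw [intervalIntegral.integral_comp_add_right (fun t => u t * FF κ (rotβ β (-α)) x t)]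
  have hper : Function.Periodic (fun t => u t * FF κ (rotβ β (-α)) x t) (2 * π) := by
    intro t
    simp only
    rw [up t, FF_per]
  have := hper.intervalIntegral_add_eq (-π + α) (-π)
  have e1 : -π + α + 2 * π = π + α := by ring
  have e2 : -π + 2 * π = π := by ring
  rw [e1, e2] at this
  exact this

end Pool.Agent.Helper52.CK

end

section

set_option autoImplicit false

open Real Set

/-! Project CK: the bump on an arc, and the cover of the circle by its rotations. -/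

namespace Pool.Agent.Helper52.CK

theorem hasDerivAt_pos_sq (t : ℝ) : HasDerivAt (fun t : ℝ => (max 0 t) ^ 2) (2 * max 0 t) t := by
  rcases lt_trichotomy t 0 with h | h | h
  · have h1 : (fun t : ℝ => (max 0 t) ^ 2) =ᶠ[nhds t] fun _ => 0 := by
      filter_upwards [Iio_mem_nhds h] with x hx
      rw [max_eq_left (le_of_lt hx)]
      simp
    rw [max_eq_left h.le, mul_zero]
    exact (hasDerivAt_const t (0:ℝ)).congr_of_eventuallyEq h1
  · subst h
    rw [hasDerivAt_iff_isLittleO]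
    simp only [max_self, mul_zero, sub_zero, smul_eq_mul]
    have h1 : (fun x : ℝ => (max 0 x) ^ 2) =O[nhds 0] fun x => x ^ 2 := by
      refine Asymptotics.IsBigO.of_bound 1 (Filter.Eventually.of_forall fun x => ?_)
      rw [one_mul, norm_pow, norm_pow]
      refine pow_le_pow_left₀ (norm_nonneg _) ?_ 2
      rw [Real.norm_eq_abs, Real.norm_eq_abs]
      rcases le_total 0 x with h | h
      · rw [max_eq_right h]
      · rw [max_eq_left h, abs_zero]
        exact abs_nonneg x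
    have h2 : (fun x : ℝ => x ^ 2) =o[nhds 0] fun x => x := by
      have := (Asymptotics.isLittleO_pow_pow (𝕜 := ℝ) (m := 1) (n := 2) (by norm_num))
      simpa using this
    have h3 := h1.trans_isLittleO h2
    simpa using h3
  · have h1 : (fun t : ℝ => (max 0 t) ^ 2) =ᶠ[nhds t] fun t => t ^ 2 := by
      filter_upwards [Ioi_mem_nhds h] with x hx
      rw [max_eq_right (le_of_lt hx)]
    rw [max_eq_right h.le]
    have h2 := (hasDerivAt_pow 2 t).congr_of_eventuallyEq h1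
    refine h2.congr_deriv ?_
    norm_num

/-- the bump of the arc `|θ| < s` -/
noncomputable def bu (s θ : ℝ) : ℝ := (max 0 (cos θ - cos s)) ^ 2 / (1 - cos s) ^ 2

noncomputable def bu' (s θ : ℝ) : ℝ :=
  2 * max 0 (cos θ - cos s) * (-sin θ) / (1 - cos s) ^ 2

variable {s : ℝ}

theorem cos_s_lt (h0 : 0 < s) (h1 : s ≤ 1 / 2) : cos s < 1 := by
  have hpi := Real.pi_gt_three
  have := Real.cos_lt_cos_of_nonneg_of_le_pi_div_two (x := 0) (y := s) le_rfl (by (clear * - h0 h1 hpi; linarith)) h0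
  rwa [Real.cos_zero] at this

theorem bu_deriv (s θ : ℝ) : HasDerivAt (bu s) (bu' s θ) θ := by
  have h1 : HasDerivAt (fun θ => cos θ - cos s) (-sin θ) θ :=
    (Real.hasDerivAt_cos θ).sub_const _
  have h2 := (hasDerivAt_pos_sq (cos θ - cos s)).comp θ h1
  exact h2.div_const _

theorem bu'_cont (s : ℝ) : Continuous (bu' s) := by
  unfold bu'
  have : Continuous fun θ => max 0 (cos θ - cos s) :=
    continuous_const.max (Real.continuous_cos.sub continuous_const)
  fun_prop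

theorem bu_cont (s : ℝ) : Continuous (bu s) :=
  continuous_iff_continuousAt.2 fun θ => (bu_deriv s θ).continuousAt

theorem bu_nonneg (s θ : ℝ) : 0 ≤ bu s θ := by unfold bu; (clear * -; positivity)

theorem bu_le_one (h0 : 0 < s) (h1 : s ≤ 1 / 2) (θ : ℝ) : bu s θ ≤ 1 := by
  have hc := cos_s_lt h0 h1
  unfold bu
  rw [div_le_one (by have : 0 < 1 - cos s := by (clear * - hc; linarith only [hc])
                     (clear * - hc; positivity))]
  refine pow_le_pow_left₀ (le_max_left _ _) ?_ 2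
  exact max_le (by (clear * - hc; linarith only [hc])) (by (clear * -; linarith [Real.cos_le_one θ]))

theorem bu_per (s : ℝ) : Function.Periodic (bu s) (2 * π) := by
  intro θ
  unfold bu
  rw [Real.cos_add_two_pi]

theorem bu_supp (h0 : 0 < s) (h1 : s ≤ 1 / 2) {θ : ℝ} (hθ : θ ∈ Icc (-π) π)
    (h : bu s θ ≠ 0) : |θ| ≤ s := by
  by_contra hlt
  push Not at hlt
  apply h
  have hpi := Real.pi_gt_three
  have hle : |θ| ≤ π := abs_le.2 hθ
  have h2 : cos |θ| < cos s := Real.cos_lt_cos_of_nonneg_of_le_pi h0.le hle hlt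
  rw [Real.cos_abs] at h2
  unfold bu
  rw [max_eq_left (by linarith only [h2])]
  simp

theorem bu_pos_zero (h0 : 0 < s) (h1 : s ≤ 1 / 2) : 0 < bu s 0 := by
  have hc := cos_s_lt h0 h1
  unfold bu
  rw [Real.cos_zero, max_eq_right (by linarith only [hc])]
  have : 0 < 1 - cos s := by (clear * - hc; linarith only [hc])
  (clear * - hc; positivity)

/-- the bump is bounded below near its centre -/
theorem bu_ge (h0 : 0 < s) (h1 : s ≤ 1 / 2) : ∃ c : ℝ, 0 < c ∧ ∀ θ, |θ| ≤ s / 2 → c ≤ bu s θ := by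
  have hc := cos_s_lt h0 h1
  have hpi := Real.pi_gt_three
  have h2 : cos s < cos (s / 2) :=
    Real.cos_lt_cos_of_nonneg_of_le_pi (by linarith only [h0]) (by (clear * - h1 hpi; linarith only [h1, hpi])) (by (clear * - h0; linarith))
  refine ⟨(cos (s / 2) - cos s) ^ 2 / (1 - cos s) ^ 2, ?_, fun θ hθ => ?_⟩
  · have a1 : 0 < 1 - cos s := by (clear * - hc; linarith)
    have a2 : 0 < cos (s / 2) - cos s := by (clear * - h2; linarith)
    (clear * - h2 hc; positivity)
  · have h3 : cos (s / 2) ≤ cos |θ| :=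
      Real.cos_le_cos_of_nonneg_of_le_pi (abs_nonneg _) (by linarith only [h1, hpi]) hθ
    rw [Real.cos_abs] at h3
    unfold bu
    refine div_le_div_of_nonneg_right ?_ (sq_nonneg _)
    refine pow_le_pow_left₀ (by linarith only [h2]) ?_ 2
    exact (sub_le_sub_right h3 _).trans (le_max_right _ _)

/-- every angle is near a multiple of `2π/K`, modulo `2π` -/
theorem near_mult {K : ℕ} (hK : 0 < K) (θ : ℝ) :
    ∃ j ∈ Finset.range K, ∃ m : ℤ, |θ + 2 * π * j / K - m * (2 * π)| ≤ 2 * π / K := by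
  have hKr : (0:ℝ) < K := by exact_mod_cast hK
  have hpi := Real.pi_pos
  -- `q` = integer part of `-θ K / (2π)`
  obtain ⟨q, hq⟩ : ∃ q : ℤ, q = ⌊-θ * K / (2 * π)⌋ := ⟨_, rfl⟩
  obtain ⟨j, hj⟩ : ∃ j : ℕ, (j : ℤ) = q % K := ⟨(q % K).toNat, Int.toNat_of_nonneg
    (Int.emod_nonneg _ (by exact_mod_cast hK.ne'))⟩
  have hjK : j < K := by
    have := Int.emod_lt_of_pos q (by exact_mod_cast hK : (0:ℤ) < K)
    rw [← hj] at this
    exact_mod_cast this
  have hdiv : q = K * (q / K) + j := by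
    rw [hj]
    exact (Int.mul_ediv_add_emod q K).symm
  refine ⟨j, Finset.mem_range.2 hjK, -(q / K), ?_⟩
  have e : θ + 2 * π * j / K - ((-(q / K) : ℤ) : ℝ) * (2 * π) = θ + 2 * π * q / K := by
    have h1 : (q : ℝ) = K * ((q / K : ℤ) : ℝ) + j := by exact_mod_cast hdiv
    push_cast
    rw [h1]
    field_simp
    ring
  rw [e]
  have h1 : (q : ℝ) ≤ -θ * K / (2 * π) := by rw [hq]; exact Int.floor_le _
  have h2 : -θ * K / (2 * π) < q + 1 := by rw [hq]; exact Int.lt_floor_add_one _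
  rw [le_div_iff₀ (by positivity)] at h1
  rw [div_lt_iff₀ (by positivity)] at h2
  have h3 : θ + 2 * π * q / K = (θ * K + 2 * π * q) / K := by field_simp
  rw [h3, abs_div, abs_of_pos hKr, div_le_div_iff_of_pos_right hKr, abs_le]
  constructor
  · linarith only [h2]
  · linarith only [h1, h2]

/-- the cover -/
theorem bu_cover (h0 : 0 < s) (h1 : s ≤ 1 / 2) : ∃ (K : ℕ) (C : ℝ), 0 < K ∧ 0 < C ∧
    (∀ θ, 1 ≤ C * ∑ j ∈ Finset.range K, bu s (θ + 2 * π * j / K)) ∧
    (∀ θ, |bu' s θ| ≤ C * ∑ j ∈ Finset.range K, bu s (θ + 2 * π * j / K)) := by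
  obtain ⟨c, hc0, hc⟩ := bu_ge h0 h1
  have hpi := Real.pi_pos
  have hcs := cos_s_lt h0 h1
  obtain ⟨K, hK⟩ := exists_nat_gt (4 * π / s)
  have hK0 : 0 < K := by
    have : (0:ℝ) < K := lt_trans (by (clear * - h0; positivity)) hK
    exact_mod_cast this
  have hKr : (0:ℝ) < K := by exact_mod_cast hK0
  have hKs : 2 * π / K ≤ s / 2 := by
    rw [div_lt_iff₀ h0] at hK
    rw [div_le_iff₀ hKr]
    linarith only [hK]
  have key : ∀ θ, c ≤ ∑ j ∈ Finset.range K, bu s (θ + 2 * π * j / K) := by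
    intro θ
    obtain ⟨j, hj, m, hm⟩ := near_mult hK0 θ
    have h2 : c ≤ bu s (θ + 2 * π * j / K) := by
      have h3 := hc _ (hm.trans hKs)
      rwa [(bu_per s).sub_int_mul_eq] at h3
    exact h2.trans (Finset.single_le_sum (f := fun j : ℕ => bu s (θ + 2 * π * j / K))
      (fun i _ => bu_nonneg s _) hj)
  obtain ⟨D, hD⟩ : ∃ D, D = 2 / (1 - cos s) := ⟨_, rfl⟩
  have h1s : 0 < 1 - cos s := by (clear * - hcs; linarith only [hcs])
  have hD0 : 0 < D := by rw [hD]; (clear * - hcs; positivity)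
  have hb : ∀ θ, |bu' s θ| ≤ D := by
    intro θ
    unfold bu'
    rw [abs_div, abs_of_pos (by positivity : 0 < (1 - cos s) ^ 2), div_le_iff₀ (by positivity), hD]
    have e : 2 / (1 - cos s) * (1 - cos s) ^ 2 = 2 * (1 - cos s) := by (clear * - h1s; field_simp)
    rw [e, abs_mul, abs_mul, abs_neg, abs_of_pos (by norm_num : (0:ℝ) < 2),
      abs_of_nonneg (le_max_left _ _)]
    have h2 : max 0 (cos θ - cos s) ≤ 1 - cos s :=
      max_le h1s.le (by (clear * -; linarith only [Real.cos_le_one θ]))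
    have h3 := Real.abs_sin_le_one θ
    have h4 : (0:ℝ) ≤ max 0 (cos θ - cos s) := le_max_left _ _
    have h5 := abs_nonneg (sin θ)
    nlinarith only [h2, h3, h4]
  refine ⟨K, (1 + D) / c, hK0, by positivity, fun θ => ?_, fun θ => ?_⟩
  · have := key θ
    rw [div_mul_eq_mul_div, le_div_iff₀ hc0]
    nlinarith only [hc0, hD0, this]
  · have h2 := key θ
    refine (hb θ).trans ?_
    rw [div_mul_eq_mul_div, le_div_iff₀ hc0]
    nlinarith only [hc0, hD0, h2]

end Pool.Agent.Helper52.CK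

end

section

namespace Pool.Agent.Helper39.Area
end Pool.Agent.Helper39.Area
namespace Pool.Agent.Helper52.EK
end Pool.Agent.Helper52.EK
namespace Pool.Agent.Helper9.EK
end Pool.Agent.Helper9.EK

set_option autoImplicit false

open Complex MeasureTheory Metric Set

open scoped Real ComplexConjugate ContDiff

namespace Pool.Agent.Helper52.CK

open Pool.Agent.Helper39.Area Pool.Agent.Helper52.EK Pool.Agent.Helper9.EK

theorem FF_comp_cont (κ : ℝ) {β : ℂ → ℂ} {R : ℝ} (h : ExtR β R) {X : Type*} [TopologicalSpace X]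
    {g k : X → ℝ} (hg : Continuous g) (hk : Continuous k) (hpos : ∀ q, 0 < g q) :
    Continuous (fun q => FF κ β (g q) (k q)) := by
  have hmem : ∀ q, ep (-(g q)) (k q) ∈ ball (0:ℂ) R := by
    intro q
    rw [mem_ball_zero_iff, norm_ep]
    have : Real.exp (-(g q)) < 1 := by
      rw [Real.exp_lt_one_iff]
      have := hpos q
      (clear * - this; linarith only [this])
    exact this.trans h.one_lt
  have hc : Continuous (fun q => ep (-(g q)) (k q)) := by
    unfold ep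
    fun_prop
  have hd : ContinuousOn (deriv β) (ball 0 R) := (h.diff.deriv isOpen_ball).continuousOn
  have h1 : Continuous (fun q => deriv β (ep (-(g q)) (k q))) := hd.comp_continuous hc hmem
  have h2 : Continuous (fun q => N β (ep (-(g q)) (k q))) := by
    unfold N
    exact continuous_const.sub ((hc.pow 2).mul h1)
  have h3 : ∀ q, ‖N β (ep (-(g q)) (k q))‖ ≠ 0 := fun q =>
    norm_ne_zero_iff.2 (h.ne _ (hmem q))
  exact h2.norm.rpow_const fun q => Or.inl (h3 q)

theorem N_comp_cont {β : ℂ → ℂ} {R x : ℝ} (h : ExtR β R) (hx : 0 < x) :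
    Continuous (fun θ => Real.log ‖N β (ep (-x) θ)‖) := by
  have hmem : ∀ θ, ep (-x) θ ∈ ball (0:ℂ) R := by
    intro q
    rw [mem_ball_zero_iff, norm_ep]
    have : Real.exp (-x) < 1 := by
      rw [Real.exp_lt_one_iff]
      (clear * - hx; linarith only [hx])
    exact this.trans h.one_lt
  have hc : Continuous (fun q => ep (-x) q) := by
    unfold ep
    fun_prop
  have hd : ContinuousOn (deriv β) (ball 0 R) := (h.diff.deriv isOpen_ball).continuousOn
  have h1 : Continuous (fun q => deriv β (ep (-x) q)) := hd.comp_continuous hc hmem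
  have h2 : Continuous (fun q => N β (ep (-x) q)) := by
    unfold N
    exact continuous_const.sub ((hc.pow 2).mul h1)
  exact h2.norm.log fun q => norm_ne_zero_iff.2 (h.ne _ (hmem q))

section means

variable {κ dl : ℝ} {u : ℝ → ℝ} {β : ℂ → ℂ} {R : ℝ}

theorem mm_cont (h : ExtR β R) (cu : Continuous u) : Continuous (mm κ u β) := by
  unfold mm
  refine continuous_const.mul ?_
  refine intervalIntegral.continuous_parametric_intervalIntegral_of_continuous'
    (f := fun l θ => u θ * FF κ β (Real.exp (-l)) θ) ?_ _ _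
  have h1 := FF_comp_cont κ h (g := fun q : ℝ × ℝ => Real.exp (-q.1)) (k := fun q => q.2)
    (by fun_prop) (by fun_prop) (fun q => Real.exp_pos _)
  exact (cu.comp continuous_snd).mul h1

theorem int_pos (h : ExtR β R) (cu : Continuous u) (u0 : ∀ θ, 0 ≤ u θ) (hu : 0 < u 0) {x : ℝ}
    (hx : 0 < x) : 0 < ∫ θ in (-π)..π, u θ * FF κ β x θ := by
  have hpi := Real.pi_pos
  refine intervalIntegral.integral_pos (by (clear * - hpi; linarith only [hpi])) ?_ ?_ ?_
  · exact (cu.mul (FF_cont_th κ h hx)).continuousOn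
  · intro θ _
    exact mul_nonneg (u0 θ) (FF_pos κ h hx θ).le
  · exact ⟨0, ⟨by (clear * - hpi; linarith), hpi.le⟩, mul_pos hu (FF_pos κ h hx 0)⟩

theorem mm_pos (h : ExtR β R) (cu : Continuous u) (u0 : ∀ θ, 0 ≤ u θ) (hu : 0 < u 0) (l : ℝ) :
    0 < mm κ u β l := by
  unfold mm
  exact mul_pos (by positivity) (int_pos h cu u0 hu (Real.exp_pos _))

theorem GG_cont (h : ExtR β R) (cu : Continuous u) (u0 : ∀ θ, 0 ≤ u θ) (hu : 0 < u 0) :
    Continuous (GG κ dl u β) := by
  unfold GG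
  have h1 : Continuous fun l : ℝ => mm κ u β (l + 2) :=
    (mm_cont h cu).comp (continuous_id.add continuous_const)
  exact (h1.log fun l => (mm_pos h cu u0 hu _).ne').sub (by fun_prop)

end means

theorem RR_inner_cont {a : ℝ} {F : ℝ → ℝ → ℝ}
    (hF : Continuous (fun q : ℝ × ℝ => F (max a q.1) q.2)) :
    ContinuousOn (fun x => ∫ θ in (-π)..π, F x θ) (Ici a) := by
  have h : Continuous (fun x => ∫ θ in (-π)..π, F (max a x) θ) :=
    intervalIntegral.continuous_parametric_intervalIntegral_of_continuous'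
      (f := fun x θ => F (max a x) θ) hF _ _
  refine h.continuousOn.congr fun x hx => ?_
  simp only [max_eq_right (Set.mem_Ici.1 hx)]

theorem RR_inner_int {a b : ℝ} (hab : a ≤ b) {F : ℝ → ℝ → ℝ}
    (hF : Continuous (fun q : ℝ × ℝ => F (max a q.1) q.2)) :
    IntervalIntegrable (fun x => ∫ θ in (-π)..π, F x θ) volume a b := by
  refine ContinuousOn.intervalIntegrable ?_
  rw [uIcc_of_le hab]
  exact (RR_inner_cont hF).mono Icc_subset_Ici_self

theorem slice {a x : ℝ} (hx : a ≤ x) {F : ℝ → ℝ → ℝ}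
    (hF : Continuous (fun q : ℝ × ℝ => F (max a q.1) q.2)) : Continuous (F x) := by
  have h1 := hF.comp (Continuous.prodMk_right x)
  refine h1.congr fun θ => ?_
  simp [Function.comp, max_eq_right hx]

theorem RR_mono {a b : ℝ} (hab : a ≤ b) {F H : ℝ → ℝ → ℝ}
    (hF : Continuous (fun q : ℝ × ℝ => F (max a q.1) q.2))
    (hH : Continuous (fun q : ℝ × ℝ => H (max a q.1) q.2))
    (hle : ∀ x θ, a ≤ x → x ≤ b → F x θ ≤ H x θ) : RR a b F ≤ RR a b H := by
  unfold RR
  have hpi := Real.pi_pos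
  refine intervalIntegral.integral_mono_on hab (RR_inner_int hab hF) (RR_inner_int hab hH)
    fun x hx => ?_
  exact intervalIntegral.integral_mono_on (by (clear * - hpi; linarith))
    ((slice hx.1 hF).intervalIntegrable _ _) ((slice hx.1 hH).intervalIntegrable _ _)
    fun θ _ => hle x θ hx.1 hx.2

theorem RR_sum {a b : ℝ} (hab : a ≤ b) (K : ℕ) (C : ℝ) {F : ℕ → ℝ → ℝ → ℝ}
    (hF : ∀ j, Continuous (fun q : ℝ × ℝ => F j (max a q.1) q.2)) :
    RR a b (fun x θ => C * ∑ j ∈ Finset.range K, F j x θ) =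
      C * ∑ j ∈ Finset.range K, RR a b (F j) := by
  unfold RR
  have h1 : ∀ x ∈ uIcc a b, ∫ θ in (-π)..π, C * ∑ j ∈ Finset.range K, F j x θ =
      C * ∑ j ∈ Finset.range K, ∫ θ in (-π)..π, F j x θ := by
    intro x hx
    rw [uIcc_of_le hab] at hx
    rw [intervalIntegral.integral_const_mul, intervalIntegral.integral_finsetSum]
    intro j _
    exact (slice hx.1 (hF j)).intervalIntegrable _ _
  rw [intervalIntegral.integral_congr h1, intervalIntegral.integral_const_mul,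
    intervalIntegral.integral_finsetSum]
  intro j _
  exact RR_inner_int hab (hF j)

theorem one_sub_exp_ge {x : ℝ} (h0 : 0 < x) (h1 : x ≤ 1 / 4) : x ≤ 1 - Real.exp (-2 * x) := by
  have h2 : 1 + 2 * x ≤ Real.exp (2 * x) := by
    have := Real.add_one_le_exp (2 * x)
    linarith only [this]
  have h3 : Real.exp (-2 * x) = (Real.exp (2 * x))⁻¹ := by
    rw [← Real.exp_neg]
    congr 1
    ring
  have h4 : (Real.exp (2 * x))⁻¹ ≤ (1 + 2 * x)⁻¹ := inv_anti₀ (by (clear * - h0; positivity)) h2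
  have h5 : (1 + 2 * x)⁻¹ ≤ 1 - x := by
    rw [inv_le_iff_one_le_mul₀ (by positivity)]
    (clear * - h0 h1; nlinarith only [h0, h1])
  rw [h3]
  linarith

/-- the inequality of one level: entropy and the inequality of the targets -/
theorem level {κ dl CE C C₀ ε s n x : ℝ} {β : ℂ → ℂ} {R : ℝ} (h : ExtR β R) {w : ℂ → ℂ}
    (hκ : 1 ≤ κ) (hw : ContinuousOn w {z | 0 < ‖z‖ ∧ ‖z‖ < 1}) {u : ℝ → ℝ} (cu : Continuous u)
    (u0 : ∀ θ, 0 ≤ u θ) (us : ∀ θ ∈ Icc (-π) π, u θ ≠ 0 → |θ| ≤ s) (hx : 0 < x)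
    (hx4 : x ≤ 1 / 4) {Mx : ℝ → ℝ} (cM : Continuous Mx) {m : ℝ}
    (hm : m = (2 * π)⁻¹ * ∫ θ in (-π)..π, u θ * FF κ β x θ) (hm0 : 0 < m)
    (hE : m * Real.log m ≤ m * (Real.log (1 - Real.exp (-2 * x)) + CE) +
      (2 * π)⁻¹ * ∫ θ in (-π)..π, u θ * FF κ β x θ *
        (Kf w (Complex.exp (θ * I)) (-1) (-x) - κ * Real.log ‖N β (ep (-x) θ)‖))
    (hP : ∀ θ, |θ| ≤ s → Kf w (Complex.exp (θ * I)) (-1) (-x) ≤
      κ * Real.log (‖N β (ep (-x) θ)‖ / (1 - Real.exp (-2 * x))) +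
        Mx θ + C + (dl + ε) * (-Real.log x) + C₀ * (-Real.log x - n)) :
    m * Real.log m ≤ m * ((κ - 1) * (-Real.log x) + CE + C + (dl + ε) * (-Real.log x) +
      C₀ * (-Real.log x - n)) + (2 * π)⁻¹ * ∫ θ in (-π)..π, u θ * FF κ β x θ * Mx θ := by
  have hpi := Real.pi_pos
  have hge := one_sub_exp_ge hx hx4
  have h1e : 0 < 1 - Real.exp (-2 * x) := hx.trans_le hge
  have cF := FF_cont_th κ h hx
  have cK : Continuous fun θ : ℝ => Kf w (Complex.exp (θ * I)) (-1) (-x) :=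
    Pool.Agent.Helper26.EK.Kf_cont hw (by (clear * - hx4; linarith only [hx4])) (by (clear * - hx; linarith))
  have cN := N_comp_cont h hx
  obtain ⟨c, hc⟩ : ∃ c : ℝ, c = -κ * Real.log (1 - Real.exp (-2 * x)) + C +
    (dl + ε) * (-Real.log x) + C₀ * (-Real.log x - n) := ⟨_, rfl⟩
  have hint : ∫ θ in (-π)..π, u θ * FF κ β x θ *
        (Kf w (Complex.exp (θ * I)) (-1) (-x) - κ * Real.log ‖N β (ep (-x) θ)‖) ≤
      ∫ θ in (-π)..π, (c * (u θ * FF κ β x θ) + u θ * FF κ β x θ * Mx θ) := by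
    refine intervalIntegral.integral_mono_on (by linarith only [hpi]) ?_ ?_ ?_
    · exact ((cu.mul cF).mul (cK.sub (continuous_const.mul cN))).intervalIntegrable _ _
    · exact ((continuous_const.mul (cu.mul cF)).add ((cu.mul cF).mul cM)).intervalIntegrable _ _
    · intro θ hθ
      by_cases hu : u θ = 0
      · simp [hu]
      · have h1 := hP θ (us θ hθ hu)
        have hNpos : 0 < ‖N β (ep (-x) θ)‖ := by
          refine norm_pos_iff.2 (h.ne _ ?_)
          rw [mem_ball_zero_iff, norm_ep]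
          have : Real.exp (-x) < 1 := by
            rw [Real.exp_lt_one_iff]
            linarith only [hx]
          exact this.trans h.one_lt
        rw [Real.log_div hNpos.ne' h1e.ne'] at h1
        have h2 : Kf w (Complex.exp (θ * I)) (-1) (-x) - κ * Real.log ‖N β (ep (-x) θ)‖ ≤
            c + Mx θ := by
          rw [hc]
          linarith only [h1]
        have h3 : 0 ≤ u θ * FF κ β x θ := mul_nonneg (u0 θ) (FF_pos κ h hx θ).le
        calc _ ≤ u θ * FF κ β x θ * (c + Mx θ) := mul_le_mul_of_nonneg_left h2 h3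
          _ = _ := by ring
  have hi1 : IntervalIntegrable (fun θ => c * (u θ * FF κ β x θ)) volume (-π) π :=
    (continuous_const.mul (cu.mul cF)).intervalIntegrable _ _
  have hi2 : IntervalIntegrable (fun θ => u θ * FF κ β x θ * Mx θ) volume (-π) π :=
    ((cu.mul cF).mul cM).intervalIntegrable _ _
  rw [intervalIntegral.integral_add hi1 hi2, intervalIntegral.integral_const_mul] at hint
  have h4 : (2 * π)⁻¹ * ∫ θ in (-π)..π, u θ * FF κ β x θ *
        (Kf w (Complex.exp (θ * I)) (-1) (-x) - κ * Real.log ‖N β (ep (-x) θ)‖) ≤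
      c * m + (2 * π)⁻¹ * ∫ θ in (-π)..π, u θ * FF κ β x θ * Mx θ := by
    refine (mul_le_mul_of_nonneg_left hint (by positivity)).trans (le_of_eq ?_)
    rw [hm]
    ring
  have h5 : Real.log x ≤ Real.log (1 - Real.exp (-2 * x)) := Real.log_le_log hx hge
  have h6 : (1 - κ) * Real.log (1 - Real.exp (-2 * x)) ≤ (κ - 1) * (-Real.log x) := by
    (clear * - hκ h5; nlinarith only [hκ, h5])
  have h7 := mul_le_mul_of_nonneg_left h6 hm0.le
  rw [hc] at h4
  linarith only [h4, h7, hE]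

end Pool.Agent.Helper52.CK

end

section

set_option autoImplicit false

open MeasureTheory Set Filter

open scoped Real Topology ContDiff

namespace Pool.Agent.Helper96.CK

/-- the weight of the window around `N` -/
noncomputable def wt (γ δ ε N : ℝ) (χ : ℝ → ℝ) (l : ℝ) : ℝ :=
  Real.exp (-(γ * l) - δ * Real.sqrt (1 + (l - N) ^ 2)) * χ ((l - N) / (ε * N))

lemma sqrt_hasDeriv (N l : ℝ) :
    HasDerivAt (fun l : ℝ => Real.sqrt (1 + (l - N) ^ 2))
      ((l - N) / Real.sqrt (1 + (l - N) ^ 2)) l := by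
  have h1 : HasDerivAt (fun l : ℝ => 1 + (l - N) ^ 2) (2 * (l - N)) l := by
    have := ((hasDerivAt_id l).sub_const N).pow 2
    simp only [id] at this
    have h := this.const_add 1
    refine h.congr_deriv ?_
    simp
  have h2 : (1 + (l - N) ^ 2) ≠ 0 := by (clear * -; positivity)
  have h3 := h1.sqrt h2
  refine h3.congr_deriv ?_
  have : Real.sqrt (1 + (l - N) ^ 2) ≠ 0 := by (clear * -; positivity)
  field_simp

lemma wt_hasDeriv {γ δ ε N : ℝ} {χ : ℝ → ℝ} (hχ : Differentiable ℝ χ) (l : ℝ) :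
    HasDerivAt (wt γ δ ε N χ)
      ((-γ - δ * ((l - N) / Real.sqrt (1 + (l - N) ^ 2))) * wt γ δ ε N χ l +
        Real.exp (-(γ * l) - δ * Real.sqrt (1 + (l - N) ^ 2)) *
          (deriv χ ((l - N) / (ε * N)) / (ε * N))) l := by
  have h1 : HasDerivAt (fun l : ℝ => -(γ * l) - δ * Real.sqrt (1 + (l - N) ^ 2))
      (-γ - δ * ((l - N) / Real.sqrt (1 + (l - N) ^ 2))) l := by
    have a := ((hasDerivAt_id l).const_mul γ).neg
    have b := (sqrt_hasDeriv N l).const_mul δ
    have c := a.sub b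
    refine c.congr_deriv ?_
    simp
  have h2 := h1.exp
  have h3 : HasDerivAt (fun l : ℝ => (l - N) / (ε * N)) (1 / (ε * N)) l :=
    ((hasDerivAt_id l).sub_const N).div_const (ε * N)
  have h4 : HasDerivAt (fun l : ℝ => χ ((l - N) / (ε * N)))
      (deriv χ ((l - N) / (ε * N)) * (1 / (ε * N))) l :=
    (hχ ((l - N) / (ε * N))).hasDerivAt.comp l h3
  have h5 := h2.mul h4
  refine h5.congr_deriv ?_
  unfold wt
  ring

lemma wt_contDiff {γ δ ε N : ℝ} {χ : ℝ → ℝ} (hχ : ContDiff ℝ ∞ χ) :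
    ContDiff ℝ ∞ (wt γ δ ε N χ) := by
  unfold wt
  have h1 : ContDiff ℝ ∞ (fun l : ℝ => Real.sqrt (1 + (l - N) ^ 2)) := by
    refine ContDiff.sqrt (by fun_prop) fun l => ?_
    positivity
  have h2 : ContDiff ℝ ∞ (fun l : ℝ => χ ((l - N) / (ε * N))) :=
    hχ.comp (by fun_prop)
  have h3 : ContDiff ℝ ∞ (fun l : ℝ => -(γ * l) - δ * Real.sqrt (1 + (l - N) ^ 2)) :=
    (contDiff_const.mul contDiff_id).neg.sub (contDiff_const.mul h1)
  exact (Real.contDiff_exp.comp h3).mul h2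

lemma abs_slope (N l : ℝ) : |(l - N) / Real.sqrt (1 + (l - N) ^ 2)| ≤ 1 := by
  rw [abs_div, abs_of_nonneg (Real.sqrt_nonneg _)]
  rw [div_le_one (by (clear * -; positivity))]
  exact Real.abs_le_sqrt (by linarith only [])

lemma abs_le_sqrt' (N l : ℝ) : |l - N| ≤ Real.sqrt (1 + (l - N) ^ 2) :=
  Real.abs_le_sqrt (by (clear * -; linarith only []))

/-- pointwise bound for the derivative of the weight -/
lemma wt_deriv_le {γ δ ε N D : ℝ} {χ : ℝ → ℝ} (hγ : 0 ≤ γ) (hδ : 0 ≤ δ) (hε : 0 < ε) (hN : 0 < N)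
    (hχ : Differentiable ℝ χ) (hχ0 : ∀ x, 0 ≤ χ x) (hD : ∀ x, |deriv χ x| ≤ D)
    (hin : ∀ x, |x| < 1 / 2 → deriv χ x = 0) (l : ℝ) :
    |deriv (wt γ δ ε N χ) l| ≤ (γ + δ) * wt γ δ ε N χ l +
      Real.exp (-(γ * l) - δ * (ε * N / 2)) * (D / (ε * N)) := by
  have hD0 : 0 ≤ D := (abs_nonneg _).trans (hD 0)
  rw [(wt_hasDeriv hχ l).deriv]
  have hw : 0 ≤ wt γ δ ε N χ l := mul_nonneg (Real.exp_pos _).le (hχ0 _)
  refine (abs_add_le _ _).trans (add_le_add ?_ ?_)
  · rw [abs_mul, abs_of_nonneg hw]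
    refine mul_le_mul_of_nonneg_right ?_ hw
    refine (abs_sub _ _).trans ?_
    rw [abs_neg, abs_of_nonneg hγ, abs_mul, abs_of_nonneg hδ]
    have := abs_slope N l
    (clear * - hδ this; nlinarith)
  · rw [abs_mul, abs_of_nonneg (Real.exp_pos _).le, abs_div, abs_of_pos (mul_pos hε hN)]
    by_cases hx : |(l - N) / (ε * N)| < 1 / 2
    · rw [hin _ hx]
      simp only [abs_zero, zero_div, mul_zero]
      positivity
    · push Not at hx
      rw [abs_div, abs_of_pos (mul_pos hε hN), le_div_iff₀ (mul_pos hε hN)] at hx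
      have h1 := abs_le_sqrt' N l
      refine mul_le_mul ?_ ?_ (by positivity) (Real.exp_pos _).le
      · refine Real.exp_le_exp.mpr ?_
        have : δ * (ε * N / 2) ≤ δ * Real.sqrt (1 + (l - N) ^ 2) :=
          mul_le_mul_of_nonneg_left (by linarith only [hx, h1]) hδ
        (clear * - this; linarith)
      · exact div_le_div_of_nonneg_right (hD _) (mul_pos hε hN).le

end Pool.Agent.Helper96.CK

namespace Pool.Agent.Helper96.CK

end Pool.Agent.Helper96.CK

end

section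

set_option autoImplicit false

open MeasureTheory Set Filter

open scoped Real Topology ContDiff

namespace Pool.Agent.Helper96.CK

/-- the pointwise form of Jensen's inequality -/
lemma pointwise_log {a g w γ l : ℝ} (ha : 0 < a) (hw0 : 0 ≤ w) (hw : w ≤ Real.exp (-(γ * l))) :
    Real.exp g * w * (Real.log a + 1 + γ * l) - a ≤ Real.exp g * w * g := by
  rcases hw0.eq_or_lt with h | h
  · rw [← h]; simp [ha.le]
  · set F := Real.exp g * w with hF
    have hF0 : 0 < F := mul_pos (Real.exp_pos _) h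
    have h1 : Real.log F ≤ g - γ * l := by
      rw [hF, Real.log_mul (Real.exp_pos _).ne' h.ne', Real.log_exp]
      have : Real.log w ≤ -(γ * l) := by
        rw [Real.log_le_iff_le_exp h]; exact hw
      linarith only [this]
    have h2 : Real.log (a / F) ≤ a / F - 1 := Real.log_le_sub_one_of_pos (div_pos ha hF0)
    rw [Real.log_div ha.ne' hF0.ne'] at h2
    have h3 : F * (Real.log a - Real.log F) ≤ F * (a / F - 1) :=
      mul_le_mul_of_nonneg_left h2 hF0.le
    have h4 : F * (a / F - 1) = a - F := by (clear * - hF0; field_simp)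
    rw [h4] at h3
    have h5 : F * Real.log F ≤ F * (g - γ * l) := mul_le_mul_of_nonneg_left h1 hF0.le
    linarith only [h3, h5]

section window

variable {ι : Type*} {G : ι → ℝ → ℝ} {A : ℝ}

lemma G_cont (hL : ∀ i l l', 0 ≤ l → 0 ≤ l' → |G i l - G i l'| ≤ A * |l - l'|) (i : ι) :
    ContinuousOn (G i) (Ici 0) := by
  have h : LipschitzOnWith (Real.toNNReal A) (G i) (Ici 0) := by
    refine LipschitzOnWith.of_dist_le_mul fun x hx y hy => ?_
    rw [Real.dist_eq, Real.dist_eq]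
    refine (hL i x y hx hy).trans ?_
    refine mul_le_mul_of_nonneg_right ?_ (abs_nonneg _)
    exact Real.le_coe_toNNReal A
  exact h.continuousOn

/-- lower bound for the integral of `F G` -/
lemma lower_int {n γ : ℝ} (hn : 1 ≤ n) (hγ : 0 ≤ γ)
    (hL : ∀ i l l', 0 ≤ l → 0 ≤ l' → |G i l - G i l'| ≤ A * |l - l'|) (i : ι)
    {w : ℝ → ℝ} (hw : Continuous w) (hw0 : ∀ l, 0 ≤ w l)
    (hwe : ∀ l, w l ≤ Real.exp (-(γ * l)))
    (hJ : 0 < ∫ l in n..(2 * n), Real.exp (G i l) * w l) :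
    (∫ l in n..(2 * n), Real.exp (G i l) * w l) *
        (Real.log (∫ l in n..(2 * n), Real.exp (G i l) * w l) - Real.log n + γ * n) ≤
      ∫ l in n..(2 * n), Real.exp (G i l) * w l * G i l := by
  set J := ∫ l in n..(2 * n), Real.exp (G i l) * w l with hJdef
  have hn0 : 0 < n := by linarith only [hn]
  have hle : n ≤ 2 * n := by linarith only [hn0]
  have hsub : Set.uIcc n (2 * n) ⊆ Ici 0 := by
    rw [Set.uIcc_of_le hle]
    intro x hx
    exact le_trans hn0.le hx.1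
  have cG : ContinuousOn (G i) (Set.uIcc n (2 * n)) := (G_cont hL i).mono hsub
  have cF : ContinuousOn (fun l => Real.exp (G i l) * w l) (Set.uIcc n (2 * n)) :=
    (cG.rexp).mul hw.continuousOn
  have iF : IntervalIntegrable (fun l => Real.exp (G i l) * w l) volume n (2 * n) :=
    cF.intervalIntegrable
  have cl : ContinuousOn (fun l : ℝ => l) (Set.uIcc n (2 * n)) := continuousOn_id
  have h1 : ∫ l in n..(2 * n), (Real.exp (G i l) * w l * (Real.log (J / n) + 1 + γ * n) - J / n) ≤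
      ∫ l in n..(2 * n), Real.exp (G i l) * w l * G i l := by
    refine intervalIntegral.integral_mono_on hle ?_ ?_ ?_
    · exact ((cF.mul continuousOn_const).sub continuousOn_const).intervalIntegrable
    · exact (cF.mul cG).intervalIntegrable
    · intro l hl
      have h2 := pointwise_log (g := G i l) (div_pos hJ hn0) (hw0 l) (hwe l)
      have h3 : 0 ≤ Real.exp (G i l) * w l := mul_nonneg (Real.exp_pos _).le (hw0 l)
      have h4 : γ * n ≤ γ * l := mul_le_mul_of_nonneg_left hl.1 hγ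
      nlinarith only [h2, h3, h4]
  have h2 : ∫ l in n..(2 * n), (Real.exp (G i l) * w l * (Real.log (J / n) + 1 + γ * n) - J / n) =
      J * (Real.log (J / n) + 1 + γ * n) - J := by
    rw [intervalIntegral.integral_sub (iF.mul_const _) (by simp), intervalIntegral.integral_mul_const,
      intervalIntegral.integral_const, smul_eq_mul]
    congr 1
    field_simp
    ring
  rw [h2, Real.log_div hJ.ne' hn0.ne'] at h1
  linarith only [h1]

end window

end Pool.Agent.Helper96.CK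

end

section

set_option autoImplicit false

open MeasureTheory Set Filter

open scoped Real Topology ContDiff

namespace Pool.Agent.Helper96.CK

section window

variable {ι : Type*} {G : ι → ℝ → ℝ} {A : ℝ}

lemma upper_int1 {n N ε ε₁ C₀ C₁ : ℝ} (hn : 1 ≤ n) (hN : n = (1 - ε) * N) (hC₀ : 0 ≤ C₀)
    (hL : ∀ i l l', 0 ≤ l → 0 ≤ l' → |G i l - G i l'| ≤ A * |l - l'|) (i : ι)
    {w : ℝ → ℝ} (hw : Continuous w) (hw0 : ∀ l, 0 ≤ w l)
    (hws : ∀ l, (1 + ε) * N < l → w l = 0) :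
    (∫ l in n..(2 * n), Real.exp (G i l) * w l * (C₁ + ε₁ * n + C₀ * (l - n))) ≤
      (∫ l in n..(2 * n), Real.exp (G i l) * w l) * (C₁ + ε₁ * n + C₀ * (2 * ε * N)) := by
  have hn0 : 0 < n := by (clear * - hn; linarith only [hn])
  have hle : n ≤ 2 * n := by (clear * - hn0; linarith only [hn0])
  have hsub : Set.uIcc n (2 * n) ⊆ Ici 0 := by
    rw [Set.uIcc_of_le hle]
    intro x hx
    exact le_trans hn0.le hx.1
  have cG : ContinuousOn (G i) (Set.uIcc n (2 * n)) := (G_cont hL i).mono hsub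
  have cF : ContinuousOn (fun l => Real.exp (G i l) * w l) (Set.uIcc n (2 * n)) :=
    (cG.rexp).mul hw.continuousOn
  rw [← intervalIntegral.integral_mul_const]
  refine intervalIntegral.integral_mono_on hle ?_ ?_ ?_
  · exact (cF.mul (by fun_prop)).intervalIntegrable
  · exact (cF.mul continuousOn_const).intervalIntegrable
  · intro l hl
    by_cases h : (1 + ε) * N < l
    · simp [hws l h]
    · push Not at h
      refine mul_le_mul_of_nonneg_left ?_ (mul_nonneg (Real.exp_pos _).le (hw0 l))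
      have : C₀ * (l - n) ≤ C₀ * (2 * ε * N) := by
        refine mul_le_mul_of_nonneg_left ?_ hC₀
        rw [hN]; (clear * - h; linarith only [h])
      linarith

lemma upper_int2 {n N γ δ ε D K : ℝ} (hn : 1 ≤ n) (hN : n ≤ N) (hε : 0 < ε) (hD : 0 ≤ D)
    (hL : ∀ i l l', 0 ≤ l → 0 ≤ l' → |G i l - G i l'| ≤ A * |l - l'|) (i : ι)
    (hK : ∀ l, 0 ≤ l → G i l ≤ K + (γ + δ ^ 2) * l)
    {w : ℝ → ℝ} (hw : ContDiff ℝ ∞ w)
    (hwd : ∀ l, |deriv w l| ≤ (γ + δ) * w l +
      Real.exp (-(γ * l) - δ * (ε * N / 2)) * (D / (ε * N))) :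
    (∫ l in n..(2 * n), Real.exp (G i l) * |deriv w l|) ≤
      (γ + δ) * (∫ l in n..(2 * n), Real.exp (G i l) * w l) +
        D / ε * Real.exp (K + 2 * δ ^ 2 * N - δ * (ε * N / 2)) := by
  have hn0 : 0 < n := by (clear * - hn; linarith)
  have hN0 : 0 < N := by (clear * - hn hN; linarith only [hn, hN])
  have hle : n ≤ 2 * n := by linarith
  have hsub : Set.uIcc n (2 * n) ⊆ Ici 0 := by
    rw [Set.uIcc_of_le hle]
    intro x hx
    exact le_trans hn0.le hx.1
  have cG : ContinuousOn (G i) (Set.uIcc n (2 * n)) := (G_cont hL i).mono hsub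
  have cF : ContinuousOn (fun l => Real.exp (G i l) * w l) (Set.uIcc n (2 * n)) :=
    (cG.rexp).mul hw.continuous.continuousOn
  have cd : Continuous (deriv w) := hw.continuous_deriv (by simp)
  have h1 : (∫ l in n..(2 * n), Real.exp (G i l) * |deriv w l|) ≤
      ∫ l in n..(2 * n), ((γ + δ) * (Real.exp (G i l) * w l) +
        Real.exp (K + 2 * δ ^ 2 * N - δ * (ε * N / 2)) * (D / (ε * N))) := by
    refine intervalIntegral.integral_mono_on hle ?_ ?_ ?_
    · exact ((cG.rexp).mul cd.abs.continuousOn).intervalIntegrable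
    · exact ((continuousOn_const.mul cF).add continuousOn_const).intervalIntegrable
    · intro l hl
      have h2 := mul_le_mul_of_nonneg_left (hwd l) (Real.exp_pos (G i l)).le
      have h3 : Real.exp (G i l) * (Real.exp (-(γ * l) - δ * (ε * N / 2)) * (D / (ε * N))) ≤
          Real.exp (K + 2 * δ ^ 2 * N - δ * (ε * N / 2)) * (D / (ε * N)) := by
        rw [← mul_assoc, ← Real.exp_add]
        refine mul_le_mul_of_nonneg_right (Real.exp_le_exp.mpr ?_) (by (clear * - hD hε hN0; positivity))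
        have h4 := hK l (by (clear * - hn hl; linarith [hl.1]))
        have h5 : δ ^ 2 * l ≤ δ ^ 2 * (2 * N) :=
          mul_le_mul_of_nonneg_left (by linarith only [hl.2, hN]) (sq_nonneg δ)
        (clear * - h4 h5; linarith)
      calc _ ≤ _ := h2
        _ = (γ + δ) * (Real.exp (G i l) * w l) + Real.exp (G i l) *
            (Real.exp (-(γ * l) - δ * (ε * N / 2)) * (D / (ε * N))) := by ring
        _ ≤ _ := by linarith only [h3]
  refine h1.trans ?_
  have i1 : IntervalIntegrable (fun l => (γ + δ) * (Real.exp (G i l) * w l)) volume n (2 * n) :=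
    (continuousOn_const.mul cF).intervalIntegrable
  rw [intervalIntegral.integral_add i1 (by simp),
    intervalIntegral.integral_const_mul, intervalIntegral.integral_const, smul_eq_mul]
  refine add_le_add le_rfl ?_
  have h6 : (2 * n - n) * (Real.exp (K + 2 * δ ^ 2 * N - δ * (ε * N / 2)) * (D / (ε * N))) =
      D / ε * Real.exp (K + 2 * δ ^ 2 * N - δ * (ε * N / 2)) * (n / N) := by
    field_simp
    ring
  rw [h6]
  have h7 : n / N ≤ 1 := by rw [div_le_one hN0]; exact hN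
  have h8 : 0 ≤ D / ε * Real.exp (K + 2 * δ ^ 2 * N - δ * (ε * N / 2)) := by (clear * - hD hε; positivity)
  (clear * - h7 h8; nlinarith only [h7, h8])

/-- lower bound for the maximum -/
lemma low_J {n N γ δ ε : ℝ} {χ : ℝ → ℝ} (hε : 0 < ε) (hε3 : ε ≤ 1 / 3) (hεN : 2 ≤ ε * N)
    (hn : n = (1 - ε) * N) (hγ : 0 ≤ γ) (hδ : 0 ≤ δ) (hA : 0 ≤ A)
    (hL : ∀ i l l', 0 ≤ l → 0 ≤ l' → |G i l - G i l'| ≤ A * |l - l'|) (i : ι)
    (hχ : ContDiff ℝ ∞ χ) (hχ0 : ∀ x, 0 ≤ χ x) (hχ1 : ∀ x, |x| ≤ 1 / 2 → χ x = 1)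
    (hG : (γ - δ ^ 2) * N ≤ G i N) :
    2 * Real.exp (-(δ ^ 2 * N) - (A + γ + 2 * δ)) ≤
      ∫ l in n..(2 * n), Real.exp (G i l) * wt γ δ ε N χ l := by
  have hN6 : 6 ≤ N := by (clear * - hε3 hεN hε; nlinarith only [hε, hε3, hεN])
  have hN0 : 0 < N := by linarith only [hN6]
  have hnN : n ≤ N - 1 := by rw [hn]; (clear * - hεN; linarith only [hεN])
  have hn2 : N + 1 ≤ 2 * n := by rw [hn]; (clear * - hε3 hεN hε; nlinarith only [hε, hε3, hεN])
  have hn1 : 1 ≤ n := by linarith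
  have hn0 : 0 < n := by linarith only [hn1]
  have hle : n ≤ 2 * n := by linarith only [hn0]
  have hsub : Set.Icc n (2 * n) ⊆ Ici 0 := by
    intro x hx
    exact le_trans hn0.le hx.1
  have hw := wt_contDiff (γ := γ) (δ := δ) (ε := ε) (N := N) hχ
  have hw0 : ∀ l, 0 ≤ wt γ δ ε N χ l := fun l => mul_nonneg (Real.exp_pos _).le (hχ0 _)
  have cF : ContinuousOn (fun l => Real.exp (G i l) * wt γ δ ε N χ l) (Set.Icc n (2 * n)) :=
    ((G_cont hL i).mono hsub).rexp.mul hw.continuous.continuousOn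
  have iF : ∀ a b, n ≤ a → a ≤ b → b ≤ 2 * n → IntervalIntegrable
      (fun l => Real.exp (G i l) * wt γ δ ε N χ l) volume a b := by
    intro a b h1 h2 h3
    refine ContinuousOn.intervalIntegrable (cF.mono ?_)
    rw [Set.uIcc_of_le h2]
    exact Set.Icc_subset_Icc h1 h3
  have hF0 : ∀ l, 0 ≤ Real.exp (G i l) * wt γ δ ε N χ l := fun l =>
    mul_nonneg (Real.exp_pos _).le (hw0 l)
  rw [← intervalIntegral.integral_add_adjacent_intervals
    (iF n (N - 1) le_rfl hnN (by (clear * - hn2; linarith only [hn2]))) (iF (N - 1) (2 * n) hnN (by (clear * - hn2; linarith only [hn2])) le_rfl),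
    ← intervalIntegral.integral_add_adjacent_intervals
    (iF (N - 1) (N + 1) hnN (by linarith only []) hn2) (iF (N + 1) (2 * n) (by linarith) hn2 le_rfl)]
  have h1 : 0 ≤ ∫ l in n..(N - 1), Real.exp (G i l) * wt γ δ ε N χ l :=
    intervalIntegral.integral_nonneg hnN fun l _ => hF0 l
  have h2 : 0 ≤ ∫ l in (N + 1)..(2 * n), Real.exp (G i l) * wt γ δ ε N χ l :=
    intervalIntegral.integral_nonneg hn2 fun l _ => hF0 l
  have h3 : ∫ _l in (N - 1)..(N + 1), Real.exp (-(δ ^ 2 * N) - (A + γ + 2 * δ)) ≤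
      ∫ l in (N - 1)..(N + 1), Real.exp (G i l) * wt γ δ ε N χ l := by
    refine intervalIntegral.integral_mono_on (by (clear * -; linarith only [])) (by simp)
      (iF (N - 1) (N + 1) hnN (by linarith only []) hn2) ?_
    intro l hl
    have ha : |l - N| ≤ 1 := abs_le.mpr ⟨by linarith only [hl.1], by (clear * - hl; linarith [hl.2])⟩
    have hx : |(l - N) / (ε * N)| ≤ 1 / 2 := by
      rw [abs_div, abs_of_pos (by positivity : 0 < ε * N), div_le_iff₀ (by positivity)]
      linarith only [hεN, ha]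
    have hs : Real.sqrt (1 + (l - N) ^ 2) ≤ 2 := by
      rw [Real.sqrt_le_left (by norm_num)]
      have : (l - N) ^ 2 ≤ 1 := by
        rw [← sq_abs]; (clear * - ha; nlinarith only [abs_nonneg (l - N), ha])
      linarith only [this]
    unfold wt
    rw [hχ1 _ hx, mul_one, ← Real.exp_add]
    refine Real.exp_le_exp.mpr ?_
    have hb := hL i l N (by (clear * - hl hN6; linarith only [hl.1, hN6])) hN0.le
    have hc : G i N - A ≤ G i l := by
      have := (abs_le.mp hb).1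
      (clear * - this hA ha; nlinarith only [hA, ha, this])
    have hd : γ * l ≤ γ * (N + 1) := mul_le_mul_of_nonneg_left hl.2 hγ
    have he : δ * Real.sqrt (1 + (l - N) ^ 2) ≤ δ * 2 := mul_le_mul_of_nonneg_left hs hδ
    linarith only [hG, hc, hd, he]
  have h4 : ∫ _l in (N - 1)..(N + 1), Real.exp (-(δ ^ 2 * N) - (A + γ + 2 * δ)) =
      2 * Real.exp (-(δ ^ 2 * N) - (A + γ + 2 * δ)) := by
    rw [intervalIntegral.integral_const, smul_eq_mul]
    ring
  linarith only [h1, h2, h3, h4]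

end window

end Pool.Agent.Helper96.CK

end

section

set_option autoImplicit false

open MeasureTheory Set Filter

open scoped Real Topology ContDiff

namespace Pool.Agent.Helper96.CK

/-- a smooth bump with bounded derivative -/
lemma exists_bump : ∃ (χ : ℝ → ℝ) (D : ℝ), ContDiff ℝ ∞ χ ∧ (∀ x, 0 ≤ χ x) ∧
    (∀ x, |x| ≤ 1 / 2 → χ x = 1) ∧ (∀ x, χ x ≤ 1) ∧ (∀ x, 1 ≤ |x| → χ x = 0) ∧
    (∀ x, |deriv χ x| ≤ D) ∧ ∀ x, |x| < 1 / 2 → deriv χ x = 0 := by
  let f : ContDiffBump (0:ℝ) := ⟨1 / 2, 1, by norm_num, by norm_num⟩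
  have hc : ContDiff ℝ ∞ (f : ℝ → ℝ) := f.contDiff
  have hcd : Continuous (deriv (f : ℝ → ℝ)) := hc.continuous_deriv (by simp)
  have hcs : HasCompactSupport (deriv (f : ℝ → ℝ)) := f.hasCompactSupport.deriv
  obtain ⟨D, hD⟩ := hcs.exists_bound_of_continuous hcd
  refine ⟨f, D, hc, fun x => f.nonneg, fun x hx => ?_, fun x => f.le_one, fun x hx => ?_,
    fun x => ?_, fun x hx => ?_⟩
  · refine f.one_of_mem_closedBall ?_
    rw [mem_closedBall_zero_iff, Real.norm_eq_abs]
    exact hx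
  · refine f.zero_of_le_dist ?_
    rw [dist_zero_right, Real.norm_eq_abs]
    exact hx
  · have := hD x
    rwa [Real.norm_eq_abs] at this
  · have h1 : (f : ℝ → ℝ) =ᶠ[𝓝 x] fun _ => (1:ℝ) := by
      have : Metric.ball (0:ℝ) (1 / 2) ∈ 𝓝 x := by
        refine Metric.isOpen_ball.mem_nhds ?_
        rw [mem_ball_zero_iff, Real.norm_eq_abs]
        exact hx
      filter_upwards [this] with y hy
      exact f.one_of_mem_closedBall (Metric.ball_subset_closedBall hy)
    rw [h1.deriv_eq]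
    simp

end Pool.Agent.Helper96.CK

end

section

set_option autoImplicit false

open MeasureTheory Set Filter

open scoped Real Topology ContDiff

namespace Pool.Agent.Helper96.CK

/-- the real inequality at the end of the proof -/
lemma arith_end2 {J Rm n N γ δ ε ε₁ θ C₀ C₁ B₁ η S : ℝ} (hJ : 0 < J) (hN : 1 ≤ N)
    (hn : n = (1 - ε) * N) (hn1 : 1 ≤ n) (hγ : 0 ≤ γ) (hδ : 0 ≤ δ) (hε : 0 ≤ ε) (hε₁ : 0 ≤ ε₁) (hθ : 0 ≤ θ)
    (hC₁ : 0 ≤ C₁)
    (hJl : Real.exp (-(δ ^ 2 * N) - B₁) ≤ J) (hη : η ≤ Real.exp (-(δ ^ 2 * N) - B₁))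
    (hRm : Rm ≤ J * S)
    (h : J * (Real.log J - Real.log n + γ * n) ≤
      J * (C₁ + ε₁ * n + C₀ * (2 * ε * N)) + (θ * n + C₁) * ((γ + δ) * J + Rm) + η) :
    N * (γ * (1 - ε) - δ ^ 2 - ε₁ - 2 * C₀ * ε - θ * (γ + δ)) ≤
      C₁ + B₁ + Real.log N + C₁ * (γ + δ) + 1 + (θ * N + C₁) * max S 0 := by
  have hnN : n ≤ N := by rw [hn]; nlinarith only [hN, hε]
  have hlogJ : -(δ ^ 2 * N) - B₁ ≤ Real.log J := by
    rw [Real.le_log_iff_exp_le hJ]; exact hJl
  have hlogn : Real.log n ≤ Real.log N := Real.log_le_log (by (clear * - hn1; linarith only [hn1])) hnN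
  have h0 : 0 ≤ θ * n + C₁ := by (clear * - hθ hn1 hC₁; positivity)
  have h1 : (θ * n + C₁) * ((γ + δ) * J + Rm) ≤ J * ((θ * n + C₁) * ((γ + δ) + max S 0)) := by
    have : (γ + δ) * J + Rm ≤ J * ((γ + δ) + max S 0) := by
      have : J * S ≤ J * max S 0 := mul_le_mul_of_nonneg_left (le_max_left _ _) hJ.le
      linarith only [hRm, this]
    calc _ ≤ (θ * n + C₁) * (J * ((γ + δ) + max S 0)) := mul_le_mul_of_nonneg_left this h0
      _ = _ := by ring
  have h2 : η ≤ J * 1 := by (clear * - hJl hη; linarith only [hJl, hη])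
  have h3 : J * (Real.log J - Real.log n + γ * n) ≤
      J * (C₁ + ε₁ * n + C₀ * (2 * ε * N) + (θ * n + C₁) * ((γ + δ) + max S 0) + 1) := by
    linarith only [h, h1, h2]
  have h4 := le_of_mul_le_mul_left h3 hJ
  have hm : 0 ≤ max S 0 := le_max_right _ _
  have h5 : (θ * n + C₁) * ((γ + δ) + max S 0) ≤ (θ * N + C₁) * ((γ + δ) + max S 0) := by
    refine mul_le_mul_of_nonneg_right ?_ (by (clear * - hγ hδ; positivity))
    nlinarith only [hθ, hnN]
  have h6 : ε₁ * n ≤ ε₁ * N := mul_le_mul_of_nonneg_left hnN hε₁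
  have h7 : γ * n = γ * (1 - ε) * N := by rw [hn]; ring
  (clear * - hlogJ hlogn h4 h5 h6 h7; linarith only [hlogJ, hlogn, h4, h5, h6, h7])

/-- one window: the inequality which will be violated for large `N` -/
lemma one_window2 {ι : Type*} {G : ι → ℝ → ℝ} {A θ C₀ C₁ K γ δ ε ε₁ D N : ℝ} {χ : ℝ → ℝ}
    (hA0 : 0 ≤ A)
    (hL : ∀ i l l', 0 ≤ l → 0 ≤ l' → |G i l - G i l'| ≤ A * |l - l'|)
    (hε₁ : 0 ≤ ε₁) (hθ0 : 0 ≤ θ) (hC₀ : 0 ≤ C₀) (hC₁ : 0 ≤ C₁) (hγ : 0 ≤ γ)
    (hδ : δ = ε / 12) (hε : 0 < ε) (hε3 : ε ≤ 1 / 3) (hεN : 2 ≤ ε * N)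
    (hχ : ContDiff ℝ ∞ χ) (hχ0 : ∀ x, 0 ≤ χ x) (hχ1 : ∀ x, |x| ≤ 1 / 2 → χ x = 1)
    (hχle : ∀ x, χ x ≤ 1) (hχs : ∀ x, 1 ≤ |x| → χ x = 0)
    (hD : ∀ x, |deriv χ x| ≤ D) (hin : ∀ x, |x| < 1 / 2 → deriv χ x = 0)
    (hK : ∀ i l, 0 ≤ l → G i l ≤ K + (γ + δ ^ 2) * l)
    {i₀ : ι} (hG : (γ - δ ^ 2) * N ≤ G i₀ N)
    (H : ∀ n : ℝ, 1 ≤ n → ∀ w : ℝ → ℝ, ContDiff ℝ ∞ w →
      (∀ l, 0 ≤ w l) → (∀ l, l ∉ Set.Icc n (2 * n) → w l = 0) → (∃ l, 0 < w l) →
      ∀ η : ℝ, 0 < η → ∃ i,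
        (∀ j, (1 - η) * ∫ l in n..(2 * n), Real.exp (G j l) * w l ≤
          ∫ l in n..(2 * n), Real.exp (G i l) * w l) ∧
        ∫ l in n..(2 * n), Real.exp (G i l) * w l * G i l ≤
          (∫ l in n..(2 * n), Real.exp (G i l) * w l * (C₁ + ε₁ * n + C₀ * (l - n))) +
            (θ * n + C₁) * (∫ l in n..(2 * n), Real.exp (G i l) * |deriv w l|) + η) :
    N * (γ * (1 - ε) - δ ^ 2 - ε₁ - 2 * C₀ * ε - θ * (γ + δ)) ≤
      C₁ + (A + γ + 2 * δ) + Real.log N + C₁ * (γ + δ) + 1 +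
        (θ * N + C₁) * (D / ε * Real.exp (K + (A + γ + 2 * δ) - δ * ε / 4 * N)) := by
  have hδ0 : 0 ≤ δ := by rw [hδ]; (clear * - hε; positivity)
  have hD0 : 0 ≤ D := (abs_nonneg _).trans (hD 0)
  have hN6 : 6 ≤ N := by nlinarith only [hε, hε3, hεN]
  have hN0 : 0 < N := by linarith only [hN6]
  obtain ⟨n, hn⟩ : ∃ n, n = (1 - ε) * N := ⟨_, rfl⟩
  have hnN : n ≤ N - 1 := by rw [hn]; (clear * - hεN; linarith only [hεN])
  have hn2 : N + 1 ≤ 2 * n := by rw [hn]; (clear * - hε3 hεN hε; nlinarith only [hε, hε3, hεN])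
  have hn1 : 1 ≤ n := by linarith only [hnN, hn2]
  have hn0 : 0 < n := by linarith only [hn1]
  have hle : n ≤ 2 * n := by linarith only [hn0]
  have hpos : 0 < ε * N := by (clear * - hε hN6; positivity)
  set w := wt γ δ ε N χ with hwdef
  have hw : ContDiff ℝ ∞ w := wt_contDiff hχ
  have hw0 : ∀ l, 0 ≤ w l := fun l => mul_nonneg (Real.exp_pos _).le (hχ0 _)
  have hws1 : ∀ l, (1 + ε) * N < l → w l = 0 := by
    intro l hl
    have : 1 ≤ |(l - N) / (ε * N)| := by
      rw [abs_div, abs_of_pos hpos, le_div_iff₀ hpos, one_mul]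
      refine le_trans ?_ (le_abs_self _)
      linarith only [hl]
    simp [hwdef, wt, hχs _ this]
  have hws2 : ∀ l, l < n → w l = 0 := by
    intro l hl
    have : 1 ≤ |(l - N) / (ε * N)| := by
      rw [abs_div, abs_of_pos hpos, le_div_iff₀ hpos, one_mul]
      refine le_trans ?_ (neg_le_abs _)
      rw [hn] at hl
      (clear * - hl; linarith only [hl])
    simp [hwdef, wt, hχs _ this]
  have hws : ∀ l, l ∉ Set.Icc n (2 * n) → w l = 0 := by
    intro l hl
    rw [Set.mem_Icc, not_and_or, not_le, not_le] at hl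
    rcases hl with h | h
    · exact hws2 l h
    · refine hws1 l (lt_of_le_of_lt ?_ h)
      rw [hn]
      (clear * - hε3 hε hεN; nlinarith only [hε, hε3, hεN])
  have hwp : ∃ l, 0 < w l := by
    refine ⟨N, ?_⟩
    have : χ ((N - N) / (ε * N)) = 1 := hχ1 _ (by simp)
    simp only [hwdef, wt, this, mul_one]
    exact Real.exp_pos _
  have hwe : ∀ l, w l ≤ Real.exp (-(γ * l)) := by
    intro l
    calc w l ≤ Real.exp (-(γ * l) - δ * Real.sqrt (1 + (l - N) ^ 2)) * 1 :=
          mul_le_mul_of_nonneg_left (hχle _) (Real.exp_pos _).le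
      _ ≤ Real.exp (-(γ * l)) := by
          rw [mul_one]
          refine Real.exp_le_exp.mpr ?_
          have : 0 ≤ δ * Real.sqrt (1 + (l - N) ^ 2) := by (clear * - hδ0; positivity)
          linarith only [this]
  have hwd : ∀ l, |deriv w l| ≤ (γ + δ) * w l +
      Real.exp (-(γ * l) - δ * (ε * N / 2)) * (D / (ε * N)) := fun l =>
    wt_deriv_le hγ hδ0 hε hN0 (hχ.differentiable (by simp)) hχ0 hD hin l
  set B₁ := A + γ + 2 * δ with hB₁
  obtain ⟨η, hη⟩ : ∃ η, η = min (1 / 2) (Real.exp (-(δ ^ 2 * N) - B₁)) := ⟨_, rfl⟩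
  have hη0 : 0 < η := by rw [hη]; exact lt_min (by norm_num) (Real.exp_pos _)
  have hη1 : η ≤ 1 / 2 := by rw [hη]; exact min_le_left _ _
  have hη2 : η ≤ Real.exp (-(δ ^ 2 * N) - B₁) := by rw [hη]; exact min_le_right _ _
  obtain ⟨i, hi1, hi2⟩ := H n hn1 w hw hw0 hws hwp η hη0
  have hlow := low_J (A := A) hε hε3 hεN hn hγ hδ0 hA0 hL i₀ hχ hχ0 hχ1 hG
  set J := ∫ l in n..(2 * n), Real.exp (G i l) * w l with hJdef
  have hJl : Real.exp (-(δ ^ 2 * N) - B₁) ≤ J := by
    have h1 := hi1 i₀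
    have h2 : (1 - η) * (2 * Real.exp (-(δ ^ 2 * N) - B₁)) ≤
        (1 - η) * ∫ l in n..(2 * n), Real.exp (G i₀ l) * w l :=
      mul_le_mul_of_nonneg_left hlow (by linarith only [hη1])
    have h3 : Real.exp (-(δ ^ 2 * N) - B₁) ≤ (1 - η) * (2 * Real.exp (-(δ ^ 2 * N) - B₁)) := by
      have := Real.exp_pos (-(δ ^ 2 * N) - B₁)
      (clear * - hη1 this; nlinarith only [hη1, this])
    linarith only [h1, h2, h3]
  have hJ0 : 0 < J := lt_of_lt_of_le (Real.exp_pos _) hJl
  have h1 := lower_int hn1 hγ hL i hw.continuous hw0 hwe hJ0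
  have h2 := upper_int1 (ε₁ := ε₁) (C₁ := C₁) hn1 hn hC₀ hL i hw.continuous hw0 hws1
  have h3 := upper_int2 hn1 (by linarith only [hnN] : n ≤ N) hε hD0 hL i (hK i) hw hwd
  rw [← hJdef] at h1 h2 h3
  set Rm := D / ε * Real.exp (K + 2 * δ ^ 2 * N - δ * (ε * N / 2)) with hRm
  have hS : Rm ≤ J * (D / ε * Real.exp (K + B₁ - δ * ε / 4 * N)) := by
    have h4 : Rm = Real.exp (-(δ ^ 2 * N) - B₁) *
        (D / ε * Real.exp (K + B₁ - δ * ε / 4 * N)) := by
      rw [hRm, mul_left_comm, ← Real.exp_add]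
      congr 2
      rw [hδ]
      ring
    rw [h4]
    exact mul_le_mul_of_nonneg_right hJl (by (clear * - hD0 hε; positivity))
  have h0 : 0 ≤ θ * n + C₁ := by (clear * - hθ0 hn1 hC₁; positivity)
  have hfin : J * (Real.log J - Real.log n + γ * n) ≤
      J * (C₁ + ε₁ * n + C₀ * (2 * ε * N)) + (θ * n + C₁) * ((γ + δ) * J + Rm) + η := by
    have h5 := mul_le_mul_of_nonneg_left h3 h0
    linarith only [hi2, h1, h2, h5]
  have hend := arith_end2 (B₁ := B₁) hJ0 (by linarith only [hnN, hn2]) hn hn1 hγ hδ0 hε.le hε₁ hθ0 hC₁ hJl hη2 hS hfin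
  rw [max_eq_left (by (clear * - hD0 hε; positivity))] at hend
  exact hend

end Pool.Agent.Helper96.CK

end

section

set_option autoImplicit false

open MeasureTheory Set Filter

open scoped Real Topology ContDiff

namespace Pool.Agent.Helper96.CK

/-- the hypothesis at one `ε₁` -/
def WindowAt {ι : Type*} (G : ι → ℝ → ℝ) (θ C₀ ε₁ : ℝ) : Prop :=
  ∃ C₁ : ℝ, 0 ≤ C₁ ∧ ∀ n : ℝ, 1 ≤ n → ∀ w : ℝ → ℝ, ContDiff ℝ ∞ w →
    (∀ l, 0 ≤ w l) → (∀ l, l ∉ Set.Icc n (2 * n) → w l = 0) → (∃ l, 0 < w l) →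
    ∀ η : ℝ, 0 < η → ∃ i,
      (∀ j, (1 - η) * ∫ l in n..(2 * n), Real.exp (G j l) * w l ≤
        ∫ l in n..(2 * n), Real.exp (G i l) * w l) ∧
      ∫ l in n..(2 * n), Real.exp (G i l) * w l * G i l ≤
        (∫ l in n..(2 * n), Real.exp (G i l) * w l * (C₁ + ε₁ * n + C₀ * (l - n))) +
          (θ * n + C₁) * (∫ l in n..(2 * n), Real.exp (G i l) * |deriv w l|) + η

/-- **Exponent bookkeeping.** -/
theorem exp_lemma3 {θ C₀ : ℝ} (hθ0 : 0 ≤ θ) (hθ : θ < 1) (hC₀ : 0 ≤ C₀) :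
    ∀ e : ℝ, 0 < e → ∃ ε₁ : ℝ, 0 < ε₁ ∧ ∀ {ι : Type} {G : ι → ℝ → ℝ} {A : ℝ}, 0 ≤ A →
      (∀ i, G i 0 ≤ A) →
      (∀ i l l', 0 ≤ l → 0 ≤ l' → |G i l - G i l'| ≤ A * |l - l'|) →
      WindowAt G θ C₀ ε₁ → ∃ K : ℝ, ∀ i l, 0 ≤ l → G i l ≤ K + e * l := by
  intro e he
  have h1θ : 0 < 1 - θ := by (clear * - hθ; linarith)
  obtain ⟨ε₁, hε₁def⟩ : ∃ ε₁, ε₁ = e * (1 - θ) / 4 := ⟨_, rfl⟩
  have hε₁ : 0 < ε₁ := by rw [hε₁def]; (clear * - he hθ; positivity)
  refine ⟨ε₁, hε₁, ?_⟩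
  intro ι G A hA0 hA hL H
  by_contra hcon
  push Not at hcon
  set E : Set ℝ := {e | 0 ≤ e ∧ ∃ K : ℝ, ∀ i l, 0 ≤ l → G i l ≤ K + e * l} with hE
  have hup : ∀ a b, a ∈ E → a ≤ b → b ∈ E := by
    rintro a b ⟨ha, K, hK⟩ hab
    refine ⟨ha.trans hab, K, fun i l hl => (hK i l hl).trans ?_⟩
    have := mul_le_mul_of_nonneg_right hab hl
    (clear * - this; linarith)
  have hAE : A ∈ E := by
    refine ⟨hA0, A, fun i l hl => ?_⟩
    have h1 := (abs_le.mp (hL i l 0 hl le_rfl)).2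
    rw [sub_zero, abs_of_nonneg hl] at h1
    (clear * - h1 hA; linarith [hA i])
  have hbdd : BddBelow E := ⟨0, fun x hx => hx.1⟩
  obtain ⟨γ, hγdef⟩ : ∃ γ, γ = sInf E := ⟨_, rfl⟩
  have hγe : e ≤ γ := by
    rw [hγdef]
    refine le_csInf ⟨A, hAE⟩ fun a ha => ?_
    by_contra hlt
    push Not at hlt
    obtain ⟨-, K, hK⟩ := hup a e ha hlt.le
    obtain ⟨i, l, hl, h⟩ := hcon K
    exact absurd (hK i l hl) (not_le.mpr h)
  have hγ0 : 0 < γ := lt_of_lt_of_le he hγe
  -- the parameters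
  obtain ⟨C₁, hC₁, HC⟩ := H
  have hε₁γ : ε₁ ≤ γ * (1 - θ) / 4 := by
    rw [hε₁def]
    have := mul_le_mul_of_nonneg_right hγe h1θ.le
    linarith
  set ε : ℝ := min (1 / 3) (γ * (1 - θ) / (4 * (γ + 3 + 2 * C₀))) with hεdef
  have hden : 0 < γ + 3 + 2 * C₀ := by (clear * - hγ0 hC₀; positivity)
  have hε : 0 < ε := by
    rw [hεdef]
    exact lt_min (by norm_num) (by (clear * - hγ0 hθ hC₀; positivity))
  have hε3 : ε ≤ 1 / 3 := min_le_left _ _
  have hε4 : ε * (γ + 3 + 2 * C₀) ≤ γ * (1 - θ) / 4 := by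
    have : ε ≤ γ * (1 - θ) / (4 * (γ + 3 + 2 * C₀)) := min_le_right _ _
    rw [le_div_iff₀ (by positivity)] at this
    linarith only [this]
  set δ : ℝ := ε / 12 with hδdef
  have hδ0 : 0 < δ := by (clear * - hγ0 hθ hC₀; positivity)
  have hδε : δ ≤ ε / 12 := le_rfl
  have hδsq : δ ^ 2 ≤ ε := by
    rw [hδdef]; (clear * - hε hε3; nlinarith only [hε, hε3])
  have hεγ : ε < γ := by
    have h1 : ε * 3 ≤ ε * (γ + 3 + 2 * C₀) := mul_le_mul_of_nonneg_left (by linarith only [hC₀, he, hγe]) hε.le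
    have h2 : γ * (1 - θ) / 4 ≤ γ / 4 := by nlinarith only [hθ0, he, hγe]
    linarith only [hε4, hδ0, hδε, h1, h2]
  set β : ℝ := γ * (1 - ε) - δ ^ 2 - ε₁ - 2 * C₀ * ε - θ * (γ + δ) with hβdef
  have hβ : 0 < β := by
    have h1 : θ * δ ≤ ε := by
      have : θ * δ ≤ 1 * δ := mul_le_mul_of_nonneg_right hθ.le hδ0.le
      linarith only [hδdef, hδ0, this]
    have h2 : 0 < γ * (1 - θ) / 4 := by (clear * - hγ0 hθ; positivity)
    have h3 : β = γ * (1 - θ) - ε₁ - (ε * (γ + 2 * C₀) + δ ^ 2 + θ * δ) := by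
      rw [hβdef]; ring
    have h4 : ε * (γ + 3 + 2 * C₀) = ε * (γ + 2 * C₀) + 3 * ε := by ring
    (clear * - hε₁γ hε4 hδ0 hδε hδsq h1 h2; linarith only [hε₁γ, hε4, hδ0, hδε, hδsq, h1, h2])
  -- upper bound
  have hplus : γ + δ ^ 2 ∈ E := by
    have : sInf E < γ + δ ^ 2 := by rw [← hγdef]; (clear * - hδ0; nlinarith only [hδ0])
    obtain ⟨a, ha, hlt⟩ := exists_lt_of_csInf_lt ⟨A, hAE⟩ this
    exact hup a _ ha hlt.le
  obtain ⟨-, K, hK⟩ := hplus
  have hminus : γ - δ ^ 2 ∉ E := by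
    intro hm
    have h1 := csInf_le hbdd hm
    rw [← hγdef] at h1
    nlinarith only [hδ0, h1]
  obtain ⟨χ, D, b1, b2, b3, b4, b5, b6, b7⟩ := exists_bump
  have hD0 : 0 ≤ D := (abs_nonneg _).trans (b6 0)
  set Q : ℝ := C₁ + (A + γ + 2 * δ) + C₁ * (γ + δ) + 1 with hQ
  set S : ℝ → ℝ := fun N => D / ε * Real.exp (K + (A + γ + 2 * δ) - δ * ε / 4 * N) with hS
  have hSlim : Tendsto S atTop (𝓝 0) := by
    have h1 : Tendsto (fun N : ℝ => K + (A + γ + 2 * δ) - δ * ε / 4 * N) atTop atBot := by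
      refine tendsto_const_nhds.add_atBot ?_ |>.congr fun N => (sub_eq_add_neg _ _).symm
      exact tendsto_neg_atTop_atBot.comp
        (tendsto_id.const_mul_atTop (by (clear * - hγ0 hθ hC₀; positivity) : 0 < δ * ε / 4))
    have h2 := (Real.tendsto_exp_atBot.comp h1).const_mul (D / ε)
    simpa using h2
  have e1 : ∀ᶠ N in atTop, Real.log N ≤ β / 8 * N := by
    have := Real.isLittleO_log_id_atTop.bound (show (0:ℝ) < β / 8 by (clear * - hβ; positivity))
    filter_upwards [this, eventually_ge_atTop (1:ℝ)] with N h1 h2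
    simp only [id, Real.norm_eq_abs] at h1
    rw [abs_of_nonneg (by (clear * - h2; linarith only [h2]) : (0:ℝ) ≤ N)] at h1
    exact (le_abs_self _).trans h1
  have e2 : ∀ᶠ N in atTop, Q ≤ β / 8 * N :=
    (tendsto_id.const_mul_atTop (by (clear * - hβ; positivity) : 0 < β / 8)).eventually_ge_atTop Q
  have e3 : ∀ᶠ N in atTop, θ * S N ≤ β / 8 := by
    have h1 : Tendsto (fun N => θ * S N) atTop (𝓝 (θ * 0)) := hSlim.const_mul θ
    rw [mul_zero] at h1
    exact h1.eventually_le_const (by (clear * - hβ; positivity))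
  have e4 : ∀ᶠ N in atTop, C₁ * S N ≤ β / 8 := by
    have h1 : Tendsto (fun N => C₁ * S N) atTop (𝓝 (C₁ * 0)) := hSlim.const_mul C₁
    rw [mul_zero] at h1
    exact h1.eventually_le_const (by (clear * - hβ; positivity))
  obtain ⟨N₀, hN₀⟩ := eventually_atTop.mp (e1.and (e2.and (e3.and (e4.and
    ((tendsto_id.const_mul_atTop hε).eventually_ge_atTop (2:ℝ) |>.and
      (eventually_ge_atTop (1:ℝ)))))))
  obtain ⟨i₀, N, hN0, hNG⟩ : ∃ i₀ N, 0 ≤ N ∧ |K| + 2 * δ ^ 2 * |N₀| + (γ - δ ^ 2) * N < G i₀ N := by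
    by_contra hno
    push Not at hno
    exact hminus ⟨by linarith only [hδsq, hεγ], |K| + 2 * δ ^ 2 * |N₀|, fun i l hl => hno i l hl⟩
  have hNN : N₀ ≤ N := by
    have h1 := hK i₀ N hN0
    have h2 : 2 * δ ^ 2 * |N₀| < 2 * δ ^ 2 * N := by
      have := le_abs_self K
      linarith only [hNG, h1, this]
    have h3 : |N₀| < N := lt_of_mul_lt_mul_left h2 (by (clear * - hγ0 hθ hC₀; positivity))
    exact (le_abs_self _).trans h3.le
  obtain ⟨f1, f2, f3, f4, f5, f6⟩ := hN₀ N hNN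
  have hG : (γ - δ ^ 2) * N ≤ G i₀ N := by
    have : 0 ≤ |K| + 2 * δ ^ 2 * |N₀| := by (clear * - hγ0 hθ hC₀; positivity)
    linarith only [hNG, this]
  have f5' : 2 ≤ ε * N := f5
  have hmain := one_window2 hA0 hL hε₁.le hθ0 hC₀ hC₁ hγ0.le hδdef hε hε3 f5' b1 b2 b3 b4 b5 b6 b7 hK hG HC
  have hS0 : 0 ≤ S N := by simp only [hS]; (clear * - hD0 hγ0 hθ hC₀; positivity)
  have g1 : (θ * N + C₁) * S N ≤ β / 8 * N + β / 8 := by
    have : θ * S N * N ≤ β / 8 * N := mul_le_mul_of_nonneg_right f3 hN0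
    nlinarith only [f3, f4, f6]
  have g2 : N * β ≤ Q + Real.log N + (θ * N + C₁) * S N := by
    rw [← hβdef] at hmain
    simp only [hS, hQ]
    linarith only [hmain]
  nlinarith only [hβ, f1, f2, f3, f4, f6, hmain]

end Pool.Agent.Helper96.CK

end
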