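import Pool.Agent.Helper14.CMF.T24
import Pool.Agent.Helper14.CMF.T17
import Pool.Agent.Helper14.CMF.T14
import Pool.Agent.Helper14.CMF.T26
import Pool.Agent.Helper14.CMF.T11
import Pool.Agent.Helper14.CMF.T10
import Pool.Agent.Helper14.CMF.T19
import Pool.Agent.Helper14.CMF.T13
import Pool.Agent.Helper14.CMF.T02

set_option linter.all false

section

namespace Pool.Agent.Helper52.EK
end Pool.Agent.Helper52.EK
namespace Pool.Agent.Helper52.CK
end Pool.Agent.Helper52.CK
namespace Pool.Agent.Helper84.CK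
end Pool.Agent.Helper84.CK

set_option autoImplicit false

open Complex Set Filter

open scoped Real Topology

namespace Pool.Agent.Helper73.CK

open Pool.Agent.Helper52.EK Pool.Agent.Helper52.CK Pool.Agent.Helper84.CK

theorem norm_ez (θ : ℝ) : ‖Complex.exp (θ * I)‖ = 1 := Complex.norm_exp_ofReal_mul_I θ

theorem ez_sub_one (θ : ℝ) : ‖Complex.exp (θ * I) - 1‖ ≤ |θ| := by
  have := Real.norm_exp_I_mul_ofReal_sub_one_le (x := θ)
  rw [mul_comm I] at this
  simpa using this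

theorem tau_exp_le {x : ℝ} (hx : 0 < x) : tau (Real.exp (-x)) ≤ x / 2 := by
  unfold tau
  have h1 := Real.exp_pos (-x)
  rw [div_le_iff₀ (by (clear * - h1; linarith only [h1]))]
  -- 1 - e^-x ≤ (x/2)(1 + e^-x)
  have key : ∀ t : ℝ, 0 ≤ t → 0 ≤ t / 2 * (1 + Real.exp (-t)) - (1 - Real.exp (-t)) := by
    intro t ht
    have hd : ∀ s : ℝ, HasDerivAt (fun t => t / 2 * (1 + Real.exp (-t)) - (1 - Real.exp (-t)))
        (1 / 2 * (1 + Real.exp (-s)) + s / 2 * (-Real.exp (-s)) - Real.exp (-s)) s := by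
      intro s
      have e1 : HasDerivAt (fun t : ℝ => Real.exp (-t)) (-Real.exp (-s)) s := by
        have := (hasDerivAt_neg' s).exp
        simpa using this
      have e2 := (((hasDerivAt_id s).div_const 2).mul (e1.const_add 1)).sub (e1.const_sub 1)
      refine e2.congr_deriv ?_
      simp only [id]
      ring
    have hm : MonotoneOn (fun t => t / 2 * (1 + Real.exp (-t)) - (1 - Real.exp (-t)))
        (Ici 0) := by
      apply monotoneOn_of_deriv_nonneg (convex_Ici 0)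
      · exact fun s _ => (hd s).continuousAt.continuousWithinAt
      · exact fun s _ => (hd s).differentiableAt.differentiableWithinAt
      · intro s hs
        rw [interior_Ici] at hs
        rw [(hd s).deriv]
        have h2 : Real.exp (-s) * (s + 1) ≤ 1 := by
          have h3 := Real.add_one_le_exp s
          have h4 : Real.exp (-s) * Real.exp s = 1 := by rw [← Real.exp_add]; simp
          (clear * - h4 h3; nlinarith only [Real.exp_pos (-s), h3, h4])
        (clear * - h2; linarith only [h2])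
    have h5 := hm (self_mem_Ici) (show t ∈ Ici (0:ℝ) from ht) ht
    simpa using h5
  have := key x hx.le
  linarith only [this]

theorem x1_lt {n x : ℝ} (hx : 0 < x) (hxn : x ≤ Real.exp (-n)) :
    Real.exp (Real.log (tau (Real.exp (-x))) + 1) < 2 * Real.exp (-n) := by
  have h0 : 0 < tau (Real.exp (-x)) := by
    unfold tau
    have h1 := Real.exp_pos (-x)
    have h2 : Real.exp (-x) < 1 := by
      rw [Real.exp_lt_one_iff]
      (clear * - hx; linarith only [hx])
    apply div_pos <;> (clear * - h2 h1; linarith only [h2, h1])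
  rw [Real.exp_add, Real.exp_log h0]
  have h1 := tau_exp_le hx
  have h2 : Real.exp 1 < 2.7182818286 := Real.exp_one_lt_d9
  have h3 := Real.exp_pos (-n)
  have h4 := Real.exp_pos 1
  nlinarith only [hxn, h0, h1, h2]

/-- the area bound with an absolute coefficient of `l - n` (after `Pool.Agent.Helper63.CK.area`) -/
theorem area2 (B : ℝ) : ∃ C : ℝ, 0 ≤ C ∧ ∀ (n w x : ℝ) (W : ℝ → ℝ → ℝ), 2 ≤ n → 1 ≤ w → w ≤ n →
    0 < x → x ≤ Real.exp (-n) →
    Pool.Agent.Helper69.EK3.CH (Real.log (tau (Real.exp (-x))) + 1) (-1) π W →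
    (∀ ξ ∈ Icc (Real.log (tau (Real.exp (-x))) + 1) (-1), ∀ η ∈ Icc (0:ℝ) π,
      0 ≤ W ξ η ∧ W ξ η ≤ 1) →
    (∀ ξ ∈ Icc (Real.log (tau (Real.exp (-x))) + 1) (-1), ∀ η ∈ Icc (0:ℝ) π, ξ ≤ -B →
      4 * Real.exp (-(n - w)) ≤ Real.exp ξ * Real.sin η → W ξ η = 1) →
    II (Real.log (tau (Real.exp (-x))) + 1) (-1) (fun ξ η => 1 - W ξ η) ≤
      100 * w + C + 7 * (-Real.log x - n) := by
  have hπ := Real.pi_pos
  have hπ3 := Real.pi_lt_d2
  refine ⟨π * (6 + |B|), by (clear * -; positivity), ?_⟩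
  intro n w x W hn hw hwn hx hxn hW h01 h1
  have hx2 : x ≤ Real.exp (-2) := hxn.trans (Real.exp_le_exp.mpr (by (clear * - hn; linarith only [hn])))
  have hx1 : x ≤ 1 := hx2.trans (by
    rw [← Real.exp_zero]
    exact Real.exp_le_exp.mpr (by norm_num))
  have ht4 : x / 4 ≤ tau (Real.exp (-x)) := Pool.Agent.Helper63.CK.tau_ge hx hx1
  have ht0 : 0 < tau (Real.exp (-x)) := lt_of_lt_of_le (by (clear * - hx; positivity)) ht4
  have ht2 : Real.log (tau (Real.exp (-x))) ≤ -2 := by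
    rw [← Real.log_exp (-2)]
    exact Real.log_le_log ht0 (Pool.Agent.Helper63.CK.tau_le hx hx2)
  have htl : Real.log x - Real.log 4 ≤ Real.log (tau (Real.exp (-x))) := by
    rw [← Real.log_div hx.ne' (by norm_num)]
    exact Real.log_le_log (by (clear * - hx; positivity)) ht4
  have hlx : Real.log x ≤ -n := by
    rw [← Real.log_exp (-n)]
    exact Real.log_le_log hx hxn
  have hl4 : Real.log 4 ≤ 3 / 2 := by
    have h2 : Real.log 4 = 2 * Real.log 2 := by
      rw [show (4:ℝ) = 2 ^ 2 by norm_num, Real.log_pow]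
      norm_num
    have h3 := Real.log_two_lt_d9
    (clear * - h2 h3; linarith)
  set x₁ : ℝ := Real.log (tau (Real.exp (-x))) + 1 with hx₁
  have hle := Pool.Agent.Helper63.CK.area_le (x₁ := x₁) (x₂ := -1) (A := 1 + |B|)
    (lb := Real.log 4 + (-(n - w)))
    (by (clear * - ht2; linarith only [ht2])) (by (clear * -; linarith only [abs_nonneg B])) (W := W) hW
    (fun ξ hξ η hη => (h01 ξ hξ η hη).1)
    (fun ξ hξ η hη hξA hs => by
      apply h1 ξ hξ η hη (by linarith only [le_abs_self B, hξA])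
      rwa [Real.exp_add, Real.exp_log (by norm_num)] at hs)
  refine hle.trans ?_
  have hm : max (Real.log 4 + (-(n - w)) - x₁) 0 ≤ 2 + w + (-Real.log x - n) := by
    apply max_le <;> linarith only [htl, hl4, hw, hlx]
  have hL : 0 ≤ -Real.log x - n := by linarith only [hlx]
  have h2 : π * (2 * (max (Real.log 4 + (-(n - w)) - x₁) 0 + 1) + (-1 + (1 + |B|))) ≤
      π * (2 * (2 + w + (-Real.log x - n) + 1) + |B|) := by
    apply mul_le_mul_of_nonneg_left _ hπ.le
    linarith only [hm]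
  refine h2.trans ?_
  have h3 : π * (2 * w) ≤ 100 * w := by (clear * - hπ3 hw; nlinarith only [hπ3, hw])
  have h6 : π * 2 * (-Real.log x - n) ≤ 7 * (-Real.log x - n) := by
    apply mul_le_mul_of_nonneg_right _ hL
    linarith only [hπ3]
  have h7 : π * (2 * (2 + w + (-Real.log x - n) + 1) + |B|) =
      π * (2 * w) + π * 2 * (-Real.log x - n) + π * (6 + |B|) := by ring
  rw [h7]
  linarith only [h3, h6]

/-- the statement used by the assembly -/
def CutStmt : Prop := ∃ C₀ : ℝ, 0 ≤ C₀ ∧ ∀ K ε A : ℝ, 0 < K → 0 < ε → ∃ s C n₀ : ℝ, 0 < s ∧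
    s ≤ 1 / 2 ∧ 0 ≤ C ∧ ∀ n : ℝ, n₀ ≤ n → ∃ W0 : ℂ → ℝ, Cutf (Real.exp (-n)) W0 ∧
      ∀ x θ : ℝ, 0 < x → x ≤ Real.exp (-n) → |θ| ≤ s →
        (∃ W₁ W₂ : ℝ → ℝ → ℝ, WtF (Real.log (tau (Real.exp (-x))) + 1) (-1) K
          (fun ξ η => W0 (Complex.exp (θ * I) * zf (pt ξ η))) W₁ W₂) ∧
        (∀ z : ℂ, W0 (Complex.exp (θ * I) * z) ≠ 0 → ‖z‖ < 1 ∧
          Real.exp (Real.log (tau (Real.exp (-x))) + 1) < ‖1 - z‖ / ‖1 + z‖ ∧
          ‖1 - z‖ / ‖1 + z‖ ≤ Real.exp (-A)) ∧
        II (Real.log (tau (Real.exp (-x))) + 1) (-1)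
          (fun ξ η => 1 - W0 (Complex.exp (θ * I) * zf (pt ξ η))) ≤
            ε * (-Real.log x) + C + C₀ * (-Real.log x - n)

/-- **the cut-off function** -/
theorem cut : CutStmt := by
  refine ⟨7, by norm_num, ?_⟩
  intro K ε A hK hε
  obtain ⟨f, f₁, M, hf⟩ := exists_stp
  -- the constants
  set k : ℝ := max 2 (max (A + 1) (4 * M / K)) with hk
  have hk2 : 2 ≤ k := le_max_left _ _
  have hkA : A + 1 ≤ k := (le_max_left _ _).trans (le_max_right _ _)
  have hkM : 4 * M / K ≤ k := (le_max_right _ _).trans (le_max_right _ _)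
  have hk0 : 0 < k := by (clear * - hk2; linarith only [hk2])
  set s : ℝ := Real.exp (-(2 * k)) / 2 with hs
  have hs0 : 0 < s := by (clear * -; positivity)
  have hsk : s ≤ Real.exp (-(2 * k)) := by
    rw [hs]; (clear * - hs hs0; linarith only [hs, hs0])
  have hs1 : s ≤ 1 / 2 := by
    have : Real.exp (-(2 * k)) ≤ 1 := Real.exp_le_one_iff.2 (by (clear * - hk0; linarith only [hk0]))
    rw [hs]; linarith only [this]
  set ε' : ℝ := min (ε / 100) (1 / 2) with hε'
  have hε'0 : 0 < ε' := lt_min (by positivity) (by norm_num)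
  have hε'1 : ε' ≤ ε / 100 := min_le_left _ _
  have hε'2 : ε' ≤ 1 / 2 := min_le_right _ _
  obtain ⟨C, hC0, hC⟩ := area2 (2 * k + 2)
  set n₀ : ℝ := max 2 (max (1 / ε') (2 * M / (K * ε'))) with hn₀
  refine ⟨s, C, n₀, hs0, hs1, hC0, ?_⟩
  intro n hn
  have hn2 : 2 ≤ n := (le_max_left _ _).trans hn
  have hn3 : 1 / ε' ≤ n := ((le_max_left _ _).trans (le_max_right _ _)).trans hn
  have hn4 : 2 * M / (K * ε') ≤ n := ((le_max_right _ _).trans (le_max_right _ _)).trans hn
  set w : ℝ := ε' * n with hw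
  have hw1 : 1 ≤ w := by
    rw [div_le_iff₀ hε'0] at hn3
    (clear * - hn3; linarith only [hn3])
  have hw0 : 0 < w := by linarith only [hw1]
  have hwn : w ≤ n := by
    rw [hw]; (clear * - hε'2 hn2; nlinarith only [hε'2, hn2])
  have hMw : M / w ≤ K / 2 := by
    rw [div_le_iff₀ (by positivity)] at hn4
    rw [div_le_iff₀ hw0, hw]
    linarith only [hn4]
  have hMk : 2 * M / k ≤ K / 2 := by
    rw [div_le_iff₀ hK] at hkM
    rw [div_le_iff₀ hk0]
    linarith only [hkM]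
  have hbn := Real.exp_pos (-n)
  have hek : Real.exp (-k) ≤ Real.exp (-2) := Real.exp_le_exp.2 (by linarith only [hk2])
  have he2 : Real.exp (-2) ≤ 0.14 := by
    have h1 : Real.exp (-1) < 0.3678794412 := Real.exp_neg_one_lt_d9
    have h2 : Real.exp (-2) = Real.exp (-1) * Real.exp (-1) := by
      rw [← Real.exp_add]; norm_num
    have h3 := Real.exp_pos (-1)
    rw [h2]
    (clear * - h1 h3; nlinarith only [h1, h3])
  have hs2 : s ≤ Real.exp (-k) := by
    have : Real.exp (-(2 * k)) ≤ Real.exp (-k) := Real.exp_le_exp.2 (by linarith only [hk0])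
    linarith only [hsk, this]
  refine ⟨W0 f k w n, ⟨W0_cont hf k n hw0, fun z => (W0_bd hf k w n z).1,
    fun z => (W0_bd hf k w n z).2, ?_⟩, ?_⟩
  · intro z hz
    have a1 : 8 * Real.exp (-n) < 1 - ‖z‖ ^ 2 := by
      by_contra h1
      exact hz (W0_zero1 hf hw0 (not_lt.1 h1))
    have a2 : ‖z - 1‖ < Real.exp (-k) := by
      by_contra h1
      exact hz (W0_zero2 hf hk0 (not_lt.1 h1))
    have a3 : 1 ≤ ‖z‖ + ‖z - 1‖ := by
      have := norm_sub_le z (z - 1)
      simpa using this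
    refine ⟨?_, ?_, by linarith only [hek, he2, a2]⟩
    · have h1 : Real.exp (-1) < 0.3678794412 := Real.exp_neg_one_lt_d9
      linarith only [hek, he2, a2, a3, h1]
    · have b1 : ‖z‖ ^ 2 ≤ Real.exp (-2 * Real.exp (-n)) ^ 2 := by
        have b2 := Real.add_one_le_exp (-4 * Real.exp (-n))
        have b3 : Real.exp (-2 * Real.exp (-n)) ^ 2 = Real.exp (-4 * Real.exp (-n)) := by
          rw [sq, ← Real.exp_add]
          congr 1
          ring
        rw [b3]
        (clear * - hbn a1 b2; linarith only [hbn, a1, b2])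
      exact (sq_le_sq₀ (norm_nonneg z) (Real.exp_pos _).le).1 b1
  · intro x θ hx hxn hθ
    set ζ : ℂ := Complex.exp (θ * I) with hζ
    have hz1 : ‖ζ‖ = 1 := norm_ez θ
    have hz2 : ‖ζ - 1‖ ≤ s := (ez_sub_one θ).trans hθ
    have hx1 := x1_lt hx hxn
    set x₁ : ℝ := Real.log (tau (Real.exp (-x))) + 1 with hx₁
    simp only [Om_eq f k w n hz1]
    have hCH : Pool.Agent.Helper69.EK3.CH x₁ (-1) π (Om f k w n ζ) := by
      rintro ⟨ξ, η⟩ ⟨hξ, hη⟩
      exact (Om_cont hf hw0 hz1 (sin_nn hη)).continuousWithinAt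
    have hb01 : ∀ ξ η : ℝ, 0 ≤ Om f k w n ζ ξ η ∧ Om f k w n ζ ξ η ≤ 1 := by
      intro ξ η
      rw [← Om_eq f k w n hz1 ξ η]
      exact W0_bd hf k w n _
    refine ⟨⟨Om1 f f₁ k w n ζ, Om2 f f₁ k w n ζ, ?_⟩, ?_, ?_⟩
    · refine ⟨hCH, ?_, ?_, ?_, ?_, ?_, ?_, fun ξ _ η _ => hb01 ξ η, ?_, ?_⟩
      · rintro ⟨ξ, η⟩ ⟨hξ, hη⟩
        exact (Om1_cont hf hw0 hz1 (sin_nn hη)).continuousWithinAt
      · rintro ⟨ξ, η⟩ ⟨hξ, hη⟩
        exact (Om2_cont hf hw0 hz1 (sin_nn hη)).continuousWithinAt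
      · intro ξ hξ η hη
        exact Om_d1 hf hw0 hz1 (sin_nn hη)
      · intro ξ hξ η hη
        exact Om_d2 hf hw0 hz1 (sin_nn hη)
      · intro η hη
        apply Om_zero hf hw0
        exact (yy_le (sin_nn hη)).trans (by linarith only [hx1])
      · intro η hη
        -- far end
        have hs3 := sin_nn hη
        change Om f k w n ζ (-1) η = 0
        unfold Om
        have h3 : Real.exp (-k) ≤ ‖vv ζ (-1) η‖ := by
          have h4 : ‖zf (pt (-1) η) - 1‖ ≤ ‖vv ζ (-1) η‖ + s := by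
            have h2 : zf (pt (-1) η) - 1 = ζ⁻¹ * (vv ζ (-1) η - (ζ - 1)) := by
              have hz : ζ ≠ 0 := Complex.exp_ne_zero _
              unfold vv
              field_simp
              ring
            rw [h2, norm_mul, norm_inv, hz1, inv_one, one_mul]
            exact (norm_sub_le _ _).trans (by linarith only [hz2])
          have h5 : 0.5 ≤ ‖zf (pt (-1) η) - 1‖ := by
            rw [norm_zf_sub_one hs3]
            have h6 : ‖I + Complex.exp (pt (-1) η)‖ ≤ 1 + Real.exp (-1) := by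
              have := norm_add_le I (Complex.exp (pt (-1) η))
              rwa [norm_I, norm_exp_pt] at this
            have h7 := norm_den_ge (ξ := -1) hs3
            rw [le_div_iff₀ (by linarith only [h7])]
            have h8 : 0.36787944116 < Real.exp (-1) := Real.exp_neg_one_gt_d9
            linarith only [h6, h8]
          linarith only [hek, he2, hs2, h4, h5]
        rw [hf.z _ (ar2_nonpos hk0 h3), mul_zero]
      · intro ξ hξ η hη
        exact (Om1_bd hf hk0 hw0 hz1 hz2 hsk (sin_nn hη)).trans (by linarith only [hMw, hMk])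
      · intro ξ hξ η hη
        exact (Om2_bd hf hk0 hw0 hz1 hz2 hsk (sin_nn hη)).trans (by linarith only [hMw, hMk])
    swap
    · have h1 := hC n w x (Om f k w n ζ) hn2 hw1 hwn hx hxn hCH (fun ξ _ η _ => hb01 ξ η) ?_
      · refine h1.trans ?_
        have h2 : n ≤ -Real.log x := by
          have := Real.log_le_log hx hxn
          rw [Real.log_exp] at this
          linarith only [this]
        have h3 : 100 * w ≤ ε * (-Real.log x) := by
          rw [hw]
          have h4 : 100 * ε' ≤ ε := by linarith only [hε'1]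
          have h5 : 0 ≤ n := by linarith only [hw0, hwn]
          calc 100 * (ε' * n) = (100 * ε') * n := by ring
            _ ≤ ε * n := mul_le_mul_of_nonneg_right h4 h5
            _ ≤ ε * (-Real.log x) := mul_le_mul_of_nonneg_left h2 hε.le
        linarith only [h3]
      · intro ξ hξ η hη hξB hy
        have hs3 := sin_nn hη
        rw [← Om_eq f k w n hz1 ξ η]
        apply W0_one hf hk0 hw0
        · have h4 := yy_ge (ξ := ξ) hs3 hξ.2
          rw [norm_mul, hz1, one_mul]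
          have h5 : yy ξ η = 1 - ‖zf (pt ξ η)‖ ^ 2 := rfl
          rw [← h5]
          linarith only [hy, h4]
        · have h4 : ‖ζ * zf (pt ξ η) - 1‖ ≤ ‖zf (pt ξ η) - 1‖ + s := by
            have h2 : ζ * zf (pt ξ η) - 1 = ζ * (zf (pt ξ η) - 1) + (ζ - 1) := by ring
            rw [h2]
            refine (norm_add_le _ _).trans ?_
            rw [norm_mul, hz1, one_mul]
            linarith only [hz2]
          have h5 : ‖zf (pt ξ η) - 1‖ ≤ 2 * Real.exp ξ := by
            rw [norm_zf_sub_one hs3]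
            have h7 := norm_den_ge (ξ := ξ) hs3
            exact div_le_self (by positivity) h7
          have h6 : Real.exp ξ ≤ Real.exp (-(2 * k)) * 0.14 := by
            have : Real.exp ξ ≤ Real.exp (-(2 * k) + -2) := Real.exp_le_exp.2 (by linarith only [hξB])
            rw [Real.exp_add] at this
            (clear * - this hs he2 hs0; nlinarith only [hs, hs0, he2, this])
          have h8 := Real.exp_pos (-(2 * k))
          linarith only [hs, hsk, h4, h5, h6]
    · intro z hz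
      have hnz : ‖ζ * z‖ = ‖z‖ := by rw [norm_mul, hz1, one_mul]
      have a1 : 8 * Real.exp (-n) < 1 - ‖z‖ ^ 2 := by
        by_contra h1
        refine hz (W0_zero1 hf hw0 ?_)
        rw [hnz]
        exact not_lt.1 h1
      have a2 : ‖ζ * z - 1‖ < Real.exp (-k) := by
        by_contra h1
        exact hz (W0_zero2 hf hk0 (not_lt.1 h1))
      have a3 : ‖z‖ < 1 := by (clear * - hx hxn a1; nlinarith only [hx, hxn, a1])
      have a4 : ‖1 - z‖ ≤ ‖ζ * z - 1‖ + s := by
        have h2 : 1 - z = ζ⁻¹ * ((ζ - 1) - (ζ * z - 1)) := by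
          have hz : ζ ≠ 0 := Complex.exp_ne_zero _
          field_simp
          ring
        rw [h2, norm_mul, norm_inv, hz1, inv_one, one_mul]
        exact (norm_sub_le _ _).trans (by linarith only [hz2])
      have a5 : 2 ≤ ‖1 + z‖ + ‖1 - z‖ := by
        have := norm_add_le (1 + z) (1 - z)
        have h3 : (1 + z) + (1 - z) = 2 := by ring
        rw [h3] at this
        simpa using this
      have a6 : ‖1 - z‖ ≤ 2 * Real.exp (-k) := by (clear * - hs2 a2 a4; linarith only [hs2, a2, a4])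
      have a7 : 1 ≤ ‖1 + z‖ := by (clear * - hek he2 a5 a6; linarith only [hek, he2, a5, a6])
      have a8 : ‖1 + z‖ ≤ 2 := by
        have := norm_add_le 1 z
        rw [norm_one] at this
        linarith only [a3, this]
      have a9 : 4 * Real.exp (-n) < ‖1 - z‖ := by
        have h1 : 1 - ‖z‖ ≤ ‖1 - z‖ := by
          have := norm_sub_norm_le (1:ℂ) z
          rwa [norm_one] at this
        nlinarith only [a1, a5, a8, h1]
      refine ⟨a3, ?_, ?_⟩
      · refine hx1.trans ?_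
        rw [lt_div_iff₀ (by linarith only [a7])]
        nlinarith only [a5, a7, a8, a9]
      · rw [div_le_iff₀ (by linarith only [a7])]
        have h1 : 2 * Real.exp (-k) ≤ Real.exp (-A) := by
          have h2 : Real.exp (-k) ≤ Real.exp (-A) * Real.exp (-1) := by
            rw [← Real.exp_add]
            exact Real.exp_le_exp.2 (by linarith only [hkA])
          have h3 : Real.exp (-1) < 0.3678794412 := Real.exp_neg_one_lt_d9
          nlinarith only [Real.exp_pos (-A), h2, h3]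
        nlinarith only [a5, a6, a7, a8, h1]

end Pool.Agent.Helper73.CK

end

section

namespace Pool.Agent.Helper39.Area
end Pool.Agent.Helper39.Area
namespace Pool.Agent.Helper52.EK
end Pool.Agent.Helper52.EK
namespace Pool.Agent.Helper52.CK
end Pool.Agent.Helper52.CK

/-!
# CK: Lipschitz bounds in the depth for the densities and the means
-/

set_option autoImplicit false

open Complex MeasureTheory Metric Set Filter Topology

open scoped Real ComplexConjugate

namespace Pool.Agent.Helper77.CK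

open Pool.Agent.Helper39.Area Pool.Agent.Helper52.EK Pool.Agent.Helper52.CK

theorem ep_ne (t θ : ℝ) : ep t θ ≠ 0 := by
  unfold ep
  exact Complex.exp_ne_zero _

theorem differentiableOn_N {β : ℂ → ℂ} (h : Ext β) : DifferentiableOn ℂ (N β) (ball 0 1) := by
  have h1 : DifferentiableOn ℂ (deriv β) (ball 0 1) := h.diff.deriv isOpen_ball
  intro z hz
  have h2 := h1.differentiableAt (isOpen_ball.mem_nhds hz)
  unfold N
  exact ((differentiableAt_const _).sub ((differentiableAt_id.pow 2).mul h2)).differentiableWithinAt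

/-- the classical bound for the second derivative -/
theorem logN {β : ℂ → ℂ} (h : Ext β) {z : ℂ} (h0 : z ≠ 0) (hz : ‖z‖ < 1) (h2 : 1 - ‖z‖ ≤ ‖z‖) :
    ‖z * (deriv (N β) z / N β z)‖ * (1 - ‖z‖) ≤ 4 * ‖z‖ + 2 * (1 - ‖z‖) := by
  have hr : 0 < 1 - ‖z‖ := by (clear * - hz; linarith only [hz])
  have hm : ∀ u ∈ ball (0:ℂ) (1 - ‖z‖), z + u ∈ ball (0:ℂ) 1 ∧ z + u ≠ 0 := by
    intro u hu
    rw [mem_ball_zero_iff] at hu
    constructor
    · rw [mem_ball_zero_iff]
      exact (norm_add_le _ _).trans_lt (by linarith only [hu])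
    · intro h3
      have : ‖z‖ = ‖u‖ := by
        rw [← norm_neg u]
        congr 1
        linear_combination h3
      (clear * - h2 hu this; linarith only [h2, hu, this])
  have hdat : ∀ u ∈ ball (0:ℂ) (1 - ‖z‖), HasDerivAt (fun u => phi β (z + u))
      (dphi β (z + u)) u := by
    intro u hu
    have h4 := hasDerivAt_phi h.diff (hm u hu).1 (hm u hu).2
    have h5 : HasDerivAt (fun u : ℂ => z + u) 1 u := (hasDerivAt_id u).const_add z
    have h6 := h4.comp u h5
    rw [mul_one] at h6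
    exact h6
  have h4 := Pool.Agent.Helper69.EK3.bieb_r (g := fun u => phi β (z + u)) hr
    (fun u hu => (hdat u hu).differentiableAt.differentiableWithinAt) ?_
  · have h5 : deriv (fun u => phi β (z + u)) 0 = dphi β z := by
      rw [(hdat 0 (mem_ball_self hr)).deriv, add_zero]
    have hzb : z ∈ ball (0:ℂ) 1 := mem_ball_zero_iff.2 hz
    have hN : N β z ≠ 0 := h.ne z hzb
    have hNd : DifferentiableAt ℂ (N β) z :=
      (differentiableOn_N h).differentiableAt (isOpen_ball.mem_nhds hzb)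
    have h6 : deriv (deriv (fun u => phi β (z + u))) 0 = deriv (dphi β) z := by
      have h7 : deriv (fun u => phi β (z + u)) =ᶠ[𝓝 0] fun u => dphi β (z + u) := by
        filter_upwards [isOpen_ball.mem_nhds (mem_ball_self hr)] with u hu
        exact (hdat u hu).deriv
      rw [h7.deriv_eq, deriv_comp_const_add, add_zero]
    have h7 : deriv (dphi β) z = -(deriv (N β) z / z ^ 2) + 2 * N β z / z ^ 3 := by
      have h8 : dphi β =ᶠ[𝓝 z] fun w => -(N β w / w ^ 2) := by
        filter_upwards [isOpen_ne.mem_nhds h0] with w hw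
        have hw' : w ≠ 0 := hw
        unfold dphi N
        field_simp
        ring
      rw [h8.deriv_eq]
      have h9 : HasDerivAt (fun w => -(N β w / w ^ 2))
          (-((deriv (N β) z * z ^ 2 - N β z * (2 * z)) / (z ^ 2) ^ 2)) z := by
        have h10 : HasDerivAt (fun w : ℂ => w ^ 2) (2 * z) z := by
          have := hasDerivAt_pow 2 z
          simpa using this
        exact (hNd.hasDerivAt.div h10 (pow_ne_zero 2 h0)).neg
      rw [h9.deriv]
      field_simp
      ring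
    have h8 : dphi β z = -(N β z / z ^ 2) := by
      unfold dphi N
      field_simp
      ring
    rw [h5, h6] at h4
    have h9 : z * (deriv (N β) z / N β z) = z * (deriv (dphi β) z / dphi β z) + 2 := by
      rw [h7, h8]
      field_simp
      ring
    have h10 : 0 < ‖dphi β z‖ := by
      rw [norm_pos_iff, h8, neg_ne_zero]
      exact div_ne_zero hN (pow_ne_zero 2 h0)
    have h11 : ‖deriv (dphi β) z / dphi β z‖ * (1 - ‖z‖) ≤ 4 := by
      rw [norm_div, div_mul_eq_mul_div, div_le_iff₀ h10]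
      exact h4
    calc ‖z * (deriv (N β) z / N β z)‖ * (1 - ‖z‖)
        ≤ (‖z‖ * ‖deriv (dphi β) z / dphi β z‖ + 2) * (1 - ‖z‖) := by
          rw [h9]
          refine mul_le_mul_of_nonneg_right ?_ hr.le
          refine (norm_add_le _ _).trans ?_
          rw [norm_mul]
          norm_num
      _ ≤ 4 * ‖z‖ + 2 * (1 - ‖z‖) := by
          (clear * - h11 h2; nlinarith only [h2, h11])
  · intro u hu v hv huv
    have h6 := h.inj (z + u) (z + v) (hm u hu).1 (hm v hv).1 (hm u hu).2 (hm v hv).2 huv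
    linear_combination h6

/-- (1) uniform bound of the logarithmic derivative -/
theorem lip_N : ∃ C : ℝ, 0 ≤ C ∧ ∀ (β : ℂ → ℂ) (R x θ : ℝ), ExtR β R → 0 < x → x ≤ 1 / 4 →
    x * ‖ep (-x) θ * (deriv (N β) (ep (-x) θ) / N β (ep (-x) θ))‖ ≤ C := by
  refine ⟨6, by norm_num, ?_⟩
  intro β R x θ h hx hx1
  have h1 : Real.exp (-x) < 1 := by
    rw [Real.exp_lt_one_iff]
    linarith only [hx]
  have h2 : 1 - x ≤ Real.exp (-x) := by
    have := Real.add_one_le_exp (-x)
    linarith only [this]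
  have h3 : Real.exp (-x) ≤ 1 - 3 / 4 * x := by
    have h4 := Real.abs_exp_sub_one_sub_id_le (x := -x) (by rw [abs_neg, abs_of_pos hx]; (clear * - hx hx1; linarith))
    have h5 := (abs_le.mp h4).2
    (clear * - h5 hx hx1; nlinarith)
  have h4 := logN h.toExt (ep_ne (-x) θ) (by rw [norm_ep]; exact h1)
    (by rw [norm_ep]; linarith only [hx1, h2])
  rw [norm_ep] at h4
  set D := ‖ep (-x) θ * (deriv (N β) (ep (-x) θ) / N β (ep (-x) θ))‖ with hD
  have hD0 : 0 ≤ D := norm_nonneg _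
  have h5 : 3 / 4 * x ≤ 1 - Real.exp (-x) := by (clear * - h3; linarith only [h3])
  have h6 : D * (3 / 4 * x) ≤ D * (1 - Real.exp (-x)) := mul_le_mul_of_nonneg_left h5 hD0
  (clear * - hD0 h6 h4; nlinarith only [h4, hD0, h6])

theorem hasDerivAt_logN {β : ℂ → ℂ} (h : Ext β) (θ : ℝ) (l : ℝ) :
    HasDerivAt (fun l : ℝ => Real.log ‖N β (ep (-Real.exp (-l)) θ)‖)
      (Real.exp (-l) * (ep (-Real.exp (-l)) θ *
        (deriv (N β) (ep (-Real.exp (-l)) θ) / N β (ep (-Real.exp (-l)) θ))).re) l := by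
  have hz : ep (-Real.exp (-l)) θ ∈ ball (0:ℂ) 1 := by
    rw [mem_ball_zero_iff, norm_ep, Real.exp_lt_one_iff]
    linarith [Real.exp_pos (-l)]
  have hNd := (differentiableOn_N h).differentiableAt (isOpen_ball.mem_nhds hz)
  have hN : N β (ep (-Real.exp (-l)) θ) ≠ 0 := h.ne _ hz
  have h1 : HasDerivAt (fun l : ℝ => Real.exp (-l)) (-Real.exp (-l)) l := by
    have h0 := (hasDerivAt_neg l).exp
    rw [mul_neg_one] at h0
    exact h0
  have h2 : HasDerivAt (fun l : ℝ => ((-Real.exp (-l) : ℝ) : ℂ) + (θ : ℂ) * I)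
      ((Real.exp (-l) : ℝ) : ℂ) l := by
    have h3 := h1.neg.ofReal_comp.add_const ((θ : ℂ) * I)
    simpa using h3
  have h3 : HasDerivAt (fun l : ℝ => ep (-Real.exp (-l)) θ)
      (ep (-Real.exp (-l)) θ * ((Real.exp (-l) : ℝ) : ℂ)) l := by
    unfold ep
    exact h2.cexp
  have h4 : HasDerivAt (fun l : ℝ => N β (ep (-Real.exp (-l)) θ))
      (deriv (N β) (ep (-Real.exp (-l)) θ) * (ep (-Real.exp (-l)) θ * ((Real.exp (-l) : ℝ) : ℂ)))
      l := hNd.hasDerivAt.comp_of_eq l h3 rfl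
  have h5 : HasDerivAt (fun l : ℝ => Complex.normSq (N β (ep (-Real.exp (-l)) θ)))
      (2 * ((deriv (N β) (ep (-Real.exp (-l)) θ) *
        (ep (-Real.exp (-l)) θ * ((Real.exp (-l) : ℝ) : ℂ))) *
        conj (N β (ep (-Real.exp (-l)) θ))).re) l := by
    have h6 : ∀ w : ℂ, Complex.normSq w = w.re * w.re + w.im * w.im := fun w => rfl
    have h7 := (Complex.reCLM.hasFDerivAt.comp_hasDerivAt l h4)
    have h8 := (Complex.imCLM.hasFDerivAt.comp_hasDerivAt l h4)
    have h9 := (h7.mul h7).add (h8.mul h8)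
    refine h9.congr_deriv ?_
    simp only [Function.comp_apply, Complex.reCLM_apply, Complex.imCLM_apply, Complex.mul_re,
      Complex.conj_re, Complex.conj_im, Complex.mul_im]
    ring
  have h6 : ∀ l : ℝ, Real.log ‖N β (ep (-Real.exp (-l)) θ)‖ =
      1 / 2 * Real.log (Complex.normSq (N β (ep (-Real.exp (-l)) θ))) := by
    intro l
    rw [Complex.normSq_eq_norm_sq, Real.log_pow]
    push_cast
    ring
  have h7 : Complex.normSq (N β (ep (-Real.exp (-l)) θ)) ≠ 0 := by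
    rw [Ne, Complex.normSq_eq_zero]
    exact hN
  have h8 := (h5.log h7).const_mul (1 / 2)
  have h9 : (fun l : ℝ => Real.log ‖N β (ep (-Real.exp (-l)) θ)‖) = fun l : ℝ =>
      1 / 2 * Real.log (Complex.normSq (N β (ep (-Real.exp (-l)) θ))) := funext h6
  rw [h9]
  refine h8.congr_deriv ?_
  set A := ep (-Real.exp (-l)) θ
  set x := Real.exp (-l)
  have h10 : (A * (deriv (N β) A / N β A)).re =
      ((deriv (N β) A * A) * conj (N β A)).re / Complex.normSq (N β A) := by
    have h11 : A * (deriv (N β) A / N β A) =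
        (deriv (N β) A * A) * conj (N β A) / ((Complex.normSq (N β A) : ℝ) : ℂ) := by
      rw [Complex.normSq_eq_conj_mul_self]
      have hc : conj (N β A) ≠ 0 := by
        rw [Ne, map_eq_zero]
        exact hN
      (clear * - hc hN; field_simp)
    rw [h11, Complex.div_ofReal_re]
  have h11 : ((deriv (N β) A * (A * (x : ℂ))) * conj (N β A)).re =
      x * ((deriv (N β) A * A) * conj (N β A)).re := by
    have h12 : (deriv (N β) A * (A * (x : ℂ))) * conj (N β A) =
        (x : ℂ) * ((deriv (N β) A * A) * conj (N β A)) := by ring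
    rw [h12, Complex.re_ofReal_mul]
  rw [h10, h11]
  (clear * - h7; field_simp)

theorem exp_neg_two_le : Real.exp (-2) ≤ 1 / 4 := by
  have h1 : (2:ℝ) ≤ Real.exp 1 := by
    have := Real.add_one_le_exp (1:ℝ)
    linarith only [this]
  have h2 : (4:ℝ) ≤ Real.exp 2 := by
    have h3 : Real.exp 2 = Real.exp 1 * Real.exp 1 := by
      rw [← Real.exp_add]
      norm_num
    rw [h3]
    (clear * - h1; nlinarith only [h1])
  rw [Real.exp_neg]
  rw [show (1:ℝ) / 4 = (4:ℝ)⁻¹ by norm_num]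
  exact inv_anti₀ (by norm_num) h2

/-- `log |N|` is Lipschitz in the depth -/
theorem logN_lip {C : ℝ} (hC : ∀ (β : ℂ → ℂ) (R x θ : ℝ), ExtR β R → 0 < x → x ≤ 1 / 4 →
    x * ‖ep (-x) θ * (deriv (N β) (ep (-x) θ) / N β (ep (-x) θ))‖ ≤ C)
    {β : ℂ → ℂ} {R : ℝ} (h : ExtR β R) (θ : ℝ) {l l' : ℝ} (hl : 2 ≤ l) (hl' : 2 ≤ l') :
    |Real.log ‖N β (ep (-Real.exp (-l)) θ)‖ - Real.log ‖N β (ep (-Real.exp (-l')) θ)‖| ≤
      C * |l - l'| := by
  have h1 := (convex_Ici (2:ℝ)).norm_image_sub_le_of_norm_hasDerivWithin_le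
    (f := fun l : ℝ => Real.log ‖N β (ep (-Real.exp (-l)) θ)‖) (C := C)
    (fun l _ => (hasDerivAt_logN h.toExt θ l).hasDerivWithinAt) ?_ (mem_Ici.2 hl') (mem_Ici.2 hl)
  · rw [Real.norm_eq_abs, Real.norm_eq_abs] at h1
    exact h1
  · intro l hl
    rw [mem_Ici] at hl
    have h2 : Real.exp (-l) ≤ 1 / 4 := (Real.exp_le_exp.2 (by linarith)).trans exp_neg_two_le
    have h3 := hC β R (Real.exp (-l)) θ h (Real.exp_pos _) h2
    refine le_trans ?_ h3
    rw [norm_mul, Real.norm_eq_abs, abs_of_pos (Real.exp_pos _), Real.norm_eq_abs]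
    exact mul_le_mul_of_nonneg_left (Complex.abs_re_le_norm _) (Real.exp_pos _).le

/-- pointwise form -/
theorem lip {κ : ℝ} (hκ : 0 ≤ κ) : LipStmt κ := by
  obtain ⟨C, hC0, hC⟩ := lip_N
  have hc0 : 0 < 1 - Real.exp (-Real.exp (-2)) ^ 2 := by
    have h2 : Real.exp (-Real.exp (-2)) < 1 := by
      rw [Real.exp_lt_one_iff]
      linarith [Real.exp_pos (-2)]
    (clear * - h2; nlinarith only [Real.exp_pos (-Real.exp (-2)), h2])
  have hN0 : ∀ (β : ℂ → ℂ), Ext β → ∀ x θ : ℝ, 0 < x → 0 < ‖N β (ep (-x) θ)‖ := by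
    intro β h x θ hx
    rw [norm_pos_iff]
    refine h.ne _ ?_
    rw [mem_ball_zero_iff, norm_ep, Real.exp_lt_one_iff]
    linarith
  refine ⟨max (κ * C) (Real.log ((1 - Real.exp (-Real.exp (-2)) ^ 2) ^ (-κ))),
    (mul_nonneg hκ hC0).trans (le_max_left _ _), ?_⟩
  intro β R h
  refine ⟨?_, ?_⟩
  · intro l l' θ hl hl'
    unfold FF
    have h4 := hN0 β h.toExt (Real.exp (-l)) θ (Real.exp_pos _)
    have h5 := hN0 β h.toExt (Real.exp (-l')) θ (Real.exp_pos _)
    rw [Real.rpow_def_of_pos h4, Real.rpow_def_of_pos h5, ← Real.exp_add]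
    apply Real.exp_le_exp.2
    have h6 := logN_lip hC h θ hl hl'
    have h7 := (abs_le.mp h6).1
    have h8 : κ * C * |l - l'| ≤
        max (κ * C) (Real.log ((1 - Real.exp (-Real.exp (-2)) ^ 2) ^ (-κ))) * |l - l'| :=
      mul_le_mul_of_nonneg_right (le_max_left _ _) (abs_nonneg _)
    have h9 : κ * (Real.log ‖N β (ep (-Real.exp (-l')) θ)‖ -
        Real.log ‖N β (ep (-Real.exp (-l)) θ)‖) ≤ κ * (C * |l - l'|) :=
      mul_le_mul_of_nonneg_left (by linarith) hκ
    linarith only [h8, h9]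
  · intro θ
    unfold FF
    have h3 : ‖ep (-Real.exp (-2)) θ‖ < 1 := by
      rw [norm_ep, Real.exp_lt_one_iff]
      linarith [Real.exp_pos (-2)]
    have h4 := Pool.Agent.Helper39.EK.N_ge h.toExt h3
    rw [norm_ep] at h4
    have h5 := Real.rpow_le_rpow_of_nonpos hc0 h4 (by linarith : -κ ≤ 0)
    refine h5.trans ?_
    rw [← Real.log_le_iff_le_exp (Real.rpow_pos_of_pos hc0 _)]
    exact le_max_right _ _

end Pool.Agent.Helper77.CK

end

section

namespace Pool.Agent.Helper39.Area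
end Pool.Agent.Helper39.Area
namespace Pool.Agent.Helper52.EK
end Pool.Agent.Helper52.EK
namespace Pool.Agent.Helper9.EK
end Pool.Agent.Helper9.EK
namespace Pool.Agent.Helper61.EK
end Pool.Agent.Helper61.EK

set_option autoImplicit false

open Complex MeasureTheory Metric Set

open scoped Real ComplexConjugate

namespace Pool.Agent.Helper68.EKC

open Pool.Agent.Helper39.Area Pool.Agent.Helper52.EK Pool.Agent.Helper9.EK Pool.Agent.Helper61.EK

theorem IsLog.rot {β L : ℂ → ℂ} (hL : IsLog β L) (α : ℝ) :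
    IsLog (rotβ β α) (fun z => L (Complex.exp (α * I) * z)) := by
  refine ⟨?_, ?_, ?_⟩
  · exact hL.cont.comp (by fun_prop) (fun z hz => mem_ball_rot hz)
  · simp only [mul_zero]
    exact hL.zero
  · intro z hz
    rw [rot_N' α]
    exact hL.exp _ (mem_ball_rot hz)

theorem IsLog.scale {β L : ℂ → ℂ} (h : Ext β) (hL : IsLog β L) {ρ : ℝ} (h0 : 0 < ρ)
    (h1 : ρ < 1) : IsLog (fun z => (ρ : ℂ) * β (ρ * z)) (fun z => L (ρ * z)) := by
  have hm : ∀ z ∈ ball (0:ℂ) 1, (ρ : ℂ) * z ∈ ball (0:ℂ) 1 := by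
    intro z hz
    rw [mem_ball_zero_iff] at hz ⊢
    rw [norm_mul, Complex.norm_real, Real.norm_of_nonneg h0.le]
    (clear * - h1 h0 hz; nlinarith only [h0, h1, hz])
  refine ⟨?_, ?_, ?_⟩
  · exact hL.cont.comp (by fun_prop) hm
  · simp only [mul_zero]
    exact hL.zero
  · intro z hz
    rw [Pool.Agent.Helper28.EK.scale_N h.diff (hm z hz)]
    exact hL.exp _ (hm z hz)

theorem circ_mem {a : ℝ} (ha : 0 < a) (ha1 : a < 1) (α : ℝ) :
    (a * Complex.exp (α * I) : ℂ) ∈ ball (0:ℂ) 1 := by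
  rw [mem_ball_zero_iff, norm_mul, Complex.norm_exp_ofReal_mul_I, mul_one, Complex.norm_real,
    Real.norm_eq_abs, abs_of_pos ha]
  exact ha1

theorem L_circ_cont {β L : ℂ → ℂ} (hL : IsLog β L) {a : ℝ} (ha : 0 < a) (ha1 : a < 1) :
    Continuous (fun α : ℝ => L (a * Complex.exp (α * I))) :=
  hL.cont.comp_continuous (by fun_prop) (circ_mem ha ha1)

/-- Gibbs with the complex exponent -/
theorem gibbs_U {κ : ℝ} {u : ℂ} {G : ℂ → ℂ} (hE : EntropyStmt) (hKc : KfContStmt)
    (hwc : ∀ {β : ℂ → ℂ}, Ext β → ContinuousOn (wf G β) {z | 0 < ‖z‖ ∧ ‖z‖ < 1})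
    (hK : ∃ C a₀ : ℝ, a₀ < 1 ∧ ∀ (β L : ℂ → ℂ) (R a : ℝ), ExtR β R → IsLog β L → a₀ < a → a < 1 →
      Kf (wf G β) 1 (-1) (Real.log a) ≤
        κ * (- Real.log (1 - a ^ 2) + (conj u * L a).re) + C) :
    ∃ C a₀ : ℝ, a₀ < 1 ∧ ∀ (β L : ℂ → ℂ) (R a : ℝ), ExtR β R → IsLog β L → a₀ < a → a < 1 →
      (2 * π)⁻¹ * (∫ α in (0:ℝ)..(2 * π),
        Real.exp (-(κ * (conj u * L (a * Complex.exp (α * I))).re))) ≤
        C * (1 - a ^ 2) ^ (-(κ - 1)) := by
  obtain ⟨C₁, hE⟩ := hE
  obtain ⟨C₂, a₀, ha₀, hK⟩ := hK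
  refine ⟨Real.exp (C₁ + C₂), max a₀ (Real.exp (-1)), ?_, ?_⟩
  · apply max_lt ha₀
    rw [Real.exp_lt_one_iff]
    norm_num
  intro β L R a h hL haa ha1
  have ha0 : a₀ < a := (le_max_left _ _).trans_lt haa
  have hae : Real.exp (-1) < a := (le_max_right _ _).trans_lt haa
  have hap : 0 < a := (Real.exp_pos _).trans hae
  have hs : 0 < 1 - a ^ 2 := by (clear * - ha1 hap; nlinarith only [ha1, hap])
  have hLc := L_circ_cont hL hap ha1
  have hVc : Continuous (fun α : ℝ => κ * (conj u * L (a * Complex.exp (α * I))).re) :=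
    continuous_const.mul (Complex.continuous_re.comp (continuous_const.mul hLc))
  have hVp : Function.Periodic (fun α : ℝ => κ * (conj u * L (a * Complex.exp (α * I))).re)
      (2 * π) := by
    intro α
    simp only
    rw [exp_per]
  have hKf : ∀ α : ℝ, Kf (wf G β) (Complex.exp (α * I)) (-1) (Real.log a) ≤
      κ * (conj u * L (a * Complex.exp (α * I))).re + (C₂ - κ * Real.log (1 - a ^ 2)) := by
    intro α
    rw [rot_Kf' α]
    have h1 := hK (rotβ β α) _ R a (rot_ExtR h α) (hL.rot α) ha0 ha1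
    rw [mul_comm (Complex.exp (α * I))] at h1
    linarith only [h1]
  have h2 := gibbs_core hE hKc (hwc h.toExt) hae ha1 hVc hVp hKf
  refine h2.trans (le_of_eq ?_)
  have e1 : Real.exp (C₁ + (C₂ - κ * Real.log (1 - a ^ 2))) =
      Real.exp (C₁ + C₂) * Real.exp (-(κ * Real.log (1 - a ^ 2))) := by
    rw [← Real.exp_add]
    congr 1
    ring
  rw [e1, mul_assoc]
  congr 1
  rw [Real.rpow_def_of_pos hs]
  have e2 : (1 - a ^ 2) = Real.exp (Real.log (1 - a ^ 2)) := (Real.exp_log hs).symm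
  nth_rewrite 2 [e2]
  rw [← Real.exp_add]
  congr 1
  ring

/-- all radii and all `Ext β`, by scaling -/
theorem moment_U {κ : ℝ} (hκ : 1 ≤ κ) {u : ℂ} (hu : ‖u‖ = 1)
    (hM : ∃ C a₀ : ℝ, a₀ < 1 ∧ ∀ (β L : ℂ → ℂ) (R a : ℝ), ExtR β R → IsLog β L → a₀ < a → a < 1 →
      (2 * π)⁻¹ * (∫ α in (0:ℝ)..(2 * π),
        Real.exp (-(κ * (conj u * L (a * Complex.exp (α * I))).re))) ≤
        C * (1 - a ^ 2) ^ (-(κ - 1))) :
    ∃ C : ℝ, ∀ (β L : ℂ → ℂ) (r : ℝ), Ext β → IsLog β L → 0 < r → r < 1 →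
      (2 * π)⁻¹ * (∫ α in (0:ℝ)..(2 * π),
        Real.exp (-(κ * (conj u * L (r * Complex.exp (α * I))).re))) ≤
        C * (1 - r ^ 2) ^ (-(κ - 1)) := by
  obtain ⟨C₀, a₀, ha₀, hM⟩ := hM
  obtain ⟨C₁, hC₁⟩ : ∃ C₁ : ℝ, C₁ = |C₀| * 2 ^ (κ - 1) := ⟨_, rfl⟩
  have hC₁0 : 0 ≤ C₁ := by rw [hC₁]; (clear * -; positivity)
  obtain ⟨b, hb⟩ : ∃ b : ℝ, b = max a₀ 0 := ⟨_, rfl⟩
  have hb0 : 0 ≤ b := by rw [hb]; exact le_max_right _ _
  have hb1 : b < 1 := by rw [hb]; exact max_lt ha₀ one_pos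
  have hab : a₀ ≤ b := by rw [hb]; exact le_max_left _ _
  have h1b : 0 < 1 - b ^ 2 := by nlinarith only [hb0, hb1]
  obtain ⟨C₂, hC₂⟩ : ∃ C₂ : ℝ, C₂ = Real.exp (κ * (-Real.log (1 - b ^ 2))) := ⟨_, rfl⟩
  have hC₂0 : 0 ≤ C₂ := by rw [hC₂]; positivity
  refine ⟨C₁ + C₂, ?_⟩
  intro β L r hβ hL hr0 hr1
  have hπ : 0 < 2 * π := by positivity
  have h1r : 0 < 1 - r ^ 2 := by (clear * - hr1 hr0; nlinarith only [hr0, hr1])
  have h1r1 : 1 - r ^ 2 ≤ 1 := by nlinarith only []
  have hpow1 : 1 ≤ (1 - r ^ 2) ^ (-(κ - 1)) :=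
    Real.one_le_rpow_of_pos_of_le_one_of_nonpos h1r h1r1 (by linarith)
  rcases le_or_gt r b with hrb | hrb
  · -- small radius
    have hle : ∀ α : ℝ, Real.exp (-(κ * (conj u * L (r * Complex.exp (α * I))).re)) ≤ C₂ := by
      intro α
      rw [hC₂]
      apply Real.exp_le_exp.mpr
      have h2 := hL.goluzin hβ (circ_mem hr0 hr1 α)
      rw [norm_mul, Complex.norm_exp_ofReal_mul_I, mul_one, Complex.norm_real,
        Real.norm_of_nonneg hr0.le] at h2
      have h3 : Real.log (1 - b ^ 2) ≤ Real.log (1 - r ^ 2) :=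
        Real.log_le_log h1b (by (clear * - hr0 hrb; nlinarith only [hr0, hrb]))
      have h4 : -(conj u * L (r * Complex.exp (α * I))).re ≤
          ‖L (r * Complex.exp (α * I))‖ := by
        have h5 := Complex.abs_re_le_norm (conj u * L (r * Complex.exp (α * I)))
        rw [norm_mul, RCLike.norm_conj, hu, one_mul] at h5
        exact (neg_le_abs _).trans h5
      have h6 : -(conj u * L (r * Complex.exp (α * I))).re ≤ -Real.log (1 - b ^ 2) := by linarith only [h2, h3, h4]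
      (clear * - h6 hκ; nlinarith only [hκ, h6])
    have hcont : IntervalIntegrable (fun α : ℝ =>
        Real.exp (-(κ * (conj u * L (r * Complex.exp (α * I))).re))) volume 0 (2 * π) := by
      apply Continuous.intervalIntegrable
      exact Real.continuous_exp.comp (continuous_const.mul
        (Complex.continuous_re.comp (continuous_const.mul (L_circ_cont hL hr0 hr1)))).neg
    have hint : (∫ α in (0:ℝ)..(2 * π),
        Real.exp (-(κ * (conj u * L (r * Complex.exp (α * I))).re))) ≤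
        ∫ _α in (0:ℝ)..(2 * π), C₂ :=
      intervalIntegral.integral_mono_on hπ.le hcont intervalIntegrable_const (fun α _ => hle α)
    rw [intervalIntegral.integral_const, smul_eq_mul, sub_zero] at hint
    have h3 := mul_le_mul_of_nonneg_left hint (inv_pos.mpr hπ).le
    rw [inv_mul_cancel_left₀ hπ.ne'] at h3
    calc _ ≤ C₂ := h3
      _ ≤ C₂ * (1 - r ^ 2) ^ (-(κ - 1)) := le_mul_of_one_le_right hC₂0 hpow1
      _ ≤ (C₁ + C₂) * (1 - r ^ 2) ^ (-(κ - 1)) :=
          mul_le_mul_of_nonneg_right (by linarith only [hC₁0]) (by (clear * - h1r; positivity))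
  · -- scaling
    have hex : ∃ ρ : ℝ, r < ρ ∧ ρ < 1 ∧ b < r / ρ ∧ (1 - r ^ 2) / 2 ≤ 1 - (r / ρ) ^ 2 := by
      have hcts : Filter.Tendsto (fun ρ : ℝ => r / ρ) (nhdsWithin 1 (Iio 1)) (nhds r) := by
        have h2 : ContinuousAt (fun ρ : ℝ => r / ρ) 1 :=
          continuousAt_const.div continuousAt_id one_ne_zero
        have h3 := h2.tendsto
        simp only [div_one] at h3
        exact h3.mono_left nhdsWithin_le_nhds
      have hcts2 : Filter.Tendsto (fun ρ : ℝ => 1 - (r / ρ) ^ 2) (nhdsWithin 1 (Iio 1))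
          (nhds (1 - r ^ 2)) := (hcts.pow 2).const_sub 1
      have e1 : ∀ᶠ ρ in nhdsWithin (1:ℝ) (Iio 1), b < r / ρ := hcts.eventually_const_lt hrb
      have e2 : ∀ᶠ ρ in nhdsWithin (1:ℝ) (Iio 1), (1 - r ^ 2) / 2 < 1 - (r / ρ) ^ 2 :=
        hcts2.eventually_const_lt (by (clear * - h1r; linarith only [h1r]))
      have e3 : ∀ᶠ ρ in nhdsWithin (1:ℝ) (Iio 1), r < ρ :=
        (eventually_gt_nhds hr1).filter_mono nhdsWithin_le_nhds
      have e4 : ∀ᶠ ρ in nhdsWithin (1:ℝ) (Iio 1), ρ < 1 := eventually_mem_nhdsWithin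
      obtain ⟨ρ, h4, h5, h6, h7⟩ := (e1.and (e2.and (e3.and e4))).exists
      exact ⟨ρ, h6, h7, h4, h5.le⟩
    obtain ⟨ρ, hrρ, hρ1, hbρ, hhalf⟩ := hex
    have hρ0 : 0 < ρ := hr0.trans hrρ
    have ha1 : r / ρ < 1 := by rw [div_lt_one hρ0]; exact hrρ
    have ha0 : 0 < r / ρ := by (clear * - hr0 hρ0; positivity)
    have h2 := hM _ _ _ (r / ρ) (Pool.Agent.Helper28.EK.scale_ExtR hβ hρ0 hρ1)
      (hL.scale hβ hρ0 hρ1) (lt_of_le_of_lt hab hbρ) ha1
    have hLeq : ∀ α : ℝ, (ρ : ℂ) * (((r / ρ : ℝ) : ℂ) * Complex.exp (α * I)) =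
        r * Complex.exp (α * I) := by
      intro α
      have hρC : (ρ : ℂ) ≠ 0 := by exact_mod_cast hρ0.ne'
      push_cast
      (clear * - hρC; field_simp)
    simp only [hLeq] at h2
    have hκm1 : 0 ≤ κ - 1 := by linarith only [hκ]
    have h3 : (1 - (r / ρ) ^ 2) ^ (-(κ - 1)) ≤ 2 ^ (κ - 1) * (1 - r ^ 2) ^ (-(κ - 1)) := by
      have h4 : (1 - (r / ρ) ^ 2) ^ (-(κ - 1)) ≤ ((1 - r ^ 2) / 2) ^ (-(κ - 1)) :=
        Real.rpow_le_rpow_of_nonpos (by (clear * - h1r; linarith only [h1r])) hhalf (by linarith only [hκm1])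
      refine h4.trans (le_of_eq ?_)
      rw [Real.div_rpow h1r.le (by norm_num), Real.rpow_neg (by norm_num : (0:ℝ) ≤ 2), div_inv_eq_mul,
        mul_comm]
    have h6 : 0 < 1 - (r / ρ) ^ 2 := by linarith only [h1r, hhalf]
    calc _ ≤ C₀ * (1 - (r / ρ) ^ 2) ^ (-(κ - 1)) := h2
      _ ≤ |C₀| * (1 - (r / ρ) ^ 2) ^ (-(κ - 1)) :=
          mul_le_mul_of_nonneg_right (le_abs_self _) (by (clear * - h6; positivity))
      _ ≤ |C₀| * (2 ^ (κ - 1) * (1 - r ^ 2) ^ (-(κ - 1))) :=
          mul_le_mul_of_nonneg_left h3 (abs_nonneg _)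
      _ = C₁ * (1 - r ^ 2) ^ (-(κ - 1)) := by rw [hC₁]; ring
      _ ≤ (C₁ + C₂) * (1 - r ^ 2) ^ (-(κ - 1)) :=
          mul_le_mul_of_nonneg_right (by linarith only [hC₂0]) (by (clear * - h1r; positivity))

/-- the class Sigma -/
theorem final_U {κ : ℝ} {u : ℂ} (hM : ∃ C : ℝ, ∀ (β L : ℂ → ℂ) (r : ℝ), Ext β → IsLog β L →
      0 < r → r < 1 → (2 * π)⁻¹ * (∫ α in (0:ℝ)..(2 * π),
        Real.exp (-(κ * (conj u * L (r * Complex.exp (α * I))).re))) ≤
        C * (1 - r ^ 2) ^ (-(κ - 1))) :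
    ∃ C : ℝ, ∀ ψ h : ℂ → ℂ, DifferentiableOn ℂ ψ {z : ℂ | 1 < ‖z‖} →
      InjOn ψ {z : ℂ | 1 < ‖z‖} →
      (∃ b : ℂ, Filter.Tendsto (fun z => ψ z - z) (Bornology.cobounded ℂ) (nhds b)) →
      DifferentiableOn ℂ h {z : ℂ | 1 < ‖z‖} →
      (∀ z : ℂ, 1 < ‖z‖ → Complex.exp (h z) = deriv ψ z) →
      Filter.Tendsto h (Bornology.cobounded ℂ) (nhds 0) →
      ∀ R : ℝ, 1 < R →
      (2 * π)⁻¹ * (∫ θ in (0:ℝ)..(2 * π),
        Real.exp (-(κ * (conj u * h (R * Complex.exp (θ * I))).re))) ≤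
        C * (R ^ 2 / (R ^ 2 - 1)) ^ (κ - 1) := by
  obtain ⟨C, hC⟩ := hM
  refine ⟨C, ?_⟩
  rintro ψ h hψ hinj ⟨b, hb⟩ hh hexp hh0 R hR
  have hR0 : 0 < R := by (clear * - hR; linarith only [hR])
  obtain ⟨hE, hex⟩ := ext_data hψ hinj hb hexp
  have hr0 : 0 < R⁻¹ := by positivity
  have hr1 : R⁻¹ < 1 := inv_lt_one_of_one_lt₀ hR
  have hLog : IsLog (toDisc b (fun z => ψ z - z)) (toDisc 0 h) :=
    ⟨(toDisc_diff hh hh0).continuousOn, by simp [toDisc], hex⟩
  have hmain := hC _ _ R⁻¹ hE hLog hr0 hr1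
  obtain ⟨k, hk⟩ : ∃ k : ℝ → ℝ, k = fun (α : ℝ) =>
    Real.exp (-(κ * (conj u * toDisc 0 h (((R⁻¹ : ℝ) : ℂ) * Complex.exp (α * I))).re)) :=
    ⟨_, rfl⟩
  have h1 : ∀ θ : ℝ, Real.exp (-(κ * (conj u * h (R * Complex.exp (θ * I))).re)) = k (-θ) := by
    intro θ
    have hne0 : ((R⁻¹ : ℝ) : ℂ) * Complex.exp (((-θ : ℝ) : ℂ) * I) ≠ 0 := by
      apply mul_ne_zero _ (Complex.exp_ne_zero _)
      exact_mod_cast inv_ne_zero hR0.ne'
    have h2 : (((R⁻¹ : ℝ) : ℂ) * Complex.exp (((-θ : ℝ) : ℂ) * I))⁻¹ =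
        (R : ℂ) * Complex.exp ((θ : ℂ) * I) := by
      rw [mul_inv, ← Complex.exp_neg]
      push_cast
      rw [inv_inv]
      congr 2
      ring
    simp only [hk, toDisc]
    rw [if_neg hne0, h2]
  simp_rw [h1]
  rw [intervalIntegral.integral_comp_neg (fun θ => k θ)]
  have hper : Function.Periodic k (2 * π) := by
    intro θ
    simp only [hk]
    rw [exp_per]
  have h2 := hper.intervalIntegral_add_eq (-(2 * π)) 0
  have e1 : -(2 * π) + 2 * π = (0:ℝ) := by ring
  have e2 : (0:ℝ) + 2 * π = 2 * π := by ring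
  rw [e1, e2] at h2
  rw [neg_zero, h2]
  have hRR : 0 < R ^ 2 - 1 := by (clear * - hR; nlinarith only [hR])
  have hx : (1 - R⁻¹ ^ 2) ^ (-(κ - 1)) = (R ^ 2 / (R ^ 2 - 1)) ^ (κ - 1) := by
    have h3 : 1 - R⁻¹ ^ 2 = (R ^ 2 / (R ^ 2 - 1))⁻¹ := by
      rw [inv_pow]
      (clear * - hR hRR; field_simp)
    rw [h3, Real.inv_rpow (by (clear * - hR hRR; positivity)), Real.rpow_neg (by (clear * - hR hRR; positivity)), inv_inv]
  rw [hx] at hmain
  rw [hk]
  exact hmain

end Pool.Agent.Helper68.EKC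

end

section

namespace Pool.Agent.Helper39.Area
end Pool.Agent.Helper39.Area
namespace Pool.Agent.Helper52.EK
end Pool.Agent.Helper52.EK
namespace Pool.Agent.Helper52.CK
end Pool.Agent.Helper52.CK
namespace Pool.Agent.Helper68.EKC
end Pool.Agent.Helper68.EKC
namespace Pool.Agent.Helper97.CKC
end Pool.Agent.Helper97.CKC
namespace Pool.Agent.Helper9.EK
end Pool.Agent.Helper9.EK

set_option autoImplicit false

open Complex MeasureTheory Metric Set

open scoped Real ComplexConjugate ContDiff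

namespace Pool.Agent.Helper52.CKC

open Pool.Agent.Helper39.Area Pool.Agent.Helper52.EK Pool.Agent.Helper52.CK

open Pool.Agent.Helper68.EKC Pool.Agent.Helper97.CKC Pool.Agent.Helper9.EK

/-- localised mean at depth `l` -/
noncomputable def mmC (κ : ℝ) (u : ℂ) (v : ℝ → ℝ) (L : ℂ → ℂ) (l : ℝ) : ℝ :=
  (2 * π)⁻¹ * ∫ θ in (-π)..π, v θ * FC κ u L (Real.exp (-l)) θ

/-- the level function -/
noncomputable def GGC (κ dl : ℝ) (u : ℂ) (v : ℝ → ℝ) (L : ℂ → ℂ) (l : ℝ) : ℝ :=
  Real.log (mmC κ u v L (l + 2)) - (κ - 1 + dl) * (l + 2)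

theorem exp_GGC {κ dl : ℝ} {u : ℂ} {v : ℝ → ℝ} {L : ℂ → ℂ} {l : ℝ} (h : 0 < mmC κ u v L (l + 2)) :
    Real.exp (GGC κ dl u v L l) = mmC κ u v L (l + 2) * Real.exp (-((κ - 1 + dl) * (l + 2))) := by
  unfold GGC
  rw [sub_eq_add_neg, Real.exp_add, Real.exp_log h]

theorem ep_mem {x : ℝ} (hx : 0 < x) (θ : ℝ) : ep (-x) θ ∈ ball (0:ℂ) 1 := by
  rw [mem_ball_zero_iff, norm_ep, Real.exp_lt_one_iff]
  linarith only [hx]

theorem FC_pos (κ : ℝ) (u : ℂ) (L : ℂ → ℂ) (x θ : ℝ) : 0 < FC κ u L x θ := Real.exp_pos _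

theorem FC_comp_cont (κ : ℝ) (u : ℂ) {L : ℂ → ℂ} (hL : ContinuousOn L (ball 0 1)) {X : Type*}
    [TopologicalSpace X] {g k : X → ℝ} (hg : Continuous g) (hk : Continuous k)
    (hpos : ∀ q, 0 < g q) : Continuous (fun q => FC κ u L (g q) (k q)) := by
  have hc : Continuous (fun q => ep (-(g q)) (k q)) := by
    unfold ep
    fun_prop
  have h1 : Continuous (fun q => L (ep (-(g q)) (k q))) :=
    hL.comp_continuous hc fun q => ep_mem (hpos q) _
  unfold FC
  exact Real.continuous_exp.comp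
    (continuous_const.mul (Complex.continuous_re.comp (continuous_const.mul h1))).neg

theorem FC_cont (κ : ℝ) (u : ℂ) {L : ℂ → ℂ} (hL : ContinuousOn L (ball 0 1)) {a : ℝ}
    (ha : 0 < a) : Continuous (fun q : ℝ × ℝ => FC κ u L (max a q.1) q.2) :=
  FC_comp_cont κ u hL (by fun_prop) continuous_snd fun _ => lt_max_of_lt_left ha

theorem FC_cont_th (κ : ℝ) (u : ℂ) {L : ℂ → ℂ} (hL : ContinuousOn L (ball 0 1)) {x : ℝ}
    (hx : 0 < x) : Continuous (FC κ u L x) :=
  FC_comp_cont κ u hL continuous_const continuous_id fun _ => hx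

/-- rotation of the logarithm -/
noncomputable def rotL (L : ℂ → ℂ) (α : ℝ) (z : ℂ) : ℂ := L (Complex.exp (α * I) * z)

theorem rot_IsLog {β L : ℂ → ℂ} (hL : IsLog β L) (α : ℝ) : IsLog (rotβ β α) (rotL L α) where
  cont := by
    have h1 : ContinuousOn (fun z : ℂ => Complex.exp (α * I) * z) (ball 0 1) := by fun_prop
    exact hL.cont.comp h1 fun z hz => mem_ball_rot hz
  zero := by
    unfold rotL
    rw [mul_zero]
    exact hL.zero
  exp := by
    intro z hz
    unfold rotL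
    rw [hL.exp _ (mem_ball_rot hz), rot_N']

theorem rot_FC (κ : ℝ) (u : ℂ) (L : ℂ → ℂ) (α x θ : ℝ) :
    FC κ u (rotL L α) x θ = FC κ u L x (θ + α) := by
  unfold FC rotL
  rw [ep_add]

theorem FC_per (κ : ℝ) (u : ℂ) (L : ℂ → ℂ) (x : ℝ) : Function.Periodic (FC κ u L x) (2 * π) := by
  intro θ
  unfold FC
  rw [ep_two_pi]

/-- rotation of the localised mean -/
theorem rot_intC {κ : ℝ} {u : ℂ} {v : ℝ → ℝ} (vp : Function.Periodic v (2 * π)) (L : ℂ → ℂ)
    (x α : ℝ) :
    ∫ θ in (-π)..π, v (θ + α) * FC κ u L x θ =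
      ∫ θ in (-π)..π, v θ * FC κ u (rotL L (-α)) x θ := by
  have h1 : ∀ θ, v (θ + α) * FC κ u L x θ =
      (fun t => v t * FC κ u (rotL L (-α)) x t) (θ + α) := by
    intro θ
    simp only
    rw [rot_FC]
    congr 2
    ring
  simp only [h1]
  rw [intervalIntegral.integral_comp_add_right (fun t => v t * FC κ u (rotL L (-α)) x t)]
  have hper : Function.Periodic (fun t => v t * FC κ u (rotL L (-α)) x t) (2 * π) := by
    intro t
    simp only
    rw [vp t, FC_per]
  have := hper.intervalIntegral_add_eq (-π + α) (-π)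
  have e1 : -π + α + 2 * π = π + α := by ring
  have e2 : -π + 2 * π = π := by ring
  rw [e1, e2] at this
  exact this

section means

variable {κ dl : ℝ} {u : ℂ} {v : ℝ → ℝ} {L : ℂ → ℂ}

theorem mmC_cont (hL : ContinuousOn L (ball 0 1)) (cv : Continuous v) :
    Continuous (mmC κ u v L) := by
  unfold mmC
  refine continuous_const.mul ?_
  refine intervalIntegral.continuous_parametric_intervalIntegral_of_continuous'
    (f := fun l θ => v θ * FC κ u L (Real.exp (-l)) θ) ?_ _ _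
  have h1 := FC_comp_cont κ u hL (g := fun q : ℝ × ℝ => Real.exp (-q.1)) (k := fun q => q.2)
    (by fun_prop) (by fun_prop) (fun q => Real.exp_pos _)
  exact (cv.comp continuous_snd).mul h1

theorem int_posC (hL : ContinuousOn L (ball 0 1)) (cv : Continuous v) (v0 : ∀ θ, 0 ≤ v θ)
    (hv : 0 < v 0) {x : ℝ} (hx : 0 < x) : 0 < ∫ θ in (-π)..π, v θ * FC κ u L x θ := by
  have hpi := Real.pi_pos
  refine intervalIntegral.integral_pos (by (clear * - hpi; linarith)) ?_ ?_ ?_
  · exact (cv.mul (FC_cont_th κ u hL hx)).continuousOn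
  · intro θ _
    exact mul_nonneg (v0 θ) (FC_pos κ u L x θ).le
  · exact ⟨0, ⟨by (clear * - hpi; linarith), hpi.le⟩, mul_pos hv (FC_pos κ u L x 0)⟩

theorem mmC_pos (hL : ContinuousOn L (ball 0 1)) (cv : Continuous v) (v0 : ∀ θ, 0 ≤ v θ)
    (hv : 0 < v 0) (l : ℝ) : 0 < mmC κ u v L l := by
  unfold mmC
  exact mul_pos (by (clear * -; positivity)) (int_posC hL cv v0 hv (Real.exp_pos _))

theorem GGC_cont (hL : ContinuousOn L (ball 0 1)) (cv : Continuous v) (v0 : ∀ θ, 0 ≤ v θ)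
    (hv : 0 < v 0) : Continuous (GGC κ dl u v L) := by
  unfold GGC
  have h1 : Continuous fun l : ℝ => mmC κ u v L (l + 2) :=
    (mmC_cont hL cv).comp (continuous_id.add continuous_const)
  exact (h1.log fun l => (mmC_pos hL cv v0 hv _).ne').sub (by fun_prop)

end means

theorem hasDerivAt_IsLog {β L : ℂ → ℂ} (h : Ext β) (hL : IsLog β L) {z : ℂ}
    (hz : z ∈ ball (0:ℂ) 1) : HasDerivAt L (deriv (N β) z / N β z) z := by
  have hNd := (Pool.Agent.Helper77.CK.differentiableOn_N h).differentiableAt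
    (isOpen_ball.mem_nhds hz)
  have h1 : HasDerivAt Complex.exp (Complex.exp (L z)) (L z) := Complex.hasDerivAt_exp _
  have hLc : ContinuousAt L z := hL.cont.continuousAt (isOpen_ball.mem_nhds hz)
  have h2 : (fun w => Complex.exp (L w)) =ᶠ[nhds z] N β := by
    filter_upwards [isOpen_ball.mem_nhds hz] with w hw
    exact hL.exp w hw
  have h3 : HasDerivAt (fun w => Complex.exp (L w)) (deriv (N β) z) z :=
    hNd.hasDerivAt.congr_of_eventuallyEq h2
  have h4 := HasDerivAt.of_comp_left hLc h1 h3 (Complex.exp_ne_zero _)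
  rw [hL.exp z hz] at h4
  exact h4 (Filter.Eventually.of_forall fun _ => rfl)

/-- LIP for complex exponents -/
def LipC (κ : ℝ) (u : ℂ) : Prop :=
  ∃ A : ℝ, 0 ≤ A ∧ ∀ (β L : ℂ → ℂ) (R : ℝ), ExtR β R → IsLog β L →
    (∀ l l' θ : ℝ, 2 ≤ l → 2 ≤ l' →
      FC κ u L (Real.exp (-l)) θ ≤ Real.exp (A * |l - l'|) * FC κ u L (Real.exp (-l')) θ) ∧
    ∀ θ : ℝ, FC κ u L (Real.exp (-2)) θ ≤ Real.exp A

theorem lipC {κ : ℝ} (hκ : 0 ≤ κ) {u : ℂ} (hu : ‖u‖ = 1) : LipC κ u := by
  obtain ⟨C, hC0, hC⟩ := Pool.Agent.Helper77.CK.lip_N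
  obtain ⟨r, hr⟩ : ∃ r : ℝ, r = Real.exp (-Real.exp (-2)) := ⟨_, rfl⟩
  have hr1 : r < 1 := by
    rw [hr, Real.exp_lt_one_iff]
    linarith [Real.exp_pos (-2)]
  have hr0 : 0 < r := by rw [hr]; exact Real.exp_pos _
  obtain ⟨B, hB⟩ : ∃ B : ℝ, B = -Real.log (1 - r ^ 2) := ⟨_, rfl⟩
  have hB0 : 0 ≤ B := by
    rw [hB]
    have : Real.log (1 - r ^ 2) ≤ 0 := Real.log_nonpos (by (clear * - hr1 hr0; nlinarith only [hr1, hr0])) (by nlinarith only [])
    linarith
  refine ⟨κ * C + κ * B, by (clear * - hκ hC0 hB0; positivity), ?_⟩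
  intro β L R hβ hL
  constructor
  · intro l l' θ hl hl'
    -- derivative in the depth
    obtain ⟨f, hf⟩ : ∃ f : ℝ → ℝ, f = fun l => κ * (conj u * L (ep (-Real.exp (-l)) θ)).re :=
      ⟨_, rfl⟩
    have hder : ∀ l : ℝ, HasDerivAt f (κ * (conj u * ((deriv (N β) (ep (-Real.exp (-l)) θ) /
        N β (ep (-Real.exp (-l)) θ)) * (ep (-Real.exp (-l)) θ *
          ((Real.exp (-l) : ℝ) : ℂ)))).re) l := by
      intro l
      have hz : ep (-Real.exp (-l)) θ ∈ ball (0:ℂ) 1 := ep_mem (Real.exp_pos _) θ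
      have h1 : HasDerivAt (fun l : ℝ => Real.exp (-l)) (-Real.exp (-l)) l := by
        have h0 := (hasDerivAt_neg l).exp
        rw [mul_neg_one] at h0
        exact h0
      have h2 : HasDerivAt (fun l : ℝ => ((-Real.exp (-l) : ℝ) : ℂ) + (θ : ℂ) * I)
          ((Real.exp (-l) : ℝ) : ℂ) l := by
        have h3 := h1.neg.ofReal_comp.add_const ((θ : ℂ) * I)
        simpa using h3
      have h3 : HasDerivAt (fun l : ℝ => ep (-Real.exp (-l)) θ)
          (ep (-Real.exp (-l)) θ * ((Real.exp (-l) : ℝ) : ℂ)) l := by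
        unfold ep
        exact h2.cexp
      have h4 : HasDerivAt (fun l : ℝ => L (ep (-Real.exp (-l)) θ))
          ((deriv (N β) (ep (-Real.exp (-l)) θ) / N β (ep (-Real.exp (-l)) θ)) *
            (ep (-Real.exp (-l)) θ * ((Real.exp (-l) : ℝ) : ℂ))) l :=
        (hasDerivAt_IsLog hβ.toExt hL hz).comp_of_eq l h3 rfl
      have h5 := (Complex.reCLM.hasFDerivAt.comp_hasDerivAt l (h4.const_mul (conj u))).const_mul κ
      rw [hf]
      exact h5
    have hbound : ∀ l : ℝ, 2 ≤ l → ‖κ * (conj u * ((deriv (N β) (ep (-Real.exp (-l)) θ) /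
        N β (ep (-Real.exp (-l)) θ)) * (ep (-Real.exp (-l)) θ *
          ((Real.exp (-l) : ℝ) : ℂ)))).re‖ ≤ κ * C := by
      intro l hl
      have hx4 : Real.exp (-l) ≤ 1 / 4 :=
        (Real.exp_le_exp.2 (by linarith only [hl])).trans Pool.Agent.Helper77.CK.exp_neg_two_le
      have h1 := hC β R (Real.exp (-l)) θ hβ (Real.exp_pos _) hx4
      rw [norm_mul, Real.norm_of_nonneg hκ]
      refine mul_le_mul_of_nonneg_left ?_ hκ
      rw [Real.norm_eq_abs]
      refine (Complex.abs_re_le_norm _).trans ?_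
      rw [norm_mul, RCLike.norm_conj, hu, one_mul]
      refine le_trans (le_of_eq ?_) h1
      rw [norm_mul, norm_mul, norm_mul, Complex.norm_real,
        Real.norm_of_nonneg (Real.exp_pos _).le]
      ring
    have hmv : ‖f l - f l'‖ ≤ κ * C * ‖l - l'‖ := by
      refine Convex.norm_image_sub_le_of_norm_hasDerivWithin_le (s := Ici 2)
        (fun x _ => (hder x).hasDerivWithinAt) (fun x hx => hbound x hx) (convex_Ici 2) hl' hl
    rw [Real.norm_eq_abs, Real.norm_eq_abs] at hmv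
    have h6 := (abs_le.1 hmv).1
    unfold FC
    rw [← Real.exp_add]
    refine Real.exp_le_exp.2 ?_
    have h7 : 0 ≤ κ * B * |l - l'| := by (clear * - hκ hB0; positivity)
    have e1 : f l = κ * (conj u * L (ep (-Real.exp (-l)) θ)).re := by rw [hf]
    have e2 : f l' = κ * (conj u * L (ep (-Real.exp (-l')) θ)).re := by rw [hf]
    rw [← e1, ← e2]
    linarith only [h6, h7]
  · intro θ
    have hz : ep (-Real.exp (-2)) θ ∈ ball (0:ℂ) 1 := ep_mem (Real.exp_pos _) θ
    have h1 := IsLog.goluzin hβ.toExt hL hz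
    rw [norm_ep, ← hr, ← hB] at h1
    unfold FC
    refine Real.exp_le_exp.2 ?_
    have h2 : -(conj u * L (ep (-Real.exp (-2)) θ)).re ≤ B := by
      have h3 := Complex.abs_re_le_norm (conj u * L (ep (-Real.exp (-2)) θ))
      rw [norm_mul, RCLike.norm_conj, hu, one_mul] at h3
      have := (abs_le.1 (h3.trans h1)).1
      linarith
    have h3 := mul_le_mul_of_nonneg_left h2 hκ
    have h4 : 0 ≤ κ * C := by positivity
    linarith

/-- the inequality of one level: entropy and the inequality of the targets -/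
theorem levelC {κ dl CE C C₀ ε s n x : ℝ} {u : ℂ} {L : ℂ → ℂ}
    (hL : ContinuousOn L (ball 0 1)) {w : ℂ → ℂ}
    (hκ : 1 ≤ κ) (hw : ContinuousOn w {z | 0 < ‖z‖ ∧ ‖z‖ < 1}) {v : ℝ → ℝ} (cv : Continuous v)
    (v0 : ∀ θ, 0 ≤ v θ) (vs : ∀ θ ∈ Icc (-π) π, v θ ≠ 0 → |θ| ≤ s) (hx : 0 < x)
    (hx4 : x ≤ 1 / 4) {Mx : ℝ → ℝ} (cM : Continuous Mx) {m : ℝ}
    (hm : m = (2 * π)⁻¹ * ∫ θ in (-π)..π, v θ * FC κ u L x θ) (hm0 : 0 < m)
    (hE : m * Real.log m ≤ m * (Real.log (1 - Real.exp (-2 * x)) + CE) +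
      (2 * π)⁻¹ * ∫ θ in (-π)..π, v θ * FC κ u L x θ *
        (Kf w (Complex.exp (θ * I)) (-1) (-x) - κ * (conj u * L (ep (-x) θ)).re))
    (hP : ∀ θ, |θ| ≤ s → Kf w (Complex.exp (θ * I)) (-1) (-x) ≤
      κ * (-Real.log (1 - Real.exp (-2 * x)) + (conj u * L (ep (-x) θ)).re) +
        Mx θ + C + (dl + ε) * (-Real.log x) + C₀ * (-Real.log x - n)) :
    m * Real.log m ≤ m * ((κ - 1) * (-Real.log x) + CE + C + (dl + ε) * (-Real.log x) +
      C₀ * (-Real.log x - n)) + (2 * π)⁻¹ * ∫ θ in (-π)..π, v θ * FC κ u L x θ * Mx θ := by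
  have hpi := Real.pi_pos
  have hge := one_sub_exp_ge hx hx4
  have h1e : 0 < 1 - Real.exp (-2 * x) := hx.trans_le hge
  have cF := FC_cont_th κ u hL hx
  have cK : Continuous fun θ : ℝ => Kf w (Complex.exp (θ * I)) (-1) (-x) :=
    Pool.Agent.Helper26.EK.Kf_cont hw (by linarith only [hx4]) (by (clear * - hx; linarith only [hx]))
  have cN : Continuous fun θ : ℝ => (conj u * L (ep (-x) θ)).re := by
    have hc : Continuous (fun q => ep (-x) q) := by
      unfold ep
      fun_prop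
    have h1 : Continuous (fun q => L (ep (-x) q)) := hL.comp_continuous hc fun q => ep_mem hx _
    exact Complex.continuous_re.comp (continuous_const.mul h1)
  obtain ⟨c, hc⟩ : ∃ c : ℝ, c = -κ * Real.log (1 - Real.exp (-2 * x)) + C +
    (dl + ε) * (-Real.log x) + C₀ * (-Real.log x - n) := ⟨_, rfl⟩
  have hint : ∫ θ in (-π)..π, v θ * FC κ u L x θ *
        (Kf w (Complex.exp (θ * I)) (-1) (-x) - κ * (conj u * L (ep (-x) θ)).re) ≤
      ∫ θ in (-π)..π, (c * (v θ * FC κ u L x θ) + v θ * FC κ u L x θ * Mx θ) := by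
    refine intervalIntegral.integral_mono_on (by (clear * - hpi; linarith only [hpi])) ?_ ?_ ?_
    · exact ((cv.mul cF).mul (cK.sub (continuous_const.mul cN))).intervalIntegrable _ _
    · exact ((continuous_const.mul (cv.mul cF)).add ((cv.mul cF).mul cM)).intervalIntegrable _ _
    · intro θ hθ
      by_cases hv : v θ = 0
      · simp [hv]
      · have h1 := hP θ (vs θ hθ hv)
        have h2 : Kf w (Complex.exp (θ * I)) (-1) (-x) - κ * (conj u * L (ep (-x) θ)).re ≤
            c + Mx θ := by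
          rw [hc]
          (clear * - h1; linarith only [h1])
        have h3 : 0 ≤ v θ * FC κ u L x θ := mul_nonneg (v0 θ) (FC_pos κ u L x θ).le
        calc _ ≤ v θ * FC κ u L x θ * (c + Mx θ) := mul_le_mul_of_nonneg_left h2 h3
          _ = _ := by ring
  have hi1 : IntervalIntegrable (fun θ => c * (v θ * FC κ u L x θ)) volume (-π) π :=
    (continuous_const.mul (cv.mul cF)).intervalIntegrable _ _
  have hi2 : IntervalIntegrable (fun θ => v θ * FC κ u L x θ * Mx θ) volume (-π) π :=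
    ((cv.mul cF).mul cM).intervalIntegrable _ _
  rw [intervalIntegral.integral_add hi1 hi2, intervalIntegral.integral_const_mul] at hint
  have h4 : (2 * π)⁻¹ * ∫ θ in (-π)..π, v θ * FC κ u L x θ *
        (Kf w (Complex.exp (θ * I)) (-1) (-x) - κ * (conj u * L (ep (-x) θ)).re) ≤
      c * m + (2 * π)⁻¹ * ∫ θ in (-π)..π, v θ * FC κ u L x θ * Mx θ := by
    refine (mul_le_mul_of_nonneg_left hint (by positivity)).trans (le_of_eq ?_)
    rw [hm]
    ring
  have h5 : Real.log x ≤ Real.log (1 - Real.exp (-2 * x)) := Real.log_le_log hx hge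
  have h6 : (1 - κ) * Real.log (1 - Real.exp (-2 * x)) ≤ (κ - 1) * (-Real.log x) := by
    (clear * - hκ h5; nlinarith only [hκ, h5])
  have h7 := mul_le_mul_of_nonneg_left h6 hm0.le
  rw [hc] at h4
  linarith only [h4, h7, hE]

end Pool.Agent.Helper52.CKC

end

section

namespace Pool.Agent.Helper39.Area
end Pool.Agent.Helper39.Area
namespace Pool.Agent.Helper52.EK
end Pool.Agent.Helper52.EK
namespace Pool.Agent.Helper52.CK
end Pool.Agent.Helper52.CK
namespace Pool.Agent.Helper68.EKC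
end Pool.Agent.Helper68.EKC
namespace Pool.Agent.Helper97.CKC
end Pool.Agent.Helper97.CKC
namespace Pool.Agent.Helper9.EK
end Pool.Agent.Helper9.EK

set_option autoImplicit false

open Complex MeasureTheory Metric Set

open scoped Real ComplexConjugate ContDiff

namespace Pool.Agent.Helper52.CKC

open Pool.Agent.Helper39.Area Pool.Agent.Helper52.EK Pool.Agent.Helper52.CK

open Pool.Agent.Helper68.EKC Pool.Agent.Helper97.CKC Pool.Agent.Helper9.EK

/-- continuity of the term of the multiplier in the target -/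
def MContC (κ dl : ℝ) (u : ℂ) : Prop :=
  ∀ (a b : ℝ), 0 < a → a < b → b ≤ 1 / 4 → ∀ (β : ℂ → ℂ) (R : ℝ), ExtR β R →
    ∀ (W0 : ℂ → ℝ) (Mh : ℂ → ℂ) (Mb : ℝ), Cutf b W0 →
      ContinuousOn Mh {z | 0 < ‖z‖ ∧ ‖z‖ < 1} → (∀ z, ‖Mh z‖ ≤ Mb) →
      ContinuousOn (fun p : ℝ × ℝ => MC κ dl u W0 Mh β p.1 p.2) (Icc a b ×ˢ Icc (-(1 / 2)) (1 / 2))

/-- truncation of a function continuous on a rectangle -/
theorem trunc {a b : ℝ} (hab : a ≤ b) {F : ℝ → ℝ → ℝ}
    (h : ContinuousOn (fun p : ℝ × ℝ => F p.1 p.2) (Icc a b ×ˢ Icc (-(1 / 2)) (1 / 2))) :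
    ∃ H : ℝ → ℝ → ℝ, Continuous (fun q : ℝ × ℝ => H q.1 q.2) ∧
      ∀ x θ, a ≤ x → x ≤ b → |θ| ≤ 1 / 2 → H x θ = F x θ := by
  refine ⟨fun x θ => F (max a (min x b)) (max (-(1 / 2)) (min θ (1 / 2))), ?_, ?_⟩
  · have h1 : Continuous (fun q : ℝ × ℝ =>
        (max a (min q.1 b), max (-(1 / 2)) (min q.2 (1 / 2)))) := by
      fun_prop
    have h2 : ∀ q : ℝ × ℝ, (max a (min q.1 b), max (-(1 / 2)) (min q.2 (1 / 2))) ∈
        Icc a b ×ˢ Icc (-(1 / 2) : ℝ) (1 / 2) := by
      intro q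
      refine Set.mk_mem_prod ?_ ?_
      · exact ⟨le_max_left _ _, max_le hab (min_le_right _ _)⟩
      · exact ⟨le_max_left _ _, max_le (by norm_num) (min_le_right _ _)⟩
    exact h.comp_continuous h1 h2
  · intro x θ hx hx2 hθ
    obtain ⟨h1, h2⟩ := abs_le.1 hθ
    simp only
    rw [min_eq_left hx2, max_eq_right hx, min_eq_left h2, max_eq_right h1]

section JJs

variable {κ dl n : ℝ} {u : ℂ} {w : ℝ → ℝ} {v : ℝ → ℝ} {L : ℂ → ℂ}

theorem two_pi_mmC (l : ℝ) : ∫ θ in (-π)..π, v θ * FC κ u L (Real.exp (-l)) θ =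
    2 * π * mmC κ u v L l := by
  have hpi := Real.pi_pos
  unfold mmC
  (clear * -; field_simp)

theorem JC_eq (hL : ContinuousOn L (ball 0 1)) (cv : Continuous v) (v0 : ∀ θ, 0 ≤ v θ)
    (hv : 0 < v 0) (hn : 0 ≤ n) :
    JC κ u (omw w (κ - 2 + dl)) v (Real.exp (-(2 * n + 2))) (Real.exp (-(n + 2))) L =
      2 * π * ∫ l in n..(2 * n), Real.exp (GGC κ dl u v L l) * w l := by
  unfold JC
  have e1 : (fun x θ => omw w (κ - 2 + dl) x * v θ * FC κ u L x θ) =
      fun x θ => omw w (κ - 2 + dl) x * (v θ * FC κ u L x θ) := by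
    funext x θ
    ring
  rw [e1, RR_omw hn, ← intervalIntegral.integral_const_mul]
  refine intervalIntegral.integral_congr fun l _ => ?_
  rw [two_pi_mmC, exp_GGC (mmC_pos hL cv v0 hv _)]
  have e2 : κ - 2 + dl + 1 = κ - 1 + dl := by ring
  rw [e2]
  ring

theorem JDC_eq (hL : ContinuousOn L (ball 0 1)) (cv : Continuous v) (v0 : ∀ θ, 0 ≤ v θ)
    (hv : 0 < v 0) (hn : 0 ≤ n) :
    RR (Real.exp (-(2 * n + 2))) (Real.exp (-(n + 2))) (fun x θ =>
      |(κ - 2 + dl) * omw w (κ - 2 + dl) x - x * omw' w (κ - 2 + dl) x| * v θ * FC κ u L x θ) =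
      2 * π * ∫ l in n..(2 * n), Real.exp (GGC κ dl u v L l) * |deriv w l| := by
  have e1 : (fun x θ => |(κ - 2 + dl) * omw w (κ - 2 + dl) x - x * omw' w (κ - 2 + dl) x| *
      v θ * FC κ u L x θ) = fun x θ => |(κ - 2 + dl) * omw w (κ - 2 + dl) x -
      x * omw' w (κ - 2 + dl) x| * (v θ * FC κ u L x θ) := by
    funext x θ
    ring
  rw [e1, RR_omw_abs hn, ← intervalIntegral.integral_const_mul]
  refine intervalIntegral.integral_congr fun l _ => ?_
  rw [two_pi_mmC, exp_GGC (mmC_pos hL cv v0 hv _)]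
  have e2 : κ - 2 + dl + 1 = κ - 1 + dl := by ring
  rw [e2]
  ring

/-- the angular term is dominated by rotations -/
theorem JUC_le {om om' v' : ℝ → ℝ} {a b : ℝ} (hL : ContinuousOn L (ball 0 1))
    (hW : Wt om om' v v' a b) {K : ℕ} {Cu : ℝ} (hCu : 0 ≤ Cu)
    (cov : ∀ θ, |v' θ| ≤ Cu * ∑ j ∈ Finset.range K, v (θ + 2 * π * j / K)) :
    RR a b (fun x θ => om x * |v' θ| * FC κ u L x θ) ≤
      Cu * ∑ j ∈ Finset.range K, JC κ u om v a b (rotL L (-(2 * π * j / K))) := by
  have co : Continuous om := continuous_iff_continuousAt.2 fun x => (hW.dom x).continuousAt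
  have cv : Continuous v := continuous_iff_continuousAt.2 fun x => (hW.du x).continuousAt
  have cF := FC_cont κ u hL hW.a0
  have com : Continuous (fun q : ℝ × ℝ => om (max a q.1)) := by fun_prop
  have h1 : RR a b (fun x θ => om x * |v' θ| * FC κ u L x θ) ≤ RR a b (fun x θ =>
      Cu * ∑ j ∈ Finset.range K, om x * v (θ + 2 * π * j / K) * FC κ u L x θ) := by
    refine RR_mono hW.ab.le ?_ ?_ ?_
    · have : Continuous (fun q : ℝ × ℝ => |v' q.2|) := (hW.cu.comp continuous_snd).abs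
      exact (com.mul this).mul cF
    · refine continuous_const.mul (continuous_finsetSum _ fun j _ => ?_)
      have : Continuous (fun q : ℝ × ℝ => v (q.2 + 2 * π * j / K)) := by fun_prop
      exact (com.mul this).mul cF
    · intro x θ hx _
      have hF := (FC_pos κ u L x θ).le
      have hc := cov θ
      have h2 : om x * FC κ u L x θ * |v' θ| ≤ om x * FC κ u L x θ *
          (Cu * ∑ j ∈ Finset.range K, v (θ + 2 * π * j / K)) :=
        mul_le_mul_of_nonneg_left hc (mul_nonneg (hW.om0 x) hF)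
      have e : Cu * ∑ j ∈ Finset.range K, om x * v (θ + 2 * π * j / K) * FC κ u L x θ =
          om x * FC κ u L x θ * (Cu * ∑ j ∈ Finset.range K, v (θ + 2 * π * j / K)) := by
        rw [Finset.mul_sum, Finset.mul_sum, Finset.mul_sum]
        refine Finset.sum_congr rfl fun j _ => ?_
        ring
      rw [e]
      calc om x * |v' θ| * FC κ u L x θ = om x * FC κ u L x θ * |v' θ| := by ring
        _ ≤ _ := h2
  rw [RR_sum hW.ab.le K Cu (F := fun j x θ => om x * v (θ + 2 * π * j / K) * FC κ u L x θ)] at h1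
  · refine h1.trans (mul_le_mul_of_nonneg_left (Finset.sum_le_sum fun j _ => ?_) hCu)
    refine le_of_eq ?_
    unfold JC RR
    refine intervalIntegral.integral_congr fun x _ => ?_
    simp only
    have e1 : ∀ θ, om x * v (θ + 2 * π * j / K) * FC κ u L x θ =
        om x * (v (θ + 2 * π * j / K) * FC κ u L x θ) := fun θ => by ring
    have e2 : ∀ θ, om x * v θ * FC κ u (rotL L (-(2 * π * j / K))) x θ =
        om x * (v θ * FC κ u (rotL L (-(2 * π * j / K))) x θ) := fun θ => by ring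
    simp only [e1, e2]
    rw [intervalIntegral.integral_const_mul, intervalIntegral.integral_const_mul,
      rot_intC hW.up]
  · intro j
    have : Continuous (fun q : ℝ × ℝ => v (q.2 + 2 * π * j / K)) := by fun_prop
    exact (com.mul this).mul cF

end JJs

theorem cont_PC (κ : ℝ) (u : ℂ) (q : ℝ) {w : ℝ → ℝ} (cw : Continuous w) {v : ℝ → ℝ}
    (cv : Continuous v) {L : ℂ → ℂ} (hL : ContinuousOn L (ball 0 1)) {Mf : ℝ → ℝ → ℝ}
    (cM : Continuous (fun q : ℝ × ℝ => Mf q.1 q.2)) :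
    Continuous (fun l => w l * Real.exp (-(q * (l + 2))) *
      ∫ θ in (-π)..π, v θ * FC κ u L (Real.exp (-(l + 2))) θ * Mf (Real.exp (-(l + 2))) θ) := by
  have h1 := FC_comp_cont κ u hL (g := fun q : ℝ × ℝ => Real.exp (-(q.1 + 2)))
    (k := fun q => q.2) (by fun_prop) (by fun_prop) (fun q => Real.exp_pos _)
  have h2 : Continuous (fun q : ℝ × ℝ => (Real.exp (-(q.1 + 2)), q.2)) := by fun_prop
  have h3 : Continuous (fun q : ℝ × ℝ => Mf (Real.exp (-(q.1 + 2))) q.2) := cM.comp h2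
  have h4 : Continuous (fun q : ℝ × ℝ => v q.2) := cv.comp continuous_snd
  have h5 : Continuous (fun l => ∫ θ in (-π)..π, v θ * FC κ u L (Real.exp (-(l + 2))) θ *
      Mf (Real.exp (-(l + 2))) θ) :=
    intervalIntegral.continuous_parametric_intervalIntegral_of_continuous'
      (f := fun l θ => v θ * FC κ u L (Real.exp (-(l + 2))) θ * Mf (Real.exp (-(l + 2))) θ)
      ((h4.mul h1).mul h3) _ _
  have h6 : Continuous (fun l : ℝ => Real.exp (-(q * (l + 2)))) := by fun_prop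
  exact (cw.mul h6).mul h5

theorem RMC_eq {κ dl n : ℝ} {u : ℂ} (hn : 0 ≤ n) {w v : ℝ → ℝ} {L : ℂ → ℂ}
    {Mf Mg : ℝ → ℝ → ℝ} {s : ℝ} (vs : ∀ θ ∈ Icc (-π) π, v θ ≠ 0 → |θ| ≤ s)
    (he : ∀ x θ, Real.exp (-(2 * n + 2)) ≤ x → x ≤ Real.exp (-(n + 2)) → |θ| ≤ s →
      Mf x θ = Mg x θ) :
    RR (Real.exp (-(2 * n + 2))) (Real.exp (-(n + 2)))
      (fun x θ => omw w (κ - 2 + dl) x * v θ * FC κ u L x θ * Mg x θ) =
      ∫ l in n..(2 * n), w l * Real.exp (-((κ - 1 + dl) * (l + 2))) *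
        ∫ θ in (-π)..π, v θ * FC κ u L (Real.exp (-(l + 2))) θ * Mf (Real.exp (-(l + 2))) θ := by
  have hpi := Real.pi_pos
  have hab : Real.exp (-(2 * n + 2)) ≤ Real.exp (-(n + 2)) := Real.exp_le_exp.2 (by (clear * - hn; linarith))
  have e1 : RR (Real.exp (-(2 * n + 2))) (Real.exp (-(n + 2)))
      (fun x θ => omw w (κ - 2 + dl) x * v θ * FC κ u L x θ * Mg x θ) =
      RR (Real.exp (-(2 * n + 2))) (Real.exp (-(n + 2))) (fun x θ => omw w (κ - 2 + dl) x *
        (v θ * FC κ u L x θ * Mf x θ)) := by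
    unfold RR
    refine intervalIntegral.integral_congr fun x hx => ?_
    rw [uIcc_of_le hab] at hx
    refine intervalIntegral.integral_congr fun θ hθ => ?_
    rw [uIcc_of_le (by (clear * - hpi; linarith only [hpi]) : -π ≤ π)] at hθ
    simp only
    by_cases hv : v θ = 0
    · simp [hv]
    · rw [he x θ hx.1 hx.2 (vs θ hθ hv)]
      ring
  rw [e1, RR_omw hn]
  refine intervalIntegral.integral_congr fun l _ => ?_
  have e2 : κ - 2 + dl + 1 = κ - 1 + dl := by ring
  rw [e2]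

/-- the index type of the family -/
def Fam : Type := {q : (ℂ → ℂ) × (ℂ → ℂ) // ∃ R : ℝ, ExtR q.1 R ∧ IsLog q.1 q.2}

/-- the window hypothesis -/
theorem windowC {κ dl Mb : ℝ} {u : ℂ} (hκ : 1 ≤ κ) (hMb : 0 ≤ Mb) {G : ℂ → ℂ}
    {Mh : (ℂ → ℂ) → ℂ → ℂ}
    (hG : ∀ (β : ℂ → ℂ) (R : ℝ), ExtR β R → ContinuousOn (wf G β) {z | 0 < ‖z‖ ∧ ‖z‖ < 1})
    (hMc : ∀ (β : ℂ → ℂ) (R : ℝ), ExtR β R → ContinuousOn (Mh β) {z | 0 < ‖z‖ ∧ ‖z‖ < 1})
    (hM : ∀ β z, ‖Mh β z‖ ≤ Mb) (near : NearC κ u) (mint : MIntC κ dl u)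
    (mcont : MContC κ dl u) (ent : EntC) {C₀ C ε s : ℝ} (hC₀ : 0 ≤ C₀) (hε : 0 < ε)
    (hε1 : ε ≤ 1) (hs0 : 0 < s) (hs1 : s ≤ 1 / 2) (hC : 0 ≤ C)
    (pt : ∀ n : ℝ, 2 ≤ n →
      ∃ W0 : ℂ → ℝ, Cutf (Real.exp (-n)) W0 ∧ ∀ (β L : ℂ → ℂ) (R : ℝ), ExtR β R → IsLog β L →
        ∀ x θ : ℝ, 0 < x → x ≤ Real.exp (-n) → |θ| ≤ s →
          Kf (wf G β) (Complex.exp (θ * I)) (-1) (-x) ≤
            κ * (-Real.log (1 - Real.exp (-2 * x)) + (conj u * L (ep (-x) θ)).re) +
            MC κ dl u W0 (Mh β) β x θ + C + (dl + ε) * (-Real.log x) +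
            C₀ * (-Real.log x - n)) :
    Pool.Agent.Helper96.CK.WindowAt (fun i : Fam => GGC κ dl u (bu s) i.1.2)
      (Mb / (2 * κ)) (C₀ + 1) ε := by
  have hpi := Real.pi_pos
  obtain ⟨C1, hC1, MI⟩ := mint Mb hMb
  obtain ⟨CE, EN⟩ := ent
  obtain ⟨K, Cu, hK, hCu, -, cov⟩ := bu_cover hs0 hs1
  obtain ⟨th, hth⟩ : ∃ th, th = Mb / (2 * κ) := ⟨_, rfl⟩
  have hth0 : 0 ≤ th := by rw [hth]; (clear * - hMb hκ; positivity)
  obtain ⟨Q, hQ⟩ : ∃ Q : ℝ, Q = C1 + C1 * (Cu * (K * 2)) := ⟨_, rfl⟩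
  have hQ0 : 0 ≤ Q := by rw [hQ]; (clear * - hC1 hCu hK; positivity)
  obtain ⟨Cf, hCf⟩ : ∃ Cf : ℝ, Cf = |CE| + C + 2 * ε + Q + th * (2 + C1) := ⟨_, rfl⟩
  have hCf0 : 0 ≤ Cf := by rw [hCf]; (clear * - hC hε hQ0 hth0 hC1; positivity)
  refine ⟨Cf, hCf0, ?_⟩
  rw [← hth]
  intro n hn w hw hwn hw0 hwp η hη
  obtain ⟨a, ha⟩ : ∃ a, a = Real.exp (-(2 * n + 2)) := ⟨_, rfl⟩
  obtain ⟨b, hb⟩ : ∃ b, b = Real.exp (-(n + 2)) := ⟨_, rfl⟩
  have WT : Wt (omw w (κ - 2 + dl)) (omw' w (κ - 2 + dl)) (bu s) (bu' s) a b := by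
    rw [ha, hb]
    exact omw_Wt hn hw hwn hw0 (bu_deriv s) (bu'_cont s) (bu_nonneg s) (bu_le_one hs0 hs1)
      (bu_per s)
  have hn0 : 0 ≤ n := by linarith only [hn]
  have hu0 : 0 < bu s 0 := bu_pos_zero hs0 hs1
  have cu : Continuous (bu s) := bu_cont s
  obtain ⟨η', hη'⟩ : ∃ η' : ℝ, η' = min (1 / 2) (min η (η / (1 + C1))) := ⟨_, rfl⟩
  have hη'0 : 0 < η' := by rw [hη']; (clear * - hη hC1; positivity)
  have hη'1 : η' ≤ 1 / 2 := by rw [hη']; exact min_le_left _ _
  have hη'2 : η' ≤ η := by rw [hη']; exact (min_le_right _ _).trans (min_le_left _ _)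
  have hη'3 : C1 * η' ≤ η := by
    have h1 : η' ≤ η / (1 + C1) := by
      rw [hη']; exact (min_le_right _ _).trans (min_le_right _ _)
    rw [le_div_iff₀ (by positivity)] at h1
    linarith only [hη'0, h1]
  obtain ⟨β, L, R, hβ, hL, hmax, hcrit⟩ :=
    near _ _ _ _ a b WT (omw_exists_pos hwp) ⟨0, hu0⟩ η' hη'0
  have hLc := hL.cont
  obtain ⟨W0, hW0, PT⟩ := pt (n + 2) (by linarith only [hn0])
  rw [← hb] at hW0
  have usupp : ∀ θ ∈ Icc (-π) π, bu s θ ≠ 0 → |θ| ≤ s := fun θ hθ h => bu_supp hs0 hs1 hθ h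
  have MIβ := MI _ _ _ _ a b WT (fun θ hθ h => (usupp θ hθ h).trans hs1) β L R η' hβ hL hη'0.le
    hcrit W0 (Mh β) hW0 (hMc β R hβ) (hM β)
  have cMM := mcont a b WT.a0 WT.ab WT.b1 β R hβ W0 (Mh β) Mb hW0 (hMc β R hβ) (hM β)
  obtain ⟨Mf, cMf, Mf_eq⟩ := trunc WT.ab.le cMM
  -- the level functions
  obtain ⟨g, hg⟩ : ∃ g : ℝ → ℝ, g = GGC κ dl u (bu s) L := ⟨_, rfl⟩
  have cg : Continuous g := by rw [hg]; exact GGC_cont hLc cu (bu_nonneg s) hu0
  have cw : Continuous w := hw.continuous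
  have cdw : Continuous (deriv w) := hw.continuous_deriv (by norm_num)
  have ceg : Continuous fun l => Real.exp (g l) := Real.continuous_exp.comp cg
  obtain ⟨J, hJ⟩ : ∃ J, J = ∫ l in n..(2 * n), Real.exp (g l) * w l := ⟨_, rfl⟩
  obtain ⟨D, hD⟩ : ∃ D, D = ∫ l in n..(2 * n), Real.exp (g l) * |deriv w l| := ⟨_, rfl⟩
  have hn2 : n ≤ 2 * n := by linarith only [hn0]
  have hJ0 : 0 ≤ J := by
    rw [hJ]
    exact intervalIntegral.integral_nonneg hn2 fun l _ =>
      mul_nonneg (Real.exp_pos _).le (hwn l)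
  have hD0 : 0 ≤ D := by
    rw [hD]
    exact intervalIntegral.integral_nonneg hn2 fun l _ =>
      mul_nonneg (Real.exp_pos _).le (abs_nonneg _)
  have JJβ : JC κ u (omw w (κ - 2 + dl)) (bu s) a b L = 2 * π * J := by
    rw [ha, hb, JC_eq hLc cu (bu_nonneg s) hu0 hn0, hJ, hg]
  have JDβ := JDC_eq (κ := κ) (dl := dl) (u := u) (w := w) hLc cu (bu_nonneg s) hu0 hn0
  rw [← ha, ← hb, ← hg, ← hD] at JDβ
  refine ⟨⟨(β, L), R, hβ, hL⟩, ?_, ?_⟩
  · -- near maximal
    rintro ⟨⟨γ, Lγ⟩, Rγ, hγ, hLγ⟩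
    have h1 := hmax γ Lγ hγ.toExt hLγ
    rw [JJβ, ha, hb, JC_eq (IsLog.cont hLγ) cu (bu_nonneg s) hu0 hn0] at h1
    have h2 : 0 ≤ ∫ l in n..(2 * n), Real.exp (GGC κ dl u (bu s) Lγ l) * w l :=
      intervalIntegral.integral_nonneg hn2 fun l _ => mul_nonneg (Real.exp_pos _).le (hwn l)
    have h3 : (1 - η') * ∫ l in n..(2 * n), Real.exp (GGC κ dl u (bu s) Lγ l) * w l ≤ J := by
      have : 2 * π * ((1 - η') * ∫ l in n..(2 * n), Real.exp (GGC κ dl u (bu s) Lγ l) * w l) ≤
          2 * π * J := by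
        calc _ = (1 - η') * (2 * π * ∫ l in n..(2 * n),
              Real.exp (GGC κ dl u (bu s) Lγ l) * w l) := by
              ring
          _ ≤ _ := h1
      exact le_of_mul_le_mul_left this (by positivity)
    have h5 : J = ∫ l in n..(2 * n), Real.exp (GGC κ dl u (bu s) L l) * w l := by rw [hJ, hg]
    rw [h5] at h3
    exact le_trans (mul_le_mul_of_nonneg_right (by linarith only [hη'2]) h2) h3
  · -- the main inequality
    have goal' : ∫ l in n..(2 * n), Real.exp (g l) * w l * g l ≤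
        (∫ l in n..(2 * n), Real.exp (g l) * w l * (Cf + ε * n + (C₀ + 1) * (l - n))) +
          (th * n + Cf) * (∫ l in n..(2 * n), Real.exp (g l) * |deriv w l|) + η := ?_
    · rw [hg] at goal'
      exact goal'
    rw [← hD]
    -- angular term
    have JU := JUC_le (κ := κ) (u := u) hLc WT hCu.le cov
    have JU2 : RR a b (fun x θ => omw w (κ - 2 + dl) x * |bu' s θ| * FC κ u L x θ) ≤
        Cu * (K * 2) * (2 * π * J) := by
      refine JU.trans ?_
      have h1 : ∀ j ∈ Finset.range K, JC κ u (omw w (κ - 2 + dl)) (bu s) a b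
          (rotL L (-(2 * π * j / K))) ≤ 2 * (2 * π * J) := by
        intro j _
        have hLr := rot_IsLog hL (-(2 * π * j / K))
        have h2 := hmax _ _ (rot_ExtR hβ (-(2 * π * j / K))).toExt hLr
        rw [JJβ] at h2
        have h3 : 0 ≤ JC κ u (omw w (κ - 2 + dl)) (bu s) a b (rotL L (-(2 * π * j / K))) := by
          rw [ha, hb, JC_eq (IsLog.cont hLr) cu (bu_nonneg s) hu0 hn0]
          refine mul_nonneg (by positivity) (intervalIntegral.integral_nonneg hn2 fun l _ =>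
            mul_nonneg (Real.exp_pos _).le (hwn l))
        nlinarith only [hη'1, h2, h3]
      have h4 := Finset.sum_le_sum h1
      rw [Finset.sum_const, Finset.card_range, nsmul_eq_mul] at h4
      calc _ ≤ Cu * (K * (2 * (2 * π * J))) := mul_le_mul_of_nonneg_left h4 hCu.le
        _ = _ := by ring
    rw [JJβ, JDβ] at MIβ
    have hlogb : -Real.log b = n + 2 := by rw [hb, Real.log_exp]; ring
    rw [hlogb, ← hth] at MIβ
    -- the double integral of the term of the multiplier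
    obtain ⟨P, hP⟩ : ∃ P : ℝ → ℝ, P = fun l => w l * Real.exp (-((κ - 1 + dl) * (l + 2))) *
      ∫ θ in (-π)..π, bu s θ * FC κ u L (Real.exp (-(l + 2))) θ *
        Mf (Real.exp (-(l + 2))) θ := ⟨_, rfl⟩
    have cP : Continuous P := by
      rw [hP]
      exact cont_PC κ u _ cw cu hLc cMf
    have hRM : RR a b (fun x θ => omw w (κ - 2 + dl) x * bu s θ * FC κ u L x θ *
        MC κ dl u W0 (Mh β) β x θ) = ∫ l in n..(2 * n), P l := by
      rw [ha, hb, hP]
      exact RMC_eq (Mg := fun x θ => MC κ dl u W0 (Mh β) β x θ) hn0 usupp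
        (fun x θ h1 h2 h3 => Mf_eq x θ (by rw [ha]; exact h1) (by rw [hb]; exact h2)
          (h3.trans hs1))
    rw [hRM] at MIβ
    -- level by level
    have hlev : ∀ l ∈ Icc n (2 * n), Real.exp (g l) * w l * g l ≤
        Real.exp (g l) * w l * (|CE| + C + ε * (l + 2) + C₀ * (l - n)) +
          (2 * π)⁻¹ * P l := by
      intro l hl
      obtain ⟨x, hx⟩ : ∃ x, x = Real.exp (-(l + 2)) := ⟨_, rfl⟩
      have hx0 : 0 < x := by rw [hx]; exact Real.exp_pos _
      have hxa : a ≤ x := by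
        rw [ha, hx]
        exact Real.exp_le_exp.2 (by linarith only [hl.2])
      have hxb : x ≤ b := by
        rw [hb, hx]
        exact Real.exp_le_exp.2 (by linarith only [hl.1])
      have hlx : -Real.log x = l + 2 := by rw [hx, Real.log_exp]; ring
      have hm0 : 0 < mmC κ u (bu s) L (l + 2) := mmC_pos hLc cu (bu_nonneg s) hu0 _
      have hmeq : mmC κ u (bu s) L (l + 2) =
          (2 * π)⁻¹ * ∫ θ in (-π)..π, bu s θ * FC κ u L x θ := by
        rw [hx]; rfl
      have hE := EN κ u β L R (wf G β) (bu s) x hβ hL (hG β R hβ) cu (bu_nonneg s)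
        (bu_le_one hs0 hs1) (bu_per s) hx0 (by linarith only [hxb.trans WT.b1]) _ hmeq hm0
      have cMx : Continuous (Mf x) := cMf.comp (Continuous.prodMk_right x)
      have hL2' := levelC (dl := dl) (ε := ε) (s := s) (n := n + 2) (C := C) (C₀ := C₀)
        (CE := CE) hLc hκ (hG β R hβ) cu (bu_nonneg s) usupp hx0 (hxb.trans WT.b1) cMx hmeq
        hm0 hE
        (fun θ hθ => by
          rw [Mf_eq x θ hxa hxb (hθ.trans hs1)]
          exact PT β L R hβ hL x θ hx0 (hb ▸ hxb) hθ)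
      rw [hlx] at hL2'
      have hgl : g l = Real.log (mmC κ u (bu s) L (l + 2)) - (κ - 1 + dl) * (l + 2) := by
        rw [hg]; rfl
      have heg : Real.exp (g l) = mmC κ u (bu s) L (l + 2) *
          Real.exp (-((κ - 1 + dl) * (l + 2))) := by
        rw [hg]; exact exp_GGC hm0
      obtain ⟨m, hmdef⟩ : ∃ m, m = mmC κ u (bu s) L (l + 2) := ⟨_, rfl⟩
      rw [← hmdef] at hL2' hm0 hgl heg
      obtain ⟨I0, hI0⟩ : ∃ I0, I0 = ∫ θ in (-π)..π, bu s θ * FC κ u L x θ *
        Mf x θ := ⟨_, rfl⟩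
      rw [← hI0] at hL2'
      have hL2 : m * g l ≤ m * (|CE| + C + ε * (l + 2) + C₀ * (l - n)) + (2 * π)⁻¹ * I0 := by
        have h1 := mul_le_mul_of_nonneg_left (le_abs_self CE) hm0.le
        rw [hgl]
        linarith only [hL2', h1]
      obtain ⟨E, hEd⟩ : ∃ E, E = w l * Real.exp (-((κ - 1 + dl) * (l + 2))) := ⟨_, rfl⟩
      have hE0 : 0 ≤ E := by rw [hEd]; exact mul_nonneg (hwn l) (Real.exp_pos _).le
      have hPl : P l = E * I0 := by
        rw [hP, hEd, hI0, hx]
      have heE : Real.exp (g l) * w l = m * E := by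
        rw [heg, hEd]; ring
      rw [hPl, heE]
      have h2 := mul_le_mul_of_nonneg_left hL2 hE0
      calc m * E * g l = E * (m * g l) := by ring
        _ ≤ E * (m * (|CE| + C + ε * (l + 2) + C₀ * (l - n)) + (2 * π)⁻¹ * I0) := h2
        _ = _ := by ring
    have hint1 : ∫ l in n..(2 * n), Real.exp (g l) * w l * g l ≤
        ∫ l in n..(2 * n), (Real.exp (g l) * w l * (|CE| + C + ε * (l + 2) + C₀ * (l - n)) +
          (2 * π)⁻¹ * P l) := by
      refine intervalIntegral.integral_mono_on hn2 ?_ ?_ hlev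
      · exact ((ceg.mul cw).mul cg).intervalIntegrable _ _
      · refine Continuous.intervalIntegrable ?_ _ _
        exact ((ceg.mul cw).mul (by fun_prop)).add (continuous_const.mul cP)
    have cA : Continuous fun l => Real.exp (g l) * w l *
        (|CE| + C + ε * (l + 2) + C₀ * (l - n)) := (ceg.mul cw).mul (by fun_prop)
    have cJ : Continuous fun l => Real.exp (g l) * w l := ceg.mul cw
    have cP2 : Continuous fun l => (2 * π)⁻¹ * P l := continuous_const.mul cP
    have hadd : ∫ l in n..(2 * n), (Real.exp (g l) * w l *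
        (|CE| + C + ε * (l + 2) + C₀ * (l - n)) + (2 * π)⁻¹ * P l) =
        (∫ l in n..(2 * n), Real.exp (g l) * w l * (|CE| + C + ε * (l + 2) + C₀ * (l - n))) +
          (2 * π)⁻¹ * ∫ l in n..(2 * n), P l := by
      rw [intervalIntegral.integral_add (cA.intervalIntegrable _ _)
        (cP2.intervalIntegrable _ _), intervalIntegral.integral_const_mul]
    rw [hadd] at hint1
    have hPb : (2 * π)⁻¹ * ∫ l in n..(2 * n), P l ≤
        Q * J + th * (n + 2 + C1) * D + η := by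
      have h1 : (∫ l in n..(2 * n), P l) ≤ C1 * (2 * π * J) + th * (n + 2 + C1) * (2 * π * D) +
          C1 * (Cu * (K * 2) * (2 * π * J)) + C1 * η' :=
        MIβ.trans (by
          have := mul_le_mul_of_nonneg_left JU2 hC1
          linarith only [this])
      have h2 := mul_le_mul_of_nonneg_left h1 (by positivity : 0 ≤ (2 * π)⁻¹)
      have h3 : (2 * π)⁻¹ * (C1 * (2 * π * J) + th * (n + 2 + C1) * (2 * π * D) +
          C1 * (Cu * (K * 2) * (2 * π * J)) + C1 * η') =
          Q * J + th * (n + 2 + C1) * D + (2 * π)⁻¹ * (C1 * η') := by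
        rw [hQ]
        field_simp
        ring
      have h4 : (2 * π)⁻¹ * (C1 * η') ≤ 1 * η := by
        have h5 : (2 * π)⁻¹ ≤ 1 := by
          apply inv_le_one_of_one_le₀
          have := Real.pi_gt_three
          linarith only [this]
        exact mul_le_mul h5 hη'3 (by (clear * - hC1 hη'0; positivity)) (by norm_num)
      rw [h3] at h2
      linarith only [h2, h4]
    have hfin : (∫ l in n..(2 * n), Real.exp (g l) * w l *
        (|CE| + C + ε * (l + 2) + C₀ * (l - n))) + Q * J ≤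
        ∫ l in n..(2 * n), Real.exp (g l) * w l * (Cf + ε * n + (C₀ + 1) * (l - n)) := by
      have cJ2 : Continuous fun l => Q * (Real.exp (g l) * w l) := continuous_const.mul cJ
      rw [hJ, ← intervalIntegral.integral_const_mul, ← intervalIntegral.integral_add
        (cA.intervalIntegrable _ _) (cJ2.intervalIntegrable _ _)]
      refine intervalIntegral.integral_mono_on hn2 ?_ ?_ ?_
      · exact (cA.add cJ2).intervalIntegrable _ _
      · exact ((ceg.mul cw).mul (by fun_prop)).intervalIntegrable _ _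
      · intro l hl
        have h1 : 0 ≤ Real.exp (g l) * w l := mul_nonneg (Real.exp_pos _).le (hwn l)
        have h2 : |CE| + C + ε * (l + 2) + C₀ * (l - n) + Q ≤
            Cf + ε * n + (C₀ + 1) * (l - n) := by
          have h3 : ε * (l - n) ≤ 1 * (l - n) :=
            mul_le_mul_of_nonneg_right hε1 (by linarith only [hl.1])
          have h4 : 0 ≤ th * (2 + C1) := by (clear * - hth0 hC1; positivity)
          rw [hCf]
          linarith only [h3, h4]
        have h3 := mul_le_mul_of_nonneg_left h2 h1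
        linarith only [h3]
    have hthn : th * (n + 2 + C1) * D ≤ (th * n + Cf) * D := by
      refine mul_le_mul_of_nonneg_right ?_ hD0
      have h1 : th * (2 + C1) ≤ Cf := by
        rw [hCf]
        have : 0 ≤ |CE| + C + 2 * ε + Q := by (clear * - hC hε hQ0; positivity)
        linarith only [this]
      linarith only [h1]
    linarith only [hint1, hPb, hfin, hthn]

end Pool.Agent.Helper52.CKC

end

section

namespace Pool.Agent.Helper39.Area
end Pool.Agent.Helper39.Area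
namespace Pool.Agent.Helper52.EK
end Pool.Agent.Helper52.EK
namespace Pool.Agent.Helper52.CK
end Pool.Agent.Helper52.CK
namespace Pool.Agent.Helper68.EKC
end Pool.Agent.Helper68.EKC
namespace Pool.Agent.Helper97.CKC
end Pool.Agent.Helper97.CKC
namespace Pool.Agent.Helper9.EK
end Pool.Agent.Helper9.EK

set_option autoImplicit false

open Complex MeasureTheory Metric Set

open scoped Real ComplexConjugate ContDiff

namespace Pool.Agent.Helper52.CKC

open Pool.Agent.Helper39.Area Pool.Agent.Helper52.EK Pool.Agent.Helper52.CK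

open Pool.Agent.Helper68.EKC Pool.Agent.Helper97.CKC Pool.Agent.Helper9.EK

/-- the mean over the whole circle is dominated by the localised means of the rotations -/
theorem full_leC {κ : ℝ} {u : ℂ} {v : ℝ → ℝ} (cv : Continuous v)
    (vp : Function.Periodic v (2 * π))
    {K : ℕ} {Cu B l : ℝ} (hCu : 0 ≤ Cu)
    (cov : ∀ θ, 1 ≤ Cu * ∑ j ∈ Finset.range K, v (θ + 2 * π * j / K))
    {β L : ℂ → ℂ} {R : ℝ} (h : ExtR β R) (hL : IsLog β L)
    (hB : ∀ γ L' : ℂ → ℂ, ExtR γ R → IsLog γ L' → mmC κ u v L' l ≤ B) :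
    (2 * π)⁻¹ * ∫ θ in (-π)..π, FC κ u L (Real.exp (-l)) θ ≤ Cu * K * B := by
  have hpi := Real.pi_pos
  have hx := Real.exp_pos (-l)
  have cF := FC_cont_th κ u hL.cont hx
  have h1 : ∫ θ in (-π)..π, FC κ u L (Real.exp (-l)) θ ≤ ∫ θ in (-π)..π,
      Cu * ∑ j ∈ Finset.range K, v (θ + 2 * π * j / K) * FC κ u L (Real.exp (-l)) θ := by
    refine intervalIntegral.integral_mono_on (by (clear * - hpi; linarith only [hpi])) (cF.intervalIntegrable _ _) ?_ ?_
    · refine Continuous.intervalIntegrable ?_ _ _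
      exact continuous_const.mul (continuous_finsetSum _ fun j _ =>
        (cv.comp (by fun_prop)).mul cF)
    · intro θ _
      rw [← Finset.sum_mul, ← mul_assoc]
      exact le_mul_of_one_le_left (FC_pos κ u L _ θ).le (cov θ)
  rw [intervalIntegral.integral_const_mul, intervalIntegral.integral_finsetSum] at h1
  · have h2 : ∀ j ∈ Finset.range K,
        ∫ θ in (-π)..π, v (θ + 2 * π * j / K) * FC κ u L (Real.exp (-l)) θ ≤ 2 * π * B := by
      intro j _
      rw [rot_intC vp, two_pi_mmC]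
      exact mul_le_mul_of_nonneg_left (hB _ _ (rot_ExtR h _) (rot_IsLog hL _)) (by positivity)
    have h3 := Finset.sum_le_sum h2
    rw [Finset.sum_const, Finset.card_range, nsmul_eq_mul] at h3
    have h4 := h1.trans (mul_le_mul_of_nonneg_left h3 hCu)
    have h5 := mul_le_mul_of_nonneg_left h4 (by positivity : 0 ≤ (2 * π)⁻¹)
    refine h5.trans (le_of_eq ?_)
    (clear * -; field_simp)
  · intro j _
    exact Continuous.intervalIntegrable ((cv.comp (by fun_prop)).mul cF) _ _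

/-- **Assembly**: the exponent of the circle means. -/
theorem asmC {κ dl Mb : ℝ} {u : ℂ} (hu : ‖u‖ = 1) (hκ : 1 ≤ κ) (hdl : 0 ≤ dl) (hMb : 0 ≤ Mb)
    (hMb2 : Mb < 2 * κ)
    {G : ℂ → ℂ} {Mh : (ℂ → ℂ) → ℂ → ℂ}
    (hG : ∀ (β : ℂ → ℂ) (R : ℝ), ExtR β R → ContinuousOn (wf G β) {z | 0 < ‖z‖ ∧ ‖z‖ < 1})
    (hMc : ∀ (β : ℂ → ℂ) (R : ℝ), ExtR β R → ContinuousOn (Mh β) {z | 0 < ‖z‖ ∧ ‖z‖ < 1})
    (hM : ∀ β z, ‖Mh β z‖ ≤ Mb) (near : NearC κ u) (mint : MIntC κ dl u)
    (mcont : MContC κ dl u) (ent : EntC) (pt : PTC κ dl u G Mh) :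
    ∀ e : ℝ, 0 < e → ∃ C a₀ : ℝ, a₀ < 1 ∧ ∀ (β L : ℂ → ℂ) (R a : ℝ), ExtR β R → IsLog β L →
      a₀ < a → a < 1 →
      (2 * π)⁻¹ * (∫ α in (0:ℝ)..(2 * π),
        Real.exp (-(κ * (conj u * L (a * Complex.exp (α * I))).re))) ≤
        C * (1 - a ^ 2) ^ (-(κ - 1 + dl + e)) := by
  intro e he
  have hpi := Real.pi_pos
  have lip := lipC (κ := κ) (by (clear * - hκ; linarith)) hu
  obtain ⟨C₀, hC₀, pt⟩ := pt
  have hth0 : 0 ≤ Mb / (2 * κ) := by (clear * - hMb hκ; positivity)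
  have hth1 : Mb / (2 * κ) < 1 := by
    rw [div_lt_one (by linarith only [hκ])]
    exact hMb2
  obtain ⟨ε₁, hε₁, EX⟩ := Pool.Agent.Helper96.CK.exp_lemma3 (C₀ := C₀ + 1) hth0 hth1
    (by (clear * - hC₀; linarith only [hC₀])) e he
  obtain ⟨ε, hε⟩ : ∃ ε, ε = min ε₁ 1 := ⟨_, rfl⟩
  have hε0 : 0 < ε := by rw [hε]; exact lt_min hε₁ one_pos
  have hε1 : ε ≤ 1 := by rw [hε]; exact min_le_right _ _
  have hε2 : ε ≤ ε₁ := by rw [hε]; exact min_le_left _ _
  obtain ⟨s, C, hs0, hs1, hC, pt⟩ := pt ε hε0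
  have hwin := windowC hκ hMb hG hMc hM near mint mcont ent hC₀ hε0 hε1 hs0 hs1 hC pt
  obtain ⟨A, hA, lip⟩ := lip
  have cu : Continuous (bu s) := bu_cont s
  have hu0 : 0 < bu s 0 := bu_pos_zero hs0 hs1
  -- `WindowAt` for `ε₁`
  have hwin2 : Pool.Agent.Helper96.CK.WindowAt (fun i : Fam => GGC κ dl u (bu s) i.1.2)
      (Mb / (2 * κ)) (C₀ + 1) ε₁ := by
    obtain ⟨C₁, hC₁, H⟩ := hwin
    refine ⟨C₁, hC₁, fun n hn w hw hwn hw0 hwp η hη => ?_⟩
    obtain ⟨i, hi1, hi2⟩ := H n hn w hw hwn hw0 hwp η hη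
    refine ⟨i, hi1, hi2.trans ?_⟩
    obtain ⟨⟨β, L⟩, R, hβ, hL⟩ := i
    have cg : Continuous (GGC κ dl u (bu s) L) := GGC_cont (IsLog.cont hL) cu (bu_nonneg s) hu0
    have ceg : Continuous fun l => Real.exp (GGC κ dl u (bu s) L l) :=
      Real.continuous_exp.comp cg
    have cw : Continuous w := hw.continuous
    have hle : ∫ l in n..(2 * n), Real.exp (GGC κ dl u (bu s) L l) * w l *
        (C₁ + ε * n + (C₀ + 1) * (l - n)) ≤ ∫ l in n..(2 * n),
          Real.exp (GGC κ dl u (bu s) L l) * w l * (C₁ + ε₁ * n + (C₀ + 1) * (l - n)) := by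
      refine intervalIntegral.integral_mono_on (by linarith only [hn]) ?_ ?_ ?_
      · exact ((ceg.mul cw).mul (by fun_prop)).intervalIntegrable _ _
      · exact ((ceg.mul cw).mul (by fun_prop)).intervalIntegrable _ _
      · intro l _
        refine mul_le_mul_of_nonneg_left ?_ (mul_nonneg (Real.exp_pos _).le (hwn l))
        have : ε * n ≤ ε₁ * n := mul_le_mul_of_nonneg_right hε2 (by linarith only [hn])
        linarith only [this]
    have hle2 := add_le_add_left (add_le_add_left hle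
      ((Mb / (2 * κ) * n + C₁) * ∫ l in n..(2 * n), Real.exp (GGC κ dl u (bu s) L l) *
        |deriv w l|)) η
    exact hle2
  -- Lipschitz
  have hm2 : ∀ (β L : ℂ → ℂ) (R : ℝ), ExtR β R → IsLog β L → ∀ l l' : ℝ, 2 ≤ l → 2 ≤ l' →
      mmC κ u (bu s) L l ≤ Real.exp (A * |l - l'|) * mmC κ u (bu s) L l' := by
    intro β L R hβ hL l l' hl hl'
    unfold mmC
    have h1 : ∫ θ in (-π)..π, bu s θ * FC κ u L (Real.exp (-l)) θ ≤
        ∫ θ in (-π)..π, Real.exp (A * |l - l'|) * (bu s θ * FC κ u L (Real.exp (-l')) θ) := by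
      refine intervalIntegral.integral_mono_on (by (clear * - hpi; linarith)) ?_ ?_ ?_
      · exact (cu.mul (FC_cont_th κ u hL.cont (Real.exp_pos _))).intervalIntegrable _ _
      · exact (continuous_const.mul (cu.mul (FC_cont_th κ u hL.cont
          (Real.exp_pos _)))).intervalIntegrable _ _
      · intro θ _
        have h2 := mul_le_mul_of_nonneg_left ((lip β L R hβ hL).1 l l' θ hl hl')
          (bu_nonneg s θ)
        calc _ ≤ _ := h2
          _ = _ := by ring
    rw [intervalIntegral.integral_const_mul] at h1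
    calc _ ≤ (2 * π)⁻¹ * (Real.exp (A * |l - l'|) *
          ∫ θ in (-π)..π, bu s θ * FC κ u L (Real.exp (-l')) θ) :=
          mul_le_mul_of_nonneg_left h1 (by positivity)
      _ = _ := by ring
  have hlog : ∀ (β L : ℂ → ℂ) (R : ℝ), ExtR β R → IsLog β L → ∀ l l' : ℝ, 2 ≤ l → 2 ≤ l' →
      Real.log (mmC κ u (bu s) L l) - Real.log (mmC κ u (bu s) L l') ≤ A * |l - l'| := by
    intro β L R hβ hL l l' hl hl'
    have hp := mmC_pos (κ := κ) (u := u) hL.cont cu (bu_nonneg s) hu0 l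
    have hp' := mmC_pos (κ := κ) (u := u) hL.cont cu (bu_nonneg s) hu0 l'
    have h1 := Real.log_le_log hp (hm2 β L R hβ hL l l' hl hl')
    rw [Real.log_mul (Real.exp_pos _).ne' hp'.ne', Real.log_exp] at h1
    linarith only [h1]
  obtain ⟨A', hA'⟩ : ∃ A', A' = A + (κ - 1 + dl) := ⟨_, rfl⟩
  have hA'0 : 0 ≤ A' := by rw [hA']; linarith only [hκ, hdl, hA]
  obtain ⟨K, hK⟩ := EX (ι := Fam)
    (G := fun i => GGC κ dl u (bu s) i.1.2) (A := A') hA'0 (by
      rintro ⟨⟨β, L⟩, R, hβ, hL⟩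
      have hLc := IsLog.cont hL
      have hp := mmC_pos (κ := κ) (u := u) hLc cu (bu_nonneg s) hu0 2
      have h1 : mmC κ u (bu s) L 2 ≤ Real.exp A := by
        unfold mmC
        have h2 : ∫ θ in (-π)..π, bu s θ * FC κ u L (Real.exp (-2)) θ ≤
            ∫ _θ in (-π)..π, Real.exp A := by
          refine intervalIntegral.integral_mono_on (by linarith only [hpi]) ?_
            intervalIntegrable_const ?_
          · exact (cu.mul (FC_cont_th κ u hLc (Real.exp_pos _))).intervalIntegrable _ _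
          · intro θ _
            have h3 := (lip β L R hβ hL).2 θ
            have h4 := (FC_pos κ u L (Real.exp (-2)) θ).le
            calc _ ≤ 1 * FC κ u L (Real.exp (-2)) θ :=
                  mul_le_mul_of_nonneg_right (bu_le_one hs0 hs1 θ) h4
              _ ≤ _ := by rw [one_mul]; exact h3
        rw [intervalIntegral.integral_const, smul_eq_mul] at h2
        have h5 := mul_le_mul_of_nonneg_left h2 (by positivity : 0 ≤ (2 * π)⁻¹)
        refine h5.trans (le_of_eq ?_)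
        field_simp
        ring
      have h6 := Real.log_le_log hp h1
      rw [Real.log_exp] at h6
      have h7 : GGC κ dl u (bu s) L 0 =
          Real.log (mmC κ u (bu s) L 2) - (κ - 1 + dl) * 2 := by
        unfold GGC
        norm_num
      show GGC κ dl u (bu s) L 0 ≤ A'
      rw [h7, hA']
      linarith only [hκ, hdl, h6]) (by
      rintro ⟨⟨β, L⟩, R, hβ, hL⟩ l l' hl hl'
      show |GGC κ dl u (bu s) L l - GGC κ dl u (bu s) L l'| ≤ A' * |l - l'|
      have h1 := hlog β L R hβ hL (l + 2) (l' + 2) (by linarith only [hl]) (by (clear * - hl'; linarith))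
      have h2 := hlog β L R hβ hL (l' + 2) (l + 2) (by linarith only [hl']) (by linarith only [hl])
      have e1 : l + 2 - (l' + 2) = l - l' := by ring
      have e2 : l' + 2 - (l + 2) = -(l - l') := by ring
      rw [e1] at h1
      rw [e2, abs_neg] at h2
      have h3 : (κ - 1 + dl) * (l - l') ≤ (κ - 1 + dl) * |l - l'| :=
        mul_le_mul_of_nonneg_left (le_abs_self _) (by linarith only [hκ, hdl])
      have h4 : (κ - 1 + dl) * (-(l - l')) ≤ (κ - 1 + dl) * |l - l'| :=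
        mul_le_mul_of_nonneg_left (neg_le_abs _) (by linarith)
      unfold GGC
      rw [hA', abs_le]
      constructor <;> linarith) hwin2
  -- conclusion
  obtain ⟨Kn, Cu, hKn, hCu, cov, -⟩ := bu_cover hs0 hs1
  obtain ⟨S, hS⟩ : ∃ S, S = κ - 1 + dl + e := ⟨_, rfl⟩
  have hS0 : 0 < S := by rw [hS]; linarith only [hκ, hdl, he]
  refine ⟨Cu * Kn * Real.exp K * 2 ^ S, Real.exp (-Real.exp (-2)), ?_, ?_⟩
  · rw [Real.exp_lt_one_iff]
    have := Real.exp_pos (-2)
    linarith only [this]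
  intro β L R a hβ hL ha0 ha1
  have hapos : 0 < a := (Real.exp_pos _).trans ha0
  obtain ⟨x, hx⟩ : ∃ x, x = -Real.log a := ⟨_, rfl⟩
  have hx0 : 0 < x := by
    rw [hx]
    have := Real.log_neg hapos ha1
    linarith only [this]
  have hx2 : x ≤ Real.exp (-2) := by
    have := Real.log_le_log (Real.exp_pos _) ha0.le
    rw [Real.log_exp] at this
    rw [hx]
    linarith only [this]
  obtain ⟨l, hl⟩ : ∃ l, l = -Real.log x := ⟨_, rfl⟩
  have hl2 : 2 ≤ l := by
    have := Real.log_le_log hx0 hx2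
    rw [Real.log_exp] at this
    rw [hl]
    linarith only [this]
  have hxl : x = Real.exp (-l) := by rw [hl, neg_neg, Real.exp_log hx0]
  have hxa : Real.exp (-x) = a := by rw [hx, neg_neg, Real.exp_log hapos]
  have hB : ∀ γ L' : ℂ → ℂ, ExtR γ R → IsLog γ L' →
      mmC κ u (bu s) L' l ≤ Real.exp K * Real.exp (S * l) := by
    intro γ L' hγ hL'
    have h1 := hK ⟨(γ, L'), R, hγ, hL'⟩ (l - 2) (by linarith only [hl2])
    have h2 : GGC κ dl u (bu s) L' (l - 2) ≤ K + e * (l - 2) := h1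
    have e1 : l - 2 + 2 = l := by ring
    unfold GGC at h2
    rw [e1] at h2
    have hp := mmC_pos (κ := κ) (u := u) hL'.cont cu (bu_nonneg s) hu0 l
    rw [← Real.exp_add]
    calc mmC κ u (bu s) L' l = Real.exp (Real.log (mmC κ u (bu s) L' l)) :=
          (Real.exp_log hp).symm
      _ ≤ _ := Real.exp_le_exp.2 (by rw [hS]; linarith only [he, h2])
  have hfull := full_leC cu (bu_per s) hCu.le cov hβ hL hB
  -- the integral over `0..2π`
  have hN : ∀ α : ℝ, Real.exp (-(κ * (conj u * L (a * Complex.exp (α * I))).re)) =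
      FC κ u L (Real.exp (-l)) α := by
    intro α
    unfold FC
    rw [← hxl]
    unfold ep
    rw [Complex.exp_add, ← Complex.ofReal_exp, hxa]
  have hper : Function.Periodic (FC κ u L (Real.exp (-l))) (2 * π) := FC_per κ u L _
  have hshift := hper.intervalIntegral_add_eq 0 (-π)
  rw [zero_add, show -π + 2 * π = π by ring] at hshift
  simp only [hN]
  rw [hshift]
  refine hfull.trans ?_
  have h1a : 0 < 1 - a ^ 2 := by (clear * - ha1 hapos; nlinarith only [ha1, hapos])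
  have hxge : (1 - a ^ 2) / 2 ≤ x := by
    have := Real.add_one_le_exp (-x)
    rw [hxa] at this
    nlinarith only [h1a, this]
  have h9 : Real.exp (S * l) ≤ 2 ^ S * (1 - a ^ 2) ^ (-S) := by
    have e1 : Real.exp (S * l) = x ^ (-S) := by
      rw [Real.rpow_def_of_pos hx0, hl]
      congr 1
      ring
    rw [e1]
    calc x ^ (-S) ≤ ((1 - a ^ 2) / 2) ^ (-S) :=
          Real.rpow_le_rpow_of_nonpos (by (clear * - h1a; positivity)) hxge (by linarith only [hS0])
      _ = _ := by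
          rw [Real.div_rpow h1a.le (by norm_num), Real.rpow_neg (by norm_num : (0:ℝ) ≤ 2),
            div_inv_eq_mul, mul_comm]
  rw [← hS]
  calc Cu * Kn * (Real.exp K * Real.exp (S * l)) = Cu * Kn * Real.exp K * Real.exp (S * l) := by
        ring
    _ ≤ Cu * Kn * Real.exp K * (2 ^ S * (1 - a ^ 2) ^ (-S)) :=
        mul_le_mul_of_nonneg_left h9 (by (clear * - hCu hKn; positivity))
    _ = _ := by ring

end Pool.Agent.Helper52.CKC

end
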