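import Mathlib
import Pool.Agent.Helper14.CMF.T27
import Pool.Agent.Helper14.CMF.T03
import Pool.Agent.Helper14.CMF.T18
import Pool.Agent.Helper14.CMF.T25
import Pool.Agent.Helper14.CMF.T13
import Pool.Agent.Helper14.CMF.T14
import Pool.Agent.Helper14.CMF.T19
import Pool.Agent.Helper14.CMF.T23
import Pool.Agent.Helper14.CMF.T28

set_option linter.all false

section

namespace Pool.Agent.Helper39.Area
end Pool.Agent.Helper39.Area
namespace Pool.Agent.Helper52.EK
end Pool.Agent.Helper52.EK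

set_option autoImplicit false

open Complex MeasureTheory Metric Set

open scoped Real ComplexConjugate

namespace Pool.Agent.Helper68.EKC

open Pool.Agent.Helper39.Area Pool.Agent.Helper52.EK

/-- the moment bound on the class Sigma for `t = - κ conj u`, from the strip inequality -/
theorem sigma_of_strip {κ κ' : ℝ} {u : ℂ} (hu : ‖u‖ = 1) (hal : (1 + u) / 2 ≠ 0) (hκ : 1 ≤ κ)
    (h0 : 0 ≤ κ')
    (hS : StripIneq κ' (fun X Y s c => TG (Gu u) ((1 + u) / 2 * X) ((1 + u) / 2 * Y) s c))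
    (hlt : κ' < 2 * κ * ‖(1 + u) / 2‖ ^ 2) :
    ∃ C : ℝ, ∀ ψ h : ℂ → ℂ, DifferentiableOn ℂ ψ {z : ℂ | 1 < ‖z‖} →
      InjOn ψ {z : ℂ | 1 < ‖z‖} →
      (∃ b : ℂ, Filter.Tendsto (fun z => ψ z - z) (Bornology.cobounded ℂ) (nhds b)) →
      DifferentiableOn ℂ h {z : ℂ | 1 < ‖z‖} →
      (∀ z : ℂ, 1 < ‖z‖ → Complex.exp (h z) = deriv ψ z) →
      Filter.Tendsto h (Bornology.cobounded ℂ) (nhds 0) →
      ∀ R : ℝ, 1 < R →
      (2 * π)⁻¹ * (∫ θ in (0:ℝ)..(2 * π),
        Real.exp (-(κ * (conj u * h (R * Complex.exp (θ * I))).re))) ≤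
        C * (R ^ 2 / (R ^ 2 - 1)) ^ (κ - 1) := by
  have hn : 0 < ‖(1 + u) / 2‖ ^ 2 := by
    have := norm_pos_iff.mpr hal
    positivity
  have h1 : StripA (κ' / ‖(1 + u) / 2‖ ^ 2) ((1 + u) / 2) (TG (Gu u)) := strip_scale hal hS
  have h2 : κ' / ‖(1 + u) / 2‖ ^ 2 < 2 * κ := by
    rw [div_lt_iff₀ hn]
    exact hlt
  have h3 := K_one_U (Gu_lip hu) hu h1 (div_nonneg h0 hn.le) h2
  have h4 := gibbs_U Pool.Agent.Helper61.EK.entropyStmt Pool.Agent.Helper61.EK.kfContStmt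
    (fun {β} hβ => Pool.Agent.Helper70.EK.wf_cont (Gu_lip hu) hβ) h3
  exact final_U (moment_U hκ hu h4)

/-- the same in terms of `t` -/
theorem sigma_of_strip_t {t : ℂ} {κ' : ℝ} (ht : 1 ≤ ‖t‖) (h0 : 0 ≤ κ')
    (hS : StripIneq κ' (fun X Y s c => TG (Gu (-(conj t / ‖t‖)))
      ((1 + -(conj t / ‖t‖)) / 2 * X) ((1 + -(conj t / ‖t‖)) / 2 * Y) s c))
    (hlt : κ' < ‖t‖ - t.re) :
    ∃ C : ℝ, ∀ ψ h : ℂ → ℂ, DifferentiableOn ℂ ψ {z : ℂ | 1 < ‖z‖} →
      InjOn ψ {z : ℂ | 1 < ‖z‖} →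
      (∃ b : ℂ, Filter.Tendsto (fun z => ψ z - z) (Bornology.cobounded ℂ) (nhds b)) →
      DifferentiableOn ℂ h {z : ℂ | 1 < ‖z‖} →
      (∀ z : ℂ, 1 < ‖z‖ → Complex.exp (h z) = deriv ψ z) →
      Filter.Tendsto h (Bornology.cobounded ℂ) (nhds 0) →
      ∀ R : ℝ, 1 < R →
      (2 * π)⁻¹ * (∫ θ in (0:ℝ)..(2 * π), ‖Complex.exp (t * h (R * Complex.exp (θ * I)))‖) ≤
        C * (R ^ 2 / (R ^ 2 - 1)) ^ (‖t‖ - 1) := by
  have hn0 : 0 < ‖t‖ := by linarith
  have hnC : (‖t‖ : ℂ) ≠ 0 := by exact_mod_cast hn0.ne'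
  set u : ℂ := -(conj t / ‖t‖) with hu
  have hu1 : ‖u‖ = 1 := by
    rw [hu, norm_neg, norm_div, RCLike.norm_conj, Complex.norm_real, norm_norm, div_self hn0.ne']
  have hre : u.re = -(t.re / ‖t‖) := by
    rw [hu, Complex.neg_re, Complex.div_ofReal_re, Complex.conj_re]
  have hal2 : ‖(1 + u) / 2‖ ^ 2 = (‖t‖ - t.re) / (2 * ‖t‖) := by
    have h1 : ‖(1 + u) / 2‖ ^ 2 = (1 + u.re) / 2 := by
      have h2 : u.re * u.re + u.im * u.im = 1 := by
        rw [← Complex.normSq_apply, Complex.normSq_eq_norm_sq, hu1, one_pow]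
      rw [norm_div, div_pow, Complex.sq_norm, Complex.normSq_apply]
      simp only [Complex.add_re, Complex.add_im, Complex.one_re, Complex.one_im, zero_add]
      have h3 : ‖(2:ℂ)‖ = 2 := by simp
      rw [h3]
      linarith only [h2]
    rw [h1, hre]
    field_simp
    ring
  have hpos : 0 < ‖t‖ - t.re := by linarith only [h0, hlt]
  have hal : (1 + u) / 2 ≠ 0 := by
    intro h
    rw [h, norm_zero] at hal2
    have : 0 < (‖t‖ - t.re) / (2 * ‖t‖) := by (clear * - hpos ht; positivity)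
    rw [← hal2] at this
    norm_num at this
  have hlt' : κ' < 2 * ‖t‖ * ‖(1 + u) / 2‖ ^ 2 := by
    rw [hal2]
    have : 2 * ‖t‖ * ((‖t‖ - t.re) / (2 * ‖t‖)) = ‖t‖ - t.re := by
      (clear * - ht hpos; field_simp)
    rw [this]
    exact hlt
  obtain ⟨C, hC⟩ := sigma_of_strip hu1 hal ht h0 hS hlt'
  refine ⟨C, fun ψ h a1 a2 a3 a4 a5 a6 R hR => ?_⟩
  have h5 := hC ψ h a1 a2 a3 a4 a5 a6 R hR
  have h6 : ∀ z : ℂ, ‖Complex.exp (t * h z)‖ = Real.exp (-(‖t‖ * (conj u * h z).re)) := by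
    intro z
    rw [Complex.norm_exp]
    congr 1
    have h7 : t = -((‖t‖ : ℂ) * conj u) := by
      rw [hu, map_neg, map_div₀, Complex.conj_conj, Complex.conj_ofReal]
      field_simp
    have h8 : t * h z = -((‖t‖ : ℂ) * (conj u * h z)) := by
      conv_lhs => rw [h7]
      ring
    rw [h8, Complex.neg_re, Complex.re_ofReal_mul]
  simp only [h6]
  exact h5

end Pool.Agent.Helper68.EKC

end

section

/-!
MP_16b0ee, project EKC: the logarithmic spiral maps `z (1 - 1/z)^(1+u)`, `|u| = 1`, are univalent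
on `|z| > 1`.
-/

set_option autoImplicit false

open Complex MeasureTheory Metric Set

open scoped Real ComplexConjugate

namespace Pool.Agent.Helper97.EKC

section realIneq

theorem mul_cos_le_sin {y : ℝ} (h0 : 0 ≤ y) (h1 : y ≤ π) : y * Real.cos y ≤ Real.sin y := by
  have hd : ∀ t : ℝ, HasDerivAt (fun t => Real.sin t - t * Real.cos t) (t * Real.sin t) t := by
    intro t
    have h := (Real.hasDerivAt_sin t).sub ((hasDerivAt_id t).mul (Real.hasDerivAt_cos t))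
    refine h.congr_deriv ?_
    simp only [id]
    ring
  have hm : MonotoneOn (fun t => Real.sin t - t * Real.cos t) (Icc 0 π) := by
    refine monotoneOn_of_deriv_nonneg (convex_Icc _ _) ?_ ?_ ?_
    · exact fun t _ => (hd t).continuousAt.continuousWithinAt
    · exact fun t _ => (hd t).differentiableAt.differentiableWithinAt
    · intro t ht
      rw [interior_Icc] at ht
      rw [(hd t).deriv]
      exact mul_nonneg ht.1.le (Real.sin_nonneg_of_nonneg_of_le_pi ht.1.le ht.2.le)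
  have h := hm (left_mem_Icc.2 Real.pi_pos.le) ⟨h0, h1⟩ h0
  simp only [Real.sin_zero, zero_mul, sub_zero] at h
  (clear * - h; linarith only [h])

theorem trigA {x y : ℝ} (_hx : 0 ≤ x) (h0 : 0 ≤ y) (h1 : y ≤ π) :
    y * Real.cos y ≤ y * Real.exp (-x) + x * Real.sin y := by
  have hs := mul_cos_le_sin h0 h1
  have hs0 := Real.sin_nonneg_of_nonneg_of_le_pi h0 h1
  have hsy := Real.sin_le h0
  have he := Real.exp_pos (-x)
  rcases le_or_gt x 1 with h | h
  · have h2 : 1 - x ≤ Real.exp (-x) := by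
      have := Real.add_one_le_exp (-x)
      (clear * - this; linarith only [this])
    have h3 : y * (1 - x) ≤ y * Real.exp (-x) := mul_le_mul_of_nonneg_left h2 h0
    have h4 : Real.sin y * (1 - x) ≤ y * (1 - x) := mul_le_mul_of_nonneg_right hsy (by (clear * - h; linarith only [h]))
    linarith only [hs, h3, h4]
  · have h3 : 0 ≤ y * Real.exp (-x) := mul_nonneg h0 he.le
    (clear * - hs h3 hs0 h; nlinarith only [hs, hs0, h, h3])

theorem trigB {x y : ℝ} (hx : 0 ≤ x) (h0 : 0 ≤ y) :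
    x * Real.sin y + y * Real.cos y ≤ y * Real.exp x := by
  have hsy := Real.sin_le h0
  have hc := Real.cos_le_one y
  have h2 : 1 + x ≤ Real.exp x := by
    have := Real.add_one_le_exp x
    (clear * - this; linarith only [this])
  have h3 : y * (1 + x) ≤ y * Real.exp x := mul_le_mul_of_nonneg_left h2 h0
  have h4 : x * Real.sin y ≤ x * y := mul_le_mul_of_nonneg_left hsy hx
  have h5 : y * Real.cos y ≤ y * 1 := mul_le_mul_of_nonneg_left hc h0
  (clear * - h3 h4 h5; linarith only [h3, h4, h5])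

/-- `cosh x - cos y` on a circle -/
noncomputable def DD (R θ : ℝ) : ℝ := Real.cosh (R * Real.cos θ) - Real.cos (R * Real.sin θ)

theorem hasDerivAt_DD (R θ : ℝ) : HasDerivAt (DD R)
    (- (R * Real.sin θ) * Real.sinh (R * Real.cos θ) +
      R * Real.cos θ * Real.sin (R * Real.sin θ)) θ := by
  have h1 := ((Real.hasDerivAt_cos θ).const_mul R).cosh
  have h2 := ((Real.hasDerivAt_sin θ).const_mul R).cos
  refine (h1.sub h2).congr_deriv ?_
  ring

theorem keyA {R θ θ' : ℝ} (hR : 0 ≤ R) (h0 : 0 ≤ θ') (h1 : θ' ≤ θ) (h2 : θ ≤ π / 2)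
    (h3 : R * Real.sin θ ≤ π) :
    DD R θ' * Real.exp (-(R * Real.cos θ')) ≤ DD R θ * Real.exp (-(R * Real.cos θ)) := by
  have hpi := Real.pi_pos
  have hd : ∀ t : ℝ, HasDerivAt (fun t => DD R t * Real.exp (-(R * Real.cos t)))
      (Real.exp (-(R * Real.cos t)) * (R * Real.sin t * Real.exp (-(R * Real.cos t)) +
        R * Real.cos t * Real.sin (R * Real.sin t) -
        R * Real.sin t * Real.cos (R * Real.sin t))) t := by
    intro t
    have e1 := (((Real.hasDerivAt_cos t).const_mul R).neg).exp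
    refine ((hasDerivAt_DD R t).mul e1).congr_deriv ?_
    have e2 : Real.sinh (R * Real.cos t) =
        Real.cosh (R * Real.cos t) - Real.exp (-(R * Real.cos t)) := by
      have := Real.cosh_sub_sinh (R * Real.cos t)
      linarith only [this]
    rw [e2]
    unfold DD
    simp only [Pi.neg_apply]
    ring
  have hm : MonotoneOn (fun t => DD R t * Real.exp (-(R * Real.cos t))) (Icc 0 θ) := by
    refine monotoneOn_of_deriv_nonneg (convex_Icc _ _) ?_ ?_ ?_
    · exact fun t _ => (hd t).continuousAt.continuousWithinAt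
    · exact fun t _ => (hd t).differentiableAt.differentiableWithinAt
    · intro t ht
      rw [interior_Icc] at ht
      rw [(hd t).deriv]
      refine mul_nonneg (Real.exp_pos _).le ?_
      have hc : 0 ≤ Real.cos t := Real.cos_nonneg_of_neg_pi_div_two_le_of_le
        (by (clear * - ht hpi; linarith only [ht.1, hpi])) (by (clear * - h2 ht; linarith [ht.2]))
      have hs : 0 ≤ Real.sin t := Real.sin_nonneg_of_nonneg_of_le_pi ht.1.le
        (by linarith only [ht.2, h0, h1, h2])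
      have hss : Real.sin t ≤ Real.sin θ := Real.sin_le_sin_of_le_of_le_pi_div_two
        (by (clear * - hpi ht; linarith [ht.1])) h2 ht.2.le
      have := trigA (mul_nonneg hR hc) (mul_nonneg hR hs)
        ((mul_le_mul_of_nonneg_left hss hR).trans h3)
      linarith only [this]
  exact hm ⟨h0, h1⟩ ⟨h0.trans h1, le_rfl⟩ h1

theorem keyB {R θ θ' : ℝ} (hR : 0 ≤ R) (h0 : 0 ≤ θ) (h1 : θ ≤ θ') (h2 : θ' ≤ π / 2) :
    DD R θ' * Real.exp (R * Real.cos θ') ≤ DD R θ * Real.exp (R * Real.cos θ) := by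
  have hpi := Real.pi_pos
  have hd : ∀ t : ℝ, HasDerivAt (fun t => DD R t * Real.exp (R * Real.cos t))
      (Real.exp (R * Real.cos t) * (R * Real.cos t * Real.sin (R * Real.sin t) +
        R * Real.sin t * Real.cos (R * Real.sin t) - R * Real.sin t * Real.exp (R * Real.cos t)))
      t := by
    intro t
    have e1 := ((Real.hasDerivAt_cos t).const_mul R).exp
    refine ((hasDerivAt_DD R t).mul e1).congr_deriv ?_
    have e2 : Real.sinh (R * Real.cos t) =
        Real.exp (R * Real.cos t) - Real.cosh (R * Real.cos t) := by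
      have := Real.cosh_add_sinh (R * Real.cos t)
      (clear * - this; linarith only [this])
    rw [e2]
    unfold DD
    ring
  have hm : AntitoneOn (fun t => DD R t * Real.exp (R * Real.cos t)) (Icc 0 (π / 2)) := by
    refine antitoneOn_of_deriv_nonpos (convex_Icc _ _) ?_ ?_ ?_
    · exact fun t _ => (hd t).continuousAt.continuousWithinAt
    · exact fun t _ => (hd t).differentiableAt.differentiableWithinAt
    · intro t ht
      rw [interior_Icc] at ht
      rw [(hd t).deriv]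
      refine mul_nonpos_of_nonneg_of_nonpos (Real.exp_pos _).le ?_
      have hc : 0 ≤ Real.cos t := Real.cos_nonneg_of_neg_pi_div_two_le_of_le
        (by (clear * - hpi ht; linarith [ht.1])) (by linarith only [ht.2])
      have hs : 0 ≤ Real.sin t := Real.sin_nonneg_of_nonneg_of_le_pi ht.1.le
        (by linarith only [ht.2, hpi])
      have := trigB (mul_nonneg hR hc) (mul_nonneg hR hs)
      linarith only [this]
  exact hm ⟨h0, h1.trans h2⟩ ⟨h0.trans h1, h2⟩ h1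

theorem polar (x y : ℝ) : ∃ θ : ℝ, 0 ≤ θ ∧ θ ≤ π / 2 ∧
    √(x ^ 2 + y ^ 2) * Real.cos θ = |x| ∧ √(x ^ 2 + y ^ 2) * Real.sin θ = |y| := by
  obtain ⟨w, hw⟩ : ∃ w : ℂ, w = ⟨|x|, |y|⟩ := ⟨_, rfl⟩
  have hn : ‖w‖ = √(x ^ 2 + y ^ 2) := by
    rw [Complex.norm_def, Complex.normSq_apply, hw]
    congr 1
    simp only
    rw [abs_mul_abs_self, abs_mul_abs_self]
    ring
  refine ⟨Complex.arg w, ?_, ?_, ?_, ?_⟩
  · rw [Complex.arg_nonneg_iff, hw]
    exact abs_nonneg _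
  · refine (Complex.arg_le_pi_div_two_iff).2 (Or.inl ?_)
    rw [hw]
    exact abs_nonneg _
  · rw [← hn, Complex.norm_mul_cos_arg, hw]
  · rw [← hn, Complex.norm_mul_sin_arg, hw]

/-- the main inequality -/
theorem main_ineq {x y x' y' : ℝ} (h : x ^ 2 + y ^ 2 = x' ^ 2 + y' ^ 2) (hy : |y| ≤ π) :
    Real.cosh x' - Real.cos y' ≤ Real.exp |x + x'| * (Real.cosh x - Real.cos y) := by
  obtain ⟨θ, a0, a1, a2, a3⟩ := polar x y
  obtain ⟨θ', b0, b1, b2, b3⟩ := polar x' y'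
  rw [← h] at b2 b3
  obtain ⟨R, hR⟩ : ∃ R : ℝ, R = √(x ^ 2 + y ^ 2) := ⟨_, rfl⟩
  rw [← hR] at a2 a3 b2 b3
  have hR0 : 0 ≤ R := by rw [hR]; exact Real.sqrt_nonneg _
  have hD : Real.cosh x - Real.cos y = DD R θ := by
    unfold DD
    rw [a2, a3, Real.cosh_abs, Real.cos_abs]
  have hD' : Real.cosh x' - Real.cos y' = DD R θ' := by
    unfold DD
    rw [b2, b3, Real.cosh_abs, Real.cos_abs]
  have hD0 : 0 ≤ DD R θ := by
    rw [← hD]
    (clear * -; linarith only [Real.one_le_cosh x, Real.cos_le_one y])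
  rw [hD, hD']
  have ht1 : |x'| - |x| ≤ |x + x'| := by
    have := abs_sub_abs_le_abs_sub x' (-x)
    rw [abs_neg] at this
    rw [show x' - -x = x + x' by ring] at this
    exact this
  have ht2 : |x| - |x'| ≤ |x + x'| := by
    have := abs_sub_abs_le_abs_sub x (-x')
    rw [abs_neg] at this
    rw [show x - -x' = x + x' by ring] at this
    exact this
  rcases le_total θ' θ with hc | hc
  · have hk := keyA hR0 b0 hc a1 (by rw [a3]; exact hy)
    rw [a2, b2] at hk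
    have h5 : DD R θ' ≤ DD R θ * Real.exp (|x'| - |x|) := by
      have h6 := mul_le_mul_of_nonneg_right hk (Real.exp_pos |x'|).le
      rw [mul_assoc, mul_assoc, ← Real.exp_add, ← Real.exp_add] at h6
      rw [show -|x'| + |x'| = 0 by ring, Real.exp_zero, mul_one] at h6
      rw [show |x'| - |x| = -|x| + |x'| by ring]
      exact h6
    calc DD R θ' ≤ DD R θ * Real.exp (|x'| - |x|) := h5
      _ ≤ DD R θ * Real.exp |x + x'| :=
        mul_le_mul_of_nonneg_left (Real.exp_le_exp.2 ht1) hD0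
      _ = _ := mul_comm _ _
  · have hk := keyB hR0 a0 hc b1
    rw [a2, b2] at hk
    have h5 : DD R θ' ≤ DD R θ * Real.exp (|x| - |x'|) := by
      have h6 := mul_le_mul_of_nonneg_right hk (Real.exp_pos (-|x'|)).le
      rw [mul_assoc, mul_assoc, ← Real.exp_add, ← Real.exp_add] at h6
      rw [show |x'| + -|x'| = 0 by ring, Real.exp_zero, mul_one] at h6
      rw [show |x| - |x'| = |x| + -|x'| by ring]
      exact h6
    calc DD R θ' ≤ DD R θ * Real.exp (|x| - |x'|) := h5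
      _ ≤ DD R θ * Real.exp |x + x'| :=
        mul_le_mul_of_nonneg_left (Real.exp_le_exp.2 ht2) hD0
      _ = _ := mul_comm _ _

end realIneq

section complexIneq

theorem normSq_exp_sub_one (w : ℂ) :
    ‖Complex.exp w - 1‖ ^ 2 = 2 * Real.exp w.re * (Real.cosh w.re - Real.cos w.im) := by
  rw [← Complex.normSq_eq_norm_sq, Complex.normSq_apply, Complex.sub_re, Complex.sub_im,
    Complex.exp_re, Complex.exp_im, Complex.one_re, Complex.one_im, Real.cosh_eq]
  have h1 := Real.sin_sq_add_cos_sq w.im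
  have h2 : Real.exp w.re * Real.exp (-w.re) = 1 := by
    rw [← Real.exp_add]; simp
  have h3 : Real.exp w.re * Real.exp w.re * (Real.sin w.im ^ 2 + Real.cos w.im ^ 2) =
      Real.exp w.re * Real.exp w.re := by rw [h1, mul_one]
  linear_combination h3 - h2

/-- no non-trivial solution of the two strict inequalities -/
theorem no_pair {A u : ℂ} (hu : ‖u‖ = 1) (hA : |A.im| ≤ π)
    (h1 : ‖Complex.exp (-A) - 1‖ < ‖Complex.exp (u * A) - 1‖)
    (h2 : ‖Complex.exp A - 1‖ < ‖Complex.exp (-(u * A)) - 1‖) : False := by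
  have e1 : ‖Complex.exp (-A) - 1‖ ^ 2 < ‖Complex.exp (u * A) - 1‖ ^ 2 :=
    pow_lt_pow_left₀ h1 (norm_nonneg _) two_ne_zero
  have e2 : ‖Complex.exp A - 1‖ ^ 2 < ‖Complex.exp (-(u * A)) - 1‖ ^ 2 :=
    pow_lt_pow_left₀ h2 (norm_nonneg _) two_ne_zero
  rw [normSq_exp_sub_one, normSq_exp_sub_one] at e1 e2
  simp only [Complex.neg_re, Complex.neg_im, Real.cosh_neg, Real.cos_neg] at e1 e2
  obtain ⟨x', hx'⟩ : ∃ x' : ℝ, x' = (u * A).re := ⟨_, rfl⟩
  obtain ⟨y', hy'⟩ : ∃ y' : ℝ, y' = (u * A).im := ⟨_, rfl⟩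
  rw [← hx', ← hy'] at e1 e2
  have hn : A.re ^ 2 + A.im ^ 2 = x' ^ 2 + y' ^ 2 := by
    have n1 : ‖u * A‖ ^ 2 = ‖A‖ ^ 2 := by rw [norm_mul, hu, one_mul]
    rw [← Complex.normSq_eq_norm_sq, ← Complex.normSq_eq_norm_sq, Complex.normSq_apply,
      Complex.normSq_apply, ← hx', ← hy'] at n1
    linarith only [n1]
  have hm := main_ineq hn hA
  obtain ⟨D, hD⟩ : ∃ D : ℝ, D = Real.cosh A.re - Real.cos A.im := ⟨_, rfl⟩
  obtain ⟨D', hD'⟩ : ∃ D' : ℝ, D' = Real.cosh x' - Real.cos y' := ⟨_, rfl⟩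
  rw [← hD, ← hD'] at e1 e2 hm
  have p1 := Real.exp_pos x'
  have p2 := Real.exp_pos (-x')
  have q1 : Real.exp (-(A.re + x')) * D < D' := by
    have h5 : Real.exp (-A.re) * D < Real.exp x' * D' := by linarith only [e1]
    have h6 := mul_lt_mul_of_pos_left h5 p2
    rw [← mul_assoc, ← mul_assoc, ← Real.exp_add, ← Real.exp_add] at h6
    rw [show -x' + x' = 0 by ring, Real.exp_zero, one_mul] at h6
    rw [show -(A.re + x') = -x' + -A.re by ring]
    exact h6
  have q2 : Real.exp (A.re + x') * D < D' := by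
    have h5 : Real.exp A.re * D < Real.exp (-x') * D' := by (clear * - e2; linarith only [e2])
    have h6 := mul_lt_mul_of_pos_left h5 p1
    rw [← mul_assoc, ← mul_assoc, ← Real.exp_add, ← Real.exp_add] at h6
    rw [show x' + -x' = 0 by ring, Real.exp_zero, one_mul] at h6
    rw [show A.re + x' = x' + A.re by ring]
    exact h6
  rcases abs_cases (A.re + x') with h | h
  · rw [h.1] at hm
    linarith only [hm, q2]
  · rw [h.1] at hm
    linarith only [hm, q1]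

end complexIneq

section maps

variable {u : ℂ}

/-- the spiral map -/
noncomputable def psi (u z : ℂ) : ℂ := z * Complex.exp ((1 + u) * Complex.log (1 - z⁻¹))

/-- the logarithm of its derivative -/
noncomputable def hh (u z : ℂ) : ℂ :=
  u * Complex.log (1 - z⁻¹) + Complex.log (1 + u * z⁻¹)

theorem re_pos_of {w : ℂ} (hw : ‖w‖ < 1) : 0 < (1 - w).re := by
  have := (Complex.re_le_norm w).trans_lt hw
  rw [Complex.sub_re, Complex.one_re]
  linarith only [this]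

theorem norm_inv_lt {z : ℂ} (hz : 1 < ‖z‖) : ‖z⁻¹‖ < 1 := by
  rw [norm_inv]
  exact inv_lt_one_of_one_lt₀ hz

theorem re_pos1 {z : ℂ} (hz : 1 < ‖z‖) : 0 < (1 - z⁻¹).re := re_pos_of (norm_inv_lt hz)

theorem re_pos2 {z : ℂ} (hu : ‖u‖ = 1) (hz : 1 < ‖z‖) : 0 < (1 + u * z⁻¹).re := by
  have h := re_pos_of (w := -(u * z⁻¹)) (by
    rw [norm_neg, norm_mul, hu, one_mul]
    exact norm_inv_lt hz)
  rwa [sub_neg_eq_add] at h

theorem ne_zero_of {z : ℂ} (hz : 1 < ‖z‖) : z ≠ 0 := by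
  intro h
  rw [h, norm_zero] at hz
  linarith only [hz]

theorem psi_injOn (hu : ‖u‖ = 1) : InjOn (psi u) {z : ℂ | 1 < ‖z‖} := by
  intro z₁ h₁ z₂ h₂ he
  have hz1 : 1 < ‖z₁‖ := h₁
  have hz2 : 1 < ‖z₂‖ := h₂
  obtain ⟨a, ha⟩ : ∃ a : ℂ, a = z₁⁻¹ := ⟨_, rfl⟩
  obtain ⟨b, hb⟩ : ∃ b : ℂ, b = z₂⁻¹ := ⟨_, rfl⟩
  have ha1 : ‖a‖ < 1 := by rw [ha]; exact norm_inv_lt hz1
  have hb1 : ‖b‖ < 1 := by rw [hb]; exact norm_inv_lt hz2
  have ha0 : a ≠ 0 := by rw [ha]; exact inv_ne_zero (ne_zero_of hz1)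
  have hb0 : b ≠ 0 := by rw [hb]; exact inv_ne_zero (ne_zero_of hz2)
  unfold psi at he
  rw [← ha, ← hb, show z₁ = a⁻¹ by rw [ha, inv_inv], show z₂ = b⁻¹ by rw [hb, inv_inv]] at he
  have pa := re_pos_of ha1
  have pb := re_pos_of hb1
  have na : (1 - a) ≠ 0 := by
    intro h
    rw [h, Complex.zero_re] at pa
    exact lt_irrefl _ pa
  have nb : (1 - b) ≠ 0 := by
    intro h
    rw [h, Complex.zero_re] at pb
    exact lt_irrefl _ pb
  obtain ⟨A, hA⟩ : ∃ A : ℂ, A = Complex.log (1 - a) - Complex.log (1 - b) := ⟨_, rfl⟩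
  have hAim : |A.im| < π := by
    rw [hA, Complex.sub_im, Complex.log_im, Complex.log_im]
    have t1 := Complex.abs_arg_lt_pi_div_two_iff.2 (Or.inl pa)
    have t2 := Complex.abs_arg_lt_pi_div_two_iff.2 (Or.inl pb)
    rw [abs_lt] at t1 t2 ⊢
    constructor <;> linarith only [t1, t2]
  have eA : Complex.exp A * (1 - b) = 1 - a := by
    rw [hA, Complex.exp_sub, Complex.exp_log na, Complex.exp_log nb]
    field_simp
  have eB : Complex.exp ((1 + u) * A) * b = a := by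
    have e1 : (1 + u) * A = (1 + u) * Complex.log (1 - a) - (1 + u) * Complex.log (1 - b) := by
      rw [hA]; ring
    rw [e1, Complex.exp_sub]
    have nE := Complex.exp_ne_zero ((1 + u) * Complex.log (1 - b))
    field_simp at he ⊢
    exact he
  have eu : Complex.exp ((1 + u) * A) = Complex.exp A * Complex.exp (u * A) := by
    rw [← Complex.exp_add]; congr 1; ring
  rw [eu] at eB
  have nA := Complex.exp_ne_zero A
  have nU := Complex.exp_ne_zero (u * A)
  have k1 : Complex.exp (-A) - 1 = (Complex.exp (u * A) - 1) * b := by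
    rw [Complex.exp_neg]
    field_simp
    linear_combination (-1 : ℂ) * eA - eB
  have k2 : Complex.exp A - 1 = (Complex.exp (-(u * A)) - 1) * a := by
    rw [Complex.exp_neg]
    field_simp
    rw [← eB] at eA ⊢
    linear_combination (Complex.exp (u * A)) * eA
  by_cases h0 : Complex.exp (u * A) = 1
  · rw [h0, sub_self, zero_mul, Complex.exp_neg, sub_eq_zero, inv_eq_one] at k1
    have : A = 0 := by
      rw [Complex.exp_eq_one_iff] at k1
      obtain ⟨n, hn⟩ := k1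
      have h4 := congrArg Complex.im hn
      have h5 : A.im = 2 * π * n := by
        rw [h4]
        simp
        ring
      rw [h5] at hAim
      have hn0 : n = 0 := by
        by_contra hne
        have h6 : (1 : ℝ) ≤ |(n : ℝ)| := by
          have := Int.one_le_abs hne
          exact_mod_cast this
        rw [abs_mul, abs_of_pos (by positivity : (0:ℝ) < 2 * π)] at hAim
        (clear * - hAim h6; nlinarith only [Real.pi_pos, hAim, h6])
      rw [hn, hn0]
      simp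
    rw [this, mul_zero, Complex.exp_zero, one_mul, one_mul] at eB
    have : z₁⁻¹ = z₂⁻¹ := by rw [← ha, ← hb, eB]
    exact inv_injective this
  · exfalso
    have h0' : Complex.exp (-(u * A)) ≠ 1 := by
      rw [Complex.exp_neg]
      intro h
      exact h0 (inv_eq_one.1 h)
    refine no_pair hu hAim.le ?_ ?_
    · rw [k1, norm_mul]
      exact mul_lt_of_lt_one_right (norm_pos_iff.2 (sub_ne_zero.2 h0)) hb1
    · rw [k2, norm_mul]
      exact mul_lt_of_lt_one_right (norm_pos_iff.2 (sub_ne_zero.2 h0')) ha1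

theorem hasDerivAt_psi {z : ℂ} (hu : ‖u‖ = 1) (hz : 1 < ‖z‖) :
    HasDerivAt (psi u) (Complex.exp (hh u z)) z := by
  have h0 := ne_zero_of hz
  have p1 := re_pos1 hz
  have p2 := re_pos2 (u := u) hu hz
  have n1 : (1 - z⁻¹) ≠ 0 := by
    intro h
    rw [h, Complex.zero_re] at p1
    exact lt_irrefl _ p1
  have n2 : (1 + u * z⁻¹) ≠ 0 := by
    intro h
    rw [h, Complex.zero_re] at p2
    exact lt_irrefl _ p2
  have d1 : HasDerivAt (fun z : ℂ => Complex.log (1 - z⁻¹)) (-(-(z ^ 2)⁻¹) / (1 - z⁻¹)) z :=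
    ((hasDerivAt_inv h0).const_sub 1).clog (Or.inl p1)
  have d2 := (hasDerivAt_id z).mul ((d1.const_mul (1 + u)).cexp)
  refine d2.congr_deriv ?_
  unfold hh
  have e1 : Complex.exp (u * Complex.log (1 - z⁻¹) + Complex.log (1 + u * z⁻¹)) =
      Complex.exp (u * Complex.log (1 - z⁻¹)) * (1 + u * z⁻¹) := by
    rw [Complex.exp_add, Complex.exp_log n2]
  have e2 : Complex.exp ((1 + u) * Complex.log (1 - z⁻¹)) =
      (1 - z⁻¹) * Complex.exp (u * Complex.log (1 - z⁻¹)) := by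
    rw [add_mul, one_mul, Complex.exp_add, Complex.exp_log n1]
  rw [e1, e2]
  simp only [id]
  have n3 : z - 1 ≠ 0 := by
    intro h
    apply n1
    rw [sub_eq_zero.1 h]
    simp
  field_simp
  ring

theorem hasDerivAt_hh {z : ℂ} (hu : ‖u‖ = 1) (hz : 1 < ‖z‖) :
    ∃ d, HasDerivAt (hh u) d z := by
  have h0 := ne_zero_of hz
  have p1 := re_pos1 hz
  have p2 := re_pos2 (u := u) hu hz
  have d1 : HasDerivAt (fun z : ℂ => Complex.log (1 - z⁻¹)) (-(-(z ^ 2)⁻¹) / (1 - z⁻¹)) z :=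
    ((hasDerivAt_inv h0).const_sub 1).clog (Or.inl p1)
  have d2 : HasDerivAt (fun z : ℂ => Complex.log (1 + u * z⁻¹))
      (u * (-(z ^ 2)⁻¹) / (1 + u * z⁻¹)) z :=
    (((hasDerivAt_inv h0).const_mul u).const_add 1).clog (Or.inl p2)
  exact ⟨_, (d1.const_mul u).add d2⟩

end maps

end Pool.Agent.Helper97.EKC

end

section

/-!
MP_16b0ee, project EKC: the exponent `|t| - 1` is attained for every complex `t = -κ conj u`,
`u ≠ -1`, `κ > 1`, by the spiral map `z (1 - 1/z)^(1+u)`.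
-/

set_option autoImplicit false

open Complex MeasureTheory Metric Set Filter Topology

open scoped Real ComplexConjugate

namespace Pool.Agent.Helper97.EKC

variable {u : ℂ}

theorem psi_diff (hu : ‖u‖ = 1) : DifferentiableOn ℂ (psi u) {z : ℂ | 1 < ‖z‖} :=
  fun _ hz => (hasDerivAt_psi hu hz).differentiableAt.differentiableWithinAt

theorem hh_diff (hu : ‖u‖ = 1) : DifferentiableOn ℂ (hh u) {z : ℂ | 1 < ‖z‖} := by
  intro z hz
  obtain ⟨d, hd⟩ := hasDerivAt_hh (u := u) hu hz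
  exact hd.differentiableAt.differentiableWithinAt

theorem exp_hh (hu : ‖u‖ = 1) {z : ℂ} (hz : 1 < ‖z‖) :
    Complex.exp (hh u z) = deriv (psi u) z := (hasDerivAt_psi hu hz).deriv.symm

theorem psi_tendsto (u : ℂ) :
    Tendsto (fun z => psi u z - z) (Bornology.cobounded ℂ) (𝓝 (-(1 + u))) := by
  have hg : HasDerivAt (fun ζ : ℂ => Complex.exp ((1 + u) * Complex.log (1 - ζ)))
      (-(1 + u)) 0 := by
    have d1 : HasDerivAt (fun ζ : ℂ => Complex.log (1 - ζ)) (-1 / (1 - 0)) 0 :=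
      ((hasDerivAt_id (0:ℂ)).const_sub 1).clog (Or.inl (by simp))
    refine ((d1.const_mul (1 + u)).cexp).congr_deriv ?_
    simp
  have hs := hasDerivAt_iff_tendsto_slope.1 hg
  have ht : Tendsto (fun z : ℂ => z⁻¹) (Bornology.cobounded ℂ) (𝓝[≠] 0) :=
    tendsto_nhdsWithin_iff.2 ⟨tendsto_inv₀_cobounded,
      (Bornology.eventually_ne_cobounded 0).mono fun z hz => inv_ne_zero hz⟩
  refine (hs.comp ht).congr' ?_
  filter_upwards [Bornology.eventually_ne_cobounded (0 : ℂ)] with z hz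
  simp only [Function.comp, slope_def_field, psi, sub_zero, Complex.log_one, mul_zero,
    Complex.exp_zero]
  rw [div_inv_eq_mul]
  ring

theorem hh_tendsto (u : ℂ) : Tendsto (hh u) (Bornology.cobounded ℂ) (𝓝 0) := by
  have hg : ContinuousAt (fun ζ : ℂ => u * Complex.log (1 - ζ) + Complex.log (1 + u * ζ)) 0 := by
    have d1 : ContinuousAt (fun ζ : ℂ => Complex.log (1 - ζ)) 0 :=
      ContinuousAt.clog (by fun_prop) (Or.inl (by simp))
    have d2 : ContinuousAt (fun ζ : ℂ => Complex.log (1 + u * ζ)) 0 :=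
      ContinuousAt.clog (by fun_prop) (Or.inl (by simp))
    exact (continuousAt_const.mul d1).add d2
  have ht : Tendsto (fun z : ℂ => z⁻¹) (Bornology.cobounded ℂ) (𝓝 0) := tendsto_inv₀_cobounded
  have := hg.tendsto.comp ht
  simp only [sub_zero, Complex.log_one, mul_zero, add_zero] at this
  exact this

/-- `log (1 + u ζ)` is bounded in a small sector around the positive axis -/
theorem log_bound (hu : ‖u‖ = 1) {δ : ℝ} (hδ : 4 * δ = ‖1 + u‖) (hδ0 : 0 < δ)
    {r θ : ℝ} (hr : 0 < r) (hr1 : r < 1) (hθ : 0 ≤ θ) (hθ1 : θ ≤ δ) :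
    ‖Complex.log (1 + u * (r * Complex.exp (-(θ * I))))‖ ≤ Real.log 2 - Real.log δ + π := by
  obtain ⟨w, hw⟩ : ∃ w : ℂ, w = 1 + u * (r * Complex.exp (-(θ * I))) := ⟨_, rfl⟩
  have he : ‖Complex.exp (-(θ * I)) - 1‖ ≤ θ := by
    have := Real.norm_exp_I_mul_ofReal_sub_one_le (x := -θ)
    rw [Real.norm_eq_abs, abs_neg, abs_of_nonneg hθ] at this
    rw [show -((θ : ℂ) * I) = I * ((-θ : ℝ) : ℂ) by push_cast; ring]
    exact this
  have hn : ‖Complex.exp (-(θ * I))‖ = 1 := by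
    rw [show -((θ : ℂ) * I) = ((-θ : ℝ) : ℂ) * I by push_cast; ring]
    exact Complex.norm_exp_ofReal_mul_I _
  have h1 : ‖1 + u‖ ≤ 2 * ‖1 + u * r‖ := by
    have a1 : ‖1 + u‖ ≤ ‖1 + u * r‖ + (1 - r) := by
      have : 1 + u = (1 + u * r) + u * ((1 - r : ℝ) : ℂ) := by push_cast; ring
      rw [this]
      refine (norm_add_le _ _).trans ?_
      rw [norm_mul, hu, one_mul, Complex.norm_real, Real.norm_of_nonneg (by (clear * - hr1; linarith only [hr1]))]
    have a2 : 1 - r ≤ ‖1 + u * r‖ := by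
      have := norm_sub_norm_le (1 : ℂ) (-(u * r))
      rw [norm_neg, norm_mul, hu, one_mul, norm_one, Complex.norm_real,
        Real.norm_of_nonneg hr.le, sub_neg_eq_add] at this
      exact this
    linarith only [a1, a2]
  have h2 : δ ≤ ‖w‖ := by
    have a3 : (1 + u * r) - w = -(u * (r * (Complex.exp (-(θ * I)) - 1))) := by
      rw [hw]; ring
    have a4 : ‖(1 + u * r) - w‖ ≤ θ := by
      rw [a3, norm_neg, norm_mul, norm_mul, hu, one_mul, Complex.norm_real,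
        Real.norm_of_nonneg hr.le]
      calc r * ‖Complex.exp (-(θ * I)) - 1‖ ≤ 1 * θ :=
            mul_le_mul hr1.le he (norm_nonneg _) zero_le_one
        _ = θ := one_mul _
    have a5 := norm_sub_norm_le (1 + u * r) w
    linarith only [hδ, hθ1, h1, a4, a5]
  have h3 : ‖w‖ ≤ 2 := by
    rw [hw]
    refine (norm_add_le _ _).trans ?_
    rw [norm_mul, norm_mul, hu, one_mul, hn, mul_one, norm_one, Complex.norm_real,
      Real.norm_of_nonneg hr.le]
    (clear * - hr1; linarith)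
  have hw0 : 0 < ‖w‖ := lt_of_lt_of_le hδ0 h2
  rw [← hw]
  refine (Complex.norm_le_abs_re_add_abs_im _).trans ?_
  rw [Complex.log_re, Complex.log_im]
  have hl1 : Real.log ‖w‖ ≤ Real.log 2 := Real.log_le_log hw0 h3
  have hl2 : Real.log δ ≤ Real.log ‖w‖ := Real.log_le_log hδ0 h2
  have hδ1 : δ ≤ 1 / 2 := by
    have : ‖1 + u‖ ≤ 2 := by
      refine (norm_add_le _ _).trans ?_
      rw [hu, norm_one]
      norm_num
    linarith only [hδ, this]
  have hl3 : Real.log δ ≤ 0 := Real.log_nonpos hδ0.le (by (clear * - hδ1; linarith only [hδ1]))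
  have hl4 : 0 ≤ Real.log 2 := Real.log_nonneg (by norm_num)
  have ha := Complex.abs_arg_le_pi w
  have hb : |Real.log ‖w‖| ≤ Real.log 2 - Real.log δ := by
    rw [abs_le]
    constructor <;> linarith only [hl2, hl4, hl1, hl3]
  (clear * - ha hb; linarith)

theorem re_formula (hu : ‖u‖ = 1) (κ : ℝ) {z : ℂ} :
    (-(κ : ℂ) * conj u * hh u z).re =
      -κ * Real.log ‖1 - z⁻¹‖ + -κ * (conj u * Complex.log (1 + u * z⁻¹)).re := by
  have huu : conj u * u = 1 := by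
    rw [Complex.conj_mul', hu]
    simp
  have : -(κ : ℂ) * conj u * hh u z = ((-κ : ℝ) : ℂ) * Complex.log (1 - z⁻¹) +
      ((-κ : ℝ) : ℂ) * (conj u * Complex.log (1 + u * z⁻¹)) := by
    unfold hh
    push_cast
    linear_combination (-(κ : ℂ) * Complex.log (1 - z⁻¹)) * huu
  rw [this, Complex.add_re, Complex.re_ofReal_mul, Complex.re_ofReal_mul, Complex.log_re]

/-- the lower bound for the means -/
theorem mean_lower (hu : ‖u‖ = 1) (hu1 : u ≠ -1) {κ : ℝ} (hκ : 1 < κ) :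
    ∃ c : ℝ, 0 < c ∧ ∀ R : ℝ, 1 < R →
      c * (R ^ 2 / (R ^ 2 - 1)) ^ (κ - 1) ≤ (2 * π)⁻¹ * ∫ θ in (0:ℝ)..(2 * π),
        Real.exp (-(κ : ℂ) * conj u * hh u (R * Complex.exp (θ * I))).re := by
  have hpi := Real.pi_gt_three
  have hne : 1 + u ≠ 0 := by
    intro h
    apply hu1
    linear_combination h
  obtain ⟨δ, hδ⟩ : ∃ δ : ℝ, 4 * δ = ‖1 + u‖ := ⟨‖1 + u‖ / 4, by ring⟩
  have hδ0 : 0 < δ := by
    have := norm_pos_iff.2 hne
    (clear * - hδ this; linarith only [hδ, this])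
  have hδ1 : δ ≤ 1 / 2 := by
    have : ‖1 + u‖ ≤ 2 := by
      refine (norm_add_le _ _).trans ?_
      rw [hu, norm_one]
      norm_num
    linarith only [hδ, this]
  obtain ⟨M, hM⟩ : ∃ M : ℝ, M = Real.log 2 - Real.log δ + π := ⟨_, rfl⟩
  refine ⟨(2 * π)⁻¹ * (δ * (2 ^ (-κ) * Real.exp (-(κ * M)))), by (clear * - hδ0; positivity), fun R hR => ?_⟩
  obtain ⟨r, hr⟩ : ∃ r : ℝ, r = R⁻¹ := ⟨_, rfl⟩
  have hR0 : 0 < R := by (clear * - hR; linarith only [hR])
  have hr0 : 0 < r := by rw [hr]; positivity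
  have hr1 : r < 1 := by rw [hr]; exact inv_lt_one_of_one_lt₀ hR
  obtain ⟨d, hd⟩ : ∃ d : ℝ, d = 1 - r := ⟨_, rfl⟩
  have hd0 : 0 < d := by linarith only [hr1, hd]
  have hd1 : d < 1 := by linarith only [hr0, hd]
  -- the left side
  have hL : (R ^ 2 / (R ^ 2 - 1)) ^ (κ - 1) ≤ d * d ^ (-κ) := by
    have e1 : R ^ 2 / (R ^ 2 - 1) ≤ d⁻¹ := by
      have h1 : 0 < R ^ 2 - 1 := by (clear * - hR; nlinarith only [hR])
      rw [hd, hr, div_le_iff₀ h1]
      have h2 : 0 < R - 1 := by (clear * - hR; linarith)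
      have h3 : (1 - R⁻¹)⁻¹ = R / (R - 1) := by (clear * - hR h2; field_simp)
      rw [h3, div_mul_eq_mul_div, le_div_iff₀ h2]
      (clear * - h2; nlinarith only [h2])
    have e2 : d⁻¹ ^ (κ - 1) = d * d ^ (-κ) := by
      rw [Real.inv_rpow hd0.le, ← Real.rpow_neg hd0.le]
      nth_rw 2 [← Real.rpow_one d]
      rw [← Real.rpow_add hd0]
      congr 1
      ring
    rw [← e2]
    refine Real.rpow_le_rpow ?_ e1 (by linarith only [hκ])
    have h1 : 0 < R ^ 2 - 1 := by (clear * - hR; nlinarith only [hR])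
    (clear * - hR h1; positivity)
  -- the integrand
  obtain ⟨F, hF⟩ : ∃ F : ℝ → ℝ, F = fun θ : ℝ =>
    Real.exp (-(κ : ℂ) * conj u * hh u (R * Complex.exp (θ * I))).re := ⟨_, rfl⟩
  have hout : ∀ θ : ℝ, 1 < ‖(R : ℂ) * Complex.exp (θ * I)‖ := by
    intro θ
    rw [norm_mul, Complex.norm_exp_ofReal_mul_I, mul_one, Complex.norm_real,
      Real.norm_of_nonneg hR0.le]
    exact hR
  have hc : Continuous F := by
    rw [hF]
    have h1 : Continuous (fun θ : ℝ => hh u (R * Complex.exp (θ * I))) :=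
      (hh_diff hu).continuousOn.comp_continuous (by fun_prop) hout
    exact Real.continuous_exp.comp (Complex.continuous_re.comp (continuous_const.mul h1))
  have hF0 : ∀ θ, 0 ≤ F θ := by
    intro θ
    rw [hF]
    exact (Real.exp_pos _).le
  have hb : δ * d ≤ 2 * π := by nlinarith only [hpi, hδ1, hd0, hd1]
  have hb0 : 0 ≤ δ * d := by positivity
  have h1 : ∫ θ in (0:ℝ)..(δ * d), F θ ≤ ∫ θ in (0:ℝ)..(2 * π), F θ :=
    intervalIntegral.integral_mono_interval le_rfl hb0 hb (Filter.Eventually.of_forall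
      (fun θ => hF0 θ)) (hc.intervalIntegrable _ _)
  have h2 : ∫ _θ in (0:ℝ)..(δ * d), ((2 * d) ^ (-κ) * Real.exp (-(κ * M))) ≤
      ∫ θ in (0:ℝ)..(δ * d), F θ := by
    refine intervalIntegral.integral_mono_on hb0 (continuous_const.intervalIntegrable _ _)
      (hc.intervalIntegrable _ _) (fun θ hθ => ?_)
    rw [hF]
    have ei : ((R : ℂ) * Complex.exp (θ * I))⁻¹ = r * Complex.exp (-(θ * I)) := by
      rw [mul_inv, ← Complex.exp_neg, hr]
      push_cast
      rfl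
    have hθ1 : θ ≤ δ := hθ.2.trans (by nlinarith only [hd0, hd1, hb0])
    have hθ2 : θ ≤ d := hθ.2.trans (by nlinarith only [hδ1, hd0])
    have hlog := log_bound hu hδ hδ0 hr0 hr1 hθ.1 hθ1
    rw [← hM, ← ei] at hlog
    have hre : (conj u * Complex.log (1 + u * ((R : ℂ) * Complex.exp (θ * I))⁻¹)).re ≤ M := by
      refine (Complex.re_le_norm _).trans ?_
      rw [norm_mul, Complex.norm_conj, hu, one_mul]
      exact hlog
    have hnorm : ‖1 - ((R : ℂ) * Complex.exp (θ * I))⁻¹‖ ≤ 2 * d := by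
      rw [ei]
      have e3 : (1 : ℂ) - r * Complex.exp (-(θ * I)) =
          ((1 - r : ℝ) : ℂ) - r * (Complex.exp (-(θ * I)) - 1) := by
        push_cast; ring
      have he : ‖Complex.exp (-(θ * I)) - 1‖ ≤ θ := by
        have := Real.norm_exp_I_mul_ofReal_sub_one_le (x := -θ)
        rw [Real.norm_eq_abs, abs_neg, abs_of_nonneg hθ.1] at this
        rw [show -((θ : ℂ) * I) = I * ((-θ : ℝ) : ℂ) by push_cast; ring]
        exact this
      rw [e3]
      refine (norm_sub_le _ _).trans ?_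
      rw [norm_mul, Complex.norm_real, Complex.norm_real, Real.norm_of_nonneg (by linarith only [hd, hd0]),
        Real.norm_of_nonneg hr0.le]
      have h5 : r * ‖Complex.exp (-(θ * I)) - 1‖ ≤ 1 * θ :=
        mul_le_mul hr1.le he (norm_nonneg _) zero_le_one
      linarith only [hd, hθ2, h5]
    have hpos : 0 < ‖1 - ((R : ℂ) * Complex.exp (θ * I))⁻¹‖ := by
      have := re_pos1 (hout θ)
      exact lt_of_lt_of_le this (Complex.re_le_norm _)
    beta_reduce
    rw [re_formula hu]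
    have e5 : (2 * d) ^ (-κ) * Real.exp (-(κ * M)) =
        Real.exp (-κ * Real.log (2 * d) + -κ * M) := by
      rw [Real.rpow_def_of_pos (by positivity), ← Real.exp_add]
      congr 1
      ring
    rw [e5]
    refine Real.exp_le_exp.2 ?_
    have l1 := Real.log_le_log hpos hnorm
    have k1 : -κ * Real.log (2 * d) ≤ -κ * Real.log ‖1 - ((R : ℂ) * Complex.exp (θ * I))⁻¹‖ :=
      mul_le_mul_of_nonpos_left l1 (by linarith only [hκ])
    have k2 := mul_le_mul_of_nonpos_left hre (show -κ ≤ 0 by linarith only [hκ])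
    linarith only [k1, k2]
  rw [intervalIntegral.integral_const, sub_zero, smul_eq_mul, Real.mul_rpow (by norm_num) hd0.le]
    at h2
  have h3 := h2.trans h1
  have h4 := mul_le_mul_of_nonneg_left h3 (show 0 ≤ (2 * π)⁻¹ by positivity)
  rw [hF] at h4
  refine le_trans ?_ h4
  have h6 := mul_le_mul_of_nonneg_left hL
    (show 0 ≤ (2 * π)⁻¹ * (δ * (2 ^ (-κ) * Real.exp (-(κ * M)))) by positivity)
  refine h6.trans (le_of_eq ?_)
  ring

/-- sharpness for complex exponents -/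
theorem sharp_u (hu : ‖u‖ = 1) (hu1 : u ≠ -1) : ∃ ψ h : ℂ → ℂ,
    DifferentiableOn ℂ ψ {z : ℂ | 1 < ‖z‖} ∧ InjOn ψ {z : ℂ | 1 < ‖z‖} ∧
    (∃ b : ℂ, Tendsto (fun z => ψ z - z) (Bornology.cobounded ℂ) (𝓝 b)) ∧
    DifferentiableOn ℂ h {z : ℂ | 1 < ‖z‖} ∧
    (∀ z : ℂ, 1 < ‖z‖ → Complex.exp (h z) = deriv ψ z) ∧
    Tendsto h (Bornology.cobounded ℂ) (𝓝 0) ∧
    ∀ κ : ℝ, 1 < κ → ∃ c : ℝ, 0 < c ∧ ∀ R : ℝ, 1 < R →
      c * (R ^ 2 / (R ^ 2 - 1)) ^ (κ - 1) ≤ (2 * π)⁻¹ * ∫ θ in (0:ℝ)..(2 * π),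
        Real.exp (-(κ : ℂ) * conj u * h (R * Complex.exp (θ * I))).re :=
  ⟨psi u, hh u, psi_diff hu, psi_injOn hu, ⟨_, psi_tendsto u⟩, hh_diff hu,
    fun _ hz => exp_hh hu hz, hh_tendsto u, fun _ hκ => mean_lower hu hu1 hκ⟩

end Pool.Agent.Helper97.EKC

end

section

namespace Pool.Agent.Helper39.Area
end Pool.Agent.Helper39.Area
namespace Pool.Agent.Helper52.EK
end Pool.Agent.Helper52.EK
namespace Pool.Agent.Helper68.EKC
end Pool.Agent.Helper68.EKC

set_option autoImplicit false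

open Complex MeasureTheory Metric Set

open scoped Real ComplexConjugate

namespace Pool.Agent.Helper96.EKC

open Pool.Agent.Helper39.Area Pool.Agent.Helper52.EK Pool.Agent.Helper68.EKC

/-- the only input: the strip inequality in every direction -/
def Cover : Prop :=
  ∀ u : ℂ, ‖u‖ = 1 →
    StripIneq (9 / 2 * (1 + ((1 + u) / 2).re) - 1 / 20)
      (fun X Y s c => TG (Gu u) ((1 + u) / 2 * X) ((1 + u) / 2 * Y) s c)

theorem upper (cover : Cover) {t : ℂ} (ht0 : t ≠ 0)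
    (hreg : 9 * (3 * ‖t‖ - t.re) ≤ 4 * ‖t‖ * (‖t‖ - t.re)) :
    ∃ C : ℝ, ∀ ψ h : ℂ → ℂ, DifferentiableOn ℂ ψ {z : ℂ | 1 < ‖z‖} →
      InjOn ψ {z : ℂ | 1 < ‖z‖} →
      (∃ b : ℂ, Filter.Tendsto (fun z => ψ z - z) (Bornology.cobounded ℂ) (nhds b)) →
      DifferentiableOn ℂ h {z : ℂ | 1 < ‖z‖} →
      (∀ z : ℂ, 1 < ‖z‖ → Complex.exp (h z) = deriv ψ z) →
      Filter.Tendsto h (Bornology.cobounded ℂ) (nhds 0) →
      ∀ R : ℝ, 1 < R →
      (2 * π)⁻¹ * (∫ θ in (0:ℝ)..(2 * π), ‖Complex.exp (t * h (R * Complex.exp (θ * I)))‖) ≤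
        C * (R ^ 2 / (R ^ 2 - 1)) ^ (‖t‖ - 1) := by
  have hn0 : 0 < ‖t‖ := norm_pos_iff.mpr ht0
  have hre1 : t.re ≤ ‖t‖ := Complex.re_le_norm t
  have hre2 : -‖t‖ ≤ t.re := by
    have := Complex.abs_re_le_norm t
    exact (abs_le.mp this).1
  have hd : 0 < ‖t‖ - t.re := by nlinarith only [hreg, hn0, hre1]
  have h94 : 9 / 4 < ‖t‖ := by
    by_contra hc
    push Not at hc
    (clear * - hreg hn0 hd hc; nlinarith only [hreg, hn0, hd, hc])
  set u : ℂ := -(conj t / ‖t‖) with hu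
  have hu1 : ‖u‖ = 1 := by
    rw [hu, norm_neg, norm_div, RCLike.norm_conj, Complex.norm_real, norm_norm, div_self hn0.ne']
  have hre : u.re = -(t.re / ‖t‖) := by
    rw [hu, Complex.neg_re, Complex.div_ofReal_re, Complex.conj_re]
  have hal : ((1 + u) / 2).re = (1 - t.re / ‖t‖) / 2 := by
    have h2 : (1 + u) / 2 = (1 + u) / ((2:ℝ) : ℂ) := by norm_num
    rw [h2, Complex.div_ofReal_re, Complex.add_re, Complex.one_re, hre]
    ring
  have hq : -1 ≤ t.re / ‖t‖ ∧ t.re / ‖t‖ ≤ 1 := by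
    constructor
    · rw [le_div_iff₀ hn0]; linarith only [hre2]
    · rw [div_le_iff₀ hn0]; linarith only [hd]
  refine sigma_of_strip_t (t := t) (κ' := 9 / 2 * (1 + ((1 + u) / 2).re) - 1 / 20)
    (by linarith only [h94]) ?_ ?_ ?_
  · rw [hal]; linarith only [hq]
  · exact cover u hu1
  · rw [hal]
    have h5 : 9 / 2 * (1 + (1 - t.re / ‖t‖) / 2) ≤ ‖t‖ - t.re := by
      have h6 : 9 / 2 * (1 + (1 - t.re / ‖t‖) / 2) = 9 * (3 * ‖t‖ - t.re) / (4 * ‖t‖) := by
        field_simp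
        ring
      rw [h6, div_le_iff₀ (by positivity)]
      linarith only [hreg]
    linarith only [h5]

end Pool.Agent.Helper96.EKC

end

section

namespace Pool.Agent.Helper39.Area
end Pool.Agent.Helper39.Area
namespace Pool.Agent.Helper68.EKC
end Pool.Agent.Helper68.EKC
namespace Pool.Agent.Helper5.CK
end Pool.Agent.Helper5.CK
namespace Pool.Agent.Helper39.EK
end Pool.Agent.Helper39.EK
namespace Pool.Agent.Helper52.EK
end Pool.Agent.Helper52.EK
namespace Pool.Agent.Helper14.CK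
end Pool.Agent.Helper14.CK
namespace Pool.Agent.Helper28.EK
end Pool.Agent.Helper28.EK
namespace Pool.Agent.Helper27.CK
end Pool.Agent.Helper27.CK

set_option autoImplicit false

open Complex MeasureTheory Metric Set Filter Topology

open scoped Real ComplexConjugate

namespace Pool.Agent.Helper99.CKC

open Pool.Agent.Helper39.Area Pool.Agent.Helper68.EKC Pool.Agent.Helper5.CK Pool.Agent.Helper39.EK

open Pool.Agent.Helper52.EK hiding Rect

open Pool.Agent.Helper14.CK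

open Pool.Agent.Helper28.EK (scale_ExtR scale_N)

open Pool.Agent.Helper27.CK (Wt2 An Geo dl dl_smul hd hasDerivAt_hh ep_mem_An An_ball contRect qN cont_ep expand expand_one exp_expand cW MW MW_nonneg exp_neg_lt Ext_zero rect_eqC wt_of)

noncomputable section

/-- uniform expansion of `N` -/
theorem expand0 (hV : Variation) {η : ℝ} (hη : 0 < η) :
    ∃ C t1 : ℝ, 0 < C ∧ 0 < t1 ∧ ∀ β, Ext β → ∀ p : ℂ, η ≤ ‖p‖ → ‖p‖ ≤ 1 - η →
      ∀ B : ℂ, ‖B‖ ≤ 1 →
      (∀ z : ℂ, η ≤ ‖z‖ → ‖z‖ ≤ 1 - η → η ≤ ‖z - p‖ → ‖dl β p B z‖ ≤ C) ∧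
      ∀ t : ℝ, 0 < t → t ≤ t1 → ∃ γ, Ext γ ∧ ∀ z : ℂ, η ≤ ‖z‖ → ‖z‖ ≤ 1 - η → η ≤ ‖z - p‖ →
        ‖N γ z / N β z - 1 - t * dl β p B z‖ ≤ C * t ^ 2 := by
  obtain ⟨C1, t1, hC1, ht1, h1⟩ := expand hV (le_refl (0:ℝ)) hη
  obtain ⟨C0, t0, hC0, ht0, hV⟩ := hV η hη
  by_cases hη1 : η ≤ 1 - η
  swap
  · refine ⟨1, 1, one_pos, one_pos, fun β _ p h1 h2 => ?_⟩
    exact absurd (h1.trans h2) hη1
  set m : ℝ := 1 - (1 - η) ^ 2 with hm
  have hm0 : 0 < m := by nlinarith only [hη, hη1]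
  have hNge : ∀ {β : ℂ → ℂ}, Ext β → ∀ z : ℂ, ‖z‖ ≤ 1 - η → m ≤ ‖N β z‖ := by
    intro β hβ z hz
    have h1 := N_ge hβ (z := z) (by (clear * - hη hz; linarith only [hη, hz]))
    have h2 : ‖z‖ ^ 2 ≤ (1 - η) ^ 2 := by
      have := norm_nonneg z
      (clear * - hz; gcongr)
    (clear * - h1 h2; linarith only [h1, h2])
  refine ⟨C1 + C0 / m, t0, by (clear * - hC1 hC0 hm0; positivity), ht0, fun β hβ p hp hp1 B hB => ⟨?_, ?_⟩⟩
  · intro z hz hz1 hzp
    have := (h1 β hβ p hp hp1 B hB).1 z hz hz1 hzp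
    have h2 : 0 ≤ C0 / m := by (clear * - hC0 hm0; positivity)
    linarith
  intro t ht htt
  have hτ : ‖(t : ℂ) * B‖ ≤ t := by
    rw [norm_mul, Complex.norm_real, Real.norm_eq_abs, abs_of_pos ht]
    (clear * - hB ht; nlinarith only [hB, ht])
  obtain ⟨γ, hγ, h2⟩ := hV β hβ p hp hp1 (t * B) (hτ.trans htt)
  refine ⟨γ, hγ, fun z hz hz1 hzp => ?_⟩
  have h3 := expand_one hβ hγ hm0 (hNge hβ z hz1) hη hp hp1 hz hz1 hzp (h2 z hz hz1 hzp)
  rw [dl_smul] at h3
  have h4 : ‖(t : ℂ) * B‖ ^ 2 ≤ t ^ 2 := by (clear * - hτ; gcongr)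
  refine h3.trans ?_
  calc C0 / m * ‖(t : ℂ) * B‖ ^ 2 ≤ C0 / m * t ^ 2 := by (clear * - h4 hC0 hm0; gcongr)
    _ ≤ (C1 + C0 / m) * t ^ 2 := by
        have : 0 ≤ C1 * t ^ 2 := by (clear * - hC1 ht; positivity)
        linarith only [this]

/-- `log (1 + t d + O(t²)) = t d + O(t²)` -/
theorem log_expandC {C t : ℝ} {w d : ℂ} (hC : 0 ≤ C) (hd : ‖d‖ ≤ C)
    (hw : ‖w - 1 - t * d‖ ≤ C * t ^ 2) (ht : |t| ≤ 1) (htC : 4 * (C + 1) * |t| ≤ 1) :
    ‖w - 1‖ ≤ 1 / 2 ∧ ‖Complex.log w - t * d‖ ≤ (C + 4 * C ^ 2) * t ^ 2 := by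
  have ht2 : t ^ 2 = |t| ^ 2 := (sq_abs t).symm
  have ht0 := abs_nonneg t
  have h1 : ‖w - 1‖ ≤ 2 * C * |t| := by
    have : w - 1 = (w - 1 - t * d) + t * d := by ring
    rw [this]
    refine (norm_add_le _ _).trans ?_
    rw [norm_mul, Complex.norm_real, Real.norm_eq_abs]
    have : C * t ^ 2 ≤ C * |t| := by
      rw [ht2]
      (clear * - hC ht0 ht; nlinarith only [mul_nonneg hC ht0, ht])
    nlinarith only [hd, hw, ht0, this]
  have h2 : ‖w - 1‖ ≤ 1 / 2 := by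
    refine h1.trans ?_
    linarith only [htC, ht0]
  refine ⟨h2, ?_⟩
  have h3 := Complex.norm_log_one_add_sub_self_le (z := w - 1) (by linarith only [h2])
  rw [show (1 : ℂ) + (w - 1) = w by ring] at h3
  have h4 : (1 - ‖w - 1‖)⁻¹ ≤ 2 := by
    rw [inv_le_comm₀ (by (clear * - h2; linarith only [h2])) (by norm_num)]
    (clear * - h2; linarith only [h2])
  have h5 : (0 : ℝ) ≤ ‖w - 1‖ ^ 2 := by positivity
  have h6 : ‖w - 1‖ ^ 2 ≤ 4 * C ^ 2 * t ^ 2 := by
    rw [ht2]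
    calc ‖w - 1‖ ^ 2 ≤ (2 * C * |t|) ^ 2 := by gcongr
      _ = _ := by ring
  calc ‖Complex.log w - t * d‖ = ‖(Complex.log w - (w - 1)) + (w - 1 - t * d)‖ := by
        congr 1; ring
    _ ≤ _ := (norm_add_le _ _).trans (by nlinarith only [hw, h3, h4, h6])

variable {a b : ℝ} {om om' u u' : ℝ → ℝ}

/-- the bound of the logarithm on the window -/
def ML (a : ℝ) : ℝ := -Real.log (1 - Real.exp (-a) ^ 2)

theorem L_le {β L : ℂ → ℂ} (h : Ext β) (hL : IsLog β L) (ha : 0 < a) {p : ℝ × ℝ}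
    (hp : p ∈ Rect a b) : ‖L (ep (-p.1) p.2)‖ ≤ ML a := by
  have hz := ep_mem_An hp
  have h1 := hL.goluzin h (An_ball ha hz)
  have h2 : ‖ep (-p.1) p.2‖ ^ 2 ≤ Real.exp (-a) ^ 2 := by
    have := hz.2
    gcongr
  have h3 := exp_neg_lt ha
  have h4 : 0 < 1 - Real.exp (-a) ^ 2 := by nlinarith only [Real.exp_pos (-a), h3]
  unfold ML
  have h5 := Real.log_le_log h4 (show 1 - Real.exp (-a) ^ 2 ≤ 1 - ‖ep (-p.1) p.2‖ ^ 2 by linarith only [h2])
  linarith only [h1, h5]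

theorem FT_pos (T : ℂ) (L : ℂ → ℂ) (p : ℝ × ℝ) : 0 < FT T L p := Real.exp_pos _

theorem FT_le {β L : ℂ → ℂ} (h : Ext β) (hL : IsLog β L) (ha : 0 < a) (T : ℂ) {p : ℝ × ℝ}
    (hp : p ∈ Rect a b) : FT T L p ≤ Real.exp (‖T‖ * ML a) := by
  unfold FT
  refine Real.exp_le_exp.mpr ?_
  have h1 := L_le h hL ha hp
  calc (T * L (ep (-p.1) p.2)).re ≤ ‖T * L (ep (-p.1) p.2)‖ := Complex.re_le_norm _
    _ = ‖T‖ * ‖L (ep (-p.1) p.2)‖ := norm_mul _ _
    _ ≤ _ := by (clear * - h1; gcongr)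

theorem JT_nonneg (W : Wt2 om om' a b u u') (T : ℂ) (L : ℂ → ℂ) : 0 ≤ JT T om u a b L :=
  setIntegral_nonneg (measurableSet_rect a b) fun _ _ =>
    mul_nonneg (mul_nonneg (W.om_nn _) (W.u_nn _)) (FT_pos _ _ _).le

theorem JT_le (W : Wt2 om om' a b u u') (T : ℂ) {β L : ℂ → ℂ} (h : Ext β) (hL : IsLog β L) :
    JT T om u a b L ≤ Real.exp (‖T‖ * ML a) * MW om u a b := by
  unfold JT MW
  rw [← integral_const_mul]
  refine setIntegral_mono_on (integrableOn_rect ((cW W).mul (cFT hL W.a_pos T)))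
    (integrableOn_rect (continuousOn_const.mul (cW W))) (measurableSet_rect a b) ?_
  intro p hp
  have h1 := FT_le h hL W.a_pos T hp
  have h2 : 0 ≤ om p.1 * u p.2 := mul_nonneg (W.om_nn _) (W.u_nn _)
  calc om p.1 * u p.2 * FT T L p ≤ om p.1 * u p.2 * Real.exp (‖T‖ * ML a) := by gcongr
    _ = _ := by ring

/-- uniform expansion of the functional -/
theorem JT_expand (hV : Variation) (W : Wt2 om om' a b u u') (hb1 : b ≤ 1) (T : ℂ) :
    ∃ C t1 : ℝ, 0 < C ∧ 0 < t1 ∧ ∀ β L, Ext β → IsLog β L → ∀ z0 : ℂ, Real.exp (-1) ≤ ‖z0‖ →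
      ‖z0‖ ≤ Real.exp (-2 * b) → ∀ B : ℂ, ‖B‖ ≤ 1 → ∀ t : ℝ, 0 < t → t ≤ t1 →
      ∃ γ L', Ext γ ∧ IsLog γ L' ∧
        |JT T om u a b L' - JT T om u a b L - t * (B * ET T om om' u u' a b β L z0).re| ≤
          C * t ^ 2 := by
  have ha := W.a_pos
  have hab := W.a_lt
  have hb : 0 < b := ha.trans hab
  have e1 : Real.exp (-2 * b) < Real.exp (-b) := Real.exp_lt_exp.mpr (by linarith)
  have e2 := exp_neg_lt ha
  have e3 : Real.exp (-b) ≤ Real.exp (-a) := Real.exp_le_exp.mpr (by (clear * - hab; linarith))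
  obtain ⟨η, hη⟩ : ∃ η : ℝ, η = min (Real.exp (-1)) (min (Real.exp (-b))
    (min (1 - Real.exp (-a)) (Real.exp (-b) - Real.exp (-2 * b)))) := ⟨_, rfl⟩
  have hη0 : 0 < η := by
    rw [hη]
    refine lt_min (Real.exp_pos _) (lt_min (Real.exp_pos _) (lt_min ?_ ?_)) <;> linarith
  have hη1 : η ≤ Real.exp (-1) := by rw [hη]; exact min_le_left _ _
  have hη2 : η ≤ Real.exp (-b) := by
    rw [hη]; exact (min_le_right _ _).trans (min_le_left _ _)
  have hη3 : η ≤ 1 - Real.exp (-a) := by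
    rw [hη]; exact (min_le_right _ _).trans ((min_le_right _ _).trans (min_le_left _ _))
  have hη4 : η ≤ Real.exp (-b) - Real.exp (-2 * b) := by
    rw [hη]; exact (min_le_right _ _).trans ((min_le_right _ _).trans (min_le_right _ _))
  obtain ⟨C, t0, hC, ht0, hE⟩ := expand0 hV hη0
  have hM := MW_nonneg W
  obtain ⟨C3, hC3⟩ : ∃ C3 : ℝ, C3 = ‖T‖ * (C + 4 * C ^ 2) + ‖T‖ * C := ⟨_, rfl⟩
  have hC3p : 0 ≤ C3 := by rw [hC3]; (clear * - hC; positivity)
  obtain ⟨C4, hC4⟩ : ∃ C4 : ℝ, C4 = C3 + 4 * C3 ^ 2 := ⟨_, rfl⟩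
  have hC4p : 0 ≤ C4 := by rw [hC4]; (clear * - hC3p; positivity)
  obtain ⟨t1, ht1⟩ : ∃ t1 : ℝ, t1 = min t0 (min 1 (1 / (4 * (C + C3 + 1)))) := ⟨_, rfl⟩
  have ht1p : 0 < t1 := by
    rw [ht1]
    refine lt_min ht0 (lt_min one_pos ?_)
    (clear * - hC hC3p; positivity)
  refine ⟨Real.exp (‖T‖ * ML a) * C4 * MW om u a b + 1, t1, by (clear * - hC4p hM; positivity), ht1p, ?_⟩
  intro β L hβ hL z0 hz0 hz0' B hB t ht htt
  have ht0' : t ≤ t0 := htt.trans (by rw [ht1]; exact min_le_left _ _)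
  have ht1' : t ≤ 1 := htt.trans (by
    rw [ht1]; exact (min_le_right _ _).trans (min_le_left _ _))
  have ht2' : t ≤ 1 / (4 * (C + C3 + 1)) := htt.trans (by
    rw [ht1]; exact (min_le_right _ _).trans (min_le_right _ _))
  have ht3 : 4 * (C + C3 + 1) * t ≤ 1 := by
    rw [le_div_iff₀ (by (clear * - hC hC3p; positivity))] at ht2'
    linarith only [ht2']
  have habs : |t| = t := abs_of_pos ht
  have hg : Geo a b β z0 := ⟨hβ, ha, norm_pos_iff.mp ((Real.exp_pos _).trans_le hz0),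
    by linarith only [hη0, hη4, hz0'], hab.le⟩
  obtain ⟨hdl, h2⟩ := hE β hβ z0 (hη1.trans hz0) (by (clear * - e3 hη0 hη3 hη4 hz0'; linarith only [e3, hη0, hη3, hη4, hz0'])) B hB
  obtain ⟨γ, hγ, h3⟩ := h2 t ht ht0'
  obtain ⟨L', hL'⟩ := exists_isLog hγ
  refine ⟨γ, L', hγ, hL', ?_⟩
  -- the branch
  have hθ : arg (-z0) ∈ Icc (-π) π := ⟨(Complex.neg_pi_lt_arg _).le, Complex.arg_le_pi _⟩
  have hS : ∀ p ∈ SS a b (arg (-z0)), η ≤ ‖ep (-p.1) p.2‖ ∧ ‖ep (-p.1) p.2‖ ≤ 1 - η ∧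
      η ≤ ‖ep (-p.1) p.2 - z0‖ := by
    rintro p (hp | ⟨hp1, hp2⟩)
    · have hz := ep_mem_An hp
      refine ⟨hη2.trans hz.1, by linarith only [hz.2, hη3], ?_⟩
      have := norm_sub_norm_le (ep (-p.1) p.2) z0
      (clear * - hz hη4 hz0' this; linarith only [hz.1, hη4, hz0', this])
    · have hp3 : p.2 = arg (-z0) := hp2
      have h4 : Real.exp (-1) ≤ Real.exp (-p.1) := Real.exp_le_exp.mpr (by linarith only [hp1.2])
      have h5 : Real.exp (-p.1) ≤ Real.exp (-a) := Real.exp_le_exp.mpr (by linarith only [hp1.1])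
      rw [hp3, far, norm_ep]
      exact ⟨by linarith only [hη1, h4], by (clear * - hη3 h5; linarith only [hη3, h5]), by linarith only [norm_nonneg z0, hη1, h4]⟩
  have hx : ∀ p ∈ SS a b (arg (-z0)),
      ‖N γ (ep (-p.1) p.2) / N β (ep (-p.1) p.2) - 1‖ ≤ 1 / 2 ∧
      ‖Complex.log (N γ (ep (-p.1) p.2) / N β (ep (-p.1) p.2)) -
        t * dl β z0 B (ep (-p.1) p.2)‖ ≤ (C + 4 * C ^ 2) * t ^ 2 := by
    intro p hp
    obtain ⟨s1, s2, s3⟩ := hS p hp
    exact log_expandC hC.le (hdl _ s1 s2 s3) (h3 _ s1 s2 s3) (by rw [habs]; exact ht1')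
      (by rw [habs]; (clear * - hC3p ht3 hC; nlinarith only [hC, hC3p, ht3]))
  have hbr := log_diff hβ hγ hL hL' (SS_pre hab.le hb1 hθ)
    (fun p hp => by
      have := (hS p hp).2.1
      rw [mem_ball, dist_zero_right]
      (clear * - hη0 this; linarith only [hη0, this]))
    (fun p hp => (hx p hp).1) (p1 := (1, arg (-z0))) (Or.inr ⟨⟨by (clear * - hb1 hab; linarith only [hb1, hab]), le_rfl⟩, rfl⟩) (by
      rw [norm_ep]
      have := Real.exp_neg_one_lt_half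
      exact this.le)
  -- the expansion of the density
  have hF : ∀ p ∈ Rect a b, |FT T L' p - FT T L p -
      t * (FT T L p * (T * dl β z0 B (ep (-p.1) p.2)).re)| ≤
      Real.exp (‖T‖ * ML a) * C4 * t ^ 2 := by
    intro p hp
    have hp' : p ∈ SS a b (arg (-z0)) := Or.inl hp
    obtain ⟨s1, s2, s3⟩ := hS p hp'
    have h4 := (hx p hp').2
    have h5 := hbr p hp'
    rw [← h5] at h4
    obtain ⟨D, hD⟩ : ∃ D, D = L' (ep (-p.1) p.2) - L (ep (-p.1) p.2) := ⟨_, rfl⟩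
    obtain ⟨d, hd⟩ : ∃ d, d = dl β z0 B (ep (-p.1) p.2) := ⟨_, rfl⟩
    have hdn : ‖d‖ ≤ C := by rw [hd]; exact hdl _ s1 s2 s3
    rw [← hD, ← hd] at h4
    have h6 : |(T * D).re - t * (T * d).re| ≤ C3 * t ^ 2 := by
      have e : (T * D).re - t * (T * d).re = (T * (D - t * d)).re := by
        rw [mul_sub, Complex.sub_re, mul_left_comm, Complex.re_ofReal_mul]
      rw [e]
      calc |(T * (D - t * d)).re| ≤ ‖T * (D - t * d)‖ := Complex.abs_re_le_norm _
        _ = ‖T‖ * ‖D - t * d‖ := norm_mul _ _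
        _ ≤ ‖T‖ * ((C + 4 * C ^ 2) * t ^ 2) := by (clear * - h4; gcongr)
        _ ≤ C3 * t ^ 2 := by
            rw [hC3]
            have : 0 ≤ ‖T‖ * C * t ^ 2 := by (clear * - hC ht; positivity)
            linarith only [this]
    have h7 : |(T * d).re| ≤ C3 := by
      calc |(T * d).re| ≤ ‖T * d‖ := Complex.abs_re_le_norm _
        _ = ‖T‖ * ‖d‖ := norm_mul _ _
        _ ≤ ‖T‖ * C := by (clear * - hdn; gcongr)
        _ ≤ C3 := by
            rw [hC3]
            have : 0 ≤ ‖T‖ * (C + 4 * C ^ 2) := by (clear * - hC; positivity)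
            linarith only [this]
    have h8 := exp_expand (C := C3) hC3p h7 h6 (by rw [habs]; exact ht1')
      (by rw [habs]; (clear * - hC ht3 hC3p; nlinarith only [hC, hC3p, ht3]))
    have h9 : FT T L' p = FT T L p * Real.exp (T * D).re := by
      unfold FT
      rw [← Real.exp_add, ← Complex.add_re, hD]
      congr 2
      ring
    have h10 : FT T L' p - FT T L p - t * (FT T L p * (T * d).re) =
        FT T L p * (Real.exp (T * D).re - 1 - t * (T * d).re) := by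
      rw [h9]; ring
    rw [← hd, h10, abs_mul, abs_of_pos (FT_pos T L p)]
    have h11 := FT_le hβ hL ha T hp
    calc FT T L p * |Real.exp (T * D).re - 1 - t * (T * d).re| ≤
          Real.exp (‖T‖ * ML a) * (C4 * t ^ 2) := by
            rw [hC4]
            (clear * - h11 h8; gcongr)
      _ = _ := by ring
  have h4 := dJT_eq hg hL W T B
  have cdl : ContinuousOn (fun p : ℝ × ℝ => (T * dl β z0 B (ep (-p.1) p.2)).re) (Rect a b) := by
    refine Complex.continuous_re.comp_continuousOn (continuousOn_const.mul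
      (contRect (g := dl β z0 B) ?_))
    unfold dl
    have c1 : ContinuousOn (fun z => eps β z0 B / (phi β z - phi β z0) ^ 2) (An a b) :=
      continuousOn_const.div ((hg.cphi.sub continuousOn_const).pow 2)
        fun z hz => pow_ne_zero 2 (hg.phi_ne hz)
    have c2 := hg.cq
    unfold qN at c2
    exact (((c1.neg.add ((hg.ch B).mul c2)).sub (hg.ch B)).add
      (continuousOn_id.mul (hg.chd B))).sub continuousOn_const
  have cγ := cFT (b := b) hL' ha T
  have cβ := cFT (b := b) hL ha T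
  have h5 : JT T om u a b L' - JT T om u a b L - t * (B * ET T om om' u u' a b β L z0).re =
      ∫ p in Rect a b, om p.1 * u p.2 * (FT T L' p - FT T L p -
        t * (FT T L p * (T * dl β z0 B (ep (-p.1) p.2)).re)) := by
    have i1 : IntegrableOn (fun p : ℝ × ℝ => om p.1 * u p.2 * FT T L' p) (Rect a b) :=
      integrableOn_rect ((cW W).mul cγ)
    have i2 : IntegrableOn (fun p : ℝ × ℝ => om p.1 * u p.2 * FT T L p) (Rect a b) :=
      integrableOn_rect ((cW W).mul cβ)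
    have i3 : IntegrableOn (fun p : ℝ × ℝ => om p.1 * u p.2 *
        (FT T L p * (T * dl β z0 B (ep (-p.1) p.2)).re)) (Rect a b) :=
      integrableOn_rect ((cW W).mul (cβ.mul cdl))
    rw [← h4]
    unfold JT
    rw [← integral_const_mul, ← integral_sub i1 i2, ← integral_sub]
    · refine setIntegral_congr_fun (measurableSet_rect a b) fun p _ => ?_
      ring
    · exact i1.sub i2
    · exact i3.const_mul _
  rw [h5, ← Real.norm_eq_abs]
  have h6 : ‖∫ p in Rect a b, om p.1 * u p.2 * (FT T L' p - FT T L p -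
        t * (FT T L p * (T * dl β z0 B (ep (-p.1) p.2)).re))‖ ≤
      ∫ p in Rect a b, (Real.exp (‖T‖ * ML a) * C4 * t ^ 2) * (om p.1 * u p.2) := by
    refine norm_integral_le_of_norm_le
      (integrableOn_rect (continuousOn_const.mul (cW W))) ?_
    filter_upwards [ae_restrict_mem (measurableSet_rect a b)] with p hp
    have h7 := hF p hp
    have hw : 0 ≤ om p.1 * u p.2 := mul_nonneg (W.om_nn _) (W.u_nn _)
    rw [norm_mul, Real.norm_of_nonneg hw, Real.norm_eq_abs]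
    calc om p.1 * u p.2 * |FT T L' p - FT T L p -
        t * (FT T L p * (T * dl β z0 B (ep (-p.1) p.2)).re)| ≤
          om p.1 * u p.2 * (Real.exp (‖T‖ * ML a) * C4 * t ^ 2) := by (clear * - h7 hw; gcongr)
      _ = _ := by ring
  refine h6.trans ?_
  rw [integral_const_mul]
  have : 0 ≤ t ^ 2 := sq_nonneg t
  unfold MW
  (clear * -; nlinarith only [])

/-- dilation -/
theorem JT_scale (W : Wt2 om om' a b u u') (T : ℂ) {β L : ℂ → ℂ} (h : Ext β) (hL : IsLog β L)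
    {δ : ℝ} (hδ : 0 < δ) : ∃ (γ L' : ℂ → ℂ) (R : ℝ), ExtR γ R ∧ IsLog γ L' ∧
      JT T om u a b L - δ < JT T om u a b L' := by
  have ha := W.a_pos
  have hev : ∀ᶠ r : ℝ in 𝓝[<] 1, 0 < r ∧ r < 1 := by
    filter_upwards [self_mem_nhdsWithin, mem_nhdsWithin_of_mem_nhds (lt_mem_nhds one_pos)] with
      r h1 h2
    exact ⟨h2, h1⟩
  have key : Tendsto (fun r : ℝ => JT T om u a b (fun z => L (r * z))) (𝓝[<] 1)
      (𝓝 (JT T om u a b L)) := by
    unfold JT
    refine tendsto_integral_filter_of_dominated_convergence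
      (fun p => Real.exp (‖T‖ * ML a) * (om p.1 * u p.2)) ?_ ?_ ?_ ?_
    · filter_upwards [hev] with r hr
      exact (integrableOn_rect ((cW W).mul
        (cFT (hL.scale h hr.1 hr.2) ha T))).aestronglyMeasurable
    · filter_upwards [hev] with r hr
      filter_upwards [ae_restrict_mem (measurableSet_rect a b)] with p hp
      have h1 := FT_le (scale_ExtR h hr.1 hr.2).toExt (hL.scale h hr.1 hr.2) ha T hp
      have hw : 0 ≤ om p.1 * u p.2 := mul_nonneg (W.om_nn _) (W.u_nn _)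
      rw [Real.norm_of_nonneg (mul_nonneg hw (FT_pos _ _ _).le), mul_comm]
      (clear * - h1 hw; gcongr)
    · exact integrableOn_rect (continuousOn_const.mul (cW W))
    · filter_upwards [ae_restrict_mem (measurableSet_rect a b)] with p hp
      have hz := An_ball ha (ep_mem_An hp)
      refine Tendsto.const_mul _ ?_
      have h2 : Tendsto (fun r : ℝ => (r : ℂ) * ep (-p.1) p.2) (𝓝[<] 1) (𝓝 (ep (-p.1) p.2)) := by
        have h3 : Continuous fun r : ℝ => (r : ℂ) * ep (-p.1) p.2 := by fun_prop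
        have h4 := h3.tendsto 1
        rw [Complex.ofReal_one, one_mul] at h4
        exact h4.mono_left nhdsWithin_le_nhds
      have h5 : ContinuousAt L (ep (-p.1) p.2) := hL.cont.continuousAt (isOpen_ball.mem_nhds hz)
      have h6 := h5.tendsto.comp h2
      unfold FT
      exact (Real.continuous_exp.tendsto _).comp
        ((Complex.continuous_re.tendsto _).comp (h6.const_mul T))
  have h1 : ∀ᶠ r : ℝ in 𝓝[<] 1, JT T om u a b L - δ <
      JT T om u a b (fun z => L (r * z)) :=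
    key.eventually (lt_mem_nhds (by linarith only [hδ]))
  obtain ⟨r, hr1, hr2⟩ := (h1.and hev).exists
  exact ⟨_, _, _, scale_ExtR h hr2.1 hr2.2, hL.scale h hr2.1 hr2.2, hr1⟩

/-- near-maximisers are nearly critical -/
theorem nearT (hV : Variation) (W : Wt2 om om' a b u u') (hb1 : b ≤ 1) (T : ℂ) {η : ℝ}
    (hη : 0 < η) : ∃ (β L : ℂ → ℂ) (R : ℝ), ExtR β R ∧ IsLog β L ∧
      (∀ γ L' : ℂ → ℂ, Ext γ → IsLog γ L' → (1 - η) * JT T om u a b L' ≤ JT T om u a b L) ∧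
      ∀ z0 : ℂ, Real.exp (-1) ≤ ‖z0‖ → ‖z0‖ ≤ Real.exp (-2 * b) →
        ‖ET T om om' u u' a b β L z0‖ ≤ η := by
  obtain ⟨C, t1, hC, ht1, hE⟩ := JT_expand hV W hb1 T
  obtain ⟨A, hA⟩ : ∃ A : Set ℝ, A = {y | ∃ β L, Ext β ∧ IsLog β L ∧ JT T om u a b L = y} :=
    ⟨_, rfl⟩
  have hAb : BddAbove A := by
    refine ⟨Real.exp (‖T‖ * ML a) * MW om u a b, ?_⟩
    rw [hA]
    rintro y ⟨β, L, hβ, hL, rfl⟩
    exact JT_le W T hβ hL
  obtain ⟨L1, hL1⟩ := exists_isLog Ext_zero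
  have hAn : A.Nonempty := ⟨JT T om u a b L1, by rw [hA]; exact ⟨_, L1, Ext_zero, hL1, rfl⟩⟩
  obtain ⟨S, hS⟩ : ∃ S : ℝ, S = sSup A := ⟨_, rfl⟩
  have hSle : ∀ γ L', Ext γ → IsLog γ L' → JT T om u a b L' ≤ S := by
    intro γ L' hγ hL'
    rw [hS]
    exact le_csSup hAb (by rw [hA]; exact ⟨γ, L', hγ, hL', rfl⟩)
  -- choice of the defect
  obtain ⟨s, hs⟩ : ∃ s : ℝ, s = min t1 (η / (1 + C)) := ⟨_, rfl⟩
  have hs0 : 0 < s := by rw [hs]; exact lt_min ht1 (by (clear * - hη hC; positivity))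
  have hst : s ≤ t1 := by rw [hs]; exact min_le_left _ _
  have hsη : (1 + C) * s ≤ η := by
    have : s ≤ η / (1 + C) := by rw [hs]; exact min_le_right _ _
    rw [le_div_iff₀ (by positivity)] at this
    linarith only [this]
  obtain ⟨δ, hδ⟩ : ∃ δ : ℝ, δ = if 0 < S then min (s ^ 2) (η * S) else s ^ 2 := ⟨_, rfl⟩
  have hδ0 : 0 < δ := by
    rw [hδ]
    split_ifs with h
    · exact lt_min (by positivity) (by positivity)
    · positivity
  have hδs : δ ≤ s ^ 2 := by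
    rw [hδ]
    split_ifs with h
    · exact min_le_left _ _
    · exact le_rfl
  obtain ⟨y, hyA, hy⟩ := exists_lt_of_lt_csSup hAn (show S - δ / 2 < sSup A by
    rw [← hS]; (clear * - hδ0; linarith only [hδ0]))
  rw [hA] at hyA
  obtain ⟨β₀, L₀, hβ₀, hL₀, rfl⟩ := hyA
  obtain ⟨β, L, R, hβR, hL, hβ⟩ := JT_scale W T hβ₀ hL₀ (δ := δ / 2) (by linarith only [hδ0])
  have hβE := hβR.toExt
  have hJβ : S - δ < JT T om u a b L := by linarith only [hy, hβ]
  refine ⟨β, L, R, hβR, hL, ?_, ?_⟩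
  · intro γ L' hγ hL'
    have h1 := hSle γ L' hγ hL'
    have h0 := JT_nonneg W T L'
    have hb0 := JT_nonneg W T L
    by_cases hη1 : η ≤ 1
    · by_cases hSp : 0 < S
      · have h2 : δ ≤ η * S := by
          rw [hδ, if_pos hSp]
          exact min_le_right _ _
        have h3 : (1 - η) * JT T om u a b L' ≤ (1 - η) * S :=
          mul_le_mul_of_nonneg_left h1 (by (clear * - hη1; linarith only [hη1]))
        linarith only [hJβ, h2, h3]
      · have h2 : JT T om u a b L' = 0 := le_antisymm (h1.trans (not_lt.mp hSp)) h0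
        rw [h2, mul_zero]
        exact hb0
    · have h2 : (1 - η) * JT T om u a b L' ≤ 0 :=
        mul_nonpos_of_nonpos_of_nonneg (by linarith only [hη1]) h0
      linarith only [hb0, h2]
  · intro z0 h1 h2
    obtain ⟨E, hEd⟩ : ∃ E, E = ET T om om' u u' a b β L z0 := ⟨_, rfl⟩
    rw [← hEd]
    by_cases hE0 : E = 0
    · rw [hE0, norm_zero]
      exact hη.le
    have hEn : 0 < ‖E‖ := norm_pos_iff.mpr hE0
    have hB1 : ‖conj E / (‖E‖ : ℂ)‖ ≤ 1 := by
      rw [norm_div, RCLike.norm_conj, Complex.norm_real, Real.norm_eq_abs, abs_of_pos hEn,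
        div_self hEn.ne']
    obtain ⟨γ, L', hγ, hL', h3⟩ := hE β L hβE hL z0 h1 h2 (conj E / (‖E‖ : ℂ)) hB1 s hs0 hst
    rw [← hEd] at h3
    have h4 : (conj E / (‖E‖ : ℂ) * E).re = ‖E‖ := by
      have e1 : conj E / (‖E‖ : ℂ) * E = ((‖E‖ : ℝ) : ℂ) := by
        have e2 : conj E * E = ((‖E‖ ^ 2 : ℝ) : ℂ) := by
          rw [← Complex.normSq_eq_conj_mul_self, Complex.normSq_eq_norm_sq]
        have e3 : (‖E‖ : ℂ) ≠ 0 := by exact_mod_cast hEn.ne'
        rw [div_mul_eq_mul_div, e2]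
        field_simp
        push_cast
        ring
      rw [e1, Complex.ofReal_re]
    rw [h4] at h3
    have h5 := hSle γ L' hγ hL'
    have h6 := (abs_le.mp h3).1
    have h7 : s * ‖E‖ ≤ δ + C * s ^ 2 := by (clear * - hJβ h5 h6; linarith only [hJβ, h5, h6])
    have h8 : s * ‖E‖ ≤ s * ((1 + C) * s) := by linarith only [hδs, h7]
    have h9 := le_of_mul_le_mul_left h8 hs0
    exact h9.trans hsη

theorem FC_eq (κ : ℝ) (v : ℂ) (L : ℂ → ℂ) (x θ : ℝ) :
    Pool.Agent.Helper97.CKC.FC κ v L x θ = FT (Pool.Agent.Helper97.CKC.tt κ v) L (x, θ) := by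
  unfold Pool.Agent.Helper97.CKC.FC FT Pool.Agent.Helper97.CKC.tt
  simp only
  congr 1
  rw [show -((κ : ℂ) * conj v) * L (ep (-x) θ) = ((-κ : ℝ) : ℂ) * (conj v * L (ep (-x) θ)) by
    push_cast; ring, Complex.re_ofReal_mul]
  ring

theorem JC_eq (W : Wt2 om om' a b u u') {β L : ℂ → ℂ} (_h : Ext β) (hL : IsLog β L) (κ : ℝ)
    (v : ℂ) : Pool.Agent.Helper97.CKC.JC κ v om u a b L =
      JT (Pool.Agent.Helper97.CKC.tt κ v) om u a b L := by
  unfold JT
  have hc : ContinuousOn (fun p : ℝ × ℝ => om p.1 * u p.2 *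
      FT (Pool.Agent.Helper97.CKC.tt κ v) L p) (Rect a b) :=
    (cW W).mul (cFT hL W.a_pos _)
  rw [rect_eq W.a_lt.le hc]
  unfold Pool.Agent.Helper97.CKC.JC Pool.Agent.Helper52.CK.RR
  simp only [FC_eq]

theorem EC_eq (W : Wt2 om om' a b u u') {β L : ℂ → ℂ} {z0 : ℂ} (h : Geo a b β z0)
    (hL : IsLog β L) (κ : ℝ) (v : ℂ) :
    Pool.Agent.Helper97.CKC.EC κ v om om' u u' a b β L z0 =
      ET (Pool.Agent.Helper97.CKC.tt κ v) om om' u u' a b β L z0 := by
  unfold ET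
  rw [Pool.Agent.Helper27.CK.rect_eqC W.a_lt.le (c_ET h hL W _)]
  unfold Pool.Agent.Helper97.CKC.EC bodyT
  simp only [FC_eq]

/-- **NEAR, complex exponents** -/
theorem near_c (hV : Variation) (κ : ℝ) (v : ℂ) : Pool.Agent.Helper97.CKC.NearC κ v := by
  intro om om' w w' a b W _ _ η hη
  have W2 := wt_of W
  obtain ⟨β, L, R, hβ, hL, h1, h2⟩ := nearT hV W2 (W.b1.trans (by norm_num))
    (Pool.Agent.Helper97.CKC.tt κ v) hη
  refine ⟨β, L, R, hβ, hL, ?_, ?_⟩
  · intro γ L' hγ hL'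
    rw [JC_eq W2 hγ hL', JC_eq W2 hβ.toExt hL]
    exact h1 γ L' hγ hL'
  · intro z0 hz hz'
    have hg : Geo a b β z0 := by
      refine ⟨hβ.toExt, W.a0, norm_pos_iff.mp ((Real.exp_pos _).trans_le hz), ?_, W.ab.le⟩
      refine hz'.trans_lt (Real.exp_lt_exp.mpr ?_)
      (clear * - W; linarith [W.a0, W.ab])
    rw [EC_eq W2 hg hL]
    exact h2 z0 hz hz'

end

end Pool.Agent.Helper99.CKC

end

section

namespace Pool.Agent.Helper52.EK
end Pool.Agent.Helper52.EK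

set_option autoImplicit false

open Complex MeasureTheory Metric Set

open scoped Real ComplexConjugate

namespace Pool.Agent.Helper58.CKC

open Pool.Agent.Helper52.EK

theorem entg_pos {C : ℝ}
    (hE : ∀ (ρ : ℝ → ℝ) (w : ℂ → ℂ) (a : ℝ), Dens ρ →
      ContinuousOn w {z | 0 < ‖z‖ ∧ ‖z‖ < 1} → Real.exp (-1) < a → a < 1 →
      -Real.log (1 - a ^ 2) - C ≤ (2 * π)⁻¹ * (∫ α in (0:ℝ)..(2 * π), ρ α * Real.log (ρ α)) +
        (2 * π)⁻¹ * ∫ α in (0:ℝ)..(2 * π), ρ α * Kf w (Complex.exp (α * I)) (-1) (Real.log a))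
    {G : ℝ → ℝ} {a : ℝ} {w : ℂ → ℂ} {u : ℝ → ℝ} (hG : Continuous G)
    (hGper : Function.Periodic G (2 * π))
    (hw : ContinuousOn w {z | 0 < ‖z‖ ∧ ‖z‖ < 1}) (hae : Real.exp (-1) < a) (ha1 : a < 1)
    (hu : Continuous u) (hu0 : ∀ α, 0 < u α) (hu1 : ∀ α, u α ≤ 1)
    (hper : Function.Periodic u (2 * π)) :
    ((2 * π)⁻¹ * ∫ α in (0:ℝ)..(2 * π), u α * Real.exp (G α)) *
        Real.log ((2 * π)⁻¹ * ∫ α in (0:ℝ)..(2 * π), u α * Real.exp (G α)) ≤
      ((2 * π)⁻¹ * ∫ α in (0:ℝ)..(2 * π), u α * Real.exp (G α)) *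
        (Real.log (1 - a ^ 2) + C) +
      (2 * π)⁻¹ * ∫ α in (0:ℝ)..(2 * π), u α * Real.exp (G α) *
        (Kf w (Complex.exp (α * I)) (-1) (Real.log a) + G α) := by
  have hap : 0 < a := (Real.exp_pos _).trans hae
  have h2π : (0:ℝ) < 2 * π := by positivity
  obtain ⟨g, hg⟩ : ∃ g : ℝ → ℝ, g = fun α => u α * Real.exp (G α) := ⟨_, rfl⟩
  have hge : ∀ α : ℝ, u α * Real.exp (G α) = g α := fun α => by rw [hg]
  simp only [hge]
  have hgc : Continuous g := by
    rw [hg]; exact hu.mul (Real.continuous_exp.comp hG)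
  have hgp : ∀ α, 0 < g α := fun α => by
    rw [hg]; exact mul_pos (hu0 α) (Real.exp_pos _)
  have hI : 0 < ∫ α in (0:ℝ)..(2 * π), g α :=
    intervalIntegral.intervalIntegral_pos_of_pos (hgc.intervalIntegrable _ _) hgp h2π
  obtain ⟨M, hM⟩ : ∃ M : ℝ, M = (2 * π)⁻¹ * (∫ α in (0:ℝ)..(2 * π), g α) := ⟨_, rfl⟩
  rw [← hM]
  have hMp : 0 < M := by rw [hM]; exact mul_pos (inv_pos.mpr h2π) hI
  have hdens : Dens (fun α => M⁻¹ * g α) := by
    refine ⟨continuous_const.mul hgc, fun α => mul_pos (inv_pos.mpr hMp) (hgp α), ?_, ?_⟩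
    · intro α
      simp only [hg]
      rw [hGper α, hper α]
    · rw [intervalIntegral.integral_const_mul, hM]
      field_simp
  have hlog1 : -1 < Real.log a := (Real.lt_log_iff_exp_lt hap).mpr hae
  have hlog2 : Real.log a < 0 := Real.log_neg hap ha1
  have hKc : Continuous (fun α : ℝ => Kf w (Complex.exp (α * I)) (-1) (Real.log a)) :=
    Pool.Agent.Helper26.EK.Kf_cont hw hlog1 hlog2
  have hmain := hE _ w a hdens hw hae ha1
  have hlogg : ∀ α, Real.log (M⁻¹ * g α) ≤ G α - Real.log M := by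
    intro α
    rw [Real.log_mul (inv_pos.mpr hMp).ne' (hgp α).ne', Real.log_inv]
    have : Real.log (g α) = Real.log (u α) + G α := by
      rw [← hge, Real.log_mul (hu0 α).ne' (Real.exp_pos _).ne', Real.log_exp]
    rw [this]
    have := Real.log_nonpos (hu0 α).le (hu1 α)
    (clear * - this; linarith only [this])
  have hi1 : IntervalIntegrable (fun α => M⁻¹ * g α * Real.log (M⁻¹ * g α)) volume 0 (2 * π) :=
    ((continuous_const.mul hgc).mul ((continuous_const.mul hgc).log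
      fun α => (mul_pos (inv_pos.mpr hMp) (hgp α)).ne')).intervalIntegrable _ _
  have hi2 : IntervalIntegrable
      (fun α => M⁻¹ * g α * Kf w (Complex.exp (α * I)) (-1) (Real.log a)) volume 0 (2 * π) :=
    ((continuous_const.mul hgc).mul hKc).intervalIntegrable _ _
  have hi3 : IntervalIntegrable (fun α => g α *
      (Kf w (Complex.exp (α * I)) (-1) (Real.log a) + G α)) volume 0 (2 * π) :=
    (hgc.mul (hKc.add hG)).intervalIntegrable _ _
  have hsum : (∫ α in (0:ℝ)..(2 * π), M⁻¹ * g α * Real.log (M⁻¹ * g α)) +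
      (∫ α in (0:ℝ)..(2 * π), M⁻¹ * g α * Kf w (Complex.exp (α * I)) (-1) (Real.log a)) ≤
      M⁻¹ * (∫ α in (0:ℝ)..(2 * π), g α *
        (Kf w (Complex.exp (α * I)) (-1) (Real.log a) + G α)) -
        M⁻¹ * (∫ α in (0:ℝ)..(2 * π), g α) * Real.log M := by
    have hA : IntervalIntegrable (fun α => M⁻¹ * (g α *
        (Kf w (Complex.exp (α * I)) (-1) (Real.log a) + G α))) volume 0 (2 * π) :=
      hi3.const_mul _
    have hB : IntervalIntegrable (fun α => M⁻¹ * (g α * Real.log M)) volume 0 (2 * π) :=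
      (continuous_const.mul (hgc.mul continuous_const)).intervalIntegrable _ _
    have e6 : M⁻¹ * (∫ α in (0:ℝ)..(2 * π), g α *
        (Kf w (Complex.exp (α * I)) (-1) (Real.log a) + G α)) -
        M⁻¹ * (∫ α in (0:ℝ)..(2 * π), g α) * Real.log M =
        ∫ α in (0:ℝ)..(2 * π), (M⁻¹ * (g α *
        (Kf w (Complex.exp (α * I)) (-1) (Real.log a) + G α)) -
        M⁻¹ * (g α * Real.log M)) := by
      rw [intervalIntegral.integral_sub hA hB, intervalIntegral.integral_const_mul,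
        intervalIntegral.integral_const_mul, intervalIntegral.integral_mul_const]
      ring
    rw [e6, ← intervalIntegral.integral_add hi1 hi2]
    apply intervalIntegral.integral_mono_on h2π.le (hi1.add hi2) (hA.sub hB)
    intro α _
    have h1 := mul_le_mul_of_nonneg_left (hlogg α) (mul_pos (inv_pos.mpr hMp) (hgp α)).le
    show M⁻¹ * g α * Real.log (M⁻¹ * g α) +
      M⁻¹ * g α * Kf w (Complex.exp (α * I)) (-1) (Real.log a) ≤ _
    linarith only [h1]
  have hone : (2 * π)⁻¹ * (M⁻¹ * (∫ α in (0:ℝ)..(2 * π), g α) * Real.log M) = Real.log M := by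
    have e : (2 * π)⁻¹ * (M⁻¹ * (∫ α in (0:ℝ)..(2 * π), g α) * Real.log M) =
        M⁻¹ * ((2 * π)⁻¹ * (∫ α in (0:ℝ)..(2 * π), g α)) * Real.log M := by ring
    rw [e, ← hM, inv_mul_cancel₀ hMp.ne', one_mul]
  have hsum2 := mul_le_mul_of_nonneg_left hsum (inv_pos.mpr h2π).le
  rw [mul_add, mul_sub, hone] at hsum2
  have h3 := hmain.trans hsum2
  have h4 := mul_le_mul_of_nonneg_left h3 hMp.le
  have e5 : M * ((2 * π)⁻¹ * (M⁻¹ * (∫ α in (0:ℝ)..(2 * π), g α *
        (Kf w (Complex.exp (α * I)) (-1) (Real.log a) + G α))) - Real.log M) =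
      (2 * π)⁻¹ * (∫ α in (0:ℝ)..(2 * π), g α *
        (Kf w (Complex.exp (α * I)) (-1) (Real.log a) + G α)) -
        M * Real.log M := by
    obtain ⟨Q, hQ⟩ : ∃ Q : ℝ, Q = ∫ α in (0:ℝ)..(2 * π), g α *
        (Kf w (Complex.exp (α * I)) (-1) (Real.log a) + G α) := ⟨_, rfl⟩
    rw [← hQ]
    (clear * - hMp; field_simp)
  rw [e5] at h4
  linarith only [h4]

/-- the entropy inequality for a localised density `u exp G` on one circle -/
theorem entg : ∃ C : ℝ, ∀ (G : ℝ → ℝ) (a : ℝ) (w : ℂ → ℂ) (u : ℝ → ℝ), Continuous G →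
    Function.Periodic G (2 * π) →
    ContinuousOn w {z | 0 < ‖z‖ ∧ ‖z‖ < 1} → Real.exp (-1) < a → a < 1 →
    Continuous u → (∀ α, 0 ≤ u α) → (∀ α, u α ≤ 1) → Function.Periodic u (2 * π) →
    ((2 * π)⁻¹ * ∫ α in (0:ℝ)..(2 * π), u α * Real.exp (G α)) *
        Real.log ((2 * π)⁻¹ * ∫ α in (0:ℝ)..(2 * π), u α * Real.exp (G α)) ≤
      ((2 * π)⁻¹ * ∫ α in (0:ℝ)..(2 * π), u α * Real.exp (G α)) *
        (Real.log (1 - a ^ 2) + C) +
      (2 * π)⁻¹ * ∫ α in (0:ℝ)..(2 * π), u α * Real.exp (G α) *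
        (Kf w (Complex.exp (α * I)) (-1) (Real.log a) + G α) := by
  obtain ⟨C, hE⟩ := Pool.Agent.Helper5.EK.entropy
  refine ⟨C, ?_⟩
  intro G a w u hG hGper hw hae ha1 hu hu0 hu1 hper
  have hap : 0 < a := (Real.exp_pos _).trans hae
  have hlog1 : -1 < Real.log a := (Real.lt_log_iff_exp_lt hap).mpr hae
  have hlog2 : Real.log a < 0 := Real.log_neg hap ha1
  have hKc : Continuous (fun α : ℝ => Kf w (Complex.exp (α * I)) (-1) (Real.log a)) :=
    Pool.Agent.Helper26.EK.Kf_cont hw hlog1 hlog2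
  obtain ⟨F, hF⟩ : ∃ F : ℝ → ℝ, F = fun α : ℝ => Real.exp (G α) := ⟨_, rfl⟩
  obtain ⟨K, hK⟩ : ∃ K : ℝ → ℝ, K = fun α : ℝ => Kf w (Complex.exp (α * I)) (-1) (Real.log a) +
      G α := ⟨_, rfl⟩
  have hKc' : Continuous K := by rw [hK]; exact hKc.add hG
  have hFc : Continuous F := by rw [hF]; exact Real.continuous_exp.comp hG
  have hFe : ∀ α : ℝ, Real.exp (G α) = F α := fun α => by rw [hF]
  have hKe : ∀ α : ℝ, Kf w (Complex.exp (α * I)) (-1) (Real.log a) + G α = K α :=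
    fun α => by rw [hK]
  simp only [hFe, hKe]
  obtain ⟨m0, hm0⟩ : ∃ m0 : ℝ, m0 = ∫ α in (0:ℝ)..(2 * π), u α * F α := ⟨_, rfl⟩
  obtain ⟨m1, hm1⟩ : ∃ m1 : ℝ, m1 = ∫ α in (0:ℝ)..(2 * π), F α := ⟨_, rfl⟩
  obtain ⟨k0, hk0⟩ : ∃ k0 : ℝ, k0 = ∫ α in (0:ℝ)..(2 * π), u α * F α * K α := ⟨_, rfl⟩
  obtain ⟨k1, hk1⟩ : ∃ k1 : ℝ, k1 = ∫ α in (0:ℝ)..(2 * π), F α * K α := ⟨_, rfl⟩
  rw [← hm0, ← hk0]
  have hcase : ∀ e : ℝ, 0 < e →
      ((2 * π)⁻¹ * ((1 + e)⁻¹ * (m0 + e * m1))) *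
        Real.log ((2 * π)⁻¹ * ((1 + e)⁻¹ * (m0 + e * m1))) ≤
      ((2 * π)⁻¹ * ((1 + e)⁻¹ * (m0 + e * m1))) * (Real.log (1 - a ^ 2) + C) +
      (2 * π)⁻¹ * ((1 + e)⁻¹ * (k0 + e * k1)) := by
    intro e he
    have h1 := entg_pos hE (u := fun α => (1 + e)⁻¹ * (u α + e)) hG hGper hw hae ha1
      (continuous_const.mul (hu.add continuous_const))
      (fun α => mul_pos (by (clear * - he; positivity)) (by have := hu0 α; linarith only [he, this]))
      (fun α => by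
        rw [inv_mul_le_iff₀ (by (clear * - he; positivity))]
        have := hu1 α
        linarith only [this])
      (fun α => by simp only [hper α])
    simp only [hFe, hKe] at h1
    have hj3 : IntervalIntegrable (fun α => u α * F α) volume 0 (2 * π) :=
      (hu.mul hFc).intervalIntegrable _ _
    have hj4 : IntervalIntegrable (fun α => e * F α) volume 0 (2 * π) :=
      (continuous_const.mul hFc).intervalIntegrable _ _
    have e1 : (∫ α in (0:ℝ)..(2 * π), (1 + e)⁻¹ * (u α + e) * F α) =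
        (1 + e)⁻¹ * (m0 + e * m1) := by
      rw [hm0, hm1, ← intervalIntegral.integral_const_mul e,
        ← intervalIntegral.integral_add hj3 hj4,
        ← intervalIntegral.integral_const_mul]
      congr 1
      funext α
      ring
    have hj1 : IntervalIntegrable (fun α => u α * F α * K α) volume 0 (2 * π) :=
      ((hu.mul hFc).mul hKc').intervalIntegrable _ _
    have hj2 : IntervalIntegrable (fun α => e * (F α * K α)) volume 0 (2 * π) :=
      (continuous_const.mul (hFc.mul hKc')).intervalIntegrable _ _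
    have e2 : (∫ α in (0:ℝ)..(2 * π), (1 + e)⁻¹ * (u α + e) * F α * K α) =
        (1 + e)⁻¹ * (k0 + e * k1) := by
      rw [hk0, hk1, ← intervalIntegral.integral_const_mul e,
        ← intervalIntegral.integral_add hj1 hj2,
        ← intervalIntegral.integral_const_mul]
      congr 1
      funext α
      ring
    rw [e1, e2] at h1
    exact h1
  have hcm : ContinuousAt (fun e : ℝ => (2 * π)⁻¹ * ((1 + e)⁻¹ * (m0 + e * m1))) 0 := by
    have : ContinuousAt (fun e : ℝ => (1 + e)⁻¹) 0 :=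
      (continuous_const.add continuous_id).continuousAt.inv₀ (by norm_num)
    exact continuousAt_const.mul (this.mul (by fun_prop))
  have hck : ContinuousAt (fun e : ℝ => (2 * π)⁻¹ * ((1 + e)⁻¹ * (k0 + e * k1))) 0 := by
    have : ContinuousAt (fun e : ℝ => (1 + e)⁻¹) 0 :=
      (continuous_const.add continuous_id).continuousAt.inv₀ (by norm_num)
    exact continuousAt_const.mul (this.mul (by fun_prop))
  have hcl : ContinuousAt (fun e : ℝ => ((2 * π)⁻¹ * ((1 + e)⁻¹ * (m0 + e * m1))) *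
        Real.log ((2 * π)⁻¹ * ((1 + e)⁻¹ * (m0 + e * m1)))) 0 := by
    have := Real.continuous_mul_log.continuousAt.comp
      (f := fun e : ℝ => (2 * π)⁻¹ * ((1 + e)⁻¹ * (m0 + e * m1))) (x := 0) hcm
    exact this
  have hL := hcl.tendsto.mono_left (nhdsWithin_le_nhds (s := Ioi (0:ℝ)))
  have hR := ((hcm.mul (continuousAt_const (y := Real.log (1 - a ^ 2) + C))).add
    hck).tendsto.mono_left (nhdsWithin_le_nhds (s := Ioi (0:ℝ)))
  have hfin := le_of_tendsto_of_tendsto hL hR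
    (by filter_upwards [self_mem_nhdsWithin] with e he using hcase e he)
  simpa using hfin

end Pool.Agent.Helper58.CKC

end

section

namespace Pool.Agent.Helper52.EK
end Pool.Agent.Helper52.EK
namespace Pool.Agent.Helper97.CKC
end Pool.Agent.Helper97.CKC
namespace Pool.Agent.Helper68.EKC
end Pool.Agent.Helper68.EKC

set_option autoImplicit false

open Complex MeasureTheory Metric Set

open scoped Real ComplexConjugate

namespace Pool.Agent.Helper58.CKC

open Pool.Agent.Helper52.EK Pool.Agent.Helper97.CKC Pool.Agent.Helper68.EKC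

theorem ep_eq (x θ : ℝ) : ep (-x) θ = (Real.exp (-x) : ℂ) * Complex.exp (θ * I) := by
  unfold ep
  rw [Complex.exp_add, Complex.ofReal_exp]

theorem ep_per (x θ : ℝ) : ep (-x) (θ + 2 * π) = ep (-x) θ := by
  rw [ep_eq, ep_eq]
  push_cast
  rw [add_mul, Complex.exp_add, Complex.exp_two_pi_mul_I, mul_one]

theorem integral_shift {f : ℝ → ℝ} (hf : Function.Periodic f (2 * π)) :
    ∫ θ in (-π)..π, f θ = ∫ θ in (0:ℝ)..(2 * π), f θ := by
  have h2 := hf.intervalIntegral_add_eq (-π) 0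
  have e1 : -π + 2 * π = π := by ring
  have e2 : (0:ℝ) + 2 * π = 2 * π := by ring
  rw [e1, e2] at h2
  exact h2

/-- ENT for complex exponents -/
theorem ent_c : EntC := by
  obtain ⟨C, hC⟩ := entg
  refine ⟨C, ?_⟩
  intro κ u β L R v w x h hL hv hw hw0 hw1 hwp hx0 hx1 m hm _
  have hae : Real.exp (-1) < Real.exp (-x) := by
    rw [Real.exp_lt_exp]; (clear * - hx1; linarith only [hx1])
  have ha1 : Real.exp (-x) < 1 := by
    rw [Real.exp_lt_one_iff]; (clear * - hx0; linarith)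
  have hmem : ∀ θ : ℝ, ep (-x) θ ∈ ball (0:ℂ) 1 := by
    intro θ
    rw [ep_eq, mem_ball_zero_iff, norm_mul, Complex.norm_exp_ofReal_mul_I, mul_one,
      Complex.norm_real, Real.norm_eq_abs, abs_of_pos (Real.exp_pos _)]
    exact ha1
  have hep : Continuous (fun θ : ℝ => ep (-x) θ) := by
    simp only [ep_eq]
    fun_prop
  have hLc : Continuous (fun θ : ℝ => L (ep (-x) θ)) := hL.cont.comp_continuous hep hmem
  have hGc : Continuous (fun θ : ℝ => -(κ * (conj u * L (ep (-x) θ)).re)) :=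
    (continuous_const.mul (Complex.continuous_re.comp (continuous_const.mul hLc))).neg
  have hGp : Function.Periodic (fun θ : ℝ => -(κ * (conj u * L (ep (-x) θ)).re)) (2 * π) := by
    intro θ
    simp only [ep_per]
  have h1 := hC _ (Real.exp (-x)) v w hGc hGp hv hae ha1 hw hw0 hw1 hwp
  have e2 : Real.exp (-x) ^ 2 = Real.exp (-2 * x) := by
    rw [← Real.exp_nat_mul]; congr 1; push_cast; ring
  rw [Real.log_exp, e2] at h1
  have hexp : ∀ θ : ℝ, Complex.exp (((θ + 2 * π : ℝ) : ℂ) * I) = Complex.exp (θ * I) := by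
    intro θ
    push_cast
    rw [add_mul, Complex.exp_add, Complex.exp_two_pi_mul_I, mul_one]
  have hp1 : Function.Periodic (fun θ : ℝ => w θ * FC κ u L x θ) (2 * π) := by
    intro θ
    simp only [FC, ep_per]
    rw [hwp θ]
  have hp2 : Function.Periodic (fun θ : ℝ => w θ * FC κ u L x θ *
        (Kf v (Complex.exp (θ * I)) (-1) (-x) - κ * (conj u * L (ep (-x) θ)).re)) (2 * π) := by
    intro θ
    simp only [FC, ep_per]
    rw [hexp θ, hwp θ]
  rw [integral_shift hp1] at hm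
  rw [integral_shift hp2, hm]
  simp only [FC, sub_eq_add_neg] at h1 ⊢
  exact h1

end Pool.Agent.Helper58.CKC

end

section

namespace Pool.Agent.Helper39.Area
end Pool.Agent.Helper39.Area
namespace Pool.Agent.Helper52.EK
end Pool.Agent.Helper52.EK
namespace Pool.Agent.Helper9.EK
end Pool.Agent.Helper9.EK
namespace Pool.Agent.Helper61.EK
end Pool.Agent.Helper61.EK
namespace Pool.Agent.Helper68.EKC
end Pool.Agent.Helper68.EKC

set_option autoImplicit false

open Complex MeasureTheory Metric Set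

open scoped Real ComplexConjugate

namespace Pool.Agent.Helper58.CKC

open Pool.Agent.Helper39.Area Pool.Agent.Helper52.EK Pool.Agent.Helper9.EK Pool.Agent.Helper61.EK

open Pool.Agent.Helper68.EKC

/-- all radii and all `Ext β`, by scaling -/
theorem moment_US {κ s : ℝ} (hκ : 0 ≤ κ) (hs0 : 0 ≤ s) {u : ℂ} (hu : ‖u‖ = 1)
    (hM : ∃ C a₀ : ℝ, a₀ < 1 ∧ ∀ (β L : ℂ → ℂ) (R a : ℝ), ExtR β R → IsLog β L → a₀ < a → a < 1 →
      (2 * π)⁻¹ * (∫ α in (0:ℝ)..(2 * π),
        Real.exp (-(κ * (conj u * L (a * Complex.exp (α * I))).re))) ≤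
        C * (1 - a ^ 2) ^ (-s)) :
    ∃ C : ℝ, ∀ (β L : ℂ → ℂ) (r : ℝ), Ext β → IsLog β L → 0 < r → r < 1 →
      (2 * π)⁻¹ * (∫ α in (0:ℝ)..(2 * π),
        Real.exp (-(κ * (conj u * L (r * Complex.exp (α * I))).re))) ≤
        C * (1 - r ^ 2) ^ (-s) := by
  obtain ⟨C₀, a₀, ha₀, hM⟩ := hM
  obtain ⟨C₁, hC₁⟩ : ∃ C₁ : ℝ, C₁ = |C₀| * 2 ^ s := ⟨_, rfl⟩
  have hC₁0 : 0 ≤ C₁ := by rw [hC₁]; (clear * -; positivity)
  obtain ⟨b, hb⟩ : ∃ b : ℝ, b = max a₀ 0 := ⟨_, rfl⟩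
  have hb0 : 0 ≤ b := by rw [hb]; exact le_max_right _ _
  have hb1 : b < 1 := by rw [hb]; exact max_lt ha₀ one_pos
  have hab : a₀ ≤ b := by rw [hb]; exact le_max_left _ _
  have h1b : 0 < 1 - b ^ 2 := by nlinarith only [hb0, hb1]
  obtain ⟨C₂, hC₂⟩ : ∃ C₂ : ℝ, C₂ = Real.exp (κ * (-Real.log (1 - b ^ 2))) := ⟨_, rfl⟩
  have hC₂0 : 0 ≤ C₂ := by rw [hC₂]; positivity
  refine ⟨C₁ + C₂, ?_⟩
  intro β L r hβ hL hr0 hr1
  have hπ : 0 < 2 * π := by positivity
  have h1r : 0 < 1 - r ^ 2 := by (clear * - hr1 hr0; nlinarith only [hr0, hr1])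
  have h1r1 : 1 - r ^ 2 ≤ 1 := by nlinarith only []
  have hpow1 : 1 ≤ (1 - r ^ 2) ^ (-s) :=
    Real.one_le_rpow_of_pos_of_le_one_of_nonpos h1r h1r1 (by linarith only [hs0])
  rcases le_or_gt r b with hrb | hrb
  · -- small radius
    have hle : ∀ α : ℝ, Real.exp (-(κ * (conj u * L (r * Complex.exp (α * I))).re)) ≤ C₂ := by
      intro α
      rw [hC₂]
      apply Real.exp_le_exp.mpr
      have h2 := hL.goluzin hβ (circ_mem hr0 hr1 α)
      rw [norm_mul, Complex.norm_exp_ofReal_mul_I, mul_one, Complex.norm_real,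
        Real.norm_of_nonneg hr0.le] at h2
      have h3 : Real.log (1 - b ^ 2) ≤ Real.log (1 - r ^ 2) :=
        Real.log_le_log h1b (by nlinarith only [hr0, hrb])
      have h4 : -(conj u * L (r * Complex.exp (α * I))).re ≤
          ‖L (r * Complex.exp (α * I))‖ := by
        have h5 := Complex.abs_re_le_norm (conj u * L (r * Complex.exp (α * I)))
        rw [norm_mul, RCLike.norm_conj, hu, one_mul] at h5
        exact (neg_le_abs _).trans h5
      have h6 : -(conj u * L (r * Complex.exp (α * I))).re ≤ -Real.log (1 - b ^ 2) := by linarith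
      (clear * - hκ h6; nlinarith only [hκ, h6])
    have hcont : IntervalIntegrable (fun α : ℝ =>
        Real.exp (-(κ * (conj u * L (r * Complex.exp (α * I))).re))) volume 0 (2 * π) := by
      apply Continuous.intervalIntegrable
      exact Real.continuous_exp.comp (continuous_const.mul
        (Complex.continuous_re.comp (continuous_const.mul (L_circ_cont hL hr0 hr1)))).neg
    have hint : (∫ α in (0:ℝ)..(2 * π),
        Real.exp (-(κ * (conj u * L (r * Complex.exp (α * I))).re))) ≤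
        ∫ _α in (0:ℝ)..(2 * π), C₂ :=
      intervalIntegral.integral_mono_on hπ.le hcont intervalIntegrable_const (fun α _ => hle α)
    rw [intervalIntegral.integral_const, smul_eq_mul, sub_zero] at hint
    have h3 := mul_le_mul_of_nonneg_left hint (inv_pos.mpr hπ).le
    rw [inv_mul_cancel_left₀ hπ.ne'] at h3
    calc _ ≤ C₂ := h3
      _ ≤ C₂ * (1 - r ^ 2) ^ (-s) := le_mul_of_one_le_right hC₂0 hpow1
      _ ≤ (C₁ + C₂) * (1 - r ^ 2) ^ (-s) :=
          mul_le_mul_of_nonneg_right (by linarith only [hC₁0]) (by positivity)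
  · -- scaling
    have hex : ∃ ρ : ℝ, r < ρ ∧ ρ < 1 ∧ b < r / ρ ∧ (1 - r ^ 2) / 2 ≤ 1 - (r / ρ) ^ 2 := by
      have hcts : Filter.Tendsto (fun ρ : ℝ => r / ρ) (nhdsWithin 1 (Iio 1)) (nhds r) := by
        have h2 : ContinuousAt (fun ρ : ℝ => r / ρ) 1 :=
          continuousAt_const.div continuousAt_id one_ne_zero
        have h3 := h2.tendsto
        simp only [div_one] at h3
        exact h3.mono_left nhdsWithin_le_nhds
      have hcts2 : Filter.Tendsto (fun ρ : ℝ => 1 - (r / ρ) ^ 2) (nhdsWithin 1 (Iio 1))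
          (nhds (1 - r ^ 2)) := (hcts.pow 2).const_sub 1
      have e1 : ∀ᶠ ρ in nhdsWithin (1:ℝ) (Iio 1), b < r / ρ := hcts.eventually_const_lt hrb
      have e2 : ∀ᶠ ρ in nhdsWithin (1:ℝ) (Iio 1), (1 - r ^ 2) / 2 < 1 - (r / ρ) ^ 2 :=
        hcts2.eventually_const_lt (by linarith only [h1r])
      have e3 : ∀ᶠ ρ in nhdsWithin (1:ℝ) (Iio 1), r < ρ :=
        (eventually_gt_nhds hr1).filter_mono nhdsWithin_le_nhds
      have e4 : ∀ᶠ ρ in nhdsWithin (1:ℝ) (Iio 1), ρ < 1 := eventually_mem_nhdsWithin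
      obtain ⟨ρ, h4, h5, h6, h7⟩ := (e1.and (e2.and (e3.and e4))).exists
      exact ⟨ρ, h6, h7, h4, h5.le⟩
    obtain ⟨ρ, hrρ, hρ1, hbρ, hhalf⟩ := hex
    have hρ0 : 0 < ρ := hr0.trans hrρ
    have ha1 : r / ρ < 1 := by rw [div_lt_one hρ0]; exact hrρ
    have ha0 : 0 < r / ρ := by positivity
    have h2 := hM _ _ _ (r / ρ) (Pool.Agent.Helper28.EK.scale_ExtR hβ hρ0 hρ1)
      (hL.scale hβ hρ0 hρ1) (lt_of_le_of_lt hab hbρ) ha1
    have hLeq : ∀ α : ℝ, (ρ : ℂ) * (((r / ρ : ℝ) : ℂ) * Complex.exp (α * I)) =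
        r * Complex.exp (α * I) := by
      intro α
      have hρC : (ρ : ℂ) ≠ 0 := by exact_mod_cast hρ0.ne'
      push_cast
      field_simp
    simp only [hLeq] at h2
    have h3 : (1 - (r / ρ) ^ 2) ^ (-s) ≤ 2 ^ s * (1 - r ^ 2) ^ (-s) := by
      have h4 : (1 - (r / ρ) ^ 2) ^ (-s) ≤ ((1 - r ^ 2) / 2) ^ (-s) :=
        Real.rpow_le_rpow_of_nonpos (by (clear * - h1r; linarith only [h1r])) hhalf (by linarith only [hs0])
      refine h4.trans (le_of_eq ?_)
      rw [Real.div_rpow h1r.le (by norm_num), Real.rpow_neg (by norm_num : (0:ℝ) ≤ 2), div_inv_eq_mul,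
        mul_comm]
    have h6 : 0 < 1 - (r / ρ) ^ 2 := by linarith only [h1r, hhalf]
    calc _ ≤ C₀ * (1 - (r / ρ) ^ 2) ^ (-s) := h2
      _ ≤ |C₀| * (1 - (r / ρ) ^ 2) ^ (-s) :=
          mul_le_mul_of_nonneg_right (le_abs_self _) (by (clear * - h6; positivity))
      _ ≤ |C₀| * (2 ^ s * (1 - r ^ 2) ^ (-s)) :=
          mul_le_mul_of_nonneg_left h3 (abs_nonneg _)
      _ = C₁ * (1 - r ^ 2) ^ (-s) := by rw [hC₁]; ring
      _ ≤ (C₁ + C₂) * (1 - r ^ 2) ^ (-s) :=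
          mul_le_mul_of_nonneg_right (by linarith only [hC₂0]) (by (clear * - h1r; positivity))

/-- larger powers -/
theorem larger_US {κ κ' s : ℝ} (hκ : κ ≤ κ') {u : ℂ} (hu : ‖u‖ = 1)
    (hM : ∃ C : ℝ, ∀ (β L : ℂ → ℂ) (r : ℝ), Ext β → IsLog β L → 0 < r → r < 1 →
      (2 * π)⁻¹ * (∫ α in (0:ℝ)..(2 * π),
        Real.exp (-(κ * (conj u * L (r * Complex.exp (α * I))).re))) ≤
        C * (1 - r ^ 2) ^ (-s)) :
    ∃ C : ℝ, ∀ (β L : ℂ → ℂ) (r : ℝ), Ext β → IsLog β L → 0 < r → r < 1 →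
      (2 * π)⁻¹ * (∫ α in (0:ℝ)..(2 * π),
        Real.exp (-(κ' * (conj u * L (r * Complex.exp (α * I))).re))) ≤
        C * (1 - r ^ 2) ^ (-(s + (κ' - κ))) := by
  obtain ⟨C, hC⟩ := hM
  refine ⟨C, ?_⟩
  intro β L r hβ hL hr0 hr1
  have hπ : 0 < 2 * π := by positivity
  have h1r : 0 < 1 - r ^ 2 := by nlinarith only [hr0, hr1]
  have hcont : ∀ q : ℝ, IntervalIntegrable (fun α : ℝ =>
      Real.exp (-(q * (conj u * L (r * Complex.exp (α * I))).re))) volume 0 (2 * π) := by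
    intro q
    apply Continuous.intervalIntegrable
    exact Real.continuous_exp.comp (continuous_const.mul
      (Complex.continuous_re.comp (continuous_const.mul (L_circ_cont hL hr0 hr1)))).neg
  have hle : ∀ α : ℝ, Real.exp (-(κ' * (conj u * L (r * Complex.exp (α * I))).re)) ≤
      (1 - r ^ 2) ^ (-(κ' - κ)) *
        Real.exp (-(κ * (conj u * L (r * Complex.exp (α * I))).re)) := by
    intro α
    have h2 := hL.goluzin hβ (circ_mem hr0 hr1 α)
    rw [norm_mul, Complex.norm_exp_ofReal_mul_I, mul_one, Complex.norm_real,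
      Real.norm_of_nonneg hr0.le] at h2
    have h5 := Complex.abs_re_le_norm (conj u * L (r * Complex.exp (α * I)))
    rw [norm_mul, RCLike.norm_conj, hu, one_mul] at h5
    have h6 := (neg_le_abs _).trans (h5.trans h2)
    rw [Real.rpow_def_of_pos h1r, ← Real.exp_add]
    apply Real.exp_le_exp.mpr
    (clear * - hκ h6; nlinarith only [hκ, h6])
  have hint := intervalIntegral.integral_mono_on hπ.le (hcont κ') ((hcont κ).const_mul _)
    (fun α _ => hle α)
  rw [intervalIntegral.integral_const_mul] at hint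
  have hq0 : (0:ℝ) ≤ (1 - r ^ 2) ^ (-(κ' - κ)) := by (clear * - h1r; positivity)
  have h5 := hC β L r hβ hL hr0 hr1
  calc (2 * π)⁻¹ * (∫ α in (0:ℝ)..(2 * π),
        Real.exp (-(κ' * (conj u * L (r * Complex.exp (α * I))).re)))
      ≤ (2 * π)⁻¹ * ((1 - r ^ 2) ^ (-(κ' - κ)) * ∫ α in (0:ℝ)..(2 * π),
        Real.exp (-(κ * (conj u * L (r * Complex.exp (α * I))).re))) :=
        mul_le_mul_of_nonneg_left hint (by positivity)
    _ = (1 - r ^ 2) ^ (-(κ' - κ)) * ((2 * π)⁻¹ * ∫ α in (0:ℝ)..(2 * π),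
        Real.exp (-(κ * (conj u * L (r * Complex.exp (α * I))).re))) := by ring
    _ ≤ (1 - r ^ 2) ^ (-(κ' - κ)) * (C * (1 - r ^ 2) ^ (-s)) :=
        mul_le_mul_of_nonneg_left h5 hq0
    _ = C * (1 - r ^ 2) ^ (-(s + (κ' - κ))) := by
        have e : -(s + (κ' - κ)) = -(κ' - κ) + -s := by ring
        rw [e, Real.rpow_add h1r]
        ring

/-- the class Sigma -/
theorem final_US {κ s : ℝ} {u : ℂ} (hM : ∃ C : ℝ, ∀ (β L : ℂ → ℂ) (r : ℝ), Ext β → IsLog β L →
      0 < r → r < 1 → (2 * π)⁻¹ * (∫ α in (0:ℝ)..(2 * π),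
        Real.exp (-(κ * (conj u * L (r * Complex.exp (α * I))).re))) ≤
        C * (1 - r ^ 2) ^ (-s)) :
    ∃ C : ℝ, ∀ ψ h : ℂ → ℂ, DifferentiableOn ℂ ψ {z : ℂ | 1 < ‖z‖} →
      InjOn ψ {z : ℂ | 1 < ‖z‖} →
      (∃ b : ℂ, Filter.Tendsto (fun z => ψ z - z) (Bornology.cobounded ℂ) (nhds b)) →
      DifferentiableOn ℂ h {z : ℂ | 1 < ‖z‖} →
      (∀ z : ℂ, 1 < ‖z‖ → Complex.exp (h z) = deriv ψ z) →
      Filter.Tendsto h (Bornology.cobounded ℂ) (nhds 0) →
      ∀ R : ℝ, 1 < R →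
      (2 * π)⁻¹ * (∫ θ in (0:ℝ)..(2 * π),
        Real.exp (-(κ * (conj u * h (R * Complex.exp (θ * I))).re))) ≤
        C * (R ^ 2 / (R ^ 2 - 1)) ^ s := by
  obtain ⟨C, hC⟩ := hM
  refine ⟨C, ?_⟩
  rintro ψ h hψ hinj ⟨b, hb⟩ hh hexp hh0 R hR
  have hR0 : 0 < R := by linarith
  obtain ⟨hE, hex⟩ := ext_data hψ hinj hb hexp
  have hr0 : 0 < R⁻¹ := by (clear * - hR; positivity)
  have hr1 : R⁻¹ < 1 := inv_lt_one_of_one_lt₀ hR
  have hLog : IsLog (toDisc b (fun z => ψ z - z)) (toDisc 0 h) :=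
    ⟨(toDisc_diff hh hh0).continuousOn, by simp [toDisc], hex⟩
  have hmain := hC _ _ R⁻¹ hE hLog hr0 hr1
  obtain ⟨k, hk⟩ : ∃ k : ℝ → ℝ, k = fun (α : ℝ) =>
    Real.exp (-(κ * (conj u * toDisc 0 h (((R⁻¹ : ℝ) : ℂ) * Complex.exp (α * I))).re)) :=
    ⟨_, rfl⟩
  have h1 : ∀ θ : ℝ, Real.exp (-(κ * (conj u * h (R * Complex.exp (θ * I))).re)) = k (-θ) := by
    intro θ
    have hne0 : ((R⁻¹ : ℝ) : ℂ) * Complex.exp (((-θ : ℝ) : ℂ) * I) ≠ 0 := by
      apply mul_ne_zero _ (Complex.exp_ne_zero _)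
      exact_mod_cast inv_ne_zero hR0.ne'
    have h2 : (((R⁻¹ : ℝ) : ℂ) * Complex.exp (((-θ : ℝ) : ℂ) * I))⁻¹ =
        (R : ℂ) * Complex.exp ((θ : ℂ) * I) := by
      rw [mul_inv, ← Complex.exp_neg]
      push_cast
      rw [inv_inv]
      congr 2
      ring
    simp only [hk, toDisc]
    rw [if_neg hne0, h2]
  simp_rw [h1]
  rw [intervalIntegral.integral_comp_neg (fun θ => k θ)]
  have hper : Function.Periodic k (2 * π) := by
    intro θ
    simp only [hk]
    rw [exp_per]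
  have h2 := hper.intervalIntegral_add_eq (-(2 * π)) 0
  have e1 : -(2 * π) + 2 * π = (0:ℝ) := by ring
  have e2 : (0:ℝ) + 2 * π = 2 * π := by ring
  rw [e1, e2] at h2
  rw [neg_zero, h2]
  have hRR : 0 < R ^ 2 - 1 := by (clear * - hR; nlinarith only [hR])
  have hx : (1 - R⁻¹ ^ 2) ^ (-s) = (R ^ 2 / (R ^ 2 - 1)) ^ s := by
    have h3 : 1 - R⁻¹ ^ 2 = (R ^ 2 / (R ^ 2 - 1))⁻¹ := by
      rw [inv_pow]
      (clear * - hR hRR; field_simp)
    rw [h3, Real.inv_rpow (by (clear * - hR hRR; positivity)), Real.rpow_neg (by positivity), inv_inv]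
  rw [hx] at hmain
  rw [hk]
  exact hmain

/-- the bound for the class Σ: exponent `t`, growth exponent `s` -/
def SigC (t : ℂ) (s : ℝ) : Prop :=
  ∃ C : ℝ, ∀ ψ h : ℂ → ℂ, DifferentiableOn ℂ ψ {z : ℂ | 1 < ‖z‖} →
    InjOn ψ {z : ℂ | 1 < ‖z‖} →
    (∃ b : ℂ, Filter.Tendsto (fun z => ψ z - z) (Bornology.cobounded ℂ) (nhds b)) →
    DifferentiableOn ℂ h {z : ℂ | 1 < ‖z‖} →
    (∀ z : ℂ, 1 < ‖z‖ → Complex.exp (h z) = deriv ψ z) →
    Filter.Tendsto h (Bornology.cobounded ℂ) (nhds 0) →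
    ∀ R : ℝ, 1 < R →
    (2 * π)⁻¹ * (∫ θ in (0:ℝ)..(2 * π), ‖Complex.exp (t * h (R * Complex.exp (θ * I)))‖) ≤
      C * (R ^ 2 / (R ^ 2 - 1)) ^ s

/-- FinC -/
theorem fin_c {κ dl : ℝ} {u : ℂ} (hu : ‖u‖ = 1) (hκ : 1 ≤ κ) (hdl : 0 ≤ dl)
    (H : ∀ e : ℝ, 0 < e → ∃ C a₀ : ℝ, a₀ < 1 ∧ ∀ (β L : ℂ → ℂ) (R a : ℝ), ExtR β R → IsLog β L →
      a₀ < a → a < 1 →
      (2 * π)⁻¹ * (∫ α in (0:ℝ)..(2 * π),
        Real.exp (-(κ * (conj u * L (a * Complex.exp (α * I))).re))) ≤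
        C * (1 - a ^ 2) ^ (-(κ - 1 + dl + e)))
    {t : ℂ} (ht : κ ≤ ‖t‖) (htu : t = -((‖t‖ : ℂ) * conj u)) {e : ℝ} (he : 0 < e) :
    SigC t (‖t‖ - 1 + dl + e) := by
  have h1 := moment_US (κ := κ) (s := κ - 1 + dl + e) (by linarith only [hκ]) (by linarith) hu (H e he)
  have h2 := larger_US (κ' := ‖t‖) ht hu h1
  have e1 : κ - 1 + dl + e + (‖t‖ - κ) = ‖t‖ - 1 + dl + e := by ring
  rw [e1] at h2
  obtain ⟨C, hC⟩ := final_US h2
  refine ⟨C, fun ψ h a1 a2 a3 a4 a5 a6 R hR => ?_⟩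
  have h3 := hC ψ h a1 a2 a3 a4 a5 a6 R hR
  have h4 : ∀ θ : ℝ, ‖Complex.exp (t * h (R * Complex.exp (θ * I)))‖ =
      Real.exp (-(‖t‖ * (conj u * h (R * Complex.exp (θ * I))).re)) := by
    intro θ
    rw [Complex.norm_exp]
    congr 1
    have h5 : t * h (R * Complex.exp (θ * I)) =
        -((‖t‖ : ℂ) * (conj u * h (R * Complex.exp (θ * I)))) := by
      rw [← mul_assoc, ← neg_mul, ← htu]
    rw [h5, Complex.neg_re, Complex.re_ofReal_mul]
  simp only [h4]
  exact h3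

end Pool.Agent.Helper58.CKC

end

section

namespace Pool.Agent.Helper39.Area
end Pool.Agent.Helper39.Area
namespace Pool.Agent.Helper52.EK
end Pool.Agent.Helper52.EK
namespace Pool.Agent.Helper52.CK
end Pool.Agent.Helper52.CK
namespace Pool.Agent.Helper97.CKC
end Pool.Agent.Helper97.CKC

set_option autoImplicit false

open Complex MeasureTheory Metric Set

open scoped Real ComplexConjugate

namespace Pool.Agent.Helper52.CKC

open Pool.Agent.Helper39.Area Pool.Agent.Helper52.EK Pool.Agent.Helper52.CK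

open Pool.Agent.Helper97.CKC

/-- from the inequality of one target to the class Σ, all `t` with `|t| ≥ κ` in the direction -/
theorem main_of_ptC {κ dl Mb Lg : ℝ} {u : ℂ} (hu : ‖u‖ = 1) (hκ : 1 ≤ κ) (hdl : 0 ≤ dl)
    (hMb : 0 ≤ Mb) (hMb2 : Mb < 2 * κ) {G : ℂ → ℂ} {Mh : (ℂ → ℂ) → ℂ → ℂ} (hG : GLip G Lg)
    (hMc : ∀ (β : ℂ → ℂ) (R : ℝ), ExtR β R → ContinuousOn (Mh β) {z | 0 < ‖z‖ ∧ ‖z‖ < 1})
    (hM : ∀ β z, ‖Mh β z‖ ≤ Mb) (pt : PTC κ dl u G Mh) {t : ℂ} (ht : κ ≤ ‖t‖)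
    (htu : t = -((‖t‖ : ℂ) * conj u)) {e : ℝ} (he : 0 < e) :
    Pool.Agent.Helper58.CKC.SigC t (‖t‖ - 1 + dl + e) :=
  Pool.Agent.Helper58.CKC.fin_c hu hκ hdl
    (asmC hu hκ hdl hMb hMb2 (fun _ _ h => Pool.Agent.Helper70.EK.wf_cont hG h.toExt) hMc hM
      (Pool.Agent.Helper99.CKC.near_c Pool.Agent.Helper5.CK.variation κ u)
      (Pool.Agent.Helper14.CK.mint_c hu (by (clear * - hκ; linarith)) hdl)
      (fun _ _ ha hab _ _ _ hR _ _ _ hW hM hMb =>
        Pool.Agent.Helper14.CK.MC_cont hW hM hMb hR ha hab.le)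
      Pool.Agent.Helper58.CKC.ent_c pt) ht htu he

end Pool.Agent.Helper52.CKC

end

section

namespace Pool.Agent.Helper58.CKC
end Pool.Agent.Helper58.CKC

set_option autoImplicit false

open Complex MeasureTheory Metric Set

open scoped Real ComplexConjugate

namespace Pool.Agent.Helper33.CKC

open Pool.Agent.Helper58.CKC

theorem ext_conj {z : ℂ} (hz : 1 < ‖z‖) : 1 < ‖conj z‖ := by
  rwa [RCLike.norm_conj]

theorem isOpen_out : IsOpen {z : ℂ | 1 < ‖z‖} := isOpen_lt continuous_const continuous_norm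

theorem diff_conj {f : ℂ → ℂ} (hf : DifferentiableOn ℂ f {z : ℂ | 1 < ‖z‖}) :
    DifferentiableOn ℂ (fun z => conj (f (conj z))) {z : ℂ | 1 < ‖z‖} := by
  intro z hz
  have h1 : DifferentiableAt ℂ f (conj z) :=
    hf.differentiableAt (isOpen_out.mem_nhds (ext_conj hz))
  have h2 := h1.conj_conj
  rw [Complex.conj_conj] at h2
  exact h2.differentiableWithinAt

theorem deriv_conj_out {f : ℂ → ℂ} (hf : DifferentiableOn ℂ f {z : ℂ | 1 < ‖z‖}) {z : ℂ}
    (hz : 1 < ‖z‖) : deriv (fun z => conj (f (conj z))) z = conj (deriv f (conj z)) := by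
  have h1 : DifferentiableAt ℂ f (conj z) :=
    hf.differentiableAt (isOpen_out.mem_nhds (ext_conj hz))
  have h2 := h1.hasDerivAt.conj_conj
  rw [Complex.conj_conj] at h2
  exact h2.deriv

theorem tendsto_conj_cob : Filter.Tendsto (fun z : ℂ => conj z) (Bornology.cobounded ℂ)
    (Bornology.cobounded ℂ) := by
  rw [← tendsto_norm_atTop_iff_cobounded]
  simp only [RCLike.norm_conj]
  exact tendsto_norm_cobounded_atTop

/-- the class is invariant under reflection -/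
theorem SigC.conj {t : ℂ} {s : ℝ} (H : SigC t s) : SigC (conj t) s := by
  obtain ⟨C, hC⟩ := H
  refine ⟨C, fun ψ h a1 a2 a3 a4 a5 a6 R hR => ?_⟩
  obtain ⟨b, hb⟩ := a3
  have b2 : InjOn (fun z => (starRingEnd ℂ) (ψ ((starRingEnd ℂ) z))) {z : ℂ | 1 < ‖z‖} := by
    intro z hz w hw hzw
    have h1 := (starRingEnd ℂ).injective hzw
    have h2 := a2 (ext_conj hz) (ext_conj hw) h1
    exact (starRingEnd ℂ).injective h2
  have b3 : Filter.Tendsto (fun z => (starRingEnd ℂ) (ψ ((starRingEnd ℂ) z)) - z)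
      (Bornology.cobounded ℂ) (nhds ((starRingEnd ℂ) b)) := by
    have h1 := ((Complex.continuous_conj.tendsto b).comp hb).comp tendsto_conj_cob
    refine h1.congr fun z => ?_
    simp only [Function.comp_apply, map_sub, Complex.conj_conj]
  have b6 : Filter.Tendsto (fun z => (starRingEnd ℂ) (h ((starRingEnd ℂ) z)))
      (Bornology.cobounded ℂ) (nhds 0) := by
    have h1 := ((Complex.continuous_conj.tendsto 0).comp a6).comp tendsto_conj_cob
    rw [map_zero] at h1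
    exact h1
  have h1 := hC (fun z => (starRingEnd ℂ) (ψ ((starRingEnd ℂ) z)))
    (fun z => (starRingEnd ℂ) (h ((starRingEnd ℂ) z))) (diff_conj a1) b2 ⟨_, b3⟩ (diff_conj a4)
    (fun z hz => by
      rw [deriv_conj_out a1 hz, Complex.exp_conj, a5 _ (ext_conj hz)]) b6 R hR
  refine le_of_eq_of_le ?_ h1
  congr 1
  have e1 : ∀ θ : ℝ, ‖Complex.exp (t * (starRingEnd ℂ) (h ((starRingEnd ℂ)
      (R * Complex.exp (θ * I)))))‖ =
      ‖Complex.exp ((starRingEnd ℂ) t * h (R * Complex.exp ((-θ : ℝ) * I)))‖ := by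
    intro θ
    rw [Complex.norm_exp, Complex.norm_exp]
    have h2 : (starRingEnd ℂ) (R * Complex.exp (θ * I)) = R * Complex.exp ((-θ : ℝ) * I) := by
      rw [map_mul, Complex.conj_ofReal, ← Complex.exp_conj, map_mul, Complex.conj_ofReal, conj_I]
      push_cast
      ring_nf
    rw [h2]
    have h3 : t * (starRingEnd ℂ) (h (R * Complex.exp ((-θ : ℝ) * I))) =
        (starRingEnd ℂ) ((starRingEnd ℂ) t * h (R * Complex.exp ((-θ : ℝ) * I))) := by
      rw [map_mul, Complex.conj_conj]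
    rw [h3, Complex.conj_re]
  simp only [e1]
  obtain ⟨g, hg⟩ : ∃ g : ℝ → ℝ, g = fun θ =>
      ‖Complex.exp ((starRingEnd ℂ) t * h (R * Complex.exp ((θ : ℝ) * I)))‖ := ⟨_, rfl⟩
  have e2 : ∫ θ in (0:ℝ)..(2 * π), ‖Complex.exp ((starRingEnd ℂ) t *
      h (R * Complex.exp ((-θ : ℝ) * I)))‖ = ∫ θ in (0:ℝ)..(2 * π), g (-θ) := by
    rw [hg]
  rw [e2, intervalIntegral.integral_comp_neg]
  have hper : Function.Periodic g (2 * π) := by
    intro θ
    rw [hg]
    simp only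
    congr 4
    push_cast
    rw [add_mul, Complex.exp_add, Complex.exp_two_pi_mul_I, mul_one]
  have e3 := hper.intervalIntegral_add_eq (-(2 * π)) 0
  rw [zero_add, neg_add_cancel] at e3
  rw [neg_zero, e3, hg]

/-- all directions of a sector -/
theorem sector_of {a b T : ℝ} (hT : 0 ≤ T)
    (H : ∀ ta : ℝ, 0 ≤ ta → ta ≤ T → ∀ t : ℂ, a + b * ta ^ 2 ≤ ‖t‖ →
      t = -((‖t‖ : ℂ) * (starRingEnd ℂ) ((1 + ta * I) / (1 - ta * I))) →
      ∀ e : ℝ, 0 < e → SigC t (‖t‖ - 1 + e)) :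
    ∀ t : ℂ, t ≠ 0 → ‖t‖ + t.re ≤ T ^ 2 * (‖t‖ - t.re) →
      a * (‖t‖ - t.re) + b * (‖t‖ + t.re) ≤ ‖t‖ * (‖t‖ - t.re) →
      ∀ e : ℝ, 0 < e → SigC t (‖t‖ - 1 + e) := by
  have key : ∀ t : ℂ, t ≠ 0 → 0 ≤ t.im → ‖t‖ + t.re ≤ T ^ 2 * (‖t‖ - t.re) →
      a * (‖t‖ - t.re) + b * (‖t‖ + t.re) ≤ ‖t‖ * (‖t‖ - t.re) →
      ∀ e : ℝ, 0 < e → SigC t (‖t‖ - 1 + e) := by
    intro t ht him h1 h2
    have hn : 0 < ‖t‖ := norm_pos_iff.2 ht
    have hre : t.re ≤ ‖t‖ := Complex.re_le_norm t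
    have hd : 0 < ‖t‖ - t.re := by
      rcases hre.lt_or_eq with h | h
      · linarith only [h]
      · rw [← h] at h1
        have : T ^ 2 * (t.re - t.re) = 0 := by ring
        rw [this] at h1
        rw [← h] at hn
        linarith only [h1, hn]
    have hsq : ‖t‖ ^ 2 = t.re ^ 2 + t.im ^ 2 := by
      rw [← Complex.normSq_eq_norm_sq, Complex.normSq_apply]
      ring
    obtain ⟨n, hn'⟩ : ∃ n, n = ‖t‖ := ⟨_, rfl⟩
    obtain ⟨d, hd'⟩ : ∃ d, d = n - t.re := ⟨_, rfl⟩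
    rw [← hn'] at hn hd hsq h1 h2
    rw [← hd'] at hd h1 h2
    have hta0 : 0 ≤ t.im / d := div_nonneg him hd.le
    have hta2 : (t.im / d) ^ 2 = (n + t.re) / d := by
      rw [div_pow, div_eq_div_iff (by (clear * - hd; positivity)) hd.ne']
      rw [hd'] at hd ⊢
      have : t.im ^ 2 = (n + t.re) * (n - t.re) := by linarith only [hsq]
      rw [this]
      ring
    have htaT : t.im / d ≤ T := by
      refine abs_le_of_sq_le_sq' ?_ hT |>.2
      rw [hta2, div_le_iff₀ hd]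
      exact h1
    refine H (t.im / d) hta0 htaT t ?_ ?_
    · rw [hta2, ← hn']
      have e1 : a + b * ((n + t.re) / d) = (a * d + b * (n + t.re)) / d := by
        field_simp
      rw [e1, div_le_iff₀ hd]
      exact h2
    · rw [← hn']
      have hne : (1 : ℂ) + ((t.im / d : ℝ) : ℂ) * I ≠ 0 := by
        intro h
        have := congrArg Complex.re h
        simp at this
      have e1 : (starRingEnd ℂ) ((1 + ((t.im / d : ℝ) : ℂ) * I) /
          (1 - ((t.im / d : ℝ) : ℂ) * I)) =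
          (1 - ((t.im / d : ℝ) : ℂ) * I) / (1 + ((t.im / d : ℝ) : ℂ) * I) := by
        rw [map_div₀, map_add, map_sub, map_one, map_mul, Complex.conj_ofReal, conj_I]
        congr 1 <;> ring
      rw [e1, ← neg_mul, ← mul_div_assoc, eq_div_iff hne]
      have s1 : t.im = d * (t.im / d) := by
        (clear * - hd; field_simp)
      have s2 : t.im * (t.im / d) = n + t.re := by
        have : t.im * (t.im / d) = d * (t.im / d) ^ 2 := by
          rw [div_pow]
          (clear * - hd; field_simp)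
        rw [this, hta2]
        (clear * - hd; field_simp)
      obtain ⟨τ, hτ⟩ : ∃ τ, τ = t.im / d := ⟨_, rfl⟩
      rw [← hτ] at s1 s2 ⊢
      apply Complex.ext
      · simp only [mul_re, mul_im, add_re, add_im, sub_re, sub_im, neg_re, neg_im, one_re, one_im,
          ofReal_re, ofReal_im, I_re, I_im]
        linarith only [s2]
      · simp only [mul_re, mul_im, add_re, add_im, sub_re, sub_im, neg_re, neg_im, one_re, one_im,
          ofReal_re, ofReal_im, I_re, I_im]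
        rw [hd'] at s1
        linarith only [s1]
  intro t ht h1 h2 e he
  rcases le_total 0 t.im with him | him
  · exact key t ht him h1 h2 e he
  · have hc : (starRingEnd ℂ) t ≠ 0 := by
      rw [Ne, map_eq_zero]
      exact ht
    have hn : ‖(starRingEnd ℂ) t‖ = ‖t‖ := RCLike.norm_conj t
    have h3 := key ((starRingEnd ℂ) t) hc (by rw [Complex.conj_im]; linarith only [him])
      (by rw [hn, Complex.conj_re]; exact h1) (by rw [hn, Complex.conj_re]; exact h2) e he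
    rw [hn] at h3
    have h4 := SigC.conj h3
    rwa [Complex.conj_conj] at h4

/-- the lower bound of the spectrum is attained in the class -/
def Low (t : ℂ) : Prop :=
  ∃ ψ h : ℂ → ℂ, DifferentiableOn ℂ ψ {z : ℂ | 1 < ‖z‖} ∧
    InjOn ψ {z : ℂ | 1 < ‖z‖} ∧
    (∃ b : ℂ, Filter.Tendsto (fun z => ψ z - z) (Bornology.cobounded ℂ) (nhds b)) ∧
    DifferentiableOn ℂ h {z : ℂ | 1 < ‖z‖} ∧
    (∀ z : ℂ, 1 < ‖z‖ → Complex.exp (h z) = deriv ψ z) ∧
    Filter.Tendsto h (Bornology.cobounded ℂ) (nhds 0) ∧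
    ∃ c : ℝ, 0 < c ∧ ∀ R : ℝ, 1 < R →
      c * (R ^ 2 / (R ^ 2 - 1)) ^ (‖t‖ - 1) ≤
        (2 * π)⁻¹ *
          (∫ θ in (0:ℝ)..(2 * π), ‖Complex.exp (t * h (R * Complex.exp (θ * I)))‖)

/-- the lower bound, for every `t` with `|t| > 1` which is not positive -/
theorem low {t : ℂ} (h1 : 1 < ‖t‖) (hne : t.re < ‖t‖) : Low t := by
  have hn0 : 0 < ‖t‖ := by linarith only [h1]
  obtain ⟨u, hu⟩ : ∃ u : ℂ, u = -((starRingEnd ℂ) t / ‖t‖) := ⟨_, rfl⟩
  have hu1 : ‖u‖ = 1 := by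
    rw [hu, norm_neg, norm_div, RCLike.norm_conj, Complex.norm_real, norm_norm, div_self hn0.ne']
  have hre : u.re = -(t.re / ‖t‖) := by
    rw [hu, Complex.neg_re, Complex.div_ofReal_re, Complex.conj_re]
  have hne1 : u ≠ -1 := by
    intro h
    have h1 : u.re = -1 := by rw [h]; simp
    rw [hre] at h1
    have h2 : t.re / ‖t‖ = 1 := by linarith only [h1]
    rw [div_eq_one_iff_eq hn0.ne'] at h2
    linarith only [hne, h2]
  obtain ⟨ψ, h, a1, a2, a3, a4, a5, a6, a7⟩ := Pool.Agent.Helper97.EKC.sharp_u hu1 hne1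
  obtain ⟨c, hc, hR⟩ := a7 ‖t‖ h1
  refine ⟨ψ, h, a1, a2, a3, a4, a5, a6, c, hc, fun R h1 => ?_⟩
  have h2 := hR R h1
  have hnC : (‖t‖ : ℂ) ≠ 0 := by exact_mod_cast hn0.ne'
  have h7 : -((‖t‖ : ℝ) : ℂ) * (starRingEnd ℂ) u = t := by
    rw [hu, map_neg, map_div₀, Complex.conj_conj, Complex.conj_ofReal]
    field_simp
  simp only [Complex.norm_exp]
  simp only [h7] at h2
  exact h2

/-- the hypothesis for a sector: `ta = tan (φ / 2)`, `u = e^(iφ) = (1 + i ta) / (1 - i ta)` -/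
def SecH (a b T : ℝ) : Prop :=
  ∀ ta : ℝ, 0 ≤ ta → ta ≤ T → ∀ t : ℂ, a + b * ta ^ 2 ≤ ‖t‖ →
    t = -((‖t‖ : ℂ) * (starRingEnd ℂ) ((1 + ta * I) / (1 - ta * I))) →
    ∀ e : ℝ, 0 < e → SigC t (‖t‖ - 1 + e)

/-- the region of a sector: `T = 1` is `Re t ≤ 0` -/
def Sec (a b T : ℝ) (t : ℂ) : Prop :=
  ‖t‖ + t.re ≤ T ^ 2 * (‖t‖ - t.re) ∧
    a * (‖t‖ - t.re) + b * (‖t‖ + t.re) ≤ ‖t‖ * (‖t‖ - t.re)

theorem sec_all {a b T : ℝ} (ha : 1 < a) (hb : 0 ≤ b) (hT : 0 ≤ T) (H : SecH a b T) {t : ℂ}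
    (ht : t ≠ 0) (h : Sec a b T t) : (∀ e : ℝ, 0 < e → SigC t (‖t‖ - 1 + e)) ∧ Low t := by
  obtain ⟨h1, h2⟩ := h
  refine ⟨sector_of hT H t ht h1 h2, ?_⟩
  have hn : 0 < ‖t‖ := norm_pos_iff.2 ht
  have hre : t.re ≤ ‖t‖ := Complex.re_le_norm t
  have hre2 : -‖t‖ ≤ t.re := (abs_le.1 (Complex.abs_re_le_norm t)).1
  have hlt : t.re < ‖t‖ := by
    rcases hre.lt_or_eq with h | h
    · exact h
    · exfalso
      have h3 : ‖t‖ - t.re = 0 := by (clear * - h; linarith only [h])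
      rw [h3, mul_zero] at h1
      (clear * - h1 hn h; linarith)
  refine low ?_ hlt
  have hd : 0 < ‖t‖ - t.re := by (clear * - hlt; linarith only [hlt])
  have hb' : 0 ≤ b * (‖t‖ + t.re) := mul_nonneg hb (by linarith only [hre2])
  have h3 : a * (‖t‖ - t.re) ≤ ‖t‖ * (‖t‖ - t.re) := by linarith
  have h4 := le_of_mul_le_mul_right h3 hd
  (clear * - ha h4; linarith)

end Pool.Agent.Helper33.CKC

end
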