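import Pool.Agent.Helper14.CMF.T18
import Pool.Agent.Helper14.CMF.T19
import Pool.Agent.Helper14.CMF.T20
import Pool.Agent.Helper14.CMF.T24

set_option linter.all false

section

namespace Pool.Agent.Helper39.Area
end Pool.Agent.Helper39.Area
namespace Pool.Agent.Helper52.EK
end Pool.Agent.Helper52.EK
namespace Pool.Agent.Helper69.EK3
end Pool.Agent.Helper69.EK3
namespace Pool.Agent.Helper69.EK7
end Pool.Agent.Helper69.EK7

set_option autoImplicit false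

open Complex MeasureTheory Metric Set

open scoped Real ComplexConjugate

namespace Pool.Agent.Helper84.CK

open Pool.Agent.Helper39.Area Pool.Agent.Helper52.EK Pool.Agent.Helper69.EK3

open Pool.Agent.Helper69.EK7

/-- the integrated inequality with a weight -/
def StripIneqW (lam k₂ dc : ℝ) (T Mt : (ℂ → ℂ) → ℝ → ℝ → ℝ) (adm : (ℂ → ℂ) → ℝ → ℝ → Prop) :
    Prop :=
  ∃ C : ℝ, 0 ≤ C ∧ ∀ (X : ℂ → ℂ) (x₁ x₂ V : ℝ) (Ω Ω₁ Ω₂ : ℝ → ℝ → ℝ), x₁ ≤ x₂ → 0 ≤ V →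
    WtF x₁ x₂ V Ω Ω₁ Ω₂ → NiceX X x₁ x₂ → adm X x₁ x₂ →
    II x₁ x₂ (fun ξ η => Ω ξ η * T X ξ η) ≤
    lam * II x₁ x₂ (fun ξ η => ‖X (pt ξ η) - 1‖ ^ 2) +
      (k₂ - lam) * (π * ∫ ξ in x₁..x₂, (1 - (X (pt ξ (π / 2))).re)) +
      dc * (π * (x₂ - x₁)) +
      II x₁ x₂ (fun ξ η => Ω ξ η * Mt X ξ η) +
      C * (1 + V * (x₂ - x₁ + II x₁ x₂ (fun ξ η => ‖X (pt ξ η) - 1‖ ^ 2)))

/-- a cut-off function of one variable -/
structure Cut1 (x₁ x₂ V : ℝ) (χ χ₁ : ℝ → ℝ) : Prop where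
  c0 : ContinuousOn χ (Icc x₁ x₂)
  c1 : ContinuousOn χ₁ (Icc x₁ x₂)
  d : ∀ ξ ∈ Icc x₁ x₂, HasDerivAt χ (χ₁ ξ) ξ
  e1 : χ x₁ = 0
  e2 : χ x₂ = 0
  b01 : ∀ ξ ∈ Icc x₁ x₂, 0 ≤ χ ξ ∧ χ ξ ≤ 1
  k1 : ∀ ξ ∈ Icc x₁ x₂, |χ₁ ξ| ≤ V

theorem pi2_mem' : π / 2 ∈ Icc (0:ℝ) π := ⟨by positivity, by (clear * -; linarith only [Real.pi_pos])⟩

theorem WtF.line {x₁ x₂ V : ℝ} {Ω Ω₁ Ω₂ : ℝ → ℝ → ℝ} (h : WtF x₁ x₂ V Ω Ω₁ Ω₂) :
    Cut1 x₁ x₂ V (fun ξ => Ω ξ (π / 2)) (fun ξ => Ω₁ ξ (π / 2)) := by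
  refine ⟨CH_line h.half.c0 pi2_mem, CH_line h.half.c1 pi2_mem,
    fun ξ hξ => h.d1 ξ hξ _ pi2_mem', h.e1 _ pi2_mem', h.e2 _ pi2_mem',
    fun ξ hξ => h.b01 ξ hξ _ pi2_mem', fun ξ hξ => ?_⟩
  have := h.g1 ξ hξ _ pi2_mem'
  rwa [Real.sin_pi_div_two, mul_one] at this

variable {P : (ℂ → ℂ) → ℝ → ℝ → Prop}

/-- the integrated inequality from the pointwise one and the centre line -/
theorem stripW_b {k₂ lam dc D : ℝ} (hlam : 0 ≤ lam) (hk₂ : lam ≤ k₂) (hdc : 0 ≤ dc)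
    {T Mt : (ℂ → ℂ) → ℝ → ℝ → ℝ}
    (hTc : ∀ (X : ℂ → ℂ) (x₁ x₂ : ℝ), NiceX X x₁ x₂ → CH x₁ x₂ π (T X))
    (hTh : ∀ (X : ℂ → ℂ) (x₁ x₂ : ℝ), NiceH X x₁ x₂ → CH x₁ x₂ (π / 2) (T X))
    (hTm : ∀ (X : ℂ → ℂ) (x₁ x₂ : ℝ), NiceX X x₁ x₂ → ∀ ξ ∈ Icc x₁ x₂,
      ∀ η ∈ Icc (0:ℝ) (π / 2), T X ξ (π - η) = T (mir X) ξ η)
    (hMc : ∀ (X : ℂ → ℂ) (x₁ x₂ : ℝ), NiceX X x₁ x₂ → CH x₁ x₂ π (Mt X))
    (hMh : ∀ (X : ℂ → ℂ) (x₁ x₂ : ℝ), NiceH X x₁ x₂ → CH x₁ x₂ (π / 2) (Mt X))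
    (hMm : ∀ (X : ℂ → ℂ) (x₁ x₂ : ℝ), NiceX X x₁ x₂ → ∀ ξ ∈ Icc x₁ x₂,
      ∀ η ∈ Icc (0:ℝ) (π / 2), Mt X ξ (π - η) = Mt (mir X) ξ η)
    {N : (ℂ → ℂ) → ℝ → ℝ → ℝ} {K : (ℂ → ℂ) → ℝ → ℝ} (hN : IsNullW P N K)
    (hp : ∀ (X : ℂ → ℂ) (x₁ x₂ : ℝ), x₁ ≤ x₂ → NiceH X x₁ x₂ → P X x₁ x₂ →
      ∃ ε : ℝ → ℝ, Continuous ε ∧ (∀ ξ, 0 ≤ ε ξ) ∧ ∫ ξ in x₁..x₂, ε ξ ≤ D ∧
        ∀ ξ ∈ Icc x₁ x₂, ∀ η ∈ Icc (0:ℝ) (π / 2),
          T X ξ η ≤ k₂ * (1 - (X (pt ξ η)).re) +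
            lam * (‖X (pt ξ η)‖ ^ 2 - (X (pt ξ η)).re) + dc + N X ξ η + Mt X ξ η + ε ξ)
    {Q : (ℂ → ℂ) → ℝ → ℝ → Prop}
    (hCen : ∃ C' : ℝ, ∀ (x₁ x₂ V : ℝ) (χ χ₁ : ℝ → ℝ) (X : ℂ → ℂ),
      Cut1 x₁ x₂ V χ χ₁ → x₁ ≤ x₂ → 0 ≤ V → NiceX X x₁ x₂ → Q X x₁ x₂ →
      ∫ ξ in x₁..x₂, χ ξ * (K X ξ + K (mir X) ξ) ≤ C' * (1 + V * (x₂ - x₁)))
    {D' : ℝ} (hQ : ∀ (X : ℂ → ℂ) (x₁ x₂ : ℝ), Q X x₁ x₂ → ∃ δ : ℝ → ℝ, Continuous δ ∧
      (∀ ξ ∈ Icc x₁ x₂, 0 ≤ δ ξ) ∧ (∀ ξ ∈ Icc x₁ x₂, (X (pt ξ (π / 2))).re ≤ 1 + δ ξ) ∧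
      ∫ ξ in x₁..x₂, δ ξ ≤ D') :
    StripIneqW lam k₂ dc T Mt (fun X x₁ x₂ => P X x₁ x₂ ∧ P (mir X) x₁ x₂ ∧ Q X x₁ x₂) := by
  obtain ⟨C, hC0, hC⟩ := stripW hlam hk₂ hdc hTc hTh hTm hMc hMh hMm hN hp
  obtain ⟨C', hC'⟩ := hCen
  have hkl : 0 ≤ k₂ - lam := by linarith
  refine ⟨C * π + |C'| + (k₂ - lam) * (π * |D'|), by (clear * - hC0 hk₂; positivity), ?_⟩
  rintro X x₁ x₂ V Ω Ω₁ Ω₂ hx12 hV hw hX ⟨hP, hP', hQX⟩
  obtain ⟨δ, cδ, δ0, hδ, hD'⟩ := hQ X x₁ x₂ hQX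
  have hmain := hC X x₁ x₂ V Ω Ω₁ Ω₂ hx12 hV hw hX hP hP'
  have hl := hw.line
  have h1 := hC' x₁ x₂ V _ _ X hl hx12 hV hX hQX
  have hE0 : 0 ≤ II x₁ x₂ (fun ξ η => ‖X (pt ξ η) - 1‖ ^ 2) := by
    rw [← En_add hx12 hX]
    exact add_nonneg (En_nonneg hx12) (En_nonneg hx12)
  -- the linear term
  have cXc : ContinuousOn (fun ξ : ℝ => (X (pt ξ (π / 2))).re) (Icc x₁ x₂) :=
    Complex.continuous_re.comp_continuousOn (contC (NiceX.half hX).an.continuousOn)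
  have h2 : ∫ ξ in x₁..x₂, Ω ξ (π / 2) * (1 - (X (pt ξ (π / 2))).re) ≤
      (∫ ξ in x₁..x₂, (1 - (X (pt ξ (π / 2))).re)) + |D'| := by
    have j1 : ContinuousOn (fun ξ : ℝ => Ω ξ (π / 2) * (1 - (X (pt ξ (π / 2))).re))
        (Icc x₁ x₂) := hl.c0.mul (continuousOn_const.sub cXc)
    have j2 : ContinuousOn (fun ξ : ℝ => (1 - (X (pt ξ (π / 2))).re)) (Icc x₁ x₂) :=
      continuousOn_const.sub cXc
    have j3 : ContinuousOn δ (Icc x₁ x₂) := cδ.continuousOn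
    have i1 : IntervalIntegrable (fun ξ : ℝ => Ω ξ (π / 2) * (1 - (X (pt ξ (π / 2))).re))
        volume x₁ x₂ := j1.intervalIntegrable_of_Icc hx12
    have i2 : IntervalIntegrable (fun ξ : ℝ => (1 - (X (pt ξ (π / 2))).re)) volume x₁ x₂ :=
      j2.intervalIntegrable_of_Icc hx12
    have i3 : IntervalIntegrable δ volume x₁ x₂ := j3.intervalIntegrable_of_Icc hx12
    have m : ∫ ξ in x₁..x₂, Ω ξ (π / 2) * (1 - (X (pt ξ (π / 2))).re) ≤
        ∫ ξ in x₁..x₂, ((1 - (X (pt ξ (π / 2))).re) + δ ξ) := by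
      refine intervalIntegral.integral_mono_on hx12 i1 (i2.add i3) ?_
      intro ξ hξ
      obtain ⟨w0, w1⟩ := hl.b01 ξ hξ
      have r1 := hδ ξ hξ
      have r2 := δ0 ξ hξ
      obtain ⟨p, hp⟩ : ∃ p, p = (X (pt ξ (π / 2))).re := ⟨_, rfl⟩
      obtain ⟨o, ho⟩ : ∃ o, o = Ω ξ (π / 2) := ⟨_, rfl⟩
      obtain ⟨q, hq⟩ : ∃ q, q = δ ξ := ⟨_, rfl⟩
      have w0' : 0 ≤ o := by rw [ho]; exact w0
      have w1' : o ≤ 1 := by rw [ho]; exact w1
      rw [← hp, ← hq] at r1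
      rw [← hq] at r2
      rw [← hp, ← ho, ← hq]
      (clear * - r2 w0' r1 w1'; nlinarith only [r2, r1, w0', w1'])
    rw [intervalIntegral.integral_add i2 i3] at m
    have := hD'.trans (le_abs_self D')
    linarith only [m, this]
  obtain ⟨E, hE⟩ : ∃ E, E = II x₁ x₂ (fun ξ η => ‖X (pt ξ η) - 1‖ ^ 2) := ⟨_, rfl⟩
  rw [← hE] at hmain hE0 ⊢
  have h3 : (k₂ - lam) * (π * ∫ ξ in x₁..x₂, Ω ξ (π / 2) * (1 - (X (pt ξ (π / 2))).re)) ≤
      (k₂ - lam) * (π * ((∫ ξ in x₁..x₂, (1 - (X (pt ξ (π / 2))).re)) + |D'|)) :=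
    mul_le_mul_of_nonneg_left (mul_le_mul_of_nonneg_left h2 Real.pi_pos.le) hkl
  have h4 : (k₂ - lam) * (π * ((∫ ξ in x₁..x₂, (1 - (X (pt ξ (π / 2))).re)) + |D'|)) =
      (k₂ - lam) * (π * ∫ ξ in x₁..x₂, (1 - (X (pt ξ (π / 2))).re)) +
        (k₂ - lam) * (π * |D'|) := by ring
  have hd : 0 ≤ x₂ - x₁ := by linarith only [hx12]
  have hVd : 0 ≤ V * (x₂ - x₁) := mul_nonneg hV hd
  have hVE : 0 ≤ V * E := mul_nonneg hV hE0
  have h5 : C' * (1 + V * (x₂ - x₁)) ≤ |C'| * (1 + V * (x₂ - x₁)) :=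
    mul_le_mul_of_nonneg_right (le_abs_self C') (by linarith only [hVd])
  have hpi := Real.pi_pos
  have hpi1 : 1 ≤ π := by linarith only [Real.pi_gt_three]
  have h6 : C * (1 + V * (π * (x₂ - x₁) + E)) ≤ C * π * (1 + V * (x₂ - x₁ + E)) := by
    rw [mul_assoc]
    refine mul_le_mul_of_nonneg_left ?_ hC0
    (clear * - hpi1 hVE; nlinarith only [hVE, hpi1])
  have h7 : (C * π + |C'| + (k₂ - lam) * (π * |D'|)) * (1 + V * (x₂ - x₁ + E)) =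
      C * π * (1 + V * (x₂ - x₁ + E)) + |C'| * (1 + V * (x₂ - x₁)) + |C'| * (V * E) +
        (k₂ - lam) * (π * |D'|) + (k₂ - lam) * (π * |D'|) * (V * (x₂ - x₁) + V * E) := by ring
  have n1 : 0 ≤ |C'| * (V * E) := mul_nonneg (abs_nonneg _) hVE
  have n2 : 0 ≤ (k₂ - lam) * (π * |D'|) * (V * (x₂ - x₁) + V * E) :=
    mul_nonneg (mul_nonneg hkl (by (clear * -; positivity))) (by linarith only [hVd, hVE])
  rw [h7]
  linarith only [h1, hmain, h3, h5, h6, n1, n2]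

/-- **the bound for one target, with a weight and with the critical multiplier** -/
theorem K_oneW {lam k₂ dc κ : ℝ} {w : (ℂ → ℂ) → ℂ → ℂ} {T Mt : (ℂ → ℂ) → ℝ → ℝ → ℝ}
    (hE3 : ∃ C : ℝ, ∀ (β : ℂ → ℂ) (R a : ℝ), ExtR β R → Real.exp (-1) < a → a < 1 →
      Real.log (tau a) + 1 ≤ -1 →
      Kf (w β) 1 (-1) (Real.log a) ≤ π⁻¹ * II (Real.log (tau a) + 1) (-1) (T (Xf β a)) + C)
    (hT4 : ∀ (X : ℂ → ℂ) (ξ η : ℝ), T X ξ η ≤ 4)
    (hTc : ∀ (X : ℂ → ℂ) (x₁ x₂ : ℝ), NiceX X x₁ x₂ → CH x₁ x₂ π (T X))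
    {adm : (ℂ → ℂ) → ℝ → ℝ → Prop}
    (hadm : ∀ (β : ℂ → ℂ) (R a : ℝ), ExtR β R → 0 < a → a < 1 → Real.log (tau a) + 1 ≤ -1 →
      adm (Xf β a) (Real.log (tau a) + 1) (-1))
    (line : ∀ δ : ℝ, 0 < δ → ∃ C : ℝ, ∀ (β : ℂ → ℂ) (R a : ℝ), ExtR β R → 0 < a → a < 1 →
      ∀ x₁ x₂ : ℝ, Real.log (tau a) + 1 ≤ x₁ → x₁ ≤ x₂ → x₂ ≤ -1 →
      2 * ∫ ξ in x₁..x₂, (1 - (Xf β a (pt ξ (π / 2))).re) ≤
        (1 + δ) * Real.log (‖N β a‖ / (1 - a ^ 2)) + C)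
    (hS : StripIneqW lam k₂ dc T Mt adm) (h0 : 0 ≤ lam) (h1 : lam ≤ k₂)
    (hκ : k₂ < 2 * κ) : ∃ e C V₀ a₀ : ℝ, 0 < e ∧ 0 ≤ C ∧ 0 < V₀ ∧ a₀ < 1 ∧
      ∀ (β : ℂ → ℂ) (R a V : ℝ) (Ω Ω₁ Ω₂ : ℝ → ℝ → ℝ), ExtR β R → a₀ < a → a < 1 →
      0 ≤ V → V ≤ V₀ → WtF (Real.log (tau a) + 1) (-1) V Ω Ω₁ Ω₂ →
      Kf (w β) 1 (-1) (Real.log a) +
          e * II (Real.log (tau a) + 1) (-1) (fun ξ η => ‖Xf β a (pt ξ η) - 1‖ ^ 2) ≤
        κ * Real.log (‖N β a‖ / (1 - a ^ 2)) +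
          π⁻¹ * II (Real.log (tau a) + 1) (-1) (fun ξ η => Ω ξ η * Mt (Xf β a) ξ η) +
          4 * π⁻¹ * II (Real.log (tau a) + 1) (-1) (fun ξ η => 1 - Ω ξ η) +
          dc * (-1 - (Real.log (tau a) + 1)) +
          C * (1 + V * (-1 - (Real.log (tau a) + 1))) := by
  obtain ⟨C₁, hC₁0, hC₁⟩ := hS
  obtain ⟨Cd, hCd⟩ := Pool.Agent.Helper16.EK.E1d
  obtain ⟨d, hd⟩ : ∃ d, d = 2 * κ - k₂ := ⟨_, rfl⟩
  have hd0 : 0 < d := by rw [hd]; linarith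
  obtain ⟨V₀, hV₀⟩ : ∃ V₀, V₀ = d / (8 * (C₁ + 1)) := ⟨_, rfl⟩
  have hV₀0 : 0 < V₀ := by rw [hV₀]; (clear * - hd0 hC₁0; positivity)
  have hCV : C₁ * V₀ ≤ d / 8 := by
    have h2 : 8 * (V₀ * (C₁ + 1)) = d := by
      rw [hV₀]
      (clear * - hC₁0 hd0; field_simp)
    linarith only [hV₀0, h2]
  -- the energy coefficient
  obtain ⟨k, hk⟩ : ∃ k, k = lam + d / 8 + d / 8 := ⟨_, rfl⟩
  have hk0 : 0 ≤ k := by rw [hk]; (clear * - h0 hκ hd; linarith only [h0, hκ, hd])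
  obtain ⟨g, hg⟩ : ∃ g, g = d / (4 * (k + 1)) := ⟨_, rfl⟩
  have hg0 : 0 < g := by rw [hg]; (clear * - hd0 hk0; positivity)
  have hkg : k * g ≤ d / 4 := by
    have h2 : 4 * (g * (k + 1)) = d := by
      rw [hg]
      (clear * - hk0 hd0; field_simp)
    linarith only [hg0, h2]
  obtain ⟨e, he⟩ : ∃ e, e = d / (4 * (k₂ - lam + 1)) := ⟨_, rfl⟩
  have hkl : 0 < k₂ - lam + 1 := by linarith only [h1]
  have he0 : 0 < e := by rw [he]; (clear * - hd0 h1; positivity)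
  have hke : (k₂ - lam) * e ≤ d / 4 := by
    have h2 : 4 * (e * (k₂ - lam + 1)) = d := by
      rw [he]
      (clear * - hkl hd0; field_simp)
    linarith only [he0, h2]
  obtain ⟨Cs, hCs⟩ := line e he0
  obtain ⟨C₃, hC₃⟩ := hE3
  have hπ : 0 < π := Real.pi_pos
  have hπi : 0 < π⁻¹ := inv_pos.mpr hπ
  refine ⟨π⁻¹ * (d / 8), |C₃| + π⁻¹ * (k * ((1 + 1 / g) * |Cd|)) + (k₂ - lam) * (|Cs| / 2) +
    π⁻¹ * C₁, V₀, max (Real.exp (-1)) (1 - Real.exp (-2 * 1)), by positivity,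
    by
      have : 0 ≤ k₂ - lam := by linarith only [h1]
      (clear * - hk0 hg0 h1 hC₁0; positivity), hV₀0, ?_, ?_⟩
  · apply max_lt
    · rw [← Real.exp_zero]
      exact Real.exp_lt_exp.mpr (by norm_num)
    · linarith only [Real.exp_pos (-2 * 1)]
  intro β R a V Ω Ω₁ Ω₂ hβ ha ha1 hV hVV hw
  have hae : Real.exp (-1) < a := lt_of_le_of_lt (le_max_left _ _) ha
  have ha0 : 0 < a := (Real.exp_pos _).trans hae
  have hfar := Pool.Agent.Helper83.EK.tau_far (A := 1) (lt_of_le_of_lt (le_max_right _ _) ha) ha0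
    ha1
  have hK := hC₃ β R a hβ hae ha1 hfar
  obtain ⟨x₁, hx₁⟩ : ∃ x₁, x₁ = Real.log (tau a) + 1 := ⟨_, rfl⟩
  rw [← hx₁] at hK hfar hw ⊢
  have hx12 : x₁ ≤ -1 := by linarith only [hfar]
  have hxt : Real.log (tau a) < x₁ := by linarith only [hx₁]
  have hX : NiceX (Xf β a) x₁ (-1) := Pool.Agent.Helper67.EK.E1c hβ ha0 ha1 hxt (by norm_num)
  have hst := hC₁ (Xf β a) x₁ (-1) V Ω Ω₁ Ω₂ hx12 hV hw hX (by
    rw [hx₁]
    exact hadm β R a hβ ha0 ha1 (by rw [← hx₁]; exact hx12))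
  have hb := Pool.Agent.Helper86.EK.E1b hβ ha0 ha1 hxt hx12 (by norm_num)
  have hdd := hCd a ha0 ha1 x₁ (-1) hx₁.ge hx12 le_rfl
  have hs := hCs β R a hβ ha0 ha1 x₁ (-1) hx₁.ge hx12 le_rfl
  obtain ⟨Λ, hΛ⟩ : ∃ Λ, Λ = Real.log (‖N β a‖ / (1 - a ^ 2)) := ⟨_, rfl⟩
  rw [← hΛ] at hb hs ⊢
  -- the part where the weight is smaller than `1`
  have cT : CH x₁ (-1) π (T (Xf β a)) := hTc _ _ _ hX
  have hsplit : II x₁ (-1) (T (Xf β a)) ≤ II x₁ (-1) (fun ξ η => Ω ξ η * T (Xf β a) ξ η) +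
      4 * II x₁ (-1) (fun ξ η => 1 - Ω ξ η) := by
    have e1 : ∀ (y₁ y₂ : ℝ) (F : ℝ → ℝ → ℝ), II y₁ y₂ F = IH y₁ y₂ π F := fun _ _ _ => rfl
    have c3 : CH x₁ (-1) π (fun ξ η => 4 * (1 - Ω ξ η)) :=
      (CH_const 4).mul (CH.sub (CH_const 1) hw.c0)
    rw [e1, e1, e1, ← IH_const_mul, ← IH_add hx12 hπ.le (hw.c0.mul cT) c3]
    refine IH_mono hx12 hπ.le cT ((hw.c0.mul cT).add c3) ?_
    intro ξ hξ η hη
    obtain ⟨w0, w1⟩ := hw.b01 ξ hξ η hη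
    have h4 := hT4 (Xf β a) ξ η
    (clear * - w1 h4; nlinarith only [w1, h4])
  -- continuity
  have cX : ContinuousOn (fun v : ℝ × ℝ => Xf β a (pt v.1 v.2)) (Icc x₁ (-1) ×ˢ Icc 0 π) :=
    hX.an.continuousOn.comp Pool.Agent.Helper70.EK.continuous_pt.continuousOn
      (Pool.Agent.Helper83.EK.pt_mapsTo _ _)
  have cK : ContinuousOn (fun v : ℝ × ℝ => kap a (pt v.1 v.2)) (Icc x₁ (-1) ×ˢ Icc 0 π) :=
    Pool.Agent.Helper83.EK.kap_contOn ha0 ha1 hxt (by norm_num)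
  have c1 : ContinuousOn (fun v : ℝ × ℝ => ‖Xf β a (pt v.1 v.2) - 1‖ ^ 2)
      (Icc x₁ (-1) ×ˢ Icc 0 π) := (cX.sub continuousOn_const).norm.pow 2
  have c2 : ContinuousOn (fun v : ℝ × ℝ => ‖2 * Xf β a (pt v.1 v.2) - 2 * kap a (pt v.1 v.2)‖ ^ 2)
      (Icc x₁ (-1) ×ˢ Icc 0 π) :=
    ((continuousOn_const.mul cX).sub (continuousOn_const.mul cK)).norm.pow 2
  have c3 : ContinuousOn (fun v : ℝ × ℝ => ‖kap a (pt v.1 v.2) - 1‖ ^ 2)
      (Icc x₁ (-1) ×ˢ Icc 0 π) := (cK.sub continuousOn_const).norm.pow 2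
  have hE := Pool.Agent.Helper83.EK.II_le3 (F₁ := fun ξ η => ‖Xf β a (pt ξ η) - 1‖ ^ 2)
    (F₂ := fun ξ η => ‖2 * Xf β a (pt ξ η) - 2 * kap a (pt ξ η)‖ ^ 2)
    (F₃ := fun ξ η => ‖kap a (pt ξ η) - 1‖ ^ 2) (p := (1 + g) / 4) (q := 1 + 1 / g)
    hx12 c1 c2 c3 (by
      intro ξ η
      have h1 : Xf β a (pt ξ η) - 1 = (2 * Xf β a (pt ξ η) - 2 * kap a (pt ξ η)) / 2 +
        (kap a (pt ξ η) - 1) := by ring
      have h2 : ‖Xf β a (pt ξ η) - 1‖ ≤ ‖2 * Xf β a (pt ξ η) - 2 * kap a (pt ξ η)‖ / 2 +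
          ‖kap a (pt ξ η) - 1‖ := by
        rw [h1]
        refine (norm_add_le _ _).trans ?_
        rw [norm_div]
        simp
      have h3 := norm_nonneg (Xf β a (pt ξ η) - 1)
      have h4 := norm_nonneg (2 * Xf β a (pt ξ η) - 2 * kap a (pt ξ η))
      have h5 := norm_nonneg (kap a (pt ξ η) - 1)
      generalize ‖Xf β a (pt ξ η) - 1‖ = u at *
      generalize ‖2 * Xf β a (pt ξ η) - 2 * kap a (pt ξ η)‖ = v at *
      generalize ‖kap a (pt ξ η) - 1‖ = w at *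
      have h6 : u ^ 2 ≤ (v / 2 + w) ^ 2 := by (clear * - h3 h2; nlinarith only [h3, h2])
      have h7 : (v / 2 + w) ^ 2 ≤ (1 + g) / 4 * v ^ 2 + (1 + 1 / g) * w ^ 2 := by
        have h8 : (1 + g) / 4 * v ^ 2 + (1 + 1 / g) * w ^ 2 - (v / 2 + w) ^ 2 =
            (g * v / 2 - w) ^ 2 / g := by
          field_simp
          ring
        have h9 : 0 ≤ (g * v / 2 - w) ^ 2 / g := by (clear * - hg0; positivity)
        linarith only [h8, h9]
      exact h6.trans h7)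
  -- assemble
  have hEn : 0 ≤ II x₁ (-1) (fun ξ η => ‖Xf β a (pt ξ η) - 1‖ ^ 2) :=
    Pool.Agent.Helper83.EK.II_nonneg hx12 (fun ξ η => by (clear * -; positivity))
  obtain ⟨E, hEdef⟩ : ∃ E, E = II x₁ (-1) (fun ξ η => ‖Xf β a (pt ξ η) - 1‖ ^ 2) := ⟨_, rfl⟩
  rw [← hEdef] at hE hEn hst ⊢
  obtain ⟨S, hSdef⟩ : ∃ S, S = ∫ ξ in x₁..(-1), (1 - (Xf β a (pt ξ (π / 2))).re) := ⟨_, rfl⟩
  rw [← hSdef] at hst hs
  obtain ⟨Mv, hMv⟩ : ∃ Mv, Mv = II x₁ (-1) (fun ξ η => Ω ξ η * Mt (Xf β a) ξ η) := ⟨_, rfl⟩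
  rw [← hMv] at hst ⊢
  obtain ⟨Wv, hWv⟩ : ∃ Wv, Wv = II x₁ (-1) (fun ξ η => 1 - Ω ξ η) := ⟨_, rfl⟩
  rw [← hWv] at hsplit ⊢
  have hE2 : E ≤ (1 + g) / 4 * (2 * π * Λ) + (1 + 1 / g) * |Cd| := by
    have h1 : 0 < (1 + g) / 4 := by (clear * - hg0; positivity)
    have h2 : 0 < 1 + 1 / g := by positivity
    have h3 := mul_le_mul_of_nonneg_left hb h1.le
    have h4 := mul_le_mul_of_nonneg_left (hdd.trans (le_abs_self Cd)) h2.le
    linarith only [hE, h3, h4]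
  have hΛ0 : 0 ≤ Λ := by
    have h1 : 0 ≤ II x₁ (-1) (fun ξ η => ‖2 * Xf β a (pt ξ η) - 2 * kap a (pt ξ η)‖ ^ 2) :=
      Pool.Agent.Helper83.EK.II_nonneg hx12 (fun ξ η => by (clear * -; positivity))
    have h2 : 0 ≤ 2 * π * Λ := h1.trans hb
    exact nonneg_of_mul_nonneg_right h2 (by positivity)
  have hlen : 0 ≤ -1 - x₁ := by linarith only [hx12]
  have hVl : 0 ≤ V * (-1 - x₁) := mul_nonneg hV hlen
  have hCVE : C₁ * (V * E) ≤ d / 8 * E := by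
    have h1 : C₁ * V ≤ d / 8 := (mul_le_mul_of_nonneg_left hVV hC₁0).trans hCV
    have h2 := mul_le_mul_of_nonneg_right h1 hEn
    linarith only [h2]
  have hT : II x₁ (-1) (T (Xf β a)) + d / 8 * E ≤
      k * E + (k₂ - lam) * (π * S) + dc * (π * (-1 - x₁)) + Mv + 4 * Wv +
        C₁ * (1 + V * (-1 - x₁)) := by
    have h3 : C₁ * (1 + V * (-1 - x₁ + E)) = C₁ * (1 + V * (-1 - x₁)) + C₁ * (V * E) := by ring
    rw [hk, add_mul, add_mul]
    (clear * - hst hsplit hCVE; linarith only [hst, hsplit, hCVE])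
  have h2 : k * E ≤ k * ((1 + g) / 4 * (2 * π * Λ) + (1 + 1 / g) * |Cd|) :=
    mul_le_mul_of_nonneg_left hE2 hk0
  have h3 : (k₂ - lam) * (π * S) ≤ (k₂ - lam) * (π * (((1 + e) * Λ + |Cs|) / 2)) := by
    refine mul_le_mul_of_nonneg_left (mul_le_mul_of_nonneg_left ?_ hπ.le) (by linarith only [h1])
    linarith only [le_abs_self Cs, hs]
  have h4 : π⁻¹ * (II x₁ (-1) (T (Xf β a)) + d / 8 * E) ≤
      π⁻¹ * (k * ((1 + g) / 4 * (2 * π * Λ) + (1 + 1 / g) * |Cd|) +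
        (k₂ - lam) * (π * (((1 + e) * Λ + |Cs|) / 2)) + dc * (π * (-1 - x₁)) + Mv + 4 * Wv +
        C₁ * (1 + V * (-1 - x₁))) :=
    mul_le_mul_of_nonneg_left (by linarith only [hT, h2, h3]) hπi.le
  have h5 : π⁻¹ * (k * ((1 + g) / 4 * (2 * π * Λ) + (1 + 1 / g) * |Cd|) +
        (k₂ - lam) * (π * (((1 + e) * Λ + |Cs|) / 2)) + dc * (π * (-1 - x₁)) + Mv + 4 * Wv +
        C₁ * (1 + V * (-1 - x₁))) =
      (k * (1 + g) + (k₂ - lam) * (1 + e)) / 2 * Λ + π⁻¹ * (k * ((1 + 1 / g) * |Cd|)) +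
        (k₂ - lam) * (|Cs| / 2) + dc * (-1 - x₁) + π⁻¹ * Mv + 4 * π⁻¹ * Wv +
        π⁻¹ * C₁ * (1 + V * (-1 - x₁)) := by
    field_simp
    ring
  have h6 : (k * (1 + g) + (k₂ - lam) * (1 + e)) / 2 * Λ ≤ κ * Λ := by
    apply mul_le_mul_of_nonneg_right _ hΛ0
    have : k ≤ lam + d / 4 := by rw [hk]; linarith only []
    rw [hd] at this hkg hke hd0
    linarith only [hd, hd0, hk, hkg, hke]
  have h7 : 0 ≤ π⁻¹ * (k * ((1 + 1 / g) * |Cd|)) := by (clear * - hk0 hg0; positivity)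
  have h8 : 0 ≤ (k₂ - lam) * (|Cs| / 2) := mul_nonneg (by linarith only [h1]) (by (clear * -; positivity))
  have h9 : (|C₃| + π⁻¹ * (k * ((1 + 1 / g) * |Cd|)) + (k₂ - lam) * (|Cs| / 2) + π⁻¹ * C₁) *
      (1 + V * (-1 - x₁)) =
      |C₃| + π⁻¹ * (k * ((1 + 1 / g) * |Cd|)) + (k₂ - lam) * (|Cs| / 2) +
      π⁻¹ * C₁ * (1 + V * (-1 - x₁)) +
      (|C₃| + π⁻¹ * (k * ((1 + 1 / g) * |Cd|)) + (k₂ - lam) * (|Cs| / 2)) *
        (V * (-1 - x₁)) := by ring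
  have h10 : 0 ≤ (|C₃| + π⁻¹ * (k * ((1 + 1 / g) * |Cd|)) + (k₂ - lam) * (|Cs| / 2)) *
      (V * (-1 - x₁)) := mul_nonneg (by (clear * - hk0 hg0 h1; positivity)) hVl
  have h11 := le_abs_self C₃
  rw [h5, mul_add] at h4
  rw [h9]
  have h12 : π⁻¹ * (d / 8 * E) = π⁻¹ * (d / 8) * E := by ring
  rw [h12] at h4
  linarith only [hK, h4, h6, h10, h11]

end Pool.Agent.Helper84.CK

end

section

namespace Pool.Agent.Helper39.Area
end Pool.Agent.Helper39.Area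
namespace Pool.Agent.Helper52.EK
end Pool.Agent.Helper52.EK
namespace Pool.Agent.Helper69.EK3
end Pool.Agent.Helper69.EK3
namespace Pool.Agent.Helper69.EK7
end Pool.Agent.Helper69.EK7
namespace Pool.Agent.Helper69.CK
end Pool.Agent.Helper69.CK

set_option autoImplicit false

open Complex MeasureTheory Metric Set

open scoped Real ComplexConjugate

namespace Pool.Agent.Helper84.CK

open Pool.Agent.Helper39.Area Pool.Agent.Helper52.EK Pool.Agent.Helper69.EK3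

open Pool.Agent.Helper69.EK7 Pool.Agent.Helper69.CK

theorem Mt_contOn {M : ℂ → ℂ} (hM : Continuous M) (q : ℝ) {X : ℂ → ℂ} {S : Set (ℝ × ℝ)}
    (h1 : ContinuousOn (fun p : ℝ × ℝ => X (pt p.1 p.2)) S)
    (h2 : ContinuousOn (fun p : ℝ × ℝ => deriv X (pt p.1 p.2)) S)
    (h0 : ∀ p ∈ S, X (pt p.1 p.2) ≠ 0) :
    ContinuousOn (fun p : ℝ × ℝ => Mt M q X p.1 p.2) S := by
  have h3 := h2.div h1 h0
  have h4 : ContinuousOn (fun p : ℝ × ℝ => e0 (Real.sin p.2) (Real.cos p.2)) S := by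
    apply Continuous.continuousOn
    unfold e0
    fun_prop
  have h5 : ContinuousOn (fun p : ℝ × ℝ => mX (X (pt p.1 p.2)) (deriv X (pt p.1 p.2))
      (Real.sin p.2) (Real.cos p.2)) S := by
    unfold mX
    exact ((continuousOn_const.add h4).mul
      (((continuousOn_const.mul h1).sub continuousOn_const).add h3)).sub continuousOn_const
  unfold Mt
  exact Complex.continuous_re.comp_continuousOn (((hM.comp_continuousOn h5).mul h4).mul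
    ((h1.pow 2).sub continuousOn_const))

theorem Mt_cont_H {M : ℂ → ℂ} (hM : Continuous M) (q : ℝ) (X : ℂ → ℂ) (x₁ x₂ : ℝ)
    (hX : NiceH X x₁ x₂) : CH x₁ x₂ (π / 2) (Mt M q X) :=
  Mt_contOn hM q (contH hX.an.continuousOn) (contH hX.an.deriv.continuousOn)
    fun _ hp => hX.ne _ (pt_mem_RectH hp.1 hp.2)

theorem Mt_cont_X {M : ℂ → ℂ} (hM : Continuous M) (q : ℝ) (X : ℂ → ℂ) (x₁ x₂ : ℝ)
    (hX : NiceX X x₁ x₂) : CH x₁ x₂ π (Mt M q X) :=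
  Mt_contOn hM q (contH (h := π) hX.an.continuousOn) (contH (h := π) hX.an.deriv.continuousOn)
    fun _ hp => hX.ne _ (pt_mem_RectH hp.1 hp.2)

theorem Mt_mirror {M : ℂ → ℂ} (hMc : ∀ m, M (conj m) = conj (M m)) (q : ℝ) (X : ℂ → ℂ)
    (x₁ x₂ : ℝ) (hX : NiceX X x₁ x₂) (ξ : ℝ) (hξ : ξ ∈ Icc x₁ x₂) (η : ℝ)
    (hη : η ∈ Icc (0:ℝ) (π / 2)) : Mt M q X ξ (π - η) = Mt M q (mir X) ξ η := by
  have hm : pt ξ (π - η) ∈ Rect x₁ x₂ := by
    have := mir_mem (pt_mem_RectH hξ hη)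
    rwa [conj_pt] at this
  have hA : AnalyticAt ℂ X (pt ξ (π - η)) := hX.an _ hm
  unfold Mt
  rw [mir_pt, mir_deriv_pt hA.differentiableAt, mX_conj, hMc, Real.sin_pi_sub, Real.cos_pi_sub]
  have e1 : e0 (Real.sin η) (Real.cos η) = conj (e0 (Real.sin η) (-Real.cos η)) := by
    rw [e0_neg, Complex.conj_conj]
  rw [e1, ← Complex.conj_re]
  congr 1
  simp

theorem T2_le4 {G : ℂ → ℂ → ℂ} {L : ℝ} (hG : GLip2 G L) (X : ℂ → ℂ) (ξ η : ℝ) :
    T2 G X ξ η ≤ 4 := by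
  unfold T2 TG2
  have h1 := hG.le_one (mX (X (pt ξ η)) (deriv X (pt ξ η)) (Real.sin η) (Real.cos η))
    (tX (X (pt ξ η)) (deriv X (pt ξ η)) (deriv (deriv X) (pt ξ η)) (Real.sin η) (Real.cos η))
  have h2 : ‖e0 (Real.sin η) (Real.cos η)‖ = 1 := Pool.Agent.Helper70.EK.norm_e0 η
  have h3 := norm_sub_le (G (mX (X (pt ξ η)) (deriv X (pt ξ η)) (Real.sin η) (Real.cos η))
    (tX (X (pt ξ η)) (deriv X (pt ξ η)) (deriv (deriv X) (pt ξ η)) (Real.sin η) (Real.cos η)))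
    (e0 (Real.sin η) (Real.cos η))
  rw [h2] at h3
  have h4 := norm_nonneg (G (mX (X (pt ξ η)) (deriv X (pt ξ η)) (Real.sin η) (Real.cos η))
    (tX (X (pt ξ η)) (deriv X (pt ξ η)) (deriv (deriv X) (pt ξ η)) (Real.sin η) (Real.cos η)) -
    e0 (Real.sin η) (Real.cos η))
  (clear * - h1 h3 h4; nlinarith only [h1, h3, h4])

theorem GLip.two {G : ℂ → ℂ} {L : ℝ} (hG : GLip G L) : GLip2 (fun m _ => G m) L := by
  refine ⟨fun m _ => hG.le_one m, fun m m' _ => hG.lip m m', fun u m _ hu => hG.rot u m hu, ?_⟩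
  have h1 : Continuous G := by
    have h2 : LipschitzWith (Real.toNNReal |L|) G := by
      refine LipschitzWith.of_dist_le_mul fun m m' => ?_
      rw [dist_eq_norm, dist_eq_norm, Real.coe_toNNReal _ (abs_nonneg L)]
      exact (hG.lip m m').trans (mul_le_mul_of_nonneg_right (le_abs_self L) (norm_nonneg _))
    exact h2.continuous
  exact h1.comp continuous_fst

end Pool.Agent.Helper84.CK

end

section

namespace Pool.Agent.Helper52.EK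
end Pool.Agent.Helper52.EK
namespace Pool.Agent.Helper69.EK3
end Pool.Agent.Helper69.EK3
namespace Pool.Agent.Helper69.EK7
end Pool.Agent.Helper69.EK7
namespace Pool.Agent.Helper84.CK
end Pool.Agent.Helper84.CK

set_option autoImplicit false

open Complex MeasureTheory Metric Set

open scoped Real ComplexConjugate

namespace Pool.Agent.Helper69.CKC

open Pool.Agent.Helper52.EK Pool.Agent.Helper69.EK3 Pool.Agent.Helper69.EK7

open Pool.Agent.Helper84.CK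

/-- the linear function of the direction `u` -/
noncomputable def fu (u X : ℂ) : ℝ := (conj u * ((1 + u) / 2 - X)).re

theorem fu_abs {u : ℂ} (hu : ‖u‖ = 1) (X : ℂ) : |fu u X| ≤ ‖X - (1 + u) / 2‖ := by
  unfold fu
  refine (abs_re_le_norm _).trans ?_
  rw [norm_mul, RCLike.norm_conj, hu, one_mul, norm_sub_rev]

theorem area_u {u : ℂ} (hu : ‖u‖ = 1) (X : ℂ) :
    ‖X‖ ^ 2 - X.re = ‖X - (1 + u) / 2‖ ^ 2 - fu u X := by
  have h1 : u.re ^ 2 + u.im ^ 2 = 1 := by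
    have h2 : ‖u‖ ^ 2 = 1 := by rw [hu]; norm_num
    rw [← normSq_eq_norm_sq, normSq_apply] at h2
    (clear * - h2; linarith only [h2])
  unfold fu
  rw [← normSq_eq_norm_sq, ← normSq_eq_norm_sq, normSq_apply, normSq_apply]
  have e1 : ((1 + u) / 2).re = (1 + u.re) / 2 := by
    rw [show (1 + u) / 2 = (1 + u) / ((2:ℝ) : ℂ) by norm_num, div_ofReal_re, add_re, one_re]
  have e2 : ((1 + u) / 2).im = u.im / 2 := by
    rw [show (1 + u) / 2 = (1 + u) / ((2:ℝ) : ℂ) by norm_num, div_ofReal_im, add_im, one_im,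
      zero_add]
  simp only [sub_re, sub_im, mul_re, conj_re, conj_im, e1, e2]
  linear_combination (-1 / 4) * h1 + (1 / 2) * h1

theorem CH_fu {X : ℂ → ℂ} {x₁ x₂ : ℝ} (u : ℂ) (hX : NiceX X x₁ x₂) :
    CH x₁ x₂ π (fun ξ η => fu u (X (pt ξ η))) :=
  CH_comp (h := π) hX.an.continuousOn (W := fun X => fu u X) (by unfold fu; fun_prop)

variable {P : (ℂ → ℂ) → ℝ → ℝ → Prop}

theorem II_eq_IH (x₁ x₂ : ℝ) (F : ℝ → ℝ → ℝ) : II x₁ x₂ F = IH x₁ x₂ π F := rfl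

/-- The assembly in the full strip. -/
theorem stripC {k₂ lam dc D : ℝ} (hlam : 0 ≤ lam) (hk₂ : lam ≤ k₂) (hdc : 0 ≤ dc) {u : ℂ}
    (hu : ‖u‖ = 1) {T Mt : (ℂ → ℂ) → ℝ → ℝ → ℝ}
    (hTc : ∀ (X : ℂ → ℂ) (x₁ x₂ : ℝ), NiceX X x₁ x₂ → CH x₁ x₂ π (T X))
    (hMc : ∀ (X : ℂ → ℂ) (x₁ x₂ : ℝ), NiceX X x₁ x₂ → CH x₁ x₂ π (Mt X))
    {N : (ℂ → ℂ) → ℝ → ℝ → ℝ} (hN : IsNullC P N)
    (hp : ∀ (X : ℂ → ℂ) (x₁ x₂ : ℝ), x₁ ≤ x₂ → NiceX X x₁ x₂ → P X x₁ x₂ →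
      ∃ ε : ℝ → ℝ, Continuous ε ∧ (∀ ξ, 0 ≤ ε ξ) ∧ ∫ ξ in x₁..x₂, ε ξ ≤ D ∧
        ∀ ξ ∈ Icc x₁ x₂, ∀ η ∈ Icc (0:ℝ) π,
          T X ξ η ≤ k₂ * fu u (X (pt ξ η)) +
            lam * (‖X (pt ξ η)‖ ^ 2 - (X (pt ξ η)).re) + dc + N X ξ η + Mt X ξ η + ε ξ) :
    ∃ C : ℝ, 0 ≤ C ∧ ∀ (X : ℂ → ℂ) (x₁ x₂ V g : ℝ) (Ω Ω₁ Ω₂ : ℝ → ℝ → ℝ), x₁ ≤ x₂ → 0 < g →
      WtF x₁ x₂ V Ω Ω₁ Ω₂ → NiceX X x₁ x₂ → P X x₁ x₂ →
      II x₁ x₂ (fun ξ η => Ω ξ η * T X ξ η) ≤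
      (k₂ - lam) * II x₁ x₂ (fun ξ η => fu u (X (pt ξ η))) +
        (lam + g) * II x₁ x₂ (fun ξ η => ‖X (pt ξ η) - (1 + u) / 2‖ ^ 2) +
        (k₂ - lam) ^ 2 / (4 * g) * II x₁ x₂ (fun ξ η => 1 - Ω ξ η) +
        dc * (π * (x₂ - x₁)) + II x₁ x₂ (fun ξ η => Ω ξ η * Mt X ξ η) +
        C * (1 + V * (π * (x₂ - x₁) + II x₁ x₂ (fun ξ η => ‖X (pt ξ η) - 1‖ ^ 2))) := by
  obtain ⟨C₁, hC₁⟩ := hN.le
  refine ⟨|C₁| + π * |D|, by (clear * -; positivity), fun X x₁ x₂ V g Ω Ω₁ Ω₂ hx12 hg hw hX hP => ?_⟩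
  have hpi : (0:ℝ) ≤ π := Real.pi_pos.le
  have hkl : 0 ≤ k₂ - lam := by linarith
  have hV := V0_of hx12 hw
  obtain ⟨ε, cε, ε0, εD, hε⟩ := hp X x₁ x₂ hx12 hX hP
  have b1 := hC₁ X x₁ x₂ V Ω Ω₁ Ω₂ hx12 hw hX hP
  have hen := Es_nonneg (X := X) hx12
  have cT : CH x₁ x₂ π (T X) := hTc X x₁ x₂ hX
  have cA : CH x₁ x₂ π (fun ξ η => ‖X (pt ξ η) - (1 + u) / 2‖ ^ 2) :=
    CH_comp (h := π) hX.an.continuousOn (W := fun X => ‖X - (1 + u) / 2‖ ^ 2) (by fun_prop)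
  have f1 : CH x₁ x₂ π (fun ξ η => (k₂ - lam) * fu u (X (pt ξ η))) :=
    (CH_const _).mul (CH_fu u hX)
  have f2 : CH x₁ x₂ π (fun ξ η => (lam + g) * ‖X (pt ξ η) - (1 + u) / 2‖ ^ 2) :=
    (CH_const _).mul cA
  have f3 : CH x₁ x₂ π (fun ξ η => (k₂ - lam) ^ 2 / (4 * g) * (1 - Ω ξ η)) :=
    (CH_const _).mul ((CH_const 1).sub hw.c0)
  have f4 : CH x₁ x₂ π (fun _ _ => dc * 1) := CH_const _
  have f5 : CH x₁ x₂ π (fun ξ η => Ω ξ η * N X ξ η) := hw.c0.mul (hN.cN X x₁ x₂ hX)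
  have f6 : CH x₁ x₂ π (fun ξ η => Ω ξ η * Mt X ξ η) := hw.c0.mul (hMc X x₁ x₂ hX)
  have f7 : CH x₁ x₂ π (fun ξ _ => ε ξ) := CH_xi cε
  have m := IH_mono hx12 hpi (hw.c0.mul cT) ((((((f1.add f2).add f3).add f4).add f5).add f6).add
    f7) (by
    intro ξ hξ η hη
    have h1 := hε ξ hξ η hη
    obtain ⟨w0, w1⟩ := hw.b01 ξ hξ η hη
    have h2 := mul_le_mul_of_nonneg_left h1 w0
    refine h2.trans ?_
    rw [area_u hu]
    obtain ⟨t, ht⟩ : ∃ t, t = ‖X (pt ξ η) - (1 + u) / 2‖ := ⟨_, rfl⟩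
    obtain ⟨f, hf⟩ : ∃ f, f = fu u (X (pt ξ η)) := ⟨_, rfl⟩
    obtain ⟨o, ho⟩ : ∃ o, o = Ω ξ η := ⟨_, rfl⟩
    have h3 : |f| ≤ t := by rw [hf, ht]; exact fu_abs hu _
    rw [← ho] at w0 w1
    rw [← ho, ← ht, ← hf]
    have h4 : o * ε ξ ≤ ε ξ := mul_le_of_le_one_left (ε0 ξ) w1
    have h5 : o * (lam * t ^ 2) ≤ lam * t ^ 2 :=
      mul_le_of_le_one_left (mul_nonneg hlam (sq_nonneg _)) w1
    have h6 : o * dc ≤ dc := mul_le_of_le_one_left hdc w1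
    have h7 : -((k₂ - lam) * f) ≤ g * t ^ 2 + (k₂ - lam) ^ 2 / (4 * g) := by
      have h8 : -((k₂ - lam) * f) ≤ (k₂ - lam) * t := by
        have := neg_abs_le f
        (clear * - hkl h3 this; nlinarith only [hkl, h3, this])
      refine h8.trans ?_
      have h9 : g * t ^ 2 + (k₂ - lam) ^ 2 / (4 * g) - (k₂ - lam) * t =
          (2 * g * t - (k₂ - lam)) ^ 2 / (4 * g) := by
        field_simp
        ring
      have h10 : 0 ≤ (2 * g * t - (k₂ - lam)) ^ 2 / (4 * g) := by (clear * - hg; positivity)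
      linarith only [h9, h10]
    have h11 := mul_le_mul_of_nonneg_left h7 (by linarith only [w1] : 0 ≤ 1 - o)
    have h12 : (1 - o) * (g * t ^ 2) ≤ g * t ^ 2 :=
      mul_le_of_le_one_left (by (clear * - hg; positivity)) (by linarith only [w0])
    have h13 : o * (k₂ * f + lam * (t ^ 2 - f) + dc + N X ξ η + Mt X ξ η + ε ξ) =
        (k₂ - lam) * f + (1 - o) * -((k₂ - lam) * f) + o * (lam * t ^ 2) + o * dc +
          o * N X ξ η + o * Mt X ξ η + o * ε ξ := by ring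
    rw [h13]
    have h14 : (1 - o) * (g * t ^ 2 + (k₂ - lam) ^ 2 / (4 * g)) =
        (1 - o) * (g * t ^ 2) + (k₂ - lam) ^ 2 / (4 * g) * (1 - o) := by ring
    rw [h14] at h11
    (clear * - h4 h5 h6 h11 h12; linarith only [h4, h5, h6, h11, h12]))
  rw [IH_add hx12 hpi (((((f1.add f2).add f3).add f4).add f5).add f6) f7,
    IH_add hx12 hpi ((((f1.add f2).add f3).add f4).add f5) f6,
    IH_add hx12 hpi (((f1.add f2).add f3).add f4) f5,
    IH_add hx12 hpi ((f1.add f2).add f3) f4, IH_add hx12 hpi (f1.add f2) f3,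
    IH_add hx12 hpi f1 f2, IH_const_mul, IH_const_mul, IH_const_mul, IH_const_mul] at m
  have e4 : IH x₁ x₂ π (fun _ _ => (1:ℝ)) = π * (x₂ - x₁) := by
    unfold IH
    simp
    ring
  have e7 : IH x₁ x₂ π (fun ξ _ => ε ξ) ≤ π * |D| := by
    have e8 : IH x₁ x₂ π (fun ξ _ => ε ξ) = π * ∫ ξ in x₁..x₂, ε ξ := by
      unfold IH
      simp
    rw [e8]
    exact mul_le_mul_of_nonneg_left (εD.trans (le_abs_self D)) hpi
  rw [e4] at m
  have b2 := (le_abs_self _).trans b1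
  simp only [II_eq_IH]
  change _ ≤ _ + (|C₁| + π * |D|) * (1 + V * (π * (x₂ - x₁) + Es X x₁ x₂))
  obtain ⟨F, hF⟩ : ∃ F, F = V * (π * (x₂ - x₁) + Es X x₁ x₂) := ⟨_, rfl⟩
  have hF0 : 0 ≤ F := by
    rw [hF]
    have : 0 ≤ x₂ - x₁ := by linarith only [hx12]
    (clear * - hV hx12 hen; positivity)
  rw [← hF] at b2 ⊢
  have b3 : C₁ * F ≤ |C₁| * F := mul_le_mul_of_nonneg_right (le_abs_self _) hF0
  have b4 : 0 ≤ π * |D| * F := by (clear * - hF0; positivity)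
  have b5 : (|C₁| + π * |D|) * (1 + F) = |C₁| + |C₁| * F + π * |D| + π * |D| * F := by ring
  have b6 := abs_nonneg C₁
  rw [b5]
  linarith only [m, e7, b2, b3, b4, b6]

end Pool.Agent.Helper69.CKC

end

section

namespace Pool.Agent.Helper39.Area
end Pool.Agent.Helper39.Area
namespace Pool.Agent.Helper52.EK
end Pool.Agent.Helper52.EK
namespace Pool.Agent.Helper69.EK3
end Pool.Agent.Helper69.EK3
namespace Pool.Agent.Helper69.EK7
end Pool.Agent.Helper69.EK7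
namespace Pool.Agent.Helper84.CK
end Pool.Agent.Helper84.CK
namespace Pool.Agent.Helper68.EKC
end Pool.Agent.Helper68.EKC

set_option autoImplicit false

open Complex MeasureTheory Metric Set

open scoped Real ComplexConjugate

namespace Pool.Agent.Helper69.CKC

open Pool.Agent.Helper39.Area Pool.Agent.Helper52.EK Pool.Agent.Helper69.EK3

open Pool.Agent.Helper69.EK7 Pool.Agent.Helper84.CK Pool.Agent.Helper68.EKC

/-- the integrated inequality with a weight, direction `u` -/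
def StripIneqC (u : ℂ) (lam k₂ dc : ℝ) (T Mt : (ℂ → ℂ) → ℝ → ℝ → ℝ)
    (adm : (ℂ → ℂ) → ℝ → ℝ → Prop) : Prop :=
  ∃ C : ℝ, 0 ≤ C ∧ ∀ (X : ℂ → ℂ) (x₁ x₂ V g : ℝ) (Ω Ω₁ Ω₂ : ℝ → ℝ → ℝ), x₁ ≤ x₂ → 0 < g →
      WtF x₁ x₂ V Ω Ω₁ Ω₂ → NiceX X x₁ x₂ → adm X x₁ x₂ →
      II x₁ x₂ (fun ξ η => Ω ξ η * T X ξ η) ≤
      (k₂ - lam) * II x₁ x₂ (fun ξ η => fu u (X (pt ξ η))) +
        (lam + g) * II x₁ x₂ (fun ξ η => ‖X (pt ξ η) - (1 + u) / 2‖ ^ 2) +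
        (k₂ - lam) ^ 2 / (4 * g) * II x₁ x₂ (fun ξ η => 1 - Ω ξ η) +
        dc * (π * (x₂ - x₁)) + II x₁ x₂ (fun ξ η => Ω ξ η * Mt X ξ η) +
        C * (1 + V * (π * (x₂ - x₁) + II x₁ x₂ (fun ξ η => ‖X (pt ξ η) - 1‖ ^ 2)))

/-- the linear term: helper64's line lemma -/
def LineC (u : ℂ) : Prop :=
  ∀ g : ℝ, 0 < g → ∃ C : ℝ, ∀ (β L : ℂ → ℂ) (R a : ℝ), ExtR β R → IsLog β L →
    Real.exp (-1) < a → a < 1 → Real.log (tau a) + 1 ≤ -1 →
    2 * II (Real.log (tau a) + 1) (-1) (fun ξ η => fu u (Xf β a (pt ξ η))) ≤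
      π * (- Real.log (1 - a ^ 2) + (conj u * L a).re) + g * (-1 - (Real.log (tau a) + 1)) + C

/-- the energies around `1` and around `(1 + u) / 2` -/
theorem around_one {u : ℂ} (hu : ‖u‖ = 1) {X : ℂ → ℂ} {x₁ : ℝ} (hx12 : x₁ ≤ -1)
    (hX : NiceX X x₁ (-1)) :
    II x₁ (-1) (fun ξ η => ‖X (pt ξ η) - 1‖ ^ 2) ≤
      2 * II x₁ (-1) (fun ξ η => ‖X (pt ξ η) - (1 + u) / 2‖ ^ 2) + 2 * (π * (-1 - x₁)) := by
  have hπ : 0 < π := Real.pi_pos
  have cXc := CH_comp (h := π) (x₁ := x₁) (x₂ := -1) hX.an.continuousOn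
    (W := fun X => ‖X - (1 + u) / 2‖ ^ 2) (by fun_prop)
  have e4 : IH x₁ (-1) π (fun _ _ => (2:ℝ)) = 2 * (π * (-1 - x₁)) := by
    unfold IH
    simp
    ring
  rw [← e4, II_eq_IH, II_eq_IH, ← IH_const_mul, ← IH_add hx12 hπ.le ((CH_const 2).mul cXc)
    (CH_const 2)]
  refine IH_mono hx12 hπ.le (CH_en' hX) (((CH_const 2).mul cXc).add (CH_const 2)) ?_
  intro ξ _ η _
  have e5 : X (pt ξ η) - 1 = (X (pt ξ η) - (1 + u) / 2) + (u - 1) / 2 := by ring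
  have e6 : ‖(u - 1) / 2‖ ≤ 1 := by
    rw [norm_div]
    have h3 := norm_sub_le u 1
    rw [hu, norm_one] at h3
    have : ‖(2:ℂ)‖ = 2 := by simp
    rw [this]
    linarith only [h3]
  have e7 : ‖X (pt ξ η) - 1‖ ≤ ‖X (pt ξ η) - (1 + u) / 2‖ + 1 := by
    rw [e5]
    exact (norm_add_le _ _).trans (add_le_add le_rfl e6)
  have e8 := norm_nonneg (X (pt ξ η) - 1)
  have e9 := norm_nonneg (X (pt ξ η) - (1 + u) / 2)
  nlinarith only [sq_nonneg (‖X (pt ξ η) - (1 + u) / 2‖ - 1), e7, e8]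

/-- the energy of one target -/
theorem energy_le {u : ℂ} (hu : ‖u‖ = 1) {g Cd : ℝ} (hg0 : 0 < g) {β L : ℂ → ℂ} {R a : ℝ}
    (hβ : ExtR β R) (hL : IsLog β L) (ha0 : 0 < a) (ha1 : a < 1) {x₁ : ℝ}
    (hxt : Real.log (tau a) < x₁) (hx12 : x₁ ≤ -1)
    (hdd : II x₁ (-1) (fun ξ η => ‖kapU a u (pt ξ η) - (1 + u) / 2‖ ^ 2) ≤ Cd) :
    II x₁ (-1) (fun ξ η => ‖Xf β a (pt ξ η) - (1 + u) / 2‖ ^ 2) ≤
      (1 + g) / 4 * (2 * π * (- Real.log (1 - a ^ 2) + (conj u * L a).re)) +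
        (1 + 1 / g) * |Cd| ∧ 0 ≤ - Real.log (1 - a ^ 2) + (conj u * L a).re := by
  have hb := E1bU hβ hL hu ha0 ha1 hxt hx12 (by norm_num)
  have hX : NiceX (Xf β a) x₁ (-1) := Pool.Agent.Helper67.EK.E1c hβ ha0 ha1 hxt (by norm_num)
  have cX : ContinuousOn (fun v : ℝ × ℝ => Xf β a (pt v.1 v.2)) (Icc x₁ (-1) ×ˢ Icc 0 π) :=
    hX.an.continuousOn.comp Pool.Agent.Helper70.EK.continuous_pt.continuousOn
      (Pool.Agent.Helper83.EK.pt_mapsTo _ _)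
  have cK : ContinuousOn (fun v : ℝ × ℝ => kapU a u (pt v.1 v.2)) (Icc x₁ (-1) ×ˢ Icc 0 π) :=
    kapU_contOn u ha0 ha1 hxt (by norm_num)
  have c1 : ContinuousOn (fun v : ℝ × ℝ => ‖Xf β a (pt v.1 v.2) - (1 + u) / 2‖ ^ 2)
      (Icc x₁ (-1) ×ˢ Icc 0 π) := (cX.sub continuousOn_const).norm.pow 2
  have c2 : ContinuousOn (fun v : ℝ × ℝ => ‖2 * Xf β a (pt v.1 v.2) -
      2 * kapU a u (pt v.1 v.2)‖ ^ 2) (Icc x₁ (-1) ×ˢ Icc 0 π) :=
    ((continuousOn_const.mul cX).sub (continuousOn_const.mul cK)).norm.pow 2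
  have c3 : ContinuousOn (fun v : ℝ × ℝ => ‖kapU a u (pt v.1 v.2) - (1 + u) / 2‖ ^ 2)
      (Icc x₁ (-1) ×ˢ Icc 0 π) := (cK.sub continuousOn_const).norm.pow 2
  have hE := Pool.Agent.Helper83.EK.II_le3
    (F₁ := fun ξ η => ‖Xf β a (pt ξ η) - (1 + u) / 2‖ ^ 2)
    (F₂ := fun ξ η => ‖2 * Xf β a (pt ξ η) - 2 * kapU a u (pt ξ η)‖ ^ 2)
    (F₃ := fun ξ η => ‖kapU a u (pt ξ η) - (1 + u) / 2‖ ^ 2) (p := (1 + g) / 4) (q := 1 + 1 / g)
    hx12 c1 c2 c3 (by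
      intro ξ η
      have h1 : Xf β a (pt ξ η) - (1 + u) / 2 = (2 * Xf β a (pt ξ η) -
        2 * kapU a u (pt ξ η)) / 2 + (kapU a u (pt ξ η) - (1 + u) / 2) := by ring
      have h2 : ‖Xf β a (pt ξ η) - (1 + u) / 2‖ ≤ ‖2 * Xf β a (pt ξ η) -
          2 * kapU a u (pt ξ η)‖ / 2 + ‖kapU a u (pt ξ η) - (1 + u) / 2‖ := by
        rw [h1]
        refine (norm_add_le _ _).trans ?_
        rw [norm_div]
        simp
      have h3 := norm_nonneg (Xf β a (pt ξ η) - (1 + u) / 2)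
      have h4 := norm_nonneg (2 * Xf β a (pt ξ η) - 2 * kapU a u (pt ξ η))
      have h5 := norm_nonneg (kapU a u (pt ξ η) - (1 + u) / 2)
      generalize ‖Xf β a (pt ξ η) - (1 + u) / 2‖ = u₁ at *
      generalize ‖2 * Xf β a (pt ξ η) - 2 * kapU a u (pt ξ η)‖ = v at *
      generalize ‖kapU a u (pt ξ η) - (1 + u) / 2‖ = w at *
      have h6 : u₁ ^ 2 ≤ (v / 2 + w) ^ 2 := by nlinarith only [h3, h2]
      have h7 : (v / 2 + w) ^ 2 ≤ (1 + g) / 4 * v ^ 2 + (1 + 1 / g) * w ^ 2 := by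
        have h8 : (1 + g) / 4 * v ^ 2 + (1 + 1 / g) * w ^ 2 - (v / 2 + w) ^ 2 =
            (g * v / 2 - w) ^ 2 / g := by
          field_simp
          ring
        have h9 : 0 ≤ (g * v / 2 - w) ^ 2 / g := by (clear * - hg0; positivity)
        linarith
      exact h6.trans h7)
  constructor
  · have h1 : 0 < (1 + g) / 4 := by positivity
    have h2 : 0 < 1 + 1 / g := by positivity
    have h3 := mul_le_mul_of_nonneg_left hb h1.le
    have h4 := mul_le_mul_of_nonneg_left (hdd.trans (le_abs_self Cd)) h2.le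
    (clear * - hE h3 h4; linarith)
  · have h1 : 0 ≤ II x₁ (-1) (fun ξ η => ‖2 * Xf β a (pt ξ η) - 2 * kapU a u (pt ξ η)‖ ^ 2) :=
      Pool.Agent.Helper83.EK.II_nonneg hx12 (fun ξ η => by (clear * -; positivity))
    have h2 : 0 ≤ 2 * π * (- Real.log (1 - a ^ 2) + (conj u * L a).re) := h1.trans hb
    exact nonneg_of_mul_nonneg_right h2 (by positivity)

/-- the arithmetic of the last step -/
theorem arith {κ k₂ lam dc d k g ε l Λ E E' S Mv Wv C₁ V Cd Cs C₃ Kv Tv TvΩ : ℝ}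
    (hd : d = 2 * κ - k₂) (hd0 : 0 < d) (hk : k = lam + d / 8 + d / 8 + d / 8) (hk0 : 0 ≤ k)
    (hg0 : 0 < g) (hkg : k * g ≤ d / 8) (hkl : 0 ≤ k₂ - lam) (hlen : 0 ≤ l) (hC₁0 : 0 ≤ C₁)
    (hV : 0 ≤ V) (hCV : C₁ * V ≤ d / 16) (hEn : 0 ≤ E) (hΛ0 : 0 ≤ Λ) (hε : 0 < ε)
    (hE1 : E' ≤ 2 * E + 2 * (π * l))
    (hE2 : E ≤ (1 + g) / 4 * (2 * π * Λ) + (1 + 1 / g) * |Cd|)
    (hs : 2 * S ≤ π * Λ + 2 * π * ε / (k₂ - lam + 1) * l + Cs)
    (hst : TvΩ ≤ (k₂ - lam) * S + (lam + d / 8) * E + (k₂ - lam) ^ 2 / (4 * (d / 8)) * Wv +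
      dc * (π * l) + Mv + C₁ * (1 + V * (π * l + E')))
    (hsplit : Tv ≤ TvΩ + 4 * Wv) (hK : Kv ≤ π⁻¹ * Tv + C₃) :
    Kv + π⁻¹ * (d / 8) * E ≤ κ * Λ + π⁻¹ * Mv +
      π⁻¹ * ((k₂ - lam) ^ 2 / (4 * (d / 8)) + 4) * Wv + (dc + ε) * l +
      (|C₃| + π⁻¹ * (k * ((1 + 1 / g) * |Cd|)) + π⁻¹ * ((k₂ - lam) * (|Cs| / 2)) +
        3 * C₁) * (1 + V * l) := by
  have hπ : 0 < π := Real.pi_pos
  have hπi : 0 < π⁻¹ := inv_pos.mpr hπ
  have hVl : 0 ≤ V * l := mul_nonneg hV hlen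
  have hCVE : C₁ * (V * E') ≤ d / 8 * E + 2 * π * (C₁ * (V * l)) := by
    have h2 := mul_le_mul_of_nonneg_right hCV hEn
    have h3 := mul_le_mul_of_nonneg_left hE1 (mul_nonneg hC₁0 hV)
    linarith only [h2, h3]
  have hT : Tv + d / 8 * E ≤
      k * E + (k₂ - lam) * S + dc * (π * l) + Mv +
        ((k₂ - lam) ^ 2 / (4 * (d / 8)) + 4) * Wv + C₁ + 3 * π * (C₁ * (V * l)) := by
    have h3 : C₁ * (1 + V * (π * l + E')) = C₁ + π * (C₁ * (V * l)) + C₁ * (V * E') := by ring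
    rw [hk]
    have h4 : (lam + d / 8 + d / 8 + d / 8) * E = (lam + d / 8) * E + d / 8 * E + d / 8 * E := by
      ring
    rw [h4]
    rw [h3] at hst
    linarith only [hst, hsplit, hCVE]
  have h2 : k * E ≤ k * ((1 + g) / 4 * (2 * π * Λ) + (1 + 1 / g) * |Cd|) :=
    mul_le_mul_of_nonneg_left hE2 hk0
  have h3 : (k₂ - lam) * S ≤ (k₂ - lam) * (π * Λ / 2 + |Cs| / 2) + π * ε * l := by
    have h4 : S ≤ (π * Λ + 2 * π * ε / (k₂ - lam + 1) * l + |Cs|) / 2 := by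
      linarith only [le_abs_self Cs, hs]
    have h5 := mul_le_mul_of_nonneg_left h4 hkl
    have h6 : (k₂ - lam) * (ε / (k₂ - lam + 1)) ≤ ε := by
      rw [mul_div_assoc', div_le_iff₀ (by linarith only [hkl])]
      (clear * - hε; linarith only [hε])
    have h7 := mul_le_mul_of_nonneg_right h6 (mul_nonneg hπ.le hlen)
    have h8 : (k₂ - lam) * ((π * Λ + 2 * π * ε / (k₂ - lam + 1) * l + |Cs|) / 2) =
        (k₂ - lam) * (π * Λ / 2 + |Cs| / 2) + (k₂ - lam) * (ε / (k₂ - lam + 1)) * (π * l) := by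
      ring
    rw [h8] at h5
    linarith only [h5, h7]
  have h4 : π⁻¹ * (Tv + d / 8 * E) ≤
      π⁻¹ * (k * ((1 + g) / 4 * (2 * π * Λ) + (1 + 1 / g) * |Cd|) +
        ((k₂ - lam) * (π * Λ / 2 + |Cs| / 2) + π * ε * l) + dc * (π * l) + Mv +
        ((k₂ - lam) ^ 2 / (4 * (d / 8)) + 4) * Wv + C₁ + 3 * π * (C₁ * (V * l))) :=
    mul_le_mul_of_nonneg_left (by linarith only [hT, h2, h3]) hπi.le
  have h5 : π⁻¹ * (k * ((1 + g) / 4 * (2 * π * Λ) + (1 + 1 / g) * |Cd|) +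
        ((k₂ - lam) * (π * Λ / 2 + |Cs| / 2) + π * ε * l) + dc * (π * l) + Mv +
        ((k₂ - lam) ^ 2 / (4 * (d / 8)) + 4) * Wv + C₁ + 3 * π * (C₁ * (V * l))) =
      (k * (1 + g) + (k₂ - lam)) / 2 * Λ + π⁻¹ * (k * ((1 + 1 / g) * |Cd|)) +
        π⁻¹ * ((k₂ - lam) * (|Cs| / 2)) + (dc + ε) * l + π⁻¹ * Mv +
        π⁻¹ * ((k₂ - lam) ^ 2 / (4 * (d / 8)) + 4) * Wv + π⁻¹ * C₁ + 3 * (C₁ * (V * l)) := by
    field_simp
    ring
  have h6 : (k * (1 + g) + (k₂ - lam)) / 2 * Λ ≤ κ * Λ := by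
    apply mul_le_mul_of_nonneg_right _ hΛ0
    have : k ≤ lam + 3 * d / 8 := by rw [hk]; (clear * -; linarith only [])
    rw [hd] at this hkg hd0
    (clear * - hd hd0 hk hkg; linarith only [hd, hd0, hk, hkg])
  have h7 : 0 ≤ π⁻¹ * (k * ((1 + 1 / g) * |Cd|)) := by (clear * - hk0 hg0; positivity)
  have h8 : 0 ≤ π⁻¹ * ((k₂ - lam) * (|Cs| / 2)) := by (clear * - hkl; positivity)
  have h9 : (|C₃| + π⁻¹ * (k * ((1 + 1 / g) * |Cd|)) + π⁻¹ * ((k₂ - lam) * (|Cs| / 2)) +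
      3 * C₁) * (1 + V * l) =
      |C₃| + π⁻¹ * (k * ((1 + 1 / g) * |Cd|)) + π⁻¹ * ((k₂ - lam) * (|Cs| / 2)) + 3 * C₁ +
      3 * (C₁ * (V * l)) + (|C₃| + π⁻¹ * (k * ((1 + 1 / g) * |Cd|)) +
        π⁻¹ * ((k₂ - lam) * (|Cs| / 2))) * (V * l) := by ring
  have h10 : 0 ≤ (|C₃| + π⁻¹ * (k * ((1 + 1 / g) * |Cd|)) +
      π⁻¹ * ((k₂ - lam) * (|Cs| / 2))) * (V * l) := mul_nonneg (by (clear * - hk0 hg0 hkl; positivity)) hVl
  have h11 := le_abs_self C₃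
  have h13 : π⁻¹ * C₁ ≤ 3 * C₁ := by
    refine mul_le_mul_of_nonneg_right ?_ hC₁0
    rw [inv_le_comm₀ hπ (by norm_num)]
    linarith only [Real.pi_gt_three]
  rw [h5, mul_add] at h4
  rw [h9]
  have h12 : π⁻¹ * (d / 8 * E) = π⁻¹ * (d / 8) * E := by ring
  rw [h12] at h4
  (clear * - hK h4 h6 h10 h11 h13; linarith)

theorem K_oneC {lam k₂ dc κ : ℝ} {u : ℂ} (hu : ‖u‖ = 1) {w : (ℂ → ℂ) → ℂ → ℂ}
    {T Mt : (ℂ → ℂ) → ℝ → ℝ → ℝ}
    (hE3 : ∃ C : ℝ, ∀ (β : ℂ → ℂ) (R a : ℝ), ExtR β R → Real.exp (-1) < a → a < 1 →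
      Real.log (tau a) + 1 ≤ -1 →
      Kf (w β) 1 (-1) (Real.log a) ≤ π⁻¹ * II (Real.log (tau a) + 1) (-1) (T (Xf β a)) + C)
    (hT4 : ∀ (X : ℂ → ℂ) (ξ η : ℝ), T X ξ η ≤ 4)
    (hTc : ∀ (X : ℂ → ℂ) (x₁ x₂ : ℝ), NiceX X x₁ x₂ → CH x₁ x₂ π (T X))
    {adm : (ℂ → ℂ) → ℝ → ℝ → Prop}
    (hadm : ∀ (β : ℂ → ℂ) (R a : ℝ), ExtR β R → 0 < a → a < 1 → Real.log (tau a) + 1 ≤ -1 →
      adm (Xf β a) (Real.log (tau a) + 1) (-1))
    (line : LineC u)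
    (hS : StripIneqC u lam k₂ dc T Mt adm) (h0 : 0 ≤ lam) (h1 : lam ≤ k₂)
    (hκ : k₂ < 2 * κ) : ∃ e C₄ V₀ a₀ : ℝ, 0 < e ∧ 0 ≤ C₄ ∧ 0 < V₀ ∧ a₀ < 1 ∧
      ∀ ε : ℝ, 0 < ε → ∃ C : ℝ, 0 ≤ C ∧
      ∀ (β L : ℂ → ℂ) (R a V : ℝ) (Ω Ω₁ Ω₂ : ℝ → ℝ → ℝ), ExtR β R → IsLog β L → a₀ < a → a < 1 →
      0 ≤ V → V ≤ V₀ → WtF (Real.log (tau a) + 1) (-1) V Ω Ω₁ Ω₂ →
      Kf (w β) 1 (-1) (Real.log a) +
          e * II (Real.log (tau a) + 1) (-1) (fun ξ η => ‖Xf β a (pt ξ η) - (1 + u) / 2‖ ^ 2) ≤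
        κ * (- Real.log (1 - a ^ 2) + (conj u * L a).re) +
          π⁻¹ * II (Real.log (tau a) + 1) (-1) (fun ξ η => Ω ξ η * Mt (Xf β a) ξ η) +
          C₄ * II (Real.log (tau a) + 1) (-1) (fun ξ η => 1 - Ω ξ η) +
          (dc + ε) * (-1 - (Real.log (tau a) + 1)) +
          C * (1 + V * (-1 - (Real.log (tau a) + 1))) := by
  obtain ⟨C₁, hC₁0, hC₁⟩ := hS
  obtain ⟨Cd, hCd⟩ := E1dU hu
  obtain ⟨d, hd⟩ : ∃ d, d = 2 * κ - k₂ := ⟨_, rfl⟩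
  have hd0 : 0 < d := by rw [hd]; (clear * - hκ; linarith only [hκ])
  obtain ⟨V₀, hV₀⟩ : ∃ V₀, V₀ = d / (16 * (C₁ + 1)) := ⟨_, rfl⟩
  have hV₀0 : 0 < V₀ := by rw [hV₀]; (clear * - hd0 hC₁0; positivity)
  have hCV : C₁ * V₀ ≤ d / 16 := by
    have h2 : 16 * (V₀ * (C₁ + 1)) = d := by
      rw [hV₀]
      field_simp
    (clear * - hV₀0 h2; linarith only [hV₀0, h2])
  -- the energy coefficient
  obtain ⟨k, hk⟩ : ∃ k, k = lam + d / 8 + d / 8 + d / 8 := ⟨_, rfl⟩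
  have hk0 : 0 ≤ k := by rw [hk]; (clear * - h0 hκ hd; linarith)
  obtain ⟨g, hg⟩ : ∃ g, g = d / (8 * (k + 1)) := ⟨_, rfl⟩
  have hg0 : 0 < g := by rw [hg]; (clear * - hd0 hk0; positivity)
  have hkg : k * g ≤ d / 8 := by
    have h2 : 8 * (g * (k + 1)) = d := by
      rw [hg]
      (clear * - hk0 hd0; field_simp)
    (clear * - hg0 h2; linarith only [hg0, h2])
  have hkl : 0 ≤ k₂ - lam := by linarith only [h1]
  obtain ⟨C₃, hC₃⟩ := hE3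
  have hπ : 0 < π := Real.pi_pos
  have hπi : 0 < π⁻¹ := inv_pos.mpr hπ
  refine ⟨π⁻¹ * (d / 8), π⁻¹ * ((k₂ - lam) ^ 2 / (4 * (d / 8)) + 4), V₀,
    max (Real.exp (-1)) (1 - Real.exp (-2 * 1)), by positivity, by (clear * - hd0; positivity), hV₀0, ?_, ?_⟩
  · apply max_lt
    · rw [← Real.exp_zero]
      exact Real.exp_lt_exp.mpr (by norm_num)
    · (clear * -; linarith only [Real.exp_pos (-2 * 1)])
  intro ε hε
  obtain ⟨Cs, hCs⟩ := line (2 * π * ε / (k₂ - lam + 1)) (by (clear * - hε h1; positivity))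
  refine ⟨|C₃| + π⁻¹ * (k * ((1 + 1 / g) * |Cd|)) + π⁻¹ * ((k₂ - lam) * (|Cs| / 2)) +
    3 * C₁, by (clear * - hk0 hg0 h1 hC₁0; positivity), ?_⟩
  intro β L R a V Ω Ω₁ Ω₂ hβ hL ha ha1 hV hVV hw
  have hae : Real.exp (-1) < a := lt_of_le_of_lt (le_max_left _ _) ha
  have ha0 : 0 < a := (Real.exp_pos _).trans hae
  have hfar := Pool.Agent.Helper83.EK.tau_far (A := 1) (lt_of_le_of_lt (le_max_right _ _) ha) ha0
    ha1
  have hK := hC₃ β R a hβ hae ha1 hfar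
  have hs := hCs β L R a hβ hL hae ha1 hfar
  have had := hadm β R a hβ ha0 ha1 hfar
  obtain ⟨x₁, hx₁⟩ : ∃ x₁, x₁ = Real.log (tau a) + 1 := ⟨_, rfl⟩
  rw [← hx₁] at hK hfar hw hs had ⊢
  have hx12 : x₁ ≤ -1 := by linarith only [hfar]
  have hxt : Real.log (tau a) < x₁ := by (clear * - hx₁; linarith only [hx₁])
  have hX : NiceX (Xf β a) x₁ (-1) := Pool.Agent.Helper67.EK.E1c hβ ha0 ha1 hxt (by norm_num)
  have hst := hC₁ (Xf β a) x₁ (-1) V (d / 8) Ω Ω₁ Ω₂ hx12 (by positivity) hw hX had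
  have hdd := hCd a ha0 ha1 x₁ (-1) hx₁.ge hx12 le_rfl
  -- the part where the weight is smaller than `1`
  have cT : CH x₁ (-1) π (T (Xf β a)) := hTc _ _ _ hX
  have hsplit : II x₁ (-1) (T (Xf β a)) ≤ II x₁ (-1) (fun ξ η => Ω ξ η * T (Xf β a) ξ η) +
      4 * II x₁ (-1) (fun ξ η => 1 - Ω ξ η) := by
    have c3 : CH x₁ (-1) π (fun ξ η => 4 * (1 - Ω ξ η)) :=
      (CH_const 4).mul (CH.sub (CH_const 1) hw.c0)
    rw [II_eq_IH, II_eq_IH, II_eq_IH, ← IH_const_mul, ← IH_add hx12 hπ.le (hw.c0.mul cT) c3]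
    refine IH_mono hx12 hπ.le cT ((hw.c0.mul cT).add c3) ?_
    intro ξ hξ η hη
    obtain ⟨w0, w1⟩ := hw.b01 ξ hξ η hη
    have h4 := hT4 (Xf β a) ξ η
    (clear * - w1 h4; nlinarith only [w1, h4])
  have hE1 := around_one hu hx12 hX
  obtain ⟨hE2, hΛ0⟩ := energy_le hu hg0 hβ hL ha0 ha1 hxt hx12 hdd
  have hEn : 0 ≤ II x₁ (-1) (fun ξ η => ‖Xf β a (pt ξ η) - (1 + u) / 2‖ ^ 2) :=
    Pool.Agent.Helper83.EK.II_nonneg hx12 (fun ξ η => by (clear * -; positivity))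
  exact arith hd hd0 hk hk0 hg0 hkg hkl (by (clear * - hx12; linarith only [hx12]) : 0 ≤ -1 - x₁) hC₁0 hV
    ((mul_le_mul_of_nonneg_left hVV hC₁0).trans hCV) hEn hΛ0 hε hE1 hE2 hs hst hsplit hK

end Pool.Agent.Helper69.CKC

end

section

namespace Pool.Agent.Helper39.Area
end Pool.Agent.Helper39.Area
namespace Pool.Agent.Helper52.EK
end Pool.Agent.Helper52.EK
namespace Pool.Agent.Helper69.EK3
end Pool.Agent.Helper69.EK3
namespace Pool.Agent.Helper69.EK7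
end Pool.Agent.Helper69.EK7
namespace Pool.Agent.Helper84.CK
end Pool.Agent.Helper84.CK
namespace Pool.Agent.Helper68.EKC
end Pool.Agent.Helper68.EKC
namespace Pool.Agent.Helper69.CK
end Pool.Agent.Helper69.CK

set_option autoImplicit false

open Complex MeasureTheory Metric Set

open scoped Real ComplexConjugate

namespace Pool.Agent.Helper69.CKC

open Pool.Agent.Helper39.Area Pool.Agent.Helper52.EK Pool.Agent.Helper69.EK3

open Pool.Agent.Helper69.EK7 Pool.Agent.Helper84.CK Pool.Agent.Helper68.EKC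

open Pool.Agent.Helper69.CK

/-- the bounds of Koebe and Bieberbach with an integrable error, on the full strip -/
def DiscF (X : ℂ → ℂ) (x₁ x₂ : ℝ) : Prop :=
  ∃ δ : ℝ → ℝ, Continuous δ ∧ (∀ ξ, 0 ≤ δ ξ) ∧ (∀ ξ ∈ Icc x₁ x₂, δ ξ ≤ 8) ∧
    (∫ ξ in x₁..x₂, δ ξ ≤ 8) ∧ ∀ ξ ∈ Icc x₁ x₂, ∀ η ∈ Icc (0:ℝ) π,
      Real.sin η * ‖X (pt ξ η)‖ ≤ 1 + δ ξ ∧
      ‖dA 1 (X (pt ξ η)) (deriv X (pt ξ η)) (Real.sin η) (Real.cos η)‖ ≤ 4 * (1 + δ ξ) ∧
      ‖dA (-1) (X (pt ξ η)) (deriv X (pt ξ η)) (Real.sin η) (Real.cos η)‖ ≤ 4 * (1 + δ ξ)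

theorem DiscF.X_le {X : ℂ → ℂ} {x₁ x₂ : ℝ} (h : DiscF X x₁ x₂) :
    ∀ ξ ∈ Icc x₁ x₂, ∀ η ∈ Icc (0:ℝ) π, Real.sin η * ‖X (pt ξ η)‖ ≤ 9 := by
  obtain ⟨δ, _, _, h3, _, h5⟩ := h
  intro ξ hξ η hη
  obtain ⟨k1, _, _⟩ := h5 ξ hξ η hη
  (clear * - h3 hξ k1; linarith only [h3 ξ hξ, k1])

theorem DiscF.q_le {X : ℂ → ℂ} {x₁ x₂ : ℝ} (h : DiscF X x₁ x₂) :
    ∀ ξ ∈ Icc x₁ x₂, ∀ η ∈ Icc (0:ℝ) π,
      Real.sin η * ‖deriv X (pt ξ η) / X (pt ξ η)‖ ≤ 38 := by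
  obtain ⟨δ, _, _, h3, _, h5⟩ := h
  intro ξ hξ η hη
  obtain ⟨k1, k2, _⟩ := h5 ξ hξ η hη
  exact sin_q_le (sin_nn' hη) (h3 ξ hξ) k1 k2

theorem discF_Xf (β : ℂ → ℂ) (R a : ℝ) (h : ExtR β R) (ha : 0 < a) (ha1 : a < 1)
    (_hx : Real.log (tau a) + 1 ≤ -1) : DiscF (Xf β a) (Real.log (tau a) + 1) (-1) := by
  obtain ⟨⟨_, _, _, _, _, _⟩, _⟩ := discP_Xf β R a h ha ha1 _hx
  have hc : Continuous (fun ξ : ℝ => 4 * Real.exp ξ + 4 * Real.exp (Real.log (tau a) - ξ)) := by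
    fun_prop
  have h0 : ∀ ξ : ℝ, 0 ≤ 4 * Real.exp ξ + 4 * Real.exp (Real.log (tau a) - ξ) := fun ξ => by
    (clear * -; positivity)
  have h8 : ∀ ξ ∈ Icc (Real.log (tau a) + 1) (-1),
      4 * Real.exp ξ + 4 * Real.exp (Real.log (tau a) - ξ) ≤ 8 := by
    intro ξ hξ
    have h1 : Real.exp ξ ≤ 1 := Real.exp_le_one_iff.2 (by linarith [hξ.2])
    have h2 : Real.exp (Real.log (tau a) - ξ) ≤ 1 := Real.exp_le_one_iff.2 (by (clear * - hξ; linarith only [hξ.1]))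
    linarith only [h1, h2]
  have hI : ∫ ξ in (Real.log (tau a) + 1)..(-1),
      (4 * Real.exp ξ + 4 * Real.exp (Real.log (tau a) - ξ)) ≤ 8 := by
    have i1 : IntervalIntegrable (fun ξ : ℝ => 4 * Real.exp ξ) volume
        (Real.log (tau a) + 1) (-1) :=
      (by fun_prop : Continuous fun ξ : ℝ => 4 * Real.exp ξ).intervalIntegrable _ _
    have i2 : IntervalIntegrable (fun ξ : ℝ => 4 * Real.exp (Real.log (tau a) - ξ)) volume
        (Real.log (tau a) + 1) (-1) :=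
      (by fun_prop : Continuous fun ξ : ℝ => 4 * Real.exp (Real.log (tau a) - ξ)).intervalIntegrable
        _ _
    rw [intervalIntegral.integral_add i1 i2, intervalIntegral.integral_const_mul,
      intervalIntegral.integral_const_mul,
      intervalIntegral.integral_comp_sub_left (fun u => Real.exp u) (Real.log (tau a)),
      integral_exp, integral_exp]
    have e1 : Real.exp (-1) ≤ 1 := Real.exp_le_one_iff.2 (by norm_num)
    have e2 := Real.exp_pos (Real.log (tau a) + 1)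
    have e3 : Real.exp (Real.log (tau a) - (Real.log (tau a) + 1)) ≤ 1 :=
      Real.exp_le_one_iff.2 (by (clear * - ha ha1; linarith))
    have e4 := Real.exp_pos (Real.log (tau a) - -1)
    (clear * - e1 e2 e3 e4; linarith only [e1, e2, e3, e4])
  exact ⟨_, hc, h0, h8, hI, fun ξ hξ η hη => disc_Xf h ha ha1 hξ.1 hξ.2 hη.1 hη.2⟩

theorem MtC_cont_X {M : ℂ → ℂ} (hM : Continuous M) (q : ℂ) (X : ℂ → ℂ) (x₁ x₂ : ℝ)
    (hX : NiceX X x₁ x₂) : CH x₁ x₂ π (MtC M q X) := by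
  have h1 := contF hX.an.continuousOn
  have h2 := contF hX.an.deriv.continuousOn
  have h0 : ∀ p ∈ Icc x₁ x₂ ×ˢ Icc 0 π, X (pt p.1 p.2) ≠ 0 := fun p hp =>
    hX.ne _ (pt_mem hp.1 hp.2)
  have h3 := h2.div h1 h0
  have h4 : ContinuousOn (fun p : ℝ × ℝ => e0 (Real.sin p.2) (Real.cos p.2))
      (Icc x₁ x₂ ×ˢ Icc 0 π) := by
    apply Continuous.continuousOn
    unfold e0
    fun_prop
  have h5 : ContinuousOn (fun p : ℝ × ℝ => mX (X (pt p.1 p.2)) (deriv X (pt p.1 p.2))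
      (Real.sin p.2) (Real.cos p.2)) (Icc x₁ x₂ ×ˢ Icc 0 π) := by
    unfold mX
    exact ((continuousOn_const.add h4).mul
      (((continuousOn_const.mul h1).sub continuousOn_const).add h3)).sub continuousOn_const
  unfold MtC
  exact Complex.continuous_re.comp_continuousOn (((hM.comp_continuousOn h5).mul h4).mul
    ((h1.pow 2).sub continuousOn_const))

end Pool.Agent.Helper69.CKC

end

section

namespace Pool.Agent.Helper39.Area
end Pool.Agent.Helper39.Area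
namespace Pool.Agent.Helper52.EK
end Pool.Agent.Helper52.EK
namespace Pool.Agent.Helper52.CK
end Pool.Agent.Helper52.CK
namespace Pool.Agent.Helper84.CK
end Pool.Agent.Helper84.CK
namespace Pool.Agent.Helper69.CK
end Pool.Agent.Helper69.CK
namespace Pool.Agent.Helper9.EK
end Pool.Agent.Helper9.EK

set_option autoImplicit false

open Complex MeasureTheory Metric Set Filter Topology

open scoped Real ComplexConjugate

namespace Pool.Agent.Helper77.CK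

open Pool.Agent.Helper39.Area Pool.Agent.Helper52.EK Pool.Agent.Helper52.CK

open Pool.Agent.Helper84.CK (WtF)

open Pool.Agent.Helper69.CK (MOk Mh Mt)

open Pool.Agent.Helper9.EK (rotβ)

/-- the bound for the target on the real axis, with a weight -/
def KOneStmt (κ dc : ℝ) (G M : ℂ → ℂ) (q : ℝ) : Prop :=
  ∃ e C V₀ a₀ : ℝ, 0 < e ∧ 0 ≤ C ∧ 0 < V₀ ∧ a₀ < 1 ∧
    ∀ (β : ℂ → ℂ) (R a V : ℝ) (Ω Ω₁ Ω₂ : ℝ → ℝ → ℝ), ExtR β R → a₀ < a → a < 1 →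
    0 ≤ V → V ≤ V₀ → WtF (Real.log (tau a) + 1) (-1) V Ω Ω₁ Ω₂ →
    Kf (wf G β) 1 (-1) (Real.log a) +
        e * II (Real.log (tau a) + 1) (-1) (fun ξ η => ‖Xf β a (pt ξ η) - 1‖ ^ 2) ≤
      κ * Real.log (‖N β a‖ / (1 - a ^ 2)) +
        π⁻¹ * II (Real.log (tau a) + 1) (-1) (fun ξ η => Ω ξ η * Mt M q (Xf β a) ξ η) +
        4 * π⁻¹ * II (Real.log (tau a) + 1) (-1) (fun ξ η => 1 - Ω ξ η) +
        dc * (-1 - (Real.log (tau a) + 1)) +
        C * (1 + V * (-1 - (Real.log (tau a) + 1)))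

/-- the cut-off functions -/
def CutStmt : Prop :=
  ∃ C₀ : ℝ, 0 ≤ C₀ ∧ ∀ K ε A : ℝ, 0 < K → 0 < ε → ∃ s C n₀ : ℝ, 0 < s ∧ s ≤ 1 / 2 ∧ 0 ≤ C ∧
    ∀ n : ℝ, n₀ ≤ n → ∃ W0 : ℂ → ℝ, Cutf (Real.exp (-n)) W0 ∧
      ∀ x θ : ℝ, 0 < x → x ≤ Real.exp (-n) → |θ| ≤ s →
        (∃ W₁ W₂ : ℝ → ℝ → ℝ, WtF (Real.log (tau (Real.exp (-x))) + 1) (-1) K
          (fun ξ η => W0 (Complex.exp (θ * I) * zf (pt ξ η))) W₁ W₂) ∧
        (∀ z : ℂ, W0 (Complex.exp (θ * I) * z) ≠ 0 → ‖z‖ < 1 ∧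
          Real.exp (Real.log (tau (Real.exp (-x))) + 1) < ‖1 - z‖ / ‖1 + z‖ ∧
          ‖1 - z‖ / ‖1 + z‖ ≤ Real.exp (-A)) ∧
        II (Real.log (tau (Real.exp (-x))) + 1) (-1)
            (fun ξ η => 1 - W0 (Complex.exp (θ * I) * zf (pt ξ η))) ≤
          ε * (-Real.log x) + C + C₀ * (-Real.log x - n)

/-- the length of the strip -/
theorem len_le {x : ℝ} (hx : 0 < x) (hx1 : x ≤ 1) :
    -1 - (Real.log (tau (Real.exp (-x))) + 1) ≤ -Real.log x := by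
  have h1 := Pool.Agent.Helper63.CK.tau_ge hx hx1
  have h2 : Real.log (x / 4) ≤ Real.log (tau (Real.exp (-x))) :=
    Real.log_le_log (by (clear * - hx; positivity)) h1
  rw [Real.log_div hx.ne' (by norm_num)] at h2
  have h3 : Real.log 4 ≤ 2 := by
    have h4 : Real.log 4 = 2 * Real.log 2 := by
      rw [show (4:ℝ) = 2 ^ 2 by norm_num, Real.log_pow]
      norm_num
    have h5 := Real.log_two_lt_d9
    (clear * - h4 h5; linarith only [h4, h5])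
  (clear * - h2 h3; linarith only [h2, h3])

theorem tau_far' {x : ℝ} (hx : 0 < x) (hx1 : x ≤ Real.exp (-2)) :
    Real.log (tau (Real.exp (-x))) + 1 ≤ -1 := by
  have h1 := Pool.Agent.Helper63.CK.tau_le hx hx1
  have h2 : 0 < tau (Real.exp (-x)) := by
    have := Pool.Agent.Helper63.CK.tau_ge hx (hx1.trans (by
      rw [Real.exp_le_one_iff]
      norm_num))
    (clear * - hx this; linarith only [hx, this])
  have h3 := Real.log_le_log h2 h1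
  rw [Real.log_exp] at h3
  linarith

theorem exp_m2 : Real.exp (-2) ≤ 1 / 4 := by
  have h1 : Real.exp (-2) = Real.exp (-1) * Real.exp (-1) := by
    rw [← Real.exp_add]
    norm_num
  have h2 : Real.exp (-1) < 0.3678794412 := Real.exp_neg_one_lt_d9
  have h3 := Real.exp_pos (-1)
  rw [h1]
  nlinarith only [h2, h3]

/-- the crude bound -/
theorem crude {G : ℂ → ℂ} {L : ℝ} (hG : GLip G L) : ∃ C : ℝ, 0 ≤ C ∧
    ∀ (β : ℂ → ℂ) (R x : ℝ), ExtR β R → 0 < x → x ≤ Real.exp (-2) →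
      Kf (wf G β) 1 (-1) (-x) ≤ 4 * (-Real.log x) + C := by
  have hG2 := Pool.Agent.Helper84.CK.GLip.two hG
  obtain ⟨C, hC⟩ := Pool.Agent.Helper69.EK7.E3F hG2 1 le_rfl
  refine ⟨|C|, abs_nonneg C, ?_⟩
  intro β R x hβ hx hx1
  have hx2 : x ≤ 1 / 4 := hx1.trans exp_m2
  have ha1 : Real.exp (-x) < 1 := by
    rw [Real.exp_lt_one_iff]
    linarith only [hx]
  have ha : Real.exp (-1) < Real.exp (-x) := Real.exp_lt_exp.2 (by (clear * - hx2; linarith only [hx2]))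
  have hfar := tau_far' hx hx1
  have h1 := hC β R (Real.exp (-x)) hβ ha ha1 hfar
  rw [Real.log_exp] at h1
  have h1' : Kf (wf G β) 1 (-1) (-x) ≤ π⁻¹ * II (Real.log (tau (Real.exp (-x))) + 1) (-1)
      (Pool.Agent.Helper69.EK7.T2 (fun m _ => G m) (Xf β (Real.exp (-x)))) + C := h1
  have hlen := len_le hx (by linarith only [hx2] : x ≤ 1)
  obtain ⟨x₁, hx₁⟩ : ∃ x₁, x₁ = Real.log (tau (Real.exp (-x))) + 1 := ⟨_, rfl⟩
  rw [← hx₁] at h1' hlen hfar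
  have hxt : Real.log (tau (Real.exp (-x))) < x₁ := by linarith only [hx₁]
  have hX : NiceX (Xf β (Real.exp (-x))) x₁ (-1) :=
    Pool.Agent.Helper67.EK.E1c hβ (Real.exp_pos _) ha1 hxt (by norm_num)
  have hT : II x₁ (-1) (Pool.Agent.Helper69.EK7.T2 (fun m _ => G m) (Xf β (Real.exp (-x)))) ≤
      II x₁ (-1) (fun _ _ => 4) := by
    refine Pool.Agent.Helper44.EK.II_mono hfar ?_ ?_ ?_
    · exact Pool.Agent.Helper69.EK7.F3_contOn hG2 hX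
    · exact continuousOn_const
    · intro ξ _ η _
      exact Pool.Agent.Helper84.CK.T2_le4 hG2 _ ξ η
  have h4 : II x₁ (-1) (fun _ _ => (4:ℝ)) = 4 * π * (-1 - x₁) := by
    unfold II
    simp only [intervalIntegral.integral_const, smul_eq_mul]
    ring
  rw [h4] at hT
  have hpi := Real.pi_pos
  have h5 := mul_le_mul_of_nonneg_left hT (inv_pos.2 hpi).le
  have h6 : π⁻¹ * (4 * π * (-1 - x₁)) = 4 * (-1 - x₁) := by
    field_simp
  rw [h6] at h5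
  have h7 := le_abs_self C
  linarith only [hlen, h1', h5, h7]

/-- `log (|N|/(1 - |z|²)) ≥ 0` -/
theorem log_nonneg' {β : ℂ → ℂ} (h : Ext β) {x θ : ℝ} (hx : 0 < x) :
    0 ≤ Real.log (‖N β (ep (-x) θ)‖ / (1 - Real.exp (-2 * x))) := by
  have h1 : ‖ep (-x) θ‖ = Real.exp (-x) := by
    unfold ep
    rw [Complex.norm_exp]
    simp
  have h2 : Real.exp (-x) < 1 := by
    rw [Real.exp_lt_one_iff]
    linarith
  have h3 := Pool.Agent.Helper39.EK.N_ge h (z := ep (-x) θ) (by rw [h1]; exact h2)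
  have h4 : Real.exp (-2 * x) = ‖ep (-x) θ‖ ^ 2 := by
    rw [h1, ← Real.exp_nat_mul]
    congr 1
    push_cast
    ring
  rw [← h4] at h3
  have h5 : 0 < 1 - Real.exp (-2 * x) := by
    rw [h4, h1]
    (clear * - h2; nlinarith only [Real.exp_pos (-x), h2])
  apply Real.log_nonneg
  rw [le_div_iff₀ h5]
  (clear * - h3; linarith only [h3])

/-- **PT from its parts** -/
theorem pt_of {κ dl : ℝ} (hκ : 0 ≤ κ) (hdl : 0 ≤ dl) {G M M' : ℂ → ℂ} {L Mb Lm ε₀ : ℝ}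
    (hG : GLip G L) (hM : MOk M M' Mb Lm ε₀) (hε₀ : 0 < ε₀)
    (hK : KOneStmt κ dl G M (1 + dl / (2 * κ))) (hcut : CutStmt) :
    PTStmt κ dl G (Mh M') := by
  obtain ⟨e, C₁, V₀, a₀, he, hC₁, hV₀, ha₀, hK⟩ := hK
  obtain ⟨Cc, hCc, hconv⟩ := Pool.Agent.Helper69.CK.conv hM (1 + dl / (2 * κ))
  obtain ⟨Ck, hCk, hcut⟩ := hcut
  obtain ⟨Cr, hCr, hcr⟩ := crude hG
  have hpi := Real.pi_pos
  have hpi3 := Real.pi_gt_three
  have hpii : 0 < π⁻¹ := inv_pos.2 hpi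
  refine ⟨4 * π⁻¹ * Ck + 4, by (clear * - hCk; positivity), ?_⟩
  intro ε hε
  obtain ⟨V, hV⟩ : ∃ V, V = min V₀ (ε / (2 * (C₁ + 1))) := ⟨_, rfl⟩
  have hVpos : 0 < V := by
    rw [hV]
    exact lt_min hV₀ (by (clear * - hε hC₁; positivity))
  have hVV : V ≤ V₀ := by rw [hV]; exact min_le_left _ _
  have hCV : C₁ * V ≤ ε / 2 := by
    have h1 : V ≤ ε / (2 * (C₁ + 1)) := by rw [hV]; exact min_le_right _ _
    have h2 : V * (2 * (C₁ + 1)) ≤ ε := by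
      rwa [le_div_iff₀ (by positivity)] at h1
    linarith only [hVpos, h2]
  -- the depth of the upper cut
  obtain ⟨A, hA⟩ : ∃ A : ℝ, 8 * Real.exp (-A) ≤ 1 ∧ 184 * Real.exp (-A) ≤ ε₀ ∧
      π⁻¹ * Cc * Real.exp (-A) ≤ e := by
    have h1 : 0 < min (1 / 8) (min (ε₀ / 184) (e / (π⁻¹ * Cc + 1))) := by (clear * - hε₀ he hCc; positivity)
    refine ⟨-Real.log (min (1 / 8) (min (ε₀ / 184) (e / (π⁻¹ * Cc + 1)))), ?_⟩
    rw [neg_neg, Real.exp_log h1]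
    have m1 := min_le_left (1 / 8 : ℝ) (min (ε₀ / 184) (e / (π⁻¹ * Cc + 1)))
    have m2 := (min_le_right (1 / 8 : ℝ) (min (ε₀ / 184) (e / (π⁻¹ * Cc + 1)))).trans
      (min_le_left _ _)
    have m3 := (min_le_right (1 / 8 : ℝ) (min (ε₀ / 184) (e / (π⁻¹ * Cc + 1)))).trans
      (min_le_right _ _)
    refine ⟨by (clear * - m1; linarith only [m1]), ?_, ?_⟩
    · rw [le_div_iff₀ (by norm_num)] at m2
      (clear * - m2; linarith)
    · have h2 : 0 < π⁻¹ * Cc + 1 := by (clear * - hCc; positivity)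
      rw [le_div_iff₀ h2] at m3
      linarith only [h1, m3]
  obtain ⟨hA1, hA2, hA3⟩ := hA
  obtain ⟨s, C₂, n₀, hs, hs1, hC₂, hcut⟩ := hcut V (ε * π / 8) A hVpos (by positivity)
  -- the first depth
  obtain ⟨n₁, hn₁⟩ : ∃ n₁ : ℝ, ∀ x : ℝ, x ≤ Real.exp (-n₁) → a₀ < Real.exp (-x) := by
    refine ⟨-Real.log (1 - a₀) + 1, ?_⟩
    intro x hx
    have h1 : Real.exp (-(-Real.log (1 - a₀) + 1)) = (1 - a₀) * Real.exp (-1) := by
      rw [neg_add, neg_neg, Real.exp_add, Real.exp_log (by linarith only [ha₀])]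
    rw [h1] at hx
    have h2 : Real.exp (-1) < 1 := by
      rw [Real.exp_lt_one_iff]
      norm_num
    have h3 := Real.add_one_le_exp (-x)
    (clear * - hx h3 ha₀ h2; nlinarith only [ha₀, hx, h2, h3])
  obtain ⟨n₂, hn₂⟩ : ∃ n₂, n₂ = max n₀ n₁ := ⟨_, rfl⟩
  refine ⟨s, (Cr + 4 * |n₂|) + (π⁻¹ * Cc + 4 * π⁻¹ * C₂ + C₁), hs, hs1, by (clear * - hCr hCc hC₂ hC₁; positivity), ?_⟩
  intro n hn
  by_cases hnn : n₂ ≤ n
  · obtain ⟨W0, hW0, hcut⟩ := hcut n ((le_max_left _ _).trans (hn₂ ▸ hnn))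
    refine ⟨W0, hW0, ?_⟩
    intro β R hβ x θ hx hxn hθ
    obtain ⟨⟨W₁, W₂, hWt⟩, hsupp, harea⟩ := hcut x θ hx hxn hθ
    have hx2 : x ≤ Real.exp (-2) := hxn.trans (Real.exp_le_exp.2 (by (clear * - hn; linarith only [hn])))
    have hx4 : x ≤ 1 / 4 := hx2.trans exp_m2
    have ha1 : Real.exp (-x) < 1 := by
      rw [Real.exp_lt_one_iff]
      linarith only [hx]
    have ha0 : a₀ < Real.exp (-x) := hn₁ x (hxn.trans (Real.exp_le_exp.2 (by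
      have := (le_max_right n₀ n₁).trans (hn₂ ▸ hnn)
      linarith only [this])))
    have hfar := tau_far' hx hx2
    have hlen := len_le hx (by linarith only [hx4] : x ≤ 1)
    have hβ' := Pool.Agent.Helper9.EK.rot_ExtR hβ θ
    have k1 := hK (rotβ β θ) R (Real.exp (-x)) V _ W₁ W₂ hβ' ha0 ha1 hVpos.le hVV hWt
    have k2 := hconv (rotβ β θ) R (Real.exp (-x)) A (Real.log (tau (Real.exp (-x))) + 1)
      (fun z => W0 (Complex.exp (θ * I) * z)) hβ' (Real.exp_pos _) ha1 (by linarith only []) hfar hA1 hA2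
      (hW0.cont.comp (continuous_const.mul continuous_id)) (fun z => hW0.nn _)
      (fun z => hW0.le1 _) hsupp
    rw [Real.log_exp, ← Pool.Agent.Helper9.EK.rot_Kf'] at k1
    have e1 : N (rotβ β θ) ((Real.exp (-x) : ℝ) : ℂ) = N β (ep (-x) θ) := by
      rw [Pool.Agent.Helper9.EK.rot_N', Pool.Agent.Helper69.CK.ep_eq]
    have e2 : Real.exp (-x) ^ 2 = Real.exp (-2 * x) := by
      rw [← Real.exp_nat_mul]
      congr 1
      push_cast
      ring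
    rw [e1, e2] at k1
    have e3 := Pool.Agent.Helper69.CK.MM_rot κ dl W0 M' β x θ
    set E := II (Real.log (tau (Real.exp (-x))) + 1) (-1)
      (fun ξ η => ‖Xf (rotβ β θ) (Real.exp (-x)) (pt ξ η) - 1‖ ^ 2) with hE
    set J := ∫ z : ℂ, W0 (Complex.exp (θ * I) * z) * (Mh M' (rotβ β θ) z *
      (kA (rotβ β θ) ((Real.exp (-x) : ℝ) : ℂ) z -
        ((1 + dl / (2 * κ) : ℝ) : ℂ) * omp 0 z ^ 2)).re with hJ
    have hE0 : 0 ≤ E := Pool.Agent.Helper83.EK.II_nonneg hfar (fun ξ η => by (clear * -; positivity))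
    have k3 := (abs_le.mp k2).2
    have k4 := mul_le_mul_of_nonneg_left k3 hpii.le
    rw [e3]
    have k5 : π⁻¹ * Cc * Real.exp (-A) * E ≤ e * E := mul_le_mul_of_nonneg_right hA3 hE0
    have k6 := mul_le_mul_of_nonneg_left harea (by positivity : 0 ≤ 4 * π⁻¹)
    have k7 : 4 * π⁻¹ * (ε * π / 8 * (-Real.log x) + C₂ + Ck * (-Real.log x - n)) =
        ε / 2 * (-Real.log x) + 4 * π⁻¹ * C₂ + 4 * π⁻¹ * Ck * (-Real.log x - n) := by
      field_simp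
      ring
    rw [k7] at k6
    have k8 : dl * (-1 - (Real.log (tau (Real.exp (-x))) + 1)) ≤ dl * (-Real.log x) :=
      mul_le_mul_of_nonneg_left hlen hdl
    have hl0 : 0 ≤ -Real.log x := by
      rw [neg_nonneg]
      exact Real.log_nonpos hx.le (by (clear * - hx4; linarith only [hx4]))
    have k9 : C₁ * (1 + V * (-1 - (Real.log (tau (Real.exp (-x))) + 1))) ≤
        C₁ + ε / 2 * (-Real.log x) := by
      have q1 : C₁ * V * (-1 - (Real.log (tau (Real.exp (-x))) + 1)) ≤ C₁ * V * (-Real.log x) :=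
        mul_le_mul_of_nonneg_left hlen (by (clear * - hC₁ hVpos; positivity))
      have q2 : C₁ * V * (-Real.log x) ≤ ε / 2 * (-Real.log x) :=
        mul_le_mul_of_nonneg_right hCV hl0
      have q3 : C₁ * (1 + V * (-1 - (Real.log (tau (Real.exp (-x))) + 1))) =
          C₁ + C₁ * V * (-1 - (Real.log (tau (Real.exp (-x))) + 1)) := by ring
      linarith only [q1, q2]
    have hln : n ≤ -Real.log x := by
      have := Real.log_le_log hx hxn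
      rw [Real.log_exp] at this
      linarith only [this]
    have k10 : 0 ≤ 4 * (-Real.log x - n) := by linarith only [hln]
    have k11 : 0 ≤ Cr + 4 * |n₂| := by (clear * - hCr; positivity)
    linarith only [k1, k4, k5, k6, k8, k9, k10, k11]
  · push Not at hnn
    refine ⟨fun _ => 0, ⟨continuous_const, fun _ => le_rfl, fun _ => zero_le_one,
      fun z h => absurd rfl h⟩, ?_⟩
    intro β R hβ x θ hx hxn _
    have hx2 : x ≤ Real.exp (-2) := hxn.trans (Real.exp_le_exp.2 (by linarith only [hn]))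
    have hx4 : x ≤ 1 / 4 := hx2.trans exp_m2
    have hβ' := Pool.Agent.Helper9.EK.rot_ExtR hβ θ
    have k1 := hcr (rotβ β θ) R x hβ' hx hx2
    rw [← Pool.Agent.Helper9.EK.rot_Kf'] at k1
    have k2 := log_nonneg' hβ.toExt (x := x) (θ := θ) hx
    have k3 : MM κ dl (fun _ => 0) (Mh M' β) β x θ = 0 := by
      unfold MM
      simp
    have k4 := mul_nonneg hκ k2
    have hl0 : 0 ≤ -Real.log x := by
      rw [neg_nonneg]
      exact Real.log_nonpos hx.le (by (clear * - hx4; linarith only [hx4]))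
    have k5 : 0 ≤ (dl + ε) * (-Real.log x) := by (clear * - hdl hε hl0; positivity)
    have hln : n ≤ -Real.log x := by
      have := Real.log_le_log hx hxn
      rw [Real.log_exp] at this
      linarith only [this]
    have k6 : 0 ≤ 4 * π⁻¹ * Ck * (-Real.log x - n) := mul_nonneg (by positivity) (by linarith only [hln])
    have k7 : 0 ≤ π⁻¹ * Cc + 4 * π⁻¹ * C₂ + C₁ := by (clear * - hCc hC₂ hC₁; positivity)
    have k8 : 4 * n ≤ 4 * |n₂| := by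
      have := le_abs_self n₂
      linarith only [hnn, this]
    rw [k3]
    have k9 : (4 * π⁻¹ * Ck + 4) * (-Real.log x - n) =
        4 * π⁻¹ * Ck * (-Real.log x - n) + 4 * (-Real.log x) - 4 * n := by ring
    rw [k9]
    linarith only [k1, k4, k5, k6, k7, k8]

end Pool.Agent.Helper77.CK

end

section

namespace Pool.Agent.Helper52.EK
end Pool.Agent.Helper52.EK
namespace Pool.Agent.Helper69.EK3
end Pool.Agent.Helper69.EK3
namespace Pool.Agent.Helper69.CKC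
end Pool.Agent.Helper69.CKC

set_option autoImplicit false

open Complex MeasureTheory Metric Set

open scoped Real ComplexConjugate

namespace Pool.Agent.Helper99.CKC

open Pool.Agent.Helper52.EK Pool.Agent.Helper69.EK3

open Pool.Agent.Helper69.CKC (fu)

/-- the direction -/
noncomputable def ud (τ : ℝ) : ℂ := (1 + I * τ) / (1 - I * τ)

/-- the coordinate `x` -/
noncomputable def xu (τ : ℝ) (X : ℂ) : ℂ := conj (ud τ) * (X - (1 + ud τ) / 2)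

/-- the coordinate `w` as a function of `x`, `q` and the angle -/
noncomputable def wx (x q : ℂ) (s c : ℝ) : ℂ := e0 s c + (1 + e0 s c) * (2 * x + q)

section

variable (τ : ℝ)

theorem ne1 : (1 : ℂ) - I * τ ≠ 0 := by
  intro h
  have := congrArg Complex.re h
  simp at this

theorem ne2 : (1 : ℂ) + I * τ ≠ 0 := by
  intro h
  have := congrArg Complex.re h
  simp at this

theorem conj_p : conj ((1 : ℂ) + I * τ) = 1 - I * τ := by
  simp [sub_eq_add_neg]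

theorem conj_m : conj ((1 : ℂ) - I * τ) = 1 + I * τ := by
  simp

theorem conj_ud : conj (ud τ) = (1 - I * τ) / (1 + I * τ) := by
  unfold ud
  rw [map_div₀, conj_p, conj_m]

theorem ud_conj : ud τ * conj (ud τ) = 1 := by
  rw [conj_ud, ud]
  have h1 := ne1 τ
  have h2 := ne2 τ
  field_simp

theorem norm_ud : ‖ud τ‖ = 1 := by
  have h := ud_conj τ
  rw [Complex.mul_conj, Complex.normSq_eq_norm_sq] at h
  have h2 : ‖ud τ‖ ^ 2 = 1 := by exact_mod_cast h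
  nlinarith only [norm_nonneg (ud τ), h2]

theorem one_add_ud : (1 + ud τ) / 2 = 1 / (1 - I * τ) := by
  have h1 := ne1 τ
  unfold ud
  field_simp
  ring

theorem one_add_conj : 1 + conj (ud τ) = 2 / (1 + I * τ) := by
  have h2 := ne2 τ
  rw [conj_ud]
  field_simp
  ring

variable (X : ℂ)

theorem X_eq : X = (1 + ud τ) / 2 + ud τ * xu τ X := by
  unfold xu
  rw [← mul_assoc, ud_conj]
  ring

theorem Xt_eq : (1 - I * τ) * X = 1 + (1 + I * τ) * xu τ X := by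
  have h1 := ne1 τ
  have h2 := ne2 τ
  unfold xu
  rw [one_add_ud, conj_ud]
  field_simp
  ring

theorem fu_eq : fu (ud τ) X = -(xu τ X).re := by
  unfold fu xu
  rw [← Complex.neg_re]
  congr 1
  ring

theorem norm_xu : ‖xu τ X‖ = ‖X - (1 + ud τ) / 2‖ := by
  unfold xu
  rw [norm_mul, RCLike.norm_conj, norm_ud, one_mul]

theorem area_eq : ‖X‖ ^ 2 - X.re = ‖xu τ X‖ ^ 2 + (xu τ X).re := by
  rw [Pool.Agent.Helper69.CKC.area_u (norm_ud τ) X, fu_eq, norm_xu]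
  ring

theorem sq_eq (t : ℂ) : X ^ 2 - (((1 + ud τ) / 2) ^ 2 + ud τ * t) =
    ud τ ^ 2 * (xu τ X ^ 2 + (1 + conj (ud τ)) * xu τ X - conj (ud τ) * t) := by
  have h := ud_conj τ
  have h1 := X_eq τ X
  generalize xu τ X = x at *
  generalize conj (ud τ) = v at *
  generalize ud τ = u at *
  rw [h1]
  linear_combination (-u * x + u * t) * h

variable (Y : ℂ) (s c : ℝ)

theorem dA_eq (σ : ℝ) : conj (ud τ) * dA σ X Y s c = (1 + e0 s c) * (2 * (σ : ℂ) * xu τ X +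
    (σ : ℂ) * (1 + conj (ud τ)) - conj (ud τ) + conj (ud τ) * (Y / X)) + 2 * conj (ud τ) := by
  have h := ud_conj τ
  unfold dA xu
  generalize Y / X = q
  generalize e0 s c = e
  generalize conj (ud τ) = v at *
  generalize ud τ = u at *
  linear_combination (1 + e) * σ * h

end

/-- `A + i B`, the square root of `e₀` -/
theorem e0_sq (s c : ℝ) : e0 s c = ((s : ℂ) + I * c) ^ 2 := by
  unfold e0
  linear_combination (-(s:ℂ) ^ 2 - (c:ℂ) ^ 2) * I_sq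

theorem one_add_e0 {s c : ℝ} (h : s ^ 2 + c ^ 2 = 1) :
    1 + e0 s c = 2 * s * ((s : ℂ) + I * c) := by
  have h1 : (s : ℂ) ^ 2 + (c : ℂ) ^ 2 = 1 := by exact_mod_cast h
  rw [e0_sq]
  linear_combination (c:ℂ) ^ 2 * I_sq - h1

/-- the polynomial of the discs, `p = (s / 2) q` -/
noncomputable def dpol (τ σ : ℝ) (x q : ℂ) (s c : ℝ) : ℝ :=
  4 * (1 + τ ^ 2) - (1 + τ ^ 2) * ‖s * q + 2 * σ * s * x‖ ^ 2 -
    2 * ((s * q + 2 * σ * s * x) * (2 * σ * s * (1 + I * τ) + I * c * (1 + I * τ) ^ 2)).re -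
    4 * s ^ 2 - c ^ 2 * (1 + τ ^ 2) + 4 * σ * τ * s * c

theorem norm_p_sq (τ : ℝ) : ‖(1 : ℂ) + I * τ‖ ^ 2 = 1 + τ ^ 2 := by
  rw [← Complex.normSq_eq_norm_sq, Complex.normSq_apply]
  simp
  ring

theorem dpol_eq (τ : ℝ) {σ : ℝ} (hσ : σ ^ 2 = 1) (X Y : ℂ) {s c : ℝ} (h : s ^ 2 + c ^ 2 = 1) :
    dpol τ σ (xu τ X) (conj (ud τ) * (Y / X)) s c =
      (1 + τ ^ 2) / 4 * (16 - ‖dA σ X Y s c‖ ^ 2) := by
  have h1 : ‖dA σ X Y s c‖ = ‖conj (ud τ) * dA σ X Y s c‖ := by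
    rw [norm_mul, RCLike.norm_conj, norm_ud, one_mul]
  rw [h1, dA_eq, one_add_e0 h]
  generalize xu τ X = x
  generalize conj (ud τ) * (Y / X) = q
  have n2 := ne2 τ
  have n1 := ne1 τ
  have h0 : (s : ℂ) ^ 2 + (c : ℂ) ^ 2 = 1 := by exact_mod_cast h
  obtain ⟨K, hK⟩ : ∃ K : ℂ, K = 2 * σ * s - I * c * (1 - I * τ) := ⟨_, rfl⟩
  obtain ⟨Z, hZ⟩ : ∃ Z : ℂ, Z = s * q + 2 * σ * s * x := ⟨_, rfl⟩
  -- take out the unimodular factor
  have h2 : 2 * (s:ℂ) * ((s : ℂ) + I * c) * (2 * (σ : ℂ) * x + (σ : ℂ) * (1 + conj (ud τ)) -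
      conj (ud τ) + q) + 2 * conj (ud τ) = 2 * (((s : ℂ) + I * c) * (Z + K / (1 + I * τ))) := by
    have h4 : K / (1 + I * τ) = σ * s * (1 + conj (ud τ)) - I * c * conj (ud τ) := by
      rw [one_add_conj, conj_ud, hK]
      field_simp
    rw [h4, hZ]
    generalize conj (ud τ) = v
    have e : (s:ℂ) ^ 2 - I ^ 2 * (c:ℂ) ^ 2 = 1 := by rw [I_sq]; linear_combination h0
    linear_combination (-2 * v) * e
  have h3 : ‖(s : ℂ) + I * c‖ = 1 := by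
    have h5 : ‖(s : ℂ) + I * c‖ ^ 2 = 1 := by
      rw [← Complex.normSq_eq_norm_sq, Complex.normSq_apply]
      simp
      linarith only [h]
    nlinarith only [norm_nonneg ((s : ℂ) + I * c), h5]
  rw [h2, norm_mul, norm_mul, h3, one_mul]
  have h6 : ‖(2:ℂ)‖ = 2 := by simp
  rw [h6]
  have h7 : ‖Z + K / (1 + I * τ)‖ ^ 2 = ‖Z‖ ^ 2 + ‖K / (1 + I * τ)‖ ^ 2 +
      2 * (Z * conj (K / (1 + I * τ))).re := by
    rw [← Complex.normSq_eq_norm_sq, ← Complex.normSq_eq_norm_sq, ← Complex.normSq_eq_norm_sq,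
      Complex.normSq_add]
  have ht : (0:ℝ) < 1 + τ ^ 2 := by (clear * -; positivity)
  have h8 : (1 + τ ^ 2) * ‖K / (1 + I * τ)‖ ^ 2 = 4 * s ^ 2 - 4 * σ * τ * s * c +
      c ^ 2 * (1 + τ ^ 2) := by
    rw [norm_div, div_pow, norm_p_sq, mul_div_cancel₀ _ ht.ne', ← Complex.normSq_eq_norm_sq, hK,
      Complex.normSq_apply]
    simp
    linear_combination 4 * s ^ 2 * hσ
  have h9 : (1 + τ ^ 2) * (Z * conj (K / (1 + I * τ))).re =
      (Z * (2 * σ * s * (1 + I * τ) + I * c * (1 + I * τ) ^ 2)).re := by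
    have h10 : (1 + I * τ) * (1 - I * τ) = (((1 + τ ^ 2 : ℝ)) : ℂ) := by
      push_cast
      linear_combination -(τ:ℂ) ^ 2 * I_sq
    rw [← Complex.re_ofReal_mul, ← h10]
    congr 1
    have h11 : conj K = 2 * σ * s + I * c * (1 + I * τ) := by
      rw [hK]
      simp only [map_sub, map_mul, map_one, conj_ofReal, conj_I, map_ofNat]
      ring
    rw [map_div₀, conj_p, h11]
    field_simp
  unfold dpol
  rw [← hZ]
  have h12 : (1 + τ ^ 2) / 4 * (16 - (2 * ‖Z + K / (1 + I * τ)‖) ^ 2) =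
      4 * (1 + τ ^ 2) - (1 + τ ^ 2) * ‖Z‖ ^ 2 - (1 + τ ^ 2) * ‖K / (1 + I * τ)‖ ^ 2 -
        2 * ((1 + τ ^ 2) * (Z * conj (K / (1 + I * τ))).re) := by
    rw [mul_pow, h7]
    ring
  rw [h12, h8, h9]
  ring

end Pool.Agent.Helper99.CKC

end

section

namespace Pool.EK71
end Pool.EK71
namespace Pool.Agent.Helper52.EK
end Pool.Agent.Helper52.EK
namespace Pool.Agent.Helper2.EK
end Pool.Agent.Helper2.EK
namespace Pool.Agent.Helper69.EK3
end Pool.Agent.Helper69.EK3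
namespace Pool.Agent.Helper71.EK3
end Pool.Agent.Helper71.EK3
namespace Pool.Agent.Helper71.EKC
end Pool.Agent.Helper71.EKC

set_option autoImplicit false

open Complex MeasureTheory Metric Set

open scoped Real ComplexConjugate

namespace Pool.Agent.Helper99.CKC

open Pool.EK71 Pool.Agent.Helper52.EK Pool.Agent.Helper2.EK

open Pool.Agent.Helper69.EK3

open Pool.Agent.Helper71.EK3 (c1_sh)

open Pool.Agent.Helper71.EKC (sb2 e_sb)

/-- `D = A x² + B x + C + E y² + F y + G x y`, `N D ≥ 1 + x² + y²` -/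
structure DC where
  A : ℤ
  B : ℤ
  C : ℤ
  E : ℤ
  F : ℤ
  G : ℤ
  N : ℤ
  hN : 0 < N
  h1 : 1 < N * A
  h2 : 0 < 4 * (N * A - 1) * (N * E - 1) - (N * G) ^ 2
  h3 : (2 * (N * A - 1) * (N * F) - N * B * (N * G)) ^ 2 ≤
    (4 * (N * A - 1) * (N * E - 1) - (N * G) ^ 2) * (4 * (N * A - 1) * (N * C - 1) - (N * B) ^ 2)

noncomputable def Dc (d : DC) (x y : ℝ) : ℝ :=
  d.A * x ^ 2 + d.B * x + d.C + d.E * y ^ 2 + d.F * y + d.G * (x * y)

theorem Dc_low (d : DC) (x y : ℝ) : 1 + (x ^ 2 + y ^ 2) ≤ d.N * Dc d x y := by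
  have h1 : (1:ℝ) < d.N * d.A := by exact_mod_cast d.h1
  have h2 : (0:ℝ) < 4 * (d.N * d.A - 1) * (d.N * d.E - 1) - (d.N * d.G) ^ 2 := by
    exact_mod_cast d.h2
  have h3 : (2 * (d.N * d.A - 1) * (d.N * d.F) - d.N * d.B * (d.N * d.G) : ℝ) ^ 2 ≤
      (4 * (d.N * d.A - 1) * (d.N * d.E - 1) - (d.N * d.G) ^ 2) *
      (4 * (d.N * d.A - 1) * (d.N * d.C - 1) - (d.N * d.B) ^ 2) := by
    exact_mod_cast d.h3
  unfold Dc
  generalize (d.N : ℝ) = N at *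
  generalize (d.A : ℝ) = A at *
  generalize (d.B : ℝ) = B at *
  generalize (d.C : ℝ) = C at *
  generalize (d.E : ℝ) = E at *
  generalize (d.F : ℝ) = F at *
  generalize (d.G : ℝ) = G at *
  obtain ⟨a, ha⟩ : ∃ a, a = N * A - 1 := ⟨_, rfl⟩
  obtain ⟨b, hb⟩ : ∃ b, b = N * B := ⟨_, rfl⟩
  obtain ⟨c, hc⟩ : ∃ c, c = N * C - 1 := ⟨_, rfl⟩
  obtain ⟨e, he⟩ : ∃ e, e = N * E - 1 := ⟨_, rfl⟩
  obtain ⟨f, hf⟩ : ∃ f, f = N * F := ⟨_, rfl⟩
  obtain ⟨g, hg⟩ : ∃ g, g = N * G := ⟨_, rfl⟩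
  rw [← ha, ← he, ← hg] at h2
  rw [← ha, ← hb, ← hc, ← he, ← hf, ← hg] at h3
  have ha0 : 0 < a := by rw [ha]; linarith only [h1]
  have key : 0 ≤ a * x ^ 2 + b * x + c + e * y ^ 2 + f * y + g * (x * y) := by
    obtain ⟨Q, hQ⟩ : ∃ Q, Q = a * x ^ 2 + b * x + c + e * y ^ 2 + f * y + g * (x * y) := ⟨_, rfl⟩
    have e1 : 4 * a * (4 * a * e - g ^ 2) * Q = (4 * a * e - g ^ 2) * (2 * a * x + g * y + b) ^ 2 +
        (((4 * a * e - g ^ 2) * y + (2 * a * f - b * g)) ^ 2 + ((4 * a * e - g ^ 2) *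
          (4 * a * c - b ^ 2) - (2 * a * f - b * g) ^ 2)) := by
      rw [hQ]
      ring
    have e2 : 0 ≤ 4 * a * (4 * a * e - g ^ 2) * Q := by
      rw [e1]
      have := mul_nonneg h2.le (sq_nonneg (2 * a * x + g * y + b))
      (clear * - h3 h2; nlinarith only [h3, h2])
    rw [← hQ]
    have e3 : 0 < 4 * a * (4 * a * e - g ^ 2) := by (clear * - ha0 h2; positivity)
    exact nonneg_of_mul_nonneg_right e2 e3
  have e4 : N * (A * x ^ 2 + B * x + C + E * y ^ 2 + F * y + G * (x * y)) -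
      (1 + (x ^ 2 + y ^ 2)) = a * x ^ 2 + b * x + c + e * y ^ 2 + f * y + g * (x * y) := by
    rw [ha, hb, hc, he, hf, hg]
    ring
  (clear * - key e4; linarith)

theorem Dc_pos (d : DC) (x y : ℝ) : 0 < Dc d x y := by
  have h1 := Dc_low d x y
  have hN : (0:ℝ) < d.N := by exact_mod_cast d.hN
  have h2 : 0 < (d.N : ℝ) * Dc d x y := by nlinarith only [h1]
  exact (mul_pos_iff_of_pos_left hN).1 h2

/-- `D` as a polynomial in `(x, y)` -/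
def DcL (d : DC) : BP := [[d.C, d.F, d.E], [d.B, d.G], [d.A]]

def DcX (d : DC) : BP := [[d.B, d.G], [Int.mul 2 d.A]]

def DcY (d : DC) : BP := [[d.F, Int.mul 2 d.E], [d.G]]

theorem e_Dc (x y : ℝ) (d : DC) : ev2 x y (DcL d) = Dc d x y := by
  simp only [ev2, ev1, DcL, Dc]
  ring

theorem e_DcX (x y : ℝ) (d : DC) : ev2 x y (DcX d) = 2 * d.A * x + d.B + d.G * y := by
  simp only [ev2, ev1, DcX, imul_cast']
  push_cast
  ring

theorem e_DcY (x y : ℝ) (d : DC) : ev2 x y (DcY d) = 2 * d.E * y + d.F + d.G * x := by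
  simp only [ev2, ev1, DcY, imul_cast']
  push_cast
  ring

/-- `c1` functions under translation -/
theorem c1_tr {W Wx Wy : ℂ → ℝ} (h : C1f W Wx Wy) (a : ℂ) :
    C1f (fun x => W (x + a)) (fun x => Wx (x + a)) (fun x => Wy (x + a)) := by
  refine ⟨fun x => ?_, h.cx.comp (continuous_id.add continuous_const),
    h.cy.comp (continuous_id.add continuous_const)⟩
  have h1 : HasFDerivAt (fun x : ℂ => x + a) (ContinuousLinearMap.id ℝ ℂ) x :=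
    (hasFDerivAt_id x).add_const a
  have h2 := (h.hd (x + a)).comp x h1
  rwa [ContinuousLinearMap.comp_id] at h2

/-- polynomials of `x` -/
theorem c1_ev (P : BP) : C1f (fun x : ℂ => ev2 x.re x.im P) (fun x => ev2 x.re x.im (dX P))
    (fun x => ev2 x.re x.im (dY P)) := by
  refine c1_congr (c1_tr (c1_sh P) 1) (fun x => ?_) (fun x => ?_) (fun x => ?_) <;> simp

theorem c1_Dc (d : DC) : C1f (fun x => Dc d x.re x.im) (fun x => 2 * d.A * x.re + d.B + d.G * x.im)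
    (fun x => 2 * d.E * x.im + d.F + d.G * x.re) := by
  refine c1_congr (c1_ev (DcL d)) (fun x => ?_) (fun x => ?_) (fun x => ?_)
  · rw [e_Dc]
  · simp [DcL, dX, dx1, sm1, ev2, ev1]
    ring
  · simp [DcL, dY, dyr, dy1, ev2, ev1]
    ring

/-- `A / D^k` -/
theorem c1_divDc (d : DC) {A Ax Ay : ℂ → ℝ} (hA : C1f A Ax Ay) (k : ℕ) :
    C1f (fun x => A x / Dc d x.re x.im ^ k)
      (fun x => (Ax x * Dc d x.re x.im - k * (2 * d.A * x.re + d.B + d.G * x.im) * A x)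
        / (Dc d x.re x.im ^ k * Dc d x.re x.im))
      (fun x => (Ay x * Dc d x.re x.im - k * (2 * d.E * x.im + d.F + d.G * x.re) * A x)
        / (Dc d x.re x.im ^ k * Dc d x.re x.im)) := by
  induction k with
  | zero =>
    refine c1_congr hA ?_ ?_ ?_ <;> intro x
    · simp
    · have := (Dc_pos d x.re x.im).ne'
      field_simp
      simp
    · have := (Dc_pos d x.re x.im).ne'
      field_simp
      simp
  | succ k ih =>
    refine c1_congr (c1_mul ih (c1_inv (c1_Dc d) fun x => (Dc_pos d x.re x.im).ne')) ?_ ?_ ?_ <;>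
      intro x <;> have := (Dc_pos d x.re x.im).ne' <;> push_cast <;> field_simp <;> ring

/-- numerators of the derivatives of `P / D ^ j` -/
def qcX (d : DC) (j : ℕ) (P : BP) : BP :=
  sb2 (mu2 (DcL d) (dX P)) (sm2 (Int.ofNat j) (mu2 (DcX d) P))

def qcY (d : DC) (j : ℕ) (P : BP) : BP :=
  sb2 (mu2 (DcL d) (dY P)) (sm2 (Int.ofNat j) (mu2 (DcY d) P))

/-- `P / D ^ j` at `x` -/
noncomputable def Rc (d : DC) (j : ℕ) (P : BP) (x : ℂ) : ℝ :=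
  ev2 x.re x.im P / Dc d x.re x.im ^ j

theorem qcX_ev (d : DC) (j : ℕ) (P : BP) (x y : ℝ) : ev2 x y (qcX d j P) =
    ev2 x y (dX P) * Dc d x y - j * (2 * d.A * x + d.B + d.G * y) * ev2 x y P := by
  rw [qcX, e_sb, ev2_mu, ev2_sm, ev2_mu, e_Dc, e_DcX, ofNat_cast']
  ring

theorem qcY_ev (d : DC) (j : ℕ) (P : BP) (x y : ℝ) : ev2 x y (qcY d j P) =
    ev2 x y (dY P) * Dc d x y - j * (2 * d.E * y + d.F + d.G * x) * ev2 x y P := by
  rw [qcY, e_sb, ev2_mu, ev2_sm, ev2_mu, e_Dc, e_DcY, ofNat_cast']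
  ring

theorem c1_Rc (d : DC) (j : ℕ) (P : BP) :
    C1f (Rc d j P) (Rc d (j + 1) (qcX d j P)) (Rc d (j + 1) (qcY d j P)) := by
  refine c1_congr (c1_divDc d (c1_ev P) j) (fun x => rfl) (fun x => ?_) (fun x => ?_)
  · unfold Rc
    rw [qcX_ev, pow_succ]
  · unfold Rc
    rw [qcY_ev, pow_succ]

/-- growth -/
theorem Rc_gr (d : DC) (k m : ℕ) (M : BP) (h : dle (2 * k + 2 + m) M = true) :
    ∃ C : ℝ, 0 ≤ C ∧ ∀ (x : ℂ) (S : ℝ), 0 ≤ S → S ≤ 1 → S * ‖x‖ ≤ 10 →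
      S ^ m * |Rc d k M x| ≤ C * (1 + ‖x‖ ^ 2) := by
  have hN : (0:ℝ) < d.N := by exact_mod_cast d.hN
  refine ⟨nr2 M * 11 ^ m * (d.N : ℝ) ^ k, mul_nonneg (mul_nonneg (nr2_nonneg M) (by positivity))
    (by positivity), fun x S hS0 hS1 hSX => ?_⟩
  have e : ‖x‖ ^ 2 = x.re ^ 2 + x.im ^ 2 := by
    rw [← Complex.normSq_eq_norm_sq, Complex.normSq_apply]
    ring
  obtain ⟨T, hT⟩ : ∃ T, T = Real.sqrt (1 + ‖x‖ ^ 2) := ⟨_, rfl⟩
  have hT2 : T ^ 2 = 1 + ‖x‖ ^ 2 := by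
    rw [hT]
    exact Real.sq_sqrt (by (clear * -; positivity))
  have hT0 : 0 ≤ T := by rw [hT]; exact Real.sqrt_nonneg _
  have hT1 : 1 ≤ T := by
    have : (1:ℝ) ^ 2 ≤ T ^ 2 := by rw [hT2]; (clear * -; nlinarith only [])
    exact le_of_sq_le_sq this hT0
  have hT3 : T ≤ 1 + ‖x‖ := by
    refine le_of_sq_le_sq ?_ (by positivity)
    rw [hT2]
    linarith only [norm_nonneg x]
  have hx : |x.re| ≤ T := by
    refine le_of_sq_le_sq ?_ hT0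
    rw [sq_abs, hT2, e]
    (clear * -; nlinarith only [])
  have hy : |x.im| ≤ T := by
    refine le_of_sq_le_sq ?_ hT0
    rw [sq_abs, hT2, e]
    (clear * -; nlinarith only [])
  have h1 := ev2_le' hT1 hx hy _ M h
  have hD : 1 + ‖x‖ ^ 2 ≤ d.N * Dc d x.re x.im := by
    rw [e]
    exact Dc_low d x.re x.im
  have hDp := Dc_pos d x.re x.im
  have hST : S * T ≤ 11 := by
    calc S * T ≤ S * (1 + ‖x‖) := mul_le_mul_of_nonneg_left hT3 hS0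
      _ = S + S * ‖x‖ := by ring
      _ ≤ 11 := by (clear * - hS1 hSX; linarith)
  have hSTm : (S * T) ^ m ≤ 11 ^ m := pow_le_pow_left₀ (mul_nonneg hS0 hT0) hST m
  have hTD : T ^ (2 * k) ≤ (d.N : ℝ) ^ k * Dc d x.re x.im ^ k := by
    rw [pow_mul, hT2, ← mul_pow]
    exact pow_le_pow_left₀ (by (clear * -; positivity)) hD k
  have hn := nr2_nonneg M
  unfold Rc
  rw [abs_div, abs_of_pos (pow_pos hDp k), ← mul_div_assoc, div_le_iff₀ (pow_pos hDp k)]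
  calc S ^ m * |ev2 x.re x.im M| ≤ S ^ m * (nr2 M * T ^ (2 * k + 2 + m)) :=
        mul_le_mul_of_nonneg_left h1 (pow_nonneg hS0 m)
    _ = nr2 M * (S * T) ^ m * T ^ (2 * k) * (1 + ‖x‖ ^ 2) := by
        rw [← hT2, mul_pow]
        ring
    _ ≤ nr2 M * 11 ^ m * ((d.N : ℝ) ^ k * Dc d x.re x.im ^ k) * (1 + ‖x‖ ^ 2) := by
        (clear * - hSTm hn hTD hT1; gcongr)
    _ = nr2 M * 11 ^ m * (d.N : ℝ) ^ k * (1 + ‖x‖ ^ 2) * Dc d x.re x.im ^ k := by ring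

/-- the complex function of one potential -/
noncomputable def HD (d : DC) (k : ℕ) (M1 M2 : BP) (x : ℂ) : ℂ :=
  (Rc d k M1 x : ℂ) + I * (Rc d k M2 x : ℂ)

theorem HD_gr (d : DC) (k m : ℕ) (M1 M2 : BP) (h : dle (2 * k + 2 + m) M1 = true)
    (h' : dle (2 * k + 2 + m) M2 = true) :
    ∃ C : ℝ, 0 ≤ C ∧ ∀ (x : ℂ) (S : ℝ), 0 ≤ S → S ≤ 1 → S * ‖x‖ ≤ 10 →
      S ^ m * ‖HD d k M1 M2 x‖ ≤ C * (1 + ‖x‖ ^ 2) := by
  obtain ⟨C₁, h1, k1⟩ := Rc_gr d k m M1 h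
  obtain ⟨C₂, h2, k2⟩ := Rc_gr d k m M2 h'
  refine ⟨C₁ + C₂, add_nonneg h1 h2, fun x S a1 a2 a3 => ?_⟩
  have e : ‖HD d k M1 M2 x‖ ≤ |Rc d k M1 x| + |Rc d k M2 x| := by
    unfold HD
    refine (norm_add_le _ _).trans (add_le_add ?_ ?_)
    · rw [norm_real, Real.norm_eq_abs]
    · rw [norm_mul, norm_I, one_mul, norm_real, Real.norm_eq_abs]
  have h3 := mul_le_mul_of_nonneg_left e (pow_nonneg a1 m)
  have h4 := k1 x S a1 a2 a3
  have h5 := k2 x S a1 a2 a3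
  rw [mul_add] at h3
  rw [add_mul]
  linarith only [h3, h4, h5]

end Pool.Agent.Helper99.CKC

end

section

namespace Pool.Agent.Helper52.EK
end Pool.Agent.Helper52.EK
namespace Pool.Agent.Helper69.EK3
end Pool.Agent.Helper69.EK3
namespace Pool.Agent.Helper69.EK7
end Pool.Agent.Helper69.EK7
namespace Pool.Agent.Helper84.CK
end Pool.Agent.Helper84.CK

set_option autoImplicit false

open Complex MeasureTheory Metric Set

open scoped Real ComplexConjugate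

namespace Pool.Agent.Helper69.CKC

open Pool.Agent.Helper52.EK Pool.Agent.Helper69.EK3 Pool.Agent.Helper69.EK7

open Pool.Agent.Helper84.CK

variable {P : (ℂ → ℂ) → ℝ → ℝ → Prop}

/-- the primitive of a function with zero mean vanishes on the sides -/
theorem prim_bound {β : ℝ → ℝ} (hβ : Continuous β) (hβ0 : ∫ η in (0:ℝ)..π, β η = 0) :
    ∃ K : ℝ, 0 ≤ K ∧ ∀ η ∈ Icc (0:ℝ) π, |∫ t in (0:ℝ)..η, β t| ≤ K * Real.sin η := by
  have hpi := Real.pi_pos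
  obtain ⟨M, hM⟩ := (isCompact_Icc (a := (0:ℝ)) (b := π)).exists_bound_of_continuousOn
    hβ.continuousOn
  have hM0 : 0 ≤ M := (norm_nonneg _).trans (hM 0 ⟨le_rfl, hpi.le⟩)
  have hint : ∀ a b : ℝ, IntervalIntegrable β volume a b := fun a b => hβ.intervalIntegrable a b
  refine ⟨M * (π / 2), by (clear * - hM0; positivity), ?_⟩
  intro η hη
  by_cases h : η ≤ π / 2
  · have h1 : ‖∫ t in (0:ℝ)..η, β t‖ ≤ M * |η - 0| := by
      refine intervalIntegral.norm_integral_le_of_norm_le_const fun t ht => hM t ?_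
      rw [uIoc_of_le hη.1] at ht
      exact ⟨ht.1.le, ht.2.trans hη.2⟩
    rw [Real.norm_eq_abs, sub_zero, abs_of_nonneg hη.1] at h1
    have h2 := Real.mul_le_sin hη.1 h
    have h3 : η ≤ π / 2 * Real.sin η := by
      have := mul_le_mul_of_nonneg_left h2 (by (clear * -; positivity) : 0 ≤ π / 2)
      have e : π / 2 * (2 / π * η) = η := by (clear * -; field_simp)
      rwa [e] at this
    have := mul_le_mul_of_nonneg_left h3 hM0
    linarith only [h1, this]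
  · push Not at h
    have e0 : ∫ t in (0:ℝ)..η, β t = - ∫ t in η..π, β t := by
      have := intervalIntegral.integral_add_adjacent_intervals (hint 0 η) (hint η π)
      (clear * - hβ0 this; linarith only [hβ0, this])
    have h1 : ‖∫ t in η..π, β t‖ ≤ M * |π - η| := by
      refine intervalIntegral.norm_integral_le_of_norm_le_const fun t ht => hM t ?_
      rw [uIoc_of_le hη.2] at ht
      exact ⟨hη.1.trans ht.1.le, ht.2⟩
    rw [Real.norm_eq_abs, abs_of_nonneg (by (clear * - hη; linarith only [hη.2]) : 0 ≤ π - η)] at h1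
    have h2 := Real.mul_le_sin (by (clear * - hη; linarith only [hη.2]) : 0 ≤ π - η) (by (clear * - h; linarith only [h]))
    rw [Real.sin_pi_sub] at h2
    have h3 : π - η ≤ π / 2 * Real.sin η := by
      have := mul_le_mul_of_nonneg_left h2 (by positivity : 0 ≤ π / 2)
      have e : π / 2 * (2 / π * (π - η)) = π - η := by (clear * -; field_simp)
      rwa [e] at this
    rw [e0, abs_neg]
    have := mul_le_mul_of_nonneg_left h3 hM0
    (clear * - h1 this; linarith)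

/-- **analytic terms** -/
theorem isNullC_F {F F₁ : ℂ → ℂ} (hF : ∀ z, HasDerivAt F (F₁ z) z) (hF₁ : Continuous F₁)
    {β : ℝ → ℝ} (hβ : Continuous β) (hβ0 : ∫ η in (0:ℝ)..π, β η = 0) {C : ℝ}
    (hC : ∀ z, ‖F z‖ ≤ C * (1 + ‖z - 1‖ ^ 2)) :
    IsNullC P (fun X _ξ η => β η * (F (X (pt _ξ η))).re) := by
  obtain ⟨K, hK, hKb⟩ := prim_bound hβ hβ0
  have hFc : Continuous F := continuous_iff_continuousAt.2 fun z => (hF z).continuousAt
  have hb : ∀ η : ℝ, HasDerivAt (fun η => ∫ t in (0:ℝ)..η, β t) (β η) η := fun η =>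
    intervalIntegral.integral_hasDerivAt_right (hβ.intervalIntegrable _ _)
      (hβ.stronglyMeasurableAtFilter _ _) hβ.continuousAt
  set b : ℝ → ℝ := fun η => ∫ t in (0:ℝ)..η, β t with hbd
  have cb : Continuous b := continuous_iff_continuousAt.2 fun t => (hb t).continuousAt
  have b0 : b 0 = 0 := by simp [hbd]
  have bpi : b π = 0 := hβ0
  have hC0 : 0 ≤ C := by
    have h1 := hC 1
    have h2 := norm_nonneg (F 1)
    simp only [sub_self, norm_zero] at h1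
    (clear * - h2 h1; linarith only [h2, h1])
  have cX : ∀ (X : ℂ → ℂ) (x₁ x₂ : ℝ), NiceX X x₁ x₂ →
      ContinuousOn (fun p : ℝ × ℝ => X (pt p.1 p.2)) (Icc x₁ x₂ ×ˢ Icc 0 π) :=
    fun X x₁ x₂ hX => contF hX.an.continuousOn
  have cD : ∀ (X : ℂ → ℂ) (x₁ x₂ : ℝ), NiceX X x₁ x₂ →
      ContinuousOn (fun p : ℝ × ℝ => deriv X (pt p.1 p.2)) (Icc x₁ x₂ ×ˢ Icc 0 π) :=
    fun X x₁ x₂ hX => contF hX.an.deriv.continuousOn
  have cbp : ∀ x₁ x₂ : ℝ, ContinuousOn (fun p : ℝ × ℝ => b p.2) (Icc x₁ x₂ ×ˢ Icc 0 π) :=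
    fun _ _ => (cb.comp continuous_snd).continuousOn
  have cβp : ∀ x₁ x₂ : ℝ, ContinuousOn (fun p : ℝ × ℝ => β p.2) (Icc x₁ x₂ ×ˢ Icc 0 π) :=
    fun _ _ => (hβ.comp continuous_snd).continuousOn
  have bnd : ∀ (X : ℂ → ℂ) (ξ η : ℝ) (t : ℝ), |t| ≤ ‖F (X (pt ξ η))‖ → η ∈ Icc (0:ℝ) π →
      |b η * t| ≤ K * C * Real.sin η * (1 + ‖X (pt ξ η) - 1‖ ^ 2) := by
    intro X ξ η t ht hη
    rw [abs_mul]
    have h1 := hKb η hη
    have h2 := ht.trans (hC _)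
    have h3 := mul_le_mul h1 h2 (abs_nonneg _) (mul_nonneg hK (sin_nn' hη))
    linarith only [h3]
  have N1 := isNullC_eta (P := P) (F := fun X ξ η => b η * (F (X (pt ξ η))).re)
    (F₂ := fun X ξ η => β η * (F (X (pt ξ η))).re -
      b η * (F₁ (X (pt ξ η)) * deriv X (pt ξ η)).im) (C := K * C)
    (fun X x₁ x₂ hX => (cbp x₁ x₂).mul
      (Complex.continuous_re.comp_continuousOn (hFc.comp_continuousOn (cX X x₁ x₂ hX))))
    (fun X x₁ x₂ hX => ((cβp x₁ x₂).mul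
      (Complex.continuous_re.comp_continuousOn (hFc.comp_continuousOn (cX X x₁ x₂ hX)))).sub
      ((cbp x₁ x₂).mul (Complex.continuous_im.comp_continuousOn
        ((hF₁.comp_continuousOn (cX X x₁ x₂ hX)).mul (cD X x₁ x₂ hX)))))
    (by
      intro X x₁ x₂ hX ξ hξ η hη
      have hm := pt_mem hξ hη
      have dX := d_eta (hX.an _ hm).differentiableAt
      have dF := (hF (X (pt ξ η))).comp η dX
      have hd := (hb η).mul (d_re dF)
      refine hd.congr_deriv ?_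
      have e : (F₁ (X (pt ξ η)) * (I * deriv X (pt ξ η))).re =
          -(F₁ (X (pt ξ η)) * deriv X (pt ξ η)).im := by
        rw [← mul_assoc, mul_comm (F₁ _) I, mul_assoc, Complex.I_mul_re]
      simp only [Function.comp_apply, e]
      ring)
    (fun X ξ => by
      simp only [b0, zero_mul])
    (fun X ξ => by
      simp only [bpi, zero_mul])
    (fun X x₁ x₂ hx hX hP ξ hξ η hη => bnd X ξ η _ (abs_re_le_norm _) hη)
  have N2 := isNullC_xi (P := P) (F := fun X ξ η => b η * (F (X (pt ξ η))).im)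
    (F₁ := fun X ξ η => b η * (F₁ (X (pt ξ η)) * deriv X (pt ξ η)).im) (C := K * C)
    (fun X x₁ x₂ hX => (cbp x₁ x₂).mul
      (Complex.continuous_im.comp_continuousOn (hFc.comp_continuousOn (cX X x₁ x₂ hX))))
    (fun X x₁ x₂ hX => (cbp x₁ x₂).mul (Complex.continuous_im.comp_continuousOn
        ((hF₁.comp_continuousOn (cX X x₁ x₂ hX)).mul (cD X x₁ x₂ hX))))
    (by
      intro X x₁ x₂ hX ξ hξ η hη
      have hm := pt_mem hξ hη
      have dX := d_xi (hX.an _ hm).differentiableAt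
      have dF := (hF (X (pt ξ η))).comp ξ dX
      exact (d_im dF).const_mul (b η))
    (fun X x₁ x₂ hx hX hP ξ hξ η hη => bnd X ξ η _ (abs_im_le_norm _) hη)
  exact (N1.add N2).congr fun X ξ η => by ring

/-- **the terms `β(η) Re (c (X - α)ⁿ)`**, `n ≤ 2` -/
theorem isNullC_Hm (c α : ℂ) {n : ℕ} (hn : n ≤ 2) {β : ℝ → ℝ} (hβ : Continuous β)
    (hβ0 : ∫ η in (0:ℝ)..π, β η = 0) :
    IsNullC P (fun X _ξ η => β η * (c * (X (pt _ξ η) - α) ^ n).re) := by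
  refine isNullC_F (F := fun z => c * (z - α) ^ n) (F₁ := fun z => c * (n * (z - α) ^ (n - 1) * 1))
    (C := ‖c‖ * (3 + 2 * ‖1 - α‖ ^ 2)) ?_ (by fun_prop) hβ hβ0 ?_
  · intro z
    exact (((hasDerivAt_id z).sub_const α).pow n).const_mul c
  · intro z
    rw [norm_mul, norm_pow, mul_assoc]
    refine mul_le_mul_of_nonneg_left ?_ (norm_nonneg c)
    have h1 : ‖z - α‖ ≤ ‖z - 1‖ + ‖1 - α‖ := by
      have := norm_add_le (z - 1) (1 - α)
      rwa [sub_add_sub_cancel] at this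
    have h2 := norm_nonneg (z - α)
    have h3 := norm_nonneg (z - 1)
    have h4 := norm_nonneg (1 - α)
    generalize ‖z - α‖ = x at *
    generalize ‖z - 1‖ = y at *
    generalize ‖1 - α‖ = w at *
    have h5 : x ^ 2 ≤ 2 * y ^ 2 + 2 * w ^ 2 := by nlinarith only [sq_nonneg (y - w), h2, h1]
    have h6 : x ≤ 1 + x ^ 2 := by (clear * -; nlinarith only [])
    have h7 : 0 ≤ w ^ 2 * y ^ 2 := by positivity
    interval_cases n
    · simp only [pow_zero]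
      (clear * -; nlinarith only [])
    · simp only [pow_one]
      (clear * - h5 h6; nlinarith only [h5, h6])
    · nlinarith only [h5]

end Pool.Agent.Helper69.CKC

end

section

namespace Pool.Sos71
end Pool.Sos71
namespace Pool.EK71
end Pool.EK71
namespace Pool.Agent.Helper52.EK
end Pool.Agent.Helper52.EK
namespace Pool.Agent.Helper69.EK3
end Pool.Agent.Helper69.EK3
namespace Pool.Agent.Helper69.EK7
end Pool.Agent.Helper69.EK7
namespace Pool.Agent.Helper69.CKC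
end Pool.Agent.Helper69.CKC
namespace Pool.Agent.Helper84.CK
end Pool.Agent.Helper84.CK

set_option autoImplicit false

open Complex MeasureTheory Metric Set

open scoped Real ComplexConjugate

namespace Pool.Agent.Helper99.CKC

open Pool.Sos71 Pool.EK71

open Pool.Agent.Helper52.EK Pool.Agent.Helper69.EK3 Pool.Agent.Helper69.EK7

open Pool.Agent.Helper69.CKC Pool.Agent.Helper84.CK

/-- equality on the strip suffices -/
theorem IsNullC.congrOn {P : (ℂ → ℂ) → ℝ → ℝ → Prop} {N N' : (ℂ → ℂ) → ℝ → ℝ → ℝ}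
    (h : IsNullC P N)
    (hN : ∀ (X : ℂ → ℂ) (x₁ x₂ : ℝ), NiceX X x₁ x₂ → ∀ ξ ∈ Icc x₁ x₂, ∀ η ∈ Icc (0:ℝ) π,
      N' X ξ η = N X ξ η) : IsNullC P N' := by
  refine ⟨fun X x₁ x₂ hX => (h.cN X x₁ x₂ hX).congr fun p hp => hN X x₁ x₂ hX _ hp.1 _ hp.2, ?_⟩
  obtain ⟨C, hC⟩ := h.le
  refine ⟨C, fun X x₁ x₂ V Ω Ω₁ Ω₂ hx hw hX hP => ?_⟩
  have h1 := hC X x₁ x₂ V Ω Ω₁ Ω₂ hx hw hX hP
  have e : IH x₁ x₂ π (fun ξ η => Ω ξ η * N' X ξ η) =
      IH x₁ x₂ π (fun ξ η => Ω ξ η * N X ξ η) := by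
    unfold IH
    refine intervalIntegral.integral_congr fun ξ hξ => ?_
    rw [uIcc_of_le hx] at hξ
    refine intervalIntegral.integral_congr fun η hη => ?_
    rw [uIcc_of_le Real.pi_pos.le] at hη
    simp only
    rw [hN X x₁ x₂ hX ξ hξ η hη]
  rwa [e]

/-- a complex function of class `C¹` in the plane, with its partial derivatives -/
structure C1x (H H1 H2 : ℂ → ℂ) : Prop where
  hd : ∀ x : ℂ, HasFDerivAt H (reCLM.smulRight (H1 x) + imCLM.smulRight (H2 x)) x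
  cx : Continuous H1
  cy : Continuous H2

/-- composition with an affine map -/
theorem C1x.affine {H H1 H2 : ℂ → ℂ} (h : C1x H H1 H2) (c b m : ℂ) :
    C1c (fun X => c * H (b * (X - m)))
      (fun X => c * (H1 (b * (X - m)) * (b.re : ℂ) + H2 (b * (X - m)) * (b.im : ℂ)))
      (fun X => c * (H2 (b * (X - m)) * (b.re : ℂ) - H1 (b * (X - m)) * (b.im : ℂ))) := by
  have ca : Continuous fun X : ℂ => b * (X - m) := by fun_prop
  have c1 := h.cx.comp ca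
  have c2 := h.cy.comp ca
  refine ⟨fun X _ => ?_, ?_, ?_⟩
  · have h0 : HasFDerivAt (fun X : ℂ => b * (X - m)) (b • ContinuousLinearMap.id ℝ ℂ) X :=
      ((hasFDerivAt_id X).sub_const m).const_mul b
    have h1 := ((h.hd (b * (X - m))).comp X h0).const_mul c
    refine h1.congr_fderiv ?_
    ext v
    simp only [_root_.add_apply, ContinuousLinearMap.smulRight_apply, reCLM_apply, imCLM_apply,
      _root_.smul_apply, ContinuousLinearMap.comp_apply,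
      ContinuousLinearMap.id_apply, smul_eq_mul, real_smul, mul_re, mul_im, ofReal_sub,
      ofReal_add, ofReal_mul]
    ring
  · exact (continuous_const.mul ((c1.mul continuous_const).add
      (c2.mul continuous_const))).continuousOn
  · exact (continuous_const.mul ((c2.mul continuous_const).sub
      (c1.mul continuous_const))).continuousOn

theorem c1x_HD (d : DC) (k : ℕ) (M1 M2 : BP) : C1x (HD d k M1 M2)
    (HD d (k + 1) (qcX d k M1) (qcX d k M2)) (HD d (k + 1) (qcY d k M1) (qcY d k M2)) := by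
  have h1 := c1_Rc d k M1
  have h2 := c1_Rc d k M2
  have r1 := Complex.continuous_ofReal.comp h1.cx
  have r2 := Complex.continuous_ofReal.comp h2.cx
  have r3 := Complex.continuous_ofReal.comp h1.cy
  have r4 := Complex.continuous_ofReal.comp h2.cy
  refine ⟨fun x => ?_, r1.add (continuous_const.mul r2), r3.add (continuous_const.mul r4)⟩
  have k1 := ofRealCLM.hasFDerivAt.comp x (h1.hd x)
  have k2 := (ofRealCLM.hasFDerivAt.comp x (h2.hd x)).const_mul I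
  refine (k1.add k2).congr_fderiv ?_
  ext v
  simp [HD]
  ring

/-- the integrand of the potential `a(η) (1 + i τ) H(x) q^j` -/
noncomputable def NP (τ : ℝ) (j : ℕ) (a a₁ : ℝ) (H H1 H2 : ℂ) (x q : ℂ) : ℝ :=
  (q ^ j * (I * (1 + I * τ) * a₁ * H + a * (H1 + I * H2) * conj (q * (1 + (1 + I * τ) * x)))).re

theorem one_sub_alpha (τ : ℝ) : ‖(1 : ℂ) - (1 + ud τ) / 2‖ ≤ 1 := by
  have e : (1 : ℂ) - (1 + ud τ) / 2 = (1 - ud τ) / 2 := by ring
  have h := norm_sub_le 1 (ud τ)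
  rw [norm_one, norm_ud] at h
  rw [e, norm_div]
  have h2 : ‖(2:ℂ)‖ = 2 := by simp
  rw [h2]
  linarith only [h]

theorem norm_alpha (τ : ℝ) : ‖(1 + ud τ) / 2‖ ≤ 1 := by
  have h := norm_add_le 1 (ud τ)
  rw [norm_one, norm_ud] at h
  rw [norm_div]
  have h2 : ‖(2:ℂ)‖ = 2 := by simp
  rw [h2]
  linarith

/-- the bounds of the class -/
theorem discF_bd {X : ℂ → ℂ} {x₁ x₂ : ℝ} (hP : DiscF X x₁ x₂) {ξ η : ℝ} (hξ : ξ ∈ Icc x₁ x₂)
    (hη : η ∈ Icc (0:ℝ) π) (τ : ℝ) :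
    Real.sin η * ‖xu τ (X (pt ξ η))‖ ≤ 10 ∧
      Real.sin η * ‖conj (ud τ) * (deriv X (pt ξ η) / X (pt ξ η))‖ ≤ 38 ∧
      ‖xu τ (X (pt ξ η))‖ ≤ ‖X (pt ξ η) - 1‖ + 1 := by
  have q9 := hP.X_le ξ hξ η hη
  have q38 := hP.q_le ξ hξ η hη
  have hs := sin_nn' hη
  have hs1 := Real.sin_le_one η
  have h1 := norm_alpha τ
  have h2 := one_sub_alpha τ
  refine ⟨?_, ?_, ?_⟩
  · rw [norm_xu]
    have h3 := norm_sub_le (X (pt ξ η)) ((1 + ud τ) / 2)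
    calc Real.sin η * ‖X (pt ξ η) - (1 + ud τ) / 2‖ ≤ Real.sin η * (‖X (pt ξ η)‖ + 1) :=
          mul_le_mul_of_nonneg_left (by (clear * - h1 h3; linarith)) hs
      _ = Real.sin η * ‖X (pt ξ η)‖ + Real.sin η := by ring
      _ ≤ 10 := by linarith only [q9, hs1]
  · rw [norm_mul, RCLike.norm_conj, norm_ud, one_mul]
    exact q38
  · rw [norm_xu]
    have e : X (pt ξ η) - (1 + ud τ) / 2 = (X (pt ξ η) - 1) + (1 - (1 + ud τ) / 2) := by ring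
    rw [e]
    exact (norm_add_le _ _).trans (by (clear * - h2; linarith only [h2]))

/-- **the null Lagrangian of a potential** -/
theorem isNull_P {H H1 H2 : ℂ → ℂ} (hH : C1x H H1 H2) (τ : ℝ) (j : ℕ) {a a₁ : ℝ → ℝ}
    (g1 : ∀ η, HasDerivAt a (a₁ η) η) (g1c : Continuous a₁) (f1 : a 0 = 0) (f2 : a π = 0) {C : ℝ}
    (hC : ∀ (x q : ℂ) (η : ℝ), η ∈ Icc (0:ℝ) π → Real.sin η * ‖x‖ ≤ 10 →
      Real.sin η * ‖q‖ ≤ 38 → |a η| * ‖H x‖ * ‖q‖ ^ j ≤ C * Real.sin η * (1 + ‖x‖ ^ 2)) :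
    IsNullC DiscF (fun X ξ η => NP τ j (a η) (a₁ η) (H (xu τ (X (pt ξ η))))
      (H1 (xu τ (X (pt ξ η)))) (H2 (xu τ (X (pt ξ η)))) (xu τ (X (pt ξ η)))
      (conj (ud τ) * (deriv X (pt ξ η) / X (pt ξ η)))) := by
  have n1 := ne1 τ
  have n2 := ne2 τ
  have hu := ud_conj τ
  refine IsNullC.congrOn (isNullC_A (P := DiscF)
    (hH.affine ((1 + I * τ) * conj (ud τ) ^ j) (conj (ud τ)) ((1 + ud τ) / 2))
    (anS_f j 0) anS_one g1 g1c f1 f2 (C := ‖(1:ℂ) + I * τ‖ * |C| * 3) ?_) ?_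
  · intro X x₁ x₂ hx hX hP ξ hξ η hη
    obtain ⟨b1, b2, b3⟩ := discF_bd hP hξ hη τ
    have h1 := hC _ _ η hη b1 b2
    have hs := sin_nn' hη
    unfold FA fG
    rw [norm_mul, norm_mul, norm_mul, norm_mul, norm_mul, norm_mul, norm_real, RCLike.norm_conj,
      norm_one, norm_pow, norm_pow, norm_pow, RCLike.norm_conj, norm_ud, one_pow, pow_zero,
      Real.norm_eq_abs]
    have e1 : H (conj (ud τ) * (X (pt ξ η) - (1 + ud τ) / 2)) = H (xu τ (X (pt ξ η))) := rfl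
    have e2 : ‖qF X (pt ξ η)‖ = ‖conj (ud τ) * (deriv X (pt ξ η) / X (pt ξ η))‖ := by
      rw [norm_mul, RCLike.norm_conj, norm_ud, one_mul]
      rfl
    rw [e1, e2]
    generalize ‖conj (ud τ) * (deriv X (pt ξ η) / X (pt ξ η))‖ = Q at *
    generalize hx' : xu τ (X (pt ξ η)) = x at *
    have hx3 : 1 + ‖x‖ ^ 2 ≤ 3 * (1 + ‖X (pt ξ η) - 1‖ ^ 2) := by
      have h4 : ‖x‖ ^ 2 ≤ (‖X (pt ξ η) - 1‖ + 1) ^ 2 :=
        pow_le_pow_left₀ (norm_nonneg x) b3 2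
      nlinarith only [h4]
    have h5 : |a η| * ‖H x‖ * Q ^ j ≤ |C| * Real.sin η * (3 * (1 + ‖X (pt ξ η) - 1‖ ^ 2)) := by
      refine h1.trans ?_
      have h6 : C * Real.sin η ≤ |C| * Real.sin η :=
        mul_le_mul_of_nonneg_right (le_abs_self C) hs
      exact (mul_le_mul_of_nonneg_right h6 (by (clear * -; positivity))).trans
        (mul_le_mul_of_nonneg_left hx3 (by (clear * - hs; positivity)))
    calc |a η| * (‖(1:ℂ) + I * τ‖ * 1 * ‖H x‖) * (Q ^ j * 1) * 1 =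
        ‖(1:ℂ) + I * τ‖ * (|a η| * ‖H x‖ * Q ^ j) := by ring
      _ ≤ ‖(1:ℂ) + I * τ‖ * (|C| * Real.sin η * (3 * (1 + ‖X (pt ξ η) - 1‖ ^ 2))) :=
        mul_le_mul_of_nonneg_left h5 (norm_nonneg _)
      _ = ‖(1:ℂ) + I * τ‖ * |C| * 3 * Real.sin η * (1 + ‖X (pt ξ η) - 1‖ ^ 2) := by ring
  · intro X x₁ x₂ hX ξ hξ η hη
    have hne := hX.ne _ (pt_mem hξ hη)
    have hd : deriv (fun _ : ℂ => (1:ℂ)) (pt ξ η) = 0 := by simp
    unfold NP NF fG qF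
    have e1 : (conj (ud τ) * (X (pt ξ η) - (1 + ud τ) / 2)) = xu τ (X (pt ξ η)) := rfl
    dsimp only
    rw [hd, e1]
    congr 1
    have e0 := Xt_eq τ (X (pt ξ η))
    generalize hY : deriv X (pt ξ η) = Y
    generalize hX0 : X (pt ξ η) = X0 at *
    generalize xu τ X0 = x at *
    generalize H x = h0
    generalize H1 x = h1
    generalize H2 x = h2
    -- the conjugate of the velocity
    have e2 : conj (conj (ud τ) * (Y / X0) * (1 + (1 + I * τ) * x)) =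
        (1 + I * τ) * (ud τ * conj Y) := by
      rw [← e0, map_mul, map_mul, map_mul, conj_m, Complex.conj_conj, map_div₀]
      have h3 : conj X0 ≠ 0 := by
        intro h
        exact hne ((map_eq_zero _).1 h)
      (clear * - h3 n2; field_simp)
    have e3 : ((conj (ud τ)).re : ℂ) = (ud τ).re := by rw [conj_re]
    have e4 : ((conj (ud τ)).im : ℂ) = -(ud τ).im := by rw [conj_im]; push_cast; ring
    have e5 : ud τ = (ud τ).re + (ud τ).im * I := (re_add_im (ud τ)).symm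
    rw [e2, e3, e4, mul_pow]
    generalize conj (ud τ) ^ j = V
    generalize (Y / X0) ^ j = W
    generalize ha1 : ((a₁ η : ℝ) : ℂ) = α₁
    generalize ha : ((a η : ℝ) : ℂ) = α
    generalize conj Y = Yc
    have e6 : h1 * ((ud τ).re : ℂ) + h2 * -((ud τ).im : ℂ) +
        I * (h2 * ((ud τ).re : ℂ) - h1 * -((ud τ).im : ℂ)) = (h1 + I * h2) * ud τ := by
      conv_rhs => rw [e5]
      linear_combination (-h2 * ((ud τ).im : ℂ)) * I_sq
    have e7 : (1 + I * (τ:ℂ)) * V * (h1 * ((ud τ).re : ℂ) + h2 * -((ud τ).im : ℂ)) +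
        I * ((1 + I * (τ:ℂ)) * V * (h2 * ((ud τ).re : ℂ) - h1 * -((ud τ).im : ℂ))) =
        (1 + I * (τ:ℂ)) * V * ((h1 + I * h2) * ud τ) := by
      rw [← e6]
      ring
    rw [e7]
    simp only [map_one, map_zero, pow_zero]
    ring

/-- the function `N` of `x`, `q`, `η` is a null Lagrangian in the direction `ud τ` -/
def NullX (τ : ℝ) (N : ℂ → ℂ → ℝ → ℝ) : Prop :=
  IsNullC DiscF (fun X ξ η => N (xu τ (X (pt ξ η)))
    (conj (ud τ) * (deriv X (pt ξ η) / X (pt ξ η))) η)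

section

variable {τ : ℝ} {N N' : ℂ → ℂ → ℝ → ℝ}

theorem NullX.add (h : NullX τ N) (h' : NullX τ N') :
    NullX τ (fun x q η => N x q η + N' x q η) := IsNullC.add h h'

theorem NullX.const_mul (h : NullX τ N) (c : ℝ) : NullX τ (fun x q η => c * N x q η) :=
  IsNullC.const_mul h c

theorem NullX.list {ι : Type} (L : List ι) {F : ι → ℂ → ℂ → ℝ → ℝ}
    (h : ∀ i ∈ L, NullX τ (F i)) : NullX τ (fun x q η => (L.map fun i => F i x q η).sum) :=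
  IsNullC.list (N := fun i X ξ η => F i (xu τ (X (pt ξ η)))
    (conj (ud τ) * (deriv X (pt ξ η) / X (pt ξ η))) η) L h

theorem NullX.congr (h : NullX τ N) (hN : ∀ x q η, N' x q η = N x q η) : NullX τ N' := by
  have e : N' = N := by
    funext x q η
    exact hN x q η
  rwa [e]

end

/-- the harmonic terms -/
theorem nullX_Hm (τ : ℝ) (c : ℂ) {n : ℕ} (hn : n ≤ 2) {β : ℝ → ℝ} (hβ : Continuous β)
    (hβ0 : ∫ η in (0:ℝ)..π, β η = 0) : NullX τ (fun x _ η => β η * (c * x ^ n).re) := by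
  unfold NullX
  refine IsNullC.congr (isNullC_Hm (P := DiscF) (c * conj (ud τ) ^ n) ((1 + ud τ) / 2) hn hβ
    hβ0) fun X ξ η => ?_
  unfold xu
  dsimp only
  rw [mul_pow, mul_assoc]

/-- the angular factor `2 (S C)^(w+1) g` -/
noncomputable def aC (w : ℕ) (g : AP) (η : ℝ) : ℝ := 2 * af (ash (w + 1) (w + 1) g) η

/-- its derivative -/
noncomputable def aC1 (w : ℕ) (g : AP) (η : ℝ) : ℝ := af (ader (ash (w + 1) (w + 1) g)) η

theorem hd_aC (w : ℕ) (g : AP) (η : ℝ) : HasDerivAt (aC w g) (aC1 w g η) η := by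
  refine ((af_hasDerivAt (ash (w + 1) (w + 1) g) η).const_mul 2).congr_deriv ?_
  unfold aC1
  ring

theorem aC_eq (w : ℕ) (g : AP) (η : ℝ) :
    aC w g η = 2 * (Real.sin (η / 2) * Real.cos (η / 2)) ^ (w + 1) * af g η := by
  unfold aC af
  rw [aev_ash, mul_pow]
  ring

theorem two_sc (η : ℝ) : 2 * (Real.sin (η / 2) * Real.cos (η / 2)) = Real.sin η := by
  have h := Real.sin_two_mul (η / 2)
  rw [mul_div_cancel₀ η two_ne_zero] at h
  rw [h]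
  ring

theorem aC_zero (w : ℕ) (g : AP) : aC w g 0 = 0 := by
  rw [aC_eq]
  simp

theorem aC_pi (w : ℕ) (g : AP) : aC w g π = 0 := by
  rw [aC_eq, Real.cos_pi_div_two]
  simp

/-- the growth condition of one potential -/
def okC (k : ℕ) (t : AP × BP × BP) : Bool :=
  t.1.all fun s => dle (2 * k + 2 + min s.2.1 s.2.2) t.2.1 &&
    dle (2 * k + 2 + min s.2.1 s.2.2) t.2.2

theorem half_bd {η : ℝ} (hη : η ∈ Icc (0:ℝ) π) :
    0 ≤ Real.sin (η / 2) ∧ Real.sin (η / 2) ≤ 1 ∧ 0 ≤ Real.cos (η / 2) ∧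
      Real.cos (η / 2) ≤ 1 := by
  have hp := Real.pi_pos
  exact ⟨Real.sin_nonneg_of_nonneg_of_le_pi (by linarith only [hη.1]) (by (clear * - hη hp; linarith only [hη.2, hp])),
    Real.sin_le_one _, Real.cos_nonneg_of_neg_pi_div_two_le_of_le
    (by (clear * - hp hη; linarith [hη.1])) (by linarith [hη.2]), Real.cos_le_one _⟩

theorem pow_min_le {S C : ℝ} (hS : 0 ≤ S) (hS1 : S ≤ 1) (hC : 0 ≤ C) (hC1 : C ≤ 1) (i j : ℕ) :
    S ^ i * C ^ j ≤ (S * C) ^ (min i j) := by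
  rw [mul_pow]
  exact mul_le_mul (pow_le_pow_of_le_one hS hS1 (min_le_left i j))
    (pow_le_pow_of_le_one hC hC1 (min_le_right i j)) (pow_nonneg hC j) (pow_nonneg hS _)

theorem HD_grg (d : DC) (k : ℕ) (M1 M2 : BP) (g : AP) (h : okC k (g, M1, M2) = true) :
    ∃ C : ℝ, 0 ≤ C ∧ ∀ (x : ℂ) (η : ℝ), η ∈ Icc (0:ℝ) π → Real.sin η * ‖x‖ ≤ 10 →
      |af g η| * ‖HD d k M1 M2 x‖ ≤ C * (1 + ‖x‖ ^ 2) := by
  induction g with
  | nil =>
    refine ⟨0, le_rfl, fun x η hη _ => ?_⟩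
    simp [af, aev]
  | cons t g ih =>
    obtain ⟨c, i, j⟩ := t
    simp only [okC, List.all_cons, Bool.and_eq_true] at h
    obtain ⟨⟨a1, a2⟩, a3⟩ := h
    obtain ⟨C₁, h1, k1⟩ := ih (by simpa only [okC] using a3)
    obtain ⟨C₂, h2, k2⟩ := HD_gr d k (min i j) M1 M2 a1 a2
    refine ⟨|(c : ℝ)| * C₂ + C₁, by (clear * - h2 h1; positivity), fun x η hη hX => ?_⟩
    obtain ⟨s0, s1, c0, c1⟩ := half_bd hη
    have k3 := k1 x η hη hX
    have e2 := two_sc η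
    have hsc0 : 0 ≤ Real.sin (η / 2) * Real.cos (η / 2) := mul_nonneg s0 c0
    have k4 := k2 x (Real.sin (η / 2) * Real.cos (η / 2)) hsc0
      (mul_le_one₀ s1 c0 c1) (by
        have h5 : 2 * (Real.sin (η / 2) * Real.cos (η / 2)) * ‖x‖ ≤ 10 := by rw [e2]; exact hX
        linarith only [h5])
    have hn := norm_nonneg (HD d k M1 M2 x)
    have e1 : |af ((c, i, j) :: g) η| ≤
        |(c : ℝ)| * (Real.sin (η / 2) * Real.cos (η / 2)) ^ (min i j) + |af g η| := by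
      unfold af
      rw [aev]
      refine (abs_add_le _ _).trans (add_le_add ?_ le_rfl)
      rw [abs_mul, abs_of_nonneg (mul_nonneg (pow_nonneg s0 i) (pow_nonneg c0 j))]
      exact mul_le_mul_of_nonneg_left (pow_min_le s0 s1 c0 c1 i j) (abs_nonneg _)
    have h3 := mul_le_mul_of_nonneg_right e1 hn
    refine h3.trans ?_
    rw [add_mul, add_mul, mul_assoc, mul_assoc]
    exact add_le_add (mul_le_mul_of_nonneg_left k4 (abs_nonneg _)) k3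

/-- the integrand of one potential -/
noncomputable def NPot (d : DC) (τ : ℝ) (j k : ℕ) (t : AP × BP × BP) (x q : ℂ) (η : ℝ) : ℝ :=
  NP τ j (aC j t.1 η) (aC1 j t.1 η) (HD d k t.2.1 t.2.2 x)
    (HD d (k + 1) (qcX d k t.2.1) (qcX d k t.2.2) x)
    (HD d (k + 1) (qcY d k t.2.1) (qcY d k t.2.2) x) x q

theorem nullX_Pot (d : DC) (τ : ℝ) (j k : ℕ) (t : AP × BP × BP) (h : okC k t = true) :
    NullX τ (NPot d τ j k t) := by
  obtain ⟨g, M1, M2⟩ := t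
  obtain ⟨C, hC0, hC⟩ := HD_grg d k M1 M2 g h
  refine isNull_P (c1x_HD d k M1 M2) τ j (hd_aC j g) (af_cont _) (aC_zero j g) (aC_pi j g)
    (C := 38 ^ j * C) ?_
  intro x q η hη hx hq
  obtain ⟨s0, s1, c0, c1⟩ := half_bd hη
  have k1 := hC x η hη hx
  have e2 := two_sc η
  have hsc0 : 0 ≤ Real.sin (η / 2) * Real.cos (η / 2) := mul_nonneg s0 c0
  have hs := sin_nn' hη
  have hq2 : Real.sin (η / 2) * Real.cos (η / 2) * ‖q‖ ≤ 38 := by
    have h5 : 2 * (Real.sin (η / 2) * Real.cos (η / 2)) * ‖q‖ ≤ 38 := by rw [e2]; exact hq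
    (clear * - h5; linarith only [h5])
  have hq3 : (Real.sin (η / 2) * Real.cos (η / 2) * ‖q‖) ^ j ≤ 38 ^ j :=
    pow_le_pow_left₀ (mul_nonneg hsc0 (norm_nonneg q)) hq2 j
  rw [aC_eq, abs_mul, abs_of_nonneg (by (clear * - s0 c0; positivity) :
    (0:ℝ) ≤ 2 * (Real.sin (η / 2) * Real.cos (η / 2)) ^ (j + 1))]
  have e3 : 2 * (Real.sin (η / 2) * Real.cos (η / 2)) ^ (j + 1) * |af g η| *
      ‖HD d k M1 M2 x‖ * ‖q‖ ^ j = Real.sin η *
      ((Real.sin (η / 2) * Real.cos (η / 2) * ‖q‖) ^ j * (|af g η| * ‖HD d k M1 M2 x‖)) := by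
    rw [← e2, mul_pow _ ‖q‖, pow_succ]
    ring
  rw [e3]
  have h7 : 0 ≤ |af g η| * ‖HD d k M1 M2 x‖ := by (clear * -; positivity)
  calc Real.sin η * ((Real.sin (η / 2) * Real.cos (η / 2) * ‖q‖) ^ j *
        (|af g η| * ‖HD d k M1 M2 x‖)) ≤ Real.sin η * (38 ^ j * (C * (1 + ‖x‖ ^ 2))) :=
      mul_le_mul_of_nonneg_left (mul_le_mul hq3 k1 h7 (by positivity)) hs
    _ = 38 ^ j * C * Real.sin η * (1 + ‖x‖ ^ 2) := by ring

/-- groups of potentials with the same `j`, `k` -/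
structure GrC where
  j : ℕ
  k : ℕ
  l : List (AP × BP × BP)

noncomputable def NGr (d : DC) (τ : ℝ) (G : GrC) (x q : ℂ) (η : ℝ) : ℝ :=
  (G.l.map fun t => NPot d τ G.j G.k t x q η).sum

noncomputable def NGs (d : DC) (τ : ℝ) (L : List GrC) (x q : ℂ) (η : ℝ) : ℝ :=
  (L.map fun G => NGr d τ G x q η).sum

def okGs (L : List GrC) : Bool := L.all fun G => G.l.all (okC G.k)

theorem nullX_Gs (d : DC) (τ : ℝ) (L : List GrC) (h : okGs L = true) : NullX τ (NGs d τ L) := by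
  simp only [okGs, List.all_eq_true] at h
  exact NullX.list L fun G hG => NullX.list G.l fun t ht => nullX_Pot d τ G.j G.k t (h G hG t ht)

/-- the value at `S = 1`, `C = 0` -/
def a10 : AP → ℤ
  | [] => 0
  | (c, _, j) :: g => Int.add (if Nat.beq j 0 then c else 0) (a10 g)

/-- the value at `S = 0`, `C = 1` -/
def a01 : AP → ℤ
  | [] => 0
  | (c, i, _) :: g => Int.add (if Nat.beq i 0 then c else 0) (a01 g)

theorem a10_ev (g : AP) : aev 1 0 g = a10 g := by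
  induction g with
  | nil => simp [aev, a10]
  | cons t g ih =>
    obtain ⟨c, i, j⟩ := t
    cases j with
    | zero => simp [aev, a10, ih]
    | succ j => simp [aev, a10, ih]

theorem a01_ev (g : AP) : aev 0 1 g = a01 g := by
  induction g with
  | nil => simp [aev, a01]
  | cons t g ih =>
    obtain ⟨c, i, j⟩ := t
    cases i with
    | zero => simp [aev, a01, ih]
    | succ i => simp [aev, a01, ih]

/-- derivatives of angular polynomials with equal values at the ends have mean zero -/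
theorem int_ader (P : AP) (h : a10 P = a01 P) : ∫ η in (0:ℝ)..π, af (ader P) η = 0 := by
  have h1 := intervalIntegral.integral_eq_sub_of_hasDerivAt
    (f := fun η => 2 * af P η) (f' := fun η => af (ader P) η) (a := 0) (b := π)
    (fun η _ => ((af_hasDerivAt P η).const_mul 2).congr_deriv (by ring))
    ((af_cont _).intervalIntegrable _ _)
  rw [h1]
  unfold af
  rw [Real.sin_pi_div_two, Real.cos_pi_div_two, zero_div, Real.sin_zero, Real.cos_zero, a10_ev,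
    a01_ev, h, sub_self]

/-- a harmonic term: `(P, n, cR, cI)` is `β(η) Re ((cR + i cI) x^n)`, `β = af (ader P)` -/
structure HmC where
  P : AP
  n : ℕ
  cR : ℤ
  cI : ℤ

def HmC.ok (t : HmC) : Bool := Nat.ble t.n 2 && decide (a10 t.P = a01 t.P)

noncomputable def NHm (t : HmC) (x : ℂ) (η : ℝ) : ℝ :=
  af (ader t.P) η * ((((t.cR : ℝ) : ℂ) + I * ((t.cI : ℝ) : ℂ)) * x ^ t.n).re

noncomputable def NHms (L : List HmC) (x _q : ℂ) (η : ℝ) : ℝ := (L.map fun t => NHm t x η).sum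

theorem nullX_Hms (τ : ℝ) (L : List HmC) (h : L.all HmC.ok = true) : NullX τ (NHms L) := by
  simp only [List.all_eq_true] at h
  refine NullX.list L fun t ht => ?_
  have h1 := h t ht
  simp only [HmC.ok, Bool.and_eq_true, decide_eq_true_eq, Nat.ble_eq] at h1
  exact nullX_Hm τ _ h1.1 (af_cont _) (int_ader t.P h1.2)

end Pool.Agent.Helper99.CKC

end
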