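import Pool.Agent.Helper14.CMF.T30
import Pool.Agent.Helper14.CMF.T27
import Pool.Agent.Helper14.CMF.T26
import Pool.Agent.Helper14.CMF.T13
import Pool.Agent.Helper14.CMF.T02
import Pool.Agent.Helper14.CMF.T08
import Pool.Agent.Helper14.CMF.T28
import Pool.Agent.Helper14.CMF.T14
import Pool.Agent.Helper14.CMF.T23
import Pool.Agent.Helper14.CMF.T25
import Pool.Agent.Helper14.CMF.T01
import Pool.Agent.Helper14.CMF.T06

set_option linter.all false

section

namespace Pool.Agent.Helper39.Area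
end Pool.Agent.Helper39.Area
namespace Pool.Agent.Helper52.EK
end Pool.Agent.Helper52.EK
namespace Pool.Agent.Helper52.CK
end Pool.Agent.Helper52.CK
namespace Pool.Agent.Helper69.CK
end Pool.Agent.Helper69.CK

/-!
# CK: PT from the bound for the target on the real axis
-/

set_option autoImplicit false

open Complex MeasureTheory Metric Set Filter Topology

open scoped Real ComplexConjugate

namespace Pool.Agent.Helper77.CK

open Pool.Agent.Helper39.Area Pool.Agent.Helper52.EK Pool.Agent.Helper52.CK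

open Pool.Agent.Helper69.CK (MOk Mh Mt)

/-- **PT** -/
theorem pt {κ dl : ℝ} (hκ : 0 ≤ κ) (hdl : 0 ≤ dl) {G M M' : ℂ → ℂ} {L Mb Lm ε₀ : ℝ}
    (hG : GLip G L) (hM : MOk M M' Mb Lm ε₀) (hε₀ : 0 < ε₀)
    (hK : KOneStmt κ dl G M (1 + dl / (2 * κ))) : PTStmt κ dl G (Mh M') :=
  pt_of hκ hdl hG hM hε₀ hK Pool.Agent.Helper73.CK.cut

end Pool.Agent.Helper77.CK

end

section

namespace Pool.Agent.Helper39.Area
end Pool.Agent.Helper39.Area
namespace Pool.Agent.Helper52.EK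
end Pool.Agent.Helper52.EK
namespace Pool.Agent.Helper9.EK
end Pool.Agent.Helper9.EK

set_option autoImplicit false

open Complex MeasureTheory Metric Set

open scoped Real ComplexConjugate ContDiff

namespace Pool.Agent.Helper52.CK

open Pool.Agent.Helper39.Area Pool.Agent.Helper52.EK Pool.Agent.Helper9.EK

/-- continuity of the term of the multiplier in the target -/
def MContStmt (κ dl : ℝ) : Prop :=
  ∀ (a b : ℝ), 0 < a → a < b → b ≤ 1 / 4 → ∀ (β : ℂ → ℂ) (R : ℝ), ExtR β R →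
    ∀ (W0 : ℂ → ℝ) (Mh : ℂ → ℂ) (Mb : ℝ), Cutf b W0 →
      ContinuousOn Mh {z | 0 < ‖z‖ ∧ ‖z‖ < 1} → (∀ z, ‖Mh z‖ ≤ Mb) →
      ContinuousOn (fun p : ℝ × ℝ => MM κ dl W0 Mh β p.1 p.2) (Icc a b ×ˢ Icc (-(1 / 2)) (1 / 2))

/-- the truncated term -/
noncomputable def Mc (κ dl a b : ℝ) (W0 : ℂ → ℝ) (Mh : ℂ → ℂ) (β : ℂ → ℂ) (x θ : ℝ) : ℝ :=
  MM κ dl W0 Mh β (max a (min x b)) (max (-(1 / 2)) (min θ (1 / 2)))

theorem Mc_cont {κ dl a b : ℝ} (hab : a ≤ b) {W0 : ℂ → ℝ} {Mh : ℂ → ℂ} {β : ℂ → ℂ}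
    (h : ContinuousOn (fun p : ℝ × ℝ => MM κ dl W0 Mh β p.1 p.2)
      (Icc a b ×ˢ Icc (-(1 / 2)) (1 / 2))) :
    Continuous (fun q : ℝ × ℝ => Mc κ dl a b W0 Mh β q.1 q.2) := by
  have h1 : Continuous (fun q : ℝ × ℝ => (max a (min q.1 b), max (-(1 / 2)) (min q.2 (1 / 2)))) := by
    fun_prop
  have h2 : ∀ q : ℝ × ℝ, (max a (min q.1 b), max (-(1 / 2)) (min q.2 (1 / 2))) ∈
      Icc a b ×ˢ Icc (-(1 / 2) : ℝ) (1 / 2) := by
    intro q
    refine Set.mk_mem_prod ?_ ?_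
    · exact ⟨le_max_left _ _, max_le hab (min_le_right _ _)⟩
    · exact ⟨le_max_left _ _, max_le (by norm_num) (min_le_right _ _)⟩
  have h3 := h.comp_continuous h1 h2
  unfold Mc
  exact h3

theorem Mc_eq {κ dl a b : ℝ} {W0 : ℂ → ℝ} {Mh : ℂ → ℂ} {β : ℂ → ℂ} {x θ : ℝ} (hx : a ≤ x)
    (hx2 : x ≤ b) (hθ : |θ| ≤ 1 / 2) : Mc κ dl a b W0 Mh β x θ = MM κ dl W0 Mh β x θ := by
  unfold Mc
  obtain ⟨h1, h2⟩ := abs_le.1 hθ
  rw [min_eq_left hx2, max_eq_right hx, min_eq_left h2, max_eq_right h1]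

section JJs

variable {κ dl n : ℝ} {w : ℝ → ℝ} {u : ℝ → ℝ} {β : ℂ → ℂ} {R : ℝ}

theorem two_pi_mm (l : ℝ) : ∫ θ in (-π)..π, u θ * FF κ β (Real.exp (-l)) θ =
    2 * π * mm κ u β l := by
  have hpi := Real.pi_pos
  unfold mm
  (clear * -; field_simp)

theorem JJ_eq (h : ExtR β R) (cu : Continuous u) (u0 : ∀ θ, 0 ≤ u θ) (hu : 0 < u 0)
    (hn : 0 ≤ n) :
    JJ κ (omw w (κ - 2 + dl)) u (Real.exp (-(2 * n + 2))) (Real.exp (-(n + 2))) β =
      2 * π * ∫ l in n..(2 * n), Real.exp (GG κ dl u β l) * w l := by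
  unfold JJ
  have e1 : (fun x θ => omw w (κ - 2 + dl) x * u θ * FF κ β x θ) =
      fun x θ => omw w (κ - 2 + dl) x * (u θ * FF κ β x θ) := by
    funext x θ
    ring
  rw [e1, RR_omw hn, ← intervalIntegral.integral_const_mul]
  refine intervalIntegral.integral_congr fun l _ => ?_
  rw [two_pi_mm, exp_GG (mm_pos h cu u0 hu _)]
  have e2 : κ - 2 + dl + 1 = κ - 1 + dl := by ring
  rw [e2]
  ring

theorem JD_eq (h : ExtR β R) (cu : Continuous u) (u0 : ∀ θ, 0 ≤ u θ) (hu : 0 < u 0)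
    (hn : 0 ≤ n) :
    RR (Real.exp (-(2 * n + 2))) (Real.exp (-(n + 2))) (fun x θ =>
      |(κ - 2 + dl) * omw w (κ - 2 + dl) x - x * omw' w (κ - 2 + dl) x| * u θ * FF κ β x θ) =
      2 * π * ∫ l in n..(2 * n), Real.exp (GG κ dl u β l) * |deriv w l| := by
  have e1 : (fun x θ => |(κ - 2 + dl) * omw w (κ - 2 + dl) x - x * omw' w (κ - 2 + dl) x| *
      u θ * FF κ β x θ) = fun x θ => |(κ - 2 + dl) * omw w (κ - 2 + dl) x -
      x * omw' w (κ - 2 + dl) x| * (u θ * FF κ β x θ) := by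
    funext x θ
    ring
  rw [e1, RR_omw_abs hn, ← intervalIntegral.integral_const_mul]
  refine intervalIntegral.integral_congr fun l _ => ?_
  rw [two_pi_mm, exp_GG (mm_pos h cu u0 hu _)]
  have e2 : κ - 2 + dl + 1 = κ - 1 + dl := by ring
  rw [e2]
  ring

/-- the angular term is dominated by rotations -/
theorem JU_le {om om' u' : ℝ → ℝ} {a b : ℝ} (h : ExtR β R) (hW : Wt om om' u u' a b)
    {K : ℕ} {Cu : ℝ} (hCu : 0 ≤ Cu)
    (cov : ∀ θ, |u' θ| ≤ Cu * ∑ j ∈ Finset.range K, u (θ + 2 * π * j / K)) :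
    RR a b (fun x θ => om x * |u' θ| * FF κ β x θ) ≤
      Cu * ∑ j ∈ Finset.range K, JJ κ om u a b (rotβ β (-(2 * π * j / K))) := by
  have co : Continuous om := continuous_iff_continuousAt.2 fun x => (hW.dom x).continuousAt
  have cu : Continuous u := continuous_iff_continuousAt.2 fun x => (hW.du x).continuousAt
  have cF := FF_cont κ h hW.a0
  have com : Continuous (fun q : ℝ × ℝ => om (max a q.1)) := by fun_prop
  have h1 : RR a b (fun x θ => om x * |u' θ| * FF κ β x θ) ≤ RR a b (fun x θ =>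
      Cu * ∑ j ∈ Finset.range K, om x * u (θ + 2 * π * j / K) * FF κ β x θ) := by
    refine RR_mono hW.ab.le ?_ ?_ ?_
    · have : Continuous (fun q : ℝ × ℝ => |u' q.2|) := (hW.cu.comp continuous_snd).abs
      exact (com.mul this).mul cF
    · refine continuous_const.mul (continuous_finsetSum _ fun j _ => ?_)
      have : Continuous (fun q : ℝ × ℝ => u (q.2 + 2 * π * j / K)) := by fun_prop
      exact (com.mul this).mul cF
    · intro x θ hx _
      have hF := (FF_pos κ h (hW.a0.trans_le hx) θ).le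
      have hc := cov θ
      have h2 : om x * FF κ β x θ * |u' θ| ≤ om x * FF κ β x θ *
          (Cu * ∑ j ∈ Finset.range K, u (θ + 2 * π * j / K)) :=
        mul_le_mul_of_nonneg_left hc (mul_nonneg (hW.om0 x) hF)
      have e : Cu * ∑ j ∈ Finset.range K, om x * u (θ + 2 * π * j / K) * FF κ β x θ =
          om x * FF κ β x θ * (Cu * ∑ j ∈ Finset.range K, u (θ + 2 * π * j / K)) := by
        rw [Finset.mul_sum, Finset.mul_sum, Finset.mul_sum]
        refine Finset.sum_congr rfl fun j _ => ?_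
        ring
      rw [e]
      calc om x * |u' θ| * FF κ β x θ = om x * FF κ β x θ * |u' θ| := by ring
        _ ≤ _ := h2
  rw [RR_sum hW.ab.le K Cu (F := fun j x θ => om x * u (θ + 2 * π * j / K) * FF κ β x θ)] at h1
  · refine h1.trans (mul_le_mul_of_nonneg_left (Finset.sum_le_sum fun j _ => ?_) hCu)
    refine le_of_eq ?_
    unfold JJ RR
    refine intervalIntegral.integral_congr fun x _ => ?_
    simp only
    have e1 : ∀ θ, om x * u (θ + 2 * π * j / K) * FF κ β x θ =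
        om x * (u (θ + 2 * π * j / K) * FF κ β x θ) := fun θ => by ring
    have e2 : ∀ θ, om x * u θ * FF κ (rotβ β (-(2 * π * j / K))) x θ =
        om x * (u θ * FF κ (rotβ β (-(2 * π * j / K))) x θ) := fun θ => by ring
    simp only [e1, e2]
    rw [intervalIntegral.integral_const_mul, intervalIntegral.integral_const_mul,
      rot_int hW.up]
  · intro j
    have : Continuous (fun q : ℝ × ℝ => u (q.2 + 2 * π * j / K)) := by fun_prop
    exact (com.mul this).mul cF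

end JJs

theorem cont_P (κ q : ℝ) {w : ℝ → ℝ} (cw : Continuous w) {u : ℝ → ℝ} (cu : Continuous u)
    {β : ℂ → ℂ} {R : ℝ} (h : ExtR β R) {Mf : ℝ → ℝ → ℝ}
    (cM : Continuous (fun q : ℝ × ℝ => Mf q.1 q.2)) :
    Continuous (fun l => w l * Real.exp (-(q * (l + 2))) *
      ∫ θ in (-π)..π, u θ * FF κ β (Real.exp (-(l + 2))) θ * Mf (Real.exp (-(l + 2))) θ) := by
  have h1 := FF_comp_cont κ h (g := fun q : ℝ × ℝ => Real.exp (-(q.1 + 2)))
    (k := fun q => q.2) (by fun_prop) (by fun_prop) (fun q => Real.exp_pos _)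
  have h2 : Continuous (fun q : ℝ × ℝ => (Real.exp (-(q.1 + 2)), q.2)) := by fun_prop
  have h3 : Continuous (fun q : ℝ × ℝ => Mf (Real.exp (-(q.1 + 2))) q.2) := cM.comp h2
  have h4 : Continuous (fun q : ℝ × ℝ => u q.2) := cu.comp continuous_snd
  have h5 : Continuous (fun l => ∫ θ in (-π)..π, u θ * FF κ β (Real.exp (-(l + 2))) θ *
      Mf (Real.exp (-(l + 2))) θ) :=
    intervalIntegral.continuous_parametric_intervalIntegral_of_continuous'
      (f := fun l θ => u θ * FF κ β (Real.exp (-(l + 2))) θ * Mf (Real.exp (-(l + 2))) θ)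
      ((h4.mul h1).mul h3) _ _
  have h6 : Continuous (fun l : ℝ => Real.exp (-(q * (l + 2)))) := by fun_prop
  exact (cw.mul h6).mul h5

theorem RM_eq {κ dl n : ℝ} (hn : 0 ≤ n) {w u : ℝ → ℝ} {β : ℂ → ℂ} {Mf Mg : ℝ → ℝ → ℝ} {s : ℝ}
    (us : ∀ θ ∈ Icc (-π) π, u θ ≠ 0 → |θ| ≤ s)
    (he : ∀ x θ, Real.exp (-(2 * n + 2)) ≤ x → x ≤ Real.exp (-(n + 2)) → |θ| ≤ s →
      Mf x θ = Mg x θ) :
    RR (Real.exp (-(2 * n + 2))) (Real.exp (-(n + 2)))
      (fun x θ => omw w (κ - 2 + dl) x * u θ * FF κ β x θ * Mg x θ) =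
      ∫ l in n..(2 * n), w l * Real.exp (-((κ - 1 + dl) * (l + 2))) *
        ∫ θ in (-π)..π, u θ * FF κ β (Real.exp (-(l + 2))) θ * Mf (Real.exp (-(l + 2))) θ := by
  have hpi := Real.pi_pos
  have hab : Real.exp (-(2 * n + 2)) ≤ Real.exp (-(n + 2)) := Real.exp_le_exp.2 (by linarith only [hn])
  have e1 : RR (Real.exp (-(2 * n + 2))) (Real.exp (-(n + 2)))
      (fun x θ => omw w (κ - 2 + dl) x * u θ * FF κ β x θ * Mg x θ) =
      RR (Real.exp (-(2 * n + 2))) (Real.exp (-(n + 2))) (fun x θ => omw w (κ - 2 + dl) x *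
        (u θ * FF κ β x θ * Mf x θ)) := by
    unfold RR
    refine intervalIntegral.integral_congr fun x hx => ?_
    rw [uIcc_of_le hab] at hx
    refine intervalIntegral.integral_congr fun θ hθ => ?_
    rw [uIcc_of_le (by (clear * - hpi; linarith only [hpi]) : -π ≤ π)] at hθ
    simp only
    by_cases hu : u θ = 0
    · simp [hu]
    · rw [he x θ hx.1 hx.2 (us θ hθ hu)]
      ring
  rw [e1, RR_omw hn]
  refine intervalIntegral.integral_congr fun l _ => ?_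
  have e2 : κ - 2 + dl + 1 = κ - 1 + dl := by ring
  rw [e2]

/-- the window hypothesis -/
theorem window {κ dl Mb : ℝ} (hκ : 1 ≤ κ) (hMb : 0 ≤ Mb) {G : ℂ → ℂ}
    {Mh : (ℂ → ℂ) → ℂ → ℂ}
    (hG : ∀ (β : ℂ → ℂ) (R : ℝ), ExtR β R → ContinuousOn (wf G β) {z | 0 < ‖z‖ ∧ ‖z‖ < 1})
    (hMc : ∀ (β : ℂ → ℂ) (R : ℝ), ExtR β R → ContinuousOn (Mh β) {z | 0 < ‖z‖ ∧ ‖z‖ < 1})
    (hM : ∀ β z, ‖Mh β z‖ ≤ Mb) (near : NearStmt κ) (mint : MIntStmt κ dl)
    (mcont : MContStmt κ dl) (ent : EntStmt) {C₀ C ε s : ℝ} (hC₀ : 0 ≤ C₀) (hε : 0 < ε)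
    (hε1 : ε ≤ 1) (hs0 : 0 < s) (hs1 : s ≤ 1 / 2) (hC : 0 ≤ C)
    (pt : ∀ n : ℝ, 2 ≤ n →
      ∃ W0 : ℂ → ℝ, Cutf (Real.exp (-n)) W0 ∧ ∀ (β : ℂ → ℂ) (R : ℝ), ExtR β R →
        ∀ x θ : ℝ, 0 < x → x ≤ Real.exp (-n) → |θ| ≤ s →
          Kf (wf G β) (Complex.exp (θ * I)) (-1) (-x) ≤
            κ * Real.log (‖N β (ep (-x) θ)‖ / (1 - Real.exp (-2 * x))) +
            MM κ dl W0 (Mh β) β x θ + C + (dl + ε) * (-Real.log x) + C₀ * (-Real.log x - n)) :
    Pool.Agent.Helper96.CK.WindowAt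
      (fun i : {β : ℂ → ℂ // ∃ R : ℝ, ExtR β R} => GG κ dl (bu s) i.1)
      (Mb / (2 * κ)) (C₀ + 1) ε := by
  have hpi := Real.pi_pos
  obtain ⟨C1, hC1, MI⟩ := mint Mb hMb
  obtain ⟨CE, EN⟩ := ent
  obtain ⟨K, Cu, hK, hCu, -, cov⟩ := bu_cover hs0 hs1
  obtain ⟨th, hth⟩ : ∃ th, th = Mb / (2 * κ) := ⟨_, rfl⟩
  have hth0 : 0 ≤ th := by rw [hth]; (clear * - hMb hκ; positivity)
  obtain ⟨Q, hQ⟩ : ∃ Q : ℝ, Q = C1 + C1 * (Cu * (K * 2)) := ⟨_, rfl⟩
  have hQ0 : 0 ≤ Q := by rw [hQ]; (clear * - hC1 hCu hK; positivity)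
  obtain ⟨Cf, hCf⟩ : ∃ Cf : ℝ, Cf = |CE| + C + 2 * ε + Q + th * (2 + C1) := ⟨_, rfl⟩
  have hCf0 : 0 ≤ Cf := by rw [hCf]; (clear * - hC hε hQ0 hth0 hC1; positivity)
  refine ⟨Cf, hCf0, ?_⟩
  rw [← hth]
  intro n hn w hw hwn hw0 hwp η hη
  obtain ⟨a, ha⟩ : ∃ a, a = Real.exp (-(2 * n + 2)) := ⟨_, rfl⟩
  obtain ⟨b, hb⟩ : ∃ b, b = Real.exp (-(n + 2)) := ⟨_, rfl⟩
  have WT : Wt (omw w (κ - 2 + dl)) (omw' w (κ - 2 + dl)) (bu s) (bu' s) a b := by
    rw [ha, hb]
    exact omw_Wt hn hw hwn hw0 (bu_deriv s) (bu'_cont s) (bu_nonneg s) (bu_le_one hs0 hs1)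
      (bu_per s)
  have hn0 : 0 ≤ n := by linarith only [hn]
  have hu0 : 0 < bu s 0 := bu_pos_zero hs0 hs1
  have cu : Continuous (bu s) := bu_cont s
  obtain ⟨η', hη'⟩ : ∃ η' : ℝ, η' = min (1 / 2) (min η (η / (1 + C1))) := ⟨_, rfl⟩
  have hη'0 : 0 < η' := by rw [hη']; (clear * - hη hC1; positivity)
  have hη'1 : η' ≤ 1 / 2 := by rw [hη']; exact min_le_left _ _
  have hη'2 : η' ≤ η := by rw [hη']; exact (min_le_right _ _).trans (min_le_left _ _)
  have hη'3 : C1 * η' ≤ η := by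
    have h1 : η' ≤ η / (1 + C1) := by
      rw [hη']; exact (min_le_right _ _).trans (min_le_right _ _)
    rw [le_div_iff₀ (by (clear * - hC1; positivity))] at h1
    linarith only [hη'0, h1]
  obtain ⟨β, R, hβ, hmax, hcrit⟩ := near _ _ _ _ a b WT (omw_exists_pos hwp) ⟨0, hu0⟩ η' hη'0
  obtain ⟨W0, hW0, PT⟩ := pt (n + 2) (by linarith only [hn0])
  rw [← hb] at hW0
  have usupp : ∀ θ ∈ Icc (-π) π, bu s θ ≠ 0 → |θ| ≤ s := fun θ hθ h => bu_supp hs0 hs1 hθ h
  have MIβ := MI _ _ _ _ a b WT (fun θ hθ h => (usupp θ hθ h).trans hs1) β R η' hβ hη'0.le hcrit W0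
    (Mh β) hW0 (hMc β R hβ) (hM β)
  have cMM := mcont a b WT.a0 WT.ab WT.b1 β R hβ W0 (Mh β) Mb hW0 (hMc β R hβ) (hM β)
  obtain ⟨Mf, cMf, Mf_eq⟩ : ∃ Mf : ℝ → ℝ → ℝ, Continuous (fun q : ℝ × ℝ => Mf q.1 q.2) ∧
      ∀ x θ, a ≤ x → x ≤ b → |θ| ≤ 1 / 2 → Mf x θ = MM κ dl W0 (Mh β) β x θ :=
    ⟨Mc κ dl a b W0 (Mh β) β, Mc_cont WT.ab.le cMM, fun x θ h1 h2 h3 => Mc_eq h1 h2 h3⟩
  -- the level functions
  obtain ⟨g, hg⟩ : ∃ g : ℝ → ℝ, g = GG κ dl (bu s) β := ⟨_, rfl⟩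
  have cg : Continuous g := by rw [hg]; exact GG_cont hβ cu (bu_nonneg s) hu0
  have cw : Continuous w := hw.continuous
  have cdw : Continuous (deriv w) := hw.continuous_deriv (by norm_num)
  have ceg : Continuous fun l => Real.exp (g l) := Real.continuous_exp.comp cg
  obtain ⟨J, hJ⟩ : ∃ J, J = ∫ l in n..(2 * n), Real.exp (g l) * w l := ⟨_, rfl⟩
  obtain ⟨D, hD⟩ : ∃ D, D = ∫ l in n..(2 * n), Real.exp (g l) * |deriv w l| := ⟨_, rfl⟩
  have hn2 : n ≤ 2 * n := by linarith only [hn0]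
  have hJ0 : 0 ≤ J := by
    rw [hJ]
    exact intervalIntegral.integral_nonneg hn2 fun l _ =>
      mul_nonneg (Real.exp_pos _).le (hwn l)
  have hD0 : 0 ≤ D := by
    rw [hD]
    exact intervalIntegral.integral_nonneg hn2 fun l _ =>
      mul_nonneg (Real.exp_pos _).le (abs_nonneg _)
  have JJβ : JJ κ (omw w (κ - 2 + dl)) (bu s) a b β = 2 * π * J := by
    rw [ha, hb, JJ_eq hβ cu (bu_nonneg s) hu0 hn0, hJ, hg]
  have JDβ := JD_eq (κ := κ) (dl := dl) (w := w) hβ cu (bu_nonneg s) hu0 hn0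
  rw [← ha, ← hb, ← hg, ← hD] at JDβ
  refine ⟨⟨β, R, hβ⟩, ?_, ?_⟩
  · -- near maximal
    rintro ⟨γ, Rγ, hγ⟩
    have h1 := hmax γ hγ.toExt
    rw [JJβ, ha, hb, JJ_eq hγ cu (bu_nonneg s) hu0 hn0] at h1
    have h2 : 0 ≤ ∫ l in n..(2 * n), Real.exp (GG κ dl (bu s) γ l) * w l :=
      intervalIntegral.integral_nonneg hn2 fun l _ => mul_nonneg (Real.exp_pos _).le (hwn l)
    have h3 : (1 - η') * ∫ l in n..(2 * n), Real.exp (GG κ dl (bu s) γ l) * w l ≤ J := by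
      have : 2 * π * ((1 - η') * ∫ l in n..(2 * n), Real.exp (GG κ dl (bu s) γ l) * w l) ≤
          2 * π * J := by
        calc _ = (1 - η') * (2 * π * ∫ l in n..(2 * n), Real.exp (GG κ dl (bu s) γ l) * w l) := by
              ring
          _ ≤ _ := h1
      exact le_of_mul_le_mul_left this (by positivity)
    have h5 : J = ∫ l in n..(2 * n), Real.exp (GG κ dl (bu s) β l) * w l := by rw [hJ, hg]
    rw [h5] at h3
    exact le_trans (mul_le_mul_of_nonneg_right (by linarith only [hη'2]) h2) h3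
  · -- the main inequality
    have goal' : ∫ l in n..(2 * n), Real.exp (g l) * w l * g l ≤
        (∫ l in n..(2 * n), Real.exp (g l) * w l * (Cf + ε * n + (C₀ + 1) * (l - n))) +
          (th * n + Cf) * (∫ l in n..(2 * n), Real.exp (g l) * |deriv w l|) + η := ?_
    · rw [hg] at goal'
      exact goal'
    rw [← hD]
    -- angular term
    have JU := JU_le (κ := κ) hβ WT hCu.le cov
    have JU2 : RR a b (fun x θ => omw w (κ - 2 + dl) x * |bu' s θ| * FF κ β x θ) ≤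
        Cu * (K * 2) * (2 * π * J) := by
      refine JU.trans ?_
      have h1 : ∀ j ∈ Finset.range K, JJ κ (omw w (κ - 2 + dl)) (bu s) a b
          (rotβ β (-(2 * π * j / K))) ≤ 2 * (2 * π * J) := by
        intro j _
        have h2 := hmax _ (rot_ExtR hβ (-(2 * π * j / K))).toExt
        rw [JJβ] at h2
        have h3 : 0 ≤ JJ κ (omw w (κ - 2 + dl)) (bu s) a b (rotβ β (-(2 * π * j / K))) := by
          rw [ha, hb, JJ_eq (rot_ExtR hβ _) cu (bu_nonneg s) hu0 hn0]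
          refine mul_nonneg (by positivity) (intervalIntegral.integral_nonneg hn2 fun l _ =>
            mul_nonneg (Real.exp_pos _).le (hwn l))
        (clear * - h2 hη'1 h3; nlinarith only [hη'1, h2, h3])
      have h4 := Finset.sum_le_sum h1
      rw [Finset.sum_const, Finset.card_range, nsmul_eq_mul] at h4
      calc _ ≤ Cu * (K * (2 * (2 * π * J))) := mul_le_mul_of_nonneg_left h4 hCu.le
        _ = _ := by ring
    rw [JJβ, JDβ] at MIβ
    have hlogb : -Real.log b = n + 2 := by rw [hb, Real.log_exp]; ring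
    rw [hlogb, ← hth] at MIβ
    -- the double integral of the term of the multiplier
    obtain ⟨P, hP⟩ : ∃ P : ℝ → ℝ, P = fun l => w l * Real.exp (-((κ - 1 + dl) * (l + 2))) *
      ∫ θ in (-π)..π, bu s θ * FF κ β (Real.exp (-(l + 2))) θ *
        Mf (Real.exp (-(l + 2))) θ := ⟨_, rfl⟩
    have cP : Continuous P := by
      rw [hP]
      exact cont_P κ _ cw cu hβ cMf
    have hRM : RR a b (fun x θ => omw w (κ - 2 + dl) x * bu s θ * FF κ β x θ *
        MM κ dl W0 (Mh β) β x θ) = ∫ l in n..(2 * n), P l := by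
      rw [ha, hb, hP]
      exact RM_eq (Mg := fun x θ => MM κ dl W0 (Mh β) β x θ) hn0 usupp
        (fun x θ h1 h2 h3 => Mf_eq x θ (by rw [ha]; exact h1) (by rw [hb]; exact h2)
          (h3.trans hs1))
    rw [hRM] at MIβ
    -- level by level
    have hlev : ∀ l ∈ Icc n (2 * n), Real.exp (g l) * w l * g l ≤
        Real.exp (g l) * w l * (|CE| + C + ε * (l + 2) + C₀ * (l - n)) +
          (2 * π)⁻¹ * P l := by
      intro l hl
      obtain ⟨x, hx⟩ : ∃ x, x = Real.exp (-(l + 2)) := ⟨_, rfl⟩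
      have hx0 : 0 < x := by rw [hx]; exact Real.exp_pos _
      have hxa : a ≤ x := by
        rw [ha, hx]
        exact Real.exp_le_exp.2 (by linarith only [hl.2])
      have hxb : x ≤ b := by
        rw [hb, hx]
        exact Real.exp_le_exp.2 (by linarith only [hl.1])
      have hlx : -Real.log x = l + 2 := by rw [hx, Real.log_exp]; ring
      have hm0 : 0 < mm κ (bu s) β (l + 2) := mm_pos hβ cu (bu_nonneg s) hu0 _
      have hmeq : mm κ (bu s) β (l + 2) = (2 * π)⁻¹ * ∫ θ in (-π)..π, bu s θ * FF κ β x θ := by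
        rw [hx]; rfl
      have hE := EN κ β R (wf G β) (bu s) x (by linarith only [hκ]) hβ (hG β R hβ) cu (bu_nonneg s)
        (bu_le_one hs0 hs1) (bu_per s) hx0 (by linarith only [hxb.trans WT.b1]) _ hmeq hm0
      have cMx : Continuous (Mf x) := cMf.comp (Continuous.prodMk_right x)
      have hL := level (dl := dl) (ε := ε) (s := s) (n := n + 2) (C := C) (C₀ := C₀) (CE := CE)
        hβ hκ (hG β R hβ) cu (bu_nonneg s) usupp hx0 (hxb.trans WT.b1) cMx hmeq hm0 hE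
        (fun θ hθ => by
          rw [Mf_eq x θ hxa hxb (hθ.trans hs1)]
          exact PT β R hβ x θ hx0 (hb ▸ hxb) hθ)
      rw [hlx] at hL
      have hgl : g l = Real.log (mm κ (bu s) β (l + 2)) - (κ - 1 + dl) * (l + 2) := by
        rw [hg]; rfl
      have heg : Real.exp (g l) = mm κ (bu s) β (l + 2) *
          Real.exp (-((κ - 1 + dl) * (l + 2))) := by
        rw [hg]; exact exp_GG hm0
      obtain ⟨m, hmdef⟩ : ∃ m, m = mm κ (bu s) β (l + 2) := ⟨_, rfl⟩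
      rw [← hmdef] at hL hm0 hgl heg
      obtain ⟨I0, hI0⟩ : ∃ I0, I0 = ∫ θ in (-π)..π, bu s θ * FF κ β x θ *
        Mf x θ := ⟨_, rfl⟩
      rw [← hI0] at hL
      have hL2 : m * g l ≤ m * (|CE| + C + ε * (l + 2) + C₀ * (l - n)) + (2 * π)⁻¹ * I0 := by
        have h1 := mul_le_mul_of_nonneg_left (le_abs_self CE) hm0.le
        rw [hgl]
        linarith only [hL, h1]
      obtain ⟨E, hEd⟩ : ∃ E, E = w l * Real.exp (-((κ - 1 + dl) * (l + 2))) := ⟨_, rfl⟩
      have hE0 : 0 ≤ E := by rw [hEd]; exact mul_nonneg (hwn l) (Real.exp_pos _).le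
      have hPl : P l = E * I0 := by
        rw [hP, hEd, hI0, hx]
      have heE : Real.exp (g l) * w l = m * E := by
        rw [heg, hEd]; ring
      rw [hPl, heE]
      have h2 := mul_le_mul_of_nonneg_left hL2 hE0
      calc m * E * g l = E * (m * g l) := by ring
        _ ≤ E * (m * (|CE| + C + ε * (l + 2) + C₀ * (l - n)) + (2 * π)⁻¹ * I0) := h2
        _ = _ := by ring
    have hint1 : ∫ l in n..(2 * n), Real.exp (g l) * w l * g l ≤
        ∫ l in n..(2 * n), (Real.exp (g l) * w l * (|CE| + C + ε * (l + 2) + C₀ * (l - n)) +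
          (2 * π)⁻¹ * P l) := by
      refine intervalIntegral.integral_mono_on hn2 ?_ ?_ hlev
      · exact ((ceg.mul cw).mul cg).intervalIntegrable _ _
      · refine Continuous.intervalIntegrable ?_ _ _
        exact ((ceg.mul cw).mul (by fun_prop)).add (continuous_const.mul cP)
    have cA : Continuous fun l => Real.exp (g l) * w l *
        (|CE| + C + ε * (l + 2) + C₀ * (l - n)) := (ceg.mul cw).mul (by fun_prop)
    have cJ : Continuous fun l => Real.exp (g l) * w l := ceg.mul cw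
    have cP2 : Continuous fun l => (2 * π)⁻¹ * P l := continuous_const.mul cP
    have hadd : ∫ l in n..(2 * n), (Real.exp (g l) * w l *
        (|CE| + C + ε * (l + 2) + C₀ * (l - n)) + (2 * π)⁻¹ * P l) =
        (∫ l in n..(2 * n), Real.exp (g l) * w l * (|CE| + C + ε * (l + 2) + C₀ * (l - n))) +
          (2 * π)⁻¹ * ∫ l in n..(2 * n), P l := by
      rw [intervalIntegral.integral_add (cA.intervalIntegrable _ _)
        (cP2.intervalIntegrable _ _), intervalIntegral.integral_const_mul]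
    rw [hadd] at hint1
    have hPb : (2 * π)⁻¹ * ∫ l in n..(2 * n), P l ≤
        Q * J + th * (n + 2 + C1) * D + η := by
      have h1 : (∫ l in n..(2 * n), P l) ≤ C1 * (2 * π * J) + th * (n + 2 + C1) * (2 * π * D) +
          C1 * (Cu * (K * 2) * (2 * π * J)) + C1 * η' :=
        MIβ.trans (by
          have := mul_le_mul_of_nonneg_left JU2 hC1
          linarith only [this])
      have h2 := mul_le_mul_of_nonneg_left h1 (by positivity : 0 ≤ (2 * π)⁻¹)
      have h3 : (2 * π)⁻¹ * (C1 * (2 * π * J) + th * (n + 2 + C1) * (2 * π * D) +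
          C1 * (Cu * (K * 2) * (2 * π * J)) + C1 * η') =
          Q * J + th * (n + 2 + C1) * D + (2 * π)⁻¹ * (C1 * η') := by
        rw [hQ]
        field_simp
        ring
      have h4 : (2 * π)⁻¹ * (C1 * η') ≤ 1 * η := by
        have h5 : (2 * π)⁻¹ ≤ 1 := by
          apply inv_le_one_of_one_le₀
          have := Real.pi_gt_three
          linarith only [this]
        exact mul_le_mul h5 hη'3 (by (clear * - hC1 hη'0; positivity)) (by norm_num)
      rw [h3] at h2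
      linarith only [h2, h4]
    have hfin : (∫ l in n..(2 * n), Real.exp (g l) * w l *
        (|CE| + C + ε * (l + 2) + C₀ * (l - n))) + Q * J ≤
        ∫ l in n..(2 * n), Real.exp (g l) * w l * (Cf + ε * n + (C₀ + 1) * (l - n)) := by
      have cJ2 : Continuous fun l => Q * (Real.exp (g l) * w l) := continuous_const.mul cJ
      rw [hJ, ← intervalIntegral.integral_const_mul, ← intervalIntegral.integral_add
        (cA.intervalIntegrable _ _) (cJ2.intervalIntegrable _ _)]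
      refine intervalIntegral.integral_mono_on hn2 ?_ ?_ ?_
      · exact (cA.add cJ2).intervalIntegrable _ _
      · exact ((ceg.mul cw).mul (by fun_prop)).intervalIntegrable _ _
      · intro l hl
        have h1 : 0 ≤ Real.exp (g l) * w l := mul_nonneg (Real.exp_pos _).le (hwn l)
        have h2 : |CE| + C + ε * (l + 2) + C₀ * (l - n) + Q ≤
            Cf + ε * n + (C₀ + 1) * (l - n) := by
          have h3 : ε * (l - n) ≤ 1 * (l - n) :=
            mul_le_mul_of_nonneg_right hε1 (by linarith only [hl.1])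
          have h4 : 0 ≤ th * (2 + C1) := by (clear * - hth0 hC1; positivity)
          rw [hCf]
          linarith only [h3, h4]
        have h3 := mul_le_mul_of_nonneg_left h2 h1
        linarith only [h3]
    have hthn : th * (n + 2 + C1) * D ≤ (th * n + Cf) * D := by
      refine mul_le_mul_of_nonneg_right ?_ hD0
      have h1 : th * (2 + C1) ≤ Cf := by
        rw [hCf]
        have : 0 ≤ |CE| + C + 2 * ε + Q := by (clear * - hC hε hQ0; positivity)
        linarith only [this]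
      linarith only [h1]
    linarith only [hint1, hPb, hfin, hthn]

end Pool.Agent.Helper52.CK

end

section

namespace Pool.Agent.Helper39.Area
end Pool.Agent.Helper39.Area
namespace Pool.Agent.Helper52.EK
end Pool.Agent.Helper52.EK
namespace Pool.Agent.Helper28.EK
end Pool.Agent.Helper28.EK
namespace Pool.Agent.Helper24.Br
end Pool.Agent.Helper24.Br

set_option autoImplicit false

open Complex MeasureTheory Metric Set

open scoped Real ComplexConjugate

namespace Pool.Agent.Helper58.CK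

open Pool.Agent.Helper39.Area Pool.Agent.Helper52.EK Pool.Agent.Helper28.EK

open Pool.Agent.Helper24.Br (deriv_ne_of_inj)

theorem moment_ExtS {κ s : ℝ} (hκ : 0 ≤ κ) (hs0 : 0 ≤ s)
    (hM : ∃ C a₀ : ℝ, a₀ < 1 ∧ ∀ (β : ℂ → ℂ) (R a : ℝ), ExtR β R → a₀ < a → a < 1 →
      (2 * π)⁻¹ * (∫ α in (0:ℝ)..(2 * π), ‖N β (a * Complex.exp (α * I))‖ ^ (-κ)) ≤
        C * (1 - a ^ 2) ^ (-s)) :
    ∀ p : ℝ, κ ≤ p → ∃ C : ℝ, ∀ (β : ℂ → ℂ) (r : ℝ), Ext β → 0 < r → r < 1 →
      (2 * π)⁻¹ * (∫ α in (0:ℝ)..(2 * π), ‖N β (r * Complex.exp (α * I))‖ ^ (-p)) ≤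
        C * (1 - r ^ 2) ^ (-(s + (p - κ))) := by
  obtain ⟨C₀, a₀, ha₀, hM⟩ := hM
  intro p hp
  obtain ⟨C₁, hC₁⟩ : ∃ C₁ : ℝ, C₁ = |C₀| * 2 ^ s := ⟨_, rfl⟩
  have hC₁0 : 0 ≤ C₁ := by rw [hC₁]; (clear * -; positivity)
  obtain ⟨b, hb⟩ : ∃ b : ℝ, b = max a₀ 0 := ⟨_, rfl⟩
  have hb0 : 0 ≤ b := by rw [hb]; exact le_max_right _ _
  have hb1 : b < 1 := by rw [hb]; exact max_lt ha₀ one_pos
  have hab : a₀ ≤ b := by rw [hb]; exact le_max_left _ _
  have h1b : 0 < 1 - b ^ 2 := by nlinarith only [hb0, hb1]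
  obtain ⟨C₂, hC₂⟩ : ∃ C₂ : ℝ, C₂ = (1 - b ^ 2) ^ (-p) := ⟨_, rfl⟩
  have hC₂0 : 0 ≤ C₂ := by rw [hC₂]; positivity
  refine ⟨C₁ + C₂, ?_⟩
  intro β r hβ hr0 hr1
  have hπ : 0 < 2 * π := by positivity
  have h1r : 0 < 1 - r ^ 2 := by (clear * - hr1 hr0; nlinarith only [hr0, hr1])
  have h1r1 : 1 - r ^ 2 ≤ 1 := by nlinarith only []
  have hmem : ∀ α : ℝ, ‖(r : ℂ) * Complex.exp (α * I)‖ = r := by
    intro α
    rw [norm_mul, Complex.norm_exp_ofReal_mul_I, mul_one, Complex.norm_real,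
      Real.norm_eq_abs, abs_of_pos hr0]
  have hNge : ∀ α : ℝ, 1 - r ^ 2 ≤ ‖N β (r * Complex.exp (α * I))‖ := by
    intro α
    have := Pool.Agent.Helper39.EK.N_ge hβ (z := (r : ℂ) * Complex.exp (α * I))
      (by rw [hmem]; exact hr1)
    rwa [hmem] at this
  have hcont : ∀ q : ℝ, IntervalIntegrable
      (fun α : ℝ => ‖N β (r * Complex.exp (α * I))‖ ^ (-q)) volume 0 (2 * π) :=
    fun q => (N_cont hβ hr0 hr1 q).intervalIntegrable _ _
  have hpow1 : 1 ≤ (1 - r ^ 2) ^ (-(s + (p - κ))) :=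
    Real.one_le_rpow_of_pos_of_le_one_of_nonpos h1r h1r1 (by (clear * - hs0 hp; linarith))
  rcases le_or_gt r b with hrb | hrb
  · -- small radius
    have hle : ∀ α : ℝ, ‖N β (r * Complex.exp (α * I))‖ ^ (-p) ≤ C₂ := by
      intro α
      rw [hC₂]
      have h2 : 1 - b ^ 2 ≤ 1 - r ^ 2 := by nlinarith only [hr0, hrb]
      exact Real.rpow_le_rpow_of_nonpos h1b (h2.trans (hNge α)) (by (clear * - hκ hp; linarith))
    have hint : (∫ α in (0:ℝ)..(2 * π), ‖N β (r * Complex.exp (α * I))‖ ^ (-p)) ≤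
        ∫ _α in (0:ℝ)..(2 * π), C₂ :=
      intervalIntegral.integral_mono_on hπ.le (hcont p) intervalIntegrable_const
        (fun α _ => hle α)
    rw [intervalIntegral.integral_const, smul_eq_mul, sub_zero] at hint
    have h3 : (2 * π)⁻¹ * (∫ α in (0:ℝ)..(2 * π), ‖N β (r * Complex.exp (α * I))‖ ^ (-p)) ≤
        (2 * π)⁻¹ * (2 * π * C₂) := mul_le_mul_of_nonneg_left hint (by positivity)
    rw [inv_mul_cancel_left₀ hπ.ne'] at h3
    calc _ ≤ C₂ := h3
      _ ≤ C₂ * (1 - r ^ 2) ^ (-(s + (p - κ))) := le_mul_of_one_le_right hC₂0 hpow1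
      _ ≤ (C₁ + C₂) * (1 - r ^ 2) ^ (-(s + (p - κ))) :=
          mul_le_mul_of_nonneg_right (by linarith only [hC₁0]) (by (clear * - h1r; positivity))
  · -- scaling
    have hex : ∃ ρ : ℝ, r < ρ ∧ ρ < 1 ∧ b < r / ρ ∧ (1 - r ^ 2) / 2 ≤ 1 - (r / ρ) ^ 2 := by
      have hcts : Filter.Tendsto (fun ρ : ℝ => r / ρ) (nhdsWithin 1 (Iio 1)) (nhds r) := by
        have h2 : ContinuousAt (fun ρ : ℝ => r / ρ) 1 :=
          continuousAt_const.div continuousAt_id one_ne_zero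
        have h3 := h2.tendsto
        simp only [div_one] at h3
        exact h3.mono_left nhdsWithin_le_nhds
      have hcts2 : Filter.Tendsto (fun ρ : ℝ => 1 - (r / ρ) ^ 2) (nhdsWithin 1 (Iio 1))
          (nhds (1 - r ^ 2)) := (hcts.pow 2).const_sub 1
      have e1 : ∀ᶠ ρ in nhdsWithin (1:ℝ) (Iio 1), b < r / ρ := hcts.eventually_const_lt hrb
      have e2 : ∀ᶠ ρ in nhdsWithin (1:ℝ) (Iio 1), (1 - r ^ 2) / 2 < 1 - (r / ρ) ^ 2 :=
        hcts2.eventually_const_lt (by (clear * - h1r; linarith only [h1r]))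
      have e3 : ∀ᶠ ρ in nhdsWithin (1:ℝ) (Iio 1), r < ρ :=
        (eventually_gt_nhds hr1).filter_mono nhdsWithin_le_nhds
      have e4 : ∀ᶠ ρ in nhdsWithin (1:ℝ) (Iio 1), ρ < 1 := eventually_mem_nhdsWithin
      obtain ⟨ρ, h4, h5, h6, h7⟩ := (e1.and (e2.and (e3.and e4))).exists
      exact ⟨ρ, h6, h7, h4, h5.le⟩
    obtain ⟨ρ, hrρ, hρ1, hbρ, hhalf⟩ := hex
    have hρ0 : 0 < ρ := hr0.trans hrρ
    have ha1 : r / ρ < 1 := by rw [div_lt_one hρ0]; exact hrρ
    have ha0 : 0 < r / ρ := by (clear * - hr0 hρ0; positivity)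
    have h2 := hM _ _ (r / ρ) (scale_ExtR hβ hρ0 hρ1) (lt_of_le_of_lt hab hbρ) ha1
    have hρC : (ρ : ℂ) ≠ 0 := by exact_mod_cast hρ0.ne'
    have hNeq : ∀ α : ℝ, N (fun z => (ρ : ℂ) * β (ρ * z)) (((r / ρ : ℝ) : ℂ) *
        Complex.exp (α * I)) = N β (r * Complex.exp (α * I)) := by
      intro α
      have e : (ρ : ℂ) * (((r / ρ : ℝ) : ℂ) * Complex.exp (α * I)) = r * Complex.exp (α * I) := by
        push_cast
        (clear * - hρC; field_simp)
      rw [scale_N hβ.diff (by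
        rw [e, mem_ball_zero_iff, hmem]
        exact hr1), e]
    simp only [hNeq] at h2
    have h3 : (1 - (r / ρ) ^ 2) ^ (-s) ≤ 2 ^ s * (1 - r ^ 2) ^ (-s) := by
      have h4 : (1 - (r / ρ) ^ 2) ^ (-s) ≤ ((1 - r ^ 2) / 2) ^ (-s) :=
        Real.rpow_le_rpow_of_nonpos (by (clear * - h1r; linarith only [h1r])) hhalf (by linarith only [hs0])
      refine h4.trans (le_of_eq ?_)
      rw [Real.div_rpow h1r.le (by norm_num), Real.rpow_neg (by norm_num : (0:ℝ) ≤ 2), div_inv_eq_mul,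
        mul_comm]
    have h5 : (2 * π)⁻¹ * (∫ α in (0:ℝ)..(2 * π), ‖N β (r * Complex.exp (α * I))‖ ^ (-κ)) ≤
        C₁ * (1 - r ^ 2) ^ (-s) := by
      have h6 : 0 < 1 - (r / ρ) ^ 2 := by linarith only [h1r, hhalf]
      calc _ ≤ C₀ * (1 - (r / ρ) ^ 2) ^ (-s) := h2
        _ ≤ |C₀| * (1 - (r / ρ) ^ 2) ^ (-s) :=
            mul_le_mul_of_nonneg_right (le_abs_self _) (by (clear * - h6; positivity))
        _ ≤ |C₀| * (2 ^ s * (1 - r ^ 2) ^ (-s)) :=
            mul_le_mul_of_nonneg_left h3 (abs_nonneg _)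
        _ = C₁ * (1 - r ^ 2) ^ (-s) := by rw [hC₁]; ring
    -- larger powers
    have hpt : ∀ α : ℝ, ‖N β (r * Complex.exp (α * I))‖ ^ (-p) ≤
        (1 - r ^ 2) ^ (-(p - κ)) * ‖N β (r * Complex.exp (α * I))‖ ^ (-κ) := by
      intro α
      have hpos : 0 < ‖N β (r * Complex.exp (α * I))‖ := lt_of_lt_of_le h1r (hNge α)
      have e : (-p) = -(p - κ) + (-κ) := by ring
      rw [e, Real.rpow_add hpos]
      refine mul_le_mul_of_nonneg_right ?_ (by positivity)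
      exact Real.rpow_le_rpow_of_nonpos h1r (hNge α) (by linarith only [hp])
    have hint : (∫ α in (0:ℝ)..(2 * π), ‖N β (r * Complex.exp (α * I))‖ ^ (-p)) ≤
        ∫ α in (0:ℝ)..(2 * π), (1 - r ^ 2) ^ (-(p - κ)) *
          ‖N β (r * Complex.exp (α * I))‖ ^ (-κ) :=
      intervalIntegral.integral_mono_on hπ.le (hcont p) ((hcont κ).const_mul _)
        (fun α _ => hpt α)
    rw [intervalIntegral.integral_const_mul] at hint
    have hq0 : (0:ℝ) ≤ (1 - r ^ 2) ^ (-(p - κ)) := by (clear * - h1r; positivity)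
    calc (2 * π)⁻¹ * (∫ α in (0:ℝ)..(2 * π), ‖N β (r * Complex.exp (α * I))‖ ^ (-p))
        ≤ (2 * π)⁻¹ * ((1 - r ^ 2) ^ (-(p - κ)) *
          ∫ α in (0:ℝ)..(2 * π), ‖N β (r * Complex.exp (α * I))‖ ^ (-κ)) :=
          mul_le_mul_of_nonneg_left hint (by positivity)
      _ = (1 - r ^ 2) ^ (-(p - κ)) * ((2 * π)⁻¹ *
          ∫ α in (0:ℝ)..(2 * π), ‖N β (r * Complex.exp (α * I))‖ ^ (-κ)) := by ring
      _ ≤ (1 - r ^ 2) ^ (-(p - κ)) * (C₁ * (1 - r ^ 2) ^ (-s)) :=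
          mul_le_mul_of_nonneg_left h5 hq0
      _ = C₁ * (1 - r ^ 2) ^ (-(s + (p - κ))) := by
          have e : -(s + (p - κ)) = -(p - κ) + -s := by ring
          rw [e, Real.rpow_add h1r]
          ring
      _ ≤ (C₁ + C₂) * (1 - r ^ 2) ^ (-(s + (p - κ))) :=
          mul_le_mul_of_nonneg_right (by linarith only [hC₂0]) (by (clear * - h1r; positivity))

/-- E6e: the class Σ -/
theorem finalS {p s : ℝ} (hM : ∃ C : ℝ, ∀ (β : ℂ → ℂ) (r : ℝ), Ext β → 0 < r →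
      r < 1 → (2 * π)⁻¹ * (∫ α in (0:ℝ)..(2 * π), ‖N β (r * Complex.exp (α * I))‖ ^ (-p)) ≤
        C * (1 - r ^ 2) ^ (-s)) :
    ∃ C : ℝ, ∀ ψ : ℂ → ℂ, DifferentiableOn ℂ ψ {z : ℂ | 1 < ‖z‖} →
      InjOn ψ {z : ℂ | 1 < ‖z‖} →
      (∃ b : ℂ, Filter.Tendsto (fun z => ψ z - z) (Bornology.cobounded ℂ) (nhds b)) →
      ∀ R : ℝ, 1 < R →
      (2 * π)⁻¹ * (∫ θ in (0:ℝ)..(2 * π), ‖deriv ψ (R * Complex.exp (θ * I))‖ ^ (-p)) ≤
        C * (R ^ 2 / (R ^ 2 - 1)) ^ s := by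
  obtain ⟨C, hC⟩ := hM
  refine ⟨C, ?_⟩
  rintro ψ hψ hinj ⟨b, hb⟩ R hR
  have hR0 : 0 < R := by linarith only [hR]
  have hne : ∀ z : ℂ, 1 < ‖z‖ → deriv ψ z ≠ 0 := fun z hz =>
    deriv_ne_of_inj isOpen_ext hψ hinj hz
  have hexp : ∀ z : ℂ, 1 < ‖z‖ → Complex.exp ((fun z => Complex.log (deriv ψ z)) z) =
      deriv ψ z := fun z hz => Complex.exp_log (hne z hz)
  obtain ⟨hE, hex⟩ := ext_data hψ hinj hb hexp
  have hr0 : 0 < R⁻¹ := by positivity
  have hr1 : R⁻¹ < 1 := inv_lt_one_of_one_lt₀ hR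
  have hmain := hC (toDisc b (fun z => ψ z - z)) R⁻¹ hE hr0 hr1
  obtain ⟨k, hk⟩ : ∃ k : ℝ → ℝ, k = fun (α : ℝ) =>
    ‖N (toDisc b (fun z => ψ z - z)) (((R⁻¹ : ℝ) : ℂ) * Complex.exp (α * I))‖ ^ (-p) := ⟨_, rfl⟩
  have h1 : ∀ θ : ℝ, ‖deriv ψ (R * Complex.exp (θ * I))‖ ^ (-p) = k (-θ) := by
    intro θ
    have hne0 : ((R⁻¹ : ℝ) : ℂ) * Complex.exp (((-θ : ℝ) : ℂ) * I) ≠ 0 := by
      apply mul_ne_zero _ (Complex.exp_ne_zero _)
      exact_mod_cast inv_ne_zero hR0.ne'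
    have hmem : ((R⁻¹ : ℝ) : ℂ) * Complex.exp (((-θ : ℝ) : ℂ) * I) ∈ ball (0:ℂ) 1 := by
      rw [mem_ball_zero_iff, norm_mul, Complex.norm_exp_ofReal_mul_I, mul_one, Complex.norm_real,
        Real.norm_of_nonneg hr0.le]
      exact hr1
    have h2 : (((R⁻¹ : ℝ) : ℂ) * Complex.exp (((-θ : ℝ) : ℂ) * I))⁻¹ =
        (R : ℂ) * Complex.exp ((θ : ℂ) * I) := by
      rw [mul_inv, ← Complex.exp_neg]
      push_cast
      rw [inv_inv]
      congr 2
      ring
    have h3 := hex _ hmem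
    simp only [toDisc] at h3
    rw [if_neg hne0, h2, hexp] at h3
    · simp only [hk, N]
      rw [h3]
    · rw [norm_mul, Complex.norm_exp_ofReal_mul_I, mul_one, Complex.norm_real,
        Real.norm_of_nonneg hR0.le]
      exact hR
  simp_rw [h1]
  rw [intervalIntegral.integral_comp_neg (fun θ => k θ)]
  have hper : Function.Periodic k (2 * π) := by
    intro θ
    simp only [hk]
    have : Complex.exp (((θ + 2 * π : ℝ) : ℂ) * I) = Complex.exp ((θ : ℂ) * I) := by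
      push_cast
      rw [add_mul, Complex.exp_add, Complex.exp_two_pi_mul_I, mul_one]
    rw [this]
  have h2 := hper.intervalIntegral_add_eq (-(2 * π)) 0
  have e1 : -(2 * π) + 2 * π = (0:ℝ) := by ring
  have e2 : (0:ℝ) + 2 * π = 2 * π := by ring
  rw [e1, e2] at h2
  rw [neg_zero, h2]
  have hRR : 0 < R ^ 2 - 1 := by (clear * - hR; nlinarith only [hR])
  have hx : (1 - R⁻¹ ^ 2) ^ (-s) = (R ^ 2 / (R ^ 2 - 1)) ^ s := by
    have h3 : 1 - R⁻¹ ^ 2 = (R ^ 2 / (R ^ 2 - 1))⁻¹ := by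
      rw [inv_pow]
      (clear * - hR hRR; field_simp)
    rw [h3, Real.inv_rpow (by (clear * - hR hRR; positivity)), Real.rpow_neg (by (clear * - hR hRR; positivity)), inv_inv]
  rw [hx] at hmain
  rw [hk]
  exact hmain

end Pool.Agent.Helper58.CK

end

section

namespace Pool.Agent.Helper39.Area
end Pool.Agent.Helper39.Area
namespace Pool.Agent.Helper52.EK
end Pool.Agent.Helper52.EK
namespace Pool.Agent.Helper9.EK
end Pool.Agent.Helper9.EK

set_option autoImplicit false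

open Complex MeasureTheory Metric Set

open scoped Real ComplexConjugate ContDiff

namespace Pool.Agent.Helper52.CK

open Pool.Agent.Helper39.Area Pool.Agent.Helper52.EK Pool.Agent.Helper9.EK

/-- the mean over the whole circle is dominated by the localised means of the rotations -/
theorem full_le {κ : ℝ} {u : ℝ → ℝ} (cu : Continuous u) (up : Function.Periodic u (2 * π))
    {K : ℕ} {Cu B l : ℝ} (hCu : 0 ≤ Cu)
    (cov : ∀ θ, 1 ≤ Cu * ∑ j ∈ Finset.range K, u (θ + 2 * π * j / K))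
    {β : ℂ → ℂ} {R : ℝ} (h : ExtR β R)
    (hB : ∀ γ : ℂ → ℂ, ExtR γ R → mm κ u γ l ≤ B) :
    (2 * π)⁻¹ * ∫ θ in (-π)..π, FF κ β (Real.exp (-l)) θ ≤ Cu * K * B := by
  have hpi := Real.pi_pos
  have hx := Real.exp_pos (-l)
  have cF := FF_cont_th κ h hx
  have h1 : ∫ θ in (-π)..π, FF κ β (Real.exp (-l)) θ ≤ ∫ θ in (-π)..π,
      Cu * ∑ j ∈ Finset.range K, u (θ + 2 * π * j / K) * FF κ β (Real.exp (-l)) θ := by
    refine intervalIntegral.integral_mono_on (by (clear * - hpi; linarith)) (cF.intervalIntegrable _ _) ?_ ?_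
    · refine Continuous.intervalIntegrable ?_ _ _
      exact continuous_const.mul (continuous_finsetSum _ fun j _ =>
        (cu.comp (by fun_prop)).mul cF)
    · intro θ _
      rw [← Finset.sum_mul, ← mul_assoc]
      exact le_mul_of_one_le_left (FF_pos κ h hx θ).le (cov θ)
  rw [intervalIntegral.integral_const_mul, intervalIntegral.integral_finsetSum] at h1
  · have h2 : ∀ j ∈ Finset.range K,
        ∫ θ in (-π)..π, u (θ + 2 * π * j / K) * FF κ β (Real.exp (-l)) θ ≤ 2 * π * B := by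
      intro j _
      rw [rot_int up, two_pi_mm]
      exact mul_le_mul_of_nonneg_left (hB _ (rot_ExtR h _)) (by positivity)
    have h3 := Finset.sum_le_sum h2
    rw [Finset.sum_const, Finset.card_range, nsmul_eq_mul] at h3
    have h4 := h1.trans (mul_le_mul_of_nonneg_left h3 hCu)
    have h5 := mul_le_mul_of_nonneg_left h4 (by positivity : 0 ≤ (2 * π)⁻¹)
    refine h5.trans (le_of_eq ?_)
    (clear * -; field_simp)
  · intro j _
    exact Continuous.intervalIntegrable ((cu.comp (by fun_prop)).mul cF) _ _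

/-- **Assembly**: the exponent of the circle means. -/
theorem asm {κ dl Mb : ℝ} (hκ : 1 ≤ κ) (hdl : 0 ≤ dl) (hMb : 0 ≤ Mb) (hMb2 : Mb < 2 * κ)
    {G : ℂ → ℂ} {Mh : (ℂ → ℂ) → ℂ → ℂ}
    (hG : ∀ (β : ℂ → ℂ) (R : ℝ), ExtR β R → ContinuousOn (wf G β) {z | 0 < ‖z‖ ∧ ‖z‖ < 1})
    (hMc : ∀ (β : ℂ → ℂ) (R : ℝ), ExtR β R → ContinuousOn (Mh β) {z | 0 < ‖z‖ ∧ ‖z‖ < 1})
    (hM : ∀ β z, ‖Mh β z‖ ≤ Mb) (near : NearStmt κ) (mint : MIntStmt κ dl)
    (mcont : MContStmt κ dl) (ent : EntStmt) (pt : PTStmt κ dl G Mh) (lip : LipStmt κ) :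
    ∀ e : ℝ, 0 < e → ∃ C a₀ : ℝ, a₀ < 1 ∧ ∀ (β : ℂ → ℂ) (R a : ℝ), ExtR β R → a₀ < a → a < 1 →
      (2 * π)⁻¹ * (∫ α in (0:ℝ)..(2 * π), ‖N β (a * Complex.exp (α * I))‖ ^ (-κ)) ≤
        C * (1 - a ^ 2) ^ (-(κ - 1 + dl + e)) := by
  intro e he
  have hpi := Real.pi_pos
  obtain ⟨C₀, hC₀, pt⟩ := pt
  have hth0 : 0 ≤ Mb / (2 * κ) := by (clear * - hMb hκ; positivity)
  have hth1 : Mb / (2 * κ) < 1 := by
    rw [div_lt_one (by linarith only [hMb, hMb2])]
    exact hMb2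
  obtain ⟨ε₁, hε₁, EX⟩ := Pool.Agent.Helper96.CK.exp_lemma3 (C₀ := C₀ + 1) hth0 hth1
    (by (clear * - hC₀; linarith only [hC₀])) e he
  obtain ⟨ε, hε⟩ : ∃ ε, ε = min ε₁ 1 := ⟨_, rfl⟩
  have hε0 : 0 < ε := by rw [hε]; exact lt_min hε₁ one_pos
  have hε1 : ε ≤ 1 := by rw [hε]; exact min_le_right _ _
  have hε2 : ε ≤ ε₁ := by rw [hε]; exact min_le_left _ _
  obtain ⟨s, C, hs0, hs1, hC, pt⟩ := pt ε hε0
  have hwin := window hκ hMb hG hMc hM near mint mcont ent hC₀ hε0 hε1 hs0 hs1 hC pt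
  obtain ⟨A, hA, lip⟩ := lip
  have cu : Continuous (bu s) := bu_cont s
  have hu0 : 0 < bu s 0 := bu_pos_zero hs0 hs1
  -- `WindowAt` for `ε₁`
  have hwin2 : Pool.Agent.Helper96.CK.WindowAt
      (fun i : {β : ℂ → ℂ // ∃ R : ℝ, ExtR β R} => GG κ dl (bu s) i.1)
      (Mb / (2 * κ)) (C₀ + 1) ε₁ := by
    obtain ⟨C₁, hC₁, H⟩ := hwin
    refine ⟨C₁, hC₁, fun n hn w hw hwn hw0 hwp η hη => ?_⟩
    obtain ⟨i, hi1, hi2⟩ := H n hn w hw hwn hw0 hwp η hη
    refine ⟨i, hi1, hi2.trans ?_⟩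
    obtain ⟨β, R, hβ⟩ := i
    have cg : Continuous (GG κ dl (bu s) β) := GG_cont hβ cu (bu_nonneg s) hu0
    have ceg : Continuous fun l => Real.exp (GG κ dl (bu s) β l) := Real.continuous_exp.comp cg
    have cw : Continuous w := hw.continuous
    have hle : ∫ l in n..(2 * n), Real.exp (GG κ dl (bu s) β l) * w l *
        (C₁ + ε * n + (C₀ + 1) * (l - n)) ≤ ∫ l in n..(2 * n),
          Real.exp (GG κ dl (bu s) β l) * w l * (C₁ + ε₁ * n + (C₀ + 1) * (l - n)) := by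
      refine intervalIntegral.integral_mono_on (by linarith only [hn]) ?_ ?_ ?_
      · exact ((ceg.mul cw).mul (by fun_prop)).intervalIntegrable _ _
      · exact ((ceg.mul cw).mul (by fun_prop)).intervalIntegrable _ _
      · intro l _
        refine mul_le_mul_of_nonneg_left ?_ (mul_nonneg (Real.exp_pos _).le (hwn l))
        have : ε * n ≤ ε₁ * n := mul_le_mul_of_nonneg_right hε2 (by linarith only [hn])
        (clear * - this; linarith only [this])
    have hle2 := add_le_add_left (add_le_add_left hle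
      ((Mb / (2 * κ) * n + C₁) * ∫ l in n..(2 * n), Real.exp (GG κ dl (bu s) β l) *
        |deriv w l|)) η
    exact hle2
  -- Lipschitz
  have hm2 : ∀ (β : ℂ → ℂ) (R : ℝ), ExtR β R → ∀ l l' : ℝ, 2 ≤ l → 2 ≤ l' →
      mm κ (bu s) β l ≤ Real.exp (A * |l - l'|) * mm κ (bu s) β l' := by
    intro β R hβ l l' hl hl'
    unfold mm
    have h1 : ∫ θ in (-π)..π, bu s θ * FF κ β (Real.exp (-l)) θ ≤
        ∫ θ in (-π)..π, Real.exp (A * |l - l'|) * (bu s θ * FF κ β (Real.exp (-l')) θ) := by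
      refine intervalIntegral.integral_mono_on (by linarith only [hpi]) ?_ ?_ ?_
      · exact (cu.mul (FF_cont_th κ hβ (Real.exp_pos _))).intervalIntegrable _ _
      · exact (continuous_const.mul (cu.mul (FF_cont_th κ hβ
          (Real.exp_pos _)))).intervalIntegrable _ _
      · intro θ _
        have h2 := mul_le_mul_of_nonneg_left ((lip β R hβ).1 l l' θ hl hl') (bu_nonneg s θ)
        calc _ ≤ _ := h2
          _ = _ := by ring
    rw [intervalIntegral.integral_const_mul] at h1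
    calc _ ≤ (2 * π)⁻¹ * (Real.exp (A * |l - l'|) *
          ∫ θ in (-π)..π, bu s θ * FF κ β (Real.exp (-l')) θ) :=
          mul_le_mul_of_nonneg_left h1 (by positivity)
      _ = _ := by ring
  have hlog : ∀ (β : ℂ → ℂ) (R : ℝ), ExtR β R → ∀ l l' : ℝ, 2 ≤ l → 2 ≤ l' →
      Real.log (mm κ (bu s) β l) - Real.log (mm κ (bu s) β l') ≤ A * |l - l'| := by
    intro β R hβ l l' hl hl'
    have hp := mm_pos (κ := κ) hβ cu (bu_nonneg s) hu0 l
    have hp' := mm_pos (κ := κ) hβ cu (bu_nonneg s) hu0 l'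
    have h1 := Real.log_le_log hp (hm2 β R hβ l l' hl hl')
    rw [Real.log_mul (Real.exp_pos _).ne' hp'.ne', Real.log_exp] at h1
    linarith only [h1]
  obtain ⟨A', hA'⟩ : ∃ A', A' = A + (κ - 1 + dl) := ⟨_, rfl⟩
  have hA'0 : 0 ≤ A' := by rw [hA']; linarith only [hκ, hdl, hA]
  obtain ⟨K, hK⟩ := EX (ι := {β : ℂ → ℂ // ∃ R : ℝ, ExtR β R})
    (G := fun i => GG κ dl (bu s) i.1) (A := A') hA'0 (by
      rintro ⟨β, R, hβ⟩
      have hp := mm_pos (κ := κ) hβ cu (bu_nonneg s) hu0 2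
      have h1 : mm κ (bu s) β 2 ≤ Real.exp A := by
        unfold mm
        have h2 : ∫ θ in (-π)..π, bu s θ * FF κ β (Real.exp (-2)) θ ≤
            ∫ _θ in (-π)..π, Real.exp A := by
          refine intervalIntegral.integral_mono_on (by (clear * - hpi; linarith only [hpi])) ?_
            intervalIntegrable_const ?_
          · exact (cu.mul (FF_cont_th κ hβ (Real.exp_pos _))).intervalIntegrable _ _
          · intro θ _
            have h3 := (lip β R hβ).2 θ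
            have h4 := (FF_pos κ hβ (Real.exp_pos (-2)) θ).le
            calc _ ≤ 1 * FF κ β (Real.exp (-2)) θ :=
                  mul_le_mul_of_nonneg_right (bu_le_one hs0 hs1 θ) h4
              _ ≤ _ := by rw [one_mul]; exact h3
        rw [intervalIntegral.integral_const, smul_eq_mul] at h2
        have h5 := mul_le_mul_of_nonneg_left h2 (by positivity : 0 ≤ (2 * π)⁻¹)
        refine h5.trans (le_of_eq ?_)
        field_simp
        ring
      have h6 := Real.log_le_log hp h1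
      rw [Real.log_exp] at h6
      have h7 : GG κ dl (bu s) β 0 = Real.log (mm κ (bu s) β 2) - (κ - 1 + dl) * 2 := by
        unfold GG
        norm_num
      show GG κ dl (bu s) β 0 ≤ A'
      rw [h7, hA']
      linarith only [hκ, hdl, h6]) (by
      rintro ⟨β, R, hβ⟩ l l' hl hl'
      show |GG κ dl (bu s) β l - GG κ dl (bu s) β l'| ≤ A' * |l - l'|
      have h1 := hlog β R hβ (l + 2) (l' + 2) (by linarith only [hl]) (by linarith only [hl'])
      have h2 := hlog β R hβ (l' + 2) (l + 2) (by linarith only [hl']) (by (clear * - hl; linarith))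
      have e1 : l + 2 - (l' + 2) = l - l' := by ring
      have e2 : l' + 2 - (l + 2) = -(l - l') := by ring
      rw [e1] at h1
      rw [e2, abs_neg] at h2
      have h3 : (κ - 1 + dl) * (l - l') ≤ (κ - 1 + dl) * |l - l'| :=
        mul_le_mul_of_nonneg_left (le_abs_self _) (by linarith only [hκ, hdl])
      have h4 : (κ - 1 + dl) * (-(l - l')) ≤ (κ - 1 + dl) * |l - l'| :=
        mul_le_mul_of_nonneg_left (neg_le_abs _) (by linarith only [hκ, hdl])
      unfold GG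
      rw [hA', abs_le]
      constructor <;> linarith only [h2, h3, h1, h4]) hwin2
  -- conclusion
  obtain ⟨Kn, Cu, hKn, hCu, cov, -⟩ := bu_cover hs0 hs1
  obtain ⟨S, hS⟩ : ∃ S, S = κ - 1 + dl + e := ⟨_, rfl⟩
  have hS0 : 0 < S := by rw [hS]; linarith only [hκ, hdl, he]
  refine ⟨Cu * Kn * Real.exp K * 2 ^ S, Real.exp (-Real.exp (-2)), ?_, ?_⟩
  · rw [Real.exp_lt_one_iff]
    have := Real.exp_pos (-2)
    linarith only [this]
  intro β R a hβ ha0 ha1
  have hapos : 0 < a := (Real.exp_pos _).trans ha0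
  obtain ⟨x, hx⟩ : ∃ x, x = -Real.log a := ⟨_, rfl⟩
  have hx0 : 0 < x := by
    rw [hx]
    have := Real.log_neg hapos ha1
    linarith only [this]
  have hx2 : x ≤ Real.exp (-2) := by
    have := Real.log_le_log (Real.exp_pos _) ha0.le
    rw [Real.log_exp] at this
    rw [hx]
    linarith only [this]
  obtain ⟨l, hl⟩ : ∃ l, l = -Real.log x := ⟨_, rfl⟩
  have hl2 : 2 ≤ l := by
    have := Real.log_le_log hx0 hx2
    rw [Real.log_exp] at this
    rw [hl]
    linarith only [this]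
  have hxl : x = Real.exp (-l) := by rw [hl, neg_neg, Real.exp_log hx0]
  have hxa : Real.exp (-x) = a := by rw [hx, neg_neg, Real.exp_log hapos]
  have hB : ∀ γ : ℂ → ℂ, ExtR γ R → mm κ (bu s) γ l ≤ Real.exp K * Real.exp (S * l) := by
    intro γ hγ
    have h1 := hK ⟨γ, R, hγ⟩ (l - 2) (by linarith only [hl2])
    have h2 : GG κ dl (bu s) γ (l - 2) ≤ K + e * (l - 2) := h1
    have e1 : l - 2 + 2 = l := by ring
    unfold GG at h2
    rw [e1] at h2
    have hp := mm_pos (κ := κ) hγ cu (bu_nonneg s) hu0 l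
    rw [← Real.exp_add]
    calc mm κ (bu s) γ l = Real.exp (Real.log (mm κ (bu s) γ l)) := (Real.exp_log hp).symm
      _ ≤ _ := Real.exp_le_exp.2 (by rw [hS]; (clear * - he h2; linarith only [he, h2]))
  have hfull := full_le cu (bu_per s) hCu.le cov hβ hB
  -- the integral over `0..2π`
  have hN : ∀ α : ℝ, ‖N β (a * Complex.exp (α * I))‖ ^ (-κ) = FF κ β (Real.exp (-l)) α := by
    intro α
    unfold FF
    congr 3
    rw [← hxl]
    unfold ep
    rw [Complex.exp_add, ← Complex.ofReal_exp, hxa]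
  have hper : Function.Periodic (FF κ β (Real.exp (-l))) (2 * π) := FF_per κ β _
  have hshift := hper.intervalIntegral_add_eq 0 (-π)
  rw [zero_add, show -π + 2 * π = π by ring] at hshift
  simp only [hN]
  rw [hshift]
  refine hfull.trans ?_
  have h1a : 0 < 1 - a ^ 2 := by (clear * - ha1 hapos; nlinarith only [ha1, hapos])
  have hxge : (1 - a ^ 2) / 2 ≤ x := by
    have := Real.add_one_le_exp (-x)
    rw [hxa] at this
    nlinarith only [h1a, this]
  have h9 : Real.exp (S * l) ≤ 2 ^ S * (1 - a ^ 2) ^ (-S) := by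
    have e1 : Real.exp (S * l) = x ^ (-S) := by
      rw [Real.rpow_def_of_pos hx0, hl]
      congr 1
      ring
    rw [e1]
    calc x ^ (-S) ≤ ((1 - a ^ 2) / 2) ^ (-S) :=
          Real.rpow_le_rpow_of_nonpos (by (clear * - h1a; positivity)) hxge (by linarith only [hS0])
      _ = _ := by
          rw [Real.div_rpow h1a.le (by norm_num), Real.rpow_neg (by norm_num : (0:ℝ) ≤ 2),
            div_inv_eq_mul, mul_comm]
  rw [← hS]
  calc Cu * Kn * (Real.exp K * Real.exp (S * l)) = Cu * Kn * Real.exp K * Real.exp (S * l) := by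
        ring
    _ ≤ Cu * Kn * Real.exp K * (2 ^ S * (1 - a ^ 2) ^ (-S)) :=
        mul_le_mul_of_nonneg_left h9 (by (clear * - hCu hKn; positivity))
    _ = _ := by ring

/-- the class Σ and all larger powers -/
theorem asmS {κ dl Mb : ℝ} (hκ : 1 ≤ κ) (hdl : 0 ≤ dl) (hMb : 0 ≤ Mb) (hMb2 : Mb < 2 * κ)
    {G : ℂ → ℂ} {Mh : (ℂ → ℂ) → ℂ → ℂ}
    (hG : ∀ (β : ℂ → ℂ) (R : ℝ), ExtR β R → ContinuousOn (wf G β) {z | 0 < ‖z‖ ∧ ‖z‖ < 1})
    (hMc : ∀ (β : ℂ → ℂ) (R : ℝ), ExtR β R → ContinuousOn (Mh β) {z | 0 < ‖z‖ ∧ ‖z‖ < 1})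
    (hM : ∀ β z, ‖Mh β z‖ ≤ Mb) (near : NearStmt κ) (mint : MIntStmt κ dl)
    (mcont : MContStmt κ dl) (ent : EntStmt) (pt : PTStmt κ dl G Mh) (lip : LipStmt κ) :
    ∀ p : ℝ, κ ≤ p → ∀ e : ℝ, 0 < e → ∃ C : ℝ, ∀ ψ : ℂ → ℂ,
      DifferentiableOn ℂ ψ {z : ℂ | 1 < ‖z‖} → InjOn ψ {z : ℂ | 1 < ‖z‖} →
      (∃ b : ℂ, Filter.Tendsto (fun z => ψ z - z) (Bornology.cobounded ℂ) (nhds b)) →
      ∀ R : ℝ, 1 < R →
      (2 * π)⁻¹ * (∫ θ in (0:ℝ)..(2 * π), ‖deriv ψ (R * Complex.exp (θ * I))‖ ^ (-p)) ≤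
        C * (R ^ 2 / (R ^ 2 - 1)) ^ (p - 1 + dl + e) := by
  intro p hp e he
  have h1 := asm hκ hdl hMb hMb2 hG hMc hM near mint mcont ent pt lip e he
  have h2 := Pool.Agent.Helper58.CK.moment_ExtS (by linarith) (by (clear * - hκ hdl he; linarith only [hκ, hdl, he])) h1 p hp
  have h3 : κ - 1 + dl + e + (p - κ) = p - 1 + dl + e := by ring
  rw [h3] at h2
  exact Pool.Agent.Helper58.CK.finalS h2

end Pool.Agent.Helper52.CK

end

section

set_option autoImplicit false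

open Complex MeasureTheory Metric Set

open scoped Real ComplexConjugate ContDiff

namespace Pool.Agent.Helper14.CK

/-- the term of the multiplier is continuous on the closed rectangles of the target -/
theorem mcont (κ dl : ℝ) : Pool.Agent.Helper52.CK.MContStmt κ dl := by
  intro a b ha hab _ β R hR W0 Mh Mb hW hM hMb
  exact MM_cont hW hM hMb hR ha hab.le

end Pool.Agent.Helper14.CK

end

section

namespace Pool.Agent.Helper39.Area
end Pool.Agent.Helper39.Area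
namespace Pool.Agent.Helper52.EK
end Pool.Agent.Helper52.EK
namespace Pool.Agent.Helper61.EK
end Pool.Agent.Helper61.EK

set_option autoImplicit false

open Complex MeasureTheory Metric Set

open scoped Real ComplexConjugate

namespace Pool.Agent.Helper58.CK

open Pool.Agent.Helper39.Area Pool.Agent.Helper52.EK Pool.Agent.Helper61.EK

/-- ENT for a positive cut-off function -/
theorem ent_pos {C : ℝ}
    (hE : ∀ (ρ : ℝ → ℝ) (w : ℂ → ℂ) (a : ℝ), Dens ρ →
      ContinuousOn w {z | 0 < ‖z‖ ∧ ‖z‖ < 1} → Real.exp (-1) < a → a < 1 →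
      -Real.log (1 - a ^ 2) - C ≤ (2 * π)⁻¹ * (∫ α in (0:ℝ)..(2 * π), ρ α * Real.log (ρ α)) +
        (2 * π)⁻¹ * ∫ α in (0:ℝ)..(2 * π), ρ α * Kf w (Complex.exp (α * I)) (-1) (Real.log a))
    {κ : ℝ} {β : ℂ → ℂ} {R a : ℝ} {w : ℂ → ℂ} {u : ℝ → ℝ} (h : ExtR β R)
    (hw : ContinuousOn w {z | 0 < ‖z‖ ∧ ‖z‖ < 1}) (hae : Real.exp (-1) < a) (ha1 : a < 1)
    (hu : Continuous u) (hu0 : ∀ α, 0 < u α) (hu1 : ∀ α, u α ≤ 1)
    (hper : Function.Periodic u (2 * π)) :
    ((2 * π)⁻¹ * ∫ α in (0:ℝ)..(2 * π), u α * ‖N β (a * Complex.exp (α * I))‖ ^ (-κ)) *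
        Real.log ((2 * π)⁻¹ * ∫ α in (0:ℝ)..(2 * π),
          u α * ‖N β (a * Complex.exp (α * I))‖ ^ (-κ)) ≤
      ((2 * π)⁻¹ * ∫ α in (0:ℝ)..(2 * π), u α * ‖N β (a * Complex.exp (α * I))‖ ^ (-κ)) *
        (Real.log (1 - a ^ 2) + C) +
      (2 * π)⁻¹ * ∫ α in (0:ℝ)..(2 * π), u α * ‖N β (a * Complex.exp (α * I))‖ ^ (-κ) *
        (Kf w (Complex.exp (α * I)) (-1) (Real.log a) -
          κ * Real.log ‖N β (a * Complex.exp (α * I))‖) := by
  have hap : 0 < a := (Real.exp_pos _).trans hae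
  have h2π : (0:ℝ) < 2 * π := by positivity
  obtain ⟨f, hf⟩ : ∃ f : ℝ → ℝ, f = fun α : ℝ => ‖N β (a * Complex.exp (α * I))‖ := ⟨_, rfl⟩
  have hfe : ∀ α : ℝ, ‖N β (a * Complex.exp (α * I))‖ = f α := fun α => by rw [hf]
  simp only [hfe]
  have hfc : Continuous f := by rw [hf]; exact (N_circ_cont h hap ha1).norm
  have hfp : ∀ α, 0 < f α := fun α => by rw [hf]; exact N_circ_pos h hap ha1 α
  have hfper : Function.Periodic f (2 * π) := by
    intro α
    rw [← hfe, ← hfe, exp_per]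
  obtain ⟨g, hg⟩ : ∃ g : ℝ → ℝ, g = fun α => u α * f α ^ (-κ) := ⟨_, rfl⟩
  have hge : ∀ α : ℝ, u α * f α ^ (-κ) = g α := fun α => by rw [hg]
  simp only [hge]
  have hgc : Continuous g := by
    rw [hg]; exact hu.mul (hfc.rpow_const (fun α => Or.inl (hfp α).ne'))
  have hgp : ∀ α, 0 < g α := fun α => by
    rw [hg]; exact mul_pos (hu0 α) (Real.rpow_pos_of_pos (hfp α) _)
  have hI : 0 < ∫ α in (0:ℝ)..(2 * π), g α :=
    intervalIntegral.intervalIntegral_pos_of_pos (hgc.intervalIntegrable _ _) hgp h2π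
  obtain ⟨M, hM⟩ : ∃ M : ℝ, M = (2 * π)⁻¹ * (∫ α in (0:ℝ)..(2 * π), g α) := ⟨_, rfl⟩
  rw [← hM]
  have hMp : 0 < M := by rw [hM]; exact mul_pos (inv_pos.mpr h2π) hI
  have hdens : Dens (fun α => M⁻¹ * g α) := by
    refine ⟨continuous_const.mul hgc, fun α => mul_pos (inv_pos.mpr hMp) (hgp α), ?_, ?_⟩
    · intro α
      simp only [hg]
      rw [hfper α, hper α]
    · rw [intervalIntegral.integral_const_mul, hM]
      (clear * - hI; field_simp)
  have hlog1 : -1 < Real.log a := (Real.lt_log_iff_exp_lt hap).mpr hae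
  have hlog2 : Real.log a < 0 := Real.log_neg hap ha1
  have hKc : Continuous (fun α : ℝ => Kf w (Complex.exp (α * I)) (-1) (Real.log a)) :=
    Pool.Agent.Helper26.EK.Kf_cont hw hlog1 hlog2
  have hmain := hE _ w a hdens hw hae ha1
  have hlogg : ∀ α, Real.log (M⁻¹ * g α) ≤ -κ * Real.log (f α) - Real.log M := by
    intro α
    rw [Real.log_mul (inv_pos.mpr hMp).ne' (hgp α).ne', Real.log_inv]
    have : Real.log (g α) = Real.log (u α) - κ * Real.log (f α) := by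
      rw [← hge, Real.log_mul (hu0 α).ne' (Real.rpow_pos_of_pos (hfp α) _).ne',
        Real.log_rpow (hfp α)]
      ring
    rw [this]
    have := Real.log_nonpos (hu0 α).le (hu1 α)
    (clear * - this; linarith only [this])
  have hi1 : IntervalIntegrable (fun α => M⁻¹ * g α * Real.log (M⁻¹ * g α)) volume 0 (2 * π) :=
    ((continuous_const.mul hgc).mul ((continuous_const.mul hgc).log
      fun α => (mul_pos (inv_pos.mpr hMp) (hgp α)).ne')).intervalIntegrable _ _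
  have hi2 : IntervalIntegrable
      (fun α => M⁻¹ * g α * Kf w (Complex.exp (α * I)) (-1) (Real.log a)) volume 0 (2 * π) :=
    ((continuous_const.mul hgc).mul hKc).intervalIntegrable _ _
  have hi3 : IntervalIntegrable (fun α => g α *
      (Kf w (Complex.exp (α * I)) (-1) (Real.log a) - κ * Real.log (f α))) volume 0 (2 * π) :=
    (hgc.mul (hKc.sub (continuous_const.mul
      (hfc.log fun α => (hfp α).ne')))).intervalIntegrable _ _
  have hsum : (∫ α in (0:ℝ)..(2 * π), M⁻¹ * g α * Real.log (M⁻¹ * g α)) +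
      (∫ α in (0:ℝ)..(2 * π), M⁻¹ * g α * Kf w (Complex.exp (α * I)) (-1) (Real.log a)) ≤
      M⁻¹ * (∫ α in (0:ℝ)..(2 * π), g α *
        (Kf w (Complex.exp (α * I)) (-1) (Real.log a) - κ * Real.log (f α))) -
        M⁻¹ * (∫ α in (0:ℝ)..(2 * π), g α) * Real.log M := by
    have hA : IntervalIntegrable (fun α => M⁻¹ * (g α *
        (Kf w (Complex.exp (α * I)) (-1) (Real.log a) - κ * Real.log (f α)))) volume 0 (2 * π) :=
      hi3.const_mul _
    have hB : IntervalIntegrable (fun α => M⁻¹ * (g α * Real.log M)) volume 0 (2 * π) :=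
      (continuous_const.mul (hgc.mul continuous_const)).intervalIntegrable _ _
    have e6 : M⁻¹ * (∫ α in (0:ℝ)..(2 * π), g α *
        (Kf w (Complex.exp (α * I)) (-1) (Real.log a) - κ * Real.log (f α))) -
        M⁻¹ * (∫ α in (0:ℝ)..(2 * π), g α) * Real.log M =
        ∫ α in (0:ℝ)..(2 * π), (M⁻¹ * (g α *
        (Kf w (Complex.exp (α * I)) (-1) (Real.log a) - κ * Real.log (f α))) -
        M⁻¹ * (g α * Real.log M)) := by
      rw [intervalIntegral.integral_sub hA hB, intervalIntegral.integral_const_mul,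
        intervalIntegral.integral_const_mul, intervalIntegral.integral_mul_const]
      ring
    rw [e6, ← intervalIntegral.integral_add hi1 hi2]
    apply intervalIntegral.integral_mono_on h2π.le (hi1.add hi2) (hA.sub hB)
    intro α _
    have h1 := mul_le_mul_of_nonneg_left (hlogg α) (mul_pos (inv_pos.mpr hMp) (hgp α)).le
    show M⁻¹ * g α * Real.log (M⁻¹ * g α) +
      M⁻¹ * g α * Kf w (Complex.exp (α * I)) (-1) (Real.log a) ≤ _
    (clear * - h1; linarith only [h1])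
  have hone : (2 * π)⁻¹ * (M⁻¹ * (∫ α in (0:ℝ)..(2 * π), g α) * Real.log M) = Real.log M := by
    have e : (2 * π)⁻¹ * (M⁻¹ * (∫ α in (0:ℝ)..(2 * π), g α) * Real.log M) =
        M⁻¹ * ((2 * π)⁻¹ * (∫ α in (0:ℝ)..(2 * π), g α)) * Real.log M := by ring
    rw [e, ← hM, inv_mul_cancel₀ hMp.ne', one_mul]
  have hsum2 := mul_le_mul_of_nonneg_left hsum (inv_pos.mpr h2π).le
  rw [mul_add, mul_sub, hone] at hsum2
  have h3 := hmain.trans hsum2
  have h4 := mul_le_mul_of_nonneg_left h3 hMp.le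
  have e5 : M * ((2 * π)⁻¹ * (M⁻¹ * (∫ α in (0:ℝ)..(2 * π), g α *
        (Kf w (Complex.exp (α * I)) (-1) (Real.log a) - κ * Real.log (f α)))) - Real.log M) =
      (2 * π)⁻¹ * (∫ α in (0:ℝ)..(2 * π), g α *
        (Kf w (Complex.exp (α * I)) (-1) (Real.log a) - κ * Real.log (f α))) -
        M * Real.log M := by
    obtain ⟨Q, hQ⟩ : ∃ Q : ℝ, Q = ∫ α in (0:ℝ)..(2 * π), g α *
        (Kf w (Complex.exp (α * I)) (-1) (Real.log a) - κ * Real.log (f α)) := ⟨_, rfl⟩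
    rw [← hQ]
    (clear * - hMp; field_simp)
  rw [e5] at h4
  (clear * - h4; linarith only [h4])

/-- ENT: the entropy inequality for the localised Gibbs density on one circle -/
theorem ent : ∃ C : ℝ, ∀ (κ : ℝ) (β : ℂ → ℂ) (R a : ℝ) (w : ℂ → ℂ) (u : ℝ → ℝ), ExtR β R →
    ContinuousOn w {z | 0 < ‖z‖ ∧ ‖z‖ < 1} → Real.exp (-1) < a → a < 1 →
    Continuous u → (∀ α, 0 ≤ u α) → (∀ α, u α ≤ 1) → Function.Periodic u (2 * π) →
    ((2 * π)⁻¹ * ∫ α in (0:ℝ)..(2 * π), u α * ‖N β (a * Complex.exp (α * I))‖ ^ (-κ)) *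
        Real.log ((2 * π)⁻¹ * ∫ α in (0:ℝ)..(2 * π),
          u α * ‖N β (a * Complex.exp (α * I))‖ ^ (-κ)) ≤
      ((2 * π)⁻¹ * ∫ α in (0:ℝ)..(2 * π), u α * ‖N β (a * Complex.exp (α * I))‖ ^ (-κ)) *
        (Real.log (1 - a ^ 2) + C) +
      (2 * π)⁻¹ * ∫ α in (0:ℝ)..(2 * π), u α * ‖N β (a * Complex.exp (α * I))‖ ^ (-κ) *
        (Kf w (Complex.exp (α * I)) (-1) (Real.log a) -
          κ * Real.log ‖N β (a * Complex.exp (α * I))‖) := by
  obtain ⟨C, hE⟩ := Pool.Agent.Helper5.EK.entropy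
  refine ⟨C, ?_⟩
  intro κ β R a w u h hw hae ha1 hu hu0 hu1 hper
  have hap : 0 < a := (Real.exp_pos _).trans hae
  have hlog1 : -1 < Real.log a := (Real.lt_log_iff_exp_lt hap).mpr hae
  have hlog2 : Real.log a < 0 := Real.log_neg hap ha1
  have hKc : Continuous (fun α : ℝ => Kf w (Complex.exp (α * I)) (-1) (Real.log a)) :=
    Pool.Agent.Helper26.EK.Kf_cont hw hlog1 hlog2
  have hfc : Continuous (fun α : ℝ => ‖N β (a * Complex.exp (α * I))‖) :=
    (N_circ_cont h hap ha1).norm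
  have hfp : ∀ α : ℝ, 0 < ‖N β (a * Complex.exp (α * I))‖ := fun α => N_circ_pos h hap ha1 α
  have hFc : Continuous (fun α : ℝ => ‖N β (a * Complex.exp (α * I))‖ ^ (-κ)) :=
    hfc.rpow_const (fun α => Or.inl (hfp α).ne')
  obtain ⟨F, hF⟩ : ∃ F : ℝ → ℝ, F = fun α : ℝ => ‖N β (a * Complex.exp (α * I))‖ ^ (-κ) := ⟨_, rfl⟩
  obtain ⟨K, hK⟩ : ∃ K : ℝ → ℝ, K = fun α : ℝ => Kf w (Complex.exp (α * I)) (-1) (Real.log a) -
      κ * Real.log ‖N β (a * Complex.exp (α * I))‖ := ⟨_, rfl⟩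
  have hKc' : Continuous K := by
    rw [hK]; exact hKc.sub (continuous_const.mul (hfc.log fun α => (hfp α).ne'))
  rw [← hF] at hFc
  have hFe : ∀ α : ℝ, ‖N β (a * Complex.exp (α * I))‖ ^ (-κ) = F α := fun α => by rw [hF]
  have hKe : ∀ α : ℝ, Kf w (Complex.exp (α * I)) (-1) (Real.log a) -
      κ * Real.log ‖N β (a * Complex.exp (α * I))‖ = K α := fun α => by rw [hK]
  simp only [hFe, hKe]
  -- the means as affine functions of the regularisation
  obtain ⟨m0, hm0⟩ : ∃ m0 : ℝ, m0 = ∫ α in (0:ℝ)..(2 * π), u α * F α := ⟨_, rfl⟩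
  obtain ⟨m1, hm1⟩ : ∃ m1 : ℝ, m1 = ∫ α in (0:ℝ)..(2 * π), F α := ⟨_, rfl⟩
  obtain ⟨k0, hk0⟩ : ∃ k0 : ℝ, k0 = ∫ α in (0:ℝ)..(2 * π), u α * F α * K α := ⟨_, rfl⟩
  obtain ⟨k1, hk1⟩ : ∃ k1 : ℝ, k1 = ∫ α in (0:ℝ)..(2 * π), F α * K α := ⟨_, rfl⟩
  rw [← hm0, ← hk0]
  have hcase : ∀ e : ℝ, 0 < e →
      ((2 * π)⁻¹ * ((1 + e)⁻¹ * (m0 + e * m1))) *
        Real.log ((2 * π)⁻¹ * ((1 + e)⁻¹ * (m0 + e * m1))) ≤
      ((2 * π)⁻¹ * ((1 + e)⁻¹ * (m0 + e * m1))) * (Real.log (1 - a ^ 2) + C) +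
      (2 * π)⁻¹ * ((1 + e)⁻¹ * (k0 + e * k1)) := by
    intro e he
    have h1 := ent_pos hE (κ := κ) (u := fun α => (1 + e)⁻¹ * (u α + e)) h hw hae ha1
      (continuous_const.mul (hu.add continuous_const))
      (fun α => mul_pos (by (clear * - he; positivity)) (by have := hu0 α; linarith only [he, this]))
      (fun α => by
        rw [inv_mul_le_iff₀ (by (clear * - he; positivity))]
        have := hu1 α
        (clear * - this; linarith))
      (fun α => by simp only [hper α])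
    simp only [hFe, hKe] at h1
    have hj3 : IntervalIntegrable (fun α => u α * F α) volume 0 (2 * π) :=
      (hu.mul hFc).intervalIntegrable _ _
    have hj4 : IntervalIntegrable (fun α => e * F α) volume 0 (2 * π) :=
      (continuous_const.mul hFc).intervalIntegrable _ _
    have e1 : (∫ α in (0:ℝ)..(2 * π), (1 + e)⁻¹ * (u α + e) * F α) =
        (1 + e)⁻¹ * (m0 + e * m1) := by
      rw [hm0, hm1, ← intervalIntegral.integral_const_mul e,
        ← intervalIntegral.integral_add hj3 hj4,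
        ← intervalIntegral.integral_const_mul]
      congr 1
      funext α
      ring
    have hj1 : IntervalIntegrable (fun α => u α * F α * K α) volume 0 (2 * π) :=
      ((hu.mul hFc).mul hKc').intervalIntegrable _ _
    have hj2 : IntervalIntegrable (fun α => e * (F α * K α)) volume 0 (2 * π) :=
      (continuous_const.mul (hFc.mul hKc')).intervalIntegrable _ _
    have e2 : (∫ α in (0:ℝ)..(2 * π), (1 + e)⁻¹ * (u α + e) * F α * K α) =
        (1 + e)⁻¹ * (k0 + e * k1) := by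
      rw [hk0, hk1, ← intervalIntegral.integral_const_mul e,
        ← intervalIntegral.integral_add hj1 hj2,
        ← intervalIntegral.integral_const_mul]
      congr 1
      funext α
      ring
    rw [e1, e2] at h1
    exact h1
  -- the limit
  have hcm : ContinuousAt (fun e : ℝ => (2 * π)⁻¹ * ((1 + e)⁻¹ * (m0 + e * m1))) 0 := by
    have : ContinuousAt (fun e : ℝ => (1 + e)⁻¹) 0 :=
      (continuous_const.add continuous_id).continuousAt.inv₀ (by norm_num)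
    exact continuousAt_const.mul (this.mul (by fun_prop))
  have hck : ContinuousAt (fun e : ℝ => (2 * π)⁻¹ * ((1 + e)⁻¹ * (k0 + e * k1))) 0 := by
    have : ContinuousAt (fun e : ℝ => (1 + e)⁻¹) 0 :=
      (continuous_const.add continuous_id).continuousAt.inv₀ (by norm_num)
    exact continuousAt_const.mul (this.mul (by fun_prop))
  have hcl : ContinuousAt (fun e : ℝ => ((2 * π)⁻¹ * ((1 + e)⁻¹ * (m0 + e * m1))) *
        Real.log ((2 * π)⁻¹ * ((1 + e)⁻¹ * (m0 + e * m1)))) 0 := by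
    have := Real.continuous_mul_log.continuousAt.comp
      (f := fun e : ℝ => (2 * π)⁻¹ * ((1 + e)⁻¹ * (m0 + e * m1))) (x := 0) hcm
    exact this
  have hL := hcl.tendsto.mono_left (nhdsWithin_le_nhds (s := Ioi (0:ℝ)))
  have hR := ((hcm.mul (continuousAt_const (y := Real.log (1 - a ^ 2) + C))).add
    hck).tendsto.mono_left (nhdsWithin_le_nhds (s := Ioi (0:ℝ)))
  have hfin := le_of_tendsto_of_tendsto hL hR
    (by filter_upwards [self_mem_nhdsWithin] with e he using hcase e he)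
  simpa using hfin

theorem ep_eq (x θ : ℝ) : ep (-x) θ = (Real.exp (-x) : ℂ) * Complex.exp (θ * I) := by
  unfold ep
  rw [Complex.exp_add, Complex.ofReal_exp]

theorem integral_shift {f : ℝ → ℝ} (hf : Function.Periodic f (2 * π)) :
    ∫ θ in (-π)..π, f θ = ∫ θ in (0:ℝ)..(2 * π), f θ := by
  have h2 := hf.intervalIntegral_add_eq (-π) 0
  have e1 : -π + 2 * π = π := by ring
  have e2 : (0:ℝ) + 2 * π = 2 * π := by ring
  rw [e1, e2] at h2
  exact h2

/-- ENT, in the form of the specification -/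
theorem ent_stmt : Pool.Agent.Helper52.CK.EntStmt := by
  obtain ⟨C, hC⟩ := ent
  refine ⟨C, ?_⟩
  intro κ β R w u x _ h hw hu hu0 hu1 hper hx0 hx1 m hm _
  have hae : Real.exp (-1) < Real.exp (-x) := by
    rw [Real.exp_lt_exp]; (clear * - hx1; linarith only [hx1])
  have ha1 : Real.exp (-x) < 1 := by
    rw [Real.exp_lt_one_iff]; (clear * - hx0; linarith only [hx0])
  have h1 := hC κ β R (Real.exp (-x)) w u h hw hae ha1 hu hu0 hu1 hper
  have e2 : Real.exp (-x) ^ 2 = Real.exp (-2 * x) := by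
    rw [← Real.exp_nat_mul]; congr 1; push_cast; ring
  rw [Real.log_exp, e2] at h1
  have hp1 : Function.Periodic (fun θ : ℝ => u θ * Pool.Agent.Helper52.CK.FF κ β x θ) (2 * π) := by
    intro θ
    simp only [Pool.Agent.Helper52.CK.FF, ep_eq]
    rw [exp_per, hper θ]
  have hp2 : Function.Periodic (fun θ : ℝ => u θ * Pool.Agent.Helper52.CK.FF κ β x θ *
        (Kf w (Complex.exp (θ * I)) (-1) (-x) - κ * Real.log ‖N β (ep (-x) θ)‖)) (2 * π) := by
    intro θ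
    simp only [Pool.Agent.Helper52.CK.FF, ep_eq]
    rw [exp_per, hper θ]
  rw [integral_shift hp1] at hm
  rw [integral_shift hp2, hm]
  simp only [Pool.Agent.Helper52.CK.FF, ep_eq]
  exact h1

end Pool.Agent.Helper58.CK

end

section

namespace Pool.Agent.Helper39.Area
end Pool.Agent.Helper39.Area
namespace Pool.Agent.Helper52.EK
end Pool.Agent.Helper52.EK

set_option autoImplicit false

open Complex MeasureTheory Metric Set

open scoped Real ComplexConjugate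

namespace Pool.Agent.Helper52.CK

open Pool.Agent.Helper39.Area Pool.Agent.Helper52.EK

/-- from the inequality of one target to the class Σ, all powers `p ≥ κ` -/
theorem main_of_pt {κ dl Mb L : ℝ} (hκ : 1 ≤ κ) (hdl : 0 ≤ dl) (hMb : 0 ≤ Mb) (hMb2 : Mb < 2 * κ)
    {G : ℂ → ℂ} {Mh : (ℂ → ℂ) → ℂ → ℂ} (hG : GLip G L)
    (hMc : ∀ (β : ℂ → ℂ) (R : ℝ), ExtR β R → ContinuousOn (Mh β) {z | 0 < ‖z‖ ∧ ‖z‖ < 1})
    (hM : ∀ β z, ‖Mh β z‖ ≤ Mb) (pt : PTStmt κ dl G Mh) :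
    ∀ p : ℝ, κ ≤ p → ∀ e : ℝ, 0 < e → ∃ C : ℝ, ∀ ψ : ℂ → ℂ,
      DifferentiableOn ℂ ψ {z : ℂ | 1 < ‖z‖} → InjOn ψ {z : ℂ | 1 < ‖z‖} →
      (∃ b : ℂ, Filter.Tendsto (fun z => ψ z - z) (Bornology.cobounded ℂ) (nhds b)) →
      ∀ R : ℝ, 1 < R →
      (2 * π)⁻¹ * (∫ θ in (0:ℝ)..(2 * π), ‖deriv ψ (R * Complex.exp (θ * I))‖ ^ (-p)) ≤
        C * (R ^ 2 / (R ^ 2 - 1)) ^ (p - 1 + dl + e) :=
  asmS hκ hdl hMb hMb2 (fun _ _ h => Pool.Agent.Helper70.EK.wf_cont hG h.toExt) hMc hM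
    (Pool.Agent.Helper27.CK.nearStmt Pool.Agent.Helper5.CK.variation (by (clear * - hκ; linarith)))
    (Pool.Agent.Helper14.CK.mint (by (clear * - hκ; linarith)) hdl) (Pool.Agent.Helper14.CK.mcont κ dl)
    Pool.Agent.Helper58.CK.ent_stmt pt (Pool.Agent.Helper77.CK.lip (by linarith))

end Pool.Agent.Helper52.CK

end

section

namespace Pool.Agent.Helper39.Area
end Pool.Agent.Helper39.Area
namespace Pool.Agent.Helper39.EK
end Pool.Agent.Helper39.EK

set_option autoImplicit false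

open Complex MeasureTheory Metric Set Polynomial

open scoped Real ComplexConjugate

namespace Pool.Agent.Helper5.TR

open Pool.Agent.Helper39.Area Pool.Agent.Helper39.EK

variable {β : ℂ → ℂ}

/-- the area theorem -/
theorem area_coeff (h : Ext β) {ρ : ℝ} (hρ : 0 < ρ) (hρ1 : ρ < 1) (N : ℕ) :
    ∑ n ∈ Finset.range N, (n:ℝ) * ρ ^ (2 * n) * ‖iteratedDeriv n β 0 / n.factorial‖ ^ 2 ≤
      1 / ρ ^ 2 := by
  obtain ⟨c, hc, hci⟩ := dirichlet_sum h.diff hρ hρ1
  obtain ⟨c2, hc2, hi⟩ := area_ineq h hρ hρ1 (Polynomial.X)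
  refine (hc N).trans ?_
  have hρ0 : (ρ:ℂ) ≠ 0 := by exact_mod_cast hρ.ne'
  have hβc : ContinuousOn β (sphere 0 ρ) := h.diff.continuousOn.mono
    (fun ζ hζ => mem_ball_of_sphere hρ1 (sphere_subset_closedBall hζ))
  have hβd : ContinuousOn (deriv β) (sphere 0 ρ) := (h.diff.deriv isOpen_ball).continuousOn.mono
    (fun ζ hζ => mem_ball_of_sphere hρ1 (sphere_subset_closedBall hζ))
  have hinv : ContinuousOn (fun ζ : ℂ => (ζ ^ 2)⁻¹) (sphere 0 ρ) := by
    apply ContinuousOn.inv₀ (by fun_prop)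
    intro ζ hζ
    exact pow_ne_zero _ (sphere_ne hρ hζ)
  have hinv1 : ContinuousOn (fun ζ : ℂ => ζ⁻¹) (sphere 0 ρ) := by
    apply ContinuousOn.inv₀ (by fun_prop)
    intro ζ hζ
    exact sphere_ne hρ hζ
  have hcb : ContinuousOn (fun ζ => conj (β ζ)) (sphere 0 ρ) :=
    Complex.continuous_conj.comp_continuousOn hβc
  -- the four integrals
  have i1 : (∮ ζ in C(0, ρ), -((ρ:ℂ) ^ 2)⁻¹ * ζ⁻¹) = -((ρ:ℂ) ^ 2)⁻¹ * (2 * π * I) := by
    rw [circleIntegral.integral_const_mul]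
    have := circleIntegral.integral_sub_center_inv (0:ℂ) hρ.ne'
    simp only [sub_zero] at this
    rw [this]
  have i2 : (∮ ζ in C(0, ρ), ((ρ:ℂ) ^ 2)⁻¹ * (ζ * deriv β ζ)) = 0 := by
    rw [circleIntegral.integral_const_mul, cauchy_zero hρ hρ1, mul_zero]
    exact differentiableOn_id.mul (h.diff.deriv isOpen_ball)
  have i3 : (∮ ζ in C(0, ρ), -(conj (β ζ) * (ζ ^ 2)⁻¹)) = 0 := by
    have h1 := conj_circle hρ (fun ζ => -(conj (β ζ) * (ζ ^ 2)⁻¹))
    have h2 : (∮ ζ in C(0, ρ), β ζ) = 0 := cauchy_zero hρ hρ1 h.diff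
    have h3 : conj (∮ ζ in C(0, ρ), -(conj (β ζ) * (ζ ^ 2)⁻¹)) = 0 := by
      rw [h1]
      have h4 : (∮ ζ in C(0, ρ), -((ρ:ℂ) ^ 2 / ζ ^ 2) * conj (-(conj (β ζ) * (ζ ^ 2)⁻¹))) =
          ∮ ζ in C(0, ρ), ((ρ:ℂ) ^ 2)⁻¹ * β ζ := by
        apply circleIntegral.integral_congr hρ.le
        intro ζ hζ
        have h5 := sphere_ne hρ hζ
        have h6 : conj ζ = (ρ:ℂ) ^ 2 / ζ := by
          rw [eq_div_iff h5, mul_comm, Complex.mul_conj, Complex.normSq_eq_norm_sq]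
          rw [mem_sphere, dist_zero_right] at hζ
          rw [hζ]; push_cast; ring
        simp only
        rw [map_neg, map_mul, map_inv₀, map_pow, Complex.conj_conj, h6]
        (clear * - h5 hρ0; field_simp)
      rw [h4, circleIntegral.integral_const_mul, h2, mul_zero]
    have h4 := congrArg conj h3
    simpa using h4
  have hsum : (∮ ζ in C(0, ρ), conj (Polynomial.X.eval (phi β ζ)) *
      ((derivative (Polynomial.X : ℂ[X])).eval (phi β ζ) * dphi β ζ)) =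
      ∮ ζ in C(0, ρ), (-((ρ:ℂ) ^ 2)⁻¹ * ζ⁻¹ + ((ρ:ℂ) ^ 2)⁻¹ * (ζ * deriv β ζ) +
        -(conj (β ζ) * (ζ ^ 2)⁻¹) + conj (β ζ) * deriv β ζ) := by
    apply circleIntegral.integral_congr hρ.le
    intro ζ hζ
    have h5 := sphere_ne hρ hζ
    have h6 : conj ζ = (ρ:ℂ) ^ 2 / ζ := by
      rw [eq_div_iff h5, mul_comm, Complex.mul_conj, Complex.normSq_eq_norm_sq]
      rw [mem_sphere, dist_zero_right] at hζ
      rw [hζ]; push_cast; ring
    simp only [Polynomial.eval_X, Polynomial.derivative_X, Polynomial.eval_one, one_mul]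
    unfold phi dphi
    rw [map_add, map_inv₀, h6]
    field_simp
    ring
  rw [hsum] at hi
  have c1 : CircleIntegrable (fun ζ : ℂ => -((ρ:ℂ) ^ 2)⁻¹ * ζ⁻¹) 0 ρ :=
    (continuousOn_const.mul hinv1).circleIntegrable hρ.le
  have c2' : CircleIntegrable (fun ζ : ℂ => ((ρ:ℂ) ^ 2)⁻¹ * (ζ * deriv β ζ)) 0 ρ :=
    (continuousOn_const.mul (continuousOn_id.mul hβd)).circleIntegrable hρ.le
  have c3 : CircleIntegrable (fun ζ : ℂ => -(conj (β ζ) * (ζ ^ 2)⁻¹)) 0 ρ :=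
    ((hcb.mul hinv).neg).circleIntegrable hρ.le
  have c4 : CircleIntegrable (fun ζ : ℂ => conj (β ζ) * deriv β ζ) 0 ρ :=
    (hcb.mul hβd).circleIntegrable hρ.le
  have c12 : CircleIntegrable (fun ζ : ℂ => -((ρ:ℂ) ^ 2)⁻¹ * ζ⁻¹ +
      ((ρ:ℂ) ^ 2)⁻¹ * (ζ * deriv β ζ)) 0 ρ := c1.add c2'
  have c123 : CircleIntegrable (fun ζ : ℂ => -((ρ:ℂ) ^ 2)⁻¹ * ζ⁻¹ +
      ((ρ:ℂ) ^ 2)⁻¹ * (ζ * deriv β ζ) + -(conj (β ζ) * (ζ ^ 2)⁻¹)) 0 ρ := c12.add c3
  rw [circleIntegral.integral_add c123 c4,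
    circleIntegral.integral_add c12 c3, circleIntegral.integral_add c1 c2', i1, i2, i3,
    hci] at hi
  have h1 : (c : ℂ) = ((1 / ρ ^ 2 - c2 / π : ℝ) : ℂ) := by
    have hpi : (π : ℂ) ≠ 0 := by exact_mod_cast Real.pi_ne_zero
    push_cast
    have hI : (I : ℂ) ≠ 0 := Complex.I_ne_zero
    have h2 : (2 * π * I : ℂ) * (1 / (ρ:ℂ) ^ 2 - c2 / π) =
        ((ρ:ℂ) ^ 2)⁻¹ * (2 * π * I) - 2 * I * c2 := by
      (clear * - hpi hρ0 hI; field_simp)
    apply mul_left_cancel₀ (show (2 * π * I : ℂ) ≠ 0 by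
      exact mul_ne_zero (mul_ne_zero two_ne_zero hpi) hI)
    rw [h2]
    linear_combination hi
  have h2 : c = 1 / ρ ^ 2 - c2 / π := by exact_mod_cast h1
  have h3 : 0 ≤ c2 / π := div_nonneg hc2 Real.pi_pos.le
  linarith only [h2, h3]

end Pool.Agent.Helper5.TR

end

section

namespace Pool.Agent.Helper39.Area
end Pool.Agent.Helper39.Area
namespace Pool.Agent.Helper39.EK
end Pool.Agent.Helper39.EK

set_option autoImplicit false

open Complex MeasureTheory Metric Set Filter Topology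

open scoped Real ComplexConjugate

namespace Pool.Agent.Helper5.TR

open Pool.Agent.Helper39.Area Pool.Agent.Helper39.EK

variable {β : ℂ → ℂ}

theorem nat_pow_le {s : ℝ} (h0 : 0 < s) (h1 : s < 1) (n : ℕ) :
    ((n:ℝ) + 1) * s ^ (n + 1) ≤ 1 / (1 - s) := by
  have h2 : 0 < 1 - s := by (clear * - h1; linarith only [h1])
  rw [le_div_iff₀ h2]
  have h3 : ∀ k : ℕ, k ≤ n → s ^ (n + 1) ≤ s ^ k := fun k hk =>
    pow_le_pow_of_le_one h0.le h1.le (by omega)
  have h4 : ((n:ℝ) + 1) * s ^ (n + 1) ≤ ∑ k ∈ Finset.range (n + 1), s ^ k := by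
    have : ((n:ℝ) + 1) * s ^ (n + 1) = ∑ _k ∈ Finset.range (n + 1), s ^ (n + 1) := by
      rw [Finset.sum_const, Finset.card_range, nsmul_eq_mul]; push_cast; ring
    rw [this]
    apply Finset.sum_le_sum
    intro k hk
    exact h3 k (by rw [Finset.mem_range] at hk; omega)
  have h5 : (∑ k ∈ Finset.range (n + 1), s ^ k) * (1 - s) = 1 - s ^ (n + 1) := by
    have := geom_sum_mul s (n + 1)
    linear_combination -this
  have h6 : 0 ≤ s ^ (n + 1) := by positivity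
  calc ((n:ℝ) + 1) * s ^ (n + 1) * (1 - s) ≤ (∑ k ∈ Finset.range (n + 1), s ^ k) * (1 - s) :=
        mul_le_mul_of_nonneg_right h4 h2.le
    _ ≤ 1 := by rw [h5]; linarith only [h6]

/-- the mean of `|β'|²` -/
theorem mean_deriv (h : Ext β) {s : ℝ} (hs : 0 < s) (hs1 : s < 1) :
    (1 / (2 * π)) * ∫ θ in (-π)..π, ‖deriv β ((s:ℂ) * Complex.exp (θ * I))‖ ^ 2 ≤
      1 / ((1 - s) * s ^ 3) := by
  have hp := parseval_deriv h.diff hs.le hs1
  refine hp.tsum_eq ▸ ?_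
  have h1s : 0 < 1 - s := by linarith
  apply Real.tsum_le_of_sum_range_le
  · intro n; (clear * - hs; positivity)
  intro N
  set ρ : ℝ := Real.sqrt s with hρ
  have hρ0 : 0 < ρ := Real.sqrt_pos.mpr hs
  have hρ1 : ρ < 1 := by
    rw [hρ, Real.sqrt_lt' one_pos]; (clear * - hs1; linarith)
  have hρ2 : ρ ^ 2 = s := Real.sq_sqrt hs.le
  have ha := area_coeff h hρ0 hρ1 (N + 1)
  rw [hρ2] at ha
  have h1 : ∀ n : ℕ, ‖((n:ℂ) + 1) * (iteratedDeriv (n + 1) β 0 / (n + 1).factorial)‖ ^ 2 *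
      s ^ (2 * n) ≤ (1 / ((1 - s) * s ^ 2)) * (((n + 1 : ℕ):ℝ) * ρ ^ (2 * (n + 1)) *
        ‖iteratedDeriv (n + 1) β 0 / (n + 1).factorial‖ ^ 2) := by
    intro n
    have h2 : ‖((n:ℂ) + 1)‖ = (n:ℝ) + 1 := by
      have : ((n:ℂ) + 1) = (((n:ℝ) + 1 : ℝ) : ℂ) := by push_cast; rfl
      rw [this, Complex.norm_real, Real.norm_of_nonneg (by (clear * -; positivity))]
    rw [norm_mul, h2, pow_mul ρ 2 (n + 1), hρ2]
    set e : ℝ := ‖iteratedDeriv (n + 1) β 0 / (n + 1).factorial‖ with he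
    have h3 := nat_pow_le hs hs1 n
    have h4 : (((n:ℝ) + 1) * e) ^ 2 * s ^ (2 * n) =
        (((n:ℝ) + 1) * s ^ (n + 1)) * (((n:ℝ) + 1) * s ^ (n + 1) * e ^ 2) * (1 / s ^ 2) := by
      field_simp
      ring
    rw [h4]
    have h5 : 0 ≤ ((n:ℝ) + 1) * s ^ (n + 1) * e ^ 2 := by (clear * - hs; positivity)
    calc (((n:ℝ) + 1) * s ^ (n + 1)) * (((n:ℝ) + 1) * s ^ (n + 1) * e ^ 2) * (1 / s ^ 2)
        ≤ (1 / (1 - s)) * (((n:ℝ) + 1) * s ^ (n + 1) * e ^ 2) * (1 / s ^ 2) := by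
          apply mul_le_mul_of_nonneg_right _ (by positivity)
          exact mul_le_mul_of_nonneg_right h3 h5
      _ = _ := by push_cast; (clear * - hs h1s; field_simp)
  calc ∑ n ∈ Finset.range N, ‖((n:ℂ) + 1) * (iteratedDeriv (n + 1) β 0 / (n + 1).factorial)‖ ^ 2 *
        s ^ (2 * n)
      ≤ ∑ n ∈ Finset.range N, (1 / ((1 - s) * s ^ 2)) * (((n + 1 : ℕ):ℝ) * ρ ^ (2 * (n + 1)) *
        ‖iteratedDeriv (n + 1) β 0 / (n + 1).factorial‖ ^ 2) := Finset.sum_le_sum fun n _ => h1 n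
    _ = (1 / ((1 - s) * s ^ 2)) * ∑ n ∈ Finset.range N, (((n + 1 : ℕ):ℝ) * ρ ^ (2 * (n + 1)) *
        ‖iteratedDeriv (n + 1) β 0 / (n + 1).factorial‖ ^ 2) := by rw [Finset.mul_sum]
    _ ≤ (1 / ((1 - s) * s ^ 2)) * (1 / s) := by
        apply mul_le_mul_of_nonneg_left _ (by positivity)
        refine le_trans ?_ ha
        rw [Finset.sum_range_succ']
        simp
    _ = 1 / ((1 - s) * s ^ 3) := by field_simp

/-- mean of `|1 - z² β'|²` -/
theorem mean_N (h : Ext β) {s : ℝ} (hs : 0 < s) (hs1 : s < 1) :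
    (1 / (2 * π)) * ∫ θ in (-π)..π, ‖1 - ((s:ℂ) * Complex.exp (θ * I)) ^ 2 *
      deriv β ((s:ℂ) * Complex.exp (θ * I))‖ ^ 2 ≤ 6 / (1 - s ^ 2) := by
  have hd : ContinuousOn (deriv β) (ball 0 1) := (h.diff.deriv isOpen_ball).continuousOn
  have hn : ∀ θ : ℝ, ‖(s:ℂ) * Complex.exp (θ * I)‖ = s := by
    intro θ
    rw [norm_mul, Complex.norm_exp_ofReal_mul_I, mul_one, Complex.norm_real,
      Real.norm_of_nonneg hs.le]
  have hm : ∀ θ : ℝ, (s:ℂ) * Complex.exp (θ * I) ∈ ball (0:ℂ) 1 := by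
    intro θ; rw [mem_ball, dist_zero_right, hn]; exact hs1
  have hcz : Continuous fun θ : ℝ => (s:ℂ) * Complex.exp (θ * I) := by fun_prop
  have hcd : Continuous fun θ : ℝ => deriv β ((s:ℂ) * Complex.exp (θ * I)) :=
    hd.comp_continuous hcz hm
  have h1 : ∀ θ : ℝ, ‖1 - ((s:ℂ) * Complex.exp (θ * I)) ^ 2 *
      deriv β ((s:ℂ) * Complex.exp (θ * I))‖ ^ 2 ≤
      2 + 2 * s ^ 4 * ‖deriv β ((s:ℂ) * Complex.exp (θ * I))‖ ^ 2 := by
    intro θ
    have h2 := norm_sub_le (1:ℂ) (((s:ℂ) * Complex.exp (θ * I)) ^ 2 *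
      deriv β ((s:ℂ) * Complex.exp (θ * I)))
    rw [norm_one, norm_mul, norm_pow, hn] at h2
    set d := ‖deriv β ((s:ℂ) * Complex.exp (θ * I))‖ with hdd
    have hd0 : 0 ≤ d := norm_nonneg _
    calc _ ≤ (1 + s ^ 2 * d) ^ 2 := pow_le_pow_left₀ (norm_nonneg _) h2 2
      _ ≤ _ := by linarith only [sq_nonneg (1 - s ^ 2 * d)]
  have h2 : ∫ θ in (-π)..π, ‖1 - ((s:ℂ) * Complex.exp (θ * I)) ^ 2 *
      deriv β ((s:ℂ) * Complex.exp (θ * I))‖ ^ 2 ≤
      ∫ θ in (-π)..π, (2 + 2 * s ^ 4 * ‖deriv β ((s:ℂ) * Complex.exp (θ * I))‖ ^ 2) := by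
    apply intervalIntegral.integral_mono_on (by linarith [Real.pi_pos])
    · apply Continuous.intervalIntegrable
      fun_prop
    · apply Continuous.intervalIntegrable
      fun_prop
    · intro θ _; exact h1 θ
  have h3 : ∫ θ in (-π)..π, (2 + 2 * s ^ 4 * ‖deriv β ((s:ℂ) * Complex.exp (θ * I))‖ ^ 2) =
      4 * π + 2 * s ^ 4 * ∫ θ in (-π)..π, ‖deriv β ((s:ℂ) * Complex.exp (θ * I))‖ ^ 2 := by
    rw [intervalIntegral.integral_add (by simp) (by
      apply Continuous.intervalIntegrable; fun_prop), intervalIntegral.integral_const,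
      intervalIntegral.integral_const_mul]
    simp only [smul_eq_mul]
    ring
  have h4 := mean_deriv h hs hs1
  have hpi := Real.pi_pos
  set J := ∫ θ in (-π)..π, ‖deriv β ((s:ℂ) * Complex.exp (θ * I))‖ ^ 2 with hJ
  have h1s : 0 < 1 - s := by (clear * - hs1; linarith)
  have h5 : s ^ 4 * ((1 / (2 * π)) * J) ≤ 1 / (1 - s) := by
    calc s ^ 4 * ((1 / (2 * π)) * J) ≤ s ^ 4 * (1 / ((1 - s) * s ^ 3)) :=
          mul_le_mul_of_nonneg_left h4 (by positivity)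
      _ = s / (1 - s) := by field_simp
      _ ≤ 1 / (1 - s) := div_le_div_of_nonneg_right hs1.le h1s.le
  have h6 : (1 / (2 * π)) * (4 * π + 2 * s ^ 4 * J) = 2 + 2 * (s ^ 4 * ((1 / (2 * π)) * J)) := by
    field_simp
    ring
  have h7 : 1 / (1 - s) ≤ 2 / (1 - s ^ 2) := by
    rw [div_le_div_iff₀ h1s (by (clear * - hs1 hs; nlinarith only [hs, hs1]))]
    (clear * - h1s; nlinarith only [h1s])
  have h8 : 2 ≤ 2 / (1 - s ^ 2) := by
    rw [le_div_iff₀ (by nlinarith only [hs, hs1])]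
    (clear * -; nlinarith only [])
  calc (1 / (2 * π)) * _ ≤ (1 / (2 * π)) * (4 * π + 2 * s ^ 4 * J) := by
        apply mul_le_mul_of_nonneg_left _ (by positivity)
        rw [← h3]; exact h2
    _ = 2 + 2 * (s ^ 4 * ((1 / (2 * π)) * J)) := h6
    _ ≤ 2 / (1 - s ^ 2) + 2 * (2 / (1 - s ^ 2)) := by
        have := h5.trans h7
        (clear * - h8 this; linarith only [h8, this])
    _ = 6 / (1 - s ^ 2) := by ring

end Pool.Agent.Helper5.TR

end

section

namespace Pool.Agent.Helper39.Area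
end Pool.Agent.Helper39.Area

set_option autoImplicit false

open Complex MeasureTheory Metric Set Filter Topology

open scoped Real ComplexConjugate

namespace Pool.Agent.Helper5.TR

open Pool.Agent.Helper39.Area

/-- the class Sigma with the logarithm of the derivative -/
structure Sg (ψ h : ℂ → ℂ) : Prop where
  diff : DifferentiableOn ℂ ψ {z : ℂ | 1 < ‖z‖}
  inj : InjOn ψ {z : ℂ | 1 < ‖z‖}
  lim : ∃ b : ℂ, Tendsto (fun z => ψ z - z) (Bornology.cobounded ℂ) (𝓝 b)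
  hdiff : DifferentiableOn ℂ h {z : ℂ | 1 < ‖z‖}
  hexp : ∀ z : ℂ, 1 < ‖z‖ → Complex.exp (h z) = deriv ψ z
  hlim : Tendsto h (Bornology.cobounded ℂ) (𝓝 0)

/-- the exponent `b` is admissible at `t` -/
def UpAt (t : ℂ) (b : ℝ) : Prop :=
  ∃ C : ℝ, ∀ ψ h : ℂ → ℂ, Sg ψ h → ∀ R : ℝ, 1 < R →
    (2 * π)⁻¹ * (∫ θ in (0:ℝ)..(2 * π), ‖Complex.exp (t * h (R * Complex.exp (θ * I)))‖) ≤
      C * (R ^ 2 / (R ^ 2 - 1)) ^ b

theorem one_lt_quot {R : ℝ} (hR : 1 < R) : 1 < R ^ 2 / (R ^ 2 - 1) := by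
  have : 0 < R ^ 2 - 1 := by (clear * - hR; nlinarith)
  rw [one_lt_div this]; linarith

theorem log_pos' {R : ℝ} (hR : 1 < R) : 0 < Real.log (R ^ 2 / (R ^ 2 - 1)) :=
  Real.log_pos (one_lt_quot hR)

theorem norm_pt {R : ℝ} (hR : 1 < R) (θ : ℝ) : ‖(R:ℂ) * Complex.exp (θ * I)‖ = R := by
  rw [norm_mul, Complex.norm_exp_ofReal_mul_I, mul_one, Complex.norm_real,
    Real.norm_of_nonneg (by (clear * - hR; linarith only [hR]))]

theorem Sg.cont {ψ h : ℂ → ℂ} (hs : Sg ψ h) {R : ℝ} (hR : 1 < R) :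
    Continuous fun θ : ℝ => h ((R:ℂ) * Complex.exp (θ * I)) := by
  apply hs.hdiff.continuousOn.comp_continuous (by fun_prop)
  intro θ
  show 1 < ‖(R:ℂ) * Complex.exp (θ * I)‖
  rw [norm_pt hR]; exact hR

theorem Sg.le {ψ h : ℂ → ℂ} (hs : Sg ψ h) {R : ℝ} (hR : 1 < R) (θ : ℝ) :
    ‖h ((R:ℂ) * Complex.exp (θ * I))‖ ≤ Real.log (R ^ 2 / (R ^ 2 - 1)) := by
  have h1 := goluzin_ext hs.diff hs.inj hs.lim hs.hdiff hs.hexp hs.hlim
    (z := (R:ℂ) * Complex.exp (θ * I)) (by rw [norm_pt hR]; exact hR)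
  rwa [norm_pt hR] at h1

/-- the second moment -/
theorem up_two : UpAt 2 1 := by
  refine ⟨6, ?_⟩
  intro ψ h hs R hR
  obtain ⟨b, hb⟩ := hs.lim
  obtain ⟨hE, hexp⟩ := ext_data hs.diff hs.inj hb hs.hexp
  set β : ℂ → ℂ := toDisc b (fun z => ψ z - z) with hβ
  have hR0 : R ≠ 0 := by (clear * - hR; linarith only [hR])
  have hRi : 0 < R⁻¹ := by (clear * - hR; positivity)
  have hRi1 : R⁻¹ < 1 := inv_lt_one_of_one_lt₀ hR
  set k : ℝ → ℝ := fun θ => ‖1 - (((R⁻¹ : ℝ) : ℂ) * Complex.exp ((θ : ℂ) * I)) ^ 2 *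
    deriv β (((R⁻¹ : ℝ) : ℂ) * Complex.exp ((θ : ℂ) * I))‖ ^ 2 with hk
  have h1 : ∀ θ : ℝ, ‖Complex.exp (2 * h (R * Complex.exp (θ * I)))‖ = k (-θ) := by
    intro θ
    have hne : ((R⁻¹ : ℝ) : ℂ) * Complex.exp (((-θ : ℝ) : ℂ) * I) ≠ 0 := by
      apply mul_ne_zero _ (Complex.exp_ne_zero _)
      exact_mod_cast inv_ne_zero hR0
    have h2 : (((R⁻¹ : ℝ) : ℂ) * Complex.exp (((-θ : ℝ) : ℂ) * I))⁻¹ =
        (R : ℂ) * Complex.exp ((θ : ℂ) * I) := by
      rw [mul_inv, ← Complex.exp_neg]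
      push_cast
      rw [inv_inv]
      congr 2
      ring
    have hm : ((R⁻¹ : ℝ) : ℂ) * Complex.exp (((-θ : ℝ) : ℂ) * I) ∈ ball (0:ℂ) 1 := by
      rw [mem_ball, dist_zero_right, norm_mul, Complex.norm_exp_ofReal_mul_I, mul_one,
        Complex.norm_real, Real.norm_of_nonneg hRi.le]
      exact hRi1
    have h3 := hexp _ hm
    have h4 : toDisc 0 h (((R⁻¹ : ℝ) : ℂ) * Complex.exp (((-θ : ℝ) : ℂ) * I)) =
        h ((R : ℂ) * Complex.exp ((θ : ℂ) * I)) := by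
      simp only [toDisc]
      rw [if_neg hne, h2]
    rw [h4] at h3
    simp only [hk]
    rw [← h3, two_mul, Complex.exp_add, norm_mul, pow_two]
  have hper : Function.Periodic k (2 * π) := by
    intro θ
    simp only [hk]
    have : Complex.exp (((θ + 2 * π : ℝ) : ℂ) * I) = Complex.exp ((θ : ℂ) * I) := by
      push_cast
      rw [add_mul, Complex.exp_add, Complex.exp_two_pi_mul_I, mul_one]
    rw [this]
  have h2 : (∫ θ in (0:ℝ)..(2 * π), ‖Complex.exp (2 * h (R * Complex.exp (θ * I)))‖) =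
      ∫ θ in (-π)..π, k θ := by
    rw [intervalIntegral.integral_congr (g := fun θ => k (-θ)) (fun θ _ => h1 θ),
      intervalIntegral.integral_comp_neg (fun θ => k θ)]
    have h3 := hper.intervalIntegral_add_eq (-(2 * π)) (-π)
    rw [show -(2 * π) + 2 * π = -0 by ring, show -π + 2 * π = π by ring] at h3
    exact h3
  rw [h2, inv_eq_one_div]
  refine (mean_N hE hRi hRi1).trans (le_of_eq ?_)
  rw [Real.rpow_one]
  have h4 : R ^ 2 - 1 ≠ 0 := by nlinarith only [hR]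
  field_simp

/-- the local bound -/
theorem local_bound {a : ℝ} {K : Set ℂ} (hK : IsCompact K)
    (H : ∀ ζ ∈ K, ∃ (t : ℂ) (b : ℝ), UpAt t b ∧ a * ‖ζ‖ ^ 2 < (t * ζ).re - b) :
    ∃ C : ℝ, ∀ ψ h : ℂ → ℂ, Sg ψ h → ∀ R : ℝ, 1 < R →
      (2 * π)⁻¹ * (∫ θ in (0:ℝ)..(2 * π), {θ : ℝ | h (R * Complex.exp (θ * I)) /
          (Real.log (R ^ 2 / (R ^ 2 - 1)) : ℂ) ∈ K}.indicator
        (fun θ : ℝ => Real.exp (a * ‖h (R * Complex.exp (θ * I))‖ ^ 2 /
          Real.log (R ^ 2 / (R ^ 2 - 1)))) θ) ≤ C := by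
  classical
  obtain ⟨F, hFT, hFf, hFK⟩ := hK.elim_finite_subcover_image
    (b := {p : ℂ × ℝ | UpAt p.1 p.2})
    (c := fun p : ℂ × ℝ => {w : ℂ | a * ‖w‖ ^ 2 < (p.1 * w).re - p.2})
    (fun p _ => isOpen_lt (by fun_prop) (by fun_prop))
    (by
      intro ζ hζ
      obtain ⟨t, b, h1, h2⟩ := H ζ hζ
      exact mem_iUnion₂.2 ⟨(t, b), h1, h2⟩)
  have hC : ∀ p : ℂ × ℝ, ∃ C : ℝ, UpAt p.1 p.2 → ∀ ψ h : ℂ → ℂ, Sg ψ h → ∀ R : ℝ, 1 < R →
      (2 * π)⁻¹ * (∫ θ in (0:ℝ)..(2 * π), ‖Complex.exp (p.1 * h (R * Complex.exp (θ * I)))‖) ≤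
        C * (R ^ 2 / (R ^ 2 - 1)) ^ p.2 := by
    intro p
    by_cases hp : UpAt p.1 p.2
    · obtain ⟨C, hC⟩ := hp
      exact ⟨C, fun _ => hC⟩
    · exact ⟨0, fun h => absurd h hp⟩
  choose Cf hCf using hC
  refine ⟨∑ p ∈ hFf.toFinset, Cf p, ?_⟩
  intro ψ h hs R hR
  set Q : ℝ := R ^ 2 / (R ^ 2 - 1) with hQ
  have hQ1 : 1 < Q := one_lt_quot hR
  have hQ0 : 0 < Q := by linarith only [hQ1]
  have hL : 0 < Real.log Q := log_pos' hR
  have hcont := hs.cont hR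
  set g : ℝ → ℝ := fun θ => ∑ p ∈ hFf.toFinset,
    ‖Complex.exp (p.1 * h (R * Complex.exp (θ * I)))‖ * Q ^ (-p.2) with hg
  have hgc : Continuous g := by
    apply continuous_finset_sum
    intro p _
    exact (continuous_norm.comp (Complex.continuous_exp.comp
      (continuous_const.mul hcont))).mul continuous_const
  have hpi : (0:ℝ) ≤ 2 * π := by positivity
  have hpt : ∀ θ : ℝ, {θ : ℝ | h (R * Complex.exp (θ * I)) / (Real.log Q : ℂ) ∈ K}.indicator
      (fun θ : ℝ => Real.exp (a * ‖h (R * Complex.exp (θ * I))‖ ^ 2 / Real.log Q)) θ ≤ g θ := by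
    intro θ
    by_cases hθ : θ ∈ {θ : ℝ | h (R * Complex.exp (θ * I)) / (Real.log Q : ℂ) ∈ K}
    · rw [indicator_of_mem hθ]
      obtain ⟨p, hpF, hp⟩ := mem_iUnion₂.1 (hFK hθ)
      have h0 : a * ‖h (R * Complex.exp (θ * I)) / (Real.log Q : ℂ)‖ ^ 2 <
          (p.1 * (h (R * Complex.exp (θ * I)) / (Real.log Q : ℂ))).re - p.2 := hp
      have h1 : a * ‖h (R * Complex.exp (θ * I))‖ ^ 2 / Real.log Q ≤
          (p.1 * h (R * Complex.exp (θ * I))).re - p.2 * Real.log Q := by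
        have h2 : ‖h (R * Complex.exp (θ * I)) / (Real.log Q : ℂ)‖ =
            ‖h (R * Complex.exp (θ * I))‖ / Real.log Q := by
          rw [norm_div, Complex.norm_real, Real.norm_of_nonneg hL.le]
        have h3 : (p.1 * (h (R * Complex.exp (θ * I)) / (Real.log Q : ℂ))).re =
            (p.1 * h (R * Complex.exp (θ * I))).re / Real.log Q := by
          rw [← mul_div_assoc, Complex.div_ofReal_re]
        rw [h2, h3] at h0
        have h4 := mul_lt_mul_of_pos_right h0 hL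
        have h5 : a * (‖h (R * Complex.exp (θ * I))‖ / Real.log Q) ^ 2 * Real.log Q =
            a * ‖h (R * Complex.exp (θ * I))‖ ^ 2 / Real.log Q := by
          field_simp
        have h6 : ((p.1 * h (R * Complex.exp (θ * I))).re / Real.log Q - p.2) * Real.log Q =
            (p.1 * h (R * Complex.exp (θ * I))).re - p.2 * Real.log Q := by
          (clear * - hL; field_simp)
        rw [h5, h6] at h4
        exact h4.le
      calc Real.exp (a * ‖h (R * Complex.exp (θ * I))‖ ^ 2 / Real.log Q)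
          ≤ Real.exp ((p.1 * h (R * Complex.exp (θ * I))).re - p.2 * Real.log Q) :=
            Real.exp_le_exp.2 h1
        _ = ‖Complex.exp (p.1 * h (R * Complex.exp (θ * I)))‖ * Q ^ (-p.2) := by
            rw [Complex.norm_exp, Real.rpow_def_of_pos hQ0, ← Real.exp_add]
            congr 1
            ring
        _ ≤ g θ := by
            rw [hg]
            exact Finset.single_le_sum (f := fun p : ℂ × ℝ =>
              ‖Complex.exp (p.1 * h (R * Complex.exp (θ * I)))‖ * Q ^ (-p.2))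
              (fun q _ => by (clear * - hQ1; positivity)) (hFf.mem_toFinset.2 hpF)
    · rw [indicator_of_notMem hθ]
      exact Finset.sum_nonneg (fun q _ => by (clear * - hQ1; positivity))
  have h1 : (∫ θ in (0:ℝ)..(2 * π), {θ : ℝ | h (R * Complex.exp (θ * I)) /
      (Real.log Q : ℂ) ∈ K}.indicator
      (fun θ : ℝ => Real.exp (a * ‖h (R * Complex.exp (θ * I))‖ ^ 2 / Real.log Q)) θ) ≤
      ∫ θ in (0:ℝ)..(2 * π), g θ := by
    rw [intervalIntegral.integral_of_le hpi, intervalIntegral.integral_of_le hpi]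
    apply integral_mono_of_nonneg
    · exact Eventually.of_forall fun θ => indicator_nonneg (fun _ _ => (Real.exp_pos _).le) θ
    · exact (hgc.integrableOn_Icc).mono_set Ioc_subset_Icc_self
    · exact Eventually.of_forall hpt
  have h2 : (∫ θ in (0:ℝ)..(2 * π), g θ) = ∑ p ∈ hFf.toFinset,
      (∫ θ in (0:ℝ)..(2 * π), ‖Complex.exp (p.1 * h (R * Complex.exp (θ * I)))‖) * Q ^ (-p.2) := by
    rw [hg, intervalIntegral.integral_finset_sum]
    · apply Finset.sum_congr rfl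
      intro p _
      rw [intervalIntegral.integral_mul_const]
    · intro p _
      exact ((continuous_norm.comp (Complex.continuous_exp.comp
        (continuous_const.mul hcont))).mul continuous_const).intervalIntegrable _ _
  calc (2 * π)⁻¹ * _ ≤ (2 * π)⁻¹ * (∫ θ in (0:ℝ)..(2 * π), g θ) :=
        mul_le_mul_of_nonneg_left h1 (by positivity)
    _ = ∑ p ∈ hFf.toFinset, ((2 * π)⁻¹ *
      (∫ θ in (0:ℝ)..(2 * π), ‖Complex.exp (p.1 * h (R * Complex.exp (θ * I)))‖)) * Q ^ (-p.2) := by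
        rw [h2, Finset.mul_sum]
        exact Finset.sum_congr rfl fun p _ => by ring
    _ ≤ ∑ p ∈ hFf.toFinset, Cf p := by
        apply Finset.sum_le_sum
        intro p hp
        have h3 := hCf p (hFT (hFf.mem_toFinset.1 hp)) ψ h hs R hR
        have h4 : 0 < Q ^ (-p.2) := by (clear * - hQ1; positivity)
        calc _ ≤ (Cf p * Q ^ p.2) * Q ^ (-p.2) := mul_le_mul_of_nonneg_right h3 h4.le
          _ = Cf p := by
            rw [mul_assoc, ← Real.rpow_add hQ0, add_neg_cancel, Real.rpow_zero, mul_one]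

end Pool.Agent.Helper5.TR

end

section

set_option autoImplicit false

open Complex MeasureTheory Metric Set Filter Topology

open scoped Real ComplexConjugate

namespace Pool.Agent.Helper5.TR

/-- weak form of `B(t) = |t| - 1` -/
def Ex (t : ℂ) : Prop := ∀ e : ℝ, 0 < e → UpAt t (‖t‖ - 1 + e)

/-- the exponential integral with parameter `a` over `{h / L ∈ K}` is bounded, uniformly -/
def Bdd (a : ℝ) (K : Set ℂ) : Prop :=
  ∃ C : ℝ, ∀ ψ h : ℂ → ℂ, Sg ψ h → ∀ R : ℝ, 1 < R →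
    (2 * π)⁻¹ * (∫ θ in (0:ℝ)..(2 * π), {θ : ℝ | h (R * Complex.exp (θ * I)) /
          (Real.log (R ^ 2 / (R ^ 2 - 1)) : ℂ) ∈ K}.indicator
        (fun θ : ℝ => Real.exp (a * ‖h (R * Complex.exp (θ * I))‖ ^ 2 /
          Real.log (R ^ 2 / (R ^ 2 - 1)))) θ) ≤ C

/-- the aligned choice of `t` -/
theorem aligned {a k : ℝ} {z : ℂ} (hz : z ≠ 0) (hk : 0 ≤ k) (hEx : Ex (k * (conj z / ‖z‖)))
    (h : a * ‖z‖ ^ 2 < 1 - k * (1 - ‖z‖)) :
    ∃ (t : ℂ) (b : ℝ), UpAt t b ∧ a * ‖z‖ ^ 2 < (t * z).re - b := by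
  have hn : 0 < ‖z‖ := norm_pos_iff.2 hz
  set e : ℝ := (1 - k * (1 - ‖z‖) - a * ‖z‖ ^ 2) / 2 with he
  have he0 : 0 < e := by rw [he]; (clear * - h; linarith only [h])
  have hnorm : ‖(k:ℂ) * (conj z / ‖z‖)‖ = k := by
    rw [norm_mul, norm_div, RCLike.norm_conj, Complex.norm_real, Complex.norm_real, norm_norm,
      div_self hn.ne', mul_one, Real.norm_of_nonneg hk]
  refine ⟨k * (conj z / ‖z‖), _, hEx e he0, ?_⟩
  have h1 : ((k:ℂ) * (conj z / ‖z‖) * z).re = k * ‖z‖ := by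
    have h2 : (k:ℂ) * (conj z / ‖z‖) * z = ((k * ‖z‖ : ℝ) : ℂ) := by
      have h3 : conj z * z = ((‖z‖ : ℝ) : ℂ) ^ 2 := by
        rw [mul_comm, Complex.mul_conj, Complex.normSq_eq_norm_sq]
        push_cast
        rfl
      have hnc : ((‖z‖ : ℝ) : ℂ) ≠ 0 := by exact_mod_cast hn.ne'
      push_cast
      field_simp
      linear_combination (k:ℂ) * h3
    rw [h2, Complex.ofReal_re]
  rw [h1, hnorm]
  (clear * - he he0; linarith only [he, he0])

/-- the positive direction: the area theorem -/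
theorem positive {a : ℝ} {z : ℂ} (h : a * ‖z‖ ^ 2 < 2 * z.re - 1) :
    ∃ (t : ℂ) (b : ℝ), UpAt t b ∧ a * ‖z‖ ^ 2 < (t * z).re - b := by
  refine ⟨2, 1, up_two, ?_⟩
  have : ((2:ℂ) * z).re = 2 * z.re := by simp
  rw [this]; exact h

/-- explicit `rho`, in the contracting half plane -/
theorem left_bdd {k a ρ : ℝ} (hk : 2 ≤ k) (H : ∀ t : ℂ, t.re ≤ 0 → ‖t‖ = k → Ex t)
    (ha : a ≤ 1) (hρ : 0 < ρ) (h : a * ρ ^ 2 < 1 - k * (1 - ρ)) :
    Bdd a {z : ℂ | ρ ≤ ‖z‖ ∧ ‖z‖ ≤ 1 ∧ z.re ≤ 0} := by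
  apply local_bound
  · have : {z : ℂ | ρ ≤ ‖z‖ ∧ ‖z‖ ≤ 1 ∧ z.re ≤ 0} =
        (closedBall (0:ℂ) 1 \ ball (0:ℂ) ρ) ∩ {z : ℂ | z.re ≤ 0} := by
      ext z
      simp only [mem_setOf_eq, mem_diff, mem_closedBall, dist_zero_right, mem_ball, not_lt,
        mem_inter_iff]
      tauto
    rw [this]
    exact ((isCompact_closedBall (0:ℂ) 1).diff isOpen_ball).inter_right
      (isClosed_le (by fun_prop) (by fun_prop))
  · rintro z ⟨h1, h2, h3⟩
    have hn : 0 < ‖z‖ := lt_of_lt_of_le hρ h1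
    apply aligned (k := k) (norm_pos_iff.1 hn) (by (clear * - hk; linarith))
    · apply H
      · have : ((k:ℂ) * (conj z / ‖z‖)).re = k * (z.re / ‖z‖) := by
          rw [Complex.re_ofReal_mul, Complex.div_ofReal_re, Complex.conj_re]
        rw [this]
        exact mul_nonpos_of_nonneg_of_nonpos (by (clear * - hk; linarith only [hk]))
          (div_nonpos_of_nonpos_of_nonneg h3 hn.le)
      · rw [norm_mul, norm_div, RCLike.norm_conj, Complex.norm_real, Complex.norm_real, norm_norm,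
          div_self hn.ne', mul_one, Real.norm_of_nonneg (by linarith only [hk])]
    · nlinarith only [mul_nonneg (sub_nonneg.2 h1) (sub_nonneg.2 h2), mul_nonneg (sub_nonneg.2 h1) (by linarith : (0:ℝ) ≤ k - 2), mul_nonneg (mul_nonneg (sub_nonneg.2 h1) (by linarith : (0:ℝ) ≤ 1 - a)) (by linarith : (0:ℝ) ≤ ‖z‖ + ρ), h, h1]

/-- from the indicator form to the final form -/
theorem final_form {a : ℝ} {K : Set ℂ} (hK : Bdd a K) (hKc : IsClosed K)
    (P : ℂ → ℝ → Prop) [∀ z L, Decidable (P z L)]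
    (hP : ∀ (z : ℂ) (L : ℝ), 0 < L → ‖z‖ ≤ L → P z L → z / (L : ℂ) ∈ K) :
    ∃ C : ℝ, ∀ ψ h : ℂ → ℂ,
      DifferentiableOn ℂ ψ {z : ℂ | 1 < ‖z‖} →
      InjOn ψ {z : ℂ | 1 < ‖z‖} →
      (∃ b : ℂ, Tendsto (fun z => ψ z - z) (Bornology.cobounded ℂ) (𝓝 b)) →
      DifferentiableOn ℂ h {z : ℂ | 1 < ‖z‖} →
      (∀ z : ℂ, 1 < ‖z‖ → Complex.exp (h z) = deriv ψ z) →
      Tendsto h (Bornology.cobounded ℂ) (𝓝 0) →
      ∀ R : ℝ, 1 < R →
        (1 / (2 * π)) * (∫ θ in (0:ℝ)..(2 * π),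
          if P (h ((R:ℂ) * Complex.exp ((θ:ℂ) * I))) (Real.log (R ^ 2 / (R ^ 2 - 1))) then
            Real.exp (a * ‖h ((R:ℂ) * Complex.exp ((θ:ℂ) * I))‖ ^ 2 /
              Real.log (R ^ 2 / (R ^ 2 - 1)))
          else 0) ≤ C := by
  obtain ⟨C, hC⟩ := hK
  refine ⟨C, ?_⟩
  intro ψ h h1 h2 h3 h4 h5 h6 R hR
  have hs : Sg ψ h := ⟨h1, h2, h3, h4, h5, h6⟩
  have hcont := hs.cont hR
  have hL := log_pos' hR
  set L : ℝ := Real.log (R ^ 2 / (R ^ 2 - 1)) with hLd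
  refine le_trans ?_ (hC ψ h hs R hR)
  rw [← hLd, one_div]
  apply mul_le_mul_of_nonneg_left _ (by positivity)
  have hpi : (0:ℝ) ≤ 2 * π := by positivity
  rw [intervalIntegral.integral_of_le hpi, intervalIntegral.integral_of_le hpi]
  have hc2 : Continuous fun θ : ℝ => Real.exp (a * ‖h ((R:ℂ) * Complex.exp ((θ:ℂ) * I))‖ ^ 2 / L) :=
    Real.continuous_exp.comp ((continuous_const.mul ((continuous_norm.comp hcont).pow 2)).div_const _)
  apply integral_mono_of_nonneg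
  · refine Eventually.of_forall fun θ => ?_
    show (0:ℝ) ≤ if _ then _ else _
    split_ifs
    · exact (Real.exp_pos _).le
    · exact le_rfl
  · apply Integrable.indicator
    · exact (hc2.integrableOn_Icc).mono_set Ioc_subset_Icc_self
    · exact (hKc.preimage (hcont.div_const _)).measurableSet
  · refine Eventually.of_forall fun θ => ?_
    show (if P (h ((R:ℂ) * Complex.exp ((θ:ℂ) * I))) L then
        Real.exp (a * ‖h ((R:ℂ) * Complex.exp ((θ:ℂ) * I))‖ ^ 2 / L) else 0) ≤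
      {θ : ℝ | h ((R:ℂ) * Complex.exp ((θ:ℂ) * I)) / (L : ℂ) ∈ K}.indicator
        (fun θ : ℝ => Real.exp (a * ‖h ((R:ℂ) * Complex.exp ((θ:ℂ) * I))‖ ^ 2 / L)) θ
    split_ifs with hp
    · have hmem : θ ∈ {θ : ℝ | h ((R:ℂ) * Complex.exp ((θ:ℂ) * I)) / (L : ℂ) ∈ K} :=
        hP _ _ hL (hs.le hR θ) hp
      rw [indicator_of_mem hmem]
    · exact indicator_nonneg (fun _ _ => (Real.exp_pos _).le) θ

theorem closed_all (ρ : ℝ) : IsClosed {z : ℂ | ρ ≤ ‖z‖ ∧ ‖z‖ ≤ 1} := by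
  have h1 : IsClosed {z : ℂ | ρ ≤ ‖z‖} := isClosed_le continuous_const continuous_norm
  have h2 : IsClosed {z : ℂ | ‖z‖ ≤ 1} := isClosed_le continuous_norm continuous_const
  exact h1.inter h2

theorem closed_left (ρ : ℝ) : IsClosed {z : ℂ | ρ ≤ ‖z‖ ∧ ‖z‖ ≤ 1 ∧ z.re ≤ 0} := by
  have h1 : IsClosed {z : ℂ | ρ ≤ ‖z‖} := isClosed_le continuous_const continuous_norm
  have h2 : IsClosed {z : ℂ | ‖z‖ ≤ 1} := isClosed_le continuous_norm continuous_const
  have h3 : IsClosed {z : ℂ | z.re ≤ 0} := isClosed_le Complex.continuous_re continuous_const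
  exact h1.inter (h2.inter h3)

theorem div_all {ρ : ℝ} (z : ℂ) (L : ℝ) (hL : 0 < L) (hz : ‖z‖ ≤ L) (h : ρ * L ≤ ‖z‖) :
    z / (L : ℂ) ∈ {z : ℂ | ρ ≤ ‖z‖ ∧ ‖z‖ ≤ 1} := by
  have h1 : ‖z / (L : ℂ)‖ = ‖z‖ / L := by
    rw [norm_div, Complex.norm_real, Real.norm_of_nonneg hL.le]
  refine ⟨?_, ?_⟩
  · rw [h1]; exact (le_div_iff₀ hL).2 h
  · rw [h1]; exact (div_le_one hL).2 hz

theorem div_left {ρ : ℝ} (z : ℂ) (L : ℝ) (hL : 0 < L) (hz : ‖z‖ ≤ L)
    (h : ρ * L ≤ ‖z‖ ∧ z.re ≤ 0) :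
    z / (L : ℂ) ∈ {z : ℂ | ρ ≤ ‖z‖ ∧ ‖z‖ ≤ 1 ∧ z.re ≤ 0} := by
  have h1 := div_all z L hL hz h.1
  refine ⟨h1.1, h1.2, ?_⟩
  rw [Complex.div_ofReal_re]
  exact div_nonpos_of_nonpos_of_nonneg h.2 hL.le

end Pool.Agent.Helper5.TR

end

section

set_option autoImplicit false

open Complex MeasureTheory Metric Set Filter Topology

open scoped Real ComplexConjugate

namespace Pool.Agent.Helper5.TR

/-- raw form of the moment bound (the same proposition as `Helper58.CKC.SigC t b`) -/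
def Raw (t : ℂ) (b : ℝ) : Prop :=
  ∃ C : ℝ, ∀ ψ h : ℂ → ℂ, DifferentiableOn ℂ ψ {z : ℂ | 1 < ‖z‖} →
    InjOn ψ {z : ℂ | 1 < ‖z‖} →
    (∃ b : ℂ, Filter.Tendsto (fun z => ψ z - z) (Bornology.cobounded ℂ) (nhds b)) →
    DifferentiableOn ℂ h {z : ℂ | 1 < ‖z‖} →
    (∀ z : ℂ, 1 < ‖z‖ → Complex.exp (h z) = deriv ψ z) →
    Filter.Tendsto h (Bornology.cobounded ℂ) (nhds 0) →
    ∀ R : ℝ, 1 < R →
    (2 * π)⁻¹ * (∫ θ in (0:ℝ)..(2 * π), ‖Complex.exp (t * h (R * Complex.exp (θ * I)))‖) ≤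
      C * (R ^ 2 / (R ^ 2 - 1)) ^ b

theorem UpAt.of_raw {t : ℂ} {b : ℝ} (H : Raw t b) : UpAt t b := by
  obtain ⟨C, hC⟩ := H
  exact ⟨C, fun ψ h hs R hR => hC ψ h hs.diff hs.inj hs.lim hs.hdiff hs.hexp hs.hlim R hR⟩

theorem Ex.of_weak {t : ℂ} (H : ∀ e : ℝ, 0 < e → Raw t (‖t‖ - 1 + e)) : Ex t :=
  fun e he => UpAt.of_raw (H e he)

end Pool.Agent.Helper5.TR

end

section

set_option autoImplicit false

open Complex MeasureTheory Metric Set Filter Topology

open scoped Real ComplexConjugate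

namespace Pool.Agent.Helper5.TR

theorem dir_norm {k : ℝ} (hk : 0 ≤ k) {z : ℂ} (hz : z ≠ 0) : ‖(k:ℂ) * (conj z / ‖z‖)‖ = k := by
  have hn : 0 < ‖z‖ := norm_pos_iff.2 hz
  rw [norm_mul, norm_div, RCLike.norm_conj, Complex.norm_real, Complex.norm_real, norm_norm,
    div_self hn.ne', mul_one, Real.norm_of_nonneg hk]

theorem dir_re (k : ℝ) (z : ℂ) : ((k:ℂ) * (conj z / ‖z‖)).re = k * (z.re / ‖z‖) := by
  rw [Complex.re_ofReal_mul, Complex.div_ofReal_re, Complex.conj_re]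

end Pool.Agent.Helper5.TR

end

section

set_option autoImplicit false

open Complex MeasureTheory Metric Set Filter Topology

open scoped Real ComplexConjugate

namespace Pool.Agent.Helper5.TR

/-- explicit `rho = 1 - η (1 - a)²` in all directions; here `0 < a₀ ≤ a < 1` -/
theorem all_bdd2 {p q k η τ a d₀ : ℝ} (hp : 0 ≤ p) (hq : 0 < q) (hη : 0 < η) (hτ : 0 < τ)
    (hd0 : 0 < d₀) (hd1 : d₀ ≤ 1)
    (hc1 : τ + 2 * η * d₀ ^ 2 + η ^ 2 * d₀ ^ 3 < 1) (hc2 : η * (p * d₀ + 4 * q / τ) < 1)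
    (hk : 0 ≤ k) (hkη : η * k * d₀ < 1)
    (H1 : ∀ t : ℂ, 0 < t.re → t.re < ‖t‖ → 2 * q * ‖t‖ ≤ (‖t‖ - p) * (‖t‖ - t.re) → Ex t)
    (H2 : ∀ t : ℂ, t.re ≤ 0 → ‖t‖ = k → Ex t)
    (ha0 : 0 ≤ a) (had : 1 - d₀ ≤ a) (ha1 : a < 1) :
    Bdd a {z : ℂ | 1 - η * (1 - a) ^ 2 ≤ ‖z‖ ∧ ‖z‖ ≤ 1} := by
  have hηd : η * d₀ ^ 2 < 1 / 2 := by nlinarith only [hτ, hd0, hc1]
  have hδ : (1 - a) ^ 2 ≤ d₀ ^ 2 := by (clear * - had ha1; nlinarith only [had, ha1])
  have hρ : 1 / 2 < 1 - η * (1 - a) ^ 2 := by nlinarith only [hη, hηd, hδ]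
  apply local_bound
  · have : {z : ℂ | 1 - η * (1 - a) ^ 2 ≤ ‖z‖ ∧ ‖z‖ ≤ 1} =
        closedBall (0:ℂ) 1 \ ball (0:ℂ) (1 - η * (1 - a) ^ 2) := by
      ext z
      simp only [mem_setOf_eq, mem_diff, mem_closedBall, dist_zero_right, mem_ball, not_lt]
      tauto
    rw [this]
    exact (isCompact_closedBall (0:ℂ) 1).diff isOpen_ball
  · rintro z ⟨h1, h2⟩
    have hn : 0 < ‖z‖ := by linarith only [hρ, h1]
    set d : ℝ := 1 - a with hd
    have hdp : 0 < d := by rw [hd]; linarith only [ha1]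
    have hdd : d ≤ d₀ := by rw [hd]; linarith only [had]
    set s : ℝ := 1 - ‖z‖ with hs
    have hs0 : 0 ≤ s := by rw [hs]; linarith only [h2]
    have hs1 : s ≤ η * d ^ 2 := by rw [hs]; linarith only [h1]
    have hre : z.re ≤ ‖z‖ := Complex.re_le_norm z
    have haz : a * ‖z‖ ^ 2 ≤ a := mul_le_of_le_one_right ha0 (pow_le_one₀ hn.le h2)
    rcases le_or_gt z.re 0 with hz0 | hz0
    · -- the contracting half plane
      apply aligned (k := k) (norm_pos_iff.1 hn) hk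
      · apply H2
        · rw [dir_re]
          exact mul_nonpos_of_nonneg_of_nonpos hk (div_nonpos_of_nonpos_of_nonneg hz0 hn.le)
        · exact dir_norm hk (norm_pos_iff.1 hn)
      · have e1 : k * s ≤ k * (η * d ^ 2) := mul_le_mul_of_nonneg_left hs1 hk
        have e2 : k * (η * d ^ 2) < d := by
          have : η * k * d < 1 := lt_of_le_of_lt
            (mul_le_mul_of_nonneg_left hdd (mul_nonneg hη.le hk)) hkη
          (clear * - hdp this; nlinarith only [hdp, this])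
        rw [show (1:ℝ) - ‖z‖ = s from hs.symm ▸ rfl]
        linarith only [haz, e1, e2]
    · -- `c = 1 - cos`
      set c : ℝ := 1 - z.re / ‖z‖ with hc
      have hc0 : 0 ≤ c := by
        rw [hc, sub_nonneg, div_le_one hn]; exact hre
      have hzr : z.re = ‖z‖ * (1 - c) := by
        rw [hc]; field_simp; ring
      by_cases hcase : c ≤ τ * d / 2
      · apply positive
        rw [hzr]
        have hz : ‖z‖ = 1 - s := by rw [hs]; ring
        have haa : a = 1 - d := by rw [hd]; ring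
        rw [hz, haa]
        have e3 : s * d ≤ η * d₀ ^ 2 * d := by
          have : s ≤ η * d₀ ^ 2 := hs1.trans
            (mul_le_mul_of_nonneg_left (pow_le_pow_left₀ hdp.le hdd 2) hη.le)
          exact mul_le_mul_of_nonneg_right this hdp.le
        have e4 : s ^ 2 ≤ η ^ 2 * d₀ ^ 3 * d := by
          have h3 : s ^ 2 ≤ (η * d ^ 2) ^ 2 := pow_le_pow_left₀ hs0 hs1 2
          have h4 : d ^ 3 ≤ d₀ ^ 3 := pow_le_pow_left₀ hdp.le hdd 3
          have h5 : (η * d ^ 2) ^ 2 = η ^ 2 * d ^ 3 * d := by ring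
          rw [h5] at h3
          exact h3.trans (mul_le_mul_of_nonneg_right
            (mul_le_mul_of_nonneg_left h4 (sq_nonneg _)) hdp.le)
        have e5 : d * (τ + 2 * η * d₀ ^ 2 + η ^ 2 * d₀ ^ 3) < d * 1 := by
          exact mul_lt_mul_of_pos_left hc1 hdp
        nlinarith only [hdp, hs0, hc0, hcase, e3, e4, e5]
      · push Not at hcase
        have hcp : 0 < c := lt_of_le_of_lt (by positivity) hcase
        set k' : ℝ := p + 2 * q / c with hk'
        have hk0 : 0 < k' := by rw [hk']; (clear * - hp hq hcp; positivity)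
        have hkn : ‖(k':ℂ) * (conj z / ‖z‖)‖ = k' := dir_norm hk0.le (norm_pos_iff.1 hn)
        have hkr : ((k':ℂ) * (conj z / ‖z‖)).re = k' * (1 - c) := by
          rw [dir_re, hc]
          ring
        apply aligned (k := k') (norm_pos_iff.1 hn) hk0.le
        · apply H1
          · rw [dir_re]
            exact mul_pos hk0 (div_pos hz0 hn)
          · rw [hkn, hkr]; (clear * - hcp hk0; nlinarith only [hcp, hk0])
          · rw [hkn, hkr]
            have e1 : (k' - p) * (k' - k' * (1 - c)) = 2 * q * k' := by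
              rw [show k' - p = 2 * q / c by rw [hk']; ring]
              field_simp
              ring
            rw [e1]
        · have hk2 : k' < p + 4 * q / (τ * d) := by
            rw [hk']
            have : 2 * q / c < 4 * q / (τ * d) := by
              rw [div_lt_div_iff₀ hcp (by (clear * - hτ ha1; positivity))]
              nlinarith only [hq, hcase]
            linarith only [this]
          have e1 : k' * s ≤ (p + 4 * q / (τ * d)) * (η * d ^ 2) := by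
            exact mul_le_mul hk2.le hs1 hs0 (by (clear * - hp hq hτ ha1; positivity))
          have e2 : (p + 4 * q / (τ * d)) * (η * d ^ 2) = d * (η * (p * d + 4 * q / τ)) := by
            (clear * - hdp hτ hη hp hq; field_simp)
          have e3 : η * (p * d + 4 * q / τ) ≤ η * (p * d₀ + 4 * q / τ) := by
            apply mul_le_mul_of_nonneg_left _ hη.le
            (clear * - hp had; nlinarith only [hp, had])
          have e4 : k' * s < d := by
            rw [e2] at e1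
            refine e1.trans_lt ?_
            calc d * (η * (p * d + 4 * q / τ)) ≤ d * (η * (p * d₀ + 4 * q / τ)) :=
                  mul_le_mul_of_nonneg_left e3 hdp.le
              _ < d * 1 := mul_lt_mul_of_pos_left hc2 hdp
              _ = d := mul_one d
          rw [show (1:ℝ) - ‖z‖ = s from hs.symm ▸ rfl]
          linarith only [haz, e4]

end Pool.Agent.Helper5.TR

end

section

set_option autoImplicit false

open Complex MeasureTheory Metric Set Filter Topology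

open scoped Real ComplexConjugate

namespace Pool.Agent.Helper5.TR

/-- the strong Marshall bound for every `a < 1` over the set where
`|h| ≥ (1 - η (1 - a)²) L`, or `Re h ≤ 0` and `|h| ≥ σ L`, for every `σ` with
`a σ² < 1 - k (1 - σ)` -/
theorem marshall_union {p q k η τ d₀ : ℝ} (hp : 0 ≤ p) (hq : 0 < q) (hη : 0 < η) (hτ : 0 < τ)
    (hd0 : 0 < d₀) (hd1 : d₀ ≤ 1)
    (hc1 : τ + 2 * η * d₀ ^ 2 + η ^ 2 * d₀ ^ 3 < 1) (hc2 : η * (p * d₀ + 4 * q / τ) < 1)
    (hk : 2 ≤ k) (hkη : η * k * d₀ < 1)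
    (H1 : ∀ t : ℂ, 0 < t.re → t.re < ‖t‖ → 2 * q * ‖t‖ ≤ (‖t‖ - p) * (‖t‖ - t.re) → Ex t)
    (H2 : ∀ t : ℂ, t.re ≤ 0 → ‖t‖ = k → Ex t) :
    ∀ a σ : ℝ, 1 - d₀ ≤ a → a < 1 → 0 < σ → a * σ ^ 2 < 1 - k * (1 - σ) →
      ∃ C : ℝ, ∀ ψ h : ℂ → ℂ,
      DifferentiableOn ℂ ψ {z : ℂ | 1 < ‖z‖} →
      InjOn ψ {z : ℂ | 1 < ‖z‖} →
      (∃ b : ℂ, Tendsto (fun z => ψ z - z) (Bornology.cobounded ℂ) (𝓝 b)) →
      DifferentiableOn ℂ h {z : ℂ | 1 < ‖z‖} →
      (∀ z : ℂ, 1 < ‖z‖ → Complex.exp (h z) = deriv ψ z) →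
      Tendsto h (Bornology.cobounded ℂ) (𝓝 0) →
      ∀ R : ℝ, 1 < R →
        (1 / (2 * π)) * (∫ θ in (0:ℝ)..(2 * π),
          if (1 - η * (1 - a) ^ 2) * Real.log (R ^ 2 / (R ^ 2 - 1)) ≤
              ‖h ((R:ℂ) * Complex.exp ((θ:ℂ) * I))‖ ∨
              (h ((R:ℂ) * Complex.exp ((θ:ℂ) * I))).re ≤ 0 ∧
              σ * Real.log (R ^ 2 / (R ^ 2 - 1)) ≤ ‖h ((R:ℂ) * Complex.exp ((θ:ℂ) * I))‖ then
            Real.exp (a * ‖h ((R:ℂ) * Complex.exp ((θ:ℂ) * I))‖ ^ 2 /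
              Real.log (R ^ 2 / (R ^ 2 - 1)))
          else 0) ≤ C := by
  intro a σ had ha1 hσ hσa
  have ha0 : 0 ≤ a := by (clear * - hd1 had; linarith)
  have hb1 := all_bdd2 hp hq hη hτ hd0 hd1 hc1 hc2 (by linarith only [hk] : (0:ℝ) ≤ k) hkη H1 H2 ha0 had ha1
  have hb2 := left_bdd hk H2 ha1.le hσ hσa
  obtain ⟨C1, hC1⟩ := final_form hb1 (closed_all _)
    (fun z L => (1 - η * (1 - a) ^ 2) * L ≤ ‖z‖) (fun z L => div_all z L)
  obtain ⟨C2, hC2⟩ := final_form hb2 (closed_left _)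
    (fun z L => σ * L ≤ ‖z‖ ∧ z.re ≤ 0) (fun z L => div_left z L)
  refine ⟨C1 + C2, ?_⟩
  intro ψ h h1 h2 h3 h4 h5 h6 R hR
  have hs : Sg ψ h := ⟨h1, h2, h3, h4, h5, h6⟩
  refine le_trans ?_ (add_le_add (hC1 ψ h h1 h2 h3 h4 h5 h6 R hR)
    (hC2 ψ h h1 h2 h3 h4 h5 h6 R hR))
  have hcont := hs.cont hR
  have hL := log_pos' hR
  set L : ℝ := Real.log (R ^ 2 / (R ^ 2 - 1)) with hLd
  have hpi : (0:ℝ) ≤ 2 * π := by positivity
  set E : ℝ → ℝ := fun θ => Real.exp (a * ‖h ((R:ℂ) * Complex.exp ((θ:ℂ) * I))‖ ^ 2 / L) with hE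
  have hEc : Continuous E :=
    Real.continuous_exp.comp ((continuous_const.mul ((continuous_norm.comp hcont).pow 2)).div_const _)
  have hEi : Integrable E (volume.restrict (Ioc 0 (2 * π))) :=
    (hEc.integrableOn_Icc).mono_set Ioc_subset_Icc_self
  -- integrability of the two pieces
  have hi1 : Integrable (fun θ : ℝ => if (1 - η * (1 - a) ^ 2) * L ≤
      ‖h ((R:ℂ) * Complex.exp ((θ:ℂ) * I))‖ then E θ else 0)
      (volume.restrict (Ioc 0 (2 * π))) := by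
    have hm : MeasurableSet {θ : ℝ | (1 - η * (1 - a) ^ 2) * L ≤
        ‖h ((R:ℂ) * Complex.exp ((θ:ℂ) * I))‖} :=
      (isClosed_le continuous_const (continuous_norm.comp hcont)).measurableSet
    have := hEi.indicator hm
    refine this.congr (Eventually.of_forall fun θ => ?_)
    simp only [indicator_apply]
    rfl
  have hi2 : Integrable (fun θ : ℝ => if σ * L ≤
      ‖h ((R:ℂ) * Complex.exp ((θ:ℂ) * I))‖ ∧ (h ((R:ℂ) * Complex.exp ((θ:ℂ) * I))).re ≤ 0
      then E θ else 0) (volume.restrict (Ioc 0 (2 * π))) := by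
    have hm : MeasurableSet {θ : ℝ | σ * L ≤
        ‖h ((R:ℂ) * Complex.exp ((θ:ℂ) * I))‖ ∧ (h ((R:ℂ) * Complex.exp ((θ:ℂ) * I))).re ≤ 0} :=
      ((isClosed_le continuous_const (continuous_norm.comp hcont)).inter
        (isClosed_le (Complex.continuous_re.comp hcont) continuous_const)).measurableSet
    have := hEi.indicator hm
    refine this.congr (Eventually.of_forall fun θ => ?_)
    simp only [indicator_apply]
    rfl
  rw [← mul_add, intervalIntegral.integral_of_le hpi, intervalIntegral.integral_of_le hpi,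
    intervalIntegral.integral_of_le hpi, ← integral_add hi1 hi2]
  apply mul_le_mul_of_nonneg_left _ (by positivity)
  apply integral_mono_of_nonneg
  · refine Eventually.of_forall fun θ => ?_
    show (0:ℝ) ≤ if _ then _ else _
    split_ifs
    · exact (Real.exp_pos _).le
    · exact le_rfl
  · exact hi1.add hi2
  · refine Eventually.of_forall fun θ => ?_
    have hE0 : 0 ≤ E θ := (Real.exp_pos _).le
    show (if (1 - η * (1 - a) ^ 2) * L ≤ ‖h ((R:ℂ) * Complex.exp ((θ:ℂ) * I))‖ ∨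
        (h ((R:ℂ) * Complex.exp ((θ:ℂ) * I))).re ≤ 0 ∧
          σ * L ≤ ‖h ((R:ℂ) * Complex.exp ((θ:ℂ) * I))‖ then E θ else 0) ≤
      (if (1 - η * (1 - a) ^ 2) * L ≤ ‖h ((R:ℂ) * Complex.exp ((θ:ℂ) * I))‖ then E θ else 0) +
      (if σ * L ≤ ‖h ((R:ℂ) * Complex.exp ((θ:ℂ) * I))‖ ∧
        (h ((R:ℂ) * Complex.exp ((θ:ℂ) * I))).re ≤ 0 then E θ else 0)
    by_cases hA : (1 - η * (1 - a) ^ 2) * L ≤ ‖h ((R:ℂ) * Complex.exp ((θ:ℂ) * I))‖
    · rw [if_pos (Or.inl hA), if_pos hA]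
      have : 0 ≤ (if σ * L ≤ ‖h ((R:ℂ) * Complex.exp ((θ:ℂ) * I))‖ ∧
        (h ((R:ℂ) * Complex.exp ((θ:ℂ) * I))).re ≤ 0 then E θ else 0) := by
        split_ifs
        · exact hE0
        · exact le_rfl
      (clear * - this; linarith)
    · by_cases hB : (h ((R:ℂ) * Complex.exp ((θ:ℂ) * I))).re ≤ 0 ∧
          σ * L ≤ ‖h ((R:ℂ) * Complex.exp ((θ:ℂ) * I))‖
      · rw [if_pos (Or.inr hB), if_neg hA, if_pos ⟨hB.2, hB.1⟩, zero_add]
      · rw [if_neg (by tauto), if_neg hA, if_neg (fun h => hB ⟨h.2, h.1⟩), zero_add]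

end Pool.Agent.Helper5.TR

end
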