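import Pool.Agent.Helper14.CMF.T45
import Pool.Agent.Helper14.CMF.T46
import Pool.Agent.Helper14.CMF.T47
import Pool.Agent.Helper14.CMF.T29

set_option linter.all false

section

namespace Pool.EK71
end Pool.EK71
namespace Pool.Agent.Helper71.EKC
end Pool.Agent.Helper71.EKC

/-!
EKC certificate W3: data and kernel checks.
-/

set_option autoImplicit false

namespace Pool.Agent.Helper71.EKC.W3

open Pool.EK71 Pool.Agent.Helper71.EKC

def C : CD where
  a := 5
  k := 2
  K := 700
  kk := 4015
  U := [[2632, 98, 27580, 868, 69398], [-1057, 1407, -5131, 140], [23849, 4690, 134407], [-13013, 1708], [52192]]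
  V := [[-273, 938, -11753, 1239, 4487], [-5446, 3262, -6993, -1232], [-12306, -15589, -48370], [20776, 4746], [25865]]
  Z := [[2499, -252, 15162, 2457, 31045], [1575, 2275, -4277, -2226], [15463, 6629, 59465], [-15554, -217], [12523]]
  W := [[-49, -7875, 14399, -23366, 3171], [1589, -7539, 26320, 14231], [17038, -87990, -28], [28924, -178178], [5012]]
  T := [[-791, -721, -1169, -22589, 2534], [-665, -2569, 1694, -13713], [-903, -30114, 4781], [315, -29260], [1253]]
  S := [[1330, 0, 6650], [], [6650]]

def D1a : BP := [[129849286, 279859566, 4097838577, -3192190694, 72243247055, 11555505332, 506992310118, 8518216364, 2443155510152, 30755537470, 5441122923145, 18200068250, 4745289255875],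
  [-266094150, -1998874640, 941006808, -62217800960, -33376374948, -204203463184, 125349289968, -145788586720, 319182812970, -148022971040, 277450433400, 257230125600],
  [4297115627, 13281192036, 209405263536, 47272078084, 1799074836258, -392099187228, 9902209089360, -2000556885460, 26167758892835, -702886560600, 25988062881200],
  [6522162752, 29639339716, 322879897676, 13524949228, 1719191393948, 497273635460, 3913222905060, -2210871280940, 5913997568500, 755700530200],
  [6636411096, -214040565200, 853648893678, 225345410612, 11152920772714, -462446214160, 49308357677390, 852062705900, 53158550245850],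
  [36959089832, -159194110012, 2395596315000, 1134608299384, 15998537198840, -5124217891660, 43800701277200, 1419657262800],
  [438731312530, 507764279204, 2863105038304, 2926158163460, 39945465460250, 1678079911200, 63648839108400],
  [-112763878892, 2117491958204, -689504859540, 788680910220, 33443960418400, 1606351584600],
  [1935008768238, 2284957971170, 15563207949625, 660298235450, 51551873728775],
  [-925981490770, 3850050491980, -5666916507000, 690382873600],
  [4199464197075, 555367659000, 23322852245000],
  [-946722783300, 5218147200],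
  [3504041004100]]

def D1b : BP := [[-883078, 42245154, -1957441612, 894897388, 1218025438, -17252708900, -100388939924, 54495896448, -363445128382, 13145455890, -366513277200, -27652459100, 61725189750],
  [-309420888, 248885896, -5023191390, -10112804240, -56627405464, 35038431372, -251932355556, 120787398060, -374841740560, 49993205500, -194267769150, -30097657100],
  [-571926334, 4169197830, -28665817516, -18556197002, -342016808532, 413151462010, -1026160059176, 278152153930, 178396815170, -399104098400, 700737793700],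
  [5104646148, 507139220, -42136039428, 48745640412, -774342447704, 277389288316, -2096962989940, 136494357860, -215725934900, -56031108000],
  [28051767450, -96781120590, 163482209478, 616811926108, -1290743392022, 1099621187770, -1240537251730, -1278211001200, 1307784735600],
  [35577230570, -43049998208, -71168918590, 324639116508, -1357552144690, 602206018260, 2636530698550, 128895264400],
  [50765676878, 199465237174, -1552754258972, 867492851750, -7079257309530, -1660512181300, 1741281816400],
  [20799446010, 457491121892, -869240447040, 1291190394620, 439898364850, 441747602800],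
  [-212099623064, 21390527620, -5210864125670, -1023952387500, 2122862444150],
  [221350276910, 775485528720, -1578261531000, 423173265900],
  [82945839760, -270199568100, 1119680551500],
  [639828968450, 136254378400],
  [69327792100]]

def D1d : BP := [[88371668, -129295432, 762692532, 2254321496, 19342688736, -25340479584, 168596866676, -62428087680, 102312373464, -33958064280, 184550731400, 47205204200, 396902200100],
  [-193217136, -439747168, -2209014640, -19776001728, 68632450880, -82526713360, 16910956776, -569860592, -197242816960, 78927408560, -162220804200, -23956080400],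
  [104278972, -2769804408, 40843708864, -131422551344, 472526228132, -307598202128, 148299182024, -257812704240, 991279483320, 105588429800, 2308889438800],
  [1615114592, -27052433520, 149852027304, -202316623712, 180225971744, 53387068784, -548678184040, 458906575680, -382452358400, -185930500000],
  [25553646076, -125751895976, 523599529096, -426939144296, -111762145068, -418518903880, 2077325798660, 203443879800, 5570182526300],
  [59029309976, -89677956032, 346670499952, 167113426704, -454466225080, 553843860080, -536733426600, -473527493600],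
  [160311186616, -124273656808, -28546514304, -99903316800, 2938661111820, 324272503800, 7179833710000],
  [59130211448, 183807033648, -530275405240, 255169428640, -1108837216200, -558964168000],
  [173294854124, 107257813040, 2754593578660, 282156599200, 5170232491900],
  [-291042406760, 81304735680, -992040098000, -321287453200],
  [1086529513580, 102944749600, 1918659965600],
  [-199704754200, -73876359200],
  [270065896100]]

def D1q : BP := [[12333, 1904, 159432, -9604, 1593620, 121240, 5571160, 177100, 6720350],
  [12376, -184044, 169568, -335552, -9240, -792820, 134400, 235200],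
  [414540, -151844, 3075268, -618800, 15669780, -1117900, 23036300],
  [763784, 911008, 5120640, 719320, 13041000, 235200],
  [635908, 12600, 14472640, -885500, 32631900],
  [-1022280, 1512140, 10298400, -235200],
  [4374020, 409500, 23036300],
  [-2608200, -235200],
  [6720350]]

def D1 : Dat := ⟨12, D1a, D1b, D1d, 8, D1q, 2 ^ 194⟩

def C1 : Cov := ⟨32,
  .sx 0 (.sy 0 (.leaf 28) (.leaf 47)) (.sy 0 (.leaf 26) (.sx 16 (.sy 16 (.sx 8 (.leaf 43) (.leaf 39)) (.leaf 57)) (.leaf 47))),
  .sy 0 (.leaf 49) (.leaf 49),
  .sy 0 (.leaf 65) (.leaf 69),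
  .sy 0 (.leaf 48) (.leaf 41),
  .sy 0 (.leaf 61) (.leaf 63)⟩

def DSa : BP := [[1330, 0, 6650],
  [0, 0],
  [6650]]

def DSb : BP := [[0, 0, 0],
  [0, 0],
  [0]]

def DSd : BP := [[1330, 0, 6650],
  [0, 0],
  [6650]]

def DSq : BP := [[1330, 0, 6650],
  [0, 0],
  [6650]]

def DS : Dat := ⟨2, DSa, DSb, DSd, 2, DSq, 2 ^ 43⟩

def CS : Cov := ⟨32,
  .sx 0 (.sy 0 (.leaf 1) (.leaf 1)) (.sy 0 (.leaf 1) (.leaf 1)),
  .leaf 1,
  .leaf 1,
  .leaf 1,
  .leaf 1⟩

def E0a : BP := [[2907793280, -4346496000, 198150607256, 219137730616, 2212686684292, 1314234791016, 16990933678460, 12849878143312, 86049124325528, 54721040151344, 354686994184992, 155995363056120, 693587726664420, 119107065217000, 668746475911500],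
  [-29702090880, 18386336640, -1174154226840, -197054213440, -11658665317152, -10512748041600, -74800150709648, -44762917594304, -252122831694272, -97575402126720, -560596680817880, -111373283651840, -316632579933600, 41271023337600],
  [234176379416, -217786864904, 4061543525424, -1228270396808, 42785748348476, -10452693285664, 232475606455456, -17472253098944, 1293960933277152, 409389045913960, 3369841763508080, 995441104939400, 4343947587826700],
  [-1198151165400, -402720306240, -22402878596000, 6839497528976, -121003815684192, 81220507918704, -480346252394064, 340641378637840, -1461779087322120, -90820183660080, -96768872667600, 161950083416800],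
  [4521949685932, 6002499599376, 64278054503712, -29459315291056, 376701809727936, -26282335058336, 2347460112460904, 883922709114480, 7990918025932100, 3105008100798800, 10772412073061800],
  [-9312073140608, 3244577640976, -80514760097072, 8411913828416, -174144147692592, 540372905293424, 405891865324400, -574069366757600, 7885817666717200, 380639721028000],
  [16542492428896, -6156743862080, 327717175397248, 195569336925536, 2021401729365928, 1309753608382800, 9946749204209440, 3813386720631600, 15242911641433000],
  [-34311095122528, -117571511684592, -94986410602832, -12794541157552, 26549520118800, -1311687266794240, 13389569976977600, 593097734090400],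
  [97441847799240, 149658378733584, 944922984527032, 1007140997027480, 6391199296863500, 1519439758663400, 14928003044086300],
  [-149065683610032, -114950665686416, -1823777487732760, -707580749696800, 3804995465594400, 495890360207200],
  [331707428529848, 327916414901320, 2218140627273200, -243811374767800, 9935122191019900],
  [-543252736022920, 9484050348080, -2431399449138800, 172922125196800],
  [459026545530700, -178538473876000, 3578281645783600],
  [-512778897206800, 10168838131200],
  [425461818563600]]

def E0b : BP := [[-539360640, 2151154880, 53043449032, 63254522184, 38486581168, 1373927689008, 3774395096248, 6600661780720, 13074436774896, 38353857347008, 38197248833128, 15628863186440, 9405369248800, 4902991136400, 12098137191000],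
  [-6026043520, -1904947520, -214548673248, 300836428256, -1063477440760, 801736792640, -5216340805984, 4668519956912, -41939875132176, -30568911844240, -132843856205760, -21948629682000, -123048613633400, -5899140791600],
  [88856051592, -94205911576, 1023407181944, 713847056328, 5894391512072, 678006449288, 31453497320224, 115292524312168, 246451306586632, 5148493664720, 403294865142120, -32280090150000, 149442744756200],
  [-429074209088, -236235935264, -3322004729512, -742178206000, -12845629498352, -4001847211936, -161644022019760, -169702400822304, -717161929358000, -148107920701440, -587831848473800, -16881237959600],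
  [693648732616, 2156287428120, 4963779657144, -7268916523232, 78172620271816, 203374226093528, 407820212285192, 24429318029200, 624568647754240, -203119911601600, 393670415742800],
  [-1545812582832, -1611900342640, -8431516314088, -42918467977616, -142063821280024, -370274706374496, -1119595363555480, -392740974840480, -820849939684600, 14281374654400],
  [2921361609320, -1346261191800, 57772566344976, 202782848457672, 103680445541176, 90910146393920, -921522967086960, -380638840890000, 597617044192000],
  [-802227621720, -34248100808768, -51321655628880, -296984894113600, -961602076963080, -450989129635520, -1203042389813600, 111846001971200],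
  [-2020993381512, 76347289329304, -81606033355056, 48730381884520, -2094855197159200, -335106579964800, 757372275067800],
  [-28961981236440, -65843676717168, -483635173249480, -206443869145360, -1669369460725400, 169524490265200],
  [14279675635456, -7270076958480, -886909012258360, -149957886097600, 635538427147400],
  [-57310386689640, -22036423330880, -812143950179800, 109647818282800],
  [55744065952960, -29553316707600, 233045635345600],
  [10249825576200, 26705858166400],
  [13588247251600]]

def E0d : BP := [[840667520, 8698040960, 74396595728, -2473847712, 506172534672, 986086485216, 3644639681536, 4148727534336, 29702649612496, 21407444638720, 20124441798944, 14593206601120, 44068804914400, 9252220023200, 77792831219600],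
  [-137450880, 7992723200, -121976542016, 464573600512, -1952878002880, 940289465472, 2532389870080, -9453771597760, -30515754151904, -24101403540032, -72674024044160, 10282569357760, -31795277623200, -4695391758400],
  [89068873488, 115472711648, 1115480339904, 3246316069248, 11531693429760, 11117211310912, 109974268220768, 95632753981632, 48708912067648, 63213255850080, 254499887685120, 29947552264000, 530335161224400],
  [-180399375296, 373806031872, -3565040967488, 63385763392, 13036134319264, -36215839528512, -63639439034080, -87186204858368, -239942745476000, 93208392751040, -106755939869600, -41137769758400],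
  [526366124592, 2256417399712, 10998525586160, 3923132526880, 159518578570288, 136870013924896, 3306174443376, 77448026408480, 624828245548080, 60570332681600, 1544298105159600],
  [-1609368475008, -876903702080, 8723557902080, -38168421217024, -38775937595584, -105458770692352, -287008493627520, 201542839968960, -180160413860000, -129253766745600],
  [3111471837936, -3045351249696, 96290590647552, 83740637575616, -35887868788912, 18504222666720, 994225450774080, 103432411185600, 2499003182314800],
  [-1780186547104, -11406353286272, -33044728309600, -31917035851008, -241876871382720, 189068250029120, -322531845988800, -202368365673600],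
  [17043630685536, 21095932993632, 21161291668720, -12999257776960, 1130783039214080, 118860104188000, 2420612975572400],
  [-27392475596192, 10456933523008, -192433504032000, 94928704366720, -411771953583200, -172529317755200],
  [31770864632304, -2675503284160, 770116099359040, 75479864364800, 1389422921670000],
  [-70296404844960, 24477470913280, -233581991031200, -77452107230400],
  [219161348141680, 20177170921600, 428990268893200],
  [-39142131823200, -14479766403200],
  [52932915635600]]

def E0q : BP := [[2519, 0, 41454, 1904, 218232, -9604, 1257620, 121240, 4486160, 177100, 6720350],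
  [-10640, 0, -147224, -184044, -628432, -335552, -1339240, -792820, 134400, 235200],
  [41454, 1904, 691572, -161448, 3660888, -497560, 16900940, -940800, 29756650],
  [-147224, -184044, -662648, 575456, 1121400, -73500, 13175400, 470400],
  [473340, -151844, 2703176, -606200, 23632420, -2003400, 55668200],
  [-34216, 911008, 108360, 2231460, 23339400, 0],
  [299908, 12600, 14506660, -476000, 55668200],
  [-2352280, 1512140, 7690200, -470400],
  [3289020, 409500, 29756650],
  [-2608200, -235200],
  [6720350]]

def E0 : Dat := ⟨14, E0a, E0b, E0d, 10, E0q, 2 ^ 226⟩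

def F0 : Cov := ⟨32,
  .sx 0 (.sy 0 (.leaf 54) (.leaf 36)) (.sy 0 (.sx 16 (.sy (-16) (.leaf 47) (.sx 8 (.leaf 30) (.leaf 22))) (.sy (-16) (.leaf 41) (.sx 24 (.sy (-8) (.sx 20 (.leaf 29) (.sy (-12) (.leaf 35) (.leaf 26))) (.sx 20 (.sy (-4) (.leaf 21) (.leaf 15)) (.sy (-4) (.sx 22 (.sy (-6) (.leaf 21) (.leaf 17)) (.sy (-6) (.leaf 20) (.leaf 15))) (.leaf 13)))) (.sy (-8) (.sx 28 (.sy (-12) (.leaf 34) (.leaf 26)) (.leaf 27)) (.sx 28 (.sy (-4) (.sx 26 (.sy (-6) (.leaf 19) (.leaf 14)) (.leaf 17)) (.leaf 11)) (.leaf 18)))))) (.sx 16 (.leaf 18) (.sy 16 (.sx 24 (.sy 8 (.sx 20 (.sy 4 (.leaf 15) (.sx 18 (.leaf 21) (.sy 6 (.leaf 19) (.leaf 23)))) (.sy 4 (.sx 22 (.sy 2 (.leaf 12) (.leaf 14)) (.leaf 12)) (.sx 22 (.sy 6 (.leaf 18) (.leaf 22)) (.sy 6 (.leaf 17) (.leaf 21))))) (.sx 20 (.leaf 29) (.sy 12 (.leaf 27) (.leaf 35)))) (.sy 8 (.sx 28 (.sy 4 (.leaf 12) (.sx 26 (.sy 6 (.leaf 16) (.leaf 20)) (.leaf 19))) (.leaf 20)) (.sx 28 (.sy 12 (.leaf 26) (.leaf 34)) (.leaf 28)))) (.leaf 41)))),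
  .sy 0 (.leaf 29) (.leaf 29),
  .sy 0 (.leaf 45) (.leaf 54),
  .sy 0 (.leaf 41) (.leaf 38),
  .sy 0 (.leaf 46) (.leaf 52)⟩

set_option maxRecDepth 100000 in
theorem o1 : ok1 C D1 C1 = true := by decide +kernel

set_option maxRecDepth 100000 in
theorem oS : okS C DS CS = true := by decide +kernel

theorem oF : okF C = true := by decide +kernel

set_option maxRecDepth 100000 in
theorem p0 : ok2 (C.wk C.kk) 4 7 14 E0 F0 = true := by decide +kernel

theorem vs0 : VS (sgf C.a C.k C.K C.S) ((4 : ℤ) / (14 : ℤ)) ((7 : ℤ) / (14 : ℤ))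
    (C.kk / C.K) :=
  vs_of le_rfl oF o1 oS (by decide) p0

end Pool.Agent.Helper71.EKC.W3

end

section

namespace Pool.EK71
end Pool.EK71
namespace Pool.Agent.Helper52.EK
end Pool.Agent.Helper52.EK
namespace Pool.Agent.Helper68.EKC
end Pool.Agent.Helper68.EKC
namespace Pool.Agent.Helper71.EK
end Pool.Agent.Helper71.EK

set_option autoImplicit false

open Complex MeasureTheory Metric Set

open scoped Real ComplexConjugate

namespace Pool.Agent.Helper71.EKC

open Pool.EK71 Pool.Agent.Helper52.EK

open Pool.Agent.Helper68.EKC (Gu)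

open Pool.Agent.Helper71.EK (e0_norm)

/-- the common weight -/
noncomputable def sgo (X : ℂ) : ℝ :=
  ((X.re - 1) ^ 2 + X.im ^ 2) * (19 / 10 * (1 + 5 * (X.re ^ 2 + X.im ^ 2))) /
    Da 5 X.re X.im ^ 2

lemma sgo_conj (X : ℂ) : sgo (conj X) = sgo X := by
  unfold sgo Da
  simp

lemma sgo_1 : sgf W1.C.a W1.C.k W1.C.K W1.C.S = sgo := by
  funext X
  unfold sgf sgo W1.C
  congr 2
  simp [ev2, ev1]
  ring

lemma sgo_2 : sgf W2.C.a W2.C.k W2.C.K W2.C.S = sgo := by
  funext X
  unfold sgf sgo W2.C
  congr 2
  simp [ev2, ev1]
  ring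

lemma sgo_3 : sgf W3.C.a W3.C.k W3.C.K W3.C.S = sgo := by
  funext X
  unfold sgf sgo W3.C
  congr 2
  simp [ev2, ev1]
  ring

lemma sgo_4 : sgf W4.C.a W4.C.k W4.C.K W4.C.S = sgo := by
  funext X
  unfold sgf sgo W4.C
  congr 2
  simp [ev2, ev1]
  ring

theorem vso_1 : VS sgo 1 (1 / 5) (179 / 20) := by
  have h := W1.vs0
  rw [sgo_1] at h
  norm_num [W1.C] at h
  exact h

theorem vso_2 : VS sgo (5 / 7) (1 / 2) (1073 / 140) := by
  have h := W2.vs0
  rw [sgo_2] at h
  norm_num [W2.C] at h
  exact h

theorem vso_3 : VS sgo (2 / 7) (1 / 2) (803 / 140) := by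
  have h := W3.vs0
  rw [sgo_3] at h
  norm_num [W3.C] at h
  exact h

theorem vso_4 : VS sgo 0 (1 / 5) (89 / 20) := by
  have h := W4.vs0
  rw [sgo_4] at h
  norm_num [W4.C] at h
  exact h

/-- upper half of the circle -/
theorem covo_up {x y : ℝ} (h : (2 * x - 1) ^ 2 + (2 * y) ^ 2 = 1) (hy : 0 ≤ y) :
    VS sgo x y (9 / 2 * (1 + x) - 1 / 20) := by
  have hx0 : 0 ≤ x := by (clear * - h; nlinarith only [h])
  have hx1 : x ≤ 1 := by (clear * - h; nlinarith only [h])
  have hy1 : y ≤ 1 / 2 := by nlinarith only [h]
  have ht : 21 * x + 20 * y ≤ 25 := by nlinarith only [sq_nonneg (20 * (2 * x - 1) - 21 * (2 * y)), h]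
  have hs : 20 * y ≤ 4 + 21 * x := by nlinarith only [sq_nonneg (20 * (2 * x - 1) + 21 * (2 * y)), h]
  have v1 := vso_1
  have v1' := vso_1.refl sgo_conj
  have v2 := vso_2
  have v3 := vso_3
  have v4 := vso_4
  have v4' := vso_4.refl sgo_conj
  obtain ⟨w, hw⟩ : ∃ w : ℝ, w = y + 1 / 5 := ⟨_, rfl⟩
  have hyw : y = w - 1 / 5 := by linarith
  subst hyw
  rcases le_total (5 * w) (2 * x) with h1 | h1
  · have := v4'.tri v1' v1 (l₁ := 1 - x) (l₂ := x - 5 / 2 * w) (l₃ := 5 / 2 * w)
      (by linarith only [hx1]) (by linarith only [h1]) (by linarith only [hy]) (by ring)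
    convert this using 1 <;> ring
  · rcases le_total (50 * w) (49 * x) with h2 | h2
    · have := v4'.tri v1 v2 (l₁ := (29 - 21 * x - 20 * w) / 29) (l₂ := (49 * x - 50 * w) / 29)
        (l₃ := (70 * w - 28 * x) / 29) (by linarith only [ht]) (by linarith only [h2]) (by linarith only [h1]) (by ring)
      convert this using 1 <;> ring
    · rcases le_total (20 * w) (49 * x) with h3 | h3
      · have := v4'.tri v2 v3 (l₁ := (7 - 10 * w) / 7) (l₂ := (49 * x - 20 * w) / 21)
          (l₃ := (50 * w - 49 * x) / 21) (by linarith only [hy1]) (by linarith only [h3]) (by linarith only [h2]) (by ring)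
        convert this using 1 <;> ring
      · have := v4'.tri v3 v4 (l₁ := (8 + 21 * x - 20 * w) / 8) (l₂ := 7 / 2 * x)
          (l₃ := 5 / 2 * w - 49 / 8 * x) (by linarith only [hs]) (by linarith only [hx0]) (by linarith only [h3]) (by ring)
        convert this using 1 <;> ring

/-- the whole circle -/
theorem covo {x y : ℝ} (h : (2 * x - 1) ^ 2 + (2 * y) ^ 2 = 1) :
    VS sgo x y (9 / 2 * (1 + x) - 1 / 20) := by
  rcases le_total 0 y with hy | hy
  · exact covo_up h hy
  · have e : (2 * -y) ^ 2 = (2 * y) ^ 2 := by ring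
    have := (covo_up (x := x) (y := -y) (by rw [e]; exact h) (by (clear * - hy; linarith only [hy]))).refl sgo_conj
    rwa [neg_neg] at this

lemma T_zero (X Y : ℂ) (s c : ℝ) (h : s ^ 2 + c ^ 2 = 1) :
    TG (Gu (-1)) ((1 + -1) / 2 * X) ((1 + -1) / 2 * Y) s c = 0 := by
  have he := e0_norm h
  have e1 : conj (-1 : ℂ) * (mX ((1 + -1) / 2 * X) ((1 + -1) / 2 * Y) s c + 1) - 1 = e0 s c := by
    rw [mX]
    simp
  rw [TG, Gu, e1, Gc, he]
  simp

/-- the strip inequality in every direction -/
theorem cover : Pool.Agent.Helper96.EKC.Cover := by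
  intro u hu
  have hre : ((1 + u) / 2).re = (1 + u.re) / 2 := by simp
  have him : ((1 + u) / 2).im = u.im / 2 := by simp
  have hn : u.re ^ 2 + u.im ^ 2 = 1 := by
    have : ‖u‖ ^ 2 = u.re ^ 2 + u.im ^ 2 := by
      rw [← Complex.normSq_eq_norm_sq, Complex.normSq_apply]; ring
    rw [← this, hu]; norm_num
  have hge : -1 ≤ u.re := by (clear * - hn; nlinarith only [hn])
  by_cases h1 : 1 + u = 0
  · have hu1 : u = -1 := by linear_combination h1
    subst hu1
    refine ⟨0, fun X x₁ x₂ l hl hx hX => ?_⟩
    have e : II (x₁ + l) (x₂ - l) (fun ξ η => TG (Gu (-1)) ((1 + -1) / 2 * X (pt ξ η))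
        ((1 + -1) / 2 * deriv X (pt ξ η)) (Real.sin η) (Real.cos η)) = 0 := by
      simp only [T_zero _ _ _ _ (Real.sin_sq_add_cos_sq _)]
      simp [II]
    rw [e]
    have h2 : 0 ≤ II x₁ x₂ (fun ξ η => ‖X (pt ξ η) - 1‖ ^ 2) :=
      Pool.Agent.Helper83.EK.II_nonneg (by (clear * - hl hx; linarith only [hl, hx])) (fun ξ η => by (clear * -; positivity))
    refine mul_nonneg ?_ h2
    rw [hre]
    norm_num
  · refine (covo ?_).strip hu h1 ?_
    · rw [hre, him]
      linear_combination hn
    · rw [hre]; (clear * - hge; linarith only [hge])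

end Pool.Agent.Helper71.EKC

end

section

namespace Pool.Agent.Helper58.CKC
end Pool.Agent.Helper58.CKC

set_option autoImplicit false

open Complex MeasureTheory Metric Set

open scoped Real ComplexConjugate

namespace Pool.Agent.Helper96.CKF

open Pool.Agent.Helper58.CKC

/-- the circle means of `|exp (t h)|` are at least `c (R²/(R²-1))^s` for one function of the
class -/
def LowC (t : ℂ) (s : ℝ) : Prop :=
  ∃ ψ h : ℂ → ℂ, DifferentiableOn ℂ ψ {z : ℂ | 1 < ‖z‖} ∧
    InjOn ψ {z : ℂ | 1 < ‖z‖} ∧
    (∃ b : ℂ, Filter.Tendsto (fun z => ψ z - z) (Bornology.cobounded ℂ) (nhds b)) ∧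
    DifferentiableOn ℂ h {z : ℂ | 1 < ‖z‖} ∧
    (∀ z : ℂ, 1 < ‖z‖ → Complex.exp (h z) = deriv ψ z) ∧
    Filter.Tendsto h (Bornology.cobounded ℂ) (nhds 0) ∧
    ∃ c : ℝ, 0 < c ∧ ∀ R : ℝ, 1 < R →
      c * (R ^ 2 / (R ^ 2 - 1)) ^ s ≤
        (2 * π)⁻¹ *
          (∫ θ in (0:ℝ)..(2 * π), ‖Complex.exp (t * h (R * Complex.exp (θ * I)))‖)

theorem lowC {t : ℂ} (h1 : 1 < ‖t‖) (h2 : t.re < ‖t‖) : LowC t (‖t‖ - 1) := by
  have hn0 : 0 < ‖t‖ := by (clear * - h1; linarith only [h1])
  set u : ℂ := -(conj t / ‖t‖) with hu
  have hu1 : ‖u‖ = 1 := by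
    rw [hu, norm_neg, norm_div, RCLike.norm_conj, Complex.norm_real, norm_norm, div_self hn0.ne']
  have hre : u.re = -(t.re / ‖t‖) := by
    rw [hu, Complex.neg_re, Complex.div_ofReal_re, Complex.conj_re]
  have hne : u ≠ -1 := by
    intro h
    have h1 : u.re = -1 := by rw [h]; simp
    rw [hre] at h1
    have h2 : t.re / ‖t‖ = 1 := by linarith only [h1]
    rw [div_eq_one_iff_eq hn0.ne'] at h2
    linarith
  obtain ⟨ψ, h, a1, a2, a3, a4, a5, a6, a7⟩ := Pool.Agent.Helper97.EKC.sharp_u hu1 hne
  obtain ⟨c, hc, hR⟩ := a7 ‖t‖ h1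
  refine ⟨ψ, h, a1, a2, a3, a4, a5, a6, c, hc, fun R h1 => ?_⟩
  have h2 := hR R h1
  have hnC : (‖t‖ : ℂ) ≠ 0 := by exact_mod_cast hn0.ne'
  have h7 : -((‖t‖ : ℝ) : ℂ) * conj u = t := by
    rw [hu, map_neg, map_div₀, Complex.conj_conj, Complex.conj_ofReal]
    field_simp
  simp only [Complex.norm_exp]
  simp only [h7] at h2
  exact h2

/-- negative real exponents, from the moments of `ψ'` -/
theorem sig_real {p s : ℝ} {t : ℂ} (ht : t = ((-p : ℝ) : ℂ))
    (H : ∃ C : ℝ, ∀ ψ : ℂ → ℂ,
      DifferentiableOn ℂ ψ {z : ℂ | 1 < ‖z‖} → InjOn ψ {z : ℂ | 1 < ‖z‖} →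
      (∃ b : ℂ, Filter.Tendsto (fun z => ψ z - z) (Bornology.cobounded ℂ) (nhds b)) →
      ∀ R : ℝ, 1 < R →
      (2 * π)⁻¹ * (∫ θ in (0:ℝ)..(2 * π), ‖deriv ψ (R * Complex.exp (θ * I))‖ ^ (-p)) ≤
        C * (R ^ 2 / (R ^ 2 - 1)) ^ s) : SigC t s := by
  obtain ⟨C, hC⟩ := H
  refine ⟨C, fun ψ h a1 a2 a3 a4 a5 a6 R h1 => ?_⟩
  refine le_of_eq_of_le ?_ (hC ψ a1 a2 a3 R h1)
  congr 1
  refine intervalIntegral.integral_congr fun θ _ => ?_
  have hz : 1 < ‖(R : ℂ) * Complex.exp (θ * I)‖ := by
    rw [norm_mul, Complex.norm_exp_ofReal_mul_I, mul_one, Complex.norm_real, Real.norm_eq_abs]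
    exact lt_of_lt_of_le h1 (le_abs_self R)
  have hw := a5 _ hz
  rw [← hw, Complex.norm_exp, Complex.norm_exp, ← Real.exp_mul, ht, Complex.re_ofReal_mul]
  congr 1
  ring

/-- a larger exponent -/
theorem sig_mono {t : ℂ} {s s' : ℝ} (hs : s ≤ s') (H : SigC t s) : SigC t s' := by
  obtain ⟨C, hC⟩ := H
  refine ⟨max C 0, fun ψ h a1 a2 a3 a4 a5 a6 R h1 => (hC ψ h a1 a2 a3 a4 a5 a6 R h1).trans ?_⟩
  have h2 : 0 < R ^ 2 - 1 := by (clear * - h1; nlinarith only [h1])
  have h3 : 1 ≤ R ^ 2 / (R ^ 2 - 1) := by
    rw [one_le_div h2]; linarith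
  have h4 : (R ^ 2 / (R ^ 2 - 1)) ^ s ≤ (R ^ 2 / (R ^ 2 - 1)) ^ s' :=
    Real.rpow_le_rpow_of_exponent_le h3 hs
  have h5 : 0 ≤ (R ^ 2 / (R ^ 2 - 1)) ^ s := by positivity
  calc C * (R ^ 2 / (R ^ 2 - 1)) ^ s ≤ max C 0 * (R ^ 2 / (R ^ 2 - 1)) ^ s :=
        mul_le_mul_of_nonneg_right (le_max_left _ _) h5
    _ ≤ max C 0 * (R ^ 2 / (R ^ 2 - 1)) ^ s' :=
        mul_le_mul_of_nonneg_left h4 (le_max_right _ _)

theorem norm_neg_real {t : ℂ} (him : t.im = 0) (hre : t.re ≤ 0) : ‖t‖ = -t.re := by
  have h1 : t = ((t.re : ℝ) : ℂ) := by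
    apply Complex.ext
    · simp
    · simp [him]
  rw [h1, Complex.norm_real, Real.norm_eq_abs, abs_of_nonpos hre, Complex.ofReal_re]

/-- both bounds for a negative real exponent, from the moments of order `-p`, `p ≥ κ` -/
theorem real_both {κ : ℝ} (hκ : 1 < κ)
    (H : ∀ p : ℝ, κ ≤ p → ∀ e : ℝ, 0 < e → ∃ C : ℝ, ∀ ψ : ℂ → ℂ,
      DifferentiableOn ℂ ψ {z : ℂ | 1 < ‖z‖} → InjOn ψ {z : ℂ | 1 < ‖z‖} →
      (∃ b : ℂ, Filter.Tendsto (fun z => ψ z - z) (Bornology.cobounded ℂ) (nhds b)) →
      ∀ R : ℝ, 1 < R →
      (2 * π)⁻¹ * (∫ θ in (0:ℝ)..(2 * π), ‖deriv ψ (R * Complex.exp (θ * I))‖ ^ (-p)) ≤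
        C * (R ^ 2 / (R ^ 2 - 1)) ^ (p - 1 + e))
    {t : ℂ} (him : t.im = 0) (hre : t.re ≤ -κ) {e : ℝ} (he : 0 < e) :
    SigC t (‖t‖ - 1 + e) ∧ LowC t (‖t‖ - 1) := by
  have h1 : t = ((-(-t.re) : ℝ) : ℂ) := by
    apply Complex.ext
    · simp
    · simp [him]
  have hn : ‖t‖ = -t.re := by
    rw [h1, Complex.norm_real, Real.norm_eq_abs, abs_of_nonpos (by (clear * - hκ hre; linarith))]
    simp
  refine ⟨?_, lowC (by rw [hn]; linarith) (by rw [hn]; linarith)⟩
  rw [hn]
  exact sig_real h1 (H (-t.re) (by linarith) e he)

end Pool.Agent.Helper96.CKF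

end

section

namespace Pool.Agent.Helper58.CKC
end Pool.Agent.Helper58.CKC

set_option autoImplicit false

open Complex MeasureTheory Metric Set

open scoped Real ComplexConjugate

namespace Pool.Agent.Helper96.CKF

open Pool.Agent.Helper58.CKC

theorem sig_cover (cover : Pool.Agent.Helper96.EKC.Cover) {t : ℂ} (ht0 : t ≠ 0)
    (hreg : 9 * (3 * ‖t‖ - t.re) ≤ 4 * ‖t‖ * (‖t‖ - t.re)) {e : ℝ} (he : 0 ≤ e) :
    SigC t (‖t‖ - 1 + e) :=
  sig_mono (by linarith only [he]) (Pool.Agent.Helper96.EKC.upper cover ht0 hreg)

theorem reg_low {t : ℂ} (ht0 : t ≠ 0)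
    (hreg : 9 * (3 * ‖t‖ - t.re) ≤ 4 * ‖t‖ * (‖t‖ - t.re)) : 1 < ‖t‖ ∧ t.re < ‖t‖ := by
  have hn0 : 0 < ‖t‖ := norm_pos_iff.mpr ht0
  have hre1 : t.re ≤ ‖t‖ := Complex.re_le_norm t
  have hd : 0 < ‖t‖ - t.re := by nlinarith only [hreg, hn0, hre1]
  have h94 : 9 / 4 < ‖t‖ := by
    by_contra hc
    push Not at hc
    (clear * - hreg hn0 hd hc; nlinarith only [hreg, hn0, hd, hc])
  exact ⟨by linarith, by linarith⟩

end Pool.Agent.Helper96.CKF

end
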