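import Pool.Agent.Helper14.CMF.T21
import Pool.Agent.Helper14.CMF.T30
import Pool.Agent.Helper14.CMF.T18

set_option linter.all false

section

namespace Pool.Agent.Helper20.CK
end Pool.Agent.Helper20.CK
namespace Pool.Agent.Helper69.EK3
end Pool.Agent.Helper69.EK3

/-!
# Project CKC: fast check of the bound of the multiplier

Quadtree on `(W Re w, W Im w)`. On a square the quotient `l` is enclosed by `|K l - lc| ≤ lr`, and
`K² W² M''` is compared with its value at the centre.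
-/

set_option autoImplicit false

open Complex Metric Set

open scoped ComplexConjugate

namespace Pool.Agent.Helper11.CKC

open Pool.Agent.Helper20.CK (hf hf_le split_box zof_cast)

open Pool.Agent.Helper69.EK3 (imul_cast' iadd_cast')

/-- the quadtree -/
def qx (out leaf : ℤ → ℤ → ℕ → Bool) : ℕ → ℤ → ℤ → ℕ → Bool
  | 0, _, _, _ => false
  | n + 1, cx, cy, h =>
    or (out cx cy h) (or (leaf cx cy h)
      (and (and (qx out leaf n (Int.sub cx (Int.ofNat (hf h))) (Int.sub cy (Int.ofNat (hf h))) (hf h))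
          (qx out leaf n (Int.sub cx (Int.ofNat (hf h))) (Int.add cy (Int.ofNat (hf h))) (hf h)))
        (and (qx out leaf n (Int.add cx (Int.ofNat (hf h))) (Int.sub cy (Int.ofNat (hf h))) (hf h))
          (qx out leaf n (Int.add cx (Int.ofNat (hf h))) (Int.add cy (Int.ofNat (hf h)))
            (hf h)))))

theorem qx_sound {out leaf : ℤ → ℤ → ℕ → Bool} {X Y : ℝ} {P : Prop}
    (ho : ∀ (cx cy : ℤ) (h : ℕ), out cx cy h = true → |X - cx| ≤ h → |Y - cy| ≤ h → False)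
    (hl : ∀ (cx cy : ℤ) (h : ℕ), leaf cx cy h = true → |X - cx| ≤ h → |Y - cy| ≤ h → P) :
    ∀ (n : ℕ) (cx cy : ℤ) (h : ℕ), qx out leaf n cx cy h = true → |X - cx| ≤ h → |Y - cy| ≤ h →
      P := by
  intro n
  induction n with
  | zero => intro cx cy h h1; simp [qx] at h1
  | succ n ih =>
    intro cx cy h h1 hx hy
    simp only [qx, Bool.or_eq_true, Bool.and_eq_true] at h1
    rcases h1 with h1 | h1 | ⟨⟨a1, a2⟩, a3, a4⟩
    · exact (ho _ _ _ h1 hx hy).elim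
    · exact hl _ _ _ h1 hx hy
    · rcases split_box hx with k | k
      · rcases split_box hy with k' | k'
        · exact ih _ _ _ a1 k k'
        · exact ih _ _ _ a2 k k'
      · rcases split_box hy with k' | k'
        · exact ih _ _ _ a3 k k'
        · exact ih _ _ _ a4 k k'

/-- `2 ‖a + b i‖` is at most this -/
def n2 (a b : ℤ) : ℕ :=
  cond (Nat.ble (Int.natAbs a) (Int.natAbs b))
    (Nat.add (Nat.mul 2 (Int.natAbs b)) (Int.natAbs a))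
    (Nat.add (Nat.mul 2 (Int.natAbs a)) (Int.natAbs b))

theorem nadd_c (a b : ℕ) : ((Nat.add a b : ℕ) : ℝ) = a + b := by
  show (((a + b : ℕ)) : ℝ) = _
  push_cast
  ring

theorem nmul_c (a b : ℕ) : ((Nat.mul a b : ℕ) : ℝ) = a * b := by
  show (((a * b : ℕ)) : ℝ) = _
  push_cast
  ring

theorem isub_c (a b : ℤ) : ((Int.sub a b : ℤ) : ℝ) = a - b := by
  show (((a - b : ℤ)) : ℝ) = _
  push_cast
  ring

theorem nabs_c (a : ℤ) : ((Int.natAbs a : ℕ) : ℝ) = |(a : ℝ)| := by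
  rw [← Int.cast_abs, Int.abs_eq_natAbs, Int.cast_natCast]

/-- the complex number of two integers -/
noncomputable def zc (a b : ℤ) : ℂ := (a : ℂ) + (b : ℂ) * I

theorem zc_re (a b : ℤ) : (zc a b).re = a := by simp [zc]

theorem zc_im (a b : ℤ) : (zc a b).im = b := by simp [zc]

theorem n2_le (a b : ℤ) : 2 * ‖zc a b‖ ≤ (n2 a b : ℝ) := by
  have h1 : ‖zc a b‖ ^ 2 = (a : ℝ) ^ 2 + (b : ℝ) ^ 2 := by rw [nsq, zc_re, zc_im]
  have ea := sq_abs (a : ℝ)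
  have eb := sq_abs (b : ℝ)
  have ha := abs_nonneg (a : ℝ)
  have hb := abs_nonneg (b : ℝ)
  have h0 := norm_nonneg (zc a b)
  unfold n2
  cases h : Nat.ble (Int.natAbs a) (Int.natAbs b)
  · rw [cond_false, nadd_c, nmul_c, nabs_c, nabs_c]
    have h2 : ¬ Int.natAbs a ≤ Int.natAbs b := by
      rw [← Nat.ble_eq, h]
      simp
    have h3 : |(b : ℝ)| ≤ |(a : ℝ)| := by
      rw [← nabs_c, ← nabs_c]
      exact_mod_cast (not_le.1 h2).le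
    have h4 : (2 * ‖zc a b‖) ^ 2 ≤ (((2 : ℕ) : ℝ) * |(a : ℝ)| + |(b : ℝ)|) ^ 2 := by
      push_cast
      (clear * - h1 ea eb hb h3; nlinarith only [h1, ea, eb, hb, h3])
    exact le_of_sq_le_sq h4 (by (clear * -; positivity))
  · rw [cond_true, nadd_c, nmul_c, nabs_c, nabs_c]
    have h2 : Int.natAbs a ≤ Int.natAbs b := by
      rw [← Nat.ble_eq, h]
    have h3 : |(a : ℝ)| ≤ |(b : ℝ)| := by
      rw [← nabs_c, ← nabs_c]
      exact_mod_cast h2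
    have h4 : (2 * ‖zc a b‖) ^ 2 ≤ (((2 : ℕ) : ℝ) * |(b : ℝ)| + |(a : ℝ)|) ^ 2 := by
      push_cast
      nlinarith only [h1, ea, eb, ha, h3]
    exact le_of_sq_le_sq h4 (by (clear * -; positivity))

/-- coefficients of `1, l, l²` -/
structure C6 where
  (x0 y0 x1 y1 x2 y2 : ℤ)

noncomputable def C6.val (c : C6) (l : ℝ) : ℂ :=
  zc c.x0 c.y0 + zc c.x1 c.y1 * (l : ℂ) + zc c.x2 c.y2 * (l : ℂ) ^ 2

/-- `a0 K² + a1 K l + a2 l²` -/
def q0 (a0 a1 a2 K l : ℤ) : ℤ :=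
  Int.add (Int.mul (Int.add (Int.mul a2 l) (Int.mul a1 K)) l) (Int.mul a0 (Int.mul K K))

/-- its derivative in `l` -/
def q1 (a1 a2 K l : ℤ) : ℤ := Int.add (Int.mul 2 (Int.mul a2 l)) (Int.mul a1 K)

/-- twice the error of the coefficient -/
def eA (c : C6) (K l : ℤ) (lr : ℕ) : ℕ :=
  Nat.add (Nat.mul (n2 (q1 c.x1 c.x2 K l) (q1 c.y1 c.y2 K l)) lr)
    (Nat.mul (n2 c.x2 c.y2) (Nat.mul lr lr))

theorem eA_le (c : C6) {K lc : ℤ} {lr : ℕ} {l : ℝ} (h : |(K : ℝ) * l - lc| ≤ lr) :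
    2 * ‖(K : ℂ) ^ 2 * c.val l - zc (q0 c.x0 c.x1 c.x2 K lc) (q0 c.y0 c.y1 c.y2 K lc)‖ ≤
      (eA c K lc lr : ℝ) := by
  obtain ⟨d, hd⟩ : ∃ d : ℝ, d = K * l - lc := ⟨_, rfl⟩
  rw [← hd] at h
  have e : (K : ℂ) ^ 2 * c.val l - zc (q0 c.x0 c.x1 c.x2 K lc) (q0 c.y0 c.y1 c.y2 K lc) =
      zc (q1 c.x1 c.x2 K lc) (q1 c.y1 c.y2 K lc) * (d : ℂ) + zc c.x2 c.y2 * (d : ℂ) ^ 2 := by
    have e1 : ∀ a b : ℤ, ((Int.mul a b : ℤ) : ℂ) = a * b := fun a b => by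
      show (((a * b : ℤ)) : ℂ) = _
      push_cast
      ring
    have e2 : ∀ a b : ℤ, ((Int.add a b : ℤ) : ℂ) = a + b := fun a b => by
      show (((a + b : ℤ)) : ℂ) = _
      push_cast
      ring
    unfold C6.val zc q0 q1
    simp only [e1, e2]
    rw [hd]
    push_cast
    ring
  rw [e]
  have h1 := n2_le (q1 c.x1 c.x2 K lc) (q1 c.y1 c.y2 K lc)
  have h2 := n2_le c.x2 c.y2
  have h3 := norm_add_le (zc (q1 c.x1 c.x2 K lc) (q1 c.y1 c.y2 K lc) * (d : ℂ))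
    (zc c.x2 c.y2 * (d : ℂ) ^ 2)
  rw [norm_mul, norm_mul, norm_pow, Complex.norm_real, Real.norm_eq_abs] at h3
  unfold eA
  rw [nadd_c, nmul_c, nmul_c, nmul_c]
  have hd0 := abs_nonneg d
  have hl0 : (0:ℝ) ≤ lr := Nat.cast_nonneg lr
  have k1 := mul_le_mul h1 h hd0 (Nat.cast_nonneg _)
  have k2 := mul_le_mul h2 (mul_le_mul h h hd0 hl0) (mul_nonneg hd0 hd0) (Nat.cast_nonneg _)
  linarith only [h3, k1, k2]

/-- the last test: `t0` is the value at the centre, `E8` eight times the error -/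
def tst (Bd BB8 : ℕ) (t0R t0I : ℤ) (E8 : ℕ) : Bool :=
  and (Nat.ble (Nat.mul Bd E8) BB8)
    (Nat.ble (Nat.mul (Nat.mul 64 (Nat.mul Bd Bd))
        (Nat.add (Nat.mul (Int.natAbs t0R) (Int.natAbs t0R))
          (Nat.mul (Int.natAbs t0I) (Int.natAbs t0I))))
      (Nat.mul (Nat.sub BB8 (Nat.mul Bd E8)) (Nat.sub BB8 (Nat.mul Bd E8))))

theorem tst_le {Bd BB8 : ℕ} {t0R t0I : ℤ} {E8 : ℕ} (h : tst Bd BB8 t0R t0I E8 = true) :
    8 * Bd * ‖zc t0R t0I‖ + Bd * E8 ≤ (BB8 : ℝ) := by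
  simp only [tst, Bool.and_eq_true, Nat.ble_eq] at h
  obtain ⟨h1, h2⟩ := h
  have h1' : ((Nat.mul Bd E8 : ℕ) : ℝ) ≤ BB8 := by exact_mod_cast h1
  have h3 : ((Nat.sub BB8 (Nat.mul Bd E8) : ℕ) : ℝ) = BB8 - Bd * E8 := by
    have : Nat.sub BB8 (Nat.mul Bd E8) = BB8 - Nat.mul Bd E8 := rfl
    rw [this, Nat.cast_sub h1, nmul_c]
  have h2' : ((Nat.mul (Nat.mul 64 (Nat.mul Bd Bd))
        (Nat.add (Nat.mul (Int.natAbs t0R) (Int.natAbs t0R))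
          (Nat.mul (Int.natAbs t0I) (Int.natAbs t0I))) : ℕ) : ℝ) ≤
      ((Nat.mul (Nat.sub BB8 (Nat.mul Bd E8)) (Nat.sub BB8 (Nat.mul Bd E8)) : ℕ) : ℝ) := by
    exact_mod_cast h2
  rw [nmul_c, nmul_c, nmul_c, nadd_c, nmul_c, nmul_c, nmul_c, nabs_c, nabs_c, h3] at h2'
  rw [nmul_c] at h1'
  have h4 : ‖zc t0R t0I‖ ^ 2 = (t0R : ℝ) ^ 2 + (t0I : ℝ) ^ 2 := by rw [nsq, zc_re, zc_im]
  have h5 : (8 * Bd * ‖zc t0R t0I‖) ^ 2 ≤ ((BB8 : ℝ) - Bd * E8) ^ 2 := by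
    have e : (8 * Bd * ‖zc t0R t0I‖) ^ 2 = 64 * (Bd * Bd) * ‖zc t0R t0I‖ ^ 2 := by ring
    rw [e, h4, ← sq_abs (t0R : ℝ), ← sq_abs (t0I : ℝ)]
    push_cast at h2'
    (clear * - h2'; linarith only [h2'])
  have h6 := le_of_sq_le_sq h5 (by (clear * - h1'; linarith))
  linarith only [h6]

/-- eight times the error of the leaf -/
def eL (W : ℕ) (e0 e1 e2 Z2 d1 d2 h : ℕ) : ℕ :=
  Nat.add (Nat.add (Nat.mul 4 (Nat.mul e0 (Nat.mul W W))) (Nat.mul 2 (Nat.mul e1 (Nat.mul Z2 W))))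
    (Nat.add (Nat.mul e2 (Nat.mul Z2 Z2)) (Nat.mul h (Nat.add (Nat.mul 6 d1)
      (Nat.mul 9 (Nat.mul d2 h)))))

/-- the leaf once `A_1 W + A_2 cz` (`g`) and `A_2 cz` (`p`) are known -/
def lf2 (W Bd BB8 : ℕ) (a0R a0I gR gI pR pI a2R a2I cx cy : ℤ) (h e0 e1 e2 : ℕ) : Bool :=
  tst Bd BB8
    (Int.add (Int.mul a0R (Int.mul (Int.ofNat W) (Int.ofNat W)))
      (Int.add (Int.mul gR cx) (Int.mul gI cy)))
    (Int.add (Int.mul a0I (Int.mul (Int.ofNat W) (Int.ofNat W)))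
      (Int.sub (Int.mul gI cx) (Int.mul gR cy)))
    (eL W e0 e1 e2 (Nat.add (n2 cx cy) (Nat.mul 3 h)) (n2 (Int.add gR pR) (Int.add gI pI))
      (n2 a2R a2I) h)

def lf1 (W Bd BB8 : ℕ) (a0R a0I a1R a1I a2R a2I cx cy pR pI : ℤ) (h e0 e1 e2 : ℕ) : Bool :=
  lf2 W Bd BB8 a0R a0I (Int.add (Int.mul a1R (Int.ofNat W)) pR)
    (Int.add (Int.mul a1I (Int.ofNat W)) pI) pR pI a2R a2I cx cy h e0 e1 e2

def lf0 (W Bd BB8 : ℕ) (a0R a0I a1R a1I a2R a2I cx cy : ℤ) (h e0 e1 e2 : ℕ) : Bool :=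
  lf1 W Bd BB8 a0R a0I a1R a1I a2R a2I cx cy (Int.add (Int.mul a2R cx) (Int.mul a2I cy))
    (Int.sub (Int.mul a2I cx) (Int.mul a2R cy)) h e0 e1 e2

/-- the leaf with a given enclosure of `l` -/
def lfl (W Bd BB8 : ℕ) (K : ℤ) (c0 c1 c2 : C6) (cx cy : ℤ) (h : ℕ) (lc : ℤ) (lr : ℕ) : Bool :=
  lf0 W Bd BB8 (q0 c0.x0 c0.x1 c0.x2 K lc) (q0 c0.y0 c0.y1 c0.y2 K lc)
    (q0 c1.x0 c1.x1 c1.x2 K lc) (q0 c1.y0 c1.y1 c1.y2 K lc)
    (q0 c2.x0 c2.x1 c2.x2 K lc) (q0 c2.y0 c2.y1 c2.y2 K lc) cx cy h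
    (eA c0 K lc lr) (eA c1 K lc lr) (eA c2 K lc lr)

theorem lf0_le {W Bd BB8 : ℕ} {a0R a0I a1R a1I a2R a2I cx cy : ℤ} {h e0 e1 e2 : ℕ}
    (ht : lf0 W Bd BB8 a0R a0I a1R a1I a2R a2I cx cy h e0 e1 e2 = true) {A0 A1 A2 w : ℂ}
    (h0 : 2 * ‖A0 - zc a0R a0I‖ ≤ e0) (h1 : 2 * ‖A1 - zc a1R a1I‖ ≤ e1)
    (h2 : 2 * ‖A2 - zc a2R a2I‖ ≤ e2) (hx : |(W : ℝ) * w.re - cx| ≤ h)
    (hy : |(W : ℝ) * w.im - cy| ≤ h) :
    8 * Bd * ‖(W : ℂ) ^ 2 * (A0 + A1 * conj w + A2 * conj w ^ 2)‖ ≤ (BB8 : ℝ) := by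
  have hT := tst_le ht
  obtain ⟨c, hc⟩ : ∃ c : ℂ, c = zc cx (-cy) := ⟨_, rfl⟩
  obtain ⟨δ, hδ⟩ : ∃ δ : ℂ, δ = (W : ℂ) * conj w - c := ⟨_, rfl⟩
  obtain ⟨ζ, hζ⟩ : ∃ ζ : ℂ, ζ = (W : ℂ) * conj w := ⟨_, rfl⟩
  have hz : ζ = c + δ := by rw [hδ, hζ]; ring
  have hδn : 2 * ‖δ‖ ≤ 3 * h := by
    have e1 : δ.re = (W : ℝ) * w.re - cx := by
      rw [hδ, hc, sub_re, zc_re]
      simp
    have e2 : δ.im = -((W : ℝ) * w.im - cy) := by
      rw [hδ, hc, sub_im, zc_im]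
      simp
      ring
    have e3 : ‖δ‖ ^ 2 = ((W : ℝ) * w.re - cx) ^ 2 + ((W : ℝ) * w.im - cy) ^ 2 := by
      rw [nsq, e1, e2]
      ring
    have hh : (0:ℝ) ≤ h := Nat.cast_nonneg h
    have k1 : ((W : ℝ) * w.re - cx) ^ 2 ≤ (h : ℝ) ^ 2 := by
      rw [← sq_abs]
      exact pow_le_pow_left₀ (abs_nonneg _) hx 2
    have k2 : ((W : ℝ) * w.im - cy) ^ 2 ≤ (h : ℝ) ^ 2 := by
      rw [← sq_abs]
      exact pow_le_pow_left₀ (abs_nonneg _) hy 2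
    have k3 : (2 * ‖δ‖) ^ 2 ≤ (3 * (h : ℝ)) ^ 2 := by
      rw [mul_pow, e3]
      (clear * - k1 k2; nlinarith only [k1, k2])
    exact le_of_sq_le_sq k3 (by (clear * -; positivity))
  have hcn : 2 * ‖c‖ ≤ (n2 cx cy : ℝ) := by
    have := n2_le cx cy
    have e : ‖c‖ = ‖zc cx cy‖ := by
      have e1 : ‖c‖ ^ 2 = ‖zc cx cy‖ ^ 2 := by
        rw [hc, nsq, nsq, zc_re, zc_im, zc_re, zc_im]
        push_cast
        ring
      exact (sq_eq_sq₀ (norm_nonneg _) (norm_nonneg _)).1 e1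
    rw [e]
    exact this
  obtain ⟨Z2, hZ2⟩ : ∃ Z2 : ℕ, Z2 = Nat.add (n2 cx cy) (Nat.mul 3 h) := ⟨_, rfl⟩
  have hζn : 2 * ‖ζ‖ ≤ (Z2 : ℝ) := by
    rw [hz, hZ2, nadd_c, nmul_c]
    have := norm_add_le c δ
    push_cast
    linarith only [hδn, hcn, this]
  -- the values of the test
  have eT : zc (Int.add (Int.mul a0R (Int.mul (Int.ofNat W) (Int.ofNat W)))
      (Int.add (Int.mul (Int.add (Int.mul a1R (Int.ofNat W))
        (Int.add (Int.mul a2R cx) (Int.mul a2I cy))) cx)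
        (Int.mul (Int.add (Int.mul a1I (Int.ofNat W))
          (Int.sub (Int.mul a2I cx) (Int.mul a2R cy))) cy)))
    (Int.add (Int.mul a0I (Int.mul (Int.ofNat W) (Int.ofNat W)))
      (Int.sub (Int.mul (Int.add (Int.mul a1I (Int.ofNat W))
          (Int.sub (Int.mul a2I cx) (Int.mul a2R cy))) cx)
        (Int.mul (Int.add (Int.mul a1R (Int.ofNat W))
          (Int.add (Int.mul a2R cx) (Int.mul a2I cy))) cy))) =
      zc a0R a0I * (W : ℂ) ^ 2 + zc a1R a1I * (W : ℂ) * c + zc a2R a2I * c ^ 2 := by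
    apply Complex.ext
    · rw [zc_re, hc]
      unfold zc
      simp only [iadd_cast', imul_cast', isub_c, zof_cast, pow_two, add_re, mul_re, add_im,
        mul_im, intCast_re, intCast_im, I_re, I_im, natCast_re, natCast_im]
      push_cast
      ring
    · rw [zc_im, hc]
      unfold zc
      simp only [iadd_cast', imul_cast', isub_c, zof_cast, pow_two, add_re, mul_re, add_im,
        mul_im, intCast_re, intCast_im, I_re, I_im, natCast_re, natCast_im]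
      push_cast
      ring
  have eD : zc (Int.add (Int.add (Int.mul a1R (Int.ofNat W))
        (Int.add (Int.mul a2R cx) (Int.mul a2I cy))) (Int.add (Int.mul a2R cx) (Int.mul a2I cy)))
      (Int.add (Int.add (Int.mul a1I (Int.ofNat W))
        (Int.sub (Int.mul a2I cx) (Int.mul a2R cy))) (Int.sub (Int.mul a2I cx) (Int.mul a2R cy))) =
      zc a1R a1I * (W : ℂ) + 2 * (zc a2R a2I * c) := by
    apply Complex.ext
    · rw [zc_re, hc]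
      unfold zc
      simp only [iadd_cast', imul_cast', isub_c, zof_cast, pow_two, add_re, mul_re, add_im,
        mul_im, intCast_re, intCast_im, I_re, I_im, natCast_re, natCast_im, re_ofNat, im_ofNat]
      push_cast
      ring
    · rw [zc_im, hc]
      unfold zc
      simp only [iadd_cast', imul_cast', isub_c, zof_cast, pow_two, add_re, mul_re, add_im,
        mul_im, intCast_re, intCast_im, I_re, I_im, natCast_re, natCast_im, re_ofNat, im_ofNat]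
      push_cast
      ring
  rw [eT] at hT
  have hD := n2_le (Int.add (Int.add (Int.mul a1R (Int.ofNat W))
        (Int.add (Int.mul a2R cx) (Int.mul a2I cy))) (Int.add (Int.mul a2R cx) (Int.mul a2I cy)))
      (Int.add (Int.add (Int.mul a1I (Int.ofNat W))
        (Int.sub (Int.mul a2I cx) (Int.mul a2R cy))) (Int.sub (Int.mul a2I cx) (Int.mul a2R cy)))
  rw [eD] at hD
  obtain ⟨d1, hd1⟩ : ∃ d1 : ℕ, d1 = n2 (Int.add (Int.add (Int.mul a1R (Int.ofNat W))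
        (Int.add (Int.mul a2R cx) (Int.mul a2I cy))) (Int.add (Int.mul a2R cx) (Int.mul a2I cy)))
      (Int.add (Int.add (Int.mul a1I (Int.ofNat W))
        (Int.sub (Int.mul a2I cx) (Int.mul a2R cy)))
          (Int.sub (Int.mul a2I cx) (Int.mul a2R cy))) := ⟨_, rfl⟩
  rw [← hd1] at hD
  have hA2 := n2_le a2R a2I
  rw [← hd1, ← hZ2] at hT
  unfold eL at hT
  simp only [nadd_c, nmul_c] at hT
  -- the identity
  have eI : (W : ℂ) ^ 2 * (A0 + A1 * conj w + A2 * conj w ^ 2) =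
      (zc a0R a0I * (W : ℂ) ^ 2 + zc a1R a1I * (W : ℂ) * c + zc a2R a2I * c ^ 2) +
      ((zc a1R a1I * (W : ℂ) + 2 * (zc a2R a2I * c)) * δ + zc a2R a2I * (δ * δ) +
        ((A0 - zc a0R a0I) * ((W : ℂ) * (W : ℂ)) + (A1 - zc a1R a1I) * (ζ * (W : ℂ)) +
          (A2 - zc a2R a2I) * (ζ * ζ))) := by
    have e1 : (W : ℂ) ^ 2 * (A0 + A1 * conj w + A2 * conj w ^ 2) =
        A0 * (W : ℂ) ^ 2 + A1 * (W : ℂ) * ζ + A2 * ζ ^ 2 := by rw [hζ]; ring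
    rw [e1, hz]
    ring
  rw [eI]
  have n1 := norm_add_le (zc a0R a0I * (W : ℂ) ^ 2 + zc a1R a1I * (W : ℂ) * c +
      zc a2R a2I * c ^ 2) ((zc a1R a1I * (W : ℂ) + 2 * (zc a2R a2I * c)) * δ +
      zc a2R a2I * (δ * δ) + ((A0 - zc a0R a0I) * ((W : ℂ) * (W : ℂ)) +
      (A1 - zc a1R a1I) * (ζ * (W : ℂ)) + (A2 - zc a2R a2I) * (ζ * ζ)))
  have n3 := norm_add_le ((zc a1R a1I * (W : ℂ) + 2 * (zc a2R a2I * c)) * δ +
      zc a2R a2I * (δ * δ)) ((A0 - zc a0R a0I) * ((W : ℂ) * (W : ℂ)) +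
      (A1 - zc a1R a1I) * (ζ * (W : ℂ)) + (A2 - zc a2R a2I) * (ζ * ζ))
  have n4 := norm_add_le ((zc a1R a1I * (W : ℂ) + 2 * (zc a2R a2I * c)) * δ)
      (zc a2R a2I * (δ * δ))
  have n5 := norm_add_le ((A0 - zc a0R a0I) * ((W : ℂ) * (W : ℂ)) +
      (A1 - zc a1R a1I) * (ζ * (W : ℂ))) ((A2 - zc a2R a2I) * (ζ * ζ))
  have n6 := norm_add_le ((A0 - zc a0R a0I) * ((W : ℂ) * (W : ℂ)))
      ((A1 - zc a1R a1I) * (ζ * (W : ℂ)))
  have hWn : ‖(W : ℂ)‖ = (W : ℝ) := by simp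
  simp only [norm_mul, hWn] at n3 n4 n5 n6
  have hW0 : (0:ℝ) ≤ W := Nat.cast_nonneg W
  have hh0 : (0:ℝ) ≤ h := Nat.cast_nonneg h
  have hZ0 : (0:ℝ) ≤ Z2 := Nat.cast_nonneg Z2
  have p1 : ‖(zc a1R a1I * (W : ℂ) + 2 * (zc a2R a2I * c))‖ * ‖δ‖ * 4 ≤ d1 * (3 * h) := by
    have := mul_le_mul hD hδn (by (clear * -; positivity)) (Nat.cast_nonneg d1)
    linarith only [this]
  have p2 : ‖zc a2R a2I‖ * (‖δ‖ * ‖δ‖) * 8 ≤ (n2 a2R a2I : ℝ) * (9 * (h * h)) := by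
    have := mul_le_mul hA2 (mul_le_mul hδn hδn (by (clear * -; positivity)) (by (clear * -; positivity))) (by (clear * -; positivity))
      (Nat.cast_nonneg _)
    linarith only [this]
  have p3 : ‖A0 - zc a0R a0I‖ * ((W : ℝ) * W) * 2 ≤ e0 * (W * W) := by
    have := mul_le_mul_of_nonneg_right h0 (mul_nonneg hW0 hW0)
    linarith only [this]
  have p4 : ‖A1 - zc a1R a1I‖ * (‖ζ‖ * (W : ℝ)) * 4 ≤ e1 * (Z2 * W) := by
    have := mul_le_mul h1 (mul_le_mul_of_nonneg_right hζn hW0) (by (clear * -; positivity))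
      (Nat.cast_nonneg _)
    linarith only [this]
  have p5 : ‖A2 - zc a2R a2I‖ * (‖ζ‖ * ‖ζ‖) * 8 ≤ e2 * (Z2 * Z2) := by
    have := mul_le_mul h2 (mul_le_mul hζn hζn (by (clear * -; positivity)) hZ0) (by (clear * -; positivity))
      (Nat.cast_nonneg _)
    linarith only [this]
  obtain ⟨T, hTd⟩ : ∃ T : ℂ, T = zc a0R a0I * (W : ℂ) ^ 2 + zc a1R a1I * (W : ℂ) * c +
      zc a2R a2I * c ^ 2 := ⟨_, rfl⟩
  rw [← hTd] at hT n1 ⊢
  obtain ⟨U, hU⟩ : ∃ U : ℝ, U = ‖(zc a1R a1I * (W : ℂ) + 2 * (zc a2R a2I * c)) * δ +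
      zc a2R a2I * (δ * δ) + ((A0 - zc a0R a0I) * ((W : ℂ) * (W : ℂ)) +
      (A1 - zc a1R a1I) * (ζ * (W : ℂ)) + (A2 - zc a2R a2I) * (ζ * ζ))‖ := ⟨_, rfl⟩
  have hU8 : 8 * U ≤ 4 * (e0 * ((W : ℝ) * W)) + 2 * (e1 * (Z2 * W)) + (e2 * (Z2 * Z2) +
      h * (6 * d1 + 9 * ((n2 a2R a2I : ℝ) * h))) := by
    rw [hU]
    (clear * - n3 n4 n5 n6 p1 p2 p3 p4 p5; linarith only [n3, n4, n5, n6, p1, p2, p3, p4, p5])
  rw [← hU] at n1
  have hB0 : (0:ℝ) ≤ 8 * Bd := by (clear * -; positivity)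
  have n7 := mul_le_mul_of_nonneg_left n1 hB0
  have hB1 : (0:ℝ) ≤ Bd := Nat.cast_nonneg _
  have n8 := mul_le_mul_of_nonneg_left hU8 hB1
  push_cast at hT
  refine n7.trans ?_
  have e9 : 8 * (Bd : ℝ) * (‖T‖ + U) = 8 * Bd * ‖T‖ + Bd * (8 * U) := by ring
  rw [e9]
  (clear * - hT n8; linarith only [hT, n8])

theorem lfl_le {W Bd BB8 : ℕ} {K : ℤ} {c0 c1 c2 : C6} {cx cy : ℤ} {h : ℕ} {lc : ℤ} {lr : ℕ}
    (ht : lfl W Bd BB8 K c0 c1 c2 cx cy h lc lr = true) {w : ℂ} {l : ℝ}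
    (hl : |(K : ℝ) * l - lc| ≤ lr) (hx : |(W : ℝ) * w.re - cx| ≤ h)
    (hy : |(W : ℝ) * w.im - cy| ≤ h) :
    8 * Bd * ((W : ℝ) ^ 2 * (K : ℝ) ^ 2 *
      ‖c0.val l + c1.val l * conj w + c2.val l * conj w ^ 2‖) ≤ (BB8 : ℝ) := by
  have key := lf0_le ht (eA_le c0 hl) (eA_le c1 hl) (eA_le c2 hl) hx hy
  have e : (W : ℂ) ^ 2 * ((K : ℂ) ^ 2 * c0.val l + (K : ℂ) ^ 2 * c1.val l * conj w +
      (K : ℂ) ^ 2 * c2.val l * conj w ^ 2) = ((W : ℂ) ^ 2 * (K : ℂ) ^ 2) *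
      (c0.val l + c1.val l * conj w + c2.val l * conj w ^ 2) := by ring
  rw [e, norm_mul, norm_mul, norm_pow, norm_pow] at key
  have e1 : ‖(W : ℂ)‖ = (W : ℝ) := by simp
  have e2 : ‖(K : ℂ)‖ ^ 2 = (K : ℝ) ^ 2 := by
    rw [norm_intCast, sq_abs]
  rw [e1, e2] at key
  exact key

end Pool.Agent.Helper11.CKC

end

section

namespace Pool.Agent.Helper20.CK
end Pool.Agent.Helper20.CK
namespace Pool.Agent.Helper69.EK3
end Pool.Agent.Helper69.EK3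
namespace Pool.Agent.Helper82.CKC
end Pool.Agent.Helper82.CKC
namespace Pool.Agent.Helper69.CK
end Pool.Agent.Helper69.CK

/-!
# Project CKC: fast check of the bound of the multiplier, part 2

The quotient `l`, the regions, and `MOk` for every direction of a cell `[a, b]` of the arc, for a
multiplier which is affine in the parameter `t` of the direction.
-/

set_option autoImplicit false

open Complex Metric Set

open scoped ComplexConjugate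

namespace Pool.Agent.Helper11.CKC

open Pool.Agent.Helper20.CK (hf hf_le split_box zof_cast ROk)

open Pool.Agent.Helper69.EK3 (rF rF_eq imul_cast' iadd_cast')

open Pool.Agent.Helper82.CKC (wu mOk_dir)

open Pool.Agent.Helper69.CK (MOk)

/-- the resolution, the scale, `sg r`, `r0 + r1`, `r1`, `r1 + r2` -/
structure LP where
  (W K : ℕ)
  (sr r01 r1 r12 : ℤ)

/-- `cx² + cy²` -/
def sqN (cx cy : ℤ) : ℕ :=
  Nat.add (Nat.mul (Int.natAbs cx) (Int.natAbs cx)) (Nat.mul (Int.natAbs cy) (Int.natAbs cy))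

/-- `2 h (|cx| + |cy|)` -/
def gN (cx cy : ℤ) (h : ℕ) : ℕ := Nat.mul 2 (Nat.mul h (Nat.add (Int.natAbs cx) (Int.natAbs cy)))

/-- the error of the square of the modulus -/
def dsN (cx cy : ℤ) (h : ℕ) : ℕ := Nat.add (gN cx cy h) (Nat.mul 2 (Nat.mul h h))

theorem sqN_c (cx cy : ℤ) : (sqN cx cy : ℝ) = (cx : ℝ) ^ 2 + (cy : ℝ) ^ 2 := by
  unfold sqN
  rw [nadd_c, nmul_c, nmul_c, nabs_c, nabs_c, ← pow_two, ← pow_two, sq_abs, sq_abs]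

theorem gN_c (cx cy : ℤ) (h : ℕ) :
    (gN cx cy h : ℝ) = 2 * (h * (|(cx : ℝ)| + |(cy : ℝ)|)) := by
  unfold gN
  rw [nmul_c, nmul_c, nadd_c, nabs_c, nabs_c]
  push_cast
  ring

theorem dsN_c (cx cy : ℤ) (h : ℕ) :
    (dsN cx cy h : ℝ) = 2 * (h * (|(cx : ℝ)| + |(cy : ℝ)|)) + 2 * (h * h) := by
  unfold dsN
  rw [nadd_c, gN_c, nmul_c, nmul_c]
  push_cast
  ring

theorem sq_lo {cx cy h X Y : ℝ} (hx : |X - cx| ≤ h) (hy : |Y - cy| ≤ h) :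
    cx ^ 2 + cy ^ 2 - 2 * (h * (|cx| + |cy|)) ≤ X ^ 2 + Y ^ 2 := by
  have h1 : |cx * (X - cx)| ≤ |cx| * h := by
    rw [abs_mul]
    exact mul_le_mul_of_nonneg_left hx (abs_nonneg _)
  have h2 : |cy * (Y - cy)| ≤ |cy| * h := by
    rw [abs_mul]
    exact mul_le_mul_of_nonneg_left hy (abs_nonneg _)
  have h3 := (abs_le.1 h1).1
  have h4 := (abs_le.1 h2).1
  (clear * - h3 h4; linarith only [sq_nonneg (X - cx), sq_nonneg (Y - cy), h3, h4])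

theorem sq_hi {cx cy h X Y : ℝ} (hx : |X - cx| ≤ h) (hy : |Y - cy| ≤ h) :
    X ^ 2 + Y ^ 2 ≤ cx ^ 2 + cy ^ 2 + (2 * (h * (|cx| + |cy|)) + 2 * (h * h)) := by
  have h1 : |cx * (X - cx)| ≤ |cx| * h := by
    rw [abs_mul]
    exact mul_le_mul_of_nonneg_left hx (abs_nonneg _)
  have h2 : |cy * (Y - cy)| ≤ |cy| * h := by
    rw [abs_mul]
    exact mul_le_mul_of_nonneg_left hy (abs_nonneg _)
  have h3 := (abs_le.1 h1).2
  have h4 := (abs_le.1 h2).2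
  have h5 : (X - cx) ^ 2 ≤ h ^ 2 := by
    rw [← sq_abs]
    exact pow_le_pow_left₀ (abs_nonneg _) hx 2
  have h6 : (Y - cy) ^ 2 ≤ h ^ 2 := by
    rw [← sq_abs]
    exact pow_le_pow_left₀ (abs_nonneg _) hy 2
  (clear * - h3 h4 h5 h6; linarith only [h3, h4, h5, h6])

/-- `Nc = K Oc - lc Rc`, `D = Rc - dR` -/
def ld5 (p : LP) (f : ℕ → ℕ → Bool) (h ds lc : ℕ) (Nc : ℤ) (D : ℕ) : Bool :=
  f lc (Nat.succ (Nat.div (Nat.add (Int.natAbs Nc)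
    (Nat.add (Nat.mul (Int.natAbs (Int.add (Int.mul (Int.ofNat p.K) p.sr)
      (Int.mul (Int.ofNat lc) p.r12))) ds)
      (Nat.mul 2 (Nat.mul (Nat.mul lc (Int.natAbs p.r1)) (Nat.mul p.W h))))) D))

def ld4 (p : LP) (f : ℕ → ℕ → Bool) (h ds lc : ℕ) (KO Rc : ℤ) (D : ℕ) : Bool :=
  ld5 p f h ds lc (Int.sub KO (Int.mul (Int.ofNat lc) Rc)) D

def ld3 (p : LP) (f : ℕ → ℕ → Bool) (h ds : ℕ) (KO Rc : ℤ) (dR : ℕ) : Bool :=
  and (Nat.ble (Nat.succ dR) (Int.toNat Rc))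
    (ld4 p f h ds (Nat.div (Int.toNat KO) (Int.toNat Rc)) KO Rc (Nat.sub (Int.toNat Rc) dR))

def ld2 (p : LP) (f : ℕ → ℕ → Bool) (h : ℕ) (cx : ℤ) (S ds : ℕ) : Bool :=
  ld3 p f h ds
    (Int.mul (Int.ofNat p.K) (Int.mul p.sr (Int.sub (Int.ofNat (Nat.mul p.W p.W)) (Int.ofNat S))))
    (Int.add (Int.add (Int.mul p.r01 (Int.ofNat (Nat.mul p.W p.W)))
      (Int.mul (Int.mul 2 p.r1) (Int.mul (Int.ofNat p.W) cx))) (Int.mul p.r12 (Int.ofNat S)))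
    (Nat.add (Nat.mul 2 (Nat.mul (Int.natAbs p.r1) (Nat.mul p.W h)))
      (Nat.mul (Int.natAbs p.r12) ds))

/-- the enclosure of `l` is passed to `f` -/
def ld1 (p : LP) (f : ℕ → ℕ → Bool) (cx cy : ℤ) (h : ℕ) : Bool :=
  ld2 p f h cx (sqN cx cy) (dsN cx cy h)

theorem enc_real {X Y cx cy h W K sr r01 r1 r12 l lc S ds Rc dR D : ℝ} (hW : 0 ≤ W)
    (hx : |X - cx| ≤ h) (hy : |Y - cy| ≤ h) (hS : S = cx ^ 2 + cy ^ 2)
    (hds : ds = 2 * (h * (|cx| + |cy|)) + 2 * (h * h))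
    (hR : Rc = r01 * (W * W) + 2 * r1 * (W * cx) + r12 * S)
    (hdR : dR = 2 * (|r1| * (W * h)) + |r12| * ds) (hD : D = Rc - dR) (hpos : 0 < D)
    (hl : l * (r01 * W ^ 2 + 2 * r1 * (W * X) + r12 * (X ^ 2 + Y ^ 2)) =
      sr * (W ^ 2 - (X ^ 2 + Y ^ 2))) :
    |K * l - lc| ≤ (|K * (sr * (W * W - S)) - lc * Rc| + (|K * sr + lc * r12| * ds +
      2 * (|lc| * |r1| * (W * h)))) / D := by
  obtain ⟨T, hT⟩ : ∃ T : ℝ, T = X ^ 2 + Y ^ 2 := ⟨_, rfl⟩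
  have lo := sq_lo hx hy
  have hi := sq_hi hx hy
  rw [← hT, ← hS] at lo hi
  rw [← hT] at hl
  have hh : 0 ≤ h := (abs_nonneg _).trans hx
  have hTS : |T - S| ≤ ds := by
    rw [abs_le, hds]
    constructor
    · nlinarith only [lo]
    · (clear * - hi; linarith only [hi])
  obtain ⟨R, hRR⟩ : ∃ R : ℝ, R = r01 * W ^ 2 + 2 * r1 * (W * X) + r12 * T := ⟨_, rfl⟩
  rw [← hRR] at hl
  have k1 : |r1 * (W * (X - cx))| ≤ |r1| * (W * h) := by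
    rw [abs_mul, abs_mul, abs_of_nonneg hW]
    exact mul_le_mul_of_nonneg_left (mul_le_mul_of_nonneg_left hx hW) (abs_nonneg _)
  have k2 : |r12 * (T - S)| ≤ |r12| * ds := by
    rw [abs_mul]
    exact mul_le_mul_of_nonneg_left hTS (abs_nonneg _)
  have e1 : R - Rc = 2 * (r1 * (W * (X - cx))) + r12 * (T - S) := by
    rw [hRR, hR]
    ring
  have hRD : D ≤ R := by
    have a1 := (abs_le.1 k1).1
    have a2 := (abs_le.1 k2).1
    rw [hD, hdR]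
    linarith only [e1, a1, a2]
  have e2 : (K * l - lc) * R = (K * (sr * (W * W - S)) - lc * Rc) -
      ((K * sr + lc * r12) * (T - S) + 2 * (lc * (r1 * (W * (X - cx))))) := by
    have : (K * l - lc) * R = K * (l * R) - lc * R := by ring
    rw [this, hl, hRR, hR]
    ring
  have k3 : |(K * sr + lc * r12) * (T - S)| ≤ |K * sr + lc * r12| * ds := by
    rw [abs_mul]
    exact mul_le_mul_of_nonneg_left hTS (abs_nonneg _)
  have k4 : |lc * (r1 * (W * (X - cx)))| ≤ |lc| * |r1| * (W * h) := by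
    rw [abs_mul, mul_assoc]
    exact mul_le_mul_of_nonneg_left k1 (abs_nonneg _)
  have k5 : |K * l - lc| * R ≤ |K * (sr * (W * W - S)) - lc * Rc| +
      (|K * sr + lc * r12| * ds + 2 * (|lc| * |r1| * (W * h))) := by
    have hR0 : 0 ≤ R := hpos.le.trans hRD
    have e3 : |K * l - lc| * R = |(K * l - lc) * R| := by rw [abs_mul, abs_of_nonneg hR0]
    rw [e3, e2]
    have b1 := abs_sub (K * (sr * (W * W - S)) - lc * Rc)
      ((K * sr + lc * r12) * (T - S) + 2 * (lc * (r1 * (W * (X - cx)))))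
    have b2 := abs_add_le ((K * sr + lc * r12) * (T - S)) (2 * (lc * (r1 * (W * (X - cx)))))
    have b3 : |2 * (lc * (r1 * (W * (X - cx))))| = 2 * |lc * (r1 * (W * (X - cx)))| := by
      rw [abs_mul, abs_two]
    rw [b3] at b2
    (clear * - k3 k4 b1 b2; linarith)
  rw [le_div_iff₀ hpos]
  exact (mul_le_mul_of_nonneg_left hRD (abs_nonneg _)).trans k5

theorem div_lt_c (a D : ℕ) (hD : 0 < D) : (a : ℝ) / D ≤ ((Nat.succ (Nat.div a D) : ℕ) : ℝ) := by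
  have h0 : (0:ℝ) < D := by exact_mod_cast hD
  rw [div_le_iff₀ h0]
  have h1 : a ≤ (Nat.succ (Nat.div a D)) * D := by
    have h2 : Nat.div a D = a / D := rfl
    rw [h2]
    have h3 := Nat.div_add_mod a D
    have h4 := Nat.mod_lt a hD
    rw [Nat.succ_mul, Nat.mul_comm (a / D) D]
    omega
  exact_mod_cast h1

theorem ld1_sound {p : LP} {f : ℕ → ℕ → Bool} {cx cy : ℤ} {h : ℕ}
    (ht : ld1 p f cx cy h = true) {X Y l : ℝ} (hx : |X - cx| ≤ h) (hy : |Y - cy| ≤ h)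
    (hl : l * (p.r01 * (p.W : ℝ) ^ 2 + 2 * p.r1 * (p.W * X) + p.r12 * (X ^ 2 + Y ^ 2)) =
      p.sr * ((p.W : ℝ) ^ 2 - (X ^ 2 + Y ^ 2))) :
    ∃ lc lr : ℕ, f lc lr = true ∧ |(p.K : ℝ) * l - lc| ≤ lr := by
  unfold ld1 ld2 ld3 ld4 ld5 at ht
  obtain ⟨S, hS⟩ : ∃ S : ℕ, S = sqN cx cy := ⟨_, rfl⟩
  obtain ⟨ds, hds⟩ : ∃ ds : ℕ, ds = dsN cx cy h := ⟨_, rfl⟩
  rw [← hS, ← hds] at ht
  obtain ⟨Rc, hR⟩ : ∃ Rc : ℤ, Rc = Int.add (Int.add (Int.mul p.r01 (Int.ofNat (Nat.mul p.W p.W)))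
      (Int.mul (Int.mul 2 p.r1) (Int.mul (Int.ofNat p.W) cx))) (Int.mul p.r12 (Int.ofNat S)) :=
    ⟨_, rfl⟩
  rw [← hR] at ht
  obtain ⟨dR, hdR⟩ : ∃ dR : ℕ, dR = Nat.add (Nat.mul 2 (Nat.mul (Int.natAbs p.r1)
      (Nat.mul p.W h))) (Nat.mul (Int.natAbs p.r12) ds) := ⟨_, rfl⟩
  rw [← hdR] at ht
  obtain ⟨KO, hKO⟩ : ∃ KO : ℤ, KO = Int.mul (Int.ofNat p.K) (Int.mul p.sr
      (Int.sub (Int.ofNat (Nat.mul p.W p.W)) (Int.ofNat S))) := ⟨_, rfl⟩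
  rw [← hKO] at ht
  obtain ⟨lc, hlc⟩ : ∃ lc : ℕ, lc = Nat.div (Int.toNat KO) (Int.toNat Rc) := ⟨_, rfl⟩
  rw [← hlc] at ht
  simp only [Bool.and_eq_true, Nat.ble_eq] at ht
  obtain ⟨h1, h2⟩ := ht
  refine ⟨_, _, h2, ?_⟩
  have hSr : (S : ℝ) = (cx : ℝ) ^ 2 + (cy : ℝ) ^ 2 := by rw [hS, sqN_c]
  have hdsr : (ds : ℝ) = 2 * (h * (|(cx : ℝ)| + |(cy : ℝ)|)) + 2 * (h * h) := by
    rw [hds, dsN_c]
  have hRr : (Rc : ℝ) = p.r01 * (p.W * p.W) + 2 * p.r1 * (p.W * cx) + p.r12 * S := by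
    rw [hR]
    simp only [iadd_cast', imul_cast', zof_cast, nmul_c]
    push_cast
    ring
  have hdRr : (dR : ℝ) = 2 * (|(p.r1 : ℝ)| * (p.W * h)) + |(p.r12 : ℝ)| * ds := by
    rw [hdR]
    simp only [nadd_c, nmul_c, nabs_c]
    push_cast
    ring
  have hKr : (KO : ℝ) = p.K * (p.sr * (p.W * p.W - S)) := by
    rw [hKO]
    simp only [imul_cast', isub_c, zof_cast, nmul_c]
  have h3 : dR < Int.toNat Rc := h1
  have h4 : ((Int.toNat Rc : ℕ) : ℤ) = Rc := Int.toNat_of_nonneg (by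
    by_contra h5
    have : Int.toNat Rc = 0 := Int.toNat_eq_zero.2 (le_of_lt (not_le.1 h5))
    omega)
  have hDr : ((Nat.sub (Int.toNat Rc) dR : ℕ) : ℝ) = Rc - dR := by
    have e : Nat.sub (Int.toNat Rc) dR = Int.toNat Rc - dR := rfl
    rw [e, Nat.cast_sub h3.le]
    have : ((Int.toNat Rc : ℕ) : ℝ) = (((Int.toNat Rc : ℕ) : ℤ) : ℝ) := by push_cast; rfl
    rw [this, h4]
  have hDp : 0 < Nat.sub (Int.toNat Rc) dR := Nat.sub_pos_of_lt h3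
  have hDp' : (0:ℝ) < ((Nat.sub (Int.toNat Rc) dR : ℕ) : ℝ) := by exact_mod_cast hDp
  have key := enc_real (K := (p.K : ℝ)) (lc := (lc : ℝ)) (Nat.cast_nonneg p.W) hx hy hSr hdsr hRr
    hdRr hDr hDp' hl
  refine key.trans ?_
  refine le_trans (le_of_eq ?_) (div_lt_c _ _ hDp)
  congr 1
  simp only [nadd_c, nmul_c, nabs_c, iadd_cast', imul_cast', isub_c, zof_cast, hKr]
  rw [abs_of_nonneg (Nat.cast_nonneg lc : (0:ℝ) ≤ lc)]
  push_cast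
  ring

/-- outside the unit disc -/
def oI (W : ℕ) (cx cy : ℤ) (h : ℕ) : Bool :=
  Nat.ble (Nat.succ (Nat.add (Nat.mul W W) (gN cx cy h))) (sqN cx cy)

theorem sq_W (W : ℕ) (w : ℂ) :
    ((W : ℝ) * w.re) ^ 2 + ((W : ℝ) * w.im) ^ 2 = (W : ℝ) * W * ‖w‖ ^ 2 := by
  rw [nsq]
  ring

theorem oI_sound {W : ℕ} {cx cy : ℤ} {h : ℕ} (ht : oI W cx cy h = true) {w : ℂ}
    (hw : ‖w‖ ≤ 1) (hx : |(W : ℝ) * w.re - cx| ≤ h) (hy : |(W : ℝ) * w.im - cy| ≤ h) : False := by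
  simp only [oI, Nat.ble_eq] at ht
  have h1 : ((Nat.add (Nat.mul W W) (gN cx cy h) : ℕ) : ℝ) < (sqN cx cy : ℝ) := by
    exact_mod_cast ht
  rw [nadd_c, nmul_c, gN_c, sqN_c] at h1
  have h2 := sq_lo hx hy
  rw [sq_W] at h2
  have hW : (0:ℝ) ≤ (W : ℝ) * W := mul_self_nonneg _
  have h4 : ‖w‖ ^ 2 ≤ 1 := pow_le_one₀ (norm_nonneg _) hw
  have h5 := mul_le_mul_of_nonneg_left h4 hW
  rw [mul_one] at h5
  linarith only [h1, h2, h5]

/-- negative integers -/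
def isN : ℤ → Bool
  | Int.ofNat _ => false
  | Int.negSucc _ => true

theorem isN_lt {a : ℤ} (h : isN a = true) : (a : ℝ) < 0 := by
  have h1 : a < 0 := by
    cases a with
    | ofNat n => simp [isN] at h
    | negSucc n => exact Int.negSucc_lt_zero n
  exact_mod_cast h1

/-- `A + B X + C Y - D (X² + Y²)` is negative on the square -/
def vt (A B C D cx cy : ℤ) (h : ℕ) : Bool :=
  isN (Int.add (Int.sub (Int.add A (Int.add (Int.mul B cx) (Int.mul C cy)))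
    (Int.mul D (Int.ofNat (sqN cx cy))))
    (Int.ofNat (Nat.mul h (Nat.add (Int.natAbs (Int.sub B (Int.mul 2 (Int.mul D cx))))
      (Int.natAbs (Int.sub C (Int.mul 2 (Int.mul D cy))))))))

theorem vt_sound {A B C D cx cy : ℤ} {h : ℕ} (ht : vt A B C D cx cy h = true) (hD : 0 ≤ D)
    {X Y : ℝ} (hx : |X - cx| ≤ h) (hy : |Y - cy| ≤ h) :
    (A : ℝ) + B * X + C * Y - D * (X ^ 2 + Y ^ 2) < 0 := by
  have h1 := isN_lt ht
  simp only [iadd_cast', isub_c, imul_cast', zof_cast, nmul_c, nadd_c, nabs_c, sqN_c] at h1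
  have hD' : (0:ℝ) ≤ D := by exact_mod_cast hD
  have k1 : ((B : ℝ) - 2 * (D * cx)) * (X - cx) ≤ |(B : ℝ) - 2 * (D * cx)| * h :=
    (le_abs_self _).trans (by
      rw [abs_mul]
      exact mul_le_mul_of_nonneg_left hx (abs_nonneg _))
  have k2 : ((C : ℝ) - 2 * (D * cy)) * (Y - cy) ≤ |(C : ℝ) - 2 * (D * cy)| * h :=
    (le_abs_self _).trans (by
      rw [abs_mul]
      exact mul_le_mul_of_nonneg_left hy (abs_nonneg _))
  have k3 : 0 ≤ (D : ℝ) * ((X - cx) ^ 2 + (Y - cy) ^ 2) := by (clear * - hD; positivity)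
  push_cast at h1
  have e : (A : ℝ) + B * X + C * Y - D * (X ^ 2 + Y ^ 2) =
      (A + (B * cx + C * cy) - D * ((cx : ℝ) ^ 2 + (cy : ℝ) ^ 2)) +
      (((B : ℝ) - 2 * (D * cx)) * (X - cx) + ((C : ℝ) - 2 * (D * cy)) * (Y - cy)) -
      (D : ℝ) * ((X - cx) ^ 2 + (Y - cy) ^ 2) := by ring
  rw [e]
  linarith only [k1, k2, k3, h1]

/-- outside the region of a vertex -/
def vr (W : ℕ) (v : ℤ × ℤ × ℤ) (cx cy : ℤ) (h : ℕ) : Bool :=
  vt (Int.mul (Int.add (Int.mul 7 v.2.2) (Int.mul 15 v.2.1)) (Int.ofNat (Nat.mul W W)))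
    (Int.mul (Int.sub (Int.mul 2 v.2.1) (Int.mul 6 v.2.2)) (Int.ofNat W))
    (Int.mul (Int.mul 8 v.1) (Int.ofNat W)) (Int.add v.2.2 v.2.1) cx cy h

theorem vr_sound {W : ℕ} {v : ℤ × ℤ × ℤ} {cx cy : ℤ} {h : ℕ} (ht : vr W v cx cy h = true)
    (hv : 0 ≤ v.2.2 + v.2.1) {w : ℂ} (hx : |(W : ℝ) * w.re - cx| ≤ h)
    (hy : |(W : ℝ) * w.im - cy| ≤ h) : ¬ Reg v w := by
  intro hR
  have h1 := vt_sound ht hv hx hy
  simp only [iadd_cast', isub_c, imul_cast', zof_cast, nmul_c] at h1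
  have h2 : 0 ≤ (W : ℝ) * W * ((v.2.2 : ℝ) * (12 - ‖w + 1‖ ^ 2 - 4 * (w + 1).re) +
      8 * v.1 * (w + 1).im + v.2.1 * (12 - ‖w + 1‖ ^ 2 + 4 * (w + 1).re)) :=
    mul_nonneg (mul_self_nonneg _) hR
  have e1 : ‖w + 1‖ ^ 2 = (w.re + 1) ^ 2 + w.im ^ 2 := by
    rw [nsq]
    simp
  rw [e1, add_re, one_re, add_im, one_im] at h2
  push_cast at h1
  linarith only [h2, h1]

/-- no point of the region of the cell outside the unit disc -/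
def oO (W : ℕ) (v1 v2 v3 : ℤ × ℤ × ℤ) (cx cy : ℤ) (h : ℕ) : Bool :=
  or (Nat.ble (Nat.add (sqN cx cy) (dsN cx cy h)) (Nat.mul W W))
    (or (Nat.ble (Nat.succ (Nat.add (Nat.mul 36 (Nat.mul W W))
        (gN (Int.add cx (Int.ofNat W)) cy h))) (sqN (Int.add cx (Int.ofNat W)) cy))
      (and (vr W v1 cx cy h) (and (vr W v2 cx cy h) (vr W v3 cx cy h))))

theorem oO_sound {W : ℕ} {v1 v2 v3 : ℤ × ℤ × ℤ} {cx cy : ℤ} {h : ℕ}
    (ht : oO W v1 v2 v3 cx cy h = true) (hW : 0 < W) (p1 : 0 ≤ v1.2.2 + v1.2.1)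
    (p2 : 0 ≤ v2.2.2 + v2.2.1) (p3 : 0 ≤ v3.2.2 + v3.2.1) {w : ℂ} (hw : ¬ ‖w‖ ≤ 1)
    (h6 : ‖w + 1‖ ≤ 6) (hR : Reg v1 w ∨ Reg v2 w ∨ Reg v3 w)
    (hx : |(W : ℝ) * w.re - cx| ≤ h) (hy : |(W : ℝ) * w.im - cy| ≤ h) : False := by
  simp only [oO, Bool.or_eq_true, Bool.and_eq_true, Nat.ble_eq] at ht
  have hW0 : (0:ℝ) < W := by exact_mod_cast hW
  have hWW : (0:ℝ) < (W : ℝ) * W := mul_pos hW0 hW0
  rcases ht with ht | ht | ⟨t1, t2, t3⟩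
  · have h1 : ((Nat.add (sqN cx cy) (dsN cx cy h) : ℕ) : ℝ) ≤ ((Nat.mul W W : ℕ) : ℝ) := by
      exact_mod_cast ht
    rw [nadd_c, nmul_c, dsN_c, sqN_c] at h1
    have h2 := sq_hi hx hy
    rw [sq_W] at h2
    have h3 : 1 < ‖w‖ ^ 2 := one_lt_pow₀ (not_le.1 hw) two_ne_zero
    have h4 := mul_lt_mul_of_pos_left h3 hWW
    linarith only [h1, h2, h4]
  · have h1 : ((Nat.add (Nat.mul 36 (Nat.mul W W)) (gN (Int.add cx (Int.ofNat W)) cy h) : ℕ) : ℝ) <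
        (sqN (Int.add cx (Int.ofNat W)) cy : ℝ) := by
      exact_mod_cast ht
    rw [nadd_c, nmul_c, nmul_c, gN_c, sqN_c, iadd_cast', zof_cast] at h1
    have hx' : |(W : ℝ) * (w + 1).re - ((cx : ℝ) + W)| ≤ h := by
      have e : (W : ℝ) * (w + 1).re - ((cx : ℝ) + W) = (W : ℝ) * w.re - cx := by
        rw [add_re, one_re]
        ring
      rwa [e]
    have hy' : |(W : ℝ) * (w + 1).im - (cy : ℝ)| ≤ h := by
      rwa [add_im, one_im, add_zero]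
    have h2 := sq_lo hx' hy'
    rw [sq_W] at h2
    have h3 : ‖w + 1‖ ^ 2 ≤ 36 := by nlinarith only [norm_nonneg (w + 1), h6]
    have h4 := mul_le_mul_of_nonneg_left h3 hWW.le
    push_cast at h1
    linarith only [h1, h2, h4]
  · rcases hR with hR | hR | hR
    · exact vr_sound t1 p1 hx hy hR
    · exact vr_sound t2 p2 hx hy hR
    · exact vr_sound t3 p3 hx hy hR

/-- the coefficients at the two ends of the cell -/
structure C66 where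
  (a0 a1 a2 b0 b1 b2 : C6)

def lfF (p : LP) (Bd BB8 : ℕ) (c : C66) (cx cy : ℤ) (h : ℕ) : Bool :=
  ld1 p (fun lc lr => and
    (lfl p.W Bd BB8 (Int.ofNat p.K) c.a0 c.a1 c.a2 cx cy h (Int.ofNat lc) lr)
    (lfl p.W Bd BB8 (Int.ofNat p.K) c.b0 c.b1 c.b2 cx cy h (Int.ofNat lc) lr)) cx cy h

/-- the value of three coefficients -/
noncomputable def v3 (c0 c1 c2 : C6) (l : ℝ) (w : ℂ) : ℂ :=
  c0.val l + c1.val l * conj w + c2.val l * conj w ^ 2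

theorem lfF_sound {p : LP} {Bd BB8 : ℕ} {c : C66} {cx cy : ℤ} {h : ℕ}
    (ht : lfF p Bd BB8 c cx cy h = true) {w : ℂ} {l ρ : ℝ}
    (hρ : ρ = p.r01 + 2 * p.r1 * w.re + p.r12 * ‖w‖ ^ 2) (hl : l * ρ = p.sr * (1 - ‖w‖ ^ 2))
    (hx : |(p.W : ℝ) * w.re - cx| ≤ h) (hy : |(p.W : ℝ) * w.im - cy| ≤ h) :
    8 * Bd * ((p.W : ℝ) ^ 2 * (p.K : ℝ) ^ 2 * ‖v3 c.a0 c.a1 c.a2 l w‖) ≤ (BB8 : ℝ) ∧
    8 * Bd * ((p.W : ℝ) ^ 2 * (p.K : ℝ) ^ 2 * ‖v3 c.b0 c.b1 c.b2 l w‖) ≤ (BB8 : ℝ) := by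
  obtain ⟨lc, lr, h1, h2⟩ := ld1_sound (l := l) ht hx hy (by
    have e1 : (p.r01 : ℝ) * (p.W : ℝ) ^ 2 + 2 * p.r1 * (p.W * (p.W * w.re)) +
        p.r12 * ((p.W * w.re) ^ 2 + (p.W * w.im) ^ 2) = (p.W : ℝ) ^ 2 * ρ := by
      rw [hρ, nsq]
      ring
    have e2 : (p.sr : ℝ) * ((p.W : ℝ) ^ 2 - ((p.W * w.re) ^ 2 + (p.W * w.im) ^ 2)) =
        (p.W : ℝ) ^ 2 * (p.sr * (1 - ‖w‖ ^ 2)) := by
      rw [nsq]
      ring
    rw [e1, e2, ← hl]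
    ring)
  simp only [Bool.and_eq_true] at h1
  have h3 : |((Int.ofNat p.K : ℤ) : ℝ) * l - ((Int.ofNat lc : ℤ) : ℝ)| ≤ lr := by
    rw [zof_cast, zof_cast]
    exact h2
  have k1 := lfl_le h1.1 h3 hx hy
  have k2 := lfl_le h1.2 h3 hx hy
  rw [zof_cast] at k1 k2
  exact ⟨k1, k2⟩

/-- the sums of the coefficients of `lⁿ (conj w)^j`, real parts -/
def cR (n j : ℕ) : CL → ℤ
  | [] => 0
  | t :: L => cond (and (Nat.beq t.1 n) (Nat.beq t.2.1 j)) (Int.add t.2.2.1 (cR n j L)) (cR n j L)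

/-- the sums of the coefficients of `lⁿ (conj w)^j`, imaginary parts -/
def cJ (n j : ℕ) : CL → ℤ
  | [] => 0
  | t :: L => cond (and (Nat.beq t.1 n) (Nat.beq t.2.1 j)) (Int.add t.2.2.2 (cJ n j L)) (cJ n j L)

def c6 (j : ℕ) (L : CL) : C6 :=
  ⟨cR 0 j L, cJ 0 j L, cR 1 j L, cJ 1 j L, cR 2 j L, cJ 2 j L⟩

theorem MSc_c6 {L : CL} (hL : ∀ t ∈ L, t.1 ≤ 2 ∧ t.2.1 ≤ 2) (l : ℝ) (w : ℂ) :
    MSc L l w = v3 (c6 0 L) (c6 1 L) (c6 2 L) l w := by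
  unfold MSc v3 C6.val zc c6
  induction L with
  | nil => simp [cR, cJ]
  | cons t L ih =>
    obtain ⟨h1, h2⟩ := hL t List.mem_cons_self
    obtain ⟨n, j, a, b⟩ := t
    have e : ∀ a b : ℤ, Int.add a b = a + b := fun _ _ => rfl
    rw [List.map_cons, List.sum_cons, ih fun s hs => hL s (List.mem_cons_of_mem _ hs)]
    simp only at h1 h2 ⊢
    have h00 : Nat.beq 0 0 = true := rfl
    have h01 : Nat.beq 0 1 = false := rfl
    have h02 : Nat.beq 0 2 = false := rfl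
    have h10 : Nat.beq 1 0 = false := rfl
    have h11 : Nat.beq 1 1 = true := rfl
    have h12 : Nat.beq 1 2 = false := rfl
    have h20 : Nat.beq 2 0 = false := rfl
    have h21 : Nat.beq 2 1 = false := rfl
    have h22 : Nat.beq 2 2 = true := rfl
    interval_cases n <;> interval_cases j <;>
    · simp only [cR, cJ, h00, h01, h02, h10, h11, h12, h20, h21, h22, e, Bool.and_true,
        Bool.and_false, cond_true, cond_false]
      push_cast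
      ring

def cmb (u v : ℤ) (c d : C6) : C6 :=
  ⟨Int.add (Int.mul u c.x0) (Int.mul v d.x0), Int.add (Int.mul u c.y0) (Int.mul v d.y0),
    Int.add (Int.mul u c.x1) (Int.mul v d.x1), Int.add (Int.mul u c.y1) (Int.mul v d.y1),
    Int.add (Int.mul u c.x2) (Int.mul v d.x2), Int.add (Int.mul u c.y2) (Int.mul v d.y2)⟩

theorem cmb_val (u v : ℤ) (c d : C6) (l : ℝ) :
    (cmb u v c d).val l = u * c.val l + v * d.val l := by
  have e1 : ∀ a b : ℤ, ((Int.mul a b : ℤ) : ℂ) = a * b := fun a b => by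
    show (((a * b : ℤ)) : ℂ) = _
    push_cast
    ring
  have e2 : ∀ a b : ℤ, ((Int.add a b : ℤ) : ℂ) = a + b := fun a b => by
    show (((a + b : ℤ)) : ℂ) = _
    push_cast
    ring
  unfold C6.val zc cmb
  simp only [e1, e2]
  ring

/-- the coefficients at the ends of the cell -/
def ends (ad an bn : ℤ) (L0 L1 : CL) : C66 :=
  ⟨cmb ad an (c6 0 L0) (c6 0 L1), cmb ad an (c6 1 L0) (c6 1 L1), cmb ad an (c6 2 L0) (c6 2 L1),
    cmb ad bn (c6 0 L0) (c6 0 L1), cmb ad bn (c6 1 L0) (c6 1 L1), cmb ad bn (c6 2 L0) (c6 2 L1)⟩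

theorem v3_cmb (u v : ℤ) (c0 c1 c2 d0 d1 d2 : C6) (l : ℝ) (w : ℂ) :
    v3 (cmb u v c0 d0) (cmb u v c1 d1) (cmb u v c2 d2) l w =
      u * v3 c0 c1 c2 l w + v * v3 d0 d1 d2 l w := by
  unfold v3
  rw [cmb_val, cmb_val, cmb_val]
  ring

def eqC (c d : C6) : Bool :=
  and (and (and (decide (c.x0 = d.x0)) (decide (c.y0 = d.y0)))
    (and (decide (c.x1 = d.x1)) (decide (c.y1 = d.y1))))
    (and (decide (c.x2 = d.x2)) (decide (c.y2 = d.y2)))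

theorem eqC_eq {c d : C6} (h : eqC c d = true) : c = d := by
  simp only [eqC, Bool.and_eq_true, decide_eq_true_eq] at h
  obtain ⟨⟨⟨h1, h2⟩, h3, h4⟩, h5, h6⟩ := h
  cases c
  cases d
  simp only at h1 h2 h3 h4 h5 h6
  rw [h1, h2, h3, h4, h5, h6]

def eqC66 (c d : C66) : Bool :=
  and (and (and (eqC c.a0 d.a0) (eqC c.a1 d.a1)) (and (eqC c.a2 d.a2) (eqC c.b0 d.b0)))
    (and (eqC c.b1 d.b1) (eqC c.b2 d.b2))

theorem eqC66_eq {c d : C66} (h : eqC66 c d = true) : c = d := by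
  simp only [eqC66, Bool.and_eq_true] at h
  obtain ⟨⟨⟨h1, h2⟩, h3, h4⟩, h5, h6⟩ := h
  cases c
  cases d
  simp only at h1 h2 h3 h4 h5 h6
  rw [eqC_eq h1, eqC_eq h2, eqC_eq h3, eqC_eq h4, eqC_eq h5, eqC_eq h6]

/-- a bound at both ends of a segment -/
theorem norm_seg {P Q : ℂ} {a b t B : ℝ} (ha : a ≤ t) (hb : t ≤ b)
    (h1 : ‖P + (a : ℂ) * Q‖ ≤ B) (h2 : ‖P + (b : ℂ) * Q‖ ≤ B) : ‖P + (t : ℂ) * Q‖ ≤ B := by
  rcases eq_or_lt_of_le (ha.trans hb) with h | h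
  · have : t = a := le_antisymm (hb.trans h.symm.le) ha
    rwa [this]
  · have d : 0 < b - a := sub_pos.2 h
    have e : ((b - a : ℝ) : ℂ) * (P + (t : ℂ) * Q) = ((b - t : ℝ) : ℂ) * (P + (a : ℂ) * Q) +
        ((t - a : ℝ) : ℂ) * (P + (b : ℂ) * Q) := by
      push_cast
      ring
    have e2 : (b - a) * ‖P + (t : ℂ) * Q‖ = ‖((b - a : ℝ) : ℂ) * (P + (t : ℂ) * Q)‖ := by
      rw [norm_mul, Complex.norm_real, Real.norm_of_nonneg d.le]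
    have k := norm_add_le (((b - t : ℝ) : ℂ) * (P + (a : ℂ) * Q))
      (((t - a : ℝ) : ℂ) * (P + (b : ℂ) * Q))
    rw [norm_mul, norm_mul, Complex.norm_real, Complex.norm_real,
      Real.norm_of_nonneg (sub_nonneg.2 hb), Real.norm_of_nonneg (sub_nonneg.2 ha)] at k
    have k1 := mul_le_mul_of_nonneg_left h1 (sub_nonneg.2 hb)
    have k2 := mul_le_mul_of_nonneg_left h2 (sub_nonneg.2 ha)
    have k3 : (b - a) * ‖P + (t : ℂ) * Q‖ ≤ (b - a) * B := by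
      rw [e2, e]
      linarith only [k, k1, k2]
    exact le_of_mul_le_mul_left k3 d

/-- the multiplier `M''` of the parameter `t`, affine in `t` -/
noncomputable def MqA (M : ℤ) (I0 I1 O0 O1 : CL) (p0 p1 p2 q0 q1 q2 t : ℝ) (w : ℂ) : ℂ :=
  Mqc M I0 O0 p0 p1 p2 q0 q1 q2 w + (t : ℂ) * Mqc M I1 O1 p0 p1 p2 q0 q1 q2 w

/-- the data of the check on the cell `[an/ad, bn/ad]`: resolution, scale and depth inside and
outside, the bound `Bn / Bd` of `M''`, the denominators `ri / r` (inside) and `si / s`, the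
numbers `8 Bn M ad K² W²`, the coefficients at the ends -/
structure FChk where
  (W K n W' K' n' Bn Bd : ℕ)
  (r r0 r1 r2 s s0 s1 s2 ad an bn : ℤ)
  (BI BO : ℕ)
  (cI cO : C66)

/-- the three vertices of a cell -/
def FChk.v (c : FChk) : ℕ → ℤ × ℤ × ℤ
  | 0 => (Int.mul c.an c.ad, Int.mul c.an c.an, Int.mul c.ad c.ad)
  | 1 => (Int.mul c.bn c.ad, Int.mul c.bn c.bn, Int.mul c.ad c.ad)
  | _ => (Int.mul (Int.add c.an c.bn) c.ad, Int.mul 2 (Int.mul c.an c.bn),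
      Int.mul 2 (Int.mul c.ad c.ad))

/-- the boxes inside -/
def FChk.okI (c : FChk) : Bool :=
  qx (oI c.W) (lfF ⟨c.W, c.K, c.r, Int.add c.r0 c.r1, c.r1, Int.add c.r1 c.r2⟩ c.Bd c.BI c.cI)
    c.n 0 0 c.W

/-- the boxes outside -/
def FChk.okO (c : FChk) : Bool :=
  qx (oO c.W' (c.v 0) (c.v 1) (c.v 2))
    (lfF ⟨c.W', c.K', Int.neg c.s, Int.add c.s0 c.s1, c.s1, Int.add c.s1 c.s2⟩ c.Bd c.BO c.cO)
    c.n' (Int.neg (Int.ofNat c.W')) 0 (Nat.mul 6 c.W')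

/-- the algebraic conditions -/
def FChk.ok0 (c : FChk) (M : ℤ) (I0 I1 O0 O1 : CL) : Bool :=
  and (and (and (and (degC 2 I0) (degC 2 I1)) (and (degC 2 O0) (degC 2 O1)))
    (and (shC I0 O0) (shC I1 O1)))
  (and (and (eqC66 c.cI (ends c.ad c.an c.bn I0 I1)) (eqC66 c.cO (ends c.ad c.an c.bn O0 O1)))
    (and (and (and (decide (0 < M)) (decide (0 < c.ad)))
        (and (decide (0 ≤ Int.mul c.an c.bn)) (decide (0 < c.Bd))))
      (and (and (and (decide (0 < c.W)) (decide (0 < c.K)))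
          (and (decide (0 < c.W')) (decide (0 < c.K'))))
        (and (decide ((c.BI : ℤ) ≤ 8 * c.Bn * (c.ad * M) * (c.W * c.W * (c.K * c.K))))
          (decide ((c.BO : ℤ) ≤ 8 * c.Bn * (c.ad * M) * (c.W' * c.W' * (c.K' * c.K'))))))))

theorem bd_of {W K Bn Bd BB : ℕ} {M ad : ℤ} {Z : ℂ} (hW : 0 < W) (hK : 0 < K) (hBd : 0 < Bd)
    (hB : (BB : ℤ) ≤ 8 * Bn * (ad * M) * (W * W * (K * K)))
    (h : 8 * Bd * ((W : ℝ) ^ 2 * (K : ℝ) ^ 2 * ‖Z‖) ≤ (BB : ℝ)) :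
    ‖Z‖ ≤ (Bn : ℝ) / Bd * (ad * M) := by
  have hB' : (BB : ℝ) ≤ 8 * Bn * (ad * M) * (W * W * (K * K)) := by exact_mod_cast hB
  have hW0 : (0:ℝ) < W := by exact_mod_cast hW
  have hK0 : (0:ℝ) < K := by exact_mod_cast hK
  have hB0 : (0:ℝ) < Bd := by exact_mod_cast hBd
  have h1 : 8 * ((W : ℝ) ^ 2 * (K : ℝ) ^ 2) * (Bd * ‖Z‖) ≤
      8 * ((W : ℝ) ^ 2 * (K : ℝ) ^ 2) * (Bn * (ad * M)) := by
    have h2 := h.trans hB'
    (clear * - h2; linarith only [h2])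
  have h3 : (Bd : ℝ) * ‖Z‖ ≤ Bn * (ad * M) := le_of_mul_le_mul_left h1 (by (clear * - hW hK; positivity))
  rw [div_mul_eq_mul_div, le_div_iff₀ hB0]
  linarith only [h3]

/-- both ends give the bound on the segment -/
theorem seg_bound {ad an bn M : ℤ} {Bn Bd : ℕ} {L0 L1 : CL} {c : C66} {l : ℝ} {w : ℂ} {t : ℝ}
    (hM : 0 < M) (had : 0 < ad) (hc : c = ends ad an bn L0 L1)
    (d0 : ∀ s ∈ L0, s.1 ≤ 2 ∧ s.2.1 ≤ 2) (d1 : ∀ s ∈ L1, s.1 ≤ 2 ∧ s.2.1 ≤ 2)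
    (ha : (an : ℝ) ≤ ad * t) (hb : (ad : ℝ) * t ≤ bn)
    (h1 : ‖v3 c.a0 c.a1 c.a2 l w‖ ≤ (Bn : ℝ) / Bd * (ad * M))
    (h2 : ‖v3 c.b0 c.b1 c.b2 l w‖ ≤ (Bn : ℝ) / Bd * (ad * M)) :
    ‖MSc L0 l w / (M : ℂ) + (t : ℂ) * (MSc L1 l w / (M : ℂ))‖ ≤ (Bn : ℝ) / Bd := by
  have hM0 : (0:ℝ) < M := by exact_mod_cast hM
  have ha0 : (0:ℝ) < ad := by exact_mod_cast had
  have hMc : (M : ℂ) ≠ 0 := by exact_mod_cast hM.ne'
  have hac : (ad : ℂ) ≠ 0 := by exact_mod_cast had.ne'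
  have key : ∀ kn : ℤ, ‖(ad : ℂ) * v3 (c6 0 L0) (c6 1 L0) (c6 2 L0) l w +
      (kn : ℂ) * v3 (c6 0 L1) (c6 1 L1) (c6 2 L1) l w‖ ≤ (Bn : ℝ) / Bd * (ad * M) →
      ‖MSc L0 l w / (M : ℂ) + (((kn : ℝ) / ad : ℝ) : ℂ) * (MSc L1 l w / (M : ℂ))‖ ≤
        (Bn : ℝ) / Bd := by
    intro kn hk
    rw [← MSc_c6 d0, ← MSc_c6 d1] at hk
    have e : MSc L0 l w / (M : ℂ) + (((kn : ℝ) / ad : ℝ) : ℂ) * (MSc L1 l w / (M : ℂ)) =
        ((ad : ℂ) * MSc L0 l w + (kn : ℂ) * MSc L1 l w) / ((ad * M : ℝ) : ℂ) := by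
      push_cast
      field_simp
    rw [e, norm_div, Complex.norm_real, Real.norm_of_nonneg (mul_pos ha0 hM0).le,
      div_le_iff₀ (mul_pos ha0 hM0)]
    exact hk
  rw [hc] at h1 h2
  simp only [ends, v3_cmb] at h1 h2
  refine norm_seg (a := (an : ℝ) / ad) (b := (bn : ℝ) / ad) ?_ ?_ (key an h1) (key bn h2)
  · rw [div_le_iff₀ ha0]
    linarith only [ha]
  · rw [le_div_iff₀ ha0]
    (clear * - hb; linarith only [hb])

/-- **the bound of `M''`** on the discs of a cell -/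
theorem MqA_le {p0 p1 p2 q0 q1 q2 k k' : ℝ} (hk : 0 < k)
    (hl : ∀ w : ℂ, ‖w‖ ≤ 1 → k ≤ rF p0 p1 p2 w) (hk' : 0 < k')
    (hl' : ∀ w : ℂ, k' ≤ rF q0 q1 q2 w) {M : ℤ} {I0 I1 O0 O1 : CL} (c : FChk)
    (hr : ROk c.r c.r0 c.r1 c.r2 p0 p1 p2) (hr' : ROk c.s c.s0 c.s1 c.s2 q0 q1 q2)
    (h0 : c.ok0 M I0 I1 O0 O1 = true) (hI : c.okI = true) (hO : c.okO = true) {t : ℝ}
    (ha : (c.an : ℝ) ≤ c.ad * t) (hb : (c.ad : ℝ) * t ≤ c.bn) {m : ℂ} (hm : ‖m + 3‖ ≤ 4) :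
    ‖MqA M I0 I1 O0 O1 p0 p1 p2 q0 q1 q2 t (wu (uT t) m)‖ ≤ (c.Bn : ℝ) / c.Bd := by
  simp only [FChk.ok0, Bool.and_eq_true, decide_eq_true_eq] at h0
  obtain ⟨⟨⟨⟨dI0, dI1⟩, dO0, dO1⟩, -, -⟩, ⟨eI, eO⟩, ⟨⟨hM, had⟩, hab, hBd⟩,
    ⟨⟨hW, hK⟩, hW', hK'⟩, hBI, hBO⟩ := h0
  have had0 : (0:ℝ) < c.ad := by exact_mod_cast had
  obtain ⟨w, hw⟩ : ∃ w : ℂ, w = wu (uT t) m := ⟨_, rfl⟩
  obtain ⟨h6, hreg⟩ := cover (a := (c.an : ℝ) / c.ad) (b := (c.bn : ℝ) / c.ad) (t := t)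
    (v1 := c.v 0) (v2 := c.v 1) (v3 := c.v 2)
    (by rw [div_le_iff₀ had0]; linarith only [ha]) (by rw [le_div_iff₀ had0]; (clear * - hb; linarith only [hb]))
    (by
      show 0 < c.ad * c.ad
      (clear * - had; positivity))
    (by
      show 0 < c.ad * c.ad
      (clear * - had; positivity))
    (by
      show 0 < 2 * (c.ad * c.ad)
      (clear * - had; positivity))
    (by
      simp only [FChk.v, imul_cast']
      (clear * - had; field_simp))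
    (by
      simp only [FChk.v, imul_cast']
      (clear * - had; field_simp))
    (by
      simp only [FChk.v, imul_cast']
      (clear * - had; field_simp))
    (by
      simp only [FChk.v, imul_cast']
      (clear * - had; field_simp))
    (by
      simp only [FChk.v, imul_cast', iadd_cast']
      push_cast
      (clear * - had; field_simp))
    (by
      simp only [FChk.v, imul_cast']
      push_cast
      (clear * - had; field_simp)) hm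
  rw [← hw] at h6 hreg ⊢
  unfold MqA Mqc
  split_ifs with h1
  · have hr0 : (0:ℝ) < c.r := by exact_mod_cast hr.pos
    have h2 : 0 < rF p0 p1 p2 w := hk.trans_le (hl w h1)
    have hb1 : ∀ x : ℝ, |x| ≤ 1 → |(c.W : ℝ) * x - ((0 : ℤ) : ℝ)| ≤ c.W := fun x hx => by
      rw [Int.cast_zero, sub_zero, abs_mul, abs_of_nonneg (Nat.cast_nonneg c.W)]
      have := mul_le_mul_of_nonneg_left hx (Nat.cast_nonneg c.W : (0:ℝ) ≤ c.W)
      rwa [mul_one] at this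
    have key := qx_sound (X := (c.W : ℝ) * w.re) (Y := (c.W : ℝ) * w.im)
      (P := 8 * c.Bd * ((c.W : ℝ) ^ 2 * (c.K : ℝ) ^ 2 * ‖v3 c.cI.a0 c.cI.a1 c.cI.a2
          ((1 - ‖w‖ ^ 2) / rF p0 p1 p2 w) w‖) ≤ (c.BI : ℝ) ∧
        8 * c.Bd * ((c.W : ℝ) ^ 2 * (c.K : ℝ) ^ 2 * ‖v3 c.cI.b0 c.cI.b1 c.cI.b2
          ((1 - ‖w‖ ^ 2) / rF p0 p1 p2 w) w‖) ≤ (c.BI : ℝ))
      (fun cx cy h a1 a2 a3 => oI_sound a1 h1 a2 a3)
      (fun cx cy h a1 a2 a3 => lfF_sound (ρ := c.r * rF p0 p1 p2 w) a1 (by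
          rw [rF_eq]
          simp only [iadd_cast', hr.e0, hr.e1, hr.e2]
          ring) (by (clear * - h2 hr0; field_simp)) a2 a3) c.n 0 0 c.W hI
      (hb1 _ ((Complex.abs_re_le_norm w).trans h1)) (hb1 _ ((Complex.abs_im_le_norm w).trans h1))
    exact seg_bound hM had (eqC66_eq eI) (degC_iff dI0) (degC_iff dI1) ha hb
      (bd_of hW hK hBd hBI key.1) (bd_of hW hK hBd hBI key.2)
  · have hr0 : (0:ℝ) < c.s := by exact_mod_cast hr'.pos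
    have h2 : 0 < rF q0 q1 q2 w := hk'.trans_le (hl' w)
    have e6 : ((Nat.mul 6 c.W' : ℕ) : ℝ) = 6 * c.W' := by
      rw [nmul_c]
      push_cast
      ring
    have hb1 : |(c.W' : ℝ) * w.re - ((Int.neg (Int.ofNat c.W') : ℤ) : ℝ)| ≤
        ((Nat.mul 6 c.W' : ℕ) : ℝ) := by
      rw [ineg_cast', zof_cast, e6]
      have a1 := Complex.abs_re_le_norm (w + 1)
      rw [add_re, one_re] at a1
      have e : (c.W' : ℝ) * w.re - -(c.W' : ℝ) = c.W' * (w.re + 1) := by ring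
      rw [e, abs_mul, abs_of_nonneg (Nat.cast_nonneg c.W')]
      have := mul_le_mul_of_nonneg_left (a1.trans h6) (Nat.cast_nonneg c.W' : (0:ℝ) ≤ c.W')
      linarith only [this]
    have hb2 : |(c.W' : ℝ) * w.im - ((0 : ℤ) : ℝ)| ≤ ((Nat.mul 6 c.W' : ℕ) : ℝ) := by
      rw [Int.cast_zero, sub_zero, e6]
      have a1 := Complex.abs_im_le_norm (w + 1)
      rw [add_im, one_im, add_zero] at a1
      rw [abs_mul, abs_of_nonneg (Nat.cast_nonneg c.W')]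
      have := mul_le_mul_of_nonneg_left (a1.trans h6) (Nat.cast_nonneg c.W' : (0:ℝ) ≤ c.W')
      linarith only [this]
    have hD : ∀ x y : ℤ, 0 ≤ x * x + y * y := fun x y =>
      add_nonneg (mul_self_nonneg x) (mul_self_nonneg y)
    have key := qx_sound (X := (c.W' : ℝ) * w.re) (Y := (c.W' : ℝ) * w.im)
      (P := 8 * c.Bd * ((c.W' : ℝ) ^ 2 * (c.K' : ℝ) ^ 2 * ‖v3 c.cO.a0 c.cO.a1 c.cO.a2
          ((‖w‖ ^ 2 - 1) / rF q0 q1 q2 w) w‖) ≤ (c.BO : ℝ) ∧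
        8 * c.Bd * ((c.W' : ℝ) ^ 2 * (c.K' : ℝ) ^ 2 * ‖v3 c.cO.b0 c.cO.b1 c.cO.b2
          ((‖w‖ ^ 2 - 1) / rF q0 q1 q2 w) w‖) ≤ (c.BO : ℝ))
      (fun cx cy h a1 a2 a3 => oO_sound a1 hW' (hD c.ad c.an) (hD c.ad c.bn) (by
        show 0 ≤ 2 * (c.ad * c.ad) + 2 * (c.an * c.bn)
        have e : Int.mul c.an c.bn = c.an * c.bn := rfl
        rw [e] at hab
        have := mul_self_nonneg c.ad
        omega) h1 h6 hreg a2 a3)
      (fun cx cy h a1 a2 a3 => lfF_sound (ρ := c.s * rF q0 q1 q2 w) a1 (by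
          rw [rF_eq]
          simp only [iadd_cast', hr'.e0, hr'.e1, hr'.e2]
          ring) (by
          simp only [ineg_cast']
          field_simp
          ring) a2 a3) c.n' _ _ _ hO hb1 hb2
    exact seg_bound hM had (eqC66_eq eO) (degC_iff dO0) (degC_iff dO1) ha hb
      (bd_of hW' hK' hBd hBO key.1) (bd_of hW' hK' hBd hBO key.2)

/-- **`MOk` for every direction of a cell** -/
theorem mOk_F {p0 p1 p2 q0 q1 q2 k k' : ℝ} (hk : 0 < k)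
    (hl : ∀ w : ℂ, ‖w‖ ≤ 1 → k ≤ rF p0 p1 p2 w) (hk' : 0 < k')
    (hl' : ∀ w : ℂ, k' ≤ rF q0 q1 q2 w) {M : ℤ} {I0 I1 O0 O1 : CL} (c : FChk)
    (hr : ROk c.r c.r0 c.r1 c.r2 p0 p1 p2) (hr' : ROk c.s c.s0 c.s1 c.s2 q0 q1 q2)
    (h0 : c.ok0 M I0 I1 O0 O1 = true) (hI : c.okI = true) (hO : c.okO = true) {t : ℝ}
    (ha : (c.an : ℝ) ≤ c.ad * t) (hb : (c.ad : ℝ) * t ≤ c.bn) {Mb : ℝ}
    (hMb : Real.sqrt (1 + t ^ 2) / 2 * ((c.Bn : ℝ) / c.Bd) < Mb) :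
    ∃ (M' : ℂ → ℂ) (L' ε : ℝ), 0 < ε ∧ MOk (fun m => conj (uT t) ^ 2 * ((1 + (t : ℂ) * I) / 2) *
      MqA M I0 I1 O0 O1 p0 p1 p2 q0 q1 q2 t (wu (uT t) m)) M' Mb L' ε := by
  have hh := h0
  simp only [FChk.ok0, Bool.and_eq_true, decide_eq_true_eq] at hh
  obtain ⟨⟨⟨⟨dI0, dI1⟩, dO0, dO1⟩, s0, s1⟩, -⟩ := hh
  have z0 := shC_eq (degC_iff dI0) (degC_iff dO0) s0
  have z1 := shC_eq (degC_iff dI1) (degC_iff dO1) s1
  obtain ⟨L0, hL0, lip0⟩ := Mqc_lip (M := M) hk hl hk' hl' z0 (R := 10) (by norm_num)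
  obtain ⟨L1, hL1, lip1⟩ := Mqc_lip (M := M) hk hl hk' hl' z1 (R := 10) (by norm_num)
  obtain ⟨z, hzz⟩ : ∃ z : ℂ, z = conj (uT t) ^ 2 * ((1 + (t : ℂ) * I) / 2) := ⟨_, rfl⟩
  have hzn : ‖z‖ = Real.sqrt (1 + t ^ 2) / 2 := by rw [hzz]; exact fac_norm t
  rw [← hzz]
  have hc : Continuous (MqA M I0 I1 O0 O1 p0 p1 p2 q0 q1 q2 t) := by
    unfold MqA
    exact (Mqc_cont hk hl hk' hl' z0).add (continuous_const.mul (Mqc_cont hk hl hk' hl' z1))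
  have hlip : ∀ w w' : ℂ, ‖w‖ ≤ 10 → ‖w'‖ ≤ 10 →
      ‖MqA M I0 I1 O0 O1 p0 p1 p2 q0 q1 q2 t w - MqA M I0 I1 O0 O1 p0 p1 p2 q0 q1 q2 t w'‖ ≤
        (L0 + |t| * L1) * ‖w - w'‖ := by
    intro w w' hw hw'
    have e : MqA M I0 I1 O0 O1 p0 p1 p2 q0 q1 q2 t w - MqA M I0 I1 O0 O1 p0 p1 p2 q0 q1 q2 t w' =
        (Mqc M I0 O0 p0 p1 p2 q0 q1 q2 w - Mqc M I0 O0 p0 p1 p2 q0 q1 q2 w') +
        (t : ℂ) * (Mqc M I1 O1 p0 p1 p2 q0 q1 q2 w - Mqc M I1 O1 p0 p1 p2 q0 q1 q2 w') := by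
      unfold MqA
      ring
    rw [e]
    refine (norm_add_le _ _).trans ?_
    rw [norm_mul, Complex.norm_real, Real.norm_eq_abs]
    have a1 := lip0 w w' hw hw'
    have a2 := mul_le_mul_of_nonneg_left (lip1 w w' hw hw') (abs_nonneg t)
    (clear * - a1 a2; linarith only [a1, a2])
  exact mOk_dir (F := fun w => z * MqA M I0 I1 O0 O1 p0 p1 p2 q0 q1 q2 t w)
    (continuous_const.mul hc) (L := ‖z‖ * (L0 + |t| * L1)) (by (clear * - hL0 hL1; positivity))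
    (fun w w' hw hw' => by
      rw [← mul_sub, norm_mul, mul_assoc]
      exact mul_le_mul_of_nonneg_left (hlip w w' hw hw') (norm_nonneg _))
    (uT_norm t) (b := Real.sqrt (1 + t ^ 2) / 2 * ((c.Bn : ℝ) / c.Bd)) (fun m hm => by
      rw [norm_mul, hzn]
      exact mul_le_mul_of_nonneg_left (MqA_le hk hl hk' hl' c hr hr' h0 hI hO ha hb hm)
        (by (clear * -; positivity))) hMb

end Pool.Agent.Helper11.CKC

end

section

namespace Pool.Agent.Helper20.CK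
end Pool.Agent.Helper20.CK
namespace Pool.Agent.Helper69.EK3
end Pool.Agent.Helper69.EK3
namespace Pool.Agent.Helper82.CKC
end Pool.Agent.Helper82.CKC
namespace Pool.Agent.Helper69.CK
end Pool.Agent.Helper69.CK
namespace Pool.Agent.Helper99.CKC
end Pool.Agent.Helper99.CKC
namespace Pool.Agent.Helper20.EK7
end Pool.Agent.Helper20.EK7

/-!
# Project CKC: the multiplier on a whole arc `0 ≤ τ ≤ T`, from a list of cells
-/

set_option autoImplicit false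

open Complex Metric Set

open scoped ComplexConjugate

namespace Pool.Agent.Helper11.CKC

open Pool.Agent.Helper20.CK (ROk)

open Pool.Agent.Helper69.EK3 (rF)

open Pool.Agent.Helper82.CKC (wu)

open Pool.Agent.Helper69.CK (MOk)

open Pool.Agent.Helper99.CKC (ud)

open Pool.Agent.Helper20.EK7 (InL OutL OutD)

/-- the cells cover `[pn/pd, Tn/Td]` -/
def covB (Tn Td : ℤ) : ℤ → ℤ → List FChk → Bool
  | pn, pd, [] => decide (Tn * pd ≤ pn * Td)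
  | pn, pd, c :: cs => and (decide (c.an * pd ≤ pn * c.ad)) (covB Tn Td c.bn c.ad cs)

/-- the number of the bound: `(1 + b²) B² < 16 κ(a)²`, `κ(τ) = (kA + kB τ²)/kD` -/
def numB (kA kB kD : ℤ) (c : FChk) : Bool :=
  and (and (decide (0 ≤ c.an)) (decide (0 < c.ad)))
    (and (and (decide (0 < (c.Bd : ℤ))) (decide (0 ≤ kA * c.ad ^ 2 + kB * c.an ^ 2)))
    (decide ((c.ad ^ 2 + c.bn ^ 2) * (c.Bn : ℤ) ^ 2 * c.ad ^ 2 * kD ^ 2 <
      16 * (c.Bd : ℤ) ^ 2 * (kA * c.ad ^ 2 + kB * c.an ^ 2) ^ 2)))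

/-- all conditions on a list of cells except the boxes -/
def arcB (M : ℤ) (I0 I1 O0 O1 : CL) (r r0 r1 r2 s s0 s1 s2 kA kB kD : ℤ) : List FChk → Bool
  | [] => true
  | c :: cs => and (and (and (c.ok0 M I0 I1 O0 O1) (numB kA kB kD c))
      (and (and (and (decide (c.r = r)) (decide (c.r0 = r0)))
          (and (decide (c.r1 = r1)) (decide (c.r2 = r2))))
        (and (and (decide (c.s = s)) (decide (c.s0 = s0)))
          (and (decide (c.s1 = s1)) (decide (c.s2 = s2))))))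
      (arcB M I0 I1 O0 O1 r r0 r1 r2 s s0 s1 s2 kA kB kD cs)

theorem covB_sound {Tn Td : ℤ} (hTd : 0 < Td) {τ : ℝ} (hτ : τ * Td ≤ Tn) :
    ∀ (cs : List FChk) (pn pd : ℤ), covB Tn Td pn pd cs = true → 0 < pd →
      (∀ c ∈ cs, 0 < c.ad) → (pn : ℝ) < pd * τ →
      ∃ c ∈ cs, (c.an : ℝ) ≤ c.ad * τ ∧ (c.ad : ℝ) * τ ≤ c.bn := by
  intro cs
  induction cs with
  | nil =>
    intro pn pd h hpd _ hp
    simp only [covB, decide_eq_true_eq] at h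
    exfalso
    have h1 : (Tn : ℝ) * pd ≤ pn * Td := by exact_mod_cast h
    have hT0 : (0:ℝ) < Td := by exact_mod_cast hTd
    have hp0 : (0:ℝ) < pd := by exact_mod_cast hpd
    nlinarith only [hτ, hp, h1, hT0, hp0]
  | cons c cs ih =>
    intro pn pd h hpd had hp
    simp only [covB, Bool.and_eq_true, decide_eq_true_eq] at h
    obtain ⟨h1, h2⟩ := h
    have hc := had c List.mem_cons_self
    have hc0 : (0:ℝ) < c.ad := by exact_mod_cast hc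
    have hp0 : (0:ℝ) < pd := by exact_mod_cast hpd
    by_cases hb : (c.ad : ℝ) * τ ≤ c.bn
    · refine ⟨c, List.mem_cons_self, ?_, hb⟩
      have h3 : (c.an : ℝ) * pd ≤ pn * c.ad := by exact_mod_cast h1
      have h4 : (c.an : ℝ) * pd ≤ c.ad * τ * pd := by (clear * - h3 hp hc0; nlinarith only [hp, hc0, h3])
      exact le_of_mul_le_mul_right h4 hp0
    · obtain ⟨d, hd, hd2⟩ := ih c.bn c.ad h2 hc
        (fun e he => had e (List.mem_cons_of_mem _ he)) (not_le.1 hb)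
      exact ⟨d, List.mem_cons_of_mem _ hd, hd2⟩

theorem covB_sound0 {Tn Td : ℤ} (hTd : 0 < Td) {τ : ℝ} (h0 : 0 ≤ τ) (hτ : τ * Td ≤ Tn)
    {cs : List FChk} (h : covB Tn Td 0 1 cs = true) (hne : cs ≠ []) (had : ∀ c ∈ cs, 0 < c.ad) :
    ∃ c ∈ cs, (c.an : ℝ) ≤ c.ad * τ ∧ (c.ad : ℝ) * τ ≤ c.bn := by
  cases cs with
  | nil => exact absurd rfl hne
  | cons c cs =>
    simp only [covB, Bool.and_eq_true, decide_eq_true_eq] at h
    obtain ⟨h1, h2⟩ := h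
    have hc := had c List.mem_cons_self
    have hc0 : (0:ℝ) < c.ad := by exact_mod_cast hc
    by_cases hb : (c.ad : ℝ) * τ ≤ c.bn
    · refine ⟨c, List.mem_cons_self, ?_, hb⟩
      have h3 : (c.an : ℝ) ≤ 0 := by
        have : c.an ≤ 0 := by (clear * - h1; linarith only [h1])
        exact_mod_cast this
      have := mul_nonneg hc0.le h0
      linarith only [h3, this]
    · obtain ⟨d, hd, hd2⟩ := covB_sound hTd hτ cs c.bn c.ad h2 hc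
        (fun e he => had e (List.mem_cons_of_mem _ he)) (not_le.1 hb)
      exact ⟨d, List.mem_cons_of_mem _ hd, hd2⟩

/-- the number of a cell gives the strict inequality for all its directions -/
theorem numB_lt {kA kB kD : ℤ} {c : FChk} (h : numB kA kB kD c = true) (hkB : 0 ≤ kB)
    (hkD : 0 < kD) {τ : ℝ} (ha : (c.an : ℝ) ≤ c.ad * τ) (hb : (c.ad : ℝ) * τ ≤ c.bn) :
    Real.sqrt (1 + τ ^ 2) / 2 * ((c.Bn : ℝ) / c.Bd) < 2 * ((kA : ℝ) / kD + kB / kD * τ ^ 2) := by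
  simp only [numB, Bool.and_eq_true, decide_eq_true_eq] at h
  obtain ⟨⟨h0, had⟩, ⟨hBd, hk⟩, hlt⟩ := h
  have an0 : (0:ℝ) ≤ c.an := by exact_mod_cast h0
  have ad0 : (0:ℝ) < c.ad := by exact_mod_cast had
  have bd0 : (0:ℝ) < c.Bd := by exact_mod_cast hBd
  have k0 : (0:ℝ) ≤ kA * (c.ad : ℝ) ^ 2 + kB * (c.an : ℝ) ^ 2 := by exact_mod_cast hk
  have kB0 : (0:ℝ) ≤ kB := by exact_mod_cast hkB
  have kD0 : (0:ℝ) < kD := by exact_mod_cast hkD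
  have hlt' : ((c.ad : ℝ) ^ 2 + (c.bn : ℝ) ^ 2) * (c.Bn : ℝ) ^ 2 * (c.ad : ℝ) ^ 2 * (kD : ℝ) ^ 2 <
      16 * (c.Bd : ℝ) ^ 2 * (kA * (c.ad : ℝ) ^ 2 + kB * (c.an : ℝ) ^ 2) ^ 2 := by
    exact_mod_cast hlt
  have aτ : 0 ≤ (c.ad : ℝ) * τ := an0.trans ha
  have hτ0 : 0 ≤ τ := nonneg_of_mul_nonneg_right aτ ad0
  have sb : ((c.ad : ℝ) * τ) ^ 2 ≤ (c.bn : ℝ) ^ 2 := pow_le_pow_left₀ aτ hb 2
  have sa : (c.an : ℝ) ^ 2 ≤ ((c.ad : ℝ) * τ) ^ 2 := pow_le_pow_left₀ an0 ha 2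
  -- square of the left side
  have hB0 : (0:ℝ) ≤ c.Bn := Nat.cast_nonneg _
  have hs := Real.sq_sqrt (show (0:ℝ) ≤ 1 + τ ^ 2 by (clear * -; positivity))
  obtain ⟨S, hS⟩ : ∃ S : ℝ, S = Real.sqrt (1 + τ ^ 2) := ⟨_, rfl⟩
  rw [← hS] at hs ⊢
  have hS0 : 0 ≤ S := by rw [hS]; exact Real.sqrt_nonneg _
  obtain ⟨Q, hQ⟩ : ∃ Q : ℝ, Q = kA * (c.ad : ℝ) ^ 2 + kB * ((c.ad : ℝ) * τ) ^ 2 := ⟨_, rfl⟩
  have hQ1 : kA * (c.ad : ℝ) ^ 2 + kB * (c.an : ℝ) ^ 2 ≤ Q := by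
    rw [hQ]
    have := mul_le_mul_of_nonneg_left sa kB0
    linarith only [this]
  have hQ0 : 0 ≤ Q := k0.trans hQ1
  have hQ2 : (kA * (c.ad : ℝ) ^ 2 + kB * (c.an : ℝ) ^ 2) ^ 2 ≤ Q ^ 2 :=
    pow_le_pow_left₀ k0 hQ1 2
  -- (S Bn ad² kD)² < (4 Bd Q)²
  have key : (S * c.Bn * (c.ad : ℝ) ^ 2 * kD) ^ 2 < (4 * c.Bd * Q) ^ 2 := by
    have e1 : (S * c.Bn * (c.ad : ℝ) ^ 2 * kD) ^ 2 =
        ((c.ad : ℝ) ^ 2 + ((c.ad : ℝ) * τ) ^ 2) * ((c.Bn : ℝ) ^ 2 * (c.ad : ℝ) ^ 2 * (kD : ℝ) ^ 2) := by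
      have : (S * c.Bn * (c.ad : ℝ) ^ 2 * kD) ^ 2 =
          S ^ 2 * ((c.ad : ℝ) ^ 2 * ((c.Bn : ℝ) ^ 2 * (c.ad : ℝ) ^ 2 * (kD : ℝ) ^ 2)) := by ring
      rw [this, hs]
      ring
    have e2 : (4 * c.Bd * Q) ^ 2 = 16 * (c.Bd : ℝ) ^ 2 * Q ^ 2 := by ring
    rw [e1, e2]
    have k1 : ((c.ad : ℝ) ^ 2 + ((c.ad : ℝ) * τ) ^ 2) *
        ((c.Bn : ℝ) ^ 2 * (c.ad : ℝ) ^ 2 * (kD : ℝ) ^ 2) ≤
        ((c.ad : ℝ) ^ 2 + (c.bn : ℝ) ^ 2) * ((c.Bn : ℝ) ^ 2 * (c.ad : ℝ) ^ 2 * (kD : ℝ) ^ 2) :=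
      mul_le_mul_of_nonneg_right (by linarith only [sb]) (by (clear * - had hkD; positivity))
    have k2 : 16 * (c.Bd : ℝ) ^ 2 * (kA * (c.ad : ℝ) ^ 2 + kB * (c.an : ℝ) ^ 2) ^ 2 ≤
        16 * (c.Bd : ℝ) ^ 2 * Q ^ 2 := mul_le_mul_of_nonneg_left hQ2 (by (clear * - bd0; positivity))
    linarith only [hlt', k1, k2]
  have key2 : S * c.Bn * (c.ad : ℝ) ^ 2 * kD < 4 * c.Bd * Q :=
    lt_of_pow_lt_pow_left₀ 2 (by (clear * - bd0 hQ0; positivity)) key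
  have e3 : Real.sqrt (1 + τ ^ 2) = S := hS.symm
  have e4 : S / 2 * ((c.Bn : ℝ) / c.Bd) = (S * c.Bn * (c.ad : ℝ) ^ 2 * kD) /
      (2 * c.Bd * (c.ad : ℝ) ^ 2 * kD) := by field_simp
  have e5 : 2 * ((kA : ℝ) / kD + kB / kD * τ ^ 2) = (4 * c.Bd * Q) /
      (2 * c.Bd * (c.ad : ℝ) ^ 2 * kD) := by
    rw [hQ]
    field_simp
    ring
  rw [e4, e5]
  exact div_lt_div_of_pos_right key2 (by (clear * - bd0 had hkD; positivity))

/-- the conditions of one cell of a list -/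
theorem arcB_mem {M : ℤ} {I0 I1 O0 O1 : CL} {r r0 r1 r2 s s0 s1 s2 kA kB kD : ℤ}
    {cs : List FChk} (h : arcB M I0 I1 O0 O1 r r0 r1 r2 s s0 s1 s2 kA kB kD cs = true)
    {c : FChk} (hc : c ∈ cs) : c.ok0 M I0 I1 O0 O1 = true ∧ numB kA kB kD c = true ∧
      (c.r = r ∧ c.r0 = r0 ∧ c.r1 = r1 ∧ c.r2 = r2) ∧
      (c.s = s ∧ c.s0 = s0 ∧ c.s1 = s1 ∧ c.s2 = s2) := by
  induction cs with
  | nil => simp at hc
  | cons d cs ih =>
    simp only [arcB, Bool.and_eq_true, decide_eq_true_eq] at h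
    obtain ⟨⟨⟨h1, h2⟩, ⟨⟨a1, a2⟩, a3, a4⟩, ⟨b1, b2⟩, b3, b4⟩, h4⟩ := h
    rcases List.mem_cons.1 hc with rfl | hc
    · exact ⟨h1, h2, ⟨a1, a2, a3, a4⟩, b1, b2, b3, b4⟩
    · exact ih h4 hc

/-- **the multiplier of every direction of the arc `0 ≤ τ ≤ Tn/Td`** -/
theorem mOk_arc {p0 p1 p2 q0 q1 q2 : ℝ} (hp : InL p0 p1 p2) (hq : OutD q0 q1 q2)
    {M : ℤ} {I0 I1 O0 O1 : CL} {r r0 r1 r2 s s0 s1 s2 kA kB kD Tn Td : ℤ}
    (hr : ROk r r0 r1 r2 p0 p1 p2) (hr' : ROk s s0 s1 s2 q0 q1 q2) {cs : List FChk}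
    (hne : cs ≠ []) (hTd : 0 < Td) (hkB : 0 ≤ kB) (hkD : 0 < kD)
    (hcov : covB Tn Td 0 1 cs = true)
    (harc : arcB M I0 I1 O0 O1 r r0 r1 r2 s s0 s1 s2 kA kB kD cs = true)
    (hbox : ∀ c ∈ cs, c.okI = true ∧ c.okO = true) {τ : ℝ} (h0 : 0 ≤ τ) (hτ : τ * Td ≤ Tn) :
    ∃ (Mb : ℝ) (M' : ℂ → ℂ) (Lm ε₀ : ℝ), Mb < 2 * ((kA : ℝ) / kD + kB / kD * τ ^ 2) ∧
      0 < ε₀ ∧ MOk (fun m => conj (ud τ) ^ 2 * ((1 + (τ : ℂ) * I) / 2) *
        MqA M I0 I1 O0 O1 p0 p1 p2 q0 q1 q2 τ (wu (ud τ) m)) M' Mb Lm ε₀ := by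
  obtain ⟨c, hc, ha, hb⟩ := covB_sound0 hTd h0 hτ hcov hne fun c hc => by
    have h1 := (arcB_mem harc hc).2.1
    simp only [numB, Bool.and_eq_true, decide_eq_true_eq] at h1
    exact h1.1.2
  obtain ⟨h1, h2, ⟨a1, a2, a3, a4⟩, b1, b2, b3, b4⟩ := arcB_mem harc hc
  have hlt := numB_lt h2 hkB hkD ha hb
  obtain ⟨Mb, hM1, hM2⟩ := exists_between hlt
  obtain ⟨k, hk, hl⟩ := hp.low
  have h3 : OutL (q1 + q2) q0 q1 q2 := ⟨rfl, hq.pos, hq.pos'⟩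
  obtain ⟨k', hk', hl'⟩ := h3.low
  obtain ⟨M', L', ε, hε, hMO⟩ := mOk_F (I0 := I0) (I1 := I1) (O0 := O0) (O1 := O1) (M := M)
    hk (fun w hw => le_trans (by nlinarith only [hk]) (hl w hw)) hk'
    (fun w => le_trans (by (clear * - hk'; nlinarith only [hk'])) (hl' w)) c
    (by rw [a1, a2, a3, a4]; exact hr) (by rw [b1, b2, b3, b4]; exact hr') h1 (hbox c hc).1
    (hbox c hc).2 ha hb hM1
  refine ⟨Mb, M', L', ε, hM2, hε, ?_⟩
  have e : uT τ = ud τ := by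
    unfold uT ud
    rw [mul_comm (τ : ℂ) I]
  rw [e] at hMO
  exact hMO

end Pool.Agent.Helper11.CKC

end

section

namespace Pool.Agent.Helper20.CK
end Pool.Agent.Helper20.CK
namespace Pool.Agent.Helper69.EK3
end Pool.Agent.Helper69.EK3
namespace Pool.Agent.Helper82.CKC
end Pool.Agent.Helper82.CKC
namespace Pool.Agent.Helper69.CK
end Pool.Agent.Helper69.CK
namespace Pool.Agent.Helper99.CKC
end Pool.Agent.Helper99.CKC
namespace Pool.Agent.Helper20.EK7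
end Pool.Agent.Helper20.EK7

/-!
# Project CKC: the multiplier on a ray of directions `T ≤ τ`

Cells are given by homogeneous vectors `(ya, xa)`, `(yb, xb)`, `τ = x/y`, `yb = 0` allowed.
-/

set_option autoImplicit false

open Complex Metric Set

open scoped ComplexConjugate

namespace Pool.Agent.Helper11.CKC

open Pool.Agent.Helper20.CK (hf hf_le split_box zof_cast ROk)

open Pool.Agent.Helper69.EK3 (rF rF_eq imul_cast' iadd_cast')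

open Pool.Agent.Helper82.CKC (wu mOk_dir)

open Pool.Agent.Helper69.CK (MOk)

open Pool.Agent.Helper99.CKC (ud)

open Pool.Agent.Helper20.EK7 (InL OutL OutD)

/-- a positive combination of three negative numbers is negative -/
theorem quad_neg {P Q R al be : ℝ} (ha : 0 ≤ al) (hb : 0 ≤ be) (hab : 0 < al + be) (hP : P < 0)
    (hQ : Q < 0) (hR : R < 0) : al ^ 2 * P + be ^ 2 * Q + al * be * R < 0 := by
  have h1 := mul_nonneg (sq_nonneg al) (neg_nonneg.2 hP.le)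
  have h2 := mul_nonneg (sq_nonneg be) (neg_nonneg.2 hQ.le)
  have h3 := mul_nonneg (mul_nonneg ha hb) (neg_nonneg.2 hR.le)
  rcases eq_or_lt_of_le ha with h | h
  · have hb' : 0 < be := by linarith only [hab, h]
    have := mul_pos (pow_pos hb' 2) (neg_pos.2 hQ)
    (clear * - h1 h3 this; linarith only [h1, h3, this])
  · have := mul_pos (pow_pos h 2) (neg_pos.2 hP)
    linarith

/-- **the cover**, homogeneous form: `v i = (tn, sn, td)` -/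
theorem coverH {ya xa yb xb : ℤ} {t al be : ℝ} (hal : 0 ≤ al) (hbe : 0 ≤ be)
    (h1 : al * ya + be * yb = 1) (ht : al * xa + be * xb = t) {v1 v2 v3 : ℤ × ℤ × ℤ}
    (e1 : v1 = (ya * xa, xa * xa, ya * ya)) (e2 : v2 = (yb * xb, xb * xb, yb * yb))
    (e3 : v3 = (xa * yb + ya * xb, 2 * (xa * xb), 2 * (ya * yb)))
    {m : ℂ} (hm : ‖m + 3‖ ≤ 4) :
    ‖wu (uT t) m + 1‖ ≤ 6 ∧ (Reg v1 (wu (uT t) m) ∨ Reg v2 (wu (uT t) m) ∨
      Reg v3 (wu (uT t) m)) := by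
  obtain ⟨u, hu⟩ : ∃ u : ℂ, u = uT t := ⟨_, rfl⟩
  obtain ⟨ω, hω⟩ : ∃ ω : ℂ, ω = conj u * (m + 1) := ⟨_, rfl⟩
  have hun : ‖u‖ = 1 := by rw [hu]; exact uT_norm t
  have ew : wu (uT t) m + 1 = ω := by
    unfold wu
    rw [← hu, hω]
    ring
  have huc : u * conj u = 1 := by
    rw [mul_conj', hun]
    norm_num
  have e4 : m + 1 = u * ω := by
    rw [hω, ← mul_assoc, huc, one_mul]
  have hn : ‖ω‖ = ‖m + 1‖ := by
    rw [hω, norm_mul, norm_conj, hun, one_mul]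
  have h6 : ‖ω‖ ≤ 6 := by
    rw [hn]
    have h1 := norm_sub_le (m + 3) 2
    have e : m + 3 - 2 = m + 1 := by ring
    rw [e, Complex.norm_ofNat] at h1
    (clear * - hm h1; linarith only [hm, h1])
  have hP : 0 ≤ 12 - ‖ω‖ ^ 2 - 4 * (u * ω).re := by
    have h1 : ‖m + 3‖ ^ 2 ≤ 16 := by (clear * - hm; nlinarith only [norm_nonneg (m + 3), hm])
    have e : m + 3 = u * ω + 2 := by rw [← e4]; ring
    rw [e, nsq] at h1
    have e5 : ‖ω‖ ^ 2 = (u * ω).re ^ 2 + (u * ω).im ^ 2 := by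
      rw [← nsq, norm_mul, hun, one_mul]
    rw [e5]
    simp only [add_re, re_ofNat, add_im, im_ofNat, add_zero] at h1
    (clear * - h1; linarith only [h1])
  have hQ : 0 ≤ (12 - ‖ω‖ ^ 2 - 4 * ω.re) + 8 * ω.im * t + (12 - ‖ω‖ ^ 2 + 4 * ω.re) * t ^ 2 := by
    have h1 : 0 ≤ (1 + t ^ 2) * (12 - ‖ω‖ ^ 2 - 4 * (u * ω).re) :=
      mul_nonneg (by (clear * -; positivity)) hP
    have e : (1 + t ^ 2) * (u * ω).re = ((1 + (t : ℂ) * I) ^ 2 * ω).re := by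
      rw [← uT_mul, ← hu, mul_assoc, re_ofReal_mul]
    have e' : ((1 + (t : ℂ) * I) ^ 2 * ω).re = (1 - t ^ 2) * ω.re - 2 * t * ω.im := by
      simp only [pow_two, mul_re, add_re, one_re, ofReal_re, I_re, ofReal_im, I_im, add_im,
        one_im, mul_im]
      ring
    rw [e'] at e
    (clear * - h1 e; linarith only [h1, e])
  rw [ew]
  refine ⟨h6, ?_⟩
  by_contra hno
  simp only [not_or, Reg, not_le, ew] at hno
  obtain ⟨n1, n2, n3⟩ := hno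
  subst e1 e2 e3
  simp only at n1 n2 n3
  push_cast at n1 n2 n3
  have hab : 0 < al + be := by
    by_contra h
    have ha0 : al = 0 := by (clear * - hal hbe h; linarith only [hal, hbe, h])
    have hb0 : be = 0 := by (clear * - hbe hal h; linarith only [hal, hbe, h])
    rw [ha0, hb0] at h1
    simp at h1
  have key := quad_neg hal hbe hab n1 n2 n3
  obtain ⟨P, hPP⟩ : ∃ P : ℝ, P = 12 - ‖ω‖ ^ 2 - 4 * ω.re := ⟨_, rfl⟩
  obtain ⟨Q, hQQ⟩ : ∃ Q : ℝ, Q = 12 - ‖ω‖ ^ 2 + 4 * ω.re := ⟨_, rfl⟩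
  rw [← hPP, ← hQQ] at hQ key
  have e : P + 8 * ω.im * t + Q * t ^ 2 =
      P * (al * ya + be * yb) ^ 2 + 8 * ω.im * ((al * ya + be * yb) * (al * xa + be * xb)) +
      Q * (al * xa + be * xb) ^ 2 := by
    rw [h1, ht]
    ring
  rw [e] at hQ
  linarith only [key, hQ]

/-- the data of the check on a homogeneous cell -/
structure HChk where
  (W K n W' K' n' Bn Bd : ℕ)
  (r r0 r1 r2 s s0 s1 s2 ya xa yb xb : ℤ)
  (BI BO : ℕ)
  (cI cO : C66)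

/-- the three vertices of a cell -/
def HChk.v (c : HChk) : ℕ → ℤ × ℤ × ℤ
  | 0 => (c.ya * c.xa, c.xa * c.xa, c.ya * c.ya)
  | 1 => (c.yb * c.xb, c.xb * c.xb, c.yb * c.yb)
  | _ => (c.xa * c.yb + c.ya * c.xb, 2 * (c.xa * c.xb), 2 * (c.ya * c.yb))

/-- the boxes inside -/
def HChk.okI (c : HChk) : Bool :=
  qx (oI c.W) (lfF ⟨c.W, c.K, c.r, Int.add c.r0 c.r1, c.r1, Int.add c.r1 c.r2⟩ c.Bd c.BI c.cI)
    c.n 0 0 c.W

/-- the boxes outside -/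
def HChk.okO (c : HChk) : Bool :=
  qx (oO c.W' (c.v 0) (c.v 1) (c.v 2))
    (lfF ⟨c.W', c.K', Int.neg c.s, Int.add c.s0 c.s1, c.s1, Int.add c.s1 c.s2⟩ c.Bd c.BO c.cO)
    c.n' (Int.neg (Int.ofNat c.W')) 0 (Nat.mul 6 c.W')

/-- the coefficients at the ends of the cell -/
def endsH (ya xa yb xb : ℤ) (L0 L1 : CL) : C66 :=
  ⟨cmb ya xa (c6 0 L0) (c6 0 L1), cmb ya xa (c6 1 L0) (c6 1 L1), cmb ya xa (c6 2 L0) (c6 2 L1),
    cmb yb xb (c6 0 L0) (c6 0 L1), cmb yb xb (c6 1 L0) (c6 1 L1), cmb yb xb (c6 2 L0) (c6 2 L1)⟩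

/-- the algebraic conditions -/
def HChk.ok0 (c : HChk) (M : ℤ) (I0 I1 O0 O1 : CL) : Bool :=
  and (and (and (and (degC 2 I0) (degC 2 I1)) (and (degC 2 O0) (degC 2 O1)))
    (and (shC I0 O0) (shC I1 O1)))
  (and (and (eqC66 c.cI (endsH c.ya c.xa c.yb c.xb I0 I1))
      (eqC66 c.cO (endsH c.ya c.xa c.yb c.xb O0 O1)))
    (and (and (and (decide (0 < M)) (decide (0 ≤ c.ya)))
        (and (and (decide (0 ≤ c.xa)) (decide (0 ≤ c.yb)))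
          (and (decide (0 ≤ c.xb)) (decide (0 < c.Bd)))))
      (and (and (and (decide (0 < c.W)) (decide (0 < c.K)))
          (and (decide (0 < c.W')) (decide (0 < c.K'))))
        (and (decide ((c.BI : ℤ) ≤ 8 * c.Bn * M * (c.W * c.W * (c.K * c.K))))
          (decide ((c.BO : ℤ) ≤ 8 * c.Bn * M * (c.W' * c.W' * (c.K' * c.K'))))))))

theorem bd_ofH {W K Bn Bd BB : ℕ} {M : ℤ} {Z : ℂ} (hW : 0 < W) (hK : 0 < K) (hBd : 0 < Bd)
    (hB : (BB : ℤ) ≤ 8 * Bn * M * (W * W * (K * K)))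
    (h : 8 * Bd * ((W : ℝ) ^ 2 * (K : ℝ) ^ 2 * ‖Z‖) ≤ (BB : ℝ)) :
    ‖Z‖ ≤ (Bn : ℝ) / Bd * M := by
  have h1 := bd_of (M := M) (ad := 1) hW hK hBd (by rw [one_mul]; exact hB) h
  push_cast at h1
  rwa [one_mul] at h1

/-- both ends give the bound on the cell -/
theorem seg_boundH {ya xa yb xb M : ℤ} {Bn Bd : ℕ} {L0 L1 : CL} {c : C66} {l : ℝ} {w : ℂ}
    {t al be : ℝ} (hM : 0 < M) (hc : c = endsH ya xa yb xb L0 L1)
    (d0 : ∀ s ∈ L0, s.1 ≤ 2 ∧ s.2.1 ≤ 2) (d1 : ∀ s ∈ L1, s.1 ≤ 2 ∧ s.2.1 ≤ 2)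
    (hal : 0 ≤ al) (hbe : 0 ≤ be) (e1 : al * ya + be * yb = 1) (ht : al * xa + be * xb = t)
    (h1 : ‖v3 c.a0 c.a1 c.a2 l w‖ ≤ (Bn : ℝ) / Bd * M)
    (h2 : ‖v3 c.b0 c.b1 c.b2 l w‖ ≤ (Bn : ℝ) / Bd * M) :
    ‖MSc L0 l w / (M : ℂ) + (t : ℂ) * (MSc L1 l w / (M : ℂ))‖ ≤
      (al + be) * ((Bn : ℝ) / Bd) := by
  have hM0 : (0:ℝ) < M := by exact_mod_cast hM
  have hMc : (M : ℂ) ≠ 0 := by exact_mod_cast hM.ne'
  rw [hc] at h1 h2
  simp only [endsH, v3_cmb] at h1 h2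
  rw [← MSc_c6 d0, ← MSc_c6 d1] at h1 h2
  have e : MSc L0 l w / (M : ℂ) + (t : ℂ) * (MSc L1 l w / (M : ℂ)) =
      ((al : ℂ) * ((ya : ℂ) * MSc L0 l w + (xa : ℂ) * MSc L1 l w) +
        (be : ℂ) * ((yb : ℂ) * MSc L0 l w + (xb : ℂ) * MSc L1 l w)) / ((M : ℝ) : ℂ) := by
    have k1 : (al : ℂ) * (ya : ℂ) + (be : ℂ) * (yb : ℂ) = 1 := by exact_mod_cast e1
    have k2 : (al : ℂ) * (xa : ℂ) + (be : ℂ) * (xb : ℂ) = (t : ℂ) := by exact_mod_cast ht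
    push_cast
    field_simp
    linear_combination (-MSc L0 l w) * k1 - (MSc L1 l w) * k2
  rw [e, norm_div, Complex.norm_real, Real.norm_of_nonneg hM0.le, div_le_iff₀ hM0]
  refine (norm_add_le _ _).trans ?_
  rw [norm_mul, norm_mul, Complex.norm_real, Complex.norm_real, Real.norm_of_nonneg hal,
    Real.norm_of_nonneg hbe]
  have k1 := mul_le_mul_of_nonneg_left h1 hal
  have k2 := mul_le_mul_of_nonneg_left h2 hbe
  (clear * - k1 k2; linarith)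

/-- **the bound of `M''`** on the discs of a homogeneous cell -/
theorem MqA_leH {p0 p1 p2 q0 q1 q2 k k' : ℝ} (hk : 0 < k)
    (hl : ∀ w : ℂ, ‖w‖ ≤ 1 → k ≤ rF p0 p1 p2 w) (hk' : 0 < k')
    (hl' : ∀ w : ℂ, k' ≤ rF q0 q1 q2 w) {M : ℤ} {I0 I1 O0 O1 : CL} (c : HChk)
    (hr : ROk c.r c.r0 c.r1 c.r2 p0 p1 p2) (hr' : ROk c.s c.s0 c.s1 c.s2 q0 q1 q2)
    (h0 : c.ok0 M I0 I1 O0 O1 = true) (hI : c.okI = true) (hO : c.okO = true) {t al be : ℝ}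
    (hal : 0 ≤ al) (hbe : 0 ≤ be) (e1 : al * c.ya + be * c.yb = 1)
    (ht : al * c.xa + be * c.xb = t) {m : ℂ} (hm : ‖m + 3‖ ≤ 4) :
    ‖MqA M I0 I1 O0 O1 p0 p1 p2 q0 q1 q2 t (wu (uT t) m)‖ ≤
      (al + be) * ((c.Bn : ℝ) / c.Bd) := by
  simp only [HChk.ok0, Bool.and_eq_true, decide_eq_true_eq] at h0
  obtain ⟨⟨⟨⟨dI0, dI1⟩, dO0, dO1⟩, -, -⟩, ⟨eI, eO⟩, ⟨⟨hM, hya⟩, ⟨hxa, hyb⟩, hxb, hBd⟩,
    ⟨⟨hW, hK⟩, hW', hK'⟩, hBI, hBO⟩ := h0
  obtain ⟨w, hw⟩ : ∃ w : ℂ, w = wu (uT t) m := ⟨_, rfl⟩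
  obtain ⟨h6, hreg⟩ := coverH (v1 := c.v 0) (v2 := c.v 1) (v3 := c.v 2) hal hbe e1 ht rfl rfl rfl
    hm
  rw [← hw] at h6 hreg ⊢
  unfold MqA Mqc
  split_ifs with h1
  · have hr0 : (0:ℝ) < c.r := by exact_mod_cast hr.pos
    have h2 : 0 < rF p0 p1 p2 w := hk.trans_le (hl w h1)
    have hb1 : ∀ x : ℝ, |x| ≤ 1 → |(c.W : ℝ) * x - ((0 : ℤ) : ℝ)| ≤ c.W := fun x hx => by
      rw [Int.cast_zero, sub_zero, abs_mul, abs_of_nonneg (Nat.cast_nonneg c.W)]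
      have := mul_le_mul_of_nonneg_left hx (Nat.cast_nonneg c.W : (0:ℝ) ≤ c.W)
      rwa [mul_one] at this
    have key := qx_sound (X := (c.W : ℝ) * w.re) (Y := (c.W : ℝ) * w.im)
      (P := 8 * c.Bd * ((c.W : ℝ) ^ 2 * (c.K : ℝ) ^ 2 * ‖v3 c.cI.a0 c.cI.a1 c.cI.a2
          ((1 - ‖w‖ ^ 2) / rF p0 p1 p2 w) w‖) ≤ (c.BI : ℝ) ∧
        8 * c.Bd * ((c.W : ℝ) ^ 2 * (c.K : ℝ) ^ 2 * ‖v3 c.cI.b0 c.cI.b1 c.cI.b2
          ((1 - ‖w‖ ^ 2) / rF p0 p1 p2 w) w‖) ≤ (c.BI : ℝ))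
      (fun cx cy h a1 a2 a3 => oI_sound a1 h1 a2 a3)
      (fun cx cy h a1 a2 a3 => lfF_sound (ρ := c.r * rF p0 p1 p2 w) a1 (by
          rw [rF_eq]
          simp only [iadd_cast', hr.e0, hr.e1, hr.e2]
          ring) (by (clear * - h2 hr0; field_simp)) a2 a3) c.n 0 0 c.W hI
      (hb1 _ ((Complex.abs_re_le_norm w).trans h1)) (hb1 _ ((Complex.abs_im_le_norm w).trans h1))
    exact seg_boundH hM (eqC66_eq eI) (degC_iff dI0) (degC_iff dI1) hal hbe e1 ht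
      (bd_ofH hW hK hBd hBI key.1) (bd_ofH hW hK hBd hBI key.2)
  · have hr0 : (0:ℝ) < c.s := by exact_mod_cast hr'.pos
    have h2 : 0 < rF q0 q1 q2 w := hk'.trans_le (hl' w)
    have e6 : ((Nat.mul 6 c.W' : ℕ) : ℝ) = 6 * c.W' := by
      rw [nmul_c]
      push_cast
      ring
    have hb1 : |(c.W' : ℝ) * w.re - ((Int.neg (Int.ofNat c.W') : ℤ) : ℝ)| ≤
        ((Nat.mul 6 c.W' : ℕ) : ℝ) := by
      rw [ineg_cast', zof_cast, e6]
      have a1 := Complex.abs_re_le_norm (w + 1)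
      rw [add_re, one_re] at a1
      have e : (c.W' : ℝ) * w.re - -(c.W' : ℝ) = c.W' * (w.re + 1) := by ring
      rw [e, abs_mul, abs_of_nonneg (Nat.cast_nonneg c.W')]
      have := mul_le_mul_of_nonneg_left (a1.trans h6) (Nat.cast_nonneg c.W' : (0:ℝ) ≤ c.W')
      linarith only [this]
    have hb2 : |(c.W' : ℝ) * w.im - ((0 : ℤ) : ℝ)| ≤ ((Nat.mul 6 c.W' : ℕ) : ℝ) := by
      rw [Int.cast_zero, sub_zero, e6]
      have a1 := Complex.abs_im_le_norm (w + 1)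
      rw [add_im, one_im, add_zero] at a1
      rw [abs_mul, abs_of_nonneg (Nat.cast_nonneg c.W')]
      have := mul_le_mul_of_nonneg_left (a1.trans h6) (Nat.cast_nonneg c.W' : (0:ℝ) ≤ c.W')
      linarith only [this]
    have hD : ∀ x y : ℤ, 0 ≤ x * x + y * y := fun x y =>
      add_nonneg (mul_self_nonneg x) (mul_self_nonneg y)
    have key := qx_sound (X := (c.W' : ℝ) * w.re) (Y := (c.W' : ℝ) * w.im)
      (P := 8 * c.Bd * ((c.W' : ℝ) ^ 2 * (c.K' : ℝ) ^ 2 * ‖v3 c.cO.a0 c.cO.a1 c.cO.a2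
          ((‖w‖ ^ 2 - 1) / rF q0 q1 q2 w) w‖) ≤ (c.BO : ℝ) ∧
        8 * c.Bd * ((c.W' : ℝ) ^ 2 * (c.K' : ℝ) ^ 2 * ‖v3 c.cO.b0 c.cO.b1 c.cO.b2
          ((‖w‖ ^ 2 - 1) / rF q0 q1 q2 w) w‖) ≤ (c.BO : ℝ))
      (fun cx cy h a1 a2 a3 => oO_sound a1 hW' (hD c.ya c.xa) (hD c.yb c.xb) (by
        show 0 ≤ 2 * (c.ya * c.yb) + 2 * (c.xa * c.xb)
        have := mul_nonneg hya hyb
        have := mul_nonneg hxa hxb
        linarith) h1 h6 hreg a2 a3)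
      (fun cx cy h a1 a2 a3 => lfF_sound (ρ := c.s * rF q0 q1 q2 w) a1 (by
          rw [rF_eq]
          simp only [iadd_cast', hr'.e0, hr'.e1, hr'.e2]
          ring) (by
          simp only [ineg_cast']
          field_simp
          ring) a2 a3) c.n' _ _ _ hO hb1 hb2
    exact seg_boundH hM (eqC66_eq eO) (degC_iff dO0) (degC_iff dO1) hal hbe e1 ht
      (bd_ofH hW' hK' hBd hBO key.1) (bd_ofH hW' hK' hBd hBO key.2)

/-- **`MOk` for every direction of a homogeneous cell** -/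
theorem mOk_H {p0 p1 p2 q0 q1 q2 k k' : ℝ} (hk : 0 < k)
    (hl : ∀ w : ℂ, ‖w‖ ≤ 1 → k ≤ rF p0 p1 p2 w) (hk' : 0 < k')
    (hl' : ∀ w : ℂ, k' ≤ rF q0 q1 q2 w) {M : ℤ} {I0 I1 O0 O1 : CL} (c : HChk)
    (hr : ROk c.r c.r0 c.r1 c.r2 p0 p1 p2) (hr' : ROk c.s c.s0 c.s1 c.s2 q0 q1 q2)
    (h0 : c.ok0 M I0 I1 O0 O1 = true) (hI : c.okI = true) (hO : c.okO = true) {t al be : ℝ}
    (hal : 0 ≤ al) (hbe : 0 ≤ be) (e1 : al * c.ya + be * c.yb = 1)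
    (ht : al * c.xa + be * c.xb = t) {Mb : ℝ}
    (hMb : Real.sqrt (1 + t ^ 2) / 2 * ((al + be) * ((c.Bn : ℝ) / c.Bd)) < Mb) :
    ∃ (M' : ℂ → ℂ) (L' ε : ℝ), 0 < ε ∧ MOk (fun m => conj (uT t) ^ 2 * ((1 + (t : ℂ) * I) / 2) *
      MqA M I0 I1 O0 O1 p0 p1 p2 q0 q1 q2 t (wu (uT t) m)) M' Mb L' ε := by
  have hh := h0
  simp only [HChk.ok0, Bool.and_eq_true, decide_eq_true_eq] at hh
  obtain ⟨⟨⟨⟨dI0, dI1⟩, dO0, dO1⟩, s0, s1⟩, -⟩ := hh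
  have z0 := shC_eq (degC_iff dI0) (degC_iff dO0) s0
  have z1 := shC_eq (degC_iff dI1) (degC_iff dO1) s1
  obtain ⟨L0, hL0, lip0⟩ := Mqc_lip (M := M) hk hl hk' hl' z0 (R := 10) (by norm_num)
  obtain ⟨L1, hL1, lip1⟩ := Mqc_lip (M := M) hk hl hk' hl' z1 (R := 10) (by norm_num)
  obtain ⟨z, hzz⟩ : ∃ z : ℂ, z = conj (uT t) ^ 2 * ((1 + (t : ℂ) * I) / 2) := ⟨_, rfl⟩
  have hzn : ‖z‖ = Real.sqrt (1 + t ^ 2) / 2 := by rw [hzz]; exact fac_norm t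
  rw [← hzz]
  have hc : Continuous (MqA M I0 I1 O0 O1 p0 p1 p2 q0 q1 q2 t) := by
    unfold MqA
    exact (Mqc_cont hk hl hk' hl' z0).add (continuous_const.mul (Mqc_cont hk hl hk' hl' z1))
  have hlip : ∀ w w' : ℂ, ‖w‖ ≤ 10 → ‖w'‖ ≤ 10 →
      ‖MqA M I0 I1 O0 O1 p0 p1 p2 q0 q1 q2 t w - MqA M I0 I1 O0 O1 p0 p1 p2 q0 q1 q2 t w'‖ ≤
        (L0 + |t| * L1) * ‖w - w'‖ := by
    intro w w' hw hw'
    have e : MqA M I0 I1 O0 O1 p0 p1 p2 q0 q1 q2 t w - MqA M I0 I1 O0 O1 p0 p1 p2 q0 q1 q2 t w' =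
        (Mqc M I0 O0 p0 p1 p2 q0 q1 q2 w - Mqc M I0 O0 p0 p1 p2 q0 q1 q2 w') +
        (t : ℂ) * (Mqc M I1 O1 p0 p1 p2 q0 q1 q2 w - Mqc M I1 O1 p0 p1 p2 q0 q1 q2 w') := by
      unfold MqA
      ring
    rw [e]
    refine (norm_add_le _ _).trans ?_
    rw [norm_mul, Complex.norm_real, Real.norm_eq_abs]
    have a1 := lip0 w w' hw hw'
    have a2 := mul_le_mul_of_nonneg_left (lip1 w w' hw hw') (abs_nonneg t)
    (clear * - a1 a2; linarith only [a1, a2])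
  exact mOk_dir (F := fun w => z * MqA M I0 I1 O0 O1 p0 p1 p2 q0 q1 q2 t w)
    (continuous_const.mul hc) (L := ‖z‖ * (L0 + |t| * L1)) (by (clear * - hL0 hL1; positivity))
    (fun w w' hw hw' => by
      rw [← mul_sub, norm_mul, mul_assoc]
      exact mul_le_mul_of_nonneg_left (hlip w w' hw hw') (norm_nonneg _))
    (uT_norm t) (b := Real.sqrt (1 + t ^ 2) / 2 * ((al + be) * ((c.Bn : ℝ) / c.Bd))) (fun m hm => by
      rw [norm_mul, hzn]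
      exact mul_le_mul_of_nonneg_left (MqA_leH hk hl hk' hl' c hr hr' h0 hI hO hal hbe e1 ht hm)
        (by (clear * -; positivity))) hMb

/-- the five coefficients of `16 Bd² (kA y² + kB x²)² - Bn² kD² (y² + x²) (α + β)²` -/
def num5 (A B : ℤ) (q0 q1 q2 n0 n1 n2 : ℤ) : Bool :=
  and (and (decide (B * n0 < A * (q0 * q0))) (decide (B * (2 * n0 + n1) < A * (2 * (q0 * q1)))))
    (and (decide (B * (n0 + 2 * n1 + n2) < A * (q1 * q1 + 2 * (q0 * q2))))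
      (and (decide (B * (n1 + 2 * n2) < A * (2 * (q1 * q2)))) (decide (B * n2 < A * (q2 * q2)))))

def numH (kA kB kD : ℤ) (c : HChk) : Bool :=
  and (decide (0 < c.ya * c.xb - c.xa * c.yb))
    (num5 (16 * ((c.Bd : ℤ) * c.Bd)) ((c.Bn : ℤ) * c.Bn * (kD * kD))
      (kA * (c.ya * c.ya) + kB * (c.xa * c.xa)) (2 * (kA * (c.ya * c.yb) + kB * (c.xa * c.xb)))
      (kA * (c.yb * c.yb) + kB * (c.xb * c.xb)) (c.ya * c.ya + c.xa * c.xa)
      (2 * (c.ya * c.yb + c.xa * c.xb)) (c.yb * c.yb + c.xb * c.xb))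

theorem num5_pos {A B q0 q1 q2 n0 n1 n2 : ℤ} (h : num5 A B q0 q1 q2 n0 n1 n2 = true)
    {al be : ℝ} (ha : 0 ≤ al) (hb : 0 ≤ be) (hab : 0 < al + be) :
    (B : ℝ) * ((n0 * al ^ 2 + n1 * (al * be) + n2 * be ^ 2) * (al + be) ^ 2) <
      A * (q0 * al ^ 2 + q1 * (al * be) + q2 * be ^ 2) ^ 2 := by
  simp only [num5, Bool.and_eq_true, decide_eq_true_eq] at h
  obtain ⟨⟨h0, h1⟩, h2, h3, h4⟩ := h
  have h0' : (B : ℝ) * n0 < A * (q0 * q0) := by exact_mod_cast h0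
  have h1' : (B : ℝ) * (2 * n0 + n1) < A * (2 * (q0 * q1)) := by exact_mod_cast h1
  have h2' : (B : ℝ) * (n0 + 2 * n1 + n2) < A * (q1 * q1 + 2 * (q0 * q2)) := by exact_mod_cast h2
  have h3' : (B : ℝ) * (n1 + 2 * n2) < A * (2 * (q1 * q2)) := by exact_mod_cast h3
  have h4' : (B : ℝ) * n2 < A * (q2 * q2) := by exact_mod_cast h4
  have k0 := mul_nonneg (pow_nonneg ha 4) (sub_pos.2 h0').le
  have k1 := mul_nonneg (mul_nonneg (pow_nonneg ha 3) hb) (sub_pos.2 h1').le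
  have k2 := mul_nonneg (mul_nonneg (pow_nonneg ha 2) (pow_nonneg hb 2)) (sub_pos.2 h2').le
  have k3 := mul_nonneg (mul_nonneg ha (pow_nonneg hb 3)) (sub_pos.2 h3').le
  have k4 := mul_nonneg (pow_nonneg hb 4) (sub_pos.2 h4').le
  have e : A * (q0 * al ^ 2 + q1 * (al * be) + q2 * be ^ 2) ^ 2 -
      (B : ℝ) * ((n0 * al ^ 2 + n1 * (al * be) + n2 * be ^ 2) * (al + be) ^ 2) =
      al ^ 4 * ((A : ℝ) * (q0 * q0) - B * n0) +
      al ^ 3 * be * ((A : ℝ) * (2 * (q0 * q1)) - B * (2 * n0 + n1)) +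
      al ^ 2 * be ^ 2 * ((A : ℝ) * (q1 * q1 + 2 * (q0 * q2)) - B * (n0 + 2 * n1 + n2)) +
      al * be ^ 3 * ((A : ℝ) * (2 * (q1 * q2)) - B * (n1 + 2 * n2)) +
      be ^ 4 * ((A : ℝ) * (q2 * q2) - B * n2) := by ring
  rcases eq_or_lt_of_le ha with h | h
  · have hb' : 0 < be := by (clear * - hab h; linarith only [hab, h])
    have := mul_pos (pow_pos hb' 4) (sub_pos.2 h4')
    (clear * - k0 k1 k2 k3 this; linarith)
  · have := mul_pos (pow_pos h 4) (sub_pos.2 h0')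
    (clear * - k1 k2 k3 k4 this; linarith)

theorem numH_lt {kA kB kD : ℤ} {c : HChk} (h : numH kA kB kD c = true) (hkA : 0 ≤ kA)
    (hkB : 0 ≤ kB) (hkD : 0 < kD) (hBd : 0 < c.Bd) {τ al be : ℝ} (hal : 0 ≤ al) (hbe : 0 ≤ be)
    (e1 : al * c.ya + be * c.yb = 1) (ht : al * c.xa + be * c.xb = τ) :
    Real.sqrt (1 + τ ^ 2) / 2 * ((al + be) * ((c.Bn : ℝ) / c.Bd)) <
      2 * ((kA : ℝ) / kD + kB / kD * τ ^ 2) := by
  simp only [numH, Bool.and_eq_true, decide_eq_true_eq] at h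
  obtain ⟨-, h5⟩ := h
  have hab : 0 < al + be := by
    by_contra h
    have ha0 : al = 0 := by (clear * - hal hbe h; linarith only [hal, hbe, h])
    have hb0 : be = 0 := by (clear * - hbe h ha0; linarith only [hbe, h, ha0])
    rw [ha0, hb0] at e1
    simp at e1
  have key := num5_pos h5 hal hbe hab
  push_cast at key
  have bd0 : (0:ℝ) < c.Bd := by exact_mod_cast hBd
  have kA0 : (0:ℝ) ≤ kA := by exact_mod_cast hkA
  have kB0 : (0:ℝ) ≤ kB := by exact_mod_cast hkB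
  have kD0 : (0:ℝ) < kD := by exact_mod_cast hkD
  have hB0 : (0:ℝ) ≤ c.Bn := Nat.cast_nonneg _
  have hs := Real.sq_sqrt (show (0:ℝ) ≤ 1 + τ ^ 2 by (clear * -; positivity))
  obtain ⟨S, hS⟩ : ∃ S : ℝ, S = Real.sqrt (1 + τ ^ 2) := ⟨_, rfl⟩
  rw [← hS] at hs ⊢
  have hS0 : 0 ≤ S := by rw [hS]; exact Real.sqrt_nonneg _
  have n1 : ((c.ya : ℝ) * c.ya + c.xa * c.xa) * al ^ 2 +
      2 * ((c.ya : ℝ) * c.yb + c.xa * c.xb) * (al * be) +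
      ((c.yb : ℝ) * c.yb + c.xb * c.xb) * be ^ 2 = 1 + τ ^ 2 := by
    have : ((c.ya : ℝ) * c.ya + c.xa * c.xa) * al ^ 2 +
      2 * ((c.ya : ℝ) * c.yb + c.xa * c.xb) * (al * be) +
      ((c.yb : ℝ) * c.yb + c.xb * c.xb) * be ^ 2 =
      (al * c.ya + be * c.yb) ^ 2 + (al * c.xa + be * c.xb) ^ 2 := by ring
    rw [this, e1, ht]
    ring
  have q1 : ((kA : ℝ) * (c.ya * c.ya) + kB * (c.xa * c.xa)) * al ^ 2 +
      2 * ((kA : ℝ) * (c.ya * c.yb) + kB * (c.xa * c.xb)) * (al * be) +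
      ((kA : ℝ) * (c.yb * c.yb) + kB * (c.xb * c.xb)) * be ^ 2 = kA + kB * τ ^ 2 := by
    have : ((kA : ℝ) * (c.ya * c.ya) + kB * (c.xa * c.xa)) * al ^ 2 +
      2 * ((kA : ℝ) * (c.ya * c.yb) + kB * (c.xa * c.xb)) * (al * be) +
      ((kA : ℝ) * (c.yb * c.yb) + kB * (c.xb * c.xb)) * be ^ 2 =
      kA * (al * c.ya + be * c.yb) ^ 2 + kB * (al * c.xa + be * c.xb) ^ 2 := by ring
    rw [this, e1, ht]
    ring
  rw [n1, q1, ← hs] at key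
  have hQ0 : 0 ≤ (kA : ℝ) + kB * τ ^ 2 := by (clear * - hkA hkB; positivity)
  have key2 : (S * (al + be) * c.Bn * kD) ^ 2 < (4 * c.Bd * (kA + kB * τ ^ 2)) ^ 2 := by
    have a1 : (S * (al + be) * c.Bn * kD) ^ 2 =
        (c.Bn : ℝ) * c.Bn * (kD * kD) * (S ^ 2 * (al + be) ^ 2) := by ring
    have a2 : (4 * c.Bd * (kA + kB * τ ^ 2)) ^ 2 =
        16 * ((c.Bd : ℝ) * c.Bd) * (kA + kB * τ ^ 2) ^ 2 := by ring
    rw [a1, a2]
    exact key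
  have key3 : S * (al + be) * c.Bn * kD < 4 * c.Bd * (kA + kB * τ ^ 2) :=
    lt_of_pow_lt_pow_left₀ 2 (by (clear * - hBd hkA hkB; positivity)) key2
  have e4 : S / 2 * ((al + be) * ((c.Bn : ℝ) / c.Bd)) = (S * (al + be) * c.Bn * kD) /
      (2 * c.Bd * kD) := by (clear * - hkD hBd hab; field_simp)
  have e5 : 2 * ((kA : ℝ) / kD + kB / kD * τ ^ 2) = (4 * c.Bd * (kA + kB * τ ^ 2)) /
      (2 * c.Bd * kD) := by
    field_simp
    ring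
  rw [e4, e5]
  exact div_lt_div_of_pos_right key3 (by positivity)

/-- the cells cover `[px/py, ∞)` -/
def covH : ℤ → ℤ → List HChk → Bool
  | _, _, [] => false
  | px, py, [c] => and (decide (c.xa * py ≤ px * c.ya)) (decide (c.yb = 0))
  | px, py, c :: d :: cs => and (decide (c.xa * py ≤ px * c.ya)) (covH c.xb c.yb (d :: cs))

/-- all conditions on a list of cells except the boxes -/
def rayB (M : ℤ) (I0 I1 O0 O1 : CL) (r r0 r1 r2 s s0 s1 s2 kA kB kD : ℤ) : List HChk → Bool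
  | [] => true
  | c :: cs => and (and (and (c.ok0 M I0 I1 O0 O1) (numH kA kB kD c))
      (and (and (and (decide (c.r = r)) (decide (c.r0 = r0)))
          (and (decide (c.r1 = r1)) (decide (c.r2 = r2))))
        (and (and (decide (c.s = s)) (decide (c.s0 = s0)))
          (and (decide (c.s1 = s1)) (decide (c.s2 = s2))))))
      (rayB M I0 I1 O0 O1 r r0 r1 r2 s s0 s1 s2 kA kB kD cs)

/-- the conditions of one cell of a list -/
theorem rayB_mem {M : ℤ} {I0 I1 O0 O1 : CL} {r r0 r1 r2 s s0 s1 s2 kA kB kD : ℤ}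
    {cs : List HChk} (h : rayB M I0 I1 O0 O1 r r0 r1 r2 s s0 s1 s2 kA kB kD cs = true)
    {c : HChk} (hc : c ∈ cs) : c.ok0 M I0 I1 O0 O1 = true ∧ numH kA kB kD c = true ∧
      (c.r = r ∧ c.r0 = r0 ∧ c.r1 = r1 ∧ c.r2 = r2) ∧
      (c.s = s ∧ c.s0 = s0 ∧ c.s1 = s1 ∧ c.s2 = s2) := by
  induction cs with
  | nil => simp at hc
  | cons d cs ih =>
    simp only [rayB, Bool.and_eq_true, decide_eq_true_eq] at h
    obtain ⟨⟨⟨h1, h2⟩, ⟨⟨a1, a2⟩, a3, a4⟩, ⟨b1, b2⟩, b3, b4⟩, h4⟩ := h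
    rcases List.mem_cons.1 hc with rfl | hc
    · exact ⟨h1, h2, ⟨a1, a2, a3, a4⟩, b1, b2, b3, b4⟩
    · exact ih h4 hc

/-- the cell of `τ` -/
theorem covH_sound {τ : ℝ} : ∀ (cs : List HChk) (px py : ℤ), covH px py cs = true → 0 ≤ py →
    (∀ c ∈ cs, 0 ≤ c.ya ∧ 0 ≤ c.yb ∧ 0 ≤ c.xb) → (px : ℝ) ≤ py * τ → (py = 0 → 0 < px) →
    ∃ c ∈ cs, (c.xa : ℝ) ≤ c.ya * τ ∧ (c.yb : ℝ) * τ ≤ c.xb := by
  intro cs
  induction cs with
  | nil => intro px py h; simp [covH] at h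
  | cons c cs ih =>
    intro px py h hpy hcs hp hp0
    have hc := hcs c List.mem_cons_self
    have hpy' : 0 < py := by
      rcases eq_or_lt_of_le hpy with h1 | h1
      · exfalso
        have h2 := hp0 h1.symm
        rw [← h1] at hp
        have : (0:ℝ) < px := by exact_mod_cast h2
        push_cast at hp
        (clear * - this hp; linarith only [this, hp])
      · exact h1
    have hpyR : (0:ℝ) < py := by exact_mod_cast hpy'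
    have first : c.xa * py ≤ px * c.ya → (c.xa : ℝ) ≤ c.ya * τ := fun h1 => by
      have h3 : (c.xa : ℝ) * py ≤ px * c.ya := by exact_mod_cast h1
      have hy : (0:ℝ) ≤ c.ya := by exact_mod_cast hc.1
      have h4 := mul_le_mul_of_nonneg_right hp hy
      have h5 : (c.xa : ℝ) * py ≤ c.ya * τ * py := by linarith only [h3, h4]
      exact le_of_mul_le_mul_right h5 hpyR
    cases cs with
    | nil =>
      simp only [covH, Bool.and_eq_true, decide_eq_true_eq] at h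
      refine ⟨c, List.mem_cons_self, first h.1, ?_⟩
      rw [h.2]
      have : (0:ℝ) ≤ c.xb := by exact_mod_cast hc.2.2
      simpa using this
    | cons d cs =>
      simp only [covH, Bool.and_eq_true, decide_eq_true_eq] at h
      by_cases hb : (c.yb : ℝ) * τ ≤ c.xb
      · exact ⟨c, List.mem_cons_self, first h.1, hb⟩
      · have hb' := (not_le.1 hb).le
        obtain ⟨e, he, he2⟩ := ih c.xb c.yb h.2 hc.2.1
          (fun e he => hcs e (List.mem_cons_of_mem _ he)) hb' (fun h0 => by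
            exfalso
            apply hb
            rw [h0]
            have : (0:ℝ) ≤ c.xb := by exact_mod_cast hc.2.2
            simpa using this)
        exact ⟨e, List.mem_cons_of_mem _ he, he2⟩

/-- **the multiplier of every direction `τ ≥ Tn/Td`** -/
theorem mOk_ray {p0 p1 p2 q0 q1 q2 : ℝ} (hp : InL p0 p1 p2) (hq : OutD q0 q1 q2)
    {M : ℤ} {I0 I1 O0 O1 : CL} {r r0 r1 r2 s s0 s1 s2 kA kB kD Tn Td : ℤ}
    (hr : ROk r r0 r1 r2 p0 p1 p2) (hr' : ROk s s0 s1 s2 q0 q1 q2) {cs : List HChk}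
    (hTd : 0 < Td) (hkA : 0 ≤ kA) (hkB : 0 ≤ kB) (hkD : 0 < kD)
    (hcov : covH Tn Td cs = true)
    (harc : rayB M I0 I1 O0 O1 r r0 r1 r2 s s0 s1 s2 kA kB kD cs = true)
    (hbox : ∀ c ∈ cs, c.okI = true ∧ c.okO = true) {τ : ℝ} (hτ : (Tn : ℝ) ≤ Td * τ) :
    ∃ (Mb : ℝ) (M' : ℂ → ℂ) (Lm ε₀ : ℝ), Mb < 2 * ((kA : ℝ) / kD + kB / kD * τ ^ 2) ∧
      0 < ε₀ ∧ MOk (fun m => conj (ud τ) ^ 2 * ((1 + (τ : ℂ) * I) / 2) *
        MqA M I0 I1 O0 O1 p0 p1 p2 q0 q1 q2 τ (wu (ud τ) m)) M' Mb Lm ε₀ := by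
  have hpos : ∀ c ∈ cs, (0 ≤ c.ya ∧ 0 ≤ c.yb ∧ 0 ≤ c.xb) ∧ 0 < c.Bd ∧
      0 < c.ya * c.xb - c.xa * c.yb := fun c hc => by
    obtain ⟨h1, h2, -⟩ := rayB_mem harc hc
    simp only [HChk.ok0, Bool.and_eq_true, decide_eq_true_eq] at h1
    obtain ⟨-, -, ⟨⟨-, hya⟩, ⟨-, hyb⟩, hxb, hBd⟩, -⟩ := h1
    simp only [numH, Bool.and_eq_true, decide_eq_true_eq] at h2
    exact ⟨⟨hya, hyb, hxb⟩, hBd, h2.1⟩
  obtain ⟨c, hc, ha, hb⟩ := covH_sound cs Tn Td hcov hTd.le (fun c hc => (hpos c hc).1) hτ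
    (fun h => absurd h hTd.ne')
  obtain ⟨h1, h2, ⟨a1, a2, a3, a4⟩, b1, b2, b3, b4⟩ := rayB_mem harc hc
  obtain ⟨-, hBd, hΔ⟩ := hpos c hc
  have hΔ' : (0:ℝ) < c.ya * c.xb - c.xa * c.yb := by exact_mod_cast hΔ
  obtain ⟨al, hal⟩ : ∃ al : ℝ, al = (c.xb - c.yb * τ) / (c.ya * c.xb - c.xa * c.yb) := ⟨_, rfl⟩
  obtain ⟨be, hbe⟩ : ∃ be : ℝ, be = (c.ya * τ - c.xa) / (c.ya * c.xb - c.xa * c.yb) := ⟨_, rfl⟩
  have hal0 : 0 ≤ al := by rw [hal]; exact div_nonneg (by (clear * - hb; linarith only [hb])) hΔ'.le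
  have hbe0 : 0 ≤ be := by rw [hbe]; exact div_nonneg (by linarith only [ha]) hΔ'.le
  have e1 : al * c.ya + be * c.yb = 1 := by
    rw [hal, hbe, div_mul_eq_mul_div, div_mul_eq_mul_div, ← add_div, div_eq_iff hΔ'.ne']
    ring
  have e2 : al * c.xa + be * c.xb = τ := by
    rw [hal, hbe, div_mul_eq_mul_div, div_mul_eq_mul_div, ← add_div, div_eq_iff hΔ'.ne']
    ring
  have hlt := numH_lt h2 hkA hkB hkD hBd hal0 hbe0 e1 e2
  obtain ⟨Mb, hM1, hM2⟩ := exists_between hlt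
  obtain ⟨k, hk, hl⟩ := hp.low
  have h3 : OutL (q1 + q2) q0 q1 q2 := ⟨rfl, hq.pos, hq.pos'⟩
  obtain ⟨k', hk', hl'⟩ := h3.low
  obtain ⟨M', L', ε, hε, hMO⟩ := mOk_H (I0 := I0) (I1 := I1) (O0 := O0) (O1 := O1) (M := M)
    hk (fun w hw => le_trans (by (clear * - hk; nlinarith only [hk])) (hl w hw)) hk'
    (fun w => le_trans (by nlinarith only [hk']) (hl' w)) c
    (by rw [a1, a2, a3, a4]; exact hr) (by rw [b1, b2, b3, b4]; exact hr') h1 (hbox c hc).1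
    (hbox c hc).2 hal0 hbe0 e1 e2 hM1
  refine ⟨Mb, M', L', ε, hM2, hε, ?_⟩
  have e : uT τ = ud τ := by
    unfold uT ud
    rw [mul_comm (τ : ℂ) I]
  rw [e] at hMO
  exact hMO

end Pool.Agent.Helper11.CKC

end
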